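import Mathlib

/-!
# Positive definiteness of the homogeneous zonal (Gegenbauer) polynomials in every dimension

`Zg n k p m = m^(k/2) P_k(p / √m)`, `P_k` the zonal polynomial of `R^n` of degree `k` with
`P_k(1) = 1`.  Main statements: `gen_pos` (kernel `Zg n k ⟨u_i,u_j⟩ (|u_i|^2 |u_j|^2)` is positive
semidefinite for every `n ≥ 2` and `k`), `gen_pos_psd` (with positive semidefinite matrices of radial
functions).

Proof: Fischer inner product on polynomials; `Z_k(x, .)` is harmonic, because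
`D_x Z_{k+1} = (k+1) |x|^2 Z_k` (induction from the three term recursion alone).
-/

set_option autoImplicit false

namespace Pool.Agent.Lib.MP_f1379f_gt.FV

/-- Homogeneous zonal polynomials: `Zg n k p m = m^(k/2) P_k(p/√m)`. -/
noncomputable def Zg (n : ℕ) : ℕ → ℝ → ℝ → ℝ
  | 0, _, _ => 1
  | 1, p, _ => p
  | k + 2, p, m => ((2 * k + n) * (p * Zg n (k + 1) p m) - (k + 1) * (m * Zg n k p m)) / (k + n - 1)

namespace GENM

open MvPolynomial

variable {n : ℕ}

/-- The polynomial ring. -/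
abbrev Q (n : ℕ) := MvPolynomial (Fin n) ℝ

/-- `α!` -/
noncomputable def fac (α : Fin n →₀ ℕ) : ℝ := ∏ i, ((α i).factorial : ℝ)

lemma fac_nonneg (α : Fin n →₀ ℕ) : 0 ≤ fac α :=
  Finset.prod_nonneg fun _ _ => Nat.cast_nonneg _

lemma fac_single (i : Fin n) (β : Fin n →₀ ℕ) :
    fac (Finsupp.single i 1 + β) = ((β i : ℝ) + 1) * fac β := by
  unfold fac
  rw [← Finset.mul_prod_erase Finset.univ _ (Finset.mem_univ i),
    ← Finset.mul_prod_erase Finset.univ (fun j => ((β j).factorial : ℝ)) (Finset.mem_univ i)]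
  have h1 : ∏ x ∈ Finset.univ.erase i, ((((Finsupp.single i 1 + β : Fin n →₀ ℕ) x).factorial : ℕ) : ℝ)
      = ∏ x ∈ Finset.univ.erase i, ((β x).factorial : ℝ) := by
    apply Finset.prod_congr rfl
    intro j hj
    have hj : j ≠ i := Finset.ne_of_mem_erase hj
    simp [Finsupp.add_apply, hj.symm]
  rw [h1]
  have h2 : (((Finsupp.single i 1 + β : Fin n →₀ ℕ) i).factorial : ℝ) =
      ((β i : ℝ) + 1) * ((β i).factorial : ℝ) := by
    rw [Finsupp.add_apply, Finsupp.single_eq_same, add_comm, Nat.factorial_succ]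
    push_cast
    ring
  rw [h2]
  ring

/-- The Fischer product. -/
noncomputable def fi (p q : Q n) : ℝ := ∑ α ∈ p.support, fac α * (coeff α p * coeff α q)

lemma fi_eq {p : Q n} (q : Q n) {S : Finset (Fin n →₀ ℕ)} (h : p.support ⊆ S) :
    fi p q = ∑ α ∈ S, fac α * (coeff α p * coeff α q) := by
  unfold fi
  apply Finset.sum_subset h
  intro α _ hα
  rw [notMem_support_iff.1 hα]
  ring

lemma fi_comm (p q : Q n) : fi p q = fi q p := by
  rw [fi_eq q (Finset.subset_union_left (s₂ := q.support)),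
    fi_eq p (Finset.subset_union_right (s₁ := p.support))]
  apply Finset.sum_congr rfl
  intro α _
  ring

lemma fi_add (p p' q : Q n) : fi (p + p') q = fi p q + fi p' q := by
  have h : (p + p').support ⊆ p.support ∪ p'.support := support_add
  rw [fi_eq q h, fi_eq q (Finset.subset_union_left (s₂ := p'.support)),
    fi_eq q (Finset.subset_union_right (s₁ := p.support)), ← Finset.sum_add_distrib]
  apply Finset.sum_congr rfl
  intro α _
  rw [coeff_add]
  ring

lemma fi_C_mul (a : ℝ) (p q : Q n) : fi (C a * p) q = a * fi p q := by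
  have h : (C a * p).support ⊆ p.support := by
    intro α hα
    rw [mem_support_iff] at hα ⊢
    intro h0
    apply hα
    rw [coeff_C_mul, h0, mul_zero]
  rw [fi_eq q h, fi, Finset.mul_sum]
  apply Finset.sum_congr rfl
  intro α _
  rw [coeff_C_mul]
  ring

lemma fi_zero (q : Q n) : fi 0 q = 0 := by simp [fi]

lemma fi_zero_right (p : Q n) : fi p 0 = 0 := by simp [fi]

lemma fi_sum {ι : Type*} (s : Finset ι) (f : ι → Q n) (q : Q n) :
    fi (∑ i ∈ s, f i) q = ∑ i ∈ s, fi (f i) q := by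
  classical
  induction s using Finset.induction_on with
  | empty => simp [fi_zero]
  | insert a s ha ih => rw [Finset.sum_insert ha, Finset.sum_insert ha, fi_add, ih]

lemma fi_nonneg (p : Q n) : 0 ≤ fi p p :=
  Finset.sum_nonneg fun α _ => mul_nonneg (fac_nonneg α) (mul_self_nonneg _)

lemma fi_X_mul (i : Fin n) (p q : Q n) : fi (X i * p) q = fi p (pderiv i q) := by
  unfold fi
  rw [support_X_mul, Finset.sum_map]
  apply Finset.sum_congr rfl
  intro β _
  rw [addLeftEmbedding_apply, coeff_X_mul, fac_single, coeff_pderiv, add_comm β]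
  ring

/-- The linear form with coefficients `x`. -/
noncomputable def L (x : Fin n → ℝ) : Q n := ∑ i, C (x i) * X i

/-- The squared norm. -/
noncomputable def rho : Q n := ∑ i : Fin n, X i * X i

/-- `|x|^2` -/
def nn (x : Fin n → ℝ) : ℝ := ∑ i, x i * x i

/-- The Laplacian. -/
noncomputable def lap (q : Q n) : Q n := ∑ i : Fin n, pderiv i (pderiv i q)

/-- The derivative in direction `x`. -/
noncomputable def dx (x : Fin n → ℝ) (q : Q n) : Q n := ∑ i : Fin n, C (x i) * pderiv i q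

lemma lap_add (p q : Q n) : lap (p + q) = lap p + lap q := by
  simp only [lap, map_add, Finset.sum_add_distrib]

lemma lap_C_mul (a : ℝ) (q : Q n) : lap (C a * q) = C a * lap q := by
  simp only [lap, pderiv_C_mul, Finset.mul_sum]

lemma dx_add (x : Fin n → ℝ) (p q : Q n) : dx x (p + q) = dx x p + dx x q := by
  simp only [dx, map_add, mul_add, Finset.sum_add_distrib]

lemma dx_C_mul (x : Fin n → ℝ) (a : ℝ) (q : Q n) : dx x (C a * q) = C a * dx x q := by
  simp only [dx, pderiv_C_mul, Finset.mul_sum]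
  apply Finset.sum_congr rfl
  intro i _
  ring

lemma dx_mul (x : Fin n → ℝ) (p q : Q n) : dx x (p * q) = dx x p * q + p * dx x q := by
  simp only [dx, pderiv_mul, Finset.mul_sum, Finset.sum_mul, ← Finset.sum_add_distrib]
  apply Finset.sum_congr rfl
  intro i _
  ring

lemma pderiv_L (x : Fin n → ℝ) (i : Fin n) : pderiv i (L x) = C (x i) := by
  unfold L
  rw [map_sum, Finset.sum_eq_single i]
  · rw [pderiv_C_mul, pderiv_X_self, mul_one]
  · intro j _ hj
    rw [pderiv_C_mul, pderiv_X_of_ne hj, mul_zero]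
  · simp

lemma pderiv_rho (i : Fin n) : pderiv i (rho : Q n) = C 2 * X i := by
  unfold rho
  rw [map_sum, Finset.sum_eq_single i]
  · rw [pderiv_mul, pderiv_X_self, show (C 2 : Q n) = 2 from map_ofNat C 2]
    ring
  · intro j _ hj
    rw [pderiv_mul, pderiv_X_of_ne hj]
    ring
  · simp

lemma dx_L (x : Fin n → ℝ) : dx x (L x) = C (nn x) := by
  simp only [dx, pderiv_L, nn, map_sum, map_mul]

lemma dx_rho (x : Fin n → ℝ) : dx x rho = C 2 * L x := by
  simp only [dx, pderiv_rho, L, Finset.mul_sum]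
  apply Finset.sum_congr rfl
  intro i _
  ring

lemma fi_L_mul (x : Fin n → ℝ) (p q : Q n) : fi (L x * p) q = fi p (dx x q) := by
  unfold L dx
  rw [Finset.sum_mul, fi_sum, fi_comm p, fi_sum]
  apply Finset.sum_congr rfl
  intro i _
  rw [mul_assoc, fi_C_mul, fi_X_mul, fi_C_mul, fi_comm]

lemma fi_rho_mul (p q : Q n) : fi (rho * p) q = fi p (lap q) := by
  unfold rho lap
  rw [Finset.sum_mul, fi_sum, fi_comm p, fi_sum]
  apply Finset.sum_congr rfl
  intro i _
  rw [mul_assoc, fi_X_mul, fi_X_mul, fi_comm]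

lemma pderiv_comm (i j : Fin n) (q : Q n) :
    pderiv i (pderiv j q) = pderiv j (pderiv i q) := by
  have h : ⁅(pderiv i : Derivation ℝ (Q n) (Q n)), (pderiv j : Derivation ℝ (Q n) (Q n))⁆ = 0 := by
    apply derivation_ext
    intro k
    rw [Derivation.commutator_apply, Derivation.zero_apply]
    have h1 : ∀ a b : Fin n, pderiv a (pderiv b (X k : Q n)) = 0 := by
      intro a b
      rcases eq_or_ne k b with rfl | hb
      · rw [pderiv_X_self, pderiv_one]
      · rw [pderiv_X_of_ne hb, map_zero]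
    rw [h1, h1, sub_zero]
  have h2 := congrArg (fun D => D q) h
  simp only [Derivation.commutator_apply, Derivation.zero_apply] at h2
  exact sub_eq_zero.1 h2

lemma lap_dx (x : Fin n → ℝ) (q : Q n) : lap (dx x q) = dx x (lap q) := by
  unfold lap dx
  simp only [map_sum, pderiv_C_mul, Finset.mul_sum]
  rw [Finset.sum_comm]
  apply Finset.sum_congr rfl
  intro i _
  apply Finset.sum_congr rfl
  intro j _
  rw [pderiv_comm j i q, pderiv_comm j i]

lemma L_hom (x : Fin n → ℝ) : (L x).IsHomogeneous 1 :=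
  IsHomogeneous.sum _ _ _ fun _ _ => isHomogeneous_C_mul_X _ _

lemma rho_hom : (rho : Q n).IsHomogeneous 2 :=
  IsHomogeneous.sum _ _ _ fun _ _ => (isHomogeneous_X _ _).mul (isHomogeneous_X _ _)

lemma dx_hom (x : Fin n → ℝ) {q : Q n} {d : ℕ} (hq : q.IsHomogeneous (d + 1)) :
    (dx x q).IsHomogeneous d :=
  IsHomogeneous.sum _ _ _ fun i _ => by
    have h := (hq.pderiv (i := i)).C_mul (x i)
    simpa using h

lemma lap_L_mul (x : Fin n → ℝ) (q : Q n) : lap (L x * q) = L x * lap q + C 2 * dx x q := by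
  have h : ∀ i : Fin n, pderiv i (pderiv i (L x * q)) =
      L x * pderiv i (pderiv i q) + C 2 * (C (x i) * pderiv i q) := by
    intro i
    rw [pderiv_mul, map_add, pderiv_mul, pderiv_mul, pderiv_L, pderiv_C,
      show (C 2 : Q n) = 2 from map_ofNat C 2]
    ring
  unfold lap dx
  rw [Finset.sum_congr rfl fun i _ => h i, Finset.sum_add_distrib, ← Finset.mul_sum,
    ← Finset.mul_sum]

lemma lap_rho_mul (q : Q n) (d : ℕ) (hq : q.IsHomogeneous d) :
    lap (rho * q) = rho * lap q + C (2 * (n : ℝ) + 4 * (d : ℝ)) * q := by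
  have h : ∀ i : Fin n, pderiv i (pderiv i (rho * q)) =
      rho * pderiv i (pderiv i q) + (C 2 * q + C 4 * (X i * pderiv i q)) := by
    intro i
    rw [pderiv_mul, map_add, pderiv_mul, pderiv_mul, pderiv_rho, pderiv_C_mul, pderiv_X_self]
    have e2 : (C 2 : Q n) = 2 := map_ofNat C 2
    have e4 : (C 4 : Q n) = 4 := map_ofNat C 4
    rw [e2, e4]
    ring
  unfold lap
  rw [Finset.sum_congr rfl fun i _ => h i, Finset.sum_add_distrib, ← Finset.mul_sum,
    Finset.sum_add_distrib, Finset.sum_const, Finset.card_univ, Fintype.card_fin,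
    ← Finset.mul_sum, hq.sum_X_mul_pderiv]
  have e2 : (C 2 : Q n) = 2 := map_ofNat C 2
  have e4 : (C 4 : Q n) = 4 := map_ofNat C 4
  simp only [nsmul_eq_mul, map_add, map_mul, map_natCast, e2, e4]
  ring

/-- The homogeneous zonal polynomial as a polynomial in the second vector. -/
noncomputable def Zp (x : Fin n → ℝ) : ℕ → Q n
  | 0 => 1
  | 1 => L x
  | k + 2 => C (((k : ℝ) + n - 1)⁻¹) * (C (2 * (k : ℝ) + n) * (L x * Zp x (k + 1)) +
      C (-(((k : ℝ) + 1) * nn x)) * (rho * Zp x k))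

lemma Zp_two (x : Fin n → ℝ) (k : ℕ) : Zp x (k + 2) =
    C (((k : ℝ) + n - 1)⁻¹) * (C (2 * (k : ℝ) + n) * (L x * Zp x (k + 1)) +
      C (-(((k : ℝ) + 1) * nn x)) * (rho * Zp x k)) := rfl

lemma Zp_rec (hn : 2 ≤ n) (x : Fin n → ℝ) (k : ℕ) : C ((k : ℝ) + n - 1) * Zp x (k + 2) =
    C (2 * (k : ℝ) + n) * (L x * Zp x (k + 1)) +
      C (-(((k : ℝ) + 1) * nn x)) * (rho * Zp x k) := by
  have hn' : (2 : ℝ) ≤ n := by exact_mod_cast hn
  have hk : (0 : ℝ) ≤ k := Nat.cast_nonneg k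
  rw [Zp_two, ← mul_assoc, ← C_mul, mul_inv_cancel₀ (by linarith), C_1, one_mul]

lemma Zp_hom (x : Fin n → ℝ) (k : ℕ) :
    (Zp x k).IsHomogeneous k ∧ (Zp x (k + 1)).IsHomogeneous (k + 1) := by
  induction k with
  | zero => exact ⟨isHomogeneous_one _ _, L_hom x⟩
  | succ k ih =>
    refine ⟨ih.2, ?_⟩
    rw [Zp_two]
    apply IsHomogeneous.C_mul
    apply IsHomogeneous.add
    · apply IsHomogeneous.C_mul
      have h := (L_hom x).mul ih.2
      rwa [show 1 + (k + 1) = k + 1 + 1 by ring] at h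
    · apply IsHomogeneous.C_mul
      have h := (rho_hom (n := n)).mul ih.1
      rwa [show 2 + k = k + 1 + 1 by ring] at h

lemma C_cancel {a : ℝ} (ha : a ≠ 0) {p q : Q n} (h : C a * p = C a * q) : p = q := by
  have h1 := congrArg (fun r => C a⁻¹ * r) h
  simp only [← mul_assoc, ← C_mul, inv_mul_cancel₀ ha, C_1, one_mul] at h1
  exact h1

lemma dx_Zp (hn : 2 ≤ n) (x : Fin n → ℝ) (k : ℕ) :
    dx x (Zp x (k + 1)) = C (((k : ℝ) + 1) * nn x) * Zp x k ∧
      dx x (Zp x (k + 2)) = C (((k : ℝ) + 2) * nn x) * Zp x (k + 1) := by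
  have hn' : (2 : ℝ) ≤ n := by exact_mod_cast hn
  induction k with
  | zero =>
    have h0 : dx x (Zp x (0 + 1)) = C ((((0 : ℕ) : ℝ) + 1) * nn x) * Zp x 0 := by
      change dx x (L x) = _ * 1
      rw [dx_L]
      simp
    refine ⟨h0, ?_⟩
    apply C_cancel (a := ((0 : ℕ) : ℝ) + n - 1) (by simp; linarith)
    rw [← dx_C_mul, Zp_rec hn]
    change dx x (C (2 * ((0 : ℕ) : ℝ) + n) * (L x * L x) +
      C (-((((0 : ℕ) : ℝ) + 1) * nn x)) * (rho * 1)) =
      C (((0 : ℕ) : ℝ) + n - 1) * (C ((((0 : ℕ) : ℝ) + 2) * nn x) * L x)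
    rw [dx_add, dx_C_mul, dx_C_mul, mul_one, dx_mul, dx_L, dx_rho]
    simp only [map_mul, map_add, map_sub, map_neg, map_natCast, map_ofNat, map_one]
    push_cast
    ring
  | succ k ih =>
    obtain ⟨h1, h2⟩ := ih
    have e : ((k + 1 : ℕ) : ℝ) = (k : ℝ) + 1 := by push_cast; ring
    refine ⟨by rw [e, h2]; ring_nf, ?_⟩
    have hk : (0 : ℝ) ≤ k := Nat.cast_nonneg k
    apply C_cancel (a := ((k + 1 : ℕ) : ℝ) + n - 1) (by rw [e]; linarith)
    rw [← dx_C_mul, Zp_rec hn, dx_add, dx_C_mul, dx_C_mul, dx_mul, dx_mul, dx_L, dx_rho,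
      show k + 1 + 1 = k + 2 from rfl, h1, h2]
    have h3 := Zp_rec hn x k
    simp only [map_mul, map_add, map_sub, map_neg, map_natCast, map_ofNat, map_one] at h3 ⊢
    push_cast at h3 ⊢
    linear_combination (((k : Q n) + 2) * C (nn x)) * (-h3)

lemma lap_Zp (hn : 2 ≤ n) (x : Fin n → ℝ) (k : ℕ) :
    lap (Zp x k) = 0 ∧ lap (Zp x (k + 1)) = 0 := by
  have hn' : (2 : ℝ) ≤ n := by exact_mod_cast hn
  have l0 : lap (Zp x 0) = 0 := by
    unfold lap
    apply Finset.sum_eq_zero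
    intro i _
    change pderiv i (pderiv i (1 : Q n)) = 0
    rw [pderiv_one, map_zero]
  have l1 : lap (Zp x 1) = 0 := by
    unfold lap
    apply Finset.sum_eq_zero
    intro i _
    change pderiv i (pderiv i (L x)) = 0
    rw [pderiv_L, pderiv_C]
  induction k with
  | zero => exact ⟨l0, l1⟩
  | succ k ih =>
    refine ⟨ih.2, ?_⟩
    have hk : (0 : ℝ) ≤ k := Nat.cast_nonneg k
    apply C_cancel (a := (k : ℝ) + n - 1) (by linarith)
    rw [← lap_C_mul, show k + 1 + 1 = k + 2 from rfl, Zp_rec hn, lap_add, lap_C_mul, lap_C_mul,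
      lap_L_mul, lap_rho_mul _ k (Zp_hom x k).1, ih.1, ih.2, (dx_Zp hn x k).1]
    simp only [map_mul, map_add, map_neg, map_natCast, map_ofNat, map_one]
    ring

/-- The value at a vector. -/
lemma eval_L (x y : Fin n → ℝ) : eval x (L y) = ∑ i, y i * x i := by
  unfold L
  rw [map_sum]
  apply Finset.sum_congr rfl
  intro i _
  simp

lemma eval_rho (x : Fin n → ℝ) : eval x (rho : Q n) = nn x := by
  unfold rho nn
  rw [map_sum]
  apply Finset.sum_congr rfl
  intro i _
  simp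

lemma eval_Zp (hn : 2 ≤ n) (x y : Fin n → ℝ) (k : ℕ) :
    eval x (Zp y k) = Zg n k (∑ i, y i * x i) (nn y * nn x) ∧
      eval x (Zp y (k + 1)) = Zg n (k + 1) (∑ i, y i * x i) (nn y * nn x) := by
  have hn' : (2 : ℝ) ≤ n := by exact_mod_cast hn
  induction k with
  | zero =>
    refine ⟨?_, ?_⟩
    · change eval x (1 : Q n) = 1
      simp
    · change eval x (L y) = _
      rw [eval_L]
      rfl
  | succ k ih =>
    refine ⟨ih.2, ?_⟩
    rw [show k + 1 + 1 = k + 2 from rfl, Zp_two]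
    simp only [map_mul, map_add, eval_C]
    rw [ih.1, ih.2, eval_L, eval_rho]
    change _ = ((2 * (k : ℝ) + n) * ((∑ i, y i * x i) * Zg n (k + 1) (∑ i, y i * x i) (nn y * nn x)) -
      ((k : ℝ) + 1) * (nn y * nn x * Zg n k (∑ i, y i * x i) (nn y * nn x))) / ((k : ℝ) + n - 1)
    rw [div_eq_inv_mul]
    ring

lemma eval_dx (x : Fin n → ℝ) {q : Q n} {d : ℕ} (hq : q.IsHomogeneous d) :
    eval x (dx x q) = d * eval x q := by
  have h := congrArg (eval x) hq.sum_X_mul_pderiv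
  rw [map_sum] at h
  simp only [map_mul, eval_X, nsmul_eq_mul, map_natCast] at h
  rw [← h]
  unfold dx
  rw [map_sum]
  apply Finset.sum_congr rfl
  intro i _
  simp

/-- The Fischer constants. -/
noncomputable def Ak (n : ℕ) : ℕ → ℝ
  | 0 => 1
  | 1 => 1
  | k + 2 => (2 * (k : ℝ) + n) / ((k : ℝ) + n - 1) * ((k : ℝ) + 2) * Ak n (k + 1)

lemma Ak_pos (hn : 2 ≤ n) (k : ℕ) : 0 < Ak n k ∧ 0 < Ak n (k + 1) := by
  have hn' : (2 : ℝ) ≤ n := by exact_mod_cast hn
  induction k with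
  | zero => exact ⟨one_pos, one_pos⟩
  | succ k ih =>
    refine ⟨ih.2, ?_⟩
    have hk : (0 : ℝ) ≤ k := Nat.cast_nonneg k
    change 0 < (2 * (k : ℝ) + n) / ((k : ℝ) + n - 1) * ((k : ℝ) + 2) * Ak n (k + 1)
    have h1 : 0 < (k : ℝ) + n - 1 := by linarith
    have h2 : 0 < 2 * (k : ℝ) + n := by linarith
    have := ih.2
    positivity

lemma fi_one {q : Q n} (hq : q.IsHomogeneous 0) (x : Fin n → ℝ) : fi 1 q = eval x q := by
  rw [← totalDegree_zero_iff_isHomogeneous, totalDegree_eq_zero_iff_eq_C] at hq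
  rw [hq, eval_C]
  have h1 : (1 : Q n).support ⊆ {0} := by
    intro α hα
    rw [mem_support_iff, coeff_one] at hα
    simp only [ne_eq, ite_eq_right_iff, one_ne_zero, imp_false, not_not] at hα
    simp [hα]
  rw [fi_eq _ h1]
  simp [fac]

lemma fi_Zp (hn : 2 ≤ n) (x : Fin n → ℝ) (k : ℕ) :
    (∀ q : Q n, q.IsHomogeneous k → lap q = 0 → fi (Zp x k) q = Ak n k * eval x q) ∧
      (∀ q : Q n, q.IsHomogeneous (k + 1) → lap q = 0 →
        fi (Zp x (k + 1)) q = Ak n (k + 1) * eval x q) := by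
  have hn' : (2 : ℝ) ≤ n := by exact_mod_cast hn
  induction k with
  | zero =>
    refine ⟨fun q hq _ => ?_, fun q hq _ => ?_⟩
    · change fi 1 q = 1 * _
      rw [fi_one hq x, one_mul]
    · change fi (L x) q = 1 * _
      have h := fi_L_mul x 1 q
      rw [mul_one] at h
      rw [h, fi_one (dx_hom x hq) x, eval_dx x hq]
      push_cast
      ring
  | succ k ih =>
    refine ⟨ih.2, fun q hq hl => ?_⟩
    have hk : (0 : ℝ) ≤ k := Nat.cast_nonneg k
    have h1 : 0 < (k : ℝ) + n - 1 := by linarith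
    rw [show k + 1 + 1 = k + 2 from rfl] at hq ⊢
    rw [Zp_two, fi_C_mul, fi_add, fi_C_mul, fi_C_mul, fi_L_mul, fi_rho_mul, hl, fi_zero_right,
      mul_zero, add_zero, ih.2 _ (dx_hom x hq) (by
        rw [lap_dx, hl]
        simp [dx]), eval_dx x hq]
    change _ = (2 * (k : ℝ) + n) / ((k : ℝ) + n - 1) * ((k : ℝ) + 2) * Ak n (k + 1) * _
    push_cast
    field_simp

end GENM

open GENM in
/-- The kernel `Zg n k ⟨u_i,u_j⟩ (|u_i|^2 |u_j|^2)` is positive semidefinite. -/
theorem gen_pos {n : ℕ} (hn : 2 ≤ n) (k : ℕ) {ι : Type*} (s : Finset ι)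
    (u : ι → EuclideanSpace ℝ (Fin n)) (c : ι → ℝ) :
    0 ≤ ∑ i ∈ s, ∑ j ∈ s, c i * c j *
      Zg n k (inner ℝ (u i) (u j)) (inner ℝ (u i) (u i) * inner ℝ (u j) (u j)) := by
  have hin : ∀ a b : EuclideanSpace ℝ (Fin n), (inner ℝ a b : ℝ) = ∑ l, a l * b l := by
    intro a b
    rw [PiLp.inner_apply]
    apply Finset.sum_congr rfl
    intro l _
    simp [mul_comm]
  have h1 : ∀ i j, fi (Zp (fun l => u i l) k) (Zp (fun l => u j l) k) =
      Ak n k * Zg n k (inner ℝ (u i) (u j)) (inner ℝ (u i) (u i) * inner ℝ (u j) (u j)) := by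
    intro i j
    rw [(fi_Zp hn _ k).1 _ (Zp_hom _ k).1 (lap_Zp hn _ k).1, (eval_Zp hn _ _ k).1]
    congr 1
    rw [hin, hin, hin]
    unfold nn
    congr 1
    · apply Finset.sum_congr rfl
      intro l _
      ring
    · ring
  have h2 : fi (∑ i ∈ s, MvPolynomial.C (c i) * Zp (fun l => u i l) k)
      (∑ j ∈ s, MvPolynomial.C (c j) * Zp (fun l => u j l) k) =
      Ak n k * ∑ i ∈ s, ∑ j ∈ s, c i * c j *
        Zg n k (inner ℝ (u i) (u j)) (inner ℝ (u i) (u i) * inner ℝ (u j) (u j)) := by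
    rw [fi_sum, Finset.mul_sum]
    apply Finset.sum_congr rfl
    intro i _
    rw [fi_C_mul, fi_comm, fi_sum, Finset.mul_sum, Finset.mul_sum]
    apply Finset.sum_congr rfl
    intro j _
    rw [fi_C_mul, fi_comm, h1 i j]
    ring
  have h3 := fi_nonneg (∑ i ∈ s, MvPolynomial.C (c i) * Zp (fun l => u i l) k)
  rw [h2] at h3
  exact nonneg_of_mul_nonneg_right h3 (Ak_pos hn k).1

/-- The same with a positive semidefinite matrix `∑ c, w c * (B c) (B c)^T` of radial functions. -/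
theorem gen_pos_sq {n : ℕ} (hn : 2 ≤ n) (k : ℕ) {ι κ α : Type*} (s : Finset ι) (t : Finset κ)
    (A : Finset α) (u : ι → EuclideanSpace ℝ (Fin n)) (w : κ → ℝ) (hw : ∀ c ∈ t, 0 ≤ w c)
    (B : κ → α → ℝ) (f : ι → α → ℝ) :
    0 ≤ ∑ i ∈ s, ∑ j ∈ s, (∑ c ∈ t, w c * (∑ a ∈ A, B c a * f i a) * (∑ a ∈ A, B c a * f j a)) *
      Zg n k (inner ℝ (u i) (u j)) (inner ℝ (u i) (u i) * inner ℝ (u j) (u j)) := by
  have h : ∀ c ∈ t, 0 ≤ w c * ∑ i ∈ s, ∑ j ∈ s,
      (∑ a ∈ A, B c a * f i a) * (∑ a ∈ A, B c a * f j a) *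
      Zg n k (inner ℝ (u i) (u j)) (inner ℝ (u i) (u i) * inner ℝ (u j) (u j)) := fun c hc =>
    mul_nonneg (hw c hc) (gen_pos hn k s u fun i => ∑ a ∈ A, B c a * f i a)
  refine (Finset.sum_nonneg h).trans_eq ?_
  rw [Finset.sum_congr rfl fun c _ => Finset.mul_sum s _ (w c), Finset.sum_comm]
  apply Finset.sum_congr rfl
  intro i _
  rw [Finset.sum_congr rfl fun c _ => Finset.mul_sum s _ (w c), Finset.sum_comm]
  apply Finset.sum_congr rfl
  intro j _
  rw [Finset.sum_mul]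
  apply Finset.sum_congr rfl
  intro c _
  ring

end Pool.Agent.Lib.MP_f1379f_gt.FV
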