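import Pool.Agent.Lib.MP_f1379f_gt.FV.SpecA

set_option autoImplicit false

namespace Pool.Agent.Lib.MP_f1379f_gt.FV

namespace BONM

open MeasureTheory Finset

/-- the open half space cut off by `u` -/
def hs (u : E) : Set E := {y | 1 < (inner ℝ u y : ℝ)}

/-- indicator of `hs u` -/
noncomputable def a (u y : E) : ℝ := (hs u).indicator (fun _ => (1 : ℝ)) y

theorem a_of {u y : E} (h : 1 < (inner ℝ u y : ℝ)) : a u y = 1 := by
  rw [a, Set.indicator_of_mem]
  exact h

theorem a_not {u y : E} (h : ¬ 1 < (inner ℝ u y : ℝ)) : a u y = 0 := by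
  rw [a, Set.indicator_of_notMem]
  exact h

theorem a_zero_or (u y : E) : a u y = 0 ∨ a u y = 1 := by
  by_cases h : 1 < (inner ℝ u y : ℝ)
  · exact Or.inr (a_of h)
  · exact Or.inl (a_not h)

theorem meas_hs (u : E) : MeasurableSet (hs u) := by
  have : IsOpen (hs u) := isOpen_lt continuous_const (continuous_const.inner continuous_id)
  exact this.measurableSet

theorem meas_bal : MeasurableSet bal := by
  have : IsOpen bal := isOpen_lt (continuous_norm.pow 2) continuous_const
  exact this.measurableSet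

theorem bal_fin : volume bal ≠ ⊤ := by
  have h : bal ⊆ Metric.ball (0 : E) 2 := by
    intro y hy
    rw [mem_ball_zero_iff]
    have : ‖y‖ ^ 2 < 5 / 3 := hy
    nlinarith [norm_nonneg y]
  exact ne_top_of_le_ne_top measure_ball_lt_top.ne (measure_mono h)

instance : IsFiniteMeasure ((volume : Measure E).restrict bal) :=
  ⟨by rw [Measure.restrict_apply_univ]; exact bal_fin.lt_top⟩

theorem int_ind (S : Set E) (hS : MeasurableSet S) :
    ∫ y in bal, S.indicator (fun _ => (1 : ℝ)) y = (volume (bal ∩ S)).toReal := by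
  rw [integral_indicator hS, integral_const, smul_eq_mul, mul_one, measureReal_def,
    Measure.restrict_apply_univ, Measure.restrict_apply hS, Set.inter_comm]

theorem intble (S : Set E) (hS : MeasurableSet S) :
    Integrable (S.indicator (fun _ => (1 : ℝ))) ((volume : Measure E).restrict bal) :=
  (integrable_const (1 : ℝ)).indicator hS

theorem a2 (u v y : E) : a u y * a v y = (hs u ∩ hs v).indicator (fun _ => (1 : ℝ)) y := by
  classical
  by_cases h1 : y ∈ hs u <;> by_cases h2 : y ∈ hs v <;> simp [a, Set.indicator, h1, h2]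

theorem a3 (u v w y : E) :
    a u y * a v y * a w y = (hs u ∩ hs v ∩ hs w).indicator (fun _ => (1 : ℝ)) y := by
  classical
  by_cases h1 : y ∈ hs u <;> by_cases h2 : y ∈ hs v <;> by_cases h3 : y ∈ hs w <;>
    simp [a, Set.indicator, h1, h2, h3]

theorem v1_eq (u : E) : v1 u = ∫ y in bal, a u y := by
  have : (fun y => a u y) = (hs u).indicator (fun _ => (1 : ℝ)) := rfl
  rw [this, int_ind _ (meas_hs u), v1]
  rfl

theorem v2_eq (u v : E) : v2 u v = ∫ y in bal, a u y * a v y := by
  have : (fun y => a u y * a v y) = (hs u ∩ hs v).indicator (fun _ => (1 : ℝ)) := by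
    ext y; exact a2 u v y
  rw [this, int_ind _ ((meas_hs u).inter (meas_hs v)), v2]
  congr 2
  ext y
  simp only [cap, bal, hs, Set.mem_inter_iff, Set.mem_ofPred_eq]
  tauto

theorem v3_eq (u v w : E) : v3 u v w = ∫ y in bal, a u y * a v y * a w y := by
  have : (fun y => a u y * a v y * a w y) = (hs u ∩ hs v ∩ hs w).indicator (fun _ => (1 : ℝ)) := by
    ext y; exact a3 u v w y
  rw [this, int_ind _ (((meas_hs u).inter (meas_hs v)).inter (meas_hs w)), v3]
  congr 2
  ext y
  simp only [cap, bal, hs, Set.mem_inter_iff, Set.mem_ofPred_eq]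
  tauto

theorem i1 (u : E) : Integrable (fun y => a u y) ((volume : Measure E).restrict bal) :=
  intble _ (meas_hs u)

theorem i2 (u v : E) : Integrable (fun y => a u y * a v y) ((volume : Measure E).restrict bal) := by
  have : (fun y => a u y * a v y) = (hs u ∩ hs v).indicator (fun _ => (1 : ℝ)) := by
    ext y; exact a2 u v y
  rw [this]
  exact intble _ ((meas_hs u).inter (meas_hs v))

theorem i3 (u v w : E) :
    Integrable (fun y => a u y * a v y * a w y) ((volume : Measure E).restrict bal) := by
  have : (fun y => a u y * a v y * a w y) = (hs u ∩ hs v ∩ hs w).indicator (fun _ => (1 : ℝ)) := by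
    ext y; exact a3 u v w y
  rw [this]
  exact intble _ (((meas_hs u).inter (meas_hs v)).inter (meas_hs w))

/-- the pointwise lower function -/
noncomputable def F (U : Finset E) (c : E → E → ℝ) (y : E) : ℝ :=
  1 - ∑ u ∈ U, a u y + (1 / 2) * ∑ u ∈ U, ∑ v ∈ U.erase u,
    c u v * (a u y * a v y - (1 / 3) * ∑ w ∈ (U.erase u).erase v, a u y * a v y * a w y)

theorem meas_poly (U : Finset E) : MeasurableSet (poly U) := by
  have : poly U = ⋂ u ∈ U, {y : E | (inner ℝ u y : ℝ) ≤ 1} := by
    ext y; simp [poly]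
  rw [this]
  apply Finset.measurableSet_biInter
  intro u _
  exact (isClosed_le (continuous_const.inner continuous_id) continuous_const).measurableSet

theorem pointwise (U : Finset E) (c : E → E → ℝ) (hc : ∀ u v, c u v = 0 ∨ c u v = 1) (y : E) :
    F U c y ≤ (poly U).indicator (fun _ => (1 : ℝ)) y := by
  classical
  set k : ℕ := (U.filter (fun u => 1 < (inner ℝ u y : ℝ))).card with hk
  have hsum : ∀ V : Finset E, ∑ u ∈ V, a u y
      = ((V.filter (fun u => 1 < (inner ℝ u y : ℝ))).card : ℝ) := by
    intro V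
    rw [Finset.card_filter, Nat.cast_sum]
    apply Finset.sum_congr rfl
    intro u _
    by_cases h : 1 < (inner ℝ u y : ℝ)
    · rw [a_of h, if_pos h]; simp
    · rw [a_not h, if_neg h]; simp
  have hsumU : ∑ u ∈ U, a u y = (k : ℝ) := hsum U
  -- bound of one pair term
  have hpair : ∀ u ∈ U, ∀ v ∈ U.erase u,
      c u v * (a u y * a v y - (1 / 3) * ∑ w ∈ (U.erase u).erase v, a u y * a v y * a w y)
        ≤ a u y * a v y * (2 / (k : ℝ)) := by
    intro u hu v hv
    rw [← Finset.mul_sum]
    rcases a_zero_or u y with h1 | h1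
    · rw [h1]; simp
    rcases a_zero_or v y with h2 | h2
    · rw [h2]; simp
    have hw : ∑ w ∈ (U.erase u).erase v, a w y = (k : ℝ) - 2 := by
      have e1 := Finset.add_sum_erase (U.erase u) (fun w => a w y) hv
      have e2 := Finset.add_sum_erase U (fun w => a w y) hu
      simp only [h1, h2] at e1 e2
      rw [hsumU] at e2
      linarith
    have hk2 : 2 ≤ k := by
      have h0 : (0 : ℝ) ≤ (k : ℝ) - 2 := by
        rw [← hw]
        apply Finset.sum_nonneg
        intro w _
        rcases a_zero_or w y with h | h <;> rw [h]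
        norm_num
      have : (2 : ℝ) ≤ k := by linarith
      exact_mod_cast this
    rw [hw, h1, h2]
    have hkpos : (0 : ℝ) < k := by exact_mod_cast (by omega : 0 < k)
    have hmain : 1 - (1 / 3) * ((k : ℝ) - 2) ≤ 2 / k := by
      rw [le_div_iff₀ hkpos]
      have h23 : 0 ≤ ((k : ℝ) - 2) * ((k : ℝ) - 3) := by
        rcases Nat.lt_or_ge k 3 with h | h
        · have : k = 2 := by omega
          rw [this]; norm_num
        · have h3 : (3 : ℝ) ≤ k := by exact_mod_cast h
          exact mul_nonneg (by linarith) (by linarith)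
      nlinarith
    rcases hc u v with h | h
    · rw [h]
      have : (0 : ℝ) ≤ 2 / k := by positivity
      linarith
    · rw [h]
      linarith
  have hdouble : ∑ u ∈ U, ∑ v ∈ U.erase u,
      c u v * (a u y * a v y - (1 / 3) * ∑ w ∈ (U.erase u).erase v, a u y * a v y * a w y)
      ≤ (2 / (k : ℝ)) * ((k : ℝ) ^ 2 - k) := by
    calc _ ≤ ∑ u ∈ U, ∑ v ∈ U.erase u, a u y * a v y * (2 / (k : ℝ)) :=
          Finset.sum_le_sum fun u hu => Finset.sum_le_sum fun v hv => hpair u hu v hv
      _ = ∑ u ∈ U, a u y * (2 / (k : ℝ)) * ((k : ℝ) - a u y) := by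
          apply Finset.sum_congr rfl
          intro u hu
          have e2 := Finset.add_sum_erase U (fun w => a w y) hu
          rw [hsumU] at e2
          have e3 : ∑ v ∈ U.erase u, a v y = (k : ℝ) - a u y := by linarith
          rw [← e3, Finset.mul_sum]
          apply Finset.sum_congr rfl
          intro v _
          ring
      _ = ∑ u ∈ U, (2 / (k : ℝ)) * ((k : ℝ) - 1) * a u y := by
          apply Finset.sum_congr rfl
          intro u hu
          rcases a_zero_or u y with h | h <;> rw [h] <;> ring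
      _ = (2 / (k : ℝ)) * ((k : ℝ) ^ 2 - k) := by
          rw [← Finset.mul_sum, hsumU]; ring
  rw [F, hsumU]
  rcases Nat.eq_zero_or_pos k with h0 | hpos
  · have hy : y ∈ poly U := by
      intro u hu
      by_contra hlt
      push Not at hlt
      have : u ∈ U.filter (fun u => 1 < (inner ℝ u y : ℝ)) := Finset.mem_filter.2 ⟨hu, hlt⟩
      rw [Finset.card_eq_zero.1 (hk.symm.trans h0)] at this
      simp at this
    rw [Set.indicator_of_mem hy]
    have hk0 : (k : ℝ) = 0 := by rw [h0]; simp
    rw [hk0] at hdouble ⊢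
    norm_num at hdouble
    linarith
  · have hkpos : (0 : ℝ) < k := by exact_mod_cast hpos
    have h1 : (2 / (k : ℝ)) * ((k : ℝ) ^ 2 - k) = 2 * ((k : ℝ) - 1) := by
      field_simp
    rw [h1] at hdouble
    have h2 : 0 ≤ (poly U).indicator (fun _ => (1 : ℝ)) y :=
      Set.indicator_nonneg (fun _ _ => zero_le_one) y
    linarith

theorem int_F (U : Finset E) (c : E → E → ℝ) :
    Integrable (F U c) ((volume : Measure E).restrict bal) ∧
    ∫ y in bal, F U c y = (volume bal).toReal - ∑ u ∈ U, v1 u
        + (1 / 2) * ∑ u ∈ U, ∑ v ∈ U.erase u,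
            c u v * (v2 u v - (1 / 3) * ∑ w ∈ (U.erase u).erase v, v3 u v w) := by
  have j1 : Integrable (fun _ : E => (1 : ℝ)) ((volume : Measure E).restrict bal) :=
    integrable_const _
  have j2 : Integrable (fun y => ∑ u ∈ U, a u y) ((volume : Measure E).restrict bal) :=
    integrable_finsetSum _ fun u _ => i1 u
  have j3 : ∀ u v, Integrable (fun y => ∑ w ∈ (U.erase u).erase v, a u y * a v y * a w y)
      ((volume : Measure E).restrict bal) := fun u v =>
    integrable_finsetSum _ fun w _ => i3 u v w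
  have j4 : ∀ u v, Integrable (fun y => c u v *
      (a u y * a v y - (1 / 3) * ∑ w ∈ (U.erase u).erase v, a u y * a v y * a w y))
      ((volume : Measure E).restrict bal) := fun u v =>
    ((i2 u v).sub ((j3 u v).const_mul _)).const_mul _
  have j5 : ∀ u, Integrable (fun y => ∑ v ∈ U.erase u, c u v *
      (a u y * a v y - (1 / 3) * ∑ w ∈ (U.erase u).erase v, a u y * a v y * a w y))
      ((volume : Measure E).restrict bal) := fun u =>
    integrable_finsetSum _ fun v _ => j4 u v
  have j6 : Integrable (fun y => ∑ u ∈ U, ∑ v ∈ U.erase u, c u v *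
      (a u y * a v y - (1 / 3) * ∑ w ∈ (U.erase u).erase v, a u y * a v y * a w y))
      ((volume : Measure E).restrict bal) :=
    integrable_finsetSum _ fun u _ => j5 u
  refine ⟨(j1.sub j2).add (j6.const_mul _), ?_⟩
  have e1 : ∫ y in bal, F U c y = (∫ y in bal, (1 - ∑ u ∈ U, a u y)) +
      ∫ y in bal, (1 / 2) * ∑ u ∈ U, ∑ v ∈ U.erase u, c u v *
      (a u y * a v y - (1 / 3) * ∑ w ∈ (U.erase u).erase v, a u y * a v y * a w y) :=
    integral_add (j1.sub j2) (j6.const_mul _)
  have e2 : (∫ y in bal, (1 - ∑ u ∈ U, a u y)) = (∫ y in bal, (1 : ℝ)) -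
      ∫ y in bal, ∑ u ∈ U, a u y := integral_sub j1 j2
  have e3 : ∫ y in bal, (1 : ℝ) = (volume bal).toReal := by
    simp [measureReal_def]
  have e4 : ∫ y in bal, ∑ u ∈ U, a u y = ∑ u ∈ U, v1 u := by
    rw [integral_finsetSum _ fun u _ => i1 u]
    exact Finset.sum_congr rfl fun u _ => (v1_eq u).symm
  have e5 : ∫ y in bal, (1 / 2) * ∑ u ∈ U, ∑ v ∈ U.erase u, c u v *
      (a u y * a v y - (1 / 3) * ∑ w ∈ (U.erase u).erase v, a u y * a v y * a w y)
      = (1 / 2) * ∑ u ∈ U, ∑ v ∈ U.erase u,
            c u v * (v2 u v - (1 / 3) * ∑ w ∈ (U.erase u).erase v, v3 u v w) := by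
    rw [integral_const_mul, integral_finsetSum _ fun u _ => j5 u]
    congr 1
    apply Finset.sum_congr rfl
    intro u _
    rw [integral_finsetSum _ fun v _ => j4 u v]
    apply Finset.sum_congr rfl
    intro v _
    rw [integral_const_mul, integral_sub (i2 u v) ((j3 u v).const_mul _), integral_const_mul,
      integral_finsetSum _ fun w _ => i3 u v w, v2_eq]
    congr 3
    exact Finset.sum_congr rfl fun w _ => (v3_eq u v w).symm
  rw [e1, e2, e3, e4, e5]

end BONM

open BONM MeasureTheory in
theorem specBON : SpecBON := by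
  classical
  intro U
  set x : E → E → ℝ := fun u v => v2 u v - (1 / 3) * ∑ w ∈ (U.erase u).erase v, v3 u v w with hx
  set c : E → E → ℝ := fun u v => if 0 < x u v then 1 else 0 with hc
  have h1 : ∀ u v, max 0 (v2 u v - (1 / 3) * ∑ w ∈ (U.erase u).erase v, v3 u v w)
      = c u v * (v2 u v - (1 / 3) * ∑ w ∈ (U.erase u).erase v, v3 u v w) := by
    intro u v
    by_cases h : 0 < x u v
    · simp only [hc, if_pos h, one_mul]
      exact max_eq_right h.le
    · simp only [hc, if_neg h, zero_mul]
      exact max_eq_left (not_lt.1 h)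
  have h2 : (∑ u ∈ U, ∑ v ∈ U.erase u,
      max 0 (v2 u v - (1 / 3) * ∑ w ∈ (U.erase u).erase v, v3 u v w))
      = ∑ u ∈ U, ∑ v ∈ U.erase u,
        c u v * (v2 u v - (1 / 3) * ∑ w ∈ (U.erase u).erase v, v3 u v w) :=
    Finset.sum_congr rfl fun u _ => Finset.sum_congr rfl fun v _ => h1 u v
  rw [h2]
  obtain ⟨hi, he⟩ := int_F U c
  rw [← he, ← int_ind _ (meas_poly U)]
  apply integral_mono hi (intble _ (meas_poly U))
  intro y
  apply pointwise
  intro u v
  by_cases h : 0 < x u v
  · right; simp only [hc, if_pos h]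
  · left; simp only [hc, if_neg h]

end Pool.Agent.Lib.MP_f1379f_gt.FV
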