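import Pool.Agent.Lib.MP_f1379f_gt.FV.SpecA

/-!
# MP_f1379f_gt, full Q1, block E: exact inclusion-exclusion and the E8 side

Exact Specs, complete elementary proofs in the docstrings.  Notation as in SpecA.  EV = the namespace
of the files MP_f1379f_gt/EV (row 192): R = the 240 minimal vectors (norm 2, inner products 4, 2, 0,
-2, -4), all its modules are on main.
-/

set_option autoImplicit false

namespace Pool.Agent.Lib.MP_f1379f_gt.FV

open MeasureTheory

/-- Volume of the intersection of four caps. -/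
noncomputable def v4 (u v w z : E) : ℝ := (volume (cap u ∩ cap v ∩ cap w ∩ cap z)).toReal

/-- Fourth touching unit vector. -/
noncomputable def e3 : E := WithLp.toLp 2 ![1 / 2, 0, 1 / 2, 0, 1 / 2, 0, 1 / 2, 0]

/-- Quadruple volume of four mutually touching contact points (`= 4.705e-9`). -/
noncomputable def s4 : ℝ := v4 e0 e1 e2 e3

/-- The value of the certificate. -/
noncomputable def T0 : ℝ := (volume bal).toReal - 240 * c1 + 6720 * GG

/-- The E8 configuration in the inverted coordinates. -/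
noncomputable def UE : Finset E := EV.R.image fun r => (1 / 2 : ℝ) • r

/-- Pair-triple part: twice the sum over unordered pairs of `v2 - (1/3) sum v3`. -/
noncomputable def S23 (U : Finset E) : ℝ :=
  ∑ u ∈ U, ∑ v ∈ U.erase u, (v2 u v - (1 / 3) * ∑ w ∈ (U.erase u).erase v, v3 u v w)

/-- Sum over ordered quadruples of different points of the quadruple volumes. -/
noncomputable def S4 (U : Finset E) : ℝ :=
  ∑ u ∈ U, ∑ v ∈ U.erase u, ∑ w ∈ (U.erase u).erase v, ∑ z ∈ ((U.erase u).erase v).erase w,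
    v4 u v w z

/-- K4 (120 lines).  At most four caps contain a point of bal.
PROOF.  Let u_1..u_5 in U be different with <u_i,y> > 1, x_i = (2/|u_i|^2) u_i, x_0 = 0, v_i = x_i - y.
|v_i|^2 = |y|^2 - (4/|u_i|^2)(<u_i,y> - 1) < |y|^2 < 5/3, |v_0|^2 = |y|^2 < 5/3.  |x_i - x_j| >= 2
(i /= j, 1..5: from sep, multiply by 4/(|u_i|^2|u_j|^2); |x_i| = 2/|u_i| >= 2).  Sum over the 15 pairs of
0..5: 60 <= sum |v_i-v_j|^2 = 6 sum |v_i|^2 - |sum v_i|^2 <= 6 sum |v_i|^2 < 36 * 5/3 = 60. -/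
def SpecK4 : Prop :=
  ∀ U : Finset E, Adm U → ∀ y ∈ bal,
    ({u : E | u ∈ U ∧ 1 < (inner ℝ u y : ℝ)}).ncard ≤ 4

/-- IEX (250 lines).  Exact inclusion-exclusion and positivity of the pair terms.
PROOF.  For y in bal, k = number of u in U with y in cap u, k <= 4 (K4), so
1[k >= 1] = k - C(k,2) + C(k,3) - C(k,4); integrate over bal.  (C(k,3) is 1/6 of the number of ordered
triples: -(1/6) sum v3 = (1/2) sum_{u/=v} (-(1/3) sum_w v3); C(k,4) = 1/24 of the ordered quadruples.)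
pos: v2 u v - (1/3) sum_w v3 u v w = int_{cap u ∩ cap v} (1 - (k-2)/3) >= 0 as k <= 4. -/
structure SpecIEX : Prop where
  id : ∀ U : Finset E, Adm U →
    (volume (bal ∩ poly U)).toReal =
      (volume bal).toReal - ∑ u ∈ U, v1 u + (1 / 2) * S23 U + (1 / 24) * S4 U
  pos : ∀ U : Finset E, Adm U → ∀ u ∈ U, ∀ v ∈ U, u ≠ v →
    0 ≤ v2 u v - (1 / 3) * ∑ w ∈ (U.erase u).erase v, v3 u v w

/-- IN4 (80 lines).  Quadruple volumes depend only on the Gram matrix; zero unless all products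
exceed 1/5.
PROOF.  As INV.  If y is in cap u ∩ cap v then 2 < <u+v,y> <= |u+v||y|, so |u+v|^2 > 12/5 and
2<u,v> > 12/5 - |u|^2 - |v|^2 >= 2/5. -/
structure SpecIN4 : Prop where
  g4 : ∀ u v w z u' v' w' z' : E, ‖u‖ = ‖u'‖ → ‖v‖ = ‖v'‖ → ‖w‖ = ‖w'‖ → ‖z‖ = ‖z'‖ →
    (inner ℝ u v : ℝ) = inner ℝ u' v' → (inner ℝ u w : ℝ) = inner ℝ u' w' →
    (inner ℝ u z : ℝ) = inner ℝ u' z' → (inner ℝ v w : ℝ) = inner ℝ v' w' →
    (inner ℝ v z : ℝ) = inner ℝ v' z' → (inner ℝ w z : ℝ) = inner ℝ w' z' →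
    v4 u v w z = v4 u' v' w' z'
  zero : ∀ u v : E, ‖u‖ ≤ 1 → ‖v‖ ≤ 1 → (inner ℝ u v : ℝ) ≤ 1 / 5 → cap u ∩ cap v = ∅

/-- CNE (200 lines).  Contact cliques of E8.
PROOF.  EV.CNT gives 56 (row 192, c56).  27 and 16: by the orthogonal group of R one may fix one clique,
or directly: for r in R, s with <r,s> = 2 the number N of t with <t,r> = <t,s> = 2: use the moments of
EV.POL: sum_t <t,r>^2<t,s>^2 = 48(16 + 2*4) = 1152; write n_{ij} = #{t : <t,r> = i, <t,s> = j};
t = ±r: 16*4*2 = 128, t = ±s: 128; the others have products in {0,±2}: 16 * #{<t,r>,<t,s> both ±2} = 896,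
56 such t, of them (t -> s - ..) : opposite signs: t with <t,r> = 2, <t,s> = -2 : then <t,r-s> = 4, t = r - s:
1, so 2 with opposite signs, 54 with equal signs, 27 with (2,2).  16: for r,s,t mutually touching use EV.POL.m222:
sum_x <r,x>^2<s,x>^2<t,x>^2 = 16(64 + 2*3*4*4 + 8*8) = 3584; x = ±r, ±s, ±t give 6*256 = 1536 (16*4*4 each);
the others have products in {0,±2}: 64 * N' = 2048, N' = 32 with all three products ±2; mixed signs are
impossible (<x,r> = 2, <x,t> = -2 forces x = r - t, and <r-t,s> = 0); so 16 with (2,2,2). -/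
structure SpecCNE : Prop where
  n27 : ∀ r ∈ EV.R, ∀ s ∈ EV.R, inner ℝ r s = (2 : ℝ) →
    (EV.R.filter fun t => inner ℝ t r = (2 : ℝ) ∧ inner ℝ t s = (2 : ℝ)).card = 27
  n16 : ∀ r ∈ EV.R, ∀ s ∈ EV.R, ∀ t ∈ EV.R, inner ℝ r s = (2 : ℝ) → inner ℝ r t = (2 : ℝ) →
    inner ℝ s t = (2 : ℝ) →
    (EV.R.filter fun x => inner ℝ x r = (2 : ℝ) ∧ inner ℝ x s = (2 : ℝ) ∧
      inner ℝ x t = (2 : ℝ)).card = 16

/-- E8V (200 lines).  The truncated E8 cell.
PROOF.  Adm UE: |r/2| = 1, <r/2,s/2> = <r,s>/4 <= 1/2 for r /= s (EV.ROT.k240).  v1 u = c1 for all u in UE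
(INV.g1).  v2 u v = g11 if <u,v> = 1/2 (INV.g2) and 0 otherwise (<u,v> <= 0, IN4.zero); v3 = s3 on mutually
touching triples, v4 = s4 on mutually touching quadruples, 0 otherwise.  Counts: 240, 56 (EV.CNT.c56), 27,
16 (CNE).  So S23 UE = 240*56*(g11 - 9 s3) and S4 UE = 240*56*27*16 s4; IEX.id.
cell: poly UE = {y : for all r in R, <y,r> <= 2} has volume 16 (EV.VOL), it is the disjoint union of its
parts in bal and outside.  inb: poly UE is contained in the closed ball of radius sqrt 2 (EV.COV: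
2|y|^2 <= <y,r>^2 <= 4 for some r in R), hence in ball 0 2. -/
structure SpecE8V : Prop where
  adm : Adm UE
  card : UE.card = 240
  s23 : S23 UE = 13440 * GG
  q4 : S4 UE = 5806080 * s4
  vol : (volume (bal ∩ poly UE)).toReal = T0 + 241920 * s4
  cell : (16 : ℝ) = T0 + 241920 * s4 + (volume (poly UE \ bal)).toReal
  inb : ∀ y ∈ poly UE, ‖y‖ ^ 2 ≤ 2

end Pool.Agent.Lib.MP_f1379f_gt.FV
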