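import Pool.Agent.Lib.MP_f1379f_gt.EV.Spec
import Pool.Agent.Lib.MP_f1379f_gt.FV.SpecE

set_option autoImplicit false

namespace Pool.Agent.Lib.MP_f1379f_gt.FV.CNEM

open Finset

/-- the possible inner products -/
def Val (a : ℝ) : Prop := a = 4 ∨ a = 2 ∨ a = 0 ∨ a = -2 ∨ a = -4

open Classical in
/-- indicator of a value -/
noncomputable def ind (a v : ℝ) : ℝ := if a = v then 1 else 0

theorem num2 (a b : ℝ) (ha : Val a) (hb : Val b) (h1 : a = 4 → b = 2) (h2 : a = -4 → b = -2)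
    (h3 : b = 4 → a = 2) (h4 : b = -4 → a = -2) :
    (a ^ 2 * b ^ 2) + 4 * (a * b) = 32 * (ind a 2 * ind b 2) + 32 * (ind a (-2) * ind b (-2))
      + 96 * (ind a 4 + ind a (-4) + ind b 4 + ind b (-4)) := by
  unfold ind
  rcases ha with h | h | h | h | h
  · rw [h, h1 h]; norm_num
  · rcases hb with h' | h' | h' | h' | h'
    · rw [h, h']; norm_num
    · rw [h, h']; norm_num
    · rw [h, h']; norm_num
    · rw [h, h']; norm_num
    · exfalso; have := h4 h'; rw [h] at this; norm_num at this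
  · rcases hb with h' | h' | h' | h' | h'
    · exfalso; have := h3 h'; rw [h] at this; norm_num at this
    · rw [h, h']; norm_num
    · rw [h, h']; norm_num
    · rw [h, h']; norm_num
    · exfalso; have := h4 h'; rw [h] at this; norm_num at this
  · rcases hb with h' | h' | h' | h' | h'
    · exfalso; have := h3 h'; rw [h] at this; norm_num at this
    · rw [h, h']; norm_num
    · rw [h, h']; norm_num
    · rw [h, h']; norm_num
    · rw [h, h']; norm_num
  · rw [h, h2 h]; norm_num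

theorem mid (a : ℝ) (ha : Val a) (h1 : a ≠ 4) (h2 : a ≠ -4) : a = 2 ∨ a = 0 ∨ a = -2 := by
  rcases ha with h | h | h | h | h
  · exact absurd h h1
  · exact Or.inl h
  · exact Or.inr (Or.inl h)
  · exact Or.inr (Or.inr h)
  · exact absurd h h2

/-- value without the extreme values -/
theorem num3 (a b c : ℝ) (ha : Val a) (hb : Val b) (hc : Val c)
    (a1 : a = 4 → b = 2 ∧ c = 2) (a2 : a = -4 → b = -2 ∧ c = -2)
    (b1 : b = 4 → a = 2 ∧ c = 2) (b2 : b = -4 → a = -2 ∧ c = -2)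
    (c1 : c = 4 → a = 2 ∧ b = 2) (c2 : c = -4 → a = -2 ∧ b = -2)
    (m1 : a = 2 → b = -2 → c = 0) (m2 : a = -2 → b = 2 → c = 0)
    (m3 : a = 2 → c = -2 → b = 0) (m4 : a = -2 → c = 2 → b = 0) :
    a ^ 2 * (b ^ 2 * c ^ 2) = 64 * (ind a 2 * ind b 2 * ind c 2)
      + 64 * (ind a (-2) * ind b (-2) * ind c (-2))
      + 256 * (ind a 4 + ind a (-4) + ind b 4 + ind b (-4) + ind c 4 + ind c (-4)) := by
  unfold ind
  by_cases x1 : a = 4
  · rw [x1, (a1 x1).1, (a1 x1).2]; norm_num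
  by_cases x2 : a = -4
  · rw [x2, (a2 x2).1, (a2 x2).2]; norm_num
  by_cases x3 : b = 4
  · rw [x3, (b1 x3).1, (b1 x3).2]; norm_num
  by_cases x4 : b = -4
  · rw [x4, (b2 x4).1, (b2 x4).2]; norm_num
  by_cases x5 : c = 4
  · rw [x5, (c1 x5).1, (c1 x5).2]; norm_num
  by_cases x6 : c = -4
  · rw [x6, (c2 x6).1, (c2 x6).2]; norm_num
  have ha' := mid a ha x1 x2
  have hb' := mid b hb x3 x4
  have hc' := mid c hc x5 x6
  rcases ha' with h | h | h
  · rcases hb' with h' | h' | h'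
    · rcases hc' with h'' | h'' | h''
      · rw [h, h', h'']; norm_num
      · rw [h, h', h'']; norm_num
      · exfalso; have := m3 h h''; rw [h'] at this; norm_num at this
    · rw [h, h']; norm_num [x5, x6]
    · rw [h, h', m1 h h']; norm_num
  · rw [h]; norm_num [x3, x4, x5, x6]
  · rcases hb' with h' | h' | h'
    · rw [h, h', m2 h h']; norm_num
    · rw [h, h']; norm_num [x5, x6]
    · rcases hc' with h'' | h'' | h''
      · exfalso; have := m4 h h''; rw [h'] at this; norm_num at this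
      · rw [h, h', h'']; norm_num
      · rw [h, h', h'']; norm_num

theorem eq4 (x y : E) (hx : (inner ℝ x x : ℝ) = 4) (hy : (inner ℝ y y : ℝ) = 4)
    (h : (inner ℝ x y : ℝ) = 4) : x = y := by
  have h1 : (inner ℝ (x - y) (x - y) : ℝ) = 0 := by
    rw [inner_sub_left, inner_sub_right, inner_sub_right, hx, hy, h, real_inner_comm, h]; norm_num
  exact sub_eq_zero.1 (inner_self_eq_zero.1 h1)

theorem eqm4 (x y : E) (hx : (inner ℝ x x : ℝ) = 4) (hy : (inner ℝ y y : ℝ) = 4)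
    (h : (inner ℝ x y : ℝ) = -4) : x = -y := by
  apply eq4 x (-y) hx
  · rw [inner_neg_left, inner_neg_right, neg_neg, hy]
  · rw [inner_neg_right, h]; norm_num

theorem mix (x r t : E) (hx : (inner ℝ x x : ℝ) = 4) (hr : (inner ℝ r r : ℝ) = 4)
    (ht : (inner ℝ t t : ℝ) = 4) (hrt : (inner ℝ r t : ℝ) = 2) (h1 : (inner ℝ x r : ℝ) = 2)
    (h2 : (inner ℝ x t : ℝ) = -2) : x = r - t := by
  apply eq4 x (r - t) hx
  · rw [inner_sub_left, inner_sub_right, inner_sub_right, hr, ht, hrt, real_inner_comm, hrt]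
    norm_num
  · rw [inner_sub_right, h1, h2]; norm_num

open Classical in
theorem cnt4 (Y : Finset E) (hY : EV.K240 Y) (r : E) (hr : r ∈ Y) :
    ∑ x ∈ Y, ind (inner ℝ x r) 4 = 1 := by
  unfold ind
  have e : ∀ x ∈ Y, (if (inner ℝ x r : ℝ) = 4 then (1 : ℝ) else 0) = if x = r then 1 else 0 := by
    intro x hx
    by_cases h : x = r
    · subst h
      rw [if_pos rfl, if_pos (hY.kiss.nrm x hx)]
    · rw [if_neg h, if_neg]
      intro h'
      exact h (eq4 x r (hY.kiss.nrm x hx) (hY.kiss.nrm r hr) h')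
  rw [Finset.sum_congr rfl e, Finset.sum_ite_eq' Y r, if_pos hr]

open Classical in
theorem cntm4 (hCLO : EV.SpecCLO) (Y : Finset E) (hY : EV.K240 Y) (r : E) (hr : r ∈ Y) :
    ∑ x ∈ Y, ind (inner ℝ x r) (-4) = 1 := by
  unfold ind
  have e : ∀ x ∈ Y, (if (inner ℝ x r : ℝ) = -4 then (1 : ℝ) else 0) = if x = -r then 1 else 0 := by
    intro x hx
    by_cases h : x = -r
    · subst h
      rw [if_pos rfl, if_pos]
      rw [inner_neg_left, hY.kiss.nrm r hr]
    · rw [if_neg h, if_neg]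
      intro h'
      exact h (eqm4 x r (hY.kiss.nrm x hx) (hY.kiss.nrm r hr) h')
  rw [Finset.sum_congr rfl e, Finset.sum_ite_eq' Y (-r), if_pos (hCLO.neg Y hY r hr)]

theorem val (hLPI : EV.SpecLPI) (Y : Finset E) (hY : EV.K240 Y) (x r : E) (hx : x ∈ Y)
    (hr : r ∈ Y) : Val (inner ℝ x r) := (hLPI Y hY).1 x hx r hr

/-- sums are invariant under the sign change -/
theorem neg_sum (hCLO : EV.SpecCLO) (Y : Finset E) (hY : EV.K240 Y) (F : E → ℝ) :
    ∑ x ∈ Y, F (-x) = ∑ x ∈ Y, F x := by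
  apply Finset.sum_bij (fun x _ => -x)
  · intro x hx; exact hCLO.neg Y hY x hx
  · intro x _ y _ h; exact neg_injective h
  · intro y hy; exact ⟨-y, hCLO.neg Y hY y hy, neg_neg y⟩
  · intro x _; rfl

theorem n27 (hLPI : EV.SpecLPI) (hPOL : EV.SpecPOL) (hCLO : EV.SpecCLO) (Y : Finset E)
    (hY : EV.K240 Y) (r s : E) (hr : r ∈ Y) (hs : s ∈ Y) (h : (inner ℝ r s : ℝ) = 2) :
    ∑ x ∈ Y, ind (inner ℝ x r) 2 * ind (inner ℝ x s) 2 = 27 := by
  have hsr : (inner ℝ s r : ℝ) = 2 := by rw [real_inner_comm]; exact h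
  have e : ∀ x ∈ Y, (inner ℝ r x : ℝ) ^ 2 * (inner ℝ s x : ℝ) ^ 2
      + 4 * ((inner ℝ r x : ℝ) * (inner ℝ s x : ℝ))
      = 32 * (ind (inner ℝ x r) 2 * ind (inner ℝ x s) 2)
        + 32 * (ind (inner ℝ x r) (-2) * ind (inner ℝ x s) (-2))
        + 96 * (ind (inner ℝ x r) 4 + ind (inner ℝ x r) (-4) + ind (inner ℝ x s) 4
          + ind (inner ℝ x s) (-4)) := by
    intro x hx
    have nx := hY.kiss.nrm x hx
    have nr := hY.kiss.nrm r hr
    have ns := hY.kiss.nrm s hs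
    rw [real_inner_comm x r, real_inner_comm x s]
    apply num2 _ _ (val hLPI Y hY x r hx hr) (val hLPI Y hY x s hx hs)
    · intro h'; rw [eq4 x r nx nr h']; exact h
    · intro h'; rw [eqm4 x r nx nr h', inner_neg_left, h]
    · intro h'; rw [eq4 x s nx ns h']; exact hsr
    · intro h'; rw [eqm4 x s nx ns h', inner_neg_left, hsr]
  have hsum := Finset.sum_congr rfl e
  rw [Finset.sum_add_distrib, ← Finset.mul_sum, hPOL.m22 Y hY r s, hPOL.m11 Y hY r s, h,
    hY.kiss.nrm r hr, hY.kiss.nrm s hs, Finset.sum_add_distrib, Finset.sum_add_distrib,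
    ← Finset.mul_sum, ← Finset.mul_sum, ← Finset.mul_sum, Finset.sum_add_distrib,
    Finset.sum_add_distrib, Finset.sum_add_distrib, cnt4 Y hY r hr, cnt4 Y hY s hs,
    cntm4 hCLO Y hY r hr, cntm4 hCLO Y hY s hs] at hsum
  have hneg : ∑ x ∈ Y, ind (inner ℝ x r) (-2) * ind (inner ℝ x s) (-2)
      = ∑ x ∈ Y, ind (inner ℝ x r) 2 * ind (inner ℝ x s) 2 := by
    rw [← neg_sum hCLO Y hY]
    apply Finset.sum_congr rfl
    intro x _
    unfold ind
    rw [inner_neg_left, inner_neg_left]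
    simp only [neg_inj]
  rw [hneg] at hsum
  linarith

theorem n16 (hLPI : EV.SpecLPI) (hPOL : EV.SpecPOL) (hCLO : EV.SpecCLO) (Y : Finset E)
    (hY : EV.K240 Y) (r s t : E) (hr : r ∈ Y) (hs : s ∈ Y) (ht : t ∈ Y)
    (hrs : (inner ℝ r s : ℝ) = 2) (hrt : (inner ℝ r t : ℝ) = 2) (hst : (inner ℝ s t : ℝ) = 2) :
    ∑ x ∈ Y, ind (inner ℝ x r) 2 * ind (inner ℝ x s) 2 * ind (inner ℝ x t) 2 = 16 := by
  have hsr : (inner ℝ s r : ℝ) = 2 := by rw [real_inner_comm]; exact hrs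
  have htr : (inner ℝ t r : ℝ) = 2 := by rw [real_inner_comm]; exact hrt
  have hts : (inner ℝ t s : ℝ) = 2 := by rw [real_inner_comm]; exact hst
  have e : ∀ x ∈ Y, (inner ℝ r x : ℝ) ^ 2 * ((inner ℝ s x : ℝ) ^ 2 * (inner ℝ t x : ℝ) ^ 2)
      = 64 * (ind (inner ℝ x r) 2 * ind (inner ℝ x s) 2 * ind (inner ℝ x t) 2)
        + 64 * (ind (inner ℝ x r) (-2) * ind (inner ℝ x s) (-2) * ind (inner ℝ x t) (-2))
        + 256 * (ind (inner ℝ x r) 4 + ind (inner ℝ x r) (-4) + ind (inner ℝ x s) 4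
          + ind (inner ℝ x s) (-4) + ind (inner ℝ x t) 4 + ind (inner ℝ x t) (-4)) := by
    intro x hx
    have nx := hY.kiss.nrm x hx
    have nr := hY.kiss.nrm r hr
    have ns := hY.kiss.nrm s hs
    have nt := hY.kiss.nrm t ht
    rw [real_inner_comm x r, real_inner_comm x s, real_inner_comm x t]
    apply num3 _ _ _ (val hLPI Y hY x r hx hr) (val hLPI Y hY x s hx hs) (val hLPI Y hY x t hx ht)
    · intro h'; rw [eq4 x r nx nr h']; exact ⟨hrs, hrt⟩
    · intro h'; rw [eqm4 x r nx nr h', inner_neg_left, inner_neg_left, hrs, hrt]; exact ⟨rfl, rfl⟩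
    · intro h'; rw [eq4 x s nx ns h']; exact ⟨hsr, hst⟩
    · intro h'; rw [eqm4 x s nx ns h', inner_neg_left, inner_neg_left, hsr, hst]; exact ⟨rfl, rfl⟩
    · intro h'; rw [eq4 x t nx nt h']; exact ⟨htr, hts⟩
    · intro h'; rw [eqm4 x t nx nt h', inner_neg_left, inner_neg_left, htr, hts]; exact ⟨rfl, rfl⟩
    · intro h1 h2
      rw [mix x r s nx nr ns hrs h1 h2, inner_sub_left, hrt, hst]; norm_num
    · intro h1 h2
      rw [mix x s r nx ns nr hsr h2 h1, inner_sub_left, hrt, hst]; norm_num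
    · intro h1 h2
      rw [mix x r t nx nr nt hrt h1 h2, inner_sub_left, hrs, hts]; norm_num
    · intro h1 h2
      rw [mix x t r nx nt nr htr h2 h1, inner_sub_left, hrs, hts]; norm_num
  have hsum := Finset.sum_congr rfl e
  rw [hPOL.m222 Y hY r s t, hrs, hrt, hst, hY.kiss.nrm r hr, hY.kiss.nrm s hs, hY.kiss.nrm t ht,
    Finset.sum_add_distrib, Finset.sum_add_distrib,
    ← Finset.mul_sum, ← Finset.mul_sum, ← Finset.mul_sum, Finset.sum_add_distrib,
    Finset.sum_add_distrib, Finset.sum_add_distrib, Finset.sum_add_distrib,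
    Finset.sum_add_distrib, cnt4 Y hY r hr, cnt4 Y hY s hs, cnt4 Y hY t ht,
    cntm4 hCLO Y hY r hr, cntm4 hCLO Y hY s hs, cntm4 hCLO Y hY t ht] at hsum
  have hneg : ∑ x ∈ Y, ind (inner ℝ x r) (-2) * ind (inner ℝ x s) (-2) * ind (inner ℝ x t) (-2)
      = ∑ x ∈ Y, ind (inner ℝ x r) 2 * ind (inner ℝ x s) 2 * ind (inner ℝ x t) 2 := by
    rw [← neg_sum hCLO Y hY]
    apply Finset.sum_congr rfl
    intro x _
    unfold ind
    rw [inner_neg_left, inner_neg_left, inner_neg_left]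
    simp only [neg_inj]
  rw [hneg] at hsum
  linarith

end CNEM

open CNEM in
theorem specCNE (hLPI : EV.SpecLPI) (hPOL : EV.SpecPOL) (hCLO : EV.SpecCLO) (hROT : EV.SpecROT) :
    SpecCNE := by
  classical
  constructor
  · intro r hr s hs h
    have h1 := n27 hLPI hPOL hCLO EV.R hROT.k240 r s hr hs h
    have e : ∑ x ∈ EV.R, ind (inner ℝ x r) 2 * ind (inner ℝ x s) 2
        = ((EV.R.filter fun t => inner ℝ t r = (2 : ℝ) ∧ inner ℝ t s = (2 : ℝ)).card : ℝ) := by
      rw [Finset.card_filter]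
      push_cast
      apply Finset.sum_congr rfl
      intro x _
      unfold ind
      by_cases a1 : (inner ℝ x r : ℝ) = 2 <;> by_cases a2 : (inner ℝ x s : ℝ) = 2 <;> simp [a1, a2]
    rw [e] at h1
    have h2 : (EV.R.filter fun t => inner ℝ t r = (2 : ℝ) ∧ inner ℝ t s = (2 : ℝ)).card = 27 := by
      exact_mod_cast h1
    convert h2
  · intro r hr s hs t ht hrs hrt hst
    have h1 := n16 hLPI hPOL hCLO EV.R hROT.k240 r s t hr hs ht hrs hrt hst
    have e : ∑ x ∈ EV.R, ind (inner ℝ x r) 2 * ind (inner ℝ x s) 2 * ind (inner ℝ x t) 2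
        = ((EV.R.filter fun x => inner ℝ x r = (2 : ℝ) ∧ inner ℝ x s = (2 : ℝ) ∧
          inner ℝ x t = (2 : ℝ)).card : ℝ) := by
      rw [Finset.card_filter]
      push_cast
      apply Finset.sum_congr rfl
      intro x _
      unfold ind
      by_cases a1 : (inner ℝ x r : ℝ) = 2 <;> by_cases a2 : (inner ℝ x s : ℝ) = 2 <;>
        by_cases a3 : (inner ℝ x t : ℝ) = 2 <;> simp [a1, a2, a3]
    rw [e] at h1
    have h2 : (EV.R.filter fun x => inner ℝ x r = (2 : ℝ) ∧ inner ℝ x s = (2 : ℝ) ∧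
          inner ℝ x t = (2 : ℝ)).card = 16 := by
      exact_mod_cast h1
    convert h2

end Pool.Agent.Lib.MP_f1379f_gt.FV
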