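import Pool.Agent.Lib.MP_f1379f_gt.EV.Spec
import Pool.Agent.Lib.MP_f1379f_gt.FV.SpecE

set_option autoImplicit false

namespace Pool.Agent.Lib.MP_f1379f_gt.FV.E8VM

open MeasureTheory Finset

/-- halving -/
noncomputable def ph (r : E) : E := (1 / 2 : ℝ) • r

theorem ph_inj : Function.Injective ph := by
  intro a b h
  have h1 : (1 / 2 : ℝ) • a = (1 / 2 : ℝ) • b := h
  exact smul_right_injective E (by norm_num : (1 / 2 : ℝ) ≠ 0) h1

theorem inner_ph (r s : E) : (inner ℝ (ph r) (ph s) : ℝ) = inner ℝ r s / 4 := by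
  unfold ph
  rw [real_inner_smul_left, real_inner_smul_right]
  ring

theorem norm_of_inner {x : E} (h : (inner ℝ x x : ℝ) = 1) : ‖x‖ = 1 := by
  rw [real_inner_self_eq_norm_sq] at h
  have h0 := norm_nonneg x
  nlinarith

theorem norm_ph {r : E} (h : (inner ℝ r r : ℝ) = 4) : ‖ph r‖ = 1 := by
  apply norm_of_inner
  rw [inner_ph, h]
  norm_num

theorem inner_toLp (a b : Fin 8 → ℝ) :
    (inner ℝ (WithLp.toLp 2 a : E) (WithLp.toLp 2 b : E) : ℝ) = ∑ i, a i * b i := by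
  rw [PiLp.inner_apply]
  apply Finset.sum_congr rfl
  intro i _
  simp [mul_comm]

theorem i00 : (inner ℝ e0 e0 : ℝ) = 1 := by
  unfold e0; rw [inner_toLp]; simp [Fin.sum_univ_eight]
theorem i11 : (inner ℝ e1 e1 : ℝ) = 1 := by
  unfold e1; rw [inner_toLp]; simp [Fin.sum_univ_eight]; norm_num
theorem i22 : (inner ℝ e2 e2 : ℝ) = 1 := by
  unfold e2; rw [inner_toLp]; simp [Fin.sum_univ_eight]; norm_num
theorem i33 : (inner ℝ e3 e3 : ℝ) = 1 := by
  unfold e3; rw [inner_toLp]; simp [Fin.sum_univ_eight]; norm_num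
theorem i01 : (inner ℝ e0 e1 : ℝ) = 1 / 2 := by
  unfold e0 e1; rw [inner_toLp]; simp [Fin.sum_univ_eight]
theorem i02 : (inner ℝ e0 e2 : ℝ) = 1 / 2 := by
  unfold e0 e2; rw [inner_toLp]; simp [Fin.sum_univ_eight]
theorem i03 : (inner ℝ e0 e3 : ℝ) = 1 / 2 := by
  unfold e0 e3; rw [inner_toLp]; simp [Fin.sum_univ_eight]
theorem i12 : (inner ℝ e1 e2 : ℝ) = 1 / 2 := by
  unfold e1 e2; rw [inner_toLp]; simp [Fin.sum_univ_eight]; norm_num
theorem i13 : (inner ℝ e1 e3 : ℝ) = 1 / 2 := by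
  unfold e1 e3; rw [inner_toLp]; simp [Fin.sum_univ_eight]; norm_num
theorem i23 : (inner ℝ e2 e3 : ℝ) = 1 / 2 := by
  unfold e2 e3; rw [inner_toLp]; simp [Fin.sum_univ_eight]; norm_num

section

variable (hINV : SpecINV) (hIN4 : SpecIN4) (hCNE : SpecCNE) (hROT : EV.SpecROT)
  (hCNT : EV.SpecCNT) (hLPI : EV.SpecLPI)

include hROT in
theorem nrm {r : E} (hr : r ∈ EV.R) : (inner ℝ r r : ℝ) = 4 := hROT.k240.kiss.nrm r hr

include hROT in
theorem nph {r : E} (hr : r ∈ EV.R) : ‖ph r‖ = 1 := norm_ph (nrm hROT hr)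

include hROT hLPI in
/-- inner products different from 2 are small -/
theorem small {r s : E} (hr : r ∈ EV.R) (hs : s ∈ EV.R) (hne : r ≠ s)
    (h : ¬ (inner ℝ r s : ℝ) = 2) : (inner ℝ (ph r) (ph s) : ℝ) ≤ 1 / 5 := by
  rw [inner_ph]
  have h1 := hROT.k240.kiss.sep r hr s hs hne
  rcases (hLPI EV.R hROT.k240).1 r hr s hs with h2 | h2 | h2 | h2 | h2
  · rw [h2] at h1; norm_num at h1
  · exact absurd h2 h
  · rw [h2]; norm_num
  · rw [h2]; norm_num
  · rw [h2]; norm_num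

include hROT hLPI hIN4 in
theorem empty {r s : E} (hr : r ∈ EV.R) (hs : s ∈ EV.R) (hne : r ≠ s)
    (h : ¬ (inner ℝ r s : ℝ) = 2) : cap (ph r) ∩ cap (ph s) = ∅ :=
  hIN4.zero _ _ (nph hROT hr).le (nph hROT hs).le (small hROT hLPI hr hs hne h)

include hROT hINV in
theorem v1_eq {r : E} (hr : r ∈ EV.R) : v1 (ph r) = c1 :=
  hINV.g1 _ _ (by rw [nph hROT hr, norm_of_inner i00])

include hROT hINV in
theorem v2_eq {r s : E} (hr : r ∈ EV.R) (hs : s ∈ EV.R) (h : (inner ℝ r s : ℝ) = 2) :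
    v2 (ph r) (ph s) = g11 :=
  hINV.g2 _ _ _ _ (by rw [nph hROT hr, norm_of_inner i00]) (by rw [nph hROT hs, norm_of_inner i11])
    (by rw [inner_ph, h, i01]; norm_num)

include hROT hLPI hIN4 in
theorem v2_zero {r s : E} (hr : r ∈ EV.R) (hs : s ∈ EV.R) (hne : r ≠ s)
    (h : ¬ (inner ℝ r s : ℝ) = 2) : v2 (ph r) (ph s) = 0 := by
  unfold v2
  rw [empty hIN4 hROT hLPI hr hs hne h]
  simp

include hROT hINV in
theorem v3_eq {r s t : E} (hr : r ∈ EV.R) (hs : s ∈ EV.R) (ht : t ∈ EV.R)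
    (h : (inner ℝ r s : ℝ) = 2) (h' : (inner ℝ r t : ℝ) = 2) (h'' : (inner ℝ s t : ℝ) = 2) :
    v3 (ph r) (ph s) (ph t) = s3 :=
  hINV.g3 _ _ _ _ _ _ (by rw [nph hROT hr, norm_of_inner i00])
    (by rw [nph hROT hs, norm_of_inner i11]) (by rw [nph hROT ht, norm_of_inner i22])
    (by rw [inner_ph, h, i01]; norm_num) (by rw [inner_ph, h', i02]; norm_num)
    (by rw [inner_ph, h'', i12]; norm_num)

include hROT hLPI hIN4 in
theorem v3_zero {r s t : E} (hr : r ∈ EV.R) (hs : s ∈ EV.R) (ht : t ∈ EV.R)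
    (hrs : r ≠ s) (hrt : r ≠ t) (hst : s ≠ t)
    (h : ¬ ((inner ℝ r s : ℝ) = 2 ∧ (inner ℝ r t : ℝ) = 2 ∧ (inner ℝ s t : ℝ) = 2)) :
    v3 (ph r) (ph s) (ph t) = 0 := by
  have key : cap (ph r) ∩ cap (ph s) ∩ cap (ph t) = ∅ := by
    rw [Set.eq_empty_iff_forall_notMem]
    rintro y ⟨⟨h1, h2⟩, h3⟩
    apply h
    refine ⟨?_, ?_, ?_⟩
    · by_contra hc
      have := empty hIN4 hROT hLPI hr hs hrs hc
      exact (Set.eq_empty_iff_forall_notMem.mp this) y ⟨h1, h2⟩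
    · by_contra hc
      have := empty hIN4 hROT hLPI hr ht hrt hc
      exact (Set.eq_empty_iff_forall_notMem.mp this) y ⟨h1, h3⟩
    · by_contra hc
      have := empty hIN4 hROT hLPI hs ht hst hc
      exact (Set.eq_empty_iff_forall_notMem.mp this) y ⟨h2, h3⟩
  unfold v3
  rw [key]
  simp

include hROT hIN4 in
theorem v4_eq {r s t z : E} (hr : r ∈ EV.R) (hs : s ∈ EV.R) (ht : t ∈ EV.R) (hz : z ∈ EV.R)
    (h : (inner ℝ r s : ℝ) = 2) (h' : (inner ℝ r t : ℝ) = 2) (h'' : (inner ℝ s t : ℝ) = 2)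
    (k : (inner ℝ r z : ℝ) = 2) (k' : (inner ℝ s z : ℝ) = 2) (k'' : (inner ℝ t z : ℝ) = 2) :
    v4 (ph r) (ph s) (ph t) (ph z) = s4 :=
  hIN4.g4 _ _ _ _ _ _ _ _ (by rw [nph hROT hr, norm_of_inner i00])
    (by rw [nph hROT hs, norm_of_inner i11]) (by rw [nph hROT ht, norm_of_inner i22])
    (by rw [nph hROT hz, norm_of_inner i33])
    (by rw [inner_ph, h, i01]; norm_num) (by rw [inner_ph, h', i02]; norm_num)
    (by rw [inner_ph, k, i03]; norm_num) (by rw [inner_ph, h'', i12]; norm_num)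
    (by rw [inner_ph, k', i13]; norm_num) (by rw [inner_ph, k'', i23]; norm_num)

include hROT hLPI hIN4 in
theorem v4_zero {r s t z : E} (hr : r ∈ EV.R) (hs : s ∈ EV.R) (ht : t ∈ EV.R) (hz : z ∈ EV.R)
    (hrs : r ≠ s) (hrt : r ≠ t) (hst : s ≠ t) (hrz : r ≠ z) (hsz : s ≠ z) (htz : t ≠ z)
    (h : ¬ (((inner ℝ r s : ℝ) = 2 ∧ (inner ℝ r t : ℝ) = 2 ∧ (inner ℝ s t : ℝ) = 2) ∧
      ((inner ℝ z r : ℝ) = 2 ∧ (inner ℝ z s : ℝ) = 2 ∧ (inner ℝ z t : ℝ) = 2))) :
    v4 (ph r) (ph s) (ph t) (ph z) = 0 := by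
  have key : cap (ph r) ∩ cap (ph s) ∩ cap (ph t) ∩ cap (ph z) = ∅ := by
    rw [Set.eq_empty_iff_forall_notMem]
    rintro y ⟨⟨⟨h1, h2⟩, h3⟩, h4⟩
    apply h
    refine ⟨⟨?_, ?_, ?_⟩, ?_, ?_, ?_⟩
    · by_contra hc
      have := empty hIN4 hROT hLPI hr hs hrs hc
      exact (Set.eq_empty_iff_forall_notMem.mp this) y ⟨h1, h2⟩
    · by_contra hc
      have := empty hIN4 hROT hLPI hr ht hrt hc
      exact (Set.eq_empty_iff_forall_notMem.mp this) y ⟨h1, h3⟩
    · by_contra hc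
      have := empty hIN4 hROT hLPI hs ht hst hc
      exact (Set.eq_empty_iff_forall_notMem.mp this) y ⟨h2, h3⟩
    · by_contra hc
      rw [real_inner_comm] at hc
      have := empty hIN4 hROT hLPI hr hz hrz hc
      exact (Set.eq_empty_iff_forall_notMem.mp this) y ⟨h1, h4⟩
    · by_contra hc
      rw [real_inner_comm] at hc
      have := empty hIN4 hROT hLPI hs hz hsz hc
      exact (Set.eq_empty_iff_forall_notMem.mp this) y ⟨h2, h4⟩
    · by_contra hc
      rw [real_inner_comm] at hc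
      have := empty hIN4 hROT hLPI ht hz htz hc
      exact (Set.eq_empty_iff_forall_notMem.mp this) y ⟨h3, h4⟩
  unfold v4
  rw [key]
  simp

end

/-- a sum of constants -/
theorem sum_ind {A : Finset E} {P : E → Prop} [DecidablePred P] {g : E → ℝ} {c : ℝ} {R : Finset E}
    (hg : ∀ z ∈ A, P z → g z = c) (hg0 : ∀ z ∈ A, ¬ P z → g z = 0) (hA : A ⊆ R)
    (hP : ∀ z ∈ R, P z → z ∈ A) : ∑ z ∈ A, g z = (R.filter P).card * c := by
  have h1 : A.filter P = R.filter P := by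
    ext z
    simp only [Finset.mem_filter]
    exact ⟨fun h => ⟨hA h.1, h.2⟩, fun h => ⟨hP z h.1 h.2, h.2⟩⟩
  rw [← h1, ← Finset.sum_filter_add_sum_filter_not A P]
  rw [Finset.sum_congr rfl (fun z hz => hg z (Finset.mem_filter.mp hz).1 (Finset.mem_filter.mp hz).2),
    Finset.sum_congr rfl (fun z hz => hg0 z (Finset.mem_filter.mp hz).1
      (Finset.mem_filter.mp hz).2)]
  simp

section

variable (hINV : SpecINV) (hIN4 : SpecIN4) (hCNE : SpecCNE) (hROT : EV.SpecROT)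
  (hCNT : EV.SpecCNT) (hLPI : EV.SpecLPI)

include hROT in
theorem ne_of_two {r s : E} (hr : r ∈ EV.R) (h : (inner ℝ r s : ℝ) = 2) : s ≠ r := by
  rintro rfl
  rw [nrm hROT hr] at h
  norm_num at h

include hROT in
theorem ne_of_two' {r s : E} (hr : r ∈ EV.R) (h : (inner ℝ s r : ℝ) = 2) : s ≠ r := by
  rintro rfl
  rw [nrm hROT hr] at h
  norm_num at h

open Classical in
include hROT hCNT in
theorem card56 {r : E} (hr : r ∈ EV.R) (c : ℝ) :
    ∑ s ∈ EV.R.erase r, (if (inner ℝ r s : ℝ) = 2 then c else 0) = 56 * c := by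
  rw [sum_ind (P := fun s => (inner ℝ r s : ℝ) = 2) (c := c) (R := EV.R)]
  · have h := hCNT.c56 EV.R hROT.k240 r hr
    have h' : (EV.R.filter fun s => (inner ℝ r s : ℝ) = 2).card = 56 := by
      convert h
    rw [h']
    norm_num
  · intro z _ h
    rw [if_pos h]
  · intro z _ h
    rw [if_neg h]
  · exact Finset.erase_subset _ _
  · intro z hz h
    exact Finset.mem_erase.mpr ⟨ne_of_two hROT hr h, hz⟩

open Classical in
include hROT hCNE in
theorem card27 {r s : E} (hr : r ∈ EV.R) (hs : s ∈ EV.R) (c : ℝ) :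
    ∑ t ∈ (EV.R.erase r).erase s,
      (if (inner ℝ r s : ℝ) = 2 ∧ (inner ℝ r t : ℝ) = 2 ∧ (inner ℝ s t : ℝ) = 2 then c else 0) =
      if (inner ℝ r s : ℝ) = 2 then 27 * c else 0 := by
  by_cases hrs : (inner ℝ r s : ℝ) = 2
  · rw [if_pos hrs, sum_ind (P := fun t => (inner ℝ t r : ℝ) = 2 ∧ (inner ℝ t s : ℝ) = 2)
      (c := c) (R := EV.R)]
    · have h := hCNE.n27 r hr s hs hrs
      have h' : (EV.R.filter fun t => (inner ℝ t r : ℝ) = 2 ∧ (inner ℝ t s : ℝ) = 2).card = 27 := by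
        convert h
      rw [h']
      norm_num
    · intro z _ h
      rw [if_pos ⟨hrs, by rw [real_inner_comm]; exact h.1, by rw [real_inner_comm]; exact h.2⟩]
    · intro z _ h
      rw [if_neg]
      rintro ⟨-, h1, h2⟩
      exact h ⟨by rw [real_inner_comm]; exact h1, by rw [real_inner_comm]; exact h2⟩
    · exact (Finset.erase_subset _ _).trans (Finset.erase_subset _ _)
    · intro z hz h
      exact Finset.mem_erase.mpr ⟨ne_of_two' hROT hs h.2,
        Finset.mem_erase.mpr ⟨ne_of_two' hROT hr h.1, hz⟩⟩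
  · rw [if_neg hrs]
    apply Finset.sum_eq_zero
    intro t _
    rw [if_neg (fun h => hrs h.1)]

open Classical in
include hROT hCNE hIN4 hLPI in
theorem card16 {r s t : E} (hr : r ∈ EV.R) (hs : s ∈ EV.R) (ht : t ∈ EV.R)
    (hrs : r ≠ s) (hrt : r ≠ t) (hst : s ≠ t) :
    ∑ z ∈ ((EV.R.erase r).erase s).erase t, v4 (ph r) (ph s) (ph t) (ph z) =
      if (inner ℝ r s : ℝ) = 2 ∧ (inner ℝ r t : ℝ) = 2 ∧ (inner ℝ s t : ℝ) = 2
        then 16 * s4 else 0 := by
  have hz' : ∀ z ∈ ((EV.R.erase r).erase s).erase t, z ∈ EV.R ∧ z ≠ r ∧ z ≠ s ∧ z ≠ t := by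
    intro z hz
    rw [Finset.mem_erase, Finset.mem_erase, Finset.mem_erase] at hz
    exact ⟨hz.2.2.2, hz.2.2.1, hz.2.1, hz.1⟩
  by_cases hc : (inner ℝ r s : ℝ) = 2 ∧ (inner ℝ r t : ℝ) = 2 ∧ (inner ℝ s t : ℝ) = 2
  · rw [if_pos hc, sum_ind (P := fun z => (inner ℝ z r : ℝ) = 2 ∧ (inner ℝ z s : ℝ) = 2 ∧
      (inner ℝ z t : ℝ) = 2) (c := s4) (R := EV.R)]
    · have h := hCNE.n16 r hr s hs t ht hc.1 hc.2.1 hc.2.2
      have h' : (EV.R.filter fun z => (inner ℝ z r : ℝ) = 2 ∧ (inner ℝ z s : ℝ) = 2 ∧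
          (inner ℝ z t : ℝ) = 2).card = 16 := by
        convert h
      rw [h']
      norm_num
    · intro z hz h
      exact v4_eq hIN4 hROT hr hs ht (hz' z hz).1 hc.1 hc.2.1 hc.2.2
        (by rw [real_inner_comm]; exact h.1) (by rw [real_inner_comm]; exact h.2.1)
        (by rw [real_inner_comm]; exact h.2.2)
    · intro z hz h
      obtain ⟨h1, h2, h3, h4⟩ := hz' z hz
      exact v4_zero hIN4 hROT hLPI hr hs ht h1 hrs hrt hst h2.symm h3.symm h4.symm
        (fun hh => h hh.2)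
    · exact ((Finset.erase_subset _ _).trans (Finset.erase_subset _ _)).trans
        (Finset.erase_subset _ _)
    · intro z hz h
      exact Finset.mem_erase.mpr ⟨ne_of_two' hROT ht h.2.2, Finset.mem_erase.mpr
        ⟨ne_of_two' hROT hs h.2.1, Finset.mem_erase.mpr ⟨ne_of_two' hROT hr h.1, hz⟩⟩⟩
  · rw [if_neg hc]
    apply Finset.sum_eq_zero
    intro z hz
    obtain ⟨h1, h2, h3, h4⟩ := hz' z hz
    exact v4_zero hIN4 hROT hLPI hr hs ht h1 hrs hrt hst h2.symm h3.symm h4.symm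
      (fun hh => hc hh.1)

open Classical in
include hROT hCNE hIN4 hLPI hINV in
theorem pair {r s : E} (hr : r ∈ EV.R) (hs : s ∈ EV.R) (hrs : r ≠ s) :
    v2 (ph r) (ph s) - (1 / 3) * ∑ t ∈ (EV.R.erase r).erase s, v3 (ph r) (ph s) (ph t) =
      if (inner ℝ r s : ℝ) = 2 then GG else 0 := by
  have h1 : ∑ t ∈ (EV.R.erase r).erase s, v3 (ph r) (ph s) (ph t) =
      if (inner ℝ r s : ℝ) = 2 then 27 * s3 else 0 := by
    rw [← card27 hCNE hROT hr hs s3]
    apply Finset.sum_congr rfl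
    intro t ht
    rw [Finset.mem_erase, Finset.mem_erase] at ht
    by_cases hc : (inner ℝ r s : ℝ) = 2 ∧ (inner ℝ r t : ℝ) = 2 ∧ (inner ℝ s t : ℝ) = 2
    · rw [if_pos hc]
      exact v3_eq hINV hROT hr hs ht.2.2 hc.1 hc.2.1 hc.2.2
    · rw [if_neg hc]
      exact v3_zero hIN4 hROT hLPI hr hs ht.2.2 hrs (Ne.symm ht.2.1) (Ne.symm ht.1) hc
  rw [h1]
  by_cases hc : (inner ℝ r s : ℝ) = 2
  · rw [if_pos hc, if_pos hc, v2_eq hINV hROT hr hs hc]
    unfold GG
    ring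
  · rw [if_neg hc, if_neg hc, v2_zero hIN4 hROT hLPI hr hs hrs hc]
    ring

theorem erase_ph (S : Finset E) (r : E) : (S.image ph).erase (ph r) = (S.erase r).image ph :=
  (Finset.image_erase ph_inj S r).symm

theorem sum_ph (S : Finset E) (g : E → ℝ) : ∑ u ∈ S.image ph, g u = ∑ r ∈ S, g (ph r) :=
  Finset.sum_image (fun _ _ _ _ h => ph_inj h)

theorem UE_eq : UE = EV.R.image ph := rfl

include hROT hCNE hIN4 hLPI hINV hCNT in
theorem S23_eq : S23 UE = 13440 * GG := by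
  unfold S23
  rw [UE_eq, sum_ph]
  have h : ∀ r ∈ EV.R, ∑ v ∈ (EV.R.image ph).erase (ph r), (v2 (ph r) v -
      (1 / 3) * ∑ w ∈ ((EV.R.image ph).erase (ph r)).erase v, v3 (ph r) v w) = 56 * GG := by
    intro r hr
    rw [erase_ph, sum_ph, ← card56 hROT hCNT hr GG]
    apply Finset.sum_congr rfl
    intro s hs
    rw [erase_ph, sum_ph]
    exact pair hINV hIN4 hCNE hROT hLPI hr (Finset.mem_erase.mp hs).2 (Finset.mem_erase.mp hs).1.symm
  rw [Finset.sum_congr rfl h, Finset.sum_const, hROT.k240.card]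
  ring

include hROT hCNE hIN4 hLPI hCNT in
theorem S4_eq : S4 UE = 5806080 * s4 := by
  unfold S4
  rw [UE_eq, sum_ph]
  have h : ∀ r ∈ EV.R, ∑ v ∈ (EV.R.image ph).erase (ph r),
      ∑ w ∈ ((EV.R.image ph).erase (ph r)).erase v,
        ∑ z ∈ (((EV.R.image ph).erase (ph r)).erase v).erase w, v4 (ph r) v w z =
          56 * (27 * (16 * s4)) := by
    intro r hr
    rw [erase_ph, sum_ph, ← card56 hROT hCNT hr (27 * (16 * s4))]
    apply Finset.sum_congr rfl
    intro s hs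
    have hs' := Finset.mem_erase.mp hs
    rw [erase_ph, sum_ph, ← card27 hCNE hROT hr hs'.2 (16 * s4)]
    apply Finset.sum_congr rfl
    intro t ht
    have ht' := Finset.mem_erase.mp ht
    have ht'' := Finset.mem_erase.mp ht'.2
    rw [erase_ph, sum_ph]
    exact card16 hIN4 hCNE hROT hLPI hr hs'.2 ht''.2 hs'.1.symm ht''.1.symm ht'.1.symm
  rw [Finset.sum_congr rfl h, Finset.sum_const, hROT.k240.card]
  ring

include hROT in
theorem adm : Adm UE := by
  constructor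
  · intro u hu
    rw [UE_eq, Finset.mem_image] at hu
    obtain ⟨r, hr, rfl⟩ := hu
    intro h0
    have := nph hROT hr
    rw [h0, norm_zero] at this
    norm_num at this
  · intro u hu
    rw [UE_eq, Finset.mem_image] at hu
    obtain ⟨r, hr, rfl⟩ := hu
    exact (nph hROT hr).le
  · intro u hu v hv huv
    rw [UE_eq, Finset.mem_image] at hu hv
    obtain ⟨r, hr, rfl⟩ := hu
    obtain ⟨s, hs, rfl⟩ := hv
    rw [nph hROT hr, nph hROT hs, inner_ph]
    have := hROT.k240.kiss.sep r hr s hs (fun h => huv (by rw [h]))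
    linarith

include hROT in
theorem cardUE : UE.card = 240 := by
  rw [UE_eq, Finset.card_image_of_injective _ ph_inj, hROT.k240.card]

theorem poly_eq : poly UE = {y : E | ∀ r ∈ EV.R, (inner ℝ y r : ℝ) ≤ 2} := by
  ext y
  constructor
  · intro h r hr
    have h1 := h (ph r) (by rw [UE_eq]; exact Finset.mem_image_of_mem _ hr)
    unfold ph at h1
    rw [real_inner_smul_left, real_inner_comm] at h1
    linarith
  · intro h u hu
    rw [UE_eq, Finset.mem_image] at hu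
    obtain ⟨r, hr, rfl⟩ := hu
    have h1 := h r hr
    unfold ph
    rw [real_inner_smul_left, real_inner_comm]
    linarith

end

end Pool.Agent.Lib.MP_f1379f_gt.FV.E8VM

namespace Pool.Agent.Lib.MP_f1379f_gt.FV

open E8VM MeasureTheory

theorem specE8V (hINV : SpecINV) (hIN4 : SpecIN4) (hCNE : SpecCNE) (hIEX : SpecIEX)
    (hROT : EV.SpecROT) (hCNT : EV.SpecCNT) (hLPI : EV.SpecLPI) (hVOL : EV.SpecVOL)
    (hCOV : EV.SpecCOV) : SpecE8V := by
  have hvol : (volume (bal ∩ poly UE)).toReal = T0 + 241920 * s4 := by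
    rw [hIEX.id UE (adm hROT), S23_eq hINV hIN4 hCNE hROT hCNT hLPI,
      S4_eq hIN4 hCNE hROT hCNT hLPI]
    have h1 : ∑ u ∈ UE, v1 u = 240 * c1 := by
      rw [UE_eq, sum_ph, Finset.sum_congr rfl (fun r hr => v1_eq hINV hROT hr), Finset.sum_const,
        hROT.k240.card]
      ring
    rw [h1]
    unfold T0
    ring
  have hb : MeasurableSet bal := by
    have : IsOpen bal := isOpen_lt (by fun_prop) continuous_const
    exact this.measurableSet
  have h16 : volume (poly UE) = 16 := by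
    rw [poly_eq]
    exact hVOL
  refine ⟨adm hROT, cardUE hROT, S23_eq hINV hIN4 hCNE hROT hCNT hLPI,
    S4_eq hIN4 hCNE hROT hCNT hLPI, hvol, ?_, ?_⟩
  · have h2 := measure_inter_add_sdiff (μ := volume) (poly UE) hb
    have h3 : volume (poly UE ∩ bal) ≠ ⊤ := by
      apply ne_of_lt
      exact (measure_mono Set.inter_subset_left).trans_lt (by rw [h16]; exact ENNReal.ofNat_lt_top)
    have h4 : volume (poly UE \ bal) ≠ ⊤ := by
      apply ne_of_lt
      exact (measure_mono Set.sdiff_subset).trans_lt (by rw [h16]; exact ENNReal.ofNat_lt_top)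
    have h5 := congrArg ENNReal.toReal h2
    rw [ENNReal.toReal_add h3 h4, h16, Set.inter_comm, hvol] at h5
    rw [h5]
    norm_num
  · intro y hy
    rw [poly_eq] at hy
    obtain ⟨r, hr, h0, h1⟩ := hCOV y
    have h2 : (inner ℝ y r : ℝ) ≤ 2 := hy r hr
    rw [real_inner_self_eq_norm_sq] at h1
    nlinarith

end Pool.Agent.Lib.MP_f1379f_gt.FV
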