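import Pool.Agent.Lib.MP_f1379f_gt.FV.CKU

/-!
# box check, region C
-/

set_option autoImplicit false
set_option linter.unusedVariables false
set_option linter.style.longLine false
set_option maxRecDepth 100000

namespace Pool.Agent.Lib.MP_f1379f_gt.FV.CK.Cr

open Finset Pool.Agent.Lib.MP_f1379f_gt.FV Pool.Agent.Lib.MP_f1379f_gt.FV.BCH Pool.Agent.Lib.MP_f1379f_gt.FV.CK Pool.Agent.Lib.MP_f1379f_gt.FV.CK.U

/-- node -/
def nd441 : Ex := .m nd7 nd16
/-- node -/
def nd442 : Ex := .m nd7 nd441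
/-- node -/
def nd444 : Ex := .m nd441 nd441
/-- node -/
def nd445 : Ex := .m nd442 nd444
/-- node -/
def nd449 : Ex := .m nd445 nd445
/-- node -/
def nd450 : Ex := .m eB nd449
/-- node -/
def nd453 : Ex := .f 1 nd9 (-2) nd2
/-- node -/
def nd454 : Ex := .m eR1 nd453
/-- node -/
def nd455 : Ex := .m nd16 nd441
/-- node -/
def nd456 : Ex := .m nd16 nd16
/-- node -/
def nd457 : Ex := .m nd16 nd456
/-- node -/
def nd458 : Ex := .m nd455 nd457
/-- node -/
def nd459 : Ex := .m nd441 nd456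
/-- node -/
def nd460 : Ex := .m nd455 nd459
/-- node -/
def nd461 : Ex := .m nd458 nd460
/-- node -/
def nd462 : Ex := .m nd454 nd461
/-- node -/
def nd468 : Ex := .f (-286910395) nd7 65917 nd429
/-- node -/
def nd469 : Ex := .m nd468 eD2
/-- node -/
def nd470 : Ex := .m nd469 nd9
/-- node -/
def nd471 : Ex := .f 10 nd470 167970983 eDd
/-- node -/
def nd472 : Ex := .m eDd eD2
/-- node -/
def nd473 : Ex := .m nd471 nd16
/-- node -/
def nd474 : Ex := .f 25 nd473 (-3304422) nd472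
/-- node -/
def nd475 : Ex := .m nd455 nd444
/-- node -/
def nd476 : Ex := .m nd444 nd459
/-- node -/
def nd477 : Ex := .m nd475 nd476
/-- node -/
def nd478 : Ex := .m nd474 nd477
/-- node -/
def nd488 : Ex := .f (-70004811) nd7 21275 nd429
/-- node -/
def nd489 : Ex := .m nd488 eD2
/-- node -/
def nd490 : Ex := .m nd489 nd9
/-- node -/
def nd491 : Ex := .f 125 nd490 501583833 eDd
/-- node -/
def nd492 : Ex := .m nd491 nd16
/-- node -/
def nd493 : Ex := .f 75 nd492 (-32415616) nd472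
/-- node -/
def nd494 : Ex := .m nd493 nd477
/-- node -/
def nd496 : Ex := .f (-4362032315) nd7 1227089 nd429
/-- node -/
def nd497 : Ex := .m nd496 eD2
/-- node -/
def nd498 : Ex := .m nd497 nd9
/-- node -/
def nd499 : Ex := .f 5 nd498 1259406246 eDd
/-- node -/
def nd500 : Ex := .m nd499 nd16
/-- node -/
def nd501 : Ex := .f 25 nd500 (-26704158) nd472
/-- node -/
def nd502 : Ex := .m nd501 nd477
/-- node -/
def nd505 : Ex := .f (-704953775) nd7 116308 nd429
/-- node -/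
def nd506 : Ex := .m nd505 eD2
/-- node -/
def nd507 : Ex := .m nd506 nd9
/-- node -/
def nd508 : Ex := .f 10 nd507 419564083 eDd
/-- node -/
def nd509 : Ex := .m nd508 nd16
/-- node -/
def nd510 : Ex := .f 25 nd509 (-7374312) nd472
/-- node -/
def nd511 : Ex := .m nd510 nd477
/-- node -/
def eKPC : Ex := .f 1 eS11 886823437500000000000000000000000000000000000000000 nd462
/-- node -/
def nd514 : Ex := .f 1 eKPC 2956078125000000000000000000000000000000000000 nd450
/-- node -/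
def g0C : Ex := .f (-1) nd514 0 nd514
/-- node -/
def nd516 : Ex := .m eR3 eKPC
/-- node -/
def eQC : Ex := .m nd516 eD2
/-- node -/
def nd518 : Ex := .m eD2 nd16
/-- node -/
def nd519 : Ex := .f 4 eDd (-75) nd518
/-- node -/
def nd520 : Ex := .f 29165000 nd518 8820751 nd519
/-- node -/
def nd521 : Ex := .f 4 eDd (-1875) nd456
/-- node -/
def nd522 : Ex := .m nd521 eD2
/-- node -/
def nd523 : Ex := .m nd520 nd16
/-- node -/
def nd524 : Ex := .f 2500 nd523 (-19391519) nd522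
/-- node -/
def nd525 : Ex := .f 1 nd429 (-10) nd7
/-- node -/
def nd526 : Ex := .m nd525 eD2
/-- node -/
def nd527 : Ex := .m nd526 nd17
/-- node -/
def nd528 : Ex := .f 1 nd524 507235000 nd527
/-- node -/
def nd529 : Ex := .m nd528 nd477
/-- node -/
def g1C : Ex := .f 1773646875000000000000000000000000000000 nd529 (-1) eQC
/-- node -/
def g2C : Ex := .f 3547293750000000000000000000000000000000 nd494 (-1) eQC
/-- node -/
def g3C : Ex := .f 3547293750000000000000000000000000000000 nd502 (-1) eQC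
/-- node -/
def g4C : Ex := .f 17736468750000000000000000000000000000000 nd478 (-1) eQC
/-- node -/
def g5C : Ex := .f 3547293750000000000000000000000000000000 nd511 (-1) eQC

/-- real function of eKPC -/
noncomputable def f_eKPC (x y t : ℝ) : ℝ := f_eS11 x y t + (f_eR1 x y t * ((1 / 125) * ((1 / 2) - t)))

theorem v_eKPC (x y t : ℝ) : val eKPC x y t = 221705859375000000000000000000000000000000000000000000 * (f_eKPC x y t) := by
  simp only [nd2, nd5, nd6, nd7, nd9, nd15, nd16, nd441, nd453, nd454, nd455, nd456, nd457, nd458, nd459, nd460, nd461, nd462, eKPC, v_eS11, v_eR1, val_f, val_h, val_m, val_vt]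
  unfold f_eKPC
  push_cast
  ring

/-- real function of g0C -/
noncomputable def f_g0C (x y t : ℝ) : ℝ := -(f_eKPC x y t + ((1 / 18750000) * base (t)))

theorem v_g0C (x y t : ℝ) : val g0C x y t = 221705859375000000000000000000000000000000000000000000 * (f_g0C x y t) := by
  simp only [nd5, nd6, nd7, nd9, nd15, nd16, nd441, nd442, nd444, nd445, nd449, nd450, nd514, g0C, v_eB, v_eKPC, val_f, val_h, val_m]
  unfold f_g0C
  push_cast
  ring

/-- real function of eQC -/
noncomputable def f_eQC (x y t : ℝ) : ℝ := (f_eR3 x y t * f_eKPC x y t) * f_eD2 x y t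

theorem v_eQC (x y t : ℝ) : val eQC x y t = 5542646484375000000000000000000000000000000000000000000 * (f_eQC x y t) := by
  simp only [nd516, eQC, v_eD2, v_eR3, v_eKPC, val_m]
  unfold f_eQC
  push_cast
  ring

/-- real function of g1C -/
noncomputable def f_g1C (x y t : ℝ) : ℝ := (((((5833 / 10000000) * f_eD2 x y t) + ((8820751 / 500000000) * (f_eDd x y t - ((3 / 4) * f_eD2 x y t)))) - ((19391519 / 50000000000) * ((f_eDd x y t - (3 / 4)) * f_eD2 x y t))) + ((101447 / 5000000000) * ((((1 - ((2 / 5) * x)) + (1 - ((2 / 5) * y))) - 2) * f_eD2 x y t))) - f_eQC x y t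

theorem v_g1C (x y t : ℝ) : val g1C x y t = 5542646484375000000000000000000000000000000000000000000 * (f_g1C x y t) := by
  simp only [nd0, nd1, nd5, nd6, nd7, nd9, nd12, nd13, nd15, nd16, nd17, nd427, nd428, nd429, nd441, nd444, nd455, nd456, nd459, nd475, nd476, nd477, nd518, nd519, nd520, nd521, nd522, nd523, nd524, nd525, nd526, nd527, nd528, nd529, g1C, v_eD2, v_eDd, v_eQC, val_f, val_h, val_m, val_vx, val_vy]
  unfold f_g1C
  push_cast
  ring

/-- real function of g2C -/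
noncomputable def f_g2C (x y t : ℝ) : ℝ := ((((((-210014433) / 20000000000) + ((2553 / 160000000) * ((1 - ((2 / 5) * x)) + (1 - ((2 / 5) * y))))) * f_eD2 x y t) + ((1504751499 / 100000000000) * f_eDd x y t)) + (((-253247) / 781250000) * (f_eDd x y t * f_eD2 x y t))) - f_eQC x y t

theorem v_g2C (x y t : ℝ) : val g2C x y t = 5542646484375000000000000000000000000000000000000000000 * (f_g2C x y t) := by
  simp only [nd0, nd1, nd5, nd6, nd7, nd9, nd12, nd13, nd15, nd16, nd427, nd428, nd429, nd441, nd444, nd455, nd456, nd459, nd472, nd475, nd476, nd477, nd488, nd489, nd490, nd491, nd492, nd493, nd494, g2C, v_eD2, v_eDd, v_eQC, val_f, val_h, val_m, val_vx, val_vy]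
  unfold f_g2C
  push_cast
  ring

/-- real function of g3C -/
noncomputable def f_g3C (x y t : ℝ) : ℝ := ((((((-872406463) / 100000000000) + ((1227089 / 100000000000) * ((1 - ((2 / 5) * x)) + (1 - ((2 / 5) * y))))) * f_eD2 x y t) + ((629703123 / 50000000000) * f_eDd x y t)) + (((-13352079) / 50000000000) * (f_eDd x y t * f_eD2 x y t))) - f_eQC x y t

theorem v_g3C (x y t : ℝ) : val g3C x y t = 5542646484375000000000000000000000000000000000000000000 * (f_g3C x y t) := by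
  simp only [nd0, nd1, nd5, nd6, nd7, nd9, nd12, nd13, nd15, nd16, nd427, nd428, nd429, nd441, nd444, nd455, nd456, nd459, nd472, nd475, nd476, nd477, nd496, nd497, nd498, nd499, nd500, nd501, nd502, g3C, v_eD2, v_eDd, v_eQC, val_f, val_h, val_m, val_vx, val_vy]
  unfold f_g3C
  push_cast
  ring

/-- real function of g4C -/
noncomputable def f_g4C (x y t : ℝ) : ℝ := ((((((-57382079) / 10000000000) + ((65917 / 10000000000) * ((1 - ((2 / 5) * x)) + (1 - ((2 / 5) * y))))) * f_eD2 x y t) + ((167970983 / 20000000000) * f_eDd x y t)) + (((-1652211) / 10000000000) * (f_eDd x y t * f_eD2 x y t))) - f_eQC x y t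

theorem v_g4C (x y t : ℝ) : val g4C x y t = 5542646484375000000000000000000000000000000000000000000 * (f_g4C x y t) := by
  simp only [nd0, nd1, nd5, nd6, nd7, nd9, nd12, nd13, nd15, nd16, nd427, nd428, nd429, nd441, nd444, nd455, nd456, nd459, nd468, nd469, nd470, nd471, nd472, nd473, nd474, nd475, nd476, nd477, nd478, g4C, v_eD2, v_eDd, v_eQC, val_f, val_h, val_m, val_vx, val_vy]
  unfold f_g4C
  push_cast
  ring

/-- real function of g5C -/
noncomputable def f_g5C (x y t : ℝ) : ℝ := ((((((-28198151) / 10000000000) + ((29077 / 12500000000) * ((1 - ((2 / 5) * x)) + (1 - ((2 / 5) * y))))) * f_eD2 x y t) + ((419564083 / 100000000000) * f_eDd x y t)) + (((-921789) / 12500000000) * (f_eDd x y t * f_eD2 x y t))) - f_eQC x y t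

theorem v_g5C (x y t : ℝ) : val g5C x y t = 5542646484375000000000000000000000000000000000000000000 * (f_g5C x y t) := by
  simp only [nd0, nd1, nd5, nd6, nd7, nd9, nd12, nd13, nd15, nd16, nd427, nd428, nd429, nd441, nd444, nd455, nd456, nd459, nd472, nd475, nd476, nd477, nd505, nd506, nd507, nd508, nd509, nd510, nd511, g5C, v_eD2, v_eDd, v_eQC, val_f, val_h, val_m, val_vx, val_vy]
  unfold f_g5C
  push_cast
  ring

/-- parameters -/
def P0C : Par := ⟨670, 14, 14, 11, 1024, 1024, 22400, 2048, 2048, 22400⟩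

theorem hP0C : chkPar P0C g0C = true := by decide +kernel

/-- parameters -/
def P1C : Par := ⟨786, 18, 18, 12, 1024, 1024, 22400, 2048, 2048, 22400⟩

theorem hP1C : chkPar P1C g1C = true := by decide +kernel

/-- parameters -/
def P2C : Par := ⟨786, 18, 18, 12, 1024, 1024, 22400, 2048, 2048, 22400⟩

theorem hP2C : chkPar P2C g2C = true := by decide +kernel

/-- parameters -/
def P3C : Par := ⟨786, 18, 18, 12, 1024, 1024, 22400, 2048, 2048, 22400⟩

theorem hP3C : chkPar P3C g3C = true := by decide +kernel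

/-- parameters -/
def P4C : Par := ⟨786, 18, 18, 12, 1024, 1024, 22400, 2048, 2048, 22400⟩

theorem hP4C : chkPar P4C g4C = true := by decide +kernel

/-- parameters -/
def P5C : Par := ⟨786, 18, 18, 12, 1024, 1024, 22400, 2048, 2048, 22400⟩

theorem hP5C : chkPar P5C g5C = true := by decide +kernel

/-- kinds -/
def ks (k : ℕ) : Par × Ex :=
  match k with
  | 0 => (P0C, g0C)
  | 1 => (P1C, g1C)
  | 2 => (P2C, g2C)
  | 3 => (P3C, g3C)
  | 4 => (P4C, g4C)
  | _ => (P5C, g5C)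

lemma hks : ∀ k < 6, chkPar (ks k).1 (ks k).2 = true := by
  intro k hk
  interval_cases k
  · exact hP0C
  · exact hP1C
  · exact hP2C
  · exact hP3C
  · exact hP4C
  · exact hP5C

/-- subtree -/
def T0 : Tm := (.sy 64 (.sx 32 (.sy 32 (.sx 16 (.sy 16 (.st 11032 (.lf 2) (.lf 1)) (.lf 1)) (.lf 1)) (.sx 16 .sk (.lf 2))) (.sy 32 (.sx 48 (.sy 16 (.lf 1) (.lf 2)) (.lf 2)) (.lf 2))) (.lf 2))
theorem hT0 : chkTm ks 6 1024 1024 22400 T0 ⟨0, 64, 0, 128, 10864, 11200⟩ = true := by decide +kernel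
/-- subtree -/
def T1 : Tm := (.sy 64 (.lf 2) (.lf 3))
theorem hT1 : chkTm ks 6 1024 1024 22400 T1 ⟨64, 128, 0, 128, 10864, 11200⟩ = true := by decide +kernel
/-- subtree -/
def T2 : Tm := .sx 64 T0 T1
theorem hT2 : chkTm ks 6 1024 1024 22400 T2 ⟨0, 128, 0, 128, 10864, 11200⟩ = true := gluem_x hT0 hT1
/-- subtree -/
def T3 : Tm := (.sx 64 .sk (.lf 4))
theorem hT3 : chkTm ks 6 1024 1024 22400 T3 ⟨0, 128, 128, 256, 10864, 11200⟩ = true := by decide +kernel
/-- subtree -/
def T4 : Tm := .sy 128 T2 T3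
theorem hT4 : chkTm ks 6 1024 1024 22400 T4 ⟨0, 128, 0, 256, 10864, 11200⟩ = true := gluem_y hT2 hT3
/-- subtree -/
def T5 : Tm := (.sy 128 (.sx 192 (.lf 3) (.sy 64 (.lf 3) (.lf 4))) (.lf 4))
theorem hT5 : chkTm ks 6 1024 1024 22400 T5 ⟨128, 256, 0, 256, 10864, 11200⟩ = true := by decide +kernel
/-- subtree -/
def T6 : Tm := .sx 128 T4 T5
theorem hT6 : chkTm ks 6 1024 1024 22400 T6 ⟨0, 256, 0, 256, 10864, 11200⟩ = true := gluem_x hT4 hT5
/-- subtree -/
def T7 : Tm := (.sx 128 .sk (.sy 384 (.lf 5) .sk))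
theorem hT7 : chkTm ks 6 1024 1024 22400 T7 ⟨0, 256, 256, 512, 10864, 11200⟩ = true := by decide +kernel
/-- subtree -/
def T8 : Tm := .sy 256 T6 T7
theorem hT8 : chkTm ks 6 1024 1024 22400 T8 ⟨0, 256, 0, 512, 10864, 11200⟩ = true := gluem_y hT6 hT7
/-- subtree -/
def T9 : Tm := (.sx 384 (.sy 128 (.sx 320 (.lf 4) (.sy 64 (.lf 4) (.lf 5))) (.lf 5)) (.sy 128 (.lf 5) (.sx 448 (.lf 5) (.lf 0))))
theorem hT9 : chkTm ks 6 1024 1024 22400 T9 ⟨256, 512, 0, 256, 10864, 11200⟩ = true := by decide +kernel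
/-- subtree -/
def T10 : Tm := (.sx 384 (.sy 384 (.sx 320 (.lf 5) (.sy 320 (.lf 5) (.lf 0))) (.lf 0)) (.lf 0))
theorem hT10 : chkTm ks 6 1024 1024 22400 T10 ⟨256, 512, 256, 512, 10864, 11200⟩ = true := by decide +kernel
/-- subtree -/
def T11 : Tm := .sy 256 T9 T10
theorem hT11 : chkTm ks 6 1024 1024 22400 T11 ⟨256, 512, 0, 512, 10864, 11200⟩ = true := gluem_y hT9 hT10
/-- subtree -/
def T12 : Tm := .sx 256 T8 T11
theorem hT12 : chkTm ks 6 1024 1024 22400 T12 ⟨0, 512, 0, 512, 10864, 11200⟩ = true := gluem_x hT8 hT11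
/-- subtree -/
def T13 : Tm := (.sx 256 .sk (.sy 768 (.lf 0) .sk))
theorem hT13 : chkTm ks 6 1024 1024 22400 T13 ⟨0, 512, 512, 1024, 10864, 11200⟩ = true := by decide +kernel
/-- subtree -/
def T14 : Tm := .sy 512 T12 T13
theorem hT14 : chkTm ks 6 1024 1024 22400 T14 ⟨0, 512, 0, 1024, 10864, 11200⟩ = true := gluem_y hT12 hT13
/-- subtree -/
def T15 : Tm := (.sx 544 (.lf 5) (.sy 32 (.sx 560 (.sy 16 (.st 11032 (.lf 0) (.sx 552 (.lf 5) (.sy 8 (.st 11116 (.lf 0) (.sx 556 (.lf 5) (.lf 0))) (.lf 0)))) (.lf 0)) (.lf 0)) (.lf 0)))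
theorem hT15 : chkTm ks 6 1024 1024 22400 T15 ⟨512, 576, 0, 64, 10864, 11200⟩ = true := by decide +kernel
/-- subtree -/
def T16 : Tm := (.lf 0)
theorem hT16 : chkTm ks 6 1024 1024 22400 T16 ⟨512, 576, 64, 128, 10864, 11200⟩ = true := by decide +kernel
/-- subtree -/
def T17 : Tm := .sy 64 T15 T16
theorem hT17 : chkTm ks 6 1024 1024 22400 T17 ⟨512, 576, 0, 128, 10864, 11200⟩ = true := gluem_y hT15 hT16
/-- subtree -/
def T18 : Tm := (.lf 0)
theorem hT18 : chkTm ks 6 1024 1024 22400 T18 ⟨576, 640, 0, 128, 10864, 11200⟩ = true := by decide +kernel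
/-- subtree -/
def T19 : Tm := .sx 576 T17 T18
theorem hT19 : chkTm ks 6 1024 1024 22400 T19 ⟨512, 640, 0, 128, 10864, 11200⟩ = true := gluem_x hT17 hT18
/-- subtree -/
def T20 : Tm := (.lf 0)
theorem hT20 : chkTm ks 6 1024 1024 22400 T20 ⟨512, 640, 128, 256, 10864, 11200⟩ = true := by decide +kernel
/-- subtree -/
def T21 : Tm := .sy 128 T19 T20
theorem hT21 : chkTm ks 6 1024 1024 22400 T21 ⟨512, 640, 0, 256, 10864, 11200⟩ = true := gluem_y hT19 hT20
/-- subtree -/
def T22 : Tm := (.lf 0)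
theorem hT22 : chkTm ks 6 1024 1024 22400 T22 ⟨640, 768, 0, 256, 10864, 11200⟩ = true := by decide +kernel
/-- subtree -/
def T23 : Tm := .sx 640 T21 T22
theorem hT23 : chkTm ks 6 1024 1024 22400 T23 ⟨512, 768, 0, 256, 10864, 11200⟩ = true := gluem_x hT21 hT22
/-- subtree -/
def T24 : Tm := (.lf 0)
theorem hT24 : chkTm ks 6 1024 1024 22400 T24 ⟨512, 768, 256, 512, 10864, 11200⟩ = true := by decide +kernel
/-- subtree -/
def T25 : Tm := .sy 256 T23 T24
theorem hT25 : chkTm ks 6 1024 1024 22400 T25 ⟨512, 768, 0, 512, 10864, 11200⟩ = true := gluem_y hT23 hT24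
/-- subtree -/
def T26 : Tm := (.sy 256 (.lf 0) (.sx 896 (.lf 0) (.sy 384 (.lf 0) (.lf 0))))
theorem hT26 : chkTm ks 6 1024 1024 22400 T26 ⟨768, 1024, 0, 512, 10864, 11200⟩ = true := by decide +kernel
/-- subtree -/
def T27 : Tm := .sx 768 T25 T26
theorem hT27 : chkTm ks 6 1024 1024 22400 T27 ⟨512, 1024, 0, 512, 10864, 11200⟩ = true := gluem_x hT25 hT26
/-- subtree -/
def T28 : Tm := (.lf 0)
theorem hT28 : chkTm ks 6 1024 1024 22400 T28 ⟨512, 1024, 512, 1024, 10864, 11200⟩ = true := by decide +kernel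
/-- subtree -/
def T29 : Tm := .sy 512 T27 T28
theorem hT29 : chkTm ks 6 1024 1024 22400 T29 ⟨512, 1024, 0, 1024, 10864, 11200⟩ = true := gluem_y hT27 hT28
/-- subtree -/
def T30 : Tm := .sx 512 T14 T29
theorem hT30 : chkTm ks 6 1024 1024 22400 T30 ⟨0, 1024, 0, 1024, 10864, 11200⟩ = true := gluem_x hT14 hT29

theorem cover (x y t : ℝ) (hyx : y ≤ x) (hx0 : 0 ≤ x) (hx1 : x ≤ 1)
    (hy0 : 0 ≤ y) (hy1 : y ≤ 1)
    (ht0 : (97 / 200) ≤ t) (ht1 : t ≤ (1 / 2)) :
    ∃ k < 6, 0 ≤ val (ks k).2 x y t := by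
  refine chkTm_sound ks 6 1024 1024 22400 (by norm_num) (by norm_num) hks T30 ⟨0, 1024, 0, 1024, 10864, 11200⟩ hT30 x y t hyx
    ?_ ?_ ?_ ?_ ?_ ?_ <;> push_cast <;> linarith


theorem good (x y t : ℝ) (h : ∃ k < 6, 0 ≤ val (ks k).2 x y t) : Good x y t (8 / 1000 * (1 / 2 - t)) := by
  obtain ⟨k, hk, h⟩ := h
  interval_cases k
  · have h1 : 0 ≤ val g0C x y t := h
    rw [v_g0C] at h1
    have h2 : 0 ≤ f_g0C x y t := nonneg_of_mul_nonneg_right h1 (by norm_num)
    unfold f_g0C f_eKPC at h2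
    rw [KTx] at h2
    refine (Or.inl) ?_
    unfold NegP EE
    unfold f_eR1 at h2
    linarith
  · have h1 : 0 ≤ val g1C x y t := h
    rw [v_g1C] at h1
    have h2 : 0 ≤ f_g1C x y t := nonneg_of_mul_nonneg_right h1 (by norm_num)
    unfold f_g1C f_eQC f_eKPC at h2
    rw [KTx, D2x, DDx] at h2
    refine (Or.inr ∘ Or.inl) ?_
    unfold P20
    unfold f_eR3 f_eR1 at h2
    have e1 : ((1 - x) * (1 - y)) ^ 3 = (1 - x) ^ 3 * (1 - y) ^ 3 := by ring
    rw [e1] at h2
    linarith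
  · have h1 : 0 ≤ val g2C x y t := h
    rw [v_g2C] at h1
    have h2 : 0 ≤ f_g2C x y t := nonneg_of_mul_nonneg_right h1 (by norm_num)
    unfold f_g2C f_eQC f_eKPC at h2
    rw [KTx, D2x, DDx] at h2
    refine (Or.inr ∘ Or.inr ∘ Or.inl) ?_
    unfold P2P
    unfold f_eR3 f_eR1 at h2
    have e1 : ((1 - x) * (1 - y)) ^ 3 = (1 - x) ^ 3 * (1 - y) ^ 3 := by ring
    rw [e1] at h2
    linarith
  · have h1 : 0 ≤ val g3C x y t := h
    rw [v_g3C] at h1
    have h2 : 0 ≤ f_g3C x y t := nonneg_of_mul_nonneg_right h1 (by norm_num)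
    unfold f_g3C f_eQC f_eKPC at h2
    rw [KTx, D2x, DDx] at h2
    refine (Or.inr ∘ Or.inr ∘ Or.inr ∘ Or.inl) ?_
    unfold P2P
    unfold f_eR3 f_eR1 at h2
    have e1 : ((1 - x) * (1 - y)) ^ 3 = (1 - x) ^ 3 * (1 - y) ^ 3 := by ring
    rw [e1] at h2
    linarith
  · have h1 : 0 ≤ val g4C x y t := h
    rw [v_g4C] at h1
    have h2 : 0 ≤ f_g4C x y t := nonneg_of_mul_nonneg_right h1 (by norm_num)
    unfold f_g4C f_eQC f_eKPC at h2
    rw [KTx, D2x, DDx] at h2
    refine (Or.inr ∘ Or.inr ∘ Or.inr ∘ Or.inr ∘ Or.inl) ?_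
    unfold P2P
    unfold f_eR3 f_eR1 at h2
    have e1 : ((1 - x) * (1 - y)) ^ 3 = (1 - x) ^ 3 * (1 - y) ^ 3 := by ring
    rw [e1] at h2
    linarith
  · have h1 : 0 ≤ val g5C x y t := h
    rw [v_g5C] at h1
    have h2 : 0 ≤ f_g5C x y t := nonneg_of_mul_nonneg_right h1 (by norm_num)
    unfold f_g5C f_eQC f_eKPC at h2
    rw [KTx, D2x, DDx] at h2
    refine (Or.inr ∘ Or.inr ∘ Or.inr ∘ Or.inr ∘ Or.inr) ?_
    unfold P2P
    unfold f_eR3 f_eR1 at h2
    have e1 : ((1 - x) * (1 - y)) ^ 3 = (1 - x) ^ 3 * (1 - y) ^ 3 := by ring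
    rw [e1] at h2
    linarith

/-- All points of the region (both orders of `x, y`). -/
theorem region (x y t : ℝ) (hx0 : 0 ≤ x) (hx1 : x ≤ 1) (hy0 : 0 ≤ y) (hy1 : y ≤ 1)
    (ht0 : (97 / 200) ≤ t) (ht1 : t ≤ (1 / 2)) :
    Good x y t (8 / 1000 * (1 / 2 - t)) := by
  rcases le_total y x with h | h
  · exact good x y t (cover x y t h (by linarith) (by linarith) (by linarith) (by linarith) ht0 ht1)
  · exact Good_symm _ _ _ _
      (good y x t (cover y x t h (by linarith) (by linarith) (by linarith) (by linarith) ht0 ht1))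

end Pool.Agent.Lib.MP_f1379f_gt.FV.CK.Cr
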