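import Pool.Agent.Lib.MP_f1379f_gt.FV.CKU

/-!
# box check, region D
-/

set_option autoImplicit false
set_option linter.unusedVariables false
set_option linter.style.longLine false
set_option maxRecDepth 100000

namespace Pool.Agent.Lib.MP_f1379f_gt.FV.CK.Dr

open Finset Pool.Agent.Lib.MP_f1379f_gt.FV Pool.Agent.Lib.MP_f1379f_gt.FV.BCH Pool.Agent.Lib.MP_f1379f_gt.FV.CK Pool.Agent.Lib.MP_f1379f_gt.FV.CK.U

/-- node -/
def nd441 : Ex := .m nd7 nd16
/-- node -/
def nd442 : Ex := .m nd7 nd441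
/-- node -/
def nd444 : Ex := .m nd441 nd441
/-- node -/
def nd445 : Ex := .m nd442 nd444
/-- node -/
def nd449 : Ex := .m nd445 nd445
/-- node -/
def nd450 : Ex := .m eB nd449
/-- node -/
def nd455 : Ex := .m nd16 nd441
/-- node -/
def nd456 : Ex := .m nd16 nd16
/-- node -/
def nd457 : Ex := .m nd16 nd456
/-- node -/
def nd458 : Ex := .m nd455 nd457
/-- node -/
def nd459 : Ex := .m nd441 nd456
/-- node -/
def nd468 : Ex := .f (-286910395) nd7 65917 nd429
/-- node -/
def nd469 : Ex := .m nd468 eD2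
/-- node -/
def nd470 : Ex := .m nd469 nd9
/-- node -/
def nd471 : Ex := .f 10 nd470 167970983 eDd
/-- node -/
def nd472 : Ex := .m eDd eD2
/-- node -/
def nd473 : Ex := .m nd471 nd16
/-- node -/
def nd474 : Ex := .f 25 nd473 (-3304422) nd472
/-- node -/
def nd475 : Ex := .m nd455 nd444
/-- node -/
def nd476 : Ex := .m nd444 nd459
/-- node -/
def nd477 : Ex := .m nd475 nd476
/-- node -/
def nd478 : Ex := .m nd474 nd477
/-- node -/
def nd480 : Ex := .m nd457 nd459
/-- node -/
def nd481 : Ex := .m nd458 nd480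
/-- node -/
def nd482 : Ex := .m eR1 nd481
/-- node -/
def eKPD : Ex := .f 1 eS11 26604703125000000000000000000000000000000000000000 nd482
/-- node -/
def nd484 : Ex := .f 1 eKPD 2956078125000000000000000000000000000000000000 nd450
/-- node -/
def g0D : Ex := .f (-1) nd484 0 nd484
/-- node -/
def nd486 : Ex := .m eR3 eKPD
/-- node -/
def eQD : Ex := .m nd486 eD2
/-- node -/
def nd488 : Ex := .f (-70004811) nd7 21275 nd429
/-- node -/
def nd489 : Ex := .m nd488 eD2
/-- node -/
def nd490 : Ex := .m nd489 nd9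
/-- node -/
def nd491 : Ex := .f 125 nd490 501583833 eDd
/-- node -/
def nd492 : Ex := .m nd491 nd16
/-- node -/
def nd493 : Ex := .f 75 nd492 (-32415616) nd472
/-- node -/
def nd494 : Ex := .m nd493 nd477
/-- node -/
def g2D : Ex := .f 3547293750000000000000000000000000000000 nd494 (-1) eQD
/-- node -/
def nd496 : Ex := .f (-4362032315) nd7 1227089 nd429
/-- node -/
def nd497 : Ex := .m nd496 eD2
/-- node -/
def nd498 : Ex := .m nd497 nd9
/-- node -/
def nd499 : Ex := .f 5 nd498 1259406246 eDd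
/-- node -/
def nd500 : Ex := .m nd499 nd16
/-- node -/
def nd501 : Ex := .f 25 nd500 (-26704158) nd472
/-- node -/
def nd502 : Ex := .m nd501 nd477
/-- node -/
def g3D : Ex := .f 3547293750000000000000000000000000000000 nd502 (-1) eQD
/-- node -/
def g4D : Ex := .f 17736468750000000000000000000000000000000 nd478 (-1) eQD
/-- node -/
def nd505 : Ex := .f (-704953775) nd7 116308 nd429
/-- node -/
def nd506 : Ex := .m nd505 eD2
/-- node -/
def nd507 : Ex := .m nd506 nd9
/-- node -/
def nd508 : Ex := .f 10 nd507 419564083 eDd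
/-- node -/
def nd509 : Ex := .m nd508 nd16
/-- node -/
def nd510 : Ex := .f 25 nd509 (-7374312) nd472
/-- node -/
def nd511 : Ex := .m nd510 nd477
/-- node -/
def g5D : Ex := .f 3547293750000000000000000000000000000000 nd511 (-1) eQD

/-- real function of eKPD -/
noncomputable def f_eKPD (x y t : ℝ) : ℝ := f_eS11 x y t + (f_eR1 x y t * (3 / 25000))

theorem v_eKPD (x y t : ℝ) : val eKPD x y t = 221705859375000000000000000000000000000000000000000000 * (f_eKPD x y t) := by
  simp only [nd5, nd6, nd7, nd9, nd15, nd16, nd441, nd455, nd456, nd457, nd458, nd459, nd480, nd481, nd482, eKPD, v_eS11, v_eR1, val_f, val_h, val_m]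
  unfold f_eKPD
  push_cast
  ring

/-- real function of g0D -/
noncomputable def f_g0D (x y t : ℝ) : ℝ := -(f_eKPD x y t + ((1 / 18750000) * base (t)))

theorem v_g0D (x y t : ℝ) : val g0D x y t = 221705859375000000000000000000000000000000000000000000 * (f_g0D x y t) := by
  simp only [nd5, nd6, nd7, nd9, nd15, nd16, nd441, nd442, nd444, nd445, nd449, nd450, nd484, g0D, v_eB, v_eKPD, val_f, val_h, val_m]
  unfold f_g0D
  push_cast
  ring

/-- real function of eQD -/
noncomputable def f_eQD (x y t : ℝ) : ℝ := (f_eR3 x y t * f_eKPD x y t) * f_eD2 x y t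

theorem v_eQD (x y t : ℝ) : val eQD x y t = 5542646484375000000000000000000000000000000000000000000 * (f_eQD x y t) := by
  simp only [nd486, eQD, v_eD2, v_eR3, v_eKPD, val_m]
  unfold f_eQD
  push_cast
  ring

/-- real function of g2D -/
noncomputable def f_g2D (x y t : ℝ) : ℝ := ((((((-210014433) / 20000000000) + ((2553 / 160000000) * ((1 - ((2 / 5) * x)) + (1 - ((2 / 5) * y))))) * f_eD2 x y t) + ((1504751499 / 100000000000) * f_eDd x y t)) + (((-253247) / 781250000) * (f_eDd x y t * f_eD2 x y t))) - f_eQD x y t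

theorem v_g2D (x y t : ℝ) : val g2D x y t = 5542646484375000000000000000000000000000000000000000000 * (f_g2D x y t) := by
  simp only [nd0, nd1, nd5, nd6, nd7, nd9, nd12, nd13, nd15, nd16, nd427, nd428, nd429, nd441, nd444, nd455, nd456, nd459, nd472, nd475, nd476, nd477, nd488, nd489, nd490, nd491, nd492, nd493, nd494, g2D, v_eD2, v_eDd, v_eQD, val_f, val_h, val_m, val_vx, val_vy]
  unfold f_g2D
  push_cast
  ring

/-- real function of g3D -/
noncomputable def f_g3D (x y t : ℝ) : ℝ := ((((((-872406463) / 100000000000) + ((1227089 / 100000000000) * ((1 - ((2 / 5) * x)) + (1 - ((2 / 5) * y))))) * f_eD2 x y t) + ((629703123 / 50000000000) * f_eDd x y t)) + (((-13352079) / 50000000000) * (f_eDd x y t * f_eD2 x y t))) - f_eQD x y t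

theorem v_g3D (x y t : ℝ) : val g3D x y t = 5542646484375000000000000000000000000000000000000000000 * (f_g3D x y t) := by
  simp only [nd0, nd1, nd5, nd6, nd7, nd9, nd12, nd13, nd15, nd16, nd427, nd428, nd429, nd441, nd444, nd455, nd456, nd459, nd472, nd475, nd476, nd477, nd496, nd497, nd498, nd499, nd500, nd501, nd502, g3D, v_eD2, v_eDd, v_eQD, val_f, val_h, val_m, val_vx, val_vy]
  unfold f_g3D
  push_cast
  ring

/-- real function of g4D -/
noncomputable def f_g4D (x y t : ℝ) : ℝ := ((((((-57382079) / 10000000000) + ((65917 / 10000000000) * ((1 - ((2 / 5) * x)) + (1 - ((2 / 5) * y))))) * f_eD2 x y t) + ((167970983 / 20000000000) * f_eDd x y t)) + (((-1652211) / 10000000000) * (f_eDd x y t * f_eD2 x y t))) - f_eQD x y t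

theorem v_g4D (x y t : ℝ) : val g4D x y t = 5542646484375000000000000000000000000000000000000000000 * (f_g4D x y t) := by
  simp only [nd0, nd1, nd5, nd6, nd7, nd9, nd12, nd13, nd15, nd16, nd427, nd428, nd429, nd441, nd444, nd455, nd456, nd459, nd468, nd469, nd470, nd471, nd472, nd473, nd474, nd475, nd476, nd477, nd478, g4D, v_eD2, v_eDd, v_eQD, val_f, val_h, val_m, val_vx, val_vy]
  unfold f_g4D
  push_cast
  ring

/-- real function of g5D -/
noncomputable def f_g5D (x y t : ℝ) : ℝ := ((((((-28198151) / 10000000000) + ((29077 / 12500000000) * ((1 - ((2 / 5) * x)) + (1 - ((2 / 5) * y))))) * f_eD2 x y t) + ((419564083 / 100000000000) * f_eDd x y t)) + (((-921789) / 12500000000) * (f_eDd x y t * f_eD2 x y t))) - f_eQD x y t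

theorem v_g5D (x y t : ℝ) : val g5D x y t = 5542646484375000000000000000000000000000000000000000000 * (f_g5D x y t) := by
  simp only [nd0, nd1, nd5, nd6, nd7, nd9, nd12, nd13, nd15, nd16, nd427, nd428, nd429, nd441, nd444, nd455, nd456, nd459, nd472, nd475, nd476, nd477, nd505, nd506, nd507, nd508, nd509, nd510, nd511, g5D, v_eD2, v_eDd, v_eQD, val_f, val_h, val_m, val_vx, val_vy]
  unfold f_g5D
  push_cast
  ring

/-- parameters -/
def P0D : Par := ⟨558, 14, 14, 11, 64, 64, 22400, 128, 128, 21728⟩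

theorem hP0D : chkPar P0D g0D = true := by decide +kernel

/-- parameters -/
def P2D : Par := ⟨642, 18, 18, 12, 64, 64, 22400, 128, 128, 21728⟩

theorem hP2D : chkPar P2D g2D = true := by decide +kernel

/-- parameters -/
def P3D : Par := ⟨642, 18, 18, 12, 64, 64, 22400, 128, 128, 21728⟩

theorem hP3D : chkPar P3D g3D = true := by decide +kernel

/-- parameters -/
def P4D : Par := ⟨642, 18, 18, 12, 64, 64, 22400, 128, 128, 21728⟩

theorem hP4D : chkPar P4D g4D = true := by decide +kernel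

/-- parameters -/
def P5D : Par := ⟨642, 18, 18, 12, 64, 64, 22400, 128, 128, 21728⟩

theorem hP5D : chkPar P5D g5D = true := by decide +kernel

/-- kinds -/
def ks (k : ℕ) : Par × Ex :=
  match k with
  | 0 => (P0D, g0D)
  | 1 => (P2D, g2D)
  | 2 => (P3D, g3D)
  | 3 => (P4D, g4D)
  | _ => (P5D, g5D)

lemma hks : ∀ k < 5, chkPar (ks k).1 (ks k).2 = true := by
  intro k hk
  interval_cases k
  · exact hP0D
  · exact hP2D
  · exact hP3D
  · exact hP4D
  · exact hP5D

/-- subtree -/
def T0 : Tm := (.sx 32 (.sy 32 (.sx 16 (.sy 16 (.sx 8 (.sy 8 (.lf 1) (.lf 2)) (.lf 3)) (.lf 4)) (.sy 16 (.lf 4) (.lf 0))) (.lf 0)) (.lf 0))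
theorem hT0 : chkTm ks 5 64 64 22400 T0 ⟨0, 64, 0, 64, 10432, 10864⟩ = true := by decide +kernel

theorem cover (x y t : ℝ) (hyx : y ≤ x) (hx0 : 0 ≤ x) (hx1 : x ≤ 1)
    (hy0 : 0 ≤ y) (hy1 : y ≤ 1)
    (ht0 : (163 / 350) ≤ t) (ht1 : t ≤ (97 / 200)) :
    ∃ k < 5, 0 ≤ val (ks k).2 x y t := by
  refine chkTm_sound ks 5 64 64 22400 (by norm_num) (by norm_num) hks T0 ⟨0, 64, 0, 64, 10432, 10864⟩ hT0 x y t hyx
    ?_ ?_ ?_ ?_ ?_ ?_ <;> push_cast <;> linarith


theorem good (x y t : ℝ) (h : ∃ k < 5, 0 ≤ val (ks k).2 x y t) : Good x y t (12 / 100000) := by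
  obtain ⟨k, hk, h⟩ := h
  interval_cases k
  · have h1 : 0 ≤ val g0D x y t := h
    rw [v_g0D] at h1
    have h2 : 0 ≤ f_g0D x y t := nonneg_of_mul_nonneg_right h1 (by norm_num)
    unfold f_g0D f_eKPD at h2
    rw [KTx] at h2
    refine (Or.inl) ?_
    unfold NegP EE
    unfold f_eR1 at h2
    linarith
  · have h1 : 0 ≤ val g2D x y t := h
    rw [v_g2D] at h1
    have h2 : 0 ≤ f_g2D x y t := nonneg_of_mul_nonneg_right h1 (by norm_num)
    unfold f_g2D f_eQD f_eKPD at h2
    rw [KTx, D2x, DDx] at h2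
    refine (Or.inr ∘ Or.inr ∘ Or.inl) ?_
    unfold P2P
    unfold f_eR3 f_eR1 at h2
    have e1 : ((1 - x) * (1 - y)) ^ 3 = (1 - x) ^ 3 * (1 - y) ^ 3 := by ring
    rw [e1] at h2
    linarith
  · have h1 : 0 ≤ val g3D x y t := h
    rw [v_g3D] at h1
    have h2 : 0 ≤ f_g3D x y t := nonneg_of_mul_nonneg_right h1 (by norm_num)
    unfold f_g3D f_eQD f_eKPD at h2
    rw [KTx, D2x, DDx] at h2
    refine (Or.inr ∘ Or.inr ∘ Or.inr ∘ Or.inl) ?_
    unfold P2P
    unfold f_eR3 f_eR1 at h2
    have e1 : ((1 - x) * (1 - y)) ^ 3 = (1 - x) ^ 3 * (1 - y) ^ 3 := by ring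
    rw [e1] at h2
    linarith
  · have h1 : 0 ≤ val g4D x y t := h
    rw [v_g4D] at h1
    have h2 : 0 ≤ f_g4D x y t := nonneg_of_mul_nonneg_right h1 (by norm_num)
    unfold f_g4D f_eQD f_eKPD at h2
    rw [KTx, D2x, DDx] at h2
    refine (Or.inr ∘ Or.inr ∘ Or.inr ∘ Or.inr ∘ Or.inl) ?_
    unfold P2P
    unfold f_eR3 f_eR1 at h2
    have e1 : ((1 - x) * (1 - y)) ^ 3 = (1 - x) ^ 3 * (1 - y) ^ 3 := by ring
    rw [e1] at h2
    linarith
  · have h1 : 0 ≤ val g5D x y t := h
    rw [v_g5D] at h1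
    have h2 : 0 ≤ f_g5D x y t := nonneg_of_mul_nonneg_right h1 (by norm_num)
    unfold f_g5D f_eQD f_eKPD at h2
    rw [KTx, D2x, DDx] at h2
    refine (Or.inr ∘ Or.inr ∘ Or.inr ∘ Or.inr ∘ Or.inr) ?_
    unfold P2P
    unfold f_eR3 f_eR1 at h2
    have e1 : ((1 - x) * (1 - y)) ^ 3 = (1 - x) ^ 3 * (1 - y) ^ 3 := by ring
    rw [e1] at h2
    linarith

/-- All points of the region (both orders of `x, y`). -/
theorem region (x y t : ℝ) (hx0 : 0 ≤ x) (hx1 : x ≤ 1) (hy0 : 0 ≤ y) (hy1 : y ≤ 1)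
    (ht0 : (163 / 350) ≤ t) (ht1 : t ≤ (97 / 200)) :
    Good x y t (12 / 100000) := by
  rcases le_total y x with h | h
  · exact good x y t (cover x y t h (by linarith) (by linarith) (by linarith) (by linarith) ht0 ht1)
  · exact Good_symm _ _ _ _
      (good y x t (cover y x t h (by linarith) (by linarith) (by linarith) (by linarith) ht0 ht1))

end Pool.Agent.Lib.MP_f1379f_gt.FV.CK.Dr
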