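import Pool.Agent.Lib.MP_f1379f_gt.FV.CKU

/-!
# box check, region E
-/

set_option autoImplicit false
set_option linter.unusedVariables false
set_option linter.style.longLine false
set_option maxRecDepth 100000

namespace Pool.Agent.Lib.MP_f1379f_gt.FV.CK.Er

open Finset Pool.Agent.Lib.MP_f1379f_gt.FV Pool.Agent.Lib.MP_f1379f_gt.FV.BCH Pool.Agent.Lib.MP_f1379f_gt.FV.CK Pool.Agent.Lib.MP_f1379f_gt.FV.CK.U

/-- node -/
def nd441 : Ex := .m nd7 nd16
/-- node -/
def nd442 : Ex := .m nd7 nd441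
/-- node -/
def nd444 : Ex := .m nd441 nd441
/-- node -/
def nd445 : Ex := .m nd442 nd444
/-- node -/
def nd449 : Ex := .m nd445 nd445
/-- node -/
def nd450 : Ex := .m eB nd449
/-- node -/
def nd453 : Ex := .f 1 nd9 (-2) nd2
/-- node -/
def nd454 : Ex := .m eR1 nd453
/-- node -/
def nd455 : Ex := .m nd16 nd441
/-- node -/
def nd456 : Ex := .m nd16 nd16
/-- node -/
def nd457 : Ex := .m nd16 nd456
/-- node -/
def nd458 : Ex := .m nd455 nd457
/-- node -/
def nd459 : Ex := .m nd441 nd456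
/-- node -/
def nd460 : Ex := .m nd455 nd459
/-- node -/
def nd461 : Ex := .m nd458 nd460
/-- node -/
def nd462 : Ex := .m nd454 nd461
/-- node -/
def eKPE : Ex := .f 1 eS11 387985253906250000000000000000000000000000000000000 nd462
/-- node -/
def nd464 : Ex := .f 1 eKPE 2956078125000000000000000000000000000000000000 nd450
/-- node -/
def g0E : Ex := .f (-1) nd464 0 nd464
/-- node -/
def nd466 : Ex := .m eR3 eKPE
/-- node -/
def eQE : Ex := .m nd466 eD2
/-- node -/
def nd468 : Ex := .f (-286910395) nd7 65917 nd429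
/-- node -/
def nd469 : Ex := .m nd468 eD2
/-- node -/
def nd470 : Ex := .m nd469 nd9
/-- node -/
def nd471 : Ex := .f 10 nd470 167970983 eDd
/-- node -/
def nd472 : Ex := .m eDd eD2
/-- node -/
def nd473 : Ex := .m nd471 nd16
/-- node -/
def nd474 : Ex := .f 25 nd473 (-3304422) nd472
/-- node -/
def nd475 : Ex := .m nd455 nd444
/-- node -/
def nd476 : Ex := .m nd444 nd459
/-- node -/
def nd477 : Ex := .m nd475 nd476
/-- node -/
def nd478 : Ex := .m nd474 nd477
/-- node -/
def g4E : Ex := .f 17736468750000000000000000000000000000000 nd478 (-1) eQE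

/-- real function of eKPE -/
noncomputable def f_eKPE (x y t : ℝ) : ℝ := f_eS11 x y t + (f_eR1 x y t * ((7 / 2000) * ((1 / 2) - t)))

theorem v_eKPE (x y t : ℝ) : val eKPE x y t = 221705859375000000000000000000000000000000000000000000 * (f_eKPE x y t) := by
  simp only [nd2, nd5, nd6, nd7, nd9, nd15, nd16, nd441, nd453, nd454, nd455, nd456, nd457, nd458, nd459, nd460, nd461, nd462, eKPE, v_eS11, v_eR1, val_f, val_h, val_m, val_vt]
  unfold f_eKPE
  push_cast
  ring

/-- real function of g0E -/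
noncomputable def f_g0E (x y t : ℝ) : ℝ := -(f_eKPE x y t + ((1 / 18750000) * base (t)))

theorem v_g0E (x y t : ℝ) : val g0E x y t = 221705859375000000000000000000000000000000000000000000 * (f_g0E x y t) := by
  simp only [nd5, nd6, nd7, nd9, nd15, nd16, nd441, nd442, nd444, nd445, nd449, nd450, nd464, g0E, v_eB, v_eKPE, val_f, val_h, val_m]
  unfold f_g0E
  push_cast
  ring

/-- real function of eQE -/
noncomputable def f_eQE (x y t : ℝ) : ℝ := (f_eR3 x y t * f_eKPE x y t) * f_eD2 x y t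

theorem v_eQE (x y t : ℝ) : val eQE x y t = 5542646484375000000000000000000000000000000000000000000 * (f_eQE x y t) := by
  simp only [nd466, eQE, v_eD2, v_eR3, v_eKPE, val_m]
  unfold f_eQE
  push_cast
  ring

/-- real function of g4E -/
noncomputable def f_g4E (x y t : ℝ) : ℝ := ((((((-57382079) / 10000000000) + ((65917 / 10000000000) * ((1 - ((2 / 5) * x)) + (1 - ((2 / 5) * y))))) * f_eD2 x y t) + ((167970983 / 20000000000) * f_eDd x y t)) + (((-1652211) / 10000000000) * (f_eDd x y t * f_eD2 x y t))) - f_eQE x y t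

theorem v_g4E (x y t : ℝ) : val g4E x y t = 5542646484375000000000000000000000000000000000000000000 * (f_g4E x y t) := by
  simp only [nd0, nd1, nd5, nd6, nd7, nd9, nd12, nd13, nd15, nd16, nd427, nd428, nd429, nd441, nd444, nd455, nd456, nd459, nd468, nd469, nd470, nd471, nd472, nd473, nd474, nd475, nd476, nd477, nd478, g4E, v_eD2, v_eDd, v_eQE, val_f, val_h, val_m, val_vx, val_vy]
  unfold f_g4E
  push_cast
  ring

/-- parameters -/
def P0E : Par := ⟨558, 14, 14, 11, 64, 64, 22400, 128, 128, 20864⟩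

theorem hP0E : chkPar P0E g0E = true := by decide +kernel

/-- parameters -/
def P4E : Par := ⟨642, 18, 18, 12, 64, 64, 22400, 128, 128, 20864⟩

theorem hP4E : chkPar P4E g4E = true := by decide +kernel

/-- kinds -/
def ks (k : ℕ) : Par × Ex :=
  match k with
  | 0 => (P0E, g0E)
  | _ => (P4E, g4E)

lemma hks : ∀ k < 2, chkPar (ks k).1 (ks k).2 = true := by
  intro k hk
  interval_cases k
  · exact hP0E
  · exact hP4E

/-- subtree -/
def T0 : Tm := (.sx 32 (.sy 32 (.sx 16 (.sy 16 (.lf 1) (.lf 0)) (.lf 0)) (.lf 0)) (.lf 0))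
theorem hT0 : chkTm ks 2 64 64 22400 T0 ⟨0, 64, 0, 64, 8960, 10432⟩ = true := by decide +kernel

theorem cover (x y t : ℝ) (hyx : y ≤ x) (hx0 : 0 ≤ x) (hx1 : x ≤ 1)
    (hy0 : 0 ≤ y) (hy1 : y ≤ 1)
    (ht0 : (2 / 5) ≤ t) (ht1 : t ≤ (163 / 350)) :
    ∃ k < 2, 0 ≤ val (ks k).2 x y t := by
  refine chkTm_sound ks 2 64 64 22400 (by norm_num) (by norm_num) hks T0 ⟨0, 64, 0, 64, 8960, 10432⟩ hT0 x y t hyx
    ?_ ?_ ?_ ?_ ?_ ?_ <;> push_cast <;> linarith


theorem good (x y t : ℝ) (h : ∃ k < 2, 0 ≤ val (ks k).2 x y t) : Good x y t (7 / 2000 * (1 / 2 - t)) := by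
  obtain ⟨k, hk, h⟩ := h
  interval_cases k
  · have h1 : 0 ≤ val g0E x y t := h
    rw [v_g0E] at h1
    have h2 : 0 ≤ f_g0E x y t := nonneg_of_mul_nonneg_right h1 (by norm_num)
    unfold f_g0E f_eKPE at h2
    rw [KTx] at h2
    refine (Or.inl) ?_
    unfold NegP EE
    unfold f_eR1 at h2
    linarith
  · have h1 : 0 ≤ val g4E x y t := h
    rw [v_g4E] at h1
    have h2 : 0 ≤ f_g4E x y t := nonneg_of_mul_nonneg_right h1 (by norm_num)
    unfold f_g4E f_eQE f_eKPE at h2
    rw [KTx, D2x, DDx] at h2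
    refine (Or.inr ∘ Or.inr ∘ Or.inr ∘ Or.inr ∘ Or.inl) ?_
    unfold P2P
    unfold f_eR3 f_eR1 at h2
    have e1 : ((1 - x) * (1 - y)) ^ 3 = (1 - x) ^ 3 * (1 - y) ^ 3 := by ring
    rw [e1] at h2
    linarith

/-- All points of the region (both orders of `x, y`). -/
theorem region (x y t : ℝ) (hx0 : 0 ≤ x) (hx1 : x ≤ 1) (hy0 : 0 ≤ y) (hy1 : y ≤ 1)
    (ht0 : (2 / 5) ≤ t) (ht1 : t ≤ (163 / 350)) :
    Good x y t (7 / 2000 * (1 / 2 - t)) := by
  rcases le_total y x with h | h
  · exact good x y t (cover x y t h (by linarith) (by linarith) (by linarith) (by linarith) ht0 ht1)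
  · exact Good_symm _ _ _ _
      (good y x t (cover y x t h (by linarith) (by linarith) (by linarith) (by linarith) ht0 ht1))

end Pool.Agent.Lib.MP_f1379f_gt.FV.CK.Er
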