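import Pool.Agent.Lib.MP_f1379f_gt.FV.BCM
import Pool.Agent.Lib.MP_f1379f_gt.FV.CK0

/-!
# box check, lower chart
-/

set_option autoImplicit false
set_option linter.unusedVariables false
set_option linter.style.longLine false
set_option maxRecDepth 100000

namespace Pool.Agent.Lib.MP_f1379f_gt.FV.CK.Lr

open Finset Pool.Agent.Lib.MP_f1379f_gt.FV Pool.Agent.Lib.MP_f1379f_gt.FV.BCH Pool.Agent.Lib.MP_f1379f_gt.FV.CK

/-- node -/
def nd0 : Ex := .v .x
/-- node -/
def nd1 : Ex := .v .y
/-- node -/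
def nd2 : Ex := .v .t
/-- node -/
def nd3 : Ex := .h .y
/-- node -/
def nd4 : Ex := .m nd0 nd3
/-- node -/
def nd5 : Ex := .h .x
/-- node -/
def nd6 : Ex := .m nd1 nd5
/-- node -/
def nd7 : Ex := .f 1 nd4 1 nd6
/-- node -/
def nd9 : Ex := .m nd5 nd3
/-- node -/
def nd10 : Ex := .f 5 nd9 (-2) nd7
/-- node -/
def nd11 : Ex := .m nd0 nd1
/-- node -/
def nd12 : Ex := .f 5 nd10 (-4) nd11
/-- node -/
def nd13 : Ex := .m nd2 nd12
/-- node -/
def nd14 : Ex := .h .t
/-- node -/
def nd15 : Ex := .m nd3 nd14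
/-- node -/
def nd16 : Ex := .m nd5 nd15
/-- node -/
def eT : Ex := .f (-25) nd16 (-1) nd13
/-- node -/
def nd18 : Ex := .m nd11 nd14
/-- node -/
def eP : Ex := .f 1 eT (-4) nd18
/-- node -/
def nd20 : Ex := .f 5 nd5 (-2) nd0
/-- node -/
def nd21 : Ex := .f 5 nd3 (-2) nd1
/-- node -/
def nd22 : Ex := .m nd20 nd21
/-- node -/
def nd23 : Ex := .m nd14 nd16
/-- node -/
def eM : Ex := .m nd22 nd23
/-- node -/
def nd25 : Ex := .m eP eP
/-- node -/
def eW2 : Ex := .f 2 nd25 (-25) eM
/-- node -/
def nd27 : Ex := .m eP eW2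
/-- node -/
def nd28 : Ex := .m eM eP
/-- node -/
def eW3 : Ex := .f 1 nd27 (-35) nd28
/-- node -/
def nd30 : Ex := .m eP eW3
/-- node -/
def nd31 : Ex := .m eM eW2
/-- node -/
def eW4 : Ex := .f 1 nd30 (-20) nd31
/-- node -/
def nd33 : Ex := .m eP eW4
/-- node -/
def nd34 : Ex := .m eM eW3
/-- node -/
def eW5 : Ex := .f 7 nd33 (-150) nd34
/-- node -/
def nd36 : Ex := .m eP eW5
/-- node -/
def nd37 : Ex := .m eM eW4
/-- node -/
def eW6 : Ex := .f 4 nd36 (-625) nd37
/-- node -/
def nd39 : Ex := .m eP eW6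
/-- node -/
def nd40 : Ex := .m eM eW5
/-- node -/
def eW7 : Ex := .f 3 nd39 (-275) nd40
/-- node -/
def nd42 : Ex := .m eP eW7
/-- node -/
def nd43 : Ex := .m eM eW6
/-- node -/
def eW8 : Ex := .f 1 nd42 (-70) nd43
/-- node -/
def nd45 : Ex := .m eP eW8
/-- node -/
def nd46 : Ex := .m eM eW7
/-- node -/
def eW9 : Ex := .f 11 nd45 (-260) nd46
/-- node -/
def nd48 : Ex := .m eP eW9
/-- node -/
def nd49 : Ex := .m eM eW8
/-- node -/
def eW10 : Ex := .f 2 nd48 (-525) nd49
/-- node -/
def nd51 : Ex := .m eP eW10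
/-- node -/
def nd52 : Ex := .m eM eW9
/-- node -/
def eW11 : Ex := .f 13 nd51 (-625) nd52
/-- node -/
def nd54 : Ex := .f 6250000 nd3 12547293 nd1
/-- node -/
def nd55 : Ex := .m nd1 nd1
/-- node -/
def nd56 : Ex := .m nd54 nd3
/-- node -/
def nd57 : Ex := .f 8 nd56 (-197541929) nd55
/-- node -/
def nd58 : Ex := .m nd55 nd1
/-- node -/
def nd59 : Ex := .m nd57 nd3
/-- node -/
def nd60 : Ex := .f 2 nd59 103946643 nd58
/-- node -/
def nd61 : Ex := .f 3338442564393750000 nd3 7579807432434159779 nd1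
/-- node -/
def nd62 : Ex := .m nd61 nd3
/-- node -/
def nd63 : Ex := .f 8 nd62 (-157800037523698758987) nd55
/-- node -/
def nd64 : Ex := .m nd63 nd3
/-- node -/
def nd65 : Ex := .f 2 nd64 166666644136610485329 nd58
/-- node -/
def nd66 : Ex := .m nd0 nd65
/-- node -/
def nd67 : Ex := .m nd60 nd5
/-- node -/
def nd68 : Ex := .f 266068750000 nd67 1 nd66
/-- node -/
def nd69 : Ex := .f (-52559734121618750000) nd3 (-157800037523698758987) nd1
/-- node -/
def nd70 : Ex := .m nd69 nd3
/-- node -/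
def nd71 : Ex := .f 100000 nd70 60058170486280708120282183 nd55
/-- node -/
def nd72 : Ex := .m nd71 nd3
/-- node -/
def nd73 : Ex := .f 2 nd72 (-94593064845739555800374915) nd58
/-- node -/
def nd74 : Ex := .m nd0 nd0
/-- node -/
def nd75 : Ex := .m nd74 nd73
/-- node -/
def nd76 : Ex := .m nd68 nd5
/-- node -/
def nd77 : Ex := .f 100000 nd76 1 nd75
/-- node -/
def nd78 : Ex := .f 9218984456568750000 nd3 55555548045536828443 nd1
/-- node -/
def nd79 : Ex := .m nd78 nd3
/-- node -/
def nd80 : Ex := .f 60000 nd79 (-18918612969147911160074983) nd55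
/-- node -/
def nd81 : Ex := .m nd80 nd3
/-- node -/
def nd82 : Ex := .f 10 nd81 183998753515582533453864651 nd58
/-- node -/
def nd83 : Ex := .m nd74 nd0
/-- node -/
def nd84 : Ex := .m nd83 nd82
/-- node -/
def nd85 : Ex := .m nd77 nd5
/-- node -/
def eq0 : Ex := .f 2 nd85 1 nd84
/-- node -/
def nd87 : Ex := .m eq0 nd16
/-- node -/
def nd88 : Ex := .f 100000000 nd3 305876901 nd1
/-- node -/
def nd89 : Ex := .m nd88 nd3
/-- node -/
def nd90 : Ex := .f 1 nd89 (-321174116) nd55
/-- node -/
def nd91 : Ex := .m nd90 nd3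
/-- node -/
def nd92 : Ex := .f 1 nd91 36888103 nd58
/-- node -/
def nd93 : Ex := .f 10922246521703414687900000000 nd3 38312343815615017258527341979 nd1
/-- node -/
def nd94 : Ex := .m nd93 nd3
/-- node -/
def nd95 : Ex := .f 1 nd94 (-62627948613554059940736183964) nd55
/-- node -/
def nd96 : Ex := .m nd95 nd3
/-- node -/
def nd97 : Ex := .f 1 nd96 23045641775464660181383280537 nd58
/-- node -/
def nd98 : Ex := .m nd0 nd97
/-- node -/
def nd99 : Ex := .m nd92 nd5
/-- node -/
def nd100 : Ex := .f 107123942533700000000 nd99 3 nd98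
/-- node -/
def nd101 : Ex := .f (-8601359386423974427300000000) nd3 (-46970961460165544955552137973) nd1
/-- node -/
def nd102 : Ex := .m nd101 nd3
/-- node -/
def nd103 : Ex := .f 125 nd102 24752617544129838486464088409108 nd55
/-- node -/
def nd104 : Ex := .m nd103 nd3
/-- node -/
def nd105 : Ex := .f 1 nd104 (-13594943125380826003785541476539) nd58
/-- node -/
def nd106 : Ex := .m nd74 nd105
/-- node -/
def nd107 : Ex := .m nd100 nd5
/-- node -/
def nd108 : Ex := .f 125 nd107 4 nd106
/-- node -/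
def nd109 : Ex := .f 3951599025949206571100000000 nd3 69136925326393980544149841611 nd1
/-- node -/
def nd110 : Ex := .m nd109 nd3
/-- node -/
def nd111 : Ex := .f 125 nd110 (-54379772501523304015142165906156) nd55
/-- node -/
def nd112 : Ex := .m nd111 nd3
/-- node -/
def nd113 : Ex := .f 1 nd112 56385860271202494829570259020165 nd58
/-- node -/
def nd114 : Ex := .m nd83 nd113
/-- node -/
def nd115 : Ex := .m nd108 nd5
/-- node -/
def eq1 : Ex := .f 1 nd115 1 nd114
/-- node -/
def nd117 : Ex := .m eq1 eP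
/-- node -/
def eS1 : Ex := .f 1843200 nd87 1 nd117
/-- node -/
def nd119 : Ex := .m eS1 nd16
/-- node -/
def nd120 : Ex := .f 100000000 nd3 387908683 nd1
/-- node -/
def nd121 : Ex := .m nd120 nd3
/-- node -/
def nd122 : Ex := .f 1 nd121 (-334394418) nd55
/-- node -/
def nd123 : Ex := .m nd122 nd3
/-- node -/
def nd124 : Ex := .f 1 nd123 59543840 nd58
/-- node -/
def nd125 : Ex := .f 122101790081362786079300000000 nd3 492643005764053091932319965619 nd1
/-- node -/
def nd126 : Ex := .m nd125 nd3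
/-- node -/
def nd127 : Ex := .f 1 nd126 (-353042131486528596677429853474) nd55
/-- node -/
def nd128 : Ex := .m nd127 nd3
/-- node -/
def nd129 : Ex := .f 1 nd128 82514145666816370695195865120 nd58
/-- node -/
def nd130 : Ex := .m nd0 nd129
/-- node -/
def nd131 : Ex := .m nd124 nd5
/-- node -/
def nd132 : Ex := .f 314769417217100000000 nd131 1 nd130
/-- node -/
def nd133 : Ex := .f (-17542856012418555691300000000) nd3 (-58840355247754766112904975579) nd1
/-- node -/
def nd134 : Ex := .m nd133 nd3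
/-- node -/
def nd135 : Ex := .f 125 nd134 10692148985585771887208780204874 nd55
/-- node -/
def nd136 : Ex := .m nd135 nd3
/-- node -/
def nd137 : Ex := .f 1 nd136 (-710201485103868982245089929888) nd58
/-- node -/
def nd138 : Ex := .m nd74 nd137
/-- node -/
def nd139 : Ex := .m nd132 nd5
/-- node -/
def nd140 : Ex := .f 125 nd139 6 nd138
/-- node -/
def nd141 : Ex := .f 117141123847926547900000000 nd3 515713410417602316844974157 nd1
/-- node -/
def nd142 : Ex := .m nd141 nd3
/-- node -/
def nd143 : Ex := .f 625 nd142 (-133162778456975434170954361854) nd55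
/-- node -/
def nd144 : Ex := .m nd143 nd3
/-- node -/
def nd145 : Ex := .f 1 nd144 63410049490942284153585911648 nd58
/-- node -/
def nd146 : Ex := .m nd83 nd145
/-- node -/
def nd147 : Ex := .m nd140 nd5
/-- node -/
def eq2 : Ex := .f 1 nd147 32 nd146
/-- node -/
def nd149 : Ex := .m eq2 eW2
/-- node -/
def eS2 : Ex := .f 175 nd119 2 nd149
/-- node -/
def nd151 : Ex := .m eS2 nd16
/-- node -/
def nd152 : Ex := .f 100000000 nd3 440543329 nd1
/-- node -/
def nd153 : Ex := .m nd152 nd3
/-- node -/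
def nd154 : Ex := .f 1 nd153 (-129648984) nd55
/-- node -/
def nd155 : Ex := .m nd154 nd3
/-- node -/
def nd156 : Ex := .f 1 nd155 49356551 nd58
/-- node -/
def nd157 : Ex := .f 268917247582901575131700000000 nd3 1205062892418039913878627314293 nd1
/-- node -/
def nd158 : Ex := .m nd157 nd3
/-- node -/
def nd159 : Ex := .f 1 nd158 (-367372404966475972292837711928) nd55
/-- node -/
def nd160 : Ex := .m nd159 nd3
/-- node -/
def nd161 : Ex := .f 1 nd160 (-204375499909750556478101572333) nd58
/-- node -/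
def nd162 : Ex := .m nd0 nd161
/-- node -/
def nd163 : Ex := .m nd156 nd5
/-- node -/
def nd164 : Ex := .f 610421790277300000000 nd163 1 nd162
/-- node -/
def nd165 : Ex := .f (-3297523538371375969300000000) nd3 (-15307183540269832178868237997) nd1
/-- node -/
def nd166 : Ex := .m nd165 nd3
/-- node -/
def nd167 : Ex := .f 5 nd166 24967004138196061119931113816 nd55
/-- node -/
def nd168 : Ex := .m nd167 nd3
/-- node -/
def nd169 : Ex := .f 5 nd168 282686987182447706025711806941 nd58
/-- node -/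
def nd170 : Ex := .m nd74 nd169
/-- node -/
def nd171 : Ex := .m nd164 nd5
/-- node -/
def nd172 : Ex := .f 25 nd171 24 nd170
/-- node -/
def nd173 : Ex := .f 30128314223332861592300000000 nd3 (-204375499909750556478101572333) nd1
/-- node -/
def nd174 : Ex := .m nd173 nd3
/-- node -/
def nd175 : Ex := .f 25 nd174 6784487692378744944617083366584 nd55
/-- node -/
def nd176 : Ex := .m nd175 nd3
/-- node -/
def nd177 : Ex := .f 5 nd176 701020409311886452992250454762129 nd58
/-- node -/
def nd178 : Ex := .m nd83 nd177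
/-- node -/
def nd179 : Ex := .m nd172 nd5
/-- node -/
def eq3 : Ex := .f 5 nd179 1 nd178
/-- node -/
def nd181 : Ex := .m eq3 eW3
/-- node -/
def eS3 : Ex := .f 20 nd151 1 nd181
/-- node -/
def nd183 : Ex := .m eS3 nd16
/-- node -/
def nd184 : Ex := .f 100000000 nd3 497235537 nd1
/-- node -/
def nd185 : Ex := .m nd184 nd3
/-- node -/
def nd186 : Ex := .f 1 nd185 43168638 nd55
/-- node -/
def nd187 : Ex := .m nd186 nd3
/-- node -/
def nd188 : Ex := .f 1 nd187 153315332 nd58
/-- node -/
def nd189 : Ex := .f 1437236835078824163300000000 nd3 7166274551649355701670511921 nd1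
/-- node -/
def nd190 : Ex := .m nd189 nd3
/-- node -/
def nd191 : Ex := .f 1 nd190 913269268063321499708305854 nd55
/-- node -/
def nd192 : Ex := .m nd191 nd3
/-- node -/
def nd193 : Ex := .f 1 nd192 1343323582499484459051617156 nd58
/-- node -/
def nd194 : Ex := .m nd0 nd193
/-- node -/
def nd195 : Ex := .m nd188 nd5
/-- node -/
def nd196 : Ex := .f 754408697774900000000 nd195 261 nd194
/-- node -/
def nd197 : Ex := .f 5427799329716010597700000000 nd3 39727213160754485237311304649 nd1
/-- node -/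
def nd198 : Ex := .m nd197 nd3
/-- node -/
def nd199 : Ex := .f 125 nd198 24092438074998416299946456522838 nd55
/-- node -/
def nd200 : Ex := .m nd199 nd3
/-- node -/
def nd201 : Ex := .f 1 nd200 (-68879549051753798976642301412780) nd58
/-- node -/
def nd202 : Ex := .m nd74 nd201
/-- node -/
def nd203 : Ex := .m nd196 nd5
/-- node -/
def nd204 : Ex := .f 125 nd203 6 nd202
/-- node -/
def nd205 : Ex := .f 28915604990761613691700000000 nd3 87651863758091360953118019429 nd1
/-- node -/
def nd206 : Ex := .m nd205 nd3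
/-- node -/
def nd207 : Ex := .f 25 nd206 (-20663864715526139692992690423834) nd55
/-- node -/
def nd208 : Ex := .m nd207 nd3
/-- node -/
def nd209 : Ex := .f 5 nd208 313664520804324699107256333287428 nd58
/-- node -/
def nd210 : Ex := .m nd83 nd209
/-- node -/
def nd211 : Ex := .m nd204 nd5
/-- node -/
def eq4 : Ex := .f 1 nd211 4 nd210
/-- node -/
def nd213 : Ex := .m eq4 eW4
/-- node -/
def eS4 : Ex := .f 75 nd183 2 nd213
/-- node -/
def nd215 : Ex := .m eS4 nd16
/-- node -/
def nd216 : Ex := .f 100000000 nd3 528527069 nd1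
/-- node -/
def nd217 : Ex := .m nd216 nd3
/-- node -/
def nd218 : Ex := .f 1 nd217 357417283 nd55
/-- node -/
def nd219 : Ex := .m nd218 nd3
/-- node -/
def nd220 : Ex := .f 1 nd219 532737558 nd58
/-- node -/
def nd221 : Ex := .f 519553412577968453509300000000 nd3 2806864953524983927077330932417 nd1
/-- node -/
def nd222 : Ex := .m nd221 nd3
/-- node -/
def nd223 : Ex := .f 1 nd222 944361588897579801623395812319 nd55
/-- node -/
def nd224 : Ex := .m nd223 nd3
/-- node -/
def nd225 : Ex := .f 1 nd224 5528810570957245062546274122894 nd58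
/-- node -/
def nd226 : Ex := .m nd0 nd225
/-- node -/
def nd227 : Ex := .m nd220 nd5
/-- node -/
def nd228 : Ex := .f 983021387269700000000 nd227 1 nd226
/-- node -/
def nd229 : Ex := .f 351348833368826962225100000000 nd3 944361588897579801623395812319 nd1
/-- node -/
def nd230 : Ex := .m nd229 nd3
/-- node -/
def nd231 : Ex := .f 125 nd230 1870036664570430671379654493932541 nd55
/-- node -/
def nd232 : Ex := .m nd231 nd3
/-- node -/
def nd233 : Ex := .f 1 nd232 (-4948021118559683335399651794927510) nd58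
/-- node -/
def nd234 : Ex := .m nd74 nd233
/-- node -/
def nd235 : Ex := .m nd228 nd5
/-- node -/
def nd236 : Ex := .f 125 nd235 1 nd234
/-- node -/
def nd237 : Ex := .f 29094022961990681410700000000 nd3 307156142830958059030348562383 nd1
/-- node -/
def nd238 : Ex := .m nd237 nd3
/-- node -/
def nd239 : Ex := .f 25 nd238 (-54978012428440925948885019943639) nd55
/-- node -/
def nd240 : Ex := .m nd239 nd3
/-- node -/
def nd241 : Ex := .f 5 nd240 890239104163784982785381475256074 nd58
/-- node -/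
def nd242 : Ex := .m nd83 nd241
/-- node -/
def nd243 : Ex := .m nd236 nd5
/-- node -/
def eq5 : Ex := .f 1 nd243 18 nd242
/-- node -/
def nd245 : Ex := .m eq5 eW5
/-- node -/
def eS5 : Ex := .f 375 nd215 2 nd245
/-- node -/
def nd247 : Ex := .m eS5 nd16
/-- node -/
def nd248 : Ex := .f 100000000 nd3 543416841 nd1
/-- node -/
def nd249 : Ex := .m nd248 nd3
/-- node -/
def nd250 : Ex := .f 1 nd249 793411161 nd55
/-- node -/
def nd251 : Ex := .m nd250 nd3
/-- node -/
def nd252 : Ex := .f 1 nd251 2051469722 nd58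
/-- node -/
def nd253 : Ex := .f 18280580950188748315300000000 nd3 129840835224102999632443979673 nd1
/-- node -/
def nd254 : Ex := .m nd253 nd3
/-- node -/
def nd255 : Ex := .f 1 nd254 (-188447823951625190683160729367) nd55
/-- node -/
def nd256 : Ex := .m nd255 nd3
/-- node -/
def nd257 : Ex := .f 1 nd256 887162998025198775743478193466 nd58
/-- node -/
def nd258 : Ex := .m nd0 nd257
/-- node -/
def nd259 : Ex := .m nd252 nd5
/-- node -/
def nd260 : Ex := .f 302760636289700000000 nd259 9 nd258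
/-- node -/
def nd261 : Ex := .f 80071222647903203113900000000 nd3 (-565343471854875572049482188101) nd1
/-- node -/
def nd262 : Ex := .m nd261 nd3
/-- node -/
def nd263 : Ex := .f 125 nd262 1447210558225740061562984139800703 nd55
/-- node -/
def nd264 : Ex := .m nd263 nd3
/-- node -/
def nd265 : Ex := .f 1 nd264 (-1895001895443562327281965359823402) nd58
/-- node -/
def nd266 : Ex := .m nd74 nd265
/-- node -/
def nd267 : Ex := .m nd260 nd5
/-- node -/
def nd268 : Ex := .f 125 nd267 3 nd266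
/-- node -/
def nd269 : Ex := .f 310552139180886985231700000000 nd3 3992233491113394490845651870597 nd1
/-- node -/
def nd270 : Ex := .m nd269 nd3
/-- node -/
def nd271 : Ex := .f 125 nd270 (-2842502843165343490922948039735103) nd55
/-- node -/
def nd272 : Ex := .m nd271 nd3
/-- node -/
def nd273 : Ex := .f 1 nd272 5634283533702698031001671959097002 nd58
/-- node -/
def nd274 : Ex := .m nd83 nd273
/-- node -/
def nd275 : Ex := .m nd268 nd5
/-- node -/
def eq6 : Ex := .f 1 nd275 2 nd274
/-- node -/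
def nd277 : Ex := .m eq6 eW6
/-- node -/
def eS6 : Ex := .f 275 nd247 6 nd277
/-- node -/
def nd279 : Ex := .m eS6 nd16
/-- node -/
def nd280 : Ex := .f 5000000 nd3 87385583 nd1
/-- node -/
def nd281 : Ex := .m nd280 nd3
/-- node -/
def nd282 : Ex := .f 10 nd281 (-3757767253) nd55
/-- node -/
def nd283 : Ex := .m nd282 nd3
/-- node -/
def nd284 : Ex := .f 1 nd283 21753073279 nd58
/-- node -/
def nd285 : Ex := .f 35218911201773067235000000 nd3 952457682427812582805734601 nd1
/-- node -/
def nd286 : Ex := .m nd285 nd3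
/-- node -/
def nd287 : Ex := .f 10 nd286 (-76096135223295971488165507091) nd55
/-- node -/
def nd288 : Ex := .m nd287 nd3
/-- node -/
def nd289 : Ex := .f 1 nd288 229737881559752248153110678713 nd58
/-- node -/
def nd290 : Ex := .m nd0 nd289
/-- node -/
def nd291 : Ex := .m nd284 nd5
/-- node -/
def nd292 : Ex := .f 403028852045000000 nd291 1 nd290
/-- node -/
def nd293 : Ex := .f (-1514488622228883082385000000) nd3 (-76096135223295971488165507091) nd1
/-- node -/
def nd294 : Ex := .m nd293 nd3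
/-- node -/
def nd295 : Ex := .f 6250 nd294 5287375049826008481416383248871441 nd55
/-- node -/
def nd296 : Ex := .m nd295 nd3
/-- node -/
def nd297 : Ex := .f 1 nd296 (-11160271743823348724895997320964531) nd58
/-- node -/
def nd298 : Ex := .m nd74 nd297
/-- node -/
def nd299 : Ex := .m nd292 nd5
/-- node -/
def nd300 : Ex := .f 6250 nd299 1 nd298
/-- node -/
def nd301 : Ex := .f 8767116152086134005555000000 nd3 229737881559752248153110678713 nd1
/-- node -/
def nd302 : Ex := .m nd301 nd3
/-- node -/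
def nd303 : Ex := .f 6250 nd302 (-11160271743823348724895997320964531) nd55
/-- node -/
def nd304 : Ex := .m nd303 nd3
/-- node -/
def nd305 : Ex := .f 1 nd304 34699117928359792057171150950623641 nd58
/-- node -/
def nd306 : Ex := .m nd83 nd305
/-- node -/
def nd307 : Ex := .m nd300 nd5
/-- node -/
def eq7 : Ex := .f 1 nd307 1 nd306
/-- node -/
def nd309 : Ex := .m eq7 eW7
/-- node -/
def eS7 : Ex := .f 25 nd279 2 nd309
/-- node -/
def nd311 : Ex := .m eS7 nd16
/-- node -/
def nd312 : Ex := .m nd1 nd3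
/-- node -/
def nd313 : Ex := .f 25000000 nd312 (-368701743) nd55
/-- node -/
def nd314 : Ex := .m nd313 nd3
/-- node -/
def nd315 : Ex := .f 4 nd314 3114557767 nd58
/-- node -/
def nd316 : Ex := .m nd0 nd315
/-- node -/
def nd317 : Ex := .f (-770148177881143848825000000) nd312 12822143588049571355820240079 nd55
/-- node -/
def nd318 : Ex := .m nd317 nd3
/-- node -/
def nd319 : Ex := .f 4 nd318 (-116623721969726422441987102951) nd58
/-- node -/
def nd320 : Ex := .m nd74 nd319
/-- node -/
def nd321 : Ex := .m nd316 nd5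
/-- node -/
def nd322 : Ex := .f 2088810786775000000 nd321 1 nd320
/-- node -/
def nd323 : Ex := .f 6505721859743457131425000000 nd312 (-116623721969726422441987102951) nd55
/-- node -/
def nd324 : Ex := .m nd323 nd3
/-- node -/
def nd325 : Ex := .f 4 nd324 1102539976003111322214873611723 nd58
/-- node -/
def nd326 : Ex := .m nd83 nd325
/-- node -/
def nd327 : Ex := .m nd322 nd5
/-- node -/
def eq8 : Ex := .f 4 nd327 1 nd326
/-- node -/
def nd329 : Ex := .m eq8 eW8
/-- node -/
def eS8 : Ex := .f 65 nd311 110592 nd329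
/-- node -/
def nd331 : Ex := .m eS8 nd16
/-- node -/
def nd332 : Ex := .f 100000000 nd3 (-1558237413) nd1
/-- node -/
def nd333 : Ex := .m nd332 nd3
/-- node -/
def nd334 : Ex := .f 1 nd333 33816973729 nd55
/-- node -/
def nd335 : Ex := .m nd334 nd3
/-- node -/
def nd336 : Ex := .f 1 nd335 (-94439656632) nd58
/-- node -/
def nd337 : Ex := .f (-525692495679482942300000000) nd3 8212947626777511771871802699 nd1
/-- node -/
def nd338 : Ex := .m nd337 nd3
/-- node -/
def nd339 : Ex := .f 1 nd338 (-178236044003659713264627228367) nd55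
/-- node -/
def nd340 : Ex := .m nd339 nd3
/-- node -/
def nd341 : Ex := .f 1 nd340 497754498336953339443146683336 nd58
/-- node -/
def nd342 : Ex := .m nd0 nd341
/-- node -/
def nd343 : Ex := .m nd336 nd5
/-- node -/
def nd344 : Ex := .f 1012090631300000000 nd343 3 nd342
/-- node -/
def nd345 : Ex := .f 34225842290039125117700000000 nd3 (-534708132010979139793881685101) nd1
/-- node -/
def nd346 : Ex := .m nd345 nd3
/-- node -/
def nd347 : Ex := .f 1 nd346 11604272307955155655720748849033 nd55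
/-- node -/
def nd348 : Ex := .m nd347 nd3
/-- node -/
def nd349 : Ex := .f 1 nd348 (-32406905365385272537510300103544) nd58
/-- node -/
def nd350 : Ex := .m nd74 nd349
/-- node -/
def nd351 : Ex := .m nd344 nd5
/-- node -/
def nd352 : Ex := .f 1 nd351 1 nd350
/-- node -/
def nd353 : Ex := .f (-3982562154184837990900000000) nd3 62219312292119167430393335417 nd1
/-- node -/
def nd354 : Ex := .m nd353 nd3
/-- node -/
def nd355 : Ex := .f 1 nd354 (-1350287723557719689062929170981) nd55
/-- node -/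
def nd356 : Ex := .m nd355 nd3
/-- node -/
def nd357 : Ex := .f 375 nd356 1414090639341976524560492526700456 nd58
/-- node -/
def nd358 : Ex := .m nd83 nd357
/-- node -/
def nd359 : Ex := .m nd352 nd5
/-- node -/
def eq9 : Ex := .f 125 nd359 8 nd358
/-- node -/
def nd361 : Ex := .m eq9 eW9
/-- node -/
def eS9 : Ex := .f 350 nd331 27 nd361
/-- node -/
def nd363 : Ex := .m eS9 nd16
/-- node -/
def nd364 : Ex := .f 25000000 nd3 (-382225963) nd1
/-- node -/
def nd365 : Ex := .m nd364 nd3
/-- node -/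
def nd366 : Ex := .f 2 nd365 11794355739 nd55
/-- node -/
def nd367 : Ex := .m nd366 nd3
/-- node -/
def nd368 : Ex := .f 1 nd367 (-21443421782) nd58
/-- node -/
def nd369 : Ex := .f (-11361105824018648425000000) nd3 173997451663137456968162331 nd1
/-- node -/
def nd370 : Ex := .m nd369 nd3
/-- node -/
def nd371 : Ex := .f 2 nd370 (-5369004571875513224359282443) nd55
/-- node -/
def nd372 : Ex := .m nd371 nd3
/-- node -/
def nd373 : Ex := .f 1 nd372 9761434378373770363748999734 nd58
/-- node -/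
def nd374 : Ex := .m nd0 nd373
/-- node -/
def nd375 : Ex := .m nd368 nd5
/-- node -/
def nd376 : Ex := .f 29723532475000000 nd375 1 nd374
/-- node -/
def nd377 : Ex := .f 38952212869985458225000000 nd3 (-596556063541723691595475827) nd1
/-- node -/
def nd378 : Ex := .m nd377 nd3
/-- node -/
def nd379 : Ex := .f 29250 nd378 269216201044050089175322875510083 nd55
/-- node -/
def nd380 : Ex := .m nd379 nd3
/-- node -/
def nd381 : Ex := .f 1 nd380 (-489464325235811970107182379008934) nd58
/-- node -/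
def nd382 : Ex := .m nd74 nd381
/-- node -/
def nd383 : Ex := .m nd376 nd5
/-- node -/
def nd384 : Ex := .f 3250 nd383 1 nd382
/-- node -/
def nd385 : Ex := .f (-318687121856199685225000000) nd3 4880717189186885181874499867 nd1
/-- node -/
def nd386 : Ex := .m nd385 nd3
/-- node -/
def nd387 : Ex := .f 3250 nd386 (-244732162617905985053591189504467) nd55
/-- node -/
def nd388 : Ex := .m nd387 nd3
/-- node -/
def nd389 : Ex := .f 1 nd388 444949698919540592932648533529798 nd58
/-- node -/
def nd390 : Ex := .m nd83 nd389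
/-- node -/
def nd391 : Ex := .m nd384 nd5
/-- node -/
def eq10 : Ex := .f 1 nd391 2 nd390
/-- node -/
def nd393 : Ex := .m eq10 eW10
/-- node -/
def eS10 : Ex := .f 125 nd363 216 nd393
/-- node -/
def nd395 : Ex := .m eS10 nd16
/-- node -/
def nd396 : Ex := .f 100000000 nd3 (-848811091) nd1
/-- node -/
def nd397 : Ex := .m nd396 nd3
/-- node -/
def nd398 : Ex := .f 1 nd397 17556850230 nd55
/-- node -/
def nd399 : Ex := .m nd398 nd3
/-- node -/
def nd400 : Ex := .f 1 nd399 25195447341 nd58
/-- node -/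
def nd401 : Ex := .f (-28794986559387027700000000) nd3 245378439215268392732842207 nd1
/-- node -/
def nd402 : Ex := .m nd401 nd3
/-- node -/
def nd403 : Ex := .f 1 nd402 (-5075147909902586056106893710) nd55
/-- node -/
def nd404 : Ex := .m nd403 nd3
/-- node -/
def nd405 : Ex := .f 1 nd404 (-7283232455746066933525463457) nd58
/-- node -/
def nd406 : Ex := .m nd0 nd405
/-- node -/
def nd407 : Ex := .m nd400 nd5
/-- node -/
def nd408 : Ex := .f 33923904700000000 nd407 1 nd406
/-- node -/
def nd409 : Ex := .f 19853230467823102700000000 nd3 (-169171596996752868536896457) nd1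
/-- node -/
def nd410 : Ex := .m nd409 nd3
/-- node -/
def nd411 : Ex := .f 3125 nd410 10934856384140619994831101438122 nd55
/-- node -/
def nd412 : Ex := .m nd411 nd3
/-- node -/
def nd413 : Ex := .f 1 nd412 15692368479792710203544730677987 nd58
/-- node -/
def nd414 : Ex := .m nd74 nd413
/-- node -/
def nd415 : Ex := .m nd408 nd5
/-- node -/
def nd416 : Ex := .f 625 nd415 6 nd414
/-- node -/
def nd417 : Ex := .f 13567110388411942900000000 nd3 (-115606864376921697357547039) nd1
/-- node -/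
def nd418 : Ex := .m nd417 nd3
/-- node -/
def nd419 : Ex := .f 1875 nd418 4483533851369345772441351622282 nd55
/-- node -/
def nd420 : Ex := .m nd419 nd3
/-- node -/
def nd421 : Ex := .f 21 nd420 135118633507329313148889511270255 nd58
/-- node -/
def nd422 : Ex := .m nd83 nd421
/-- node -/
def nd423 : Ex := .m nd416 nd5
/-- node -/
def eq11 : Ex := .f 1 nd423 1 nd422
/-- node -/
def nd425 : Ex := .m eq11 eW11
/-- node -/
def eS11 : Ex := .f 50 nd395 27 nd425
/-- node -/
def nd427 : Ex := .f 1 eT 50 nd16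
/-- node -/
def nd428 : Ex := .f 1 eT 25 nd16
/-- node -/
def nd429 : Ex := .m nd428 nd428
/-- node -/
def nd430 : Ex := .m nd427 nd429
/-- node -/
def nd431 : Ex := .m eT eT
/-- node -/
def eB : Ex := .m nd430 nd431
/-- node -/
def nd433 : Ex := .f 1 nd5 (-1) nd0
/-- node -/
def nd434 : Ex := .f 1 nd3 (-1) nd1
/-- node -/
def eR1 : Ex := .m nd433 nd434
/-- node -/
def nd436 : Ex := .f 91 nd16 (-4) eT
/-- node -/
def nd437 : Ex := .m eB nd436
/-- node -/
def nd438 : Ex := .m eR1 nd437
/-- node -/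
def nd439 : Ex := .m nd9 nd16
/-- node -/
def nd440 : Ex := .m nd16 nd439
/-- node -/
def nd441 : Ex := .m nd16 nd16
/-- node -/
def nd442 : Ex := .m nd439 nd441
/-- node -/
def nd443 : Ex := .m nd440 nd442
/-- node -/
def nd444 : Ex := .m nd438 nd443
/-- node -/
def eKPL : Ex := .f 1 eS11 888242355000000000000000000000000000000000 nd444
/-- node -/
def nd446 : Ex := .m nd439 nd440
/-- node -/
def nd447 : Ex := .m nd442 nd446
/-- node -/
def nd448 : Ex := .m eB nd447
/-- node -/
def nd449 : Ex := .f 1 eKPL 302702400000000000000000000000000000000 nd448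
/-- node -/
def g0L : Ex := .f (-1) nd449 0 nd449

/-- real function of eT -/
noncomputable def f_eT (x y t : ℝ) : ℝ := ((-1) / 2) - (t * (((1 / 2) - ((1 / 5) * (x + y))) - ((2 / 25) * (x * y))))

theorem v_eT (x y t : ℝ) : val eT x y t = 50 * (f_eT x y t) := by
  simp only [nd0, nd1, nd2, nd3, nd4, nd5, nd6, nd7, nd9, nd10, nd11, nd12, nd13, nd14, nd15, nd16, eT, val_f, val_h, val_m, val_vt, val_vx, val_vy]
  unfold f_eT
  push_cast
  ring

/-- real function of eP -/
noncomputable def f_eP (x y t : ℝ) : ℝ := f_eT x y t - (((2 / 25) * x) * y)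

theorem v_eP (x y t : ℝ) : val eP x y t = 50 * (f_eP x y t) := by
  simp only [nd0, nd1, nd11, nd14, nd18, eP, v_eT, val_f, val_h, val_m, val_vx, val_vy]
  unfold f_eP
  push_cast
  ring

/-- real function of eM -/
noncomputable def f_eM (x y t : ℝ) : ℝ := (1 - ((2 / 5) * x)) * (1 - ((2 / 5) * y))

theorem v_eM (x y t : ℝ) : val eM x y t = 25 * (f_eM x y t) := by
  simp only [nd0, nd1, nd3, nd5, nd14, nd15, nd16, nd20, nd21, nd22, nd23, eM, val_f, val_h, val_m, val_vx, val_vy]
  unfold f_eM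
  push_cast
  ring

theorem v_eW2 (x y t : ℝ) : val eW2 x y t = 4375 * (Zg 8 2 (f_eP x y t) (f_eM x y t)) := by
  simp only [nd25, eW2, v_eP, v_eM, val_f, val_m]
  rw [zg_2]
  rw [zg_0, zg_1]
  push_cast
  ring

theorem v_eW3 (x y t : ℝ) : val eW3 x y t = 175000 * (Zg 8 3 (f_eP x y t) (f_eM x y t)) := by
  simp only [nd27, nd28, eW3, v_eP, v_eM, v_eW2, val_f, val_m]
  rw [zg_3]
  rw [zg_1]
  push_cast
  ring

theorem v_eW4 (x y t : ℝ) : val eW4 x y t = 6562500 * (Zg 8 4 (f_eP x y t) (f_eM x y t)) := by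
  simp only [nd30, nd31, eW4, v_eP, v_eM, v_eW2, v_eW3, val_f, val_m]
  rw [zg_4]
  push_cast
  ring

theorem v_eW5 (x y t : ℝ) : val eW5 x y t = 1640625000 * (Zg 8 5 (f_eP x y t) (f_eM x y t)) := by
  simp only [nd33, nd34, eW5, v_eP, v_eM, v_eW3, v_eW4, val_f, val_m]
  rw [zg_5]
  push_cast
  ring

theorem v_eW6 (x y t : ℝ) : val eW6 x y t = 225585937500 * (Zg 8 6 (f_eP x y t) (f_eM x y t)) := by
  simp only [nd36, nd37, eW6, v_eP, v_eM, v_eW4, v_eW5, val_f, val_m]
  rw [zg_6]
  push_cast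
  ring

theorem v_eW7 (x y t : ℝ) : val eW7 x y t = 22558593750000 * (Zg 8 7 (f_eP x y t) (f_eM x y t)) := by
  simp only [nd39, nd40, eW7, v_eP, v_eM, v_eW5, v_eW6, val_f, val_m]
  rw [zg_7]
  push_cast
  ring

theorem v_eW8 (x y t : ℝ) : val eW8 x y t = 733154296875000 * (Zg 8 8 (f_eP x y t) (f_eM x y t)) := by
  simp only [nd42, nd43, eW8, v_eP, v_eM, v_eW6, v_eW7, val_f, val_m]
  rw [zg_8]
  push_cast
  ring

theorem v_eW9 (x y t : ℝ) : val eW9 x y t = 256604003906250000 * (Zg 8 9 (f_eP x y t) (f_eM x y t)) := by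
  simp only [nd45, nd46, eW9, v_eP, v_eM, v_eW7, v_eW8, val_f, val_m]
  rw [zg_9]
  push_cast
  ring

theorem v_eW10 (x y t : ℝ) : val eW10 x y t = 16037750244140625000 * (Zg 8 10 (f_eP x y t) (f_eM x y t)) := by
  simp only [nd48, nd49, eW10, v_eP, v_eM, v_eW8, v_eW9, val_f, val_m]
  rw [zg_10]
  push_cast
  ring

theorem v_eW11 (x y t : ℝ) : val eW11 x y t = 6415100097656250000000 * (Zg 8 11 (f_eP x y t) (f_eM x y t)) := by
  simp only [nd51, nd52, eW11, v_eP, v_eM, v_eW9, v_eW10, val_f, val_m]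
  rw [zg_11]
  push_cast
  ring

theorem v_eq0 (x y t : ℝ) : val eq0 x y t = 10000000000000000000000000000 * (qf0 x y) := by
  simp only [nd0, nd1, nd3, nd5, nd54, nd55, nd56, nd57, nd58, nd59, nd60, nd61, nd62, nd63, nd64, nd65, nd66, nd67, nd68, nd69, nd70, nd71, nd72, nd73, nd74, nd75, nd76, nd77, nd78, nd79, nd80, nd81, nd82, nd83, nd84, nd85, eq0, val_f, val_h, val_m, val_vx, val_vy]
  unfold qf0
  push_cast
  ring

theorem v_eq1 (x y t : ℝ) : val eq1 x y t = 368640000000000000000000000000000 * (qf1 x y) := by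
  simp only [nd0, nd1, nd3, nd5, nd55, nd58, nd74, nd83, nd88, nd89, nd90, nd91, nd92, nd93, nd94, nd95, nd96, nd97, nd98, nd99, nd100, nd101, nd102, nd103, nd104, nd105, nd106, nd107, nd108, nd109, nd110, nd111, nd112, nd113, nd114, nd115, eq1, val_f, val_h, val_m, val_vx, val_vy]
  unfold qf1
  push_cast
  ring

/-- real function of eS1 -/
noncomputable def f_eS1 (x y t : ℝ) : ℝ := qf0 x y * Zg 8 0 (f_eP x y t) (f_eM x y t) + qf1 x y * Zg 8 1 (f_eP x y t) (f_eM x y t)

theorem v_eS1 (x y t : ℝ) : val eS1 x y t = 18432000000000000000000000000000000 * (f_eS1 x y t) := by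
  simp only [nd3, nd5, nd14, nd15, nd16, nd87, nd117, eS1, v_eP, v_eq0, v_eq1, val_f, val_h, val_m]
  unfold f_eS1
  rw [zg_0, zg_1]
  push_cast
  ring

theorem v_eq2 (x y t : ℝ) : val eq2 x y t = 368640000000000000000000000000000 * (qf2 x y) := by
  simp only [nd0, nd1, nd3, nd5, nd55, nd58, nd74, nd83, nd120, nd121, nd122, nd123, nd124, nd125, nd126, nd127, nd128, nd129, nd130, nd131, nd132, nd133, nd134, nd135, nd136, nd137, nd138, nd139, nd140, nd141, nd142, nd143, nd144, nd145, nd146, nd147, eq2, val_f, val_h, val_m, val_vx, val_vy]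
  unfold qf2
  push_cast
  ring

/-- real function of eS2 -/
noncomputable def f_eS2 (x y t : ℝ) : ℝ := f_eS1 x y t + qf2 x y * Zg 8 2 (f_eP x y t) (f_eM x y t)

theorem v_eS2 (x y t : ℝ) : val eS2 x y t = 3225600000000000000000000000000000000 * (f_eS2 x y t) := by
  simp only [nd3, nd5, nd14, nd15, nd16, nd119, nd149, eS2, v_eW2, v_eS1, v_eq2, val_f, val_h, val_m]
  unfold f_eS2
  push_cast
  ring

theorem v_eq3 (x y t : ℝ) : val eq3 x y t = 368640000000000000000000000000000 * (qf3 x y) := by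
  simp only [nd0, nd1, nd3, nd5, nd55, nd58, nd74, nd83, nd152, nd153, nd154, nd155, nd156, nd157, nd158, nd159, nd160, nd161, nd162, nd163, nd164, nd165, nd166, nd167, nd168, nd169, nd170, nd171, nd172, nd173, nd174, nd175, nd176, nd177, nd178, nd179, eq3, val_f, val_h, val_m, val_vx, val_vy]
  unfold qf3
  push_cast
  ring

/-- real function of eS3 -/
noncomputable def f_eS3 (x y t : ℝ) : ℝ := f_eS2 x y t + qf3 x y * Zg 8 3 (f_eP x y t) (f_eM x y t)

theorem v_eS3 (x y t : ℝ) : val eS3 x y t = 64512000000000000000000000000000000000 * (f_eS3 x y t) := by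
  simp only [nd3, nd5, nd14, nd15, nd16, nd151, nd181, eS3, v_eW3, v_eS2, v_eq3, val_f, val_h, val_m]
  unfold f_eS3
  push_cast
  ring

theorem v_eq4 (x y t : ℝ) : val eq4 x y t = 368640000000000000000000000000000 * (qf4 x y) := by
  simp only [nd0, nd1, nd3, nd5, nd55, nd58, nd74, nd83, nd184, nd185, nd186, nd187, nd188, nd189, nd190, nd191, nd192, nd193, nd194, nd195, nd196, nd197, nd198, nd199, nd200, nd201, nd202, nd203, nd204, nd205, nd206, nd207, nd208, nd209, nd210, nd211, eq4, val_f, val_h, val_m, val_vx, val_vy]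
  unfold qf4
  push_cast
  ring

/-- real function of eS4 -/
noncomputable def f_eS4 (x y t : ℝ) : ℝ := f_eS3 x y t + qf4 x y * Zg 8 4 (f_eP x y t) (f_eM x y t)

theorem v_eS4 (x y t : ℝ) : val eS4 x y t = 4838400000000000000000000000000000000000 * (f_eS4 x y t) := by
  simp only [nd3, nd5, nd14, nd15, nd16, nd183, nd213, eS4, v_eW4, v_eS3, v_eq4, val_f, val_h, val_m]
  unfold f_eS4
  push_cast
  ring

theorem v_eq5 (x y t : ℝ) : val eq5 x y t = 552960000000000000000000000000000 * (qf5 x y) := by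
  simp only [nd0, nd1, nd3, nd5, nd55, nd58, nd74, nd83, nd216, nd217, nd218, nd219, nd220, nd221, nd222, nd223, nd224, nd225, nd226, nd227, nd228, nd229, nd230, nd231, nd232, nd233, nd234, nd235, nd236, nd237, nd238, nd239, nd240, nd241, nd242, nd243, eq5, val_f, val_h, val_m, val_vx, val_vy]
  unfold qf5
  push_cast
  ring

/-- real function of eS5 -/
noncomputable def f_eS5 (x y t : ℝ) : ℝ := f_eS4 x y t + qf5 x y * Zg 8 5 (f_eP x y t) (f_eM x y t)

theorem v_eS5 (x y t : ℝ) : val eS5 x y t = 1814400000000000000000000000000000000000000 * (f_eS5 x y t) := by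
  simp only [nd3, nd5, nd14, nd15, nd16, nd215, nd245, eS5, v_eW5, v_eS4, v_eq5, val_f, val_h, val_m]
  unfold f_eS5
  push_cast
  ring

theorem v_eq6 (x y t : ℝ) : val eq6 x y t = 368640000000000000000000000000000 * (qf6 x y) := by
  simp only [nd0, nd1, nd3, nd5, nd55, nd58, nd74, nd83, nd248, nd249, nd250, nd251, nd252, nd253, nd254, nd255, nd256, nd257, nd258, nd259, nd260, nd261, nd262, nd263, nd264, nd265, nd266, nd267, nd268, nd269, nd270, nd271, nd272, nd273, nd274, nd275, eq6, val_f, val_h, val_m, val_vx, val_vy]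
  unfold qf6
  push_cast
  ring

/-- real function of eS6 -/
noncomputable def f_eS6 (x y t : ℝ) : ℝ := f_eS5 x y t + qf6 x y * Zg 8 6 (f_eP x y t) (f_eM x y t)

theorem v_eS6 (x y t : ℝ) : val eS6 x y t = 498960000000000000000000000000000000000000000 * (f_eS6 x y t) := by
  simp only [nd3, nd5, nd14, nd15, nd16, nd247, nd277, eS6, v_eW6, v_eS5, v_eq6, val_f, val_h, val_m]
  unfold f_eS6
  push_cast
  ring

theorem v_eq7 (x y t : ℝ) : val eq7 x y t = 276480000000000000000000000000000 * (qf7 x y) := by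
  simp only [nd0, nd1, nd3, nd5, nd55, nd58, nd74, nd83, nd280, nd281, nd282, nd283, nd284, nd285, nd286, nd287, nd288, nd289, nd290, nd291, nd292, nd293, nd294, nd295, nd296, nd297, nd298, nd299, nd300, nd301, nd302, nd303, nd304, nd305, nd306, nd307, eq7, val_f, val_h, val_m, val_vx, val_vy]
  unfold qf7
  push_cast
  ring

/-- real function of eS7 -/
noncomputable def f_eS7 (x y t : ℝ) : ℝ := f_eS6 x y t + qf7 x y * Zg 8 7 (f_eP x y t) (f_eM x y t)

theorem v_eS7 (x y t : ℝ) : val eS7 x y t = 12474000000000000000000000000000000000000000000 * (f_eS7 x y t) := by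
  simp only [nd3, nd5, nd14, nd15, nd16, nd279, nd309, eS7, v_eW7, v_eS6, v_eq7, val_f, val_h, val_m]
  unfold f_eS7
  push_cast
  ring

theorem v_eq8 (x y t : ℝ) : val eq8 x y t = 10000000000000000000000000000 * (qf8 x y) := by
  simp only [nd0, nd1, nd3, nd5, nd55, nd58, nd74, nd83, nd312, nd313, nd314, nd315, nd316, nd317, nd318, nd319, nd320, nd321, nd322, nd323, nd324, nd325, nd326, nd327, eq8, val_f, val_h, val_m, val_vx, val_vy]
  unfold qf8
  push_cast
  ring

/-- real function of eS8 -/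
noncomputable def f_eS8 (x y t : ℝ) : ℝ := f_eS7 x y t + qf8 x y * Zg 8 8 (f_eP x y t) (f_eM x y t)

theorem v_eS8 (x y t : ℝ) : val eS8 x y t = 810810000000000000000000000000000000000000000000 * (f_eS8 x y t) := by
  simp only [nd3, nd5, nd14, nd15, nd16, nd311, nd329, eS8, v_eW8, v_eS7, v_eq8, val_f, val_h, val_m]
  unfold f_eS8
  push_cast
  ring

theorem v_eq9 (x y t : ℝ) : val eq9 x y t = 40960000000000000000000000000000 * (qf9 x y) := by
  simp only [nd0, nd1, nd3, nd5, nd55, nd58, nd74, nd83, nd332, nd333, nd334, nd335, nd336, nd337, nd338, nd339, nd340, nd341, nd342, nd343, nd344, nd345, nd346, nd347, nd348, nd349, nd350, nd351, nd352, nd353, nd354, nd355, nd356, nd357, nd358, nd359, eq9, val_f, val_h, val_m, val_vx, val_vy]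
  unfold qf9
  push_cast
  ring

/-- real function of eS9 -/
noncomputable def f_eS9 (x y t : ℝ) : ℝ := f_eS8 x y t + qf9 x y * Zg 8 9 (f_eP x y t) (f_eM x y t)

theorem v_eS9 (x y t : ℝ) : val eS9 x y t = 283783500000000000000000000000000000000000000000000 * (f_eS9 x y t) := by
  simp only [nd3, nd5, nd14, nd15, nd16, nd331, nd361, eS9, v_eW9, v_eS8, v_eq9, val_f, val_h, val_m]
  unfold f_eS9
  push_cast
  ring

theorem v_eq10 (x y t : ℝ) : val eq10 x y t = 10240000000000000000000000000000 * (qf10 x y) := by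
  simp only [nd0, nd1, nd3, nd5, nd55, nd58, nd74, nd83, nd364, nd365, nd366, nd367, nd368, nd369, nd370, nd371, nd372, nd373, nd374, nd375, nd376, nd377, nd378, nd379, nd380, nd381, nd382, nd383, nd384, nd385, nd386, nd387, nd388, nd389, nd390, nd391, eq10, val_f, val_h, val_m, val_vx, val_vy]
  unfold qf10
  push_cast
  ring

/-- real function of eS10 -/
noncomputable def f_eS10 (x y t : ℝ) : ℝ := f_eS9 x y t + qf10 x y * Zg 8 10 (f_eP x y t) (f_eM x y t)

theorem v_eS10 (x y t : ℝ) : val eS10 x y t = 35472937500000000000000000000000000000000000000000000 * (f_eS10 x y t) := by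
  simp only [nd3, nd5, nd14, nd15, nd16, nd363, nd393, eS10, v_eW10, v_eS9, v_eq10, val_f, val_h, val_m]
  unfold f_eS10
  push_cast
  ring

theorem v_eq11 (x y t : ℝ) : val eq11 x y t = 10240000000000000000000000000000 * (qf11 x y) := by
  simp only [nd0, nd1, nd3, nd5, nd55, nd58, nd74, nd83, nd396, nd397, nd398, nd399, nd400, nd401, nd402, nd403, nd404, nd405, nd406, nd407, nd408, nd409, nd410, nd411, nd412, nd413, nd414, nd415, nd416, nd417, nd418, nd419, nd420, nd421, nd422, nd423, eq11, val_f, val_h, val_m, val_vx, val_vy]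
  unfold qf11
  push_cast
  ring

/-- real function of eS11 -/
noncomputable def f_eS11 (x y t : ℝ) : ℝ := f_eS10 x y t + qf11 x y * Zg 8 11 (f_eP x y t) (f_eM x y t)

theorem v_eS11 (x y t : ℝ) : val eS11 x y t = 1773646875000000000000000000000000000000000000000000000 * (f_eS11 x y t) := by
  simp only [nd3, nd5, nd14, nd15, nd16, nd395, nd425, eS11, v_eW11, v_eS10, v_eq11, val_f, val_h, val_m]
  unfold f_eS11
  push_cast
  ring

theorem v_eB (x y t : ℝ) : val eB x y t = 312500000 * (base (f_eT x y t)) := by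
  simp only [nd3, nd5, nd14, nd15, nd16, nd427, nd428, nd429, nd430, nd431, eB, v_eT, val_f, val_h, val_m]
  unfold base
  push_cast
  ring

/-- real function of eR1 -/
noncomputable def f_eR1 (x y t : ℝ) : ℝ := (1 - x) * (1 - y)

theorem v_eR1 (x y t : ℝ) : val eR1 x y t = 1 * (f_eR1 x y t) := by
  simp only [nd0, nd1, nd3, nd5, nd433, nd434, eR1, val_f, val_h, val_m, val_vx, val_vy]
  unfold f_eR1
  push_cast
  ring

/-- real function of eKPL -/
noncomputable def f_eKPL (x y t : ℝ) : ℝ := f_eS11 x y t + (f_eR1 x y t * (((313 / 10000) * base (f_eT x y t)) * ((91 / 200) - f_eT x y t)))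

theorem v_eKPL (x y t : ℝ) : val eKPL x y t = 1773646875000000000000000000000000000000000000000000000 * (f_eKPL x y t) := by
  simp only [nd3, nd5, nd9, nd14, nd15, nd16, nd436, nd437, nd438, nd439, nd440, nd441, nd442, nd443, nd444, eKPL, v_eT, v_eS11, v_eB, v_eR1, val_f, val_h, val_m]
  unfold f_eKPL
  push_cast
  ring

/-- real function of g0L -/
noncomputable def f_g0L (x y t : ℝ) : ℝ := -(f_eKPL x y t + ((1 / 18750000) * base (f_eT x y t)))

theorem v_g0L (x y t : ℝ) : val g0L x y t = 1773646875000000000000000000000000000000000000000000000 * (f_g0L x y t) := by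
  simp only [nd3, nd5, nd9, nd14, nd15, nd16, nd439, nd440, nd441, nd442, nd446, nd447, nd448, nd449, g0L, v_eB, v_eKPL, val_f, val_h, val_m]
  unfold f_g0L
  push_cast
  ring


theorem KT_eq (x y t : ℝ) : f_eS11 x y t = Kt 11 4 cA x y (f_eP x y t) (f_eM x y t) := by
  rw [Kt_eq]
  simp only [f_eS11, f_eS10, f_eS9, f_eS8, f_eS7, f_eS6, f_eS5, f_eS4, f_eS3, f_eS2, f_eS1]

/-- `T` in the lower chart. -/
noncomputable def TL (x y v : ℝ) : ℝ := -1 / 2 - v * (1 / 2 - 1 / 5 * (x + y) - 2 / 25 * (x * y))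

theorem TLx (x y t : ℝ) : f_eT x y t = TL x y t := by
  unfold f_eT TL
  ring

theorem KTx (x y t : ℝ) : f_eS11 x y t = Ktx x y (TL x y t) := by
  rw [KT_eq]
  unfold Ktx f_eP f_eM
  rw [TLx]

/-- parameters -/
def P0L : Par := ⟨555, 14, 14, 11, 256, 256, 256, 512, 512, 512⟩

theorem hP0L : chkPar P0L g0L = true := by decide +kernel

/-- kinds -/
def ks (k : ℕ) : Par × Ex :=
  match k with
  | _ => (P0L, g0L)

lemma hks : ∀ k < 1, chkPar (ks k).1 (ks k).2 = true := by
  intro k hk
  interval_cases k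
  · exact hP0L

/-- subtree -/
def T0 : Tm := (.sx 128 (.st 64 (.lf 0) (.lf 0)) (.lf 0))
theorem hT0 : chkTm ks 1 256 256 256 T0 ⟨0, 256, 0, 128, 0, 128⟩ = true := by decide +kernel
/-- subtree -/
def T1 : Tm := (.lf 0)
theorem hT1 : chkTm ks 1 256 256 256 T1 ⟨0, 256, 0, 128, 128, 192⟩ = true := by decide +kernel
/-- subtree -/
def T2 : Tm := (.sx 128 (.lf 0) (.lf 0))
theorem hT2 : chkTm ks 1 256 256 256 T2 ⟨0, 256, 0, 128, 192, 224⟩ = true := by decide +kernel
/-- subtree -/
def T3 : Tm := (.st 240 (.lf 0) (.sx 128 (.st 248 (.lf 0) (.st 252 (.lf 0) (.st 254 (.lf 0) (.st 255 (.lf 0) (.sx 64 (.sy 64 (.lf 0) (.lf 0)) (.lf 0)))))) (.lf 0)))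
theorem hT3 : chkTm ks 1 256 256 256 T3 ⟨0, 256, 0, 128, 224, 256⟩ = true := by decide +kernel
/-- subtree -/
def T4 : Tm := .st 224 T2 T3
theorem hT4 : chkTm ks 1 256 256 256 T4 ⟨0, 256, 0, 128, 192, 256⟩ = true := gluem_t hT2 hT3
/-- subtree -/
def T5 : Tm := .st 192 T1 T4
theorem hT5 : chkTm ks 1 256 256 256 T5 ⟨0, 256, 0, 128, 128, 256⟩ = true := gluem_t hT1 hT4
/-- subtree -/
def T6 : Tm := .st 128 T0 T5
theorem hT6 : chkTm ks 1 256 256 256 T6 ⟨0, 256, 0, 128, 0, 256⟩ = true := gluem_t hT0 hT5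
/-- subtree -/
def T7 : Tm := (.sx 64 .sk (.sy 192 (.lf 0) .sk))
theorem hT7 : chkTm ks 1 256 256 256 T7 ⟨0, 128, 128, 256, 0, 256⟩ = true := by decide +kernel
/-- subtree -/
def T8 : Tm := (.sx 192 (.sx 160 (.st 128 (.sy 160 (.lf 0) (.lf 0)) (.lf 0)) (.sy 160 (.st 128 (.lf 0) (.lf 0)) (.st 128 (.lf 0) (.lf 0)))) (.lf 0))
theorem hT8 : chkTm ks 1 256 256 256 T8 ⟨128, 256, 128, 192, 0, 256⟩ = true := by decide +kernel
/-- subtree -/
def T9 : Tm := (.sx 192 (.lf 0) (.lf 0))
theorem hT9 : chkTm ks 1 256 256 256 T9 ⟨128, 256, 192, 256, 0, 256⟩ = true := by decide +kernel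
/-- subtree -/
def T10 : Tm := .sy 192 T8 T9
theorem hT10 : chkTm ks 1 256 256 256 T10 ⟨128, 256, 128, 256, 0, 256⟩ = true := gluem_y hT8 hT9
/-- subtree -/
def T11 : Tm := .sx 128 T7 T10
theorem hT11 : chkTm ks 1 256 256 256 T11 ⟨0, 256, 128, 256, 0, 256⟩ = true := gluem_x hT7 hT10
/-- subtree -/
def T12 : Tm := .sy 128 T6 T11
theorem hT12 : chkTm ks 1 256 256 256 T12 ⟨0, 256, 0, 256, 0, 256⟩ = true := gluem_y hT6 hT11

theorem cover (x y t : ℝ) (hyx : y ≤ x) (hx0 : 0 ≤ x) (hx1 : x ≤ 1)
    (hy0 : 0 ≤ y) (hy1 : y ≤ 1)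
    (ht0 : 0 ≤ t) (ht1 : t ≤ 1) :
    ∃ k < 1, 0 ≤ val (ks k).2 x y t := by
  refine chkTm_sound ks 1 256 256 256 (by norm_num) (by norm_num) hks T12 ⟨0, 256, 0, 256, 0, 256⟩ hT12 x y t hyx
    ?_ ?_ ?_ ?_ ?_ ?_ <;> push_cast <;> linarith


theorem good (x y t : ℝ) (h : ∃ k < 1, 0 ≤ val (ks k).2 x y t) :
    NegP x y (TL x y t) (313 / 10000 * base (TL x y t) * (91 / 200 - TL x y t)) := by
  obtain ⟨k, hk, h⟩ := h
  have hk0 : k = 0 := by omega
  subst hk0
  have h1 : 0 ≤ val g0L x y t := h
  rw [v_g0L] at h1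
  have h2 : 0 ≤ f_g0L x y t := nonneg_of_mul_nonneg_right h1 (by norm_num)
  unfold f_g0L f_eKPL at h2
  rw [KTx, TLx] at h2
  unfold NegP EE
  unfold f_eR1 at h2
  linarith

lemma TL_symm (x y v : ℝ) : TL x y v = TL y x v := by unfold TL; ring

/-- All points of the lower chart. -/
theorem region (x y v : ℝ) (hx0 : 0 ≤ x) (hx1 : x ≤ 1) (hy0 : 0 ≤ y) (hy1 : y ≤ 1)
    (ht0 : 0 ≤ v) (ht1 : v ≤ 1) :
    Good x y (TL x y v) (313 / 10000 * base (TL x y v) * (91 / 200 - TL x y v)) := by
  rcases le_total y x with h | h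
  · exact Or.inl (good x y v (cover x y v h (by linarith) (by linarith) (by linarith) (by linarith)
      (by linarith) (by linarith)))
  · have h1 := good y x v (cover y x v h (by linarith) (by linarith) (by linarith) (by linarith)
      (by linarith) (by linarith))
    rw [TL_symm y x] at h1
    exact Good_symm _ _ _ _ (Or.inl h1)

end Pool.Agent.Lib.MP_f1379f_gt.FV.CK.Lr
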