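import Pool.Agent.Lib.MP_f1379f_gt.FV.Defs

/-!
# MP_f1379f_gt, full Q1: variables of the certificate

`rr u = 1` at contact (`|u| = 1`), `rr u = 0` for `|u|^2 ≤ 3/5` (empty cap); `TT u v ≤ 1/2` for all
pairs of an admissible configuration, with equality iff the two points touch.
-/

set_option autoImplicit false

namespace Pool.Agent.Lib.MP_f1379f_gt.FV

/-- Truncated radial variable. -/
noncomputable def rr (u : E) : ℝ := max 0 ((5 * ‖u‖ ^ 2 - 3) / 2)

/-- Angular variable of a pair. -/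
noncomputable def TT (u v : E) : ℝ := inner ℝ u v + (1 - ‖u‖ ^ 2) * (1 - ‖v‖ ^ 2) / 2

/-- The polynomial `(T+1)(T+1/2)^2 T^2`. -/
noncomputable def base (T : ℝ) : ℝ := (T + 1) * (T + 1 / 2) ^ 2 * T ^ 2

/-- `E(T) = (8/3)(T+1)(T+1/2)^2 T^2`, `E(1/2) = 1`. -/
noncomputable def EE (T : ℝ) : ℝ := 8 / 3 * base T

/-- Pair slack function (it is multiplied by `rr u ^ 4 * rr v ^ 4`). -/
noncomputable def psi (T : ℝ) : ℝ :=
  if T ≤ 2 / 5 then 313 / 10000 * base T * (91 / 200 - T)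
  else max (7 / 2000 * (1 / 2 - T)) (min (8 / 1000 * (1 / 2 - T)) (12 / 100000))

end Pool.Agent.Lib.MP_f1379f_gt.FV
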