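import Pool.Agent.Lib.MP_f1379f_gt.EV.Defs

/-!
# MP_f1379f_gt, full Q1: definitions

Coordinates `u = 2x/|x|^2` for the centres `x` of a packing with centre 0.  The Voronoi cell of 0 is
the polar body `{y | <u,y> ≤ 1}`; `|x| ≥ 2` is `|u| ≤ 1`; `|x - x'| ≥ 2` is
`2<u,u'> ≤ |u|^2 + |u'|^2 - |u|^2 |u'|^2`.  All truncations are at `rho^2 = 5/3`.
-/

set_option autoImplicit false

namespace Pool.Agent.Lib.MP_f1379f_gt.FV

open MeasureTheory

/-- Euclidean 8-space (the same as `EV.E`). -/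
abbrev E := EuclideanSpace ℝ (Fin 8)

/-- Euclidean 6-space. -/
abbrev E6 := EuclideanSpace ℝ (Fin 6)

/-- Admissible finite configurations in the inverted coordinates. -/
structure Adm (U : Finset E) : Prop where
  ne : ∀ u ∈ U, u ≠ 0
  le_one : ∀ u ∈ U, ‖u‖ ≤ 1
  sep : ∀ u ∈ U, ∀ v ∈ U, u ≠ v →
    2 * (inner ℝ u v : ℝ) ≤ ‖u‖ ^ 2 + ‖v‖ ^ 2 - ‖u‖ ^ 2 * ‖v‖ ^ 2

/-- The polar body (Voronoi cell) of a finite configuration. -/
def poly (U : Finset E) : Set E := {y | ∀ u ∈ U, (inner ℝ u y : ℝ) ≤ 1}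

/-- The open ball of radius `rho`, `rho^2 = 5/3`. -/
def bal : Set E := {y | ‖y‖ ^ 2 < 5 / 3}

/-- The cap cut off from the ball by `u`. -/
def cap (u : E) : Set E := {y | ‖y‖ ^ 2 < 5 / 3 ∧ 1 < (inner ℝ u y : ℝ)}

/-- Volume of one cap. -/
noncomputable def v1 (u : E) : ℝ := (volume (cap u)).toReal

/-- Volume of the intersection of two caps. -/
noncomputable def v2 (u v : E) : ℝ := (volume (cap u ∩ cap v)).toReal

/-- Volume of the intersection of three caps. -/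
noncomputable def v3 (u v w : E) : ℝ := (volume (cap u ∩ cap v ∩ cap w)).toReal

/-- Three unit vectors with mutual inner products 1/2. -/
noncomputable def e0 : E := WithLp.toLp 2 ![1, 0, 0, 0, 0, 0, 0, 0]

/-- See `e0`. -/
noncomputable def e1 : E := WithLp.toLp 2 ![1 / 2, 1 / 2, 1 / 2, 1 / 2, 0, 0, 0, 0]

/-- See `e0`. -/
noncomputable def e2 : E := WithLp.toLp 2 ![1 / 2, 1 / 2, 0, 0, 1 / 2, 1 / 2, 0, 0]

/-- Cap volume of a contact point (`= .0801890..`). -/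
noncomputable def c1 : ℝ := v1 e0

/-- Pair volume of two touching contact points (`= 6.1871..e-4`). -/
noncomputable def g11 : ℝ := v2 e0 e1

/-- Triple volume of three mutually touching contact points (`= 3.9332..e-6`). -/
noncomputable def s3 : ℝ := v3 e0 e1 e2

/-- Pair energy of the certificate: `G = g11 - 9 s3` (`= 5.8331..e-4`). -/
noncomputable def GG : ℝ := g11 - 9 * s3

/-! ## The geometry of a pair -/

/-- Gram determinant. -/
noncomputable def Dt (u v : E) : ℝ := ‖u‖ ^ 2 * ‖v‖ ^ 2 - (inner ℝ u v : ℝ) ^ 2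

/-- The circumcentre: the vector `c` of `span(u,v)` with `<c,u> = <c,v> = 1`. -/
noncomputable def cc (u v : E) : E :=
  ((‖v‖ ^ 2 - (inner ℝ u v : ℝ)) / Dt u v) • u + ((‖u‖ ^ 2 - (inner ℝ u v : ℝ)) / Dt u v) • v

/-- `m = 1 - |c|^2/2`. -/
noncomputable def mm (u v : E) : ℝ := 1 - ‖cc u v‖ ^ 2 / 2

/-- The component of `w` orthogonal to `u` and `v`. -/
noncomputable def pe (u v w : E) : E :=
  w - ((‖v‖ ^ 2 * (inner ℝ u w : ℝ) - (inner ℝ u v : ℝ) * (inner ℝ v w : ℝ)) / Dt u v) • u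
    - ((‖u‖ ^ 2 * (inner ℝ v w : ℝ) - (inner ℝ u v : ℝ) * (inner ℝ u w : ℝ)) / Dt u v) • v

/-- The normalised link vector of `w`. -/
noncomputable def pw (u v w : E) : E :=
  (mm u v / (Real.sqrt ((1 + mm u v) / 2) * (1 - (inner ℝ (cc u v) w : ℝ)))) • pe u v w

/-- The virtual touching point in the normal direction `n`. -/
noncomputable def wst (u v n : E) : E :=
  (1 / 2 : ℝ) • cc u v + Real.sqrt ((1 + mm u v) / 2) • n

/-- Relevant pairs (caps overlap). -/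
structure RP (u v : E) : Prop where
  D : 0 < Dt u v
  ulo : 3 / 5 < ‖u‖ ^ 2
  uhi : ‖u‖ ≤ 1
  vlo : 3 / 5 < ‖v‖ ^ 2
  vhi : ‖v‖ ≤ 1
  plo : 1 / 5 < (inner ℝ u v : ℝ)
  phi : (inner ℝ u v : ℝ) ≤ 1 / 2
  mlo : 1 / 6 < mm u v
  mhi : mm u v ≤ 1 / 3

/-- A possible third point for the pair `u, v`. -/
structure LW (u v w : E) : Prop where
  nrm : ‖w‖ ≤ 1
  wu : (inner ℝ w u : ℝ) ≤ 1 / 2
  wv : (inner ℝ w v : ℝ) ≤ 1 / 2

/-- The decay function of the link weights (`x = 1 - |p|^2`): `((1-2x)/(1-x))_+^{7/2}`. -/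
noncomputable def sig (x : ℝ) : ℝ := Real.sqrt ((1 - 2 * x) / (1 - x)) ^ 7

end Pool.Agent.Lib.MP_f1379f_gt.FV
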