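import Pool.Agent.Lib.MP_f1379f_gt.FV.PVA
import Pool.Agent.Lib.MP_f1379f_gt.FV.Defs

section
/-!
# PVB: volume of the intersection of two caps as an integral over the circle
-/
set_option autoImplicit false

namespace Pool.Agent.Lib.MP_f1379f_gt.FV.PV

open MeasureTheory Pool.Agent.Lib.MP_f1379f_gt.EV Real

/-- `(R - m^{-2})_+^4` for `m > 0`, and `0` otherwise. -/
noncomputable def Psi (R m : ℝ) : ℝ := if 0 < m then (max 0 (R - 1 / m ^ 2)) ^ 4 else 0

/-- Volume of balls in dimension 6, radius squared `t`. -/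
theorem vol_E6 (t : ℝ) :
    volume {w : E6 | ‖w‖ ^ 2 < t} = ENNReal.ofReal (π ^ 3 / 6 * (max 0 t) ^ 3) := by
  have hs : {w : E6 | ‖w‖ ^ 2 < t} = Metric.ball (0 : E6) (√(max 0 t)) := by
    ext w
    simp only [Set.mem_ofPred_eq, mem_ball_zero_iff]
    rw [Real.lt_sqrt (norm_nonneg _)]
    constructor
    · intro h; exact lt_of_lt_of_le h (le_max_right _ _)
    · intro h
      rcases lt_or_ge t 0 with h0 | h0
      · rw [max_eq_left h0.le] at h
        exact absurd h (not_lt.mpr (sq_nonneg _))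
      · rwa [max_eq_right h0] at h
  rw [hs, EuclideanSpace.volume_ball, Fintype.card_fin, ← ENNReal.ofReal_pow (Real.sqrt_nonneg _),
    ← ENNReal.ofReal_mul (by positivity)]
  congr 1
  have h1 : √(max 0 t) ^ 6 = (max 0 t) ^ 3 := by
    rw [show (6 : ℕ) = 2 * 3 by norm_num, pow_mul, Real.sq_sqrt (le_max_left _ _)]
  have h2 : √π ^ 6 = π ^ 3 := by
    rw [show (6 : ℕ) = 2 * 3 by norm_num, pow_mul, Real.sq_sqrt Real.pi_pos.le]
  have h3 : Real.Gamma ((6 : ℕ) / 2 + 1) = 6 := by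
    have : ((6 : ℕ) / 2 + 1 : ℝ) = ((3 : ℕ) : ℝ) + 1 := by norm_num
    rw [this, Real.Gamma_nat_eq_factorial]
    norm_num [Nat.factorial]
  rw [h1, h2, h3]
  ring

/-- The radial integral. -/
theorem radial (R m : ℝ) :
    ∫⁻ r in Set.Ioi (0 : ℝ), ENNReal.ofReal r * (if 1 < r * m then
      ENNReal.ofReal (π ^ 3 / 6 * (max 0 (R - r ^ 2)) ^ 3) else 0) =
      ENNReal.ofReal (π ^ 3 / 48 * Psi R m) := by
  rcases le_or_gt m 0 with hm | hm
  · rw [Psi, if_neg (not_lt.mpr hm), mul_zero, ENNReal.ofReal_zero]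
    rw [setLIntegral_congr_fun (g := fun _ => 0) measurableSet_Ioi]
    · simp
    · intro r hr
      have hr' : (0 : ℝ) < r := hr
      have : ¬ (1 < r * m) := by
        have : r * m ≤ 0 := mul_nonpos_of_nonneg_of_nonpos hr'.le hm
        linarith
      simp [this]
  rw [Psi, if_pos hm]
  have him : 0 < 1 / m := by positivity
  rcases le_or_gt (R - 1 / m ^ 2) 0 with hR | hR
  · rw [max_eq_left hR]
    rw [setLIntegral_congr_fun (g := fun _ => 0) measurableSet_Ioi]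
    · simp
    · intro r hr
      have hr' : (0 : ℝ) < r := hr
      by_cases h : 1 < r * m
      · have h1 : 1 / m < r := by rwa [div_lt_iff₀ hm]
        have h2 : (1 / m) ^ 2 < r ^ 2 := by
          apply pow_lt_pow_left₀ h1 him.le (by norm_num)
        have h3 : R - r ^ 2 ≤ 0 := by
          rw [div_pow, one_pow] at h2
          linarith
        simp [h, max_eq_left h3]
      · simp [h]
  · have hRp : 0 < R := by
      have : 0 < 1 / m ^ 2 := by positivity
      linarith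
    have hlt : 1 / m < √R := by
      rw [Real.lt_sqrt him.le, div_pow, one_pow]
      linarith
    have e1 : ∫⁻ r in Set.Ioi (0 : ℝ), ENNReal.ofReal r * (if 1 < r * m then
        ENNReal.ofReal (π ^ 3 / 6 * (max 0 (R - r ^ 2)) ^ 3) else 0) =
        ∫⁻ r in Set.Ioc (1 / m) (√R), ENNReal.ofReal (π ^ 3 / 6 * (r * (R - r ^ 2) ^ 3)) := by
      have hsub : Set.Ioc (1 / m) (√R) ⊆ Set.Ioi (0 : ℝ) := by
        intro r hr
        exact lt_trans him hr.1
      rw [← lintegral_indicator measurableSet_Ioi, ← lintegral_indicator measurableSet_Ioc]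
      apply lintegral_congr
      intro r
      by_cases hr : 0 < r
      · rw [Set.indicator_of_mem (show r ∈ Set.Ioi (0 : ℝ) from hr)]
        by_cases h1 : 1 < r * m
        · have h2 : 1 / m < r := by rwa [div_lt_iff₀ hm]
          rw [if_pos h1]
          by_cases h3 : r ≤ √R
          · rw [Set.indicator_of_mem (show r ∈ Set.Ioc (1 / m) (√R) from ⟨h2, h3⟩)]
            have h4 : r ^ 2 ≤ R := by
              rw [← Real.sq_sqrt hRp.le]
              exact pow_le_pow_left₀ hr.le h3 2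
            rw [max_eq_right (by linarith), ← ENNReal.ofReal_mul hr.le]
            congr 1
            ring
          · rw [Set.indicator_of_notMem (fun h => h3 h.2)]
            have h4 : R < r ^ 2 := by
              rw [← Real.sq_sqrt hRp.le]
              exact pow_lt_pow_left₀ (not_le.mp h3) (Real.sqrt_nonneg _) (by norm_num)
            rw [max_eq_left (by linarith)]
            simp
        · have h2 : ¬ (1 / m < r) := by rwa [div_lt_iff₀ hm]
          rw [if_neg h1, mul_zero, Set.indicator_of_notMem (fun h => h2 h.1)]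
      · rw [Set.indicator_of_notMem (show r ∉ Set.Ioi (0 : ℝ) from hr),
          Set.indicator_of_notMem (fun h => hr (hsub h))]
    rw [e1, ← ofReal_integral_eq_lintegral_ofReal, ← intervalIntegral.integral_of_le hlt.le]
    · congr 1
      have hder : ∀ r ∈ Set.uIcc (1 / m) (√R), HasDerivAt
          (fun r : ℝ => -(π ^ 3 / 48) * (R - r ^ 2) ^ 4)
          (π ^ 3 / 6 * (r * (R - r ^ 2) ^ 3)) r := by
        intro r _
        have h1 : HasDerivAt (fun r : ℝ => R - r ^ 2) (0 - (2 : ℕ) * r ^ (2 - 1) * 1) r :=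
          (hasDerivAt_const r R).sub ((hasDerivAt_id r).pow 2)
        have h2 := (h1.pow 4).const_mul (-(π ^ 3 / 48))
        refine h2.congr_deriv ?_
        push_cast
        ring
      rw [intervalIntegral.integral_eq_sub_of_hasDerivAt hder]
      · rw [max_eq_right hR.le, Real.sq_sqrt hRp.le, div_pow, one_pow]
        ring
      · apply Continuous.intervalIntegrable
        fun_prop
    · apply Continuous.integrableOn_Ioc
      fun_prop
    · apply (ae_restrict_iff' measurableSet_Ioc).mpr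
      refine Filter.Eventually.of_forall fun r hr => ?_
      have hr0 : 0 < r := lt_trans him hr.1
      have h4 : r ^ 2 ≤ R := by
        rw [← Real.sq_sqrt hRp.le]
        exact pow_le_pow_left₀ hr0.le hr.2 2
      have h5 : 0 ≤ R - r ^ 2 := by linarith
      simp only [Pi.zero_apply]
      positivity

end Pool.Agent.Lib.MP_f1379f_gt.FV.PV
end

section
/-!
# PVC: volume of the intersection of two caps as an integral over the circle
-/
set_option autoImplicit false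
set_option linter.unusedSimpArgs false

namespace Pool.Agent.Lib.MP_f1379f_gt.FV.PV

open MeasureTheory Pool.Agent.Lib.MP_f1379f_gt.EV Real

/-- Intersection of two caps of the ball of radius squared `R`. -/
def lens (R : ℝ) (u v : E) : Set E := {y | ‖y‖ ^ 2 < R ∧ 1 < inner ℝ y u ∧ 1 < inner ℝ y v}

theorem lens_eq_lintegral (R : ℝ) (u v : E) (φ : E ≃ₗᵢ[ℝ] W) (μ α β : ℝ)
    (hu : φ u = WithLp.toLp 2 ((⟨μ, α⟩ : ℂ), (0 : E6)))
    (hv : φ v = WithLp.toLp 2 ((⟨μ, -β⟩ : ℂ), (0 : E6))) :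
    volume (lens R u v) = ∫⁻ z : ℂ, if 1 < μ * z.re + α * z.im ∧ 1 < μ * z.re - β * z.im then
      ENNReal.ofReal (π ^ 3 / 6 * (max 0 (R - ‖z‖ ^ 2)) ^ 3) else 0 := by
  let T' : Set (ℂ × E6) := {q | ‖q.1‖ ^ 2 + ‖q.2‖ ^ 2 < R ∧ 1 < μ * q.1.re + α * q.1.im ∧
    1 < μ * q.1.re - β * q.1.im}
  have hT' : MeasurableSet T' := by
    have c1 : Continuous (fun q : ℂ × E6 => ‖q.1‖ ^ 2 + ‖q.2‖ ^ 2) := by fun_prop
    have cr : Continuous (fun q : ℂ × E6 => q.1.re) := Complex.continuous_re.comp continuous_fst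
    have ci : Continuous (fun q : ℂ × E6 => q.1.im) := Complex.continuous_im.comp continuous_fst
    have c2 : Continuous (fun q : ℂ × E6 => μ * q.1.re + α * q.1.im) := by fun_prop
    have c3 : Continuous (fun q : ℂ × E6 => μ * q.1.re - β * q.1.im) := by fun_prop
    exact ((isOpen_lt c1 continuous_const).inter ((isOpen_lt continuous_const c2).inter
      (isOpen_lt continuous_const c3))).measurableSet
  have hmp : MeasurePreserving (fun y : E => (WithLp.ofLp (φ y) : ℂ × E6)) volume volume :=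
    (WithLp.volume_preserving_ofLp ℂ E6).comp φ.measurePreserving
  have hpre : lens R u v = (fun y : E => (WithLp.ofLp (φ y) : ℂ × E6)) ⁻¹' T' := by
    ext y
    have h1 : ‖y‖ ^ 2 = ‖(WithLp.ofLp (φ y)).1‖ ^ 2 + ‖(WithLp.ofLp (φ y)).2‖ ^ 2 := by
      rw [← φ.norm_map y, WithLp.prod_norm_sq_eq_of_L2]
      rfl
    have h2 : inner ℝ y u = μ * (WithLp.ofLp (φ y)).1.re + α * (WithLp.ofLp (φ y)).1.im := by
      rw [← φ.inner_map_map, hu, WithLp.prod_inner_apply]
      simp [Complex.inner]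
    have h3 : inner ℝ y v = μ * (WithLp.ofLp (φ y)).1.re - β * (WithLp.ofLp (φ y)).1.im := by
      rw [← φ.inner_map_map, hv, WithLp.prod_inner_apply]
      simp [Complex.inner]
    simp only [lens, T', Set.mem_ofPred_eq, Set.mem_preimage]
    rw [h1, h2, h3]
  rw [hpre, hmp.measure_preimage hT'.nullMeasurableSet, Measure.volume_eq_prod,
    Measure.prod_apply hT']
  apply lintegral_congr
  intro z
  split_ifs with h
  · rw [← vol_E6]
    congr 1
    ext w
    simp only [T', Set.mem_preimage, Set.mem_ofPred_eq]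
    constructor
    · intro hh; linarith [hh.1]
    · intro hh; exact ⟨by linarith, h⟩
  · have he : Prod.mk z ⁻¹' T' = ∅ := by
      ext w
      simp only [T', Set.mem_preimage, Set.mem_ofPred_eq, Set.mem_empty_iff_false, iff_false]
      intro hh
      exact h hh.2
    rw [he, measure_empty]

/-- The circle formula for the volume of the intersection of two caps. -/
theorem lens_eq_circle (R : ℝ) (u v : E) (φ : E ≃ₗᵢ[ℝ] W) (μ α β : ℝ)
    (hu : φ u = WithLp.toLp 2 ((⟨μ, α⟩ : ℂ), (0 : E6)))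
    (hv : φ v = WithLp.toLp 2 ((⟨μ, -β⟩ : ℂ), (0 : E6))) :
    volume (lens R u v) = ∫⁻ t in Set.Ioo (-π) π, ENNReal.ofReal (π ^ 3 / 48 *
      Psi R (min (μ * cos t + α * sin t) (μ * cos t - β * sin t))) := by
  rw [lens_eq_lintegral R u v φ μ α β hu hv, ← Complex.lintegral_comp_polarCoord_symm,
    Measure.volume_eq_prod]
  have htar : polarCoord.target = Set.Ioi (0 : ℝ) ×ˢ Set.Ioo (-π) π := rfl
  have hmeas : Measurable (fun p : ℝ × ℝ => ENNReal.ofReal p.1 •
      (if 1 < μ * (Complex.polarCoord.symm p).re + α * (Complex.polarCoord.symm p).im ∧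
        1 < μ * (Complex.polarCoord.symm p).re - β * (Complex.polarCoord.symm p).im then
        ENNReal.ofReal (π ^ 3 / 6 * (max 0 (R - ‖Complex.polarCoord.symm p‖ ^ 2)) ^ 3) else 0)) := by
    have e1 : ∀ p : ℝ × ℝ, (Complex.polarCoord.symm p).re = p.1 * cos p.2 := by
      intro p; simp [← Complex.ofReal_cos, ← Complex.ofReal_sin]
    have e2 : ∀ p : ℝ × ℝ, (Complex.polarCoord.symm p).im = p.1 * sin p.2 := by
      intro p; simp [← Complex.ofReal_cos, ← Complex.ofReal_sin]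
    simp only [e1, e2, Complex.norm_polarCoord_symm, smul_eq_mul]
    refine Measurable.mul (f := fun p : ℝ × ℝ => ENNReal.ofReal p.1) (by fun_prop) ?_
    have m1 : Measurable (fun p : ℝ × ℝ => μ * (p.1 * cos p.2) + α * (p.1 * sin p.2)) := by
      fun_prop
    have m2 : Measurable (fun p : ℝ × ℝ => μ * (p.1 * cos p.2) - β * (p.1 * sin p.2)) := by
      fun_prop
    apply Measurable.ite
    · exact ((measurableSet_lt measurable_const m1).inter (measurableSet_lt measurable_const m2))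
    · fun_prop
    · fun_prop
  rw [htar, setLIntegral_prod_symm _ hmeas.aemeasurable]
  apply lintegral_congr
  intro t
  rw [← radial]
  apply setLIntegral_congr_fun measurableSet_Ioi
  intro r hr
  have hr' : (0 : ℝ) < r := hr
  have e1 : (Complex.polarCoord.symm (r, t)).re = r * cos t := by
    simp [← Complex.ofReal_cos, ← Complex.ofReal_sin]
  have e2 : (Complex.polarCoord.symm (r, t)).im = r * sin t := by
    simp [← Complex.ofReal_cos, ← Complex.ofReal_sin]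
  have hiff : (1 < μ * (r * cos t) + α * (r * sin t) ∧ 1 < μ * (r * cos t) - β * (r * sin t)) ↔
      1 < r * min (μ * cos t + α * sin t) (μ * cos t - β * sin t) := by
    rw [mul_min_of_nonneg _ _ hr'.le, lt_min_iff]
    constructor
    · rintro ⟨h1, h2⟩
      exact ⟨by linarith, by linarith⟩
    · rintro ⟨h1, h2⟩
      exact ⟨by linarith, by linarith⟩
  simp only [e1, e2, Complex.norm_polarCoord_symm, hiff, smul_eq_mul, abs_of_pos hr']

end Pool.Agent.Lib.MP_f1379f_gt.FV.PV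
end

section
/-!
# PVD: the profile function, its tangent inequality, the real circle formula
-/
set_option autoImplicit false

namespace Pool.Agent.Lib.MP_f1379f_gt.FV.PV

open MeasureTheory Real

/-- The excess `5/3 - 1/m^2`, cut off. -/
noncomputable def Ae (m : ℝ) : ℝ := max 0 (5 / 3 - 1 / (max m (1 / 2)) ^ 2)

/-- The profile `(5/3 - m^{-2})_+^4`. -/
noncomputable def P (m : ℝ) : ℝ := Ae m ^ 4

/-- Its derivative. -/
noncomputable def dP (m : ℝ) : ℝ := 8 * Ae m ^ 3 / (max m (1 / 2)) ^ 3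

theorem Ae_nonneg (m : ℝ) : 0 ≤ Ae m := le_max_left _ _

theorem Ae_of_le {m : ℝ} (h : m ^ 2 ≤ 3 / 5) : Ae m = 0 := by
  unfold Ae
  apply max_eq_left
  have h1 : 0 < max m (1 / 2) := lt_of_lt_of_le (by norm_num) (le_max_right _ _)
  have h2 : (max m (1 / 2)) ^ 2 ≤ 3 / 5 := by
    rcases max_choice m (1 / 2) with h3 | h3
    · rw [h3]; exact h
    · rw [h3]; norm_num
  rw [sub_nonpos, le_div_iff₀ (by positivity)]
  linarith

theorem Ae_of_nonpos {m : ℝ} (h : m ≤ 1 / 2) : Ae m = 0 := by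
  unfold Ae
  rw [max_eq_right h]
  norm_num

theorem Ae_of_ge {m : ℝ} (h0 : 0 < m) (h : 3 / 5 ≤ m ^ 2) : Ae m = 5 / 3 - 1 / m ^ 2 ∧ 1 / 2 ≤ m := by
  have h2 : 1 / 2 ≤ m := by nlinarith
  refine ⟨?_, h2⟩
  unfold Ae
  rw [max_eq_left h2, max_eq_right]
  rw [sub_nonneg, div_le_iff₀ (by positivity)]
  linarith

theorem Psi_eq_P (m : ℝ) : Psi (5 / 3) m = P m := by
  unfold Psi P
  split_ifs with h
  · rcases le_total (m ^ 2) (3 / 5) with h1 | h1
    · rw [Ae_of_le h1, max_eq_left]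
      rw [sub_nonpos, le_div_iff₀ (by positivity)]
      linarith
    · rw [(Ae_of_ge h h1).1, max_eq_right]
      rw [sub_nonneg, div_le_iff₀ (by positivity)]
      linarith
  · rw [Ae_of_nonpos (by linarith)]
    norm_num

theorem cont_Ae : Continuous Ae := by
  unfold Ae
  have h : ∀ m : ℝ, (max m (1 / 2)) ^ 2 ≠ 0 := by
    intro m
    have : 0 < max m (1 / 2) := lt_of_lt_of_le (by norm_num) (le_max_right _ _)
    positivity
  exact continuous_const.max (continuous_const.sub (continuous_const.div (by fun_prop) h))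

theorem cont_P : Continuous P := cont_Ae.pow 4

theorem cont_dP : Continuous dP := by
  unfold dP
  have h : ∀ m : ℝ, (max m (1 / 2)) ^ 3 ≠ 0 := by
    intro m
    have : 0 < max m (1 / 2) := lt_of_lt_of_le (by norm_num) (le_max_right _ _)
    positivity
  exact (continuous_const.mul (cont_Ae.pow 3)).div (by fun_prop) h

theorem dP_nonneg (m : ℝ) : 0 ≤ dP m := by
  unfold dP
  have : 0 < max m (1 / 2) := lt_of_lt_of_le (by norm_num) (le_max_right _ _)
  have := Ae_nonneg m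
  positivity

/-- Algebra, case 1. -/
theorem alg1 {x y : ℝ} (hx : 0 < x) (hx1 : x ≤ 1) (hx2 : 3 / 5 ≤ x ^ 2) (hy : 0 < y) (hy1 : y ≤ 1)
    (hy2 : 3 / 5 ≤ y ^ 2) :
    (5 / 3 - 1 / x ^ 2) ^ 4 + 8 * (5 / 3 - 1 / x ^ 2) ^ 3 / x ^ 3 * (y - x) ≤
      (5 / 3 - 1 / y ^ 2) ^ 4 := by
  obtain ⟨a, ha⟩ : ∃ a : ℝ, a = 5 / 3 - 1 / x ^ 2 := ⟨_, rfl⟩
  obtain ⟨b, hb⟩ : ∃ b : ℝ, b = 5 / 3 - 1 / y ^ 2 := ⟨_, rfl⟩
  have ha0 : 0 ≤ a := by
    rw [ha, sub_nonneg, div_le_iff₀ (by positivity)]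
    linarith
  have hb0 : 0 ≤ b := by
    rw [hb, sub_nonneg, div_le_iff₀ (by positivity)]
    linarith
  have hinv : 1 ≤ 1 / x ^ 2 := by
    rw [le_div_iff₀ (by positivity)]
    nlinarith
  have ha1 : a ≤ 2 / 3 := by rw [ha]; linarith
  have key : (y - x) / x ^ 3 * 2 ≤ (b - a) / x ^ 2 * y ^ 2 := by
    have e1 : (b - a) / x ^ 2 * y ^ 2 = (y ^ 2 - x ^ 2) / x ^ 4 := by
      rw [ha, hb]; field_simp; ring
    have e2 : (y - x) / x ^ 3 * 2 = (2 * x * (y - x)) / x ^ 4 := by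
      field_simp
    rw [e1, e2]
    apply div_le_div_of_nonneg_right _ (by positivity)
    nlinarith [sq_nonneg (y - x)]
  have e5 : (b - a) / x ^ 2 * y ^ 2 = (b - a) + (b - a) ^ 2 * y ^ 2 := by
    have : 1 / x ^ 2 = (b - a) + 1 / y ^ 2 := by rw [ha, hb]; ring
    calc (b - a) / x ^ 2 * y ^ 2 = (b - a) * (1 / x ^ 2) * y ^ 2 := by ring
      _ = (b - a) * ((b - a) + 1 / y ^ 2) * y ^ 2 := by rw [this]
      _ = (b - a) + (b - a) ^ 2 * y ^ 2 := by field_simp; ring
  rw [← ha, ← hb]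
  clear ha hb
  have h4 : 4 * a ^ 3 * ((y - x) / x ^ 3 * 2) ≤ 4 * a ^ 3 * ((b - a) + (b - a) ^ 2 * y ^ 2) := by
    rw [← e5]
    exact mul_le_mul_of_nonneg_left key (by positivity)
  have h7 : y ^ 2 ≤ 1 := by nlinarith
  have h8 : a ^ 3 * y ^ 2 ≤ 2 / 3 * a ^ 2 := by
    have : a * y ^ 2 ≤ 2 / 3 := by nlinarith [sq_nonneg y]
    calc a ^ 3 * y ^ 2 = a ^ 2 * (a * y ^ 2) := by ring
      _ ≤ a ^ 2 * (2 / 3) := mul_le_mul_of_nonneg_left this (sq_nonneg a)
      _ = 2 / 3 * a ^ 2 := by ring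
  have h6 := mul_le_mul_of_nonneg_right h8 (sq_nonneg (b - a))
  have h9 : 8 / 3 * a ^ 2 ≤ b ^ 2 + 2 * a * b + 3 * a ^ 2 := by
    nlinarith [mul_nonneg ha0 hb0, sq_nonneg b, sq_nonneg a]
  have h10 := mul_le_mul_of_nonneg_left h9 (sq_nonneg (b - a))
  have e7 : b ^ 4 = a ^ 4 + 4 * a ^ 3 * (b - a) + (b - a) ^ 2 * (b ^ 2 + 2 * a * b + 3 * a ^ 2) := by
    ring
  have e3 : 8 * a ^ 3 / x ^ 3 * (y - x) = 4 * a ^ 3 * ((y - x) / x ^ 3 * 2) := by ring
  rw [e3, e7]
  linarith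

/-- Algebra, case 2. -/
theorem alg2 {x y : ℝ} (hx : 0 < x) (hx1 : x ≤ 1) (hx2 : 3 / 5 ≤ x ^ 2)
    (hy : y ≤ 0 ∨ (y ^ 2 ≤ 3 / 5 ∧ 0 < y)) :
    (5 / 3 - 1 / x ^ 2) ^ 4 + 8 * (5 / 3 - 1 / x ^ 2) ^ 3 / x ^ 3 * (y - x) ≤ 0 := by
  obtain ⟨a, ha⟩ : ∃ a : ℝ, a = 5 / 3 - 1 / x ^ 2 := ⟨_, rfl⟩
  have ha0 : 0 ≤ a := by
    rw [ha, sub_nonneg, div_le_iff₀ (by positivity)]
    linarith
  have e1 : a * x ^ 3 = x * (5 / 3 * x ^ 2 - 1) := by
    rw [ha]; field_simp
  rw [← ha]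
  clear ha
  have hcore : a * x ^ 3 ≤ 8 * (x - y) := by
    rw [e1]
    rcases hy with h1 | ⟨h1, h2⟩
    · have : x * (5 / 3 * x ^ 2 - 1) ≤ x * 1 := by
        apply mul_le_mul_of_nonneg_left _ hx.le
        nlinarith
      linarith
    · have h3 : 5 / 3 * x ^ 2 - 1 ≤ 5 / 3 * ((x - y) * (x + y)) := by nlinarith
      have h4 : 0 ≤ x - y := by
        by_contra hcon
        nlinarith
      have h5 : x * (5 / 3 * (x + y)) ≤ 8 := by nlinarith
      have h6 := mul_le_mul_of_nonneg_left h3 hx.le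
      have h7 := mul_le_mul_of_nonneg_right h5 h4
      have e : x * (5 / 3 * ((x - y) * (x + y))) = x * (5 / 3 * (x + y)) * (x - y) := by ring
      linarith
  have e2 : a ^ 4 + 8 * a ^ 3 / x ^ 3 * (y - x) = a ^ 3 / x ^ 3 * (a * x ^ 3 - 8 * (x - y)) := by
    field_simp
    ring
  rw [e2]
  apply mul_nonpos_of_nonneg_of_nonpos (by positivity)
  linarith

/-- Tangent inequality (convexity of the profile on `(-∞, 1]`). -/
theorem tangent {m0 m : ℝ} (h0 : m0 ≤ 1) (h : m ≤ 1) : P m0 + dP m0 * (m - m0) ≤ P m := by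
  have hpos : 0 ≤ P m := by
    unfold P
    have := Ae_nonneg m
    positivity
  rcases le_or_gt m0 (1 / 2) with hs | hs
  · have h1 : P m0 + dP m0 * (m - m0) = 0 := by
      unfold P dP
      rw [Ae_of_nonpos hs]
      ring
    rw [h1]
    exact hpos
  rcases le_total (m0 ^ 2) (3 / 5) with hs2 | hs2
  · have h1 : P m0 + dP m0 * (m - m0) = 0 := by
      unfold P dP
      rw [Ae_of_le hs2]
      ring
    rw [h1]
    exact hpos
  have hm0 : 0 < m0 := by linarith
  obtain ⟨hA0, _⟩ := Ae_of_ge hm0 hs2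
  have hd : dP m0 = 8 * (5 / 3 - 1 / m0 ^ 2) ^ 3 / m0 ^ 3 := by
    unfold dP
    rw [hA0, max_eq_left hs.le]
  have hP0 : P m0 = (5 / 3 - 1 / m0 ^ 2) ^ 4 := by
    unfold P
    rw [hA0]
  rw [hd, hP0]
  by_cases hc : 0 < m ∧ 3 / 5 ≤ m ^ 2
  · obtain ⟨hm, hm2⟩ := hc
    have hPm : P m = (5 / 3 - 1 / m ^ 2) ^ 4 := by
      unfold P
      rw [(Ae_of_ge hm hm2).1]
    rw [hPm]
    exact alg1 hm0 h0 hs2 hm h hm2
  · refine le_trans (alg2 hm0 h0 hs2 ?_) hpos
    rcases le_or_gt m 0 with h1 | h1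
    · exact Or.inl h1
    · right
      refine ⟨?_, h1⟩
      by_contra h2
      exact hc ⟨h1, (not_le.mp h2).le⟩

end Pool.Agent.Lib.MP_f1379f_gt.FV.PV
end

section
/-!
# PVE: real circle formula and the linear lower bound for the pair volume
-/
set_option autoImplicit false

namespace Pool.Agent.Lib.MP_f1379f_gt.FV.PV

open MeasureTheory Real

theorem cap_inter_eq_lens (u v : E) : cap u ∩ cap v = lens (5 / 3) u v := by
  ext y
  simp only [cap, lens, Set.mem_inter_iff, Set.mem_ofPred_eq]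
  rw [real_inner_comm y u, real_inner_comm y v]
  tauto

/-- The circle formula, half circle form. -/
theorem v2_circle (u v : E) (φ : E ≃ₗᵢ[ℝ] W) (μ α β : ℝ)
    (hu : φ u = WithLp.toLp 2 ((⟨μ, α⟩ : ℂ), (0 : E6)))
    (hv : φ v = WithLp.toLp 2 ((⟨μ, -β⟩ : ℂ), (0 : E6))) (hab : 0 ≤ α + β) :
    v2 u v = π ^ 3 / 48 * ∫ t in (0 : ℝ)..π,
      (P (μ * cos t - α * sin t) + P (μ * cos t - β * sin t)) := by
  have hc : Continuous (fun t : ℝ => P (min (μ * cos t + α * sin t) (μ * cos t - β * sin t))) := by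
    apply cont_P.comp
    exact Continuous.min (by fun_prop) (by fun_prop)
  have hP : ∀ m, 0 ≤ P m := by
    intro m
    unfold P
    have := Ae_nonneg m
    positivity
  have h1 : volume (cap u ∩ cap v) = ENNReal.ofReal (∫ t in (-π)..π,
      π ^ 3 / 48 * P (min (μ * cos t + α * sin t) (μ * cos t - β * sin t))) := by
    rw [cap_inter_eq_lens, lens_eq_circle (5 / 3) u v φ μ α β hu hv,
      intervalIntegral.integral_of_le (by linarith [Real.pi_pos]),
      ofReal_integral_eq_lintegral_ofReal]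
    · rw [setLIntegral_congr Ioo_ae_eq_Ioc]
      simp only [Psi_eq_P]
    · exact (hc.const_mul _).integrableOn_Ioc
    · refine Filter.Eventually.of_forall fun t => ?_
      have := hP (min (μ * cos t + α * sin t) (μ * cos t - β * sin t))
      simp only [Pi.zero_apply]
      positivity
  have hnn : 0 ≤ ∫ t in (-π)..π,
      π ^ 3 / 48 * P (min (μ * cos t + α * sin t) (μ * cos t - β * sin t)) := by
    apply intervalIntegral.integral_nonneg (by linarith [Real.pi_pos])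
    intro t _
    have := hP (min (μ * cos t + α * sin t) (μ * cos t - β * sin t))
    positivity
  unfold v2
  rw [h1, ENNReal.toReal_ofReal hnn, intervalIntegral.integral_const_mul]
  congr 1
  have hint : ∀ a b : ℝ, IntervalIntegrable
      (fun t : ℝ => P (min (μ * cos t + α * sin t) (μ * cos t - β * sin t))) volume a b :=
    fun a b => hc.intervalIntegrable a b
  rw [← intervalIntegral.integral_add_adjacent_intervals (hint (-π) 0) (hint 0 π)]
  have h2 : ∫ t in (-π)..0, P (min (μ * cos t + α * sin t) (μ * cos t - β * sin t)) =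
      ∫ t in (0 : ℝ)..π, P (min (μ * cos (-t) + α * sin (-t)) (μ * cos (-t) - β * sin (-t))) := by
    rw [intervalIntegral.integral_comp_neg
      (fun t => P (min (μ * cos t + α * sin t) (μ * cos t - β * sin t)))]
    simp
  rw [h2, intervalIntegral.integral_add]
  · congr 1
    · apply intervalIntegral.integral_congr
      intro t ht
      rw [Set.uIcc_of_le Real.pi_pos.le] at ht
      have hs : 0 ≤ sin t := sin_nonneg_of_nonneg_of_le_pi ht.1 ht.2
      simp only [cos_neg, sin_neg]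
      congr 1
      rw [min_eq_left]
      · ring
      · nlinarith
    · apply intervalIntegral.integral_congr
      intro t ht
      rw [Set.uIcc_of_le Real.pi_pos.le] at ht
      have hs : 0 ≤ sin t := sin_nonneg_of_nonneg_of_le_pi ht.1 ht.2
      simp only
      congr 1
      rw [min_eq_right]
      nlinarith
  · exact (cont_P.comp (by fun_prop)).intervalIntegrable _ _
  · exact (cont_P.comp (by fun_prop)).intervalIntegrable _ _

/-- The reference argument `cos (t + π/6)`. -/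
noncomputable def m0 (t : ℝ) : ℝ := √3 / 2 * cos t - 1 / 2 * sin t

/-- Constant `C1`. -/
noncomputable def C1 : ℝ := ∫ t in (0 : ℝ)..π, dP (m0 t) * cos t

/-- Constant `S1`. -/
noncomputable def S1 : ℝ := ∫ t in (0 : ℝ)..π, dP (m0 t) * sin t

theorem cont_m0 : Continuous m0 := by unfold m0; fun_prop

theorem le_one_of_sq {a b t r : ℝ} (h : a ^ 2 + b ^ 2 ≤ r ^ 2) (hr : 0 ≤ r) :
    a * cos t - b * sin t ≤ r := by
  have h1 : (a * cos t - b * sin t) ^ 2 ≤ a ^ 2 + b ^ 2 := by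
    nlinarith [sq_nonneg (a * sin t + b * cos t), sin_sq_add_cos_sq t]
  exact le_of_sq_le_sq (le_trans h1 h) hr

theorem m0_le (t : ℝ) : m0 t ≤ 1 := by
  unfold m0
  apply le_one_of_sq _ (by norm_num)
  rw [div_pow, Real.sq_sqrt (by norm_num)]
  norm_num

/-- Linear lower bound in normal form. -/
theorem v2_lower (u v : E) (φ : E ≃ₗᵢ[ℝ] W) (μ α β : ℝ)
    (hu : φ u = WithLp.toLp 2 ((⟨μ, α⟩ : ℂ), (0 : E6)))
    (hv : φ v = WithLp.toLp 2 ((⟨μ, -β⟩ : ℂ), (0 : E6))) (hab : 0 ≤ α + β)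
    (hα : μ ^ 2 + α ^ 2 ≤ 1) (hβ : μ ^ 2 + β ^ 2 ≤ 1) :
    π ^ 3 / 48 * (2 * ∫ t in (0 : ℝ)..π, P (m0 t)) - π ^ 3 / 48 * (2 * C1 * (√3 / 2 - μ) +
      S1 * (α + β - 1)) ≤ v2 u v := by
  rw [v2_circle u v φ μ α β hu hv hab, ← mul_sub]
  apply mul_le_mul_of_nonneg_left _ (by positivity)
  have c1 : Continuous (fun t : ℝ => P (m0 t)) := cont_P.comp cont_m0
  have c2 : Continuous (fun t : ℝ => dP (m0 t) * cos t) := (cont_dP.comp cont_m0).mul continuous_cos
  have c3 : Continuous (fun t : ℝ => dP (m0 t) * sin t) := (cont_dP.comp cont_m0).mul continuous_sin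
  have e : 2 * (∫ t in (0 : ℝ)..π, P (m0 t)) - (2 * C1 * (√3 / 2 - μ) + S1 * (α + β - 1)) =
      ∫ t in (0 : ℝ)..π, (2 * P (m0 t) - 2 * (√3 / 2 - μ) * (dP (m0 t) * cos t)
        - (α + β - 1) * (dP (m0 t) * sin t)) := by
    rw [intervalIntegral.integral_sub, intervalIntegral.integral_sub,
      intervalIntegral.integral_const_mul, intervalIntegral.integral_const_mul,
      intervalIntegral.integral_const_mul, C1, S1]
    · ring
    · exact (c1.const_mul 2).intervalIntegrable _ _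
    · exact (c2.const_mul _).intervalIntegrable _ _
    · exact ((c1.const_mul 2).sub (c2.const_mul _)).intervalIntegrable _ _
    · exact (c3.const_mul _).intervalIntegrable _ _
  rw [e]
  apply intervalIntegral.integral_mono_on Real.pi_pos.le
  · exact (((c1.const_mul 2).sub (c2.const_mul _)).sub (c3.const_mul _)).intervalIntegrable _ _
  · exact ((cont_P.comp (by fun_prop)).add (cont_P.comp (by fun_prop))).intervalIntegrable _ _
  · intro t _
    have t1 := tangent (m0_le t) (le_one_of_sq (t := t) (r := 1) (by linarith) (by norm_num) :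
      μ * cos t - α * sin t ≤ 1)
    have t2 := tangent (m0_le t) (le_one_of_sq (t := t) (r := 1) (by linarith) (by norm_num) :
      μ * cos t - β * sin t ≤ 1)
    have e1 : 2 * P (m0 t) - 2 * (√3 / 2 - μ) * (dP (m0 t) * cos t)
        - (α + β - 1) * (dP (m0 t) * sin t) =
        (P (m0 t) + dP (m0 t) * (μ * cos t - α * sin t - m0 t)) +
        (P (m0 t) + dP (m0 t) * (μ * cos t - β * sin t - m0 t)) := by
      unfold m0
      ring
    rw [e1]
    linarith

end Pool.Agent.Lib.MP_f1379f_gt.FV.PV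
end

section
/-!
# PVF: the pair volume inequality in invariant form
-/
set_option autoImplicit false

namespace Pool.Agent.Lib.MP_f1379f_gt.FV.PV

open MeasureTheory Real

/-- The Gram data of the normal form. -/
theorem gram (u v : E) (φ : E ≃ₗᵢ[ℝ] W) (μ α β : ℝ)
    (hu : φ u = WithLp.toLp 2 ((⟨μ, α⟩ : ℂ), (0 : E6)))
    (hv : φ v = WithLp.toLp 2 ((⟨μ, -β⟩ : ℂ), (0 : E6))) :
    ‖u‖ ^ 2 = μ ^ 2 + α ^ 2 ∧ ‖v‖ ^ 2 = μ ^ 2 + β ^ 2 ∧ (inner ℝ u v : ℝ) = μ ^ 2 - α * β := by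
  have key : ∀ a b c d : ℝ, (inner ℝ (WithLp.toLp 2 ((⟨a, b⟩ : ℂ), (0 : E6)) : W)
      (WithLp.toLp 2 ((⟨c, d⟩ : ℂ), (0 : E6)) : W) : ℝ) = a * c + b * d := by
    intro a b c d
    rw [WithLp.prod_inner_apply]
    simp [Complex.inner]
    ring
  refine ⟨?_, ?_, ?_⟩
  · rw [← real_inner_self_eq_norm_sq, ← φ.inner_map_map, hu, key]; ring
  · rw [← real_inner_self_eq_norm_sq, ← φ.inner_map_map, hv, key]; ring
  · rw [← φ.inner_map_map, hu, hv, key]; ring

theorem norm_e0 : ‖e0‖ = 1 := by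
  rw [EuclideanSpace.norm_eq]
  simp [e0, Fin.sum_univ_eight]

theorem norm_e1 : ‖e1‖ = 1 := by
  rw [EuclideanSpace.norm_eq]
  simp [e1, Fin.sum_univ_eight]
  norm_num

theorem inner_e01 : (inner ℝ e0 e1 : ℝ) = 1 / 2 := by
  simp [e0, e1, PiLp.inner_apply, Fin.sum_univ_eight]

/-- `g11` as a one-dimensional integral. -/
theorem g11_eq : g11 = π ^ 3 / 48 * (2 * ∫ t in (0 : ℝ)..π, P (m0 t)) := by
  obtain ⟨φ, μ, α, β, hμ, hu, hv, hd⟩ := normal_form e0 e1
  obtain ⟨h1, h2, h3⟩ := gram e0 e1 φ μ α β hu hv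
  rw [norm_e0] at h1
  rw [norm_e1] at h2
  rw [inner_e01] at h3
  have h4 : ‖e0 - e1‖ = 1 := by
    have : ‖e0 - e1‖ ^ 2 = 1 := by
      rw [norm_sub_sq_real, norm_e0, norm_e1, inner_e01]
      norm_num
    have h5 := norm_nonneg (e0 - e1)
    nlinarith
  rw [h4] at hd
  have hα : α = 1 / 2 := by nlinarith
  have hβ : β = 1 / 2 := by linarith
  have hμ2 : μ = √3 / 2 := by
    have h6 : μ ^ 2 = (√3 / 2) ^ 2 := by
      rw [div_pow, Real.sq_sqrt (by norm_num)]
      rw [hα] at h1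
      nlinarith
    exact (pow_left_inj₀ hμ (by positivity) (by norm_num)).mp h6
  unfold g11
  rw [v2_circle e0 e1 φ μ α β hu hv (by rw [hα, hβ]; norm_num), hα, hβ, hμ2]
  congr 1
  rw [← intervalIntegral.integral_const_mul]
  apply intervalIntegral.integral_congr
  intro t _
  simp only [m0]
  ring

/-- **Pair volume inequality (PV).** -/
theorem pair_volume (u v : E) (hu : ‖u‖ ≤ 1) (hv : ‖v‖ ≤ 1) (huv : u ≠ v) :
    g11 - π ^ 3 / 48 * (2 * C1 * (√3 / 2 - √(Dt u v) / ‖u - v‖) + S1 * (‖u - v‖ - 1)) ≤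
      v2 u v := by
  obtain ⟨φ, μ, α, β, hμ, h1, h2, hd⟩ := normal_form u v
  obtain ⟨g1, g2, g3⟩ := gram u v φ μ α β h1 h2
  have hpos : 0 < ‖u - v‖ := norm_pos_iff.mpr (sub_ne_zero.mpr huv)
  have hD : √(Dt u v) / ‖u - v‖ = μ := by
    have : Dt u v = (μ * ‖u - v‖) ^ 2 := by
      unfold Dt
      rw [g1, g2, g3, ← hd]
      ring
    rw [this, Real.sqrt_sq (by positivity)]
    field_simp
  have a1 : ‖u‖ ^ 2 ≤ 1 := by nlinarith [norm_nonneg u]
  have a2 : ‖v‖ ^ 2 ≤ 1 := by nlinarith [norm_nonneg v]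
  have := v2_lower u v φ μ α β h1 h2 (by rw [hd]; exact hpos.le) (by linarith) (by linarith)
  rw [hD, g11_eq, ← hd]
  exact this

theorem S1_nonneg : 0 ≤ S1 := by
  unfold S1
  apply intervalIntegral.integral_nonneg Real.pi_pos.le
  intro t ht
  have := sin_nonneg_of_nonneg_of_le_pi ht.1 ht.2
  have := dP_nonneg (m0 t)
  positivity

end Pool.Agent.Lib.MP_f1379f_gt.FV.PV
end

section
/-!
# PVG: exact values of the constants of the pair volume inequality
-/
set_option autoImplicit false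

namespace Pool.Agent.Lib.MP_f1379f_gt.FV.PV

open MeasureTheory Real

/-- The algebraic number `J = ∫_{1/√3}^{√(2/3)} (2/3 - v^2)^3 dv`. -/
noncomputable def JJ : ℝ := (128 * √6 - 177 * √3) / 2835

theorem m0_eq (t : ℝ) : m0 t = cos (t + π / 6) := by
  unfold m0
  rw [cos_add, cos_pi_div_six, sin_pi_div_six]
  ring

/-- The end of the window. -/
noncomputable def th0 : ℝ := arccos √(3 / 5)

theorem s35 : √(3 / 5 : ℝ) ^ 2 = 3 / 5 := Real.sq_sqrt (by norm_num)

theorem s35_pos : 0 < √(3 / 5 : ℝ) := Real.sqrt_pos.mpr (by norm_num)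

theorem cos_th0 : cos th0 = √(3 / 5) := by
  apply cos_arccos
  · linarith [s35_pos]
  · nlinarith [s35_pos, s35]

theorem th0_lt : th0 < π / 2 := arccos_lt_pi_div_two.mpr s35_pos

theorem th0_gt : π / 6 < th0 := by
  unfold th0
  have h1 : π / 6 = arccos (√3 / 2) := by
    rw [← cos_pi_div_six, arccos_cos (by positivity) (by linarith [Real.pi_pos])]
  rw [h1]
  apply arccos_lt_arccos
  · linarith [s35_pos]
  · have h3 : √(3 : ℝ) ^ 2 = 3 := Real.sq_sqrt (by norm_num)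
    have h4 : 0 < √(3 : ℝ) := Real.sqrt_pos.mpr (by norm_num)
    have := s35
    have := s35_pos
    nlinarith
  · have h3 : √(3 : ℝ) ^ 2 = 3 := Real.sq_sqrt (by norm_num)
    have h4 : 0 < √(3 : ℝ) := Real.sqrt_pos.mpr (by norm_num)
    nlinarith

/-- Inside the window. -/
theorem cos_in {θ : ℝ} (h1 : π / 6 ≤ θ) (h2 : θ ≤ th0) : 0 < cos θ ∧ 3 / 5 ≤ cos θ ^ 2 := by
  have hc : √(3 / 5) ≤ cos θ := by
    rw [← cos_th0]
    apply cos_le_cos_of_nonneg_of_le_pi _ _ h2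
    · linarith [Real.pi_pos]
    · linarith [th0_lt, Real.pi_pos]
  refine ⟨lt_of_lt_of_le s35_pos hc, ?_⟩
  have := s35
  have := s35_pos
  nlinarith

/-- Outside the window. -/
theorem Ae_out {θ : ℝ} (h1 : th0 ≤ θ) (h2 : θ ≤ π + π / 6) : Ae (cos θ) = 0 := by
  rcases le_or_gt θ π with h | h
  · have hc : cos θ ≤ √(3 / 5) := by
      rw [← cos_th0]
      apply cos_le_cos_of_nonneg_of_le_pi _ h h1
      linarith [th0_gt, Real.pi_pos]
    rcases le_or_gt (cos θ) 0 with h3 | h3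
    · exact Ae_of_nonpos (by linarith)
    · apply Ae_of_le
      have := s35
      nlinarith
  · apply Ae_of_nonpos
    have h3 : cos θ ≤ 0 := by
      apply cos_nonpos_of_pi_div_two_le_of_le
      · linarith [Real.pi_pos]
      · linarith [Real.pi_pos]
    linarith

/-- Restriction of the integrals to the window. -/
theorem window (h : ℝ → ℝ) (hh : Continuous h) :
    ∫ t in (0 : ℝ)..π, dP (m0 t) * h (t + π / 6) =
      ∫ θ in (π / 6)..th0, 8 * (5 / 3 - 1 / cos θ ^ 2) ^ 3 / cos θ ^ 3 * h θ := by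
  have e1 : ∫ t in (0 : ℝ)..π, dP (m0 t) * h (t + π / 6) =
      ∫ θ in (π / 6)..(π + π / 6), dP (cos θ) * h θ := by
    have := intervalIntegral.integral_comp_add_right (a := 0) (b := π)
      (fun θ => dP (cos θ) * h θ) (π / 6)
    rw [zero_add] at this
    rw [← this]
    apply intervalIntegral.integral_congr
    intro t _
    simp only [m0_eq]
  have hc : Continuous (fun θ : ℝ => dP (cos θ) * h θ) := (cont_dP.comp continuous_cos).mul hh
  rw [e1, ← intervalIntegral.integral_add_adjacent_intervals (b := th0)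
    (hc.intervalIntegrable _ _) (hc.intervalIntegrable _ _)]
  have e2 : ∫ θ in th0..(π + π / 6), dP (cos θ) * h θ = 0 := by
    rw [intervalIntegral.integral_congr (g := fun _ => 0)]
    · simp
    · intro θ hθ
      rw [Set.uIcc_of_le (by linarith [th0_lt, Real.pi_pos])] at hθ
      simp only [dP, Ae_out hθ.1 hθ.2]
      ring
  rw [e2, add_zero]
  apply intervalIntegral.integral_congr
  intro θ hθ
  rw [Set.uIcc_of_le th0_gt.le] at hθ
  obtain ⟨c1, c2⟩ := cos_in hθ.1 hθ.2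
  obtain ⟨c3, c4⟩ := Ae_of_ge c1 c2
  simp only [dP, c3, max_eq_left c4]

theorem cont_win (k : ℕ) : ContinuousOn
    (fun θ : ℝ => 8 * (5 / 3 - 1 / cos θ ^ 2) ^ 3 / cos θ ^ k) (Set.uIcc (π / 6) th0) := by
  rw [Set.uIcc_of_le th0_gt.le]
  have h : ∀ θ ∈ Set.Icc (π / 6) th0, cos θ ≠ 0 := fun θ hθ => (cos_in hθ.1 hθ.2).1.ne'
  apply ContinuousOn.div
  · apply ContinuousOn.mul continuousOn_const
    apply ContinuousOn.pow
    apply ContinuousOn.sub continuousOn_const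
    apply ContinuousOn.div continuousOn_const (by fun_prop)
    intro θ hθ
    exact pow_ne_zero _ (h θ hθ)
  · fun_prop
  · intro θ hθ
    exact pow_ne_zero _ (h θ hθ)

theorem I1_eq : ∫ t in (0 : ℝ)..π, dP (m0 t) * sin (t + π / 6) = 1 / 81 := by
  rw [window sin continuous_sin]
  have hder : ∀ θ ∈ Set.uIcc (π / 6) th0, HasDerivAt
      (fun θ : ℝ => -(5 / 3 - 1 / cos θ ^ 2) ^ 4)
      (8 * (5 / 3 - 1 / cos θ ^ 2) ^ 3 / cos θ ^ 3 * sin θ) θ := by
    intro θ hθ
    rw [Set.uIcc_of_le th0_gt.le] at hθ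
    have hc := (cos_in hθ.1 hθ.2).1.ne'
    have h1 : HasDerivAt (fun θ : ℝ => cos θ ^ 2) ((2 : ℕ) * cos θ ^ (2 - 1) * (-sin θ)) θ :=
      (hasDerivAt_cos θ).pow 2
    have h2' : HasDerivAt (fun θ : ℝ => 1 / cos θ ^ 2) ((0 * cos θ ^ 2 -
        1 * ((2 : ℕ) * cos θ ^ (2 - 1) * (-sin θ))) / (cos θ ^ 2) ^ 2) θ :=
      (hasDerivAt_const θ (1 : ℝ)).div h1 (pow_ne_zero 2 hc)
    have h2'' : HasDerivAt (fun θ : ℝ => 5 / 3 - 1 / cos θ ^ 2) (-((0 * cos θ ^ 2 -
        1 * ((2 : ℕ) * cos θ ^ (2 - 1) * (-sin θ))) / (cos θ ^ 2) ^ 2)) θ := h2'.const_sub _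
    have h2 : HasDerivAt (fun θ : ℝ => (5 / 3 - 1 / cos θ ^ 2) ^ 4) ((4 : ℕ) *
        (5 / 3 - 1 / cos θ ^ 2) ^ (4 - 1) * (-((0 * cos θ ^ 2 -
        1 * ((2 : ℕ) * cos θ ^ (2 - 1) * (-sin θ))) / (cos θ ^ 2) ^ 2))) θ := h2''.pow 4
    refine h2.neg.congr_deriv ?_
    push_cast
    field_simp
    ring
  rw [intervalIntegral.integral_eq_sub_of_hasDerivAt hder]
  · rw [cos_th0, s35, cos_pi_div_six, div_pow, Real.sq_sqrt (by norm_num)]
    norm_num
  · apply ContinuousOn.intervalIntegrable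
    exact (cont_win 3).mul continuous_sin.continuousOn

theorem tan_th0 : tan th0 = √6 / 3 := by
  rw [tan_eq_sin_div_cos, cos_th0]
  have h1 : sin th0 = √(2 / 5) := by
    unfold th0
    rw [sin_arccos, s35]
    norm_num
  rw [h1, ← Real.sqrt_div (by norm_num)]
  rw [show (2 / 5 / (3 / 5) : ℝ) = 6 / 3 ^ 2 by norm_num, Real.sqrt_div (by norm_num),
    Real.sqrt_sq (by norm_num)]

theorem I2_eq : ∫ t in (0 : ℝ)..π, dP (m0 t) * cos (t + π / 6) = 8 * JJ := by
  rw [window cos continuous_cos]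
  have hder : ∀ θ ∈ Set.uIcc (π / 6) th0, HasDerivAt
      (fun θ : ℝ => 8 * ((8 / 27) * tan θ - (4 / 9) * tan θ ^ 3 + (2 / 5) * tan θ ^ 5
        - (1 / 7) * tan θ ^ 7))
      (8 * (5 / 3 - 1 / cos θ ^ 2) ^ 3 / cos θ ^ 3 * cos θ) θ := by
    intro θ hθ
    rw [Set.uIcc_of_le th0_gt.le] at hθ
    have hc := (cos_in hθ.1 hθ.2).1.ne'
    have ht : HasDerivAt tan (1 / cos θ ^ 2) θ := hasDerivAt_tan hc
    have h1 := ((((ht.const_mul (8 / 27 : ℝ)).sub ((ht.pow 3).const_mul (4 / 9 : ℝ))).add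
      ((ht.pow 5).const_mul (2 / 5 : ℝ))).sub ((ht.pow 7).const_mul (1 / 7 : ℝ))).const_mul (8 : ℝ)
    refine h1.congr_deriv ?_
    have hsec : 1 / cos θ ^ 2 = 1 + tan θ ^ 2 := by
      rw [← inv_one_add_tan_sq hc]
      simp
    push_cast
    have e : 8 * (5 / 3 - 1 / cos θ ^ 2) ^ 3 / cos θ ^ 3 * cos θ =
        8 * (5 / 3 - 1 / cos θ ^ 2) ^ 3 * (1 / cos θ ^ 2) := by
      field_simp
    rw [e, hsec]
    ring
  rw [intervalIntegral.integral_eq_sub_of_hasDerivAt hder]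
  · rw [tan_th0, tan_pi_div_six]
    have h6 : √(6 : ℝ) ^ 2 = 6 := Real.sq_sqrt (by norm_num)
    have h3 : √(3 : ℝ) ^ 2 = 3 := Real.sq_sqrt (by norm_num)
    have h3' : (1 : ℝ) / √3 = √3 / 3 := by
      have : 0 < √(3 : ℝ) := Real.sqrt_pos.mpr (by norm_num)
      field_simp
      linarith
    rw [h3']
    have a3 : (√6 / 3) ^ 3 = √6 * (6 / 27) := by
      calc (√6 / 3) ^ 3 = √6 * (√6 ^ 2 / 27) := by ring
        _ = _ := by rw [h6]
    have a5 : (√6 / 3) ^ 5 = √6 * (36 / 243) := by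
      calc (√6 / 3) ^ 5 = √6 * ((√6 ^ 2) ^ 2 / 243) := by ring
        _ = _ := by rw [h6]; norm_num
    have a7 : (√6 / 3) ^ 7 = √6 * (216 / 2187) := by
      calc (√6 / 3) ^ 7 = √6 * ((√6 ^ 2) ^ 3 / 2187) := by ring
        _ = _ := by rw [h6]; norm_num
    have b3 : (√3 / 3) ^ 3 = √3 * (3 / 27) := by
      calc (√3 / 3) ^ 3 = √3 * (√3 ^ 2 / 27) := by ring
        _ = _ := by rw [h3]
    have b5 : (√3 / 3) ^ 5 = √3 * (9 / 243) := by
      calc (√3 / 3) ^ 5 = √3 * ((√3 ^ 2) ^ 2 / 243) := by ring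
        _ = _ := by rw [h3]; norm_num
    have b7 : (√3 / 3) ^ 7 = √3 * (27 / 2187) := by
      calc (√3 / 3) ^ 7 = √3 * ((√3 ^ 2) ^ 3 / 2187) := by ring
        _ = _ := by rw [h3]; norm_num
    rw [a3, a5, a7, b3, b5, b7]
    unfold JJ
    ring
  · apply ContinuousOn.intervalIntegrable
    exact (cont_win 3).mul continuous_cos.continuousOn

theorem C1_eq : C1 = 1 / 162 + 4 * √3 * JJ := by
  have h1 := I1_eq
  have h2 := I2_eq
  have c2 : Continuous (fun t : ℝ => dP (m0 t) * sin (t + π / 6)) :=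
    (cont_dP.comp cont_m0).mul (by fun_prop)
  have c3 : Continuous (fun t : ℝ => dP (m0 t) * cos (t + π / 6)) :=
    (cont_dP.comp cont_m0).mul (by fun_prop)
  have e : C1 = 1 / 2 * (∫ t in (0 : ℝ)..π, dP (m0 t) * sin (t + π / 6)) +
      √3 / 2 * ∫ t in (0 : ℝ)..π, dP (m0 t) * cos (t + π / 6) := by
    rw [← intervalIntegral.integral_const_mul, ← intervalIntegral.integral_const_mul,
      ← intervalIntegral.integral_add ((c2.const_mul _).intervalIntegrable _ _)
        ((c3.const_mul _).intervalIntegrable _ _)]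
    unfold C1
    apply intervalIntegral.integral_congr
    intro t _
    have : cos t = 1 / 2 * sin (t + π / 6) + √3 / 2 * cos (t + π / 6) := by
      rw [sin_add, cos_add, cos_pi_div_six, sin_pi_div_six]
      have h3 : √(3 : ℝ) ^ 2 = 3 := Real.sq_sqrt (by norm_num)
      linear_combination (-cos t / 4) * h3
    simp only
    conv_lhs => rw [this]
    ring
  rw [e, h1, h2]
  ring

theorem S1_eq : S1 = √3 / 162 - 4 * JJ := by
  have h1 := I1_eq
  have h2 := I2_eq
  have c2 : Continuous (fun t : ℝ => dP (m0 t) * sin (t + π / 6)) :=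
    (cont_dP.comp cont_m0).mul (by fun_prop)
  have c3 : Continuous (fun t : ℝ => dP (m0 t) * cos (t + π / 6)) :=
    (cont_dP.comp cont_m0).mul (by fun_prop)
  have e : S1 = √3 / 2 * (∫ t in (0 : ℝ)..π, dP (m0 t) * sin (t + π / 6)) +
      (-(1 / 2)) * ∫ t in (0 : ℝ)..π, dP (m0 t) * cos (t + π / 6) := by
    rw [← intervalIntegral.integral_const_mul, ← intervalIntegral.integral_const_mul,
      ← intervalIntegral.integral_add ((c2.const_mul _).intervalIntegrable _ _)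
        ((c3.const_mul _).intervalIntegrable _ _)]
    unfold S1
    apply intervalIntegral.integral_congr
    intro t _
    have : sin t = √3 / 2 * sin (t + π / 6) - 1 / 2 * cos (t + π / 6) := by
      rw [sin_add, cos_add, cos_pi_div_six, sin_pi_div_six]
      have h3 : √(3 : ℝ) ^ 2 = 3 := Real.sq_sqrt (by norm_num)
      linear_combination (-sin t / 4) * h3
    simp only
    conv_lhs => rw [this]
    ring
  rw [e, h1, h2]
  ring

end Pool.Agent.Lib.MP_f1379f_gt.FV.PV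
end

section
/-!
# PVH: final forms of the pair volume inequality
-/
set_option autoImplicit false

namespace Pool.Agent.Lib.MP_f1379f_gt.FV.PV

open MeasureTheory Real

theorem sqrt3_bounds : 1.73205080 < √(3 : ℝ) ∧ √(3 : ℝ) < 1.73205081 := by
  constructor
  · rw [Real.lt_sqrt (by norm_num)]; norm_num
  · rw [Real.sqrt_lt' (by norm_num)]; norm_num

theorem sqrt6_bounds : 2.44948974 < √(6 : ℝ) ∧ √(6 : ℝ) < 2.44948975 := by
  constructor
  · rw [Real.lt_sqrt (by norm_num)]; norm_num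
  · rw [Real.sqrt_lt' (by norm_num)]; norm_num

theorem JJ_bounds : 0.002455622 < JJ ∧ JJ < 0.002455625 := by
  unfold JJ
  obtain ⟨h1, h2⟩ := sqrt3_bounds
  obtain ⟨h3, h4⟩ := sqrt6_bounds
  constructor
  · rw [lt_div_iff₀ (by norm_num)]; linarith
  · rw [div_lt_iff₀ (by norm_num)]; linarith

theorem S1_bounds : 0.00086917 < S1 ∧ S1 < 0.00086919 := by
  rw [S1_eq]
  obtain ⟨h1, h2⟩ := sqrt3_bounds
  obtain ⟨h3, h4⟩ := JJ_bounds
  constructor <;> linarith

theorem C1_bounds : 0.0231858 < C1 ∧ C1 < 0.023186 := by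
  rw [C1_eq]
  obtain ⟨h1, h2⟩ := sqrt3_bounds
  obtain ⟨h3, h4⟩ := JJ_bounds
  constructor <;> nlinarith

/-- `2 C1 X + S1 Y` with `C1`, `S1` eliminated. -/
theorem C1_S1 : C1 + √3 * S1 = 2 / 81 := by
  rw [C1_eq, S1_eq]
  have h3 : √(3 : ℝ) ^ 2 = 3 := Real.sq_sqrt (by norm_num)
  linear_combination (1 / 162) * h3

/-- The exact form with `S1` explicit. -/
theorem pair_volume' (u v : E) (hu : ‖u‖ ≤ 1) (hv : ‖v‖ ≤ 1) (huv : u ≠ v) :
    g11 - π ^ 3 / 48 * (4 / 81 * (√3 / 2 - √(Dt u v) / ‖u - v‖) -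
      S1 * (4 - ‖u - v‖ - 2 * √3 * (√(Dt u v) / ‖u - v‖))) ≤ v2 u v := by
  have h := pair_volume u v hu hv huv
  have h3 : √(3 : ℝ) ^ 2 = 3 := Real.sq_sqrt (by norm_num)
  have e : C1 = 2 / 81 - √3 * S1 := by linarith [C1_S1]
  have e2 : 2 * C1 * (√3 / 2 - √(Dt u v) / ‖u - v‖) + S1 * (‖u - v‖ - 1) =
      4 / 81 * (√3 / 2 - √(Dt u v) / ‖u - v‖) -
      S1 * (4 - ‖u - v‖ - 2 * √3 * (√(Dt u v) / ‖u - v‖)) := by
    rw [e]
    linear_combination (-S1) * h3
  rw [e2] at h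
  exact h

/-- The circumcentre is at distance at least `2/√3`-like: `|u-v| + 2√3 μ ≤ 4`. -/
theorem link_le (u v : E) (hu : ‖u‖ ≤ 1) (hv : ‖v‖ ≤ 1) (huv : u ≠ v) :
    ‖u - v‖ + 2 * √3 * (√(Dt u v) / ‖u - v‖) ≤ 4 := by
  obtain ⟨φ, μ, α, β, hμ, h1, h2, hd⟩ := normal_form u v
  obtain ⟨g1, g2, g3⟩ := gram u v φ μ α β h1 h2
  have hpos : 0 < ‖u - v‖ := norm_pos_iff.mpr (sub_ne_zero.mpr huv)
  have hD : √(Dt u v) / ‖u - v‖ = μ := by
    have : Dt u v = (μ * ‖u - v‖) ^ 2 := by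
      unfold Dt
      rw [g1, g2, g3, ← hd]
      ring
    rw [this, Real.sqrt_sq (by positivity)]
    field_simp
  have a1 : ‖u‖ ^ 2 ≤ 1 := by nlinarith [norm_nonneg u]
  have a2 : ‖v‖ ^ 2 ≤ 1 := by nlinarith [norm_nonneg v]
  rw [hD, ← hd]
  have h3 : √(3 : ℝ) ^ 2 = 3 := Real.sq_sqrt (by norm_num)
  have b1 : α + √3 * μ ≤ 2 := by
    apply le_of_sq_le_sq _ (by norm_num)
    nlinarith [sq_nonneg (√3 * α - μ)]
  have b2 : β + √3 * μ ≤ 2 := by
    apply le_of_sq_le_sq _ (by norm_num)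
    nlinarith [sq_nonneg (√3 * β - μ)]
  linarith

/-- **Short form of (PV).** -/
theorem pair_volume_short (u v : E) (hu : ‖u‖ ≤ 1) (hv : ‖v‖ ≤ 1) (huv : u ≠ v) :
    g11 - π ^ 3 / 972 * (√3 / 2 - √(Dt u v) / ‖u - v‖) ≤ v2 u v := by
  refine le_trans ?_ (pair_volume' u v hu hv huv)
  have h1 := link_le u v hu hv huv
  have h2 := S1_nonneg
  have h3 : 0 ≤ S1 * (4 - ‖u - v‖ - 2 * √3 * (√(Dt u v) / ‖u - v‖)) := by
    apply mul_nonneg h2
    linarith
  have h4 : 0 ≤ π ^ 3 / 48 * (S1 * (4 - ‖u - v‖ - 2 * √3 * (√(Dt u v) / ‖u - v‖))) := by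
    positivity
  linarith

end Pool.Agent.Lib.MP_f1379f_gt.FV.PV
end

section
/-!
# TVA: triple volume: isometry with R x C x R^5, slicing
-/
set_option autoImplicit false
set_option linter.unusedSimpArgs false

namespace Pool.Agent.Lib.MP_f1379f_gt.FV.TV

open MeasureTheory Real

/-- Euclidean 5-space. -/
abbrev E5 := EuclideanSpace ℝ (Fin 5)

/-- Line times plane times Euclidean 5-space. -/
abbrev W3 := WithLp 2 (ℝ × WithLp 2 (ℂ × E5))

/-- An orthonormal triple extends to an isometry. -/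
theorem exists_iso3 (a0 f1 f2 : E) (h0 : ‖a0‖ = 1) (h1 : ‖f1‖ = 1) (h2 : ‖f2‖ = 1)
    (h01 : inner ℝ a0 f1 = (0 : ℝ)) (h02 : inner ℝ a0 f2 = (0 : ℝ))
    (h12 : inner ℝ f1 f2 = (0 : ℝ)) :
    ∃ φ : E ≃ₗᵢ[ℝ] W3, φ a0 = WithLp.toLp 2 ((1 : ℝ), (0 : WithLp 2 (ℂ × E5))) ∧
      φ f1 = WithLp.toLp 2 ((0 : ℝ), WithLp.toLp 2 ((1 : ℂ), (0 : E5))) ∧
      φ f2 = WithLp.toLp 2 ((0 : ℝ), WithLp.toLp 2 (Complex.I, (0 : E5))) := by
  classical
  let v : Fin 1 ⊕ (Fin 2 ⊕ Fin 5) → E := Sum.elim ![a0] (Sum.elim ![f1, f2] (fun _ => 0))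
  let s : Set (Fin 1 ⊕ (Fin 2 ⊕ Fin 5)) := {Sum.inl 0, Sum.inr (Sum.inl 0), Sum.inr (Sum.inl 1)}
  have h10 : inner ℝ f1 a0 = (0 : ℝ) := by rw [real_inner_comm]; exact h01
  have h20 : inner ℝ f2 a0 = (0 : ℝ) := by rw [real_inner_comm]; exact h02
  have h21 : inner ℝ f2 f1 = (0 : ℝ) := by rw [real_inner_comm]; exact h12
  have hv : Orthonormal ℝ (s.domRestrict v) := by
    rw [orthonormal_iff_ite]
    rintro ⟨i, hi⟩ ⟨j, hj⟩
    simp only [s, Set.mem_insert_iff, Set.mem_singleton_iff] at hi hj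
    rcases hi with rfl | rfl | rfl <;> rcases hj with rfl | rfl | rfl <;>
      simp [v, Set.domRestrict, h0, h1, h2, h01, h02, h12, h10, h20, h21]
  obtain ⟨b, hb⟩ := hv.exists_orthonormalBasis_extension_of_card_eq (by simp)
  have hb0 : b (Sum.inl 0) = a0 := by
    have := hb (Sum.inl 0) (by simp [s])
    simpa [v] using this
  have hb1 : b (Sum.inr (Sum.inl 0)) = f1 := by
    have := hb (Sum.inr (Sum.inl 0)) (by simp [s])
    simpa [v] using this
  have hb2 : b (Sum.inr (Sum.inl 1)) = f2 := by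
    have := hb (Sum.inr (Sum.inl 1)) (by simp [s])
    simpa [v] using this
  let b' : OrthonormalBasis (Fin 1 ⊕ (Fin 2 ⊕ Fin 5)) ℝ W3 :=
    (OrthonormalBasis.singleton (Fin 1) ℝ).prod
      (Complex.orthonormalBasisOneI.prod (EuclideanSpace.basisFun (Fin 5) ℝ))
  refine ⟨b.equiv b' (Equiv.refl _), ?_, ?_, ?_⟩
  · rw [← hb0, OrthonormalBasis.equiv_apply_basis]
    refine (OrthonormalBasis.prod_apply _ _ _).trans ?_
    simp
  · rw [← hb1, OrthonormalBasis.equiv_apply_basis]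
    refine (OrthonormalBasis.prod_apply _ _ _).trans ?_
    simp
  · rw [← hb2, OrthonormalBasis.equiv_apply_basis]
    refine (OrthonormalBasis.prod_apply _ _ _).trans ?_
    simp

/-- Volume of balls in dimension 5. -/
theorem vol_E5 (t : ℝ) :
    volume {w : E5 | ‖w‖ ^ 2 < t} = ENNReal.ofReal (8 * π ^ 2 / 15 * √(max 0 t) ^ 5) := by
  have hs : {w : E5 | ‖w‖ ^ 2 < t} = Metric.ball (0 : E5) (√(max 0 t)) := by
    ext w
    simp only [Set.mem_ofPred_eq, mem_ball_zero_iff]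
    rw [Real.lt_sqrt (norm_nonneg _)]
    constructor
    · intro h; exact lt_of_lt_of_le h (le_max_right _ _)
    · intro h
      rcases lt_or_ge t 0 with h0 | h0
      · rw [max_eq_left h0.le] at h
        exact absurd h (not_lt.mpr (sq_nonneg _))
      · rwa [max_eq_right h0] at h
  rw [hs, EuclideanSpace.volume_ball, Fintype.card_fin, ← ENNReal.ofReal_pow (Real.sqrt_nonneg _),
    ← ENNReal.ofReal_mul (by positivity)]
  congr 1
  have h3 : Real.Gamma ((5 : ℕ) / 2 + 1) = 15 / 8 * √π := by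
    have e1 : ((5 : ℕ) / 2 + 1 : ℝ) = (1 / 2 + 1 + 1) + 1 := by norm_num
    rw [e1, Real.Gamma_add_one (by norm_num), Real.Gamma_add_one (by norm_num),
      Real.Gamma_add_one (by norm_num), Real.Gamma_one_half_eq]
    ring
  have h4 : 0 < √π := Real.sqrt_pos.mpr Real.pi_pos
  have h2 : √π ^ 5 = π ^ 2 * √π := by
    have : √π ^ 2 = π := Real.sq_sqrt Real.pi_pos.le
    calc √π ^ 5 = (√π ^ 2) ^ 2 * √π := by ring
      _ = π ^ 2 * √π := by rw [this]
  rw [h2, h3]
  field_simp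

/-- The radial integral in the plane. -/
theorem radial5 (Q x n : ℝ) (hx : 0 < x) :
    ∫⁻ t in Set.Ioi (0 : ℝ), ENNReal.ofReal t * (if x < t * n then
      ENNReal.ofReal (8 * π ^ 2 / 15 * √(max 0 (Q - t ^ 2)) ^ 5) else 0) =
      ENNReal.ofReal (8 * π ^ 2 / 105 * (if 0 < n then √(max 0 (Q - x ^ 2 / n ^ 2)) ^ 7
        else 0)) := by
  rcases le_or_gt n 0 with hm | hm
  · rw [if_neg (not_lt.mpr hm), mul_zero, ENNReal.ofReal_zero]
    rw [setLIntegral_congr_fun (g := fun _ => 0) measurableSet_Ioi]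
    · simp
    · intro r hr
      have hr' : (0 : ℝ) < r := hr
      have : ¬ (x < r * n) := by
        have : r * n ≤ 0 := mul_nonpos_of_nonneg_of_nonpos hr'.le hm
        linarith
      simp [this]
  rw [if_pos hm]
  have him : 0 < x / n := by positivity
  rcases le_or_gt (Q - x ^ 2 / n ^ 2) 0 with hR | hR
  · rw [max_eq_left hR]
    rw [setLIntegral_congr_fun (g := fun _ => 0) measurableSet_Ioi]
    · simp
    · intro r hr
      have hr' : (0 : ℝ) < r := hr
      by_cases h : x < r * n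
      · have h1 : x / n < r := by rwa [div_lt_iff₀ hm]
        have h2 : (x / n) ^ 2 < r ^ 2 := by
          apply pow_lt_pow_left₀ h1 him.le (by norm_num)
        have h3 : Q - r ^ 2 ≤ 0 := by
          rw [div_pow] at h2
          linarith
        simp [h, max_eq_left h3]
      · simp [h]
  · have hRp : 0 < Q := by
      have : 0 < x ^ 2 / n ^ 2 := by positivity
      linarith
    have hlt : x / n < √Q := by
      rw [Real.lt_sqrt him.le, div_pow]
      linarith
    have e1 : ∫⁻ r in Set.Ioi (0 : ℝ), ENNReal.ofReal r * (if x < r * n then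
        ENNReal.ofReal (8 * π ^ 2 / 15 * √(max 0 (Q - r ^ 2)) ^ 5) else 0) =
        ∫⁻ r in Set.Ioc (x / n) (√Q), ENNReal.ofReal (8 * π ^ 2 / 15 * (r * √(Q - r ^ 2) ^ 5)) := by
      have hsub : Set.Ioc (x / n) (√Q) ⊆ Set.Ioi (0 : ℝ) := by
        intro r hr
        exact lt_trans him hr.1
      rw [← lintegral_indicator measurableSet_Ioi, ← lintegral_indicator measurableSet_Ioc]
      apply lintegral_congr
      intro r
      by_cases hr : 0 < r
      · rw [Set.indicator_of_mem (show r ∈ Set.Ioi (0 : ℝ) from hr)]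
        by_cases h1 : x < r * n
        · have h2 : x / n < r := by rwa [div_lt_iff₀ hm]
          rw [if_pos h1]
          by_cases h3 : r ≤ √Q
          · rw [Set.indicator_of_mem (show r ∈ Set.Ioc (x / n) (√Q) from ⟨h2, h3⟩)]
            have h4 : r ^ 2 ≤ Q := by
              rw [← Real.sq_sqrt hRp.le]
              exact pow_le_pow_left₀ hr.le h3 2
            rw [max_eq_right (by linarith), ← ENNReal.ofReal_mul hr.le]
            congr 1
            ring
          · rw [Set.indicator_of_notMem (fun h => h3 h.2)]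
            have h4 : Q < r ^ 2 := by
              rw [← Real.sq_sqrt hRp.le]
              exact pow_lt_pow_left₀ (not_le.mp h3) (Real.sqrt_nonneg _) (by norm_num)
            rw [max_eq_left (by linarith)]
            simp
        · have h2 : ¬ (x / n < r) := by rwa [div_lt_iff₀ hm]
          rw [if_neg h1, mul_zero, Set.indicator_of_notMem (fun h => h2 h.1)]
      · rw [Set.indicator_of_notMem (show r ∉ Set.Ioi (0 : ℝ) from hr),
          Set.indicator_of_notMem (fun h => hr (hsub h))]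
    have hcont : Continuous (fun r : ℝ => 8 * π ^ 2 / 15 * (r * √(Q - r ^ 2) ^ 5)) := by
      fun_prop
    rw [e1, ← ofReal_integral_eq_lintegral_ofReal, ← intervalIntegral.integral_of_le hlt.le]
    · congr 1
      have hder : ∀ r ∈ Set.Ioo (x / n) (√Q), HasDerivAt
          (fun r : ℝ => -(8 * π ^ 2 / 105) * √(Q - r ^ 2) ^ 7)
          (8 * π ^ 2 / 15 * (r * √(Q - r ^ 2) ^ 5)) r := by
        intro r hr
        have hr0 : 0 < r := lt_trans him hr.1
        have hpos : 0 < Q - r ^ 2 := by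
          have : r ^ 2 < √Q ^ 2 := pow_lt_pow_left₀ hr.2 hr0.le (by norm_num)
          rw [Real.sq_sqrt hRp.le] at this
          linarith
        have h1 : HasDerivAt (fun r : ℝ => Q - r ^ 2) (0 - (2 : ℕ) * r ^ (2 - 1) * 1) r :=
          (hasDerivAt_const r Q).sub ((hasDerivAt_id r).pow 2)
        have h2 := ((h1.sqrt hpos.ne').pow 7).const_mul (-(8 * π ^ 2 / 105))
        refine h2.congr_deriv ?_
        have hs : 0 < √(Q - r ^ 2) := Real.sqrt_pos.mpr hpos
        push_cast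
        field_simp
        ring
      have hc2 : Continuous (fun r : ℝ => -(8 * π ^ 2 / 105) * √(Q - r ^ 2) ^ 7) := by
        fun_prop
      rw [intervalIntegral.integral_eq_sub_of_hasDerivAt_of_le hlt.le hc2.continuousOn hder
        (hcont.intervalIntegrable _ _)]
      rw [max_eq_right hR.le, Real.sq_sqrt hRp.le, div_pow, sub_self, Real.sqrt_zero]
      ring
    · exact hcont.integrableOn_Ioc
    · apply (ae_restrict_iff' measurableSet_Ioc).mpr
      refine Filter.Eventually.of_forall fun r hr => ?_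
      have hr0 : 0 < r := lt_trans him hr.1
      simp only [Pi.zero_apply]
      positivity

end Pool.Agent.Lib.MP_f1379f_gt.FV.TV
end

section
/-!
# TVB: triple volume: one sixth-symmetric part as a double integral
-/
set_option autoImplicit false
set_option linter.unusedSimpArgs false

namespace Pool.Agent.Lib.MP_f1379f_gt.FV.TV

open MeasureTheory Real PV

theorem norm_e2 : ‖e2‖ = 1 := by
  rw [EuclideanSpace.norm_eq]
  simp [e2, Fin.sum_univ_eight]
  norm_num

theorem inner_e02 : (inner ℝ e0 e2 : ℝ) = 1 / 2 := by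
  simp [e0, e2, PiLp.inner_apply, Fin.sum_univ_eight]

theorem inner_e12 : (inner ℝ e1 e2 : ℝ) = 1 / 2 := by
  simp [e1, e2, PiLp.inner_apply, Fin.sum_univ_eight]
  norm_num

/-- Part of the triple cap where `⟨e0,y⟩` is the smallest of the three products. -/
def D0 : Set E := {y | ‖y‖ ^ 2 < 5 / 3 ∧ 1 < (inner ℝ e0 y : ℝ) ∧
  (inner ℝ e0 y : ℝ) < inner ℝ e1 y ∧ (inner ℝ e0 y : ℝ) < inner ℝ e2 y}

/-- The angular function. -/
noncomputable def nn (t : ℝ) : ℝ := min (√2 * cos t + 1 * sin t) (√2 * cos t - 1 * sin t)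

/-- The integrand. -/
noncomputable def ZZ (x n : ℝ) : ℝ := if 0 < n then √(max 0 (5 / 3 - x ^ 2 - x ^ 2 / n ^ 2)) ^ 7 else 0

theorem D0_slice : volume D0 = ∫⁻ x in Set.Ioi (1 : ℝ), ∫⁻ z : ℂ,
    if x < √2 * z.re + 1 * z.im ∧ x < √2 * z.re - 1 * z.im then
      ENNReal.ofReal (8 * π ^ 2 / 15 * √(max 0 (5 / 3 - x ^ 2 - ‖z‖ ^ 2)) ^ 5) else 0 := by
  have i00 : (inner ℝ e0 e0 : ℝ) = 1 := by rw [real_inner_self_eq_norm_sq, norm_e0]; norm_num
  have i11 : (inner ℝ e1 e1 : ℝ) = 1 := by rw [real_inner_self_eq_norm_sq, norm_e1]; norm_num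
  have i22 : (inner ℝ e2 e2 : ℝ) = 1 := by rw [real_inner_self_eq_norm_sq, norm_e2]; norm_num
  have i01 := inner_e01
  have i02 := inner_e02
  have i12 := inner_e12
  have i10 : (inner ℝ e1 e0 : ℝ) = 1 / 2 := by rw [real_inner_comm]; exact i01
  have i20 : (inner ℝ e2 e0 : ℝ) = 1 / 2 := by rw [real_inner_comm]; exact i02
  have i21 : (inner ℝ e2 e1 : ℝ) = 1 / 2 := by rw [real_inner_comm]; exact i12
  have s2 : √(2 : ℝ) ^ 2 = 2 := Real.sq_sqrt (by norm_num)
  have s2p : 0 < √(2 : ℝ) := Real.sqrt_pos.mpr (by norm_num)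
  obtain ⟨f1, hf1⟩ : ∃ f1 : E, f1 = (√2 / 2 : ℝ) • (e1 + e2 - e0) := ⟨_, rfl⟩
  obtain ⟨f2, hf2⟩ : ∃ f2 : E, f2 = e1 - e2 := ⟨_, rfl⟩
  have n1 : ‖f1‖ = 1 := by
    have : ‖f1‖ ^ 2 = 1 := by
      rw [← real_inner_self_eq_norm_sq, hf1]
      simp only [real_inner_smul_left, real_inner_smul_right, inner_add_left, inner_add_right,
        inner_sub_left, inner_sub_right, i00, i11, i22, i01, i02, i12, i10, i20, i21]
      nlinarith
    have h5 := norm_nonneg f1
    nlinarith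
  have n2 : ‖f2‖ = 1 := by
    have : ‖f2‖ ^ 2 = 1 := by
      rw [← real_inner_self_eq_norm_sq, hf2]
      simp only [inner_sub_left, inner_sub_right, i11, i22, i12, i21]
      norm_num
    have h5 := norm_nonneg f2
    nlinarith
  have h01 : (inner ℝ e0 f1 : ℝ) = 0 := by
    rw [hf1]
    simp only [real_inner_smul_right, inner_add_right, inner_sub_right, i00, i01, i02]
    norm_num
  have h02 : (inner ℝ e0 f2 : ℝ) = 0 := by
    rw [hf2, inner_sub_right, i01, i02]; norm_num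
  have h12 : (inner ℝ f1 f2 : ℝ) = 0 := by
    rw [hf1, hf2]
    simp only [real_inner_smul_left, inner_add_left, inner_add_right,
        inner_sub_left, inner_sub_right, i00, i11, i22, i01, i02, i12, i10, i20, i21]
    norm_num
  obtain ⟨φ, p0, p1, p2⟩ := exists_iso3 e0 f1 f2 norm_e0 n1 n2 h01 h02 h12
  have q1 : e1 = (1 / 2 : ℝ) • e0 + (√2 / 2 : ℝ) • f1 + (1 / 2 : ℝ) • f2 := by
    rw [hf1, hf2, smul_smul, show (√2 / 2 * (√2 / 2) : ℝ) = 1 / 2 by nlinarith]
    module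
  have q2 : e2 = (1 / 2 : ℝ) • e0 + (√2 / 2 : ℝ) • f1 - (1 / 2 : ℝ) • f2 := by
    rw [hf1, hf2, smul_smul, show (√2 / 2 * (√2 / 2) : ℝ) = 1 / 2 by nlinarith]
    module
  let T' : Set (ℝ × (ℂ × E5)) := {q | q.1 ^ 2 + (‖q.2.1‖ ^ 2 + ‖q.2.2‖ ^ 2) < 5 / 3 ∧ 1 < q.1 ∧
    q.1 < √2 * q.2.1.re + 1 * q.2.1.im ∧ q.1 < √2 * q.2.1.re - 1 * q.2.1.im}
  have hT' : MeasurableSet T' := by
    have c0 : Continuous (fun q : ℝ × (ℂ × E5) => q.1) := continuous_fst
    have c1 : Continuous (fun q : ℝ × (ℂ × E5) => q.1 ^ 2 + (‖q.2.1‖ ^ 2 + ‖q.2.2‖ ^ 2)) := by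
      fun_prop
    have cr : Continuous (fun q : ℝ × (ℂ × E5) => q.2.1.re) :=
      Complex.continuous_re.comp (continuous_fst.comp continuous_snd)
    have ci : Continuous (fun q : ℝ × (ℂ × E5) => q.2.1.im) :=
      Complex.continuous_im.comp (continuous_fst.comp continuous_snd)
    have c2 : Continuous (fun q : ℝ × (ℂ × E5) => √2 * q.2.1.re + 1 * q.2.1.im) := by fun_prop
    have c3 : Continuous (fun q : ℝ × (ℂ × E5) => √2 * q.2.1.re - 1 * q.2.1.im) := by fun_prop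
    exact ((isOpen_lt c1 continuous_const).inter ((isOpen_lt continuous_const c0).inter
      ((isOpen_lt c0 c2).inter (isOpen_lt c0 c3)))).measurableSet
  have hmp : MeasurePreserving (fun y : E => ((WithLp.ofLp (φ y)).1,
      (WithLp.ofLp (WithLp.ofLp (φ y)).2 : ℂ × E5))) volume volume := by
    have m1 : MeasurePreserving (fun y : E => WithLp.ofLp (φ y)) volume volume :=
      (WithLp.volume_preserving_ofLp ℝ (WithLp 2 (ℂ × E5))).comp φ.measurePreserving
    have m2 : MeasurePreserving (Prod.map (id : ℝ → ℝ)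
        (fun p : WithLp 2 (ℂ × E5) => (WithLp.ofLp p : ℂ × E5))) volume volume :=
      (MeasurePreserving.id _).prod (WithLp.volume_preserving_ofLp ℂ E5)
    exact m2.comp m1
  have hpre : D0 = (fun y : E => ((WithLp.ofLp (φ y)).1,
      (WithLp.ofLp (WithLp.ofLp (φ y)).2 : ℂ × E5))) ⁻¹' T' := by
    ext y
    have h1 : ‖y‖ ^ 2 = (WithLp.ofLp (φ y)).1 ^ 2 +
        (‖(WithLp.ofLp (WithLp.ofLp (φ y)).2).1‖ ^ 2 +
          ‖(WithLp.ofLp (WithLp.ofLp (φ y)).2).2‖ ^ 2) := by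
      rw [← φ.norm_map y, WithLp.prod_norm_sq_eq_of_L2]
      have e1 : ‖(φ y).fst‖ ^ 2 = (WithLp.ofLp (φ y)).1 ^ 2 := by
        rw [Real.norm_eq_abs, sq_abs]
        rfl
      rw [e1, WithLp.prod_norm_sq_eq_of_L2]
      rfl
    have k0 : (inner ℝ e0 y : ℝ) = (WithLp.ofLp (φ y)).1 := by
      rw [← φ.inner_map_map, p0, WithLp.prod_inner_apply]
      simp
    have k1 : (inner ℝ f1 y : ℝ) = (WithLp.ofLp (WithLp.ofLp (φ y)).2).1.re := by
      rw [← φ.inner_map_map, p1, WithLp.prod_inner_apply, WithLp.prod_inner_apply]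
      simp [Complex.inner]
    have k2 : (inner ℝ f2 y : ℝ) = (WithLp.ofLp (WithLp.ofLp (φ y)).2).1.im := by
      rw [← φ.inner_map_map, p2, WithLp.prod_inner_apply, WithLp.prod_inner_apply]
      simp [Complex.inner]
    have j1 : (inner ℝ e1 y : ℝ) = 1 / 2 * inner ℝ e0 y + √2 / 2 * inner ℝ f1 y +
        1 / 2 * inner ℝ f2 y := by
      conv_lhs => rw [q1]
      rw [inner_add_left, inner_add_left, real_inner_smul_left, real_inner_smul_left,
        real_inner_smul_left]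
    have j2 : (inner ℝ e2 y : ℝ) = 1 / 2 * inner ℝ e0 y + √2 / 2 * inner ℝ f1 y -
        1 / 2 * inner ℝ f2 y := by
      conv_lhs => rw [q2]
      rw [inner_sub_left, inner_add_left, real_inner_smul_left, real_inner_smul_left,
        real_inner_smul_left]
    simp only [D0, T', Set.mem_ofPred_eq, Set.mem_preimage]
    rw [j1, j2, k0, k1, k2, h1]
    constructor
    · rintro ⟨a1, a2, a3, a4⟩
      exact ⟨a1, a2, by linarith, by linarith⟩
    · rintro ⟨a1, a2, a3, a4⟩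
      exact ⟨a1, a2, by linarith, by linarith⟩
  rw [hpre, hmp.measure_preimage hT'.nullMeasurableSet, Measure.volume_eq_prod,
    Measure.prod_apply hT', ← lintegral_indicator measurableSet_Ioi]
  apply lintegral_congr
  intro x
  have hTx : MeasurableSet (Prod.mk x ⁻¹' T') := measurable_prodMk_left hT'
  by_cases hx : 1 < x
  · rw [Set.indicator_of_mem (show x ∈ Set.Ioi (1 : ℝ) from hx), Measure.volume_eq_prod,
      Measure.prod_apply hTx]
    apply lintegral_congr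
    intro z
    split_ifs with h
    · rw [← vol_E5]
      congr 1
      ext w
      simp only [T', Set.mem_preimage, Set.mem_ofPred_eq]
      constructor
      · intro hh; linarith [hh.1]
      · intro hh; exact ⟨by linarith, hx, h⟩
    · have he : Prod.mk z ⁻¹' (Prod.mk x ⁻¹' T') = ∅ := by
        ext w
        simp only [T', Set.mem_preimage, Set.mem_ofPred_eq, Set.mem_empty_iff_false, iff_false]
        intro hh
        exact h hh.2.2
      rw [he, measure_empty]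
  · rw [Set.indicator_of_notMem (show x ∉ Set.Ioi (1 : ℝ) from hx)]
    have he : Prod.mk x ⁻¹' T' = ∅ := by
      ext w
      simp only [T', Set.mem_preimage, Set.mem_ofPred_eq, Set.mem_empty_iff_false, iff_false]
      intro hh
      exact hx hh.2.1
    rw [he, measure_empty]

/-- The double integral formula for one third of the triple volume. -/
theorem D0_double : volume D0 = ∫⁻ t in Set.Ioo (-π) π, ∫⁻ x in Set.Ioi (1 : ℝ),
    ENNReal.ofReal (8 * π ^ 2 / 105 * ZZ x (nn t)) := by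
  rw [D0_slice]
  have hinner : ∀ x ∈ Set.Ioi (1 : ℝ), (∫⁻ z : ℂ,
      if x < √2 * z.re + 1 * z.im ∧ x < √2 * z.re - 1 * z.im then
      ENNReal.ofReal (8 * π ^ 2 / 15 * √(max 0 (5 / 3 - x ^ 2 - ‖z‖ ^ 2)) ^ 5) else 0) =
      ∫⁻ t in Set.Ioo (-π) π, ENNReal.ofReal (8 * π ^ 2 / 105 * ZZ x (nn t)) := by
    intro x hx
    have hx0 : (0 : ℝ) < x := lt_trans one_pos hx
    rw [← Complex.lintegral_comp_polarCoord_symm, Measure.volume_eq_prod]
    have htar : polarCoord.target = Set.Ioi (0 : ℝ) ×ˢ Set.Ioo (-π) π := rfl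
    have hmeas : Measurable (fun p : ℝ × ℝ => ENNReal.ofReal p.1 •
        (if x < √2 * (Complex.polarCoord.symm p).re + 1 * (Complex.polarCoord.symm p).im ∧
          x < √2 * (Complex.polarCoord.symm p).re - 1 * (Complex.polarCoord.symm p).im then
          ENNReal.ofReal (8 * π ^ 2 / 15 *
            √(max 0 (5 / 3 - x ^ 2 - ‖Complex.polarCoord.symm p‖ ^ 2)) ^ 5) else 0)) := by
      have e1 : ∀ p : ℝ × ℝ, (Complex.polarCoord.symm p).re = p.1 * cos p.2 := by
        intro p; simp [← Complex.ofReal_cos, ← Complex.ofReal_sin]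
      have e2 : ∀ p : ℝ × ℝ, (Complex.polarCoord.symm p).im = p.1 * sin p.2 := by
        intro p; simp [← Complex.ofReal_cos, ← Complex.ofReal_sin]
      simp only [e1, e2, Complex.norm_polarCoord_symm, smul_eq_mul]
      refine Measurable.mul (f := fun p : ℝ × ℝ => ENNReal.ofReal p.1) (by fun_prop) ?_
      have m1 : Measurable (fun p : ℝ × ℝ => √2 * (p.1 * cos p.2) + 1 * (p.1 * sin p.2)) := by
        fun_prop
      have m2 : Measurable (fun p : ℝ × ℝ => √2 * (p.1 * cos p.2) - 1 * (p.1 * sin p.2)) := by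
        fun_prop
      apply Measurable.ite
      · exact ((measurableSet_lt measurable_const m1).inter (measurableSet_lt measurable_const m2))
      · fun_prop
      · fun_prop
    rw [htar, setLIntegral_prod_symm _ hmeas.aemeasurable]
    apply lintegral_congr
    intro t
    have hr := radial5 (5 / 3 - x ^ 2) x (nn t) hx0
    unfold ZZ
    rw [← hr]
    apply setLIntegral_congr_fun measurableSet_Ioi
    intro r hr
    have hr' : (0 : ℝ) < r := hr
    have e1 : (Complex.polarCoord.symm (r, t)).re = r * cos t := by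
      simp [← Complex.ofReal_cos, ← Complex.ofReal_sin]
    have e2 : (Complex.polarCoord.symm (r, t)).im = r * sin t := by
      simp [← Complex.ofReal_cos, ← Complex.ofReal_sin]
    have hiff : (x < √2 * (r * cos t) + 1 * (r * sin t) ∧ x < √2 * (r * cos t) - 1 * (r * sin t)) ↔
        x < r * nn t := by
      unfold nn
      rw [mul_min_of_nonneg _ _ hr'.le, lt_min_iff]
      constructor
      · rintro ⟨h1, h2⟩
        exact ⟨by linarith, by linarith⟩
      · rintro ⟨h1, h2⟩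
        exact ⟨by linarith, by linarith⟩
    simp only [e1, e2, Complex.norm_polarCoord_symm, hiff, smul_eq_mul, abs_of_pos hr']
  rw [setLIntegral_congr_fun measurableSet_Ioi hinner]
  have hm : Measurable (fun p : ℝ × ℝ => ENNReal.ofReal (8 * π ^ 2 / 105 * ZZ p.1 (nn p.2))) := by
    have mn : Measurable (fun p : ℝ × ℝ => nn p.2) := by
      unfold nn
      apply Measurable.min
      · fun_prop
      · fun_prop
    have mz : Measurable (fun p : ℝ × ℝ => ZZ p.1 (nn p.2)) := by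
      unfold ZZ
      apply Measurable.ite (measurableSet_lt measurable_const mn) _ measurable_const
      fun_prop
    fun_prop
  rw [lintegral_lintegral_swap]
  exact hm.aemeasurable

end Pool.Agent.Lib.MP_f1379f_gt.FV.TV
end

section
/-!
# TVC: the triple volume is three times the volume of `D0`
-/
set_option autoImplicit false

namespace Pool.Agent.Lib.MP_f1379f_gt.FV.TV

open MeasureTheory Real PV

/-- General part: `a` is the smallest product. -/
def DD (a b c : E) : Set E := {y | ‖y‖ ^ 2 < 5 / 3 ∧ 1 < (inner ℝ a y : ℝ) ∧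
  (inner ℝ a y : ℝ) < inner ℝ b y ∧ (inner ℝ a y : ℝ) < inner ℝ c y}

theorem D0_eq : D0 = DD e0 e1 e2 := rfl

theorem meas_DD (a b c : E) : MeasurableSet (DD a b c) := by
  have c1 : Continuous (fun y : E => ‖y‖ ^ 2) := by fun_prop
  have ca : Continuous (fun y : E => (inner ℝ a y : ℝ)) := by fun_prop
  have cb : Continuous (fun y : E => (inner ℝ b y : ℝ)) := by fun_prop
  have cc : Continuous (fun y : E => (inner ℝ c y : ℝ)) := by fun_prop
  exact ((isOpen_lt c1 continuous_const).inter ((isOpen_lt continuous_const ca).inter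
    ((isOpen_lt ca cb).inter (isOpen_lt ca cc)))).measurableSet

/-- Isometries move the parts. -/
theorem DD_map (ρ : E ≃ₗᵢ[ℝ] E) (a b c : E) : volume (DD (ρ a) (ρ b) (ρ c)) = volume (DD a b c) := by
  have h : DD a b c = ρ ⁻¹' (DD (ρ a) (ρ b) (ρ c)) := by
    ext y
    simp only [DD, Set.mem_ofPred_eq, Set.mem_preimage, ρ.norm_map, ρ.inner_map_map]
  rw [h, ρ.measurePreserving.measure_preimage (meas_DD _ _ _).nullMeasurableSet]

/-- The reflection exchanging `a` and `b` fixes `c`. -/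
theorem refl_exists (a b c : E) (h : ‖a‖ = ‖b‖) (hc : (inner ℝ a c : ℝ) = inner ℝ b c) :
    ∃ ρ : E ≃ₗᵢ[ℝ] E, ρ a = b ∧ ρ b = a ∧ ρ c = c := by
  refine ⟨(ℝ ∙ (a - b))ᗮ.reflection, Submodule.reflection_sub h, ?_, ?_⟩
  · have h1 : (ℝ ∙ (a - b))ᗮ.reflection a = b := Submodule.reflection_sub h
    have h2 : (ℝ ∙ (a - b))ᗮ.reflection ((ℝ ∙ (a - b))ᗮ.reflection a) = a :=
      Submodule.reflection_reflection _ _
    rw [h1] at h2
    exact h2
  · apply Submodule.reflection_mem_subspace_eq_self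
    rw [Submodule.mem_orthogonal_singleton_iff_inner_right, inner_sub_left, hc, sub_self]

theorem null_hyper (v : E) (hv : v ≠ 0) : volume {y : E | (inner ℝ v y : ℝ) = 0} = 0 := by
  have h : {y : E | (inner ℝ v y : ℝ) = 0} = ((ℝ ∙ v)ᗮ : Submodule ℝ E) := by
    ext y
    simp only [Set.mem_ofPred_eq, SetLike.mem_coe, Submodule.mem_orthogonal_singleton_iff_inner_right]
  rw [h]
  apply Measure.addHaar_submodule
  intro htop
  have : v ∈ (ℝ ∙ v)ᗮ := by rw [htop]; trivial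
  rw [Submodule.mem_orthogonal_singleton_iff_inner_right] at this
  exact hv (inner_self_eq_zero.mp this)

theorem vol_triple : volume (cap e0 ∩ cap e1 ∩ cap e2) = 3 * volume D0 := by
  have i01 := inner_e01
  have i02 := inner_e02
  have i12 := inner_e12
  have i10 : (inner ℝ e1 e0 : ℝ) = 1 / 2 := by rw [real_inner_comm]; exact i01
  have i20 : (inner ℝ e2 e0 : ℝ) = 1 / 2 := by rw [real_inner_comm]; exact i02
  have i21 : (inner ℝ e2 e1 : ℝ) = 1 / 2 := by rw [real_inner_comm]; exact i12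
  have n0 := norm_e0
  have n1 := norm_e1
  have n2 := norm_e2
  -- the three parts have the same volume
  have v1 : volume (DD e1 e0 e2) = volume (DD e0 e1 e2) := by
    obtain ⟨ρ, r1, r2, r3⟩ := refl_exists e0 e1 e2 (by rw [n0, n1]) (by rw [i02, i12])
    have := DD_map ρ e0 e1 e2
    rw [r1, r2, r3] at this
    exact this
  have v2 : volume (DD e2 e1 e0) = volume (DD e0 e1 e2) := by
    obtain ⟨ρ, r1, r2, r3⟩ := refl_exists e0 e2 e1 (by rw [n0, n2]) (by rw [i01, i21])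
    have := DD_map ρ e0 e1 e2
    rw [r1, r2, r3] at this
    exact this
  have hne : ∀ a b : E, (inner ℝ a b : ℝ) = 1 / 2 → ‖a‖ = 1 → a - b ≠ 0 := by
    intro a b hab ha h0
    rw [sub_eq_zero] at h0
    rw [← h0, real_inner_self_eq_norm_sq, ha] at hab
    norm_num at hab
  have z1 := null_hyper (e0 - e1) (hne e0 e1 i01 n0)
  have z2 := null_hyper (e0 - e2) (hne e0 e2 i02 n0)
  have z3 := null_hyper (e1 - e2) (hne e1 e2 i12 n1)
  apply le_antisymm
  · have hsub : cap e0 ∩ cap e1 ∩ cap e2 ⊆ ((DD e0 e1 e2 ∪ DD e1 e0 e2) ∪ DD e2 e1 e0) ∪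
        (({y : E | (inner ℝ (e0 - e1) y : ℝ) = 0} ∪ {y : E | (inner ℝ (e0 - e2) y : ℝ) = 0}) ∪
          {y : E | (inner ℝ (e1 - e2) y : ℝ) = 0}) := by
      rintro y ⟨⟨⟨hy, h0⟩, ⟨_, h1⟩⟩, ⟨_, h2⟩⟩
      simp only [DD, Set.mem_union, Set.mem_ofPred_eq, inner_sub_left, sub_eq_zero]
      by_cases t1 : (inner ℝ e0 y : ℝ) = inner ℝ e1 y
      · right; left; left; exact t1
      by_cases t2 : (inner ℝ e0 y : ℝ) = inner ℝ e2 y
      · right; left; right; exact t2
      by_cases t3 : (inner ℝ e1 y : ℝ) = inner ℝ e2 y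
      · right; right; exact t3
      left
      rcases lt_or_gt_of_ne t1 with a1 | a1 <;> rcases lt_or_gt_of_ne t2 with a2 | a2 <;>
        rcases lt_or_gt_of_ne t3 with a3 | a3
      · left; left; exact ⟨hy, h0, a1, a2⟩
      · left; left; exact ⟨hy, h0, a1, a2⟩
      · exfalso; linarith
      · right; exact ⟨hy, h2, a3, a2⟩
      · left; right; exact ⟨hy, h1, a1, a3⟩
      · exfalso; linarith
      · left; right; exact ⟨hy, h1, a1, a3⟩
      · right; exact ⟨hy, h2, a3, a2⟩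
    refine le_trans (measure_mono hsub) ?_
    refine le_trans (measure_union_le _ _) ?_
    have hz : volume (({y : E | (inner ℝ (e0 - e1) y : ℝ) = 0} ∪
        {y : E | (inner ℝ (e0 - e2) y : ℝ) = 0}) ∪ {y : E | (inner ℝ (e1 - e2) y : ℝ) = 0}) = 0 :=
      measure_union_null (measure_union_null z1 z2) z3
    rw [hz, add_zero]
    refine le_trans (measure_union_le _ _) ?_
    rw [v2]
    refine le_trans (add_le_add_left (measure_union_le _ _) _) ?_
    rw [v1, D0_eq]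
    apply le_of_eq
    ring
  · have d1 : Disjoint (DD e0 e1 e2) (DD e1 e0 e2) := by
      rw [Set.disjoint_left]
      rintro y ⟨_, _, a1, _⟩ ⟨_, _, a2, _⟩
      linarith
    have d2 : Disjoint (DD e0 e1 e2 ∪ DD e1 e0 e2) (DD e2 e1 e0) := by
      rw [Set.disjoint_left]
      rintro y (⟨_, _, a1, a3⟩ | ⟨_, _, a1, a3⟩) ⟨_, _, a2, a4⟩
      · linarith
      · linarith
    have e : 3 * volume D0 = volume ((DD e0 e1 e2 ∪ DD e1 e0 e2) ∪ DD e2 e1 e0) := by
      rw [measure_union d2 (meas_DD _ _ _), measure_union d1 (meas_DD _ _ _), v1, v2, D0_eq]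
      ring
    rw [e]
    apply measure_mono
    rintro y ((⟨hy, h0, h1, h2⟩ | ⟨hy, h0, h1, h2⟩) | ⟨hy, h0, h1, h2⟩)
    · exact ⟨⟨⟨hy, h0⟩, ⟨hy, by linarith⟩⟩, ⟨hy, by linarith⟩⟩
    · exact ⟨⟨⟨hy, by linarith⟩, ⟨hy, h0⟩⟩, ⟨hy, by linarith⟩⟩
    · exact ⟨⟨⟨hy, by linarith⟩, ⟨hy, by linarith⟩⟩, ⟨hy, h0⟩⟩

end Pool.Agent.Lib.MP_f1379f_gt.FV.TV
end

section
/-!
# TVD: the inner integral of the triple volume: upper and lower bounds
-/
set_option autoImplicit false
set_option linter.unusedSimpArgs false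

namespace Pool.Agent.Lib.MP_f1379f_gt.FV.TV

open MeasureTheory Real PV

theorem hd (k : ℕ) (g : ℝ → ℝ) (g' p : ℝ) (hp : 0 < p) (hg : HasDerivAt g g' p) :
    HasDerivAt (fun p => √p ^ (k + 2) * g p)
      (√p ^ k * (((k : ℝ) + 2) / 2 * g p + p * g')) p := by
  have h1 := ((hasDerivAt_id p).sqrt hp.ne').pow (k + 2)
  have h2 := h1.mul hg
  refine h2.congr_deriv ?_
  have hs : 0 < √p := Real.sqrt_pos.mpr hp
  have hs2 : √p ^ 2 = p := Real.sq_sqrt hp.le
  have e1 : √p ^ (k + 2) = √p ^ k * p := by rw [pow_add, hs2]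
  have e2 : √p ^ (k + 2 - 1) = √p ^ k * √p := by
    rw [show k + 2 - 1 = k + 1 by omega, pow_succ]
  simp only [id, Pi.pow_apply]
  rw [e1, e2]
  push_cast
  field_simp

/-- Approximation of `(5/3 - p)^(-1/2)`. -/
noncomputable def Uf (a b p : ℝ) : ℝ := a * (1 + 3 / 10 * p + 27 / 200 * p ^ 2 + b * p ^ 3)

/-- Its integral against `p^(7/2)`, divided by `p^(9/2)`. -/
noncomputable def Yf (a b p : ℝ) : ℝ :=
  a * (2 / 9 + 3 / 10 * (2 / 11) * p + 27 / 200 * (2 / 13) * p ^ 2 + b * (2 / 15) * p ^ 3)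

theorem hasDerivAt_Y (a b p : ℝ) (hp : 0 < p) :
    HasDerivAt (fun p => √p ^ 9 * Yf a b p) (√p ^ 7 * Uf a b p) p := by
  have h1 : HasDerivAt (fun p : ℝ => Yf a b p)
      (a * (3 / 10 * (2 / 11) + 27 / 200 * (2 / 13) * (2 * p) + b * (2 / 15) * (3 * p ^ 2))) p := by
    unfold Yf
    have h0 := ((((hasDerivAt_const p (2 / 9 : ℝ)).add
      ((hasDerivAt_id p).const_mul (3 / 10 * (2 / 11) : ℝ))).add
      (((hasDerivAt_id p).pow 2).const_mul (27 / 200 * (2 / 13) : ℝ))).add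
      (((hasDerivAt_id p).pow 3).const_mul (b * (2 / 15) : ℝ))).const_mul a
    refine h0.congr_deriv ?_
    simp only [id]
    push_cast
    ring
  have h2 := hd 7 (fun p => Yf a b p) _ p hp h1
  refine h2.congr_deriv ?_
  unfold Yf Uf
  push_cast
  ring

/-- The inner integral. -/
noncomputable def Jin (q : ℝ) : ENNReal :=
  ∫⁻ x in Set.Ioi (1 : ℝ), ENNReal.ofReal (√(max 0 (5 / 3 - (5 / 3 - q) * x ^ 2)) ^ 7)

theorem Jin_zero (q : ℝ) (hq : q ≤ 0) : Jin q = 0 := by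
  unfold Jin
  rw [setLIntegral_congr_fun (g := fun _ => 0) measurableSet_Ioi]
  · simp
  · intro x hx
    have hx' : (1 : ℝ) < x := hx
    have h1 : 5 / 3 - (5 / 3 - q) * x ^ 2 ≤ 0 := by nlinarith
    simp [max_eq_left h1]

theorem Jin_eq (q : ℝ) (hq : 0 < q) (hq1 : q ≤ 1 / 6) :
    Jin q = ENNReal.ofReal (∫ x in (1 : ℝ)..√(5 / 3 / (5 / 3 - q)),
      √(5 / 3 - (5 / 3 - q) * x ^ 2) ^ 7) := by
  have hc : 0 < 5 / 3 - q := by linarith
  have hcm : 5 / 3 / (5 / 3 - q) * (5 / 3 - q) = 5 / 3 := div_mul_cancel₀ _ hc.ne'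
  have h1b : 1 ≤ √(5 / 3 / (5 / 3 - q)) := by
    rw [Real.one_le_sqrt, le_div_iff₀ hc]
    linarith
  have e1 : Jin q = ∫⁻ x in Set.Ioc (1 : ℝ) (√(5 / 3 / (5 / 3 - q))),
      ENNReal.ofReal (√(5 / 3 - (5 / 3 - q) * x ^ 2) ^ 7) := by
    unfold Jin
    rw [← lintegral_indicator measurableSet_Ioi, ← lintegral_indicator measurableSet_Ioc]
    apply lintegral_congr
    intro x
    by_cases hx : 1 < x
    · rw [Set.indicator_of_mem (show x ∈ Set.Ioi (1 : ℝ) from hx)]
      by_cases h3 : x ≤ √(5 / 3 / (5 / 3 - q))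
      · rw [Set.indicator_of_mem (show x ∈ Set.Ioc (1 : ℝ) _ from ⟨hx, h3⟩)]
        have h4 : x ^ 2 ≤ 5 / 3 / (5 / 3 - q) := by
          rw [← Real.sq_sqrt (show 0 ≤ 5 / 3 / (5 / 3 - q) by positivity)]
          exact pow_le_pow_left₀ (by linarith) h3 2
        have h5 : (5 / 3 - q) * x ^ 2 ≤ 5 / 3 := by
          rw [le_div_iff₀ hc] at h4
          linarith
        rw [max_eq_right (by linarith)]
      · rw [Set.indicator_of_notMem (fun h => h3 h.2)]
        have h4 : 5 / 3 / (5 / 3 - q) < x ^ 2 := by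
          rw [← Real.sq_sqrt (show 0 ≤ 5 / 3 / (5 / 3 - q) by positivity)]
          exact pow_lt_pow_left₀ (not_le.mp h3) (Real.sqrt_nonneg _) (by norm_num)
        have h5 : 5 / 3 < (5 / 3 - q) * x ^ 2 := by
          rw [div_lt_iff₀ hc] at h4
          linarith
        rw [max_eq_left (by linarith)]
        simp
    · rw [Set.indicator_of_notMem (show x ∉ Set.Ioi (1 : ℝ) from hx),
          Set.indicator_of_notMem (fun h => hx h.1)]
  have hcont : Continuous (fun x : ℝ => √(5 / 3 - (5 / 3 - q) * x ^ 2) ^ 7) := by fun_prop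
  rw [e1, ← ofReal_integral_eq_lintegral_ofReal, ← intervalIntegral.integral_of_le h1b]
  · exact hcont.integrableOn_Ioc
  · exact Filter.Eventually.of_forall fun x => by positivity

theorem inner_int (a b q : ℝ) (hq : 0 < q) (hq1 : q ≤ 1 / 6) :
    ∫ x in (1 : ℝ)..√(5 / 3 / (5 / 3 - q)),
      √(5 / 3 - (5 / 3 - q) * x ^ 2) ^ 7 *
        (√(5 / 3 - q) * x * Uf a b (5 / 3 - (5 / 3 - q) * x ^ 2)) =
      √q ^ 9 * Yf a b q / (2 * √(5 / 3 - q)) := by
  have hc : 0 < 5 / 3 - q := by linarith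
  have hcm : 5 / 3 / (5 / 3 - q) * (5 / 3 - q) = 5 / 3 := div_mul_cancel₀ _ hc.ne'
  have h1b : 1 ≤ √(5 / 3 / (5 / 3 - q)) := by
    rw [Real.one_le_sqrt, le_div_iff₀ hc]
    linarith
  have hsc : 0 < √(5 / 3 - q) := Real.sqrt_pos.mpr hc
  have hsc2 : √(5 / 3 - q) ^ 2 = 5 / 3 - q := Real.sq_sqrt hc.le
  have hder : ∀ x ∈ Set.Ioo (1 : ℝ) (√(5 / 3 / (5 / 3 - q))), HasDerivAt
      (fun x : ℝ => -(1 / (2 * √(5 / 3 - q))) * (√(5 / 3 - (5 / 3 - q) * x ^ 2) ^ 9 *
        Yf a b (5 / 3 - (5 / 3 - q) * x ^ 2)))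
      (√(5 / 3 - (5 / 3 - q) * x ^ 2) ^ 7 *
        (√(5 / 3 - q) * x * Uf a b (5 / 3 - (5 / 3 - q) * x ^ 2))) x := by
    intro x hx
    have hx0 : 0 < x := lt_trans one_pos hx.1
    have hpos : 0 < 5 / 3 - (5 / 3 - q) * x ^ 2 := by
      have : x ^ 2 < √(5 / 3 / (5 / 3 - q)) ^ 2 := pow_lt_pow_left₀ hx.2 hx0.le (by norm_num)
      rw [Real.sq_sqrt (by positivity), lt_div_iff₀ hc] at this
      linarith
    have h1 : HasDerivAt (fun x : ℝ => 5 / 3 - (5 / 3 - q) * x ^ 2)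
        (0 - (5 / 3 - q) * ((2 : ℕ) * x ^ (2 - 1) * 1)) x :=
      (hasDerivAt_const x (5 / 3 : ℝ)).sub (((hasDerivAt_id x).pow 2).const_mul _)
    have h2 := ((hasDerivAt_Y a b _ hpos).comp x h1).const_mul (-(1 / (2 * √(5 / 3 - q))))
    refine h2.congr_deriv ?_
    generalize Uf a b (5 / 3 - (5 / 3 - q) * x ^ 2) = UP
    generalize √(5 / 3 - (5 / 3 - q) * x ^ 2) = QP
    have hne := hsc.ne'
    rw [← hsc2]
    rw [Real.sqrt_sq hsc.le]
    generalize √(5 / 3 - q) = s at hne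
    push_cast
    field_simp
    ring
  have hcontd : Continuous (fun x : ℝ => √(5 / 3 - (5 / 3 - q) * x ^ 2) ^ 7 *
        (√(5 / 3 - q) * x * Uf a b (5 / 3 - (5 / 3 - q) * x ^ 2))) := by
    unfold Uf
    fun_prop
  have hcontf : Continuous (fun x : ℝ => -(1 / (2 * √(5 / 3 - q))) *
      (√(5 / 3 - (5 / 3 - q) * x ^ 2) ^ 9 * Yf a b (5 / 3 - (5 / 3 - q) * x ^ 2))) := by
    unfold Yf
    fun_prop
  rw [intervalIntegral.integral_eq_sub_of_hasDerivAt_of_le h1b hcontf.continuousOn hder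
    (hcontd.intervalIntegrable _ _)]
  have e1 : 5 / 3 - (5 / 3 - q) * √(5 / 3 / (5 / 3 - q)) ^ 2 = 0 := by
    rw [Real.sq_sqrt (by positivity)]
    linarith
  have e2 : 5 / 3 - (5 / 3 - q) * 1 ^ 2 = q := by ring
  rw [e1, e2]
  simp only [Real.sqrt_zero]
  field_simp
  ring

/-- Upper parameters. -/
theorem U_up (p : ℝ) (h0 : 0 ≤ p) (h1 : p ≤ 1 / 6) :
    1 ≤ Uf (774597 / 1000000) (741 / 10000) p ^ 2 * (5 / 3 - p) := by
  have h2 : p ^ 2 ≤ 1 / 36 := by nlinarith
  have h3 : p ^ 3 ≤ 1 / 216 := by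
    have := pow_le_pow_left₀ h0 h1 3
    norm_num at this ⊢
    linarith
  have h4 : p ^ 4 ≤ 1 / 1296 := by
    have := pow_le_pow_left₀ h0 h1 4
    norm_num at this ⊢
    linarith
  obtain ⟨r, hr⟩ : ∃ r, r = Uf (774597 / 1000000) (741 / 10000) p ^ 2 * (5 / 3 - p) - 1 := ⟨_, rfl⟩
  have e : r = (170803 / 200000000000) + p ^ 3 * ((6600005636499 / 500000000000000) - (2993402556408501 / 40000000000000000) * p - (880200751704003 / 50000000000000000) * p ^ 2 - (130267911250655217 / 20000000000000000000) * p ^ 3 - (329448881354046129 / 100000000000000000000) * p ^ 4) := by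
    rw [hr]; unfold Uf; ring
  have hb : 0 ≤ (6600005636499 / 500000000000000) - (2993402556408501 / 40000000000000000) * p - (880200751704003 / 50000000000000000) * p ^ 2 - (130267911250655217 / 20000000000000000000) * p ^ 3 - (329448881354046129 / 100000000000000000000) * p ^ 4 := by
    linarith
  have h5 : 0 ≤ r := by
    rw [e]; positivity
  linarith

theorem U_lo (p : ℝ) (h0 : 0 ≤ p) (h1 : p ≤ 1 / 6) :
    Uf (774596 / 1000000) (675 / 10000) p ^ 2 * (5 / 3 - p) ≤ 1 := by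
  obtain ⟨r, hr⟩ : ∃ r, r = 1 - Uf (774596 / 1000000) (675 / 10000) p ^ 2 * (5 / 3 - p) := ⟨_, rfl⟩
  have e : r = (64799 / 37500000000) + (7087487752989 / 100000000000000) * p ^ 4 + (21262463258967 / 1250000000000000) * p ^ 5 + (63787389776901 / 10000000000000000) * p ^ 6 + (27337452761529 / 10000000000000000) * p ^ 7 := by
    rw [hr]; unfold Uf; ring
  have h5 : 0 ≤ r := by
    rw [e]; positivity
  linarith

theorem Jin_le (q : ℝ) (hq : 0 < q) (hq1 : q ≤ 1 / 6) :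
    Jin q ≤ ENNReal.ofReal (√q ^ 9 * (Uf (774597 / 1000000) (741 / 10000) q *
      Yf (774597 / 1000000) (741 / 10000) q) / 2) := by
  have hc : 0 < 5 / 3 - q := by linarith
  have hsc : 0 < √(5 / 3 - q) := Real.sqrt_pos.mpr hc
  have hsc2 : √(5 / 3 - q) ^ 2 = 5 / 3 - q := Real.sq_sqrt hc.le
  have hUq : 0 < Uf (774597 / 1000000) (741 / 10000) q := by unfold Uf; positivity
  have hYq : 0 < Yf (774597 / 1000000) (741 / 10000) q := by unfold Yf; positivity
  have h1b : 1 ≤ √(5 / 3 / (5 / 3 - q)) := by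
    rw [Real.one_le_sqrt, le_div_iff₀ hc]
    linarith
  rw [Jin_eq q hq hq1]
  apply ENNReal.ofReal_le_ofReal
  have hcont : Continuous (fun x : ℝ => √(5 / 3 - (5 / 3 - q) * x ^ 2) ^ 7) := by fun_prop
  have hcontd : Continuous (fun x : ℝ => √(5 / 3 - (5 / 3 - q) * x ^ 2) ^ 7 *
        (√(5 / 3 - q) * x * Uf (774597 / 1000000) (741 / 10000)
          (5 / 3 - (5 / 3 - q) * x ^ 2))) := by
    unfold Uf
    fun_prop
  have hmono : ∫ x in (1 : ℝ)..√(5 / 3 / (5 / 3 - q)), √(5 / 3 - (5 / 3 - q) * x ^ 2) ^ 7 ≤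
      ∫ x in (1 : ℝ)..√(5 / 3 / (5 / 3 - q)), √(5 / 3 - (5 / 3 - q) * x ^ 2) ^ 7 *
        (√(5 / 3 - q) * x * Uf (774597 / 1000000) (741 / 10000)
          (5 / 3 - (5 / 3 - q) * x ^ 2)) := by
    apply intervalIntegral.integral_mono_on h1b (hcont.intervalIntegrable _ _)
      (hcontd.intervalIntegrable _ _)
    intro x hx
    have hx0 : 0 < x := lt_of_lt_of_le one_pos hx.1
    have hp0 : 0 ≤ 5 / 3 - (5 / 3 - q) * x ^ 2 := by
      have : x ^ 2 ≤ √(5 / 3 / (5 / 3 - q)) ^ 2 := pow_le_pow_left₀ hx0.le hx.2 2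
      rw [Real.sq_sqrt (by positivity), le_div_iff₀ hc] at this
      linarith
    have hx1 : 1 ≤ x ^ 2 := one_le_pow₀ hx.1
    have hp1 : 5 / 3 - (5 / 3 - q) * x ^ 2 ≤ 1 / 6 := by nlinarith
    have hU := U_up _ hp0 hp1
    have hUp : 0 < Uf (774597 / 1000000) (741 / 10000) (5 / 3 - (5 / 3 - q) * x ^ 2) := by
      unfold Uf; positivity
    have h1 : 1 ≤ √(5 / 3 - q) * x *
        Uf (774597 / 1000000) (741 / 10000) (5 / 3 - (5 / 3 - q) * x ^ 2) := by
      rw [← pow_le_pow_iff_left₀ zero_le_one (by positivity) two_ne_zero, mul_pow, mul_pow, hsc2]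
      nlinarith
    exact le_mul_of_one_le_right (by positivity) h1
  refine le_trans hmono ?_
  rw [inner_int _ _ q hq hq1]
  have hU := U_up q hq.le hq1
  have h1 : 1 ≤ √(5 / 3 - q) * Uf (774597 / 1000000) (741 / 10000) q := by
    rw [← pow_le_pow_iff_left₀ zero_le_one (by positivity) two_ne_zero, mul_pow, hsc2]
    nlinarith
  rw [div_le_div_iff₀ (by positivity) (by norm_num)]
  have h2 : 0 < √q ^ 9 * Yf (774597 / 1000000) (741 / 10000) q := by
    have : 0 < √q := Real.sqrt_pos.mpr hq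
    positivity
  nlinarith [mul_le_mul_of_nonneg_left h1 h2.le]

theorem Jin_ge (q : ℝ) (hq : 0 < q) (hq1 : q ≤ 1 / 6) :
    ENNReal.ofReal (√q ^ 9 * (Uf (774596 / 1000000) (675 / 10000) q *
      Yf (774596 / 1000000) (675 / 10000) q) / 2) ≤ Jin q := by
  have hc : 0 < 5 / 3 - q := by linarith
  have hsc : 0 < √(5 / 3 - q) := Real.sqrt_pos.mpr hc
  have hsc2 : √(5 / 3 - q) ^ 2 = 5 / 3 - q := Real.sq_sqrt hc.le
  have hUq : 0 < Uf (774596 / 1000000) (675 / 10000) q := by unfold Uf; positivity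
  have hYq : 0 < Yf (774596 / 1000000) (675 / 10000) q := by unfold Yf; positivity
  have h1b : 1 ≤ √(5 / 3 / (5 / 3 - q)) := by
    rw [Real.one_le_sqrt, le_div_iff₀ hc]
    linarith
  rw [Jin_eq q hq hq1]
  apply ENNReal.ofReal_le_ofReal
  have hcont : Continuous (fun x : ℝ => √(5 / 3 - (5 / 3 - q) * x ^ 2) ^ 7) := by fun_prop
  have hcontd : Continuous (fun x : ℝ => √(5 / 3 - (5 / 3 - q) * x ^ 2) ^ 7 *
        (√(5 / 3 - q) * x * Uf (774596 / 1000000) (675 / 10000)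
          (5 / 3 - (5 / 3 - q) * x ^ 2))) := by
    unfold Uf
    fun_prop
  have hmono : ∫ x in (1 : ℝ)..√(5 / 3 / (5 / 3 - q)), √(5 / 3 - (5 / 3 - q) * x ^ 2) ^ 7 *
        (√(5 / 3 - q) * x * Uf (774596 / 1000000) (675 / 10000)
          (5 / 3 - (5 / 3 - q) * x ^ 2)) ≤
      ∫ x in (1 : ℝ)..√(5 / 3 / (5 / 3 - q)), √(5 / 3 - (5 / 3 - q) * x ^ 2) ^ 7 := by
    apply intervalIntegral.integral_mono_on h1b (hcontd.intervalIntegrable _ _)
      (hcont.intervalIntegrable _ _)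
    intro x hx
    have hx0 : 0 < x := lt_of_lt_of_le one_pos hx.1
    have hp0 : 0 ≤ 5 / 3 - (5 / 3 - q) * x ^ 2 := by
      have : x ^ 2 ≤ √(5 / 3 / (5 / 3 - q)) ^ 2 := pow_le_pow_left₀ hx0.le hx.2 2
      rw [Real.sq_sqrt (by positivity), le_div_iff₀ hc] at this
      linarith
    have hx1 : 1 ≤ x ^ 2 := one_le_pow₀ hx.1
    have hp1 : 5 / 3 - (5 / 3 - q) * x ^ 2 ≤ 1 / 6 := by nlinarith
    have hU := U_lo _ hp0 hp1
    have hUp : 0 < Uf (774596 / 1000000) (675 / 10000) (5 / 3 - (5 / 3 - q) * x ^ 2) := by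
      unfold Uf; positivity
    have h1 : √(5 / 3 - q) * x *
        Uf (774596 / 1000000) (675 / 10000) (5 / 3 - (5 / 3 - q) * x ^ 2) ≤ 1 := by
      rw [← pow_le_pow_iff_left₀ (by positivity) zero_le_one two_ne_zero, mul_pow, mul_pow, hsc2]
      nlinarith
    exact mul_le_of_le_one_right (by positivity) h1
  refine le_trans ?_ hmono
  rw [inner_int _ _ q hq hq1]
  have hU := U_lo q hq.le hq1
  have h1 : √(5 / 3 - q) * Uf (774596 / 1000000) (675 / 10000) q ≤ 1 := by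
    rw [← pow_le_pow_iff_left₀ (by positivity) zero_le_one two_ne_zero, mul_pow, hsc2]
    nlinarith
  rw [div_le_div_iff₀ (by norm_num) (by positivity)]
  have h2 : 0 < √q ^ 9 * Yf (774596 / 1000000) (675 / 10000) q := by
    have : 0 < √q := Real.sqrt_pos.mpr hq
    positivity
  nlinarith [mul_le_mul_of_nonneg_left h1 h2.le]

end Pool.Agent.Lib.MP_f1379f_gt.FV.TV
end

section
/-!
# TVE: the outer integral
-/
set_option autoImplicit false
set_option linter.unusedSimpArgs false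

namespace Pool.Agent.Lib.MP_f1379f_gt.FV.TV

open MeasureTheory Real PV

/-- The angular function on positive angles. -/
noncomputable def Nf (t : ℝ) : ℝ := √2 * cos t - 1 * sin t

/-- Minus its derivative. -/
noncomputable def Mf (t : ℝ) : ℝ := √2 * sin t + cos t

theorem NM (t : ℝ) : Nf t ^ 2 + Mf t ^ 2 = 3 := by
  have s2 : √(2 : ℝ) ^ 2 = 2 := Real.sq_sqrt (by norm_num)
  have h := Real.sin_sq_add_cos_sq t
  unfold Nf Mf
  have : (√2 * cos t - 1 * sin t) ^ 2 + (√2 * sin t + cos t) ^ 2 =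
      (√2 ^ 2 + 1) * (sin t ^ 2 + cos t ^ 2) := by ring
  rw [this, h, s2]; norm_num

theorem hasDerivAt_N (t : ℝ) : HasDerivAt Nf (-Mf t) t := by
  have h := ((hasDerivAt_cos t).const_mul (√2)).sub ((hasDerivAt_sin t).const_mul (1 : ℝ))
  refine h.congr_deriv ?_
  unfold Mf; ring

theorem cont_N : Continuous Nf := by unfold Nf; fun_prop

theorem cont_M : Continuous Mf := by unfold Mf; fun_prop

theorem nn_eq (t : ℝ) (h0 : 0 < t) (h1 : t < π) : nn t = Nf t := by
  have := Real.sin_pos_of_pos_of_lt_pi h0 h1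
  unfold nn Nf
  rw [min_eq_right (by linarith)]

theorem nn_neg (t : ℝ) : nn (-t) = nn t := by
  unfold nn
  rw [Real.cos_neg, Real.sin_neg, min_comm]
  congr 1 <;> ring

theorem N_anti : StrictAntiOn Nf (Set.Icc 0 (π / 2)) := by
  intro a ha b hb hab
  have hpi := Real.pi_pos
  have h1 : cos b < cos a := Real.strictAntiOn_cos ⟨ha.1, by linarith [ha.2]⟩
    ⟨hb.1, by linarith [hb.2]⟩ hab
  have h2 : sin a < sin b := Real.strictMonoOn_sin ⟨by linarith [ha.1], ha.2⟩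
    ⟨by linarith [hb.1], hb.2⟩ hab
  have h3 : 0 < √(2 : ℝ) := Real.sqrt_pos.mpr (by norm_num)
  unfold Nf
  nlinarith

theorem exists_t1 : ∃ t1 ∈ Set.Ioo 0 (π / 2), Nf t1 = √(3 / 2) := by
  have hpi := Real.pi_pos
  have h := intermediate_value_Ioo' (show (0 : ℝ) ≤ π / 2 by linarith) cont_N.continuousOn
  apply h
  constructor
  · unfold Nf
    rw [Real.cos_pi_div_two, Real.sin_pi_div_two]
    have : 0 ≤ √(3 / 2 : ℝ) := Real.sqrt_nonneg _
    linarith
  · unfold Nf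
    rw [Real.cos_zero, Real.sin_zero]
    have : √(3 / 2 : ℝ) < √2 := Real.sqrt_lt_sqrt (by norm_num) (by norm_num)
    linarith

theorem N_le (t1 : ℝ) (h1 : t1 ∈ Set.Ioo 0 (π / 2)) (hN : Nf t1 = √(3 / 2)) (t : ℝ)
    (h : t1 ≤ t) (hp : t < π) : Nf t ≤ √(3 / 2) := by
  rcases le_or_gt t (π / 2) with h2 | h2
  · rw [← hN]
    exact N_anti.antitoneOn ⟨h1.1.le, h1.2.le⟩ ⟨by linarith [h1.1], h2⟩ h
  · have hc : cos t ≤ 0 := Real.cos_nonpos_of_pi_div_two_le_of_le h2.le (by linarith)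
    have hs : 0 ≤ sin t := Real.sin_nonneg_of_nonneg_of_le_pi (by linarith [h1.1]) hp.le
    have h3 : 0 < √(2 : ℝ) := Real.sqrt_pos.mpr (by norm_num)
    have h4 : 0 ≤ √(3 / 2 : ℝ) := Real.sqrt_nonneg _
    unfold Nf
    nlinarith

theorem N_gt (t1 : ℝ) (h1 : t1 ∈ Set.Ioo 0 (π / 2)) (hN : Nf t1 = √(3 / 2)) (t : ℝ)
    (h0 : 0 ≤ t) (h : t < t1) : √(3 / 2) < Nf t := by
  rw [← hN]
  exact N_anti ⟨h0, by linarith [h1.2]⟩ ⟨h1.1.le, h1.2.le⟩ h

/-- `q` as a function of the angle. -/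
noncomputable def qf (t : ℝ) : ℝ := 2 / 3 - 1 / Nf t ^ 2

theorem zz_int (n : ℝ) (hn : 0 < n) :
    ∫⁻ x in Set.Ioi (1 : ℝ), ENNReal.ofReal (8 * π ^ 2 / 105 * ZZ x n) =
      ENNReal.ofReal (8 * π ^ 2 / 105) * Jin (2 / 3 - 1 / n ^ 2) := by
  unfold Jin
  rw [← lintegral_const_mul]
  · apply setLIntegral_congr_fun measurableSet_Ioi
    intro x _
    show ENNReal.ofReal (8 * π ^ 2 / 105 * ZZ x n) = _
    unfold ZZ
    rw [if_pos hn, ENNReal.ofReal_mul (by positivity)]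
    rw [show (5 / 3 - x ^ 2 - x ^ 2 / n ^ 2 : ℝ) = 5 / 3 - (5 / 3 - (2 / 3 - 1 / n ^ 2)) * x ^ 2 by
      ring]
  · fun_prop

theorem zz_zero (n : ℝ) (hn : n ≤ √(3 / 2)) :
    ∫⁻ x in Set.Ioi (1 : ℝ), ENNReal.ofReal (8 * π ^ 2 / 105 * ZZ x n) = 0 := by
  rcases le_or_gt n 0 with h | h
  · rw [setLIntegral_congr_fun (g := fun _ => 0) measurableSet_Ioi]
    · simp
    · intro x _
      simp [ZZ, not_lt.mpr h]
  · rw [zz_int n h, Jin_zero, mul_zero]
    have h2 : n ^ 2 ≤ 3 / 2 := by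
      have := pow_le_pow_left₀ h.le hn 2
      rwa [Real.sq_sqrt (by norm_num)] at this
    have h3 : 2 / 3 ≤ 1 / n ^ 2 := by
      rw [le_div_iff₀ (by positivity)]
      linarith
    linarith

/-- Symmetrisation. -/
theorem sym_int (F : ℝ → ENNReal) (hF : ∀ t, F (-t) = F t) :
    ∫⁻ t in Set.Ioo (-π) π, F t = 2 * ∫⁻ t in Set.Ioo 0 π, F t := by
  have hpi := Real.pi_pos
  have e1 : ∫⁻ t in Set.Ioo (-π) 0, F t = ∫⁻ t in Set.Ioo 0 π, F t := by
    rw [← lintegral_indicator measurableSet_Ioo, ← lintegral_indicator measurableSet_Ioo,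
      ← lintegral_neg_eq_self]
    apply lintegral_congr
    intro t
    by_cases h : t ∈ Set.Ioo 0 π
    · rw [Set.indicator_of_mem h, Set.indicator_of_mem (show -t ∈ Set.Ioo (-π) 0 from
        ⟨by linarith [h.2], by linarith [h.1]⟩), hF]
    · rw [Set.indicator_of_notMem h, Set.indicator_of_notMem]
      intro h2
      exact h ⟨by linarith [h2.2], by linarith [h2.1]⟩
  have e2 : ∫⁻ t in Set.Ioo (-π) π, F t =
      ∫⁻ t in (Set.Ioo (-π) 0 ∪ Set.Ioo 0 π), F t := by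
    apply setLIntegral_congr
    have : Set.Ioo (-π) π = (Set.Ioo (-π) 0 ∪ Set.Ioo 0 π) ∪ {0} := by
      ext t
      simp only [Set.mem_Ioo, Set.mem_union, Set.mem_singleton_iff]
      constructor
      · rintro ⟨h1, h2⟩
        rcases lt_trichotomy t 0 with h | h | h
        · left; left; exact ⟨h1, h⟩
        · right; exact h
        · left; right; exact ⟨h, h2⟩
      · rintro ((⟨h1, h2⟩ | ⟨h1, h2⟩) | h)
        · exact ⟨h1, by linarith⟩
        · exact ⟨by linarith, h2⟩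
        · rw [h]; exact ⟨by linarith, by linarith⟩
    rw [this]
    exact union_ae_eq_left_of_ae_eq_empty (by simp)
  rw [e2, lintegral_union measurableSet_Ioo, e1, two_mul]
  rw [Set.disjoint_left]
  intro t h1 h2
  exact absurd h1.2 (not_lt.mpr h2.1.le)

theorem D0_outer (t1 : ℝ) (h1 : t1 ∈ Set.Ioo 0 (π / 2)) (hN : Nf t1 = √(3 / 2)) :
    volume D0 = 2 * (ENNReal.ofReal (8 * π ^ 2 / 105) *
      ∫⁻ t in Set.Ioo 0 t1, Jin (qf t)) := by
  have hpi := Real.pi_pos
  rw [D0_double, sym_int _ (fun t => by rw [nn_neg])]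
  congr 1
  rw [← lintegral_const_mul' _ _ ENNReal.ofReal_ne_top]
  rw [← lintegral_indicator measurableSet_Ioo, ← lintegral_indicator measurableSet_Ioo]
  apply lintegral_congr
  intro t
  by_cases ht : t ∈ Set.Ioo 0 t1
  · have ht2 : t ∈ Set.Ioo 0 π := ⟨ht.1, by linarith [ht.2, h1.2]⟩
    rw [Set.indicator_of_mem ht, Set.indicator_of_mem ht2, nn_eq t ht2.1 ht2.2]
    have h3 : 0 < Nf t := lt_of_le_of_lt (Real.sqrt_nonneg _) (N_gt t1 h1 hN t ht.1.le ht.2)
    rw [zz_int _ h3]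
    rfl
  · rw [Set.indicator_of_notMem ht]
    by_cases ht2 : t ∈ Set.Ioo 0 π
    · rw [Set.indicator_of_mem ht2, nn_eq t ht2.1 ht2.2]
      apply zz_zero
      apply N_le t1 h1 hN t _ ht2.2
      by_contra h4
      exact ht ⟨ht2.1, not_le.mp h4⟩
    · rw [Set.indicator_of_notMem ht2]

/-- The comparison integral. -/
theorem outer_int (t1 : ℝ) (h1 : t1 ∈ Set.Ioo 0 (π / 2)) (hN : Nf t1 = √(3 / 2))
    (S X : ℝ → ℝ) (hS : Continuous S) (hX : Continuous X)
    (hd : ∀ q, 0 < q → HasDerivAt (fun q => √q ^ 11 * X q) (√q ^ 9 * S q) q)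
    (hpos : ∀ q, 0 ≤ q → q ≤ 1 / 6 → 0 ≤ S q) :
    ∫⁻ t in Set.Ioo 0 t1, ENNReal.ofReal (2 * Mf t / Nf t ^ 3 * (√(qf t) ^ 9 * S (qf t))) =
      ENNReal.ofReal (√(1 / 6) ^ 11 * X (1 / 6)) := by
  have hpi := Real.pi_pos
  have hN0 : ∀ t ∈ Set.Icc 0 t1, √(3 / 2) ≤ Nf t := by
    intro t ht
    rcases eq_or_lt_of_le ht.2 with h | h
    · rw [h, hN]
    · exact (N_gt t1 h1 hN t ht.1 h).le
  have hs32 : 0 < √(3 / 2 : ℝ) := Real.sqrt_pos.mpr (by norm_num)
  have hNp : ∀ t ∈ Set.Icc 0 t1, 0 < Nf t := fun t ht => lt_of_lt_of_le hs32 (hN0 t ht)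
  have hq0 : ∀ t ∈ Set.Ioo 0 t1, 0 < qf t := by
    intro t ht
    have h3 := N_gt t1 h1 hN t ht.1.le ht.2
    have h4 : 3 / 2 < Nf t ^ 2 := by
      have := pow_lt_pow_left₀ h3 (Real.sqrt_nonneg _) two_ne_zero
      rwa [Real.sq_sqrt (by norm_num)] at this
    unfold qf
    have : 1 / Nf t ^ 2 < 2 / 3 := by
      rw [div_lt_iff₀ (by linarith)]
      linarith
    linarith
  have hcq : ContinuousOn qf (Set.Icc 0 t1) := by
    unfold qf
    apply ContinuousOn.sub continuousOn_const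
    apply ContinuousOn.div continuousOn_const (cont_N.continuousOn.pow 2)
    intro t ht
    exact pow_ne_zero _ (hNp t ht).ne'
  have hcd : ContinuousOn (fun t => 2 * Mf t / Nf t ^ 3 * (√(qf t) ^ 9 * S (qf t)))
      (Set.Icc 0 t1) := by
    apply ContinuousOn.mul
    · apply ContinuousOn.div (continuousOn_const.mul cont_M.continuousOn)
        (cont_N.continuousOn.pow 3)
      intro t ht
      exact pow_ne_zero _ (hNp t ht).ne'
    · apply ContinuousOn.mul
      · exact (Real.continuous_sqrt.comp_continuousOn hcq).pow 9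
      · exact hS.comp_continuousOn hcq
  have hcf : ContinuousOn (fun t => -(√(qf t) ^ 11 * X (qf t))) (Set.Icc 0 t1) := by
    apply ContinuousOn.neg
    apply ContinuousOn.mul
    · exact (Real.continuous_sqrt.comp_continuousOn hcq).pow 11
    · exact hX.comp_continuousOn hcq
  have hder : ∀ t ∈ Set.Ioo 0 t1, HasDerivAt (fun t => -(√(qf t) ^ 11 * X (qf t)))
      (2 * Mf t / Nf t ^ 3 * (√(qf t) ^ 9 * S (qf t))) t := by
    intro t ht
    have hn := hNp t ⟨ht.1.le, ht.2.le⟩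
    have e1 : HasDerivAt qf (-(2 * Mf t / Nf t ^ 3)) t := by
      have h0 := (hasDerivAt_const t (2 / 3 : ℝ)).sub
        ((hasDerivAt_const t (1 : ℝ)).div ((hasDerivAt_N t).pow 2) (pow_ne_zero 2 hn.ne'))
      refine h0.congr_deriv ?_
      simp only [Pi.pow_apply]
      push_cast
      field_simp
      ring
    have h2 := ((hd _ (hq0 t ht)).comp t e1).neg
    refine h2.congr_deriv ?_
    ring
  have hM0 : ∀ t ∈ Set.Icc 0 t1, 0 ≤ Mf t := by
    intro t ht
    have c1 : 0 ≤ cos t := Real.cos_nonneg_of_neg_pi_div_two_le_of_le (by linarith [ht.1])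
      (by linarith [ht.2, h1.2])
    have c2 : 0 ≤ sin t := Real.sin_nonneg_of_nonneg_of_le_pi ht.1 (by linarith [ht.2, h1.2])
    unfold Mf
    positivity
  have hq1 : ∀ t ∈ Set.Icc 0 t1, 0 ≤ qf t ∧ qf t ≤ 1 / 6 := by
    intro t ht
    have a1 : 3 / 2 ≤ Nf t ^ 2 := by
      have := pow_le_pow_left₀ (Real.sqrt_nonneg _) (hN0 t ht) 2
      rwa [Real.sq_sqrt (by norm_num)] at this
    have a2 : Nf t ≤ √2 := by
      have h5 : Nf t ≤ Nf 0 :=
        N_anti.antitoneOn ⟨le_refl _, by linarith⟩ ⟨ht.1, by linarith [ht.2, h1.2]⟩ ht.1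
      unfold Nf at h5 ⊢
      rw [Real.cos_zero, Real.sin_zero] at h5
      linarith
    have a3 : Nf t ^ 2 ≤ 2 := by
      have := pow_le_pow_left₀ (hNp t ht).le a2 2
      rwa [Real.sq_sqrt (by norm_num)] at this
    have a4 : 1 / Nf t ^ 2 ≤ 2 / 3 := by
      rw [div_le_iff₀ (by linarith)]
      linarith
    have a5 : 1 / 2 ≤ 1 / Nf t ^ 2 := by
      rw [le_div_iff₀ (by linarith)]
      linarith
    unfold qf
    constructor <;> linarith
  rw [setLIntegral_congr Ioo_ae_eq_Ioc, ← ofReal_integral_eq_lintegral_ofReal,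
    ← intervalIntegral.integral_of_le h1.1.le]
  · rw [intervalIntegral.integral_eq_sub_of_hasDerivAt_of_le h1.1.le hcf hder]
    · have e1 : qf t1 = 0 := by
        unfold qf
        rw [hN, Real.sq_sqrt (by norm_num)]
        norm_num
      have e2 : qf 0 = 1 / 6 := by
        unfold qf Nf
        rw [Real.cos_zero, Real.sin_zero]
        have : (√2 * 1 - 1 * 0) ^ 2 = (2 : ℝ) := by
          rw [mul_one, mul_zero, sub_zero, Real.sq_sqrt (by norm_num)]
        rw [this]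
        norm_num
      rw [e1, e2]
      simp
    · exact ContinuousOn.intervalIntegrable (by rw [Set.uIcc_of_le h1.1.le]; exact hcd)
  · exact (hcd.integrableOn_Icc).mono_set Set.Ioc_subset_Icc_self
  · rw [Filter.EventuallyLE, ae_restrict_iff' measurableSet_Ioc]
    refine Filter.Eventually.of_forall fun t ht => ?_
    have ht' : t ∈ Set.Icc 0 t1 := ⟨ht.1.le, ht.2⟩
    have b1 := hM0 t ht'
    have b2 := hNp t ht'
    have b3 := hpos _ (hq1 t ht').1 (hq1 t ht').2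
    simp only [Pi.zero_apply]
    positivity

end Pool.Agent.Lib.MP_f1379f_gt.FV.TV
end

section
/-!
# PWA: convexity in the squared length: general linear lower bounds (PV2)
-/
set_option autoImplicit false

namespace Pool.Agent.Lib.MP_f1379f_gt.FV.PW

open MeasureTheory Real PV

theorem conv2 {A B : ℝ} (hA : 0 ≤ A) (hA1 : A ≤ 2 / 3) (hB : 0 ≤ B) (hB1 : B ≤ 2 / 3) :
    4 * A ^ 3 * (B - A) * (5 / 3 - A) ≤ (B ^ 4 - A ^ 4) * (5 / 3 - B) := by
  have hk : 0 ≤ 5 / 3 * (B ^ 2 + 2 * A * B + 3 * A ^ 2) -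
      (B ^ 3 + 2 * A * B ^ 2 + 3 * A ^ 2 * B + 4 * A ^ 3) := by
    have hAB : 0 ≤ A * B := mul_nonneg hA hB
    have h1 : 0 ≤ B ^ 2 * (2 / 3 - B) := mul_nonneg (sq_nonneg _) (by linarith)
    have h2 : 0 ≤ A * B * (2 / 3 - B) := mul_nonneg hAB (by linarith)
    have h3 : 0 ≤ A ^ 2 * (2 / 3 - B) := mul_nonneg (sq_nonneg _) (by linarith)
    have h4 : 0 ≤ A ^ 2 * (2 / 3 - A) := mul_nonneg (sq_nonneg _) (by linarith)
    nlinarith [sq_nonneg A, sq_nonneg B]
  have h := mul_nonneg (sq_nonneg (B - A)) hk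
  nlinarith [h]

/-- Tangent inequality in the squared variable. -/
theorem tangent2 {A m : ℝ} (h0 : 0 ≤ A) (h1 : A ≤ 2 / 3) (hm : m ≤ 1)
    (hm2 : 0 ≤ m ∨ m ^ 2 ≤ 3 / 5) :
    A ^ 4 + 4 * A ^ 3 * ((5 / 3 - A) ^ 2 * m ^ 2 - (5 / 3 - A)) ≤ P m := by
  by_cases h : m ^ 2 ≤ 3 / 5
  · have hP : 0 ≤ P m := by
      unfold P
      have := Ae_nonneg m
      positivity
    have h5 : 0 ≤ 5 / 3 - A := by linarith
    have h6 : A ^ 4 + 4 * A ^ 3 * ((5 / 3 - A) ^ 2 * m ^ 2 - (5 / 3 - A)) =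
        A ^ 4 * (1 - 12 / 5 * (5 / 3 - A)) - 4 * A ^ 3 * (5 / 3 - A) ^ 2 * (3 / 5 - m ^ 2) := by
      ring
    have h7 : 0 ≤ 4 * A ^ 3 * (5 / 3 - A) ^ 2 * (3 / 5 - m ^ 2) := by
      have : 0 ≤ 3 / 5 - m ^ 2 := by linarith
      positivity
    have h8 : A ^ 4 * (1 - 12 / 5 * (5 / 3 - A)) ≤ 0 :=
      mul_nonpos_of_nonneg_of_nonpos (by positivity) (by linarith)
    linarith
  · push Not at h
    have hm0 : 0 < m := by
      rcases hm2 with h2 | h2
      · rcases eq_or_lt_of_le h2 with h3 | h3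
        · rw [← h3] at h; norm_num at h
        · exact h3
      · linarith
    obtain ⟨c1, c2⟩ := Ae_of_ge hm0 h.le
    obtain ⟨B, hB⟩ : ∃ B, B = 5 / 3 - 1 / m ^ 2 := ⟨_, rfl⟩
    have hm1 : m ^ 2 ≤ 1 := by nlinarith
    have hmp : 0 < m ^ 2 := by positivity
    have hB0 : 0 ≤ B := by
      rw [hB, sub_nonneg, div_le_iff₀ hmp]
      linarith
    have hB1 : B ≤ 2 / 3 := by
      have : 1 ≤ 1 / m ^ 2 := by rw [le_div_iff₀ hmp]; linarith
      rw [hB]; linarith
    have hmB : m ^ 2 * (5 / 3 - B) = 1 := by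
      rw [hB]; field_simp; ring
    have hP : P m = B ^ 4 := by unfold P; rw [c1, hB]
    have hc := mul_le_mul_of_nonneg_left (conv2 h0 h1 hB0 hB1) hmp.le
    have e1 : m ^ 2 * ((B ^ 4 - A ^ 4) * (5 / 3 - B)) = B ^ 4 - A ^ 4 := by
      linear_combination (B ^ 4 - A ^ 4) * hmB
    have e2 : m ^ 2 * (4 * A ^ 3 * (B - A) * (5 / 3 - A)) =
        4 * A ^ 3 * ((5 / 3 - A) ^ 2 * m ^ 2 - (5 / 3 - A)) := by
      linear_combination (-(4 * A ^ 3 * (5 / 3 - A))) * hmB
    rw [e1, e2] at hc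
    rw [hP]
    linarith

/-- Primitive of `(w^2 - x^2)^3`. -/
noncomputable def L0 (w x : ℝ) : ℝ := w ^ 6 * x - w ^ 4 * x ^ 3 + 3 / 5 * w ^ 2 * x ^ 5 - x ^ 7 / 7

/-- Primitive of `(w^2 - x^2)^3 x`. -/
noncomputable def L1 (w x : ℝ) : ℝ := -((w ^ 2 - x ^ 2) ^ 4 / 8)

/-- Primitive of `(w^2 - x^2)^3 x^2`. -/
noncomputable def L2 (w x : ℝ) : ℝ :=
  w ^ 6 * x ^ 3 / 3 - 3 / 5 * w ^ 4 * x ^ 5 + 3 / 7 * w ^ 2 * x ^ 7 - x ^ 9 / 9

/-- Rational part of the primitive of `(w^2 - x^2)^4 / (1 + x^2)`. -/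
noncomputable def G0 (w x : ℝ) : ℝ :=
  -(4 * (1 + w ^ 2) ^ 3 * x) + 6 * (1 + w ^ 2) ^ 2 * (x + x ^ 3 / 3)
    - 4 * (1 + w ^ 2) * (x + 2 * x ^ 3 / 3 + x ^ 5 / 5) + (x + x ^ 3 + 3 * x ^ 5 / 5 + x ^ 7 / 7)

theorem d_L0 (w x : ℝ) : HasDerivAt (L0 w) ((w ^ 2 - x ^ 2) ^ 3) x := by
  unfold L0
  have h := ((((hasDerivAt_id x).const_mul (w ^ 6)).sub
    (((hasDerivAt_id x).pow 3).const_mul (w ^ 4))).add
    (((hasDerivAt_id x).pow 5).const_mul (3 / 5 * w ^ 2))).sub
    (((hasDerivAt_id x).pow 7).div_const 7)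
  refine h.congr_deriv ?_
  simp only [id]
  push_cast
  ring

theorem d_L1 (w x : ℝ) : HasDerivAt (L1 w) ((w ^ 2 - x ^ 2) ^ 3 * x) x := by
  unfold L1
  have h := (((((hasDerivAt_id x).pow 2).const_sub (w ^ 2)).pow 4).div_const 8).neg
  refine h.congr_deriv ?_
  simp only [id, Pi.pow_apply]
  push_cast
  ring

theorem d_L2 (w x : ℝ) : HasDerivAt (L2 w) ((w ^ 2 - x ^ 2) ^ 3 * x ^ 2) x := by
  unfold L2
  have h := ((((((hasDerivAt_id x).pow 3).const_mul (w ^ 6)).div_const 3).sub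
    (((hasDerivAt_id x).pow 5).const_mul (3 / 5 * w ^ 4))).add
    (((hasDerivAt_id x).pow 7).const_mul (3 / 7 * w ^ 2))).sub
    (((hasDerivAt_id x).pow 9).div_const 9)
  refine h.congr_deriv ?_
  simp only [id]
  push_cast
  ring

theorem d_G0 (w x : ℝ) : HasDerivAt (G0 w)
    (-(4 * (1 + w ^ 2) ^ 3) + 6 * (1 + w ^ 2) ^ 2 * (1 + x ^ 2)
      - 4 * (1 + w ^ 2) * (1 + x ^ 2) ^ 2 + (1 + x ^ 2) ^ 3) x := by
  unfold G0
  have hx := hasDerivAt_id x
  have h := (((((hx.const_mul (4 * (1 + w ^ 2) ^ 3)).neg).add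
    ((hx.add ((hx.pow 3).div_const 3)).const_mul (6 * (1 + w ^ 2) ^ 2))).sub
    (((hx.add (((hx.pow 3).const_mul 2).div_const 3)).add
      ((hx.pow 5).div_const 5)).const_mul (4 * (1 + w ^ 2)))).add
    (((hx.add (hx.pow 3)).add (((hx.pow 5).const_mul 3).div_const 5)).add
      ((hx.pow 7).div_const 7)))
  refine h.congr_deriv ?_
  simp only [id]
  push_cast
  ring

end Pool.Agent.Lib.MP_f1379f_gt.FV.PW
end

section
/-!
# PWB: the general linear lower bound of the pair volume (PV2)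
-/
set_option autoImplicit false

namespace Pool.Agent.Lib.MP_f1379f_gt.FV.PW

open MeasureTheory Real PV

/-- Integral of `(w^2-x^2)^3 ((1+xt)^2 - (x-t)^2)`. -/
noncomputable def JA (w t : ℝ) : ℝ := (1 - t ^ 2) * (L0 w w - L0 w t) +
  4 * t * (L1 w w - L1 w t) - (1 - t ^ 2) * (L2 w w - L2 w t)

/-- Integral of `(w^2-x^2)^3 (1+xt) (x-t)`. -/
noncomputable def JB (w t : ℝ) : ℝ := -t * (L0 w w - L0 w t) +
  (1 - t ^ 2) * (L1 w w - L1 w t) + t * (L2 w w - L2 w t)

/-- Integral of `(w^2-x^2)^3 (x-t)^2`. -/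
noncomputable def JG (w t : ℝ) : ℝ := t ^ 2 * (L0 w w - L0 w t) -
  2 * t * (L1 w w - L1 w t) + (L2 w w - L2 w t)

/-- The reference value. -/
noncomputable def JC (w t : ℝ) : ℝ := 2 * ((1 + w ^ 2) ^ 4 * (arctan w - arctan t) +
  (G0 w w - G0 w t)) - 8 * (L0 w w - L0 w t)

/-- `s^2` of the reference. -/
noncomputable def SS (w : ℝ) : ℝ := 3 * (1 + w ^ 2) / 5

theorem SS_pos (w : ℝ) : 0 < SS w := by unfold SS; positivity

theorem side_aux (w t x c cr μ α m : ℝ) (ht : 0 ≤ t) (hxt : t ≤ x) (hxw : x ≤ w)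
    (hw : w ^ 2 ≤ 2 / 3) (hc : 0 < c) (hcr : 0 < cr) (c1 : c ^ 2 * (1 + x ^ 2) = 1)
    (c2 : cr ^ 2 * (1 + t ^ 2) = 1) (hμ : 0 ≤ μ) (hα : μ ^ 2 + α ^ 2 ≤ 1)
    (hmx : m = c * cr * (μ * (1 + x * t) - α * (x - t))) : 0 ≤ m ∨ m ^ 2 ≤ 3 / 5 := by
  by_cases h0 : 0 ≤ m
  · left; exact h0
  · right
    push Not at h0
    have hx0 : 0 ≤ x := le_trans ht hxt
    have hx2 : x ^ 2 ≤ w ^ 2 := pow_le_pow_left₀ hx0 hxw 2
    have k1 : 0 < c * cr := by positivity
    have k2 : 0 ≤ c * cr * (1 + x * t) := by positivity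
    have k3 : 0 ≤ c * cr * (x - t) := mul_nonneg k1.le (by linarith)
    have hα1 : α ≤ 1 := by nlinarith [sq_nonneg μ, sq_nonneg (α - 1)]
    have k4 : -m ≤ c * cr * (x - t) := by
      have k7 := mul_nonneg hμ k2
      have k8 := mul_le_mul_of_nonneg_right hα1 k3
      have e : -m = α * (c * cr * (x - t)) - μ * (c * cr * (1 + x * t)) := by rw [hmx]; ring
      rw [e]; linarith
    have k5 : m ^ 2 ≤ (c * cr * (x - t)) ^ 2 := by
      have := pow_le_pow_left₀ (by linarith) k4 2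
      rwa [neg_sq] at this
    have e1 : (c * cr * (x - t)) ^ 2 = c ^ 2 * cr ^ 2 * (x - t) ^ 2 := by ring
    have e2 : cr ^ 2 ≤ 1 := by nlinarith [sq_nonneg (t * cr)]
    have e3 : (x - t) ^ 2 ≤ x ^ 2 := pow_le_pow_left₀ (by linarith) (by linarith) 2
    have e4 : c ^ 2 * x ^ 2 ≤ 2 / 5 := by
      have e5 : x ^ 2 ≤ 2 / 3 := by linarith
      have e6 : c ^ 2 * x ^ 2 = 1 - c ^ 2 := by linarith
      have e7 : 0 ≤ c ^ 2 * (2 / 3 - x ^ 2) := mul_nonneg (sq_nonneg _) (by linarith)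
      linarith
    have e8 : c ^ 2 * cr ^ 2 * (x - t) ^ 2 ≤ c ^ 2 * 1 * x ^ 2 := by gcongr
    rw [e1] at k5
    linarith

/-- One side, pointwise. -/
theorem side (w t θ μ α : ℝ) (ht : 0 ≤ t) (hw : w ^ 2 ≤ 2 / 3) (h1 : arctan t ≤ θ)
    (h2 : θ ≤ arctan w) (hμ : 0 ≤ μ) (hα : μ ^ 2 + α ^ 2 ≤ 1) :
    ((w ^ 2 - tan θ ^ 2) / SS w) ^ 4 - 4 * ((w ^ 2 - tan θ ^ 2) / SS w) ^ 3 *
        ((1 + tan θ ^ 2) / SS w) +
      4 * ((w ^ 2 - tan θ ^ 2) / SS w) ^ 3 / SS w ^ 2 * ((1 + tan θ ^ 2) / (1 + t ^ 2)) *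
        (μ * (1 + tan θ * t) - α * (tan θ - t)) ^ 2 ≤
      P (μ * cos (θ - arctan t) - α * sin (θ - arctan t)) := by
  have hpi := Real.pi_pos
  have hS := SS_pos w
  have hθ0 : 0 ≤ θ := le_trans (arctan_nonneg.mpr ht) h1
  have hθ1 : θ < π / 2 := lt_of_le_of_lt h2 (arctan_lt_pi_div_two w)
  have hc : 0 < cos θ := cos_pos_of_mem_Ioo ⟨by linarith, hθ1⟩
  have hcr : 0 < cos (arctan t) := cos_arctan_pos t
  obtain ⟨x, hx⟩ : ∃ x, x = tan θ := ⟨_, rfl⟩
  have hsx : sin θ = x * cos θ := by rw [hx, tan_mul_cos hc.ne']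
  have hst : sin (arctan t) = t * cos (arctan t) := by
    rw [← tan_mul_cos hcr.ne', tan_arctan]
  have hxt : t ≤ x := by
    rw [hx, ← tan_arctan t]
    rcases eq_or_lt_of_le h1 with h | h
    · rw [← h]
    · exact (tan_lt_tan_of_lt_of_lt_pi_div_two (neg_pi_div_two_lt_arctan t) hθ1 h).le
  have hxw : x ≤ w := by
    rw [hx, ← tan_arctan w]
    rcases eq_or_lt_of_le h2 with h | h
    · rw [h, tan_arctan]
    · rw [tan_arctan]
      have := tan_lt_tan_of_lt_of_lt_pi_div_two (by linarith) (arctan_lt_pi_div_two w) h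
      rw [tan_arctan] at this
      exact this.le
  have hx0 : 0 ≤ x := le_trans ht hxt
  have c1 : cos θ ^ 2 * (1 + x ^ 2) = 1 := by
    have := sin_sq_add_cos_sq θ
    rw [hsx] at this
    linarith
  have c2 : cos (arctan t) ^ 2 * (1 + t ^ 2) = 1 := by
    have := sin_sq_add_cos_sq (arctan t)
    rw [hst] at this
    linarith
  have hm1 : cos (θ - arctan t) = cos θ * cos (arctan t) * (1 + x * t) := by
    rw [cos_sub, hsx, hst]; ring
  have hm2 : sin (θ - arctan t) = cos θ * cos (arctan t) * (x - t) := by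
    rw [sin_sub, hsx, hst]; ring
  obtain ⟨m, hm⟩ : ∃ m, m = μ * cos (θ - arctan t) - α * sin (θ - arctan t) := ⟨_, rfl⟩
  have hmx : m = cos θ * cos (arctan t) * (μ * (1 + x * t) - α * (x - t)) := by
    rw [hm, hm1, hm2]; ring
  have hmle : m ≤ 1 := by
    rw [hm]
    exact le_one_of_sq (by linarith) (by norm_num)
  obtain ⟨A, hA⟩ : ∃ A, A = (w ^ 2 - x ^ 2) / SS w := ⟨_, rfl⟩
  have hAS : A * SS w = w ^ 2 - x ^ 2 := by rw [hA]; field_simp
  have h53 : 5 / 3 - A = (1 + x ^ 2) / SS w := by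
    rw [eq_div_iff hS.ne', sub_mul, hAS]
    unfold SS; ring
  have hx2 : x ^ 2 ≤ w ^ 2 := pow_le_pow_left₀ hx0 hxw 2
  have hA0 : 0 ≤ A := by
    rw [hA]; exact div_nonneg (by linarith) hS.le
  have hA1 : A ≤ 2 / 3 := by
    rw [hA, div_le_iff₀ hS]
    unfold SS
    nlinarith
  have hmm : 0 ≤ m ∨ m ^ 2 ≤ 3 / 5 :=
    side_aux w t x (cos θ) (cos (arctan t)) μ α m ht hxt hxw hw hc hcr c1 c2 hμ hα hmx
  have hT := tangent2 hA0 hA1 hmle hmm
  rw [← hx, ← hm, ← hA]
  refine le_trans (le_of_eq ?_) hT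
  have hm2' : m ^ 2 * ((1 + x ^ 2) * (1 + t ^ 2)) = (μ * (1 + x * t) - α * (x - t)) ^ 2 := by
    rw [hmx]
    linear_combination (μ * (1 + x * t) - α * (x - t)) ^ 2 *
      (cos (arctan t) ^ 2 * (1 + t ^ 2)) * c1 + (μ * (1 + x * t) - α * (x - t)) ^ 2 * c2
  have hm3 : (5 / 3 - A) ^ 2 * m ^ 2 = 1 / SS w ^ 2 * ((1 + x ^ 2) / (1 + t ^ 2)) *
      (μ * (1 + x * t) - α * (x - t)) ^ 2 := by
    rw [h53, ← hm2']
    have : (0 : ℝ) < 1 + t ^ 2 := by positivity
    field_simp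
  rw [hm3, h53]
  ring

/-- The lower integrand, as a function of the tangent. -/
noncomputable def FF (w t q r n x : ℝ) : ℝ :=
  2 * ((w ^ 2 - x ^ 2) / SS w) ^ 4 - 8 * ((w ^ 2 - x ^ 2) / SS w) ^ 3 * ((1 + x ^ 2) / SS w) +
      4 * ((w ^ 2 - x ^ 2) / SS w) ^ 3 / SS w ^ 2 * ((1 + x ^ 2) / (1 + t ^ 2)) *
        (2 * q * ((1 + x * t) ^ 2 - (x - t) ^ 2) - 2 * r * ((1 + x * t) * (x - t)) +
          n * (x - t) ^ 2)

theorem FF_int (w t q r n : ℝ) (htw : t ≤ w) :
    ∫ θ in (arctan t)..(arctan w), FF w t q r n (tan θ) =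
      JC w t / SS w ^ 4 + 4 / (SS w ^ 5 * (1 + t ^ 2)) *
        (2 * q * JA w t - 2 * r * JB w t + n * JG w t) := by
  have hS := SS_pos w
  have ht1 : (0 : ℝ) < 1 + t ^ 2 := by positivity
  have hle : arctan t ≤ arctan w := arctan_mono htw
  have hcos : ∀ θ ∈ Set.uIcc (arctan t) (arctan w), cos θ ≠ 0 := by
    intro θ hθ
    rw [Set.uIcc_of_le hle] at hθ
    exact (cos_pos_of_mem_Ioo ⟨lt_of_lt_of_le (neg_pi_div_two_lt_arctan t) hθ.1,
      lt_of_le_of_lt hθ.2 (arctan_lt_pi_div_two w)⟩).ne'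
  have hder : ∀ θ ∈ Set.uIcc (arctan t) (arctan w), HasDerivAt
      (fun θ : ℝ => (2 / SS w ^ 4) * ((1 + w ^ 2) ^ 4 * θ + G0 w (tan θ)) -
        (8 / SS w ^ 4) * L0 w (tan θ) + 4 / (SS w ^ 5 * (1 + t ^ 2)) *
        ((2 * q * (1 - t ^ 2) + 2 * r * t + n * t ^ 2) * L0 w (tan θ) +
        (2 * q * (4 * t) - 2 * r * (1 - t ^ 2) - n * (2 * t)) * L1 w (tan θ) +
        (-(2 * q * (1 - t ^ 2)) - 2 * r * t + n) * L2 w (tan θ)))
      (FF w t q r n (tan θ)) θ := by
    intro θ hθ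
    have hc := hcos θ hθ
    have htan : HasDerivAt tan (1 + tan θ ^ 2) θ := by
      have h := hasDerivAt_tan hc
      refine h.congr_deriv ?_
      rw [← inv_one_add_tan_sq hc]
      simp
    have g0 := (d_G0 w (tan θ)).comp θ htan
    have l0 := (d_L0 w (tan θ)).comp θ htan
    have l1 := (d_L1 w (tan θ)).comp θ htan
    have l2 := (d_L2 w (tan θ)).comp θ htan
    have h := (((((hasDerivAt_id θ).const_mul ((1 + w ^ 2) ^ 4)).add g0).const_mul
      (2 / SS w ^ 4)).sub (l0.const_mul (8 / SS w ^ 4))).add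
      ((((l0.const_mul (2 * q * (1 - t ^ 2) + 2 * r * t + n * t ^ 2)).add
      (l1.const_mul (2 * q * (4 * t) - 2 * r * (1 - t ^ 2) - n * (2 * t)))).add
      (l2.const_mul (-(2 * q * (1 - t ^ 2)) - 2 * r * t + n))).const_mul
      (4 / (SS w ^ 5 * (1 + t ^ 2))))
    refine h.congr_deriv ?_
    generalize tan θ = x
    unfold FF
    field_simp
    ring
  rw [intervalIntegral.integral_eq_sub_of_hasDerivAt hder]
  · rw [tan_arctan, tan_arctan]
    unfold JC JA JB JG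
    field_simp
    ring
  · apply ContinuousOn.intervalIntegrable
    have htc : ContinuousOn tan (Set.uIcc (arctan t) (arctan w)) := fun θ hθ =>
      (continuousAt_tan.mpr (hcos θ hθ)).continuousWithinAt
    have hF : Continuous (FF w t q r n) := by
      unfold FF
      fun_prop
    exact hF.comp_continuousOn htc

/-- **(PV2)**, general form. -/
theorem pv2_gen (w t : ℝ) (ht : 0 ≤ t) (htw : t ≤ w) (hw : w ^ 2 ≤ 2 / 3) (u v : E)
    (hu : ‖u‖ ≤ 1) (hv : ‖v‖ ≤ 1) (huv : u ≠ v) :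
    π ^ 3 / 48 * (JC w t / SS w ^ 4 + 4 / (SS w ^ 5 * (1 + t ^ 2)) *
        (2 * (Dt u v / ‖u - v‖ ^ 2) * JA w t - 2 * √(Dt u v) * JB w t +
          (‖u‖ ^ 2 + ‖v‖ ^ 2) * JG w t)) ≤ v2 u v := by
  have hpi := Real.pi_pos
  obtain ⟨φ, μ, α, β, hμ, h1, h2, hd⟩ := normal_form u v
  obtain ⟨g1, g2, g3⟩ := gram u v φ μ α β h1 h2
  have hpos : 0 < ‖u - v‖ := norm_pos_iff.mpr (sub_ne_zero.mpr huv)
  have hDt : Dt u v = (μ * ‖u - v‖) ^ 2 := by
    unfold Dt
    rw [g1, g2, g3, ← hd]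
    ring
  have hD : √(Dt u v) = μ * (α + β) := by
    rw [hDt, Real.sqrt_sq (by positivity), hd]
  have hq : Dt u v / ‖u - v‖ ^ 2 = μ ^ 2 := by
    rw [hDt]; field_simp
  have a1 : ‖u‖ ^ 2 ≤ 1 := by nlinarith [norm_nonneg u]
  have a2 : ‖v‖ ^ 2 ≤ 1 := by nlinarith [norm_nonneg v]
  have hle : arctan t ≤ arctan w := arctan_mono htw
  have hlt0 : 0 ≤ arctan t := arctan_nonneg.mpr ht
  have hwlt := arctan_lt_pi_div_two w
  rw [v2_circle u v φ μ α β h1 h2 (by rw [hd]; exact hpos.le), hD, hq, g1, g2]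
  apply mul_le_mul_of_nonneg_left _ (by positivity)
  have hP : ∀ m, 0 ≤ P m := by
    intro m
    unfold P
    have := Ae_nonneg m
    positivity
  have hc : Continuous (fun s : ℝ => P (μ * cos s - α * sin s) + P (μ * cos s - β * sin s)) :=
    (cont_P.comp (by fun_prop)).add (cont_P.comp (by fun_prop))
  rw [← FF_int w t (μ ^ 2) (μ * (α + β)) (μ ^ 2 + α ^ 2 + (μ ^ 2 + β ^ 2)) htw]
  have s1 : ∫ s in (0 : ℝ)..(arctan w - arctan t),
      (P (μ * cos s - α * sin s) + P (μ * cos s - β * sin s)) ≤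
      ∫ s in (0 : ℝ)..π, (P (μ * cos s - α * sin s) + P (μ * cos s - β * sin s)) := by
    rw [← intervalIntegral.integral_add_adjacent_intervals (b := arctan w - arctan t)
      (hc.intervalIntegrable 0 _) (hc.intervalIntegrable _ π)]
    have : 0 ≤ ∫ s in (arctan w - arctan t)..π,
        (P (μ * cos s - α * sin s) + P (μ * cos s - β * sin s)) := by
      apply intervalIntegral.integral_nonneg (by linarith)
      intro s _
      exact add_nonneg (hP _) (hP _)
    linarith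
  refine le_trans ?_ s1
  have s2 : ∫ s in (0 : ℝ)..(arctan w - arctan t),
      (P (μ * cos s - α * sin s) + P (μ * cos s - β * sin s)) =
      ∫ θ in (arctan t)..(arctan w), (P (μ * cos (θ - arctan t) - α * sin (θ - arctan t)) +
        P (μ * cos (θ - arctan t) - β * sin (θ - arctan t))) := by
    rw [intervalIntegral.integral_comp_sub_right
      (fun s => P (μ * cos s - α * sin s) + P (μ * cos s - β * sin s)) (arctan t), sub_self]
  rw [s2]
  have hcos : ∀ θ ∈ Set.uIcc (arctan t) (arctan w), cos θ ≠ 0 := by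
    intro θ hθ
    rw [Set.uIcc_of_le hle] at hθ
    exact (cos_pos_of_mem_Ioo ⟨lt_of_lt_of_le (neg_pi_div_two_lt_arctan t) hθ.1,
      lt_of_le_of_lt hθ.2 (arctan_lt_pi_div_two w)⟩).ne'
  apply intervalIntegral.integral_mono_on hle
  · apply ContinuousOn.intervalIntegrable
    have htc : ContinuousOn tan (Set.uIcc (arctan t) (arctan w)) := fun θ hθ =>
      (continuousAt_tan.mpr (hcos θ hθ)).continuousWithinAt
    have hF : Continuous (FF w t (μ ^ 2) (μ * (α + β)) (μ ^ 2 + α ^ 2 + (μ ^ 2 + β ^ 2))) := by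
      unfold FF
      fun_prop
    exact hF.comp_continuousOn htc
  · exact (hc.comp (by fun_prop : Continuous fun θ : ℝ => θ - arctan t)).intervalIntegrable _ _
  · intro θ hθ
    have q1 := side w t θ μ α ht hw hθ.1 hθ.2 hμ (by linarith)
    have q2 := side w t θ μ β ht hw hθ.1 hθ.2 hμ (by linarith)
    refine le_trans (le_of_eq ?_) (add_le_add q1 q2)
    unfold FF
    ring

end Pool.Agent.Lib.MP_f1379f_gt.FV.PW
end
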