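import Pool.Agent.Lib.MP_f1379f_gt.FV.PVJ
import Pool.Agent.Lib.MP_f1379f_gt.FV.PWB
import Pool.Agent.Lib.MP_f1379f_gt.FV.CertDefs

section
/-!
# PVK: enclosures of `c1` and `g11`
-/
set_option autoImplicit false

namespace Pool.Agent.Lib.MP_f1379f_gt.FV.PV

open MeasureTheory Real

theorem th0_eq : th0 = arctan (√6 / 3) := by
  rw [← tan_th0, arctan_tan]
  · linarith [th0_gt, Real.pi_pos]
  · exact th0_lt

/-- Closed form of `c1`. -/
theorem c1_closed : c1 = π ^ 3 / 24 * (625 / 81 * arctan (√6 / 3) - 6043 / 2835 * √6) := by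
  have h6 : √(6 : ℝ) ^ 2 = 6 := Real.sq_sqrt (by norm_num)
  have hw : √(5 * ‖e0‖ ^ 2 / 3 - 1) = √6 / 3 := by
    rw [norm_e0, show (5 * 1 ^ 2 / 3 - 1 : ℝ) = 6 / 3 ^ 2 by norm_num,
      Real.sqrt_div (by norm_num), Real.sqrt_sq (by norm_num)]
  unfold c1
  rw [v1_closed e0 (by rw [norm_e0]; norm_num), hw, norm_e0]
  unfold V1
  have a3 : (√6 / 3) ^ 3 = √6 * (6 / 27) := by
    calc (√6 / 3) ^ 3 = √6 * (√6 ^ 2 / 27) := by ring
      _ = _ := by rw [h6]
  have a5 : (√6 / 3) ^ 5 = √6 * (36 / 243) := by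
    calc (√6 / 3) ^ 5 = √6 * ((√6 ^ 2) ^ 2 / 243) := by ring
      _ = _ := by rw [h6]; norm_num
  have a7 : (√6 / 3) ^ 7 = √6 * (216 / 2187) := by
    calc (√6 / 3) ^ 7 = √6 * ((√6 ^ 2) ^ 3 / 2187) := by ring
      _ = _ := by rw [h6]; norm_num
  rw [a3, a5, a7]
  ring

/-- Closed form of `g11`. -/
theorem g11_closed : g11 = π ^ 3 / 24 * (625 / 81 * (arctan (√6 / 3) - π / 6)
    - 6043 / 2835 * √6 + 6512 / 2835 * √3) := by
  rw [g11_eq]
  have hc : Continuous (fun θ : ℝ => P (cos θ)) := cont_P.comp continuous_cos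
  have e1 : ∫ t in (0 : ℝ)..π, P (m0 t) = ∫ θ in (π / 6)..(π + π / 6), P (cos θ) := by
    have := intervalIntegral.integral_comp_add_right (a := 0) (b := π)
      (fun θ => P (cos θ)) (π / 6)
    rw [zero_add] at this
    rw [← this]
    apply intervalIntegral.integral_congr
    intro t _
    simp only [m0_eq]
  have e2 : ∫ θ in th0..(π + π / 6), P (cos θ) = 0 := by
    rw [intervalIntegral.integral_congr (g := fun _ => 0)]
    · simp
    · intro θ hθ
      rw [Set.uIcc_of_le (by linarith [th0_lt, Real.pi_pos])] at hθ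
      simp only [P, Ae_out hθ.1 hθ.2]
      norm_num
  have e3 : ∫ θ in (π / 6)..th0, P (cos θ) =
      ∫ θ in (π / 6)..th0, (2 / 3 - tan θ ^ 2) ^ 4 := by
    apply intervalIntegral.integral_congr
    intro θ hθ
    rw [Set.uIcc_of_le th0_gt.le] at hθ
    obtain ⟨c1, c2⟩ := cos_in hθ.1 hθ.2
    obtain ⟨c3, c4⟩ := Ae_of_ge c1 c2
    have hsec : 1 / cos θ ^ 2 = 1 + tan θ ^ 2 := by
      rw [← inv_one_add_tan_sq c1.ne']
      simp
    simp only [P, c3, hsec]
    ring
  have hder : ∀ t ∈ Set.uIcc (π / 6) th0, HasDerivAt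
      (fun t : ℝ => 625 / 81 * t - 500 / 27 * tan t
        + 50 / 3 * (tan t + 1 / 3 * tan t ^ 3)
        - 20 / 3 * (tan t + 2 / 3 * tan t ^ 3 + 1 / 5 * tan t ^ 5)
        + (tan t + tan t ^ 3 + 3 / 5 * tan t ^ 5 + 1 / 7 * tan t ^ 7))
      ((2 / 3 - tan t ^ 2) ^ 4) t := by
    intro t ht
    rw [Set.uIcc_of_le th0_gt.le] at ht
    have hcn := (cos_in ht.1 ht.2).1.ne'
    have hsec : 1 / cos t ^ 2 = 1 + tan t ^ 2 := by
      rw [← inv_one_add_tan_sq hcn]
      simp
    have hT : HasDerivAt tan (1 + tan t ^ 2) t := by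
      rw [← hsec]; exact hasDerivAt_tan hcn
    have h3 := hT.pow 3
    have h5 := hT.pow 5
    have h7 := hT.pow 7
    have hid := (hasDerivAt_id t).const_mul (625 / 81 : ℝ)
    have hh := (((hid.sub (hT.const_mul (500 / 27 : ℝ))).add
      ((hT.add (h3.const_mul (1 / 3 : ℝ))).const_mul (50 / 3 : ℝ))).sub
      (((hT.add (h3.const_mul (2 / 3 : ℝ))).add (h5.const_mul (1 / 5 : ℝ))).const_mul
        (20 / 3 : ℝ))).add
      (((hT.add h3).add (h5.const_mul (3 / 5 : ℝ))).add (h7.const_mul (1 / 7 : ℝ)))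
    refine hh.congr_deriv ?_
    push_cast
    ring
  have hcont : ContinuousOn (fun t : ℝ => (2 / 3 - tan t ^ 2) ^ 4) (Set.uIcc (π / 6) th0) := by
    rw [Set.uIcc_of_le th0_gt.le]
    have htan : ContinuousOn tan (Set.Icc (π / 6) th0) := by
      intro t ht
      exact (continuousAt_tan.mpr (cos_in ht.1 ht.2).1.ne').continuousWithinAt
    fun_prop
  rw [e1, ← intervalIntegral.integral_add_adjacent_intervals (b := th0)
    (hc.intervalIntegrable _ _) (hc.intervalIntegrable _ _), e2, add_zero, e3,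
    intervalIntegral.integral_eq_sub_of_hasDerivAt hder hcont.intervalIntegrable, tan_th0,
    tan_pi_div_six, th0_eq]
  have h6 : √(6 : ℝ) ^ 2 = 6 := Real.sq_sqrt (by norm_num)
  have h3 : √(3 : ℝ) ^ 2 = 3 := Real.sq_sqrt (by norm_num)
  have h3' : (1 : ℝ) / √3 = √3 / 3 := by
    have : 0 < √(3 : ℝ) := Real.sqrt_pos.mpr (by norm_num)
    field_simp
    linarith
  rw [h3']
  have a3 : (√6 / 3) ^ 3 = √6 * (6 / 27) := by
    calc (√6 / 3) ^ 3 = √6 * (√6 ^ 2 / 27) := by ring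
      _ = _ := by rw [h6]
  have a5 : (√6 / 3) ^ 5 = √6 * (36 / 243) := by
    calc (√6 / 3) ^ 5 = √6 * ((√6 ^ 2) ^ 2 / 243) := by ring
      _ = _ := by rw [h6]; norm_num
  have a7 : (√6 / 3) ^ 7 = √6 * (216 / 2187) := by
    calc (√6 / 3) ^ 7 = √6 * ((√6 ^ 2) ^ 3 / 2187) := by ring
      _ = _ := by rw [h6]; norm_num
  have b3 : (√3 / 3) ^ 3 = √3 * (3 / 27) := by
    calc (√3 / 3) ^ 3 = √3 * (√3 ^ 2 / 27) := by ring
      _ = _ := by rw [h3]
  have b5 : (√3 / 3) ^ 5 = √3 * (9 / 243) := by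
    calc (√3 / 3) ^ 5 = √3 * ((√3 ^ 2) ^ 2 / 243) := by ring
      _ = _ := by rw [h3]; norm_num
  have b7 : (√3 / 3) ^ 7 = √3 * (27 / 2187) := by
    calc (√3 / 3) ^ 7 = √3 * ((√3 ^ 2) ^ 3 / 2187) := by ring
      _ = _ := by rw [h3]; norm_num
  rw [a3, a5, a7, b3, b5, b7]
  ring

/-- Lower Taylor polynomial of arctan. -/
theorem arctan_ge {x : ℝ} (hx : 0 ≤ x) :
    x - x ^ 3 / 3 + x ^ 5 / 5 - x ^ 7 / 7 + x ^ 9 / 9 - x ^ 11 / 11 + x ^ 13 / 13 - x ^ 15 / 15 ≤
      arctan x := by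
  let f : ℝ → ℝ := fun x => arctan x - (x - 1 / 3 * x ^ 3 + 1 / 5 * x ^ 5 - 1 / 7 * x ^ 7 +
    1 / 9 * x ^ 9 - 1 / 11 * x ^ 11 + 1 / 13 * x ^ 13 - 1 / 15 * x ^ 15)
  have hd : ∀ x : ℝ, HasDerivAt f (x ^ 16 / (1 + x ^ 2)) x := by
    intro x
    have h1 := hasDerivAt_id x
    have hh := (hasDerivAt_arctan x).sub (((((((h1.sub ((h1.pow 3).const_mul (1 / 3 : ℝ))).add
      ((h1.pow 5).const_mul (1 / 5 : ℝ))).sub ((h1.pow 7).const_mul (1 / 7 : ℝ))).add
      ((h1.pow 9).const_mul (1 / 9 : ℝ))).sub ((h1.pow 11).const_mul (1 / 11 : ℝ))).add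
      ((h1.pow 13).const_mul (1 / 13 : ℝ))).sub ((h1.pow 15).const_mul (1 / 15 : ℝ)))
    refine hh.congr_deriv ?_
    have : 1 + x ^ 2 ≠ 0 := by positivity
    simp only [id]
    push_cast
    field_simp
    ring
  have hm : Monotone f := monotone_of_hasDerivAt_nonneg hd (fun x => by positivity)
  have := hm hx
  simp only [f, arctan_zero] at this
  linarith

/-- Upper Taylor polynomial of arctan. -/
theorem arctan_le {x : ℝ} (hx : 0 ≤ x) :
    arctan x ≤ x - x ^ 3 / 3 + x ^ 5 / 5 - x ^ 7 / 7 + x ^ 9 / 9 - x ^ 11 / 11 + x ^ 13 / 13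
      - x ^ 15 / 15 + x ^ 17 / 17 := by
  let f : ℝ → ℝ := fun x => (x - 1 / 3 * x ^ 3 + 1 / 5 * x ^ 5 - 1 / 7 * x ^ 7 +
    1 / 9 * x ^ 9 - 1 / 11 * x ^ 11 + 1 / 13 * x ^ 13 - 1 / 15 * x ^ 15 + 1 / 17 * x ^ 17)
    - arctan x
  have hd : ∀ x : ℝ, HasDerivAt f (x ^ 18 / (1 + x ^ 2)) x := by
    intro x
    have h1 := hasDerivAt_id x
    have hh := (((((((((h1.sub ((h1.pow 3).const_mul (1 / 3 : ℝ))).add
      ((h1.pow 5).const_mul (1 / 5 : ℝ))).sub ((h1.pow 7).const_mul (1 / 7 : ℝ))).add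
      ((h1.pow 9).const_mul (1 / 9 : ℝ))).sub ((h1.pow 11).const_mul (1 / 11 : ℝ))).add
      ((h1.pow 13).const_mul (1 / 13 : ℝ))).sub ((h1.pow 15).const_mul (1 / 15 : ℝ))).add
      ((h1.pow 17).const_mul (1 / 17 : ℝ)))).sub (hasDerivAt_arctan x)
    refine hh.congr_deriv ?_
    have : 1 + x ^ 2 ≠ 0 := by positivity
    simp only [id]
    push_cast
    field_simp
    ring
  have hm : Monotone f := monotone_of_hasDerivAt_nonneg hd (fun x => by positivity)
  have := hm hx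
  simp only [f, arctan_zero] at this
  linarith

/-- `2 θ0 + arctan (√6/12) = π/2`. -/
theorem arctan_red : arctan (√6 / 3) = π / 4 - arctan (√6 / 12) / 2 := by
  have h6 : √(6 : ℝ) ^ 2 = 6 := Real.sq_sqrt (by norm_num)
  have h0 : 0 < √(6 : ℝ) := Real.sqrt_pos.mpr (by norm_num)
  have h1 : arctan (√6 / 3) + arctan (√6 / 3) = arctan ((√6 / 3 + √6 / 3) /
      (1 - √6 / 3 * (√6 / 3))) := by
    apply arctan_add
    nlinarith
  have h2 : (√6 / 3 + √6 / 3) / (1 - √6 / 3 * (√6 / 3)) = (√6 / 12)⁻¹ := by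
    have : 1 - √6 / 3 * (√6 / 3) = 1 / 3 := by nlinarith
    rw [this]
    field_simp
    nlinarith
  rw [h2, arctan_inv_of_pos (by positivity)] at h1
  linarith

theorem sqrt6_hi : 2.449489742783 < √(6 : ℝ) ∧ √(6 : ℝ) < 2.449489742784 := by
  constructor
  · rw [Real.lt_sqrt (by norm_num)]; norm_num
  · rw [Real.sqrt_lt' (by norm_num)]; norm_num

theorem sqrt3_hi : 1.732050807568 < √(3 : ℝ) ∧ √(3 : ℝ) < 1.732050807569 := by
  constructor
  · rw [Real.lt_sqrt (by norm_num)]; norm_num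
  · rw [Real.sqrt_lt' (by norm_num)]; norm_num

theorem arctan_bounds : 0.201357920790 < arctan (√6 / 12) ∧ arctan (√6 / 12) < 0.201357920791 := by
  have h6 : √(6 : ℝ) ^ 2 = 6 := Real.sq_sqrt (by norm_num)
  have h0 : 0 < √(6 : ℝ) := Real.sqrt_pos.mpr (by norm_num)
  obtain ⟨h1, h2⟩ := sqrt6_hi
  have p : ∀ n : ℕ, (√6 / 12) ^ (2 * n + 1) = √6 / 12 * (1 / 24) ^ n := by
    intro n
    rw [pow_succ, pow_mul, div_pow, h6]
    norm_num
    ring
  have p3 := p 1
  have p5 := p 2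
  have p7 := p 3
  have p9 := p 4
  have p11 := p 5
  have p13 := p 6
  have p15 := p 7
  have p17 := p 8
  norm_num at p3 p5 p7 p9 p11 p13 p15 p17
  constructor
  · refine lt_of_lt_of_le ?_ (arctan_ge (by positivity))
    rw [p3, p5, p7, p9, p11, p13, p15]
    linarith
  · refine lt_of_le_of_lt (arctan_le (by positivity)) ?_
    rw [p3, p5, p7, p9, p11, p13, p15, p17]
    linarith

end Pool.Agent.Lib.MP_f1379f_gt.FV.PV
end

section
/-!
# PVL: numerical enclosures
-/
set_option autoImplicit false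

namespace Pool.Agent.Lib.MP_f1379f_gt.FV.PV

open MeasureTheory Real

theorem pi3_bounds : 31.0062766802998 < π ^ 3 ∧ π ^ 3 < 31.0062766802999 := by
  have h1 := Real.pi_gt_d20
  have h2 := Real.pi_lt_d20
  constructor
  · calc (31.0062766802998 : ℝ) < 3.14159265358979323846 ^ 3 := by norm_num
      _ < π ^ 3 := pow_lt_pow_left₀ h1 (by norm_num) (by norm_num)
  · calc π ^ 3 < 3.14159265358979323847 ^ 3 := pow_lt_pow_left₀ h2 Real.pi_pos.le (by norm_num)
      _ < 31.0062766802999 := by norm_num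

theorem pi4_bounds : 97.4090910340024 < π ^ 4 ∧ π ^ 4 < 97.4090910340025 := by
  have h1 := Real.pi_gt_d20
  have h2 := Real.pi_lt_d20
  constructor
  · calc (97.4090910340024 : ℝ) < 3.14159265358979323846 ^ 4 := by norm_num
      _ < π ^ 4 := pow_lt_pow_left₀ h1 (by norm_num) (by norm_num)
  · calc π ^ 4 < 3.14159265358979323847 ^ 4 := pow_lt_pow_left₀ h2 Real.pi_pos.le (by norm_num)
      _ < 97.4090910340025 := by norm_num

theorem mul_bounds {x y a b c d : ℝ} (ha : 0 ≤ a) (hc : 0 ≤ c) (h1 : a < x) (h2 : x < b)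
    (h3 : c < y) (h4 : y < d) : a * c < x * y ∧ x * y < b * d := by
  constructor
  · nlinarith
  · nlinarith

/-- Enclosure of `c1`. -/
theorem c1_bounds : 0.080188889379 < c1 ∧ c1 < 0.080188889388 := by
  rw [c1_closed, arctan_red]
  obtain ⟨p1, p2⟩ := pi3_bounds
  obtain ⟨a1, a2⟩ := arctan_bounds
  obtain ⟨s1, s2⟩ := sqrt6_hi
  have q1 := Real.pi_gt_d20
  have q2 := Real.pi_lt_d20
  have h := mul_bounds (x := π ^ 3)
    (y := 625 / 81 * (π / 4 - arctan (√6 / 12) / 2) - 6043 / 2835 * √6)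
    (a := 31.0062766802998) (b := 31.0062766802999) (c := 0.0620691534475) (d := 0.0620691534537)
    (by norm_num) (by norm_num) p1 p2 (by linarith) (by linarith)
  constructor
  · nlinarith [h.1]
  · nlinarith [h.2]

/-- Enclosure of `g11`. -/
theorem g11_bounds : 0.00061870951 < g11 ∧ g11 < 0.00061870953 := by
  rw [g11_closed, arctan_red]
  obtain ⟨p1, p2⟩ := pi3_bounds
  obtain ⟨a1, a2⟩ := arctan_bounds
  obtain ⟨s1, s2⟩ := sqrt6_hi
  obtain ⟨t1, t2⟩ := sqrt3_hi
  have q1 := Real.pi_gt_d20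
  have q2 := Real.pi_lt_d20
  have h := mul_bounds (x := π ^ 3)
    (y := 625 / 81 * (π / 4 - arctan (√6 / 12) / 2 - π / 6) - 6043 / 2835 * √6
      + 6512 / 2835 * √3)
    (a := 31.0062766802998) (b := 31.0062766802999) (c := 0.000478903948) (d := 0.000478903957)
    (by norm_num) (by norm_num) p1 p2 (by linarith) (by linarith)
  constructor
  · nlinarith [h.1]
  · nlinarith [h.2]

/-- Enclosure of the volume of the ball. -/
theorem vol_bal_bounds : 31.3172231976 < (volume bal).toReal ∧ (volume bal).toReal < 31.3172231977 := by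
  rw [vol_bal]
  obtain ⟨p1, p2⟩ := pi4_bounds
  constructor <;> linarith

end Pool.Agent.Lib.MP_f1379f_gt.FV.PV
end

section
/-!
# TVF: enclosure of the triple volume `s3`
-/
set_option autoImplicit false
set_option linter.unusedSimpArgs false
set_option linter.style.longLine false

namespace Pool.Agent.Lib.MP_f1379f_gt.FV.TV

open MeasureTheory Real PV

/-- Comparison polynomial. -/
noncomputable def SU (q : ℝ) : ℝ :=
  (25001 / 500000) + (177127 / 1000000) * q + (504097 / 1000000) * q ^ 2 + (831097 / 1000000) * q ^ 3 + (10263541 / 1000000) * q ^ 4 + (-42510057 / 1000000) * q ^ 5 + (181996781 / 1000000) * q ^ 6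

/-- Its primitive. -/
noncomputable def XU (q : ℝ) : ℝ :=
  (25001 / 2750000) + (177127 / 6500000) * q + (504097 / 7500000) * q ^ 2 + (831097 / 8500000) * q ^ 3 + (10263541 / 9500000) * q ^ 4 + (-14170019 / 3500000) * q ^ 5 + (181996781 / 11500000) * q ^ 6

theorem polU (T : ℝ) (h0 : 7 / 10 ≤ T) (h1 : T ≤ 1) :
    Uf (774597 / 1000000) (741 / 10000) ((1 - T ^ 2) / 3) * Yf (774597 / 1000000) (741 / 10000) ((1 - T ^ 2) / 3) ≤
      4 / 3 * T * (1 + T ^ 2) * SU ((1 - T ^ 2) / 3) := by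
  obtain ⟨x, hx⟩ : ∃ x, x = T - 7 / 10 := ⟨_, rfl⟩
  obtain ⟨y, hy⟩ : ∃ y, y = 1 - T := ⟨_, rfl⟩
  have hx0 : 0 ≤ x := by rw [hx]; linarith
  have hy0 : 0 ≤ y := by rw [hy]; linarith
  obtain ⟨r, hr⟩ : ∃ r, r = 4 / 3 * T * (1 + T ^ 2) * SU ((1 - T ^ 2) / 3) -
      Uf (774597 / 1000000) (741 / 10000) ((1 - T ^ 2) / 3) * Yf (774597 / 1000000) (741 / 10000) ((1 - T ^ 2) / 3) := ⟨_, rfl⟩
  have e : r = (7005242371512626175039712691 / 5129734252500000000000000) * y ^ 17
      + (1866765689512570754505313032761 / 27700564963500000000000000) * x ^ 1 * y ^ 16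
      + (4636633968657079938780037871717 / 13850282481750000000000000) * x ^ 2 * y ^ 15
      + (6226295378390028253333412486177 / 13850282481750000000000000) * x ^ 3 * y ^ 14
      + (17401289342987143504631520619697 / 27700564963500000000000000) * x ^ 4 * y ^ 13
      + (1188312871657267052177423837975257 / 138502824817500000000000000) * x ^ 5 * y ^ 12
      + (136621464021887521012583160876013 / 3462570620437500000000000) * x ^ 6 * y ^ 11
      + (6110857159808435178348585423869 / 69251412408750000000000) * x ^ 7 * y ^ 10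
      + (388562199626210057198063519281 / 3462570620437500000000) * x ^ 8 * y ^ 9
      + (6251466132621415689826225751 / 76946013787500000000) * x ^ 9 * y ^ 8
      + (95737417436613787201853987 / 3329394827343750000) * x ^ 10 * y ^ 7
      + (17956473682757029233359731 / 4328213275546875000) * x ^ 11 * y ^ 6
      + (27933588931885669882528 / 4328213275546875) * x ^ 12 * y ^ 5
      + (1473062952044702333483 / 173128531021875) * x ^ 13 * y ^ 4
      + (28336591261496905952 / 6925141240875) * x ^ 14 * y ^ 3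
      + (38859059071727200 / 55401129927) * x ^ 15 * y ^ 2
      + (25730975080000 / 4261625379) * x ^ 16 * y ^ 1
      + (1565839400000 / 387420489) * x ^ 17 := by
    rw [hr, hx, hy]; unfold Uf Yf SU; ring
  have h5 : 0 ≤ r := by
    rw [e]; positivity
  linarith

/-- Comparison polynomial. -/
noncomputable def SL (q : ℝ) : ℝ :=
  (24999 / 500000) + (88563 / 500000) * q + (50409 / 100000) * q ^ 2 + (51923 / 62500) * q ^ 3 + (10258689 / 1000000) * q ^ 4 + (-21245781 / 500000) * q ^ 5 + (45478083 / 250000) * q ^ 6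

/-- Its primitive. -/
noncomputable def XL (q : ℝ) : ℝ :=
  (24999 / 2750000) + (88563 / 3250000) * q + (16803 / 250000) * q ^ 2 + (51923 / 531250) * q ^ 3 + (539931 / 500000) * q ^ 4 + (-7081927 / 1750000) * q ^ 5 + (45478083 / 2875000) * q ^ 6

theorem polL (T : ℝ) (h0 : 7 / 10 ≤ T) (h1 : T ≤ 1) :
    4 / 3 * T * (1 + T ^ 2) * SL ((1 - T ^ 2) / 3) ≤
      Uf (774596 / 1000000) (675 / 10000) ((1 - T ^ 2) / 3) * Yf (774596 / 1000000) (675 / 10000) ((1 - T ^ 2) / 3) := by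
  obtain ⟨x, hx⟩ : ∃ x, x = T - 7 / 10 := ⟨_, rfl⟩
  obtain ⟨y, hy⟩ : ∃ y, y = 1 - T := ⟨_, rfl⟩
  have hx0 : 0 ≤ x := by rw [hx]; linarith
  have hy0 : 0 ≤ y := by rw [hy]; linarith
  obtain ⟨r, hr⟩ : ∃ r, r = Uf (774596 / 1000000) (675 / 10000) ((1 - T ^ 2) / 3) * Yf (774596 / 1000000) (675 / 10000) ((1 - T ^ 2) / 3) -
      4 / 3 * T * (1 + T ^ 2) * SL ((1 - T ^ 2) / 3) := ⟨_, rfl⟩
  have e : r = (120649151698189584567741829 / 41550847445250000000000) * y ^ 17
      + (67848927620769590442470077 / 8310169489050000000000) * x ^ 1 * y ^ 16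
      + (1221399127775309600220706489 / 4155084744525000000000) * x ^ 2 * y ^ 15
      + (11712838347790117469582463269 / 4155084744525000000000) * x ^ 3 * y ^ 14
      + (93593950202598177415388665109 / 8310169489050000000000) * x ^ 4 * y ^ 13
      + (978406153819238576756023752029 / 41550847445250000000000) * x ^ 5 * y ^ 12
      + (28349540205177863144799271081 / 1038771186131250000000) * x ^ 6 * y ^ 11
      + (2147545455146813029719703601 / 103877118613125000000) * x ^ 7 * y ^ 10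
      + (6042475353759448521300533 / 207754237226250000) * x ^ 8 * y ^ 9
      + (13575298315454119530692339 / 207754237226250000) * x ^ 9 * y ^ 8
      + (1205666027869753194761587 / 12984639826640625) * x ^ 10 * y ^ 7
      + (15197467197949468054438 / 199763689640625) * x ^ 11 * y ^ 6
      + (18241420151833472948608 / 519385593065625) * x ^ 12 * y ^ 5
      + (167465915463203928944 / 20775423722625) * x ^ 13 * y ^ 4
      + (674642202682917376 / 831016948905) * x ^ 14 * y ^ 3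
      + (52170039598681600 / 166203389781) * x ^ 15 * y ^ 2
      + (1601615450240000 / 12784876137) * x ^ 16 * y ^ 1
      + (4592643200000 / 1162261467) * x ^ 17 := by
    rw [hr, hx, hy]; unfold Uf Yf SL; ring
  have h5 : 0 ≤ r := by
    rw [e]; positivity
  linarith

theorem hd_XU (q : ℝ) (hq : 0 < q) :
    HasDerivAt (fun q => √q ^ 11 * XU q) (√q ^ 9 * SU q) q := by
  obtain ⟨g', h1⟩ : ∃ g', g' = (177127 / 6500000 : ℝ) + (504097 / 7500000) * (2 * q) +
      (831097 / 8500000) * (3 * q ^ 2) + (10263541 / 9500000) * (4 * q ^ 3) +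
      (-14170019 / 3500000) * (5 * q ^ 4) + (181996781 / 11500000) * (6 * q ^ 5) := ⟨_, rfl⟩
  have h0 : HasDerivAt XU g' q := by
    unfold XU
    have h := ((((((hasDerivAt_const q (25001 / 2750000 : ℝ)).add
      ((hasDerivAt_id q).const_mul (177127 / 6500000 : ℝ))).add
      (((hasDerivAt_id q).pow 2).const_mul (504097 / 7500000 : ℝ))).add
      (((hasDerivAt_id q).pow 3).const_mul (831097 / 8500000 : ℝ))).add
      (((hasDerivAt_id q).pow 4).const_mul (10263541 / 9500000 : ℝ))).add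
      (((hasDerivAt_id q).pow 5).const_mul (-14170019 / 3500000 : ℝ))).add
      (((hasDerivAt_id q).pow 6).const_mul (181996781 / 11500000 : ℝ))
    refine h.congr_deriv ?_
    rw [h1]
    simp only [id]
    push_cast
    ring
  refine (hd 9 XU g' q hq h0).congr_deriv ?_
  rw [h1]
  unfold XU SU
  push_cast
  ring

theorem hd_XL (q : ℝ) (hq : 0 < q) :
    HasDerivAt (fun q => √q ^ 11 * XL q) (√q ^ 9 * SL q) q := by
  obtain ⟨g', h1⟩ : ∃ g', g' = (88563 / 3250000 : ℝ) + (16803 / 250000) * (2 * q) + (51923 / 531250) * (3 * q ^ 2) + (539931 / 500000) * (4 * q ^ 3) + (-7081927 / 1750000) * (5 * q ^ 4) + (45478083 / 2875000) * (6 * q ^ 5) := ⟨_, rfl⟩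
  have h0 : HasDerivAt XL g' q := by
    unfold XL
    have h := ((((((hasDerivAt_const q (24999 / 2750000 : ℝ)).add
      ((hasDerivAt_id q).const_mul (88563 / 3250000 : ℝ))).add
      (((hasDerivAt_id q).pow 2).const_mul (16803 / 250000 : ℝ))).add
      (((hasDerivAt_id q).pow 3).const_mul (51923 / 531250 : ℝ))).add
      (((hasDerivAt_id q).pow 4).const_mul (539931 / 500000 : ℝ))).add
      (((hasDerivAt_id q).pow 5).const_mul (-7081927 / 1750000 : ℝ))).add
      (((hasDerivAt_id q).pow 6).const_mul (45478083 / 2875000 : ℝ))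
    refine h.congr_deriv ?_
    rw [h1]
    simp only [id]
    push_cast
    ring
  refine (hd 9 XL g' q hq h0).congr_deriv ?_
  rw [h1]
  unfold XL SL
  push_cast
  ring

theorem SU_pos (q : ℝ) (h0 : 0 ≤ q) (h1 : q ≤ 1 / 6) : 0 ≤ SU q := by
  unfold SU
  have h4 : 0 ≤ q ^ 4 := by positivity
  nlinarith [mul_nonneg h4 (show 0 ≤ 1 / 6 - q by linarith), pow_nonneg h0 6, pow_nonneg h0 3,
    pow_nonneg h0 2]

theorem SL_pos (q : ℝ) (h0 : 0 ≤ q) (h1 : q ≤ 1 / 6) : 0 ≤ SL q := by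
  unfold SL
  have h4 : 0 ≤ q ^ 4 := by positivity
  nlinarith [mul_nonneg h4 (show 0 ≤ 1 / 6 - q by linarith), pow_nonneg h0 6, pow_nonneg h0 3,
    pow_nonneg h0 2]

/-- The tangent. -/
theorem tan_facts (t1 : ℝ) (h1 : t1 ∈ Set.Ioo 0 (π / 2)) (hN : Nf t1 = √(3 / 2)) (t : ℝ)
    (ht : t ∈ Set.Ioo 0 t1) : 0 < Nf t ∧ 7 / 10 ≤ Mf t / Nf t ∧ Mf t / Nf t ≤ 1 ∧
    qf t = (1 - (Mf t / Nf t) ^ 2) / 3 ∧ 0 < qf t ∧ qf t ≤ 1 / 6 ∧
    2 * Mf t / Nf t ^ 3 = 2 / 3 * (Mf t / Nf t) * (1 + (Mf t / Nf t) ^ 2) := by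
  have hpi := Real.pi_pos
  have h3 := N_gt t1 h1 hN t ht.1.le ht.2
  have hn : 0 < Nf t := lt_of_le_of_lt (Real.sqrt_nonneg _) h3
  have h4 : 3 / 2 < Nf t ^ 2 := by
    have := pow_lt_pow_left₀ h3 (Real.sqrt_nonneg _) two_ne_zero
    rwa [Real.sq_sqrt (by norm_num)] at this
  have a2 : Nf t ≤ √2 := by
    have h5 : Nf t ≤ Nf 0 :=
      N_anti.antitoneOn ⟨le_refl _, by linarith⟩ ⟨ht.1.le, by linarith [ht.2, h1.2]⟩ ht.1.le
    unfold Nf at h5 ⊢
    rw [Real.cos_zero, Real.sin_zero] at h5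
    linarith
  have a3 : Nf t ^ 2 ≤ 2 := by
    have := pow_le_pow_left₀ hn.le a2 2
    rwa [Real.sq_sqrt (by norm_num)] at this
  have hM : 0 ≤ Mf t := by
    have c1 : 0 ≤ cos t := Real.cos_nonneg_of_neg_pi_div_two_le_of_le (by linarith [ht.1])
      (by linarith [ht.2, h1.2])
    have c2 : 0 ≤ sin t := Real.sin_nonneg_of_nonneg_of_le_pi ht.1.le (by linarith [ht.2, h1.2])
    unfold Mf
    positivity
  obtain ⟨T, hT⟩ : ∃ T, T = Mf t / Nf t := ⟨_, rfl⟩
  have hTM : Mf t = T * Nf t := by rw [hT]; field_simp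
  have hT0 : 0 ≤ T := by rw [hT]; positivity
  have hnm := NM t
  rw [hTM] at hnm
  have e1 : 1 / Nf t ^ 2 = (1 + T ^ 2) / 3 := by
    rw [div_eq_div_iff (by positivity) (by norm_num)]
    linarith
  have hTlo : 7 / 10 ≤ T := by
    by_contra hh
    push Not at hh
    nlinarith
  have hThi : T ≤ 1 := by
    by_contra hh
    push Not at hh
    nlinarith
  have e2 : qf t = (1 - T ^ 2) / 3 := by
    unfold qf
    rw [e1]; ring
  have e3 : 0 < qf t := by
    unfold qf
    have : 1 / Nf t ^ 2 < 2 / 3 := by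
      rw [div_lt_iff₀ (by linarith)]
      linarith
    linarith
  have e4 : qf t ≤ 1 / 6 := by
    unfold qf
    have : 1 / 2 ≤ 1 / Nf t ^ 2 := by
      rw [le_div_iff₀ (by linarith)]
      linarith
    linarith
  rw [← hT]
  refine ⟨hn, hTlo, hThi, e2, e3, e4, ?_⟩
  rw [hTM]
  have : 2 * (T * Nf t) / Nf t ^ 3 = 2 * T * (1 / Nf t ^ 2) := by field_simp
  rw [this, e1]
  ring

theorem vol_le : volume (cap e0 ∩ cap e1 ∩ cap e2) ≤
    ENNReal.ofReal (6 * (8 * π ^ 2 / 105) * (√(1 / 6) ^ 11 * XU (1 / 6))) := by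
  obtain ⟨t1, h1, hN⟩ := exists_t1
  rw [vol_triple, D0_outer t1 h1 hN]
  have h2 : ∫⁻ t in Set.Ioo 0 t1, Jin (qf t) ≤ ENNReal.ofReal (√(1 / 6) ^ 11 * XU (1 / 6)) := by
    rw [← outer_int t1 h1 hN SU XU (by unfold SU; fun_prop) (by unfold XU; fun_prop) hd_XU SU_pos]
    apply setLIntegral_mono' measurableSet_Ioo
    intro t ht
    obtain ⟨b1, b2, b3, b4, b5, b6, b7⟩ := tan_facts t1 h1 hN t ht
    refine le_trans (Jin_le (qf t) b5 b6) ?_
    apply ENNReal.ofReal_le_ofReal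
    have h5 := polU _ b2 b3
    rw [← b4] at h5
    rw [b7]
    have h6 : 0 ≤ √(qf t) ^ 9 := by positivity
    nlinarith [mul_le_mul_of_nonneg_left h5 h6]
  have h3 : (0 : ℝ) ≤ 8 * π ^ 2 / 105 := by positivity
  calc 3 * (2 * (ENNReal.ofReal (8 * π ^ 2 / 105) * ∫⁻ t in Set.Ioo 0 t1, Jin (qf t)))
      ≤ 3 * (2 * (ENNReal.ofReal (8 * π ^ 2 / 105) *
          ENNReal.ofReal (√(1 / 6) ^ 11 * XU (1 / 6)))) := by gcongr
    _ = ENNReal.ofReal (6 * (8 * π ^ 2 / 105) * (√(1 / 6) ^ 11 * XU (1 / 6))) := by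
        rw [← ENNReal.ofReal_mul h3, show (3 : ENNReal) = ENNReal.ofReal 3 by simp,
          show (2 : ENNReal) = ENNReal.ofReal 2 by simp, ← ENNReal.ofReal_mul (by norm_num),
          ← ENNReal.ofReal_mul (by norm_num)]
        congr 1
        ring

theorem vol_ge : ENNReal.ofReal (6 * (8 * π ^ 2 / 105) * (√(1 / 6) ^ 11 * XL (1 / 6))) ≤
    volume (cap e0 ∩ cap e1 ∩ cap e2) := by
  obtain ⟨t1, h1, hN⟩ := exists_t1
  rw [vol_triple, D0_outer t1 h1 hN]
  have h2 : ENNReal.ofReal (√(1 / 6) ^ 11 * XL (1 / 6)) ≤ ∫⁻ t in Set.Ioo 0 t1, Jin (qf t) := by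
    rw [← outer_int t1 h1 hN SL XL (by unfold SL; fun_prop) (by unfold XL; fun_prop) hd_XL SL_pos]
    apply setLIntegral_mono' measurableSet_Ioo
    intro t ht
    obtain ⟨b1, b2, b3, b4, b5, b6, b7⟩ := tan_facts t1 h1 hN t ht
    refine le_trans ?_ (Jin_ge (qf t) b5 b6)
    apply ENNReal.ofReal_le_ofReal
    have h5 := polL _ b2 b3
    rw [← b4] at h5
    rw [b7]
    have h6 : 0 ≤ √(qf t) ^ 9 := by positivity
    nlinarith [mul_le_mul_of_nonneg_left h5 h6]
  have h3 : (0 : ℝ) ≤ 8 * π ^ 2 / 105 := by positivity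
  calc ENNReal.ofReal (6 * (8 * π ^ 2 / 105) * (√(1 / 6) ^ 11 * XL (1 / 6)))
      = 3 * (2 * (ENNReal.ofReal (8 * π ^ 2 / 105) *
          ENNReal.ofReal (√(1 / 6) ^ 11 * XL (1 / 6)))) := by
        rw [← ENNReal.ofReal_mul h3, show (3 : ENNReal) = ENNReal.ofReal 3 by simp,
          show (2 : ENNReal) = ENNReal.ofReal 2 by simp, ← ENNReal.ofReal_mul (by norm_num),
          ← ENNReal.ofReal_mul (by norm_num)]
        congr 1
        ring
    _ ≤ 3 * (2 * (ENNReal.ofReal (8 * π ^ 2 / 105) * ∫⁻ t in Set.Ioo 0 t1, Jin (qf t))) := by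
        gcongr

theorem sq6 : 0.40824829 < √(1 / 6 : ℝ) ∧ √(1 / 6 : ℝ) < 0.4082482905 := by
  constructor
  · rw [Real.lt_sqrt (by norm_num)]; norm_num
  · rw [Real.sqrt_lt' (by norm_num)]; norm_num

theorem s3_bounds : 0.00000393297 < s3 ∧ s3 < 0.00000393329 := by
  have hp1 := Real.pi_gt_d20
  have hp2 := Real.pi_lt_d20
  obtain ⟨r1, r2⟩ := sq6
  have q1 : 9.8696 < π ^ 2 := by nlinarith
  have q2 : π ^ 2 < 9.869605 := by nlinarith
  have e11 : √(1 / 6 : ℝ) ^ 11 = (1 / 6) ^ 5 * √(1 / 6) := by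
    have : √(1 / 6 : ℝ) ^ 11 = (√(1 / 6) ^ 2) ^ 5 * √(1 / 6) := by ring
    rw [this, Real.sq_sqrt (by norm_num)]
  have hU : XU (1 / 6) < 0.0166048565 := by unfold XU; norm_num
  have hL : 0.0166035734 < XL (1 / 6) := by unfold XL; norm_num
  have hU0 : 0 < XU (1 / 6) := by unfold XU; norm_num
  have hs : 0 < √(1 / 6 : ℝ) := by positivity
  constructor
  · have h := vol_ge
    rw [e11] at h
    have h2 : 6 * (8 * π ^ 2 / 105) * ((1 / 6) ^ 5 * √(1 / 6) * XL (1 / 6)) ≤ s3 := by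
      unfold s3 v3
      rw [← ENNReal.ofReal_le_iff_le_toReal]
      · exact h
      · exact ne_top_of_le_ne_top ENNReal.ofReal_ne_top vol_le
    refine lt_of_lt_of_le ?_ h2
    have h3 : 9.8696 * 0.40824829 < π ^ 2 * √(1 / 6) :=
      (mul_bounds (by norm_num) (by norm_num) q1 q2 r1 r2).1
    have h4 : 9.8696 * 0.40824829 * 0.0166035734 < π ^ 2 * √(1 / 6) * XL (1 / 6) := by
      have h5 : 0 < π ^ 2 * √(1 / 6) := by positivity
      nlinarith
    nlinarith
  · have h2 : s3 ≤ 6 * (8 * π ^ 2 / 105) * ((1 / 6) ^ 5 * √(1 / 6) * XU (1 / 6)) := by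
      unfold s3 v3
      apply ENNReal.toReal_le_of_le_ofReal (by positivity)
      rw [← e11]
      exact vol_le
    refine lt_of_le_of_lt h2 ?_
    have h3 : π ^ 2 * √(1 / 6) < 9.869605 * 0.4082482905 :=
      (mul_bounds (by norm_num) (by norm_num) q1 q2 r1 r2).2
    have h4 : π ^ 2 * √(1 / 6) * XU (1 / 6) < 9.869605 * 0.4082482905 * 0.0166048565 := by
      have h5 : 0 < π ^ 2 * √(1 / 6) := by positivity
      nlinarith
    nlinarith

theorem GG_bounds : 0.00058330989 < GG ∧ GG < 0.00058331281 := by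
  obtain ⟨a1, a2⟩ := g11_bounds
  obtain ⟨b1, b2⟩ := s3_bounds
  unfold GG
  constructor <;> linarith

/-- `T0 = vol bal - 240 c1 + 6720 GG ≥ 16 - 0.0084`. -/
theorem T0_ge : 15.9917 < (volume bal).toReal - 240 * c1 + 6720 * GG := by
  obtain ⟨a1, a2⟩ := c1_bounds
  obtain ⟨b1, b2⟩ := GG_bounds
  obtain ⟨c1, c2⟩ := vol_bal_bounds
  linarith

theorem T0_lt : (volume bal).toReal - 240 * c1 + 6720 * GG < 15.9918 := by
  obtain ⟨a1, a2⟩ := c1_bounds
  obtain ⟨b1, b2⟩ := GG_bounds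
  obtain ⟨c1, c2⟩ := vol_bal_bounds
  linarith

end Pool.Agent.Lib.MP_f1379f_gt.FV.TV
end

section
/-!
# PWC: (PV2) for two rational references
-/
set_option autoImplicit false
set_option linter.style.longLine false

namespace Pool.Agent.Lib.MP_f1379f_gt.FV.PW

open MeasureTheory Real PV

theorem Dt_nonneg (u v : E) : 0 ≤ Dt u v := by
  unfold Dt
  have h := abs_real_inner_le_norm u v
  have h2 := pow_le_pow_left₀ (abs_nonneg _) h 2
  rw [sq_abs] at h2
  linarith [h2, mul_pow ‖u‖ ‖v‖ 2]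

/-- (PV2) with constants. -/
theorem pv2_rat (w t ρ c al be ga : ℝ) (ht : 0 ≤ t) (htw : t ≤ w) (hw : w ^ 2 ≤ 2 / 3)
    (hρ : 0 < ρ) (hB : 0 ≤ JB w t)
    (hc : c ≤ π ^ 3 / 48 * (JC w t / SS w ^ 4 - 4 / (SS w ^ 5 * (1 + t ^ 2)) * JB w t * ρ))
    (hal : al ≤ π ^ 3 / 48 * (4 / (SS w ^ 5 * (1 + t ^ 2)) * 2 * JA w t))
    (hbe : π ^ 3 / 48 * (4 / (SS w ^ 5 * (1 + t ^ 2)) * JB w t / ρ) ≤ be)
    (hga : ga ≤ π ^ 3 / 48 * (4 / (SS w ^ 5 * (1 + t ^ 2)) * JG w t))
    (u v : E) (hu : ‖u‖ ≤ 1) (hv : ‖v‖ ≤ 1) (huv : u ≠ v) :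
    (c + ga * (‖u‖ ^ 2 + ‖v‖ ^ 2)) * ‖u - v‖ ^ 2 + al * Dt u v
      - be * Dt u v * ‖u - v‖ ^ 2 ≤ v2 u v * ‖u - v‖ ^ 2 := by
  have hpos : 0 < ‖u - v‖ := norm_pos_iff.mpr (sub_ne_zero.mpr huv)
  have hD := Dt_nonneg u v
  have h := pv2_gen w t ht htw hw u v hu hv huv
  obtain ⟨D, hDd⟩ : ∃ D, D = Dt u v := ⟨_, rfl⟩
  obtain ⟨q, hq⟩ : ∃ q, q = Dt u v / ‖u - v‖ ^ 2 := ⟨_, rfl⟩
  have hqd : q * ‖u - v‖ ^ 2 = D := by rw [hq, hDd]; field_simp
  obtain ⟨r, hr⟩ : ∃ r, r = √(Dt u v) := ⟨_, rfl⟩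
  have hr2 : r ^ 2 = D := by rw [hr, hDd, Real.sq_sqrt hD]
  have hrl : 2 * r ≤ D / ρ + ρ := by
    have e : D / ρ + ρ - 2 * r = (r - ρ) ^ 2 / ρ := by rw [← hr2]; field_simp; ring
    have : 0 ≤ (r - ρ) ^ 2 / ρ := by positivity
    linarith
  obtain ⟨f, hf⟩ : ∃ f, f = 4 / (SS w ^ 5 * (1 + t ^ 2)) := ⟨_, rfl⟩
  have hf0 : 0 < f := by rw [hf]; have := SS_pos w; positivity
  rw [← hf] at hc hal hbe hga h
  rw [← hDd] at hD
  rw [← hq, ← hr] at h
  rw [← hDd]
  obtain ⟨n, hn⟩ : ∃ n, n = ‖u‖ ^ 2 + ‖v‖ ^ 2 := ⟨_, rfl⟩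
  have hn0 : 0 ≤ n := by rw [hn]; positivity
  rw [← hn] at h ⊢
  have hq0 : 0 ≤ q := by rw [hq]; have := Dt_nonneg u v; positivity
  have hp : 0 < π ^ 3 / 48 := by positivity
  have k1 : π ^ 3 / 48 * (f * JB w t) * (2 * r) ≤ π ^ 3 / 48 * (f * JB w t) * (D / ρ + ρ) :=
    mul_le_mul_of_nonneg_left hrl (by positivity)
  have k2 := mul_le_mul_of_nonneg_right hal hq0
  have k3 := mul_le_mul_of_nonneg_right hbe hD
  have k4 := mul_le_mul_of_nonneg_right hga hn0
  have key : c + ga * n + al * q - be * D ≤ v2 u v := by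
    refine le_trans ?_ h
    have e : π ^ 3 / 48 * (JC w t / SS w ^ 4 + f * (2 * q * JA w t - 2 * r * JB w t + n * JG w t)) =
        π ^ 3 / 48 * (JC w t / SS w ^ 4 - f * JB w t * ρ) + π ^ 3 / 48 * (f * 2 * JA w t) * q -
        π ^ 3 / 48 * (f * JB w t / ρ) * D + π ^ 3 / 48 * (f * JG w t) * n +
        (π ^ 3 / 48 * (f * JB w t) * (D / ρ + ρ) - π ^ 3 / 48 * (f * JB w t) * (2 * r)) := by
      ring
    rw [e]
    linarith
  have k5 := mul_le_mul_of_nonneg_right key (show 0 ≤ ‖u - v‖ ^ 2 by positivity)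
  refine le_trans (le_of_eq ?_) k5
  rw [← hqd]
  ring

theorem at1 : (139382127495171 / 1000000000000000) < arctan (19 / 25) - arctan (14 / 25) := by
  have e : arctan (19 / 25) = arctan (14 / 25) + arctan (125 / 891) := by
    rw [arctan_add (by norm_num)]
    norm_num
  have h := arctan_ge (x := (125 / 891)) (by norm_num)
  have h2 : ((139382127495171 / 1000000000000000) : ℝ) < (125 / 891) - (125 / 891) ^ 3 / 3 + (125 / 891) ^ 5 / 5 - (125 / 891) ^ 7 / 7 +
      (125 / 891) ^ 9 / 9 - (125 / 891) ^ 11 / 11 + (125 / 891) ^ 13 / 13 - (125 / 891) ^ 15 / 15 := by norm_num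
  linarith

theorem JA1 : JA (19 / 25) (14 / 25) = (4120088951 / 2288818359375) := by
  unfold JA L0 L1 L2; norm_num

theorem JB1 : JB (19 / 25) (14 / 25) = (635163061 / 10986328125000) := by
  unfold JB L0 L1 L2; norm_num

theorem JG1 : JG (19 / 25) (14 / 25) = (456571 / 153808593750) := by
  unfold JG L0 L1 L2; norm_num

theorem SS1 : SS (19 / 25) = (2958 / 3125) := by
  unfold SS; norm_num

theorem JC1 : (-(775627740211779560909009 / 100135803222656250000000000)) < JC (19 / 25) (14 / 25) := by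
  have h := at1
  have e : JC (19 / 25) (14 / 25) = 2 * (1 + (19 / 25) ^ 2) ^ 4 * (arctan (19 / 25) - arctan (14 / 25)) +
      ((-(44462904092 / 25634765625))) := by
    unfold JC G0 L0
    ring
  rw [e]
  have h2 := mul_lt_mul_of_pos_left h (show (0 : ℝ) < 2 * (1 + (19 / 25) ^ 2) ^ 4 by norm_num)
  refine lt_of_le_of_lt ?_ (add_lt_add_left h2 _)
  norm_num

/-- **(PV2)**, reference 1. -/
theorem pv1 (u v : E) (hu : ‖u‖ ≤ 1) (hv : ‖v‖ ≤ 1) (huv : u ≠ v) :
    ((-0.00635353185) + 0.00000768408 * (‖u‖ ^ 2 + ‖v‖ ^ 2)) * ‖u - v‖ ^ 2 + 0.00931943861 * Dt u v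
      - 0.00018543604 * Dt u v * ‖u - v‖ ^ 2 ≤ v2 u v * ‖u - v‖ ^ 2 := by
  obtain ⟨p1, p2⟩ := pi3_bounds
  have hC := JC1
  apply pv2_rat (19 / 25) (14 / 25) (82824 / 102625) (-0.00635353185) 0.00931943861 0.00018543604 0.00000768408 (by norm_num) (by norm_num)
    (by norm_num) (by norm_num) (by rw [JB1]; norm_num) _ _ _ _ u v hu hv huv
  · rw [JB1, SS1]
    have h3 : (-(775627740211779560909009 / 100135803222656250000000000)) / (2958 / 3125) ^ 4 < JC (19 / 25) (14 / 25) / (2958 / 3125) ^ 4 :=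
      div_lt_div_of_pos_right hC (by norm_num)
    have h4 : π ^ 3 * ((-(1598808237831397133544008006107 / 7802446222979561795443200000000000))) ≤ π ^ 3 / 48 * (JC (19 / 25) (14 / 25) / (2958 / 3125) ^ 4 -
        4 / ((2958 / 3125) ^ 5 * (1 + (14 / 25) ^ 2)) * (635163061 / 10986328125000) * (82824 / 102625)) := by
      have h5 : ((-(1598808237831397133544008006107 / 7802446222979561795443200000000000)) : ℝ) = 1 / 48 * ((-(775627740211779560909009 / 100135803222656250000000000)) / (2958 / 3125) ^ 4 -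
        4 / ((2958 / 3125) ^ 5 * (1 + (14 / 25) ^ 2)) * (635163061 / 10986328125000) * (82824 / 102625)) := by norm_num
      rw [h5]
      have hp : 0 < π ^ 3 := by positivity
      have h6 := mul_lt_mul_of_pos_left h3 hp
      linarith
    refine le_trans ?_ h4
    have h7 := mul_lt_mul_of_neg_right p2 (show ((-(1598808237831397133544008006107 / 7802446222979561795443200000000000)) : ℝ) < 0 by norm_num)
    refine le_trans ?_ h7.le
    norm_num
  · rw [JA1, SS1]
    have h7 := mul_lt_mul_of_pos_right p1 (show (0 : ℝ) < 1 / 48 *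
      (4 / ((2958 / 3125) ^ 5 * (1 + (14 / 25) ^ 2)) * 2 * (4120088951 / 2288818359375)) by norm_num)
    refine le_trans (le_trans ?_ h7.le) (le_of_eq (by ring))
    norm_num
  · rw [JB1, SS1]
    have h7 := mul_lt_mul_of_pos_right p2 (show (0 : ℝ) < 1 / 48 *
      (4 / ((2958 / 3125) ^ 5 * (1 + (14 / 25) ^ 2)) * (635163061 / 10986328125000) / (82824 / 102625)) by norm_num)
    refine le_trans (le_of_eq (by ring)) (le_trans h7.le ?_)
    norm_num
  · rw [JG1, SS1]
    have h7 := mul_lt_mul_of_pos_right p1 (show (0 : ℝ) < 1 / 48 *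
      (4 / ((2958 / 3125) ^ 5 * (1 + (14 / 25) ^ 2)) * (456571 / 153808593750)) by norm_num)
    refine le_trans (le_trans ?_ h7.le) (le_of_eq (by ring))
    norm_num

theorem at2 : (28898175230201 / 250000000000000) < arctan (7 / 10) - arctan (27 / 50) := by
  have e : arctan (7 / 10) = arctan (27 / 50) + arctan (80 / 689) := by
    rw [arctan_add (by norm_num)]
    norm_num
  have h := arctan_ge (x := (80 / 689)) (by norm_num)
  have h2 : ((28898175230201 / 250000000000000) : ℝ) < (80 / 689) - (80 / 689) ^ 3 / 3 + (80 / 689) ^ 5 / 5 - (80 / 689) ^ 7 / 7 +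
      (80 / 689) ^ 9 / 9 - (80 / 689) ^ 11 / 11 + (80 / 689) ^ 13 / 13 - (80 / 689) ^ 15 / 15 := by norm_num
  linarith

theorem JA2 : JA (7 / 10) (27 / 50) = (12416196789676 / 21457672119140625) := by
  unfold JA L0 L1 L2; norm_num

theorem JB2 : JB (7 / 10) (27 / 50) = (10020225344 / 667572021484375) := by
  unfold JB L0 L1 L2; norm_num

theorem JG2 : JG (7 / 10) (27 / 50) = (150785024 / 240325927734375) := by
  unfold JG L0 L1 L2; norm_num

theorem SS2 : SS (7 / 10) = (447 / 500) := by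
  unfold SS; norm_num

theorem JC2 : (-(687548114816203113379 / 262500000000000000000000)) < JC (7 / 10) (27 / 50) := by
  have h := at2
  have e : JC (7 / 10) (27 / 50) = 2 * (1 + (7 / 10) ^ 2) ^ 4 * (arctan (7 / 10) - arctan (27 / 50)) +
      ((-(234218909117 / 205078125000))) := by
    unfold JC G0 L0
    ring
  rw [e]
  have h2 := mul_lt_mul_of_pos_left h (show (0 : ℝ) < 2 * (1 + (7 / 10) ^ 2) ^ 4 by norm_num)
  refine lt_of_le_of_lt ?_ (add_lt_add_left h2 _)
  norm_num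

/-- **(PV2)**, reference 2. -/
theorem pv2 (u v : E) (hu : ‖u‖ ≤ 1) (hv : ‖v‖ ≤ 1) (huv : u ≠ v) :
    ((-0.00268800246) + 0.00000219791 * (‖u‖ ^ 2 + ‖v‖ ^ 2)) * ‖u - v‖ ^ 2 + 0.00405404644 * Dt u v
      - 0.00007033944 * Dt u v * ‖u - v‖ ^ 2 ≤ v2 u v * ‖u - v‖ ^ 2 := by
  obtain ⟨p1, p2⟩ := pi3_bounds
  have hC := JC2
  apply pv2_rat (7 / 10) (27 / 50) (12069 / 16145) (-0.00268800246) 0.00405404644 0.00007033944 0.00000219791 (by norm_num) (by norm_num)
    (by norm_num) (by norm_num) (by rw [JB2]; norm_num) _ _ _ _ u v hu hv huv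
  · rw [JB2, SS2]
    have h3 : (-(687548114816203113379 / 262500000000000000000000)) / (447 / 500) ^ 4 < JC (7 / 10) (27 / 50) / (447 / 500) ^ 4 :=
      div_lt_div_of_pos_right hC (by norm_num)
    have h4 : π ^ 3 * ((-(7275062902871757813662454139 / 83918306359358174793600000000000))) ≤ π ^ 3 / 48 * (JC (7 / 10) (27 / 50) / (447 / 500) ^ 4 -
        4 / ((447 / 500) ^ 5 * (1 + (27 / 50) ^ 2)) * (10020225344 / 667572021484375) * (12069 / 16145)) := by
      have h5 : ((-(7275062902871757813662454139 / 83918306359358174793600000000000)) : ℝ) = 1 / 48 * ((-(687548114816203113379 / 262500000000000000000000)) / (447 / 500) ^ 4 -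
        4 / ((447 / 500) ^ 5 * (1 + (27 / 50) ^ 2)) * (10020225344 / 667572021484375) * (12069 / 16145)) := by norm_num
      rw [h5]
      have hp : 0 < π ^ 3 := by positivity
      have h6 := mul_lt_mul_of_pos_left h3 hp
      linarith
    refine le_trans ?_ h4
    have h7 := mul_lt_mul_of_neg_right p2 (show ((-(7275062902871757813662454139 / 83918306359358174793600000000000)) : ℝ) < 0 by norm_num)
    refine le_trans ?_ h7.le
    norm_num
  · rw [JA2, SS2]
    have h7 := mul_lt_mul_of_pos_right p1 (show (0 : ℝ) < 1 / 48 *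
      (4 / ((447 / 500) ^ 5 * (1 + (27 / 50) ^ 2)) * 2 * (12416196789676 / 21457672119140625)) by norm_num)
    refine le_trans (le_trans ?_ h7.le) (le_of_eq (by ring))
    norm_num
  · rw [JB2, SS2]
    have h7 := mul_lt_mul_of_pos_right p2 (show (0 : ℝ) < 1 / 48 *
      (4 / ((447 / 500) ^ 5 * (1 + (27 / 50) ^ 2)) * (10020225344 / 667572021484375) / (12069 / 16145)) by norm_num)
    refine le_trans (le_of_eq (by ring)) (le_trans h7.le ?_)
    norm_num
  · rw [JG2, SS2]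
    have h7 := mul_lt_mul_of_pos_right p1 (show (0 : ℝ) < 1 / 48 *
      (4 / ((447 / 500) ^ 5 * (1 + (27 / 50) ^ 2)) * (150785024 / 240325927734375)) by norm_num)
    refine le_trans (le_trans ?_ h7.le) (le_of_eq (by ring))
    norm_num

end Pool.Agent.Lib.MP_f1379f_gt.FV.PW
end

section
/-!
# PWD: (PV2) at the contact reference
-/
set_option autoImplicit false
set_option linter.style.longLine false

namespace Pool.Agent.Lib.MP_f1379f_gt.FV.PW

open MeasureTheory Real PV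

section

/-- The contact parameters. -/
noncomputable def w0 : ℝ := √6 / 3

/-- The contact parameters. -/
noncomputable def t0 : ℝ := √3 / 3

theorem w0_sq : w0 ^ 2 = 2 / 3 := by
  unfold w0; rw [div_pow, Real.sq_sqrt (by norm_num)]; norm_num

theorem t0_sq : t0 ^ 2 = 1 / 3 := by
  unfold t0; rw [div_pow, Real.sq_sqrt (by norm_num)]; norm_num

theorem w0_3 : w0 ^ 3 = 2 / 3 * w0 := by rw [pow_succ, w0_sq]
theorem w0_4 : w0 ^ 4 = 4 / 9 := by
  have : w0 ^ 4 = (w0 ^ 2) ^ 2 := by ring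
  rw [this, w0_sq]; norm_num
theorem w0_5 : w0 ^ 5 = 4 / 9 * w0 := by rw [pow_succ, w0_4]
theorem w0_6 : w0 ^ 6 = 8 / 27 := by
  have : w0 ^ 6 = (w0 ^ 2) ^ 3 := by ring
  rw [this, w0_sq]; norm_num
theorem w0_7 : w0 ^ 7 = 8 / 27 * w0 := by rw [pow_succ, w0_6]
theorem w0_9 : w0 ^ 9 = 16 / 81 * w0 := by
  have : w0 ^ 9 = (w0 ^ 2) ^ 4 * w0 := by ring
  rw [this, w0_sq]; norm_num
theorem t0_3 : t0 ^ 3 = 1 / 3 * t0 := by rw [pow_succ, t0_sq]
theorem t0_5 : t0 ^ 5 = 1 / 9 * t0 := by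
  have : t0 ^ 5 = (t0 ^ 2) ^ 2 * t0 := by ring
  rw [this, t0_sq]; norm_num
theorem t0_7 : t0 ^ 7 = 1 / 27 * t0 := by
  have : t0 ^ 7 = (t0 ^ 2) ^ 3 * t0 := by ring
  rw [this, t0_sq]; norm_num
theorem t0_9 : t0 ^ 9 = 1 / 81 * t0 := by
  have : t0 ^ 9 = (t0 ^ 2) ^ 4 * t0 := by ring
  rw [this, t0_sq]; norm_num

theorem c_L0 : L0 w0 w0 - L0 w0 t0 = 128 / 945 * w0 - 177 / 945 * t0 := by
  unfold L0
  rw [w0_3, w0_4, w0_5, w0_6, w0_7, t0_3, t0_5, t0_7, w0_sq]
  ring

theorem c_L1 : L1 w0 w0 - L1 w0 t0 = 1 / 648 := by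
  unfold L1
  rw [w0_sq, t0_sq]
  norm_num

theorem c_L2 : L2 w0 w0 - L2 w0 t0 = 256 / 25515 * w0 - 319 / 25515 * t0 := by
  unfold L2
  rw [w0_3, w0_4, w0_5, w0_6, w0_7, w0_9, t0_3, t0_5, t0_7, t0_9, w0_sq]
  ring

theorem c_G0 : G0 w0 w0 - G0 w0 t0 = (-(6043 / 945)) * w0 + (6512 / 945) * t0 := by
  unfold G0
  rw [w0_3, w0_5, w0_7, t0_3, t0_5, t0_7, w0_sq]
  ring

theorem c_SS : SS w0 = 1 := by unfold SS; rw [w0_sq]; norm_num

theorem arctan_t0 : arctan t0 = π / 6 := by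
  have h : t0 = tan (π / 6) := by
    rw [tan_pi_div_six]
    unfold t0
    have h3 : √(3 : ℝ) ^ 2 = 3 := Real.sq_sqrt (by norm_num)
    have : 0 < √(3 : ℝ) := Real.sqrt_pos.mpr (by norm_num)
    field_simp
    linarith
  rw [h, arctan_tan] <;> linarith [Real.pi_pos]

theorem c_JA : JA w0 t0 = 2 / 3 * ((128 / 945 - 256 / 25515) * w0 - (177 / 945 - 319 / 25515) * t0)
    + t0 / 162 := by
  unfold JA
  rw [c_L0, c_L1, c_L2, t0_sq]
  ring

theorem c_JB : t0 * JB w0 t0 = -(1 / 3) * ((128 / 945 - 256 / 25515) * w0 -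
    (177 / 945 - 319 / 25515) * t0) + t0 / 972 := by
  unfold JB
  rw [c_L0, c_L1, c_L2, t0_sq]
  have h := t0_sq
  linear_combination (-((128 / 945 - 256 / 25515) * w0 - (177 / 945 - 319 / 25515) * t0)) * h

theorem c_JG : JG w0 t0 = 1 / 3 * (128 / 945 * w0 - 177 / 945 * t0) - t0 / 324 +
    (256 / 25515 * w0 - 319 / 25515 * t0) := by
  unfold JG
  rw [c_L0, c_L1, c_L2, t0_sq]
  ring

/-- Real slopes. -/
noncomputable def alS : ℝ := π ^ 3 / 8 * JA w0 t0
/-- Real slopes. -/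
noncomputable def beS : ℝ := π ^ 3 / 8 * (t0 * JB w0 t0)
/-- Real slopes. -/
noncomputable def gaS : ℝ := π ^ 3 / 16 * JG w0 t0

theorem const_id : π ^ 3 / 48 * JC w0 t0 = g11 - 3 / 4 * alS + 3 / 2 * beS - 2 * gaS := by
  rw [g11_closed]
  unfold alS beS gaS JC
  rw [c_JA, c_JB, c_JG, c_L0, c_G0, arctan_t0, w0_sq]
  have e1 : √6 = 3 * w0 := by unfold w0; ring
  have e2 : √3 = 3 * t0 := by unfold t0; ring
  have e3 : (√6 / 3 : ℝ) = w0 := rfl
  rw [e3, e1, e2]
  ring

theorem w0_bd : 0.816496580927 < w0 ∧ w0 < 0.816496580928 := by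
  obtain ⟨h1, h2⟩ := sqrt6_hi
  unfold w0
  constructor <;> linarith

theorem t0_bd : 0.577350269189 < t0 ∧ t0 < 0.57735026919 := by
  obtain ⟨h1, h2⟩ := sqrt3_hi
  unfold t0
  constructor <;> linarith

theorem alS_bd : 0.017641501980 < alS ∧ alS < 0.017641501990 := by
  obtain ⟨p1, p2⟩ := pi3_bounds
  obtain ⟨w1, w2⟩ := w0_bd
  obtain ⟨t1, t2⟩ := t0_bd
  unfold alS
  rw [c_JA]
  have h := mul_bounds (x := π ^ 3) (y := 2 / 3 * ((128 / 945 - 256 / 25515) * w0 -
    (177 / 945 - 319 / 25515) * t0) + t0 / 162) (a := 31.0062766802998) (b := 31.0062766802999)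
    (c := (45517240701583 / 10000000000000000)) (d := (1820689628141 / 400000000000000)) (by norm_num) (by norm_num) p1 p2 (by linarith) (by linarith)
  constructor <;> linarith [h.1, h.2]

theorem beS_bd : 0.000387830378 < beS ∧ beS < 0.000387830380 := by
  obtain ⟨p1, p2⟩ := pi3_bounds
  obtain ⟨w1, w2⟩ := w0_bd
  obtain ⟨t1, t2⟩ := t0_bd
  unfold beS
  rw [c_JB]
  have h := mul_bounds (x := π ^ 3) (y := -(1 / 3) * ((128 / 945 - 256 / 25515) * w0 -
    (177 / 945 - 319 / 25515) * t0) + t0 / 972) (a := 31.0062766802998) (b := 31.0062766802999)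
    (c := (1000649985233 / 10000000000000000)) (d := (1000649986247 / 10000000000000000)) (by norm_num) (by norm_num) p1 p2 (by linarith) (by linarith)
  constructor <;> linarith [h.1, h.2]

theorem gaS_bd : 0.000020289390 < gaS ∧ gaS < 0.000020289392 := by
  obtain ⟨p1, p2⟩ := pi3_bounds
  obtain ⟨w1, w2⟩ := w0_bd
  obtain ⟨t1, t2⟩ := t0_bd
  unfold gaS
  rw [c_JG]
  have h := mul_bounds (x := π ^ 3) (y := 1 / 3 * (128 / 945 * w0 - 177 / 945 * t0) - t0 / 324 +
    (256 / 25515 * w0 - 319 / 25515 * t0)) (a := 31.0062766802998) (b := 31.0062766802999)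
    (c := (104698238377 / 10000000000000000)) (d := (3271819991 / 312500000000000)) (by norm_num) (by norm_num) p1 p2 (by linarith) (by linarith)
  constructor <;> linarith [h.1, h.2]

end

theorem JB_pos : 0 < JB w0 t0 := by
  have h := beS_bd.1
  unfold beS at h
  have ht : 0 < t0 := lt_trans (by norm_num) t0_bd.1
  have hp : 0 < π ^ 3 / 8 := by positivity
  have h2 : 0 < π ^ 3 / 8 * (t0 * JB w0 t0) := lt_trans (by norm_num) h
  have h3 : 0 < t0 * JB w0 t0 := (mul_pos_iff_of_pos_left hp).mp h2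
  exact (mul_pos_iff_of_pos_left ht).mp h3

/-- (PV2) at the contact reference, real slopes. -/
theorem pv0_real (u v : E) (hu : ‖u‖ ≤ 1) (hv : ‖v‖ ≤ 1) (huv : u ≠ v) :
    g11 + alS * (Dt u v / ‖u - v‖ ^ 2 - 3 / 4) - beS * (Dt u v - 3 / 4) +
      gaS * (‖u‖ ^ 2 + ‖v‖ ^ 2 - 2) ≤ v2 u v := by
  have ht0 : 0 < t0 := lt_trans (by norm_num) t0_bd.1
  have hle : t0 ≤ w0 := by linarith [t0_bd.2, w0_bd.1]
  have hD := Dt_nonneg u v
  have h := pv2_gen w0 t0 ht0.le hle (by rw [w0_sq]) u v hu hv huv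
  rw [c_SS, t0_sq] at h
  obtain ⟨r, hr⟩ : ∃ r, r = √(Dt u v) := ⟨_, rfl⟩
  have hr2 : r ^ 2 = Dt u v := by rw [hr, Real.sq_sqrt hD]
  have hrl : r ≤ (Dt u v + 3 / 4) * t0 := by
    have e : (Dt u v + 3 / 4) * t0 - r = t0 * (r - 3 / 2 * t0) ^ 2 := by
      rw [← hr2]
      have := t0_sq
      linear_combination (3 * r - 9 / 4 * t0) * this
    have : 0 ≤ t0 * (r - 3 / 2 * t0) ^ 2 := by positivity
    linarith
  rw [← hr] at h
  have hp : 0 < π ^ 3 / 8 * JB w0 t0 := by
    have := JB_pos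
    positivity
  have k1 := mul_le_mul_of_nonneg_left hrl hp.le
  have hid := const_id
  refine le_trans ?_ h
  have e : π ^ 3 / 48 * (JC w0 t0 / 1 ^ 4 + 4 / (1 ^ 5 * (1 + 1 / 3)) *
      (2 * (Dt u v / ‖u - v‖ ^ 2) * JA w0 t0 - 2 * r * JB w0 t0 +
        (‖u‖ ^ 2 + ‖v‖ ^ 2) * JG w0 t0)) = π ^ 3 / 48 * JC w0 t0 +
      alS * (Dt u v / ‖u - v‖ ^ 2) - π ^ 3 / 8 * JB w0 t0 * r + gaS * (‖u‖ ^ 2 + ‖v‖ ^ 2) := by
    unfold alS gaS
    ring
  rw [e, hid]
  have e2 : π ^ 3 / 8 * JB w0 t0 * ((Dt u v + 3 / 4) * t0) = beS * (Dt u v + 3 / 4) := by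
    unfold beS; ring
  rw [e2] at k1
  linarith

/-- The sign condition for rational slopes. -/
theorem key0 (a b p d D x y z : ℝ) (h1 : 3 / 5 ≤ a) (h2 : 3 / 5 ≤ b) (ha1 : a ≤ 1) (hb1 : b ≤ 1)
    (hs : 2 * p ≤ a + b - a * b) (hd : d = a + b - 2 * p) (hD : D = a * b - p ^ 2) (hd0 : 0 < d)
    (hD0 : 0 ≤ D) (hx : 0.000000000010 ≤ x) (hy0 : 0 ≤ y) (hy : y ≤ 0.000000000002)
    (hz : 0.000000000008 ≤ z) :
    x * (D - 3 / 4 * d) - y * (D - 3 / 4) * d + z * (a + b - 2) * d ≤ 0 := by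
  have hX : 0 ≤ 1 - a := by linarith
  have hY : 0 ≤ 1 - b := by linarith
  have hXY : 0 ≤ (1 - a) * (1 - b) := mul_nonneg hX hY
  obtain ⟨r, hr⟩ : ∃ r, r = 1 / 2 - p := ⟨_, rfl⟩
  have hpr : p = 1 / 2 - r := by linarith
  have hr0 : (1 - a) * (1 - b) / 2 ≤ r := by rw [hr]; linarith
  rcases le_or_gt (-(1 / 2)) p with hc | hc
  · have t1 : D - 3 / 4 * d ≤ 0 := by
      rw [hD, hd, hpr]
      nlinarith [mul_nonneg hX (show (0 : ℝ) ≤ b - 3 / 5 by linarith),
        mul_nonneg hY (show (0 : ℝ) ≤ a - 3 / 5 by linarith), sq_nonneg r]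
    have t2 : -(2 - a - b) ≤ D - 3 / 4 := by
      rw [hD, hpr]
      nlinarith [mul_nonneg (show 0 ≤ r by linarith) (show (0 : ℝ) ≤ 1 - r by linarith)]
    have t3 : x * (D - 3 / 4 * d) ≤ 0 :=
      mul_nonpos_of_nonneg_of_nonpos (by linarith) t1
    have t4 : -(y * (D - 3 / 4)) + z * (a + b - 2) ≤ 0 := by
      have k1 := mul_le_mul_of_nonneg_left t2 hy0
      have k2 := mul_nonneg (show 0 ≤ z - y by linarith) (show 0 ≤ 2 - a - b by linarith)
      nlinarith
    have t5 := mul_nonpos_of_nonpos_of_nonneg t4 hd0.le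
    nlinarith
  · have t1 : D - 3 / 4 * d ≤ -(2 / 5 * d) := by
      rw [hD, hd]
      nlinarith [mul_nonneg hX (show (0 : ℝ) ≤ b by linarith), sq_nonneg (p + 1 / 2)]
    have t3 : x * (D - 3 / 4 * d) ≤ x * (-(2 / 5 * d)) :=
      mul_le_mul_of_nonneg_left t1 (by linarith)
    have t6 : x * (-(2 / 5 * d)) ≤ -(0.000000000004 * d) := by
      have := mul_nonneg (show 0 ≤ x - 0.000000000010 by linarith) hd0.le
      nlinarith
    have t7 : -(y * (D - 3 / 4)) ≤ 0.000000000002 := by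
      have := mul_nonneg hy0 hD0
      linarith
    have t8 : z * (a + b - 2) * d ≤ 0 :=
      mul_nonpos_of_nonpos_of_nonneg
        (mul_nonpos_of_nonneg_of_nonpos (by linarith) (by linarith)) hd0.le
    have t9 := mul_le_mul_of_nonneg_right t7 hd0.le
    linarith

/-- **(PV2)** at the contact reference, rational slopes, admissible pairs. -/
theorem pv0 (u v : E) (hu : ‖u‖ ≤ 1) (hv : ‖v‖ ≤ 1) (huv : u ≠ v) (h1 : 3 / 5 ≤ ‖u‖ ^ 2)
    (h2 : 3 / 5 ≤ ‖v‖ ^ 2)
    (hs : 2 * (inner ℝ u v : ℝ) ≤ ‖u‖ ^ 2 + ‖v‖ ^ 2 - ‖u‖ ^ 2 * ‖v‖ ^ 2) :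
    g11 * ‖u - v‖ ^ 2 + 0.017641502 * (Dt u v - 3 / 4 * ‖u - v‖ ^ 2) -
      0.00038783038 * (Dt u v - 3 / 4) * ‖u - v‖ ^ 2 +
      0.0000202894 * (‖u‖ ^ 2 + ‖v‖ ^ 2 - 2) * ‖u - v‖ ^ 2 ≤ v2 u v * ‖u - v‖ ^ 2 := by
  have hpos : 0 < ‖u - v‖ := norm_pos_iff.mpr (sub_ne_zero.mpr huv)
  have hreal := pv0_real u v hu hv huv
  obtain ⟨al1, al2⟩ := alS_bd
  obtain ⟨be1, be2⟩ := beS_bd
  obtain ⟨ga1, ga2⟩ := gaS_bd
  have hD := Dt_nonneg u v
  have ha1 : ‖u‖ ^ 2 ≤ 1 := by nlinarith [norm_nonneg u]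
  have hb1 : ‖v‖ ^ 2 ≤ 1 := by nlinarith [norm_nonneg v]
  have hd : ‖u - v‖ ^ 2 = ‖u‖ ^ 2 + ‖v‖ ^ 2 - 2 * inner ℝ u v := by
    rw [norm_sub_sq_real]; ring
  have hd0 : 0 < ‖u - v‖ ^ 2 := by positivity
  have hm := mul_le_mul_of_nonneg_right hreal hd0.le
  refine le_trans ?_ hm
  have key := key0 (‖u‖ ^ 2) (‖v‖ ^ 2) (inner ℝ u v) (‖u - v‖ ^ 2) (Dt u v)
    (0.017641502 - alS) (0.00038783038 - beS) (0.0000202894 - gaS) h1 h2 ha1 hb1 hs hd rfl hd0 hD
    (by linarith) (by linarith) (by linarith) (by linarith)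
  have e : (g11 + alS * (Dt u v / ‖u - v‖ ^ 2 - 3 / 4) - beS * (Dt u v - 3 / 4) +
      gaS * (‖u‖ ^ 2 + ‖v‖ ^ 2 - 2)) * ‖u - v‖ ^ 2 =
      g11 * ‖u - v‖ ^ 2 + alS * (Dt u v - 3 / 4 * ‖u - v‖ ^ 2) -
      beS * (Dt u v - 3 / 4) * ‖u - v‖ ^ 2 + gaS * (‖u‖ ^ 2 + ‖v‖ ^ 2 - 2) * ‖u - v‖ ^ 2 := by
    field_simp
  rw [e]
  linarith

end Pool.Agent.Lib.MP_f1379f_gt.FV.PW
end

section
/-!
# PWE: the three lower bounds in the form used by the certificate

`d2 = |u-v|^2`, `D = Dt u v`; `chat = 801889/10^7`, `Ghat = 5833/10^7`.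
-/
set_option autoImplicit false

namespace Pool.Agent.Lib.MP_f1379f_gt.FV.PW

open MeasureTheory Real PV TV

theorem chat_bd : 0 ≤ 801889 / 10 ^ 7 - c1 ∧ 801889 / 10 ^ 7 - c1 ≤ 2 / 10 ^ 8 := by
  obtain ⟨h1, h2⟩ := c1_bounds
  constructor <;> linarith

theorem Ghat_bd : 0 ≤ GG - 5833 / 10 ^ 7 ∧ GG - 5833 / 10 ^ 7 ≤ 2 / 10 ^ 8 := by
  obtain ⟨h1, h2⟩ := GG_bounds
  constructor <;> linarith

/-- Kind 0: contact reference. -/
theorem kind0 (u v : E) (hu : ‖u‖ ≤ 1) (hv : ‖v‖ ≤ 1) (huv : u ≠ v) (h1 : 3 / 5 ≤ ‖u‖ ^ 2)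
    (h2 : 3 / 5 ≤ ‖v‖ ^ 2)
    (hs : 2 * (inner ℝ u v : ℝ) ≤ ‖u‖ ^ 2 + ‖v‖ ^ 2 - ‖u‖ ^ 2 * ‖v‖ ^ 2) :
    (5833 / 10 ^ 7 + (GG - 5833 / 10 ^ 7)) * ‖u - v‖ ^ 2
      + 0.017641502 * (Dt u v - 3 / 4 * ‖u - v‖ ^ 2)
      - 0.00038783038 * (Dt u v - 3 / 4) * ‖u - v‖ ^ 2
      + 0.0000202894 * (‖u‖ ^ 2 + ‖v‖ ^ 2 - 2) * ‖u - v‖ ^ 2 ≤
        (v2 u v - 9 * s3) * ‖u - v‖ ^ 2 := by
  have h := pv0 u v hu hv huv h1 h2 hs
  unfold GG
  linarith

/-- Kind 1: reference `(19/25, 14/25)`. -/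
theorem kind1 (u v : E) (hu : ‖u‖ ≤ 1) (hv : ‖v‖ ≤ 1) (huv : u ≠ v) :
    (-0.00638894427 + (GG - 5833 / 10 ^ 7) + 0.00000768408 * (‖u‖ ^ 2 + ‖v‖ ^ 2)) * ‖u - v‖ ^ 2
      + 0.00931943861 * Dt u v - 0.00018543604 * Dt u v * ‖u - v‖ ^ 2 ≤
        (v2 u v - 9 * s3) * ‖u - v‖ ^ 2 := by
  have h := pv1 u v hu hv huv
  have h2 := GG_bounds.2
  have h3 := s3_bounds.2
  have h4 := mul_le_mul_of_nonneg_right (show -0.00638894427 + (GG - 5833 / 10 ^ 7) ≤
    -0.00635353185 - 9 * s3 by linarith) (show 0 ≤ ‖u - v‖ ^ 2 by positivity)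
  linarith

/-- Kind 2: reference `(7/10, 27/50)`. -/
theorem kind2 (u v : E) (hu : ‖u‖ ≤ 1) (hv : ‖v‖ ≤ 1) (huv : u ≠ v) :
    (-0.00272341488 + (GG - 5833 / 10 ^ 7) + 0.00000219791 * (‖u‖ ^ 2 + ‖v‖ ^ 2)) * ‖u - v‖ ^ 2
      + 0.00405404644 * Dt u v - 0.00007033944 * Dt u v * ‖u - v‖ ^ 2 ≤
        (v2 u v - 9 * s3) * ‖u - v‖ ^ 2 := by
  have h := pv2 u v hu hv huv
  have h2 := GG_bounds.2
  have h3 := s3_bounds.2
  have h4 := mul_le_mul_of_nonneg_right (show -0.00272341488 + (GG - 5833 / 10 ^ 7) ≤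
    -0.00268800246 - 9 * s3 by linarith) (show 0 ≤ ‖u - v‖ ^ 2 by positivity)
  linarith

/-- `T0^ = vol bal - 240 chat + 6720 Ghat ≥ 16 - 0.0084`. -/
theorem That_ge : 15.9916 < (volume bal).toReal - 240 * (801889 / 10 ^ 7) +
    6720 * (5833 / 10 ^ 7) := by
  obtain ⟨c1, c2⟩ := vol_bal_bounds
  linarith

end Pool.Agent.Lib.MP_f1379f_gt.FV.PW
end

section
/-!
# PWG: (PV2) for the four rational references of the certificate
-/
set_option autoImplicit false
set_option linter.style.longLine false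

namespace Pool.Agent.Lib.MP_f1379f_gt.FV.PW

open MeasureTheory Real PV TV

theorem at_r1 : (38898706994257 / 250000000000000) < arctan (4 / 5) - arctan (4 / 7) := by
  have e : arctan (4 / 5) = arctan (4 / 7) + arctan (8 / 51) := by
    rw [arctan_add (by norm_num)]
    norm_num
  have h := arctan_ge (x := (8 / 51)) (by norm_num)
  have h2 : ((38898706994257 / 250000000000000) : ℝ) < (8 / 51) - (8 / 51) ^ 3 / 3 + (8 / 51) ^ 5 / 5 - (8 / 51) ^ 7 / 7 +
      (8 / 51) ^ 9 / 9 - (8 / 51) ^ 11 / 11 + (8 / 51) ^ 13 / 13 - (8 / 51) ^ 15 / 15 := by norm_num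
  linarith

theorem JA_r1 : JA (4 / 5) (4 / 7) = (206423398547456 / 57929494423828125) := by
  unfold JA L0 L1 L2; norm_num

theorem JB_r1 : JB (4 / 5) (4 / 7) = (3231256150016 / 24826926181640625) := by
  unfold JB L0 L1 L2; norm_num

theorem JG_r1 : JG (4 / 5) (4 / 7) = (187619606528 / 24826926181640625) := by
  unfold JG L0 L1 L2; norm_num

theorem SS_r1 : SS (4 / 5) = (123 / 125) := by
  unfold SS; norm_num

theorem JC_r1 : (-(12540726774014623887567469 / 844453271484375000000000000)) < JC (4 / 5) (4 / 7) := by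
  have h := at_r1
  have e : JC (4 / 5) (4 / 7) = 2 * (1 + (4 / 5) ^ 2) ^ 4 * (arctan (4 / 5) - arctan (4 / 7)) +
      ((-(15308117471504 / 6755626171875))) := by
    unfold JC G0 L0
    ring
  rw [e]
  have h2 := mul_lt_mul_of_pos_left h (show (0 : ℝ) < 2 * (1 + (4 / 5) ^ 2) ^ 4 by norm_num)
  refine lt_of_le_of_lt ?_ (add_lt_add_left h2 _)
  norm_num

/-- **(PV2)**, reference r1. -/
theorem pv_r1 (u v : E) (hu : ‖u‖ ≤ 1) (hv : ‖v‖ ≤ 1) (huv : u ≠ v) :
    ((-0.01046530923) + 0.00001595625 * (‖u‖ ^ 2 + ‖v‖ ^ 2)) * ‖u - v‖ ^ 2 + 0.01504751499 * Dt u v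
      - 0.00032415616 * Dt u v * ‖u - v‖ ^ 2 ≤ v2 u v * ‖u - v‖ ^ 2 := by
  obtain ⟨p1, p2⟩ := pi3_bounds
  have hC := JC_r1
  apply pv2_rat (4 / 5) (4 / 7) (6888 / 8125) (-0.01046530923) 0.01504751499 0.00032415616 0.00001595625 (by norm_num) (by norm_num)
    (by norm_num) (by norm_num) (by rw [JB_r1]; norm_num) _ _ _ _ u v hu hv huv
  · rw [JB_r1, SS_r1]
    have h3 : (-(12540726774014623887567469 / 844453271484375000000000000)) / (123 / 125) ^ 4 < JC (4 / 5) (4 / 7) / (123 / 125) ^ 4 :=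
      div_lt_div_of_pos_right hC (by norm_num)
    have h4 : π ^ 3 * ((-(6502908749946131110996706783 / 19266605856581316105600000000000))) ≤ π ^ 3 / 48 * (JC (4 / 5) (4 / 7) / (123 / 125) ^ 4 -
        4 / ((123 / 125) ^ 5 * (1 + (4 / 7) ^ 2)) * (3231256150016 / 24826926181640625) * (6888 / 8125)) := by
      have h5 : ((-(6502908749946131110996706783 / 19266605856581316105600000000000)) : ℝ) = 1 / 48 * ((-(12540726774014623887567469 / 844453271484375000000000000)) / (123 / 125) ^ 4 -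
        4 / ((123 / 125) ^ 5 * (1 + (4 / 7) ^ 2)) * (3231256150016 / 24826926181640625) * (6888 / 8125)) := by norm_num
      rw [h5]
      have hp : 0 < π ^ 3 := by positivity
      have h6 := mul_lt_mul_of_pos_left h3 hp
      linarith
    refine le_trans ?_ h4
    have h7 := mul_lt_mul_of_neg_right p2 (show ((-(6502908749946131110996706783 / 19266605856581316105600000000000)) : ℝ) < 0 by norm_num)
    refine le_trans ?_ h7.le
    norm_num
  · rw [JA_r1, SS_r1]
    have h7 := mul_lt_mul_of_pos_right p1 (show (0 : ℝ) < 1 / 48 *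
      (4 / ((123 / 125) ^ 5 * (1 + (4 / 7) ^ 2)) * 2 * (206423398547456 / 57929494423828125)) by norm_num)
    refine le_trans (le_trans ?_ h7.le) (le_of_eq (by ring))
    norm_num
  · rw [JB_r1, SS_r1]
    have h7 := mul_lt_mul_of_pos_right p2 (show (0 : ℝ) < 1 / 48 *
      (4 / ((123 / 125) ^ 5 * (1 + (4 / 7) ^ 2)) * (3231256150016 / 24826926181640625) / (6888 / 8125)) by norm_num)
    refine le_trans (le_of_eq (by ring)) (le_trans h7.le ?_)
    norm_num
  · rw [JG_r1, SS_r1]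
    have h7 := mul_lt_mul_of_pos_right p1 (show (0 : ℝ) < 1 / 48 *
      (4 / ((123 / 125) ^ 5 * (1 + (4 / 7) ^ 2)) * (187619606528 / 24826926181640625)) by norm_num)
    refine le_trans (le_trans ?_ h7.le) (le_of_eq (by ring))
    norm_num

/-- Kind r1 in certificate form. -/
theorem kind_r1 (u v : E) (hu : ‖u‖ ≤ 1) (hv : ‖v‖ ≤ 1) (huv : u ≠ v) :
    (-0.01050072165 + (GG - 5833 / 10 ^ 7) + 0.00001595625 * (‖u‖ ^ 2 + ‖v‖ ^ 2)) * ‖u - v‖ ^ 2
      + 0.01504751499 * Dt u v - 0.00032415616 * Dt u v * ‖u - v‖ ^ 2 ≤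
        (v2 u v - 9 * s3) * ‖u - v‖ ^ 2 := by
  have h := pv_r1 u v hu hv huv
  have h2 := GG_bounds.2
  have h3 := s3_bounds.2
  have h4 := mul_le_mul_of_nonneg_right (show -0.01050072165 + (GG - 5833 / 10 ^ 7) ≤
    (-0.01046530923) - 9 * s3 by linarith) (show 0 ≤ ‖u - v‖ ^ 2 by positivity)
  linarith

theorem at_r2 : (37509208380603 / 250000000000000) < arctan (39 / 50) - arctan (9 / 16) := by
  have e : arctan (39 / 50) = arctan (9 / 16) + arctan (174 / 1151) := by
    rw [arctan_add (by norm_num)]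
    norm_num
  have h := arctan_ge (x := (174 / 1151)) (by norm_num)
  have h2 : ((37509208380603 / 250000000000000) : ℝ) < (174 / 1151) - (174 / 1151) ^ 3 / 3 + (174 / 1151) ^ 5 / 5 - (174 / 1151) ^ 7 / 7 +
      (174 / 1151) ^ 9 / 9 - (174 / 1151) ^ 11 / 11 + (174 / 1151) ^ 13 / 13 - (174 / 1151) ^ 15 / 15 := by norm_num
  linarith

theorem JA_r2 : JA (39 / 50) (9 / 16) = (36040753982487438580437 / 13421772800000000000000000) := by
  unfold JA L0 L1 L2; norm_num

theorem JB_r2 : JB (39 / 50) (9 / 16) = (15756320820351238678683 / 167772160000000000000000000) := by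
  unfold JB L0 L1 L2; norm_num

theorem JG_r2 : JG (39 / 50) (9 / 16) = (192040214728476846717 / 36700160000000000000000000) := by
  unfold JG L0 L1 L2; norm_num

theorem SS_r2 : SS (39 / 50) = (12063 / 12500) := by
  unfold SS; norm_num

theorem JC_r2 : (-(49972186309028879190572447097 / 4375000000000000000000000000000)) < JC (39 / 50) (9 / 16) := by
  have h := at_r2
  have e : JC (39 / 50) (9 / 16) = 2 * (1 + (39 / 50) ^ 2) ^ 4 * (arctan (39 / 50) - arctan (9 / 16)) +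
      ((-(57906234320514292281 / 28672000000000000000))) := by
    unfold JC G0 L0
    ring
  rw [e]
  have h2 := mul_lt_mul_of_pos_left h (show (0 : ℝ) < 2 * (1 + (39 / 50) ^ 2) ^ 4 by norm_num)
  refine lt_of_le_of_lt ?_ (add_lt_add_left h2 _)
  norm_num

/-- **(PV2)**, reference r2. -/
theorem pv_r2 (u v : E) (hu : ‖u‖ ≤ 1) (hv : ‖v‖ ≤ 1) (huv : u ≠ v) :
    ((-0.00868865221) + 0.00001227089 * (‖u‖ ^ 2 + ‖v‖ ^ 2)) * ‖u - v‖ ^ 2 + 0.01259406246 * Dt u v
      - 0.00026704158 * Dt u v * ‖u - v‖ ^ 2 ≤ v2 u v * ‖u - v‖ ^ 2 := by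
  obtain ⟨p1, p2⟩ := pi3_bounds
  have hC := JC_r2
  apply pv2_rat (39 / 50) (9 / 16) (868536 / 1053125) (-0.00868865221) 0.01259406246 0.00026704158 0.00001227089 (by norm_num) (by norm_num)
    (by norm_num) (by norm_num) (by rw [JB_r2]; norm_num) _ _ _ _ u v hu hv huv
  · rw [JB_r2, SS_r2]
    have h3 : (-(49972186309028879190572447097 / 4375000000000000000000000000000)) / (12063 / 12500) ^ 4 < JC (39 / 50) (9 / 16) / (12063 / 12500) ^ 4 :=
      div_lt_div_of_pos_right hC (by norm_num)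
    have h4 : π ^ 3 * ((-(3864309402888469533937376173973837 / 13790153382120772274309529600000000000))) ≤ π ^ 3 / 48 * (JC (39 / 50) (9 / 16) / (12063 / 12500) ^ 4 -
        4 / ((12063 / 12500) ^ 5 * (1 + (9 / 16) ^ 2)) * (15756320820351238678683 / 167772160000000000000000000) * (868536 / 1053125)) := by
      have h5 : ((-(3864309402888469533937376173973837 / 13790153382120772274309529600000000000)) : ℝ) = 1 / 48 * ((-(49972186309028879190572447097 / 4375000000000000000000000000000)) / (12063 / 12500) ^ 4 -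
        4 / ((12063 / 12500) ^ 5 * (1 + (9 / 16) ^ 2)) * (15756320820351238678683 / 167772160000000000000000000) * (868536 / 1053125)) := by norm_num
      rw [h5]
      have hp : 0 < π ^ 3 := by positivity
      have h6 := mul_lt_mul_of_pos_left h3 hp
      linarith
    refine le_trans ?_ h4
    have h7 := mul_lt_mul_of_neg_right p2 (show ((-(3864309402888469533937376173973837 / 13790153382120772274309529600000000000)) : ℝ) < 0 by norm_num)
    refine le_trans ?_ h7.le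
    norm_num
  · rw [JA_r2, SS_r2]
    have h7 := mul_lt_mul_of_pos_right p1 (show (0 : ℝ) < 1 / 48 *
      (4 / ((12063 / 12500) ^ 5 * (1 + (9 / 16) ^ 2)) * 2 * (36040753982487438580437 / 13421772800000000000000000)) by norm_num)
    refine le_trans (le_trans ?_ h7.le) (le_of_eq (by ring))
    norm_num
  · rw [JB_r2, SS_r2]
    have h7 := mul_lt_mul_of_pos_right p2 (show (0 : ℝ) < 1 / 48 *
      (4 / ((12063 / 12500) ^ 5 * (1 + (9 / 16) ^ 2)) * (15756320820351238678683 / 167772160000000000000000000) / (868536 / 1053125)) by norm_num)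
    refine le_trans (le_of_eq (by ring)) (le_trans h7.le ?_)
    norm_num
  · rw [JG_r2, SS_r2]
    have h7 := mul_lt_mul_of_pos_right p1 (show (0 : ℝ) < 1 / 48 *
      (4 / ((12063 / 12500) ^ 5 * (1 + (9 / 16) ^ 2)) * (192040214728476846717 / 36700160000000000000000000)) by norm_num)
    refine le_trans (le_trans ?_ h7.le) (le_of_eq (by ring))
    norm_num

/-- Kind r2 in certificate form. -/
theorem kind_r2 (u v : E) (hu : ‖u‖ ≤ 1) (hv : ‖v‖ ≤ 1) (huv : u ≠ v) :
    (-0.00872406463 + (GG - 5833 / 10 ^ 7) + 0.00001227089 * (‖u‖ ^ 2 + ‖v‖ ^ 2)) * ‖u - v‖ ^ 2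
      + 0.01259406246 * Dt u v - 0.00026704158 * Dt u v * ‖u - v‖ ^ 2 ≤
        (v2 u v - 9 * s3) * ‖u - v‖ ^ 2 := by
  have h := pv_r2 u v hu hv huv
  have h2 := GG_bounds.2
  have h3 := s3_bounds.2
  have h4 := mul_le_mul_of_nonneg_right (show -0.00872406463 + (GG - 5833 / 10 ^ 7) ≤
    (-0.00868865221) - 9 * s3 by linarith) (show 0 ≤ ‖u - v‖ ^ 2 by positivity)
  linarith

theorem at_r3 : (136402604400947 / 1000000000000000) < arctan (3 / 4) - arctan (5 / 9) := by
  have e : arctan (3 / 4) = arctan (5 / 9) + arctan (7 / 51) := by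
    rw [arctan_add (by norm_num)]
    norm_num
  have h := arctan_ge (x := (7 / 51)) (by norm_num)
  have h2 : ((136402604400947 / 1000000000000000) : ℝ) < (7 / 51) - (7 / 51) ^ 3 / 3 + (7 / 51) ^ 5 / 5 - (7 / 51) ^ 7 / 7 +
      (7 / 51) ^ 9 / 9 - (7 / 51) ^ 11 / 11 + (7 / 51) ^ 13 / 13 - (7 / 51) ^ 15 / 15 := by norm_num
  linarith

theorem JA_r3 : JA (3 / 4) (5 / 9) = (57016843256989 / 37018604205637632) := by
  unfold JA L0 L1 L2; norm_num

theorem JB_r3 : JB (3 / 4) (5 / 9) = (99204141043 / 2056589122535424) := by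
  unfold JB L0 L1 L2; norm_num

theorem JG_r3 : JG (3 / 4) (5 / 9) = (11049476431 / 4570198050078720) := by
  unfold JG L0 L1 L2; norm_num

theorem SS_r3 : SS (3 / 4) = (15 / 16) := by
  unfold SS; norm_num

theorem JC_r3 : (-(2685998180766928357 / 401224520171520000000)) < JC (3 / 4) (5 / 9) := by
  have h := at_r3
  have e : JC (3 / 4) (5 / 9) = 2 * (1 + (3 / 4) ^ 2) ^ 4 * (arctan (3 / 4) - arctan (5 / 9)) +
      ((-(63974162749 / 39182082048))) := by
    unfold JC G0 L0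
    ring
  rw [e]
  have h2 := mul_lt_mul_of_pos_left h (show (0 : ℝ) < 2 * (1 + (3 / 4) ^ 2) ^ 4 by norm_num)
  refine lt_of_le_of_lt ?_ (add_lt_add_left h2 _)
  norm_num

/-- **(PV2)**, reference r3. -/
theorem pv_r3 (u v : E) (hu : ‖u‖ ≤ 1) (hv : ‖v‖ ≤ 1) (huv : u ≠ v) :
    ((-0.00570279548) + 0.00000659170 * (‖u‖ ^ 2 + ‖v‖ ^ 2)) * ‖u - v‖ ^ 2 + 0.00839854915 * Dt u v
      - 0.00016522110 * Dt u v * ‖u - v‖ ^ 2 ≤ v2 u v * ‖u - v‖ ^ 2 := by
  obtain ⟨p1, p2⟩ := pi3_bounds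
  have hC := JC_r3
  apply pv2_rat (3 / 4) (5 / 9) (675 / 848) (-0.00570279548) 0.00839854915 0.00016522110 0.00000659170 (by norm_num) (by norm_num)
    (by norm_num) (by norm_num) (by rw [JB_r3]; norm_num) _ _ _ _ u v hu hv huv
  · rw [JB_r3, SS_r3]
    have h3 : (-(2685998180766928357 / 401224520171520000000)) / (15 / 16) ^ 4 < JC (3 / 4) (5 / 9) / (15 / 16) ^ 4 :=
      div_lt_div_of_pos_right hC (by norm_num)
    have h4 : π ^ 3 * ((-(69174533013319115793317 / 376104091484505600000000000))) ≤ π ^ 3 / 48 * (JC (3 / 4) (5 / 9) / (15 / 16) ^ 4 -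
        4 / ((15 / 16) ^ 5 * (1 + (5 / 9) ^ 2)) * (99204141043 / 2056589122535424) * (675 / 848)) := by
      have h5 : ((-(69174533013319115793317 / 376104091484505600000000000)) : ℝ) = 1 / 48 * ((-(2685998180766928357 / 401224520171520000000)) / (15 / 16) ^ 4 -
        4 / ((15 / 16) ^ 5 * (1 + (5 / 9) ^ 2)) * (99204141043 / 2056589122535424) * (675 / 848)) := by norm_num
      rw [h5]
      have hp : 0 < π ^ 3 := by positivity
      have h6 := mul_lt_mul_of_pos_left h3 hp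
      linarith
    refine le_trans ?_ h4
    have h7 := mul_lt_mul_of_neg_right p2 (show ((-(69174533013319115793317 / 376104091484505600000000000)) : ℝ) < 0 by norm_num)
    refine le_trans ?_ h7.le
    norm_num
  · rw [JA_r3, SS_r3]
    have h7 := mul_lt_mul_of_pos_right p1 (show (0 : ℝ) < 1 / 48 *
      (4 / ((15 / 16) ^ 5 * (1 + (5 / 9) ^ 2)) * 2 * (57016843256989 / 37018604205637632)) by norm_num)
    refine le_trans (le_trans ?_ h7.le) (le_of_eq (by ring))
    norm_num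
  · rw [JB_r3, SS_r3]
    have h7 := mul_lt_mul_of_pos_right p2 (show (0 : ℝ) < 1 / 48 *
      (4 / ((15 / 16) ^ 5 * (1 + (5 / 9) ^ 2)) * (99204141043 / 2056589122535424) / (675 / 848)) by norm_num)
    refine le_trans (le_of_eq (by ring)) (le_trans h7.le ?_)
    norm_num
  · rw [JG_r3, SS_r3]
    have h7 := mul_lt_mul_of_pos_right p1 (show (0 : ℝ) < 1 / 48 *
      (4 / ((15 / 16) ^ 5 * (1 + (5 / 9) ^ 2)) * (11049476431 / 4570198050078720)) by norm_num)
    refine le_trans (le_trans ?_ h7.le) (le_of_eq (by ring))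
    norm_num

/-- Kind r3 in certificate form. -/
theorem kind_r3 (u v : E) (hu : ‖u‖ ≤ 1) (hv : ‖v‖ ≤ 1) (huv : u ≠ v) :
    (-0.00573820790 + (GG - 5833 / 10 ^ 7) + 0.00000659170 * (‖u‖ ^ 2 + ‖v‖ ^ 2)) * ‖u - v‖ ^ 2
      + 0.00839854915 * Dt u v - 0.00016522110 * Dt u v * ‖u - v‖ ^ 2 ≤
        (v2 u v - 9 * s3) * ‖u - v‖ ^ 2 := by
  have h := pv_r3 u v hu hv huv
  have h2 := GG_bounds.2
  have h3 := s3_bounds.2
  have h4 := mul_le_mul_of_nonneg_right (show -0.00573820790 + (GG - 5833 / 10 ^ 7) ≤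
    (-0.00570279548) - 9 * s3 by linarith) (show 0 ≤ ‖u - v‖ ^ 2 by positivity)
  linarith

theorem at_r4 : (116784595469627 / 1000000000000000) < arctan (7 / 10) - arctan (7 / 13) := by
  have e : arctan (7 / 10) = arctan (7 / 13) + arctan (21 / 179) := by
    rw [arctan_add (by norm_num)]
    norm_num
  have h := arctan_ge (x := (21 / 179)) (by norm_num)
  have h2 : ((116784595469627 / 1000000000000000) : ℝ) < (21 / 179) - (21 / 179) ^ 3 / 3 + (21 / 179) ^ 5 / 5 - (21 / 179) ^ 7 / 7 +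
      (21 / 179) ^ 9 / 9 - (21 / 179) ^ 11 / 11 + (21 / 179) ^ 13 / 13 - (21 / 179) ^ 15 / 15 := by norm_num
  linarith

theorem JA_r4 : JA (7 / 10) (7 / 13) = (1071850448662125867 / 1792160394037000000000) := by
  unfold JA L0 L1 L2; norm_num

theorem JB_r4 : JB (7 / 10) (7 / 13) = (5407997082597207 / 344646229622500000000) := by
  unfold JB L0 L1 L2; norm_num

theorem JG_r4 : JG (7 / 10) (7 / 13) = (70326704018529 / 106044993730000000000) := by
  unfold JG L0 L1 L2; norm_num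

theorem SS_r4 : SS (7 / 10) = (447 / 500) := by
  unfold SS; norm_num

theorem JC_r4 : (-(8511225932776878687489387241 / 3137425850000000000000000000000)) < JC (7 / 10) (7 / 13) := by
  have h := at_r4
  have e : JC (7 / 10) (7 / 13) = 2 * (1 + (7 / 10) ^ 2) ^ 4 * (arctan (7 / 10) - arctan (7 / 13)) +
      ((-(1810198887683781 / 1568712925000000))) := by
    unfold JC G0 L0
    ring
  rw [e]
  have h2 := mul_lt_mul_of_pos_left h (show (0 : ℝ) < 2 * (1 + (7 / 10) ^ 2) ^ 4 by norm_num)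
  refine lt_of_le_of_lt ?_ (add_lt_add_left h2 _)
  norm_num

/-- **(PV2)**, reference r4. -/
theorem pv_r4 (u v : E) (hu : ‖u‖ ≤ 1) (hv : ‖v‖ ≤ 1) (huv : u ≠ v) :
    ((-0.00278440268) + 0.00000232616 * (‖u‖ ^ 2 + ‖v‖ ^ 2)) * ‖u - v‖ ^ 2 + 0.00419564083 * Dt u v
      - 0.00007374312 * Dt u v * ‖u - v‖ ^ 2 ≤ v2 u v * ‖u - v‖ ^ 2 := by
  obtain ⟨p1, p2⟩ := pi3_bounds
  have hC := JC_r4
  apply pv2_rat (7 / 10) (7 / 13) (40677 / 54500) (-0.00278440268) 0.00419564083 0.00007374312 0.00000232616 (by norm_num) (by norm_num)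
    (by norm_num) (by norm_num) (by rw [JB_r4]; norm_num) _ _ _ _ u v hu hv huv
  · rw [JB_r4, SS_r4]
    have h3 : (-(8511225932776878687489387241 / 3137425850000000000000000000000)) / (447 / 500) ^ 4 < JC (7 / 10) (7 / 13) / (447 / 500) ^ 4 :=
      div_lt_div_of_pos_right hC (by norm_num)
    have h4 : π ^ 3 * ((-(102636114490449313646061409810321 / 1142925122313562833847180800000000000))) ≤ π ^ 3 / 48 * (JC (7 / 10) (7 / 13) / (447 / 500) ^ 4 -
        4 / ((447 / 500) ^ 5 * (1 + (7 / 13) ^ 2)) * (5407997082597207 / 344646229622500000000) * (40677 / 54500)) := by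
      have h5 : ((-(102636114490449313646061409810321 / 1142925122313562833847180800000000000)) : ℝ) = 1 / 48 * ((-(8511225932776878687489387241 / 3137425850000000000000000000000)) / (447 / 500) ^ 4 -
        4 / ((447 / 500) ^ 5 * (1 + (7 / 13) ^ 2)) * (5407997082597207 / 344646229622500000000) * (40677 / 54500)) := by norm_num
      rw [h5]
      have hp : 0 < π ^ 3 := by positivity
      have h6 := mul_lt_mul_of_pos_left h3 hp
      linarith
    refine le_trans ?_ h4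
    have h7 := mul_lt_mul_of_neg_right p2 (show ((-(102636114490449313646061409810321 / 1142925122313562833847180800000000000)) : ℝ) < 0 by norm_num)
    refine le_trans ?_ h7.le
    norm_num
  · rw [JA_r4, SS_r4]
    have h7 := mul_lt_mul_of_pos_right p1 (show (0 : ℝ) < 1 / 48 *
      (4 / ((447 / 500) ^ 5 * (1 + (7 / 13) ^ 2)) * 2 * (1071850448662125867 / 1792160394037000000000)) by norm_num)
    refine le_trans (le_trans ?_ h7.le) (le_of_eq (by ring))
    norm_num
  · rw [JB_r4, SS_r4]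
    have h7 := mul_lt_mul_of_pos_right p2 (show (0 : ℝ) < 1 / 48 *
      (4 / ((447 / 500) ^ 5 * (1 + (7 / 13) ^ 2)) * (5407997082597207 / 344646229622500000000) / (40677 / 54500)) by norm_num)
    refine le_trans (le_of_eq (by ring)) (le_trans h7.le ?_)
    norm_num
  · rw [JG_r4, SS_r4]
    have h7 := mul_lt_mul_of_pos_right p1 (show (0 : ℝ) < 1 / 48 *
      (4 / ((447 / 500) ^ 5 * (1 + (7 / 13) ^ 2)) * (70326704018529 / 106044993730000000000)) by norm_num)
    refine le_trans (le_trans ?_ h7.le) (le_of_eq (by ring))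
    norm_num

/-- Kind r4 in certificate form. -/
theorem kind_r4 (u v : E) (hu : ‖u‖ ≤ 1) (hv : ‖v‖ ≤ 1) (huv : u ≠ v) :
    (-0.00281981510 + (GG - 5833 / 10 ^ 7) + 0.00000232616 * (‖u‖ ^ 2 + ‖v‖ ^ 2)) * ‖u - v‖ ^ 2
      + 0.00419564083 * Dt u v - 0.00007374312 * Dt u v * ‖u - v‖ ^ 2 ≤
        (v2 u v - 9 * s3) * ‖u - v‖ ^ 2 := by
  have h := pv_r4 u v hu hv huv
  have h2 := GG_bounds.2
  have h3 := s3_bounds.2
  have h4 := mul_le_mul_of_nonneg_right (show -0.00281981510 + (GG - 5833 / 10 ^ 7) ≤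
    (-0.00278440268) - 9 * s3 by linarith) (show 0 ≤ ‖u - v‖ ^ 2 by positivity)
  linarith

end Pool.Agent.Lib.MP_f1379f_gt.FV.PW
end

section
/-!
# OVA: polynomial majorant of the cap volume: polynomial inequalities
-/
set_option autoImplicit false
set_option linter.style.longLine false

namespace Pool.Agent.Lib.MP_f1379f_gt.FV.PW

open Real

/-- Majorant of `v1 / r^3` as a polynomial in `x = 1 - r`. -/
noncomputable def VV (x : ℝ) : ℝ :=
  (801889 / 10000000) + (119707 / 10000000) * x + (-(170063 / 5000000)) * x ^ 2 + (-(79121 / 5000000)) * x ^ 3 + (-(134799 / 500000)) * x ^ 4 + (12686271 / 10000000) * x ^ 5 + (-(3606929 / 1000000)) * x ^ 6 + (27672357 / 5000000) * x ^ 7 + (-(4372693 / 1000000)) * x ^ 8 + (7019677 / 5000000) * x ^ 9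

/-- Minorant of the density. -/
noncomputable def ellp (s : ℝ) : ℝ :=
  (-(8396569 / 1000000000)) + (489197297 / 1000000000) * s + (-(291506267 / 62500000)) * s ^ 2 + (4056555801 / 200000000) * s ^ 3 + (-(12230363543 / 250000000)) * s ^ 4 + (17043698303 / 250000000) * s ^ 5 + (-(52254152449 / 1000000000)) * s ^ 6 + (5178025841 / 250000000) * s ^ 7 + (-(3353554083 / 1000000000)) * s ^ 8

/-- Its primitive. -/
noncomputable def Lamp (s : ℝ) : ℝ :=
  (-(8396569 / 1000000000)) * s + (489197297 / 2000000000) * s ^ 2 + (-(291506267 / 187500000)) * s ^ 3 + (4056555801 / 800000000) * s ^ 4 + (-(12230363543 / 1250000000)) * s ^ 5 + (17043698303 / 1500000000) * s ^ 6 + (-(52254152449 / 7000000000)) * s ^ 7 + (5178025841 / 2000000000) * s ^ 8 + (-(1117851361 / 3000000000)) * s ^ 9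

/-- Majorant of `(3+2y)^(-5)`. -/
noncomputable def Up (y : ℝ) : ℝ :=
  (205889 / 50000000) + (-(2736233 / 200000000)) * y + (6597459 / 250000000) * y ^ 2 + (-(1050161 / 31250000)) * y ^ 3 + (10721077 / 500000000) * y ^ 4

/-- Its weighted primitive. -/
noncomputable def Yp (y : ℝ) : ℝ :=
  (205889 / 450000000) + (-(2736233 / 2200000000)) * y + (6597459 / 3250000000) * y ^ 2 + (-(1050161 / 468750000)) * y ^ 3 + (10721077 / 8500000000) * y ^ 4

/-- Quotient polynomial. -/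
noncomputable def QA (s : ℝ) : ℝ :=
  (713756357 / 420000000000) + (4240315337 / 420000000000) * s + (-(98491117033 / 420000000000)) * s ^ 2 + (184827640349 / 140000000000) * s ^ 3 + (-(262534812413 / 70000000000)) * s ^ 4 + (84473109199 / 14000000000) * s ^ 5 + (-(223798483487 / 42000000000)) * s ^ 6 + (12818061601 / 6000000000) * s ^ 7 + (-(1102458361 / 3000000000)) * s ^ 8 + (5131 / 1000000) * s ^ 9 + (3046409 / 2500000) * s ^ 10 + (3046409 / 2500000) * s ^ 11 + (-(25005879 / 5000000)) * s ^ 12 + (-(25005879 / 5000000)) * s ^ 13 + (114822761 / 10000000) * s ^ 14 + (114822761 / 10000000) * s ^ 15 + (-(20492161 / 1250000)) * s ^ 16 + (-(20492161 / 1250000)) * s ^ 17 + (35589529 / 2500000) * s ^ 18 + (35589529 / 2500000) * s ^ 19 + (-(34293951 / 5000000)) * s ^ 20 + (-(34293951 / 5000000)) * s ^ 21 + (7019677 / 5000000) * s ^ 22 + (7019677 / 5000000) * s ^ 23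

theorem QA_eq (s : ℝ) : s ^ 6 * VV (1 - s ^ 2) - (801889 / 10000000) + Lamp 1 - Lamp s = (1 - s) * QA s := by
  unfold VV Lamp QA
  ring


theorem QA0 (s : ℝ) (h0 : (3 / 5) ≤ s) (h1 : s ≤ (4 / 5)) : 0 ≤ QA s := by
  obtain ⟨x, hx⟩ : ∃ x, x = s - (3 / 5) := ⟨_, rfl⟩
  obtain ⟨y, hy⟩ : ∃ y, y = (4 / 5) - s := ⟨_, rfl⟩
  have hx0 : 0 ≤ x := by rw [hx]; linarith
  have hy0 : 0 ≤ y := by rw [hy]; linarith
  have e : QA s = (65653537069347814817 / 840000000) * y ^ 23
      + (1460508698295924318623 / 840000000) * x ^ 1 * y ^ 22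
      + (4362690666356211889249 / 240000000) * x ^ 2 * y ^ 21
      + (398586262338429752288831 / 3360000000) * x ^ 3 * y ^ 20
      + (45474307631120699672921 / 84000000) * x ^ 4 * y ^ 19
      + (3082591531238890188703363 / 1680000000) * x ^ 5 * y ^ 18
      + (8050139894602210263567767 / 1680000000) * x ^ 6 * y ^ 17
      + (33223592331591250367169337 / 3360000000) * x ^ 7 * y ^ 16
      + (13828892154053932431659443 / 840000000) * x ^ 8 * y ^ 15
      + (1267484609586914066466481 / 56000000) * x ^ 9 * y ^ 14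
      + (1859154968535099812831619 / 70000000) * x ^ 10 * y ^ 13
      + (15622687090385013337260523 / 560000000) * x ^ 11 * y ^ 12
      + (23160111735938058814152041 / 840000000) * x ^ 12 * y ^ 11
      + (2740982904321344248557007 / 105000000) * x ^ 13 * y ^ 10
      + (963360180611972968247881 / 42000000) * x ^ 14 * y ^ 9
      + (29726775407874108780248807 / 1680000000) * x ^ 15 * y ^ 8
      + (1198733212002364085740103 / 105000000) * x ^ 16 * y ^ 7
      + (2498596502610673274871281 / 420000000) * x ^ 17 * y ^ 6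
      + (4090049604604809161144249 / 1680000000) * x ^ 18 * y ^ 5
      + (510526900351016209685651 / 672000000) * x ^ 19 * y ^ 4
      + (145969751950901732925457 / 840000000) * x ^ 20 * y ^ 3
      + (15331209867552956189327 / 560000000) * x ^ 21 * y ^ 2
      + (1482596016530406642771 / 560000000) * x ^ 22 * y ^ 1
      + (132369707527593653587 / 1120000000) * x ^ 23 := by
    rw [hx, hy]; unfold QA; ring
  rw [e]
  positivity


theorem QA1 (s : ℝ) (h0 : (4 / 5) ≤ s) (h1 : s ≤ (9 / 10)) : 0 ≤ QA s := by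
  obtain ⟨x, hx⟩ : ∃ x, x = s - (4 / 5) := ⟨_, rfl⟩
  obtain ⟨y, hy⟩ : ∃ y, y = (9 / 10) - s := ⟨_, rfl⟩
  have hx0 : 0 ≤ x := by rw [hx]; linarith
  have hy0 : 0 ≤ y := by rw [hy]; linarith
  have e : QA s = (542186322033023605092352 / 546875) * y ^ 23
      + (12632714826430768766896128 / 546875) * x ^ 1 * y ^ 22
      + (19948334751952162340641792 / 78125) * x ^ 2 * y ^ 21
      + (2921463053553641086283295232 / 1640625) * x ^ 3 * y ^ 20
      + (2883904688419629931796926976 / 328125) * x ^ 4 * y ^ 19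
      + (53559310347394803001962395392 / 1640625) * x ^ 5 * y ^ 18
      + (155403996547930996741487805568 / 1640625) * x ^ 6 * y ^ 17
      + (360892565803011567509997799744 / 1640625) * x ^ 7 * y ^ 16
      + (681796157821703202251139313984 / 1640625) * x ^ 8 * y ^ 15
      + (211866159292210340005617575104 / 328125) * x ^ 9 * y ^ 14
      + (1363221413095261745807561098304 / 1640625) * x ^ 10 * y ^ 13
      + (1458943412385338193136352730176 / 1640625) * x ^ 11 * y ^ 12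
      + (433624383646036325025433981856 / 546875) * x ^ 12 * y ^ 11
      + (322167845641842171294343055376 / 546875) * x ^ 13 * y ^ 10
      + (39852892202976941688526448524 / 109375) * x ^ 14 * y ^ 9
      + (307520867114668175932913999038 / 1640625) * x ^ 15 * y ^ 8
      + (131633678532575284426276171192 / 1640625) * x ^ 16 * y ^ 7
      + (47034861221099233857047676076 / 1640625) * x ^ 17 * y ^ 6
      + (14104472665627789273096913381 / 1640625) * x ^ 18 * y ^ 5
      + (1420659479295835913120068139 / 656250) * x ^ 19 * y ^ 4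
      + (5884468114681294598866424533 / 13125000) * x ^ 20 * y ^ 3
      + (1879556352565028961521423459 / 26250000) * x ^ 21 * y ^ 2
      + (403973926235700800499937009 / 52500000) * x ^ 22 * y ^ 1
      + (42748790359403693997430463 / 105000000) * x ^ 23 := by
    rw [hx, hy]; unfold QA; ring
  rw [e]
  positivity


theorem QA2 (s : ℝ) (h0 : (9 / 10) ≤ s) (h1 : s ≤ 1) : 0 ≤ QA s := by
  obtain ⟨x, hx⟩ : ∃ x, x = s - (9 / 10) := ⟨_, rfl⟩
  obtain ⟨y, hy⟩ : ∃ y, y = 1 - s := ⟨_, rfl⟩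
  have hx0 : 0 ≤ x := by rw [hx]; linarith
  have hy0 : 0 ≤ y := by rw [hy]; linarith
  have e : QA s = (42748790359403693997430463 / 105000000) * y ^ 23
      + (4827068766921534678674697 / 437500) * x ^ 1 * y ^ 22
      + (3172978280257288276560597 / 21875) * x ^ 2 * y ^ 21
      + (15976346055241370747047369 / 13125) * x ^ 3 * y ^ 20
      + (3630076858478402030530657 / 500) * x ^ 4 * y ^ 19
      + (814187727591766351603734 / 25) * x ^ 5 * y ^ 18
      + (341148235225930132209632 / 3) * x ^ 6 * y ^ 17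
      + (2212696429378862097411040 / 7) * x ^ 7 * y ^ 16
      + (4970962392727109586594490 / 7) * x ^ 8 * y ^ 15
      + (9115159507482084457490800 / 7) * x ^ 9 * y ^ 14
      + (13721462815148760982325000 / 7) * x ^ 10 * y ^ 13
      + 2427710505128886819780000 * x ^ 11 * y ^ 12
      + (7411232355327344923900000 / 3) * x ^ 12 * y ^ 11
      + 2054804636807177477000000 * x ^ 13 * y ^ 10
      + (9683192019287220115000000 / 7) * x ^ 14 * y ^ 9
      + (15574469566340210273000000 / 21) * x ^ 15 * y ^ 8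
      + (2160623879065951875000000 / 7) * x ^ 16 * y ^ 7
      + (670111509572085500000000 / 7) * x ^ 17 * y ^ 6
      + (62111626565555000000000 / 3) * x ^ 18 * y ^ 5
      + 2844089067666000000000 * x ^ 19 * y ^ 4
      + 290001398275000000000 * x ^ 20 * y ^ 3
      + 73409472000000000000 * x ^ 21 * y ^ 2
      + 21009250000000000000 * x ^ 22 * y ^ 1
      + 2333300000000000000 * x ^ 23 := by
    rw [hx, hy]; unfold QA; ring
  rw [e]
  positivity


theorem EL0 (s : ℝ) (h0 : (3 / 5) ≤ s) (h1 : s ≤ 1) : 0 ≤ (357199561 / 250000) * s ^ 8 - ellp s * (3 + 2 * s ^ 2) ^ 5 := by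
  obtain ⟨x, hx⟩ : ∃ x, x = s - (3 / 5) := ⟨_, rfl⟩
  obtain ⟨y, hy⟩ : ∃ y, y = 1 - s := ⟨_, rfl⟩
  have hx0 : 0 ≤ x := by rw [hx]; linarith
  have hy0 : 0 ≤ y := by rw [hy]; linarith
  have e : (357199561 / 250000) * s ^ 8 - ellp s * (3 + 2 * s ^ 2) ^ 5 = (259821534175199739 / 262144000000000) * y ^ 18
      + (141996325852382193 / 5242880000000) * x ^ 1 * y ^ 17
      + (46641622697041167 / 419430400000) * x ^ 2 * y ^ 16
      + (188429677531844193 / 262144000000) * x ^ 3 * y ^ 15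
      + (547698668476837149 / 104857600000) * x ^ 4 * y ^ 14
      + (100563381441532737 / 5242880000) * x ^ 5 * y ^ 13
      + (152881364404334997 / 4194304000) * x ^ 6 * y ^ 12
      + (3229287864691461 / 83886080) * x ^ 7 * y ^ 11
      + (12157889684218361 / 335544320) * x ^ 8 * y ^ 10
      + (2388003957643781 / 33554432) * x ^ 9 * y ^ 9
      + (8513529591061385 / 67108864) * x ^ 10 * y ^ 8
      + (2132997714167475 / 16777216) * x ^ 11 * y ^ 7
      + (2203716193920625 / 33554432) * x ^ 12 * y ^ 6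
      + (15237392014375 / 1048576) * x ^ 13 * y ^ 5
      + (84602251015625 / 33554432) * x ^ 14 * y ^ 4
      + (48610169921875 / 16777216) * x ^ 15 * y ^ 3
      + (148831630859375 / 134217728) * x ^ 16 * y ^ 2
      + (2302197265625 / 67108864) * x ^ 17 * y ^ 1
      + (641357421875 / 134217728) * x ^ 18 := by
    rw [hx, hy]; unfold ellp; ring
  rw [e]
  positivity


theorem UP0 (s : ℝ) (h0 : 0 ≤ s) (h1 : s ≤ (9 / 50)) : 0 ≤ Up s * (3 + 2 * s) ^ 5 - 1 := by
  obtain ⟨x, hx⟩ : ∃ x, x = s - 0 := ⟨_, rfl⟩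
  obtain ⟨y, hy⟩ : ∃ y, y = (9 / 50) - s := ⟨_, rfl⟩
  have hx0 : 0 ≤ x := by rw [hx]; linarith
  have hy0 : 0 ≤ y := by rw [hy]; linarith
  have e : Up s * (3 + 2 * s) ^ 5 - 1 = (1211992187500 / 387420489) * y ^ 9
      + (3273883203125 / 86093442) * x ^ 1 * y ^ 8
      + (13375909503125 / 86093442) * x ^ 2 * y ^ 7
      + (84382055679125 / 258280326) * x ^ 3 * y ^ 6
      + (144765833753695 / 344373768) * x ^ 4 * y ^ 5
      + (31715496234037 / 86093442) * x ^ 5 * y ^ 4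
      + (754609493460004 / 3228504075) * x ^ 6 * y ^ 3
      + (14098798841091344 / 134521003125) * x ^ 7 * y ^ 2
      + (97037847590196704 / 3363025078125) * x ^ 8 * y ^ 1
      + (2670862035066713216 / 756680642578125) * x ^ 9 := by
    rw [hx, hy]; unfold Up; ring
  rw [e]
  positivity


theorem UP1 (s : ℝ) (h0 : (9 / 50) ≤ s) (h1 : s ≤ (9 / 25)) : 0 ≤ Up s * (3 + 2 * s) ^ 5 - 1 := by
  obtain ⟨x, hx⟩ : ∃ x, x = s - (9 / 50) := ⟨_, rfl⟩
  obtain ⟨y, hy⟩ : ∃ y, y = (9 / 25) - s := ⟨_, rfl⟩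
  have hx0 : 0 ≤ x := by rw [hx]; linarith
  have hy0 : 0 ≤ y := by rw [hy]; linarith
  have e : Up s * (3 + 2 * s) ^ 5 - 1 = (2670862035066713216 / 756680642578125) * y ^ 9
      + (2915777880378508832 / 84075626953125) * x ^ 1 * y ^ 8
      + (12730402800670819856 / 84075626953125) * x ^ 2 * y ^ 7
      + (94294778999376414284 / 252226880859375) * x ^ 3 * y ^ 6
      + (93585679173673486793 / 168151253906250) * x ^ 4 * y ^ 5
      + (336618756986825148269 / 672605015625000) * x ^ 5 * y ^ 4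
      + (132489849275548140319 / 504453761718750) * x ^ 6 * y ^ 3
      + (13308192108827599159 / 168151253906250) * x ^ 7 * y ^ 2
      + (3085936045098952417 / 168151253906250) * x ^ 8 * y ^ 1
      + (3292744813075711817 / 756680642578125) * x ^ 9 := by
    rw [hx, hy]; unfold Up; ring
  rw [e]
  positivity


theorem QB0 (s : ℝ) (h0 : 0 ≤ s) (h1 : s ≤ (3 / 10)) : 0 ≤ VV (1 - s ^ 2) - (285759649 / 200000) * s ^ 3 * Yp (s ^ 2) - 2 / 10 ^ 8 := by
  obtain ⟨x, hx⟩ : ∃ x, x = s - 0 := ⟨_, rfl⟩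
  obtain ⟨y, hy⟩ : ∃ y, y = (3 / 10) - s := ⟨_, rfl⟩
  have hx0 : 0 ≤ x := by rw [hx]; linarith
  have hy0 : 0 ≤ y := by rw [hy]; linarith
  have e : VV (1 - s ^ 2) - (285759649 / 200000) * s ^ 3 * Yp (s ^ 2) - 2 / 10 ^ 8 = (45560000000000 / 129140163) * y ^ 18
      + (91120000000000 / 14348907) * x ^ 1 * y ^ 17
      + (1058464000000000 / 14348907) * x ^ 2 * y ^ 16
      + (72181419162703900 / 129140163) * x ^ 3 * y ^ 15
      + (120365745153519500 / 43046721) * x ^ 4 * y ^ 14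
      + (18347676458508885859 / 1894055724) * x ^ 5 * y ^ 13
      + (137946072001437592501 / 5682167172) * x ^ 6 * y ^ 12
      + (139850422358507332333607 / 3077840551500) * x ^ 7 * y ^ 11
      + (18155464630962164348107 / 279803686500) * x ^ 8 * y ^ 10
      + (3758202588559532706757009 / 52463191218750) * x ^ 9 * y ^ 9
      + (179363049422934528220067 / 2914621734375) * x ^ 10 * y ^ 8
      + (1305266523550734219992172751 / 31711084470000000) * x ^ 11 * y ^ 7
      + (6085830487365364141711298033 / 285399760230000000) * x ^ 12 * y ^ 6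
      + (804451930193997261593861713 / 95133253410000000) * x ^ 13 * y ^ 5
      + (9571735549229369467676479 / 3805330136400000) * x ^ 14 * y ^ 4
      + (30998640469448135270459921 / 57079952046000000) * x ^ 15 * y ^ 3
      + (84253915946945431478940443 / 1046465787510000000) * x ^ 16 * y ^ 2
      + (7715861797797350819678921 / 1046465787510000000) * x ^ 17 * y ^ 1
      + (332948877536802363209129 / 1046465787510000000) * x ^ 18 := by
    rw [hx, hy]; unfold VV Yp; ring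
  rw [e]
  positivity


theorem QB1 (s : ℝ) (h0 : (3 / 10) ≤ s) (h1 : s ≤ (3 / 5)) : 0 ≤ VV (1 - s ^ 2) - (285759649 / 200000) * s ^ 3 * Yp (s ^ 2) - 2 / 10 ^ 8 := by
  obtain ⟨x, hx⟩ : ∃ x, x = s - (3 / 10) := ⟨_, rfl⟩
  obtain ⟨y, hy⟩ : ∃ y, y = (3 / 5) - s := ⟨_, rfl⟩
  have hx0 : 0 ≤ x := by rw [hx]; linarith
  have hy0 : 0 ≤ y := by rw [hy]; linarith
  have e : VV (1 - s ^ 2) - (285759649 / 200000) * s ^ 3 * Yp (s ^ 2) - 2 / 10 ^ 8 = (332948877536802363209129 / 1046465787510000000) * y ^ 18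
      + (4270297793527534255849723 / 1046465787510000000) * x ^ 1 * y ^ 17
      + (2853258652706505543760453 / 116273976390000000) * x ^ 2 * y ^ 16
      + (311635068762574925474570137 / 3139397362530000000) * x ^ 3 * y ^ 15
      + (70348707311932911683022683 / 209293157502000000) * x ^ 4 * y ^ 14
      + (1087978511904271988541043421 / 1046465787510000000) * x ^ 5 * y ^ 13
      + (8744259389758780938014811533 / 3139397362530000000) * x ^ 6 * y ^ 12
      + (696374834255785296924749513 / 116273976390000000) * x ^ 7 * y ^ 11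
      + (473544169238418476494160429 / 47566626705000000) * x ^ 8 * y ^ 10
      + (10623252121025833841719319 / 839411059500000) * x ^ 9 * y ^ 9
      + (145987158693060269437480417 / 11891656676250000) * x ^ 10 * y ^ 8
      + (49401694712627307664979809 / 5450342643281250) * x ^ 11 * y ^ 7
      + (496478938903098232575625841 / 98106167579062500) * x ^ 12 * y ^ 6
      + (4060676814793983375661441 / 1923650344687500) * x ^ 13 * y ^ 5
      + (2109894725985343823650939 / 3270205585968750) * x ^ 14 * y ^ 4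
      + (687060193512115621975388 / 4905308378953125) * x ^ 15 * y ^ 3
      + (55468081761198659024444 / 2725171321640625) * x ^ 16 * y ^ 2
      + (13887064686823274434252 / 8175513964921875) * x ^ 17 * y ^ 1
      + (1099355194707719017688 / 24526541894765625) * x ^ 18 := by
    rw [hx, hy]; unfold VV Yp; ring
  rw [e]
  positivity

end Pool.Agent.Lib.MP_f1379f_gt.FV.PW
end

section
/-!
# OVB: polynomial majorant of the cap volume (for the one-body inequality)
-/
set_option autoImplicit false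
set_option linter.style.longLine false

namespace Pool.Agent.Lib.MP_f1379f_gt.FV.PW

open Real PV TV

/-- Cap volume as a function of `s = √r`. -/
noncomputable def ph (s : ℝ) : ℝ := cw (w0 * s)

/-- The constant of the density. -/
noncomputable def kap : ℝ := 32000 / 567 * π ^ 3 * w0

theorem kap_bd : 357199561 / 250000 < kap ∧ kap < 285759649 / 200000 := by
  obtain ⟨p1, p2⟩ := pi3_bounds
  obtain ⟨w1, w2⟩ := w0_bd
  unfold kap
  have h := mul_bounds (x := π ^ 3) (y := w0) (a := 31.0062766802998) (b := 31.0062766802999)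
    (by norm_num) (by norm_num) p1 p2 w1 w2
  constructor <;> nlinarith [h.1, h.2]

theorem hasDerivAt_ph (s : ℝ) : HasDerivAt ph (kap * s ^ 8 / (3 + 2 * s ^ 2) ^ 5) s := by
  have h1 : HasDerivAt (fun s : ℝ => w0 * s) w0 s := by
    simpa using (hasDerivAt_id s).const_mul w0
  have h2 := (hasDerivAt_cw (w0 * s)).comp s h1
  refine h2.congr_deriv ?_
  have hw : w0 ^ 2 = 2 / 3 := w0_sq
  have e1 : (w0 * s) ^ 8 = 16 / 81 * s ^ 8 := by
    have : (w0 * s) ^ 8 = (w0 ^ 2) ^ 4 * s ^ 8 := by ring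
    rw [this, hw]; norm_num
  have e2 : 1 + (w0 * s) ^ 2 = (3 + 2 * s ^ 2) / 3 := by
    rw [mul_pow, hw]; ring
  rw [e1, e2]
  unfold kap
  have : (3 + 2 * s ^ 2) ≠ 0 := by positivity
  field_simp
  ring

theorem ph_zero : ph 0 = 0 := by unfold ph; rw [mul_zero, cw_zero]

theorem ph_one : ph 1 = c1 := by
  unfold ph c1
  rw [v1_eq_cw e0 (by rw [norm_e0]; norm_num), norm_e0, mul_one]
  congr 1
  unfold w0
  rw [show (5 * 1 ^ 2 / 3 - 1 : ℝ) = 6 / 3 ^ 2 by norm_num, Real.sqrt_div (by norm_num),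
    Real.sqrt_sq (by norm_num)]

theorem ell_ge (s : ℝ) (h0 : 3 / 5 ≤ s) (h1 : s ≤ 1) :
    ellp s ≤ kap * s ^ 8 / (3 + 2 * s ^ 2) ^ 5 := by
  have h := EL0 s h0 h1
  have hk := kap_bd.1
  rw [le_div_iff₀ (by positivity)]
  have : 357199561 / 250000 * s ^ 8 ≤ kap * s ^ 8 :=
    mul_le_mul_of_nonneg_right hk.le (by positivity)
  linarith

theorem hasDerivAt_Lamp (s : ℝ) : HasDerivAt Lamp (ellp s) s := by
  unfold Lamp
  have h := ((((((((((hasDerivAt_id s).const_mul ((-(8396569 / 1000000000)) : ℝ)).add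
      (((hasDerivAt_id s).pow 2).const_mul ((489197297 / 2000000000) : ℝ))).add
      (((hasDerivAt_id s).pow 3).const_mul ((-(291506267 / 187500000)) : ℝ))).add
      (((hasDerivAt_id s).pow 4).const_mul ((4056555801 / 800000000) : ℝ))).add
      (((hasDerivAt_id s).pow 5).const_mul ((-(12230363543 / 1250000000)) : ℝ))).add
      (((hasDerivAt_id s).pow 6).const_mul ((17043698303 / 1500000000) : ℝ))).add
      (((hasDerivAt_id s).pow 7).const_mul ((-(52254152449 / 7000000000)) : ℝ))).add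
      (((hasDerivAt_id s).pow 8).const_mul ((5178025841 / 2000000000) : ℝ))).add
      (((hasDerivAt_id s).pow 9).const_mul ((-(1117851361 / 3000000000)) : ℝ)))
  refine h.congr_deriv ?_
  unfold ellp
  simp only [id]
  push_cast
  ring

theorem ph_le_A (s : ℝ) (h0 : 3 / 5 ≤ s) (h1 : s ≤ 1) : ph s ≤ c1 - Lamp 1 + Lamp s := by
  have hm : MonotoneOn (fun s => ph s - Lamp s) (Set.Icc (3 / 5) 1) := by
    apply monotoneOn_of_deriv_nonneg (convex_Icc _ _)
    · exact fun x _ => ((hasDerivAt_ph x).sub (hasDerivAt_Lamp x)).continuousAt.continuousWithinAt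
    · exact fun x _ =>
        ((hasDerivAt_ph x).sub (hasDerivAt_Lamp x)).differentiableAt.differentiableWithinAt
    · intro x hx
      rw [interior_Icc] at hx
      have hd := ((hasDerivAt_ph x).sub (hasDerivAt_Lamp x)).deriv
      have e : deriv (fun s => ph s - Lamp s) x = kap * x ^ 8 / (3 + 2 * x ^ 2) ^ 5 - ellp x := hd
      rw [e, sub_nonneg]
      exact ell_ge x hx.1.le hx.2.le
  have := hm ⟨h0, h1⟩ ⟨by norm_num, le_refl _⟩ h1
  simp only [ph_one] at this
  linarith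

/-- Majorant near zero. -/
noncomputable def Ups (s : ℝ) : ℝ := 285759649 / 200000 * s ^ 9 * Yp (s ^ 2)

theorem hasDerivAt_Ups (s : ℝ) :
    HasDerivAt Ups (285759649 / 200000 * s ^ 8 * Up (s ^ 2)) s := by
  have e : Ups = fun s : ℝ => 285759649 / 200000 * ((205889 / 450000000) * s ^ 9 + (-(2736233 / 2200000000)) * s ^ 11 + (6597459 / 3250000000) * s ^ 13 + (-(1050161 / 468750000)) * s ^ 15 + (10721077 / 8500000000) * s ^ 17) := by
    funext s
    unfold Ups Yp
    ring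
  rw [e]
  have h := ((((((((hasDerivAt_id s).pow 9).const_mul ((205889 / 450000000) : ℝ)).add
      (((hasDerivAt_id s).pow 11).const_mul ((-(2736233 / 2200000000)) : ℝ))).add
      (((hasDerivAt_id s).pow 13).const_mul ((6597459 / 3250000000) : ℝ))).add
      (((hasDerivAt_id s).pow 15).const_mul ((-(1050161 / 468750000)) : ℝ))).add
      (((hasDerivAt_id s).pow 17).const_mul ((10721077 / 8500000000) : ℝ)))).const_mul (285759649 / 200000 : ℝ)
  refine h.congr_deriv ?_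
  unfold Up
  simp only [id]
  push_cast
  ring

theorem Up_ge (y : ℝ) (h0 : 0 ≤ y) (h1 : y ≤ 9 / 25) : 1 ≤ Up y * (3 + 2 * y) ^ 5 := by
  rcases le_total y (9 / 50) with h | h
  · have := UP0 y h0 h; linarith
  · have := UP1 y h h1; linarith

theorem ph_le_B (s : ℝ) (h0 : 0 ≤ s) (h1 : s ≤ 3 / 5) : ph s ≤ Ups s := by
  have hm : MonotoneOn (fun s => Ups s - ph s) (Set.Icc 0 (3 / 5)) := by
    apply monotoneOn_of_deriv_nonneg (convex_Icc _ _)
    · exact fun x _ => ((hasDerivAt_Ups x).sub (hasDerivAt_ph x)).continuousAt.continuousWithinAt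
    · exact fun x _ =>
        ((hasDerivAt_Ups x).sub (hasDerivAt_ph x)).differentiableAt.differentiableWithinAt
    · intro x hx
      rw [interior_Icc] at hx
      have hd := ((hasDerivAt_Ups x).sub (hasDerivAt_ph x)).deriv
      have e : deriv (fun s => Ups s - ph s) x = 285759649 / 200000 * x ^ 8 * Up (x ^ 2) -
        kap * x ^ 8 / (3 + 2 * x ^ 2) ^ 5 := hd
      rw [e, sub_nonneg, div_le_iff₀ (by positivity)]
      have hx2 : x ^ 2 ≤ 9 / 25 := by
        have := pow_le_pow_left₀ hx.1.le hx.2.le 2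
        norm_num at this
        linarith
      have hU := Up_ge (x ^ 2) (sq_nonneg _) hx2
      have hk := kap_bd.2
      have k1 : kap * x ^ 8 ≤ 285759649 / 200000 * x ^ 8 :=
        mul_le_mul_of_nonneg_right hk.le (by positivity)
      have k2 := mul_le_mul_of_nonneg_left hU
        (show 0 ≤ 285759649 / 200000 * x ^ 8 by positivity)
      calc kap * x ^ 8 ≤ 285759649 / 200000 * x ^ 8 * 1 := by linarith
        _ ≤ 285759649 / 200000 * x ^ 8 * (Up (x ^ 2) * (3 + 2 * x ^ 2) ^ 5) := k2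
        _ = 285759649 / 200000 * x ^ 8 * Up (x ^ 2) * (3 + 2 * x ^ 2) ^ 5 := by ring
  have := hm ⟨le_refl _, by norm_num⟩ ⟨h0, h1⟩ h0
  have e0 : Ups 0 = 0 := by unfold Ups; ring
  simp only [ph_zero, e0] at this
  linarith

/-- The majorant in the variable `s`. -/
theorem ph_major (s : ℝ) (h0 : 0 ≤ s) (h1 : s ≤ 1) :
    ph s + (801889 / 10 ^ 7 - c1) * s ^ 6 ≤ s ^ 6 * VV (1 - s ^ 2) := by
  obtain ⟨c1a, c1b⟩ := chat_bd
  rcases le_total s (3 / 5) with h | h
  · have hp := ph_le_B s h0 h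
    have hQ : 0 ≤ VV (1 - s ^ 2) - 285759649 / 200000 * s ^ 3 * Yp (s ^ 2) - 2 / 10 ^ 8 := by
      rcases le_total s (3 / 10) with h2 | h2
      · exact QB0 s h0 h2
      · exact QB1 s h2 h
    have hs6 : 0 ≤ s ^ 6 := by positivity
    have k1 := mul_nonneg hs6 hQ
    have k2 : (801889 / 10 ^ 7 - c1) * s ^ 6 ≤ 2 / 10 ^ 8 * s ^ 6 :=
      mul_le_mul_of_nonneg_right c1b hs6
    unfold Ups at hp
    have e : s ^ 6 * (VV (1 - s ^ 2) - 285759649 / 200000 * s ^ 3 * Yp (s ^ 2) - 2 / 10 ^ 8) =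
        s ^ 6 * VV (1 - s ^ 2) - 285759649 / 200000 * s ^ 9 * Yp (s ^ 2) - 2 / 10 ^ 8 * s ^ 6 := by
      ring
    linarith
  · have hp := ph_le_A s h h1
    have hQ : 0 ≤ QA s := by
      rcases le_total s (4 / 5) with h2 | h2
      · exact QA0 s h h2
      · rcases le_total s (9 / 10) with h3 | h3
        · exact QA1 s h2 h3
        · exact QA2 s h3 h1
    have k1 : 0 ≤ (1 - s) * QA s := mul_nonneg (by linarith) hQ
    rw [← QA_eq] at k1
    have hs6 : s ^ 6 ≤ 1 := pow_le_one₀ h0 h1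
    have k2 : (801889 / 10 ^ 7 - c1) * s ^ 6 ≤ 801889 / 10 ^ 7 - c1 :=
      mul_le_of_le_one_right c1a hs6
    linarith

/-- **Majorant of the cap volume.** -/
theorem vO (u : E) (h0 : 3 / 5 ≤ ‖u‖ ^ 2) (h1 : ‖u‖ ≤ 1) :
    v1 u + (801889 / 10 ^ 7 - c1) * rr u ^ 3 ≤ rr u ^ 3 * VV (1 - rr u) := by
  have ha : ‖u‖ ^ 2 ≤ 1 := by nlinarith [norm_nonneg u]
  have hr : rr u = (5 * ‖u‖ ^ 2 - 3) / 2 := by
    unfold rr; rw [max_eq_right]; linarith
  have hr0 : 0 ≤ rr u := by rw [hr]; linarith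
  have hr1 : rr u ≤ 1 := by rw [hr]; linarith
  obtain ⟨s, hs⟩ : ∃ s, s = √(rr u) := ⟨_, rfl⟩
  have hs0 : 0 ≤ s := by rw [hs]; exact Real.sqrt_nonneg _
  have hs2 : s ^ 2 = rr u := by rw [hs, Real.sq_sqrt hr0]
  have hs1 : s ≤ 1 := by rw [hs]; exact Real.sqrt_le_one.mpr hr1
  have hv : v1 u = ph s := by
    rw [v1_eq_cw u h0]
    unfold ph
    congr 1
    have e : 5 * ‖u‖ ^ 2 / 3 - 1 = (w0 * s) ^ 2 := by
      rw [mul_pow, w0_sq, hs2, hr]; ring
    rw [e, Real.sqrt_sq]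
    have := w0_bd.1
    exact mul_nonneg (by linarith) hs0
  have h := ph_major s hs0 hs1
  have e6 : s ^ 6 = rr u ^ 3 := by rw [← hs2]; ring
  rw [hv, ← hs2]
  have : (s ^ 2) ^ 3 = s ^ 6 := by ring
  rw [this]
  exact h

/-- **Majorant of the cap volume**, all `|u| ≤ 1` (both sides vanish for short vectors). -/
theorem vO_all (u : E) (h1 : ‖u‖ ≤ 1) :
    v1 u + (801889 / 10 ^ 7 - c1) * rr u ^ 3 ≤ rr u ^ 3 * VV (1 - rr u) := by
  rcases le_total (3 / 5) (‖u‖ ^ 2) with h | h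
  · exact vO u h h1
  · have hr : rr u = 0 := by
      unfold rr; rw [max_eq_left]; linarith
    rw [v1_small u h, hr]
    norm_num

end Pool.Agent.Lib.MP_f1379f_gt.FV.PW
end

section
/-!
# PWH: (PV2) for two more rational references of the certificate
-/
set_option autoImplicit false
set_option linter.style.longLine false

namespace Pool.Agent.Lib.MP_f1379f_gt.FV.PW

open MeasureTheory Real PV TV

theorem at_r5 : (157929368086751 / 1000000000000000) < arctan (203 / 250) - arctan (289 / 500) := by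
  have e : arctan (203 / 250) = arctan (289 / 500) + arctan (29250 / 183667) := by
    rw [arctan_add (by norm_num)]
    norm_num
  have h := arctan_ge (x := (29250 / 183667)) (by norm_num)
  have h2 : ((157929368086751 / 1000000000000000) : ℝ) < (29250 / 183667) - (29250 / 183667) ^ 3 / 3 + (29250 / 183667) ^ 5 / 5 - (29250 / 183667) ^ 7 / 7 +
      (29250 / 183667) ^ 9 / 9 - (29250 / 183667) ^ 11 / 11 + (29250 / 183667) ^ 13 / 13 - (29250 / 183667) ^ 15 / 15 := by norm_num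
  linarith

theorem JA_r5 : JA (203 / 250) (289 / 500) = (70596881991758689462334881143 / 17089843750000000000000000000000) := by
  unfold JA L0 L1 L2; norm_num

theorem JB_r5 : JB (203 / 250) (289 / 500) = (42015596757978160858660821 / 273437500000000000000000000000) := by
  unfold JB L0 L1 L2; norm_num

theorem JG_r5 : JG (203 / 250) (289 / 500) = (99278317967194023957 / 10937500000000000000000000) := by
  unfold JG L0 L1 L2; norm_num

theorem SS_r5 : SS (203 / 250) = (311127 / 312500) := by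
  unfold SS; norm_num

theorem JC_r5 : (-(906629086946486821773675696982423 / 53405761718750000000000000000000000)) < JC (203 / 250) (289 / 500) := by
  have h := at_r5
  have e : JC (203 / 250) (289 / 500) = 2 * (1 + (203 / 250) ^ 2) ^ 4 * (arctan (203 / 250) - arctan (289 / 500)) +
      ((-(329711935148540759529 / 136718750000000000000))) := by
    unfold JC G0 L0
    ring
  rw [e]
  have h2 := mul_lt_mul_of_pos_left h (show (0 : ℝ) < 2 * (1 + (203 / 250) ^ 2) ^ 4 by norm_num)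
  refine lt_of_le_of_lt ?_ (add_lt_add_left h2 _)
  norm_num

/-- **(PV2)**, reference r5. -/
theorem pv_r5 (u v : E) (hu : ‖u‖ ≤ 1) (hv : ‖v‖ ≤ 1) (huv : u ≠ v) :
    ((-0.01142335865) + 0.00001797145 * (‖u‖ ^ 2 + ‖v‖ ^ 2)) * ‖u - v‖ ^ 2 + 0.01635777468 * Dt u v
      - 0.00035264435 * Dt u v * ‖u - v‖ ^ 2 ≤ v2 u v * ‖u - v‖ ^ 2 := by
  obtain ⟨p1, p2⟩ := pi3_bounds
  have hC := JC_r5
  apply pv2_rat (203 / 250) (289 / 500) (179831406 / 208450625) (-0.01142335865) 0.01635777468 0.00035264435 0.00001797145 (by norm_num) (by norm_num)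
    (by norm_num) (by norm_num) (by rw [JB_r5]; norm_num) _ _ _ _ u v hu hv huv
  · rw [JB_r5, SS_r5]
    have h3 : (-(906629086946486821773675696982423 / 53405761718750000000000000000000000)) / (311127 / 312500) ^ 4 < JC (203 / 250) (289 / 500) / (311127 / 312500) ^ 4 :=
      div_lt_div_of_pos_right hC (by norm_num)
    have h4 : π ^ 3 * ((-(103221610007956244855172852439233474179959543 / 280173101928497015905465682111607052800000000000))) ≤ π ^ 3 / 48 * (JC (203 / 250) (289 / 500) / (311127 / 312500) ^ 4 -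
        4 / ((311127 / 312500) ^ 5 * (1 + (289 / 500) ^ 2)) * (42015596757978160858660821 / 273437500000000000000000000000) * (179831406 / 208450625)) := by
      have h5 : ((-(103221610007956244855172852439233474179959543 / 280173101928497015905465682111607052800000000000)) : ℝ) = 1 / 48 * ((-(906629086946486821773675696982423 / 53405761718750000000000000000000000)) / (311127 / 312500) ^ 4 -
        4 / ((311127 / 312500) ^ 5 * (1 + (289 / 500) ^ 2)) * (42015596757978160858660821 / 273437500000000000000000000000) * (179831406 / 208450625)) := by norm_num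
      rw [h5]
      have hp : 0 < π ^ 3 := by positivity
      have h6 := mul_lt_mul_of_pos_left h3 hp
      linarith
    refine le_trans ?_ h4
    have h7 := mul_lt_mul_of_neg_right p2 (show ((-(103221610007956244855172852439233474179959543 / 280173101928497015905465682111607052800000000000)) : ℝ) < 0 by norm_num)
    refine le_trans ?_ h7.le
    norm_num
  · rw [JA_r5, SS_r5]
    have h7 := mul_lt_mul_of_pos_right p1 (show (0 : ℝ) < 1 / 48 *
      (4 / ((311127 / 312500) ^ 5 * (1 + (289 / 500) ^ 2)) * 2 * (70596881991758689462334881143 / 17089843750000000000000000000000)) by norm_num)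
    refine le_trans (le_trans ?_ h7.le) (le_of_eq (by ring))
    norm_num
  · rw [JB_r5, SS_r5]
    have h7 := mul_lt_mul_of_pos_right p2 (show (0 : ℝ) < 1 / 48 *
      (4 / ((311127 / 312500) ^ 5 * (1 + (289 / 500) ^ 2)) * (42015596757978160858660821 / 273437500000000000000000000000) / (179831406 / 208450625)) by norm_num)
    refine le_trans (le_of_eq (by ring)) (le_trans h7.le ?_)
    norm_num
  · rw [JG_r5, SS_r5]
    have h7 := mul_lt_mul_of_pos_right p1 (show (0 : ℝ) < 1 / 48 *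
      (4 / ((311127 / 312500) ^ 5 * (1 + (289 / 500) ^ 2)) * (99278317967194023957 / 10937500000000000000000000)) by norm_num)
    refine le_trans (le_trans ?_ h7.le) (le_of_eq (by ring))
    norm_num

/-- Kind r5 in certificate form. -/
theorem kind_r5 (u v : E) (hu : ‖u‖ ≤ 1) (hv : ‖v‖ ≤ 1) (huv : u ≠ v) :
    (-0.01145877107 + (GG - 5833 / 10 ^ 7) + 0.00001797145 * (‖u‖ ^ 2 + ‖v‖ ^ 2)) * ‖u - v‖ ^ 2
      + 0.01635777468 * Dt u v - 0.00035264435 * Dt u v * ‖u - v‖ ^ 2 ≤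
        (v2 u v - 9 * s3) * ‖u - v‖ ^ 2 := by
  have h := pv_r5 u v hu hv huv
  have h2 := GG_bounds.2
  have h3 := s3_bounds.2
  have h4 := mul_le_mul_of_nonneg_right (show -0.01145877107 + (GG - 5833 / 10 ^ 7) ≤
    (-0.01142335865) - 9 * s3 by linarith) (show 0 ≤ ‖u - v‖ ^ 2 by positivity)
  linarith

theorem at_r6 : (15281228367609 / 100000000000000) < arctan (79 / 100) - arctan (567 / 1000) := by
  have e : arctan (79 / 100) = arctan (567 / 1000) + arctan (22300 / 144793) := by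
    rw [arctan_add (by norm_num)]
    norm_num
  have h := arctan_ge (x := (22300 / 144793)) (by norm_num)
  have h2 : ((15281228367609 / 100000000000000) : ℝ) < (22300 / 144793) - (22300 / 144793) ^ 3 / 3 + (22300 / 144793) ^ 5 / 5 - (22300 / 144793) ^ 7 / 7 +
      (22300 / 144793) ^ 9 / 9 - (22300 / 144793) ^ 11 / 11 + (22300 / 144793) ^ 13 / 13 - (22300 / 144793) ^ 15 / 15 := by norm_num
  linarith

theorem JA_r6 : JA (79 / 100) (567 / 1000) = (195048454244744452902551616207181 / 63000000000000000000000000000000000) := by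
  unfold JA L0 L1 L2; norm_num

theorem JB_r6 : JB (79 / 100) (567 / 1000) = (885352310241863477313340039 / 8000000000000000000000000000000) := by
  unfold JB L0 L1 L2; norm_num

theorem JG_r6 : JG (79 / 100) (567 / 1000) = (1586468618055269474176487 / 252000000000000000000000000000) := by
  unfold JG L0 L1 L2; norm_num

theorem SS_r6 : SS (79 / 100) = (48723 / 50000) := by
  unfold SS; norm_num

theorem JC_r6 : (-(136869763599917850684568604371 / 10500000000000000000000000000000)) < JC (79 / 100) (567 / 1000) := by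
  have h := at_r6
  have e : JC (79 / 100) (567 / 1000) = 2 * (1 + (79 / 100) ^ 2) ^ 4 * (arctan (79 / 100) - arctan (567 / 1000)) +
      ((-(4492755998142988250741 / 2100000000000000000000))) := by
    unfold JC G0 L0
    ring
  rw [e]
  have h2 := mul_lt_mul_of_pos_left h (show (0 : ℝ) < 2 * (1 + (79 / 100) ^ 2) ^ 4 by norm_num)
  refine lt_of_le_of_lt ?_ (add_lt_add_left h2 _)
  norm_num

/-- **(PV2)**, reference r6. -/
theorem pv_r6 (u v : E) (hu : ‖u‖ ≤ 1) (hv : ‖v‖ ≤ 1) (huv : u ≠ v) :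
    ((-0.00954429064) + 0.00001400927 * (‖u‖ ^ 2 + ‖v‖ ^ 2)) * ‖u - v‖ ^ 2 + 0.01377896810 * Dt u v
      - 0.00029450818 * Dt u v * ‖u - v‖ ^ 2 ≤ v2 u v * ‖u - v‖ ^ 2 := by
  obtain ⟨p1, p2⟩ := pi3_bounds
  have hC := JC_r6
  apply pv2_rat (79 / 100) (567 / 1000) (27625941 / 33037225) (-0.00954429064) 0.01377896810 0.00029450818 0.00001400927 (by norm_num) (by norm_num)
    (by norm_num) (by norm_num) (by rw [JB_r6]; norm_num) _ _ _ _ u v hu hv huv
  · rw [JB_r6, SS_r6]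
    have h3 : (-(136869763599917850684568604371 / 10500000000000000000000000000000)) / (48723 / 50000) ^ 4 < JC (79 / 100) (567 / 1000) / (48723 / 50000) ^ 4 :=
      div_lt_div_of_pos_right hC (by norm_num)
    have h4 : π ^ 3 * ((-(244291154098269672732769345600683817795891 / 793622018052382598620228404973751040000000000))) ≤ π ^ 3 / 48 * (JC (79 / 100) (567 / 1000) / (48723 / 50000) ^ 4 -
        4 / ((48723 / 50000) ^ 5 * (1 + (567 / 1000) ^ 2)) * (885352310241863477313340039 / 8000000000000000000000000000000) * (27625941 / 33037225)) := by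
      have h5 : ((-(244291154098269672732769345600683817795891 / 793622018052382598620228404973751040000000000)) : ℝ) = 1 / 48 * ((-(136869763599917850684568604371 / 10500000000000000000000000000000)) / (48723 / 50000) ^ 4 -
        4 / ((48723 / 50000) ^ 5 * (1 + (567 / 1000) ^ 2)) * (885352310241863477313340039 / 8000000000000000000000000000000) * (27625941 / 33037225)) := by norm_num
      rw [h5]
      have hp : 0 < π ^ 3 := by positivity
      have h6 := mul_lt_mul_of_pos_left h3 hp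
      linarith
    refine le_trans ?_ h4
    have h7 := mul_lt_mul_of_neg_right p2 (show ((-(244291154098269672732769345600683817795891 / 793622018052382598620228404973751040000000000)) : ℝ) < 0 by norm_num)
    refine le_trans ?_ h7.le
    norm_num
  · rw [JA_r6, SS_r6]
    have h7 := mul_lt_mul_of_pos_right p1 (show (0 : ℝ) < 1 / 48 *
      (4 / ((48723 / 50000) ^ 5 * (1 + (567 / 1000) ^ 2)) * 2 * (195048454244744452902551616207181 / 63000000000000000000000000000000000)) by norm_num)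
    refine le_trans (le_trans ?_ h7.le) (le_of_eq (by ring))
    norm_num
  · rw [JB_r6, SS_r6]
    have h7 := mul_lt_mul_of_pos_right p2 (show (0 : ℝ) < 1 / 48 *
      (4 / ((48723 / 50000) ^ 5 * (1 + (567 / 1000) ^ 2)) * (885352310241863477313340039 / 8000000000000000000000000000000) / (27625941 / 33037225)) by norm_num)
    refine le_trans (le_of_eq (by ring)) (le_trans h7.le ?_)
    norm_num
  · rw [JG_r6, SS_r6]
    have h7 := mul_lt_mul_of_pos_right p1 (show (0 : ℝ) < 1 / 48 *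
      (4 / ((48723 / 50000) ^ 5 * (1 + (567 / 1000) ^ 2)) * (1586468618055269474176487 / 252000000000000000000000000000)) by norm_num)
    refine le_trans (le_trans ?_ h7.le) (le_of_eq (by ring))
    norm_num

/-- Kind r6 in certificate form. -/
theorem kind_r6 (u v : E) (hu : ‖u‖ ≤ 1) (hv : ‖v‖ ≤ 1) (huv : u ≠ v) :
    (-0.00957970306 + (GG - 5833 / 10 ^ 7) + 0.00001400927 * (‖u‖ ^ 2 + ‖v‖ ^ 2)) * ‖u - v‖ ^ 2
      + 0.01377896810 * Dt u v - 0.00029450818 * Dt u v * ‖u - v‖ ^ 2 ≤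
        (v2 u v - 9 * s3) * ‖u - v‖ ^ 2 := by
  have h := pv_r6 u v hu hv huv
  have h2 := GG_bounds.2
  have h3 := s3_bounds.2
  have h4 := mul_le_mul_of_nonneg_right (show -0.00957970306 + (GG - 5833 / 10 ^ 7) ≤
    (-0.00954429064) - 9 * s3 by linarith) (show 0 ≤ ‖u - v‖ ^ 2 by positivity)
  linarith

end Pool.Agent.Lib.MP_f1379f_gt.FV.PW
end
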