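import Pool.Agent.Lib.MP_f1379f_gt.FV.BCH
import Pool.Agent.Lib.MP_f1379f_gt.FV.CK0
import Pool.Agent.Lib.MP_f1379f_gt.FV.PWH

/-!
# one-body inequality
-/

set_option autoImplicit false
set_option linter.unusedVariables false
set_option linter.style.longLine false
set_option maxRecDepth 100000

namespace Pool.Agent.Lib.MP_f1379f_gt.FV.CK.Or

open Finset Pool.Agent.Lib.MP_f1379f_gt.FV Pool.Agent.Lib.MP_f1379f_gt.FV.BCH Pool.Agent.Lib.MP_f1379f_gt.FV.CK

/-- node -/
def nd0 : Ex := .v .x
/-- node -/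
def nd2 : Ex := .h .x
/-- node -/
def eP : Ex := .f 5 nd2 (-2) nd0
/-- node -/
def eM : Ex := .m eP eP
/-- node -/
def eW2 : Ex := .f 8 eM (-1) eM
/-- node -/
def nd6 : Ex := .m eP eW2
/-- node -/
def nd7 : Ex := .m eM eP
/-- node -/
def eW3 : Ex := .f 5 nd6 (-7) nd7
/-- node -/
def nd9 : Ex := .m eP eW3
/-- node -/
def nd10 : Ex := .m eM eW2
/-- node -/
def eW4 : Ex := .f 1 nd9 (-1) nd10
/-- node -/
def nd12 : Ex := .m eP eW4
/-- node -/
def nd13 : Ex := .m eM eW3
/-- node -/
def eW5 : Ex := .f 14 nd12 (-3) nd13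
/-- node -/
def nd15 : Ex := .m eP eW5
/-- node -/
def nd16 : Ex := .m eM eW4
/-- node -/
def eW6 : Ex := .f 8 nd15 (-25) nd16
/-- node -/
def nd18 : Ex := .m eP eW6
/-- node -/
def nd19 : Ex := .m eM eW5
/-- node -/
def eW7 : Ex := .f 6 nd18 (-11) nd19
/-- node -/
def nd21 : Ex := .m eP eW7
/-- node -/
def nd22 : Ex := .m eM eW6
/-- node -/
def eW8 : Ex := .f 5 nd21 (-7) nd22
/-- node -/
def nd24 : Ex := .m eP eW8
/-- node -/
def nd25 : Ex := .m eM eW7
/-- node -/
def eW9 : Ex := .f 11 nd24 (-13) nd25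
/-- node -/
def nd27 : Ex := .m eP eW9
/-- node -/
def nd28 : Ex := .m eM eW8
/-- node -/
def eW10 : Ex := .f 8 nd27 (-21) nd28
/-- node -/
def nd30 : Ex := .m eP eW10
/-- node -/
def nd31 : Ex := .m eM eW9
/-- node -/
def eW11 : Ex := .f 13 nd30 (-25) nd31
/-- node -/
def nd33 : Ex := .f 3125000 nd2 12547293 nd0
/-- node -/
def nd34 : Ex := .m nd0 nd0
/-- node -/
def nd35 : Ex := .m nd33 nd2
/-- node -/
def nd36 : Ex := .f 532137500000 nd35 (-5560126097970527721) nd34
/-- node -/
def nd37 : Ex := .m nd34 nd0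
/-- node -/
def nd38 : Ex := .m nd36 nd2
/-- node -/
def nd39 : Ex := .f 4 nd38 (-143971560838845633987) nd37
/-- node -/
def nd40 : Ex := .m nd34 nd34
/-- node -/
def nd41 : Ex := .m nd39 nd2
/-- node -/
def nd42 : Ex := .f 200000 nd41 76724834899941756653182183 nd40
/-- node -/
def nd43 : Ex := .m nd40 nd0
/-- node -/
def nd44 : Ex := .m nd42 nd2
/-- node -/
def nd45 : Ex := .f 1 nd44 (-94593064845739555800374915) nd43
/-- node -/
def nd46 : Ex := .m nd37 nd37
/-- node -/
def nd47 : Ex := .m nd45 nd2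
/-- node -/
def eq0 : Ex := .f 4 nd47 183998753515582533453864651 nd46
/-- node -/
def nd49 : Ex := .m eq0 nd2
/-- node -/
def nd50 : Ex := .f 50000000 nd2 305876901 nd0
/-- node -/
def nd51 : Ex := .m nd50 nd2
/-- node -/
def nd52 : Ex := .f 214247885067400000000 nd51 46126156355453256357182025937 nd34
/-- node -/
def nd53 : Ex := .m nd52 nd2
/-- node -/
def nd54 : Ex := .f 1 nd53 (-367864493629425946502217103784) nd37
/-- node -/
def nd55 : Ex := .m nd54 nd2
/-- node -/
def nd56 : Ex := .f 125 nd55 116294701508117849081893814039182 nd40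
/-- node -/
def nd57 : Ex := .m nd56 nd2
/-- node -/
def nd58 : Ex := .f 1 nd57 (-108759545003046608030284331812312) nd43
/-- node -/
def nd59 : Ex := .m nd58 nd2
/-- node -/
def eq1 : Ex := .f 1 nd59 56385860271202494829570259020165 nd46
/-- node -/
def nd61 : Ex := .m eq1 eP
/-- node -/
def eS1 : Ex := .f 184320 nd49 1 nd61
/-- node -/
def nd63 : Ex := .m eS1 nd2
/-- node -/
def nd64 : Ex := .f 50000000 nd2 387908683 nd0
/-- node -/
def nd65 : Ex := .m nd64 nd2
/-- node -/
def nd66 : Ex := .f 629538834434200000000 nd65 282128733615030423636719965619 nd34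
/-- node -/
def nd67 : Ex := .m nd66 nd2
/-- node -/
def nd68 : Ex := .f 1 nd67 (-668599103341720698026859706948) nd37
/-- node -/
def nd69 : Ex := .m nd68 nd2
/-- node -/
def nd70 : Ex := .f 125 nd69 84781430330218723997051647509244 nd40
/-- node -/
def nd71 : Ex := .m nd70 nd2
/-- node -/
def nd72 : Ex := .f 1 nd71 (-8522417821246427786941079158656) nd43
/-- node -/
def nd73 : Ex := .m nd72 nd2
/-- node -/
def eq2 : Ex := .f 1 nd73 2029121583710153092914749172736 nd46
/-- node -/
def nd75 : Ex := .m eq2 eW2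
/-- node -/
def eS2 : Ex := .f 35 nd63 1 nd75
/-- node -/
def nd77 : Ex := .m eS2 nd2
/-- node -/
def nd78 : Ex := .f 50000000 nd2 440543329 nd0
/-- node -/
def nd79 : Ex := .m nd78 nd2
/-- node -/
def nd80 : Ex := .f 1220843580554600000000 nd79 1046781762576213867352227314293 nd34
/-- node -/
def nd81 : Ex := .m nd80 nd2
/-- node -/
def nd82 : Ex := .f 1 nd81 (-674488181486286221401075423856) nd37
/-- node -/
def nd83 : Ex := .m nd82 nd2
/-- node -/
def nd84 : Ex := .f 5 nd83 (-1444546899780800097902668991746) nd40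
/-- node -/
def nd85 : Ex := .m nd84 nd2
/-- node -/
def nd86 : Ex := .f 5 nd85 13568975384757489889234166733168 nd43
/-- node -/
def nd87 : Ex := .m nd86 nd2
/-- node -/
def eq3 : Ex := .f 5 nd87 701020409311886452992250454762129 nd46
/-- node -/
def nd89 : Ex := .m eq3 eW3
/-- node -/
def eS3 : Ex := .f 20 nd77 1 nd89
/-- node -/
def nd91 : Ex := .m eS3 nd2
/-- node -/
def nd92 : Ex := .f 50000000 nd2 497235537 nd0
/-- node -/
def nd93 : Ex := .m nd92 nd2
/-- node -/
def nd94 : Ex := .f 1508817395549800000000 nd93 1935531249937073965308403611381 nd34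
/-- node -/
def nd95 : Ex := .m nd94 nd2
/-- node -/
def nd96 : Ex := .f 1 nd95 708051397855146732381335655788 nd37
/-- node -/
def nd97 : Ex := .m nd96 nd2
/-- node -/
def nd98 : Ex := .f 125 nd97 232206492208081858752796758566028 nd40
/-- node -/
def nd99 : Ex := .m nd98 nd2
/-- node -/
def nd100 : Ex := .f 1 nd99 (-826554588621045587719707616953360) nd43
/-- node -/
def nd101 : Ex := .m nd100 nd2
/-- node -/
def eq4 : Ex := .f 1 nd101 1254658083217298796429025333149712 nd46
/-- node -/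
def nd103 : Ex := .m eq4 eW4
/-- node -/
def eS4 : Ex := .f 15 nd91 4 nd103
/-- node -/
def nd105 : Ex := .m eS4 nd2
/-- node -/
def nd106 : Ex := .f 50000000 nd2 528527069 nd0
/-- node -/
def nd107 : Ex := .m nd106 nd2
/-- node -/
def nd108 : Ex := .f 1966042774539400000000 nd107 3509562620262637851527530932417 nd34
/-- node -/
def nd109 : Ex := .m nd108 nd2
/-- node -/
def nd110 : Ex := .f 1 nd109 2936108004426824134031991624638 nd37
/-- node -/
def nd111 : Ex := .m nd110 nd2
/-- node -/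
def nd112 : Ex := .f 125 nd111 3252239307309741937016223024656041 nd40
/-- node -/
def nd113 : Ex := .m nd112 nd2
/-- node -/
def nd114 : Ex := .f 1 nd113 (-9896042237119366670799303589855020) nd43
/-- node -/
def nd115 : Ex := .m nd114 nd2
/-- node -/
def eq5 : Ex := .f 1 nd115 16024303874948129690136866554609332 nd46
/-- node -/
def nd117 : Ex := .m eq5 eW5
/-- node -/
def eS5 : Ex := .f 75 nd105 4 nd117
/-- node -/
def nd119 : Ex := .m eS5 nd2
/-- node -/
def nd120 : Ex := .f 50000000 nd2 543416841 nd0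
/-- node -/
def nd121 : Ex := .m nd120 nd2
/-- node -/
def nd122 : Ex := .f 605521272579400000000 nd121 1648994852904346215375395817057 nd34
/-- node -/
def nd123 : Ex := .m nd122 nd2
/-- node -/
def nd124 : Ex := .f 1 nd123 (-2149852274405705491370093128606) nd37
/-- node -/
def nd125 : Ex := .m nd124 nd2
/-- node -/
def nd126 : Ex := .f 125 nd125 6337748420233917430111778354700609 nd40
/-- node -/
def nd127 : Ex := .m nd126 nd2
/-- node -/
def nd128 : Ex := .f 1 nd127 (-11370011372661373963691792158940412) nd43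
/-- node -/
def nd129 : Ex := .m nd128 nd2
/-- node -/
def eq6 : Ex := .f 1 nd129 11268567067405396062003343918194004 nd46
/-- node -/
def nd131 : Ex := .m eq6 eW6
/-- node -/
def eS6 : Ex := .f 55 nd119 12 nd131
/-- node -/
def nd133 : Ex := .m eS6 nd2
/-- node -/
def nd134 : Ex := .f 2500000 nd2 87385583 nd0
/-- node -/
def nd135 : Ex := .m nd134 nd2
/-- node -/
def nd136 : Ex := .f 806057704090000000 nd135 649559957982035966328734601 nd34
/-- node -/
def nd137 : Ex := .m nd136 nd2
/-- node -/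
def nd138 : Ex := .f 5 nd137 (-67329019071209837482610507091) nd37
/-- node -/
def nd139 : Ex := .m nd138 nd2
/-- node -/
def nd140 : Ex := .f 12500 nd139 8159098569322911583330266732783941 nd40
/-- node -/
def nd141 : Ex := .m nd140 nd2
/-- node -/
def nd142 : Ex := .f 1 nd141 (-22320543487646697449791994641929062) nd43
/-- node -/
def nd143 : Ex := .m nd142 nd2
/-- node -/
def eq7 : Ex := .f 1 nd143 34699117928359792057171150950623641 nd46
/-- node -/
def nd145 : Ex := .m eq7 eW7
/-- node -/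
def eS7 : Ex := .f 5 nd133 4 nd145
/-- node -/
def nd147 : Ex := .m eS7 nd2
/-- node -/
def nd148 : Ex := .m nd34 nd2
/-- node -/
def nd149 : Ex := .f 12500000 nd148 (-368701743) nd37
/-- node -/
def nd150 : Ex := .m nd149 nd2
/-- node -/
def nd151 : Ex := .f 4177621573550000000 nd150 16075004517921299921532740079 nd40
/-- node -/
def nd152 : Ex := .m nd151 nd2
/-- node -/
def nd153 : Ex := .f 2 nd152 (-116623721969726422441987102951) nd43
/-- node -/
def nd154 : Ex := .m nd153 nd2
/-- node -/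
def eq8 : Ex := .f 8 nd154 1102539976003111322214873611723 nd46
/-- node -/
def nd156 : Ex := .m eq8 eW8
/-- node -/
def eS8 : Ex := .f 65 nd147 442368 nd156
/-- node -/
def nd158 : Ex := .m eS8 nd2
/-- node -/
def nd159 : Ex := .f 50000000 nd2 (-1558237413) nd0
/-- node -/
def nd160 : Ex := .m nd159 nd2
/-- node -/
def nd161 : Ex := .f 2024181262600000000 nd160 93090527460410785551015408097 nd34
/-- node -/
def nd162 : Ex := .m nd161 nd2
/-- node -/
def nd163 : Ex := .f 1 nd162 (-1260579247422830503150963370202) nd37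
/-- node -/
def nd164 : Ex := .m nd163 nd2
/-- node -/
def nd165 : Ex := .f 1 nd164 14590799297976875692379628949049 nd40
/-- node -/
def nd166 : Ex := .m nd165 nd2
/-- node -/
def nd167 : Ex := .f 1 nd166 (-64813810730770545075020600207088) nd43
/-- node -/
def nd168 : Ex := .m nd167 nd2
/-- node -/
def eq9 : Ex := .f 125 nd168 11312725114735812196483940213603648 nd46
/-- node -/
def nd170 : Ex := .m eq9 eW9
/-- node -/
def eS9 : Ex := .f 35 nd158 108 nd170
/-- node -/
def nd172 : Ex := .m eS9 nd2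
/-- node -/
def nd173 : Ex := .f 12500000 nd2 (-382225963) nd0
/-- node -/
def nd174 : Ex := .m nd173 nd2
/-- node -/
def nd175 : Ex := .f 59447064950000000 nd174 524567367493006580993162331 nd34
/-- node -/
def nd176 : Ex := .m nd175 nd2
/-- node -/
def nd177 : Ex := .f 1 nd176 (-6006378815587912594809282443) nd37
/-- node -/
def nd178 : Ex := .m nd177 nd2
/-- node -/
def nd179 : Ex := .f 6500 nd178 332665524503479596539691373781083 nd40
/-- node -/
def nd180 : Ex := .m nd179 nd2
/-- node -/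
def nd181 : Ex := .f 1 nd180 (-978928650471623940214364758017868) nd43
/-- node -/
def nd182 : Ex := .m nd181 nd2
/-- node -/
def eq10 : Ex := .f 1 nd182 889899397839081185865297067059596 nd46
/-- node -/
def nd184 : Ex := .m eq10 eW10
/-- node -/
def eS10 : Ex := .f 25 nd172 432 nd184
/-- node -/
def nd186 : Ex := .m eS10 nd2
/-- node -/
def nd187 : Ex := .f 50000000 nd2 (-848811091) nd0
/-- node -/
def nd188 : Ex := .m nd187 nd2
/-- node -/
def nd189 : Ex := .f 67847809400000000 nd188 1436572267284654554732842207 nd34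
/-- node -/
def nd190 : Ex := .m nd189 nd2
/-- node -/
def nd191 : Ex := .f 1 nd190 (-8440839910865267306813787420) nd37
/-- node -/
def nd192 : Ex := .m nd191 nd2
/-- node -/
def nd193 : Ex := .f 625 nd192 56505097735161136302079779307482 nd40
/-- node -/
def nd194 : Ex := .m nd193 nd2
/-- node -/
def nd195 : Ex := .f 1 nd194 188308421757512522442536768135844 nd43
/-- node -/
def nd196 : Ex := .m nd195 nd2
/-- node -/
def eq11 : Ex := .f 1 nd196 135118633507329313148889511270255 nd46
/-- node -/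
def nd198 : Ex := .m eq11 eW11
/-- node -/
def eS11 : Ex := .f 5 nd186 54 nd198
/-- node -/
def nd200 : Ex := .f 801889 nd2 119707 nd0
/-- node -/
def nd201 : Ex := .m nd200 nd2
/-- node -/
def nd202 : Ex := .f 1 nd201 (-340126) nd34
/-- node -/
def nd203 : Ex := .m nd202 nd2
/-- node -/
def nd204 : Ex := .f 1 nd203 (-158242) nd37
/-- node -/
def nd205 : Ex := .m nd204 nd2
/-- node -/
def nd206 : Ex := .f 1 nd205 (-2695980) nd40
/-- node -/
def nd207 : Ex := .m nd206 nd2
/-- node -/
def nd208 : Ex := .f 1 nd207 12686271 nd43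
/-- node -/
def nd209 : Ex := .m nd208 nd2
/-- node -/
def nd210 : Ex := .f 1 nd209 (-36069290) nd46
/-- node -/
def nd211 : Ex := .m nd46 nd0
/-- node -/
def nd212 : Ex := .m nd210 nd2
/-- node -/
def nd213 : Ex := .f 1 nd212 55344714 nd211
/-- node -/
def nd214 : Ex := .m nd40 nd40
/-- node -/
def nd215 : Ex := .m nd213 nd2
/-- node -/
def nd216 : Ex := .f 1 nd215 (-43726930) nd214
/-- node -/
def nd217 : Ex := .m nd214 nd0
/-- node -/
def nd218 : Ex := .m nd216 nd2
/-- node -/
def eV : Ex := .f 1 nd218 14039354 nd217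
/-- node -/
def nd220 : Ex := .f 6250000 nd2 12547293 nd0
/-- node -/
def nd221 : Ex := .m nd220 nd2
/-- node -/
def nd222 : Ex := .f 8 nd221 (-197541929) nd34
/-- node -/
def nd223 : Ex := .m nd222 nd2
/-- node -/
def el : Ex := .f 2 nd223 103946643 nd37
/-- node -/
def nd225 : Ex := .m nd2 nd2
/-- node -/
def nd226 : Ex := .m nd2 nd225
/-- node -/
def nd227 : Ex := .m nd226 nd226
/-- node -/
def nd228 : Ex := .m el nd227
/-- node -/
def nd229 : Ex := .f 127713 nd228 (-10000000) eV
/-- node -/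
def nd230 : Ex := .m nd225 nd225
/-- node -/
def nd231 : Ex := .m nd230 nd230
/-- node -/
def nd232 : Ex := .m nd0 nd231
/-- node -/
def nd233 : Ex := .f 1 nd229 (-1200000000000) nd232
/-- node -/
def nd234 : Ex := .f 1 nd2 (-1) nd0
/-- node -/
def nd235 : Ex := .m nd234 nd234
/-- node -/
def nd236 : Ex := .m nd235 nd234
/-- node -/
def nd237 : Ex := .m nd236 eS11
/-- node -/
def nd238 : Ex := .m nd225 nd226
/-- node -/
def nd239 : Ex := .m nd238 nd227
/-- node -/
def nd240 : Ex := .m nd233 nd239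
/-- node -/
def g0O : Ex := .f 2270268000000000000000000000000000 nd240 (-1) nd237

/-- real function of eP -/
noncomputable def f_eP (x y t : ℝ) : ℝ := 1 - ((2 / 5) * x)

theorem v_eP (x y t : ℝ) : val eP x y t = 5 * (f_eP x y t) := by
  simp only [nd0, nd2, eP, val_f, val_h, val_vx]
  unfold f_eP
  push_cast
  ring

/-- real function of eM -/
noncomputable def f_eM (x y t : ℝ) : ℝ := f_eP x y t * f_eP x y t

theorem v_eM (x y t : ℝ) : val eM x y t = 25 * (f_eM x y t) := by
  simp only [eM, v_eP, val_m]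
  unfold f_eM
  push_cast
  ring

theorem v_eW2 (x y t : ℝ) : val eW2 x y t = 175 * (Zg 8 2 (f_eP x y t) (f_eM x y t)) := by
  simp only [eW2, v_eM, val_f]
  unfold f_eM
  rw [zg_2]
  rw [zg_0, zg_1]
  push_cast
  ring

theorem v_eW3 (x y t : ℝ) : val eW3 x y t = 3500 * (Zg 8 3 (f_eP x y t) (f_eM x y t)) := by
  simp only [nd6, nd7, eW3, v_eP, v_eM, v_eW2, val_f, val_m]
  rw [zg_3]
  rw [zg_1]
  push_cast
  ring

theorem v_eW4 (x y t : ℝ) : val eW4 x y t = 13125 * (Zg 8 4 (f_eP x y t) (f_eM x y t)) := by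
  simp only [nd9, nd10, eW4, v_eP, v_eM, v_eW2, v_eW3, val_f, val_m]
  rw [zg_4]
  push_cast
  ring

theorem v_eW5 (x y t : ℝ) : val eW5 x y t = 656250 * (Zg 8 5 (f_eP x y t) (f_eM x y t)) := by
  simp only [nd12, nd13, eW5, v_eP, v_eM, v_eW3, v_eW4, val_f, val_m]
  rw [zg_5]
  push_cast
  ring

theorem v_eW6 (x y t : ℝ) : val eW6 x y t = 18046875 * (Zg 8 6 (f_eP x y t) (f_eM x y t)) := by
  simp only [nd15, nd16, eW6, v_eP, v_eM, v_eW4, v_eW5, val_f, val_m]
  rw [zg_6]
  push_cast
  ring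

theorem v_eW7 (x y t : ℝ) : val eW7 x y t = 360937500 * (Zg 8 7 (f_eP x y t) (f_eM x y t)) := by
  simp only [nd18, nd19, eW7, v_eP, v_eM, v_eW5, v_eW6, val_f, val_m]
  rw [zg_7]
  push_cast
  ring

theorem v_eW8 (x y t : ℝ) : val eW8 x y t = 5865234375 * (Zg 8 8 (f_eP x y t) (f_eM x y t)) := by
  simp only [nd21, nd22, eW8, v_eP, v_eM, v_eW6, v_eW7, val_f, val_m]
  rw [zg_8]
  push_cast
  ring

theorem v_eW9 (x y t : ℝ) : val eW9 x y t = 205283203125 * (Zg 8 9 (f_eP x y t) (f_eM x y t)) := by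
  simp only [nd24, nd25, eW9, v_eP, v_eM, v_eW7, v_eW8, val_f, val_m]
  rw [zg_9]
  push_cast
  ring

theorem v_eW10 (x y t : ℝ) : val eW10 x y t = 5132080078125 * (Zg 8 10 (f_eP x y t) (f_eM x y t)) := by
  simp only [nd27, nd28, eW10, v_eP, v_eM, v_eW8, v_eW9, val_f, val_m]
  rw [zg_10]
  push_cast
  ring

theorem v_eW11 (x y t : ℝ) : val eW11 x y t = 205283203125000 * (Zg 8 11 (f_eP x y t) (f_eM x y t)) := by
  simp only [nd30, nd31, eW11, v_eP, v_eM, v_eW9, v_eW10, val_f, val_m]
  rw [zg_11]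
  push_cast
  ring

theorem v_eq0 (x y t : ℝ) : val eq0 x y t = 10000000000000000000000000000 * (qf0 x x) := by
  simp only [nd0, nd2, nd33, nd34, nd35, nd36, nd37, nd38, nd39, nd40, nd41, nd42, nd43, nd44, nd45, nd46, nd47, eq0, val_f, val_h, val_m, val_vx]
  unfold qf0
  push_cast
  ring

theorem v_eq1 (x y t : ℝ) : val eq1 x y t = 368640000000000000000000000000000 * (qf1 x x) := by
  simp only [nd0, nd2, nd34, nd37, nd40, nd43, nd46, nd50, nd51, nd52, nd53, nd54, nd55, nd56, nd57, nd58, nd59, eq1, val_f, val_h, val_m, val_vx]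
  unfold qf1
  push_cast
  ring

/-- real function of eS1 -/
noncomputable def f_eS1 (x y t : ℝ) : ℝ := qf0 x x * Zg 8 0 (f_eP x y t) (f_eM x y t) + qf1 x x * Zg 8 1 (f_eP x y t) (f_eM x y t)

theorem v_eS1 (x y t : ℝ) : val eS1 x y t = 1843200000000000000000000000000000 * (f_eS1 x y t) := by
  simp only [nd2, nd49, nd61, eS1, v_eP, v_eq0, v_eq1, val_f, val_h, val_m]
  unfold f_eS1
  rw [zg_0, zg_1]
  push_cast
  ring

theorem v_eq2 (x y t : ℝ) : val eq2 x y t = 368640000000000000000000000000000 * (qf2 x x) := by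
  simp only [nd0, nd2, nd34, nd37, nd40, nd43, nd46, nd64, nd65, nd66, nd67, nd68, nd69, nd70, nd71, nd72, nd73, eq2, val_f, val_h, val_m, val_vx]
  unfold qf2
  push_cast
  ring

/-- real function of eS2 -/
noncomputable def f_eS2 (x y t : ℝ) : ℝ := f_eS1 x y t + qf2 x x * Zg 8 2 (f_eP x y t) (f_eM x y t)

theorem v_eS2 (x y t : ℝ) : val eS2 x y t = 64512000000000000000000000000000000 * (f_eS2 x y t) := by
  simp only [nd2, nd63, nd75, eS2, v_eW2, v_eS1, v_eq2, val_f, val_h, val_m]
  unfold f_eS2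
  push_cast
  ring

theorem v_eq3 (x y t : ℝ) : val eq3 x y t = 368640000000000000000000000000000 * (qf3 x x) := by
  simp only [nd0, nd2, nd34, nd37, nd40, nd43, nd46, nd78, nd79, nd80, nd81, nd82, nd83, nd84, nd85, nd86, nd87, eq3, val_f, val_h, val_m, val_vx]
  unfold qf3
  push_cast
  ring

/-- real function of eS3 -/
noncomputable def f_eS3 (x y t : ℝ) : ℝ := f_eS2 x y t + qf3 x x * Zg 8 3 (f_eP x y t) (f_eM x y t)

theorem v_eS3 (x y t : ℝ) : val eS3 x y t = 1290240000000000000000000000000000000 * (f_eS3 x y t) := by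
  simp only [nd2, nd77, nd89, eS3, v_eW3, v_eS2, v_eq3, val_f, val_h, val_m]
  unfold f_eS3
  push_cast
  ring

theorem v_eq4 (x y t : ℝ) : val eq4 x y t = 368640000000000000000000000000000 * (qf4 x x) := by
  simp only [nd0, nd2, nd34, nd37, nd40, nd43, nd46, nd92, nd93, nd94, nd95, nd96, nd97, nd98, nd99, nd100, nd101, eq4, val_f, val_h, val_m, val_vx]
  unfold qf4
  push_cast
  ring

/-- real function of eS4 -/
noncomputable def f_eS4 (x y t : ℝ) : ℝ := f_eS3 x y t + qf4 x x * Zg 8 4 (f_eP x y t) (f_eM x y t)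

theorem v_eS4 (x y t : ℝ) : val eS4 x y t = 19353600000000000000000000000000000000 * (f_eS4 x y t) := by
  simp only [nd2, nd91, nd103, eS4, v_eW4, v_eS3, v_eq4, val_f, val_h, val_m]
  unfold f_eS4
  push_cast
  ring

theorem v_eq5 (x y t : ℝ) : val eq5 x y t = 552960000000000000000000000000000 * (qf5 x x) := by
  simp only [nd0, nd2, nd34, nd37, nd40, nd43, nd46, nd106, nd107, nd108, nd109, nd110, nd111, nd112, nd113, nd114, nd115, eq5, val_f, val_h, val_m, val_vx]
  unfold qf5
  push_cast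
  ring

/-- real function of eS5 -/
noncomputable def f_eS5 (x y t : ℝ) : ℝ := f_eS4 x y t + qf5 x x * Zg 8 5 (f_eP x y t) (f_eM x y t)

theorem v_eS5 (x y t : ℝ) : val eS5 x y t = 1451520000000000000000000000000000000000 * (f_eS5 x y t) := by
  simp only [nd2, nd105, nd117, eS5, v_eW5, v_eS4, v_eq5, val_f, val_h, val_m]
  unfold f_eS5
  push_cast
  ring

theorem v_eq6 (x y t : ℝ) : val eq6 x y t = 368640000000000000000000000000000 * (qf6 x x) := by
  simp only [nd0, nd2, nd34, nd37, nd40, nd43, nd46, nd120, nd121, nd122, nd123, nd124, nd125, nd126, nd127, nd128, nd129, eq6, val_f, val_h, val_m, val_vx]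
  unfold qf6
  push_cast
  ring

/-- real function of eS6 -/
noncomputable def f_eS6 (x y t : ℝ) : ℝ := f_eS5 x y t + qf6 x x * Zg 8 6 (f_eP x y t) (f_eM x y t)

theorem v_eS6 (x y t : ℝ) : val eS6 x y t = 79833600000000000000000000000000000000000 * (f_eS6 x y t) := by
  simp only [nd2, nd119, nd131, eS6, v_eW6, v_eS5, v_eq6, val_f, val_h, val_m]
  unfold f_eS6
  push_cast
  ring

theorem v_eq7 (x y t : ℝ) : val eq7 x y t = 276480000000000000000000000000000 * (qf7 x x) := by
  simp only [nd0, nd2, nd34, nd37, nd40, nd43, nd46, nd134, nd135, nd136, nd137, nd138, nd139, nd140, nd141, nd142, nd143, eq7, val_f, val_h, val_m, val_vx]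
  unfold qf7
  push_cast
  ring

/-- real function of eS7 -/
noncomputable def f_eS7 (x y t : ℝ) : ℝ := f_eS6 x y t + qf7 x x * Zg 8 7 (f_eP x y t) (f_eM x y t)

theorem v_eS7 (x y t : ℝ) : val eS7 x y t = 399168000000000000000000000000000000000000 * (f_eS7 x y t) := by
  simp only [nd2, nd133, nd145, eS7, v_eW7, v_eS6, v_eq7, val_f, val_h, val_m]
  unfold f_eS7
  push_cast
  ring

theorem v_eq8 (x y t : ℝ) : val eq8 x y t = 10000000000000000000000000000 * (qf8 x x) := by
  simp only [nd0, nd2, nd34, nd37, nd40, nd43, nd46, nd148, nd149, nd150, nd151, nd152, nd153, nd154, eq8, val_f, val_h, val_m, val_vx]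
  unfold qf8
  push_cast
  ring

/-- real function of eS8 -/
noncomputable def f_eS8 (x y t : ℝ) : ℝ := f_eS7 x y t + qf8 x x * Zg 8 8 (f_eP x y t) (f_eM x y t)

theorem v_eS8 (x y t : ℝ) : val eS8 x y t = 25945920000000000000000000000000000000000000 * (f_eS8 x y t) := by
  simp only [nd2, nd147, nd156, eS8, v_eW8, v_eS7, v_eq8, val_f, val_h, val_m]
  unfold f_eS8
  push_cast
  ring

theorem v_eq9 (x y t : ℝ) : val eq9 x y t = 40960000000000000000000000000000 * (qf9 x x) := by
  simp only [nd0, nd2, nd34, nd37, nd40, nd43, nd46, nd159, nd160, nd161, nd162, nd163, nd164, nd165, nd166, nd167, nd168, eq9, val_f, val_h, val_m, val_vx]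
  unfold qf9
  push_cast
  ring

/-- real function of eS9 -/
noncomputable def f_eS9 (x y t : ℝ) : ℝ := f_eS8 x y t + qf9 x x * Zg 8 9 (f_eP x y t) (f_eM x y t)

theorem v_eS9 (x y t : ℝ) : val eS9 x y t = 908107200000000000000000000000000000000000000 * (f_eS9 x y t) := by
  simp only [nd2, nd158, nd170, eS9, v_eW9, v_eS8, v_eq9, val_f, val_h, val_m]
  unfold f_eS9
  push_cast
  ring

theorem v_eq10 (x y t : ℝ) : val eq10 x y t = 10240000000000000000000000000000 * (qf10 x x) := by
  simp only [nd0, nd2, nd34, nd37, nd40, nd43, nd46, nd173, nd174, nd175, nd176, nd177, nd178, nd179, nd180, nd181, nd182, eq10, val_f, val_h, val_m, val_vx]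
  unfold qf10
  push_cast
  ring

/-- real function of eS10 -/
noncomputable def f_eS10 (x y t : ℝ) : ℝ := f_eS9 x y t + qf10 x x * Zg 8 10 (f_eP x y t) (f_eM x y t)

theorem v_eS10 (x y t : ℝ) : val eS10 x y t = 22702680000000000000000000000000000000000000000 * (f_eS10 x y t) := by
  simp only [nd2, nd172, nd184, eS10, v_eW10, v_eS9, v_eq10, val_f, val_h, val_m]
  unfold f_eS10
  push_cast
  ring

theorem v_eq11 (x y t : ℝ) : val eq11 x y t = 10240000000000000000000000000000 * (qf11 x x) := by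
  simp only [nd0, nd2, nd34, nd37, nd40, nd43, nd46, nd187, nd188, nd189, nd190, nd191, nd192, nd193, nd194, nd195, nd196, eq11, val_f, val_h, val_m, val_vx]
  unfold qf11
  push_cast
  ring

/-- real function of eS11 -/
noncomputable def f_eS11 (x y t : ℝ) : ℝ := f_eS10 x y t + qf11 x x * Zg 8 11 (f_eP x y t) (f_eM x y t)

theorem v_eS11 (x y t : ℝ) : val eS11 x y t = 113513400000000000000000000000000000000000000000 * (f_eS11 x y t) := by
  simp only [nd2, nd186, nd198, eS11, v_eW11, v_eS10, v_eq11, val_f, val_h, val_m]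
  unfold f_eS11
  push_cast
  ring

/-- real function of eV -/
noncomputable def f_eV (x y t : ℝ) : ℝ := (((((((((801889 / 10000000) + ((119707 / 10000000) * (x ^ 1))) + (((-170063) / 5000000) * (x ^ 2))) + (((-79121) / 5000000) * (x ^ 3))) + (((-134799) / 500000) * (x ^ 4))) + ((12686271 / 10000000) * (x ^ 5))) + (((-3606929) / 1000000) * (x ^ 6))) + ((27672357 / 5000000) * (x ^ 7))) + (((-4372693) / 1000000) * (x ^ 8))) + ((7019677 / 5000000) * (x ^ 9))

theorem v_eV (x y t : ℝ) : val eV x y t = 10000000 * (f_eV x y t) := by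
  simp only [nd0, nd2, nd34, nd37, nd40, nd43, nd46, nd200, nd201, nd202, nd203, nd204, nd205, nd206, nd207, nd208, nd209, nd210, nd211, nd212, nd213, nd214, nd215, nd216, nd217, nd218, eV, val_f, val_h, val_m, val_vx]
  unfold f_eV
  push_cast
  ring

/-- real function of el -/
noncomputable def f_el (x y t : ℝ) : ℝ := (((42571 / 80000000) + ((534150810303 / 500000000000000) * (x ^ 1))) + (((-8409557459459) / 4000000000000000) * (x ^ 2))) + ((4425112539153 / 8000000000000000) * (x ^ 3))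

theorem v_el (x y t : ℝ) : val el x y t = (8000000000000000 / 42571) * (f_el x y t) := by
  simp only [nd0, nd2, nd34, nd37, nd220, nd221, nd222, nd223, el, val_f, val_h, val_m, val_vx]
  unfold f_el
  push_cast
  ring

/-- real function of g0O -/
noncomputable def f_g0O (x y t : ℝ) : ℝ := (((240 * f_el x y t) - f_eV x y t) - ((3 / 250) * x)) - ((1 / 2) * (((1 - x) ^ 3) * f_eS11 x y t))

theorem v_g0O (x y t : ℝ) : val g0O x y t = 227026800000000000000000000000000000000000000000 * (f_g0O x y t) := by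
  simp only [nd0, nd2, nd225, nd226, nd227, nd228, nd229, nd230, nd231, nd232, nd233, nd234, nd235, nd236, nd237, nd238, nd239, nd240, g0O, v_eS11, v_eV, v_el, val_f, val_h, val_m, val_vx]
  unfold f_g0O
  push_cast
  ring


theorem KT_eq (x y t : ℝ) : f_eS11 x y t =
    Kt 11 4 cA x x (1 - 2 / 5 * x) ((1 - 2 / 5 * x) * (1 - 2 / 5 * x)) := by
  rw [Kt_eq]
  simp only [f_eS11, f_eS10, f_eS9, f_eS8, f_eS7, f_eS6, f_eS5, f_eS4, f_eS3, f_eS2, f_eS1, f_eP, f_eM]

theorem l_eq (x y t : ℝ) : ∑ i ∈ range 4, cA 0 i 0 * x ^ i = f_el x y t := by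
  unfold cA f_el
  simp only [sum_range_succ, sum_range_zero, cw, cL, cL0]
  ring

theorem V_eq (x y t : ℝ) : PW.VV x = f_eV x y t := by
  unfold PW.VV f_eV
  ring

/-- parameters -/
def P0O : Par := ⟨401, 20, 0, 0, 1024, 1, 1, 2048, 2, 2⟩

theorem hP0O : chkPar P0O g0O = true := by decide +kernel

/-- subdivision -/
def T0 : Tr := (.sx 512 (.sx 256 (.sx 128 (.sx 64 .lf .lf) .lf) .lf) (.sx 768 (.sx 640 .lf .lf) .lf))

theorem hT0 : chkTr P0O g0O T0 ⟨0, 1024, 0, 1, 0, 1⟩ = true := by decide +kernel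

theorem region (x : ℝ) (hx0 : 0 ≤ x) (hx1 : x ≤ 1) :
    PW.VV x + 12 / 1000 * x + 1 / 2 * ((1 - x) ^ 3 *
      Kt 11 4 cA x x (1 - 2 / 5 * x) ((1 - 2 / 5 * x) * (1 - 2 / 5 * x))) ≤
      240 * ∑ i ∈ range 4, cA 0 i 0 * x ^ i := by
  have h1 := chkTr_sound P0O g0O hP0O T0 ⟨0, 1024, 0, 1, 0, 1⟩ hT0 x 0 0
    (by simp only [P0O]; push_cast; linarith) (by simp only [P0O]; push_cast; linarith)
    (by simp only [P0O]; push_cast; norm_num) (by simp only [P0O]; push_cast; norm_num)
    (by simp only [P0O]; push_cast; norm_num) (by simp only [P0O]; push_cast; norm_num)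
  rw [v_g0O] at h1
  have h2 : 0 ≤ f_g0O x 0 0 := nonneg_of_mul_nonneg_right h1 (by norm_num)
  rw [l_eq x 0 0, V_eq x 0 0, ← KT_eq x 0 0]
  unfold f_g0O at h2
  linarith


end Pool.Agent.Lib.MP_f1379f_gt.FV.CK.Or
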