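import Pool.Agent.Lib.MP_f1379f_gt.FV.X4
import Pool.Agent.Lib.MP_f1379f_gt.FV.SpecE
import Pool.Agent.Lib.MP_f1379f_gt.FV.PWH

/-!
# QVD: lower bound of the quadruple volume `s4`, upper bound of the tail of the E8 cell
-/

set_option autoImplicit false
set_option linter.unusedSimpArgs false

namespace Pool.Agent.Lib.MP_f1379f_gt.FV.QV

open MeasureTheory Real

/-- `√10/4`. -/
noncomputable def cA : ℝ := √10 / 4
/-- `√2/4`. -/
noncomputable def cB : ℝ := √2 / 4

theorem cA_sq : cA ^ 2 = 5 / 8 := by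
  unfold cA; rw [div_pow, Real.sq_sqrt (by norm_num)]; norm_num

theorem cB_sq : cB ^ 2 = 1 / 8 := by
  unfold cB; rw [div_pow, Real.sq_sqrt (by norm_num)]; norm_num

/-- The matrix of the four vectors. -/
noncomputable def MM : Matrix (Fin 4) (Fin 4) ℝ :=
  !![cA, cB, cB, cB; cA, cB, -cB, -cB; cA, -cB, cB, -cB; cA, -cB, -cB, cB]

theorem det_MM : MM.det = -(16 * cA * cB ^ 3) := by
  have s00 : Fin.succAbove (0 : Fin 4) (0 : Fin 3) = 1 := by decide
  have s01 : Fin.succAbove (0 : Fin 4) (1 : Fin 3) = 2 := by decide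
  have s02 : Fin.succAbove (0 : Fin 4) (2 : Fin 3) = 3 := by decide
  have s10 : Fin.succAbove (1 : Fin 4) (0 : Fin 3) = 0 := by decide
  have s11 : Fin.succAbove (1 : Fin 4) (1 : Fin 3) = 2 := by decide
  have s12 : Fin.succAbove (1 : Fin 4) (2 : Fin 3) = 3 := by decide
  have s20 : Fin.succAbove (2 : Fin 4) (0 : Fin 3) = 0 := by decide
  have s21 : Fin.succAbove (2 : Fin 4) (1 : Fin 3) = 1 := by decide
  have s22 : Fin.succAbove (2 : Fin 4) (2 : Fin 3) = 3 := by decide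
  have s30 : Fin.succAbove (3 : Fin 4) (0 : Fin 3) = 0 := by decide
  have s31 : Fin.succAbove (3 : Fin 4) (1 : Fin 3) = 1 := by decide
  have s32 : Fin.succAbove (3 : Fin 4) (2 : Fin 3) = 2 := by decide
  unfold MM
  rw [Matrix.det_succ_row_zero]
  simp only [Fin.sum_univ_four, Matrix.det_fin_three, Matrix.submatrix_apply, s00, s01, s02, s10, s11, s12, s20, s21, s22, s30, s31, s32]
  simp
  ring

theorem det_abs : |(MM.det)⁻¹| = 4 / √5 := by
  rw [det_MM, abs_inv, abs_neg]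
  have hA : 0 < cA := by unfold cA; positivity
  have hB : 0 < cB := by unfold cB; positivity
  rw [abs_of_pos (by positivity)]
  have h5 : 0 < √(5 : ℝ) := Real.sqrt_pos.mpr (by norm_num)
  have h5s : √(5 : ℝ) ^ 2 = 5 := Real.sq_sqrt (by norm_num)
  have e : 16 * cA * cB ^ 3 = √5 / 4 := by
    have h1 : (16 * cA * cB ^ 3) ^ 2 = (√5 / 4) ^ 2 := by
      have : (16 * cA * cB ^ 3) ^ 2 = 256 * cA ^ 2 * (cB ^ 2) ^ 3 := by ring
      have e2 : (√5 / 4 : ℝ) ^ 2 = 5 / 16 := by rw [div_pow, h5s]; norm_num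
      rw [this, cA_sq, cB_sq, e2]
      norm_num
    exact (pow_left_inj₀ (by positivity) (by positivity) two_ne_zero).mp h1
  rw [e, inv_div]

theorem det_ne : MM.det ≠ 0 := by
  rw [det_MM]
  have hA : 0 < cA := by unfold cA; positivity
  have hB : 0 < cB := by unfold cB; positivity
  have : 0 < 16 * cA * cB ^ 3 := by positivity
  linarith

theorem norm_e3 : ‖e3‖ = 1 := by
  rw [EuclideanSpace.norm_eq]
  simp [e3, Fin.sum_univ_eight]
  norm_num

theorem inner_e03 : (inner ℝ e0 e3 : ℝ) = 1 / 2 := by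
  simp [e0, e3, PiLp.inner_apply, Fin.sum_univ_eight]

theorem inner_e13 : (inner ℝ e1 e3 : ℝ) = 1 / 2 := by
  simp [e1, e3, PiLp.inner_apply, Fin.sum_univ_eight]
  norm_num

theorem inner_e23 : (inner ℝ e2 e3 : ℝ) = 1 / 2 := by
  simp [e2, e3, PiLp.inner_apply, Fin.sum_univ_eight]
  norm_num

/-- Inner products of combinations. -/
theorem gin (a0 a1 a2 a3 b0 b1 b2 b3 : ℝ) :
    (inner ℝ (a0 • e0 + a1 • e1 + a2 • e2 + a3 • e3) (b0 • e0 + b1 • e1 + b2 • e2 + b3 • e3) : ℝ) =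
      (a0 * b0 + a1 * b1 + a2 * b2 + a3 * b3) / 2 +
        (a0 + a1 + a2 + a3) * (b0 + b1 + b2 + b3) / 2 := by
  have i00 : (inner ℝ e0 e0 : ℝ) = 1 := by rw [real_inner_self_eq_norm_sq, PV.norm_e0]; norm_num
  have i11 : (inner ℝ e1 e1 : ℝ) = 1 := by rw [real_inner_self_eq_norm_sq, PV.norm_e1]; norm_num
  have i22 : (inner ℝ e2 e2 : ℝ) = 1 := by rw [real_inner_self_eq_norm_sq, TV.norm_e2]; norm_num
  have i33 : (inner ℝ e3 e3 : ℝ) = 1 := by rw [real_inner_self_eq_norm_sq, norm_e3]; norm_num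
  have i01 := PV.inner_e01
  have i02 := TV.inner_e02
  have i12 := TV.inner_e12
  have i03 := inner_e03
  have i13 := inner_e13
  have i23 := inner_e23
  have i10 : (inner ℝ e1 e0 : ℝ) = 1 / 2 := by rw [real_inner_comm]; exact i01
  have i20 : (inner ℝ e2 e0 : ℝ) = 1 / 2 := by rw [real_inner_comm]; exact i02
  have i21 : (inner ℝ e2 e1 : ℝ) = 1 / 2 := by rw [real_inner_comm]; exact i12
  have i30 : (inner ℝ e3 e0 : ℝ) = 1 / 2 := by rw [real_inner_comm]; exact i03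
  have i31 : (inner ℝ e3 e1 : ℝ) = 1 / 2 := by rw [real_inner_comm]; exact i13
  have i32 : (inner ℝ e3 e2 : ℝ) = 1 / 2 := by rw [real_inner_comm]; exact i23
  simp only [inner_add_left, inner_add_right, real_inner_smul_left, real_inner_smul_right,
    i00, i11, i22, i33, i01, i02, i12, i03, i13, i23, i10, i20, i21, i30, i31, i32]
  ring

/-- The orthonormal frame. -/
noncomputable def ff : Fin 4 → E :=
  ![(2 * cA / 5) • e0 + (2 * cA / 5) • e1 + (2 * cA / 5) • e2 + (2 * cA / 5) • e3,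
    (2 * cB) • e0 + (2 * cB) • e1 + (-(2 * cB)) • e2 + (-(2 * cB)) • e3,
    (2 * cB) • e0 + (-(2 * cB)) • e1 + (2 * cB) • e2 + (-(2 * cB)) • e3,
    (2 * cB) • e0 + (-(2 * cB)) • e1 + (-(2 * cB)) • e2 + (2 * cB) • e3]

theorem ff_orth : Orthonormal ℝ ff := by
  have hA := cA_sq
  have hB := cB_sq
  rw [orthonormal_iff_ite]
  intro i j
  fin_cases i <;> fin_cases j <;>
    simp only [ff, Fin.zero_eta, Fin.mk_one, Fin.reduceFinMk, Matrix.cons_val_zero,
      Matrix.cons_val_one, Matrix.cons_val] <;> rw [gin] <;> simp <;> nlinarith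

/-- The map from products to coordinates. -/
theorem coords (y : E) : Matrix.toLin' MM (fun i => (inner ℝ (ff i) y : ℝ)) =
    ![inner ℝ e0 y, inner ℝ e1 y, inner ℝ e2 y, inner ℝ e3 y] := by
  have hA := cA_sq
  have hB := cB_sq
  funext i
  fin_cases i <;>
    simp [Matrix.toLin'_apply, MM, Matrix.mulVec, dotProduct, Fin.sum_univ_four, ff,
      inner_add_left, real_inner_smul_left]
  · linear_combination (2 / 5 * (inner ℝ e0 y + inner ℝ e1 y + inner ℝ e2 y + inner ℝ e3 y)) * hA +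
      (8 * inner ℝ e0 y - 2 * (inner ℝ e0 y + inner ℝ e1 y + inner ℝ e2 y + inner ℝ e3 y)) * hB
  · linear_combination (2 / 5 * (inner ℝ e0 y + inner ℝ e1 y + inner ℝ e2 y + inner ℝ e3 y)) * hA +
      (8 * inner ℝ e1 y - 2 * (inner ℝ e0 y + inner ℝ e1 y + inner ℝ e2 y + inner ℝ e3 y)) * hB
  · linear_combination (2 / 5 * (inner ℝ e0 y + inner ℝ e1 y + inner ℝ e2 y + inner ℝ e3 y)) * hA +
      (8 * inner ℝ e2 y - 2 * (inner ℝ e0 y + inner ℝ e1 y + inner ℝ e2 y + inner ℝ e3 y)) * hB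
  · linear_combination (2 / 5 * (inner ℝ e0 y + inner ℝ e1 y + inner ℝ e2 y + inner ℝ e3 y)) * hA +
      (8 * inner ℝ e3 y - 2 * (inner ℝ e0 y + inner ℝ e1 y + inner ℝ e2 y + inner ℝ e3 y)) * hB

theorem norm_form (p : Fin 4 → ℝ) : ∑ i, p i ^ 2 = 2 * ∑ i, (Matrix.toLin' MM p) i ^ 2 -
    2 / 5 * (∑ i, (Matrix.toLin' MM p) i) ^ 2 := by
  have hA := cA_sq
  have hB := cB_sq
  simp only [Matrix.toLin'_apply, MM, Matrix.mulVec, dotProduct, Fin.sum_univ_four,
    Matrix.of_apply, Matrix.cons_val', Matrix.cons_val_zero, Matrix.cons_val_one, Matrix.cons_val]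
  linear_combination (-(8 * p 0 ^ 2) + 32 / 5 * p 0 ^ 2) * hA -
    8 * (p 1 ^ 2 + p 2 ^ 2 + p 3 ^ 2) * hB

/-- The integrand in product coordinates. -/
noncomputable def Gf (z : Fin 4 → ℝ) : ENNReal :=
  if ∀ i, 1 < z i then ENNReal.ofReal (π ^ 2 / 2 *
    (max 0 (5 / 3 - (2 * ∑ i, z i ^ 2 - 2 / 5 * (∑ i, z i) ^ 2))) ^ 2) else 0

theorem meas_Gf : Measurable Gf := by
  unfold Gf
  apply Measurable.ite
  · have : {z : Fin 4 → ℝ | ∀ i, 1 < z i} = ⋂ i, {z | 1 < z i} := by ext z; simp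
    rw [this]
    exact MeasurableSet.iInter fun i => measurableSet_lt measurable_const (measurable_pi_apply i)
  · fun_prop
  · exact measurable_const

/-- The shift. -/
def one4 : Fin 4 → ℝ := fun _ => 1

theorem Gf_shift (a b c d : ℝ) : Gf (![a, b, c, d] + one4) =
    if 0 < a ∧ 0 < b ∧ 0 < c ∧ 0 < d then
      ENNReal.ofReal (π ^ 2 / 2 * (max 0 (P4 a b c d)) ^ 2) else 0 := by
  unfold Gf
  have hiff : (∀ i : Fin 4, 1 < (![a, b, c, d] + one4) i) ↔ 0 < a ∧ 0 < b ∧ 0 < c ∧ 0 < d := by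
    constructor
    · intro h
      have h0 := h 0
      have h1 := h 1
      have h2 := h 2
      have h3 := h 3
      simp only [Pi.add_apply, one4, Matrix.cons_val_zero, Matrix.cons_val_one, Matrix.cons_val] at h0 h1 h2 h3
      exact ⟨by linarith, by linarith, by linarith, by linarith⟩
    · rintro ⟨h0, h1, h2, h3⟩ i
      fin_cases i <;> simp [one4] <;> assumption
  by_cases h : 0 < a ∧ 0 < b ∧ 0 < c ∧ 0 < d
  · rw [if_pos (hiff.mpr h), if_pos h]
    congr 3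
    simp only [Fin.sum_univ_four, Pi.add_apply, one4, Matrix.cons_val_zero, Matrix.cons_val_one,
      Matrix.cons_val]
    unfold P4
    congr 1
    ring
  · rw [if_neg (fun h2 => h (hiff.mp h2)), if_neg h]

theorem vol_quad : volume (cap e0 ∩ cap e1 ∩ cap e2 ∩ cap e3) = ENNReal.ofReal (4 / √5) *
    ∫⁻ a in Set.Ioi (0 : ℝ), ∫⁻ b in Set.Ioi (0 : ℝ), ∫⁻ c in Set.Ioi (0 : ℝ),
      ∫⁻ d in Set.Ioi (0 : ℝ), ENNReal.ofReal (π ^ 2 / 2 * (max 0 (P4 a b c d)) ^ 2) := by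
  let A : Set (Fin 4 → ℝ) := {p | ∀ i, 1 < Matrix.toLin' MM p i}
  have hm : Measurable (Matrix.toLin' MM : (Fin 4 → ℝ) → (Fin 4 → ℝ)) :=
    (LinearMap.continuous_of_finiteDimensional _).measurable
  have hA : MeasurableSet A := by
    have : A = ⋂ i, {p | 1 < Matrix.toLin' MM p i} := by ext p; simp [A]
    rw [this]
    exact MeasurableSet.iInter fun i =>
      measurableSet_lt measurable_const ((measurable_pi_apply i).comp hm)
  have hset : cap e0 ∩ cap e1 ∩ cap e2 ∩ cap e3 =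
      {y : E | (fun i => (inner ℝ (ff i) y : ℝ)) ∈ A ∧ ‖y‖ ^ 2 < 5 / 3} := by
    ext y
    simp only [Set.mem_inter_iff, cap, Set.mem_ofPred_eq, A, coords]
    constructor
    · rintro ⟨⟨⟨⟨h, h0⟩, ⟨_, h1⟩⟩, ⟨_, h2⟩⟩, ⟨_, h3⟩⟩
      refine ⟨?_, h⟩
      intro i
      fin_cases i
      · exact h0
      · exact h1
      · exact h2
      · exact h3
    · rintro ⟨h, hy⟩
      exact ⟨⟨⟨⟨hy, h 0⟩, ⟨hy, h 1⟩⟩, ⟨hy, h 2⟩⟩, ⟨hy, h 3⟩⟩
  rw [hset, slice_vol (by norm_num) ff ff_orth (5 / 3) A hA, ← lintegral_indicator hA]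
  have e1 : ∀ p : Fin 4 → ℝ, A.indicator (fun p => ENNReal.ofReal (π ^ 2 / 2 *
      (max 0 (5 / 3 - ∑ i, p i ^ 2)) ^ 2)) p = Gf (Matrix.toLin' MM p) := by
    intro p
    unfold Gf
    rw [← norm_form]
    by_cases h : p ∈ A
    · rw [Set.indicator_of_mem h, if_pos (show ∀ i, 1 < Matrix.toLin' MM p i from h)]
    · rw [Set.indicator_of_notMem h, if_neg (show ¬ ∀ i, 1 < Matrix.toLin' MM p i from h)]
  rw [lintegral_congr e1, lin_change MM det_ne Gf meas_Gf, det_abs,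
    ← lintegral_add_right_eq_self Gf one4, it_four]
  · congr 1
    rw [← lintegral_indicator measurableSet_Ioi]
    apply lintegral_congr
    intro a
    by_cases ha : 0 < a
    · rw [Set.indicator_of_mem (show a ∈ Set.Ioi (0 : ℝ) from ha),
        ← lintegral_indicator measurableSet_Ioi]
      apply lintegral_congr
      intro b
      by_cases hb : 0 < b
      · rw [Set.indicator_of_mem (show b ∈ Set.Ioi (0 : ℝ) from hb),
          ← lintegral_indicator measurableSet_Ioi]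
        apply lintegral_congr
        intro c
        by_cases hc : 0 < c
        · rw [Set.indicator_of_mem (show c ∈ Set.Ioi (0 : ℝ) from hc),
            ← lintegral_indicator measurableSet_Ioi]
          apply lintegral_congr
          intro d
          rw [Gf_shift]
          by_cases hd : 0 < d
          · rw [Set.indicator_of_mem (show d ∈ Set.Ioi (0 : ℝ) from hd), if_pos ⟨ha, hb, hc, hd⟩]
          · rw [Set.indicator_of_notMem (show d ∉ Set.Ioi (0 : ℝ) from hd),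
              if_neg (fun h => hd h.2.2.2)]
        · rw [Set.indicator_of_notMem (show c ∉ Set.Ioi (0 : ℝ) from hc)]
          simp only [Gf_shift]
          simp [hc]
      · rw [Set.indicator_of_notMem (show b ∉ Set.Ioi (0 : ℝ) from hb)]
        simp only [Gf_shift]
        simp [hb]
    · rw [Set.indicator_of_notMem (show a ∉ Set.Ioi (0 : ℝ) from ha)]
      simp only [Gf_shift]
      simp [ha]
  · exact meas_Gf.comp (by fun_prop)

/-- **Lower bound of the quadruple volume.** -/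
theorem s4_lower : 0.00000000469 < s4 := by
  have h := orthant4 (π ^ 2 / 2) (by positivity)
  have h5 : 0 < √(5 : ℝ) := Real.sqrt_pos.mpr (by norm_num)
  have h5l : √(5 : ℝ) < 2.2360680 := by rw [Real.sqrt_lt' (by norm_num)]; norm_num
  have hI := int_m3
  have hp := Real.pi_gt_d6
  have hv : ENNReal.ofReal (4 / √5 * (π ^ 2 / 2 *
      (∫ s in (0 : ℝ)..(2 / 25), s ^ 3 / 6 * (m3 s) ^ 2))) ≤
      volume (cap e0 ∩ cap e1 ∩ cap e2 ∩ cap e3) := by
    rw [vol_quad, ENNReal.ofReal_mul (by positivity)]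
    gcongr
  have hfin : volume (cap e0 ∩ cap e1 ∩ cap e2 ∩ cap e3) ≠ ⊤ := by
    have hsub : cap e0 ∩ cap e1 ∩ cap e2 ∩ cap e3 ⊆ Metric.ball (0 : E) 2 := by
      rintro y ⟨⟨⟨⟨hy, _⟩, _⟩, _⟩, _⟩
      rw [mem_ball_zero_iff]
      nlinarith [norm_nonneg y]
    exact ne_top_of_le_ne_top measure_ball_lt_top.ne (measure_mono hsub)
  have hs : 4 / √5 * (π ^ 2 / 2 * (∫ s in (0 : ℝ)..(2 / 25), s ^ 3 / 6 * (m3 s) ^ 2)) ≤ s4 := by
    unfold s4 v4
    rw [← ENNReal.ofReal_le_iff_le_toReal hfin]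
    exact hv
  refine lt_of_lt_of_le ?_ hs
  obtain ⟨I, hIe⟩ : ∃ I, I = ∫ s in (0 : ℝ)..(2 / 25), s ^ 3 / 6 * (m3 s) ^ 2 := ⟨_, rfl⟩
  rw [← hIe] at hI ⊢
  have q1 : 9.8696 < π ^ 2 := by nlinarith
  have q2 : 1.78885 < 4 / √5 := by
    rw [lt_div_iff₀ h5]
    nlinarith
  have q3 : 9.8696 / 2 * 0.00000000053147 < π ^ 2 / 2 * I := by nlinarith
  have q4 : 1.78885 * (9.8696 / 2 * 0.00000000053147) < 4 / √5 * (π ^ 2 / 2 * I) := by
    have : 0 < π ^ 2 / 2 * I := lt_trans (by norm_num) q3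
    nlinarith
  refine lt_trans ?_ q4
  norm_num

theorem T0_gt : 15.99173 < T0 := by
  unfold T0
  obtain ⟨a1, a2⟩ := PV.c1_bounds
  obtain ⟨b1, b2⟩ := TV.GG_bounds
  obtain ⟨c1, c2⟩ := PV.vol_bal_bounds
  linarith

/-- The tail of the E8 cell. -/
theorem tail (h : SpecE8V) : (volume (poly UE \ bal)).toReal < 0.007136 := by
  have h1 := h.cell
  have h2 := T0_gt
  have h3 := s4_lower
  linarith

end Pool.Agent.Lib.MP_f1379f_gt.FV.QV
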