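import Pool.Agent.Lib.MP_f1379f_gt.FV.SpecE

/-!
# MP_f1379f_gt, full Q1, block O: the part of the cell outside the ball

Exact Specs, complete elementary proofs in the docstrings.  RESULT of the block (SpecOUT): if the 240
unit roots e of E8 (UE) are displaced to u e = e + d_e, |u e| <= 1, |d_e| <= 17/100, then
  vol({y : <u e,y> <= 1 for all e} \ bal) >= vol(poly UE \ bal) - sum_e (.041 |d_e|^2 + .85 |d_e|^4);
more generally with weights th_e > 0, th_a + th_e <= 1, |d_e| <= .34 th_e (a few vectors may be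
displaced more) the loss is at most sum_e (.0204 |d_e|^2/th_e + .106 |d_e|^4/th_e^3).
Any Spec may be used as a hypothesis of another module; row 192 is assembled in EV/All.lean
(EV.All.hROT, hCNT, hLPI, hCLO, hPOL, hCOV, hVOL, hCON, hSYM, hNRM), row 199 in FV/AllA.lean.

NOTATION: <,> = inner, |.| = norm.  m0(y) = mx id y = max_e <e,y>, W = WW = {5 m0^2 < 3 |y|^2}.
muW = (1/8!) e^{-m0(y)} dy on W.  Kc e = cone over the facet of e.  nb a = the 56 neighbours of a,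
ob a = the 126 roots orthogonal to a.  For e in nb a: Sp e a = the orthogonal complement of
span(e,a) (dimension 6, `volume` = the Lebesgue measure of this inner product space, as in GSL.lean),
27(e,a) = {b in UE : <b,e> = <b,a> = 1/2}, F6 e a = {x in Sp e a : <b,x> <= 1/3 for all b in 27(e,a)}
(the wall of poly UE where e and a touch is (2/3)(e+a) + F6), F6o = its part |x|^2 > 1/3,
nuP e a = image of the volume of F6o under x -> v = (2/3)e - (1/3)a + x (v is orthogonal to a,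
v + a is the wall point, |v|^2 = 1/3 + |x|^2), nuA a = sum over e in nb a.
-/

set_option autoImplicit false

namespace Pool.Agent.Lib.MP_f1379f_gt.FV

open MeasureTheory

/-- Maximum of the 240 functionals `<u e, .>`. -/
noncomputable def mx (u : E → E) (y : E) : ℝ := ⨆ e : UE, (inner ℝ (u e) y : ℝ)

/-- Directions in which the E8 cell leaves the ball. -/
def WW : Set E := {y | 5 * mx id y ^ 2 < 3 * ‖y‖ ^ 2}

/-- The weight. -/
noncomputable def muW : Measure E :=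
  (volume.restrict WW).withDensity fun y => ENNReal.ofReal (Real.exp (-mx id y) / 40320)

/-- The cone over the facet of `e`. -/
def Kc (e : E) : Set E := {y | ∀ s ∈ UE, (inner ℝ s y : ℝ) ≤ inner ℝ e y}

open Classical in
/-- The 56 neighbours. -/
noncomputable def nb (a : E) : Finset E := UE.filter fun e => (inner ℝ e a : ℝ) = 1 / 2

open Classical in
/-- The 126 orthogonal roots. -/
noncomputable def ob (a : E) : Finset E := UE.filter fun e => (inner ℝ e a : ℝ) = 0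

/-- Second gap on the cone of `a` (minimum over the neighbours). -/
noncomputable def g2 (a y : E) : ℝ := ⨅ e : nb a, ((inner ℝ a y : ℝ) - inner ℝ (e : E) y)

/-- Minus the radial part of the displacement. -/
noncomputable def lam (u : E → E) (a : E) : ℝ := -(inner ℝ (u a - a) a : ℝ)

/-- The tangential part of the displacement. -/
noncomputable def del (u : E → E) (a : E) : E := (u a - a) + lam u a • a

/-- The one-vector loss. -/
noncomputable def NN (a D : E) : ℝ :=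
  (∑ e ∈ UE.erase a, ∫ y in Kc e,
      max 0 ((inner ℝ D y : ℝ) - ((inner ℝ e y : ℝ) - inner ℝ a y)) ∂muW)
    + ∫ y in Kc a, max 0 (-(inner ℝ D y : ℝ) - g2 a y) ∂muW

/-- Orthogonal complement of `span(e,a)`. -/
noncomputable def Sp (e a : E) : Submodule ℝ E := (Submodule.span ℝ {e, a})ᗮ

/-- The wall polytope. -/
def F6 (e a : E) : Set (Sp e a) :=
  {x | ∀ b ∈ UE, (inner ℝ b e : ℝ) = 1 / 2 → (inner ℝ b a : ℝ) = 1 / 2 →
    (inner ℝ b (x : E) : ℝ) ≤ 1 / 3}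

/-- Its part outside the ball. -/
def F6o (e a : E) : Set (Sp e a) := {x | x ∈ F6 e a ∧ 1 / 3 < ‖x‖ ^ 2}

/-- See the header. -/
noncomputable def nuP (e a : E) : Measure E :=
  Measure.map (fun x : Sp e a => (2 / 3 : ℝ) • e - (1 / 3 : ℝ) • a + (x : E))
    (volume.restrict (F6o e a))

/-- See the header. -/
noncomputable def nuA (a : E) : Measure E := ∑ e ∈ nb a, nuP e a

/-- The fibre integral. -/
noncomputable def JJ (x : ℝ) : ℝ := ((1 - x)⁻¹ ^ 7 - 1 - 7 * x) / 56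

/-- Lower bound of the volume over a wall point, `d = |x|^2 - 1/3`. -/
noncomputable def psl (d : ℝ) : ℝ := 129 / 2000 * d ^ 2 * (1 - d) ^ 4

/-! ## Combinatorics -/

/-- UEF (200 lines).  Basic facts on UE.
PROOF.  UE = {r/2 : r in EV.R}; EV.ROT.k240 and EV.LPI (products), EV.CLO (neg, sub, add, refl),
EV.COV, EV.CNT (c56, orp, S), CNE.n27.  `one`: |e-f|^2 = 0.  c126: 240 - 2 - 2*56 by LPI and neg.
c12: CNT.S with f, g, z = f (norm^2 4): the sum is 16 + 2*16 = 48 and every term is <f,t>^2 = 4, so 12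
vectors t.  c16: CNE.n16.  com3: CNT.S with f = 2s, g = 2s', z = 2a (orthogonal to both): sum over the 12 common
neighbours t of s, s' of <2a,2t>^2 = 4*4 = 16, each term is 0 or 4 (<a,t> = ±1 is impossible), so 8
of the 12 are orthogonal to a. -/
structure SpecUEF : Prop where
  nrm : ∀ e ∈ UE, ‖e‖ = 1
  ip : ∀ e ∈ UE, ∀ f ∈ UE, (inner ℝ e f : ℝ) = 1 ∨ (inner ℝ e f : ℝ) = 1 / 2 ∨
    (inner ℝ e f : ℝ) = 0 ∨ (inner ℝ e f : ℝ) = -1 / 2 ∨ (inner ℝ e f : ℝ) = -1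
  one : ∀ e ∈ UE, ∀ f ∈ UE, (inner ℝ e f : ℝ) = 1 → e = f
  neg : ∀ e ∈ UE, -e ∈ UE
  sub : ∀ e ∈ UE, ∀ f ∈ UE, (inner ℝ e f : ℝ) = 1 / 2 → e - f ∈ UE
  add : ∀ e ∈ UE, ∀ f ∈ UE, (inner ℝ e f : ℝ) = -1 / 2 → e + f ∈ UE
  refl : ∀ e ∈ UE, ∀ s ∈ UE, e - (2 * (inner ℝ e s : ℝ)) • s ∈ UE
  cov : ∀ y : E, ∃ e ∈ UE, 0 ≤ (inner ℝ e y : ℝ) ∧ ‖y‖ ^ 2 ≤ 2 * (inner ℝ e y : ℝ) ^ 2
  c240 : UE.card = 240
  c56 : ∀ a ∈ UE, (nb a).card = 56
  c126 : ∀ a ∈ UE, (ob a).card = 126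
  c27 : ∀ a ∈ UE, ∀ e ∈ nb a,
    ({b : E | b ∈ UE ∧ (inner ℝ b e : ℝ) = 1 / 2 ∧ (inner ℝ b a : ℝ) = 1 / 2}).ncard = 27
  c16 : ∀ a ∈ UE, ∀ e ∈ nb a, ∀ w ∈ UE, (inner ℝ w e : ℝ) = 1 / 2 → (inner ℝ w a : ℝ) = 1 / 2 →
    ({b : E | b ∈ UE ∧ (inner ℝ b e : ℝ) = 1 / 2 ∧ (inner ℝ b a : ℝ) = 1 / 2 ∧
      (inner ℝ b w : ℝ) = 1 / 2}).ncard = 16
  c12 : ∀ a ∈ UE, ∀ e ∈ ob a,
    ({b : E | b ∈ UE ∧ (inner ℝ b e : ℝ) = 1 / 2 ∧ (inner ℝ b a : ℝ) = 1 / 2}).ncard = 12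
  orp : ∀ a ∈ UE, ∀ z : E, (inner ℝ z a : ℝ) = 0 → (∀ s ∈ ob a, (inner ℝ z s : ℝ) = 0) → z = 0
  com3 : ∀ a ∈ UE, ∀ s ∈ ob a, ∀ t ∈ ob a, (inner ℝ s t : ℝ) = 0 →
    ∃ f ∈ ob a, (inner ℝ f s : ℝ) = 1 / 2 ∧ (inner ℝ f t : ℝ) = 1 / 2

/-- TRA (150 lines).  Transitivity.
PROOF.  Products of the reflections y - 2<s,y> s, s in UE (they preserve UE, UEF.refl).  one: if
<a,b> = 1/2, s = a - b in UE maps a to b; connect arbitrary a, b (EV.CNT.con, or: <a,b> = 0 common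
neighbour, c12; <a,b> < 0: -b...).  two: first move a to a' (one); now a = a', e, e' in nb a.  If
<e,e'> = 1/2: s = e - e' is orthogonal to a and maps e to e'.  If <e,e'> = 0: b = e + e' - a (in UE:
e' - a in UE, <e, e'-a> = -1/2) is a common neighbour of e, e'; for a common neighbour f of e, e'
other than a, b: <f,a> + <f,b> = <f,e+e'> = 1 with both <= 1/2, so f in nb a, <f,e> = <f,e'> = 1/2 and
two steps suffice (12 common neighbours exist, c12).  If <e,e'> = -1/2 then e' = a - e (|e+e'-a|^2 =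
3 - 1 - 1 - 1 = 0); choose f in nb a with <f,e> = 1/2 (27 of them), then <f,e'> = 0: previous case. -/
structure SpecTRA : Prop where
  one : ∀ a ∈ UE, ∀ b ∈ UE, ∃ T : E ≃ₗᵢ[ℝ] E, (∀ f ∈ UE, T f ∈ UE) ∧ T a = b
  two : ∀ a ∈ UE, ∀ e ∈ nb a, ∀ a' ∈ UE, ∀ e' ∈ nb a',
    ∃ T : E ≃ₗᵢ[ℝ] E, (∀ f ∈ UE, T f ∈ UE) ∧ T a = a' ∧ T e = e'

/-- KCO (150 lines).  The cones.
PROOF.  mx id y = max over the finite set (le_ciSup, ciSup_le); cov: take a maximiser; nul: contained in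
the hyperplane <e-f,y> = 0; low: UEF.cov gives f with |y| <= sqrt 2 <f,y> <= sqrt 2 <e,y>; g2: minimum
over a finite nonempty set.  mxc: continuity (finite supremum). -/
structure SpecKCO : Prop where
  meas : ∀ e : E, MeasurableSet (Kc e)
  wmeas : MeasurableSet WW
  mxc : ∀ u : E → E, Continuous (mx u)
  g2c : ∀ a : E, Continuous (g2 a)
  le : ∀ (u : E → E), ∀ e ∈ UE, ∀ y : E, (inner ℝ (u e) y : ℝ) ≤ mx u y
  ge : ∀ (u : E → E) (y : E) (c : ℝ), (∀ e ∈ UE, (inner ℝ (u e) y : ℝ) ≤ c) → mx u y ≤ c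
  mxe : ∀ e ∈ UE, ∀ y ∈ Kc e, mx id y = inner ℝ e y
  cov : ∀ y : E, ∃ e ∈ UE, y ∈ Kc e
  nul : ∀ e ∈ UE, ∀ f ∈ UE, e ≠ f → volume (Kc e ∩ Kc f) = 0
  low : ∀ e ∈ UE, ∀ y ∈ Kc e, 0 ≤ (inner ℝ e y : ℝ) ∧ ‖y‖ ^ 2 ≤ 2 * (inner ℝ e y : ℝ) ^ 2
  g2le : ∀ a ∈ UE, ∀ e ∈ nb a, ∀ y : E, g2 a y ≤ (inner ℝ a y : ℝ) - inner ℝ e y
  g2ge : ∀ a ∈ UE, ∀ y ∈ Kc a, 0 ≤ g2 a y
  g2at : ∀ a ∈ UE, ∀ y : E, ∃ e ∈ nb a, g2 a y = (inner ℝ a y : ℝ) - inner ℝ e y

/-! ## Comparison of volumes -/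

/-- TLC (250 lines).  Comparison of the outer volumes.
PROOF.  Let u be as stated (or u = id), m = mx u, m0 = mx id, b(y) = sqrt(3/5) |y|.  By UEF.cov
m(y) >= (1/sqrt 2 - 17/50)|y| >= |y|/3, same for m0.  {y : all <u e,y> <= 1} = {m <= 1} (KCO); minus bal it
is {m <= 1 <= b}.  For t > 0 the set {m <= t <= b} is t times {m <= 1 <= b} (homogeneity), of volume
t^8 vol{m <= 1 <= b} (addHaar_smul), finite (|y| <= 3).  Tonelli for e^{-t} 1[m(y) <= t <= b(y)] on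
(0,oo) x E: 8! vol{m <= 1 <= b} = int (e^{-m} - e^{-b})+ dy (integral of t^8 e^{-t} = 8!,
Real.Gamma_nat_eq_factorial / integral_rpow_mul_exp; the inner integral over t is
(e^{-m} - e^{-b})+).  POINTWISE: (e^{-m} - e^{-b})+ >= (e^{-m0} - e^{-b})+ - 1[m0 < b] e^{-m0} (m - m0):
if m0 >= b the right side is 0; if m0 < b use e^{-m} >= e^{-m0} (1 - (m - m0)).  m0 < b iff y in WW
(m0 >= 0, squares).  Integrate: all functions are integrable, |y|^k e^{-|y|/3} is (m0 >= |y|/3;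
this is `int`; |m - m0| <= |y|).  sub: |y|(1/sqrt 2 - 1/5) <= 1, so |y| <= 1.973. -/
structure SpecTLC : Prop where
  int : ∀ k : ℕ, Integrable (fun y : E => ‖y‖ ^ k) muW
  main : ∀ u : E → E, (∀ e ∈ UE, ‖u e - e‖ ≤ 17 / 50) →
    (volume (poly UE \ bal)).toReal - ∫ y, (mx u y - mx id y) ∂muW ≤
      (volume ({y : E | ∀ e ∈ UE, (inner ℝ (u e) y : ℝ) ≤ 1} \ bal)).toReal
  sub : ∀ u : E → E, (∀ e ∈ UE, ‖u e - e‖ ≤ 1 / 5) →
    {y : E | ∀ e ∈ UE, (inner ℝ (u e) y : ℝ) ≤ 1} ⊆ Metric.ball (0 : E) 2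

/-- Hypotheses on the displacement: `th` are weights (e.g. all 1/2). -/
structure DSP (u : E → E) (th : E → ℝ) : Prop where
  le_one : ∀ a ∈ UE, ‖u a‖ ≤ 1
  pos : ∀ a ∈ UE, 0 < th a
  small : ∀ a ∈ UE, ‖u a - a‖ ≤ 17 / 50 * th a
  sum : ∀ a ∈ UE, ∀ e ∈ UE, a ≠ e → th a + th e ≤ 1

/-- PTW (150 lines).  Pointwise splitting.
PROOF.  d_a = u a - a, lam = lam u a = -<d_a,a> = (1 - |u a|^2 + |d_a|^2)/2 >= 0, del u a orthogonal to
a, d_a = -lam a + del.  Put x_a = <d_a,y>, g_a = <e,y> - <a,y> >= 0.  For a = e: <u e,y> - <e,y> = x_e.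
For a /= e: <u a,y> - <e,y> = x_e + (x_a - x_e - g_a) <= x_e + (x_a - th_a g_a)+ + (-x_e - th_e g_a)+
(as (th_a + th_e) g_a <= g_a) and g_a >= g2 e y (see below).  (A) (x_a - th_a g_a)+ = th_a (x_a/th_a - g_a)+
<= th_a (<del u a,y>/th_a - g_a)+: if <a,y> >= 0 because x_a = -lam<a,y> + <del,y>; if <a,y> < 0 the left
side is 0: g_a >= <e,y> >= |y|/sqrt 2 >= (17/50)|y| >= x_a/th_a.  (B) (-x_e - th_e g2)+ =
(lam_e<e,y> - <del u e,y> - th_e g2)+ <= lam_e <e,y> + th_e (-<del u e,y>/th_e - g2)+.  Sum: the terms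
x_e = -lam_e<e,y> + <del u e,y> and lam_e<e,y> give <del u e,y>.  Take the maximum over a (KCO.ge), the
sum over a dominates the maximum (all terms are >= 0; for a = e: x_e <= <del u e,y>).
(g_a >= g2 e y for a /= e in UE: a in nb e: KCO.g2le.  <a,e> = 0: choose a common neighbour b (c12), b' =
e + a - b in UE is one too; g_b + g_b' = 2<e,y> - <e+a,y> = g_a, so g2 <= min(g_b,g_b') <= g_a/2 <= g_a.
<a,e> = -1/2: a + e in UE, so <a,y> <= 0 and g_a >= <e,y>; a = -e: the same; and g2 <= <e,y>/2, as for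
b in nb e also e - b in nb e and <b,y> + <e-b,y> = <e,y>.) -/
def SpecPTW : Prop :=
  ∀ (u : E → E) (th : E → ℝ), DSP u th →
    ∀ e ∈ UE, ∀ y ∈ Kc e,
      mx u y - mx id y ≤ (inner ℝ (del u e) y : ℝ)
        + ∑ a ∈ UE.erase e, th a *
            max 0 ((inner ℝ ((th a)⁻¹ • del u a) y : ℝ) - ((inner ℝ e y : ℝ) - inner ℝ a y))
        + th e * max 0 (-(inner ℝ ((th e)⁻¹ • del u e) y : ℝ) - g2 e y)

/-- MO1 (150 lines).  First moment on a cone.
PROOF.  As EV.SYM.mom.  m(b) = int_{Kc e} <b,y> dmuW is linear in b (integrable by TLC.int).  For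
s in ob e the reflection r_s y = y - 2<s,y> s is a linear isometry, preserves UE (UEF.refl), so mx id,
WW and Kc e (r_s e = e), hence muW and m(r_s b) = m(b), i.e. <b,s> m(s) = 0 for all b; b = s: m(s) = 0.
m(b) = <b,M>; M - <M,e> e is orthogonal to e and to all s in ob e: 0 by UEF.orp.  So m(b) = 0. -/
def SpecMO1 : Prop :=
  ∀ e ∈ UE, ∀ b : E, (inner ℝ b e : ℝ) = 0 → ∫ y in Kc e, (inner ℝ b y : ℝ) ∂muW = 0

/-- RD1 (150 lines).  Reduction to one-vector integrals.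
PROOF.  int (mx u - mx id) dmuW = sum_e int_{Kc e} (KCO.cov, KCO.nul; muW is absolutely continuous).
Insert PTW; int_{Kc e} <del u e,y> = 0 (MO1, del u e orthogonal to e as |e| = 1).  Exchange the sums over
e and a /= e.  All integrands are measurable and bounded by C|y| (TLC.int); the left integrand is
|mx u - mx id| <= |y|. -/
def SpecRD1 : Prop :=
  ∀ (u : E → E) (th : E → ℝ), DSP u th →
    ∫ y, (mx u y - mx id y) ∂muW ≤ ∑ a ∈ UE, th a * NN a ((th a)⁻¹ • del u a)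

/-! ## Fibres over a wall -/

/-- PIN (150 lines).  Coordinates adapted to a contact pair.
PROOF.  S = span(e,a), Sp e a = its orthogonal complement; S.orthogonalDecomposition is measure
preserving onto S x Sp (GSL.lean, `slice`), S has the orthonormal basis e, f = (2a - e)/sqrt 3, so
int H = int int int H(t1 e + t2 f + x); substitute q = t1/2 + (sqrt 3/2) t2, p = t1
(<e,y> = p, <a,y> = q): dt2 = (2/sqrt 3) dq and p e + (2/sqrt 3)(q-p/2) f = (4/3)(p-q/2) e +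
(4/3)(q-p/2) a.  scl: addHaar_smul in dimension 6 (map of the measure under x -> c x). -/
structure SpecPIN : Prop where
  main : ∀ e a : E, ‖e‖ = 1 → ‖a‖ = 1 → (inner ℝ e a : ℝ) = 1 / 2 → ∀ H : E → ENNReal,
    Measurable H →
    ∫⁻ y, H y = ENNReal.ofReal (2 / Real.sqrt 3) * ∫⁻ p : ℝ, ∫⁻ q : ℝ, ∫⁻ x : Sp e a,
      H ((4 / 3 * (p - q / 2)) • e + (4 / 3 * (q - p / 2)) • a + (x : E))
  scl : ∀ e a : E, ‖e‖ = 1 → ‖a‖ = 1 → (inner ℝ e a : ℝ) = 1 / 2 → ∀ c : ℝ, 0 < c →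
    ∀ H : Sp e a → ENNReal, Measurable H →
    ∫⁻ x : Sp e a, H x = ENNReal.ofReal (c ^ 6) * ∫⁻ x : Sp e a, H (c • x)

/-- F6V (200 lines).  The wall.
PROOF.  Let z = (2/3)(e+a) + x.  For b in UE write its type (<b,e>,<b,a>); <b,z> = (2/3)(<b,e>+<b,a>) +
<b,x>.  (1/2,1/2): <b,z> = 2/3 + <b,x> <= 1.  b = e, a: <b,z> = 1 (x is orthogonal to e, a).
CLAIM: <w,x> >= -2/3 for w of type (1/2,1/2).  s = e - w in UE is orthogonal to a; s and a have 12 common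
neighbours f (c12); take f /= e, f /= a - w.  f' = s + a - f in UE (s - f in UE, <a,s-f> = -1/2).
<f,e> + <f',e> = <s+a,e> = 1 and f, f' /= e (f' = e iff f = a - w), so <f,e> = <f',e> = 1/2; <f,a> = <f',a> =
1/2: both are of type (1/2,1/2), and w = e + a - f - f', so <w,x> = -<f,x> - <f',x> >= -2/3.
Type (1/2,0): e - b is of type (1/2,1/2), <b,x> = -<e-b,x> <= 2/3, so <b,z> <= 1; (0,1/2) likewise (a - b).
(0,0): b and e have 12 common neighbours f, f' = b + e - f is one too, <f,a> + <f',a> = 1/2 and f, f' /= a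
(<a,b> = 0), so one of them, w, has <w,a> = 1/2 (values 1/2 + 0; 1 - 1/2 is excluded): w and w - b are of
type (1/2,1/2), <b,x> = <w,x> - <w-b,x> <= 1/3 + 2/3 = 1.  (1/2,-1/2): b - e + a.. : <b,e-a> = 1, b = e - a,
<b,z> = 0; (-1/2,1/2): b = a - e, 0.  (-1/2,-1/2): -b of type (1/2,1/2): <b,z> = -2/3 - <-b,x> <= 0.
(-1/2,0): e + b is of type (1/2,1/2): <b,x> = <e+b,x> <= 1/3, <b,z> = -1/3 + <b,x> <= 0; (0,-1/2) likewise.
b = -e, -a: -1.
nrm: z in poly UE gives |z|^2 <= 2 (E8V.inb, or UEF.cov), |z|^2 = 4/3 + |x|^2.  meas: finitely many closed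
conditions (it may be restricted to b in UE). -/
structure SpecF6V : Prop where
  mem : ∀ a ∈ UE, ∀ e ∈ nb a, ∀ x ∈ F6 e a, (2 / 3 : ℝ) • (e + a) + (x : E) ∈ poly UE
  nrm : ∀ a ∈ UE, ∀ e ∈ nb a, ∀ x ∈ F6 e a, ‖(x : E)‖ ^ 2 ≤ 2 / 3
  meas : ∀ e a : E, MeasurableSet (F6o e a)

/-- ONE (150 lines).  One-dimensional integrals and a numerical inequality.
PROOF.  a: for 0 <= X < 1 the integrand vanishes for g >= X/(1-X) =: U - 1, U = 1/(1-X); with
w = 1+g it is w^6 - (1-X) w^7 on [1,U]: the integral is (U^7-1)/7 - (1-X)(U^8-1)/8 = (U^7 - 1 - 7X)/56.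
b: (1-2g)^6 <= 1 and (1-2g)X - g <= X - g.  c: put u = 1 - x in [33/50,1]; multiply by 28 u^7:
1 - u^7 (1 + 7x) <= 28 x^2 (111/100 + 152/5 x^2) u^7, a polynomial inequality (divide by x^2; margins:
ratio 2J/x^2 = 1 + 3x + 7.5x^2 + ..; at x = .34: 4.619 against 4.624, at x = .05: 1.171 against
1.186, at .08: 1.297 / 1.304): Bernstein or pieces. -/
structure SpecONE : Prop where
  a : ∀ X : ℝ, 0 ≤ X → X < 1 →
    ∫⁻ g in Set.Ioi (0 : ℝ), ENNReal.ofReal ((1 + g) ^ 6 * max 0 ((1 + g) * X - g)) =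
      ENNReal.ofReal (JJ X)
  b : ∀ X : ℝ, 0 ≤ X →
    ∫⁻ g in Set.Ioo (0 : ℝ) (1 / 2), ENNReal.ofReal ((1 - 2 * g) ^ 6 * max 0 ((1 - 2 * g) * X - g)) ≤
      ENNReal.ofReal (X ^ 2 / 2)
  c : ∀ x : ℝ, 0 ≤ x → x ≤ 17 / 50 → 2 * JJ x ≤ x ^ 2 * (111 / 100 + 152 / 5 * x ^ 2)

/-- OTF (250 lines).  Outer fibres.
PROOF.  Left side = int over Kc e ∩ W of e^{-m0}/8! (<D,y> - (<e,y>-<a,y>))+.  PIN with p = alpha =
<e,y>, q = alpha - beta = <a,y>: y = (2/3)(alpha+beta) e + (2/3)(alpha-2beta) a + x.  For y in Kc e,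
y /= 0: alpha > 0, beta >= 0, m0 = alpha, and <b,y> <= alpha for b in 27(e,a) means <b,x> <= (alpha+beta)/3,
i.e. x = (alpha+beta) x', x' in F6 (PIN.scl: factor (alpha+beta)^6).  |y|^2 = (4/3)(alpha^2 - alpha beta +
beta^2) + |x|^2, so y in W means (alpha+beta)^2 |x'|^2 > (1/3)(alpha^2 + 4 alpha beta - 4 beta^2).
<D,y> = (alpha+beta) X, X = <D,v>, v = (2/3)e - (1/3)a + x' (D orthogonal to a).  beta = g alpha.  Where the
integrand alpha((1+g)X - g)+ is positive, |x'|^2 > 1/3: if g <= 2/5, (1+4g-4g^2) >= (1+g)^2; if g > 2/5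
then X > g/(1+g) > 2/7 and X <= |D||v| <= (17/50) sqrt(1/3+|x'|^2), so 1/3 + |x'|^2 > .706.  So the left
side is <= (2/sqrt 3) int_{F6o} int_0^oo int_0^oo e^{-alpha}/8! alpha^8 (1+g)^6 ((1+g)X - g)+ dg dalpha dx'
(d beta = alpha dg; powers of alpha: 6 + 1 + 1 = 8) = (2/sqrt 3) int_{F6o} JJ(X+) (ONE.a; X <= 17/50 < 1
as |v|^2 = 1/3 + |x'|^2 <= 1, F6V.nrm; for X <= 0 the integrand vanishes and JJ 0 = 0). -/
def SpecOTF : Prop :=
  ∀ a ∈ UE, ∀ e ∈ nb a, ∀ D : E, (inner ℝ D a : ℝ) = 0 → ‖D‖ ≤ 17 / 50 →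
    ∫ y in Kc e, max 0 ((inner ℝ D y : ℝ) - ((inner ℝ e y : ℝ) - inner ℝ a y)) ∂muW ≤
      2 / Real.sqrt 3 * ∫ v, JJ (max 0 (inner ℝ D v : ℝ)) ∂(nuP e a)

/-- INF (250 lines).  Inner fibres.
PROOF.  Kc a is the union over e in nb a of the sets P_e where g2 a y = <a,y> - <e,y> =: beta (KCO.g2at); so
the left side is <= sum_e int_{P_e}.  On P_e put alpha = <a,y> (PIN with p = alpha - beta = <e,y>, q = alpha):
y = (2/3)(alpha+beta) a + (2/3)(alpha-2beta) e + x.  a - e in nb a has gap <e,y> = alpha - beta >= beta, so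
alpha >= 2 beta.  For b in 27(e,a): <b,y> <= alpha - beta (gap >= beta), i.e. <b,x> <= (alpha-2beta)/3:
x = (alpha-2beta) x', x' in F6 (factor (alpha-2beta)^6; alpha = 2beta is a null set).  y in W:
(alpha-2beta)^2 |x'|^2 > (1/3)(alpha^2 + 4 alpha beta - 4 beta^2) >= (1/3)(alpha-2beta)^2, so x' in F6o.
<D,y> = (alpha-2beta) <D,v>.  With beta = g alpha, 0 <= g <= 1/2: the integral over P_e is <=
(2/sqrt 3) int_{F6o} int_0^{1/2} (1-2g)^6 ((1-2g)X' - g)+ dg, X' = (-<D,v>)+, <= (1/sqrt 3) int X'^2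
(ONE.b; if <D,v> >= 0 the integrand vanishes). -/
def SpecINF : Prop :=
  ∀ a ∈ UE, ∀ D : E, (inner ℝ D a : ℝ) = 0 → ‖D‖ ≤ 17 / 50 →
    ∫ y in Kc a, max 0 (-(inner ℝ D y : ℝ) - g2 a y) ∂muW ≤
      1 / Real.sqrt 3 * ∫ v, max 0 (-(inner ℝ D v : ℝ)) ^ 2 ∂(nuA a)

/-! ## Symmetry and moments -/

/-- NUT (150 lines).  Transport of the wall measures.
PROOF.  T is a bijection of the finite set UE.  T restricts to a linear isometry Sp e a -> Sp (T e) (T a)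
(surjective), which preserves volume (LinearIsometryEquiv.measurePreserving) and maps F6o e a onto
F6o (T e) (T a) (<T b,T x> = <b,x>).  neg: for T y = 2<a,y> a - y (minus the reflection in a): T UE = UE,
T a = a, T e = a - e, and nuP e a is concentrated on vectors orthogonal to a, where T v = -v. -/
structure SpecNUT : Prop where
  map : ∀ T : E ≃ₗᵢ[ℝ] E, (∀ f ∈ UE, T f ∈ UE) → ∀ e a : E,
    Measure.map T (nuP e a) = nuP (T e) (T a)
  neg : ∀ a ∈ UE, ∀ e ∈ nb a, Measure.map (fun v : E => -v) (nuP e a) = nuP (a - e) a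

/-- NUA (150 lines).  The measure nuA.
PROOF.  fin: F6o is bounded (F6V.nrm).  sup: v = (2/3)e - (1/3)a + x, <v,a> = 1/3 - 1/3 = 0, |v|^2 = 1/3 +
|x|^2.  refl: NUT.map for the reflection in s (fixes a, permutes nb a), sum.  neg: NUT.neg, e -> a - e
permutes nb a.  i2, i4: integral_map, |v|^2 = 1/3 + |x|^2, same value for all e (TRA.two + NUT.map or
directly NUT), 56 neighbours: stated as sums. -/
structure SpecNUA : Prop where
  fin : ∀ a ∈ UE, IsFiniteMeasure (nuA a)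
  sup : ∀ a ∈ UE, ∀ᵐ v ∂(nuA a), (inner ℝ v a : ℝ) = 0 ∧ ‖v‖ ≤ 1
  refl : ∀ a ∈ UE, ∀ s ∈ ob a, Measure.map (fun v : E => v - (2 * (inner ℝ s v : ℝ)) • s) (nuA a)
    = nuA a
  neg : ∀ a ∈ UE, Measure.map (fun v : E => -v) (nuA a) = nuA a
  i2 : ∀ a ∈ UE, ∫ v, ‖v‖ ^ 2 ∂(nuA a) = ∑ e ∈ nb a, (∫ x in F6o e a, (1 / 3 + ‖x‖ ^ 2))
  i4 : ∀ a ∈ UE, ∫ v, ‖v‖ ^ 4 ∂(nuA a) = ∑ e ∈ nb a, (∫ x in F6o e a, (1 / 3 + ‖x‖ ^ 2) ^ 2)

/-- IS2 (150 lines).  Isotropy of second moments.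
PROOF.  B(D,D') = int <D,y><D',y> dnu on the orthogonal complement of a.  For s in ob a and all D:
B(r D,r D) = B(D,D), r D = D - 2<s,D>s (integral_map), so <s,D> B(s,D) = <s,D>^2 B(s,s); hence
B(s,D) = <s,D> B(s,s) if <s,D> /= 0, and for all D by continuity (or linearity: D + s).  For s, t in ob a
with <s,t> /= 0: B(s,s) = B(t,t); for s, t orthogonal use f of UEF.com3.  So B(s,D) = c<s,D> for all s in
ob a; the functional D -> B(D',D) - c<D',D> (on the complement of a) vanishes ... by UEF.orp B(D,D') =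
c<D,D'>.  Trace over an orthonormal basis of the complement: 7c = int (|y|^2 - <a,y>^2). -/
def SpecIS2 : Prop :=
  ∀ a ∈ UE, ∀ nu : Measure E, Integrable (fun y : E => ‖y‖ ^ 2) nu →
    (∀ s ∈ ob a, Measure.map (fun v : E => v - (2 * (inner ℝ s v : ℝ)) • s) nu = nu) →
    ∀ D : E, (inner ℝ D a : ℝ) = 0 →
      ∫ y, (inner ℝ D y : ℝ) ^ 2 ∂nu = ‖D‖ ^ 2 / 7 * ∫ y, (‖y‖ ^ 2 - (inner ℝ a y : ℝ) ^ 2) ∂nu

/-- IS4 (250 lines).  Isotropy of fourth moments.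
PROOF.  By TRA.one we may assume that a is the coordinate vector 0 (transport nu by T; T permutes ob).
Coordinates y_0..y_7; the coordinate vectors s_i (i = 1..7) and (s_i+s_j+s_k+s_l)/2 for the words
{i,j,k,l} = 4567, 2367, 1357, 2345, 1346, 1256, 1247 (EV.words avoiding 0) are in ob a.  Invariance under
y_i -> -y_i: all monomials of degree 4 in y_1..y_7 with an odd exponent have integral 0.  Put
p_i = int y_i^4, c_ij = int y_i^2 y_j^2.  For fixed i the form B(D,D') = int y_i^2 <D,y><D',y> on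
D, D' orthogonal to a, s_i is invariant under the reflections in t in ob a, t orthogonal to s_i, so
B(t,D) = <t,D> B(t,t) as in IS2; if t = half sum over a word containing j, k, not i: B(s_j,s_j) = B(t,t) =
B(s_k,s_k), i.e. c_ij = c_ik.  Such a word exists for all different i, j, k: two words contain j and k
and they share only j, k.  So all c_ij = c.  For a word {i,j,k,l} with half sum t: reflection in t maps
s_i to (s_i - s_j - s_k - s_l)/2, so p_i = (1/16)(p_i+p_j+p_k+p_l + 36c); the same for j, k, l: all four equal,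
16p = 4p + 36c, p = 3c; every i is in a word.  Hence int <D,y>^4 = 3c sum D_i^4 + 6c sum_{i<j} D_i^2 D_j^2 =
3c|D|^4, and int (y_1^2+..+y_7^2)^2 = 7*3c + 42c = 63c. -/
def SpecIS4 : Prop :=
  ∀ a ∈ UE, ∀ nu : Measure E, Integrable (fun y : E => ‖y‖ ^ 4) nu →
    (∀ s ∈ ob a, Measure.map (fun v : E => v - (2 * (inner ℝ s v : ℝ)) • s) nu = nu) →
    ∀ D : E, (inner ℝ D a : ℝ) = 0 →
      ∫ y, (inner ℝ D y : ℝ) ^ 4 ∂nu =
        ‖D‖ ^ 4 / 21 * ∫ y, (‖y‖ ^ 2 - (inner ℝ a y : ℝ) ^ 2) ^ 2 ∂nu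

/-- ORT (300 lines).  The orthogonal roots.
PROOF.  Let A be the union of the cones Kc e, e in ob a (a.e. disjoint), g(y) = mx id y - <a,y> >= 0 and
f(y) = <D,y>.  (1) On Kc e, e in ob a: alpha = <e,y> = m0, g = beta = alpha - <a,y>.  The 12 vectors
b in UE with <b,e> = <b,a> = 1/2 form 6 pairs b + b' = e + a (b' = e + a - b), the differences
f_i = b_i - b_i' are mutually orthogonal, of norm sqrt 2, orthogonal to e and a (for c /= b, b':
<b,c> + <b',c> = 1, both <= 1/2, so both 1/2; <b,b'> = 0), so e, a, f_i/sqrt 2 is an orthonormal basis; and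
<b,y>, <b',y> <= alpha gives |<f_i,y>| <= beta.  So with x_i = <f_i,y>/sqrt 2: |x_i| <= beta/sqrt 2,
|y|^2 - <a,y>^2 = alpha^2 + |x|^2 <= alpha^2 + 3 beta^2.
(2) Where f > g: g < f <= |D| sqrt(|y|^2 - <a,y>^2) (D orthogonal to a), so beta^2 < |D|^2 (alpha^2 + 3 beta^2),
beta <= G alpha, G = 4207/10000 (G^2 >= .1156/(1 - .3468) = .176975); beta > 0 a.e.  There (f - g)+ <=
(27/256) f^4/g^3 (AM-GM).
(3) Let nu = muW restricted to A ∩ {0 < g <= G m0}, with density (27/256)/g^3.  The left side is <=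
int 1[f > 0] f^4 dnu = (1/2) int f^4 dnu: the isometry y -> 2<a,y>a - y preserves UE (minus the reflection
in a), so m0, W, A (it maps e to -e... e in ob a goes to -e in ob a), g, and changes the sign of f.
nu is invariant under the reflections in ob a (they permute ob a, fix m0, <a,.>), so IS4:
int f^4 dnu = (|D|^4/21) int (|y|^2 - <a,y>^2)^2 dnu.
(4) The last integral is <= 126 * (27/256) * int_0^oo int_0^{G alpha} (e^{-alpha}/8!) 8 beta^6 beta^{-3}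
(alpha^2 + 3 beta^2)^2 dbeta dalpha (orthonormal coordinates (1); the cube has volume (sqrt 2 beta)^6 =
8 beta^6) = 126 (27/256) 8 (G^4/4 + G^6 + (9/8) G^8) (beta = g alpha; int alpha^8 e^{-alpha} = 8!)
<= 1.5395 (G^4/4 + G^6 + 9G^8/8 <= .014480).  Half of it divided by 21: <= .03666.  (Only the inequality
W ⊆ E is used.) -/
def SpecORT : Prop :=
  ∀ a ∈ UE, ∀ D : E, (inner ℝ D a : ℝ) = 0 → ‖D‖ ≤ 17 / 50 →
    (∑ e ∈ ob a, ∫ y in Kc e,
        max 0 ((inner ℝ D y : ℝ) - ((inner ℝ e y : ℝ) - inner ℝ a y)) ∂muW) ≤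
      367 / 10000 * ‖D‖ ^ 4

/-! ## The wall polytope -/

/-- VF6 (250 lines).  Volume of the wall.
PROOF.  All F6 e a have the same volume V (TRA.two and the isometry of NUT).  Fix a; vol(Kc a ∩
{<a,y> <= 1}) = 1/15 (EV.SYM.vol with r = 2a).  For e in nb a let P_e = {y : y = (2/3)(alpha+beta) a +
(2/3)(alpha-2beta) e + (alpha-2beta) x', 0 < alpha <= 1, 0 <= beta < alpha/2, x' in F6 e a} = {alpha a + tau v : ..},
tau = alpha - 2beta, v = (2/3)e - (1/3)a + x'.  P_e ⊆ Kc a ∩ {<a,y> <= 1} ∩ {g2 a y = <a,y> - <e,y>}: y/alpha is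
the convex combination (1-s) a + s(a+v), s = tau/alpha, a and a + v in poly UE (F6V.mem); for f in nb a:
<a-f,y>/alpha = (1-s)/2 + s(1 - <f,a+v>) >= (1-s)/2, equality for f = e.  Conversely every y in Kc a with
0 < <a,y> <= 1 and minimal gap at e is in P_e up to a null set (see INF).  The P_e overlap in null sets.
vol P_e = (2/sqrt 3) V int_0^1 int_0^{alpha/2} (alpha-2beta)^6 dbeta dalpha = (2/sqrt 3) V/112, so 56 * 2V/(112
sqrt 3) = 1/15. -/
def SpecVF6 : Prop :=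
  ∀ a ∈ UE, ∀ e ∈ nb a, volume (F6 e a) = ENNReal.ofReal (Real.sqrt 3 / 15)

/-- V6G (300 lines; helper92).  The part of the wall inside the ball, in R^6.
PROOF.  In the ball |x|^2 <= 1/3: caps C_w = {<w,x> > 1/3}.  No point is in three caps:
1 < <w+w'+w'',x>^2 <= |w+w'+w''|^2/3 <= (2 + 6/6)/3 = 1.  No point is in two caps with product -1/3:
(2/3)^2 < (2/3)(1/3) is false.  So the volume is kap6/27 - 27 cap + 216 pair, kap6 = pi^3/6;
cap = (8 pi^2/15)(1/27) int_{pi/4}^{pi/2} cos^6 = (8 pi^2/15)(1/27)(5 pi/2 - 15/2 + 1/6)/32 (5-dim slices);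
pair = (pi^2/2) sqrt(12/5) int int_{x1,x2 > 0} (P+)^2, P = 1/15 - (4/5)(x1+x2) - (8/5)(x1^2+x2^2) +
(4/5)x1x2 (4-dim slices, <w_i,x> = 1/3 + x_i, Gram [[2/3,1/6],[1/6,2/3]], det 5/12), >= the integral over
the triangle x1+x2 <= 29/400 (P >= 0 there): 216 pair >= .0038202.  Value .191397 - .085644 + .003820 =
.109574. -/
def SpecV6G : Prop :=
  ∀ X : Finset E6, (∀ w ∈ X, ‖w‖ ^ 2 = 2 / 3) →
    (∀ w ∈ X, ∀ v ∈ X, w ≠ v → (inner ℝ w v : ℝ) = 1 / 6 ∨ (inner ℝ w v : ℝ) = -1 / 3) →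
    X.card = 27 →
    (∀ w ∈ X, ({v : E6 | v ∈ X ∧ (inner ℝ w v : ℝ) = 1 / 6}).ncard = 16) →
    ENNReal.ofReal (10957 / 100000) ≤
      volume {x : E6 | (∀ w ∈ X, (inner ℝ w x : ℝ) ≤ 1 / 3) ∧ ‖x‖ ^ 2 ≤ 1 / 3}

/-- V6B (150 lines).  The part of the wall inside the ball.
PROOF.  A linear isometry Sp e a -> E6 (dimension 6) preserves volume; X = images of the orthogonal
projections w = b - (1/3)(e+a) of the 27 vectors b (UEF.c27; different b give different w): |w|^2 = 1 - 1/3,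
<w,w'> = <b,b'> - 1/3 with <b,b'> = 1/2 (for 16 b', UEF.c16) or 0 (-1/2 is impossible: b + b' in UE would have
product 1 with e and a, so b + b' = e = a; -1 as well), <w,x> = <b,x> on Sp e a.  V6G. -/
def SpecV6B : Prop :=
  ∀ a ∈ UE, ∀ e ∈ nb a,
    ENNReal.ofReal (10957 / 100000) ≤ volume {x : Sp e a | x ∈ F6 e a ∧ ‖x‖ ^ 2 ≤ 1 / 3}

/-- TL2 (250 lines).  Second moment of the depth.
PROOF.  For all ordered contact pairs (240 * 56 = 13440) the sets Q_{a,e} = P_e(a) \ bal (P_e of VF6) are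
disjoint up to null sets and contained in poly UE \ bal, and have the same volume (TRA.two).  y = alpha a +
tau v, |y|^2 = alpha^2 + tau^2 (1/3 + |x'|^2).  PIN: vol Q = (2/sqrt 3) int_{F6} int int_{beta} (..)^6 >=
(1/sqrt 3) int_{F6o} int int tau^6 dtau dalpha over 0 < tau <= alpha <= 1, alpha^2 + tau^2 zeta >= 5/3, zeta =
1/3 + |x'|^2 = 2/3 + d.  With alpha = 1 - s, tau = 1 - t it contains the triangle 0 <= s <= t, 2s + 2 zeta t <= d
of area A = d^2/(8 zeta (1+zeta)), and tau^6 >= 1 - 6t, mean of t over the triangle = (d/(2 zeta) +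
d/(2+2zeta))/3.  So the inner integral is >= A (1 - d(1/zeta + 1/(1+zeta))) >= sqrt 3 psl d, 0 < d <= 1/3
(polynomial inequality, margin .4 percent; sqrt 3 <= 1.7321). -/
def SpecTL2 : Prop :=
  ∀ a ∈ UE, ∀ e ∈ nb a,
    13440 * (∫ x in F6o e a, psl (‖x‖ ^ 2 - 1 / 3)) ≤ (volume (poly UE \ bal)).toReal

/-- TAI (helper92).  The volume outside the ball.
PROOF.  E8V.cell: 16 - T0 - 241920 s4, T0 > 15.9917, s4 >= 4.6e-9. -/
def SpecTAI : Prop := (volume (poly UE \ bal)).toReal ≤ 716 / 100000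

/-- M24 (150 lines).  Moments of the outer part of the wall.
PROOF.  G := vol(F6o) <= sqrt 3/15 - .10957 <= .0059002 (VF6, V6B).  TL2, TAI: int_{F6o} psl <= .00716/13440 <=
5.328e-7.  For 0 <= d <= 1/3: 2/3 + d <= .68647 + 232 psl d and (2/3+d)^2 <= .46646 + 378 psl d (polynomials in
d; equality nearly at d = .04 and .053).  So int (1/3+|x|^2) = int (2/3 + d) <= .68647 G + 232 * 5.328e-7 <=
.0041741 and int (..)^2 <= .46646 G + 378 * 5.328e-7 <= .0029537. -/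
def SpecM24 : Prop :=
  ∀ a ∈ UE, ∀ e ∈ nb a,
    (∫ x in F6o e a, (1 / 3 + ‖x‖ ^ 2)) ≤ 418 / 100000 ∧
      (∫ x in F6o e a, (1 / 3 + ‖x‖ ^ 2) ^ 2) ≤ 296 / 100000

/-! ## Assembly -/

/-- NNB (200 lines).  The one-vector bound.
PROOF.  UE.erase a = nb a ∪ ob a ∪ {<e,a> <= -1/2}.  For <e,a> <= -1/2 the integrand vanishes on Kc e:
e + a in UE or e = -a, so <a,y> <= 0, and <D,y> <= (17/50)|y| <= <e,y> (KCO.low).  nb: OTF, sum = (2/sqrt 3)
int JJ((<D,v>)+) dnuA.  ob: ORT.  Kc a: INF.  With X = <D,v> (|X| <= 17/50, NUA.sup), NUA.neg: int JJ(X+) =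
(1/2) int JJ(|X|) (JJ 0 = 0), int (X-)^2 = (1/2) int X^2.  ONE.c: 2 JJ(|X|) <= X^2 (111/100 + (152/5) X^2).  IS2,
IS4 (NUA.refl, <a,v> = 0), NUA.i2, i4, M24 (56 neighbours): NN <= (1/(2 sqrt 3)) (2.11 * 8 * .00418 |D|^2 +
30.4 * (56/21) * .00296 |D|^4) + .0367 |D|^4, 1/(2 sqrt 3) <= .288676. -/
def SpecNNB : Prop :=
  ∀ a ∈ UE, ∀ D : E, (inner ℝ D a : ℝ) = 0 → ‖D‖ ≤ 17 / 50 →
    NN a D ≤ 204 / 10000 * ‖D‖ ^ 2 + 106 / 1000 * ‖D‖ ^ 4

/-- OUT (100 lines).  The theorem of the block.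
PROOF.  TLC (th <= 1), RD1, NNB for D = del u a/th a (orthogonal to a, |del u a| <= |u a - a| <= (17/50) th a);
th * (A |del|^2/th^2 + B |del|^4/th^4). -/
def SpecOUT : Prop :=
  ∀ (u : E → E) (th : E → ℝ), DSP u th →
    (volume (poly UE \ bal)).toReal
        - ∑ e ∈ UE, (204 / 10000 * ‖u e - e‖ ^ 2 / th e + 106 / 1000 * ‖u e - e‖ ^ 4 / th e ^ 3)
      ≤ (volume ({y : E | ∀ e ∈ UE, (inner ℝ (u e) y : ℝ) ≤ 1} \ bal)).toReal

end Pool.Agent.Lib.MP_f1379f_gt.FV
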