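import Pool.Agent.Lib.MP_f1379f_gt.FV.SpecE
import Pool.Agent.Lib.MP_f1379f_gt.FV.SpecO

/-!
# MP_f1379f_gt, full Q1, block S4: the quadruple term near E8

Exact Specs, complete elementary proofs in the docstrings.  For a labelled configuration `u e`
(`e` in UE) the quadruple sum `S4 U` is at least `5806080 s4` minus a small multiple of the contact
strains `1/2 - <u e, u f>` and of the radial deficits `(1 - |u e|^2)/2`.
-/

set_option autoImplicit false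

namespace Pool.Agent.Lib.MP_f1379f_gt.FV

open MeasureTheory

/-- Gram matrix of four mutually touching unit vectors: `(1/2)(I + J)`. -/
noncomputable def G0 : Matrix (Fin 4) (Fin 4) ℝ := Matrix.of fun i j => if i = j then 1 else 1 / 2

/-- The quadratic form of `G0⁻¹ = 2 I - (2/5) J`. -/
noncomputable def q0 (z : Fin 4 → ℝ) : ℝ := 2 * ∑ i, z i ^ 2 - 2 / 5 * (∑ i, z i) ^ 2

/-- Total deficit of a Gram matrix. -/
noncomputable def tG (G : Matrix (Fin 4) (Fin 4) ℝ) : ℝ :=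
  ∑ i, (1 - G i i) / 2 + (1 / 2) * ∑ i, ∑ j, (if i = j then 0 else 1 / 2 - G i j)

/-- Gram matrix of four vectors. -/
noncomputable def Gr (u : Fin 4 → E) : Matrix (Fin 4) (Fin 4) ℝ :=
  Matrix.of fun i j => (inner ℝ (u i) (u j) : ℝ)

/-- Sum of the contact strains of a labelled configuration, over the ordered contact pairs of UE. -/
noncomputable def Wo (u : E → E) : ℝ := ∑ e ∈ UE, ∑ f ∈ nb e, (1 / 2 - (inner ℝ (u e) (u f) : ℝ))

/-- Sum of the radial deficits of a labelled configuration. -/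
noncomputable def Xr (u : E → E) : ℝ := ∑ e ∈ UE, (1 - ‖u e‖ ^ 2) / 2

/-- G4 (250 lines, matrices of size 4).
PROOF.  inv0, det0: G0 * (2 I - (2/5) J) = I; the determinant by `Matrix.det_succ_row_zero` / simp.
Let K = G0 - G: symmetric, entries >= 0, t = tG G >= 0, sum of all entries of K = 2t.
(pd) c'Kc <= sum_i c_i^2 sum_j K_ij <= 2t|c|^2 (c_i c_j <= (c_i^2 + c_j^2)/2 and symmetry) and
c'G0 c = (1/2)|c|^2 + (1/2)(sum c)^2, so c'Gc >= (1/2 - 2t)|c|^2 >= .465|c|^2.  Hence G is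
invertible, det G > 0 (PosDef), and w'G^-1 w <= |w|^2/.465 for all w (v = G^-1 w:
.465|v|^2 <= v'Gv = v'w <= |v||w|, so |v| <= |w|/.465 and w'v <= |w|^2/.465).
(det) B := sqrt2 I - beta J with 4 beta^2 - 2 sqrt2 beta + 2/5 = 0 (or any B with B B' = G0^-1, e.g. the
inverse of the Cholesky factor): B'GB is PosSemidef, det(B'GB) = (16/5) det G, trace(B'GB) =
trace(G0^-1 G) = 4 - trace(G0^-1 K) = 4 - (8/5) sum_i K_ii + (2/5) sum_{i /= j} K_ij <= 4 + (4/5) t.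
For PosSemidef of size 4: det <= (trace/4)^4 (eigenvalues, arithmetic-geometric mean).  So
det G <= (5/16)(1 + t/5)^4 and sqrt(det G) <= sqrt(5/16) (1 + t/5)^2 <= (1+t) sqrt(5/16) (t <= 1).
(inv) x := G0^-1 z, x_i = 2 z_i - (2/5) sum z.  G(x + G^-1 K x) = (G0 - K)x + Kx = z, so
z'G^-1 z = z'x + z'G^-1 K x = q0 z + (G^-1 z)'Kx = q0 z + x'Kx + (G^-1 K x)'(K x).
With z_i = 1 + s_i, s_i > 0, S = sum s: 5/3 - q0 z = 1/15 - (4/5)S - 2 sum s^2 + (2/5)S^2 > 0 and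
sum s^2 >= S^2/4 give S < 1/12; so 0 < x_i = 2/5 + 2 s_i - (2/5)S <= 2/5 + (8/5)S < 8/15 and
(x_i + x_j)/2 <= 2/5 + (3/5)S < 9/20 for i /= j, x_i x_j <= 81/400.  So x'Kx <= (64/225) sum_i K_ii +
(81/400) sum_{i/=j} K_ij <= (128/225) t, and |Kx|^2 <= (sum_i (Kx)_i)^2 <= ((8/15) 2t)^2, so the last
term is <= (256/225) t^2/.465 <= .0419 t.  Total <= .6108 t. -/
structure SpecG4 : Prop where
  inv0 : ∀ z : Fin 4 → ℝ, z ⬝ᵥ (G0⁻¹.mulVec z) = q0 z
  det0 : G0.det = 5 / 16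
  main : ∀ G : Matrix (Fin 4) (Fin 4) ℝ, G.IsSymm → (∀ i, G i i ≤ 1) →
    (∀ i j, i ≠ j → G i j ≤ 1 / 2) → tG G ≤ 171 / 10000 →
    (∀ c : Fin 4 → ℝ, (2 / 5) * ∑ i, c i ^ 2 ≤ c ⬝ᵥ (G.mulVec c)) ∧ 0 < G.det ∧
      Real.sqrt G.det ≤ (1 + tG G) * Real.sqrt (5 / 16) ∧
      ∀ z : Fin 4 → ℝ, (∀ i, 1 < z i) → q0 z < 5 / 3 →
        z ⬝ᵥ (G⁻¹.mulVec z) ≤ q0 z + 613 / 1000 * tG G

/-- X4 (150 lines).  Two integrals over the simplex.
PROOF.  z = 1 + s.  5/3 - q0 z = 1/15 - (4/5)S - 2 sum s^2 + (2/5)S^2 <= (4/5)(1/12 - S) as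
sum s^2 >= S^2/4, so sqrt(5/3 - q0 z)^2 <= (4/5) max(0, 1/12 - S), and the fourth power is
<= (16/25) max(0, 1/12 - S)^2.  Iterated integration (QVA.it_four; one step:
int_0^inf max(0, c - s)^k ds = c^(k+1)/(k+1) for c >= 0, 0 for c < 0):
int_{s > 0} max(0, c - S) ds = c^5/120, int max(0, c - S)^2 ds = c^6/360; c = 1/12:
(4/5)(1/12)^5/120 = 2.6792e-8, (16/25)(1/12)^6/360 = 5.9538e-10. -/
structure SpecX4 : Prop where
  one : ∫⁻ z in {z : Fin 4 → ℝ | ∀ i, 1 < z i},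
    ENNReal.ofReal (Real.sqrt (5 / 3 - q0 z) ^ 2) ≤ ENNReal.ofReal (268 / 10 ^ 10)
  two : ∫⁻ z in {z : Fin 4 → ℝ | ∀ i, 1 < z i},
    ENNReal.ofReal (Real.sqrt (5 / 3 - q0 z) ^ 4) ≤ ENNReal.ofReal (596 / 10 ^ 12)

/-- V4L (250 lines).  Lower bound of a quadruple volume.
PROOF.  GSL with k = 4, j = 4, R = 5/3, A = {z | all z_i > 1}: for linearly independent a
vol(cap a_0 ∩ .. ∩ cap a_3) = int_A ofReal(kap 4 * sqrt(5/3 - z'G^-1 z)^4 / sqrt(det G)), G = Gr a.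
For e0..e3 (Gram matrix G0; QVD.norm_e3, inner_e03, ..): s4 = (kap 4/sqrt(5/16)) int_A sqrt(5/3 - q0 z)^4
<= 8.8283 * 5.96e-10 <= 5.27e-9 (kap 4 = pi^2/2 <= 4.9349 (QVA.vol_E4), sqrt(5/16) >= .559).
Let t = tG (Gr u) >= 0 (|u i|^2 = G i i <= 1).  If t >= 171/10000 the left side is
<= 5.27e-9 - 31e-8 * .0171 <= 0.  If t <= 171/10000: u is linearly independent (G4: c'Gc > 0), and
pointwise on A, with P0 = 5/3 - q0 z, P = 5/3 - z'G^-1 z, q+ = max(q,0) = sqrt(q)^2: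
(P0+)^2 <= (P+)^2 + 2 P0+ (P0 - P) <= (P+)^2 + 1.226 t P0+ (trivial if P0 <= 0).  Divide by sqrt(5/16) and use
1/sqrt(5/16) <= (1+t)/sqrt(det G): integrate:
s4 <= (1+t) v4 + (kap 4/sqrt(5/16)) * 1.226 t * 2.68e-8 <= (1+t) v4 + 2.901e-7 t.
If v4 >= s4 done; otherwise t v4 <= t s4 <= 5.27e-9 t, so v4 >= s4 - 2.954e-7 t. -/
def SpecV4L : Prop :=
  ∀ u : Fin 4 → E, (∀ i, ‖u i‖ ≤ 1) → (∀ i j, i ≠ j → (inner ℝ (u i) (u j) : ℝ) ≤ 1 / 2) →
    s4 - 31 / 10 ^ 8 * tG (Gr u) ≤ v4 (u 0) (u 1) (u 2) (u 3)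

/-- CQ4 (250 lines, finite sums).  Sum over the contact cliques.
PROOF.  S4 U is the sum of v4 over the ordered quadruples of different points of U, all terms >= 0.
The map (e,f,g,h) -> (u e, u f, u g, u h) is injective on the ordered cliques
(f ∈ nb e, g ∈ nb e ∩ nb f, h ∈ nb e ∩ nb f ∩ nb g; different labels as <e,e> = 1 /= 1/2) with values in
the quadruples of different points.  V4L for each of them; number of cliques 240*56*27*16 (UEF, CNE: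
UE = R/2, so inner products 1/2 correspond to 2).  Sum of the deficits: by symmetry of the clique
relation under permutations each of the 6 pairs of places contributes 27*16 * Wo u and each of the
4 places contributes 56*27*16 * Xr u: total 2592 Wo u + 96768 Xr u. -/
def SpecCQ4 : Prop :=
  ∀ (U : Finset E) (u : E → E), (∀ e ∈ UE, u e ∈ U) → Set.InjOn u (UE : Set E) →
    (∀ e ∈ UE, ‖u e‖ ≤ 1) →
    (∀ e ∈ UE, ∀ f ∈ UE, e ≠ f → (inner ℝ (u e) (u f) : ℝ) ≤ 1 / 2) →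
    5806080 * s4 - 31 / 10 ^ 8 * (2592 * Wo u + 96768 * Xr u) ≤ S4 U

/-- S4F (60 lines).  Final form.
PROOF.  IEX.id; IEX.pos and LNK: each ordered pair term is >= max(0, v2 - 9 s3); CQ4 (inner products
of different points of an Adm U are <= 1/2 by sep), divided by 24. -/
def SpecS4F : Prop :=
  ∀ (U : Finset E) (u : E → E), Adm U → (∀ e ∈ UE, u e ∈ U) → Set.InjOn u (UE : Set E) →
    (volume bal).toReal - ∑ v ∈ U, v1 v
        + (1 / 2) * ∑ v ∈ U, ∑ w ∈ U.erase v, max 0 (v2 v w - 9 * s3)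
        + 241920 * s4 - 31 / 10 ^ 8 * (108 * Wo u + 4032 * Xr u)
      ≤ (volume (bal ∩ poly U)).toReal

end Pool.Agent.Lib.MP_f1379f_gt.FV
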