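import Pool.Agent.Lib.MP_f1379f_gt.FV.SpecO

/-!
# MP_f1379f_gt, full Q1, block X: the outer part of the cell in the presence of additional points

Exact Specs, complete elementary proofs in the docstrings.  RESULT of the block (SpecXOU): block O
(AllO.lean, all its Specs hNNB, hPTW, hTLC, .. are theorems) remains true, up to a loss (1/8) S, if the
configuration contains additional points v with |v|^2 <= 37/50 and <v,u e> <= 1/2 for all e:
  vol(poly U \ bal) >= vol(poly UE \ bal) - sum_e (.0408 |D_e|^2 + .848 |D_e|^4) - (1/8) S,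
D_e = del u e, S = sum |u e - e|^2, whenever |u e - e| <= 17/100.

NOTATION as in SpecO.  d_e = u e - e.  mU U y = max over U of <v,y>; mV V y = max(0, max over V); for
y in Kc e: alpha = <e,y> = m0(y) > 0, |y|^2 <= 2 alpha^2 (UEF.cov), s := |y|^2/alpha^2 - 1 <= 1, and y in W
means s > 2/3.  XE = excess of the additional points over the first order of the displaced ones.
-/

set_option autoImplicit false

namespace Pool.Agent.Lib.MP_f1379f_gt.FV

open MeasureTheory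

/-- Maximum of the functionals of a finite configuration. -/
noncomputable def mU (U : Finset E) (y : E) : ℝ := ⨆ v : U, (inner ℝ (v : E) y : ℝ)

open Classical in
/-- The same together with 0. -/
noncomputable def mV (V : Finset E) (y : E) : ℝ := mU (insert 0 V) y

/-- Excess of the additional points on the cone of `e`. -/
noncomputable def XE (V : Finset E) (u : E → E) (e y : E) : ℝ :=
  max 0 (mV V y - (inner ℝ e y : ℝ) - (inner ℝ (del u e) y : ℝ))

/-- `U` consists of the labelled points `u e` and of additional points `V`. -/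
structure EXT (U V : Finset E) (u : E → E) : Prop where
  lab : ∀ e ∈ UE, u e ∈ U
  oth : ∀ v ∈ U, v ∈ V ∨ ∃ e ∈ UE, v = u e
  le_one : ∀ v ∈ U, ‖v‖ ≤ 1
  sm : ∀ v ∈ V, ‖v‖ ^ 2 ≤ 37 / 50
  sep : ∀ v ∈ V, ∀ e ∈ UE, (inner ℝ v (u e) : ℝ) ≤ 1 / 2

/-- A finite group of symmetries of `UE`, with the two averages which are needed. -/
structure GRP (G : Finset (E ≃ₗᵢ[ℝ] E)) : Prop where
  ne : G.Nonempty
  pres : ∀ T ∈ G, ∀ e ∈ UE, T e ∈ UE
  uni : ∀ φ : E → ℝ, ∀ p ∈ UE, 240 * ∑ T ∈ G, φ (T p) = G.card * ∑ e ∈ UE, φ e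
  sec : ∀ D : E → E, (∀ e ∈ UE, (inner ℝ (D e) e : ℝ) = 0) → ∀ e ∈ UE, ∀ z : E,
    (inner ℝ z e : ℝ) = 0 →
    1680 * ∑ T ∈ G, (inner ℝ (D (T e)) (T z) : ℝ) ^ 2 = G.card * (‖z‖ ^ 2 * ∑ f ∈ UE, ‖D f‖ ^ 2)

/-- The fibre function of the walls. -/
noncomputable def Th (t : ℝ) : ENNReal :=
  ∫⁻ s in Set.Ioo (0 : ℝ) 1, if 2 / 3 < s ^ 2 * (1 / 3 + t) then
    ENNReal.ofReal (s ^ 6) / ENNReal.ofReal (1 - s ^ 2 * (1 / 3 + t)) else 0

/-- XTL (200 lines).  Comparison of the outer volumes, general form.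
PROOF.  Exactly the proof of TLC.main (TLC.lean) with m = mU U instead of mx u: all that is used of m is
that it is continuous, positively homogeneous (mU U (t y) = t mU U y, t > 0), m(y) >= |y|/3 (m >= mx u, as
u e in U) and m(y) - m0(y) <= |y| (|v| <= 1, m0 >= 0), and poly U = {m <= 1}; poly U ⊆ ball of radius 3. -/
def SpecXTL : Prop :=
  ∀ (U V : Finset E) (u : E → E), EXT U V u → (∀ e ∈ UE, ‖u e - e‖ ≤ 17 / 50) →
    (volume (poly UE \ bal)).toReal - ∫ y, (mU U y - mx id y) ∂muW ≤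
      (volume (poly U \ bal)).toReal

/-- XRD (200 lines).  Reduction to one-vector integrals.
PROOF.  As RD1 (RD1.lean), with one more pointwise step.  On Kc e let R(y) = the right side of PTW, so
mx u y - <e,y> <= R and R >= <del u e,y> (the other terms are >= 0).  mU U y <= max (mx u y) (mV V y) (EXT.oth;
mV >= 0 and mV >= <v,y>).  So mU U y - <e,y> <= max(R, mV - <e,y>) <= R + (mV - <e,y> - R)+ <=
R + (mV - <e,y> - <del u e,y>)+ = R + XE V u e y.  Integrate over the cones (KCO.cov, KCO.nul); the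
integral of <del u e,y> over Kc e is 0 (MO1).  All functions are continuous on the cones and bounded by C|y|. -/
def SpecXRD : Prop :=
  ∀ (U V : Finset E) (u : E → E) (th : E → ℝ), EXT U V u → DSP u th →
    ∫ y, (mU U y - mx id y) ∂muW ≤
      ∑ a ∈ UE, th a * NN a ((th a)⁻¹ • del u a) + ∑ e ∈ UE, ∫ y in Kc e, XE V u e y ∂muW

/-- XGR (200 lines).  The symmetry group of UE.
PROOF.  G = all linear isometries T of E with T UE ⊆ UE.  UE spans E (UEF.cov: a vector orthogonal to UE is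
0), so T is determined by its restriction to UE: G is finite (injects into the maps UE -> UE).  G is closed
under composition and inverses (T is injective on the finite set UE, hence T UE = UE), contains the
identity and the reflections y - 2<s,y>s, s in UE (UEF.refl).  uni: by TRA.one there is T0 in G with
T0 p = p'; T -> T T0 is a bijection of G, so sum_T φ(T p) = sum_T φ(T T0^-1 p').. does not depend on p in UE;
sum over p in UE: sum_T sum_p φ(T p) = |G| sum_UE φ.  sec: fix e and f in UE and put N_f(D) = sum over T in G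
with T e = f of <D,T z>^2.  Apply IS2 with a = f and nu = sum over these T of the Dirac measure at T z:
integrable; invariant under the reflections in s in ob f (T -> r_s T is a bijection of {T in G : T e = f}).
So for D orthogonal to f: N_f(D) = (|D|^2/7) sum_T (|T z|^2 - <f,T z>^2) = (|D|^2/7) |z|^2 #{T : T e = f}
(<f,T z> = <T e,T z> = <e,z> = 0), and #{T : T e = f} = |G|/240 (uni with φ = indicator of f).  Sum over f
(group the T by f = T e). -/
def SpecXGR : Prop := ∃ G : Finset (E ≃ₗᵢ[ℝ] E), GRP G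

/-- XBP (100 lines).  Representation by few roots.
PROOF.  y = 0: lam = 0.  Otherwise z = y/(sqrt 2 |y|), |z| = 1/sqrt 2.  z lies in K = convex hull of UE: K is
compact and convex; if z is not in K there is w with <w,z> > <w,p> for all p in UE (strict separation,
Riesz), but UEF.cov gives p in UE with <p,w> >= |w|/sqrt 2 >= <w,z> (Cauchy-Schwarz): contradiction.
Write z = sum w_p p (w_p >= 0, sum 1; Finset.mem_convexHull) and lam p = sqrt 2 |y| w_p. -/
def SpecXBP : Prop :=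
  ∀ y : E, ∃ l : E → ℝ, (∀ p ∈ UE, 0 ≤ l p) ∧ y = ∑ p ∈ UE, l p • p ∧
    ∑ p ∈ UE, l p ≤ Real.sqrt 2 * ‖y‖

/-- XPT (200 lines).  The average of the excess over the group.
PROOF.  alpha = <e,y> > 0 (2 alpha^2 > |y|^2, KCO.low).  Let y = sum l_p p (XBP), T in G.  For v in V (or v = 0):
<v,T y> = sum l_p <v,T p> = sum l_p (<v,u(T p)> - <v,d_{T p}>) <= (1/2) sum l_p + |v| |sum l_p d_{T p}| <=
|y|/sqrt 2 + a_T, a_T = sqrt(37/50) |sum l_p d_{T p}|.  <T e,T y> = alpha.  So XE V u (T e) (T y) <=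
(A_T - B)+, A_T = a_T + b_T, b_T = |<del u (T e),T y>|, B = alpha - |y|/sqrt 2 > 0, and (A - B)+ <= A^2/(4B).
B = alpha (1 - sqrt(|y|^2/(2 alpha^2))) >= alpha (1 - |y|^2/(2alpha^2))/2, as 1 - sqrt q >= (1-q)/2: 4B >=
(2 alpha^2 - |y|^2)/alpha.  So XE <= A_T^2 alpha/(2alpha^2 - |y|^2), A_T^2 <= (6/5) a_T^2 + 6 b_T^2.
sum_T a_T^2 <= (37/50) sum_T (sum_p l_p)(sum_p l_p |d_{T p}|^2) (Cauchy-Schwarz) = (37/50)(sum l)^2 |G| S/240
(GRP.uni) <= (37/50) 2|y|^2 |G| S/240.  With z = y - alpha e orthogonal to e, |z|^2 = |y|^2 - alpha^2 <= alpha^2: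
<del u (T e),T y> = <del u (T e),T z> (del u f orthogonal to f), so sum_T b_T^2 = |G| |z|^2 sum |del u f|^2/1680 <=
|G| alpha^2 S/1680 (|del u f| <= |d_f|).  Total, |y|^2 <= 2 alpha^2: sum_T A_T^2 <= (|G| S/240) alpha^2
((6/5)(37/25) 2 + 6/7) = (|G| S/240) alpha^2 * 4.4092 <= |G| S alpha^2 * 147/8000. -/
def SpecXPT : Prop :=
  ∀ G : Finset (E ≃ₗᵢ[ℝ] E), GRP G → ∀ (U V : Finset E) (u : E → E), EXT U V u →
    ∀ e ∈ UE, ∀ y ∈ Kc e, 0 < 2 * (inner ℝ e y : ℝ) ^ 2 - ‖y‖ ^ 2 →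
      ∑ T ∈ G, XE V u (T e) (T y) ≤
        G.card * (147 / 8000 * (∑ f ∈ UE, ‖u f - f‖ ^ 2) *
          ((inner ℝ e y : ℝ) ^ 3 / (2 * (inner ℝ e y : ℝ) ^ 2 - ‖y‖ ^ 2)))

/-- XAV (200 lines).  Integrated form.
PROOF.  Every T in G preserves mx id, W, hence muW (linear isometries preserve volume; the density depends
on mx id only), and maps Kc e onto Kc (T e) (T UE = UE).  So for fixed T: sum_e int_{Kc e} XE V u e y dmuW =
sum_e int_{Kc (T e)} XE V u (T e) y dmuW = sum_e int_{Kc e} XE V u (T e) (T y) dmuW(y).  Sum over T in G, divide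
by |G|, and use XPT pointwise where q := 2<e,y>^2 - |y|^2 > 0 (in general q >= 0 on Kc e, KCO.low).  Where
q = 0: if <e,y> > 0 and S > 0 the right side is infinite; if <e,y> = 0 then y = 0 and XE = 0; if S = 0 then
u e = e for all e, del u = 0 and XE V u e y <= (|y|/sqrt 2 - <e,y>)+ = 0 as in XPT (a_T = b_T = 0).  Work with
lintegrals (ENNReal), dividing by ofReal q. -/
def SpecXAV : Prop :=
  ∀ (U V : Finset E) (u : E → E), EXT U V u →
    ∑ e ∈ UE, ∫⁻ y in Kc e, ENNReal.ofReal (XE V u e y) ∂muW ≤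
      ∑ e ∈ UE, ∫⁻ y in Kc e, ENNReal.ofReal (147 / 8000 * ∑ f ∈ UE, ‖u f - f‖ ^ 2) *
        (ENNReal.ofReal ((inner ℝ e y : ℝ) ^ 3) /
          ENNReal.ofReal (2 * (inner ℝ e y : ℝ) ^ 2 - ‖y‖ ^ 2)) ∂muW

/-- XFC (250 lines).  Fibres over the walls.
PROOF.  The parametrisation of INF (INF.lean, VF6.lean): up to null sets Kc a is covered by the sets P_e,
e in nb a, where the second gap g2 a y is attained at e; y = (2/3)(alpha+beta) a + (2/3)(alpha-2beta) e +
(alpha-2beta) x', alpha = <a,y>, beta = <a,y> - <e,y>, 0 <= 2beta <= alpha, x' in F6 e a (PIN with p = alpha -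
beta, q = alpha, and PIN.scl, factor (alpha-2beta)^6).  With alpha - 2beta = s alpha, 0 < s < 1: y = alpha (a +
s v), v = (2/3)e - (1/3)a + x', |v|^2 = 1/3 + |x'|^2 =: zeta <= 1, |y|^2 = alpha^2 (1 + s^2 zeta), so y in W iff
s^2 zeta > 2/3 (then |x'|^2 > 1/3, x' in F6o), and <a,y>^3/(2<a,y>^2 - |y|^2) = alpha/(1 - s^2 zeta).  dbeta =
(alpha/2) ds.  So the integral over P_e is <= (2/sqrt 3) int_{F6o} int_0^oo int_0^1 (e^{-alpha}/8!) (alpha s)^6
(alpha/2) (alpha/(1-s^2 zeta)) 1[s^2 zeta > 2/3] ds dalpha dx' = (1/sqrt 3) int_{F6o} Th(|x'|^2) dx'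
(int e^{-alpha} alpha^8 = 8!). -/
def SpecXFC : Prop :=
  ∀ a ∈ UE,
    ∫⁻ y in Kc a, ENNReal.ofReal ((inner ℝ a y : ℝ) ^ 3) /
        ENNReal.ofReal (2 * (inner ℝ a y : ℝ) ^ 2 - ‖y‖ ^ 2) ∂muW ≤
      ∑ e ∈ nb a, ENNReal.ofReal (1 / Real.sqrt 3) * ∫⁻ x in F6o e a, Th (‖x‖ ^ 2)

/-- XTH (120 lines).  The fibre function.
PROOF.  zeta = 1/3 + t in (2/3,1).  For s in (0,1), s^6/(1 - zeta s^2) <= s/(1 - zeta s^2), whose primitive is
-log(1 - zeta s^2)/(2 zeta).  From s0 = sqrt(2/(3 zeta)) to 1: (1/(2 zeta)) log((1/3)/(1-zeta)) =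
(1/(2 zeta)) log(1/w), w = 3(1-zeta) = 2 - 3t in (0,1); 1/(2 zeta) <= 3/4 and log(1/w) <= (1-w)/sqrt w (log X <=
(X-1)/sqrt X for X >= 1: derivative, or log X = 2 log sqrt X <= sqrt X - 1/sqrt X). -/
def SpecXTH : Prop :=
  ∀ t : ℝ, 1 / 3 < t → t < 2 / 3 →
    Th t ≤ ENNReal.ofReal (3 / 4 * ((3 * t - 1) / Real.sqrt (2 - 3 * t)))

/-- XPO (150 lines).  Radial comparison on star-shaped sets of dimension 6.
PROOF.  Polar coordinates (Measure.measurePreserving_homeomorphUnitSphereProd, volumeIoiPow 5): for every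
direction w of the unit sphere the set {r > 0 : r w in A} is an interval with endpoints 0 and R(w) <= R1,
its part r > r0 is Ioc r0 R(w) up to one point (or empty).  Integrate the hypothesis over w. -/
def SpecXPO : Prop :=
  ∀ (F : Type) [NormedAddCommGroup F] [InnerProductSpace ℝ F] [FiniteDimensional ℝ F]
    [MeasurableSpace F] [BorelSpace F], Module.finrank ℝ F = 6 →
    ∀ (A : Set F) (f g : ℝ → ENNReal) (r0 R1 : ℝ), MeasurableSet A → Measurable f → Measurable g →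
      (∀ x ∈ A, ∀ c : ℝ, 0 ≤ c → c ≤ 1 → c • x ∈ A) → (∀ x ∈ A, ‖x‖ ≤ R1) → 0 ≤ r0 →
      (∀ R : ℝ, r0 ≤ R → R ≤ R1 →
        ∫⁻ r in Set.Ioc r0 R, f r * ENNReal.ofReal (r ^ 5) ≤
          ∫⁻ r in Set.Ioc r0 R, g r * ENNReal.ofReal (r ^ 5)) →
      ∫⁻ x in A ∩ {x | r0 < ‖x‖}, f ‖x‖ ≤ ∫⁻ x in A ∩ {x | r0 < ‖x‖}, g ‖x‖

/-- XPI (200 lines).  The one-dimensional inequality.
PROOF.  Substitute k = sqrt(2 - 3r^2), r^2 = (2-k^2)/3, r dr = -(k/3) dk, r^5 dr = -(2-k^2)^2 k dk/27; r from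
1/sqrt 3 to R is k from 1 down to k1 = sqrt(2-3R^2) in [0,1]; 3r^2 - 1 = 1 - k^2, r^2 - 1/3 = (1-k^2)/3.
The claim is Phi(k1) >= 0 on [0,1], Phi(k1) = int_{k1}^1 (2-k^2)^2 ((33/2000 + 1920 psl((1-k^2)/3)) 2k -
2(1-k^2)) dk, a polynomial of degree 18 with the simple zero k1 = 1 (Phi/(1-k1) is .0034 at 0, .77 at .1,
2.1 at .4, .64 at .8, .13 at .9, .011 at .95, > .002 at .97 (minimum), .033 at 1): Bernstein or pieces.
(Alternatively both sides have explicit primitives in k; the left side is int (2-k^2)^2 (1-k^2) dk/27.) -/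
def SpecXPI : Prop :=
  ∀ R : ℝ, Real.sqrt (1 / 3) ≤ R → R ≤ Real.sqrt (2 / 3) →
    ∫⁻ r in Set.Ioc (Real.sqrt (1 / 3)) R,
        ENNReal.ofReal ((3 * r ^ 2 - 1) / Real.sqrt (2 - 3 * r ^ 2)) * ENNReal.ofReal (r ^ 5) ≤
      ∫⁻ r in Set.Ioc (Real.sqrt (1 / 3)) R,
        ENNReal.ofReal (33 / 2000 + 1920 * psl (r ^ 2 - 1 / 3)) * ENNReal.ofReal (r ^ 5)

/-- XME (150 lines).  The singular moment of the wall.
PROOF.  XPO with F = Sp e a (dimension 6), A = F6 e a (closed conditions <b,x> <= 1/3, star-shaped; |x| <=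
sqrt(2/3) by F6V.nrm), r0 = sqrt(1/3), R1 = sqrt(2/3), f, g from XPI: int_{F6o} f <= int_{F6o} (33/2000 + 1920 psl).
vol(F6o) <= sqrt 3/15 - .10957 <= .0059002 (VF6, V6B, as in M24) and int_{F6o} psl <= .00716/13440
(TL2, TAI): 33/2000 * .0059002 + 1920 * .00716/13440 = .00112022. -/
def SpecXME : Prop :=
  ∀ a ∈ UE, ∀ e ∈ nb a,
    ∫⁻ x in F6o e a, ENNReal.ofReal ((3 * ‖x‖ ^ 2 - 1) / Real.sqrt (2 - 3 * ‖x‖ ^ 2)) ≤
      ENNReal.ofReal (1121 / 1000000)

/-- XOU (150 lines).  The theorem of the block.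
PROOF.  XTL, XRD with th = 1/2 (DSP: |u e - e| <= 17/100), NNB for the vector 2 del u a: th (A |D/th|^2 +
B |D/th|^4) = .0408 |D|^2 + .848 |D|^4 (|del u a| <= |u a - a|, so |2 del u a| <= 17/50).  The rest:
sum_e int_{Kc e} XE <= (147/8000) S * sum_{a in UE} sum_{e in nb a} (1/sqrt 3) (3/4) int_{F6o} (3|x|^2-1)/sqrt(2-3|x|^2)
(XAV, XFC, XTH; the sphere |x|^2 = 2/3 is a null set of Sp e a) <= (147/8000) * 13440 * .577351 * .75 * .001121 S =
.1199 S <= S/8 (XME).  (XE is integrable: 0 <= XE <= C|y|, TLC.int.) -/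
def SpecXOU : Prop :=
  ∀ (U V : Finset E) (u : E → E), EXT U V u → (∀ e ∈ UE, ‖u e - e‖ ≤ 17 / 100) →
    (volume (poly UE \ bal)).toReal
        - ∑ e ∈ UE, (204 / 5000 * ‖del u e‖ ^ 2 + 106 / 125 * ‖del u e‖ ^ 4)
        - 1 / 8 * ∑ f ∈ UE, ‖u f - f‖ ^ 2
      ≤ (volume (poly U \ bal)).toReal

end Pool.Agent.Lib.MP_f1379f_gt.FV
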