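import Pool.Agent.Lib.MP_f1379f_gt.FV.SpecG2
import Pool.Agent.Lib.MP_f1379f_gt.FV.SpecX
import Pool.Agent.Lib.MP_f1379f_gt.FV.SpecS4

/-!
# MP_f1379f_gt, full Q1, block F: the final comparison

`FIN`: a labelled admissible configuration in Procrustes gauge with S = sum |u e - e|^2 <= 9/100 which
satisfies the certificates (C_X) and (C_P) has vol(poly U ∩ ball 0 2) >= 16.  Everything else (the
certificates, the labelling, S <= 9/100) is in the other blocks.  x = gx u, L = gL u, r_e = gr u e,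
rr (u e) = 1 - 5 r_e where rr (u e) > 0.
-/

set_option autoImplicit false

namespace Pool.Agent.Lib.MP_f1379f_gt.FV

open MeasureTheory

/-- Two-body functional. -/
noncomputable def W2 (U : Finset E) : ℝ :=
  (volume bal).toReal - ∑ u ∈ U, v1 u + (1 / 2) * ∑ u ∈ U, ∑ v ∈ U.erase u, max 0 (v2 u v - 9 * s3)

/-- Rational value of the certificates. -/
noncomputable def Th0 : ℝ :=
  (volume bal).toReal - 240 * (801889 / 10 ^ 7) + 6720 * (5833 / 10 ^ 7)

/-- The two certificates on the near points (`a0'/2 = 17/1000`, `kappa_X = 7/100`). -/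
structure CTF (U : Finset E) (u : E → E) : Prop where
  cx : Th0 + 7 / 100 * ∑ e ∈ UE, (1 - rr (u e)) ≤ W2 U
  cp : Th0 + 17 / 1000 * ∑ e ∈ UE, ∑ f ∈ UE.erase e,
    base (TT (u e) (u f)) * (1 / 2 - TT (u e) (u f)) ≤ W2 U

/-- CEX (150 lines).  The exact slack of specCERT (CRT.lean) near E8.
PROOF.  r_e <= x <= 1/100, rr_e = 1 - 5 r_e in [19/20,1], for contacts p = 1/2 - TT = w - 2 r_e r_f in
[0,1/20].  delta1 = 801889/10^7 - c1, delta2 = GG - 5833/10^7 are in [0, 2/10^8] (PWE.lean chat_bd,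
Ghat_bd).  240 delta1 - delta1 sum rr^3 <= delta1 * 15 x (1 - rr^3 <= 3(1-rr) = 15 r; 240 = card UE).
.012 sum rr^3 (1-rr) >= .06 (19/20)^3 x >= .0514 x.  Contacts (13440 ordered pairs, (1/2)*13440 = 6720):
1 - rr^3 rr'^3 EE <= 15 r + 15 r' + (1 - EE), EE(1/2-p) >= 1 - (20/3)p (EE is convex on [0,1/2], a product of
nonnegative increasing convex functions, EE(1/2) = 1, EE'(1/2) = 20/3): 6720 delta2 - (1/2) delta2 sum (..) <=
delta2 (840 x + (10/3) L).  psi(TT) >= (7/2000) p (TT >= 9/20 > 2/5) and rr^4 rr'^4 >= (1 - 5(r+r'))^4 >=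
(19/20)^4 >= .8145 (r + r' <= x): the psi part is >= (1/2)(.8145)(7/2000)(L - 2x^2) (sum of p >= L - 2 sum r r' >=
L - 2x^2) >= .001425 L - .00286 x^2.  Total: (.0514 - .0000286 - .0000003 - .0000168) x + (.001425 - .0000001) L. -/
def SpecCEX : Prop :=
  ∀ u : E → E, CFG u → gx u ≤ 1 / 100 → (∀ e ∈ UE, ∀ f ∈ nb e, gw u e f ≤ 1 / 20) →
    240 * (801889 / 10 ^ 7 - c1) + 6720 * (GG - 5833 / 10 ^ 7) + gx u / 20 + 7 / 5000 * gL u ≤
      ∑ e ∈ UE, ((801889 / 10 ^ 7 - c1) * rr (u e) ^ 3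
          + 12 / 1000 * (rr (u e) ^ 3 * (1 - rr (u e))))
        + (1 / 2) * ∑ e ∈ UE, ∑ f ∈ nb e,
          ((GG - 5833 / 10 ^ 7) * (rr (u e) ^ 3 * rr (u f) ^ 3 * EE (TT (u e) (u f)))
            + rr (u e) ^ 4 * rr (u f) ^ 4 * psi (TT (u e) (u f)))

/-- FIN (250 lines).  The final comparison.
PROOF.  Suppose V0 := vol(poly U ∩ ball 0 2) < 16.  P := vol(bal ∩ poly U) <= V0 (bal ⊆ ball 0 2).
(0) S4F: W2 U + 241920 s4 - (31/10^8)(108 L + 4032 x) <= P < 16 (Wo u = gL u, Xr u = gx u).  I0: W2 U <= P < 16.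
Th0 >= 15.9916 (PWE.That_ge), 241920 s4 >= 241920 * 4.69e-9 >= .0011346 (QV.s4_lower): W2 U - Th0 <= B :=
72655/10^7 + (31/10^8)(108 L + 4032 x), and W2 U - Th0 <= .0084.  1 - rr (u e) = 5 r_e (rr (u e) > 0).  cx: (7/20) x
<= .0084, so x <= 24/1000, and (7/20) x <= B.  cp: (17/1000) sum_{contacts} base(TT)(1/2-TT) <= B (the other
pairs have terms >= 0: base(T) >= 0 for T >= -1, CRX.TT_lower, TT_le_half).
(1) STG2: x <= 213/10000, S <= 1/50, so |u e - e| <= 3/20 for all e, poly U ⊆ ball 0 2 (TLC.sub, u e in U),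
V0 = P + O with O = vol(poly U \ bal).  XOU: O >= vol(poly UE \ bal) - N, N = the loss of NSM.  E8V.cell:
vol(poly UE \ bal) = 16 - T0 - 241920 s4; T0 = Th0 + 240 delta1 + 6720 delta2 <= Th0 + .0001392 (chat_bd, Ghat_bd).
So 16 > P + O >= W2 U - T0 + 16 - (31/10^8)(108 L + 4032 x) - N: W2 U - T0 < N + .00003348 L + .00125 x.
(2) x >= 1/100: cx: W2 U - T0 >= .35 x - .0001392; N <= (183/1000) S (NSM2), .00125 x <= .0000267, and
L <= 2 (.017 base(1/2 - W)(L - 2x^2) <= B as in STG (3), W = x + (3/2) S <= 11/200, base(89/200) >= .25), so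
.35 x <= .0001392 + .183 S + .000067 + .00125 x.  If x <= 1/80: S <= 3/200 (STG2), right side <= .00297 < .0035.
If x >= 1/80: S <= 1/50, right side <= .00390 < .004375.
(3) x <= 1/100: S <= 1/100 (STG); contact strains <= x + (3/2)S <= 1/40 (HEX, hS <= S).  specCERT and
CEX (the terms of the other points and pairs are >= 0): W2 U - T0 >= x/20 + .0014 L; NSM.lo: N <= x/70 +
.0008 L: contradiction (1/20 - 1/70 - .00125 > 0, .0014 - .0008 - .00004 > 0; for x = L = 0 the strict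
inequality is violated too). -/
def SpecFIN : Prop :=
  ∀ (U V : Finset E) (u : E → E), Adm U → EXT U V u → CFG u → Set.InjOn u (UE : Set E) →
    (∀ e ∈ UE, 4 / 5 < rr (u e)) → CTF U u → gS u ≤ 9 / 100 →
    (16 : ENNReal) ≤ volume (poly U ∩ Metric.ball (0 : E) 2)

end Pool.Agent.Lib.MP_f1379f_gt.FV
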