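import Pool.Agent.Lib.MP_f1379f_gt.FV.CKA
import Pool.Agent.Lib.MP_f1379f_gt.FV.CKC
import Pool.Agent.Lib.MP_f1379f_gt.FV.CKD
import Pool.Agent.Lib.MP_f1379f_gt.FV.CKE
import Pool.Agent.Lib.MP_f1379f_gt.FV.CKL
import Pool.Agent.Lib.MP_f1379f_gt.FV.CKO
import Pool.Agent.Lib.MP_f1379f_gt.FV.PWH
import Pool.Agent.Lib.MP_f1379f_gt.FV.SpecF
import Pool.Agent.Lib.MP_f1379f_gt.FV.QVD
import Pool.Agent.Lib.MP_f1379f_gt.FV.BON

section
/-!
# MP_f1379f_gt, full Q1: the certificate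

`specCERT`: for every admissible configuration, with `chat = 801889/10^7`, `Ghat = 5833/10^7`,
`(vol bal - 240 chat + 6720 Ghat) + slack ≤ vol bal - ∑ v1 + (1/2) ∑ max 0 (v2 - 9 s3)`.
-/
set_option autoImplicit false
set_option linter.style.longLine false

namespace Pool.Agent.Lib.MP_f1379f_gt.FV

open MeasureTheory Finset CK

lemma base_nonneg {T : ℝ} (h : -1 ≤ T) : 0 ≤ base T := by
  unfold base
  have : 0 ≤ T + 1 := by linarith
  positivity

lemma EE_nonneg {T : ℝ} (h : -1 ≤ T) : 0 ≤ EE T := by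
  unfold EE
  have := base_nonneg h
  linarith

lemma EE_le_one {T : ℝ} (h : -1 ≤ T) (h2 : T ≤ 1 / 2) : EE T ≤ 1 := by
  unfold EE base
  rcases le_total 0 T with h0 | h0
  · have e1 : T ^ 2 ≤ 1 / 4 := by nlinarith
    have e2 : (T + 1 / 2) ^ 2 ≤ 1 := by nlinarith
    have e3 : (T + 1) * (T + 1 / 2) ^ 2 ≤ 3 / 2 * 1 :=
      mul_le_mul (by linarith) e2 (by positivity) (by norm_num)
    have e4 : (T + 1) * (T + 1 / 2) ^ 2 * T ^ 2 ≤ (3 / 2 * 1) * (1 / 4) :=
      mul_le_mul e3 e1 (by positivity) (by norm_num)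
    linarith
  · have e1 : T ^ 2 ≤ 1 := by nlinarith
    have e2 : (T + 1 / 2) ^ 2 ≤ 1 / 4 := by nlinarith
    have e3 : (T + 1) * (T + 1 / 2) ^ 2 ≤ 1 * (1 / 4) :=
      mul_le_mul (by linarith) e2 (by positivity) (by norm_num)
    have e4 : (T + 1) * (T + 1 / 2) ^ 2 * T ^ 2 ≤ (1 * (1 / 4)) * 1 :=
      mul_le_mul e3 e1 (by positivity) (by norm_num)
    linarith

lemma psi_nonneg {T : ℝ} (h : -1 ≤ T) (h2 : T ≤ 1 / 2) : 0 ≤ psi T := by
  unfold psi
  split_ifs with h1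
  · have := base_nonneg h
    have h3 : 0 ≤ 91 / 200 - T := by linarith
    positivity
  · exact le_max_of_le_left (by linarith)

/-- Every point of the domain satisfies one of the six inequalities. -/
theorem good_all (x y T : ℝ) (hx0 : 0 ≤ x) (hx1 : x ≤ 1) (hy0 : 0 ≤ y) (hy1 : y ≤ 1)
    (hlo : -1 + (x + y) / 5 + 2 / 25 * x * y ≤ T) (hhi : T ≤ 1 / 2) : Good x y T (psi T) := by
  have hxy : x * y ≤ 1 := by nlinarith
  have hxy0 : 0 ≤ x * y := mul_nonneg hx0 hy0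
  rcases le_total T (2 / 5) with h1 | h1
  · have hpsi : psi T = 313 / 10000 * base T * (91 / 200 - T) := by
      unfold psi; rw [if_pos h1]
    rw [hpsi]
    rcases le_total T (-1 / 2) with h2 | h2
    · -- lower chart
      have hden : 0 < 1 / 2 - 1 / 5 * (x + y) - 2 / 25 * (x * y) := by linarith
      obtain ⟨v, hv⟩ : ∃ v, v = (-1 / 2 - T) / (1 / 2 - 1 / 5 * (x + y) - 2 / 25 * (x * y)) :=
        ⟨_, rfl⟩
      have hv0 : 0 ≤ v := by
        rw [hv]; exact div_nonneg (by linarith) hden.le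
      have hv1 : v ≤ 1 := by
        rw [hv, div_le_one hden]; linarith
      have hT : Lr.TL x y v = T := by
        unfold Lr.TL
        rw [hv, div_mul_cancel₀ _ hden.ne']
        ring
      have := Lr.region x y v hx0 hx1 hy0 hy1 hv0 hv1
      rw [hT] at this
      exact this
    · exact Ar.region x y T hx0 hx1 hy0 hy1 (by linarith) h1
  · rcases le_total T (163 / 350) with h2 | h2
    · rcases eq_or_lt_of_le h1 with h3 | h3
      · -- T = 2/5 exactly
        have hpsi : psi T = 313 / 10000 * base T * (91 / 200 - T) := by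
          unfold psi; rw [if_pos (by linarith)]
        rw [hpsi]
        exact Ar.region x y T hx0 hx1 hy0 hy1 (by linarith) (by linarith)
      · have hpsi : psi T = 7 / 2000 * (1 / 2 - T) := by
          unfold psi
          rw [if_neg (by linarith), max_eq_left]
          exact (min_le_right _ _).trans (by linarith)
        rw [hpsi]
        exact Er.region x y T hx0 hx1 hy0 hy1 (by linarith) (by linarith)
    · rcases le_total T (97 / 200) with h3 | h3
      · have hpsi : psi T = 12 / 100000 := by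
          unfold psi
          rw [if_neg (by linarith), min_eq_right (by linarith), max_eq_right (by linarith)]
        rw [hpsi]
        exact Dr.region x y T hx0 hx1 hy0 hy1 (by linarith) (by linarith)
      · have hpsi : psi T = 8 / 1000 * (1 / 2 - T) := by
          unfold psi
          rw [if_neg (by linarith), min_eq_left (by linarith), max_eq_right (by linarith)]
        rw [hpsi]
        exact Cr.region x y T hx0 hx1 hy0 hy1 (by linarith) (by linarith)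

/-- The pair inequality. -/
theorem pair_ineq (u v : E) (hu : ‖u‖ ≤ 1) (hv : ‖v‖ ≤ 1)
    (hs : 2 * (inner ℝ u v : ℝ) ≤ ‖u‖ ^ 2 + ‖v‖ ^ 2 - ‖u‖ ^ 2 * ‖v‖ ^ 2) :
    rr u ^ 3 * rr v ^ 3 * Kt 11 4 cA (1 - rr u) (1 - rr v) (inner ℝ u v) (‖u‖ ^ 2 * ‖v‖ ^ 2)
      + ((GG - 5833 / 10 ^ 7) * (rr u ^ 3 * rr v ^ 3 * EE (TT u v))
        + rr u ^ 4 * rr v ^ 4 * psi (TT u v)) ≤ max 0 (v2 u v - 9 * s3) := by
  rcases (rr_nonneg u).eq_or_lt with hru | hru
  · rw [← hru]; simp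
  rcases (rr_nonneg v).eq_or_lt with hrv | hrv
  · rw [← hrv]; simp
  have hru1 := rr_le_one hu
  have hrv1 := rr_le_one hv
  obtain ⟨x, hx⟩ : ∃ x, x = 1 - rr u := ⟨_, rfl⟩
  obtain ⟨y, hy⟩ : ∃ y, y = 1 - rr v := ⟨_, rfl⟩
  obtain ⟨T, hT⟩ : ∃ T, T = TT u v := ⟨_, rfl⟩
  have hux : rr u = 1 - x := by rw [hx]; ring
  have hvy : rr v = 1 - y := by rw [hy]; ring
  have hn1 : ‖u‖ ^ 2 = 1 - 2 / 5 * x := by rw [hx]; exact normsq_of_rr hru
  have hn2 : ‖v‖ ^ 2 = 1 - 2 / 5 * y := by rw [hy]; exact normsq_of_rr hrv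
  have hin : (inner ℝ u v : ℝ) = T - 2 / 25 * x * y := by
    rw [hx, hy, hT]; exact inner_of_TT hru hrv
  have hlo : -1 + (x + y) / 5 + 2 / 25 * x * y ≤ T := by
    rw [hx, hy, hT]; exact TT_lower hru hrv
  have hhi : T ≤ 1 / 2 := by rw [hT]; exact TT_le_half hs
  have hx0 : 0 ≤ x := by linarith
  have hy0 : 0 ≤ y := by linarith
  have hx1 : x < 1 := by linarith
  have hy1 : y < 1 := by linarith
  have hxy0 : 0 ≤ x * y := mul_nonneg hx0 hy0
  have hT1 : -1 ≤ T := by linarith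
  have hK : Kt 11 4 cA (1 - rr u) (1 - rr v) (inner ℝ u v) (‖u‖ ^ 2 * ‖v‖ ^ 2) = Ktx x y T := by
    rw [← hx, ← hy, hin, hn1, hn2]; rfl
  rw [hK, ← hT, hux, hvy]
  have hE0 := EE_nonneg hT1
  have hE1 := EE_le_one hT1 hhi
  have hG0 := PW.Ghat_bd.1
  have hG1 := PW.Ghat_bd.2
  have ha : 0 < (1 - x) ^ 3 * (1 - y) ^ 3 := by
    have : 0 < 1 - x := by linarith
    have : 0 < 1 - y := by linarith
    positivity
  have ha1 : (1 - x) ^ 3 * (1 - y) ^ 3 ≤ 1 := by
    have e1 : (1 - x) ^ 3 ≤ 1 := pow_le_one₀ (by linarith) (by linarith)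
    have e2 : (1 - y) ^ 3 ≤ 1 := pow_le_one₀ (by linarith) (by linarith)
    have e3 : 0 ≤ (1 - y) ^ 3 := pow_nonneg (by linarith) 3
    calc (1 - x) ^ 3 * (1 - y) ^ 3 ≤ 1 * 1 := mul_le_mul e1 e2 e3 (by norm_num)
      _ = 1 := by norm_num
  have e4 : (1 - x) ^ 4 * (1 - y) ^ 4 * psi T =
      (1 - x) ^ 3 * (1 - y) ^ 3 * ((1 - x) * (1 - y) * psi T) := by ring
  rw [e4]
  have hgood := good_all x y T hx0 hx1.le hy0 hy1.le hlo hhi
  -- the second type
  have key : ∀ L : ℝ, (1 - x) ^ 3 * (1 - y) ^ 3 * (Ktx x y T + (1 - x) * (1 - y) * psi T) * dd x y T ≤ L →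
      L + (GG - 5833 / 10 ^ 7) * dd x y T ≤ (v2 u v - 9 * s3) * dd x y T → 0 < dd x y T →
      (1 - x) ^ 3 * (1 - y) ^ 3 * Ktx x y T + ((GG - 5833 / 10 ^ 7) * ((1 - x) ^ 3 * (1 - y) ^ 3 * EE T)
        + (1 - x) ^ 3 * (1 - y) ^ 3 * ((1 - x) * (1 - y) * psi T)) ≤ max 0 (v2 u v - 9 * s3) := by
    intro L h1 h2 h3
    apply le_max_of_le_right
    have h4 : (1 - x) ^ 3 * (1 - y) ^ 3 * EE T ≤ 1 := by
      calc (1 - x) ^ 3 * (1 - y) ^ 3 * EE T ≤ 1 * 1 := mul_le_mul ha1 hE1 hE0 (by norm_num)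
        _ = 1 := by norm_num
    have h5 : (GG - 5833 / 10 ^ 7) * ((1 - x) ^ 3 * (1 - y) ^ 3 * EE T) ≤ (GG - 5833 / 10 ^ 7) * 1 :=
      mul_le_mul_of_nonneg_left h4 hG0
    have h6 : (1 - x) ^ 3 * (1 - y) ^ 3 * (Ktx x y T + (1 - x) * (1 - y) * psi T) + (GG - 5833 / 10 ^ 7)
        ≤ v2 u v - 9 * s3 := by
      apply le_of_mul_le_mul_right _ h3
      linarith
    linarith
  have hne : u ≠ v := by
    rintro rfl
    have h1 : (inner ℝ u u : ℝ) = ‖u‖ ^ 2 := real_inner_self_eq_norm_sq u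
    rw [h1] at hs
    have h2 : 0 < ‖u‖ ^ 2 := by rw [hn1]; linarith
    nlinarith
  have hdd : ‖u - v‖ ^ 2 = dd x y T := by
    rw [norm_sub_sq_real, hn1, hn2, hin]
    unfold dd
    ring
  have hDD : Dt u v = DD x y T := by
    unfold Dt DD
    rw [hn1, hn2, hin]
  have hddp : 0 < dd x y T := by
    rw [← hdd]
    have : 0 < ‖u - v‖ := norm_pos_iff.2 (sub_ne_zero.2 hne)
    positivity
  rcases hgood with h | h | h | h | h | h
  · -- first type
    unfold NegP at h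
    apply le_max_of_le_left
    have h1 : (GG - 5833 / 10 ^ 7) * EE T ≤ 2 / 10 ^ 8 * EE T := mul_le_mul_of_nonneg_right hG1 hE0
    have h2 : (1 - x) ^ 3 * (1 - y) ^ 3 * (Ktx x y T + (GG - 5833 / 10 ^ 7) * EE T
        + (1 - x) * (1 - y) * psi T) ≤ 0 := mul_nonpos_of_nonneg_of_nonpos ha.le (by linarith)
    linarith
  · have hk := PW.kind0 u v hu hv hne (by rw [hn1]; linarith) (by rw [hn2]; linarith) hs
    rw [hdd, hDD, hn1, hn2] at hk
    exact key _ h (by linarith) hddp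
  · have hk := PW.kind_r1 u v hu hv hne
    rw [hdd, hDD, hn1, hn2] at hk
    exact key _ h (by linarith) hddp
  · have hk := PW.kind_r2 u v hu hv hne
    rw [hdd, hDD, hn1, hn2] at hk
    exact key _ h (by linarith) hddp
  · have hk := PW.kind_r3 u v hu hv hne
    rw [hdd, hDD, hn1, hn2] at hk
    exact key _ h (by linarith) hddp
  · have hk := PW.kind_r4 u v hu hv hne
    rw [hdd, hDD, hn1, hn2] at hk
    exact key _ h (by linarith) hddp

/-- The one-body inequality. -/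
theorem one_ineq (u : E) (hu : ‖u‖ ≤ 1) :
    v1 u + rr u ^ 6 * Kt 11 4 cA (1 - rr u) (1 - rr u) (‖u‖ ^ 2) (‖u‖ ^ 2 * ‖u‖ ^ 2) / 2
      + ((801889 / 10 ^ 7 - c1) * rr u ^ 3 + 12 / 1000 * (rr u ^ 3 * (1 - rr u))) ≤
        240 * (rr u ^ 3 * ∑ i ∈ range 4, cA 0 i 0 * (1 - rr u) ^ i) := by
  have h0 := PW.vO_all u hu
  rcases (rr_nonneg u).eq_or_lt with hru | hru
  · rw [← hru] at h0 ⊢
    simp at h0 ⊢
    exact h0
  obtain ⟨x, hx⟩ : ∃ x, x = 1 - rr u := ⟨_, rfl⟩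
  have hux : rr u = 1 - x := by rw [hx]; ring
  have hn1 : ‖u‖ ^ 2 = 1 - 2 / 5 * x := by rw [hx]; exact normsq_of_rr hru
  have hru1 := rr_le_one hu
  have h1 := Or.region x (by linarith) (by linarith)
  have h2 : (1 - x) ^ 3 * (PW.VV x + 12 / 1000 * x + 1 / 2 * ((1 - x) ^ 3 *
      Kt 11 4 cA x x (1 - 2 / 5 * x) ((1 - 2 / 5 * x) * (1 - 2 / 5 * x)))) ≤
      (1 - x) ^ 3 * (240 * ∑ i ∈ range 4, cA 0 i 0 * x ^ i) :=
    mul_le_mul_of_nonneg_left h1 (pow_nonneg (by linarith) 3)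
  rw [← hx] at h0 ⊢
  rw [hn1]
  rw [hux] at h0 ⊢
  have e1 : (1 - x) ^ 6 = (1 - x) ^ 3 * (1 - x) ^ 3 := by ring
  rw [e1]
  linarith

/-- **The certificate.** -/
theorem specCERT (U : Finset E) (hU : Adm U) :
    ((volume bal).toReal - 240 * (801889 / 10 ^ 7) + 6720 * (5833 / 10 ^ 7))
      + ∑ u ∈ U, ((801889 / 10 ^ 7 - c1) * rr u ^ 3 + 12 / 1000 * (rr u ^ 3 * (1 - rr u)))
      + (1 / 2) * ∑ u ∈ U, ∑ v ∈ U.erase u,
          ((GG - 5833 / 10 ^ 7) * (rr u ^ 3 * rr v ^ 3 * EE (TT u v))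
            + rr u ^ 4 * rr v ^ 4 * psi (TT u v))
      ≤ (volume bal).toReal - ∑ u ∈ U, v1 u
        + (1 / 2) * ∑ u ∈ U, ∑ v ∈ U.erase u, max 0 (v2 u v - 9 * s3) := by
  have h := cert_ldl U hU 11 4 4 cw cL cw_nonneg cA (fun _ _ _ => rfl) _ _ pair_ineq one_ineq
  have h0 : 28800 * cA 0 0 0 = 240 * (801889 / 10 ^ 7) - 6720 * (5833 / 10 ^ 7) := by
    unfold cA
    simp only [sum_range_succ, sum_range_zero, cw, cL, cL0]
    norm_num
  rw [h0] at h
  linarith

end Pool.Agent.Lib.MP_f1379f_gt.FV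
end

section
/-!
# MP_f1379f_gt, full Q1, block F: FIN, the final comparison
-/
set_option autoImplicit false
set_option linter.constructorNameAsVariable false

namespace Pool.Agent.Lib.MP_f1379f_gt.FV

open MeasureTheory

namespace FINM

lemma base_mono {a b : ℝ} (ha : 0 ≤ a) (hab : a ≤ b) : base a ≤ base b := by
  have hb : 0 ≤ b := le_trans ha hab
  unfold base
  gcongr

lemma base_pos0 {a : ℝ} (ha : 0 ≤ a) : 0 ≤ base a := by
  unfold base
  positivity

lemma nb_ne (hUEF : SpecUEF) {e f : E} (hf : f ∈ nb e) : f ∈ UE ∧ e ≠ f := by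
  have hf' := Finset.mem_filter.mp hf
  refine ⟨hf'.1, ?_⟩
  intro h
  have h1 := hf'.2
  rw [h, real_inner_self_eq_norm_sq, hUEF.nrm f hf'.1] at h1
  norm_num at h1

lemma TT_eq (u : E → E) (e f : E) :
    TT (u e) (u f) = 1 / 2 - (gw u e f - 2 * (gr u e * gr u f)) := by
  unfold TT gw gr
  ring

/-- Lower bound of the contact sum of the certificate. -/
lemma contact_lower (hUEF : SpecUEF) (hGBA : SpecGBA) {u : E → E} (hu : CFG u) {W : ℝ}
    (hW : ∀ e ∈ UE, ∀ f ∈ nb e, gw u e f ≤ W) (hWh : W ≤ 1 / 2) :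
    base (1 / 2 - W) * (gL u - 2 * gx u ^ 2) ≤
      ∑ e ∈ UE, ∑ f ∈ nb e, base (TT (u e) (u f)) * (1 / 2 - TT (u e) (u f)) := by
  have hr0 := hGBA.r0 u hu
  have hB0 : 0 ≤ base (1 / 2 - W) := base_pos0 (by linarith)
  have k1 : ∀ e ∈ UE, ∀ f ∈ nb e,
      base (1 / 2 - W) * (gw u e f - 2 * (gr u e * gr u f)) ≤
        base (TT (u e) (u f)) * (1 / 2 - TT (u e) (u f)) := by
    intro e he f hf
    obtain ⟨hfU, hne'⟩ := nb_ne hUEF hf
    have hp0 : 0 ≤ gw u e f - 2 * (gr u e * gr u f) := by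
      have := hGBA.w2 u hu e he f hfU hne'
      linarith
    have hp1 : gw u e f - 2 * (gr u e * gr u f) ≤ W := by
      have := hW e he f hf
      have := mul_nonneg (hr0 e he) (hr0 f hfU)
      linarith
    rw [TT_eq]
    have e1 : base (1 / 2 - W) ≤ base (1 / 2 - (gw u e f - 2 * (gr u e * gr u f))) :=
      base_mono (by linarith) (by linarith)
    have e2 := mul_le_mul_of_nonneg_right e1 hp0
    linarith
  have k2 : ∑ e ∈ UE, ∑ f ∈ nb e, (gr u e * gr u f) ≤ gx u ^ 2 := by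
    have e1 : gx u ^ 2 = ∑ e ∈ UE, ∑ f ∈ UE, (gr u e * gr u f) := by
      rw [sq]
      unfold gx
      rw [Finset.sum_mul_sum]
    rw [e1]
    refine Finset.sum_le_sum fun e he => ?_
    refine Finset.sum_le_sum_of_subset_of_nonneg (Finset.filter_subset _ _) ?_
    intro f hf _
    exact mul_nonneg (hr0 e he) (hr0 f hf)
  have k3 : gL u - 2 * gx u ^ 2 ≤
      ∑ e ∈ UE, ∑ f ∈ nb e, (gw u e f - 2 * (gr u e * gr u f)) := by
    have e1 : ∑ e ∈ UE, ∑ f ∈ nb e, (gw u e f - 2 * (gr u e * gr u f)) =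
        gL u - 2 * ∑ e ∈ UE, ∑ f ∈ nb e, (gr u e * gr u f) := by
      unfold gL
      simp only [Finset.sum_sub_distrib, Finset.mul_sum]
    rw [e1]
    linarith
  calc base (1 / 2 - W) * (gL u - 2 * gx u ^ 2)
      ≤ base (1 / 2 - W) * ∑ e ∈ UE, ∑ f ∈ nb e, (gw u e f - 2 * (gr u e * gr u f)) :=
        mul_le_mul_of_nonneg_left k3 hB0
    _ = ∑ e ∈ UE, ∑ f ∈ nb e, base (1 / 2 - W) * (gw u e f - 2 * (gr u e * gr u f)) := by
        simp only [Finset.mul_sum]
    _ ≤ _ := Finset.sum_le_sum fun e he => Finset.sum_le_sum fun f hf => k1 e he f hf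

lemma gL_nonneg (hUEF : SpecUEF) (hGBA : SpecGBA) {u : E → E} (hu : CFG u) : 0 ≤ gL u := by
  have hr0 := hGBA.r0 u hu
  refine Finset.sum_nonneg fun e he => Finset.sum_nonneg fun f hf => ?_
  obtain ⟨hfU, hne'⟩ := nb_ne hUEF hf
  have h1 := hGBA.w2 u hu e he f hfU hne'
  have h2 := mul_nonneg (hr0 e he) (hr0 f hfU)
  linarith

lemma hS_le (hHXC : SpecHXC) (u : E → E) {e f : E} (he : e ∈ UE) (hf : f ∈ nb e) :
    hS u e f ≤ gS u := by
  unfold hS gS
  have h1 : ∑ i, ‖u (hx e f i) - hx e f i‖ ^ 2 =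
      ∑ v ∈ Finset.univ.image (hx e f), ‖u v - v‖ ^ 2 := by
    rw [Finset.sum_image]
    intro i _ j _ hij
    exact hHXC.inj e he f hf hij
  rw [h1]
  refine Finset.sum_le_sum_of_subset_of_nonneg ?_ fun v _ _ => sq_nonneg _
  intro v hv
  rw [Finset.mem_image] at hv
  obtain ⟨i, _, hi⟩ := hv
  rw [← hi]
  exact hHXC.mem e he f hf i

/-- The sum over U dominates the sum over the labelled points. -/
lemma sum_lab {U : Finset E} {u : E → E} (hlab : ∀ e ∈ UE, u e ∈ U)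
    (hinj : Set.InjOn u (UE : Set E)) {g : E → ℝ} (hg : ∀ v ∈ U, 0 ≤ g v) :
    ∑ e ∈ UE, g (u e) ≤ ∑ v ∈ U, g v := by
  classical
  rw [← Finset.sum_image (f := g) (g := u) (s := UE) hinj]
  refine Finset.sum_le_sum_of_subset_of_nonneg ?_ fun v hv _ => hg v hv
  intro v hv
  rw [Finset.mem_image] at hv
  obtain ⟨e, he, rfl⟩ := hv
  exact hlab e he

/-- The sum over the pairs of U dominates the sum over the labelled contact pairs. -/
lemma sum_lab2 (hUEF : SpecUEF) {U : Finset E} {u : E → E} (hlab : ∀ e ∈ UE, u e ∈ U)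
    (hinj : Set.InjOn u (UE : Set E)) {g : E → E → ℝ}
    (hg : ∀ v ∈ U, ∀ w ∈ U, v ≠ w → 0 ≤ g v w) :
    ∑ e ∈ UE, ∑ f ∈ nb e, g (u e) (u f) ≤ ∑ v ∈ U, ∑ w ∈ U.erase v, g v w := by
  classical
  refine le_trans ?_ (sum_lab (g := fun v => ∑ w ∈ U.erase v, g v w) hlab hinj fun v hv =>
    Finset.sum_nonneg fun w hw => hg v hv w (Finset.mem_of_mem_erase hw)
      (Finset.ne_of_mem_erase hw).symm)
  refine Finset.sum_le_sum fun e he => ?_
  have h1 : ∑ f ∈ nb e, g (u e) (u f) = ∑ w ∈ (nb e).image u, g (u e) w := by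
    rw [Finset.sum_image]
    intro a ha b hb hab
    exact hinj (nb_ne hUEF ha).1 (nb_ne hUEF hb).1 hab
  rw [h1]
  refine Finset.sum_le_sum_of_subset_of_nonneg ?_ fun w hw _ =>
    hg _ (hlab e he) w (Finset.mem_of_mem_erase hw) (Finset.ne_of_mem_erase hw).symm
  intro w hw
  rw [Finset.mem_image] at hw
  obtain ⟨f, hf, rfl⟩ := hw
  obtain ⟨hfU, hne⟩ := nb_ne hUEF hf
  rw [Finset.mem_erase]
  exact ⟨fun h => hne (hinj he hfU h.symm), hlab f hfU⟩

/-- The final inequality, in numbers.  `P` = volume in the ball, `O` = volume outside, `V` = the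
tail of E8, `T` = T0, `Th` = Th0, `N` = the loss. -/
lemma arith {P O V W T Th N x L s A B S : ℝ} (hPO : P + O < 16)
    (hx0 : 0 ≤ x) (hL0 : 0 ≤ L)
    (h4 : W + 241920 * s - 31 / 10 ^ 8 * (108 * L + 4032 * x) ≤ P)
    (hcell : 16 = T + 241920 * s + V) (hO : V - N ≤ O)
    (hT : T = Th + 240 * A + 6720 * B) (hA : A ≤ 2 / 10 ^ 8) (hB : B ≤ 2 / 10 ^ 8)
    (hcx : Th + 7 / 100 * (5 * x) ≤ W)
    (hL : L ≤ 2) (hNhi : N ≤ 183 / 1000 * S) (hS : S ≤ 1 / 50) (hS80 : x ≤ 1 / 80 → S ≤ 3 / 200)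
    (hlo : x ≤ 1 / 100 → N ≤ x / 70 + 8 / 10000 * L ∧
      Th + (240 * A + 6720 * B + x / 20 + 7 / 5000 * L) ≤ W) : False := by
  rcases le_total x (1 / 100) with h | h
  · obtain ⟨h1, h2⟩ := hlo h
    norm_num at h4
    linarith
  · rcases le_total x (1 / 80) with h' | h'
    · have h3 := hS80 h'
      norm_num at h4 hA hB
      linarith
    · norm_num at h4 hA hB
      linarith

end FINM

open FINM in
theorem specFIN (hUEF : SpecUEF) (hTLC : SpecTLC) (hE8V : SpecE8V) (hGBA : SpecGBA)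
    (hHXC : SpecHXC) (hHEX : SpecHEX) (hSTG2 : SpecSTG2) (hNSM : SpecNSM) (hNSM2 : SpecNSM2)
    (hCEX : SpecCEX)
    (hXOU : SpecXOU) (hS4F : SpecS4F) (hI0 : SpecI0) : SpecFIN := by
  classical
  intro U V u hAdm hEXT hu hinj hrr hCTF hS
  by_contra hcon
  push Not at hcon
  have hr0 := hGBA.r0 u hu
  have hx0 : 0 ≤ gx u := Finset.sum_nonneg hr0
  have hL0 : 0 ≤ gL u := gL_nonneg hUEF hGBA hu
  have hs := QV.s4_lower
  have hTh : 15.9916 < Th0 := PW.That_ge
  -- volumes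
  have hsub1 : bal ∩ poly U ⊆ poly U ∩ Metric.ball (0 : E) 2 := by
    rintro y ⟨hy1, hy2⟩
    refine ⟨hy2, ?_⟩
    rw [mem_ball_zero_iff]
    have h1 : ‖y‖ ^ 2 < 5 / 3 := hy1
    nlinarith [norm_nonneg y]
  have hP : (volume (bal ∩ poly U)).toReal < 16 := by
    have h1 := lt_of_le_of_lt (measure_mono hsub1) hcon
    have h2 := (ENNReal.toReal_lt_toReal h1.ne_top (by norm_num)).mpr h1
    simpa using h2
  have h4F := hS4F U u hAdm hEXT.lab hinj
  have hWo : Wo u = gL u := rfl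
  have hXr : Xr u = gx u := rfl
  rw [hWo, hXr] at h4F
  have hW2 : (volume bal).toReal - ∑ v ∈ U, v1 v
        + (1 / 2) * ∑ v ∈ U, ∑ w ∈ U.erase v, max 0 (v2 v w - 9 * s3) = W2 U := rfl
  rw [hW2] at h4F
  have h1rr : ∀ e ∈ UE, 1 - rr (u e) = 5 * gr u e := by
    intro e he
    rw [rr_of_pos (lt_trans (by norm_num) (hrr e he))]
    unfold gr
    ring
  have hcx : Th0 + 7 / 100 * (5 * gx u) ≤ W2 U := by
    have h1 := hCTF.cx
    rw [Finset.sum_congr rfl h1rr, ← Finset.mul_sum] at h1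
    exact h1
  have hx' : gx u ≤ 24 / 1000 := by
    have h1 := hI0 U hAdm
    rw [hW2] at h1
    linarith
  have hxL : 7 / 20 * gx u ≤ 72655 / 10 ^ 7 + 31 / 10 ^ 8 * (108 * gL u + 4032 * gx u) := by
    norm_num at h4F hs ⊢
    linarith
  -- the certificate (C_P)
  have hC : 17 / 1000 * ∑ e ∈ UE, ∑ f ∈ nb e,
      base (TT (u e) (u f)) * (1 / 2 - TT (u e) (u f)) ≤
        72655 / 10 ^ 7 + 31 / 10 ^ 8 * (108 * gL u + 4032 * gx u) := by
    have h1 := hCTF.cp
    have h2 : ∑ e ∈ UE, ∑ f ∈ nb e, base (TT (u e) (u f)) * (1 / 2 - TT (u e) (u f)) ≤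
        ∑ e ∈ UE, ∑ f ∈ UE.erase e, base (TT (u e) (u f)) * (1 / 2 - TT (u e) (u f)) := by
      refine Finset.sum_le_sum fun e he => ?_
      refine Finset.sum_le_sum_of_subset_of_nonneg ?_ ?_
      · intro f hf
        obtain ⟨hfU, hne⟩ := nb_ne hUEF hf
        rw [Finset.mem_erase]
        exact ⟨hne.symm, hfU⟩
      · intro f hf _
        have hfU := Finset.mem_of_mem_erase hf
        have hne := (Finset.ne_of_mem_erase hf).symm
        have e1 := TT_le_half (hu.sep e he f hfU hne)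
        have e2 := TT_lower (lt_trans (by norm_num) (hrr e he))
          (lt_trans (by norm_num) (hrr f hfU))
        have e3 := rr_le_one (hu.le_one e he)
        have e4 := rr_le_one (hu.le_one f hfU)
        have e5 : 0 ≤ 2 / 25 * (1 - rr (u e)) * (1 - rr (u f)) := by
          have a1 : 0 ≤ 1 - rr (u e) := by linarith
          have a2 : 0 ≤ 1 - rr (u f) := by linarith
          have a3 := mul_nonneg a1 a2
          linarith
        exact mul_nonneg (base_nonneg (by linarith)) (by linarith)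
    norm_num at h4F hs ⊢
    linarith
  -- stage 1'
  obtain ⟨hx, hS50, hS80, hS100⟩ := hSTG2 u hu hS hx' hxL hC
  have hd : ∀ e ∈ UE, ‖u e - e‖ ≤ 3 / 20 := by
    intro e he
    have h1 : ‖u e - e‖ ^ 2 ≤ gS u :=
      Finset.single_le_sum (f := fun e => ‖u e - e‖ ^ 2) (fun i _ => sq_nonneg _) he
    have h2 : ‖u e - e‖ ^ 2 ≤ (3 / 20) ^ 2 := by
      refine le_trans h1 (le_trans hS50 (by norm_num))
    exact le_of_sq_le_sq h2 (by norm_num)
  have hsub2 : poly U ⊆ Metric.ball (0 : E) 2 := by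
    intro y hy
    refine hTLC.sub u (fun e he => le_trans (hd e he) (by norm_num)) ?_
    intro e he
    exact hy _ (hEXT.lab e he)
  -- contact strains
  have hWS : ∀ e ∈ UE, ∀ f ∈ nb e, gw u e f ≤ gx u + 3 / 2 * gS u := by
    intro e he f hf
    have h1 := hHEX u hu e he f hf
    have h2 := hS_le hHXC u he hf
    linarith
  have hW : ∀ e ∈ UE, ∀ f ∈ nb e, gw u e f ≤ 11 / 200 := by
    intro e he f hf
    have h1 := hWS e he f hf
    linarith
  have hL2 : gL u ≤ 2 := by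
    have h1 := contact_lower hUEF hGBA hu hW (by norm_num)
    have h2 : base (1 / 2 - 11 / 200) = 81771405849 / 320000000000 := by
      unfold base
      norm_num
    have h3 : gx u ^ 2 ≤ (213 / 10000) ^ 2 := pow_le_pow_left₀ hx0 hx 2
    rw [h2] at h1
    norm_num at h3 hC
    linarith
  -- volumes outside the ball
  have hO := hXOU U V u hEXT fun e he => le_trans (hd e he) (by norm_num)
  have hPO : (volume (bal ∩ poly U)).toReal + (volume (poly U \ bal)).toReal < 16 := by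
    have h1 : volume (poly U) < 16 := by
      rwa [Set.inter_eq_left.mpr hsub2] at hcon
    have h2 : volume (poly U ∩ bal) + volume (poly U \ bal) = volume (poly U) :=
      measure_inter_add_sdiff _ BONM.meas_bal
    have f1 : volume (poly U ∩ bal) ≠ ⊤ :=
      (lt_of_le_of_lt (measure_mono Set.inter_subset_left) h1).ne_top
    have f2 : volume (poly U \ bal) ≠ ⊤ :=
      (lt_of_le_of_lt (measure_mono Set.sdiff_subset) h1).ne_top
    rw [Set.inter_comm, ← ENNReal.toReal_add f1 f2, h2]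
    have h3 := (ENNReal.toReal_lt_toReal h1.ne_top (by norm_num)).mpr h1
    simpa using h3
  have hT : T0 = Th0 + 240 * (801889 / 10 ^ 7 - c1) + 6720 * (GG - 5833 / 10 ^ 7) := by
    unfold T0 Th0
    ring
  refine arith (N := ∑ e ∈ UE, (204 / 5000 * ‖del u e‖ ^ 2 + 106 / 125 * ‖del u e‖ ^ 4)
    + 1 / 8 * gS u) hPO hx0 hL0 h4F hE8V.cell ?_ hT PW.chat_bd.2 PW.Ghat_bd.2 hcx hL2
    (hNSM2 u hu hS50) hS50 hS80 ?_
  · unfold gS
    linarith
  · intro hx1
    refine ⟨hNSM.lo u hu (hS100 hx1) hx1, ?_⟩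
    have hcert := specCERT U hAdm
    rw [hW2] at hcert
    have hcex := hCEX u hu hx1 fun e he f hf => by
      have h1 := hWS e he f hf
      have h2 := hS100 hx1
      linarith
    have hA := PW.chat_bd.1
    have hB := PW.Ghat_bd.1
    have g1 := sum_lab (g := fun v => (801889 / 10 ^ 7 - c1) * rr v ^ 3
      + 12 / 1000 * (rr v ^ 3 * (1 - rr v))) hEXT.lab hinj fun v hv => by
        have a1 := rr_nonneg v
        have a2 := rr_le_one (hAdm.le_one v hv)
        have a3 := pow_nonneg a1 3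
        have a4 := mul_nonneg hA a3
        have a5 := mul_nonneg a3 (by linarith : (0 : ℝ) ≤ 1 - rr v)
        show 0 ≤ (801889 / 10 ^ 7 - c1) * rr v ^ 3 + 12 / 1000 * (rr v ^ 3 * (1 - rr v))
        linarith
    have g2 := sum_lab2 hUEF (g := fun v w => (GG - 5833 / 10 ^ 7) *
        (rr v ^ 3 * rr w ^ 3 * EE (TT v w)) + rr v ^ 4 * rr w ^ 4 * psi (TT v w))
        hEXT.lab hinj fun v hv w hw hvw => by
      show 0 ≤ (GG - 5833 / 10 ^ 7) * (rr v ^ 3 * rr w ^ 3 * EE (TT v w))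
        + rr v ^ 4 * rr w ^ 4 * psi (TT v w)
      rcases (rr_nonneg v).eq_or_lt with h0 | h0
      · rw [← h0]; simp
      rcases (rr_nonneg w).eq_or_lt with h1 | h1
      · rw [← h1]; simp
      have b1 := rr_le_one (hAdm.le_one v hv)
      have b2 := rr_le_one (hAdm.le_one w hw)
      have b3 := TT_lower h0 h1
      have b4 := TT_le_half (hAdm.sep v hv w hw hvw)
      have b5 : 0 ≤ 2 / 25 * (1 - rr v) * (1 - rr w) := by
        have a1 : 0 ≤ 1 - rr v := by linarith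
        have a2 : 0 ≤ 1 - rr w := by linarith
        have a3 := mul_nonneg a1 a2
        linarith
      have b6 : -1 ≤ TT v w := by linarith
      have b7 := EE_nonneg b6
      have b8 := psi_nonneg b6 b4
      have c1 := mul_nonneg hB (mul_nonneg (mul_nonneg (pow_nonneg h0.le 3)
        (pow_nonneg h1.le 3)) b7)
      have c2 := mul_nonneg (mul_nonneg (pow_nonneg h0.le 4) (pow_nonneg h1.le 4)) b8
      linarith
    unfold Th0
    linarith

end Pool.Agent.Lib.MP_f1379f_gt.FV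
end
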