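import Pool.Agent.Lib.MP_f1379f_gt.FV.SpecE

set_option autoImplicit false

namespace Pool.Agent.Lib.MP_f1379f_gt.FV.IEXM

open MeasureTheory Finset

open Classical in
/-- the cap indicator -/
noncomputable def f (u y : E) : ℝ := if 1 < (inner ℝ u y : ℝ) then 1 else 0

/-- the half space -/
def hs (u : E) : Set E := {y | 1 < (inner ℝ u y : ℝ)}

theorem hs_meas (u : E) : MeasurableSet (hs u) := by
  apply IsOpen.measurableSet
  exact isOpen_lt continuous_const (by fun_prop)

theorem bal_meas : MeasurableSet bal := by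
  apply IsOpen.measurableSet
  exact isOpen_lt (by fun_prop) continuous_const

theorem bal_fin : volume bal < ⊤ := by
  have : bal ⊆ Metric.ball (0 : E) 2 := by
    intro y hy
    have h1 : ‖y‖ ^ 2 < 5 / 3 := hy
    rw [mem_ball_zero_iff]
    nlinarith [norm_nonneg y]
  exact (measure_mono this).trans_lt measure_ball_lt_top

instance : IsFiniteMeasure (volume.restrict bal) :=
  ⟨by rw [Measure.restrict_apply_univ]; exact bal_fin⟩

open Classical in
theorem meas (s : Set E) (hm : MeasurableSet s) (g : E → ℝ) (hg : ∀ y, g y = if y ∈ s then 1 else 0) :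
    Integrable g (volume.restrict bal) ∧ ∫ y in bal, g y = (volume (bal ∩ s)).toReal := by
  have e : g = s.indicator (1 : E → ℝ) := by
    funext y
    rw [hg y]
    by_cases h : y ∈ s
    · simp [h]
    · simp [h]
  rw [e]
  constructor
  · exact (integrable_const (1 : ℝ)).indicator hm
  · rw [integral_indicator_one hm, Measure.real, Measure.restrict_apply hm, Set.inter_comm]

theorem f_nonneg (u y : E) : 0 ≤ f u y := by unfold f; split_ifs <;> norm_num

theorem f_sq (u y : E) : f u y * f u y = f u y := by unfold f; split_ifs <;> norm_num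

theorem i1 (u : E) : Integrable (fun y => f u y) (volume.restrict bal) ∧
    ∫ y in bal, f u y = v1 u := by
  have := meas (hs u) (hs_meas u) (fun y => f u y) (fun y => rfl)
  exact this

theorem i2 (u v : E) : Integrable (fun y => f u y * f v y) (volume.restrict bal) ∧
    ∫ y in bal, f u y * f v y = v2 u v := by
  have := meas (hs u ∩ hs v) ((hs_meas u).inter (hs_meas v)) (fun y => f u y * f v y) (by
    intro y
    unfold f hs
    by_cases h1 : 1 < (inner ℝ u y : ℝ) <;> by_cases h2 : 1 < (inner ℝ v y : ℝ) <;> simp [h1, h2])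
  refine ⟨this.1, this.2.trans ?_⟩
  unfold v2
  congr 2
  ext y
  simp only [cap, bal, hs, Set.mem_inter_iff, Set.mem_ofPred_eq]
  tauto

theorem i3 (u v w : E) : Integrable (fun y => f u y * f v y * f w y) (volume.restrict bal) ∧
    ∫ y in bal, f u y * f v y * f w y = v3 u v w := by
  have := meas (hs u ∩ hs v ∩ hs w) (((hs_meas u).inter (hs_meas v)).inter (hs_meas w))
    (fun y => f u y * f v y * f w y) (by
    intro y
    unfold f hs
    by_cases h1 : 1 < (inner ℝ u y : ℝ) <;> by_cases h2 : 1 < (inner ℝ v y : ℝ) <;>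
      by_cases h3 : 1 < (inner ℝ w y : ℝ) <;> simp [h1, h2, h3])
  refine ⟨this.1, this.2.trans ?_⟩
  unfold v3
  congr 2
  ext y
  simp only [cap, bal, hs, Set.mem_inter_iff, Set.mem_ofPred_eq]
  tauto

theorem i4 (u v w z : E) :
    Integrable (fun y => f u y * f v y * f w y * f z y) (volume.restrict bal) ∧
    ∫ y in bal, f u y * f v y * f w y * f z y = v4 u v w z := by
  have := meas (hs u ∩ hs v ∩ hs w ∩ hs z)
    ((((hs_meas u).inter (hs_meas v)).inter (hs_meas w)).inter (hs_meas z))
    (fun y => f u y * f v y * f w y * f z y) (by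
    intro y
    unfold f hs
    by_cases h1 : 1 < (inner ℝ u y : ℝ) <;> by_cases h2 : 1 < (inner ℝ v y : ℝ) <;>
      by_cases h3 : 1 < (inner ℝ w y : ℝ) <;> by_cases h4 : 1 < (inner ℝ z y : ℝ) <;>
      simp [h1, h2, h3, h4])
  refine ⟨this.1, this.2.trans ?_⟩
  unfold v4
  congr 2
  ext y
  simp only [cap, bal, hs, Set.mem_inter_iff, Set.mem_ofPred_eq]
  tauto

/-- the pair-triple integrand of one pair -/
theorem ip (U : Finset E) (u v : E) :
    Integrable (fun y => f u y * f v y -
      (1 / 3) * ∑ w ∈ (U.erase u).erase v, f u y * f v y * f w y) (volume.restrict bal) ∧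
    ∫ y in bal, (f u y * f v y - (1 / 3) * ∑ w ∈ (U.erase u).erase v, f u y * f v y * f w y)
      = v2 u v - (1 / 3) * ∑ w ∈ (U.erase u).erase v, v3 u v w := by
  have hs3 : Integrable (fun y => ∑ w ∈ (U.erase u).erase v, f u y * f v y * f w y)
      (volume.restrict bal) := integrable_finsetSum _ (fun w _ => (i3 u v w).1)
  constructor
  · exact (i2 u v).1.sub (hs3.const_mul _)
  · rw [integral_sub (i2 u v).1 (hs3.const_mul _), (i2 u v).2, integral_const_mul,
      integral_finsetSum _ (fun w _ => (i3 u v w).1)]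
    simp only [(i3 u v _).2]

theorem iS23 (U : Finset E) :
    Integrable (fun y => ∑ u ∈ U, ∑ v ∈ U.erase u, (f u y * f v y -
      (1 / 3) * ∑ w ∈ (U.erase u).erase v, f u y * f v y * f w y)) (volume.restrict bal) ∧
    ∫ y in bal, ∑ u ∈ U, ∑ v ∈ U.erase u, (f u y * f v y -
      (1 / 3) * ∑ w ∈ (U.erase u).erase v, f u y * f v y * f w y) = S23 U := by
  have h1 : ∀ u ∈ U, Integrable (fun y => ∑ v ∈ U.erase u, (f u y * f v y -
      (1 / 3) * ∑ w ∈ (U.erase u).erase v, f u y * f v y * f w y)) (volume.restrict bal) :=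
    fun u _ => integrable_finsetSum _ (fun v _ => (ip U u v).1)
  refine ⟨integrable_finsetSum _ h1, ?_⟩
  rw [integral_finsetSum _ h1]
  unfold S23
  apply Finset.sum_congr rfl
  intro u _
  rw [integral_finsetSum _ (fun v _ => (ip U u v).1)]
  simp only [(ip U u _).2]

theorem iS4 (U : Finset E) :
    Integrable (fun y => ∑ u ∈ U, ∑ v ∈ U.erase u, ∑ w ∈ (U.erase u).erase v,
      ∑ z ∈ ((U.erase u).erase v).erase w, f u y * f v y * f w y * f z y) (volume.restrict bal) ∧
    ∫ y in bal, ∑ u ∈ U, ∑ v ∈ U.erase u, ∑ w ∈ (U.erase u).erase v,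
      ∑ z ∈ ((U.erase u).erase v).erase w, f u y * f v y * f w y * f z y = S4 U := by
  have h3 : ∀ u v w, Integrable (fun y => ∑ z ∈ ((U.erase u).erase v).erase w,
      f u y * f v y * f w y * f z y) (volume.restrict bal) :=
    fun u v w => integrable_finsetSum _ (fun z _ => (i4 u v w z).1)
  have h2 : ∀ u v, Integrable (fun y => ∑ w ∈ (U.erase u).erase v,
      ∑ z ∈ ((U.erase u).erase v).erase w, f u y * f v y * f w y * f z y) (volume.restrict bal) :=
    fun u v => integrable_finsetSum _ (fun w _ => h3 u v w)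
  have h1 : ∀ u, Integrable (fun y => ∑ v ∈ U.erase u, ∑ w ∈ (U.erase u).erase v,
      ∑ z ∈ ((U.erase u).erase v).erase w, f u y * f v y * f w y * f z y) (volume.restrict bal) :=
    fun u => integrable_finsetSum _ (fun v _ => h2 u v)
  refine ⟨integrable_finsetSum _ (fun u _ => h1 u), ?_⟩
  rw [integral_finsetSum _ (fun u _ => h1 u)]
  unfold S4
  apply Finset.sum_congr rfl
  intro u _
  rw [integral_finsetSum _ (fun v _ => h2 u v)]
  apply Finset.sum_congr rfl
  intro v _
  rw [integral_finsetSum _ (fun w _ => h3 u v w)]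
  apply Finset.sum_congr rfl
  intro w _
  rw [integral_finsetSum _ (fun z _ => (i4 u v w z).1)]
  apply Finset.sum_congr rfl
  intro z _
  exact (i4 u v w z).2

/-! ### the pointwise part -/

theorem er1 (U : Finset E) (y u : E) (hu : u ∈ U) :
    ∑ v ∈ U.erase u, f v y = (∑ v ∈ U, f v y) - f u y := by
  rw [← Finset.sum_erase_add U _ hu]; ring

theorem er2 (U : Finset E) (y u v : E) (hu : u ∈ U) (hv : v ∈ U.erase u) :
    ∑ w ∈ (U.erase u).erase v, f w y = (∑ v ∈ U, f v y) - f u y - f v y := by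
  rw [← er1 U y u hu, ← Finset.sum_erase_add (U.erase u) _ hv]; ring

theorem er3 (U : Finset E) (y u v w : E) (hu : u ∈ U) (hv : v ∈ U.erase u)
    (hw : w ∈ (U.erase u).erase v) :
    ∑ z ∈ ((U.erase u).erase v).erase w, f z y = (∑ v ∈ U, f v y) - f u y - f v y - f w y := by
  rw [← er2 U y u v hu hv, ← Finset.sum_erase_add ((U.erase u).erase v) _ hw]; ring

theorem p2 (U : Finset E) (y : E) :
    ∑ u ∈ U, ∑ v ∈ U.erase u, f u y * f v y
      = (∑ v ∈ U, f v y) * ((∑ v ∈ U, f v y) - 1) := by
  have h : ∀ u ∈ U, ∑ v ∈ U.erase u, f u y * f v y = f u y * ((∑ v ∈ U, f v y) - 1) := by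
    intro u hu
    rw [← Finset.mul_sum, er1 U y u hu]
    have := f_sq u y
    linear_combination -this
  rw [Finset.sum_congr rfl h, ← Finset.sum_mul]

theorem p3i (U : Finset E) (y u v : E) (hu : u ∈ U) (hv : v ∈ U.erase u) :
    ∑ w ∈ (U.erase u).erase v, f u y * f v y * f w y
      = f u y * f v y * ((∑ v ∈ U, f v y) - 2) := by
  rw [← Finset.mul_sum, er2 U y u v hu hv]
  have h1 := f_sq u y
  have h2 := f_sq v y
  linear_combination -(f v y) * h1 - (f u y) * h2

theorem p4i (U : Finset E) (y u v w : E) (hu : u ∈ U) (hv : v ∈ U.erase u)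
    (hw : w ∈ (U.erase u).erase v) :
    ∑ z ∈ ((U.erase u).erase v).erase w, f u y * f v y * f w y * f z y
      = f u y * f v y * f w y * ((∑ v ∈ U, f v y) - 3) := by
  rw [← Finset.mul_sum, er3 U y u v w hu hv hw]
  have h1 := f_sq u y
  have h2 := f_sq v y
  have h3 := f_sq w y
  linear_combination -(f v y) * (f w y) * h1 - (f u y) * (f w y) * h2 - (f u y) * (f v y) * h3

theorem p23 (U : Finset E) (y : E) :
    ∑ u ∈ U, ∑ v ∈ U.erase u, (f u y * f v y -
      (1 / 3) * ∑ w ∈ (U.erase u).erase v, f u y * f v y * f w y)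
      = (∑ v ∈ U, f v y) * ((∑ v ∈ U, f v y) - 1) * (1 - (1 / 3) * ((∑ v ∈ U, f v y) - 2)) := by
  have h : ∀ u ∈ U, ∑ v ∈ U.erase u, (f u y * f v y -
      (1 / 3) * ∑ w ∈ (U.erase u).erase v, f u y * f v y * f w y)
      = (∑ v ∈ U.erase u, f u y * f v y) * (1 - (1 / 3) * ((∑ v ∈ U, f v y) - 2)) := by
    intro u hu
    rw [Finset.sum_mul]
    apply Finset.sum_congr rfl
    intro v hv
    rw [p3i U y u v hu hv]
    ring
  rw [Finset.sum_congr rfl h, ← Finset.sum_mul, p2]

theorem p4 (U : Finset E) (y : E) :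
    ∑ u ∈ U, ∑ v ∈ U.erase u, ∑ w ∈ (U.erase u).erase v,
      ∑ z ∈ ((U.erase u).erase v).erase w, f u y * f v y * f w y * f z y
      = (∑ v ∈ U, f v y) * ((∑ v ∈ U, f v y) - 1) * ((∑ v ∈ U, f v y) - 2)
        * ((∑ v ∈ U, f v y) - 3) := by
  have h : ∀ u ∈ U, ∑ v ∈ U.erase u, ∑ w ∈ (U.erase u).erase v,
      ∑ z ∈ ((U.erase u).erase v).erase w, f u y * f v y * f w y * f z y
      = (∑ v ∈ U.erase u, f u y * f v y) * (((∑ v ∈ U, f v y) - 2) * ((∑ v ∈ U, f v y) - 3)) := by
    intro u hu
    rw [Finset.sum_mul]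
    apply Finset.sum_congr rfl
    intro v hv
    have h2 : ∀ w ∈ (U.erase u).erase v,
        ∑ z ∈ ((U.erase u).erase v).erase w, f u y * f v y * f w y * f z y
        = f u y * f v y * f w y * ((∑ v ∈ U, f v y) - 3) :=
      fun w hw => p4i U y u v w hu hv hw
    rw [Finset.sum_congr rfl h2, ← Finset.sum_mul, p3i U y u v hu hv]
    ring
  rw [Finset.sum_congr rfl h, ← Finset.sum_mul, p2]
  ring

open Classical in
theorem sum_f (U : Finset E) (y : E) :
    ∑ v ∈ U, f v y = ((U.filter (fun u => 1 < (inner ℝ u y : ℝ))).card : ℝ) := by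
  unfold f
  rw [Finset.sum_boole]

open Classical in
theorem k_le (hK : SpecK4) (U : Finset E) (hU : Adm U) (y : E) (hy : y ∈ bal) :
    (U.filter (fun u => 1 < (inner ℝ u y : ℝ))).card ≤ 4 := by
  have h := hK U hU y hy
  have e : {u : E | u ∈ U ∧ 1 < (inner ℝ u y : ℝ)}
      = ((U.filter (fun u => 1 < (inner ℝ u y : ℝ)) : Finset E) : Set E) := by
    ext u; simp
  rw [e, Set.ncard_coe_finset] at h
  exact h

end IEXM

open IEXM MeasureTheory Finset in
theorem specIEX (hK : SpecK4) : SpecIEX := by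
  classical
  constructor
  · intro U hU
    -- the indicator of the polar body
    have hpm : MeasurableSet (poly U) := by
      have : poly U = ⋂ u ∈ U, {y : E | (inner ℝ u y : ℝ) ≤ 1} := by
        ext y; simp [poly]
      rw [this]
      apply Finset.measurableSet_biInter
      intro u _
      apply IsClosed.measurableSet
      exact isClosed_le (by fun_prop) continuous_const
    have h0 := meas (poly U) hpm (fun y => if y ∈ poly U then 1 else 0) (fun y => rfl)
    have hs1 : Integrable (fun y => ∑ u ∈ U, f u y) (volume.restrict bal) :=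
      integrable_finsetSum _ (fun u _ => (i1 u).1)
    have hs1' : ∫ y in bal, ∑ u ∈ U, f u y = ∑ u ∈ U, v1 u := by
      rw [integral_finsetSum _ (fun u _ => (i1 u).1)]
      exact Finset.sum_congr rfl fun u _ => (i1 u).2
    have hone : Integrable (fun _ : E => (1 : ℝ)) (volume.restrict bal) := integrable_const _
    have hone' : ∫ _ in bal, (1 : ℝ) = (volume bal).toReal := by
      have := meas Set.univ MeasurableSet.univ (fun _ => (1 : ℝ)) (fun y => by simp)
      rw [Set.inter_univ] at this
      exact this.2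
    set g1 : E → ℝ := fun y => ∑ u ∈ U, f u y with hg1
    set g2 : E → ℝ := fun y => ∑ u ∈ U, ∑ v ∈ U.erase u, (f u y * f v y -
      (1 / 3) * ∑ w ∈ (U.erase u).erase v, f u y * f v y * f w y) with hg2
    set g3 : E → ℝ := fun y => ∑ u ∈ U, ∑ v ∈ U.erase u, ∑ w ∈ (U.erase u).erase v,
      ∑ z ∈ ((U.erase u).erase v).erase w, f u y * f v y * f w y * f z y with hg3
    have hA : Integrable (fun y => 1 - g1 y) (volume.restrict bal) := hone.sub hs1
    have hB : Integrable (fun y => (1 / 2) * g2 y) (volume.restrict bal) := (iS23 U).1.const_mul _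
    have hC : Integrable (fun y => (1 / 24) * g3 y) (volume.restrict bal) := (iS4 U).1.const_mul _
    have hAB : Integrable (fun y => (1 - g1 y) + (1 / 2) * g2 y) (volume.restrict bal) := hA.add hB
    have eA : ∫ y in bal, (1 - g1 y) = (volume bal).toReal - ∑ u ∈ U, v1 u := by
      rw [integral_sub hone hs1, hone', hs1']
    have eB : ∫ y in bal, (1 / 2) * g2 y = (1 / 2) * S23 U := by
      rw [integral_const_mul, (iS23 U).2]
    have eC : ∫ y in bal, (1 / 24) * g3 y = (1 / 24) * S4 U := by
      rw [integral_const_mul, (iS4 U).2]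
    have eAB : ∫ y in bal, ((1 - g1 y) + (1 / 2) * g2 y + (1 / 24) * g3 y)
        = (volume bal).toReal - ∑ u ∈ U, v1 u + (1 / 2) * S23 U + (1 / 24) * S4 U := by
      rw [integral_add hAB hC, integral_add hA hB, eA, eB, eC]
    rw [← h0.2, ← eAB]
    apply setIntegral_congr_fun bal_meas
    intro y hy
    simp only [hg1, hg2, hg3]
    rw [p23, p4, sum_f]
    have hk := k_le hK U hU y hy
    have hp : y ∈ poly U ↔ (U.filter (fun u => 1 < (inner ℝ u y : ℝ))).card = 0 := by
      rw [Finset.card_eq_zero, Finset.filter_eq_empty_iff]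
      simp [poly]
    set k := (U.filter (fun u => 1 < (inner ℝ u y : ℝ))).card
    by_cases h : y ∈ poly U
    · rw [if_pos h, hp.1 h]
      norm_num
    · rw [if_neg h]
      have h1 : k ≠ 0 := fun h' => h (hp.2 h')
      interval_cases k
      · exact absurd rfl h1
      · norm_num
      · norm_num
      · norm_num
      · norm_num
  · intro U hU u hu v hv huv
    rw [← (ip U u v).2]
    apply setIntegral_nonneg bal_meas
    intro y hy
    have hv' : v ∈ U.erase u := Finset.mem_erase.2 ⟨huv.symm, hv⟩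
    rw [p3i U y u v hu hv', sum_f]
    have hk := k_le hK U hU y hy
    have hk' : ((U.filter (fun u => 1 < (inner ℝ u y : ℝ))).card : ℝ) ≤ 4 := by exact_mod_cast hk
    have h1 : 0 ≤ f u y * f v y := mul_nonneg (f_nonneg u y) (f_nonneg v y)
    nlinarith

end Pool.Agent.Lib.MP_f1379f_gt.FV
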