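import Pool.Agent.Lib.MP_f1379f_gt.FV.SpecG
import Pool.Agent.Lib.MP_f1379f_gt.FV.SpecF
import Pool.Agent.Lib.MP_f1379f_gt.EQ.RDE

section
/-!
# MP_f1379f_gt, full Q1: Procrustes gauge

For every finite labelled configuration there is an optimal linear isometry; the optimal position
satisfies the gauge condition of `CFG`.
-/
set_option autoImplicit false

namespace Pool.Agent.Lib.MP_f1379f_gt.FV

open Finset

namespace PRCM

/-- A continuous function of a linear isometry attains its minimum. -/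
theorem exists_min (g : (E →L[ℝ] E) → ℝ) (hg : Continuous g) : ∃ A : E ≃ₗᵢ[ℝ] E,
    ∀ B : E ≃ₗᵢ[ℝ] E, g (A.toContinuousLinearEquiv : E →L[ℝ] E) ≤
      g (B.toContinuousLinearEquiv : E →L[ℝ] E) := by
  set K : Set (E →L[ℝ] E) := {A | ∀ x, ‖A x‖ = ‖x‖} with hK
  have hclosed : IsClosed K := by
    have h1 : K = ⋂ x : E, {A : E →L[ℝ] E | ‖A x‖ = ‖x‖} := by
      ext A
      simp [hK]
    rw [h1]
    refine isClosed_iInter fun x => ?_
    exact isClosed_eq (by fun_prop) continuous_const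
  have hsub : K ⊆ Metric.closedBall 0 1 := by
    intro A hA
    rw [mem_closedBall_zero_iff]
    refine ContinuousLinearMap.opNorm_le_bound _ zero_le_one fun x => ?_
    rw [hA x, one_mul]
  have hcomp : IsCompact K := by
    have : ProperSpace (E →L[ℝ] E) := FiniteDimensional.proper ℝ _
    exact (isCompact_closedBall (0 : E →L[ℝ] E) 1).of_isClosed_subset hclosed hsub
  have hne : K.Nonempty := ⟨ContinuousLinearMap.id ℝ E, fun x => rfl⟩
  obtain ⟨A, hA, hmin⟩ := hcomp.exists_isMinOn hne hg.continuousOn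
  let L : E →ₗᵢ[ℝ] E := ⟨A.toLinearMap, hA⟩
  refine ⟨L.toLinearIsometryEquiv rfl, fun B => ?_⟩
  have h1 := hmin (a := (B.toContinuousLinearEquiv : E →L[ℝ] E)) (fun x => B.norm_map x)
  have h2 : ((L.toLinearIsometryEquiv rfl).toContinuousLinearEquiv : E →L[ℝ] E) = A := by
    ext x
    rfl
  rw [h2]
  exact h1

/-- Existence of the optimal position. -/
theorem exists_opt (I : Finset E) (u : E → E) : ∃ A : E ≃ₗᵢ[ℝ] E, ∀ B : E ≃ₗᵢ[ℝ] E,
    ∑ e ∈ I, ‖A (u e) - e‖ ^ 2 ≤ ∑ e ∈ I, ‖B (u e) - e‖ ^ 2 :=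
  exists_min (fun A : E →L[ℝ] E => ∑ e ∈ I, ‖A (u e) - e‖ ^ 2) (by fun_prop)

/-- The squared distance to a finite set is continuous. -/
theorem cont_inf (V : Finset E) (hne : V.Nonempty) :
    Continuous fun y : E => V.inf' hne fun e => ‖y - e‖ ^ 2 :=
  Continuous.finset_inf'_apply (f := fun (e : E) (y : E) => ‖y - e‖ ^ 2) hne
    fun _ _ => ((continuous_id.sub continuous_const).norm.pow 2)

/-- Truncated Procrustes for a continuous cost. -/
theorem exists_min_sum (N : Finset E) (g : E → ℝ) (hg : Continuous g) : ∃ A : E ≃ₗᵢ[ℝ] E,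
    ∀ B : E ≃ₗᵢ[ℝ] E, ∑ z ∈ N, g (A z) ≤ ∑ z ∈ N, g (B z) :=
  exists_min (fun A : E →L[ℝ] E => ∑ z ∈ N, g (A z))
    (continuous_finsetSum _ fun _ _ => hg.comp (by fun_prop))

/-- Truncated Procrustes: `N` is the set of points, `I` the set of labels, `c` the truncation level.
The minimiser of `∑ z ∈ N, min (min_e ‖B z - e‖ ^ 2) c` is stationary for every partial labelling
by nearest points: see `stat_gen`. -/
theorem exists_trunc (N : Finset E) (c : ℝ) (hne : UE.Nonempty) : ∃ A : E ≃ₗᵢ[ℝ] E,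
    ∀ B : E ≃ₗᵢ[ℝ] E,
    ∑ z ∈ N, min (UE.inf' hne fun e => ‖A z - e‖ ^ 2) c ≤
      ∑ z ∈ N, min (UE.inf' hne fun e => ‖B z - e‖ ^ 2) c :=
  exists_min_sum N (fun y => min (UE.inf' hne fun e => ‖y - e‖ ^ 2) c)
    ((cont_inf UE hne).min continuous_const)

open Classical in
/-- The inliers of the minimiser of the truncated functional are in optimal position. -/
theorem trunc_opt (N : Finset E) (c : ℝ) (hne : UE.Nonempty) (A : E ≃ₗᵢ[ℝ] E)
    (hA : ∀ B : E ≃ₗᵢ[ℝ] E,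
      ∑ z ∈ N, min (UE.inf' hne fun e => ‖A z - e‖ ^ 2) c ≤
        ∑ z ∈ N, min (UE.inf' hne fun e => ‖B z - e‖ ^ 2) c)
    (I : Finset E) (hI : I ⊆ UE) (v : E → E) (hv : ∀ e ∈ I, v e ∈ N)
    (hinj : Set.InjOn v (I : Set E))
    (hin : ∀ e ∈ I, ‖A (v e) - e‖ ^ 2 ≤ min (UE.inf' hne fun e' => ‖A (v e) - e'‖ ^ 2) c)
    (hout : ∀ z ∈ N, z ∉ I.image v → c ≤ UE.inf' hne fun e => ‖A z - e‖ ^ 2)
    (B : E ≃ₗᵢ[ℝ] E) :
    ∑ e ∈ I, ‖A (v e) - e‖ ^ 2 ≤ ∑ e ∈ I, ‖B (v e) - e‖ ^ 2 := by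
  have hsub : I.image v ⊆ N := by
    intro z hz
    obtain ⟨e, he, rfl⟩ := Finset.mem_image.1 hz
    exact hv e he
  have h1 := hA B
  rw [← Finset.sum_sdiff hsub, ← Finset.sum_sdiff hsub, Finset.sum_image hinj,
    Finset.sum_image hinj] at h1
  have h2 : ∑ z ∈ N \ I.image v, min (UE.inf' hne fun e => ‖B z - e‖ ^ 2) c ≤
      ∑ z ∈ N \ I.image v, min (UE.inf' hne fun e => ‖A z - e‖ ^ 2) c := by
    refine Finset.sum_le_sum fun z hz => ?_
    obtain ⟨hz1, hz2⟩ := Finset.mem_sdiff.1 hz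
    rw [min_eq_right (hout z hz1 hz2)]
    exact min_le_right _ _
  have h3 : ∑ e ∈ I, ‖A (v e) - e‖ ^ 2 ≤
      ∑ e ∈ I, min (UE.inf' hne fun e' => ‖A (v e) - e'‖ ^ 2) c := Finset.sum_le_sum hin
  have h4 : ∑ e ∈ I, min (UE.inf' hne fun e' => ‖B (v e) - e'‖ ^ 2) c ≤
      ∑ e ∈ I, ‖B (v e) - e‖ ^ 2 :=
    Finset.sum_le_sum fun e he => (min_le_left _ _).trans
      (Finset.inf'_le (fun e' => ‖B (v e) - e'‖ ^ 2) (hI he))
  linarith

/-- The plane rotation with `cos = (1 - s^2)/(1 + s^2)`, `sin = 2 s/(1 + s^2)`. -/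
noncomputable def rot (a b : E) (s : ℝ) : E →ₗ[ℝ] E where
  toFun y := y + (-2 * s ^ 2 / (1 + s ^ 2)) • ((inner ℝ a y : ℝ) • a + (inner ℝ b y : ℝ) • b)
    + (2 * s / (1 + s ^ 2)) • ((inner ℝ a y : ℝ) • b - (inner ℝ b y : ℝ) • a)
  map_add' x y := by
    simp only [inner_add_right, add_smul, smul_add, smul_sub]
    abel
  map_smul' c x := by
    simp only [inner_smul_right, RingHom.id_apply, smul_add, smul_sub, smul_smul]
    module

theorem rot_inner {a b : E} (ha : ‖a‖ = 1) (hb : ‖b‖ = 1) (hab : (inner ℝ a b : ℝ) = 0) (s : ℝ)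
    (y : E) : ‖rot a b s y‖ = ‖y‖ := by
  have hs : (1 + s ^ 2) ≠ 0 := by positivity
  have h1 : ‖rot a b s y‖ ^ 2 = ‖y‖ ^ 2 := by
    rw [← real_inner_self_eq_norm_sq, ← real_inner_self_eq_norm_sq]
    show (inner ℝ (y + (-2 * s ^ 2 / (1 + s ^ 2)) • ((inner ℝ a y : ℝ) • a + (inner ℝ b y : ℝ) • b)
      + (2 * s / (1 + s ^ 2)) • ((inner ℝ a y : ℝ) • b - (inner ℝ b y : ℝ) • a))
      (y + (-2 * s ^ 2 / (1 + s ^ 2)) • ((inner ℝ a y : ℝ) • a + (inner ℝ b y : ℝ) • b)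
      + (2 * s / (1 + s ^ 2)) • ((inner ℝ a y : ℝ) • b - (inner ℝ b y : ℝ) • a)) : ℝ) = _
    have haa : (inner ℝ a a : ℝ) = 1 := by rw [real_inner_self_eq_norm_sq, ha]; norm_num
    have hbb : (inner ℝ b b : ℝ) = 1 := by rw [real_inner_self_eq_norm_sq, hb]; norm_num
    have hba : (inner ℝ b a : ℝ) = 0 := by rw [real_inner_comm]; exact hab
    simp only [inner_add_left, inner_add_right, inner_sub_left, inner_sub_right,
      real_inner_smul_left, real_inner_smul_right, haa, hbb, hab, hba, real_inner_comm a y,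
      real_inner_comm b y]
    field_simp
    ring
  have h2 := norm_nonneg (rot a b s y)
  have h3 := norm_nonneg y
  nlinarith [h1, h2, h3]

/-- The rotation as an isometry. -/
noncomputable def rotI {a b : E} (ha : ‖a‖ = 1) (hb : ‖b‖ = 1) (hab : (inner ℝ a b : ℝ) = 0)
    (s : ℝ) : E ≃ₗᵢ[ℝ] E :=
  LinearIsometry.toLinearIsometryEquiv ⟨rot a b s, rot_inner ha hb hab s⟩ rfl

/-- Stationarity for an orthonormal pair. -/
theorem stat {I : Finset E} {v : E → E} (hopt : ∀ B : E ≃ₗᵢ[ℝ] E,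
    ∑ e ∈ I, ‖v e - e‖ ^ 2 ≤ ∑ e ∈ I, ‖B (v e) - e‖ ^ 2) {a b : E} (ha : ‖a‖ = 1) (hb : ‖b‖ = 1)
    (hab : (inner ℝ a b : ℝ) = 0) :
    ∑ e ∈ I, ((inner ℝ a (v e) : ℝ) * inner ℝ b e - (inner ℝ b (v e) : ℝ) * inner ℝ a e) = 0 := by
  set Q := ∑ e ∈ I, ((inner ℝ a (v e) : ℝ) * inner ℝ b e - (inner ℝ b (v e) : ℝ) * inner ℝ a e)
    with hQ
  set P := ∑ e ∈ I, ((inner ℝ a (v e) : ℝ) * inner ℝ a e + (inner ℝ b (v e) : ℝ) * inner ℝ b e)
    with hP
  have key : ∀ s : ℝ, s * Q ≤ s ^ 2 * P := by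
    intro s
    have h1 := hopt (rotI ha hb hab s)
    have h2 : ∀ e, ‖rotI ha hb hab s (v e) - e‖ ^ 2 = ‖v e - e‖ ^ 2
        + 4 * s ^ 2 / (1 + s ^ 2) * ((inner ℝ a (v e) : ℝ) * inner ℝ a e
          + (inner ℝ b (v e) : ℝ) * inner ℝ b e)
        - 4 * s / (1 + s ^ 2) * ((inner ℝ a (v e) : ℝ) * inner ℝ b e
          - (inner ℝ b (v e) : ℝ) * inner ℝ a e) := by
      intro e
      have e1 : ‖rotI ha hb hab s (v e)‖ = ‖v e‖ := LinearIsometryEquiv.norm_map _ _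
      have e2 : rotI ha hb hab s (v e) = v e + (-2 * s ^ 2 / (1 + s ^ 2)) •
          ((inner ℝ a (v e) : ℝ) • a + (inner ℝ b (v e) : ℝ) • b)
          + (2 * s / (1 + s ^ 2)) • ((inner ℝ a (v e) : ℝ) • b - (inner ℝ b (v e) : ℝ) • a) := rfl
      rw [norm_sub_sq_real, norm_sub_sq_real, e1, e2]
      simp only [inner_add_left, inner_sub_left, real_inner_smul_left]
      ring
    rw [Finset.sum_congr rfl fun e _ => h2 e] at h1
    simp only [Finset.sum_sub_distrib, Finset.sum_add_distrib, ← Finset.mul_sum] at h1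
    have h3 : 4 * s / (1 + s ^ 2) * Q ≤ 4 * s ^ 2 / (1 + s ^ 2) * P := by
      rw [hQ, hP]
      simp only [Finset.sum_sub_distrib, Finset.sum_add_distrib]
      linarith
    have hs : 0 < 1 + s ^ 2 := by positivity
    have h4 : 4 * s / (1 + s ^ 2) * Q = 4 / (1 + s ^ 2) * (s * Q) := by ring
    have h5 : 4 * s ^ 2 / (1 + s ^ 2) * P = 4 / (1 + s ^ 2) * (s ^ 2 * P) := by ring
    rw [h4, h5] at h3
    exact le_of_mul_le_mul_left h3 (by positivity)
  by_contra hne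
  have hQ2 : 0 < Q ^ 2 := by positivity
  have h1 := key (Q / (1 + |P|))
  have hP0 : 0 < 1 + |P| := by positivity
  have h2 : Q / (1 + |P|) * Q = Q ^ 2 / (1 + |P|) := by ring
  have h3 : (Q / (1 + |P|)) ^ 2 * P ≤ Q ^ 2 / (1 + |P|) * (|P| / (1 + |P|)) := by
    have e1 : (Q / (1 + |P|)) ^ 2 * P = Q ^ 2 / (1 + |P|) * (P / (1 + |P|)) := by
      field_simp
    rw [e1]
    apply mul_le_mul_of_nonneg_left _ (by positivity)
    apply div_le_div_of_nonneg_right (le_abs_self P) hP0.le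
  have h4 : |P| / (1 + |P|) < 1 := by
    rw [div_lt_one hP0]
    linarith
  have h5 : 0 < Q ^ 2 / (1 + |P|) := by positivity
  have h6 := mul_lt_mul_of_pos_left h4 h5
  rw [h2] at h1
  linarith

/-- Stationarity in general. -/
theorem stat_gen {I : Finset E} {v : E → E} (hopt : ∀ B : E ≃ₗᵢ[ℝ] E,
    ∑ e ∈ I, ‖v e - e‖ ^ 2 ≤ ∑ e ∈ I, ‖B (v e) - e‖ ^ 2) (a b : E) :
    ∑ e ∈ I, ((inner ℝ a (v e) : ℝ) * inner ℝ b e - (inner ℝ b (v e) : ℝ) * inner ℝ a e) = 0 := by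
  rcases eq_or_ne a 0 with h0 | h0
  · rw [h0]
    simp
  have hna : ‖a‖ ≠ 0 := norm_ne_zero_iff.mpr h0
  set a' := (‖a‖)⁻¹ • a with ha'
  have haa : a = ‖a‖ • a' := by
    rw [ha', smul_smul, mul_inv_cancel₀ hna, one_smul]
  have hn1 : ‖a'‖ = 1 := by
    rw [ha', norm_smul, norm_inv, norm_norm, inv_mul_cancel₀ hna]
  set β : ℝ := inner ℝ a' b with hβ
  set c := b - β • a' with hc
  have hcb : b = c + β • a' := by rw [hc]; abel
  have hac : (inner ℝ a' c : ℝ) = 0 := by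
    rw [hc, inner_sub_right, real_inner_smul_right, real_inner_self_eq_norm_sq, hn1, ← hβ]
    ring
  have hq : ∑ e ∈ I, ((inner ℝ a' (v e) : ℝ) * inner ℝ c e
      - (inner ℝ c (v e) : ℝ) * inner ℝ a' e) = 0 := by
    rcases eq_or_ne c 0 with h1 | h1
    · rw [h1]
      simp
    have hnc : ‖c‖ ≠ 0 := norm_ne_zero_iff.mpr h1
    have hcc : c = ‖c‖ • ((‖c‖)⁻¹ • c) := by
      rw [smul_smul, mul_inv_cancel₀ hnc, one_smul]
    have h2 : ‖(‖c‖)⁻¹ • c‖ = 1 := by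
      rw [norm_smul, norm_inv, norm_norm, inv_mul_cancel₀ hnc]
    have h3 := stat hopt hn1 h2 (by rw [real_inner_smul_right, hac, mul_zero])
    have h4 : ∀ e, (inner ℝ a' (v e) : ℝ) * inner ℝ c e - (inner ℝ c (v e) : ℝ) * inner ℝ a' e =
        ‖c‖ * ((inner ℝ a' (v e) : ℝ) * inner ℝ ((‖c‖)⁻¹ • c) e
          - (inner ℝ ((‖c‖)⁻¹ • c) (v e) : ℝ) * inner ℝ a' e) := by
      intro e
      have g1 : ∀ y : E, ‖c‖ * (inner ℝ ((‖c‖)⁻¹ • c) y : ℝ) = inner ℝ c y := by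
        intro y
        rw [real_inner_smul_left, ← mul_assoc, mul_inv_cancel₀ hnc, one_mul]
      rw [← g1, ← g1 (v e)]
      ring
    rw [Finset.sum_congr rfl fun e _ => h4 e, ← Finset.mul_sum, h3, mul_zero]
  have h5 : ∀ e, (inner ℝ a (v e) : ℝ) * inner ℝ b e - (inner ℝ b (v e) : ℝ) * inner ℝ a e =
      ‖a‖ * ((inner ℝ a' (v e) : ℝ) * inner ℝ c e - (inner ℝ c (v e) : ℝ) * inner ℝ a' e) := by
    intro e
    have e1 : ∀ y : E, (inner ℝ a y : ℝ) = ‖a‖ * inner ℝ a' y := by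
      intro y
      conv_lhs => rw [haa]
      rw [real_inner_smul_left]
    have e2 : ∀ y : E, (inner ℝ b y : ℝ) = inner ℝ c y + β * inner ℝ a' y := by
      intro y
      conv_lhs => rw [hcb]
      rw [inner_add_left, real_inner_smul_left]
    rw [e1, e1, e2, e2]
    ring
  rw [Finset.sum_congr rfl fun e _ => h5 e, ← Finset.mul_sum, hq, mul_zero]

/-- Gauge condition for a partial labelling in optimal position. -/
theorem gauge_of (I : Finset E) (u : E → E) (A : E ≃ₗᵢ[ℝ] E)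
    (hA : ∀ B : E ≃ₗᵢ[ℝ] E, ∑ e ∈ I, ‖A (u e) - e‖ ^ 2 ≤ ∑ e ∈ I, ‖B (u e) - e‖ ^ 2) (a b : E) :
    ∑ e ∈ I, (inner ℝ (A (u e) - e) a : ℝ) * (inner ℝ e b : ℝ) =
      ∑ e ∈ I, (inner ℝ (A (u e) - e) b : ℝ) * (inner ℝ e a : ℝ) := by
  have hopt : ∀ B : E ≃ₗᵢ[ℝ] E,
      ∑ e ∈ I, ‖(fun e => A (u e)) e - e‖ ^ 2 ≤ ∑ e ∈ I, ‖B ((fun e => A (u e)) e) - e‖ ^ 2 :=
    fun B => hA (A.trans B)
  have h1 := stat_gen hopt a b
  rw [← sub_eq_zero, ← Finset.sum_sub_distrib, ← h1]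
  refine Finset.sum_congr rfl fun e _ => ?_
  have g1 : ∀ x c : E, (inner ℝ x c : ℝ) = inner ℝ c x := fun x c => real_inner_comm c x
  rw [g1 (A (u e) - e) a, g1 e b, g1 (A (u e) - e) b, g1 e a, inner_sub_right, inner_sub_right]
  ring

end PRCM

/-- **Procrustes gauge.** -/
theorem procrustes (u : E → E) : ∃ A : E ≃ₗᵢ[ℝ] E,
    (∀ B : E ≃ₗᵢ[ℝ] E, ∑ e ∈ UE, ‖A (u e) - e‖ ^ 2 ≤ ∑ e ∈ UE, ‖B (u e) - e‖ ^ 2) ∧
    ∀ a b : E, ∑ e ∈ UE, (inner ℝ (A (u e) - e) a : ℝ) * (inner ℝ e b : ℝ) =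
      ∑ e ∈ UE, (inner ℝ (A (u e) - e) b : ℝ) * (inner ℝ e a : ℝ) := by
  obtain ⟨A, hA⟩ := PRCM.exists_opt UE u
  exact ⟨A, hA, PRCM.gauge_of UE u A hA⟩

end Pool.Agent.Lib.MP_f1379f_gt.FV
end

section
/-!
# MP_f1379f_gt, full Q1: invariance under isometries, and the end game in arbitrary position
-/
set_option autoImplicit false

namespace Pool.Agent.Lib.MP_f1379f_gt.FV

open MeasureTheory Finset

namespace ISOM

theorem rr_map (A : E ≃ₗᵢ[ℝ] E) (v : E) : rr (A v) = rr v := by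
  unfold rr
  rw [A.norm_map]

theorem TT_map (A : E ≃ₗᵢ[ℝ] E) (v w : E) : TT (A v) (A w) = TT v w := by
  unfold TT
  rw [A.norm_map, A.norm_map, A.inner_map_map]

theorem adm_image (A : E ≃ₗᵢ[ℝ] E) {U : Finset E} (hU : Adm U) : Adm (U.image A) where
  ne u hu := by
    obtain ⟨v, hv, rfl⟩ := Finset.mem_image.1 hu
    intro h
    exact hU.ne v hv (by simpa using h)
  le_one u hu := by
    obtain ⟨v, hv, rfl⟩ := Finset.mem_image.1 hu
    rw [A.norm_map]
    exact hU.le_one v hv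
  sep u hu v hv hne := by
    obtain ⟨u', hu', rfl⟩ := Finset.mem_image.1 hu
    obtain ⟨v', hv', rfl⟩ := Finset.mem_image.1 hv
    rw [A.norm_map, A.norm_map, A.inner_map_map]
    exact hU.sep u' hu' v' hv' fun h => hne (by rw [h])

theorem W2_image (A : E ≃ₗᵢ[ℝ] E) (U : Finset E) : W2 (U.image A) = W2 U := by
  classical
  have hinj : Set.InjOn A (U : Set E) := A.injective.injOn
  have h1 : ∑ u ∈ U.image A, v1 u = ∑ u ∈ U, v1 u := by
    rw [Finset.sum_image hinj]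
    exact Finset.sum_congr rfl fun u _ => specINV.g1 _ _ (A.norm_map u)
  have h2 : ∑ u ∈ U.image A, ∑ v ∈ (U.image A).erase u, max 0 (v2 u v - 9 * s3) =
      ∑ u ∈ U, ∑ v ∈ U.erase u, max 0 (v2 u v - 9 * s3) := by
    rw [Finset.sum_image hinj]
    refine Finset.sum_congr rfl fun u hu => ?_
    have h3 : (U.image A).erase (A u) = (U.erase u).image A := by
      ext x
      simp only [Finset.mem_erase, Finset.mem_image]
      constructor
      · rintro ⟨hx, v, hv, rfl⟩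
        exact ⟨v, ⟨fun h => hx (by rw [h]), hv⟩, rfl⟩
      · rintro ⟨v, ⟨hv1, hv2⟩, rfl⟩
        exact ⟨fun h => hv1 (A.injective h), v, hv2, rfl⟩
    rw [h3, Finset.sum_image A.injective.injOn]
    refine Finset.sum_congr rfl fun v _ => ?_
    rw [specINV.g2 (A u) (A v) u v (A.norm_map u) (A.norm_map v) (A.inner_map_map u v)]
  unfold W2
  rw [h1, h2]

theorem vol_image (A : E ≃ₗᵢ[ℝ] E) (U : Finset E) :
    volume (poly (U.image A) ∩ Metric.ball (0 : E) 2) =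
      volume (poly U ∩ Metric.ball (0 : E) 2) := by
  have h1 : poly U ∩ Metric.ball (0 : E) 2 =
      A ⁻¹' (poly (U.image A) ∩ Metric.ball (0 : E) 2) := by
    ext y
    simp only [Set.mem_inter_iff, Set.mem_preimage, poly, Set.mem_setOf_eq,
      mem_ball_zero_iff, A.norm_map]
    constructor
    · rintro ⟨h1, h2⟩
      refine ⟨fun u hu => ?_, h2⟩
      obtain ⟨v, hv, rfl⟩ := Finset.mem_image.1 hu
      rw [A.inner_map_map]
      exact h1 v hv
    · rintro ⟨h1, h2⟩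
      refine ⟨fun u hu => ?_, h2⟩
      rw [← A.inner_map_map]
      exact h1 _ (Finset.mem_image_of_mem A hu)
  rw [h1]
  exact (A.measurePreserving.measure_preimage_equiv
    (f := A.toHomeomorph.toMeasurableEquiv) _).symm

theorem ctf_image (A : E ≃ₗᵢ[ℝ] E) {U : Finset E} {u : E → E} (h : CTF U u) :
    CTF (U.image A) (fun e => A (u e)) where
  cx := by
    rw [W2_image]
    simp only [rr_map]
    exact h.cx
  cp := by
    rw [W2_image]
    simp only [TT_map]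
    exact h.cp

end ISOM

open ISOM in
/-- The end game in arbitrary position. -/
theorem end_game (hFIN : SpecFIN) (U : Finset E) (u : E → E) (hU : Adm U)
    (hlab : ∀ e ∈ UE, u e ∈ U) (hinj : Set.InjOn u (UE : Set E))
    (hrr : ∀ e ∈ UE, 4 / 5 < rr (u e))
    (hoth : ∀ v ∈ U, (∀ e ∈ UE, v ≠ u e) → rr v ≤ 7 / 20) (hC : CTF U u)
    (E1 : ℝ) (A0 : E ≃ₗᵢ[ℝ] E) (hA0 : ∑ e ∈ UE, ‖A0 (u e) - e‖ ^ 2 ≤ E1)
    (hL1 : ∀ A : E ≃ₗᵢ[ℝ] E, CFG (fun e => A (u e)) → gS (fun e => A (u e)) ≤ E1 →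
      gS (fun e => A (u e)) ≤ 9 / 100) :
    (16 : ENNReal) ≤ volume (poly U ∩ Metric.ball (0 : E) 2) := by
  classical
  obtain ⟨A, hA, hg⟩ := procrustes u
  have hU' := adm_image A hU
  set u' : E → E := fun e => A (u e) with hu'
  have hcfg : CFG u' := by
    refine ⟨fun e he => ?_, fun e he f hf hne => ?_, hg⟩
    · exact hU'.le_one _ (Finset.mem_image_of_mem A (hlab e he))
    · refine hU'.sep _ (Finset.mem_image_of_mem A (hlab e he)) _
        (Finset.mem_image_of_mem A (hlab f hf)) fun h => hne (hinj he hf (A.injective h))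
  have hS : gS u' ≤ 9 / 100 := hL1 A hcfg ((hA A0).trans hA0)
  have hext : EXT (U.image A) (U.image A \ UE.image u') u' := by
    refine ⟨fun e he => Finset.mem_image_of_mem A (hlab e he), ?_, hU'.le_one, ?_, ?_⟩
    · intro v hv
      by_cases h : v ∈ UE.image u'
      · right
        obtain ⟨e, he, h2⟩ := Finset.mem_image.1 h
        exact ⟨e, he, h2.symm⟩
      · left
        exact Finset.mem_sdiff.2 ⟨hv, h⟩
    · intro v hv
      obtain ⟨hv1, hv2⟩ := Finset.mem_sdiff.1 hv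
      obtain ⟨w, hw, rfl⟩ := Finset.mem_image.1 hv1
      have h1 : rr w ≤ 7 / 20 := by
        refine hoth w hw fun e he h => hv2 ?_
        rw [h]
        exact Finset.mem_image_of_mem u' he
      rw [A.norm_map]
      have h2 := le_trans (le_max_right _ _) h1
      linarith
    · intro v hv e he
      obtain ⟨hv1, hv2⟩ := Finset.mem_sdiff.1 hv
      have hmem : u' e ∈ U.image A := Finset.mem_image_of_mem A (hlab e he)
      have hne : v ≠ u' e := by
        intro h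
        exact hv2 (h ▸ Finset.mem_image_of_mem u' he)
      have h1 := hU'.sep v hv1 _ hmem hne
      have h2 := hU'.le_one v hv1
      have h3 := hU'.le_one _ hmem
      have h4 : ‖v‖ ^ 2 ≤ 1 := by nlinarith [norm_nonneg v]
      have h5 : ‖u' e‖ ^ 2 ≤ 1 := by nlinarith [norm_nonneg (u' e)]
      nlinarith [mul_nonneg (sub_nonneg.2 h4) (sub_nonneg.2 h5)]
  have h1 := hFIN (U.image A) (U.image A \ UE.image u') u' hU' hext hcfg
    (fun e he f hf h => hinj he hf (A.injective h))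
    (fun e he => by
      show 4 / 5 < rr (A (u e))
      rw [rr_map]
      exact hrr e he) (ctf_image A hC) hS
  rwa [vol_image] at h1

end Pool.Agent.Lib.MP_f1379f_gt.FV
end
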