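import Pool.Agent.Lib.MP_f1379f_gt.FV.SpecE

section
set_option autoImplicit false

namespace Pool.Agent.Lib.MP_f1379f_gt.FV.IN4M

open Pool.Agent.Lib.MP_f1379f_gt.FV MeasureTheory Finset

/-- the squared norm of a combination -/
theorem norm_comb {k : ℕ} (a : Fin k → E) (c : Fin k → ℝ) :
    ‖∑ i, c i • a i‖ ^ 2 = ∑ i, ∑ j, c i * c j * inner ℝ (a i) (a j) := by
  rw [← real_inner_self_eq_norm_sq, sum_inner]
  refine sum_congr rfl (fun i _ => ?_)
  rw [inner_sum]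
  refine sum_congr rfl (fun j _ => ?_)
  rw [real_inner_smul_left, real_inner_smul_right]
  ring

/-- equal Gram matrices: there is a linear isometry -/
theorem isom {k : ℕ} (a b : Fin k → E) (h : ∀ i j, (inner ℝ (a i) (a j) : ℝ) = inner ℝ (b i) (b j)) :
    ∃ L : E ≃ₗᵢ[ℝ] E, ∀ i, L (a i) = b i := by
  classical
  let φ : (Fin k → ℝ) →ₗ[ℝ] E := Fintype.linearCombination ℝ a
  let ψ : (Fin k → ℝ) →ₗ[ℝ] E := Fintype.linearCombination ℝ b
  have hφ : ∀ c, φ c = ∑ i, c i • a i := fun c => Fintype.linearCombination_apply ℝ a c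
  have hψ : ∀ c, ψ c = ∑ i, c i • b i := fun c => Fintype.linearCombination_apply ℝ b c
  have hn : ∀ c, ‖ψ c‖ = ‖φ c‖ := by
    intro c
    have h1 : ‖ψ c‖ ^ 2 = ‖φ c‖ ^ 2 := by
      rw [hφ, hψ, norm_comb, norm_comb]
      refine sum_congr rfl (fun i _ => sum_congr rfl (fun j _ => ?_))
      rw [h]
    have h2 := norm_nonneg (ψ c)
    have h3 := norm_nonneg (φ c)
    exact (pow_left_inj₀ h2 h3 two_ne_zero).1 h1
  have hker : LinearMap.ker φ ≤ LinearMap.ker ψ := by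
    intro c hc
    rw [LinearMap.mem_ker] at hc ⊢
    have := hn c
    rw [hc, norm_zero] at this
    exact norm_eq_zero.1 this
  let L0 : LinearMap.range φ →ₗ[ℝ] E :=
    ((LinearMap.ker φ).liftQ ψ hker).comp (φ.quotKerEquivRange.symm : LinearMap.range φ →ₗ[ℝ] _)
  have hL0 : ∀ c, L0 ⟨φ c, LinearMap.mem_range_self φ c⟩ = ψ c := by
    intro c
    show ((LinearMap.ker φ).liftQ ψ hker) (φ.quotKerEquivRange.symm ⟨φ c, _⟩) = ψ c
    have e : φ.quotKerEquivRange.symm ⟨φ c, LinearMap.mem_range_self φ c⟩ = (LinearMap.ker φ).mkQ c :=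
      LinearMap.quotKerEquivRange_symm_apply_image φ c _
    rw [e]
    rfl
  let L1 : LinearMap.range φ →ₗᵢ[ℝ] E :=
    { toLinearMap := L0
      norm_map' := by
        rintro ⟨x, hx⟩
        obtain ⟨c, rfl⟩ := hx
        have := hL0 c
        show ‖L0 ⟨φ c, _⟩‖ = ‖φ c‖
        rw [this, hn] }
  let L2 : E →ₗᵢ[ℝ] E := L1.extend
  have hL2 : ∀ i, L2 (a i) = b i := by
    intro i
    have e1 : φ (Pi.single i 1) = a i := by
      rw [hφ]
      simp [Pi.single_apply]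
    have e2 : ψ (Pi.single i 1) = b i := by
      rw [hψ]
      simp [Pi.single_apply]
    have h3 : L2 ((⟨φ (Pi.single i 1), LinearMap.mem_range_self φ _⟩ : LinearMap.range φ) : E) =
        L1 ⟨φ (Pi.single i 1), LinearMap.mem_range_self φ _⟩ := LinearIsometry.extend_apply L1 _
    have h4 : L1 ⟨φ (Pi.single i 1), LinearMap.mem_range_self φ _⟩ = ψ (Pi.single i 1) := hL0 _
    rw [h4, e2] at h3
    rw [← h3]
    show L2 (a i) = L2 (φ (Pi.single i 1))
    rw [e1]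
  refine ⟨L2.toLinearIsometryEquiv rfl, fun i => ?_⟩
  rw [LinearIsometry.coe_toLinearIsometryEquiv]
  exact hL2 i

theorem cap_image (L : E ≃ₗᵢ[ℝ] E) (u : E) : L ⁻¹' (cap (L u)) = cap u := by
  ext y
  show (‖L y‖ ^ 2 < 5 / 3 ∧ 1 < (inner ℝ (L u) (L y) : ℝ)) ↔ _
  rw [LinearIsometryEquiv.norm_map, LinearIsometryEquiv.inner_map_map]
  rfl

theorem vol_pre (L : E ≃ₗᵢ[ℝ] E) (A : Set E) : volume (L ⁻¹' A) = volume A := by
  have h : MeasurePreserving (L.toMeasurableEquiv) volume volume := L.measurePreserving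
  exact h.measure_preimage_equiv A

end Pool.Agent.Lib.MP_f1379f_gt.FV.IN4M

namespace Pool.Agent.Lib.MP_f1379f_gt.FV

open MeasureTheory

theorem specIN4 : SpecIN4 where
  g4 := by
    intro u v w z u' v' w' z' hu hv hw hz uv uw uz vw vz wz
    have key : ∀ i j : Fin 4, (inner ℝ ((![u, v, w, z] : Fin 4 → E) i) ((![u, v, w, z] : Fin 4 → E) j) : ℝ) =
        inner ℝ ((![u', v', w', z'] : Fin 4 → E) i) ((![u', v', w', z'] : Fin 4 → E) j) := by
      intro i j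
      fin_cases i <;> fin_cases j <;>
        simp only [Fin.zero_eta, Fin.mk_one, Fin.reduceFinMk, Matrix.cons_val_zero, Matrix.cons_val_one,
          Matrix.cons_val, Fin.isValue, real_inner_self_eq_norm_sq] <;>
        first
        | rw [hu]
        | rw [hv]
        | rw [hw]
        | rw [hz]
        | exact uv
        | exact uw
        | exact uz
        | exact vw
        | exact vz
        | exact wz
        | (rw [real_inner_comm, uv, real_inner_comm])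
        | (rw [real_inner_comm, uw, real_inner_comm])
        | (rw [real_inner_comm, uz, real_inner_comm])
        | (rw [real_inner_comm, vw, real_inner_comm])
        | (rw [real_inner_comm, vz, real_inner_comm])
        | (rw [real_inner_comm, wz, real_inner_comm])
    obtain ⟨L, hL⟩ := IN4M.isom _ _ key
    have h0 : L u = u' := hL 0
    have h1 : L v = v' := hL 1
    have h2 : L w = w' := hL 2
    have h3 : L z = z' := hL 3
    unfold v4
    rw [← h0, ← h1, ← h2, ← h3]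
    have e : cap u ∩ cap v ∩ cap w ∩ cap z = L ⁻¹' (cap (L u) ∩ cap (L v) ∩ cap (L w) ∩ cap (L z)) := by
      rw [Set.preimage_inter, Set.preimage_inter, Set.preimage_inter, IN4M.cap_image, IN4M.cap_image,
        IN4M.cap_image, IN4M.cap_image]
    rw [e, IN4M.vol_pre]
  zero := by
    intro u v hu hv huv
    rw [Set.eq_empty_iff_forall_notMem]
    rintro y ⟨⟨h1, h2⟩, ⟨_, h3⟩⟩
    have h4 : 2 < (inner ℝ (u + v) y : ℝ) := by
      rw [inner_add_left]
      linarith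
    have h5 := real_inner_le_norm (u + v) y
    have h6 : ‖u + v‖ ^ 2 ≤ 12 / 5 := by
      rw [@norm_add_sq_real]
      have := norm_nonneg u
      have := norm_nonneg v
      nlinarith
    have h7 : 4 < ‖u + v‖ ^ 2 * ‖y‖ ^ 2 := by
      have : 2 < ‖u + v‖ * ‖y‖ := lt_of_lt_of_le h4 h5
      nlinarith
    have h8 : 0 ≤ ‖y‖ ^ 2 := by positivity
    nlinarith

end Pool.Agent.Lib.MP_f1379f_gt.FV
end

section
set_option autoImplicit false

namespace Pool.Agent.Lib.MP_f1379f_gt.FV.K4M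

open Pool.Agent.Lib.MP_f1379f_gt.FV Finset

/-- sum of the squared differences -/
theorem sum_diff (T : Finset E) (w : E → E) :
    ∑ u ∈ T, ∑ v ∈ T, ‖w u - w v‖ ^ 2 =
      2 * (T.card : ℝ) * ∑ u ∈ T, ‖w u‖ ^ 2 - 2 * ‖∑ u ∈ T, w u‖ ^ 2 := by
  have h1 : ∀ u ∈ T, ∑ v ∈ T, ‖w u - w v‖ ^ 2 =
      (T.card : ℝ) * ‖w u‖ ^ 2 - 2 * inner ℝ (w u) (∑ v ∈ T, w v) + ∑ v ∈ T, ‖w v‖ ^ 2 := by
    intro u _
    rw [inner_sum, mul_sum]
    rw [show (T.card : ℝ) * ‖w u‖ ^ 2 = ∑ v ∈ T, ‖w u‖ ^ 2 by rw [sum_const, nsmul_eq_mul]]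
    rw [← sum_sub_distrib, ← sum_add_distrib]
    refine sum_congr rfl (fun v _ => ?_)
    rw [@norm_sub_sq_real]
  rw [sum_congr rfl h1, sum_add_distrib, sum_sub_distrib, ← mul_sum, ← mul_sum, ← sum_inner,
    real_inner_self_eq_norm_sq, sum_const, nsmul_eq_mul]
  ring

/-- the inverted vector -/
noncomputable def xi (u : E) : E := (2 / ‖u‖ ^ 2) • u

theorem pos_of {u : E} (h : u ≠ 0) : 0 < ‖u‖ ^ 2 := by positivity

theorem xi_norm {u : E} (h : u ≠ 0) : ‖xi u‖ ^ 2 = 4 / ‖u‖ ^ 2 := by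
  have h1 := pos_of h
  unfold xi
  rw [norm_smul, mul_pow, Real.norm_eq_abs, sq_abs]
  field_simp
  norm_num

theorem xi_y {u : E} (y : E) : (inner ℝ (xi u) y : ℝ) = 2 / ‖u‖ ^ 2 * inner ℝ u y := by
  unfold xi
  rw [real_inner_smul_left]

theorem w_lt {u y : E} (h : u ≠ 0) (hy : 1 < (inner ℝ u y : ℝ)) : ‖xi u - y‖ ^ 2 < ‖y‖ ^ 2 := by
  have h1 := pos_of h
  rw [@norm_sub_sq_real, xi_norm h, xi_y]
  have h2 : 2 * (2 / ‖u‖ ^ 2 * inner ℝ u y) = 4 / ‖u‖ ^ 2 * inner ℝ u y := by ring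
  rw [h2]
  have h3 : 0 < 4 / ‖u‖ ^ 2 := by positivity
  nlinarith

theorem x_far {u v : E} (hu : u ≠ 0) (hv : v ≠ 0)
    (hs : 2 * (inner ℝ u v : ℝ) ≤ ‖u‖ ^ 2 + ‖v‖ ^ 2 - ‖u‖ ^ 2 * ‖v‖ ^ 2) :
    4 ≤ ‖xi u - xi v‖ ^ 2 := by
  have h1 := pos_of hu
  have h2 := pos_of hv
  rw [@norm_sub_sq_real, xi_norm hu, xi_norm hv, xi_y]
  have h3 : (inner ℝ u (xi v) : ℝ) = 2 / ‖v‖ ^ 2 * inner ℝ u v := by
    unfold xi
    rw [real_inner_smul_right]
  rw [h3]
  have h4 : 4 / ‖u‖ ^ 2 - 2 * (2 / ‖u‖ ^ 2 * (2 / ‖v‖ ^ 2 * inner ℝ u v)) + 4 / ‖v‖ ^ 2 =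
      4 * (‖u‖ ^ 2 + ‖v‖ ^ 2 - 2 * inner ℝ u v) / (‖u‖ ^ 2 * ‖v‖ ^ 2) := by
    field_simp
    ring
  rw [h4, le_div_iff₀ (by positivity)]
  nlinarith

theorem main {U : Finset E} (hU : Adm U) {y : E} (hy : ‖y‖ ^ 2 < 5 / 3) {T : Finset E} (hT : T ⊆ U)
    (hc : T.card = 5) (hT2 : ∀ u ∈ T, 1 < (inner ℝ u y : ℝ)) : False := by
  classical
  let w : E → E := fun u => xi u - y
  have hne : ∀ u ∈ T, u ≠ 0 := fun u hu => hU.ne u (hT hu)
  have e1 := sum_diff T w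
  rw [hc] at e1
  have l1 : (80 : ℝ) ≤ ∑ u ∈ T, ∑ v ∈ T, ‖w u - w v‖ ^ 2 := by
    have : ∀ u ∈ T, (16 : ℝ) ≤ ∑ v ∈ T, ‖w u - w v‖ ^ 2 := by
      intro u hu
      rw [← add_sum_erase T _ hu]
      have h0 : (16 : ℝ) ≤ ∑ v ∈ T.erase u, ‖w u - w v‖ ^ 2 := by
        have h1 : ∑ v ∈ T.erase u, (4 : ℝ) ≤ ∑ v ∈ T.erase u, ‖w u - w v‖ ^ 2 := by
          refine sum_le_sum (fun v hv => ?_)
          have hv' := mem_erase.1 hv
          have e : w u - w v = xi u - xi v := by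
            show xi u - y - (xi v - y) = xi u - xi v
            abel
          rw [e]
          exact x_far (hne u hu) (hne v hv'.2) (hU.sep u (hT hu) v (hT hv'.2) (Ne.symm hv'.1))
        rw [sum_const, card_erase_of_mem hu, hc] at h1
        norm_num at h1
        exact h1
      have h2 : 0 ≤ ‖w u - w u‖ ^ 2 := by positivity
      linarith
    have h3 := sum_le_sum this
    rw [sum_const, hc] at h3
    norm_num at h3
    exact h3
  have l2 : (20 : ℝ) ≤ ∑ u ∈ T, ‖w u + y‖ ^ 2 := by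
    have : ∀ u ∈ T, (4 : ℝ) ≤ ‖w u + y‖ ^ 2 := by
      intro u hu
      have e : w u + y = xi u := by
        show xi u - y + y = xi u
        abel
      rw [e, xi_norm (hne u hu), le_div_iff₀ (pos_of (hne u hu))]
      have h1 := hU.le_one u (hT hu)
      have h2 := norm_nonneg u
      nlinarith
    have h3 := sum_le_sum this
    rw [sum_const, hc] at h3
    norm_num at h3
    exact h3
  have e2 : ∑ u ∈ T, ‖w u + y‖ ^ 2 =
      ∑ u ∈ T, ‖w u‖ ^ 2 + 2 * inner ℝ (∑ u ∈ T, w u) y + 5 * ‖y‖ ^ 2 := by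
    rw [sum_inner, mul_sum]
    rw [show (5 : ℝ) * ‖y‖ ^ 2 = ∑ u ∈ T, ‖y‖ ^ 2 by rw [sum_const, hc, nsmul_eq_mul]; norm_num]
    rw [← sum_add_distrib, ← sum_add_distrib]
    refine sum_congr rfl (fun u _ => ?_)
    rw [@norm_add_sq_real]
  have l3 : ∑ u ∈ T, ‖w u‖ ^ 2 < 25 / 3 := by
    have h1 : ∑ u ∈ T, ‖w u‖ ^ 2 < ∑ u ∈ T, (5 / 3 : ℝ) := by
      refine sum_lt_sum_of_nonempty ?_ (fun u hu => ?_)
      · rw [← card_pos, hc]; norm_num
      · exact lt_trans (w_lt (hne u hu) (hT2 u hu)) hy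
    rw [sum_const, hc] at h1
    norm_num at h1
    linarith
  have l4 : 0 ≤ ‖∑ u ∈ T, w u - y‖ ^ 2 := by positivity
  rw [@norm_sub_sq_real] at l4
  push_cast at e1
  nlinarith

end Pool.Agent.Lib.MP_f1379f_gt.FV.K4M

namespace Pool.Agent.Lib.MP_f1379f_gt.FV

theorem specK4 : SpecK4 := by
  classical
  intro U hU y hy
  by_contra hcon
  push Not at hcon
  have hfin : ({u : E | u ∈ U ∧ 1 < (inner ℝ u y : ℝ)}).Finite :=
    U.finite_toSet.subset (fun u hu => hu.1)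
  have h1 : ({u : E | u ∈ U ∧ 1 < (inner ℝ u y : ℝ)}) = ((U.filter fun u => 1 < (inner ℝ u y : ℝ)) : Set E) := by
    ext u
    simp
  rw [h1, Set.ncard_coe_finset] at hcon
  obtain ⟨T, hT, hc⟩ := Finset.exists_subset_card_eq (show 5 ≤ _ from hcon)
  refine K4M.main hU (show ‖y‖ ^ 2 < 5 / 3 from hy) (T := T) ?_ hc ?_
  · exact fun u hu => (Finset.mem_filter.1 (hT hu)).1
  · exact fun u hu => (Finset.mem_filter.1 (hT hu)).2

end Pool.Agent.Lib.MP_f1379f_gt.FV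
end
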