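import Pool.Agent.Lib.MP_f1379f_gt.EQ.RDE

set_option autoImplicit false

namespace Pool.Agent.Lib.MP_f1379f_gt.FV

open MeasureTheory

namespace LKSM

open LKPM

theorem gram3 (A B p D : ℝ) (hD : D = A * B - p ^ 2) (hD0 : 0 < D) :
    (!![A, p, 0; p, B, 0; 0, 0, 1] : Matrix (Fin 3) (Fin 3) ℝ).det = D ∧
    ∀ z : Fin 3 → ℝ, z ⬝ᵥ ((!![A, p, 0; p, B, 0; 0, 0, 1] : Matrix (Fin 3) (Fin 3) ℝ)⁻¹.mulVec z)
      = (B * z 0 ^ 2 - 2 * p * z 0 * z 1 + A * z 1 ^ 2) / D + z 2 ^ 2 := by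
  have hne := hD0.ne'
  constructor
  · rw [Matrix.det_fin_three]
    simp
    rw [hD]; ring
  · intro z
    have hinv : (!![A, p, 0; p, B, 0; 0, 0, 1] : Matrix (Fin 3) (Fin 3) ℝ)⁻¹ =
        !![B / D, -p / D, 0; -p / D, A / D, 0; 0, 0, 1] := by
      apply Matrix.inv_eq_right_inv
      ext i j
      fin_cases i <;> fin_cases j <;> simp [Matrix.mul_apply, Fin.sum_univ_three] <;>
        field_simp <;> rw [hD] <;> ring
    rw [hinv]
    simp [Matrix.mulVec, dotProduct, Fin.sum_univ_three]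
    field_simp
    ring

/-- `h` in the Gram coordinates. -/
noncomputable def hh (u v : E) (z0 z1 : ℝ) : ℝ :=
  (1 - ((‖v‖ ^ 2 - (inner ℝ u v : ℝ)) / Dt u v * z0 +
    (‖u‖ ^ 2 - (inner ℝ u v : ℝ)) / Dt u v * z1) / 2) / Real.sqrt ((1 + mm u v) / 2)

/-- The quadratic form in the Gram coordinates. -/
noncomputable def qq (u v : E) (z0 z1 : ℝ) : ℝ :=
  (‖v‖ ^ 2 * z0 ^ 2 - 2 * (inner ℝ u v : ℝ) * z0 * z1 + ‖u‖ ^ 2 * z1 ^ 2) / Dt u v

theorem hh_inner (u v y : E) : hh u v (inner ℝ u y : ℝ) (inner ℝ v y : ℝ) =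
    (1 - (inner ℝ (cc u v) y : ℝ) / 2) / Real.sqrt ((1 + mm u v) / 2) := by
  unfold hh
  rw [cc_inner]

theorem exists_y (u v : E) (hD : 0 < Dt u v) (z0 z1 : ℝ) :
    ∃ y : E, (inner ℝ u y : ℝ) = z0 ∧ (inner ℝ v y : ℝ) = z1 ∧ y - pe u v y = y ∧
      ‖y‖ ^ 2 = qq u v z0 z1 := by
  have hne := hD.ne'
  have hDe : Dt u v = ‖u‖ ^ 2 * ‖v‖ ^ 2 - (inner ℝ u v : ℝ) ^ 2 := rfl
  have evu : (inner ℝ v u : ℝ) = inner ℝ u v := real_inner_comm _ _
  set al : ℝ := (‖v‖ ^ 2 * z0 - (inner ℝ u v : ℝ) * z1) / Dt u v with hal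
  set be : ℝ := (‖u‖ ^ 2 * z1 - (inner ℝ u v : ℝ) * z0) / Dt u v with hbe
  have h0 : (inner ℝ u (al • u + be • v) : ℝ) = z0 := by
    rw [inner_add_right, inner_smul_right, inner_smul_right, real_inner_self_eq_norm_sq, hal, hbe]
    field_simp
    rw [hDe]
    ring
  have h1 : (inner ℝ v (al • u + be • v) : ℝ) = z1 := by
    rw [inner_add_right, inner_smul_right, inner_smul_right, real_inner_self_eq_norm_sq, evu, hal,
      hbe]
    field_simp
    rw [hDe]
    ring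
  refine ⟨al • u + be • v, h0, h1, ?_, ?_⟩
  · have : pe u v (al • u + be • v) = 0 := by
      unfold pe
      rw [h0, h1, ← hal, ← hbe]
      abel
    rw [this, sub_zero]
  · rw [← real_inner_self_eq_norm_sq, inner_add_left, inner_smul_left, inner_smul_left, h0, h1,
      RCLike.conj_to_real, RCLike.conj_to_real, hal, hbe]
    unfold qq
    field_simp
    ring

/-- The comparison sets. -/
def SS (u v e : E) (r : ℝ) : Set E :=
  {y | ‖y‖ ^ 2 < 5 / 3 ∧ 1 < (inner ℝ u y : ℝ) ∧ 1 < (inner ℝ v y : ℝ) ∧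
    hh u v (inner ℝ u y : ℝ) (inner ℝ v y : ℝ) / r < (inner ℝ e y : ℝ)}

/-- The comparison sets in the Gram coordinates. -/
def AA (u v : E) (r : ℝ) : Set (Fin 3 → ℝ) :=
  {z | 1 < z 0 ∧ 1 < z 1 ∧ hh u v (z 0) (z 1) / r < z 2}

/-- The integrand. -/
noncomputable def FF (u v : E) (z : Fin 3 → ℝ) : ENNReal :=
  ENNReal.ofReal (kap 5 * Real.sqrt (5 / 3 - (qq u v (z 0) (z 1) + z 2 ^ 2)) ^ 5 /
    Real.sqrt (Dt u v))

theorem AA_meas (u v : E) (r : ℝ) : MeasurableSet (AA u v r) := by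
  have h : Continuous fun z : Fin 3 → ℝ => hh u v (z 0) (z 1) / r := by
    unfold hh
    fun_prop
  have h1 : MeasurableSet {z : Fin 3 → ℝ | 1 < z 0} :=
    (isOpen_lt continuous_const (continuous_apply 0)).measurableSet
  have h2 : MeasurableSet {z : Fin 3 → ℝ | 1 < z 1} :=
    (isOpen_lt continuous_const (continuous_apply 1)).measurableSet
  have h3 : MeasurableSet {z : Fin 3 → ℝ | hh u v (z 0) (z 1) / r < z 2} :=
    (isOpen_lt h (continuous_apply 2)).measurableSet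
  exact h1.inter (h2.inter h3)

theorem FF_meas (u v : E) : Measurable (FF u v) := by
  have h : Continuous fun z : Fin 3 → ℝ =>
      kap 5 * Real.sqrt (5 / 3 - (qq u v (z 0) (z 1) + z 2 ^ 2)) ^ 5 / Real.sqrt (Dt u v) := by
    unfold qq
    fun_prop
  exact h.measurable.ennreal_ofReal

theorem slice (hGSL : SpecGSL) (u v e : E) (hD : 0 < Dt u v) (he : ‖e‖ = 1)
    (hu : (inner ℝ e u : ℝ) = 0) (hv : (inner ℝ e v : ℝ) = 0) (r : ℝ) :
    volume (SS u v e r) = ∫⁻ z in AA u v r, FF u v z := by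
  have hu' : (inner ℝ u e : ℝ) = 0 := by rw [real_inner_comm]; exact hu
  have hv' : (inner ℝ v e : ℝ) = 0 := by rw [real_inner_comm]; exact hv
  have evu : (inner ℝ v u : ℝ) = inner ℝ u v := real_inner_comm _ _
  have hDe : Dt u v = ‖u‖ ^ 2 * ‖v‖ ^ 2 - (inner ℝ u v : ℝ) ^ 2 := rfl
  obtain ⟨hdet, hquad⟩ := gram3 (‖u‖ ^ 2) (‖v‖ ^ 2) (inner ℝ u v : ℝ) (Dt u v) hDe hD
  have hM : (Matrix.of fun i l : Fin 3 => (inner ℝ ((![u, v, e] : Fin 3 → E) i)
      ((![u, v, e] : Fin 3 → E) l) : ℝ)) =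
      !![‖u‖ ^ 2, (inner ℝ u v : ℝ), 0; (inner ℝ u v : ℝ), ‖v‖ ^ 2, 0; 0, 0, 1] := by
    ext i j
    fin_cases i <;> fin_cases j <;> simp [hu, hv, hu', hv', evu, he]
  have hli : LinearIndependent ℝ (![u, v, e] : Fin 3 → E) := by
    apply Matrix.linearIndependent_of_det_gram_ne_zero
    have : Matrix.gram ℝ (![u, v, e] : Fin 3 → E) = Matrix.of fun i l : Fin 3 =>
        (inner ℝ ((![u, v, e] : Fin 3 → E) i) ((![u, v, e] : Fin 3 → E) l) : ℝ) := rfl
    rw [this, hM, hdet]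
    exact hD.ne'
  have h := hGSL 3 5 (by norm_num) (by norm_num) ![u, v, e] hli (AA u v r) (AA_meas u v r) (5 / 3)
  rw [hM] at h
  have e1 : SS u v e r = {y : E | ‖y‖ ^ 2 < 5 / 3 ∧
      (fun i => (inner ℝ ((![u, v, e] : Fin 3 → E) i) y : ℝ)) ∈ AA u v r} := by
    ext y
    rfl
  rw [e1, h]
  apply lintegral_congr
  intro z
  unfold FF
  rw [hquad z, hdet]
  rfl

theorem insert_app (x : ℝ) (z : Fin 2 → ℝ) :
    ((MeasurableEquiv.piFinSuccAbove (fun _ : Fin 3 => ℝ) 2).symm (x, z)) 0 = z 0 ∧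
    ((MeasurableEquiv.piFinSuccAbove (fun _ : Fin 3 => ℝ) 2).symm (x, z)) 1 = z 1 ∧
    ((MeasurableEquiv.piFinSuccAbove (fun _ : Fin 3 => ℝ) 2).symm (x, z)) 2 = x := by
  refine ⟨rfl, rfl, rfl⟩

theorem fub (u v : E) (r : ℝ) : ∫⁻ z in AA u v r, FF u v z =
    ∫⁻ z' : Fin 2 → ℝ, ∫⁻ x : ℝ, (AA u v r).indicator (FF u v)
      ((MeasurableEquiv.piFinSuccAbove (fun _ : Fin 3 => ℝ) 2).symm (x, z')) := by
  rw [← lintegral_indicator (AA_meas u v r)]
  have hmeas : Measurable ((AA u v r).indicator (FF u v)) :=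
    (FF_meas u v).indicator (AA_meas u v r)
  have mp := (volume_preserving_piFinSuccAbove (fun _ : Fin 3 => ℝ) 2).symm
  rw [← mp.lintegral_comp hmeas]
  have hm2 : Measurable fun w : ℝ × (Fin 2 → ℝ) => (AA u v r).indicator (FF u v)
      ((MeasurableEquiv.piFinSuccAbove (fun _ : Fin 3 => ℝ) 2).symm w) :=
    hmeas.comp (MeasurableEquiv.measurable _)
  exact lintegral_prod_symm' _ hm2

theorem ind_eq (u v : E) (r : ℝ) (z : Fin 2 → ℝ) (h0 : 1 < z 0) (h1 : 1 < z 1) :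
    (∫⁻ x : ℝ, (AA u v r).indicator (FF u v)
      ((MeasurableEquiv.piFinSuccAbove (fun _ : Fin 3 => ℝ) 2).symm (x, z))) =
    ENNReal.ofReal (kap 5 / Real.sqrt (Dt u v)) *
      ∫⁻ x in Set.Ioi (hh u v (z 0) (z 1) / r),
        ENNReal.ofReal (Real.sqrt (5 / 3 - qq u v (z 0) (z 1) - x ^ 2) ^ 5) := by
  have hk : 0 ≤ kap 5 / Real.sqrt (Dt u v) :=
    div_nonneg ENNReal.toReal_nonneg (Real.sqrt_nonneg _)
  rw [← lintegral_indicator measurableSet_Ioi, ← lintegral_const_mul' _ _ ENNReal.ofReal_ne_top]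
  apply lintegral_congr
  intro x
  obtain ⟨a0, a1, a2⟩ := insert_app x z
  by_cases hx : hh u v (z 0) (z 1) / r < x
  · rw [Set.indicator_of_mem (show x ∈ Set.Ioi _ from hx), Set.indicator_of_mem]
    · unfold FF
      rw [a0, a1, a2, ← ENNReal.ofReal_mul hk]
      congr 1
      rw [show (5 : ℝ) / 3 - (qq u v (z 0) (z 1) + x ^ 2) = 5 / 3 - qq u v (z 0) (z 1) - x ^ 2 by
        ring]
      ring
    · refine ⟨?_, ?_, ?_⟩
      · rw [a0]; exact h0
      · rw [a1]; exact h1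
      · rw [a0, a1, a2]; exact hx
  · rw [Set.indicator_of_notMem (show x ∉ Set.Ioi _ from hx), Set.indicator_of_notMem, mul_zero]
    rintro ⟨-, -, h⟩
    rw [a0, a1, a2] at h
    exact hx h

theorem compare (hLKP : SpecLKP) (hJIN : SpecJIN) (u v : E) (h : RP u v) (r : ℝ) (hr : 0 < r)
    (hr1 : r ≤ 1) : ∫⁻ z in AA u v r, FF u v z ≤
      ENNReal.ofReal (sig (1 - r ^ 2)) * ∫⁻ z in AA u v 1, FF u v z := by
  rw [fub, fub, ← lintegral_const_mul' _ _ ENNReal.ofReal_ne_top]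
  apply lintegral_mono
  intro z
  show (∫⁻ x : ℝ, (AA u v r).indicator (FF u v)
      ((MeasurableEquiv.piFinSuccAbove (fun _ : Fin 3 => ℝ) 2).symm (x, z))) ≤
    ENNReal.ofReal (sig (1 - r ^ 2)) * ∫⁻ x : ℝ, (AA u v 1).indicator (FF u v)
      ((MeasurableEquiv.piFinSuccAbove (fun _ : Fin 3 => ℝ) 2).symm (x, z))
  by_cases hz : 1 < z 0 ∧ 1 < z 1
  · rw [ind_eq u v r z hz.1 hz.2, ind_eq u v 1 z hz.1 hz.2, div_one]
    have key : ∫⁻ x in Set.Ioi (hh u v (z 0) (z 1) / r),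
        ENNReal.ofReal (Real.sqrt (5 / 3 - qq u v (z 0) (z 1) - x ^ 2) ^ 5) ≤
        ENNReal.ofReal (sig (1 - r ^ 2)) * ∫⁻ x in Set.Ioi (hh u v (z 0) (z 1)),
        ENNReal.ofReal (Real.sqrt (5 / 3 - qq u v (z 0) (z 1) - x ^ 2) ^ 5) := by
      obtain ⟨y, hy0, hy1, hype, hyn⟩ := exists_y u v h.D (z 0) (z 1)
      rcases le_or_gt (5 / 3 - qq u v (z 0) (z 1)) 0 with hQ | hQ
      · have e0 : ∀ x : ℝ, ENNReal.ofReal
            (Real.sqrt (5 / 3 - qq u v (z 0) (z 1) - x ^ 2) ^ 5) = 0 := by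
          intro x
          rw [Real.sqrt_eq_zero_of_nonpos (by nlinarith [sq_nonneg x])]
          simp
        simp only [e0]
        simp
      · apply hJIN
        · rw [← hy0, ← hy1, hh_inner]
          apply hLKP.pos u v y h
          rw [hyn]
          linarith
        · exact hr
        · exact hr1
        · have h2 := hLKP.rad u v y h (by rw [hy0]; exact hz.1) (by rw [hy1]; exact hz.2)
          rw [← hh_inner, hy0, hy1, hype, hyn] at h2
          linarith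
    calc _ ≤ ENNReal.ofReal (kap 5 / Real.sqrt (Dt u v)) * (ENNReal.ofReal (sig (1 - r ^ 2)) *
        ∫⁻ x in Set.Ioi (hh u v (z 0) (z 1)),
        ENNReal.ofReal (Real.sqrt (5 / 3 - qq u v (z 0) (z 1) - x ^ 2) ^ 5)) := by gcongr
      _ = _ := by ring
  · have e0 : ∀ x : ℝ, (AA u v r).indicator (FF u v)
        ((MeasurableEquiv.piFinSuccAbove (fun _ : Fin 3 => ℝ) 2).symm (x, z)) = 0 := by
      intro x
      obtain ⟨a0, a1, a2⟩ := insert_app x z
      apply Set.indicator_of_notMem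
      rintro ⟨b0, b1, -⟩
      rw [a0] at b0
      rw [a1] at b1
      exact hz ⟨b0, b1⟩
    simp only [e0]
    simp

theorem cap_fin (u : E) (A : Set E) (hA : A ⊆ cap u) : volume A ≠ ⊤ := by
  have h : A ⊆ Metric.ball (0 : E) 2 := by
    intro y hy
    have h1 := (hA hy).1
    rw [Metric.mem_ball, dist_zero_right]
    nlinarith [norm_nonneg y]
  exact ((measure_mono h).trans_lt measure_ball_lt_top).ne

end LKSM

open LKPM LKSM

theorem specLKS (hLKV : SpecLKV) (hLKP : SpecLKP) (hJIN : SpecJIN) (hGSL : SpecGSL)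
    (hINV : SpecINV) : SpecLKS := by
  intro u v w n h hw hn hnu hnv
  have hk : 0 < (1 + mm u v) / 2 := by linarith [h.mlo]
  have hk0 : 0 < Real.sqrt ((1 + mm u v) / 2) := Real.sqrt_pos.mpr hk
  have hr1 := (hLKV.le u v w h hw).2
  have hv3 : 0 ≤ v3 u v (wst u v n) := ENNReal.toReal_nonneg
  have hsig : 0 ≤ sig (1 - ‖pw u v w‖ ^ 2) := pow_nonneg (Real.sqrt_nonneg _) _
  rcases (norm_nonneg (pw u v w)).eq_or_lt with hr | hr
  · -- `r = 0`
    have h0 : pw u v w = 0 := norm_eq_zero.1 hr.symm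
    have hemp : cap u ∩ cap v ∩ cap w = ∅ := by
      ext y
      simp only [Set.mem_empty_iff_false, iff_false]
      rintro ⟨⟨hu, hv⟩, hwy⟩
      have h1 := hLKP.cmp u v w y h hw hu.2 hv.2 hwy.2
      have h2 := hLKP.pos u v y h hu.1
      rw [h0, inner_zero_left, mul_zero] at h1
      have h3 : 0 < 1 - (inner ℝ (cc u v) y : ℝ) / 2 := by
        by_contra hc
        push Not at hc
        exact absurd (div_nonpos_of_nonpos_of_nonneg hc hk0.le) (not_le.2 h2)
      linarith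
    have : v3 u v w = 0 := by
      unfold v3
      rw [hemp]
      simp
    rw [this]
    exact mul_nonneg hsig hv3
  · -- `r > 0`
    set r := ‖pw u v w‖ with hrdef
    set e : E := (1 / r) • pw u v w with he
    have hen : ‖e‖ = 1 := by
      rw [he, norm_smul, Real.norm_eq_abs, abs_of_pos (by positivity), ← hrdef]
      field_simp
    obtain ⟨ho1, ho2⟩ := hLKV.orth u v w h
    have heu : (inner ℝ e u : ℝ) = 0 := by
      rw [he, inner_smul_left, ho1]; simp
    have hev : (inner ℝ e v : ℝ) = 0 := by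
      rw [he, inner_smul_left, ho2]; simp
    have hpe : ∀ y : E, (inner ℝ (pw u v w) y : ℝ) = r * inner ℝ e y := by
      intro y
      rw [he, inner_smul_left, RCLike.conj_to_real]
      field_simp
    -- inner products with the centre
    have hcn : ∀ n' : E, (inner ℝ n' u : ℝ) = 0 → (inner ℝ n' v : ℝ) = 0 →
        (inner ℝ (cc u v) n' : ℝ) = 0 := by
      intro n' h1 h2
      rw [cc_inner, real_inner_comm n' u, h1, real_inner_comm n' v, h2]
      ring
    have hwn : ∀ n' : E, ‖n'‖ = 1 → (inner ℝ n' u : ℝ) = 0 → (inner ℝ n' v : ℝ) = 0 →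
        ‖wst u v n'‖ ^ 2 = ‖cc u v‖ ^ 2 / 4 + (1 + mm u v) / 2 := by
      intro n' h0 h1 h2
      unfold wst
      rw [@norm_add_sq_real, inner_smul_left, inner_smul_right, hcn n' h1 h2, norm_smul, norm_smul,
        h0, Real.norm_eq_abs, Real.norm_eq_abs, abs_of_pos hk0, mul_one, Real.sq_sqrt hk.le,
        mul_pow, sq_abs]
      ring
    have hwu : ∀ n' : E, (inner ℝ n' u : ℝ) = 0 →
        (inner ℝ u (wst u v n') : ℝ) = 1 / 2 * inner ℝ u (cc u v) := by
      intro n' h1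
      unfold wst
      rw [inner_add_right, inner_smul_right, inner_smul_right, real_inner_comm, real_inner_comm n' u,
        h1, mul_zero, add_zero, real_inner_comm]
    have hwv : ∀ n' : E, (inner ℝ n' v : ℝ) = 0 →
        (inner ℝ v (wst u v n') : ℝ) = 1 / 2 * inner ℝ v (cc u v) := by
      intro n' h1
      unfold wst
      rw [inner_add_right, inner_smul_right, inner_smul_right, real_inner_comm n' v,
        h1, mul_zero, add_zero]
    have hv3e : v3 u v (wst u v n) = v3 u v (wst u v e) := by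
      apply hINV.g3 u v (wst u v n) u v (wst u v e) rfl rfl _ rfl
      · rw [hwu n hnu, hwu e heu]
      · rw [hwv n hnv, hwv e hev]
      · have h1 := hwn n hn hnu hnv
        have h2 := hwn e hen heu hev
        have h3 : ‖wst u v n‖ ^ 2 = ‖wst u v e‖ ^ 2 := by rw [h1, h2]
        exact (pow_left_inj₀ (norm_nonneg _) (norm_nonneg _) two_ne_zero).1 h3
    rw [hv3e]
    -- the inclusions
    have hincl : cap u ∩ cap v ∩ cap w ⊆ SS u v e r := by
      rintro y ⟨⟨hu, hv⟩, hwy⟩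
      refine ⟨hu.1, hu.2, hv.2, ?_⟩
      have h1 := hLKP.cmp u v w y h hw hu.2 hv.2 hwy.2
      rw [hpe y] at h1
      rw [hh_inner, div_div, div_lt_iff₀ (by positivity)]
      calc 1 - (inner ℝ (cc u v) y : ℝ) / 2 < _ := h1
        _ = _ := by ring
    have hincl2 : SS u v e 1 ⊆ cap u ∩ cap v ∩ cap (wst u v e) := by
      rintro y ⟨h0, h1, h2, h3⟩
      refine ⟨⟨⟨h0, h1⟩, ⟨h0, h2⟩⟩, ⟨h0, ?_⟩⟩
      rw [hh_inner, div_one, div_lt_iff₀ hk0] at h3
      unfold wst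
      rw [inner_add_left, inner_smul_left, inner_smul_left, RCLike.conj_to_real,
        RCLike.conj_to_real]
      linarith
    have hcmp : volume (SS u v e r) ≤ ENNReal.ofReal (sig (1 - r ^ 2)) * volume (SS u v e 1) := by
      rw [slice hGSL u v e h.D hen heu hev r, slice hGSL u v e h.D hen heu hev 1]
      exact compare hLKP hJIN u v h r hr hr1
    have hfin1 : volume (SS u v e 1) ≠ ⊤ := cap_fin u _ (fun y hy => ⟨hy.1, hy.2.1⟩)
    have hfin2 : volume (cap u ∩ cap v ∩ cap (wst u v e)) ≠ ⊤ :=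
      cap_fin u _ (fun y hy => hy.1.1)
    unfold v3
    calc (volume (cap u ∩ cap v ∩ cap w)).toReal ≤
        (ENNReal.ofReal (sig (1 - r ^ 2)) * volume (SS u v e 1)).toReal := by
          apply ENNReal.toReal_mono (ENNReal.mul_ne_top ENNReal.ofReal_ne_top hfin1)
          exact (measure_mono hincl).trans hcmp
      _ = sig (1 - r ^ 2) * (volume (SS u v e 1)).toReal := by
          rw [ENNReal.toReal_mul, ENNReal.toReal_ofReal hsig]
      _ ≤ sig (1 - r ^ 2) * (volume (cap u ∩ cap v ∩ cap (wst u v e))).toReal := by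
          apply mul_le_mul_of_nonneg_left _ hsig
          exact ENNReal.toReal_mono hfin2 (measure_mono hincl2)

end Pool.Agent.Lib.MP_f1379f_gt.FV
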