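import Pool.Agent.Lib.MP_f1379f_gt.FV.SpecA
import Pool.Agent.Lib.MP_f1379f_gt.FV.GEN

/-!
# MP_f1379f_gt, full Q1, block A: S27, the weighted 27-bound
-/

set_option autoImplicit false

namespace Pool.Agent.Lib.MP_f1379f_gt.FV
namespace S27M

/-- The one-variable inequality in `r`. -/
lemma key (r : ℝ) (h0 : 0 ≤ r) (h1 : r ≤ 1) :
    r ^ 3 * (2 - r ^ 2) ^ 5 ≤ (2 - r ^ 2) ^ 3 + 8 / 3 * (1 - r ^ 2) * (2 - r ^ 2) ^ 2
      - 82 / 9 * (1 - r ^ 2) ^ 2 * (2 - r ^ 2) + 16 / 27 * (1 - r ^ 2) ^ 3 := by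
  have h2 : 0 ≤ 1 - r := by linarith
  have h : (2 - r ^ 2) ^ 3 + 8 / 3 * (1 - r ^ 2) * (2 - r ^ 2) ^ 2
      - 82 / 9 * (1 - r ^ 2) ^ 2 * (2 - r ^ 2) + 16 / 27 * (1 - r ^ 2) ^ 3
      - r ^ 3 * (2 - r ^ 2) ^ 5 =
      (28/27) * (r ^ 0 * (1 - r) ^ 13) +
      (364/27) * (r ^ 1 * (1 - r) ^ 12) +
      (274/3) * (r ^ 2 * (1 - r) ^ 11) +
      (10246/27) * (r ^ 3 * (1 - r) ^ 10) +
      (26476/27) * (r ^ 4 * (1 - r) ^ 9) +
      (1560) * (r ^ 5 * (1 - r) ^ 8) +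
      (39935/27) * (r ^ 6 * (1 - r) ^ 7) +
      (21353/27) * (r ^ 7 * (1 - r) ^ 6) +
      (2393/9) * (r ^ 8 * (1 - r) ^ 5) +
      (3941/27) * (r ^ 9 * (1 - r) ^ 4) +
      (2747/27) * (r ^ 10 * (1 - r) ^ 3) +
      (317/9) * (r ^ 11 * (1 - r) ^ 2) +
      (13/3) * (r ^ 12 * (1 - r) ^ 1) := by ring
  have h3 : 0 ≤ (28/27 : ℝ) * (r ^ 0 * (1 - r) ^ 13) +
      (364/27) * (r ^ 1 * (1 - r) ^ 12) +
      (274/3) * (r ^ 2 * (1 - r) ^ 11) +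
      (10246/27) * (r ^ 3 * (1 - r) ^ 10) +
      (26476/27) * (r ^ 4 * (1 - r) ^ 9) +
      (1560) * (r ^ 5 * (1 - r) ^ 8) +
      (39935/27) * (r ^ 6 * (1 - r) ^ 7) +
      (21353/27) * (r ^ 7 * (1 - r) ^ 6) +
      (2393/9) * (r ^ 8 * (1 - r) ^ 5) +
      (3941/27) * (r ^ 9 * (1 - r) ^ 4) +
      (2747/27) * (r ^ 10 * (1 - r) ^ 3) +
      (317/9) * (r ^ 11 * (1 - r) ^ 2) +
      (13/3) * (r ^ 12 * (1 - r) ^ 1) := by positivity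
  linarith

/-- The polynomial `B`. -/
noncomputable def B (x : ℝ) : ℝ := 1 + 8 / 3 * x - 82 / 9 * x ^ 2 + 16 / 27 * x ^ 3

lemma point (x : ℝ) (h0 : 0 ≤ x) (h1 : x ≤ 1 / 2) : sig x ≤ (1 - 2 * x) ^ 2 * B x := by
  unfold sig
  set r := Real.sqrt ((1 - 2 * x) / (1 - x)) with hr
  have hy : 0 < 1 - x := by linarith
  have hr0 : 0 ≤ r := Real.sqrt_nonneg _
  have hq : r ^ 2 = (1 - 2 * x) / (1 - x) :=
    Real.sq_sqrt (div_nonneg (by linarith) hy.le)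
  have hqy : (1 - x) * r ^ 2 = 1 - 2 * x := by rw [hq]; field_simp
  have hr1 : r ≤ 1 := by
    rw [hr, Real.sqrt_le_one]
    rw [div_le_one hy]
    linarith
  have k := key r hr0 hr1
  have e1 : (1 - x) * (2 - r ^ 2) = 1 := by linarith [hqy]
  have e2 : (1 - x) * (1 - r ^ 2) = x := by linarith [hqy]
  have h3 : r ^ 3 ≤ (1 - x) ^ 2 * B x := by
    calc r ^ 3 = ((1 - x) * (2 - r ^ 2)) ^ 5 * r ^ 3 := by rw [e1]; ring
      _ = (1 - x) ^ 5 * (r ^ 3 * (2 - r ^ 2) ^ 5) := by ring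
      _ ≤ (1 - x) ^ 5 * ((2 - r ^ 2) ^ 3 + 8 / 3 * (1 - r ^ 2) * (2 - r ^ 2) ^ 2
          - 82 / 9 * (1 - r ^ 2) ^ 2 * (2 - r ^ 2) + 16 / 27 * (1 - r ^ 2) ^ 3) :=
          mul_le_mul_of_nonneg_left k (by positivity)
      _ = (1 - x) ^ 2 * (((1 - x) * (2 - r ^ 2)) ^ 3
          + 8 / 3 * ((1 - x) * (1 - r ^ 2)) * ((1 - x) * (2 - r ^ 2)) ^ 2
          - 82 / 9 * ((1 - x) * (1 - r ^ 2)) ^ 2 * ((1 - x) * (2 - r ^ 2))
          + 16 / 27 * ((1 - x) * (1 - r ^ 2)) ^ 3) := by ring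
      _ = (1 - x) ^ 2 * B x := by rw [e1, e2]; unfold B; ring
  calc r ^ 7 = (r ^ 2) ^ 2 * r ^ 3 := by ring
    _ ≤ (r ^ 2) ^ 2 * ((1 - x) ^ 2 * B x) := mul_le_mul_of_nonneg_left h3 (by positivity)
    _ = ((1 - x) * r ^ 2) ^ 2 * B x := by ring
    _ = (1 - 2 * x) ^ 2 * B x := by rw [hqy]

lemma sig_zero (x : ℝ) (h1 : 1 / 2 ≤ x) (h2 : x ≤ 1) : sig x = 0 := by
  unfold sig
  rw [Real.sqrt_eq_zero_of_nonpos, zero_pow (by norm_num)]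
  exact div_nonpos_of_nonpos_of_nonneg (by linarith) (by linarith)

lemma Z1 (p m : ℝ) : Zg 6 1 p m = p := by simp [Zg]

lemma Z2 (p m : ℝ) : Zg 6 2 p m = (6 * p ^ 2 - m) / 5 := by
  rw [show Zg 6 2 p m = ((2 * ((0 : ℕ) : ℝ) + ((6 : ℕ) : ℝ)) * (p * Zg 6 1 p m) -
    (((0 : ℕ) : ℝ) + 1) * (m * Zg 6 0 p m)) / (((0 : ℕ) : ℝ) + ((6 : ℕ) : ℝ) - 1) from rfl]
  rw [Z1, show Zg 6 0 p m = 1 from rfl]
  push_cast
  ring

lemma Z3 (p m : ℝ) : Zg 6 3 p m = (8 * p ^ 3 - 3 * p * m) / 5 := by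
  rw [show Zg 6 3 p m = ((2 * ((1 : ℕ) : ℝ) + ((6 : ℕ) : ℝ)) * (p * Zg 6 2 p m) -
    (((1 : ℕ) : ℝ) + 1) * (m * Zg 6 1 p m)) / (((1 : ℕ) : ℝ) + ((6 : ℕ) : ℝ) - 1) from rfl]
  rw [Z1, Z2]
  push_cast
  ring

variable {ι : Type}

lemma dsum_sq (s : Finset ι) (a : ι → ℝ) :
    ∑ i ∈ s, ∑ j ∈ s, a i * a j = (∑ i ∈ s, a i) ^ 2 := by
  rw [sq, Finset.sum_mul_sum]

/-- The sum of squares of inner products. -/
lemma two (s : Finset ι) (p : ι → E6) (a : ι → ℝ) :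
    (1 / 6) * (∑ i ∈ s, a i * ‖p i‖ ^ 2) ^ 2 ≤
      ∑ i ∈ s, ∑ j ∈ s, a i * a j * (inner ℝ (p i) (p j) : ℝ) ^ 2 := by
  have h := gen_pos (n := 6) (by norm_num) 2 s p a
  have e : ∑ i ∈ s, ∑ j ∈ s, a i * a j *
      Zg 6 2 (inner ℝ (p i) (p j)) (inner ℝ (p i) (p i) * inner ℝ (p j) (p j)) =
      (6 / 5) * ∑ i ∈ s, ∑ j ∈ s, a i * a j * (inner ℝ (p i) (p j) : ℝ) ^ 2 -
      (1 / 5) * (∑ i ∈ s, a i * ‖p i‖ ^ 2) ^ 2 := by
    rw [← dsum_sq, Finset.mul_sum, Finset.mul_sum, ← Finset.sum_sub_distrib]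
    apply Finset.sum_congr rfl
    intro i _
    rw [Finset.mul_sum, Finset.mul_sum, ← Finset.sum_sub_distrib]
    apply Finset.sum_congr rfl
    intro j _
    rw [Z2, real_inner_self_eq_norm_sq, real_inner_self_eq_norm_sq]
    ring
  rw [e] at h
  linarith

/-- The sum of cubes of inner products. -/
lemma three (s : Finset ι) (p : ι → E6) (a : ι → ℝ) :
    0 ≤ ∑ i ∈ s, ∑ j ∈ s, a i * a j * (inner ℝ (p i) (p j) : ℝ) ^ 3 := by
  have h := gen_pos (n := 6) (by norm_num) 3 s p a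
  have h' := gen_pos (n := 6) (by norm_num) 1 s p (fun i => a i * ‖p i‖ ^ 2)
  have e : ∑ i ∈ s, ∑ j ∈ s, a i * a j * (inner ℝ (p i) (p j) : ℝ) ^ 3 =
      (5 / 8) * (∑ i ∈ s, ∑ j ∈ s, a i * a j *
      Zg 6 3 (inner ℝ (p i) (p j)) (inner ℝ (p i) (p i) * inner ℝ (p j) (p j))) +
      (3 / 8) * (∑ i ∈ s, ∑ j ∈ s, (a i * ‖p i‖ ^ 2) * (a j * ‖p j‖ ^ 2) *
      Zg 6 1 (inner ℝ (p i) (p j)) (inner ℝ (p i) (p i) * inner ℝ (p j) (p j))) := by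
    rw [Finset.mul_sum, Finset.mul_sum, ← Finset.sum_add_distrib]
    apply Finset.sum_congr rfl
    intro i _
    rw [Finset.mul_sum, Finset.mul_sum, ← Finset.sum_add_distrib]
    apply Finset.sum_congr rfl
    intro j _
    rw [Z3, Z1, real_inner_self_eq_norm_sq, real_inner_self_eq_norm_sq]
    ring
  rw [e]
  linarith

/-- The bound for the index set of the nonzero terms. -/
lemma main (s : Finset ι) (hn : s.card ≤ 93) (p : ι → E6) (hp : ∀ i ∈ s, ‖p i‖ ≤ 1)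
    (hp2 : ∀ i ∈ s, 1 / 2 ≤ ‖p i‖ ^ 2)
    (hc : ∀ i ∈ s, ∀ j ∈ s, i ≠ j → (inner ℝ (p i) (p j) : ℝ) ≤ 1 / 4) :
    ∑ i ∈ s, sig (1 - ‖p i‖ ^ 2) ≤ 27 := by
  classical
  have hx0 : ∀ i ∈ s, 0 ≤ 1 - ‖p i‖ ^ 2 := fun i hi => by
    have := pow_le_one₀ (n := 2) (norm_nonneg (p i)) (hp i hi)
    linarith
  have hx1 : ∀ i ∈ s, 1 - ‖p i‖ ^ 2 ≤ 1 / 2 := fun i hi => by linarith [hp2 i hi]
  set x : ι → ℝ := fun i => 1 - ‖p i‖ ^ 2 with hx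
  set a : ι → ℝ := fun i => 1 - 2 * x i with ha
  have ha0 : ∀ i ∈ s, 0 ≤ a i := fun i hi => by
    have := hx1 i hi
    simp only [ha, hx]
    linarith
  -- the quadratic form
  have h2 := two s p a
  have h3 := three s p a
  set A := ∑ i ∈ s, a i with hA
  set Y := ∑ i ∈ s, a i * x i with hY
  have hAY : ∑ i ∈ s, a i * ‖p i‖ ^ 2 = A - Y := by
    rw [hA, hY, ← Finset.sum_sub_distrib]
    apply Finset.sum_congr rfl
    intro i _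
    simp only [hx]
    ring
  rw [hAY] at h2
  have hF : ∑ i ∈ s, ∑ j ∈ s, a i * a j * (((inner ℝ (p i) (p j) : ℝ) + 1 / 2) ^ 2 *
      ((inner ℝ (p i) (p j) : ℝ) - 1 / 4)) ≤
      ∑ i ∈ s, a i ^ 2 * ((3 / 2 - x i) ^ 2 * (3 / 4 - x i)) := by
    apply Finset.sum_le_sum
    intro i hi
    have e : a i ^ 2 * ((3 / 2 - x i) ^ 2 * (3 / 4 - x i)) =
        ∑ j ∈ s, if j = i then a i ^ 2 * ((3 / 2 - x i) ^ 2 * (3 / 4 - x i)) else 0 := by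
      rw [Finset.sum_ite_eq' s i, if_pos hi]
    rw [e]
    apply Finset.sum_le_sum
    intro j hj
    split_ifs with hji
    · subst hji
      rw [real_inner_self_eq_norm_sq]
      simp only [hx]
      apply le_of_eq
      ring
    · have h4 := hc i hi j hj (fun h => hji h.symm)
      apply mul_nonpos_of_nonneg_of_nonpos (mul_nonneg (ha0 i hi) (ha0 j hj))
      exact mul_nonpos_of_nonneg_of_nonpos (sq_nonneg _) (by linarith)
  have hE : ∑ i ∈ s, ∑ j ∈ s, a i * a j * (((inner ℝ (p i) (p j) : ℝ) + 1 / 2) ^ 2 *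
      ((inner ℝ (p i) (p j) : ℝ) - 1 / 4)) =
      ∑ i ∈ s, ∑ j ∈ s, a i * a j * (inner ℝ (p i) (p j) : ℝ) ^ 3 +
      (3 / 4) * (∑ i ∈ s, ∑ j ∈ s, a i * a j * (inner ℝ (p i) (p j) : ℝ) ^ 2) -
      (1 / 16) * A ^ 2 := by
    rw [hA, ← dsum_sq, Finset.mul_sum, Finset.mul_sum, ← Finset.sum_add_distrib,
      ← Finset.sum_sub_distrib]
    apply Finset.sum_congr rfl
    intro i _
    rw [Finset.mul_sum, Finset.mul_sum, ← Finset.sum_add_distrib, ← Finset.sum_sub_distrib]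
    apply Finset.sum_congr rfl
    intro j _
    ring
  have hCS : Y ^ 2 ≤ 93 * ∑ i ∈ s, (a i * x i) ^ 2 := by
    have h5 : Y ^ 2 ≤ (s.card : ℝ) * ∑ i ∈ s, (a i * x i) ^ 2 := sq_sum_le_card_mul_sum_sq
    have h6 : (s.card : ℝ) ≤ 93 := by exact_mod_cast hn
    have h7 : 0 ≤ ∑ i ∈ s, (a i * x i) ^ 2 := Finset.sum_nonneg fun i _ => sq_nonneg _
    nlinarith
  have hS : ∑ i ∈ s, a i ^ 2 * B (x i) = 2 * A - 4 * Y -
      (16 / 27) * (∑ i ∈ s, a i ^ 2 * ((3 / 2 - x i) ^ 2 * (3 / 4 - x i))) -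
      (62 / 9) * ∑ i ∈ s, (a i * x i) ^ 2 := by
    rw [hA, hY, Finset.mul_sum, Finset.mul_sum, Finset.mul_sum, Finset.mul_sum,
      ← Finset.sum_sub_distrib, ← Finset.sum_sub_distrib, ← Finset.sum_sub_distrib]
    apply Finset.sum_congr rfl
    intro i _
    simp only [ha]
    unfold B
    ring
  have hpt : ∑ i ∈ s, sig (1 - ‖p i‖ ^ 2) ≤ ∑ i ∈ s, a i ^ 2 * B (x i) := by
    apply Finset.sum_le_sum
    intro i hi
    exact point _ (hx0 i hi) (hx1 i hi)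
  have hq := sq_nonneg (A - 27 - 2 * Y)
  rw [hE] at hF
  nlinarith

end S27M

open S27M in
/-- **S27**: the weighted 27-bound. -/
theorem specS27 (hLP6 : SpecLP6) : SpecS27 := by
  classical
  intro ι s p hp hc
  set J := s.filter fun i => 1 / 2 < ‖p i‖ ^ 2 with hJ
  have hsum : ∑ i ∈ s, sig (1 - ‖p i‖ ^ 2) = ∑ i ∈ J, sig (1 - ‖p i‖ ^ 2) := by
    rw [hJ, Finset.sum_filter]
    apply Finset.sum_congr rfl
    intro i hi
    split_ifs with h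
    · rfl
    · exact sig_zero _ (by linarith) (by linarith [sq_nonneg ‖p i‖])
  rw [hsum]
  have hJs : ∀ i ∈ J, i ∈ s ∧ 1 / 2 < ‖p i‖ ^ 2 := fun i hi => by
    rw [hJ, Finset.mem_filter] at hi
    exact hi
  have hpos : ∀ i ∈ J, 0 < ‖p i‖ := fun i hi => by
    have h := (hJs i hi).2
    by_contra h0
    have h1 : ‖p i‖ = 0 := le_antisymm (not_lt.1 h0) (norm_nonneg _)
    rw [h1] at h
    norm_num at h
  let w : ι → E6 := fun i => (‖p i‖)⁻¹ • p i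
  have hw1 : ∀ i ∈ J, ‖w i‖ = 1 := fun i hi => by
    change ‖(‖p i‖)⁻¹ • p i‖ = 1
    rw [norm_smul, norm_inv, norm_norm]
    exact inv_mul_cancel₀ (hpos i hi).ne'
  have hw2 : ∀ i ∈ J, ∀ j ∈ J, i ≠ j → (inner ℝ (w i) (w j) : ℝ) ≤ 1 / 2 := by
    intro i hi j hj hij
    have h := hc i (hJs i hi).1 j (hJs j hj).1 hij
    change (inner ℝ ((‖p i‖)⁻¹ • p i) ((‖p j‖)⁻¹ • p j) : ℝ) ≤ 1 / 2
    rw [real_inner_smul_left, real_inner_smul_right, ← mul_assoc, ← mul_inv, inv_mul_le_iff₀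
      (mul_pos (hpos i hi) (hpos j hj))]
    have h1 : 1 / 2 ≤ ‖p i‖ * ‖p j‖ := by
      have h2 : (1 / 2 : ℝ) ^ 2 ≤ (‖p i‖ * ‖p j‖) ^ 2 := by
        have h3 := (hJs i hi).2
        have h4 := (hJs j hj).2
        rw [mul_pow]
        nlinarith
      exact le_of_sq_le_sq h2 (mul_nonneg (norm_nonneg _) (norm_nonneg _))
    linarith
  have hinj : Set.InjOn w J := by
    intro i hi j hj hij
    by_contra hne
    have h := hw2 i hi j hj hne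
    rw [← hij, real_inner_self_eq_norm_sq, hw1 i hi] at h
    norm_num at h
  have hcard : J.card ≤ 93 := by
    rw [← Finset.card_image_of_injOn hinj]
    apply hLP6
    · intro q hq
      obtain ⟨i, hi, rfl⟩ := Finset.mem_image.1 hq
      exact hw1 i hi
    · intro q hq q' hq' hne
      obtain ⟨i, hi, rfl⟩ := Finset.mem_image.1 hq
      obtain ⟨j, hj, rfl⟩ := Finset.mem_image.1 hq'
      exact hw2 i hi j hj (fun h => hne (by rw [h]))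
  exact main J hcard p (fun i hi => hp i (hJs i hi).1) (fun i hi => (hJs i hi).2.le)
    (fun i hi j hj hij => hc i (hJs i hi).1 j (hJs j hj).1 hij)

end Pool.Agent.Lib.MP_f1379f_gt.FV
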