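import Pool.Agent.Lib.MP_f1379f_gt.FV.SpecA
import Pool.Agent.Lib.MP_f1379f_gt.FV.GEN
import Pool.Agent.Lib.MP_f1379f_gt.FV.CertDefs
import Pool.Agent.Lib.MP_f1379f_gt.FV.PWH
import Pool.Agent.Lib.MP_f1379f_gt.FV.SpecF

section
/-!
# MP_f1379f_gt, full Q1: assembly of a two-body certificate (linear algebra part)

`cert_asm`: kernel `K = sum_k (sum_c w b b + c' W W) Z_k` (`w >= 0`), pair inequality `K + P <= M`,
one-body inequality `one + K(u,u)/2 + O <= l`, with `l = 240 K_0(u, u*)`.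
-/
set_option autoImplicit false

namespace Pool.Agent.Lib.MP_f1379f_gt.FV

open Finset

/-- The homogeneous zonal kernel of degree `k` in `R^8`. -/
noncomputable def ZZ (k : ℕ) (u v : E) : ℝ :=
  Zg 8 k (inner ℝ u v) (‖u‖ ^ 2 * ‖v‖ ^ 2)

/-- A kernel given by squares and a multiple of `W W`. -/
noncomputable def KK (n : ℕ) (t : ℕ → Finset ℕ) (w : ℕ → ℕ → ℝ) (b : ℕ → ℕ → E → ℝ) (c' : ℕ → ℝ)
    (W : E → ℝ) (u v : E) : ℝ :=
  ∑ k ∈ range (n + 1), (∑ c ∈ t k, w k c * b k c u * b k c v + c' k * W u * W v) * ZZ k u v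

namespace CASM

lemma zz_pos (k : ℕ) (U : Finset E) (f : E → ℝ) :
    0 ≤ ∑ u ∈ U, ∑ v ∈ U, f u * f v * ZZ k u v := by
  have h := gen_pos (n := 8) (by norm_num) k U (fun u : E => u) f
  have e : ∀ u v : E, ZZ k u v = Zg 8 k (inner ℝ u v) (inner ℝ u u * inner ℝ v v) := by
    intro u v
    unfold ZZ
    rw [real_inner_self_eq_norm_sq, real_inner_self_eq_norm_sq]
  simpa [e] using h

lemma zz_zero (u v : E) : ZZ 0 u v = 1 := by simp [ZZ, Zg]

lemma sum_erase {U : Finset E} (f : E → E → ℝ) :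
    ∑ u ∈ U, ∑ v ∈ U.erase u, f u v = ∑ u ∈ U, ∑ v ∈ U, f u v - ∑ u ∈ U, f u u := by
  rw [← sum_sub_distrib]
  apply sum_congr rfl
  intro u hu
  rw [← add_sum_erase U (fun v => f u v) hu]
  ring

end CASM

open CASM in
theorem cert_asm (U : Finset E) (n : ℕ) (t : ℕ → Finset ℕ) (w : ℕ → ℕ → ℝ) (b : ℕ → ℕ → E → ℝ)
    (c' : ℕ → ℝ) (W : E → ℝ) (bs : ℕ → ℝ) (one O : E → ℝ) (M P : E → E → ℝ)
    (hw : ∀ k ∈ range (n + 1), ∀ c ∈ t k, 0 ≤ w k c)
    (hP : ∀ u ∈ U, ∀ v ∈ U, u ≠ v → KK n t w b c' W u v + P u v ≤ M u v)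
    (hO : ∀ u ∈ U, one u + KK n t w b c' W u u / 2 + O u ≤
      240 * (∑ c ∈ t 0, w 0 c * b 0 c u * bs c + c' 0 * W u)) :
    -(28800 * (∑ c ∈ t 0, w 0 c * bs c ^ 2 + c' 0)) + ∑ u ∈ U, O u
        + (1 / 2) * ∑ u ∈ U, ∑ v ∈ U.erase u, P u v
        + (1 / 2) * (c' 0 * (∑ u ∈ U, W u - 240) ^ 2
          + ∑ k ∈ Finset.Ioc 0 n, c' k * ∑ u ∈ U, ∑ v ∈ U, W u * W v * ZZ k u v)
      ≤ -∑ u ∈ U, one u + (1 / 2) * ∑ u ∈ U, ∑ v ∈ U.erase u, M u v := by
  have h1 : ∑ u ∈ U, ∑ v ∈ U.erase u, (KK n t w b c' W u v + P u v) ≤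
      ∑ u ∈ U, ∑ v ∈ U.erase u, M u v := by
    apply sum_le_sum
    intro u hu
    apply sum_le_sum
    intro v hv
    exact hP u hu v (mem_of_mem_erase hv) (ne_of_mem_erase hv).symm
  have h2 : ∑ u ∈ U, (one u + KK n t w b c' W u u / 2 + O u) ≤
      ∑ u ∈ U, 240 * (∑ c ∈ t 0, w 0 c * b 0 c u * bs c + c' 0 * W u) := sum_le_sum hO
  simp only [sum_add_distrib] at h1 h2
  rw [sum_erase (U := U) (fun u v => KK n t w b c' W u v)] at h1
  rw [← sum_div] at h2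
  -- the double sum of the kernel
  have h3 : ∑ u ∈ U, ∑ v ∈ U, KK n t w b c' W u v =
      ∑ k ∈ range (n + 1), (∑ c ∈ t k, w k c * ∑ u ∈ U, ∑ v ∈ U, b k c u * b k c v * ZZ k u v
        + c' k * ∑ u ∈ U, ∑ v ∈ U, W u * W v * ZZ k u v) := by
    unfold KK
    have e1 : ∀ u ∈ U, ∑ v ∈ U, ∑ k ∈ range (n + 1),
        (∑ c ∈ t k, w k c * b k c u * b k c v + c' k * W u * W v) * ZZ k u v =
        ∑ k ∈ range (n + 1), ∑ v ∈ U,
        (∑ c ∈ t k, w k c * b k c u * b k c v + c' k * W u * W v) * ZZ k u v :=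
      fun u _ => sum_comm
    rw [sum_congr rfl e1, sum_comm]
    apply sum_congr rfl
    intro k _
    simp only [mul_sum]
    rw [sum_comm (s := t k), ← sum_add_distrib]
    apply sum_congr rfl
    intro u _
    rw [sum_comm (s := t k), ← sum_add_distrib]
    apply sum_congr rfl
    intro v _
    rw [add_mul, sum_mul]
    congr 1
    · apply sum_congr rfl
      intro c _
      ring
    · ring
  -- split off degree 0
  have h4 : range (n + 1) = insert 0 (Finset.Ioc 0 n) := by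
    ext k
    simp only [mem_range, mem_insert, Finset.mem_Ioc]
    omega
  have h5 : (0 : ℕ) ∉ Finset.Ioc 0 n := by simp
  rw [h4, sum_insert h5] at h3
  have h6 : ∀ f : E → ℝ, ∑ u ∈ U, ∑ v ∈ U, f u * f v * ZZ 0 u v = (∑ u ∈ U, f u) ^ 2 := by
    intro f
    rw [sq, sum_mul_sum]
    simp [zz_zero]
  simp only [h6] at h3
  have h7 : ∑ k ∈ Finset.Ioc 0 n, c' k * ∑ u ∈ U, ∑ v ∈ U, W u * W v * ZZ k u v ≤
      ∑ k ∈ Finset.Ioc 0 n, (∑ c ∈ t k, w k c * ∑ u ∈ U, ∑ v ∈ U, b k c u * b k c v * ZZ k u v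
        + c' k * ∑ u ∈ U, ∑ v ∈ U, W u * W v * ZZ k u v) := by
    apply sum_le_sum
    intro k hk
    have hk' : k ∈ range (n + 1) := by rw [h4]; exact mem_insert_of_mem hk
    have := sum_nonneg (s := t k) (f := fun c => w k c * ∑ u ∈ U, ∑ v ∈ U,
      b k c u * b k c v * ZZ k u v) (fun c hc => mul_nonneg (hw k hk' c hc) (zz_pos k U _))
    linarith
  have h8 : 0 ≤ ∑ c ∈ t 0, w 0 c * (∑ u ∈ U, b 0 c u - 240 * bs c) ^ 2 :=
    sum_nonneg fun c hc => mul_nonneg (hw 0 (by simp) c hc) (sq_nonneg _)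
  have h9 : ∑ u ∈ U, 240 * (∑ c ∈ t 0, w 0 c * b 0 c u * bs c + c' 0 * W u) =
      240 * (∑ c ∈ t 0, w 0 c * ((∑ u ∈ U, b 0 c u) * bs c) + c' 0 * ∑ u ∈ U, W u) := by
    rw [← mul_sum, sum_add_distrib, sum_comm, ← mul_sum]
    congr 2
    apply sum_congr rfl
    intro c _
    rw [sum_mul, mul_sum]
    apply sum_congr rfl
    intro u _
    ring
  have h10 : ∑ c ∈ t 0, w 0 c * (∑ u ∈ U, b 0 c u - 240 * bs c) ^ 2 =
      ∑ c ∈ t 0, w 0 c * (∑ u ∈ U, b 0 c u) ^ 2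
        - 480 * ∑ c ∈ t 0, w 0 c * ((∑ u ∈ U, b 0 c u) * bs c)
        + 57600 * ∑ c ∈ t 0, w 0 c * bs c ^ 2 := by
    rw [mul_sum, mul_sum, ← sum_sub_distrib, ← sum_add_distrib]
    apply sum_congr rfl
    intro c _
    ring
  rw [h9] at h2
  rw [h10] at h8
  nlinarith [h1, h2, h3, h7, h8]

end Pool.Agent.Lib.MP_f1379f_gt.FV
end

section
/-!
# MP_f1379f_gt, full Q1: coordinates of a pair, and the kernel in coordinates

`x = 1 - rr u`, `y = 1 - rr v`, `T = TT u v`; then `|u|^2 = 1 - 2x/5`, `<u,v> = T - 2xy/25`,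
`-1 + (x+y)/5 + 2xy/25 ≤ T ≤ 1/2`.
-/
set_option autoImplicit false

namespace Pool.Agent.Lib.MP_f1379f_gt.FV

open Finset

lemma rr_nonneg (u : E) : 0 ≤ rr u := le_max_left _ _

lemma rr_le_one {u : E} (hu : ‖u‖ ≤ 1) : rr u ≤ 1 := by
  unfold rr
  apply max_le (by norm_num)
  nlinarith [norm_nonneg u]

lemma rr_of_pos {u : E} (h : 0 < rr u) : rr u = (5 * ‖u‖ ^ 2 - 3) / 2 := by
  unfold rr at *
  rcases le_total ((5 * ‖u‖ ^ 2 - 3) / 2) 0 with h1 | h1
  · rw [max_eq_left h1] at h; exact absurd h (lt_irrefl _)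
  · exact max_eq_right h1

lemma normsq_of_rr {u : E} (h : 0 < rr u) : ‖u‖ ^ 2 = 1 - 2 / 5 * (1 - rr u) := by
  rw [rr_of_pos h]; ring

lemma rr_eq_zero {u : E} (h : ‖u‖ ^ 2 ≤ 3 / 5) : rr u = 0 := by
  unfold rr
  exact max_eq_left (by linarith)

lemma rr_pos_iff (u : E) : 0 < rr u ↔ 3 / 5 < ‖u‖ ^ 2 := by
  unfold rr
  rw [lt_max_iff]
  constructor
  · rintro (h | h)
    · exact absurd h (lt_irrefl _)
    · linarith
  · intro h; right; linarith

lemma rr_eq_one {u : E} (hu : ‖u‖ = 1) : rr u = 1 := by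
  unfold rr; rw [hu]; norm_num

lemma TT_comm (u v : E) : TT u v = TT v u := by
  unfold TT; rw [real_inner_comm]; ring

lemma TT_le_half {u v : E}
    (h : 2 * (inner ℝ u v : ℝ) ≤ ‖u‖ ^ 2 + ‖v‖ ^ 2 - ‖u‖ ^ 2 * ‖v‖ ^ 2) : TT u v ≤ 1 / 2 := by
  unfold TT; nlinarith

lemma TT_eq_of_unit {u v : E} (hu : ‖u‖ = 1) : TT u v = inner ℝ u v := by
  unfold TT; rw [hu]; ring

lemma inner_of_TT {u v : E} (hu : 0 < rr u) (hv : 0 < rr v) :
    (inner ℝ u v : ℝ) = TT u v - 2 / 25 * (1 - rr u) * (1 - rr v) := by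
  unfold TT
  rw [normsq_of_rr hu, normsq_of_rr hv]; ring

lemma TT_lower {u v : E} (hu : 0 < rr u) (hv : 0 < rr v) :
    -1 + ((1 - rr u) + (1 - rr v)) / 5 + 2 / 25 * (1 - rr u) * (1 - rr v) ≤ TT u v := by
  have h1 : -(‖u‖ * ‖v‖) ≤ (inner ℝ u v : ℝ) := neg_le_of_abs_le (abs_real_inner_le_norm u v)
  have h2 : ‖u‖ * ‖v‖ ≤ (‖u‖ ^ 2 + ‖v‖ ^ 2) / 2 := by nlinarith [sq_nonneg (‖u‖ - ‖v‖)]
  rw [normsq_of_rr hu, normsq_of_rr hv] at h2
  have h3 := inner_of_TT hu hv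
  linarith

/-- The kernel polynomial in coordinates. -/
noncomputable def Kt (n R : ℕ) (A : ℕ → ℕ → ℕ → ℝ) (x y p m : ℝ) : ℝ :=
  ∑ k ∈ range (n + 1), (∑ i ∈ range R, ∑ j ∈ range R, A k i j * x ^ i * y ^ j) * Zg 8 k p m

lemma Kt_symm (n R : ℕ) (A : ℕ → ℕ → ℕ → ℝ) (hA : ∀ k i j, A k i j = A k j i) (x y p m : ℝ) :
    Kt n R A x y p m = Kt n R A y x p m := by
  unfold Kt
  apply sum_congr rfl
  intro k _
  congr 1
  rw [sum_comm]
  apply sum_congr rfl
  intro j _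
  apply sum_congr rfl
  intro i _
  rw [hA k i j]; ring

lemma lower_half (Q : ℝ → ℝ → ℝ → Prop)
    (hQ : ∀ x y T, Q x y T → Q y x T) (S : ℝ → ℝ → ℝ → Prop) (hS : ∀ x y T, S x y T → S y x T)
    (h : ∀ x y T, y ≤ x → S x y T → Q x y T) (x y T : ℝ) (hs : S x y T) : Q x y T := by
  rcases le_total y x with hyx | hxy
  · exact h x y T hyx hs
  · exact hQ _ _ _ (h y x T hxy (hS _ _ _ hs))

lemma quad_ldl (w : ℕ → ℝ) (L : ℕ → ℕ → ℝ) (C R : ℕ) (X Y : ℕ → ℝ) :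
    ∑ i ∈ range R, ∑ j ∈ range R, (∑ c ∈ range C, w c * L c i * L c j) * X i * Y j =
      ∑ c ∈ range C, w c * (∑ i ∈ range R, L c i * X i) * (∑ j ∈ range R, L c j * Y j) := by
  have e1 : ∀ i ∈ range R, ∑ j ∈ range R, (∑ c ∈ range C, w c * L c i * L c j) * X i * Y j =
      ∑ c ∈ range C, w c * (L c i * X i) * (∑ j ∈ range R, L c j * Y j) := by
    intro i _
    simp only [sum_mul, mul_sum]
    rw [sum_comm]
    apply sum_congr rfl
    intro c _
    apply sum_congr rfl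
    intro j _
    ring
  rw [sum_congr rfl e1, sum_comm]
  apply sum_congr rfl
  intro c _
  rw [← sum_mul, ← mul_sum]

/-- The kernel of an `L D L^T` family, in coordinates. -/
lemma KK_eq_Kt (n R C : ℕ) (w : ℕ → ℕ → ℝ) (L : ℕ → ℕ → ℕ → ℝ) (W : E → ℝ) (u v : E) :
    KK n (fun _ => range C) w (fun k c u => rr u ^ 3 * ∑ i ∈ range R, L k c i * (1 - rr u) ^ i)
        (fun _ => 0) W u v =
      rr u ^ 3 * rr v ^ 3 * Kt n R (fun k i j => ∑ c ∈ range C, w k c * L k c i * L k c j)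
        (1 - rr u) (1 - rr v) (inner ℝ u v) (‖u‖ ^ 2 * ‖v‖ ^ 2) := by
  unfold KK Kt
  rw [mul_sum]
  apply sum_congr rfl
  intro k _
  unfold ZZ
  rw [← mul_assoc]
  congr 1
  rw [quad_ldl, mul_sum]
  simp only [zero_mul, add_zero]
  apply sum_congr rfl
  intro c _
  ring

/-- **Assembly of the certificate** from `L D L^T` data: only the pair inequality `hP` and the
one-body inequality `hO` are needed. -/
theorem cert_ldl (U : Finset E) (hU : Adm U) (n R C : ℕ) (w : ℕ → ℕ → ℝ) (L : ℕ → ℕ → ℕ → ℝ)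
    (hw : ∀ k c, 0 ≤ w k c) (A : ℕ → ℕ → ℕ → ℝ)
    (hA : ∀ k i j, A k i j = ∑ c ∈ range C, w k c * L k c i * L k c j)
    (O : E → ℝ) (P : E → E → ℝ)
    (hP : ∀ u v : E, ‖u‖ ≤ 1 → ‖v‖ ≤ 1 →
      2 * (inner ℝ u v : ℝ) ≤ ‖u‖ ^ 2 + ‖v‖ ^ 2 - ‖u‖ ^ 2 * ‖v‖ ^ 2 →
      rr u ^ 3 * rr v ^ 3 * Kt n R A (1 - rr u) (1 - rr v) (inner ℝ u v) (‖u‖ ^ 2 * ‖v‖ ^ 2)
        + P u v ≤ max 0 (v2 u v - 9 * s3))
    (hO : ∀ u : E, ‖u‖ ≤ 1 →
      v1 u + rr u ^ 6 * Kt n R A (1 - rr u) (1 - rr u) (‖u‖ ^ 2) (‖u‖ ^ 2 * ‖u‖ ^ 2) / 2 + O u ≤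
        240 * (rr u ^ 3 * ∑ i ∈ range R, A 0 i 0 * (1 - rr u) ^ i)) :
    -(28800 * A 0 0 0) + ∑ u ∈ U, O u + (1 / 2) * ∑ u ∈ U, ∑ v ∈ U.erase u, P u v
      ≤ -∑ u ∈ U, v1 u + (1 / 2) * ∑ u ∈ U, ∑ v ∈ U.erase u, max 0 (v2 u v - 9 * s3) := by
  have hA' : A = fun k i j => ∑ c ∈ range C, w k c * L k c i * L k c j := by
    funext k i j; exact hA k i j
  have h := cert_asm U n (fun _ => range C) w
    (fun k c u => rr u ^ 3 * ∑ i ∈ range R, L k c i * (1 - rr u) ^ i) (fun _ => 0)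
    (fun _ => 0) (fun c => L 0 c 0) v1 O (fun u v => max 0 (v2 u v - 9 * s3)) P
    (fun k _ c _ => hw k c)
    (by
      intro u hu v hv huv
      rw [KK_eq_Kt, ← hA']
      exact hP u v (hU.le_one u hu) (hU.le_one v hv) (hU.sep u hu v hv huv))
    (by
      intro u hu
      rw [KK_eq_Kt, ← hA']
      have h1 := hO u (hU.le_one u hu)
      have h2 : (inner ℝ u u : ℝ) = ‖u‖ ^ 2 := real_inner_self_eq_norm_sq u
      have h3 : ∑ c ∈ range C, w 0 c * (rr u ^ 3 * ∑ i ∈ range R, L 0 c i * (1 - rr u) ^ i)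
          * L 0 c 0 + 0 * 0 = rr u ^ 3 * ∑ i ∈ range R, A 0 i 0 * (1 - rr u) ^ i := by
        rw [zero_mul, add_zero, mul_sum]
        simp only [hA, mul_sum, sum_mul]
        rw [sum_comm]
        apply sum_congr rfl
        intro i _
        apply sum_congr rfl
        intro c _
        ring
      rw [h2]
      have h4 : rr u ^ 3 * rr u ^ 3 = rr u ^ 6 := by ring
      rw [h4, h3]
      exact h1)
  have h5 : ∑ c ∈ range C, w 0 c * L 0 c 0 ^ 2 = A 0 0 0 := by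
    rw [hA]
    apply sum_congr rfl
    intro c _
    ring
  rw [h5] at h
  simpa using h

end Pool.Agent.Lib.MP_f1379f_gt.FV
end

section
/-!
# MP_f1379f_gt, full Q1: assembly of a certificate, with hypotheses only on the points of `U`

The same as `cert_ldl`, but the pair inequality and the one-body inequality are needed only for the
points of `U`, so that facts already known about `U` (for example `4/5 < rr u ∨ rr u ≤ 7/20`) can be
used.  `W U` is the two-body lower bound of the volume.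
-/
set_option autoImplicit false

namespace Pool.Agent.Lib.MP_f1379f_gt.FV

open Finset MeasureTheory

/-- The two-body functional of a configuration. -/
noncomputable def W2F (U : Finset E) : ℝ :=
  (volume bal).toReal - ∑ u ∈ U, v1 u
    + (1 / 2) * ∑ u ∈ U, ∑ v ∈ U.erase u, max 0 (v2 u v - 9 * s3)

theorem cert_on (U : Finset E) (n R C : ℕ) (w : ℕ → ℕ → ℝ) (L : ℕ → ℕ → ℕ → ℝ)
    (hw : ∀ k c, 0 ≤ w k c) (A : ℕ → ℕ → ℕ → ℝ)
    (hA : ∀ k i j, A k i j = ∑ c ∈ range C, w k c * L k c i * L k c j)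
    (O : E → ℝ) (P : E → E → ℝ)
    (hP : ∀ u ∈ U, ∀ v ∈ U, u ≠ v →
      rr u ^ 3 * rr v ^ 3 * Kt n R A (1 - rr u) (1 - rr v) (inner ℝ u v) (‖u‖ ^ 2 * ‖v‖ ^ 2)
        + P u v ≤ max 0 (v2 u v - 9 * s3))
    (hO : ∀ u ∈ U,
      v1 u + rr u ^ 6 * Kt n R A (1 - rr u) (1 - rr u) (‖u‖ ^ 2) (‖u‖ ^ 2 * ‖u‖ ^ 2) / 2 + O u ≤
        240 * (rr u ^ 3 * ∑ i ∈ range R, A 0 i 0 * (1 - rr u) ^ i)) :
    (volume bal).toReal - 28800 * A 0 0 0 + ∑ u ∈ U, O u
        + (1 / 2) * ∑ u ∈ U, ∑ v ∈ U.erase u, P u v ≤ W2F U := by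
  have hA' : A = fun k i j => ∑ c ∈ range C, w k c * L k c i * L k c j := by
    funext k i j; exact hA k i j
  have h := cert_asm U n (fun _ => range C) w
    (fun k c u => rr u ^ 3 * ∑ i ∈ range R, L k c i * (1 - rr u) ^ i) (fun _ => 0)
    (fun _ => 0) (fun c => L 0 c 0) v1 O (fun u v => max 0 (v2 u v - 9 * s3)) P
    (fun k _ c _ => hw k c)
    (by
      intro u hu v hv huv
      rw [KK_eq_Kt, ← hA']
      exact hP u hu v hv huv)
    (by
      intro u hu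
      rw [KK_eq_Kt, ← hA']
      have h1 := hO u hu
      have h2 : (inner ℝ u u : ℝ) = ‖u‖ ^ 2 := real_inner_self_eq_norm_sq u
      have h3 : ∑ c ∈ range C, w 0 c * (rr u ^ 3 * ∑ i ∈ range R, L 0 c i * (1 - rr u) ^ i)
          * L 0 c 0 + 0 * 0 = rr u ^ 3 * ∑ i ∈ range R, A 0 i 0 * (1 - rr u) ^ i := by
        rw [zero_mul, add_zero, mul_sum]
        simp only [hA, mul_sum, sum_mul]
        rw [sum_comm]
        apply sum_congr rfl
        intro i _
        apply sum_congr rfl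
        intro c _
        ring
      rw [h2]
      have h4 : rr u ^ 3 * rr u ^ 3 = rr u ^ 6 := by ring
      rw [h4, h3]
      exact h1)
  have h5 : ∑ c ∈ range C, w 0 c * L 0 c 0 ^ 2 = A 0 0 0 := by
    rw [hA]
    apply sum_congr rfl
    intro c _
    ring
  rw [h5] at h
  unfold W2F
  simp at h ⊢
  linarith

end Pool.Agent.Lib.MP_f1379f_gt.FV
end

section
/-!
# MP_f1379f_gt, full Q1: from polynomial inequalities to the pair inequality, general kernel
-/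
set_option autoImplicit false
set_option linter.style.longLine false

namespace Pool.Agent.Lib.MP_f1379f_gt.FV

open Finset MeasureTheory

namespace PG

/-- `|u - v|^2` in coordinates. -/
noncomputable def dd (x y T : ℝ) : ℝ := (1 - 2 / 5 * x) + (1 - 2 / 5 * y) - 2 * (T - 2 / 25 * x * y)

/-- Gram determinant in coordinates. -/
noncomputable def DD (x y T : ℝ) : ℝ := (1 - 2 / 5 * x) * (1 - 2 / 5 * y) - (T - 2 / 25 * x * y) ^ 2

/-- Contact reference. -/
noncomputable def L0 (x y T : ℝ) : ℝ :=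
  5833 / 10 ^ 7 * dd x y T + 0.017641502 * (DD x y T - 3 / 4 * dd x y T)
      - 0.00038783038 * (DD x y T - 3 / 4) * dd x y T
      + 0.0000202894 * ((1 - 2 / 5 * x) + (1 - 2 / 5 * y) - 2) * dd x y T

/-- Other references. -/
noncomputable def LL (c ga al be x y T : ℝ) : ℝ :=
  (c + ga * ((1 - 2 / 5 * x) + (1 - 2 / 5 * y))) * dd x y T + al * DD x y T
      - be * DD x y T * dd x y T

/-- The pair inequality for the value `K` in coordinates. -/
def Good (K x y T : ℝ) : Prop :=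
  K ≤ 0 ∨ K * dd x y T ≤ L0 x y T ∨
    K * dd x y T ≤ LL (-0.01050072165) 0.00001595625 0.01504751499 0.00032415616 x y T ∨
    K * dd x y T ≤ LL (-0.00872406463) 0.00001227089 0.01259406246 0.00026704158 x y T ∨
    K * dd x y T ≤ LL (-0.00573820790) 0.00000659170 0.00839854915 0.00016522110 x y T ∨
    K * dd x y T ≤ LL (-0.00281981510) 0.00000232616 0.00419564083 0.00007374312 x y T

lemma dd_symm (x y T : ℝ) : dd x y T = dd y x T := by unfold dd; ring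

lemma DD_symm (x y T : ℝ) : DD x y T = DD y x T := by unfold DD; ring

lemma L0_symm (x y T : ℝ) : L0 x y T = L0 y x T := by
  unfold L0; rw [dd_symm x y, DD_symm x y]; ring

lemma LL_symm (c ga al be x y T : ℝ) : LL c ga al be x y T = LL c ga al be y x T := by
  unfold LL; rw [dd_symm x y, DD_symm x y]; ring

lemma Good_symm {K x y T : ℝ} (h : Good K x y T) : Good K y x T := by
  unfold Good at *
  rwa [dd_symm y x, L0_symm y x, LL_symm _ _ _ _ y x, LL_symm _ _ _ _ y x, LL_symm _ _ _ _ y x,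
    LL_symm _ _ _ _ y x]

/-- Coordinates of a pair with positive radial variables. -/
structure Co (u v : E) (x y T : ℝ) : Prop where
  hx : x = 1 - rr u
  hy : y = 1 - rr v
  hT : T = TT u v
  n1 : ‖u‖ ^ 2 = 1 - 2 / 5 * x
  n2 : ‖v‖ ^ 2 = 1 - 2 / 5 * y
  ip : (inner ℝ u v : ℝ) = T - 2 / 25 * x * y
  x0 : 0 ≤ x
  x1 : x < 1
  y0 : 0 ≤ y
  y1 : y < 1
  lo : -1 + (x + y) / 5 + 2 / 25 * x * y ≤ T
  hi : T ≤ 1 / 2
  ge : -1 ≤ T
  nsub : ‖u - v‖ ^ 2 = dd x y T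
  Dt : Dt u v = DD x y T

lemma co {u v : E} (hu : ‖u‖ ≤ 1) (hv : ‖v‖ ≤ 1)
    (hs : 2 * (inner ℝ u v : ℝ) ≤ ‖u‖ ^ 2 + ‖v‖ ^ 2 - ‖u‖ ^ 2 * ‖v‖ ^ 2)
    (hru : 0 < rr u) (hrv : 0 < rr v) : Co u v (1 - rr u) (1 - rr v) (TT u v) := by
  have hru1 := rr_le_one hu
  have hrv1 := rr_le_one hv
  have hn1 := normsq_of_rr hru
  have hn2 := normsq_of_rr hrv
  have hin := inner_of_TT hru hrv
  have hlo := TT_lower hru hrv
  have h0 : 0 ≤ (1 - rr u) * (1 - rr v) := mul_nonneg (by linarith) (by linarith)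
  refine ⟨rfl, rfl, rfl, hn1, hn2, hin, by linarith, by linarith, by linarith, by linarith, hlo,
    TT_le_half hs, by linarith, ?_, ?_⟩
  · rw [norm_sub_sq_real, hn1, hn2, hin]
    unfold dd
    ring
  · unfold FV.Dt DD
    rw [hn1, hn2, hin]

/-- From `Good` to the pair inequality. -/
theorem pair_of_good {u v : E} (hu : ‖u‖ ≤ 1) (hv : ‖v‖ ≤ 1)
    (hs : 2 * (inner ℝ u v : ℝ) ≤ ‖u‖ ^ 2 + ‖v‖ ^ 2 - ‖u‖ ^ 2 * ‖v‖ ^ 2)
    (hru : 0 < rr u) (hrv : 0 < rr v) (hne : u ≠ v) {K : ℝ}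
    (h : Good K (1 - rr u) (1 - rr v) (TT u v)) : K ≤ max 0 (v2 u v - 9 * s3) := by
  have c := co hu hv hs hru hrv
  have hG0 := PW.Ghat_bd.1
  have hddp : 0 < dd (1 - rr u) (1 - rr v) (TT u v) := by
    rw [← c.nsub]
    have : 0 < ‖u - v‖ := norm_pos_iff.2 (sub_ne_zero.2 hne)
    positivity
  have hg : 0 ≤ (GG - 5833 / 10 ^ 7) * dd (1 - rr u) (1 - rr v) (TT u v) :=
    mul_nonneg hG0 hddp.le
  have key : ∀ L : ℝ, K * dd (1 - rr u) (1 - rr v) (TT u v) ≤ L →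
      L + (GG - 5833 / 10 ^ 7) * dd (1 - rr u) (1 - rr v) (TT u v) ≤
        (v2 u v - 9 * s3) * dd (1 - rr u) (1 - rr v) (TT u v) → K ≤ max 0 (v2 u v - 9 * s3) := by
    intro L h1 h2
    apply le_max_of_le_right
    apply le_of_mul_le_mul_right _ hddp
    linarith
  have c0 := c.x0
  have c1 := c.x1
  have c2 := c.y0
  have c3 := c.y1
  rcases h with h | h | h | h | h | h
  · exact le_max_of_le_left h
  · have hk := PW.kind0 u v hu hv hne (by rw [c.n1]; linarith) (by rw [c.n2]; linarith) hs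
    rw [c.nsub, c.Dt, c.n1, c.n2] at hk
    exact key _ h (by unfold L0; linarith)
  · have hk := PW.kind_r1 u v hu hv hne
    rw [c.nsub, c.Dt, c.n1, c.n2] at hk
    exact key _ h (by unfold LL; linarith)
  · have hk := PW.kind_r2 u v hu hv hne
    rw [c.nsub, c.Dt, c.n1, c.n2] at hk
    exact key _ h (by unfold LL; linarith)
  · have hk := PW.kind_r3 u v hu hv hne
    rw [c.nsub, c.Dt, c.n1, c.n2] at hk
    exact key _ h (by unfold LL; linarith)
  · have hk := PW.kind_r4 u v hu hv hne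
    rw [c.nsub, c.Dt, c.n1, c.n2] at hk
    exact key _ h (by unfold LL; linarith)

end PG

end Pool.Agent.Lib.MP_f1379f_gt.FV
end

section
/-!
# MP_f1379f_gt, full Q1: general assembly of a certificate from region theorems in coordinates

`asm`: `K = ∑ (L D L^T)_k Z_k`, pair inequality in the form `PG.Good`, one-body inequality with the
majorant `PW.VV` of the cap volume; conclusion `vol bal - 28800 A_000 + ∑ O + (1/2) ∑ P ≤ W2F U`.
All hypotheses only for the points of `U`.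
-/
set_option autoImplicit false
set_option linter.style.longLine false

namespace Pool.Agent.Lib.MP_f1379f_gt.FV

open Finset MeasureTheory

theorem asm (U : Finset E) (hU : Adm U) (n R C : ℕ) (w : ℕ → ℕ → ℝ) (L : ℕ → ℕ → ℕ → ℝ)
    (hw : ∀ k c, 0 ≤ w k c) (A : ℕ → ℕ → ℕ → ℝ)
    (hA : ∀ k i j, A k i j = ∑ c ∈ range C, w k c * L k c i * L k c j)
    (O : E → ℝ) (P : E → E → ℝ)
    (hP : ∀ u ∈ U, ∀ v ∈ U, u ≠ v → ∀ x y T : ℝ, PG.Co u v x y T →
      PG.Good ((1 - x) ^ 3 * (1 - y) ^ 3 *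
        Kt n R A x y (T - 2 / 25 * x * y) ((1 - 2 / 5 * x) * (1 - 2 / 5 * y)) + P u v) x y T)
    (hP0 : ∀ u ∈ U, ∀ v ∈ U, u ≠ v → rr u = 0 ∨ rr v = 0 → P u v ≤ 0)
    (hO : ∀ u ∈ U, ∀ x : ℝ, x = 1 - rr u → 0 ≤ x → x < 1 →
      (1 - x) ^ 3 * PW.VV x + 1 / 2 * ((1 - x) ^ 6 *
        Kt n R A x x (1 - 2 / 5 * x) ((1 - 2 / 5 * x) * (1 - 2 / 5 * x))) + O u ≤
        240 * ((1 - x) ^ 3 * ∑ i ∈ range R, A 0 i 0 * x ^ i))
    (hO0 : ∀ u ∈ U, rr u = 0 → O u ≤ 0) :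
    (volume bal).toReal - 28800 * A 0 0 0 + ∑ u ∈ U, O u
        + (1 / 2) * ∑ u ∈ U, ∑ v ∈ U.erase u, P u v ≤ W2F U := by
  have h := cert_on U n R C w L hw A hA (fun u => (801889 / 10 ^ 7 - c1) * rr u ^ 3 + O u) P
    (by
      intro u hu v hv huv
      rcases (rr_nonneg u).eq_or_lt with hru | hru
      · have := hP0 u hu v hv huv (Or.inl hru.symm)
        rw [← hru]
        simp only [ne_eq, OfNat.ofNat_ne_zero, not_false_eq_true, zero_pow, zero_mul, zero_add]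
        exact this.trans (le_max_left _ _)
      rcases (rr_nonneg v).eq_or_lt with hrv | hrv
      · have := hP0 u hu v hv huv (Or.inr hrv.symm)
        rw [← hrv]
        simp only [ne_eq, OfNat.ofNat_ne_zero, not_false_eq_true, zero_pow, mul_zero, zero_mul,
          zero_add]
        exact this.trans (le_max_left _ _)
      have hs := hU.sep u hu v hv huv
      have hu1 := hU.le_one u hu
      have hv1 := hU.le_one v hv
      have c := PG.co hu1 hv1 hs hru hrv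
      have h1 := hP u hu v hv huv _ _ _ c
      have h2 := PG.pair_of_good hu1 hv1 hs hru hrv huv h1
      refine le_trans (le_of_eq ?_) h2
      rw [c.ip, c.n1, c.n2]
      ring)
    (by
      intro u hu
      have h0 := PW.vO_all u (hU.le_one u hu)
      rcases (rr_nonneg u).eq_or_lt with hru | hru
      · have h1 := hO0 u hu hru.symm
        rw [← hru] at h0 ⊢
        simp at h0 ⊢
        linarith
      have hru1 := rr_le_one (hU.le_one u hu)
      obtain ⟨x, hx⟩ : ∃ x, x = 1 - rr u := ⟨_, rfl⟩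
      have hux : rr u = 1 - x := by rw [hx]; ring
      have hn1 : ‖u‖ ^ 2 = 1 - 2 / 5 * x := by rw [hx]; exact normsq_of_rr hru
      have h1 := hO u hu x hx (by linarith) (by linarith)
      rw [← hx] at h0 ⊢
      rw [hn1]
      rw [hux] at h0 ⊢
      linarith)
  have hc := PW.chat_bd.1
  have h3 : ∑ u ∈ U, O u ≤ ∑ u ∈ U, ((801889 / 10 ^ 7 - c1) * rr u ^ 3 + O u) := by
    apply sum_le_sum
    intro u _
    have : 0 ≤ (801889 / 10 ^ 7 - c1) * rr u ^ 3 := mul_nonneg hc (pow_nonneg (rr_nonneg u) 3)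
    linarith
  linarith

end Pool.Agent.Lib.MP_f1379f_gt.FV
end

section
/-!
# MP_f1379f_gt, full Q1: certificates with two more references (r5, r6)
-/
set_option autoImplicit false
set_option linter.style.longLine false

namespace Pool.Agent.Lib.MP_f1379f_gt.FV

open Finset MeasureTheory

namespace PG

/-- The pair inequality with the references r0, ..., r6. -/
def Good7 (K x y T : ℝ) : Prop :=
  Good K x y T ∨
    K * dd x y T ≤ LL (-0.01145877107) 0.00001797145 0.01635777468 0.00035264435 x y T ∨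
    K * dd x y T ≤ LL (-0.00957970306) 0.00001400927 0.01377896810 0.00029450818 x y T

lemma Good7_symm {K x y T : ℝ} (h : Good7 K x y T) : Good7 K y x T := by
  unfold Good7 at *
  rw [dd_symm y x, LL_symm _ _ _ _ y x, LL_symm _ _ _ _ y x]
  rcases h with h | h
  · exact Or.inl (Good_symm h)
  · exact Or.inr h

/-- From `Good7` to the pair inequality. -/
theorem pair_of_good7 {u v : E} (hu : ‖u‖ ≤ 1) (hv : ‖v‖ ≤ 1)
    (hs : 2 * (inner ℝ u v : ℝ) ≤ ‖u‖ ^ 2 + ‖v‖ ^ 2 - ‖u‖ ^ 2 * ‖v‖ ^ 2)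
    (hru : 0 < rr u) (hrv : 0 < rr v) (hne : u ≠ v) {K : ℝ}
    (h : Good7 K (1 - rr u) (1 - rr v) (TT u v)) : K ≤ max 0 (v2 u v - 9 * s3) := by
  rcases h with h | h
  · exact pair_of_good hu hv hs hru hrv hne h
  have c := co hu hv hs hru hrv
  have hddp : 0 < dd (1 - rr u) (1 - rr v) (TT u v) := by
    rw [← c.nsub]
    have : 0 < ‖u - v‖ := norm_pos_iff.2 (sub_ne_zero.2 hne)
    positivity
  have hG0 := PW.Ghat_bd.1
  have hg : 0 ≤ (GG - 5833 / 10 ^ 7) * dd (1 - rr u) (1 - rr v) (TT u v) :=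
    mul_nonneg hG0 hddp.le
  have key : ∀ L : ℝ, K * dd (1 - rr u) (1 - rr v) (TT u v) ≤ L →
      L + (GG - 5833 / 10 ^ 7) * dd (1 - rr u) (1 - rr v) (TT u v) ≤
        (v2 u v - 9 * s3) * dd (1 - rr u) (1 - rr v) (TT u v) → K ≤ max 0 (v2 u v - 9 * s3) := by
    intro L h1 h2
    apply le_max_of_le_right
    apply le_of_mul_le_mul_right _ hddp
    linarith
  rcases h with h | h
  · have hk := PW.kind_r5 u v hu hv hne
    rw [c.nsub, c.Dt, c.n1, c.n2] at hk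
    exact key _ h (by unfold LL; linarith)
  · have hk := PW.kind_r6 u v hu hv hne
    rw [c.nsub, c.Dt, c.n1, c.n2] at hk
    exact key _ h (by unfold LL; linarith)

end PG

/-- The same as `asm`, with the references r0, ..., r6. -/
theorem asm7 (U : Finset E) (hU : Adm U) (n R C : ℕ) (w : ℕ → ℕ → ℝ) (L : ℕ → ℕ → ℕ → ℝ)
    (hw : ∀ k c, 0 ≤ w k c) (A : ℕ → ℕ → ℕ → ℝ)
    (hA : ∀ k i j, A k i j = ∑ c ∈ range C, w k c * L k c i * L k c j)
    (O : E → ℝ) (P : E → E → ℝ)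
    (hP : ∀ u ∈ U, ∀ v ∈ U, u ≠ v → ∀ x y T : ℝ, PG.Co u v x y T →
      PG.Good7 ((1 - x) ^ 3 * (1 - y) ^ 3 *
        Kt n R A x y (T - 2 / 25 * x * y) ((1 - 2 / 5 * x) * (1 - 2 / 5 * y)) + P u v) x y T)
    (hP0 : ∀ u ∈ U, ∀ v ∈ U, u ≠ v → rr u = 0 ∨ rr v = 0 → P u v ≤ 0)
    (hO : ∀ u ∈ U, ∀ x : ℝ, x = 1 - rr u → 0 ≤ x → x < 1 →
      (1 - x) ^ 3 * PW.VV x + 1 / 2 * ((1 - x) ^ 6 *
        Kt n R A x x (1 - 2 / 5 * x) ((1 - 2 / 5 * x) * (1 - 2 / 5 * x))) + O u ≤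
        240 * ((1 - x) ^ 3 * ∑ i ∈ range R, A 0 i 0 * x ^ i))
    (hO0 : ∀ u ∈ U, rr u = 0 → O u ≤ 0) :
    (volume bal).toReal - 28800 * A 0 0 0 + ∑ u ∈ U, O u
        + (1 / 2) * ∑ u ∈ U, ∑ v ∈ U.erase u, P u v ≤ W2F U := by
  have h := cert_on U n R C w L hw A hA (fun u => (801889 / 10 ^ 7 - c1) * rr u ^ 3 + O u) P
    (by
      intro u hu v hv huv
      rcases (rr_nonneg u).eq_or_lt with hru | hru
      · have := hP0 u hu v hv huv (Or.inl hru.symm)
        rw [← hru]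
        simp only [ne_eq, OfNat.ofNat_ne_zero, not_false_eq_true, zero_pow, zero_mul, zero_add]
        exact this.trans (le_max_left _ _)
      rcases (rr_nonneg v).eq_or_lt with hrv | hrv
      · have := hP0 u hu v hv huv (Or.inr hrv.symm)
        rw [← hrv]
        simp only [ne_eq, OfNat.ofNat_ne_zero, not_false_eq_true, zero_pow, mul_zero, zero_mul,
          zero_add]
        exact this.trans (le_max_left _ _)
      have hs := hU.sep u hu v hv huv
      have hu1 := hU.le_one u hu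
      have hv1 := hU.le_one v hv
      have c := PG.co hu1 hv1 hs hru hrv
      have h1 := hP u hu v hv huv _ _ _ c
      have h2 := PG.pair_of_good7 hu1 hv1 hs hru hrv huv h1
      refine le_trans (le_of_eq ?_) h2
      rw [c.ip, c.n1, c.n2]
      ring)
    (by
      intro u hu
      have h0 := PW.vO_all u (hU.le_one u hu)
      rcases (rr_nonneg u).eq_or_lt with hru | hru
      · have h1 := hO0 u hu hru.symm
        rw [← hru] at h0 ⊢
        simp at h0 ⊢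
        linarith
      have hru1 := rr_le_one (hU.le_one u hu)
      obtain ⟨x, hx⟩ : ∃ x, x = 1 - rr u := ⟨_, rfl⟩
      have hux : rr u = 1 - x := by rw [hx]; ring
      have hn1 : ‖u‖ ^ 2 = 1 - 2 / 5 * x := by rw [hx]; exact normsq_of_rr hru
      have h1 := hO u hu x hx (by linarith) (by linarith)
      rw [← hx] at h0 ⊢
      rw [hn1]
      rw [hux] at h0 ⊢
      linarith)
  have hc := PW.chat_bd.1
  have h3 : ∑ u ∈ U, O u ≤ ∑ u ∈ U, ((801889 / 10 ^ 7 - c1) * rr u ^ 3 + O u) := by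
    apply sum_le_sum
    intro u _
    have : 0 ≤ (801889 / 10 ^ 7 - c1) * rr u ^ 3 := mul_nonneg hc (pow_nonneg (rr_nonneg u) 3)
    linarith
  linarith

end Pool.Agent.Lib.MP_f1379f_gt.FV
end

section
/-!
# MP_f1379f_gt, full Q1, block F: CEX, the exact slack of the certificate near E8
-/
set_option autoImplicit false

namespace Pool.Agent.Lib.MP_f1379f_gt.FV

open MeasureTheory

namespace CEXM

/-- `(1-a)(1-b) ≥ 1-a-b`. -/
theorem bern {a b A B : ℝ} (ha : 0 ≤ a) (hb : 0 ≤ b) (hb1 : b ≤ 1) (hA : 1 - a ≤ A)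
    (hB : 1 - b ≤ B) (hA0 : 0 ≤ A) : 1 - a - b ≤ A * B := by
  have h1 : A * (1 - b) ≤ A * B := mul_le_mul_of_nonneg_left hB hA0
  have h2 : (1 - a) * (1 - b) ≤ A * (1 - b) := mul_le_mul_of_nonneg_right hA (by linarith)
  have h3 := mul_nonneg ha hb
  nlinarith

theorem cube {r : ℝ} (h0 : 0 ≤ r) (h1 : r ≤ 1 / 100) : 1 - 15 * r ≤ (1 - 5 * r) ^ 3 := by
  have h2 := bern (a := 5 * r) (b := 5 * r) (A := 1 - 5 * r) (B := 1 - 5 * r) (by linarith)
    (by linarith) (by linarith) le_rfl le_rfl (by linarith)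
  have h3 := bern (a := 5 * r) (b := 10 * r) (A := 1 - 5 * r) (B := (1 - 5 * r) * (1 - 5 * r))
    (by linarith) (by linarith) (by linarith) le_rfl (by linarith) (by linarith)
  calc 1 - 15 * r = 1 - 5 * r - 10 * r := by ring
    _ ≤ (1 - 5 * r) * ((1 - 5 * r) * (1 - 5 * r)) := h3
    _ = (1 - 5 * r) ^ 3 := by ring

/-- One point. -/
theorem one {A r : ℝ} (hA : 0 ≤ A) (hA1 : A ≤ 2 / 10 ^ 8) (h0 : 0 ≤ r) (h1 : r ≤ 1 / 100) :
    A + 514 / 10000 * r ≤ A * (1 - 5 * r) ^ 3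
      + 12 / 1000 * ((1 - 5 * r) ^ 3 * (1 - (1 - 5 * r))) := by
  have h2 := cube h0 h1
  have h3 : (19 / 20 : ℝ) ^ 3 ≤ (1 - 5 * r) ^ 3 :=
    pow_le_pow_left₀ (by norm_num) (by linarith) 3
  have h4 : A * (1 - 15 * r) ≤ A * (1 - 5 * r) ^ 3 := mul_le_mul_of_nonneg_left h2 hA
  have h5 : (19 / 20 : ℝ) ^ 3 * r ≤ (1 - 5 * r) ^ 3 * r := mul_le_mul_of_nonneg_right h3 h0
  have h6 : A * r ≤ 2 / 10 ^ 8 * r := mul_le_mul_of_nonneg_right hA1 h0
  norm_num at h5 h6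
  nlinarith

theorem ee_low {p : ℝ} (h0 : 0 ≤ p) (h1 : p ≤ 1 / 20) : 1 - 20 / 3 * p ≤ EE (1 / 2 - p) := by
  have e1 : EE (1 / 2 - p) = (1 - 2 / 3 * p) * ((1 - p) * (1 - p) * ((1 - 2 * p) * (1 - 2 * p))) := by
    unfold EE base
    ring
  have h2 := bern (a := p) (b := p) (A := 1 - p) (B := 1 - p) (by linarith)
    (by linarith) (by linarith) le_rfl le_rfl (by linarith)
  have h3 := bern (a := 2 * p) (b := 2 * p) (A := 1 - 2 * p) (B := 1 - 2 * p) (by linarith)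
    (by linarith) (by linarith) le_rfl le_rfl (by linarith)
  have h4 := bern (a := 2 * p) (b := 4 * p) (A := (1 - p) * (1 - p))
    (B := (1 - 2 * p) * (1 - 2 * p)) (by linarith)
    (by linarith) (by linarith) (by linarith) (by linarith) (mul_self_nonneg _)
  have h5 := bern (a := 2 / 3 * p) (b := 6 * p) (A := 1 - 2 / 3 * p)
    (B := (1 - p) * (1 - p) * ((1 - 2 * p) * (1 - 2 * p))) (by linarith)
    (by linarith) (by linarith) le_rfl (by linarith) (by linarith)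
  rw [e1]
  linarith

theorem psi_low {p : ℝ} (_h0 : 0 ≤ p) (h1 : p ≤ 1 / 20) : 7 / 2000 * p ≤ psi (1 / 2 - p) := by
  unfold psi
  rw [if_neg (by linarith)]
  refine le_trans (le_of_eq ?_) (le_max_left _ _)
  ring

/-- One contact pair. -/
theorem two {B r s p : ℝ} (hB : 0 ≤ B) (hr : 0 ≤ r) (hs : 0 ≤ s)
    (hrs : r + s ≤ 1 / 100) (h0 : 0 ≤ p) (h1 : p ≤ 1 / 20) :
    B + 285 / 100000 * p - B * (15 * (r + s) + 20 / 3 * p) ≤
      B * ((1 - 5 * r) ^ 3 * (1 - 5 * s) ^ 3 * EE (1 / 2 - p))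
        + (1 - 5 * r) ^ 4 * (1 - 5 * s) ^ 4 * psi (1 / 2 - p) := by
  have c1 := cube hr (by linarith)
  have c2 := cube hs (by linarith)
  have c1p : 0 ≤ (1 - 5 * r) ^ 3 := pow_nonneg (by linarith) 3
  have c2p : 0 ≤ (1 - 5 * s) ^ 3 := pow_nonneg (by linarith) 3
  have h2 := bern (a := 15 * r) (b := 15 * s) (by linarith) (by linarith) (by linarith) c1 c2 c1p
  have h3 := bern (a := 15 * (r + s)) (b := 20 / 3 * p) (A := (1 - 5 * r) ^ 3 * (1 - 5 * s) ^ 3)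
    (B := EE (1 / 2 - p)) (by linarith)
    (by linarith) (by linarith) (by linarith) (ee_low h0 h1) (mul_nonneg c1p c2p)
  have h4 : B * (1 - 15 * (r + s) - 20 / 3 * p) ≤
      B * ((1 - 5 * r) ^ 3 * (1 - 5 * s) ^ 3 * EE (1 / 2 - p)) := mul_le_mul_of_nonneg_left h3 hB
  have h5 : (19 / 20 : ℝ) ≤ (1 - 5 * r) * (1 - 5 * s) := by
    have := mul_nonneg hr hs
    nlinarith
  have h6 : (19 / 20 : ℝ) ^ 4 ≤ (1 - 5 * r) ^ 4 * (1 - 5 * s) ^ 4 := by
    rw [← mul_pow]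
    exact pow_le_pow_left₀ (by norm_num) h5 4
  have h7 := psi_low h0 h1
  have h8 : (19 / 20 : ℝ) ^ 4 * (7 / 2000 * p) ≤
      (1 - 5 * r) ^ 4 * (1 - 5 * s) ^ 4 * psi (1 / 2 - p) :=
    mul_le_mul h6 h7 (by positivity) (le_trans (by norm_num) h6)
  have h9 : 285 / 100000 * p ≤ (19 / 20 : ℝ) ^ 4 * (7 / 2000 * p) := by
    norm_num
    nlinarith
  linarith

end CEXM

open CEXM in
/-- **CEX.** -/
theorem specCEX (hUEF : SpecUEF) (hG : SpecGBA) : SpecCEX := by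
  classical
  intro u hu hx hW
  have hr0 := hG.r0 u hu
  have hx0 : 0 ≤ gx u := Finset.sum_nonneg hr0
  obtain ⟨hA, hA1⟩ := PW.chat_bd
  obtain ⟨hB, hB1⟩ := PW.Ghat_bd
  set A := 801889 / 10 ^ 7 - c1 with hAd
  set B := GG - 5833 / 10 ^ 7 with hBd
  have hrx : ∀ e ∈ UE, gr u e ≤ gx u := fun e he =>
    Finset.single_le_sum (f := fun e => gr u e) (fun i hi => hr0 i hi) he
  have hrr : ∀ e ∈ UE, rr (u e) = 1 - 5 * gr u e := by
    intro e he
    have h1 := hrx e he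
    have h2 : 0 < (5 * ‖u e‖ ^ 2 - 3) / 2 := by
      unfold gr at h1
      linarith
    unfold rr
    rw [max_eq_right h2.le]
    unfold gr
    ring
  have hnb : ∀ e ∈ UE, ∀ f ∈ nb e, f ∈ UE ∧ e ≠ f := by
    intro e _ f hf
    have hf' := Finset.mem_filter.mp hf
    refine ⟨hf'.1, ?_⟩
    intro h
    have h1 := hf'.2
    rw [h, real_inner_self_eq_norm_sq, hUEF.nrm f hf'.1] at h1
    norm_num at h1
  have hr2 : ∀ e ∈ UE, ∀ f ∈ UE, e ≠ f → gr u e + gr u f ≤ gx u := by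
    intro e he f hf hne
    have h1 : ∑ v ∈ ({e, f} : Finset E), gr u v ≤ gx u := by
      refine Finset.sum_le_sum_of_subset_of_nonneg ?_ fun i hi _ => hr0 i hi
      intro v hv
      rcases Finset.mem_insert.1 hv with h | h
      · rw [h]; exact he
      · rw [Finset.mem_singleton.1 h]; exact hf
    rwa [Finset.sum_pair hne] at h1
  -- one-body part
  have s1 : 240 * A + 514 / 10000 * gx u ≤
      ∑ e ∈ UE, (A * rr (u e) ^ 3 + 12 / 1000 * (rr (u e) ^ 3 * (1 - rr (u e)))) := by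
    have h1 : ∑ e ∈ UE, (A + 514 / 10000 * gr u e) ≤
        ∑ e ∈ UE, (A * rr (u e) ^ 3 + 12 / 1000 * (rr (u e) ^ 3 * (1 - rr (u e)))) := by
      refine Finset.sum_le_sum fun e he => ?_
      rw [hrr e he]
      exact one hA hA1 (hr0 e he) ((hrx e he).trans hx)
    rw [Finset.sum_add_distrib, Finset.sum_const, hUEF.c240, ← Finset.mul_sum] at h1
    have h2 : ∑ e ∈ UE, gr u e = gx u := rfl
    rw [h2] at h1
    norm_num at h1 ⊢
    linarith
  -- two-body part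
  set P : E → E → ℝ := fun e f => gw u e f - 2 * (gr u e * gr u f) with hP
  have hTT : ∀ e f : E, TT (u e) (u f) = 1 / 2 - P e f := by
    intro e f
    simp only [hP]
    unfold TT gw gr
    ring
  have s2 : ∑ e ∈ UE, ∑ f ∈ nb e,
      (B + 285 / 100000 * P e f - B * (15 * (gr u e + gr u f) + 20 / 3 * P e f)) ≤
      ∑ e ∈ UE, ∑ f ∈ nb e, (B * (rr (u e) ^ 3 * rr (u f) ^ 3 * EE (TT (u e) (u f)))
            + rr (u e) ^ 4 * rr (u f) ^ 4 * psi (TT (u e) (u f))) := by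
    refine Finset.sum_le_sum fun e he => Finset.sum_le_sum fun f hf => ?_
    obtain ⟨hfU, hne⟩ := hnb e he f hf
    rw [hrr e he, hrr f hfU, hTT]
    have h1 := hG.w2 u hu e he f hfU hne
    have h2 := hW e he f hf
    have h3 := mul_nonneg (hr0 e he) (hr0 f hfU)
    refine two hB (hr0 e he) (hr0 f hfU) ((hr2 e he f hfU hne).trans hx) ?_ ?_
    · simp only [hP]
      linarith
    · simp only [hP]
      linarith
  -- the sums
  have hsw : ∑ e ∈ UE, ∑ f ∈ nb e, gr u f = 56 * gx u := by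
    have h1 : ∑ e ∈ UE, ∑ f ∈ nb e, gr u f = ∑ f ∈ UE, ∑ e ∈ nb f, gr u f := by
      refine Finset.sum_comm' fun e f => ?_
      simp only [nb, Finset.mem_filter]
      constructor
      · rintro ⟨h1, h2, h3⟩
        exact ⟨⟨h1, by rw [real_inner_comm]; exact h3⟩, h2⟩
      · rintro ⟨⟨h1, h3⟩, h2⟩
        exact ⟨h1, h2, by rw [real_inner_comm]; exact h3⟩
    rw [h1]
    unfold gx
    rw [Finset.mul_sum]
    refine Finset.sum_congr rfl fun f hf => ?_
    rw [Finset.sum_const, hUEF.c56 f hf]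
    norm_num
  have hsw2 : ∑ e ∈ UE, ∑ f ∈ nb e, gr u e = 56 * gx u := by
    unfold gx
    rw [Finset.mul_sum]
    refine Finset.sum_congr rfl fun e he => ?_
    rw [Finset.sum_const, hUEF.c56 e he]
    norm_num
  have hone : ∑ e ∈ UE, ∑ _f ∈ nb e, B = 13440 * B := by
    have h1 : ∀ e ∈ UE, ∑ _f ∈ nb e, B = 56 * B := by
      intro e he
      rw [Finset.sum_const, hUEF.c56 e he]
      norm_num
    rw [Finset.sum_congr rfl h1, Finset.sum_const, hUEF.c240]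
    norm_num
    ring
  set PP := ∑ e ∈ UE, ∑ f ∈ nb e, P e f with hPP
  have hLP : PP ≤ gL u := by
    rw [hPP]
    unfold gL
    refine Finset.sum_le_sum fun e he => Finset.sum_le_sum fun f hf => ?_
    have h3 := mul_nonneg (hr0 e he) (hr0 f (hnb e he f hf).1)
    simp only [hP]
    linarith
  have hPL : gL u - 2 * gx u ^ 2 ≤ PP := by
    have k2 : ∑ e ∈ UE, ∑ f ∈ nb e, (gr u e * gr u f) ≤ gx u ^ 2 := by
      have e1 : gx u ^ 2 = ∑ e ∈ UE, ∑ f ∈ UE, (gr u e * gr u f) := by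
        rw [sq]
        unfold gx
        rw [Finset.sum_mul_sum]
      rw [e1]
      refine Finset.sum_le_sum fun e he => ?_
      refine Finset.sum_le_sum_of_subset_of_nonneg (Finset.filter_subset _ _) ?_
      intro f hf _
      exact mul_nonneg (hr0 e he) (hr0 f hf)
    have e1 : PP = gL u - 2 * ∑ e ∈ UE, ∑ f ∈ nb e, (gr u e * gr u f) := by
      rw [hPP]
      unfold gL
      simp only [hP, Finset.sum_sub_distrib, Finset.mul_sum]
    rw [e1]
    linarith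
  have hP0 : 0 ≤ PP := by
    rw [hPP]
    refine Finset.sum_nonneg fun e he => Finset.sum_nonneg fun f hf => ?_
    obtain ⟨hfU, hne⟩ := hnb e he f hf
    have h1 := hG.w2 u hu e he f hfU hne
    simp only [hP]
    linarith
  have s3 : ∑ e ∈ UE, ∑ f ∈ nb e,
      (B + 285 / 100000 * P e f - B * (15 * (gr u e + gr u f) + 20 / 3 * P e f)) =
      13440 * B + 285 / 100000 * PP - B * (1680 * gx u + 20 / 3 * PP) := by
    have h1 : ∀ e ∈ UE, ∀ f ∈ nb e,
        (B + 285 / 100000 * P e f - B * (15 * (gr u e + gr u f) + 20 / 3 * P e f)) =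
        B + (285 / 100000 - B * (20 / 3)) * P e f - 15 * B * gr u e - 15 * B * gr u f := by
      intro e _ f _
      ring
    rw [Finset.sum_congr rfl fun e he => Finset.sum_congr rfl fun f hf => h1 e he f hf]
    simp only [Finset.sum_sub_distrib, Finset.sum_add_distrib, ← Finset.mul_sum]
    rw [hone, hsw, hsw2, ← hPP]
    ring
  rw [s3] at s2
  have hL0 : 0 ≤ gL u := hP0.trans hLP
  have t1 : B * gx u ≤ 2 / 10 ^ 8 * gx u := mul_le_mul_of_nonneg_right hB1 hx0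
  have t2 : B * PP ≤ 2 / 10 ^ 8 * PP := mul_le_mul_of_nonneg_right hB1 hP0
  have t3 : gx u ^ 2 ≤ 1 / 100 * gx u := by
    rw [sq]
    exact mul_le_mul_of_nonneg_right hx hx0
  norm_num at t1 t2
  nlinarith [s1, s2, t1, t2, t3, hPL, hLP, hL0, hx0]

end Pool.Agent.Lib.MP_f1379f_gt.FV
end
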