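import Pool.Agent.Lib.MP_f1379f_gt.FV.CPL

/-!
# one-body inequality f
-/

set_option autoImplicit false
set_option linter.unusedVariables false
set_option linter.unusedSimpArgs false
set_option linter.unusedTactic false
set_option linter.style.longLine false
set_option maxRecDepth 100000

namespace Pool.Agent.Lib.MP_f1379f_gt.FV.CP.Vfr

open Finset Pool.Agent.Lib.MP_f1379f_gt.FV Pool.Agent.Lib.MP_f1379f_gt.FV.BCH Pool.Agent.Lib.MP_f1379f_gt.FV.CP Pool.Agent.Lib.MP_f1379f_gt.FV.CP.V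

/-- node -/
def nd225 : Ex := .f 1 nd2 (-1) nd0
/-- node -/
def nd226 : Ex := .m nd225 nd225
/-- node -/
def nd227 : Ex := .m nd226 nd225
/-- node -/
def nd230 : Ex := .m nd2 nd2
/-- node -/
def nd231 : Ex := .m nd2 nd230
/-- node -/
def nd232 : Ex := .m nd231 nd231
/-- node -/
def nd237 : Ex := .m nd230 nd231
/-- node -/
def nd238 : Ex := .m nd237 nd232
/-- node -/
def nd244 : Ex := .m el nd232
/-- node -/
def nd245 : Ex := .f 158713 nd244 (-500) eV
/-- node -/
def nd246 : Ex := .m nd227 eS11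
/-- node -/
def nd247 : Ex := .m nd245 nd238
/-- node -/
def gf : Ex := .f 1135134000000000000000000000 nd247 (-1) nd246

/-- real function of gf -/
noncomputable def f_gf (x y t : ℝ) : ℝ := ((240 * f_el x y t) - f_eV x y t) - ((1 / 2) * (((1 - x) ^ 3) * f_eS11 x y t))

theorem v_gf (x y t : ℝ) : val gf x y t = 5675670000000000000000000000000000000 * (f_gf x y t) := by
  simp only [nd0, nd2, nd225, nd226, nd227, nd230, nd231, nd232, nd237, nd238, nd244, nd245, nd246, nd247, gf, v_eS11, v_eV, v_el, val_f, val_h, val_m, val_vx]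
  unfold f_gf
  push_cast
  ring

/-- parameters -/
def P0 : Par := ⟨405, 20, 0, 0, 3840, 1, 1, 7680, 2, 2⟩

theorem hP0 : chkPar P0 gf = true := by decide +kernel

/-- subdivision -/
def T0 : Tr := .lf

theorem hT0 : chkTr P0 gf T0 ⟨2496, 3840, 0, 1, 0, 1⟩ = true := by decide +kernel

theorem region (x : ℝ) (hx0 : (13 / 20) ≤ x) (hx1 : x ≤ 1) :
    PW.VV x + 1 / 2 * ((1 - x) ^ 3 * 
      Kt 11 4 cA x x (1 - 2 / 5 * x) ((1 - 2 / 5 * x) * (1 - 2 / 5 * x))) ≤
      240 * ∑ i ∈ range 4, cA 0 i 0 * x ^ i := by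
  have h1 := chkTr_sound P0 gf hP0 T0 ⟨2496, 3840, 0, 1, 0, 1⟩ hT0 x 0 0
    (by simp only [P0]; push_cast; linarith) (by simp only [P0]; push_cast; linarith)
    (by simp only [P0]; push_cast; norm_num) (by simp only [P0]; push_cast; norm_num)
    (by simp only [P0]; push_cast; norm_num) (by simp only [P0]; push_cast; norm_num)
  rw [v_gf] at h1
  have h2 : 0 ≤ f_gf x 0 0 := nonneg_of_mul_nonneg_right h1 (by norm_num)
  rw [l_eq x 0 0, V_eq x 0 0, ← KT_eq x 0 0]
  unfold f_gf at h2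
  linarith

end Pool.Agent.Lib.MP_f1379f_gt.FV.CP.Vfr
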