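import Pool.Agent.Lib.MP_f1379f_gt.FV.CPL

/-!
# box check, region n1
-/

set_option autoImplicit false
set_option linter.unusedVariables false
set_option linter.unusedSimpArgs false
set_option linter.unusedTactic false
set_option linter.style.longLine false
set_option maxRecDepth 100000

namespace Pool.Agent.Lib.MP_f1379f_gt.FV.CP.n1r

open Finset Pool.Agent.Lib.MP_f1379f_gt.FV Pool.Agent.Lib.MP_f1379f_gt.FV.BCH Pool.Agent.Lib.MP_f1379f_gt.FV.CP Pool.Agent.Lib.MP_f1379f_gt.FV.CP.U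

/-- node -/
def nd439 : Ex := .f 1 nd9 (-2) nd2
/-- node -/
def nd440 : Ex := .m eB nd439
/-- node -/
def nd441 : Ex := .m nd7 nd7
/-- node -/
def nd442 : Ex := .m nd7 nd16
/-- node -/
def nd443 : Ex := .m nd441 nd442
/-- node -/
def nd444 : Ex := .m nd443 nd443
/-- node -/
def nd445 : Ex := .m nd7 nd442
/-- node -/
def nd446 : Ex := .m nd442 nd445
/-- node -/
def nd447 : Ex := .m nd443 nd446
/-- node -/
def nd448 : Ex := .m nd444 nd447
/-- node -/
def nd449 : Ex := .m nd440 nd448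
/-- node -/
def eKPn0 : Ex := .f 1 eK3 23556247558593750000000000000000000000000 nd449
/-- node -/
def g0n0 : Ex := .f (-1) eKPn0 0 eKPn0
/-- node -/
def eQn1 : Ex := .m eKPn0 eD2
/-- node -/
def nd453 : Ex := .m eD2 nd16
/-- node -/
def nd454 : Ex := .f 4 eDd (-75) nd453
/-- node -/
def nd455 : Ex := .f 29165000 nd453 8820751 nd454
/-- node -/
def nd456 : Ex := .m nd16 nd16
/-- node -/
def nd457 : Ex := .f 4 eDd (-1875) nd456
/-- node -/
def nd458 : Ex := .m nd457 eD2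
/-- node -/
def nd459 : Ex := .m nd455 nd16
/-- node -/
def nd460 : Ex := .f 2500 nd459 (-19391519) nd458
/-- node -/
def nd461 : Ex := .f 1 nd429 (-10) nd7
/-- node -/
def nd462 : Ex := .m nd461 eD2
/-- node -/
def nd463 : Ex := .m nd462 nd17
/-- node -/
def nd464 : Ex := .f 1 nd460 507235000 nd463
/-- node -/
def nd465 : Ex := .m nd16 nd442
/-- node -/
def nd466 : Ex := .m nd442 nd442
/-- node -/
def nd467 : Ex := .m nd465 nd466
/-- node -/
def nd468 : Ex := .m nd442 nd456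
/-- node -/
def nd469 : Ex := .m nd466 nd468
/-- node -/
def nd470 : Ex := .m nd467 nd469
/-- node -/
def nd471 : Ex := .m nd464 nd470
/-- node -/
def g1n1 : Ex := .f 44341171875000000000000000000 nd471 (-1) eQn1
/-- node -/
def nd473 : Ex := .f (-70004811) nd7 21275 nd429
/-- node -/
def nd474 : Ex := .m nd473 eD2
/-- node -/
def nd475 : Ex := .m nd474 nd9
/-- node -/
def nd476 : Ex := .f 125 nd475 501583833 eDd
/-- node -/
def nd477 : Ex := .m eDd eD2
/-- node -/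
def nd478 : Ex := .m nd476 nd16
/-- node -/
def nd479 : Ex := .f 75 nd478 (-32415616) nd477
/-- node -/
def nd480 : Ex := .m nd479 nd470
/-- node -/
def g2n1 : Ex := .f 88682343750000000000000000000 nd480 (-1) eQn1
/-- node -/
def nd482 : Ex := .f (-4362032315) nd7 1227089 nd429
/-- node -/
def nd483 : Ex := .m nd482 eD2
/-- node -/
def nd484 : Ex := .m nd483 nd9
/-- node -/
def nd485 : Ex := .f 5 nd484 1259406246 eDd
/-- node -/
def nd486 : Ex := .m nd485 nd16
/-- node -/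
def nd487 : Ex := .f 25 nd486 (-26704158) nd477
/-- node -/
def nd488 : Ex := .m nd487 nd470
/-- node -/
def g3n1 : Ex := .f 88682343750000000000000000000 nd488 (-1) eQn1
/-- node -/
def nd490 : Ex := .f (-286910395) nd7 65917 nd429
/-- node -/
def nd491 : Ex := .m nd490 eD2
/-- node -/
def nd492 : Ex := .m nd491 nd9
/-- node -/
def nd493 : Ex := .f 10 nd492 167970983 eDd
/-- node -/
def nd494 : Ex := .m nd493 nd16
/-- node -/
def nd495 : Ex := .f 25 nd494 (-3304422) nd477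
/-- node -/
def nd496 : Ex := .m nd495 nd470
/-- node -/
def g4n1 : Ex := .f 443411718750000000000000000000 nd496 (-1) eQn1
/-- node -/
def nd498 : Ex := .f (-704953775) nd7 116308 nd429
/-- node -/
def nd499 : Ex := .m nd498 eD2
/-- node -/
def nd500 : Ex := .m nd499 nd9
/-- node -/
def nd501 : Ex := .f 10 nd500 419564083 eDd
/-- node -/
def nd502 : Ex := .m nd501 nd16
/-- node -/
def nd503 : Ex := .f 25 nd502 (-7374312) nd477
/-- node -/
def nd504 : Ex := .m nd503 nd470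
/-- node -/
def g5n1 : Ex := .f 88682343750000000000000000000 nd504 (-1) eQn1
/-- node -/
def nd506 : Ex := .f (-1145877107) nd7 359429 nd429
/-- node -/
def nd507 : Ex := .m nd506 eD2
/-- node -/
def nd508 : Ex := .m nd507 nd9
/-- node -/
def nd509 : Ex := .f 25 nd508 1635777468 eDd
/-- node -/
def nd510 : Ex := .m nd509 nd16
/-- node -/
def nd511 : Ex := .f 5 nd510 (-7052887) nd477
/-- node -/
def nd512 : Ex := .m nd511 nd470
/-- node -/
def g6n1 : Ex := .f 443411718750000000000000000000 nd512 (-1) eQn1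
/-- node -/
def nd514 : Ex := .f (-4789851530) nd7 1400927 nd429
/-- node -/
def nd515 : Ex := .m nd514 eD2
/-- node -/
def nd516 : Ex := .m nd515 nd9
/-- node -/
def nd517 : Ex := .f 1 nd516 275579362 eDd
/-- node -/
def nd518 : Ex := .m nd517 nd16
/-- node -/
def nd519 : Ex := .f 125 nd518 (-29450818) nd477
/-- node -/
def nd520 : Ex := .m nd519 nd470
/-- node -/
def g7n1 : Ex := .f 88682343750000000000000000000 nd520 (-1) eQn1

/-- real function of eKPn0 -/
noncomputable def f_eKPn0 (x y t : ℝ) : ℝ := f_eK3 x y t + (((17 / 500) * base (t)) * ((1 / 2) - t))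

theorem v_eKPn0 (x y t : ℝ) : val eKPn0 x y t = 5542646484375000000000000000000000000000000 * (f_eKPn0 x y t) := by
  simp only [nd2, nd5, nd6, nd7, nd9, nd15, nd16, nd439, nd440, nd441, nd442, nd443, nd444, nd445, nd446, nd447, nd448, nd449, eKPn0, v_eB, v_eK3, val_f, val_h, val_m, val_vt]
  unfold f_eKPn0
  push_cast
  ring

/-- real function of g0n0 -/
noncomputable def f_g0n0 (x y t : ℝ) : ℝ := -f_eKPn0 x y t

theorem v_g0n0 (x y t : ℝ) : val g0n0 x y t = 5542646484375000000000000000000000000000000 * (f_g0n0 x y t) := by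
  simp only [g0n0, v_eKPn0, val_f]
  unfold f_g0n0
  push_cast
  ring

/-- real function of eQn1 -/
noncomputable def f_eQn1 (x y t : ℝ) : ℝ := f_eKPn0 x y t * f_eD2 x y t

theorem v_eQn1 (x y t : ℝ) : val eQn1 x y t = 138566162109375000000000000000000000000000000 * (f_eQn1 x y t) := by
  simp only [eQn1, v_eD2, v_eKPn0, val_m]
  unfold f_eQn1
  push_cast
  ring

/-- real function of g1n1 -/
noncomputable def f_g1n1 (x y t : ℝ) : ℝ := (((((5833 / 10000000) * f_eD2 x y t) + ((8820751 / 500000000) * (f_eDd x y t - ((3 / 4) * f_eD2 x y t)))) - ((19391519 / 50000000000) * ((f_eDd x y t - (3 / 4)) * f_eD2 x y t))) + ((101447 / 5000000000) * ((((1 - ((2 / 5) * x)) + (1 - ((2 / 5) * y))) - 2) * f_eD2 x y t))) - f_eQn1 x y t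

theorem v_g1n1 (x y t : ℝ) : val g1n1 x y t = 138566162109375000000000000000000000000000000 * (f_g1n1 x y t) := by
  simp only [nd0, nd1, nd5, nd6, nd7, nd9, nd12, nd13, nd15, nd16, nd17, nd427, nd428, nd429, nd442, nd453, nd454, nd455, nd456, nd457, nd458, nd459, nd460, nd461, nd462, nd463, nd464, nd465, nd466, nd467, nd468, nd469, nd470, nd471, g1n1, v_eD2, v_eDd, v_eQn1, val_f, val_h, val_m, val_vx, val_vy]
  unfold f_g1n1
  push_cast
  ring

/-- real function of g2n1 -/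
noncomputable def f_g2n1 (x y t : ℝ) : ℝ := ((((((-210014433) / 20000000000) + ((2553 / 160000000) * ((1 - ((2 / 5) * x)) + (1 - ((2 / 5) * y))))) * f_eD2 x y t) + ((1504751499 / 100000000000) * f_eDd x y t)) + (((-253247) / 781250000) * (f_eDd x y t * f_eD2 x y t))) - f_eQn1 x y t

theorem v_g2n1 (x y t : ℝ) : val g2n1 x y t = 138566162109375000000000000000000000000000000 * (f_g2n1 x y t) := by
  simp only [nd0, nd1, nd5, nd6, nd7, nd9, nd12, nd13, nd15, nd16, nd427, nd428, nd429, nd442, nd456, nd465, nd466, nd467, nd468, nd469, nd470, nd473, nd474, nd475, nd476, nd477, nd478, nd479, nd480, g2n1, v_eD2, v_eDd, v_eQn1, val_f, val_h, val_m, val_vx, val_vy]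
  unfold f_g2n1
  push_cast
  ring

/-- real function of g3n1 -/
noncomputable def f_g3n1 (x y t : ℝ) : ℝ := ((((((-872406463) / 100000000000) + ((1227089 / 100000000000) * ((1 - ((2 / 5) * x)) + (1 - ((2 / 5) * y))))) * f_eD2 x y t) + ((629703123 / 50000000000) * f_eDd x y t)) + (((-13352079) / 50000000000) * (f_eDd x y t * f_eD2 x y t))) - f_eQn1 x y t

theorem v_g3n1 (x y t : ℝ) : val g3n1 x y t = 138566162109375000000000000000000000000000000 * (f_g3n1 x y t) := by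
  simp only [nd0, nd1, nd5, nd6, nd7, nd9, nd12, nd13, nd15, nd16, nd427, nd428, nd429, nd442, nd456, nd465, nd466, nd467, nd468, nd469, nd470, nd477, nd482, nd483, nd484, nd485, nd486, nd487, nd488, g3n1, v_eD2, v_eDd, v_eQn1, val_f, val_h, val_m, val_vx, val_vy]
  unfold f_g3n1
  push_cast
  ring

/-- real function of g4n1 -/
noncomputable def f_g4n1 (x y t : ℝ) : ℝ := ((((((-57382079) / 10000000000) + ((65917 / 10000000000) * ((1 - ((2 / 5) * x)) + (1 - ((2 / 5) * y))))) * f_eD2 x y t) + ((167970983 / 20000000000) * f_eDd x y t)) + (((-1652211) / 10000000000) * (f_eDd x y t * f_eD2 x y t))) - f_eQn1 x y t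

theorem v_g4n1 (x y t : ℝ) : val g4n1 x y t = 138566162109375000000000000000000000000000000 * (f_g4n1 x y t) := by
  simp only [nd0, nd1, nd5, nd6, nd7, nd9, nd12, nd13, nd15, nd16, nd427, nd428, nd429, nd442, nd456, nd465, nd466, nd467, nd468, nd469, nd470, nd477, nd490, nd491, nd492, nd493, nd494, nd495, nd496, g4n1, v_eD2, v_eDd, v_eQn1, val_f, val_h, val_m, val_vx, val_vy]
  unfold f_g4n1
  push_cast
  ring

/-- real function of g5n1 -/
noncomputable def f_g5n1 (x y t : ℝ) : ℝ := ((((((-28198151) / 10000000000) + ((29077 / 12500000000) * ((1 - ((2 / 5) * x)) + (1 - ((2 / 5) * y))))) * f_eD2 x y t) + ((419564083 / 100000000000) * f_eDd x y t)) + (((-921789) / 12500000000) * (f_eDd x y t * f_eD2 x y t))) - f_eQn1 x y t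

theorem v_g5n1 (x y t : ℝ) : val g5n1 x y t = 138566162109375000000000000000000000000000000 * (f_g5n1 x y t) := by
  simp only [nd0, nd1, nd5, nd6, nd7, nd9, nd12, nd13, nd15, nd16, nd427, nd428, nd429, nd442, nd456, nd465, nd466, nd467, nd468, nd469, nd470, nd477, nd498, nd499, nd500, nd501, nd502, nd503, nd504, g5n1, v_eD2, v_eDd, v_eQn1, val_f, val_h, val_m, val_vx, val_vy]
  unfold f_g5n1
  push_cast
  ring

/-- real function of g6n1 -/
noncomputable def f_g6n1 (x y t : ℝ) : ℝ := ((((((-1145877107) / 100000000000) + ((359429 / 20000000000) * ((1 - ((2 / 5) * x)) + (1 - ((2 / 5) * y))))) * f_eD2 x y t) + ((408944367 / 25000000000) * f_eDd x y t)) + (((-7052887) / 20000000000) * (f_eDd x y t * f_eD2 x y t))) - f_eQn1 x y t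

theorem v_g6n1 (x y t : ℝ) : val g6n1 x y t = 138566162109375000000000000000000000000000000 * (f_g6n1 x y t) := by
  simp only [nd0, nd1, nd5, nd6, nd7, nd9, nd12, nd13, nd15, nd16, nd427, nd428, nd429, nd442, nd456, nd465, nd466, nd467, nd468, nd469, nd470, nd477, nd506, nd507, nd508, nd509, nd510, nd511, nd512, g6n1, v_eD2, v_eDd, v_eQn1, val_f, val_h, val_m, val_vx, val_vy]
  unfold f_g6n1
  push_cast
  ring

/-- real function of g7n1 -/
noncomputable def f_g7n1 (x y t : ℝ) : ℝ := ((((((-478985153) / 50000000000) + ((1400927 / 100000000000) * ((1 - ((2 / 5) * x)) + (1 - ((2 / 5) * y))))) * f_eD2 x y t) + ((137789681 / 10000000000) * f_eDd x y t)) + (((-14725409) / 50000000000) * (f_eDd x y t * f_eD2 x y t))) - f_eQn1 x y t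

theorem v_g7n1 (x y t : ℝ) : val g7n1 x y t = 138566162109375000000000000000000000000000000 * (f_g7n1 x y t) := by
  simp only [nd0, nd1, nd5, nd6, nd7, nd9, nd12, nd13, nd15, nd16, nd427, nd428, nd429, nd442, nd456, nd465, nd466, nd467, nd468, nd469, nd470, nd477, nd514, nd515, nd516, nd517, nd518, nd519, nd520, g7n1, v_eD2, v_eDd, v_eQn1, val_f, val_h, val_m, val_vx, val_vy]
  unfold f_g7n1
  push_cast
  ring

/-- parameters -/
def P0 : Par := ⟨716, 17, 17, 11, 3840, 3840, 2560, 896, 896, 2560⟩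

theorem hP0 : chkPar P0 g0n0 = true := by decide +kernel

/-- parameters -/
def P1 : Par := ⟨761, 18, 18, 12, 3840, 3840, 2560, 896, 896, 2560⟩

theorem hP1 : chkPar P1 g1n1 = true := by decide +kernel

/-- parameters -/
def P2 : Par := ⟨761, 18, 18, 12, 3840, 3840, 2560, 896, 896, 2560⟩

theorem hP2 : chkPar P2 g2n1 = true := by decide +kernel

/-- parameters -/
def P3 : Par := ⟨761, 18, 18, 12, 3840, 3840, 2560, 896, 896, 2560⟩

theorem hP3 : chkPar P3 g3n1 = true := by decide +kernel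

/-- parameters -/
def P4 : Par := ⟨761, 18, 18, 12, 3840, 3840, 2560, 896, 896, 2560⟩

theorem hP4 : chkPar P4 g4n1 = true := by decide +kernel

/-- parameters -/
def P5 : Par := ⟨761, 18, 18, 12, 3840, 3840, 2560, 896, 896, 2560⟩

theorem hP5 : chkPar P5 g5n1 = true := by decide +kernel

/-- parameters -/
def P6 : Par := ⟨761, 18, 18, 12, 3840, 3840, 2560, 896, 896, 2560⟩

theorem hP6 : chkPar P6 g6n1 = true := by decide +kernel

/-- parameters -/
def P7 : Par := ⟨761, 18, 18, 12, 3840, 3840, 2560, 896, 896, 2560⟩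

theorem hP7 : chkPar P7 g7n1 = true := by decide +kernel

/-- kinds -/
def ks (k : ℕ) : Par × Ex :=
  match k with
  | 0 => (P0, g0n0)
  | 1 => (P1, g1n1)
  | 2 => (P2, g2n1)
  | 3 => (P3, g3n1)
  | 4 => (P4, g4n1)
  | 5 => (P5, g5n1)
  | 6 => (P6, g6n1)
  | _ => (P7, g7n1)

lemma hks : ∀ k < 8, chkPar (ks k).1 (ks k).2 = true := by
  intro k hk
  interval_cases k
  · exact hP0
  · exact hP1
  · exact hP2
  · exact hP3
  · exact hP4
  · exact hP5
  · exact hP6
  · exact hP7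

/-- subtree -/
def T0 : Tm := (.st 896 (.lf 0) (.sx 224 (.sy 224 (.lf 5) (.lf 0)) (.lf 0)))
theorem hT0 : chkTm ks 8 3840 3840 2560 T0 ⟨0, 448, 0, 448, 768, 1024⟩ = true := by decide +kernel
/-- subtree -/
def T1 : Tm := (.sx 224 (.sy 224 (.st 1088 (.lf 5) (.lf 4)) (.st 1088 (.lf 5) (.lf 4))) (.sy 224 (.st 1088 (.lf 5) (.lf 4)) (.lf 5)))
theorem hT1 : chkTm ks 8 3840 3840 2560 T1 ⟨0, 448, 0, 448, 1024, 1152⟩ = true := by decide +kernel
/-- subtree -/
def T2 : Tm := (.sx 112 (.sy 112 (.st 1184 (.sx 56 (.sy 56 (.st 1168 (.lf 4) (.lf 3)) (.lf 4)) (.lf 4)) (.lf 3)) (.st 1184 (.lf 4) (.lf 3))) (.sy 112 (.st 1184 (.lf 4) (.lf 3)) (.st 1184 (.lf 4) (.lf 3))))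
theorem hT2 : chkTm ks 8 3840 3840 2560 T2 ⟨0, 224, 0, 224, 1152, 1216⟩ = true := by decide +kernel
/-- subtree -/
def T3 : Tm := (.lf 2)
theorem hT3 : chkTm ks 8 3840 3840 2560 T3 ⟨0, 112, 0, 112, 1216, 1248⟩ = true := by decide +kernel
/-- subtree -/
def T4 : Tm := (.lf 6)
theorem hT4 : chkTm ks 8 3840 3840 2560 T4 ⟨0, 56, 0, 56, 1248, 1264⟩ = true := by decide +kernel
/-- subtree -/
def T5 : Tm := (.sy 28 (.st 1272 (.lf 6) (.lf 1)) (.st 1272 (.lf 6) (.sx 14 .sk (.sy 42 (.st 1276 (.lf 6) (.lf 1)) .sk))))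
theorem hT5 : chkTm ks 8 3840 3840 2560 T5 ⟨0, 28, 0, 56, 1264, 1280⟩ = true := by decide +kernel
/-- subtree -/
def T6 : Tm := (.st 1272 (.lf 6) (.sx 42 (.sy 14 (.lf 1) (.st 1276 (.lf 6) (.lf 1))) (.sy 14 (.lf 1) (.st 1276 (.lf 6) (.lf 1)))))
theorem hT6 : chkTm ks 8 3840 3840 2560 T6 ⟨28, 56, 0, 28, 1264, 1280⟩ = true := by decide +kernel
/-- subtree -/
def T7 : Tm := (.st 1272 (.lf 6) (.sx 42 (.sy 42 (.st 1276 (.lf 6) (.lf 1)) (.st 1276 (.lf 6) (.sx 35 .sk (.lf 6)))) (.sy 42 (.st 1276 (.lf 6) (.sx 49 (.sy 35 (.lf 1) (.lf 6)) (.lf 6))) (.lf 6))))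
theorem hT7 : chkTm ks 8 3840 3840 2560 T7 ⟨28, 56, 28, 56, 1264, 1280⟩ = true := by decide +kernel
/-- subtree -/
def T8 : Tm := .sy 28 T6 T7
theorem hT8 : chkTm ks 8 3840 3840 2560 T8 ⟨28, 56, 0, 56, 1264, 1280⟩ = true := gluem_y hT6 hT7
/-- subtree -/
def T9 : Tm := .sx 28 T5 T8
theorem hT9 : chkTm ks 8 3840 3840 2560 T9 ⟨0, 56, 0, 56, 1264, 1280⟩ = true := gluem_x hT5 hT8
/-- subtree -/
def T10 : Tm := .st 1264 T4 T9
theorem hT10 : chkTm ks 8 3840 3840 2560 T10 ⟨0, 56, 0, 56, 1248, 1280⟩ = true := gluem_t hT4 hT9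
/-- subtree -/
def T11 : Tm := (.st 1264 (.lf 2) (.sx 28 .sk (.lf 6)))
theorem hT11 : chkTm ks 8 3840 3840 2560 T11 ⟨0, 56, 56, 112, 1248, 1280⟩ = true := by decide +kernel
/-- subtree -/
def T12 : Tm := .sy 56 T10 T11
theorem hT12 : chkTm ks 8 3840 3840 2560 T12 ⟨0, 56, 0, 112, 1248, 1280⟩ = true := gluem_y hT10 hT11
/-- subtree -/
def T13 : Tm := (.sy 56 (.st 1264 (.lf 2) (.sx 84 (.sy 28 (.st 1272 (.lf 6) (.sx 70 (.sy 14 (.st 1276 (.lf 6) (.lf 1)) (.lf 6)) (.lf 6))) (.lf 6)) (.lf 6))) (.st 1264 (.lf 2) (.lf 6)))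
theorem hT13 : chkTm ks 8 3840 3840 2560 T13 ⟨56, 112, 0, 112, 1248, 1280⟩ = true := by decide +kernel
/-- subtree -/
def T14 : Tm := .sx 56 T12 T13
theorem hT14 : chkTm ks 8 3840 3840 2560 T14 ⟨0, 112, 0, 112, 1248, 1280⟩ = true := gluem_x hT12 hT13
/-- subtree -/
def T15 : Tm := .st 1248 T3 T14
theorem hT15 : chkTm ks 8 3840 3840 2560 T15 ⟨0, 112, 0, 112, 1216, 1280⟩ = true := gluem_t hT3 hT14
/-- subtree -/
def T16 : Tm := (.st 1248 (.lf 3) (.sx 56 .sk (.sy 168 (.st 1264 (.lf 2) (.lf 6)) .sk)))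
theorem hT16 : chkTm ks 8 3840 3840 2560 T16 ⟨0, 112, 112, 224, 1216, 1280⟩ = true := by decide +kernel
/-- subtree -/
def T17 : Tm := .sy 112 T15 T16
theorem hT17 : chkTm ks 8 3840 3840 2560 T17 ⟨0, 112, 0, 224, 1216, 1280⟩ = true := gluem_y hT15 hT16
/-- subtree -/
def T18 : Tm := (.sy 112 (.st 1248 (.lf 3) (.sx 168 (.sy 56 (.st 1264 (.lf 2) (.lf 6)) (.st 1264 (.lf 2) (.lf 6))) (.sy 56 (.st 1264 (.lf 2) (.lf 6)) (.lf 2)))) (.st 1248 (.lf 3) (.lf 2)))
theorem hT18 : chkTm ks 8 3840 3840 2560 T18 ⟨112, 224, 0, 224, 1216, 1280⟩ = true := by decide +kernel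
/-- subtree -/
def T19 : Tm := .sx 112 T17 T18
theorem hT19 : chkTm ks 8 3840 3840 2560 T19 ⟨0, 224, 0, 224, 1216, 1280⟩ = true := gluem_x hT17 hT18
/-- subtree -/
def T20 : Tm := .st 1216 T2 T19
theorem hT20 : chkTm ks 8 3840 3840 2560 T20 ⟨0, 224, 0, 224, 1152, 1280⟩ = true := gluem_t hT2 hT19
/-- subtree -/
def T21 : Tm := (.st 1216 (.lf 4) (.sx 112 .sk (.sy 336 (.lf 7) .sk)))
theorem hT21 : chkTm ks 8 3840 3840 2560 T21 ⟨0, 224, 224, 448, 1152, 1280⟩ = true := by decide +kernel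
/-- subtree -/
def T22 : Tm := .sy 224 T20 T21
theorem hT22 : chkTm ks 8 3840 3840 2560 T22 ⟨0, 224, 0, 448, 1152, 1280⟩ = true := gluem_y hT20 hT21
/-- subtree -/
def T23 : Tm := (.st 1216 (.lf 4) (.sx 336 (.sy 112 (.st 1248 (.lf 3) (.lf 2)) (.lf 7)) (.sy 112 (.st 1248 (.lf 3) (.lf 7)) (.st 1248 (.lf 3) (.lf 7)))))
theorem hT23 : chkTm ks 8 3840 3840 2560 T23 ⟨224, 448, 0, 224, 1152, 1280⟩ = true := by decide +kernel
/-- subtree -/
def T24 : Tm := (.st 1216 (.lf 4) (.sx 336 (.sy 336 (.st 1248 (.lf 3) (.lf 7)) (.lf 3)) (.sy 336 (.lf 3) (.st 1248 (.lf 4) (.lf 3)))))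
theorem hT24 : chkTm ks 8 3840 3840 2560 T24 ⟨224, 448, 224, 448, 1152, 1280⟩ = true := by decide +kernel
/-- subtree -/
def T25 : Tm := .sy 224 T23 T24
theorem hT25 : chkTm ks 8 3840 3840 2560 T25 ⟨224, 448, 0, 448, 1152, 1280⟩ = true := gluem_y hT23 hT24
/-- subtree -/
def T26 : Tm := .sx 224 T22 T25
theorem hT26 : chkTm ks 8 3840 3840 2560 T26 ⟨0, 448, 0, 448, 1152, 1280⟩ = true := gluem_x hT22 hT25
/-- subtree -/
def T27 : Tm := .st 1152 T1 T26
theorem hT27 : chkTm ks 8 3840 3840 2560 T27 ⟨0, 448, 0, 448, 1024, 1280⟩ = true := gluem_t hT1 hT26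
/-- subtree -/
def T28 : Tm := .st 1024 T0 T27
theorem hT28 : chkTm ks 8 3840 3840 2560 T28 ⟨0, 448, 0, 448, 768, 1280⟩ = true := gluem_t hT0 hT27

theorem cover (x y t : ℝ) (hyx : y ≤ x) (hx0 : 0 ≤ x) (hx1 : x ≤ (7 / 60))
    (hy0 : 0 ≤ y) (hy1 : y ≤ (7 / 60))
    (ht0 : (3 / 10) ≤ t) (ht1 : t ≤ (1 / 2)) :
    ∃ k < 8, 0 ≤ val (ks k).2 x y t := by
  refine chkTm_sound ks 8 3840 3840 2560 (by norm_num) (by norm_num) hks T28 ⟨0, 448, 0, 448, 768, 1280⟩ hT28 x y t hyx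
    ?_ ?_ ?_ ?_ ?_ ?_ <;> push_cast <;> linarith

theorem good (x y t : ℝ) (hx : x ≤ 1) (hy : y ≤ 1) (h : ∃ k < 8, 0 ≤ val (ks k).2 x y t) :
    PG.Good7 (K3 x y t + ((17 / 500) * base t * (1 / 2 - t))) x y t := by
  obtain ⟨k, hk, h⟩ := h
  have hr : 0 ≤ (1 - x) ^ 3 * (1 - y) ^ 3 :=
    mul_nonneg (pow_nonneg (by linarith) 3) (pow_nonneg (by linarith) 3)
  interval_cases k
  · have h1 : 0 ≤ val g0n0 x y t := h
    rw [v_g0n0] at h1
    have h2 : 0 ≤ f_g0n0 x y t := nonneg_of_mul_nonneg_right h1 (by norm_num)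
    refine (Or.inl ∘ Or.inl) ?_
    unfold f_g0n0 f_eKPn0 at h2
    simp only [K3x] at h2
    linarith
  · have h1 : 0 ≤ val g1n1 x y t := h
    rw [v_g1n1] at h1
    have h2 : 0 ≤ f_g1n1 x y t := nonneg_of_mul_nonneg_right h1 (by norm_num)
    refine (Or.inl ∘ Or.inr ∘ Or.inl) ?_
    unfold f_g1n1 f_eQn1 f_eKPn0 at h2
    simp only [K3x, D2x, DDx] at h2
    unfold PG.L0
    linarith
  · have h1 : 0 ≤ val g2n1 x y t := h
    rw [v_g2n1] at h1
    have h2 : 0 ≤ f_g2n1 x y t := nonneg_of_mul_nonneg_right h1 (by norm_num)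
    refine (Or.inl ∘ Or.inr ∘ Or.inr ∘ Or.inl) ?_
    unfold f_g2n1 f_eQn1 f_eKPn0 at h2
    simp only [K3x, D2x, DDx] at h2
    unfold PG.LL
    linarith
  · have h1 : 0 ≤ val g3n1 x y t := h
    rw [v_g3n1] at h1
    have h2 : 0 ≤ f_g3n1 x y t := nonneg_of_mul_nonneg_right h1 (by norm_num)
    refine (Or.inl ∘ Or.inr ∘ Or.inr ∘ Or.inr ∘ Or.inl) ?_
    unfold f_g3n1 f_eQn1 f_eKPn0 at h2
    simp only [K3x, D2x, DDx] at h2
    unfold PG.LL
    linarith
  · have h1 : 0 ≤ val g4n1 x y t := h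
    rw [v_g4n1] at h1
    have h2 : 0 ≤ f_g4n1 x y t := nonneg_of_mul_nonneg_right h1 (by norm_num)
    refine (Or.inl ∘ Or.inr ∘ Or.inr ∘ Or.inr ∘ Or.inr ∘ Or.inl) ?_
    unfold f_g4n1 f_eQn1 f_eKPn0 at h2
    simp only [K3x, D2x, DDx] at h2
    unfold PG.LL
    linarith
  · have h1 : 0 ≤ val g5n1 x y t := h
    rw [v_g5n1] at h1
    have h2 : 0 ≤ f_g5n1 x y t := nonneg_of_mul_nonneg_right h1 (by norm_num)
    refine (Or.inl ∘ Or.inr ∘ Or.inr ∘ Or.inr ∘ Or.inr ∘ Or.inr) ?_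
    unfold f_g5n1 f_eQn1 f_eKPn0 at h2
    simp only [K3x, D2x, DDx] at h2
    unfold PG.LL
    linarith
  · have h1 : 0 ≤ val g6n1 x y t := h
    rw [v_g6n1] at h1
    have h2 : 0 ≤ f_g6n1 x y t := nonneg_of_mul_nonneg_right h1 (by norm_num)
    refine (Or.inr ∘ Or.inl) ?_
    unfold f_g6n1 f_eQn1 f_eKPn0 at h2
    simp only [K3x, D2x, DDx] at h2
    unfold PG.LL
    linarith
  · have h1 : 0 ≤ val g7n1 x y t := h
    rw [v_g7n1] at h1
    have h2 : 0 ≤ f_g7n1 x y t := nonneg_of_mul_nonneg_right h1 (by norm_num)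
    refine (Or.inr ∘ Or.inr) ?_
    unfold f_g7n1 f_eQn1 f_eKPn0 at h2
    simp only [K3x, D2x, DDx] at h2
    unfold PG.LL
    linarith

/-- All points of the region (both orders of `x, y`). -/
theorem region (x y t : ℝ) (hx0 : 0 ≤ x) (hx1 : x ≤ (7 / 60))
    (hy0 : 0 ≤ y) (hy1 : y ≤ (7 / 60))
    (ht0 : (3 / 10) ≤ t) (ht1 : t ≤ (1 / 2)) :
    PG.Good7 (K3 x y t + ((17 / 500) * base t * (1 / 2 - t))) x y t := by
  rcases le_total y x with h | h
  · exact good x y t (by linarith) (by linarith)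
      (cover x y t h (by linarith) (by linarith) (by linarith) (by linarith) ht0 ht1)
  · have h1 := good y x t (by linarith) (by linarith)
      (cover y x t h (by linarith) (by linarith) (by linarith) (by linarith) ht0 ht1)
    rw [K3_symm y x] at h1
    have h2 := PG.Good7_symm h1
    convert h2 using 2 <;> ring

end Pool.Agent.Lib.MP_f1379f_gt.FV.CP.n1r
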