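import Pool.Agent.Lib.MP_f1379f_gt.FV.CVV

/-!
# one-body inequality n
-/

set_option autoImplicit false
set_option linter.unusedVariables false
set_option linter.unusedSimpArgs false
set_option linter.unusedTactic false
set_option linter.style.longLine false
set_option maxRecDepth 100000

namespace Pool.Agent.Lib.MP_f1379f_gt.FV.CU.Vnr

open Finset Pool.Agent.Lib.MP_f1379f_gt.FV Pool.Agent.Lib.MP_f1379f_gt.FV.BCH Pool.Agent.Lib.MP_f1379f_gt.FV.CU Pool.Agent.Lib.MP_f1379f_gt.FV.CU.V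

/-- node -/
def nd225 : Ex := .f 1 nd2 (-1) nd0
/-- node -/
def nd226 : Ex := .m nd225 nd225
/-- node -/
def nd227 : Ex := .m nd226 nd225
/-- node -/
def nd228 : Ex := .m nd227 el
/-- node -/
def nd229 : Ex := .m nd227 eV
/-- node -/
def nd230 : Ex := .m nd2 nd2
/-- node -/
def nd231 : Ex := .m nd2 nd230
/-- node -/
def nd232 : Ex := .m nd231 nd231
/-- node -/
def nd233 : Ex := .m nd228 nd232
/-- node -/
def nd234 : Ex := .f 145313 nd233 (-1000) nd229
/-- node -/
def nd235 : Ex := .m nd227 nd227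
/-- node -/
def nd236 : Ex := .m nd235 eS11
/-- node -/
def nd237 : Ex := .m nd230 nd231
/-- node -/
def nd238 : Ex := .m nd237 nd232
/-- node -/
def nd239 : Ex := .m nd234 nd238
/-- node -/
def nd240 : Ex := .f 756756000000000000000000000 nd239 (-1) nd236
/-- node -/
def nd241 : Ex := .m nd232 nd232
/-- node -/
def nd242 : Ex := .m nd238 nd241
/-- node -/
def gn : Ex := .f 1 nd240 (-66594528000000000000000000000000000) nd242

/-- real function of gn -/
noncomputable def f_gn (x y t : ℝ) : ℝ := (((240 * (((1 - x) ^ 3) * f_el x y t)) - (((1 - x) ^ 3) * f_eV x y t)) - ((1 / 2) * (((1 - x) ^ 6) * f_eS11 x y t))) - (11 / 1250)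

theorem v_gn (x y t : ℝ) : val gn x y t = 7567560000000000000000000000000000000 * (f_gn x y t) := by
  simp only [nd0, nd2, nd225, nd226, nd227, nd228, nd229, nd230, nd231, nd232, nd233, nd234, nd235, nd236, nd237, nd238, nd239, nd240, nd241, nd242, gn, v_eS11, v_eV, v_el, val_f, val_h, val_m, val_vx]
  unfold f_gn
  push_cast
  ring

/-- parameters -/
def P0 : Par := ⟨404, 23, 0, 0, 1280, 1, 1, 1664, 2, 2⟩

theorem hP0 : chkPar P0 gn = true := by decide +kernel

/-- subdivision -/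
def T0 : Tr := (.sx 416 (.sx 208 (.sx 104 (.sx 52 .lf .lf) .lf) .lf) (.sx 624 (.sx 520 (.sx 468 .lf .lf) .lf) .lf))

theorem hT0 : chkTr P0 gn T0 ⟨0, 832, 0, 1, 0, 1⟩ = true := by decide +kernel

theorem region (x : ℝ) (hx0 : 0 ≤ x) (hx1 : x ≤ (13 / 20)) :
    (1 - x) ^ 3 * PW.VV x + 1 / 2 * ((1 - x) ^ 6 * 
      Kt 11 4 cA x x (1 - 2 / 5 * x) ((1 - 2 / 5 * x) * (1 - 2 / 5 * x))) + (88 / 10000) ≤
      240 * ((1 - x) ^ 3 * ∑ i ∈ range 4, cA 0 i 0 * x ^ i) := by
  have h1 := chkTr_sound P0 gn hP0 T0 ⟨0, 832, 0, 1, 0, 1⟩ hT0 x 0 0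
    (by simp only [P0]; push_cast; linarith) (by simp only [P0]; push_cast; linarith)
    (by simp only [P0]; push_cast; norm_num) (by simp only [P0]; push_cast; norm_num)
    (by simp only [P0]; push_cast; norm_num) (by simp only [P0]; push_cast; norm_num)
  rw [v_gn] at h1
  have h2 : 0 ≤ f_gn x 0 0 := nonneg_of_mul_nonneg_right h1 (by norm_num)
  rw [l_eq x 0 0, V_eq x 0 0, ← KT_eq x 0 0]
  unfold f_gn at h2
  linarith

end Pool.Agent.Lib.MP_f1379f_gt.FV.CU.Vnr
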