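import Pool.Agent.Lib.MP_f1379f_gt.FV.CVV

/-!
# box check, region b
-/

set_option autoImplicit false
set_option linter.unusedVariables false
set_option linter.unusedSimpArgs false
set_option linter.unusedTactic false
set_option linter.style.longLine false
set_option maxRecDepth 100000

namespace Pool.Agent.Lib.MP_f1379f_gt.FV.CU.br

open Finset Pool.Agent.Lib.MP_f1379f_gt.FV Pool.Agent.Lib.MP_f1379f_gt.FV.BCH Pool.Agent.Lib.MP_f1379f_gt.FV.CU Pool.Agent.Lib.MP_f1379f_gt.FV.CU.U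

/-- node -/
def g0a : Ex := .f (-1) eS11 0 eS11
/-- node -/
def eQb : Ex := .m eK3 eD2
/-- node -/
def nd441 : Ex := .m eD2 nd16
/-- node -/
def nd442 : Ex := .f 4 eDd (-75) nd441
/-- node -/
def nd443 : Ex := .f 29165000 nd441 8820751 nd442
/-- node -/
def nd444 : Ex := .m nd16 nd16
/-- node -/
def nd445 : Ex := .f 4 eDd (-1875) nd444
/-- node -/
def nd446 : Ex := .m nd445 eD2
/-- node -/
def nd447 : Ex := .m nd443 nd16
/-- node -/
def nd448 : Ex := .f 2500 nd447 (-19391519) nd446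
/-- node -/
def nd449 : Ex := .f 1 nd429 (-10) nd7
/-- node -/
def nd450 : Ex := .m nd449 eD2
/-- node -/
def nd451 : Ex := .m nd450 nd17
/-- node -/
def nd452 : Ex := .f 1 nd448 507235000 nd451
/-- node -/
def nd453 : Ex := .m nd7 nd16
/-- node -/
def nd454 : Ex := .m nd16 nd453
/-- node -/
def nd455 : Ex := .m nd453 nd453
/-- node -/
def nd456 : Ex := .m nd454 nd455
/-- node -/
def nd457 : Ex := .m nd453 nd444
/-- node -/
def nd458 : Ex := .m nd455 nd457
/-- node -/
def nd459 : Ex := .m nd456 nd458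
/-- node -/
def nd460 : Ex := .m nd452 nd459
/-- node -/
def g1b : Ex := .f 59121562500000000000000000000 nd460 (-1) eQb
/-- node -/
def nd462 : Ex := .f (-70004811) nd7 21275 nd429
/-- node -/
def nd463 : Ex := .m nd462 eD2
/-- node -/
def nd464 : Ex := .m nd463 nd9
/-- node -/
def nd465 : Ex := .f 125 nd464 501583833 eDd
/-- node -/
def nd466 : Ex := .m eDd eD2
/-- node -/
def nd467 : Ex := .m nd465 nd16
/-- node -/
def nd468 : Ex := .f 75 nd467 (-32415616) nd466
/-- node -/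
def nd469 : Ex := .m nd468 nd459
/-- node -/
def g2b : Ex := .f 118243125000000000000000000000 nd469 (-1) eQb
/-- node -/
def nd471 : Ex := .f (-4362032315) nd7 1227089 nd429
/-- node -/
def nd472 : Ex := .m nd471 eD2
/-- node -/
def nd473 : Ex := .m nd472 nd9
/-- node -/
def nd474 : Ex := .f 5 nd473 1259406246 eDd
/-- node -/
def nd475 : Ex := .m nd474 nd16
/-- node -/
def nd476 : Ex := .f 25 nd475 (-26704158) nd466
/-- node -/
def nd477 : Ex := .m nd476 nd459
/-- node -/
def g3b : Ex := .f 118243125000000000000000000000 nd477 (-1) eQb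
/-- node -/
def nd479 : Ex := .f (-286910395) nd7 65917 nd429
/-- node -/
def nd480 : Ex := .m nd479 eD2
/-- node -/
def nd481 : Ex := .m nd480 nd9
/-- node -/
def nd482 : Ex := .f 10 nd481 167970983 eDd
/-- node -/
def nd483 : Ex := .m nd482 nd16
/-- node -/
def nd484 : Ex := .f 25 nd483 (-3304422) nd466
/-- node -/
def nd485 : Ex := .m nd484 nd459
/-- node -/
def g4b : Ex := .f 591215625000000000000000000000 nd485 (-1) eQb
/-- node -/
def nd487 : Ex := .f (-704953775) nd7 116308 nd429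
/-- node -/
def nd488 : Ex := .m nd487 eD2
/-- node -/
def nd489 : Ex := .m nd488 nd9
/-- node -/
def nd490 : Ex := .f 10 nd489 419564083 eDd
/-- node -/
def nd491 : Ex := .m nd490 nd16
/-- node -/
def nd492 : Ex := .f 25 nd491 (-7374312) nd466
/-- node -/
def nd493 : Ex := .m nd492 nd459
/-- node -/
def g5b : Ex := .f 118243125000000000000000000000 nd493 (-1) eQb

/-- real function of g0a -/
noncomputable def f_g0a (x y t : ℝ) : ℝ := -f_eS11 x y t

theorem v_g0a (x y t : ℝ) : val g0a x y t = 7390195312500000000000000000000000000000000 * (f_g0a x y t) := by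
  simp only [g0a, v_eS11, val_f]
  unfold f_g0a
  push_cast
  ring

/-- real function of eQb -/
noncomputable def f_eQb (x y t : ℝ) : ℝ := f_eK3 x y t * f_eD2 x y t

theorem v_eQb (x y t : ℝ) : val eQb x y t = 184754882812500000000000000000000000000000000 * (f_eQb x y t) := by
  simp only [eQb, v_eD2, v_eK3, val_m]
  unfold f_eQb
  push_cast
  ring

/-- real function of g1b -/
noncomputable def f_g1b (x y t : ℝ) : ℝ := (((((5833 / 10000000) * f_eD2 x y t) + ((8820751 / 500000000) * (f_eDd x y t - ((3 / 4) * f_eD2 x y t)))) - ((19391519 / 50000000000) * ((f_eDd x y t - (3 / 4)) * f_eD2 x y t))) + ((101447 / 5000000000) * ((((1 - ((2 / 5) * x)) + (1 - ((2 / 5) * y))) - 2) * f_eD2 x y t))) - f_eQb x y t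

theorem v_g1b (x y t : ℝ) : val g1b x y t = 184754882812500000000000000000000000000000000 * (f_g1b x y t) := by
  simp only [nd0, nd1, nd5, nd6, nd7, nd9, nd12, nd13, nd15, nd16, nd17, nd427, nd428, nd429, nd441, nd442, nd443, nd444, nd445, nd446, nd447, nd448, nd449, nd450, nd451, nd452, nd453, nd454, nd455, nd456, nd457, nd458, nd459, nd460, g1b, v_eD2, v_eDd, v_eQb, val_f, val_h, val_m, val_vx, val_vy]
  unfold f_g1b
  push_cast
  ring

/-- real function of g2b -/
noncomputable def f_g2b (x y t : ℝ) : ℝ := ((((((-210014433) / 20000000000) + ((2553 / 160000000) * ((1 - ((2 / 5) * x)) + (1 - ((2 / 5) * y))))) * f_eD2 x y t) + ((1504751499 / 100000000000) * f_eDd x y t)) + (((-253247) / 781250000) * (f_eDd x y t * f_eD2 x y t))) - f_eQb x y t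

theorem v_g2b (x y t : ℝ) : val g2b x y t = 184754882812500000000000000000000000000000000 * (f_g2b x y t) := by
  simp only [nd0, nd1, nd5, nd6, nd7, nd9, nd12, nd13, nd15, nd16, nd427, nd428, nd429, nd444, nd453, nd454, nd455, nd456, nd457, nd458, nd459, nd462, nd463, nd464, nd465, nd466, nd467, nd468, nd469, g2b, v_eD2, v_eDd, v_eQb, val_f, val_h, val_m, val_vx, val_vy]
  unfold f_g2b
  push_cast
  ring

/-- real function of g3b -/
noncomputable def f_g3b (x y t : ℝ) : ℝ := ((((((-872406463) / 100000000000) + ((1227089 / 100000000000) * ((1 - ((2 / 5) * x)) + (1 - ((2 / 5) * y))))) * f_eD2 x y t) + ((629703123 / 50000000000) * f_eDd x y t)) + (((-13352079) / 50000000000) * (f_eDd x y t * f_eD2 x y t))) - f_eQb x y t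

theorem v_g3b (x y t : ℝ) : val g3b x y t = 184754882812500000000000000000000000000000000 * (f_g3b x y t) := by
  simp only [nd0, nd1, nd5, nd6, nd7, nd9, nd12, nd13, nd15, nd16, nd427, nd428, nd429, nd444, nd453, nd454, nd455, nd456, nd457, nd458, nd459, nd466, nd471, nd472, nd473, nd474, nd475, nd476, nd477, g3b, v_eD2, v_eDd, v_eQb, val_f, val_h, val_m, val_vx, val_vy]
  unfold f_g3b
  push_cast
  ring

/-- real function of g4b -/
noncomputable def f_g4b (x y t : ℝ) : ℝ := ((((((-57382079) / 10000000000) + ((65917 / 10000000000) * ((1 - ((2 / 5) * x)) + (1 - ((2 / 5) * y))))) * f_eD2 x y t) + ((167970983 / 20000000000) * f_eDd x y t)) + (((-1652211) / 10000000000) * (f_eDd x y t * f_eD2 x y t))) - f_eQb x y t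

theorem v_g4b (x y t : ℝ) : val g4b x y t = 184754882812500000000000000000000000000000000 * (f_g4b x y t) := by
  simp only [nd0, nd1, nd5, nd6, nd7, nd9, nd12, nd13, nd15, nd16, nd427, nd428, nd429, nd444, nd453, nd454, nd455, nd456, nd457, nd458, nd459, nd466, nd479, nd480, nd481, nd482, nd483, nd484, nd485, g4b, v_eD2, v_eDd, v_eQb, val_f, val_h, val_m, val_vx, val_vy]
  unfold f_g4b
  push_cast
  ring

/-- real function of g5b -/
noncomputable def f_g5b (x y t : ℝ) : ℝ := ((((((-28198151) / 10000000000) + ((29077 / 12500000000) * ((1 - ((2 / 5) * x)) + (1 - ((2 / 5) * y))))) * f_eD2 x y t) + ((419564083 / 100000000000) * f_eDd x y t)) + (((-921789) / 12500000000) * (f_eDd x y t * f_eD2 x y t))) - f_eQb x y t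

theorem v_g5b (x y t : ℝ) : val g5b x y t = 184754882812500000000000000000000000000000000 * (f_g5b x y t) := by
  simp only [nd0, nd1, nd5, nd6, nd7, nd9, nd12, nd13, nd15, nd16, nd427, nd428, nd429, nd444, nd453, nd454, nd455, nd456, nd457, nd458, nd459, nd466, nd487, nd488, nd489, nd490, nd491, nd492, nd493, g5b, v_eD2, v_eDd, v_eQb, val_f, val_h, val_m, val_vx, val_vy]
  unfold f_g5b
  push_cast
  ring

/-- parameters -/
def P0 : Par := ⟨601, 14, 14, 11, 1024, 1024, 2560, 2048, 2048, 2560⟩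

theorem hP0 : chkPar P0 g0a = true := by decide +kernel

/-- parameters -/
def P1 : Par := ⟨714, 18, 18, 12, 1024, 1024, 2560, 2048, 2048, 2560⟩

theorem hP1 : chkPar P1 g1b = true := by decide +kernel

/-- parameters -/
def P2 : Par := ⟨714, 18, 18, 12, 1024, 1024, 2560, 2048, 2048, 2560⟩

theorem hP2 : chkPar P2 g2b = true := by decide +kernel

/-- parameters -/
def P3 : Par := ⟨714, 18, 18, 12, 1024, 1024, 2560, 2048, 2048, 2560⟩

theorem hP3 : chkPar P3 g3b = true := by decide +kernel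

/-- parameters -/
def P4 : Par := ⟨714, 18, 18, 12, 1024, 1024, 2560, 2048, 2048, 2560⟩

theorem hP4 : chkPar P4 g4b = true := by decide +kernel

/-- parameters -/
def P5 : Par := ⟨714, 18, 18, 12, 1024, 1024, 2560, 2048, 2048, 2560⟩

theorem hP5 : chkPar P5 g5b = true := by decide +kernel

/-- kinds -/
def ks (k : ℕ) : Par × Ex :=
  match k with
  | 0 => (P0, g0a)
  | 1 => (P1, g1b)
  | 2 => (P2, g2b)
  | 3 => (P3, g3b)
  | 4 => (P4, g4b)
  | _ => (P5, g5b)

lemma hks : ∀ k < 6, chkPar (ks k).1 (ks k).2 = true := by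
  intro k hk
  interval_cases k
  · exact hP0
  · exact hP1
  · exact hP2
  · exact hP3
  · exact hP4
  · exact hP5

/-- subtree -/
def T0 : Tm := (.sy 256 (.sx 128 (.sy 128 (.st 1152 (.lf 3) (.sx 64 (.sy 64 (.st 1216 (.lf 1) (.sx 32 (.lf 1) (.lf 2))) (.lf 2)) (.lf 2))) (.lf 3)) (.sy 128 (.lf 3) (.lf 4))) (.sx 128 .sk (.lf 5)))
theorem hT0 : chkTm ks 6 1024 1024 2560 T0 ⟨0, 256, 0, 512, 1024, 1280⟩ = true := by decide +kernel
/-- subtree -/
def T1 : Tm := (.sy 256 (.sx 384 (.lf 4) (.lf 5)) (.lf 0))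
theorem hT1 : chkTm ks 6 1024 1024 2560 T1 ⟨256, 512, 0, 512, 1024, 1280⟩ = true := by decide +kernel
/-- subtree -/
def T2 : Tm := .sx 256 T0 T1
theorem hT2 : chkTm ks 6 1024 1024 2560 T2 ⟨0, 512, 0, 512, 1024, 1280⟩ = true := gluem_x hT0 hT1
/-- subtree -/
def T3 : Tm := (.sx 256 .sk (.lf 0))
theorem hT3 : chkTm ks 6 1024 1024 2560 T3 ⟨0, 512, 512, 1024, 1024, 1280⟩ = true := by decide +kernel
/-- subtree -/
def T4 : Tm := .sy 512 T2 T3
theorem hT4 : chkTm ks 6 1024 1024 2560 T4 ⟨0, 512, 0, 1024, 1024, 1280⟩ = true := gluem_y hT2 hT3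
/-- subtree -/
def T5 : Tm := (.sy 512 (.sx 768 (.sy 256 (.sx 640 (.sy 128 (.st 1152 (.lf 0) (.sx 576 (.lf 5) (.lf 0))) (.lf 0)) (.lf 0)) (.lf 0)) (.lf 0)) (.lf 0))
theorem hT5 : chkTm ks 6 1024 1024 2560 T5 ⟨512, 1024, 0, 1024, 1024, 1280⟩ = true := by decide +kernel
/-- subtree -/
def T6 : Tm := .sx 512 T4 T5
theorem hT6 : chkTm ks 6 1024 1024 2560 T6 ⟨0, 1024, 0, 1024, 1024, 1280⟩ = true := gluem_x hT4 hT5

theorem cover (x y t : ℝ) (hyx : y ≤ x) (hx0 : 0 ≤ x) (hx1 : x ≤ 1)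
    (hy0 : 0 ≤ y) (hy1 : y ≤ 1)
    (ht0 : (2 / 5) ≤ t) (ht1 : t ≤ (1 / 2)) :
    ∃ k < 6, 0 ≤ val (ks k).2 x y t := by
  refine chkTm_sound ks 6 1024 1024 2560 (by norm_num) (by norm_num) hks T6 ⟨0, 1024, 0, 1024, 1024, 1280⟩ hT6 x y t hyx
    ?_ ?_ ?_ ?_ ?_ ?_ <;> push_cast <;> linarith

theorem good (x y t : ℝ) (hx : x ≤ 1) (hy : y ≤ 1) (h : ∃ k < 6, 0 ≤ val (ks k).2 x y t) :
    PG.Good (K3 x y t) x y t := by
  obtain ⟨k, hk, h⟩ := h
  have hr : 0 ≤ (1 - x) ^ 3 * (1 - y) ^ 3 :=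
    mul_nonneg (pow_nonneg (by linarith) 3) (pow_nonneg (by linarith) 3)
  interval_cases k
  · have h1 : 0 ≤ val g0a x y t := h
    rw [v_g0a] at h1
    have h2 : 0 ≤ f_g0a x y t := nonneg_of_mul_nonneg_right h1 (by norm_num)
    refine (Or.inl) ?_
    unfold f_g0a at h2
    rw [KTx] at h2
    unfold K3
    exact mul_nonpos_of_nonneg_of_nonpos hr (by linarith)
  · have h1 : 0 ≤ val g1b x y t := h
    rw [v_g1b] at h1
    have h2 : 0 ≤ f_g1b x y t := nonneg_of_mul_nonneg_right h1 (by norm_num)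
    refine (Or.inr ∘ Or.inl) ?_
    unfold f_g1b f_eQb at h2
    simp only [K3x, D2x, DDx] at h2
    unfold PG.L0
    linarith
  · have h1 : 0 ≤ val g2b x y t := h
    rw [v_g2b] at h1
    have h2 : 0 ≤ f_g2b x y t := nonneg_of_mul_nonneg_right h1 (by norm_num)
    refine (Or.inr ∘ Or.inr ∘ Or.inl) ?_
    unfold f_g2b f_eQb at h2
    simp only [K3x, D2x, DDx] at h2
    unfold PG.LL
    linarith
  · have h1 : 0 ≤ val g3b x y t := h
    rw [v_g3b] at h1
    have h2 : 0 ≤ f_g3b x y t := nonneg_of_mul_nonneg_right h1 (by norm_num)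
    refine (Or.inr ∘ Or.inr ∘ Or.inr ∘ Or.inl) ?_
    unfold f_g3b f_eQb at h2
    simp only [K3x, D2x, DDx] at h2
    unfold PG.LL
    linarith
  · have h1 : 0 ≤ val g4b x y t := h
    rw [v_g4b] at h1
    have h2 : 0 ≤ f_g4b x y t := nonneg_of_mul_nonneg_right h1 (by norm_num)
    refine (Or.inr ∘ Or.inr ∘ Or.inr ∘ Or.inr ∘ Or.inl) ?_
    unfold f_g4b f_eQb at h2
    simp only [K3x, D2x, DDx] at h2
    unfold PG.LL
    linarith
  · have h1 : 0 ≤ val g5b x y t := h
    rw [v_g5b] at h1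
    have h2 : 0 ≤ f_g5b x y t := nonneg_of_mul_nonneg_right h1 (by norm_num)
    refine (Or.inr ∘ Or.inr ∘ Or.inr ∘ Or.inr ∘ Or.inr) ?_
    unfold f_g5b f_eQb at h2
    simp only [K3x, D2x, DDx] at h2
    unfold PG.LL
    linarith

/-- All points of the region (both orders of `x, y`). -/
theorem region (x y t : ℝ) (hx0 : 0 ≤ x) (hx1 : x ≤ 1)
    (hy0 : 0 ≤ y) (hy1 : y ≤ 1)
    (ht0 : (2 / 5) ≤ t) (ht1 : t ≤ (1 / 2)) :
    PG.Good (K3 x y t) x y t := by
  rcases le_total y x with h | h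
  · exact good x y t (by linarith) (by linarith)
      (cover x y t h (by linarith) (by linarith) (by linarith) (by linarith) ht0 ht1)
  · have h1 := good y x t (by linarith) (by linarith)
      (cover y x t h (by linarith) (by linarith) (by linarith) (by linarith) ht0 ht1)
    rw [K3_symm y x] at h1
    have h2 := PG.Good_symm h1
    exact h2

end Pool.Agent.Lib.MP_f1379f_gt.FV.CU.br
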