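import Pool.Agent.Lib.MP_f1379f_gt.FV.CVV

/-!
# box check, region l
-/

set_option autoImplicit false
set_option linter.unusedVariables false
set_option linter.unusedSimpArgs false
set_option linter.unusedTactic false
set_option linter.style.longLine false
set_option maxRecDepth 100000

namespace Pool.Agent.Lib.MP_f1379f_gt.FV.CU.lr

open Finset Pool.Agent.Lib.MP_f1379f_gt.FV Pool.Agent.Lib.MP_f1379f_gt.FV.BCH Pool.Agent.Lib.MP_f1379f_gt.FV.CU Pool.Agent.Lib.MP_f1379f_gt.FV.CU.L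

/-- node -/
def g0l : Ex := .f (-1) eS11 0 eS11

/-- real function of g0l -/
noncomputable def f_g0l (x y t : ℝ) : ℝ := -f_eS11 x y t

theorem v_g0l (x y t : ℝ) : val g0l x y t = 59121562500000000000000000000000000000000000 * (f_g0l x y t) := by
  simp only [g0l, v_eS11, val_f]
  unfold f_g0l
  push_cast
  ring

/-- parameters -/
def P0 : Par := ⟨520, 14, 14, 11, 256, 256, 256, 512, 512, 512⟩

theorem hP0 : chkPar P0 g0l = true := by decide +kernel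

/-- kinds -/
def ks (k : ℕ) : Par × Ex :=
  match k with
  | _ => (P0, g0l)

lemma hks : ∀ k < 1, chkPar (ks k).1 (ks k).2 = true := by
  intro k hk
  interval_cases k
  · exact hP0

/-- subtree -/
def T0 : Tm := (.sy 128 (.st 32 (.lf 0) (.lf 0)) (.st 32 (.sx 64 .sk (.sy 192 (.lf 0) .sk)) (.sx 64 .sk (.sy 192 (.lf 0) .sk))))
theorem hT0 : chkTm ks 1 256 256 256 T0 ⟨0, 128, 0, 256, 0, 64⟩ = true := by decide +kernel
/-- subtree -/
def T1 : Tm := (.sx 192 (.sy 64 (.lf 0) (.lf 0)) (.sy 64 (.lf 0) (.st 16 (.lf 0) (.sx 224 (.lf 0) (.lf 0)))))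
theorem hT1 : chkTm ks 1 256 256 256 T1 ⟨128, 256, 0, 128, 0, 32⟩ = true := by decide +kernel
/-- subtree -/
def T2 : Tm := (.sx 192 (.sy 64 (.lf 0) (.lf 0)) (.sy 64 (.lf 0) (.st 48 (.sx 224 (.lf 0) (.lf 0)) (.sx 224 (.sy 96 (.lf 0) (.lf 0)) (.lf 0)))))
theorem hT2 : chkTm ks 1 256 256 256 T2 ⟨128, 256, 0, 128, 32, 64⟩ = true := by decide +kernel
/-- subtree -/
def T3 : Tm := .st 32 T1 T2
theorem hT3 : chkTm ks 1 256 256 256 T3 ⟨128, 256, 0, 128, 0, 64⟩ = true := gluem_t hT1 hT2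
/-- subtree -/
def T4 : Tm := (.sx 192 (.sy 192 (.st 16 (.lf 0) (.sx 160 (.lf 0) (.lf 0))) (.st 16 (.lf 0) (.lf 0))) (.sy 192 (.st 16 (.lf 0) (.lf 0)) (.lf 0)))
theorem hT4 : chkTm ks 1 256 256 256 T4 ⟨128, 256, 128, 256, 0, 32⟩ = true := by decide +kernel
/-- subtree -/
def T5 : Tm := (.sx 192 (.sy 192 (.st 48 (.sx 160 (.sy 160 (.lf 0) (.lf 0)) (.sy 160 (.lf 0) (.lf 0))) (.sx 160 (.sy 160 (.lf 0) (.lf 0)) (.sy 160 (.lf 0) (.lf 0)))) (.lf 0)) (.sy 192 (.lf 0) (.lf 0)))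
theorem hT5 : chkTm ks 1 256 256 256 T5 ⟨128, 256, 128, 256, 32, 64⟩ = true := by decide +kernel
/-- subtree -/
def T6 : Tm := .st 32 T4 T5
theorem hT6 : chkTm ks 1 256 256 256 T6 ⟨128, 256, 128, 256, 0, 64⟩ = true := gluem_t hT4 hT5
/-- subtree -/
def T7 : Tm := .sy 128 T3 T6
theorem hT7 : chkTm ks 1 256 256 256 T7 ⟨128, 256, 0, 256, 0, 64⟩ = true := gluem_y hT3 hT6
/-- subtree -/
def T8 : Tm := .sx 128 T0 T7
theorem hT8 : chkTm ks 1 256 256 256 T8 ⟨0, 256, 0, 256, 0, 64⟩ = true := gluem_x hT0 hT7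
/-- subtree -/
def T9 : Tm := (.sy 128 (.lf 0) (.st 96 (.sx 64 .sk (.sy 192 (.st 80 (.lf 0) (.lf 0)) .sk)) (.sx 64 .sk (.sy 192 (.lf 0) .sk))))
theorem hT9 : chkTm ks 1 256 256 256 T9 ⟨0, 128, 0, 256, 64, 128⟩ = true := by decide +kernel
/-- subtree -/
def T10 : Tm := (.st 96 (.sx 192 (.sy 64 (.lf 0) (.st 80 (.lf 0) (.lf 0))) (.sy 64 (.lf 0) (.st 80 (.sx 224 (.lf 0) (.lf 0)) (.lf 0)))) (.sx 192 (.lf 0) (.lf 0)))
theorem hT10 : chkTm ks 1 256 256 256 T10 ⟨128, 256, 0, 128, 64, 128⟩ = true := by decide +kernel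
/-- subtree -/
def T11 : Tm := (.st 96 (.sx 192 (.sy 192 (.st 80 (.sx 160 (.sy 160 (.lf 0) (.lf 0)) (.lf 0)) (.lf 0)) (.lf 0)) (.lf 0)) (.lf 0))
theorem hT11 : chkTm ks 1 256 256 256 T11 ⟨128, 256, 128, 256, 64, 128⟩ = true := by decide +kernel
/-- subtree -/
def T12 : Tm := .sy 128 T10 T11
theorem hT12 : chkTm ks 1 256 256 256 T12 ⟨128, 256, 0, 256, 64, 128⟩ = true := gluem_y hT10 hT11
/-- subtree -/
def T13 : Tm := .sx 128 T9 T12
theorem hT13 : chkTm ks 1 256 256 256 T13 ⟨0, 256, 0, 256, 64, 128⟩ = true := gluem_x hT9 hT12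
/-- subtree -/
def T14 : Tm := .st 64 T8 T13
theorem hT14 : chkTm ks 1 256 256 256 T14 ⟨0, 256, 0, 256, 0, 128⟩ = true := gluem_t hT8 hT13
/-- subtree -/
def T15 : Tm := (.sx 128 (.sy 128 (.lf 0) (.lf 0)) (.lf 0))
theorem hT15 : chkTm ks 1 256 256 256 T15 ⟨0, 256, 0, 256, 128, 192⟩ = true := by decide +kernel
/-- subtree -/
def T16 : Tm := (.sx 64 (.sy 64 (.st 208 (.lf 0) (.sx 32 (.lf 0) (.lf 0))) (.lf 0)) (.lf 0))
theorem hT16 : chkTm ks 1 256 256 256 T16 ⟨0, 128, 0, 128, 192, 224⟩ = true := by decide +kernel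
/-- subtree -/
def T17 : Tm := (.sx 32 (.sy 32 (.lf 0) (.lf 0)) (.sy 32 (.lf 0) (.st 232 (.sx 48 (.lf 0) (.lf 0)) (.sx 48 (.sy 48 (.lf 0) (.lf 0)) (.lf 0)))))
theorem hT17 : chkTm ks 1 256 256 256 T17 ⟨0, 64, 0, 64, 224, 240⟩ = true := by decide +kernel
/-- subtree -/
def T18 : Tm := (.sx 32 (.sy 32 (.lf 0) (.lf 0)) (.sy 32 (.lf 0) (.st 248 (.sx 48 (.sy 48 (.lf 0) (.lf 0)) (.lf 0)) (.sx 48 (.sy 48 (.lf 0) (.lf 0)) (.lf 0)))))
theorem hT18 : chkTm ks 1 256 256 256 T18 ⟨0, 64, 0, 64, 240, 256⟩ = true := by decide +kernel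
/-- subtree -/
def T19 : Tm := .st 240 T17 T18
theorem hT19 : chkTm ks 1 256 256 256 T19 ⟨0, 64, 0, 64, 224, 256⟩ = true := gluem_t hT17 hT18
/-- subtree -/
def T20 : Tm := (.lf 0)
theorem hT20 : chkTm ks 1 256 256 256 T20 ⟨0, 64, 64, 128, 224, 256⟩ = true := by decide +kernel
/-- subtree -/
def T21 : Tm := .sy 64 T19 T20
theorem hT21 : chkTm ks 1 256 256 256 T21 ⟨0, 64, 0, 128, 224, 256⟩ = true := gluem_y hT19 hT20
/-- subtree -/
def T22 : Tm := (.lf 0)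
theorem hT22 : chkTm ks 1 256 256 256 T22 ⟨64, 128, 0, 128, 224, 256⟩ = true := by decide +kernel
/-- subtree -/
def T23 : Tm := .sx 64 T21 T22
theorem hT23 : chkTm ks 1 256 256 256 T23 ⟨0, 128, 0, 128, 224, 256⟩ = true := gluem_x hT21 hT22
/-- subtree -/
def T24 : Tm := .st 224 T16 T23
theorem hT24 : chkTm ks 1 256 256 256 T24 ⟨0, 128, 0, 128, 192, 256⟩ = true := gluem_t hT16 hT23
/-- subtree -/
def T25 : Tm := (.lf 0)
theorem hT25 : chkTm ks 1 256 256 256 T25 ⟨0, 128, 128, 256, 192, 256⟩ = true := by decide +kernel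
/-- subtree -/
def T26 : Tm := .sy 128 T24 T25
theorem hT26 : chkTm ks 1 256 256 256 T26 ⟨0, 128, 0, 256, 192, 256⟩ = true := gluem_y hT24 hT25
/-- subtree -/
def T27 : Tm := (.lf 0)
theorem hT27 : chkTm ks 1 256 256 256 T27 ⟨128, 256, 0, 256, 192, 256⟩ = true := by decide +kernel
/-- subtree -/
def T28 : Tm := .sx 128 T26 T27
theorem hT28 : chkTm ks 1 256 256 256 T28 ⟨0, 256, 0, 256, 192, 256⟩ = true := gluem_x hT26 hT27
/-- subtree -/
def T29 : Tm := .st 192 T15 T28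
theorem hT29 : chkTm ks 1 256 256 256 T29 ⟨0, 256, 0, 256, 128, 256⟩ = true := gluem_t hT15 hT28
/-- subtree -/
def T30 : Tm := .st 128 T14 T29
theorem hT30 : chkTm ks 1 256 256 256 T30 ⟨0, 256, 0, 256, 0, 256⟩ = true := gluem_t hT14 hT29

theorem cover (x y t : ℝ) (hyx : y ≤ x) (hx0 : 0 ≤ x) (hx1 : x ≤ 1)
    (hy0 : 0 ≤ y) (hy1 : y ≤ 1)
    (ht0 : 0 ≤ t) (ht1 : t ≤ 1) :
    ∃ k < 1, 0 ≤ val (ks k).2 x y t := by
  refine chkTm_sound ks 1 256 256 256 (by norm_num) (by norm_num) hks T30 ⟨0, 256, 0, 256, 0, 256⟩ hT30 x y t hyx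
    ?_ ?_ ?_ ?_ ?_ ?_ <;> push_cast <;> linarith

theorem good (x y t : ℝ) (hx : x ≤ 1) (hy : y ≤ 1) (h : ∃ k < 1, 0 ≤ val (ks k).2 x y t) :
    PG.Good (K3 x y (TL x y t)) x y (TL x y t) := by
  obtain ⟨k, hk, h⟩ := h
  have hr : 0 ≤ (1 - x) ^ 3 * (1 - y) ^ 3 :=
    mul_nonneg (pow_nonneg (by linarith) 3) (pow_nonneg (by linarith) 3)
  interval_cases k
  · have h1 : 0 ≤ val g0l x y t := h
    rw [v_g0l] at h1
    have h2 : 0 ≤ f_g0l x y t := nonneg_of_mul_nonneg_right h1 (by norm_num)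
    refine (Or.inl) ?_
    unfold f_g0l at h2
    rw [KTx] at h2
    unfold K3
    exact mul_nonpos_of_nonneg_of_nonpos hr (by linarith)

/-- All points of the region (both orders of `x, y`). -/
theorem region (x y t : ℝ) (hx0 : 0 ≤ x) (hx1 : x ≤ 1)
    (hy0 : 0 ≤ y) (hy1 : y ≤ 1)
    (ht0 : 0 ≤ t) (ht1 : t ≤ 1) :
    PG.Good (K3 x y (TL x y t)) x y (TL x y t) := by
  rcases le_total y x with h | h
  · exact good x y t (by linarith) (by linarith)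
      (cover x y t h (by linarith) (by linarith) (by linarith) (by linarith) ht0 ht1)
  · have h1 := good y x t (by linarith) (by linarith)
      (cover y x t h (by linarith) (by linarith) (by linarith) (by linarith) ht0 ht1)
    rw [K3_symm y x, TL_symm y x] at h1
    have h2 := PG.Good_symm h1
    exact h2

end Pool.Agent.Lib.MP_f1379f_gt.FV.CU.lr
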