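import Pool.Agent.Lib.MP_f1379f_gt.FV.CUa
import Pool.Agent.Lib.MP_f1379f_gt.FV.CUb
import Pool.Agent.Lib.MP_f1379f_gt.FV.CUl
import Pool.Agent.Lib.MP_f1379f_gt.FV.CUVn
import Pool.Agent.Lib.MP_f1379f_gt.FV.CUVf
import Pool.Agent.Lib.MP_f1379f_gt.FV.CEX

/-!
# MP_f1379f_gt, full Q1: certificate (C_U)
-/

set_option autoImplicit false
set_option linter.style.longLine false
set_option linter.unusedSimpArgs false

namespace Pool.Agent.Lib.MP_f1379f_gt.FV

open MeasureTheory Finset

namespace CU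

/-- All points of the domain. -/
theorem good_all (x y T : ℝ) (hx0 : 0 ≤ x) (hx1 : x ≤ 1) (hy0 : 0 ≤ y) (hy1 : y ≤ 1)
    (hlo : -1 + (x + y) / 5 + 2 / 25 * x * y ≤ T) (hhi : T ≤ 1 / 2) :
    PG.Good (K3 x y T) x y T := by
  have hxy : x * y ≤ 1 := by nlinarith
  have hxy0 : 0 ≤ x * y := mul_nonneg hx0 hy0
  rcases le_total T (2 / 5) with h1 | h1
  · rcases le_total T (-1 / 2) with h2 | h2
    · have hden : 0 < 1 / 2 - 1 / 5 * (x + y) - 2 / 25 * (x * y) := by linarith
      obtain ⟨v, hv⟩ : ∃ v, v = (-1 / 2 - T) / (1 / 2 - 1 / 5 * (x + y) - 2 / 25 * (x * y)) :=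
        ⟨_, rfl⟩
      have hv0 : 0 ≤ v := by
        rw [hv]; exact div_nonneg (by linarith) hden.le
      have hv1 : v ≤ 1 := by
        rw [hv, div_le_one hden]; linarith
      have hT : L.TL x y v = T := by
        unfold L.TL
        rw [hv, div_mul_cancel₀ _ hden.ne']
        ring
      have := lr.region x y v (by linarith) (by linarith) (by linarith) (by linarith) (by linarith) (by linarith)
      rw [hT] at this
      exact this
    · exact ar.region x y T (by linarith) (by linarith) (by linarith) (by linarith) (by linarith) (by linarith)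
  · exact br.region x y T (by linarith) (by linarith) (by linarith) (by linarith) (by linarith) (by linarith)

/-- The one-body inequality. -/
theorem one (x : ℝ) (hx0 : 0 ≤ x) (hx1 : x < 1) :
    (1 - x) ^ 3 * PW.VV x + 1 / 2 * ((1 - x) ^ 6 *
      Kt 11 4 cA x x (1 - 2 / 5 * x) ((1 - 2 / 5 * x) * (1 - 2 / 5 * x))) +
        (if x < 13 / 20 then 88 / 10000 else 0) ≤
      240 * ((1 - x) ^ 3 * ∑ i ∈ range 4, cA 0 i 0 * x ^ i) := by
  split_ifs with h
  · have h1 := Vnr.region x (by linarith) (by linarith)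
    linarith
  · have h1 := Vfr.region x (by linarith) (by linarith)
    have h2 : (1 - x) ^ 3 * (PW.VV x + 1 / 2 * ((1 - x) ^ 3 *
        Kt 11 4 cA x x (1 - 2 / 5 * x) ((1 - 2 / 5 * x) * (1 - 2 / 5 * x)))) ≤
        (1 - x) ^ 3 * (240 * ∑ i ∈ range 4, cA 0 i 0 * x ^ i) :=
      mul_le_mul_of_nonneg_left h1 (pow_nonneg (by linarith) 3)
    have e1 : (1 - x) ^ 6 = (1 - x) ^ 3 * (1 - x) ^ 3 := by ring
    rw [e1]
    linarith

end CU

open CU in
/-- **Certificate (C_U)**: at most 240 points with `rr > 7/20` if the cell is small. -/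
theorem certCU (U : Finset E) (hU : Adm U) :
    ((volume bal).toReal - 240 * (801889 / 10 ^ 7) + 6720 * (5833 / 10 ^ 7))
      + 88 / 10000 * (((U.filter fun u => 7 / 20 < rr u).card : ℝ) - 240) ≤ W2F U := by
  have h := asm U hU 11 4 4 cw cL cw_nonneg cA (fun _ _ _ => rfl)
    (fun u => if 7 / 20 < rr u then 88 / 10000 else 0) (fun _ _ => 0)
    (by
      intro u _ v _ _ x y T c
      have h1 := good_all x y T c.x0 c.x1.le c.y0 c.y1.le c.lo c.hi
      unfold K3 Ktx at h1
      rw [add_zero]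
      exact h1)
    (by intro u _ v _ _ _; exact le_refl _)
    (by
      intro u _ x hx hx0 hx1
      have h1 := one x hx0 hx1
      have h2 : (7 / 20 < rr u) ↔ x < 13 / 20 := by rw [hx]; constructor <;> intro h <;> linarith
      simp only [h2]
      exact h1)
    (by
      intro u _ hu
      rw [if_neg (by rw [hu]; norm_num)])
  have h0 : 28800 * cA 0 0 0 = 240 * (801889 / 10 ^ 7) - 6720 * (5833 / 10 ^ 7)
      + 240 * (88 / 10000) := by
    unfold cA
    simp only [sum_range_succ, sum_range_zero, cw, cL, cL0]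
    norm_num
  rw [h0, ← sum_filter, sum_const, nsmul_eq_mul] at h
  simp only [sum_const_zero, mul_zero, add_zero] at h
  linarith

end Pool.Agent.Lib.MP_f1379f_gt.FV
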