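import Pool.Agent.Lib.MP_f1379f_gt.FV.CK2U

/-!
# box check, region l
-/

set_option autoImplicit false
set_option linter.unusedVariables false
set_option linter.unusedSimpArgs false
set_option linter.unusedTactic false
set_option linter.style.longLine false
set_option maxRecDepth 100000

namespace Pool.Agent.Lib.MP_f1379f_gt.FV.CV.lr

open Finset Pool.Agent.Lib.MP_f1379f_gt.FV Pool.Agent.Lib.MP_f1379f_gt.FV.BCH Pool.Agent.Lib.MP_f1379f_gt.FV.CV Pool.Agent.Lib.MP_f1379f_gt.FV.CV.L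

/-- node -/
def g0l : Ex := .f (-1) eS11 0 eS11

/-- real function of g0l -/
noncomputable def f_g0l (x y t : ℝ) : ℝ := -f_eS11 x y t

theorem v_g0l (x y t : ℝ) : val g0l x y t = 177364687500000000000000000000000000000000000 * (f_g0l x y t) := by
  simp only [g0l, v_eS11, val_f]
  unfold f_g0l
  push_cast
  ring

/-- parameters -/
def P0 : Par := ⟨522, 14, 14, 11, 256, 256, 256, 512, 512, 512⟩

theorem hP0 : chkPar P0 g0l = true := by decide +kernel

/-- kinds -/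
def ks (k : ℕ) : Par × Ex :=
  match k with
  | _ => (P0, g0l)

lemma hks : ∀ k < 1, chkPar (ks k).1 (ks k).2 = true := by
  intro k hk
  interval_cases k
  · exact hP0

/-- subtree -/
def T0 : Tm := (.st 64 (.sx 128 (.sy 128 (.lf 0) (.lf 0)) (.sy 128 (.lf 0) (.lf 0))) (.sx 128 (.sy 128 (.lf 0) (.lf 0)) (.sy 128 (.lf 0) (.lf 0))))
theorem hT0 : chkTm ks 1 256 256 256 T0 ⟨0, 256, 0, 256, 0, 128⟩ = true := by decide +kernel
/-- subtree -/
def T1 : Tm := (.sx 128 (.sy 128 (.st 160 (.lf 0) (.sx 64 (.sy 64 (.lf 0) (.lf 0)) (.lf 0))) (.lf 0)) (.sy 128 (.lf 0) (.lf 0)))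
theorem hT1 : chkTm ks 1 256 256 256 T1 ⟨0, 256, 0, 256, 128, 192⟩ = true := by decide +kernel
/-- subtree -/
def T2 : Tm := (.sx 64 (.sy 64 (.st 208 (.lf 0) (.sx 32 (.lf 0) (.lf 0))) (.lf 0)) (.sy 64 (.lf 0) (.lf 0)))
theorem hT2 : chkTm ks 1 256 256 256 T2 ⟨0, 128, 0, 128, 192, 224⟩ = true := by decide +kernel
/-- subtree -/
def T3 : Tm := (.sx 64 (.sy 64 (.st 240 (.sx 32 (.sy 32 (.lf 0) (.lf 0)) (.lf 0)) (.sx 32 (.sy 32 (.lf 0) (.lf 0)) (.lf 0))) (.lf 0)) (.sy 64 (.lf 0) (.lf 0)))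
theorem hT3 : chkTm ks 1 256 256 256 T3 ⟨0, 128, 0, 128, 224, 256⟩ = true := by decide +kernel
/-- subtree -/
def T4 : Tm := .st 224 T2 T3
theorem hT4 : chkTm ks 1 256 256 256 T4 ⟨0, 128, 0, 128, 192, 256⟩ = true := gluem_t hT2 hT3
/-- subtree -/
def T5 : Tm := (.lf 0)
theorem hT5 : chkTm ks 1 256 256 256 T5 ⟨0, 128, 128, 256, 192, 256⟩ = true := by decide +kernel
/-- subtree -/
def T6 : Tm := .sy 128 T4 T5
theorem hT6 : chkTm ks 1 256 256 256 T6 ⟨0, 128, 0, 256, 192, 256⟩ = true := gluem_y hT4 hT5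
/-- subtree -/
def T7 : Tm := (.lf 0)
theorem hT7 : chkTm ks 1 256 256 256 T7 ⟨128, 256, 0, 256, 192, 256⟩ = true := by decide +kernel
/-- subtree -/
def T8 : Tm := .sx 128 T6 T7
theorem hT8 : chkTm ks 1 256 256 256 T8 ⟨0, 256, 0, 256, 192, 256⟩ = true := gluem_x hT6 hT7
/-- subtree -/
def T9 : Tm := .st 192 T1 T8
theorem hT9 : chkTm ks 1 256 256 256 T9 ⟨0, 256, 0, 256, 128, 256⟩ = true := gluem_t hT1 hT8
/-- subtree -/
def T10 : Tm := .st 128 T0 T9
theorem hT10 : chkTm ks 1 256 256 256 T10 ⟨0, 256, 0, 256, 0, 256⟩ = true := gluem_t hT0 hT9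

theorem cover (x y t : ℝ) (hyx : y ≤ x) (hx0 : 0 ≤ x) (hx1 : x ≤ 1)
    (hy0 : 0 ≤ y) (hy1 : y ≤ 1)
    (ht0 : 0 ≤ t) (ht1 : t ≤ 1) :
    ∃ k < 1, 0 ≤ val (ks k).2 x y t := by
  refine chkTm_sound ks 1 256 256 256 (by norm_num) (by norm_num) hks T10 ⟨0, 256, 0, 256, 0, 256⟩ hT10 x y t hyx
    ?_ ?_ ?_ ?_ ?_ ?_ <;> push_cast <;> linarith

theorem good (x y t : ℝ) (hx : x ≤ 1) (hy : y ≤ 1) (h : ∃ k < 1, 0 ≤ val (ks k).2 x y t) :
    PG.Good (K3 x y (TL x y t)) x y (TL x y t) := by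
  obtain ⟨k, hk, h⟩ := h
  have hr : 0 ≤ (1 - x) ^ 3 * (1 - y) ^ 3 :=
    mul_nonneg (pow_nonneg (by linarith) 3) (pow_nonneg (by linarith) 3)
  interval_cases k
  · have h1 : 0 ≤ val g0l x y t := h
    rw [v_g0l] at h1
    have h2 : 0 ≤ f_g0l x y t := nonneg_of_mul_nonneg_right h1 (by norm_num)
    refine (Or.inl) ?_
    unfold f_g0l at h2
    rw [KTx] at h2
    unfold K3
    exact mul_nonpos_of_nonneg_of_nonpos hr (by linarith)

/-- All points of the region (both orders of `x, y`). -/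
theorem region (x y t : ℝ) (hx0 : 0 ≤ x) (hx1 : x ≤ 1)
    (hy0 : 0 ≤ y) (hy1 : y ≤ 1)
    (ht0 : 0 ≤ t) (ht1 : t ≤ 1) :
    PG.Good (K3 x y (TL x y t)) x y (TL x y t) := by
  rcases le_total y x with h | h
  · exact good x y t (by linarith) (by linarith)
      (cover x y t h (by linarith) (by linarith) (by linarith) (by linarith) ht0 ht1)
  · have h1 := good y x t (by linarith) (by linarith)
      (cover y x t h (by linarith) (by linarith) (by linarith) (by linarith) ht0 ht1)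
    rw [K3_symm y x, TL_symm y x] at h1
    have h2 := PG.Good_symm h1
    exact h2

end Pool.Agent.Lib.MP_f1379f_gt.FV.CV.lr
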