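import Pool.Agent.Lib.MP_f1379f_gt.FV.CK2V

/-!
# box check, region b
-/

set_option autoImplicit false
set_option linter.unusedVariables false
set_option linter.unusedSimpArgs false
set_option linter.unusedTactic false
set_option linter.style.longLine false
set_option maxRecDepth 100000

namespace Pool.Agent.Lib.MP_f1379f_gt.FV.CX.br

open Finset Pool.Agent.Lib.MP_f1379f_gt.FV Pool.Agent.Lib.MP_f1379f_gt.FV.BCH Pool.Agent.Lib.MP_f1379f_gt.FV.CX Pool.Agent.Lib.MP_f1379f_gt.FV.CX.U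

/-- node -/
def g0a : Ex := .f (-1) eS11 0 eS11
/-- node -/
def eQb : Ex := .m eK3 eD2
/-- node -/
def nd441 : Ex := .m eD2 nd16
/-- node -/
def nd442 : Ex := .f 4 eDd (-75) nd441
/-- node -/
def nd443 : Ex := .f 29165000 nd441 8820751 nd442
/-- node -/
def nd444 : Ex := .m nd16 nd16
/-- node -/
def nd445 : Ex := .f 4 eDd (-1875) nd444
/-- node -/
def nd446 : Ex := .m nd445 eD2
/-- node -/
def nd447 : Ex := .m nd443 nd16
/-- node -/
def nd448 : Ex := .f 2500 nd447 (-19391519) nd446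
/-- node -/
def nd449 : Ex := .f 1 nd429 (-10) nd7
/-- node -/
def nd450 : Ex := .m nd449 eD2
/-- node -/
def nd451 : Ex := .m nd450 nd17
/-- node -/
def nd452 : Ex := .f 1 nd448 507235000 nd451
/-- node -/
def nd453 : Ex := .m nd7 nd16
/-- node -/
def nd454 : Ex := .m nd16 nd453
/-- node -/
def nd455 : Ex := .m nd453 nd453
/-- node -/
def nd456 : Ex := .m nd454 nd455
/-- node -/
def nd457 : Ex := .m nd453 nd444
/-- node -/
def nd458 : Ex := .m nd455 nd457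
/-- node -/
def nd459 : Ex := .m nd456 nd458
/-- node -/
def nd460 : Ex := .m nd452 nd459
/-- node -/
def g1b : Ex := .f 88682343750000000000000000000 nd460 (-1) eQb
/-- node -/
def nd462 : Ex := .f (-70004811) nd7 21275 nd429
/-- node -/
def nd463 : Ex := .m nd462 eD2
/-- node -/
def nd464 : Ex := .m nd463 nd9
/-- node -/
def nd465 : Ex := .f 125 nd464 501583833 eDd
/-- node -/
def nd466 : Ex := .m eDd eD2
/-- node -/
def nd467 : Ex := .m nd465 nd16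
/-- node -/
def nd468 : Ex := .f 75 nd467 (-32415616) nd466
/-- node -/
def nd469 : Ex := .m nd468 nd459
/-- node -/
def g2b : Ex := .f 177364687500000000000000000000 nd469 (-1) eQb
/-- node -/
def nd471 : Ex := .f (-4362032315) nd7 1227089 nd429
/-- node -/
def nd472 : Ex := .m nd471 eD2
/-- node -/
def nd473 : Ex := .m nd472 nd9
/-- node -/
def nd474 : Ex := .f 5 nd473 1259406246 eDd
/-- node -/
def nd475 : Ex := .m nd474 nd16
/-- node -/
def nd476 : Ex := .f 25 nd475 (-26704158) nd466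
/-- node -/
def nd477 : Ex := .m nd476 nd459
/-- node -/
def g3b : Ex := .f 177364687500000000000000000000 nd477 (-1) eQb
/-- node -/
def nd479 : Ex := .f (-286910395) nd7 65917 nd429
/-- node -/
def nd480 : Ex := .m nd479 eD2
/-- node -/
def nd481 : Ex := .m nd480 nd9
/-- node -/
def nd482 : Ex := .f 10 nd481 167970983 eDd
/-- node -/
def nd483 : Ex := .m nd482 nd16
/-- node -/
def nd484 : Ex := .f 25 nd483 (-3304422) nd466
/-- node -/
def nd485 : Ex := .m nd484 nd459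
/-- node -/
def g4b : Ex := .f 886823437500000000000000000000 nd485 (-1) eQb
/-- node -/
def nd487 : Ex := .f (-704953775) nd7 116308 nd429
/-- node -/
def nd488 : Ex := .m nd487 eD2
/-- node -/
def nd489 : Ex := .m nd488 nd9
/-- node -/
def nd490 : Ex := .f 10 nd489 419564083 eDd
/-- node -/
def nd491 : Ex := .m nd490 nd16
/-- node -/
def nd492 : Ex := .f 25 nd491 (-7374312) nd466
/-- node -/
def nd493 : Ex := .m nd492 nd459
/-- node -/
def g5b : Ex := .f 177364687500000000000000000000 nd493 (-1) eQb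

/-- real function of g0a -/
noncomputable def f_g0a (x y t : ℝ) : ℝ := -f_eS11 x y t

theorem v_g0a (x y t : ℝ) : val g0a x y t = 11085292968750000000000000000000000000000000 * (f_g0a x y t) := by
  simp only [g0a, v_eS11, val_f]
  unfold f_g0a
  push_cast
  ring

/-- real function of eQb -/
noncomputable def f_eQb (x y t : ℝ) : ℝ := f_eK3 x y t * f_eD2 x y t

theorem v_eQb (x y t : ℝ) : val eQb x y t = 277132324218750000000000000000000000000000000 * (f_eQb x y t) := by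
  simp only [eQb, v_eD2, v_eK3, val_m]
  unfold f_eQb
  push_cast
  ring

/-- real function of g1b -/
noncomputable def f_g1b (x y t : ℝ) : ℝ := (((((5833 / 10000000) * f_eD2 x y t) + ((8820751 / 500000000) * (f_eDd x y t - ((3 / 4) * f_eD2 x y t)))) - ((19391519 / 50000000000) * ((f_eDd x y t - (3 / 4)) * f_eD2 x y t))) + ((101447 / 5000000000) * ((((1 - ((2 / 5) * x)) + (1 - ((2 / 5) * y))) - 2) * f_eD2 x y t))) - f_eQb x y t

theorem v_g1b (x y t : ℝ) : val g1b x y t = 277132324218750000000000000000000000000000000 * (f_g1b x y t) := by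
  simp only [nd0, nd1, nd5, nd6, nd7, nd9, nd12, nd13, nd15, nd16, nd17, nd427, nd428, nd429, nd441, nd442, nd443, nd444, nd445, nd446, nd447, nd448, nd449, nd450, nd451, nd452, nd453, nd454, nd455, nd456, nd457, nd458, nd459, nd460, g1b, v_eD2, v_eDd, v_eQb, val_f, val_h, val_m, val_vx, val_vy]
  unfold f_g1b
  push_cast
  ring

/-- real function of g2b -/
noncomputable def f_g2b (x y t : ℝ) : ℝ := ((((((-210014433) / 20000000000) + ((2553 / 160000000) * ((1 - ((2 / 5) * x)) + (1 - ((2 / 5) * y))))) * f_eD2 x y t) + ((1504751499 / 100000000000) * f_eDd x y t)) + (((-253247) / 781250000) * (f_eDd x y t * f_eD2 x y t))) - f_eQb x y t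

theorem v_g2b (x y t : ℝ) : val g2b x y t = 277132324218750000000000000000000000000000000 * (f_g2b x y t) := by
  simp only [nd0, nd1, nd5, nd6, nd7, nd9, nd12, nd13, nd15, nd16, nd427, nd428, nd429, nd444, nd453, nd454, nd455, nd456, nd457, nd458, nd459, nd462, nd463, nd464, nd465, nd466, nd467, nd468, nd469, g2b, v_eD2, v_eDd, v_eQb, val_f, val_h, val_m, val_vx, val_vy]
  unfold f_g2b
  push_cast
  ring

/-- real function of g3b -/
noncomputable def f_g3b (x y t : ℝ) : ℝ := ((((((-872406463) / 100000000000) + ((1227089 / 100000000000) * ((1 - ((2 / 5) * x)) + (1 - ((2 / 5) * y))))) * f_eD2 x y t) + ((629703123 / 50000000000) * f_eDd x y t)) + (((-13352079) / 50000000000) * (f_eDd x y t * f_eD2 x y t))) - f_eQb x y t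

theorem v_g3b (x y t : ℝ) : val g3b x y t = 277132324218750000000000000000000000000000000 * (f_g3b x y t) := by
  simp only [nd0, nd1, nd5, nd6, nd7, nd9, nd12, nd13, nd15, nd16, nd427, nd428, nd429, nd444, nd453, nd454, nd455, nd456, nd457, nd458, nd459, nd466, nd471, nd472, nd473, nd474, nd475, nd476, nd477, g3b, v_eD2, v_eDd, v_eQb, val_f, val_h, val_m, val_vx, val_vy]
  unfold f_g3b
  push_cast
  ring

/-- real function of g4b -/
noncomputable def f_g4b (x y t : ℝ) : ℝ := ((((((-57382079) / 10000000000) + ((65917 / 10000000000) * ((1 - ((2 / 5) * x)) + (1 - ((2 / 5) * y))))) * f_eD2 x y t) + ((167970983 / 20000000000) * f_eDd x y t)) + (((-1652211) / 10000000000) * (f_eDd x y t * f_eD2 x y t))) - f_eQb x y t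

theorem v_g4b (x y t : ℝ) : val g4b x y t = 277132324218750000000000000000000000000000000 * (f_g4b x y t) := by
  simp only [nd0, nd1, nd5, nd6, nd7, nd9, nd12, nd13, nd15, nd16, nd427, nd428, nd429, nd444, nd453, nd454, nd455, nd456, nd457, nd458, nd459, nd466, nd479, nd480, nd481, nd482, nd483, nd484, nd485, g4b, v_eD2, v_eDd, v_eQb, val_f, val_h, val_m, val_vx, val_vy]
  unfold f_g4b
  push_cast
  ring

/-- real function of g5b -/
noncomputable def f_g5b (x y t : ℝ) : ℝ := ((((((-28198151) / 10000000000) + ((29077 / 12500000000) * ((1 - ((2 / 5) * x)) + (1 - ((2 / 5) * y))))) * f_eD2 x y t) + ((419564083 / 100000000000) * f_eDd x y t)) + (((-921789) / 12500000000) * (f_eDd x y t * f_eD2 x y t))) - f_eQb x y t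

theorem v_g5b (x y t : ℝ) : val g5b x y t = 277132324218750000000000000000000000000000000 * (f_g5b x y t) := by
  simp only [nd0, nd1, nd5, nd6, nd7, nd9, nd12, nd13, nd15, nd16, nd427, nd428, nd429, nd444, nd453, nd454, nd455, nd456, nd457, nd458, nd459, nd466, nd487, nd488, nd489, nd490, nd491, nd492, nd493, g5b, v_eD2, v_eDd, v_eQb, val_f, val_h, val_m, val_vx, val_vy]
  unfold f_g5b
  push_cast
  ring

/-- parameters -/
def P0 : Par := ⟨539, 14, 14, 11, 320, 320, 2560, 128, 128, 2560⟩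

theorem hP0 : chkPar P0 g0a = true := by decide +kernel

/-- parameters -/
def P1 : Par := ⟨634, 18, 18, 12, 320, 320, 2560, 128, 128, 2560⟩

theorem hP1 : chkPar P1 g1b = true := by decide +kernel

/-- parameters -/
def P2 : Par := ⟨634, 18, 18, 12, 320, 320, 2560, 128, 128, 2560⟩

theorem hP2 : chkPar P2 g2b = true := by decide +kernel

/-- parameters -/
def P3 : Par := ⟨634, 18, 18, 12, 320, 320, 2560, 128, 128, 2560⟩

theorem hP3 : chkPar P3 g3b = true := by decide +kernel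

/-- parameters -/
def P4 : Par := ⟨634, 18, 18, 12, 320, 320, 2560, 128, 128, 2560⟩

theorem hP4 : chkPar P4 g4b = true := by decide +kernel

/-- parameters -/
def P5 : Par := ⟨634, 18, 18, 12, 320, 320, 2560, 128, 128, 2560⟩

theorem hP5 : chkPar P5 g5b = true := by decide +kernel

/-- kinds -/
def ks (k : ℕ) : Par × Ex :=
  match k with
  | 0 => (P0, g0a)
  | 1 => (P1, g1b)
  | 2 => (P2, g2b)
  | 3 => (P3, g3b)
  | 4 => (P4, g4b)
  | _ => (P5, g5b)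

lemma hks : ∀ k < 6, chkPar (ks k).1 (ks k).2 = true := by
  intro k hk
  interval_cases k
  · exact hP0
  · exact hP1
  · exact hP2
  · exact hP3
  · exact hP4
  · exact hP5

/-- subtree -/
def T0 : Tm := (.sx 32 (.sy 32 (.st 896 (.lf 0) (.sx 16 (.sy 16 (.st 960 (.lf 0) (.lf 5)) (.lf 0)) (.lf 0))) (.lf 0)) (.lf 0))
theorem hT0 : chkTm ks 6 320 320 2560 T0 ⟨0, 64, 0, 64, 768, 1024⟩ = true := by decide +kernel
/-- subtree -/
def T1 : Tm := (.sx 16 (.sy 16 (.st 1088 (.lf 5) (.lf 4)) (.st 1088 (.lf 5) (.lf 4))) (.sy 16 (.st 1088 (.lf 5) (.lf 4)) (.lf 5)))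
theorem hT1 : chkTm ks 6 320 320 2560 T1 ⟨0, 32, 0, 32, 1024, 1152⟩ = true := by decide +kernel
/-- subtree -/
def T2 : Tm := (.sx 8 (.sy 8 (.st 1184 (.lf 4) (.lf 3)) (.st 1184 (.lf 4) (.lf 3))) (.sy 8 (.st 1184 (.lf 4) (.lf 3)) (.st 1184 (.lf 4) (.lf 3))))
theorem hT2 : chkTm ks 6 320 320 2560 T2 ⟨0, 16, 0, 16, 1152, 1216⟩ = true := by decide +kernel
/-- subtree -/
def T3 : Tm := (.lf 2)
theorem hT3 : chkTm ks 6 320 320 2560 T3 ⟨0, 8, 0, 8, 1216, 1248⟩ = true := by decide +kernel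
/-- subtree -/
def T4 : Tm := (.sy 4 (.st 1264 (.lf 2) (.lf 1)) (.st 1264 (.lf 2) (.sx 2 .sk (.sy 6 (.st 1272 (.lf 2) (.lf 1)) .sk))))
theorem hT4 : chkTm ks 6 320 320 2560 T4 ⟨0, 4, 0, 8, 1248, 1280⟩ = true := by decide +kernel
/-- subtree -/
def T5 : Tm := (.st 1264 (.lf 2) (.sx 6 (.sy 2 (.lf 1) (.st 1272 (.lf 2) (.lf 1))) (.sy 2 (.st 1272 (.lf 2) (.lf 1)) (.st 1272 (.lf 2) (.lf 1)))))
theorem hT5 : chkTm ks 6 320 320 2560 T5 ⟨4, 8, 0, 4, 1248, 1280⟩ = true := by decide +kernel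
/-- subtree -/
def T6 : Tm := (.lf 2)
theorem hT6 : chkTm ks 6 320 320 2560 T6 ⟨4, 8, 4, 8, 1248, 1264⟩ = true := by decide +kernel
/-- subtree -/
def T7 : Tm := (.sy 6 (.st 1272 (.lf 2) (.lf 1)) (.st 1272 (.lf 2) (.sx 5 .sk (.sy 7 (.st 1276 (.lf 2) (.lf 1)) .sk))))
theorem hT7 : chkTm ks 6 320 320 2560 T7 ⟨4, 6, 4, 8, 1264, 1280⟩ = true := by decide +kernel
/-- subtree -/
def T8 : Tm := (.sy 6 (.st 1272 (.lf 2) (.sx 7 (.sy 5 (.lf 1) (.st 1276 (.lf 2) (.lf 1))) (.sy 5 (.st 1276 (.lf 2) (.lf 1)) (.lf 2)))) (.lf 2))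
theorem hT8 : chkTm ks 6 320 320 2560 T8 ⟨6, 8, 4, 8, 1264, 1280⟩ = true := by decide +kernel
/-- subtree -/
def T9 : Tm := .sx 6 T7 T8
theorem hT9 : chkTm ks 6 320 320 2560 T9 ⟨4, 8, 4, 8, 1264, 1280⟩ = true := gluem_x hT7 hT8
/-- subtree -/
def T10 : Tm := .st 1264 T6 T9
theorem hT10 : chkTm ks 6 320 320 2560 T10 ⟨4, 8, 4, 8, 1248, 1280⟩ = true := gluem_t hT6 hT9
/-- subtree -/
def T11 : Tm := .sy 4 T5 T10
theorem hT11 : chkTm ks 6 320 320 2560 T11 ⟨4, 8, 0, 8, 1248, 1280⟩ = true := gluem_y hT5 hT10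
/-- subtree -/
def T12 : Tm := .sx 4 T4 T11
theorem hT12 : chkTm ks 6 320 320 2560 T12 ⟨0, 8, 0, 8, 1248, 1280⟩ = true := gluem_x hT4 hT11
/-- subtree -/
def T13 : Tm := .st 1248 T3 T12
theorem hT13 : chkTm ks 6 320 320 2560 T13 ⟨0, 8, 0, 8, 1216, 1280⟩ = true := gluem_t hT3 hT12
/-- subtree -/
def T14 : Tm := (.st 1248 (.lf 3) (.sx 4 .sk (.lf 2)))
theorem hT14 : chkTm ks 6 320 320 2560 T14 ⟨0, 8, 8, 16, 1216, 1280⟩ = true := by decide +kernel
/-- subtree -/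
def T15 : Tm := .sy 8 T13 T14
theorem hT15 : chkTm ks 6 320 320 2560 T15 ⟨0, 8, 0, 16, 1216, 1280⟩ = true := gluem_y hT13 hT14
/-- subtree -/
def T16 : Tm := (.lf 3)
theorem hT16 : chkTm ks 6 320 320 2560 T16 ⟨8, 16, 0, 8, 1216, 1248⟩ = true := by decide +kernel
/-- subtree -/
def T17 : Tm := (.lf 2)
theorem hT17 : chkTm ks 6 320 320 2560 T17 ⟨8, 12, 0, 4, 1248, 1264⟩ = true := by decide +kernel
/-- subtree -/
def T18 : Tm := (.sy 2 (.st 1272 (.lf 2) (.lf 1)) (.st 1272 (.lf 2) (.sx 9 (.sy 3 (.lf 1) (.st 1276 (.lf 2) (.lf 1))) (.sy 3 (.st 1276 (.lf 2) (.lf 1)) (.lf 2)))))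
theorem hT18 : chkTm ks 6 320 320 2560 T18 ⟨8, 10, 0, 4, 1264, 1280⟩ = true := by decide +kernel
/-- subtree -/
def T19 : Tm := (.sy 2 (.st 1272 (.lf 2) (.sx 11 (.sy 1 (.lf 1) (.st 1276 (.lf 2) (.lf 1))) (.sy 1 (.st 1276 (.lf 2) (.lf 1)) (.lf 2)))) (.lf 2))
theorem hT19 : chkTm ks 6 320 320 2560 T19 ⟨10, 12, 0, 4, 1264, 1280⟩ = true := by decide +kernel
/-- subtree -/
def T20 : Tm := .sx 10 T18 T19
theorem hT20 : chkTm ks 6 320 320 2560 T20 ⟨8, 12, 0, 4, 1264, 1280⟩ = true := gluem_x hT18 hT19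
/-- subtree -/
def T21 : Tm := .st 1264 T17 T20
theorem hT21 : chkTm ks 6 320 320 2560 T21 ⟨8, 12, 0, 4, 1248, 1280⟩ = true := gluem_t hT17 hT20
/-- subtree -/
def T22 : Tm := (.lf 2)
theorem hT22 : chkTm ks 6 320 320 2560 T22 ⟨8, 12, 4, 8, 1248, 1280⟩ = true := by decide +kernel
/-- subtree -/
def T23 : Tm := .sy 4 T21 T22
theorem hT23 : chkTm ks 6 320 320 2560 T23 ⟨8, 12, 0, 8, 1248, 1280⟩ = true := gluem_y hT21 hT22
/-- subtree -/
def T24 : Tm := (.lf 2)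
theorem hT24 : chkTm ks 6 320 320 2560 T24 ⟨12, 16, 0, 8, 1248, 1280⟩ = true := by decide +kernel
/-- subtree -/
def T25 : Tm := .sx 12 T23 T24
theorem hT25 : chkTm ks 6 320 320 2560 T25 ⟨8, 16, 0, 8, 1248, 1280⟩ = true := gluem_x hT23 hT24
/-- subtree -/
def T26 : Tm := .st 1248 T16 T25
theorem hT26 : chkTm ks 6 320 320 2560 T26 ⟨8, 16, 0, 8, 1216, 1280⟩ = true := gluem_t hT16 hT25
/-- subtree -/
def T27 : Tm := (.st 1248 (.lf 3) (.lf 2))
theorem hT27 : chkTm ks 6 320 320 2560 T27 ⟨8, 16, 8, 16, 1216, 1280⟩ = true := by decide +kernel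
/-- subtree -/
def T28 : Tm := .sy 8 T26 T27
theorem hT28 : chkTm ks 6 320 320 2560 T28 ⟨8, 16, 0, 16, 1216, 1280⟩ = true := gluem_y hT26 hT27
/-- subtree -/
def T29 : Tm := .sx 8 T15 T28
theorem hT29 : chkTm ks 6 320 320 2560 T29 ⟨0, 16, 0, 16, 1216, 1280⟩ = true := gluem_x hT15 hT28
/-- subtree -/
def T30 : Tm := .st 1216 T2 T29
theorem hT30 : chkTm ks 6 320 320 2560 T30 ⟨0, 16, 0, 16, 1152, 1280⟩ = true := gluem_t hT2 hT29
/-- subtree -/
def T31 : Tm := (.st 1216 (.sx 8 .sk (.lf 4)) (.sx 8 .sk (.sy 24 (.st 1248 (.lf 3) (.sx 12 .sk (.sy 20 (.lf 2) .sk))) .sk)))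
theorem hT31 : chkTm ks 6 320 320 2560 T31 ⟨0, 16, 16, 32, 1152, 1280⟩ = true := by decide +kernel
/-- subtree -/
def T32 : Tm := .sy 16 T30 T31
theorem hT32 : chkTm ks 6 320 320 2560 T32 ⟨0, 16, 0, 32, 1152, 1280⟩ = true := gluem_y hT30 hT31
/-- subtree -/
def T33 : Tm := (.sx 24 (.sy 8 (.st 1184 (.lf 4) (.lf 3)) (.lf 4)) (.lf 4))
theorem hT33 : chkTm ks 6 320 320 2560 T33 ⟨16, 32, 0, 16, 1152, 1216⟩ = true := by decide +kernel
/-- subtree -/
def T34 : Tm := (.sy 8 (.st 1248 (.lf 3) (.lf 2)) (.st 1248 (.lf 3) (.sx 20 (.lf 2) (.sy 12 (.lf 2) (.st 1264 (.lf 3) (.lf 2))))))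
theorem hT34 : chkTm ks 6 320 320 2560 T34 ⟨16, 24, 0, 16, 1216, 1280⟩ = true := by decide +kernel
/-- subtree -/
def T35 : Tm := (.sy 8 (.st 1248 (.lf 3) (.sx 28 (.lf 2) (.sy 4 (.lf 2) (.st 1264 (.lf 3) (.lf 2))))) (.st 1248 (.lf 3) (.sx 28 (.sy 12 (.st 1264 (.lf 3) (.lf 2)) (.lf 3)) (.lf 3))))
theorem hT35 : chkTm ks 6 320 320 2560 T35 ⟨24, 32, 0, 16, 1216, 1280⟩ = true := by decide +kernel
/-- subtree -/
def T36 : Tm := .sx 24 T34 T35
theorem hT36 : chkTm ks 6 320 320 2560 T36 ⟨16, 32, 0, 16, 1216, 1280⟩ = true := gluem_x hT34 hT35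
/-- subtree -/
def T37 : Tm := .st 1216 T33 T36
theorem hT37 : chkTm ks 6 320 320 2560 T37 ⟨16, 32, 0, 16, 1152, 1280⟩ = true := gluem_t hT33 hT36
/-- subtree -/
def T38 : Tm := (.st 1216 (.lf 4) (.sx 24 (.sy 24 (.st 1248 (.lf 3) (.sx 20 (.sy 20 (.st 1264 (.lf 3) (.lf 2)) (.lf 3)) (.lf 3))) (.lf 3)) (.sy 24 (.lf 3) (.st 1248 (.lf 4) (.lf 3)))))
theorem hT38 : chkTm ks 6 320 320 2560 T38 ⟨16, 32, 16, 32, 1152, 1280⟩ = true := by decide +kernel
/-- subtree -/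
def T39 : Tm := .sy 16 T37 T38
theorem hT39 : chkTm ks 6 320 320 2560 T39 ⟨16, 32, 0, 32, 1152, 1280⟩ = true := gluem_y hT37 hT38
/-- subtree -/
def T40 : Tm := .sx 16 T32 T39
theorem hT40 : chkTm ks 6 320 320 2560 T40 ⟨0, 32, 0, 32, 1152, 1280⟩ = true := gluem_x hT32 hT39
/-- subtree -/
def T41 : Tm := .st 1152 T1 T40
theorem hT41 : chkTm ks 6 320 320 2560 T41 ⟨0, 32, 0, 32, 1024, 1280⟩ = true := gluem_t hT1 hT40
/-- subtree -/
def T42 : Tm := (.st 1152 (.lf 5) (.sx 16 .sk (.sy 48 (.st 1216 (.lf 4) (.sx 24 .sk (.sy 40 (.st 1248 (.lf 4) (.lf 3)) .sk))) .sk)))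
theorem hT42 : chkTm ks 6 320 320 2560 T42 ⟨0, 32, 32, 64, 1024, 1280⟩ = true := by decide +kernel
/-- subtree -/
def T43 : Tm := .sy 32 T41 T42
theorem hT43 : chkTm ks 6 320 320 2560 T43 ⟨0, 32, 0, 64, 1024, 1280⟩ = true := gluem_y hT41 hT42
/-- subtree -/
def T44 : Tm := (.lf 5)
theorem hT44 : chkTm ks 6 320 320 2560 T44 ⟨32, 64, 0, 32, 1024, 1152⟩ = true := by decide +kernel
/-- subtree -/
def T45 : Tm := (.lf 4)
theorem hT45 : chkTm ks 6 320 320 2560 T45 ⟨32, 48, 0, 16, 1152, 1216⟩ = true := by decide +kernel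
/-- subtree -/
def T46 : Tm := (.sy 8 (.st 1248 (.lf 3) (.sx 36 (.sy 4 (.st 1264 (.lf 3) (.lf 2)) (.lf 3)) (.sy 4 (.st 1264 (.lf 3) (.sx 38 (.sy 2 (.lf 2) (.lf 3)) (.lf 3))) (.lf 3)))) (.lf 3))
theorem hT46 : chkTm ks 6 320 320 2560 T46 ⟨32, 40, 0, 16, 1216, 1280⟩ = true := by decide +kernel
/-- subtree -/
def T47 : Tm := (.sy 8 (.lf 3) (.st 1248 (.lf 4) (.lf 3)))
theorem hT47 : chkTm ks 6 320 320 2560 T47 ⟨40, 48, 0, 16, 1216, 1280⟩ = true := by decide +kernel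
/-- subtree -/
def T48 : Tm := .sx 40 T46 T47
theorem hT48 : chkTm ks 6 320 320 2560 T48 ⟨32, 48, 0, 16, 1216, 1280⟩ = true := gluem_x hT46 hT47
/-- subtree -/
def T49 : Tm := .st 1216 T45 T48
theorem hT49 : chkTm ks 6 320 320 2560 T49 ⟨32, 48, 0, 16, 1152, 1280⟩ = true := gluem_t hT45 hT48
/-- subtree -/
def T50 : Tm := (.st 1216 (.lf 4) (.sx 40 (.sy 24 (.st 1248 (.lf 4) (.lf 3)) (.st 1248 (.lf 4) (.lf 3))) (.sy 24 (.st 1248 (.lf 4) (.lf 3)) (.st 1248 (.lf 4) (.sx 44 (.lf 3) (.sy 28 (.lf 3) (.st 1264 (.lf 4) (.lf 3))))))))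
theorem hT50 : chkTm ks 6 320 320 2560 T50 ⟨32, 48, 16, 32, 1152, 1280⟩ = true := by decide +kernel
/-- subtree -/
def T51 : Tm := .sy 16 T49 T50
theorem hT51 : chkTm ks 6 320 320 2560 T51 ⟨32, 48, 0, 32, 1152, 1280⟩ = true := gluem_y hT49 hT50
/-- subtree -/
def T52 : Tm := (.st 1216 (.lf 4) (.sx 56 (.sy 8 (.st 1248 (.lf 4) (.lf 3)) (.st 1248 (.lf 4) (.lf 3))) (.sy 8 (.st 1248 (.lf 4) (.lf 3)) (.st 1248 (.lf 4) (.sx 60 (.lf 3) (.sy 12 (.lf 3) (.st 1264 (.lf 4) (.lf 3))))))))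
theorem hT52 : chkTm ks 6 320 320 2560 T52 ⟨48, 64, 0, 16, 1152, 1280⟩ = true := by decide +kernel
/-- subtree -/
def T53 : Tm := (.lf 4)
theorem hT53 : chkTm ks 6 320 320 2560 T53 ⟨48, 64, 16, 32, 1152, 1216⟩ = true := by decide +kernel
/-- subtree -/
def T54 : Tm := (.sy 24 (.st 1248 (.lf 4) (.sx 52 (.lf 3) (.sy 20 (.lf 3) (.st 1264 (.lf 4) (.lf 3))))) (.st 1248 (.lf 4) (.sx 52 (.sy 28 (.st 1264 (.lf 4) (.lf 3)) (.lf 4)) (.lf 4))))
theorem hT54 : chkTm ks 6 320 320 2560 T54 ⟨48, 56, 16, 32, 1216, 1280⟩ = true := by decide +kernel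
/-- subtree -/
def T55 : Tm := (.sy 24 (.st 1248 (.lf 4) (.sx 60 (.sy 20 (.st 1264 (.lf 4) (.lf 3)) (.lf 4)) (.lf 4))) (.lf 4))
theorem hT55 : chkTm ks 6 320 320 2560 T55 ⟨56, 64, 16, 32, 1216, 1280⟩ = true := by decide +kernel
/-- subtree -/
def T56 : Tm := .sx 56 T54 T55
theorem hT56 : chkTm ks 6 320 320 2560 T56 ⟨48, 64, 16, 32, 1216, 1280⟩ = true := gluem_x hT54 hT55
/-- subtree -/
def T57 : Tm := .st 1216 T53 T56
theorem hT57 : chkTm ks 6 320 320 2560 T57 ⟨48, 64, 16, 32, 1152, 1280⟩ = true := gluem_t hT53 hT56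
/-- subtree -/
def T58 : Tm := .sy 16 T52 T57
theorem hT58 : chkTm ks 6 320 320 2560 T58 ⟨48, 64, 0, 32, 1152, 1280⟩ = true := gluem_y hT52 hT57
/-- subtree -/
def T59 : Tm := .sx 48 T51 T58
theorem hT59 : chkTm ks 6 320 320 2560 T59 ⟨32, 64, 0, 32, 1152, 1280⟩ = true := gluem_x hT51 hT58
/-- subtree -/
def T60 : Tm := .st 1152 T44 T59
theorem hT60 : chkTm ks 6 320 320 2560 T60 ⟨32, 64, 0, 32, 1024, 1280⟩ = true := gluem_t hT44 hT59
/-- subtree -/
def T61 : Tm := (.lf 5)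
theorem hT61 : chkTm ks 6 320 320 2560 T61 ⟨32, 64, 32, 64, 1024, 1152⟩ = true := by decide +kernel
/-- subtree -/
def T62 : Tm := (.lf 4)
theorem hT62 : chkTm ks 6 320 320 2560 T62 ⟨32, 48, 32, 48, 1152, 1216⟩ = true := by decide +kernel
/-- subtree -/
def T63 : Tm := (.sy 40 (.st 1248 (.lf 4) (.sx 36 (.lf 3) (.sy 36 (.lf 3) (.st 1264 (.lf 4) (.lf 3))))) (.st 1248 (.lf 4) (.sx 36 .sk (.lf 4))))
theorem hT63 : chkTm ks 6 320 320 2560 T63 ⟨32, 40, 32, 48, 1216, 1280⟩ = true := by decide +kernel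
/-- subtree -/
def T64 : Tm := (.sy 40 (.st 1248 (.lf 4) (.sx 44 (.sy 36 (.st 1264 (.lf 4) (.lf 3)) (.lf 4)) (.lf 4))) (.lf 4))
theorem hT64 : chkTm ks 6 320 320 2560 T64 ⟨40, 48, 32, 48, 1216, 1280⟩ = true := by decide +kernel
/-- subtree -/
def T65 : Tm := .sx 40 T63 T64
theorem hT65 : chkTm ks 6 320 320 2560 T65 ⟨32, 48, 32, 48, 1216, 1280⟩ = true := gluem_x hT63 hT64
/-- subtree -/
def T66 : Tm := .st 1216 T62 T65
theorem hT66 : chkTm ks 6 320 320 2560 T66 ⟨32, 48, 32, 48, 1152, 1280⟩ = true := gluem_t hT62 hT65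
/-- subtree -/
def T67 : Tm := (.lf 4)
theorem hT67 : chkTm ks 6 320 320 2560 T67 ⟨32, 48, 48, 64, 1152, 1280⟩ = true := by decide +kernel
/-- subtree -/
def T68 : Tm := .sy 48 T66 T67
theorem hT68 : chkTm ks 6 320 320 2560 T68 ⟨32, 48, 32, 64, 1152, 1280⟩ = true := gluem_y hT66 hT67
/-- subtree -/
def T69 : Tm := (.sy 48 (.lf 4) (.st 1216 (.lf 5) (.lf 4)))
theorem hT69 : chkTm ks 6 320 320 2560 T69 ⟨48, 64, 32, 64, 1152, 1280⟩ = true := by decide +kernel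
/-- subtree -/
def T70 : Tm := .sx 48 T68 T69
theorem hT70 : chkTm ks 6 320 320 2560 T70 ⟨32, 64, 32, 64, 1152, 1280⟩ = true := gluem_x hT68 hT69
/-- subtree -/
def T71 : Tm := .st 1152 T61 T70
theorem hT71 : chkTm ks 6 320 320 2560 T71 ⟨32, 64, 32, 64, 1024, 1280⟩ = true := gluem_t hT61 hT70
/-- subtree -/
def T72 : Tm := .sy 32 T60 T71
theorem hT72 : chkTm ks 6 320 320 2560 T72 ⟨32, 64, 0, 64, 1024, 1280⟩ = true := gluem_y hT60 hT71
/-- subtree -/
def T73 : Tm := .sx 32 T43 T72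
theorem hT73 : chkTm ks 6 320 320 2560 T73 ⟨0, 64, 0, 64, 1024, 1280⟩ = true := gluem_x hT43 hT72
/-- subtree -/
def T74 : Tm := .st 1024 T0 T73
theorem hT74 : chkTm ks 6 320 320 2560 T74 ⟨0, 64, 0, 64, 768, 1280⟩ = true := gluem_t hT0 hT73

theorem cover (x y t : ℝ) (hyx : y ≤ x) (hx0 : 0 ≤ x) (hx1 : x ≤ (1 / 5))
    (hy0 : 0 ≤ y) (hy1 : y ≤ (1 / 5))
    (ht0 : (3 / 10) ≤ t) (ht1 : t ≤ (1 / 2)) :
    ∃ k < 6, 0 ≤ val (ks k).2 x y t := by
  refine chkTm_sound ks 6 320 320 2560 (by norm_num) (by norm_num) hks T74 ⟨0, 64, 0, 64, 768, 1280⟩ hT74 x y t hyx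
    ?_ ?_ ?_ ?_ ?_ ?_ <;> push_cast <;> linarith

theorem good (x y t : ℝ) (hx : x ≤ 1) (hy : y ≤ 1) (h : ∃ k < 6, 0 ≤ val (ks k).2 x y t) :
    PG.Good (K3 x y t) x y t := by
  obtain ⟨k, hk, h⟩ := h
  have hr : 0 ≤ (1 - x) ^ 3 * (1 - y) ^ 3 :=
    mul_nonneg (pow_nonneg (by linarith) 3) (pow_nonneg (by linarith) 3)
  interval_cases k
  · have h1 : 0 ≤ val g0a x y t := h
    rw [v_g0a] at h1
    have h2 : 0 ≤ f_g0a x y t := nonneg_of_mul_nonneg_right h1 (by norm_num)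
    refine (Or.inl) ?_
    unfold f_g0a at h2
    rw [KTx] at h2
    unfold K3
    exact mul_nonpos_of_nonneg_of_nonpos hr (by linarith)
  · have h1 : 0 ≤ val g1b x y t := h
    rw [v_g1b] at h1
    have h2 : 0 ≤ f_g1b x y t := nonneg_of_mul_nonneg_right h1 (by norm_num)
    refine (Or.inr ∘ Or.inl) ?_
    unfold f_g1b f_eQb at h2
    simp only [K3x, D2x, DDx] at h2
    unfold PG.L0
    linarith
  · have h1 : 0 ≤ val g2b x y t := h
    rw [v_g2b] at h1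
    have h2 : 0 ≤ f_g2b x y t := nonneg_of_mul_nonneg_right h1 (by norm_num)
    refine (Or.inr ∘ Or.inr ∘ Or.inl) ?_
    unfold f_g2b f_eQb at h2
    simp only [K3x, D2x, DDx] at h2
    unfold PG.LL
    linarith
  · have h1 : 0 ≤ val g3b x y t := h
    rw [v_g3b] at h1
    have h2 : 0 ≤ f_g3b x y t := nonneg_of_mul_nonneg_right h1 (by norm_num)
    refine (Or.inr ∘ Or.inr ∘ Or.inr ∘ Or.inl) ?_
    unfold f_g3b f_eQb at h2
    simp only [K3x, D2x, DDx] at h2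
    unfold PG.LL
    linarith
  · have h1 : 0 ≤ val g4b x y t := h
    rw [v_g4b] at h1
    have h2 : 0 ≤ f_g4b x y t := nonneg_of_mul_nonneg_right h1 (by norm_num)
    refine (Or.inr ∘ Or.inr ∘ Or.inr ∘ Or.inr ∘ Or.inl) ?_
    unfold f_g4b f_eQb at h2
    simp only [K3x, D2x, DDx] at h2
    unfold PG.LL
    linarith
  · have h1 : 0 ≤ val g5b x y t := h
    rw [v_g5b] at h1
    have h2 : 0 ≤ f_g5b x y t := nonneg_of_mul_nonneg_right h1 (by norm_num)
    refine (Or.inr ∘ Or.inr ∘ Or.inr ∘ Or.inr ∘ Or.inr) ?_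
    unfold f_g5b f_eQb at h2
    simp only [K3x, D2x, DDx] at h2
    unfold PG.LL
    linarith

/-- All points of the region (both orders of `x, y`). -/
theorem region (x y t : ℝ) (hx0 : 0 ≤ x) (hx1 : x ≤ (1 / 5))
    (hy0 : 0 ≤ y) (hy1 : y ≤ (1 / 5))
    (ht0 : (3 / 10) ≤ t) (ht1 : t ≤ (1 / 2)) :
    PG.Good (K3 x y t) x y t := by
  rcases le_total y x with h | h
  · exact good x y t (by linarith) (by linarith)
      (cover x y t h (by linarith) (by linarith) (by linarith) (by linarith) ht0 ht1)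
  · have h1 := good y x t (by linarith) (by linarith)
      (cover y x t h (by linarith) (by linarith) (by linarith) (by linarith) ht0 ht1)
    rw [K3_symm y x] at h1
    have h2 := PG.Good_symm h1
    exact h2

end Pool.Agent.Lib.MP_f1379f_gt.FV.CX.br
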