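import Pool.Agent.Lib.MP_f1379f_gt.FV.CXa
import Pool.Agent.Lib.MP_f1379f_gt.FV.CXb
import Pool.Agent.Lib.MP_f1379f_gt.FV.CXc
import Pool.Agent.Lib.MP_f1379f_gt.FV.CXd
import Pool.Agent.Lib.MP_f1379f_gt.FV.CXe
import Pool.Agent.Lib.MP_f1379f_gt.FV.CXf
import Pool.Agent.Lib.MP_f1379f_gt.FV.CXg
import Pool.Agent.Lib.MP_f1379f_gt.FV.CXh
import Pool.Agent.Lib.MP_f1379f_gt.FV.CXi
import Pool.Agent.Lib.MP_f1379f_gt.FV.CXVn
import Pool.Agent.Lib.MP_f1379f_gt.FV.CXVm
import Pool.Agent.Lib.MP_f1379f_gt.FV.CXVf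
import Pool.Agent.Lib.MP_f1379f_gt.FV.CEX

/-!
# MP_f1379f_gt, full Q1: certificate (C_X)
-/

set_option autoImplicit false
set_option linter.style.longLine false
set_option linter.unusedSimpArgs false

namespace Pool.Agent.Lib.MP_f1379f_gt.FV

open MeasureTheory Finset

namespace CX

/-- The lower chart. -/
theorem low (x y T : ℝ) (hx0 : 0 ≤ x) (hx1 : x ≤ 1) (hy0 : 0 ≤ y) (hy1 : y ≤ 1)
    (hlo : -1 + (x + y) / 5 + 2 / 25 * x * y ≤ T) (h2 : T ≤ -1 / 2) :
    ∃ v, 0 ≤ v ∧ v ≤ 1 ∧ L.TL x y v = T := by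
  have hxy : x * y ≤ 1 := by nlinarith
  have hden : 0 < 1 / 2 - 1 / 5 * (x + y) - 2 / 25 * (x * y) := by linarith
  refine ⟨(-1 / 2 - T) / (1 / 2 - 1 / 5 * (x + y) - 2 / 25 * (x * y)), ?_, ?_, ?_⟩
  · exact div_nonneg (by linarith) hden.le
  · rw [div_le_one hden]; linarith
  · unfold L.TL
    rw [div_mul_cancel₀ _ hden.ne']
    ring

/-- Region good_nn. -/
theorem good_nn (x y T : ℝ) (hx0 : 0 ≤ x) (hx1 : x ≤ 1) (hy0 : 0 ≤ y) (hy1 : y ≤ 1)
    (hlo : -1 + (x + y) / 5 + 2 / 25 * x * y ≤ T) (hhi : T ≤ 1 / 2) (hx : x ≤ 1 / 5) (hy : y ≤ 1 / 5) :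
    PG.Good (K3 x y T) x y T := by
  rcases le_total T (3 / 10) with h1 | h1
  · rcases le_total T (-1 / 2) with h2 | h2
    · obtain ⟨v, hv0, hv1, hT⟩ := low x y T hx0 hx1 hy0 hy1 hlo h2
      have := gr.region x y v (by linarith) (by linarith) (by linarith) (by linarith) (by linarith) (by linarith)
      rw [hT] at this
      exact this
    · exact ar.region x y T (by linarith) (by linarith) (by linarith) (by linarith) (by linarith) (by linarith)
  · exact br.region x y T (by linarith) (by linarith) (by linarith) (by linarith) (by linarith) (by linarith)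

/-- Region good_fn. -/
theorem good_fn (x y T : ℝ) (hx0 : 0 ≤ x) (hx1 : x ≤ 1) (hy0 : 0 ≤ y) (hy1 : y ≤ 1)
    (hlo : -1 + (x + y) / 5 + 2 / 25 * x * y ≤ T) (hhi : T ≤ 1 / 2) (hx : 13 / 20 ≤ x) (hy : y ≤ 1 / 5) :
    PG.Good (K3 x y T) x y T := by
  rcases le_total T (3 / 10) with h1 | h1
  · rcases le_total T (-1 / 2) with h2 | h2
    · obtain ⟨v, hv0, hv1, hT⟩ := low x y T hx0 hx1 hy0 hy1 hlo h2
      have := hr.region x y v (by linarith) (by linarith) (by linarith) (by linarith) (by linarith) (by linarith)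
      rw [hT] at this
      exact this
    · exact cr.region x y T (by linarith) (by linarith) (by linarith) (by linarith) (by linarith) (by linarith)
  · exact dr.region x y T (by linarith) (by linarith) (by linarith) (by linarith) (by linarith) (by linarith)

/-- Region good_ff. -/
theorem good_ff (x y T : ℝ) (hx0 : 0 ≤ x) (hx1 : x ≤ 1) (hy0 : 0 ≤ y) (hy1 : y ≤ 1)
    (hlo : -1 + (x + y) / 5 + 2 / 25 * x * y ≤ T) (hhi : T ≤ 1 / 2) (hx : 13 / 20 ≤ x) (hy : 13 / 20 ≤ y) :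
    PG.Good (K3 x y T) x y T := by
  rcases le_total T (3 / 10) with h1 | h1
  · rcases le_total T (-1 / 2) with h2 | h2
    · obtain ⟨v, hv0, hv1, hT⟩ := low x y T hx0 hx1 hy0 hy1 hlo h2
      have := ir.region x y v (by linarith) (by linarith) (by linarith) (by linarith) (by linarith) (by linarith)
      rw [hT] at this
      exact this
    · exact er.region x y T (by linarith) (by linarith) (by linarith) (by linarith) (by linarith) (by linarith)
  · exact fr.region x y T (by linarith) (by linarith) (by linarith) (by linarith) (by linarith) (by linarith)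

/-- Near and far. -/
theorem good_nf (x y T : ℝ) (hx0 : 0 ≤ x) (hx1 : x ≤ 1) (hy0 : 0 ≤ y) (hy1 : y ≤ 1)
    (hlo : -1 + (x + y) / 5 + 2 / 25 * x * y ≤ T) (hhi : T ≤ 1 / 2) (hx : x ≤ 1 / 5) (hy : 13 / 20 ≤ y) :
    PG.Good (K3 x y T) x y T := by
  have h := good_fn y x T hy0 hy1 hx0 hx1 (by linarith) hhi hy hx
  rw [K3_symm y x] at h
  exact PG.Good_symm h

/-- The one-body inequality, near. -/
theorem one_n (x : ℝ) (hx0 : 0 ≤ x) (hx1 : x ≤ 1 / 5) :
    (1 - x) ^ 3 * PW.VV x + 1 / 2 * ((1 - x) ^ 6 *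
      Kt 11 4 cA x x (1 - 2 / 5 * x) ((1 - 2 / 5 * x) * (1 - 2 / 5 * x))) + (if x ≤ 47 / 400 then -(22 / 1000) + 72 / 1000 * x else -(1354 / 100000)) ≤
      240 * ((1 - x) ^ 3 * ∑ i ∈ range 4, cA 0 i 0 * x ^ i) := by
  split_ifs with h
  · have h1 := Vnr.region x (by linarith) (by linarith)
    linarith
  · have h1 := Vmr.region x (by linarith) (by linarith)
    linarith

/-- The one-body inequality, far. -/
theorem one_f (x : ℝ) (hx0 : 13 / 20 ≤ x) (hx1 : x ≤ 1) :
    (1 - x) ^ 3 * PW.VV x + 1 / 2 * ((1 - x) ^ 6 *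
      Kt 11 4 cA x x (1 - 2 / 5 * x) ((1 - 2 / 5 * x) * (1 - 2 / 5 * x))) + 0 ≤
      240 * ((1 - x) ^ 3 * ∑ i ∈ range 4, cA 0 i 0 * x ^ i) := by
  have h1 := Vfr.region x (by linarith) (by linarith)
  have h2 : (1 - x) ^ 3 * (PW.VV x + 1 / 2 * ((1 - x) ^ 3 *
      Kt 11 4 cA x x (1 - 2 / 5 * x) ((1 - 2 / 5 * x) * (1 - 2 / 5 * x)))) ≤
      (1 - x) ^ 3 * (240 * ∑ i ∈ range 4, cA 0 i 0 * x ^ i) :=
    mul_le_mul_of_nonneg_left h1 (pow_nonneg (by linarith) 3)
  have e1 : (1 - x) ^ 6 = (1 - x) ^ 3 * (1 - x) ^ 3 := by ring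
  rw [e1]
  linarith

end CX

open CX in
/-- **Certificate (C_X)**: radial slack of the near points. -/
theorem certCX (U : Finset E) (hU : Adm U) (hdom : ∀ u ∈ U, 4 / 5 < rr u ∨ rr u ≤ 7 / 20) :
    ((volume bal).toReal - 240 * (801889 / 10 ^ 7) + 6720 * (5833 / 10 ^ 7))
      + 22 / 1000 * (240 - ((U.filter fun u => 4 / 5 < rr u).card : ℝ))
      + ∑ u ∈ U.filter (fun u => 4 / 5 < rr u),
        (if 1 - rr u ≤ 47 / 400 then 72 / 1000 * (1 - rr u) else 846 / 100000) ≤ W2F U := by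
  classical
  have h := asm U hU 11 4 4 cw cL cw_nonneg cA (fun _ _ _ => rfl)
    (fun u => if 4 / 5 < rr u then (if 1 - rr u ≤ 47 / 400 then -(22 / 1000) + 72 / 1000 * (1 - rr u)
      else -(1354 / 100000)) else 0) (fun _ _ => 0)
    (by
      intro u hu v hv _ x y T c
      have e := c.hx
      have e' := c.hy
      rw [add_zero]
      rcases hdom u hu with h1 | h1 <;> rcases hdom v hv with h2 | h2
      · exact good_nn x y T c.x0 c.x1.le c.y0 c.y1.le c.lo c.hi (by linarith) (by linarith)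
      · exact good_nf x y T c.x0 c.x1.le c.y0 c.y1.le c.lo c.hi (by linarith) (by linarith)
      · exact good_fn x y T c.x0 c.x1.le c.y0 c.y1.le c.lo c.hi (by linarith) (by linarith)
      · exact good_ff x y T c.x0 c.x1.le c.y0 c.y1.le c.lo c.hi (by linarith) (by linarith))
    (by intro u _ v _ _ _; exact le_refl _)
    (by
      intro u hu x hx hx0 hx1
      rcases hdom u hu with h1 | h1
      · rw [if_pos h1, show 1 - rr u = x from hx.symm]
        exact one_n x hx0 (by linarith)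
      · rw [if_neg (by linarith)]
        exact one_f x (by linarith) hx1.le)
    (by
      intro u _ hu
      rw [if_neg (by rw [hu]; norm_num)])
  have h0 : 28800 * cA 0 0 0 = 240 * (801889 / 10 ^ 7) - 6720 * (5833 / 10 ^ 7)
      - 240 * (22 / 1000) := by
    unfold cA
    simp only [sum_range_succ, sum_range_zero, cw, cL, cL0]
    norm_num
  have h1 : ∑ u ∈ U.filter (fun u => 4 / 5 < rr u),
      (if 1 - rr u ≤ 47 / 400 then -(22 / 1000) + 72 / 1000 * (1 - rr u) else -(1354 / 100000)) =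
      ∑ u ∈ U.filter (fun u => 4 / 5 < rr u),
        (if 1 - rr u ≤ 47 / 400 then 72 / 1000 * (1 - rr u) else 846 / 100000)
      - 22 / 1000 * ((U.filter fun u => 4 / 5 < rr u).card : ℝ) := by
    rw [card_eq_sum_ones, Nat.cast_sum, mul_sum, ← sum_sub_distrib]
    apply sum_congr rfl
    intro u _
    push_cast
    split_ifs <;> ring
  rw [h0, ← sum_filter, h1] at h
  simp only [sum_const_zero, mul_zero, add_zero] at h
  linarith

end Pool.Agent.Lib.MP_f1379f_gt.FV
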