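import Pool.Agent.Lib.MP_f1379f_gt.FV.CVa
import Pool.Agent.Lib.MP_f1379f_gt.FV.CVb
import Pool.Agent.Lib.MP_f1379f_gt.FV.CVl
import Pool.Agent.Lib.MP_f1379f_gt.FV.CVVn
import Pool.Agent.Lib.MP_f1379f_gt.FV.CVVf
import Pool.Agent.Lib.MP_f1379f_gt.FV.CEX
import Pool.Agent.Lib.MP_f1379f_gt.FV.CUT
import Pool.Agent.Lib.MP_f1379f_gt.FV.CXT
import Pool.Agent.Lib.MP_f1379f_gt.FV.CPT

section
/-!
# MP_f1379f_gt, full Q1: certificate (C_V)
-/
set_option autoImplicit false
set_option linter.style.longLine false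
set_option linter.unusedSimpArgs false

namespace Pool.Agent.Lib.MP_f1379f_gt.FV

open MeasureTheory Finset

namespace CV

/-- All points of the domain. -/
theorem good_all (x y T : ℝ) (hx0 : 0 ≤ x) (hx1 : x ≤ 1) (hy0 : 0 ≤ y) (hy1 : y ≤ 1)
    (hlo : -1 + (x + y) / 5 + 2 / 25 * x * y ≤ T) (hhi : T ≤ 1 / 2) :
    PG.Good (K3 x y T) x y T := by
  have hxy : x * y ≤ 1 := by nlinarith
  have hxy0 : 0 ≤ x * y := mul_nonneg hx0 hy0
  rcases le_total T (2 / 5) with h1 | h1
  · rcases le_total T (-1 / 2) with h2 | h2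
    · have hden : 0 < 1 / 2 - 1 / 5 * (x + y) - 2 / 25 * (x * y) := by linarith
      obtain ⟨v, hv⟩ : ∃ v, v = (-1 / 2 - T) / (1 / 2 - 1 / 5 * (x + y) - 2 / 25 * (x * y)) :=
        ⟨_, rfl⟩
      have hv0 : 0 ≤ v := by
        rw [hv]; exact div_nonneg (by linarith) hden.le
      have hv1 : v ≤ 1 := by
        rw [hv, div_le_one hden]; linarith
      have hT : L.TL x y v = T := by
        unfold L.TL
        rw [hv, div_mul_cancel₀ _ hden.ne']
        ring
      have := lr.region x y v (by linarith) (by linarith) (by linarith) (by linarith) (by linarith) (by linarith)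
      rw [hT] at this
      exact this
    · exact ar.region x y T (by linarith) (by linarith) (by linarith) (by linarith) (by linarith) (by linarith)
  · exact br.region x y T (by linarith) (by linarith) (by linarith) (by linarith) (by linarith) (by linarith)

/-- The one-body inequality. -/
theorem one (x : ℝ) (hx0 : 0 ≤ x) (hx1 : x < 1) :
    (1 - x) ^ 3 * PW.VV x + 1 / 2 * ((1 - x) ^ 6 *
      Kt 11 4 cA x x (1 - 2 / 5 * x) ((1 - 2 / 5 * x) * (1 - 2 / 5 * x))) +
        (if x < 1 / 5 then -(88 / 10000) else 0) ≤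
      240 * ((1 - x) ^ 3 * ∑ i ∈ range 4, cA 0 i 0 * x ^ i) := by
  split_ifs with h
  · have h1 := Vnr.region x (by linarith) (by linarith)
    linarith
  · have h1 := Vfr.region x (by linarith) (by linarith)
    have h2 : (1 - x) ^ 3 * (PW.VV x + 1 / 2 * ((1 - x) ^ 3 *
        Kt 11 4 cA x x (1 - 2 / 5 * x) ((1 - 2 / 5 * x) * (1 - 2 / 5 * x)))) ≤
        (1 - x) ^ 3 * (240 * ∑ i ∈ range 4, cA 0 i 0 * x ^ i) :=
      mul_le_mul_of_nonneg_left h1 (pow_nonneg (by linarith) 3)
    have e1 : (1 - x) ^ 6 = (1 - x) ^ 3 * (1 - x) ^ 3 := by ring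
    rw [e1]
    linarith

end CV

open CV in
/-- **Certificate (C_V)**: at least 240 points with `rr > 4/5` if the cell is small. -/
theorem certCV (U : Finset E) (hU : Adm U) :
    ((volume bal).toReal - 240 * (801889 / 10 ^ 7) + 6720 * (5833 / 10 ^ 7))
      + 88 / 10000 * (240 - ((U.filter fun u => 4 / 5 < rr u).card : ℝ)) ≤ W2F U := by
  have h := asm U hU 11 4 4 cw cL cw_nonneg cA (fun _ _ _ => rfl)
    (fun u => if 4 / 5 < rr u then -(88 / 10000) else 0) (fun _ _ => 0)
    (by
      intro u _ v _ _ x y T c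
      have h1 := good_all x y T c.x0 c.x1.le c.y0 c.y1.le c.lo c.hi
      unfold K3 Ktx at h1
      rw [add_zero]
      exact h1)
    (by intro u _ v _ _ _; exact le_refl _)
    (by
      intro u _ x hx hx0 hx1
      have h1 := one x hx0 hx1
      have h2 : (4 / 5 < rr u) ↔ x < 1 / 5 := by rw [hx]; constructor <;> intro h <;> linarith
      simp only [h2]
      exact h1)
    (by
      intro u _ hu
      rw [if_neg (by rw [hu]; norm_num)])
  have h0 : 28800 * cA 0 0 0 = 240 * (801889 / 10 ^ 7) - 6720 * (5833 / 10 ^ 7)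
      - 240 * (88 / 10000) := by
    unfold cA
    simp only [sum_range_succ, sum_range_zero, cw, cL, cL0]
    norm_num
  rw [h0, ← sum_filter, sum_const, nsmul_eq_mul] at h
  simp only [sum_const_zero, mul_zero, add_zero] at h
  linarith

end Pool.Agent.Lib.MP_f1379f_gt.FV
end

section
/-!
# MP_f1379f_gt, full Q1: exactly 240 near points if the two-body bound is less than 16

`near_set`: if `W2F U < 16` then exactly 240 points of `U` have `4/5 < rr`, and all others have
`rr ≤ 7/20`.
-/
set_option autoImplicit false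

namespace Pool.Agent.Lib.MP_f1379f_gt.FV

open MeasureTheory Finset

/-- The near points. -/
noncomputable def nearS (U : Finset E) : Finset E := U.filter fun u => 4 / 5 < rr u

lemma mem_nearS {U : Finset E} {u : E} : u ∈ nearS U ↔ u ∈ U ∧ 4 / 5 < rr u := by
  unfold nearS
  rw [mem_filter]

theorem near_set (U : Finset E) (hU : Adm U) (hW : W2F U < 16) :
    (nearS U).card = 240 ∧ ∀ u ∈ U, 4 / 5 < rr u ∨ rr u ≤ 7 / 20 := by
  have h1 := certCV U hU
  have h2 := certCU U hU
  have h3 := PW.That_ge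
  have hsub : nearS U ⊆ U.filter fun u => 7 / 20 < rr u := by
    intro u hu
    rw [mem_nearS] at hu
    rw [mem_filter]
    exact ⟨hu.1, by linarith [hu.2]⟩
  have hle := card_le_card hsub
  have a1 : 240 ≤ (nearS U).card := by
    by_contra h
    push Not at h
    have h4 : (nearS U).card ≤ 239 := by omega
    have h5 : ((nearS U).card : ℝ) ≤ 239 := by exact_mod_cast h4
    unfold nearS at h5
    linarith
  have a2 : (U.filter fun u => 7 / 20 < rr u).card ≤ 240 := by
    by_contra h
    push Not at h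
    have h4 : 241 ≤ (U.filter fun u => 7 / 20 < rr u).card := by omega
    have h5 : (241 : ℝ) ≤ ((U.filter fun u => 7 / 20 < rr u).card : ℝ) := by exact_mod_cast h4
    linarith
  refine ⟨by omega, ?_⟩
  intro u hu
  by_cases h : rr u ≤ 7 / 20
  · exact Or.inr h
  · left
    push Not at h
    have heq := eq_of_subset_of_card_le hsub (by omega)
    have hmem : u ∈ U.filter fun u => 7 / 20 < rr u := mem_filter.2 ⟨hu, h⟩
    rw [← heq, mem_nearS] at hmem
    exact hmem.2

end Pool.Agent.Lib.MP_f1379f_gt.FV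
end

section
/-!
# MP_f1379f_gt, full Q1: radial bound for the 240 near points
-/
set_option autoImplicit false

namespace Pool.Agent.Lib.MP_f1379f_gt.FV

open MeasureTheory Finset

/-- `nearX`: all near points have `1 - rr < 7/60`, and the radial certificate holds with the full
linear slack `72/1000`. -/
theorem near_x (U : Finset E) (hU : Adm U) (hW : W2F U < 16) :
    (∀ u ∈ nearS U, 1 - rr u < 7 / 60) ∧
    ((volume bal).toReal - 240 * (801889 / 10 ^ 7) + 6720 * (5833 / 10 ^ 7))
      + 72 / 1000 * ∑ u ∈ nearS U, (1 - rr u) ≤ W2F U := by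
  obtain ⟨hcard, hdom⟩ := near_set U hU hW
  have hc := certCX U hU hdom
  have h3 := PW.That_ge
  have hcard' : ((U.filter fun u => 4 / 5 < rr u).card : ℝ) = 240 := by
    have : (U.filter fun u => 4 / 5 < rr u).card = 240 := hcard
    rw [this]
    norm_num
  rw [hcard', sub_self, mul_zero, add_zero] at hc
  have hS : U.filter (fun u => 4 / 5 < rr u) = nearS U := rfl
  rw [hS] at hc
  have hpos : ∀ u ∈ nearS U,
      0 ≤ (if 1 - rr u ≤ 47 / 400 then 72 / 1000 * (1 - rr u) else (846 : ℝ) / 100000) := by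
    intro u hu
    have h1 := rr_le_one (hU.le_one u (mem_nearS.1 hu).1)
    split_ifs
    · have : 0 ≤ 1 - rr u := by linarith
      positivity
    · norm_num
  have hle : ∀ u ∈ nearS U,
      (if 1 - rr u ≤ 47 / 400 then 72 / 1000 * (1 - rr u) else (846 : ℝ) / 100000) < 84 / 10000 := by
    intro u hu
    have h4 := single_le_sum hpos hu
    linarith
  have hx : ∀ u ∈ nearS U, 1 - rr u ≤ 47 / 400 ∧ 1 - rr u < 7 / 60 := by
    intro u hu
    have h5 := hle u hu
    split_ifs at h5 with h6
    · exact ⟨h6, by linarith⟩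
    · norm_num at h5
  refine ⟨fun u hu => (hx u hu).2, ?_⟩
  rw [mul_sum]
  have h7 : ∑ u ∈ nearS U, 72 / 1000 * (1 - rr u) = ∑ u ∈ nearS U,
      (if 1 - rr u ≤ 47 / 400 then 72 / 1000 * (1 - rr u) else (846 : ℝ) / 100000) :=
    sum_congr rfl fun u hu => by rw [if_pos (hx u hu).1]
  rw [h7]
  exact hc

end Pool.Agent.Lib.MP_f1379f_gt.FV
end

section
/-!
# MP_f1379f_gt, full Q1: the kissing shape of the 240 near points
-/
set_option autoImplicit false

namespace Pool.Agent.Lib.MP_f1379f_gt.FV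

open MeasureTheory Finset

/-- The pair certificate on the near points, weight 1. -/
theorem near_p (U : Finset E) (hU : Adm U) (hW : W2F U < 16) :
    ((volume bal).toReal - 240 * (801889 / 10 ^ 7) + 6720 * (5833 / 10 ^ 7))
      + 17 / 1000 * ∑ u ∈ nearS U, ∑ v ∈ (nearS U).erase u,
        base (TT u v) * (1 / 2 - TT u v) ≤ W2F U := by
  obtain ⟨hcard, hdom⟩ := near_set U hU hW
  obtain ⟨hx, -⟩ := near_x U hU hW
  have h := certCP U hU (nearS U) (fun u hu => (mem_nearS.1 hu).1) hcard
    (fun u hu => (hx u hu).le)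
    (fun u hu hn => by
      rcases hdom u hu with h1 | h1
      · exact absurd (mem_nearS.2 ⟨hu, h1⟩) hn
      · exact h1)
  have e : ∑ u ∈ nearS U, ∑ v ∈ (nearS U).erase u, CP.PS (TT u v) =
      34 / 1000 * ∑ u ∈ nearS U, ∑ v ∈ (nearS U).erase u, base (TT u v) * (1 / 2 - TT u v) := by
    rw [mul_sum]
    apply sum_congr rfl
    intro u _
    rw [mul_sum]
    apply sum_congr rfl
    intro v _
    unfold CP.PS
    ring
  rw [e] at h
  linarith

/-- The 240 near points, everything known from the two-body certificates. -/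
theorem near_all (U : Finset E) (hU : Adm U) (hW : W2F U < 16) :
    (nearS U).card = 240 ∧ (∀ u ∈ U, u ∉ nearS U → rr u ≤ 7 / 20) ∧
    (∀ u ∈ nearS U, 1 - rr u < 7 / 60) ∧
    ((volume bal).toReal - 240 * (801889 / 10 ^ 7) + 6720 * (5833 / 10 ^ 7))
      + 72 / 1000 * ∑ u ∈ nearS U, (1 - rr u) ≤ W2F U ∧
    ((volume bal).toReal - 240 * (801889 / 10 ^ 7) + 6720 * (5833 / 10 ^ 7))
      + 17 / 1000 * ∑ u ∈ nearS U, ∑ v ∈ (nearS U).erase u,
        base (TT u v) * (1 / 2 - TT u v) ≤ W2F U := by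
  obtain ⟨hcard, hdom⟩ := near_set U hU hW
  obtain ⟨hx, hx2⟩ := near_x U hU hW
  refine ⟨hcard, ?_, hx, hx2, near_p U hU hW⟩
  intro u hu hn
  rcases hdom u hu with h1 | h1
  · exact absurd (mem_nearS.2 ⟨hu, h1⟩) hn
  · exact h1

end Pool.Agent.Lib.MP_f1379f_gt.FV
end
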