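import Pool.Agent.Lib.MP_f1379f_gt.FV.SpecO

/-!
# MP_f1379f_gt, block O, module IS2: isotropy of second moments
-/

set_option autoImplicit false

namespace Pool.Agent.Lib.MP_f1379f_gt.FV.IS2M

open MeasureTheory

/-- The bilinear form of the second moments. -/
noncomputable def B (nu : Measure E) (D D' : E) : ℝ := ∫ y, (inner ℝ D y : ℝ) * inner ℝ D' y ∂nu

/-- The vector representing `B nu D`. -/
noncomputable def w (nu : Measure E) (D : E) : E := ∫ y, (inner ℝ D y : ℝ) • y ∂nu

theorem int2 {nu : Measure E} (h : Integrable (fun y : E => ‖y‖ ^ 2) nu) (D D' : E) :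
    Integrable (fun y : E => (inner ℝ D y : ℝ) * inner ℝ D' y) nu := by
  refine Integrable.mono' (h.const_mul (‖D‖ * ‖D'‖)) ?_ ?_
  · exact (Continuous.mul (by fun_prop) (by fun_prop)).aestronglyMeasurable
  · refine Filter.Eventually.of_forall fun y => ?_
    have h1 := norm_inner_le_norm (𝕜 := ℝ) D y
    have h2 := norm_inner_le_norm (𝕜 := ℝ) D' y
    rw [norm_mul]
    calc ‖(inner ℝ D y : ℝ)‖ * ‖(inner ℝ D' y : ℝ)‖ ≤ (‖D‖ * ‖y‖) * (‖D'‖ * ‖y‖) :=
          mul_le_mul h1 h2 (norm_nonneg _) (by positivity)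
      _ = ‖D‖ * ‖D'‖ * ‖y‖ ^ 2 := by ring

theorem intw {nu : Measure E} (h : Integrable (fun y : E => ‖y‖ ^ 2) nu) (D : E) :
    Integrable (fun y : E => (inner ℝ D y : ℝ) • y) nu := by
  refine Integrable.mono' (h.const_mul ‖D‖) ?_ ?_
  · have hc : Continuous (fun y : E => (inner ℝ D y : ℝ) • y) := by fun_prop
    exact hc.aestronglyMeasurable
  · refine Filter.Eventually.of_forall fun y => ?_
    have h1 := norm_inner_le_norm (𝕜 := ℝ) D y
    rw [norm_smul]
    calc ‖(inner ℝ D y : ℝ)‖ * ‖y‖ ≤ (‖D‖ * ‖y‖) * ‖y‖ :=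
          mul_le_mul_of_nonneg_right h1 (norm_nonneg _)
      _ = ‖D‖ * ‖y‖ ^ 2 := by ring

theorem B_eq {nu : Measure E} (h : Integrable (fun y : E => ‖y‖ ^ 2) nu) (D D' : E) :
    B nu D D' = inner ℝ D' (w nu D) := by
  unfold B w
  rw [← integral_inner (intw h D) D']
  refine integral_congr_ae (Filter.Eventually.of_forall fun y => ?_)
  simp only [inner_smul_right]

theorem B_symm (nu : Measure E) (D D' : E) : B nu D D' = B nu D' D := by
  unfold B
  refine integral_congr_ae (Filter.Eventually.of_forall fun y => ?_)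
  simp only [mul_comm]

/-- The effect of a reflection. -/
theorem refl_eq {nu : Measure E} (h : Integrable (fun y : E => ‖y‖ ^ 2) nu) {s : E} (hs : ‖s‖ = 1)
    (hm : Measure.map (fun v : E => v - (2 * (inner ℝ s v : ℝ)) • s) nu = nu) (D : E) :
    B nu D s = inner ℝ D s * B nu s s := by
  have hc : Continuous (fun v : E => v - (2 * (inner ℝ s v : ℝ)) • s) := by fun_prop
  have hc2 : Continuous (fun y : E => (inner ℝ D y : ℝ) * inner ℝ s y) :=
    Continuous.mul (by fun_prop) (by fun_prop)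
  have h1 : B nu D s = ∫ y, (inner ℝ D (y - (2 * (inner ℝ s y : ℝ)) • s) : ℝ) *
      inner ℝ s (y - (2 * (inner ℝ s y : ℝ)) • s) ∂nu := by
    unfold B
    conv_lhs => rw [← hm]
    exact integral_map hc.measurable.aemeasurable hc2.aestronglyMeasurable
  have hss : (inner ℝ s s : ℝ) = 1 := by
    rw [real_inner_self_eq_norm_sq, hs]; norm_num
  have h2 : ∀ y : E, (inner ℝ D (y - (2 * (inner ℝ s y : ℝ)) • s) : ℝ) *
      inner ℝ s (y - (2 * (inner ℝ s y : ℝ)) • s) =
      2 * inner ℝ D s * ((inner ℝ s y : ℝ) * inner ℝ s y) - (inner ℝ D y : ℝ) * inner ℝ s y := by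
    intro y
    rw [inner_sub_right, inner_sub_right, inner_smul_right, inner_smul_right, hss]
    ring
  have h3 : B nu D s = 2 * inner ℝ D s * B nu s s - B nu D s := by
    conv_lhs => rw [h1]
    simp only [h2]
    rw [integral_sub ((int2 h s s).const_mul _) (int2 h D s), integral_const_mul]
    rfl
  linarith

theorem same {nu : Measure E} (h : Integrable (fun y : E => ‖y‖ ^ 2) nu) {s t : E} (hs : ‖s‖ = 1)
    (ht : ‖t‖ = 1)
    (hms : Measure.map (fun v : E => v - (2 * (inner ℝ s v : ℝ)) • s) nu = nu)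
    (hmt : Measure.map (fun v : E => v - (2 * (inner ℝ t v : ℝ)) • t) nu = nu)
    (hst : (inner ℝ s t : ℝ) ≠ 0) : B nu s s = B nu t t := by
  have h1 := refl_eq h hs hms t
  have h2 := refl_eq h ht hmt s
  rw [B_symm nu t s, h2, real_inner_comm] at h1
  rw [real_inner_comm] at hst
  exact (mul_left_cancel₀ hst h1).symm

end Pool.Agent.Lib.MP_f1379f_gt.FV.IS2M

namespace Pool.Agent.Lib.MP_f1379f_gt.FV

open MeasureTheory IS2M

theorem specIS2 (hU : SpecUEF) : SpecIS2 := by
  classical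
  intro a ha nu hint hinv D hD
  have hob : ∀ s ∈ ob a, s ∈ UE ∧ (inner ℝ s a : ℝ) = 0 := fun s hs => by
    simpa [ob] using hs
  have hn : ∀ s ∈ ob a, ‖s‖ = 1 := fun s hs => hU.nrm s (hob s hs).1
  have haa : (inner ℝ a a : ℝ) = 1 := by
    rw [real_inner_self_eq_norm_sq, hU.nrm a ha]; norm_num
  -- the common value
  obtain ⟨c, hc⟩ : ∃ c : ℝ, ∀ s ∈ ob a, B nu s s = c := by
    by_cases hemp : ∃ s, s ∈ ob a
    · obtain ⟨s, hs⟩ := hemp
      refine ⟨B nu s s, fun t ht => ?_⟩
      by_cases hst : (inner ℝ s t : ℝ) = 0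
      · obtain ⟨f, hf, hfs, hft⟩ := hU.com3 a ha s hs t ht hst
        have e1 : B nu f f = B nu s s :=
          same hint (hn f hf) (hn s hs) (hinv f hf) (hinv s hs) (by rw [hfs]; norm_num)
        have e2 : B nu f f = B nu t t :=
          same hint (hn f hf) (hn t ht) (hinv f hf) (hinv t ht) (by rw [hft]; norm_num)
        rw [← e2, e1]
      · exact (same hint (hn s hs) (hn t ht) (hinv s hs) (hinv t ht) hst).symm
    · exact ⟨0, fun s hs => absurd ⟨s, hs⟩ hemp⟩
  -- isotropy on the complement of `a`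
  have iso : ∀ D : E, (inner ℝ D a : ℝ) = 0 → B nu D D = c * ‖D‖ ^ 2 := by
    intro D hD
    set z : E := (w nu D - c • D) - (inner ℝ (w nu D - c • D) a : ℝ) • a with hz
    have h1 : (inner ℝ z a : ℝ) = 0 := by
      rw [hz, inner_sub_left, real_inner_smul_left, haa]; ring
    have h2 : ∀ s ∈ ob a, (inner ℝ z s : ℝ) = 0 := by
      intro s hs
      have hsa : (inner ℝ a s : ℝ) = 0 := by rw [real_inner_comm]; exact (hob s hs).2
      have e1 : (inner ℝ (w nu D) s : ℝ) = inner ℝ D s * c := by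
        rw [real_inner_comm, ← B_eq hint, refl_eq hint (hn s hs) (hinv s hs), hc s hs]
      rw [hz, inner_sub_left, inner_sub_left, real_inner_smul_left, real_inner_smul_left, hsa, e1]
      ring
    have h3 : z = 0 := hU.orp a ha z h1 h2
    have h4 : (inner ℝ z D : ℝ) = 0 := by rw [h3, inner_zero_left]
    have haD : (inner ℝ a D : ℝ) = 0 := by rw [real_inner_comm]; exact hD
    rw [hz, inner_sub_left, inner_sub_left, real_inner_smul_left, real_inner_smul_left, haD,
      real_inner_self_eq_norm_sq] at h4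
    rw [B_eq hint, real_inner_comm]
    linarith
  -- the trace
  obtain ⟨b, hb⟩ : ∃ b : OrthonormalBasis (Fin 8) ℝ E, b = EuclideanSpace.basisFun (Fin 8) ℝ :=
    ⟨_, rfl⟩
  set p : Fin 8 → E := fun i => b i - (inner ℝ (b i) a : ℝ) • a with hp
  have hpa : ∀ i, (inner ℝ (p i) a : ℝ) = 0 := by
    intro i
    simp only [hp]
    rw [inner_sub_left, real_inner_smul_left, haa]; ring
  have hpn : ∀ i, ‖p i‖ ^ 2 = 1 - (inner ℝ (b i) a : ℝ) ^ 2 := by
    intro i
    have e1 : (inner ℝ (p i) (p i) : ℝ) = inner ℝ (p i) (b i) := by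
      conv_lhs => rw [show p i = b i - (inner ℝ (b i) a : ℝ) • a from rfl]
      rw [inner_sub_right]
      rw [show b i - (inner ℝ (b i) a : ℝ) • a = p i from rfl, inner_smul_right, hpa i]
      ring
    rw [← real_inner_self_eq_norm_sq, e1]
    simp only [hp]
    rw [inner_sub_left, real_inner_smul_left, real_inner_self_eq_norm_sq, b.norm_eq_one,
      real_inner_comm a (b i)]
    ring
  have hsum : ∀ x : E, ∑ i, (inner ℝ (b i) x : ℝ) ^ 2 = ‖x‖ ^ 2 := by
    intro x
    have := b.sum_sq_norm_inner_right x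
    simpa using this
  have hpt : ∀ y : E, ‖y‖ ^ 2 - (inner ℝ a y : ℝ) ^ 2 =
      ∑ i, (inner ℝ (p i) y : ℝ) * inner ℝ (p i) y := by
    intro y
    have e1 : ∀ i, (inner ℝ (p i) y : ℝ) * inner ℝ (p i) y =
        (inner ℝ (b i) (y - (inner ℝ a y : ℝ) • a) : ℝ) ^ 2 := by
      intro i
      simp only [hp]
      rw [inner_sub_left, real_inner_smul_left, inner_sub_right, inner_smul_right]
      ring
    simp only [e1]
    rw [hsum]
    have e3 : (inner ℝ (y - (inner ℝ a y : ℝ) • a) (y - (inner ℝ a y : ℝ) • a) : ℝ) =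
        ‖y‖ ^ 2 - (inner ℝ a y : ℝ) ^ 2 := by
      rw [inner_sub_left, inner_sub_right, inner_sub_right,
        real_inner_smul_left, inner_smul_right, inner_smul_right, real_inner_smul_left, haa,
        real_inner_self_eq_norm_sq, real_inner_comm a y]
      ring
    rw [← e3, real_inner_self_eq_norm_sq]
  have htr : ∫ y, (‖y‖ ^ 2 - (inner ℝ a y : ℝ) ^ 2) ∂nu = 7 * c := by
    simp only [hpt]
    rw [integral_finsetSum _ (fun i _ => int2 hint (p i) (p i))]
    have e2 : ∀ i, ∫ y, (inner ℝ (p i) y : ℝ) * inner ℝ (p i) y ∂nu =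
        c * (1 - (inner ℝ (b i) a : ℝ) ^ 2) := fun i => by
      rw [← hpn i]
      exact iso (p i) (hpa i)
    simp only [e2]
    rw [← Finset.mul_sum, Finset.sum_sub_distrib, hsum a, hU.nrm a ha]
    simp
    ring
  have hBD : ∫ y, (inner ℝ D y : ℝ) ^ 2 ∂nu = B nu D D := by
    unfold B
    refine integral_congr_ae (Filter.Eventually.of_forall fun y => ?_)
    simp only [sq]
  rw [hBD, iso D hD, htr]
  ring

end Pool.Agent.Lib.MP_f1379f_gt.FV
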