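import Pool.Agent.Lib.MP_f1379f_gt.FV.SpecO

/-!
# MP_f1379f_gt, block O, module IS4: isotropy of fourth moments
-/

set_option autoImplicit false

namespace Pool.Agent.Lib.MP_f1379f_gt.FV.IS4M

open MeasureTheory

/-- The seven words avoiding the coordinate 0, shifted by 1. -/
def W7 : Finset (Finset (Fin 7)) :=
  {{3,4,5,6}, {1,2,5,6}, {0,2,4,6}, {1,2,3,4}, {0,2,3,5}, {0,1,4,5}, {0,1,3,6}}

/-- Indicator vector of the shifted word. -/
def nw (w : Finset (Fin 7)) : Fin 8 → ℤ := fun m => if m ∈ w.image Fin.succ then 1 else 0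

theorem W7_RZ : ∀ w ∈ W7, (∀ m, nw w m ∈ ({-2, -1, 0, 1, 2} : Finset ℤ)) ∧ EV.InL (nw w) ∧
    ∑ i, nw w i ^ 2 = 4 := by
  decide +kernel

theorem W7_card : ∀ w ∈ W7, w.card = 4 := by decide +kernel

theorem W7_cov : ∀ i : Fin 7, ∃ w ∈ W7, i ∈ w := by decide +kernel

theorem W7_sep : ∀ i j k : Fin 7, i ≠ j → i ≠ k → j ≠ k → ∃ w ∈ W7, i ∉ w ∧ j ∈ w ∧ k ∈ w := by
  decide +kernel

theorem single_RZ : ∀ i : Fin 8, (∀ m, (Pi.single i 2 : Fin 8 → ℤ) m ∈
    ({-2, -1, 0, 1, 2} : Finset ℤ)) ∧ EV.InL (Pi.single i 2) ∧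
    ∑ m, (Pi.single i 2 : Fin 8 → ℤ) m ^ 2 = 4 := by
  decide +kernel

theorem mem_UE_of {n : Fin 8 → ℤ} (h : (∀ m, n m ∈ ({-2, -1, 0, 1, 2} : Finset ℤ)) ∧
    EV.InL n ∧ ∑ i, n i ^ 2 = 4) : (1 / 2 : ℝ) • EV.vec n ∈ UE := by
  classical
  unfold UE
  refine Finset.mem_image_of_mem _ ?_
  unfold EV.R
  refine Finset.mem_image_of_mem _ ?_
  unfold EV.RZ
  rw [Finset.mem_filter, Fintype.mem_piFinset]
  exact h

theorem basis_eq (i : Fin 8) : EuclideanSpace.basisFun (Fin 8) ℝ i =
    (1 / 2 : ℝ) • EV.vec (Pi.single i 2) := by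
  ext m
  simp only [EuclideanSpace.basisFun_apply, EV.vec, PiLp.smul_apply, smul_eq_mul,
    PiLp.single_apply]
  by_cases h : m = i
  · subst h; simp
  · simp [h]

theorem word_eq (w : Finset (Fin 7)) :
    (1 / 2 : ℝ) • ∑ n ∈ w, EuclideanSpace.basisFun (Fin 8) ℝ n.succ =
      (1 / 2 : ℝ) • EV.vec (nw w) := by
  congr 1
  rw [← Finset.sum_image (s := w) (g := Fin.succ)
    (f := fun m => (EuclideanSpace.basisFun (Fin 8) ℝ m : E))
    (fun a _ b _ h => Fin.succ_injective _ h)]
  ext m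
  simp only [EuclideanSpace.basisFun_apply, EV.vec, nw, WithLp.ofLp_sum, Finset.sum_apply,
    PiLp.single_apply]
  rw [Finset.sum_ite_eq]
  split_ifs <;> simp

/-- The frame. -/
theorem frame (hT : SpecTRA) {a : E} (ha : a ∈ UE) :
    ∃ b : OrthonormalBasis (Fin 8) ℝ E, b 0 = a ∧ (∀ i, b i ∈ UE) ∧
      ∀ w ∈ W7, (1 / 2 : ℝ) • ∑ n ∈ w, b n.succ ∈ UE := by
  have h0 : ∀ i, EuclideanSpace.basisFun (Fin 8) ℝ i ∈ UE := fun i => by
    rw [basis_eq]; exact mem_UE_of (single_RZ i)
  obtain ⟨T, hT1, hT2⟩ := hT.one _ (h0 0) a ha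
  refine ⟨(EuclideanSpace.basisFun (Fin 8) ℝ).map T, ?_, fun i => ?_, fun w hw => ?_⟩
  · rw [OrthonormalBasis.map_apply, hT2]
  · rw [OrthonormalBasis.map_apply]
    exact hT1 _ (h0 i)
  · have e : (1 / 2 : ℝ) • ∑ n ∈ w, ((EuclideanSpace.basisFun (Fin 8) ℝ).map T) n.succ =
        T ((1 / 2 : ℝ) • ∑ n ∈ w, EuclideanSpace.basisFun (Fin 8) ℝ n.succ) := by
      rw [map_smul, map_sum]
      simp only [OrthonormalBasis.map_apply]
    rw [e]
    apply hT1
    rw [word_eq]
    exact mem_UE_of (W7_RZ w hw)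

/-- Fourth moments. -/
noncomputable def I (nu : Measure E) (b : Fin 7 → E) (i j k l : Fin 7) : ℝ :=
  ∫ y, (inner ℝ (b i) y : ℝ) * inner ℝ (b j) y * (inner ℝ (b k) y * inner ℝ (b l) y) ∂nu

theorem int4 {nu : Measure E} (h : Integrable (fun y : E => ‖y‖ ^ 4) nu) (p q r s : E) :
    Integrable (fun y : E => (inner ℝ p y : ℝ) * inner ℝ q y * (inner ℝ r y * inner ℝ s y))
      nu := by
  refine Integrable.mono' (h.const_mul (‖p‖ * ‖q‖ * (‖r‖ * ‖s‖))) ?_ ?_
  · have hc : Continuous (fun y : E => (inner ℝ p y : ℝ) * inner ℝ q y *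
        (inner ℝ r y * inner ℝ s y)) := by fun_prop
    exact hc.aestronglyMeasurable
  · refine Filter.Eventually.of_forall fun y => ?_
    have h1 := norm_inner_le_norm (𝕜 := ℝ) p y
    have h2 := norm_inner_le_norm (𝕜 := ℝ) q y
    have h3 := norm_inner_le_norm (𝕜 := ℝ) r y
    have h4 := norm_inner_le_norm (𝕜 := ℝ) s y
    rw [norm_mul, norm_mul, norm_mul]
    calc ‖(inner ℝ p y : ℝ)‖ * ‖(inner ℝ q y : ℝ)‖ * (‖(inner ℝ r y : ℝ)‖ * ‖(inner ℝ s y : ℝ)‖)
        ≤ ((‖p‖ * ‖y‖) * (‖q‖ * ‖y‖)) * ((‖r‖ * ‖y‖) * (‖s‖ * ‖y‖)) := by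
          gcongr
      _ = ‖p‖ * ‖q‖ * (‖r‖ * ‖s‖) * ‖y‖ ^ 4 := by ring

/-- Invariance of integrals. -/
theorem inv {nu : Measure E} {s : E}
    (hm : Measure.map (fun v : E => v - (2 * (inner ℝ s v : ℝ)) • s) nu = nu) {f : E → ℝ}
    (hf : Continuous f) :
    ∫ y, f (y - (2 * (inner ℝ s y : ℝ)) • s) ∂nu = ∫ y, f y ∂nu := by
  have hc : Continuous (fun v : E => v - (2 * (inner ℝ s v : ℝ)) • s) := by fun_prop
  conv_rhs => rw [← hm]
  exact (integral_map hc.measurable.aemeasurable hf.aestronglyMeasurable).symm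

section

variable {nu : Measure E} (h : Integrable (fun y : E => ‖y‖ ^ 4) nu) {b : Fin 7 → E}
  (ho : Orthonormal ℝ b)
  (hs : ∀ i, Measure.map (fun v : E => v - (2 * (inner ℝ (b i) v : ℝ)) • b i) nu = nu)

include ho in
theorem bb (i j : Fin 7) : (inner ℝ (b i) (b j) : ℝ) = if i = j then 1 else 0 :=
  orthonormal_iff_ite.1 ho i j

include ho hs in
theorem sgn (m i j k l : Fin 7) : I nu b i j k l =
    ((if i = m then -1 else 1) * (if j = m then -1 else 1) *
      ((if k = m then -1 else 1) * (if l = m then -1 else 1))) * I nu b i j k l := by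
  have hc : Continuous (fun y : E => (inner ℝ (b i) y : ℝ) * inner ℝ (b j) y *
      (inner ℝ (b k) y * inner ℝ (b l) y)) := by fun_prop
  have h1 := inv (hs m) hc
  have h2 : ∀ (n : Fin 7) (y : E), (inner ℝ (b n) (y - (2 * (inner ℝ (b m) y : ℝ)) • b m) : ℝ) =
      (if n = m then -1 else 1) * inner ℝ (b n) y := by
    intro n y
    rw [inner_sub_right, inner_smul_right, bb ho]
    split_ifs with hnm
    · rw [hnm]; ring
    · ring
  simp only [h2] at h1
  unfold I
  conv_lhs => rw [← h1]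
  rw [← integral_const_mul]
  congr 1
  ext y
  ring

include ho hs in
theorem zero_of (m i j k l : Fin 7) (hm : ((if i = m then -1 else 1) *
    (if j = m then -1 else 1) * ((if k = m then -1 else 1) * (if l = m then -1 else 1)) : ℝ) =
      -1) : I nu b i j k l = 0 := by
  have h1 := sgn ho hs m i j k l
  rw [hm] at h1
  linarith

/-- Mixed moments. -/
noncomputable def C (nu : Measure E) (b : Fin 7 → E) (i j : Fin 7) : ℝ := I nu b i i j j

theorem C_symm (i j : Fin 7) : C nu b i j = C nu b j i := by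
  unfold C I
  congr 1
  ext y
  ring

include ho hs in
theorem formula (i j k l : Fin 7) : I nu b i j k l =
    (if i = j ∧ k = l then C nu b i k else 0) + (if i = k ∧ j = l then C nu b i j else 0) +
      (if i = l ∧ j = k then C nu b i j else 0) -
      2 * (if i = j ∧ j = k ∧ k = l then C nu b i i else 0) := by
  by_cases hij : i = j
  · subst hij
    by_cases hkl : k = l
    · subst hkl
      by_cases hik : i = k
      · subst hik
        simp only [C, and_self, if_true]
        ring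
      · simp [hik, C]
    · by_cases hik : i = k
      · subst hik
        rw [zero_of ho hs l i i i l (by simp [hkl])]
        simp [hkl]
      · by_cases hil : i = l
        · subst hil
          rw [zero_of ho hs k i i k i (by simp [hik])]
          simp [hik, hkl]
        · rw [zero_of ho hs k i i k l (by simp [hik, Ne.symm hkl])]
          simp [hik, hil, hkl]
  · by_cases hik : i = k
    · subst hik
      by_cases hjl : j = l
      · subst hjl
        have e : I nu b i j i j = C nu b i j := by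
          unfold C I
          congr 1
          ext y
          ring
        rw [e]
        simp [hij]
      · by_cases hil : i = l
        · subst hil
          rw [zero_of ho hs j i j i i (by simp [hij])]
          simp [hij, Ne.symm hij]
        · rw [zero_of ho hs j i j i l (by simp [hij, Ne.symm hjl])]
          simp [hij, hil, hjl, Ne.symm hij]
    · by_cases hil : i = l
      · subst hil
        by_cases hjk : j = k
        · subst hjk
          have e : I nu b i j j i = C nu b i j := by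
            unfold C I
            congr 1
            ext y
            ring
          rw [e]
          simp [hij]
        · rw [zero_of ho hs j i j k i (by simp [hij, Ne.symm hjk])]
          simp [hij, hik, hjk]
      · rw [zero_of ho hs i i j k l (by simp [Ne.symm hij, Ne.symm hik, Ne.symm hil])]
        simp [hij, hik, hil]

include h ho hs in
/-- Fourth moments of linear forms. -/
theorem F1 (x : Fin 7 → ℝ) : ∫ y, (∑ i, x i * (inner ℝ (b i) y : ℝ)) ^ 4 ∂nu =
    3 * ∑ i, ∑ k, x i ^ 2 * x k ^ 2 * C nu b i k - 2 * ∑ i, x i ^ 4 * C nu b i i := by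
  have e1 : ∀ y : E, (∑ i, x i * (inner ℝ (b i) y : ℝ)) ^ 4 = ∑ i, ∑ j, ∑ k, ∑ l,
      x i * x j * (x k * x l) * ((inner ℝ (b i) y : ℝ) * inner ℝ (b j) y *
        (inner ℝ (b k) y * inner ℝ (b l) y)) := by
    intro y
    have : (∑ i, x i * (inner ℝ (b i) y : ℝ)) ^ 4 =
        ((∑ i, x i * (inner ℝ (b i) y : ℝ)) * (∑ i, x i * (inner ℝ (b i) y : ℝ))) *
        ((∑ i, x i * (inner ℝ (b i) y : ℝ)) * (∑ i, x i * (inner ℝ (b i) y : ℝ))) := by ring
    rw [this, Finset.sum_mul_sum]
    simp only [Finset.sum_mul, Finset.mul_sum]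
    refine Finset.sum_congr rfl fun i _ => Finset.sum_congr rfl fun j _ =>
      Finset.sum_congr rfl fun k _ => Finset.sum_congr rfl fun l _ => ?_
    ring
  simp only [e1]
  rw [integral_finsetSum _ (fun i _ => integrable_finsetSum _ fun j _ =>
    integrable_finsetSum _ fun k _ => integrable_finsetSum _ fun l _ =>
      (int4 h _ _ _ _).const_mul _)]
  have e2 : ∀ i, ∫ y, ∑ j, ∑ k, ∑ l, x i * x j * (x k * x l) * ((inner ℝ (b i) y : ℝ) *
      inner ℝ (b j) y * (inner ℝ (b k) y * inner ℝ (b l) y)) ∂nu =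
      ∑ j, ∑ k, ∑ l, x i * x j * (x k * x l) * I nu b i j k l := by
    intro i
    rw [integral_finsetSum _ (fun j _ =>
      integrable_finsetSum _ fun k _ => integrable_finsetSum _ fun l _ =>
        (int4 h _ _ _ _).const_mul _)]
    refine Finset.sum_congr rfl fun j _ => ?_
    rw [integral_finsetSum _ (fun k _ => integrable_finsetSum _ fun l _ =>
        (int4 h _ _ _ _).const_mul _)]
    refine Finset.sum_congr rfl fun k _ => ?_
    rw [integral_finsetSum _ (fun l _ => (int4 h _ _ _ _).const_mul _)]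
    refine Finset.sum_congr rfl fun l _ => ?_
    rw [integral_const_mul]
    rfl
  simp only [e2, formula ho hs]
  have e3 : ∀ i j k l : Fin 7, x i * x j * (x k * x l) *
      ((if i = j ∧ k = l then C nu b i k else 0) + (if i = k ∧ j = l then C nu b i j else 0) +
      (if i = l ∧ j = k then C nu b i j else 0) -
      2 * (if i = j ∧ j = k ∧ k = l then C nu b i i else 0)) =
      (if i = j then if k = l then x i ^ 2 * x k ^ 2 * C nu b i k else 0 else 0) +
      (if i = k then if j = l then x i ^ 2 * x j ^ 2 * C nu b i j else 0 else 0) +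
      (if i = l then if j = k then x i ^ 2 * x j ^ 2 * C nu b i j else 0 else 0) -
      (if i = j then if j = k then if k = l then 2 * (x i ^ 4 * C nu b i i) else 0 else 0
        else 0) := by
    intro i j k l
    by_cases h1 : i = j
    · subst h1
      by_cases h2 : k = l
      · subst h2
        by_cases h3 : i = k
        · subst h3; simp; ring
        · simp [h3]; left; ring
      · by_cases h3 : i = k
        · subst h3; simp [h2]
        · by_cases h4 : i = l
          · subst h4; simp [h2, h3]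
          · simp [h2, h3, h4]
    · by_cases h3 : i = k
      · subst h3
        by_cases h4 : j = l
        · subst h4; simp [h1]; left; ring
        · simp [h1, h4, Ne.symm h1]
      · by_cases h4 : i = l
        · subst h4
          by_cases h5 : j = k
          · subst h5; simp [h1]; left; ring
          · simp [h1, h3, h5]
        · simp [h1, h3, h4]
  simp only [e3, Finset.sum_sub_distrib, Finset.sum_add_distrib]
  have s1 : ∑ i : Fin 7, ∑ j : Fin 7, ∑ k : Fin 7, ∑ l : Fin 7,
      (if i = j then if k = l then x i ^ 2 * x k ^ 2 * C nu b i k else 0 else 0) =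
      ∑ i, ∑ k, x i ^ 2 * x k ^ 2 * C nu b i k := by
    refine Finset.sum_congr rfl fun i _ => ?_
    rw [Finset.sum_eq_single i]
    · simp
    · intro j _ hj
      simp [Ne.symm hj]
    · simp
  have s2 : ∑ i : Fin 7, ∑ j : Fin 7, ∑ k : Fin 7, ∑ l : Fin 7,
      (if i = k then if j = l then x i ^ 2 * x j ^ 2 * C nu b i j else 0 else 0) =
      ∑ i, ∑ k, x i ^ 2 * x k ^ 2 * C nu b i k := by
    refine Finset.sum_congr rfl fun i _ => Finset.sum_congr rfl fun j _ => ?_
    rw [Finset.sum_eq_single i]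
    · simp
    · intro k _ hk
      simp [Ne.symm hk]
    · simp
  have s3 : ∑ i : Fin 7, ∑ j : Fin 7, ∑ k : Fin 7, ∑ l : Fin 7,
      (if i = l then if j = k then x i ^ 2 * x j ^ 2 * C nu b i j else 0 else 0) =
      ∑ i, ∑ k, x i ^ 2 * x k ^ 2 * C nu b i k := by
    refine Finset.sum_congr rfl fun i _ => Finset.sum_congr rfl fun j _ => ?_
    rw [Finset.sum_eq_single j]
    · simp
    · intro k _ hk
      simp [Ne.symm hk]
    · simp
  have s4 : ∑ i : Fin 7, ∑ j : Fin 7, ∑ k : Fin 7, ∑ l : Fin 7,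
      (if i = j then if j = k then if k = l then 2 * (x i ^ 4 * C nu b i i) else 0 else 0
        else 0) = 2 * ∑ i, x i ^ 4 * C nu b i i := by
    rw [Finset.mul_sum]
    refine Finset.sum_congr rfl fun i _ => ?_
    rw [Finset.sum_eq_single i]
    · rw [Finset.sum_eq_single i]
      · simp
      · intro k _ hk
        simp [Ne.symm hk]
      · simp
    · intro j _ hj
      simp [Ne.symm hj]
    · simp
  rw [s1, s2, s3, s4]
  ring

include h ho hs in
/-- Mixed moments of linear forms. -/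
theorem F2 (m : Fin 7) (x : Fin 7 → ℝ) : ∫ y, (inner ℝ (b m) y : ℝ) ^ 2 *
    (∑ i, x i * (inner ℝ (b i) y : ℝ)) ^ 2 ∂nu = ∑ i, x i ^ 2 * C nu b m i := by
  have e1 : ∀ y : E, (inner ℝ (b m) y : ℝ) ^ 2 * (∑ i, x i * (inner ℝ (b i) y : ℝ)) ^ 2 =
      ∑ i, ∑ j, x i * x j * ((inner ℝ (b m) y : ℝ) * inner ℝ (b m) y *
        (inner ℝ (b i) y * inner ℝ (b j) y)) := by
    intro y
    have : (inner ℝ (b m) y : ℝ) ^ 2 * (∑ i, x i * (inner ℝ (b i) y : ℝ)) ^ 2 =
        (inner ℝ (b m) y : ℝ) ^ 2 * ((∑ i, x i * (inner ℝ (b i) y : ℝ)) *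
          (∑ i, x i * (inner ℝ (b i) y : ℝ))) := by ring
    rw [this, Finset.sum_mul_sum]
    simp only [Finset.mul_sum]
    refine Finset.sum_congr rfl fun i _ => Finset.sum_congr rfl fun j _ => ?_
    ring
  simp only [e1]
  rw [integral_finsetSum _ (fun i _ => integrable_finsetSum _ fun j _ =>
      (int4 h _ _ _ _).const_mul _)]
  refine Finset.sum_congr rfl fun i _ => ?_
  rw [integral_finsetSum _ (fun j _ => (int4 h _ _ _ _).const_mul _)]
  rw [Finset.sum_eq_single i]
  · rw [integral_const_mul]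
    unfold C I
    ring
  · intro j _ hj
    rw [integral_const_mul]
    have h0 : I nu b m m i j = 0 := by
      by_cases hmi : m = i
      · subst hmi
        exact zero_of ho hs j m m m j (by simp [Ne.symm hj])
      · refine zero_of ho hs i m m i j (by simp [hmi, hj])
    unfold I at h0
    rw [h0, mul_zero]
  · simp

end

end Pool.Agent.Lib.MP_f1379f_gt.FV.IS4M

namespace Pool.Agent.Lib.MP_f1379f_gt.FV

open MeasureTheory IS4M

theorem specIS4 (hT : SpecTRA) : SpecIS4 := by
  classical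
  intro a ha nu hint hinv D hD
  obtain ⟨b8, hb0, hbU, hbW⟩ := frame hT ha
  obtain ⟨b, hb⟩ : ∃ b : Fin 7 → E, b = fun i => b8 i.succ := ⟨_, rfl⟩
  have ho : Orthonormal ℝ b := by
    rw [hb]
    exact b8.orthonormal.comp _ (Fin.succ_injective _)
  have hab : ∀ i, (inner ℝ (b i) a : ℝ) = 0 := by
    intro i
    rw [hb, ← hb0]
    exact b8.orthonormal.2 (Fin.succ_ne_zero i)
  have hob : ∀ s ∈ UE, (inner ℝ s a : ℝ) = 0 → s ∈ ob a := fun s h1 h2 => by
    simp only [ob, Finset.mem_filter]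
    exact ⟨h1, h2⟩
  have hs : ∀ i, Measure.map (fun v : E => v - (2 * (inner ℝ (b i) v : ℝ)) • b i) nu = nu :=
    fun i => hinv _ (hob _ (by rw [hb]; exact hbU _) (hab i))
  -- the words
  have ht : ∀ w ∈ W7, Measure.map (fun v : E => v -
      (2 * (inner ℝ ((1 / 2 : ℝ) • ∑ n ∈ w, b n) v : ℝ)) • ((1 / 2 : ℝ) • ∑ n ∈ w, b n)) nu =
      nu := by
    intro w hw
    refine hinv _ (hob _ (by rw [hb]; exact hbW w hw) ?_)
    rw [real_inner_smul_left, sum_inner]
    simp [hab]
  have hrefl : ∀ w ∈ W7, ∀ (j : Fin 7) (y : E), (inner ℝ (b j)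
      (y - (2 * (inner ℝ ((1 / 2 : ℝ) • ∑ n ∈ w, b n) y : ℝ)) • ((1 / 2 : ℝ) • ∑ n ∈ w, b n)) :
        ℝ) = if j ∈ w then ∑ i, ((if i = j then 1 else 0) - (if i ∈ w then 1 / 2 else 0)) *
          (inner ℝ (b i) y : ℝ) else inner ℝ (b j) y := by
    intro w hw j y
    rw [inner_sub_right, inner_smul_right, inner_smul_right, inner_sum, real_inner_smul_left,
      sum_inner]
    simp only [bb ho, Finset.sum_ite_eq]
    split_ifs with hj
    · simp only [sub_mul, ite_mul, one_mul, zero_mul, Finset.sum_sub_distrib,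
        Finset.sum_ite_eq', Finset.mem_univ, if_true]
      rw [Finset.sum_ite_mem, Finset.univ_inter, ← Finset.mul_sum]
      ring
    · ring
  have hc1 : ∀ j : Fin 7, Continuous (fun y : E => (inner ℝ (b j) y : ℝ) ^ 4) := fun j => by
    fun_prop
  have hc2 : ∀ i j : Fin 7, Continuous (fun y : E => (inner ℝ (b i) y : ℝ) ^ 2 *
      (inner ℝ (b j) y : ℝ) ^ 2) := fun i j => by fun_prop
  have hC1 : ∀ j, C nu b j j = ∫ y, (inner ℝ (b j) y : ℝ) ^ 4 ∂nu := by
    intro j; unfold C I; congr 1; ext y; ring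
  have hC2 : ∀ i j, C nu b i j = ∫ y, (inner ℝ (b i) y : ℝ) ^ 2 *
      (inner ℝ (b j) y : ℝ) ^ 2 ∂nu := by
    intro i j; unfold C I; congr 1; ext y; ring
  have hsq : ∀ (w : Finset (Fin 7)) (j : Fin 7), j ∈ w → ∀ i,
      ((if i = j then 1 else 0) - (if i ∈ w then 1 / 2 else 0) : ℝ) ^ 2 =
        if i ∈ w then 1 / 4 else 0 := by
    intro w j hj i
    by_cases h1 : i = j
    · subst h1; simp only [hj, if_true]; norm_num
    · by_cases h2 : i ∈ w
      · simp only [h1, h2, if_true, if_false]; norm_num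
      · simp [h1, h2]
  -- identity 2
  have id2 : ∀ w ∈ W7, ∀ i, i ∉ w → ∀ j ∈ w, C nu b i j =
      ∑ m, (if m ∈ w then 1 / 4 else 0) * C nu b i m := by
    intro w hw i hi j hj
    rw [hC2, ← inv (ht w hw) (hc2 i j)]
    simp only [hrefl w hw, hi, hj, if_true, if_false]
    rw [F2 hint ho hs]
    simp only [hsq w j hj]
  have id1 : ∀ w ∈ W7, ∀ j ∈ w, C nu b j j =
      3 * ∑ i, ∑ k, (if i ∈ w then 1 / 4 else 0) * (if k ∈ w then 1 / 4 else 0) * C nu b i k -
        2 * ∑ i, (if i ∈ w then 1 / 4 else 0) ^ 2 * C nu b i i := by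
    intro w hw j hj
    rw [hC1, ← inv (ht w hw) (hc1 j)]
    simp only [hrefl w hw, hj, if_true]
    rw [F1 hint ho hs]
    have e4 : ∀ i, ((if i = j then 1 else 0) - (if i ∈ w then 1 / 2 else 0) : ℝ) ^ 4 =
        (if i ∈ w then 1 / 4 else 0) ^ 2 := fun i => by
      rw [← hsq w j hj i]; ring
    simp only [hsq w j hj, e4]
  -- all mixed moments are equal
  obtain ⟨c, hc⟩ : ∃ c, c = C nu b 0 1 := ⟨_, rfl⟩
  have hm1 : ∀ i j k : Fin 7, i ≠ j → i ≠ k → C nu b i j = C nu b i k := by
    intro i j k hij hik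
    by_cases hjk : j = k
    · rw [hjk]
    · obtain ⟨w, hw, h1, h2, h3⟩ := W7_sep i j k hij hik hjk
      rw [id2 w hw i h1 j h2, id2 w hw i h1 k h3]
  have hm : ∀ i j : Fin 7, i ≠ j → C nu b i j = c := by
    intro i j hij
    by_cases hi : i = 0
    · subst hi
      rw [hc]
      exact hm1 0 j 1 hij (by decide)
    · rw [hm1 i j 0 hij hi, C_symm, hc]
      exact hm1 0 i 1 (Ne.symm hi) (by decide)
  have hd : ∀ i, C nu b i i = 3 * c := by
    intro i
    obtain ⟨w, hw, hi⟩ := W7_cov i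
    have hP : ∀ j ∈ w, C nu b j j = C nu b i i := fun j hj => by
      rw [id1 w hw j hj, id1 w hw i hi]
    have e := id1 w hw i hi
    have hcd : ∀ i' k', i' ∈ w → k' ∈ w → C nu b i' k' =
        c + if i' = k' then C nu b i i - c else 0 := by
      intro i' k' h1 h2
      split_ifs with h3
      · subst h3; rw [hP i' h1]; ring
      · rw [hm i' k' h3]; ring
    have e1 : ∑ i', ∑ k', (if i' ∈ w then 1 / 4 else 0) * (if k' ∈ w then 1 / 4 else 0) *
        C nu b i' k' = (1 / 16) * (4 * C nu b i i + 12 * c) := by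
      have e2 : ∀ i' k', ((if i' ∈ w then 1 / 4 else 0) * (if k' ∈ w then 1 / 4 else 0) *
          C nu b i' k' : ℝ) = if i' ∈ w then (if k' ∈ w then (1 / 16) *
            (c + if i' = k' then C nu b i i - c else 0) else 0) else 0 := by
        intro i' k'
        by_cases h1 : i' ∈ w
        · by_cases h2 : k' ∈ w
          · rw [hcd i' k' h1 h2]
            simp only [h1, h2, if_true]
            ring
          · simp [h2]
        · simp [h1]
      simp only [e2]
      have e3 : ∀ i', ∑ k', (if i' ∈ w then (if k' ∈ w then (1 / 16) *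
            (c + if i' = k' then C nu b i i - c else 0) else 0) else 0 : ℝ) =
          if i' ∈ w then (1 / 16) * (4 * c + (C nu b i i - c)) else 0 := by
        intro i'
        by_cases h1 : i' ∈ w
        · simp only [h1, if_true]
          rw [Finset.sum_ite_mem, Finset.univ_inter, ← Finset.mul_sum, Finset.sum_add_distrib,
            Finset.sum_ite_eq, if_pos h1, Finset.sum_const, W7_card w hw]
          simp
        · simp [h1]
      simp only [e3]
      rw [Finset.sum_ite_mem, Finset.univ_inter, Finset.sum_const, W7_card w hw]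
      simp only [nsmul_eq_mul]
      push_cast
      ring
    have e5 : ∑ i', ((if i' ∈ w then 1 / 4 else 0) ^ 2 * C nu b i' i' : ℝ) =
        (1 / 4) * C nu b i i := by
      have e6 : ∀ i', ((if i' ∈ w then 1 / 4 else 0) ^ 2 * C nu b i' i' : ℝ) =
          if i' ∈ w then (1 / 16) * C nu b i i else 0 := by
        intro i'
        by_cases h1 : i' ∈ w
        · rw [hP i' h1]; simp only [h1, if_true]; ring
        · simp [h1]
      simp only [e6]
      rw [Finset.sum_ite_mem, Finset.univ_inter, Finset.sum_const, W7_card w hw]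
      simp only [nsmul_eq_mul]
      push_cast
      ring
    rw [e1, e5] at e
    linarith
  have hall : ∀ i k, C nu b i k = c + if i = k then 2 * c else 0 := by
    intro i k
    split_ifs with h1
    · subst h1; rw [hd]; ring
    · rw [hm i k h1]; ring
  have hF : ∀ x : Fin 7 → ℝ, ∫ y, (∑ i, x i * (inner ℝ (b i) y : ℝ)) ^ 4 ∂nu =
      3 * c * (∑ i, x i ^ 2) ^ 2 := by
    intro x
    rw [F1 hint ho hs]
    simp only [hall, if_true]
    have e1 : ∀ i, ∑ k, x i ^ 2 * x k ^ 2 * (c + if i = k then 2 * c else 0) =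
        c * x i ^ 2 * (∑ k, x k ^ 2) + 2 * c * x i ^ 4 := by
      intro i
      simp only [mul_add, Finset.sum_add_distrib, mul_ite, mul_zero, Finset.sum_ite_eq,
        Finset.mem_univ, if_true]
      rw [Finset.mul_sum]
      congr 1
      · refine Finset.sum_congr rfl fun k _ => ?_
        ring
      · ring
    simp only [e1, Finset.sum_add_distrib, ← Finset.sum_mul, ← Finset.mul_sum]
    ring
  -- coordinates
  have hsum : ∀ y : E, ‖y‖ ^ 2 = (inner ℝ a y : ℝ) ^ 2 + ∑ i, (inner ℝ (b i) y : ℝ) ^ 2 := by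
    intro y
    have h1 := b8.sum_sq_norm_inner_right y
    rw [Fin.sum_univ_succ, hb0] at h1
    rw [hb, ← h1]
    simp
  have hsum2 : ∀ y : E, (inner ℝ D y : ℝ) = ∑ i, (inner ℝ (b i) D : ℝ) * inner ℝ (b i) y := by
    intro y
    have h1 := b8.sum_inner_mul_inner D y
    rw [Fin.sum_univ_succ, hb0, hD, zero_mul, zero_add] at h1
    rw [← h1, hb]
    refine Finset.sum_congr rfl fun i _ => ?_
    rw [real_inner_comm]
  have h7 : ∫ y, (‖y‖ ^ 2 - (inner ℝ a y : ℝ) ^ 2) ^ 2 ∂nu = 63 * c := by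
    have e1 : ∀ y : E, (‖y‖ ^ 2 - (inner ℝ a y : ℝ) ^ 2) ^ 2 =
        ∑ i, (inner ℝ (b i) y : ℝ) ^ 2 * (∑ j, 1 * (inner ℝ (b j) y : ℝ)) ^ 2 -
          ∑ i, (inner ℝ (b i) y : ℝ) ^ 2 * (∑ j, 1 * (inner ℝ (b j) y : ℝ)) ^ 2 +
            ∑ i, ∑ j, (inner ℝ (b i) y : ℝ) * inner ℝ (b i) y *
              (inner ℝ (b j) y * inner ℝ (b j) y) := by
      intro y
      rw [hsum y]
      have : ((inner ℝ a y : ℝ) ^ 2 + ∑ i, (inner ℝ (b i) y : ℝ) ^ 2 -
          (inner ℝ a y : ℝ) ^ 2) ^ 2 = (∑ i, (inner ℝ (b i) y : ℝ) ^ 2) *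
            ∑ i, (inner ℝ (b i) y : ℝ) ^ 2 := by ring
      rw [this, Finset.sum_mul_sum, sub_self, zero_add]
      refine Finset.sum_congr rfl fun i _ => Finset.sum_congr rfl fun j _ => ?_
      ring
    simp only [e1, sub_self, zero_add]
    rw [integral_finsetSum _ (fun i _ => integrable_finsetSum _ fun j _ => int4 hint _ _ _ _)]
    have e2 : ∀ i, ∫ y, ∑ j, (inner ℝ (b i) y : ℝ) * inner ℝ (b i) y *
              (inner ℝ (b j) y * inner ℝ (b j) y) ∂nu = 9 * c := by
      intro i
      rw [integral_finsetSum _ (fun j _ => int4 hint _ _ _ _)]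
      have e3 : ∀ j, ∫ y, (inner ℝ (b i) y : ℝ) * inner ℝ (b i) y *
              (inner ℝ (b j) y * inner ℝ (b j) y) ∂nu = c + if i = j then 2 * c else 0 :=
        fun j => hall i j
      simp only [e3, Finset.sum_add_distrib, Finset.sum_ite_eq, Finset.mem_univ, if_true]
      simp
      ring
    simp only [e2]
    simp
    ring
  have hDn : ‖D‖ ^ 2 = ∑ i, (inner ℝ (b i) D : ℝ) ^ 2 := by
    rw [hsum D, real_inner_comm, hD]; ring
  rw [h7]
  simp only [hsum2]
  rw [hF, ← hDn]
  ring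

end Pool.Agent.Lib.MP_f1379f_gt.FV
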