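import Pool.Agent.Lib.MP_f1379f_gt.FV.SpecS1

/-! # MP_f1379f_gt, full Q1, block STAB1, module ANT (helper64) -/

set_option autoImplicit false

namespace Pool.Agent.Lib.MP_f1379f_gt.FV

namespace ANTM

/-! ### One variable -/

theorem G_nonneg {t : ℝ} (h1 : -1 ≤ t) (h2 : t ≤ 1 / 3) : 0 ≤ G7 t := by
  unfold G7
  have h3 : 0 ≤ 1 - 3 * t := by linarith
  have h4 : 0 ≤ 1 + t := by linarith
  positivity

theorem A_le_G {t : ℝ} (h1 : -21 / 25 ≤ t) (h2 : t ≤ 1 / 3) : A7 t ≤ 11 / 32 * G7 t := by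
  have h3 : 0 ≤ 1 - 3 * t := by linarith
  have h4 : 0 ≤ 21 + 25 * t := by linarith
  have h5 : 0 ≤ (1 - 3 * t) * (1 + 3 * t) ^ 2 * (21 + 25 * t) := by positivity
  have h6 : 11 / 32 * G7 t - A7 t = (1 - 3 * t) * (1 + 3 * t) ^ 2 * (21 + 25 * t) / 64 := by
    unfold G7 A7
    ring
  linarith

theorem A_le_G' {t : ℝ} (h1 : -17 / 25 ≤ t) (h2 : t ≤ 1 / 3) : A7 t ≤ 297 / 2000 * G7 t := by
  have h3 : 0 ≤ 1 - 3 * t := by linarith
  have h4 : 0 ≤ 297 / 2000 * (1 + t) - (1 - 3 * t) / 64 := by linarith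
  have h5 : 0 ≤ (1 - 3 * t) * (1 + 3 * t) ^ 2 * (297 / 2000 * (1 + t) - (1 - 3 * t) / 64) := by
    positivity
  have h6 : 297 / 2000 * G7 t - A7 t =
      (1 - 3 * t) * (1 + 3 * t) ^ 2 * (297 / 2000 * (1 + t) - (1 - 3 * t) / 64) := by
    unfold G7 A7
    ring
  linarith

theorem A_le_one {t : ℝ} (h1 : -1 ≤ t) (h2 : t ≤ 1) : A7 t ≤ 1 := by
  unfold A7
  have h3 : t ^ 2 ≤ 1 := by nlinarith
  have h4 : 0 ≤ t ^ 2 := sq_nonneg t
  have h5 : |(9 * t ^ 2 - 1) / 8| ≤ 1 := by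
    rw [abs_le]
    constructor <;> linarith
  calc ((9 * t ^ 2 - 1) / 8) ^ 2 = |(9 * t ^ 2 - 1) / 8| ^ 2 := (sq_abs _).symm
    _ ≤ 1 ^ 2 := by gcongr
    _ = 1 := by norm_num

theorem A_one : A7 1 = 1 := by
  unfold A7
  norm_num

/-- `G7 ≥ 1.0693` on `[-9/10, -21/25]` -/
theorem G_big {t : ℝ} (h1 : -9 / 10 ≤ t) (h2 : t ≤ -21 / 25) : 10693 / 10000 ≤ G7 t := by
  obtain ⟨v, rfl⟩ : ∃ v, t = -1 + v := ⟨1 + t, by ring⟩
  have h3 : 1 / 10 ≤ v := by linarith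
  have h4 : v ≤ 4 / 25 := by linarith
  have h5 : G7 (-1 + v) - 10693 / 10000 =
      (v - 1 / 10) * (16 - 60 * (v + 1 / 10) + 72 * (v ^ 2 + v / 10 + 1 / 100)
        - 27 * (v ^ 3 + v ^ 2 / 10 + v / 100 + 1 / 1000)) := by
    unfold G7
    ring
  have h6 : 0 ≤ 16 - 60 * (v + 1 / 10) + 72 * (v ^ 2 + v / 10 + 1 / 100)
      - 27 * (v ^ 3 + v ^ 2 / 10 + v / 100 + 1 / 1000) := by
    nlinarith [mul_nonneg (by linarith : (0 : ℝ) ≤ v) (by linarith : (0 : ℝ) ≤ 4 / 25 - v),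
      mul_nonneg (sq_nonneg v) (by linarith : (0 : ℝ) ≤ 4 / 25 - v)]
  have h7 := mul_nonneg (by linarith : (0 : ℝ) ≤ v - 1 / 10) h6
  linarith

/-- `G7 ≥ 1.052` on `[-21/25, -17/25]` -/
theorem G_big' {t : ℝ} (h1 : -21 / 25 ≤ t) (h2 : t ≤ -17 / 25) : 1052 / 1000 ≤ G7 t := by
  obtain ⟨v, rfl⟩ : ∃ v, t = -1 + v := ⟨1 + t, by ring⟩
  have h3 : 4 / 25 ≤ v := by linarith
  have h4 : v ≤ 8 / 25 := by linarith
  have h5 : G7 (-1 + v) = v * (4 - 3 * v) * (2 - 3 * v) ^ 2 := by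
    unfold G7
    ring
  rw [h5]
  have h8 : 0 ≤ (v - 4 / 25) * (8 / 25 - v) := mul_nonneg (by linarith) (by linarith)
  have h9 : 0 ≤ (v - 4 / 25) * (8 / 25 - v) * v := mul_nonneg h8 (by linarith)
  have h10 : 0 ≤ (v - 4 / 25) * (8 / 25 - v) * (8 / 25 - v) := mul_nonneg h8 (by linarith)
  nlinarith [mul_nonneg h8 (sq_nonneg (v - 1 / 4)), mul_nonneg h8 (sq_nonneg v)]

theorem A_small {t : ℝ} (h1 : -9 / 10 ≤ t) (h2 : t ≤ -21 / 25) : A7 t ≤ 6182 / 10000 := by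
  unfold A7
  have h3 : t ^ 2 ≤ 81 / 100 := by nlinarith
  have h4 : (441 / 625 : ℝ) ≤ t ^ 2 := by nlinarith
  have h5 : 0 ≤ (9 * t ^ 2 - 1) / 8 := by linarith
  have h6 : (9 * t ^ 2 - 1) / 8 ≤ 629 / 800 := by linarith
  calc ((9 * t ^ 2 - 1) / 8) ^ 2 ≤ (629 / 800) ^ 2 := by gcongr
    _ ≤ 6182 / 10000 := by norm_num

/-- the chord of `K` -/
theorem K_chord {v : ℝ} (h1 : 1 / 80 ≤ v) (h2 : v ≤ 1 / 10) :
    2413 / 10000 + 1437 / 100 * (v - 1 / 80) ≤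
      2 * (1 - A7 (-1 + v)) + 11 / 16 * G7 (-1 + v) := by
  have h3 : 2 * (1 - A7 (-1 + v)) + 11 / 16 * G7 (-1 + v) =
      20 * v - 447 / 8 * v ^ 2 + 477 / 8 * v ^ 3 - 675 / 32 * v ^ 4 := by
    unfold G7 A7
    ring
  rw [h3]
  have h8 : 0 ≤ (v - 1 / 80) * (1 / 10 - v) := mul_nonneg (by linarith) (by linarith)
  have h9 : 0 ≤ (v - 1 / 80) * (1 / 10 - v) * (1 / 10 - v) := mul_nonneg h8 (by linarith)
  have h10 : 0 ≤ (v - 1 / 80) * (1 / 10 - v) * v ^ 2 := mul_nonneg h8 (by positivity)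
  nlinarith [h8, h9, h10]

/-! ### Sums -/

section Sums

variable {α : Type} [DecidableEq α]

theorem offd (N : Finset α) (f : α → α → ℝ) :
    ∑ i ∈ N, ∑ j ∈ N, f i j = ∑ i ∈ N, f i i + ∑ q ∈ N.offDiag, f q.1 q.2 := by
  rw [← Finset.sum_product' N N f, ← Finset.diag_union_offDiag,
    Finset.sum_union (Finset.disjoint_diag_offDiag N), Finset.sum_diag]

/-- a finite set with an involution without fixed points has even order -/
theorem even_card (M : Finset (α × α)) (h1 : ∀ q ∈ M, q.swap ∈ M) (h2 : ∀ q ∈ M, q.1 ≠ q.2) :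
    Even M.card := by
  have h : ∑ _q ∈ M, (1 : ZMod 2) = 0 := by
    refine Finset.sum_involution (fun q _ => q.swap) (fun q hq => by decide)
      (fun q hq _ h => h2 q hq (congrArg Prod.fst h).symm) (fun q hq => h1 q hq)
      (fun q hq => Prod.swap_swap q)
  rw [Finset.sum_const, nsmul_eq_mul, mul_one] at h
  exact (ZMod.natCast_eq_zero_iff_even).1 h

variable {N : Finset α} {p : α → V7} {C : Finset (α × α)}

/-- scalar products -/
noncomputable def tt (p : α → V7) (q : α × α) : ℝ := inner ℝ (p q.1) (p q.2)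

theorem tt_swap (p : α → V7) (q : α × α) : tt p q.swap = tt p q := by
  unfold tt
  exact real_inner_comm _ _

theorem tt_abs {B cA : ℝ} (h : LK N p C B cA) {q : α × α} (h1 : q.1 ∈ N) (h2 : q.2 ∈ N) :
    -1 ≤ tt p q ∧ tt p q ≤ 1 := by
  have h3 := abs_real_inner_le_norm (p q.1) (p q.2)
  rw [h.unit _ h1, h.unit _ h2, mul_one] at h3
  exact abs_le.1 h3

/-- non-contact ordered pairs -/
def PP (N : Finset α) (C : Finset (α × α)) : Finset (α × α) := N.offDiag.filter fun q => q ∉ C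

open Classical in
/-- matched ordered pairs -/
noncomputable def MM (N : Finset α) (p : α → V7) : Finset (α × α) :=
  N.offDiag.filter fun q => tt p q ≤ -21 / 25

theorem s1 (hK : SpecKER7) (h : LK N p C (418 / 100) (3 / 10)) :
    557 / 10 ≤ ∑ q ∈ PP N C, A7 (tt p q) := by
  have h1 := hK.a N p h.unit
  rw [offd N fun i j => A7 (inner ℝ (p i) (p j)), h.card] at h1
  have h2 : ∑ i ∈ N, A7 (inner ℝ (p i) (p i)) = 56 := by
    have h3 : ∀ i ∈ N, A7 (inner ℝ (p i) (p i)) = 1 := by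
      intro i hi
      rw [real_inner_self_eq_norm_sq, h.unit i hi]
      norm_num [A7]
    rw [Finset.sum_congr rfl h3, Finset.sum_const, h.card]
    norm_num
  rw [h2] at h1
  have h4 := Finset.sum_filter_add_sum_filter_not N.offDiag (fun q => q ∈ C)
    (fun q => A7 (inner ℝ (p q.1) (p q.2)))
  have h5 := h.ccA
  have h6 : ∑ q ∈ PP N C, A7 (tt p q) =
      ∑ q ∈ N.offDiag.filter (fun q => ¬ q ∈ C), A7 (inner ℝ (p q.1) (p q.2)) := rfl
  rw [h6]
  have h7 : ((56 : ℕ) : ℝ) ^ 2 / 28 = 112 := by norm_num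
  rw [h7] at h1
  linarith

theorem s2 (hK : SpecKER7) (h : LK N p C (418 / 100) (3 / 10)) :
    ∑ q ∈ PP N C, G7 (tt p q) ≤ 418 / 100 := by
  have h1 := hK.t2 N p h.unit
  rw [h.card] at h1
  have h2 := h.bud
  have h6 : ∑ q ∈ PP N C, G7 (tt p q) =
      ∑ q ∈ N.offDiag.filter (fun q => q ∉ C), G7 (inner ℝ (p q.1) (p q.2)) := rfl
  rw [h6]
  have h7 : ((56 : ℕ) : ℝ) ^ 2 / 7 = 448 := by norm_num
  rw [h7] at h1
  have h8 : 0 ≤ 228 / 11 * (∑ b ∈ N, ∑ c ∈ N, (inner ℝ (p b) (p c) : ℝ) ^ 2 - 448) := by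
    have : 0 ≤ ∑ b ∈ N, ∑ c ∈ N, (inner ℝ (p b) (p c) : ℝ) ^ 2 - 448 := by linarith
    positivity
  linarith

theorem mem_PP {q : α × α} : q ∈ PP N C ↔ (q.1 ∈ N ∧ q.2 ∈ N ∧ q.1 ≠ q.2) ∧ q ∉ C := by
  unfold PP
  rw [Finset.mem_filter, Finset.mem_offDiag]

theorem mem_MM {q : α × α} : q ∈ MM N p ↔ (q.1 ∈ N ∧ q.2 ∈ N ∧ q.1 ≠ q.2) ∧ tt p q ≤ -21 / 25 := by
  unfold MM
  rw [Finset.mem_filter, Finset.mem_offDiag]

theorem PP_le {B cA : ℝ} (h : LK N p C B cA) {q : α × α} (hq : q ∈ PP N C) :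
    -1 ≤ tt p q ∧ tt p q ≤ 1 / 3 := by
  obtain ⟨⟨h1, h2, h3⟩, h4⟩ := mem_PP.1 hq
  exact ⟨(tt_abs h h1 h2).1, h.non _ h1 _ h2 h3 h4⟩

theorem MM_sub {B cA : ℝ} (h : LK N p C B cA) : MM N p ⊆ PP N C := by
  intro q hq
  obtain ⟨⟨h1, h2, h3⟩, h4⟩ := mem_MM.1 hq
  refine mem_PP.2 ⟨⟨h1, h2, h3⟩, fun hC => ?_⟩
  have h5 := h.con _ h1 _ h2 h3 hC
  have h6 : tt p q = inner ℝ (p q.1) (p q.2) := rfl
  rw [h6] at h4
  linarith

theorem uniq {B cA : ℝ} (h : LK N p C B cA) {b c c' : α} (hb : b ∈ N) (hc : c ∈ N)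
    (hc' : c' ∈ N) (h1 : tt p (b, c) ≤ -21 / 25) (h2 : tt p (b, c') ≤ -21 / 25) : c = c' := by
  by_contra hne
  have h3 := h.up c hc c' hc' hne
  have h4 : ‖p c + p c'‖ ^ 2 = 2 + 2 * inner ℝ (p c) (p c') := by
    rw [norm_add_sq_real, h.unit c hc, h.unit c' hc']
    ring
  have h5 := abs_real_inner_le_norm (p b) (p c + p c')
  rw [h.unit b hb, one_mul, inner_add_right] at h5
  have h6 : tt p (b, c) = inner ℝ (p b) (p c) := rfl
  have h7 : tt p (b, c') = inner ℝ (p b) (p c') := rfl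
  rw [h6] at h1
  rw [h7] at h2
  have h8 : 42 / 25 ≤ ‖p c + p c'‖ := by
    refine le_trans ?_ h5
    refine le_trans ?_ (neg_le_abs _)
    linarith
  have h9 : (42 / 25 : ℝ) ^ 2 ≤ ‖p c + p c'‖ ^ 2 := by gcongr
  rw [h4] at h9
  linarith

/-- the matched pairs: bound for the rest -/
theorem rest (hK : SpecKER7) (h : LK N p C (418 / 100) (3 / 10)) (κ : ℝ)
    (hκ0 : 0 ≤ κ) (hκ : ∀ q ∈ PP N C, q ∉ MM N p → A7 (tt p q) ≤ κ * G7 (tt p q)) :
    557 / 10 ≤ ∑ q ∈ MM N p, A7 (tt p q) + κ * (418 / 100 - ∑ q ∈ MM N p, G7 (tt p q)) := by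
  have h1 := s1 hK h
  have h2 := s2 hK h
  have hs := MM_sub h
  rw [← Finset.sum_sdiff hs] at h1 h2
  have h3 : ∑ q ∈ PP N C \ MM N p, A7 (tt p q) ≤ κ * ∑ q ∈ PP N C \ MM N p, G7 (tt p q) := by
    rw [Finset.mul_sum]
    refine Finset.sum_le_sum fun q hq => ?_
    obtain ⟨h4, h5⟩ := Finset.mem_sdiff.1 hq
    exact hκ q h4 h5
  have h4 : κ * ∑ q ∈ PP N C \ MM N p, G7 (tt p q) ≤
      κ * (418 / 100 - ∑ q ∈ MM N p, G7 (tt p q)) := by
    refine mul_le_mul_of_nonneg_left ?_ hκ0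
    linarith
  linarith

theorem rest_cond {B cA : ℝ} (h : LK N p C B cA) {q : α × α} (hq : q ∈ PP N C)
    (hM : q ∉ MM N p) : -21 / 25 < tt p q := by
  by_contra hlt
  exact hM (mem_MM.2 ⟨(mem_PP.1 hq).1, not_lt.1 hlt⟩)

theorem card_MM (hK : SpecKER7) (h : LK N p C (418 / 100) (3 / 10)) : (MM N p).card = 56 := by
  have h1 := rest hK h (11 / 32) (by norm_num) fun q hq hM =>
    A_le_G (rest_cond h hq hM).le (PP_le h hq).2
  have h2 : ∑ q ∈ MM N p, A7 (tt p q) ≤ (MM N p).card := by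
    have h3 : ∑ q ∈ MM N p, A7 (tt p q) ≤ ∑ _q ∈ MM N p, (1 : ℝ) := by
      refine Finset.sum_le_sum fun q hq => ?_
      have h4 := tt_abs h (mem_MM.1 hq).1.1 (mem_MM.1 hq).1.2.1
      exact A_le_one h4.1 h4.2
    rwa [Finset.sum_const, nsmul_eq_mul, mul_one] at h3
  have h3 : 0 ≤ ∑ q ∈ MM N p, G7 (tt p q) := by
    refine Finset.sum_nonneg fun q hq => ?_
    have h4 := PP_le h (MM_sub h hq)
    exact G_nonneg h4.1 h4.2
  have h4 : (54 : ℝ) < (MM N p).card := by linarith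
  have h5 : 54 < (MM N p).card := by exact_mod_cast h4
  have h6 : Even (MM N p).card := by
    refine even_card _ (fun q hq => ?_) fun q hq => (mem_MM.1 hq).1.2.2
    obtain ⟨⟨h1, h2, h3⟩, h4⟩ := mem_MM.1 hq
    exact mem_MM.2 ⟨⟨h2, h1, h3.symm⟩, by rwa [tt_swap]⟩
  have h7 : (MM N p).card ≤ 56 := by
    rw [← h.card]
    refine Finset.card_le_card_of_injOn Prod.fst (fun q hq => (mem_MM.1 hq).1.1) ?_
    intro q hq q' hq' heq
    obtain ⟨⟨a1, a2, a3⟩, a4⟩ := mem_MM.1 hq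
    obtain ⟨⟨b1, b2, b3⟩, b4⟩ := mem_MM.1 hq'
    refine Prod.ext heq (uniq h a1 a2 b2 a4 ?_)
    have : (q.1, q'.2) = q' := Prod.ext heq rfl
    rwa [this]
  obtain ⟨k, hk⟩ := h6
  omega

theorem exists_partner (hK : SpecKER7) (h : LK N p C (418 / 100) (3 / 10)) {b : α}
    (hb : b ∈ N) : ∃ c, c ∈ N ∧ b ≠ c ∧ tt p (b, c) ≤ -21 / 25 := by
  have h1 := card_MM hK h
  have hinj : Set.InjOn Prod.fst (MM N p : Set (α × α)) := by
    intro q hq q' hq' heq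
    obtain ⟨⟨a1, a2, a3⟩, a4⟩ := mem_MM.1 hq
    obtain ⟨⟨b1, b2, b3⟩, b4⟩ := mem_MM.1 hq'
    refine Prod.ext heq (uniq h a1 a2 b2 a4 ?_)
    have : (q.1, q'.2) = q' := Prod.ext heq rfl
    rwa [this]
  have h2 : ((MM N p).image Prod.fst).card = 56 := by
    rw [Finset.card_image_of_injOn hinj, h1]
  have h3 : (MM N p).image Prod.fst = N := by
    refine Finset.eq_of_subset_of_card_le ?_ (by rw [h2, h.card])
    intro x hx
    obtain ⟨q, hq, rfl⟩ := Finset.mem_image.1 hx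
    exact (mem_MM.1 hq).1.1
  rw [← h3] at hb
  obtain ⟨q, hq, rfl⟩ := Finset.mem_image.1 hb
  obtain ⟨⟨a1, a2, a3⟩, a4⟩ := mem_MM.1 hq
  exact ⟨q.2, a2, a3, a4⟩

/-- sums over the matched pairs -/
theorem sum_MM {B cA : ℝ} (h : LK N p C B cA) (σ : α → α)
    (hσ : ∀ b ∈ N, σ b ∈ N ∧ b ≠ σ b ∧ tt p (b, σ b) ≤ -21 / 25) (f : ℝ → ℝ) :
    ∑ q ∈ MM N p, f (tt p q) = ∑ x ∈ N, f (tt p (x, σ x)) := by
  have h1 : MM N p = N.image fun x => (x, σ x) := by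
    ext q
    rw [Finset.mem_image]
    constructor
    · intro hq
      obtain ⟨⟨a1, a2, a3⟩, a4⟩ := mem_MM.1 hq
      exact ⟨q.1, a1, Prod.ext rfl (uniq h a1 (hσ _ a1).1 a2 (hσ _ a1).2.2 a4)⟩
    · rintro ⟨x, hx, rfl⟩
      exact mem_MM.2 ⟨⟨hx, (hσ x hx).1, (hσ x hx).2.1⟩, (hσ x hx).2.2⟩
  rw [h1, Finset.sum_image fun x _ y _ hxy => congrArg Prod.fst hxy]

/-- the inequality with a set `E` of special points -/
theorem core (hK : SpecKER7) (h : LK N p C (418 / 100) (3 / 10)) (σ : α → α)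
    (hσ : ∀ b ∈ N, σ b ∈ N ∧ b ≠ σ b ∧ tt p (b, σ b) ≤ -21 / 25) (κ : ℝ)
    (hκ0 : 0 ≤ κ) (hκ : ∀ q ∈ PP N C, q ∉ MM N p → A7 (tt p q) ≤ κ * G7 (tt p q))
    (E : Finset α) (hE : E ⊆ N) :
    557 / 10 ≤ ∑ x ∈ E, A7 (tt p (x, σ x)) + (56 - (E.card : ℝ)) +
      κ * (418 / 100 - ∑ x ∈ E, G7 (tt p (x, σ x))) := by
  have h1 := rest hK h κ hκ0 hκ
  rw [sum_MM h σ hσ A7, sum_MM h σ hσ G7, ← Finset.sum_sdiff hE,
    ← Finset.sum_sdiff hE (f := fun x => G7 (tt p (x, σ x)))] at h1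
  have h2 : ∑ x ∈ N \ E, A7 (tt p (x, σ x)) ≤ 56 - (E.card : ℝ) := by
    have h3 : ∑ x ∈ N \ E, A7 (tt p (x, σ x)) ≤ ∑ _x ∈ N \ E, (1 : ℝ) := by
      refine Finset.sum_le_sum fun x hx => ?_
      have hx' := (Finset.mem_sdiff.1 hx).1
      have h4 := tt_abs h (q := (x, σ x)) hx' (hσ x hx').1
      exact A_le_one h4.1 h4.2
    rw [Finset.sum_const, nsmul_eq_mul, mul_one, Finset.card_sdiff_of_subset hE, h.card] at h3
    have h5 : E.card ≤ 56 := by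
      rw [← h.card]
      exact Finset.card_le_card hE
    rwa [Nat.cast_sub h5] at h3
  have h6 : 0 ≤ ∑ x ∈ N \ E, G7 (tt p (x, σ x)) := by
    refine Finset.sum_nonneg fun x hx => ?_
    have hx' := (Finset.mem_sdiff.1 hx).1
    have h4 := tt_abs h (q := (x, σ x)) hx' (hσ x hx').1
    exact G_nonneg h4.1 (by have := (hσ x hx').2.2; linarith)
  have h7 : κ * (418 / 100 - (∑ x ∈ N \ E, G7 (tt p (x, σ x)) + ∑ x ∈ E, G7 (tt p (x, σ x)))) ≤
      κ * (418 / 100 - ∑ x ∈ E, G7 (tt p (x, σ x))) := by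
    refine mul_le_mul_of_nonneg_left ?_ hκ0
    linarith
  linarith

end Sums

end ANTM

open ANTM in
open Classical in
theorem specANT (hKER7 : SpecKER7) : SpecANT := by
  intro α _ N p C h
  have hex : ∀ b, ∃ c, b ∈ N → c ∈ N ∧ b ≠ c ∧ tt p (b, c) ≤ -21 / 25 := by
    intro b
    by_cases hb : b ∈ N
    · obtain ⟨c, hc⟩ := exists_partner hKER7 h hb
      exact ⟨c, fun _ => hc⟩
    · exact ⟨b, fun h => absurd h hb⟩
  choose σ hσ using hex
  have hinv : ∀ b ∈ N, σ (σ b) = b := by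
    intro b hb
    obtain ⟨h1, h2, h3⟩ := hσ b hb
    obtain ⟨h4, h5, h6⟩ := hσ (σ b) h1
    refine uniq h h1 h4 hb h6 ?_
    have := tt_swap p (b, σ b)
    rw [Prod.swap_prod_mk] at this
    rw [this]
    exact h3
  have hsym : ∀ b ∈ N, tt p (σ b, σ (σ b)) = tt p (b, σ b) := by
    intro b hb
    rw [hinv b hb]
    exact tt_swap p (b, σ b)
  have hfar : ∀ b ∈ N, ∀ c ∈ N, c ≠ b → c ≠ σ b → -21 / 25 < tt p (b, c) := by
    intro b hb c hc h1 h2
    by_contra hlt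
    exact h2 (uniq h hb hc (hσ b hb).1 (not_lt.1 hlt) (hσ b hb).2.2)
  have hnear : ∀ b ∈ N, tt p (b, σ b) ≤ -9 / 10 := by
    intro b hb
    by_contra hlt
    have h0 : -9 / 10 < tt p (b, σ b) := not_le.1 hlt
    obtain ⟨h1, h2, h3⟩ := hσ b hb
    have hG := G_big h0.le h3
    have hA := A_small h0.le h3
    have hbM : (b, σ b) ∈ MM N p := mem_MM.2 ⟨⟨hb, h1, h2⟩, h3⟩
    have hbM' : (σ b, b) ∈ MM N p := by
      refine mem_MM.2 ⟨⟨h1, hb, h2.symm⟩, ?_⟩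
      have := tt_swap p (b, σ b)
      rw [Prod.swap_prod_mk] at this
      rw [this]
      exact h3
    have hκ : ∀ q ∈ PP N C, q ∉ MM N p → A7 (tt p q) ≤ 297 / 2000 * G7 (tt p q) := by
      intro q hq hM
      have hr := rest_cond h hq hM
      refine A_le_G' ?_ (PP_le h hq).2
      by_contra hlt'
      have hq68 : tt p q ≤ -17 / 25 := (not_le.1 hlt').le
      have hG' := G_big' hr.le hq68
      have hqs : q.swap ∈ PP N C := by
        obtain ⟨⟨a1, a2, a3⟩, a4⟩ := mem_PP.1 hq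
        exact mem_PP.2 ⟨⟨a2, a1, a3.symm⟩, fun hC => a4 (h.symm _ _ hC)⟩
      have hqsM : q.swap ∉ MM N p := by
        intro hC
        apply hM
        obtain ⟨⟨a1, a2, a3⟩, a4⟩ := mem_MM.1 hC
        exact mem_MM.2 ⟨⟨a2, a1, a3.symm⟩, by rwa [tt_swap] at a4⟩
      have h5 := s2 hKER7 h
      have h6 : ({(b, σ b), (σ b, b)} ∪ {q, q.swap} : Finset (α × α)) ⊆ PP N C := by
        intro x hx
        simp only [Finset.mem_union, Finset.mem_insert, Finset.mem_singleton] at hx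
        rcases hx with (rfl | rfl) | (rfl | rfl)
        · exact MM_sub h hbM
        · exact MM_sub h hbM'
        · exact hq
        · exact hqs
      have h7 : ∑ x ∈ ({(b, σ b), (σ b, b)} ∪ {q, q.swap} : Finset (α × α)), G7 (tt p x) ≤
          ∑ x ∈ PP N C, G7 (tt p x) :=
        Finset.sum_le_sum_of_subset_of_nonneg h6 fun x hx _ =>
          G_nonneg (PP_le h hx).1 (PP_le h hx).2
      have hdis : Disjoint ({(b, σ b), (σ b, b)} : Finset (α × α)) {q, q.swap} := by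
        rw [Finset.disjoint_left]
        intro x hx hx'
        simp only [Finset.mem_insert, Finset.mem_singleton] at hx hx'
        have hx1 : x ∈ MM N p := by
          rcases hx with rfl | rfl
          · exact hbM
          · exact hbM'
        rcases hx' with rfl | rfl
        · exact hM hx1
        · exact hqsM hx1
      have hne1 : (b, σ b) ≠ (σ b, b) := fun hc => h2 (congrArg Prod.fst hc)
      have hne2 : q ≠ q.swap := fun hc => (mem_PP.1 hq).1.2.2 (congrArg Prod.fst hc)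
      rw [Finset.sum_union hdis, Finset.sum_pair hne1, Finset.sum_pair hne2, tt_swap] at h7
      have h8 : tt p (σ b, b) = tt p (b, σ b) := tt_swap p (b, σ b)
      rw [h8] at h7
      linarith
    have hcore := core hKER7 h σ hσ (297 / 2000) (by norm_num) hκ {b, σ b} (by
      intro x hx
      simp only [Finset.mem_insert, Finset.mem_singleton] at hx
      rcases hx with rfl | rfl
      · exact hb
      · exact h1)
    rw [Finset.sum_pair h2, Finset.sum_pair h2, Finset.card_pair h2, hsym b hb] at hcore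
    push_cast at hcore
    linarith
  refine ⟨σ, ⟨fun b hb => ⟨(hσ b hb).1, hinv b hb, (hσ b hb).2.1.symm⟩, hnear, hfar, ?_⟩⟩
  intro b hb c hc hcb hcσ
  by_contra hlt
  have h0 : 9 / 80 < (1 + tt p (b, σ b)) + (1 + tt p (c, σ c)) := not_le.1 hlt
  obtain ⟨v, hv⟩ : ∃ v, tt p (b, σ b) = -1 + v := ⟨1 + tt p (b, σ b), by ring⟩
  obtain ⟨v', hv'⟩ : ∃ v', tt p (c, σ c) = -1 + v' := ⟨1 + tt p (c, σ c), by ring⟩
  have hb1 := hnear b hb
  have hc1 := hnear c hc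
  rw [hv, hv'] at h0
  rw [hv] at hb1
  rw [hv'] at hc1
  have k1 := K_chord (v := v) (by linarith) (by linarith)
  have k2 := K_chord (v := v') (by linarith) (by linarith)
  obtain ⟨b1, b2, b3⟩ := hσ b hb
  obtain ⟨c1, c2, c3⟩ := hσ c hc
  have hcσ' : σ c ≠ b := by
    intro heq
    apply hcσ
    rw [← heq, hinv c hc]
  have hσσ : σ b ≠ σ c := by
    intro heq
    apply hcb
    rw [← hinv b hb, heq, hinv c hc]
  have hκ : ∀ q ∈ PP N C, q ∉ MM N p → A7 (tt p q) ≤ 11 / 32 * G7 (tt p q) := fun q hq hM =>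
    A_le_G (rest_cond h hq hM).le (PP_le h hq).2
  have hdis : Disjoint ({b, σ b} : Finset α) {c, σ c} := by
    rw [Finset.disjoint_left]
    intro x hx hx'
    simp only [Finset.mem_insert, Finset.mem_singleton] at hx hx'
    rcases hx with rfl | rfl <;> rcases hx' with hx' | hx'
    · exact hcb hx'.symm
    · exact hcσ' hx'.symm
    · exact hcσ hx'.symm
    · exact hσσ hx'
  have hcore := core hKER7 h σ hσ (11 / 32) (by norm_num) hκ ({b, σ b} ∪ {c, σ c}) (by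
    intro x hx
    simp only [Finset.mem_union, Finset.mem_insert, Finset.mem_singleton] at hx
    rcases hx with (rfl | rfl) | (rfl | rfl)
    · exact hb
    · exact b1
    · exact hc
    · exact c1)
  rw [Finset.sum_union hdis, Finset.sum_union hdis, Finset.card_union_of_disjoint hdis,
    Finset.sum_pair b2, Finset.sum_pair b2, Finset.sum_pair c2, Finset.sum_pair c2,
    Finset.card_pair b2, Finset.card_pair c2, hsym b hb, hsym c hc, hv, hv'] at hcore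
  push_cast at hcore
  linarith

end Pool.Agent.Lib.MP_f1379f_gt.FV
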