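import Pool.Agent.Lib.MP_f1379f_gt.FV.GQA
import Pool.Agent.Lib.MP_f1379f_gt.FV.SpecO

section
/-!
# MP_f1379f_gt: the common neighbours of two touching roots of E8 form the graph (27, 10, 1, 5)
-/
set_option autoImplicit false

open Finset

namespace Pool.Agent.Lib.MP_f1379f_gt.FV

open Classical in
/-- The common neighbours of `a` and `e`. -/
noncomputable def cn (a e : E) : Finset E :=
  UE.filter fun b => (inner ℝ b e : ℝ) = 1 / 2 ∧ (inner ℝ b a : ℝ) = 1 / 2

lemma mem_cn {a e b : E} :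
    b ∈ cn a e ↔ b ∈ UE ∧ (inner ℝ b e : ℝ) = 1 / 2 ∧ (inner ℝ b a : ℝ) = 1 / 2 := by
  unfold cn
  rw [mem_filter]

namespace GQB

set_option linter.unusedSectionVars false

variable (h : SpecUEF) {a e : E} (ha : a ∈ UE) (he : e ∈ nb a)

lemma he' (he : e ∈ nb a) : e ∈ UE ∧ (inner ℝ e a : ℝ) = 1 / 2 := by
  unfold nb at he
  rw [mem_filter] at he
  exact he

include h ha he

lemma nsq {x : E} (hx : x ∈ UE) : (inner ℝ x x : ℝ) = 1 := by
  rw [real_inner_self_eq_norm_sq, h.nrm x hx, one_pow]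

/-- products in `cn a e` -/
lemma ipc {b c : E} (hb : b ∈ cn a e) (hc : c ∈ cn a e) (hbc : b ≠ c) :
    (inner ℝ b c : ℝ) = 1 / 2 ∨ (inner ℝ b c : ℝ) = 0 := by
  obtain ⟨b0, b1, b2⟩ := mem_cn.1 hb
  obtain ⟨c0, c1, c2⟩ := mem_cn.1 hc
  obtain ⟨e0, e1⟩ := he' he
  rcases h.ip b b0 c c0 with h1 | h1 | h1 | h1 | h1
  · exact absurd (h.one b b0 c c0 h1) hbc
  · exact Or.inl h1
  · exact Or.inr h1
  · exfalso
    have h2 := h.add b b0 c c0 h1
    have h3 : (inner ℝ (b + c) a : ℝ) = 1 := by rw [inner_add_left, b2, c2]; norm_num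
    have h4 := h.one _ h2 a ha h3
    have h5 : (inner ℝ (b + c) e : ℝ) = 1 := by rw [inner_add_left, b1, c1]; norm_num
    rw [h4, real_inner_comm, e1] at h5
    norm_num at h5
  · exfalso
    have h2 := h.one (-b) (h.neg b b0) c c0 (by rw [inner_neg_left, h1]; norm_num)
    rw [← h2, inner_neg_left, b2] at c2
    norm_num at c2

/-- the third point of a line -/
lemma third {b c : E} (hb : b ∈ cn a e) (hc : c ∈ cn a e) (hbc : (inner ℝ b c : ℝ) = 0) :
    a + e - b - c ∈ cn a e ∧ (inner ℝ b (a + e - b - c) : ℝ) = 0 ∧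
      (inner ℝ c (a + e - b - c) : ℝ) = 0 := by
  obtain ⟨b0, b1, b2⟩ := mem_cn.1 hb
  obtain ⟨c0, c1, c2⟩ := mem_cn.1 hc
  obtain ⟨e0, e1⟩ := he' he
  have b1' : (inner ℝ e b : ℝ) = 1 / 2 := by rw [real_inner_comm]; exact b1
  have b2' : (inner ℝ a b : ℝ) = 1 / 2 := by rw [real_inner_comm]; exact b2
  have c1' : (inner ℝ e c : ℝ) = 1 / 2 := by rw [real_inner_comm]; exact c1
  have c2' : (inner ℝ a c : ℝ) = 1 / 2 := by rw [real_inner_comm]; exact c2
  have e1' : (inner ℝ a e : ℝ) = 1 / 2 := by rw [real_inner_comm]; exact e1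
  have hbc' : (inner ℝ c b : ℝ) = 0 := by rw [real_inner_comm]; exact hbc
  have haa := nsq h ha he ha
  have hee := nsq h ha he e0
  have hbb := nsq h ha he b0
  have hcc := nsq h ha he c0
  have h1 := h.sub a ha b b0 b2'
  have h2 := h.sub e e0 c c0 c1'
  have h3 : (inner ℝ (a - b) (e - c) : ℝ) = -1 / 2 := by
    rw [inner_sub_left, inner_sub_right, inner_sub_right, e1', c2', b1, hbc]
    norm_num
  have h4 := h.add _ h1 _ h2 h3
  have h5 : a - b + (e - c) = a + e - b - c := by abel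
  rw [h5] at h4
  refine ⟨mem_cn.2 ⟨h4, ?_, ?_⟩, ?_, ?_⟩
  · rw [inner_sub_left, inner_sub_left, inner_add_left, e1', hee, b1, c1]; norm_num
  · rw [inner_sub_left, inner_sub_left, inner_add_left, haa, e1, b2, c2]; norm_num
  · rw [inner_sub_right, inner_sub_right, inner_add_right, b2, b1, hbb, hbc]; norm_num
  · rw [inner_sub_right, inner_sub_right, inner_add_right, c2, c1, hbc', hcc]; norm_num

lemma card27 : (cn a e).card = 27 := by
  have h1 := h.c27 a ha e he
  have h2 : ({b : E | b ∈ UE ∧ (inner ℝ b e : ℝ) = 1 / 2 ∧ (inner ℝ b a : ℝ) = 1 / 2}) =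
      ((cn a e : Finset E) : Set E) := by
    ext b
    rw [Finset.mem_coe, mem_cn]
    rfl
  rw [h2, Set.ncard_coe_finset] at h1
  exact h1

lemma card16 {w : E} (hw : w ∈ cn a e) [DecidablePred fun b : E => (inner ℝ b w : ℝ) = 1 / 2] :
    ((cn a e).filter fun b => (inner ℝ b w : ℝ) = 1 / 2).card = 16 := by
  obtain ⟨w0, w1, w2⟩ := mem_cn.1 hw
  have h1 := h.c16 a ha e he w w0 w1 w2
  have h2 : ({b : E | b ∈ UE ∧ (inner ℝ b e : ℝ) = 1 / 2 ∧ (inner ℝ b a : ℝ) = 1 / 2 ∧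
      (inner ℝ b w : ℝ) = 1 / 2}) =
      (((cn a e).filter fun b => (inner ℝ b w : ℝ) = 1 / 2 : Finset E) : Set E) := by
    ext b
    rw [Finset.mem_coe, mem_filter, mem_cn]
    constructor
    · rintro ⟨g1, g2, g3, g4⟩
      exact ⟨⟨g1, g2, g3⟩, g4⟩
    · rintro ⟨⟨g1, g2, g3⟩, g4⟩
      exact ⟨g1, g2, g3, g4⟩
  rw [h2, Set.ncard_coe_finset] at h1
  exact h1

open Classical in
lemma card10 {w : E} (hw : w ∈ cn a e) :
    ((cn a e).filter fun b => (inner ℝ w b : ℝ) = 0).card = 10 := by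
  have h1 : cn a e = insert w (((cn a e).filter fun b => (inner ℝ b w : ℝ) = 1 / 2) ∪
      ((cn a e).filter fun b => (inner ℝ w b : ℝ) = 0)) := by
    ext b
    rw [mem_insert, mem_union, mem_filter, mem_filter]
    constructor
    · intro hb
      by_cases hbw : b = w
      · exact Or.inl hbw
      · rcases ipc h ha he hb hw hbw with h2 | h2
        · exact Or.inr (Or.inl ⟨hb, h2⟩)
        · exact Or.inr (Or.inr ⟨hb, by rw [real_inner_comm]; exact h2⟩)
    · rintro (rfl | h2 | h2)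
      · exact hw
      · exact h2.1
      · exact h2.1
  have hd : Disjoint ((cn a e).filter fun b => (inner ℝ b w : ℝ) = 1 / 2)
      ((cn a e).filter fun b => (inner ℝ w b : ℝ) = 0) := by
    rw [Finset.disjoint_left]
    intro b hb hb'
    rw [mem_filter] at hb hb'
    rw [real_inner_comm, hb'.2] at hb
    norm_num at hb
  have hn : w ∉ ((cn a e).filter fun b => (inner ℝ b w : ℝ) = 1 / 2) ∪
      ((cn a e).filter fun b => (inner ℝ w b : ℝ) = 0) := by
    rw [mem_union, mem_filter, mem_filter, nsq h ha he (mem_cn.1 hw).1]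
    norm_num
  have h3 := congrArg Finset.card h1
  rw [card_insert_of_notMem hn, card_union_of_disjoint hd, card16 h ha he hw,
    card27 h ha he] at h3
  omega

end GQB

/-- **The 27 common neighbours** of two touching roots, with the relation `<b,c> = 0`. -/
theorem gq_cn (h : SpecUEF) {a e : E} (ha : a ∈ UE) (he : e ∈ nb a) :
    GQ (cn a e) fun b c => (inner ℝ b c : ℝ) = 0 := by
  classical
  refine ⟨GQB.card27 h ha he, ?_, ?_, ?_, ?_, ?_⟩
  · intro u _ v _ huv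
    rw [real_inner_comm]
    exact huv
  · intro u hu huu
    rw [GQB.nsq h ha he (mem_cn.1 hu).1] at huu
    norm_num at huu
  · intro u hu
    convert GQB.card10 h ha he hu using 2
  · intro u hu v hv huv
    obtain ⟨h1, h2, h3⟩ := GQB.third h ha he hu hv huv
    rw [Finset.card_eq_one]
    refine ⟨a + e - u - v, ?_⟩
    ext w
    rw [mem_filter, mem_singleton]
    constructor
    · rintro ⟨hw, h4, h5⟩
      obtain ⟨w0, w1, w2⟩ := mem_cn.1 hw
      have h6 : (inner ℝ (a + e - u - v) w : ℝ) = 1 := by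
        rw [inner_sub_left, inner_sub_left, inner_add_left, h4, h5, real_inner_comm, w2,
          real_inner_comm, w1]
        norm_num
      exact (h.one _ (mem_cn.1 h1).1 w w0 h6).symm
    · rintro rfl
      exact ⟨h1, h2, h3⟩
  · intro u hu v hv huv hne
    have huv1 : (inner ℝ u v : ℝ) = 1 / 2 := by
      rcases GQB.ipc h ha he hu hv huv with h1 | h1
      · exact h1
      · exact absurd h1 hne
    have hsplit : ((cn a e).filter fun b => (inner ℝ u b : ℝ) = 0) =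
        ((cn a e).filter fun b => (inner ℝ u b : ℝ) = 0 ∧ (inner ℝ v b : ℝ) = 0) ∪
        ((cn a e).filter fun b => (inner ℝ u b : ℝ) = 0 ∧ (inner ℝ v b : ℝ) = 1 / 2) := by
      ext b
      rw [mem_union, mem_filter, mem_filter, mem_filter]
      constructor
      · rintro ⟨hb, h1⟩
        have hbv : v ≠ b := by
          rintro rfl
          exact hne h1
        rcases GQB.ipc h ha he hv hb hbv with h2 | h2
        · exact Or.inr ⟨hb, h1, h2⟩
        · exact Or.inl ⟨hb, h1, h2⟩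
      · rintro (h1 | h1)
        · exact ⟨h1.1, h1.2.1⟩
        · exact ⟨h1.1, h1.2.1⟩
    have hd : Disjoint ((cn a e).filter fun b => (inner ℝ u b : ℝ) = 0 ∧ (inner ℝ v b : ℝ) = 0)
        ((cn a e).filter fun b => (inner ℝ u b : ℝ) = 0 ∧ (inner ℝ v b : ℝ) = 1 / 2) := by
      rw [Finset.disjoint_left]
      intro b hb hb'
      rw [mem_filter] at hb hb'
      rw [hb.2.2] at hb'
      norm_num at hb'
    have hva : (inner ℝ v a : ℝ) = 1 / 2 := (mem_cn.1 hv).2.2
    have hve : (inner ℝ v e : ℝ) = 1 / 2 := (mem_cn.1 hv).2.1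
    have hvu : (inner ℝ v u : ℝ) = 1 / 2 := by rw [real_inner_comm]; exact huv1
    have hbij : ((cn a e).filter fun b => (inner ℝ u b : ℝ) = 0 ∧ (inner ℝ v b : ℝ) = 0).card =
        ((cn a e).filter fun b => (inner ℝ u b : ℝ) = 0 ∧ (inner ℝ v b : ℝ) = 1 / 2).card := by
      refine Finset.card_bij' (fun b _ => a + e - u - b) (fun b _ => a + e - u - b) ?_ ?_ ?_ ?_
      · intro b hb
        rw [mem_filter] at hb ⊢
        obtain ⟨h1, h2, h3⟩ := GQB.third h ha he hu hb.1 hb.2.1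
        refine ⟨h1, h2, ?_⟩
        rw [inner_sub_right, inner_sub_right, inner_add_right, hva, hve, hvu, hb.2.2]
        norm_num
      · intro b hb
        rw [mem_filter] at hb ⊢
        obtain ⟨h1, h2, h3⟩ := GQB.third h ha he hu hb.1 hb.2.1
        refine ⟨h1, h2, ?_⟩
        rw [inner_sub_right, inner_sub_right, inner_add_right, hva, hve, hvu, hb.2.2]
        norm_num
      · intro b _
        abel
      · intro b _
        abel
    have h10 := GQB.card10 h ha he hu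
    have h11 : ((cn a e).filter fun b => (inner ℝ u b : ℝ) = 0).card = 10 := by
      convert h10 using 2
    rw [hsplit, card_union_of_disjoint hd, ← hbij] at h11
    have : ((cn a e).filter fun b => (inner ℝ u b : ℝ) = 0 ∧ (inner ℝ v b : ℝ) = 0).card = 5 := by
      omega
    convert this using 2

end Pool.Agent.Lib.MP_f1379f_gt.FV
end

section
/-!
# MP_f1379f_gt: labelling of a link

`Lnk N s σ`: a finite set `N` with rounded products `s p q` in `{1/2, 0, -1/2}`, where `σ p` is the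
unique point with product `-1/2` (for roots `σ p = x - p`). If for one `a` in `N` the points `b` with
`s a b = 1/2` form the graph `(27, 10, 1, 5)` for the relation `s b c = 0`, then the points of `N` can be
labelled by the 56 neighbours of a root such that all products agree.
-/
set_option autoImplicit false

open Finset

namespace Pool.Agent.Lib.MP_f1379f_gt.FV

/-- Rounded products on a link. -/
structure Lnk {α : Type*} (N : Finset α) (s : α → α → ℝ) (σ : α → α) : Prop where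
  inv : ∀ p ∈ N, σ p ∈ N ∧ σ (σ p) = p ∧ σ p ≠ p
  symm : ∀ p ∈ N, ∀ q ∈ N, s p q = s q p
  par : ∀ p ∈ N, s p (σ p) = -1 / 2
  val : ∀ p ∈ N, ∀ q ∈ N, q ≠ p → q ≠ σ p → s p q = 1 / 2 ∨ s p q = 0
  sum : ∀ p ∈ N, ∀ q ∈ N, q ≠ p → q ≠ σ p → s p q + s p (σ q) = 1 / 2

open Classical in
/-- The 27 common neighbours of `x` and `a`. -/
noncomputable def lB {α : Type*} (N : Finset α) (s : α → α → ℝ) (a : α) : Finset α :=
  N.filter fun b => b ≠ a ∧ s a b = 1 / 2

namespace GQD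

variable {α : Type*} {N : Finset α} {s : α → α → ℝ} {σ : α → α}

lemma mem_lB {a b : α} : b ∈ lB N s a ↔ b ∈ N ∧ b ≠ a ∧ s a b = 1 / 2 := by
  unfold lB
  exact @Finset.mem_filter _ _ (_) _ _

section
variable (h : Lnk N s σ) {a : α} (ha : a ∈ N)
include h ha

lemma cases4 {p : α} (hp : p ∈ N) :
    p = a ∨ p = σ a ∨ p ∈ lB N s a ∨ ∃ b ∈ lB N s a, p = σ b := by
  by_cases h1 : p = a
  · exact Or.inl h1
  by_cases h2 : p = σ a
  · exact Or.inr (Or.inl h2)
  rcases h.val a ha p hp h1 h2 with h3 | h3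
  · exact Or.inr (Or.inr (Or.inl (mem_lB.2 ⟨hp, h1, h3⟩)))
  · right; right; right
    obtain ⟨g1, g2, g3⟩ := h.inv p hp
    refine ⟨σ p, mem_lB.2 ⟨g1, ?_, ?_⟩, g2.symm⟩
    · intro h4
      apply h2
      rw [← h4, g2]
    · have := h.sum a ha p hp h1 h2
      rw [h3, zero_add] at this
      exact this

lemma lB_ne {b : α} (hb : b ∈ lB N s a) : b ≠ a ∧ b ≠ σ a ∧ σ b ≠ a ∧ σ b ≠ σ a := by
  obtain ⟨b0, b1, b2⟩ := mem_lB.1 hb
  obtain ⟨g1, g2, g3⟩ := h.inv b b0
  obtain ⟨k1, k2, k3⟩ := h.inv a ha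
  have hne : b ≠ σ a := by
    intro h1
    rw [h1, h.par a ha] at b2
    norm_num at b2
  refine ⟨b1, hne, ?_, ?_⟩
  · intro h1
    apply hne
    rw [← h1, g2]
  · intro h1
    apply b1
    rw [← g2, h1, k2]

/-- `s a (σ b) = 0` -/
lemma s_aσb {b : α} (hb : b ∈ lB N s a) : s a (σ b) = 0 := by
  obtain ⟨b0, b1, b2⟩ := mem_lB.1 hb
  have := h.sum a ha b b0 b1 (lB_ne h ha hb).2.1
  rw [b2] at this
  linarith

lemma s_σab {b : α} (hb : b ∈ lB N s a) : s (σ a) b = 0 := by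
  obtain ⟨b0, b1, b2⟩ := mem_lB.1 hb
  obtain ⟨k1, k2, k3⟩ := h.inv a ha
  obtain ⟨n1, n2, n3, n4⟩ := lB_ne h ha hb
  have h1 := h.sum b b0 a ha (Ne.symm n1) (Ne.symm n3)
  rw [h.symm b b0 a ha, b2, h.symm b b0 (σ a) k1] at h1
  linarith

lemma s_σaσb {b : α} (hb : b ∈ lB N s a) : s (σ a) (σ b) = 1 / 2 := by
  obtain ⟨b0, b1, b2⟩ := mem_lB.1 hb
  obtain ⟨k1, k2, k3⟩ := h.inv a ha
  obtain ⟨n1, n2, n3, n4⟩ := lB_ne h ha hb
  have h1 := h.sum (σ a) k1 b b0 n2 (by rw [k2]; exact n1)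
  rw [s_σab h ha hb] at h1
  linarith

end

section
variable (h : Lnk N s σ) {a : α}
include h

/-- mixed values on `lB` -/
lemma s_bσc {b c : α} (hb : b ∈ lB N s a) (hc : c ∈ lB N s a) (hbc : c ≠ b)
    (hcb : c ≠ σ b) : s b (σ c) = 1 / 2 - s b c ∧ s (σ b) c = 1 / 2 - s b c ∧
      s (σ b) (σ c) = s b c := by
  obtain ⟨b0, b1, b2⟩ := mem_lB.1 hb
  obtain ⟨c0, c1, c2⟩ := mem_lB.1 hc
  obtain ⟨g1, g2, g3⟩ := h.inv b b0
  obtain ⟨k1, k2, k3⟩ := h.inv c c0
  have h1 := h.sum b b0 c c0 hbc hcb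
  have hbc' : b ≠ σ c := by
    intro h2
    apply hcb
    rw [h2, k2]
  have h2 := h.sum c c0 b b0 (Ne.symm hbc) hbc'
  have h3 := h.symm c c0 b b0
  have h4 := h.symm c c0 (σ b) g1
  have h5 := h.sum (σ b) g1 c c0 hcb (by rw [g2]; exact hbc)
  refine ⟨by linarith, by linarith, by linarith⟩

end

end GQD

/-- **Labelling of a link.** -/
theorem Lnk.label {α : Type*} {N : Finset α} {s : α → α → ℝ} {σ : α → α} (h : Lnk N s σ)
    (hU : SpecUEF) {a : α} (ha : a ∈ N) (hG : GQ (lB N s a) fun b c => s b c = 0) {x e : E}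
    (hx : x ∈ UE) (he : e ∈ nb x) :
    ∃ φ : α → E, Set.BijOn φ N (nb x) ∧ φ a = e ∧ (∀ p ∈ N, φ (σ p) = x - φ p) ∧
      ∀ p ∈ N, ∀ q ∈ N, p ≠ q → (inner ℝ (φ p) (φ q) : ℝ) = s p q := by
  classical
  -- isomorphism of the two graphs
  have hG' := gq_cn hU hx he
  have hne : (lB N s a).Nonempty := by
    rw [← card_pos, hG.card]; norm_num
  have hne' : (cn x e).Nonempty := by
    rw [← card_pos, hG'.card]; norm_num
  obtain ⟨b₀, hb₀⟩ := hne
  obtain ⟨c₀, hc₀⟩ := hne'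
  obtain ⟨ψ, hψ, -, hψr⟩ := hG.iso hG' hb₀ hc₀
  have hψm : ∀ b ∈ lB N s a, ψ b ∈ cn x e := fun b hb => hψ.mapsTo hb
  obtain ⟨e0, e1⟩ := GQB.he' he
  have e1' : (inner ℝ x e : ℝ) = 1 / 2 := by rw [real_inner_comm]; exact e1
  have nx := GQB.nsq hU hx he hx
  have ne' := GQB.nsq hU hx he e0
  obtain ⟨k1, k2, k3⟩ := h.inv a ha
  -- `σ` does not meet `lB`
  have hσn : ∀ b ∈ lB N s a, σ b ∉ lB N s a := by
    intro b hb hb'
    have h1 := GQD.s_aσb h ha hb
    rw [(GQD.mem_lB.1 hb').2.2] at h1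
    norm_num at h1
  set φ : α → E := fun p => if p = a then e else if p = σ a then x - e else
    if p ∈ lB N s a then ψ p else x - ψ (σ p) with hφ
  have φa : φ a = e := if_pos rfl
  have φσa : φ (σ a) = x - e := by
    rw [hφ]
    simp only
    rw [if_neg k3, if_pos trivial]
  have φb : ∀ b ∈ lB N s a, φ b = ψ b := by
    intro b hb
    obtain ⟨n1, n2, n3, n4⟩ := GQD.lB_ne h ha hb
    rw [hφ]
    simp only
    rw [if_neg n1, if_neg n2, if_pos hb]
  have φσb : ∀ b ∈ lB N s a, φ (σ b) = x - ψ b := by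
    intro b hb
    obtain ⟨n1, n2, n3, n4⟩ := GQD.lB_ne h ha hb
    rw [hφ]
    simp only
    rw [if_neg n3, if_neg n4, if_neg (hσn b hb), (h.inv b (GQD.mem_lB.1 hb).1).2.1]
  -- basic products
  have P : ∀ b ∈ lB N s a, ψ b ∈ UE ∧ (inner ℝ (ψ b) e : ℝ) = 1 / 2 ∧
      (inner ℝ (ψ b) x : ℝ) = 1 / 2 ∧ (inner ℝ e (ψ b) : ℝ) = 1 / 2 ∧
      (inner ℝ x (ψ b) : ℝ) = 1 / 2 ∧ (inner ℝ (ψ b) (ψ b) : ℝ) = 1 := by
    intro b hb
    obtain ⟨m0, m1, m2⟩ := mem_cn.1 (hψm b hb)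
    exact ⟨m0, m1, m2, by rw [real_inner_comm]; exact m1, by rw [real_inner_comm]; exact m2,
      GQB.nsq hU hx he m0⟩
  have Q : ∀ b ∈ lB N s a, ∀ c ∈ lB N s a, b ≠ c → (inner ℝ (ψ b) (ψ c) : ℝ) = s b c := by
    intro b hb c hc hbc
    have hne : ψ b ≠ ψ c := fun h1 => hbc (hψ.injOn hb hc h1)
    have hcs : c ≠ σ b := by
      rintro rfl
      exact hσn b hb hc
    have h1 := hψr b hb c hc
    rcases GQB.ipc hU hx he (hψm b hb) (hψm c hc) hne with h2 | h2
    · rcases h.val b (GQD.mem_lB.1 hb).1 c (GQD.mem_lB.1 hc).1 (Ne.symm hbc) hcs with h3 | h3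
      · rw [h2, h3]
      · rw [h1.1 h3] at h2
        norm_num at h2
    · rw [h2, h1.2 h2]
  -- `φ` maps into `nb x`
  have hnb : ∀ f : E, f ∈ nb x ↔ f ∈ UE ∧ (inner ℝ f x : ℝ) = 1 / 2 := by
    intro f
    unfold nb
    rw [mem_filter]
  have hsubnb : ∀ f ∈ nb x, x - f ∈ nb x := by
    intro f hf
    obtain ⟨f0, f1⟩ := (hnb f).1 hf
    rw [hnb]
    refine ⟨hU.sub x hx f f0 (by rw [real_inner_comm]; exact f1), ?_⟩
    rw [inner_sub_left, nx, f1]; norm_num
  have hψnb : ∀ b ∈ lB N s a, ψ b ∈ nb x := fun b hb => (hnb _).2 ⟨(P b hb).1, (P b hb).2.2.1⟩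
  have hσ : ∀ p ∈ N, φ (σ p) = x - φ p := by
    intro p hp
    rcases GQD.cases4 h ha hp with rfl | rfl | hb | ⟨b, hb, rfl⟩
    · rw [φa, φσa]
    · rw [k2, φa, φσa]; abel
    · rw [φσb p hb, φb p hb]
    · rw [(h.inv b (GQD.mem_lB.1 hb).1).2.1, φb b hb, φσb b hb]; abel
  have hmaps : ∀ p ∈ N, φ p ∈ nb x := by
    intro p hp
    rcases GQD.cases4 h ha hp with rfl | rfl | hb | ⟨b, hb, rfl⟩
    · rw [φa]; exact he
    · rw [φσa]; exact hsubnb e he
    · rw [φb p hb]; exact hψnb p hb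
    · rw [φσb b hb]; exact hsubnb _ (hψnb b hb)
  -- all products
  have hprod : ∀ p ∈ N, ∀ q ∈ N, p ≠ q → (inner ℝ (φ p) (φ q) : ℝ) = s p q := by
    -- values of `s` against `a` and `σ a`
    have T1 : ∀ q ∈ N, a ≠ q → (inner ℝ (φ a) (φ q) : ℝ) = s a q := by
      intro q hq haq
      rcases GQD.cases4 h ha hq with rfl | rfl | hb | ⟨b, hb, rfl⟩
      · exact absurd rfl haq
      · rw [φa, φσa, inner_sub_right, ne', e1, h.par a ha]; norm_num
      · rw [φa, φb q hb, (P q hb).2.2.2.1, (GQD.mem_lB.1 hb).2.2]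
      · rw [φa, φσb b hb, inner_sub_right, e1, (P b hb).2.2.2.1, GQD.s_aσb h ha hb]; norm_num
    have T2 : ∀ q ∈ N, σ a ≠ q → (inner ℝ (φ (σ a)) (φ q) : ℝ) = s (σ a) q := by
      intro q hq haq
      rcases GQD.cases4 h ha hq with rfl | rfl | hb | ⟨b, hb, rfl⟩
      · rw [φa, φσa, inner_sub_left, ne', e1', h.symm _ k1 _ ha, h.par _ ha]; norm_num
      · exact absurd rfl haq
      · rw [φσa, φb q hb, inner_sub_left, (P q hb).2.2.2.1, (P q hb).2.2.2.2.1,
          GQD.s_σab h ha hb]; norm_num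
      · rw [φσa, φσb b hb, inner_sub_left, inner_sub_right, inner_sub_right, nx, e1,
          (P b hb).2.2.2.1, (P b hb).2.2.2.2.1, GQD.s_σaσb h ha hb]; norm_num
    intro p hp q hq hpq
    rcases GQD.cases4 h ha hp with rfl | rfl | hb | ⟨b, hb, rfl⟩
    · exact T1 q hq hpq
    · exact T2 q hq hpq
    · rcases GQD.cases4 h ha hq with rfl | rfl | hc | ⟨c, hc, rfl⟩
      · rw [real_inner_comm, T1 p hp (Ne.symm hpq), h.symm _ hq _ hp]
      · rw [real_inner_comm, T2 p hp (Ne.symm hpq), h.symm _ hq _ hp]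
      · rw [φb p hb, φb q hc, Q p hb q hc hpq]
      · rw [φb p hb, φσb c hc, inner_sub_right, (P p hb).2.2.1]
        by_cases hcp : c = p
        · rw [hcp, (P p hb).2.2.2.2.2, h.par p hp]; norm_num
        · have hcs : c ≠ σ p := by
            rintro rfl
            exact hσn p hb hc
          rw [Q p hb c hc (Ne.symm hcp), (GQD.s_bσc h hb hc hcp hcs).1]
    · rcases GQD.cases4 h ha hq with rfl | rfl | hc | ⟨c, hc, rfl⟩
      · rw [real_inner_comm, T1 _ hp (Ne.symm hpq), h.symm _ hq _ hp]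
      · rw [real_inner_comm, T2 _ hp (Ne.symm hpq), h.symm _ hq _ hp]
      · rw [φσb b hb, φb q hc, inner_sub_left, (P q hc).2.2.2.2.1]
        by_cases hqb : q = b
        · rw [hqb, (P b hb).2.2.2.2.2, h.symm _ hp _ (GQD.mem_lB.1 hb).1,
            h.par b (GQD.mem_lB.1 hb).1]; norm_num
        · rw [Q b hb q hc (Ne.symm hqb), (GQD.s_bσc h hb hc hqb (Ne.symm hpq)).2.1]
      · have hbc : b ≠ c := by
          rintro rfl
          exact hpq rfl
        have hcs : c ≠ σ b := by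
          rintro rfl
          exact hσn b hb hc
        rw [φσb b hb, φσb c hc, inner_sub_left, inner_sub_right, inner_sub_right, nx,
          (P c hc).2.2.2.2.1, (P b hb).2.2.1, Q b hb c hc hbc,
          (GQD.s_bσc h hb hc (Ne.symm hbc) hcs).2.2]
        ring
  refine ⟨φ, ⟨fun p hp => hmaps p hp, ?_, ?_⟩, φa, hσ, hprod⟩
  · -- injective
    intro p hp q hq hpq
    by_contra hne
    have h1 := hprod p hp q hq hne
    rw [← hpq, real_inner_self_eq_norm_sq, hU.nrm _ ((hnb _).1 (hmaps p hp)).1, one_pow] at h1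
    by_cases hqs : q = σ p
    · rw [hqs, h.par p hp] at h1
      norm_num at h1
    · rcases h.val p hp q hq (Ne.symm hne) hqs with h2 | h2 <;> rw [h2] at h1 <;> norm_num at h1
  · -- surjective
    intro f hf
    obtain ⟨f0, f1⟩ := (hnb f).1 hf
    have key : ∀ g ∈ nb x, (inner ℝ g e : ℝ) = 1 / 2 → ∃ p ∈ N, φ p = g := by
      intro g hg hge
      obtain ⟨g0, g1⟩ := (hnb g).1 hg
      obtain ⟨b, hb, hbg⟩ := hψ.surjOn (mem_cn.2 ⟨g0, hge, g1⟩)
      exact ⟨b, (GQD.mem_lB.1 hb).1, by rw [φb b hb, hbg]⟩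
    rcases hU.ip f f0 e e0 with h1 | h1 | h1 | h1 | h1
    · exact ⟨a, ha, by rw [φa, hU.one f f0 e e0 h1]⟩
    · obtain ⟨p, hp, hpf⟩ := key f hf h1
      exact ⟨p, hp, hpf⟩
    · obtain ⟨p, hp, hpf⟩ := key (x - f) (hsubnb f hf) (by
        rw [inner_sub_left, e1', h1]; norm_num)
      refine ⟨σ p, (h.inv p hp).1, ?_⟩
      rw [hσ p hp, hpf]; abel
    · have h2 := hU.add f f0 e e0 h1
      have h3 : (inner ℝ (f + e) x : ℝ) = 1 := by rw [inner_add_left, f1, e1]; norm_num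
      have h4 := hU.one _ h2 x hx h3
      refine ⟨σ a, k1, ?_⟩
      rw [φσa, ← h4]; abel
    · exfalso
      have h2 := hU.one (-f) (hU.neg f f0) e e0 (by rw [inner_neg_left, h1]; norm_num)
      rw [← h2, inner_neg_left, f1] at e1
      norm_num at e1

end Pool.Agent.Lib.MP_f1379f_gt.FV
end
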