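import Pool.Agent.Lib.MP_f1379f_gt.FV.SpecS1

/-!
# MP_f1379f_gt, module INT: a Seidel matrix of order 28 which is almost E7 is E7
-/

set_option autoImplicit false
set_option linter.unusedSectionVars false
set_option linter.unusedVariables false

open Finset

namespace Pool.Agent.Lib.MP_f1379f_gt.FV.INTM

variable {ι : Type*} [Fintype ι] [DecidableEq ι]

/-- sum of the squares of a row -/
def rho (H : ι → ι → ℤ) (i : ι) : ℤ := ∑ j, H i j ^ 2

/-- the nonzero rows -/
def VV (H : ι → ι → ℤ) : Finset ι := univ.filter fun i => ∃ j, H i j ≠ 0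

/-- the situation after the division by 4 -/
structure Ctx (S H : ι → ι → ℤ) : Prop where
  card : Fintype.card ι = 28
  sS : ∀ i j, S i j = S j i
  dS : ∀ i, S i i = 0
  oS : ∀ i j, i ≠ j → S i j = 1 ∨ S i j = -1
  sH : ∀ i j, H i j = H j i
  dH : ∀ i, H i i = 0
  eq : ∀ i j, ∑ k, S i k * S k j = 6 * S i j + (if i = j then 27 else 0) + 4 * H i j
  sm : ∑ i, rho H i ≤ 23

variable {S H : ι → ι → ℤ}

theorem mem_VV {i : ι} : i ∈ VV H ↔ ∃ j, H i j ≠ 0 := by simp [VV]

theorem not_mem_VV {i : ι} : i ∉ VV H ↔ ∀ j, H i j = 0 := by simp [VV]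

theorem mem_VV' (c : Ctx S H) {i j : ι} (h : H i j ≠ 0) : i ∈ VV H ∧ j ∈ VV H :=
  ⟨mem_VV.2 ⟨j, h⟩, mem_VV.2 ⟨i, by rwa [c.sH] at h⟩⟩

theorem rho_nonneg (i : ι) : 0 ≤ rho H i := Finset.sum_nonneg fun j _ => sq_nonneg _

theorem sum_rho_le (c : Ctx S H) (W : Finset ι) : ∑ i ∈ W, rho H i ≤ 23 :=
  (Finset.sum_le_sum_of_subset_of_nonneg (Finset.subset_univ W) fun i _ _ => rho_nonneg i).trans c.sm

/-- part of a row -/
theorem sum_sq_le (i : ι) (W : Finset ι) : ∑ j ∈ W, H i j ^ 2 ≤ rho H i :=
  Finset.sum_le_sum_of_subset_of_nonneg (Finset.subset_univ W) fun j _ _ => sq_nonneg _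

theorem one_le_sq {x : ℤ} (h : x ≠ 0) : 1 ≤ x ^ 2 := by
  have := sq_pos_of_ne_zero h
  omega

theorem comm (c : Ctx S H) (k j : ι) : ∑ l, H k l * S l j = ∑ l, S k l * H l j := by
  have e1 : ∀ k l, 4 * H k l = ∑ m, S k m * S m l - 6 * S k l - (if k = l then 27 else 0) := by
    intro k l
    have := c.eq k l
    linarith
  have h1 : 4 * ∑ l, H k l * S l j = ∑ l, ∑ m, S k m * S m l * S l j - 6 * ∑ l, S k l * S l j
      - 27 * S k j := by
    rw [Finset.mul_sum]
    calc ∑ l, 4 * (H k l * S l j) = ∑ l, (∑ m, S k m * S m l * S l j - 6 * (S k l * S l j)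
          - (if k = l then 27 else 0) * S l j) := by
          refine Finset.sum_congr rfl fun l _ => ?_
          rw [← mul_assoc, e1, ← Finset.sum_mul]
          ring
      _ = _ := by
          rw [Finset.sum_sub_distrib, Finset.sum_sub_distrib, ← Finset.mul_sum]
          congr 1
          simp
  have h2 : 4 * ∑ l, S k l * H l j = ∑ l, ∑ m, S k l * (S l m * S m j) - 6 * ∑ l, S k l * S l j
      - 27 * S k j := by
    rw [Finset.mul_sum]
    calc ∑ l, 4 * (S k l * H l j) = ∑ l, (∑ m, S k l * (S l m * S m j) - 6 * (S k l * S l j)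
          - S k l * (if l = j then 27 else 0)) := by
          refine Finset.sum_congr rfl fun l _ => ?_
          rw [← Finset.mul_sum, show 4 * (S k l * H l j) = S k l * (4 * H l j) by ring, e1]
          ring
      _ = _ := by
          rw [Finset.sum_sub_distrib, Finset.sum_sub_distrib, ← Finset.mul_sum]
          congr 1
          simp [mul_comm]
  have h3 : ∑ l, ∑ m, S k m * S m l * S l j = ∑ l, ∑ m, S k l * (S l m * S m j) := by
    rw [Finset.sum_comm]
    refine Finset.sum_congr rfl fun l _ => Finset.sum_congr rfl fun m _ => by ring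
  rw [h3] at h1
  linarith

theorem key (c : Ctx S H) {j : ι} (hj : j ∉ VV H) (k : ι) : ∑ l, H k l * S l j = 0 := by
  rw [comm c]
  refine Finset.sum_eq_zero fun l _ => ?_
  rw [c.sH l j, not_mem_VV.1 hj l, mul_zero]

theorem S_sq (c : Ctx S H) {i j : ι} (h : i ≠ j) : S i j ^ 2 = 1 := by
  rcases c.oS i j h with e | e <;> rw [e] <;> norm_num

/-- the row sums have the same parity -/
theorem row_parity (c : Ctx S H) (i j : ι) : (2 : ℤ) ∣ ∑ l, H i l - ∑ l, H j l := by
  have h1 : ∀ (a b : ι), (2 : ℤ) ∣ ∑ l, H a l - H a b - ∑ l, H a l * S l b := by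
    intro a b
    have e : ∑ l, H a l - H a b - ∑ l, H a l * S l b = ∑ l, H a l * (1 - (if l = b then 1 else 0) - S l b) := by
      simp only [mul_sub, mul_one, Finset.sum_sub_distrib, mul_ite, mul_zero]
      simp
    rw [e]
    refine Finset.dvd_sum fun l _ => Dvd.dvd.mul_left ?_ _
    by_cases hlb : l = b
    · rw [if_pos hlb, hlb, c.dS]
      norm_num
    · rw [if_neg hlb]
      rcases c.oS l b hlb with e | e <;> rw [e] <;> norm_num
  have h2 := h1 i j
  have h3 := h1 j i
  have e2 : ∑ l, S i l * H l j = ∑ l, H j l * S l i := by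
    refine Finset.sum_congr rfl fun l _ => ?_
    rw [c.sH l j, c.sS i l]
    ring
  rw [comm c i j, e2] at h2
  rw [c.sH j i] at h3
  have := dvd_sub h2 h3
  have e3 : ∑ l, H i l - H i j - ∑ l, H j l * S l i - (∑ l, H j l - H i j - ∑ l, H j l * S l i)
      = ∑ l, H i l - ∑ l, H j l := by ring
  rwa [e3] at this

theorem exists_zero (c : Ctx S H) : ∃ j, j ∉ VV H := by
  by_contra hcon
  push Not at hcon
  have h1 : ∑ _i : ι, (1 : ℤ) ≤ ∑ i, rho H i := by
    refine Finset.sum_le_sum fun i _ => ?_
    obtain ⟨j, hj⟩ := mem_VV.1 (hcon i)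
    have h2 := Finset.single_le_sum (f := fun j => H i j ^ 2) (fun j _ => sq_nonneg _) (Finset.mem_univ j)
    have h3 := one_le_sq hj
    exact h3.trans h2
  have h4 := c.sm
  simp [c.card] at h1
  omega

theorem rho_even (c : Ctx S H) (i : ι) : (2 : ℤ) ∣ rho H i := by
  obtain ⟨j, hj⟩ := exists_zero c
  have h1 := row_parity c i j
  have h2 : ∑ l, H j l = 0 := Finset.sum_eq_zero fun l _ => not_mem_VV.1 hj l
  rw [h2, sub_zero] at h1
  have h3 : (2 : ℤ) ∣ ∑ l, (H i l ^ 2 - H i l) := by
    refine Finset.dvd_sum fun l _ => ?_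
    have : H i l ^ 2 - H i l = H i l * (H i l - 1) := by ring
    rw [this]
    exact Int.even_mul_pred_self (H i l) |>.two_dvd
  rw [Finset.sum_sub_distrib] at h3
  have := dvd_add h3 h1
  rwa [sub_add_cancel] at this

theorem rho_two (c : Ctx S H) {i : ι} (h : i ∈ VV H) : 2 ≤ rho H i := by
  obtain ⟨j, hj⟩ := mem_VV.1 h
  have h2 := Finset.single_le_sum (f := fun j => H i j ^ 2) (fun j _ => sq_nonneg _) (Finset.mem_univ j)
  have h3 := one_le_sq hj
  have h4 : 1 ≤ rho H i := h3.trans h2
  have h5 := rho_even c i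
  omega

theorem card_V (c : Ctx S H) : (VV H).card ≤ 11 := by
  have h1 : ∑ _i ∈ VV H, (2 : ℤ) ≤ ∑ i ∈ VV H, rho H i := Finset.sum_le_sum fun i hi => rho_two c hi
  have h2 := sum_rho_le c (VV H)
  rw [Finset.sum_const, nsmul_eq_mul] at h1
  omega

/-- the off diagonal entry of the square -/
theorem big (c : Ctx S H) {l m : ι} (hl : l ∈ VV H) (hm : m ∈ VV H) (hlm : l ≠ m) {ε : ℤ}
    (hε : ε = 1 ∨ ε = -1) (h : ∀ j, j ∉ VV H → S l j * S m j = ε) :
    30 - 2 * ((VV H).card : ℤ) ≤ 6 + 4 * |H l m| := by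
  have e := c.eq l m
  rw [if_neg hlm, add_zero] at e
  have split : ∑ k, S l k * S k m = ∑ k ∈ VV H, S l k * S k m + ∑ k ∈ (VV H)ᶜ, S l k * S k m :=
    (Finset.sum_add_sum_compl _ _).symm
  have e1 : ∑ k ∈ (VV H)ᶜ, S l k * S k m = (28 - ((VV H).card : ℤ)) * ε := by
    have : ∀ k ∈ (VV H)ᶜ, S l k * S k m = ε := by
      intro k hk
      rw [c.sS k m]
      exact h k (Finset.mem_compl.1 hk)
    rw [Finset.sum_congr rfl this, Finset.sum_const, Finset.card_compl, c.card, nsmul_eq_mul]
    have := card_V c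
    push_cast [show (VV H).card ≤ 28 by omega]
    ring
  have e2 : |∑ k ∈ VV H, S l k * S k m| ≤ ((VV H).card : ℤ) - 2 := by
    have hc : (((VV H).erase l).erase m).card = (VV H).card - 2 := by
      rw [Finset.card_erase_of_mem (Finset.mem_erase.2 ⟨hlm.symm, hm⟩), Finset.card_erase_of_mem hl]
      omega
    have hc2 : 2 ≤ (VV H).card := by
      have : ({l, m} : Finset ι) ⊆ VV H := by
        intro x hx
        rw [Finset.mem_insert, Finset.mem_singleton] at hx
        rcases hx with rfl | rfl
        · exact hl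
        · exact hm
      have h2 := Finset.card_le_card this
      rwa [Finset.card_pair hlm] at h2
    have hs : ∑ k ∈ VV H, S l k * S k m = ∑ k ∈ ((VV H).erase l).erase m, S l k * S k m := by
      rw [← Finset.add_sum_erase (VV H) _ hl, c.dS, zero_mul, zero_add,
        ← Finset.add_sum_erase ((VV H).erase l) _ (Finset.mem_erase.2 ⟨hlm.symm, hm⟩), c.dS, mul_zero,
        zero_add]
    rw [hs]
    refine (Finset.abs_sum_le_sum_abs _ _).trans ?_
    have : ∀ k ∈ ((VV H).erase l).erase m, |S l k * S k m| ≤ 1 := by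
      intro k hk
      rw [Finset.mem_erase, Finset.mem_erase] at hk
      rcases c.oS l k (Ne.symm hk.2.1) with e | e <;> rcases c.oS k m hk.1 with f | f <;> rw [e, f] <;> norm_num
    calc ∑ k ∈ ((VV H).erase l).erase m, |S l k * S k m| ≤ ∑ _k ∈ ((VV H).erase l).erase m, (1 : ℤ) :=
          Finset.sum_le_sum this
      _ = ((VV H).card : ℤ) - 2 := by
          rw [Finset.sum_const, hc, nsmul_eq_mul, mul_one]
          push_cast [hc2]
          ring
  rw [split, e1] at e
  have a1 := abs_le.1 e2
  have a2 := le_abs_self (H l m)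
  have a3 := neg_abs_le (H l m)
  have hv := card_V c
  rcases hε with h1 | h1 <;> rcases c.oS l m hlm with h2 | h2 <;> rw [h1, h2] at e <;> omega

/-- a row with `rho = 2` has exactly two nonzero entries, equal to `1` or `-1` -/
theorem two_entries (c : Ctx S H) {k : ι} (h : rho H k = 2) : ∃ l m, l ≠ m ∧ H k l ^ 2 = 1 ∧
    H k m ^ 2 = 1 ∧ ∀ j, j ≠ l → j ≠ m → H k j = 0 := by
  have h1 : ∃ l, H k l ≠ 0 := by
    by_contra hcon
    push Not at hcon
    have : rho H k = 0 := Finset.sum_eq_zero fun j _ => by rw [hcon j]; norm_num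
    omega
  obtain ⟨l, hl⟩ := h1
  have e1 : rho H k = H k l ^ 2 + ∑ j ∈ univ.erase l, H k j ^ 2 :=
    (Finset.add_sum_erase univ (fun j => H k j ^ 2) (Finset.mem_univ l)).symm
  have n1 : 0 ≤ ∑ j ∈ univ.erase l, H k j ^ 2 := Finset.sum_nonneg fun j _ => sq_nonneg _
  have hl1 : H k l ^ 2 = 1 := by
    have h2 : H k l ^ 2 ≤ 2 := by omega
    have h3 := one_le_sq hl
    have h4 : H k l ≤ 1 := by nlinarith
    have h5 : -1 ≤ H k l := by nlinarith
    have h6 : H k l = 1 ∨ H k l = -1 := by omega
    rcases h6 with e | e <;> rw [e] <;> norm_num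
  have e2 : ∑ j ∈ univ.erase l, H k j ^ 2 = 1 := by omega
  have h7 : ∃ m ∈ univ.erase l, H k m ≠ 0 := by
    by_contra hcon
    push Not at hcon
    have : ∑ j ∈ univ.erase l, H k j ^ 2 = 0 :=
      Finset.sum_eq_zero fun j hj => by rw [hcon j hj]; norm_num
    omega
  obtain ⟨m, hm, hm0⟩ := h7
  have hml : m ≠ l := (Finset.mem_erase.1 hm).1
  have e3 : ∑ j ∈ univ.erase l, H k j ^ 2 = H k m ^ 2 + ∑ j ∈ (univ.erase l).erase m, H k j ^ 2 :=
    (Finset.add_sum_erase _ (fun j => H k j ^ 2) hm).symm
  have n2 : 0 ≤ ∑ j ∈ (univ.erase l).erase m, H k j ^ 2 := Finset.sum_nonneg fun j _ => sq_nonneg _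
  have h8 := one_le_sq hm0
  refine ⟨l, m, hml.symm, hl1, by omega, ?_⟩
  intro j hj1 hj2
  have e4 : ∑ j ∈ (univ.erase l).erase m, H k j ^ 2 = 0 := by omega
  have h9 := (Finset.sum_eq_zero_iff_of_nonneg (fun j _ => sq_nonneg (H k j))).1 e4 j
    (Finset.mem_erase.2 ⟨hj2, Finset.mem_erase.2 ⟨hj1, Finset.mem_univ j⟩⟩)
  exact pow_eq_zero_iff (two_ne_zero) |>.1 h9

/-- KEY for a row with two entries -/
theorem key_two (c : Ctx S H) {k l m : ι} (hlm : l ≠ m) (h0 : ∀ j, j ≠ l → j ≠ m → H k j = 0)
    {j : ι} (hj : j ∉ VV H) : H k l * S l j + H k m * S m j = 0 := by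
  have h1 := key c hj k
  rw [← Finset.add_sum_erase univ (fun l => H k l * S l j) (Finset.mem_univ l),
    ← Finset.add_sum_erase _ (fun l => H k l * S l j) (Finset.mem_erase.2 ⟨hlm.symm, Finset.mem_univ m⟩)] at h1
  have h2 : ∑ x ∈ (univ.erase l).erase m, H k x * S x j = 0 := by
    refine Finset.sum_eq_zero fun x hx => ?_
    rw [Finset.mem_erase, Finset.mem_erase] at hx
    rw [h0 x hx.2.1 hx.1, zero_mul]
  rw [h2, add_zero] at h1
  exact h1

theorem sign_of_sq {x : ℤ} (h : x ^ 2 = 1) : x = 1 ∨ x = -1 := by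
  have : (x - 1) * (x + 1) = 0 := by ring_nf; omega
  rcases mul_eq_zero.1 this with h1 | h1
  · left; omega
  · right; omega

/-- the sign pattern -/
theorem two_sign (c : Ctx S H) {k l m : ι} (hl : l ∈ VV H) (hm : m ∈ VV H) (h1 : H k l ^ 2 = 1)
    (h2 : H k m ^ 2 = 1) {j : ι} (hj : j ∉ VV H) (h : H k l * S l j + H k m * S m j = 0) :
    S l j * S m j = -(H k l * H k m) := by
  have hlj : l ≠ j := fun e => hj (e ▸ hl)
  have hmj : m ≠ j := fun e => hj (e ▸ hm)
  rcases sign_of_sq h1 with a | a <;> rcases sign_of_sq h2 with b | b <;>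
    rcases c.oS l j hlj with d | d <;> rcases c.oS m j hmj with e | e <;>
    rw [a, b, d, e] at h <;> rw [a, b, d, e] <;> revert h <;> norm_num

/-- every row with `rho = 2`: there are at least ten rows, and it has a neighbour with `rho >= 4` -/
theorem of_two (c : Ctx S H) {k : ι} (h : rho H k = 2) :
    10 ≤ (VV H).card ∧ ∃ q, H k q ≠ 0 ∧ 4 ≤ rho H q := by
  obtain ⟨l, m, hlm, hl1, hm1, h0⟩ := two_entries c h
  have hl0 : H k l ≠ 0 := fun e => by rw [e] at hl1; norm_num at hl1
  have hm0 : H k m ≠ 0 := fun e => by rw [e] at hm1; norm_num at hm1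
  have hlV := (mem_VV' c hl0).2
  have hmV := (mem_VV' c hm0).2
  have hkV := (mem_VV' c hl0).1
  have hkl : k ≠ l := fun e => hl0 (by rw [e, c.dH])
  have hkm : k ≠ m := fun e => hm0 (by rw [e, c.dH])
  have hε : -(H k l * H k m) = 1 ∨ -(H k l * H k m) = -1 := by
    rcases sign_of_sq hl1 with a | a <;> rcases sign_of_sq hm1 with b | b <;> rw [a, b] <;> norm_num
  have hb := big c hlV hmV hlm hε (fun j hj => two_sign c hlV hmV hl1 hm1 hj (key_two c hlm h0 hj))
  have hv := card_V c
  -- lower bounds for the rows l, m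
  have hρl : 1 + H l m ^ 2 ≤ rho H l := by
    have := sum_sq_le (H := H) l {k, m}
    rw [Finset.sum_pair hkm, c.sH l k, hl1] at this
    exact this
  have hρm : 1 + H l m ^ 2 ≤ rho H m := by
    have := sum_sq_le (H := H) m {k, l}
    rw [Finset.sum_pair hkl, c.sH m k, hm1, c.sH m l] at this
    exact this
  have hel := rho_even c l
  have hem := rho_even c m
  -- the total
  have htot : rho H l + rho H m + 2 * (((VV H).card : ℤ) - 2) ≤ 23 := by
    have h1 := sum_rho_le c (VV H)
    rw [← Finset.add_sum_erase (VV H) _ hlV,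
      ← Finset.add_sum_erase ((VV H).erase l) _ (Finset.mem_erase.2 ⟨hlm.symm, hmV⟩)] at h1
    have h2 : ∑ _i ∈ ((VV H).erase l).erase m, (2 : ℤ) ≤ ∑ i ∈ ((VV H).erase l).erase m, rho H i :=
      Finset.sum_le_sum fun i hi => rho_two c (Finset.mem_of_mem_erase (Finset.mem_of_mem_erase hi))
    have hc : (((VV H).erase l).erase m).card = (VV H).card - 2 := by
      rw [Finset.card_erase_of_mem (Finset.mem_erase.2 ⟨hlm.symm, hmV⟩), Finset.card_erase_of_mem hlV]
      omega
    rw [Finset.sum_const, hc, nsmul_eq_mul] at h2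
    have hc2 : 2 ≤ (VV H).card := by
      have : ({l, m} : Finset ι) ⊆ VV H := by
        intro x hx
        rw [Finset.mem_insert, Finset.mem_singleton] at hx
        rcases hx with rfl | rfl
        · exact hlV
        · exact hmV
      have h2 := Finset.card_le_card this
      rwa [Finset.card_pair hlm] at h2
    push_cast [hc2] at h2
    linarith
  have hh : |H l m| = 1 := by
    have h3 : H l m ^ 2 = |H l m| ^ 2 := (sq_abs _).symm
    rw [h3] at hρl hρm
    have h4 : 0 ≤ |H l m| := abs_nonneg _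
    generalize |H l m| = x at hρl hρm hb h4 ⊢
    have h5 : x ≤ 3 := by nlinarith
    interval_cases x <;> omega
  refine ⟨by rw [hh] at hb; omega, ?_⟩
  have hlm1 : H l m ^ 2 = 1 := by rw [← sq_abs, hh]; norm_num
  by_cases hl2 : rho H l = 2
  swap
  · exact ⟨l, hl0, by have := rho_two c hlV; omega⟩
  by_cases hm2 : rho H m = 2
  swap
  · exact ⟨m, hm0, by have := rho_two c hmV; omega⟩
  exfalso
  -- the three rows k, l, m have two entries each
  have zl : ∀ j, j ≠ k → j ≠ m → H l j = 0 := by
    intro j hj1 hj2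
    by_contra hne
    have := sum_sq_le (H := H) l {j, k, m}
    rw [Finset.sum_insert (by
      rw [Finset.mem_insert, Finset.mem_singleton]; push Not; exact ⟨hj1, hj2⟩), Finset.sum_pair hkm,
      c.sH l k, hl1, hlm1, hl2] at this
    have := one_le_sq hne
    omega
  have zm : ∀ j, j ≠ k → j ≠ l → H m j = 0 := by
    intro j hj1 hj2
    by_contra hne
    have := sum_sq_le (H := H) m {j, k, l}
    rw [Finset.sum_insert (by
      rw [Finset.mem_insert, Finset.mem_singleton]; push Not; exact ⟨hj1, hj2⟩), Finset.sum_pair hkl,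
      c.sH m k, hm1, c.sH m l, hlm1, hm2] at this
    have := one_le_sq hne
    omega
  obtain ⟨j, hj⟩ := exists_zero c
  have s1 := two_sign c hlV hmV hl1 hm1 hj (key_two c hlm h0 hj)
  have s2 := two_sign c (k := l) hkV hmV (by rw [c.sH]; exact hl1) hlm1 hj (key_two c hkm zl hj)
  have s3 := two_sign c (k := m) hkV hlV (by rw [c.sH]; exact hm1) (by rw [c.sH]; exact hlm1) hj
    (key_two c hkl zm hj)
  rw [c.sH l k] at s2
  rw [c.sH m k, c.sH m l] at s3
  have hkj : k ≠ j := fun e => hj (e ▸ hkV)
  have hlj : l ≠ j := fun e => hj (e ▸ hlV)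
  have hmj : m ≠ j := fun e => hj (e ▸ hmV)
  have p1 : (S l j * S m j) * (S k j * S m j) * (S k j * S l j) = 1 := by
    have : (S l j * S m j) * (S k j * S m j) * (S k j * S l j) = S l j ^ 2 * S m j ^ 2 * S k j ^ 2 := by ring
    rw [this, S_sq c hlj, S_sq c hmj, S_sq c hkj]
    norm_num
  rw [s1, s2, s3] at p1
  have p2 : -(H k l * H k m) * -(H k l * H l m) * -(H k m * H l m) =
      -(H k l ^ 2 * H k m ^ 2 * H l m ^ 2) := by ring
  rw [p2, hl1, hm1, hlm1] at p1
  norm_num at p1

/-- no row with `rho = 2` -/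
theorem no_two (c : Ctx S H) (k : ι) : rho H k ≠ 2 := by
  intro h
  obtain ⟨hv, q, hq0, hq4⟩ := of_two c h
  have hqV := (mem_VV' c hq0).2
  -- the other rows have `rho = 2`
  have htot : rho H q + ∑ i ∈ (VV H).erase q, rho H i ≤ 23 := by
    have h1 := sum_rho_le c (VV H)
    rwa [← Finset.add_sum_erase (VV H) _ hqV] at h1
  have hcard : ((VV H).erase q).card = (VV H).card - 1 := Finset.card_erase_of_mem hqV
  have hrest : ∀ i ∈ (VV H).erase q, rho H i = 2 := by
    intro i hi
    by_contra hne
    have hi2 := rho_two c (Finset.mem_of_mem_erase hi)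
    have hie := rho_even c i
    have hi4 : 4 ≤ rho H i := by omega
    rw [← Finset.add_sum_erase ((VV H).erase q) _ hi] at htot
    have h2 : ∑ _i ∈ ((VV H).erase q).erase i, (2 : ℤ) ≤ ∑ i ∈ ((VV H).erase q).erase i, rho H i :=
      Finset.sum_le_sum fun i hi => rho_two c (Finset.mem_of_mem_erase (Finset.mem_of_mem_erase hi))
    rw [Finset.sum_const, Finset.card_erase_of_mem hi, hcard, nsmul_eq_mul] at h2
    omega
  have hnb : ∀ i ∈ (VV H).erase q, H q i ≠ 0 := by
    intro i hi
    obtain ⟨-, r, hr0, hr4⟩ := of_two c (hrest i hi)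
    have hrV := (mem_VV' c hr0).2
    have hrq : r = q := by
      by_contra hne
      have := hrest r (Finset.mem_erase.2 ⟨hne, hrV⟩)
      omega
    rw [c.sH, ← hrq]
    exact hr0
  have h3 : ∑ _i ∈ (VV H).erase q, (1 : ℤ) ≤ ∑ i ∈ (VV H).erase q, H q i ^ 2 :=
    Finset.sum_le_sum fun i hi => one_le_sq (hnb i hi)
  have h4 := sum_sq_le (H := H) q ((VV H).erase q)
  have h5 : ∑ _i ∈ (VV H).erase q, (2 : ℤ) ≤ ∑ i ∈ (VV H).erase q, rho H i :=
    Finset.sum_le_sum fun i hi => rho_two c (Finset.mem_of_mem_erase hi)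
  rw [Finset.sum_const, hcard, nsmul_eq_mul] at h3 h5
  omega

theorem rho_four (c : Ctx S H) {i : ι} (h : i ∈ VV H) : 4 ≤ rho H i := by
  have h1 := rho_two c h
  have h2 := rho_even c i
  have h3 := no_two c i
  omega

theorem card_V5 (c : Ctx S H) : (VV H).card ≤ 5 := by
  have h1 : ∑ _i ∈ VV H, (4 : ℤ) ≤ ∑ i ∈ VV H, rho H i := Finset.sum_le_sum fun i hi => rho_four c hi
  have h2 := sum_rho_le c (VV H)
  rw [Finset.sum_const, nsmul_eq_mul] at h1
  omega

/-- the case of two complementary sets of kernel vectors -/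
theorem two_sets (c : Ctx S H) (A B : Finset ι) (s : ι → ℤ) (hs : ∀ t ∈ VV H, s t = 1 ∨ s t = -1)
    (hAV : A ⊆ VV H) (hBV : B ⊆ VV H) (hd : Disjoint A B) (hV : ∀ t ∈ VV H, t ∈ A ∨ t ∈ B)
    (hA : A.card ≤ 2) (hA0 : A.Nonempty) (hB0 : B.Nonempty) (hB3 : B.card ≤ 3)
    (kA : ∀ k, ∑ t ∈ A, H k t * s t = 0) (kB : ∀ k, ∑ t ∈ B, H k t * s t = 0) : False := by
  have hsn : ∀ t ∈ VV H, s t ≠ 0 := by
    intro t ht
    rcases hs t ht with e | e <;> rw [e] <;> norm_num
  -- a set with one element is impossible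
  have one : ∀ (X : Finset ι), X ⊆ VV H → (∀ k, ∑ t ∈ X, H k t * s t = 0) → X.card ≠ 1 := by
    intro X hX kX hc
    obtain ⟨t, rfl⟩ := Finset.card_eq_one.1 hc
    have htV : t ∈ VV H := hX (Finset.mem_singleton_self t)
    obtain ⟨j, hj⟩ := mem_VV.1 htV
    have := kX j
    rw [Finset.sum_singleton] at this
    rcases mul_eq_zero.1 this with e | e
    · exact hj (by rw [c.sH]; exact e)
    · exact hsn t htV e
  have hA1 := one A hAV kA
  have hB1 := one B hBV kB
  have hAc := Finset.card_pos.2 hA0
  have hBc := Finset.card_pos.2 hB0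
  obtain ⟨l, m, hlm, rfl⟩ := Finset.card_eq_two.1 (show A.card = 2 by omega)
  have hlV : l ∈ VV H := hAV (by simp)
  have hmV : m ∈ VV H := hAV (by simp)
  have kA' : ∀ k, H k l * s l + H k m * s m = 0 := by
    intro k
    have := kA k
    rwa [Finset.sum_pair hlm] at this
  -- the entries inside B vanish
  have hBB : ∀ p ∈ B, ∀ q ∈ B, H p q = 0 := by
    have hB23 : B.card = 2 ∨ B.card = 3 := by omega
    rcases hB23 with h2 | h3
    · obtain ⟨p, q, hpq, rfl⟩ := Finset.card_eq_two.1 h2
      have hpV : p ∈ VV H := hBV (by simp)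
      have hqV : q ∈ VV H := hBV (by simp)
      have h5 := kB p
      rw [Finset.sum_pair hpq, c.dH, zero_mul, zero_add] at h5
      have h6 : H p q = 0 := (mul_eq_zero.1 h5).resolve_right (hsn q hqV)
      intro x hx y hy
      rw [Finset.mem_insert, Finset.mem_singleton] at hx hy
      rcases hx with rfl | rfl <;> rcases hy with rfl | rfl
      · exact c.dH _
      · exact h6
      · rw [c.sH]; exact h6
      · exact c.dH _
    · obtain ⟨p, q, r, hpq, hpr, hqr, rfl⟩ := Finset.card_eq_three.1 h3
      have hpV : p ∈ VV H := hBV (by simp)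
      have hqV : q ∈ VV H := hBV (by simp)
      have hrV : r ∈ VV H := hBV (by simp)
      have hsum : ∀ k, H k p * s p + (H k q * s q + H k r * s r) = 0 := by
        intro k
        have := kB k
        rwa [Finset.sum_insert (by
          rw [Finset.mem_insert, Finset.mem_singleton]; push Not; exact ⟨hpq, hpr⟩),
          Finset.sum_pair hqr] at this
      have e1 := hsum p
      have e2 := hsum q
      have e3 := hsum r
      rw [c.dH] at e1 e2 e3
      rw [c.sH q p] at e2
      rw [c.sH r p, c.sH r q] at e3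
      have hall : H p q = 0 ∧ H p r = 0 ∧ H q r = 0 := by
        rcases hs p hpV with a | a <;> rcases hs q hqV with b | b <;> rcases hs r hrV with d | d <;>
          rw [a, b, d] at e1 e2 e3 <;> refine ⟨?_, ?_, ?_⟩ <;> omega
      intro x hx y hy
      rw [Finset.mem_insert, Finset.mem_insert, Finset.mem_singleton] at hx hy
      rcases hx with rfl | rfl | rfl <;> rcases hy with rfl | rfl | rfl
      · exact c.dH _
      · exact hall.1
      · exact hall.2.1
      · rw [c.sH]; exact hall.1
      · exact c.dH _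
      · exact hall.2.2
      · rw [c.sH]; exact hall.2.1
      · rw [c.sH]; exact hall.2.2
      · exact c.dH _
  -- the rows of B
  have hrow : ∀ t ∈ B, 8 ≤ rho H t := by
    intro t ht
    have htV := hBV ht
    have h4 := rho_four c htV
    have h5 : rho H t = H t l ^ 2 + H t m ^ 2 := by
      have h6 : rho H t = ∑ j ∈ ({l, m} : Finset ι), H t j ^ 2 := by
        symm
        refine Finset.sum_subset (Finset.subset_univ _) ?_
        intro x _ hx
        by_cases hxV : x ∈ VV H
        · have hxB : x ∈ B := (hV x hxV).resolve_left hx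
          rw [hBB t ht x hxB]
          norm_num
        · rw [c.sH, not_mem_VV.1 hxV]
          norm_num
      rw [h6, Finset.sum_pair hlm]
    have h7 := kA' t
    have h8 : H t l ^ 2 = H t m ^ 2 := by
      rcases hs l hlV with a | a <;> rcases hs m hmV with b | b <;> rw [a, b] at h7
      · have : H t l = -H t m := by omega
        rw [this]; ring
      · have : H t l = H t m := by omega
        rw [this]
      · have : H t l = H t m := by omega
        rw [this]
      · have : H t l = -H t m := by omega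
        rw [this]; ring
    have h9 : 2 ≤ H t m ^ 2 := by omega
    have h10 : 4 ≤ H t m ^ 2 := by
      have h11 : 2 ≤ |H t m| := by
        by_contra hcon
        push Not at hcon
        have h12 : |H t m| ≤ 1 := by omega
        have h13 : H t m ^ 2 ≤ 1 := by
          rw [← sq_abs]
          have := abs_nonneg (H t m)
          nlinarith
        omega
      rw [← sq_abs]
      nlinarith
    omega
  have hlB : l ∉ B := fun h => Finset.disjoint_left.1 hd (by simp) h
  have hmB : m ∉ B := fun h => Finset.disjoint_left.1 hd (by simp) h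
  have h1 := sum_rho_le c (insert l (insert m B))
  rw [Finset.sum_insert (by
    rw [Finset.mem_insert]; push Not; exact ⟨hlm, hlB⟩), Finset.sum_insert hmB] at h1
  have h2 : ∑ _i ∈ B, (8 : ℤ) ≤ ∑ i ∈ B, rho H i := Finset.sum_le_sum hrow
  rw [Finset.sum_const, nsmul_eq_mul] at h2
  have h3 := rho_four c hlV
  have h4 := rho_four c hmV
  omega

theorem H_zero (c : Ctx S H) (i j : ι) : H i j = 0 := by
  by_contra hij
  have hne : i ≠ j := fun e => hij (by rw [e, c.dH])
  have hiV := (mem_VV' c hij).1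
  have hjV := (mem_VV' c hij).2
  have hv := card_V5 c
  -- the sign S i x * S j x is not constant for x outside V
  have hnc : ∃ x, x ∉ VV H ∧ ∃ y, y ∉ VV H ∧ S i x * S j x ≠ S i y * S j y := by
    by_contra hcon
    push Not at hcon
    obtain ⟨x, hx⟩ := exists_zero c
    have hix : i ≠ x := fun e => hx (e ▸ hiV)
    have hjx : j ≠ x := fun e => hx (e ▸ hjV)
    have hε : S i x * S j x = 1 ∨ S i x * S j x = -1 := by
      rcases c.oS i x hix with a | a <;> rcases c.oS j x hjx with b | b <;> rw [a, b] <;> norm_num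
    have hb := big c hiV hjV hne hε (fun y hy => hcon y hy x hx)
    have h4 : 4 ≤ |H i j| := by omega
    have h5 : 16 ≤ H i j ^ 2 := by
      rw [← sq_abs]
      nlinarith
    have h6 := sum_sq_le (H := H) i {j}
    have h7 := sum_sq_le (H := H) j {i}
    rw [Finset.sum_singleton] at h6 h7
    rw [c.sH j i] at h7
    have h8 := sum_rho_le c {i, j}
    rw [Finset.sum_pair hne] at h8
    omega
  obtain ⟨x, hx, y, hy, hxy⟩ := hnc
  have hout : ∀ {z : ι}, z ∉ VV H → ∀ t ∈ VV H, S t z = 1 ∨ S t z = -1 := fun {z} hz t ht =>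
    c.oS t z fun e => hz (e ▸ ht)
  set A := (VV H).filter fun t => S t x = S t y with hA
  set B := (VV H).filter fun t => S t x ≠ S t y with hB
  have hd : Disjoint A B := by
    rw [Finset.disjoint_left]
    intro t h1 h2
    exact (Finset.mem_filter.1 h2).2 (Finset.mem_filter.1 h1).2
  have hVAB : ∀ t ∈ VV H, t ∈ A ∨ t ∈ B := by
    intro t ht
    by_cases h : S t x = S t y
    · exact Or.inl (Finset.mem_filter.2 ⟨ht, h⟩)
    · exact Or.inr (Finset.mem_filter.2 ⟨ht, h⟩)
  have hcard : A.card + B.card = (VV H).card := Finset.card_filter_add_card_filter_not _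
  have hsum : ∀ {z : ι}, z ∉ VV H → ∀ k, ∑ t ∈ A, H k t * S t z + ∑ t ∈ B, H k t * S t z = 0 := by
    intro z hz k
    have h1 : ∑ t ∈ A, H k t * S t z + ∑ t ∈ B, H k t * S t z = ∑ t ∈ VV H, H k t * S t z :=
      Finset.sum_filter_add_sum_filter_not _ _ _
    rw [h1]
    have h2 : ∑ t ∈ VV H, H k t * S t z = ∑ t, H k t * S t z := by
      refine Finset.sum_subset (Finset.subset_univ _) ?_
      intro t _ ht
      rw [c.sH, not_mem_VV.1 ht, zero_mul]
    rw [h2]
    exact key c hz k
  have hBneg : ∀ t ∈ B, S t y = -S t x := by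
    intro t ht
    have h1 := Finset.mem_filter.1 ht
    rcases hout hx t h1.1 with a | a <;> rcases hout hy t h1.1 with b | b <;> rw [a, b]
    · exact absurd (a.trans b.symm) h1.2
    · norm_num
    · exact absurd (a.trans b.symm) h1.2
  have hk : ∀ k, ∑ t ∈ A, H k t * S t x = 0 ∧ ∑ t ∈ B, H k t * S t x = 0 := by
    intro k
    have h1 := hsum hx k
    have h2 := hsum hy k
    have h3 : ∑ t ∈ A, H k t * S t y = ∑ t ∈ A, H k t * S t x :=
      Finset.sum_congr rfl fun t ht => by rw [(Finset.mem_filter.1 ht).2]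
    have h4 : ∑ t ∈ B, H k t * S t y = -∑ t ∈ B, H k t * S t x := by
      rw [← Finset.sum_neg_distrib]
      exact Finset.sum_congr rfl fun t ht => by rw [hBneg t ht]; ring
    rw [h3, h4] at h2
    omega
  have hne2 : (i ∈ A ∧ j ∈ B) ∨ (i ∈ B ∧ j ∈ A) := by
    rcases hVAB i hiV with a | a <;> rcases hVAB j hjV with b | b
    · exfalso
      apply hxy
      rw [(Finset.mem_filter.1 a).2, (Finset.mem_filter.1 b).2]
    · exact Or.inl ⟨a, b⟩
    · exact Or.inr ⟨a, b⟩
    · exfalso
      apply hxy
      rw [hBneg i a, hBneg j b]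
      ring
  have hA0 : A.Nonempty := by
    rcases hne2 with h | h
    · exact ⟨i, h.1⟩
    · exact ⟨j, h.2⟩
  have hB0 : B.Nonempty := by
    rcases hne2 with h | h
    · exact ⟨j, h.2⟩
    · exact ⟨i, h.1⟩
  have hAV : A ⊆ VV H := Finset.filter_subset _ _
  have hBV : B ⊆ VV H := Finset.filter_subset _ _
  have hAc := Finset.card_pos.2 hA0
  have hBc := Finset.card_pos.2 hB0
  -- a set with one element is impossible, so both sets have at most three elements
  have one : ∀ (X : Finset ι), X ⊆ VV H → (∀ k, ∑ t ∈ X, H k t * S t x = 0) → X.card ≠ 1 := by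
    intro X hX kX hc
    obtain ⟨t, rfl⟩ := Finset.card_eq_one.1 hc
    have htV : t ∈ VV H := hX (Finset.mem_singleton_self t)
    obtain ⟨j, hj⟩ := mem_VV.1 htV
    have := kX j
    rw [Finset.sum_singleton] at this
    rcases mul_eq_zero.1 this with e | e
    · exact hj (by rw [c.sH]; exact e)
    · rcases hout hx t htV with a | a <;> rw [a] at e <;> norm_num at e
  have hA1 := one A hAV fun k => (hk k).1
  have hB1 := one B hBV fun k => (hk k).2
  by_cases hle : A.card ≤ 2
  · exact two_sets c A B (fun t => S t x) (hout hx) hAV hBV hd hVAB hle hA0 hB0 (by omega)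
      (fun k => (hk k).1) (fun k => (hk k).2)
  · exact two_sets c B A (fun t => S t x) (hout hx) hBV hAV hd.symm (fun t ht => (hVAB t ht).symm)
      (by omega) hB0 hA0 (by omega) (fun k => (hk k).2) (fun k => (hk k).1)

/-- the graph of the entries `-1` -/
def gr (S : ι → ι → ℤ) (sS : ∀ i j, S i j = S j i) (dS : ∀ i, S i i = 0) : SimpleGraph ι where
  Adj i j := S i j = -1
  symm := ⟨fun i j h => by rw [sS]; exact h⟩
  loopless := ⟨fun i h => by rw [dS] at h; norm_num at h⟩

instance (S : ι → ι → ℤ) (sS : ∀ i j, S i j = S j i) (dS : ∀ i, S i i = 0) :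
    DecidableRel (gr S sS dS).Adj := fun i j => inferInstanceAs (Decidable (S i j = -1))

end Pool.Agent.Lib.MP_f1379f_gt.FV.INTM

namespace Pool.Agent.Lib.MP_f1379f_gt.FV

open INTM in
/-- a Seidel matrix of order 28 which is almost E7 is E7 -/
theorem specINT : SpecINT := by
  intro ι _ _ S hc sS dS oS hsum
  set N : ι → ι → ℤ := fun i j => ∑ k, S i k * S k j - 6 * S i j - (if i = j then 27 else 0) with hN
  set d : ι → ℕ := fun i => (univ.filter fun k => S i k = -1).card with hd
  have hr : ∀ i, ∑ k, S i k = 27 - 2 * (d i : ℤ) := by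
    intro i
    have e : ∀ k, S i k = 1 - (if k = i then 1 else 0) - 2 * (if S i k = -1 then 1 else 0) := by
      intro k
      by_cases h : k = i
      · rw [if_pos h, h, dS]
        norm_num
      · rw [if_neg h]
        rcases oS i k (Ne.symm h) with a | a <;> rw [a] <;> norm_num
    have e1 : ∑ k, (if k = i then (1 : ℤ) else 0) = 1 := by
      rw [Finset.sum_ite_eq', if_pos (Finset.mem_univ _)]
    have e2 : ∑ k, (if S i k = -1 then (1 : ℤ) else 0) = d i := by
      rw [Finset.sum_boole]
    rw [Finset.sum_congr rfl fun k _ => e k, Finset.sum_sub_distrib, Finset.sum_sub_distrib,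
      ← Finset.mul_sum, e1, e2]
    simp [hc]
  -- the entries modulo 4
  have hmod : ∀ i j, i ≠ j → (4 : ℤ) ∣ N i j - 2 * ((d i : ℤ) + d j) := by
    intro i j hij
    have h1 : (4 : ℤ) ∣ ∑ k, ((1 - S i k) * (1 - S j k) - (if k = i then 1 - S i j else 0)
        - (if k = j then 1 - S i j else 0)) := by
      refine Finset.dvd_sum fun k _ => ?_
      by_cases hki : k = i
      · rw [if_pos hki, if_neg (by rw [hki]; exact hij), hki, dS, sS j i]
        norm_num
      · rw [if_neg hki]
        by_cases hkj : k = j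
        · rw [if_pos hkj, hkj, dS]
          norm_num
        · rw [if_neg hkj]
          rcases oS i k (Ne.symm hki) with a | a <;> rcases oS j k (Ne.symm hkj) with b | b <;> rw [a, b] <;> norm_num
    have h2 : ∑ k, ((1 - S i k) * (1 - S j k) - (if k = i then 1 - S i j else 0)
        - (if k = j then 1 - S i j else 0)) =
        28 - ∑ k, S i k - ∑ k, S j k + ∑ k, S i k * S k j - 2 * (1 - S i j) := by
      rw [Finset.sum_sub_distrib, Finset.sum_sub_distrib, Finset.sum_ite_eq', Finset.sum_ite_eq',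
        if_pos (Finset.mem_univ _), if_pos (Finset.mem_univ _)]
      have h3 : ∑ k, (1 - S i k) * (1 - S j k) = 28 - ∑ k, S i k - ∑ k, S j k + ∑ k, S i k * S k j := by
        have : ∀ k, (1 - S i k) * (1 - S j k) = 1 - S i k - S j k + S i k * S k j := by
          intro k
          rw [sS k j]
          ring
        rw [Finset.sum_congr rfl fun k _ => this k, Finset.sum_add_distrib, Finset.sum_sub_distrib,
          Finset.sum_sub_distrib]
        simp [hc]
      rw [h3]
      ring
    rw [h2, hr, hr] at h1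
    have h4 : N i j = ∑ k, S i k * S k j - 6 * S i j := by
      simp only [hN]
      rw [if_neg hij, sub_zero]
    rw [h4]
    rcases oS i j hij with a | a <;> rw [a] at h1 ⊢ <;> omega
  have hsum' : ∑ i, ∑ j, N i j ^ 2 < 384 := hsum
  -- all the numbers d i have the same parity
  have hpar : ∀ i j, (d i % 2) = d j % 2 := by
    set O : Finset ι := univ.filter fun i => Odd (d i) with hO
    have hev : Even O.card := by
      have h1 := (gr S sS dS).even_card_odd_degree_vertices
      have h2 : (univ.filter fun v => Odd ((gr S sS dS).degree v)) = O := by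
        rw [hO]
        refine Finset.filter_congr fun v _ => ?_
        have : (gr S sS dS).degree v = d v := by
          rw [← SimpleGraph.card_neighborFinset_eq_degree, SimpleGraph.neighborFinset_eq_filter]
          rfl
        rw [this]
      rwa [h2] at h1
    have hmO : O.card ≤ 28 := by
      rw [← hc]
      exact Finset.card_le_univ O
    by_cases h0 : O.card = 0
    · intro i j
      have h1 : ∀ i, ¬ Odd (d i) := fun i hi =>
        Finset.notMem_empty i ((Finset.card_eq_zero.1 h0) ▸ (Finset.mem_filter.2 ⟨Finset.mem_univ i, hi⟩))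
      have a := h1 i
      have b := h1 j
      rw [Nat.odd_iff] at a b
      omega
    by_cases h28 : O.card = 28
    · intro i j
      have h2 : O = univ := Finset.eq_univ_of_card O (by rw [h28, hc])
      have h1 : ∀ i, Odd (d i) := fun i => (Finset.mem_filter.1 (h2 ▸ Finset.mem_univ i : i ∈ O)).2
      have a := h1 i
      have b := h1 j
      rw [Nat.odd_iff] at a b
      omega
    exfalso
    have hge : ∀ i j, (i ∈ O ↔ j ∉ O) → 4 ≤ N i j ^ 2 := by
      intro i j hij
      have hne : i ≠ j := by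
        rintro rfl
        tauto
      have h1 := hmod i j hne
      have h2 : (d i % 2 = 1 ∧ d j % 2 = 0) ∨ (d i % 2 = 0 ∧ d j % 2 = 1) := by
        simp only [hO, Finset.mem_filter, Finset.mem_univ, true_and, Nat.odd_iff] at hij
        omega
      have h3 : N i j % 4 = 2 := by omega
      have h4 : 2 ≤ |N i j| := by
        by_contra hcon
        push Not at hcon
        have h5 := abs_lt.1 hcon
        omega
      rw [← sq_abs]
      nlinarith
    have h1 : ∑ i ∈ O, ∑ j ∈ Oᶜ, (4 : ℤ) + ∑ i ∈ Oᶜ, ∑ j ∈ O, (4 : ℤ) ≤ ∑ i, ∑ j, N i j ^ 2 := by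
      rw [← Finset.sum_add_sum_compl O]
      refine add_le_add (Finset.sum_le_sum fun i hi => ?_) (Finset.sum_le_sum fun i hi => ?_)
      · calc ∑ j ∈ Oᶜ, (4 : ℤ) ≤ ∑ j ∈ Oᶜ, N i j ^ 2 := Finset.sum_le_sum fun j hj =>
              hge i j ⟨fun _ => Finset.mem_compl.1 hj, fun _ => hi⟩
          _ ≤ _ := Finset.sum_le_sum_of_subset_of_nonneg (Finset.subset_univ _) fun j _ _ => sq_nonneg _
      · calc ∑ j ∈ O, (4 : ℤ) ≤ ∑ j ∈ O, N i j ^ 2 := Finset.sum_le_sum fun j hj =>
              hge i j ⟨fun h => absurd h (Finset.mem_compl.1 hi), fun h => absurd hj h⟩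
          _ ≤ _ := Finset.sum_le_sum_of_subset_of_nonneg (Finset.subset_univ _) fun j _ _ => sq_nonneg _
    simp only [Finset.sum_const, Finset.card_compl, hc, nsmul_eq_mul] at h1
    obtain ⟨m, hm⟩ := hev
    rw [hm] at h0 h28 hmO h1
    have hm14 : m + m ≤ 28 := hmO
    have hm1 : 1 ≤ m := by omega
    have hm2 : m ≤ 13 := by omega
    push_cast [hm14] at h1
    have hm1' : (1 : ℤ) ≤ m := by exact_mod_cast hm1
    have hm2' : (m : ℤ) ≤ 13 := by exact_mod_cast hm2
    nlinarith
  have hdvd : ∀ i j, (4 : ℤ) ∣ N i j := by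
    intro i j
    by_cases hij : i = j
    · have : N i j = 0 := by
        simp only [hN]
        rw [if_pos hij, ← hij, dS]
        have h1 : ∑ k, S i k * S k i = 27 := by
          have e : ∀ k, S i k * S k i = 1 - (if k = i then 1 else 0) := by
            intro k
            by_cases h : k = i
            · rw [if_pos h, h, dS]
              norm_num
            · rw [if_neg h, sS k i]
              rcases oS i k (Ne.symm h) with a | a <;> rw [a] <;> norm_num
          rw [Finset.sum_congr rfl fun k _ => e k, Finset.sum_sub_distrib, Finset.sum_ite_eq',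
            if_pos (Finset.mem_univ _)]
          simp [hc]
        rw [h1]
        norm_num
      rw [this]
      exact dvd_zero _
    · have h1 := hmod i j hij
      have h2 := hpar i j
      omega
  choose H hH using hdvd
  have ctx : Ctx S H := by
    refine ⟨hc, sS, dS, oS, ?_, ?_, ?_, ?_⟩
    · intro i j
      have h1 : N i j = N j i := by
        simp only [hN]
        have e : ∑ k, S i k * S k j = ∑ k, S j k * S k i :=
          Finset.sum_congr rfl fun k _ => by rw [sS i k, sS k j]; ring
        rw [e, sS i j]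
        by_cases h : i = j
        · rw [if_pos h, if_pos h.symm]
        · rw [if_neg h, if_neg (Ne.symm h)]
      have h2 := hH i j
      have h3 := hH j i
      omega
    · intro i
      have h1 : N i i = 0 := by
        simp only [hN, if_true, dS]
        have h1 : ∑ k, S i k * S k i = 27 := by
          have e : ∀ k, S i k * S k i = 1 - (if k = i then 1 else 0) := by
            intro k
            by_cases h : k = i
            · rw [if_pos h, h, dS]
              norm_num
            · rw [if_neg h, sS k i]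
              rcases oS i k (Ne.symm h) with a | a <;> rw [a] <;> norm_num
          rw [Finset.sum_congr rfl fun k _ => e k, Finset.sum_sub_distrib, Finset.sum_ite_eq',
            if_pos (Finset.mem_univ _)]
          simp [hc]
        rw [h1]
        norm_num
      have h2 := hH i i
      omega
    · intro i j
      have h1 := hH i j
      simp only [hN] at h1
      linarith
    · have h1 : ∑ i, ∑ j, N i j ^ 2 = 16 * ∑ i, rho H i := by
        rw [Finset.mul_sum]
        refine Finset.sum_congr rfl fun i _ => ?_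
        rw [rho, Finset.mul_sum]
        refine Finset.sum_congr rfl fun j _ => ?_
        rw [hH]
        ring
      omega
  intro i j
  have h1 := hH i j
  rw [H_zero ctx i j] at h1
  simp only [hN] at h1
  linarith

end Pool.Agent.Lib.MP_f1379f_gt.FV
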