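import Pool.Agent.Lib.MP_f1379f_gt.FV.SpecS1

/-!
# MP_f1379f_gt, full Q1, block STAB1, module KER7: positive definite kernels on the sphere of R^7
-/

set_option autoImplicit false

namespace Pool.Agent.Lib.MP_f1379f_gt.FV

namespace KER7M

/-- Double sum of the zonal polynomial of degree `k`. -/
noncomputable def S (k : ℕ) {ι : Type} (s : Finset ι) (p : ι → V7) : ℝ :=
  ∑ i ∈ s, ∑ j ∈ s, Zg 7 k (inner ℝ (p i) (p j)) 1

lemma S_zero {ι : Type} (s : Finset ι) (p : ι → V7) : S 0 s p = (s.card : ℝ) ^ 2 := by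
  simp only [S, Zg, Finset.sum_const, nsmul_eq_mul, mul_one]
  ring

lemma S_nonneg (k : ℕ) {ι : Type} (s : Finset ι) (p : ι → V7) (h1 : ∀ i ∈ s, ‖p i‖ = 1) :
    0 ≤ S k s p := by
  have hin : ∀ i ∈ s, (inner ℝ (p i) (p i) : ℝ) = 1 := by
    intro i hi
    rw [real_inner_self_eq_norm_sq, h1 i hi]
    norm_num
  have h := gen_pos (n := 7) (by norm_num) k s p (fun _ => 1)
  refine h.trans_eq ?_
  unfold S
  refine Finset.sum_congr rfl (fun i hi => Finset.sum_congr rfl (fun j hj => ?_))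
  simp only [hin i hi, hin j hj, mul_one, one_mul]

/-- Sum of a kernel with a zonal expansion of degree 4. -/
lemma sum_exp (q : ℝ → ℝ) (c0 c1 c2 c3 c4 : ℝ)
    (hq : ∀ t, q t = c0 * Zg 7 0 t 1 + c1 * Zg 7 1 t 1 + c2 * Zg 7 2 t 1 + c3 * Zg 7 3 t 1 +
      c4 * Zg 7 4 t 1) {ι : Type} (s : Finset ι) (p : ι → V7) :
    ∑ i ∈ s, ∑ j ∈ s, q (inner ℝ (p i) (p j)) =
      c0 * (s.card : ℝ) ^ 2 + c1 * S 1 s p + c2 * S 2 s p + c3 * S 3 s p + c4 * S 4 s p := by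
  rw [← S_zero s p]
  unfold S
  simp only [Finset.mul_sum, ← Finset.sum_add_distrib]
  refine Finset.sum_congr rfl (fun i _ => Finset.sum_congr rfl (fun j _ => ?_))
  exact hq _

lemma exp_g (t : ℝ) : G7 t = (-8 / 7) * Zg 7 0 t 1 + (-8) * Zg 7 1 t 1 +
    (-1368 / 77) * Zg 7 2 t 1 + (-24) * Zg 7 3 t 1 + (-144 / 11) * Zg 7 4 t 1 := by
  simp only [Zg, G7]
  push_cast
  ring

lemma exp_t2 (t : ℝ) : t ^ 2 = (1 / 7) * Zg 7 0 t 1 + 0 * Zg 7 1 t 1 +
    (6 / 7) * Zg 7 2 t 1 + 0 * Zg 7 3 t 1 + 0 * Zg 7 4 t 1 := by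
  simp only [Zg]
  push_cast
  ring

lemma exp_a (t : ℝ) : A7 t = (1 / 28) * Zg 7 0 t 1 + 0 * Zg 7 1 t 1 +
    (27 / 77) * Zg 7 2 t 1 + 0 * Zg 7 3 t 1 + (27 / 44) * Zg 7 4 t 1 := by
  simp only [Zg, A7]
  push_cast
  ring

lemma exp_q (t : ℝ) : 15 / 64 * G7 t + q7 t = (9 / 28) * Zg 7 0 t 1 + 0 * Zg 7 1 t 1 +
    (-135 / 77) * Zg 7 2 t 1 + (-9 / 2) * Zg 7 3 t 1 + (-135 / 44) * Zg 7 4 t 1 := by
  simp only [Zg, G7, q7]
  push_cast
  ring

end KER7M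

open KER7M in
/-- Positive definite kernels on the unit sphere of R^7. -/
theorem specKER7 : SpecKER7 where
  g := by
    intro ι s p h1
    have h := sum_exp G7 _ _ _ _ _ exp_g s p
    have h2 := sum_exp (fun t => t ^ 2) _ _ _ _ _ exp_t2 s p
    have e1 := S_nonneg 1 s p h1
    have e3 := S_nonneg 3 s p h1
    have e4 := S_nonneg 4 s p h1
    rw [h, h2]
    linarith
  a := by
    intro ι s p h1
    have h := sum_exp A7 _ _ _ _ _ exp_a s p
    have e2 := S_nonneg 2 s p h1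
    have e4 := S_nonneg 4 s p h1
    rw [h]
    linarith
  q := by
    intro ι s p h1
    have h := sum_exp (fun t => 15 / 64 * G7 t + q7 t) _ _ _ _ _ exp_q s p
    have e2 := S_nonneg 2 s p h1
    have e3 := S_nonneg 3 s p h1
    have e4 := S_nonneg 4 s p h1
    rw [h]
    linarith
  t2 := by
    intro ι s p h1
    have h2 := sum_exp (fun t => t ^ 2) _ _ _ _ _ exp_t2 s p
    have e2 := S_nonneg 2 s p h1
    rw [h2]
    linarith

end Pool.Agent.Lib.MP_f1379f_gt.FV
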