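import Pool.Agent.Lib.MP_f1379f_gt.FV.ANT

/-! # MP_f1379f_gt, full Q1, block STAB1, module LIN (helper64) -/

set_option autoImplicit false

namespace Pool.Agent.Lib.MP_f1379f_gt.FV

namespace LINM

open ANTM

variable {α : Type} [DecidableEq α] {N : Finset α} {p : α → V7} {C : Finset (α × α)} {σ : α → α}

/-- cost of a pair -/
noncomputable def ff (p : α → V7) (C : Finset (α × α)) (i j : α) : ℝ :=
  if (i, j) ∈ C then 0 else G7 (tt p (i, j))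

theorem ff_nonneg {B cA : ℝ} (h : LK N p C B cA) {i j : α} (hi : i ∈ N) (hj : j ∈ N)
    (hij : i ≠ j) : 0 ≤ ff p C i j := by
  unfold ff
  split_ifs with hC
  · exact le_rfl
  · have h1 : (i, j) ∈ PP N C := mem_PP.2 ⟨⟨hi, hj, hij⟩, hC⟩
    exact G_nonneg (PP_le h h1).1 (PP_le h h1).2

theorem ff_symm {B cA : ℝ} (h : LK N p C B cA) (i j : α) : ff p C i j = ff p C j i := by
  unfold ff
  have h1 : (i, j) ∈ C ↔ (j, i) ∈ C := ⟨h.symm i j, h.symm j i⟩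
  have h2 : tt p (i, j) = tt p (j, i) := tt_swap p (j, i)
  by_cases h3 : (i, j) ∈ C
  · rw [if_pos h3, if_pos (h1.1 h3)]
  · rw [if_neg h3, if_neg fun h4 => h3 (h1.2 h4), h2]

theorem ff_anti {B cA : ℝ} (h : LK N p C B cA) (hA : AN N p σ) {b : α} (hb : b ∈ N) :
    ff p C b (σ b) = G7 (tt p (b, σ b)) := by
  unfold ff
  refine if_neg fun hC => ?_
  obtain ⟨h1, h2, h3⟩ := hA.inv b hb
  have h4 := h.con b hb (σ b) h1 h3.symm hC
  have h5 := hA.near b hb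
  linarith

theorem sum_PP (N : Finset α) (p : α → V7) (C : Finset (α × α)) :
    ∑ q ∈ PP N C, G7 (tt p q) = ∑ q ∈ N.offDiag, ff p C q.1 q.2 := by
  unfold PP
  rw [Finset.sum_filter]
  refine Finset.sum_congr rfl fun q _ => ?_
  unfold ff
  by_cases h : q ∈ C
  · rw [if_neg (not_not.2 h), if_pos h]
  · rw [if_pos h, if_neg h]

/-- the budget of two antipodal pairs -/
theorem bud4 (hK : SpecKER7) (h : LK N p C (418 / 100) (3 / 10)) (hA : AN N p σ) {b c : α}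
    (hb : b ∈ N) (hc : c ∈ N) (hcb : c ≠ b) (hcσ : c ≠ σ b) :
    2 * (ff p C b c + ff p C b (σ c) + ff p C (σ b) c + ff p C (σ b) (σ c)) +
      2 * G7 (tt p (b, σ b)) + 2 * G7 (tt p (c, σ c)) ≤ 418 / 100 := by
  obtain ⟨b1, b2, b3⟩ := hA.inv b hb
  obtain ⟨c1, c2, c3⟩ := hA.inv c hc
  have hcσ' : σ c ≠ b := by
    intro heq
    apply hcσ
    rw [← heq, c2]
  have hσσ : σ b ≠ σ c := by
    intro heq
    apply hcb
    rw [← b2, heq, c2]
  have hdis : Disjoint ({b, σ b} : Finset α) {c, σ c} := by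
    rw [Finset.disjoint_left]
    intro x hx hx'
    simp only [Finset.mem_insert, Finset.mem_singleton] at hx hx'
    rcases hx with rfl | rfl <;> rcases hx' with hx' | hx'
    · exact hcb hx'.symm
    · exact hcσ' hx'.symm
    · exact hcσ hx'.symm
    · exact hσσ hx'
  set D : Finset α := {b, σ b} ∪ {c, σ c} with hD
  have hDN : D ⊆ N := by
    intro x hx
    rw [hD] at hx
    simp only [Finset.mem_union, Finset.mem_insert, Finset.mem_singleton] at hx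
    rcases hx with (rfl | rfl) | (rfl | rfl)
    · exact hb
    · exact b1
    · exact hc
    · exact c1
  have h1 : ∑ q ∈ D.offDiag, ff p C q.1 q.2 ≤ ∑ q ∈ N.offDiag, ff p C q.1 q.2 := by
    refine Finset.sum_le_sum_of_subset_of_nonneg (Finset.offDiag_mono hDN) fun q hq _ => ?_
    obtain ⟨a1, a2, a3⟩ := Finset.mem_offDiag.1 hq
    exact ff_nonneg h a1 a2 a3
  rw [← sum_PP N p C] at h1
  have h2 := h1.trans (s2 hK h)
  have h3 := offd D (ff p C)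
  have h4 : ∀ F : α → ℝ, ∑ i ∈ D, F i = (F b + F (σ b)) + (F c + F (σ c)) := by
    intro F
    rw [hD, Finset.sum_union hdis, Finset.sum_pair b3.symm, Finset.sum_pair c3.symm]
  rw [h4, h4, h4, h4, h4, h4] at h3
  have h5 := ff_anti h hA hb
  have h6 := ff_anti h hA hc
  rw [ff_symm h (σ b) b, ff_symm h c b, ff_symm h c (σ b), ff_symm h (σ c) b,
    ff_symm h (σ c) (σ b), ff_symm h (σ c) c, h5, h6] at h3
  linarith

/-- the cost of the four pairs -/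
theorem cost_eq {b c : α} (hb : b ≠ σ b) (hc : c ≠ σ c) :
    ∑ q ∈ ({b, σ b} ×ˢ {c, σ c} : Finset (α × α)).filter (fun q => q ∉ C),
        G7 (inner ℝ (p q.1) (p q.2)) =
      ff p C b c + ff p C b (σ c) + ff p C (σ b) c + ff p C (σ b) (σ c) := by
  have h1 : ∑ q ∈ ({b, σ b} ×ˢ {c, σ c} : Finset (α × α)).filter (fun q => q ∉ C),
        G7 (inner ℝ (p q.1) (p q.2)) =
      ∑ q ∈ ({b, σ b} ×ˢ {c, σ c} : Finset (α × α)), ff p C q.1 q.2 := by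
    rw [Finset.sum_filter]
    refine Finset.sum_congr rfl fun q _ => ?_
    unfold ff
    by_cases h : q ∈ C
    · rw [if_neg (not_not.2 h), if_pos h]
    · rw [if_pos h, if_neg h]
      rfl
  rw [h1, Finset.sum_product, Finset.sum_pair hb, Finset.sum_pair hc, Finset.sum_pair hc]
  ring

theorem F_eq (t : ℝ) : F7 (1 / 4 + 3 / 4 * t) = 3 / 256 * G7 t := by
  unfold F7 G7
  ring

theorem p_eq (p : α → V7) (σ : α → α) (b : α) : p b = yv p σ b + zv p σ b := by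
  unfold yv zv
  module

theorem pσ_eq (p : α → V7) (σ : α → α) (b : α) : p (σ b) = zv p σ b - yv p σ b := by
  unfold yv zv
  module

/-- norms of `y`, `z` -/
theorem norms {B cA : ℝ} (h : LK N p C B cA) (hA : AN N p σ) {b : α} (hb : b ∈ N) :
    ‖zv p σ b‖ ^ 2 = (1 + tt p (b, σ b)) / 2 ∧ ‖yv p σ b‖ ^ 2 ≤ 1 ∧
      ‖zv p σ b‖ ^ 2 ≤ 1 / 20 := by
  obtain ⟨b1, b2, b3⟩ := hA.inv b hb
  have h1 : ‖zv p σ b‖ ^ 2 = (1 + tt p (b, σ b)) / 2 := by
    unfold zv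
    rw [norm_smul, mul_pow, norm_add_sq_real, h.unit b hb, h.unit _ b1]
    have : tt p (b, σ b) = inner ℝ (p b) (p (σ b)) := rfl
    rw [this]
    norm_num
    ring
  have h2 : ‖yv p σ b‖ ^ 2 = (1 - tt p (b, σ b)) / 2 := by
    unfold yv
    rw [norm_smul, mul_pow, norm_sub_sq_real, h.unit b hb, h.unit _ b1]
    have : tt p (b, σ b) = inner ℝ (p b) (p (σ b)) := rfl
    rw [this]
    norm_num
    ring
  have h3 := (tt_abs h (q := (b, σ b)) hb b1).1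
  have h4 : tt p (b, σ b) ≤ -9 / 10 := hA.near b hb
  refine ⟨h1, ?_, ?_⟩
  · rw [h2]
    linarith
  · rw [h1]
    linarith

/-- the cost of one pair in the T-scale -/
theorem cost1 {B cA : ℝ} (h : LK N p C B cA) {i j : α} (hi : i ∈ N) (hj : j ∈ N) (hij : i ≠ j)
    {T : ℝ} (hT : T = 1 / 4 + 3 / 4 * tt p (i, j)) :
    0 ≤ 3 / 256 * ff p C i j ∧ (3 / 256 * ff p C i j = F7 T ∨ 11 / 25 ≤ T) ∧ T ≤ 217 / 400 := by
  have h1 := ff_nonneg h hi hj hij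
  have h2 : tt p (i, j) ≤ 39 / 100 := h.up i hi j hj hij
  refine ⟨by positivity, ?_, by rw [hT]; linarith⟩
  by_cases hC : (i, j) ∈ C
  · right
    have h3 : 19 / 75 ≤ tt p (i, j) := h.con i hi j hj hij hC
    rw [hT]
    linarith
  · left
    rw [hT, F_eq]
    unfold ff
    rw [if_neg hC]

/-- the inequality if `⟨y, y'⟩ ≥ 0` -/
theorem main (hL : SpecLPI) (hK : SpecKER7) (h : LK N p C (418 / 100) (3 / 10))
    (hA : AN N p σ) {b c : α} (hb : b ∈ N) (hc : c ∈ N) (hcb : c ≠ b) (hcσ : c ≠ σ b)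
    (h0 : 0 ≤ (inner ℝ (yv p σ b) (yv p σ c) : ℝ)) :
    (1 / 3 - (inner ℝ (yv p σ b) (yv p σ c) : ℝ) + (inner ℝ (zv p σ b) (zv p σ c) : ℝ)) ^ 2 ≤
      7 / 160 * (ff p C b c + ff p C b (σ c) + ff p C (σ b) c + ff p C (σ b) (σ c)) := by
  obtain ⟨b1, b2, b3⟩ := hA.inv b hb
  obtain ⟨c1, c2, c3⟩ := hA.inv c hc
  have hcσ' : σ c ≠ b := by
    intro heq
    apply hcσ
    rw [← heq, c2]
  have hσσ : σ c ≠ σ b := by
    intro heq
    apply hcb
    rw [← b2, ← heq, c2]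
  obtain ⟨nb1, nb2, nb3⟩ := norms h hA hb
  obtain ⟨nc1, nc2, nc3⟩ := norms h hA hc
  have hbud := bud4 hK h hA hb hc hcb hcσ
  have htwo : (1 + tt p (b, σ b)) + (1 + tt p (c, σ c)) ≤ 9 / 80 := hA.two b hb c hc hcb hcσ
  have f1 : -21 / 25 < tt p (b, σ c) := hA.far b hb (σ c) c1 hcσ' hσσ
  have f2 : -21 / 25 < tt p (σ b, c) := hA.far (σ b) b1 c hc hcσ (by rw [b2]; exact hcb)
  have f3 : -21 / 25 < tt p (b, c) := hA.far b hb c hc hcb hcσ
  have f4 : -21 / 25 < tt p (σ b, σ c) :=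
    hA.far (σ b) b1 (σ c) c1 hσσ (by rw [b2]; exact hcσ')
  set y := yv p σ b with hy
  set z := zv p σ b with hz
  set y' := yv p σ c with hy'
  set z' := zv p σ c with hz'
  have e1 : tt p (b, σ c) = -inner ℝ y y' + inner ℝ y z' - inner ℝ z y' + inner ℝ z z' := by
    show (inner ℝ (p b) (p (σ c)) : ℝ) = _
    rw [p_eq p σ b, pσ_eq p σ c, inner_add_left, inner_sub_right, inner_sub_right]
    ring
  have e2 : tt p (σ b, c) = -inner ℝ y y' - inner ℝ y z' + inner ℝ z y' + inner ℝ z z' := by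
    show (inner ℝ (p (σ b)) (p c) : ℝ) = _
    rw [pσ_eq p σ b, p_eq p σ c, inner_sub_left, inner_add_right, inner_add_right]
    ring
  have e3 : tt p (b, c) = inner ℝ y y' + inner ℝ y z' + inner ℝ z y' + inner ℝ z z' := by
    show (inner ℝ (p b) (p c) : ℝ) = _
    rw [p_eq p σ b, p_eq p σ c, inner_add_left, inner_add_right, inner_add_right]
    ring
  have e4 : tt p (σ b, σ c) = inner ℝ y y' - inner ℝ y z' - inner ℝ z y' + inner ℝ z z' := by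
    show (inner ℝ (p (σ b)) (p (σ c)) : ℝ) = _
    rw [pσ_eq p σ b, pσ_eq p σ c, inner_sub_left, inner_sub_right, inner_sub_right]
    ring
  have cs : ∀ u v : V7, (inner ℝ u v : ℝ) ^ 2 ≤ ‖u‖ ^ 2 * ‖v‖ ^ 2 := by
    intro u v
    have h1 := abs_real_inner_le_norm u v
    have h2 : |(inner ℝ u v : ℝ)| ^ 2 ≤ (‖u‖ * ‖v‖) ^ 2 := by gcongr
    rwa [sq_abs, mul_pow] at h2
  have q1 := cs y z'
  have q2 := cs z y'
  have q3 := cs z z'
  have hz0 : 0 ≤ ‖z‖ ^ 2 := by positivity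
  have hz0' : 0 ≤ ‖z'‖ ^ 2 := by positivity
  have q1' : (inner ℝ y z' : ℝ) ^ 2 ≤ ‖z'‖ ^ 2 := q1.trans (mul_le_of_le_one_left hz0' nb2)
  have q2' : (inner ℝ z y' : ℝ) ^ 2 ≤ ‖z‖ ^ 2 := q2.trans (mul_le_of_le_one_right hz0 nc2)
  have k1 : (3 / 4 * (inner ℝ y z' : ℝ)) ^ 2 ≤ 3 / 4 * (3 / 4 * ‖z'‖ ^ 2) := by
    rw [mul_pow]
    linarith
  have k2 : (3 / 4 * (inner ℝ z y' : ℝ)) ^ 2 ≤ 3 / 4 * (3 / 4 * ‖z‖ ^ 2) := by
    rw [mul_pow]
    linarith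
  have k3 : (3 / 4 * (inner ℝ z z' : ℝ)) ^ 2 ≤ 3 / 4 * ‖z‖ ^ 2 * (3 / 4 * ‖z'‖ ^ 2) := by
    calc (3 / 4 * (inner ℝ z z' : ℝ)) ^ 2 = 9 / 16 * (inner ℝ z z' : ℝ) ^ 2 := by ring
      _ ≤ 9 / 16 * (‖z‖ ^ 2 * ‖z'‖ ^ 2) := by linarith
      _ = _ := by ring
  obtain ⟨g1, g1', g1''⟩ := cost1 h hb c1 (Ne.symm hcσ') (T := 1 / 4 + 3 / 4 * tt p (b, σ c)) rfl
  obtain ⟨g2, g2', g2''⟩ := cost1 h b1 hc (Ne.symm hcσ) (T := 1 / 4 + 3 / 4 * tt p (σ b, c)) rfl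
  obtain ⟨g3, g3', g3''⟩ := cost1 h hb hc hcb.symm (T := 1 / 4 + 3 / 4 * tt p (b, c)) rfl
  obtain ⟨g4, g4', g4''⟩ := cost1 h b1 c1 hσσ.symm (T := 1 / 4 + 3 / 4 * tt p (σ b, σ c)) rfl
  have F1 : F7 (-1 / 2 + 2 * (3 / 4 * ‖z‖ ^ 2)) = 3 / 256 * G7 (tt p (b, σ b)) := by
    rw [← F_eq, nb1]
    congr 1
    ring
  have F2 : F7 (-1 / 2 + 2 * (3 / 4 * ‖z'‖ ^ 2)) = 3 / 256 * G7 (tt p (c, σ c)) := by
    rw [← F_eq, nc1]
    congr 1
    ring
  have key := hL (3 / 4 * inner ℝ y y') (3 / 4 * ‖z‖ ^ 2) (3 / 4 * ‖z'‖ ^ 2)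
    (3 / 4 * inner ℝ y z') (3 / 4 * inner ℝ z y') (3 / 4 * inner ℝ z z')
    (1 / 4 + 3 / 4 * tt p (b, σ c)) (1 / 4 + 3 / 4 * tt p (σ b, c))
    (1 / 4 + 3 / 4 * tt p (b, c)) (1 / 4 + 3 / 4 * tt p (σ b, σ c))
    (3 / 256 * ff p C b (σ c)) (3 / 256 * ff p C (σ b) c) (3 / 256 * ff p C b c)
    (3 / 256 * ff p C (σ b) (σ c)) (by positivity) (by positivity) (by positivity)
    (by linarith) (by linarith) (by rw [nb1, nc1]; linarith) k1 k2 k3 (by rw [e1]; ring) (by rw [e2]; ring) (by rw [e3]; ring) (by rw [e4]; ring)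
    (by linarith) (by linarith) (by linarith) (by linarith) g1'' g2'' g3'' g4'' g1 g2 g3 g4
    g1' g2' g3' g4' (by rw [F1, F2]; linarith)
  have k4 : (1 / 4 - 3 / 4 * (inner ℝ y y' : ℝ) + 3 / 4 * (inner ℝ z z' : ℝ)) ^ 2 =
      9 / 16 * (1 / 3 - (inner ℝ y y' : ℝ) + (inner ℝ z z' : ℝ)) ^ 2 := by ring
  rw [k4] at key
  linarith

theorem yv_σ (hσ : ∀ b ∈ N, σ (σ b) = b) {c : α} (hc : c ∈ N) : yv p σ (σ c) = -yv p σ c := by
  unfold yv
  rw [hσ c hc]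
  module

theorem zv_σ (hσ : ∀ b ∈ N, σ (σ b) = b) {c : α} (hc : c ∈ N) : zv p σ (σ c) = zv p σ c := by
  unfold zv
  rw [hσ c hc]
  module

theorem main' (hL : SpecLPI) (hK : SpecKER7) (h : LK N p C (418 / 100) (3 / 10))
    (hA : AN N p σ) {b c : α} (hb : b ∈ N) (hc : c ∈ N) (hcb : c ≠ b) (hcσ : c ≠ σ b) :
    (1 / 3 - |(inner ℝ (yv p σ b) (yv p σ c) : ℝ)| +
        (inner ℝ (zv p σ b) (zv p σ c) : ℝ)) ^ 2 ≤
      7 / 160 * (ff p C b c + ff p C b (σ c) + ff p C (σ b) c + ff p C (σ b) (σ c)) := by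
  rcases le_or_gt 0 (inner ℝ (yv p σ b) (yv p σ c) : ℝ) with h0 | h0
  · rw [abs_of_nonneg h0]
    exact main hL hK h hA hb hc hcb hcσ h0
  · obtain ⟨b1, b2, b3⟩ := hA.inv b hb
    obtain ⟨c1, c2, c3⟩ := hA.inv c hc
    have hσ : ∀ b ∈ N, σ (σ b) = b := fun b hb => (hA.inv b hb).2.1
    have h1 := main hL hK h hA hb c1 (by
      intro heq
      apply hcσ
      rw [← heq, c2]) (by
      intro heq
      apply hcb
      rw [← b2, ← heq, c2]) (by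
      rw [yv_σ hσ hc, inner_neg_right]
      linarith)
    rw [yv_σ hσ hc, zv_σ hσ hc, inner_neg_right, c2] at h1
    rw [abs_of_neg h0]
    linarith

end LINM

open LINM ANTM in
theorem specLIN (hLPI : SpecLPI) (hKER7 : SpecKER7) : SpecLIN where
  ineq := by
    intro α _ N p C σ h hA b hb c hc hcb hcσ
    rw [cost_eq (hA.inv b hb).2.2.symm (hA.inv c hc).2.2.symm]
    exact main' hLPI hKER7 h hA hb hc hcb hcσ
  amb := by
    intro α _ N p C σ h hA b hb c hc hcb hcσ h0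
    have h1 := main' hLPI hKER7 h hA hb hc hcb hcσ
    have h2 := bud4 hKER7 h hA hb hc hcb hcσ
    rw [h0, abs_zero] at h1
    obtain ⟨b1, b2, b3⟩ := hA.inv b hb
    obtain ⟨c1, c2, c3⟩ := hA.inv c hc
    obtain ⟨nb1, nb2, nb3⟩ := norms h hA hb
    obtain ⟨nc1, nc2, nc3⟩ := norms h hA hc
    have htwo : (1 + tt p (b, σ b)) + (1 + tt p (c, σ c)) ≤ 9 / 80 := hA.two b hb c hc hcb hcσ
    have hG1 : 0 ≤ G7 (tt p (b, σ b)) := by
      have h4 := tt_abs h (q := (b, σ b)) hb b1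
      have h5 : tt p (b, σ b) ≤ -9 / 10 := hA.near b hb
      exact G_nonneg h4.1 (by linarith)
    have hG2 : 0 ≤ G7 (tt p (c, σ c)) := by
      have h4 := tt_abs h (q := (c, σ c)) hc c1
      have h5 : tt p (c, σ c) ≤ -9 / 10 := hA.near c hc
      exact G_nonneg h4.1 (by linarith)
    have h3 := abs_real_inner_le_norm (zv p σ b) (zv p σ c)
    have h4 : ‖zv p σ b‖ * ‖zv p σ c‖ ≤ 9 / 320 := by
      have h5 := two_mul_le_add_sq ‖zv p σ b‖ ‖zv p σ c‖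
      rw [nb1, nc1] at h5
      linarith
    have h5 := (abs_le.1 (h3.trans h4)).1
    have h6 : (305 / 1000 : ℝ) ≤ 1 / 3 - 0 + (inner ℝ (zv p σ b) (zv p σ c) : ℝ) := by linarith
    have h7 : (305 / 1000 : ℝ) ^ 2 ≤
        (1 / 3 - 0 + (inner ℝ (zv p σ b) (zv p σ c) : ℝ)) ^ 2 := by gcongr
    have h8 := h7.trans h1
    linarith

end Pool.Agent.Lib.MP_f1379f_gt.FV
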