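import Pool.Agent.Lib.MP_f1379f_gt.FV.SpecS1

/-!
# MP_f1379f_gt, module LPI: the pair of lines inequality
-/

set_option autoImplicit false

namespace Pool.Agent.Lib.MP_f1379f_gt.FV.LPIM

/-- a concave quadratic function is bounded below by its values at the ends -/
theorem conc (p q c t t0 t1 L : ℝ) (hc : 0 ≤ c) (h0 : t0 ≤ t) (h1 : t ≤ t1)
    (e0 : L ≤ p + q * t0 - c * t0 ^ 2) (e1 : L ≤ p + q * t1 - c * t1 ^ 2) :
    L ≤ p + q * t - c * t ^ 2 := by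
  rcases eq_or_lt_of_le (h0.trans h1) with h | h
  · have : t = t0 := le_antisymm (h ▸ h1) h0
    rw [this]
    exact e0
  · have a0 := mul_nonneg (sub_nonneg.2 h1) (sub_nonneg.2 e0)
    have a1 := mul_nonneg (sub_nonneg.2 h0) (sub_nonneg.2 e1)
    have a2 := mul_nonneg hc (mul_nonneg (mul_nonneg (sub_nonneg.2 h0) (sub_nonneg.2 h1)) (sub_pos.2 h).le)
    have key : 0 ≤ (t1 - t0) * (p + q * t - c * t ^ 2 - L) := by nlinarith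
    have := nonneg_of_mul_nonneg_right key (sub_pos.2 h)
    linarith

theorem pA1 (x : ℝ) (h1 : (109 / 1000) ≤ x) (h2 : x ≤ (2711 / 10000)) : (113 / 10000) ≤ x ^ 2 - 4 * x ^ 4 := by
  nlinarith [mul_nonneg (pow_nonneg (sub_nonneg.2 h1) 0) (pow_nonneg (sub_nonneg.2 h2) 4),
    mul_nonneg (pow_nonneg (sub_nonneg.2 h1) 1) (pow_nonneg (sub_nonneg.2 h2) 3),
    mul_nonneg (pow_nonneg (sub_nonneg.2 h1) 2) (pow_nonneg (sub_nonneg.2 h2) 2),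
    mul_nonneg (pow_nonneg (sub_nonneg.2 h1) 3) (pow_nonneg (sub_nonneg.2 h2) 1),
    mul_nonneg (pow_nonneg (sub_nonneg.2 h1) 4) (pow_nonneg (sub_nonneg.2 h2) 0)]

theorem pA2 (x : ℝ) (h1 : (2289 / 10000) ≤ x) (h2 : x ≤ (11 / 25)) : (77 / 2000) ≤ x ^ 2 - 4 * x ^ 4 := by
  nlinarith [mul_nonneg (pow_nonneg (sub_nonneg.2 h1) 0) (pow_nonneg (sub_nonneg.2 h2) 4),
    mul_nonneg (pow_nonneg (sub_nonneg.2 h1) 1) (pow_nonneg (sub_nonneg.2 h2) 3),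
    mul_nonneg (pow_nonneg (sub_nonneg.2 h1) 2) (pow_nonneg (sub_nonneg.2 h2) 2),
    mul_nonneg (pow_nonneg (sub_nonneg.2 h1) 3) (pow_nonneg (sub_nonneg.2 h2) 1),
    mul_nonneg (pow_nonneg (sub_nonneg.2 h1) 4) (pow_nonneg (sub_nonneg.2 h2) 0)]

theorem pA3 (x : ℝ) (h1 : (1 / 5) ≤ x) (h2 : x ≤ (2711 / 10000)) : (67 / 2000) ≤ x ^ 2 - 4 * x ^ 4 := by
  nlinarith [mul_nonneg (pow_nonneg (sub_nonneg.2 h1) 0) (pow_nonneg (sub_nonneg.2 h2) 4),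
    mul_nonneg (pow_nonneg (sub_nonneg.2 h1) 1) (pow_nonneg (sub_nonneg.2 h2) 3),
    mul_nonneg (pow_nonneg (sub_nonneg.2 h1) 2) (pow_nonneg (sub_nonneg.2 h2) 2),
    mul_nonneg (pow_nonneg (sub_nonneg.2 h1) 3) (pow_nonneg (sub_nonneg.2 h2) 1),
    mul_nonneg (pow_nonneg (sub_nonneg.2 h1) 4) (pow_nonneg (sub_nonneg.2 h2) 0)]

theorem pP1 (x : ℝ) (h1 : (1 / 5) ≤ x) (h2 : x ≤ (11 / 25)) : (77 / 2000) ≤ x ^ 2 - 4 * x ^ 4 + (14453 / 10000 - 24 * x ^ 2) * (11 / 25 - x) ^ 2 - 4 * ((11 / 25 - x) ^ 2) ^ 2 := by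
  rcases le_total x (13 / 50) with k0 | k0
  · nlinarith [mul_nonneg (pow_nonneg (sub_nonneg.2 h1) 0) (pow_nonneg (sub_nonneg.2 k0) 4),
      mul_nonneg (pow_nonneg (sub_nonneg.2 h1) 1) (pow_nonneg (sub_nonneg.2 k0) 3),
      mul_nonneg (pow_nonneg (sub_nonneg.2 h1) 2) (pow_nonneg (sub_nonneg.2 k0) 2),
      mul_nonneg (pow_nonneg (sub_nonneg.2 h1) 3) (pow_nonneg (sub_nonneg.2 k0) 1),
      mul_nonneg (pow_nonneg (sub_nonneg.2 h1) 4) (pow_nonneg (sub_nonneg.2 k0) 0)]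
  rcases le_total x (8 / 25) with k1 | k1
  · nlinarith [mul_nonneg (pow_nonneg (sub_nonneg.2 k0) 0) (pow_nonneg (sub_nonneg.2 k1) 4),
      mul_nonneg (pow_nonneg (sub_nonneg.2 k0) 1) (pow_nonneg (sub_nonneg.2 k1) 3),
      mul_nonneg (pow_nonneg (sub_nonneg.2 k0) 2) (pow_nonneg (sub_nonneg.2 k1) 2),
      mul_nonneg (pow_nonneg (sub_nonneg.2 k0) 3) (pow_nonneg (sub_nonneg.2 k1) 1),
      mul_nonneg (pow_nonneg (sub_nonneg.2 k0) 4) (pow_nonneg (sub_nonneg.2 k1) 0)]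
  nlinarith [mul_nonneg (pow_nonneg (sub_nonneg.2 k1) 0) (pow_nonneg (sub_nonneg.2 h2) 4),
    mul_nonneg (pow_nonneg (sub_nonneg.2 k1) 1) (pow_nonneg (sub_nonneg.2 h2) 3),
    mul_nonneg (pow_nonneg (sub_nonneg.2 k1) 2) (pow_nonneg (sub_nonneg.2 h2) 2),
    mul_nonneg (pow_nonneg (sub_nonneg.2 k1) 3) (pow_nonneg (sub_nonneg.2 h2) 1),
    mul_nonneg (pow_nonneg (sub_nonneg.2 k1) 4) (pow_nonneg (sub_nonneg.2 h2) 0)]

theorem ph (x : ℝ) (h1 : (-(1 / 10)) ≤ x) (h2 : x ≤ (13 / 50)) : (7 / 400) ≤ 111325 / 1000000 * (11 / 25 - x) ^ 2 + x ^ 2 / 2 - 2 * x ^ 4 := by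
  rcases le_total x (2 / 25) with k0 | k0
  · nlinarith [mul_nonneg (pow_nonneg (sub_nonneg.2 h1) 0) (pow_nonneg (sub_nonneg.2 k0) 4),
      mul_nonneg (pow_nonneg (sub_nonneg.2 h1) 1) (pow_nonneg (sub_nonneg.2 k0) 3),
      mul_nonneg (pow_nonneg (sub_nonneg.2 h1) 2) (pow_nonneg (sub_nonneg.2 k0) 2),
      mul_nonneg (pow_nonneg (sub_nonneg.2 h1) 3) (pow_nonneg (sub_nonneg.2 k0) 1),
      mul_nonneg (pow_nonneg (sub_nonneg.2 h1) 4) (pow_nonneg (sub_nonneg.2 k0) 0)]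
  rcases le_total x (41 / 400) with k1 | k1
  · nlinarith [mul_nonneg (pow_nonneg (sub_nonneg.2 k0) 0) (pow_nonneg (sub_nonneg.2 k1) 4),
      mul_nonneg (pow_nonneg (sub_nonneg.2 k0) 1) (pow_nonneg (sub_nonneg.2 k1) 3),
      mul_nonneg (pow_nonneg (sub_nonneg.2 k0) 2) (pow_nonneg (sub_nonneg.2 k1) 2),
      mul_nonneg (pow_nonneg (sub_nonneg.2 k0) 3) (pow_nonneg (sub_nonneg.2 k1) 1),
      mul_nonneg (pow_nonneg (sub_nonneg.2 k0) 4) (pow_nonneg (sub_nonneg.2 k1) 0)]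
  rcases le_total x (1 / 8) with k2 | k2
  · nlinarith [mul_nonneg (pow_nonneg (sub_nonneg.2 k1) 0) (pow_nonneg (sub_nonneg.2 k2) 4),
      mul_nonneg (pow_nonneg (sub_nonneg.2 k1) 1) (pow_nonneg (sub_nonneg.2 k2) 3),
      mul_nonneg (pow_nonneg (sub_nonneg.2 k1) 2) (pow_nonneg (sub_nonneg.2 k2) 2),
      mul_nonneg (pow_nonneg (sub_nonneg.2 k1) 3) (pow_nonneg (sub_nonneg.2 k2) 1),
      mul_nonneg (pow_nonneg (sub_nonneg.2 k1) 4) (pow_nonneg (sub_nonneg.2 k2) 0)]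
  rcases le_total x (17 / 100) with k3 | k3
  · nlinarith [mul_nonneg (pow_nonneg (sub_nonneg.2 k2) 0) (pow_nonneg (sub_nonneg.2 k3) 4),
      mul_nonneg (pow_nonneg (sub_nonneg.2 k2) 1) (pow_nonneg (sub_nonneg.2 k3) 3),
      mul_nonneg (pow_nonneg (sub_nonneg.2 k2) 2) (pow_nonneg (sub_nonneg.2 k3) 2),
      mul_nonneg (pow_nonneg (sub_nonneg.2 k2) 3) (pow_nonneg (sub_nonneg.2 k3) 1),
      mul_nonneg (pow_nonneg (sub_nonneg.2 k2) 4) (pow_nonneg (sub_nonneg.2 k3) 0)]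
  nlinarith [mul_nonneg (pow_nonneg (sub_nonneg.2 k3) 0) (pow_nonneg (sub_nonneg.2 h2) 4),
    mul_nonneg (pow_nonneg (sub_nonneg.2 k3) 1) (pow_nonneg (sub_nonneg.2 h2) 3),
    mul_nonneg (pow_nonneg (sub_nonneg.2 k3) 2) (pow_nonneg (sub_nonneg.2 h2) 2),
    mul_nonneg (pow_nonneg (sub_nonneg.2 k3) 3) (pow_nonneg (sub_nonneg.2 h2) 1),
    mul_nonneg (pow_nonneg (sub_nonneg.2 k3) 4) (pow_nonneg (sub_nonneg.2 h2) 0)]

theorem pt (x : ℝ) (h1 : (-(19 / 50)) ≤ x) (h2 : x ≤ (21 / 50)) : (-(19 / 4000)) ≤ -(16032 / 100000) * x + 11 / 8 * x ^ 2 - 11 / 2 * x ^ 4 := by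
  rcases le_total x (1 / 50) with k0 | k0
  · nlinarith [mul_nonneg (pow_nonneg (sub_nonneg.2 h1) 0) (pow_nonneg (sub_nonneg.2 k0) 4),
      mul_nonneg (pow_nonneg (sub_nonneg.2 h1) 1) (pow_nonneg (sub_nonneg.2 k0) 3),
      mul_nonneg (pow_nonneg (sub_nonneg.2 h1) 2) (pow_nonneg (sub_nonneg.2 k0) 2),
      mul_nonneg (pow_nonneg (sub_nonneg.2 h1) 3) (pow_nonneg (sub_nonneg.2 k0) 1),
      mul_nonneg (pow_nonneg (sub_nonneg.2 h1) 4) (pow_nonneg (sub_nonneg.2 k0) 0)]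
  rcases le_total x (9 / 200) with k1 | k1
  · nlinarith [mul_nonneg (pow_nonneg (sub_nonneg.2 k0) 0) (pow_nonneg (sub_nonneg.2 k1) 4),
      mul_nonneg (pow_nonneg (sub_nonneg.2 k0) 1) (pow_nonneg (sub_nonneg.2 k1) 3),
      mul_nonneg (pow_nonneg (sub_nonneg.2 k0) 2) (pow_nonneg (sub_nonneg.2 k1) 2),
      mul_nonneg (pow_nonneg (sub_nonneg.2 k0) 3) (pow_nonneg (sub_nonneg.2 k1) 1),
      mul_nonneg (pow_nonneg (sub_nonneg.2 k0) 4) (pow_nonneg (sub_nonneg.2 k1) 0)]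
  rcases le_total x (23 / 400) with k2 | k2
  · nlinarith [mul_nonneg (pow_nonneg (sub_nonneg.2 k1) 0) (pow_nonneg (sub_nonneg.2 k2) 4),
      mul_nonneg (pow_nonneg (sub_nonneg.2 k1) 1) (pow_nonneg (sub_nonneg.2 k2) 3),
      mul_nonneg (pow_nonneg (sub_nonneg.2 k1) 2) (pow_nonneg (sub_nonneg.2 k2) 2),
      mul_nonneg (pow_nonneg (sub_nonneg.2 k1) 3) (pow_nonneg (sub_nonneg.2 k2) 1),
      mul_nonneg (pow_nonneg (sub_nonneg.2 k1) 4) (pow_nonneg (sub_nonneg.2 k2) 0)]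
  rcases le_total x (51 / 800) with k3 | k3
  · nlinarith [mul_nonneg (pow_nonneg (sub_nonneg.2 k2) 0) (pow_nonneg (sub_nonneg.2 k3) 4),
      mul_nonneg (pow_nonneg (sub_nonneg.2 k2) 1) (pow_nonneg (sub_nonneg.2 k3) 3),
      mul_nonneg (pow_nonneg (sub_nonneg.2 k2) 2) (pow_nonneg (sub_nonneg.2 k3) 2),
      mul_nonneg (pow_nonneg (sub_nonneg.2 k2) 3) (pow_nonneg (sub_nonneg.2 k3) 1),
      mul_nonneg (pow_nonneg (sub_nonneg.2 k2) 4) (pow_nonneg (sub_nonneg.2 k3) 0)]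
  rcases le_total x (7 / 100) with k4 | k4
  · nlinarith [mul_nonneg (pow_nonneg (sub_nonneg.2 k3) 0) (pow_nonneg (sub_nonneg.2 k4) 4),
      mul_nonneg (pow_nonneg (sub_nonneg.2 k3) 1) (pow_nonneg (sub_nonneg.2 k4) 3),
      mul_nonneg (pow_nonneg (sub_nonneg.2 k3) 2) (pow_nonneg (sub_nonneg.2 k4) 2),
      mul_nonneg (pow_nonneg (sub_nonneg.2 k3) 3) (pow_nonneg (sub_nonneg.2 k4) 1),
      mul_nonneg (pow_nonneg (sub_nonneg.2 k3) 4) (pow_nonneg (sub_nonneg.2 k4) 0)]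
  rcases le_total x (3 / 25) with k5 | k5
  · nlinarith [mul_nonneg (pow_nonneg (sub_nonneg.2 k4) 0) (pow_nonneg (sub_nonneg.2 k5) 4),
      mul_nonneg (pow_nonneg (sub_nonneg.2 k4) 1) (pow_nonneg (sub_nonneg.2 k5) 3),
      mul_nonneg (pow_nonneg (sub_nonneg.2 k4) 2) (pow_nonneg (sub_nonneg.2 k5) 2),
      mul_nonneg (pow_nonneg (sub_nonneg.2 k4) 3) (pow_nonneg (sub_nonneg.2 k5) 1),
      mul_nonneg (pow_nonneg (sub_nonneg.2 k4) 4) (pow_nonneg (sub_nonneg.2 k5) 0)]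
  rcases le_total x (11 / 50) with k6 | k6
  · nlinarith [mul_nonneg (pow_nonneg (sub_nonneg.2 k5) 0) (pow_nonneg (sub_nonneg.2 k6) 4),
      mul_nonneg (pow_nonneg (sub_nonneg.2 k5) 1) (pow_nonneg (sub_nonneg.2 k6) 3),
      mul_nonneg (pow_nonneg (sub_nonneg.2 k5) 2) (pow_nonneg (sub_nonneg.2 k6) 2),
      mul_nonneg (pow_nonneg (sub_nonneg.2 k5) 3) (pow_nonneg (sub_nonneg.2 k6) 1),
      mul_nonneg (pow_nonneg (sub_nonneg.2 k5) 4) (pow_nonneg (sub_nonneg.2 k6) 0)]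
  nlinarith [mul_nonneg (pow_nonneg (sub_nonneg.2 k6) 0) (pow_nonneg (sub_nonneg.2 h2) 4),
    mul_nonneg (pow_nonneg (sub_nonneg.2 k6) 1) (pow_nonneg (sub_nonneg.2 h2) 3),
    mul_nonneg (pow_nonneg (sub_nonneg.2 k6) 2) (pow_nonneg (sub_nonneg.2 h2) 2),
    mul_nonneg (pow_nonneg (sub_nonneg.2 k6) 3) (pow_nonneg (sub_nonneg.2 h2) 1),
    mul_nonneg (pow_nonneg (sub_nonneg.2 k6) 4) (pow_nonneg (sub_nonneg.2 h2) 0)]

theorem pd (x : ℝ) (h1 : (109 / 1000) ≤ x) (h2 : x ≤ (1 / 5)) : (-(317 / 50000)) ≤ -(16032 / 100000) * x + 13 / 12 * x ^ 2 - 11 * x ^ 4 := by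
  nlinarith [mul_nonneg (pow_nonneg (sub_nonneg.2 h1) 0) (pow_nonneg (sub_nonneg.2 h2) 4),
    mul_nonneg (pow_nonneg (sub_nonneg.2 h1) 1) (pow_nonneg (sub_nonneg.2 h2) 3),
    mul_nonneg (pow_nonneg (sub_nonneg.2 h1) 2) (pow_nonneg (sub_nonneg.2 h2) 2),
    mul_nonneg (pow_nonneg (sub_nonneg.2 h1) 3) (pow_nonneg (sub_nonneg.2 h2) 1),
    mul_nonneg (pow_nonneg (sub_nonneg.2 h1) 4) (pow_nonneg (sub_nonneg.2 h2) 0)]

theorem pR0 (x : ℝ) (h1 : (109 / 1000) ≤ x) (h2 : x ≤ (1 / 5)) : (101 / 2000) ≤ 4453 / 10000 * (x - 511 / 5000) ^ 2 + (x ^ 2 - 4 * x ^ 4) + (14453 / 10000 - 24 * x ^ 2) * (407 / 10000) - 4 * (407 / 10000) ^ 2 := by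
  nlinarith [mul_nonneg (pow_nonneg (sub_nonneg.2 h1) 0) (pow_nonneg (sub_nonneg.2 h2) 4),
    mul_nonneg (pow_nonneg (sub_nonneg.2 h1) 1) (pow_nonneg (sub_nonneg.2 h2) 3),
    mul_nonneg (pow_nonneg (sub_nonneg.2 h1) 2) (pow_nonneg (sub_nonneg.2 h2) 2),
    mul_nonneg (pow_nonneg (sub_nonneg.2 h1) 3) (pow_nonneg (sub_nonneg.2 h2) 1),
    mul_nonneg (pow_nonneg (sub_nonneg.2 h1) 4) (pow_nonneg (sub_nonneg.2 h2) 0)]

theorem pR1 (x : ℝ) (h1 : (109 / 1000) ≤ x) (h2 : x ≤ (1 / 5)) : (101 / 2000) ≤ 4453 / 10000 * (x - 511 / 5000) ^ 2 + (x ^ 2 - 4 * x ^ 4) + (14453 / 10000 - 24 * x ^ 2) * (633 / 10000) - 4 * (633 / 10000) ^ 2 := by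
  nlinarith [mul_nonneg (pow_nonneg (sub_nonneg.2 h1) 0) (pow_nonneg (sub_nonneg.2 h2) 4),
    mul_nonneg (pow_nonneg (sub_nonneg.2 h1) 1) (pow_nonneg (sub_nonneg.2 h2) 3),
    mul_nonneg (pow_nonneg (sub_nonneg.2 h1) 2) (pow_nonneg (sub_nonneg.2 h2) 2),
    mul_nonneg (pow_nonneg (sub_nonneg.2 h1) 3) (pow_nonneg (sub_nonneg.2 h2) 1),
    mul_nonneg (pow_nonneg (sub_nonneg.2 h1) 4) (pow_nonneg (sub_nonneg.2 h2) 0)]

theorem pC00 (x : ℝ) (h1 : (1883 / 10000) ≤ x) (h2 : x ≤ (2711 / 10000)) : (13 / 250) ≤ 4453 / 10000 * (11 / 25 - x) ^ 2 + (x ^ 2) - 4 * (x ^ 2) ^ 2 + (14453 / 10000 - 24 * (x ^ 2)) * (0) - 4 * (0) ^ 2 := by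
  nlinarith [mul_nonneg (pow_nonneg (sub_nonneg.2 h1) 0) (pow_nonneg (sub_nonneg.2 h2) 4),
    mul_nonneg (pow_nonneg (sub_nonneg.2 h1) 1) (pow_nonneg (sub_nonneg.2 h2) 3),
    mul_nonneg (pow_nonneg (sub_nonneg.2 h1) 2) (pow_nonneg (sub_nonneg.2 h2) 2),
    mul_nonneg (pow_nonneg (sub_nonneg.2 h1) 3) (pow_nonneg (sub_nonneg.2 h2) 1),
    mul_nonneg (pow_nonneg (sub_nonneg.2 h1) 4) (pow_nonneg (sub_nonneg.2 h2) 0)]

theorem pC01 (x : ℝ) (h1 : (1883 / 10000) ≤ x) (h2 : x ≤ (2711 / 10000)) : (13 / 250) ≤ 4453 / 10000 * (11 / 25 - x) ^ 2 + (x ^ 2) - 4 * (x ^ 2) ^ 2 + (14453 / 10000 - 24 * (x ^ 2)) * ((x - 5229 / 50000) ^ 2) - 4 * ((x - 5229 / 50000) ^ 2) ^ 2 := by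
  nlinarith [mul_nonneg (pow_nonneg (sub_nonneg.2 h1) 0) (pow_nonneg (sub_nonneg.2 h2) 4),
    mul_nonneg (pow_nonneg (sub_nonneg.2 h1) 1) (pow_nonneg (sub_nonneg.2 h2) 3),
    mul_nonneg (pow_nonneg (sub_nonneg.2 h1) 2) (pow_nonneg (sub_nonneg.2 h2) 2),
    mul_nonneg (pow_nonneg (sub_nonneg.2 h1) 3) (pow_nonneg (sub_nonneg.2 h2) 1),
    mul_nonneg (pow_nonneg (sub_nonneg.2 h1) 4) (pow_nonneg (sub_nonneg.2 h2) 0)]

theorem pC10 (x : ℝ) (h1 : (1883 / 10000) ≤ x) (h2 : x ≤ (2711 / 10000)) : (13 / 250) ≤ 4453 / 10000 * (11 / 25 - x) ^ 2 + ((2711 / 5000 - x) ^ 2) - 4 * ((2711 / 5000 - x) ^ 2) ^ 2 + (14453 / 10000 - 24 * ((2711 / 5000 - x) ^ 2)) * (0) - 4 * (0) ^ 2 := by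
  nlinarith [mul_nonneg (pow_nonneg (sub_nonneg.2 h1) 0) (pow_nonneg (sub_nonneg.2 h2) 4),
    mul_nonneg (pow_nonneg (sub_nonneg.2 h1) 1) (pow_nonneg (sub_nonneg.2 h2) 3),
    mul_nonneg (pow_nonneg (sub_nonneg.2 h1) 2) (pow_nonneg (sub_nonneg.2 h2) 2),
    mul_nonneg (pow_nonneg (sub_nonneg.2 h1) 3) (pow_nonneg (sub_nonneg.2 h2) 1),
    mul_nonneg (pow_nonneg (sub_nonneg.2 h1) 4) (pow_nonneg (sub_nonneg.2 h2) 0)]

theorem pC11 (x : ℝ) (h1 : (1883 / 10000) ≤ x) (h2 : x ≤ (2711 / 10000)) : (13 / 250) ≤ 4453 / 10000 * (11 / 25 - x) ^ 2 + ((2711 / 5000 - x) ^ 2) - 4 * ((2711 / 5000 - x) ^ 2) ^ 2 + (14453 / 10000 - 24 * ((2711 / 5000 - x) ^ 2)) * ((x - 5229 / 50000) ^ 2) - 4 * ((x - 5229 / 50000) ^ 2) ^ 2 := by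
  nlinarith [mul_nonneg (pow_nonneg (sub_nonneg.2 h1) 0) (pow_nonneg (sub_nonneg.2 h2) 4),
    mul_nonneg (pow_nonneg (sub_nonneg.2 h1) 1) (pow_nonneg (sub_nonneg.2 h2) 3),
    mul_nonneg (pow_nonneg (sub_nonneg.2 h1) 2) (pow_nonneg (sub_nonneg.2 h2) 2),
    mul_nonneg (pow_nonneg (sub_nonneg.2 h1) 3) (pow_nonneg (sub_nonneg.2 h2) 1),
    mul_nonneg (pow_nonneg (sub_nonneg.2 h1) 4) (pow_nonneg (sub_nonneg.2 h2) 0)]

/-- sum of the values of `F7` at two points with centre `x` and radius `r` -/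
theorem F_pair (x r : ℝ) : F7 (x + r) + F7 (x - r) =
    x ^ 2 / 2 - 2 * x ^ 4 + r ^ 2 * (1 / 2 - 12 * x ^ 2) - 2 * (r ^ 2) ^ 2 := by
  unfold F7
  ring

theorem sq_le_of {x y : ℝ} (h0 : 0 ≤ x) (h : x ≤ y) : x ^ 2 ≤ y ^ 2 := pow_le_pow_left₀ h0 h 2

/-- case 1 -/
theorem case1 (δ r : ℝ) (h1 : -(109 / 1000) ≤ δ) (h2 : δ ≤ 109 / 1000) (hR : r ^ 2 ≤ 633 / 10000) :
    10 / 21 * δ ^ 2 ≤ F7 (δ + r) + F7 (δ - r) := by
  rw [F_pair]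
  have hδ2 : δ ^ 2 ≤ 11881 / 1000000 := by nlinarith
  have e4 : 0 ≤ δ ^ 2 * (1 / 42 - 2 * δ ^ 2) := mul_nonneg (sq_nonneg _) (by linarith)
  have e5 : 0 ≤ r ^ 2 * (1 / 2 - 12 * δ ^ 2 - 2 * r ^ 2) := mul_nonneg (sq_nonneg _) (by linarith)
  linarith

/-- the term of `w` for `δ` in case (3A) -/
theorem wA (δ r : ℝ) (h1 : 109 / 1000 ≤ δ) (h2 : δ ≤ 2711 / 10000) (hR : r ^ 2 ≤ 633 / 10000)
    (hr : 0 ≤ r) (h3 : δ + r ≤ 11 / 25) :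
    113 / 10000 ≤ (δ ^ 2 - 4 * δ ^ 4) + (14453 / 10000 - 24 * δ ^ 2) * r ^ 2 - 4 * (r ^ 2) ^ 2 := by
  by_cases h5 : δ ≤ 22 / 100
  · have := pA1 δ h1 h2
    have h6 : δ ^ 2 ≤ (22 / 100) ^ 2 := sq_le_of (by linarith) h5
    have h7 : 0 ≤ r ^ 2 * (14453 / 10000 - 24 * δ ^ 2 - 4 * r ^ 2) :=
      mul_nonneg (sq_nonneg r) (by linarith)
    linarith
  · push Not at h5
    refine conc _ _ 4 (r ^ 2) 0 ((11 / 25 - δ) ^ 2) _ (by norm_num) (sq_nonneg r) ?_ ?_ ?_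
    · exact sq_le_of hr (by linarith)
    · have := pA1 δ h1 h2
      linarith
    · have := pP1 δ (by linarith) (by linarith)
      linarith

theorem wA2 (δ r : ℝ) (h1 : 1 / 5 ≤ δ) (h2 : δ ≤ 2711 / 10000) (hr : 0 ≤ r) (h3 : δ + r ≤ 11 / 25) :
    335 / 10000 ≤ (δ ^ 2 - 4 * δ ^ 4) + (14453 / 10000 - 24 * δ ^ 2) * r ^ 2 - 4 * (r ^ 2) ^ 2 := by
  refine conc _ _ 4 (r ^ 2) 0 ((11 / 25 - δ) ^ 2) _ (by norm_num) (sq_nonneg r) ?_ ?_ ?_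
  · exact sq_le_of hr (by linarith)
  · have := pA3 δ h1 h2
    linarith
  · have := pP1 δ h1 (by linarith)
    linarith

theorem wB (m s : ℝ) (h1 : 2289 / 10000 ≤ m) (hs : 0 ≤ s) (h3 : m + s ≤ 11 / 25) :
    385 / 10000 ≤ (m ^ 2 - 4 * m ^ 4) + (14453 / 10000 - 24 * m ^ 2) * s ^ 2 - 4 * (s ^ 2) ^ 2 := by
  refine conc _ _ 4 (s ^ 2) 0 ((11 / 25 - m) ^ 2) _ (by norm_num) (sq_nonneg s) ?_ ?_ ?_
  · exact sq_le_of hs (by linarith)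
  · have := pA2 m h1 (by linarith)
    linarith
  · have := pP1 m (by linarith) (by linarith)
    linarith

/-- case (3C) -/
theorem wC (δ m r s : ℝ) (h1 : 1883 / 10000 ≤ δ) (h2 : δ ≤ 2711 / 10000) (h3 : δ ≤ m)
    (h4 : m ≤ 2711 / 5000 - δ) (hr : 11 / 25 - δ ≤ r) (hs : 0 ≤ s) (hs2 : s ≤ δ - 5229 / 50000) :
    52 / 1000 ≤ 4453 / 10000 * r ^ 2 + m ^ 2 - 4 * m ^ 4 + (14453 / 10000 - 24 * m ^ 2) * s ^ 2 -
      4 * (s ^ 2) ^ 2 := by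
  have hR1 : (11 / 25 - δ) ^ 2 ≤ r ^ 2 := sq_le_of (by linarith) hr
  have hS1 : s ^ 2 ≤ (δ - 5229 / 50000) ^ 2 := sq_le_of hs hs2
  have b1 : ∀ M : ℝ, (52 / 1000 ≤ 4453 / 10000 * (11 / 25 - δ) ^ 2 + M - 4 * M ^ 2) →
      (52 / 1000 ≤ 4453 / 10000 * (11 / 25 - δ) ^ 2 + M - 4 * M ^ 2 +
        (14453 / 10000 - 24 * M) * (δ - 5229 / 50000) ^ 2 - 4 * ((δ - 5229 / 50000) ^ 2) ^ 2) →
      52 / 1000 ≤ (4453 / 10000 * (11 / 25 - δ) ^ 2 + M - 4 * M ^ 2) +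
        (14453 / 10000 - 24 * M) * s ^ 2 - 4 * (s ^ 2) ^ 2 := by
    intro M a0 a1
    refine conc _ _ 4 (s ^ 2) 0 ((δ - 5229 / 50000) ^ 2) _ (by norm_num) (sq_nonneg s) hS1 ?_ ?_
    · linarith
    · linarith
  have b2 := b1 (δ ^ 2) (by have := pC00 δ h1 h2; linarith) (by have := pC01 δ h1 h2; linarith)
  have b3 := b1 ((2711 / 5000 - δ) ^ 2) (by have := pC10 δ h1 h2; linarith)
    (by have := pC11 δ h1 h2; linarith)
  have b4 : 52 / 1000 ≤ (4453 / 10000 * (11 / 25 - δ) ^ 2 + 14453 / 10000 * s ^ 2 - 4 * (s ^ 2) ^ 2) +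
      (1 - 24 * s ^ 2) * m ^ 2 - 4 * (m ^ 2) ^ 2 := by
    refine conc _ _ 4 (m ^ 2) (δ ^ 2) ((2711 / 5000 - δ) ^ 2) _ (by norm_num) ?_ ?_ ?_ ?_
    · exact sq_le_of (by linarith) h3
    · exact sq_le_of (by linarith) h4
    · linarith
    · linarith
  have e5 : m ^ 4 = (m ^ 2) ^ 2 := by ring
  rw [e5]
  linarith

/-- case (3B2) -/
theorem w3B2 (τ s : ℝ) (h1 : -(1 / 10) ≤ τ) (h2 : τ ≤ 26 / 100) (h3 : 11 / 25 ≤ τ + 2 * s) :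
    175 / 10000 ≤ 4453 / 10000 * s ^ 2 + τ ^ 2 / 2 - 2 * τ ^ 4 := by
  have h6 : (11 / 25 - τ) / 2 ≤ s := by linarith
  have h7 : 0 ≤ (11 / 25 - τ) / 2 := by linarith
  have h8 := sq_le_of h7 h6
  have b3 := ph τ (by linarith) (by linarith)
  linarith

/-- case (3B1), large `r` -/
theorem w3B1 (δ r s : ℝ) (h1 : 109 / 1000 ≤ δ) (h2 : δ ≤ 1 / 5) (hR0 : 407 / 10000 ≤ r ^ 2)
    (hR : r ^ 2 ≤ 633 / 10000) (hs : δ - 511 / 5000 ≤ s) :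
    505 / 10000 ≤ 4453 / 10000 * s ^ 2 + (δ ^ 2 - 4 * δ ^ 4) +
            (14453 / 10000 - 24 * δ ^ 2) * r ^ 2 - 4 * (r ^ 2) ^ 2 := by
  have b1 : 505 / 10000 ≤ (4453 / 10000 * (δ - 511 / 5000) ^ 2 + (δ ^ 2 - 4 * δ ^ 4)) +
      (14453 / 10000 - 24 * δ ^ 2) * r ^ 2 - 4 * (r ^ 2) ^ 2 := by
    refine conc _ _ 4 (r ^ 2) (407 / 10000) (633 / 10000) _ (by norm_num) hR0 hR ?_ ?_
    · have := pR0 δ h1 h2
      linarith
    · have := pR1 δ h1 h2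
      linarith
  have b2 : (δ - 511 / 5000) ^ 2 ≤ s ^ 2 := sq_le_of (by linarith) hs
  linarith

/-- case (3B1), small `r`: the bound for `τ` -/
theorem tau_lt (δ τ R : ℝ) (h0 : 0 ≤ δ) (h1 : δ ≤ 1 / 5) (hR0 : 0 ≤ R) (hR : R ≤ 407 / 10000)
    (hτ : τ ≤ 4332 / 10000)
    (h : δ ^ 2 / 2 - 2 * δ ^ 4 + R * (1 / 2 - 12 * δ ^ 2) - 2 * R ^ 2 + (τ ^ 2 / 4 - τ ^ 4) <
      10 / 21 * δ ^ 2) : τ < 21 / 50 := by
  have hδ2 : δ ^ 2 ≤ (1 / 5) ^ 2 := sq_le_of h0 h1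
  have hδ4 : δ ^ 4 = (δ ^ 2) ^ 2 := by ring
  have h8 : 0 ≤ (407 / 10000 - R) * R := mul_nonneg (by linarith) hR0
  have h9 : 0 ≤ (1 / 25 - δ ^ 2) * R := mul_nonneg (by linarith) hR0
  have h10 : 0 ≤ (1 / 25 - δ ^ 2) * δ ^ 2 := mul_nonneg (by linarith) (sq_nonneg _)
  have hFτ : τ ^ 2 / 4 - τ ^ 4 < 49 / 10000 := by
    rw [hδ4] at h
    linarith
  by_contra hcon
  push Not at hcon
  have h11 : (21 / 50) ^ 2 ≤ τ ^ 2 := sq_le_of (by norm_num) hcon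
  have h12 : τ ^ 2 ≤ (4332 / 10000) ^ 2 := sq_le_of (by linarith) hτ
  have h13 : τ ^ 4 = (τ ^ 2) ^ 2 := by ring
  rw [h13] at hFτ
  have := mul_nonneg (sub_nonneg.2 h11) (sub_nonneg.2 h12)
  linarith

/-- case (3B1), small `r` -/
theorem w3B1b (δ τ R s z σ F : ℝ) (h0 : 109 / 1000 ≤ δ) (h1 : δ ≤ 1 / 5) (hR0 : 0 ≤ R)
    (hR : R ≤ 407 / 10000) (hτ0 : -(19 / 50) ≤ τ) (hτ1 : τ ≤ 21 / 50)
    (hs : s = 1 / 2 - δ + 2 * z - τ) (hz : -(2 * z) ≤ σ) (hσ : 2 * (R + s ^ 2) ≤ 3 * σ)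
    (hF : δ ^ 2 / 2 - 2 * δ ^ 4 + R * (1 / 2 - 12 * δ ^ 2) - 2 * R ^ 2 + (τ ^ 2 / 4 - τ ^ 4) ≤ F)
    (hneg : 21 / 10 * F < δ ^ 2) : 49 / 1000 < 2 * F + 668 / 1000 * σ := by
  have hδ2 : δ ^ 2 ≤ (1 / 5) ^ 2 := sq_le_of (by linarith) h1
  have b1 := pt τ (by linarith) (by linarith)
  have b2 := pd δ h0 h1
  have b3 : 0 ≤ (s - 9 / 38) ^ 2 := sq_nonneg _
  have b4 : 9157 / 100000 - 6 / 25 * (δ + τ) + 38 / 75 * R ≤ σ := by
    have b31 : 9 / 19 * s - 81 / 1444 ≤ s ^ 2 := by linarith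
    have b32 : 38 / 75 * (R + s ^ 2) + 6 / 25 * (-(2 * z)) ≤ σ := by linarith
    rw [hs] at b31
    rw [hs] at b32
    linarith
  have b5 : 0 ≤ R * (668 / 1000 * (38 / 75) + 11 / 4 * (1 - 24 * δ ^ 2 - 4 * R)) :=
    mul_nonneg hR0 (by linarith)
  have b6 : 2 * F ≥ 11 / 2 * F - 5 / 3 * δ ^ 2 := by linarith
  linarith

/-- the normalized situation -/
theorem core (δ m r s z σ f1 f2 f3 f4 : ℝ) (hm : m = 1 / 2 - δ + 2 * z) (hδm : δ ≤ m)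
    (hσ : σ ≤ 27 / 640) (hz1 : 2 * z ≤ σ) (hz2 : -(2 * z) ≤ σ) (hr : 0 ≤ r) (hs : 0 ≤ s)
    (hrs : 2 * (r ^ 2 + s ^ 2) ≤ 3 * σ) (hrs2 : (r + s) ^ 2 ≤ 9 / 80)
    (hT3 : m + s ≤ 217 / 400) (hT4 : -(19 / 50) ≤ m - s)
    (g1 : 0 ≤ f1) (g2 : 0 ≤ f2) (g3 : 0 ≤ f3) (g4 : 0 ≤ f4)
    (d1 : f1 = F7 (δ + r) ∨ 11 / 25 ≤ δ + r) (d2 : f2 = F7 (δ - r) ∨ 11 / 25 ≤ δ - r)
    (d3 : f3 = F7 (m + s) ∨ 11 / 25 ≤ m + s) (d4 : f4 = F7 (m - s) ∨ 11 / 25 ≤ m - s)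
    (hC : 2 * (f1 + f2 + f3 + f4) + 668 / 1000 * σ ≤ 49 / 1000)
    (hneg : 21 / 10 * (f1 + f2 + f3 + f4) < δ ^ 2) : False := by
  have hR0 := sq_nonneg r
  have hS0 := sq_nonneg s
  have hR : r ^ 2 ≤ 633 / 10000 := by linarith
  have hS : s ^ 2 ≤ 633 / 10000 := by linarith
  have hr1 : r ≤ 2517 / 10000 := by
    by_contra h
    push Not at h
    have := sq_le_of (by norm_num) h.le
    linarith
  have hs1 : s ≤ 2517 / 10000 := by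
    by_contra h
    push Not at h
    have := sq_le_of (by norm_num) h.le
    linarith
  have hrs3 : r + s ≤ 33542 / 100000 := by
    by_contra h
    push Not at h
    have := sq_le_of (by norm_num) h.le
    linarith
  have hσ0 : 0 ≤ σ := by linarith
  have hσ2 : 4453 / 10000 * (r ^ 2 + s ^ 2) ≤ 668 / 1000 * σ := by linarith
  -- (1)
  by_cases hc1 : -(109 / 1000) ≤ δ ∧ δ ≤ 109 / 1000
  · obtain ⟨c1, c2⟩ := hc1
    have e1 : f1 = F7 (δ + r) := d1.resolve_right (by intro h; linarith)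
    have e2 : f2 = F7 (δ - r) := d2.resolve_right (by intro h; linarith)
    have e3 := case1 δ r c1 c2 hR
    rw [← e1, ← e2] at e3
    linarith
  -- (2)
  by_cases hc2 : δ < -(109 / 1000)
  · linarith
  have hc3 : 109 / 1000 ≤ δ := by
    by_contra h
    push Not at h
    exact hc1 ⟨by linarith, h.le⟩
  clear hc1 hc2
  -- (3)
  have hδ1 : δ ≤ 2711 / 10000 := by linarith
  have hm0 : 2289 / 10000 ≤ m := by linarith
  have hm1 : m ≤ 2711 / 5000 - δ := by linarith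
  have hm2 : m ≤ 4332 / 10000 := by linarith
  have e4 : f4 = F7 (m - s) := d4.resolve_right (by intro h; linarith)
  have e2 : f2 = F7 (δ - r) := d2.resolve_right (by intro h; linarith)
  have pδ := F_pair δ r
  have pm := F_pair m s
  by_cases h3 : 11 / 25 ≤ m + s
  · -- (3B)
    have h1 : δ + r < 11 / 25 := by
      by_contra h
      push Not at h
      linarith
    have e1 : f1 = F7 (δ + r) := d1.resolve_right (by intro h; linarith)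
    have e12 : f1 + f2 = δ ^ 2 / 2 - 2 * δ ^ 4 + r ^ 2 * (1 / 2 - 12 * δ ^ 2) - 2 * (r ^ 2) ^ 2 := by
      rw [e1, e2, pδ]
    have hF4 : F7 (m - s) = (m - s) ^ 2 / 4 - (m - s) ^ 4 := by unfold F7; ring
    rw [hF4] at e4
    by_cases h5 : 1 / 5 ≤ δ
    · -- (3B2)
      have b1 := wA2 δ r h5 hδ1 hr h1.le
      have b2 := w3B2 (m - s) s (by linarith) (by linarith) (by linarith)
      linarith
    · -- (3B1)
      push Not at h5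
      by_cases h6 : 407 / 10000 ≤ r ^ 2
      · have b1 := w3B1 δ r s hc3 h5.le h6 hR (by linarith)
        linarith
      · push Not at h6
        have h7 : m - s < 21 / 50 := tau_lt δ (m - s) (r ^ 2) (by linarith) h5.le hR0 h6.le (by linarith)
          (by linarith)
        have h8 := w3B1b δ (m - s) (r ^ 2) s z σ (f1 + f2 + f3 + f4) hc3 h5.le hR0 h6.le hT4 h7.le
          (by linarith) hz2 hrs (by linarith) hneg
        linarith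
  · push Not at h3
    have e3 : f3 = F7 (m + s) := d3.resolve_right (by intro h; linarith)
    have e34 : f3 + f4 = m ^ 2 / 2 - 2 * m ^ 4 + s ^ 2 * (1 / 2 - 12 * m ^ 2) - 2 * (s ^ 2) ^ 2 := by
      rw [e3, e4, pm]
    by_cases h1 : 11 / 25 ≤ δ + r
    · -- (3C)
      have b1 := wC δ m r s (by linarith) hδ1 hδm hm1 (by linarith) hs (by linarith)
      linarith
    · -- (3A)
      push Not at h1
      have e1 : f1 = F7 (δ + r) := d1.resolve_right (by intro h; linarith)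
      have e12 : f1 + f2 = δ ^ 2 / 2 - 2 * δ ^ 4 + r ^ 2 * (1 / 2 - 12 * δ ^ 2) - 2 * (r ^ 2) ^ 2 := by
        rw [e1, e2, pδ]
      have b1 := wA δ r hc3 hδ1 hR hr h1.le
      have b2 := wB m s hm0 hs h3.le
      linarith

theorem Q_bound (x : ℝ) (h0 : 0 ≤ x) (h1 : x ≤ 3 / 80) : 668 / 1000 * x ≤ 2 * F7 (-1 / 2 + 2 * x) := by
  have e : 2 * F7 (-1 / 2 + 2 * x) = x * ((1 - 2 * x) * (1 - 4 * x) ^ 2) := by
    unfold F7
    ring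
  rw [e, mul_comm (668 / 1000) x]
  refine mul_le_mul_of_nonneg_left ?_ h0
  have a1 : 37 / 40 ≤ 1 - 2 * x := by linarith
  have a2 : (17 / 20) ^ 2 ≤ (1 - 4 * x) ^ 2 := sq_le_of (by norm_num) (by linarith)
  have a3 := mul_le_mul a1 a2 (by norm_num) (by linarith)
  linarith

theorem sum_sq_max (c1 c2 a b : ℝ) (ha1 : a ≤ 3 / 80) (hb1 : b ≤ 3 / 80)
    (hc1 : c1 ^ 2 ≤ 3 / 4 * b) (hc2 : c2 ^ 2 ≤ 3 / 4 * a) : (|c1 - c2| + |c1 + c2|) ^ 2 ≤ 9 / 80 := by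
  have h1 : |c1 - c2| + |c1 + c2| ≤ 2 * max |c1| |c2| := by
    rcases abs_cases (c1 - c2) with ⟨p, -⟩ | ⟨p, -⟩ <;> rcases abs_cases (c1 + c2) with ⟨q, -⟩ | ⟨q, -⟩ <;>
      rw [p, q]
    · have := le_abs_self c1
      have := le_max_left |c1| |c2|
      linarith
    · have := neg_abs_le c2
      have := le_max_right |c1| |c2|
      linarith
    · have := le_abs_self c2
      have := le_max_right |c1| |c2|
      linarith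
    · have := neg_abs_le c1
      have := le_max_left |c1| |c2|
      linarith
  have h2 : (max |c1| |c2|) ^ 2 ≤ 9 / 320 := by
    rcases max_cases |c1| |c2| with ⟨e, -⟩ | ⟨e, -⟩ <;> rw [e, sq_abs] <;> linarith
  have h3 := sq_le_of (add_nonneg (abs_nonneg (c1 - c2)) (abs_nonneg (c1 + c2))) h1
  linarith

end Pool.Agent.Lib.MP_f1379f_gt.FV.LPIM

namespace Pool.Agent.Lib.MP_f1379f_gt.FV

open LPIM in
theorem specLPI : SpecLPI := by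
  intro g a b c1 c2 z T1 T2 T3 T4 f1 f2 f3 f4 hg ha hb ha1 hb1 hab hc1 hc2 hz hT1 hT2 hT3 hT4
    l1 l2 l3 l4 u1 u2 u3 u4 g1 g2 g3 g4 d1 d2 d3 d4 hcost
  by_contra hcon
  push Not at hcon
  have qa := Q_bound a ha ha1
  have qb := Q_bound b hb hb1
  have hC : 2 * (f1 + f2 + f3 + f4) + 668 / 1000 * (a + b) ≤ 49 / 1000 := by linarith
  have hzz : (2 * z) ^ 2 ≤ (a + b) ^ 2 := by
    have := sq_nonneg (a - b)
    linarith
  have hz12 := abs_le_of_sq_le_sq' hzz (by linarith)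
  set δ := 1 / 4 - g + z with hδ
  set m := 1 / 4 + g + z with hm
  have e1 : T1 = δ + (c1 - c2) := by rw [hT1, hδ]; ring
  have e2 : T2 = δ - (c1 - c2) := by rw [hT2, hδ]; ring
  have e3 : T3 = m + (c1 + c2) := by rw [hT3, hm]; ring
  have e4 : T4 = m - (c1 + c2) := by rw [hT4, hm]; ring
  rw [e1] at d1 u1 l1
  rw [e2] at d2 u2 l2
  rw [e3] at d3 u3 l3
  rw [e4] at d4 u4 l4
  have hsum : 2 * (|c1 - c2| ^ 2 + |c1 + c2| ^ 2) ≤ 3 * (a + b) := by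
    rw [sq_abs, sq_abs]
    linarith
  have hs2 := sum_sq_max c1 c2 a b ha1 hb1 hc1 hc2
  have hm' : m = 1 / 2 - δ + 2 * z := by rw [hm, hδ]; ring
  have hδm : δ ≤ m := by rw [hm, hδ]; linarith
  have n1 := abs_nonneg (c1 - c2)
  have n2 := abs_nonneg (c1 + c2)
  clear_value δ m
  clear hT1 hT2 hT3 hT4 e1 e2 e3 e4 hcost qa qb hzz
  rcases abs_cases (c1 - c2) with ⟨p, -⟩ | ⟨p, -⟩ <;> rcases abs_cases (c1 + c2) with ⟨q, -⟩ | ⟨q, -⟩ <;>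
    rw [p] at hsum hs2 n1 <;> rw [q] at hsum hs2 n2
  · exact core δ m (c1 - c2) (c1 + c2) z (a + b) f1 f2 f3 f4 hm' hδm hab (by linarith) (by linarith) n1 n2
      hsum hs2 u3 (by linarith) g1 g2 g3 g4 d1 d2 d3 d4 hC hcon
  · exact core δ m (c1 - c2) (-(c1 + c2)) z (a + b) f1 f2 f4 f3 hm' hδm hab (by linarith) (by linarith) n1 n2
      hsum hs2 (by linarith) (by linarith) g1 g2 g4 g3 d1 d2 d4 (by rwa [sub_neg_eq_add]) (by linarith) (by linarith)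
  · exact core δ m (-(c1 - c2)) (c1 + c2) z (a + b) f2 f1 f3 f4 hm' hδm hab (by linarith) (by linarith) n1 n2
      hsum hs2 u3 (by linarith) g2 g1 g3 g4 d2 (by rwa [sub_neg_eq_add]) d3 d4 (by linarith) (by linarith)
  · exact core δ m (-(c1 - c2)) (-(c1 + c2)) z (a + b) f2 f1 f4 f3 hm' hδm hab (by linarith) (by linarith) n1 n2
      hsum hs2 (by linarith) (by linarith) g2 g1 g4 g3 d2 (by rwa [sub_neg_eq_add]) d4 (by rwa [sub_neg_eq_add])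
      (by linarith) (by linarith)

end Pool.Agent.Lib.MP_f1379f_gt.FV
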