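import Pool.Agent.Lib.MP_f1379f_gt.FV.SpecS1

/-!
# SPC: the sign matrix of the 28 lines nearly satisfies `S² = 6 S + 27`
-/

set_option autoImplicit false

namespace Pool.Agent.Lib.MP_f1379f_gt.FV

namespace SPCM

section Mat

variable {m n k : Type} [Fintype m] [Fintype n] [Fintype k]

/-- Squared Frobenius norm. -/
noncomputable def F2 (A : Matrix m n ℝ) : ℝ := ∑ i, ∑ j, A i j ^ 2

/-- Frobenius norm. -/
noncomputable def fr (A : Matrix m n ℝ) : ℝ := Real.sqrt (F2 A)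

theorem F2_nonneg (A : Matrix m n ℝ) : 0 ≤ F2 A :=
  Finset.sum_nonneg fun _ _ => Finset.sum_nonneg fun _ _ => sq_nonneg _

theorem fr_nonneg (A : Matrix m n ℝ) : 0 ≤ fr A := Real.sqrt_nonneg _

theorem fr_sq (A : Matrix m n ℝ) : fr A ^ 2 = F2 A := Real.sq_sqrt (F2_nonneg A)

theorem fr_le {A : Matrix m n ℝ} {c : ℝ} (hc : 0 ≤ c) (h : F2 A ≤ c ^ 2) : fr A ≤ c :=
  Real.sqrt_le_left hc |>.2 h

theorem fr_eq_norm (A : Matrix m n ℝ) :
    fr A = ‖(WithLp.toLp 2 (fun q : m × n => A q.1 q.2) : EuclideanSpace ℝ (m × n))‖ := by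
  rw [EuclideanSpace.norm_eq, fr, F2, Fintype.sum_prod_type]
  simp

theorem fr_add (A B : Matrix m n ℝ) : fr (A + B) ≤ fr A + fr B := by
  rw [fr_eq_norm, fr_eq_norm, fr_eq_norm]
  exact norm_add_le (WithLp.toLp 2 (fun q : m × n => A q.1 q.2) : EuclideanSpace ℝ (m × n))
    (WithLp.toLp 2 (fun q : m × n => B q.1 q.2) : EuclideanSpace ℝ (m × n))

theorem fr_smul (c : ℝ) (A : Matrix m n ℝ) : fr (c • A) = |c| * fr A := by
  rw [fr_eq_norm, fr_eq_norm]
  exact norm_smul c (WithLp.toLp 2 (fun q : m × n => A q.1 q.2) : EuclideanSpace ℝ (m × n))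

theorem fr_neg (A : Matrix m n ℝ) : fr (-A) = fr A := by
  have := fr_smul (-1) A
  simpa using this

theorem fr_sub (A B : Matrix m n ℝ) : fr (A - B) ≤ fr A + fr B := by
  rw [sub_eq_add_neg]
  refine (fr_add _ _).trans ?_
  rw [fr_neg]

theorem fr_tr (A : Matrix m n ℝ) : fr A.transpose = fr A := by
  rw [fr, fr, F2, F2, Finset.sum_comm]
  rfl

theorem cs_sum (f g : n → ℝ) : (∑ j, f j * g j) ^ 2 ≤ (∑ j, f j ^ 2) * ∑ j, g j ^ 2 :=
  Finset.sum_mul_sq_le_sq_mul_sq _ _ _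

theorem mulVec_le (A : Matrix m n ℝ) (v : n → ℝ) :
    ∑ i, (A.mulVec v i) ^ 2 ≤ F2 A * ∑ j, v j ^ 2 := by
  rw [F2, Finset.sum_mul]
  exact Finset.sum_le_sum fun i _ => cs_sum _ _

theorem quad_le (A : Matrix n n ℝ) (v : n → ℝ) :
    ∑ i, v i * A.mulVec v i ≤ fr A * ∑ j, v j ^ 2 := by
  have h0 : 0 ≤ ∑ j, v j ^ 2 := Finset.sum_nonneg fun _ _ => sq_nonneg _
  have h1 := cs_sum v (A.mulVec v)
  have h2 := mulVec_le A v
  apply le_of_abs_le
  apply abs_le_of_sq_le_sq _ (mul_nonneg (fr_nonneg A) h0)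
  rw [mul_pow, fr_sq]
  nlinarith

/-- Operator bound. -/
def Op (A : Matrix m n ℝ) (c : ℝ) : Prop :=
  ∀ v : n → ℝ, ∑ i, (A.mulVec v i) ^ 2 ≤ c * ∑ j, v j ^ 2

theorem op_mul {A : Matrix m n ℝ} {c : ℝ} (hA : Op A c) (B : Matrix n k ℝ) :
    F2 (A * B) ≤ c * F2 B := by
  rw [F2, F2, Finset.sum_comm, Finset.sum_comm (f := fun i j => B i j ^ 2), Finset.mul_sum]
  refine Finset.sum_le_sum fun j _ => ?_
  exact hA (fun i => B i j)

end Mat

section Key

variable {ι r : Type} [Fintype ι] [Fintype r] [DecidableEq ι] [DecidableEq r]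

open Matrix

theorem sq_sum_eq {m : Type} [Fintype m] (v : m → ℝ) : ∑ i, v i ^ 2 = v ⬝ᵥ v := by
  simp [dotProduct, sq]

theorem norm_Y (Y : Matrix ι r ℝ) (v : r → ℝ) :
    ∑ i, (Y *ᵥ v) i ^ 2 = 4 * ∑ j, v j ^ 2 +
      ∑ i, v i * ((Yᵀ * Y - (4 : ℝ) • (1 : Matrix r r ℝ)) *ᵥ v) i := by
  have h1 : (Y *ᵥ v) ⬝ᵥ (Y *ᵥ v) = v ⬝ᵥ ((Yᵀ * Y) *ᵥ v) := by
    rw [← Matrix.mulVec_mulVec, Matrix.dotProduct_mulVec v, Matrix.vecMul_transpose]
  have h2 : ((Yᵀ * Y - (4 : ℝ) • (1 : Matrix r r ℝ)) *ᵥ v) = (Yᵀ * Y) *ᵥ v - (4 : ℝ) • v := by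
    rw [Matrix.sub_mulVec, Matrix.smul_mulVec, Matrix.one_mulVec]
  have h3 : ∑ i, v i * ((Yᵀ * Y - (4 : ℝ) • (1 : Matrix r r ℝ)) *ᵥ v) i =
      v ⬝ᵥ ((Yᵀ * Y - (4 : ℝ) • (1 : Matrix r r ℝ)) *ᵥ v) := rfl
  rw [h3, h2, dotProduct_sub, dotProduct_smul, sq_sum_eq, sq_sum_eq, h1, smul_eq_mul]
  ring

theorem op_Y (Y : Matrix ι r ℝ) :
    Op Y (4 + fr (Yᵀ * Y - (4 : ℝ) • (1 : Matrix r r ℝ))) := by
  intro v
  have h1 := norm_Y Y v
  have h2 := quad_le (Yᵀ * Y - (4 : ℝ) • (1 : Matrix r r ℝ)) v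
  rw [h1, add_mul]
  linarith

theorem op_Yt (Y : Matrix ι r ℝ) :
    Op Yᵀ (4 + fr (Yᵀ * Y - (4 : ℝ) • (1 : Matrix r r ℝ))) := by
  intro c
  set e := fr (Yᵀ * Y - (4 : ℝ) • (1 : Matrix r r ℝ)) with he
  have he0 : 0 ≤ e := fr_nonneg _
  set w := Yᵀ *ᵥ c with hw
  have h1 : ∑ i, w i ^ 2 = ∑ i, c i * (Y *ᵥ w) i := by
    have : c ⬝ᵥ (Y *ᵥ w) = w ⬝ᵥ w := by
      rw [Matrix.dotProduct_mulVec, ← Matrix.mulVec_transpose]
    rw [sq_sum_eq, ← this]
    rfl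
  have h2 := cs_sum c (Y *ᵥ w)
  rw [← h1] at h2
  have h3 := op_Y Y w
  rw [← he] at h3
  have hc0 : 0 ≤ ∑ i, c i ^ 2 := Finset.sum_nonneg fun _ _ => sq_nonneg _
  have hw0 : 0 ≤ ∑ i, w i ^ 2 := Finset.sum_nonneg fun _ _ => sq_nonneg _
  rcases hw0.eq_or_lt with h | h
  · rw [← h]
    positivity
  · have h4 : (∑ i, w i ^ 2) * (∑ i, w i ^ 2) ≤ ((4 + e) * ∑ i, c i ^ 2) * ∑ i, w i ^ 2 := by
      nlinarith [mul_le_mul_of_nonneg_left h3 hc0]
    exact le_of_mul_le_mul_right h4 h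

theorem op_G (Y : Matrix ι r ℝ) :
    Op (Y * Yᵀ - (2 : ℝ) • (1 : Matrix ι ι ℝ))
      ((2 + fr (Yᵀ * Y - (4 : ℝ) • (1 : Matrix r r ℝ))) ^ 2) := by
  intro c
  set e := fr (Yᵀ * Y - (4 : ℝ) • (1 : Matrix r r ℝ)) with he
  have he0 : 0 ≤ e := fr_nonneg _
  set w := Yᵀ *ᵥ c with hw
  have h1 : (Y * Yᵀ - (2 : ℝ) • (1 : Matrix ι ι ℝ)) *ᵥ c = Y *ᵥ w - (2 : ℝ) • c := by
    rw [Matrix.sub_mulVec, Matrix.smul_mulVec, Matrix.one_mulVec, ← Matrix.mulVec_mulVec]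
  have h2 : c ⬝ᵥ (Y *ᵥ w) = w ⬝ᵥ w := by
    rw [Matrix.dotProduct_mulVec, ← Matrix.mulVec_transpose]
  have h3 : ∑ i, ((Y * Yᵀ - (2 : ℝ) • (1 : Matrix ι ι ℝ)) *ᵥ c) i ^ 2 =
      ∑ i, (Y *ᵥ w) i ^ 2 - 4 * (w ⬝ᵥ w) + 4 * ∑ i, c i ^ 2 := by
    rw [← h2, h1]
    simp only [dotProduct, Pi.sub_apply, Pi.smul_apply, smul_eq_mul]
    rw [Finset.mul_sum, Finset.mul_sum, ← Finset.sum_sub_distrib, ← Finset.sum_add_distrib]
    exact Finset.sum_congr rfl fun i _ => by ring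
  have h4 := norm_Y Y w
  have h5 := quad_le (Yᵀ * Y - (4 : ℝ) • (1 : Matrix r r ℝ)) w
  have h6 := op_Yt Y c
  rw [← he] at h5 h6
  rw [h3, h4, sq_sum_eq]
  rw [sq_sum_eq w] at h5
  rw [← hw, sq_sum_eq, sq_sum_eq] at h6
  rw [sq_sum_eq]
  nlinarith [mul_le_mul_of_nonneg_left h6 he0]

theorem matkey (Y : Matrix ι r ℝ) (S D : Matrix ι ι ℝ)
    (hD : Y * Yᵀ = 1 + (1 / 3 : ℝ) • S + D) :
    fr (S * S - (6 : ℝ) • S - (27 : ℝ) • (1 : Matrix ι ι ℝ)) ≤
      9 * (4 * (fr D + fr (Yᵀ * Y - (4 : ℝ) • (1 : Matrix r r ℝ))) +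
        (fr D + fr (Yᵀ * Y - (4 : ℝ) • (1 : Matrix r r ℝ))) ^ 2) := by
  set X := Yᵀ * Y - (4 : ℝ) • (1 : Matrix r r ℝ) with hX
  have he0 : 0 ≤ fr X := fr_nonneg _
  have hd0 : 0 ≤ fr D := fr_nonneg _
  set G := Y * Yᵀ with hG
  set R := G - (2 : ℝ) • (1 : Matrix ι ι ℝ) with hR
  have hS : S = (3 : ℝ) • (G - D - 1) := by
    rw [hD]
    have : (1 + (1 / 3 : ℝ) • S + D - D - 1) = (1 / 3 : ℝ) • S := by abel
    rw [this, smul_smul]
    norm_num
  have hGG : Y * X * Yᵀ = G * G - (4 : ℝ) • G := by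
    rw [hX, hG, Matrix.mul_sub, Matrix.sub_mul]
    simp only [Matrix.mul_assoc, Matrix.mul_smul, Matrix.smul_mul, Matrix.mul_one]
  have hid : S * S - (6 : ℝ) • S - (27 : ℝ) • (1 : Matrix ι ι ℝ) =
      (9 : ℝ) • (Y * X * Yᵀ - (R * D + D * R) + D * D) := by
    rw [hGG, hS, hR]
    simp only [Matrix.mul_sub, Matrix.sub_mul, Matrix.mul_smul, Matrix.smul_mul, Matrix.mul_one,
      Matrix.one_mul, smul_sub, smul_add, smul_smul]
    module
  have h1 : fr (Y * X * Yᵀ) ≤ (4 + fr X) * fr X := by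
    apply fr_le (by positivity)
    have h2 := op_mul (op_Y Y) (X * Yᵀ)
    have h3 := op_mul (op_Y Y) Xᵀ
    rw [← hX] at h2 h3
    have h4 : F2 (X * Yᵀ) = F2 (Y * Xᵀ) := by
      rw [← fr_sq, ← fr_sq, ← fr_tr (X * Yᵀ), Matrix.transpose_mul, Matrix.transpose_transpose]
    have h5 : F2 Xᵀ = F2 X := by rw [← fr_sq, ← fr_sq, fr_tr]
    rw [Matrix.mul_assoc, mul_pow, fr_sq]
    rw [h4] at h2
    rw [h5] at h3
    calc F2 (Y * (X * Yᵀ)) ≤ (4 + fr X) * F2 (Y * Xᵀ) := h2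
      _ ≤ (4 + fr X) * ((4 + fr X) * F2 X) := by gcongr
      _ = (4 + fr X) ^ 2 * F2 X := by ring
  have hop := op_G Y
  rw [← hX] at hop
  have h2 : fr (R * D) ≤ (2 + fr X) * fr D := by
    apply fr_le (by positivity)
    rw [mul_pow, fr_sq]
    exact op_mul hop D
  have hRt : Rᵀ = R := by
    rw [hR, hG, Matrix.transpose_sub, Matrix.transpose_mul, Matrix.transpose_transpose,
      Matrix.transpose_smul, Matrix.transpose_one]
  have h3 : fr (D * R) ≤ (2 + fr X) * fr D := by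
    rw [← fr_tr, Matrix.transpose_mul, hRt]
    apply fr_le (by positivity)
    have h5 : F2 Dᵀ = F2 D := by rw [← fr_sq, ← fr_sq, fr_tr]
    rw [mul_pow, fr_sq, ← h5]
    exact op_mul hop Dᵀ
  have h4 : fr (D * D) ≤ fr D * fr D := by
    apply fr_le (by positivity)
    rw [mul_pow, fr_sq]
    exact op_mul (mulVec_le D) D
  rw [hid, fr_smul]
  have h5 := fr_add (Y * X * Yᵀ - (R * D + D * R)) (D * D)
  have h6 := fr_sub (Y * X * Yᵀ) (R * D + D * R)
  have h7 := fr_add (R * D) (D * R)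
  rw [abs_of_pos (by norm_num : (0 : ℝ) < 9)]
  nlinarith

end Key

section Link

theorem inner_eq (u v : V7) : (inner ℝ u v : ℝ) = ∑ i, u i * v i := by
  simp [PiLp.inner_apply, mul_comm]

theorem sum_N {α : Type} [DecidableEq α] {N K : Finset α} {σ : α → α} (hK : K ⊆ N)
    (hinv : ∀ b ∈ N, σ b ∈ N ∧ σ (σ b) = b ∧ σ b ≠ b)
    (hex : ∀ b ∈ N, (b ∈ K ∧ σ b ∉ K) ∨ (b ∉ K ∧ σ b ∈ K)) (f : α → ℝ) :
    ∑ b ∈ N, f b = ∑ k ∈ K, (f k + f (σ k)) := by
  rw [← Finset.sum_filter_add_sum_filter_not N (· ∈ K), Finset.sum_add_distrib]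
  congr 1
  · rw [Finset.filter_mem_eq_inter, Finset.inter_eq_right.2 hK]
  · refine Finset.sum_nbij' σ σ ?_ ?_ ?_ ?_ ?_
    · intro b hb
      rw [Finset.mem_filter] at hb
      rcases hex b hb.1 with h | h
      · exact absurd h.1 hb.2
      · exact h.2
    · intro k hk
      rw [Finset.mem_filter]
      refine ⟨(hinv k (hK hk)).1, ?_⟩
      rcases hex k (hK hk) with h | h
      · exact h.2
      · exact absurd hk h.1
    · intro b hb
      rw [Finset.mem_filter] at hb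
      exact (hinv b hb.1).2.1
    · intro k hk
      exact (hinv k (hK hk)).2.1
    · intro b hb
      rw [Finset.mem_filter] at hb
      rw [(hinv b hb.1).2.1]

/-- The frame matrix of the link. -/
theorem frame {α : Type} (N : Finset α) (p : α → V7) (h1 : ∀ b ∈ N, ‖p b‖ = 1)
    (hc : N.card = 56) :
    F2 ((Matrix.of fun i j => ∑ b ∈ N, p b i * p b j : Matrix (Fin 7) (Fin 7) ℝ) -
      (8 : ℝ) • (1 : Matrix (Fin 7) (Fin 7) ℝ)) =
      ∑ b ∈ N, ∑ c ∈ N, (inner ℝ (p b) (p c) : ℝ) ^ 2 - 448 := by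
  have hA : ∀ i j : Fin 7, (∑ b ∈ N, p b i * p b j) ^ 2 =
      ∑ b ∈ N, ∑ c ∈ N, (p b i * p c i) * (p b j * p c j) := by
    intro i j
    rw [sq, Finset.sum_mul_sum]
    exact Finset.sum_congr rfl fun b _ => Finset.sum_congr rfl fun c _ => by ring
  have hB : ∑ i : Fin 7, ∑ j : Fin 7, (∑ b ∈ N, p b i * p b j) ^ 2 =
      ∑ b ∈ N, ∑ c ∈ N, (inner ℝ (p b) (p c) : ℝ) ^ 2 := by
    simp_rw [hA]
    calc ∑ i : Fin 7, ∑ j : Fin 7, ∑ b ∈ N, ∑ c ∈ N, (p b i * p c i) * (p b j * p c j)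
        = ∑ i : Fin 7, ∑ b ∈ N, ∑ j : Fin 7, ∑ c ∈ N, (p b i * p c i) * (p b j * p c j) :=
          Finset.sum_congr rfl fun _ _ => Finset.sum_comm
      _ = ∑ b ∈ N, ∑ i : Fin 7, ∑ j : Fin 7, ∑ c ∈ N, (p b i * p c i) * (p b j * p c j) :=
          Finset.sum_comm
      _ = ∑ b ∈ N, ∑ i : Fin 7, ∑ c ∈ N, ∑ j : Fin 7, (p b i * p c i) * (p b j * p c j) :=
          Finset.sum_congr rfl fun _ _ => Finset.sum_congr rfl fun _ _ => Finset.sum_comm
      _ = ∑ b ∈ N, ∑ c ∈ N, ∑ i : Fin 7, ∑ j : Fin 7, (p b i * p c i) * (p b j * p c j) :=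
          Finset.sum_congr rfl fun _ _ => Finset.sum_comm
      _ = ∑ b ∈ N, ∑ c ∈ N, (inner ℝ (p b) (p c) : ℝ) ^ 2 := by
          refine Finset.sum_congr rfl fun b _ => Finset.sum_congr rfl fun c _ => ?_
          rw [inner_eq, sq, Finset.sum_mul_sum]
  have hC : ∑ i : Fin 7, ∑ b ∈ N, p b i * p b i = 56 := by
    rw [Finset.sum_comm]
    have : ∀ b ∈ N, ∑ i : Fin 7, p b i * p b i = 1 := by
      intro b hb
      rw [← inner_eq, real_inner_self_eq_norm_sq, h1 b hb, one_pow]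
    rw [Finset.sum_congr rfl this]
    simp [hc]
  have hD : ∀ i j : Fin 7, ((Matrix.of fun i j => ∑ b ∈ N, p b i * p b j : Matrix (Fin 7) (Fin 7) ℝ) -
      (8 : ℝ) • (1 : Matrix (Fin 7) (Fin 7) ℝ)) i j ^ 2 = (∑ b ∈ N, p b i * p b j) ^ 2 +
      (if i = j then 64 - 16 * ∑ b ∈ N, p b i * p b i else 0) := by
    intro i j
    rw [Matrix.sub_apply, Matrix.smul_apply, Matrix.one_apply, Matrix.of_apply]
    split_ifs with h
    · subst h
      simp only [smul_eq_mul]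
      ring
    · simp
  rw [F2]
  simp_rw [hD]
  simp_rw [Finset.sum_add_distrib]
  rw [hB]
  simp only [Finset.sum_ite_eq, Finset.mem_univ, if_true]
  rw [Finset.sum_sub_distrib, ← Finset.mul_sum, hC]
  simp
  ring

/-- Gram of small vectors. -/
theorem gramZ {ι : Type} [Fintype ι] (z : ι → V7) :
    ∑ k, ∑ l, (inner ℝ (z k) (z l) : ℝ) ^ 2 ≤ (∑ k, ‖z k‖ ^ 2) ^ 2 := by
  rw [sq (∑ k, ‖z k‖ ^ 2), Finset.sum_mul_sum]
  refine Finset.sum_le_sum fun k _ => Finset.sum_le_sum fun l _ => ?_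
  have h := abs_real_inner_le_norm (z k) (z l)
  have h0 := abs_nonneg (inner ℝ (z k) (z l) : ℝ)
  rw [← sq_abs]
  nlinarith [norm_nonneg (z k), norm_nonneg (z l)]

theorem gramZ' {ι : Type} [Fintype ι] (z : ι → V7) :
    F2 ((Matrix.of fun k i => z k i : Matrix ι (Fin 7) ℝ).transpose *
      (Matrix.of fun k i => z k i : Matrix ι (Fin 7) ℝ)) ≤
      (∑ k, ‖z k‖ ^ 2) ^ 2 := by
  have h0 : ∑ k, ‖z k‖ ^ 2 = ∑ i : Fin 7, ∑ k, z k i ^ 2 := by
    rw [Finset.sum_comm]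
    refine Finset.sum_congr rfl fun k _ => ?_
    rw [← real_inner_self_eq_norm_sq, inner_eq]
    exact Finset.sum_congr rfl fun i _ => by ring
  rw [h0, sq, Finset.sum_mul_sum, F2]
  refine Finset.sum_le_sum fun i _ => Finset.sum_le_sum fun j _ => ?_
  rw [Matrix.mul_apply]
  exact Finset.sum_mul_sq_le_sq_mul_sq _ _ _

/-- The final numerical step. -/
theorem numer {GO GA eps Z0 a b d : ℝ} (hGO : 0 ≤ GO) (heps : 0 ≤ eps) (hZ : 0 ≤ Z0)
    (hGA : 427 / 10 * Z0 ≤ GA) (hbud : GO + GA + 228 / 11 * eps ≤ 418 / 100)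
    (ha : 0 ≤ a) (ha2 : a ^ 2 = 7 / 160 * GO) (hb : 0 ≤ b) (hb2 : b ^ 2 = eps / 4)
    (hd0 : 0 ≤ d) (hd : d ≤ a + b + 2 * Z0) : (9 * (4 * d + d ^ 2)) ^ 2 < 384 := by
  have h1 : (a + b) ^ 2 ≤ (7 / 160 + 11 / 912) * (GO + 228 / 11 * eps) := by
    have h2 : GO = 160 / 7 * a ^ 2 := by linarith
    have h3 : eps = 4 * b ^ 2 := by linarith
    rw [h2, h3]
    nlinarith [sq_nonneg (11 / 912 * a - 7 / 160 * b)]
  have h2 : (a + b) ^ 2 ≤ (7 / 160 + 11 / 912) * (418 / 100 - 427 / 10 * Z0) := by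
    refine h1.trans (mul_le_mul_of_nonneg_left (by linarith) (by norm_num))
  have h3 : Z0 ≤ 418 / 4270 := by linarith
  have h4 : d ≤ 4831 / 10000 := by
    by_contra hcon
    rw [not_le] at hcon
    have h5 : 4831 / 10000 - 2 * Z0 < a + b := by linarith
    have h6 : (4831 / 10000 - 2 * Z0) ^ 2 < (a + b) ^ 2 := by
      apply pow_lt_pow_left₀ h5 (by linarith) (by norm_num)
    nlinarith
  have h5 : 9 * (4 * d + d ^ 2) ≤ 9 * (4 * (4831 / 10000) + (4831 / 10000) ^ 2) := by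
    nlinarith
  have h6 : (9 * (4 * d + d ^ 2)) ^ 2 ≤ (9 * (4 * (4831 / 10000) + (4831 / 10000) ^ 2)) ^ 2 :=
    pow_le_pow_left₀ (by positivity) h5 2
  refine h6.trans_lt (by norm_num)

end Link

/-- The non-contact costs of a pair. -/
noncomputable def gg {α : Type} [DecidableEq α] (p : α → V7) (C : Finset (α × α)) (b c : α) : ℝ :=
  if b ≠ c ∧ (b, c) ∉ C then G7 (inner ℝ (p b) (p c)) else 0

/-- The costs between two lines. -/
noncomputable def HH {α : Type} [DecidableEq α] (p : α → V7) (C : Finset (α × α)) (σ : α → α)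
    (k l : α) : ℝ :=
  gg p C k l + gg p C k (σ l) + (gg p C (σ k) l + gg p C (σ k) (σ l))

section Main

variable {α : Type} [DecidableEq α] {N : Finset α} {p : α → V7} {C : Finset (α × α)} {σ : α → α}
  {K : Finset α}

theorem gg_nonneg (hL : LK N p C (418 / 100) (3 / 10)) {b c : α} (hb : b ∈ N) (hc : c ∈ N) :
    0 ≤ gg p C b c := by
  unfold gg
  split_ifs with h
  · have h1 := hL.non b hb c hc h.1 h.2
    have h2 : -1 ≤ (inner ℝ (p b) (p c) : ℝ) := by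
      have h3 := abs_real_inner_le_norm (p b) (p c)
      rw [hL.unit b hb, hL.unit c hc] at h3
      linarith [(abs_le.1 h3).1]
    unfold G7
    have h3 : 0 ≤ 1 - 3 * (inner ℝ (p b) (p c) : ℝ) := by linarith
    have h4 : 0 ≤ 1 + (inner ℝ (p b) (p c) : ℝ) := by linarith
    positivity
  · exact le_rfl

theorem total (hK : K ⊆ N)
    (hinv : ∀ b ∈ N, σ b ∈ N ∧ σ (σ b) = b ∧ σ b ≠ b)
    (hex : ∀ b ∈ N, (b ∈ K ∧ σ b ∉ K) ∨ (b ∉ K ∧ σ b ∈ K)) :
    ∑ q ∈ N.offDiag.filter (fun q => q ∉ C), G7 (inner ℝ (p q.1) (p q.2)) =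
      ∑ k ∈ K, ∑ l ∈ K, HH p C σ k l := by
  have h1 : N.offDiag.filter (fun q => q ∉ C) =
      (N ×ˢ N).filter (fun q => q.1 ≠ q.2 ∧ q ∉ C) := by
    ext q
    simp only [Finset.mem_filter, Finset.mem_offDiag, Finset.mem_product]
    tauto
  rw [h1, Finset.sum_filter, Finset.sum_product]
  have h2 : ∀ f : α → α → ℝ, ∑ b ∈ N, ∑ c ∈ N, f b c =
      ∑ k ∈ K, ∑ l ∈ K, (f k l + f k (σ l) + (f (σ k) l + f (σ k) (σ l))) := by
    intro f
    rw [sum_N hK hinv hex (fun b => ∑ c ∈ N, f b c)]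
    refine Finset.sum_congr rfl fun k _ => ?_
    rw [sum_N hK hinv hex (fun c => f k c), sum_N hK hinv hex (fun c => f (σ k) c),
      ← Finset.sum_add_distrib]
  exact h2 (gg p C)

theorem HH_pair {k l : α} (h1 : k ≠ σ k) (h2 : l ≠ σ l) (h3 : k ≠ l) (h4 : k ≠ σ l)
    (h5 : σ k ≠ l) (h6 : σ k ≠ σ l) :
    ∑ q ∈ ({k, σ k} ×ˢ {l, σ l} : Finset (α × α)).filter (fun q => q ∉ C),
        G7 (inner ℝ (p q.1) (p q.2)) = HH p C σ k l := by
  rw [Finset.sum_filter, Finset.sum_product, Finset.sum_pair h1, Finset.sum_pair h2,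
    Finset.sum_pair h2]
  unfold HH gg
  simp only [ne_eq, h3, h4, h5, h6, not_false_eq_true, true_and]

theorem HH_diag {k : α} (h1 : k ≠ σ k) (h2 : (k, σ k) ∉ C) (h3 : (σ k, k) ∉ C) :
    HH p C σ k k = 2 * G7 (inner ℝ (p k) (p (σ k))) := by
  unfold HH gg
  simp only [ne_eq, not_true_eq_false, false_and, if_false, h1, h1.symm, h2, h3, not_false_eq_true,
    and_self, if_true]
  rw [real_inner_comm (p k) (p (σ k))]
  ring

end Main

end SPCM

open SPCM Matrix in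
theorem specSPC (hLIN : SpecLIN) : SpecSPC := by
  intro α _ N p C σ hL hA K hKN hex
  -- basic facts
  have hinv := hA.inv
  have hσK : ∀ k ∈ K, σ k ∉ K := by
    intro k hk
    rcases hex k (hKN hk) with h | h
    · exact h.2
    · exact absurd hk h.1
  have hne : ∀ k ∈ K, k ≠ σ k := fun k hk h => (hinv k (hKN hk)).2.2 h.symm
  have hyz : ∀ b, p b = yv p σ b + zv p σ b := by
    intro b
    simp only [yv, zv]
    module
  have hyz' : ∀ b, p (σ b) = zv p σ b - yv p σ b := by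
    intro b
    simp only [yv, zv]
    module
  have hz : ∀ k ∈ K, ‖zv p σ k‖ ^ 2 = (1 + inner ℝ (p k) (p (σ k))) / 2 := by
    intro k hk
    rw [← real_inner_self_eq_norm_sq]
    simp only [zv, inner_smul_left, inner_smul_right, inner_add_left, inner_add_right]
    have h1 := hL.unit k (hKN hk)
    have h2 := hL.unit (σ k) (hinv k (hKN hk)).1
    have h3 : (inner ℝ (p k) (p k) : ℝ) = 1 := by rw [real_inner_self_eq_norm_sq, h1, one_pow]
    have h4 : (inner ℝ (p (σ k)) (p (σ k)) : ℝ) = 1 := by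
      rw [real_inner_self_eq_norm_sq, h2, one_pow]
    rw [h3, h4, real_inner_comm (p k) (p (σ k))]
    simp only [map_div₀, map_one, conj_trivial]
    ring
  have hy : ∀ k ∈ K, (inner ℝ (yv p σ k) (yv p σ k) : ℝ) = 1 - ‖zv p σ k‖ ^ 2 := by
    intro k hk
    rw [hz k hk]
    simp only [yv, inner_smul_left, inner_smul_right, inner_sub_left, inner_sub_right]
    have h1 := hL.unit k (hKN hk)
    have h2 := hL.unit (σ k) (hinv k (hKN hk)).1
    have h3 : (inner ℝ (p k) (p k) : ℝ) = 1 := by rw [real_inner_self_eq_norm_sq, h1, one_pow]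
    have h4 : (inner ℝ (p (σ k)) (p (σ k)) : ℝ) = 1 := by
      rw [real_inner_self_eq_norm_sq, h2, one_pow]
    rw [h3, h4, real_inner_comm (p k) (p (σ k))]
    simp only [conj_trivial]
    ring
  -- costs
  set GA : ℝ := ∑ k ∈ K, HH p C σ k k with hGAdef
  set GO : ℝ := ∑ k ∈ K, ∑ l ∈ K, (if k = l then 0 else HH p C σ k l) with hGOdef
  set eps : ℝ := ∑ b ∈ N, ∑ c ∈ N, (inner ℝ (p b) (p c) : ℝ) ^ 2 - 448 with hepsdef
  set Z0 : ℝ := ∑ k : K, ‖zv p σ k‖ ^ 2 with hZ0def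
  have hHH0 : ∀ k ∈ K, ∀ l ∈ K, 0 ≤ HH p C σ k l := by
    intro k hk l hl
    have h1 := gg_nonneg hL (hKN hk) (hKN hl)
    have h2 := gg_nonneg hL (hKN hk) (hinv l (hKN hl)).1
    have h3 := gg_nonneg hL (hinv k (hKN hk)).1 (hKN hl)
    have h4 := gg_nonneg hL (hinv k (hKN hk)).1 (hinv l (hKN hl)).1
    unfold HH
    linarith
  have htot : ∑ k ∈ K, ∑ l ∈ K, HH p C σ k l = GO + GA := by
    rw [hGOdef, hGAdef, ← Finset.sum_add_distrib]
    refine Finset.sum_congr rfl fun k hk => ?_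
    have h1 : HH p C σ k k = ∑ l ∈ K, if k = l then HH p C σ k l else 0 := by
      rw [Finset.sum_ite_eq, if_pos hk]
    rw [h1, ← Finset.sum_add_distrib]
    refine Finset.sum_congr rfl fun l _ => ?_
    split_ifs <;> ring
  have hbud := hL.bud
  rw [total hKN hinv hex, htot] at hbud
  have hGO0 : 0 ≤ GO := by
    refine Finset.sum_nonneg fun k hk => Finset.sum_nonneg fun l hl => ?_
    split_ifs
    · exact le_rfl
    · exact hHH0 k hk l hl
  have hZ00 : 0 ≤ Z0 := Finset.sum_nonneg fun _ _ => sq_nonneg _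
  have hnC : ∀ b ∈ N, ∀ c ∈ N, b ≠ c → (inner ℝ (p b) (p c) : ℝ) ≤ -9 / 10 → (b, c) ∉ C := by
    intro b hb c hc hbc ht hC
    have := hL.con b hb c hc hbc hC
    linarith
  have hGA : 427 / 10 * Z0 ≤ GA := by
    rw [hZ0def, Finset.sum_coe_sort K (fun k => ‖zv p σ k‖ ^ 2), hGAdef, Finset.mul_sum]
    refine Finset.sum_le_sum fun k hk => ?_
    have hkN := hKN hk
    have hi := hinv k hkN
    have ht := hA.near k hkN
    have hC1 := hnC k hkN (σ k) hi.1 (hne k hk) ht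
    have hC2 := hnC (σ k) hi.1 k hkN (hne k hk).symm (by rw [real_inner_comm]; exact ht)
    rw [HH_diag (hne k hk) hC1 hC2]
    set x := ‖zv p σ k‖ ^ 2 with hx
    have hx1 := hz k hk
    rw [← hx] at hx1
    have hx0 : 0 ≤ x := sq_nonneg _
    have hx2 : x ≤ 1 / 20 := by linarith
    have hx3 : (inner ℝ (p k) (p (σ k)) : ℝ) = -1 + 2 * x := by linarith
    rw [hx3, G7]
    have h1 : (1 - 3 * (-1 + 2 * x)) * (1 + (-1 + 2 * x)) * (1 + 3 * (-1 + 2 * x)) ^ 2 =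
        x * (2 * (4 - 6 * x) * (2 - 6 * x) ^ 2) := by ring
    rw [h1]
    have h2 : (37 / 10 : ℝ) * (289 / 100) ≤ (4 - 6 * x) * (2 - 6 * x) ^ 2 := by
      have h3 : (289 / 100 : ℝ) ≤ (2 - 6 * x) ^ 2 := by nlinarith
      have h4 : (37 / 10 : ℝ) ≤ 4 - 6 * x := by linarith
      exact mul_le_mul h4 h3 (by norm_num) (by linarith)
    nlinarith [mul_le_mul_of_nonneg_left h2 hx0]
  have heps0 : 0 ≤ eps := by
    rw [hepsdef, ← frame N p hL.unit hL.card]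
    exact F2_nonneg _
  -- matrices
  set Y : Matrix K (Fin 7) ℝ := Matrix.of fun k i => yv p σ k i with hY
  set Z : Matrix K (Fin 7) ℝ := Matrix.of fun k i => zv p σ k i with hZ
  set S : Matrix K K ℝ := Matrix.of fun k l => if k = l then 0 else sg p σ k l with hS
  set D : Matrix K K ℝ := Y * Yᵀ - 1 - (1 / 3 : ℝ) • S with hD
  set X := Yᵀ * Y - (4 : ℝ) • (1 : Matrix (Fin 7) (Fin 7) ℝ) with hX
  have hGam : ∀ k l : K, (Y * Yᵀ) k l = inner ℝ (yv p σ k) (yv p σ l) := by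
    intro k l
    rw [inner_eq, Matrix.mul_apply]
    rfl
  -- the bound for D
  set A1 : Matrix K K ℝ := Matrix.of fun k l => if k = l then 0 else
    -(sg p σ k l) * (1 / 3 - |(inner ℝ (yv p σ k) (yv p σ l) : ℝ)| +
      inner ℝ (zv p σ k) (zv p σ l)) with hA1
  set A2 : Matrix K K ℝ := Matrix.of fun k l => if k = l then -‖zv p σ k‖ ^ 2 else
    sg p σ k l * inner ℝ (zv p σ k) (zv p σ l) with hA2
  have hsg2 : ∀ k l : α, sg p σ k l ^ 2 = 1 := by
    intro k l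
    unfold sg
    split_ifs <;> norm_num
  have hDA : D = A1 + A2 := by
    ext k l
    rw [hD, Matrix.sub_apply, Matrix.sub_apply, hGam, Matrix.add_apply, hA1, hA2, Matrix.of_apply,
      Matrix.of_apply, Matrix.smul_apply, hS, Matrix.of_apply, Matrix.one_apply]
    by_cases h : k = l
    · subst h
      rw [if_pos rfl, if_pos rfl, if_pos rfl, if_pos rfl, hy k k.2]
      simp
    · rw [if_neg h, if_neg h, if_neg h, if_neg h]
      unfold sg
      split_ifs with h1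
      · rw [abs_of_pos h1, smul_eq_mul]
        ring
      · rw [abs_of_nonpos (not_lt.1 h1), smul_eq_mul]
        ring
  have hF1 : F2 A1 ≤ 7 / 160 * GO := by
    rw [F2, hGOdef, ← Finset.sum_coe_sort K (fun k => ∑ l ∈ K, if k = l then 0 else HH p C σ k l),
      Finset.mul_sum]
    refine Finset.sum_le_sum fun k _ => ?_
    rw [← Finset.sum_coe_sort K (fun l => if (k : α) = l then 0 else HH p C σ k l), Finset.mul_sum]
    refine Finset.sum_le_sum fun l _ => ?_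
    rw [hA1, Matrix.of_apply]
    by_cases h : k = l
    · rw [if_pos h, if_pos (congrArg Subtype.val h)]
      simp
    · have h' : (k : α) ≠ l := fun h1 => h (Subtype.ext h1)
      rw [if_neg h, if_neg h', mul_pow, neg_sq, hsg2, one_mul]
      have hk := hKN k.2
      have hl := hKN l.2
      have h5 : σ (k : α) ≠ l := fun h1 => hσK k k.2 (h1 ▸ l.2)
      have h4 : (k : α) ≠ σ l := fun h1 => hσK l l.2 (h1 ▸ k.2)
      have h6 : σ (k : α) ≠ σ l := fun h1 => h' (by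
        rw [← (hinv k hk).2.1, ← (hinv l hl).2.1, h1])
      rw [← HH_pair (hne k k.2) (hne l l.2) h' h4 h5 h6]
      exact hLIN.ineq N p C σ hL hA k hk l hl h'.symm h5.symm
  have hF2 : F2 A2 ≤ Z0 ^ 2 := by
    refine le_trans ?_ (gramZ (fun k : K => zv p σ k))
    rw [F2]
    refine Finset.sum_le_sum fun k _ => Finset.sum_le_sum fun l _ => ?_
    rw [hA2, Matrix.of_apply]
    by_cases h : k = l
    · subst h
      rw [if_pos rfl, real_inner_self_eq_norm_sq, neg_sq]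
    · rw [if_neg h, mul_pow, hsg2, one_mul]
  have hfrD : fr D ≤ Real.sqrt (7 / 160 * GO) + Z0 := by
    rw [hDA]
    refine (fr_add _ _).trans (add_le_add ?_ ?_)
    · exact Real.sqrt_le_sqrt hF1
    · exact fr_le hZ00 hF2
  -- the bound for X
  set P : Matrix (Fin 7) (Fin 7) ℝ := (Matrix.of fun i j => ∑ b ∈ N, p b i * p b j :
    Matrix (Fin 7) (Fin 7) ℝ) - (8 : ℝ) • (1 : Matrix (Fin 7) (Fin 7) ℝ) with hP
  have hXP : X = (1 / 2 : ℝ) • P - Zᵀ * Z := by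
    ext i j
    have h1 : ∑ b ∈ N, p b i * p b j = 2 * ((Yᵀ * Y) i j + (Zᵀ * Z) i j) := by
      rw [sum_N hKN hinv hex, Matrix.mul_apply, Matrix.mul_apply, ← Finset.sum_add_distrib,
        Finset.mul_sum, ← Finset.sum_coe_sort K]
      refine Finset.sum_congr rfl fun k _ => ?_
      rw [hyz (k : α), hyz' (k : α)]
      simp only [hY, hZ, Matrix.transpose_apply, Matrix.of_apply, PiLp.add_apply, PiLp.sub_apply]
      ring
    rw [hX, hP, Matrix.sub_apply, Matrix.sub_apply, Matrix.smul_apply, Matrix.smul_apply,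
      Matrix.sub_apply, Matrix.of_apply, Matrix.smul_apply, h1]
    simp only [smul_eq_mul]
    ring
  have hfrP : fr P ^ 2 = eps := by
    rw [fr_sq, hP, frame N p hL.unit hL.card]
  have hfrX : fr X ≤ 1 / 2 * fr P + Z0 := by
    rw [hXP]
    refine (fr_sub _ _).trans (add_le_add ?_ ?_)
    · rw [fr_smul, abs_of_pos (by norm_num)]
    · exact fr_le hZ00 (gramZ' (fun k : K => zv p σ k))
  -- conclusion
  have hkey := matkey Y S D (by rw [hD]; abel)
  rw [← hX] at hkey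
  have hnum := numer hGO0 heps0 hZ00 hGA hbud (Real.sqrt_nonneg (7 / 160 * GO))
    (Real.sq_sqrt (by positivity)) (b := 1 / 2 * fr P)
    (by have := fr_nonneg P; positivity) (by rw [mul_pow, hfrP]; ring)
    (d := fr D + fr X) (by have := fr_nonneg D; have := fr_nonneg X; positivity) (by linarith)
  have hfin : F2 (S * S - (6 : ℝ) • S - (27 : ℝ) • (1 : Matrix K K ℝ)) < 384 := by
    rw [← fr_sq]
    exact (pow_le_pow_left₀ (fr_nonneg _) hkey 2).trans_lt hnum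
  refine lt_of_eq_of_lt ?_ hfin
  rw [F2, ← Finset.sum_coe_sort K]
  refine Finset.sum_congr rfl fun k _ => ?_
  rw [← Finset.sum_coe_sort K]
  refine Finset.sum_congr rfl fun l _ => ?_
  rw [← Finset.sum_coe_sort K, Matrix.sub_apply, Matrix.sub_apply, Matrix.smul_apply,
    Matrix.smul_apply, Matrix.one_apply, Matrix.mul_apply]
  have h1 : ∀ k l : K, S k l = if (k : α) = l then 0 else sg p σ k l := by
    intro k l
    rw [hS, Matrix.of_apply]
    by_cases h : k = l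
    · rw [if_pos h, if_pos (congrArg Subtype.val h)]
    · rw [if_neg h, if_neg (fun h1 => h (Subtype.ext h1))]
  have h2 : (if k = l then (1 : ℝ) else 0) = if (k : α) = l then 1 else 0 := by
    by_cases h : k = l
    · rw [if_pos h, if_pos (congrArg Subtype.val h)]
    · rw [if_neg h, if_neg (fun h1 => h (Subtype.ext h1))]
  rw [h2, h1]
  congr 1
  congr 1
  · congr 1
    refine Finset.sum_congr rfl fun j _ => ?_
    rw [h1, h1]
    congr 1
    by_cases h : (j : α) = k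
    · rw [if_pos h, if_pos h.symm]
    · rw [if_neg h, if_neg (Ne.symm h)]
  · split_ifs <;> simp

end Pool.Agent.Lib.MP_f1379f_gt.FV
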