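import Pool.Agent.Lib.MP_f1379f_gt.FV.GQA
import Pool.Agent.Lib.MP_f1379f_gt.FV.GQD
import Pool.Agent.Lib.MP_f1379f_gt.FV.KER7
import Pool.Agent.Lib.MP_f1379f_gt.FV.ANT
import Pool.Agent.Lib.MP_f1379f_gt.FV.LPI
import Pool.Agent.Lib.MP_f1379f_gt.FV.LIN
import Pool.Agent.Lib.MP_f1379f_gt.FV.SPC
import Pool.Agent.Lib.MP_f1379f_gt.FV.INT

section
/-!
# MP_f1379f_gt: from a Seidel matrix with `S² = 6 S + 27` to the graph (27, 10, 1, 5)
-/
set_option autoImplicit false

open Finset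

namespace Pool.Agent.Lib.MP_f1379f_gt.FV

namespace GQC

variable {ι : Type*} [Fintype ι] [DecidableEq ι]

/-- `S` is a Seidel matrix of order 28 with `S² = 6 S + 27`. -/
structure Sei (S : ι → ι → ℤ) : Prop where
  card : Fintype.card ι = 28
  symm : ∀ i j, S i j = S j i
  diag : ∀ i, S i i = 0
  pm : ∀ i j, i ≠ j → S i j = 1 ∨ S i j = -1
  sq : ∀ i j, ∑ k, S i k * S k j = 6 * S i j + if i = j then 27 else 0

omit [Fintype ι] [DecidableEq ι] in
lemma fc {s : Finset ι} {P Q : ι → Prop} {i1 : DecidablePred P} {i2 : DecidablePred Q}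
    (h : ∀ x ∈ s, (P x ↔ Q x)) : (@filter _ P i1 s).card = (@filter _ Q i2 s).card := by
  congr 1
  ext x
  rw [mem_filter, mem_filter]
  constructor
  · rintro ⟨h1, h2⟩
    exact ⟨h1, (h x h1).1 h2⟩
  · rintro ⟨h1, h2⟩
    exact ⟨h1, (h x h1).2 h2⟩

set_option linter.unusedSectionVars false

variable {S : ι → ι → ℤ} (h : Sei S) {a : ι} (hn : ∀ b, b ≠ a → S a b = 1)
include h hn

lemma sum_row {b : ι} (hb : b ≠ a) : ∑ k ∈ univ.erase a, S b k = 6 := by
  have h1 := h.sq a b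
  rw [if_neg (Ne.symm hb), hn b hb, ← Finset.add_sum_erase univ _ (mem_univ a), h.diag a] at h1
  have h2 : ∑ k ∈ univ.erase a, S a k * S k b = ∑ k ∈ univ.erase a, S b k := by
    refine sum_congr rfl fun k hk => ?_
    rw [hn k (ne_of_mem_erase hk), one_mul, h.symm k b]
  rw [h2] at h1
  linarith

lemma sum_prod {b c : ι} (hb : b ≠ a) (hc : c ≠ a) (hbc : b ≠ c) :
    ∑ k ∈ univ.erase a, S b k * S c k = 6 * S b c - 1 := by
  have h1 := h.sq b c
  rw [if_neg hbc, ← Finset.add_sum_erase univ _ (mem_univ a), h.symm b a, hn b hb, hn c hc] at h1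
  have h2 : ∑ k ∈ univ.erase a, S b k * S k c = ∑ k ∈ univ.erase a, S b k * S c k :=
    sum_congr rfl fun k _ => by rw [h.symm k c]
  rw [h2] at h1
  linarith

lemma cardE : (univ.erase a : Finset ι).card = 27 := by
  rw [card_erase_of_mem (mem_univ a), card_univ, h.card]

lemma deg10 {b : ι} (hb : b ≠ a) : ((univ.erase a).filter fun k => S b k = -1).card = 10 := by
  have h1 := sum_row h hn hb
  have h2 : ∀ k ∈ (univ.erase a : Finset ι), S b k =
      1 - (if S b k = -1 then 2 else 0) - (if k = b then 1 else 0) := by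
    intro k _
    by_cases hk : k = b
    · rw [if_pos hk, hk, h.diag b]; norm_num
    · rcases h.pm b k (Ne.symm hk) with h3 | h3
      · rw [h3, if_neg hk]; norm_num
      · rw [h3, if_neg hk]; norm_num
  rw [sum_congr rfl h2, sum_sub_distrib, sum_sub_distrib, sum_ite_eq' , if_pos (mem_erase.2
    ⟨hb, mem_univ b⟩), ← sum_filter, sum_const, sum_const, cardE h hn] at h1
  simp only [nsmul_eq_mul] at h1
  push_cast at h1
  have : (((univ.erase a).filter fun k => S b k = -1).card : ℤ) = 10 := by linarith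
  exact_mod_cast this

lemma common {b c : ι} (hb : b ≠ a) (hc : c ≠ a) (hbc : b ≠ c) :
    4 * (((univ.erase a).filter fun k => S b k = -1 ∧ S c k = -1).card : ℤ) =
      12 + 8 * S b c := by
  have h1 := sum_row h hn hb
  have h1' := sum_row h hn hc
  have h2 := sum_prod h hn hb hc hbc
  have h3 : ∑ k ∈ univ.erase a, ((1 - S b k) * (1 - S c k)) = 14 + 6 * S b c := by
    have : ∑ k ∈ univ.erase a, ((1 - S b k) * (1 - S c k)) =
        ∑ k ∈ univ.erase a, ((1 : ℤ) - S b k - S c k + S b k * S c k) :=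
      sum_congr rfl fun k _ => by ring
    rw [this, sum_add_distrib, sum_sub_distrib, sum_sub_distrib, h1, h1', h2, sum_const,
      cardE h hn]
    simp only [nsmul_eq_mul]
    push_cast
    ring
  have h4 : ∀ k ∈ (univ.erase a : Finset ι), (1 - S b k) * (1 - S c k) =
      (if S b k = -1 ∧ S c k = -1 then 4 else 0) + (if k = b then 1 - S b c else 0) +
        (if k = c then 1 - S b c else 0) := by
    intro k _
    by_cases hkb : k = b
    · subst hkb
      rw [if_pos rfl, if_neg hbc, h.diag, h.symm c k]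
      norm_num
    · by_cases hkc : k = c
      · subst hkc
        rw [if_pos rfl, if_neg hkb, h.diag]
        norm_num
      · rw [if_neg hkb, if_neg hkc]
        rcases h.pm b k (Ne.symm hkb) with h5 | h5 <;> rcases h.pm c k (Ne.symm hkc) with h6 | h6 <;>
          rw [h5, h6] <;> norm_num
  rw [sum_congr rfl h4, sum_add_distrib, sum_add_distrib, sum_ite_eq', sum_ite_eq',
    if_pos (mem_erase.2 ⟨hb, mem_univ b⟩), if_pos (mem_erase.2 ⟨hc, mem_univ c⟩),
    ← sum_filter, sum_const] at h3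
  simp only [nsmul_eq_mul] at h3
  linarith

lemma gq_norm : GQ (univ.erase a) fun b c => S b c = -1 := by
  classical
  refine ⟨cardE h hn, ?_, ?_, ?_, ?_, ?_⟩
  · intro u _ v _ huv
    rw [h.symm v u]
    exact huv
  · intro u _ huu
    rw [h.diag] at huu
    norm_num at huu
  · intro u hu
    rw [← deg10 h hn (ne_of_mem_erase hu)]
    exact fc fun x _ => Iff.rfl
  · intro u hu v hv huv
    have hne : u ≠ v := by
      rintro rfl
      rw [h.diag] at huv
      norm_num at huv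
    have h1 := common h hn (ne_of_mem_erase hu) (ne_of_mem_erase hv) hne
    rw [huv] at h1
    have h2 : ((((univ.erase a).filter fun k => S u k = -1 ∧ S v k = -1).card : ℕ) : ℤ) = 1 := by
      linarith
    have h3 : ((univ.erase a).filter fun k => S u k = -1 ∧ S v k = -1).card = 1 := by
      exact_mod_cast h2
    rw [← h3]
    exact fc fun x _ => Iff.rfl
  · intro u hu v hv hne hnr
    have h0 : S u v = 1 := by
      rcases h.pm u v hne with h1 | h1
      · exact h1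
      · exact absurd h1 hnr
    have h1 := common h hn (ne_of_mem_erase hu) (ne_of_mem_erase hv) hne
    rw [h0] at h1
    have h2 : ((((univ.erase a).filter fun k => S u k = -1 ∧ S v k = -1).card : ℕ) : ℤ) = 5 := by
      linarith
    have h3 : ((univ.erase a).filter fun k => S u k = -1 ∧ S v k = -1).card = 5 := by
      exact_mod_cast h2
    rw [← h3]
    exact fc fun x _ => Iff.rfl

end GQC

/-- **The graph of a Seidel matrix** with `S² = 6 S + 27`, switched at `a`. -/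
theorem GQC.Sei.gq {ι : Type*} [Fintype ι] [DecidableEq ι] {S : ι → ι → ℤ} (h : GQC.Sei S)
    (a : ι) : GQ (univ.erase a) fun b c => S a b * S b c * S a c = -1 := by
  classical
  set d : ι → ℤ := fun i => if i = a then 1 else S a i with hd
  have hda : d a = 1 := if_pos rfl
  have hdb : ∀ b, b ≠ a → d b = S a b := fun b hb => if_neg hb
  have hd2 : ∀ i, d i * d i = 1 := by
    intro i
    by_cases hi : i = a
    · rw [hi, hda]; norm_num
    · rw [hdb i hi]
      rcases h.pm a i (Ne.symm hi) with h1 | h1 <;> rw [h1] <;> norm_num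
  have hS : GQC.Sei fun i j => d i * S i j * d j := by
    refine ⟨h.card, fun i j => ?_, fun i => ?_, fun i j hij => ?_, fun i j => ?_⟩
    · rw [h.symm i j]; ring
    · rw [h.diag i]; ring
    · have e1 : d i = 1 ∨ d i = -1 := by
        have : (d i - 1) * (d i + 1) = 0 := by linear_combination hd2 i
        rcases mul_eq_zero.1 this with h1 | h1
        · left; linarith
        · right; linarith
      have e2 : d j = 1 ∨ d j = -1 := by
        have : (d j - 1) * (d j + 1) = 0 := by linear_combination hd2 j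
        rcases mul_eq_zero.1 this with h1 | h1
        · left; linarith
        · right; linarith
      rcases e1 with e1 | e1 <;> rcases e2 with e2 | e2 <;> rcases h.pm i j hij with e3 | e3 <;>
        rw [e1, e2, e3] <;> norm_num
    · have e1 : ∑ k, d i * S i k * d k * (d k * S k j * d j) =
          d i * d j * ∑ k, S i k * S k j := by
        rw [mul_sum]
        refine sum_congr rfl fun k _ => ?_
        linear_combination (d i * S i k * S k j * d j) * hd2 k
      rw [e1, h.sq i j]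
      by_cases hij : i = j
      · subst hij
        rw [if_pos rfl, h.diag]
        linear_combination 27 * hd2 i
      · rw [if_neg hij]; ring
  have hn : ∀ b, b ≠ a → d a * S a b * d b = 1 := by
    intro b hb
    rw [hda, hdb b hb]
    rcases h.pm a b (Ne.symm hb) with h1 | h1 <;> rw [h1] <;> norm_num
  have hg := GQC.gq_norm hS hn
  have hrel : ∀ b ∈ (univ.erase a : Finset ι), ∀ c ∈ (univ.erase a : Finset ι),
      (d b * S b c * d c = -1 ↔ S a b * S b c * S a c = -1) := by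
    intro b hb c hc
    rw [hdb b (ne_of_mem_erase hb), hdb c (ne_of_mem_erase hc)]
  refine ⟨hg.card, ?_, ?_, ?_, ?_, ?_⟩
  · intro u hu v hv huv
    exact (hrel v hv u hu).1 (hg.symm u hu v hv ((hrel u hu v hv).2 huv))
  · intro u hu huu
    exact hg.irr u hu ((hrel u hu u hu).2 huu)
  · intro u hu
    rw [← hg.deg u hu]
    exact GQC.fc fun w hw => (hrel u hu w hw).symm
  · intro u hu v hv huv
    rw [← hg.lam u hu v hv ((hrel u hu v hv).2 huv)]
    exact GQC.fc fun w hw => by rw [hrel u hu w hw, hrel v hv w hw]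
  · intro u hu v hv huv hne
    rw [← hg.mu u hu v hv huv fun h1 => hne ((hrel u hu v hv).1 h1)]
    exact GQC.fc fun w hw => by rw [hrel u hu w hw, hrel v hv w hw]

end Pool.Agent.Lib.MP_f1379f_gt.FV
end

section
/-!
# MP_f1379f_gt: a link whose Seidel matrix satisfies `S² = 6 S + 27` can be labelled
-/
set_option autoImplicit false

open Finset

namespace Pool.Agent.Lib.MP_f1379f_gt.FV

/-- Transport of the graph along a bijection. -/
theorem GQ.map {α β : Type*} {B : Finset α} {C : Finset β} {r : α → α → Prop}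
    {r' : β → β → Prop} (h : GQ B r) {ψ : α → β} (hψ : Set.BijOn ψ B C)
    (hr : ∀ u ∈ B, ∀ v ∈ B, (r u v ↔ r' (ψ u) (ψ v))) : GQ C r' := by
  classical
  have hC : C = B.image ψ := by
    ext y
    rw [mem_image]
    constructor
    · intro hy
      obtain ⟨x, hx, hxy⟩ := hψ.surjOn hy
      exact ⟨x, hx, hxy⟩
    · rintro ⟨x, hx, rfl⟩
      exact hψ.mapsTo hx
  have hcard : ∀ (P : α → Prop) (Q : β → Prop), (∀ x ∈ B, (P x ↔ Q (ψ x))) →
      (C.filter Q).card = (B.filter P).card := by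
    intro P Q hPQ
    have : C.filter Q = (B.filter P).image ψ := by
      ext y
      rw [mem_filter, mem_image, hC, mem_image]
      constructor
      · rintro ⟨⟨x, hx, rfl⟩, hy⟩
        exact ⟨x, mem_filter.2 ⟨hx, (hPQ x hx).2 hy⟩, rfl⟩
      · rintro ⟨x, hx, rfl⟩
        rw [mem_filter] at hx
        exact ⟨⟨x, hx.1, rfl⟩, (hPQ x hx.1).1 hx.2⟩
    rw [this, card_image_of_injOn]
    intro x hx y hy hxy
    exact hψ.injOn (mem_of_mem_filter x hx) (mem_of_mem_filter y hy) hxy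
  have hex : ∀ y ∈ C, ∃ x ∈ B, ψ x = y := fun y hy => hψ.surjOn hy
  refine ⟨?_, ?_, ?_, ?_, ?_, ?_⟩
  · rw [hC, card_image_of_injOn hψ.injOn, h.card]
  · intro u hu v hv huv
    obtain ⟨x, hx, rfl⟩ := hex u hu
    obtain ⟨y, hy, rfl⟩ := hex v hv
    exact (hr y hy x hx).1 (h.symm x hx y hy ((hr x hx y hy).2 huv))
  · intro u hu huu
    obtain ⟨x, hx, rfl⟩ := hex u hu
    exact h.irr x hx ((hr x hx x hx).2 huu)
  · intro u hu
    obtain ⟨x, hx, rfl⟩ := hex u hu
    rw [← h.deg x hx, ← hcard (fun w => r x w) (fun w => r' (ψ x) w) fun w hw => hr x hx w hw]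
  · intro u hu v hv huv
    obtain ⟨x, hx, rfl⟩ := hex u hu
    obtain ⟨y, hy, rfl⟩ := hex v hv
    rw [← h.lam x hx y hy ((hr x hx y hy).2 huv)]
    have h5 := hcard (fun w => r x w ∧ r y w)
      (fun w => r' (ψ x) w ∧ r' (ψ y) w) fun w hw => by rw [hr x hx w hw, hr y hy w hw]
    refine Eq.trans ?_ (h5.trans ?_)
    · exact GQC.fc fun _ _ => Iff.rfl
    · exact GQC.fc fun _ _ => Iff.rfl
  · intro u hu v hv huv hne
    obtain ⟨x, hx, rfl⟩ := hex u hu
    obtain ⟨y, hy, rfl⟩ := hex v hv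
    have hxy : x ≠ y := by
      rintro rfl
      exact huv rfl
    rw [← h.mu x hx y hy hxy fun h1 => hne ((hr x hx y hy).1 h1)]
    have h5 := hcard (fun w => r x w ∧ r y w)
      (fun w => r' (ψ x) w ∧ r' (ψ y) w) fun w hw => by rw [hr x hx w hw, hr y hy w hw]
    refine Eq.trans ?_ (h5.trans ?_)
    · exact GQC.fc fun _ _ => Iff.rfl
    · exact GQC.fc fun _ _ => Iff.rfl

/-- Representatives of the 28 pairs `{p, σ p}`. -/
structure Rep {α ι : Type*} (N : Finset α) (σ : α → α) (ρ : ι → α) : Prop where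
  mem : ∀ i, ρ i ∈ N
  inj : Function.Injective ρ
  ne : ∀ i j, ρ i ≠ σ (ρ j)
  all : ∀ p ∈ N, ∃ i, p = ρ i ∨ p = σ (ρ i)

/-- Representatives exist. -/
theorem Lnk.exists_rep {α : Type*} {N : Finset α} {s : α → α → ℝ} {σ : α → α}
    (h : Lnk N s σ) (hc : N.card = 56) : ∃ ρ : Fin 28 → α, Rep N σ ρ := by
  classical
  obtain ⟨f, f1, f2, f3, f4⟩ := GQA.pairing 28 N σ (by rw [hc]) (fun a ha => (h.inv a ha).1)
    (fun a ha => (h.inv a ha).2.1) (fun a ha => (h.inv a ha).2.2)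
  refine ⟨fun i => f i false, fun i => f1 i false, fun i j hij => (f3 _ _ _ _ hij).1, ?_, ?_⟩
  · intro i j hij
    rw [f4] at hij
    exact absurd (f3 _ _ _ _ hij).2 (by simp)
  · intro p hp
    obtain ⟨i, b, rfl⟩ := f2 p hp
    refine ⟨i, ?_⟩
    cases b
    · exact Or.inl rfl
    · right
      rw [f4]
      rfl

open Classical in
/-- The Seidel matrix of a system of representatives. -/
noncomputable def seid {α ι : Type*} (s : α → α → ℝ) (ρ : ι → α) : ι → ι → ℤ :=
  fun i j => if i = j then 0 else if s (ρ i) (ρ j) = 1 / 2 then 1 else -1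

section
variable {α ι : Type*} {N : Finset α} {s : α → α → ℝ} {σ : α → α} {ρ : ι → α}

lemma seid_diag (i : ι) : seid s ρ i i = 0 := by
  unfold seid
  rw [if_pos rfl]

lemma seid_pm {i j : ι} (hij : i ≠ j) :
    (seid s ρ i j = 1 ∧ s (ρ i) (ρ j) = 1 / 2) ∨
      (seid s ρ i j = -1 ∧ s (ρ i) (ρ j) ≠ 1 / 2) := by
  unfold seid
  rw [if_neg hij]
  by_cases h : s (ρ i) (ρ j) = 1 / 2
  · rw [if_pos h]
    exact Or.inl ⟨rfl, h⟩
  · rw [if_neg h]
    exact Or.inr ⟨rfl, h⟩

variable (h : Lnk N s σ) (hρ : Rep N σ ρ)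
include h hρ

lemma seid_symm (i j : ι) : seid s ρ i j = seid s ρ j i := by
  unfold seid
  by_cases hij : i = j
  · rw [if_pos hij, if_pos hij.symm]
  · have hji : ¬ j = i := fun h1 => hij h1.symm
    rw [if_neg hij, if_neg hji, h.symm _ (hρ.mem i) _ (hρ.mem j)]

lemma seid_val {i j : ι} (hij : i ≠ j) :
    (seid s ρ i j = 1 ∧ s (ρ i) (ρ j) = 1 / 2) ∨ (seid s ρ i j = -1 ∧ s (ρ i) (ρ j) = 0) := by
  rcases seid_pm (s := s) (ρ := ρ) hij with h1 | h1
  · exact Or.inl h1
  · rcases h.val _ (hρ.mem i) _ (hρ.mem j) (fun h2 => hij (hρ.inj h2).symm)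
      (hρ.ne j i) with h2 | h2
    · exact absurd h2 h1.2
    · exact Or.inr ⟨h1.1, h2⟩

end

/-- mixed products -/
lemma Lnk.mixed {α : Type*} {N : Finset α} {s : α → α → ℝ} {σ : α → α} (h : Lnk N s σ) {b c : α}
    (hb : b ∈ N) (hc : c ∈ N) (hbc : c ≠ b) (hcb : c ≠ σ b) :
    s b (σ c) = 1 / 2 - s b c ∧ s (σ b) c = 1 / 2 - s b c ∧ s (σ b) (σ c) = s b c := by
  obtain ⟨g1, g2, g3⟩ := h.inv b hb
  obtain ⟨k1, k2, k3⟩ := h.inv c hc
  have h1 := h.sum b hb c hc hbc hcb
  have hbc' : b ≠ σ c := by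
    intro h2
    apply hcb
    rw [h2, k2]
  have h2 := h.sum c hc b hb (Ne.symm hbc) hbc'
  have h3 := h.symm c hc b hb
  have h4 := h.symm c hc (σ b) g1
  have h5 := h.sum (σ b) g1 c hc hcb (by rw [g2]; exact hbc)
  refine ⟨by linarith, by linarith, by linarith⟩

/-- **From the Seidel matrix to the graph.** -/
theorem Lnk.gq {α ι : Type*} [Fintype ι] [DecidableEq ι] {N : Finset α} {s : α → α → ℝ}
    {σ : α → α} {ρ : ι → α} (h : Lnk N s σ) (hρ : Rep N σ ρ) (hS : GQC.Sei (seid s ρ))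
    (hd : ∀ p ∈ N, s p p ≠ 0) (i₀ : ι) :
    GQ (lB N s (ρ i₀)) fun b c => s b c = 0 := by
  classical
  set a := ρ i₀ with ha'
  have ha : a ∈ N := hρ.mem i₀
  set ψ : ι → α := fun j => if seid s ρ i₀ j = 1 then ρ j else σ (ρ j) with hψ
  have σN : ∀ j, σ (ρ j) ∈ N ∧ σ (σ (ρ j)) = ρ j := fun j =>
    ⟨(h.inv _ (hρ.mem j)).1, (h.inv _ (hρ.mem j)).2.1⟩
  -- the two cases
  have C : ∀ j, j ≠ i₀ → (seid s ρ i₀ j = 1 ∧ ψ j = ρ j ∧ ρ j ∈ lB N s a) ∨
      (seid s ρ i₀ j = -1 ∧ ψ j = σ (ρ j) ∧ σ (ρ j) ∈ lB N s a) := by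
    intro j hj
    have hne : ρ j ≠ a := fun h1 => hj (hρ.inj h1)
    have hne' : ρ j ≠ σ a := hρ.ne j i₀
    rcases seid_val h hρ (Ne.symm hj) with ⟨h1, h2⟩ | ⟨h1, h2⟩
    · left
      refine ⟨h1, ?_, GQD.mem_lB.2 ⟨hρ.mem j, hne, h2⟩⟩
      rw [hψ]
      simp only
      rw [if_pos h1]
    · right
      refine ⟨h1, ?_, GQD.mem_lB.2 ⟨(σN j).1, (hρ.ne i₀ j).symm, ?_⟩⟩
      · rw [hψ]
        simp only
        rw [if_neg]
        rw [h1]
        norm_num
      · have := h.sum a ha (ρ j) (hρ.mem j) hne hne'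
        rw [h2, zero_add] at this
        exact this
  refine (hS.gq i₀).map (ψ := ψ) ⟨?_, ?_, ?_⟩ ?_
  · intro j hj
    rw [Finset.mem_coe] at hj ⊢
    rcases C j (ne_of_mem_erase hj) with ⟨-, h2, h3⟩ | ⟨-, h2, h3⟩ <;> rw [h2] <;> exact h3
  · intro j hj k hk hjk
    rw [Finset.mem_coe] at hj hk
    rcases C j (ne_of_mem_erase hj) with ⟨-, h2, -⟩ | ⟨-, h2, -⟩ <;>
      rcases C k (ne_of_mem_erase hk) with ⟨-, h4, -⟩ | ⟨-, h4, -⟩ <;> rw [h2, h4] at hjk
    · exact hρ.inj hjk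
    · exact absurd hjk (hρ.ne j k)
    · exact absurd hjk.symm (hρ.ne k j)
    · apply hρ.inj
      rw [← (σN j).2, ← (σN k).2, hjk]
  · intro p hp
    rw [Finset.mem_coe] at hp
    obtain ⟨p0, p1, p2⟩ := GQD.mem_lB.1 hp
    obtain ⟨j, hj⟩ := hρ.all p p0
    have hji : j ≠ i₀ := by
      rintro rfl
      rcases hj with hj | hj
      · exact p1 hj
      · rw [hj, h.par a ha] at p2
        norm_num at p2
    refine ⟨j, by rw [Finset.mem_coe]; exact mem_erase.2 ⟨hji, mem_univ j⟩, ?_⟩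
    rcases C j hji with ⟨-, h2, h3⟩ | ⟨-, h2, h3⟩
    · rcases hj with hj | hj
      · rw [h2, hj]
      · exfalso
        have h4 := GQD.s_aσb h ha h3
        rw [← hj, p2] at h4
        norm_num at h4
    · rcases hj with hj | hj
      · exfalso
        have h4 := GQD.s_aσb h ha hp
        rw [hj, (GQD.mem_lB.1 h3).2.2] at h4
        norm_num at h4
      · rw [h2, hj]
  · intro j hj k hk
    have hji := ne_of_mem_erase hj
    have hki := ne_of_mem_erase hk
    by_cases hjk : j = k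
    · subst hjk
      rw [seid_diag]
      constructor
      · intro h1
        norm_num at h1
      · intro h1
        exfalso
        rcases C j hji with ⟨-, -, h3⟩ | ⟨-, h2, h3⟩
        · have h4 : ψ j ∈ N := by
            rcases C j hji with ⟨-, h5, -⟩ | ⟨-, h5, -⟩ <;> rw [h5]
            · exact hρ.mem j
            · exact (σN j).1
          exact hd _ h4 h1
        · exact hd _ (by rw [h2]; exact (σN j).1) h1
    · have n1 : ρ k ≠ ρ j := fun h1 => hjk (hρ.inj h1).symm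
      have n2 : ρ k ≠ σ (ρ j) := hρ.ne k j
      obtain ⟨m1, m2, m3⟩ := h.mixed (hρ.mem j) (hρ.mem k) n1 n2
      rcases C j hji with ⟨s1, e1, -⟩ | ⟨s1, e1, -⟩ <;>
        rcases C k hki with ⟨s2, e2, -⟩ | ⟨s2, e2, -⟩ <;>
        rcases seid_val h hρ hjk with ⟨s3, e3⟩ | ⟨s3, e3⟩ <;>
        rw [s1, s2, s3, e1, e2] <;>
        first
          | rw [e3]; norm_num
          | rw [m1, e3]; norm_num
          | rw [m2, e3]; norm_num
          | rw [m3, e3]; norm_num

/-- **Labelling from the Seidel matrix.** -/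
theorem Lnk.label_seidel {α ι : Type*} [Fintype ι] [DecidableEq ι] {N : Finset α}
    {s : α → α → ℝ} {σ : α → α} {ρ : ι → α} (h : Lnk N s σ) (hU : SpecUEF) (hρ : Rep N σ ρ)
    (hS : GQC.Sei (seid s ρ)) (hd : ∀ p ∈ N, s p p ≠ 0) {x : E} (hx : x ∈ UE) :
    ∃ φ : α → E, Set.BijOn φ N (nb x) ∧ (∀ p ∈ N, φ (σ p) = x - φ p) ∧
      ∀ p ∈ N, ∀ q ∈ N, p ≠ q → (inner ℝ (φ p) (φ q) : ℝ) = s p q := by
  have hne : Nonempty ι := by
    rw [← Fintype.card_pos_iff, hS.card]
    norm_num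
  obtain ⟨i₀⟩ := hne
  have hnb : (nb x).Nonempty := by
    rw [← card_pos, hU.c56 x hx]
    norm_num
  obtain ⟨e, he⟩ := hnb
  obtain ⟨φ, h1, -, h2, h3⟩ := h.label hU (hρ.mem i₀) (h.gq hρ hS hd i₀) hx he
  exact ⟨φ, h1, h2, h3⟩

end Pool.Agent.Lib.MP_f1379f_gt.FV
end

section
/-!
# MP_f1379f_gt, STAB1: the link of a good centre is labelled by the 56 neighbours of a root
-/
set_option autoImplicit false

namespace Pool.Agent.Lib.MP_f1379f_gt.FV

open Finset

namespace LKLM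

section
variable {α : Type} {p : α → V7} {σ : α → α}

theorem yv_flip {b : α} (hb : σ (σ b) = b) : yv p σ (σ b) = - yv p σ b := by
  unfold yv
  rw [hb, ← smul_neg, neg_sub]

end

variable {α : Type} [DecidableEq α] {N : Finset α} {p : α → V7} {C : Finset (α × α)} {σ : α → α}

open Classical in
/-- Rounded products. -/
noncomputable def sv (p : α → V7) (σ : α → α) (b c : α) : ℝ :=
  if b = c then 1 else if c = σ b then -1 / 2 else
    if 0 < (inner ℝ (yv p σ b) (yv p σ c) : ℝ) then 1 / 2 else 0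

theorem lnk (hA : AN N p σ)
    (hamb : ∀ b ∈ N, ∀ c ∈ N, c ≠ b → c ≠ σ b → (inner ℝ (yv p σ b) (yv p σ c) : ℝ) ≠ 0) :
    Lnk N (sv p σ) σ where
  inv := hA.inv
  symm := by
    intro b hb c hc
    have h1 := (hA.inv b hb).2.1
    have h2 := (hA.inv c hc).2.1
    unfold sv
    by_cases hbc : b = c
    · rw [hbc]
    rw [if_neg hbc, if_neg (Ne.symm hbc), real_inner_comm]
    by_cases h3 : c = σ b
    · rw [if_pos h3, if_pos (by rw [h3, h1])]
    · have h4 : b ≠ σ c := fun h4 => h3 (by rw [h4, h2])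
      rw [if_neg h3, if_neg h4]
  par := by
    intro b hb
    unfold sv
    rw [if_neg (Ne.symm (hA.inv b hb).2.2), if_pos rfl]
  val := by
    intro b _ c _ hcb hcs
    unfold sv
    rw [if_neg (Ne.symm hcb), if_neg hcs]
    by_cases h : 0 < (inner ℝ (yv p σ b) (yv p σ c) : ℝ)
    · left; rw [if_pos h]
    · right; rw [if_neg h]
  sum := by
    intro b hb c hc hcb hcs
    have h1 := (hA.inv b hb).2.1
    have h2 := (hA.inv c hc).2.1
    have h3 := hamb b hb c hc hcb hcs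
    have h4 : b ≠ σ c := fun h => hcs (by rw [h, h2])
    have h5 : σ c ≠ σ b := fun h => hcb (by rw [← h2, h, h1])
    unfold sv
    rw [if_neg (Ne.symm hcb), if_neg hcs, if_neg h4, if_neg h5, yv_flip h2, inner_neg_right]
    by_cases h : 0 < (inner ℝ (yv p σ b) (yv p σ c) : ℝ)
    · rw [if_pos h, if_neg (by linarith)]; norm_num
    · have : (inner ℝ (yv p σ b) (yv p σ c) : ℝ) < 0 := lt_of_le_of_ne (not_lt.mp h) h3
      rw [if_neg h, if_pos (by linarith)]; norm_num

theorem sei (h : LK N p C (418 / 100) (3 / 10)) (hA : AN N p σ)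
    (hamb : ∀ b ∈ N, ∀ c ∈ N, c ≠ b → c ≠ σ b → (inner ℝ (yv p σ b) (yv p σ c) : ℝ) ≠ 0)
    {ρ : Fin 28 → α} (hρ : Rep N σ ρ) : GQC.Sei (seid (sv p σ) ρ) := by
  have hL := lnk hA hamb
  have hval : ∀ i j, ((seid (sv p σ) ρ i j : ℤ) : ℝ) =
      if j = i then 0 else sg p σ (ρ i) (ρ j) := by
    intro i j
    by_cases hij : i = j
    · rw [hij, seid_diag, if_pos rfl]; norm_num
    · rw [if_neg (Ne.symm hij)]
      have h1 : sv p σ (ρ i) (ρ j) = if 0 < (inner ℝ (yv p σ (ρ i)) (yv p σ (ρ j)) : ℝ)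
          then 1 / 2 else 0 := by
        unfold sv
        rw [if_neg (fun h => hij (hρ.inj h)), if_neg (hρ.ne j i)]
      unfold sg
      rcases seid_val (h := hL) (hρ := hρ) hij with ⟨h2, h3⟩ | ⟨h2, h3⟩
      · rw [h2]
        rw [h1] at h3
        by_cases h4 : 0 < (inner ℝ (yv p σ (ρ i)) (yv p σ (ρ j)) : ℝ)
        · rw [if_pos h4]; norm_num
        · rw [if_neg h4] at h3; norm_num at h3
      · rw [h2]
        rw [h1] at h3
        by_cases h4 : 0 < (inner ℝ (yv p σ (ρ i)) (yv p σ (ρ j)) : ℝ)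
        · rw [if_pos h4] at h3; norm_num at h3
        · rw [if_neg h4]; norm_num
  have hK : (univ.image ρ) ⊆ N := by
    intro b hb
    obtain ⟨i, _, rfl⟩ := mem_image.mp hb
    exact hρ.mem i
  have hK2 : ∀ b ∈ N, (b ∈ univ.image ρ ∧ σ b ∉ univ.image ρ) ∨
      (b ∉ univ.image ρ ∧ σ b ∈ univ.image ρ) := by
    intro b hb
    obtain ⟨i, hi⟩ := hρ.all b hb
    rcases hi with rfl | rfl
    · left
      refine ⟨mem_image_of_mem _ (mem_univ i), fun h1 => ?_⟩
      obtain ⟨j, _, hj⟩ := mem_image.mp h1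
      exact hρ.ne j i hj
    · right
      refine ⟨fun h1 => ?_, ?_⟩
      · obtain ⟨j, _, hj⟩ := mem_image.mp h1
        exact hρ.ne j i hj
      · rw [(hA.inv _ (hρ.mem i)).2.1]
        exact mem_image_of_mem _ (mem_univ i)
  have h1 := specSPC (specLIN specLPI specKER7) N p C σ h hA (univ.image ρ) hK hK2
  rw [sum_image (fun i _ j _ hij => hρ.inj hij)] at h1
  have h2 : ∑ i, ∑ j, (∑ k, seid (sv p σ) ρ i k * seid (sv p σ) ρ k j - 6 * seid (sv p σ) ρ i j
      - (if i = j then 27 else 0)) ^ 2 < 384 := by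
    have h3 : ((∑ i, ∑ j, (∑ k, seid (sv p σ) ρ i k * seid (sv p σ) ρ k j
        - 6 * seid (sv p σ) ρ i j - (if i = j then 27 else 0)) ^ 2 : ℤ) : ℝ) < 384 := by
      push_cast
      refine lt_of_eq_of_lt ?_ h1
      refine sum_congr rfl fun i _ => ?_
      rw [sum_image (fun i _ j _ hij => hρ.inj hij)]
      refine sum_congr rfl fun j _ => ?_
      rw [sum_image (fun i _ j _ hij => hρ.inj hij)]
      have e1 : ∀ a b : Fin 28, (ρ a = ρ b) = (a = b) := fun a b => by
        rw [hρ.inj.eq_iff]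
      simp only [e1, hval]
      congr 2
      · congr 1
        · refine sum_congr rfl fun k _ => ?_
          by_cases hk : k = j
          · rw [if_pos hk, if_pos hk.symm]
          · rw [if_neg hk, if_neg (Ne.symm hk)]
        · by_cases hk : i = j
          · rw [if_pos hk, if_pos hk.symm]
          · rw [if_neg hk, if_neg (Ne.symm hk)]
    exact_mod_cast h3
  have h4 := specINT (seid (sv p σ) ρ) (by simp) (seid_symm (h := hL) (hρ := hρ))
    seid_diag (fun i j hij => by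
      rcases seid_pm (s := sv p σ) (ρ := ρ) hij with h | h
      · exact Or.inl h.1
      · exact Or.inr h.1) h2
  exact ⟨by simp, seid_symm (h := hL) (hρ := hρ), seid_diag, fun i j hij => by
      rcases seid_pm (s := sv p σ) (ρ := ρ) hij with h | h
      · exact Or.inl h.1
      · exact Or.inr h.1, h4⟩

end LKLM

open LKLM in
/-- **The link is labelled by the neighbours of a root.** -/
theorem link_label (hU : SpecUEF) {α : Type} [DecidableEq α] {N : Finset α} {p : α → V7}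
    {C : Finset (α × α)} (h : LK N p C (418 / 100) (3 / 10)) {x : E} (hx : x ∈ UE) :
    ∃ (σ : α → α) (φ : α → E), AN N p σ ∧ Set.BijOn φ N (nb x) ∧ (∀ b ∈ N, φ (σ b) = x - φ b) ∧
      ∀ b ∈ N, ∀ c ∈ N, c ≠ b → c ≠ σ b →
        (0 < (inner ℝ (yv p σ b) (yv p σ c) : ℝ) ∧ (inner ℝ (φ b) (φ c) : ℝ) = 1 / 2) ∨
        ((inner ℝ (yv p σ b) (yv p σ c) : ℝ) < 0 ∧ (inner ℝ (φ b) (φ c) : ℝ) = 0) := by
  obtain ⟨σ, hA⟩ := specANT specKER7 N p C h
  have hamb := (specLIN specLPI specKER7).amb N p C σ h hA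
  have hL := lnk hA hamb
  obtain ⟨ρ, hρ⟩ := hL.exists_rep h.card
  obtain ⟨φ, h1, h2, h3⟩ := hL.label_seidel hU hρ (sei h hA hamb hρ) (fun b _ => by
    unfold sv
    rw [if_pos rfl]; norm_num) hx
  refine ⟨σ, φ, hA, h1, h2, fun b hb c hc hcb hcs => ?_⟩
  have h4 := h3 b hb c hc (Ne.symm hcb)
  unfold sv at h4
  rw [if_neg (Ne.symm hcb), if_neg hcs] at h4
  by_cases h5 : 0 < (inner ℝ (yv p σ b) (yv p σ c) : ℝ)
  · left
    rw [if_pos h5] at h4
    exact ⟨h5, h4⟩
  · right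
    rw [if_neg h5] at h4
    exact ⟨lt_of_le_of_ne (not_lt.mp h5) (hamb b hb c hc hcb hcs), h4⟩

end Pool.Agent.Lib.MP_f1379f_gt.FV
end

section
/-!
# MP_f1379f_gt, STAB1: Gram error of the labelled link

Hat scale.  The Gram matrix of the 56 unit vectors of a link with budget `B` differs from the Gram matrix
of the labels by at most `3/4 B + 24/2500 B^2` in square sum.
-/
set_option autoImplicit false

namespace Pool.Agent.Lib.MP_f1379f_gt.FV

open Finset

theorem LK.mono {α : Type} [DecidableEq α] {N : Finset α} {p : α → V7} {C : Finset (α × α)}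
    {B B' cA cA' : ℝ} (h : LK N p C B cA) (hB : B ≤ B') (hc : cA ≤ cA') : LK N p C B' cA' :=
  ⟨h.card, h.unit, h.symm, h.up, h.con, h.non, h.bud.trans hB, h.ccA.trans hc⟩

/-- The target of an inner product, hat scale. -/
noncomputable def tst {α : Type} (φ : α → E) (b c : α) : ℝ :=
  (4 * (inner ℝ (φ b) (φ c) : ℝ) - 1) / 3

namespace LKGM

/-- The final numerical step. -/
theorem numer {GO e2 Z0 a b r d B : ℝ} (hGO : 0 ≤ GO) (hZ : 0 ≤ Z0)
    (hbud : GO + 427 / 10 * Z0 + 228 / 11 * e2 ≤ B)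
    (ha2 : a ^ 2 = 7 / 160 * GO) (hb2 : b ^ 2 = e2)
    (hd0 : 0 ≤ d) (hd : d ≤ a + Z0) (hr : r ≤ 1 / 2 * b + Z0) :
    4 * d ^ 2 + 4 * Z0 ^ 2 + 8 * ((4 + r) * Z0) ≤ 3 / 4 * B + 24 / 2500 * B ^ 2 := by
  have h1 : d ^ 2 ≤ (a + Z0) ^ 2 := pow_le_pow_left₀ hd0 hd 2
  have h2 : (4 + r) * Z0 ≤ (4 + (1 / 2 * b + Z0)) * Z0 :=
    mul_le_mul_of_nonneg_right (by linarith) hZ
  have h3 : GO = 160 / 7 * a ^ 2 := by linarith
  have h4 : 427 / 10 * Z0 ≤ B := by
    have := sq_nonneg b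
    linarith
  have h5 : (427 / 10 * Z0) ^ 2 ≤ B ^ 2 := pow_le_pow_left₀ (by positivity) h4 2
  have h6 : 8 * a * Z0 ≤ 13 * a ^ 2 + 16 / 13 * Z0 ^ 2 := by
    nlinarith [sq_nonneg (13 * a - 4 * Z0)]
  have h7 : 4 * b * Z0 ≤ 15 * b ^ 2 + 4 / 15 * Z0 ^ 2 := by
    nlinarith [sq_nonneg (15 * b - 2 * Z0)]
  have h8 : 160 / 7 * a ^ 2 + 427 / 10 * Z0 + 228 / 11 * b ^ 2 ≤ B := by
    rw [h3, ← hb2] at hbud; exact hbud
  nlinarith [sq_nonneg a, sq_nonneg b, sq_nonneg Z0]

end LKGM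

open SPCM Matrix in
/-- **Gram error of the labelled link.** -/
theorem link_gram {α : Type} [DecidableEq α] {N : Finset α} {p : α → V7} {C : Finset (α × α)}
    {B : ℝ} (h : LK N p C B (3 / 10)) (hB : B ≤ 418 / 100) {σ : α → α} (hA : AN N p σ)
    {φ : α → E} {x : E} (h1φ : ∀ b ∈ N, ‖φ b‖ = 1)
    (hxφ : ∀ b ∈ N, (inner ℝ x (φ b) : ℝ) = 1 / 2) (hσφ : ∀ b ∈ N, φ (σ b) = x - φ b)
    (hφ : ∀ b ∈ N, ∀ c ∈ N, c ≠ b → c ≠ σ b →
      (0 < (inner ℝ (yv p σ b) (yv p σ c) : ℝ) ∧ (inner ℝ (φ b) (φ c) : ℝ) = 1 / 2) ∨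
      ((inner ℝ (yv p σ b) (yv p σ c) : ℝ) < 0 ∧ (inner ℝ (φ b) (φ c) : ℝ) = 0)) :
    ∑ b ∈ N, ∑ c ∈ N, ((inner ℝ (p b) (p c) : ℝ) - tst φ b c) ^ 2 ≤
      3 / 4 * B + 24 / 2500 * B ^ 2 := by
  have hL : LK N p C (418 / 100) (3 / 10) := h.mono hB le_rfl
  -- representatives
  have hLn := LKLM.lnk hA ((specLIN specLPI specKER7).amb N p C σ hL hA)
  obtain ⟨ρ, hρ⟩ := hLn.exists_rep h.card
  obtain ⟨K, hKN, hex⟩ : ∃ K ⊆ N, ∀ b ∈ N, (b ∈ K ∧ σ b ∉ K) ∨ (b ∉ K ∧ σ b ∈ K) := by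
    refine ⟨univ.image ρ, ?_, ?_⟩
    · intro b hb
      obtain ⟨i, _, rfl⟩ := mem_image.mp hb
      exact hρ.mem i
    · intro b hb
      obtain ⟨i, hi⟩ := hρ.all b hb
      rcases hi with rfl | rfl
      · left
        refine ⟨mem_image_of_mem _ (mem_univ i), fun h1 => ?_⟩
        obtain ⟨j, _, hj⟩ := mem_image.mp h1
        exact hρ.ne j i hj
      · right
        refine ⟨fun h1 => ?_, ?_⟩
        · obtain ⟨j, _, hj⟩ := mem_image.mp h1
          exact hρ.ne j i hj
        · rw [(hA.inv _ (hρ.mem i)).2.1]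
          exact mem_image_of_mem _ (mem_univ i)
  have hLIN : SpecLIN := specLIN specLPI specKER7
  -- basic facts
  have hinv := hA.inv
  have hσK : ∀ k ∈ K, σ k ∉ K := by
    intro k hk
    rcases hex k (hKN hk) with h | h
    · exact h.2
    · exact absurd hk h.1
  have hne : ∀ k ∈ K, k ≠ σ k := fun k hk h => (hinv k (hKN hk)).2.2 h.symm
  have hyz : ∀ b, p b = yv p σ b + zv p σ b := by
    intro b
    simp only [yv, zv]
    module
  have hyz' : ∀ b, p (σ b) = zv p σ b - yv p σ b := by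
    intro b
    simp only [yv, zv]
    module
  have hz : ∀ k ∈ K, ‖zv p σ k‖ ^ 2 = (1 + inner ℝ (p k) (p (σ k))) / 2 := by
    intro k hk
    rw [← real_inner_self_eq_norm_sq]
    simp only [zv, inner_smul_left, inner_smul_right, inner_add_left, inner_add_right]
    have h1 := hL.unit k (hKN hk)
    have h2 := hL.unit (σ k) (hinv k (hKN hk)).1
    have h3 : (inner ℝ (p k) (p k) : ℝ) = 1 := by rw [real_inner_self_eq_norm_sq, h1, one_pow]
    have h4 : (inner ℝ (p (σ k)) (p (σ k)) : ℝ) = 1 := by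
      rw [real_inner_self_eq_norm_sq, h2, one_pow]
    rw [h3, h4, real_inner_comm (p k) (p (σ k))]
    simp only [map_div₀, map_one, conj_trivial]
    ring
  have hy : ∀ k ∈ K, (inner ℝ (yv p σ k) (yv p σ k) : ℝ) = 1 - ‖zv p σ k‖ ^ 2 := by
    intro k hk
    rw [hz k hk]
    simp only [yv, inner_smul_left, inner_smul_right, inner_sub_left, inner_sub_right]
    have h1 := hL.unit k (hKN hk)
    have h2 := hL.unit (σ k) (hinv k (hKN hk)).1
    have h3 : (inner ℝ (p k) (p k) : ℝ) = 1 := by rw [real_inner_self_eq_norm_sq, h1, one_pow]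
    have h4 : (inner ℝ (p (σ k)) (p (σ k)) : ℝ) = 1 := by
      rw [real_inner_self_eq_norm_sq, h2, one_pow]
    rw [h3, h4, real_inner_comm (p k) (p (σ k))]
    simp only [conj_trivial]
    ring
  -- costs
  set GA : ℝ := ∑ k ∈ K, HH p C σ k k with hGAdef
  set GO : ℝ := ∑ k ∈ K, ∑ l ∈ K, (if k = l then 0 else HH p C σ k l) with hGOdef
  set eps : ℝ := ∑ b ∈ N, ∑ c ∈ N, (inner ℝ (p b) (p c) : ℝ) ^ 2 - 448 with hepsdef
  set Z0 : ℝ := ∑ k : K, ‖zv p σ k‖ ^ 2 with hZ0def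
  have hHH0 : ∀ k ∈ K, ∀ l ∈ K, 0 ≤ HH p C σ k l := by
    intro k hk l hl
    have h1 := gg_nonneg hL (hKN hk) (hKN hl)
    have h2 := gg_nonneg hL (hKN hk) (hinv l (hKN hl)).1
    have h3 := gg_nonneg hL (hinv k (hKN hk)).1 (hKN hl)
    have h4 := gg_nonneg hL (hinv k (hKN hk)).1 (hinv l (hKN hl)).1
    unfold HH
    linarith
  have htot : ∑ k ∈ K, ∑ l ∈ K, HH p C σ k l = GO + GA := by
    rw [hGOdef, hGAdef, ← Finset.sum_add_distrib]
    refine Finset.sum_congr rfl fun k hk => ?_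
    have h1 : HH p C σ k k = ∑ l ∈ K, if k = l then HH p C σ k l else 0 := by
      rw [Finset.sum_ite_eq, if_pos hk]
    rw [h1, ← Finset.sum_add_distrib]
    refine Finset.sum_congr rfl fun l _ => ?_
    split_ifs <;> ring
  have hbud := h.bud
  rw [total hKN hinv hex, htot] at hbud
  have hGO0 : 0 ≤ GO := by
    refine Finset.sum_nonneg fun k hk => Finset.sum_nonneg fun l hl => ?_
    split_ifs
    · exact le_rfl
    · exact hHH0 k hk l hl
  have hZ00 : 0 ≤ Z0 := Finset.sum_nonneg fun _ _ => sq_nonneg _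
  have hnC : ∀ b ∈ N, ∀ c ∈ N, b ≠ c → (inner ℝ (p b) (p c) : ℝ) ≤ -9 / 10 → (b, c) ∉ C := by
    intro b hb c hc hbc ht hC
    have := hL.con b hb c hc hbc hC
    linarith
  have hGA : 427 / 10 * Z0 ≤ GA := by
    rw [hZ0def, Finset.sum_coe_sort K (fun k => ‖zv p σ k‖ ^ 2), hGAdef, Finset.mul_sum]
    refine Finset.sum_le_sum fun k hk => ?_
    have hkN := hKN hk
    have hi := hinv k hkN
    have ht := hA.near k hkN
    have hC1 := hnC k hkN (σ k) hi.1 (hne k hk) ht
    have hC2 := hnC (σ k) hi.1 k hkN (hne k hk).symm (by rw [real_inner_comm]; exact ht)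
    rw [HH_diag (hne k hk) hC1 hC2]
    set x := ‖zv p σ k‖ ^ 2 with hx
    have hx1 := hz k hk
    rw [← hx] at hx1
    have hx0 : 0 ≤ x := sq_nonneg _
    have hx2 : x ≤ 1 / 20 := by linarith
    have hx3 : (inner ℝ (p k) (p (σ k)) : ℝ) = -1 + 2 * x := by linarith
    rw [hx3, G7]
    have h1 : (1 - 3 * (-1 + 2 * x)) * (1 + (-1 + 2 * x)) * (1 + 3 * (-1 + 2 * x)) ^ 2 =
        x * (2 * (4 - 6 * x) * (2 - 6 * x) ^ 2) := by ring
    rw [h1]
    have h2 : (37 / 10 : ℝ) * (289 / 100) ≤ (4 - 6 * x) * (2 - 6 * x) ^ 2 := by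
      have h3 : (289 / 100 : ℝ) ≤ (2 - 6 * x) ^ 2 := by nlinarith
      have h4 : (37 / 10 : ℝ) ≤ 4 - 6 * x := by linarith
      exact mul_le_mul h4 h3 (by norm_num) (by linarith)
    nlinarith [mul_le_mul_of_nonneg_left h2 hx0]
  have heps0 : 0 ≤ eps := by
    rw [hepsdef, ← frame N p hL.unit hL.card]
    exact F2_nonneg _
  -- matrices
  set Y : Matrix K (Fin 7) ℝ := Matrix.of fun k i => yv p σ k i with hY
  set Z : Matrix K (Fin 7) ℝ := Matrix.of fun k i => zv p σ k i with hZ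
  set S : Matrix K K ℝ := Matrix.of fun k l => if k = l then 0 else sg p σ k l with hS
  set D : Matrix K K ℝ := Y * Yᵀ - 1 - (1 / 3 : ℝ) • S with hD
  set X := Yᵀ * Y - (4 : ℝ) • (1 : Matrix (Fin 7) (Fin 7) ℝ) with hX
  have hGam : ∀ k l : K, (Y * Yᵀ) k l = inner ℝ (yv p σ k) (yv p σ l) := by
    intro k l
    rw [inner_eq, Matrix.mul_apply]
    rfl
  -- the bound for D
  set A1 : Matrix K K ℝ := Matrix.of fun k l => if k = l then 0 else
    -(sg p σ k l) * (1 / 3 - |(inner ℝ (yv p σ k) (yv p σ l) : ℝ)| +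
      inner ℝ (zv p σ k) (zv p σ l)) with hA1
  set A2 : Matrix K K ℝ := Matrix.of fun k l => if k = l then -‖zv p σ k‖ ^ 2 else
    sg p σ k l * inner ℝ (zv p σ k) (zv p σ l) with hA2
  have hsg2 : ∀ k l : α, sg p σ k l ^ 2 = 1 := by
    intro k l
    unfold sg
    split_ifs <;> norm_num
  have hDA : D = A1 + A2 := by
    ext k l
    rw [hD, Matrix.sub_apply, Matrix.sub_apply, hGam, Matrix.add_apply, hA1, hA2, Matrix.of_apply,
      Matrix.of_apply, Matrix.smul_apply, hS, Matrix.of_apply, Matrix.one_apply]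
    by_cases h : k = l
    · subst h
      rw [if_pos rfl, if_pos rfl, if_pos rfl, if_pos rfl, hy k k.2]
      simp
    · rw [if_neg h, if_neg h, if_neg h, if_neg h]
      unfold sg
      split_ifs with h1
      · rw [abs_of_pos h1, smul_eq_mul]
        ring
      · rw [abs_of_nonpos (not_lt.1 h1), smul_eq_mul]
        ring
  have hF1 : F2 A1 ≤ 7 / 160 * GO := by
    rw [F2, hGOdef, ← Finset.sum_coe_sort K (fun k => ∑ l ∈ K, if k = l then 0 else HH p C σ k l),
      Finset.mul_sum]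
    refine Finset.sum_le_sum fun k _ => ?_
    rw [← Finset.sum_coe_sort K (fun l => if (k : α) = l then 0 else HH p C σ k l), Finset.mul_sum]
    refine Finset.sum_le_sum fun l _ => ?_
    rw [hA1, Matrix.of_apply]
    by_cases h : k = l
    · rw [if_pos h, if_pos (congrArg Subtype.val h)]
      simp
    · have h' : (k : α) ≠ l := fun h1 => h (Subtype.ext h1)
      rw [if_neg h, if_neg h', mul_pow, neg_sq, hsg2, one_mul]
      have hk := hKN k.2
      have hl := hKN l.2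
      have h5 : σ (k : α) ≠ l := fun h1 => hσK k k.2 (h1 ▸ l.2)
      have h4 : (k : α) ≠ σ l := fun h1 => hσK l l.2 (h1 ▸ k.2)
      have h6 : σ (k : α) ≠ σ l := fun h1 => h' (by
        rw [← (hinv k hk).2.1, ← (hinv l hl).2.1, h1])
      rw [← HH_pair (hne k k.2) (hne l l.2) h' h4 h5 h6]
      exact hLIN.ineq N p C σ hL hA k hk l hl h'.symm h5.symm
  have hF2 : F2 A2 ≤ Z0 ^ 2 := by
    refine le_trans ?_ (gramZ (fun k : K => zv p σ k))
    rw [F2]
    refine Finset.sum_le_sum fun k _ => Finset.sum_le_sum fun l _ => ?_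
    rw [hA2, Matrix.of_apply]
    by_cases h : k = l
    · subst h
      rw [if_pos rfl, real_inner_self_eq_norm_sq, neg_sq]
    · rw [if_neg h, mul_pow, hsg2, one_mul]
  have hfrD : fr D ≤ Real.sqrt (7 / 160 * GO) + Z0 := by
    rw [hDA]
    refine (fr_add _ _).trans (add_le_add ?_ ?_)
    · exact Real.sqrt_le_sqrt hF1
    · exact fr_le hZ00 hF2
  -- the bound for X
  set P : Matrix (Fin 7) (Fin 7) ℝ := (Matrix.of fun i j => ∑ b ∈ N, p b i * p b j :
    Matrix (Fin 7) (Fin 7) ℝ) - (8 : ℝ) • (1 : Matrix (Fin 7) (Fin 7) ℝ) with hP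
  have hXP : X = (1 / 2 : ℝ) • P - Zᵀ * Z := by
    ext i j
    have h1 : ∑ b ∈ N, p b i * p b j = 2 * ((Yᵀ * Y) i j + (Zᵀ * Z) i j) := by
      rw [sum_N hKN hinv hex, Matrix.mul_apply, Matrix.mul_apply, ← Finset.sum_add_distrib,
        Finset.mul_sum, ← Finset.sum_coe_sort K]
      refine Finset.sum_congr rfl fun k _ => ?_
      rw [hyz (k : α), hyz' (k : α)]
      simp only [hY, hZ, Matrix.transpose_apply, Matrix.of_apply, PiLp.add_apply, PiLp.sub_apply]
      ring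
    rw [hX, hP, Matrix.sub_apply, Matrix.sub_apply, Matrix.smul_apply, Matrix.smul_apply,
      Matrix.sub_apply, Matrix.of_apply, Matrix.smul_apply, h1]
    simp only [smul_eq_mul]
    ring
  have hfrP : fr P ^ 2 = eps := by
    rw [fr_sq, hP, frame N p hL.unit hL.card]
  have hfrX : fr X ≤ 1 / 2 * fr P + Z0 := by
    rw [hXP]
    refine (fr_sub _ _).trans (add_le_add ?_ ?_)
    · rw [fr_smul, abs_of_pos (by norm_num)]
    · exact fr_le hZ00 (gramZ' (fun k : K => zv p σ k))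
  -- the error
  have hZZ := gramZ (fun k : K => zv p σ k)
  have hYZ : F2 (Y * Zᵀ) ≤ (4 + fr X) * Z0 := by
    have h1 := op_mul (op_Y Y) Zᵀ
    rw [← hX] at h1
    have h2 : F2 Zᵀ = Z0 := by
      rw [F2, hZ0def, Finset.sum_comm]
      refine Finset.sum_congr rfl fun k _ => ?_
      rw [← real_inner_self_eq_norm_sq, inner_eq]
      refine Finset.sum_congr rfl fun i _ => ?_
      rw [Matrix.transpose_apply, hZ, Matrix.of_apply]; ring
    rw [h2] at h1
    exact h1
  have hYZ' : F2 (Y * Zᵀ) = ∑ k : K, ∑ l : K, (inner ℝ (yv p σ k) (zv p σ l) : ℝ) ^ 2 := by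
    rw [F2]
    refine Finset.sum_congr rfl fun k _ => Finset.sum_congr rfl fun l _ => ?_
    rw [Matrix.mul_apply, inner_eq]
    rfl
  have hself : ∀ b ∈ N, (inner ℝ (φ b) (φ b) : ℝ) = 1 := fun b hb => by
    rw [real_inner_self_eq_norm_sq, h1φ b hb, one_pow]
  have hD' : ∀ k l : K, (inner ℝ (yv p σ k) (yv p σ l) : ℝ) - tst φ k l = D k l := by
    intro k l
    rw [hD, Matrix.sub_apply, Matrix.sub_apply, hGam, Matrix.smul_apply, hS, Matrix.of_apply,
      Matrix.one_apply]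
    unfold tst
    by_cases h : k = l
    · subst h
      rw [if_pos rfl, if_pos rfl, hself k (hKN k.2)]
      simp only [smul_eq_mul]; ring
    · have h' : (k : α) ≠ l := fun h1 => h (Subtype.ext h1)
      have h5 : σ (k : α) ≠ l := fun h1 => hσK k k.2 (h1 ▸ l.2)
      rw [if_neg h, if_neg h]
      unfold sg
      rcases hφ k (hKN k.2) l (hKN l.2) h'.symm h5.symm with ⟨h1, h2⟩ | ⟨h1, h2⟩
      · rw [if_pos h1, h2, smul_eq_mul]; ring
      · rw [if_neg (by linarith), h2, smul_eq_mul]; ring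
  have hN2 : ∀ f : α → α → ℝ, ∑ b ∈ N, ∑ c ∈ N, f b c =
      ∑ k : K, ∑ l : K, (f k l + f k (σ l) + (f (σ k) l + f (σ k) (σ l))) := by
    intro f
    rw [sum_N hKN hinv hex (fun b => ∑ c ∈ N, f b c), ← Finset.sum_coe_sort K]
    refine Finset.sum_congr rfl fun k _ => ?_
    rw [sum_N hKN hinv hex (fun c => f k c), sum_N hKN hinv hex (fun c => f (σ k) c),
      ← Finset.sum_add_distrib, ← Finset.sum_coe_sort K]
  have hfour : ∀ k l : K,
      ((inner ℝ (p k) (p l) : ℝ) - tst φ k l) ^ 2 +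
      ((inner ℝ (p k) (p (σ l)) : ℝ) - tst φ k (σ l)) ^ 2 +
      (((inner ℝ (p (σ k)) (p l) : ℝ) - tst φ (σ k) l) ^ 2 +
      ((inner ℝ (p (σ k)) (p (σ l)) : ℝ) - tst φ (σ k) (σ l)) ^ 2) =
      4 * D k l ^ 2 + 4 * (inner ℝ (zv p σ k) (zv p σ l) : ℝ) ^ 2 +
      4 * (inner ℝ (yv p σ k) (zv p σ l) : ℝ) ^ 2 +
      4 * (inner ℝ (yv p σ l) (zv p σ k) : ℝ) ^ 2 := by
    intro k l
    have hk := hKN k.2
    have hl := hKN l.2
    have hx1 := hxφ k hk
    have hx2 := hxφ l hl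
    have hxx : (inner ℝ x x : ℝ) = 1 := by
      have h2 := hself (σ (k : α)) (hinv k hk).1
      rw [hσφ k hk, inner_sub_left, inner_sub_right, inner_sub_right, real_inner_comm x (φ (k : α)),
        hx1, hself k hk] at h2
      linarith
    have e1 : tst φ k (σ l) = - tst φ k l := by
      unfold tst
      rw [hσφ l hl, inner_sub_right, real_inner_comm x (φ (k : α)), hx1]; ring
    have e2 : tst φ (σ k) l = - tst φ k l := by
      unfold tst
      rw [hσφ k hk, inner_sub_left, hx2]; ring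
    have e3 : tst φ (σ k) (σ l) = tst φ k l := by
      unfold tst
      rw [hσφ l hl, hσφ k hk, inner_sub_left, inner_sub_right, inner_sub_right,
        real_inner_comm x (φ (k : α)), hx1, hx2, hxx]; ring
    rw [e1, e2, e3, ← hD' k l, hyz (k : α), hyz (l : α), hyz' (k : α), hyz' (l : α)]
    simp only [inner_add_left, inner_add_right, inner_sub_left, inner_sub_right]
    rw [real_inner_comm (yv p σ (l : α)) (zv p σ (k : α))]
    ring
  rw [hN2]
  have hfr0 := fr_nonneg D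
  have hfrX0 := fr_nonneg X
  calc ∑ k : K, ∑ l : K, (((inner ℝ (p k) (p l) : ℝ) - tst φ k l) ^ 2 +
      ((inner ℝ (p k) (p (σ l)) : ℝ) - tst φ k (σ l)) ^ 2 +
      (((inner ℝ (p (σ k)) (p l) : ℝ) - tst φ (σ k) l) ^ 2 +
      ((inner ℝ (p (σ k)) (p (σ l)) : ℝ) - tst φ (σ k) (σ l)) ^ 2))
      = ∑ k : K, ∑ l : K, (4 * D k l ^ 2 + 4 * (inner ℝ (zv p σ k) (zv p σ l) : ℝ) ^ 2 +
      4 * (inner ℝ (yv p σ k) (zv p σ l) : ℝ) ^ 2 +
      4 * (inner ℝ (yv p σ l) (zv p σ k) : ℝ) ^ 2) :=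
        Finset.sum_congr rfl fun k _ => Finset.sum_congr rfl fun l _ => hfour k l
    _ = 4 * F2 D + 4 * ∑ k : K, ∑ l : K, (inner ℝ (zv p σ k) (zv p σ l) : ℝ) ^ 2 +
        8 * F2 (Y * Zᵀ) := by
      have g1 : ∑ k : K, ∑ l : K, (inner ℝ (yv p σ l) (zv p σ k) : ℝ) ^ 2 = F2 (Y * Zᵀ) := by
        rw [hYZ', Finset.sum_comm]
      have g2 : ∑ k : K, ∑ l : K, D k l ^ 2 = F2 D := rfl
      simp only [Finset.sum_add_distrib, ← Finset.mul_sum]
      rw [g1, ← hYZ', g2]
      ring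
    _ ≤ 4 * fr D ^ 2 + 4 * Z0 ^ 2 + 8 * ((4 + fr X) * Z0) := by
      rw [fr_sq]
      have := hZZ
      linarith
    _ ≤ 3 / 4 * B + 24 / 2500 * B ^ 2 :=
      LKGM.numer (b := fr P) hGO0 hZ00 (by linarith) (Real.sq_sqrt (by positivity)) hfrP hfr0
        hfrD hfrX

end Pool.Agent.Lib.MP_f1379f_gt.FV
end
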