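import Pool.Agent.Lib.MP_f1379f_gt.FV.SpecO

/-!
# NUA: the measure on the walls of one facet
-/

set_option autoImplicit false

namespace Pool.Agent.Lib.MP_f1379f_gt.FV

open MeasureTheory

namespace NUAM

/-- the reflection in a unit vector -/
theorem refl_ex {s : E} (hs : ‖s‖ = 1) :
    ∃ σ : E ≃ₗᵢ[ℝ] E, ∀ y, σ y = y - (2 * (inner ℝ y s : ℝ)) • s := by
  refine ⟨Submodule.reflection (Submodule.span ℝ {s})ᗮ, fun y => ?_⟩
  rw [Submodule.reflection_orthogonal_apply, Submodule.reflection_singleton_apply]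
  rw [real_inner_comm y s]
  simp only [RCLike.ofReal_real_eq_id, id_eq]
  rw [hs]
  module

theorem invol {σ : E ≃ₗᵢ[ℝ] E} {s : E} (hs : ‖s‖ = 1)
    (hσ : ∀ y, σ y = y - (2 * (inner ℝ y s : ℝ)) • s)
    (y : E) : σ (σ y) = y := by
  have hss : (inner ℝ s s : ℝ) = 1 := by rw [real_inner_self_eq_norm_sq, hs]; norm_num
  rw [hσ (σ y), hσ y, inner_sub_left, real_inner_smul_left, hss, sub_sub, ← add_smul]
  have : 2 * (inner ℝ y s : ℝ) + 2 * (inner ℝ y s - 2 * inner ℝ y s * 1) = 0 := by ring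
  rw [this, zero_smul, sub_zero]

theorem mem_nb {a e : E} : e ∈ nb a ↔ e ∈ UE ∧ (inner ℝ e a : ℝ) = 1 / 2 := by
  simp [nb]

theorem mem_ob {a e : E} : e ∈ ob a ↔ e ∈ UE ∧ (inner ℝ e a : ℝ) = 0 := by
  simp [ob]

/-- the parametrisation of the wall -/
noncomputable def gg (e a : E) (x : Sp e a) : E := (2 / 3 : ℝ) • e - (1 / 3 : ℝ) • a + (x : E)

theorem gg_meas (e a : E) : Measurable (gg e a) := by
  unfold gg
  fun_prop

theorem ipe {e a : E} (x : Sp e a) : (inner ℝ (x : E) e : ℝ) = 0 := by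
  rw [real_inner_comm]
  exact (Submodule.mem_orthogonal _ _).1 x.2 e (Submodule.subset_span (by simp))

theorem ipa {e a : E} (x : Sp e a) : (inner ℝ (x : E) a : ℝ) = 0 := by
  rw [real_inner_comm]
  exact (Submodule.mem_orthogonal _ _).1 x.2 a (Submodule.subset_span (by simp))

section

variable {e a : E}

theorem gg_a (ha : ‖a‖ = 1) (h : (inner ℝ e a : ℝ) = 1 / 2) (x : Sp e a) :
    (inner ℝ (gg e a x) a : ℝ) = 0 := by
  rw [gg, inner_add_left, inner_sub_left, real_inner_smul_left, real_inner_smul_left, h,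
    real_inner_self_eq_norm_sq, ha, ipa]
  norm_num

theorem gg_n (he : ‖e‖ = 1) (ha : ‖a‖ = 1) (h : (inner ℝ e a : ℝ) = 1 / 2) (x : Sp e a) :
    ‖gg e a x‖ ^ 2 = 1 / 3 + ‖x‖ ^ 2 := by
  have hx : (inner ℝ e (x : E) : ℝ) = 0 := by rw [real_inner_comm]; exact ipe x
  have hy : (inner ℝ a (x : E) : ℝ) = 0 := by rw [real_inner_comm]; exact ipa x
  have h' : (inner ℝ a e : ℝ) = 1 / 2 := by rw [real_inner_comm]; exact h
  have hxx : (inner ℝ (x : E) (x : E) : ℝ) = ‖x‖ ^ 2 := by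
    rw [real_inner_self_eq_norm_sq]; rfl
  have hee : (inner ℝ e e : ℝ) = 1 := by rw [real_inner_self_eq_norm_sq, he]; norm_num
  have haa : (inner ℝ a a : ℝ) = 1 := by rw [real_inner_self_eq_norm_sq, ha]; norm_num
  rw [← real_inner_self_eq_norm_sq, gg]
  simp only [inner_add_left, inner_add_right, inner_sub_left, inner_sub_right,
    real_inner_smul_left, real_inner_smul_right, h, h', ipe, ipa, hx, hy, hxx, hee, haa]
  ring

theorem sup1 (hF6V : SpecF6V) (hUEF : SpecUEF) (haU : a ∈ UE) (he : e ∈ nb a) :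
    ∀ᵐ v ∂(nuP e a), (inner ℝ v a : ℝ) = 0 ∧ ‖v‖ ≤ 1 := by
  have hms : MeasurableSet {v : E | (inner ℝ v a : ℝ) = 0 ∧ ‖v‖ ≤ 1} := by
    apply MeasurableSet.inter
    · exact measurableSet_eq_fun (by fun_prop) measurable_const
    · exact measurableSet_le measurable_norm measurable_const
  have hg := gg_meas e a
  have hne := hUEF.nrm e (mem_nb.1 he).1
  have hna := hUEF.nrm a haU
  have hea := (mem_nb.1 he).2
  show ∀ᵐ v ∂(Measure.map (gg e a) (volume.restrict (F6o e a))), (inner ℝ v a : ℝ) = 0 ∧ ‖v‖ ≤ 1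
  rw [ae_map_iff hg.aemeasurable hms]
  refine (ae_restrict_iff' (hF6V.meas e a)).2 (Filter.Eventually.of_forall fun x hx => ?_)
  refine ⟨gg_a hna hea x, ?_⟩
  have h1 := gg_n hne hna hea x
  have h2 : ‖x‖ ^ 2 ≤ 2 / 3 := hF6V.nrm a haU e he x hx.1
  have h3 : ‖gg e a x‖ ^ 2 ≤ 1 := by rw [h1]; linarith
  nlinarith [norm_nonneg (gg e a x)]

theorem fin1 (hF6V : SpecF6V) (haU : a ∈ UE) (he : e ∈ nb a) :
    IsFiniteMeasure (nuP e a) := by
  have hlt : volume (F6o e a) < ⊤ := by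
    have hsub : F6o e a ⊆ Metric.closedBall (0 : Sp e a) 1 := by
      intro x hx
      have h2 : ‖x‖ ^ 2 ≤ 2 / 3 := hF6V.nrm a haU e he x hx.1
      rw [mem_closedBall_zero_iff]
      nlinarith [norm_nonneg x]
    exact lt_of_le_of_lt (measure_mono hsub) measure_closedBall_lt_top
  have : IsFiniteMeasure (volume.restrict (F6o e a)) := ⟨by
    rw [Measure.restrict_apply_univ]; exact hlt⟩
  exact Measure.isFiniteMeasure_map _ _

theorem int1 (hF6V : SpecF6V) (hUEF : SpecUEF) (haU : a ∈ UE) (he : e ∈ nb a) (k : ℕ) :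
    Integrable (fun v : E => ‖v‖ ^ k) (nuP e a) := by
  have := fin1 hF6V haU he
  refine Integrable.of_bound (by fun_prop) 1 ?_
  filter_upwards [sup1 hF6V hUEF haU he] with v hv
  rw [norm_pow, norm_norm]
  exact pow_le_one₀ (norm_nonneg v) hv.2

theorem fin0 (s : Finset E) (μ : E → Measure E) (h : ∀ e ∈ s, IsFiniteMeasure (μ e)) :
    IsFiniteMeasure (∑ e ∈ s, μ e) := by
  refine ⟨?_⟩
  rw [Measure.finsetSum_apply]
  apply ENNReal.sum_lt_top.2
  intro e he
  have := h e he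
  exact measure_lt_top _ _

theorem ae0 (s : Finset E) (μ : E → Measure E) {P : E → Prop} (h : ∀ e ∈ s, ∀ᵐ v ∂(μ e), P v) :
    ∀ᵐ v ∂(∑ e ∈ s, μ e), P v := by
  rw [ae_iff, Measure.finsetSum_apply]
  apply Finset.sum_eq_zero
  intro e he
  exact ae_iff.1 (h e he)

theorem mapsum0 (s : Finset E) (μ : E → Measure E) {ρ : E → E} (hρ : Measurable ρ) {τ : E → E}
    (hτ : ∀ e ∈ s, τ e ∈ s) (hττ : ∀ e ∈ s, τ (τ e) = e)
    (h : ∀ e ∈ s, Measure.map ρ (μ e) = μ (τ e)) :
    Measure.map ρ (∑ e ∈ s, μ e) = ∑ e ∈ s, μ e := by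
  ext A hA
  rw [Measure.map_apply hρ hA, Measure.finsetSum_apply, Measure.finsetSum_apply]
  have h1 : ∀ e ∈ s, (μ e) (ρ ⁻¹' A) = (μ (τ e)) A := by
    intro e he
    rw [← h e he, Measure.map_apply hρ hA]
  rw [Finset.sum_congr rfl h1]
  exact Finset.sum_nbij' τ τ hτ hτ hττ hττ (fun e _ => rfl)

theorem mapsum {ρ : E → E} (hρ : Measurable ρ) {τ : E → E} (hτ : ∀ e ∈ nb a, τ e ∈ nb a)
    (hττ : ∀ e ∈ nb a, τ (τ e) = e)
    (h : ∀ e ∈ nb a, Measure.map ρ (nuP e a) = nuP (τ e) a) :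
    Measure.map ρ (nuA a) = nuA a :=
  mapsum0 (nb a) (fun e => nuP e a) hρ hτ hττ h

end

end NUAM

open NUAM in
theorem specNUA (hUEF : SpecUEF) (hF6V : SpecF6V) (hNUT : SpecNUT) : SpecNUA where
  fin := fun a ha => fin0 (nb a) (fun e => nuP e a) fun _ he => fin1 hF6V ha he
  sup := fun a ha => ae0 (nb a) (fun e => nuP e a) fun _ he => sup1 hF6V hUEF ha he
  refl := by
    intro a ha s hs
    obtain ⟨hsU, hsa⟩ := mem_ob.1 hs
    obtain ⟨σ, hσ⟩ := refl_ex (hUEF.nrm s hsU)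
    have hUE : ∀ t ∈ UE, σ t ∈ UE := by
      intro t ht
      rw [hσ]
      exact hUEF.refl t ht s hsU
    have haa : σ a = a := by
      rw [hσ, real_inner_comm, hsa, mul_zero, zero_smul, sub_zero]
    have hfun : (fun v : E => v - (2 * (inner ℝ s v : ℝ)) • s) = σ := by
      funext v
      rw [hσ, real_inner_comm]
    rw [hfun]
    apply mapsum σ.continuous.measurable (τ := σ)
    · intro e he
      obtain ⟨h1, h2⟩ := mem_nb.1 he
      refine mem_nb.2 ⟨hUE e h1, ?_⟩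
      conv_lhs => rw [← haa]
      rw [σ.inner_map_map]
      exact h2
    · intro e _
      exact invol (hUEF.nrm s hsU) hσ e
    · intro e _
      have := hNUT.map σ hUE e a
      rw [haa] at this
      exact this
  neg := by
    intro a ha
    have hna := hUEF.nrm a ha
    apply mapsum measurable_neg (τ := fun e => a - e)
    · intro e he
      obtain ⟨h1, h2⟩ := mem_nb.1 he
      refine mem_nb.2 ⟨hUEF.sub a ha e h1 (by rw [real_inner_comm]; exact h2), ?_⟩
      rw [inner_sub_left, h2, real_inner_self_eq_norm_sq, hna]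
      norm_num
    · intro e _
      exact sub_sub_cancel a e
    · intro e he
      exact hNUT.neg a ha e he
  i2 := by
    intro a ha
    rw [nuA, integral_finsetSum_measure (fun e he => int1 hF6V hUEF ha he 2)]
    apply Finset.sum_congr rfl
    intro e he
    have hg := gg_meas e a
    show ∫ v, ‖v‖ ^ 2 ∂(Measure.map (gg e a) (volume.restrict (F6o e a))) = _
    rw [integral_map hg.aemeasurable (by fun_prop)]
    apply integral_congr_ae
    refine Filter.Eventually.of_forall fun x => ?_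
    exact gg_n (hUEF.nrm e (mem_nb.1 he).1) (hUEF.nrm a ha) (mem_nb.1 he).2 x
  i4 := by
    intro a ha
    rw [nuA, integral_finsetSum_measure (fun e he => int1 hF6V hUEF ha he 4)]
    apply Finset.sum_congr rfl
    intro e he
    have hg := gg_meas e a
    show ∫ v, ‖v‖ ^ 4 ∂(Measure.map (gg e a) (volume.restrict (F6o e a))) = _
    rw [integral_map hg.aemeasurable (by fun_prop)]
    apply integral_congr_ae
    refine Filter.Eventually.of_forall fun x => ?_
    show ‖gg e a x‖ ^ 4 = (1 / 3 + ‖x‖ ^ 2) ^ 2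
    rw [← gg_n (hUEF.nrm e (mem_nb.1 he).1) (hUEF.nrm a ha) (mem_nb.1 he).2 x]
    ring

end Pool.Agent.Lib.MP_f1379f_gt.FV
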