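import Pool.Agent.Lib.MP_f1379f_gt.FV.SpecO

/-!
# PIN: coordinates adapted to a contact pair
-/

set_option autoImplicit false

namespace Pool.Agent.Lib.MP_f1379f_gt.FV

open MeasureTheory

namespace PINM

/-- the second vector of the orthonormal basis of `span(e,a)` -/
noncomputable def ff (e a : E) : E := (Real.sqrt 3)⁻¹ • ((2 : ℝ) • a - e)

section

variable {e a : E}

theorem s3 : Real.sqrt 3 * Real.sqrt 3 = 3 := Real.mul_self_sqrt (by norm_num)

theorem s3pos : 0 < Real.sqrt 3 := Real.sqrt_pos.2 (by norm_num)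

theorem ef (he : ‖e‖ = 1) (h : (inner ℝ e a : ℝ) = 1 / 2) : (inner ℝ e (ff e a) : ℝ) = 0 := by
  rw [ff, real_inner_smul_right, inner_sub_right, real_inner_smul_right, h,
    real_inner_self_eq_norm_sq, he]
  norm_num

theorem ffn (he : ‖e‖ = 1) (ha : ‖a‖ = 1) (h : (inner ℝ e a : ℝ) = 1 / 2) :
    (inner ℝ (ff e a) (ff e a) : ℝ) = 1 := by
  have h' : (inner ℝ a e : ℝ) = 1 / 2 := by rw [real_inner_comm]; exact h
  rw [ff, real_inner_smul_left, real_inner_smul_right, inner_sub_left, inner_sub_right,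
    inner_sub_right, real_inner_smul_left, real_inner_smul_left, real_inner_smul_right,
    real_inner_smul_right, h, h', real_inner_self_eq_norm_sq, real_inner_self_eq_norm_sq, he, ha]
  have := s3
  have h3 := s3pos
  field_simp
  nlinarith

theorem fmem : ff e a ∈ Submodule.span ℝ ({e, a} : Set E) := by
  apply Submodule.smul_mem
  apply Submodule.sub_mem
  · exact Submodule.smul_mem _ _ (Submodule.subset_span (by simp))
  · exact Submodule.subset_span (by simp)

theorem emem : e ∈ Submodule.span ℝ ({e, a} : Set E) := Submodule.subset_span (by simp)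

theorem a_eq : a = (1 / 2 : ℝ) • e + (Real.sqrt 3 / 2) • ff e a := by
  have h3 := s3pos
  rw [ff, smul_smul]
  have : Real.sqrt 3 / 2 * (Real.sqrt 3)⁻¹ = 1 / 2 := by field_simp
  rw [this]
  module

/-- the orthonormal basis of `span(e,a)` -/
theorem basis_ex (he : ‖e‖ = 1) (ha : ‖a‖ = 1) (h : (inner ℝ e a : ℝ) = 1 / 2) :
    ∃ b : OrthonormalBasis (Fin 2) ℝ (Submodule.span ℝ ({e, a} : Set E)),
      ((b 0 : Submodule.span ℝ ({e, a} : Set E)) : E) = e ∧
      ((b 1 : Submodule.span ℝ ({e, a} : Set E)) : E) = ff e a := by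
  set S := Submodule.span ℝ ({e, a} : Set E) with hS
  set v : Fin 2 → S := ![⟨e, emem⟩, ⟨ff e a, fmem⟩] with hv
  have hon : Orthonormal ℝ v := by
    have q00 : (inner ℝ (v 0) (v 0) : ℝ) = 1 := by
      show (inner ℝ e e : ℝ) = 1
      rw [real_inner_self_eq_norm_sq, he]; norm_num
    have q01 : (inner ℝ (v 0) (v 1) : ℝ) = 0 := ef he h
    have q10 : (inner ℝ (v 1) (v 0) : ℝ) = 0 := by rw [real_inner_comm]; exact q01
    have q11 : (inner ℝ (v 1) (v 1) : ℝ) = 1 := ffn he ha h
    rw [orthonormal_iff_ite]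
    intro i j
    fin_cases i <;> fin_cases j
    · exact q00
    · exact q01
    · exact q10
    · exact q11
  have hsp : ⊤ ≤ Submodule.span ℝ (Set.range v) := by
    rintro ⟨s, hs⟩ -
    obtain ⟨α, β, rfl⟩ := Submodule.mem_span_pair.1 hs
    have h0 : v 0 ∈ Submodule.span ℝ (Set.range v) := Submodule.subset_span ⟨0, rfl⟩
    have h1 : v 1 ∈ Submodule.span ℝ (Set.range v) := Submodule.subset_span ⟨1, rfl⟩
    have : (⟨α • e + β • a, hs⟩ : S) = (α + β / 2) • v 0 + (β * (Real.sqrt 3 / 2)) • v 1 := by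
      apply Subtype.ext
      show α • e + β • a = (α + β / 2) • e + (β * (Real.sqrt 3 / 2)) • ff e a
      conv_lhs => rw [a_eq (e := e) (a := a)]
      module
    rw [this]
    exact Submodule.add_mem _ (Submodule.smul_mem _ _ h0) (Submodule.smul_mem _ _ h1)
  refine ⟨OrthonormalBasis.mk hon hsp, ?_, ?_⟩
  · rw [OrthonormalBasis.coe_mk]
    rfl
  · rw [OrthonormalBasis.coe_mk]
    rfl

/-- integration in orthonormal coordinates -/
theorem coord (he : ‖e‖ = 1) (ha : ‖a‖ = 1) (h : (inner ℝ e a : ℝ) = 1 / 2) {H : E → ENNReal}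
    (hH : Measurable H) :
    ∫⁻ y, H y = ∫⁻ s : ℝ, ∫⁻ t : ℝ, ∫⁻ x : Sp e a, H (s • e + t • ff e a + (x : E)) := by
  set S := Submodule.span ℝ ({e, a} : Set E) with hS
  obtain ⟨b, hb0, hb1⟩ : ∃ b : OrthonormalBasis (Fin 2) ℝ S,
      ((b 0 : S) : E) = e ∧ ((b 1 : S) : E) = ff e a := basis_ex he ha h
  have hmp : MeasurePreserving (fun y : E => WithLp.ofLp (S.orthogonalDecomposition y))
      volume (volume : Measure (S × Sᗮ)) :=
    (WithLp.volume_preserving_ofLp S Sᗮ).comp S.orthogonalDecomposition.measurePreserving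
  have hc : MeasurePreserving (fun s : S => WithLp.ofLp (b.repr s)) volume volume :=
    (PiLp.volume_preserving_ofLp (Fin 2)).comp b.measurePreserving_repr
  have hc2 : MeasurePreserving (fun s : S => MeasurableEquiv.finTwoArrow (WithLp.ofLp (b.repr s)))
      volume (volume : Measure (ℝ × ℝ)) :=
    (volume_preserving_finTwoArrow ℝ).comp hc
  -- the inverse map
  set Ψ : (ℝ × ℝ) → Sᗮ → E := fun p x => p.1 • e + p.2 • ff e a + (x : E) with hΨ
  have hΨc : Continuous (fun q : (ℝ × ℝ) × Sᗮ => Ψ q.1 q.2) := by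
    simp only [hΨ]
    fun_prop
  have hs : ∀ s : S, (s : E) = Ψ (MeasurableEquiv.finTwoArrow (WithLp.ofLp (b.repr s))) 0 := by
    intro s
    have h1 := b.sum_repr s
    rw [Fin.sum_univ_two] at h1
    have h2 := congrArg (Subtype.val : S → E) h1
    simp only [Submodule.coe_add, Submodule.coe_smul, hb0, hb1] at h2
    rw [← h2]
    simp [hΨ]
  have hdec : ∀ y : E, y = ((WithLp.ofLp (S.orthogonalDecomposition y)).1 : E) +
      ((WithLp.ofLp (S.orthogonalDecomposition y)).2 : E) := by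
    intro y
    have h1 : (WithLp.ofLp (S.orthogonalDecomposition y)).1 = S.orthogonalProjectionOnto y :=
      Submodule.fst_orthogonalDecomposition_apply S y
    have h2 : (WithLp.ofLp (S.orthogonalDecomposition y)).2 = Sᗮ.orthogonalProjectionOnto y :=
      Submodule.snd_orthogonalDecomposition_apply S y
    rw [h1, h2]
    have h3 := S.starProjection_add_starProjection_orthogonal y
    exact h3.symm
  have hinner : ∀ s : S, ∫⁻ x : Sᗮ, H ((s : E) + (x : E)) = ∫⁻ x : Sᗮ,
      H (Ψ (MeasurableEquiv.finTwoArrow (WithLp.ofLp (b.repr s))) x) := by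
    intro s
    apply lintegral_congr
    intro x
    congr 1
    rw [hs s]
    simp [hΨ]
  have hm1 : Measurable (fun q : S × Sᗮ => H ((q.1 : E) + (q.2 : E))) :=
    hH.comp (by fun_prop)
  have hm2 : Measurable (fun q : (ℝ × ℝ) × Sᗮ => H (Ψ q.1 q.2)) := hH.comp hΨc.measurable
  have hm3 : Measurable (fun p : ℝ × ℝ => ∫⁻ x : Sᗮ, H (Ψ p x)) := hm2.lintegral_prod_right'
  calc ∫⁻ y, H y = ∫⁻ y, H (((WithLp.ofLp (S.orthogonalDecomposition y)).1 : E) +
        ((WithLp.ofLp (S.orthogonalDecomposition y)).2 : E)) :=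
        lintegral_congr fun y => congrArg H (hdec y)
    _ = ∫⁻ q : S × Sᗮ, H ((q.1 : E) + (q.2 : E)) := hmp.lintegral_comp hm1
    _ = ∫⁻ s : S, ∫⁻ x : Sᗮ, H ((s : E) + (x : E)) := by
        rw [Measure.volume_eq_prod, lintegral_prod _ hm1.aemeasurable]
    _ = ∫⁻ s : S, ∫⁻ x : Sᗮ,
          H (Ψ (MeasurableEquiv.finTwoArrow (WithLp.ofLp (b.repr s))) x) :=
        lintegral_congr hinner
    _ = ∫⁻ p : ℝ × ℝ, ∫⁻ x : Sᗮ, H (Ψ p x) := hc2.lintegral_comp hm3
    _ = ∫⁻ s : ℝ, ∫⁻ t : ℝ, ∫⁻ x : Sᗮ, H (Ψ (s, t) x) := by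
        rw [Measure.volume_eq_prod, lintegral_prod _ hm3.aemeasurable]

theorem scale {c : ℝ} (hc : 0 < c) (p : ℝ) {K : ℝ → ENNReal} (hK : Measurable K) :
    ∫⁻ t : ℝ, K t = ENNReal.ofReal c * ∫⁻ q : ℝ, K (c * (q - p / 2)) := by
  have h1 : ∫⁻ q : ℝ, K (c * (q - p / 2)) = ∫⁻ q : ℝ, K (c * q) :=
    lintegral_sub_right_eq_self (fun q => K (c * q)) (p / 2)
  have h2 : ∫⁻ q : ℝ, K (c * q) = ENNReal.ofReal c⁻¹ * ∫⁻ t : ℝ, K t := by
    rw [← lintegral_map (f := K) (g := fun q => c * q) hK (measurable_const_mul c),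
      Real.map_volume_mul_left hc.ne', lintegral_smul_measure, abs_of_pos (inv_pos.2 hc),
      smul_eq_mul]
  rw [h1, h2, ← mul_assoc, ← ENNReal.ofReal_mul hc.le, mul_inv_cancel₀ hc.ne', ENNReal.ofReal_one,
    one_mul]

end

end PINM

open PINM in
theorem specPIN : SpecPIN where
  main := by
    intro e a he ha h H hH
    rw [coord he ha h hH]
    have h3 := s3pos
    have hc : 0 < 2 / Real.sqrt 3 := by positivity
    have hm : ∀ s : ℝ, Measurable (fun t : ℝ => ∫⁻ x : Sp e a, H (s • e + t • ff e a + (x : E))) := by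
      intro s
      have : Measurable (fun q : ℝ × Sp e a => H (s • e + q.1 • ff e a + (q.2 : E))) :=
        hH.comp (by fun_prop)
      exact this.lintegral_prod_right'
    have hm2 : Measurable (fun p : ℝ => ∫⁻ q : ℝ, ∫⁻ x : Sp e a,
        H ((4 / 3 * (p - q / 2)) • e + (4 / 3 * (q - p / 2)) • a + (x : E))) := by
      have h1 : Measurable (fun w : (ℝ × ℝ) × Sp e a =>
          H ((4 / 3 * (w.1.1 - w.1.2 / 2)) • e + (4 / 3 * (w.1.2 - w.1.1 / 2)) • a + (w.2 : E))) :=
        hH.comp (by fun_prop)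
      exact (h1.lintegral_prod_right').lintegral_prod_right'
    rw [← lintegral_const_mul _ hm2]
    apply lintegral_congr
    intro p
    rw [scale hc p (hm p)]
    congr 1
    apply lintegral_congr
    intro q
    apply lintegral_congr
    intro x
    congr 1
    congr 1
    rw [ff, smul_smul]
    have h4 : 2 / Real.sqrt 3 * (q - p / 2) * (Real.sqrt 3)⁻¹ = 2 / 3 * (q - p / 2) := by
      have h5 : (Real.sqrt 3)⁻¹ * (Real.sqrt 3)⁻¹ = 1 / 3 := by
        rw [← mul_inv, PINM.s3]; norm_num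
      calc 2 / Real.sqrt 3 * (q - p / 2) * (Real.sqrt 3)⁻¹ =
          2 * (q - p / 2) * ((Real.sqrt 3)⁻¹ * (Real.sqrt 3)⁻¹) := by ring
        _ = 2 / 3 * (q - p / 2) := by rw [h5]; ring
    rw [h4]
    module
  scl := by
    intro e a he ha h c hc H hH
    have hfr : Module.finrank ℝ (Sp e a) = 6 := by
      obtain ⟨b, -, -⟩ := basis_ex he ha h
      have h2 : Module.finrank ℝ (Submodule.span ℝ ({e, a} : Set E)) = 2 := by
        rw [Module.finrank_eq_card_basis b.toBasis, Fintype.card_fin]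
      have h3 := (Submodule.span ℝ ({e, a} : Set E)).finrank_add_finrank_orthogonal
      rw [h2] at h3
      have h8 : Module.finrank ℝ E = 8 := by simp [E]
      show Module.finrank ℝ ((Submodule.span ℝ ({e, a} : Set E))ᗮ : Submodule ℝ E) = 6
      omega
    have h1 : ∫⁻ x : Sp e a, H (c • x) = ENNReal.ofReal (c ^ 6)⁻¹ * ∫⁻ x : Sp e a, H x := by
      rw [← lintegral_map (f := H) (g := fun x : Sp e a => c • x) hH (measurable_const_smul c),
        Measure.map_addHaar_smul _ hc.ne', lintegral_smul_measure, hfr,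
        abs_of_pos (inv_pos.2 (pow_pos hc 6)), smul_eq_mul]
    rw [h1, ← mul_assoc, ← ENNReal.ofReal_mul (pow_pos hc 6).le,
      mul_inv_cancel₀ (pow_pos hc 6).ne', ENNReal.ofReal_one, one_mul]

end Pool.Agent.Lib.MP_f1379f_gt.FV
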