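import Pool.Agent.Lib.MP_f1379f_gt.FV.SpecG

/-!
# MP_f1379f_gt, full Q1: the step (L1) between STAB2 and the end game

A displaced E8 configuration in Procrustes gauge with `gS u ≤ 1/4` which satisfies the certificate
(C_P) (all ordered pairs, coefficient 17/1000, budget with the quadruple term) has `gS u ≤ 9/100`.

PROOF.  S = gS u, x = gx u, s_e = |d_e|^2, r_e = gr u e, b_e = lam u e = r_e + s_e/2, D(e,f) =
<u e,u f> - <e,f>, tau = 2 r_e r_f = TT - <u e,u f>.
(1) phi(T) = base(T)(1/2-T).  For T = l + y, l in {0,-1/2,-1}: phi >= (7/100) y^2 - (14/25) y^4 (for l = 0: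
phi = y^2 (q(y) + 7/100 - (14/25) y^2), q(y) = (y+1/4)^2 (349/400 - y - y^2) + y/800 + 3/6400; l = -1/2 is the
mirror image); the shift by tau costs at most tau.  Contacts: w = gw <= W: phi(1/2 - (w - tau)) >=
(7/100) w^2 + kap w - tau, kap = base(1/2-W) - (7/100) W.
(2) sum_{e,f} D^2 = 60 S + 2 sum <d_e,d_f><u e,u f> - sum <d_e,d_f>^2 >= 60 S - S^2 (frame identity, gauge).
(3) non-contact pairs: D = P(e,f) + P(f,e), P(e,f) = <d_e,h_f>, h_f = (f + u f)/2, |h_f| <= 1.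
c_e = sum of s_f over the non-contacts f /= e, N_e = the same over the 56 contacts: s_e + N_e + c_e = S.
For |v| <= 1: sum_f <v,h_f>^4 <= 81/8 + (151/30) c, sum_f <v,h_f>^6 <= 87/16 + (49/5) c (E8 moments 9 and 15/4,
|<v,h_f - f>| <= sqrt(s_f)/2).  So the quartic sum is <= sum_e [s^2 (33.3 + 33.6 c) + 12.67 s c].
N_e >= 2.1 |del|^2 - (49/3) b_e^2, so c <= S - 3.1 s + 18.44 b^2, and the quartic sum is <= 13 S^2 + X.
(4) box by box in S ([.09,.12], [.12,.16], [.16,.2], [.2,.25]) with the contact bonus kap * gL, gL >= from ERK. -/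

set_option autoImplicit false

namespace Pool.Agent.Lib.MP_f1379f_gt.FV

/-- The step (L1). -/
def SpecL1 : Prop :=
  ∀ u : E → E, CFG u → gS u ≤ 1 / 4 → gx u ≤ 24 / 1000 →
    (17 / 1000 * ∑ e ∈ UE, ∑ f ∈ UE.erase e,
        base (TT (u e) (u f)) * (1 / 2 - TT (u e) (u f)) ≤
      72655 / 10 ^ 7 + 31 / 10 ^ 8 * (108 * gL u + 4032 * gx u)) →
    gS u ≤ 9 / 100

end Pool.Agent.Lib.MP_f1379f_gt.FV
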