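import Pool.Agent.Lib.MP_f1379f_gt.FV.CertDefs
import Pool.Agent.Lib.MP_f1379f_gt.FV.GEN

/-!
# KIA: zonal kernels of the directions, with arbitrary weights
-/

set_option autoImplicit false

namespace Pool.Agent.Lib.MP_f1379f_gt.FV.KI

open Finset

/-- Cosine of the angle between two vectors. -/
noncomputable def ct (u v : E) : ℝ := (inner ℝ u v : ℝ) / (‖u‖ * ‖v‖)

theorem ct_comm (u v : E) : ct u v = ct v u := by
  unfold ct
  rw [real_inner_comm, mul_comm]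

theorem ct_self {u : E} (hu : u ≠ 0) : ct u u = 1 := by
  unfold ct
  have h : ‖u‖ ≠ 0 := norm_ne_zero_iff.mpr hu
  rw [real_inner_self_eq_norm_sq]
  field_simp

theorem abs_ct_le (u v : E) : |ct u v| ≤ 1 := by
  unfold ct
  exact abs_real_inner_div_norm_mul_norm_le_one u v

theorem neg_one_le_ct (u v : E) : -1 ≤ ct u v := (abs_le.mp (abs_ct_le u v)).1

theorem ct_le_one (u v : E) : ct u v ≤ 1 := (abs_le.mp (abs_ct_le u v)).2

/-- Positivity of a kernel with nonnegative zonal coefficients, with its constant term. -/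
theorem zon_pos (s : Finset E) (hs : ∀ u ∈ s, u ≠ 0) (w : E → ℝ) (n : ℕ) (c : ℕ → ℝ)
    (hc : ∀ k, 0 ≤ c k) (q : ℝ → ℝ)
    (hq : ∀ t, q t = ∑ k ∈ range (n + 1), c k * Zg 8 k t 1) :
    c 0 * (∑ u ∈ s, w u) ^ 2 ≤ ∑ u ∈ s, ∑ v ∈ s, w u * w v * q (ct u v) := by
  have hk : ∀ k : ℕ, 0 ≤ ∑ u ∈ s, ∑ v ∈ s, w u * w v * Zg 8 k (ct u v) 1 := by
    intro k
    have h := gen_pos (n := 8) (by norm_num) k s (fun u : E => (‖u‖⁻¹ : ℝ) • u) w
    refine h.trans_eq ?_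
    refine sum_congr rfl (fun u hu => sum_congr rfl (fun v hv => ?_))
    have hu0 : ‖u‖ ≠ 0 := norm_ne_zero_iff.mpr (hs u hu)
    have hv0 : ‖v‖ ≠ 0 := norm_ne_zero_iff.mpr (hs v hv)
    have e1 : (inner ℝ ((‖u‖⁻¹ : ℝ) • u) ((‖v‖⁻¹ : ℝ) • v) : ℝ) = ct u v := by
      rw [real_inner_smul_left, real_inner_smul_right]
      unfold ct
      field_simp
    have e2 : (inner ℝ ((‖u‖⁻¹ : ℝ) • u) ((‖u‖⁻¹ : ℝ) • u) : ℝ) = 1 := by
      rw [real_inner_smul_left, real_inner_smul_right, real_inner_self_eq_norm_sq]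
      field_simp
    have e3 : (inner ℝ ((‖v‖⁻¹ : ℝ) • v) ((‖v‖⁻¹ : ℝ) • v) : ℝ) = 1 := by
      rw [real_inner_smul_left, real_inner_smul_right, real_inner_self_eq_norm_sq]
      field_simp
    rw [e1, e2, e3, one_mul]
  have h0 : ∑ u ∈ s, ∑ v ∈ s, w u * w v * Zg 8 0 (ct u v) 1 = (∑ u ∈ s, w u) ^ 2 := by
    simp only [Zg, mul_one]
    rw [sq, sum_mul_sum]
  have e : ∑ u ∈ s, ∑ v ∈ s, w u * w v * q (ct u v) =
      ∑ k ∈ range (n + 1), c k * ∑ u ∈ s, ∑ v ∈ s, w u * w v * Zg 8 k (ct u v) 1 := by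
    calc ∑ u ∈ s, ∑ v ∈ s, w u * w v * q (ct u v)
        = ∑ u ∈ s, ∑ v ∈ s, ∑ k ∈ range (n + 1), c k * (w u * w v * Zg 8 k (ct u v) 1) := by
          refine sum_congr rfl (fun u _ => sum_congr rfl (fun v _ => ?_))
          rw [hq, mul_sum]
          refine sum_congr rfl (fun k _ => ?_)
          ring
      _ = ∑ u ∈ s, ∑ k ∈ range (n + 1), ∑ v ∈ s, c k * (w u * w v * Zg 8 k (ct u v) 1) :=
          sum_congr rfl (fun u _ => sum_comm)
      _ = ∑ k ∈ range (n + 1), ∑ u ∈ s, ∑ v ∈ s, c k * (w u * w v * Zg 8 k (ct u v) 1) :=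
          sum_comm
      _ = _ := by
          refine sum_congr rfl (fun k _ => ?_)
          rw [mul_sum]
          refine sum_congr rfl (fun u _ => ?_)
          rw [mul_sum]
  rw [e, sum_range_succ', h0]
  have : 0 ≤ ∑ k ∈ range n, c (k + 1) *
      ∑ u ∈ s, ∑ v ∈ s, w u * w v * Zg 8 (k + 1) (ct u v) 1 :=
    sum_nonneg (fun k _ => mul_nonneg (hc _) (hk _))
  linarith

/-- Coefficients of `(T+1)(T+1/2)^2 T^2`. -/
noncomputable def cE (k : ℕ) : ℝ :=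
  match k with
  | 0 => 17 / 160
  | 1 => 1 / 2
  | 2 => 35 / 32
  | 3 => 11 / 8
  | 4 => 21 / 20
  | 5 => 3 / 8
  | _ => 0

/-- Coefficients of `(T+1)(T+1/2)^2 T^2 (T-1/2)`. -/
noncomputable def cF (k : ℕ) : ℝ :=
  match k with
  | 0 => 3 / 320
  | 1 => 3 / 40
  | 2 => 15 / 64
  | 3 => 39 / 80
  | 4 => 399 / 640
  | 5 => 9 / 16
  | 6 => 33 / 128
  | _ => 0

theorem cE_nonneg (k : ℕ) : 0 ≤ cE k := by
  unfold cE
  split <;> norm_num

theorem cF_nonneg (k : ℕ) : 0 ≤ cF k := by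
  unfold cF
  split <;> norm_num

theorem base_exp (t : ℝ) : base t = ∑ k ∈ range (5 + 1), cE k * Zg 8 k t 1 := by
  simp only [sum_range_succ, sum_range_zero, cE, Zg, base]
  push_cast
  ring

theorem kiss_exp (t : ℝ) : base t * (t - 1 / 2) = ∑ k ∈ range (6 + 1), cF k * Zg 8 k t 1 := by
  simp only [sum_range_succ, sum_range_zero, cF, Zg, base]
  push_cast
  ring

/-- The kernel `base`. -/
theorem base_pos (s : Finset E) (hs : ∀ u ∈ s, u ≠ 0) (w : E → ℝ) :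
    17 / 160 * (∑ u ∈ s, w u) ^ 2 ≤ ∑ u ∈ s, ∑ v ∈ s, w u * w v * base (ct u v) :=
  zon_pos s hs w 5 cE cE_nonneg base base_exp

/-- The kissing kernel. -/
theorem kiss_pos (s : Finset E) (hs : ∀ u ∈ s, u ≠ 0) (w : E → ℝ) :
    3 / 320 * (∑ u ∈ s, w u) ^ 2 ≤
      ∑ u ∈ s, ∑ v ∈ s, w u * w v * (base (ct u v) * (ct u v - 1 / 2)) :=
  zon_pos s hs w 6 cF cF_nonneg (fun t => base t * (t - 1 / 2)) kiss_exp

end Pool.Agent.Lib.MP_f1379f_gt.FV.KI
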