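import Pool.Agent.Lib.MP_f1379f_gt.FV.SpecF
import Pool.Agent.Lib.MP_f1379f_gt.FV.NRP
import Pool.Agent.Lib.MP_f1379f_gt.FV.SpecL1

/-!
# MP_f1379f_gt, full Q1: the open blocks in the form in which the assembly (ASB.lean) uses them
-/

set_option autoImplicit false

namespace Pool.Agent.Lib.MP_f1379f_gt.FV

open MeasureTheory

/-- (C_X): `kappa_X = 7/100`. -/
def CXc (U : Finset E) : Prop :=
  Th0 + 7 / 100 * ∑ v ∈ nearS U, (1 - rr v) ≤ W2F U

/-- (C_P): kissing shape, `a0'/2 = 17/1000`. -/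
def CPc (U : Finset E) : Prop :=
  Th0 + 17 / 1000 * ∑ v ∈ nearS U, ∑ w ∈ (nearS U).erase v,
    base (TT v w) * (1 / 2 - TT v w) ≤ W2F U

/-- (C_S): kissing shape with a radial term. -/
def CSc (ka a : ℝ) (U : Finset E) : Prop :=
  Th0 + ka * ∑ v ∈ nearS U, (1 - rr v) + a / 2 * ∑ v ∈ nearS U, ∑ w ∈ (nearS U).erase v,
    base (TT v w) * (1 / 2 - TT v w) ≤ W2F U

/-- The certificate theorems. -/
def SpecCX : Prop := ∀ U : Finset E, Adm U → W2F U < 16 → CXc U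

/-- See `SpecCX`. -/
def SpecCP : Prop := ∀ U : Finset E, Adm U → W2F U < 16 → CPc U

/-- Labelling with error `E1`. -/
def LAB (U : Finset E) (E1 : ℝ) : Prop :=
  ∃ (u : E → E) (A : E ≃ₗᵢ[ℝ] E), (∀ e ∈ UE, u e ∈ nearS U) ∧ Set.InjOn u (UE : Set E) ∧
    ∑ e ∈ UE, ‖A (u e) - e‖ ^ 2 ≤ E1

/-- STAB (blocks STAB1, STAB2): the near points can be labelled by the roots of E8. -/
def SpecSTAB : Prop := ∀ U : Finset E, Adm U → W2F U < 16 → LAB U (1 / 4)

end Pool.Agent.Lib.MP_f1379f_gt.FV
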