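import Pool.Agent.Lib.MP_f1379f_gt.FV.SpecS1
import Pool.Agent.Lib.MP_f1379f_gt.FV.SpecB
import Pool.Agent.Lib.MP_f1379f_gt.FV.KIA
import Pool.Agent.Lib.MP_f1379f_gt.FV.LKG

/-!
# MP_f1379f_gt, full Q1, block STAB1, part 2: existence of a good centre, and its 57 pins

RESULT (SpecPINS): some near point x0 and its 56 contacts are, after an isometry, within total squared
distance 3/100 of a root x of E8 and its 56 neighbours.

PLAN.  S = nearS U (240 points), xr u = 1 - |u|^2, sl u v = 1/2 - TT u v >= 0, contacts: TT >= 9/20.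
NB U x = contacts of x, CB U x = ordered contact pairs inside NB U x, hq x b = unit vector of the
projection of b orthogonal to x, hT x b c = (3 <hq x b,hq x c> + 1)/4, Lx U x = sum over CB of -F7(hT).
(1) GEO + KER7 (LLB): 3/224 n (n-56) <= Lx <= Mx (Mx = linear GEO bound), #CB <= 1.0567(9/28 n^2 + 9n).
(2) CNT: number of missing contacts; SEL: averaging of Mx over all x: some x has n = 56 and
Mx/(44/1000) + SX/(71/1000) + xr x/(7/150) < 1.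
(3) ANT0, DEG, CCT: its link is an LK (3755/1000) (3/10); then link_label; LPT + ERL: Gram error of the link
<= B/9 + contact sum; RAD + pins_err: the pins.
-/

set_option autoImplicit false

namespace Pool.Agent.Lib.MP_f1379f_gt.FV

open Finset

/-- Radial defect. -/
noncomputable def xr (u : E) : ℝ := 1 - ‖u‖ ^ 2

/-- Contact slack. -/
noncomputable def sl (u v : E) : ℝ := 1 / 2 - TT u v

/-- The link vector of `b` seen from `x` (in `x`-perp, unit). -/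
noncomputable def hq (x b : E) : E :=
  (‖b - ((inner ℝ x b : ℝ) / ‖x‖ ^ 2) • x‖)⁻¹ • (b - ((inner ℝ x b : ℝ) / ‖x‖ ^ 2) • x)

/-- T-scale of the link. -/
noncomputable def hT (x b c : E) : ℝ := (3 * (inner ℝ (hq x b) (hq x c) : ℝ) + 1) / 4

/-- The contacts of `x`. -/
noncomputable def NB (U : Finset E) (x : E) : Finset E :=
  (nearS U).filter fun b => b ≠ x ∧ 9 / 20 ≤ TT x b

/-- The ordered contact pairs in the link of `x`. -/
noncomputable def CB (U : Finset E) (x : E) : Finset (E × E) :=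
  (NB U x ×ˢ NB U x).filter fun q => q.1 ≠ q.2 ∧ 9 / 20 ≤ TT q.1 q.2

/-- Sum of the slacks at `x`. -/
noncomputable def SX (U : Finset E) (x : E) : ℝ := ∑ b ∈ NB U x, sl x b

/-- The link energy. -/
noncomputable def Lx (U : Finset E) (x : E) : ℝ := ∑ q ∈ CB U x, -F7 (hT x q.1 q.2)

/-- Its linear upper bound. -/
noncomputable def Mx (U : Finset E) (x : E) : ℝ :=
  ∑ q ∈ CB U x, (1017 / 10000 * (sl x q.1 + sl x q.2) - 24 / 125 * sl q.1 q.2
    + 229 / 5000 * (xr q.1 + xr q.2) - 3 / 1000 * xr x)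

/-- RBD (60 lines; import NRP, CRX, ASM): from near_all and PW.That_ge (Th0 >= 15.9916): 72/1000 sum (1 - rr) <= .0084, and
xr u = (2/5)(1 - rr u) for near points (rr_of_pos, normsq_of_rr), so sum of xr <= 7/150.  phi: the pair certificate of
near_all, 17/1000 sum phi <= .0084, .0084/.017 = .49412. -/
structure SpecRBD : Prop where
  pos : ∀ U : Finset E, Adm U → W2F U < 16 → ∀ u ∈ nearS U, 0 ≤ xr u
  sum : ∀ U : Finset E, Adm U → W2F U < 16 → ∑ u ∈ nearS U, xr u ≤ 7 / 150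
  sl0 : ∀ U : Finset E, Adm U → ∀ u ∈ nearS U, ∀ v ∈ nearS U, u ≠ v → 0 ≤ sl u v
  phi : ∀ U : Finset E, Adm U → W2F U < 16 →
    ∑ u ∈ nearS U, ∑ v ∈ (nearS U).erase u, base (TT u v) * (1 / 2 - TT u v) ≤ 4942 / 10000

/-- PRJ (60 lines).  x-perp is isometric to V7 (finrank 7: Submodule.finrank_orthogonal_span_singleton,
stdOrthonormalBasis).  hq x b is orthogonal to x, so p b = iso (hq x b) (extend the isometry of x-perp by the
orthogonal projection).  `inr`: expand. -/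
structure SpecPRJ : Prop where
  ex : ∀ x : E, x ≠ 0 → ∃ p : E → V7, ∀ b c : E,
    (inner ℝ (p b) (p c) : ℝ) = inner ℝ (hq x b) (hq x c)
  orth : ∀ x b : E, (inner ℝ (hq x b) x : ℝ) = 0
  unit : ∀ x b : E, x ≠ 0 → 0 < ‖b‖ ^ 2 - (inner ℝ x b : ℝ) ^ 2 / ‖x‖ ^ 2 → ‖hq x b‖ = 1
  inr : ∀ x b c : E, x ≠ 0 → 0 < ‖b‖ ^ 2 - (inner ℝ x b : ℝ) ^ 2 / ‖x‖ ^ 2 →
    0 < ‖c‖ ^ 2 - (inner ℝ x c : ℝ) ^ 2 / ‖x‖ ^ 2 → (inner ℝ (hq x b) (hq x c) : ℝ) =
    ((inner ℝ b c : ℝ) - (inner ℝ x b : ℝ) * (inner ℝ x c : ℝ) / ‖x‖ ^ 2) /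
      (Real.sqrt (‖b‖ ^ 2 - (inner ℝ x b : ℝ) ^ 2 / ‖x‖ ^ 2) *
        Real.sqrt (‖c‖ ^ 2 - (inner ℝ x c : ℝ) ^ 2 / ‖x‖ ^ 2))

/-- `<x,b>` in terms of the slack. -/
noncomputable def gi (w y z : ℝ) : ℝ := 1 / 2 - w - y * z / 2

/-- Squared length of the projection. -/
noncomputable def gA (w y h : ℝ) : ℝ := 1 - y - gi w h y ^ 2 / (1 - h)

/-- The T-value of the link pair. -/
noncomputable def gT (wb wc w xb xc h : ℝ) : ℝ :=
  (3 * ((gi w xb xc - gi wb h xb * gi wc h xc / (1 - h)) /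
    (Real.sqrt (gA wb xb h) * Real.sqrt (gA wc xc h))) + 1) / 4

/-- Domain of GEO. -/
structure GD (wb wc w xb xc h : ℝ) : Prop where
  b0 : 0 ≤ wb
  b1 : wb ≤ 1 / 20
  c0 : 0 ≤ wc
  c1 : wc ≤ 1 / 20
  w0 : 0 ≤ w
  y0 : 0 ≤ xb
  z0 : 0 ≤ xc
  h0 : 0 ≤ h
  s : xb + xc + h ≤ 7 / 150

/-- GEO (real numbers, 300 lines; all constants checked numerically, see the suggested proof).
SUGGESTED PROOF.  u2 := 67/200 (wb+wc) - 27/20 wb wc - w + 13/20 w (wb+wc) + 351/2000 (xb+xc) +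
13/50 (wb xc + wc xb) - h/10.
(i) gT - 1/2 <= u2 for w <= 1/20 (numerically u2 - (gT - 1/2) >= .0006 (wb+wc+xb+xc+h)); with L := (1+4 u2)/3 > 0 this
is num <= L sqrt(A B), i.e. num^2 <= L^2 A B (multiply by (1-h)^2: a polynomial inequality; it is an identity on the
w-axis wb = wc = xb = xc = h = 0).  For w >= 1/20 use that gT is affine and decreasing in w.
(ii) f(u) := u (1+u) (1/2+u)^2 = -F7(1/2+u) is increasing and convex on [-7/100, 1/20]; u2 is affine in each of wb,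
wc, w and affine in (xb,xc,h), so by Jensen (four times) f(u2) - linear is at most its maximum over the 32
vertices ({0,1/20}^3 x {0, 7/150 on one of xb,xc,h}), all <= 0 (slack at 000: 0, 001: 1.9e-5, the others >= 1e-5).
`F` has about .5% of slack everywhere else. -/
structure SpecGEO : Prop where
  A : ∀ wb wc w xb xc h : ℝ, GD wb wc w xb xc h → 7 / 10 ≤ gA wb xb h ∧ gA wb xb h ≤ 4 / 5
  lo : ∀ wb wc w xb xc h : ℝ, GD wb wc w xb xc h → w ≤ 1 / 20 → 11 / 25 ≤ gT wb wc w xb xc h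
  hi : ∀ wb wc w xb xc h : ℝ, GD wb wc w xb xc h → gT wb wc w xb xc h ≤ 27 / 50
  nc : ∀ wb wc w xb xc h : ℝ, GD wb wc w xb xc h → 1 / 20 ≤ w → gT wb wc w xb xc h ≤ 1 / 2
  ex : ∀ wb wc w xb xc h : ℝ, GD wb wc w xb xc h →
    gT wb wc w xb xc h - 1 / 2 ≤ 7 / 20 * (wb + wc) + 7 / 40 * (xb + xc)
  F : ∀ wb wc w xb xc h : ℝ, GD wb wc w xb xc h → w ≤ 1 / 20 →
    -F7 (gT wb wc w xb xc h) ≤
      1017 / 10000 * (wb + wc) - 24 / 125 * w + 229 / 5000 * (xb + xc) - 3 / 1000 * h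

/-- LLB (250 lines): the link in terms of U.
PROOF.  x in S, b, c in NB U x, b /= c; wb = sl x b etc, xb = xr b, h = xr x: all in the domain GD (RBD: the three
points x, b, c are different members of S), <x,b> = gi wb h xb, |x|^2 = 1 - h, so hT x b c = gT wb wc w xb xc h
(PRJ.inr).  `tr` is this translation.  `lo`, `kb`: KER7.g, KER7.q, KER7.t2 for s = NB U x, p from PRJ.ex: the
diagonal is G7 1 = -64, 15/64 G7 1 + q7 1 = -9; non-contact pairs have t <= 1/3, G7 >= 0 and 15/64 G7 + q7 >= 0 (= (3/16)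
(1+t)(1+3t)^2 (1 + (5/4)(1-3t)) >= 0); contact pairs: G7 = (256/3) F7 and 15/64 G7 + q7 >= 1 - 537/10000 on [19/75, 39/100]
(there it is (3/64)(1+t)(1+3t)^2 (9-15t)).  So 0 >= -64 n + (8/7) n^2 - (256/3) Lx, i.e. Lx >= (3/224) n (n - 56), and
(1 - .0537) k <= (9/28) n^2 + 9 n, 1/.9463 <= 1.0568.  `up`: GEO.F.  `lk`: the structure LK: up, con, non from GEO.hi (27/50 -> t
<= .38667 <= 39/100), GEO.lo (t >= 19/75), GEO.nc; bud from KER7.g again (n = 56: 64 n = (8/7) n^2). -/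
structure SpecLLB : Prop where
  tr : ∀ U : Finset E, Adm U → W2F U < 16 → ∀ x ∈ nearS U, ∀ b ∈ NB U x, ∀ c ∈ NB U x, b ≠ c →
    GD (sl x b) (sl x c) (sl b c) (xr b) (xr c) (xr x) ∧
      hT x b c = gT (sl x b) (sl x c) (sl b c) (xr b) (xr c) (xr x) ∧ ‖hq x b‖ = 1
  lo : ∀ U : Finset E, Adm U → W2F U < 16 → ∀ x ∈ nearS U,
    3 / 224 * ((NB U x).card : ℝ) * (((NB U x).card : ℝ) - 56) ≤ Lx U x
  up : ∀ U : Finset E, Adm U → W2F U < 16 → ∀ x ∈ nearS U, Lx U x ≤ Mx U x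
  kb : ∀ U : Finset E, Adm U → W2F U < 16 → ∀ x ∈ nearS U,
    ((CB U x).card : ℝ) ≤
      10568 / 10000 * (9 / 28 * ((NB U x).card : ℝ) ^ 2 + 9 * ((NB U x).card : ℝ))
  lk : ∀ U : Finset E, Adm U → W2F U < 16 → ∀ x ∈ nearS U, (NB U x).card = 56 → ∀ p : E → V7,
    (∀ b c : E, (inner ℝ (p b) (p c) : ℝ) = inner ℝ (hq x b) (hq x c)) → ∀ B cA : ℝ,
    256 / 3 * Lx U x ≤ B → ∑ q ∈ CB U x, A7 (inner ℝ (hq x q.1) (hq x q.2)) ≤ cA →
    LK (NB U x) p (CB U x) B cA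

/-- CNT (250 lines): missing contacts.  n_x = card NB.
PROOF.  KI.base_pos (KIA.lean) on S = nearS U with the weights om_u = 1 - (5/3) xr u: with X = sum xr,
(17/160)(240 - (5/3)X)^2 <= sum_{u,v} om_u om_v base(ct u v); the diagonal is (9/2) sum om_u^2 <= 1080 - 15X + .0273, so
sum_{u /= v} om om base(ct) >= 5040 - 70X - .0273.  ct u v = (TT - xr u xr v/2)/sqrt((1-xr u)(1-xr v)).  Two real inequalities
(x, y >= 0, x+y <= 7/150, c = (T - xy/2)/sqrt((1-x)(1-y)), c >= -1):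
(C1) T = 1/2 - w, 0 <= w <= 1/20: (1-5x/3)(1-5y/3) base c <= 3/8 - (11/5) w;
(C2) -1 <= T <= 9/20: (1-5x/3)(1-5y/3) base c <= base T + (3/25) base T (1/2 - T) + (3/40)(x+y)^2
(both are polynomial inequalities in T and the roots of 1-x, 1-y; helper59's tool; equality at x = y = 0 in (C1) for w = 0).
Sum: 5040 - 70X - .0273 <= (3/8) sum_x n_x - (11/5) sum_x SX + B + .12 (.4942) + .075 (1.0454), B = the sum of `base` over the
non-contact ordered pairs; sum over ordered pairs of (x_u+x_v)^2 <= 480 sum x_u^2 <= 480 (7/150)^2.  5040 = (3/8) 240 56.  Divide by 3/8: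
(.0273+.0594+.0784)/.375 = .4403. -/
def SpecCNT : Prop := ∀ U : Finset E, Adm U → W2F U < 16 →
  ∑ x ∈ nearS U, (56 - ((NB U x).card : ℝ)) ≤
    560 / 3 * ∑ x ∈ nearS U, xr x
    + 8 / 3 * (∑ x ∈ nearS U, ∑ b ∈ (nearS U).filter (fun b => b ≠ x ∧ ¬ 9 / 20 ≤ TT x b), base (TT x b))
    - 88 / 15 * ∑ x ∈ nearS U, SX U x + 441 / 1000

/-- SEL (300 lines; finite sums only).  `adj` = contact relation, n, k, s, M as for U.
PROOF.  P = {n >= 56}, Z = {n <= 55}, m_a = n a - 56 on P, Np = sum_P m_a, Nm = sum_Z (56 - n a) >= card Z, Nm <= Np + Ns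
(h3), W = (1/2) sum s, X = sum x.  kap(a,b) = number of common neighbours.  Assume no good a.
(1) sum_P M <= (add the nonnegative w(a,.)- and x-terms of the a in Z; the missing -24/125 w(b,c)-terms of the a in Z are
<= (24/125) 2W each) (2 (1017/10000) - 24/125) sum_{ordered adj (a,b)} kap(a,b) w(a,b) + (24/125) 2W card Z + 2 (229/5000) sum_b x_b k_b -
(3/1000) sum_{b in P} x_b k_b, because sum_a sum_{C a} w(a,b) = sum_{(a,b)} kap w (twice: b and c), sum_a sum_{C a} w(b,c) = sum_{(b,c)} kap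
w(b,c), sum_a sum_{(b,c) in C a} x_b = sum_b x_b k_b.
(2) kap(a,b) <= n a - 1 <= 55 + m_a, s a <= W: sum kap w <= 110 W + Np W; coefficient 2(1017/10000)-24/125 = 114/10000.
(3) k_b <= K(n b), K(n) = 1.0568 ((9/28)n^2+9n), K(55) <= 1550.8, K(56) <= 1598: (916/10000) 1550.8 <= 142.1, (886/10000) 1598 <= 142.1;
for n >= 57 (886/10000) x_b K(n) <= 142.1 x_b + .004135 (K(n) - K(56)), K(n)-K(56) = 1.0568 m (45 + (9/28) m) (n = 56+m).
(4) M a >= (44/1000)(1 - s a/(71/1000) - x_a 150/7) if n = 56, >= (3/224) n m = .75 m + (3/224) m^2 if m >= 1.  So with B0 = 44/1000: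
B0 (240 - card Z - card{m >= 1}) - B0 2W/(71/1000) - B0 X 150/7 + sum_{m>=1} (.75 m + .0133 m^2) <= .0114 (110 W + Np W) + (48/125) W card Z +
142.1 X + .00437 sum_{m>=1} m (45+.3215 m);  card Z <= Nm <= Np + Ns and the coefficient of Np on the right,
per unit m: B0 + .0114 W + (48/125) W + B0/m + .1976 + .0015 m <= .044+.0110+.361+.044+.1976+.0015m < .75 + .0133 m (W <= 94/100).  So Np drops out:
B0 240 <= B0 Ns + B0 2W/(71/1000) + B0 X 150/7 + 1.254 W + (48/125) W Ns + 142.1 X, contradicting `fin`.  (Ns may be negative; then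
use card Z <= max..: the product (B0 + (48/125) W) (Np + Ns) only needs card Z <= Np + Ns.) -/
def SpecSEL : Prop := ∀ {α : Type} [DecidableEq α] (S : Finset α) (adj : α → α → Prop)
    [DecidableRel adj] (w : α → α → ℝ) (x : α → ℝ) (Ns W X : ℝ),
    S.card = 240 → (∀ a b, adj a b → adj b a) → (∀ a, ¬ adj a a) → (∀ a b, w a b = w b a) →
    (∀ a ∈ S, ∀ b ∈ S, adj a b → 0 ≤ w a b) → (∀ a ∈ S, 0 ≤ x a) → (∀ a ∈ S, x a ≤ 7 / 150) →
    (∀ a ∈ S, 3 / 224 * ((S.filter (adj a)).card : ℝ) * (((S.filter (adj a)).card : ℝ) - 56) ≤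
      ∑ q ∈ ((S.filter (adj a)) ×ˢ (S.filter (adj a))).filter (fun q => adj q.1 q.2),
        (1017 / 10000 * (w a q.1 + w a q.2) - 24 / 125 * w q.1 q.2 + 229 / 5000 * (x q.1 + x q.2)
          - 3 / 1000 * x a)) →
    (∀ a ∈ S, ((((S.filter (adj a)) ×ˢ (S.filter (adj a))).filter
        (fun q => adj q.1 q.2)).card : ℝ) ≤
      10568 / 10000 * (9 / 28 * ((S.filter (adj a)).card : ℝ) ^ 2
        + 9 * ((S.filter (adj a)).card : ℝ))) →
    ∑ a ∈ S, ∑ b ∈ S.filter (adj a), w a b = 2 * W → ∑ a ∈ S, x a = X → W ≤ 94 / 100 →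
    ∑ a ∈ S, (56 - ((S.filter (adj a)).card : ℝ)) ≤ Ns →
    44 / 1000 * (Ns + 2 * W / (71 / 1000) + 150 / 7 * X) + 1254 / 1000 * W + 48 / 125 * W * Ns
      + 1421 / 10 * X < 44 / 1000 * 240 →
    ∃ a ∈ S, (S.filter (adj a)).card = 56 ∧
      (∑ q ∈ ((S.filter (adj a)) ×ˢ (S.filter (adj a))).filter (fun q => adj q.1 q.2),
        (1017 / 10000 * (w a q.1 + w a q.2) - 24 / 125 * w q.1 q.2 + 229 / 5000 * (x q.1 + x q.2)
          - 3 / 1000 * x a)) / (44 / 1000)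
      + (∑ b ∈ S.filter (adj a), w a b) / (71 / 1000) + x a * (150 / 7) < 1

/-- XR (20 lines): the sharper radial certificate (NRZ.near_x2, kappa_X = .0745): .0084/.0745 (2/5) <= .0451. -/
def SpecXR : Prop := ∀ U : Finset E, Adm U → W2F U < 16 → ∑ u ∈ nearS U, xr u ≤ 451 / 10000

/-- The joint certificate with the second pair shape (helper37 / helper59), kappa = .044, p'/2 = 1.1e-4:
2.5 kappa sum xr + (p'/2) sum over ordered near pairs of min(base(T)/base(9/20), 20(1/2 - T)) <= .0084. -/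
def SpecCJ : Prop := ∀ U : Finset E, Adm U → W2F U < 16 →
  11 / 100 * ∑ u ∈ nearS U, xr u + 11 / 100000 * ∑ u ∈ nearS U, ∑ v ∈ (nearS U).erase u,
    min (base (TT u v) / base (9 / 20)) (20 * (1 / 2 - TT u v)) ≤ 84 / 10000

/-- SLC (150 lines): the good centre, from LLB, CNT, SEL, CJ, XR, RBD.
PROOF.  SEL with adj a b := a /= b and 9/20 <= TT a b (on S), w = sl, x = xr.  b0 = base(9/20) = .2649933.  Contact pairs: min =
20 sl (base is increasing on [9/20,1/2], so base T/b0 >= 1 >= 20 sl), other pairs: min = base T/b0 (20(1/2-T) >= 1 >= base T/b0 for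
-1 <= T <= 9/20).  So .11 X + 1.1e-4 (B/b0 + 40 W) <= .0084, X <= .0451.  W <= 94/100 from RBD.phi: contact pairs have
base(T)(1/2-T) >= b0 sl, 2W b0 <= .4942.  Ns = (560/3) X + (8/3) B - (176/15) W + .441.  `fin`: the left side is increasing in B, so put B =
b0 (76.364 - 1000 X - 40 W) (drop B >= 0); then, for fixed W, it is affine in X: at X = .0451 a quadratic polynomial in W with maximum 10.39
(W = .41), at X = 0 one with maximum 10.03 (W = .70), both < 10.56. -/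
def SpecSLC : Prop := ∀ U : Finset E, Adm U → W2F U < 16 → ∃ x ∈ nearS U, (NB U x).card = 56 ∧
  Mx U x / (44 / 1000) + SX U x / (71 / 1000) + xr x * (150 / 7) < 1

/-- ANT0 (180 lines): the first antipodal map (same proof as ANT.lean, weaker input, weaker output).
PROOF.  (1) KER7.a: sum_{b /= c} A7 >= 56, contacts <= 23/50: the non-contact ordered pairs have A7-sum >= 55.54.
(2) their G7-sum is <= 3.755; for t >= -21/25 A7 <= (11/32) G7: at most 1.291, so more than 54.2 pairs have t < -21/25; they form a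
matching (up <= 39/100), even number: 56.  near: if t = -1+v with 1/10 < v <= 4/25 then G7 >= 1.0693, so all other non-contact
ordered pairs have G7-sum <= 1.6164, each unordered non-matched pair has t > -.68, where A7 <= .1485 G7: A7-sum <= 54 +
2(.6182) + .1485 (1.6164) = 55.477 < 55.54. -/
def SpecANT0 : Prop :=
  ∀ {α : Type} [DecidableEq α] (N : Finset α) (p : α → V7) (C : Finset (α × α)),
    LK N p C (3755 / 1000) (23 / 50) → ∃ σ : α → α,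
      (∀ b ∈ N, σ b ∈ N ∧ σ (σ b) = b ∧ σ b ≠ b) ∧
      ∀ b ∈ N, (inner ℝ (p b) (p (σ b)) : ℝ) ≤ -9 / 10

/-- DEG (60 lines): every link vector has at most 27 contacts.
PROOF.  c with (b,c) in C, b /= c: t >= 19/75, so c /= sigma b.  If also (b, sigma c) in C: <p b, p c + p (sigma c)> >= 38/75 > .5,
but |p c + p (sigma c)|^2 = 2 + 2t <= 1/5, |.| <= .4473.  So at most one element of each of the 27 other pairs. -/
def SpecDEG : Prop :=
  ∀ {α : Type} [DecidableEq α] (N : Finset α) (p : α → V7) (C : Finset (α × α)) (B cA : ℝ)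
    (σ : α → α), LK N p C B cA → (∀ b ∈ N, σ b ∈ N ∧ σ (σ b) = b ∧ σ b ≠ b) →
    (∀ b ∈ N, (inner ℝ (p b) (p (σ b)) : ℝ) ≤ -9 / 10) →
    ∀ b ∈ N, (N.filter (fun c => c ≠ b ∧ (b, c) ∈ C)).card ≤ 27

/-- CCT (80 lines): contact sums.  T in [11/25, 27/50], p = max(T - 1/2, 0), tau = max(1/2 - T, 0).
PROOF.  pointwise: (T-1/2)^2 <= (33/100) F7 T + (141/1000) p: for T <= 1/2, T = 1/2 - tau: tau^2 <= .33 (1/2-tau)^2 tau (1-tau), i.e.
tau <= .33 (1/2-tau)^2(1-tau), true for tau <= 3/50; for T = 1/2+p: p^2 + .33 p(1+p)(1/2+p)^2 <= .141 p for p <= 1/25.  A7((4T-1)/3) =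
(1/2-T)^2 (2T)^2 <= (64/250) F7 T + p/8 likewise (tau (2T)^2 <= .256 T^2 (1-tau), i.e. tau <= .064 (1 - tau); p (1+2p)^2 + .256 (1+p)(1/2+p)^2 <=
.125).  Sum with sum F7 <= 0. -/
structure SpecCCT : Prop where
  sq : ∀ {ι : Type} (s : Finset ι) (T : ι → ℝ), (∀ i ∈ s, 11 / 25 ≤ T i) → (∀ i ∈ s, T i ≤ 27 / 50) →
    0 ≤ ∑ i ∈ s, -F7 (T i) →
    ∑ i ∈ s, (T i - 1 / 2) ^ 2 ≤ 141 / 1000 * ∑ i ∈ s, max (T i - 1 / 2) 0
  a7 : ∀ {ι : Type} (s : Finset ι) (T : ι → ℝ), (∀ i ∈ s, 11 / 25 ≤ T i) → (∀ i ∈ s, T i ≤ 27 / 50) →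
    0 ≤ ∑ i ∈ s, -F7 (T i) →
    ∑ i ∈ s, A7 ((4 * T i - 1) / 3) ≤ 1 / 8 * ∑ i ∈ s, max (T i - 1 / 2) 0

/-- CCS (60 lines): excess sum of the link of x, with degree bound D.
PROOF.  GEO.ex, LLB.tr: max(hT - 1/2, 0) <= (7/20)(sl x b + sl x c) + (7/40)(xr b + xr c); each b occurs as first element in at most D
pairs (and as second, CB is symmetric). -/
def SpecCCS : Prop := ∀ U : Finset E, Adm U → W2F U < 16 → ∀ x ∈ nearS U, ∀ D : ℕ,
  (∀ b ∈ NB U x, ((NB U x).filter (fun c => c ≠ b ∧ (b, c) ∈ CB U x)).card ≤ D) →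
  ∑ q ∈ CB U x, max (hT x q.1 q.2 - 1 / 2) 0 ≤
    D * (7 / 10 * SX U x + 7 / 20 * ∑ b ∈ NB U x, xr b)

/-- LPT (350 lines; real numbers; same notation and same variables as SpecLPI): pointwise bounds.
Numerical minima of the cost C = 2 sum f + 2F7(-1/2+2a) + 2F7(-1/2+2b) (searched by descent): T1 >= 1/4: .0450 (delta = .079, r = .171, m =
.44, s = 0, a = b = .0098); T1 <= -1/4: .0506; T4 <= 1/4: .0446 (delta = .092, r = 0, m = .394, s = .146, T3 = .54, a = b = .0071, z = -.0071), all > .0441.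
HINT: as in SpecLPI: Q(a)+Q(b) >= .668 (a+b), r^2+s^2 <= (3/2)(a+b), 2|z| <= a+b, T3 = m+s <= 27/50; delta = 1/2 + 2z - m.  Case T4 =
m - s <= 1/4: m <= .395, s >= m - 1/4, C >= 2F7(T4) + [T3 < .44: 2F7(T3)] + (delta^2 - 4 delta^4 + r-terms) + .4453 (r^2+s^2), or with the
weight of 2|z| = a+b.  A subdivision in (m, s, a+b) (helper59's tool) is fine. -/
def SpecLPT : Prop :=
  ∀ g a b c1 c2 z T1 T2 T3 T4 f1 f2 f3 f4 : ℝ, 0 ≤ g → 0 ≤ a → 0 ≤ b → a ≤ 3 / 80 → b ≤ 3 / 80 →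
    a + b ≤ 27 / 640 → c1 ^ 2 ≤ 3 / 4 * b → c2 ^ 2 ≤ 3 / 4 * a → z ^ 2 ≤ a * b →
    T1 = 1 / 4 - g + (c1 - c2) + z → T2 = 1 / 4 - g - (c1 - c2) + z →
    T3 = 1 / 4 + g + (c1 + c2) + z → T4 = 1 / 4 + g - (c1 + c2) + z →
    -19 / 50 ≤ T1 → -19 / 50 ≤ T2 → -19 / 50 ≤ T3 → -19 / 50 ≤ T4 →
    T1 ≤ 27 / 50 → T2 ≤ 27 / 50 → T3 ≤ 27 / 50 → T4 ≤ 27 / 50 →
    0 ≤ f1 → 0 ≤ f2 → 0 ≤ f3 → 0 ≤ f4 →
    (f1 = F7 T1 ∨ 11 / 25 ≤ T1) → (f2 = F7 T2 ∨ 11 / 25 ≤ T2) →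
    (f3 = F7 T3 ∨ 11 / 25 ≤ T3) → (f4 = F7 T4 ∨ 11 / 25 ≤ T4) →
    2 * (f1 + f2 + f3 + f4) + 2 * F7 (-1 / 2 + 2 * a) + 2 * F7 (-1 / 2 + 2 * b) ≤ 441 / 10000 →
    (-1 / 4 ≤ T1 ∧ T1 ≤ 1 / 4) ∧ (-1 / 4 ≤ T2 ∧ T2 ≤ 1 / 4) ∧ 1 / 4 ≤ T3 ∧ 1 / 4 ≤ T4

/-- ERL (200 lines): the Gram error of a labelled link (sigma, phi as in LKL.link_label).
PROOF.  For b, c in different antipodal pairs apply LPT as LIN does LPI (budget (3/256) 3.755 <= .0441; T <= 27/50 is `hup`): if the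
label <phi b,phi c> is 1/2 (the sign of <yv b,yv c> is positive) then T >= 1/4, if it is 0 then |T| <= 1/4 (so (b,c) is no contact).
t = (4T-1)/3.  Non-contact pairs: label 0: (t+1/3)^2 = (16/9) T^2 <= G7 t/9 = (256/27) T^2 (1/4 - T^2) since T^2 <= 1/16; label 1/2, 1/4 <= T
<= 1/2: (16/9)(1/2-T)^2 <= (256/27) T^2 (1/2-T)(1/2+T) since 1/2-T <= (16/3) T^2 (1/2+T) for T >= 1/4; antipodal pairs: tst = -1, t = -1+v,
v <= 1/10: v^2 <= v (4-3v)(2-3v)^2/9.  Diagonal: 0.  Contact pairs: label 1/2, tst = 1/3.  Sum of G7 over the non-contact pairs <= B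
(`bud`, KER7.t2). -/
def SpecERL : Prop :=
  ∀ {α : Type} [DecidableEq α] (N : Finset α) (p : α → V7) (C : Finset (α × α)) (B cA : ℝ)
    (σ : α → α) (x : E) (φ : α → E), LK N p C B cA → B ≤ 3755 / 1000 → cA ≤ 3 / 10 →
    (∀ b ∈ N, ∀ c ∈ N, b ≠ c → (inner ℝ (p b) (p c) : ℝ) ≤ 29 / 75) →
    AN N p σ → x ∈ UE → Set.BijOn φ N (nb x) → (∀ b ∈ N, φ (σ b) = x - φ b) →
    (∀ b ∈ N, ∀ c ∈ N, c ≠ b → c ≠ σ b →
      (0 < (inner ℝ (yv p σ b) (yv p σ c) : ℝ) ∧ (inner ℝ (φ b) (φ c) : ℝ) = 1 / 2) ∨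
      ((inner ℝ (yv p σ b) (yv p σ c) : ℝ) < 0 ∧ (inner ℝ (φ b) (φ c) : ℝ) = 0)) →
    ∑ b ∈ N, ∑ c ∈ N, ((inner ℝ (p b) (p c) : ℝ) - tst φ b c) ^ 2 ≤
      B / 9 + ∑ q ∈ N.offDiag.filter (fun q => q ∈ C), ((inner ℝ (p q.1) (p q.2) : ℝ) - 1 / 3) ^ 2

/-- RAD (100 lines): radial part of the pins.  r = |x|, n = x/r, a b = <n,b>, c b = sqrt(|b|^2 - (a b)^2); h = xr x, w = sl x b, y = xr b.
PROOF.  a = (1/2 - w - hy/2)/sqrt(1-h), so 1/2 - w <= a <= 1/2 - w + .27 h (upper: 1/sqrt(1-h) <= 1 + .53 h; lower: >= 1 + h/2 and y <= 7/150), e :=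
|a - 1/2| satisfies e^2 <= w^2 + .0729 h^2; c^2 - 3/4 = -y - (a-1/2)(a+1/2), c + sqrt3/2 >= 1.70, a + 1/2 <= 1.013: (c-sqrt3/2)^2 <= (y +
1.013 e)^2/2.89 <= .7 y^2 + .72 e^2.  Sum: 1.72 (sum w^2 + 56 (.0729) h^2) + .7 sum y^2 + (1-r)^2, (1-r)^2 <= .26 h^2, sum w^2 <= SX/20, sum y^2 <=
(7/150)^2 <= .00218, total <= .086 SX + 7.3 h^2 + .0016, h^2 <= (7/150) h: 7.3 (7/150) = .341. -/
def SpecRAD : Prop := ∀ U : Finset E, Adm U → W2F U < 16 → ∀ x ∈ nearS U, (NB U x).card = 56 →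
  (∀ b ∈ NB U x, b = ((inner ℝ x b : ℝ) / ‖x‖) • (‖x‖⁻¹ • x)
      + Real.sqrt (‖b‖ ^ 2 - ((inner ℝ x b : ℝ) / ‖x‖) ^ 2) • hq x b) ∧
  (∀ b ∈ NB U x, Real.sqrt (‖b‖ ^ 2 - ((inner ℝ x b : ℝ) / ‖x‖) ^ 2) ≤ 895 / 1000) ∧
  (1 - ‖x‖) ^ 2 + ∑ b ∈ NB U x, (((inner ℝ x b : ℝ) / ‖x‖ - 1 / 2) ^ 2
      + (Real.sqrt (‖b‖ ^ 2 - ((inner ℝ x b : ℝ) / ‖x‖) ^ 2) - √3 / 2) ^ 2) ≤
    86 / 1000 * SX U x + 342 / 1000 * xr x + 16 / 10000

/-- OUTPUT of STAB1: the 57 pins (input of TSGM.sum_star).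
PROOF (assembly, 150 lines).  x from SLC; sg = SX/(71/1000), th = xr x (150/7), 0 <= Lx <= Mx < (44/1000)(1 - sg - th).  B = (256/3) Lx <= 3.755.
CCS with D = 55, CCT.a7: contact A7-sum <= (1/8) 55 ((7/10) .071 + (7/20)(7/150)) <= .4541 <= 23/50: LK (3755/1000) (23/50) (LLB.lk), ANT0,
DEG, so CCS with D = 27: A7-sum <= .2229 <= 3/10: LK N p C B (3/10), LK.mono, link_label; ERR: Err <= B/9 + (16/9) sum_C (hT-1/2)^2 <=
.4172 (1-sg-th) + (16/9)(.141)(27)((7/10)(.071) sg + (7/20)(7/150)) <= .4172 (1-sg-th) + .3364 sg + .1106 <= .5278; pins_err with cm = 895/1000: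
s <= Err/15.96 (32/5 s <= Err and 16 s - s^2 <= Err), eta <= (sqrt3/2)(.895) s + .086 (.071) sg + .342 (7/150) th + .0016 <= .0486 Err + .0062 sg + .016 th
+ .0016: <= .0273 (sg = th = 0), .0296 (sg = 1), .023 (th = 1). -/
def SpecPINS : Prop := ∀ U : Finset E, Adm U → W2F U < 16 →
  ∃ (x : E) (p : E → E) (A : E ≃ₗᵢ[ℝ] E), x ∈ UE ∧ (∀ b ∈ insert x (nb x), p b ∈ nearS U) ∧
    Set.InjOn p (insert x (nb x) : Finset E) ∧
    ∑ b ∈ insert x (nb x), ‖A (p b) - b‖ ^ 2 ≤ 3 / 100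

end Pool.Agent.Lib.MP_f1379f_gt.FV
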