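import Pool.Agent.Lib.MP_f1379f_gt.FV.SpecO

section
/-!
# MP_f1379f_gt, block O, module F6V: the wall
-/
set_option autoImplicit false

open MeasureTheory

namespace Pool.Agent.Lib.MP_f1379f_gt.FV

namespace F6VM

theorem self (h : SpecUEF) {e : E} (he : e ∈ UE) : (inner ℝ e e : ℝ) = 1 := by
  rw [real_inner_self_eq_norm_sq, h.nrm e he]
  norm_num

theorem le_half (h : SpecUEF) {e f : E} (he : e ∈ UE) (hf : f ∈ UE) (hne : e ≠ f) :
    (inner ℝ e f : ℝ) ≤ 1 / 2 := by
  rcases h.ip e he f hf with h1 | h1 | h1 | h1 | h1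
  · exact absurd (h.one e he f hf h1) hne
  · rw [h1]
  · rw [h1]; norm_num
  · rw [h1]; norm_num
  · rw [h1]; norm_num

theorem mem_nb {a e : E} (he : e ∈ nb a) : e ∈ UE ∧ (inner ℝ e a : ℝ) = 1 / 2 := by
  unfold nb at he
  exact (Finset.mem_filter.1 he)

theorem of_ob {a e : E} (he : e ∈ UE) (hea : (inner ℝ e a : ℝ) = 0) : e ∈ ob a := by
  unfold ob
  exact Finset.mem_filter.2 ⟨he, hea⟩

theorem in_Sp {e a : E} (x : Sp e a) : (inner ℝ e (x : E) : ℝ) = 0 ∧ (inner ℝ a (x : E) : ℝ) = 0 := by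
  have hx := x.2
  unfold Sp at hx
  rw [Submodule.mem_orthogonal] at hx
  exact ⟨hx e (Submodule.subset_span (by simp)), hx a (Submodule.subset_span (by simp))⟩

/-- two of twelve are not enough -/
theorem exists_third {S : Set E} (hS : S.ncard = 12) (p q : E) : ∃ f ∈ S, f ≠ p ∧ f ≠ q := by
  have h1 : ({p, q} : Set E).ncard < S.ncard := by
    rw [hS]
    exact lt_of_le_of_lt (Set.ncard_insert_le _ _) (by rw [Set.ncard_singleton]; norm_num)
  obtain ⟨f, hf, hf'⟩ := Set.exists_mem_notMem_of_ncard_lt_ncard h1 (Set.toFinite _)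
  refine ⟨f, hf, ?_, ?_⟩
  · rintro rfl
    exact hf' (by simp)
  · rintro rfl
    exact hf' (by simp)

/-- the claim -/
theorem low (h : SpecUEF) {a e : E} (ha : a ∈ UE) (he : e ∈ UE) (hea : (inner ℝ e a : ℝ) = 1 / 2)
    (x : Sp e a) (hx : x ∈ F6 e a) {w : E} (hw : w ∈ UE) (hwe : (inner ℝ w e : ℝ) = 1 / 2)
    (hwa : (inner ℝ w a : ℝ) = 1 / 2) : -2 / 3 ≤ (inner ℝ w (x : E) : ℝ) := by
  have hae : (inner ℝ a e : ℝ) = 1 / 2 := by rw [real_inner_comm]; exact hea
  have hew : (inner ℝ e w : ℝ) = 1 / 2 := by rw [real_inner_comm]; exact hwe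
  have haw : (inner ℝ a w : ℝ) = 1 / 2 := by rw [real_inner_comm]; exact hwa
  have hs : e - w ∈ UE := h.sub e he w hw hew
  have hsa : (inner ℝ (e - w) a : ℝ) = 0 := by rw [inner_sub_left, hea, hwa]; norm_num
  obtain ⟨f, ⟨hf, hfs, hfa⟩, hfe, hfaw⟩ := exists_third (h.c12 a ha (e - w) (of_ob hs hsa)) e (a - w)
  have hsf : (inner ℝ (e - w) f : ℝ) = 1 / 2 := by rw [real_inner_comm]; exact hfs
  have haf : (inner ℝ a f : ℝ) = 1 / 2 := by rw [real_inner_comm]; exact hfa
  have h1 : (e - w) - f ∈ UE := h.sub _ hs f hf hsf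
  have has : (inner ℝ a (e - w) : ℝ) = 0 := by rw [real_inner_comm]; exact hsa
  have h2 : a + ((e - w) - f) ∈ UE := by
    refine h.add a ha _ h1 ?_
    rw [inner_sub_right, has, haf]
    norm_num
  -- products with `e`
  have hsum : (inner ℝ f e : ℝ) + inner ℝ (a + ((e - w) - f)) e = 1 := by
    rw [inner_add_left, inner_sub_left, inner_sub_left, hae, hwe, self h he]
    ring
  have k1 : (inner ℝ f e : ℝ) ≤ 1 / 2 := le_half h hf he hfe
  have k2 : (inner ℝ (a + ((e - w) - f)) e : ℝ) ≤ 1 / 2 := by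
    refine le_half h h2 he ?_
    intro hh
    apply hfaw
    have h3 : a + ((e - w) - f) - e = 0 := by rw [hh, sub_self]
    have h4 : a + ((e - w) - f) - e = (a - w) - f := by abel
    rw [h4] at h3
    exact (sub_eq_zero.1 h3).symm
  have k3 : (inner ℝ f e : ℝ) = 1 / 2 := by linarith
  have k4 : (inner ℝ (a + ((e - w) - f)) e : ℝ) = 1 / 2 := by linarith
  have k5 : (inner ℝ (a + ((e - w) - f)) a : ℝ) = 1 / 2 := by
    rw [inner_add_left, inner_sub_left, hsa, hfa, self h ha]
    ring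
  have b1 := hx f hf k3 hfa
  have b2 := hx _ h2 k4 k5
  rw [inner_add_left, inner_sub_left, inner_sub_left, (in_Sp x).1, (in_Sp x).2] at b2
  linarith

end F6VM

open F6VM in
theorem specF6V (h : SpecUEF) : SpecF6V := by
  have hmem : ∀ a ∈ UE, ∀ e ∈ nb a, ∀ x ∈ F6 e a, (2 / 3 : ℝ) • (e + a) + (x : E) ∈ poly UE := by
    intro a ha e he' x hx b hb
    obtain ⟨he, hea⟩ := mem_nb he'
    have hae : (inner ℝ a e : ℝ) = 1 / 2 := by rw [real_inner_comm]; exact hea
    obtain ⟨hxe, hxa⟩ := in_Sp x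
    have hlow : ∀ w ∈ UE, (inner ℝ w e : ℝ) = 1 / 2 → (inner ℝ w a : ℝ) = 1 / 2 →
        -2 / 3 ≤ (inner ℝ w (x : E) : ℝ) := fun w hw h1 h2 => low h ha he hea x hx hw h1 h2
    have hz : (inner ℝ b ((2 / 3 : ℝ) • (e + a) + (x : E)) : ℝ) =
        2 / 3 * ((inner ℝ b e : ℝ) + inner ℝ b a) + inner ℝ b (x : E) := by
      rw [inner_add_right, real_inner_smul_right, inner_add_right]
    rw [hz]
    rcases h.ip b hb e he with p | p | p | p | p
    · -- `b = e`
      have hbe := h.one b hb e he p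
      subst hbe
      rw [p, hea, hxe]
      norm_num
    · rcases h.ip b hb a ha with q | q | q | q | q
      · have hba := h.one b hb a ha q
        subst hba
        rw [q, p, hxa]
        norm_num
      · have := hx b hb p q
        rw [p, q]
        linarith
      · -- (1/2, 0)
        have h1 : e - b ∈ UE := h.sub e he b hb (by rw [real_inner_comm]; exact p)
        have h2 := hlow (e - b) h1 (by rw [inner_sub_left, self h he, p]; norm_num)
          (by rw [inner_sub_left, hea, q]; norm_num)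
        rw [inner_sub_left, hxe] at h2
        rw [p, q]
        linarith
      · -- (1/2, -1/2)
        have h1 : e - a ∈ UE := h.sub e he a ha hea
        have h2 : b = e - a := by
          refine h.one b hb _ h1 ?_
          rw [inner_sub_right, p, q]
          norm_num
        rw [p, q, h2, inner_sub_left, hxe, hxa]
        norm_num
      · have h2 : -b = a := by
          refine h.one (-b) (h.neg b hb) a ha ?_
          rw [inner_neg_left, q]
          norm_num
        have h3 : (inner ℝ b (x : E) : ℝ) = 0 := by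
          have : (inner ℝ (-b) (x : E) : ℝ) = 0 := by rw [h2]; exact hxa
          rw [inner_neg_left] at this
          linarith
        rw [p, q, h3]
        norm_num
    · rcases h.ip b hb a ha with q | q | q | q | q
      · have hba := h.one b hb a ha q
        subst hba
        rw [hae] at p
        norm_num at p
      · -- (0, 1/2)
        have h1 : a - b ∈ UE := h.sub a ha b hb (by rw [real_inner_comm]; exact q)
        have h2 := hlow (a - b) h1 (by rw [inner_sub_left, hae, p]; norm_num)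
          (by rw [inner_sub_left, self h ha, q]; norm_num)
        rw [inner_sub_left, hxa] at h2
        rw [p, q]
        linarith
      · -- (0, 0)
        obtain ⟨f, ⟨hf, hfb, hfe⟩, -, -⟩ := exists_third (h.c12 e he b (of_ob hb p)) 0 0
        have hbf : (inner ℝ b f : ℝ) = 1 / 2 := by rw [real_inner_comm]; exact hfb
        have hef : (inner ℝ e f : ℝ) = 1 / 2 := by rw [real_inner_comm]; exact hfe
        have heb : (inner ℝ e b : ℝ) = 0 := by rw [real_inner_comm]; exact p
        have hab : (inner ℝ a b : ℝ) = 0 := by rw [real_inner_comm]; exact q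
        have h1 : b - f ∈ UE := h.sub b hb f hf hbf
        have h2 : e + (b - f) ∈ UE := by
          refine h.add e he _ h1 ?_
          rw [inner_sub_right, heb, hef]
          norm_num
        have key : ∀ w ∈ UE, (inner ℝ w b : ℝ) = 1 / 2 → (inner ℝ w e : ℝ) = 1 / 2 →
            (inner ℝ w a : ℝ) = 1 / 2 → (inner ℝ b (x : E) : ℝ) ≤ 1 := by
          intro w hw w1 w2 w3
          have c1 := hx w hw w2 w3
          have c2 := hlow (w - b) (h.sub w hw b hb w1) (by rw [inner_sub_left, w2, p]; norm_num)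
            (by rw [inner_sub_left, w3, q]; norm_num)
          rw [inner_sub_left] at c2
          linarith
        have hfin : (inner ℝ b (x : E) : ℝ) ≤ 1 := by
          have hsum : (inner ℝ f a : ℝ) + inner ℝ (e + (b - f)) a = 1 / 2 := by
            rw [inner_add_left, inner_sub_left, hea, q]
            ring
          have f'b : (inner ℝ (e + (b - f)) b : ℝ) = 1 / 2 := by
            rw [inner_add_left, inner_sub_left, heb, self h hb, hfb]
            norm_num
          have f'e : (inner ℝ (e + (b - f)) e : ℝ) = 1 / 2 := by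
            rw [inner_add_left, inner_sub_left, self h he, p, hfe]
            norm_num
          have g1 : (inner ℝ f a : ℝ) ≤ 1 / 2 := by
            refine le_half h hf ha ?_
            rintro rfl
            rw [hab] at hfb
            norm_num at hfb
          have g2 : (inner ℝ (e + (b - f)) a : ℝ) ≤ 1 / 2 := by
            refine le_half h h2 ha ?_
            intro hh
            rw [hh, hab] at f'b
            norm_num at f'b
          rcases h.ip f hf a ha with r | r | r | r | r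
          · rw [r] at g1; norm_num at g1
          · exact key f hf hfb hfe r
          · exact key _ h2 f'b f'e (by linarith)
          · rw [r] at hsum; linarith
          · rw [r] at hsum; linarith
        rw [p, q]
        linarith
      · -- (0, -1/2)
        have h1 : a + b ∈ UE := h.add a ha b hb (by rw [real_inner_comm]; exact q)
        have h2 := hx (a + b) h1 (by rw [inner_add_left, hae, p]; norm_num)
          (by rw [inner_add_left, self h ha, q]; norm_num)
        rw [inner_add_left, hxa] at h2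
        rw [p, q]
        linarith
      · have h2 : -b = a := by
          refine h.one (-b) (h.neg b hb) a ha ?_
          rw [inner_neg_left, q]
          norm_num
        have h3 : (inner ℝ (-b) e : ℝ) = 1 / 2 := by rw [h2]; exact hae
        rw [inner_neg_left, p] at h3
        norm_num at h3
    · rcases h.ip b hb a ha with q | q | q | q | q
      · have hba := h.one b hb a ha q
        subst hba
        rw [hae] at p
        norm_num at p
      · -- (-1/2, 1/2)
        have h1 : a - e ∈ UE := h.sub a ha e he hae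
        have h2 : b = a - e := by
          refine h.one b hb _ h1 ?_
          rw [inner_sub_right, p, q]
          norm_num
        rw [p, q, h2, inner_sub_left, hxe, hxa]
        norm_num
      · -- (-1/2, 0)
        have h1 : e + b ∈ UE := h.add e he b hb (by rw [real_inner_comm]; exact p)
        have h2 := hx (e + b) h1 (by rw [inner_add_left, self h he, p]; norm_num)
          (by rw [inner_add_left, hea, q]; norm_num)
        rw [inner_add_left, hxe] at h2
        rw [p, q]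
        linarith
      · -- (-1/2, -1/2)
        have h2 := hlow (-b) (h.neg b hb) (by rw [inner_neg_left, p]; norm_num)
          (by rw [inner_neg_left, q]; norm_num)
        rw [inner_neg_left] at h2
        rw [p, q]
        linarith
      · have h2 : -b = a := by
          refine h.one (-b) (h.neg b hb) a ha ?_
          rw [inner_neg_left, q]
          norm_num
        have h3 : (inner ℝ b (x : E) : ℝ) = 0 := by
          have : (inner ℝ (-b) (x : E) : ℝ) = 0 := by rw [h2]; exact hxa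
          rw [inner_neg_left] at this
          linarith
        rw [p, q, h3]
        norm_num
    · -- `b = -e`
      have h2 : -b = e := by
        refine h.one (-b) (h.neg b hb) e he ?_
        rw [inner_neg_left, p]
        norm_num
      have h3 : (inner ℝ b (x : E) : ℝ) = 0 := by
        have : (inner ℝ (-b) (x : E) : ℝ) = 0 := by rw [h2]; exact hxe
        rw [inner_neg_left] at this
        linarith
      have h4 : (inner ℝ b a : ℝ) = -1 / 2 := by
        have : (inner ℝ (-b) a : ℝ) = 1 / 2 := by rw [h2]; exact hea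
        rw [inner_neg_left] at this
        linarith
      rw [p, h3, h4]
      norm_num
  refine ⟨hmem, ?_, ?_⟩
  · intro a ha e he' x hx
    obtain ⟨he, hea⟩ := mem_nb he'
    obtain ⟨hxe, hxa⟩ := in_Sp x
    have hz := hmem a ha e he' x hx
    obtain ⟨r, hr, h1, h2⟩ := h.cov ((2 / 3 : ℝ) • (e + a) + (x : E))
    have h3 := hz r hr
    have h4 : (inner ℝ r ((2 / 3 : ℝ) • (e + a) + (x : E)) : ℝ) ^ 2 ≤ 1 := by
      have : (inner ℝ r ((2 / 3 : ℝ) • (e + a) + (x : E)) : ℝ) ^ 2 ≤ 1 ^ 2 :=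
        pow_le_pow_left₀ h1 h3 2
      rwa [one_pow] at this
    have h5 : ‖(2 / 3 : ℝ) • (e + a) + (x : E)‖ ^ 2 = 4 / 3 + ‖(x : E)‖ ^ 2 := by
      rw [norm_add_sq_real, norm_smul, mul_pow, norm_add_sq_real, h.nrm e he, h.nrm a ha, hea,
        real_inner_smul_left, inner_add_left, hxe, hxa, Real.norm_eq_abs, sq_abs]
      norm_num
    linarith
  · intro e a
    unfold F6o
    refine MeasurableSet.inter (s₁ := {x : Sp e a | x ∈ F6 e a})
      (s₂ := {x : Sp e a | 1 / 3 < ‖x‖ ^ 2}) ?_ ?_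
    · refine IsClosed.measurableSet ?_
      have hset : {x : Sp e a | x ∈ F6 e a} = ⋂ b ∈ {b : E | b ∈ UE ∧ (inner ℝ b e : ℝ) = 1 / 2 ∧
          (inner ℝ b a : ℝ) = 1 / 2}, {x : Sp e a | (inner ℝ b (x : E) : ℝ) ≤ 1 / 3} := by
        ext x
        rw [Set.mem_iInter₂]
        constructor
        · rintro hx b ⟨h1, h2, h3⟩
          exact hx b h1 h2 h3
        · intro hx b h1 h2 h3
          exact hx b ⟨h1, h2, h3⟩
      rw [hset]
      refine isClosed_biInter fun b _ => ?_
      exact isClosed_le (continuous_const.inner continuous_subtype_val) continuous_const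
    · exact (isOpen_lt continuous_const (continuous_norm.pow 2)).measurableSet

end Pool.Agent.Lib.MP_f1379f_gt.FV
end

section
/-!
# MP_f1379f_gt, block O, module NUT: transport of the wall measures
-/
set_option autoImplicit false

namespace Pool.Agent.Lib.MP_f1379f_gt.FV

open MeasureTheory

namespace NUTM

theorem mem_Sp (e a x : E) :
    x ∈ Sp e a ↔ (inner ℝ e x : ℝ) = 0 ∧ (inner ℝ a x : ℝ) = 0 := by
  unfold Sp
  rw [Submodule.mem_orthogonal]
  constructor
  · intro h
    exact ⟨h e (Submodule.subset_span (by simp)), h a (Submodule.subset_span (by simp))⟩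
  · rintro ⟨h1, h2⟩ u hu
    obtain ⟨s, t, rfl⟩ := Submodule.mem_span_pair.1 hu
    rw [inner_add_left, inner_smul_left, inner_smul_left, h1, h2]
    simp

/-- The isometry between the orthogonal complements. -/
noncomputable def tau (T : E ≃ₗᵢ[ℝ] E) (e a : E) : Sp e a ≃ₗᵢ[ℝ] Sp (T e) (T a) where
  toFun x := ⟨T x, by
    have h := (mem_Sp e a x).1 x.2
    rw [mem_Sp, T.inner_map_map, T.inner_map_map]
    exact h⟩
  invFun y := ⟨T.symm y, by
    have h := (mem_Sp (T e) (T a) y).1 y.2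
    rw [mem_Sp]
    have e1 : ∀ z : E, (inner ℝ z (T.symm (y : E)) : ℝ) = inner ℝ (T z) (y : E) := by
      intro z
      rw [← T.inner_map_map z (T.symm (y : E)), T.apply_symm_apply]
    rw [e1, e1]
    exact h⟩
  map_add' x y := by ext1; simp
  map_smul' c x := by ext1; simp
  left_inv x := by ext1; simp
  right_inv y := by ext1; simp
  norm_map' x := by
    change ‖T (x : E)‖ = ‖(x : E)‖
    exact T.norm_map _

theorem tau_coe (T : E ≃ₗᵢ[ℝ] E) (e a : E) (x : Sp e a) :
    ((tau T e a x : Sp (T e) (T a)) : E) = T (x : E) := rfl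

theorem surj_UE (T : E ≃ₗᵢ[ℝ] E) (hT : ∀ f ∈ UE, T f ∈ UE) (b : E) (hb : b ∈ UE) :
    ∃ f ∈ UE, T f = b := by
  classical
  have h1 : UE.image T ⊆ UE := by
    intro x hx
    obtain ⟨f, hf, rfl⟩ := Finset.mem_image.1 hx
    exact hT f hf
  have h2 : UE.image T = UE := by
    apply Finset.eq_of_subset_of_card_le h1
    rw [Finset.card_image_of_injective _ T.injective]
  rw [← h2] at hb
  obtain ⟨f, hf, hfb⟩ := Finset.mem_image.1 hb
  exact ⟨f, hf, hfb⟩

theorem F6o_meas (e a : E) : MeasurableSet (F6o e a) := by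
  have h1 : IsClosed (F6 e a) := by
    have : F6 e a = ⋂ b : E, ⋂ (_ : b ∈ UE), ⋂ (_ : (inner ℝ b e : ℝ) = 1 / 2),
        ⋂ (_ : (inner ℝ b a : ℝ) = 1 / 2), {x : Sp e a | (inner ℝ b (x : E) : ℝ) ≤ 1 / 3} := by
      ext x
      simp only [F6, Set.mem_ofPred_eq, Set.mem_iInter]
    rw [this]
    refine isClosed_iInter fun b => isClosed_iInter fun _ => isClosed_iInter fun _ =>
      isClosed_iInter fun _ => ?_
    exact isClosed_le (continuous_const.inner continuous_subtype_val) continuous_const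
  have h2 : MeasurableSet {x : Sp e a | 1 / 3 < ‖x‖ ^ 2} :=
    measurableSet_lt measurable_const (continuous_norm.pow 2).measurable
  exact h1.measurableSet.inter h2

theorem tau_pre (T : E ≃ₗᵢ[ℝ] E) (hT : ∀ f ∈ UE, T f ∈ UE) (e a : E) :
    tau T e a ⁻¹' F6o (T e) (T a) = F6o e a := by
  ext x
  simp only [Set.mem_preimage, F6o, F6, Set.mem_ofPred_eq, tau_coe]
  have hn : ‖tau T e a x‖ = ‖x‖ := (tau T e a).norm_map x
  rw [hn]
  constructor
  · rintro ⟨h1, h2⟩
    refine ⟨?_, h2⟩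
    intro b hb hbe hba
    have := h1 (T b) (hT b hb) (by rw [T.inner_map_map]; exact hbe)
      (by rw [T.inner_map_map]; exact hba)
    rwa [T.inner_map_map] at this
  · rintro ⟨h1, h2⟩
    refine ⟨?_, h2⟩
    intro b hb hbe hba
    obtain ⟨f, hf, rfl⟩ := surj_UE T hT b hb
    rw [T.inner_map_map] at hbe hba ⊢
    exact h1 f hf hbe hba

theorem g_cont (e a : E) :
    Continuous (fun x : Sp e a => (2 / 3 : ℝ) • e - (1 / 3 : ℝ) • a + (x : E)) :=
  continuous_const.add continuous_subtype_val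

theorem map_eq (T : E ≃ₗᵢ[ℝ] E) (hT : ∀ f ∈ UE, T f ∈ UE) (e a : E) :
    Measure.map T (nuP e a) = nuP (T e) (T a) := by
  unfold nuP
  have hmp : MeasurePreserving (tau T e a) volume volume := (tau T e a).measurePreserving
  have h1 := (hmp.restrict_preimage (F6o_meas (T e) (T a))).map_eq
  rw [tau_pre T hT e a] at h1
  rw [← h1, Measure.map_map (g_cont _ _).measurable hmp.measurable,
    Measure.map_map T.continuous.measurable (g_cont _ _).measurable]
  congr 1
  funext x
  simp only [Function.comp, tau_coe, map_add, map_sub, map_smul]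

theorem refl_apply (a : E) (ha : ‖a‖ = 1) (y : E) :
    (ℝ ∙ a).reflection y = (2 * (inner ℝ a y : ℝ)) • a - y := by
  rw [Submodule.reflection_singleton_apply, ha]
  simp [two_smul, two_mul, add_smul]

theorem mem_nb (a e : E) : e ∈ nb a ↔ e ∈ UE ∧ (inner ℝ e a : ℝ) = 1 / 2 := by
  unfold nb
  rw [Finset.mem_filter]

end NUTM

open NUTM in
theorem specNUT (hUEF : SpecUEF) : SpecNUT := by
  refine ⟨map_eq, ?_⟩
  intro a ha e he
  obtain ⟨heU, hea⟩ := (mem_nb a e).1 he
  have ha1 : ‖a‖ = 1 := hUEF.nrm a ha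
  have haa : (inner ℝ a a : ℝ) = 1 := by rw [real_inner_self_eq_norm_sq, ha1]; norm_num
  have hae : (inner ℝ a e : ℝ) = 1 / 2 := by rw [real_inner_comm]; exact hea
  set T : E ≃ₗᵢ[ℝ] E := (ℝ ∙ a).reflection with hT
  have hTy : ∀ y : E, T y = (2 * (inner ℝ a y : ℝ)) • a - y := refl_apply a ha1
  have hTU : ∀ f ∈ UE, T f ∈ UE := by
    intro f hf
    have h1 := hUEF.neg _ (hUEF.refl f hf a ha)
    rw [hTy, real_inner_comm]
    have h2 : -(f - (2 * (inner ℝ f a : ℝ)) • a) = (2 * (inner ℝ f a : ℝ)) • a - f := by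
      abel
    rw [← h2]
    exact h1
  have hTe : T e = a - e := by
    rw [hTy, hae]; norm_num
  have hTa : T a = a := by
    rw [hTy, haa, mul_one, two_smul]; abel
  have h := map_eq T hTU e a
  rw [hTe, hTa] at h
  rw [← h]
  unfold nuP
  rw [Measure.map_map measurable_neg (g_cont _ _).measurable,
    Measure.map_map T.continuous.measurable (g_cont _ _).measurable]
  congr 1
  funext x
  simp only [Function.comp]
  rw [hTy]
  have hx := ((mem_Sp e a x).1 x.2).2
  have h0 : (inner ℝ a ((2 / 3 : ℝ) • e - (1 / 3 : ℝ) • a + (x : E)) : ℝ) = 0 := by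
    rw [inner_add_right, inner_sub_right, inner_smul_right, inner_smul_right, hx, haa, hae]
    norm_num
  rw [h0]
  simp

end Pool.Agent.Lib.MP_f1379f_gt.FV
end

section
/-!
# MP_f1379f_gt, block O: a general fibre integral (used in OTF and INF)
-/
set_option autoImplicit false

namespace Pool.Agent.Lib.MP_f1379f_gt.FV

open MeasureTheory

namespace FIBM

/-- `∫ α^8 e^{-α}/8! = 1`. -/
theorem gam : ∫⁻ α in Set.Ioi (0 : ℝ), ENNReal.ofReal (α ^ 8 * Real.exp (-α) / 40320) = 1 := by
  have hint : IntegrableOn (fun x : ℝ => Real.exp (-x) * x ^ ((9 : ℝ) - 1)) (Set.Ioi 0) :=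
    Real.GammaIntegral_convergent (by norm_num)
  have heq : ∀ x ∈ Set.Ioi (0 : ℝ), Real.exp (-x) * x ^ ((9 : ℝ) - 1) =
      x ^ 8 * Real.exp (-x) := by
    intro x _
    have h8 : ((9 : ℝ) - 1) = ((8 : ℕ) : ℝ) := by norm_num
    rw [h8, Real.rpow_natCast, mul_comm]
  have hG : Real.Gamma 9 = 40320 := by
    have h := Real.Gamma_nat_eq_factorial 8
    have h9 : ((8 : ℕ) : ℝ) + 1 = 9 := by norm_num
    rw [h9] at h
    rw [h]
    norm_num [Nat.factorial]
  have h1 := Real.Gamma_eq_integral (s := 9) (by norm_num)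
  rw [hG, setIntegral_congr_fun measurableSet_Ioi heq] at h1
  have hint2 : IntegrableOn (fun x : ℝ => x ^ 8 * Real.exp (-x)) (Set.Ioi 0) :=
    hint.congr_fun heq measurableSet_Ioi
  have h2 : ∫ x in Set.Ioi (0 : ℝ), x ^ 8 * Real.exp (-x) / 40320 = 1 := by
    rw [integral_div, ← h1]; norm_num
  rw [← ofReal_integral_eq_lintegral_ofReal (hint2.div_const 40320), h2, ENNReal.ofReal_one]
  filter_upwards [ae_restrict_mem measurableSet_Ioi] with x hx
  have hx0 : (0 : ℝ) < x := hx
  simp only [Pi.zero_apply]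
  positivity

/-- Scaling on the line. -/
theorem scale (f : ℝ → ENNReal) (α : ℝ) (hα : 0 < α) :
    ∫⁻ β, f β = ENNReal.ofReal α * ∫⁻ g, f (α * g) := by
  have h1 : ∫⁻ β, f β = ∫⁻ β, f β ∂(ENNReal.ofReal |α| • Measure.map (α * ·) volume) := by
    rw [Real.smul_map_volume_mul_left hα.ne']
  rw [h1, lintegral_smul_measure, abs_of_pos hα, smul_eq_mul]
  congr 1
  exact lintegral_map_equiv f (Homeomorph.mulLeft₀ α hα.ne').toMeasurableEquiv

theorem ae_ne' (c : ℝ) : ∀ᵐ g : ℝ, g ≠ c :=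
  compl_mem_ae_iff.2 (measure_singleton c)

theorem fib (e a : E)
    (hscl : ∀ c : ℝ, 0 < c → ∀ H : Sp e a → ENNReal, Measurable H →
      ∫⁻ x : Sp e a, H x = ENNReal.ofReal (c ^ 6) * ∫⁻ x : Sp e a, H (c • x))
    (κ : ℝ) (H : E → ENNReal) (hH : Measurable H) (Y : ℝ → ℝ → E)
    (h0 : ∀ (α β : ℝ) (x : Sp e a), H (Y α β + (x : E)) ≠ 0 → 0 < α ∧ 0 ≤ β ∧ 0 ≤ α + κ * β)
    (Ψ : ℝ → Sp e a → ENNReal) (hΨ : Measurable (fun p : ℝ × Sp e a => Ψ p.1 p.2))
    (h1 : ∀ α g : ℝ, 0 < α → 0 < g → 0 < 1 + κ * g → ∀ x : Sp e a,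
      H (Y α (α * g) + (((α * (1 + κ * g)) • x : Sp e a) : E)) ≤
        ENNReal.ofReal (α * Real.exp (-α) / 40320) * Ψ g x) :
    ∫⁻ α : ℝ, ∫⁻ β : ℝ, ∫⁻ x : Sp e a, H (Y α β + (x : E)) ≤
      ∫⁻ x : Sp e a, ∫⁻ g in {g : ℝ | 0 < g ∧ 0 < 1 + κ * g},
        ENNReal.ofReal ((1 + κ * g) ^ 6) * Ψ g x := by
  set G : Set ℝ := {g : ℝ | 0 < g ∧ 0 < 1 + κ * g} with hG
  have hGm : MeasurableSet G := by
    apply MeasurableSet.inter
    · exact measurableSet_lt measurable_const measurable_id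
    · exact measurableSet_lt (f := fun _ : ℝ => (0 : ℝ)) (g := fun g : ℝ => 1 + κ * g)
        measurable_const (by fun_prop)
  have hmeas : ∀ v : E, Measurable (fun x : Sp e a => H (v + (x : E))) := fun v =>
    hH.comp (continuous_const.add continuous_subtype_val).measurable
  set Z : ENNReal := ∫⁻ g in G, ENNReal.ofReal ((1 + κ * g) ^ 6) * ∫⁻ x : Sp e a, Ψ g x with hZ
  -- the inner integral for fixed `α`
  have hA : ∀ α : ℝ, ∫⁻ β : ℝ, ∫⁻ x : Sp e a, H (Y α β + (x : E)) ≤
      (Set.Ioi (0 : ℝ)).indicator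
        (fun α => ENNReal.ofReal (α ^ 8 * Real.exp (-α) / 40320) * Z) α := by
    intro α
    by_cases hα : 0 < α
    · rw [Set.indicator_of_mem (show α ∈ Set.Ioi (0 : ℝ) from hα), scale _ α hα]
      have hB : ∀ᵐ g : ℝ, ∫⁻ x : Sp e a, H (Y α (α * g) + (x : E)) ≤
          G.indicator (fun g => ENNReal.ofReal (α ^ 6) * (ENNReal.ofReal
            (α * Real.exp (-α) / 40320) * (ENNReal.ofReal ((1 + κ * g) ^ 6) *
              ∫⁻ x : Sp e a, Ψ g x))) g := by
        filter_upwards [ae_ne' 0, ae_ne' (-1 / κ)] with g hg0 hg1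
        by_cases hg : g ∈ G
        · rw [Set.indicator_of_mem hg]
          have hc : 0 < α * (1 + κ * g) := mul_pos hα hg.2
          rw [hscl (α * (1 + κ * g)) hc _ (hmeas _)]
          have h2 : ∫⁻ x : Sp e a, H (Y α (α * g) + (((α * (1 + κ * g)) • x : Sp e a) : E)) ≤
              ENNReal.ofReal (α * Real.exp (-α) / 40320) * ∫⁻ x : Sp e a, Ψ g x := by
            rw [← lintegral_const_mul' _ _ ENNReal.ofReal_ne_top]
            exact lintegral_mono (fun x => h1 α g hα hg.1 hg.2 x)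
          refine (mul_le_mul_right h2 _).trans (le_of_eq ?_)
          rw [mul_pow, ENNReal.ofReal_mul (by positivity)]
          ring
        · rw [Set.indicator_of_notMem hg]
          refine le_of_eq ?_
          have h3 : ∀ x : Sp e a, H (Y α (α * g) + (x : E)) = 0 := by
            intro x
            by_contra hne
            obtain ⟨_, h4, h5⟩ := h0 α (α * g) x hne
            apply hg
            have h6 : 0 ≤ g := by
              by_contra hneg
              push Not at hneg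
              nlinarith
            have h7 : 0 ≤ 1 + κ * g := by
              have h8 : 0 ≤ α * (1 + κ * g) := by
                have : α * (1 + κ * g) = α + κ * (α * g) := by ring
                rw [this]; exact h5
              by_contra hneg
              push Not at hneg
              nlinarith
            refine ⟨lt_of_le_of_ne h6 (Ne.symm hg0), lt_of_le_of_ne h7 ?_⟩
            intro h8
            apply hg1
            have hκ : κ ≠ 0 := by
              rintro rfl
              simp at h8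
            rw [eq_div_iff hκ]
            linarith
          simp only [h3, lintegral_zero]
      refine (mul_le_mul_right (lintegral_mono_ae hB) _).trans (le_of_eq ?_)
      rw [lintegral_indicator hGm, lintegral_const_mul' _ _ ENNReal.ofReal_ne_top,
        lintegral_const_mul' _ _ ENNReal.ofReal_ne_top, ← hZ, ← mul_assoc, ← mul_assoc,
        ← ENNReal.ofReal_mul hα.le, ← ENNReal.ofReal_mul (by positivity)]
      congr 2
      ring
    · rw [Set.indicator_of_notMem (show α ∉ Set.Ioi (0 : ℝ) from hα)]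
      refine le_of_eq ?_
      have h3 : ∀ (β : ℝ) (x : Sp e a), H (Y α β + (x : E)) = 0 := by
        intro β x
        by_contra hne
        exact hα (h0 α β x hne).1
      simp only [h3, lintegral_zero]
  refine (lintegral_mono hA).trans ?_
  rw [lintegral_indicator measurableSet_Ioi, lintegral_mul_const _ (by fun_prop), gam, one_mul, hZ]
  refine le_of_eq ?_
  have h4 : ∀ g : ℝ, ENNReal.ofReal ((1 + κ * g) ^ 6) * ∫⁻ x : Sp e a, Ψ g x =
      ∫⁻ x : Sp e a, ENNReal.ofReal ((1 + κ * g) ^ 6) * Ψ g x := by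
    intro g
    rw [lintegral_const_mul' _ _ ENNReal.ofReal_ne_top]
  simp_rw [h4]
  rw [lintegral_lintegral_swap]
  apply Measurable.aemeasurable
  exact (show Measurable (fun p : ℝ × Sp e a => ENNReal.ofReal ((1 + κ * p.1) ^ 6)) by
    fun_prop).mul hΨ

/-! ### Geometry of a contact pair -/

theorem geo_e (e a x : E) (he : ‖e‖ = 1) (hea : (inner ℝ e a : ℝ) = 1 / 2)
    (hx : (inner ℝ e x : ℝ) = 0) (s t : ℝ) :
    (inner ℝ e (s • e + t • a + x) : ℝ) = s + t / 2 := by
  have hee : (inner ℝ e e : ℝ) = 1 := by rw [real_inner_self_eq_norm_sq, he]; norm_num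
  rw [inner_add_right, inner_add_right, inner_smul_right, inner_smul_right, hee, hea, hx]
  ring

theorem geo_a (e a x : E) (ha : ‖a‖ = 1) (hea : (inner ℝ e a : ℝ) = 1 / 2)
    (hx : (inner ℝ a x : ℝ) = 0) (s t : ℝ) :
    (inner ℝ a (s • e + t • a + x) : ℝ) = s / 2 + t := by
  have haa : (inner ℝ a a : ℝ) = 1 := by rw [real_inner_self_eq_norm_sq, ha]; norm_num
  have hae : (inner ℝ a e : ℝ) = 1 / 2 := by rw [real_inner_comm]; exact hea
  rw [inner_add_right, inner_add_right, inner_smul_right, inner_smul_right, haa, hae, hx]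
  ring

theorem geo_b (b e a x : E) (s t : ℝ) :
    (inner ℝ b (s • e + t • a + x) : ℝ) =
      s * (inner ℝ b e : ℝ) + t * (inner ℝ b a : ℝ) + (inner ℝ b x : ℝ) := by
  rw [inner_add_right, inner_add_right, inner_smul_right, inner_smul_right]

theorem geo_n (e a x : E) (he : ‖e‖ = 1) (ha : ‖a‖ = 1) (hea : (inner ℝ e a : ℝ) = 1 / 2)
    (hx : (inner ℝ e x : ℝ) = 0) (hx' : (inner ℝ a x : ℝ) = 0) (s t : ℝ) :
    ‖s • e + t • a + x‖ ^ 2 = s ^ 2 + t ^ 2 + s * t + ‖x‖ ^ 2 := by
  rw [← real_inner_self_eq_norm_sq, inner_add_left, inner_add_left, inner_smul_left,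
    inner_smul_left, geo_e e a x he hea hx, geo_a e a x ha hea hx', geo_b x e a x,
    real_inner_comm e x, real_inner_comm a x, hx, hx', real_inner_self_eq_norm_sq]
  simp only [RCLike.conj_to_real]
  ring

/-- The weighted integral over a cone as a Lebesgue integral. -/
theorem muW_lint (hKCO : SpecKCO) (K : Set E) (hK : MeasurableSet K) (F : E → ℝ)
    (hF : Measurable F) :
    ∫⁻ y in K, ENNReal.ofReal (F y) ∂muW = ∫⁻ y, (K ∩ WW).indicator
      (fun y => ENNReal.ofReal (Real.exp (-mx id y) / 40320) * ENNReal.ofReal (F y)) y := by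
  have h1 : Measurable (fun y : E => ENNReal.ofReal (Real.exp (-mx id y) / 40320)) := by
    have h2 : Continuous (fun y : E => Real.exp (-mx id y) / 40320) :=
      (Real.continuous_exp.comp (hKCO.mxc id).neg).div_const _
    exact ENNReal.measurable_ofReal.comp h2.measurable
  have h3 : Measurable (fun y : E => ENNReal.ofReal (F y)) := ENNReal.measurable_ofReal.comp hF
  unfold muW
  rw [setLIntegral_withDensity_eq_setLIntegral_mul _ h1 h3 hK, Measure.restrict_restrict hK,
    lintegral_indicator (hK.inter hKCO.wmeas)]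
  rfl

theorem ind_meas (hKCO : SpecKCO) (K : Set E) (hK : MeasurableSet K) (F : E → ℝ)
    (hF : Measurable F) :
    Measurable ((K ∩ WW).indicator (fun y => ENNReal.ofReal (Real.exp (-mx id y) / 40320) *
      ENNReal.ofReal (F y))) := by
  have h2 : Continuous (fun y : E => Real.exp (-mx id y) / 40320) :=
    (Real.continuous_exp.comp (hKCO.mxc id).neg).div_const _
  exact ((ENNReal.measurable_ofReal.comp h2.measurable).mul
    (ENNReal.measurable_ofReal.comp hF)).indicator (hK.inter hKCO.wmeas)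

/-- The vectors `v = (2/3)e - (1/3)a + x` for `x` in the wall polytope. -/
theorem v_norm (e a : E) (he : ‖e‖ = 1) (ha : ‖a‖ = 1) (hea : (inner ℝ e a : ℝ) = 1 / 2)
    (x : Sp e a) : ‖(2 / 3 : ℝ) • e - (1 / 3 : ℝ) • a + (x : E)‖ ^ 2 = 1 / 3 + ‖x‖ ^ 2 := by
  have hx := (NUTM.mem_Sp e a x).1 x.2
  have h1 : (2 / 3 : ℝ) • e - (1 / 3 : ℝ) • a + (x : E) =
      (2 / 3 : ℝ) • e + (-(1 / 3) : ℝ) • a + (x : E) := by
    rw [neg_smul, sub_eq_add_neg]
  rw [h1, geo_n e a x he ha hea hx.1 hx.2]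
  have : ‖(x : E)‖ = ‖x‖ := rfl
  rw [this]; ring

theorem F6o_fin (hF6V : SpecF6V) (a e : E) (ha : a ∈ UE) (he : e ∈ nb a) :
    volume (F6o e a) ≠ ⊤ := by
  have h1 : F6o e a ⊆ Metric.closedBall (0 : Sp e a) 1 := by
    intro x hx
    rw [mem_closedBall_zero_iff]
    have h2 := hF6V.nrm a ha e he x hx.1
    have h3 : ‖(x : E)‖ = ‖x‖ := rfl
    rw [h3] at h2
    nlinarith [norm_nonneg x]
  exact ((measure_mono h1).trans_lt measure_closedBall_lt_top).ne

end FIBM

end Pool.Agent.Lib.MP_f1379f_gt.FV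
end

section
/-!
# MP_f1379f_gt, block O, module OTF: the outer fibres
-/
set_option autoImplicit false

namespace Pool.Agent.Lib.MP_f1379f_gt.FV

open MeasureTheory

namespace OTFM

/-- `X(x) = <D, v(x)>`. -/
noncomputable def XX (D e a : E) (x : Sp e a) : ℝ :=
  inner ℝ D ((2 / 3 : ℝ) • e - (1 / 3 : ℝ) • a + (x : E))

theorem XX_cont (D e a : E) : Continuous (XX D e a) :=
  continuous_const.inner (NUTM.g_cont e a)

theorem XX_eq (D e a : E) (hDa : (inner ℝ D a : ℝ) = 0) (x : Sp e a) :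
    XX D e a x = 2 / 3 * (inner ℝ D e : ℝ) + (inner ℝ D (x : E) : ℝ) := by
  unfold XX
  rw [inner_add_right, inner_sub_right, inner_smul_right, inner_smul_right, hDa]
  ring

theorem XX_abs (D e a : E) (he : ‖e‖ = 1) (ha : ‖a‖ = 1) (hea : (inner ℝ e a : ℝ) = 1 / 2)
    (hD : ‖D‖ ≤ 17 / 50) (x : Sp e a) :
    XX D e a x ^ 2 ≤ 289 / 2500 * (1 / 3 + ‖x‖ ^ 2) := by
  have h1 : |XX D e a x| ≤ ‖D‖ * ‖(2 / 3 : ℝ) • e - (1 / 3 : ℝ) • a + (x : E)‖ :=
    abs_real_inner_le_norm _ _
  have h2 := FIBM.v_norm e a he ha hea x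
  have h3 : XX D e a x ^ 2 ≤
      (‖D‖ * ‖(2 / 3 : ℝ) • e - (1 / 3 : ℝ) • a + (x : E)‖) ^ 2 := by
    rw [← sq_abs (XX D e a x)]
    exact pow_le_pow_left₀ (abs_nonneg _) h1 2
  rw [mul_pow, h2] at h3
  have h4 : ‖D‖ ^ 2 ≤ 289 / 2500 := by nlinarith [norm_nonneg D]
  have h5 : 0 ≤ 1 / 3 + ‖x‖ ^ 2 := by positivity
  nlinarith

theorem XX_le (D e a : E) (he : ‖e‖ = 1) (ha : ‖a‖ = 1) (hea : (inner ℝ e a : ℝ) = 1 / 2)
    (hD : ‖D‖ ≤ 17 / 50) (x : Sp e a) (hx : ‖x‖ ^ 2 ≤ 2 / 3) :
    |XX D e a x| ≤ 17 / 50 := by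
  have h1 := XX_abs D e a he ha hea hD x
  apply abs_le_of_sq_le_sq _ (by norm_num)
  nlinarith

theorem JJ_cont_meas : Measurable JJ := by
  unfold JJ
  fun_prop

theorem JJ_zero : JJ 0 = 0 := by norm_num [JJ]

theorem JJ_bound (x : ℝ) (h0 : 0 ≤ x) (h1 : x ≤ 17 / 50) : 0 ≤ JJ x ∧ JJ x ≤ 128 := by
  have h2 : 0 < 1 - x := by linarith
  have h3 : 1 + x ≤ (1 - x)⁻¹ := by
    rw [le_inv_comm₀ (by linarith) h2]
    rw [inv_eq_one_div, le_div_iff₀ (by linarith)]
    nlinarith
  have h4 : (1 - x)⁻¹ ≤ 2 := by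
    rw [inv_le_comm₀ h2 (by norm_num)]
    linarith
  have h5 : 1 + 7 * x ≤ (1 + x) ^ 7 := by
    have := one_add_mul_le_pow (a := x) (by linarith) 7
    simpa using this
  have h6 : (1 + x) ^ 7 ≤ (1 - x)⁻¹ ^ 7 := pow_le_pow_left₀ (by linarith) h3 7
  have h7 : (1 - x)⁻¹ ^ 7 ≤ 2 ^ 7 := pow_le_pow_left₀ (by positivity) h4 7
  unfold JJ
  constructor
  · apply div_nonneg _ (by norm_num)
    linarith
  · rw [div_le_iff₀ (by norm_num)]
    linarith

/-- The main inequality for lower integrals. -/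
theorem main (hUEF : SpecUEF) (hKCO : SpecKCO) (hPIN : SpecPIN) (hF6V : SpecF6V)
    (hONE : SpecONE) (a : E) (ha : a ∈ UE) (e : E) (he : e ∈ nb a) (D : E)
    (hDa : (inner ℝ D a : ℝ) = 0) (hD : ‖D‖ ≤ 17 / 50) :
    ∫⁻ y in Kc e, ENNReal.ofReal
      (max 0 ((inner ℝ D y : ℝ) - ((inner ℝ e y : ℝ) - inner ℝ a y))) ∂muW ≤
    ENNReal.ofReal (2 / Real.sqrt 3) *
      ∫⁻ x in F6o e a, ENNReal.ofReal (JJ (max 0 (XX D e a x))) := by
  obtain ⟨heU, hea⟩ := (NUTM.mem_nb a e).1 he
  have he1 := hUEF.nrm e heU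
  have ha1 := hUEF.nrm a ha
  set F : E → ℝ := fun y => max 0 ((inner ℝ D y : ℝ) - ((inner ℝ e y : ℝ) - inner ℝ a y)) with hF
  have hFm : Measurable F := by
    have : Continuous F := by rw [hF]; fun_prop
    exact this.measurable
  set H : E → ENNReal := (Kc e ∩ WW).indicator
      (fun y => ENNReal.ofReal (Real.exp (-mx id y) / 40320) * ENNReal.ofReal (F y)) with hH
  have hHm : Measurable H := FIBM.ind_meas hKCO _ (hKCO.meas e) F hFm
  rw [FIBM.muW_lint hKCO _ (hKCO.meas e) F hFm, ← hH, hPIN.main e a he1 ha1 hea H hHm]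
  apply mul_le_mul_right
  set Y : ℝ → ℝ → E := fun α β =>
    (4 / 3 * (α - (α - β) / 2)) • e + (4 / 3 * ((α - β) - α / 2)) • a with hY
  have hsub : ∀ p : ℝ, ∫⁻ q : ℝ, ∫⁻ x : Sp e a,
      H ((4 / 3 * (p - q / 2)) • e + (4 / 3 * (q - p / 2)) • a + (x : E)) =
      ∫⁻ β : ℝ, ∫⁻ x : Sp e a, H (Y p β + (x : E)) := by
    intro p
    exact (lintegral_sub_left_eq_self (fun q : ℝ => ∫⁻ x : Sp e a,
      H ((4 / 3 * (p - q / 2)) • e + (4 / 3 * (q - p / 2)) • a + (x : E))) p).symm
  simp_rw [hsub]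
  -- coordinates
  have hce : ∀ (α β : ℝ) (x : Sp e a), (inner ℝ e (Y α β + (x : E)) : ℝ) = α := by
    intro α β x
    have hx := (NUTM.mem_Sp e a x).1 x.2
    rw [hY]
    simp only
    rw [FIBM.geo_e e a x he1 hea hx.1]
    ring
  have hca : ∀ (α β : ℝ) (x : Sp e a), (inner ℝ a (Y α β + (x : E)) : ℝ) = α - β := by
    intro α β x
    have hx := (NUTM.mem_Sp e a x).1 x.2
    rw [hY]
    simp only
    rw [FIBM.geo_a e a x ha1 hea hx.2]
    ring
  have hcn : ∀ (α β : ℝ) (x : Sp e a), ‖Y α β + (x : E)‖ ^ 2 =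
      4 / 3 * (α ^ 2 - α * β + β ^ 2) + ‖(x : E)‖ ^ 2 := by
    intro α β x
    have hx := (NUTM.mem_Sp e a x).1 x.2
    rw [hY]
    simp only
    rw [FIBM.geo_n e a x he1 ha1 hea hx.1 hx.2]
    ring
  have hcb : ∀ (b : E) (α β : ℝ) (x : Sp e a), (inner ℝ b (Y α β + (x : E)) : ℝ) =
      2 / 3 * (α + β) * (inner ℝ b e : ℝ) + 2 / 3 * (α - 2 * β) * (inner ℝ b a : ℝ) +
        (inner ℝ b (x : E) : ℝ) := by
    intro b α β x
    rw [hY]
    simp only
    rw [FIBM.geo_b b e a x]
    ring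
  set Ψ : ℝ → Sp e a → ENNReal := fun g => (F6o e a).indicator
    (fun x => ENNReal.ofReal (max 0 ((1 + g) * XX D e a x - g))) with hΨ
  have hmain := FIBM.fib e a (hPIN.scl e a he1 ha1 hea) 1 H hHm Y ?_ Ψ ?_ ?_
  · refine hmain.trans ?_
    rw [← lintegral_indicator (NUTM.F6o_meas e a)]
    apply lintegral_mono
    intro x
    simp only
    by_cases hx : x ∈ F6o e a
    · rw [Set.indicator_of_mem hx]
      have hxn := hF6V.nrm a ha e he x hx.1
      have hX := abs_le.1 (XX_le D e a he1 ha1 hea hD x hxn)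
      rcases le_or_gt (XX D e a x) 0 with hX0 | hX0
      · have h1 : ∀ g ∈ {g : ℝ | 0 < g ∧ 0 < 1 + 1 * g},
            ENNReal.ofReal ((1 + 1 * g) ^ 6) * Ψ g x = 0 := by
          intro g hg
          have h2 : (1 + g) * XX D e a x - g ≤ 0 := by nlinarith [hg.1]
          simp only [hΨ, Set.indicator_of_mem hx, max_eq_left h2, ENNReal.ofReal_zero, mul_zero]
        rw [setLIntegral_congr_fun _ (fun g hg => h1 g hg)]
        · simp
        · apply MeasurableSet.inter
          · exact measurableSet_lt measurable_const measurable_id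
          · exact measurableSet_lt (f := fun _ : ℝ => (0 : ℝ)) (g := fun g : ℝ => 1 + 1 * g)
              measurable_const (by fun_prop)
      · have h1 : {g : ℝ | 0 < g ∧ 0 < 1 + 1 * g} = Set.Ioi 0 := by
          ext g
          simp only [Set.mem_ofPred_eq, Set.mem_Ioi]
          exact ⟨fun h => h.1, fun h => ⟨h, by linarith⟩⟩
        rw [h1, max_eq_right hX0.le, ← hONE.a (XX D e a x) hX0.le (by linarith)]
        refine le_of_eq ?_
        apply setLIntegral_congr_fun measurableSet_Ioi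
        intro g hg
        have hg0 : (0 : ℝ) < g := hg
        simp only [hΨ, Set.indicator_of_mem hx, one_mul]
        rw [← ENNReal.ofReal_mul (by positivity)]
    · rw [Set.indicator_of_notMem hx]
      have h1 : ∀ g : ℝ, Ψ g x = 0 := fun g => by simp only [hΨ, Set.indicator_of_notMem hx]
      simp only [h1, mul_zero, lintegral_zero, le_refl]
  · -- support
    intro α β x hne
    have hmem : Y α β + (x : E) ∈ Kc e ∩ WW := by
      by_contra hcon
      exact hne (Set.indicator_of_notMem hcon _)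
    obtain ⟨hK, hW⟩ := hmem
    obtain ⟨h1, h2⟩ := hKCO.low e heU _ hK
    rw [hce] at h1 h2
    have h3 := hK a ha
    rw [hce, hca] at h3
    have h4 : 0 < α := by
      rcases h1.lt_or_eq with h | h
      · exact h
      · exfalso
        have h5 : α ^ 2 = 0 := by rw [← h]; ring
        rw [h5] at h2
        simp only [WW, Set.mem_ofPred_eq] at hW
        nlinarith [sq_nonneg (mx id (Y α β + (x : E)))]
    exact ⟨h4, by linarith, by linarith⟩
  · -- measurability
    have h1 : Measurable (fun p : ℝ × Sp e a =>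
        ENNReal.ofReal (max 0 ((1 + p.1) * XX D e a p.2 - p.1))) := by
      apply ENNReal.measurable_ofReal.comp
      have : Continuous (fun p : ℝ × Sp e a => max 0 ((1 + p.1) * XX D e a p.2 - p.1)) := by
        have hX := (XX_cont D e a).comp (continuous_snd (X := ℝ) (Y := Sp e a))
        exact continuous_const.max (((continuous_const.add continuous_fst).mul hX).sub
          continuous_fst)
      exact this.measurable
    have h2 : (fun p : ℝ × Sp e a => Ψ p.1 p.2) =
        (Prod.snd ⁻¹' F6o e a).indicator (fun p : ℝ × Sp e a =>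
          ENNReal.ofReal (max 0 ((1 + p.1) * XX D e a p.2 - p.1))) := by
      funext p
      simp only [hΨ]
      by_cases hp : p.2 ∈ F6o e a
      · rw [Set.indicator_of_mem hp, Set.indicator_of_mem (by exact hp)]
      · rw [Set.indicator_of_notMem hp, Set.indicator_of_notMem (by exact hp)]
    rw [h2]
    exact h1.indicator (measurable_snd (NUTM.F6o_meas e a))
  · -- the pointwise bound
    intro α g hα hg hg1 x
    set c : ℝ := α * (1 + 1 * g) with hc
    have hc' : c = α + α * g := by rw [hc]; ring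
    have hc0 : 0 < c := mul_pos hα hg1
    set y : E := Y α (α * g) + ((c • x : Sp e a) : E) with hy
    have hcx : ((c • x : Sp e a) : E) = c • (x : E) := rfl
    have hcxn : ‖((c • x : Sp e a) : E)‖ ^ 2 = c ^ 2 * ‖x‖ ^ 2 := by
      rw [hcx, norm_smul, mul_pow, Real.norm_eq_abs, sq_abs]
      rfl
    by_cases hmem : y ∈ Kc e ∩ WW
    · have hHy : H y = ENNReal.ofReal (Real.exp (-mx id y) / 40320) * ENNReal.ofReal (F y) :=
        Set.indicator_of_mem hmem _
      rw [hHy]
      obtain ⟨hK, hW⟩ := hmem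
      have hmx : mx id y = α := by rw [hKCO.mxe e heU y hK, hy, hce]
      have hDy : (inner ℝ D y : ℝ) = c * XX D e a x := by
        rw [hy, hcb, hDa, hcx, inner_smul_right, XX_eq D e a hDa, hc']
        ring
      have hFy : F y = α * max 0 ((1 + g) * XX D e a x - g) := by
        rw [hF]
        simp only
        rw [hDy, hy, hce, hca, mul_max_of_nonneg _ _ hα.le, mul_zero]
        congr 1
        rw [hc]; ring
      rcases le_or_gt ((1 + g) * XX D e a x - g) 0 with hle | hgt
      · rw [hFy, max_eq_left hle, mul_zero, ENNReal.ofReal_zero, mul_zero]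
        exact zero_le
      · -- x is in F6o
        have hxF : x ∈ F6o e a := by
          constructor
          · intro b hb hbe hba
            have h1 := hK b hb
            have h2 : (inner ℝ e y : ℝ) = α := by rw [hy, hce]
            rw [h2, hy, hcb, hbe, hba, hcx, inner_smul_right] at h1
            have h3 : c * (inner ℝ b (x : E) : ℝ) ≤ c * (1 / 3) := by
              rw [hc'] at h1 ⊢
              linarith
            exact le_of_mul_le_mul_left h3 hc0
          · have hW' : 5 * mx id y ^ 2 < 3 * ‖y‖ ^ 2 := hW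
            rw [hmx] at hW'
            rw [hy, hcn, hcxn] at hW'
            have h1 : 1 / 3 * (α ^ 2 + 4 * α * (α * g) - 4 * (α * g) ^ 2) < c ^ 2 * ‖x‖ ^ 2 := by
              linarith
            have h2 : α ^ 2 * (1 / 3 * (1 + 4 * g - 4 * g ^ 2)) <
                α ^ 2 * ((1 + g) ^ 2 * ‖x‖ ^ 2) := by
              rw [hc] at h1
              calc _ = 1 / 3 * (α ^ 2 + 4 * α * (α * g) - 4 * (α * g) ^ 2) := by ring
                _ < _ := h1
                _ = _ := by ring
            have h3 : 1 / 3 * (1 + 4 * g - 4 * g ^ 2) < (1 + g) ^ 2 * ‖x‖ ^ 2 :=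
              lt_of_mul_lt_mul_left h2 (by positivity)
            rcases le_or_gt g (2 / 5) with hg2 | hg2
            · have h4 : (1 + g) ^ 2 * (1 / 3) < (1 + g) ^ 2 * ‖x‖ ^ 2 := by nlinarith
              exact lt_of_mul_lt_mul_left h4 (by positivity)
            · have h5 : 2 / 7 < XX D e a x := by
                by_contra hcon
                push Not at hcon
                nlinarith
              have h6 := XX_abs D e a he1 ha1 hea hD x
              nlinarith
        have hΨx : Ψ g x = ENNReal.ofReal (max 0 ((1 + g) * XX D e a x - g)) := by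
          simp only [hΨ, Set.indicator_of_mem hxF]
        rw [hΨx, hFy, hmx, ← ENNReal.ofReal_mul (by positivity),
          ← ENNReal.ofReal_mul (by positivity)]
        refine le_of_eq ?_
        congr 1
        ring
    · have hHy : H y = 0 := Set.indicator_of_notMem hmem _
      rw [hHy]
      exact zero_le

end OTFM

open OTFM in
theorem specOTF (hUEF : SpecUEF) (hKCO : SpecKCO) (hPIN : SpecPIN) (hF6V : SpecF6V)
    (hONE : SpecONE) : SpecOTF := by
  intro a ha e he D hDa hD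
  obtain ⟨heU, hea⟩ := (NUTM.mem_nb a e).1 he
  have he1 := hUEF.nrm e heU
  have ha1 := hUEF.nrm a ha
  have hm := main hUEF hKCO hPIN hF6V hONE a ha e he D hDa hD
  set F : E → ℝ := fun y => max 0 ((inner ℝ D y : ℝ) - ((inner ℝ e y : ℝ) - inner ℝ a y)) with hF
  have hFc : Continuous F := by rw [hF]; fun_prop
  have hL : ∫ y in Kc e, F y ∂muW = (∫⁻ y in Kc e, ENNReal.ofReal (F y) ∂muW).toReal := by
    rw [integral_eq_lintegral_of_nonneg_ae]
    · exact Filter.Eventually.of_forall (fun y => le_max_left _ _)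
    · exact hFc.aestronglyMeasurable
  have hR : ∫ v, JJ (max 0 (inner ℝ D v : ℝ)) ∂(nuP e a) =
      ∫ x in F6o e a, JJ (max 0 (XX D e a x)) := by
    unfold nuP
    rw [integral_map (NUTM.g_cont e a).measurable.aemeasurable]
    · rfl
    · have h1 : Measurable (fun v : E => JJ (max 0 (inner ℝ D v : ℝ))) := by
        apply JJ_cont_meas.comp
        have : Continuous (fun v : E => max 0 (inner ℝ D v : ℝ)) := by fun_prop
        exact this.measurable
      exact h1.aestronglyMeasurable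
  have hXm : Measurable (fun x : Sp e a => JJ (max 0 (XX D e a x))) :=
    JJ_cont_meas.comp (continuous_const.max (XX_cont D e a)).measurable
  have hbd : ∀ x ∈ F6o e a, 0 ≤ JJ (max 0 (XX D e a x)) ∧ JJ (max 0 (XX D e a x)) ≤ 128 := by
    intro x hx
    have hX := abs_le.1 (XX_le D e a he1 ha1 hea hD x (hF6V.nrm a ha e he x hx.1))
    exact JJ_bound _ (le_max_left _ _) (max_le (by norm_num) hX.2)
  have hint : IntegrableOn (fun x : Sp e a => JJ (max 0 (XX D e a x))) (F6o e a) := by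
    apply Measure.integrableOn_of_bounded (M := 128) (FIBM.F6o_fin hF6V a e ha he)
      hXm.aestronglyMeasurable
    filter_upwards [ae_restrict_mem (NUTM.F6o_meas e a)] with x hx
    rw [Real.norm_of_nonneg (hbd x hx).1]
    exact (hbd x hx).2
  have hI : ENNReal.ofReal (∫ x in F6o e a, JJ (max 0 (XX D e a x))) =
      ∫⁻ x in F6o e a, ENNReal.ofReal (JJ (max 0 (XX D e a x))) := by
    apply ofReal_integral_eq_lintegral_ofReal hint
    filter_upwards [ae_restrict_mem (NUTM.F6o_meas e a)] with x hx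
    exact (hbd x hx).1
  rw [hL, hR]
  have hI0 : 0 ≤ ∫ x in F6o e a, JJ (max 0 (XX D e a x)) :=
    setIntegral_nonneg (NUTM.F6o_meas e a) (fun x hx => (hbd x hx).1)
  apply ENNReal.toReal_le_of_le_ofReal (mul_nonneg (by positivity) hI0)
  rw [ENNReal.ofReal_mul (by positivity), hI]
  exact hm

end Pool.Agent.Lib.MP_f1379f_gt.FV
end

section
/-!
# MP_f1379f_gt, block O, module INF: the inner fibres
-/
set_option autoImplicit false

namespace Pool.Agent.Lib.MP_f1379f_gt.FV

open MeasureTheory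

namespace INFM

open OTFM

theorem pin' (hPIN : SpecPIN) (e a : E) (he : ‖e‖ = 1) (ha : ‖a‖ = 1)
    (hae : (inner ℝ a e : ℝ) = 1 / 2) (H : E → ENNReal) (hH : Measurable H) :
    ∫⁻ y, H y = ENNReal.ofReal (2 / Real.sqrt 3) * ∫⁻ p : ℝ, ∫⁻ q : ℝ, ∫⁻ x : Sp e a,
      H ((4 / 3 * (p - q / 2)) • a + (4 / 3 * (q - p / 2)) • e + (x : E)) := by
  have h := hPIN.main a e ha he hae H hH
  have hS : Sp a e = Sp e a := by unfold Sp; rw [Set.pair_comm]
  rw [hS] at h
  exact h

/-- The main inequality for one neighbour. -/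
theorem main (hUEF : SpecUEF) (hKCO : SpecKCO) (hPIN : SpecPIN)
    (hONE : SpecONE) (a : E) (ha : a ∈ UE) (e : E) (he : e ∈ nb a) (D : E)
    (hDa : (inner ℝ D a : ℝ) = 0) :
    ∫⁻ y, {y : E | g2 a y = (inner ℝ a y : ℝ) - inner ℝ e y}.indicator
      ((Kc a ∩ WW).indicator (fun y => ENNReal.ofReal (Real.exp (-mx id y) / 40320) *
        ENNReal.ofReal (max 0 (-(inner ℝ D y : ℝ) - g2 a y)))) y ≤
    ENNReal.ofReal (2 / Real.sqrt 3) *
      ∫⁻ x in F6o e a, ENNReal.ofReal (max 0 (-XX D e a x) ^ 2 / 2) := by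
  obtain ⟨heU, hea⟩ := (NUTM.mem_nb a e).1 he
  have he1 := hUEF.nrm e heU
  have ha1 := hUEF.nrm a ha
  have hae : (inner ℝ a e : ℝ) = 1 / 2 := by rw [real_inner_comm]; exact hea
  set F : E → ℝ := fun y => max 0 (-(inner ℝ D y : ℝ) - g2 a y) with hF
  have hFm : Measurable F := by
    have h1 := hKCO.g2c a
    have : Continuous F := by rw [hF]; fun_prop
    exact this.measurable
  set H0 : E → ENNReal := (Kc a ∩ WW).indicator
      (fun y => ENNReal.ofReal (Real.exp (-mx id y) / 40320) * ENNReal.ofReal (F y)) with hH0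
  have hH0m : Measurable H0 := FIBM.ind_meas hKCO _ (hKCO.meas a) F hFm
  set B : Set E := {y : E | g2 a y = (inner ℝ a y : ℝ) - inner ℝ e y} with hB
  have hBm : MeasurableSet B := by
    have : IsClosed B := isClosed_eq (hKCO.g2c a) (by fun_prop)
    exact this.measurableSet
  set H : E → ENNReal := B.indicator H0 with hH
  have hHm : Measurable H := hH0m.indicator hBm
  rw [pin' hPIN e a he1 ha1 hae H hHm]
  apply mul_le_mul_right
  set Y : ℝ → ℝ → E := fun α β =>
    (4 / 3 * (α - (α - β) / 2)) • a + (4 / 3 * ((α - β) - α / 2)) • e with hY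
  have hsub : ∀ p : ℝ, ∫⁻ q : ℝ, ∫⁻ x : Sp e a,
      H ((4 / 3 * (p - q / 2)) • a + (4 / 3 * (q - p / 2)) • e + (x : E)) =
      ∫⁻ β : ℝ, ∫⁻ x : Sp e a, H (Y p β + (x : E)) := by
    intro p
    exact (lintegral_sub_left_eq_self (fun q : ℝ => ∫⁻ x : Sp e a,
      H ((4 / 3 * (p - q / 2)) • a + (4 / 3 * (q - p / 2)) • e + (x : E))) p).symm
  simp_rw [hsub]
  -- coordinates
  have hca : ∀ (α β : ℝ) (x : Sp e a), (inner ℝ a (Y α β + (x : E)) : ℝ) = α := by
    intro α β x
    have hx := (NUTM.mem_Sp e a x).1 x.2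
    rw [hY]
    simp only
    rw [FIBM.geo_e a e x ha1 hae hx.2]
    ring
  have hce : ∀ (α β : ℝ) (x : Sp e a), (inner ℝ e (Y α β + (x : E)) : ℝ) = α - β := by
    intro α β x
    have hx := (NUTM.mem_Sp e a x).1 x.2
    rw [hY]
    simp only
    rw [FIBM.geo_a a e x he1 hae hx.1]
    ring
  have hcn : ∀ (α β : ℝ) (x : Sp e a), ‖Y α β + (x : E)‖ ^ 2 =
      4 / 3 * (α ^ 2 - α * β + β ^ 2) + ‖(x : E)‖ ^ 2 := by
    intro α β x
    have hx := (NUTM.mem_Sp e a x).1 x.2
    rw [hY]
    simp only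
    rw [FIBM.geo_n a e x ha1 he1 hae hx.2 hx.1]
    ring
  have hcb : ∀ (b : E) (α β : ℝ) (x : Sp e a), (inner ℝ b (Y α β + (x : E)) : ℝ) =
      2 / 3 * (α + β) * (inner ℝ b a : ℝ) + 2 / 3 * (α - 2 * β) * (inner ℝ b e : ℝ) +
        (inner ℝ b (x : E) : ℝ) := by
    intro b α β x
    rw [hY]
    simp only
    rw [FIBM.geo_b b a e x]
    ring
  set Ψ : ℝ → Sp e a → ENNReal := fun g => (F6o e a).indicator
    (fun x => ENNReal.ofReal (max 0 ((1 - 2 * g) * (-XX D e a x) - g))) with hΨ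
  have hmain := FIBM.fib e a (hPIN.scl e a he1 ha1 hea) (-2) H hHm Y ?_ Ψ ?_ ?_
  · refine hmain.trans ?_
    rw [← lintegral_indicator (NUTM.F6o_meas e a)]
    apply lintegral_mono
    intro x
    simp only
    have hset : {g : ℝ | 0 < g ∧ 0 < 1 + -2 * g} = Set.Ioo 0 (1 / 2) := by
      ext g
      simp only [Set.mem_ofPred_eq, Set.mem_Ioo]
      constructor
      · rintro ⟨h1, h2⟩
        exact ⟨h1, by linarith⟩
      · rintro ⟨h1, h2⟩
        exact ⟨h1, by linarith⟩
    rw [hset]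
    by_cases hx : x ∈ F6o e a
    · rw [Set.indicator_of_mem hx]
      rcases le_or_gt (-XX D e a x) 0 with hX0 | hX0
      · have h1 : ∀ g ∈ Set.Ioo (0 : ℝ) (1 / 2),
            ENNReal.ofReal ((1 + -2 * g) ^ 6) * Ψ g x = 0 := by
          intro g hg
          have h2 : (1 - 2 * g) * (-XX D e a x) - g ≤ 0 := by
            have h3 : 0 ≤ 1 - 2 * g := by linarith [hg.2]
            have h4 : (1 - 2 * g) * (-XX D e a x) ≤ 0 :=
              mul_nonpos_of_nonneg_of_nonpos h3 hX0
            linarith [hg.1]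
          simp only [hΨ, Set.indicator_of_mem hx, max_eq_left h2, ENNReal.ofReal_zero, mul_zero]
        rw [setLIntegral_congr_fun measurableSet_Ioo (fun g hg => h1 g hg)]
        simp
      · rw [max_eq_right hX0.le]
        refine le_trans (le_of_eq ?_) (hONE.b (-XX D e a x) hX0.le)
        apply setLIntegral_congr_fun measurableSet_Ioo
        intro g hg
        have hg2 : 0 < 1 - 2 * g := by linarith [hg.2]
        simp only [hΨ, Set.indicator_of_mem hx]
        have h5 : (1 + -2 * g) = 1 - 2 * g := by ring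
        rw [h5, ← ENNReal.ofReal_mul (by positivity)]
    · rw [Set.indicator_of_notMem hx]
      have h1 : ∀ g : ℝ, Ψ g x = 0 := fun g => by simp only [hΨ, Set.indicator_of_notMem hx]
      simp only [h1, mul_zero, lintegral_zero, le_refl]
  · -- support
    intro α β x hne
    have hmemB : Y α β + (x : E) ∈ B := by
      by_contra hcon
      exact hne (Set.indicator_of_notMem hcon _)
    have hmem : Y α β + (x : E) ∈ Kc a ∩ WW := by
      by_contra hcon
      apply hne
      rw [hH, Set.indicator_of_mem hmemB]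
      exact Set.indicator_of_notMem hcon _
    obtain ⟨hK, hW⟩ := hmem
    obtain ⟨h1, h2⟩ := hKCO.low a ha _ hK
    rw [hca] at h1 h2
    have hg2 : g2 a (Y α β + (x : E)) = β := by
      have h3 : g2 a (Y α β + (x : E)) =
        (inner ℝ a (Y α β + (x : E)) : ℝ) - inner ℝ e (Y α β + (x : E)) := hmemB
      rw [h3, hca, hce]; ring
    have h3 := hKCO.g2ge a ha _ hK
    rw [hg2] at h3
    have hsubU : a - e ∈ nb a := by
      rw [NUTM.mem_nb]
      refine ⟨hUEF.sub a ha e heU hae, ?_⟩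
      rw [inner_sub_left, hea, real_inner_self_eq_norm_sq, ha1]; norm_num
    have h6 := hKCO.g2le a ha _ hsubU (Y α β + (x : E))
    rw [hg2, inner_sub_left, hca, hce] at h6
    have h4 : 0 < α := by
      rcases h1.lt_or_eq with h | h
      · exact h
      · exfalso
        have h5 : α ^ 2 = 0 := by rw [← h]; ring
        rw [h5] at h2
        simp only [WW, Set.mem_ofPred_eq] at hW
        nlinarith [sq_nonneg (mx id (Y α β + (x : E)))]
    exact ⟨h4, h3, by linarith⟩
  · -- measurability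
    have h1 : Measurable (fun p : ℝ × Sp e a =>
        ENNReal.ofReal (max 0 ((1 - 2 * p.1) * (-XX D e a p.2) - p.1))) := by
      apply ENNReal.measurable_ofReal.comp
      have : Continuous (fun p : ℝ × Sp e a =>
          max 0 ((1 - 2 * p.1) * (-XX D e a p.2) - p.1)) := by
        have hX := (XX_cont D e a).comp (continuous_snd (X := ℝ) (Y := Sp e a))
        exact continuous_const.max (((continuous_const.sub
          (continuous_const.mul continuous_fst)).mul hX.neg).sub continuous_fst)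
      exact this.measurable
    have h2 : (fun p : ℝ × Sp e a => Ψ p.1 p.2) =
        (Prod.snd ⁻¹' F6o e a).indicator (fun p : ℝ × Sp e a =>
          ENNReal.ofReal (max 0 ((1 - 2 * p.1) * (-XX D e a p.2) - p.1))) := by
      funext p
      simp only [hΨ]
      by_cases hp : p.2 ∈ F6o e a
      · rw [Set.indicator_of_mem hp, Set.indicator_of_mem (by exact hp)]
      · rw [Set.indicator_of_notMem hp, Set.indicator_of_notMem (by exact hp)]
    rw [h2]
    exact h1.indicator (measurable_snd (NUTM.F6o_meas e a))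
  · -- the pointwise bound
    intro α g hα hg hg1 x
    set c : ℝ := α * (1 + -2 * g) with hc
    have hc' : c = α - 2 * (α * g) := by rw [hc]; ring
    have hc0 : 0 < c := mul_pos hα hg1
    set y : E := Y α (α * g) + ((c • x : Sp e a) : E) with hy
    have hcx : ((c • x : Sp e a) : E) = c • (x : E) := rfl
    have hcxn : ‖((c • x : Sp e a) : E)‖ ^ 2 = c ^ 2 * ‖x‖ ^ 2 := by
      rw [hcx, norm_smul, mul_pow, Real.norm_eq_abs, sq_abs]
      rfl
    by_cases hmemB : y ∈ B
    · have hHB : H y = H0 y := Set.indicator_of_mem hmemB _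
      rw [hHB]
      by_cases hmem : y ∈ Kc a ∩ WW
      · have hHy : H0 y = ENNReal.ofReal (Real.exp (-mx id y) / 40320) * ENNReal.ofReal (F y) :=
          Set.indicator_of_mem hmem _
        rw [hHy]
        obtain ⟨hK, hW⟩ := hmem
        have hmx : mx id y = α := by rw [hKCO.mxe a ha y hK, hy, hca]
        have hg2 : g2 a y = α * g := by
          have h3 : g2 a y = (inner ℝ a y : ℝ) - inner ℝ e y := hmemB
          rw [h3, hy, hca, hce]; ring
        have hDy : (inner ℝ D y : ℝ) = c * XX D e a x := by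
          rw [hy, hcb, hDa, hcx, inner_smul_right, XX_eq D e a hDa, hc']
          ring
        have hFy : F y = α * max 0 ((1 - 2 * g) * (-XX D e a x) - g) := by
          rw [hF]
          simp only
          rw [hDy, hg2, mul_max_of_nonneg _ _ hα.le, mul_zero]
          congr 1
          rw [hc]; ring
        have hxF : x ∈ F6o e a := by
          constructor
          · intro b hb hbe hba
            have hbn : b ∈ nb a := (NUTM.mem_nb a b).2 ⟨hb, hba⟩
            have h1 := hKCO.g2le a ha b hbn y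
            have h2 : (inner ℝ a y : ℝ) = α := by rw [hy, hca]
            rw [h2, hg2, hy, hcb, hbe, hba, hcx, inner_smul_right] at h1
            have h3 : c * (inner ℝ b (x : E) : ℝ) ≤ c * (1 / 3) := by
              rw [hc'] at h1 ⊢
              linarith
            exact le_of_mul_le_mul_left h3 hc0
          · have hW' : 5 * mx id y ^ 2 < 3 * ‖y‖ ^ 2 := hW
            rw [hmx] at hW'
            rw [hy, hcn, hcxn] at hW'
            have h1 : 1 / 3 * (α ^ 2 + 4 * α * (α * g) - 4 * (α * g) ^ 2) <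
                c ^ 2 * ‖x‖ ^ 2 := by
              linarith
            have h2 : c ^ 2 ≤ α ^ 2 + 4 * α * (α * g) - 4 * (α * g) ^ 2 := by
              rw [hc]
              have h3 : 0 ≤ α ^ 2 * (8 * g * (1 - g)) := by
                have : 0 ≤ 1 - g := by linarith
                positivity
              nlinarith
            have h4 : c ^ 2 * (1 / 3) < c ^ 2 * ‖x‖ ^ 2 := by linarith
            exact lt_of_mul_lt_mul_left h4 (by positivity)
        have hΨx : Ψ g x = ENNReal.ofReal (max 0 ((1 - 2 * g) * (-XX D e a x) - g)) := by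
          simp only [hΨ, Set.indicator_of_mem hxF]
        rw [hΨx, hFy, hmx, ← ENNReal.ofReal_mul (by positivity),
          ← ENNReal.ofReal_mul (by positivity)]
        refine le_of_eq ?_
        congr 1
        ring
      · have hHy : H0 y = 0 := Set.indicator_of_notMem hmem _
        rw [hHy]
        exact zero_le
    · have hHy : H y = 0 := Set.indicator_of_notMem hmemB _
      rw [hHy]
      exact zero_le

end INFM

open INFM OTFM in
theorem specINF (hUEF : SpecUEF) (hKCO : SpecKCO) (hPIN : SpecPIN) (hF6V : SpecF6V)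
    (hONE : SpecONE) : SpecINF := by
  intro a ha D hDa hD
  have ha1 := hUEF.nrm a ha
  set F : E → ℝ := fun y => max 0 (-(inner ℝ D y : ℝ) - g2 a y) with hF
  have hFc : Continuous F := by
    have h1 := hKCO.g2c a
    rw [hF]; fun_prop
  have hL : ∫ y in Kc a, F y ∂muW = (∫⁻ y in Kc a, ENNReal.ofReal (F y) ∂muW).toReal := by
    rw [integral_eq_lintegral_of_nonneg_ae]
    · exact Filter.Eventually.of_forall (fun y => le_max_left _ _)
    · exact hFc.aestronglyMeasurable
  -- the functions on the wall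
  have hXm : ∀ e : E, Continuous (fun x : Sp e a => max 0 (-XX D e a x) ^ 2) := fun e =>
    (continuous_const.max (XX_cont D e a).neg).pow 2
  have hbd : ∀ e ∈ nb a, ∀ x ∈ F6o e a, ‖max 0 (-XX D e a x) ^ 2‖ ≤ 1 := by
    intro e he x hx
    obtain ⟨heU, hea⟩ := (NUTM.mem_nb a e).1 he
    have hX := abs_le.1 (XX_le D e a (hUEF.nrm e heU) ha1 hea hD x
      (hF6V.nrm a ha e he x hx.1))
    have h1 : max 0 (-XX D e a x) ≤ 1 := max_le (by norm_num) (by linarith [hX.1])
    have h2 : 0 ≤ max 0 (-XX D e a x) := le_max_left _ _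
    rw [Real.norm_of_nonneg (by positivity)]
    nlinarith
  have hint : ∀ e ∈ nb a, IntegrableOn (fun x : Sp e a => max 0 (-XX D e a x) ^ 2)
      (F6o e a) := by
    intro e he
    apply Measure.integrableOn_of_bounded (M := 1) (FIBM.F6o_fin hF6V a e ha he)
      (hXm e).aestronglyMeasurable
    filter_upwards [ae_restrict_mem (NUTM.F6o_meas e a)] with x hx
    exact hbd e he x hx
  have hvm : Continuous (fun v : E => max 0 (-(inner ℝ D v : ℝ)) ^ 2) := by fun_prop
  have hmap : ∀ e ∈ nb a, Integrable (fun v : E => max 0 (-(inner ℝ D v : ℝ)) ^ 2) (nuP e a) ∧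
      ∫ v, max 0 (-(inner ℝ D v : ℝ)) ^ 2 ∂(nuP e a) =
        ∫ x in F6o e a, max 0 (-XX D e a x) ^ 2 := by
    intro e he
    unfold nuP
    constructor
    · rw [integrable_map_measure hvm.aestronglyMeasurable
        (NUTM.g_cont e a).measurable.aemeasurable]
      exact hint e he
    · rw [integral_map (NUTM.g_cont e a).measurable.aemeasurable hvm.aestronglyMeasurable]
      rfl
  have hR : ∫ v, max 0 (-(inner ℝ D v : ℝ)) ^ 2 ∂(nuA a) =
      ∑ e ∈ nb a, ∫ x in F6o e a, max 0 (-XX D e a x) ^ 2 := by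
    unfold nuA
    rw [integral_finsetSum_measure (fun e he => (hmap e he).1)]
    exact Finset.sum_congr rfl (fun e he => (hmap e he).2)
  have hnn : ∀ e ∈ nb a, 0 ≤ ∫ x in F6o e a, max 0 (-XX D e a x) ^ 2 := fun e _ =>
    integral_nonneg (fun x => sq_nonneg _)
  rw [hL, hR]
  apply ENNReal.toReal_le_of_le_ofReal
    (mul_nonneg (by positivity) (Finset.sum_nonneg hnn))
  rw [Finset.mul_sum, ENNReal.ofReal_sum_of_nonneg (fun e he =>
    mul_nonneg (by positivity) (hnn e he)), FIBM.muW_lint hKCO _ (hKCO.meas a) F hFc.measurable]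
  set H0 : E → ENNReal := (Kc a ∩ WW).indicator
      (fun y => ENNReal.ofReal (Real.exp (-mx id y) / 40320) * ENNReal.ofReal (F y)) with hH0
  have hH0m : Measurable H0 := FIBM.ind_meas hKCO _ (hKCO.meas a) F hFc.measurable
  have hBm : ∀ e : E, MeasurableSet {y : E | g2 a y = (inner ℝ a y : ℝ) - inner ℝ e y} := by
    intro e
    have : IsClosed {y : E | g2 a y = (inner ℝ a y : ℝ) - inner ℝ e y} :=
      isClosed_eq (hKCO.g2c a) (by fun_prop)
    exact this.measurableSet
  have hle : ∀ y, H0 y ≤ ∑ e ∈ nb a,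
      {y : E | g2 a y = (inner ℝ a y : ℝ) - inner ℝ e y}.indicator H0 y := by
    intro y
    obtain ⟨e, he, hge⟩ := hKCO.g2at a ha y
    have h1 : H0 y = {y : E | g2 a y = (inner ℝ a y : ℝ) - inner ℝ e y}.indicator H0 y :=
      (Set.indicator_of_mem (show y ∈ {y : E | g2 a y = (inner ℝ a y : ℝ) - inner ℝ e y} from
        hge) _).symm
    nth_rewrite 1 [h1]
    exact Finset.single_le_sum
      (f := fun e => {y : E | g2 a y = (inner ℝ a y : ℝ) - inner ℝ e y}.indicator H0 y)
      (fun e _ => zero_le) he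
  refine (lintegral_mono hle).trans ?_
  rw [lintegral_finsetSum _ (fun e _ => hH0m.indicator (hBm e))]
  apply Finset.sum_le_sum
  intro e he
  refine (main hUEF hKCO hPIN hONE a ha e he D hDa).trans (le_of_eq ?_)
  have h2 : ENNReal.ofReal (∫ x in F6o e a, max 0 (-XX D e a x) ^ 2 / 2) =
      ∫⁻ x in F6o e a, ENNReal.ofReal (max 0 (-XX D e a x) ^ 2 / 2) := by
    apply ofReal_integral_eq_lintegral_ofReal ((hint e he).div_const 2)
    exact Filter.Eventually.of_forall (fun x => div_nonneg (sq_nonneg _) (by norm_num))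
  rw [← h2, ← ENNReal.ofReal_mul (by positivity), integral_div]
  congr 1
  ring

end Pool.Agent.Lib.MP_f1379f_gt.FV
end

section
/-!
# KCO: the cones
-/
set_option autoImplicit false

namespace Pool.Agent.Lib.MP_f1379f_gt.FV

open MeasureTheory

namespace KCOM

theorem cont_sup {ι : Type*} [Fintype ι] (f : ι → E → ℝ) (hf : ∀ i, Continuous (f i)) :
    Continuous fun y => ⨆ i, f i y := by
  rcases isEmpty_or_nonempty ι with h | h
  · simp only [Real.iSup_of_isEmpty]
    exact continuous_const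
  · have h1 : (fun y => ⨆ i, f i y) =
        fun y => Finset.univ.sup' Finset.univ_nonempty (fun i => f i y) := by
      funext y
      rw [Finset.sup'_univ_eq_ciSup]
    rw [h1]
    exact Continuous.finset_sup'_apply _ fun i _ => hf i

theorem cont_inf {ι : Type*} [Fintype ι] (f : ι → E → ℝ) (hf : ∀ i, Continuous (f i)) :
    Continuous fun y => ⨅ i, f i y := by
  rcases isEmpty_or_nonempty ι with h | h
  · simp only [Real.iInf_of_isEmpty]
    exact continuous_const
  · have h1 : (fun y => ⨅ i, f i y) =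
        fun y => Finset.univ.inf' Finset.univ_nonempty (fun i => f i y) := by
      funext y
      rw [Finset.inf'_univ_eq_ciInf]
    rw [h1]
    exact Continuous.finset_inf'_apply _ fun i _ => hf i

theorem mxc (u : E → E) : Continuous (mx u) :=
  cont_sup (fun (e : UE) y => (inner ℝ (u e) y : ℝ)) fun _ => continuous_const.inner continuous_id

theorem g2c (a : E) : Continuous (g2 a) :=
  cont_inf (fun (e : nb a) y => ((inner ℝ a y : ℝ) - inner ℝ (e : E) y)) fun _ =>
    (continuous_const.inner continuous_id).sub (continuous_const.inner continuous_id)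

theorem le (u : E → E) (e : E) (he : e ∈ UE) (y : E) : (inner ℝ (u e) y : ℝ) ≤ mx u y :=
  le_ciSup (f := fun e : UE => (inner ℝ (u e) y : ℝ)) (Set.finite_range _).bddAbove ⟨e, he⟩

theorem meas (e : E) : MeasurableSet (Kc e) := by
  have h : Kc e = ⋂ t ∈ UE, {y : E | (inner ℝ t y : ℝ) ≤ inner ℝ e y} := by
    ext y
    simp [Kc]
  rw [h]
  refine MeasurableSet.biInter UE.countable_toSet fun t _ => ?_
  exact measurableSet_le (continuous_const.inner continuous_id).measurable
    (continuous_const.inner continuous_id).measurable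

theorem nul (e f : E) (he : e ∈ UE) (hf : f ∈ UE) (hef : e ≠ f) :
    volume (Kc e ∩ Kc f) = 0 := by
  have hsub : Kc e ∩ Kc f ⊆ ((Submodule.span ℝ {e - f})ᗮ : Submodule ℝ E) := by
    rintro y ⟨h1, h2⟩
    have h3 : (inner ℝ e y : ℝ) = inner ℝ f y := le_antisymm (h2 e he) (h1 f hf)
    show y ∈ (Submodule.span ℝ {e - f})ᗮ
    rw [Submodule.mem_orthogonal_singleton_iff_inner_right, inner_sub_left, h3, sub_self]
  refine measure_mono_null hsub (Measure.addHaar_submodule volume _ ?_)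
  intro htop
  have h1 : e - f ∈ (Submodule.span ℝ {e - f})ᗮ := by rw [htop]; trivial
  rw [Submodule.mem_orthogonal_singleton_iff_inner_left, inner_self_eq_zero] at h1
  exact hef (sub_eq_zero.1 h1)

end KCOM

/-- The cones. -/
theorem specKCO (hUEF : SpecUEF) : SpecKCO where
  meas := KCOM.meas
  wmeas := by
    unfold WW
    exact measurableSet_lt (by
      have := (KCOM.mxc id).measurable
      fun_prop) (by fun_prop)
  mxc := KCOM.mxc
  g2c := KCOM.g2c
  le := KCOM.le
  ge := by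
    intro u y c h
    have hne : UE.Nonempty := by
      rw [← Finset.card_pos, hUEF.c240]; norm_num
    have : Nonempty UE := hne.to_subtype
    exact ciSup_le fun e => h e.1 e.2
  mxe := by
    intro e he y hy
    have hne : UE.Nonempty := ⟨e, he⟩
    have : Nonempty UE := hne.to_subtype
    refine le_antisymm (ciSup_le fun s => ?_) (KCOM.le id e he y)
    exact hy s.1 s.2
  cov := by
    intro y
    have hne : UE.Nonempty := by
      rw [← Finset.card_pos, hUEF.c240]; norm_num
    obtain ⟨e, he, h⟩ := UE.exists_max_image (fun s => (inner ℝ s y : ℝ)) hne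
    exact ⟨e, he, fun s hs => h s hs⟩
  nul := fun e he f hf hef => KCOM.nul e f he hf hef
  low := by
    intro e he y hy
    obtain ⟨f, hf, h1, h2⟩ := hUEF.cov y
    have h3 : (inner ℝ f y : ℝ) ≤ inner ℝ e y := hy f hf
    refine ⟨h1.trans h3, h2.trans ?_⟩
    have h4 := pow_le_pow_left₀ h1 h3 2
    linarith
  g2le := by
    intro a _ e he y
    exact ciInf_le (f := fun e : nb a => ((inner ℝ a y : ℝ) - inner ℝ (e : E) y))
      (Set.finite_range _).bddBelow ⟨e, he⟩
  g2ge := by
    intro a ha y hy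
    have hne : (nb a).Nonempty := by
      rw [← Finset.card_pos, hUEF.c56 a ha]; norm_num
    have : Nonempty (nb a) := hne.to_subtype
    refine le_ciInf fun e => ?_
    have h1 : (e : E) ∈ UE := by
      have := e.2
      unfold nb at this
      exact (Finset.mem_filter.1 this).1
    have h2 := hy _ h1
    linarith
  g2at := by
    intro a ha y
    have hne : (nb a).Nonempty := by
      rw [← Finset.card_pos, hUEF.c56 a ha]; norm_num
    have : Nonempty (nb a) := hne.to_subtype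
    obtain ⟨e, he⟩ := exists_eq_ciInf_of_finite
      (f := fun e : nb a => ((inner ℝ a y : ℝ) - inner ℝ (e : E) y))
    exact ⟨e.1, e.2, he.symm⟩

end Pool.Agent.Lib.MP_f1379f_gt.FV
end

section
/-! # Module M24: moments of the outer part of the wall. -/
set_option autoImplicit false

namespace Pool.Agent.Lib.MP_f1379f_gt.FV

open MeasureTheory

namespace M24M

/-- First polynomial inequality. -/
theorem poly1 (d : ℝ) (h0 : 0 ≤ d) (h1 : d ≤ 1 / 3) :
    2 / 3 + d ≤ 687 / 1000 + 232 * psl d := by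
  unfold psl
  have hc : 0 ≤ 1 - 3 * d := by linarith
  have k0 : 0 ≤ (d - 11 / 250) ^ 2 * (1 - 3 * d) ^ 4 := by positivity
  have k1 : 0 ≤ (d - 11 / 250) ^ 2 * (d * (1 - 3 * d) ^ 3) := by positivity
  have k2 : 0 ≤ (d - 11 / 250) ^ 2 * (d ^ 2 * (1 - 3 * d) ^ 2) := by positivity
  have k3 : 0 ≤ (d - 11 / 250) ^ 2 * (d ^ 3 * (1 - 3 * d)) := by positivity
  have k4 : 0 ≤ (d - 11 / 250) ^ 2 * d ^ 4 := by positivity
  linarith

/-- Second polynomial inequality. -/
theorem poly2 (d : ℝ) (h0 : 0 ≤ d) (h1 : d ≤ 1 / 3) :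
    (2 / 3 + d) ^ 2 ≤ 467 / 1000 + 378 * psl d := by
  unfold psl
  have hc : 0 ≤ 1 - 3 * d := by linarith
  have k0 : 0 ≤ (d - 361 / 10000) ^ 2 * (1 - 3 * d) ^ 4 := by positivity
  have k1 : 0 ≤ (d - 361 / 10000) ^ 2 * (d * (1 - 3 * d) ^ 3) := by positivity
  have k2 : 0 ≤ (d - 361 / 10000) ^ 2 * (d ^ 2 * (1 - 3 * d) ^ 2) := by positivity
  have k3 : 0 ≤ (d - 361 / 10000) ^ 2 * (d ^ 3 * (1 - 3 * d)) := by positivity
  have k4 : 0 ≤ (d - 361 / 10000) ^ 2 * d ^ 4 := by positivity
  linarith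

theorem sqrt3_le : Real.sqrt 3 ≤ 1732051 / 1000000 := by
  rw [Real.sqrt_le_left (by norm_num)]
  norm_num

/-- The volume of the outer part. -/
theorem vol_outer (hF6V : SpecF6V) (hVF6 : SpecVF6) (hV6B : SpecV6B) (a : E) (ha : a ∈ UE)
    (e : E) (he : e ∈ nb a) :
    volume (F6o e a) ≠ ⊤ ∧ (volume (F6o e a)).toReal ≤ 59001 / 10000000 := by
  have hV := hVF6 a ha e he
  have hI := hV6B a ha e he
  have hm : MeasurableSet (F6o e a) := hF6V.meas e a
  have hsub : F6o e a ⊆ F6 e a := fun x hx => hx.1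
  have hdisj : Disjoint (F6o e a) {x : Sp e a | x ∈ F6 e a ∧ ‖x‖ ^ 2 ≤ 1 / 3} := by
    rw [Set.disjoint_left]
    rintro x ⟨_, hx⟩ ⟨_, hy⟩
    linarith
  have hunion : F6o e a ∪ {x : Sp e a | x ∈ F6 e a ∧ ‖x‖ ^ 2 ≤ 1 / 3} ⊆ F6 e a := by
    rintro x (hx | hx)
    · exact hx.1
    · exact hx.1
  have h1 : volume (F6o e a) + volume {x : Sp e a | x ∈ F6 e a ∧ ‖x‖ ^ 2 ≤ 1 / 3} ≤
      volume (F6 e a) := by
    rw [← measure_union' hdisj hm]
    exact measure_mono hunion
  have hfin : volume (F6o e a) ≠ ⊤ := by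
    intro h
    have h2 : volume (F6o e a) ≤ volume (F6 e a) := measure_mono hsub
    rw [h, hV] at h2
    exact absurd h2 (not_le.mpr ENNReal.ofReal_lt_top)
  refine ⟨hfin, ?_⟩
  have h3 : volume (F6o e a) + ENNReal.ofReal (10957 / 100000) ≤
      ENNReal.ofReal (Real.sqrt 3 / 15) := by
    rw [← hV]
    exact le_trans (add_le_add le_rfl hI) h1
  have h4 : volume (F6o e a) = ENNReal.ofReal (volume (F6o e a)).toReal :=
    (ENNReal.ofReal_toReal hfin).symm
  rw [h4, ← ENNReal.ofReal_add ENNReal.toReal_nonneg (by norm_num)] at h3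
  have h5 : (volume (F6o e a)).toReal + 10957 / 100000 ≤ Real.sqrt 3 / 15 :=
    (ENNReal.ofReal_le_ofReal_iff (by positivity)).mp h3
  have h6 := sqrt3_le
  linarith

/-- Bounded continuous functions of the norm are integrable. -/
theorem intg (hF6V : SpecF6V) (a : E) (ha : a ∈ UE) (e : E) (he : e ∈ nb a)
    (hfin : volume (F6o e a) ≠ ⊤) (f : ℝ → ℝ) (hf : Continuous f) :
    IntegrableOn (fun x : Sp e a => f (‖x‖ ^ 2)) (F6o e a) volume := by
  obtain ⟨M, hM⟩ := (isCompact_Icc (a := (0 : ℝ)) (b := 2 / 3)).exists_bound_of_continuousOn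
    hf.continuousOn
  refine Measure.integrableOn_of_bounded (M := M) hfin ?_ ?_
  · exact (hf.comp (continuous_norm.pow 2)).aestronglyMeasurable
  · refine (ae_restrict_iff' (hF6V.meas e a)).mpr (Filter.Eventually.of_forall ?_)
    intro x hx
    apply hM
    refine ⟨by positivity, ?_⟩
    have := hF6V.nrm a ha e he x hx.1
    simpa using this

/-- The general comparison. -/
theorem cmp (hF6V : SpecF6V) (hVF6 : SpecVF6) (hV6B : SpecV6B) (hTL2 : SpecTL2)
    (hTAI : SpecTAI) (a : E) (ha : a ∈ UE) (e : E) (he : e ∈ nb a) (f : ℝ → ℝ)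
    (hf : Continuous f) (c k : ℝ) (hc : 0 ≤ c) (hk : 0 ≤ k)
    (hle : ∀ d : ℝ, 0 ≤ d → d ≤ 1 / 3 → f (d + 1 / 3) ≤ c + k * psl d) :
    (∫ x in F6o e a, f (‖x‖ ^ 2)) ≤
      c * (59001 / 10000000) + k * (716 / 100000 / 13440) := by
  obtain ⟨hfin, hvol⟩ := vol_outer hF6V hVF6 hV6B a ha e he
  have hpc : Continuous fun t : ℝ => psl (t - 1 / 3) := by
    unfold psl
    fun_prop
  have hi1 := intg hF6V a ha e he hfin f hf
  have hi2 := intg hF6V a ha e he hfin (fun t : ℝ => psl (t - 1 / 3)) hpc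
  have hi3 : IntegrableOn (fun x : Sp e a => k * psl (‖x‖ ^ 2 - 1 / 3)) (F6o e a) volume :=
    hi2.const_mul k
  have hic : IntegrableOn (fun _ : Sp e a => c) (F6o e a) volume :=
    integrableOn_const hfin
  have h1 : (∫ x in F6o e a, f (‖x‖ ^ 2)) ≤
      ∫ x in F6o e a, (c + k * psl (‖x‖ ^ 2 - 1 / 3)) := by
    refine setIntegral_mono_on hi1 (hic.add hi3) (hF6V.meas e a) ?_
    intro x hx
    have h2 : ‖x‖ ^ 2 ≤ 2 / 3 := by
      have := hF6V.nrm a ha e he x hx.1
      simpa using this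
    have h3 : 1 / 3 < ‖x‖ ^ 2 := hx.2
    have h4 := hle (‖x‖ ^ 2 - 1 / 3) (by linarith) (by linarith)
    have h5 : ‖x‖ ^ 2 - 1 / 3 + 1 / 3 = ‖x‖ ^ 2 := by ring
    rw [h5] at h4
    exact h4
  have h2 : (∫ x in F6o e a, (c + k * psl (‖x‖ ^ 2 - 1 / 3))) =
      (volume (F6o e a)).toReal * c + k * ∫ x in F6o e a, psl (‖x‖ ^ 2 - 1 / 3) := by
    rw [integral_add hic hi3, integral_const_mul, setIntegral_const]
    simp [Measure.real]
  have h3 := hTL2 a ha e he
  have h4 : (∫ x in F6o e a, psl (‖x‖ ^ 2 - 1 / 3)) ≤ 716 / 100000 / 13440 := by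
    have h5 := hTAI
    unfold SpecTAI at h5
    rw [le_div_iff₀ (by norm_num)]
    linarith
  rw [h2] at h1
  have h6 : (volume (F6o e a)).toReal * c ≤ c * (59001 / 10000000) := by
    rw [mul_comm]
    exact mul_le_mul_of_nonneg_left hvol hc
  have h7 : k * ∫ x in F6o e a, psl (‖x‖ ^ 2 - 1 / 3) ≤ k * (716 / 100000 / 13440) :=
    mul_le_mul_of_nonneg_left h4 hk
  linarith

end M24M

/-- M24. -/
theorem specM24 (hF6V : SpecF6V) (hVF6 : SpecVF6) (hV6B : SpecV6B) (hTL2 : SpecTL2)
    (hTAI : SpecTAI) : SpecM24 := by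
  intro a ha e he
  constructor
  · have h := M24M.cmp hF6V hVF6 hV6B hTL2 hTAI a ha e he (fun t => 1 / 3 + t) (by fun_prop)
      (687 / 1000) 232 (by norm_num) (by norm_num) (fun d h0 h1 => by
        have := M24M.poly1 d h0 h1
        linarith)
    refine le_trans h ?_
    norm_num
  · have h := M24M.cmp hF6V hVF6 hV6B hTL2 hTAI a ha e he (fun t => (1 / 3 + t) ^ 2)
      (by fun_prop) (467 / 1000) 378 (by norm_num) (by norm_num) (fun d h0 h1 => by
        have := M24M.poly2 d h0 h1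
        have h2 : 1 / 3 + (d + 1 / 3) = 2 / 3 + d := by ring
        show (1 / 3 + (d + 1 / 3)) ^ 2 ≤ _
        rw [h2]
        exact this)
    refine le_trans h ?_
    norm_num

end Pool.Agent.Lib.MP_f1379f_gt.FV
end

section
/-!
# MO1: the first moment on a cone
-/
set_option autoImplicit false

namespace Pool.Agent.Lib.MP_f1379f_gt.FV

open MeasureTheory

namespace MO1M

/-- the reflection in a unit vector -/
theorem refl_ex {s : E} (hs : ‖s‖ = 1) :
    ∃ σ : E ≃ₗᵢ[ℝ] E, ∀ y, σ y = y - (2 * (inner ℝ y s : ℝ)) • s := by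
  refine ⟨Submodule.reflection (Submodule.span ℝ {s})ᗮ, fun y => ?_⟩
  rw [Submodule.reflection_orthogonal_apply, Submodule.reflection_singleton_apply]
  rw [real_inner_comm y s]
  simp only [RCLike.ofReal_real_eq_id, id_eq]
  rw [hs]
  module

section refl

variable {σ : E ≃ₗᵢ[ℝ] E} {s : E}

theorem invol (hs : ‖s‖ = 1) (hσ : ∀ y, σ y = y - (2 * (inner ℝ y s : ℝ)) • s)
    (y : E) : σ (σ y) = y := by
  have hss : (inner ℝ s s : ℝ) = 1 := by rw [real_inner_self_eq_norm_sq, hs]; norm_num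
  rw [hσ (σ y), hσ y, inner_sub_left, real_inner_smul_left, hss, sub_sub, ← add_smul]
  have : 2 * (inner ℝ y s : ℝ) + 2 * (inner ℝ y s - 2 * inner ℝ y s * 1) = 0 := by ring
  rw [this, zero_smul, sub_zero]

theorem swap (hs : ‖s‖ = 1) (hσ : ∀ y, σ y = y - (2 * (inner ℝ y s : ℝ)) • s) (t y : E) :
    (inner ℝ t (σ y) : ℝ) = inner ℝ (σ t) y := by
  rw [← σ.inner_map_map (σ t) y, invol hs hσ]

theorem mx_le (hKCO : SpecKCO) (hs : ‖s‖ = 1) (hσ : ∀ y, σ y = y - (2 * (inner ℝ y s : ℝ)) • s)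
    (hR : ∀ t ∈ UE, σ t ∈ UE) (y : E) : mx id (σ y) ≤ mx id y := by
  apply hKCO.ge
  intro e he
  show (inner ℝ e (σ y) : ℝ) ≤ _
  rw [swap hs hσ]
  exact hKCO.le id (σ e) (hR e he) y

theorem mx_eq (hKCO : SpecKCO) (hs : ‖s‖ = 1) (hσ : ∀ y, σ y = y - (2 * (inner ℝ y s : ℝ)) • s)
    (hR : ∀ t ∈ UE, σ t ∈ UE) (y : E) : mx id (σ y) = mx id y := by
  apply le_antisymm (mx_le hKCO hs hσ hR y)
  have := mx_le hKCO hs hσ hR (σ y)
  rwa [invol hs hσ] at this

theorem pre_WW (hKCO : SpecKCO) (hs : ‖s‖ = 1)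
    (hσ : ∀ y, σ y = y - (2 * (inner ℝ y s : ℝ)) • s)
    (hR : ∀ t ∈ UE, σ t ∈ UE) : σ ⁻¹' WW = WW := by
  ext y
  show 5 * mx id (σ y) ^ 2 < 3 * ‖σ y‖ ^ 2 ↔ 5 * mx id y ^ 2 < 3 * ‖y‖ ^ 2
  rw [mx_eq hKCO hs hσ hR, σ.norm_map]

theorem pre_Kc (hs : ‖s‖ = 1) (hσ : ∀ y, σ y = y - (2 * (inner ℝ y s : ℝ)) • s)
    (hR : ∀ t ∈ UE, σ t ∈ UE) {e : E} (he : σ e = e) : σ ⁻¹' (Kc e) = Kc e := by
  ext y
  constructor
  · intro h t ht
    have h1 := h (σ t) (hR t ht)
    have h2 : (inner ℝ e (σ y) : ℝ) = inner ℝ e y := by rw [swap hs hσ, he]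
    rw [σ.inner_map_map, h2] at h1
    exact h1
  · intro h t ht
    rw [swap hs hσ, swap hs hσ, he]
    exact h (σ t) (hR t ht)

/-- the density -/
noncomputable def dens (y : E) : ENNReal := ENNReal.ofReal (Real.exp (-mx id y) / 40320)

theorem dens_meas (hKCO : SpecKCO) : Measurable dens := by
  have h := (hKCO.mxc id)
  exact ENNReal.measurable_ofReal.comp
    ((Real.continuous_exp.comp h.neg).div_const _).measurable

theorem mp (hKCO : SpecKCO) (hs : ‖s‖ = 1) (hσ : ∀ y, σ y = y - (2 * (inner ℝ y s : ℝ)) • s)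
    (hR : ∀ t ∈ UE, σ t ∈ UE) : MeasurePreserving σ muW muW := by
  have hmes : Measurable σ := σ.continuous.measurable
  refine ⟨hmes, ?_⟩
  ext A hA
  rw [Measure.map_apply hmes hA]
  show ((volume.restrict WW).withDensity dens) (σ ⁻¹' A) =
    ((volume.restrict WW).withDensity dens) A
  rw [withDensity_apply _ (hmes hA), withDensity_apply _ hA, Measure.restrict_restrict (hmes hA),
    Measure.restrict_restrict hA]
  have h1 : σ ⁻¹' A ∩ WW = σ ⁻¹' (A ∩ WW) := by
    rw [Set.preimage_inter, pre_WW hKCO hs hσ hR]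
  rw [h1, ← (LinearIsometryEquiv.measurePreserving σ).setLIntegral_comp_preimage
    (hA.inter hKCO.wmeas) (dens_meas hKCO)]
  apply lintegral_congr
  intro y
  show dens y = dens (σ y)
  rw [dens, dens, mx_eq hKCO hs hσ hR]

end refl

theorem intg (hTLC : SpecTLC) (b : E) : Integrable (fun y : E => (inner ℝ b y : ℝ)) muW := by
  have h := (hTLC.int 1).const_mul ‖b‖
  refine h.mono' (by fun_prop) (Filter.Eventually.of_forall fun y => ?_)
  rw [pow_one]
  exact norm_inner_le_norm b y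

end MO1M

open MO1M in
theorem specMO1 (hUEF : SpecUEF) (hKCO : SpecKCO) (hTLC : SpecTLC) : SpecMO1 := by
  intro e he b hb
  have hint : ∀ b : E, IntegrableOn (fun y : E => (inner ℝ b y : ℝ)) (Kc e) muW := fun b =>
    (intg hTLC b).integrableOn
  let L : E →ₗ[ℝ] ℝ :=
    { toFun := fun b => ∫ y in Kc e, (inner ℝ b y : ℝ) ∂muW
      map_add' := by
        intro b c
        rw [← integral_add (hint b) (hint c)]
        refine integral_congr_ae (Filter.Eventually.of_forall fun y => ?_)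
        exact inner_add_left b c y
      map_smul' := by
        intro t b
        rw [RingHom.id_apply, smul_eq_mul, ← integral_const_mul]
        refine integral_congr_ae (Filter.Eventually.of_forall fun y => ?_)
        exact real_inner_smul_left b y t }
  have hL0 : ∀ s ∈ ob e, L s = 0 := by
    intro s hs
    obtain ⟨hsU, hse⟩ : s ∈ UE ∧ (inner ℝ s e : ℝ) = 0 := by
      simpa [ob] using hs
    have hss := hUEF.nrm s hsU
    obtain ⟨σ, hσ⟩ := refl_ex hss
    have hR : ∀ t ∈ UE, σ t ∈ UE := by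
      intro t ht
      rw [hσ]
      exact hUEF.refl t ht s hsU
    have hee : σ e = e := by
      rw [hσ, real_inner_comm, hse, mul_zero, zero_smul, sub_zero]
    have hs' : σ s = -s := by
      rw [hσ, real_inner_self_eq_norm_sq, hss]
      module
    have h1 := (mp hKCO hss hσ hR).setIntegral_preimage_emb
      σ.toHomeomorph.measurableEmbedding (fun y : E => (inner ℝ s y : ℝ)) (Kc e)
    rw [pre_Kc hss hσ hR hee] at h1
    have h2 : ∀ y : E, (inner ℝ s (σ y) : ℝ) = - inner ℝ s y := by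
      intro y
      rw [swap hss hσ, hs', inner_neg_left]
    simp only [h2, integral_neg] at h1
    show (∫ y in Kc e, (inner ℝ s y : ℝ) ∂muW) = 0
    linarith
  obtain ⟨M, hM⟩ : ∃ M : E, ∀ b : E, L b = inner ℝ M b := by
    refine ⟨(InnerProductSpace.toDual ℝ E).symm (LinearMap.toContinuousLinearMap L), fun b => ?_⟩
    rw [InnerProductSpace.toDual_symm_apply]
    rfl
  have hee : (inner ℝ e e : ℝ) = 1 := by
    rw [real_inner_self_eq_norm_sq, hUEF.nrm e he]; norm_num
  have hz := hUEF.orp e he (M - (inner ℝ M e : ℝ) • e) (by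
    rw [inner_sub_left, real_inner_smul_left, hee]
    ring) (fun s hs => by
      have hse : (inner ℝ s e : ℝ) = 0 := by
        have : s ∈ UE ∧ (inner ℝ s e : ℝ) = 0 := by simpa [ob] using hs
        exact this.2
      rw [inner_sub_left, real_inner_smul_left, real_inner_comm s e, hse, mul_zero, sub_zero,
        ← hM]
      exact hL0 s hs)
  have hb' : (inner ℝ e b : ℝ) = 0 := by
    rw [real_inner_comm]
    exact hb
  have h1 : L b = 0 := by
    rw [hM, sub_eq_zero.1 hz, real_inner_smul_left, hb', mul_zero]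
  exact h1

end Pool.Agent.Lib.MP_f1379f_gt.FV
end

section
/-!
# MP_f1379f_gt, block O, module NNB: the one-vector bound
-/
set_option autoImplicit false

open MeasureTheory

namespace Pool.Agent.Lib.MP_f1379f_gt.FV

namespace NNBM

theorem mem_nb {a e : E} (he : e ∈ nb a) : e ∈ UE ∧ (inner ℝ e a : ℝ) = 1 / 2 := by
  unfold nb at he
  exact (Finset.mem_filter.1 he)

theorem of_nb {a e : E} (he : e ∈ UE) (hea : (inner ℝ e a : ℝ) = 1 / 2) : e ∈ nb a := by
  unfold nb
  exact Finset.mem_filter.2 ⟨he, hea⟩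

theorem mem_ob {a e : E} (he : e ∈ ob a) : e ∈ UE ∧ (inner ℝ e a : ℝ) = 0 := by
  unfold ob at he
  exact (Finset.mem_filter.1 he)

theorem of_ob {a e : E} (he : e ∈ UE) (hea : (inner ℝ e a : ℝ) = 0) : e ∈ ob a := by
  unfold ob
  exact Finset.mem_filter.2 ⟨he, hea⟩

theorem self (h : SpecUEF) {e : E} (he : e ∈ UE) : (inner ℝ e e : ℝ) = 1 := by
  rw [real_inner_self_eq_norm_sq, h.nrm e he]
  norm_num

/-- the roots with negative product do not contribute -/
theorem far (hUEF : SpecUEF) (hKCO : SpecKCO) {a e D : E} (ha : a ∈ UE) (he : e ∈ UE)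
    (hea : (inner ℝ e a : ℝ) = -1 / 2 ∨ (inner ℝ e a : ℝ) = -1) (hD : ‖D‖ ≤ 17 / 50) :
    ∫ y in Kc e, max 0 ((inner ℝ D y : ℝ) - ((inner ℝ e y : ℝ) - inner ℝ a y)) ∂muW = 0 := by
  refine setIntegral_eq_zero_of_forall_eq_zero fun y hy => ?_
  obtain ⟨h0, h1⟩ := hKCO.low e he y hy
  have hay : (inner ℝ a y : ℝ) ≤ 0 := by
    rcases hea with h | h
    · have h2 : (inner ℝ (e + a) y : ℝ) ≤ inner ℝ e y := hy (e + a) (hUEF.add e he a ha h)
      rw [inner_add_left] at h2
      linarith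
    · have h2 : -e = a :=
        hUEF.one (-e) (hUEF.neg e he) a ha (by rw [inner_neg_left, h]; norm_num)
      rw [← h2, inner_neg_left]
      linarith
  have h2 : (inner ℝ D y : ℝ) ≤ ‖D‖ * ‖y‖ := real_inner_le_norm D y
  have h3 : ‖y‖ ≤ 3 / 2 * (inner ℝ e y : ℝ) := by
    by_contra hc
    push Not at hc
    nlinarith [norm_nonneg y, sq_nonneg (inner ℝ e y : ℝ)]
  have h4 : ‖D‖ * ‖y‖ ≤ 17 / 50 * (3 / 2 * (inner ℝ e y : ℝ)) :=
    mul_le_mul hD h3 (norm_nonneg y) (by norm_num)
  exact max_eq_left (by linarith)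

/-- splitting of the sum -/
theorem split (hUEF : SpecUEF) {a : E} (ha : a ∈ UE) (F : E → ℝ)
    (hF : ∀ e ∈ UE, ((inner ℝ e a : ℝ) = -1 / 2 ∨ (inner ℝ e a : ℝ) = -1) → F e = 0) :
    ∑ e ∈ UE.erase a, F e = ∑ e ∈ nb a, F e + ∑ e ∈ ob a, F e := by
  have hd : Disjoint (nb a) (ob a) := by
    rw [Finset.disjoint_left]
    intro e h1 h2
    have h3 := (mem_nb h1).2
    rw [(mem_ob h2).2] at h3
    norm_num at h3
  rw [← Finset.sum_disjUnion hd]
  symm
  refine Finset.sum_subset ?_ ?_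
  · intro e he
    rw [Finset.mem_disjUnion] at he
    rw [Finset.mem_erase]
    rcases he with h | h
    · refine ⟨?_, (mem_nb h).1⟩
      rintro rfl
      have h1 := (mem_nb h).2
      rw [self hUEF ha] at h1
      norm_num at h1
    · refine ⟨?_, (mem_ob h).1⟩
      rintro rfl
      have h1 := (mem_ob h).2
      rw [self hUEF ha] at h1
      norm_num at h1
  · intro e he hn
    rw [Finset.mem_erase] at he
    rw [Finset.mem_disjUnion] at hn
    rcases hUEF.ip e he.2 a ha with h | h | h | h | h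
    · exact absurd (hUEF.one e he.2 a ha h) he.1
    · exact absurd (Or.inl (of_nb he.2 h)) hn
    · exact absurd (Or.inr (of_ob he.2 h)) hn
    · exact hF e he.2 (Or.inl h)
    · exact hF e he.2 (Or.inr h)

theorem JJ_meas : Measurable JJ := by
  unfold JJ
  fun_prop

theorem JJ_bd {x : ℝ} (h0 : 0 ≤ x) (h1 : x ≤ 17 / 50) : |JJ x| ≤ 3 := by
  unfold JJ
  have h2 : 0 < 1 - x := by linarith
  have h3 : 0 ≤ (1 - x)⁻¹ := inv_nonneg.2 h2.le
  have h4 : (1 - x)⁻¹ ≤ 2 := by
    rw [inv_le_comm₀ h2 (by norm_num)]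
    linarith
  have h5 : (1 - x)⁻¹ ^ 7 ≤ 2 ^ 7 := pow_le_pow_left₀ h3 h4 7
  have h6 : 0 ≤ (1 - x)⁻¹ ^ 7 := pow_nonneg h3 7
  rw [abs_le]
  constructor <;> linarith

theorem sq_split (x : ℝ) : max 0 x ^ 2 + max 0 (-x) ^ 2 = x ^ 2 := by
  rcases le_total 0 x with h | h
  · rw [max_eq_right h, max_eq_left (by linarith)]
    ring
  · rw [max_eq_left h, max_eq_right (by linarith)]
    ring

theorem four_split (x : ℝ) : max 0 x ^ 4 + max 0 (-x) ^ 4 = x ^ 4 := by
  rcases le_total 0 x with h | h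
  · rw [max_eq_right h, max_eq_left (by linarith)]
    ring
  · rw [max_eq_left h, max_eq_right (by linarith)]
    ring

/-- the sign change of the variable -/
theorem flip {nu : Measure E} (hneg : Measure.map (fun v : E => -v) nu = nu) (D : E)
    (g : ℝ → ℝ) (hg : Measurable g) :
    ∫ v, g (-(inner ℝ D v : ℝ)) ∂nu = ∫ v, g (inner ℝ D v : ℝ) ∂nu := by
  have hm : AEStronglyMeasurable (fun v : E => g (inner ℝ D v : ℝ))
      (Measure.map (fun v : E => -v) nu) :=
    (hg.comp (by fun_prop : Measurable fun v : E => (inner ℝ D v : ℝ))).aestronglyMeasurable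
  have h := integral_map (μ := nu) (φ := fun v : E => -v) (by fun_prop) hm
  rw [hneg] at h
  rw [h]
  refine integral_congr_ae (Filter.Eventually.of_forall fun v => ?_)
  show g (-(inner ℝ D v : ℝ)) = g (inner ℝ D (-v) : ℝ)
  rw [inner_neg_right]

/-- numerics -/
theorem num {x y J P2 P4 Q2 Q4 S1 S2 S3 : ℝ} (hx : 0 ≤ x) (hy : 0 ≤ y) (s2 : P2 + P2 = Q2)
    (s4 : P4 + P4 = Q4) (A2 : Q2 ≤ 8 * (418 / 100000) * x)
    (A4 : Q4 ≤ 56 / 21 * (296 / 100000) * y) (hJ : J ≤ 111 / 200 * P2 + 76 / 5 * P4)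
    (h1 : S1 ≤ 2 / Real.sqrt 3 * J) (h2 : S2 ≤ 367 / 10000 * y) (h3 : S3 ≤ 1 / Real.sqrt 3 * P2) :
    S1 + S2 + S3 ≤ 204 / 10000 * x + 106 / 1000 * y := by
  have hr3 : (173205 / 100000 : ℝ) ≤ Real.sqrt 3 := by
    apply Real.le_sqrt_of_sq_le
    norm_num
  have hr0 : (0 : ℝ) < Real.sqrt 3 := by linarith
  have hr : 1 / Real.sqrt 3 ≤ 577352 / 1000000 := by
    rw [div_le_iff₀ hr0]
    linarith
  have hrp : 0 < 1 / Real.sqrt 3 := by positivity
  have h2r : 2 / Real.sqrt 3 = 2 * (1 / Real.sqrt 3) := by ring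
  rw [h2r] at h1
  generalize 1 / Real.sqrt 3 = r at h1 h3 hr hrp
  have hout2 := mul_le_mul_of_nonneg_left hJ (mul_nonneg (by norm_num : (0 : ℝ) ≤ 2) hrp.le)
  have p2 : P2 = Q2 / 2 := by linarith
  have p4 : P4 = Q4 / 2 := by linarith
  have k1 : 2 * r * (111 / 200 * P2 + 76 / 5 * P4) + r * P2 =
      r * (211 / 200 * Q2 + 76 / 5 * Q4) := by
    rw [p2, p4]
    ring
  have k2 : r * (211 / 200 * Q2 + 76 / 5 * Q4) ≤
      r * (211 / 200 * (8 * (418 / 100000) * x) +
        76 / 5 * (56 / 21 * (296 / 100000) * y)) :=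
    mul_le_mul_of_nonneg_left (by linarith) hrp.le
  have k3 : r * (211 / 200 * (8 * (418 / 100000) * x) +
        76 / 5 * (56 / 21 * (296 / 100000) * y)) ≤
      577352 / 1000000 * (211 / 200 * (8 * (418 / 100000) * x) +
        76 / 5 * (56 / 21 * (296 / 100000) * y)) :=
    mul_le_mul_of_nonneg_right hr (by positivity)
  linarith

end NNBM

open NNBM in
theorem specNNB (hUEF : SpecUEF) (hKCO : SpecKCO) (hOTF : SpecOTF) (hINF : SpecINF)
    (hORT : SpecORT) (hNUA : SpecNUA) (hIS2 : SpecIS2) (hIS4 : SpecIS4) (hONE : SpecONE)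
    (hM24 : SpecM24) : SpecNNB := by
  intro a ha D hDa hD
  have hfin : IsFiniteMeasure (nuA a) := hNUA.fin a ha
  have hsup := hNUA.sup a ha
  have hD0 := norm_nonneg D
  -- bounds
  have hX : ∀ᵐ v ∂(nuA a), |(inner ℝ D v : ℝ)| ≤ 17 / 50 := by
    filter_upwards [hsup] with v hv
    have h1 := abs_real_inner_le_norm D v
    have h2 : ‖D‖ * ‖v‖ ≤ 17 / 50 * 1 := mul_le_mul hD hv.2 (norm_nonneg v) (by norm_num)
    linarith
  have hX' : ∀ᵐ v ∂(nuA a), 0 ≤ max 0 (inner ℝ D v : ℝ) ∧ max 0 (inner ℝ D v : ℝ) ≤ 17 / 50 := by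
    filter_upwards [hX] with v hv
    exact ⟨le_max_left _ _, max_le (by norm_num) ((le_abs_self _).trans hv)⟩
  have hmX : Measurable fun v : E => (inner ℝ D v : ℝ) := by fun_prop
  -- integrability
  have hpow : ∀ (k : ℕ) (g : ℝ → ℝ), Measurable g → (∀ x : ℝ, |g x| ≤ |x|) →
      Integrable (fun v : E => g (inner ℝ D v : ℝ) ^ k) (nuA a) := by
    intro k g hg hgx
    refine Integrable.of_bound ((hg.comp hmX).pow_const k).aestronglyMeasurable (1 : ℝ) ?_
    filter_upwards [hX] with v hv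
    rw [Real.norm_eq_abs, abs_pow]
    exact pow_le_one₀ (abs_nonneg _) (((hgx _).trans hv).trans (by norm_num))
  have gp : ∀ x : ℝ, |max 0 x| ≤ |x| := fun x => by
    rw [abs_of_nonneg (le_max_left 0 x)]
    exact max_le (abs_nonneg x) (le_abs_self x)
  have gm : ∀ x : ℝ, |max 0 (-x)| ≤ |x| := fun x => by
    rw [abs_of_nonneg (le_max_left 0 (-x))]
    exact max_le (abs_nonneg x) (neg_le_abs x)
  have mp : Measurable fun x : ℝ => max 0 x := by fun_prop
  have mm : Measurable fun x : ℝ => max 0 (-x) := by fun_prop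
  have ip2 := hpow 2 (fun x => max 0 x) mp gp
  have im2 := hpow 2 (fun x => max 0 (-x)) mm gm
  have ip4 := hpow 4 (fun x => max 0 x) mp gp
  have im4 := hpow 4 (fun x => max 0 (-x)) mm gm
  have hn : ∀ k : ℕ, Integrable (fun v : E => ‖v‖ ^ k) (nuA a) := by
    intro k
    refine Integrable.of_bound (by fun_prop : Measurable fun v : E => ‖v‖ ^ k).aestronglyMeasurable
      (1 : ℝ) ?_
    filter_upwards [hsup] with v hv
    rw [Real.norm_eq_abs, abs_pow, abs_norm]
    exact pow_le_one₀ (norm_nonneg _) hv.2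
  have hJ : Integrable (fun v : E => JJ (max 0 (inner ℝ D v : ℝ))) (nuA a) := by
    refine Integrable.of_bound (JJ_meas.comp (mp.comp hmX)).aestronglyMeasurable (3 : ℝ) ?_
    filter_upwards [hX'] with v hv
    rw [Real.norm_eq_abs]
    exact JJ_bd hv.1 hv.2
  -- the moments
  have hI2 := hIS2 a ha (nuA a) (hn 2) (hNUA.refl a ha) D hDa
  have hI4 := hIS4 a ha (nuA a) (hn 4) (hNUA.refl a ha) D hDa
  have e2 : ∫ y, (‖y‖ ^ 2 - (inner ℝ a y : ℝ) ^ 2) ∂(nuA a) = ∫ y, ‖y‖ ^ 2 ∂(nuA a) := by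
    refine integral_congr_ae ?_
    filter_upwards [hsup] with v hv
    have h1 : (inner ℝ a v : ℝ) = 0 := by rw [real_inner_comm]; exact hv.1
    rw [h1]
    ring
  have e4 : ∫ y, (‖y‖ ^ 2 - (inner ℝ a y : ℝ) ^ 2) ^ 2 ∂(nuA a) = ∫ y, ‖y‖ ^ 4 ∂(nuA a) := by
    refine integral_congr_ae ?_
    filter_upwards [hsup] with v hv
    have h1 : (inner ℝ a v : ℝ) = 0 := by rw [real_inner_comm]; exact hv.1
    rw [h1]
    ring
  have b2 : ∫ y, ‖y‖ ^ 2 ∂(nuA a) ≤ 56 * (418 / 100000) := by
    rw [hNUA.i2 a ha]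
    refine (Finset.sum_le_card_nsmul _ _ _ fun e he => (hM24 a ha e he).1).trans ?_
    rw [hUEF.c56 a ha, nsmul_eq_mul]
    norm_num
  have b4 : ∫ y, ‖y‖ ^ 4 ∂(nuA a) ≤ 56 * (296 / 100000) := by
    rw [hNUA.i4 a ha]
    refine (Finset.sum_le_card_nsmul _ _ _ fun e he => (hM24 a ha e he).2).trans ?_
    rw [hUEF.c56 a ha, nsmul_eq_mul]
    norm_num
  rw [e2] at hI2
  rw [e4] at hI4
  have A2 : ∫ y, (inner ℝ D y : ℝ) ^ 2 ∂(nuA a) ≤ 8 * (418 / 100000) * ‖D‖ ^ 2 := by
    rw [hI2]
    have := mul_le_mul_of_nonneg_left b2 (by positivity : 0 ≤ ‖D‖ ^ 2 / 7)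
    linarith
  have A4 : ∫ y, (inner ℝ D y : ℝ) ^ 4 ∂(nuA a) ≤ 56 / 21 * (296 / 100000) * ‖D‖ ^ 4 := by
    rw [hI4]
    have := mul_le_mul_of_nonneg_left b4 (by positivity : 0 ≤ ‖D‖ ^ 4 / 21)
    linarith
  -- halves
  have f2 : ∫ v, max 0 (-(inner ℝ D v : ℝ)) ^ 2 ∂(nuA a) =
      ∫ v, max 0 (inner ℝ D v : ℝ) ^ 2 ∂(nuA a) :=
    flip (hNUA.neg a ha) D (fun x => max 0 x ^ 2) (by fun_prop)
  have f4 : ∫ v, max 0 (-(inner ℝ D v : ℝ)) ^ 4 ∂(nuA a) =
      ∫ v, max 0 (inner ℝ D v : ℝ) ^ 4 ∂(nuA a) :=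
    flip (hNUA.neg a ha) D (fun x => max 0 x ^ 4) (by fun_prop)
  have s2 : ∫ v, max 0 (inner ℝ D v : ℝ) ^ 2 ∂(nuA a) + ∫ v, max 0 (-(inner ℝ D v : ℝ)) ^ 2 ∂(nuA a)
      = ∫ v, (inner ℝ D v : ℝ) ^ 2 ∂(nuA a) := by
    rw [← integral_add ip2 im2]
    exact integral_congr_ae (Filter.Eventually.of_forall fun v => sq_split _)
  have s4 : ∫ v, max 0 (inner ℝ D v : ℝ) ^ 4 ∂(nuA a) + ∫ v, max 0 (-(inner ℝ D v : ℝ)) ^ 4 ∂(nuA a)
      = ∫ v, (inner ℝ D v : ℝ) ^ 4 ∂(nuA a) := by
    rw [← integral_add ip4 im4]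
    exact integral_congr_ae (Filter.Eventually.of_forall fun v => four_split _)
  -- the outer part
  have hJle : ∫ v, JJ (max 0 (inner ℝ D v : ℝ)) ∂(nuA a) ≤
      111 / 200 * ∫ v, max 0 (inner ℝ D v : ℝ) ^ 2 ∂(nuA a)
        + 76 / 5 * ∫ v, max 0 (inner ℝ D v : ℝ) ^ 4 ∂(nuA a) := by
    rw [← integral_const_mul, ← integral_const_mul,
      ← integral_add (ip2.const_mul _) (ip4.const_mul _)]
    refine integral_mono_ae hJ ((ip2.const_mul _).add (ip4.const_mul _)) ?_
    filter_upwards [hX'] with v hv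
    have h1 := hONE.c _ hv.1 hv.2
    show JJ (max 0 (inner ℝ D v : ℝ)) ≤ 111 / 200 * max 0 (inner ℝ D v : ℝ) ^ 2
      + 76 / 5 * max 0 (inner ℝ D v : ℝ) ^ 4
    nlinarith
  have hout : ∑ e ∈ nb a, ∫ y in Kc e,
      max 0 ((inner ℝ D y : ℝ) - ((inner ℝ e y : ℝ) - inner ℝ a y)) ∂muW ≤
      2 / Real.sqrt 3 * ∫ v, JJ (max 0 (inner ℝ D v : ℝ)) ∂(nuA a) := by
    have hJe : ∀ e ∈ nb a, Integrable (fun v : E => JJ (max 0 (inner ℝ D v : ℝ))) (nuP e a) := by
      have h1 := hJ
      unfold nuA at h1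
      exact integrable_finsetSum_measure.1 h1
    have h2 : ∫ v, JJ (max 0 (inner ℝ D v : ℝ)) ∂(nuA a) =
        ∑ e ∈ nb a, ∫ v, JJ (max 0 (inner ℝ D v : ℝ)) ∂(nuP e a) := by
      unfold nuA
      exact integral_finsetSum_measure hJe
    rw [h2, Finset.mul_sum]
    exact Finset.sum_le_sum fun e he => hOTF a ha e he D hDa hD
  have hin := hINF a ha D hDa hD
  have hor := hORT a ha D hDa hD
  have hsp := split hUEF ha (fun e => ∫ y in Kc e,
      max 0 ((inner ℝ D y : ℝ) - ((inner ℝ e y : ℝ) - inner ℝ a y)) ∂muW)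
    (fun e he h => far hUEF hKCO ha he h hD)
  -- numerics
  unfold NN
  rw [hsp]
  rw [f2] at s2 hin
  rw [f4] at s4
  exact num (pow_nonneg hD0 2) (pow_nonneg hD0 4) s2 s4 A2 A4 hJle hout hor hin

end Pool.Agent.Lib.MP_f1379f_gt.FV
end

section
/-!
# MP_f1379f_gt, block O, module ONE
-/
set_option autoImplicit false

namespace Pool.Agent.Lib.MP_f1379f_gt.FV

open MeasureTheory

namespace ONEM

/-- antiderivative -/
theorem hasDeriv (X g : ℝ) :
    HasDerivAt (fun g : ℝ => (1 + g) ^ 7 / 7 - (1 - X) * ((1 + g) ^ 8 / 8))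
      ((1 + g) ^ 6 * ((1 + g) * X - g)) g := by
  have h1 : HasDerivAt (fun g : ℝ => 1 + g) 1 g := (hasDerivAt_id g).const_add 1
  have h2 := (h1.pow 7).div_const 7
  have h3 := ((h1.pow 8).div_const 8).const_mul (1 - X)
  have h4 := h2.sub h3
  refine h4.congr_deriv ?_
  push_cast
  ring

theorem intA (X : ℝ) (h1 : X < 1) :
    ∫ g in (0 : ℝ)..(X / (1 - X)), (1 + g) ^ 6 * ((1 + g) * X - g) = JJ X := by
  have hne : 1 - X ≠ 0 := by linarith
  rw [intervalIntegral.integral_eq_sub_of_hasDerivAt (fun g _ => hasDeriv X g)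
    (by apply Continuous.intervalIntegrable; fun_prop)]
  have h2 : 1 + X / (1 - X) = (1 - X)⁻¹ := by
    field_simp
    ring
  rw [h2]
  unfold JJ
  field_simp
  ring

theorem partA (X : ℝ) (h0 : 0 ≤ X) (h1 : X < 1) :
    ∫⁻ g in Set.Ioi (0 : ℝ), ENNReal.ofReal ((1 + g) ^ 6 * max 0 ((1 + g) * X - g)) =
      ENNReal.ofReal (JJ X) := by
  have hpos : 0 < 1 - X := by linarith
  have hc : 0 ≤ X / (1 - X) := by positivity
  rw [← Set.Ioc_union_Ioi_eq_Ioi hc, lintegral_union measurableSet_Ioi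
    (Set.disjoint_left.mpr fun g hg hg' => not_lt_of_ge hg.2 hg')]
  have hz : ∫⁻ g in Set.Ioi (X / (1 - X)),
      ENNReal.ofReal ((1 + g) ^ 6 * max 0 ((1 + g) * X - g)) = 0 := by
    rw [setLIntegral_congr_fun measurableSet_Ioi (g := fun _ => 0)]
    · simp
    · intro g hg
      have hg' : X / (1 - X) < g := hg
      rw [div_lt_iff₀ hpos] at hg'
      have : (1 + g) * X - g ≤ 0 := by nlinarith
      simp [max_eq_left this]
  rw [hz, add_zero, ← intA X h1, intervalIntegral.integral_of_le hc]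
  rw [ofReal_integral_eq_lintegral_ofReal]
  · apply setLIntegral_congr_fun measurableSet_Ioc
    intro g hg
    have hg' : g ≤ X / (1 - X) := hg.2
    rw [le_div_iff₀ hpos] at hg'
    have : 0 ≤ (1 + g) * X - g := by nlinarith
    simp [max_eq_right this]
  · apply Continuous.integrableOn_Ioc
    fun_prop
  · rw [Filter.EventuallyLE, ae_restrict_iff' measurableSet_Ioc]
    filter_upwards with g hg
    have hg' : g ≤ X / (1 - X) := hg.2
    rw [le_div_iff₀ hpos] at hg'
    have h2 : 0 ≤ (1 + g) * X - g := by nlinarith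
    have h3 : 0 < g := hg.1
    simp only [Pi.zero_apply]
    positivity

theorem partB (X : ℝ) (h0 : 0 ≤ X) :
    ∫⁻ g in Set.Ioo (0 : ℝ) (1 / 2), ENNReal.ofReal ((1 - 2 * g) ^ 6 * max 0 ((1 - 2 * g) * X - g)) ≤
      ENNReal.ofReal (X ^ 2 / 2) := by
  calc ∫⁻ g in Set.Ioo (0 : ℝ) (1 / 2),
        ENNReal.ofReal ((1 - 2 * g) ^ 6 * max 0 ((1 - 2 * g) * X - g))
      ≤ ∫⁻ g in Set.Ioo (0 : ℝ) (1 / 2), ENNReal.ofReal (max 0 (X - g)) := by
        apply setLIntegral_mono' measurableSet_Ioo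
        intro g hg
        apply ENNReal.ofReal_le_ofReal
        have h1 : 0 ≤ 1 - 2 * g := by linarith [hg.2]
        have h2 : 1 - 2 * g ≤ 1 := by linarith [hg.1]
        have h3 : (1 - 2 * g) ^ 6 ≤ 1 := pow_le_one₀ h1 h2
        have h4 : max 0 ((1 - 2 * g) * X - g) ≤ max 0 (X - g) := by
          apply max_le_max le_rfl
          nlinarith [hg.1]
        calc (1 - 2 * g) ^ 6 * max 0 ((1 - 2 * g) * X - g) ≤ 1 * max 0 ((1 - 2 * g) * X - g) :=
              mul_le_mul_of_nonneg_right h3 (le_max_left _ _)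
          _ ≤ _ := by rw [one_mul]; exact h4
    _ ≤ ∫⁻ g in Set.Ioi (0 : ℝ), ENNReal.ofReal (max 0 (X - g)) :=
        lintegral_mono_set (fun g hg => hg.1)
    _ = ENNReal.ofReal (X ^ 2 / 2) := by
        rw [← Set.Ioc_union_Ioi_eq_Ioi h0, lintegral_union measurableSet_Ioi
          (Set.disjoint_left.mpr fun g hg hg' => not_lt_of_ge hg.2 hg')]
        have hz : ∫⁻ g in Set.Ioi X, ENNReal.ofReal (max 0 (X - g)) = 0 := by
          rw [setLIntegral_congr_fun measurableSet_Ioi (g := fun _ => 0)]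
          · simp
          · intro g hg
            have : X - g ≤ 0 := by linarith [Set.mem_Ioi.mp hg]
            simp [max_eq_left this]
        have hI : ∫ g in (0 : ℝ)..X, (X - g) = X ^ 2 / 2 := by
          rw [intervalIntegral.integral_sub (by simp) (by simp)]
          simp
          ring
        rw [hz, add_zero, ← hI, intervalIntegral.integral_of_le h0,
          ofReal_integral_eq_lintegral_ofReal]
        · apply setLIntegral_congr_fun measurableSet_Ioc
          intro g hg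
          have : 0 ≤ X - g := by linarith [hg.2]
          simp [max_eq_right this]
        · apply Continuous.integrableOn_Ioc
          fun_prop
        · rw [Filter.EventuallyLE, ae_restrict_iff' measurableSet_Ioc]
          filter_upwards with g hg
          have : 0 ≤ X - g := by linarith [hg.2]
          simpa using this

noncomputable def PP (x : ℝ) : ℝ := (77 / 25 : ℝ) * x ^ 0 + (-2639 / 25 : ℝ) * x ^ 1 + (32347 / 25 : ℝ) * x ^ 2 + (-34111 / 5 : ℝ) * x ^ 3 + (18823 / 1 : ℝ) * x ^ 4 + (-759917 / 25 : ℝ) * x ^ 5 + (750064 / 25 : ℝ) * x ^ 6 + (-447657 / 25 : ℝ) * x ^ 7 + (29792 / 5 : ℝ) * x ^ 8 + (-4256 / 5 : ℝ) * x ^ 9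

theorem pp0 (x : ℝ) (h0 : 0 ≤ x) (h1 : x ≤ 17/200) : 0 ≤ PP x := by
  have hs : 0 ≤ x - 0 := by linarith
  have ht : 0 ≤ 17/200 - x := by linarith
  have key : PP x = (1576960000000000000000 / 118587876497 : ℝ) * ((x - 0) ^ 0 * (17/200 - x) ^ 9)
      + (9598668800000000000000 / 118587876497 : ℝ) * ((x - 0) ^ 1 * (17/200 - x) ^ 8)
      + (24805111296000000000000 / 118587876497 : ℝ) * ((x - 0) ^ 2 * (17/200 - x) ^ 7)
      + (35192574681600000000000 / 118587876497 : ℝ) * ((x - 0) ^ 3 * (17/200 - x) ^ 6)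
      + (29579680724160000000000 / 118587876497 : ℝ) * ((x - 0) ^ 4 * (17/200 - x) ^ 5)
      + (14909768454600384000000 / 118587876497 : ℝ) * ((x - 0) ^ 5 * (17/200 - x) ^ 4)
      + (4581471159698949120000 / 118587876497 : ℝ) * ((x - 0) ^ 6 * (17/200 - x) ^ 3)
      + (1108866679527600702400 / 118587876497 : ℝ) * ((x - 0) ^ 7 * (17/200 - x) ^ 2)
      + (330377808030517335680 / 118587876497 : ℝ) * ((x - 0) ^ 8 * (17/200 - x) ^ 1)
      + (318611356097406395168 / 592939382485 : ℝ) * ((x - 0) ^ 9 * (17/200 - x) ^ 0) := by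
    unfold PP
    ring
  rw [key]
  positivity

theorem pp1 (x : ℝ) (h0 : 17/200 ≤ x) (h1 : x ≤ 17/100) : 0 ≤ PP x := by
  have hs : 0 ≤ x - 17/200 := by linarith
  have ht : 0 ≤ 17/100 - x := by linarith
  have key : PP x = (318611356097406395168 / 592939382485 : ℝ) * ((x - 17/200) ^ 0 * (17/100 - x) ^ 9)
      + (4083115369600728434624 / 592939382485 : ℝ) * ((x - 17/200) ^ 1 * (17/100 - x) ^ 8)
      + (24994144033223137561792 / 592939382485 : ℝ) * ((x - 17/200) ^ 2 * (17/100 - x) ^ 7)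
      + (83808570568804693140096 / 592939382485 : ℝ) * ((x - 17/200) ^ 3 * (17/100 - x) ^ 6)
      + (167658781996669728543488 / 592939382485 : ℝ) * ((x - 17/200) ^ 4 * (17/100 - x) ^ 5)
      + (210087285352020952869376 / 592939382485 : ℝ) * ((x - 17/200) ^ 5 * (17/100 - x) ^ 4)
      + (167048600706020923450368 / 592939382485 : ℝ) * ((x - 17/200) ^ 6 * (17/100 - x) ^ 3)
      + (82099999426366357305344 / 592939382485 : ℝ) * ((x - 17/200) ^ 7 * (17/100 - x) ^ 2)
      + (22799301113563593961472 / 592939382485 : ℝ) * ((x - 17/200) ^ 8 * (17/100 - x) ^ 1)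
      + (2740467984072055791616 / 592939382485 : ℝ) * ((x - 17/200) ^ 9 * (17/100 - x) ^ 0) := by
    unfold PP
    ring
  rw [key]
  positivity

theorem pp2 (x : ℝ) (h0 : 17/100 ≤ x) (h1 : x ≤ 17/50) : 0 ≤ PP x := by
  have hs : 0 ≤ x - 17/100 := by linarith
  have ht : 0 ≤ 17/50 - x := by linarith
  have key : PP x = (5352476531390733968 / 592939382485 : ℝ) * ((x - 17/100) ^ 0 * (17/50 - x) ^ 9)
      + (55457096372692028224 / 592939382485 : ℝ) * ((x - 17/100) ^ 1 * (17/50 - x) ^ 8)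
      + (238174162292498038192 / 592939382485 : ℝ) * ((x - 17/100) ^ 2 * (17/50 - x) ^ 7)
      + (555751509386675400096 / 592939382485 : ℝ) * ((x - 17/100) ^ 3 * (17/50 - x) ^ 6)
      + (777592399065198557888 / 592939382485 : ℝ) * ((x - 17/100) ^ 4 * (17/50 - x) ^ 5)
      + (673731715353280014976 / 592939382485 : ℝ) * ((x - 17/100) ^ 5 * (17/50 - x) ^ 4)
      + (355515522394989197568 / 592939382485 : ℝ) * ((x - 17/100) ^ 6 * (17/50 - x) ^ 3)
      + (105136195648072646144 / 592939382485 : ℝ) * ((x - 17/100) ^ 7 * (17/50 - x) ^ 2)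
      + (13481332456437609472 / 592939382485 : ℝ) * ((x - 17/100) ^ 8 * (17/50 - x) ^ 1)
      + (38871269791676416 / 592939382485 : ℝ) * ((x - 17/100) ^ 9 * (17/50 - x) ^ 0) := by
    unfold PP
    ring
  rw [key]
  positivity

theorem partC (x : ℝ) (h0 : 0 ≤ x) (h1 : x ≤ 17 / 50) :
    2 * JJ x ≤ x ^ 2 * (111 / 100 + 152 / 5 * x ^ 2) := by
  have hP : 0 ≤ PP x := by
    rcases le_total x (17 / 200) with h | h
    · exact pp0 x (by linarith) h
    · rcases le_total x (17 / 100) with h' | h'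
      · exact pp1 x h h'
      · exact pp2 x h' h1
  have hu : 0 < 1 - x := by linarith
  have hu7 : 0 < (1 - x) ^ 7 := by positivity
  have hkey : 28 * (x ^ 2 * (111 / 100 + 152 / 5 * x ^ 2)) * (1 - x) ^ 7
      - (1 - (1 - x) ^ 7 * (1 + 7 * x)) = x ^ 2 * PP x := by
    unfold PP
    ring
  have hJ : 2 * JJ x = (1 - (1 - x) ^ 7 * (1 + 7 * x)) / (28 * (1 - x) ^ 7) := by
    unfold JJ
    rw [inv_pow]
    field_simp
    ring
  rw [hJ, div_le_iff₀ (by positivity)]
  nlinarith [mul_nonneg (sq_nonneg x) hP]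

end ONEM

open ONEM in
theorem specONE : SpecONE where
  a := partA
  b := partB
  c := partC

end Pool.Agent.Lib.MP_f1379f_gt.FV
end

section
/-! # Module OUT: the theorem of block O. -/
set_option autoImplicit false

namespace Pool.Agent.Lib.MP_f1379f_gt.FV

open MeasureTheory

namespace OUTM

/-- The weights are at most one. -/
theorem th_le_one (hUEF : SpecUEF) (u : E → E) (th : E → ℝ) (hD : DSP u th) (a : E)
    (ha : a ∈ UE) : th a ≤ 1 := by
  have hna : -a ∈ UE := hUEF.neg a ha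
  have hne : a ≠ -a := by
    intro h
    have h1 : ‖a‖ = 1 := hUEF.nrm a ha
    have h2 : a + a = 0 := by
      have h3 : a + a = a + -a := congrArg (fun z => a + z) h
      rw [h3, add_neg_cancel]
    have h4 : (2 : ℝ) • a = 0 := by rw [two_smul]; exact h2
    have h5 : a = 0 := by
      rcases smul_eq_zero.mp h4 with h | h
      · norm_num at h
      · exact h
    rw [h5, norm_zero] at h1
    exact zero_ne_one h1
  have h1 := hD.sum a ha (-a) hna hne
  have h2 := hD.pos (-a) hna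
  linarith

/-- The tangential part is orthogonal to `a`. -/
theorem del_orth (u : E → E) (a : E) (ha : ‖a‖ = 1) : (inner ℝ (del u a) a : ℝ) = 0 := by
  unfold del lam
  rw [inner_add_left, real_inner_smul_left, real_inner_self_eq_norm_sq, ha]
  ring

/-- The tangential part is not longer than the displacement. -/
theorem del_norm (u : E → E) (a : E) (ha : ‖a‖ = 1) : ‖del u a‖ ≤ ‖u a - a‖ := by
  have h0 : (inner ℝ (del u a) a : ℝ) = 0 := del_orth u a ha
  have h1 : u a - a = del u a - lam u a • a := by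
    unfold del
    abel
  have h2 : ‖u a - a‖ ^ 2 = ‖del u a‖ ^ 2 + (lam u a) ^ 2 := by
    rw [h1, norm_sub_sq_real, real_inner_smul_right, h0, norm_smul, ha, Real.norm_eq_abs,
      mul_one, sq_abs]
    ring
  have h3 : ‖del u a‖ ^ 2 ≤ ‖u a - a‖ ^ 2 := by
    rw [h2]
    nlinarith [sq_nonneg (lam u a)]
  exact (sq_le_sq₀ (norm_nonneg _) (norm_nonneg _)).mp h3

/-- One summand. -/
theorem term (hNNB : SpecNNB) (hUEF : SpecUEF) (u : E → E) (th : E → ℝ) (hD : DSP u th) (a : E)
    (ha : a ∈ UE) :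
    th a * NN a ((th a)⁻¹ • del u a) ≤
      204 / 10000 * ‖u a - a‖ ^ 2 / th a + 106 / 1000 * ‖u a - a‖ ^ 4 / th a ^ 3 := by
  have hn : ‖a‖ = 1 := hUEF.nrm a ha
  have hp : 0 < th a := hD.pos a ha
  have h0 : (inner ℝ ((th a)⁻¹ • del u a) a : ℝ) = 0 := by
    rw [real_inner_smul_left, del_orth u a hn, mul_zero]
  have hdn : ‖del u a‖ ≤ ‖u a - a‖ := del_norm u a hn
  have hnD : ‖(th a)⁻¹ • del u a‖ = ‖del u a‖ / th a := by
    rw [norm_smul, Real.norm_eq_abs, abs_of_pos (inv_pos.mpr hp)]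
    field_simp
  have hle : ‖(th a)⁻¹ • del u a‖ ≤ 17 / 50 := by
    rw [hnD, div_le_iff₀ hp]
    exact le_trans hdn (hD.small a ha)
  have h1 := hNNB a ha _ h0 hle
  have h2 : th a * NN a ((th a)⁻¹ • del u a) ≤
      th a * (204 / 10000 * ‖(th a)⁻¹ • del u a‖ ^ 2
        + 106 / 1000 * ‖(th a)⁻¹ • del u a‖ ^ 4) :=
    mul_le_mul_of_nonneg_left h1 hp.le
  refine le_trans h2 ?_
  rw [hnD]
  have h3 : th a * (204 / 10000 * (‖del u a‖ / th a) ^ 2
        + 106 / 1000 * (‖del u a‖ / th a) ^ 4) =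
      204 / 10000 * ‖del u a‖ ^ 2 / th a + 106 / 1000 * ‖del u a‖ ^ 4 / th a ^ 3 := by
    field_simp
  rw [h3]
  have h4 : ‖del u a‖ ^ 2 ≤ ‖u a - a‖ ^ 2 :=
    pow_le_pow_left₀ (norm_nonneg _) hdn 2
  have h5 : ‖del u a‖ ^ 4 ≤ ‖u a - a‖ ^ 4 :=
    pow_le_pow_left₀ (norm_nonneg _) hdn 4
  have h6 : 204 / 10000 * ‖del u a‖ ^ 2 / th a ≤ 204 / 10000 * ‖u a - a‖ ^ 2 / th a := by
    apply div_le_div_of_nonneg_right _ hp.le
    linarith
  have h7 : 106 / 1000 * ‖del u a‖ ^ 4 / th a ^ 3 ≤ 106 / 1000 * ‖u a - a‖ ^ 4 / th a ^ 3 := by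
    apply div_le_div_of_nonneg_right _ (pow_pos hp 3).le
    linarith
  linarith

end OUTM

/-- OUT. -/
theorem specOUT (hUEF : SpecUEF) (hTLC : SpecTLC) (hRD1 : SpecRD1) (hNNB : SpecNNB) :
    SpecOUT := by
  intro u th hD
  have hth : ∀ a ∈ UE, th a ≤ 1 := fun a ha => OUTM.th_le_one hUEF u th hD a ha
  have h1 := hTLC.main u (fun e he => by
    have h1 := hD.small e he
    have h2 := hth e he
    linarith)
  have h2 := hRD1 u th hD
  have h3 : ∑ a ∈ UE, th a * NN a ((th a)⁻¹ • del u a) ≤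
      ∑ a ∈ UE, (204 / 10000 * ‖u a - a‖ ^ 2 / th a + 106 / 1000 * ‖u a - a‖ ^ 4 / th a ^ 3) :=
    Finset.sum_le_sum fun a ha => OUTM.term hNNB hUEF u th hD a ha
  linarith

end Pool.Agent.Lib.MP_f1379f_gt.FV
end

section
/-!
# PTW: pointwise splitting
-/
set_option autoImplicit false

namespace Pool.Agent.Lib.MP_f1379f_gt.FV

open MeasureTheory

namespace PTWM

lemma mem_nb {a e : E} : e ∈ nb a ↔ e ∈ UE ∧ (inner ℝ e a : ℝ) = 1 / 2 := by
  unfold nb
  rw [Finset.mem_filter]

lemma mem_ob {a e : E} : e ∈ ob a ↔ e ∈ UE ∧ (inner ℝ e a : ℝ) = 0 := by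
  unfold ob
  rw [Finset.mem_filter]

/-- The second gap is at most every gap. -/
lemma gap (hU : SpecUEF) (hK : SpecKCO) {e : E} (he : e ∈ UE) {y : E} (hy : y ∈ Kc e) {a : E}
    (ha : a ∈ UE) (hae : a ≠ e) : g2 e y ≤ (inner ℝ e y : ℝ) - inner ℝ a y := by
  have n1 : (inner ℝ e e : ℝ) = 1 := by
    rw [real_inner_self_eq_norm_sq, hU.nrm e he]; norm_num
  have hlow := (hK.low e he y hy).1
  -- `g2 ≤ ⟨e, y⟩`
  have hge : g2 e y ≤ (inner ℝ e y : ℝ) := by
    have hne : (nb e).Nonempty := by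
      rw [← Finset.card_pos, hU.c56 e he]; norm_num
    obtain ⟨b, hb⟩ := hne
    have hb' := mem_nb.1 hb
    have hs : (inner ℝ e b : ℝ) = 1 / 2 := by rw [real_inner_comm]; exact hb'.2
    have hm : e - b ∈ UE := hU.sub e he b hb'.1 hs
    have h1 := hK.g2le e he b hb y
    have h2 := hy (e - b) hm
    rw [inner_sub_left] at h2
    linarith
  have hya := hy a ha
  rcases hU.ip e he a ha with h | h | h | h | h
  · exact absurd (hU.one e he a ha h) (Ne.symm hae)
  · exact hK.g2le e he a (mem_nb.2 ⟨ha, by rw [real_inner_comm]; exact h⟩) y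
  · -- orthogonal
    have hao : a ∈ ob e := mem_ob.2 ⟨ha, by rw [real_inner_comm]; exact h⟩
    have hc := hU.c12 e he a hao
    have hne : ({b : E | b ∈ UE ∧ (inner ℝ b a : ℝ) = 1 / 2 ∧
        (inner ℝ b e : ℝ) = 1 / 2}).Nonempty := by
      rw [← Set.ncard_pos (Set.finite_of_ncard_ne_zero (by rw [hc]; norm_num)), hc]
      norm_num
    obtain ⟨b, hb, hba, hbe⟩ := hne
    have hm : e - b ∈ UE := hU.sub e he b hb (by rw [real_inner_comm]; exact hbe)
    have hm2 : a + (e - b) ∈ UE := by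
      refine hU.add a ha (e - b) hm ?_
      have e1 : (inner ℝ a e : ℝ) = 0 := by rw [real_inner_comm]; exact h
      have e2 : (inner ℝ a b : ℝ) = 1 / 2 := by rw [real_inner_comm]; exact hba
      rw [inner_sub_right, e1, e2]
      norm_num
    have hm3 : a + (e - b) ∈ nb e := by
      refine mem_nb.2 ⟨hm2, ?_⟩
      rw [inner_add_left, inner_sub_left, n1, hbe, real_inner_comm, h]
      norm_num
    have h1 := hK.g2le e he b (mem_nb.2 ⟨hb, hbe⟩) y
    have h2 := hy (a + (e - b)) hm2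
    rw [inner_add_left, inner_sub_left] at h2
    have h3 := hK.g2le e he _ hm3 y
    rw [inner_add_left, inner_sub_left] at h3
    have h4 := hy b hb
    linarith
  · have hm := hU.add e he a ha h
    have h2 := hy (e + a) hm
    rw [inner_add_left] at h2
    linarith
  · have h1 : e = -a := by
      refine hU.one e he (-a) (hU.neg a ha) ?_
      rw [inner_neg_right, h]; norm_num
    have h2 : (inner ℝ e y : ℝ) = -(inner ℝ a y : ℝ) := by
      rw [h1, inner_neg_left]
    linarith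

end PTWM

open PTWM in
theorem specPTW (hU : SpecUEF) (hK : SpecKCO) : SpecPTW := by
  intro u th hD e he y hy
  rw [hK.mxe e he y hy]
  have hthe := hD.pos e he
  obtain ⟨hlow, hlow2⟩ := hK.low e he y hy
  -- facts on one vector
  have hlam : ∀ a ∈ UE, 0 ≤ lam u a := by
    intro a ha
    have n1 : (inner ℝ a a : ℝ) = 1 := by
      rw [real_inner_self_eq_norm_sq, hU.nrm a ha]; norm_num
    have h1 := real_inner_le_norm (u a) a
    rw [hU.nrm a ha, mul_one] at h1
    have h2 := hD.le_one a ha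
    unfold lam
    rw [inner_sub_left, n1]
    linarith
  have hx : ∀ a : E, (inner ℝ (u a) y : ℝ) =
      inner ℝ a y - lam u a * inner ℝ a y + inner ℝ (del u a) y := by
    intro a
    have h1 : u a = a + (del u a - lam u a • a) := by
      unfold del; abel
    have h2 : (inner ℝ (u a) y : ℝ) = inner ℝ (a + (del u a - lam u a • a)) y := by rw [← h1]
    rw [h2, inner_add_left, inner_sub_left, real_inner_smul_left]
    ring
  -- the terms
  have hterm : ∀ a ∈ UE.erase e, 0 ≤ th a *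
      max 0 ((inner ℝ ((th a)⁻¹ • del u a) y : ℝ) - ((inner ℝ e y : ℝ) - inner ℝ a y)) := by
    intro a ha
    exact mul_nonneg (hD.pos a (Finset.mem_of_mem_erase ha)).le (le_max_left _ _)
  have hS0 : 0 ≤ ∑ a ∈ UE.erase e, th a *
      max 0 ((inner ℝ ((th a)⁻¹ • del u a) y : ℝ) - ((inner ℝ e y : ℝ) - inner ℝ a y)) :=
    Finset.sum_nonneg hterm
  have he0 : 0 ≤ th e * max 0 (-(inner ℝ ((th e)⁻¹ • del u e) y : ℝ) - g2 e y) :=
    mul_nonneg hthe.le (le_max_left _ _)
  have hB : -(inner ℝ (del u e) y : ℝ) - th e * g2 e y ≤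
      th e * max 0 (-(inner ℝ ((th e)⁻¹ • del u e) y : ℝ) - g2 e y) := by
    have h1 := mul_le_mul_of_nonneg_left
      (le_max_right 0 (-(inner ℝ ((th e)⁻¹ • del u e) y : ℝ) - g2 e y)) hthe.le
    have h2 : th e * (-(inner ℝ ((th e)⁻¹ • del u e) y : ℝ) - g2 e y) =
        -(inner ℝ (del u e) y : ℝ) - th e * g2 e y := by
      rw [real_inner_smul_left]
      field_simp
    rw [h2] at h1
    exact h1
  rw [sub_le_iff_le_add]
  refine hK.ge u y _ fun a ha => ?_
  rw [hx a]
  by_cases hae : a = e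
  · subst hae
    have := mul_nonneg (hlam a ha) hlow
    linarith
  · have hmem : a ∈ UE.erase e := Finset.mem_erase.2 ⟨hae, ha⟩
    have hsum := Finset.single_le_sum hterm hmem
    have hg := gap hU hK he hy ha hae
    have hg0 := hK.g2ge e he y hy
    have hga := hy a ha
    have htha := hD.pos a ha
    have hth := hD.sum a ha e he hae
    -- (A)
    have hA : -(lam u a * inner ℝ a y) + (inner ℝ (del u a) y : ℝ) -
        th a * ((inner ℝ e y : ℝ) - inner ℝ a y) ≤
        th a * max 0 ((inner ℝ ((th a)⁻¹ • del u a) y : ℝ) -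
          ((inner ℝ e y : ℝ) - inner ℝ a y)) := by
      rcases le_or_gt 0 (inner ℝ a y : ℝ) with hp | hn
      · have h0 := mul_nonneg (hlam a ha) hp
        have h1 := mul_le_mul_of_nonneg_left
          (le_max_right 0 ((inner ℝ ((th a)⁻¹ • del u a) y : ℝ) -
            ((inner ℝ e y : ℝ) - inner ℝ a y))) htha.le
        have h2 : th a * ((inner ℝ ((th a)⁻¹ • del u a) y : ℝ) -
            ((inner ℝ e y : ℝ) - inner ℝ a y)) =
            (inner ℝ (del u a) y : ℝ) - th a * ((inner ℝ e y : ℝ) - inner ℝ a y) := by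
          rw [real_inner_smul_left]
          field_simp
        rw [h2] at h1
        linarith
      · refine le_trans ?_ (hterm a hmem)
        have h1 : (inner ℝ (u a - a) y : ℝ) = -(lam u a * inner ℝ a y) + inner ℝ (del u a) y := by
          rw [inner_sub_left, hx a]; ring
        have h2 := real_inner_le_norm (u a - a) y
        have h3 := mul_le_mul_of_nonneg_right (hD.small a ha) (norm_nonneg y)
        have h4 : 17 / 50 * ‖y‖ ≤ (inner ℝ e y : ℝ) := by
          refine le_of_sq_le_sq ?_ hlow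
          nlinarith [sq_nonneg (inner ℝ e y : ℝ)]
        have h5 : th a * (17 / 50 * ‖y‖) ≤ th a * ((inner ℝ e y : ℝ) - inner ℝ a y) :=
          mul_le_mul_of_nonneg_left (by linarith) htha.le
        linarith
    have hC : (th a + th e) * ((inner ℝ e y : ℝ) - inner ℝ a y) ≤
        1 * ((inner ℝ e y : ℝ) - inner ℝ a y) :=
      mul_le_mul_of_nonneg_right hth (by linarith)
    have hC2 : th e * g2 e y ≤ th e * ((inner ℝ e y : ℝ) - inner ℝ a y) :=
      mul_le_mul_of_nonneg_left hg hthe.le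
    linarith

end Pool.Agent.Lib.MP_f1379f_gt.FV
end

section
/-!
# RD1: reduction to one-vector integrals
-/
set_option autoImplicit false

namespace Pool.Agent.Lib.MP_f1379f_gt.FV

open MeasureTheory

namespace RD1M

theorem split (s : Finset E) (K : E → Set E) (μ : Measure E) (hK : ∀ e, MeasurableSet (K e))
    (hd : ∀ e ∈ s, ∀ f ∈ s, e ≠ f → μ (K e ∩ K f) = 0) (hcov : ∀ y, ∃ e ∈ s, y ∈ K e)
    (f : E → ℝ) (hf : Integrable f μ) :
    ∫ y, f y ∂μ = ∑ e ∈ s, ∫ y in K e, f y ∂μ := by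
  have hU : (⋃ e : s, K e) = Set.univ := by
    apply Set.eq_univ_of_forall
    intro y
    obtain ⟨e, he, hy⟩ := hcov y
    exact Set.mem_iUnion.2 ⟨⟨e, he⟩, hy⟩
  have h := integral_iUnion_ae (μ := μ) (s := fun e : s => K e) (f := f)
    (fun e => (hK e).nullMeasurableSet)
    (fun e f hef => hd e e.2 f f.2 (fun h => hef (Subtype.ext h))) (by
      rw [hU]; exact hf.integrableOn)
  rw [hU, setIntegral_univ, tsum_fintype] at h
  rw [h]
  exact Finset.sum_coe_sort s (fun e => ∫ y in K e, f y ∂μ)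

theorem exch [DecidableEq E] (s : Finset E) (F : E → E → ℝ) :
    ∑ e ∈ s, ∑ a ∈ s.erase e, F a e = ∑ a ∈ s, ∑ e ∈ s.erase a, F a e := by
  apply Finset.sum_comm'
  intro x y
  simp only [Finset.mem_erase]
  constructor
  · rintro ⟨h1, h2, h3⟩
    exact ⟨⟨fun h => h2 h.symm, h1⟩, h3⟩
  · rintro ⟨⟨h1, h2⟩, h3⟩
    exact ⟨h2, fun h => h1 h.symm, h3⟩

theorem arith [DecidableEq E] (s : Finset E) (th : E → ℝ) (A : E → E → ℝ) (B : E → ℝ) :
    ∑ e ∈ s, (∑ a ∈ s.erase e, th a * A a e + th e * B e) =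
      ∑ a ∈ s, th a * (∑ e ∈ s.erase a, A a e + B a) := by
  rw [Finset.sum_add_distrib, exch s (fun a e => th a * A a e), ← Finset.sum_add_distrib]
  apply Finset.sum_congr rfl
  intro a _
  rw [mul_add, Finset.mul_sum]

theorem int3 (μ : Measure E) {f g h : E → ℝ} (hf : Integrable f μ) (hg : Integrable g μ)
    (hh : Integrable h μ) :
    ∫ y, (f y + g y + h y) ∂μ = ∫ y, f y ∂μ + ∫ y, g y ∂μ + ∫ y, h y ∂μ := by
  have h1 : Integrable (fun y => f y + g y) μ := hf.add hg
  rw [integral_add h1 hh, integral_add hf hg]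

theorem int4 (μ : Measure E) (s : Finset E) (th : E → ℝ) {f h : E → ℝ} {g : E → E → ℝ}
    (hf : Integrable f μ) (hg : ∀ a ∈ s, Integrable (fun y => th a * g a y) μ)
    (hh : Integrable h μ) (c : ℝ) (hf0 : ∫ y, f y ∂μ = 0) :
    ∫ y, (f y + ∑ a ∈ s, th a * g a y + c * h y) ∂μ =
      ∑ a ∈ s, th a * ∫ y, g a y ∂μ + c * ∫ y, h y ∂μ := by
  rw [int3 μ hf (integrable_finsetSum _ hg) (hh.const_mul c), integral_finsetSum _ hg, hf0,
    zero_add, integral_const_mul, Finset.sum_congr rfl fun a _ => integral_const_mul (th a) (g a)]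

theorem ac : muW ≪ (volume : Measure E) :=
  (withDensity_absolutelyContinuous _ _).trans
    (Measure.absolutelyContinuous_of_le Measure.restrict_le_self)

theorem intg (hTLC : SpecTLC) (b : E) : Integrable (fun y : E => (inner ℝ b y : ℝ)) muW := by
  have h := (hTLC.int 1).const_mul ‖b‖
  refine h.mono' (by fun_prop) (Filter.Eventually.of_forall fun y => ?_)
  rw [pow_one]
  exact norm_inner_le_norm b y

theorem pos0 {f : E → ℝ} (hf : Integrable f muW) : Integrable (fun y => max 0 (f y)) muW := by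
  have h := hf.pos_part
  have he : (fun y => max 0 (f y)) = fun y => max (f y) 0 := by
    funext y
    exact max_comm _ _
  rw [he]
  exact h

theorem intmx (hUEF : SpecUEF) (hKCO : SpecKCO) (hTLC : SpecTLC) {u : E → E}
    (hu : ∀ a ∈ UE, ‖u a‖ ≤ 1) : Integrable (fun y : E => mx u y) muW := by
  refine (hTLC.int 1).mono' (hKCO.mxc u).aestronglyMeasurable (Filter.Eventually.of_forall fun y => ?_)
  have hne : UE.Nonempty := by
    rw [← Finset.card_pos, hUEF.c240]
    norm_num
  obtain ⟨e, he⟩ := hne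
  rw [pow_one, Real.norm_eq_abs, abs_le]
  have hb : ∀ a ∈ UE, |(inner ℝ (u a) y : ℝ)| ≤ ‖y‖ := by
    intro a ha
    have h1 := abs_real_inner_le_norm (u a) y
    have h2 : ‖u a‖ * ‖y‖ ≤ 1 * ‖y‖ := mul_le_mul_of_nonneg_right (hu a ha) (norm_nonneg y)
    linarith
  constructor
  · have h1 := hKCO.le u e he y
    have h2 := (abs_le.1 (hb e he)).1
    linarith
  · exact hKCO.ge u y ‖y‖ fun a ha => (abs_le.1 (hb a ha)).2

theorem intg2 (hUEF : SpecUEF) (hKCO : SpecKCO) (hTLC : SpecTLC) {a : E} (ha : a ∈ UE) :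
    Integrable (fun y : E => g2 a y) muW := by
  refine ((hTLC.int 1).const_mul 2).mono' (hKCO.g2c a).aestronglyMeasurable
    (Filter.Eventually.of_forall fun y => ?_)
  obtain ⟨e, he, h⟩ := hKCO.g2at a ha y
  have heU : e ∈ UE := by
    have : e ∈ UE ∧ (inner ℝ e a : ℝ) = 1 / 2 := by simpa [nb] using he
    exact this.1
  rw [pow_one, h, Real.norm_eq_abs]
  have h1 := abs_real_inner_le_norm a y
  have h2 := abs_real_inner_le_norm e y
  rw [hUEF.nrm a ha, one_mul] at h1
  rw [hUEF.nrm e heU, one_mul] at h2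
  rw [abs_le] at *
  constructor <;> linarith [h1.1, h1.2, h2.1, h2.2]

theorem del_perp {u : E → E} {e : E} (he : ‖e‖ = 1) : (inner ℝ (del u e) e : ℝ) = 0 := by
  rw [del, inner_add_left, real_inner_smul_left, lam, real_inner_self_eq_norm_sq, he]
  ring

end RD1M

open RD1M in
theorem specRD1 (hUEF : SpecUEF) (hKCO : SpecKCO) (hTLC : SpecTLC) (hPTW : SpecPTW)
    (hMO1 : SpecMO1) : SpecRD1 := by
  intro u th hD
  set D : E → E := fun a => (th a)⁻¹ • del u a with hDdef
  have hf0 : Integrable (fun y : E => mx u y - mx id y) muW :=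
    (intmx hUEF hKCO hTLC hD.le_one).sub
      (intmx hUEF hKCO hTLC (u := id) fun a ha => (hUEF.nrm a ha).le)
  have hfA : ∀ a e : E, Integrable (fun y : E =>
      max 0 ((inner ℝ (D a) y : ℝ) - ((inner ℝ e y : ℝ) - inner ℝ a y))) muW := by
    intro a e
    exact pos0 ((intg hTLC (D a)).sub ((intg hTLC e).sub (intg hTLC a)))
  have hfB : ∀ e ∈ UE, Integrable (fun y : E =>
      max 0 (-(inner ℝ (D e) y : ℝ) - g2 e y)) muW := by
    intro e he
    exact pos0 ((intg hTLC (D e)).neg.sub (intg2 hUEF hKCO hTLC he))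
  have hstep : ∀ e ∈ UE, ∫ y in Kc e, (mx u y - mx id y) ∂muW ≤
      ∑ a ∈ UE.erase e, th a * (∫ y in Kc e,
        max 0 ((inner ℝ (D a) y : ℝ) - ((inner ℝ e y : ℝ) - inner ℝ a y)) ∂muW) +
      th e * ∫ y in Kc e, max 0 (-(inner ℝ (D e) y : ℝ) - g2 e y) ∂muW := by
    intro e he
    have i1 : IntegrableOn (fun y : E => (inner ℝ (del u e) y : ℝ)) (Kc e) muW :=
      (intg hTLC _).integrableOn
    have i2 : ∀ a ∈ UE.erase e, IntegrableOn (fun y : E => th a *
        max 0 ((inner ℝ (D a) y : ℝ) - ((inner ℝ e y : ℝ) - inner ℝ a y))) (Kc e) muW :=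
      fun a _ => ((hfA a e).const_mul (th a)).integrableOn
    have i2s : IntegrableOn (fun y : E => ∑ a ∈ UE.erase e, th a *
        max 0 ((inner ℝ (D a) y : ℝ) - ((inner ℝ e y : ℝ) - inner ℝ a y))) (Kc e) muW :=
      integrable_finsetSum _ i2
    have i3 : IntegrableOn (fun y : E => th e *
        max 0 (-(inner ℝ (D e) y : ℝ) - g2 e y)) (Kc e) muW :=
      ((hfB e he).const_mul (th e)).integrableOn
    have h1 : ∫ y in Kc e, (mx u y - mx id y) ∂muW ≤
        ∫ y in Kc e, ((inner ℝ (del u e) y : ℝ)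
          + ∑ a ∈ UE.erase e, th a *
            max 0 ((inner ℝ (D a) y : ℝ) - ((inner ℝ e y : ℝ) - inner ℝ a y))
          + th e * max 0 (-(inner ℝ (D e) y : ℝ) - g2 e y)) ∂muW := by
      refine setIntegral_mono_on hf0.integrableOn ((i1.add i2s).add i3) (hKCO.meas e) ?_
      intro y hy
      exact hPTW u th hD e he y hy
    refine h1.trans (le_of_eq ?_)
    exact int4 (muW.restrict (Kc e)) (UE.erase e) th i1 i2 (hfB e he).integrableOn (th e)
      (hMO1 e he _ (del_perp (hUEF.nrm e he)))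
  rw [split UE Kc muW hKCO.meas (fun e he f hf hef => ac (hKCO.nul e he f hf hef)) hKCO.cov _ hf0]
  refine (Finset.sum_le_sum hstep).trans (le_of_eq ?_)
  exact arith UE th (fun a e => ∫ y in Kc e,
        max 0 ((inner ℝ (D a) y : ℝ) - ((inner ℝ e y : ℝ) - inner ℝ a y)) ∂muW)
    (fun e => ∫ y in Kc e, max 0 (-(inner ℝ (D e) y : ℝ) - g2 e y) ∂muW)

end Pool.Agent.Lib.MP_f1379f_gt.FV
end

section
/-!
# MP_f1379f_gt, block O, module TL2: second moment of the depth
-/
set_option autoImplicit false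

namespace Pool.Agent.Lib.MP_f1379f_gt.FV.TL2M

open MeasureTheory

/-! ### The two-dimensional integral -/

/-- The region in the plane. -/
def RR (d : ℝ) : Set (ℝ × ℝ) :=
  {w | 0 < 2 * w.2 - w.1 ∧ w.1 ≤ 1 ∧ w.2 ≤ w.1 ∧
    2 * (1 - w.1) + 2 * (2 / 3 + d) * (1 - 2 * w.2 + w.1) ≤ d}

/-- The value of the integral. -/
noncomputable def val (d : ℝ) : ℝ :=
  d ^ 2 / (16 * (2 / 3 + d) * (5 / 3 + d)) * (1 - d / (2 / 3 + d) - d / (5 / 3 + d))

theorem inner_bound {d q : ℝ} (hd : 0 < d) (hd3 : d ≤ 1 / 3)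
    (hq1 : 1 - d / (2 * (5 / 3 + d)) ≤ q) (hq2 : q ≤ 1) :
    ENNReal.ofReal (((d / 2 - 1 + q) / (2 / 3 + d) - (1 - q)) / 2 -
      3 / 2 * (((d / 2 - 1 + q) / (2 / 3 + d)) ^ 2 - (1 - q) ^ 2)) ≤
    ∫⁻ p : ℝ, (RR d).indicator (fun w => ENNReal.ofReal ((2 * w.2 - w.1) ^ 6)) (q, p) := by
  set z : ℝ := 2 / 3 + d with hz
  have hzp : 0 < z := by positivity
  set T : ℝ := (d / 2 - 1 + q) / z with hT
  have hTz : T * z = d / 2 - 1 + q := by rw [hT]; field_simp
  have hsT : 1 - q ≤ T := by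
    have h1 : (1 - q) * (1 + z) ≤ d / 2 := by
      have h2 : d / (2 * (5 / 3 + d)) * (2 * (5 / 3 + d)) = d := by field_simp
      have h3 : (1 - q) * (2 * (5 / 3 + d)) ≤ d := by
        have : 1 - q ≤ d / (2 * (5 / 3 + d)) := by linarith
        calc (1 - q) * (2 * (5 / 3 + d)) ≤ d / (2 * (5 / 3 + d)) * (2 * (5 / 3 + d)) := by
              apply mul_le_mul_of_nonneg_right this; positivity
          _ = d := h2
      rw [hz]
      linarith
    rw [hT, le_div_iff₀ hzp]
    linarith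
  have hT6 : T ≤ 1 / 6 := by
    rw [hT, div_le_iff₀ hzp, hz]
    linarith
  set a : ℝ := 1 - (1 - q + T) / 2 with ha
  have haq : a ≤ q := by rw [ha]; linarith
  -- the integrand on the interval
  have hmem : ∀ p ∈ Set.Icc a q, ENNReal.ofReal (1 - 6 * (1 - 2 * p + q)) ≤
      (RR d).indicator (fun w => ENNReal.ofReal ((2 * w.2 - w.1) ^ 6)) (q, p) := by
    intro p hp
    have ht : 1 - 2 * p + q ≤ T := by
      have := hp.1
      rw [ha] at this
      linarith
    have hin : (q, p) ∈ RR d := by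
      refine ⟨?_, hq2, hp.2, ?_⟩
      · show 0 < 2 * p - q
        linarith
      · show 2 * (1 - q) + 2 * (2 / 3 + d) * (1 - 2 * p + q) ≤ d
        have h1 : (1 - 2 * p + q) * z ≤ T * z := mul_le_mul_of_nonneg_right ht hzp.le
        rw [hTz] at h1
        rw [← hz]
        linarith
    rw [Set.indicator_of_mem hin]
    apply ENNReal.ofReal_le_ofReal
    show 1 - 6 * (1 - 2 * p + q) ≤ (2 * p - q) ^ 6
    have hb := one_add_mul_le_pow (a := -(1 - 2 * p + q)) (by linarith) 6
    have e : 1 + -(1 - 2 * p + q) = 2 * p - q := by ring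
    rw [e] at hb
    push_cast at hb
    linarith
  have hcont : Continuous (fun p : ℝ => 1 - 6 * (1 - 2 * p + q)) := by fun_prop
  calc _ = ENNReal.ofReal (∫ p in a..q, (1 - 6 * (1 - 2 * p + q))) := by
        congr 1
        have hder : ∀ p ∈ Set.uIcc a q, HasDerivAt (fun p : ℝ => -5 * p + 6 * p ^ 2 - 6 * q * p)
            (1 - 6 * (1 - 2 * p + q)) p := by
          intro p _
          have h1 := (((hasDerivAt_id p).const_mul (-5 : ℝ)).add
            ((hasDerivAt_pow 2 p).const_mul (6 : ℝ))).sub ((hasDerivAt_id p).const_mul (6 * q))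
          refine HasDerivAt.congr_deriv (f := fun p : ℝ => -5 * p + 6 * p ^ 2 - 6 * q * p) h1 ?_
          push_cast
          ring
        rw [intervalIntegral.integral_eq_sub_of_hasDerivAt hder
          (hcont.intervalIntegrable _ _)]
        rw [ha]
        ring
    _ = ∫⁻ p in Set.Ioc a q, ENNReal.ofReal (1 - 6 * (1 - 2 * p + q)) := by
        rw [intervalIntegral.integral_of_le haq]
        rw [ofReal_integral_eq_lintegral_ofReal]
        · exact (hcont.integrableOn_Icc (a := a) (b := q)).mono_set Set.Ioc_subset_Icc_self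
        · filter_upwards [self_mem_ae_restrict measurableSet_Ioc] with p hp
          have := hp.1
          rw [ha] at this
          show 0 ≤ 1 - 6 * (1 - 2 * p + q)
          linarith
    _ ≤ ∫⁻ p in Set.Ioc a q,
          (RR d).indicator (fun w => ENNReal.ofReal ((2 * w.2 - w.1) ^ 6)) (q, p) := by
        refine setLIntegral_mono' measurableSet_Ioc fun p hp => ?_
        exact hmem p (Set.Ioc_subset_Icc_self hp)
    _ ≤ _ := setLIntegral_le_lintegral _ _

theorem plane {d : ℝ} (hd : 0 < d) (hd3 : d ≤ 1 / 3) :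
    ENNReal.ofReal (val d) ≤ ∫⁻ q : ℝ, ∫⁻ p : ℝ,
      (RR d).indicator (fun w => ENNReal.ofReal ((2 * w.2 - w.1) ^ 6)) (q, p) := by
  set z : ℝ := 2 / 3 + d with hz
  have hzp : 0 < z := by positivity
  set σ : ℝ := d / (2 * (5 / 3 + d)) with hσ
  have hσ0 : 0 ≤ σ := by positivity
  have hs1 : σ * (2 * (5 / 3 + d)) = d := by rw [hσ]; field_simp
  have hcont : Continuous (fun q : ℝ => ((d / 2 - 1 + q) / z - (1 - q)) / 2 -
      3 / 2 * (((d / 2 - 1 + q) / z) ^ 2 - (1 - q) ^ 2)) := by fun_prop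
  calc ENNReal.ofReal (val d) = ENNReal.ofReal (∫ q in (1 - σ)..1,
        (((d / 2 - 1 + q) / z - (1 - q)) / 2 -
          3 / 2 * (((d / 2 - 1 + q) / z) ^ 2 - (1 - q) ^ 2))) := by
        congr 1
        have hder : ∀ q ∈ Set.uIcc (1 - σ) 1, HasDerivAt (fun q : ℝ =>
            (z * ((d / 2 - 1 + q) / z) ^ 2 + (1 - q) ^ 2) / 4 -
              (z * ((d / 2 - 1 + q) / z) ^ 3 + (1 - q) ^ 3) / 2)
            (((d / 2 - 1 + q) / z - (1 - q)) / 2 -
              3 / 2 * (((d / 2 - 1 + q) / z) ^ 2 - (1 - q) ^ 2)) q := by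
          intro q _
          have hT : HasDerivAt (fun q : ℝ => (d / 2 - 1 + q) / z) (1 / z) q := by
            have := ((hasDerivAt_id q).const_add (d / 2 - 1)).div_const z
            simpa using this
          have hS : HasDerivAt (fun q : ℝ => 1 - q) (-1) q := by
            have := (hasDerivAt_id q).const_sub 1
            simpa using this
          have h1 := ((((hT.pow 2).const_mul z).add (hS.pow 2)).div_const 4).sub
            ((((hT.pow 3).const_mul z).add (hS.pow 3)).div_const 2)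
          refine HasDerivAt.congr_deriv (f := fun q : ℝ =>
            (z * ((d / 2 - 1 + q) / z) ^ 2 + (1 - q) ^ 2) / 4 -
              (z * ((d / 2 - 1 + q) / z) ^ 3 + (1 - q) ^ 3) / 2) h1 ?_
          push_cast
          field_simp
          ring
        rw [intervalIntegral.integral_eq_sub_of_hasDerivAt hder
          (hcont.intervalIntegrable _ _)]
        have e1 : (d / 2 - 1 + (1 - σ)) / z = σ := by
          rw [div_eq_iff hzp.ne', hz]
          linarith
        rw [e1]
        unfold val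
        have e2 : σ = d / (2 * (5 / 3 + d)) := hσ
        rw [← hz]
        have e3 : (5 / 3 + d) = 1 + z := by rw [hz]; ring
        rw [e2, e3]
        have : (0 : ℝ) < 1 + z := by positivity
        field_simp
        ring
    _ = ∫⁻ q in Set.Ioc (1 - σ) 1, ENNReal.ofReal
          (((d / 2 - 1 + q) / z - (1 - q)) / 2 -
            3 / 2 * (((d / 2 - 1 + q) / z) ^ 2 - (1 - q) ^ 2)) := by
        rw [intervalIntegral.integral_of_le (by linarith)]
        rw [ofReal_integral_eq_lintegral_ofReal]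
        · exact (hcont.integrableOn_Icc (a := 1 - σ) (b := 1)).mono_set
            Set.Ioc_subset_Icc_self
        · filter_upwards [self_mem_ae_restrict measurableSet_Ioc] with q hq
          show 0 ≤ ((d / 2 - 1 + q) / z - (1 - q)) / 2 -
            3 / 2 * (((d / 2 - 1 + q) / z) ^ 2 - (1 - q) ^ 2)
          have hsT : 1 - q ≤ (d / 2 - 1 + q) / z := by
            rw [le_div_iff₀ hzp, hz]
            have := hq.1
            nlinarith
          have hT6 : (d / 2 - 1 + q) / z ≤ 1 / 6 := by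
            rw [div_le_iff₀ hzp, hz]
            have := hq.2
            linarith
          have h0 : 0 ≤ 1 - q := by have := hq.2; linarith
          set T : ℝ := (d / 2 - 1 + q) / z
          have : (T - (1 - q)) / 2 - 3 / 2 * (T ^ 2 - (1 - q) ^ 2) =
              (T - (1 - q)) * (1 / 2 - 3 / 2 * (T + (1 - q))) := by ring
          rw [this]
          apply mul_nonneg <;> linarith
    _ ≤ ∫⁻ q in Set.Ioc (1 - σ) 1, ∫⁻ p : ℝ,
          (RR d).indicator (fun w => ENNReal.ofReal ((2 * w.2 - w.1) ^ 6)) (q, p) := by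
        refine setLIntegral_mono' measurableSet_Ioc fun q hq => ?_
        exact inner_bound hd hd3 (q := q) hq.1.le hq.2
    _ ≤ _ := setLIntegral_le_lintegral _ _

/-- The final polynomial inequality. -/
theorem psl_le {d : ℝ} (hd : 0 < d) (hd3 : d ≤ 1 / 3) : psl d ≤ 2 / Real.sqrt 3 * val d := by
  have hs : Real.sqrt 3 ≤ 17321 / 10000 := by
    rw [Real.sqrt_le_left (by norm_num)]; norm_num
  have hs0 : 0 < Real.sqrt 3 := Real.sqrt_pos.2 (by norm_num)
  have h2 : 2 / (17321 / 10000) ≤ 2 / Real.sqrt 3 := by gcongr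
  have hz : 0 < 2 / 3 + d := by positivity
  have hz1 : 0 < 5 / 3 + d := by positivity
  -- the value
  have hval : val d = d ^ 2 * (10 / 9 - d ^ 2) /
      (16 * ((2 / 3 + d) * (5 / 3 + d)) ^ 2) := by
    unfold val
    field_simp
    ring
  have hv0 : 0 ≤ val d := by
    rw [hval]
    have : 0 ≤ 10 / 9 - d ^ 2 := by nlinarith
    positivity
  refine le_trans ?_ (mul_le_mul_of_nonneg_right h2 hv0)
  rw [hval]
  unfold psl
  rw [← mul_div_assoc, le_div_iff₀ (by positivity)]
  -- `m = (1-d)^2 (10/9 + 7d/3 + d^2)`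
  have hm : (1 - d) ^ 2 * ((2 / 3 + d) * (5 / 3 + d)) ≤
      10 / 9 * (1 + d / 10 - 21 / 10 * d ^ 2) := by
    have e : (1 - d) ^ 2 * ((2 / 3 + d) * (5 / 3 + d)) =
        10 / 9 + d / 9 - 23 / 9 * d ^ 2 + d ^ 3 / 3 + d ^ 4 := by ring
    rw [e]
    have h1 : d ^ 3 ≤ d ^ 2 / 3 := by nlinarith [sq_nonneg d]
    have h3 : d ^ 4 ≤ d ^ 2 / 9 := by nlinarith [sq_nonneg d, mul_nonneg hd.le (sq_nonneg d)]
    linarith
  have hm0 : 0 ≤ (1 - d) ^ 2 * ((2 / 3 + d) * (5 / 3 + d)) := by positivity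
  have hm2 : ((1 - d) ^ 2 * ((2 / 3 + d) * (5 / 3 + d))) ^ 2 ≤
      (10 / 9 * (1 + d / 10 - 21 / 10 * d ^ 2)) ^ 2 := pow_le_pow_left₀ hm0 hm 2
  have hw : (1 + d / 10 - 21 / 10 * d ^ 2) ^ 2 ≤ 1 + d / 5 - 37 / 10 * d ^ 2 := by
    have e : (1 + d / 10 - 21 / 10 * d ^ 2) ^ 2 =
        1 + d / 5 - 419 / 100 * d ^ 2 - 42 / 100 * d ^ 3 + 441 / 100 * d ^ 4 := by ring
    rw [e]
    have h3 : d ^ 4 ≤ d ^ 2 / 9 := by nlinarith [sq_nonneg d, mul_nonneg hd.le (sq_nonneg d)]
    have h4 : 0 ≤ d ^ 3 := by positivity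
    linarith
  have hfin : 129 / 2000 * 16 * ((100 / 81) * (1 + d / 5 - 37 / 10 * d ^ 2)) ≤
      2 / (17321 / 10000) * (10 / 9 - d ^ 2) := by
    nlinarith [sq_nonneg (d - 36 / 1000)]
  have e5 : 129 / 2000 * d ^ 2 * (1 - d) ^ 4 * (16 * ((2 / 3 + d) * (5 / 3 + d)) ^ 2) =
      d ^ 2 * (129 / 2000 * 16 * ((1 - d) ^ 2 * ((2 / 3 + d) * (5 / 3 + d))) ^ 2) := by ring
  have e6 : 2 / (17321 / 10000) * (d ^ 2 * (10 / 9 - d ^ 2)) =
      d ^ 2 * (2 / (17321 / 10000) * (10 / 9 - d ^ 2)) := by ring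
  rw [e5, e6]
  apply mul_le_mul_of_nonneg_left _ (sq_nonneg d)
  nlinarith

/-! ### The pieces -/

/-- The piece of the outer part belonging to the ordered contact pair `(a, e)`. -/
def QQ (a e : E) : Set E :=
  {y | y ∈ poly UE \ bal ∧ y ∈ Kc a ∧ ∀ f ∈ nb a, (inner ℝ f y : ℝ) ≤ inner ℝ e y}

theorem mem_nb {a e : E} : e ∈ nb a ↔ e ∈ UE ∧ (inner ℝ e a : ℝ) = 1 / 2 := by
  classical
  unfold nb
  rw [Finset.mem_filter]

theorem poly_closed : IsClosed (poly UE) := by
  have : poly UE = ⋂ b : E, ⋂ (_ : b ∈ UE), {y : E | (inner ℝ b y : ℝ) ≤ 1} := by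
    ext x
    simp only [poly, Set.mem_ofPred_eq, Set.mem_iInter]
  rw [this]
  exact isClosed_iInter fun b => isClosed_iInter fun _ =>
    isClosed_le (by fun_prop) continuous_const

theorem bal_open : IsOpen bal := by
  unfold bal
  exact isOpen_lt (by fun_prop) continuous_const

theorem QQ_closed (a e : E) : IsClosed (QQ a e) := by
  have : QQ a e = (poly UE ∩ balᶜ) ∩ ((⋂ b : E, ⋂ (_ : b ∈ UE),
      {y : E | (inner ℝ b y : ℝ) ≤ inner ℝ a y}) ∩
      ⋂ b : E, ⋂ (_ : b ∈ nb a), {y : E | (inner ℝ b y : ℝ) ≤ inner ℝ e y}) := by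
    ext x
    simp only [QQ, Kc, Set.mem_ofPred_eq, Set.mem_iInter, Set.mem_inter_iff, Set.mem_sdiff,
      Set.mem_compl_iff]
  rw [this]
  refine (poly_closed.inter bal_open.isClosed_compl).inter (IsClosed.inter ?_ ?_)
  · exact isClosed_iInter fun b => isClosed_iInter fun _ => isClosed_le (by fun_prop) (by fun_prop)
  · exact isClosed_iInter fun b => isClosed_iInter fun _ => isClosed_le (by fun_prop) (by fun_prop)

theorem null_eq {e f : E} (h : e ≠ f) :
    volume {y : E | (inner ℝ e y : ℝ) = inner ℝ f y} = 0 := by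
  have hsub : {y : E | (inner ℝ e y : ℝ) = inner ℝ f y} ⊆
      ((Submodule.span ℝ {e - f})ᗮ : Submodule ℝ E) := by
    intro y hy
    show y ∈ (Submodule.span ℝ {e - f})ᗮ
    rw [Submodule.mem_orthogonal_singleton_iff_inner_right, inner_sub_left]
    exact sub_eq_zero.2 hy
  refine measure_mono_null hsub (Measure.addHaar_submodule volume _ ?_)
  intro htop
  have h1 : e - f ∈ (Submodule.span ℝ {e - f})ᗮ := by rw [htop]; trivial
  rw [Submodule.mem_orthogonal_singleton_iff_inner_left, inner_self_eq_zero] at h1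
  exact h (sub_eq_zero.1 h1)

theorem sum_nb {a : E} : ∑ e ∈ nb a, volume (QQ a e) ≤ volume ((poly UE \ bal) ∩ Kc a) := by
  rw [← measure_biUnion_finset₀]
  · refine measure_mono ?_
    intro y hy
    simp only [Set.mem_iUnion] at hy
    obtain ⟨e, _, he⟩ := hy
    exact ⟨he.1, he.2.1⟩
  · intro e he f hf hef
    refine measure_mono_null ?_ (null_eq hef)
    rintro y ⟨h1, h2⟩
    exact le_antisymm (h2.2.2 e he) (h1.2.2 f hf)
  · intro e _
    exact (QQ_closed a e).measurableSet.nullMeasurableSet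

theorem sum_UE (hK : SpecKCO) : ∑ a ∈ UE, volume ((poly UE \ bal) ∩ Kc a) ≤
    volume (poly UE \ bal) := by
  rw [← measure_biUnion_finset₀]
  · refine measure_mono ?_
    intro y hy
    simp only [Set.mem_iUnion] at hy
    obtain ⟨e, _, he⟩ := hy
    exact he.1
  · intro e he f hf hef
    refine measure_mono_null ?_ (hK.nul e he f hf hef)
    rintro y ⟨h1, h2⟩
    exact ⟨h1.2, h2.2⟩
  · intro e _
    exact ((poly_closed.measurableSet.diff bal_open.measurableSet).inter
      (hK.meas e)).nullMeasurableSet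

/-- All pieces have the same volume. -/
theorem vol_eq (hT : SpecTRA) {a e a' e' : E} (ha : a ∈ UE) (he : e ∈ nb a) (ha' : a' ∈ UE)
    (he' : e' ∈ nb a') : volume (QQ a e) = volume (QQ a' e') := by
  obtain ⟨T, hTU, hTa, hTe⟩ := hT.two a ha e he a' ha' e' he'
  have hsur := NUTM.surj_UE T hTU
  have hpre : QQ a e = T ⁻¹' (QQ a' e') := by
    ext y
    have h1 : (∀ u ∈ UE, (inner ℝ u y : ℝ) ≤ 1) ↔ ∀ u ∈ UE, (inner ℝ u (T y) : ℝ) ≤ 1 := by
      constructor
      · intro h u hu
        obtain ⟨g, hg, rfl⟩ := hsur u hu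
        rw [T.inner_map_map]
        exact h g hg
      · intro h u hu
        have := h (T u) (hTU u hu)
        rwa [T.inner_map_map] at this
    have h2 : (∀ s ∈ UE, (inner ℝ s y : ℝ) ≤ inner ℝ a y) ↔
        ∀ s ∈ UE, (inner ℝ s (T y) : ℝ) ≤ inner ℝ a' (T y) := by
      rw [← hTa]
      constructor
      · intro h u hu
        obtain ⟨g, hg, rfl⟩ := hsur u hu
        rw [T.inner_map_map, T.inner_map_map]
        exact h g hg
      · intro h u hu
        have := h (T u) (hTU u hu)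
        rwa [T.inner_map_map, T.inner_map_map] at this
    have h3 : (∀ f ∈ nb a, (inner ℝ f y : ℝ) ≤ inner ℝ e y) ↔
        ∀ f ∈ nb a', (inner ℝ f (T y) : ℝ) ≤ inner ℝ e' (T y) := by
      rw [← hTe]
      constructor
      · intro h u hu
        rw [mem_nb] at hu
        obtain ⟨g, hg, rfl⟩ := hsur u hu.1
        rw [T.inner_map_map, T.inner_map_map]
        refine h g (mem_nb.2 ⟨hg, ?_⟩)
        rw [← hTa, T.inner_map_map] at hu
        exact hu.2
      · intro h u hu
        rw [mem_nb] at hu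
        have := h (T u) (mem_nb.2 ⟨hTU u hu.1, by rw [← hTa, T.inner_map_map]; exact hu.2⟩)
        rwa [T.inner_map_map, T.inner_map_map] at this
    have h4 : y ∈ bal ↔ T y ∈ bal := by
      simp only [bal, Set.mem_ofPred_eq, T.norm_map]
    simp only [QQ, Kc, poly, Set.mem_ofPred_eq, Set.mem_preimage, Set.mem_sdiff]
    rw [h1, h2, h3, h4]
  rw [hpre]
  exact T.measurePreserving.measure_preimage (QQ_closed a' e').measurableSet.nullMeasurableSet

theorem total (hU : SpecUEF) (hT : SpecTRA) (hK : SpecKCO) {a e : E} (ha : a ∈ UE)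
    (he : e ∈ nb a) : 13440 * volume (QQ a e) ≤ volume (poly UE \ bal) := by
  calc 13440 * volume (QQ a e) = ∑ a' ∈ UE, ∑ e' ∈ nb a', volume (QQ a' e') := by
        have h1 : ∀ a' ∈ UE, ∑ e' ∈ nb a', volume (QQ a' e') = 56 * volume (QQ a e) := by
          intro a' ha'
          rw [Finset.sum_congr rfl fun e' he' => vol_eq hT ha' he' ha he, Finset.sum_const,
            hU.c56 a' ha', nsmul_eq_mul]
          rfl
        rw [Finset.sum_congr rfl h1, Finset.sum_const, hU.c240, nsmul_eq_mul, ← mul_assoc]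
        norm_num
    _ ≤ ∑ a' ∈ UE, volume ((poly UE \ bal) ∩ Kc a') := Finset.sum_le_sum fun a' _ => sum_nb
    _ ≤ _ := sum_UE hK

/-! ### The lower bound of one piece -/

/-- The region in `ℝ × ℝ × R⁶`: coordinates `q = <a,y>`, `p = <e,y>`, `x`. -/
def TT (e a : E) : Set (ℝ × ℝ × Sp e a) :=
  {w | w.2.2 ∈ F6o e a ∧ 0 < 2 * w.2.1 - w.1 ∧ w.1 ≤ 1 ∧ w.2.1 ≤ w.1 ∧
    2 * (1 - w.1) + 2 * (1 / 3 + ‖w.2.2‖ ^ 2) * (1 - 2 * w.2.1 + w.1) ≤ ‖w.2.2‖ ^ 2 - 1 / 3}

theorem TT_meas (e a : E) : MeasurableSet (TT e a) := by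
  have h1 : MeasurableSet {w : ℝ × ℝ × Sp e a | w.2.2 ∈ F6o e a} :=
    (measurable_snd.comp measurable_snd) (NUTM.F6o_meas e a)
  have h2 : MeasurableSet {w : ℝ × ℝ × Sp e a | 0 < 2 * w.2.1 - w.1} :=
    (isOpen_lt continuous_const (by fun_prop)).measurableSet
  have h3 : MeasurableSet {w : ℝ × ℝ × Sp e a | w.1 ≤ 1} :=
    (isClosed_le (by fun_prop) continuous_const).measurableSet
  have h4 : MeasurableSet {w : ℝ × ℝ × Sp e a | w.2.1 ≤ w.1} :=
    (isClosed_le (by fun_prop) (by fun_prop)).measurableSet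
  have h5 : MeasurableSet {w : ℝ × ℝ × Sp e a |
      2 * (1 - w.1) + 2 * (1 / 3 + ‖w.2.2‖ ^ 2) * (1 - 2 * w.2.1 + w.1) ≤
        ‖w.2.2‖ ^ 2 - 1 / 3} :=
    (isClosed_le (by fun_prop) (by fun_prop)).measurableSet
  exact h1.inter (h2.inter (h3.inter (h4.inter h5)))

/-- The geometry. -/
theorem geo (hU : SpecUEF) (hF : SpecF6V) {a e : E} (ha : a ∈ UE) (he : e ∈ nb a) {q p : ℝ}
    {x : Sp e a} (h : (q, p, x) ∈ TT e a) :
    (4 / 3 * (p - q / 2)) • e + (4 / 3 * (q - p / 2)) • a +
      (((2 * p - q) • x : Sp e a) : E) ∈ QQ a e := by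
  obtain ⟨hx, h1, h2, h3, h4⟩ := h
  simp only at h1 h2 h3 h4 hx
  obtain ⟨heU, hea⟩ := mem_nb.1 he
  have hae : (inner ℝ a e : ℝ) = 1 / 2 := by rw [real_inner_comm]; exact hea
  have haa : (inner ℝ a a : ℝ) = 1 := by
    rw [real_inner_self_eq_norm_sq, hU.nrm a ha]; norm_num
  have hee : (inner ℝ e e : ℝ) = 1 := by
    rw [real_inner_self_eq_norm_sq, hU.nrm e heU]; norm_num
  obtain ⟨hex, hax⟩ := (NUTM.mem_Sp e a x).1 x.2
  set t : ℝ := 2 * p - q with ht
  have htq : t ≤ q := by rw [ht]; linarith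
  obtain ⟨z, hz⟩ : ∃ z : E, z = (2 / 3 : ℝ) • (e + a) + (x : E) := ⟨_, rfl⟩
  have hzp : z ∈ poly UE := by rw [hz]; exact hF.mem a ha e he x hx.1
  have hy : (4 / 3 * (p - q / 2)) • e + (4 / 3 * (q - p / 2)) • a +
      ((t • x : Sp e a) : E) = (q - t) • a + t • z := by
    rw [hz, ht, Submodule.coe_smul]
    module
  rw [hy]
  have haz : (inner ℝ a z : ℝ) = 1 := by
    rw [hz, inner_add_right, inner_smul_right, inner_add_right, hae, haa, hax]; norm_num
  have hez : (inner ℝ e z : ℝ) = 1 := by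
    rw [hz, inner_add_right, inner_smul_right, inner_add_right, hea, hee, hex]; norm_num
  have hb : ∀ b ∈ UE, (inner ℝ b a : ℝ) ≤ 1 := by
    intro b hb
    rcases hU.ip b hb a ha with h | h | h | h | h <;> rw [h] <;> norm_num
  have hay : (inner ℝ a ((q - t) • a + t • z) : ℝ) = q := by
    rw [inner_add_right, inner_smul_right, inner_smul_right, haa, haz]; ring
  have hby : ∀ b ∈ UE, (inner ℝ b ((q - t) • a + t • z) : ℝ) ≤ q := by
    intro b hb'
    rw [inner_add_right, inner_smul_right, inner_smul_right]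
    have h5 := mul_le_mul_of_nonneg_left (hb b hb') (sub_nonneg.2 htq)
    have h6 := mul_le_mul_of_nonneg_left (hzp b hb') h1.le
    linarith
  have hnz : ‖z‖ ^ 2 = 4 / 3 + ‖x‖ ^ 2 := by
    rw [← real_inner_self_eq_norm_sq, hz, inner_add_left, real_inner_smul_left, inner_add_left,
      ← hz, haz, hez]
    rw [hz, inner_add_right, inner_smul_right, inner_add_right, real_inner_comm, hex,
      real_inner_comm a (x : E), hax, real_inner_self_eq_norm_sq]
    rw [Submodule.coe_norm]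
    ring
  refine ⟨⟨fun b hb' => (hby b hb').trans h2, ?_⟩, ?_, ?_⟩
  · show ¬ (‖(q - t) • a + t • z‖ ^ 2 < 5 / 3)
    have e1 : ‖(q - t) • a + t • z‖ ^ 2 = q ^ 2 + t ^ 2 * (1 / 3 + ‖x‖ ^ 2) := by
      rw [← real_inner_self_eq_norm_sq, inner_add_left, inner_add_right, inner_add_right,
        real_inner_smul_left, real_inner_smul_left, real_inner_smul_left, real_inner_smul_left,
        inner_smul_right, inner_smul_right, inner_smul_right, inner_smul_right, haa, haz,
        real_inner_comm a z, haz, real_inner_self_eq_norm_sq, hnz]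
      ring
    rw [e1, not_lt]
    have e2 : 1 - 2 * p + q = 1 - t := by rw [ht]; ring
    rw [e2] at h4
    have e3 : 1 - 2 * (1 - q) ≤ q ^ 2 := by nlinarith [sq_nonneg (1 - q)]
    have e4 : 1 - 2 * (1 - t) ≤ t ^ 2 := by nlinarith [sq_nonneg (1 - t)]
    have e5 : (1 - 2 * (1 - t)) * (1 / 3 + ‖x‖ ^ 2) ≤ t ^ 2 * (1 / 3 + ‖x‖ ^ 2) :=
      mul_le_mul_of_nonneg_right e4 (by positivity)
    linarith
  · intro b hb'
    rw [hay]
    exact hby b hb'
  · intro f hf
    obtain ⟨hfU, hfa⟩ := mem_nb.1 hf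
    rw [inner_add_right, inner_smul_right, inner_smul_right, inner_add_right, inner_smul_right,
      inner_smul_right, hfa, hea, hez]
    have h6 := mul_le_mul_of_nonneg_left (hzp f hfU) h1.le
    linarith

theorem piece (hU : SpecUEF) (hP : SpecPIN) (hF : SpecF6V) {a e : E} (ha : a ∈ UE)
    (he : e ∈ nb a) :
    ∫⁻ x in F6o e a, ENNReal.ofReal (psl (‖x‖ ^ 2 - 1 / 3)) ≤ volume (QQ a e) := by
  obtain ⟨heU, hea⟩ := mem_nb.1 he
  have hQm := (QQ_closed a e).measurableSet
  obtain ⟨G, hG⟩ : ∃ G : ℝ × ℝ × Sp e a → ENNReal, G = (TT e a).indicator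
      (fun w => ENNReal.ofReal ((2 * w.2.1 - w.1) ^ 6)) := ⟨_, rfl⟩
  have hGm : Measurable G := by
    rw [hG]
    exact Measurable.indicator (by fun_prop) (TT_meas e a)
  have h1 : volume (QQ a e) = ∫⁻ y, (QQ a e).indicator (fun _ => (1 : ENNReal)) y := by
    rw [lintegral_indicator hQm, setLIntegral_const, one_mul]
  have hHm : Measurable ((QQ a e).indicator (fun _ => (1 : ENNReal))) :=
    measurable_const.indicator hQm
  -- pointwise comparison
  have h2 : ∀ p q : ℝ, ∫⁻ x : Sp e a, G (q, p, x) ≤ ∫⁻ x : Sp e a,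
      (QQ a e).indicator (fun _ => (1 : ENNReal))
        ((4 / 3 * (p - q / 2)) • e + (4 / 3 * (q - p / 2)) • a + (x : E)) := by
    intro p q
    by_cases ht : 0 < 2 * p - q
    · have hm : Measurable (fun x : Sp e a => (QQ a e).indicator (fun _ => (1 : ENNReal))
          ((4 / 3 * (p - q / 2)) • e + (4 / 3 * (q - p / 2)) • a + (x : E))) :=
        hHm.comp (by fun_prop)
      rw [hP.scl e a (hU.nrm e heU) (hU.nrm a ha) hea (2 * p - q) ht _ hm,
        ← lintegral_const_mul' _ _ ENNReal.ofReal_ne_top]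
      refine lintegral_mono fun x => ?_
      by_cases hx : (q, p, x) ∈ TT e a
      · rw [hG, Set.indicator_of_mem hx]
        have hg := geo hU hF ha he hx
        show ENNReal.ofReal ((2 * p - q) ^ 6) ≤ ENNReal.ofReal ((2 * p - q) ^ 6) *
          (QQ a e).indicator (fun _ => (1 : ENNReal))
            ((4 / 3 * (p - q / 2)) • e + (4 / 3 * (q - p / 2)) • a +
              (((2 * p - q) • x : Sp e a) : E))
        rw [Set.indicator_of_mem hg, mul_one]
      · rw [hG, Set.indicator_of_notMem hx]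
        exact zero_le
    · have h0 : ∀ x : Sp e a, G (q, p, x) = 0 := by
        intro x
        rw [hG, Set.indicator_of_notMem]
        intro hx
        exact ht hx.2.1
      simp only [h0, lintegral_zero]
      exact zero_le
  -- Tonelli
  have h3 : ∫⁻ p : ℝ, ∫⁻ q : ℝ, ∫⁻ x : Sp e a, G (q, p, x) =
      ∫⁻ x : Sp e a, ∫⁻ q : ℝ, ∫⁻ p : ℝ, G (q, p, x) := by
    have m1 : Measurable (fun w : ℝ × ℝ => ∫⁻ x : Sp e a, G (w.2, w.1, x)) := by
      have : Measurable (fun w : (ℝ × ℝ) × Sp e a => G (w.1.2, w.1.1, w.2)) :=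
        hGm.comp (by fun_prop)
      exact this.lintegral_prod_right'
    rw [lintegral_lintegral_swap m1.aemeasurable]
    have m2 : ∀ q : ℝ, Measurable (fun w : ℝ × Sp e a => G (q, w.1, w.2)) := fun q =>
      hGm.comp (by fun_prop)
    have e1 : ∀ q : ℝ, ∫⁻ p : ℝ, ∫⁻ x : Sp e a, G (q, p, x) =
        ∫⁻ x : Sp e a, ∫⁻ p : ℝ, G (q, p, x) := fun q =>
      lintegral_lintegral_swap (f := fun p x => G (q, p, x)) (m2 q).aemeasurable
    simp only [e1]
    have m3 : Measurable (fun w : ℝ × Sp e a => ∫⁻ p : ℝ, G (w.1, p, w.2)) := by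
      have : Measurable (fun w : (ℝ × Sp e a) × ℝ => G (w.1.1, w.2, w.1.2)) :=
        hGm.comp (by fun_prop)
      exact this.lintegral_prod_right'
    exact lintegral_lintegral_swap (f := fun q x => ∫⁻ p : ℝ, G (q, p, x)) m3.aemeasurable
  have h4 : ∀ x ∈ F6o e a, ENNReal.ofReal (val (‖x‖ ^ 2 - 1 / 3)) ≤
      ∫⁻ q : ℝ, ∫⁻ p : ℝ, G (q, p, x) := by
    intro x hx
    have hd : 0 < ‖x‖ ^ 2 - 1 / 3 := by have := hx.2; linarith
    have hd3 : ‖x‖ ^ 2 - 1 / 3 ≤ 1 / 3 := by
      have := hF.nrm a ha e he x hx.1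
      have e1 : ‖(x : E)‖ = ‖x‖ := Submodule.coe_norm x
      rw [e1] at this
      linarith
    refine (plane hd hd3).trans (lintegral_mono fun q => lintegral_mono fun p => ?_)
    by_cases hm : (q, p) ∈ RR (‖x‖ ^ 2 - 1 / 3)
    · have hT : (q, p, x) ∈ TT e a := by
        refine ⟨hx, hm.1, hm.2.1, hm.2.2.1, ?_⟩
        have := hm.2.2.2
        simp only at this ⊢
        have e1 : (2 / 3 + (‖x‖ ^ 2 - 1 / 3)) = 1 / 3 + ‖x‖ ^ 2 := by ring
        rw [e1] at this
        exact this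
      rw [Set.indicator_of_mem hm, hG, Set.indicator_of_mem hT]
    · rw [Set.indicator_of_notMem hm]
      exact zero_le
  calc ∫⁻ x in F6o e a, ENNReal.ofReal (psl (‖x‖ ^ 2 - 1 / 3))
      ≤ ∫⁻ x in F6o e a, ENNReal.ofReal (2 / Real.sqrt 3) *
          ENNReal.ofReal (val (‖x‖ ^ 2 - 1 / 3)) := by
        refine setLIntegral_mono' (NUTM.F6o_meas e a) fun x hx => ?_
        have hd : 0 < ‖x‖ ^ 2 - 1 / 3 := by have := hx.2; linarith
        have hd3 : ‖x‖ ^ 2 - 1 / 3 ≤ 1 / 3 := by
          have := hF.nrm a ha e he x hx.1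
          have e1 : ‖(x : E)‖ = ‖x‖ := Submodule.coe_norm x
          rw [e1] at this
          linarith
        rw [← ENNReal.ofReal_mul (by positivity)]
        exact ENNReal.ofReal_le_ofReal (psl_le hd hd3)
    _ = ENNReal.ofReal (2 / Real.sqrt 3) * ∫⁻ x in F6o e a,
          ENNReal.ofReal (val (‖x‖ ^ 2 - 1 / 3)) :=
        lintegral_const_mul' _ _ ENNReal.ofReal_ne_top
    _ ≤ ENNReal.ofReal (2 / Real.sqrt 3) * ∫⁻ x in F6o e a,
          ∫⁻ q : ℝ, ∫⁻ p : ℝ, G (q, p, x) := by
        exact mul_le_mul_right (setLIntegral_mono' (NUTM.F6o_meas e a) h4) _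
    _ ≤ ENNReal.ofReal (2 / Real.sqrt 3) * ∫⁻ x : Sp e a,
          ∫⁻ q : ℝ, ∫⁻ p : ℝ, G (q, p, x) := by
        exact mul_le_mul_right (setLIntegral_le_lintegral _ _) _
    _ = ENNReal.ofReal (2 / Real.sqrt 3) * ∫⁻ p : ℝ, ∫⁻ q : ℝ, ∫⁻ x : Sp e a, G (q, p, x) := by
        rw [h3]
    _ ≤ ENNReal.ofReal (2 / Real.sqrt 3) * ∫⁻ p : ℝ, ∫⁻ q : ℝ, ∫⁻ x : Sp e a,
          (QQ a e).indicator (fun _ => (1 : ENNReal))
            ((4 / 3 * (p - q / 2)) • e + (4 / 3 * (q - p / 2)) • a + (x : E)) := by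
        exact mul_le_mul_right (lintegral_mono fun p => lintegral_mono fun q => h2 p q) _
    _ = volume (QQ a e) := by
        rw [h1, hP.main e a (hU.nrm e heU) (hU.nrm a ha) hea _ hHm]

end Pool.Agent.Lib.MP_f1379f_gt.FV.TL2M

namespace Pool.Agent.Lib.MP_f1379f_gt.FV

open MeasureTheory TL2M

theorem specTL2 (hU : SpecUEF) (hT : SpecTRA) (hK : SpecKCO) (hP : SpecPIN) (hF : SpecF6V) :
    SpecTL2 := by
  intro a ha e he
  have hfin : volume (poly UE \ bal) ≠ ⊤ := by
    have hsub : poly UE \ bal ⊆ Metric.closedBall 0 2 := by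
      intro y hy
      obtain ⟨f, hf, h0, h1⟩ := hU.cov y
      have h2 := hy.1 f hf
      rw [mem_closedBall_zero_iff]
      have h3 : (inner ℝ f y : ℝ) ^ 2 ≤ 1 := by nlinarith
      have h4 : ‖y‖ ^ 2 ≤ 2 ^ 2 := by linarith
      exact le_of_sq_le_sq h4 (by norm_num)
    exact ne_top_of_le_ne_top (measure_closedBall_lt_top).ne (measure_mono hsub)
  have h1 : ∫ x in F6o e a, psl (‖x‖ ^ 2 - 1 / 3) =
      (∫⁻ x in F6o e a, ENNReal.ofReal (psl (‖x‖ ^ 2 - 1 / 3))).toReal := by
    rw [integral_eq_lintegral_of_nonneg_ae]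
    · filter_upwards with x
      unfold psl
      have e1 : (1 - (‖x‖ ^ 2 - 1 / 3)) ^ 4 = ((1 - (‖x‖ ^ 2 - 1 / 3)) ^ 2) ^ 2 := by ring
      show 0 ≤ 129 / 2000 * (‖x‖ ^ 2 - 1 / 3) ^ 2 * (1 - (‖x‖ ^ 2 - 1 / 3)) ^ 4
      positivity
    · have hc : Continuous (fun x : Sp e a => psl (‖x‖ ^ 2 - 1 / 3)) := by
        unfold psl
        fun_prop
      exact hc.aestronglyMeasurable
  have h2 : 13440 * ∫⁻ x in F6o e a, ENNReal.ofReal (psl (‖x‖ ^ 2 - 1 / 3)) ≤
      volume (poly UE \ bal) := by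
    refine le_trans ?_ (total hU hT hK ha he)
    gcongr
    exact piece hU hP hF ha he
  have h3 := ENNReal.toReal_mono hfin h2
  rw [ENNReal.toReal_mul] at h3
  rw [h1]
  simpa using h3

end Pool.Agent.Lib.MP_f1379f_gt.FV
end
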