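import Pool.Agent.Lib.MP_f1379f_gt.FV.SpecO

/-!
# TRA: transitivity of the symmetry group of the 240 roots
-/

set_option autoImplicit false

namespace Pool.Agent.Lib.MP_f1379f_gt.FV

namespace TRAM

/-- the reflection in a unit vector -/
theorem refl_ex {s : E} (hs : ‖s‖ = 1) :
    ∃ σ : E ≃ₗᵢ[ℝ] E, ∀ y, σ y = y - (2 * (inner ℝ y s : ℝ)) • s := by
  refine ⟨Submodule.reflection (Submodule.span ℝ {s})ᗮ, fun y => ?_⟩
  rw [Submodule.reflection_orthogonal_apply, Submodule.reflection_singleton_apply]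
  rw [real_inner_comm y s]
  simp only [RCLike.ofReal_real_eq_id, id_eq]
  rw [hs]
  module

/-- the relation: some isometry preserving UE and fixing everything in the set `Z` maps a to b -/
def Q (Z : Set E) (a b : E) : Prop :=
  ∃ T : E ≃ₗᵢ[ℝ] E, (∀ f ∈ UE, T f ∈ UE) ∧ (∀ z ∈ Z, T z = z) ∧ T a = b

theorem Q.refl (Z : Set E) (a : E) : Q Z a a :=
  ⟨LinearIsometryEquiv.refl ℝ E, fun f hf => by simpa using hf, fun z _ => by simp, by simp⟩

theorem Q.trans {Z : Set E} {a b c : E} (h1 : Q Z a b) (h2 : Q Z b c) : Q Z a c := by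
  obtain ⟨S, hS, hS', hab⟩ := h1
  obtain ⟨T, hT, hT', hbc⟩ := h2
  refine ⟨S.trans T, fun f hf => ?_, fun z hz => ?_, ?_⟩
  · rw [LinearIsometryEquiv.trans_apply]
    exact hT _ (hS f hf)
  · rw [LinearIsometryEquiv.trans_apply, hS' z hz, hT' z hz]
  · rw [LinearIsometryEquiv.trans_apply, hab, hbc]

variable (h : SpecUEF)

include h in
theorem step {a b : E} (ha : a ∈ UE) (hb : b ∈ UE) (hab : (inner ℝ a b : ℝ) = 1 / 2)
    {Z : Set E} (hZ : ∀ z ∈ Z, (inner ℝ z a : ℝ) = inner ℝ z b) : Q Z a b := by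
  have hs := h.sub a ha b hb hab
  obtain ⟨σ, hσ⟩ := refl_ex (h.nrm _ hs)
  have haa : (inner ℝ a a : ℝ) = 1 := by
    rw [real_inner_self_eq_norm_sq, h.nrm a ha]; norm_num
  refine ⟨σ, fun f hf => ?_, fun z hz => ?_, ?_⟩
  · rw [hσ]
    exact h.refl f hf _ hs
  · rw [hσ, inner_sub_right, hZ z hz, sub_self]
    simp
  · rw [hσ, inner_sub_right, hab, haa]
    norm_num

theorem exists_of_ncard {S : Set E} {n : ℕ} (hS : S.ncard = n) (hn : n ≠ 0) : ∃ x, x ∈ S := by
  by_contra hx
  push Not at hx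
  have : S = ∅ := Set.eq_empty_of_forall_notMem hx
  rw [this, Set.ncard_empty] at hS
  exact hn hS.symm

include h in
theorem le_half {a b : E} (ha : a ∈ UE) (hb : b ∈ UE) (hab : a ≠ b) :
    (inner ℝ a b : ℝ) ≤ 1 / 2 := by
  rcases h.ip a ha b hb with h1 | h1 | h1 | h1 | h1
  · exact absurd (h.one a ha b hb h1) hab
  · exact h1.le
  · rw [h1]; norm_num
  · rw [h1]; norm_num
  · rw [h1]; norm_num

include h in
theorem neg_half {a b : E} (ha : a ∈ UE) (hb : b ∈ UE) (hab : (inner ℝ a b : ℝ) = -1 / 2) :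
    Q ∅ a b := by
  have hc := h.add a ha b hb hab
  have haa : (inner ℝ a a : ℝ) = 1 := by
    rw [real_inner_self_eq_norm_sq, h.nrm a ha]; norm_num
  have hbb : (inner ℝ b b : ℝ) = 1 := by
    rw [real_inner_self_eq_norm_sq, h.nrm b hb]; norm_num
  refine (step h ha hc ?_ (by simp)).trans (step h hc hb ?_ (by simp))
  · rw [inner_add_right, haa, hab]; norm_num
  · rw [inner_add_left, hab, hbb]; norm_num

include h in
theorem one' {a b : E} (ha : a ∈ UE) (hb : b ∈ UE) : Q ∅ a b := by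
  rcases h.ip a ha b hb with h1 | h1 | h1 | h1 | h1
  · rw [h.one a ha b hb h1]
    exact Q.refl _ _
  · exact step h ha hb h1 (by simp)
  · have hm : b ∈ ob a := by
      unfold ob
      rw [Finset.mem_filter]
      exact ⟨hb, by rw [real_inner_comm]; exact h1⟩
    obtain ⟨t, ht, h2, h3⟩ := exists_of_ncard (h.c12 a ha b hm) (by norm_num)
    refine (step h ha ht ?_ (by simp)).trans (step h ht hb h2 (by simp))
    rw [real_inner_comm]
    exact h3
  · exact neg_half h ha hb h1
  · have hne : (nb a).Nonempty := by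
      rw [← Finset.card_pos, h.c56 a ha]
      norm_num
    obtain ⟨t, ht⟩ := hne
    unfold nb at ht
    rw [Finset.mem_filter] at ht
    have h3 : b = -a := by
      have h4 : -b ∈ UE := h.neg b hb
      have h5 : (inner ℝ a (-b) : ℝ) = 1 := by
        rw [inner_neg_right, h1]; norm_num
      have h6 := h.one a ha (-b) h4 h5
      rw [h6, neg_neg]
    refine (step h ha ht.1 ?_ (by simp)).trans (neg_half h ht.1 hb ?_)
    · rw [real_inner_comm]; exact ht.2
    · rw [h3, inner_neg_right, ht.2]; norm_num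

include h in
theorem two_zero {a e e' : E} (ha : a ∈ UE) (he : e ∈ UE) (he' : e' ∈ UE)
    (hea : (inner ℝ e a : ℝ) = 1 / 2) (hea' : (inner ℝ e' a : ℝ) = 1 / 2)
    (h1 : (inner ℝ e e' : ℝ) = 0) : Q {a} e e' := by
  have haa : (inner ℝ a a : ℝ) = 1 := by
    rw [real_inner_self_eq_norm_sq, h.nrm a ha]; norm_num
  have hb1 := h.sub e' he' a ha hea'
  have hb : e + (e' - a) ∈ UE := by
    refine h.add e he _ hb1 ?_
    rw [inner_sub_right, h1, hea]; norm_num
  have hm : e ∈ ob e' := by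
    unfold ob
    rw [Finset.mem_filter]
    exact ⟨he, h1⟩
  have h12 := h.c12 e' he' e hm
  obtain ⟨f, hf, hfa, hfb⟩ : ∃ f, f ∈ {b : E | b ∈ UE ∧ (inner ℝ b e : ℝ) = 1 / 2 ∧
      (inner ℝ b e' : ℝ) = 1 / 2} ∧ f ≠ a ∧ f ≠ e + (e' - a) := by
    by_contra hx
    push Not at hx
    have hsub : {b : E | b ∈ UE ∧ (inner ℝ b e : ℝ) = 1 / 2 ∧
        (inner ℝ b e' : ℝ) = 1 / 2} ⊆ ({a, e + (e' - a)} : Set E) := by
      intro f hf
      by_cases hfa : f = a
      · left; exact hfa
      · right; exact hx f hf hfa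
    have h2 := Set.ncard_le_ncard hsub (Set.toFinite _)
    rw [h12] at h2
    have h3 : ({a, e + (e' - a)} : Set E).ncard ≤ 2 := by
      refine (Set.ncard_insert_le _ _).trans ?_
      rw [Set.ncard_singleton]
    omega
  obtain ⟨hfU, hfe, hfe'⟩ := hf
  have h2 := le_half h hfU ha hfa
  have h3 := le_half h hfU hb hfb
  have h4 : (inner ℝ f (e + (e' - a)) : ℝ) = 1 - inner ℝ f a := by
    rw [inner_add_right, inner_sub_right, hfe, hfe']; ring
  have h5 : (inner ℝ f a : ℝ) = 1 / 2 := by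
    rw [h4] at h3
    linarith
  refine (step h he hfU ?_ ?_).trans (step h hfU he' hfe' ?_)
  · rw [real_inner_comm]; exact hfe
  · intro z hz
    rw [Set.mem_singleton_iff] at hz
    rw [hz, real_inner_comm, hea, real_inner_comm, h5]
  · intro z hz
    rw [Set.mem_singleton_iff] at hz
    rw [hz, real_inner_comm, h5, real_inner_comm, hea']

include h in
theorem two' {a e e' : E} (ha : a ∈ UE) (he : e ∈ UE) (he' : e' ∈ UE)
    (hea : (inner ℝ e a : ℝ) = 1 / 2) (hea' : (inner ℝ e' a : ℝ) = 1 / 2) : Q {a} e e' := by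
  have haa : (inner ℝ a a : ℝ) = 1 := by
    rw [real_inner_self_eq_norm_sq, h.nrm a ha]; norm_num
  have hee : (inner ℝ e e : ℝ) = 1 := by
    rw [real_inner_self_eq_norm_sq, h.nrm e he]; norm_num
  have hee' : (inner ℝ e' e' : ℝ) = 1 := by
    rw [real_inner_self_eq_norm_sq, h.nrm e' he']; norm_num
  rcases h.ip e he e' he' with h1 | h1 | h1 | h1 | h1
  · rw [h.one e he e' he' h1]
    exact Q.refl _ _
  · refine step h he he' h1 ?_
    intro z hz
    rw [Set.mem_singleton_iff] at hz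
    rw [hz, real_inner_comm, hea, real_inner_comm, hea']
  · exact two_zero h ha he he' hea hea' h1
  · -- e' = a - e
    have h2 : e' = a - e := by
      have h3 : (inner ℝ (e' - (a - e)) (e' - (a - e)) : ℝ) = 0 := by
        simp only [inner_sub_left, inner_sub_right]
        rw [real_inner_comm e' e, real_inner_comm e' a, real_inner_comm e a] at *
        rw [haa, hee, hee', h1, hea, hea']
        norm_num
      exact sub_eq_zero.1 (inner_self_eq_zero.1 h3)
    have hm : e ∈ nb a := by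
      unfold nb
      rw [Finset.mem_filter]
      exact ⟨he, hea⟩
    obtain ⟨f, hfU, hfe, hfa⟩ := exists_of_ncard (h.c27 a ha e hm) (by norm_num)
    refine (step h he hfU ?_ ?_).trans (two_zero h ha hfU he' hfa hea' ?_)
    · rw [real_inner_comm]; exact hfe
    · intro z hz
      rw [Set.mem_singleton_iff] at hz
      rw [hz, real_inner_comm, hea, real_inner_comm, hfa]
    · rw [h2, inner_sub_right, hfa, hfe]; norm_num
  · exfalso
    have h4 : -e' ∈ UE := h.neg e' he'
    have h5 : (inner ℝ e (-e') : ℝ) = 1 := by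
      rw [inner_neg_right, h1]; norm_num
    have h6 := h.one e he (-e') h4 h5
    rw [h6, inner_neg_left, hea'] at hea
    norm_num at hea

end TRAM

/-- Transitivity. -/
theorem specTRA (hUEF : SpecUEF) : SpecTRA where
  one := by
    intro a ha b hb
    obtain ⟨T, hT, -, hab⟩ := TRAM.one' hUEF ha hb
    exact ⟨T, hT, hab⟩
  two := by
    intro a ha e he a' ha' e' he'
    unfold nb at he he'
    rw [Finset.mem_filter] at he he'
    obtain ⟨S, hS, -, hSa⟩ := TRAM.one' hUEF ha ha'
    have h1 : (inner ℝ (S e) a' : ℝ) = 1 / 2 := by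
      rw [← hSa, S.inner_map_map, he.2]
    obtain ⟨T, hT, hTa, hTe⟩ := TRAM.two' hUEF ha' (hS e he.1) he'.1 h1 he'.2
    refine ⟨S.trans T, fun f hf => ?_, ?_, ?_⟩
    · rw [LinearIsometryEquiv.trans_apply]
      exact hT _ (hS f hf)
    · rw [LinearIsometryEquiv.trans_apply, hSa]
      exact hTa a' rfl
    · rw [LinearIsometryEquiv.trans_apply, hTe]

end Pool.Agent.Lib.MP_f1379f_gt.FV
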