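import Pool.Agent.Lib.MP_f1379f_gt.FV.SpecO

/-! # Module V6B: the part of the wall inside the ball. -/

set_option autoImplicit false

namespace Pool.Agent.Lib.MP_f1379f_gt.FV

open MeasureTheory

namespace V6BM

/-- The 27 common neighbours. -/
noncomputable def B (e a : E) : Finset E := by
  classical
  exact UE.filter fun b => (inner ℝ b e : ℝ) = 1 / 2 ∧ (inner ℝ b a : ℝ) = 1 / 2

theorem mem_B (e a b : E) : b ∈ B e a ↔
    b ∈ UE ∧ (inner ℝ b e : ℝ) = 1 / 2 ∧ (inner ℝ b a : ℝ) = 1 / 2 := by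
  unfold B
  rw [Finset.mem_filter]

/-- The projection. -/
noncomputable def pr (e a b : E) : Sp e a := by
  classical
  exact if h : b - (1 / 3 : ℝ) • (e + a) ∈ Sp e a then ⟨_, h⟩ else 0

theorem mem_Sp (e a x : E) (h1 : (inner ℝ x e : ℝ) = 0) (h2 : (inner ℝ x a : ℝ) = 0) :
    x ∈ Sp e a := by
  unfold Sp
  rw [Submodule.mem_orthogonal']
  intro u hu
  rw [Submodule.mem_span_pair] at hu
  obtain ⟨s, t, rfl⟩ := hu
  rw [inner_add_right, real_inner_smul_right, real_inner_smul_right, h1, h2]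
  ring

theorem Sp_left (e a : E) (x : Sp e a) : (inner ℝ e (x : E) : ℝ) = 0 :=
  (Submodule.mem_orthogonal _ _).mp x.2 e (Submodule.subset_span (by simp))

theorem Sp_right (e a : E) (x : Sp e a) : (inner ℝ a (x : E) : ℝ) = 0 :=
  (Submodule.mem_orthogonal _ _).mp x.2 a (Submodule.subset_span (by simp))

theorem pr_coe (e a : E) (he : ‖e‖ = 1) (ha : ‖a‖ = 1) (hea : (inner ℝ e a : ℝ) = 1 / 2) (b : E)
    (hb : b ∈ B e a) : ((pr e a b : Sp e a) : E) = b - (1 / 3 : ℝ) • (e + a) := by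
  obtain ⟨_, hbe, hba⟩ := (mem_B e a b).mp hb
  have hae : (inner ℝ a e : ℝ) = 1 / 2 := by rw [real_inner_comm]; exact hea
  have h : b - (1 / 3 : ℝ) • (e + a) ∈ Sp e a := by
    apply mem_Sp
    · rw [inner_sub_left, real_inner_smul_left, inner_add_left, real_inner_self_eq_norm_sq, he,
        hae, hbe]
      norm_num
    · rw [inner_sub_left, real_inner_smul_left, inner_add_left, real_inner_self_eq_norm_sq, ha,
        hea, hba]
      norm_num
  unfold pr
  rw [dif_pos h]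

theorem pr_inner (e a : E) (he : ‖e‖ = 1) (ha : ‖a‖ = 1) (hea : (inner ℝ e a : ℝ) = 1 / 2)
    (b c : E) (hb : b ∈ B e a) (hc : c ∈ B e a) :
    (inner ℝ (pr e a b) (pr e a c) : ℝ) = (inner ℝ b c : ℝ) - 1 / 3 := by
  rw [Submodule.coe_inner, pr_coe e a he ha hea b hb, pr_coe e a he ha hea c hc]
  obtain ⟨_, hbe, hba⟩ := (mem_B e a b).mp hb
  obtain ⟨_, hce, hca⟩ := (mem_B e a c).mp hc
  have hae : (inner ℝ a e : ℝ) = 1 / 2 := by rw [real_inner_comm]; exact hea
  have hec : (inner ℝ e c : ℝ) = 1 / 2 := by rw [real_inner_comm]; exact hce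
  have hac : (inner ℝ a c : ℝ) = 1 / 2 := by rw [real_inner_comm]; exact hca
  have hee : (inner ℝ e e : ℝ) = 1 := by rw [real_inner_self_eq_norm_sq, he]; norm_num
  have haa : (inner ℝ a a : ℝ) = 1 := by rw [real_inner_self_eq_norm_sq, ha]; norm_num
  simp only [inner_sub_left, inner_sub_right, real_inner_smul_left, real_inner_smul_right,
    inner_add_left, inner_add_right, hee, haa, hea, hae, hec, hac, hbe, hba]
  ring

theorem pr_inner_right (e a : E) (he : ‖e‖ = 1) (ha : ‖a‖ = 1) (hea : (inner ℝ e a : ℝ) = 1 / 2)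
    (b : E) (hb : b ∈ B e a) (x : Sp e a) :
    (inner ℝ (pr e a b) x : ℝ) = (inner ℝ b (x : E) : ℝ) := by
  rw [Submodule.coe_inner, pr_coe e a he ha hea b hb, inner_sub_left, real_inner_smul_left,
    inner_add_left, Sp_left e a x, Sp_right e a x]
  ring

theorem pr_inj (e a : E) (he : ‖e‖ = 1) (ha : ‖a‖ = 1) (hea : (inner ℝ e a : ℝ) = 1 / 2)
    (b c : E) (hb : b ∈ B e a) (hc : c ∈ B e a) (h : pr e a b = pr e a c) : b = c := by
  have h1 : ((pr e a b : Sp e a) : E) = ((pr e a c : Sp e a) : E) := by rw [h]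
  rw [pr_coe e a he ha hea b hb, pr_coe e a he ha hea c hc] at h1
  exact sub_left_inj.mp h1

/-- The dimension of `Sp e a`. -/
theorem dim (e a : E) (he : ‖e‖ = 1) (ha : ‖a‖ = 1) (hea : (inner ℝ e a : ℝ) = 1 / 2) :
    Module.finrank ℝ (Sp e a) = 6 := by
  have hli : LinearIndependent ℝ ![e, a] := by
    rw [LinearIndependent.pair_iff]
    intro s t hst
    have h1 : (inner ℝ e (s • e + t • a) : ℝ) = 0 := by rw [hst, inner_zero_right]
    have h2 : (inner ℝ a (s • e + t • a) : ℝ) = 0 := by rw [hst, inner_zero_right]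
    have hae : (inner ℝ a e : ℝ) = 1 / 2 := by rw [real_inner_comm]; exact hea
    rw [inner_add_right, real_inner_smul_right, real_inner_smul_right,
      real_inner_self_eq_norm_sq, he, hea] at h1
    rw [inner_add_right, real_inner_smul_right, real_inner_smul_right,
      real_inner_self_eq_norm_sq, ha, hae] at h2
    constructor <;> linarith
  have hr : Set.range ![e, a] = {e, a} := by
    rw [Matrix.range_cons, Matrix.range_cons, Matrix.range_empty, Set.union_empty]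
    rfl
  have hfK : Module.finrank ℝ (Submodule.span ℝ {e, a}) = 2 := by
    rw [← hr, finrank_span_eq_card hli, Fintype.card_fin]
  have h1 := Submodule.finrank_add_finrank_orthogonal (Submodule.span ℝ {e, a})
  have h8 : Module.finrank ℝ E = 8 := by simp [E]
  rw [hfK, h8] at h1
  show Module.finrank ℝ (Submodule.span ℝ {e, a})ᗮ = 6
  omega

/-- The inner products of the 27 vectors. -/
theorem ip27 (hUEF : SpecUEF) (e a : E) (hea : (inner ℝ e a : ℝ) = 1 / 2)
    (heU : e ∈ UE) (haU : a ∈ UE) (b c : E) (hb : b ∈ B e a) (hc : c ∈ B e a) (hne : b ≠ c) :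
    (inner ℝ b c : ℝ) = 1 / 2 ∨ (inner ℝ b c : ℝ) = 0 := by
  obtain ⟨hbU, hbe, hba⟩ := (mem_B e a b).mp hb
  obtain ⟨hcU, hce, hca⟩ := (mem_B e a c).mp hc
  rcases hUEF.ip b hbU c hcU with h | h | h | h | h
  · exact absurd (hUEF.one b hbU c hcU h) hne
  · exact Or.inl h
  · exact Or.inr h
  · exfalso
    have h1 := hUEF.add b hbU c hcU h
    have h2 : b + c = e := hUEF.one _ h1 e heU (by rw [inner_add_left, hbe, hce]; norm_num)
    have h3 : b + c = a := hUEF.one _ h1 a haU (by rw [inner_add_left, hba, hca]; norm_num)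
    have h4 : e = a := by rw [← h2, h3]
    rw [h4, real_inner_self_eq_norm_sq, hUEF.nrm a haU] at hea
    norm_num at hea
  · exfalso
    have h1 : ‖b + c‖ ^ 2 = 0 := by
      rw [norm_add_sq_real, hUEF.nrm b hbU, hUEF.nrm c hcU, h]
      norm_num
    have h2 : b + c = 0 := by
      rw [← norm_eq_zero]
      exact pow_eq_zero_iff (two_ne_zero) |>.mp h1
    have h3 : (inner ℝ (b + c) e : ℝ) = 1 := by rw [inner_add_left, hbe, hce]; norm_num
    rw [h2, inner_zero_left] at h3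
    norm_num at h3

end V6BM

open V6BM in
/-- V6B. -/
theorem specV6B (hUEF : SpecUEF) (hV6G : SpecV6G) : SpecV6B := by
  classical
  intro a haU e heN
  have heU : e ∈ UE := (Finset.mem_filter.mp heN).1
  have hea : (inner ℝ e a : ℝ) = 1 / 2 := (Finset.mem_filter.mp heN).2
  have he : ‖e‖ = 1 := hUEF.nrm e heU
  have ha : ‖a‖ = 1 := hUEF.nrm a haU
  have h6 : Module.finrank ℝ (Sp e a) = 6 := dim e a he ha hea
  obtain ⟨L⟩ : Nonempty (Sp e a ≃ₗᵢ[ℝ] E6) :=
    ⟨((stdOrthonormalBasis ℝ (Sp e a)).reindex (finCongr h6)).repr⟩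
  have hinj : Set.InjOn (fun b => L (pr e a b)) (B e a : Set E) := by
    intro b hb c hc h
    exact pr_inj e a he ha hea b c hb hc (L.injective h)
  have hB27 : (B e a).card = 27 := by
    have h1 := hUEF.c27 a haU e heN
    have h2 : {b : E | b ∈ UE ∧ (inner ℝ b e : ℝ) = 1 / 2 ∧ (inner ℝ b a : ℝ) = 1 / 2} =
        (B e a : Set E) := by
      ext b
      rw [Set.mem_ofPred_eq, Finset.mem_coe, mem_B]
    rw [h2, Set.ncard_coe_finset] at h1
    exact h1
  let X : Finset E6 := (B e a).image fun b => L (pr e a b)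
  have hX : ∀ w : E6, w ∈ X ↔ ∃ b ∈ B e a, L (pr e a b) = w := fun w => Finset.mem_image
  have hXin : ∀ b c : E, b ∈ B e a → c ∈ B e a →
      (inner ℝ (L (pr e a b)) (L (pr e a c)) : ℝ) = (inner ℝ b c : ℝ) - 1 / 3 := by
    intro b c hb hc
    rw [L.inner_map_map, pr_inner e a he ha hea b c hb hc]
  have h1 : ∀ w ∈ X, ‖w‖ ^ 2 = 2 / 3 := by
    intro w hw
    obtain ⟨b, hb, rfl⟩ := (hX w).mp hw
    rw [← real_inner_self_eq_norm_sq, hXin b b hb hb, real_inner_self_eq_norm_sq,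
      hUEF.nrm b ((mem_B e a b).mp hb).1]
    norm_num
  have h2 : ∀ w ∈ X, ∀ v ∈ X, w ≠ v → (inner ℝ w v : ℝ) = 1 / 6 ∨ (inner ℝ w v : ℝ) = -1 / 3 := by
    intro w hw v hv hne
    obtain ⟨b, hb, rfl⟩ := (hX w).mp hw
    obtain ⟨c, hc, rfl⟩ := (hX v).mp hv
    rw [hXin b c hb hc]
    have hbc : b ≠ c := fun h => hne (by rw [h])
    rcases ip27 hUEF e a hea heU haU b c hb hc hbc with h | h
    · left
      rw [h]
      norm_num
    · right
      rw [h]
      norm_num
  have h3 : X.card = 27 := by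
    rw [Finset.card_image_of_injOn hinj, hB27]
  have h4 : ∀ w ∈ X, ({v : E6 | v ∈ X ∧ (inner ℝ w v : ℝ) = 1 / 6}).ncard = 16 := by
    intro w hw
    obtain ⟨b, hb, rfl⟩ := (hX w).mp hw
    obtain ⟨hbU, hbe, hba⟩ := (mem_B e a b).mp hb
    have h5 := hUEF.c16 a haU e heN b hbU hbe hba
    rw [← h5]
    have h6 : {v : E6 | v ∈ X ∧ (inner ℝ (L (pr e a b)) v : ℝ) = 1 / 6} =
        (fun c => L (pr e a c)) '' {c : E | c ∈ UE ∧ (inner ℝ c e : ℝ) = 1 / 2 ∧
          (inner ℝ c a : ℝ) = 1 / 2 ∧ (inner ℝ c b : ℝ) = 1 / 2} := by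
      ext v
      constructor
      · rintro ⟨hv, hv2⟩
        obtain ⟨c, hc, rfl⟩ := (hX v).mp hv
        obtain ⟨hcU, hce, hca⟩ := (mem_B e a c).mp hc
        rw [hXin b c hb hc] at hv2
        refine ⟨c, ⟨hcU, hce, hca, ?_⟩, rfl⟩
        rw [real_inner_comm]
        linarith
      · rintro ⟨c, ⟨hcU, hce, hca, hcb⟩, rfl⟩
        have hc : c ∈ B e a := (mem_B e a c).mpr ⟨hcU, hce, hca⟩
        refine ⟨(hX _).mpr ⟨c, hc, rfl⟩, ?_⟩
        show (inner ℝ (L (pr e a b)) (L (pr e a c)) : ℝ) = 1 / 6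
        rw [hXin b c hb hc, real_inner_comm, hcb]
        norm_num
    rw [h6]
    apply Set.InjOn.ncard_image
    intro c hc d hd h
    exact hinj ((mem_B e a c).mpr ⟨hc.1, hc.2.1, hc.2.2.1⟩)
      ((mem_B e a d).mpr ⟨hd.1, hd.2.1, hd.2.2.1⟩) h
  have hmain := hV6G X h1 h2 h3 h4
  refine le_trans hmain ?_
  have hms : MeasurableSet {x : E6 | (∀ w ∈ X, (inner ℝ w x : ℝ) ≤ 1 / 3) ∧ ‖x‖ ^ 2 ≤ 1 / 3} := by
    have h7 : {x : E6 | (∀ w ∈ X, (inner ℝ w x : ℝ) ≤ 1 / 3) ∧ ‖x‖ ^ 2 ≤ 1 / 3} =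
        (⋂ w ∈ X, {x : E6 | (inner ℝ w x : ℝ) ≤ 1 / 3}) ∩ {x : E6 | ‖x‖ ^ 2 ≤ 1 / 3} := by
      ext x
      simp only [Set.mem_ofPred_eq, Set.mem_inter_iff, Set.mem_iInter]
    rw [h7]
    refine MeasurableSet.inter ?_ ?_
    · refine Finset.measurableSet_biInter X fun w _ => ?_
      exact (isClosed_le (continuous_const.inner continuous_id) continuous_const).measurableSet
    · exact (isClosed_le (continuous_norm.pow 2) continuous_const).measurableSet
  have hpre := L.measurePreserving.measure_preimage hms.nullMeasurableSet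
  rw [← hpre]
  apply measure_mono
  rintro x ⟨hx1, hx2⟩
  refine ⟨?_, ?_⟩
  · intro b hbU hbe hba
    have hb : b ∈ B e a := (mem_B e a b).mpr ⟨hbU, hbe, hba⟩
    have h8 := hx1 (L (pr e a b)) ((hX _).mpr ⟨b, hb, rfl⟩)
    rw [L.inner_map_map, pr_inner_right e a he ha hea b hb x] at h8
    exact h8
  · rw [L.norm_map] at hx2
    exact hx2

end Pool.Agent.Lib.MP_f1379f_gt.FV
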