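import Pool.Agent.Lib.MP_f1379f_gt.FV.Defs
import Pool.Agent.Lib.MP_f1379f_gt.FV.PWB
import Pool.Agent.Lib.MP_f1379f_gt.FV.PWH
import Pool.Agent.Lib.MP_f1379f_gt.FV.SpecS4

section
/-!
# QVA: slicing with four dimensional fibres
-/
set_option autoImplicit false
set_option linter.unusedSimpArgs false

namespace Pool.Agent.Lib.MP_f1379f_gt.FV.QV

open MeasureTheory Real

/-- Euclidean 4-space. -/
abbrev E4 := EuclideanSpace ℝ (Fin 4)

/-- Volume of balls in dimension 4. -/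
theorem vol_E4 (t : ℝ) :
    volume {w : E4 | ‖w‖ ^ 2 < t} = ENNReal.ofReal (π ^ 2 / 2 * (max 0 t) ^ 2) := by
  have hs : {w : E4 | ‖w‖ ^ 2 < t} = Metric.ball (0 : E4) (√(max 0 t)) := by
    ext w
    simp only [Set.mem_ofPred_eq, mem_ball_zero_iff]
    rw [Real.lt_sqrt (norm_nonneg _)]
    constructor
    · intro h; exact lt_of_lt_of_le h (le_max_right _ _)
    · intro h
      rcases lt_or_ge t 0 with h0 | h0
      · rw [max_eq_left h0.le] at h
        exact absurd h (not_lt.mpr (sq_nonneg _))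
      · rwa [max_eq_right h0] at h
  rw [hs, EuclideanSpace.volume_ball, Fintype.card_fin, ← ENNReal.ofReal_pow (Real.sqrt_nonneg _),
    ← ENNReal.ofReal_mul (by positivity)]
  congr 1
  have h1 : √(max 0 t) ^ 4 = (max 0 t) ^ 2 := by
    rw [show (4 : ℕ) = 2 * 2 by norm_num, pow_mul, Real.sq_sqrt (le_max_left _ _)]
  have h2 : √π ^ 4 = π ^ 2 := by
    rw [show (4 : ℕ) = 2 * 2 by norm_num, pow_mul, Real.sq_sqrt Real.pi_pos.le]
  have h3 : Real.Gamma ((4 : ℕ) / 2 + 1) = 2 := by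
    have : ((4 : ℕ) / 2 + 1 : ℝ) = ((2 : ℕ) : ℝ) + 1 := by norm_num
    rw [this, Real.Gamma_nat_eq_factorial]
    norm_num [Nat.factorial]
  rw [h1, h2, h3]
  ring

/-- An orthonormal family extends to an isometry. -/
theorem exists_isok {n k : ℕ} (hn : n = k + 4) (f : Fin k → EuclideanSpace ℝ (Fin n))
    (hf : Orthonormal ℝ f) :
    ∃ φ : EuclideanSpace ℝ (Fin n) ≃ₗᵢ[ℝ] WithLp 2 (EuclideanSpace ℝ (Fin k) × E4),
      ∀ i, φ (f i) = WithLp.toLp 2 (EuclideanSpace.single i (1 : ℝ), (0 : E4)) := by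
  classical
  let v : Fin k ⊕ Fin 4 → EuclideanSpace ℝ (Fin n) := Sum.elim f (fun _ => 0)
  let s : Set (Fin k ⊕ Fin 4) := Set.range Sum.inl
  have hv : Orthonormal ℝ (s.domRestrict v) := by
    rw [orthonormal_iff_ite]
    rw [orthonormal_iff_ite] at hf
    rintro ⟨i, hi⟩ ⟨j, hj⟩
    obtain ⟨i', rfl⟩ := id hi
    obtain ⟨j', rfl⟩ := id hj
    simp only [v, Set.domRestrict, Sum.elim_inl, hf i' j']
    by_cases hij : i' = j'
    · subst hij
      simp
    · have hne : (⟨Sum.inl i', hi⟩ : s) ≠ ⟨Sum.inl j', hj⟩ := by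
        intro h
        exact hij (Sum.inl_injective (congrArg Subtype.val h))
      rw [if_neg hij, if_neg hne]
  obtain ⟨b, hb⟩ := hv.exists_orthonormalBasis_extension_of_card_eq (by simp [hn])
  have hb0 : ∀ i, b (Sum.inl i) = f i := by
    intro i
    have := hb (Sum.inl i) ⟨i, rfl⟩
    simpa [v] using this
  let b' : OrthonormalBasis (Fin k ⊕ Fin 4) ℝ (WithLp 2 (EuclideanSpace ℝ (Fin k) × E4)) :=
    (EuclideanSpace.basisFun (Fin k) ℝ).prod (EuclideanSpace.basisFun (Fin 4) ℝ)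
  refine ⟨b.equiv b' (Equiv.refl _), ?_⟩
  intro i
  rw [← hb0, OrthonormalBasis.equiv_apply_basis]
  refine (OrthonormalBasis.prod_apply _ _ _).trans ?_
  simp

/-- Slicing formula. -/
theorem slice_vol {n k : ℕ} (hn : n = k + 4) (f : Fin k → EuclideanSpace ℝ (Fin n))
    (hf : Orthonormal ℝ f) (R : ℝ) (A : Set (Fin k → ℝ)) (hA : MeasurableSet A) :
    volume {y : EuclideanSpace ℝ (Fin n) | (fun i => (inner ℝ (f i) y : ℝ)) ∈ A ∧ ‖y‖ ^ 2 < R} =
      ∫⁻ p in A, ENNReal.ofReal (π ^ 2 / 2 * (max 0 (R - ∑ i, p i ^ 2)) ^ 2) := by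
  obtain ⟨φ, hφ⟩ := exists_isok hn f hf
  let T' : Set ((Fin k → ℝ) × E4) := {q | q.1 ∈ A ∧ ∑ i, q.1 i ^ 2 + ‖q.2‖ ^ 2 < R}
  have hT' : MeasurableSet T' := by
    have m1 : Measurable (fun q : (Fin k → ℝ) × E4 => ∑ i, q.1 i ^ 2 + ‖q.2‖ ^ 2) := by
      fun_prop
    exact (measurable_fst hA).inter (measurableSet_lt m1 measurable_const)
  have hmp : MeasurePreserving (fun y : EuclideanSpace ℝ (Fin n) =>
      ((WithLp.ofLp (WithLp.ofLp (φ y)).1 : Fin k → ℝ), ((WithLp.ofLp (φ y)).2 : E4)))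
      volume volume := by
    have m1 : MeasurePreserving (fun y : EuclideanSpace ℝ (Fin n) => WithLp.ofLp (φ y))
        volume volume :=
      (WithLp.volume_preserving_ofLp (EuclideanSpace ℝ (Fin k)) E4).comp φ.measurePreserving
    have m2 : MeasurePreserving (Prod.map
        (fun p : EuclideanSpace ℝ (Fin k) => (WithLp.ofLp p : Fin k → ℝ)) (id : E4 → E4))
        volume volume :=
      (PiLp.volume_preserving_ofLp (Fin k)).prod (MeasurePreserving.id _)
    exact m2.comp m1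
  have hpre : {y : EuclideanSpace ℝ (Fin n) | (fun i => (inner ℝ (f i) y : ℝ)) ∈ A ∧
      ‖y‖ ^ 2 < R} = (fun y : EuclideanSpace ℝ (Fin n) =>
      ((WithLp.ofLp (WithLp.ofLp (φ y)).1 : Fin k → ℝ), ((WithLp.ofLp (φ y)).2 : E4))) ⁻¹' T' := by
    ext y
    have h1 : ‖y‖ ^ 2 = ∑ i, (WithLp.ofLp (WithLp.ofLp (φ y)).1) i ^ 2 +
        ‖(WithLp.ofLp (φ y)).2‖ ^ 2 := by
      rw [← φ.norm_map y, WithLp.prod_norm_sq_eq_of_L2, EuclideanSpace.norm_sq_eq]
      simp only [Real.norm_eq_abs, sq_abs]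
      rfl
    have h2 : (fun i => (inner ℝ (f i) y : ℝ)) = WithLp.ofLp (WithLp.ofLp (φ y)).1 := by
      funext i
      rw [← φ.inner_map_map, hφ i, WithLp.prod_inner_apply]
      simp [EuclideanSpace.inner_single_left]
    simp only [Set.mem_preimage, Set.mem_ofPred_eq, T']
    rw [h1, h2]
  rw [hpre, hmp.measure_preimage hT'.nullMeasurableSet, Measure.volume_eq_prod,
    Measure.prod_apply hT', ← lintegral_indicator hA]
  apply lintegral_congr
  intro p
  by_cases hp : p ∈ A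
  · rw [Set.indicator_of_mem hp, ← vol_E4]
    congr 1
    ext w
    simp only [Set.mem_preimage, Set.mem_ofPred_eq, T']
    constructor
    · intro h; linarith [h.2]
    · intro h; exact ⟨hp, by linarith⟩
  · rw [Set.indicator_of_notMem hp]
    have : Prod.mk p ⁻¹' T' = ∅ := by
      ext w
      simp only [Set.mem_preimage, Set.mem_ofPred_eq, T', Set.mem_empty_iff_false, iff_false]
      intro h
      exact hp h.1
    rw [this, measure_empty]

/-- Linear change of variables. -/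
theorem lin_change {k : ℕ} (M : Matrix (Fin k) (Fin k) ℝ) (hM : M.det ≠ 0)
    (F : (Fin k → ℝ) → ENNReal) (hF : Measurable F) :
    ∫⁻ p, F (Matrix.toLin' M p) = ENNReal.ofReal |(M.det)⁻¹| * ∫⁻ z, F z := by
  have h := Real.map_matrix_volume_pi_eq_smul_volume_pi hM
  have hm : Measurable (Matrix.toLin' M : (Fin k → ℝ) → (Fin k → ℝ)) :=
    (LinearMap.continuous_of_finiteDimensional _).measurable
  rw [← lintegral_map hF hm, h, lintegral_smul_measure, smul_eq_mul]

/-- Splitting off the first coordinate. -/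
theorem it_succ {n : ℕ} (F : (Fin (n + 1) → ℝ) → ENNReal) (hF : Measurable F) :
    ∫⁻ z, F z = ∫⁻ t : ℝ, ∫⁻ z' : Fin n → ℝ, F (Fin.cons t z') := by
  have hp := volume_preserving_piFinSuccAbove (fun _ : Fin (n + 1) => ℝ) 0
  have h1 := hp.symm.lintegral_comp hF
  rw [← h1, Measure.volume_eq_prod, lintegral_prod]
  · apply lintegral_congr
    intro t
    apply lintegral_congr
    intro z'
    congr 1
    exact Fin.insertNth_zero' t z'
  · exact (hF.comp (MeasurableEquiv.measurable _)).aemeasurable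

theorem it_zero (F : (Fin 0 → ℝ) → ENNReal) : ∫⁻ z, F z = F ![] := by
  rw [Measure.volume_pi_eq_dirac (![] : Fin 0 → ℝ), lintegral_dirac]

/-- Two variables. -/
theorem it_two (F : (Fin 2 → ℝ) → ENNReal) (hF : Measurable F) :
    ∫⁻ z, F z = ∫⁻ a : ℝ, ∫⁻ b : ℝ, F ![a, b] := by
  rw [it_succ F hF]
  apply lintegral_congr
  intro a
  rw [it_succ (fun z' => F (Fin.cons a z'))]
  · apply lintegral_congr
    intro b
    rw [it_zero]
    rfl
  · apply hF.comp
    fun_prop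

/-- Four variables. -/
theorem it_four (F : (Fin 4 → ℝ) → ENNReal) (hF : Measurable F) :
    ∫⁻ z, F z = ∫⁻ a : ℝ, ∫⁻ b : ℝ, ∫⁻ c : ℝ, ∫⁻ d : ℝ, F ![a, b, c, d] := by
  rw [it_succ F hF]
  apply lintegral_congr
  intro a
  rw [it_succ (fun z' => F (Fin.cons a z'))]
  · apply lintegral_congr
    intro b
    rw [it_two (fun z' => F (Fin.cons a (Fin.cons b z')))]
    · rfl
    · apply hF.comp
      fun_prop
  · apply hF.comp
    fun_prop

end Pool.Agent.Lib.MP_f1379f_gt.FV.QV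
end

section
/-!
# QVB: pairing of variables and Jensen's inequality on slices
-/
set_option autoImplicit false
set_option linter.unusedSimpArgs false

namespace Pool.Agent.Lib.MP_f1379f_gt.FV.QV

open MeasureTheory Real

/-- Pairing two positive variables. -/
theorem pairing (F : ℝ → ℝ → ENNReal) (hF : Measurable (fun p : ℝ × ℝ => F p.1 p.2)) :
    ∫⁻ x in Set.Ioi (0 : ℝ), ∫⁻ y in Set.Ioi (0 : ℝ), F x y =
      ∫⁻ u in Set.Ioi (0 : ℝ), ∫⁻ x in Set.Ioo (0 : ℝ) u, F x (u - x) := by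
  have hG : Measurable (fun p : ℝ × ℝ => if 0 < p.1 ∧ 0 < p.2 - p.1 then F p.1 (p.2 - p.1)
      else 0) := by
    apply Measurable.ite
    · exact (measurableSet_lt measurable_const measurable_fst).inter
        (measurableSet_lt measurable_const (measurable_snd.sub measurable_fst))
    · exact hF.comp (measurable_fst.prodMk (measurable_snd.sub measurable_fst))
    · exact measurable_const
  have e1 : ∫⁻ x in Set.Ioi (0 : ℝ), ∫⁻ y in Set.Ioi (0 : ℝ), F x y =
      ∫⁻ x : ℝ, ∫⁻ u : ℝ, if 0 < x ∧ 0 < u - x then F x (u - x) else 0 := by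
    rw [← lintegral_indicator measurableSet_Ioi]
    apply lintegral_congr
    intro x
    have h2 := lintegral_sub_right_eq_self (μ := (volume : Measure ℝ))
      (fun y => if 0 < x ∧ 0 < y then F x y else 0) x
    rw [h2]
    by_cases hx : 0 < x
    · rw [Set.indicator_of_mem (show x ∈ Set.Ioi (0 : ℝ) from hx),
        ← lintegral_indicator measurableSet_Ioi]
      apply lintegral_congr
      intro y
      by_cases hy : 0 < y
      · rw [Set.indicator_of_mem (show y ∈ Set.Ioi (0 : ℝ) from hy), if_pos ⟨hx, hy⟩]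
      · rw [Set.indicator_of_notMem (show y ∉ Set.Ioi (0 : ℝ) from hy),
          if_neg (fun h => hy h.2)]
    · rw [Set.indicator_of_notMem (show x ∉ Set.Ioi (0 : ℝ) from hx)]
      symm
      rw [lintegral_congr (g := fun _ => 0)]
      · simp
      · intro y
        exact if_neg (fun h => hx h.1)
  rw [e1, lintegral_lintegral_swap hG.aemeasurable, ← lintegral_indicator measurableSet_Ioi]
  apply lintegral_congr
  intro u
  by_cases hu : 0 < u
  · rw [Set.indicator_of_mem (show u ∈ Set.Ioi (0 : ℝ) from hu),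
      ← lintegral_indicator measurableSet_Ioo]
    apply lintegral_congr
    intro x
    by_cases hx : x ∈ Set.Ioo 0 u
    · rw [Set.indicator_of_mem hx, if_pos ⟨hx.1, by linarith [hx.2]⟩]
    · rw [Set.indicator_of_notMem hx, if_neg]
      rintro ⟨h1, h2⟩
      exact hx ⟨h1, by linarith⟩
  · rw [Set.indicator_of_notMem (show u ∉ Set.Ioi (0 : ℝ) from hu)]
    rw [lintegral_congr (g := fun _ => 0)]
    · simp
    · intro x
      apply if_neg
      rintro ⟨h1, h2⟩
      exact hu (by linarith)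

/-- Jensen's inequality for `x ↦ (x_+)^2` on an interval. -/
theorem jensen (u W m : ℝ) (hu : 0 ≤ u) (w f : ℝ → ℝ) (hw : Continuous w) (hf : Continuous f)
    (hw0 : ∀ x ∈ Set.Icc 0 u, 0 ≤ w x) (hW : ∫ x in (0 : ℝ)..u, w x = W)
    (hM : ∫ x in (0 : ℝ)..u, w x * f x = W * m) :
    ENNReal.ofReal (W * (max 0 m) ^ 2) ≤
      ∫⁻ x in Set.Ioo (0 : ℝ) u, ENNReal.ofReal (w x * (max 0 (f x)) ^ 2) := by
  have hc1 : Continuous (fun x => w x * (max 0 (f x)) ^ 2) := by fun_prop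
  have hc2 : Continuous (fun x => w x * f x) := by fun_prop
  rw [setLIntegral_congr Ioo_ae_eq_Ioc, ← ofReal_integral_eq_lintegral_ofReal,
    ← intervalIntegral.integral_of_le hu]
  · apply ENNReal.ofReal_le_ofReal
    have h1 : ∫ x in (0 : ℝ)..u, (2 * max 0 m * (w x * f x) - (max 0 m) ^ 2 * w x) ≤
        ∫ x in (0 : ℝ)..u, w x * (max 0 (f x)) ^ 2 := by
      apply intervalIntegral.integral_mono_on hu
      · exact ((hc2.const_mul _).sub (hw.const_mul _)).intervalIntegrable _ _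
      · exact hc1.intervalIntegrable _ _
      · intro x hx
        have h2 := hw0 x hx
        have h3 : f x ≤ max 0 (f x) := le_max_right _ _
        have h4 : 0 ≤ max 0 m := le_max_left _ _
        have h5 : 2 * max 0 m * f x - (max 0 m) ^ 2 ≤ (max 0 (f x)) ^ 2 := by
          nlinarith [sq_nonneg (max 0 (f x) - max 0 m), mul_le_mul_of_nonneg_left h3 h4]
        have h6 := mul_le_mul_of_nonneg_left h5 h2
        linarith
    have e : ∫ x in (0 : ℝ)..u, (2 * max 0 m * (w x * f x) - (max 0 m) ^ 2 * w x) =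
        2 * max 0 m * (W * m) - (max 0 m) ^ 2 * W := by
      rw [intervalIntegral.integral_sub ((hc2.const_mul _).intervalIntegrable _ _)
        ((hw.const_mul _).intervalIntegrable _ _), intervalIntegral.integral_const_mul,
        intervalIntegral.integral_const_mul, hW, hM]
    rw [e] at h1
    refine le_trans (le_of_eq ?_) h1
    rcases le_total m 0 with h | h
    · rw [max_eq_left h]; ring
    · rw [max_eq_right h]; ring
  · exact hc1.integrableOn_Ioc
  · rw [Filter.EventuallyLE, ae_restrict_iff' measurableSet_Ioc]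
    refine Filter.Eventually.of_forall fun x hx => ?_
    have := hw0 x ⟨hx.1.le, hx.2⟩
    simp only [Pi.zero_apply]
    positivity

/-- Integrals of quartic polynomials. -/
theorem int_poly (u a0 a1 a2 a3 a4 : ℝ) :
    ∫ x in (0 : ℝ)..u, (a0 + a1 * x + a2 * x ^ 2 + a3 * x ^ 3 + a4 * x ^ 4) =
      a0 * u + a1 * u ^ 2 / 2 + a2 * u ^ 3 / 3 + a3 * u ^ 4 / 4 + a4 * u ^ 5 / 5 := by
  have hd : ∀ x ∈ Set.uIcc 0 u, HasDerivAt (fun x : ℝ => a0 * x + a1 * x ^ 2 / 2 +
      a2 * x ^ 3 / 3 + a3 * x ^ 4 / 4 + a4 * x ^ 5 / 5)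
      (a0 + a1 * x + a2 * x ^ 2 + a3 * x ^ 3 + a4 * x ^ 4) x := by
    intro x _
    have hx := hasDerivAt_id x
    have h := ((((hx.const_mul a0).add (((hx.pow 2).const_mul a1).div_const 2)).add
      (((hx.pow 3).const_mul a2).div_const 3)).add (((hx.pow 4).const_mul a3).div_const 4)).add
      (((hx.pow 5).const_mul a4).div_const 5)
    refine h.congr_deriv ?_
    simp only [id]
    push_cast
    ring
  rw [intervalIntegral.integral_eq_sub_of_hasDerivAt hd]
  · ring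
  · exact (by fun_prop : Continuous _).intervalIntegrable _ _

/-- Restricting a nonnegative integral to `(0, s)`. -/
theorem restrict_le (s : ℝ) (hs : 0 ≤ s) (g : ℝ → ℝ) (hg : Continuous g)
    (hg0 : ∀ x ∈ Set.Icc 0 s, 0 ≤ g x) (G : ℝ → ENNReal)
    (hG : ∀ x ∈ Set.Ioo 0 s, ENNReal.ofReal (g x) ≤ G x) :
    ENNReal.ofReal (∫ x in (0 : ℝ)..s, g x) ≤ ∫⁻ x in Set.Ioi (0 : ℝ), G x := by
  rw [intervalIntegral.integral_of_le hs, ofReal_integral_eq_lintegral_ofReal]
  · rw [← setLIntegral_congr Ioo_ae_eq_Ioc]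
    calc ∫⁻ x in Set.Ioo (0 : ℝ) s, ENNReal.ofReal (g x)
        ≤ ∫⁻ x in Set.Ioo (0 : ℝ) s, G x := setLIntegral_mono' measurableSet_Ioo hG
      _ ≤ ∫⁻ x in Set.Ioi (0 : ℝ), G x := lintegral_mono_set (fun x hx => hx.1)
  · exact hg.integrableOn_Ioc
  · rw [Filter.EventuallyLE, ae_restrict_iff' measurableSet_Ioc]
    refine Filter.Eventually.of_forall fun x hx => ?_
    exact hg0 x ⟨hx.1.le, hx.2⟩

end Pool.Agent.Lib.MP_f1379f_gt.FV.QV
end

section
/-!
# QVC: lower bound for the four dimensional orthant integral of the quadruple volume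
-/
set_option autoImplicit false
set_option linter.unusedSimpArgs false

namespace Pool.Agent.Lib.MP_f1379f_gt.FV.QV

open MeasureTheory Real

/-- The profile. -/
noncomputable def P4 (a b c d : ℝ) : ℝ := 1 / 15 - 4 / 5 * (a + b + c + d) -
  2 * (a ^ 2 + b ^ 2 + c ^ 2 + d ^ 2) + 2 / 5 * (a + b + c + d) ^ 2

/-- First average. -/
noncomputable def m1 (a b v : ℝ) : ℝ := 1 / 15 - 4 / 5 * (a + b + v) -
  2 * (a ^ 2 + b ^ 2) - 4 / 3 * v ^ 2 + 2 / 5 * (a + b + v) ^ 2

/-- Second average. -/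
noncomputable def m2 (u v : ℝ) : ℝ := 1 / 15 - 4 / 5 * (u + v) -
  4 / 3 * (u ^ 2 + v ^ 2) + 2 / 5 * (u + v) ^ 2

/-- Third average. -/
noncomputable def m3 (s : ℝ) : ℝ := 1 / 15 - 4 / 5 * s - 2 / 5 * s ^ 2

theorem step1 (K a b v : ℝ) (hK : 0 ≤ K) (hv : 0 ≤ v) :
    ENNReal.ofReal (K * v * (max 0 (m1 a b v)) ^ 2) ≤
      ∫⁻ x in Set.Ioo (0 : ℝ) v, ENNReal.ofReal (K * (max 0 (P4 a b x (v - x))) ^ 2) := by
  apply jensen v (K * v) (m1 a b v) hv (fun _ => K) (fun x => P4 a b x (v - x))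
    continuous_const (by unfold P4; fun_prop) (fun _ _ => hK)
  · rw [intervalIntegral.integral_const, smul_eq_mul]
    ring
  · have e : (fun x : ℝ => K * P4 a b x (v - x)) = fun x : ℝ =>
        (K * (1 / 15 - 4 / 5 * (a + b + v) - 2 * (a ^ 2 + b ^ 2) - 2 * v ^ 2 +
          2 / 5 * (a + b + v) ^ 2)) + (K * (4 * v)) * x + (K * (-4)) * x ^ 2 + 0 * x ^ 3 +
          0 * x ^ 4 := by
      funext x
      unfold P4
      ring
    rw [e, int_poly]
    unfold m1
    ring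

theorem step2 (K u v : ℝ) (hK : 0 ≤ K) (hu : 0 ≤ u) (hv : 0 ≤ v) :
    ENNReal.ofReal (K * v * u * (max 0 (m2 u v)) ^ 2) ≤
      ∫⁻ x in Set.Ioo (0 : ℝ) u, ENNReal.ofReal (K * v * (max 0 (m1 x (u - x) v)) ^ 2) := by
  apply jensen u (K * v * u) (m2 u v) hu (fun _ => K * v) (fun x => m1 x (u - x) v)
    continuous_const (by unfold m1; fun_prop) (fun _ _ => by positivity)
  · rw [intervalIntegral.integral_const, smul_eq_mul]
    ring
  · have e : (fun x : ℝ => K * v * m1 x (u - x) v) = fun x : ℝ =>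
        (K * v * (1 / 15 - 4 / 5 * (u + v) - 2 * u ^ 2 - 4 / 3 * v ^ 2 +
          2 / 5 * (u + v) ^ 2)) + (K * v * (4 * u)) * x + (K * v * (-4)) * x ^ 2 + 0 * x ^ 3 +
          0 * x ^ 4 := by
      funext x
      unfold m1
      ring
    rw [e, int_poly]
    unfold m2
    ring

theorem step3 (K s : ℝ) (hK : 0 ≤ K) (hs : 0 ≤ s) :
    ENNReal.ofReal (K * s ^ 3 / 6 * (max 0 (m3 s)) ^ 2) ≤
      ∫⁻ x in Set.Ioo (0 : ℝ) s,
        ENNReal.ofReal (K * (s - x) * x * (max 0 (m2 x (s - x))) ^ 2) := by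
  apply jensen s (K * s ^ 3 / 6) (m3 s) hs (fun x => K * (s - x) * x) (fun x => m2 x (s - x))
    (by fun_prop) (by unfold m2; fun_prop)
    (fun x hx => mul_nonneg (mul_nonneg hK (by linarith [hx.2])) hx.1)
  · have e : (fun x : ℝ => K * (s - x) * x) = fun x : ℝ =>
        0 + (K * s) * x + (-K) * x ^ 2 + 0 * x ^ 3 + 0 * x ^ 4 := by
      funext x; ring
    rw [e, int_poly]
    ring
  · have e : (fun x : ℝ => K * (s - x) * x * m2 x (s - x)) = fun x : ℝ =>
        0 + (K * s * (1 / 15 - 4 / 5 * s - 14 / 15 * s ^ 2)) * x +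
        (K * (8 / 3 * s ^ 2 - (1 / 15 - 4 / 5 * s - 14 / 15 * s ^ 2))) * x ^ 2 +
        (-(K * (16 / 3 * s))) * x ^ 3 + (K * (8 / 3)) * x ^ 4 := by
      funext x
      unfold m2
      ring
    rw [e, int_poly]
    unfold m3
    ring

/-- The orthant integral. -/
theorem orthant4 (K : ℝ) (hK : 0 ≤ K) :
    ENNReal.ofReal (K * (∫ s in (0 : ℝ)..(2 / 25), s ^ 3 / 6 * (m3 s) ^ 2)) ≤
    ∫⁻ a in Set.Ioi (0 : ℝ), ∫⁻ b in Set.Ioi (0 : ℝ), ∫⁻ c in Set.Ioi (0 : ℝ),
      ∫⁻ d in Set.Ioi (0 : ℝ), ENNReal.ofReal (K * (max 0 (P4 a b c d)) ^ 2) := by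
  -- first pairing
  have h1 : ∀ a b : ℝ, ∫⁻ v in Set.Ioi (0 : ℝ), ENNReal.ofReal (K * v * (max 0 (m1 a b v)) ^ 2) ≤
      ∫⁻ c in Set.Ioi (0 : ℝ), ∫⁻ d in Set.Ioi (0 : ℝ),
        ENNReal.ofReal (K * (max 0 (P4 a b c d)) ^ 2) := by
    intro a b
    rw [pairing (fun c d => ENNReal.ofReal (K * (max 0 (P4 a b c d)) ^ 2))
      (by unfold P4; fun_prop)]
    apply setLIntegral_mono' measurableSet_Ioi
    intro v hv
    exact step1 K a b v hK (le_of_lt hv)
  have hm1 : Measurable (fun p : (ℝ × ℝ) × ℝ =>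
      ENNReal.ofReal (K * p.2 * (max 0 (m1 p.1.1 p.1.2 p.2)) ^ 2)) := by
    unfold m1
    fun_prop
  have h2 : ∫⁻ a in Set.Ioi (0 : ℝ), ∫⁻ b in Set.Ioi (0 : ℝ), ∫⁻ v in Set.Ioi (0 : ℝ),
      ENNReal.ofReal (K * v * (max 0 (m1 a b v)) ^ 2) ≤
      ∫⁻ a in Set.Ioi (0 : ℝ), ∫⁻ b in Set.Ioi (0 : ℝ), ∫⁻ c in Set.Ioi (0 : ℝ),
      ∫⁻ d in Set.Ioi (0 : ℝ), ENNReal.ofReal (K * (max 0 (P4 a b c d)) ^ 2) :=
    lintegral_mono fun a => lintegral_mono fun b => h1 a b
  refine le_trans ?_ h2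
  -- second pairing
  rw [pairing (fun a b => ∫⁻ v in Set.Ioi (0 : ℝ),
      ENNReal.ofReal (K * v * (max 0 (m1 a b v)) ^ 2)) hm1.lintegral_prod_right']
  have h3 : ∀ u : ℝ, 0 < u → ∫⁻ v in Set.Ioi (0 : ℝ),
      ENNReal.ofReal (K * v * u * (max 0 (m2 u v)) ^ 2) ≤
      ∫⁻ x in Set.Ioo (0 : ℝ) u, ∫⁻ v in Set.Ioi (0 : ℝ),
        ENNReal.ofReal (K * v * (max 0 (m1 x (u - x) v)) ^ 2) := by
    intro u hu
    rw [lintegral_lintegral_swap (by unfold m1; fun_prop)]
    apply setLIntegral_mono' measurableSet_Ioi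
    intro v hv
    exact step2 K u v hK hu.le (le_of_lt hv)
  have h4 : ∫⁻ u in Set.Ioi (0 : ℝ), ∫⁻ v in Set.Ioi (0 : ℝ),
      ENNReal.ofReal (K * v * u * (max 0 (m2 u v)) ^ 2) ≤
      ∫⁻ u in Set.Ioi (0 : ℝ), ∫⁻ x in Set.Ioo (0 : ℝ) u, ∫⁻ v in Set.Ioi (0 : ℝ),
        ENNReal.ofReal (K * v * (max 0 (m1 x (u - x) v)) ^ 2) :=
    setLIntegral_mono' measurableSet_Ioi fun u hu => h3 u hu
  refine le_trans ?_ h4
  -- third pairing
  rw [pairing (fun u v => ENNReal.ofReal (K * v * u * (max 0 (m2 u v)) ^ 2))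
    (by unfold m2; fun_prop)]
  rw [← intervalIntegral.integral_const_mul]
  apply restrict_le (2 / 25) (by norm_num)
  · unfold m3; fun_prop
  · intro x hx
    have := hx.1
    positivity
  · intro s hs
    refine le_trans (le_of_eq ?_) (step3 K s hK hs.1.le)
    congr 1
    have h5 : 0 ≤ m3 s := by
      unfold m3
      nlinarith [hs.1, hs.2]
    rw [max_eq_right h5]
    ring

theorem int_m3 : 0.00000000053147 < ∫ s in (0 : ℝ)..(2 / 25), s ^ 3 / 6 * (m3 s) ^ 2 := by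
  have hd : ∀ x ∈ Set.uIcc (0 : ℝ) (2 / 25), HasDerivAt (fun s : ℝ =>
      1 / 6 * (1 / 225 * s ^ 4 / 4 - 8 / 75 * s ^ 5 / 5 + 44 / 75 * s ^ 6 / 6 +
        16 / 25 * s ^ 7 / 7 + 4 / 25 * s ^ 8 / 8))
      (x ^ 3 / 6 * (m3 x) ^ 2) x := by
    intro x _
    have hx := hasDerivAt_id x
    have h := (((((((hx.pow 4).const_mul (1 / 225 : ℝ)).div_const 4).sub
      (((hx.pow 5).const_mul (8 / 75 : ℝ)).div_const 5)).add
      (((hx.pow 6).const_mul (44 / 75 : ℝ)).div_const 6)).add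
      (((hx.pow 7).const_mul (16 / 25 : ℝ)).div_const 7)).add
      (((hx.pow 8).const_mul (4 / 25 : ℝ)).div_const 8)).const_mul (1 / 6 : ℝ)
    refine h.congr_deriv ?_
    unfold m3
    simp only [id]
    push_cast
    ring
  rw [intervalIntegral.integral_eq_sub_of_hasDerivAt hd]
  · norm_num
  · apply Continuous.intervalIntegrable
    unfold m3
    fun_prop

end Pool.Agent.Lib.MP_f1379f_gt.FV.QV
end

section
/-!
# QVE: caps and pairs of caps of the ball of radius `1/√3` in dimension 6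
-/
set_option autoImplicit false
set_option linter.unusedSimpArgs false

namespace Pool.Agent.Lib.MP_f1379f_gt.FV.QV

open MeasureTheory Real

/-- A unit vector of `ℝ^6` extends to an isometry with `ℝ × ℝ^5`. -/
theorem exists_iso1 (g : E6) (hg : ‖g‖ = 1) :
    ∃ φ : E6 ≃ₗᵢ[ℝ] WithLp 2 (ℝ × TV.E5),
      φ g = WithLp.toLp 2 ((1 : ℝ), (0 : TV.E5)) := by
  classical
  let v : Fin 1 ⊕ Fin 5 → E6 := Sum.elim ![g] (fun _ => 0)
  let s : Set (Fin 1 ⊕ Fin 5) := {Sum.inl 0}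
  have hv : Orthonormal ℝ (s.domRestrict v) := by
    rw [orthonormal_iff_ite]
    rintro ⟨i, hi⟩ ⟨j, hj⟩
    simp only [s, Set.mem_singleton_iff] at hi hj
    subst hi
    subst hj
    simp [v, Set.domRestrict, hg]
  obtain ⟨b, hb⟩ := hv.exists_orthonormalBasis_extension_of_card_eq (by simp)
  have hb0 : b (Sum.inl 0) = g := by
    have := hb (Sum.inl 0) (by simp [s])
    simpa [v] using this
  let b' : OrthonormalBasis (Fin 1 ⊕ Fin 5) ℝ (WithLp 2 (ℝ × TV.E5)) :=
    (OrthonormalBasis.singleton (Fin 1) ℝ).prod (EuclideanSpace.basisFun (Fin 5) ℝ)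
  refine ⟨b.equiv b' (Equiv.refl _), ?_⟩
  rw [← hb0, OrthonormalBasis.equiv_apply_basis]
  refine (OrthonormalBasis.prod_apply _ _ _).trans ?_
  simp

/-- Cap volume in `ℝ^6` as a one dimensional integral. -/
theorem cap6_slice (g : E6) (hg : ‖g‖ = 1) (R h : ℝ) :
    volume {x : E6 | ‖x‖ ^ 2 < R ∧ h < (inner ℝ g x : ℝ)} =
      ∫⁻ z in Set.Ioi h, ENNReal.ofReal (8 * π ^ 2 / 15 * √(max 0 (R - z ^ 2)) ^ 5) := by
  obtain ⟨φ, hφ⟩ := exists_iso1 g hg
  let T' : Set (ℝ × TV.E5) := {q | q.1 ^ 2 + ‖q.2‖ ^ 2 < R ∧ h < q.1}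
  have hT' : MeasurableSet T' := by
    have c1 : Continuous (fun q : ℝ × TV.E5 => q.1 ^ 2 + ‖q.2‖ ^ 2) := by fun_prop
    exact ((isOpen_lt c1 continuous_const).inter
      (isOpen_lt continuous_const continuous_fst)).measurableSet
  have hmp : MeasurePreserving (fun y : E6 => (WithLp.ofLp (φ y) : ℝ × TV.E5)) volume volume :=
    (WithLp.volume_preserving_ofLp ℝ TV.E5).comp φ.measurePreserving
  have hpre : {x : E6 | ‖x‖ ^ 2 < R ∧ h < (inner ℝ g x : ℝ)} =
      (fun y : E6 => (WithLp.ofLp (φ y) : ℝ × TV.E5)) ⁻¹' T' := by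
    ext y
    have h1 : ‖y‖ ^ 2 = (WithLp.ofLp (φ y)).1 ^ 2 + ‖(WithLp.ofLp (φ y)).2‖ ^ 2 := by
      rw [← φ.norm_map y, WithLp.prod_norm_sq_eq_of_L2]
      have e1 : ‖(φ y).fst‖ ^ 2 = (WithLp.ofLp (φ y)).1 ^ 2 := by
        rw [Real.norm_eq_abs, sq_abs]
        rfl
      rw [e1]
      rfl
    have k0 : (inner ℝ g y : ℝ) = (WithLp.ofLp (φ y)).1 := by
      rw [← φ.inner_map_map, hφ, WithLp.prod_inner_apply]
      simp
    simp only [T', Set.mem_ofPred_eq, Set.mem_preimage]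
    rw [h1, k0]
  rw [hpre, hmp.measure_preimage hT'.nullMeasurableSet, Measure.volume_eq_prod,
    Measure.prod_apply hT', ← lintegral_indicator measurableSet_Ioi]
  apply lintegral_congr
  intro z
  by_cases hz : h < z
  · rw [Set.indicator_of_mem (show z ∈ Set.Ioi h from hz), ← TV.vol_E5]
    congr 1
    ext w
    simp only [T', Set.mem_preimage, Set.mem_ofPred_eq]
    constructor
    · intro hh; linarith [hh.1]
    · intro hh; exact ⟨by linarith, hz⟩
  · rw [Set.indicator_of_notMem (show z ∉ Set.Ioi h from hz)]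
    have : Prod.mk z ⁻¹' T' = ∅ := by
      ext w
      simp only [T', Set.mem_preimage, Set.mem_ofPred_eq, Set.mem_empty_iff_false, iff_false]
      intro hh
      exact hz hh.2
    rw [this, measure_empty]

/-- Primitive of `(1/3 - z^2)^(5/2)`. -/
noncomputable def prim6 (z : ℝ) : ℝ :=
  1 / 48 * (z * √(1 / 3 - z ^ 2) * (8 * (1 / 3 - z ^ 2) ^ 2 + 10 / 3 * (1 / 3 - z ^ 2) + 5 / 3)) +
    5 / 432 * arcsin (√3 * z)

theorem prim6_deriv (z : ℝ) (h0 : 0 < z) (h1 : z ^ 2 < 1 / 3) :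
    HasDerivAt prim6 (√(1 / 3 - z ^ 2) ^ 5) z := by
  have h3 : √(3 : ℝ) ^ 2 = 3 := Real.sq_sqrt (by norm_num)
  have h3p : 0 < √(3 : ℝ) := Real.sqrt_pos.mpr (by norm_num)
  have hpos : 0 < 1 / 3 - z ^ 2 := by linarith
  obtain ⟨s, hs⟩ : ∃ s, s = √(1 / 3 - z ^ 2) := ⟨_, rfl⟩
  have hs0 : 0 < s := by rw [hs]; exact Real.sqrt_pos.mpr hpos
  have hs2 : s ^ 2 = 1 / 3 - z ^ 2 := by rw [hs, Real.sq_sqrt hpos.le]
  have hx : HasDerivAt (fun z : ℝ => 1 / 3 - z ^ 2) (-(2 * z)) z := by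
    have := ((hasDerivAt_id z).pow 2).const_sub (1 / 3 : ℝ)
    refine this.congr_deriv ?_
    simp
  have hsq := hx.sqrt hpos.ne'
  have hq : HasDerivAt (fun z : ℝ => 8 * (1 / 3 - z ^ 2) ^ 2 + 10 / 3 * (1 / 3 - z ^ 2) + 5 / 3)
      (8 * ((2 : ℕ) * (1 / 3 - z ^ 2) ^ (2 - 1) * (-(2 * z))) + 10 / 3 * (-(2 * z)) + 0) z :=
    (((hx.pow 2).const_mul 8).add (hx.const_mul (10 / 3))).add (hasDerivAt_const z (5 / 3 : ℝ))
  have harc : HasDerivAt (fun z : ℝ => arcsin (√3 * z)) (1 / s) z := by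
    have hlin : HasDerivAt (fun z : ℝ => √3 * z) (√3) z := by
      simpa using (hasDerivAt_id z).const_mul (√3)
    have hne1 : √3 * z ≠ -1 := by
      have : 0 < √3 * z := by positivity
      linarith
    have hlt : (√3 * z) ^ 2 < 1 := by rw [mul_pow, h3]; linarith
    have hne2 : √3 * z ≠ 1 := by
      intro h
      rw [h] at hlt
      norm_num at hlt
    have h := (hasDerivAt_arcsin hne1 hne2).comp z hlin
    refine h.congr_deriv ?_
    have e : √(1 - (√3 * z) ^ 2) = √3 * s := by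
      rw [hs, ← Real.sqrt_mul (by norm_num : (0 : ℝ) ≤ 3)]
      congr 1
      rw [mul_pow, h3]
      ring
    rw [e]
    field_simp
  have h := ((((hasDerivAt_id z).mul hsq).mul hq).const_mul (1 / 48)).add
    (harc.const_mul (5 / 432))
  unfold prim6
  refine h.congr_deriv ?_
  simp only [id, Pi.mul_apply]
  rw [← hs, ← hs2]
  push_cast
  have hz2 : z ^ 2 = 1 / 3 - s ^ 2 := by linarith
  field_simp
  ring_nf
  have e4 : z ^ 4 = (1 / 3 - s ^ 2) ^ 2 := by
    calc z ^ 4 = (z ^ 2) ^ 2 := by ring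
      _ = _ := by rw [hz2]
  try rw [e4]
  try rw [hz2]
  ring

/-- Volume of a cap. -/
theorem cap6_vol (w : E6) (hw : ‖w‖ ^ 2 = 2 / 3) :
    volume {x : E6 | ‖x‖ ^ 2 < 1 / 3 ∧ 1 / 3 < (inner ℝ w x : ℝ)} =
      ENNReal.ofReal (8 * π ^ 2 / 15 * ((15 * π - 44) / 5184)) := by
  have hwp : 0 < ‖w‖ := by
    rcases eq_or_lt_of_le (norm_nonneg w) with h | h
    · rw [← h] at hw; norm_num at hw
    · exact h
  have hg : ‖(‖w‖⁻¹ : ℝ) • w‖ = 1 := by
    rw [norm_smul, norm_inv, norm_norm, inv_mul_cancel₀ hwp.ne']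
  obtain ⟨h, hh⟩ : ∃ h : ℝ, h = 1 / 3 / ‖w‖ := ⟨_, rfl⟩
  have hh0 : 0 < h := by rw [hh]; positivity
  have hh2 : h ^ 2 = 1 / 6 := by rw [hh, div_pow, hw]; norm_num
  have hset : {x : E6 | ‖x‖ ^ 2 < 1 / 3 ∧ 1 / 3 < (inner ℝ w x : ℝ)} =
      {x : E6 | ‖x‖ ^ 2 < 1 / 3 ∧ h < (inner ℝ ((‖w‖⁻¹ : ℝ) • w) x : ℝ)} := by
    ext x
    simp only [Set.mem_ofPred_eq, real_inner_smul_left]
    rw [hh, div_lt_iff₀ hwp]
    have : ‖w‖⁻¹ * inner ℝ w x * ‖w‖ = (inner ℝ w x : ℝ) := by field_simp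
    rw [this]
  rw [hset, cap6_slice _ hg]
  obtain ⟨b, hb⟩ : ∃ b : ℝ, b = √(1 / 3) := ⟨_, rfl⟩
  have hb2 : b ^ 2 = 1 / 3 := by rw [hb, Real.sq_sqrt (by norm_num)]
  have hb0 : 0 < b := by rw [hb]; exact Real.sqrt_pos.mpr (by norm_num)
  have hhb : h < b := by nlinarith
  have e1 : ∫⁻ z in Set.Ioi h, ENNReal.ofReal (8 * π ^ 2 / 15 * √(max 0 (1 / 3 - z ^ 2)) ^ 5) =
      ∫⁻ z in Set.Ioc h b, ENNReal.ofReal (8 * π ^ 2 / 15 * √(1 / 3 - z ^ 2) ^ 5) := by
    rw [← lintegral_indicator measurableSet_Ioi, ← lintegral_indicator measurableSet_Ioc]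
    apply lintegral_congr
    intro z
    by_cases hz : h < z
    · rw [Set.indicator_of_mem (show z ∈ Set.Ioi h from hz)]
      by_cases h3 : z ≤ b
      · rw [Set.indicator_of_mem (show z ∈ Set.Ioc h b from ⟨hz, h3⟩)]
        have : z ^ 2 ≤ 1 / 3 := by
          rw [← hb2]
          exact pow_le_pow_left₀ (by linarith) h3 2
        rw [max_eq_right (by linarith)]
      · rw [Set.indicator_of_notMem (fun hm => h3 hm.2)]
        have : 1 / 3 < z ^ 2 := by
          rw [← hb2]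
          exact pow_lt_pow_left₀ (not_le.mp h3) hb0.le two_ne_zero
        rw [max_eq_left (by linarith)]
        simp
    · rw [Set.indicator_of_notMem (show z ∉ Set.Ioi h from hz),
          Set.indicator_of_notMem (fun hm => hz hm.1)]
  have hcont : Continuous (fun z : ℝ => √(1 / 3 - z ^ 2) ^ 5) := by fun_prop
  have hcont2 : Continuous (fun z : ℝ => 8 * π ^ 2 / 15 * √(1 / 3 - z ^ 2) ^ 5) := by fun_prop
  rw [e1, ← ofReal_integral_eq_lintegral_ofReal, ← intervalIntegral.integral_of_le hhb.le,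
    intervalIntegral.integral_const_mul]
  · congr 2
    rw [intervalIntegral.integral_eq_sub_of_hasDerivAt_of_le hhb.le (f := prim6)]
    · have s3 : √(3 : ℝ) ^ 2 = 3 := Real.sq_sqrt (by norm_num)
      have s3p : 0 < √(3 : ℝ) := Real.sqrt_pos.mpr (by norm_num)
      have k1 : √3 * b = 1 := by
        have : (√3 * b) ^ 2 = 1 ^ 2 := by rw [mul_pow, s3, hb2]; norm_num
        exact (pow_left_inj₀ (by positivity) zero_le_one two_ne_zero).mp this
      have k2 : √3 * h = √2 / 2 := by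
        have s2 : √(2 : ℝ) ^ 2 = 2 := Real.sq_sqrt (by norm_num)
        have : (√3 * h) ^ 2 = (√2 / 2) ^ 2 := by
          rw [mul_pow, s3, hh2, div_pow, s2]; norm_num
        exact (pow_left_inj₀ (by positivity) (by positivity) two_ne_zero).mp this
      have k3 : arcsin (√2 / 2) = π / 4 := by
        rw [← sin_pi_div_four, arcsin_sin] <;> linarith [Real.pi_pos]
      have k4 : √(1 / 3 - h ^ 2) = h := by
        rw [hh2, show (1 / 3 - 1 / 6 : ℝ) = h ^ 2 by rw [hh2]; norm_num, Real.sqrt_sq hh0.le]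
      have k5 : √(1 / 3 - b ^ 2) = 0 := by rw [hb2]; norm_num
      unfold prim6
      rw [k1, k2, k3, arcsin_one, k4, k5, hh2]
      have k6 : h * h = 1 / 6 := by rw [← hh2]; ring
      rw [k6]
      ring
    · apply Continuous.continuousOn
      unfold prim6
      have := Real.continuous_arcsin
      fun_prop
    · intro z hz
      apply prim6_deriv z (lt_trans hh0 hz.1)
      rw [← hb2]
      exact pow_lt_pow_left₀ hz.2 (lt_trans hh0 hz.1).le two_ne_zero
    · exact hcont.intervalIntegrable _ _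
  · exact hcont2.integrableOn_Ioc
  · refine Filter.Eventually.of_forall fun z => ?_
    simp only [Pi.zero_apply]
    positivity

/-- The profile of a pair. -/
noncomputable def P2 (a b : ℝ) : ℝ := 1 / 15 - 4 / 5 * (a + b) - 8 / 5 * (a ^ 2 + b ^ 2) +
  4 / 5 * (a * b)

/-- Its average. -/
noncomputable def n2 (u : ℝ) : ℝ := 1 / 15 - 4 / 5 * u - 14 / 15 * u ^ 2

theorem stepP (K u : ℝ) (hK : 0 ≤ K) (hu : 0 ≤ u) :
    ENNReal.ofReal (K * u * (max 0 (n2 u)) ^ 2) ≤
      ∫⁻ x in Set.Ioo (0 : ℝ) u, ENNReal.ofReal (K * (max 0 (P2 x (u - x))) ^ 2) := by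
  apply jensen u (K * u) (n2 u) hu (fun _ => K) (fun x => P2 x (u - x))
    continuous_const (by unfold P2; fun_prop) (fun _ _ => hK)
  · rw [intervalIntegral.integral_const, smul_eq_mul]
    ring
  · have e : (fun x : ℝ => K * P2 x (u - x)) = fun x : ℝ =>
        (K * (1 / 15 - 4 / 5 * u - 8 / 5 * u ^ 2)) + (K * (4 * u)) * x + (K * (-4)) * x ^ 2 +
          0 * x ^ 3 + 0 * x ^ 4 := by
      funext x
      unfold P2
      ring
    rw [e, int_poly]
    unfold n2
    ring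

theorem orthant2 (K : ℝ) (hK : 0 ≤ K) :
    ENNReal.ofReal (K * (∫ u in (0 : ℝ)..(19 / 250), u * (n2 u) ^ 2)) ≤
    ∫⁻ a in Set.Ioi (0 : ℝ), ∫⁻ b in Set.Ioi (0 : ℝ),
      ENNReal.ofReal (K * (max 0 (P2 a b)) ^ 2) := by
  rw [pairing (fun a b => ENNReal.ofReal (K * (max 0 (P2 a b)) ^ 2)) (by unfold P2; fun_prop),
    ← intervalIntegral.integral_const_mul]
  apply restrict_le (19 / 250) (by norm_num)
  · unfold n2; fun_prop
  · intro x hx
    have := hx.1
    positivity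
  · intro u hu
    refine le_trans (le_of_eq ?_) (stepP K u hK hu.1.le)
    congr 1
    have h5 : 0 ≤ n2 u := by
      unfold n2
      nlinarith [hu.1, hu.2]
    rw [max_eq_right h5]
    ring

theorem int_n2 : 0.000002312787 < ∫ u in (0 : ℝ)..(19 / 250), u * (n2 u) ^ 2 := by
  have hd : ∀ x ∈ Set.uIcc (0 : ℝ) (19 / 250), HasDerivAt (fun s : ℝ =>
      1 / 225 * s ^ 2 / 2 - 8 / 75 * s ^ 3 / 3 + (16 / 25 - 28 / 225) * s ^ 4 / 4 +
        112 / 75 * s ^ 5 / 5 + 196 / 225 * s ^ 6 / 6)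
      (x * (n2 x) ^ 2) x := by
    intro x _
    have hx := hasDerivAt_id x
    have h := ((((((hx.pow 2).const_mul (1 / 225 : ℝ)).div_const 2).sub
      (((hx.pow 3).const_mul (8 / 75 : ℝ)).div_const 3)).add
      (((hx.pow 4).const_mul (16 / 25 - 28 / 225 : ℝ)).div_const 4)).add
      (((hx.pow 5).const_mul (112 / 75 : ℝ)).div_const 5)).add
      (((hx.pow 6).const_mul (196 / 225 : ℝ)).div_const 6)
    refine h.congr_deriv ?_
    unfold n2
    simp only [id]
    push_cast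
    ring
  rw [intervalIntegral.integral_eq_sub_of_hasDerivAt hd]
  · norm_num
  · apply Continuous.intervalIntegrable
    unfold n2
    fun_prop

end Pool.Agent.Lib.MP_f1379f_gt.FV.QV
end

section
/-!
# QVF: volume of a pair of caps in dimension 6
-/
set_option autoImplicit false
set_option linter.unusedSimpArgs false

namespace Pool.Agent.Lib.MP_f1379f_gt.FV.QV

open MeasureTheory Real

/-- `√(5/12)`. -/
noncomputable def dA : ℝ := √(5 / 12)

theorem dA_sq : dA ^ 2 = 5 / 12 := by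
  unfold dA; rw [Real.sq_sqrt (by norm_num)]

theorem dA_pos : 0 < dA := by
  unfold dA; exact Real.sqrt_pos.mpr (by norm_num)

/-- The matrix of the two vectors. -/
noncomputable def M2 : Matrix (Fin 2) (Fin 2) ℝ := !![dA, 1 / 2; dA, -(1 / 2)]

theorem det_M2 : M2.det = -dA := by
  unfold M2
  rw [Matrix.det_fin_two]
  simp
  ring

theorem det2_ne : M2.det ≠ 0 := by
  rw [det_M2]
  have := dA_pos
  linarith

theorem det2_abs : |(M2.det)⁻¹| = 1 / dA := by
  rw [det_M2, abs_inv, abs_neg, abs_of_pos dA_pos, one_div]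

/-- The orthonormal frame. -/
noncomputable def f2 (w v : E6) : Fin 2 → E6 := ![(6 * dA / 5) • w + (6 * dA / 5) • v, w - v]

section
variable (w v : E6) (hw : ‖w‖ ^ 2 = 2 / 3) (hv : ‖v‖ ^ 2 = 2 / 3) (hwv : (inner ℝ w v : ℝ) = 1 / 6)
include hw hv hwv

theorem f2_orth : Orthonormal ℝ (f2 w v) := by
  have hA := dA_sq
  have i1 : (inner ℝ w w : ℝ) = 2 / 3 := by rw [real_inner_self_eq_norm_sq, hw]
  have i2 : (inner ℝ v v : ℝ) = 2 / 3 := by rw [real_inner_self_eq_norm_sq, hv]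
  have i3 : (inner ℝ v w : ℝ) = 1 / 6 := by rw [real_inner_comm, hwv]
  rw [orthonormal_iff_ite]
  intro i j
  fin_cases i <;> fin_cases j <;>
    simp only [f2, Fin.zero_eta, Fin.mk_one, Matrix.cons_val_zero, Matrix.cons_val_one,
      inner_add_left, inner_add_right, inner_sub_left, inner_sub_right, real_inner_smul_left,
      real_inner_smul_right, i1, i2, i3, hwv]
  · rw [if_pos trivial]
    linear_combination (36 / 25 * (5 / 3)) * hA
  · rw [if_neg (by decide)]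
    ring
  · rw [if_neg (by decide)]
    ring
  · rw [if_pos trivial]
    norm_num

omit hw hv hwv in
theorem coords2 (y : E6) : Matrix.toLin' M2 (fun i => (inner ℝ (f2 w v i) y : ℝ)) =
    ![inner ℝ w y, inner ℝ v y] := by
  have hA := dA_sq
  funext i
  fin_cases i <;>
    simp [Matrix.toLin'_apply, M2, Matrix.mulVec, dotProduct, Fin.sum_univ_two, f2,
      inner_add_left, inner_sub_left, real_inner_smul_left]
  · linear_combination (6 / 5 * (inner ℝ w y + inner ℝ v y)) * hA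
  · linear_combination (6 / 5 * (inner ℝ w y + inner ℝ v y)) * hA
end

theorem norm_form2 (p : Fin 2 → ℝ) : ∑ i, p i ^ 2 =
    8 / 5 * ((Matrix.toLin' M2 p) 0 ^ 2 + (Matrix.toLin' M2 p) 1 ^ 2) -
    4 / 5 * ((Matrix.toLin' M2 p) 0 * (Matrix.toLin' M2 p) 1) := by
  have hA := dA_sq
  simp only [Matrix.toLin'_apply, M2, Matrix.mulVec, dotProduct, Fin.sum_univ_two,
    Matrix.of_apply, Matrix.cons_val', Matrix.cons_val_zero, Matrix.cons_val_one, Matrix.cons_val]
  linear_combination (-(12 / 5) * p 0 ^ 2) * hA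

/-- The integrand in product coordinates. -/
noncomputable def G2 (z : Fin 2 → ℝ) : ENNReal :=
  if ∀ i, 1 / 3 < z i then ENNReal.ofReal (π ^ 2 / 2 *
    (max 0 (1 / 3 - (8 / 5 * (z 0 ^ 2 + z 1 ^ 2) - 4 / 5 * (z 0 * z 1)))) ^ 2) else 0

theorem meas_G2 : Measurable G2 := by
  unfold G2
  apply Measurable.ite
  · have : {z : Fin 2 → ℝ | ∀ i, 1 / 3 < z i} = ⋂ i, {z | 1 / 3 < z i} := by ext z; simp
    rw [this]
    exact MeasurableSet.iInter fun i => measurableSet_lt measurable_const (measurable_pi_apply i)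
  · fun_prop
  · exact measurable_const

/-- The shift. -/
noncomputable def th2 : Fin 2 → ℝ := fun _ => 1 / 3

theorem G2_shift (a b : ℝ) : G2 (![a, b] + th2) =
    if 0 < a ∧ 0 < b then
      ENNReal.ofReal (π ^ 2 / 2 * (max 0 (P2 a b)) ^ 2) else 0 := by
  unfold G2
  have hiff : (∀ i : Fin 2, 1 / 3 < (![a, b] + th2) i) ↔ 0 < a ∧ 0 < b := by
    constructor
    · intro h
      have h0 := h 0
      have h1 := h 1
      simp only [Pi.add_apply, th2, Matrix.cons_val_zero, Matrix.cons_val_one] at h0 h1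
      exact ⟨by linarith, by linarith⟩
    · rintro ⟨h0, h1⟩ i
      fin_cases i <;> simp [th2] <;> assumption
  by_cases h : 0 < a ∧ 0 < b
  · rw [if_pos (hiff.mpr h), if_pos h]
    congr 3
    simp only [Pi.add_apply, th2, Matrix.cons_val_zero, Matrix.cons_val_one]
    unfold P2
    congr 1
    ring
  · rw [if_neg (fun h2 => h (hiff.mp h2)), if_neg h]

theorem vol_pair6 (w v : E6) (hw : ‖w‖ ^ 2 = 2 / 3) (hv : ‖v‖ ^ 2 = 2 / 3)
    (hwv : (inner ℝ w v : ℝ) = 1 / 6) :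
    volume {x : E6 | ‖x‖ ^ 2 < 1 / 3 ∧ 1 / 3 < (inner ℝ w x : ℝ) ∧ 1 / 3 < (inner ℝ v x : ℝ)} =
      ENNReal.ofReal (1 / dA) *
    ∫⁻ a in Set.Ioi (0 : ℝ), ∫⁻ b in Set.Ioi (0 : ℝ),
      ENNReal.ofReal (π ^ 2 / 2 * (max 0 (P2 a b)) ^ 2) := by
  let A : Set (Fin 2 → ℝ) := {p | ∀ i, 1 / 3 < Matrix.toLin' M2 p i}
  have hm : Measurable (Matrix.toLin' M2 : (Fin 2 → ℝ) → (Fin 2 → ℝ)) :=
    (LinearMap.continuous_of_finiteDimensional _).measurable
  have hA : MeasurableSet A := by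
    have : A = ⋂ i, {p | 1 / 3 < Matrix.toLin' M2 p i} := by ext p; simp [A]
    rw [this]
    exact MeasurableSet.iInter fun i =>
      measurableSet_lt measurable_const ((measurable_pi_apply i).comp hm)
  have hset : {x : E6 | ‖x‖ ^ 2 < 1 / 3 ∧ 1 / 3 < (inner ℝ w x : ℝ) ∧ 1 / 3 < (inner ℝ v x : ℝ)} =
      {y : E6 | (fun i => (inner ℝ (f2 w v i) y : ℝ)) ∈ A ∧ ‖y‖ ^ 2 < 1 / 3} := by
    ext y
    simp only [Set.mem_ofPred_eq, A, coords2 w v]
    constructor
    · rintro ⟨h, h0, h1⟩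
      refine ⟨?_, h⟩
      intro i
      fin_cases i
      · exact h0
      · exact h1
    · rintro ⟨h, hy⟩
      exact ⟨hy, h 0, h 1⟩
  rw [hset, slice_vol (by norm_num) (f2 w v) (f2_orth w v hw hv hwv) (1 / 3) A hA,
    ← lintegral_indicator hA]
  have e1 : ∀ p : Fin 2 → ℝ, A.indicator (fun p => ENNReal.ofReal (π ^ 2 / 2 *
      (max 0 (1 / 3 - ∑ i, p i ^ 2)) ^ 2)) p = G2 (Matrix.toLin' M2 p) := by
    intro p
    unfold G2
    rw [← norm_form2]
    by_cases h : p ∈ A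
    · rw [Set.indicator_of_mem h, if_pos (show ∀ i, 1 / 3 < Matrix.toLin' M2 p i from h)]
    · rw [Set.indicator_of_notMem h, if_neg (show ¬ ∀ i, 1 / 3 < Matrix.toLin' M2 p i from h)]
  rw [lintegral_congr e1, lin_change M2 det2_ne G2 meas_G2, det2_abs,
    ← lintegral_add_right_eq_self G2 th2, it_two]
  · congr 1
    rw [← lintegral_indicator measurableSet_Ioi]
    apply lintegral_congr
    intro a
    by_cases ha : 0 < a
    · rw [Set.indicator_of_mem (show a ∈ Set.Ioi (0 : ℝ) from ha),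
        ← lintegral_indicator measurableSet_Ioi]
      apply lintegral_congr
      intro b
      rw [G2_shift]
      by_cases hb : 0 < b
      · rw [Set.indicator_of_mem (show b ∈ Set.Ioi (0 : ℝ) from hb), if_pos ⟨ha, hb⟩]
      · rw [Set.indicator_of_notMem (show b ∉ Set.Ioi (0 : ℝ) from hb),
          if_neg (fun h => hb h.2)]
    · rw [Set.indicator_of_notMem (show a ∉ Set.Ioi (0 : ℝ) from ha)]
      simp only [G2_shift]
      simp [ha]
  · exact meas_G2.comp (by fun_prop)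

/-- **Lower bound of the volume of a pair.** -/
theorem pair6_lower (w v : E6) (hw : ‖w‖ ^ 2 = 2 / 3) (hv : ‖v‖ ^ 2 = 2 / 3)
    (hwv : (inner ℝ w v : ℝ) = 1 / 6) :
    ENNReal.ofReal 0.00001768 ≤
    volume {x : E6 | ‖x‖ ^ 2 < 1 / 3 ∧ 1 / 3 < (inner ℝ w x : ℝ) ∧ 1 / 3 < (inner ℝ v x : ℝ)} := by
  have h := orthant2 (π ^ 2 / 2) (by positivity)
  have hI := int_n2
  have hp := Real.pi_gt_d6
  have hd := dA_pos
  have hd2 := dA_sq
  have hdu : dA < 0.6454973 := by nlinarith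
  have hstep : ENNReal.ofReal (1 / dA * (π ^ 2 / 2 *
      (∫ u in (0 : ℝ)..(19 / 250), u * (n2 u) ^ 2))) ≤
      volume {x : E6 | ‖x‖ ^ 2 < 1 / 3 ∧ 1 / 3 < (inner ℝ w x : ℝ) ∧
        1 / 3 < (inner ℝ v x : ℝ)} := by
    rw [vol_pair6 w v hw hv hwv, ENNReal.ofReal_mul (by positivity)]
    gcongr
  refine le_trans (ENNReal.ofReal_le_ofReal ?_) hstep
  obtain ⟨I, hIe⟩ : ∃ I, I = ∫ u in (0 : ℝ)..(19 / 250), u * (n2 u) ^ 2 := ⟨_, rfl⟩
  rw [← hIe] at hI ⊢
  have q1 : 9.8696 < π ^ 2 := by nlinarith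
  have q2 : 1.54919 < 1 / dA := by
    rw [lt_div_iff₀ hd]
    nlinarith
  have q3 : 9.8696 / 2 * 0.000002312787 < π ^ 2 / 2 * I := by nlinarith
  have q4 : 1.54919 * (9.8696 / 2 * 0.000002312787) < 1 / dA * (π ^ 2 / 2 * I) := by
    have : 0 < π ^ 2 / 2 * I := lt_trans (by norm_num) q3
    nlinarith
  refine le_trans ?_ q4.le
  norm_num

/-- Upper bound of the volume of a cap. -/
theorem cap6_upper : 8 * π ^ 2 / 15 * ((15 * π - 44) / 5184) < 0.00317198 := by
  have h1 := Real.pi_lt_d6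
  have h2 := Real.pi_gt_d6
  have q1 : π ^ 2 < 9.86961 := by nlinarith
  have q3 : 0 < 15 * π - 44 := by linarith
  have q2 : 15 * π - 44 < 3.123895 := by linarith
  have : 8 * π ^ 2 / 15 * ((15 * π - 44) / 5184) ≤ 8 * 9.86961 / 15 * (3.123895 / 5184) := by
    gcongr
  refine lt_of_le_of_lt this ?_
  norm_num

/-- Lower bound of the volume of the ball. -/
theorem ball6_lower : 0.191396 < π ^ 3 / 6 * (1 / 3) ^ 3 := by
  have h2 := Real.pi_gt_d6
  have q1 : (3.141592 : ℝ) ^ 3 < π ^ 3 := pow_lt_pow_left₀ h2 (by norm_num) (by norm_num)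
  have q2 : (3.141592 : ℝ) ^ 3 / 6 * (1 / 3) ^ 3 < π ^ 3 / 6 * (1 / 3) ^ 3 := by linarith
  refine lt_trans ?_ q2
  norm_num

end Pool.Agent.Lib.MP_f1379f_gt.FV.QV
end

section
/-!
# MP_f1379f_gt, block S4, module X4: two integrals over the simplex
-/
set_option autoImplicit false

namespace Pool.Agent.Lib.MP_f1379f_gt.FV

open MeasureTheory

namespace X4M

/-- one step of the iterated integration -/
theorem step (K c : ℝ) (k : ℕ) (hK : 0 ≤ K) (hk : k ≠ 0) :
    ∫⁻ s in Set.Ioi (1 : ℝ), ENNReal.ofReal (K * (max 0 (c - s)) ^ k) =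
      ENNReal.ofReal (K / (k + 1) * (max 0 (c - 1)) ^ (k + 1)) := by
  rcases le_or_gt c 1 with hc | hc
  · rw [max_eq_left (by linarith : c - 1 ≤ 0)]
    rw [zero_pow (Nat.succ_ne_zero k), mul_zero, ENNReal.ofReal_zero]
    rw [setLIntegral_congr_fun measurableSet_Ioi (g := fun _ => 0)]
    · simp
    · intro s hs
      have hs' : (1 : ℝ) < s := hs
      simp only
      rw [max_eq_left (by linarith : c - s ≤ 0), zero_pow hk, mul_zero, ENNReal.ofReal_zero]
  · rw [max_eq_right (by linarith : 0 ≤ c - 1)]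
    have hu : Set.Ioi (1 : ℝ) = Set.Ioc 1 c ∪ Set.Ioi c := (Set.Ioc_union_Ioi_eq_Ioi hc.le).symm
    have h1 : ∫⁻ s in Set.Ioi c, ENNReal.ofReal (K * (max 0 (c - s)) ^ k) = 0 := by
      rw [setLIntegral_congr_fun measurableSet_Ioi (g := fun _ => 0)]
      · simp
      · intro s hs
        have hs' : c < s := hs
        simp only
        rw [max_eq_left (by linarith : c - s ≤ 0), zero_pow hk, mul_zero, ENNReal.ofReal_zero]
    rw [hu, lintegral_union measurableSet_Ioi (Set.Ioc_disjoint_Ioi le_rfl), h1, add_zero]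
    rw [setLIntegral_congr_fun measurableSet_Ioc
      (g := fun s => ENNReal.ofReal (K * (c - s) ^ k))]
    · have hcont : Continuous fun s : ℝ => K * (c - s) ^ k := by fun_prop
      rw [← ofReal_integral_eq_lintegral_ofReal]
      · rw [← intervalIntegral.integral_of_le hc.le]
        congr 1
        have hd : ∀ x ∈ Set.uIcc (1 : ℝ) c, HasDerivAt
            (fun s : ℝ => -(K / (k + 1) * (c - s) ^ (k + 1))) (K * (c - x) ^ k) x := by
          intro x _
          have h2 := ((((hasDerivAt_id x).const_sub c).pow (k + 1)).const_mul (K / (k + 1))).neg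
          refine h2.congr_deriv ?_
          have hk1 : (k : ℝ) + 1 ≠ 0 := by positivity
          simp only [id]
          push_cast
          field_simp
        rw [intervalIntegral.integral_eq_sub_of_hasDerivAt hd (hcont.intervalIntegrable _ _)]
        simp
      · exact (hcont.integrableOn_Icc).mono_set Set.Ioc_subset_Icc_self
      · rw [Filter.EventuallyLE, ae_restrict_iff' measurableSet_Ioc]
        refine Filter.Eventually.of_forall fun s hs => ?_
        have : 0 ≤ c - s := by linarith [hs.2]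
        simp only [Pi.zero_apply]
        positivity
    · intro s hs
      have hs' : s ≤ c := hs.2
      simp only
      rw [max_eq_right (by linarith : 0 ≤ c - s)]

/-- four steps -/
theorem four (K : ℝ) (k : ℕ) (hK : 0 ≤ K) (hk : k ≠ 0) :
    ∫⁻ a in Set.Ioi (1 : ℝ), ∫⁻ b in Set.Ioi (1 : ℝ), ∫⁻ c in Set.Ioi (1 : ℝ),
      ∫⁻ d in Set.Ioi (1 : ℝ), ENNReal.ofReal (K * (max 0 (49 / 12 - a - b - c - d)) ^ k) =
      ENNReal.ofReal (K / (k + 1) / (k + 2) / (k + 3) / (k + 4) * (1 / 12) ^ (k + 4)) := by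
  have s1 : ∀ a b c : ℝ, ∫⁻ d in Set.Ioi (1 : ℝ),
      ENNReal.ofReal (K * (max 0 (49 / 12 - a - b - c - d)) ^ k) =
      ENNReal.ofReal (K / (k + 1) * (max 0 (37 / 12 - a - b - c)) ^ (k + 1)) := by
    intro a b c
    rw [step K (49 / 12 - a - b - c) k hK hk]
    congr 3
    ring_nf
  have s2 : ∀ a b : ℝ, ∫⁻ c in Set.Ioi (1 : ℝ),
      ENNReal.ofReal (K / (k + 1) * (max 0 (37 / 12 - a - b - c)) ^ (k + 1)) =
      ENNReal.ofReal (K / (k + 1) / (k + 2) * (max 0 (25 / 12 - a - b)) ^ (k + 2)) := by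
    intro a b
    rw [step (K / (k + 1)) (37 / 12 - a - b) (k + 1) (by positivity) (Nat.succ_ne_zero k)]
    congr 2
    · push_cast; ring_nf
    · congr 1
      ring_nf
  have s3 : ∀ a : ℝ, ∫⁻ b in Set.Ioi (1 : ℝ),
      ENNReal.ofReal (K / (k + 1) / (k + 2) * (max 0 (25 / 12 - a - b)) ^ (k + 2)) =
      ENNReal.ofReal (K / (k + 1) / (k + 2) / (k + 3) * (max 0 (13 / 12 - a)) ^ (k + 3)) := by
    intro a
    rw [step (K / (k + 1) / (k + 2)) (25 / 12 - a) (k + 2) (by positivity) (Nat.succ_ne_zero _)]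
    congr 2
    · push_cast; ring_nf
    · congr 1
      ring_nf
  have s4 : ∫⁻ a in Set.Ioi (1 : ℝ),
      ENNReal.ofReal (K / (k + 1) / (k + 2) / (k + 3) * (max 0 (13 / 12 - a)) ^ (k + 3)) =
      ENNReal.ofReal (K / (k + 1) / (k + 2) / (k + 3) / (k + 4) * (1 / 12) ^ (k + 4)) := by
    rw [step (K / (k + 1) / (k + 2) / (k + 3)) (13 / 12) (k + 3) (by positivity)
      (Nat.succ_ne_zero _)]
    congr 2
    · push_cast; ring_nf
    · norm_num
  simp_rw [s1, s2, s3]
  exact s4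

/-- the pointwise bound -/
theorem ptw (z : Fin 4 → ℝ) :
    Real.sqrt (5 / 3 - q0 z) ^ 2 ≤ 4 / 5 * max 0 (49 / 12 - z 0 - z 1 - z 2 - z 3) := by
  have e : q0 z = 8 / 5 + 4 / 5 * (z 0 + z 1 + z 2 + z 3 - 4)
      + 2 * ((z 0 - 1) ^ 2 + (z 1 - 1) ^ 2 + (z 2 - 1) ^ 2 + (z 3 - 1) ^ 2)
      - 2 / 5 * (z 0 + z 1 + z 2 + z 3 - 4) ^ 2 := by
    simp only [q0, Fin.sum_univ_four]
    ring
  have e2 : (z 0 + z 1 + z 2 + z 3 - 4) ^ 2 ≤
      4 * ((z 0 - 1) ^ 2 + (z 1 - 1) ^ 2 + (z 2 - 1) ^ 2 + (z 3 - 1) ^ 2) := by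
    nlinarith [sq_nonneg ((z 0 - 1) - (z 1 - 1)), sq_nonneg ((z 0 - 1) - (z 2 - 1)),
      sq_nonneg ((z 0 - 1) - (z 3 - 1)), sq_nonneg ((z 1 - 1) - (z 2 - 1)),
      sq_nonneg ((z 1 - 1) - (z 3 - 1)), sq_nonneg ((z 2 - 1) - (z 3 - 1))]
  have e3 : 0 ≤ (z 0 - 1) ^ 2 + (z 1 - 1) ^ 2 + (z 2 - 1) ^ 2 + (z 3 - 1) ^ 2 := by positivity
  have e4 : 5 / 3 - q0 z ≤ 4 / 5 * (49 / 12 - z 0 - z 1 - z 2 - z 3) := by
    rw [e]
    linarith
  rcases le_or_gt (5 / 3 - q0 z) 0 with h | h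
  · rw [Real.sqrt_eq_zero_of_nonpos h]
    have : 0 ≤ max 0 (49 / 12 - z 0 - z 1 - z 2 - z 3) := le_max_left _ _
    nlinarith
  · rw [Real.sq_sqrt h.le]
    have := le_max_right 0 (49 / 12 - z 0 - z 1 - z 2 - z 3)
    linarith

theorem meas_A : MeasurableSet {z : Fin 4 → ℝ | ∀ i, 1 < z i} := by
  rw [Set.ofPred_forall]
  exact MeasurableSet.iInter fun i => measurableSet_lt measurable_const (measurable_pi_apply i)

/-- comparison with the iterated integral -/
theorem comp (g : (Fin 4 → ℝ) → ENNReal) (hg : Measurable g) (G : ℝ → ℝ → ℝ → ℝ → ENNReal)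
    (h : ∀ a b c d : ℝ, 1 < a → 1 < b → 1 < c → 1 < d → g ![a, b, c, d] ≤ G a b c d) :
    ∫⁻ z in {z : Fin 4 → ℝ | ∀ i, 1 < z i}, g z ≤
      ∫⁻ a in Set.Ioi (1 : ℝ), ∫⁻ b in Set.Ioi (1 : ℝ), ∫⁻ c in Set.Ioi (1 : ℝ),
        ∫⁻ d in Set.Ioi (1 : ℝ), G a b c d := by
  rw [← lintegral_indicator meas_A, QV.it_four _ (hg.indicator meas_A)]
  have key : ∀ a b c d : ℝ, ¬ (1 < a ∧ 1 < b ∧ 1 < c ∧ 1 < d) →
      ({z : Fin 4 → ℝ | ∀ i, 1 < z i}.indicator g ![a, b, c, d]) = 0 := by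
    intro a b c d hn
    apply Set.indicator_of_notMem
    intro hm
    apply hn
    have hm' : ∀ i : Fin 4, 1 < (![a, b, c, d] : Fin 4 → ℝ) i := hm
    exact ⟨hm' 0, hm' 1, hm' 2, hm' 3⟩
  rw [← lintegral_indicator measurableSet_Ioi]
  refine lintegral_mono fun a => ?_
  by_cases ha : 1 < a
  · rw [Set.indicator_of_mem (Set.mem_Ioi.2 ha), ← lintegral_indicator measurableSet_Ioi]
    refine lintegral_mono fun b => ?_
    by_cases hb : 1 < b
    · rw [Set.indicator_of_mem (Set.mem_Ioi.2 hb), ← lintegral_indicator measurableSet_Ioi]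
      refine lintegral_mono fun c => ?_
      by_cases hc : 1 < c
      · rw [Set.indicator_of_mem (Set.mem_Ioi.2 hc), ← lintegral_indicator measurableSet_Ioi]
        refine lintegral_mono fun d => ?_
        by_cases hd : 1 < d
        · rw [Set.indicator_of_mem (Set.mem_Ioi.2 hd)]
          refine le_trans ?_ (h a b c d ha hb hc hd)
          exact Set.indicator_le_self _ _ _
        · rw [key a b c d (fun h => hd h.2.2.2)]
          exact zero_le
      · have : ∀ d, ({z : Fin 4 → ℝ | ∀ i, 1 < z i}.indicator g ![a, b, c, d]) = 0 :=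
          fun d => key a b c d (fun h => hc h.2.2.1)
        simp only [this, lintegral_zero]
        exact zero_le
    · have : ∀ c d, ({z : Fin 4 → ℝ | ∀ i, 1 < z i}.indicator g ![a, b, c, d]) = 0 :=
        fun c d => key a b c d (fun h => hb h.2.1)
      simp only [this, lintegral_zero]
      exact zero_le
  · have : ∀ b c d, ({z : Fin 4 → ℝ | ∀ i, 1 < z i}.indicator g ![a, b, c, d]) = 0 :=
      fun b c d => key a b c d (fun h => ha h.1)
    simp only [this, lintegral_zero]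
    exact zero_le

theorem meas_q0 : Continuous q0 := by
  unfold q0
  fun_prop

end X4M

open X4M in
theorem specX4 : SpecX4 := by
  constructor
  · refine le_trans (comp (fun z => ENNReal.ofReal (Real.sqrt (5 / 3 - q0 z) ^ 2)) ?_
      (fun a b c d => ENNReal.ofReal (4 / 5 * (max 0 (49 / 12 - a - b - c - d)) ^ 1)) ?_) ?_
    · have := meas_q0
      have h2 : Continuous fun z => Real.sqrt (5 / 3 - q0 z) ^ 2 := by fun_prop
      exact h2.measurable.ennreal_ofReal
    · intro a b c d _ _ _ _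
      apply ENNReal.ofReal_le_ofReal
      have h := ptw ![a, b, c, d]
      rw [pow_one]
      exact h
    · rw [four (4 / 5) 1 (by norm_num) (by norm_num)]
      apply ENNReal.ofReal_le_ofReal
      norm_num
  · refine le_trans (comp (fun z => ENNReal.ofReal (Real.sqrt (5 / 3 - q0 z) ^ 4)) ?_
      (fun a b c d => ENNReal.ofReal (16 / 25 * (max 0 (49 / 12 - a - b - c - d)) ^ 2)) ?_) ?_
    · have := meas_q0
      have h2 : Continuous fun z => Real.sqrt (5 / 3 - q0 z) ^ 4 := by fun_prop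
      exact h2.measurable.ennreal_ofReal
    · intro a b c d _ _ _ _
      apply ENNReal.ofReal_le_ofReal
      have h := ptw ![a, b, c, d]
      have h2 : (Real.sqrt (5 / 3 - q0 ![a, b, c, d]) ^ 2) ^ 2 ≤
          (4 / 5 * max 0 (49 / 12 - a - b - c - d)) ^ 2 := pow_le_pow_left₀ (by positivity) h 2
      calc Real.sqrt (5 / 3 - q0 ![a, b, c, d]) ^ 4
          = (Real.sqrt (5 / 3 - q0 ![a, b, c, d]) ^ 2) ^ 2 := by ring
        _ ≤ (4 / 5 * max 0 (49 / 12 - a - b - c - d)) ^ 2 := h2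
        _ = _ := by ring
    · rw [four (16 / 25) 2 (by norm_num) (by norm_num)]
      apply ENNReal.ofReal_le_ofReal
      norm_num

end Pool.Agent.Lib.MP_f1379f_gt.FV
end
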