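import Pool.Agent.Lib.MP_f1379f_gt.FV.SpecO
import Pool.Agent.Lib.MP_f1379f_gt.FV.X4

/-!
# V6G: the part of the wall inside the ball, in dimension 6
-/

set_option autoImplicit false
set_option linter.unusedSimpArgs false

namespace Pool.Agent.Lib.MP_f1379f_gt.FV

open MeasureTheory Real

namespace V6GM

/-- The cap of `w`. -/
def C (w : E6) : Set E6 := {x : E6 | ‖x‖ ^ 2 < 1 / 3 ∧ 1 / 3 < (inner ℝ w x : ℝ)}

theorem meas_C (w : E6) : MeasurableSet (C w) := by
  have c1 : Continuous (fun x : E6 => ‖x‖ ^ 2) := by fun_prop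
  have c2 : Continuous (fun x : E6 => (inner ℝ w x : ℝ)) := by fun_prop
  exact ((isOpen_lt c1 continuous_const).inter (isOpen_lt continuous_const c2)).measurableSet

theorem inter_C (w v : E6) : C w ∩ C v =
    {x : E6 | ‖x‖ ^ 2 < 1 / 3 ∧ 1 / 3 < (inner ℝ w x : ℝ) ∧ 1 / 3 < (inner ℝ v x : ℝ)} := by
  ext x
  simp only [C, Set.mem_inter_iff, Set.mem_ofPred_eq]
  tauto

/-- No point is in three caps. -/
theorem no3 (a b c x : E6) (ha : ‖a‖ ^ 2 = 2 / 3) (hb : ‖b‖ ^ 2 = 2 / 3) (hc : ‖c‖ ^ 2 = 2 / 3)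
    (hab : (inner ℝ a b : ℝ) ≤ 1 / 6) (hac : (inner ℝ a c : ℝ) ≤ 1 / 6)
    (hbc : (inner ℝ b c : ℝ) ≤ 1 / 6) (xa : x ∈ C a) (xb : x ∈ C b) (xc : x ∈ C c) : False := by
  have h1 : 1 < (inner ℝ (a + b + c) x : ℝ) := by
    rw [inner_add_left, inner_add_left]
    linarith [xa.2, xb.2, xc.2]
  have h2 : ‖a + b + c‖ ^ 2 ≤ 3 := by
    rw [norm_add_sq_real, norm_add_sq_real, inner_add_left]
    linarith
  have h3 := real_inner_le_norm (a + b + c) x
  have h4 : (1 : ℝ) < (‖a + b + c‖ * ‖x‖) ^ 2 := by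
    have : 1 < ‖a + b + c‖ * ‖x‖ := lt_of_lt_of_le h1 h3
    nlinarith
  rw [mul_pow] at h4
  have h5 : ‖x‖ ^ 2 < 1 / 3 := xa.1
  have h6 : ‖a + b + c‖ ^ 2 * ‖x‖ ^ 2 ≤ 3 * ‖x‖ ^ 2 :=
    mul_le_mul_of_nonneg_right h2 (sq_nonneg _)
  linarith

/-- No point is in two caps with product `-1/3`. -/
theorem no2 (a b x : E6) (ha : ‖a‖ ^ 2 = 2 / 3) (hb : ‖b‖ ^ 2 = 2 / 3)
    (hab : (inner ℝ a b : ℝ) = -1 / 3) (xa : x ∈ C a) (xb : x ∈ C b) : False := by
  have h1 : 2 / 3 < (inner ℝ (a + b) x : ℝ) := by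
    rw [inner_add_left]
    linarith [xa.2, xb.2]
  have h2 : ‖a + b‖ ^ 2 ≤ 2 / 3 := by
    rw [norm_add_sq_real]
    linarith
  have h3 := real_inner_le_norm (a + b) x
  have h4 : (4 / 9 : ℝ) < (‖a + b‖ * ‖x‖) ^ 2 := by
    have : 2 / 3 < ‖a + b‖ * ‖x‖ := lt_of_lt_of_le h1 h3
    nlinarith
  rw [mul_pow] at h4
  have h5 : ‖x‖ ^ 2 < 1 / 3 := xa.1
  have h6 : ‖a + b‖ ^ 2 * ‖x‖ ^ 2 ≤ 2 / 3 * ‖x‖ ^ 2 :=
    mul_le_mul_of_nonneg_right h2 (sq_nonneg _)
  linarith

section
variable (X : Finset E6) (hX1 : ∀ w ∈ X, ‖w‖ ^ 2 = 2 / 3)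
  (hX2 : ∀ w ∈ X, ∀ v ∈ X, w ≠ v → (inner ℝ w v : ℝ) = 1 / 6 ∨ (inner ℝ w v : ℝ) = -1 / 3)

/-- Neighbours. -/
noncomputable def nbX (w : E6) : Finset E6 := by
  classical exact X.filter (fun v => (inner ℝ w v : ℝ) = 1 / 6)

/-- The wall. -/
def F : Set E6 := {x : E6 | (∀ w ∈ X, (inner ℝ w x : ℝ) ≤ 1 / 3) ∧ ‖x‖ ^ 2 ≤ 1 / 3}

theorem meas_F : MeasurableSet (F X) := by
  have : F X = (⋂ w ∈ X, {x : E6 | (inner ℝ w x : ℝ) ≤ 1 / 3}) ∩ {x : E6 | ‖x‖ ^ 2 ≤ 1 / 3} := by
    ext x
    simp [F]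
  rw [this]
  have c1 : Continuous (fun x : E6 => ‖x‖ ^ 2) := by fun_prop
  apply MeasurableSet.inter
  · apply MeasurableSet.biInter (Finset.countable_toSet X)
    intro w _
    have c2 : Continuous (fun x : E6 => (inner ℝ w x : ℝ)) := by fun_prop
    exact (isClosed_le c2 continuous_const).measurableSet
  · exact (isClosed_le c1 continuous_const).measurableSet

include hX1 hX2

/-- Pointwise inequality. -/
theorem pointwise (x : E6) :
    2 * ({x : E6 | ‖x‖ ^ 2 < 1 / 3}.indicator (fun _ => (1 : ENNReal)) x) +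
      ∑ w ∈ X, ∑ v ∈ nbX X w, (C w ∩ C v).indicator (fun _ => (1 : ENNReal)) x ≤
    2 * ((F X).indicator (fun _ => (1 : ENNReal)) x) +
      2 * ∑ w ∈ X, (C w).indicator (fun _ => (1 : ENNReal)) x := by
  classical
  by_cases hx : ‖x‖ ^ 2 < 1 / 3
  · obtain ⟨S, hS⟩ : ∃ S : Finset E6, S = X.filter (fun w => x ∈ C w) := ⟨_, rfl⟩
    have hmem : ∀ w, w ∈ S ↔ w ∈ X ∧ x ∈ C w := by intro w; rw [hS, Finset.mem_filter]
    have e1 : ∑ w ∈ X, (C w).indicator (fun _ => (1 : ENNReal)) x = (S.card : ENNReal) := by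
      rw [hS, Finset.card_filter]
      push_cast
      apply Finset.sum_congr rfl
      intro w _
      by_cases h : x ∈ C w
      · rw [Set.indicator_of_mem h, if_pos h]
      · rw [Set.indicator_of_notMem h, if_neg h]
    have e2 : ∑ w ∈ X, ∑ v ∈ nbX X w, (C w ∩ C v).indicator (fun _ => (1 : ENNReal)) x ≤
        ((S.card * (S.card - 1) : ℕ) : ENNReal) := by
      have h1 : ∀ w ∈ X, ∑ v ∈ nbX X w, (C w ∩ C v).indicator (fun _ => (1 : ENNReal)) x ≤
          if w ∈ S then ((S.card - 1 : ℕ) : ENNReal) else 0 := by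
        intro w hw
        by_cases hwS : w ∈ S
        · rw [if_pos hwS, ← Finset.card_erase_of_mem hwS]
          have h2 : ∑ v ∈ nbX X w, (C w ∩ C v).indicator (fun _ => (1 : ENNReal)) x =
              (((nbX X w).filter (fun v => x ∈ C w ∩ C v)).card : ENNReal) := by
            rw [Finset.card_filter]
            push_cast
            apply Finset.sum_congr rfl
            intro v _
            by_cases h : x ∈ C w ∩ C v
            · rw [Set.indicator_of_mem h, if_pos h]
            · rw [Set.indicator_of_notMem h, if_neg h]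
          rw [h2]
          gcongr
          intro v hv
          rw [Finset.mem_filter] at hv
          obtain ⟨hv1, hv2⟩ := hv
          have hv3 : v ∈ X ∧ (inner ℝ w v : ℝ) = 1 / 6 := by
            simpa [nbX] using hv1
          rw [Finset.mem_erase, hmem]
          refine ⟨?_, hv3.1, hv2.2⟩
          intro h
          rw [h] at hv3
          have h4 := hX1 w hw
          rw [← real_inner_self_eq_norm_sq, hv3.2] at h4
          norm_num at h4
        · rw [if_neg hwS]
          apply le_of_eq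
          apply Finset.sum_eq_zero
          intro v _
          apply Set.indicator_of_notMem
          intro h
          exact hwS ((hmem w).mpr ⟨hw, h.1⟩)
      refine le_trans (Finset.sum_le_sum h1) ?_
      rw [← Finset.sum_filter]
      have h5 : X.filter (fun w => w ∈ S) = S := by
        ext w
        rw [Finset.mem_filter, hmem]
        tauto
      rw [h5, Finset.sum_const, nsmul_eq_mul]
      push_cast
      exact le_rfl
    have hcard : S.card ≤ 2 := by
      by_contra hc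
      push Not at hc
      rw [Finset.two_lt_card] at hc
      obtain ⟨a, ha, b, hb, c, hc, hab, hac, hbc⟩ := hc
      rw [hmem] at ha hb hc
      have k : ∀ w ∈ X, ∀ v ∈ X, w ≠ v → (inner ℝ w v : ℝ) ≤ 1 / 6 := by
        intro w hw v hv hwv
        rcases hX2 w hw v hv hwv with h | h <;> rw [h]
        norm_num
      exact no3 a b c x (hX1 a ha.1) (hX1 b hb.1) (hX1 c hc.1) (k a ha.1 b hb.1 hab)
        (k a ha.1 c hc.1 hac) (k b hb.1 c hc.1 hbc) ha.2 hb.2 hc.2
    rw [e1, Set.indicator_of_mem (show x ∈ {x : E6 | ‖x‖ ^ 2 < 1 / 3} from hx)]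
    rcases Nat.eq_zero_or_pos S.card with h0 | h0
    · have hF : x ∈ F X := by
        refine ⟨?_, hx.le⟩
        intro w hw
        by_contra hc
        push Not at hc
        have : w ∈ S := (hmem w).mpr ⟨hw, hx, hc⟩
        rw [Finset.card_eq_zero] at h0
        rw [h0] at this
        simp at this
      rw [Set.indicator_of_mem hF]
      rw [h0] at e2 ⊢
      simp only [Nat.zero_mul, Nat.cast_zero, nonpos_iff_eq_zero] at e2
      rw [e2]
      simp
    · have h6 : (2 : ENNReal) * 1 + ((S.card * (S.card - 1) : ℕ) : ENNReal) ≤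
          2 * (S.card : ENNReal) := by
        have : 2 * 1 + S.card * (S.card - 1) ≤ 2 * S.card := by
          rcases (by omega : S.card = 1 ∨ S.card = 2) with h | h <;> rw [h]
        exact_mod_cast this
      calc (2 : ENNReal) * 1 + ∑ w ∈ X, ∑ v ∈ nbX X w,
            (C w ∩ C v).indicator (fun _ => (1 : ENNReal)) x
          ≤ 2 * 1 + ((S.card * (S.card - 1) : ℕ) : ENNReal) := by gcongr
        _ ≤ 2 * (S.card : ENNReal) := h6
        _ ≤ 2 * ((F X).indicator (fun _ => (1 : ENNReal)) x) + 2 * (S.card : ENNReal) :=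
          le_add_self
  · have e0 : ({x : E6 | ‖x‖ ^ 2 < 1 / 3}.indicator (fun _ => (1 : ENNReal)) x) = 0 :=
      Set.indicator_of_notMem (show x ∉ {x : E6 | ‖x‖ ^ 2 < 1 / 3} from hx) _
    have e1 : ∑ w ∈ X, ∑ v ∈ nbX X w, (C w ∩ C v).indicator (fun _ => (1 : ENNReal)) x = 0 := by
      apply Finset.sum_eq_zero
      intro w _
      apply Finset.sum_eq_zero
      intro v _
      apply Set.indicator_of_notMem
      intro h
      exact hx h.1.1
    rw [e0, e1]
    simp

end
end V6GM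

open V6GM QV

/-- **SpecV6G.** -/
theorem specV6G : SpecV6G := by
  classical
  intro X hX1 hX2 hX3 hX4
  have hp := pointwise X hX1 hX2
  have hB : MeasurableSet {x : E6 | ‖x‖ ^ 2 < 1 / 3} := by
    have c1 : Continuous (fun x : E6 => ‖x‖ ^ 2) := by fun_prop
    exact (isOpen_lt c1 continuous_const).measurableSet
  have hint := lintegral_mono (μ := (volume : Measure E6)) hp
  have mB : Measurable (fun x : E6 => ({x : E6 | ‖x‖ ^ 2 < 1 / 3}.indicator
      (fun _ => (1 : ENNReal)) x)) := measurable_const.indicator hB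
  have mC : ∀ w : E6, Measurable (fun x : E6 => ((C w).indicator
      (fun _ => (1 : ENNReal)) x)) := fun w => measurable_const.indicator (meas_C w)
  have mCC : ∀ w v : E6, Measurable (fun x : E6 => ((C w ∩ C v).indicator
      (fun _ => (1 : ENNReal)) x)) :=
    fun w v => measurable_const.indicator ((meas_C w).inter (meas_C v))
  have mF : Measurable (fun x : E6 => ((F X).indicator
      (fun _ => (1 : ENNReal)) x)) := measurable_const.indicator (meas_F X)
  rw [lintegral_add_left (mB.const_mul 2), lintegral_add_left (mF.const_mul 2),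
    lintegral_const_mul _ mB, lintegral_const_mul _ mF,
    lintegral_const_mul _ (Finset.measurable_sum _ (fun w _ => mC w)),
    lintegral_finsetSum _ (fun w _ => mC w),
    lintegral_finsetSum _ (fun w _ => Finset.measurable_sum _ (fun v _ => mCC w v)),
    lintegral_indicator_const hB, lintegral_indicator_const (meas_F X)] at hint
  have e1 : ∑ w ∈ X, ∫⁻ x : E6, (C w).indicator (fun _ => (1 : ENNReal)) x ≤
      27 * ENNReal.ofReal 0.00317198 := by
    have : ∀ w ∈ X, ∫⁻ x : E6, (C w).indicator (fun _ => (1 : ENNReal)) x ≤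
        ENNReal.ofReal 0.00317198 := by
      intro w hw
      rw [lintegral_indicator_const (meas_C w), one_mul]
      have h1 := cap6_vol w (hX1 w hw)
      change volume {x : E6 | ‖x‖ ^ 2 < 1 / 3 ∧ 1 / 3 < (inner ℝ w x : ℝ)} ≤ _
      rw [h1]
      exact ENNReal.ofReal_le_ofReal cap6_upper.le
    refine le_trans (Finset.sum_le_card_nsmul X _ _ this) ?_
    rw [hX3, nsmul_eq_mul]
    norm_num
  have e2 : 432 * ENNReal.ofReal 0.00001768 ≤
      ∑ w ∈ X, ∫⁻ x : E6, ∑ v ∈ nbX X w, (C w ∩ C v).indicator (fun _ => (1 : ENNReal)) x := by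
    have : ∀ w ∈ X, 16 * ENNReal.ofReal 0.00001768 ≤
        ∫⁻ x : E6, ∑ v ∈ nbX X w, (C w ∩ C v).indicator (fun _ => (1 : ENNReal)) x := by
      intro w hw
      rw [lintegral_finsetSum _ (fun v _ => mCC w v)]
      have hc : (nbX X w).card = 16 := by
        have h1 := hX4 w hw
        have h2 : ({v : E6 | v ∈ X ∧ (inner ℝ w v : ℝ) = 1 / 6}) = ((nbX X w : Finset E6) : Set E6) := by
          ext v
          simp [nbX]
        rw [h2, Set.ncard_coe_finset] at h1
        exact h1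
      have h3 : ∀ v ∈ nbX X w, ENNReal.ofReal 0.00001768 ≤
          ∫⁻ x : E6, (C w ∩ C v).indicator (fun _ => (1 : ENNReal)) x := by
        intro v hv
        have hv3 : v ∈ X ∧ (inner ℝ w v : ℝ) = 1 / 6 := by
          simpa [nbX] using hv
        rw [lintegral_indicator_const ((meas_C w).inter (meas_C v)), one_mul, inter_C]
        exact pair6_lower w v (hX1 w hw) (hX1 v hv3.1) hv3.2
      have h4 := Finset.card_nsmul_le_sum (nbX X w) _ _ h3
      rw [hc, nsmul_eq_mul] at h4
      exact_mod_cast h4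
    have h5 := Finset.card_nsmul_le_sum X _ _ this
    rw [hX3, nsmul_eq_mul] at h5
    refine le_trans (le_of_eq ?_) h5
    rw [← mul_assoc]
    norm_num
  have e3 : ENNReal.ofReal 0.191396 ≤ volume {x : E6 | ‖x‖ ^ 2 < 1 / 3} := by
    rw [PV.vol_E6, max_eq_right (by norm_num)]
    exact ENNReal.ofReal_le_ofReal ball6_lower.le
  rw [one_mul, one_mul] at hint
  change ENNReal.ofReal (10957 / 100000) ≤ volume (F X)
  have e4 : 2 * ENNReal.ofReal 0.191396 + 432 * ENNReal.ofReal 0.00001768 ≤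
      2 * volume (F X) + 2 * (27 * ENNReal.ofReal 0.00317198) := by
    refine le_trans (add_le_add (mul_le_mul_right e3 2) e2) (le_trans hint ?_)
    exact add_le_add le_rfl (mul_le_mul_right e1 2)
  have hfin : volume (F X) ≠ ⊤ := by
    have hsub : F X ⊆ Metric.ball (0 : E6) 1 := by
      rintro y ⟨_, hy⟩
      rw [mem_ball_zero_iff]
      nlinarith [norm_nonneg y]
    exact ne_top_of_le_ne_top measure_ball_lt_top.ne (measure_mono hsub)
  obtain ⟨m, hm⟩ : ∃ m : ℝ, m = (volume (F X)).toReal := ⟨_, rfl⟩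
  have hm0 : 0 ≤ m := by rw [hm]; exact ENNReal.toReal_nonneg
  have hvm : volume (F X) = ENNReal.ofReal m := by rw [hm, ENNReal.ofReal_toReal hfin]
  rw [hvm] at e4 ⊢
  have c2 : (2 : ENNReal) = ENNReal.ofReal 2 := by norm_num
  have c432 : (432 : ENNReal) = ENNReal.ofReal 432 := by norm_num
  have c27 : (27 : ENNReal) = ENNReal.ofReal 27 := by norm_num
  rw [c2, c432, c27, ← ENNReal.ofReal_mul (by norm_num), ← ENNReal.ofReal_mul (by norm_num),
    ← ENNReal.ofReal_mul (by norm_num), ← ENNReal.ofReal_mul (by norm_num),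
    ← ENNReal.ofReal_mul (by norm_num), ← ENNReal.ofReal_add (by norm_num) (by norm_num),
    ← ENNReal.ofReal_add (by positivity) (by norm_num),
    ENNReal.ofReal_le_ofReal_iff (by positivity)] at e4
  apply ENNReal.ofReal_le_ofReal
  norm_num at e4
  linarith

end Pool.Agent.Lib.MP_f1379f_gt.FV
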