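import Pool.Agent.Lib.MP_f1379f_gt.FV.SpecO
import Pool.Agent.Lib.MP_f1379f_gt.EV.VLB
import Pool.Agent.Lib.MP_f1379f_gt.EV.Spec
import Pool.Agent.Lib.MP_f1379f_gt.FV.SpecX
import Pool.Agent.Lib.MP_f1379f_gt.FV.TL2

section
/-!
# TLC: comparison of the outer volumes
-/
set_option autoImplicit false

namespace Pool.Agent.Lib.MP_f1379f_gt.FV

open MeasureTheory

namespace TLCM

/-- the gauge of the ball -/
noncomputable def bb (y : E) : ℝ := Real.sqrt (3 / 5) * ‖y‖

theorem bb_sq (y : E) : bb y ^ 2 = 3 / 5 * ‖y‖ ^ 2 := by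
  unfold bb
  rw [mul_pow, Real.sq_sqrt (by norm_num)]

theorem bb_nonneg (y : E) : 0 ≤ bb y := by unfold bb; positivity

theorem bb_cont : Continuous bb := by unfold bb; fun_prop

theorem bb_low (y : E) : 1 / 3 * ‖y‖ ≤ bb y := by
  have h1 : (1 / 3 : ℝ) ≤ Real.sqrt (3 / 5) := by
    apply Real.le_sqrt_of_sq_le
    norm_num
  exact mul_le_mul_of_nonneg_right h1 (norm_nonneg y)

theorem bb_hom (y : E) {t : ℝ} (ht : 0 < t) : bb (t • y) = t * bb y := by
  unfold bb
  rw [norm_smul, Real.norm_of_nonneg ht.le]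
  ring

theorem mx_hom (u : E → E) (y : E) {t : ℝ} (ht : 0 < t) : mx u (t • y) = t * mx u y := by
  unfold mx
  rw [Real.mul_iSup_of_nonneg ht.le]
  congr 1
  funext e
  rw [real_inner_smul_right]

theorem mx_low (hUEF : SpecUEF) (hKCO : SpecKCO) {u : E → E}
    (hu : ∀ e ∈ UE, ‖u e - e‖ ≤ 17 / 50) (y : E) : 1 / 3 * ‖y‖ ≤ mx u y := by
  obtain ⟨e, he, h0, h1⟩ := hUEF.cov y
  have h2 := hKCO.le u e he y
  have h3 : |(inner ℝ (u e - e) y : ℝ)| ≤ 17 / 50 * ‖y‖ :=
    (abs_real_inner_le_norm _ _).trans (mul_le_mul_of_nonneg_right (hu e he) (norm_nonneg y))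
  have h4 := (abs_le.1 h3).1
  rw [inner_sub_left] at h4
  have h5 := norm_nonneg y
  have h6 : 101 / 150 * ‖y‖ ≤ (inner ℝ e y : ℝ) := by
    by_contra h7
    push Not at h7
    have h8 : (inner ℝ e y : ℝ) ^ 2 < (101 / 150 * ‖y‖) ^ 2 := by
      apply pow_lt_pow_left₀ h7 h0 (by norm_num)
    nlinarith
  linarith

theorem mx_diff (hKCO : SpecKCO) {u : E → E}
    (hu : ∀ e ∈ UE, ‖u e - e‖ ≤ 17 / 50) (y : E) : |mx u y - mx id y| ≤ 17 / 50 * ‖y‖ := by
  have h3 : ∀ e ∈ UE, |(inner ℝ (u e - e) y : ℝ)| ≤ 17 / 50 * ‖y‖ := fun e he =>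
    (abs_real_inner_le_norm _ _).trans (mul_le_mul_of_nonneg_right (hu e he) (norm_nonneg y))
  rw [abs_le]
  constructor
  · have h : mx id y ≤ mx u y + 17 / 50 * ‖y‖ := by
      refine hKCO.ge id y _ fun e he => ?_
      have h1 := hKCO.le u e he y
      have h2 := (abs_le.1 (h3 e he)).1
      rw [inner_sub_left] at h2
      show (inner ℝ e y : ℝ) ≤ _
      linarith
    linarith
  · have h : mx u y ≤ mx id y + 17 / 50 * ‖y‖ := by
      refine hKCO.ge u y _ fun e he => ?_
      have h1 : (inner ℝ e y : ℝ) ≤ mx id y := hKCO.le id e he y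
      have h2 := (abs_le.1 (h3 e he)).2
      rw [inner_sub_left] at h2
      linarith
    linarith

theorem id_small : ∀ e ∈ UE, ‖id e - e‖ ≤ (17 / 50 : ℝ) := by
  intro e _
  simp only [id, sub_self, norm_zero]
  norm_num

theorem exp_int : Integrable (fun y : E => Real.exp (-(1 / 6 * ‖y‖))) := by
  have h := (EV.CONM.int0 (C := Set.univ) (u := fun y : E => 1 / 6 * ‖y‖) (κ := 1 / 6)
    (by fun_prop) (fun _ _ _ _ => Set.mem_univ _)
    (fun y _ t ht => by rw [norm_smul, Real.norm_of_nonneg ht.le]; ring) (by norm_num)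
    (fun _ _ => le_rfl)).1
  rwa [integrableOn_univ] at h

theorem poly_exp (k : ℕ) : Integrable (fun y : E => ‖y‖ ^ k * Real.exp (-(1 / 3 * ‖y‖))) := by
  refine (exp_int.const_mul ((k.factorial : ℝ) * 6 ^ k)).mono' ?_ ?_
  · exact (by fun_prop : Measurable fun y : E => ‖y‖ ^ k * Real.exp (-(1 / 3 * ‖y‖))).aestronglyMeasurable
  · refine Filter.Eventually.of_forall fun y => ?_
    rw [Real.norm_of_nonneg (by positivity)]
    have h1 := Real.pow_div_factorial_le_exp (1 / 6 * ‖y‖) (by positivity) k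
    have h2 : Real.exp (-(1 / 3 * ‖y‖)) =
        Real.exp (-(1 / 6 * ‖y‖)) * Real.exp (-(1 / 6 * ‖y‖)) := by
      rw [← Real.exp_add]; congr 1; ring
    have h3 : ‖y‖ ^ k ≤ (k.factorial : ℝ) * 6 ^ k * Real.exp (1 / 6 * ‖y‖) := by
      rw [div_le_iff₀ (by positivity)] at h1
      have h4 : ‖y‖ ^ k = 6 ^ k * (1 / 6 * ‖y‖) ^ k := by
        rw [← mul_pow]; congr 1; ring
      rw [h4]
      have h5 : (0 : ℝ) ≤ 6 ^ k := by positivity
      nlinarith
    have h6 : Real.exp (1 / 6 * ‖y‖) * Real.exp (-(1 / 6 * ‖y‖)) = 1 := by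
      rw [← Real.exp_add]; simp
    rw [h2]
    have h7 := Real.exp_pos (-(1 / 6 * ‖y‖))
    calc ‖y‖ ^ k * (Real.exp (-(1 / 6 * ‖y‖)) * Real.exp (-(1 / 6 * ‖y‖)))
        ≤ ((k.factorial : ℝ) * 6 ^ k * Real.exp (1 / 6 * ‖y‖)) *
          (Real.exp (-(1 / 6 * ‖y‖)) * Real.exp (-(1 / 6 * ‖y‖))) :=
        mul_le_mul_of_nonneg_right h3 (by positivity)
      _ = (k.factorial : ℝ) * 6 ^ k * (Real.exp (1 / 6 * ‖y‖) * Real.exp (-(1 / 6 * ‖y‖))) *
          Real.exp (-(1 / 6 * ‖y‖)) := by ring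
      _ = (k.factorial : ℝ) * 6 ^ k * Real.exp (-(1 / 6 * ‖y‖)) := by rw [h6, mul_one]

theorem dens_meas (hKCO : SpecKCO) :
    Measurable fun y : E => ENNReal.ofReal (Real.exp (-mx id y) / 40320) := by
  have := (hKCO.mxc id).measurable
  fun_prop

theorem dens_toReal (y : E) :
    (ENNReal.ofReal (Real.exp (-mx id y) / 40320)).toReal = Real.exp (-mx id y) / 40320 :=
  ENNReal.toReal_ofReal (by positivity)

theorem int_muW (hKCO : SpecKCO) (g : E → ℝ) :
    ∫ y, g y ∂muW = ∫ y in WW, Real.exp (-mx id y) / 40320 * g y := by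
  unfold muW
  rw [integral_withDensity_eq_integral_toReal_smul (dens_meas hKCO)
    (Filter.Eventually.of_forall fun y => ENNReal.ofReal_lt_top)]
  simp_rw [dens_toReal, smul_eq_mul]

theorem integrable_muW (hKCO : SpecKCO) (g : E → ℝ) :
    Integrable g muW ↔ IntegrableOn (fun y => Real.exp (-mx id y) / 40320 * g y) WW := by
  unfold muW
  rw [integrable_withDensity_iff_integrable_smul' (dens_meas hKCO)
    (Filter.Eventually.of_forall fun y => ENNReal.ofReal_lt_top)]
  simp_rw [dens_toReal, smul_eq_mul]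
  rfl

theorem int_pow (hUEF : SpecUEF) (hKCO : SpecKCO) (k : ℕ) :
    Integrable (fun y : E => ‖y‖ ^ k) muW := by
  rw [integrable_muW hKCO]
  refine (poly_exp k).integrableOn.mono' ?_ ?_
  · have := (hKCO.mxc id).measurable
    exact (by fun_prop : Measurable fun y : E =>
      Real.exp (-mx id y) / 40320 * ‖y‖ ^ k).aestronglyMeasurable
  · refine Filter.Eventually.of_forall fun y => ?_
    rw [Real.norm_of_nonneg (by positivity)]
    have h1 := mx_low hUEF hKCO id_small y
    have h2 : Real.exp (-mx id y) ≤ Real.exp (-(1 / 3 * ‖y‖)) :=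
      Real.exp_le_exp.2 (by linarith)
    have h3 := Real.exp_pos (-mx id y)
    have h4 : (0 : ℝ) ≤ ‖y‖ ^ k := by positivity
    rw [mul_comm]
    refine mul_le_mul_of_nonneg_left ?_ h4
    linarith

theorem mem_iff (hKCO : SpecKCO) (u : E → E) (y : E) :
    (∀ e ∈ UE, (inner ℝ (u e) y : ℝ) ≤ 1) ↔ mx u y ≤ 1 :=
  ⟨fun h => hKCO.ge u y 1 h, fun h e he => (hKCO.le u e he y).trans h⟩

theorem bal_iff (y : E) : y ∉ bal ↔ 1 ≤ bb y := by
  have h1 := bb_sq y
  have h2 := bb_nonneg y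
  show ¬ (‖y‖ ^ 2 < 5 / 3) ↔ _
  constructor
  · intro h
    push Not at h
    by_contra h3
    push Not at h3
    have : bb y ^ 2 < 1 := by nlinarith
    linarith
  · intro h h3
    have : 1 ≤ bb y ^ 2 := by nlinarith
    linarith

theorem vol_eq (hUEF : SpecUEF) (hKCO : SpecKCO) {u : E → E}
    (hu : ∀ e ∈ UE, ‖u e - e‖ ≤ 17 / 50) :
    Integrable (fun y : E => max 0 (Real.exp (-mx u y) - Real.exp (-bb y))) ∧
    ∫ y, max 0 (Real.exp (-mx u y) - Real.exp (-bb y)) =
      40320 * (volume ({y : E | ∀ e ∈ UE, (inner ℝ (u e) y : ℝ) ≤ 1} \ bal)).toReal := by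
  set C : Set E := {y | mx u y ≤ bb y} with hCdef
  have hmm := (hKCO.mxc u).measurable
  have hbm := bb_cont.measurable
  have hCm : MeasurableSet C := measurableSet_le hmm hbm
  have hC : ∀ y ∈ C, ∀ t : ℝ, 0 < t → t • y ∈ C := by
    intro y hy t ht
    show mx u (t • y) ≤ bb (t • y)
    rw [mx_hom u y ht, bb_hom y ht]
    exact mul_le_mul_of_nonneg_left hy ht.le
  obtain ⟨i1, e1⟩ := EV.CONM.int0 (C := C) (u := mx u) (κ := 1 / 3) hmm hC
    (fun y _ t ht => mx_hom u y ht) (by norm_num) (fun y _ => mx_low hUEF hKCO hu y)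
  obtain ⟨i2, e2⟩ := EV.CONM.int0 (C := C) (u := bb) (κ := 1 / 3) hbm hC
    (fun y _ t ht => bb_hom y ht) (by norm_num) (fun y _ => bb_low y)
  have hmax : (fun y : E => max 0 (Real.exp (-mx u y) - Real.exp (-bb y))) =
      C.indicator (fun y => Real.exp (-mx u y) - Real.exp (-bb y)) := by
    funext y
    by_cases hy : y ∈ C
    · rw [Set.indicator_of_mem hy, max_eq_right]
      have h1 : mx u y ≤ bb y := hy
      have h2 : Real.exp (-bb y) ≤ Real.exp (-mx u y) := Real.exp_le_exp.2 (by linarith)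
      linarith
    · rw [Set.indicator_of_notMem hy, max_eq_left]
      have h1 : ¬ mx u y ≤ bb y := hy
      push Not at h1
      have h2 : Real.exp (-mx u y) ≤ Real.exp (-bb y) := Real.exp_le_exp.2 (by linarith)
      linarith
  have hV1 : volume (C ∩ {y | mx u y ≤ 1}) < ⊤ :=
    EV.CONM.fin (κ := 1 / 3) (by norm_num) (fun y _ => mx_low hUEF hKCO hu y)
  have hV2 : volume (C ∩ {y | bb y ≤ 1}) < ⊤ :=
    EV.CONM.fin (κ := 1 / 3) (by norm_num) (fun y _ => bb_low y)
  have hsub : C ∩ {y | bb y ≤ 1} ⊆ C ∩ {y | mx u y ≤ 1} := by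
    rintro y ⟨h1, h2⟩
    have h3 : mx u y ≤ bb y := h1
    have h4 : bb y ≤ 1 := h2
    exact ⟨h1, h3.trans h4⟩
  have hm2 : MeasurableSet (C ∩ {y | bb y ≤ 1}) :=
    hCm.inter (measurableSet_le hbm measurable_const)
  have hdiff : (volume ((C ∩ {y | mx u y ≤ 1}) \ (C ∩ {y | bb y ≤ 1}))).toReal =
      (volume (C ∩ {y | mx u y ≤ 1})).toReal - (volume (C ∩ {y | bb y ≤ 1})).toReal := by
    rw [measure_sdiff hsub hm2.nullMeasurableSet hV2.ne,
      ENNReal.toReal_sub_of_le (measure_mono hsub) hV1.ne]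
  have hae : volume ({y : E | ∀ e ∈ UE, (inner ℝ (u e) y : ℝ) ≤ 1} \ bal) =
      volume ((C ∩ {y | mx u y ≤ 1}) \ (C ∩ {y | bb y ≤ 1})) := by
    have hsph : volume {y : E | bb y = 1} = 0 := by
      have h1 : {y : E | bb y = 1} ⊆ Metric.sphere (0 : E) (Real.sqrt (5 / 3)) := by
        intro y hy
        have hy' : bb y = 1 := hy
        have h2 := bb_sq y
        rw [hy'] at h2
        rw [mem_sphere_zero_iff_norm]
        have h3 : ‖y‖ ^ 2 = 5 / 3 := by linarith
        rw [← h3, Real.sqrt_sq (norm_nonneg y)]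
      exact measure_mono_null h1 (Measure.addHaar_sphere volume _ _)
    apply measure_congr
    rw [Filter.eventuallyEq_set]
    have h5 : ∀ᵐ y : E, ¬ bb y = 1 := by
      rw [ae_iff]
      simpa using hsph
    filter_upwards [h5] with y hy
    constructor
    · rintro ⟨h1, h2⟩
      have h3 : mx u y ≤ 1 := (mem_iff hKCO u y).1 h1
      have h4 : 1 ≤ bb y := (bal_iff y).1 h2
      have h6 : 1 < bb y := lt_of_le_of_ne h4 (Ne.symm hy)
      exact ⟨⟨le_trans h3 h4, h3⟩, fun h7 => absurd h7.2 (not_le.2 h6)⟩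
    · rintro ⟨⟨h1, h2⟩, h3⟩
      have h4 : ¬ bb y ≤ 1 := fun h5 => h3 ⟨h1, h5⟩
      exact ⟨(mem_iff hKCO u y).2 h2, (bal_iff y).2 (le_of_lt (not_le.1 h4))⟩
  constructor
  · rw [hmax]
    exact (integrable_indicator_iff hCm).2 (i1.sub i2)
  · rw [hmax, integral_indicator hCm, integral_sub i1 i2, e1, e2, hae, hdiff]
    ring

theorem WW_iff (hUEF : SpecUEF) (hKCO : SpecKCO) (y : E) : y ∈ WW ↔ mx id y < bb y := by
  have h1 := mx_low hUEF hKCO id_small y
  have h0 : 0 ≤ mx id y := le_trans (by positivity) h1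
  have h2 := bb_sq y
  have h3 := bb_nonneg y
  show 5 * mx id y ^ 2 < 3 * ‖y‖ ^ 2 ↔ _
  constructor
  · intro h
    exact lt_of_pow_lt_pow_left₀ 2 h3 (by linarith)
  · intro h
    have := pow_lt_pow_left₀ h h0 (by norm_num : (2 : ℕ) ≠ 0)
    linarith

theorem main (hUEF : SpecUEF) (hKCO : SpecKCO) {u : E → E}
    (hu : ∀ e ∈ UE, ‖u e - e‖ ≤ 17 / 50) :
    (volume (poly UE \ bal)).toReal - ∫ y, (mx u y - mx id y) ∂muW ≤
      (volume ({y : E | ∀ e ∈ UE, (inner ℝ (u e) y : ℝ) ≤ 1} \ bal)).toReal := by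
  obtain ⟨i1, e1⟩ := vol_eq hUEF hKCO hu
  obtain ⟨i0, e0⟩ := vol_eq hUEF hKCO id_small
  have hp : ({y : E | ∀ e ∈ UE, (inner ℝ (id e) y : ℝ) ≤ 1} \ bal) = poly UE \ bal := rfl
  rw [hp] at e0
  have hmm := (hKCO.mxc u).measurable
  have hm0 := (hKCO.mxc id).measurable
  have i2 : IntegrableOn (fun y => Real.exp (-mx id y) * (mx u y - mx id y)) WW := by
    refine (poly_exp 1).integrableOn.mono' ?_ ?_
    · exact (by fun_prop : Measurable fun y : E =>
        Real.exp (-mx id y) * (mx u y - mx id y)).aestronglyMeasurable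
    · refine Filter.Eventually.of_forall fun y => ?_
      rw [norm_mul, Real.norm_of_nonneg (Real.exp_pos _).le, Real.norm_eq_abs]
      have h1 := mx_low hUEF hKCO id_small y
      have h2 : Real.exp (-mx id y) ≤ Real.exp (-(1 / 3 * ‖y‖)) :=
        Real.exp_le_exp.2 (by linarith)
      have h3 := mx_diff hKCO hu y
      have h4 : |mx u y - mx id y| ≤ ‖y‖ := by
        have := norm_nonneg y
        linarith
      rw [pow_one, mul_comm]
      exact mul_le_mul h4 h2 (Real.exp_pos _).le (norm_nonneg y)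
  have i3 : Integrable (WW.indicator
      (fun y => Real.exp (-mx id y) * (mx u y - mx id y))) :=
    (integrable_indicator_iff hKCO.wmeas).2 i2
  have hle : ∫ y, (max 0 (Real.exp (-mx id y) - Real.exp (-bb y)) -
      WW.indicator (fun y => Real.exp (-mx id y) * (mx u y - mx id y)) y) ≤
      ∫ y, max 0 (Real.exp (-mx u y) - Real.exp (-bb y)) := by
    refine integral_mono (i0.sub i3) i1 fun y => ?_
    show max 0 (Real.exp (-mx id y) - Real.exp (-bb y)) -
      WW.indicator (fun y => Real.exp (-mx id y) * (mx u y - mx id y)) y ≤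
      max 0 (Real.exp (-mx u y) - Real.exp (-bb y))
    by_cases hy : y ∈ WW
    · rw [Set.indicator_of_mem hy]
      have h1 := (WW_iff hUEF hKCO y).1 hy
      have h2 : Real.exp (-bb y) ≤ Real.exp (-mx id y) := Real.exp_le_exp.2 (by linarith)
      rw [max_eq_right (by linarith)]
      refine le_trans ?_ (le_max_right _ _)
      have h3 : Real.exp (-mx u y) =
          Real.exp (-mx id y) * Real.exp (-(mx u y - mx id y)) := by
        rw [← Real.exp_add]; congr 1; ring
      have h4 := Real.add_one_le_exp (-(mx u y - mx id y))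
      have h5 := Real.exp_pos (-mx id y)
      rw [h3]
      nlinarith
    · rw [Set.indicator_of_notMem hy]
      have h1 : bb y ≤ mx id y := by
        by_contra h2
        push Not at h2
        exact hy ((WW_iff hUEF hKCO y).2 h2)
      have h2 : Real.exp (-mx id y) ≤ Real.exp (-bb y) := Real.exp_le_exp.2 (by linarith)
      rw [max_eq_left (by linarith), sub_zero]
      exact le_max_left _ _
  rw [integral_sub i0 i3, e0, e1, integral_indicator hKCO.wmeas] at hle
  rw [int_muW hKCO]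
  have h9 : ∫ y in WW, Real.exp (-mx id y) / 40320 * (mx u y - mx id y) =
      1 / 40320 * ∫ y in WW, Real.exp (-mx id y) * (mx u y - mx id y) := by
    rw [← integral_const_mul]
    refine integral_congr_ae (Filter.Eventually.of_forall fun y => ?_)
    show Real.exp (-mx id y) / 40320 * (mx u y - mx id y) =
      1 / 40320 * (Real.exp (-mx id y) * (mx u y - mx id y))
    ring
  rw [h9]
  linarith

end TLCM

/-- Comparison of the outer volumes. -/
theorem specTLC (hUEF : SpecUEF) (hKCO : SpecKCO) : SpecTLC where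
  int := TLCM.int_pow hUEF hKCO
  main := fun u hu => TLCM.main hUEF hKCO hu
  sub := by
    intro u hu y hy
    have hy' : ∀ e ∈ UE, (inner ℝ (u e) y : ℝ) ≤ 1 := hy
    obtain ⟨e, he, h0, h1⟩ := hUEF.cov y
    have h3 : |(inner ℝ (u e - e) y : ℝ)| ≤ 1 / 5 * ‖y‖ :=
      (abs_real_inner_le_norm _ _).trans (mul_le_mul_of_nonneg_right (hu e he) (norm_nonneg y))
    have h4 := (abs_le.1 h3).1
    rw [inner_sub_left] at h4
    have h5 := hy' e he
    rw [mem_ball_zero_iff]
    by_contra h6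
    push Not at h6
    have h7 : (inner ℝ e y : ℝ) ≤ 7 / 10 * ‖y‖ := by linarith
    have h8 : (inner ℝ e y : ℝ) ^ 2 ≤ (7 / 10 * ‖y‖) ^ 2 := pow_le_pow_left₀ h0 h7 2
    nlinarith

end Pool.Agent.Lib.MP_f1379f_gt.FV
end

section
/-!
# MP_f1379f_gt, block O, module UEF: basic facts on the 240 unit roots
-/
set_option autoImplicit false

open Classical MeasureTheory

namespace Pool.Agent.Lib.MP_f1379f_gt.FV

namespace UEFM

theorem mem_UE (e : E) : e ∈ UE ↔ (2 : ℝ) • e ∈ EV.R := by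
  unfold UE
  rw [Finset.mem_image]
  constructor
  · rintro ⟨r, hr, rfl⟩
    rw [smul_smul]
    norm_num
    exact hr
  · intro h
    refine ⟨_, h, ?_⟩
    rw [smul_smul]
    norm_num

theorem half_mem {r : E} (hr : r ∈ EV.R) : (1 / 2 : ℝ) • r ∈ UE := by
  rw [mem_UE, smul_smul]
  norm_num
  exact hr

theorem inner_two (e f : E) :
    (inner ℝ ((2 : ℝ) • e) ((2 : ℝ) • f) : ℝ) = 4 * inner ℝ e f := by
  rw [real_inner_smul_left, real_inner_smul_right]
  ring

theorem inner_half (r f : E) :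
    (inner ℝ ((1 / 2 : ℝ) • r) f : ℝ) = inner ℝ r ((2 : ℝ) • f) / 4 := by
  rw [real_inner_smul_left, real_inner_smul_right]
  ring

theorem half_inj : Function.Injective (fun r : E => (1 / 2 : ℝ) • r) := by
  intro a b h
  exact smul_right_injective E (by norm_num : (1 / 2 : ℝ) ≠ 0) h

/-- counting in `UE` is counting in `R` -/
theorem card_filter (P : E → Prop) :
    (UE.filter P).card = (EV.R.filter fun r => P ((1 / 2 : ℝ) • r)).card := by
  unfold UE
  rw [Finset.filter_image, Finset.card_image_of_injective _ half_inj]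

theorem ncard_filter (P : E → Prop) :
    ({b : E | b ∈ UE ∧ P b}).ncard = (EV.R.filter fun r => P ((1 / 2 : ℝ) • r)).card := by
  have h : {b : E | b ∈ UE ∧ P b} = ((UE.filter P : Finset E) : Set E) := by
    ext b
    simp
  rw [h, Set.ncard_coe_finset, card_filter]

theorem mf {s : Finset E} {P : E → Prop} {inst : DecidablePred P} {x : E} :
    x ∈ @Finset.filter E P inst s ↔ x ∈ s ∧ P x := @Finset.mem_filter E P inst s x

theorem card_eq {S T : Finset E} (h : ∀ x, x ∈ S ↔ x ∈ T) : S.card = T.card :=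
  congrArg Finset.card (Finset.ext h)

end UEFM

open UEFM in
theorem specUEF (hROT : EV.SpecROT) (hLPI : EV.SpecLPI) (hCLO : EV.SpecCLO) (hCOV : EV.SpecCOV)
    (hCNT : EV.SpecCNT) (hCNE : SpecCNE) : SpecUEF := by
  have hK : EV.K240 EV.R := hROT.k240
  have hn : ∀ e ∈ UE, (inner ℝ e e : ℝ) = 1 := by
    intro e he
    have h := hK.kiss.nrm _ ((mem_UE e).1 he)
    rw [inner_two] at h
    linarith
  have hnrm : ∀ e ∈ UE, ‖e‖ = 1 := by
    intro e he
    have h := hn e he
    rw [real_inner_self_eq_norm_sq] at h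
    have h0 := norm_nonneg e
    nlinarith
  have hip : ∀ e ∈ UE, ∀ f ∈ UE, (inner ℝ e f : ℝ) = 1 ∨ (inner ℝ e f : ℝ) = 1 / 2 ∨
      (inner ℝ e f : ℝ) = 0 ∨ (inner ℝ e f : ℝ) = -1 / 2 ∨ (inner ℝ e f : ℝ) = -1 := by
    intro e he f hf
    have h := (hLPI EV.R hK).1 _ ((mem_UE e).1 he) _ ((mem_UE f).1 hf)
    rw [inner_two] at h
    rcases h with h | h | h | h | h
    · exact Or.inl (by linarith)
    · exact Or.inr (Or.inl (by linarith))
    · exact Or.inr (Or.inr (Or.inl (by linarith)))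
    · exact Or.inr (Or.inr (Or.inr (Or.inl (by linarith))))
    · exact Or.inr (Or.inr (Or.inr (Or.inr (by linarith))))
  have hone : ∀ e ∈ UE, ∀ f ∈ UE, (inner ℝ e f : ℝ) = 1 → e = f := by
    intro e he f hf h
    have h1 : ‖e - f‖ ^ 2 = 0 := by
      rw [norm_sub_sq_real, hnrm e he, hnrm f hf, h]
      norm_num
    have h2 : ‖e - f‖ = 0 := by
      rwa [sq_eq_zero_iff] at h1
    exact sub_eq_zero.1 (norm_eq_zero.1 h2)
  have hneg : ∀ e ∈ UE, -e ∈ UE := by
    intro e he
    rw [mem_UE, smul_neg]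
    exact hCLO.neg EV.R hK _ ((mem_UE e).1 he)
  have hsub : ∀ e ∈ UE, ∀ f ∈ UE, (inner ℝ e f : ℝ) = 1 / 2 → e - f ∈ UE := by
    intro e he f hf h
    rw [mem_UE, smul_sub]
    refine hCLO.sub EV.R hK _ ((mem_UE e).1 he) _ ((mem_UE f).1 hf) ?_
    rw [inner_two, h]
    norm_num
  have hadd : ∀ e ∈ UE, ∀ f ∈ UE, (inner ℝ e f : ℝ) = -1 / 2 → e + f ∈ UE := by
    intro e he f hf h
    rw [mem_UE, smul_add]
    refine hCLO.add EV.R hK _ ((mem_UE e).1 he) _ ((mem_UE f).1 hf) ?_
    rw [inner_two, h]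
    norm_num
  have hc56 : ∀ a ∈ UE, (nb a).card = 56 := by
    intro a ha
    have h := hCNT.c56 EV.R hK _ ((mem_UE a).1 ha)
    unfold nb
    rw [card_filter, ← h]
    refine card_eq fun r => ?_
    rw [mf, mf, inner_half, real_inner_comm]
    constructor <;> rintro ⟨h0, h⟩ <;> exact ⟨h0, by linarith⟩
  have hc240 : UE.card = 240 := by
    have h := card_filter (fun _ => True)
    rw [Finset.filter_true, Finset.filter_true] at h
    rw [h]
    exact hK.card
  have hS : ∀ s ∈ UE, ∀ t ∈ UE, (inner ℝ s t : ℝ) = 0 → ∀ z : E,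
      ∑ r ∈ EV.R.filter (fun r => inner ℝ r ((2 : ℝ) • s) = (2 : ℝ) ∧
        inner ℝ r ((2 : ℝ) • t) = (2 : ℝ)), (inner ℝ z r : ℝ) ^ 2 =
      4 * (inner ℝ z z : ℝ) + 2 * (inner ℝ z ((2 : ℝ) • s) ^ 2 + inner ℝ z ((2 : ℝ) • t) ^ 2)
        + 6 * (inner ℝ z ((2 : ℝ) • s) * inner ℝ z ((2 : ℝ) • t)) := by
    intro s hs t ht hst z
    exact hCNT.S EV.R hK _ ((mem_UE s).1 hs) _ ((mem_UE t).1 ht)
      (by rw [inner_two, hst]; norm_num) z
  have hN12 : ∀ s ∈ UE, ∀ t ∈ UE, (inner ℝ s t : ℝ) = 0 →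
      (EV.R.filter (fun r => inner ℝ r ((2 : ℝ) • s) = (2 : ℝ) ∧
        inner ℝ r ((2 : ℝ) • t) = (2 : ℝ))).card = 12 := by
    intro s hs t ht hst
    have h := hS s hs t ht hst ((2 : ℝ) • s)
    rw [inner_two, inner_two, hst, hn s hs] at h
    have h2 : ∑ r ∈ EV.R.filter (fun r => inner ℝ r ((2 : ℝ) • s) = (2 : ℝ) ∧
        inner ℝ r ((2 : ℝ) • t) = (2 : ℝ)), (inner ℝ ((2 : ℝ) • s) r : ℝ) ^ 2 =
        ∑ r ∈ EV.R.filter (fun r => inner ℝ r ((2 : ℝ) • s) = (2 : ℝ) ∧
        inner ℝ r ((2 : ℝ) • t) = (2 : ℝ)), (4 : ℝ) := by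
      refine Finset.sum_congr rfl fun r hr => ?_
      rw [real_inner_comm, (Finset.mem_filter.1 hr).2.1]
      norm_num
    rw [h2, Finset.sum_const, nsmul_eq_mul] at h
    have h3 : (((EV.R.filter (fun r => inner ℝ r ((2 : ℝ) • s) = (2 : ℝ) ∧
        inner ℝ r ((2 : ℝ) • t) = (2 : ℝ))).card : ℕ) : ℝ) = ((12 : ℕ) : ℝ) := by
      push_cast
      linarith
    exact_mod_cast h3
  refine ⟨hnrm, hip, hone, hneg, hsub, hadd, ?_, ?_, hc240, hc56, ?_, ?_, ?_, ?_, ?_, ?_⟩
  · -- refl
    intro e he s hs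
    have h := hCLO.refl EV.R hK _ ((mem_UE e).1 he) _ ((mem_UE s).1 hs)
    rw [mem_UE]
    rw [inner_two] at h
    have h2 : (2 : ℝ) • (e - (2 * (inner ℝ e s : ℝ)) • s) =
        (2 : ℝ) • e - ((4 * (inner ℝ e s : ℝ)) / 2) • ((2 : ℝ) • s) := by
      rw [smul_sub, smul_smul, smul_smul,
        show (4 * (inner ℝ e s : ℝ)) / 2 * 2 = 2 * (2 * (inner ℝ e s : ℝ)) by ring]
    rw [h2]
    exact h
  · -- cov
    intro y
    obtain ⟨r, hr, h1, h2⟩ := hCOV y
    have e1 : (inner ℝ ((1 / 2 : ℝ) • r) y : ℝ) = 1 / 2 * inner ℝ y r := by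
      rw [real_inner_smul_left, real_inner_comm]
    have e2 : (2 : ℝ) * (1 / 2 * (inner ℝ y r : ℝ)) ^ 2 = (inner ℝ y r : ℝ) ^ 2 / 2 := by ring
    refine ⟨(1 / 2 : ℝ) • r, half_mem hr, ?_, ?_⟩
    · rw [e1]
      linarith
    · rw [e1, e2, ← real_inner_self_eq_norm_sq]
      linarith
  · -- c126
    intro a ha
    have hmaps : ∀ e ∈ UE, (inner ℝ e a : ℝ) ∈ ({1, 1 / 2, 0, -1 / 2, -1} : Finset ℝ) := by
      intro e he
      simp only [Finset.mem_insert, Finset.mem_singleton]
      exact hip e he a ha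
    have hsum := Finset.card_eq_sum_card_fiberwise (f := fun e : E => (inner ℝ e a : ℝ)) hmaps
    rw [Finset.sum_insert (by norm_num), Finset.sum_insert (by norm_num),
      Finset.sum_insert (by norm_num), Finset.sum_insert (by norm_num), Finset.sum_singleton,
      hc240] at hsum
    have p1 : (UE.filter fun e => (inner ℝ e a : ℝ) = 1).card = 1 := by
      refine Finset.card_eq_one.2 ⟨a, Finset.ext fun e => ?_⟩
      rw [mf, Finset.mem_singleton]
      constructor
      · rintro ⟨h1, h2⟩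
        exact hone e h1 a ha h2
      · rintro rfl
        exact ⟨ha, hn e ha⟩
    have p2 : (UE.filter fun e => (inner ℝ e a : ℝ) = -1).card = 1 := by
      refine Finset.card_eq_one.2 ⟨-a, Finset.ext fun e => ?_⟩
      rw [mf, Finset.mem_singleton]
      constructor
      · rintro ⟨h1, h2⟩
        have := hone (-e) (hneg e h1) a ha (by rw [inner_neg_left, h2]; norm_num)
        rw [← this, neg_neg]
      · rintro rfl
        exact ⟨hneg a ha, by rw [inner_neg_left, hn a ha]⟩
    have p3 : (UE.filter fun e => (inner ℝ e a : ℝ) = -1 / 2).card = 56 := by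
      rw [← hc56 a ha]
      unfold nb
      refine Finset.card_bij (fun e _ => -e) ?_ ?_ ?_
      · intro e he
        rw [Finset.mem_filter] at he ⊢
        refine ⟨hneg e he.1, ?_⟩
        rw [inner_neg_left, he.2]
        norm_num
      · intro e _ f _ h
        exact neg_inj.1 h
      · intro e he
        rw [Finset.mem_filter] at he
        refine ⟨-e, ?_, neg_neg e⟩
        rw [Finset.mem_filter]
        refine ⟨hneg e he.1, ?_⟩
        rw [inner_neg_left, he.2]
        norm_num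
    have p4 : (UE.filter fun e => (inner ℝ e a : ℝ) = 1 / 2).card = 56 := hc56 a ha
    have p5 : (UE.filter fun e => (inner ℝ e a : ℝ) = 0).card = (ob a).card := rfl
    rw [p1, p2, p3, p4, p5] at hsum
    omega
  · -- c27
    intro a ha e he
    have he' := Finset.mem_filter.1 he
    rw [ncard_filter (fun b => (inner ℝ b e : ℝ) = 1 / 2 ∧ (inner ℝ b a : ℝ) = 1 / 2),
      ← hCNE.n27 _ ((mem_UE e).1 he'.1) _ ((mem_UE a).1 ha) (by
        rw [inner_two, he'.2]; norm_num)]
    refine card_eq fun r => ?_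
    rw [mf, mf, inner_half, inner_half]
    constructor <;> rintro ⟨h0, h1, h2⟩ <;> refine ⟨h0, ?_, ?_⟩ <;> linarith
  · -- c16
    intro a ha e he w hw hwe hwa
    have he' := Finset.mem_filter.1 he
    rw [ncard_filter (fun b => (inner ℝ b e : ℝ) = 1 / 2 ∧ (inner ℝ b a : ℝ) = 1 / 2 ∧
      (inner ℝ b w : ℝ) = 1 / 2), ← hCNE.n16 _ ((mem_UE e).1 he'.1) _ ((mem_UE a).1 ha) _
      ((mem_UE w).1 hw) (by rw [inner_two, he'.2]; norm_num)
      (by rw [inner_two, real_inner_comm, hwe]; norm_num)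
      (by rw [inner_two, real_inner_comm, hwa]; norm_num)]
    refine card_eq fun r => ?_
    rw [mf, mf, inner_half, inner_half, inner_half]
    constructor <;> rintro ⟨h0, h1, h2, h3⟩ <;> refine ⟨h0, ?_, ?_, ?_⟩ <;> linarith
  · -- c12
    intro a ha e he
    have he' := Finset.mem_filter.1 he
    rw [ncard_filter (fun b => (inner ℝ b e : ℝ) = 1 / 2 ∧ (inner ℝ b a : ℝ) = 1 / 2),
      ← hN12 e he'.1 a ha he'.2]
    refine card_eq fun r => ?_
    rw [mf, mf, inner_half, inner_half]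
    constructor <;> rintro ⟨h0, h1, h2⟩ <;> refine ⟨h0, ?_, ?_⟩ <;> linarith
  · -- orp
    intro a ha z hz h
    refine hCNT.orp EV.R hK _ ((mem_UE a).1 ha) z ?_ ?_
    · rw [real_inner_smul_right, hz, mul_zero]
    · intro y hy hay
      have h1 : (1 / 2 : ℝ) • y ∈ ob a := by
        unfold ob
        rw [Finset.mem_filter]
        refine ⟨half_mem hy, ?_⟩
        rw [inner_half, real_inner_comm, hay]
        norm_num
      have h2 := h _ h1
      rw [real_inner_smul_right] at h2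
      linarith
  · -- com3
    intro a ha s hs t ht hst
    have hs' := Finset.mem_filter.1 hs
    have ht' := Finset.mem_filter.1 ht
    have h := hS s hs'.1 t ht'.1 hst ((2 : ℝ) • a)
    have has : (inner ℝ a s : ℝ) = 0 := by rw [real_inner_comm]; exact hs'.2
    have hat : (inner ℝ a t : ℝ) = 0 := by rw [real_inner_comm]; exact ht'.2
    rw [inner_two, inner_two, inner_two, hn a ha, has, hat] at h
    by_contra hcon
    push Not at hcon
    have h2 : ∀ r ∈ EV.R.filter (fun r => inner ℝ r ((2 : ℝ) • s) = (2 : ℝ) ∧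
        inner ℝ r ((2 : ℝ) • t) = (2 : ℝ)), (4 : ℝ) ≤ (inner ℝ ((2 : ℝ) • a) r : ℝ) ^ 2 := by
      intro r hr
      rw [Finset.mem_filter] at hr
      obtain ⟨hrR, hrs, hrt⟩ := hr
      have hrU := half_mem hrR
      have q1 : (inner ℝ ((1 / 2 : ℝ) • r) s : ℝ) = 1 / 2 := by rw [inner_half, hrs]; norm_num
      have q2 : (inner ℝ ((1 / 2 : ℝ) • r) t : ℝ) = 1 / 2 := by rw [inner_half, hrt]; norm_num
      have q3 : (inner ℝ ((2 : ℝ) • a) r : ℝ) = 4 * inner ℝ ((1 / 2 : ℝ) • r) a := by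
        rw [inner_half, real_inner_comm]
        ring
      rw [q3]
      rcases hip _ hrU a ha with h5 | h5 | h5 | h5 | h5
      · rw [h5]; norm_num
      · rw [h5]; norm_num
      · exfalso
        exact hcon _ (Finset.mem_filter.2 ⟨hrU, h5⟩) q1 q2
      · rw [h5]; norm_num
      · rw [h5]; norm_num
    have h3 := Finset.sum_le_sum h2
    rw [Finset.sum_const, hN12 s hs'.1 t ht'.1 hst, nsmul_eq_mul, h] at h3
    norm_num at h3

end Pool.Agent.Lib.MP_f1379f_gt.FV
end

section
/-!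
# XTL: comparison of the outer volumes, general form
-/
set_option autoImplicit false

namespace Pool.Agent.Lib.MP_f1379f_gt.FV

open MeasureTheory

namespace XTLM

open TLCM

theorem mU_le {U : Finset E} {v : E} (hv : v ∈ U) (y : E) : (inner ℝ v y : ℝ) ≤ mU U y :=
  le_ciSup (f := fun e : U => (inner ℝ (e : E) y : ℝ)) (Set.finite_range _).bddAbove ⟨v, hv⟩

theorem mU_ge {U : Finset E} (hU : U.Nonempty) {y : E} {c : ℝ}
    (h : ∀ v ∈ U, (inner ℝ v y : ℝ) ≤ c) : mU U y ≤ c := by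
  have : Nonempty U := hU.to_subtype
  exact ciSup_le fun e => h e.1 e.2

theorem mU_cont (U : Finset E) : Continuous (mU U) :=
  KCOM.cont_sup (fun (e : U) y => (inner ℝ (e : E) y : ℝ)) fun _ =>
    continuous_const.inner continuous_id

theorem mU_hom (U : Finset E) (y : E) {t : ℝ} (ht : 0 < t) : mU U (t • y) = t * mU U y := by
  unfold mU
  rw [Real.mul_iSup_of_nonneg ht.le]
  congr 1
  funext e
  rw [real_inner_smul_right]

/-- `vol_eq` for a general gauge. -/
theorem vol_gen {m : E → ℝ} (hmm : Measurable m) (hhom : ∀ y : E, ∀ t : ℝ, 0 < t → m (t • y) = t * m y)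
    (hlow : ∀ y : E, 1 / 3 * ‖y‖ ≤ m y) :
    Integrable (fun y : E => max 0 (Real.exp (-m y) - Real.exp (-bb y))) ∧
    ∫ y, max 0 (Real.exp (-m y) - Real.exp (-bb y)) =
      40320 * (volume ({y : E | m y ≤ 1} \ bal)).toReal := by
  set C : Set E := {y | m y ≤ bb y} with hCdef
  have hbm := bb_cont.measurable
  have hCm : MeasurableSet C := measurableSet_le hmm hbm
  have hC : ∀ y ∈ C, ∀ t : ℝ, 0 < t → t • y ∈ C := by
    intro y hy t ht
    show m (t • y) ≤ bb (t • y)
    rw [hhom y t ht, bb_hom y ht]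
    exact mul_le_mul_of_nonneg_left hy ht.le
  obtain ⟨i1, e1⟩ := EV.CONM.int0 (C := C) (u := m) (κ := 1 / 3) hmm hC
    (fun y _ t ht => hhom y t ht) (by norm_num) (fun y _ => hlow y)
  obtain ⟨i2, e2⟩ := EV.CONM.int0 (C := C) (u := bb) (κ := 1 / 3) hbm hC
    (fun y _ t ht => bb_hom y ht) (by norm_num) (fun y _ => bb_low y)
  have hmax : (fun y : E => max 0 (Real.exp (-m y) - Real.exp (-bb y))) =
      C.indicator (fun y => Real.exp (-m y) - Real.exp (-bb y)) := by
    funext y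
    by_cases hy : y ∈ C
    · rw [Set.indicator_of_mem hy, max_eq_right]
      have h1 : m y ≤ bb y := hy
      have h2 : Real.exp (-bb y) ≤ Real.exp (-m y) := Real.exp_le_exp.2 (by linarith)
      linarith
    · rw [Set.indicator_of_notMem hy, max_eq_left]
      have h1 : ¬ m y ≤ bb y := hy
      push Not at h1
      have h2 : Real.exp (-m y) ≤ Real.exp (-bb y) := Real.exp_le_exp.2 (by linarith)
      linarith
  have hV1 : volume (C ∩ {y | m y ≤ 1}) < ⊤ :=
    EV.CONM.fin (κ := 1 / 3) (by norm_num) (fun y _ => hlow y)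
  have hV2 : volume (C ∩ {y | bb y ≤ 1}) < ⊤ :=
    EV.CONM.fin (κ := 1 / 3) (by norm_num) (fun y _ => bb_low y)
  have hsub : C ∩ {y | bb y ≤ 1} ⊆ C ∩ {y | m y ≤ 1} := by
    rintro y ⟨h1, h2⟩
    have h3 : m y ≤ bb y := h1
    have h4 : bb y ≤ 1 := h2
    exact ⟨h1, h3.trans h4⟩
  have hm2 : MeasurableSet (C ∩ {y | bb y ≤ 1}) :=
    hCm.inter (measurableSet_le hbm measurable_const)
  have hdiff : (volume ((C ∩ {y | m y ≤ 1}) \ (C ∩ {y | bb y ≤ 1}))).toReal =
      (volume (C ∩ {y | m y ≤ 1})).toReal - (volume (C ∩ {y | bb y ≤ 1})).toReal := by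
    rw [measure_sdiff hsub hm2.nullMeasurableSet hV2.ne,
      ENNReal.toReal_sub_of_le (measure_mono hsub) hV1.ne]
  have hae : volume ({y : E | m y ≤ 1} \ bal) =
      volume ((C ∩ {y | m y ≤ 1}) \ (C ∩ {y | bb y ≤ 1})) := by
    have hsph : volume {y : E | bb y = 1} = 0 := by
      have h1 : {y : E | bb y = 1} ⊆ Metric.sphere (0 : E) (Real.sqrt (5 / 3)) := by
        intro y hy
        have hy' : bb y = 1 := hy
        have h2 := bb_sq y
        rw [hy'] at h2
        rw [mem_sphere_zero_iff_norm]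
        have h3 : ‖y‖ ^ 2 = 5 / 3 := by linarith
        rw [← h3, Real.sqrt_sq (norm_nonneg y)]
      exact measure_mono_null h1 (Measure.addHaar_sphere volume _ _)
    apply measure_congr
    rw [Filter.eventuallyEq_set]
    have h5 : ∀ᵐ y : E, ¬ bb y = 1 := by
      rw [ae_iff]
      simpa using hsph
    filter_upwards [h5] with y hy
    constructor
    · rintro ⟨h1, h2⟩
      have h3 : m y ≤ 1 := h1
      have h4 : 1 ≤ bb y := (bal_iff y).1 h2
      have h6 : 1 < bb y := lt_of_le_of_ne h4 (Ne.symm hy)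
      exact ⟨⟨le_trans h3 h4, h3⟩, fun h7 => absurd h7.2 (not_le.2 h6)⟩
    · rintro ⟨⟨h1, h2⟩, h3⟩
      have h4 : ¬ bb y ≤ 1 := fun h5 => h3 ⟨h1, h5⟩
      exact ⟨h2, (bal_iff y).2 (le_of_lt (not_le.1 h4))⟩
  constructor
  · rw [hmax]
    exact (integrable_indicator_iff hCm).2 (i1.sub i2)
  · rw [hmax, integral_indicator hCm, integral_sub i1 i2, e1, e2, hae, hdiff]
    ring

/-- `TLCM.main` for a general gauge. -/
theorem main_gen (hUEF : SpecUEF) (hKCO : SpecKCO) {m : E → ℝ} (hmm : Measurable m)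
    (hhom : ∀ y : E, ∀ t : ℝ, 0 < t → m (t • y) = t * m y)
    (hlow : ∀ y : E, 1 / 3 * ‖y‖ ≤ m y) (hd : ∀ y : E, |m y - mx id y| ≤ 2 * ‖y‖) :
    (volume (poly UE \ bal)).toReal - ∫ y, (m y - mx id y) ∂muW ≤
      (volume ({y : E | m y ≤ 1} \ bal)).toReal := by
  obtain ⟨i1, e1⟩ := vol_gen hmm hhom hlow
  obtain ⟨i0, e0⟩ := vol_eq hUEF hKCO id_small
  have hp : ({y : E | ∀ e ∈ UE, (inner ℝ (id e) y : ℝ) ≤ 1} \ bal) = poly UE \ bal := rfl
  rw [hp] at e0
  have hm0 := (hKCO.mxc id).measurable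
  have i2 : IntegrableOn (fun y => Real.exp (-mx id y) * (m y - mx id y)) WW := by
    refine ((poly_exp 1).const_mul 2).integrableOn.mono' ?_ ?_
    · exact (by fun_prop : Measurable fun y : E =>
        Real.exp (-mx id y) * (m y - mx id y)).aestronglyMeasurable
    · refine Filter.Eventually.of_forall fun y => ?_
      rw [norm_mul, Real.norm_of_nonneg (Real.exp_pos _).le, Real.norm_eq_abs]
      have h1 := mx_low hUEF hKCO id_small y
      have h2 : Real.exp (-mx id y) ≤ Real.exp (-(1 / 3 * ‖y‖)) :=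
        Real.exp_le_exp.2 (by linarith)
      have h3 := hd y
      rw [pow_one, mul_comm, ← mul_assoc]
      exact mul_le_mul h3 h2 (Real.exp_pos _).le (by positivity)
  have i3 : Integrable (WW.indicator
      (fun y => Real.exp (-mx id y) * (m y - mx id y))) :=
    (integrable_indicator_iff hKCO.wmeas).2 i2
  have hle : ∫ y, (max 0 (Real.exp (-mx id y) - Real.exp (-bb y)) -
      WW.indicator (fun y => Real.exp (-mx id y) * (m y - mx id y)) y) ≤
      ∫ y, max 0 (Real.exp (-m y) - Real.exp (-bb y)) := by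
    refine integral_mono (i0.sub i3) i1 fun y => ?_
    show max 0 (Real.exp (-mx id y) - Real.exp (-bb y)) -
      WW.indicator (fun y => Real.exp (-mx id y) * (m y - mx id y)) y ≤
      max 0 (Real.exp (-m y) - Real.exp (-bb y))
    by_cases hy : y ∈ WW
    · rw [Set.indicator_of_mem hy]
      have h1 := (WW_iff hUEF hKCO y).1 hy
      have h2 : Real.exp (-bb y) ≤ Real.exp (-mx id y) := Real.exp_le_exp.2 (by linarith)
      rw [max_eq_right (by linarith)]
      refine le_trans ?_ (le_max_right _ _)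
      have h3 : Real.exp (-m y) =
          Real.exp (-mx id y) * Real.exp (-(m y - mx id y)) := by
        rw [← Real.exp_add]; congr 1; ring
      have h4 := Real.add_one_le_exp (-(m y - mx id y))
      have h5 := Real.exp_pos (-mx id y)
      rw [h3]
      nlinarith
    · rw [Set.indicator_of_notMem hy]
      have h1 : bb y ≤ mx id y := by
        by_contra h2
        push Not at h2
        exact hy ((WW_iff hUEF hKCO y).2 h2)
      have h2 : Real.exp (-mx id y) ≤ Real.exp (-bb y) := Real.exp_le_exp.2 (by linarith)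
      rw [max_eq_left (by linarith), sub_zero]
      exact le_max_left _ _
  rw [integral_sub i0 i3, e0, e1, integral_indicator hKCO.wmeas] at hle
  rw [int_muW hKCO]
  have h9 : ∫ y in WW, Real.exp (-mx id y) / 40320 * (m y - mx id y) =
      1 / 40320 * ∫ y in WW, Real.exp (-mx id y) * (m y - mx id y) := by
    rw [← integral_const_mul]
    refine integral_congr_ae (Filter.Eventually.of_forall fun y => ?_)
    show Real.exp (-mx id y) / 40320 * (m y - mx id y) =
      1 / 40320 * (Real.exp (-mx id y) * (m y - mx id y))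
    ring
  rw [h9]
  linarith

theorem UE_ne (hUEF : SpecUEF) : UE.Nonempty := by
  rw [← Finset.card_pos, hUEF.c240]; norm_num

theorem U_ne (hUEF : SpecUEF) {U V : Finset E} {u : E → E} (h : EXT U V u) : U.Nonempty := by
  obtain ⟨e, he⟩ := UE_ne hUEF
  exact ⟨u e, h.lab e he⟩

theorem mx_le_mU (hKCO : SpecKCO) {U V : Finset E} {u : E → E}
    (h : EXT U V u) (y : E) : mx u y ≤ mU U y :=
  hKCO.ge u y _ fun e he => mU_le (h.lab e he) y

/-- A maximum of unit functionals is bounded by the norm. -/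
theorem mU_abs {U : Finset E} (hU : U.Nonempty) (h : ∀ v ∈ U, ‖v‖ ≤ 1) (y : E) :
    |mU U y| ≤ ‖y‖ := by
  have hb : ∀ a ∈ U, |(inner ℝ a y : ℝ)| ≤ ‖y‖ := by
    intro a ha
    have h1 := abs_real_inner_le_norm a y
    have h2 : ‖a‖ * ‖y‖ ≤ 1 * ‖y‖ := mul_le_mul_of_nonneg_right (h a ha) (norm_nonneg y)
    linarith
  rw [abs_le]
  constructor
  · obtain ⟨v, hv⟩ := hU
    have h1 := mU_le hv y
    have h2 := (abs_le.1 (hb v hv)).1
    linarith
  · exact mU_ge hU fun a ha => (abs_le.1 (hb a ha)).2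

theorem mx_id_abs (hUEF : SpecUEF) (hKCO : SpecKCO) (y : E) : |mx id y| ≤ ‖y‖ := by
  have hb : ∀ a ∈ UE, |(inner ℝ (id a) y : ℝ)| ≤ ‖y‖ := by
    intro a ha
    have h1 := abs_real_inner_le_norm a y
    rw [hUEF.nrm a ha, one_mul] at h1
    exact h1
  rw [abs_le]
  constructor
  · obtain ⟨v, hv⟩ := UE_ne hUEF
    have h1 := hKCO.le id v hv y
    have h2 := (abs_le.1 (hb v hv)).1
    linarith
  · exact hKCO.ge id y _ fun a ha => (abs_le.1 (hb a ha)).2

end XTLM

open XTLM TLCM in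
/-- Comparison of the outer volumes, general form. -/
theorem specXTL (hUEF : SpecUEF) (hKCO : SpecKCO) : SpecXTL := by
  intro U V u hE hu
  have hne := U_ne hUEF hE
  have hset : poly U = {y : E | mU U y ≤ 1} := by
    ext y
    exact ⟨fun h => mU_ge hne h, fun h v hv => (mU_le hv y).trans h⟩
  have h := main_gen hUEF hKCO (mU_cont U).measurable (fun y t ht => mU_hom U y ht)
    (fun y => (mx_low hUEF hKCO hu y).trans (mx_le_mU hKCO hE y))
    (fun y => by
      have h1 := mU_abs hne hE.le_one y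
      have h2 := mx_id_abs hUEF hKCO y
      rw [abs_le] at *
      constructor <;> linarith [h1.1, h1.2, h2.1, h2.2])
  rw [hset]
  exact h

end Pool.Agent.Lib.MP_f1379f_gt.FV
end

section
/-!
# XRD: reduction to one-vector integrals, with additional points
-/
set_option autoImplicit false

namespace Pool.Agent.Lib.MP_f1379f_gt.FV

open MeasureTheory

namespace XRDM

open XTLM

open Classical in
theorem mV_cont (V : Finset E) : Continuous (mV V) := mU_cont (insert 0 V)

open Classical in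
theorem mV_abs {U V : Finset E} {u : E → E} (h : EXT U V u) (y : E) : |mV V y| ≤ ‖y‖ := by
  refine mU_abs (U := insert 0 V) ⟨0, Finset.mem_insert_self 0 V⟩ ?_ y
  intro v hv
  rcases Finset.mem_insert.1 hv with rfl | hv
  · simp
  · have h1 := h.sm v hv
    have h2 := norm_nonneg v
    nlinarith

open Classical in
theorem le_mV {V : Finset E} {v : E} (hv : v ∈ V) (y : E) : (inner ℝ v y : ℝ) ≤ mV V y :=
  mU_le (Finset.mem_insert_of_mem hv) y

theorem int_of_abs (hTLC : SpecTLC) {f : E → ℝ} (hf : Continuous f) (hb : ∀ y, |f y| ≤ ‖y‖) :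
    Integrable f muW := by
  refine (hTLC.int 1).mono' hf.aestronglyMeasurable (Filter.Eventually.of_forall fun y => ?_)
  rw [pow_one, Real.norm_eq_abs]
  exact hb y

theorem intXE (hTLC : SpecTLC) {U V : Finset E} {u : E → E} (h : EXT U V u) (e : E) :
    Integrable (fun y : E => XE V u e y) muW := by
  unfold XE
  exact RD1M.pos0 (((int_of_abs hTLC (mV_cont V) (mV_abs h)).sub (RD1M.intg hTLC e)).sub
    (RD1M.intg hTLC (del u e)))

theorem point (hKCO : SpecKCO) {U V : Finset E} {u : E → E} (hne : U.Nonempty)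
    (h : EXT U V u) {e : E} (he : e ∈ UE) {y : E} (hy : y ∈ Kc e) {R : ℝ}
    (h1 : mx u y - mx id y ≤ (inner ℝ (del u e) y : ℝ) + R) (hR : 0 ≤ R) :
    mU U y - mx id y ≤ ((inner ℝ (del u e) y : ℝ) + R) + XE V u e y := by
  have h0 : mx id y = inner ℝ e y := hKCO.mxe e he y hy
  have hX0 : 0 ≤ XE V u e y := le_max_left _ _
  have hX1 : mV V y - (inner ℝ e y : ℝ) - (inner ℝ (del u e) y : ℝ) ≤ XE V u e y :=
    le_max_right _ _
  have h2 : mU U y ≤ mx id y + (((inner ℝ (del u e) y : ℝ) + R) + XE V u e y) := by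
    refine mU_ge hne fun v hv => ?_
    rcases h.oth v hv with hv | ⟨a, ha, rfl⟩
    · have h3 := le_mV hv y
      linarith
    · have h3 := hKCO.le u a ha y
      linarith
  linarith

theorem arith2 [DecidableEq E] (s : Finset E) (th : E → ℝ) (A : E → E → ℝ) (B X : E → ℝ) :
    ∑ e ∈ s, (∑ a ∈ s.erase e, th a * A a e + th e * B e + X e) =
      ∑ a ∈ s, th a * (∑ e ∈ s.erase a, A a e + B a) + ∑ e ∈ s, X e := by
  rw [Finset.sum_add_distrib, RD1M.arith]

end XRDM

open RD1M XTLM XRDM in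
/-- Reduction to one-vector integrals, with additional points. -/
theorem specXRD (hUEF : SpecUEF) (hKCO : SpecKCO) (hTLC : SpecTLC) (hPTW : SpecPTW)
    (hMO1 : SpecMO1) : SpecXRD := by
  intro U V u th hE hD
  have hne := U_ne hUEF hE
  set D : E → E := fun a => (th a)⁻¹ • del u a with hDdef
  have hf0 : Integrable (fun y : E => mU U y - mx id y) muW :=
    (int_of_abs hTLC (mU_cont U) (mU_abs hne hE.le_one)).sub
      (intmx hUEF hKCO hTLC (u := id) fun a ha => (hUEF.nrm a ha).le)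
  have hfA : ∀ a e : E, Integrable (fun y : E =>
      max 0 ((inner ℝ (D a) y : ℝ) - ((inner ℝ e y : ℝ) - inner ℝ a y))) muW := by
    intro a e
    exact pos0 ((intg hTLC (D a)).sub ((intg hTLC e).sub (intg hTLC a)))
  have hfB : ∀ e ∈ UE, Integrable (fun y : E =>
      max 0 (-(inner ℝ (D e) y : ℝ) - g2 e y)) muW := by
    intro e he
    exact pos0 ((intg hTLC (D e)).neg.sub (intg2 hUEF hKCO hTLC he))
  have hstep : ∀ e ∈ UE, ∫ y in Kc e, (mU U y - mx id y) ∂muW ≤
      ∑ a ∈ UE.erase e, th a * (∫ y in Kc e,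
        max 0 ((inner ℝ (D a) y : ℝ) - ((inner ℝ e y : ℝ) - inner ℝ a y)) ∂muW) +
      th e * ∫ y in Kc e, max 0 (-(inner ℝ (D e) y : ℝ) - g2 e y) ∂muW
      + ∫ y in Kc e, XE V u e y ∂muW := by
    intro e he
    have i1 : IntegrableOn (fun y : E => (inner ℝ (del u e) y : ℝ)) (Kc e) muW :=
      (intg hTLC _).integrableOn
    have i2 : ∀ a ∈ UE.erase e, IntegrableOn (fun y : E => th a *
        max 0 ((inner ℝ (D a) y : ℝ) - ((inner ℝ e y : ℝ) - inner ℝ a y))) (Kc e) muW :=
      fun a _ => ((hfA a e).const_mul (th a)).integrableOn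
    have i2s : IntegrableOn (fun y : E => ∑ a ∈ UE.erase e, th a *
        max 0 ((inner ℝ (D a) y : ℝ) - ((inner ℝ e y : ℝ) - inner ℝ a y))) (Kc e) muW :=
      integrable_finsetSum _ i2
    have i3 : IntegrableOn (fun y : E => th e *
        max 0 (-(inner ℝ (D e) y : ℝ) - g2 e y)) (Kc e) muW :=
      ((hfB e he).const_mul (th e)).integrableOn
    have i4 : IntegrableOn (fun y : E => XE V u e y) (Kc e) muW :=
      (intXE hTLC hE e).integrableOn
    have h1 : ∫ y in Kc e, (mU U y - mx id y) ∂muW ≤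
        ∫ y in Kc e, (((inner ℝ (del u e) y : ℝ)
          + ∑ a ∈ UE.erase e, th a *
            max 0 ((inner ℝ (D a) y : ℝ) - ((inner ℝ e y : ℝ) - inner ℝ a y))
          + th e * max 0 (-(inner ℝ (D e) y : ℝ) - g2 e y)) + XE V u e y) ∂muW := by
      refine setIntegral_mono_on hf0.integrableOn (((i1.add i2s).add i3).add i4) (hKCO.meas e) ?_
      intro y hy
      have h2 := hPTW u th hD e he y hy
      have h3 : 0 ≤ ∑ a ∈ UE.erase e, th a *
            max 0 ((inner ℝ (D a) y : ℝ) - ((inner ℝ e y : ℝ) - inner ℝ a y))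
          + th e * max 0 (-(inner ℝ (D e) y : ℝ) - g2 e y) := by
        refine add_nonneg (Finset.sum_nonneg fun a ha => ?_) ?_
        · exact mul_nonneg (hD.pos a (Finset.mem_of_mem_erase ha)).le (le_max_left _ _)
        · exact mul_nonneg (hD.pos e he).le (le_max_left _ _)
      have h4 := point hKCO hne hE he hy (R := ∑ a ∈ UE.erase e, th a *
            max 0 ((inner ℝ (D a) y : ℝ) - ((inner ℝ e y : ℝ) - inner ℝ a y))
          + th e * max 0 (-(inner ℝ (D e) y : ℝ) - g2 e y)) (by linarith) h3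
      linarith
    refine h1.trans (le_of_eq ?_)
    refine (integral_add ((i1.add i2s).add i3) i4).trans ?_
    congr 1
    exact int4 (muW.restrict (Kc e)) (UE.erase e) th i1 i2 (hfB e he).integrableOn (th e)
      (hMO1 e he _ (del_perp (hUEF.nrm e he)))
  rw [split UE Kc muW hKCO.meas (fun e he f hf hef => ac (hKCO.nul e he f hf hef)) hKCO.cov _ hf0]
  refine (Finset.sum_le_sum hstep).trans (le_of_eq ?_)
  exact arith2 UE th (fun a e => ∫ y in Kc e,
        max 0 ((inner ℝ (D a) y : ℝ) - ((inner ℝ e y : ℝ) - inner ℝ a y)) ∂muW)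
    (fun e => ∫ y in Kc e, max 0 (-(inner ℝ (D e) y : ℝ) - g2 e y) ∂muW)
    (fun e => ∫ y in Kc e, XE V u e y ∂muW)

end Pool.Agent.Lib.MP_f1379f_gt.FV
end
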