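import Pool.Agent.Lib.MP_f1379f_gt.FV.TL2
import Pool.Agent.Lib.MP_f1379f_gt.FV.XRD

/-!
# MP_f1379f_gt, block O, module VF6: the volume of the wall
-/

set_option autoImplicit false

namespace Pool.Agent.Lib.MP_f1379f_gt.FV

open MeasureTheory

namespace VF6M

open NUTM

theorem pin' (hPIN : SpecPIN) (e a : E) (he : ‖e‖ = 1) (ha : ‖a‖ = 1)
    (hae : (inner ℝ a e : ℝ) = 1 / 2) (H : E → ENNReal) (hH : Measurable H) :
    ∫⁻ y, H y = ENNReal.ofReal (2 / Real.sqrt 3) * ∫⁻ p : ℝ, ∫⁻ q : ℝ, ∫⁻ x : Sp e a,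
      H ((4 / 3 * (p - q / 2)) • a + (4 / 3 * (q - p / 2)) • e + (x : E)) := by
  have h := hPIN.main a e ha he hae H hH
  have hS : Sp a e = Sp e a := by unfold Sp; rw [Set.pair_comm]
  rw [hS] at h
  exact h

theorem F6_meas (e a : E) : MeasurableSet (F6 e a) := by
  have h1 : IsClosed (F6 e a) := by
    have : F6 e a = ⋂ b : E, ⋂ (_ : b ∈ UE), ⋂ (_ : (inner ℝ b e : ℝ) = 1 / 2),
        ⋂ (_ : (inner ℝ b a : ℝ) = 1 / 2), {x : Sp e a | (inner ℝ b (x : E) : ℝ) ≤ 1 / 3} := by
      ext x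
      simp only [F6, Set.mem_ofPred_eq, Set.mem_iInter]
    rw [this]
    refine isClosed_iInter fun b => isClosed_iInter fun _ => isClosed_iInter fun _ =>
      isClosed_iInter fun _ => ?_
    exact isClosed_le (continuous_const.inner continuous_subtype_val) continuous_const
  exact h1.measurableSet

theorem tau_pre6 (T : E ≃ₗᵢ[ℝ] E) (hT : ∀ f ∈ UE, T f ∈ UE) (e a : E) :
    tau T e a ⁻¹' F6 (T e) (T a) = F6 e a := by
  ext x
  simp only [Set.mem_preimage, F6, Set.mem_ofPred_eq, tau_coe]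
  constructor
  · intro h1 b hb hbe hba
    have := h1 (T b) (hT b hb) (by rw [T.inner_map_map]; exact hbe)
      (by rw [T.inner_map_map]; exact hba)
    rwa [T.inner_map_map] at this
  · intro h1 b hb hbe hba
    obtain ⟨f, hf, rfl⟩ := surj_UE T hT b hb
    rw [T.inner_map_map] at hbe hba ⊢
    exact h1 f hf hbe hba

theorem vol_tau (T : E ≃ₗᵢ[ℝ] E) (hT : ∀ f ∈ UE, T f ∈ UE) (e a : E) :
    volume (F6 (T e) (T a)) = volume (F6 e a) := by
  have hmp : MeasurePreserving (tau T e a) volume volume := (tau T e a).measurePreserving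
  rw [← tau_pre6 T hT e a]
  exact (hmp.measure_preimage (F6_meas _ _).nullMeasurableSet).symm

theorem hyp_null (v : E) (hv : v ≠ 0) : volume {y : E | (inner ℝ v y : ℝ) = 0} = 0 := by
  have hsub : {y : E | (inner ℝ v y : ℝ) = 0} ⊆ ((Submodule.span ℝ {v})ᗮ : Submodule ℝ E) := by
    intro y hy
    show y ∈ (Submodule.span ℝ {v})ᗮ
    rw [Submodule.mem_orthogonal_singleton_iff_inner_right]
    exact hy
  refine measure_mono_null hsub (Measure.addHaar_submodule volume _ ?_)
  intro htop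
  have h1 : v ∈ (Submodule.span ℝ {v})ᗮ := by rw [htop]; trivial
  rw [Submodule.mem_orthogonal_singleton_iff_inner_left, inner_self_eq_zero] at h1
  exact hv h1

/-- the pyramid -/
def PY (a : E) : Set E := Kc a ∩ {y | (inner ℝ a y : ℝ) ≤ 1}

/-- the part of the minimal gap `e` -/
def BB (e a : E) : Set E := {y : E | g2 a y = (inner ℝ a y : ℝ) - inner ℝ e y}

theorem PY_eq (a : E) : PY a = EV.cone ((2 : ℝ) • a) ∩
    {y : E | (inner ℝ ((2 : ℝ) • a) y : ℝ) ≤ 2} := by
  ext y
  simp only [PY, Kc, EV.cone, Set.mem_inter_iff, Set.mem_ofPred_eq]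
  constructor
  · rintro ⟨h1, h2⟩
    refine ⟨?_, ?_⟩
    · intro s hs
      have h3 := h1 _ (UEFM.half_mem hs)
      rw [real_inner_smul_left] at h3
      rw [real_inner_smul_right, real_inner_comm s y, real_inner_comm a y]
      linarith
    · rw [real_inner_smul_left]
      linarith
  · rintro ⟨h1, h2⟩
    rw [real_inner_smul_left] at h2
    refine ⟨?_, by linarith⟩
    intro s hs
    have h3 := h1 _ ((UEFM.mem_UE s).1 hs)
    rw [real_inner_smul_right, real_inner_smul_right, real_inner_comm s y,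
      real_inner_comm a y] at h3
    linarith

theorem PY_vol (hSYM : EV.SpecSYM) (a : E) (ha : a ∈ UE) :
    volume (PY a) = ENNReal.ofReal (1 / 15) := by
  rw [PY_eq]
  exact hSYM.vol _ ((UEFM.mem_UE a).1 ha)

theorem PY_meas (hKCO : SpecKCO) (a : E) : MeasurableSet (PY a) :=
  (hKCO.meas a).inter (measurableSet_le (continuous_const.inner continuous_id).measurable
    measurable_const)

theorem BB_meas (hKCO : SpecKCO) (e a : E) : MeasurableSet (BB e a) := by
  have : IsClosed (BB e a) := isClosed_eq (hKCO.g2c a) (by fun_prop)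
  exact this.measurableSet

/-- decomposition of the pyramid -/
theorem split (hKCO : SpecKCO) (a : E) (ha : a ∈ UE) :
    volume (PY a) = ∑ e ∈ nb a, volume (PY a ∩ BB e a) := by
  have h1 : PY a = ⋃ e ∈ nb a, (PY a ∩ BB e a) := by
    ext y
    simp only [Set.mem_iUnion, exists_prop]
    constructor
    · intro hy
      obtain ⟨e, he, hge⟩ := hKCO.g2at a ha y
      exact ⟨e, he, hy, hge⟩
    · rintro ⟨e, _, hy, _⟩
      exact hy
  conv_lhs => rw [h1]
  apply measure_biUnion_finset₀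
  · intro e he e' he' hne
    have hv : e - e' ≠ 0 := sub_ne_zero.2 hne
    refine measure_mono_null ?_ (hyp_null (e - e') hv)
    rintro y ⟨⟨_, h2⟩, ⟨_, h3⟩⟩
    have h4 : g2 a y = (inner ℝ a y : ℝ) - inner ℝ e y := h2
    have h5 : g2 a y = (inner ℝ a y : ℝ) - inner ℝ e' y := h3
    change (inner ℝ (e - e') y : ℝ) = 0
    rw [inner_sub_left]
    linarith
  · intro e _
    exact ((PY_meas hKCO a).inter (BB_meas hKCO e a)).nullMeasurableSet

/-- `∫_0^{1/2} (1-2g)^6 = 1/14` -/
theorem int6 : ∫⁻ g in Set.Ioo (0 : ℝ) (1 / 2), ENNReal.ofReal ((1 - 2 * g) ^ 6) =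
    ENNReal.ofReal (1 / 14) := by
  have h1 : ∫ g in (0 : ℝ)..(1 / 2), (1 - 2 * g) ^ 6 = 1 / 14 := by
    have h2 : ∀ x ∈ Set.uIcc (0 : ℝ) (1 / 2),
        HasDerivAt (fun g : ℝ => -(1 - 2 * g) ^ 7 / 14) ((1 - 2 * x) ^ 6) x := by
      intro x _
      have h3 : HasDerivAt (fun g : ℝ => 1 - 2 * g) (-2) x := by
        have := ((hasDerivAt_id x).const_mul 2).const_sub 1
        simpa using this
      have h4 := ((h3.pow 7).neg).div_const 14
      refine h4.congr_deriv ?_
      push_cast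
      ring
    rw [intervalIntegral.integral_eq_sub_of_hasDerivAt h2
      ((by fun_prop : Continuous fun g : ℝ => (1 - 2 * g) ^ 6).intervalIntegrable _ _)]
    norm_num
  rw [intervalIntegral.integral_of_le (by norm_num), integral_Ioc_eq_integral_Ioo] at h1
  rw [← ofReal_integral_eq_lintegral_ofReal, h1]
  · have : ContinuousOn (fun g : ℝ => (1 - 2 * g) ^ 6) (Set.Icc 0 (1 / 2)) := by fun_prop
    exact this.integrableOn_Icc.mono_set Set.Ioo_subset_Icc_self
  · exact Filter.Eventually.of_forall fun g => by positivity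

theorem int7 : ∫⁻ α in Set.Ioc (0 : ℝ) 1, ENNReal.ofReal (α ^ 7) =
    ENNReal.ofReal (1 / 8) := by
  have h1 : ∫ g in (0 : ℝ)..1, g ^ 7 = 1 / 8 := by
    rw [integral_pow]
    norm_num
  rw [intervalIntegral.integral_of_le (by norm_num)] at h1
  rw [← ofReal_integral_eq_lintegral_ofReal, h1]
  · have : ContinuousOn (fun g : ℝ => g ^ 7) (Set.Icc 0 1) := by fun_prop
    exact this.integrableOn_Icc.mono_set Set.Ioc_subset_Icc_self
  · filter_upwards [ae_restrict_mem measurableSet_Ioc] with x hx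
    exact pow_nonneg hx.1.le 7

/-- the coordinates -/
noncomputable def Y (e a : E) (α β : ℝ) : E :=
  (4 / 3 * (α - (α - β) / 2)) • a + (4 / 3 * ((α - β) - α / 2)) • e

/-- volume of one piece -/
theorem piece (hUEF : SpecUEF) (hKCO : SpecKCO) (hPIN : SpecPIN) (hF6V : SpecF6V)
    (a : E) (ha : a ∈ UE) (e : E) (he : e ∈ nb a) :
    volume (PY a ∩ BB e a) = ENNReal.ofReal (2 / Real.sqrt 3) *
      (ENNReal.ofReal (1 / 112) * volume (F6 e a)) := by
  obtain ⟨heU, hea⟩ := (mem_nb a e).1 he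
  have he1 := hUEF.nrm e heU
  have ha1 := hUEF.nrm a ha
  have hae : (inner ℝ a e : ℝ) = 1 / 2 := by rw [real_inner_comm]; exact hea
  have hAm : MeasurableSet (PY a ∩ BB e a) := (PY_meas hKCO a).inter (BB_meas hKCO e a)
  set H : E → ENNReal := (PY a ∩ BB e a).indicator 1 with hH
  have hHm : Measurable H := measurable_one.indicator hAm
  have h0 : volume (PY a ∩ BB e a) = ∫⁻ y, H y := (lintegral_indicator_one hAm).symm
  rw [h0, pin' hPIN e a he1 ha1 hae H hHm]
  congr 1
  have hsub : ∀ p : ℝ, ∫⁻ q : ℝ, ∫⁻ x : Sp e a,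
      H ((4 / 3 * (p - q / 2)) • a + (4 / 3 * (q - p / 2)) • e + (x : E)) =
      ∫⁻ β : ℝ, ∫⁻ x : Sp e a, H (Y e a p β + (x : E)) := by
    intro p
    exact (lintegral_sub_left_eq_self (fun q : ℝ => ∫⁻ x : Sp e a,
      H ((4 / 3 * (p - q / 2)) • a + (4 / 3 * (q - p / 2)) • e + (x : E))) p).symm
  simp_rw [hsub]
  -- coordinates
  have hca : ∀ (α β : ℝ) (x : Sp e a), (inner ℝ a (Y e a α β + (x : E)) : ℝ) = α := by
    intro α β x
    have hx := (mem_Sp e a x).1 x.2
    unfold Y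
    rw [FIBM.geo_e a e x ha1 hae hx.2]
    ring
  have hce : ∀ (α β : ℝ) (x : Sp e a), (inner ℝ e (Y e a α β + (x : E)) : ℝ) = α - β := by
    intro α β x
    have hx := (mem_Sp e a x).1 x.2
    unfold Y
    rw [FIBM.geo_a a e x he1 hae hx.1]
    ring
  have hcb : ∀ (b : E) (α β : ℝ) (x : Sp e a), (inner ℝ b (Y e a α β + (x : E)) : ℝ) =
      2 / 3 * (α + β) * (inner ℝ b a : ℝ) + 2 / 3 * (α - 2 * β) * (inner ℝ b e : ℝ) +
        (inner ℝ b (x : E) : ℝ) := by
    intro b α β x
    unfold Y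
    rw [FIBM.geo_b b a e x]
    ring
  have hsubU : a - e ∈ nb a := by
    rw [mem_nb]
    refine ⟨hUEF.sub a ha e heU hae, ?_⟩
    rw [inner_sub_left, hea, real_inner_self_eq_norm_sq, ha1]; norm_num
  -- support
  have supp : ∀ (α β : ℝ) (x : Sp e a), Y e a α β + (x : E) ∈ PY a ∩ BB e a →
      0 ≤ α ∧ α ≤ 1 ∧ 0 ≤ β ∧ 2 * β ≤ α := by
    intro α β x hmem
    obtain ⟨⟨hK, h1⟩, hB⟩ := hmem
    have h2 : (inner ℝ a (Y e a α β + (x : E)) : ℝ) ≤ 1 := h1
    rw [hca] at h2
    have h3 := (hKCO.low a ha _ hK).1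
    rw [hca] at h3
    have hg2 : g2 a (Y e a α β + (x : E)) = β := by
      have h3 : g2 a (Y e a α β + (x : E)) =
        (inner ℝ a (Y e a α β + (x : E)) : ℝ) - inner ℝ e (Y e a α β + (x : E)) := hB
      rw [h3, hca, hce]; ring
    have h4 := hKCO.g2ge a ha _ hK
    rw [hg2] at h4
    have h6 := hKCO.g2le a ha _ hsubU (Y e a α β + (x : E))
    rw [hg2, inner_sub_left, hca, hce] at h6
    exact ⟨h3, h2, h4, by linarith⟩
  -- the fibre
  have fibre : ∀ α β : ℝ, 0 < α → α ≤ 1 → 0 ≤ β → 2 * β < α → ∀ x : Sp e a,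
      (Y e a α β + (((α - 2 * β) • x : Sp e a) : E) ∈ PY a ∩ BB e a ↔ x ∈ F6 e a) := by
    intro α β hα hα1 hβ hβ2 x
    set c : ℝ := α - 2 * β with hc
    have hc0 : 0 < c := by rw [hc]; linarith
    have hcx : ((c • x : Sp e a) : E) = c • (x : E) := rfl
    have ya : (inner ℝ a (Y e a α β + ((c • x : Sp e a) : E)) : ℝ) = α := hca _ _ _
    have ye : (inner ℝ e (Y e a α β + ((c • x : Sp e a) : E)) : ℝ) = α - β := hce _ _ _
    constructor
    · rintro ⟨⟨hK, _⟩, hB⟩
      have hg2 : g2 a (Y e a α β + ((c • x : Sp e a) : E)) = β := by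
        have h3 : g2 a (Y e a α β + ((c • x : Sp e a) : E)) =
          (inner ℝ a (Y e a α β + ((c • x : Sp e a) : E)) : ℝ) -
            inner ℝ e (Y e a α β + ((c • x : Sp e a) : E)) := hB
        rw [h3, ya, ye]; ring
      intro b hb hbe hba
      have hbn : b ∈ nb a := (mem_nb a b).2 ⟨hb, hba⟩
      have h1 := hKCO.g2le a ha b hbn (Y e a α β + ((c • x : Sp e a) : E))
      rw [ya, hg2, hcb, hbe, hba, hcx, inner_smul_right] at h1
      have h3 : c * (inner ℝ b (x : E) : ℝ) ≤ c * (1 / 3) := by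
        rw [hc] at h1 ⊢
        linarith
      exact le_of_mul_le_mul_left h3 hc0
    · intro hx
      have hz := hF6V.mem a ha e he x hx
      set z : E := (2 / 3 : ℝ) • (e + a) + (x : E) with hzdef
      have hyz : Y e a α β + ((c • x : Sp e a) : E) = (2 * β) • a + c • z := by
        rw [hcx, hzdef, hc]
        unfold Y
        module
      have hz' : ∀ s ∈ UE, (inner ℝ s z : ℝ) ≤ 1 := hz
      have haa : (inner ℝ a a : ℝ) = 1 := by rw [real_inner_self_eq_norm_sq, ha1]; norm_num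
      have hin : ∀ s : E, (inner ℝ s (Y e a α β + ((c • x : Sp e a) : E)) : ℝ) =
          2 * β * (inner ℝ s a : ℝ) + c * (inner ℝ s z : ℝ) := by
        intro s
        rw [hyz, inner_add_right, inner_smul_right, inner_smul_right]
      refine ⟨⟨?_, ?_⟩, ?_⟩
      · intro s hs
        rw [ya, hin]
        have h1 : (inner ℝ s a : ℝ) ≤ 1 := by
          have := real_inner_le_norm s a
          rw [hUEF.nrm s hs, ha1, mul_one] at this
          exact this
        have h2 := hz' s hs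
        have h3 : 2 * β * (inner ℝ s a : ℝ) ≤ 2 * β * 1 :=
          mul_le_mul_of_nonneg_left h1 (by linarith)
        have h4 : c * (inner ℝ s z : ℝ) ≤ c * 1 := mul_le_mul_of_nonneg_left h2 hc0.le
        rw [hc] at h4 ⊢
        linarith
      · change (inner ℝ a (Y e a α β + ((c • x : Sp e a) : E)) : ℝ) ≤ 1
        rw [ya]
        exact hα1
      · change g2 a (Y e a α β + ((c • x : Sp e a) : E)) =
          (inner ℝ a (Y e a α β + ((c • x : Sp e a) : E)) : ℝ) -
            inner ℝ e (Y e a α β + ((c • x : Sp e a) : E))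
        apply le_antisymm
        · exact hKCO.g2le a ha e he _
        · obtain ⟨f, hf, hgf⟩ := hKCO.g2at a ha (Y e a α β + ((c • x : Sp e a) : E))
          obtain ⟨hfU, hfa⟩ := (mem_nb a f).1 hf
          rw [hgf, ya, ye, hin, hfa]
          have h4 : c * (inner ℝ f z : ℝ) ≤ c * 1 :=
            mul_le_mul_of_nonneg_left (hz' f hfU) hc0.le
          rw [hc] at h4 ⊢
          linarith
  -- the inner integral
  set V := volume (F6 e a) with hV
  have hmeas : ∀ v : E, Measurable (fun x : Sp e a => H (v + (x : E))) := fun v =>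
    hHm.comp (continuous_const.add continuous_subtype_val).measurable
  have inner1 : ∀ α β : ℝ, 0 < α → α ≤ 1 → 0 ≤ β → 2 * β < α →
      ∫⁻ x : Sp e a, H (Y e a α β + (x : E)) = ENNReal.ofReal ((α - 2 * β) ^ 6) * V := by
    intro α β hα hα1 hβ hβ2
    rw [hPIN.scl e a he1 ha1 hea (α - 2 * β) (by linarith) _ (hmeas _)]
    congr 1
    have h1 : (fun x : Sp e a => H (Y e a α β + (((α - 2 * β) • x : Sp e a) : E))) =
        (F6 e a).indicator 1 := by
      funext x
      have h2 := fibre α β hα hα1 hβ hβ2 x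
      by_cases hx : x ∈ F6 e a
      · rw [Set.indicator_of_mem hx, hH, Set.indicator_of_mem (h2.2 hx)]
        rfl
      · rw [Set.indicator_of_notMem hx, hH, Set.indicator_of_notMem (fun h => hx (h2.1 h))]
    rw [h1, lintegral_indicator_one (F6_meas e a)]
  have inner0 : ∀ α β : ℝ, ¬ (0 ≤ α ∧ α ≤ 1 ∧ 0 ≤ β ∧ 2 * β ≤ α) →
      ∫⁻ x : Sp e a, H (Y e a α β + (x : E)) = 0 := by
    intro α β hn
    have h3 : ∀ x : Sp e a, H (Y e a α β + (x : E)) = 0 := fun x =>
      Set.indicator_of_notMem (fun h => hn (supp α β x h)) _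
    simp only [h3, lintegral_zero]
  -- the middle integral
  have mid : ∀ᵐ α : ℝ, ∫⁻ β : ℝ, ∫⁻ x : Sp e a, H (Y e a α β + (x : E)) =
      (Set.Ioc (0 : ℝ) 1).indicator (fun α => ENNReal.ofReal (α ^ 7) *
        (ENNReal.ofReal (1 / 14) * V)) α := by
    filter_upwards [FIBM.ae_ne' 0] with α hα0
    by_cases hα : α ∈ Set.Ioc (0 : ℝ) 1
    · rw [Set.indicator_of_mem hα, FIBM.scale _ α hα.1]
      have h1 : ∀ᵐ g : ℝ, ∫⁻ x : Sp e a, H (Y e a α (α * g) + (x : E)) =
          (Set.Ioo (0 : ℝ) (1 / 2)).indicator (fun g => ENNReal.ofReal (α ^ 6) *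
            (ENNReal.ofReal ((1 - 2 * g) ^ 6) * V)) g := by
        filter_upwards [FIBM.ae_ne' 0, FIBM.ae_ne' (1 / 2)] with g hg0 hg1
        by_cases hg : g ∈ Set.Ioo (0 : ℝ) (1 / 2)
        · rw [Set.indicator_of_mem hg, inner1 α (α * g) hα.1 hα.2
            (mul_nonneg hα.1.le hg.1.le) (by nlinarith [hg.2, hα.1])]
          have e1 : α - 2 * (α * g) = α * (1 - 2 * g) := by ring
          rw [e1, mul_pow, ENNReal.ofReal_mul (by have := hα.1; positivity), mul_assoc]
        · rw [Set.indicator_of_notMem hg]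
          apply inner0
          rintro ⟨_, _, h2, h3⟩
          apply hg
          have h4 : 0 ≤ g := by
            by_contra hneg
            push Not at hneg
            nlinarith [hα.1]
          have h5 : g ≤ 1 / 2 := by
            by_contra hneg
            push Not at hneg
            nlinarith [hα.1]
          exact ⟨lt_of_le_of_ne h4 (Ne.symm hg0), lt_of_le_of_ne h5 hg1⟩
      rw [lintegral_congr_ae h1, lintegral_indicator measurableSet_Ioo,
        lintegral_const_mul' _ _ ENNReal.ofReal_ne_top, lintegral_mul_const _ (by fun_prop), int6,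
        ← mul_assoc, ← ENNReal.ofReal_mul hα.1.le]
      congr 2
      ring
    · rw [Set.indicator_of_notMem hα]
      have h1 : ∀ β : ℝ, ∫⁻ x : Sp e a, H (Y e a α β + (x : E)) = 0 := by
        intro β
        apply inner0
        rintro ⟨h2, h3, _, _⟩
        exact hα ⟨lt_of_le_of_ne h2 (Ne.symm hα0), h3⟩
      simp only [h1, lintegral_zero]
  rw [lintegral_congr_ae mid, lintegral_indicator measurableSet_Ioc,
    lintegral_mul_const _ (by fun_prop), int7, ← mul_assoc, ← ENNReal.ofReal_mul (by norm_num)]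
  norm_num

end VF6M

open VF6M NUTM in
theorem specVF6 (hUEF : SpecUEF) (hTRA : SpecTRA) (hKCO : SpecKCO) (hPIN : SpecPIN)
    (hF6V : SpecF6V) (hSYM : EV.SpecSYM) : SpecVF6 := by
  intro a ha e he
  have h1 := PY_vol hSYM a ha
  rw [split hKCO a ha] at h1
  have h2 : ∀ f ∈ nb a, volume (PY a ∩ BB f a) = ENNReal.ofReal (2 / Real.sqrt 3) *
      (ENNReal.ofReal (1 / 112) * volume (F6 e a)) := by
    intro f hf
    rw [piece hUEF hKCO hPIN hF6V a ha f hf]
    obtain ⟨T, hT, hTa, hTe⟩ := hTRA.two a ha f hf a ha e he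
    have h3 := vol_tau T hT f a
    rw [hTa, hTe] at h3
    rw [h3]
  rw [Finset.sum_congr rfl h2, Finset.sum_const, hUEF.c56 a ha, nsmul_eq_mul, ← mul_assoc,
    ← mul_assoc] at h1
  have h3 : (((56 : ℕ) : ENNReal) * ENNReal.ofReal (2 / Real.sqrt 3) * ENNReal.ofReal (1 / 112)) =
      ENNReal.ofReal (1 / Real.sqrt 3) := by
    rw [← ENNReal.ofReal_natCast, ← ENNReal.ofReal_mul (by norm_num),
      ← ENNReal.ofReal_mul (by positivity)]
    congr 1
    have : Real.sqrt 3 ≠ 0 := by positivity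
    field_simp
    norm_num
  rw [h3] at h1
  have hs : (0 : ℝ) < Real.sqrt 3 := by positivity
  have h4 : ENNReal.ofReal (Real.sqrt 3) * (ENNReal.ofReal (1 / Real.sqrt 3) *
      volume (F6 e a)) = ENNReal.ofReal (Real.sqrt 3) * ENNReal.ofReal (1 / 15) := by rw [h1]
  rw [← mul_assoc, ← ENNReal.ofReal_mul hs.le, ← ENNReal.ofReal_mul hs.le] at h4
  have h5 : Real.sqrt 3 * (1 / Real.sqrt 3) = 1 := by field_simp
  rw [h5, ENNReal.ofReal_one, one_mul] at h4
  rw [h4]
  congr 1
  ring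

end Pool.Agent.Lib.MP_f1379f_gt.FV
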