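import Pool.Agent.Lib.MP_f1379f_gt.FV.SpecO
import Pool.Agent.Lib.MP_f1379f_gt.FV.QVD
import Pool.Agent.Lib.MP_f1379f_gt.EQ.FNE
import Pool.Agent.Lib.MP_f1379f_gt.FV.XRD
import Pool.Agent.Lib.MP_f1379f_gt.FV.TRA
import Pool.Agent.Lib.MP_f1379f_gt.FV.TL2
import Pool.Agent.Lib.MP_f1379f_gt.FV.PIN
import Pool.Agent.Lib.MP_f1379f_gt.FV.NUA
import Pool.Agent.Lib.MP_f1379f_gt.FV.IS2
import Pool.Agent.Lib.MP_f1379f_gt.FV.IS4
import Pool.Agent.Lib.MP_f1379f_gt.FV.ORT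
import Pool.Agent.Lib.MP_f1379f_gt.FV.VF6
import Pool.Agent.Lib.MP_f1379f_gt.FV.V6G
import Pool.Agent.Lib.MP_f1379f_gt.FV.V6B
import Pool.Agent.Lib.MP_f1379f_gt.FV.SpecL1
import Pool.Agent.Lib.MP_f1379f_gt.FV.ISO
import Pool.Agent.Lib.MP_f1379f_gt.FV.LKG
import Pool.Agent.Lib.MP_f1379f_gt.FV.SpecS2

section
/-!
# TAI: the volume of the E8 cell outside the ball
-/
set_option autoImplicit false

namespace Pool.Agent.Lib.MP_f1379f_gt.FV

/-- **SpecTAI.** -/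
theorem specTAI (hE8V : SpecE8V) : SpecTAI := by
  unfold SpecTAI
  have h := QV.tail hE8V
  have : (0.007136 : ℝ) ≤ 716 / 100000 := by norm_num
  linarith

end Pool.Agent.Lib.MP_f1379f_gt.FV
end

section
/-!
# MP_f1379f_gt, full Q1: assembly of block O (row 219), the outer part of the local step
-/
set_option autoImplicit false

namespace Pool.Agent.Lib.MP_f1379f_gt.FV.AllO

theorem hUEF : SpecUEF := specUEF EV.All.hROT EV.All.hLPI EV.All.hCLO EV.All.hCOV EV.All.hCNT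
  AllA.hCNE
theorem hTRA : SpecTRA := specTRA hUEF
theorem hKCO : SpecKCO := specKCO hUEF
theorem hTLC : SpecTLC := specTLC hUEF hKCO
theorem hPTW : SpecPTW := specPTW hUEF hKCO
theorem hMO1 : SpecMO1 := specMO1 hUEF hKCO hTLC
theorem hRD1 : SpecRD1 := specRD1 hUEF hKCO hTLC hPTW hMO1
theorem hPIN : SpecPIN := specPIN
theorem hF6V : SpecF6V := specF6V hUEF
theorem hONE : SpecONE := specONE
theorem hOTF : SpecOTF := specOTF hUEF hKCO hPIN hF6V hONE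
theorem hINF : SpecINF := specINF hUEF hKCO hPIN hF6V hONE
theorem hNUT : SpecNUT := specNUT hUEF
theorem hNUA : SpecNUA := specNUA hUEF hF6V hNUT
theorem hIS2 : SpecIS2 := specIS2 hUEF
theorem hIS4 : SpecIS4 := specIS4 hTRA
theorem hORT : SpecORT := specORT hUEF hKCO hIS4
theorem hVF6 : SpecVF6 := specVF6 hUEF hTRA hKCO hPIN hF6V EV.All.hSYM
theorem hV6G : SpecV6G := specV6G
theorem hV6B : SpecV6B := specV6B hUEF hV6G
theorem hTL2 : SpecTL2 := specTL2 hUEF hTRA hKCO hPIN hF6V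
theorem hTAI : SpecTAI := specTAI AllA.hE8V
theorem hM24 : SpecM24 := specM24 hF6V hVF6 hV6B hTL2 hTAI
theorem hNNB : SpecNNB := specNNB hUEF hKCO hOTF hINF hORT hNUA hIS2 hIS4 hONE hM24
theorem hOUT : SpecOUT := specOUT hUEF hTLC hRD1 hNNB

end Pool.Agent.Lib.MP_f1379f_gt.FV.AllO
end

section
/-!
# MP_f1379f_gt, local end game: moments of the 240 unit roots (no hypotheses)
-/
set_option autoImplicit false

namespace Pool.Agent.Lib.MP_f1379f_gt.FV.UMO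

open Finset UEFM

theorem inner_h (x r : E) : (inner ℝ x ((1 / 2 : ℝ) • r) : ℝ) = inner ℝ x r / 2 := by
  rw [real_inner_smul_right]
  ring

theorem sum_UE (h : E → ℝ) : ∑ f ∈ UE, h f = ∑ r ∈ EV.R, h ((1 / 2 : ℝ) • r) := by
  classical
  unfold UE
  rw [sum_image]
  intro a _ b _ hab
  exact half_inj hab

/-- The frame identity. -/
theorem m2 (x : E) : ∑ f ∈ UE, (inner ℝ x f : ℝ) ^ 2 = 30 * ‖x‖ ^ 2 := by
  have h := (EV.All.hMOM EV.R EV.All.hROT.k240 x).2.1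
  rw [sum_UE]
  simp only [inner_h, div_pow]
  rw [← sum_div, h, real_inner_self_eq_norm_sq]
  ring

/-- The polarised frame identity. -/
theorem m11 (x y : E) : ∑ f ∈ UE, (inner ℝ x f : ℝ) * inner ℝ y f = 30 * inner ℝ x y := by
  have h := EV.All.hPOL.m11 EV.R EV.All.hROT.k240 x y
  rw [sum_UE]
  simp only [inner_h]
  calc ∑ r ∈ EV.R, (inner ℝ x r : ℝ) / 2 * (inner ℝ y r / 2)
      = (∑ r ∈ EV.R, (inner ℝ x r : ℝ) * inner ℝ y r) / 4 := by
        rw [sum_div]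
        exact sum_congr rfl fun r _ => by ring
    _ = _ := by rw [h]; ring

/-- The first moment. -/
theorem m1 (x : E) : ∑ f ∈ UE, (inner ℝ x f : ℝ) = 0 := by
  have h := (EV.All.hMOM EV.R EV.All.hROT.k240 x).1
  rw [sum_UE]
  simp only [inner_h]
  rw [← sum_div, h]
  norm_num

/-- The third moment. -/
theorem m3 (x : E) : ∑ f ∈ UE, (inner ℝ x f : ℝ) ^ 3 = 0 := by
  have h := (EV.All.hMOM EV.R EV.All.hROT.k240 x).2.2.1
  rw [sum_UE]
  simp only [inner_h, div_pow]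
  rw [← sum_div, h]
  norm_num

/-- The fourth moment. -/
theorem m4 (x : E) : ∑ f ∈ UE, (inner ℝ x f : ℝ) ^ 4 = 9 * ‖x‖ ^ 4 := by
  have h := (EV.All.hMOM EV.R EV.All.hROT.k240 x).2.2.2.1
  rw [sum_UE]
  simp only [inner_h, div_pow]
  rw [← sum_div, h, real_inner_self_eq_norm_sq]
  ring

/-- The mixed fourth moment. -/
theorem m22 (x y : E) : ∑ f ∈ UE, (inner ℝ x f : ℝ) ^ 2 * (inner ℝ y f : ℝ) ^ 2 =
    3 * (‖x‖ ^ 2 * ‖y‖ ^ 2 + 2 * (inner ℝ x y : ℝ) ^ 2) := by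
  have h := EV.All.hPOL.m22 EV.R EV.All.hROT.k240 x y
  rw [sum_UE]
  simp only [inner_h]
  calc ∑ r ∈ EV.R, ((inner ℝ x r : ℝ) / 2) ^ 2 * (inner ℝ y r / 2) ^ 2
      = (∑ r ∈ EV.R, (inner ℝ x r : ℝ) ^ 2 * inner ℝ y r ^ 2) / 16 := by
        rw [sum_div]
        exact sum_congr rfl fun r _ => by ring
    _ = _ := by
        rw [h, real_inner_self_eq_norm_sq, real_inner_self_eq_norm_sq]
        ring

/-- The mixed fourth moment, three vectors. -/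
theorem m211 (x y z : E) : ∑ f ∈ UE, (inner ℝ x f : ℝ) ^ 2 * ((inner ℝ y f : ℝ) * inner ℝ z f) =
    3 * (‖x‖ ^ 2 * inner ℝ y z + 2 * ((inner ℝ x y : ℝ) * inner ℝ x z)) := by
  have h := EV.All.hPOL.m211 EV.R EV.All.hROT.k240 x y z
  rw [sum_UE]
  simp only [inner_h]
  calc ∑ r ∈ EV.R, ((inner ℝ x r : ℝ) / 2) ^ 2 * (inner ℝ y r / 2 * (inner ℝ z r / 2))
      = (∑ r ∈ EV.R, (inner ℝ x r : ℝ) ^ 2 * ((inner ℝ y r : ℝ) * inner ℝ z r)) / 16 := by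
        rw [sum_div]
        exact sum_congr rfl fun r _ => by ring
    _ = _ := by
        rw [h, real_inner_self_eq_norm_sq]
        ring

theorem mem_nb (a e : E) : e ∈ nb a ↔ e ∈ UE ∧ (inner ℝ e a : ℝ) = 1 / 2 := by
  unfold nb
  rw [mem_filter]

theorem nb_UE {a e : E} (h : e ∈ nb a) : e ∈ UE := ((mem_nb a e).mp h).1

theorem nb_ip {a e : E} (h : e ∈ nb a) : (inner ℝ e a : ℝ) = 1 / 2 := ((mem_nb a e).mp h).2

theorem nb_symm {a e : E} (ha : a ∈ UE) (h : e ∈ nb a) : a ∈ nb e := by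
  rw [mem_nb]
  refine ⟨ha, ?_⟩
  rw [real_inner_comm]
  exact nb_ip h

theorem nb_sub {a e : E} (ha : a ∈ UE) (h : e ∈ nb a) : a - e ∈ nb a := by
  rw [mem_nb]
  have h1 := nb_ip h
  have h2 : (inner ℝ a a : ℝ) = 1 := by
    rw [real_inner_self_eq_norm_sq, AllO.hUEF.nrm a ha]; norm_num
  refine ⟨AllO.hUEF.sub a ha e (nb_UE h) ?_, ?_⟩
  · rw [real_inner_comm]; exact h1
  · rw [inner_sub_left, h1, h2]; norm_num

/-- The involution `e ↦ a - e` of the neighbours. -/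
theorem nb_inv (a : E) (ha : a ∈ UE) (h : E → ℝ) : ∑ e ∈ nb a, h (a - e) = ∑ e ∈ nb a, h e := by
  refine sum_nbij' (fun e => a - e) (fun e => a - e) ?_ ?_ ?_ ?_ ?_
  · intro e he
    exact nb_sub ha he
  · intro e he
    exact nb_sub ha he
  · intro e _
    abel
  · intro e _
    abel
  · intro e _
    rfl

/-- Linear sums over the neighbours of `a`. -/
theorem n1 (a : E) (ha : a ∈ UE) (x : E) : ∑ e ∈ nb a, (inner ℝ x e : ℝ) = 28 * inner ℝ x a := by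
  have h := nb_inv a ha (fun e => (inner ℝ x e : ℝ))
  simp only [inner_sub_right] at h
  rw [sum_sub_distrib, sum_const, AllO.hUEF.c56 a ha, nsmul_eq_mul] at h
  push_cast at h
  linarith

/-- Quadratic sums over the neighbours of `a`. -/
theorem n2 (a : E) (ha : a ∈ UE) (x : E) (hx : (inner ℝ x a : ℝ) = 0) :
    ∑ e ∈ nb a, (inner ℝ x e : ℝ) ^ 2 = 6 * ‖x‖ ^ 2 := by
  classical
  have h := m22 a x
  have ha1 : ‖a‖ = 1 := AllO.hUEF.nrm a ha
  have hxa : (inner ℝ a x : ℝ) = 0 := by rw [real_inner_comm]; exact hx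
  rw [ha1, hxa] at h
  have key : ∀ f ∈ UE, (inner ℝ a f : ℝ) ^ 2 * (inner ℝ x f : ℝ) ^ 2 =
      (if (inner ℝ f a : ℝ) = 1 / 2 then (inner ℝ x f : ℝ) ^ 2 / 4 else 0)
      + (if (inner ℝ (-f) a : ℝ) = 1 / 2 then (inner ℝ x (-f) : ℝ) ^ 2 / 4 else 0) := by
    intro f hf
    rw [inner_neg_left, inner_neg_right, real_inner_comm f a]
    rcases AllO.hUEF.ip f hf a ha with h1 | h1 | h1 | h1 | h1
    · have h2 := AllO.hUEF.one f hf a ha h1
      rw [h2, hx]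
      norm_num
    · rw [h1]
      norm_num
      ring
    · rw [h1]
      norm_num
    · rw [h1]
      norm_num
      ring
    · have h2 : -f = a := AllO.hUEF.one (-f) (AllO.hUEF.neg f hf) a ha (by
        rw [inner_neg_left, h1]; norm_num)
      have h3 : (inner ℝ x f : ℝ) = 0 := by
        have : (inner ℝ x (-f) : ℝ) = 0 := by rw [h2]; exact hx
        rw [inner_neg_right] at this
        linarith
      rw [h3]
      norm_num
  rw [sum_congr rfl key, sum_add_distrib] at h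
  have hneg : ∑ f ∈ UE, (if (inner ℝ (-f) a : ℝ) = 1 / 2 then (inner ℝ x (-f) : ℝ) ^ 2 / 4 else 0)
      = ∑ f ∈ UE, (if (inner ℝ f a : ℝ) = 1 / 2 then (inner ℝ x f : ℝ) ^ 2 / 4 else 0) := by
    refine sum_nbij' (fun f => -f) (fun f => -f) ?_ ?_ ?_ ?_ ?_
    · intro f hf
      exact AllO.hUEF.neg f hf
    · intro f hf
      exact AllO.hUEF.neg f hf
    · intro f _
      exact neg_neg f
    · intro f _
      exact neg_neg f
    · intro f _
      rfl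
  rw [hneg, ← sum_filter] at h
  have hnb : UE.filter (fun f => (inner ℝ f a : ℝ) = 1 / 2) = nb a := by
    ext f
    rw [mem_nb, mem_filter]
  rw [hnb, ← sum_div] at h
  linarith

end Pool.Agent.Lib.MP_f1379f_gt.FV.UMO
end

section
/-!
# MP_f1379f_gt, (L1), part B: the Gram identity
-/
set_option autoImplicit false

namespace Pool.Agent.Lib.MP_f1379f_gt.FV.L1M

open Finset

/-- Difference of the products. -/
noncomputable def dd (u : E → E) (e f : E) : ℝ := (inner ℝ (u e) (u f) : ℝ) - inner ℝ e f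

/-- Positivity of the product of two Gram matrices. -/
theorem schur {ι : Type*} (s : Finset ι) (a b : ι → E) :
    0 ≤ ∑ i ∈ s, ∑ j ∈ s, (inner ℝ (a i) (a j) : ℝ) * inner ℝ (b i) (b j) := by
  have hin : ∀ x y : E, (inner ℝ x y : ℝ) = ∑ k, x k * y k := by
    intro x y
    rw [PiLp.inner_apply]
    refine sum_congr rfl fun k _ => ?_
    simp [mul_comm]
  have e : ∑ i ∈ s, ∑ j ∈ s, (inner ℝ (a i) (a j) : ℝ) * inner ℝ (b i) (b j) =
      ∑ k, ∑ l, (∑ i ∈ s, a i k * b i l) ^ 2 := by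
    have h1 : ∀ k l, (∑ i ∈ s, a i k * b i l) ^ 2 =
        ∑ i ∈ s, ∑ j ∈ s, (a i k * b i l) * (a j k * b j l) := by
      intro k l
      rw [sq, sum_mul_sum]
    simp only [h1]
    calc ∑ i ∈ s, ∑ j ∈ s, (inner ℝ (a i) (a j) : ℝ) * inner ℝ (b i) (b j)
        = ∑ i ∈ s, ∑ j ∈ s, ∑ k, ∑ l, (a i k * b i l) * (a j k * b j l) := by
          refine sum_congr rfl fun i _ => sum_congr rfl fun j _ => ?_
          rw [hin, hin, sum_mul_sum]
          refine sum_congr rfl fun k _ => sum_congr rfl fun l _ => ?_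
          ring
      _ = ∑ i ∈ s, ∑ k, ∑ j ∈ s, ∑ l, (a i k * b i l) * (a j k * b j l) :=
          sum_congr rfl fun i _ => sum_comm
      _ = ∑ k, ∑ i ∈ s, ∑ j ∈ s, ∑ l, (a i k * b i l) * (a j k * b j l) := sum_comm
      _ = ∑ k, ∑ i ∈ s, ∑ l, ∑ j ∈ s, (a i k * b i l) * (a j k * b j l) :=
          sum_congr rfl fun k _ => sum_congr rfl fun i _ => sum_comm
      _ = ∑ k, ∑ l, ∑ i ∈ s, ∑ j ∈ s, (a i k * b i l) * (a j k * b j l) :=
          sum_congr rfl fun k _ => sum_comm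
  rw [e]
  exact sum_nonneg fun k _ => sum_nonneg fun l _ => sq_nonneg _

theorem dd_eq (u : E → E) (e f : E) : dd u e f =
    (inner ℝ (u e - e) f : ℝ) + inner ℝ e (u f - f) + inner ℝ (u e - e) (u f - f) := by
  unfold dd
  simp only [inner_sub_left, inner_sub_right]
  ring

/-- The Gram inequality. -/
theorem gram {u : E → E} (hu : CFG u) :
    60 * gS u - gS u ^ 2 ≤ ∑ e ∈ UE, ∑ f ∈ UE, dd u e f ^ 2 := by
  have h1 : ∑ e ∈ UE, ∑ f ∈ UE, (inner ℝ (u e - e) f : ℝ) ^ 2 = 30 * gS u := by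
    unfold gS
    rw [mul_sum]
    exact sum_congr rfl fun e _ => UMO.m2 _
  have h2 : ∑ e ∈ UE, ∑ f ∈ UE, (inner ℝ e (u f - f) : ℝ) ^ 2 = 30 * gS u := by
    rw [sum_comm, ← h1]
    exact sum_congr rfl fun e _ => sum_congr rfl fun f _ => by rw [real_inner_comm]
  have h3 : ∑ e ∈ UE, ∑ f ∈ UE, (inner ℝ (u e - e) f : ℝ) * inner ℝ e (u f - f) =
      ∑ e ∈ UE, ∑ f ∈ UE, (inner ℝ (u e - e) (u f - f) : ℝ) * inner ℝ e f := by
    rw [sum_comm, sum_comm (s := UE) (t := UE)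
      (f := fun e f => (inner ℝ (u e - e) (u f - f) : ℝ) * inner ℝ e f)]
    exact sum_congr rfl fun f _ => hu.gauge f (u f - f)
  have h4 := schur UE (fun e => u e - e) u
  have h5 : ∑ e ∈ UE, ∑ f ∈ UE, (inner ℝ (u e - e) (u f - f) : ℝ) ^ 2 ≤ gS u ^ 2 := by
    unfold gS
    rw [sq (∑ e ∈ UE, ‖u e - e‖ ^ 2), sum_mul_sum]
    refine sum_le_sum fun e _ => sum_le_sum fun f _ => ?_
    have h := abs_real_inner_le_norm (u e - e) (u f - f)
    have h' : (inner ℝ (u e - e) (u f - f) : ℝ) ^ 2 ≤ (‖u e - e‖ * ‖u f - f‖) ^ 2 := by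
      rw [← sq_abs]
      exact pow_le_pow_left₀ (abs_nonneg _) h 2
    rw [mul_pow] at h'
    exact h'
  have e1 : ∀ e f : E, dd u e f ^ 2 = (inner ℝ (u e - e) f : ℝ) ^ 2
      + (inner ℝ e (u f - f) : ℝ) ^ 2
      + 2 * ((inner ℝ (u e - e) f : ℝ) * inner ℝ e (u f - f))
      - 2 * ((inner ℝ (u e - e) (u f - f) : ℝ) * inner ℝ e f)
      + 2 * ((inner ℝ (u e - e) (u f - f) : ℝ) * inner ℝ (u e) (u f))
      - (inner ℝ (u e - e) (u f - f) : ℝ) ^ 2 := by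
    intro e f
    have h6 := dd_eq u e f
    have h7 : (inner ℝ (u e) (u f) : ℝ) = inner ℝ e f + dd u e f := by
      unfold dd
      ring
    rw [h7, h6]
    ring
  simp only [e1, sum_add_distrib, sum_sub_distrib, ← mul_sum]
  rw [h1, h2, h3]
  linarith

end Pool.Agent.Lib.MP_f1379f_gt.FV.L1M
end

section
/-!
# MP_f1379f_gt: Procrustes from the Gram matrix

For a finite set `I` of unit labels with frame bound `lam` and points `u e`, `e ∈ I`, the optimal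
isometry `A` has `S = ∑ |A (u e) - e|²` with `(4/5) lam S ≤ G` and `2 lam S - S² ≤ G`, where
`G = ∑ (<u e, u f> - <e, f>)²` over ordered pairs of `I`. No a priori smallness is needed. For the 57
pins (a root and its 56 neighbours) `lam = 6`.
-/
set_option autoImplicit false

open Finset

namespace Pool.Agent.Lib.MP_f1379f_gt.FV

namespace PPRM

/-- In the optimal position the form `∑ <A u_e, a> <e, a>` is nonnegative. -/
theorem psd {I : Finset E} {v : E → E} (hopt : ∀ B : E ≃ₗᵢ[ℝ] E,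
    ∑ e ∈ I, ‖v e - e‖ ^ 2 ≤ ∑ e ∈ I, ‖B (v e) - e‖ ^ 2) (a : E) :
    0 ≤ ∑ e ∈ I, (inner ℝ (v e) a : ℝ) * inner ℝ e a := by
  have hunit : ∀ b : E, ‖b‖ = 1 → 0 ≤ ∑ e ∈ I, (inner ℝ (v e) b : ℝ) * inner ℝ e b := by
    intro b hb
    set T : E ≃ₗᵢ[ℝ] E := ((ℝ ∙ b).reflection).trans (LinearIsometryEquiv.neg ℝ) with hT
    have hTy : ∀ y : E, T y = y - (2 * (inner ℝ b y : ℝ)) • b := by
      intro y
      rw [hT]
      show -((ℝ ∙ b).reflection y) = _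
      rw [NUTM.refl_apply b hb]
      abel
    have h1 := hopt T
    have h2 : ∀ e ∈ I, ‖T (v e) - e‖ ^ 2 = ‖v e - e‖ ^ 2 +
        4 * ((inner ℝ (v e) b : ℝ) * inner ℝ e b) := by
      intro e _
      have hn : ‖T (v e)‖ = ‖v e‖ := T.norm_map _
      rw [norm_sub_sq_real, norm_sub_sq_real, hn, hTy, inner_sub_left, real_inner_smul_left,
        real_inner_comm (v e) b, real_inner_comm e b]
      ring
    rw [sum_congr rfl h2, sum_add_distrib, ← mul_sum] at h1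
    linarith
  rcases eq_or_ne a 0 with h0 | h0
  · rw [h0]
    simp
  have hna : ‖a‖ ≠ 0 := norm_ne_zero_iff.mpr h0
  have h1 := hunit ((‖a‖)⁻¹ • a) (by rw [norm_smul, norm_inv, norm_norm, inv_mul_cancel₀ hna])
  have h2 : ∑ e ∈ I, (inner ℝ (v e) ((‖a‖)⁻¹ • a) : ℝ) * inner ℝ e ((‖a‖)⁻¹ • a) =
      (‖a‖)⁻¹ ^ 2 * ∑ e ∈ I, (inner ℝ (v e) a : ℝ) * inner ℝ e a := by
    rw [mul_sum]
    refine sum_congr rfl fun e _ => ?_
    rw [real_inner_smul_right, real_inner_smul_right]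
    ring
  rw [h2] at h1
  have h3 : 0 < (‖a‖)⁻¹ ^ 2 := by positivity
  by_contra hc
  push Not at hc
  nlinarith

/-- The two inequalities in the optimal position. -/
theorem main {I : Finset E} {v : E → E} (hopt : ∀ B : E ≃ₗᵢ[ℝ] E,
    ∑ e ∈ I, ‖v e - e‖ ^ 2 ≤ ∑ e ∈ I, ‖B (v e) - e‖ ^ 2) :
    4 / 5 * ∑ e ∈ I, ∑ f ∈ I, (inner ℝ (v e - e) f : ℝ) ^ 2 ≤
        ∑ e ∈ I, ∑ f ∈ I, ((inner ℝ (v e) (v f) : ℝ) - inner ℝ e f) ^ 2 ∧
      2 * ∑ e ∈ I, ∑ f ∈ I, (inner ℝ (v e - e) f : ℝ) ^ 2 -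
        (∑ e ∈ I, ‖v e - e‖ ^ 2) ^ 2 ≤
        ∑ e ∈ I, ∑ f ∈ I, ((inner ℝ (v e) (v f) : ℝ) - inner ℝ e f) ^ 2 := by
  set d : E → E := fun e => v e - e with hd
  have hv : ∀ e, v e = e + d e := fun e => by rw [hd]; simp
  set X1 := ∑ e ∈ I, ∑ f ∈ I, (inner ℝ (d e) f : ℝ) ^ 2 with hX1
  set X4 := ∑ e ∈ I, ∑ f ∈ I, (inner ℝ (d e) (d f) : ℝ) * inner ℝ e f with hX4
  set X5 := ∑ e ∈ I, ∑ f ∈ I, (inner ℝ (d e) f : ℝ) * inner ℝ (d e) (d f) with hX5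
  set X6 := ∑ e ∈ I, ∑ f ∈ I, (inner ℝ (d e) (d f) : ℝ) ^ 2 with hX6
  -- gauge
  have hg : ∀ a b : E, ∑ e ∈ I, (inner ℝ (d e) a : ℝ) * inner ℝ e b =
      ∑ e ∈ I, (inner ℝ (d e) b : ℝ) * inner ℝ e a := by
    intro a b
    have h1 := PRCM.stat_gen hopt a b
    rw [← sub_eq_zero, ← sum_sub_distrib, ← h1]
    refine sum_congr rfl fun e _ => ?_
    rw [hv e, inner_add_right, inner_add_right, real_inner_comm a e, real_inner_comm b e,
      real_inner_comm a (d e), real_inner_comm b (d e)]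
    ring
  have e2 : ∑ e ∈ I, ∑ f ∈ I, (inner ℝ e (d f) : ℝ) ^ 2 = X1 := by
    rw [sum_comm, hX1]
    exact sum_congr rfl fun e _ => sum_congr rfl fun f _ => by rw [real_inner_comm]
  have e3 : ∑ e ∈ I, ∑ f ∈ I, (inner ℝ (d e) f : ℝ) * inner ℝ e (d f) = X4 := by
    rw [sum_comm, hX4, sum_comm (s := I) (t := I)
      (f := fun e f => (inner ℝ (d e) (d f) : ℝ) * inner ℝ e f)]
    exact sum_congr rfl fun f _ => hg f (d f)
  have e5 : ∑ e ∈ I, ∑ f ∈ I, (inner ℝ e (d f) : ℝ) * inner ℝ (d e) (d f) = X5 := by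
    rw [sum_comm, hX5]
    exact sum_congr rfl fun e _ => sum_congr rfl fun f _ => by
      rw [real_inner_comm (d e) f, real_inner_comm (d e) (d f)]
  have hG : ∑ e ∈ I, ∑ f ∈ I, ((inner ℝ (v e) (v f) : ℝ) - inner ℝ e f) ^ 2 =
      2 * X1 + X6 + 2 * X4 + 4 * X5 := by
    have h1 : ∀ e f : E, ((inner ℝ (v e) (v f) : ℝ) - inner ℝ e f) ^ 2 =
        (inner ℝ (d e) f : ℝ) ^ 2 + (inner ℝ e (d f) : ℝ) ^ 2 + (inner ℝ (d e) (d f) : ℝ) ^ 2
        + 2 * ((inner ℝ (d e) f : ℝ) * inner ℝ e (d f))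
        + 2 * ((inner ℝ (d e) f : ℝ) * inner ℝ (d e) (d f))
        + 2 * ((inner ℝ e (d f) : ℝ) * inner ℝ (d e) (d f)) := by
      intro e f
      rw [hv e, hv f, inner_add_left, inner_add_right, inner_add_right]
      ring
    simp only [h1, sum_add_distrib, ← mul_sum]
    rw [e2, e3, e5]
    ring
  -- Schur
  have hs : ∀ r : ℝ, 0 ≤ X6 + 2 * r * X5 + r ^ 2 * X4 := by
    intro r
    have h1 := L1M.schur I d fun e => d e + r • e
    have h2 : ∀ e f : E, (inner ℝ (d e) (d f) : ℝ) * inner ℝ (d e + r • e) (d f + r • f) =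
        (inner ℝ (d e) (d f) : ℝ) ^ 2 + r * ((inner ℝ (d e) f : ℝ) * inner ℝ (d e) (d f))
        + r * ((inner ℝ e (d f) : ℝ) * inner ℝ (d e) (d f))
        + r ^ 2 * ((inner ℝ (d e) (d f) : ℝ) * inner ℝ e f) := by
      intro e f
      rw [inner_add_left, inner_add_right, inner_add_right, real_inner_smul_left,
        real_inner_smul_left, real_inner_smul_right, real_inner_smul_right]
      ring
    simp only [h2, sum_add_distrib, ← mul_sum] at h1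
    rw [e5] at h1
    linarith
  -- positivity
  have hp : 0 ≤ X1 + X5 := by
    have h1 : X1 + X5 = ∑ e ∈ I, ∑ f ∈ I, (inner ℝ (v f) (d e) : ℝ) * inner ℝ f (d e) := by
      rw [hX1, hX5, ← sum_add_distrib]
      refine sum_congr rfl fun e _ => ?_
      rw [← sum_add_distrib]
      refine sum_congr rfl fun f _ => ?_
      rw [hv f, inner_add_left, real_inner_comm (d e) f, real_inner_comm (d e) (d f)]
      ring
    rw [h1]
    exact sum_nonneg fun e _ => psd hopt (d e)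
  have hX6le : X6 ≤ (∑ e ∈ I, ‖v e - e‖ ^ 2) ^ 2 := by
    rw [sq (∑ e ∈ I, ‖v e - e‖ ^ 2), sum_mul_sum]
    refine sum_le_sum fun e _ => sum_le_sum fun f _ => ?_
    have h := abs_real_inner_le_norm (d e) (d f)
    have h' : (inner ℝ (d e) (d f) : ℝ) ^ 2 ≤ (‖d e‖ * ‖d f‖) ^ 2 := by
      rw [← sq_abs]
      exact pow_le_pow_left₀ (abs_nonneg _) h 2
    rw [mul_pow] at h'
    exact h'
  have hX1n : 0 ≤ X1 := sum_nonneg fun e _ => sum_nonneg fun f _ => sq_nonneg _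
  have h7 := hs 1
  have h8 := hs (7 / 5)
  have hX4n : 0 ≤ X4 := by
    rw [hX4]
    have h1 := L1M.schur I d fun e => e
    exact h1
  rw [hG]
  constructor
  · -- `r = 7/5`: `G - 4/5 X1 = 6/5 (X1 + X5) + (X6 + 14/5 X5 + 49/25 X4) + 1/25 X4`
    nlinarith
  · linarith

end PPRM

/-- **Procrustes on a set of labels.** -/
theorem procrustes_set (I : Finset E) {lam : ℝ}
    (hlam : ∀ y : E, lam * ‖y‖ ^ 2 ≤ ∑ f ∈ I, (inner ℝ y f : ℝ) ^ 2) (u : E → E) :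
    ∃ A : E ≃ₗᵢ[ℝ] E,
      (∀ B : E ≃ₗᵢ[ℝ] E, ∑ e ∈ I, ‖A (u e) - e‖ ^ 2 ≤ ∑ e ∈ I, ‖B (u e) - e‖ ^ 2) ∧
      4 / 5 * lam * ∑ e ∈ I, ‖A (u e) - e‖ ^ 2 ≤
        ∑ e ∈ I, ∑ f ∈ I, ((inner ℝ (u e) (u f) : ℝ) - inner ℝ e f) ^ 2 ∧
      2 * lam * ∑ e ∈ I, ‖A (u e) - e‖ ^ 2 - (∑ e ∈ I, ‖A (u e) - e‖ ^ 2) ^ 2 ≤
        ∑ e ∈ I, ∑ f ∈ I, ((inner ℝ (u e) (u f) : ℝ) - inner ℝ e f) ^ 2 := by
  obtain ⟨A, hA⟩ := PRCM.exists_opt I u
  have hopt : ∀ B : E ≃ₗᵢ[ℝ] E,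
      ∑ e ∈ I, ‖(fun e => A (u e)) e - e‖ ^ 2 ≤ ∑ e ∈ I, ‖B ((fun e => A (u e)) e) - e‖ ^ 2 :=
    fun B => hA (A.trans B)
  have h1 := PPRM.main hopt
  have h2 : ∀ e f : E, (inner ℝ ((fun e => A (u e)) e) ((fun e => A (u e)) f) : ℝ) =
      inner ℝ (u e) (u f) := fun e f => A.inner_map_map _ _
  simp only [h2] at h1
  have h3 : lam * ∑ e ∈ I, ‖A (u e) - e‖ ^ 2 ≤
      ∑ e ∈ I, ∑ f ∈ I, (inner ℝ (A (u e) - e) f : ℝ) ^ 2 := by
    rw [mul_sum]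
    exact sum_le_sum fun e _ => hlam _
  refine ⟨A, hA, ?_, ?_⟩
  · linarith [h1.1]
  · linarith [h1.2]

/-- The frame operator of the 57 pins. -/
theorem pin_frame {x : E} (hx : x ∈ UE) (y : E) :
    ∑ f ∈ insert x (nb x), (inner ℝ y f : ℝ) ^ 2 = 6 * ‖y‖ ^ 2 + 9 * (inner ℝ y x : ℝ) ^ 2 := by
  have hn : ‖x‖ = 1 := AllO.hUEF.nrm x hx
  have hxx : (inner ℝ x x : ℝ) = 1 := by rw [real_inner_self_eq_norm_sq, hn, one_pow]
  have hxn : x ∉ nb x := by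
    intro h1
    have h2 := UMO.nb_ip h1
    rw [hxx] at h2
    norm_num at h2
  rw [sum_insert hxn]
  set c : ℝ := inner ℝ y x with hc
  set z : E := y - c • x with hz
  have hyz : ∀ f : E, (inner ℝ y f : ℝ) = c * inner ℝ x f + inner ℝ z f := by
    intro f
    rw [hz, inner_sub_left, real_inner_smul_left]
    ring
  have hzx : (inner ℝ z x : ℝ) = 0 := by
    rw [hz, inner_sub_left, real_inner_smul_left, hxx]
    ring
  have h1 : ∀ f ∈ nb x, (inner ℝ y f : ℝ) ^ 2 =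
      c ^ 2 / 4 + c * inner ℝ z f + (inner ℝ z f : ℝ) ^ 2 := by
    intro f hf
    rw [hyz f, real_inner_comm f x, UMO.nb_ip hf]
    ring
  rw [sum_congr rfl h1, sum_add_distrib, sum_add_distrib, sum_const, AllO.hUEF.c56 x hx,
    ← mul_sum, UMO.n1 x hx z, UMO.n2 x hx z hzx, hzx]
  have h2 : ‖y‖ ^ 2 = c ^ 2 + ‖z‖ ^ 2 := by
    have h3 : y = c • x + z := by rw [hz]; abel
    have h4 : ‖y‖ ^ 2 = ‖c • x + z‖ ^ 2 := by rw [← h3]
    rw [h4, norm_add_sq_real, norm_smul, hn, real_inner_smul_left, real_inner_comm z x, hzx,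
      Real.norm_eq_abs, mul_one, sq_abs]
    ring
  rw [h2]
  simp only [nsmul_eq_mul]
  push_cast
  ring

/-- **Procrustes for the 57 pins** from the Gram matrix. -/
theorem pins57 {x : E} (hx : x ∈ UE) (u : E → E) :
    ∃ A : E ≃ₗᵢ[ℝ] E,
      (∀ B : E ≃ₗᵢ[ℝ] E, ∑ e ∈ insert x (nb x), ‖A (u e) - e‖ ^ 2 ≤
        ∑ e ∈ insert x (nb x), ‖B (u e) - e‖ ^ 2) ∧
      24 / 5 * ∑ e ∈ insert x (nb x), ‖A (u e) - e‖ ^ 2 ≤
        ∑ e ∈ insert x (nb x), ∑ f ∈ insert x (nb x),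
          ((inner ℝ (u e) (u f) : ℝ) - inner ℝ e f) ^ 2 ∧
      12 * ∑ e ∈ insert x (nb x), ‖A (u e) - e‖ ^ 2 -
          (∑ e ∈ insert x (nb x), ‖A (u e) - e‖ ^ 2) ^ 2 ≤
        ∑ e ∈ insert x (nb x), ∑ f ∈ insert x (nb x),
          ((inner ℝ (u e) (u f) : ℝ) - inner ℝ e f) ^ 2 := by
  obtain ⟨A, h1, h2, h3⟩ := procrustes_set (insert x (nb x)) (lam := 6) (fun y => by
    rw [pin_frame hx y]
    nlinarith [sq_nonneg (inner ℝ y x : ℝ)]) u
  exact ⟨A, h1, by linarith, by linarith⟩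

end Pool.Agent.Lib.MP_f1379f_gt.FV
end

section
/-!
# MP_f1379f_gt: Procrustes in the stabiliser of the centre

The 56 neighbours of a centre `x0` are `p_b = alpha_b n + beta_b q_b` with `n = x0/|x0|`, `q_b` unit and
orthogonal to `n`.  There is an isometry `A` with `A n = x` (the label of the centre) and
`16 S - S^2 <= Err`, `32/5 S <= Err` for `S = ∑ |A q_b - hat phi_b|^2`, and there are no cross terms:
`|A p_b - phi_b|^2 = (alpha_b - 1/2)^2 + (beta_b - √3/2)^2 + √3/2 beta_b |A q_b - hat phi_b|^2`.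
-/
set_option autoImplicit false

open Finset

namespace Pool.Agent.Lib.MP_f1379f_gt.FV

namespace PNRM

/-- A continuous function of the linear isometries fixing `x` attains its minimum. -/
theorem exists_min_fix (x : E) (g : (E →L[ℝ] E) → ℝ) (hg : Continuous g) : ∃ A : E ≃ₗᵢ[ℝ] E,
    A x = x ∧ ∀ B : E ≃ₗᵢ[ℝ] E, B x = x → g (A.toContinuousLinearEquiv : E →L[ℝ] E) ≤
      g (B.toContinuousLinearEquiv : E →L[ℝ] E) := by
  set K : Set (E →L[ℝ] E) := {A | (∀ y, ‖A y‖ = ‖y‖) ∧ A x = x} with hK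
  have hclosed : IsClosed K := by
    have h1 : K = (⋂ y : E, {A : E →L[ℝ] E | ‖A y‖ = ‖y‖}) ∩ {A : E →L[ℝ] E | A x = x} := by
      ext A
      simp [hK]
    rw [h1]
    refine IsClosed.inter (isClosed_iInter fun y => ?_) ?_
    · exact isClosed_eq (by fun_prop) continuous_const
    · exact isClosed_eq (by fun_prop) continuous_const
  have hsub : K ⊆ Metric.closedBall 0 1 := by
    intro A hA
    rw [mem_closedBall_zero_iff]
    refine ContinuousLinearMap.opNorm_le_bound _ zero_le_one fun y => ?_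
    rw [hA.1 y, one_mul]
  have hcomp : IsCompact K := by
    have : ProperSpace (E →L[ℝ] E) := FiniteDimensional.proper ℝ _
    exact (isCompact_closedBall (0 : E →L[ℝ] E) 1).of_isClosed_subset hclosed hsub
  have hne : K.Nonempty := ⟨ContinuousLinearMap.id ℝ E, fun y => rfl, rfl⟩
  obtain ⟨A, hA, hmin⟩ := hcomp.exists_isMinOn hne hg.continuousOn
  let L : E →ₗᵢ[ℝ] E := ⟨A.toLinearMap, hA.1⟩
  refine ⟨L.toLinearIsometryEquiv rfl, hA.2, fun B hB => ?_⟩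
  have h1 := hmin (a := (B.toContinuousLinearEquiv : E →L[ℝ] E)) ⟨fun y => B.norm_map y, hB⟩
  have h2 : ((L.toLinearIsometryEquiv rfl).toContinuousLinearEquiv : E →L[ℝ] E) = A := by
    ext y
    rfl
  rw [h2]
  exact h1

section
variable {α : Type} {N : Finset α} {v l : α → E} {x : E}

/-- Nonnegativity of the symmetric form. -/
theorem psd (hopt : ∀ B : E ≃ₗᵢ[ℝ] E, B x = x →
    ∑ e ∈ N, ‖v e - l e‖ ^ 2 ≤ ∑ e ∈ N, ‖B (v e) - l e‖ ^ 2) (hx : ‖x‖ = 1)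
    (hv : ∀ e ∈ N, (inner ℝ (v e) x : ℝ) = 0) (hl : ∀ e ∈ N, (inner ℝ (l e) x : ℝ) = 0) (a : E) :
    0 ≤ ∑ e ∈ N, (inner ℝ (v e) a : ℝ) * inner ℝ (l e) a := by
  have hunit : ∀ b : E, ‖b‖ = 1 → (inner ℝ b x : ℝ) = 0 →
      0 ≤ ∑ e ∈ N, (inner ℝ (v e) b : ℝ) * inner ℝ (l e) b := by
    intro b hb hbx
    set T : E ≃ₗᵢ[ℝ] E := ((ℝ ∙ b).reflection).trans (LinearIsometryEquiv.neg ℝ) with hT
    have hTy : ∀ y : E, T y = y - (2 * (inner ℝ b y : ℝ)) • b := by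
      intro y
      rw [hT]
      show -((ℝ ∙ b).reflection y) = _
      rw [NUTM.refl_apply b hb]
      abel
    have h1 := hopt T (by rw [hTy, hbx]; simp)
    have h2 : ∀ e ∈ N, ‖T (v e) - l e‖ ^ 2 = ‖v e - l e‖ ^ 2 +
        4 * ((inner ℝ (v e) b : ℝ) * inner ℝ (l e) b) := by
      intro e _
      have hn : ‖T (v e)‖ = ‖v e‖ := T.norm_map _
      rw [norm_sub_sq_real, norm_sub_sq_real, hn, hTy, inner_sub_left, real_inner_smul_left,
        real_inner_comm (v e) b, real_inner_comm (l e) b]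
      ring
    rw [sum_congr rfl h2, sum_add_distrib, ← mul_sum] at h1
    linarith
  -- project
  set c : E := a - (inner ℝ a x : ℝ) • x with hc
  have hxx : (inner ℝ x x : ℝ) = 1 := by rw [real_inner_self_eq_norm_sq, hx]; norm_num
  have hcx : (inner ℝ c x : ℝ) = 0 := by
    rw [hc, inner_sub_left, real_inner_smul_left, hxx]; ring
  have hca : ∀ y : E, (inner ℝ y x : ℝ) = 0 → (inner ℝ y a : ℝ) = inner ℝ y c := by
    intro y hy
    rw [hc, inner_sub_right, real_inner_smul_right, hy]; ring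
  have hsum : ∑ e ∈ N, (inner ℝ (v e) a : ℝ) * inner ℝ (l e) a =
      ∑ e ∈ N, (inner ℝ (v e) c : ℝ) * inner ℝ (l e) c :=
    sum_congr rfl fun e he => by rw [hca _ (hv e he), hca _ (hl e he)]
  rw [hsum]
  rcases eq_or_ne c 0 with h0 | h0
  · rw [h0]
    simp
  have hna : ‖c‖ ≠ 0 := norm_ne_zero_iff.mpr h0
  have h1 := hunit ((‖c‖)⁻¹ • c) (by rw [norm_smul, norm_inv, norm_norm, inv_mul_cancel₀ hna])
    (by rw [real_inner_smul_left, hcx, mul_zero])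
  have h2 : ∑ e ∈ N, (inner ℝ (v e) ((‖c‖)⁻¹ • c) : ℝ) * inner ℝ (l e) ((‖c‖)⁻¹ • c) =
      (‖c‖)⁻¹ ^ 2 * ∑ e ∈ N, (inner ℝ (v e) c : ℝ) * inner ℝ (l e) c := by
    rw [mul_sum]
    refine sum_congr rfl fun e _ => ?_
    rw [real_inner_smul_right, real_inner_smul_right]
    ring
  rw [h2] at h1
  have h3 : 0 < (‖c‖)⁻¹ ^ 2 := by positivity
  by_contra hcon
  push Not at hcon
  nlinarith

/-- Stationarity for an orthonormal pair orthogonal to `x`. -/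
theorem stat (hopt : ∀ B : E ≃ₗᵢ[ℝ] E, B x = x →
    ∑ e ∈ N, ‖v e - l e‖ ^ 2 ≤ ∑ e ∈ N, ‖B (v e) - l e‖ ^ 2) {a b : E} (ha : ‖a‖ = 1)
    (hb : ‖b‖ = 1) (hab : (inner ℝ a b : ℝ) = 0) (hax : (inner ℝ a x : ℝ) = 0)
    (hbx : (inner ℝ b x : ℝ) = 0) :
    ∑ e ∈ N, ((inner ℝ a (v e) : ℝ) * inner ℝ b (l e)
      - (inner ℝ b (v e) : ℝ) * inner ℝ a (l e)) = 0 := by
  set Q := ∑ e ∈ N, ((inner ℝ a (v e) : ℝ) * inner ℝ b (l e)
    - (inner ℝ b (v e) : ℝ) * inner ℝ a (l e)) with hQ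
  set P := ∑ e ∈ N, ((inner ℝ a (v e) : ℝ) * inner ℝ a (l e)
    + (inner ℝ b (v e) : ℝ) * inner ℝ b (l e)) with hP
  have key : ∀ s : ℝ, s * Q ≤ s ^ 2 * P := by
    intro s
    have hfix : PRCM.rotI ha hb hab s x = x := by
      have e2 : PRCM.rotI ha hb hab s x = x + (-2 * s ^ 2 / (1 + s ^ 2)) •
          ((inner ℝ a x : ℝ) • a + (inner ℝ b x : ℝ) • b)
          + (2 * s / (1 + s ^ 2)) • ((inner ℝ a x : ℝ) • b - (inner ℝ b x : ℝ) • a) := rfl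
      rw [e2, hax, hbx]; simp
    have h1 := hopt (PRCM.rotI ha hb hab s) hfix
    have h2 : ∀ e, ‖PRCM.rotI ha hb hab s (v e) - l e‖ ^ 2 = ‖v e - l e‖ ^ 2
        + 4 * s ^ 2 / (1 + s ^ 2) * ((inner ℝ a (v e) : ℝ) * inner ℝ a (l e)
          + (inner ℝ b (v e) : ℝ) * inner ℝ b (l e))
        - 4 * s / (1 + s ^ 2) * ((inner ℝ a (v e) : ℝ) * inner ℝ b (l e)
          - (inner ℝ b (v e) : ℝ) * inner ℝ a (l e)) := by
      intro e
      have e1 : ‖PRCM.rotI ha hb hab s (v e)‖ = ‖v e‖ := LinearIsometryEquiv.norm_map _ _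
      have e2 : PRCM.rotI ha hb hab s (v e) = v e + (-2 * s ^ 2 / (1 + s ^ 2)) •
          ((inner ℝ a (v e) : ℝ) • a + (inner ℝ b (v e) : ℝ) • b)
          + (2 * s / (1 + s ^ 2)) • ((inner ℝ a (v e) : ℝ) • b - (inner ℝ b (v e) : ℝ) • a) := rfl
      rw [norm_sub_sq_real, norm_sub_sq_real, e1, e2]
      simp only [inner_add_left, inner_sub_left, real_inner_smul_left]
      ring
    rw [Finset.sum_congr rfl fun e _ => h2 e] at h1
    simp only [Finset.sum_sub_distrib, Finset.sum_add_distrib, ← Finset.mul_sum] at h1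
    have h3 : 4 * s / (1 + s ^ 2) * Q ≤ 4 * s ^ 2 / (1 + s ^ 2) * P := by
      rw [hQ, hP]
      simp only [Finset.sum_sub_distrib, Finset.sum_add_distrib]
      linarith
    have hs : 0 < 1 + s ^ 2 := by positivity
    have h4 : 4 * s / (1 + s ^ 2) * Q = 4 / (1 + s ^ 2) * (s * Q) := by ring
    have h5 : 4 * s ^ 2 / (1 + s ^ 2) * P = 4 / (1 + s ^ 2) * (s ^ 2 * P) := by ring
    rw [h4, h5] at h3
    exact le_of_mul_le_mul_left h3 (by positivity)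
  by_contra hne
  have hQ2 : 0 < Q ^ 2 := by positivity
  have h1 := key (Q / (1 + |P|))
  have hP0 : 0 < 1 + |P| := by positivity
  have h2 : Q / (1 + |P|) * Q = Q ^ 2 / (1 + |P|) := by ring
  have h3 : (Q / (1 + |P|)) ^ 2 * P ≤ Q ^ 2 / (1 + |P|) * (|P| / (1 + |P|)) := by
    have e1 : (Q / (1 + |P|)) ^ 2 * P = Q ^ 2 / (1 + |P|) * (P / (1 + |P|)) := by
      field_simp
    rw [e1]
    apply mul_le_mul_of_nonneg_left _ (by positivity)
    apply div_le_div_of_nonneg_right (le_abs_self P) hP0.le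
  have h4 : |P| / (1 + |P|) < 1 := by
    rw [div_lt_one hP0]
    linarith
  have h5 : 0 < Q ^ 2 / (1 + |P|) := by positivity
  have h6 := mul_lt_mul_of_pos_left h4 h5
  rw [h2] at h1
  linarith

/-- Stationarity for vectors orthogonal to `x`. -/
theorem stat_gen (hopt : ∀ B : E ≃ₗᵢ[ℝ] E, B x = x →
    ∑ e ∈ N, ‖v e - l e‖ ^ 2 ≤ ∑ e ∈ N, ‖B (v e) - l e‖ ^ 2) {a b : E}
    (hax : (inner ℝ a x : ℝ) = 0) (hbx : (inner ℝ b x : ℝ) = 0) :
    ∑ e ∈ N, ((inner ℝ a (v e) : ℝ) * inner ℝ b (l e)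
      - (inner ℝ b (v e) : ℝ) * inner ℝ a (l e)) = 0 := by
  rcases eq_or_ne a 0 with h0 | h0
  · rw [h0]
    simp
  have hna : ‖a‖ ≠ 0 := norm_ne_zero_iff.mpr h0
  set a' := (‖a‖)⁻¹ • a with ha'
  have haa : a = ‖a‖ • a' := by
    rw [ha', smul_smul, mul_inv_cancel₀ hna, one_smul]
  have hn1 : ‖a'‖ = 1 := by
    rw [ha', norm_smul, norm_inv, norm_norm, inv_mul_cancel₀ hna]
  have ha'x : (inner ℝ a' x : ℝ) = 0 := by
    rw [ha', real_inner_smul_left, hax, mul_zero]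
  set β : ℝ := inner ℝ a' b with hβ
  set c := b - β • a' with hc
  have hcb : b = c + β • a' := by rw [hc]; abel
  have hac : (inner ℝ a' c : ℝ) = 0 := by
    rw [hc, inner_sub_right, real_inner_smul_right, real_inner_self_eq_norm_sq, hn1, ← hβ]
    ring
  have hcx : (inner ℝ c x : ℝ) = 0 := by
    rw [hc, inner_sub_left, real_inner_smul_left, hbx, ha'x]
    ring
  have hq : ∑ e ∈ N, ((inner ℝ a' (v e) : ℝ) * inner ℝ c (l e)
      - (inner ℝ c (v e) : ℝ) * inner ℝ a' (l e)) = 0 := by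
    rcases eq_or_ne c 0 with h1 | h1
    · rw [h1]
      simp
    have hnc : ‖c‖ ≠ 0 := norm_ne_zero_iff.mpr h1
    have h2 : ‖(‖c‖)⁻¹ • c‖ = 1 := by
      rw [norm_smul, norm_inv, norm_norm, inv_mul_cancel₀ hnc]
    have h3 := stat hopt hn1 h2 (by rw [real_inner_smul_right, hac, mul_zero]) ha'x
      (by rw [real_inner_smul_left, hcx, mul_zero])
    have h4 : ∀ e, (inner ℝ a' (v e) : ℝ) * inner ℝ c (l e)
        - (inner ℝ c (v e) : ℝ) * inner ℝ a' (l e) =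
        ‖c‖ * ((inner ℝ a' (v e) : ℝ) * inner ℝ ((‖c‖)⁻¹ • c) (l e)
          - (inner ℝ ((‖c‖)⁻¹ • c) (v e) : ℝ) * inner ℝ a' (l e)) := by
      intro e
      have g1 : ∀ y : E, ‖c‖ * (inner ℝ ((‖c‖)⁻¹ • c) y : ℝ) = inner ℝ c y := by
        intro y
        rw [real_inner_smul_left, ← mul_assoc, mul_inv_cancel₀ hnc, one_mul]
      rw [← g1, ← g1 (v e)]
      ring
    rw [Finset.sum_congr rfl fun e _ => h4 e, ← Finset.mul_sum, h3, mul_zero]
  have h5 : ∀ e, (inner ℝ a (v e) : ℝ) * inner ℝ b (l e)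
      - (inner ℝ b (v e) : ℝ) * inner ℝ a (l e) =
      ‖a‖ * ((inner ℝ a' (v e) : ℝ) * inner ℝ c (l e)
        - (inner ℝ c (v e) : ℝ) * inner ℝ a' (l e)) := by
    intro e
    have e1 : ∀ y : E, (inner ℝ a y : ℝ) = ‖a‖ * inner ℝ a' y := by
      intro y
      conv_lhs => rw [haa]
      rw [real_inner_smul_left]
    have e2 : ∀ y : E, (inner ℝ b y : ℝ) = inner ℝ c y + β * inner ℝ a' y := by
      intro y
      conv_lhs => rw [hcb]
      rw [inner_add_left, real_inner_smul_left]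
    rw [e1, e1, e2, e2]
    ring
  rw [Finset.sum_congr rfl fun e _ => h5 e, ← Finset.mul_sum, hq, mul_zero]

/-- Stationarity for all vectors. -/
theorem stat_all (hopt : ∀ B : E ≃ₗᵢ[ℝ] E, B x = x →
    ∑ e ∈ N, ‖v e - l e‖ ^ 2 ≤ ∑ e ∈ N, ‖B (v e) - l e‖ ^ 2) (hx : ‖x‖ = 1)
    (hv : ∀ e ∈ N, (inner ℝ (v e) x : ℝ) = 0) (hl : ∀ e ∈ N, (inner ℝ (l e) x : ℝ) = 0)
    (a b : E) :
    ∑ e ∈ N, ((inner ℝ a (v e) : ℝ) * inner ℝ b (l e)
      - (inner ℝ b (v e) : ℝ) * inner ℝ a (l e)) = 0 := by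
  have hxx : (inner ℝ x x : ℝ) = 1 := by rw [real_inner_self_eq_norm_sq, hx]; norm_num
  have hp : ∀ a : E, (inner ℝ (a - (inner ℝ a x : ℝ) • x) x : ℝ) = 0 := by
    intro a
    rw [inner_sub_left, real_inner_smul_left, hxx]; ring
  have hq : ∀ a y : E, (inner ℝ y x : ℝ) = 0 →
      (inner ℝ (a - (inner ℝ a x : ℝ) • x) y : ℝ) = inner ℝ a y := by
    intro a y hy
    rw [inner_sub_left, real_inner_smul_left, real_inner_comm y x, hy]; ring
  have h1 := stat_gen hopt (hp a) (hp b)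
  rw [← h1]
  refine sum_congr rfl fun e he => ?_
  rw [hq a _ (hv e he), hq b _ (hl e he), hq b _ (hv e he), hq a _ (hl e he)]

/-- The two inequalities in a position with symmetric nonnegative form. -/
theorem main (hst : ∀ a b : E, ∑ e ∈ N, ((inner ℝ a (v e) : ℝ) * inner ℝ b (l e)
      - (inner ℝ b (v e) : ℝ) * inner ℝ a (l e)) = 0)
    (hps : ∀ a : E, 0 ≤ ∑ e ∈ N, (inner ℝ (v e) a : ℝ) * inner ℝ (l e) a) :
    4 / 5 * ∑ e ∈ N, ∑ f ∈ N, (inner ℝ (v e - l e) (l f) : ℝ) ^ 2 ≤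
        ∑ e ∈ N, ∑ f ∈ N, ((inner ℝ (v e) (v f) : ℝ) - inner ℝ (l e) (l f)) ^ 2 ∧
      2 * ∑ e ∈ N, ∑ f ∈ N, (inner ℝ (v e - l e) (l f) : ℝ) ^ 2 -
        (∑ e ∈ N, ‖v e - l e‖ ^ 2) ^ 2 ≤
        ∑ e ∈ N, ∑ f ∈ N, ((inner ℝ (v e) (v f) : ℝ) - inner ℝ (l e) (l f)) ^ 2 := by
  set d : α → E := fun e => v e - l e with hd
  have hv : ∀ e, v e = l e + d e := fun e => by rw [hd]; simp
  set X1 := ∑ e ∈ N, ∑ f ∈ N, (inner ℝ (d e) (l f) : ℝ) ^ 2 with hX1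
  set X4 := ∑ e ∈ N, ∑ f ∈ N, (inner ℝ (d e) (d f) : ℝ) * inner ℝ (l e) (l f) with hX4
  set X5 := ∑ e ∈ N, ∑ f ∈ N, (inner ℝ (d e) (l f) : ℝ) * inner ℝ (d e) (d f) with hX5
  set X6 := ∑ e ∈ N, ∑ f ∈ N, (inner ℝ (d e) (d f) : ℝ) ^ 2 with hX6
  -- gauge
  have hg : ∀ a b : E, ∑ e ∈ N, (inner ℝ (d e) a : ℝ) * inner ℝ (l e) b =
      ∑ e ∈ N, (inner ℝ (d e) b : ℝ) * inner ℝ (l e) a := by
    intro a b
    have h1 := hst a b
    rw [← sub_eq_zero, ← sum_sub_distrib, ← h1]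
    refine sum_congr rfl fun e _ => ?_
    rw [hv e, inner_add_right, inner_add_right, real_inner_comm a (l e),
      real_inner_comm b (l e), real_inner_comm a (d e), real_inner_comm b (d e)]
    ring
  have e2 : ∑ e ∈ N, ∑ f ∈ N, (inner ℝ (l e) (d f) : ℝ) ^ 2 = X1 := by
    rw [sum_comm, hX1]
    exact sum_congr rfl fun e _ => sum_congr rfl fun f _ => by rw [real_inner_comm]
  have e3 : ∑ e ∈ N, ∑ f ∈ N, (inner ℝ (d e) (l f) : ℝ) * inner ℝ (l e) (d f) = X4 := by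
    rw [sum_comm, hX4, sum_comm (s := N) (t := N)
      (f := fun e f => (inner ℝ (d e) (d f) : ℝ) * inner ℝ (l e) (l f))]
    exact sum_congr rfl fun f _ => hg (l f) (d f)
  have e5 : ∑ e ∈ N, ∑ f ∈ N, (inner ℝ (l e) (d f) : ℝ) * inner ℝ (d e) (d f) = X5 := by
    rw [sum_comm, hX5]
    exact sum_congr rfl fun e _ => sum_congr rfl fun f _ => by
      rw [real_inner_comm (d e) (l f), real_inner_comm (d e) (d f)]
  have hG : ∑ e ∈ N, ∑ f ∈ N, ((inner ℝ (v e) (v f) : ℝ) - inner ℝ (l e) (l f)) ^ 2 =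
      2 * X1 + X6 + 2 * X4 + 4 * X5 := by
    have h1 : ∀ e f : α, ((inner ℝ (v e) (v f) : ℝ) - inner ℝ (l e) (l f)) ^ 2 =
        (inner ℝ (d e) (l f) : ℝ) ^ 2 + (inner ℝ (l e) (d f) : ℝ) ^ 2
        + (inner ℝ (d e) (d f) : ℝ) ^ 2
        + 2 * ((inner ℝ (d e) (l f) : ℝ) * inner ℝ (l e) (d f))
        + 2 * ((inner ℝ (d e) (l f) : ℝ) * inner ℝ (d e) (d f))
        + 2 * ((inner ℝ (l e) (d f) : ℝ) * inner ℝ (d e) (d f)) := by
      intro e f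
      rw [hv e, hv f, inner_add_left, inner_add_right, inner_add_right]
      ring
    simp only [h1, sum_add_distrib, ← mul_sum]
    rw [e2, e3, e5]
    ring
  -- Schur
  have hs : ∀ r : ℝ, 0 ≤ X6 + 2 * r * X5 + r ^ 2 * X4 := by
    intro r
    have h1 := L1M.schur N d fun e => d e + r • l e
    have h2 : ∀ e f : α, (inner ℝ (d e) (d f) : ℝ) * inner ℝ (d e + r • l e) (d f + r • l f) =
        (inner ℝ (d e) (d f) : ℝ) ^ 2 + r * ((inner ℝ (d e) (l f) : ℝ) * inner ℝ (d e) (d f))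
        + r * ((inner ℝ (l e) (d f) : ℝ) * inner ℝ (d e) (d f))
        + r ^ 2 * ((inner ℝ (d e) (d f) : ℝ) * inner ℝ (l e) (l f)) := by
      intro e f
      rw [inner_add_left, inner_add_right, inner_add_right, real_inner_smul_left,
        real_inner_smul_left, real_inner_smul_right, real_inner_smul_right]
      ring
    simp only [h2, sum_add_distrib, ← mul_sum] at h1
    rw [e5] at h1
    linarith
  -- positivity
  have hp : 0 ≤ X1 + X5 := by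
    have h1 : X1 + X5 = ∑ e ∈ N, ∑ f ∈ N, (inner ℝ (v f) (d e) : ℝ) * inner ℝ (l f) (d e) := by
      rw [hX1, hX5, ← sum_add_distrib]
      refine sum_congr rfl fun e _ => ?_
      rw [← sum_add_distrib]
      refine sum_congr rfl fun f _ => ?_
      rw [hv f, inner_add_left, real_inner_comm (d e) (l f), real_inner_comm (d e) (d f)]
      ring
    rw [h1]
    exact sum_nonneg fun e _ => hps (d e)
  have hX6le : X6 ≤ (∑ e ∈ N, ‖v e - l e‖ ^ 2) ^ 2 := by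
    rw [sq (∑ e ∈ N, ‖v e - l e‖ ^ 2), sum_mul_sum]
    refine sum_le_sum fun e _ => sum_le_sum fun f _ => ?_
    have h := abs_real_inner_le_norm (d e) (d f)
    have h' : (inner ℝ (d e) (d f) : ℝ) ^ 2 ≤ (‖d e‖ * ‖d f‖) ^ 2 := by
      rw [← sq_abs]
      exact pow_le_pow_left₀ (abs_nonneg _) h 2
    rw [mul_pow] at h'
    exact h'
  have hX1n : 0 ≤ X1 := sum_nonneg fun e _ => sum_nonneg fun f _ => sq_nonneg _
  have h7 := hs 1
  have h8 := hs (7 / 5)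
  have hX4n : 0 ≤ X4 := by
    rw [hX4]
    have h1 := L1M.schur N d fun e => l e
    exact h1
  rw [hG]
  constructor
  · nlinarith
  · linarith

end

end PNRM

/-- The normalised projection of a label orthogonal to the label of the centre. -/
noncomputable def hatl (x f : E) : E := (2 / √3) • (f - (1 / 2 : ℝ) • x)

theorem hatl_x {x f : E} (hx : x ∈ UE) (hf : f ∈ nb x) : (inner ℝ (hatl x f) x : ℝ) = 0 := by
  unfold hatl
  rw [real_inner_smul_left, inner_sub_left, real_inner_smul_left, UMO.nb_ip hf,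
    real_inner_self_eq_norm_sq, AllO.hUEF.nrm x hx]
  ring

theorem three_aux : (2 / √3) * (2 / √3) = (4 / 3 : ℝ) := by
  have h : √3 * √3 = (3 : ℝ) := Real.mul_self_sqrt (by norm_num)
  rw [div_mul_div_comm, h]; norm_num

theorem hatl_inner {x : E} (hx : x ∈ UE) {α : Type} {φ : α → E} {b c : α} (hb : φ b ∈ nb x)
    (hc : φ c ∈ nb x) : (inner ℝ (hatl x (φ b)) (hatl x (φ c)) : ℝ) = tst φ b c := by
  unfold hatl tst
  rw [real_inner_smul_left, real_inner_smul_right, ← mul_assoc, three_aux, inner_sub_left,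
    inner_sub_right, inner_sub_right, real_inner_smul_left, real_inner_smul_right,
    real_inner_smul_left, real_inner_smul_right, UMO.nb_ip hb, real_inner_comm (φ c) x,
    UMO.nb_ip hc, real_inner_self_eq_norm_sq, AllO.hUEF.nrm x hx]
  ring

theorem hatl_norm {x f : E} (hx : x ∈ UE) (hf : f ∈ nb x) : ‖hatl x f‖ = 1 := by
  have h1 := hatl_inner (φ := fun _ : Unit => f) (b := ()) (c := ()) hx hf hf
  unfold tst at h1
  simp only at h1
  rw [real_inner_self_eq_norm_sq, real_inner_self_eq_norm_sq, AllO.hUEF.nrm f (UMO.nb_UE hf)] at h1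
  have h2 : ‖hatl x f‖ ^ 2 = 1 := by rw [h1]; norm_num
  nlinarith [norm_nonneg (hatl x f)]

theorem hatl_frame {x : E} (hx : x ∈ UE) {y : E} (hy : (inner ℝ y x : ℝ) = 0) :
    ∑ f ∈ nb x, (inner ℝ y (hatl x f) : ℝ) ^ 2 = 8 * ‖y‖ ^ 2 := by
  have h1 : ∀ f ∈ nb x, (inner ℝ y (hatl x f) : ℝ) ^ 2 = 4 / 3 * (inner ℝ y f : ℝ) ^ 2 := by
    intro f _
    unfold hatl
    rw [real_inner_smul_right, inner_sub_right, real_inner_smul_right, hy, mul_pow, sq (2 / √3),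
      three_aux]
    ring
  rw [sum_congr rfl h1, ← mul_sum, UMO.n2 x hx y hy]
  ring

/-- **Procrustes for the link, with fixed centre.** -/
theorem hat_pins {x : E} (hx : x ∈ UE) {α : Type} {N : Finset α} {φ : α → E}
    (hφ : Set.BijOn φ N (nb x)) {n : E} (hn : ‖n‖ = 1) {q : α → E}
    (hq : ∀ b ∈ N, (inner ℝ (q b) n : ℝ) = 0) :
    ∃ A : E ≃ₗᵢ[ℝ] E, A n = x ∧
      32 / 5 * ∑ b ∈ N, ‖A (q b) - hatl x (φ b)‖ ^ 2 ≤
        ∑ b ∈ N, ∑ c ∈ N, ((inner ℝ (q b) (q c) : ℝ) - tst φ b c) ^ 2 ∧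
      16 * ∑ b ∈ N, ‖A (q b) - hatl x (φ b)‖ ^ 2 - (∑ b ∈ N, ‖A (q b) - hatl x (φ b)‖ ^ 2) ^ 2 ≤
        ∑ b ∈ N, ∑ c ∈ N, ((inner ℝ (q b) (q c) : ℝ) - tst φ b c) ^ 2 := by
  have hx1 : ‖x‖ = 1 := AllO.hUEF.nrm x hx
  obtain ⟨A0, hA0⟩ : ∃ A0 : E ≃ₗᵢ[ℝ] E, A0 n = x :=
    ⟨Submodule.reflection (ℝ ∙ (n - x))ᗮ, Submodule.reflection_sub (by rw [hn, hx1])⟩
  obtain ⟨A1, hA1, hmin⟩ := PNRM.exists_min_fix x
    (fun A : E →L[ℝ] E => ∑ b ∈ N, ‖A (A0 (q b)) - hatl x (φ b)‖ ^ 2) (by fun_prop)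
  have hmem : ∀ b ∈ N, φ b ∈ nb x := fun b hb => hφ.mapsTo hb
  set v : α → E := fun b => A1 (A0 (q b)) with hv
  have hopt : ∀ B : E ≃ₗᵢ[ℝ] E, B x = x →
      ∑ b ∈ N, ‖v b - hatl x (φ b)‖ ^ 2 ≤ ∑ b ∈ N, ‖B (v b) - hatl x (φ b)‖ ^ 2 := by
    intro B hB
    exact hmin (A1.trans B) (by rw [LinearIsometryEquiv.trans_apply, hA1, hB])
  have hvx : ∀ b ∈ N, (inner ℝ (v b) x : ℝ) = 0 := by
    intro b hb
    rw [hv]
    show (inner ℝ (A1 (A0 (q b))) x : ℝ) = 0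
    rw [← hA1, A1.inner_map_map, ← hA0, A0.inner_map_map]
    exact hq b hb
  have hlx : ∀ b ∈ N, (inner ℝ (hatl x (φ b)) x : ℝ) = 0 := fun b hb => hatl_x hx (hmem b hb)
  have h1 := PNRM.main (PNRM.stat_all hopt hx1 hvx hlx) (PNRM.psd hopt hx1 hvx hlx)
  have h2 : ∑ e ∈ N, ∑ f ∈ N, ((inner ℝ (v e) (v f) : ℝ)
      - inner ℝ (hatl x (φ e)) (hatl x (φ f))) ^ 2 =
      ∑ b ∈ N, ∑ c ∈ N, ((inner ℝ (q b) (q c) : ℝ) - tst φ b c) ^ 2 := by
    refine sum_congr rfl fun b hb => sum_congr rfl fun c hc => ?_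
    rw [hatl_inner hx (hmem b hb) (hmem c hc)]
    show ((inner ℝ (A1 (A0 (q b))) (A1 (A0 (q c))) : ℝ) - _) ^ 2 = _
    rw [A1.inner_map_map, A0.inner_map_map]
  have h3 : ∑ e ∈ N, ∑ f ∈ N, (inner ℝ (v e - hatl x (φ e)) (hatl x (φ f)) : ℝ) ^ 2 =
      8 * ∑ b ∈ N, ‖v b - hatl x (φ b)‖ ^ 2 := by
    rw [mul_sum]
    refine sum_congr rfl fun b hb => ?_
    have h4 : (inner ℝ (v b - hatl x (φ b)) x : ℝ) = 0 := by
      rw [inner_sub_left, hvx b hb, hlx b hb, sub_zero]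
    rw [← hatl_frame hx h4]
    exact sum_nbij φ (fun c hc => hmem c hc) hφ.injOn (by
      have := hφ.surjOn
      simpa using this) (fun _ _ => rfl)
  rw [h2, h3] at h1
  refine ⟨A0.trans A1, by rw [LinearIsometryEquiv.trans_apply, hA0, hA1], ?_, ?_⟩
  · have := h1.1
    show 32 / 5 * ∑ b ∈ N, ‖v b - hatl x (φ b)‖ ^ 2 ≤ _
    linarith
  · have := h1.2
    show 16 * ∑ b ∈ N, ‖v b - hatl x (φ b)‖ ^ 2 - (∑ b ∈ N, ‖v b - hatl x (φ b)‖ ^ 2) ^ 2 ≤ _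
    linarith

/-- **The displacement of a pin splits without cross terms.** -/
theorem pin_split {x f : E} (hx : x ∈ UE) (hf : f ∈ nb x) (A : E ≃ₗᵢ[ℝ] E) {n q : E}
    (hA : A n = x) (hq : ‖q‖ = 1) (hqn : (inner ℝ q n : ℝ) = 0) (a b : ℝ) :
    ‖A (a • n + b • q) - f‖ ^ 2 = (a - 1 / 2) ^ 2 + (b - √3 / 2) ^ 2
      + √3 / 2 * b * ‖A q - hatl x f‖ ^ 2 := by
  have h3 : √3 * √3 = (3 : ℝ) := Real.mul_self_sqrt (by norm_num)
  have h3' : √3 ≠ (0 : ℝ) := by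
    intro h
    rw [h] at h3
    norm_num at h3
  have hx1 : ‖x‖ = 1 := AllO.hUEF.nrm x hx
  have hf' : f = (1 / 2 : ℝ) • x + (√3 / 2) • hatl x f := by
    unfold hatl
    rw [smul_smul]
    have : √3 / 2 * (2 / √3) = (1 : ℝ) := by field_simp
    rw [this, one_smul]
    abel
  have hAq : ‖A q‖ = 1 := by rw [A.norm_map, hq]
  have hAqx : (inner ℝ (A q) x : ℝ) = 0 := by rw [← hA, A.inner_map_map]; exact hqn
  have hlx := hatl_x hx hf
  have hl1 := hatl_norm hx hf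
  have e1 : A (a • n + b • q) = a • x + b • A q := by
    rw [map_add, map_smul, map_smul, hA]
  have e2 : A (a • n + b • q) - f = (a - 1 / 2) • x + (b • A q - (√3 / 2) • hatl x f) := by
    rw [e1]
    conv_lhs => rw [hf']
    module
  have e3 : (inner ℝ ((a - 1 / 2) • x) (b • A q - (√3 / 2) • hatl x f) : ℝ) = 0 := by
    rw [real_inner_smul_left, inner_sub_right, real_inner_smul_right, real_inner_smul_right,
      real_inner_comm (A q) x, hAqx, real_inner_comm (hatl x f) x, hlx]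
    ring
  rw [e2, norm_add_sq_real, e3, norm_smul, hx1, norm_sub_sq_real, norm_smul, norm_smul, hAq, hl1,
    real_inner_smul_left, real_inner_smul_right, norm_sub_sq_real, hAq, hl1]
  simp only [Real.norm_eq_abs, mul_one, sq_abs]
  ring

/-- **The pins of a link.**  `LK` in the form of unit vectors `q b` of `E` orthogonal to `n`; the pins
are `a b • n + c b • q b`. -/
theorem link_pins {x : E} (hx : x ∈ UE) {α : Type} [DecidableEq α] {N : Finset α} {p : α → V7}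
    {C : Finset (α × α)} {B : ℝ} (h : LK N p C B (3 / 10)) (hB : B ≤ 418 / 100) {n : E}
    (hn : ‖n‖ = 1) {q : α → E} (hq1 : ∀ b ∈ N, ‖q b‖ = 1)
    (hqn : ∀ b ∈ N, (inner ℝ (q b) n : ℝ) = 0)
    (hpq : ∀ b ∈ N, ∀ c ∈ N, (inner ℝ (p b) (p c) : ℝ) = inner ℝ (q b) (q c)) :
    ∃ (φ : α → E) (A : E ≃ₗᵢ[ℝ] E) (s : α → ℝ), Set.BijOn φ N (nb x) ∧ A n = x ∧
      (∀ b, 0 ≤ s b) ∧
      32 / 5 * ∑ b ∈ N, s b ≤ 3 / 4 * B + 24 / 2500 * B ^ 2 ∧
      16 * ∑ b ∈ N, s b - (∑ b ∈ N, s b) ^ 2 ≤ 3 / 4 * B + 24 / 2500 * B ^ 2 ∧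
      ∀ b ∈ N, ∀ a c : ℝ, ‖A (a • n + c • q b) - φ b‖ ^ 2 =
        (a - 1 / 2) ^ 2 + (c - √3 / 2) ^ 2 + √3 / 2 * c * s b := by
  obtain ⟨σ, φ, hA, h1, h2, h3⟩ := link_label AllO.hUEF (h.mono hB le_rfl) hx
  have hmem : ∀ b ∈ N, φ b ∈ nb x := fun b hb => h1.mapsTo hb
  have h4 := link_gram h hB hA (x := x) (φ := φ)
    (fun b hb => AllO.hUEF.nrm _ (UMO.nb_UE (hmem b hb)))
    (fun b hb => by rw [real_inner_comm]; exact UMO.nb_ip (hmem b hb)) h2 h3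
  obtain ⟨A, hA1, hA2, hA3⟩ := hat_pins hx h1 hn hqn
  have h5 : ∑ b ∈ N, ∑ c ∈ N, ((inner ℝ (q b) (q c) : ℝ) - tst φ b c) ^ 2 =
      ∑ b ∈ N, ∑ c ∈ N, ((inner ℝ (p b) (p c) : ℝ) - tst φ b c) ^ 2 :=
    sum_congr rfl fun b hb => sum_congr rfl fun c hc => by rw [hpq b hb c hc]
  rw [h5] at hA2 hA3
  refine ⟨φ, A, fun b => ‖A (q b) - hatl x (φ b)‖ ^ 2, h1, hA1, fun b => sq_nonneg _,
    hA2.trans h4, hA3.trans h4, fun b hb a c => ?_⟩
  exact pin_split hx (hmem b hb) A hA1 (hq1 b hb) (hqn b hb) a c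

end Pool.Agent.Lib.MP_f1379f_gt.FV
end

section
/-!
# MP_f1379f_gt: the 57 pins, with the Gram error of the link as a parameter
-/
set_option autoImplicit false

open Finset

namespace Pool.Agent.Lib.MP_f1379f_gt.FV

/-- **The 57 pins.**  `x0 = r n` is the centre, `P b = a b • n + c b • q b` its neighbours; `Err` bounds the
Gram error of the `q b`, `ρ` the radial errors.  Output in the form used by `TSGM.sum_star`. -/
theorem pins_err {x : E} (hx : x ∈ UE) {α : Type} {N : Finset α} {φ : α → E}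
    (hφ : Set.BijOn φ N (nb x)) {n x0 : E} {r : ℝ} (hn : ‖n‖ = 1) (hx0 : x0 = r • n)
    {q P : α → E} {a c : α → ℝ} (hq1 : ∀ b ∈ N, ‖q b‖ = 1)
    (hqn : ∀ b ∈ N, (inner ℝ (q b) n : ℝ) = 0) (hP : ∀ b ∈ N, P b = a b • n + c b • q b)
    {cm : ℝ} (hcm : ∀ b ∈ N, c b ≤ cm) {Err : ℝ}
    (hE : ∑ b ∈ N, ∑ c ∈ N, ((inner ℝ (q b) (q c) : ℝ) - tst φ b c) ^ 2 ≤ Err)
    {ρ : ℝ} (hρ : (1 - r) ^ 2 + ∑ b ∈ N, ((a b - 1 / 2) ^ 2 + (c b - √3 / 2) ^ 2) ≤ ρ) :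
    ∃ (pt : E → E) (A : E ≃ₗᵢ[ℝ] E) (s : ℝ), pt x = x0 ∧ (∀ b ∈ N, pt (φ b) = P b) ∧
      A x0 = r • x ∧ 0 ≤ s ∧ 32 / 5 * s ≤ Err ∧ 16 * s - s ^ 2 ≤ Err ∧
      ∑ f ∈ insert x (nb x), ‖A (pt f) - f‖ ^ 2 ≤ ρ + √3 / 2 * cm * s := by
  classical
  obtain ⟨A, hA1, hA2, hA3⟩ := hat_pins hx hφ hn hqn
  have hmem : ∀ b ∈ N, φ b ∈ nb x := fun b hb => hφ.mapsTo hb
  have hx1 : ‖x‖ = 1 := AllO.hUEF.nrm x hx
  have hxn : x ∉ nb x := by
    intro h1
    have h2 := UMO.nb_ip h1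
    rw [real_inner_self_eq_norm_sq, hx1] at h2
    norm_num at h2
  have hinj : ∀ b ∈ N, ∀ c ∈ N, φ b = φ c → b = c := fun b hb c hc h =>
    hφ.injOn hb hc h
  set pt : E → E := fun f => if f = x then x0 else
    if h : ∃ b ∈ N, φ b = f then P h.choose else 0 with hpt
  have hptx : pt x = x0 := by rw [hpt]; simp
  have hptb : ∀ b ∈ N, pt (φ b) = P b := by
    intro b hb
    have hne : φ b ≠ x := by
      intro h
      have h1 := hmem b hb
      rw [h] at h1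
      exact hxn h1
    have hex : ∃ b' ∈ N, φ b' = φ b := ⟨b, hb, rfl⟩
    have h2 : hex.choose = b := hinj hex.choose hex.choose_spec.1 b hb hex.choose_spec.2
    show (if φ b = x then x0 else if h : ∃ b' ∈ N, φ b' = φ b then P h.choose else 0) = P b
    rw [if_neg hne, dif_pos hex, h2]
  refine ⟨pt, A, ∑ b ∈ N, ‖A (q b) - hatl x (φ b)‖ ^ 2, hptx, hptb, ?_,
    sum_nonneg fun b _ => sq_nonneg _, hA2.trans hE, hA3.trans hE, ?_⟩
  · rw [hx0, map_smul, hA1]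
  rw [sum_insert hxn, hptx]
  have h1 : ‖A x0 - x‖ ^ 2 = (1 - r) ^ 2 := by
    rw [hx0, map_smul, hA1]
    have : r • x - x = (r - 1) • x := by rw [sub_smul, one_smul]
    rw [this, norm_smul, hx1, mul_one, Real.norm_eq_abs, sq_abs]
    ring
  have h2 : ∑ f ∈ nb x, ‖A (pt f) - f‖ ^ 2 = ∑ b ∈ N, ‖A (P b) - φ b‖ ^ 2 := by
    symm
    refine sum_nbij φ (fun c hc => hmem c hc) hφ.injOn (by
      have := hφ.surjOn
      simpa using this) (fun b hb => ?_)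
    rw [hptb b hb]
  have h3 : ∑ b ∈ N, ‖A (P b) - φ b‖ ^ 2 ≤
      ∑ b ∈ N, ((a b - 1 / 2) ^ 2 + (c b - √3 / 2) ^ 2)
        + √3 / 2 * cm * ∑ b ∈ N, ‖A (q b) - hatl x (φ b)‖ ^ 2 := by
    rw [mul_sum, ← sum_add_distrib]
    refine sum_le_sum fun b hb => ?_
    rw [hP b hb, pin_split hx (hmem b hb) A hA1 (hq1 b hb) (hqn b hb)]
    have h4 : 0 ≤ ‖A (q b) - hatl x (φ b)‖ ^ 2 := sq_nonneg _
    have h5 : √3 / 2 * c b ≤ √3 / 2 * cm :=
      mul_le_mul_of_nonneg_left (hcm b hb) (by positivity)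
    have h6 := mul_le_mul_of_nonneg_right h5 h4
    linarith
  rw [h1, h2]
  linarith

end Pool.Agent.Lib.MP_f1379f_gt.FV
end

section
/-!
# PINS: the 57 pins (assembly of STAB1, part 2)
-/
set_option autoImplicit false

namespace Pool.Agent.Lib.MP_f1379f_gt.FV

open Finset

namespace PINSM

theorem kappa_le : √3 / 2 * (895 / 1000) ≤ 7752 / 10000 := by
  have h1 : √3 ≤ 17321 / 10000 := by
    rw [show (17321 / 10000 : ℝ) = √((17321 / 10000) ^ 2) from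
      (Real.sqrt_sq (by norm_num)).symm]
    exact Real.sqrt_le_sqrt (by norm_num)
  linarith

/-- The final numerical step. -/
theorem num {L S h Err s κ ρ : ℝ} (hS : 0 ≤ S) (hh : 0 ≤ h)
    (hL0 : 0 ≤ L) (hL : L / (44 / 1000) + S / (71 / 1000) + h * (150 / 7) ≤ 1)
    (hErr : Err ≤ 256 / 27 * L + 16 / 9 * (141 / 1000 * (27 * (7 / 10 * S + 7 / 20 * (7 / 150)))))
    (hs : 0 ≤ s) (h1 : 32 / 5 * s ≤ Err) (h2 : 16 * s - s ^ 2 ≤ Err) (hκ : κ ≤ 7752 / 10000)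
    (hρ : ρ ≤ 86 / 1000 * S + 342 / 1000 * h + 16 / 10000) : ρ + κ * s ≤ 3 / 100 := by
  obtain ⟨l, hl⟩ : ∃ l, l = L / (44 / 1000) := ⟨_, rfl⟩
  obtain ⟨σ, hσ⟩ : ∃ σ, σ = S / (71 / 1000) := ⟨_, rfl⟩
  obtain ⟨θ, hθ⟩ : ∃ θ, θ = h * (150 / 7) := ⟨_, rfl⟩
  rw [← hl, ← hσ, ← hθ] at hL
  have hL' : L = 44 / 1000 * l := by rw [hl]; ring
  have hS' : S = 71 / 1000 * σ := by rw [hσ]; ring
  have hh' : h = 7 / 150 * θ := by rw [hθ]; ring
  have hσ0 : 0 ≤ σ := by rw [hσ]; positivity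
  have hθ0 : 0 ≤ θ := by rw [hθ]; positivity
  have hl0 : 0 ≤ l := by rw [hl]; positivity
  rw [hL', hS'] at hErr
  rw [hS', hh'] at hρ
  have e1 : Err ≤ 528 / 1000 := by linarith
  have e2 : s ≤ 825 / 10000 := by linarith
  have e3 : 159175 / 10000 * s ≤ Err := by nlinarith
  have e4 : κ * s ≤ 7752 / 10000 * s := mul_le_mul_of_nonneg_right hκ hs
  linarith

variable {U : Finset E} {x : E}

theorem mem_NB {b : E} : b ∈ NB U x ↔ b ∈ nearS U ∧ b ≠ x ∧ 9 / 20 ≤ TT x b := by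
  unfold NB
  rw [mem_filter]

theorem mem_CB {q : E × E} : q ∈ CB U x ↔
    (q.1 ∈ NB U x ∧ q.2 ∈ NB U x) ∧ q.1 ≠ q.2 ∧ 9 / 20 ≤ TT q.1 q.2 := by
  unfold CB
  rw [mem_filter, mem_product]

theorem CB_off : (NB U x).offDiag.filter (fun q => q ∈ CB U x) = CB U x := by
  ext q
  rw [mem_filter, mem_offDiag, mem_CB]
  constructor
  · exact fun h => h.2
  · exact fun h => ⟨⟨h.1.1, h.1.2, h.2.1⟩, h⟩

/-- inner products of the link in the T-scale. -/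
theorem hT_inner (b c : E) : (inner ℝ (hq x b) (hq x c) : ℝ) = (4 * hT x b c - 1) / 3 := by
  unfold hT
  ring

/-- Range of `hT` on contacts. -/
theorem CB_lo (hGEO : SpecGEO) (hLLB : SpecLLB) (hA : Adm U) (hW : W2F U < 16)
    (hx : x ∈ nearS U) {q : E × E} (hq : q ∈ CB U x) : 11 / 25 ≤ hT x q.1 q.2 := by
  obtain ⟨⟨h1, h2⟩, h3, h4⟩ := mem_CB.1 hq
  obtain ⟨k1, k2, -⟩ := hLLB.tr U hA hW x hx q.1 h1 q.2 h2 h3
  rw [k2]
  exact hGEO.lo _ _ _ _ _ _ k1 (by unfold sl; linarith)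

theorem NB_hi (hGEO : SpecGEO) (hLLB : SpecLLB) (hA : Adm U) (hW : W2F U < 16)
    (hx : x ∈ nearS U) {b c : E} (hb : b ∈ NB U x) (hc : c ∈ NB U x) (hbc : b ≠ c) :
    hT x b c ≤ 27 / 50 := by
  obtain ⟨k1, k2, -⟩ := hLLB.tr U hA hW x hx b hb c hc hbc
  rw [k2]
  exact hGEO.hi _ _ _ _ _ _ k1

end PINSM

open PINSM in
theorem specPINS (hRBD : SpecRBD) (hPRJ : SpecPRJ) (hGEO : SpecGEO) (hLLB : SpecLLB)
    (hSLC : SpecSLC) (hANT0 : SpecANT0) (hDEG : SpecDEG) (hCCT : SpecCCT) (hCCS : SpecCCS)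
    (hERL : SpecERL) (hRAD : SpecRAD) : SpecPINS := by
  intro U hA hW
  obtain ⟨x0, hx0, hcard, hgood⟩ := hSLC U hA hW
  have hL0 : 0 ≤ Lx U x0 := by
    have h1 := hLLB.lo U hA hW x0 hx0
    rw [hcard] at h1
    norm_num at h1
    exact h1
  have hLM := hLLB.up U hA hW x0 hx0
  have hh0 : 0 ≤ xr x0 := hRBD.pos U hA hW x0 hx0
  have hNBn : ∀ b ∈ NB U x0, b ∈ nearS U := fun b hb => (mem_NB.1 hb).1
  have hS0 : 0 ≤ SX U x0 := by
    unfold SX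
    exact sum_nonneg fun b hb => hRBD.sl0 U hA x0 hx0 b (hNBn b hb) (mem_NB.1 hb).2.1.symm
  have hY : ∑ b ∈ NB U x0, xr b ≤ 7 / 150 := by
    refine le_trans (sum_le_sum_of_subset_of_nonneg (fun b hb => hNBn b hb)
      (fun b hb _ => hRBD.pos U hA hW b hb)) (hRBD.sum U hA hW)
  have hgood' : Lx U x0 / (44 / 1000) + SX U x0 / (71 / 1000) + xr x0 * (150 / 7) ≤ 1 := by
    have h1 : Lx U x0 / (44 / 1000) ≤ Mx U x0 / (44 / 1000) :=
      div_le_div_of_nonneg_right hLM (by norm_num)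
    linarith
  have hSle : SX U x0 ≤ 71 / 1000 := by
    have h1 : 0 ≤ Lx U x0 / (44 / 1000) := by positivity
    have h2 : 0 ≤ xr x0 * (150 / 7) := by positivity
    have h3 : SX U x0 / (71 / 1000) ≤ 1 := by linarith
    rw [div_le_one (by norm_num)] at h3
    exact h3
  have hLle : Lx U x0 ≤ 44 / 1000 := by
    have h1 : 0 ≤ SX U x0 / (71 / 1000) := by positivity
    have h2 : 0 ≤ xr x0 * (150 / 7) := by positivity
    have h3 : Lx U x0 / (44 / 1000) ≤ 1 := by linarith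
    rw [div_le_one (by norm_num)] at h3
    exact h3
  -- x0 is nonzero
  have hx0n : x0 ≠ 0 := by
    intro h
    have h1 : xr x0 ≤ 7 / 150 := by
      have h2 : 0 ≤ Lx U x0 / (44 / 1000) := by positivity
      have h3 : 0 ≤ SX U x0 / (71 / 1000) := by positivity
      linarith
    rw [h] at h1
    unfold xr at h1
    norm_num at h1
  have hnx : ‖x0‖ ≠ 0 := norm_ne_zero_iff.2 hx0n
  obtain ⟨p, hp⟩ := hPRJ.ex x0 hx0n
  -- contact sums
  have hClo : ∀ q ∈ CB U x0, 11 / 25 ≤ hT x0 q.1 q.2 := fun q hq =>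
    CB_lo hGEO hLLB hA hW hx0 hq
  have hChi : ∀ q ∈ CB U x0, hT x0 q.1 q.2 ≤ 27 / 50 := fun q hq =>
    NB_hi hGEO hLLB hA hW hx0 (mem_CB.1 hq).1.1 (mem_CB.1 hq).1.2 (mem_CB.1 hq).2.1
  have hC0 : 0 ≤ ∑ q ∈ CB U x0, -F7 (hT x0 q.1 q.2) := hL0
  have hA7 := hCCT.a7 (CB U x0) (fun q => hT x0 q.1 q.2) hClo hChi hC0
  have hSQ := hCCT.sq (CB U x0) (fun q => hT x0 q.1 q.2) hClo hChi hC0
  have hA7e : ∑ q ∈ CB U x0, A7 (inner ℝ (hq x0 q.1) (hq x0 q.2)) =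
      ∑ q ∈ CB U x0, A7 ((4 * hT x0 q.1 q.2 - 1) / 3) :=
    sum_congr rfl fun q _ => by rw [hT_inner]
  have hC55 := hCCS U hA hW x0 hx0 55 (fun b hb => by
    have h1 : ((NB U x0).filter (fun c => c ≠ b ∧ (b, c) ∈ CB U x0)) ⊆ (NB U x0).erase b := by
      intro c hc
      rw [mem_filter] at hc
      exact mem_erase.2 ⟨hc.2.1, hc.1⟩
    have h2 := card_le_card h1
    rw [card_erase_of_mem hb, hcard] at h2
    exact h2)
  have hcc1 : ∑ q ∈ CB U x0, A7 (inner ℝ (hq x0 q.1) (hq x0 q.2)) ≤ 23 / 50 := by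
    rw [hA7e]
    have h1 : ((55 : ℕ) : ℝ) = 55 := by norm_num
    rw [h1] at hC55
    linarith
  have hLK0 := hLLB.lk U hA hW x0 hx0 hcard p hp (3755 / 1000) (23 / 50) (by linarith) hcc1
  obtain ⟨σ0, hσ1, hσ2⟩ := hANT0 (NB U x0) p (CB U x0) hLK0
  have hdeg := hDEG (NB U x0) p (CB U x0) (3755 / 1000) (23 / 50) σ0 hLK0 hσ1 hσ2
  have hC27 := hCCS U hA hW x0 hx0 27 hdeg
  have h27 : ((27 : ℕ) : ℝ) = 27 := by norm_num
  rw [h27] at hC27
  have hcc2 : ∑ q ∈ CB U x0, A7 (inner ℝ (hq x0 q.1) (hq x0 q.2)) ≤ 3 / 10 := by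
    rw [hA7e]
    linarith
  have hLK := hLLB.lk U hA hW x0 hx0 hcard p hp (256 / 3 * Lx U x0) (3 / 10) le_rfl hcc2
  -- the labelling
  obtain ⟨x, hx⟩ : UE.Nonempty := by
    rw [← card_pos, AllO.hUEF.c240]
    norm_num
  obtain ⟨σ, φ, hAN, hφ, hσφ, hlab⟩ :=
    link_label AllO.hUEF (hLK.mono (show 256 / 3 * Lx U x0 ≤ 418 / 100 by linarith) le_rfl) hx
  have hup : ∀ b ∈ NB U x0, ∀ c ∈ NB U x0, b ≠ c → (inner ℝ (p b) (p c) : ℝ) ≤ 29 / 75 := by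
    intro b hb c hc hbc
    rw [hp, hT_inner]
    have := NB_hi hGEO hLLB hA hW hx0 hb hc hbc
    linarith
  have hErr := hERL (NB U x0) p (CB U x0) (256 / 3 * Lx U x0) (3 / 10) σ x φ hLK (by linarith)
    le_rfl hup hAN hx hφ hσφ hlab
  rw [CB_off] at hErr
  have hsq : ∑ q ∈ CB U x0, ((inner ℝ (p q.1) (p q.2) : ℝ) - 1 / 3) ^ 2 =
      16 / 9 * ∑ q ∈ CB U x0, (hT x0 q.1 q.2 - 1 / 2) ^ 2 := by
    rw [mul_sum]
    refine sum_congr rfl fun q _ => ?_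
    rw [hp, hT_inner]
    ring
  rw [hsq] at hErr
  simp_rw [hp] at hErr
  -- radial part
  obtain ⟨hR1, hR2, hR3⟩ := hRAD U hA hW x0 hx0 hcard
  have hne : ∀ b ∈ NB U x0, ∃ c ∈ NB U x0, b ≠ c := by
    intro b hb
    have h1 : 1 < (NB U x0).card := by rw [hcard]; norm_num
    obtain ⟨c, hc, hcb⟩ := exists_mem_ne h1 b
    exact ⟨c, hc, hcb.symm⟩
  have hq1 : ∀ b ∈ NB U x0, ‖hq x0 b‖ = 1 := by
    intro b hb
    obtain ⟨c, hc, hbc⟩ := hne b hb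
    exact (hLLB.tr U hA hW x0 hx0 b hb c hc hbc).2.2
  have hn1 : ‖(‖x0‖⁻¹ • x0 : E)‖ = 1 := by
    rw [norm_smul, norm_inv, norm_norm, inv_mul_cancel₀ hnx]
  have hx0e : x0 = ‖x0‖ • (‖x0‖⁻¹ • x0 : E) := by
    rw [smul_smul, mul_inv_cancel₀ hnx, one_smul]
  have hqn : ∀ b ∈ NB U x0, (inner ℝ (hq x0 b) (‖x0‖⁻¹ • x0 : E) : ℝ) = 0 := by
    intro b _
    rw [inner_smul_right, hPRJ.orth x0 b, mul_zero]
  obtain ⟨pt, A, s, hpt1, hpt2, -, hs0, hs1, hs2, hsum⟩ :=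
    pins_err hx hφ hn1 hx0e (q := hq x0) (P := fun b => b)
      (a := fun b => (inner ℝ x0 b : ℝ) / ‖x0‖)
      (c := fun b => Real.sqrt (‖b‖ ^ 2 - ((inner ℝ x0 b : ℝ) / ‖x0‖) ^ 2))
      hq1 hqn hR1 hR2 hErr hR3
  have hfin := num hS0 hh0 hL0 hgood' (Err := 256 / 3 * Lx U x0 / 9 +
    16 / 9 * ∑ q ∈ CB U x0, (hT x0 q.1 q.2 - 1 / 2) ^ 2) (by linarith) hs0 hs1 hs2 kappa_le le_rfl
  have hcases : ∀ f ∈ insert x (nb x), f = x ∨ ∃ b ∈ NB U x0, φ b = f := by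
    intro f hf
    rcases mem_insert.1 hf with h | h
    · exact Or.inl h
    · right
      obtain ⟨b, hb, hbf⟩ := hφ.surjOn (mem_coe.2 h)
      exact ⟨b, mem_coe.1 hb, hbf⟩
  refine ⟨x, pt, A, hx, ?_, ?_, ?_⟩
  · intro f hf
    rcases hcases f hf with h | ⟨b, hb, hbf⟩
    · rw [h, hpt1]
      exact hx0
    · rw [← hbf, hpt2 b hb]
      exact hNBn b hb
  · intro f hf g hg hfg
    rcases hcases f (mem_coe.1 hf) with h | ⟨b, hb, hbf⟩ <;>
      rcases hcases g (mem_coe.1 hg) with h' | ⟨c, hc, hcg⟩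
    · rw [h, h']
    · exfalso
      rw [h, hpt1, ← hcg, hpt2 c hc] at hfg
      exact (mem_NB.1 hc).2.1 hfg.symm
    · exfalso
      rw [h', hpt1, ← hbf, hpt2 b hb] at hfg
      exact (mem_NB.1 hb).2.1 hfg
    · rw [← hbf, ← hcg, hpt2 b hb, hpt2 c hc] at hfg
      rw [← hbf, ← hcg, hfg]
  · exact hsum.trans hfin

end Pool.Agent.Lib.MP_f1379f_gt.FV
end

section
/-!
# MP_f1379f_gt, full Q1: truncated Procrustes

The isometry minimising the truncated functional `sum_z min (dist (A z) UE ^ 2) (tau ^ 2)` labels the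
inliers; the labelled subset is in optimal position (gauge condition for the subset).
-/
set_option autoImplicit false

namespace Pool.Agent.Lib.MP_f1379f_gt.FV

open Finset

namespace TRPM

/-- Existence of the optimal position for a continuous cost. -/
theorem exists_opt (Z : Finset E) (g : E → ℝ) (hg : Continuous g) : ∃ A : E ≃ₗᵢ[ℝ] E,
    ∀ B : E ≃ₗᵢ[ℝ] E, ∑ z ∈ Z, g (A z) ≤ ∑ z ∈ Z, g (B z) := by
  set K : Set (E →L[ℝ] E) := {A | ∀ x, ‖A x‖ = ‖x‖} with hK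
  have hclosed : IsClosed K := by
    have h1 : K = ⋂ x : E, {A : E →L[ℝ] E | ‖A x‖ = ‖x‖} := by
      ext A
      simp [hK]
    rw [h1]
    refine isClosed_iInter fun x => ?_
    exact isClosed_eq (by fun_prop) continuous_const
  have hsub : K ⊆ Metric.closedBall 0 1 := by
    intro A hA
    rw [mem_closedBall_zero_iff]
    refine ContinuousLinearMap.opNorm_le_bound _ zero_le_one fun x => ?_
    rw [hA x, one_mul]
  have hcomp : IsCompact K := by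
    have : ProperSpace (E →L[ℝ] E) := FiniteDimensional.proper ℝ _
    exact (isCompact_closedBall (0 : E →L[ℝ] E) 1).of_isClosed_subset hclosed hsub
  have hne : K.Nonempty := ⟨ContinuousLinearMap.id ℝ E, fun x => rfl⟩
  have hcont : ContinuousOn (fun A : E →L[ℝ] E => ∑ z ∈ Z, g (A z)) K := by
    apply Continuous.continuousOn
    refine continuous_finsetSum _ fun z _ => ?_
    exact hg.comp (by fun_prop)
  obtain ⟨A, hA, hmin⟩ := hcomp.exists_isMinOn hne hcont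
  let L : E →ₗᵢ[ℝ] E := ⟨A.toLinearMap, hA⟩
  refine ⟨L.toLinearIsometryEquiv rfl, fun B => ?_⟩
  have h1 := hmin (a := (B.toContinuousLinearEquiv : E →L[ℝ] E)) (fun x => B.norm_map x)
  exact h1

/-- Truncated squared distance to the roots. -/
noncomputable def td (τ : ℝ) (y : E) : ℝ := min (Metric.infDist y (UE : Set E) ^ 2) (τ ^ 2)

theorem td_cont (τ : ℝ) : Continuous (td τ) := by
  unfold td
  exact ((Metric.continuous_infDist_pt _).pow 2).min continuous_const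

theorem td_le_sq (τ : ℝ) (y : E) {e : E} (he : e ∈ UE) : td τ y ≤ ‖y - e‖ ^ 2 := by
  have h1 : Metric.infDist y (UE : Set E) ≤ ‖y - e‖ := by
    rw [← dist_eq_norm]
    exact Metric.infDist_le_dist_of_mem (Finset.mem_coe.2 he)
  have h2 : 0 ≤ Metric.infDist y (UE : Set E) := Metric.infDist_nonneg
  exact (min_le_left _ _).trans (pow_le_pow_left₀ h2 h1 2)

theorem td_le (τ : ℝ) (y : E) : td τ y ≤ τ ^ 2 := min_le_right _ _

theorem ue_sep {e f : E} (he : e ∈ UE) (hf : f ∈ UE) (h : e ≠ f) : 1 ≤ ‖e - f‖ := by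
  have h1 := AllO.hUEF.nrm e he
  have h2 := AllO.hUEF.nrm f hf
  have h3 : (inner ℝ e f : ℝ) ≤ 1 / 2 := by
    rcases AllO.hUEF.ip e he f hf with h4 | h4 | h4 | h4 | h4
    · exact absurd (AllO.hUEF.one e he f hf h4) h
    all_goals linarith
  have h5 : ‖e - f‖ ^ 2 = ‖e‖ ^ 2 - 2 * (inner ℝ e f : ℝ) + ‖f‖ ^ 2 := norm_sub_sq_real e f
  rw [h1, h2] at h5
  have h6 := norm_nonneg (e - f)
  nlinarith

theorem ue_ne : (UE : Set E).Nonempty := by
  have h : UE.card = 240 := AllO.hUEF.c240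
  have h1 : 0 < UE.card := by rw [h]; norm_num
  obtain ⟨e, he⟩ := Finset.card_pos.1 h1
  exact ⟨e, Finset.mem_coe.2 he⟩

/-- Labelled point. -/
theorem td_lab {τ : ℝ} (h2 : τ < 1 / 2) {y e : E} (he : e ∈ UE) (h : ‖y - e‖ < τ) :
    td τ y = ‖y - e‖ ^ 2 := by
  have h1 : ‖y - e‖ ≤ Metric.infDist y (UE : Set E) := by
    refine (Metric.le_infDist ue_ne).2 fun f hf => ?_
    rw [dist_eq_norm]
    rcases eq_or_ne e f with h3 | h3
    · rw [h3]
    · have h4 := ue_sep he (Finset.mem_coe.1 hf) h3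
      have h5 : ‖e - f‖ ≤ ‖y - e‖ + ‖y - f‖ := by
        have : e - f = -(y - e) + (y - f) := by abel
        rw [this]
        refine (norm_add_le _ _).trans ?_
        rw [norm_neg]
      linarith
  have h2' : Metric.infDist y (UE : Set E) ≤ ‖y - e‖ := by
    rw [← dist_eq_norm]
    exact Metric.infDist_le_dist_of_mem (Finset.mem_coe.2 he)
  have h3 : Metric.infDist y (UE : Set E) = ‖y - e‖ := le_antisymm h2' h1
  unfold td
  rw [h3]
  exact min_eq_left (pow_le_pow_left₀ (norm_nonneg _) h.le 2)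

/-- Outlier. -/
theorem td_out {τ : ℝ} (h0 : 0 < τ) {y : E} (h : ∀ e ∈ UE, τ ≤ ‖y - e‖) : td τ y = τ ^ 2 := by
  have h1 : τ ≤ Metric.infDist y (UE : Set E) := by
    refine (Metric.le_infDist ue_ne).2 fun f hf => ?_
    rw [dist_eq_norm]
    exact h f (Finset.mem_coe.1 hf)
  unfold td
  exact min_eq_right (pow_le_pow_left₀ h0.le h1 2)

end TRPM

open TRPM in
/-- **Truncated Procrustes.** -/
theorem trunc (Z : Finset E) (τ F0 : ℝ) (h0 : 0 < τ) (h2 : τ < 1 / 2)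
    (hsep : ∀ z ∈ Z, ∀ w ∈ Z, z ≠ w → 2 * τ ≤ ‖z - w‖) (A1 : E ≃ₗᵢ[ℝ] E)
    (hF : ∑ z ∈ Z, TRPM.td τ (A1 z) ≤ F0) :
    ∃ (A : E ≃ₗᵢ[ℝ] E) (I : Finset E) (u : E → E), I ⊆ UE ∧ (∀ e ∈ I, u e ∈ Z) ∧
      (∀ e ∈ I, ‖A (u e) - e‖ < τ) ∧ Set.InjOn u (I : Set E) ∧
      (∀ z ∈ Z, (∀ e ∈ I, z ≠ u e) → ∀ e ∈ UE, τ ≤ ‖A z - e‖) ∧ I.card ≤ Z.card ∧
      ∑ e ∈ I, ‖A (u e) - e‖ ^ 2 + τ ^ 2 * ((Z.card : ℝ) - I.card) ≤ F0 ∧
      (∀ B : E ≃ₗᵢ[ℝ] E, ∑ e ∈ I, ‖A (u e) - e‖ ^ 2 ≤ ∑ e ∈ I, ‖B (u e) - e‖ ^ 2) ∧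
      ∀ a b : E, ∑ e ∈ I, (inner ℝ (A (u e) - e) a : ℝ) * (inner ℝ e b : ℝ) =
        ∑ e ∈ I, (inner ℝ (A (u e) - e) b : ℝ) * (inner ℝ e a : ℝ) := by
  classical
  obtain ⟨A, hA⟩ := exists_opt Z (td τ) (td_cont τ)
  set I : Finset E := UE.filter fun e => ∃ z ∈ Z, ‖A z - e‖ < τ with hI
  have hIm : ∀ e ∈ I, e ∈ UE ∧ ∃ z ∈ Z, ‖A z - e‖ < τ := fun e he => Finset.mem_filter.1 he
  set u : E → E := fun e => if h : ∃ z ∈ Z, ‖A z - e‖ < τ then h.choose else 0 with hu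
  have hu1 : ∀ e ∈ I, u e ∈ Z ∧ ‖A (u e) - e‖ < τ := by
    intro e he
    obtain ⟨_, h3⟩ := hIm e he
    have h4 : u e = h3.choose := by
      simp only [hu]
      rw [dif_pos h3]
    rw [h4]
    exact h3.choose_spec
  have hIU : I ⊆ UE := fun e he => (hIm e he).1
  have hinj : Set.InjOn u (I : Set E) := by
    intro e he f hf hef
    by_contra hne
    have h3 := (hu1 e (Finset.mem_coe.1 he)).2
    have h4 := (hu1 f (Finset.mem_coe.1 hf)).2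
    have h5 := ue_sep (hIU (Finset.mem_coe.1 he)) (hIU (Finset.mem_coe.1 hf)) hne
    rw [← hef] at h4
    have h6 : ‖e - f‖ ≤ ‖A (u e) - e‖ + ‖A (u e) - f‖ := by
      have : e - f = -(A (u e) - e) + (A (u e) - f) := by abel
      rw [this]
      refine (norm_add_le _ _).trans ?_
      rw [norm_neg]
    linarith
  have hout : ∀ z ∈ Z, (∀ e ∈ I, z ≠ u e) → ∀ e ∈ UE, τ ≤ ‖A z - e‖ := by
    intro z hz hne e he
    by_contra hlt
    push Not at hlt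
    have heI : e ∈ I := Finset.mem_filter.2 ⟨he, z, hz, hlt⟩
    obtain ⟨h3, h4⟩ := hu1 e heI
    have h5 := hsep z hz (u e) h3 (hne e heI)
    have h6 : ‖z - u e‖ = ‖A z - A (u e)‖ := by
      rw [← map_sub, LinearIsometryEquiv.norm_map]
    have h7 : ‖A z - A (u e)‖ ≤ ‖A z - e‖ + ‖A (u e) - e‖ := by
      have : A z - A (u e) = (A z - e) + -(A (u e) - e) := by abel
      rw [this]
      refine (norm_add_le _ _).trans ?_
      rw [norm_neg]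
    linarith
  have himg : I.image u ⊆ Z := by
    intro z hz
    obtain ⟨e, he, rfl⟩ := Finset.mem_image.1 hz
    exact (hu1 e he).1
  have hcI : (I.image u).card = I.card := Finset.card_image_of_injOn hinj
  have hcard : I.card ≤ Z.card := by
    rw [← hcI]
    exact Finset.card_le_card himg
  have hcd : ((Z \ I.image u).card : ℝ) = (Z.card : ℝ) - I.card := by
    rw [Finset.card_sdiff_of_subset himg, hcI, Nat.cast_sub hcard]
  have hsplit : ∀ g : E → ℝ, ∑ z ∈ Z, g z = ∑ e ∈ I, g (u e) + ∑ z ∈ Z \ I.image u, g z := by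
    intro g
    rw [← Finset.sum_sdiff himg, add_comm, Finset.sum_image hinj]
  have hA0 : ∑ z ∈ Z, td τ (A z) = ∑ e ∈ I, ‖A (u e) - e‖ ^ 2
      + τ ^ 2 * ((Z.card : ℝ) - I.card) := by
    have h3 : ∑ e ∈ I, td τ (A (u e)) = ∑ e ∈ I, ‖A (u e) - e‖ ^ 2 :=
      Finset.sum_congr rfl fun e he => td_lab h2 (hIU he) (hu1 e he).2
    have h4 : ∑ z ∈ Z \ I.image u, td τ (A z) = ∑ z ∈ Z \ I.image u, τ ^ 2 := by
      refine Finset.sum_congr rfl fun z hz => ?_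
      obtain ⟨h5, h6⟩ := Finset.mem_sdiff.1 hz
      exact td_out h0 (hout z h5 fun e he h7 => h6 (Finset.mem_image.2 ⟨e, he, h7.symm⟩))
    have h5 := hsplit fun z => td τ (A z)
    rw [Finset.sum_const, nsmul_eq_mul, hcd] at h4
    linarith
  have hB0 : ∀ B : E ≃ₗᵢ[ℝ] E, ∑ z ∈ Z, td τ (B z) ≤ ∑ e ∈ I, ‖B (u e) - e‖ ^ 2
      + τ ^ 2 * ((Z.card : ℝ) - I.card) := by
    intro B
    rw [hsplit fun z => td τ (B z)]
    have h3 : ∑ e ∈ I, td τ (B (u e)) ≤ ∑ e ∈ I, ‖B (u e) - e‖ ^ 2 :=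
      Finset.sum_le_sum fun e he => td_le_sq τ _ (hIU he)
    have h4 : ∑ z ∈ Z \ I.image u, td τ (B z) ≤ ∑ z ∈ Z \ I.image u, τ ^ 2 :=
      Finset.sum_le_sum fun z _ => td_le τ _
    rw [Finset.sum_const, nsmul_eq_mul, hcd] at h4
    linarith
  have hopt : ∀ B : E ≃ₗᵢ[ℝ] E,
      ∑ e ∈ I, ‖A (u e) - e‖ ^ 2 ≤ ∑ e ∈ I, ‖B (u e) - e‖ ^ 2 := by
    intro B
    have h3 := hA B
    rw [hA0] at h3
    have h4 := hB0 B
    linarith
  refine ⟨A, I, u, hIU, fun e he => (hu1 e he).1, fun e he => (hu1 e he).2, hinj, hout, hcard, ?_,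
    hopt, fun a b => ?_⟩
  · rw [← hA0]
    exact (hA A1).trans hF
  · have hopt' : ∀ B : E ≃ₗᵢ[ℝ] E,
        ∑ e ∈ I, ‖(fun e => A (u e)) e - e‖ ^ 2 ≤ ∑ e ∈ I, ‖B ((fun e => A (u e)) e) - e‖ ^ 2 :=
      fun B => hopt (A.trans B)
    have h1 := PRCM.stat_gen hopt' a b
    rw [← sub_eq_zero, ← Finset.sum_sub_distrib, ← h1]
    refine Finset.sum_congr rfl fun e _ => ?_
    have g1 : ∀ x c : E, (inner ℝ x c : ℝ) = inner ℝ c x := fun x c => real_inner_comm c x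
    rw [g1 (A (u e) - e) a, g1 e b, g1 (A (u e) - e) b, g1 e a, inner_sub_right, inner_sub_right]
    ring

end Pool.Agent.Lib.MP_f1379f_gt.FV
end
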