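import Mathlib

section
/-!
# MP_f1379f_gt, full Q1: pointwise Moreau minorant

`phi (T) + (4/25) (T - l - y)^2 >= (67/1000) y^2 - (56/100) y^4` for `l` in `{0, 1/2, -1/2, -1}`,
`-1 <= T <= 1/2`, `y^2 <= 19/250`.
-/
set_option autoImplicit false

namespace Pool.Agent.Lib.MP_f1379f_gt.FV

namespace TSDM

/-- `(T+1)(T+1/2)^2 T^2 (1/2 - T)`. -/
noncomputable def ph (T : ℝ) : ℝ := (T + 1) * (T + 1 / 2) ^ 2 * T ^ 2 * (1 / 2 - T)

theorem ph_nonneg {T : ℝ} (h0 : -1 ≤ T) (h1 : T ≤ 1 / 2) : 0 ≤ ph T := by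
  unfold ph
  have e1 : 0 ≤ T + 1 := by linarith
  have e2 : 0 ≤ 1 / 2 - T := by linarith
  positivity

theorem ph_symm (T : ℝ) : ph (-1 / 2 - T) = ph T := by
  unfold ph
  ring

/-- The right side is at most `.00201`. -/
theorem rhs_le (y : ℝ) : 67 / 1000 * y ^ 2 - 56 / 100 * y ^ 4 ≤ 201 / 100000 := by
  nlinarith [sq_nonneg (y ^ 2 - 598 / 10000)]

theorem rhs_le2 (y : ℝ) : 67 / 1000 * y ^ 2 - 56 / 100 * y ^ 4 ≤ 67 / 1000 * y ^ 2 := by
  have : 0 ≤ y ^ 4 := by positivity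
  linarith

/-- A quadratic form. -/
theorem form {A B M t s : ℝ} (hA : 0 < A) (h : M ^ 2 ≤ A * B) :
    0 ≤ A * t ^ 2 - 2 * M * t * s + B * s ^ 2 := by
  have h1 : 0 ≤ A * (A * t ^ 2 - 2 * M * t * s + B * s ^ 2) := by
    nlinarith [sq_nonneg (A * t - M * s), mul_nonneg (sub_nonneg.2 h) (sq_nonneg s)]
  exact nonneg_of_mul_nonneg_right h1 hA

/-- One piece of the well at 0: `q = c^2`. -/
theorem piece {t s q : ℝ}
    (hA : 0 < (1 - t) * (1 / 2 - t) ^ 2 * (1 / 2 + t) + 4 / 25 - 56 / 100 * q ^ 2 * t ^ 2)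
    (h : (4 / 25) ^ 2 ≤ ((1 - t) * (1 / 2 - t) ^ 2 * (1 / 2 + t) + 4 / 25 - 56 / 100 * q ^ 2 * t ^ 2) *
      (4 / 25 - 67 / 1000 + 2 * (56 / 100) * q * t ^ 2)) :
    67 / 1000 * s ^ 2 - 56 / 100 * s ^ 4 ≤ ph (-t) + 4 / 25 * (t - s) ^ 2 := by
  have h1 := form (t := t) (s := s) hA h
  have h2 : 0 ≤ 56 / 100 * (s ^ 2 - q * t ^ 2) ^ 2 := by positivity
  unfold ph
  nlinarith

theorem pc1 {t : ℝ} (h1 : 1 / 40 ≤ t) (h2 : t ≤ 57 / 1000) :
    (4 / 25) ^ 2 ≤ ((1 - t) * (1 / 2 - t) ^ 2 * (1 / 2 + t) + 4 / 25 - 56 / 100 * (187 / 100) ^ 2 * t ^ 2) *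
      (4 / 25 - 67 / 1000 + 2 * (56 / 100) * (187 / 100) * t ^ 2) := by
  have hx : 0 ≤ t - 1 / 40 := sub_nonneg.2 h1
  have hz : 0 ≤ 57 / 1000 - t := sub_nonneg.2 h2
  have e : ((1 - t) * (1 / 2 - t) ^ 2 * (1 / 2 + t) + 4 / 25 - 56 / 100 * (187 / 100) ^ 2 * t ^ 2) *
      (4 / 25 - 67 / 1000 + 2 * (56 / 100) * (187 / 100) * t ^ 2) - ((4 / 25) ^ 2) =
      (265929671749375 / 1073741824) * (57 / 1000 - t) ^ 6 +
      (529018597026525 / 536870912) * (t - 1 / 40) ^ 1 * (57 / 1000 - t) ^ 5 +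
      (1634941087989681 / 1073741824) * (t - 1 / 40) ^ 2 * (57 / 1000 - t) ^ 4 +
      (7762394029767907 / 6710886400) * (t - 1 / 40) ^ 3 * (57 / 1000 - t) ^ 3 +
      (314483430333268449 / 671088640000) * (t - 1 / 40) ^ 4 * (57 / 1000 - t) ^ 2 +
      (39265352534625549 / 335544320000) * (t - 1 / 40) ^ 5 * (57 / 1000 - t) ^ 1 +
      (13514293630971983 / 671088640000) * (t - 1 / 40) ^ 6 := by
    ring
  have h : 0 ≤ ((1 - t) * (1 / 2 - t) ^ 2 * (1 / 2 + t) + 4 / 25 - 56 / 100 * (187 / 100) ^ 2 * t ^ 2) *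
      (4 / 25 - 67 / 1000 + 2 * (56 / 100) * (187 / 100) * t ^ 2) - ((4 / 25) ^ 2) := by
    rw [e]
    generalize t - 1 / 40 = x at hx ⊢
    generalize 57 / 1000 - t = z at hz ⊢
    positivity
  linarith

theorem pc2 {t : ℝ} (h1 : 57 / 1000 ≤ t) (h2 : t ≤ 89 / 1000) :
    (4 / 25) ^ 2 ≤ ((1 - t) * (1 / 2 - t) ^ 2 * (1 / 2 + t) + 4 / 25 - 56 / 100 * (187 / 100) ^ 2 * t ^ 2) *
      (4 / 25 - 67 / 1000 + 2 * (56 / 100) * (187 / 100) * t ^ 2) := by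
  have hx : 0 ≤ t - 57 / 1000 := sub_nonneg.2 h1
  have hz : 0 ≤ 89 / 1000 - t := sub_nonneg.2 h2
  have e : ((1 - t) * (1 / 2 - t) ^ 2 * (1 / 2 + t) + 4 / 25 - 56 / 100 * (187 / 100) ^ 2 * t ^ 2) *
      (4 / 25 - 67 / 1000 + 2 * (56 / 100) * (187 / 100) * t ^ 2) - ((4 / 25) ^ 2) =
      (13514293630971983 / 671088640000) * (89 / 1000 - t) ^ 6 +
      (41820409251206349 / 335544320000) * (t - 57 / 1000) ^ 1 * (89 / 1000 - t) ^ 5 +
      (340033997499076449 / 671088640000) * (t - 57 / 1000) ^ 2 * (89 / 1000 - t) ^ 4 +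
      (190171704468707563 / 167772160000) * (t - 57 / 1000) ^ 3 * (89 / 1000 - t) ^ 3 +
      (872978156024437281 / 671088640000) * (t - 57 / 1000) ^ 4 * (89 / 1000 - t) ^ 2 +
      (243482190120340557 / 335544320000) * (t - 57 / 1000) ^ 5 * (89 / 1000 - t) ^ 1 +
      (20952832787078147 / 134217728000) * (t - 57 / 1000) ^ 6 := by
    ring
  have h : 0 ≤ ((1 - t) * (1 / 2 - t) ^ 2 * (1 / 2 + t) + 4 / 25 - 56 / 100 * (187 / 100) ^ 2 * t ^ 2) *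
      (4 / 25 - 67 / 1000 + 2 * (56 / 100) * (187 / 100) * t ^ 2) - ((4 / 25) ^ 2) := by
    rw [e]
    generalize t - 57 / 1000 = x at hx ⊢
    generalize 89 / 1000 - t = z at hz ⊢
    positivity
  linarith

theorem pc3 {t : ℝ} (h1 : 89 / 1000 ≤ t) (h2 : t ≤ 77 / 500) :
    (4 / 25) ^ 2 ≤ ((1 - t) * (1 / 2 - t) ^ 2 * (1 / 2 + t) + 4 / 25 - 56 / 100 * (187 / 100) ^ 2 * t ^ 2) *
      (4 / 25 - 67 / 1000 + 2 * (56 / 100) * (187 / 100) * t ^ 2) := by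
  have hx : 0 ≤ t - 89 / 1000 := sub_nonneg.2 h1
  have hz : 0 ≤ 77 / 500 - t := sub_nonneg.2 h2
  have e : ((1 - t) * (1 / 2 - t) ^ 2 * (1 / 2 + t) + 4 / 25 - 56 / 100 * (187 / 100) ^ 2 * t ^ 2) *
      (4 / 25 - 67 / 1000 + 2 * (56 / 100) * (187 / 100) * t ^ 2) - ((4 / 25) ^ 2) =
      (20952832787078147 / 9427361328125) * (77 / 500 - t) ^ 6 +
      (183250366842207096 / 9427361328125) * (t - 89 / 1000) ^ 1 * (77 / 500 - t) ^ 5 +
      (121979331997544796 / 1885472265625) * (t - 89 / 1000) ^ 2 * (77 / 500 - t) ^ 4 +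
      (38153526549099744 / 377094453125) * (t - 89 / 1000) ^ 3 * (77 / 500 - t) ^ 3 +
      (28495299775821072 / 377094453125) * (t - 89 / 1000) ^ 4 * (77 / 500 - t) ^ 2 +
      (212595736177615872 / 9427361328125) * (t - 89 / 1000) ^ 5 * (77 / 500 - t) ^ 1 +
      (6432534911422016 / 9427361328125) * (t - 89 / 1000) ^ 6 := by
    ring
  have h : 0 ≤ ((1 - t) * (1 / 2 - t) ^ 2 * (1 / 2 + t) + 4 / 25 - 56 / 100 * (187 / 100) ^ 2 * t ^ 2) *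
      (4 / 25 - 67 / 1000 + 2 * (56 / 100) * (187 / 100) * t ^ 2) - ((4 / 25) ^ 2) := by
    rw [e]
    generalize t - 89 / 1000 = x at hx ⊢
    generalize 77 / 500 - t = z at hz ⊢
    positivity
  linarith

theorem pc4 {t : ℝ} (h1 : 77 / 500 ≤ t) (h2 : t ≤ 139 / 500) :
    (4 / 25) ^ 2 ≤ ((1 - t) * (1 / 2 - t) ^ 2 * (1 / 2 + t) + 4 / 25 - 56 / 100 * (107 / 100) ^ 2 * t ^ 2) *
      (4 / 25 - 67 / 1000 + 2 * (56 / 100) * (107 / 100) * t ^ 2) := by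
  have hx : 0 ≤ t - 77 / 500 := sub_nonneg.2 h1
  have hz : 0 ≤ 139 / 500 - t := sub_nonneg.2 h2
  have e : ((1 - t) * (1 / 2 - t) ^ 2 * (1 / 2 + t) + 4 / 25 - 56 / 100 * (107 / 100) ^ 2 * t ^ 2) *
      (4 / 25 - 67 / 1000 + 2 * (56 / 100) * (107 / 100) * t ^ 2) - ((4 / 25) ^ 2) =
      (46325595839913 / 7100029448000) * (139 / 500 - t) ^ 6 +
      (6881561049756459 / 17750073620000) * (t - 77 / 500) ^ 1 * (139 / 500 - t) ^ 5 +
      (66217835826864591 / 35500147240000) * (t - 77 / 500) ^ 2 * (139 / 500 - t) ^ 4 +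
      (29773728181771457 / 8875036810000) * (t - 77 / 500) ^ 3 * (139 / 500 - t) ^ 3 +
      (93665574911227899 / 35500147240000) * (t - 77 / 500) ^ 4 * (139 / 500 - t) ^ 2 +
      (13844766585872931 / 17750073620000) * (t - 77 / 500) ^ 5 * (139 / 500 - t) ^ 1 +
      (389985904600137 / 35500147240000) * (t - 77 / 500) ^ 6 := by
    ring
  have h : 0 ≤ ((1 - t) * (1 / 2 - t) ^ 2 * (1 / 2 + t) + 4 / 25 - 56 / 100 * (107 / 100) ^ 2 * t ^ 2) *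
      (4 / 25 - 67 / 1000 + 2 * (56 / 100) * (107 / 100) * t ^ 2) - ((4 / 25) ^ 2) := by
    rw [e]
    generalize t - 77 / 500 = x at hx ⊢
    generalize 139 / 500 - t = z at hz ⊢
    positivity
  linarith

theorem pc5 {t : ℝ} (h1 : 139 / 500 ≤ t) (h2 : t ≤ 9 / 25) :
    (4 / 25) ^ 2 ≤ ((1 - t) * (1 / 2 - t) ^ 2 * (1 / 2 + t) + 4 / 25 - 56 / 100 * (71 / 100) ^ 2 * t ^ 2) *
      (4 / 25 - 67 / 1000 + 2 * (56 / 100) * (71 / 100) * t ^ 2) := by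
  have hx : 0 ≤ t - 139 / 500 := sub_nonneg.2 h1
  have hz : 0 ≤ 9 / 25 - t := sub_nonneg.2 h2
  have e : ((1 - t) * (1 / 2 - t) ^ 2 * (1 / 2 + t) + 4 / 25 - 56 / 100 * (71 / 100) ^ 2 * t ^ 2) *
      (4 / 25 - 67 / 1000 + 2 * (56 / 100) * (71 / 100) * t ^ 2) - ((4 / 25) ^ 2) =
      (37379198245617 / 593763030125) * (9 / 25 - t) ^ 6 +
      (9244447938489174 / 2968815150625) * (t - 139 / 500) ^ 1 * (9 / 25 - t) ^ 5 +
      (42788391745167072 / 2968815150625) * (t - 139 / 500) ^ 2 * (9 / 25 - t) ^ 4 +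
      (16325005016351612 / 593763030125) * (t - 139 / 500) ^ 3 * (9 / 25 - t) ^ 3 +
      (3115313638241532 / 118752606025) * (t - 139 / 500) ^ 4 * (9 / 25 - t) ^ 2 +
      (295507785101712 / 23750521205) * (t - 139 / 500) ^ 5 * (9 / 25 - t) ^ 1 +
      (11115930661952 / 4750104241) * (t - 139 / 500) ^ 6 := by
    ring
  have h : 0 ≤ ((1 - t) * (1 / 2 - t) ^ 2 * (1 / 2 + t) + 4 / 25 - 56 / 100 * (71 / 100) ^ 2 * t ^ 2) *
      (4 / 25 - 67 / 1000 + 2 * (56 / 100) * (71 / 100) * t ^ 2) - ((4 / 25) ^ 2) := by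
    rw [e]
    generalize t - 139 / 500 = x at hx ⊢
    generalize 9 / 25 - t = z at hz ⊢
    positivity
  linarith

theorem pc6 {t : ℝ} (h1 : 9 / 25 ≤ t) (h2 : t ≤ 39 / 100) :
    9 / 10000 ≤ (1 - t) * (1 / 2 - t) ^ 2 * t ^ 2 * (1 / 2 + t) := by
  have hx : 0 ≤ t - 9 / 25 := sub_nonneg.2 h1
  have hz : 0 ≤ 39 / 100 - t := sub_nonneg.2 h2
  have e : (1 - t) * (1 / 2 - t) ^ 2 * t ^ 2 * (1 / 2 + t) - (9 / 10000) =
      (55344896 / 81) * (39 / 100 - t) ^ 6 +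
      (96507008 / 27) * (t - 9 / 25) ^ 1 * (39 / 100 - t) ^ 5 +
      (614781440 / 81) * (t - 9 / 25) ^ 2 * (39 / 100 - t) ^ 4 +
      (223880360 / 27) * (t - 9 / 25) ^ 3 * (39 / 100 - t) ^ 3 +
      (14493220 / 3) * (t - 9 / 25) ^ 4 * (39 / 100 - t) ^ 2 +
      (111298874 / 81) * (t - 9 / 25) ^ 5 * (39 / 100 - t) ^ 1 +
      (11017621 / 81) * (t - 9 / 25) ^ 6 := by
    ring
  have h : 0 ≤ (1 - t) * (1 / 2 - t) ^ 2 * t ^ 2 * (1 / 2 + t) - (9 / 10000) := by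
    rw [e]
    generalize t - 9 / 25 = x at hx ⊢
    generalize 39 / 100 - t = z at hz ⊢
    positivity
  linarith

theorem well_neg {t s : ℝ} (ht : 0 ≤ t) (ht1 : t ≤ 1) (hs1 : s ≤ 2757 / 10000) :
    67 / 1000 * s ^ 2 - 56 / 100 * s ^ 4 ≤ ph (-t) + 4 / 25 * (t - s) ^ 2 := by
  have hph : 0 ≤ ph (-t) := ph_nonneg (by linarith) (by linarith)
  rcases le_total t (1 / 40) with h1 | h1
  · -- `psi >= .1154`
    have e1 : 1154 / 10000 ≤ (1 - t) * (1 / 2 - t) ^ 2 * (1 / 2 + t) := by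
      nlinarith [mul_nonneg ht (sub_nonneg.2 h1), mul_nonneg (mul_nonneg ht ht) (sub_nonneg.2 h1),
        mul_nonneg (mul_nonneg (mul_nonneg ht ht) ht) (sub_nonneg.2 h1)]
    refine piece (q := 0) (by nlinarith) ?_
    nlinarith
  rcases le_total t (57 / 1000) with h2 | h2
  · refine piece (q := 187 / 100) ?_ (pc1 h1 h2)
    nlinarith [mul_nonneg (sub_nonneg.2 h1) (sub_nonneg.2 h2)]
  rcases le_total t (89 / 1000) with h3 | h3
  · refine piece (q := 187 / 100) ?_ (pc2 h2 h3)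
    nlinarith [mul_nonneg (sub_nonneg.2 h2) (sub_nonneg.2 h3)]
  rcases le_total t (77 / 500) with h4 | h4
  · refine piece (q := 187 / 100) ?_ (pc3 h3 h4)
    nlinarith [mul_nonneg (sub_nonneg.2 h3) (sub_nonneg.2 h4)]
  rcases le_total t (139 / 500) with h5 | h5
  · refine piece (q := 107 / 100) ?_ (pc4 h4 h5)
    nlinarith [mul_nonneg (sub_nonneg.2 h4) (sub_nonneg.2 h5)]
  rcases le_total t (9 / 25) with h6 | h6
  · refine piece (q := 71 / 100) ?_ (pc5 h5 h6)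
    nlinarith [mul_nonneg (sub_nonneg.2 h5) (sub_nonneg.2 h6)]
  have e2 := rhs_le s
  rcases le_total t (39 / 100) with h7 | h7
  · have e1 : 9 / 10000 ≤ ph (-t) := by
      refine (pc6 h6 h7).trans (le_of_eq ?_)
      unfold ph
      ring
    nlinarith
  · nlinarith

theorem well_pos {T y : ℝ} (h0 : 0 ≤ T) (h1 : T ≤ 1 / 2) (hy : 0 ≤ y) (hy1 : y ≤ 2757 / 10000) :
    67 / 1000 * y ^ 2 - 56 / 100 * y ^ 4 ≤ ph T + 4 / 25 * (T - y) ^ 2 := by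
  rcases le_total T (38 / 100) with h2 | h2
  · have e1 : 1 / 8 * T ^ 2 ≤ ph T := by
      have e3 : 1 / 8 ≤ (T + 1) * (T + 1 / 2) ^ 2 * (1 / 2 - T) := by
        nlinarith [mul_nonneg h0 (sub_nonneg.2 h2), mul_nonneg (mul_nonneg h0 h0) (sub_nonneg.2 h2),
          mul_nonneg (mul_nonneg (mul_nonneg h0 h0) h0) (sub_nonneg.2 h2)]
      have e4 : ph T = (T + 1) * (T + 1 / 2) ^ 2 * (1 / 2 - T) * T ^ 2 := by
        unfold ph
        ring
      rw [e4]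
      exact mul_le_mul_of_nonneg_right e3 (sq_nonneg _)
    have e2 := rhs_le2 y
    nlinarith [sq_nonneg (57 * T - 32 * y)]
  · have e2 := rhs_le y
    rcases le_total T (47 / 100) with h3 | h3
    · have e1 : 3 / 1000 ≤ ph T := by
        unfold ph
        have g1 : (138 / 100 : ℝ) ≤ T + 1 := by linarith
        have g2 : (77 / 100 : ℝ) ≤ (T + 1 / 2) ^ 2 := by nlinarith
        have g3 : (144 / 1000 : ℝ) ≤ T ^ 2 := by nlinarith
        have g4 : (3 / 100 : ℝ) ≤ 1 / 2 - T := by linarith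
        have g5 : (138 / 100 : ℝ) * (77 / 100) ≤ (T + 1) * (T + 1 / 2) ^ 2 :=
          mul_le_mul g1 g2 (by norm_num) (by linarith)
        have g6 : (138 / 100 : ℝ) * (77 / 100) * (144 / 1000) ≤ (T + 1) * (T + 1 / 2) ^ 2 * T ^ 2 :=
          mul_le_mul g5 g3 (by norm_num) (by positivity)
        have g7 : (138 / 100 : ℝ) * (77 / 100) * (144 / 1000) * (3 / 100) ≤
            (T + 1) * (T + 1 / 2) ^ 2 * T ^ 2 * (1 / 2 - T) :=
          mul_le_mul g6 g4 (by norm_num) (by positivity)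
        norm_num at g7
        linarith
      nlinarith [sq_nonneg (T - y)]
    · have e1 := ph_nonneg (T := T) (by linarith) h1
      nlinarith

/-- The well at 0. -/
theorem mor0 {T y : ℝ} (h0 : -1 ≤ T) (h1 : T ≤ 1 / 2) (hy : y ^ 2 ≤ 19 / 250) :
    67 / 1000 * y ^ 2 - 56 / 100 * y ^ 4 ≤ ph T + 4 / 25 * (T - y) ^ 2 := by
  have hph := ph_nonneg h0 h1
  have hy1 : y ≤ 2757 / 10000 := by nlinarith
  have hy2 : -(2757 / 10000) ≤ y := by nlinarith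
  have e2 := rhs_le2 y
  rcases le_total 0 T with hT | hT <;> rcases le_total 0 y with hy0 | hy0
  · exact well_pos hT h1 hy0 hy1
  · nlinarith [mul_nonneg hT (neg_nonneg.2 hy0)]
  · nlinarith [mul_nonneg (neg_nonneg.2 hT) hy0]
  · have h := well_neg (t := -T) (s := -y) (by linarith) (by linarith) (by linarith)
    rw [neg_neg] at h
    have e3 : (-T - -y) ^ 2 = (T - y) ^ 2 := by ring
    have e4 : (-y) ^ 2 = y ^ 2 := by ring
    have e5 : (-y) ^ 4 = y ^ 4 := by ring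
    rw [e3, e4, e5] at h
    exact h

/-- The contact value 1/2. -/
theorem mor_half {T y : ℝ} (h0 : -1 ≤ T) (h1 : T ≤ 1 / 2) (hy : y ^ 2 ≤ 19 / 250) :
    67 / 1000 * y ^ 2 - 56 / 100 * y ^ 4 ≤ ph T + 4 / 25 * (T - 1 / 2 - y) ^ 2 := by
  have hph := ph_nonneg h0 h1
  have hy2 : -(2757 / 10000) ≤ y := by nlinarith
  have e2 := rhs_le2 y
  rcases le_total 0 y with hy0 | hy0
  · nlinarith [mul_nonneg (sub_nonneg.2 h1) hy0]
  have e3 := rhs_le y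
  rcases le_total (1 / 4) T with h2 | h2
  · -- `phi (1/2 - w) >= (43/1000) w >= (116/1000) w^2`
    have g : 116 / 1000 * (1 / 2 - T) ^ 2 ≤ ph T := by
      have g1 : (43 / 1000 : ℝ) ≤ (T + 1) * (T + 1 / 2) ^ 2 * T ^ 2 := by
        have f1 : (5 / 4 : ℝ) ≤ T + 1 := by linarith
        have f2 : (9 / 16 : ℝ) ≤ (T + 1 / 2) ^ 2 := by nlinarith
        have f3 : (1 / 16 : ℝ) ≤ T ^ 2 := by nlinarith
        have f4 : (5 / 4 : ℝ) * (9 / 16) ≤ (T + 1) * (T + 1 / 2) ^ 2 :=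
          mul_le_mul f1 f2 (by norm_num) (by linarith)
        have f5 : (5 / 4 : ℝ) * (9 / 16) * (1 / 16) ≤ (T + 1) * (T + 1 / 2) ^ 2 * T ^ 2 :=
          mul_le_mul f4 f3 (by norm_num) (by positivity)
        norm_num at f5
        linarith
      have g2 : 43 / 1000 * (1 / 2 - T) ≤ ph T := by
        unfold ph
        exact mul_le_mul_of_nonneg_right g1 (by linarith)
      nlinarith
    nlinarith [sq_nonneg (116 * (1 / 2 - T) - 160 * (T - 1 / 2 - y))]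
  rcases le_total (12 / 100) T with h3 | h3
  · have g : 201 / 100000 ≤ ph T := by
      have f1 : (112 / 100 : ℝ) ≤ T + 1 := by linarith
      have f2 : (384 / 1000 : ℝ) ≤ (T + 1 / 2) ^ 2 := by nlinarith
      have f3 : (144 / 10000 : ℝ) * (38 / 100) ≤ T ^ 2 * (1 / 2 - T) := by
        have f0 : 0 ≤ -T ^ 2 + 38 / 100 * T + 456 / 10000 := by nlinarith
        nlinarith [mul_nonneg (sub_nonneg.2 h3) f0]
      have f4 : (112 / 100 : ℝ) * (384 / 1000) ≤ (T + 1) * (T + 1 / 2) ^ 2 :=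
        mul_le_mul f1 f2 (by norm_num) (by linarith)
      have f5 : (112 / 100 : ℝ) * (384 / 1000) * ((144 / 10000 : ℝ) * (38 / 100)) ≤
          (T + 1) * (T + 1 / 2) ^ 2 * (T ^ 2 * (1 / 2 - T)) :=
        mul_le_mul f4 f3 (by norm_num) (by positivity)
      have f6 : ph T = (T + 1) * (T + 1 / 2) ^ 2 * (T ^ 2 * (1 / 2 - T)) := by
        unfold ph
        ring
      rw [f6]
      norm_num at f5
      linarith
    nlinarith [sq_nonneg (T - 1 / 2 - y)]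
  rcases le_total (11 / 100) T with h4 | h4
  · have g : 1 / 1000 ≤ ph T := by
      have f1 : (111 / 100 : ℝ) ≤ T + 1 := by linarith
      have f2 : (372 / 1000 : ℝ) ≤ (T + 1 / 2) ^ 2 := by nlinarith
      have f3 : (121 / 10000 : ℝ) * (38 / 100) ≤ T ^ 2 * (1 / 2 - T) := by nlinarith
      have f4 : (111 / 100 : ℝ) * (372 / 1000) ≤ (T + 1) * (T + 1 / 2) ^ 2 :=
        mul_le_mul f1 f2 (by norm_num) (by linarith)
      have f5 : (111 / 100 : ℝ) * (372 / 1000) * ((121 / 10000 : ℝ) * (38 / 100)) ≤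
          (T + 1) * (T + 1 / 2) ^ 2 * (T ^ 2 * (1 / 2 - T)) :=
        mul_le_mul f4 f3 (by norm_num) (by positivity)
      have f6 : ph T = (T + 1) * (T + 1 / 2) ^ 2 * (T ^ 2 * (1 / 2 - T)) := by
        unfold ph
        ring
      rw [f6]
      norm_num at f5
      linarith
    nlinarith
  · nlinarith

/-- All four labels. -/
theorem mor {l T y : ℝ} (hl : l = 1 / 2 ∨ l = 0 ∨ l = -1 / 2 ∨ l = -1) (h0 : -1 ≤ T)
    (h1 : T ≤ 1 / 2) (hy : y ^ 2 ≤ 19 / 250) :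
    67 / 1000 * y ^ 2 - 56 / 100 * y ^ 4 ≤ ph T + 4 / 25 * (T - l - y) ^ 2 := by
  have g : (-y) ^ 2 ≤ 19 / 250 := by rwa [neg_sq]
  have e4 : (-y) ^ 2 = y ^ 2 := by ring
  have e5 : (-y) ^ 4 = y ^ 4 := by ring
  rcases hl with h | h | h | h
  · rw [h]
    exact mor_half h0 h1 hy
  · rw [h, sub_zero]
    exact mor0 h0 h1 hy
  · have h2 := mor0 (T := -1 / 2 - T) (y := -y) (by linarith) (by linarith) g
    rw [ph_symm, e4, e5] at h2
    have e3 : (-1 / 2 - T - -y) ^ 2 = (T - l - y) ^ 2 := by rw [h]; ring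
    rw [e3] at h2
    exact h2
  · have h2 := mor_half (T := -1 / 2 - T) (y := -y) (by linarith) (by linarith) g
    rw [ph_symm, e4, e5] at h2
    have e3 : (-1 / 2 - T - 1 / 2 - -y) ^ 2 = (T - l - y) ^ 2 := by rw [h]; ring
    rw [e3] at h2
    exact h2

end TSDM

end Pool.Agent.Lib.MP_f1379f_gt.FV
end

section
/-!
# MP_f1379f_gt, full Q1: pointwise minorant for the inliers

`phi (T) + (1/5) (T - l - y)^2 >= (7/100) y^2 - (14/25) y^4` for `l` in `{0, 1/2, -1/2, -1}`,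
`-1 <= T <= 1/2` and all real `y`, and
`(7/100) y^2 - (14/25) y^4 >= (59/1000) y^2 + (a^4 + b^4) - 60 (a^6 + b^6) - (13/2) a^2 b^2`, `y = a + b`.
-/
set_option autoImplicit false

namespace Pool.Agent.Lib.MP_f1379f_gt.FV

namespace SIM

open TSDM

/-- The right side is at most `7/3200`. -/
theorem rhs_le (y : ℝ) : 7 / 100 * y ^ 2 - 14 / 25 * y ^ 4 ≤ 7 / 3200 := by
  nlinarith [sq_nonneg (y ^ 2 - 1 / 16)]

theorem rhs_le2 (y : ℝ) : 7 / 100 * y ^ 2 - 14 / 25 * y ^ 4 ≤ 7 / 100 * y ^ 2 := by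
  have : 0 ≤ y ^ 4 := by positivity
  linarith

/-- The right side is nonpositive for `y ^ 2 >= 1/8`. -/
theorem rhs_neg {y : ℝ} (h : 1 / 8 ≤ y ^ 2) : 7 / 100 * y ^ 2 - 14 / 25 * y ^ 4 ≤ 0 := by
  nlinarith [mul_nonneg (sq_nonneg y) (sub_nonneg.2 h)]

/-- A quadratic form. -/
theorem form {A B M t s : ℝ} (hA : 0 < A) (h : M ^ 2 ≤ A * B) :
    0 ≤ A * t ^ 2 - 2 * M * t * s + B * s ^ 2 := TSDM.form hA h

/-- One piece of the well at 0: `q = c^2`. -/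
theorem piece {t s q : ℝ}
    (hA : 0 < (1 - t) * (1 / 2 - t) ^ 2 * (1 / 2 + t) + 1 / 5 - 14 / 25 * q ^ 2 * t ^ 2)
    (h : (1 / 5) ^ 2 ≤ ((1 - t) * (1 / 2 - t) ^ 2 * (1 / 2 + t) + 1 / 5 - 14 / 25 * q ^ 2 * t ^ 2) *
      (1 / 5 - 7 / 100 + 2 * (14 / 25) * q * t ^ 2)) :
    7 / 100 * s ^ 2 - 14 / 25 * s ^ 4 ≤ ph (-t) + 1 / 5 * (t - s) ^ 2 := by
  have h1 := form (t := t) (s := s) hA h
  have h2 : 0 ≤ 14 / 25 * (s ^ 2 - q * t ^ 2) ^ 2 := by positivity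
  unfold ph
  nlinarith

theorem pc1 {t : ℝ} (h1 : 0 ≤ t) (h2 : t ≤ 171 / 1000) :
    (1 / 5) ^ 2 ≤ ((1 - t) * (1 / 2 - t) ^ 2 * (1 / 2 + t) + 1 / 5 - 14 / 25 * (3 / 2) ^ 2 * t ^ 2) *
      (1 / 5 - 7 / 100 + 2 * (14 / 25) * (3 / 2) * t ^ 2) := by
  have hx : 0 ≤ t := h1
  have hz : 0 ≤ 171 / 1000 - t := sub_nonneg.2 h2
  have e : ((1 - t) * (1 / 2 - t) ^ 2 * (1 / 2 + t) + 1 / 5 - 14 / 25 * (3 / 2) ^ 2 * t ^ 2) *
      (1 / 5 - 7 / 100 + 2 * (14 / 25) * (3 / 2) * t ^ 2) - ((1 / 5) ^ 2) =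
      (250000000000000 / 2778012227169) * (171 / 1000 - t) ^ 6 +
      (21250000000000 / 102889341747) * t * (171 / 1000 - t) ^ 5 +
      (84975100000000 / 926004075723) * t ^ 2 * (171 / 1000 - t) ^ 4 +
      (40524335000000 / 2778012227169) * t ^ 3 * (171 / 1000 - t) ^ 3 +
      (36240501533200 / 308668025241) * t ^ 4 * (171 / 1000 - t) ^ 2 +
      (74215450051960 / 926004075723) * t ^ 5 * (171 / 1000 - t) +
      (29095270385902 / 69450305679225) * t ^ 6 := by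
    ring
  have h : 0 ≤ ((1 - t) * (1 / 2 - t) ^ 2 * (1 / 2 + t) + 1 / 5 - 14 / 25 * (3 / 2) ^ 2 * t ^ 2) *
      (1 / 5 - 7 / 100 + 2 * (14 / 25) * (3 / 2) * t ^ 2) - ((1 / 5) ^ 2) := by
    rw [e]
    generalize 171 / 1000 - t = z at hz ⊢
    positivity
  linarith

theorem pc2 {t : ℝ} (h1 : 171 / 1000 ≤ t) (h2 : t ≤ 109 / 500) :
    (1 / 5) ^ 2 ≤ ((1 - t) * (1 / 2 - t) ^ 2 * (1 / 2 + t) + 1 / 5 - 14 / 25 * (6 / 5) ^ 2 * t ^ 2) *
      (1 / 5 - 7 / 100 + 2 * (14 / 25) * (6 / 5) * t ^ 2) := by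
  have hx : 0 ≤ t - 171 / 1000 := sub_nonneg.2 h1
  have hz : 0 ≤ 109 / 500 - t := sub_nonneg.2 h2
  have e : ((1 - t) * (1 / 2 - t) ^ 2 * (1 / 2 + t) + 1 / 5 - 14 / 25 * (6 / 5) ^ 2 * t ^ 2) *
      (1 / 5 - 7 / 100 + 2 * (14 / 25) * (6 / 5) * t ^ 2) - ((1 / 5) ^ 2) =
      (7681398141031272 / 1347401916125) * (109 / 500 - t) ^ 6 +
      (63737040363913056 / 1347401916125) * (t - 171 / 1000) * (109 / 500 - t) ^ 5 +
      (38075801385600464 / 269480383225) * (t - 171 / 1000) ^ 2 * (109 / 500 - t) ^ 4 +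
      (53182436046364736 / 269480383225) * (t - 171 / 1000) ^ 3 * (109 / 500 - t) ^ 3 +
      (35471683785274496 / 269480383225) * (t - 171 / 1000) ^ 4 * (109 / 500 - t) ^ 2 +
      (45917775097502976 / 1347401916125) * (t - 171 / 1000) ^ 5 * (109 / 500 - t) +
      (146360789658368 / 1347401916125) * (t - 171 / 1000) ^ 6 := by
    ring
  have h : 0 ≤ ((1 - t) * (1 / 2 - t) ^ 2 * (1 / 2 + t) + 1 / 5 - 14 / 25 * (6 / 5) ^ 2 * t ^ 2) *
      (1 / 5 - 7 / 100 + 2 * (14 / 25) * (6 / 5) * t ^ 2) - ((1 / 5) ^ 2) := by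
    rw [e]
    generalize 109 / 500 - t = z at hz ⊢
    generalize t - 171 / 1000 = x at hx ⊢
    positivity
  linarith

theorem pc3 {t : ℝ} (h1 : 109 / 500 ≤ t) (h2 : t ≤ 1 / 4) :
    (1 / 5) ^ 2 ≤ ((1 - t) * (1 / 2 - t) ^ 2 * (1 / 2 + t) + 1 / 5 - 14 / 25 * (21 / 20) ^ 2 * t ^ 2) *
      (1 / 5 - 7 / 100 + 2 * (14 / 25) * (21 / 20) * t ^ 2) := by
  have hx : 0 ≤ t - 109 / 500 := sub_nonneg.2 h1
  have hz : 0 ≤ 1 / 4 - t := sub_nonneg.2 h2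
  have e : ((1 - t) * (1 / 2 - t) ^ 2 * (1 / 2 + t) + 1 / 5 - 14 / 25 * (21 / 20) ^ 2 * t ^ 2) *
      (1 / 5 - 7 / 100 + 2 * (14 / 25) * (21 / 20) * t ^ 2) - ((1 / 5) ^ 2) =
      (45899477757173 / 2097152000) * (1 / 4 - t) ^ 6 +
      (8556378288567 / 41943040) * (t - 109 / 500) * (1 / 4 - t) ^ 5 +
      (51906865842067 / 83886080) * (t - 109 / 500) ^ 2 * (1 / 4 - t) ^ 4 +
      (3577235915325 / 4194304) * (t - 109 / 500) ^ 3 * (1 / 4 - t) ^ 3 +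
      (9355092584375 / 16777216) * (t - 109 / 500) ^ 4 * (1 / 4 - t) ^ 2 +
      (1199691796875 / 8388608) * (t - 109 / 500) ^ 5 * (1 / 4 - t) +
      (27197265625 / 16777216) * (t - 109 / 500) ^ 6 := by
    ring
  have h : 0 ≤ ((1 - t) * (1 / 2 - t) ^ 2 * (1 / 2 + t) + 1 / 5 - 14 / 25 * (21 / 20) ^ 2 * t ^ 2) *
      (1 / 5 - 7 / 100 + 2 * (14 / 25) * (21 / 20) * t ^ 2) - ((1 / 5) ^ 2) := by
    rw [e]
    generalize 1 / 4 - t = z at hz ⊢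
    generalize t - 109 / 500 = x at hx ⊢
    positivity
  linarith

theorem pc4 {t : ℝ} (h1 : 1 / 4 ≤ t) (h2 : t ≤ 289 / 1000) :
    (1 / 5) ^ 2 ≤ ((1 - t) * (1 / 2 - t) ^ 2 * (1 / 2 + t) + 1 / 5 - 14 / 25 * (19 / 20) ^ 2 * t ^ 2) *
      (1 / 5 - 7 / 100 + 2 * (14 / 25) * (19 / 20) * t ^ 2) := by
  have hx : 0 ≤ t - 1 / 4 := sub_nonneg.2 h1
  have hz : 0 ≤ 289 / 1000 - t := sub_nonneg.2 h2
  have e : ((1 - t) * (1 / 2 - t) ^ 2 * (1 / 2 + t) + 1 / 5 - 14 / 25 * (19 / 20) ^ 2 * t ^ 2) *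
      (1 / 5 - 7 / 100 + 2 * (14 / 25) * (19 / 20) * t ^ 2) - ((1 / 5) ^ 2) =
      (96875000000 / 270672597) * (289 / 1000 - t) ^ 6 +
      (3571150000000 / 90224199) * (t - 1 / 4) * (289 / 1000 - t) ^ 5 +
      (14698886350000 / 90224199) * (t - 1 / 4) ^ 2 * (289 / 1000 - t) ^ 4 +
      (69032498027200 / 270672597) * (t - 1 / 4) ^ 3 * (289 / 1000 - t) ^ 3 +
      (80350433872268 / 451120995) * (t - 1 / 4) ^ 4 * (289 / 1000 - t) ^ 2 +
      (21206104608536 / 451120995) * (t - 1 / 4) ^ 5 * (289 / 1000 - t) +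
      (8191052914699 / 33834074625) * (t - 1 / 4) ^ 6 := by
    ring
  have h : 0 ≤ ((1 - t) * (1 / 2 - t) ^ 2 * (1 / 2 + t) + 1 / 5 - 14 / 25 * (19 / 20) ^ 2 * t ^ 2) *
      (1 / 5 - 7 / 100 + 2 * (14 / 25) * (19 / 20) * t ^ 2) - ((1 / 5) ^ 2) := by
    rw [e]
    generalize 289 / 1000 - t = z at hz ⊢
    generalize t - 1 / 4 = x at hx ⊢
    positivity
  linarith

theorem pc5 {t : ℝ} (h1 : 289 / 1000 ≤ t) (h2 : t ≤ 47 / 125) :
    (1 / 5) ^ 2 ≤ ((1 - t) * (1 / 2 - t) ^ 2 * (1 / 2 + t) + 1 / 5 - 14 / 25 * (17 / 20) ^ 2 * t ^ 2) *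
      (1 / 5 - 7 / 100 + 2 * (14 / 25) * (17 / 20) * t ^ 2) := by
  have hx : 0 ≤ t - 289 / 1000 := sub_nonneg.2 h1
  have hz : 0 ≤ 47 / 125 - t := sub_nonneg.2 h2
  have e : ((1 - t) * (1 / 2 - t) ^ 2 * (1 / 2 + t) + 1 / 5 - 14 / 25 * (17 / 20) ^ 2 * t ^ 2) *
      (1 / 5 - 7 / 100 + 2 * (14 / 25) * (17 / 20) * t ^ 2) - ((1 / 5) ^ 2) =
      (6884834399001541 / 54203275126125) * (47 / 125 - t) ^ 6 +
      (11691556208732996 / 6022586125125) * (t - 289 / 1000) * (47 / 125 - t) ^ 5 +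
      (25129497626242856 / 3613551675075) * (t - 289 / 1000) ^ 2 * (47 / 125 - t) ^ 4 +
      (113713528214878336 / 10840655025225) * (t - 289 / 1000) ^ 3 * (47 / 125 - t) ^ 3 +
      (2917465523979904 / 401505741675) * (t - 289 / 1000) ^ 4 * (47 / 125 - t) ^ 2 +
      (34944270845805568 / 18067758375375) * (t - 289 / 1000) ^ 5 * (47 / 125 - t) +
      (887713442553856 / 54203275126125) * (t - 289 / 1000) ^ 6 := by
    ring
  have h : 0 ≤ ((1 - t) * (1 / 2 - t) ^ 2 * (1 / 2 + t) + 1 / 5 - 14 / 25 * (17 / 20) ^ 2 * t ^ 2) *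
      (1 / 5 - 7 / 100 + 2 * (14 / 25) * (17 / 20) * t ^ 2) - ((1 / 5) ^ 2) := by
    rw [e]
    generalize 47 / 125 - t = z at hz ⊢
    generalize t - 289 / 1000 = x at hx ⊢
    positivity
  linarith

theorem pc6 {t : ℝ} (h1 : 47 / 125 ≤ t) (h2 : t ≤ 1 / 2) :
    (1 / 5) ^ 2 ≤ ((1 - t) * (1 / 2 - t) ^ 2 * (1 / 2 + t) + 1 / 5 - 14 / 25 * (11 / 20) ^ 2 * t ^ 2) *
      (1 / 5 - 7 / 100 + 2 * (14 / 25) * (11 / 20) * t ^ 2) := by
  have hx : 0 ≤ t - 47 / 125 := sub_nonneg.2 h1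
  have hz : 0 ≤ 1 / 2 - t := sub_nonneg.2 h2
  have e : ((1 - t) * (1 / 2 - t) ^ 2 * (1 / 2 + t) + 1 / 5 - 14 / 25 * (11 / 20) ^ 2 * t ^ 2) *
      (1 / 5 - 7 / 100 + 2 * (14 / 25) * (11 / 20) * t ^ 2) - ((1 / 5) ^ 2) =
      (1314363392638 / 110937960125) * (1 / 2 - t) ^ 6 +
      (4481244950681 / 4437518405) * (t - 47 / 125) * (1 / 2 - t) ^ 5 +
      (46318751437401 / 8875036810) * (t - 47 / 125) ^ 2 * (1 / 2 - t) ^ 4 +
      (9789895405200 / 887503681) * (t - 47 / 125) ^ 3 * (1 / 2 - t) ^ 3 +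
      (20771304346875 / 1775007362) * (t - 47 / 125) ^ 4 * (1 / 2 - t) ^ 2 +
      (5507630078125 / 887503681) * (t - 47 / 125) ^ 5 * (1 / 2 - t) +
      (1165185546875 / 887503681) * (t - 47 / 125) ^ 6 := by
    ring
  have h : 0 ≤ ((1 - t) * (1 / 2 - t) ^ 2 * (1 / 2 + t) + 1 / 5 - 14 / 25 * (11 / 20) ^ 2 * t ^ 2) *
      (1 / 5 - 7 / 100 + 2 * (14 / 25) * (11 / 20) * t ^ 2) - ((1 / 5) ^ 2) := by
    rw [e]
    generalize 1 / 2 - t = z at hz ⊢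
    generalize t - 47 / 125 = x at hx ⊢
    positivity
  linarith

theorem well_neg {t s : ℝ} (ht : 0 ≤ t) (ht1 : t ≤ 1) :
    7 / 100 * s ^ 2 - 14 / 25 * s ^ 4 ≤ ph (-t) + 1 / 5 * (t - s) ^ 2 := by
  have hph : 0 ≤ ph (-t) := ph_nonneg (by linarith) (by linarith)
  have hps : ∀ u : ℝ, 0 ≤ u → u ≤ 1 / 2 → 0 ≤ (1 - u) * (1 / 2 - u) ^ 2 * (1 / 2 + u) := by
    intro u h1 h2
    have e1 : 0 ≤ 1 - u := by linarith
    have e2 : 0 ≤ 1 / 2 + u := by linarith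
    positivity
  rcases le_total t (1 / 2) with h | h
  · have hp := hps t ht h
    rcases le_total t (171 / 1000) with h1 | h1
    · refine piece (q := 3 / 2) ?_ (pc1 ht h1)
      nlinarith [mul_nonneg ht (sub_nonneg.2 h1)]
    rcases le_total t (109 / 500) with h2 | h2
    · refine piece (q := 6 / 5) ?_ (pc2 h1 h2)
      nlinarith [mul_nonneg (sub_nonneg.2 h1) (sub_nonneg.2 h2)]
    rcases le_total t (1 / 4) with h3 | h3
    · refine piece (q := 21 / 20) ?_ (pc3 h2 h3)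
      nlinarith [mul_nonneg (sub_nonneg.2 h2) (sub_nonneg.2 h3)]
    rcases le_total t (289 / 1000) with h4 | h4
    · refine piece (q := 19 / 20) ?_ (pc4 h3 h4)
      nlinarith [mul_nonneg (sub_nonneg.2 h3) (sub_nonneg.2 h4)]
    rcases le_total t (47 / 125) with h5 | h5
    · refine piece (q := 17 / 20) ?_ (pc5 h4 h5)
      nlinarith [mul_nonneg (sub_nonneg.2 h4) (sub_nonneg.2 h5)]
    · refine piece (q := 11 / 20) ?_ (pc6 h5 h)
      nlinarith [mul_nonneg (sub_nonneg.2 h5) (sub_nonneg.2 h)]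
  · rcases le_total (1 / 8) (s ^ 2) with h1 | h1
    · have := rhs_neg h1
      nlinarith [sq_nonneg (t - s)]
    · have h2 : s ≤ 3536 / 10000 := by nlinarith
      have h3 : (1 / 2 - s) ^ 2 ≤ (t - s) ^ 2 :=
        pow_le_pow_left₀ (by linarith) (by linarith) 2
      have h4 : 7 / 100 * s ^ 2 - 14 / 25 * s ^ 4 ≤ 1 / 5 * (1 / 2 - s) ^ 2 := by
        nlinarith [sq_nonneg (s ^ 2 - 135 / 1000), sq_nonneg (s - 37 / 100)]
      linarith

theorem well_pos {T y : ℝ} (h0 : 0 ≤ T) (h1 : T ≤ 1 / 2) :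
    7 / 100 * y ^ 2 - 14 / 25 * y ^ 4 ≤ ph T + 1 / 5 * (T - y) ^ 2 := by
  rcases le_total T (38 / 100) with h2 | h2
  · have e1 : 1 / 8 * T ^ 2 ≤ ph T := by
      have e3 : 1 / 8 ≤ (T + 1) * (T + 1 / 2) ^ 2 * (1 / 2 - T) := by
        nlinarith [mul_nonneg h0 (sub_nonneg.2 h2), mul_nonneg (mul_nonneg h0 h0) (sub_nonneg.2 h2),
          mul_nonneg (mul_nonneg (mul_nonneg h0 h0) h0) (sub_nonneg.2 h2)]
      have e4 : ph T = (T + 1) * (T + 1 / 2) ^ 2 * (1 / 2 - T) * T ^ 2 := by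
        unfold ph
        ring
      rw [e4]
      exact mul_le_mul_of_nonneg_right e3 (sq_nonneg _)
    have e2 := rhs_le2 y
    nlinarith [sq_nonneg (13 * T - 8 * y)]
  · have e2 := rhs_le y
    rcases le_total T (47 / 100) with h3 | h3
    · have e1 : 3 / 1000 ≤ ph T := by
        unfold ph
        have g1 : (138 / 100 : ℝ) ≤ T + 1 := by linarith
        have g2 : (77 / 100 : ℝ) ≤ (T + 1 / 2) ^ 2 := by nlinarith
        have g3 : (144 / 1000 : ℝ) ≤ T ^ 2 := by nlinarith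
        have g4 : (3 / 100 : ℝ) ≤ 1 / 2 - T := by linarith
        have g5 : (138 / 100 : ℝ) * (77 / 100) ≤ (T + 1) * (T + 1 / 2) ^ 2 :=
          mul_le_mul g1 g2 (by norm_num) (by linarith)
        have g6 : (138 / 100 : ℝ) * (77 / 100) * (144 / 1000) ≤ (T + 1) * (T + 1 / 2) ^ 2 * T ^ 2 :=
          mul_le_mul g5 g3 (by norm_num) (by positivity)
        have g7 : (138 / 100 : ℝ) * (77 / 100) * (144 / 1000) * (3 / 100) ≤
            (T + 1) * (T + 1 / 2) ^ 2 * T ^ 2 * (1 / 2 - T) :=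
          mul_le_mul g6 g4 (by norm_num) (by positivity)
        norm_num at g7
        linarith
      nlinarith [sq_nonneg (T - y)]
    · have e1 := ph_nonneg (T := T) (by linarith) h1
      rcases le_total (1 / 8) (y ^ 2) with h4 | h4
      · have := rhs_neg h4
        nlinarith [sq_nonneg (T - y)]
      · have h5 : y ≤ 3536 / 10000 := by nlinarith
        nlinarith

/-- The well at 0. -/
theorem mor0 {T y : ℝ} (h0 : -1 ≤ T) (h1 : T ≤ 1 / 2) :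
    7 / 100 * y ^ 2 - 14 / 25 * y ^ 4 ≤ ph T + 1 / 5 * (T - y) ^ 2 := by
  rcases le_total 0 T with hT | hT
  · exact well_pos hT h1
  · have h := well_neg (t := -T) (s := -y) (by linarith) (by linarith)
    rw [neg_neg] at h
    have e3 : (-T - -y) ^ 2 = (T - y) ^ 2 := by ring
    have e4 : (-y) ^ 2 = y ^ 2 := by ring
    have e5 : (-y) ^ 4 = y ^ 4 := by ring
    rw [e3, e4, e5] at h
    exact h

/-- The contact value 1/2. -/
theorem mor_half {T y : ℝ} (h0 : -1 ≤ T) (h1 : T ≤ 1 / 2) :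
    7 / 100 * y ^ 2 - 14 / 25 * y ^ 4 ≤ ph T + 1 / 5 * (T - 1 / 2 - y) ^ 2 := by
  have hph := ph_nonneg h0 h1
  have e2 := rhs_le2 y
  rcases le_total 0 y with hy0 | hy0
  · nlinarith [mul_nonneg (sub_nonneg.2 h1) hy0]
  rcases le_total (1 / 8) (y ^ 2) with hb | hb
  · have := rhs_neg hb
    nlinarith [sq_nonneg (T - 1 / 2 - y)]
  have hy1 : -(3536 / 10000) ≤ y := by nlinarith
  have e3 := rhs_le y
  rcases le_total (1 / 4) T with h2 | h2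
  · -- `phi (1/2 - w) >= (43/1000) w >= (172/1000) w^2`
    have g : 172 / 1000 * (1 / 2 - T) ^ 2 ≤ ph T := by
      have g1 : (43 / 1000 : ℝ) ≤ (T + 1) * (T + 1 / 2) ^ 2 * T ^ 2 := by
        have f1 : (5 / 4 : ℝ) ≤ T + 1 := by linarith
        have f2 : (9 / 16 : ℝ) ≤ (T + 1 / 2) ^ 2 := by nlinarith
        have f3 : (1 / 16 : ℝ) ≤ T ^ 2 := by nlinarith
        have f4 : (5 / 4 : ℝ) * (9 / 16) ≤ (T + 1) * (T + 1 / 2) ^ 2 :=
          mul_le_mul f1 f2 (by norm_num) (by linarith)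
        have f5 : (5 / 4 : ℝ) * (9 / 16) * (1 / 16) ≤ (T + 1) * (T + 1 / 2) ^ 2 * T ^ 2 :=
          mul_le_mul f4 f3 (by norm_num) (by positivity)
        norm_num at f5
        linarith
      have g2 : 43 / 1000 * (1 / 2 - T) ≤ ph T := by
        unfold ph
        exact mul_le_mul_of_nonneg_right g1 (by linarith)
      nlinarith [mul_nonneg (sub_nonneg.2 h1) (sub_nonneg.2 h2)]
    nlinarith [sq_nonneg (172 * (1 / 2 - T) - 200 * (T - 1 / 2 - y)),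
      sq_nonneg (93 * (1 / 2 - T) + 50 * y)]
  rcases le_total (12 / 100) T with h3 | h3
  · have g : 22 / 10000 ≤ ph T := by
      have f1 : (112 / 100 : ℝ) ≤ T + 1 := by linarith
      have f2 : (384 / 1000 : ℝ) ≤ (T + 1 / 2) ^ 2 := by nlinarith
      have f3 : (144 / 10000 : ℝ) * (38 / 100) ≤ T ^ 2 * (1 / 2 - T) := by
        have f0 : 0 ≤ -T ^ 2 + 38 / 100 * T + 456 / 10000 := by nlinarith
        nlinarith [mul_nonneg (sub_nonneg.2 h3) f0]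
      have f4 : (112 / 100 : ℝ) * (384 / 1000) ≤ (T + 1) * (T + 1 / 2) ^ 2 :=
        mul_le_mul f1 f2 (by norm_num) (by linarith)
      have f5 : (112 / 100 : ℝ) * (384 / 1000) * ((144 / 10000 : ℝ) * (38 / 100)) ≤
          (T + 1) * (T + 1 / 2) ^ 2 * (T ^ 2 * (1 / 2 - T)) :=
        mul_le_mul f4 f3 (by norm_num) (by positivity)
      have f6 : ph T = (T + 1) * (T + 1 / 2) ^ 2 * (T ^ 2 * (1 / 2 - T)) := by
        unfold ph
        ring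
      rw [f6]
      norm_num at f5
      linarith
    nlinarith [sq_nonneg (T - 1 / 2 - y)]
  rcases le_total (9 / 100) T with h4 | h4
  · have g : 1 / 1000 ≤ ph T := by
      have f1 : (109 / 100 : ℝ) ≤ T + 1 := by linarith
      have f2 : (348 / 1000 : ℝ) ≤ (T + 1 / 2) ^ 2 := by nlinarith
      have f3 : (81 / 10000 : ℝ) * (38 / 100) ≤ T ^ 2 * (1 / 2 - T) := by nlinarith
      have f4 : (109 / 100 : ℝ) * (348 / 1000) ≤ (T + 1) * (T + 1 / 2) ^ 2 :=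
        mul_le_mul f1 f2 (by norm_num) (by linarith)
      have f5 : (109 / 100 : ℝ) * (348 / 1000) * ((81 / 10000 : ℝ) * (38 / 100)) ≤
          (T + 1) * (T + 1 / 2) ^ 2 * (T ^ 2 * (1 / 2 - T)) :=
        mul_le_mul f4 f3 (by norm_num) (by positivity)
      have f6 : ph T = (T + 1) * (T + 1 / 2) ^ 2 * (T ^ 2 * (1 / 2 - T)) := by
        unfold ph
        ring
      rw [f6]
      norm_num at f5
      linarith
    have g2 : (38 / 100 + y) ^ 2 ≤ (T - 1 / 2 - y) ^ 2 := by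
      have e : (T - 1 / 2 - y) ^ 2 = (1 / 2 - T + y) ^ 2 := by ring
      rw [e]
      exact pow_le_pow_left₀ (by linarith) (by linarith) 2
    have g3 : 7 / 100 * y ^ 2 - 14 / 25 * y ^ 4 ≤ 1 / 1000 + 1 / 5 * (38 / 100 + y) ^ 2 := by
      nlinarith [sq_nonneg (y ^ 2 - 99 / 1000), sq_nonneg (y + 315 / 1000)]
    linarith
  · have g2 : (41 / 100 + y) ^ 2 ≤ (T - 1 / 2 - y) ^ 2 := by
      have e : (T - 1 / 2 - y) ^ 2 = (1 / 2 - T + y) ^ 2 := by ring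
      rw [e]
      exact pow_le_pow_left₀ (by linarith) (by linarith) 2
    have g3 : 7 / 100 * y ^ 2 - 14 / 25 * y ^ 4 ≤ 1 / 5 * (41 / 100 + y) ^ 2 := by
      nlinarith [sq_nonneg (y ^ 2 - 1089 / 10000), sq_nonneg (y + 33 / 100)]
    linarith

/-- All four labels, every `y`. -/
theorem mor {l T y : ℝ} (hl : l = 1 / 2 ∨ l = 0 ∨ l = -1 / 2 ∨ l = -1) (h0 : -1 ≤ T)
    (h1 : T ≤ 1 / 2) :
    7 / 100 * y ^ 2 - 14 / 25 * y ^ 4 ≤ ph T + 1 / 5 * (T - l - y) ^ 2 := by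
  have e4 : (-y) ^ 2 = y ^ 2 := by ring
  have e5 : (-y) ^ 4 = y ^ 4 := by ring
  rcases hl with h | h | h | h
  · rw [h]
    exact mor_half h0 h1
  · rw [h, sub_zero]
    exact mor0 h0 h1
  · have h2 := mor0 (T := -1 / 2 - T) (y := -y) (by linarith) (by linarith)
    rw [ph_symm, e4, e5] at h2
    have e3 : (-1 / 2 - T - -y) ^ 2 = (T - l - y) ^ 2 := by rw [h]; ring
    rw [e3] at h2
    exact h2
  · have h2 := mor_half (T := -1 / 2 - T) (y := -y) (by linarith) (by linarith)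
    rw [ph_symm, e4, e5] at h2
    have e3 : (-1 / 2 - T - 1 / 2 - -y) ^ 2 = (T - l - y) ^ 2 := by rw [h]; ring
    rw [e3] at h2
    exact h2

/-! ### The polynomial part -/

theorem cub {Y : ℝ} (h0 : 0 ≤ Y) (h1 : Y ≤ 1 / 18) :
    Y * (25 / 4 - 225 / 2 * Y) ^ 2 ≤
      4 * (9 / 2 + 450 * Y) * (11 / 1000 - 223 / 800 * Y + 15 / 8 * Y ^ 2) := by
  nlinarith [mul_nonneg h0 (sq_nonneg (Y - 17 / 1000)), mul_nonneg h0 (sub_nonneg.2 h1),
    sq_nonneg (Y - 17 / 1000), mul_nonneg h0 (sq_nonneg Y)]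

theorem pair (a b : ℝ) :
    59 / 1000 * (a + b) ^ 2 + (a ^ 4 + b ^ 4) - 60 * (a ^ 6 + b ^ 6) - 13 / 2 * (a ^ 2 * b ^ 2) ≤
      7 / 100 * (a + b) ^ 2 - 14 / 25 * (a + b) ^ 4 := by
  obtain ⟨y, hy⟩ : ∃ y, y = a + b := ⟨_, rfl⟩
  obtain ⟨w, hw⟩ : ∃ w, w = (a - b) / 2 := ⟨_, rfl⟩
  have ha : a = y / 2 + w := by rw [hy, hw]; ring
  have hb : b = y / 2 - w := by rw [hy, hw]; ring
  obtain ⟨Y, hY⟩ : ∃ Y, Y = y ^ 2 := ⟨_, rfl⟩
  obtain ⟨X, hX⟩ : ∃ X, X = w ^ 2 := ⟨_, rfl⟩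
  have hY0 : 0 ≤ Y := by rw [hY]; positivity
  have hX0 : 0 ≤ X := by rw [hX]; positivity
  have e : 7 / 100 * (a + b) ^ 2 - 14 / 25 * (a + b) ^ 4 - (59 / 1000 * (a + b) ^ 2 +
      (a ^ 4 + b ^ 4) - 60 * (a ^ 6 + b ^ 6) - 13 / 2 * (a ^ 2 * b ^ 2)) =
      Y * (11 / 1000 - 223 / 800 * Y + 15 / 8 * Y ^ 2) - X * Y * (25 / 4 - 225 / 2 * Y)
        + X ^ 2 * (9 / 2 + 450 * Y) + 120 * X ^ 3 := by
    rw [ha, hb, hY, hX]
    ring
  have hX3 : 0 ≤ 120 * X ^ 3 := by positivity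
  have hC : 0 < 9 / 2 + 450 * Y := by positivity
  have hP : 0 ≤ 11 / 1000 - 223 / 800 * Y + 15 / 8 * Y ^ 2 := by
    nlinarith [sq_nonneg (Y - 223 / 3000)]
  have key : 0 ≤ Y * (11 / 1000 - 223 / 800 * Y + 15 / 8 * Y ^ 2) - X * Y * (25 / 4 - 225 / 2 * Y)
        + X ^ 2 * (9 / 2 + 450 * Y) := by
    rcases le_total Y (1 / 18) with h | h
    · have h1 := cub hY0 h
      have h2 : 0 ≤ (9 / 2 + 450 * Y) * (Y * (11 / 1000 - 223 / 800 * Y + 15 / 8 * Y ^ 2)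
          - X * Y * (25 / 4 - 225 / 2 * Y) + X ^ 2 * (9 / 2 + 450 * Y)) := by
        have h3 := mul_nonneg hY0 (sub_nonneg.2 h1)
        nlinarith [sq_nonneg ((9 / 2 + 450 * Y) * X - Y * (25 / 4 - 225 / 2 * Y) / 2)]
      exact nonneg_of_mul_nonneg_right h2 hC
    · have h1 : 25 / 4 - 225 / 2 * Y ≤ 0 := by linarith
      have h2 : 0 ≤ Y * (11 / 1000 - 223 / 800 * Y + 15 / 8 * Y ^ 2) := mul_nonneg hY0 hP
      have h3 : 0 ≤ X * Y * -(25 / 4 - 225 / 2 * Y) :=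
        mul_nonneg (mul_nonneg hX0 hY0) (by linarith)
      have h4 : 0 ≤ X ^ 2 * (9 / 2 + 450 * Y) := by positivity
      linarith
  linarith

/-- The uniform pointwise inequality. -/
theorem point {l T : ℝ} (a b : ℝ) (hl : l = 1 / 2 ∨ l = 0 ∨ l = -1 / 2 ∨ l = -1) (h0 : -1 ≤ T)
    (h1 : T ≤ 1 / 2) :
    59 / 1000 * (a + b) ^ 2 + (a ^ 4 + b ^ 4) - 60 * (a ^ 6 + b ^ 6) - 13 / 2 * (a ^ 2 * b ^ 2) ≤
      ph T + 1 / 5 * (T - l - (a + b)) ^ 2 :=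
  (pair a b).trans (mor hl h0 h1)

end SIM

end Pool.Agent.Lib.MP_f1379f_gt.FV
end

section
/-!
# MP_f1379f_gt, full Q1: trigonometric minorant

`cos^2 (pi w / 2) <= (1 - w^2)^2 (1 - w^2/9)` for `|w| <= 3`, i.e.
`(T+1)(T+1/2)^2 T^2 (1/2-T) >= (9/8192)(1 - cos (4 pi T))` on `[-1, 1/2]`.
-/
set_option autoImplicit false

namespace Pool.Agent.Lib.MP_f1379f_gt.FV

namespace TSAM

open Real

/-- First interval. -/
theorem low {w : ℝ} (h0 : 0 ≤ w) (h1 : w ≤ 62 / 100) :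
    cos (π * w / 2) ^ 2 ≤ (1 - w ^ 2) ^ 2 * (1 - w ^ 2 / 9) := by
  have hp := Real.pi_gt_d2
  have hp2 := Real.pi_lt_d2
  set t := π * w / 2 with ht
  have ht0 : 0 ≤ t := by positivity
  have ht1 : t ≤ 1 := by
    rw [ht]
    nlinarith
  have hb := Real.cos_bound (x := t) (by rw [abs_of_nonneg ht0]; exact ht1)
  rw [abs_of_nonneg ht0] at hb
  have hc : cos t ≤ 1 - t ^ 2 / 2 + t ^ 4 * (5 / 96) := by
    have := (abs_le.1 hb).2
    linarith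
  have hc0 : 0 ≤ cos t := by
    apply Real.cos_nonneg_of_neg_pi_div_two_le_of_le <;> linarith
  have hw : t ^ 2 = π ^ 2 / 4 * w ^ 2 := by rw [ht]; ring
  have hpl : (9.8596 : ℝ) ≤ π ^ 2 := by nlinarith
  have hv0 : 0 ≤ w ^ 2 := sq_nonneg w
  have hwle : w ^ 2 ≤ 4057 / 10000 * t ^ 2 := by
    rw [hw]
    nlinarith
  have h2 : cos t ^ 2 ≤ (1 - t ^ 2 / 2 + t ^ 4 * (5 / 96)) ^ 2 :=
    pow_le_pow_left₀ hc0 hc 2
  have hs0 : 0 ≤ t ^ 2 := sq_nonneg t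
  have hs1 : t ^ 2 ≤ 1 := by nlinarith
  have h3 : (1 - t ^ 2 / 2 + t ^ 4 * (5 / 96)) ^ 2 ≤
      (1 - 4057 / 10000 * t ^ 2) ^ 2 * (1 - 4057 / 10000 * t ^ 2 / 9) := by
    have : t ^ 4 = (t ^ 2) ^ 2 := by ring
    rw [this]
    set s := t ^ 2 with hs
    nlinarith [mul_nonneg hs0 (sub_nonneg.2 hs1), mul_nonneg (mul_nonneg hs0 hs0) (sub_nonneg.2 hs1),
      mul_nonneg (mul_nonneg (mul_nonneg hs0 hs0) hs0) (sub_nonneg.2 hs1)]
  have h4 : (1 - 4057 / 10000 * t ^ 2) ^ 2 * (1 - 4057 / 10000 * t ^ 2 / 9) ≤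
      (1 - w ^ 2) ^ 2 * (1 - w ^ 2 / 9) := by
    have e1 : 0 ≤ 1 - 4057 / 10000 * t ^ 2 := by linarith
    have e2 : 1 - 4057 / 10000 * t ^ 2 ≤ 1 - w ^ 2 := by linarith
    have e3 : (1 - 4057 / 10000 * t ^ 2) ^ 2 ≤ (1 - w ^ 2) ^ 2 := pow_le_pow_left₀ e1 e2 2
    exact mul_le_mul e3 (by linarith) (by linarith) (sq_nonneg _)
  linarith

/-- Middle and last interval. -/
theorem high {w : ℝ} (h0 : 62 / 100 ≤ w) (h1 : w ≤ 3) :
    cos (π * w / 2) ^ 2 ≤ (1 - w ^ 2) ^ 2 * (1 - w ^ 2 / 9) := by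
  have hp := Real.pi_gt_d2
  have hp2 := Real.pi_lt_d2
  have hpp : π ^ 2 ≤ 9.9225 := by nlinarith
  have hsq : ∀ x : ℝ, sin x ^ 2 ≤ x ^ 2 := fun x => by
    have := Real.abs_sin_le_abs (x := x)
    exact sq_le_sq.2 this
  rcases le_total w (27 / 10) with h2 | h2
  · have e1 : cos (π * w / 2) = sin (π * (1 - w) / 2) := by
      rw [← Real.cos_pi_div_two_sub]
      congr 1
      ring
    rw [e1]
    refine (hsq _).trans ?_
    have e2 : (π * (1 - w) / 2) ^ 2 = (1 - w) ^ 2 * (π ^ 2 / 4) := by ring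
    have e3 : (1 - w ^ 2) ^ 2 * (1 - w ^ 2 / 9) = (1 - w) ^ 2 * ((1 + w) ^ 2 * (1 - w ^ 2 / 9)) := by
      ring
    rw [e2, e3]
    apply mul_le_mul_of_nonneg_left _ (sq_nonneg _)
    nlinarith [mul_nonneg (sub_nonneg.2 h0) (sub_nonneg.2 h2),
      mul_nonneg (mul_nonneg (sub_nonneg.2 h0) (sub_nonneg.2 h2)) (by linarith : (0 : ℝ) ≤ w)]
  · have e1 : cos (π * w / 2) = -sin (π * (3 - w) / 2) := by
      have : π * w / 2 = (π / 2 - π * (3 - w) / 2) + π := by ring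
      rw [this, Real.cos_add_pi, Real.cos_pi_div_two_sub]
    rw [e1, neg_sq]
    refine (hsq _).trans ?_
    have e2 : (π * (3 - w) / 2) ^ 2 = (3 - w) * ((3 - w) * (π ^ 2 / 4)) := by ring
    have e3 : (1 - w ^ 2) ^ 2 * (1 - w ^ 2 / 9) = (3 - w) * ((w ^ 2 - 1) ^ 2 * ((3 + w) / 9)) := by
      ring
    rw [e2, e3]
    apply mul_le_mul_of_nonneg_left _ (sub_nonneg.2 h1)
    have e4 : (3 - w) * (π ^ 2 / 4) ≤ 1 := by nlinarith
    have e5 : 6 ≤ w ^ 2 - 1 := by nlinarith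
    have e6 : 36 ≤ (w ^ 2 - 1) ^ 2 := by nlinarith
    have e7 : 1 / 2 ≤ (3 + w) / 9 := by linarith
    nlinarith

theorem key {w : ℝ} (h : |w| ≤ 3) : cos (π * w / 2) ^ 2 ≤ (1 - w ^ 2) ^ 2 * (1 - w ^ 2 / 9) := by
  wlog h0 : 0 ≤ w generalizing w with H
  · have h1 := H (w := -w) (by rwa [abs_neg]) (by linarith)
    rw [neg_sq] at h1
    rwa [show π * -w / 2 = -(π * w / 2) by ring, Real.cos_neg] at h1
  rw [abs_of_nonneg h0] at h
  rcases le_total w (62 / 100) with h1 | h1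
  · exact low h0 h1
  · exact high h1 h

end TSAM

open TSAM in
/-- **Trigonometric minorant.** -/
theorem trig_minorant {T : ℝ} (h0 : -1 ≤ T) (h1 : T ≤ 1 / 2) :
    9 / 8192 * (1 - Real.cos (4 * Real.pi * T)) ≤
      (T + 1) * (T + 1 / 2) ^ 2 * T ^ 2 * (1 / 2 - T) := by
  have h := key (w := 4 * T + 1) (by rw [abs_le]; constructor <;> linarith)
  have e1 : 1 - Real.cos (4 * Real.pi * T) = 2 * Real.cos (Real.pi * (4 * T + 1) / 2) ^ 2 := by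
    have h2 : 4 * Real.pi * T = 2 * (Real.pi * (4 * T + 1) / 2) - Real.pi := by ring
    rw [h2, Real.cos_sub_pi, Real.cos_two_mul]
    ring
  rw [e1]
  have e2 : (T + 1) * (T + 1 / 2) ^ 2 * T ^ 2 * (1 / 2 - T) =
      9 / 4096 * ((1 - (4 * T + 1) ^ 2) ^ 2 * (1 - (4 * T + 1) ^ 2 / 9)) := by ring
  rw [e2]
  linarith

end Pool.Agent.Lib.MP_f1379f_gt.FV
end
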