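import Pool.Agent.Lib.MP_f1379f_gt.FV.IS4
import Pool.Agent.Lib.MP_f1379f_gt.FV.TRP

/-!
# MP_f1379f_gt, full Q1: the trigonometric star, product formula

In the coordinates of the extended Hamming code the 56 neighbours of `x0 = (1,0,..,0)` are
`(1/2)(e_0 ± e_j ± e_k ± e_l)`, `{j,k,l}` a line of the Fano plane.
-/

set_option autoImplicit false

namespace Pool.Agent.Lib.MP_f1379f_gt.FV

open Finset

namespace TSM

/-- The seven lines. -/
def ln : Fin 7 → Fin 3 → Fin 8 :=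
  ![![1, 2, 3], ![1, 4, 5], ![2, 4, 6], ![3, 5, 6], ![2, 5, 7], ![3, 4, 7], ![1, 6, 7]]

/-- Sign of a boolean. -/
def sb (b : Bool) : ℤ := if b then -1 else 1

/-- Integer coordinates of twice a neighbour of `x0`. -/
def nv (p : Fin 7 × (Bool × Bool × Bool)) : Fin 8 → ℤ := fun i =>
  if i = 0 then 1 else if i = ln p.1 0 then sb p.2.1 else if i = ln p.1 1 then sb p.2.2.1
    else if i = ln p.1 2 then sb p.2.2.2 else 0

theorem nv_RZ : ∀ p : Fin 7 × (Bool × Bool × Bool), (∀ m, nv p m ∈ ({-2, -1, 0, 1, 2} : Finset ℤ)) ∧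
    EV.InL (nv p) ∧ ∑ i, nv p i ^ 2 = 4 := by
  decide +kernel

theorem nv_inj : ∀ p q : Fin 7 × (Bool × Bool × Bool), nv p = nv q → p = q := by
  decide +kernel

/-- The base point. -/
noncomputable def x0 : E := (1 / 2 : ℝ) • EV.vec (Pi.single 0 2)

theorem x0_mem : x0 ∈ UE := IS4M.mem_UE_of (IS4M.single_RZ 0)

theorem vec_apply (n : Fin 8 → ℤ) (i : Fin 8) : EV.vec n i = (n i : ℝ) := rfl

theorem inner_half (u : E) (n : Fin 8 → ℤ) :
    (inner ℝ u ((1 / 2 : ℝ) • EV.vec n) : ℝ) = ∑ i, u i * (n i : ℝ) / 2 := by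
  rw [real_inner_smul_right, EV.COVM.inner_vec, Finset.mul_sum]
  refine Finset.sum_congr rfl fun i _ => ?_
  ring

theorem inner_x0 (u : E) : (inner ℝ u x0 : ℝ) = u 0 := by
  unfold x0
  rw [inner_half, Finset.sum_eq_single 0]
  · simp
  · intro i _ hi
    simp [hi]
  · intro h
    exact absurd (Finset.mem_univ _) h

/-- The 56 neighbours. -/
noncomputable def bv (p : Fin 7 × (Bool × Bool × Bool)) : E := (1 / 2 : ℝ) • EV.vec (nv p)

theorem bv_inj : Function.Injective bv := by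
  intro p q h
  unfold bv at h
  have h1 : EV.vec (nv p) = EV.vec (nv q) := by
    have h2 := congrArg (fun v : E => (2 : ℝ) • v) h
    simpa [smul_smul] using h2
  exact nv_inj p q (EV.ROTM.vec_inj h1)

theorem bv_nb (p : Fin 7 × (Bool × Bool × Bool)) : bv p ∈ nb x0 := by
  rw [UMO.mem_nb]
  refine ⟨IS4M.mem_UE_of (nv_RZ p), ?_⟩
  rw [inner_x0]
  unfold bv
  simp [vec_apply, nv]

theorem nb_eq : nb x0 = Finset.univ.image bv := by
  classical
  symm
  apply Finset.eq_of_subset_of_card_le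
  · intro b hb
    obtain ⟨p, _, rfl⟩ := Finset.mem_image.1 hb
    exact bv_nb p
  · rw [AllO.hUEF.c56 x0 x0_mem, Finset.card_image_of_injective _ bv_inj]
    decide

theorem sum_nb (F : E → ℝ) : ∑ b ∈ nb x0, F b = ∑ p, F (bv p) := by
  rw [nb_eq, Finset.sum_image fun p _ q _ h => bv_inj h]

theorem nv_eq : ∀ (L : Fin 7) (b1 b2 b3 : Bool) (i : Fin 8), nv (L, b1, b2, b3) i =
    (if i = 0 then 1 else 0) + (if i = ln L 0 then sb b1 else 0) +
      (if i = ln L 1 then sb b2 else 0) + (if i = ln L 2 then sb b3 else 0) := by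
  decide +kernel

theorem inner_bv (u : E) (L : Fin 7) (b1 b2 b3 : Bool) : (inner ℝ u (bv (L, b1, b2, b3)) : ℝ) =
    (u 0 + (sb b1 : ℝ) * u (ln L 0) + (sb b2 : ℝ) * u (ln L 1) + (sb b3 : ℝ) * u (ln L 2)) / 2 := by
  unfold bv
  rw [inner_half]
  have h : ∀ i, u i * (nv (L, b1, b2, b3) i : ℝ) / 2 =
      (if i = 0 then u i / 2 else 0) + (if i = ln L 0 then u i * (sb b1 : ℝ) / 2 else 0) +
      (if i = ln L 1 then u i * (sb b2 : ℝ) / 2 else 0) +
      (if i = ln L 2 then u i * (sb b3 : ℝ) / 2 else 0) := by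
    intro i
    rw [nv_eq]
    push_cast
    split_ifs <;> ring
  rw [Finset.sum_congr rfl fun i _ => h i]
  simp only [Finset.sum_add_distrib, Finset.sum_ite_eq', Finset.mem_univ, if_true]
  ring

/-- The product formula for one line. -/
theorem cos_line (a b c d : ℝ) : ∑ p : Bool × Bool × Bool,
    Real.cos (a + (sb p.1 : ℝ) * b + (sb p.2.1 : ℝ) * c + (sb p.2.2 : ℝ) * d) =
      8 * (Real.cos a * (Real.cos b * Real.cos c * Real.cos d)) := by
  simp only [Fintype.sum_prod_type, Fintype.sum_bool, sb, Int.cast_neg, Int.cast_one, if_true,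
    Bool.false_eq_true, if_false, one_mul, neg_one_mul, Real.cos_add, Real.sin_add, Real.cos_neg,
    Real.sin_neg]
  ring

/-- Cosine of a coordinate. -/
noncomputable def cc (u : E) (i : Fin 8) : ℝ := Real.cos (2 * Real.pi * u i)

/-- **Product formula.** -/
theorem sum_cos (u : E) : ∑ b ∈ nb x0, Real.cos (4 * Real.pi * (inner ℝ u b : ℝ)) =
    8 * (cc u 0 * ∑ L, cc u (ln L 0) * cc u (ln L 1) * cc u (ln L 2)) := by
  rw [sum_nb, Fintype.sum_prod_type, Finset.mul_sum, Finset.mul_sum]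
  refine Finset.sum_congr rfl fun L _ => ?_
  unfold cc
  rw [← cos_line]
  refine Finset.sum_congr rfl fun p _ => ?_
  obtain ⟨b1, b2, b3⟩ := p
  rw [inner_bv]
  congr 1
  ring

end TSM

end Pool.Agent.Lib.MP_f1379f_gt.FV
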