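import Pool.Agent.Lib.MP_f1379f_gt.FV.TSA
import Pool.Agent.Lib.MP_f1379f_gt.FV.TSB

/-!
# MP_f1379f_gt, full Q1: the trigonometric star, labelling

If `sum_{b in nb x} (1 - cos (4 pi <u,b>)) < 24` and `|u|^2` is in `[95/100, 1]` then there is a
root `f` with `|u - f|^2 <= 19/250`.
-/

set_option autoImplicit false

namespace Pool.Agent.Lib.MP_f1379f_gt.FV

open Finset

namespace TSM

/-! ### The polynomial inequality -/

/-- Sum over the lines. -/
noncomputable def fl (y : Fin 8 → ℝ) : ℝ := ∑ L, y (ln L 0) * y (ln L 1) * y (ln L 2)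

theorem fl_eq (y : Fin 8 → ℝ) : fl y = y 1 * y 2 * y 3 + y 1 * y 4 * y 5 + y 2 * y 4 * y 6
    + y 3 * y 5 * y 6 + y 2 * y 5 * y 7 + y 3 * y 4 * y 7 + y 1 * y 6 * y 7 := by
  unfold fl
  rw [Fin.sum_univ_seven]
  rfl

theorem fl_mono {y z : Fin 8 → ℝ} (h0 : ∀ i, 0 ≤ y i) (h : ∀ i, y i ≤ z i) : fl y ≤ fl z := by
  unfold fl
  refine Finset.sum_le_sum fun L _ => ?_
  have hz : ∀ i, 0 ≤ z i := fun i => (h0 i).trans (h i)
  exact mul_le_mul (mul_le_mul (h _) (h _) (h0 _) (hz _)) (h _) (h0 _)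
    (mul_nonneg (hz _) (hz _))

theorem fl_quad {x : Fin 8 → ℝ} (h0 : ∀ i, 0 ≤ x i) : fl (fun i => 1 - x i) ≤
    7 - 3 * (x 1 + x 2 + x 3 + x 4 + x 5 + x 6 + x 7)
      + 3 / 7 * (x 1 + x 2 + x 3 + x 4 + x 5 + x 6 + x 7) ^ 2 := by
  rw [fl_eq]
  have hc : 0 ≤ x 1 * x 2 * x 3 + x 1 * x 4 * x 5 + x 2 * x 4 * x 6
    + x 3 * x 5 * x 6 + x 2 * x 5 * x 7 + x 3 * x 4 * x 7 + x 1 * x 6 * x 7 := by
    have h1 := h0 1
    have h2 := h0 2
    have h3 := h0 3
    have h4 := h0 4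
    have h5 := h0 5
    have h6 := h0 6
    have h7 := h0 7
    positivity
  have hs : (x 1 + x 2 + x 3 + x 4 + x 5 + x 6 + x 7) ^ 2 ≤
      7 * (x 1 ^ 2 + x 2 ^ 2 + x 3 ^ 2 + x 4 ^ 2 + x 5 ^ 2 + x 6 ^ 2 + x 7 ^ 2) := by
    have h := sq_sum_le_card_mul_sum_sq (s := (Finset.univ : Finset (Fin 7)))
      (f := fun i => x i.succ)
    rw [Fin.sum_univ_seven, Fin.sum_univ_seven, Finset.card_univ, Fintype.card_fin] at h
    exact_mod_cast h
  nlinarith [hc, hs]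

theorem quad_fin {z X : ℝ} (hz : 0 ≤ z) (h : z + X = 6044 / 5000) :
    (1 - z) * (7 - 3 * X + 3 / 7 * X ^ 2) ≤ 4 := by
  have hX1 : X ≤ 6044 / 5000 := by linarith
  have e1 : (1 - z) * (7 - 3 * X + 3 / 7 * X ^ 2) ≤ 7 - 3 * (z + X) + 3 / 7 * (z + X) ^ 2 := by
    have : 0 ≤ z * (4 - 15 / 7 * X + 3 / 7 * z + 3 / 7 * X ^ 2) := by
      apply mul_nonneg hz
      nlinarith [sq_nonneg X]
    nlinarith
  rw [h] at e1
  norm_num at e1 ⊢
  linarith

theorem sum_lt {x : Fin 8 → ℝ} (h0 : ∀ i, 0 ≤ x i) (h1 : ∀ i, x i ≤ 1)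
    (h : 4 < (1 - x 0) * fl (fun i => 1 - x i)) : ∑ i, x i ≤ 6044 / 5000 := by
  by_contra hlt
  push Not at hlt
  set Y := ∑ i, x i with hY
  have hY0 : 0 < Y := lt_trans (by norm_num) hlt
  set c : ℝ := 6044 / 5000 / Y with hc
  have hc0 : 0 ≤ c := by positivity
  have hc1 : c ≤ 1 := by
    rw [hc, div_le_one hY0]
    exact hlt.le
  have hx' : ∀ i, c * x i ≤ x i := fun i => by nlinarith [h0 i]
  have hm := fl_mono (y := fun i => 1 - x i) (z := fun i => 1 - c * x i)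
    (fun i => by linarith [h1 i]) (fun i => by linarith [hx' i])
  have hq := fl_quad (x := fun i => c * x i) (fun i => mul_nonneg hc0 (h0 i))
  have hfl0 : 0 ≤ fl (fun i => 1 - x i) := by
    unfold fl
    refine Finset.sum_nonneg fun L _ => ?_
    exact mul_nonneg (mul_nonneg (by linarith [h1 (ln L 0)]) (by linarith [h1 (ln L 1)]))
      (by linarith [h1 (ln L 2)])
  have e1 : (1 - x 0) * fl (fun i => 1 - x i) ≤ (1 - c * x 0) * fl (fun i => 1 - c * x i) :=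
    mul_le_mul (by linarith [hx' 0]) hm hfl0 (by linarith [hx' 0, h1 0])
  have hsum : c * x 0 + (c * x 1 + c * x 2 + c * x 3 + c * x 4 + c * x 5 + c * x 6 + c * x 7) =
      6044 / 5000 := by
    have : c * Y = 6044 / 5000 := by
      rw [hc]
      field_simp
    rw [← this, hY, Fin.sum_univ_eight]
    ring
  have e2 := quad_fin (mul_nonneg hc0 (h0 0)) hsum
  have e3 : (1 - c * x 0) * fl (fun i => 1 - c * x i) ≤ (1 - c * x 0) *
      (7 - 3 * (c * x 1 + c * x 2 + c * x 3 + c * x 4 + c * x 5 + c * x 6 + c * x 7)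
      + 3 / 7 * (c * x 1 + c * x 2 + c * x 3 + c * x 4 + c * x 5 + c * x 6 + c * x 7) ^ 2) :=
    mul_le_mul_of_nonneg_left hq (by linarith [hx' 0, h1 0])
  linarith

/-! ### Parity -/

/-- Parity of a line. -/
def pl (q : Fin 8 → Bool) (L : Fin 7) : Bool :=
  xor (q 0) (xor (q (ln L 0)) (xor (q (ln L 1)) (q (ln L 2))))

theorem pl_all : ∀ q : Fin 8 → Bool,
    5 ≤ (Finset.univ.filter fun L => pl q L = false).card → ∀ L, pl q L = false := by
  decide +kernel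

/-- Parity of an integer. -/
def od (n : ℤ) : Bool := decide (n % 2 = 1)

theorem od_cases (n : ℤ) : (n % 2 = 0 ∧ od n = false) ∨ (n % 2 = 1 ∧ od n = true) := by
  unfold od
  rcases Int.emod_two_eq_zero_or_one n with h | h
  · left
    simp [h]
  · right
    simp [h]

theorem pl_even {a b c d : ℤ} (h : xor (od a) (xor (od b) (xor (od c) (od d))) = false) :
    2 ∣ a + b + c + d := by
  rcases od_cases a with ⟨ha, ha'⟩ | ⟨ha, ha'⟩ <;> rcases od_cases b with ⟨hb, hb'⟩ | ⟨hb, hb'⟩ <;>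
    rcases od_cases c with ⟨hc, hc'⟩ | ⟨hc, hc'⟩ <;> rcases od_cases d with ⟨hd, hd'⟩ | ⟨hd, hd'⟩ <;>
    rw [ha', hb', hc', hd'] at h <;> first | (exfalso; revert h; decide) | omega

theorem pl_odd {a b c d : ℤ} (h : xor (od a) (xor (od b) (xor (od c) (od d))) = true) :
    ¬ 2 ∣ a + b + c + d := by
  rcases od_cases a with ⟨ha, ha'⟩ | ⟨ha, ha'⟩ <;> rcases od_cases b with ⟨hb, hb'⟩ | ⟨hb, hb'⟩ <;>
    rcases od_cases c with ⟨hc, hc'⟩ | ⟨hc, hc'⟩ <;> rcases od_cases d with ⟨hd, hd'⟩ | ⟨hd, hd'⟩ <;>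
    rw [ha', hb', hc', hd'] at h <;> first | (exfalso; revert h; decide) | omega

theorem inL_of {m : Fin 8 → ℤ} (h : ∀ L, pl (fun i => od (m i)) L = false) : EV.InL m := by
  have h0 : 2 ∣ m 0 + m 1 + m 2 + m 3 := pl_even (h 0)
  have h1 : 2 ∣ m 0 + m 1 + m 4 + m 5 := pl_even (h 1)
  have h2 : 2 ∣ m 0 + m 2 + m 4 + m 6 := pl_even (h 2)
  have h6 : 2 ∣ m 0 + m 1 + m 6 + m 7 := pl_even (h 6)
  refine ⟨h0, h1, h2, ?_⟩
  rw [Fin.sum_univ_eight]
  omega

/-! ### Rounding -/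

/-- Nearest integer to `2 u i`. -/
noncomputable def rm (u : E) (i : Fin 8) : ℤ := round (2 * u i)

/-- Remainder. -/
noncomputable def rd (u : E) (i : Fin 8) : ℝ := 2 * u i - rm u i

/-- Absolute value of the cosine. -/
noncomputable def ca (u : E) (i : Fin 8) : ℝ := Real.cos (Real.pi * rd u i)

theorem rd_abs (u : E) (i : Fin 8) : |rd u i| ≤ 1 / 2 := abs_sub_round _

theorem ca_nonneg (u : E) (i : Fin 8) : 0 ≤ ca u i := by
  have h := abs_le.1 (rd_abs u i)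
  have hp := Real.pi_pos
  unfold ca
  apply Real.cos_nonneg_of_neg_pi_div_two_le_of_le <;> nlinarith [h.1, h.2]

theorem ca_le (u : E) (i : Fin 8) : ca u i ≤ 1 := Real.cos_le_one _

theorem cc_eq (u : E) (i : Fin 8) : cc u i = (if od (rm u i) then -1 else 1) * ca u i := by
  unfold cc ca
  have h : 2 * Real.pi * u i = Real.pi * rd u i + (rm u i : ℝ) * Real.pi := by
    unfold rd
    ring
  rw [h, Real.cos_add_int_mul_pi]
  congr 1
  rcases od_cases (rm u i) with ⟨h1, h2⟩ | ⟨h1, h2⟩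
  · rw [h2, Even.neg_one_zpow (Int.even_iff.2 h1)]
    simp
  · rw [h2, Odd.neg_one_zpow (Int.odd_iff.2 h1)]
    simp

/-- The remainder is controlled by the cosine. -/
theorem rd_le (u : E) (i : Fin 8) : 4 * rd u i ^ 2 ≤ 1 - ca u i := by
  have h := abs_le.1 (rd_abs u i)
  have hw : |2 * rd u i| ≤ 3 := by
    rw [abs_le]
    constructor <;> linarith [h.1, h.2]
  have h1 := TSAM.key hw
  have e1 : Real.pi * (2 * rd u i) / 2 = Real.pi * rd u i := by ring
  rw [e1] at h1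
  have h2 : rd u i ^ 2 ≤ 1 / 4 := by nlinarith [h.1, h.2]
  have h3 : Real.cos (Real.pi * rd u i) ^ 2 ≤ (1 - 4 * rd u i ^ 2) ^ 2 := by
    refine h1.trans ?_
    have e2 : (2 * rd u i) ^ 2 = 4 * rd u i ^ 2 := by ring
    rw [e2]
    have : 0 ≤ rd u i ^ 2 := sq_nonneg _
    nlinarith [sq_nonneg (1 - 4 * rd u i ^ 2)]
  have h4 : 0 ≤ 1 - 4 * rd u i ^ 2 := by linarith
  have h5 := abs_le_of_sq_le_sq' h3 h4
  have h6 : ca u i = Real.cos (Real.pi * rd u i) := rfl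
  rw [h6]
  linarith [h5.2]

/-- Sign of a boolean in `ℝ`. -/
noncomputable def sr (b : Bool) : ℝ := if b then -1 else 1

theorem sr_mul (a b c d : Bool) : sr a * (sr b * sr c * sr d) = sr (xor a (xor b (xor c d))) := by
  cases a <;> cases b <;> cases c <;> cases d <;> simp [sr]

theorem term_eq (u : E) (L : Fin 7) : cc u 0 * (cc u (ln L 0) * cc u (ln L 1) * cc u (ln L 2)) =
    sr (pl (fun i => od (rm u i)) L) *
      (ca u 0 * (ca u (ln L 0) * ca u (ln L 1) * ca u (ln L 2))) := by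
  have h : ∀ i, cc u i = sr (od (rm u i)) * ca u i := fun i => cc_eq u i
  have h2 : sr (pl (fun i => od (rm u i)) L) = sr (od (rm u 0)) * (sr (od (rm u (ln L 0))) *
      sr (od (rm u (ln L 1))) * sr (od (rm u (ln L 2)))) := (sr_mul _ _ _ _).symm
  rw [h2, h 0, h (ln L 0), h (ln L 1), h (ln L 2)]
  ring

theorem prod_le (u : E) (L : Fin 7) :
    0 ≤ ca u 0 * (ca u (ln L 0) * ca u (ln L 1) * ca u (ln L 2)) ∧
      ca u 0 * (ca u (ln L 0) * ca u (ln L 1) * ca u (ln L 2)) ≤ 1 := by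
  have h0 := ca_nonneg u
  have h1 := ca_le u
  have e1 := mul_nonneg (h0 (ln L 0)) (h0 (ln L 1))
  have e2 := mul_nonneg e1 (h0 (ln L 2))
  have f1 := mul_le_one₀ (h1 (ln L 0)) (h0 (ln L 1)) (h1 (ln L 1))
  have f2 := mul_le_one₀ f1 (h0 (ln L 2)) (h1 (ln L 2))
  exact ⟨mul_nonneg (h0 0) e2, mul_le_one₀ (h1 0) e2 f2⟩

/-- Core of the labelling: the rounded point is in the lattice and close. -/
theorem round_core {u : E}
    (h : 4 < cc u 0 * ∑ L, cc u (ln L 0) * cc u (ln L 1) * cc u (ln L 2)) :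
    EV.InL (rm u) ∧ ∑ i, (u i - (rm u i : ℝ) / 2) ^ 2 ≤ 6044 / 80000 := by
  classical
  rw [Finset.mul_sum, Finset.sum_congr rfl fun L _ => term_eq u L] at h
  have h5 : 5 ≤ (Finset.univ.filter fun L => pl (fun i => od (rm u i)) L = false).card := by
    have h1 : ∑ L, sr (pl (fun i => od (rm u i)) L) *
        (ca u 0 * (ca u (ln L 0) * ca u (ln L 1) * ca u (ln L 2))) ≤
        ∑ L, if pl (fun i => od (rm u i)) L = false then (1 : ℝ) else 0 := by
      refine Finset.sum_le_sum fun L _ => ?_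
      obtain ⟨g0, g1⟩ := prod_le u L
      by_cases hq : pl (fun i => od (rm u i)) L = false
      · rw [if_pos hq, hq]
        simpa [sr] using g1
      · rw [if_neg hq]
        rw [Bool.not_eq_false] at hq
        rw [hq]
        simp only [sr, if_true]
        linarith
    rw [← Finset.sum_filter, Finset.sum_const, nsmul_eq_mul, mul_one] at h1
    have h2 : (4 : ℝ) < ((Finset.univ.filter fun L => pl (fun i => od (rm u i)) L = false).card : ℝ) :=
      lt_of_lt_of_le h h1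
    exact_mod_cast h2
  have hall := pl_all _ h5
  refine ⟨inL_of hall, ?_⟩
  have h6 : 4 < ca u 0 * fl (ca u) := by
    refine lt_of_lt_of_eq h ?_
    unfold fl
    rw [Finset.mul_sum]
    refine Finset.sum_congr rfl fun L _ => ?_
    rw [hall L]
    simp [sr]
  have h7 := sum_lt (x := fun i => 1 - ca u i) (fun i => by linarith [ca_le u i])
    (fun i => by linarith [ca_nonneg u i]) (by
      have e1 : (fun i => 1 - (fun i => 1 - ca u i) i) = ca u := by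
        funext i
        simp
      rw [e1]
      simpa using h6)
  have h8 : ∑ i, (u i - (rm u i : ℝ) / 2) ^ 2 ≤ ∑ i, (1 - ca u i) / 16 := by
    refine Finset.sum_le_sum fun i _ => ?_
    have e1 := rd_le u i
    have e2 : u i - (rm u i : ℝ) / 2 = rd u i / 2 := by
      unfold rd
      ring
    rw [e2]
    nlinarith
  rw [← Finset.sum_div] at h8
  linarith

theorem norm_sub_half (u : E) (m : Fin 8 → ℤ) :
    ‖u - (1 / 2 : ℝ) • EV.vec m‖ ^ 2 = ∑ i, (u i - (m i : ℝ) / 2) ^ 2 := by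
  rw [EuclideanSpace.norm_sq_eq]
  refine Finset.sum_congr rfl fun i _ => ?_
  rw [Real.norm_eq_abs, sq_abs]
  congr 1
  simp only [PiLp.sub_apply, PiLp.smul_apply, smul_eq_mul, vec_apply]
  ring

theorem norm_half (m : Fin 8 → ℤ) :
    ‖(1 / 2 : ℝ) • EV.vec m‖ ^ 2 = ((∑ i, m i ^ 2 : ℤ) : ℝ) / 4 := by
  have h := norm_sub_half 0 m
  rw [zero_sub, norm_neg] at h
  rw [h]
  push_cast
  rw [Finset.sum_div]
  refine Finset.sum_congr rfl fun i _ => ?_
  simp
  ring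

/-- Labelling at the base point. -/
theorem label0 {u : E} (h0 : 95 / 100 ≤ ‖u‖ ^ 2) (h1 : ‖u‖ ^ 2 ≤ 1)
    (h : ∑ b ∈ nb x0, (1 - Real.cos (4 * Real.pi * (inner ℝ u b : ℝ))) < 24) :
    ∃ f ∈ UE, ‖u - f‖ ^ 2 ≤ 19 / 250 := by
  rw [Finset.sum_sub_distrib, Finset.sum_const, nsmul_eq_mul, mul_one,
    AllO.hUEF.c56 x0 x0_mem, sum_cos] at h
  have h2 : 4 < cc u 0 * ∑ L, cc u (ln L 0) * cc u (ln L 1) * cc u (ln L 2) := by
    push_cast at h
    linarith
  obtain ⟨hL, hd⟩ := round_core h2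
  set f : E := (1 / 2 : ℝ) • EV.vec (rm u) with hf
  have hd' : ‖u - f‖ ^ 2 ≤ 6044 / 80000 := by
    rw [hf, norm_sub_half]
    exact hd
  have hn : ‖f‖ ^ 2 = ((∑ i, rm u i ^ 2 : ℤ) : ℝ) / 4 := norm_half _
  have hs := norm_nonneg (u - f)
  have hs1 : ‖u - f‖ ≤ 275 / 1000 := by nlinarith
  have hu0 : 974 / 1000 ≤ ‖u‖ := by nlinarith [norm_nonneg u]
  have hu1 : ‖u‖ ≤ 1 := by nlinarith [norm_nonneg u]
  have hf0 : 699 / 1000 ≤ ‖f‖ := by
    have := norm_sub_norm_le u f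
    linarith
  have hf1 : ‖f‖ ≤ 1275 / 1000 := by
    have := norm_sub_norm_le f u
    rw [norm_sub_rev] at this
    linarith
  have hq0 : 0 < ‖f‖ ^ 2 := by nlinarith
  have hq1 : ‖f‖ ^ 2 < 2 := by nlinarith
  rw [hn] at hq0 hq1
  have hi0 : (0 : ℤ) < ∑ i, rm u i ^ 2 := by
    have : (0 : ℝ) < ((∑ i, rm u i ^ 2 : ℤ) : ℝ) := by linarith
    exact_mod_cast this
  have hi1 : ∑ i, rm u i ^ 2 < (8 : ℤ) := by
    have : ((∑ i, rm u i ^ 2 : ℤ) : ℝ) < 8 := by linarith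
    exact_mod_cast this
  obtain ⟨k, hk⟩ := EV.VOLM.four_dvd (rm u) hL
  have h4 : ∑ i, rm u i ^ 2 = 4 := by omega
  refine ⟨f, ?_, by linarith⟩
  rw [hf]
  apply IS4M.mem_UE_of
  refine ⟨fun m => ?_, hL, h4⟩
  have hm : rm u m ^ 2 ≤ 4 := by
    rw [← h4]
    exact Finset.single_le_sum (f := fun i => rm u i ^ 2) (fun i _ => sq_nonneg _)
      (Finset.mem_univ m)
  have hm1 : rm u m ≤ 2 := by nlinarith
  have hm2 : -2 ≤ rm u m := by nlinarith
  have hm3 : rm u m = -2 ∨ rm u m = -1 ∨ rm u m = 0 ∨ rm u m = 1 ∨ rm u m = 2 := by omega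
  simp only [Finset.mem_insert, Finset.mem_singleton]
  exact hm3

theorem nb_map {x : E} (hx : x ∈ UE) {T : E ≃ₗᵢ[ℝ] E} (hT : ∀ f ∈ UE, T f ∈ UE) (h : T x0 = x)
    (F : E → ℝ) : ∑ b ∈ nb x, F b = ∑ b ∈ nb x0, F (T b) := by
  classical
  have h1 : nb x = (nb x0).image T := by
    symm
    apply Finset.eq_of_subset_of_card_le
    · intro b hb
      obtain ⟨c, hc, rfl⟩ := Finset.mem_image.1 hb
      rw [UMO.mem_nb] at hc ⊢
      refine ⟨hT c hc.1, ?_⟩
      rw [← h, LinearIsometryEquiv.inner_map_map]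
      exact hc.2
    · rw [AllO.hUEF.c56 x hx, Finset.card_image_of_injective _ T.injective,
        AllO.hUEF.c56 x0 x0_mem]
  rw [h1, Finset.sum_image fun p _ q _ g => T.injective g]

end TSM

open TSM in
/-- **Trigonometric star**: labelling of a point from its products with the neighbours of a root. -/
theorem trig_label {x : E} (hx : x ∈ UE) {u : E} (h0 : 95 / 100 ≤ ‖u‖ ^ 2) (h1 : ‖u‖ ^ 2 ≤ 1)
    (h : ∑ b ∈ nb x, (1 - Real.cos (4 * Real.pi * (inner ℝ u b : ℝ))) < 24) :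
    ∃ f ∈ UE, ‖u - f‖ ^ 2 ≤ 19 / 250 := by
  obtain ⟨T, hT, hTx⟩ := AllO.hTRA.one x0 x0_mem x hx
  rw [nb_map hx hT hTx] at h
  have h2 : ∀ b, (inner ℝ u (T b) : ℝ) = inner ℝ (T.symm u) b := by
    intro b
    rw [← LinearIsometryEquiv.inner_map_map T (T.symm u) b, LinearIsometryEquiv.apply_symm_apply]
  have h3 : ‖T.symm u‖ = ‖u‖ := LinearIsometryEquiv.norm_map _ _
  obtain ⟨f, hf, hd⟩ := label0 (u := T.symm u) (by rw [h3]; exact h0) (by rw [h3]; exact h1) (by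
    have e : ∀ b ∈ nb x0, (1 - Real.cos (4 * Real.pi * (inner ℝ (T.symm u) b : ℝ))) =
        1 - Real.cos (4 * Real.pi * (inner ℝ u (T b) : ℝ)) := fun b _ => by rw [h2 b]
    rw [Finset.sum_congr rfl e]
    exact h)
  refine ⟨T f, hT f hf, ?_⟩
  have h4 : ‖u - T f‖ = ‖T.symm u - f‖ := by
    rw [← LinearIsometryEquiv.norm_map T (T.symm u - f), map_sub,
      LinearIsometryEquiv.apply_symm_apply]
  rw [h4]
  exact hd

end Pool.Agent.Lib.MP_f1379f_gt.FV
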