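import Pool.Agent.Lib.MP_f1379f_gt.FV.L1C
import Pool.Agent.Lib.MP_f1379f_gt.FV.TSC
import Pool.Agent.Lib.MP_f1379f_gt.FV.TSA
import Pool.Agent.Lib.MP_f1379f_gt.FV.TRP
import Pool.Agent.Lib.MP_f1379f_gt.FV.NRP

section
/-!
# MP_f1379f_gt, STAB2: the mixed quartic sum of the inliers
-/
set_option autoImplicit false

open Finset

namespace Pool.Agent.Lib.MP_f1379f_gt.FV

namespace GAMM

theorem polyq {t : ℝ} (h0 : 0 ≤ t) :
    t ^ 2 ≤ 1 / 4 + 17 / 10 * (t * (t - 1 / 4) ^ 2) := by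
  nlinarith [mul_nonneg h0 (sq_nonneg (t - 7 / 10)), sq_nonneg (t - 7 / 10), sq_nonneg (t - 1 / 4),
    mul_nonneg h0 (sq_nonneg (t - 1 / 4))]

/-- Normalised square. -/
noncomputable def tq (v f : E) : ℝ := (inner ℝ v f : ℝ) ^ 2 / ‖v‖ ^ 2

theorem tq_nonneg (v f : E) : 0 ≤ tq v f := div_nonneg (sq_nonneg _) (sq_nonneg _)

theorem tq_le_one {v f : E} (hf : f ∈ UE) : tq v f ≤ 1 := by
  unfold tq
  apply div_le_one_of_le₀ _ (sq_nonneg _)
  have h1 := abs_real_inner_le_norm v f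
  rw [AllO.hUEF.nrm f hf, mul_one] at h1
  rw [← sq_abs]
  exact pow_le_pow_left₀ (abs_nonneg _) h1 2

theorem tq_mul (v f : E) : (inner ℝ v f : ℝ) ^ 2 = ‖v‖ ^ 2 * tq v f := by
  unfold tq
  by_cases h : v = 0
  · rw [h]
    simp
  · have h1 : ‖v‖ ^ 2 ≠ 0 := pow_ne_zero 2 (norm_ne_zero_iff.mpr h)
    field_simp

theorem tq_sum {v : E} (hv : v ≠ 0) :
    ∑ f ∈ UE, tq v f * (tq v f - 1 / 4) ^ 2 = 9 / 8 := by
  have h1 : ‖v‖ ≠ 0 := norm_ne_zero_iff.mpr hv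
  have h2 : ∀ f : E, tq v f * (tq v f - 1 / 4) ^ 2 = (inner ℝ v f : ℝ) ^ 6 / ‖v‖ ^ 6
      - 1 / 2 * ((inner ℝ v f : ℝ) ^ 4 / ‖v‖ ^ 4)
      + 1 / 16 * ((inner ℝ v f : ℝ) ^ 2 / ‖v‖ ^ 2) := by
    intro f
    unfold tq
    field_simp
    ring
  rw [sum_congr rfl fun f _ => h2 f, sum_add_distrib, sum_sub_distrib, ← mul_sum, ← mul_sum,
    ← sum_div, ← sum_div, ← sum_div, L1M.m6, UMO.m4, UMO.m2]
  field_simp
  norm_num

end GAMM

open GAMM in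
/-- **Gamma.** -/
theorem gam {I : Finset E} (hI : I ⊆ UE) (v : E → E) {m : ℝ}
    (hm : ∀ e ∈ I, ‖v e‖ ^ 2 ≤ m) :
    ∑ e ∈ I, ∑ f ∈ I, (inner ℝ (v e) f : ℝ) ^ 2 * (inner ℝ (v f) e : ℝ) ^ 2 ≤
      (∑ e ∈ I, ‖v e‖ ^ 2) * ((∑ e ∈ I, ‖v e‖ ^ 2) / 4 + 153 / 80 * m) := by
  set s : E → ℝ := fun e => ‖v e‖ ^ 2 with hs
  have hs0 : ∀ e, 0 ≤ s e := fun e => sq_nonneg _
  have h1 : ∑ e ∈ I, ∑ f ∈ I, (inner ℝ (v e) f : ℝ) ^ 2 * (inner ℝ (v f) e : ℝ) ^ 2 ≤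
      ∑ e ∈ I, ∑ f ∈ I, (1 / 2 * (s e * s f * tq (v e) f ^ 2)
        + 1 / 2 * (s f * s e * tq (v f) e ^ 2)) := by
    refine sum_le_sum fun e _ => sum_le_sum fun f _ => ?_
    rw [tq_mul, tq_mul]
    have h2 : 0 ≤ s e * s f := mul_nonneg (hs0 e) (hs0 f)
    have h3 := mul_nonneg h2 (sq_nonneg (tq (v e) f - tq (v f) e))
    show s e * tq (v e) f * (s f * tq (v f) e) ≤ _
    nlinarith
  have h2 : ∑ e ∈ I, ∑ f ∈ I, (1 / 2 * (s e * s f * tq (v e) f ^ 2)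
        + 1 / 2 * (s f * s e * tq (v f) e ^ 2)) = ∑ e ∈ I, ∑ f ∈ I, s e * s f * tq (v e) f ^ 2 := by
    simp only [sum_add_distrib, ← mul_sum]
    have h3 : ∑ e ∈ I, ∑ f ∈ I, s f * s e * tq (v f) e ^ 2 =
        ∑ e ∈ I, ∑ f ∈ I, s e * s f * tq (v e) f ^ 2 := sum_comm
    have h4 : ∀ e, ∑ f ∈ I, s e * s f * tq (v e) f ^ 2 = ∑ f ∈ I, s e * s f * tq (v e) f ^ 2 :=
      fun _ => rfl
    linarith
  refine (h1.trans (le_of_eq h2)).trans ?_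
  rw [sum_mul]
  refine sum_le_sum fun e he => ?_
  by_cases hv : v e = 0
  · have h3 : s e = 0 := by rw [hs]; simp [hv]
    have h4 : ‖v e‖ ^ 2 = 0 := h3
    rw [h4, zero_mul]
    refine le_of_eq (sum_eq_zero fun f _ => ?_)
    rw [h3]
    ring
  · have h3 : ∀ f ∈ I, s e * s f * tq (v e) f ^ 2 ≤
        s e * (s f / 4 + 17 / 10 * m * (tq (v e) f * (tq (v e) f - 1 / 4) ^ 2)) := by
      intro f hf
      rw [mul_assoc]
      refine mul_le_mul_of_nonneg_left ?_ (hs0 e)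
      have h4 := polyq (tq_nonneg (v e) f)
      have h5 := mul_le_mul_of_nonneg_left h4 (hs0 f)
      have h6 : 0 ≤ tq (v e) f * (tq (v e) f - 1 / 4) ^ 2 :=
        mul_nonneg (tq_nonneg _ _) (sq_nonneg _)
      have h7 := mul_le_mul_of_nonneg_right (hm f hf) h6
      have h8 : s f * (tq (v e) f * (tq (v e) f - 1 / 4) ^ 2) ≤
        m * (tq (v e) f * (tq (v e) f - 1 / 4) ^ 2) := h7
      linarith
    refine (sum_le_sum h3).trans ?_
    rw [← mul_sum, sum_add_distrib, ← sum_div, ← mul_sum]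
    have hm0 : 0 ≤ m := (hs0 e).trans (hm e he)
    have h4 : ∑ f ∈ I, tq (v e) f * (tq (v e) f - 1 / 4) ^ 2 ≤ 9 / 8 := by
      rw [← tq_sum hv]
      exact sum_le_sum_of_subset_of_nonneg hI fun f _ _ =>
        mul_nonneg (tq_nonneg _ _) (sq_nonneg _)
    refine mul_le_mul_of_nonneg_left ?_ (hs0 e)
    have h5 := mul_le_mul_of_nonneg_left h4 (show 0 ≤ 17 / 10 * m by positivity)
    linarith

end Pool.Agent.Lib.MP_f1379f_gt.FV
end

section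
/-!
# MP_f1379f_gt, full Q1: the star of a point with respect to the 57 pins
-/
set_option autoImplicit false

namespace Pool.Agent.Lib.MP_f1379f_gt.FV

open Finset

namespace TSM

/-! ### Fourth moment of the neighbours -/

theorem quart_line (a b c d : ℝ) : ∑ p : Bool × Bool × Bool,
    ((a + (sb p.1 : ℝ) * b + (sb p.2.1 : ℝ) * c + (sb p.2.2 : ℝ) * d) / 2) ^ 4 =
      (a ^ 4 + b ^ 4 + c ^ 4 + d ^ 4) / 2 + 3 * (a ^ 2 * b ^ 2 + a ^ 2 * c ^ 2 + a ^ 2 * d ^ 2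
        + b ^ 2 * c ^ 2 + b ^ 2 * d ^ 2 + c ^ 2 * d ^ 2) := by
  simp only [Fintype.sum_prod_type, Fintype.sum_bool, sb, Int.cast_neg, Int.cast_one, if_true,
    Bool.false_eq_true, if_false, one_mul, neg_one_mul]
  ring

/-- Sum over the lines, explicit. -/
theorem sum_lines (G : ℝ → ℝ → ℝ → ℝ) (u : E) : ∑ L, G (u (ln L 0)) (u (ln L 1)) (u (ln L 2)) =
    G (u 1) (u 2) (u 3) + G (u 1) (u 4) (u 5) + G (u 2) (u 4) (u 6) + G (u 3) (u 5) (u 6) +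
      G (u 2) (u 5) (u 7) + G (u 3) (u 4) (u 7) + G (u 1) (u 6) (u 7) := by
  rw [Fin.sum_univ_seven]
  rfl

theorem nb4_0 (u : E) : ∑ b ∈ nb x0, (inner ℝ u b : ℝ) ^ 4 =
    7 / 2 * u 0 ^ 4 + 9 * u 0 ^ 2 * (‖u‖ ^ 2 - u 0 ^ 2) + 3 / 2 * (‖u‖ ^ 2 - u 0 ^ 2) ^ 2 := by
  have hn : ‖u‖ ^ 2 = u 0 ^ 2 + u 1 ^ 2 + u 2 ^ 2 + u 3 ^ 2 + u 4 ^ 2 + u 5 ^ 2 + u 6 ^ 2
      + u 7 ^ 2 := by
    rw [EuclideanSpace.norm_sq_eq, Fin.sum_univ_eight]
    simp only [Real.norm_eq_abs, sq_abs]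
  rw [sum_nb, Fintype.sum_prod_type]
  have h : ∀ L : Fin 7, ∑ p : Bool × Bool × Bool, (inner ℝ u (bv (L, p)) : ℝ) ^ 4 =
      (u 0 ^ 4 + u (ln L 0) ^ 4 + u (ln L 1) ^ 4 + u (ln L 2) ^ 4) / 2 +
        3 * (u 0 ^ 2 * u (ln L 0) ^ 2 + u 0 ^ 2 * u (ln L 1) ^ 2 + u 0 ^ 2 * u (ln L 2) ^ 2
        + u (ln L 0) ^ 2 * u (ln L 1) ^ 2 + u (ln L 0) ^ 2 * u (ln L 2) ^ 2
        + u (ln L 1) ^ 2 * u (ln L 2) ^ 2) := by
    intro L
    rw [← quart_line]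
    refine Finset.sum_congr rfl fun p _ => ?_
    obtain ⟨b1, b2, b3⟩ := p
    rw [inner_bv]
  rw [Finset.sum_congr rfl fun L _ => h L, sum_lines (fun a b c => (u 0 ^ 4 + a ^ 4 + b ^ 4 + c ^ 4) / 2 +
        3 * (u 0 ^ 2 * a ^ 2 + u 0 ^ 2 * b ^ 2 + u 0 ^ 2 * c ^ 2
        + a ^ 2 * b ^ 2 + a ^ 2 * c ^ 2 + b ^ 2 * c ^ 2)) u, hn]
  ring

theorem nb4 {x : E} (hx : x ∈ UE) (u : E) : ∑ b ∈ nb x, (inner ℝ u b : ℝ) ^ 4 =
    7 / 2 * (inner ℝ u x : ℝ) ^ 4 + 9 * (inner ℝ u x : ℝ) ^ 2 * (‖u‖ ^ 2 - (inner ℝ u x : ℝ) ^ 2)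
      + 3 / 2 * (‖u‖ ^ 2 - (inner ℝ u x : ℝ) ^ 2) ^ 2 := by
  obtain ⟨T, hT, hTx⟩ := AllO.hTRA.one x0 x0_mem x hx
  have h2 : ∀ b, (inner ℝ u (T b) : ℝ) = inner ℝ (T.symm u) b := by
    intro b
    rw [← LinearIsometryEquiv.inner_map_map T (T.symm u) b, LinearIsometryEquiv.apply_symm_apply]
  have h3 : ‖T.symm u‖ = ‖u‖ := LinearIsometryEquiv.norm_map _ _
  have h4 : (inner ℝ u x : ℝ) = (T.symm u) 0 := by
    rw [← inner_x0, ← h2, hTx]
  rw [nb_map hx hT hTx (fun b => (inner ℝ u b : ℝ) ^ 4), h4, ← h3, ← nb4_0]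
  exact Finset.sum_congr rfl fun b _ => by rw [h2 b]

theorem notin_nb {x : E} (hx : x ∈ UE) : x ∉ nb x := by
  intro h1
  have h2 := UMO.nb_ip h1
  rw [real_inner_self_eq_norm_sq, AllO.hUEF.nrm x hx] at h2
  norm_num at h2

theorem pins4 {x : E} (hx : x ∈ UE) (u : E) : ∑ b ∈ insert x (nb x), (inner ℝ u b : ℝ) ^ 4 =
    9 / 2 * (inner ℝ u x : ℝ) ^ 4 + 9 * (inner ℝ u x : ℝ) ^ 2 * (‖u‖ ^ 2 - (inner ℝ u x : ℝ) ^ 2)
      + 3 / 2 * (‖u‖ ^ 2 - (inner ℝ u x : ℝ) ^ 2) ^ 2 := by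
  rw [Finset.sum_insert (notin_nb hx), nb4 hx]
  ring

/-! ### Pointwise bound for unlabelled points -/

theorem sin_half (a b : ℝ) : Real.sin a ^ 2 ≤ 7 / 4 * Real.sin b ^ 2 + 7 / 3 * (a - b) ^ 2 := by
  have h1 : Real.sin a = Real.sin b * Real.cos (a - b) + Real.cos b * Real.sin (a - b) := by
    rw [← Real.sin_add]
    congr 1
    ring
  have h2 : Real.sin (a - b) ^ 2 ≤ (a - b) ^ 2 := sq_le_sq.2 Real.abs_sin_le_abs
  have h3 := Real.sin_sq_add_cos_sq (a - b)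
  have h4 := Real.sin_sq_add_cos_sq b
  set P := Real.sin b * Real.cos (a - b) with hP
  set Q := Real.cos b * Real.sin (a - b) with hQ
  have h5 : P ^ 2 ≤ Real.sin b ^ 2 := by
    rw [hP, mul_pow]
    nlinarith [sq_nonneg (Real.sin b), sq_nonneg (Real.sin (a - b))]
  have h6 : Q ^ 2 ≤ (a - b) ^ 2 := by
    rw [hQ, mul_pow]
    nlinarith [sq_nonneg (Real.sin b), sq_nonneg (Real.sin (a - b)), sq_nonneg (Real.cos b)]
  rw [h1]
  nlinarith [sq_nonneg (3 * P - 4 * Q)]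

theorem mor_trig {T s : ℝ} (h0 : -1 ≤ T) (h1 : T ≤ 1 / 2) :
    1 / 1600 * (1 - Real.cos (4 * Real.pi * s)) ≤ TSDM.ph T + 4 / 25 * (T - s) ^ 2 := by
  have h := trig_minorant h0 h1
  have e1 : ∀ t : ℝ, 1 - Real.cos (4 * Real.pi * t) = 2 * Real.sin (2 * Real.pi * t) ^ 2 := by
    intro t
    have h2 : 4 * Real.pi * t = 2 * (2 * Real.pi * t) := by ring
    rw [h2, Real.cos_two_mul]
    have := Real.sin_sq_add_cos_sq (2 * Real.pi * t)
    linarith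
  rw [e1] at h ⊢
  have h3 := sin_half (2 * Real.pi * s) (2 * Real.pi * T)
  have hpp : Real.pi ^ 2 ≤ 9.9225 := by
    have := Real.pi_lt_d2
    have := Real.pi_gt_d2
    nlinarith
  have e2 : (2 * Real.pi * s - 2 * Real.pi * T) ^ 2 = 4 * Real.pi ^ 2 * (T - s) ^ 2 := by ring
  rw [e2] at h3
  have h4 : 4 * Real.pi ^ 2 * (T - s) ^ 2 ≤ 4 * 9.9225 * (T - s) ^ 2 := by
    nlinarith [sq_nonneg (T - s)]
  have h5 : 0 ≤ Real.sin (2 * Real.pi * T) ^ 2 := sq_nonneg _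
  have h6 : TSDM.ph T = (T + 1) * (T + 1 / 2) ^ 2 * T ^ 2 * (1 / 2 - T) := rfl
  rw [h6]
  nlinarith [sq_nonneg (T - s)]

/-! ### The star -/

theorem poly_star {N t : ℝ} (ht : t ^ 2 ≤ N) (hN : N ≤ 19 / 250) :
    3684 / 10000 * min N (1 / 25) ≤ 67 / 1000 * (6 * N + 9 * t ^ 2) - 56 / 100 *
      (9 / 2 * t ^ 4 + 9 * t ^ 2 * (N - t ^ 2) + 3 / 2 * (N - t ^ 2) ^ 2) := by
  have ht0 : 0 ≤ t ^ 2 := sq_nonneg t
  have hN0 : 0 ≤ N := ht0.trans ht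
  have e1 : 67 / 1000 * (6 * N + 9 * t ^ 2) - 56 / 100 *
      (9 / 2 * t ^ 4 + 9 * t ^ 2 * (N - t ^ 2) + 3 / 2 * (N - t ^ 2) ^ 2) =
      402 / 1000 * N - 84 / 100 * N ^ 2 + t ^ 2 * (603 / 1000 - 336 / 100 * N + 168 / 100 * t ^ 2) := by
    ring
  have e2 : 0 ≤ t ^ 2 * (603 / 1000 - 336 / 100 * N + 168 / 100 * t ^ 2) :=
    mul_nonneg ht0 (by linarith)
  rw [e1]
  rcases le_total N (1 / 25) with h | h
  · rw [min_eq_left h]
    nlinarith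
  · rw [min_eq_right h]
    nlinarith

/-- Labelled point, abstract set of pins. -/
theorem star_lab {I : Finset E} (hI : I ⊆ UE) {z f : E} (hf : f ∈ UE) (h0 : 95 / 100 ≤ ‖z‖ ^ 2)
    (hd : ‖z - f‖ ^ 2 ≤ 19 / 250) (T : E → ℝ) (hT0 : ∀ b ∈ I, -1 ≤ T b)
    (hT1 : ∀ b ∈ I, T b ≤ 1 / 2) :
    (f ∈ I → 3 / 100 ≤ ∑ b ∈ I, (TSDM.ph (T b) + 4 / 25 * (T b - (inner ℝ z b : ℝ)) ^ 2)) ∧
    (f ∉ I → ∑ b ∈ I, (67 / 1000 * (inner ℝ (z - f) b : ℝ) ^ 2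
      - 56 / 100 * (inner ℝ (z - f) b : ℝ) ^ 4) ≤
        ∑ b ∈ I, (TSDM.ph (T b) + 4 / 25 * (T b - (inner ℝ z b : ℝ)) ^ 2)) := by
  have hnn : ∀ b ∈ I, 0 ≤ TSDM.ph (T b) + 4 / 25 * (T b - (inner ℝ z b : ℝ)) ^ 2 := by
    intro b hb
    have := TSDM.ph_nonneg (hT0 b hb) (hT1 b hb)
    have h2 := sq_nonneg (T b - (inner ℝ z b : ℝ))
    linarith
  constructor
  · intro hfI
    refine le_trans ?_ (Finset.single_le_sum hnn hfI)
    have h3 : ‖z - f‖ ^ 2 = ‖z‖ ^ 2 - 2 * (inner ℝ z f : ℝ) + ‖f‖ ^ 2 := norm_sub_sq_real z f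
    rw [AllO.hUEF.nrm f hf] at h3
    have h4 := TSDM.ph_nonneg (hT0 f hfI) (hT1 f hfI)
    have h5 := hT1 f hfI
    have h6 : 437 / 1000 ≤ (inner ℝ z f : ℝ) - T f := by linarith
    nlinarith
  · intro hfI
    refine Finset.sum_le_sum fun b hb => ?_
    have hbU := hI hb
    have h1 : (inner ℝ z b : ℝ) = inner ℝ f b + inner ℝ (z - f) b := by
      rw [inner_sub_left]
      ring
    have hy : (inner ℝ (z - f) b : ℝ) ^ 2 ≤ 19 / 250 := by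
      have h2 := abs_real_inner_le_norm (z - f) b
      rw [AllO.hUEF.nrm b hbU, mul_one] at h2
      have h3 : (inner ℝ (z - f) b : ℝ) ^ 2 ≤ ‖z - f‖ ^ 2 := by
        rw [← sq_abs]
        exact pow_le_pow_left₀ (abs_nonneg _) h2 2
      linarith
    have hl : (inner ℝ f b : ℝ) = 1 / 2 ∨ (inner ℝ f b : ℝ) = 0 ∨ (inner ℝ f b : ℝ) = -1 / 2 ∨
        (inner ℝ f b : ℝ) = -1 := by
      rcases AllO.hUEF.ip f hf b hbU with g | g | g | g | g
      · exact absurd (AllO.hUEF.one f hf b hbU g ▸ hb) hfI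
      · exact Or.inl g
      · exact Or.inr (Or.inl g)
      · exact Or.inr (Or.inr (Or.inl g))
      · exact Or.inr (Or.inr (Or.inr g))
    have h4 := TSDM.mor hl (hT0 b hb) (hT1 b hb) hy
    have h5 : T b - (inner ℝ z b : ℝ) = T b - inner ℝ f b - inner ℝ (z - f) b := by
      rw [h1]
      ring
    rw [h5]
    exact h4

end TSM

open TSM in
/-- **The star of a point with respect to the 57 pins** (Moreau form, `M = 4/25`). -/
theorem star57 {x : E} (hx : x ∈ UE) {z : E} (h0 : 95 / 100 ≤ ‖z‖ ^ 2) (h1 : ‖z‖ ^ 2 ≤ 1)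
    (T : E → ℝ) (hT0 : ∀ b ∈ insert x (nb x), -1 ≤ T b)
    (hT1 : ∀ b ∈ insert x (nb x), T b ≤ 1 / 2) :
    3684 / 10000 * TRPM.td (1 / 5) z ≤
      ∑ b ∈ insert x (nb x), (TSDM.ph (T b) + 4 / 25 * (T b - (inner ℝ z b : ℝ)) ^ 2) := by
  have htd : TRPM.td (1 / 5) z ≤ 1 / 25 := (TRPM.td_le _ _).trans (by norm_num)
  have hI : insert x (nb x) ⊆ UE := by
    intro b hb
    rcases Finset.mem_insert.1 hb with h | h
    · rw [h]
      exact hx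
    · exact UMO.nb_UE h
  by_cases hF : ∑ b ∈ nb x, (1 - Real.cos (4 * Real.pi * (inner ℝ z b : ℝ))) < 24
  · obtain ⟨f, hf, hd⟩ := trig_label hx h0 h1 hF
    obtain ⟨g1, g2⟩ := star_lab hI hf h0 hd T hT0 hT1
    by_cases hfI : f ∈ insert x (nb x)
    · have := g1 hfI
      linarith
    · refine le_trans ?_ (g2 hfI)
      have htd2 : TRPM.td (1 / 5) z ≤ min (‖z - f‖ ^ 2) (1 / 25) :=
        le_min (TRPM.td_le_sq _ _ hf) htd
      rw [Finset.sum_sub_distrib, ← Finset.mul_sum, ← Finset.mul_sum, pin_frame hx, pins4 hx]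
      have ht : (inner ℝ (z - f) x : ℝ) ^ 2 ≤ ‖z - f‖ ^ 2 := by
        have h2 := abs_real_inner_le_norm (z - f) x
        rw [AllO.hUEF.nrm x hx, mul_one] at h2
        rw [← sq_abs]
        exact pow_le_pow_left₀ (abs_nonneg _) h2 2
      have h3 := poly_star ht hd
      linarith
  · push Not at hF
    have h2 : ∑ b ∈ nb x, 1 / 1600 * (1 - Real.cos (4 * Real.pi * (inner ℝ z b : ℝ))) ≤
        ∑ b ∈ nb x, (TSDM.ph (T b) + 4 / 25 * (T b - (inner ℝ z b : ℝ)) ^ 2) :=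
      Finset.sum_le_sum fun b hb => mor_trig (hT0 b (Finset.mem_insert_of_mem hb))
        (hT1 b (Finset.mem_insert_of_mem hb))
    rw [← Finset.mul_sum] at h2
    rw [Finset.sum_insert (notin_nb hx)]
    have h3 := TSDM.ph_nonneg (hT0 x (Finset.mem_insert_self _ _))
      (hT1 x (Finset.mem_insert_self _ _))
    have h4 := sq_nonneg (T x - (inner ℝ z x : ℝ))
    linarith

end Pool.Agent.Lib.MP_f1379f_gt.FV
end

section
/-!
# MP_f1379f_gt, full Q1: summation of the stars over the points that are not pins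
-/
set_option autoImplicit false

namespace Pool.Agent.Lib.MP_f1379f_gt.FV

open Finset

namespace TSGM

theorem TT_le_half {U : Finset E} (hU : Adm U) {u v : E} (hu : u ∈ U) (hv : v ∈ U) (h : u ≠ v) :
    TT u v ≤ 1 / 2 := by
  have h1 := hU.sep u hu v hv h
  unfold TT
  linarith

theorem TT_ge {u v : E} (hu : ‖u‖ ^ 2 ≤ 1) (hv : ‖v‖ ^ 2 ≤ 1) : -1 ≤ TT u v := by
  have h1 := abs_real_inner_le_norm u v
  have hu1 : ‖u‖ ≤ 1 := by nlinarith [norm_nonneg u]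
  have hv1 : ‖v‖ ≤ 1 := by nlinarith [norm_nonneg v]
  have h2 : ‖u‖ * ‖v‖ ≤ 1 := mul_le_one₀ hu1 (norm_nonneg v) hv1
  have h3 := (abs_le.1 h1).1
  have h4 : 0 ≤ (1 - ‖u‖ ^ 2) * (1 - ‖v‖ ^ 2) := mul_nonneg (by linarith) (by linarith)
  unfold TT
  linarith

/-- One term. -/
theorem term {T s x c d : ℝ} (h : T - s = x + c * d / 2) (hc0 : 0 ≤ c) (hc : c ≤ 7 / 150)
    (hd0 : 0 ≤ d) (hd : d ≤ 7 / 150) :
    (T - s) ^ 2 ≤ 1005 / 1000 * x ^ 2 + 11 / 100 * (c * d) := by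
  have h1 : 0 ≤ c * d := mul_nonneg hc0 hd0
  have h2 : c * d ≤ (7 / 150) * (7 / 150) := mul_le_mul hc hd hd0 (by norm_num)
  rw [h]
  nlinarith [sq_nonneg (x - 100 * (c * d)), mul_nonneg h1 (sub_nonneg.2 h2)]

theorem sum_star {x : E} (hx : x ∈ UE) (A : E ≃ₗᵢ[ℝ] E) (Z : Finset E) (p : E → E)
    {R η lam : ℝ} (hZ1 : ∀ z ∈ Z, ‖z‖ ^ 2 ≤ 1) (hZr : ∀ z ∈ Z, 1 - ‖z‖ ^ 2 ≤ 7 / 150)
    (hp1 : ∀ b ∈ insert x (nb x), ‖p b‖ ^ 2 ≤ 1)
    (hpr : ∀ b ∈ insert x (nb x), 1 - ‖p b‖ ^ 2 ≤ 7 / 150)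
    (hT : ∀ z ∈ Z, ∀ b ∈ insert x (nb x), TT z (p b) ≤ 1 / 2)
    (hZs : ∑ z ∈ Z, (1 - ‖z‖ ^ 2) ≤ 47 / 1000)
    (hps : ∑ b ∈ insert x (nb x), (1 - ‖p b‖ ^ 2) ≤ 47 / 1000)
    (hR : ∑ z ∈ Z, ∑ b ∈ insert x (nb x), base (TT z (p b)) * (1 / 2 - TT z (p b)) ≤ R)
    (hη : ∑ b ∈ insert x (nb x), ‖A (p b) - b‖ ^ 2 ≤ η) (hlam0 : 0 ≤ lam)
    (hlam : ∀ d : E, ∑ z ∈ Z, (inner ℝ z d : ℝ) ^ 2 ≤ lam * ‖d‖ ^ 2) :
    3684 / 10000 * ∑ z ∈ Z, TRPM.td (1 / 5) (A z) ≤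
      R + 4 / 25 * (1005 / 1000 * (lam * η) + 3 / 10000) := by
  generalize hI : insert x (nb x) = I at hp1 hpr hT hps hR hη
  have hstar : ∀ z ∈ Z, 3684 / 10000 * TRPM.td (1 / 5) (A z) ≤
      ∑ b ∈ I, (base (TT z (p b)) * (1 / 2 - TT z (p b))
        + 4 / 25 * (1005 / 1000 * (inner ℝ z (A.symm (A (p b) - b)) : ℝ) ^ 2
          + 11 / 100 * ((1 - ‖z‖ ^ 2) * (1 - ‖p b‖ ^ 2)))) := by
    intro z hz
    have hAz : ‖A z‖ = ‖z‖ := LinearIsometryEquiv.norm_map _ _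
    have h1 := star57 hx (z := A z) (by rw [hAz]; linarith [hZr z hz]) (by rw [hAz]; exact hZ1 z hz)
      (fun b => TT z (p b)) (by
        rw [hI]
        exact fun b hb => TT_ge (hZ1 z hz) (hp1 b hb)) (by
        rw [hI]
        exact fun b hb => hT z hz b hb)
    rw [hI] at h1
    refine h1.trans (Finset.sum_le_sum fun b hb => ?_)
    have h2 : (inner ℝ z (A.symm (A (p b) - b)) : ℝ) = inner ℝ z (p b) - inner ℝ (A z) b := by
      rw [← LinearIsometryEquiv.inner_map_map A z, LinearIsometryEquiv.apply_symm_apply,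
        inner_sub_right, LinearIsometryEquiv.inner_map_map]
    have h3 := term (T := TT z (p b)) (s := inner ℝ (A z) b)
      (x := inner ℝ z (A.symm (A (p b) - b))) (c := 1 - ‖z‖ ^ 2) (d := 1 - ‖p b‖ ^ 2) (by
        rw [h2]
        unfold TT
        ring) (by linarith [hZ1 z hz]) (hZr z hz) (by linarith [hp1 b hb]) (hpr b hb)
    have h4 : TSDM.ph (TT z (p b)) = base (TT z (p b)) * (1 / 2 - TT z (p b)) := by
      unfold TSDM.ph base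
      ring
    show TSDM.ph (TT z (p b)) + 4 / 25 * (TT z (p b) - (inner ℝ (A z) b : ℝ)) ^ 2 ≤ _
    rw [h4]
    linarith
  have hsum := Finset.sum_le_sum hstar
  rw [← Finset.mul_sum] at hsum
  have hsplit : ∀ F G H : E → E → ℝ, ∑ z ∈ Z, ∑ b ∈ I, (F z b + 4 / 25 * (1005 / 1000 * G z b
      + 11 / 100 * H z b)) = ∑ z ∈ Z, ∑ b ∈ I, F z b + 4 / 25 * (1005 / 1000 *
        ∑ z ∈ Z, ∑ b ∈ I, G z b + 11 / 100 * ∑ z ∈ Z, ∑ b ∈ I, H z b) := by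
    intro F G H
    simp only [Finset.mul_sum, ← Finset.sum_add_distrib]
  rw [hsplit (fun z b => base (TT z (p b)) * (1 / 2 - TT z (p b)))
    (fun z b => (inner ℝ z (A.symm (A (p b) - b)) : ℝ) ^ 2)
    (fun z b => (1 - ‖z‖ ^ 2) * (1 - ‖p b‖ ^ 2))] at hsum
  have hG : ∑ z ∈ Z, ∑ b ∈ I, (inner ℝ z (A.symm (A (p b) - b)) : ℝ) ^ 2 ≤ lam * η := by
    rw [Finset.sum_comm]
    have h1 : ∑ b ∈ I, ∑ z ∈ Z, (inner ℝ z (A.symm (A (p b) - b)) : ℝ) ^ 2 ≤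
        ∑ b ∈ I, lam * ‖A (p b) - b‖ ^ 2 := by
      refine Finset.sum_le_sum fun b _ => ?_
      have h2 := hlam (A.symm (A (p b) - b))
      rwa [LinearIsometryEquiv.norm_map] at h2
    rw [← Finset.mul_sum] at h1
    exact h1.trans (mul_le_mul_of_nonneg_left hη hlam0)
  have hH : ∑ z ∈ Z, ∑ b ∈ I, (1 - ‖z‖ ^ 2) * (1 - ‖p b‖ ^ 2) ≤ (47 / 1000) * (47 / 1000) := by
    rw [← Finset.sum_mul_sum]
    exact mul_le_mul hZs hps (Finset.sum_nonneg fun b hb => by linarith [hp1 b hb]) (by norm_num)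
  linarith

end TSGM

end Pool.Agent.Lib.MP_f1379f_gt.FV
end

section
/-!
# MP_f1379f_gt, full Q1, STAB2 (4): pointwise minorants for the outlier rows

`mor_all`: the Moreau minorant `mor` for all `y`.
`trig2`: `(71/100000)(1 - cos (4 pi s)) <= phi (T) + (4/25)(T - s)^2`.
`orth_pair`: `(17/100) t^2 - (84/100) t^4 <= phi (T) + phi (T') + (3/4)((T-t)^2 + (T'+t)^2)`.
`deep_pair`: `(132/100) t^2 (22/100 - t^2)(45/100 - t^2) <=` the same for `|t| <= 4/5`.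
-/
set_option autoImplicit false

namespace Pool.Agent.Lib.MP_f1379f_gt.FV

namespace TOAM

open TSDM

theorem rhs_lin (s : ℝ) : 67 / 1000 * s ^ 2 - 56 / 100 * s ^ 4 ≤
    3584 / 10 ^ 6 - 226 / 10 ^ 4 * s ^ 2 := by
  nlinarith [sq_nonneg (s ^ 2 - 8 / 100)]

theorem pc7 {t : ℝ} (h1 : 9 / 25 ≤ t) (h2 : t ≤ 43 / 100) :
    3584 / 10 ^ 6 ≤ (1 - t) * (1 / 2 - t) ^ 2 * t ^ 2 * (1 / 2 + t) + 198 / 10 ^ 4 * t ^ 2 := by
  have hx : 0 ≤ t - 9 / 25 := sub_nonneg.2 h1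
  have hz : 0 ≤ 43 / 100 - t := sub_nonneg.2 h2
  have e : (1 - t) * (1 / 2 - t) ^ 2 * t ^ 2 * (1 / 2 + t) + 198 / 10 ^ 4 * t ^ 2 - (3584 / 10 ^ 6) =
      (380184064 / 117649) * (43 / 100 - t) ^ 6 +
      (2385508992 / 117649) * (t - 9 / 25) ^ 1 * (43 / 100 - t) ^ 5 +
      (6191942240 / 117649) * (t - 9 / 25) ^ 2 * (43 / 100 - t) ^ 4 +
      (8610987160 / 117649) * (t - 9 / 25) ^ 3 * (43 / 100 - t) ^ 3 +
      (6845786060 / 117649) * (t - 9 / 25) ^ 4 * (43 / 100 - t) ^ 2 +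
      (2978829762 / 117649) * (t - 9 / 25) ^ 5 * (43 / 100 - t) ^ 1 +
      (557295901 / 117649) * (t - 9 / 25) ^ 6 := by
    ring
  have h : 0 ≤ (1 - t) * (1 / 2 - t) ^ 2 * t ^ 2 * (1 / 2 + t) + 198 / 10 ^ 4 * t ^ 2
      - (3584 / 10 ^ 6) := by
    rw [e]
    generalize t - 9 / 25 = x at hx ⊢
    generalize 43 / 100 - t = z at hz ⊢
    positivity
  linarith

theorem well_neg_all {t s : ℝ} (ht : 0 ≤ t) (ht1 : t ≤ 1) :
    67 / 1000 * s ^ 2 - 56 / 100 * s ^ 4 ≤ ph (-t) + 4 / 25 * (t - s) ^ 2 := by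
  rcases le_total t (9 / 25) with h6 | h6
  · rcases le_total s (2757 / 10000) with h | h
    · exact well_neg ht ht1 h
    · -- reuse the pieces
      rcases le_total t (1 / 40) with h1 | h1
      · have e1 : 1154 / 10000 ≤ (1 - t) * (1 / 2 - t) ^ 2 * (1 / 2 + t) := by
          nlinarith [mul_nonneg ht (sub_nonneg.2 h1), mul_nonneg (mul_nonneg ht ht) (sub_nonneg.2 h1),
            mul_nonneg (mul_nonneg (mul_nonneg ht ht) ht) (sub_nonneg.2 h1)]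
        refine piece (q := 0) (by nlinarith) ?_
        nlinarith
      rcases le_total t (57 / 1000) with h2 | h2
      · refine piece (q := 187 / 100) ?_ (pc1 h1 h2)
        nlinarith [mul_nonneg (sub_nonneg.2 h1) (sub_nonneg.2 h2)]
      rcases le_total t (89 / 1000) with h3 | h3
      · refine piece (q := 187 / 100) ?_ (pc2 h2 h3)
        nlinarith [mul_nonneg (sub_nonneg.2 h2) (sub_nonneg.2 h3)]
      rcases le_total t (77 / 500) with h4 | h4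
      · refine piece (q := 187 / 100) ?_ (pc3 h3 h4)
        nlinarith [mul_nonneg (sub_nonneg.2 h3) (sub_nonneg.2 h4)]
      rcases le_total t (139 / 500) with h5 | h5
      · refine piece (q := 107 / 100) ?_ (pc4 h4 h5)
        nlinarith [mul_nonneg (sub_nonneg.2 h4) (sub_nonneg.2 h5)]
      · refine piece (q := 71 / 100) ?_ (pc5 h5 h6)
        nlinarith [mul_nonneg (sub_nonneg.2 h5) (sub_nonneg.2 h6)]
  · have hph : 0 ≤ ph (-t) := ph_nonneg (by linarith) (by linarith)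
    have e1 := rhs_lin s
    have e2 : 198 / 10 ^ 4 * t ^ 2 ≤ 4 / 25 * (t - s) ^ 2 + 226 / 10 ^ 4 * s ^ 2 := by
      nlinarith [sq_nonneg (1826 * s - 1600 * t)]
    rcases le_total t (43 / 100) with h7 | h7
    · have e3 := pc7 h6 h7
      have e4 : (1 - t) * (1 / 2 - t) ^ 2 * t ^ 2 * (1 / 2 + t) = ph (-t) := by
        unfold ph
        ring
      rw [e4] at e3
      linarith
    · nlinarith

/-- `phi T >= T^2 / 8` on `[0, 38/100]`. -/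
theorem ph_quad {T : ℝ} (h0 : 0 ≤ T) (h2 : T ≤ 38 / 100) : 1 / 8 * T ^ 2 ≤ ph T := by
  have e3 : 1 / 8 ≤ (T + 1) * (T + 1 / 2) ^ 2 * (1 / 2 - T) := by
    nlinarith [mul_nonneg h0 (sub_nonneg.2 h2), mul_nonneg (mul_nonneg h0 h0) (sub_nonneg.2 h2),
      mul_nonneg (mul_nonneg (mul_nonneg h0 h0) h0) (sub_nonneg.2 h2)]
  have e4 : ph T = (T + 1) * (T + 1 / 2) ^ 2 * (1 / 2 - T) * T ^ 2 := by
    unfold ph
    ring
  rw [e4]
  exact mul_le_mul_of_nonneg_right e3 (sq_nonneg _)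

/-- `phi T >= 87/10000` on `[38/100, 47/100]`. -/
theorem ph_mid {T : ℝ} (h2 : 38 / 100 ≤ T) (h3 : T ≤ 47 / 100) : 87 / 10000 ≤ ph T := by
  have f1 : (138 / 100 : ℝ) * (77 / 100) ≤ (T + 1) * (T + 1 / 2) ^ 2 := by
    have g2 : (77 / 100 : ℝ) ≤ (T + 1 / 2) ^ 2 := by nlinarith
    exact mul_le_mul (by linarith) g2 (by norm_num) (by linarith)
  rcases le_total T (43 / 100) with h | h
  · have f3 : (144 / 1000 : ℝ) * (7 / 100) ≤ T ^ 2 * (1 / 2 - T) :=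
      mul_le_mul (by nlinarith) (by linarith) (by norm_num) (by positivity)
    have f5 := mul_le_mul f1 f3 (by norm_num) (by positivity)
    have f6 : ph T = (T + 1) * (T + 1 / 2) ^ 2 * (T ^ 2 * (1 / 2 - T)) := by
      unfold ph
      ring
    rw [f6]
    norm_num at f5
    linarith
  · have g1 : (143 / 100 : ℝ) * (86 / 100) ≤ (T + 1) * (T + 1 / 2) ^ 2 := by
      have g2 : (86 / 100 : ℝ) ≤ (T + 1 / 2) ^ 2 := by nlinarith
      exact mul_le_mul (by linarith) g2 (by norm_num) (by linarith)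
    rcases le_total T (46 / 100) with h4 | h4
    · have f3 : (184 / 1000 : ℝ) * (4 / 100) ≤ T ^ 2 * (1 / 2 - T) :=
        mul_le_mul (by nlinarith) (by linarith) (by norm_num) (by positivity)
      have f5 := mul_le_mul g1 f3 (by norm_num) (by positivity)
      have f6 : ph T = (T + 1) * (T + 1 / 2) ^ 2 * (T ^ 2 * (1 / 2 - T)) := by
        unfold ph
        ring
      rw [f6]
      norm_num at f5
      linarith
    · have g1 : (146 / 100 : ℝ) * (921 / 1000) ≤ (T + 1) * (T + 1 / 2) ^ 2 := by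
        have g2 : (921 / 1000 : ℝ) ≤ (T + 1 / 2) ^ 2 := by nlinarith
        exact mul_le_mul (by linarith) g2 (by norm_num) (by linarith)
      have f3 : (22 / 100 : ℝ) * (3 / 100) ≤ T ^ 2 * (1 / 2 - T) := by
        nlinarith [mul_nonneg (sub_nonneg.2 h4) (sub_nonneg.2 h3), mul_nonneg (sub_nonneg.2 h4)
          (mul_nonneg (sub_nonneg.2 h4) (sub_nonneg.2 h3))]
      have f5 := mul_le_mul g1 f3 (by norm_num) (by positivity)
      have f6 : ph T = (T + 1) * (T + 1 / 2) ^ 2 * (T ^ 2 * (1 / 2 - T)) := by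
        unfold ph
        ring
      rw [f6]
      norm_num at f5
      linarith

/-- `phi T >= (3/10)(1/2 - T)` on `[47/100, 1/2]`. -/
theorem ph_end {T : ℝ} (h3 : 47 / 100 ≤ T) (h1 : T ≤ 1 / 2) : 3 / 10 * (1 / 2 - T) ≤ ph T := by
  have g : (3 / 10 : ℝ) ≤ (T + 1) * (T + 1 / 2) ^ 2 * T ^ 2 := by
    have g2 : (94 / 100 : ℝ) ≤ (T + 1 / 2) ^ 2 := by nlinarith
    have g3 : (22 / 100 : ℝ) ≤ T ^ 2 := by nlinarith
    have g5 : (147 / 100 : ℝ) * (94 / 100) ≤ (T + 1) * (T + 1 / 2) ^ 2 :=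
      mul_le_mul (by linarith) g2 (by norm_num) (by linarith)
    have g6 := mul_le_mul g5 g3 (by norm_num) (by positivity)
    norm_num at g6
    linarith
  have h := mul_le_mul_of_nonneg_right g (sub_nonneg.2 h1)
  unfold ph
  linarith

theorem well_pos_all {T y : ℝ} (h0 : 0 ≤ T) (h1 : T ≤ 1 / 2) (hy : 0 ≤ y) :
    67 / 1000 * y ^ 2 - 56 / 100 * y ^ 4 ≤ ph T + 4 / 25 * (T - y) ^ 2 := by
  rcases le_total T (38 / 100) with h2 | h2
  · have e1 := ph_quad h0 h2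
    have e2 := rhs_le2 y
    nlinarith [sq_nonneg (57 * T - 32 * y)]
  · have e2 := rhs_le y
    rcases le_total T (47 / 100) with h3 | h3
    · have e1 := ph_mid h2 h3
      nlinarith [sq_nonneg (T - y)]
    · have e1 := ph_nonneg (T := T) (by linarith) h1
      rcases le_total y (35 / 100) with h4 | h4
      · have : (12 / 100 : ℝ) ^ 2 ≤ (T - y) ^ 2 := by
          apply pow_le_pow_left₀ (by norm_num)
          linarith
        nlinarith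
      · have : 67 / 1000 * y ^ 2 - 56 / 100 * y ^ 4 ≤ 0 := by
          have h5 : 0 ≤ y ^ 2 * (56 / 100 * y ^ 2 - 67 / 1000) :=
            mul_nonneg (sq_nonneg _) (by nlinarith)
          nlinarith
        nlinarith [sq_nonneg (T - y)]

theorem mor0_all {T y : ℝ} (h0 : -1 ≤ T) (h1 : T ≤ 1 / 2) :
    67 / 1000 * y ^ 2 - 56 / 100 * y ^ 4 ≤ ph T + 4 / 25 * (T - y) ^ 2 := by
  have hph := ph_nonneg h0 h1
  have e2 := rhs_le2 y
  rcases le_total 0 T with hT | hT <;> rcases le_total 0 y with hy0 | hy0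
  · exact well_pos_all hT h1 hy0
  · nlinarith [mul_nonneg hT (neg_nonneg.2 hy0)]
  · nlinarith [mul_nonneg (neg_nonneg.2 hT) hy0]
  · have h := well_neg_all (t := -T) (s := -y) (by linarith) (by linarith)
    rw [neg_neg] at h
    have e3 : (-T - -y) ^ 2 = (T - y) ^ 2 := by ring
    have e4 : (-y) ^ 2 = y ^ 2 := by ring
    have e5 : (-y) ^ 4 = y ^ 4 := by ring
    rw [e3, e4, e5] at h
    exact h

theorem rhs_30 {y : ℝ} (h : y ≤ -(3 / 10)) : 67 / 1000 * y ^ 2 - 56 / 100 * y ^ 4 ≤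
    15 / 10000 := by
  have h1 : (9 / 100 : ℝ) ≤ y ^ 2 := by nlinarith
  nlinarith

theorem mor_half_all {T y : ℝ} (h0 : -1 ≤ T) (h1 : T ≤ 1 / 2) :
    67 / 1000 * y ^ 2 - 56 / 100 * y ^ 4 ≤ ph T + 4 / 25 * (T - 1 / 2 - y) ^ 2 := by
  have hph := ph_nonneg h0 h1
  have e2 := rhs_le2 y
  rcases le_total 0 y with hy0 | hy0
  · nlinarith [mul_nonneg (sub_nonneg.2 h1) hy0]
  have e3 := rhs_le y
  rcases le_total y (-(35 / 100)) with hy1 | hy1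
  · have : 67 / 1000 * y ^ 2 - 56 / 100 * y ^ 4 ≤ 0 := by
      have h5 : 0 ≤ y ^ 2 * (56 / 100 * y ^ 2 - 67 / 1000) :=
        mul_nonneg (sq_nonneg _) (by nlinarith)
      nlinarith
    nlinarith [sq_nonneg (T - 1 / 2 - y)]
  have e4 : 67 / 1000 * y ^ 2 - 56 / 100 * y ^ 4 ≤ 7 / 100 * (1 / 2 + y) ^ 2 := by
    rcases le_total y (-(3 / 10)) with h | h
    · have := rhs_30 h
      nlinarith
    · nlinarith
  rcases le_total T 0 with hT | hT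
  · nlinarith [mul_nonneg (neg_nonneg.2 hT) (by linarith : (0 : ℝ) ≤ 1 / 2 + y)]
  rcases le_total T (38 / 100) with h2 | h2
  · have e5 := ph_quad hT h2
    nlinarith [sq_nonneg (285 * T - 160 * (1 / 2 + y))]
  · have g : 116 / 1000 * (1 / 2 - T) ^ 2 ≤ ph T := by
      rcases le_total T (47 / 100) with h3 | h3
      · have := ph_mid h2 h3
        nlinarith
      · have := ph_end h3 h1
        nlinarith
    nlinarith [sq_nonneg (116 * (1 / 2 - T) - 160 * (T - 1 / 2 - y))]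

/-- The Moreau minorant, all `y`. -/
theorem mor_all {l T y : ℝ} (hl : l = 1 / 2 ∨ l = 0 ∨ l = -1 / 2 ∨ l = -1) (h0 : -1 ≤ T)
    (h1 : T ≤ 1 / 2) :
    67 / 1000 * y ^ 2 - 56 / 100 * y ^ 4 ≤ ph T + 4 / 25 * (T - l - y) ^ 2 := by
  have e4 : (-y) ^ 2 = y ^ 2 := by ring
  have e5 : (-y) ^ 4 = y ^ 4 := by ring
  rcases hl with h | h | h | h
  · rw [h]
    exact mor_half_all h0 h1
  · rw [h, sub_zero]
    exact mor0_all h0 h1
  · have h2 := mor0_all (T := -1 / 2 - T) (y := -y) (by linarith) (by linarith)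
    rw [ph_symm, e4, e5] at h2
    have e3 : (-1 / 2 - T - -y) ^ 2 = (T - l - y) ^ 2 := by rw [h]; ring
    rw [e3] at h2
    exact h2
  · have h2 := mor_half_all (T := -1 / 2 - T) (y := -y) (by linarith) (by linarith)
    rw [ph_symm, e4, e5] at h2
    have e3 : (-1 / 2 - T - 1 / 2 - -y) ^ 2 = (T - l - y) ^ 2 := by rw [h]; ring
    rw [e3] at h2
    exact h2

end TOAM

end Pool.Agent.Lib.MP_f1379f_gt.FV
end

section
/-!
# MP_f1379f_gt, full Q1, STAB2 (4): pointwise minorants, part 2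

`trig2`: `(71/100000)(1 - cos (4 pi s)) <= phi (T) + (4/25)(T - s)^2`.
`orth_pair`: `(17/100) t^2 - (84/100) t^4 <= phi (T) + phi (T') + (3/4)((T-t)^2 + (T'+t)^2)`.
`deep_pair`: `(132/100) t^2 (22/100 - t^2)(45/100 - t^2) <=` the same for `|t| <= 4/5`.
-/
set_option autoImplicit false

namespace Pool.Agent.Lib.MP_f1379f_gt.FV

namespace TOBM

open TSDM TOAM

theorem sin_half2 (a b : ℝ) : Real.sin a ^ 2 ≤ 17 / 11 * Real.sin b ^ 2 + 17 / 6 * (a - b) ^ 2 := by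
  have h1 : Real.sin a = Real.sin b * Real.cos (a - b) + Real.cos b * Real.sin (a - b) := by
    rw [← Real.sin_add]
    congr 1
    ring
  have h2 : Real.sin (a - b) ^ 2 ≤ (a - b) ^ 2 := sq_le_sq.2 Real.abs_sin_le_abs
  have h3 := Real.sin_sq_add_cos_sq (a - b)
  have h4 := Real.sin_sq_add_cos_sq b
  set P := Real.sin b * Real.cos (a - b) with hP
  set Q := Real.cos b * Real.sin (a - b) with hQ
  have h5 : P ^ 2 ≤ Real.sin b ^ 2 := by
    rw [hP, mul_pow]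
    nlinarith [sq_nonneg (Real.sin b), sq_nonneg (Real.sin (a - b))]
  have h6 : Q ^ 2 ≤ (a - b) ^ 2 := by
    rw [hQ, mul_pow]
    nlinarith [sq_nonneg (Real.sin b), sq_nonneg (Real.sin (a - b)), sq_nonneg (Real.cos b)]
  rw [h1]
  nlinarith [sq_nonneg (6 * P - 11 * Q)]

theorem trig2 {T s : ℝ} (h0 : -1 ≤ T) (h1 : T ≤ 1 / 2) :
    71 / 100000 * (1 - Real.cos (4 * Real.pi * s)) ≤ ph T + 4 / 25 * (T - s) ^ 2 := by
  have h := trig_minorant h0 h1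
  have e1 : ∀ t : ℝ, 1 - Real.cos (4 * Real.pi * t) = 2 * Real.sin (2 * Real.pi * t) ^ 2 := by
    intro t
    have h2 : 4 * Real.pi * t = 2 * (2 * Real.pi * t) := by ring
    rw [h2, Real.cos_two_mul]
    have := Real.sin_sq_add_cos_sq (2 * Real.pi * t)
    linarith
  rw [e1] at h ⊢
  have h3 := sin_half2 (2 * Real.pi * s) (2 * Real.pi * T)
  have hpp : Real.pi ^ 2 ≤ 9.9225 := by
    have := Real.pi_lt_d2
    have := Real.pi_gt_d2
    nlinarith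
  have e2 : (2 * Real.pi * s - 2 * Real.pi * T) ^ 2 = 4 * Real.pi ^ 2 * (T - s) ^ 2 := by ring
  rw [e2] at h3
  have h4 : 4 * Real.pi ^ 2 * (T - s) ^ 2 ≤ 4 * 9.9225 * (T - s) ^ 2 := by
    nlinarith [sq_nonneg (T - s)]
  have h5 : 0 ≤ Real.sin (2 * Real.pi * T) ^ 2 := sq_nonneg _
  have h6 : ph T = (T + 1) * (T + 1 / 2) ^ 2 * T ^ 2 * (1 / 2 - T) := rfl
  rw [h6]
  nlinarith [sq_nonneg (T - s)]

/-! ### `M = 3/4` -/

/-- `phi T + (3/4)(T - t)^2 >= (107/1000) t^2` if `T <= 38/100`. -/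
theorem low75 {T t : ℝ} (h0 : -1 ≤ T) (h2 : T ≤ 38 / 100) (ht : 0 ≤ t) :
    107 / 1000 * t ^ 2 ≤ ph T + 3 / 4 * (T - t) ^ 2 := by
  rcases le_total T 0 with hT | hT
  · have := ph_nonneg h0 (by linarith)
    nlinarith [mul_nonneg (neg_nonneg.2 hT) ht]
  · have e5 := ph_quad hT h2
    nlinarith [sq_nonneg (875 * T - 750 * t)]

/-- `T >= 47/100`, `t >= 3/10`. -/
theorem end75 {T t : ℝ} (h3 : 47 / 100 ≤ T) (h1 : T ≤ 1 / 2) (ht : 3 / 10 ≤ t) :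
    3 / 4 * (1 / 2 - t) ^ 2 ≤ ph T + 3 / 4 * (T - t) ^ 2 := by
  have e := ph_end h3 h1
  nlinarith [mul_nonneg (sub_nonneg.2 h1) (sub_nonneg.2 ht), sq_nonneg (1 / 2 - T)]

theorem posB {T t : ℝ} (h0 : -1 ≤ T) (h1 : T ≤ 1 / 2) (ht : 0 ≤ t) (ht2 : t ^ 2 ≤ 12 / 100) :
    103 / 1000 * t ^ 2 - 28 / 100 * t ^ 4 ≤ ph T + 3 / 4 * (T - t) ^ 2 := by
  have ht4 : 0 ≤ t ^ 4 := by positivity
  rcases le_total T (38 / 100) with h2 | h2
  · have := low75 h0 h2 ht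
    nlinarith [sq_nonneg t]
  have e : 103 / 1000 * t ^ 2 - 28 / 100 * t ^ 4 ≤ 833 / 100000 := by
    nlinarith [mul_nonneg (sub_nonneg.2 ht2) (sq_nonneg t)]
  rcases le_total T (47 / 100) with h3 | h3
  · have := ph_mid h2 h3
    nlinarith [sq_nonneg (T - t)]
  · have hph := ph_nonneg h0 h1
    have ht3 : t ≤ 3465 / 10000 := by nlinarith
    have : (1235 / 10000 : ℝ) ^ 2 ≤ (T - t) ^ 2 := by
      apply pow_le_pow_left₀ (by norm_num)
      linarith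
    nlinarith

theorem posC {T t : ℝ} (h0 : -1 ≤ T) (h1 : T ≤ 1 / 2) (ht : 0 ≤ t) (ht2 : 1196 / 10000 ≤ t ^ 2)
    (ht3 : t ≤ 45 / 100) :
    17 / 100 * t ^ 2 - 84 / 100 * t ^ 4 ≤ ph T + 3 / 4 * (T - t) ^ 2 := by
  rcases le_total T (38 / 100) with h2 | h2
  · have := low75 h0 h2 ht
    nlinarith [mul_nonneg (sub_nonneg.2 ht2) (sq_nonneg t)]
  have ht4 : 3 / 10 ≤ t := by nlinarith
  have hx : t ^ 2 ≤ 2025 / 10000 := by nlinarith
  rcases le_total T (47 / 100) with h3 | h3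
  · have := ph_mid h2 h3
    have e : 17 / 100 * t ^ 2 - 84 / 100 * t ^ 4 ≤ 87 / 10000 := by
      nlinarith [mul_nonneg (sub_nonneg.2 ht2) (sub_nonneg.2 hx), sq_nonneg (t ^ 2 - 1012 / 10000)]
    nlinarith [sq_nonneg (T - t)]
  · have := end75 h3 h1 ht4
    have e : 17 / 100 * t ^ 2 - 84 / 100 * t ^ 4 ≤ 3 / 4 * (1 / 2 - t) ^ 2 := by
      nlinarith [sq_nonneg (t ^ 2 - 18 / 100), sq_nonneg (t - 425 / 1000)]
    linarith

theorem orth_nonneg {T T' t : ℝ} (h0 : -1 ≤ T) (h1 : T ≤ 1 / 2) (h0' : -1 ≤ T') (h1' : T' ≤ 1 / 2)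
    (ht : 0 ≤ t) : 17 / 100 * t ^ 2 - 84 / 100 * t ^ 4 ≤
      ph T + 3 / 4 * (T - t) ^ 2 + (ph T' + 3 / 4 * (T' + t) ^ 2) := by
  have hph := ph_nonneg h0 h1
  have hph' := ph_nonneg h0' h1'
  have e1 : 0 ≤ (T - t) ^ 2 := sq_nonneg _
  have e2 : 0 ≤ (T' + t) ^ 2 := sq_nonneg _
  rcases le_total (45 / 100) t with h | h
  · have h5 : 0 ≤ t ^ 2 * (84 / 100 * t ^ 2 - 17 / 100) :=
      mul_nonneg (sq_nonneg _) (by nlinarith)
    nlinarith
  rcases le_total (t ^ 2) (12 / 100) with h2 | h2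
  · have a1 := posB h0 h1 ht h2
    have a2 := mor0_all (y := -t) h0' h1'
    have e3 : (T' - -t) ^ 2 = (T' + t) ^ 2 := by ring
    have e4 : (-t) ^ 2 = t ^ 2 := by ring
    have e5 : (-t) ^ 4 = t ^ 4 := by ring
    rw [e3, e4, e5] at a2
    linarith
  · have a1 := posC h0 h1 ht (by linarith) h
    linarith

/-- Orthogonal pair. -/
theorem orth_pair {T T' t : ℝ} (h0 : -1 ≤ T) (h1 : T ≤ 1 / 2) (h0' : -1 ≤ T') (h1' : T' ≤ 1 / 2) :
    17 / 100 * t ^ 2 - 84 / 100 * t ^ 4 ≤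
      ph T + 3 / 4 * (T - t) ^ 2 + (ph T' + 3 / 4 * (T' + t) ^ 2) := by
  rcases le_total 0 t with ht | ht
  · exact orth_nonneg h0 h1 h0' h1' ht
  · have h := orth_nonneg (t := -t) h0' h1' h0 h1 (neg_nonneg.2 ht)
    have e3 : (T' - -t) ^ 2 = (T' + t) ^ 2 := by ring
    have e4 : (T + -t) ^ 2 = (T - t) ^ 2 := by ring
    have e5 : (-t) ^ 4 = t ^ 4 := by ring
    rw [e3, e4, e5, neg_sq] at h
    linarith

theorem deep_end {t : ℝ} (h1 : 67 / 100 ≤ t) (h2 : t ≤ 4 / 5) :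
    132 / 100 * t ^ 2 * (t ^ 2 - 22 / 100) * (t ^ 2 - 45 / 100) ≤ 3 / 4 * (t - 1 / 2) ^ 2 := by
  have hx : 0 ≤ t - 67 / 100 := sub_nonneg.2 h1
  have hz : 0 ≤ 4 / 5 - t := sub_nonneg.2 h2
  have e : 3 / 4 * (t - 1 / 2) ^ 2 - (132 / 100 * t ^ 2 * (t ^ 2 - 22 / 100) * (t ^ 2 - 45 / 100)) =
      (545604941523 / 120670225) * (4 / 5 - t) ^ 6 +
      (703195717464 / 24134045) * (t - 67 / 100) ^ 1 * (4 / 5 - t) ^ 5 +
      (359126105484 / 4826809) * (t - 67 / 100) ^ 2 * (4 / 5 - t) ^ 4 +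
      (454359757440 / 4826809) * (t - 67 / 100) ^ 3 * (4 / 5 - t) ^ 3 +
      (285065138400 / 4826809) * (t - 67 / 100) ^ 4 * (4 / 5 - t) ^ 2 +
      (71107872000 / 4826809) * (t - 67 / 100) ^ 5 * (4 / 5 - t) ^ 1 +
      (84960000 / 4826809) * (t - 67 / 100) ^ 6 := by
    ring
  have h : 0 ≤ 3 / 4 * (t - 1 / 2) ^ 2 -
      (132 / 100 * t ^ 2 * (t ^ 2 - 22 / 100) * (t ^ 2 - 45 / 100)) := by
    rw [e]
    generalize t - 67 / 100 = x at hx ⊢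
    generalize 4 / 5 - t = z at hz ⊢
    positivity
  linarith

theorem deep_nonneg {T T' t : ℝ} (h0 : -1 ≤ T) (h1 : T ≤ 1 / 2) (h0' : -1 ≤ T') (h1' : T' ≤ 1 / 2)
    (ht : 0 ≤ t) (ht8 : t ≤ 4 / 5) : 132 / 100 * t ^ 2 * (t ^ 2 - 22 / 100) * (t ^ 2 - 45 / 100) ≤
      ph T + 3 / 4 * (T - t) ^ 2 + (ph T' + 3 / 4 * (T' + t) ^ 2) := by
  have hph := ph_nonneg h0 h1
  have hph' := ph_nonneg h0' h1'
  have e1 : 0 ≤ (T - t) ^ 2 := sq_nonneg _
  have e2 : 0 ≤ (T' + t) ^ 2 := sq_nonneg _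
  have hx0 : 0 ≤ t ^ 2 := sq_nonneg _
  rcases le_total (t ^ 2) (19 / 100) with h | h
  · have a := orth_nonneg h0 h1 h0' h1' ht
    have : 0 ≤ t ^ 2 * (393 / 10000 + 444 / 10000 * t ^ 2 - 132 / 100 * (t ^ 2) ^ 2) :=
      mul_nonneg hx0 (by nlinarith)
    nlinarith
  have ht4 : 43 / 100 ≤ t := by nlinarith
  rcases le_total (t ^ 2) (22 / 100) with h2 | h2
  · have hb : 132 / 100 * t ^ 2 * (t ^ 2 - 22 / 100) * (t ^ 2 - 45 / 100) ≤
        67 / 1000 * (22 / 100 - t ^ 2) := by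
      have : 132 / 100 * (t ^ 2 * (45 / 100 - t ^ 2)) ≤ 67 / 1000 := by
        nlinarith [sq_nonneg (t ^ 2 - 225 / 1000)]
      have := mul_le_mul_of_nonneg_right this (sub_nonneg.2 h2)
      linarith
    have hc : 67 / 1000 * (22 / 100 - t ^ 2) ≤ 3 / 4 * (1 / 2 - t) ^ 2 := by
      nlinarith [sq_nonneg (t - 459 / 1000)]
    have hc2 : 67 / 1000 * (22 / 100 - t ^ 2) ≤ 201 / 100000 := by nlinarith
    rcases le_total T (38 / 100) with h3 | h3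
    · have := low75 h0 h3 ht
      nlinarith
    rcases le_total T (47 / 100) with h4 | h4
    · have := ph_mid h3 h4
      nlinarith
    · have := end75 (t := t) h4 h1 (by linarith)
      linarith
  rcases le_total (t ^ 2) (45 / 100) with h3 | h3
  · have : 132 / 100 * t ^ 2 * (t ^ 2 - 22 / 100) * (t ^ 2 - 45 / 100) ≤ 0 := by
      have := mul_nonneg (mul_nonneg hx0 (sub_nonneg.2 h2)) (sub_nonneg.2 h3)
      nlinarith
    nlinarith
  · have h5 := deep_end (t := t) (by nlinarith) ht8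
    have h6 : (t - 1 / 2) ^ 2 ≤ (T - t) ^ 2 := by
      have : 67 / 100 ≤ t := by nlinarith
      have h7 : t - 1 / 2 ≤ t - T := by linarith
      have h8 : 0 ≤ t - 1 / 2 := by linarith
      have h9 := pow_le_pow_left₀ h8 h7 2
      have e : (T - t) ^ 2 = (t - T) ^ 2 := by ring
      rw [e]
      exact h9
    nlinarith

/-- Pair of opposite roots, far from every root. -/
theorem deep_pair {T T' t : ℝ} (h0 : -1 ≤ T) (h1 : T ≤ 1 / 2) (h0' : -1 ≤ T') (h1' : T' ≤ 1 / 2)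
    (ht : -(4 / 5) ≤ t) (ht8 : t ≤ 4 / 5) :
    132 / 100 * t ^ 2 * (t ^ 2 - 22 / 100) * (t ^ 2 - 45 / 100) ≤
      ph T + 3 / 4 * (T - t) ^ 2 + (ph T' + 3 / 4 * (T' + t) ^ 2) := by
  rcases le_total 0 t with h | h
  · exact deep_nonneg h0 h1 h0' h1' h ht8
  · have h := deep_nonneg (t := -t) h0' h1' h0 h1 (neg_nonneg.2 h) (by linarith)
    have e3 : (T' - -t) ^ 2 = (T' + t) ^ 2 := by ring
    have e4 : (T + -t) ^ 2 = (T - t) ^ 2 := by ring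
    rw [e3, e4, neg_sq] at h
    linarith

/-- Contact: `phi T + (3/4)(T - 1/2 - y)^2 >= mor + (683/1000) (y_+)^2`. -/
theorem con75 {T y : ℝ} (h0 : -1 ≤ T) (h1 : T ≤ 1 / 2) :
    67 / 1000 * y ^ 2 - 56 / 100 * y ^ 4 + 683 / 1000 * (max y 0) ^ 2 ≤
      ph T + 3 / 4 * (T - 1 / 2 - y) ^ 2 := by
  have hph := ph_nonneg h0 h1
  rcases le_total 0 y with hy | hy
  · rw [max_eq_left hy]
    have : 0 ≤ y ^ 4 := by positivity
    nlinarith [mul_nonneg (sub_nonneg.2 h1) hy]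
  · rw [max_eq_right hy]
    have := mor_half_all (y := y) h0 h1
    nlinarith [sq_nonneg (T - 1 / 2 - y)]

/-- All labels with `M = 3/4`. -/
theorem mor75 {l T y : ℝ} (hl : l = 1 / 2 ∨ l = 0 ∨ l = -1 / 2 ∨ l = -1) (h0 : -1 ≤ T)
    (h1 : T ≤ 1 / 2) :
    67 / 1000 * y ^ 2 - 56 / 100 * y ^ 4 ≤ ph T + 3 / 4 * (T - l - y) ^ 2 := by
  have := mor_all (y := y) hl h0 h1
  nlinarith [sq_nonneg (T - l - y)]

end TOBM

end Pool.Agent.Lib.MP_f1379f_gt.FV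
end

section
/-!
# MP_f1379f_gt, full Q1: the star with threshold `6/25`

`star57b`: `353/1000 * td (6/25) z <= sum over the 57 pins`, and its sum over the points.
-/
set_option autoImplicit false

namespace Pool.Agent.Lib.MP_f1379f_gt.FV

open Finset

namespace TSHM

open TSDM

theorem quart_end {t : ℝ} (h1 : 159 / 1000 ≤ t) (h2 : t ≤ 1 / 4) :
    2 * (8475 / 10 ^ 7) * (512 / 9) * ((1 - 2 * t) ^ 2 * (1 + t - 2 * t ^ 2)) ≤ 67 / 1000 - 56 / 100 * t ^ 2 := by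
  have hx : 0 ≤ t - 159 / 1000 := sub_nonneg.2 h1
  have hz : 0 ≤ 1 / 4 - t := sub_nonneg.2 h2
  have e : 67 / 1000 - 56 / 100 * t ^ 2 - (2 * (8475 / 10 ^ 7) * (512 / 9) * ((1 - 2 * t) ^ 2 * (1 + t - 2 * t ^ 2))) =
      (29332500853952 / 642890259375) * (1 / 4 - t) ^ 4 +
      (1601833765888 / 5143122075) * (t - 159 / 1000) ^ 1 * (1 / 4 - t) ^ 3 +
      (115975569280 / 205724883) * (t - 159 / 1000) ^ 2 * (1 / 4 - t) ^ 2 +
      (25256640000 / 68574961) * (t - 159 / 1000) ^ 3 * (1 / 4 - t) ^ 1 +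
      (4880000000 / 68574961) * (t - 159 / 1000) ^ 4 := by
    ring
  have h : 0 ≤ 67 / 1000 - 56 / 100 * t ^ 2 - (2 * (8475 / 10 ^ 7) * (512 / 9) * ((1 - 2 * t) ^ 2 * (1 + t - 2 * t ^ 2))) := by
    rw [e]
    generalize t - 159 / 1000 = x at hx ⊢
    generalize 1 / 4 - t = z at hz ⊢
    positivity
  linarith

/-- Comparison of the quartic with the sine, `0 <= y <= 1/4`. -/
theorem sin_poly {y : ℝ} (h0 : 0 ≤ y) (h1 : y ≤ 1 / 4) :
    2 * (8475 / 10 ^ 7) * Real.sin (2 * Real.pi * y) ^ 2 ≤ 67 / 1000 * y ^ 2 - 56 / 100 * y ^ 4 := by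
  have hp := Real.pi_gt_d4
  have hp2 := Real.pi_lt_d4
  rcases le_total y (159 / 1000) with h | h
  · have hx2 : (2 * Real.pi * y) ^ 2 = 4 * Real.pi ^ 2 * y ^ 2 := by ring
    have hx0 : 0 ≤ 2 * Real.pi * y := by positivity
    have hx1 : 2 * Real.pi * y ≤ 1 := by nlinarith
    generalize 2 * Real.pi * y = x at hx2 hx0 hx1 ⊢
    have hb := Real.sin_bound (x := x) (by rw [abs_of_nonneg hx0]; exact hx1)
    rw [abs_of_nonneg hx0] at hb
    have hs : Real.sin x ≤ x * (1 - x ^ 2 / 6 + 1 / 100 * x ^ 4) := by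
      have := (abs_le.1 hb).2
      have e : x * (1 - x ^ 2 / 6 + 1 / 100 * x ^ 4) = x - x ^ 3 / 6 + x ^ 5 / 100 := by ring
      rw [e]
      linarith
    have hs0 : 0 ≤ Real.sin x := Real.sin_nonneg_of_nonneg_of_le_pi hx0 (by linarith)
    have h2 : Real.sin x ^ 2 ≤ (x * (1 - x ^ 2 / 6 + 1 / 100 * x ^ 4)) ^ 2 :=
      pow_le_pow_left₀ hs0 hs 2
    have hq0 : 0 ≤ x ^ 2 := sq_nonneg x
    have hq1 : x ^ 2 ≤ 1 := by nlinarith
    have h3 : (1 - x ^ 2 / 6 + 1 / 100 * x ^ 4) ^ 2 ≤ 1 - 28 / 100 * x ^ 2 := by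
      have e : x ^ 4 = (x ^ 2) ^ 2 := by ring
      rw [e]
      generalize x ^ 2 = q at hq0 hq1 ⊢
      have h4 : 1 - q / 6 + 1 / 100 * q ^ 2 ≤ 1 - 156 / 1000 * q := by nlinarith
      have h5 : 0 ≤ 1 - q / 6 + 1 / 100 * q ^ 2 := by nlinarith
      have h6 := pow_le_pow_left₀ h5 h4 2
      nlinarith
    have h8 : Real.sin x ^ 2 ≤ x ^ 2 * (1 - 28 / 100 * x ^ 2) := by
      refine h2.trans ?_
      rw [mul_pow]
      exact mul_le_mul_of_nonneg_left h3 hq0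
    have hpl : (9.869 : ℝ) ≤ Real.pi ^ 2 := by nlinarith
    have hpu : Real.pi ^ 2 ≤ 9.8697 := by nlinarith
    have hy0 : 0 ≤ y ^ 2 := sq_nonneg y
    have h9 : x ^ 2 ≤ 394788 / 10000 * y ^ 2 := by
      rw [hx2]
      nlinarith
    have h10 : 39476 / 1000 * y ^ 2 ≤ x ^ 2 := by
      rw [hx2]
      nlinarith
    have g1 : 0 ≤ 1 - 28 / 100 * x ^ 2 := by linarith
    have g2 := mul_le_mul_of_nonneg_right h9 g1
    have g3 : 1 - 28 / 100 * x ^ 2 ≤ 1 - 28 / 100 * (39476 / 1000 * y ^ 2) := by linarith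
    have g4 := mul_le_mul_of_nonneg_left g3 (by positivity : (0:ℝ) ≤ 394788 / 10000 * y ^ 2)
    have e4 : y ^ 4 = (y ^ 2) ^ 2 := by ring
    rw [e4]
    generalize y ^ 2 = w at hy0 g2 g4 ⊢
    nlinarith [mul_nonneg hy0 hy0]
  · have hk := TSAM.key (w := 1 - 4 * y) (by rw [abs_le]; constructor <;> linarith)
    have e1 : Real.cos (Real.pi * (1 - 4 * y) / 2) = Real.sin (2 * Real.pi * y) := by
      rw [← Real.cos_pi_div_two_sub]
      congr 1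
      ring
    rw [e1] at hk
    refine le_trans (mul_le_mul_of_nonneg_left hk (by norm_num)) ?_
    have e2 : 67 / 1000 * y ^ 2 - 56 / 100 * y ^ 4
        - 2 * (8475 / 10 ^ 7) * ((1 - (1 - 4 * y) ^ 2) ^ 2 * (1 - (1 - 4 * y) ^ 2 / 9)) =
        y ^ 2 * (67 / 1000 - 56 / 100 * y ^ 2
          - 2 * (8475 / 10 ^ 7) * (512 / 9) * ((1 - 2 * y) ^ 2 * (1 + y - 2 * y ^ 2))) := by
      ring
    have h3 := quart_end h h1
    have h4 := mul_nonneg (sq_nonneg y) (sub_nonneg.2 h3)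
    rw [← e2] at h4
    linarith

theorem cos_poly {y : ℝ} (h0 : -(1 / 4) ≤ y) (h1 : y ≤ 1 / 4) :
    8475 / 10 ^ 7 * (1 - Real.cos (4 * Real.pi * y)) ≤ 67 / 1000 * y ^ 2 - 56 / 100 * y ^ 4 := by
  have e1 : 1 - Real.cos (4 * Real.pi * y) = 2 * Real.sin (2 * Real.pi * y) ^ 2 := by
    have h2 : 4 * Real.pi * y = 2 * (2 * Real.pi * y) := by ring
    rw [h2, Real.cos_two_mul]
    have := Real.sin_sq_add_cos_sq (2 * Real.pi * y)
    linarith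
  rw [e1]
  rcases le_total 0 y with h | h
  · have := sin_poly h h1
    linarith
  · have h2 := sin_poly (y := -y) (neg_nonneg.2 h) (by linarith)
    have e2 : 2 * Real.pi * -y = -(2 * Real.pi * y) := by ring
    have e3 : (-y) ^ 4 = y ^ 4 := by ring
    rw [e2, Real.sin_neg, neg_sq, neg_sq, e3] at h2
    linarith

/-- Trigonometric Moreau minorant with the better constant. -/
theorem trig3 {T s : ℝ} (h0 : -1 ≤ T) (h1 : T ≤ 1 / 2) (hs0 : -1 ≤ s) (_hs1 : s ≤ 1) :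
    8475 / 10 ^ 7 * (1 - Real.cos (4 * Real.pi * s)) ≤ ph T + 4 / 25 * (T - s) ^ 2 := by
  have hph := ph_nonneg h0 h1
  have hc1 := Real.neg_one_le_cos (4 * Real.pi * s)
  have hshift : ∀ (l : ℝ) (n : ℤ), 4 * Real.pi * l = n * (2 * Real.pi) →
      Real.cos (4 * Real.pi * s) = Real.cos (4 * Real.pi * (s - l)) := by
    intro l n h
    have e : 4 * Real.pi * s = 4 * Real.pi * (s - l) + n * (2 * Real.pi) := by
      rw [← h]
      ring
    rw [e, Real.cos_add_int_mul_two_pi]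
  have hcase : ∀ (l : ℝ) (n : ℤ), (l = 1 / 2 ∨ l = 0 ∨ l = -1 / 2 ∨ l = -1) →
      4 * Real.pi * l = n * (2 * Real.pi) → -(1 / 4) ≤ s - l → s - l ≤ 1 / 4 →
      8475 / 10 ^ 7 * (1 - Real.cos (4 * Real.pi * s)) ≤ ph T + 4 / 25 * (T - s) ^ 2 := by
    intro l n hl h g0 g1
    rw [hshift l n h]
    have a := TOAM.mor_all (y := s - l) hl h0 h1
    have b := cos_poly g0 g1
    have e : T - l - (s - l) = T - s := by ring
    rw [e] at a
    linarith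
  rcases le_total (3 / 4) s with h | h
  · have : (1 / 4 : ℝ) ^ 2 ≤ (s - T) ^ 2 := by
      apply pow_le_pow_left₀ (by norm_num)
      linarith
    nlinarith
  rcases le_total (1 / 4) s with h2 | h2
  · exact hcase (1 / 2) 1 (Or.inl rfl) (by push_cast; ring) (by linarith) (by linarith)
  rcases le_total (-(1 / 4)) s with h3 | h3
  · exact hcase 0 0 (Or.inr (Or.inl rfl)) (by push_cast; ring) (by linarith) (by linarith)
  rcases le_total (-(3 / 4)) s with h4 | h4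
  · exact hcase (-1 / 2) (-1) (Or.inr (Or.inr (Or.inl rfl))) (by push_cast; ring) (by linarith)
      (by linarith)
  · exact hcase (-1) (-2) (Or.inr (Or.inr (Or.inr rfl))) (by push_cast; ring) (by linarith)
      (by linarith)

theorem poly_star2 {N t : ℝ} (ht : t ^ 2 ≤ N) (hN : N ≤ 19 / 250) :
    353 / 1000 * min N (36 / 625) ≤ 67 / 1000 * (6 * N + 9 * t ^ 2) - 56 / 100 *
      (9 / 2 * t ^ 4 + 9 * t ^ 2 * (N - t ^ 2) + 3 / 2 * (N - t ^ 2) ^ 2) := by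
  have ht0 : 0 ≤ t ^ 2 := sq_nonneg t
  have hN0 : 0 ≤ N := ht0.trans ht
  have e1 : 67 / 1000 * (6 * N + 9 * t ^ 2) - 56 / 100 *
      (9 / 2 * t ^ 4 + 9 * t ^ 2 * (N - t ^ 2) + 3 / 2 * (N - t ^ 2) ^ 2) =
      402 / 1000 * N - 84 / 100 * N ^ 2 + t ^ 2 * (603 / 1000 - 336 / 100 * N + 168 / 100 * t ^ 2) := by
    ring
  have e2 : 0 ≤ t ^ 2 * (603 / 1000 - 336 / 100 * N + 168 / 100 * t ^ 2) :=
    mul_nonneg ht0 (by linarith)
  rw [e1]
  rcases le_total N (36 / 625) with h | h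
  · rw [min_eq_left h]
    nlinarith
  · rw [min_eq_right h]
    nlinarith

end TSHM

open TSM TSHM in
/-- **The star, threshold `6/25`**. -/
theorem star57b {x : E} (hx : x ∈ UE) {z : E} (h0 : 95 / 100 ≤ ‖z‖ ^ 2) (h1 : ‖z‖ ^ 2 ≤ 1)
    (T : E → ℝ) (hT0 : ∀ b ∈ insert x (nb x), -1 ≤ T b)
    (hT1 : ∀ b ∈ insert x (nb x), T b ≤ 1 / 2) :
    353 / 1000 * TRPM.td (6 / 25) z ≤
      ∑ b ∈ insert x (nb x), (TSDM.ph (T b) + 4 / 25 * (T b - (inner ℝ z b : ℝ)) ^ 2) := by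
  have htd : TRPM.td (6 / 25) z ≤ 36 / 625 := (TRPM.td_le _ _).trans (by norm_num)
  have hI : insert x (nb x) ⊆ UE := by
    intro b hb
    rcases Finset.mem_insert.1 hb with h | h
    · rw [h]
      exact hx
    · exact UMO.nb_UE h
  by_cases hF : ∑ b ∈ nb x, (1 - Real.cos (4 * Real.pi * (inner ℝ z b : ℝ))) < 24
  · obtain ⟨f, hf, hd⟩ := trig_label hx h0 h1 hF
    obtain ⟨g1, g2⟩ := star_lab hI hf h0 hd T hT0 hT1
    by_cases hfI : f ∈ insert x (nb x)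
    · have := g1 hfI
      linarith
    · refine le_trans ?_ (g2 hfI)
      have htd2 : TRPM.td (6 / 25) z ≤ min (‖z - f‖ ^ 2) (36 / 625) :=
        le_min (TRPM.td_le_sq _ _ hf) htd
      rw [Finset.sum_sub_distrib, ← Finset.mul_sum, ← Finset.mul_sum, pin_frame hx, pins4 hx]
      have ht : (inner ℝ (z - f) x : ℝ) ^ 2 ≤ ‖z - f‖ ^ 2 := by
        have h2 := abs_real_inner_le_norm (z - f) x
        rw [AllO.hUEF.nrm x hx, mul_one] at h2
        rw [← sq_abs]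
        exact pow_le_pow_left₀ (abs_nonneg _) h2 2
      have h3 := poly_star2 ht hd
      linarith
  · push Not at hF
    have h2 : ∑ b ∈ nb x, 8475 / 10 ^ 7 * (1 - Real.cos (4 * Real.pi * (inner ℝ z b : ℝ))) ≤
        ∑ b ∈ nb x, (TSDM.ph (T b) + 4 / 25 * (T b - (inner ℝ z b : ℝ)) ^ 2) :=
      Finset.sum_le_sum fun b hb => by
        have hbU := UMO.nb_UE hb
        have hin := abs_real_inner_le_norm z b
        rw [AllO.hUEF.nrm b hbU, mul_one] at hin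
        have hz : ‖z‖ ≤ 1 := by nlinarith [norm_nonneg z]
        have hin2 := abs_le.1 (hin.trans hz)
        exact trig3 (hT0 b (Finset.mem_insert_of_mem hb)) (hT1 b (Finset.mem_insert_of_mem hb))
          hin2.1 hin2.2
    rw [← Finset.mul_sum] at h2
    rw [Finset.sum_insert (notin_nb hx)]
    have h3 := TSDM.ph_nonneg (hT0 x (Finset.mem_insert_self _ _))
      (hT1 x (Finset.mem_insert_self _ _))
    have h4 := sq_nonneg (T x - (inner ℝ z x : ℝ))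
    linarith

namespace TSGM

theorem sum_starb {x : E} (hx : x ∈ UE) (A : E ≃ₗᵢ[ℝ] E) (Z : Finset E) (p : E → E)
    {R η lam : ℝ} (hZ1 : ∀ z ∈ Z, ‖z‖ ^ 2 ≤ 1) (hZr : ∀ z ∈ Z, 1 - ‖z‖ ^ 2 ≤ 7 / 150)
    (hp1 : ∀ b ∈ insert x (nb x), ‖p b‖ ^ 2 ≤ 1)
    (hpr : ∀ b ∈ insert x (nb x), 1 - ‖p b‖ ^ 2 ≤ 7 / 150)
    (hT : ∀ z ∈ Z, ∀ b ∈ insert x (nb x), TT z (p b) ≤ 1 / 2)
    (hZs : ∑ z ∈ Z, (1 - ‖z‖ ^ 2) ≤ 47 / 1000)
    (hps : ∑ b ∈ insert x (nb x), (1 - ‖p b‖ ^ 2) ≤ 47 / 1000)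
    (hR : ∑ z ∈ Z, ∑ b ∈ insert x (nb x), base (TT z (p b)) * (1 / 2 - TT z (p b)) ≤ R)
    (hη : ∑ b ∈ insert x (nb x), ‖A (p b) - b‖ ^ 2 ≤ η) (hlam0 : 0 ≤ lam)
    (hlam : ∀ d : E, ∑ z ∈ Z, (inner ℝ z d : ℝ) ^ 2 ≤ lam * ‖d‖ ^ 2) :
    353 / 1000 * ∑ z ∈ Z, TRPM.td (6 / 25) (A z) ≤
      R + 4 / 25 * (1005 / 1000 * (lam * η) + 3 / 10000) := by
  generalize hI : insert x (nb x) = I at hp1 hpr hT hps hR hη
  have hstar : ∀ z ∈ Z, 353 / 1000 * TRPM.td (6 / 25) (A z) ≤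
      ∑ b ∈ I, (base (TT z (p b)) * (1 / 2 - TT z (p b))
        + 4 / 25 * (1005 / 1000 * (inner ℝ z (A.symm (A (p b) - b)) : ℝ) ^ 2
          + 11 / 100 * ((1 - ‖z‖ ^ 2) * (1 - ‖p b‖ ^ 2)))) := by
    intro z hz
    have hAz : ‖A z‖ = ‖z‖ := LinearIsometryEquiv.norm_map _ _
    have h1 := star57b hx (z := A z) (by rw [hAz]; linarith [hZr z hz]) (by rw [hAz]; exact hZ1 z hz)
      (fun b => TT z (p b)) (by
        rw [hI]
        exact fun b hb => TT_ge (hZ1 z hz) (hp1 b hb)) (by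
        rw [hI]
        exact fun b hb => hT z hz b hb)
    rw [hI] at h1
    refine h1.trans (Finset.sum_le_sum fun b hb => ?_)
    have h2 : (inner ℝ z (A.symm (A (p b) - b)) : ℝ) = inner ℝ z (p b) - inner ℝ (A z) b := by
      rw [← LinearIsometryEquiv.inner_map_map A z, LinearIsometryEquiv.apply_symm_apply,
        inner_sub_right, LinearIsometryEquiv.inner_map_map]
    have h3 := term (T := TT z (p b)) (s := inner ℝ (A z) b)
      (x := inner ℝ z (A.symm (A (p b) - b))) (c := 1 - ‖z‖ ^ 2) (d := 1 - ‖p b‖ ^ 2) (by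
        rw [h2]
        unfold TT
        ring) (by linarith [hZ1 z hz]) (hZr z hz) (by linarith [hp1 b hb]) (hpr b hb)
    have h4 : TSDM.ph (TT z (p b)) = base (TT z (p b)) * (1 / 2 - TT z (p b)) := by
      unfold TSDM.ph base
      ring
    show TSDM.ph (TT z (p b)) + 4 / 25 * (TT z (p b) - (inner ℝ (A z) b : ℝ)) ^ 2 ≤ _
    rw [h4]
    linarith
  have hsum := Finset.sum_le_sum hstar
  rw [← Finset.mul_sum] at hsum
  have hsplit : ∀ F G H : E → E → ℝ, ∑ z ∈ Z, ∑ b ∈ I, (F z b + 4 / 25 * (1005 / 1000 * G z b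
      + 11 / 100 * H z b)) = ∑ z ∈ Z, ∑ b ∈ I, F z b + 4 / 25 * (1005 / 1000 *
        ∑ z ∈ Z, ∑ b ∈ I, G z b + 11 / 100 * ∑ z ∈ Z, ∑ b ∈ I, H z b) := by
    intro F G H
    simp only [Finset.mul_sum, ← Finset.sum_add_distrib]
  rw [hsplit (fun z b => base (TT z (p b)) * (1 / 2 - TT z (p b)))
    (fun z b => (inner ℝ z (A.symm (A (p b) - b)) : ℝ) ^ 2)
    (fun z b => (1 - ‖z‖ ^ 2) * (1 - ‖p b‖ ^ 2))] at hsum
  have hG : ∑ z ∈ Z, ∑ b ∈ I, (inner ℝ z (A.symm (A (p b) - b)) : ℝ) ^ 2 ≤ lam * η := by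
    rw [Finset.sum_comm]
    have h1 : ∑ b ∈ I, ∑ z ∈ Z, (inner ℝ z (A.symm (A (p b) - b)) : ℝ) ^ 2 ≤
        ∑ b ∈ I, lam * ‖A (p b) - b‖ ^ 2 := by
      refine Finset.sum_le_sum fun b _ => ?_
      have h2 := hlam (A.symm (A (p b) - b))
      rwa [LinearIsometryEquiv.norm_map] at h2
    rw [← Finset.mul_sum] at h1
    exact h1.trans (mul_le_mul_of_nonneg_left hη hlam0)
  have hH : ∑ z ∈ Z, ∑ b ∈ I, (1 - ‖z‖ ^ 2) * (1 - ‖p b‖ ^ 2) ≤ (47 / 1000) * (47 / 1000) := by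
    rw [← Finset.sum_mul_sum]
    exact mul_le_mul hZs hps (Finset.sum_nonneg fun b hb => by linarith [hp1 b hb]) (by norm_num)
  linarith

end TSGM

end Pool.Agent.Lib.MP_f1379f_gt.FV
end

section
/-!
# MP_f1379f_gt, STAB2: the hard constraint of an outlier
-/
set_option autoImplicit false

open Finset

namespace Pool.Agent.Lib.MP_f1379f_gt.FV

namespace TOFM

/-- One pair. -/
theorem one (t g κ : ℝ) (hκ : 0 < κ) (hκ1 : κ ≤ 1) :
    (1 - κ) * t ^ 2 - (1 / κ - 1) * g ^ 2 ≤ max 0 (t - g) ^ 2 + max 0 (-t - g) ^ 2 := by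
  have h1 : 1 / κ - 1 = (1 - κ) / κ := by field_simp
  have h0 : 0 ≤ (1 - κ) / κ := div_nonneg (by linarith) hκ.le
  have key : ∀ s : ℝ, 0 ≤ s → (1 - κ) * s ^ 2 - (1 / κ - 1) * g ^ 2 ≤ max 0 (s - g) ^ 2 := by
    intro s hs
    rcases le_total s g with h | h
    · rw [max_eq_left (by linarith), h1]
      have h2 : (1 - κ) * s ^ 2 ≤ (1 - κ) / κ * g ^ 2 := by
        have h3 : (1 - κ) ≤ (1 - κ) / κ := by
          rw [le_div_iff₀ hκ]
          nlinarith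
        have h4 : s ^ 2 ≤ g ^ 2 := pow_le_pow_left₀ hs h 2
        exact mul_le_mul h3 h4 (sq_nonneg _) h0
      linarith
    · rw [max_eq_right (by linarith)]
      have h2 : 1 / κ * g ^ 2 + κ * s ^ 2 - 2 * s * g = (κ * s - g) ^ 2 / κ := by
        field_simp
        ring
      have h3 : 0 ≤ (κ * s - g) ^ 2 / κ := by positivity
      nlinarith
  rcases le_total 0 t with h | h
  · have := key t h
    have h2 := sq_nonneg (max 0 (-t - g))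
    linarith
  · have := key (-t) (by linarith)
    have h2 := sq_nonneg (max 0 (t - g))
    rw [neg_sq] at this
    linarith

/-- **The neighbours of a root**: quadratic lower bound of `∑ (<y,f> - 1/2)_+^2`. -/
theorem nb_bound {f0 : E} (h0 : f0 ∈ UE) (y : E) {κ : ℝ} (hκ : 0 < κ) (hκ1 : κ ≤ 1) :
    3 * (1 - κ) * (‖y‖ ^ 2 - (inner ℝ y f0 : ℝ) ^ 2) -
      28 * (1 / κ - 1) * ((1 - (inner ℝ y f0 : ℝ)) / 2) ^ 2 ≤
      ∑ f ∈ nb f0, max 0 ((inner ℝ y f : ℝ) - 1 / 2) ^ 2 := by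
  set α : ℝ := inner ℝ y f0 with hαd
  set g : ℝ := (1 - α) / 2 with hg
  set w : E := y - α • f0 with hw
  have hn : ‖f0‖ = 1 := AllO.hUEF.nrm f0 h0
  have hff : (inner ℝ f0 f0 : ℝ) = 1 := by rw [real_inner_self_eq_norm_sq, hn]; norm_num
  have hwx : (inner ℝ w f0 : ℝ) = 0 := by
    rw [hw, inner_sub_left, real_inner_smul_left, hff]
    ring
  have hwn : ‖w‖ ^ 2 = ‖y‖ ^ 2 - α ^ 2 := by
    rw [hw, norm_sub_sq_real, norm_smul, hn, real_inner_smul_right, ← hαd, Real.norm_eq_abs,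
      mul_one, sq_abs]
    ring
  have hval : ∀ f ∈ nb f0, (inner ℝ y f : ℝ) - 1 / 2 = inner ℝ w f - g := by
    intro f hf
    have h1 : (inner ℝ f0 f : ℝ) = 1 / 2 := by rw [real_inner_comm]; exact UMO.nb_ip hf
    rw [hw, inner_sub_left, real_inner_smul_left, h1, hg]
    ring
  have hrew : ∑ f ∈ nb f0, max 0 ((inner ℝ y f : ℝ) - 1 / 2) ^ 2 =
      ∑ f ∈ nb f0, max 0 ((inner ℝ w f : ℝ) - g) ^ 2 :=
    sum_congr rfl fun f hf => by rw [hval f hf]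
  have hflip : ∑ f ∈ nb f0, max 0 ((inner ℝ w f : ℝ) - g) ^ 2 =
      ∑ f ∈ nb f0, max 0 (-(inner ℝ w f : ℝ) - g) ^ 2 := by
    have h1 := UMO.nb_inv f0 h0 (fun f => max 0 ((inner ℝ w f : ℝ) - g) ^ 2)
    rw [← h1]
    refine sum_congr rfl fun f _ => ?_
    rw [inner_sub_right, hwx]
    ring_nf
  have hsum : ∑ f ∈ nb f0, ((1 - κ) * (inner ℝ w f : ℝ) ^ 2 - (1 / κ - 1) * g ^ 2) ≤
      ∑ f ∈ nb f0, (max 0 ((inner ℝ w f : ℝ) - g) ^ 2 + max 0 (-(inner ℝ w f : ℝ) - g) ^ 2) :=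
    sum_le_sum fun f _ => one _ g κ hκ hκ1
  rw [sum_add_distrib, ← hflip, sum_sub_distrib, ← mul_sum, UMO.n2 f0 h0 w hwx, sum_const,
    AllO.hUEF.c56 f0 h0, hwn, nsmul_eq_mul] at hsum
  push_cast at hsum
  rw [hrew]
  linarith

/-- The hard constraint: `|δ| >= <y,f> - 1/2`. -/
theorem hard {y d f : E} (hy : ‖y‖ ≤ 1) {e : ℝ} (he : 0 ≤ e)
    (hT : (inner ℝ y (f + d) : ℝ) + e ≤ 1 / 2) :
    max 0 ((inner ℝ y f : ℝ) - 1 / 2) ^ 2 ≤ ‖d‖ ^ 2 := by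
  rw [inner_add_right] at hT
  have h1 := abs_real_inner_le_norm y d
  have h2 : ‖y‖ * ‖d‖ ≤ ‖d‖ := mul_le_of_le_one_left (norm_nonneg _) hy
  have h3 := (abs_le.1 h1).1
  rcases le_total ((inner ℝ y f : ℝ) - 1 / 2) 0 with h | h
  · rw [max_eq_left h]
    have := sq_nonneg ‖d‖
    linarith
  · rw [max_eq_right h]
    exact pow_le_pow_left₀ h (by linarith) 2

end TOFM

end Pool.Agent.Lib.MP_f1379f_gt.FV
end
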