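import Pool.Agent.Lib.MP_f1379f_gt.FV.TSA
import Pool.Agent.Lib.MP_f1379f_gt.FV.TOF
import Pool.Agent.Lib.MP_f1379f_gt.FV.CertDefs

/-!
# MP_f1379f_gt, full Q1: the energy of the inliers

The pairs of the labelled points `u e`, `e` in `I`, have energy at least
`S (3.04 - .1264 lam - 1.826 S) - .001`, `S` the total squared displacement, where `lam` bounds the
frame operator of the missing labels.
-/

set_option autoImplicit false

namespace Pool.Agent.Lib.MP_f1379f_gt.FV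

open Finset

namespace SIM

/-- The even minorant of one product. -/
noncomputable def hf (t : ℝ) : ℝ := 59 / 1000 * t ^ 2 + t ^ 4 - 60 * t ^ 6

theorem hf_le (t : ℝ) : hf t ≤ (59 / 1000 + 1 / 240) * t ^ 2 := by
  unfold hf
  nlinarith [mul_nonneg (sq_nonneg t) (sq_nonneg (t ^ 2 - 1 / 120))]

/-- Exchange of the two indices. -/
theorem swap (I : Finset E) (g : E → E → ℝ) :
    ∑ e ∈ I, ∑ f ∈ I.erase e, g e f = ∑ e ∈ I, ∑ f ∈ I.erase e, g f e := by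
  refine sum_comm' fun x y => ?_
  simp only [mem_erase]
  exact ⟨fun h => ⟨⟨fun h1 => h.2.1 h1.symm, h.1⟩, h.2.2⟩,
    fun h => ⟨h.1.2, fun h1 => h.1.1 h1.symm, h.2⟩⟩

theorem split_diag (I : Finset E) (g : E → E → ℝ) :
    ∑ e ∈ I, ∑ f ∈ I.erase e, g e f = ∑ e ∈ I, ∑ f ∈ I, g e f - ∑ e ∈ I, g e e := by
  rw [← sum_sub_distrib]
  refine sum_congr rfl fun e he => ?_
  rw [← add_sum_erase I (g e) he]
  ring

theorem sum_hf (J : Finset E) (d : E) : ∑ f ∈ J, hf (inner ℝ d f : ℝ) =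
    59 / 1000 * ∑ f ∈ J, (inner ℝ d f : ℝ) ^ 2 + ∑ f ∈ J, (inner ℝ d f : ℝ) ^ 4
      - 60 * ∑ f ∈ J, (inner ℝ d f : ℝ) ^ 6 := by
  unfold hf
  rw [sum_sub_distrib, sum_add_distrib, ← mul_sum, ← mul_sum]

theorem row_arith {s lam q all mis inn b2 hb t4 t6 : ℝ} (h4 : t4 = s ^ 2) (h6 : t6 = s ^ 3)
    (hs : s ≤ 1 / 25) (h1 : all = 59 / 1000 * (30 * s) + 9 * t4 - 60 * (15 / 4 * t6))
    (h2 : mis + inn = all) (h3 : hb + q = inn) (h5 : mis ≤ (59 / 1000 + 1 / 240) * (lam * s))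
    (h7 : hb ≤ (59 / 1000 + 1 / 240) * b2) :
    177 / 100 * s - (59 / 1000 + 1 / 240) * (lam * s) - (59 / 1000 + 1 / 240) * b2 ≤ q := by
  have h8 : 0 ≤ 225 * (s ^ 2 * (1 / 25 - s)) :=
    mul_nonneg (by norm_num) (mul_nonneg (sq_nonneg s) (sub_nonneg.2 hs))
  subst h4 h6
  linarith

/-- One row. -/
theorem row {I : Finset E} (hI : I ⊆ UE) {lam : ℝ}
    (hlam : ∀ v : E, ∑ f ∈ UE \ I, (inner ℝ v f : ℝ) ^ 2 ≤ lam * ‖v‖ ^ 2) {e d : E} (he : e ∈ I)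
    (hd : ‖d‖ ^ 2 ≤ 1 / 25) :
    177 / 100 * ‖d‖ ^ 2 - (59 / 1000 + 1 / 240) * (lam * ‖d‖ ^ 2)
      - (59 / 1000 + 1 / 240) * (inner ℝ d e : ℝ) ^ 2 ≤
      ∑ f ∈ I.erase e, hf (inner ℝ d f : ℝ) := by
  have h1 : ∑ f ∈ UE, hf (inner ℝ d f : ℝ) =
      59 / 1000 * (30 * ‖d‖ ^ 2) + 9 * ‖d‖ ^ 4 - 60 * (15 / 4 * ‖d‖ ^ 6) := by
    rw [sum_hf UE d, UMO.m2, UMO.m4, L1M.m6]
  have h2 := sum_sdiff (f := fun f => hf (inner ℝ d f : ℝ)) hI
  have h3 := add_sum_erase I (fun f => hf (inner ℝ d f : ℝ)) he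
  have h4 : ∑ f ∈ UE \ I, hf (inner ℝ d f : ℝ) ≤ (59 / 1000 + 1 / 240) * (lam * ‖d‖ ^ 2) := by
    refine (sum_le_sum fun f _ => hf_le (inner ℝ d f : ℝ)).trans ?_
    rw [← mul_sum]
    exact mul_le_mul_of_nonneg_left (hlam d) (by norm_num)
  exact row_arith (s := ‖d‖ ^ 2) (by ring) (by ring) hd h1 h2 h3 h4 (hf_le (inner ℝ d e : ℝ))

/-- The cross term: `2 |M|^2` minus the diagonal. -/
theorem cross {I : Finset E} {u : E → E}
    (hg : ∀ a b : E, ∑ e ∈ I, (inner ℝ (u e - e) a : ℝ) * (inner ℝ e b : ℝ) =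
      ∑ e ∈ I, (inner ℝ (u e - e) b : ℝ) * (inner ℝ e a : ℝ)) :
    -∑ e ∈ I, (inner ℝ (u e - e) e : ℝ) ^ 2 ≤
      ∑ e ∈ I, ∑ f ∈ I.erase e, (inner ℝ (u e - e) f : ℝ) * inner ℝ e (u f - f) := by
  have h3 : ∑ e ∈ I, ∑ f ∈ I, (inner ℝ (u e - e) f : ℝ) * inner ℝ e (u f - f) =
      ∑ e ∈ I, ∑ f ∈ I, (inner ℝ (u e - e) (u f - f) : ℝ) * inner ℝ e f := by
    rw [sum_comm, sum_comm (s := I) (t := I)
      (f := fun e f => (inner ℝ (u e - e) (u f - f) : ℝ) * inner ℝ e f)]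
    exact sum_congr rfl fun f _ => hg f (u f - f)
  have h4 := L1M.schur I (fun e => u e - e) fun e => e
  have h5 : ∑ e ∈ I, (inner ℝ (u e - e) e : ℝ) * inner ℝ e (u e - e) =
      ∑ e ∈ I, (inner ℝ (u e - e) e : ℝ) ^ 2 := by
    refine sum_congr rfl fun e _ => ?_
    rw [real_inner_comm (u e - e) e, sq]
  rw [split_diag I fun e f => (inner ℝ (u e - e) f : ℝ) * inner ℝ e (u f - f), h3, h5]
  linarith

/-- The error term. -/
theorem err {I : Finset E} (d : E → E) (r : E → ℝ) (hr : ∀ e ∈ I, 0 ≤ r e) {X : ℝ}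
    (hX : ∑ e ∈ I, r e ≤ X) :
    ∑ e ∈ I, ∑ f ∈ I.erase e, ((inner ℝ (d e) (d f) : ℝ) + 2 * (r e * r f)) ^ 2 ≤
      501 / 500 * (∑ e ∈ I, ‖d e‖ ^ 2) ^ 2 + 2004 * X ^ 4 := by
  have hX0 : 0 ≤ X := (sum_nonneg hr).trans hX
  have h1 : ∀ e ∈ I, ∀ f ∈ I, ((inner ℝ (d e) (d f) : ℝ) + 2 * (r e * r f)) ^ 2 ≤
      501 / 500 * (‖d e‖ ^ 2 * ‖d f‖ ^ 2) + 2004 * (r e ^ 2 * r f ^ 2) := by
    intro e _ f _
    have h := abs_real_inner_le_norm (d e) (d f)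
    have h' : (inner ℝ (d e) (d f) : ℝ) ^ 2 ≤ (‖d e‖ * ‖d f‖) ^ 2 := by
      rw [← sq_abs]
      exact pow_le_pow_left₀ (abs_nonneg _) h 2
    rw [mul_pow] at h'
    nlinarith [sq_nonneg ((inner ℝ (d e) (d f) : ℝ) - 1000 * (r e * r f))]
  have h2 : ∑ e ∈ I, ∑ f ∈ I.erase e, ((inner ℝ (d e) (d f) : ℝ) + 2 * (r e * r f)) ^ 2 ≤
      ∑ e ∈ I, ∑ f ∈ I, ((inner ℝ (d e) (d f) : ℝ) + 2 * (r e * r f)) ^ 2 :=
    sum_le_sum fun e _ => sum_le_sum_of_subset_of_nonneg (erase_subset _ _) fun f _ _ => sq_nonneg _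
  refine h2.trans ((sum_le_sum fun e he => sum_le_sum fun f hf => h1 e he f hf).trans ?_)
  simp only [sum_add_distrib, ← mul_sum]
  rw [← sum_mul, ← sum_mul]
  have h3 : ∑ e ∈ I, r e ^ 2 ≤ X ^ 2 := by
    refine (sum_sq_le_sq_sum_of_nonneg hr).trans ?_
    exact pow_le_pow_left₀ (sum_nonneg hr) hX 2
  have h4 : (∑ e ∈ I, r e ^ 2) * (∑ e ∈ I, r e ^ 2) ≤ X ^ 2 * X ^ 2 :=
    mul_le_mul h3 h3 (sum_nonneg fun e _ => sq_nonneg _) (sq_nonneg _)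
  nlinarith

/-- The radial parts. -/
theorem rad {I : Finset E} {u : E → E} (hI : I ⊆ UE) (h1 : ∀ e ∈ I, ‖u e‖ ≤ 1)
    (hs : ∀ e ∈ I, ‖u e - e‖ ^ 2 ≤ 1 / 25) {X : ℝ} (hX : ∑ e ∈ I, gr u e ≤ X) :
    ∑ e ∈ I, (inner ℝ (u e - e) e : ℝ) ^ 2 ≤
      X ^ 2 + X / 25 + (∑ e ∈ I, ‖u e - e‖ ^ 2) / 100 := by
  have hr : ∀ e ∈ I, 0 ≤ gr u e := by
    intro e he
    unfold gr
    have := h1 e he
    nlinarith [norm_nonneg (u e)]
  have h2 : ∀ e ∈ I, (inner ℝ (u e - e) e : ℝ) ^ 2 ≤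
      gr u e ^ 2 + gr u e / 25 + ‖u e - e‖ ^ 2 / 100 := by
    intro e he
    have h3 : (inner ℝ (u e - e) e : ℝ) = -(gr u e + ‖u e - e‖ ^ 2 / 2) := by
      have h4 : ‖u e‖ ^ 2 = ‖u e - e‖ ^ 2 + 2 * (inner ℝ (u e - e) e : ℝ) + ‖e‖ ^ 2 := by
        have h5 := norm_add_sq_real (u e - e) e
        rw [sub_add_cancel] at h5
        exact h5
      unfold gr
      rw [AllO.hUEF.nrm e (hI he)] at h4
      linarith
    rw [h3]
    have h4 := hr e he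
    have h5 := hs e he
    have h6 : 0 ≤ ‖u e - e‖ ^ 2 := sq_nonneg _
    generalize ‖u e - e‖ ^ 2 = s at *
    generalize gr u e = r at *
    nlinarith [mul_nonneg h4 (sub_nonneg.2 h5), mul_nonneg h6 (sub_nonneg.2 h5)]
  refine (sum_le_sum h2).trans ?_
  rw [sum_add_distrib, sum_add_distrib, ← sum_div, ← sum_div]
  have h3 : ∑ e ∈ I, gr u e ^ 2 ≤ X ^ 2 := by
    refine (sum_sq_le_sq_sum_of_nonneg hr).trans ?_
    exact pow_le_pow_left₀ (sum_nonneg hr) hX 2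
  linarith

end SIM

open SIM in
/-- **The inliers.** -/
theorem inliers {I : Finset E} {u : E → E} (hI : I ⊆ UE) (h1 : ∀ e ∈ I, ‖u e‖ ≤ 1)
    (hT : ∀ e ∈ I, ∀ f ∈ I, e ≠ f → TT (u e) (u f) ≤ 1 / 2)
    (hs : ∀ e ∈ I, ‖u e - e‖ ^ 2 ≤ 1 / 25)
    (hg : ∀ a b : E, ∑ e ∈ I, (inner ℝ (u e - e) a : ℝ) * (inner ℝ e b : ℝ) =
      ∑ e ∈ I, (inner ℝ (u e - e) b : ℝ) * (inner ℝ e a : ℝ)) {lam : ℝ} (hlam0 : 0 ≤ lam)
    (hlam : ∀ v : E, ∑ f ∈ UE \ I, (inner ℝ v f : ℝ) ^ 2 ≤ lam * ‖v‖ ^ 2)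
    (hx : ∑ e ∈ I, gr u e ≤ 24 / 1000) {S : ℝ} (hS : S = ∑ e ∈ I, ‖u e - e‖ ^ 2) :
    S * (3040 / 1000 - 1264 / 10000 * lam - 1826 / 1000 * S) - 1 / 1000 ≤
      ∑ e ∈ I, ∑ f ∈ I.erase e, base (TT (u e) (u f)) * (1 / 2 - TT (u e) (u f)) := by
  have hr : ∀ e ∈ I, 0 ≤ gr u e := by
    intro e he
    unfold gr
    have := h1 e he
    nlinarith [norm_nonneg (u e)]
  have hTT : ∀ e f : E, TT (u e) (u f) - inner ℝ e f
      - ((inner ℝ (u e - e) f : ℝ) + inner ℝ e (u f - f)) =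
      (inner ℝ (u e - e) (u f - f) : ℝ) + 2 * (gr u e * gr u f) := by
    intro e f
    unfold TT gr
    simp only [inner_sub_left, inner_sub_right]
    ring
  have hpt : ∀ e ∈ I, ∀ f ∈ I.erase e,
      118 / 1000 * ((inner ℝ (u e - e) f : ℝ) * inner ℝ e (u f - f))
        + (hf (inner ℝ (u e - e) f : ℝ) + hf (inner ℝ (u f - f) e : ℝ))
        - 13 / 2 * ((inner ℝ (u e - e) f : ℝ) ^ 2 * (inner ℝ (u f - f) e : ℝ) ^ 2)
        - 1 / 5 * ((inner ℝ (u e - e) (u f - f) : ℝ) + 2 * (gr u e * gr u f)) ^ 2 ≤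
      base (TT (u e) (u f)) * (1 / 2 - TT (u e) (u f)) := by
    intro e he f hf'
    obtain ⟨hne, hfI⟩ := mem_erase.1 hf'
    have hl : (inner ℝ e f : ℝ) = 1 / 2 ∨ (inner ℝ e f : ℝ) = 0 ∨ (inner ℝ e f : ℝ) = -1 / 2 ∨
        (inner ℝ e f : ℝ) = -1 := by
      rcases AllO.hUEF.ip e (hI he) f (hI hfI) with h | h | h | h | h
      · exact absurd (AllO.hUEF.one e (hI he) f (hI hfI) h).symm hne
      · exact Or.inl h
      · exact Or.inr (Or.inl h)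
      · exact Or.inr (Or.inr (Or.inl h))
      · exact Or.inr (Or.inr (Or.inr h))
    have h0 : -1 ≤ TT (u e) (u f) := by
      have h2 := abs_real_inner_le_norm (u e) (u f)
      have h3 : ‖u e‖ * ‖u f‖ ≤ 1 := mul_le_one₀ (h1 e he) (norm_nonneg _) (h1 f hfI)
      have h4 := (abs_le.1 h2).1
      have h5 : 0 ≤ gr u e * gr u f := mul_nonneg (hr e he) (hr f hfI)
      have h6 : TT (u e) (u f) = inner ℝ (u e) (u f) + 2 * (gr u e * gr u f) := by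
        unfold TT gr
        ring
      linarith
    have h2 := point (inner ℝ (u e - e) f : ℝ) (inner ℝ e (u f - f) : ℝ) hl h0
      (hT e he f hfI (Ne.symm hne))
    rw [hTT e f] at h2
    have h3 : TSDM.ph (TT (u e) (u f)) = base (TT (u e) (u f)) * (1 / 2 - TT (u e) (u f)) := by
      unfold TSDM.ph base
      ring
    rw [h3] at h2
    rw [real_inner_comm e (u f - f)]
    unfold hf
    linarith
  have hsum := sum_le_sum fun e he => sum_le_sum fun f hf' => hpt e he f hf'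
  refine le_trans ?_ hsum
  simp only [sum_sub_distrib, sum_add_distrib, ← mul_sum]
  have hsw := swap I fun e f => hf (inner ℝ (u f - f) e : ℝ)
  have hrow := sum_le_sum fun e he => row hI hlam (d := u e - e) he (hs e he)
  rw [sum_sub_distrib, sum_sub_distrib, ← mul_sum, ← mul_sum, ← mul_sum, ← mul_sum, ← hS] at hrow
  have hcr := cross hg
  have her := err (fun e => u e - e) (gr u) hr hx
  rw [← hS] at her
  have hrad := rad hI h1 hs hx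
  rw [← hS] at hrad
  have hga : ∑ e ∈ I, ∑ f ∈ I.erase e,
      (inner ℝ (u e - e) f : ℝ) ^ 2 * (inner ℝ (u f - f) e : ℝ) ^ 2 ≤
      S * (S / 4 + 153 / 80 * (1 / 25)) := by
    have h2 := gam hI (fun e => u e - e) hs
    rw [← hS] at h2
    refine le_trans (sum_le_sum fun e _ => ?_) h2
    exact sum_le_sum_of_subset_of_nonneg (erase_subset _ _) fun f _ _ =>
      mul_nonneg (sq_nonneg _) (sq_nonneg _)
  rw [hsw]
  norm_num at her hrad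
  have hS0 : 0 ≤ S := by
    rw [hS]
    exact sum_nonneg fun e _ => sq_nonneg _
  nlinarith
end Pool.Agent.Lib.MP_f1379f_gt.FV
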