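import Pool.Agent.Lib.MP_f1379f_gt.FV.TOF
import Pool.Agent.Lib.MP_f1379f_gt.FV.SpecB

/-!
# MP_f1379f_gt, full Q1, STAB2: the open blocks

`SpecPN57` (STAB1, helper1), `SpecCK` (K-control certificate), `SpecCX2` (radial certificate), `SpecCMB`
(truncated Procrustes + outlier rows + inliers: from the star functional to the labelling).
Together they imply `SpecSTAB` (file SNF.lean).
-/

set_option autoImplicit false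

namespace Pool.Agent.Lib.MP_f1379f_gt.FV

open Finset

/-- (C_K): K-control.  `kappa_K = 26/10000`. -/
def SpecCK : Prop :=
  ∀ U : Finset E, Adm U → W2F U < 16 →
    Th0 + 26 / 10000 * (∑ v ∈ nearS U, (‖v‖ ^ 4 - 60 * ‖v‖ ^ 2 + 30)
      + ∑ v ∈ nearS U, ∑ w ∈ (nearS U).erase v, (inner ℝ v w : ℝ) ^ 2) ≤ W2F U

/-- (C_X'): `kappa_X = 745/10000`. -/
def SpecCX2 : Prop :=
  ∀ U : Finset E, Adm U → W2F U < 16 → Th0 + 745 / 10000 * ∑ v ∈ nearS U, (1 - rr v) ≤ W2F U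

/-- STAB1: 57 labelled pins. -/
def SpecPN57 : Prop :=
  ∀ U : Finset E, Adm U → W2F U < 16 →
    ∃ (x : E) (p : E → E) (A : E ≃ₗᵢ[ℝ] E), x ∈ UE ∧
      (∀ b ∈ insert x (nb x), p b ∈ nearS U) ∧ Set.InjOn p (insert x (nb x) : Finset E) ∧
      ∑ b ∈ insert x (nb x), ‖A (p b) - b‖ ^ 2 ≤ 3 / 100

/-- (c) of STAB2: from a good value of the truncated functional to the labelling. -/
def SpecCMB : Prop :=
  ∀ Z : Finset E, Z.card = 240 → (∀ z ∈ Z, ‖z‖ ≤ 1) → (∀ z ∈ Z, 1 - ‖z‖ ^ 2 ≤ 7 / 150) →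
    (∀ z ∈ Z, ∀ w ∈ Z, z ≠ w → TT z w ≤ 1 / 2) → (∀ z ∈ Z, ∀ w ∈ Z, -1 ≤ TT z w) →
    ∑ z ∈ Z, (1 - ‖z‖ ^ 2) ≤ 452 / 10000 →
    ∑ z ∈ Z, ∑ w ∈ Z.erase z, base (TT z w) * (1 / 2 - TT z w) ≤ 4942 / 10000 →
    ∀ A1 : E ≃ₗᵢ[ℝ] E, ∑ z ∈ Z, TRPM.td (1 / 5) (A1 z) ≤ 21 / 20 →
    ∃ (u : E → E) (A : E ≃ₗᵢ[ℝ] E), (∀ e ∈ UE, u e ∈ Z) ∧ Set.InjOn u (UE : Set E) ∧
      ∑ e ∈ UE, ‖A (u e) - e‖ ^ 2 ≤ 1 / 4

end Pool.Agent.Lib.MP_f1379f_gt.FV
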