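import Pool.Agent.Lib.MP_f1379f_gt.FV.TOD
import Pool.Agent.Lib.MP_f1379f_gt.FV.ISO
import Pool.Agent.Lib.MP_f1379f_gt.FV.SIN
import Pool.Agent.Lib.MP_f1379f_gt.FV.SpecS3

section
/-!
# MP_f1379f_gt, full Q1, STAB2 (c): energy splitting, rows with the displacements, far rows

* `split_energy`: ordered energy of `P ∪ Y` versus `P` and twice `Y × P`.
* `row_le`: the row with the Moreau term is at most the energy plus the displacement term.
* `row16a`: every outlier at distance `>= 1/5`, `M = 4/25`.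
* `row_disp`: labelled displaced outlier, at most three missing labels.
* `far75`: far outliers, at most three missing labels, `M = 3/4`.
-/
set_option autoImplicit false

namespace Pool.Agent.Lib.MP_f1379f_gt.FV

open Finset

namespace TOGM

open TOCM TODM

open Classical in
theorem split_energy (P Y : Finset E) (hd : Disjoint P Y) (F : E → E → ℝ)
    (hF : ∀ z ∈ P ∪ Y, ∀ w ∈ P ∪ Y, z ≠ w → 0 ≤ F z w) (hs : ∀ z w, F z w = F w z) :
    ∑ z ∈ P, ∑ w ∈ P.erase z, F z w + 2 * ∑ z ∈ Y, ∑ w ∈ P, F z w ≤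
      ∑ z ∈ P ∪ Y, ∑ w ∈ (P ∪ Y).erase z, F z w := by
  rw [sum_union hd]
  have h1 : ∀ z ∈ P, ∑ w ∈ (P ∪ Y).erase z, F z w = ∑ w ∈ P.erase z, F z w + ∑ w ∈ Y, F z w := by
    intro z hz
    have hzY : z ∉ Y := fun h => (Finset.disjoint_left.1 hd) hz h
    have e : (P ∪ Y).erase z = P.erase z ∪ Y := by
      rw [Finset.erase_union_distrib, Finset.erase_eq_of_notMem hzY]
    rw [e, sum_union (hd.mono_left (Finset.erase_subset _ _))]
  have h2 : ∀ z ∈ Y, ∑ w ∈ P, F z w ≤ ∑ w ∈ (P ∪ Y).erase z, F z w := by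
    intro z hz
    have hzP : z ∉ P := fun h => (Finset.disjoint_left.1 hd) h hz
    refine sum_le_sum_of_subset_of_nonneg ?_ fun w hw _ => ?_
    · intro w hw
      refine Finset.mem_erase.2 ⟨fun h => hzP (h ▸ hw), Finset.mem_union_left _ hw⟩
    · have hw' := Finset.mem_erase.1 hw
      exact hF z (Finset.mem_union_right _ hz) w hw'.2 (Ne.symm hw'.1)
  have h3 := sum_le_sum h2
  rw [sum_congr rfl h1, sum_add_distrib]
  have h4 : ∑ z ∈ P, ∑ w ∈ Y, F z w = ∑ z ∈ Y, ∑ w ∈ P, F z w := by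
    rw [sum_comm]
    exact sum_congr rfl fun z _ => sum_congr rfl fun w _ => hs w z
  rw [h4]
  linarith

theorem row_le {I : Finset E} {y : E} {v : E → E} {M : ℝ} (hM : 0 ≤ M) (hy1 : ‖y‖ ^ 2 ≤ 1)
    (hyr : 1 - ‖y‖ ^ 2 ≤ 7 / 150) (hv1 : ∀ b ∈ I, ‖v b‖ ^ 2 ≤ 1)
    (hvr : ∀ b ∈ I, 1 - ‖v b‖ ^ 2 ≤ 7 / 150) :
    rw' M I (fun b => TT y (v b)) y ≤
      ∑ b ∈ I, base (TT y (v b)) * (1 / 2 - TT y (v b)) +
        M * (1005 / 1000 * ∑ b ∈ I, (inner ℝ y (v b - b) : ℝ) ^ 2 +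
          11 / 100 * ((1 - ‖y‖ ^ 2) * ∑ b ∈ I, (1 - ‖v b‖ ^ 2))) := by
  have h : rw' M I (fun b => TT y (v b)) y ≤ ∑ b ∈ I, (base (TT y (v b)) * (1 / 2 - TT y (v b)) +
      M * (1005 / 1000 * (inner ℝ y (v b - b) : ℝ) ^ 2 +
        11 / 100 * ((1 - ‖y‖ ^ 2) * (1 - ‖v b‖ ^ 2)))) := by
    refine Finset.sum_le_sum fun b hb => ?_
    have h3 := TSGM.term (T := TT y (v b)) (s := inner ℝ y b)
      (x := inner ℝ y (v b - b)) (c := 1 - ‖y‖ ^ 2) (d := 1 - ‖v b‖ ^ 2) (by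
        rw [inner_sub_right]
        unfold TT
        ring) (by linarith) hyr (by linarith [hv1 b hb]) (hvr b hb)
    have h4 : TSDM.ph (TT y (v b)) = base (TT y (v b)) * (1 / 2 - TT y (v b)) := by
      unfold TSDM.ph base
      ring
    have h5 := mul_le_mul_of_nonneg_left h3 hM
    show TSDM.ph (TT y (v b)) + M * (TT y (v b) - (inner ℝ y b : ℝ)) ^ 2 ≤ _
    rw [h4]
    linarith
  refine h.trans (le_of_eq ?_)
  simp only [Finset.mul_sum, ← Finset.sum_add_distrib]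

theorem num16a {x k : ℝ} (h1 : 1 / 25 ≤ x) (h2 : x ≤ 19 / 250) (hk2 : k ≤ 30) :
    69656 / 1000000 - 134 / 100000 * k ≤
      67 / 1000 * ((30 - (k / 2 + 1)) * x) - 504 / 100 * x ^ 2 := by
  nlinarith [mul_nonneg (sub_nonneg.2 h1) (sub_nonneg.2 h2),
    mul_nonneg (sub_nonneg.2 hk2) (sub_nonneg.2 h1)]

open Classical in
/-- **Every outlier**, `M = 4/25`, distance `>= 1/5`. -/
theorem row16a {I : Finset E} (hI : I ⊆ UE) (hk : (UE \ I).card ≤ 30) {y : E}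
    (h0 : 95 / 100 ≤ ‖y‖ ^ 2) (h1 : ‖y‖ ^ 2 ≤ 1) (hfar : ∀ f ∈ UE, 1 / 5 ≤ ‖y - f‖)
    (hin : ∀ f ∈ I, (inner ℝ y f : ℝ) ≤ 3 / 4)
    (T : E → ℝ) (hT0 : ∀ b ∈ I, -1 ≤ T b) (hT1 : ∀ b ∈ I, T b ≤ 1 / 2) :
    69656 / 1000000 - 134 / 100000 * ((UE \ I).card : ℝ) ≤ rw' (4 / 25) I T y := by
  have hkc : ((UE \ I).card : ℝ) ≤ 30 := by exact_mod_cast hk
  by_cases h : ∀ f ∈ UE, 19 / 250 < ‖y - f‖ ^ 2
  · have := row_trig hI h0 h1 h T hT0 hT1
    linarith
  push Not at h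
  obtain ⟨f, hf, hd⟩ := h
  have hn : ‖y - f‖ ^ 2 = ‖y‖ ^ 2 - 2 * (inner ℝ y f : ℝ) + ‖f‖ ^ 2 := norm_sub_sq_real y f
  rw [AllO.hUEF.nrm f hf] at hn
  have hfI : f ∉ I := by
    intro hc
    have := hin f hc
    linarith
  have h2 := row_lab hI hf hfI T hT0 hT1 (lam_roots (F := UE \ I) Finset.sdiff_subset (y - f))
  have h3 : 1 / 25 ≤ ‖y - f‖ ^ 2 := by
    have h4 := pow_le_pow_left₀ (by norm_num) (hfar f hf) 2
    norm_num at h4 ⊢
    exact h4
  have h5 := num16a (k := ((UE \ I).card : ℝ)) h3 hd hkc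
  have e : ‖y - f‖ ^ 4 = (‖y - f‖ ^ 2) ^ 2 := by ring
  rw [e] at h2
  linarith

theorem num_disp {x k : ℝ} (h1 : 1 / 25 ≤ x) (h2 : x ≤ 1 / 8) (hk2 : k ≤ 3) :
    252 / 10000 + 101 / 100 * x ≤
      67 / 1000 * ((30 - (k / 2 + 1)) * x) - 504 / 100 * x ^ 2 := by
  nlinarith [mul_nonneg (sub_nonneg.2 h1) (sub_nonneg.2 h2),
    mul_nonneg (sub_nonneg.2 hk2) (sub_nonneg.2 h1)]

open Classical in
/-- **Labelled displaced outlier**, at most three missing labels. -/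
theorem row_disp {I : Finset E} (hI : I ⊆ UE) (hk : (UE \ I).card ≤ 3) {y f : E} (hf : f ∈ UE)
    (hfI : f ∉ I) (hd1 : 1 / 25 ≤ ‖y - f‖ ^ 2) (hd2 : ‖y - f‖ ^ 2 ≤ 1 / 8)
    (T : E → ℝ) (hT0 : ∀ b ∈ I, -1 ≤ T b) (hT1 : ∀ b ∈ I, T b ≤ 1 / 2) :
    252 / 10000 + 101 / 100 * ‖y - f‖ ^ 2 ≤ rw' (4 / 25) I T y := by
  have hkc : ((UE \ I).card : ℝ) ≤ 3 := by exact_mod_cast hk
  have h2 := row_lab hI hf hfI T hT0 hT1 (lam_roots (F := UE \ I) Finset.sdiff_subset (y - f))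
  have h5 := num_disp (k := ((UE \ I).card : ℝ)) hd1 hd2 hkc
  have e : ‖y - f‖ ^ 4 = (‖y - f‖ ^ 2) ^ 2 := by ring
  rw [e] at h2
  linarith

open Classical in
/-- **Far outlier**, at most three missing labels, `M = 3/4`. -/
theorem far75 {I : Finset E} (hI : I ⊆ UE) {y : E}
    {T : E → ℝ} (hT0 : ∀ b ∈ I, -1 ≤ T b) (hT1 : ∀ b ∈ I, T b ≤ 1 / 2)
    (h0 : 143 / 150 ≤ ‖y‖ ^ 2) (h1 : ‖y‖ ^ 2 ≤ 1) (hfar : ∀ f ∈ UE, 1 / 8 ≤ ‖y - f‖ ^ 2)
    (hin : ∀ f ∈ I, (inner ℝ y f : ℝ) ≤ 3 / 4) :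
    ((UE \ I).card = 1 → 27 / 100 ≤ rw' (3 / 4) I T y) ∧
    ((UE \ I).card = 2 → 19 / 100 ≤ rw' (3 / 4) I T y) ∧
    ((UE \ I).card = 3 → 18 / 100 ≤ rw' (3 / 4) I T y) := by
  by_cases h : ∃ f0 ∈ UE, 4 / 5 ≤ (inner ℝ y f0 : ℝ)
  · obtain ⟨f0, hf0, ht⟩ := h
    have hf0I : f0 ∉ I := by
      intro hc
      have := hin f0 hc
      linarith
    obtain ⟨g1, g2⟩ := far_near hI hf0 hf0I hT0 hT1 h0 h1 ht (hfar f0 hf0)
    refine ⟨g2, fun hk => ?_, fun hk => ?_⟩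
    · rw [hk] at g1
      norm_num at g1
      linarith
    · rw [hk] at g1
      norm_num at g1
      linarith
  · push Not at h
    have g := far_deep hI hT0 hT1 h0 h1 fun f hf => (h f hf).le
    refine ⟨fun hk => ?_, fun hk => ?_, fun hk => ?_⟩
    all_goals
      rw [hk] at g
      norm_num at g
      linarith

end TOGM

end Pool.Agent.Lib.MP_f1379f_gt.FV
end

section
/-!
# MP_f1379f_gt, full Q1, STAB2 (c): from the truncated Procrustes position to the labelling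
-/
set_option autoImplicit false

namespace Pool.Agent.Lib.MP_f1379f_gt.FV

open Finset

namespace CMBM

open TOCM TODM TOGM

/-- The situation after truncated Procrustes, in the optimal frame. -/
structure CTX (Z I : Finset E) (v : E → E) : Prop where
  card : Z.card = 240
  n1 : ∀ z ∈ Z, ‖z‖ ^ 2 ≤ 1
  nr : ∀ z ∈ Z, 143 / 150 ≤ ‖z‖ ^ 2
  tt : ∀ z ∈ Z, ∀ w ∈ Z, z ≠ w → TT z w ≤ 1 / 2
  cs : ∑ z ∈ Z, (1 - ‖z‖ ^ 2) ≤ 452 / 10000
  en : ∑ z ∈ Z, ∑ w ∈ Z.erase z, base (TT z w) * (1 / 2 - TT z w) ≤ 4942 / 10000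
  hI : I ⊆ UE
  mem : ∀ e ∈ I, v e ∈ Z
  cl : ∀ e ∈ I, ‖v e - e‖ < 1 / 5
  inj : Set.InjOn v (I : Set E)
  out : ∀ z ∈ Z, (∀ e ∈ I, z ≠ v e) → ∀ e ∈ UE, 1 / 5 ≤ ‖z - e‖
  sum : ∑ e ∈ I, ‖v e - e‖ ^ 2 + 1 / 25 * (240 - (I.card : ℝ)) ≤ 21 / 20
  gauge : ∀ a b : E, ∑ e ∈ I, (inner ℝ (v e - e) a : ℝ) * (inner ℝ e b : ℝ) =
    ∑ e ∈ I, (inner ℝ (v e - e) b : ℝ) * (inner ℝ e a : ℝ)

/-- The outliers. -/
noncomputable def YY (Z I : Finset E) (v : E → E) : Finset E :=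
  open Classical in Z \ I.image v

/-- The missing labels. -/
noncomputable def JJ (I : Finset E) : Finset E :=
  open Classical in UE \ I

/-- Energy of a row. -/
noncomputable def RR (I : Finset E) (v : E → E) (y : E) : ℝ :=
  ∑ b ∈ I, base (TT y (v b)) * (1 / 2 - TT y (v b))

/-- Displacement term of a row. -/
noncomputable def QQ (I : Finset E) (v : E → E) (y : E) : ℝ :=
  ∑ b ∈ I, (inner ℝ y (v b - b) : ℝ) ^ 2

/-- Radial sum of the inliers. -/
noncomputable def CC (I : Finset E) (v : E → E) : ℝ := ∑ b ∈ I, (1 - ‖v b‖ ^ 2)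

/-- Displacement sum of the inliers. -/
noncomputable def SS (I : Finset E) (v : E → E) : ℝ := ∑ b ∈ I, ‖v b - b‖ ^ 2

/-- Energy of the inliers. -/
noncomputable def EE (I : Finset E) (v : E → E) : ℝ :=
  open Classical in
  ∑ e ∈ I, ∑ f ∈ I.erase e, base (TT (v e) (v f)) * (1 / 2 - TT (v e) (v f))

variable {Z I : Finset E} {v : E → E}

theorem mem_YY {y : E} : y ∈ YY Z I v ↔ y ∈ Z ∧ ∀ e ∈ I, y ≠ v e := by
  classical
  unfold YY
  rw [mem_sdiff, mem_image]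
  constructor
  · rintro ⟨h1, h2⟩
    exact ⟨h1, fun e he h => h2 ⟨e, he, h.symm⟩⟩
  · rintro ⟨h1, h2⟩
    exact ⟨h1, fun ⟨e, he, h⟩ => h2 e he h.symm⟩

theorem mem_JJ {f : E} : f ∈ JJ I ↔ f ∈ UE ∧ f ∉ I := by
  classical
  unfold JJ
  rw [mem_sdiff]

theorem phi_nonneg {T : ℝ} (h0 : -1 ≤ T) (h1 : T ≤ 1 / 2) : 0 ≤ base T * (1 / 2 - T) := by
  have h := TSDM.ph_nonneg h0 h1
  have e : TSDM.ph T = base T * (1 / 2 - T) := by
    unfold TSDM.ph base
    ring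
  rwa [e] at h

theorem TT_comm (z w : E) : TT z w = TT w z := by
  unfold TT
  rw [real_inner_comm]
  ring

theorem ge (h : CTX Z I v) {z w : E} (hz : z ∈ Z) (hw : w ∈ Z) : -1 ≤ TT z w :=
  TSGM.TT_ge (h.n1 z hz) (h.n1 w hw)

theorem ne_v (_h : CTX Z I v) {y : E} (hy : y ∈ YY Z I v) {b : E} (hb : b ∈ I) : y ≠ v b :=
  (mem_YY.1 hy).2 b hb

theorem card_J (h : CTX Z I v) : ((JJ I).card : ℝ) = 240 - (I.card : ℝ) := by
  classical
  unfold JJ
  rw [card_sdiff_of_subset h.hI, AllO.hUEF.c240, Nat.cast_sub]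
  · norm_num
  · rw [← AllO.hUEF.c240]
    exact card_le_card h.hI

theorem image_sub (h : CTX Z I v) : (open Classical in I.image v) ⊆ Z := by
  classical
  intro z hz
  obtain ⟨e, he, rfl⟩ := mem_image.1 hz
  exact h.mem e he

theorem card_Y (h : CTX Z I v) : (YY Z I v).card = (JJ I).card := by
  classical
  have h1 : (I.image v).card = I.card := card_image_of_injOn h.inj
  unfold YY JJ
  rw [card_sdiff_of_subset (image_sub h), card_sdiff_of_subset h.hI, AllO.hUEF.c240, h.card, h1]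

theorem hk26 (h : CTX Z I v) : (JJ I).card ≤ 26 := by
  have h1 := card_J h
  have h2 : 0 ≤ ∑ e ∈ I, ‖v e - e‖ ^ 2 := sum_nonneg fun _ _ => sq_nonneg _
  have h3 := h.sum
  rw [← h1] at h3
  have h4 : ((JJ I).card : ℝ) < 27 := by linarith
  have h5 : (JJ I).card < 27 := by exact_mod_cast h4
  omega

/-- The energy budget. -/
theorem budget (h : CTX Z I v) : EE I v + 2 * ∑ y ∈ YY Z I v, RR I v y ≤ 4942 / 10000 := by
  classical
  have hd : Disjoint (I.image v) (Z \ I.image v) := disjoint_sdiff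
  have hu : I.image v ∪ (Z \ I.image v) = Z := union_sdiff_of_subset (image_sub h)
  have h1 := split_energy (I.image v) (Z \ I.image v) hd
    (fun z w => base (TT z w) * (1 / 2 - TT z w)) (by
      intro z hz w hw hne
      rw [hu] at hz hw
      exact phi_nonneg (ge h hz hw) (h.tt z hz w hw hne)) (fun z w => by rw [TT_comm])
  rw [hu] at h1
  have h2 : ∑ z ∈ I.image v, ∑ w ∈ (I.image v).erase z, base (TT z w) * (1 / 2 - TT z w) =
      EE I v := by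
    unfold EE
    rw [sum_image h.inj]
    refine sum_congr rfl fun e he => ?_
    have h3 : (I.image v).erase (v e) = (I.erase e).image v := by
      ext w
      rw [mem_erase, mem_image, mem_image]
      constructor
      · rintro ⟨h4, f, hf, rfl⟩
        exact ⟨f, mem_erase.2 ⟨fun h5 => h4 (by rw [h5]), hf⟩, rfl⟩
      · rintro ⟨f, hf, rfl⟩
        obtain ⟨h5, h6⟩ := mem_erase.1 hf
        exact ⟨fun h7 => h5 (h.inj (mem_coe.2 h6) (mem_coe.2 he) h7), f, h6, rfl⟩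
    rw [h3, sum_image fun a ha b hb hab => h.inj (mem_coe.2 (mem_of_mem_erase ha))
      (mem_coe.2 (mem_of_mem_erase hb)) hab]
  have h3 : ∑ z ∈ Z \ I.image v, ∑ w ∈ I.image v, base (TT z w) * (1 / 2 - TT z w) =
      ∑ y ∈ YY Z I v, RR I v y := by
    unfold YY RR
    refine sum_congr rfl fun y _ => ?_
    rw [sum_image h.inj]
  rw [h2, h3] at h1
  exact h1.trans h.en

theorem RR_nonneg (h : CTX Z I v) {y : E} (hy : y ∈ YY Z I v) : 0 ≤ RR I v y := by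
  refine sum_nonneg fun b hb => ?_
  have hyZ := (mem_YY.1 hy).1
  exact phi_nonneg (ge h hyZ (h.mem b hb)) (h.tt y hyZ _ (h.mem b hb) (ne_v h hy hb))

/-- The inliers. -/
theorem inl (h : CTX Z I v) {lam : ℝ} (hlam0 : 0 ≤ lam)
    (hlam : ∀ d : E, ∑ f ∈ JJ I, (inner ℝ d f : ℝ) ^ 2 ≤ lam * ‖d‖ ^ 2) :
    SS I v * (3040 / 1000 - 1264 / 10000 * lam - 1826 / 1000 * SS I v) - 1 / 1000 ≤ EE I v := by
  classical
  have hx : ∑ e ∈ I, gr v e ≤ 24 / 1000 := by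
    have h1 : ∑ e ∈ I, (1 - ‖v e‖ ^ 2) ≤ ∑ z ∈ Z, (1 - ‖z‖ ^ 2) := by
      rw [← sum_image (f := fun z : E => 1 - ‖z‖ ^ 2) h.inj]
      exact sum_le_sum_of_subset_of_nonneg (image_sub h) fun z hz _ => by linarith [h.n1 z hz]
    have h2 : ∑ e ∈ I, gr v e = (∑ e ∈ I, (1 - ‖v e‖ ^ 2)) / 2 := by
      unfold gr
      rw [sum_div]
    have h3 := h.cs
    rw [h2]
    linarith
  exact inliers h.hI (fun e he => by
      have := h.n1 _ (h.mem e he)
      nlinarith [norm_nonneg (v e)])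
    (fun e he f hf hef => h.tt _ (h.mem e he) _ (h.mem f hf) fun h1 =>
      hef (h.inj (mem_coe.2 he) (mem_coe.2 hf) h1))
    (fun e he => by
      have := h.cl e he
      nlinarith [norm_nonneg (v e - e)]) h.gauge hlam0 hlam hx rfl

theorem CC_le (h : CTX Z I v) : CC I v ≤ 452 / 10000 := by
  classical
  have h1 : ∑ e ∈ I, (1 - ‖v e‖ ^ 2) ≤ ∑ z ∈ Z, (1 - ‖z‖ ^ 2) := by
    rw [← sum_image (f := fun z : E => 1 - ‖z‖ ^ 2) h.inj]
    exact sum_le_sum_of_subset_of_nonneg (image_sub h) fun z hz _ => by linarith [h.n1 z hz]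
  exact h1.trans h.cs

theorem CC_nonneg (h : CTX Z I v) : 0 ≤ CC I v :=
  sum_nonneg fun b hb => by linarith [h.n1 _ (h.mem b hb)]

theorem SS_nonneg : 0 ≤ SS I v := sum_nonneg fun _ _ => sq_nonneg _

theorem QQ_le (h : CTX Z I v) {y : E} (hy : y ∈ YY Z I v) : QQ I v y ≤ SS I v := by
  have hy1 := h.n1 y (mem_YY.1 hy).1
  refine sum_le_sum fun b _ => ?_
  have h2 := abs_real_inner_le_norm y (v b - b)
  have h3 : (inner ℝ y (v b - b) : ℝ) ^ 2 ≤ (‖y‖ * ‖v b - b‖) ^ 2 := by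
    rw [← sq_abs]
    exact pow_le_pow_left₀ (abs_nonneg _) h2 2
  rw [mul_pow] at h3
  nlinarith [sq_nonneg ‖v b - b‖]

/-- The displacement term, all outliers together. -/
theorem QQ_sum (h : CTX Z I v) :
    ∑ y ∈ YY Z I v, QQ I v y ≤ (((JJ I).card : ℝ) / 2 + 1) * SS I v := by
  unfold QQ SS
  rw [sum_comm, mul_sum]
  refine sum_le_sum fun b _ => ?_
  have h1 := lam_bound' (YY Z I v) (fun y hy => by
      have := h.n1 y (mem_YY.1 hy).1
      nlinarith [norm_nonneg y]) (fun y hy z hz hyz => by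
      have hy' := (mem_YY.1 hy).1
      have hz' := (mem_YY.1 hz).1
      have h2 := h.tt y hy' z hz' hyz
      have h3 : 0 ≤ (1 - ‖y‖ ^ 2) * (1 - ‖z‖ ^ 2) :=
        mul_nonneg (by linarith [h.n1 y hy']) (by linarith [h.n1 z hz'])
      unfold TT at h2
      linarith) (v b - b)
  rw [card_Y h] at h1
  refine le_of_eq_of_le (sum_congr rfl fun y _ => ?_) h1
  rw [real_inner_comm]

/-- Products of outliers with the inlier labels. -/
theorem in_le (h : CTX Z I v) {y : E} (hy : y ∈ YY Z I v) {b : E} (hb : b ∈ I) :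
    (inner ℝ y b : ℝ) ≤ 3 / 4 := by
  have hyZ := (mem_YY.1 hy).1
  have h1 := h.tt y hyZ _ (h.mem b hb) (ne_v h hy hb)
  have h2 : 0 ≤ (1 - ‖y‖ ^ 2) * (1 - ‖v b‖ ^ 2) :=
    mul_nonneg (by linarith [h.n1 y hyZ]) (by linarith [h.n1 _ (h.mem b hb)])
  have h3 := abs_real_inner_le_norm y (v b - b)
  have h4 : ‖y‖ ≤ 1 := by
    have := h.n1 y hyZ
    nlinarith [norm_nonneg y]
  have h5 := h.cl b hb
  have h6 : ‖y‖ * ‖v b - b‖ ≤ 1 / 5 := by nlinarith [norm_nonneg y, norm_nonneg (v b - b)]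
  have h7 := (abs_le.1 (h3.trans h6)).1
  rw [inner_sub_right] at h7
  unfold TT at h1
  linarith

/-- A row, with the displacement term. -/
theorem row (h : CTX Z I v) {y : E} (hy : y ∈ YY Z I v) {M V : ℝ} (hM : 0 ≤ M)
    (hV : V ≤ rw' M I (fun b => TT y (v b)) y) :
    V ≤ RR I v y + M * (1005 / 1000 * QQ I v y + 11 / 100 * ((1 - ‖y‖ ^ 2) * CC I v)) := by
  have hyZ := (mem_YY.1 hy).1
  exact hV.trans (row_le hM (h.n1 y hyZ) (by linarith [h.nr y hyZ])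
    (fun b hb => h.n1 _ (h.mem b hb)) fun b hb => by linarith [h.nr _ (h.mem b hb)])

theorem row_small (h : CTX Z I v) {y : E} (hy : y ∈ YY Z I v) {M V : ℝ} (hM : 0 ≤ M)
    (hV : V ≤ rw' M I (fun b => TT y (v b)) y) :
    V ≤ RR I v y + M * (1005 / 1000 * SS I v + 24 / 100000) := by
  have h1 := row h hy hM hV
  have hyZ := (mem_YY.1 hy).1
  have h2 := QQ_le h hy
  have h3 := CC_le h
  have h4 := CC_nonneg h
  have h5 : (1 - ‖y‖ ^ 2) * CC I v ≤ 7 / 150 * (452 / 10000) :=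
    mul_le_mul (by linarith [h.nr y hyZ]) h3 h4 (by norm_num)
  have h6 : M * (1005 / 1000 * QQ I v y + 11 / 100 * ((1 - ‖y‖ ^ 2) * CC I v)) ≤
      M * (1005 / 1000 * SS I v + 24 / 100000) := by
    apply mul_le_mul_of_nonneg_left _ hM
    linarith
  linarith

/-! ### At least four outliers -/

theorem table {k : ℕ} (h4 : 4 ≤ k) (h26 : k ≤ 26) {S : ℝ} (hS0 : 0 ≤ S)
    (hS : S + 1 / 25 * (k : ℝ) ≤ 21 / 20) :
    4942 / 10000 < S * (3040 / 1000 - 1264 / 10000 * ((k : ℝ) / 2 + 1) - 1826 / 1000 * S) - 1 / 1000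
      + 2 * ((k : ℝ) * (69656 / 1000000 - 134 / 100000 * (k : ℝ))
        - 4 / 25 * (1005 / 1000 * (((k : ℝ) / 2 + 1) * S) + 3 / 10000)) := by
  interval_cases k <;> push_cast at hS ⊢ <;>
    nlinarith [mul_nonneg hS0 (sub_nonneg.2 hS)]

theorem small_k (h : CTX Z I v) : (JJ I).card ≤ 3 := by
  classical
  by_contra hc
  push Not at hc
  have h26 := hk26 h
  have hcY := card_Y h
  have e1 := inl h (lam := ((JJ I).card : ℝ) / 2 + 1) (by positivity)
    (fun d => lam_roots (fun f hf => (mem_JJ.1 hf).1) d)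
  have e2 := budget h
  have e3 := QQ_sum h
  have e4 := CC_le h
  have e5 := CC_nonneg h
  have e6 : ∑ y ∈ YY Z I v, (1 - ‖y‖ ^ 2) ≤ 452 / 10000 := by
    refine le_trans ?_ h.cs
    exact sum_le_sum_of_subset_of_nonneg (fun y hy => (mem_YY.1 hy).1)
      fun z hz _ => by linarith [h.n1 z hz]
  have e7 : ∀ y ∈ YY Z I v, 69656 / 1000000 - 134 / 100000 * ((JJ I).card : ℝ) ≤
      RR I v y + 4 / 25 * (1005 / 1000 * QQ I v y + 11 / 100 * ((1 - ‖y‖ ^ 2) * CC I v)) := by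
    intro y hy
    have hyZ := (mem_YY.1 hy).1
    refine row h hy (by norm_num) ?_
    refine row16a h.hI (h26.trans (by norm_num)) (by linarith [h.nr y hyZ]) (h.n1 y hyZ)
      (h.out y hyZ (mem_YY.1 hy).2) (fun f hf => in_le h hy hf) _
      (fun b hb => ge h hyZ (h.mem b hb))
      (fun b hb => h.tt y hyZ _ (h.mem b hb) (ne_v h hy hb))
  have e8 := sum_le_sum e7
  rw [sum_const, nsmul_eq_mul, hcY, sum_add_distrib, ← mul_sum, sum_add_distrib, ← mul_sum,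
    ← mul_sum, ← sum_mul] at e8
  have e9 : (∑ y ∈ YY Z I v, (1 - ‖y‖ ^ 2)) * CC I v ≤ 452 / 10000 * (452 / 10000) :=
    mul_le_mul e6 e4 e5 (by norm_num)
  have e10 : SS I v + 1 / 25 * ((JJ I).card : ℝ) ≤ 21 / 20 := by
    rw [card_J h]
    exact h.sum
  have e11 := table hc h26 SS_nonneg e10
  generalize (∑ y ∈ YY Z I v, (1 - ‖y‖ ^ 2)) * CC I v = a1 at e8 e9
  generalize ∑ y ∈ YY Z I v, QQ I v y = a2 at e8 e3
  generalize ∑ y ∈ YY Z I v, RR I v y = a3 at e8 e2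
  generalize ((JJ I).card : ℝ) = k at e1 e3 e8 e11
  linarith

/-! ### At most three outliers -/

theorem SS_small (h : CTX Z I v) : SS I v ≤ 22 / 100 := by
  classical
  have hk := small_k h
  have hkr : ((JJ I).card : ℝ) ≤ 3 := by exact_mod_cast hk
  have e1 := inl h (lam := 5 / 2) (by norm_num) (fun d => by
    refine (lam_roots (fun f hf => (mem_JJ.1 hf).1) d).trans ?_
    exact mul_le_mul_of_nonneg_right (by linarith) (sq_nonneg _))
  have e2 := budget h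
  have e3 : 0 ≤ ∑ y ∈ YY Z I v, RR I v y := sum_nonneg fun y hy => RR_nonneg h hy
  have e4 : SS I v ≤ 21 / 20 := by
    have := h.sum
    rw [← card_J h] at this
    have h5 : 0 ≤ ((JJ I).card : ℝ) := Nat.cast_nonneg _
    unfold SS
    linarith
  by_contra hc
  push Not at hc
  nlinarith [mul_nonneg (sub_nonneg.2 hc.le) (sub_nonneg.2 e4)]

theorem inl' (h : CTX Z I v) : SS I v * (3040 / 1000 - 1264 / 10000 * (((JJ I).card : ℝ) / 2 + 1)
    - 1826 / 1000 * SS I v) - 1 / 1000 ≤ EE I v :=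
  inl h (lam := ((JJ I).card : ℝ) / 2 + 1) (by positivity)
    (fun d => lam_roots (fun f hf => (mem_JJ.1 hf).1) d)

/-- All outliers are close to a root. -/
theorem near_root (h : CTX Z I v) {y : E} (hy : y ∈ YY Z I v) :
    ∃ f ∈ UE, ‖y - f‖ ^ 2 < 1 / 8 := by
  classical
  by_contra hc
  push Not at hc
  have hk := small_k h
  have hS := SS_small h
  have hS0 : 0 ≤ SS I v := SS_nonneg
  have hcY := card_Y h
  have e1 := inl' h
  have e2 := budget h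
  have hyZ := (mem_YY.1 hy).1
  obtain ⟨w1, w2, w3⟩ := far75 h.hI (y := y) (T := fun b => TT y (v b))
    (fun b hb => ge h hyZ (h.mem b hb))
    (fun b hb => h.tt y hyZ _ (h.mem b hb) (ne_v h hy hb)) (h.nr y hyZ) (h.n1 y hyZ) hc
    (fun f hf => in_le h hy hf)
  have hrow : ∀ V : ℝ, V ≤ rw' (3 / 4) I (fun b => TT y (v b)) y →
      V ≤ RR I v y + 3 / 4 * (1005 / 1000 * SS I v + 24 / 100000) := fun V hV =>
    row_small h hy (by norm_num) hV
  have hoth : ∀ z ∈ (YY Z I v).erase y, 69656 / 1000000 - 134 / 100000 * ((JJ I).card : ℝ) ≤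
      RR I v z + 4 / 25 * (1005 / 1000 * SS I v + 24 / 100000) := by
    intro z hz
    have hz' := mem_of_mem_erase hz
    have hzZ := (mem_YY.1 hz').1
    refine row_small h hz' (by norm_num) ?_
    refine row16a h.hI (hk.trans (by norm_num)) (by linarith [h.nr z hzZ]) (h.n1 z hzZ)
      (h.out z hzZ (mem_YY.1 hz').2) (fun f hf => in_le h hz' hf) _
      (fun b hb => ge h hzZ (h.mem b hb))
      (fun b hb => h.tt z hzZ _ (h.mem b hb) (ne_v h hz' hb))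
  have e8 := sum_le_sum hoth
  rw [sum_const, nsmul_eq_mul, card_erase_of_mem hy, hcY, sum_add_distrib, sum_const,
    nsmul_eq_mul, card_erase_of_mem hy, hcY] at e8
  have e9 := add_sum_erase (YY Z I v) (RR I v) hy
  have hpos : 0 < (JJ I).card := by
    rw [← hcY]
    exact card_pos.2 ⟨y, hy⟩
  have hcase : (JJ I).card = 1 ∨ (JJ I).card = 2 ∨ (JJ I).card = 3 := by omega
  generalize SS I v = S at hS hS0 e1 hrow e8
  generalize ∑ z ∈ (YY Z I v).erase y, RR I v z = a1 at e8 e9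
  generalize ∑ z ∈ YY Z I v, RR I v z = a2 at e2 e9
  generalize RR I v y = a3 at hrow e9
  generalize EE I v = a4 at e1 e2
  rcases hcase with g | g | g
  · have h1 := hrow _ (w1 g)
    rw [g] at e1 e8
    norm_num at e1 e8
    nlinarith [mul_nonneg hS0 (sub_nonneg.2 hS)]
  · have h1 := hrow _ (w2 g)
    rw [g] at e1 e8
    norm_num at e1 e8
    nlinarith [mul_nonneg hS0 (sub_nonneg.2 hS)]
  · have h1 := hrow _ (w3 g)
    rw [g] at e1 e8
    norm_num at e1 e8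
    nlinarith [mul_nonneg hS0 (sub_nonneg.2 hS)]

/-- The label of an outlier is a missing one. -/
theorem lab_J (h : CTX Z I v) {y f : E} (hy : y ∈ YY Z I v) (hf : f ∈ UE)
    (hd : ‖y - f‖ ^ 2 < 1 / 8) : f ∈ JJ I := by
  refine mem_JJ.2 ⟨hf, fun hc => ?_⟩
  have h1 := in_le h hy hc
  have hn : ‖y - f‖ ^ 2 = ‖y‖ ^ 2 - 2 * (inner ℝ y f : ℝ) + ‖f‖ ^ 2 := norm_sub_sq_real y f
  rw [AllO.hUEF.nrm f hf] at hn
  have := h.nr y (mem_YY.1 hy).1
  linarith

/-- Two points of `Z` cannot share a label. -/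
theorem lab_inj (h : CTX Z I v) {y z f : E} (hy : y ∈ Z) (hz : z ∈ Z)
    (h1 : ‖y - f‖ ^ 2 < 1 / 8) (h2 : ‖z - f‖ ^ 2 < 1 / 8) : y = z := by
  by_contra hne
  have h3 := h.tt y hy z hz hne
  have h4 : 0 ≤ (1 - ‖y‖ ^ 2) * (1 - ‖z‖ ^ 2) :=
    mul_nonneg (by linarith [h.n1 y hy]) (by linarith [h.n1 z hz])
  have h5 : ‖y - z‖ ^ 2 = ‖y‖ ^ 2 - 2 * (inner ℝ y z : ℝ) + ‖z‖ ^ 2 := norm_sub_sq_real y z
  have h6 : ‖y - z‖ ^ 2 ≤ 2 * (‖y - f‖ ^ 2 + ‖z - f‖ ^ 2) := by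
    have e : y - z = (y - f) - (z - f) := by abel
    have g1 : ‖(y - f) - (z - f)‖ ^ 2 = ‖y - f‖ ^ 2 - 2 * (inner ℝ (y - f) (z - f) : ℝ)
      + ‖z - f‖ ^ 2 := norm_sub_sq_real _ _
    have g2 : ‖(y - f) + (z - f)‖ ^ 2 = ‖y - f‖ ^ 2 + 2 * (inner ℝ (y - f) (z - f) : ℝ)
      + ‖z - f‖ ^ 2 := norm_add_sq_real _ _
    have g3 := sq_nonneg ‖(y - f) + (z - f)‖
    rw [e, g1]
    linarith
  have h7 := h.nr y hy
  have h8 := h.nr z hz
  unfold TT at h3
  linarith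

/-- Every missing label is taken. -/
theorem surj (h : CTX Z I v) {e : E} (he : e ∈ JJ I) : ∃ y ∈ YY Z I v, ‖y - e‖ ^ 2 < 1 / 8 := by
  classical
  have hg : ∀ y ∈ YY Z I v, ∃ f, f ∈ UE ∧ ‖y - f‖ ^ 2 < 1 / 8 := fun y hy => by
    obtain ⟨f, hf, hd⟩ := near_root h hy
    exact ⟨f, hf, hd⟩
  choose! g hg1 hg2 using hg
  have hmap : ∀ y ∈ YY Z I v, g y ∈ JJ I := fun y hy => lab_J h hy (hg1 y hy) (hg2 y hy)
  have hinj : Set.InjOn g (YY Z I v : Set E) := by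
    intro y hy z hz hyz
    have hy' := mem_coe.1 hy
    have hz' := mem_coe.1 hz
    have h2 := hg2 z hz'
    rw [← hyz] at h2
    exact lab_inj h (mem_YY.1 hy').1 (mem_YY.1 hz').1 (hg2 y hy') h2
  have himg : (YY Z I v).image g = JJ I := by
    apply eq_of_subset_of_card_le
    · intro f hf
      obtain ⟨y, hy, rfl⟩ := mem_image.1 hf
      exact hmap y hy
    · rw [card_image_of_injOn hinj, card_Y h]
  rw [← himg] at he
  obtain ⟨y, hy, rfl⟩ := mem_image.1 he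
  exact ⟨y, hy, hg2 y hy⟩

theorem fin_num {k : ℕ} (hk : k ≤ 3) {S A R e : ℝ} (hS0 : 0 ≤ S) (hS : S ≤ 22 / 100)
    (h1 : S * (3040 / 1000 - 1264 / 10000 * ((k : ℝ) / 2 + 1) - 1826 / 1000 * S) - 1 / 1000 ≤ e)
    (h2 : e + 2 * R ≤ 4942 / 10000)
    (h3 : (k : ℝ) * (252 / 10000) + 101 / 100 * A ≤
      R + (k : ℝ) * (4 / 25 * (1005 / 1000 * S + 24 / 100000))) : S + A ≤ 1 / 4 := by
  by_contra hc
  push Not at hc
  interval_cases k <;> norm_num at h1 h3 <;> nlinarith [mul_nonneg hS0 (sub_nonneg.2 hS)]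

/-- **The complete labelling.** -/
theorem core (h : CTX Z I v) : ∃ u : E → E, (∀ e ∈ UE, u e ∈ Z) ∧ Set.InjOn u (UE : Set E) ∧
    ∑ e ∈ UE, ‖u e - e‖ ^ 2 ≤ 1 / 4 := by
  classical
  have hs : ∀ e ∈ JJ I, ∃ y, y ∈ YY Z I v ∧ ‖y - e‖ ^ 2 < 1 / 8 := fun e he => by
    obtain ⟨y, hy, hd⟩ := surj h he
    exact ⟨y, hy, hd⟩
  choose! g hg1 hg2 using hs
  set u : E → E := fun e => if e ∈ I then v e else g e with hu
  have uI : ∀ e ∈ I, u e = v e := fun e he => if_pos he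
  have uJ : ∀ e ∈ JJ I, u e = g e := fun e he => if_neg (mem_JJ.1 he).2
  have hcase : ∀ e ∈ UE, e ∈ I ∨ e ∈ JJ I := by
    intro e he
    by_cases h1 : e ∈ I
    · exact Or.inl h1
    · exact Or.inr (mem_JJ.2 ⟨he, h1⟩)
  have hgi : Set.InjOn g (JJ I : Set E) := by
    intro e he f hf hef
    have he' := mem_coe.1 he
    have hf' := mem_coe.1 hf
    by_contra hne
    have h1 := hg2 e he'
    have h2 := hg2 f hf'
    rw [← hef] at h2
    have h3 := TRPM.ue_sep (mem_JJ.1 he').1 (mem_JJ.1 hf').1 hne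
    have h4 : ‖e - f‖ ≤ ‖g e - e‖ + ‖g e - f‖ := by
      have : e - f = -(g e - e) + (g e - f) := by abel
      rw [this]
      refine (norm_add_le _ _).trans ?_
      rw [norm_neg]
    have h5 : ‖g e - e‖ < 36 / 100 := by nlinarith [norm_nonneg (g e - e)]
    have h6 : ‖g e - f‖ < 36 / 100 := by nlinarith [norm_nonneg (g e - f)]
    linarith
  refine ⟨u, ?_, ?_, ?_⟩
  · intro e he
    rcases hcase e he with h1 | h1
    · rw [uI e h1]
      exact h.mem e h1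
    · rw [uJ e h1]
      exact (mem_YY.1 (hg1 e h1)).1
  · intro e he f hf hef
    rcases hcase e (mem_coe.1 he) with h1 | h1 <;> rcases hcase f (mem_coe.1 hf) with h2 | h2
    · rw [uI e h1, uI f h2] at hef
      exact h.inj (mem_coe.2 h1) (mem_coe.2 h2) hef
    · rw [uI e h1, uJ f h2] at hef
      exact absurd hef.symm ((mem_YY.1 (hg1 f h2)).2 e h1)
    · rw [uJ e h1, uI f h2] at hef
      exact absurd hef ((mem_YY.1 (hg1 e h1)).2 f h2)
    · rw [uJ e h1, uJ f h2] at hef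
      exact hgi (mem_coe.2 h1) (mem_coe.2 h2) hef
  · have hk := small_k h
    have hsplit : ∑ e ∈ UE, ‖u e - e‖ ^ 2 = SS I v + ∑ e ∈ JJ I, ‖g e - e‖ ^ 2 := by
      have h1 := sum_sdiff (f := fun e => ‖u e - e‖ ^ 2) h.hI
      have h2 : ∑ e ∈ UE \ I, ‖u e - e‖ ^ 2 = ∑ e ∈ JJ I, ‖g e - e‖ ^ 2 := by
        show ∑ e ∈ JJ I, ‖u e - e‖ ^ 2 = _
        exact sum_congr rfl fun e he => by rw [uJ e he]
      have h3 : ∑ e ∈ I, ‖u e - e‖ ^ 2 = SS I v := by
        unfold SS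
        exact sum_congr rfl fun e he => by rw [uI e he]
      rw [h2, h3] at h1
      rw [← h1]
      ring
    rw [hsplit]
    have hrow : ∀ e ∈ JJ I, 252 / 10000 + 101 / 100 * ‖g e - e‖ ^ 2 ≤
        RR I v (g e) + 4 / 25 * (1005 / 1000 * SS I v + 24 / 100000) := by
      intro e he
      have hy := hg1 e he
      have hyZ := (mem_YY.1 hy).1
      refine row_small h hy (by norm_num) ?_
      have heU := (mem_JJ.1 he).1
      refine row_disp h.hI hk heU (mem_JJ.1 he).2 ?_ (hg2 e he).le _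
        (fun b hb => ge h hyZ (h.mem b hb))
        (fun b hb => h.tt _ hyZ _ (h.mem b hb) (ne_v h hy hb))
      have h4 := pow_le_pow_left₀ (by norm_num) (h.out _ hyZ (mem_YY.1 hy).2 e heU) 2
      norm_num at h4 ⊢
      exact h4
    have h5 := sum_le_sum hrow
    rw [sum_add_distrib, sum_const, nsmul_eq_mul, ← mul_sum, sum_add_distrib, sum_const,
      nsmul_eq_mul] at h5
    have h6 : ∑ e ∈ JJ I, RR I v (g e) ≤ ∑ y ∈ YY Z I v, RR I v y := by
      rw [← sum_image (f := fun y => RR I v y) hgi]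
      refine sum_le_sum_of_subset_of_nonneg ?_ fun y hy _ => RR_nonneg h hy
      intro y hy
      obtain ⟨e, he, rfl⟩ := mem_image.1 hy
      exact hg1 e he
    have h7 := inl' h
    have h8 := budget h
    exact fin_num hk SS_nonneg (SS_small h) h7 h8 (by linarith)

end CMBM

open CMBM in
/-- **STAB2**: from a point of reference with truncated cost at most `21/20` to a complete labelling
with squared error at most `1/4`. -/
theorem cmb (Z : Finset E) (hcard : Z.card = 240) (hn : ∀ z ∈ Z, ‖z‖ ≤ 1)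
    (hr : ∀ z ∈ Z, 1 - ‖z‖ ^ 2 ≤ 7 / 150) (hT : ∀ z ∈ Z, ∀ w ∈ Z, z ≠ w → TT z w ≤ 1 / 2)
    (hcs : ∑ z ∈ Z, (1 - ‖z‖ ^ 2) ≤ 452 / 10000)
    (hen : ∑ z ∈ Z, ∑ w ∈ Z.erase z, base (TT z w) * (1 / 2 - TT z w) ≤ 4942 / 10000)
    (A1 : E ≃ₗᵢ[ℝ] E) (hF : ∑ z ∈ Z, TRPM.td (1 / 5) (A1 z) ≤ 21 / 20) :
    ∃ (u : E → E) (A : E ≃ₗᵢ[ℝ] E), (∀ e ∈ UE, u e ∈ Z) ∧ Set.InjOn u (UE : Set E) ∧
      ∑ e ∈ UE, ‖A (u e) - e‖ ^ 2 ≤ 1 / 4 := by
  classical
  have hn1 : ∀ z ∈ Z, ‖z‖ ^ 2 ≤ 1 := fun z hz => by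
    have := hn z hz
    nlinarith [norm_nonneg z]
  have hnr : ∀ z ∈ Z, 143 / 150 ≤ ‖z‖ ^ 2 := by
    intro z hz
    have h := hr z hz
    linarith
  have hsep : ∀ z ∈ Z, ∀ w ∈ Z, z ≠ w → 2 * (1 / 5 : ℝ) ≤ ‖z - w‖ := by
    intro z hz w hw hne
    have h1 := hT z hz w hw hne
    have h2 : 0 ≤ (1 - ‖z‖ ^ 2) * (1 - ‖w‖ ^ 2) :=
      mul_nonneg (by linarith [hn1 z hz]) (by linarith [hn1 w hw])
    have h3 : ‖z - w‖ ^ 2 = ‖z‖ ^ 2 - 2 * (inner ℝ z w : ℝ) + ‖w‖ ^ 2 := norm_sub_sq_real z w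
    have h4 := hnr z hz
    have h5 := hnr w hw
    unfold TT at h1
    by_contra hc
    push Not at hc
    have h6 : ‖z - w‖ ^ 2 < (2 * (1 / 5)) ^ 2 :=
      pow_lt_pow_left₀ hc (norm_nonneg _) (by norm_num)
    norm_num at h6
    linarith
  obtain ⟨A, I, u, hI, hmem, hcl, hinj, hout, -, hsum, -, hg⟩ :=
    trunc Z (1 / 5) (21 / 20) (by norm_num) (by norm_num) hsep A1 hF
  have hmemA : ∀ z : E, z ∈ Z.image A ↔ A.symm z ∈ Z := by
    intro z
    rw [mem_image]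
    constructor
    · rintro ⟨w, hw, rfl⟩
      rwa [LinearIsometryEquiv.symm_apply_apply]
    · intro h
      exact ⟨A.symm z, h, LinearIsometryEquiv.apply_symm_apply _ _⟩
  have hAi : Function.Injective A := A.injective
  have ctx : CTX (Z.image A) I (fun e => A (u e)) := by
    refine ⟨?_, ?_, ?_, ?_, ?_, ?_, hI, ?_, hcl, ?_, ?_, ?_, hg⟩
    · rw [card_image_of_injective _ hAi, hcard]
    · intro z hz
      obtain ⟨w, hw, rfl⟩ := mem_image.1 hz
      rw [LinearIsometryEquiv.norm_map]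
      exact hn1 w hw
    · intro z hz
      obtain ⟨w, hw, rfl⟩ := mem_image.1 hz
      rw [LinearIsometryEquiv.norm_map]
      exact hnr w hw
    · intro z hz w hw hne
      obtain ⟨z', hz', rfl⟩ := mem_image.1 hz
      obtain ⟨w', hw', rfl⟩ := mem_image.1 hw
      rw [ISOM.TT_map]
      exact hT z' hz' w' hw' fun h => hne (by rw [h])
    · rw [sum_image fun a _ b _ h => hAi h]
      simp only [LinearIsometryEquiv.norm_map]
      exact hcs
    · rw [sum_image fun a _ b _ h => hAi h]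
      refine le_trans (le_of_eq (sum_congr rfl fun z hz => ?_)) hen
      have e : (Z.image A).erase (A z) = (Z.erase z).image A := by
        rw [image_erase hAi]
      rw [e, sum_image fun a _ b _ h => hAi h]
      simp only [ISOM.TT_map]
    · intro e he
      exact mem_image_of_mem _ (hmem e he)
    · intro e he f hf hef
      exact hinj he hf (hAi hef)
    · intro z hz hne e he
      obtain ⟨w, hw, rfl⟩ := mem_image.1 hz
      exact hout w hw (fun e he h => hne e he (by rw [h])) e he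
    · rw [hcard] at hsum
      norm_num at hsum ⊢
      linarith
  obtain ⟨u', h1, h2, h3⟩ := core ctx
  refine ⟨fun e => A.symm (u' e), A, fun e he => (hmemA _).1 (h1 e he), ?_, ?_⟩
  · intro e he f hf hef
    exact h2 he hf (A.symm.injective hef)
  · simp only [LinearIsometryEquiv.apply_symm_apply]
    exact h3

/-- **(c) of STAB2**. -/
theorem specCMB : SpecCMB := fun Z h1 h2 h3 h4 _ h6 h7 A1 h8 => cmb Z h1 h2 h3 h4 h6 h7 A1 h8

end Pool.Agent.Lib.MP_f1379f_gt.FV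
end
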