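import Pool.Agent.Lib.MP_f1379f_gt.FV.CZL

/-!
# box check, region n1
-/

set_option autoImplicit false
set_option linter.unusedVariables false
set_option linter.unusedSimpArgs false
set_option linter.unusedTactic false
set_option linter.style.longLine false
set_option maxRecDepth 100000

namespace Pool.Agent.Lib.MP_f1379f_gt.FV.CZ.n1r

open Finset Pool.Agent.Lib.MP_f1379f_gt.FV Pool.Agent.Lib.MP_f1379f_gt.FV.BCH Pool.Agent.Lib.MP_f1379f_gt.FV.CZ Pool.Agent.Lib.MP_f1379f_gt.FV.CZ.U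

/-- node -/
def g0n0 : Ex := .f (-1) eS11 0 eS11
/-- node -/
def eQn1 : Ex := .m eK3 eD2
/-- node -/
def nd441 : Ex := .m eD2 nd16
/-- node -/
def nd442 : Ex := .f 4 eDd (-75) nd441
/-- node -/
def nd443 : Ex := .f 29165000 nd441 8820751 nd442
/-- node -/
def nd444 : Ex := .m nd16 nd16
/-- node -/
def nd445 : Ex := .f 4 eDd (-1875) nd444
/-- node -/
def nd446 : Ex := .m nd445 eD2
/-- node -/
def nd447 : Ex := .m nd443 nd16
/-- node -/
def nd448 : Ex := .f 2500 nd447 (-19391519) nd446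
/-- node -/
def nd449 : Ex := .f 1 nd429 (-10) nd7
/-- node -/
def nd450 : Ex := .m nd449 eD2
/-- node -/
def nd451 : Ex := .m nd450 nd17
/-- node -/
def nd452 : Ex := .f 1 nd448 507235000 nd451
/-- node -/
def nd453 : Ex := .m nd7 nd16
/-- node -/
def nd454 : Ex := .m nd16 nd453
/-- node -/
def nd455 : Ex := .m nd453 nd453
/-- node -/
def nd456 : Ex := .m nd454 nd455
/-- node -/
def nd457 : Ex := .m nd453 nd444
/-- node -/
def nd458 : Ex := .m nd455 nd457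
/-- node -/
def nd459 : Ex := .m nd456 nd458
/-- node -/
def nd460 : Ex := .m nd452 nd459
/-- node -/
def g1n1 : Ex := .f 29560781250000000000000000000 nd460 (-1) eQn1
/-- node -/
def nd462 : Ex := .f (-70004811) nd7 21275 nd429
/-- node -/
def nd463 : Ex := .m nd462 eD2
/-- node -/
def nd464 : Ex := .m nd463 nd9
/-- node -/
def nd465 : Ex := .f 125 nd464 501583833 eDd
/-- node -/
def nd466 : Ex := .m eDd eD2
/-- node -/
def nd467 : Ex := .m nd465 nd16
/-- node -/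
def nd468 : Ex := .f 75 nd467 (-32415616) nd466
/-- node -/
def nd469 : Ex := .m nd468 nd459
/-- node -/
def g2n1 : Ex := .f 59121562500000000000000000000 nd469 (-1) eQn1
/-- node -/
def nd471 : Ex := .f (-4362032315) nd7 1227089 nd429
/-- node -/
def nd472 : Ex := .m nd471 eD2
/-- node -/
def nd473 : Ex := .m nd472 nd9
/-- node -/
def nd474 : Ex := .f 5 nd473 1259406246 eDd
/-- node -/
def nd475 : Ex := .m nd474 nd16
/-- node -/
def nd476 : Ex := .f 25 nd475 (-26704158) nd466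
/-- node -/
def nd477 : Ex := .m nd476 nd459
/-- node -/
def g3n1 : Ex := .f 59121562500000000000000000000 nd477 (-1) eQn1
/-- node -/
def nd479 : Ex := .f (-286910395) nd7 65917 nd429
/-- node -/
def nd480 : Ex := .m nd479 eD2
/-- node -/
def nd481 : Ex := .m nd480 nd9
/-- node -/
def nd482 : Ex := .f 10 nd481 167970983 eDd
/-- node -/
def nd483 : Ex := .m nd482 nd16
/-- node -/
def nd484 : Ex := .f 25 nd483 (-3304422) nd466
/-- node -/
def nd485 : Ex := .m nd484 nd459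
/-- node -/
def g4n1 : Ex := .f 295607812500000000000000000000 nd485 (-1) eQn1
/-- node -/
def nd487 : Ex := .f (-704953775) nd7 116308 nd429
/-- node -/
def nd488 : Ex := .m nd487 eD2
/-- node -/
def nd489 : Ex := .m nd488 nd9
/-- node -/
def nd490 : Ex := .f 10 nd489 419564083 eDd
/-- node -/
def nd491 : Ex := .m nd490 nd16
/-- node -/
def nd492 : Ex := .f 25 nd491 (-7374312) nd466
/-- node -/
def nd493 : Ex := .m nd492 nd459
/-- node -/
def g5n1 : Ex := .f 59121562500000000000000000000 nd493 (-1) eQn1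
/-- node -/
def nd495 : Ex := .f (-1145877107) nd7 359429 nd429
/-- node -/
def nd496 : Ex := .m nd495 eD2
/-- node -/
def nd497 : Ex := .m nd496 nd9
/-- node -/
def nd498 : Ex := .f 25 nd497 1635777468 eDd
/-- node -/
def nd499 : Ex := .m nd498 nd16
/-- node -/
def nd500 : Ex := .f 5 nd499 (-7052887) nd466
/-- node -/
def nd501 : Ex := .m nd500 nd459
/-- node -/
def g6n1 : Ex := .f 295607812500000000000000000000 nd501 (-1) eQn1
/-- node -/
def nd503 : Ex := .f (-4789851530) nd7 1400927 nd429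
/-- node -/
def nd504 : Ex := .m nd503 eD2
/-- node -/
def nd505 : Ex := .m nd504 nd9
/-- node -/
def nd506 : Ex := .f 1 nd505 275579362 eDd
/-- node -/
def nd507 : Ex := .m nd506 nd16
/-- node -/
def nd508 : Ex := .f 125 nd507 (-29450818) nd466
/-- node -/
def nd509 : Ex := .m nd508 nd459
/-- node -/
def g7n1 : Ex := .f 59121562500000000000000000000 nd509 (-1) eQn1

/-- real function of g0n0 -/
noncomputable def f_g0n0 (x y t : ℝ) : ℝ := -f_eS11 x y t

theorem v_g0n0 (x y t : ℝ) : val g0n0 x y t = 3695097656250000000000000000000000000000000 * (f_g0n0 x y t) := by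
  simp only [g0n0, v_eS11, val_f]
  unfold f_g0n0
  push_cast
  ring

/-- real function of eQn1 -/
noncomputable def f_eQn1 (x y t : ℝ) : ℝ := f_eK3 x y t * f_eD2 x y t

theorem v_eQn1 (x y t : ℝ) : val eQn1 x y t = 92377441406250000000000000000000000000000000 * (f_eQn1 x y t) := by
  simp only [eQn1, v_eD2, v_eK3, val_m]
  unfold f_eQn1
  push_cast
  ring

/-- real function of g1n1 -/
noncomputable def f_g1n1 (x y t : ℝ) : ℝ := (((((5833 / 10000000) * f_eD2 x y t) + ((8820751 / 500000000) * (f_eDd x y t - ((3 / 4) * f_eD2 x y t)))) - ((19391519 / 50000000000) * ((f_eDd x y t - (3 / 4)) * f_eD2 x y t))) + ((101447 / 5000000000) * ((((1 - ((2 / 5) * x)) + (1 - ((2 / 5) * y))) - 2) * f_eD2 x y t))) - f_eQn1 x y t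

theorem v_g1n1 (x y t : ℝ) : val g1n1 x y t = 92377441406250000000000000000000000000000000 * (f_g1n1 x y t) := by
  simp only [nd0, nd1, nd5, nd6, nd7, nd9, nd12, nd13, nd15, nd16, nd17, nd427, nd428, nd429, nd441, nd442, nd443, nd444, nd445, nd446, nd447, nd448, nd449, nd450, nd451, nd452, nd453, nd454, nd455, nd456, nd457, nd458, nd459, nd460, g1n1, v_eD2, v_eDd, v_eQn1, val_f, val_h, val_m, val_vx, val_vy]
  unfold f_g1n1
  push_cast
  ring

/-- real function of g2n1 -/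
noncomputable def f_g2n1 (x y t : ℝ) : ℝ := ((((((-210014433) / 20000000000) + ((2553 / 160000000) * ((1 - ((2 / 5) * x)) + (1 - ((2 / 5) * y))))) * f_eD2 x y t) + ((1504751499 / 100000000000) * f_eDd x y t)) + (((-253247) / 781250000) * (f_eDd x y t * f_eD2 x y t))) - f_eQn1 x y t

theorem v_g2n1 (x y t : ℝ) : val g2n1 x y t = 92377441406250000000000000000000000000000000 * (f_g2n1 x y t) := by
  simp only [nd0, nd1, nd5, nd6, nd7, nd9, nd12, nd13, nd15, nd16, nd427, nd428, nd429, nd444, nd453, nd454, nd455, nd456, nd457, nd458, nd459, nd462, nd463, nd464, nd465, nd466, nd467, nd468, nd469, g2n1, v_eD2, v_eDd, v_eQn1, val_f, val_h, val_m, val_vx, val_vy]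
  unfold f_g2n1
  push_cast
  ring

/-- real function of g3n1 -/
noncomputable def f_g3n1 (x y t : ℝ) : ℝ := ((((((-872406463) / 100000000000) + ((1227089 / 100000000000) * ((1 - ((2 / 5) * x)) + (1 - ((2 / 5) * y))))) * f_eD2 x y t) + ((629703123 / 50000000000) * f_eDd x y t)) + (((-13352079) / 50000000000) * (f_eDd x y t * f_eD2 x y t))) - f_eQn1 x y t

theorem v_g3n1 (x y t : ℝ) : val g3n1 x y t = 92377441406250000000000000000000000000000000 * (f_g3n1 x y t) := by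
  simp only [nd0, nd1, nd5, nd6, nd7, nd9, nd12, nd13, nd15, nd16, nd427, nd428, nd429, nd444, nd453, nd454, nd455, nd456, nd457, nd458, nd459, nd466, nd471, nd472, nd473, nd474, nd475, nd476, nd477, g3n1, v_eD2, v_eDd, v_eQn1, val_f, val_h, val_m, val_vx, val_vy]
  unfold f_g3n1
  push_cast
  ring

/-- real function of g4n1 -/
noncomputable def f_g4n1 (x y t : ℝ) : ℝ := ((((((-57382079) / 10000000000) + ((65917 / 10000000000) * ((1 - ((2 / 5) * x)) + (1 - ((2 / 5) * y))))) * f_eD2 x y t) + ((167970983 / 20000000000) * f_eDd x y t)) + (((-1652211) / 10000000000) * (f_eDd x y t * f_eD2 x y t))) - f_eQn1 x y t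

theorem v_g4n1 (x y t : ℝ) : val g4n1 x y t = 92377441406250000000000000000000000000000000 * (f_g4n1 x y t) := by
  simp only [nd0, nd1, nd5, nd6, nd7, nd9, nd12, nd13, nd15, nd16, nd427, nd428, nd429, nd444, nd453, nd454, nd455, nd456, nd457, nd458, nd459, nd466, nd479, nd480, nd481, nd482, nd483, nd484, nd485, g4n1, v_eD2, v_eDd, v_eQn1, val_f, val_h, val_m, val_vx, val_vy]
  unfold f_g4n1
  push_cast
  ring

/-- real function of g5n1 -/
noncomputable def f_g5n1 (x y t : ℝ) : ℝ := ((((((-28198151) / 10000000000) + ((29077 / 12500000000) * ((1 - ((2 / 5) * x)) + (1 - ((2 / 5) * y))))) * f_eD2 x y t) + ((419564083 / 100000000000) * f_eDd x y t)) + (((-921789) / 12500000000) * (f_eDd x y t * f_eD2 x y t))) - f_eQn1 x y t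

theorem v_g5n1 (x y t : ℝ) : val g5n1 x y t = 92377441406250000000000000000000000000000000 * (f_g5n1 x y t) := by
  simp only [nd0, nd1, nd5, nd6, nd7, nd9, nd12, nd13, nd15, nd16, nd427, nd428, nd429, nd444, nd453, nd454, nd455, nd456, nd457, nd458, nd459, nd466, nd487, nd488, nd489, nd490, nd491, nd492, nd493, g5n1, v_eD2, v_eDd, v_eQn1, val_f, val_h, val_m, val_vx, val_vy]
  unfold f_g5n1
  push_cast
  ring

/-- real function of g6n1 -/
noncomputable def f_g6n1 (x y t : ℝ) : ℝ := ((((((-1145877107) / 100000000000) + ((359429 / 20000000000) * ((1 - ((2 / 5) * x)) + (1 - ((2 / 5) * y))))) * f_eD2 x y t) + ((408944367 / 25000000000) * f_eDd x y t)) + (((-7052887) / 20000000000) * (f_eDd x y t * f_eD2 x y t))) - f_eQn1 x y t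

theorem v_g6n1 (x y t : ℝ) : val g6n1 x y t = 92377441406250000000000000000000000000000000 * (f_g6n1 x y t) := by
  simp only [nd0, nd1, nd5, nd6, nd7, nd9, nd12, nd13, nd15, nd16, nd427, nd428, nd429, nd444, nd453, nd454, nd455, nd456, nd457, nd458, nd459, nd466, nd495, nd496, nd497, nd498, nd499, nd500, nd501, g6n1, v_eD2, v_eDd, v_eQn1, val_f, val_h, val_m, val_vx, val_vy]
  unfold f_g6n1
  push_cast
  ring

/-- real function of g7n1 -/
noncomputable def f_g7n1 (x y t : ℝ) : ℝ := ((((((-478985153) / 50000000000) + ((1400927 / 100000000000) * ((1 - ((2 / 5) * x)) + (1 - ((2 / 5) * y))))) * f_eD2 x y t) + ((137789681 / 10000000000) * f_eDd x y t)) + (((-14725409) / 50000000000) * (f_eDd x y t * f_eD2 x y t))) - f_eQn1 x y t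

theorem v_g7n1 (x y t : ℝ) : val g7n1 x y t = 92377441406250000000000000000000000000000000 * (f_g7n1 x y t) := by
  simp only [nd0, nd1, nd5, nd6, nd7, nd9, nd12, nd13, nd15, nd16, nd427, nd428, nd429, nd444, nd453, nd454, nd455, nd456, nd457, nd458, nd459, nd466, nd503, nd504, nd505, nd506, nd507, nd508, nd509, g7n1, v_eD2, v_eDd, v_eQn1, val_f, val_h, val_m, val_vx, val_vy]
  unfold f_g7n1
  push_cast
  ring

/-- parameters -/
def P0 : Par := ⟨636, 14, 14, 11, 3840, 3840, 2560, 896, 896, 2560⟩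

theorem hP0 : chkPar P0 g0n0 = true := by decide +kernel

/-- parameters -/
def P1 : Par := ⟨759, 18, 18, 12, 3840, 3840, 2560, 896, 896, 2560⟩

theorem hP1 : chkPar P1 g1n1 = true := by decide +kernel

/-- parameters -/
def P2 : Par := ⟨759, 18, 18, 12, 3840, 3840, 2560, 896, 896, 2560⟩

theorem hP2 : chkPar P2 g2n1 = true := by decide +kernel

/-- parameters -/
def P3 : Par := ⟨759, 18, 18, 12, 3840, 3840, 2560, 896, 896, 2560⟩

theorem hP3 : chkPar P3 g3n1 = true := by decide +kernel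

/-- parameters -/
def P4 : Par := ⟨759, 18, 18, 12, 3840, 3840, 2560, 896, 896, 2560⟩

theorem hP4 : chkPar P4 g4n1 = true := by decide +kernel

/-- parameters -/
def P5 : Par := ⟨759, 18, 18, 12, 3840, 3840, 2560, 896, 896, 2560⟩

theorem hP5 : chkPar P5 g5n1 = true := by decide +kernel

/-- parameters -/
def P6 : Par := ⟨759, 18, 18, 12, 3840, 3840, 2560, 896, 896, 2560⟩

theorem hP6 : chkPar P6 g6n1 = true := by decide +kernel

/-- parameters -/
def P7 : Par := ⟨759, 18, 18, 12, 3840, 3840, 2560, 896, 896, 2560⟩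

theorem hP7 : chkPar P7 g7n1 = true := by decide +kernel

/-- kinds -/
def ks (k : ℕ) : Par × Ex :=
  match k with
  | 0 => (P0, g0n0)
  | 1 => (P1, g1n1)
  | 2 => (P2, g2n1)
  | 3 => (P3, g3n1)
  | 4 => (P4, g4n1)
  | 5 => (P5, g5n1)
  | 6 => (P6, g6n1)
  | _ => (P7, g7n1)

lemma hks : ∀ k < 8, chkPar (ks k).1 (ks k).2 = true := by
  intro k hk
  interval_cases k
  · exact hP0
  · exact hP1
  · exact hP2
  · exact hP3
  · exact hP4
  · exact hP5
  · exact hP6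
  · exact hP7

/-- subtree -/
def T0 : Tm := (.st 896 (.lf 0) (.sx 224 (.sy 224 (.st 960 (.lf 0) (.lf 5)) (.lf 0)) (.lf 0)))
theorem hT0 : chkTm ks 8 3840 3840 2560 T0 ⟨0, 448, 0, 448, 768, 1024⟩ = true := by decide +kernel
/-- subtree -/
def T1 : Tm := (.sy 224 (.st 1088 (.lf 5) (.lf 4)) (.st 1088 (.lf 5) (.sx 112 .sk (.sy 336 (.st 1120 (.lf 5) (.lf 4)) .sk))))
theorem hT1 : chkTm ks 8 3840 3840 2560 T1 ⟨0, 224, 0, 448, 1024, 1152⟩ = true := by decide +kernel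
/-- subtree -/
def T2 : Tm := (.sy 224 (.st 1088 (.lf 5) (.sx 336 (.sy 112 (.lf 4) (.st 1120 (.lf 5) (.lf 4))) (.sy 112 (.st 1120 (.lf 5) (.lf 4)) (.lf 5)))) (.lf 5))
theorem hT2 : chkTm ks 8 3840 3840 2560 T2 ⟨224, 448, 0, 448, 1024, 1152⟩ = true := by decide +kernel
/-- subtree -/
def T3 : Tm := .sx 224 T1 T2
theorem hT3 : chkTm ks 8 3840 3840 2560 T3 ⟨0, 448, 0, 448, 1024, 1152⟩ = true := gluem_x hT1 hT2
/-- subtree -/
def T4 : Tm := (.sy 56 (.st 1168 (.lf 4) (.sx 28 (.sy 28 (.lf 3) (.st 1176 (.lf 4) (.lf 3))) (.sy 28 (.st 1176 (.lf 4) (.lf 3)) (.st 1176 (.lf 4) (.lf 3))))) (.st 1168 (.lf 4) (.sx 28 .sk (.sy 84 (.st 1176 (.lf 4) (.lf 3)) .sk))))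
theorem hT4 : chkTm ks 8 3840 3840 2560 T4 ⟨0, 56, 0, 112, 1152, 1184⟩ = true := by decide +kernel
/-- subtree -/
def T5 : Tm := (.sy 56 (.st 1168 (.lf 4) (.sx 84 (.sy 28 (.st 1176 (.lf 4) (.lf 3)) (.st 1176 (.lf 4) (.lf 3))) (.lf 4))) (.lf 4))
theorem hT5 : chkTm ks 8 3840 3840 2560 T5 ⟨56, 112, 0, 112, 1152, 1184⟩ = true := by decide +kernel
/-- subtree -/
def T6 : Tm := .sx 56 T4 T5
theorem hT6 : chkTm ks 8 3840 3840 2560 T6 ⟨0, 112, 0, 112, 1152, 1184⟩ = true := gluem_x hT4 hT5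
/-- subtree -/
def T7 : Tm := (.lf 3)
theorem hT7 : chkTm ks 8 3840 3840 2560 T7 ⟨0, 112, 0, 112, 1184, 1216⟩ = true := by decide +kernel
/-- subtree -/
def T8 : Tm := .st 1184 T6 T7
theorem hT8 : chkTm ks 8 3840 3840 2560 T8 ⟨0, 112, 0, 112, 1152, 1216⟩ = true := gluem_t hT6 hT7
/-- subtree -/
def T9 : Tm := (.st 1184 (.lf 4) (.sx 56 .sk (.sy 168 (.st 1200 (.sx 84 .sk (.sy 140 (.st 1192 (.lf 4) (.lf 3)) .sk)) (.lf 3)) .sk)))
theorem hT9 : chkTm ks 8 3840 3840 2560 T9 ⟨0, 112, 112, 224, 1152, 1216⟩ = true := by decide +kernel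
/-- subtree -/
def T10 : Tm := .sy 112 T8 T9
theorem hT10 : chkTm ks 8 3840 3840 2560 T10 ⟨0, 112, 0, 224, 1152, 1216⟩ = true := gluem_y hT8 hT9
/-- subtree -/
def T11 : Tm := (.st 1184 (.lf 4) (.sx 168 (.sy 56 (.lf 3) (.st 1200 (.sx 140 (.sy 84 (.lf 3) (.st 1192 (.lf 4) (.lf 3))) (.sy 84 (.lf 3) (.lf 4))) (.lf 3))) (.sy 56 (.lf 3) (.st 1200 (.lf 4) (.lf 3)))))
theorem hT11 : chkTm ks 8 3840 3840 2560 T11 ⟨112, 224, 0, 112, 1152, 1216⟩ = true := by decide +kernel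
/-- subtree -/
def T12 : Tm := (.st 1184 (.lf 4) (.sx 168 (.sy 168 (.st 1200 (.lf 4) (.lf 3)) (.st 1200 (.lf 4) (.lf 3))) (.sy 168 (.st 1200 (.lf 4) (.lf 3)) (.lf 4))))
theorem hT12 : chkTm ks 8 3840 3840 2560 T12 ⟨112, 224, 112, 224, 1152, 1216⟩ = true := by decide +kernel
/-- subtree -/
def T13 : Tm := .sy 112 T11 T12
theorem hT13 : chkTm ks 8 3840 3840 2560 T13 ⟨112, 224, 0, 224, 1152, 1216⟩ = true := gluem_y hT11 hT12
/-- subtree -/
def T14 : Tm := .sx 112 T10 T13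
theorem hT14 : chkTm ks 8 3840 3840 2560 T14 ⟨0, 224, 0, 224, 1152, 1216⟩ = true := gluem_x hT10 hT13
/-- subtree -/
def T15 : Tm := (.sx 56 (.sy 56 (.st 1232 (.lf 7) (.lf 2)) (.lf 7)) (.lf 7))
theorem hT15 : chkTm ks 8 3840 3840 2560 T15 ⟨0, 112, 0, 112, 1216, 1248⟩ = true := by decide +kernel
/-- subtree -/
def T16 : Tm := (.sx 28 (.sy 28 (.lf 6) (.st 1256 (.lf 2) (.lf 6))) (.sy 28 (.st 1256 (.lf 2) (.lf 6)) (.lf 2)))
theorem hT16 : chkTm ks 8 3840 3840 2560 T16 ⟨0, 56, 0, 56, 1248, 1264⟩ = true := by decide +kernel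
/-- subtree -/
def T17 : Tm := (.sy 28 (.st 1272 (.lf 6) (.sx 14 (.lf 1) (.sy 14 (.lf 1) (.st 1276 (.sx 21 (.sy 21 (.lf 1) (.lf 6)) (.lf 6)) (.lf 1))))) (.st 1272 (.lf 6) (.sx 14 .sk (.sy 42 (.st 1276 (.lf 6) (.lf 1)) .sk))))
theorem hT17 : chkTm ks 8 3840 3840 2560 T17 ⟨0, 28, 0, 56, 1264, 1280⟩ = true := by decide +kernel
/-- subtree -/
def T18 : Tm := (.st 1272 (.lf 6) (.sx 42 (.sy 14 (.st 1276 (.sx 35 (.sy 7 (.lf 1) (.lf 6)) (.lf 6)) (.lf 1)) (.st 1276 (.lf 6) (.lf 1))) (.sy 14 (.st 1276 (.lf 6) (.lf 1)) (.st 1276 (.lf 6) (.sx 49 (.lf 1) (.lf 6))))))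
theorem hT18 : chkTm ks 8 3840 3840 2560 T18 ⟨28, 56, 0, 28, 1264, 1280⟩ = true := by decide +kernel
/-- subtree -/
def T19 : Tm := (.st 1272 (.lf 6) (.sx 42 (.sy 42 (.st 1276 (.lf 6) (.sx 35 (.lf 1) (.sy 35 (.lf 1) (.lf 6)))) (.lf 6)) (.lf 6)))
theorem hT19 : chkTm ks 8 3840 3840 2560 T19 ⟨28, 56, 28, 56, 1264, 1280⟩ = true := by decide +kernel
/-- subtree -/
def T20 : Tm := .sy 28 T18 T19
theorem hT20 : chkTm ks 8 3840 3840 2560 T20 ⟨28, 56, 0, 56, 1264, 1280⟩ = true := gluem_y hT18 hT19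
/-- subtree -/
def T21 : Tm := .sx 28 T17 T20
theorem hT21 : chkTm ks 8 3840 3840 2560 T21 ⟨0, 56, 0, 56, 1264, 1280⟩ = true := gluem_x hT17 hT20
/-- subtree -/
def T22 : Tm := .st 1264 T16 T21
theorem hT22 : chkTm ks 8 3840 3840 2560 T22 ⟨0, 56, 0, 56, 1248, 1280⟩ = true := gluem_t hT16 hT21
/-- subtree -/
def T23 : Tm := (.st 1264 (.lf 2) (.sx 28 .sk (.lf 6)))
theorem hT23 : chkTm ks 8 3840 3840 2560 T23 ⟨0, 56, 56, 112, 1248, 1280⟩ = true := by decide +kernel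
/-- subtree -/
def T24 : Tm := .sy 56 T22 T23
theorem hT24 : chkTm ks 8 3840 3840 2560 T24 ⟨0, 56, 0, 112, 1248, 1280⟩ = true := gluem_y hT22 hT23
/-- subtree -/
def T25 : Tm := (.st 1264 (.lf 2) (.sx 84 (.sy 28 (.st 1272 (.lf 6) (.sx 70 (.sy 14 (.st 1276 (.lf 6) (.lf 1)) (.lf 6)) (.lf 6))) (.lf 6)) (.lf 6)))
theorem hT25 : chkTm ks 8 3840 3840 2560 T25 ⟨56, 112, 0, 56, 1248, 1280⟩ = true := by decide +kernel
/-- subtree -/
def T26 : Tm := (.st 1264 (.lf 2) (.sx 84 (.lf 6) (.sy 84 (.lf 6) (.st 1272 (.lf 2) (.lf 6)))))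
theorem hT26 : chkTm ks 8 3840 3840 2560 T26 ⟨56, 112, 56, 112, 1248, 1280⟩ = true := by decide +kernel
/-- subtree -/
def T27 : Tm := .sy 56 T25 T26
theorem hT27 : chkTm ks 8 3840 3840 2560 T27 ⟨56, 112, 0, 112, 1248, 1280⟩ = true := gluem_y hT25 hT26
/-- subtree -/
def T28 : Tm := .sx 56 T24 T27
theorem hT28 : chkTm ks 8 3840 3840 2560 T28 ⟨0, 112, 0, 112, 1248, 1280⟩ = true := gluem_x hT24 hT27
/-- subtree -/
def T29 : Tm := .st 1248 T15 T28
theorem hT29 : chkTm ks 8 3840 3840 2560 T29 ⟨0, 112, 0, 112, 1216, 1280⟩ = true := gluem_t hT15 hT28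
/-- subtree -/
def T30 : Tm := (.st 1248 (.sx 56 .sk (.lf 3)) (.sx 56 .sk (.sy 168 (.st 1264 (.lf 2) (.sx 84 .sk (.lf 2))) .sk)))
theorem hT30 : chkTm ks 8 3840 3840 2560 T30 ⟨0, 112, 112, 224, 1216, 1280⟩ = true := by decide +kernel
/-- subtree -/
def T31 : Tm := .sy 112 T29 T30
theorem hT31 : chkTm ks 8 3840 3840 2560 T31 ⟨0, 112, 0, 224, 1216, 1280⟩ = true := gluem_y hT29 hT30
/-- subtree -/
def T32 : Tm := (.st 1248 (.sx 168 (.lf 7) (.lf 3)) (.sx 168 (.sy 56 (.st 1264 (.lf 2) (.lf 6)) (.st 1264 (.lf 2) (.sx 140 (.sy 84 (.st 1272 (.lf 2) (.lf 6)) (.lf 2)) (.lf 2)))) (.lf 2)))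
theorem hT32 : chkTm ks 8 3840 3840 2560 T32 ⟨112, 224, 0, 112, 1216, 1280⟩ = true := by decide +kernel
/-- subtree -/
def T33 : Tm := (.st 1248 (.lf 3) (.sx 168 (.sy 168 (.lf 2) (.st 1264 (.lf 3) (.lf 2))) (.sy 168 (.st 1264 (.lf 3) (.lf 2)) (.lf 7))))
theorem hT33 : chkTm ks 8 3840 3840 2560 T33 ⟨112, 224, 112, 224, 1216, 1280⟩ = true := by decide +kernel
/-- subtree -/
def T34 : Tm := .sy 112 T32 T33
theorem hT34 : chkTm ks 8 3840 3840 2560 T34 ⟨112, 224, 0, 224, 1216, 1280⟩ = true := gluem_y hT32 hT33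
/-- subtree -/
def T35 : Tm := .sx 112 T31 T34
theorem hT35 : chkTm ks 8 3840 3840 2560 T35 ⟨0, 224, 0, 224, 1216, 1280⟩ = true := gluem_x hT31 hT34
/-- subtree -/
def T36 : Tm := .st 1216 T14 T35
theorem hT36 : chkTm ks 8 3840 3840 2560 T36 ⟨0, 224, 0, 224, 1152, 1280⟩ = true := gluem_t hT14 hT35
/-- subtree -/
def T37 : Tm := (.st 1216 (.sx 112 .sk (.lf 4)) (.sx 112 .sk (.sy 336 (.st 1248 (.lf 3) (.lf 7)) .sk)))
theorem hT37 : chkTm ks 8 3840 3840 2560 T37 ⟨0, 224, 224, 448, 1152, 1280⟩ = true := by decide +kernel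
/-- subtree -/
def T38 : Tm := .sy 224 T36 T37
theorem hT38 : chkTm ks 8 3840 3840 2560 T38 ⟨0, 224, 0, 448, 1152, 1280⟩ = true := gluem_y hT36 hT37
/-- subtree -/
def T39 : Tm := (.sx 336 (.sy 112 (.st 1184 (.lf 4) (.sx 280 (.sy 56 (.st 1200 (.lf 4) (.lf 3)) (.st 1200 (.lf 4) (.lf 3))) (.sy 56 (.st 1200 (.lf 4) (.lf 3)) (.lf 4)))) (.lf 4)) (.lf 4))
theorem hT39 : chkTm ks 8 3840 3840 2560 T39 ⟨224, 448, 0, 224, 1152, 1216⟩ = true := by decide +kernel
/-- subtree -/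
def T40 : Tm := (.sy 112 (.st 1248 (.lf 3) (.sx 280 (.sy 56 (.lf 2) (.st 1264 (.lf 3) (.lf 2))) (.sy 56 (.st 1264 (.lf 3) (.lf 2)) (.lf 7)))) (.st 1248 (.lf 3) (.lf 7)))
theorem hT40 : chkTm ks 8 3840 3840 2560 T40 ⟨224, 336, 0, 224, 1216, 1280⟩ = true := by decide +kernel
/-- subtree -/
def T41 : Tm := (.sy 112 (.st 1248 (.lf 3) (.lf 7)) (.st 1248 (.sx 392 (.lf 3) (.sy 168 (.lf 3) (.st 1232 (.lf 4) (.lf 3)))) (.lf 3)))
theorem hT41 : chkTm ks 8 3840 3840 2560 T41 ⟨336, 448, 0, 224, 1216, 1280⟩ = true := by decide +kernel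
/-- subtree -/
def T42 : Tm := .sx 336 T40 T41
theorem hT42 : chkTm ks 8 3840 3840 2560 T42 ⟨224, 448, 0, 224, 1216, 1280⟩ = true := gluem_x hT40 hT41
/-- subtree -/
def T43 : Tm := .st 1216 T39 T42
theorem hT43 : chkTm ks 8 3840 3840 2560 T43 ⟨224, 448, 0, 224, 1152, 1280⟩ = true := gluem_t hT39 hT42
/-- subtree -/
def T44 : Tm := (.lf 4)
theorem hT44 : chkTm ks 8 3840 3840 2560 T44 ⟨224, 448, 224, 448, 1152, 1216⟩ = true := by decide +kernel
/-- subtree -/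
def T45 : Tm := (.sy 336 (.st 1248 (.sx 280 (.lf 3) (.sy 280 (.lf 3) (.st 1232 (.lf 4) (.lf 3)))) (.lf 3)) (.st 1248 (.sx 280 .sk (.lf 4)) (.lf 3)))
theorem hT45 : chkTm ks 8 3840 3840 2560 T45 ⟨224, 336, 224, 448, 1216, 1280⟩ = true := by decide +kernel
/-- subtree -/
def T46 : Tm := (.sy 336 (.st 1248 (.sx 392 (.sy 280 (.st 1232 (.lf 4) (.lf 3)) (.lf 4)) (.lf 4)) (.lf 3)) (.st 1248 (.lf 4) (.lf 3)))
theorem hT46 : chkTm ks 8 3840 3840 2560 T46 ⟨336, 448, 224, 448, 1216, 1280⟩ = true := by decide +kernel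
/-- subtree -/
def T47 : Tm := .sx 336 T45 T46
theorem hT47 : chkTm ks 8 3840 3840 2560 T47 ⟨224, 448, 224, 448, 1216, 1280⟩ = true := gluem_x hT45 hT46
/-- subtree -/
def T48 : Tm := .st 1216 T44 T47
theorem hT48 : chkTm ks 8 3840 3840 2560 T48 ⟨224, 448, 224, 448, 1152, 1280⟩ = true := gluem_t hT44 hT47
/-- subtree -/
def T49 : Tm := .sy 224 T43 T48
theorem hT49 : chkTm ks 8 3840 3840 2560 T49 ⟨224, 448, 0, 448, 1152, 1280⟩ = true := gluem_y hT43 hT48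
/-- subtree -/
def T50 : Tm := .sx 224 T38 T49
theorem hT50 : chkTm ks 8 3840 3840 2560 T50 ⟨0, 448, 0, 448, 1152, 1280⟩ = true := gluem_x hT38 hT49
/-- subtree -/
def T51 : Tm := .st 1152 T3 T50
theorem hT51 : chkTm ks 8 3840 3840 2560 T51 ⟨0, 448, 0, 448, 1024, 1280⟩ = true := gluem_t hT3 hT50
/-- subtree -/
def T52 : Tm := .st 1024 T0 T51
theorem hT52 : chkTm ks 8 3840 3840 2560 T52 ⟨0, 448, 0, 448, 768, 1280⟩ = true := gluem_t hT0 hT51

theorem cover (x y t : ℝ) (hyx : y ≤ x) (hx0 : 0 ≤ x) (hx1 : x ≤ (7 / 60))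
    (hy0 : 0 ≤ y) (hy1 : y ≤ (7 / 60))
    (ht0 : (3 / 10) ≤ t) (ht1 : t ≤ (1 / 2)) :
    ∃ k < 8, 0 ≤ val (ks k).2 x y t := by
  refine chkTm_sound ks 8 3840 3840 2560 (by norm_num) (by norm_num) hks T52 ⟨0, 448, 0, 448, 768, 1280⟩ hT52 x y t hyx
    ?_ ?_ ?_ ?_ ?_ ?_ <;> push_cast <;> linarith

theorem good (x y t : ℝ) (hx : x ≤ 1) (hy : y ≤ 1) (h : ∃ k < 8, 0 ≤ val (ks k).2 x y t) :
    PG.Good7 (K3 x y t) x y t := by
  obtain ⟨k, hk, h⟩ := h
  have hr : 0 ≤ (1 - x) ^ 3 * (1 - y) ^ 3 :=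
    mul_nonneg (pow_nonneg (by linarith) 3) (pow_nonneg (by linarith) 3)
  interval_cases k
  · have h1 : 0 ≤ val g0n0 x y t := h
    rw [v_g0n0] at h1
    have h2 : 0 ≤ f_g0n0 x y t := nonneg_of_mul_nonneg_right h1 (by norm_num)
    refine (Or.inl ∘ Or.inl) ?_
    unfold f_g0n0 at h2
    rw [KTx] at h2
    unfold K3
    exact mul_nonpos_of_nonneg_of_nonpos hr (by linarith)
  · have h1 : 0 ≤ val g1n1 x y t := h
    rw [v_g1n1] at h1
    have h2 : 0 ≤ f_g1n1 x y t := nonneg_of_mul_nonneg_right h1 (by norm_num)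
    refine (Or.inl ∘ Or.inr ∘ Or.inl) ?_
    unfold f_g1n1 f_eQn1 at h2
    simp only [K3x, D2x, DDx] at h2
    unfold PG.L0
    linarith
  · have h1 : 0 ≤ val g2n1 x y t := h
    rw [v_g2n1] at h1
    have h2 : 0 ≤ f_g2n1 x y t := nonneg_of_mul_nonneg_right h1 (by norm_num)
    refine (Or.inl ∘ Or.inr ∘ Or.inr ∘ Or.inl) ?_
    unfold f_g2n1 f_eQn1 at h2
    simp only [K3x, D2x, DDx] at h2
    unfold PG.LL
    linarith
  · have h1 : 0 ≤ val g3n1 x y t := h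
    rw [v_g3n1] at h1
    have h2 : 0 ≤ f_g3n1 x y t := nonneg_of_mul_nonneg_right h1 (by norm_num)
    refine (Or.inl ∘ Or.inr ∘ Or.inr ∘ Or.inr ∘ Or.inl) ?_
    unfold f_g3n1 f_eQn1 at h2
    simp only [K3x, D2x, DDx] at h2
    unfold PG.LL
    linarith
  · have h1 : 0 ≤ val g4n1 x y t := h
    rw [v_g4n1] at h1
    have h2 : 0 ≤ f_g4n1 x y t := nonneg_of_mul_nonneg_right h1 (by norm_num)
    refine (Or.inl ∘ Or.inr ∘ Or.inr ∘ Or.inr ∘ Or.inr ∘ Or.inl) ?_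
    unfold f_g4n1 f_eQn1 at h2
    simp only [K3x, D2x, DDx] at h2
    unfold PG.LL
    linarith
  · have h1 : 0 ≤ val g5n1 x y t := h
    rw [v_g5n1] at h1
    have h2 : 0 ≤ f_g5n1 x y t := nonneg_of_mul_nonneg_right h1 (by norm_num)
    refine (Or.inl ∘ Or.inr ∘ Or.inr ∘ Or.inr ∘ Or.inr ∘ Or.inr) ?_
    unfold f_g5n1 f_eQn1 at h2
    simp only [K3x, D2x, DDx] at h2
    unfold PG.LL
    linarith
  · have h1 : 0 ≤ val g6n1 x y t := h
    rw [v_g6n1] at h1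
    have h2 : 0 ≤ f_g6n1 x y t := nonneg_of_mul_nonneg_right h1 (by norm_num)
    refine (Or.inr ∘ Or.inl) ?_
    unfold f_g6n1 f_eQn1 at h2
    simp only [K3x, D2x, DDx] at h2
    unfold PG.LL
    linarith
  · have h1 : 0 ≤ val g7n1 x y t := h
    rw [v_g7n1] at h1
    have h2 : 0 ≤ f_g7n1 x y t := nonneg_of_mul_nonneg_right h1 (by norm_num)
    refine (Or.inr ∘ Or.inr) ?_
    unfold f_g7n1 f_eQn1 at h2
    simp only [K3x, D2x, DDx] at h2
    unfold PG.LL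
    linarith

/-- All points of the region (both orders of `x, y`). -/
theorem region (x y t : ℝ) (hx0 : 0 ≤ x) (hx1 : x ≤ (7 / 60))
    (hy0 : 0 ≤ y) (hy1 : y ≤ (7 / 60))
    (ht0 : (3 / 10) ≤ t) (ht1 : t ≤ (1 / 2)) :
    PG.Good7 (K3 x y t) x y t := by
  rcases le_total y x with h | h
  · exact good x y t (by linarith) (by linarith)
      (cover x y t h (by linarith) (by linarith) (by linarith) (by linarith) ht0 ht1)
  · have h1 := good y x t (by linarith) (by linarith)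
      (cover y x t h (by linarith) (by linarith) (by linarith) (by linarith) ht0 ht1)
    rw [K3_symm y x] at h1
    have h2 := PG.Good7_symm h1
    exact h2

end Pool.Agent.Lib.MP_f1379f_gt.FV.CZ.n1r
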