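import Pool.Agent.Lib.MP_f1379f_gt.FV.SpecS2

/-!
# GEO: the real inequalities of the link of a near point

`gT - 1/2 <= u0 - w (1 - (2/3)(wb + wc))` (`maj`), by a quadratic lower bound `EE` of the scaled lengths, then
convexity of `-F7 (1/2 + u)` (vertices of the domain).
-/

set_option autoImplicit false

namespace Pool.Agent.Lib.MP_f1379f_gt.FV

namespace GEOM

/-- Lower bound of the scaled length. -/
noncomputable def EE (t x : ℝ) : ℝ :=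
  1 + 2 / 3 * (t - x) - 23 / 25 * t ^ 2 + 4 / 9 * (t * x) - 23 / 100 * x ^ 2

lemma EE_sq {t x : ℝ} (ht : t ≤ 1 / 20) (hx : 0 ≤ x) (hx1 : x ≤ 7 / 150)
    (htx : x ≤ 7 / 150 + 5 * t) : 3 / 4 * EE t x ^ 2 ≤ 3 / 4 + t - t ^ 2 - x := by
  obtain ⟨z, hz⟩ : ∃ z, z = 23 / 25 * t ^ 2 - 4 / 9 * (t * x) + 23 / 100 * x ^ 2 := ⟨_, rfl⟩
  have hE : EE t x = 1 + 2 / 3 * (t - x) - z := by rw [EE, hz]; ring
  have hz0 : 0 ≤ z := by
    rw [hz]
    nlinarith [sq_nonneg (t - x), sq_nonneg (t + x), sq_nonneg t, sq_nonneg x,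
      sq_nonneg (t - x / 4)]
  have e : 3 / 4 + t - t ^ 2 - x - 3 / 4 * EE t x ^ 2
      = 3 / 4 * (14 / 225 * t ^ 2 + 7 / 450 * x ^ 2 + z * (4 / 3 * (t - x) - z)) := by
    rw [hE]
    have : z = 23 / 25 * t ^ 2 - 4 / 9 * (t * x) + 23 / 100 * x ^ 2 := hz
    linear_combination (3 / 2 : ℝ) * this
  have goal : 0 ≤ 14 / 225 * t ^ 2 + 7 / 450 * x ^ 2 + z * (4 / 3 * (t - x) - z) := by
    rcases le_total 0 t with h0 | h0
    · have tx : 0 ≤ t * x := mul_nonneg h0 hx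
      have tt : t ^ 2 ≤ 1 / 20 * t := by nlinarith
      have xx : x ^ 2 ≤ 7 / 150 * x := by nlinarith
      have hz1 : z ≤ 46 / 1000 * t + 11 / 1000 * x := by rw [hz]; nlinarith
      have h1 : -(13444 / 10000 * x) ≤ 4 / 3 * (t - x) - z := by linarith
      have h2 : z * (-(13444 / 10000 * (7 / 150))) ≤ z * (4 / 3 * (t - x) - z) := by
        refine mul_le_mul_of_nonneg_left ?_ hz0
        linarith
      have h3 : z ≤ 23 / 25 * t ^ 2 + 23 / 100 * x ^ 2 := by rw [hz]; linarith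
      nlinarith [sq_nonneg t, sq_nonneg x]
    · obtain ⟨n, hn⟩ : ∃ n, n = -t := ⟨_, rfl⟩
      have ht' : t = -n := by rw [hn]; ring
      have hn0 : 0 ≤ n := by linarith
      have hnx : 5 * n + x ≤ 7 / 150 := by linarith
      have hz' : z = 23 / 25 * n ^ 2 + 4 / 9 * (n * x) + 23 / 100 * x ^ 2 := by
        rw [hz, ht']; ring
      have nx : 0 ≤ n * x := mul_nonneg hn0 hx
      have nn : n ^ 2 ≤ 1 / 100 * n := by nlinarith
      have xx : x ^ 2 ≤ 7 / 150 * x := by nlinarith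
      have nx2 : n * x ≤ 1 / 100 * x := by nlinarith
      have hz1 : z ≤ 1 / 100 * n + 155 / 10000 * x := by rw [hz']; linarith
      have h1 : -(1344 / 1000 * n + 1349 / 1000 * x) ≤ 4 / 3 * (t - x) - z := by
        rw [ht']; linarith
      have h2 : z * (-(1344 / 1000 * n + 1349 / 1000 * x)) ≤ z * (4 / 3 * (t - x) - z) :=
        mul_le_mul_of_nonneg_left h1 hz0
      have h3 : (14 / 225 * n ^ 2 + 7 / 450 * x ^ 2) * (5 * n + x) ≤
          (14 / 225 * n ^ 2 + 7 / 450 * x ^ 2) * (7 / 150) :=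
        mul_le_mul_of_nonneg_left hnx (by positivity)
      have h4 : 7 / 150 * (z * (1344 / 1000 * n + 1349 / 1000 * x)) ≤
          (14 / 225 * n ^ 2 + 7 / 450 * x ^ 2) * (5 * n + x) := by
        rw [hz']
        have c1 : 0 ≤ n * (n - x) ^ 2 := by positivity
        have c2 : 0 ≤ n * x ^ 2 := by positivity
        have c3 : 0 ≤ x ^ 3 := by positivity
        have c4 : 0 ≤ n ^ 3 := by positivity
        nlinarith
      have h5 : 14 / 225 * t ^ 2 = 14 / 225 * n ^ 2 := by rw [ht']; ring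
      rw [h5]
      linarith
  linarith

lemma K1 {wb wc xb xc : ℝ} (hb0 : 0 ≤ wb) (hb1 : wb ≤ 1 / 20) (hc0 : 0 ≤ wc) (hc1 : wc ≤ 1 / 20)
    (hy0 : 0 ≤ xb) (hy1 : xb ≤ 7 / 150) (hz0 : 0 ≤ xc) (hz1 : xc ≤ 7 / 150) :
    0 ≤
      187 / 900 + 3281 / 2700 * (xc) + 3281 / 2700 * (xb) - 54569 / 45000 * (wc) - 54569 /
        45000 * (wb) + 56683 / 135000 * (xc ^ 2) - 1748 / 2025 * (xb * xc) + 56683 / 135000 *
        (xb ^ 2) - 112519 / 135000 * (wc * xc) + 27137 / 33750 * (wc * xb) + 3887 / 3750 * (wc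
        ^ 2) + 27137 / 33750 * (wb * xc) - 112519 / 135000 * (wb * xb) - 1199 / 1500 * (wb *
        wc) + 3887 / 3750 * (wb ^ 2) - 256637 / 810000 * (xb * xc ^ 2) - 256637 / 810000 * (xb
        ^ 2 * xc) + 125039 / 202500 * (wc * xb * xc) + 3765461 / 13500000 * (wc * xb ^ 2) -
        25093 / 22500 * (wc ^ 2 * xb) + 3765461 / 13500000 * (wb * xc ^ 2) + 125039 / 202500 *
        (wb * xb * xc) - 121303 / 225000 * (wb * wc * xc) - 121303 / 225000 * (wb * wc * xb) +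
        138943 / 125000 * (wb * wc ^ 2) - 25093 / 22500 * (wb ^ 2 * xc) + 138943 / 125000 * (wb
        ^ 2 * wc) - 218707 / 1800000 * (xb ^ 2 * xc ^ 2) + 9648601 / 40500000 * (wc * xb ^ 2 *
        xc) - 173627 / 450000 * (wc ^ 2 * xb ^ 2) + 9648601 / 40500000 * (wb * xb * xc ^ 2) -
        2627 / 5625 * (wb * wc * xb * xc) + 94921 / 125000 * (wb * wc ^ 2 * xb) - 173627 /
        450000 * (wb ^ 2 * xc ^ 2) + 94921 / 125000 * (wb ^ 2 * wc * xc) - 14283 / 12500 * (wb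
        ^ 2 * wc ^ 2) := by
  have h1 : 0 ≤ xc := by positivity
  have h2 : 0 ≤ xb := by positivity
  have h3 : wc ≤ (1 / 20) := by gcongr
  have h4 : wb ≤ (1 / 20) := by gcongr
  have h5 : 0 ≤ xc ^ 2 := by positivity
  have h6 : xb * xc ≤ (7 / 150) * (7 / 150) := by gcongr
  have h7 : 0 ≤ xb ^ 2 := by positivity
  have h8 : wc * xc ≤ (1 / 20) * (7 / 150) := by gcongr
  have h9 : 0 ≤ wc * xb := by positivity
  have h10 : 0 ≤ wc ^ 2 := by positivity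
  have h11 : 0 ≤ wb * xc := by positivity
  have h12 : wb * xb ≤ (1 / 20) * (7 / 150) := by gcongr
  have h13 : wb * wc ≤ (1 / 20) * (1 / 20) := by gcongr
  have h14 : 0 ≤ wb ^ 2 := by positivity
  have h15 : xb * xc ^ 2 ≤ (7 / 150) * (7 / 150) ^ 2 := by gcongr
  have h16 : xb ^ 2 * xc ≤ (7 / 150) ^ 2 * (7 / 150) := by gcongr
  have h17 : 0 ≤ wc * xb * xc := by positivity
  have h18 : 0 ≤ wc * xb ^ 2 := by positivity
  have h19 : wc ^ 2 * xb ≤ (1 / 20) ^ 2 * (7 / 150) := by gcongr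
  have h20 : 0 ≤ wb * xc ^ 2 := by positivity
  have h21 : 0 ≤ wb * xb * xc := by positivity
  have h22 : wb * wc * xc ≤ (1 / 20) * (1 / 20) * (7 / 150) := by gcongr
  have h23 : wb * wc * xb ≤ (1 / 20) * (1 / 20) * (7 / 150) := by gcongr
  have h24 : 0 ≤ wb * wc ^ 2 := by positivity
  have h25 : wb ^ 2 * xc ≤ (1 / 20) ^ 2 * (7 / 150) := by gcongr
  have h26 : 0 ≤ wb ^ 2 * wc := by positivity
  have h27 : xb ^ 2 * xc ^ 2 ≤ (7 / 150) ^ 2 * (7 / 150) ^ 2 := by gcongr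
  have h28 : 0 ≤ wc * xb ^ 2 * xc := by positivity
  have h29 : wc ^ 2 * xb ^ 2 ≤ (1 / 20) ^ 2 * (7 / 150) ^ 2 := by gcongr
  have h30 : 0 ≤ wb * xb * xc ^ 2 := by positivity
  have h31 : wb * wc * xb * xc ≤ (1 / 20) * (1 / 20) * (7 / 150) * (7 / 150) := by gcongr
  have h32 : 0 ≤ wb * wc ^ 2 * xb := by positivity
  have h33 : wb ^ 2 * xc ^ 2 ≤ (1 / 20) ^ 2 * (7 / 150) ^ 2 := by gcongr
  have h34 : 0 ≤ wb ^ 2 * wc * xc := by positivity
  have h35 : wb ^ 2 * wc ^ 2 ≤ (1 / 20) ^ 2 * (1 / 20) ^ 2 := by gcongr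
  linarith

lemma K2 {wb xb xc : ℝ} (hb0 : 0 ≤ wb) (hb1 : wb ≤ 1 / 20)
    (hy0 : 0 ≤ xb) (hy1 : xb ≤ 7 / 150) (hz0 : 0 ≤ xc) (hz1 : xc ≤ 7 / 150) :
    0 ≤
      49 / 1800 - 64169 / 180000 * (xc) - 239 / 2700 * (xb) + 61 / 9000 * (wb) - 4991 / 60000 *
        (xc ^ 2) + 3781 / 67500 * (xb * xc) - 30691 / 540000 * (xb ^ 2) - 1 / 45000 * (wb * xc)
        + 1579 / 13500 * (wb * xb) - 299 / 15000 * (wb ^ 2) + 1771 / 90000 * (xb * xc ^ 2) +
        673187 / 18000000 * (xb ^ 2 * xc) - 161 / 300000 * (wb * xc ^ 2) - 188479 / 2700000 *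
        (wb * xb * xc) + 331729 / 1500000 * (wb ^ 2 * xc) + 25921 / 2000000 * (xb ^ 2 * xc ^ 2)
        - 1127 / 45000 * (wb * xb * xc ^ 2) + 25921 / 500000 * (wb ^ 2 * xc ^ 2) := by
  have h1 : xc ≤ (7 / 150) := by gcongr
  have h2 : xb ≤ (7 / 150) := by gcongr
  have h3 : 0 ≤ wb := by positivity
  have h4 : xc ^ 2 ≤ (7 / 150) ^ 2 := by gcongr
  have h5 : 0 ≤ xb * xc := by positivity
  have h6 : xb ^ 2 ≤ (7 / 150) ^ 2 := by gcongr
  have h7 : wb * xc ≤ (1 / 20) * (7 / 150) := by gcongr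
  have h8 : 0 ≤ wb * xb := by positivity
  have h9 : wb ^ 2 ≤ (1 / 20) ^ 2 := by gcongr
  have h10 : 0 ≤ xb * xc ^ 2 := by positivity
  have h11 : 0 ≤ xb ^ 2 * xc := by positivity
  have h12 : wb * xc ^ 2 ≤ (1 / 20) * (7 / 150) ^ 2 := by gcongr
  have h13 : wb * xb * xc ≤ (1 / 20) * (7 / 150) * (7 / 150) := by gcongr
  have h14 : 0 ≤ wb ^ 2 * xc := by positivity
  have h15 : 0 ≤ xb ^ 2 * xc ^ 2 := by positivity
  have h16 : wb * xb * xc ^ 2 ≤ (1 / 20) * (7 / 150) * (7 / 150) ^ 2 := by gcongr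
  have h17 : 0 ≤ wb ^ 2 * xc ^ 2 := by positivity
  linarith


lemma sqle {a b : ℝ} (h0 : 0 ≤ a) (h1 : a ≤ b) : a ^ 2 ≤ b * a := by nlinarith

lemma P0 {wb wc xb xc : ℝ} (hb0 : 0 ≤ wb) (hb1 : wb ≤ 1 / 20) (hc0 : 0 ≤ wc) (hc1 : wc ≤ 1 / 20)
    (hy0 : 0 ≤ xb) (hy1 : xb ≤ 7 / 150) (hz0 : 0 ≤ xc) (hz1 : xc ≤ 7 / 150) :
    1 / 2 - 1 / 2 * (xb * xc) - (1 / 2 - wb) * (1 / 2 - wc) ≤
      (1 / 4 + (67 / 200 * (wb + wc) - 27 / 20 * (wb * wc) + 7 / 40 * (xb + xc)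
        + 49 / 200 * (wb * xc + wc * xb))) * EE wb xb * EE wc xc := by
  have k1 := mul_nonneg (mul_nonneg hb0 hc0) (K1 hb0 hb1 hc0 hc1 hy0 hy1 hz0 hz1)
  have k2 := mul_nonneg (mul_nonneg hb0 hz0) (K2 hb0 hb1 hy0 hy1 hz0 hz1)
  have k2s := mul_nonneg (mul_nonneg hc0 hy0) (K2 hc0 hc1 hz0 hz1 hy0 hy1)
  have k3 : 0 ≤ wb * xb * (1 / 225 + 131 / 180000 * (xb) - 109 / 9000 * (wb)) := by
    refine mul_nonneg (mul_nonneg hb0 hy0) ?_
    linarith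
  have k3s : 0 ≤ wc * xc * (1 / 225 + 131 / 180000 * (xc) - 109 / 9000 * (wc)) := by
    refine mul_nonneg (mul_nonneg hc0 hz0) ?_
    linarith
  have k4 : 0 ≤ xb * xc * (17 / 45 + 2731 / 36000 * (xc) + 2731 / 36000 * (xb) + 161 / 6000 * (xc ^ 2) + 8027 / 120000 * (xb * xc) + 161 / 6000 * (xb ^ 2) + 3703 / 400000 * (xb * xc ^ 2) + 3703 / 400000 * (xb ^ 2 * xc)) := by
    positivity
  have k5 : 0 ≤ wb * (1 / 600 - 1 / 150 * (wb) - 1541 / 5000 * (wb ^ 2)) := by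
    refine mul_nonneg hb0 ?_
    have := sqle hb0 hb1
    linarith
  have k5s : 0 ≤ wc * (1 / 600 - 1 / 150 * (wc) - 1541 / 5000 * (wc ^ 2)) := by
    refine mul_nonneg hc0 ?_
    have := sqle hc0 hc1
    linarith
  have k6 : 0 ≤ xb * (1 / 120 - 209 / 1200 * (xb) - 161 / 4000 * (xb ^ 2)) := by
    refine mul_nonneg hy0 ?_
    have := sqle hy0 hy1
    linarith
  have k6s : 0 ≤ xc * (1 / 120 - 209 / 1200 * (xc) - 161 / 4000 * (xc ^ 2)) := by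
    refine mul_nonneg hz0 ?_
    have := sqle hz0 hz1
    linarith
  unfold EE
  linarith

lemma EE_h {w x h : ℝ} (hw0 : 0 ≤ w) (hx1 : x ≤ 7 / 150)
    (hh : 0 ≤ h) (hh1 : h ≤ 7 / 150) : EE w x - 7 / 50 * h ≤ EE (w - h / 5) x := by
  have a1 : 0 ≤ w * h := mul_nonneg hw0 hh
  have a2 : h * h ≤ 7 / 150 * h := mul_le_mul_of_nonneg_right hh1 hh
  have a3 : h * x ≤ h * (7 / 150) := mul_le_mul_of_nonneg_left hx1 hh
  unfold EE
  nlinarith

lemma EE_bd {w x : ℝ} (hw0 : 0 ≤ w) (hw1 : w ≤ 1 / 20) (hx : 0 ≤ x) (hx1 : x ≤ 7 / 150) :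
    96 / 100 ≤ EE w x ∧ EE w x ≤ 104 / 100 := by
  have a1 : w * x ≤ 1 / 20 * (7 / 150) := mul_le_mul hw1 hx1 hx (by norm_num)
  have a0 : 0 ≤ w * x := mul_nonneg hw0 hx
  have a2 := sqle hw0 hw1
  have a3 := sqle hx hx1
  unfold EE
  constructor <;> nlinarith [sq_nonneg w, sq_nonneg x]

/-- The linear-bilinear majorant at `w = 0`. -/
noncomputable def u0 (wb wc xb xc h : ℝ) : ℝ :=
  67 / 200 * (wb + wc) - 27 / 20 * (wb * wc) + 7 / 40 * (xb + xc)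
        + 49 / 200 * (wb * xc + wc * xb) - 1 / 40 * h

lemma PH {wb wc xb xc h : ℝ} (hb0 : 0 ≤ wb) (hb1 : wb ≤ 1 / 20) (hc0 : 0 ≤ wc)
    (hc1 : wc ≤ 1 / 20) (hy0 : 0 ≤ xb) (hz0 : 0 ≤ xc) (hh : 0 ≤ h)
    (hs : xb + xc + h ≤ 7 / 150) :
    1 / 2 - 1 / 2 * (xb * xc) - (1 / 2 - (wb - h / 5)) * (1 / 2 - (wc - h / 5)) ≤
      (1 / 4 + u0 wb wc xb xc h) * (EE (wb - h / 5) xb * EE (wc - h / 5) xc) := by
  have hy1 : xb ≤ 7 / 150 := by linarith
  have hz1 : xc ≤ 7 / 150 := by linarith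
  have hh1 : h ≤ 7 / 150 := by linarith
  have p0 := P0 hb0 hb1 hc0 hc1 hy0 hy1 hz0 hz1
  obtain ⟨b1, b2⟩ := EE_bd hb0 hb1 hy0 hy1
  obtain ⟨c1, c2⟩ := EE_bd hc0 hc1 hz0 hz1
  have eb := EE_h hb0 hy1 hh hh1
  have ec := EE_h hc0 hz1 hh hh1
  obtain ⟨v, hv⟩ : ∃ v, v = 67 / 200 * (wb + wc) - 27 / 20 * (wb * wc) + 7 / 40 * (xb + xc)
        + 49 / 200 * (wb * xc + wc * xb) := ⟨_, rfl⟩
  have hu : u0 wb wc xb xc h = v - 1 / 40 * h := by rw [u0, hv]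
  have w1 : wb * wc ≤ 1 / 20 * wc := mul_le_mul_of_nonneg_right hb1 hc0
  have w0 : 0 ≤ wb * wc := mul_nonneg hb0 hc0
  have x1 : wb * xc ≤ 1 / 20 * xc := mul_le_mul_of_nonneg_right hb1 hz0
  have x1' : 0 ≤ wb * xc := mul_nonneg hb0 hz0
  have x2 : wc * xb ≤ 1 / 20 * xb := mul_le_mul_of_nonneg_right hc1 hy0
  have x2' : 0 ≤ wc * xb := mul_nonneg hc0 hy0
  have v0 : 0 ≤ v := by rw [hv]; linarith
  have v1 : v ≤ 1 / 20 := by rw [hv]; linarith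
  rw [← hv] at p0
  have B1 : EE wb xb * EE wc xc - 2912 / 10000 * h ≤ EE (wb - h / 5) xb * EE (wc - h / 5) xc := by
    have g1 : (EE wb xb - 7 / 50 * h) * (EE wc xc - 7 / 50 * h) ≤
        EE (wb - h / 5) xb * EE (wc - h / 5) xc := by
      apply mul_le_mul eb ec
      · linarith
      · linarith
    have g2 : h * EE wb xb ≤ h * (104 / 100) := mul_le_mul_of_nonneg_left b2 hh
    have g3 : h * EE wc xc ≤ h * (104 / 100) := mul_le_mul_of_nonneg_left c2 hh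
    nlinarith [mul_nonneg hh hh]
  have B2 : (1 / 4 + (v - 1 / 40 * h)) * (EE wb xb * EE wc xc - 2912 / 10000 * h) ≤
      (1 / 4 + (v - 1 / 40 * h)) * (EE (wb - h / 5) xb * EE (wc - h / 5) xc) :=
    mul_le_mul_of_nonneg_left B1 (by linarith)
  rw [hu]
  have B3 : EE wb xb * EE wc xc ≤ 10816 / 10000 := by
    calc EE wb xb * EE wc xc ≤ (104 / 100) * (104 / 100) := by
          apply mul_le_mul b2 c2 (by linarith) (by norm_num)
      _ = _ := by norm_num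
  have B4 : h * (EE wb xb * EE wc xc) ≤ h * (10816 / 10000) := mul_le_mul_of_nonneg_left B3 hh
  have B5 : v * h ≤ 1 / 20 * h := mul_le_mul_of_nonneg_right v1 hh
  have B6 : 0 ≤ h * h := mul_nonneg hh hh
  have B7 : h * wb ≤ h * (1 / 20) := mul_le_mul_of_nonneg_left hb1 hh
  have B8 : h * wc ≤ h * (1 / 20) := mul_le_mul_of_nonneg_left hc1 hh
  have B9 : (1 / 4 + (v - 1 / 40 * h)) * (EE wb xb * EE wc xc - 2912 / 10000 * h)
     = (1 / 4 + v) * EE wb xb * EE wc xc - 1 / 40 * (h * (EE wb xb * EE wc xc))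
      - 2912 / 10000 * (1 / 4 * h + v * h) + 2912 / 400000 * (h * h) := by ring
  have B10 : (1 / 2 - (wb - h / 5)) * (1 / 2 - (wc - h / 5)) =
    (1 / 2 - wb) * (1 / 2 - wc) + h / 5 - 1 / 5 * (h * wb) - 1 / 5 * (h * wc)
      + 1 / 25 * (h * h) := by ring
  rw [B10]
  linarith

lemma mono1 {β γ κ a α : ℝ} (ha : 0 ≤ a) (haα : a ≤ α) (hγ : 0 ≤ γ) (hκ : 0 < κ - α ^ 2)
    (h1 : α * γ ≤ β) (h2 : α * β ≤ κ * γ) :
    (β - α * γ) / Real.sqrt (κ - α ^ 2) ≤ (β - a * γ) / Real.sqrt (κ - a ^ 2) := by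
  have hα : 0 ≤ α := ha.trans haα
  have hsq : a ^ 2 ≤ α ^ 2 := by gcongr
  have p1 : 0 < Real.sqrt (κ - α ^ 2) := Real.sqrt_pos.2 hκ
  have p2 : 0 < Real.sqrt (κ - a ^ 2) := Real.sqrt_pos.2 (by linarith)
  have h3 : a * γ ≤ α * γ := mul_le_mul_of_nonneg_right haα hγ
  have hβ : 0 ≤ β := (mul_nonneg hα hγ).trans h1
  have h4 : a * β ≤ α * β := mul_le_mul_of_nonneg_right haα hβ
  rw [div_le_div_iff₀ p1 p2]
  refine (pow_le_pow_iff_left₀ (mul_nonneg (by linarith) p2.le)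
    (mul_nonneg (by linarith) p1.le) two_ne_zero).1 ?_
  rw [mul_pow, mul_pow, Real.sq_sqrt (by linarith), Real.sq_sqrt hκ.le]
  have e : (β - a * γ) ^ 2 * (κ - α ^ 2) - (β - α * γ) ^ 2 * (κ - a ^ 2)
      = (α - a) * ((κ * γ - α * β) * (β - a * γ) + (κ * γ - a * β) * (β - α * γ)) := by ring
  have f : 0 ≤ (α - a) * ((κ * γ - α * β) * (β - a * γ) + (κ * γ - a * β) * (β - α * γ)) := by
    apply mul_nonneg (by linarith)
    apply add_nonneg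
    · exact mul_nonneg (by linarith) (by linarith)
    · exact mul_nonneg (by linarith) (by linarith)
  linarith

/-- The angle coordinate. -/
noncomputable def al (w h y : ℝ) : ℝ := gi w h y / Real.sqrt (1 - h)

lemma al_bd {w y h : ℝ} (hw0 : 0 ≤ w) (hw1 : w ≤ 1 / 20) (hy0 : 0 ≤ y) (hh : 0 ≤ h)
    (hs : y + h ≤ 7 / 150) :
    1 / 2 - w + h / 5 ≤ al w h y ∧ al w h y ^ 2 ≤ 1 / 4 + 21 / 80 * h ∧
      gA w y h = 1 - y - al w h y ^ 2 := by
  have h1 : 0 < 1 - h := by linarith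
  have hs0 : 0 < Real.sqrt (1 - h) := Real.sqrt_pos.2 h1
  have hhy : 0 ≤ h * y := mul_nonneg hh hy0
  have hhy1 : h * y ≤ h * (7 / 150) := mul_le_mul_of_nonneg_left (by linarith) hh
  have hsq : al w h y ^ 2 = gi w h y ^ 2 / (1 - h) := by
    rw [al, div_pow, Real.sq_sqrt h1.le]
  refine ⟨?_, ?_, ?_⟩
  · rw [al, le_div_iff₀ hs0]
    have hs1 : Real.sqrt (1 - h) ≤ 1 - h / 2 := by
      rw [Real.sqrt_le_left (by linarith)]
      nlinarith [sq_nonneg h]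
    have h2 : (1 / 2 - w + h / 5) * Real.sqrt (1 - h) ≤ (1 / 2 - w + h / 5) * (1 - h / 2) :=
      mul_le_mul_of_nonneg_left hs1 (by linarith)
    refine h2.trans ?_
    unfold gi
    have h3 : w * h ≤ 1 / 20 * h := mul_le_mul_of_nonneg_right hw1 hh
    have h4 : 0 ≤ h * h := mul_nonneg hh hh
    nlinarith
  · rw [hsq, div_le_iff₀ h1]
    have hg : gi w h y ≤ 1 / 2 := by unfold gi; linarith
    have hg0 : 0 ≤ gi w h y := by unfold gi; linarith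
    have hg2 : gi w h y ^ 2 ≤ (1 / 2) ^ 2 := by gcongr
    have h5 : h * h ≤ h * (7 / 150) := mul_le_mul_of_nonneg_left (by linarith) hh
    nlinarith
  · rw [gA, hsq]

lemma q52 {a h : ℝ} (h2 : a ^ 2 ≤ 1 / 4 + 21 / 80 * h) (hh : h ≤ 7 / 150) : a ≤ 52 / 100 := by
  nlinarith

lemma q81 {a : ℝ} (h : 9 / 20 ≤ a) : 81 / 400 ≤ a ^ 2 := by nlinarith

lemma qprod {a c B : ℝ} (ha : a ^ 2 ≤ B) (hc : c ^ 2 ≤ B) : a * c ≤ B := by
  nlinarith [sq_nonneg (a - c)]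

lemma qtwo (a c : ℝ) : 2 * (a * c) ≤ a ^ 2 + c ^ 2 := by nlinarith [sq_nonneg (a - c)]

lemma qs {p q A B : ℝ} (e1 : p ^ 2 = A) (e2 : q ^ 2 = B) : p * q ≤ (A + B) / 2 := by
  nlinarith [sq_nonneg (p - q)]

lemma qT (T : ℝ) : 4 / 3 * (1 - 2 / 3 * T) * (3 / 4 + T / 2) ≤ 1 := by nlinarith [sq_nonneg T]

theorem maj {wb wc w xb xc h : ℝ} (D : GD wb wc w xb xc h) :
    (w ≤ 1 / 20 → 11 / 25 ≤ gT wb wc w xb xc h) ∧
    gT wb wc w xb xc h ≤ 1 / 2 + u0 wb wc xb xc h - w * (1 - 2 / 3 * (wb + wc)) := by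
  obtain ⟨hb0, hb1, hc0, hc1, hw0, hy0, hz0, hh, hs⟩ := D
  have hh1 : h ≤ 7 / 150 := by linarith
  have h1 : 0 < 1 - h := by linarith
  obtain ⟨ab1, ab2, ab3⟩ := al_bd hb0 hb1 hy0 hh (by linarith : xb + h ≤ 7 / 150)
  obtain ⟨ac1, ac2, ac3⟩ := al_bd hc0 hc1 hz0 hh (by linarith : xc + h ≤ 7 / 150)
  have hprod : gi wb h xb * gi wc h xc / (1 - h) = al wb h xb * al wc h xc := by
    rw [al, al, div_mul_div_comm, Real.mul_self_sqrt h1.le]
  obtain ⟨α, hα⟩ : ∃ α, α = al wb h xb := ⟨_, rfl⟩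
  obtain ⟨γ, hγ⟩ : ∃ γ, γ = al wc h xc := ⟨_, rfl⟩
  rw [← hα] at ab1 ab2 ab3 hprod
  rw [← hγ] at ac1 ac2 ac3 hprod
  have hβ : gi w xb xc = 1 / 2 - 1 / 2 * (xb * xc) - w := by unfold gi; ring
  have hx0 : 0 ≤ xb * xc := mul_nonneg hy0 hz0
  have hx1 : xb * xc ≤ 7 / 150 * (7 / 150) := mul_le_mul (by linarith) (by linarith) hz0 (by norm_num)
  obtain ⟨β, hβ'⟩ : ∃ β, β = 1 / 2 - 1 / 2 * (xb * xc) := ⟨_, rfl⟩
  have α0 : 9 / 20 ≤ α := by linarith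
  have γ0 : 9 / 20 ≤ γ := by linarith
  have α1 : α ≤ 52 / 100 := q52 ab2 hh1
  have γ1 : γ ≤ 52 / 100 := q52 ac2 hh1
  have αα : 81 / 400 ≤ α ^ 2 := q81 α0
  have γγ : 81 / 400 ≤ γ ^ 2 := q81 γ0
  have β0 : 498 / 1000 ≤ β := by rw [hβ']; linarith
  have β1 : β ≤ 1 / 2 := by rw [hβ']; linarith
  have αγ : α * γ ≤ 1 / 4 + 21 / 80 * h := qprod ab2 ac2
  have DB : 7 / 10 ≤ 1 - xb - α ^ 2 := by linarith
  have DC : 7 / 10 ≤ 1 - xc - γ ^ 2 := by linarith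
  have SB : 0 < Real.sqrt (1 - xb - α ^ 2) := Real.sqrt_pos.2 (by linarith)
  have SC : 0 < Real.sqrt (1 - xc - γ ^ 2) := Real.sqrt_pos.2 (by linarith)
  have hT : gT wb wc w xb xc h = (3 * ((β - α * γ - w) / (Real.sqrt (1 - xb - α ^ 2) *
      Real.sqrt (1 - xc - γ ^ 2))) + 1) / 4 := by
    rw [gT, ab3, ac3, hprod, hβ, hβ']
    ring_nf
  have prod0 : 0 < Real.sqrt (1 - xb - α ^ 2) * Real.sqrt (1 - xc - γ ^ 2) := mul_pos SB SC
  have prod1 : Real.sqrt (1 - xb - α ^ 2) * Real.sqrt (1 - xc - γ ^ 2) ≤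
      ((1 - xb - α ^ 2) + (1 - xc - γ ^ 2)) / 2 :=
    qs (Real.sq_sqrt (by linarith)) (Real.sq_sqrt (by linarith))
  obtain ⟨M, hM⟩ : ∃ M, M = Real.sqrt (1 - xb - α ^ 2) * Real.sqrt (1 - xc - γ ^ 2) := ⟨_, rfl⟩
  rw [← hM] at hT prod0 prod1
  constructor
  · -- lower bound
    intro hw1
    rw [hT]
    have hxx : xb * xc ≤ xb * (7 / 150) := mul_le_mul_of_nonneg_left (by linarith) hy0
    have key : 19 / 75 ≤ (β - α * γ - w) / M := by
      rw [le_div_iff₀ prod0]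
      have q1 : 19 / 75 * M ≤ 19 / 75 * (((1 - xb - α ^ 2) + (1 - xc - γ ^ 2)) / 2) :=
        mul_le_mul_of_nonneg_left prod1 (by norm_num)
      have q2 := qtwo α γ
      refine q1.trans ?_
      rw [hβ']
      linarith
    linarith
  · -- upper bound
    have split : (β - α * γ - w) / M = (β - α * γ) / M - w / M := sub_div _ _ _
    have hw : 4 / 3 * (w * (1 - 2 / 3 * (wb + wc))) ≤ w / M := by
      rw [le_div_iff₀ prod0]
      have t1 : M ≤ 3 / 4 + (wb + wc) / 2 := by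
        have r1 : (1 / 2 - wb) ^ 2 ≤ α ^ 2 := by
          apply pow_le_pow_left₀ (by linarith)
          linarith
        have r2 : (1 / 2 - wc) ^ 2 ≤ γ ^ 2 := by
          apply pow_le_pow_left₀ (by linarith)
          linarith
        have r3 : (1 / 2 - wb) ^ 2 = 1 / 4 - wb + wb ^ 2 := by ring
        have r4 : (1 / 2 - wc) ^ 2 = 1 / 4 - wc + wc ^ 2 := by ring
        rw [r3] at r1
        rw [r4] at r2
        have r5 := sq_nonneg wb
        have r6 := sq_nonneg wc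
        linarith
      have t2 : 4 / 3 * (1 - 2 / 3 * (wb + wc)) * M ≤ 1 := by
        have : 4 / 3 * (1 - 2 / 3 * (wb + wc)) * M ≤
            4 / 3 * (1 - 2 / 3 * (wb + wc)) * (3 / 4 + (wb + wc) / 2) :=
          mul_le_mul_of_nonneg_left t1 (by linarith)
        exact this.trans (qT _)
      have t3 := mul_le_mul_of_nonneg_left t2 hw0
      linarith
    have main : (β - α * γ) / M ≤ 4 / 3 * (1 / 4 + u0 wb wc xb xc h) := by
      obtain ⟨a, ha⟩ : ∃ a, a = 1 / 2 - wb + h / 5 := ⟨_, rfl⟩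
      obtain ⟨c, hc⟩ : ∃ c, c = 1 / 2 - wc + h / 5 := ⟨_, rfl⟩
      rw [← ha] at ab1
      rw [← hc] at ac1
      have a0 : 9 / 20 ≤ a := by rw [ha]; linarith
      have c0 : 9 / 20 ≤ c := by rw [hc]; linarith
      have aa : a ^ 2 ≤ α ^ 2 := pow_le_pow_left₀ (by linarith) ab1 2
      have cc : c ^ 2 ≤ γ ^ 2 := pow_le_pow_left₀ (by linarith) ac1 2
      have m1 : (β - α * γ) / Real.sqrt (1 - xb - α ^ 2) ≤
          (β - a * γ) / Real.sqrt (1 - xb - a ^ 2) :=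
        mono1 (by linarith) ab1 (by linarith) (by linarith) (by linarith)
          ((mul_le_mul α1 β1 (by linarith) (by norm_num)).trans
            ((by norm_num : (52 / 100 : ℝ) * (1 / 2) ≤ 143 / 150 * (9 / 20)).trans
              (mul_le_mul (by linarith) γ0 (by norm_num) (by linarith))))
      have aγ : γ * a ≤ β := by
        have := mul_le_mul_of_nonneg_left ab1 (by linarith : 0 ≤ γ)
        linarith
      have m2 : (β - γ * a) / Real.sqrt (1 - xc - γ ^ 2) ≤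
          (β - c * a) / Real.sqrt (1 - xc - c ^ 2) :=
        mono1 (by linarith) ac1 (by linarith) (by linarith) aγ
          ((mul_le_mul γ1 β1 (by linarith) (by norm_num)).trans
            ((by norm_num : (52 / 100 : ℝ) * (1 / 2) ≤ 143 / 150 * (9 / 20)).trans
              (mul_le_mul (by linarith) a0 (by norm_num) (by linarith))))
      have SB' : 0 < Real.sqrt (1 - xb - a ^ 2) := Real.sqrt_pos.2 (by linarith)
      have SC' : 0 < Real.sqrt (1 - xc - c ^ 2) := Real.sqrt_pos.2 (by linarith)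
      have n1 : (β - α * γ) / M ≤ (β - c * a) /
          (Real.sqrt (1 - xb - a ^ 2) * Real.sqrt (1 - xc - c ^ 2)) := by
        rw [hM, ← div_div, mul_comm (Real.sqrt (1 - xb - a ^ 2)), ← div_div]
        calc (β - α * γ) / Real.sqrt (1 - xb - α ^ 2) / Real.sqrt (1 - xc - γ ^ 2)
            ≤ (β - a * γ) / Real.sqrt (1 - xb - a ^ 2) / Real.sqrt (1 - xc - γ ^ 2) :=
              div_le_div_of_nonneg_right m1 SC.le
          _ = (β - γ * a) / Real.sqrt (1 - xc - γ ^ 2) / Real.sqrt (1 - xb - a ^ 2) := by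
              rw [div_right_comm, mul_comm a γ]
          _ ≤ _ := div_le_div_of_nonneg_right m2 SB'.le
      refine n1.trans ?_
      rw [div_le_iff₀ (mul_pos SB' SC')]
      have E1 : 3 / 4 * EE (wb - h / 5) xb ^ 2 ≤ 1 - xb - a ^ 2 := by
        have := EE_sq (t := wb - h / 5) (x := xb) (by linarith) hy0 (by linarith) (by linarith)
        have e : (1 / 2 - wb + h / 5) ^ 2 = 1 / 4 - (wb - h / 5) + (wb - h / 5) ^ 2 := by ring
        rw [ha, e]; linarith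
      have E2 : 3 / 4 * EE (wc - h / 5) xc ^ 2 ≤ 1 - xc - c ^ 2 := by
        have := EE_sq (t := wc - h / 5) (x := xc) (by linarith) hz0 (by linarith) (by linarith)
        have e : (1 / 2 - wc + h / 5) ^ 2 = 1 / 4 - (wc - h / 5) + (wc - h / 5) ^ 2 := by ring
        rw [hc, e]; linarith
      obtain ⟨b1, b2⟩ := EE_bd hb0 hb1 hy0 (by linarith : xb ≤ 7 / 150)
      obtain ⟨c1, c2⟩ := EE_bd hc0 hc1 hz0 (by linarith : xc ≤ 7 / 150)
      have eb := EE_h hb0 (by linarith : xb ≤ 7 / 150) hh hh1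
      have ec := EE_h hc0 (by linarith : xc ≤ 7 / 150) hh hh1
      have E3 : 3 / 4 * (EE (wb - h / 5) xb * EE (wc - h / 5) xc) ≤
          Real.sqrt (1 - xb - a ^ 2) * Real.sqrt (1 - xc - c ^ 2) := by
        rw [← Real.sqrt_mul (by linarith)]
        apply Real.le_sqrt_of_sq_le
        calc (3 / 4 * (EE (wb - h / 5) xb * EE (wc - h / 5) xc)) ^ 2
            = (3 / 4 * EE (wb - h / 5) xb ^ 2) * (3 / 4 * EE (wc - h / 5) xc ^ 2) := by ring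
          _ ≤ _ := mul_le_mul E1 E2 (by positivity) (by linarith)
      have pH := PH hb0 hb1 hc0 hc1 hy0 hz0 hh hs
      have u00 : 0 ≤ 1 / 4 + u0 wb wc xb xc h := by
        have w1 : wb * wc ≤ 1 / 20 * wc := mul_le_mul_of_nonneg_right hb1 hc0
        have x1' : 0 ≤ wb * xc := mul_nonneg hb0 hz0
        have x2' : 0 ≤ wc * xb := mul_nonneg hc0 hy0
        unfold u0; linarith
      have fin := mul_le_mul_of_nonneg_left E3 (mul_nonneg (by norm_num : (0 : ℝ) ≤ 4 / 3) u00)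
      have : β - c * a = 1 / 2 - 1 / 2 * (xb * xc) -
          (1 / 2 - (wb - h / 5)) * (1 / 2 - (wc - h / 5)) := by rw [hβ', ha, hc]; ring
      rw [this]
      linarith
    rw [hT, split]
    linarith

/-- `-F7 (1/2 + u)`. -/
noncomputable def ff (u : ℝ) : ℝ := u * (1 + u) * (1 / 2 + u) ^ 2

lemma ff_eq (u : ℝ) : -F7 (1 / 2 + u) = ff u := by unfold F7 ff; ring

lemma ff_step {a b s A B : ℝ} (ha : -7 / 100 ≤ a) (hb : -7 / 100 ≤ b)
    (hs0 : 0 ≤ s) (hs1 : s ≤ 1) (hA : ff a ≤ A) (hB : ff b ≤ B) :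
    ff ((1 - s) * a + s * b) ≤ (1 - s) * A + s * B := by
  obtain ⟨m, hm⟩ : ∃ m, m = (1 - s) * a + s * b := ⟨_, rfl⟩
  have hs' : 0 ≤ 1 - s := by linarith
  have hm0 : -7 / 100 ≤ m := by
    have h1 := mul_le_mul_of_nonneg_left ha hs'
    have h2 := mul_le_mul_of_nonneg_left hb hs0
    rw [hm]; linarith
  have hK : 0 ≤ 5 / 4 + 2 * (a + b + m) + ((a + b + m) ^ 2 + a ^ 2 + b ^ 2 + m ^ 2) / 2 := by
    nlinarith [sq_nonneg (a + b + m), sq_nonneg a, sq_nonneg b, sq_nonneg m]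
  have e : (1 - s) * ff a + s * ff b - ff m = s * (1 - s) * (a - b) ^ 2 *
      (5 / 4 + 2 * (a + b + m) + ((a + b + m) ^ 2 + a ^ 2 + b ^ 2 + m ^ 2) / 2) := by
    rw [hm]; unfold ff; ring
  have f : 0 ≤ s * (1 - s) * (a - b) ^ 2 *
      (5 / 4 + 2 * (a + b + m) + ((a + b + m) ^ 2 + a ^ 2 + b ^ 2 + m ^ 2) / 2) :=
    mul_nonneg (mul_nonneg (mul_nonneg hs0 hs') (sq_nonneg _)) hK
  have h1 := mul_le_mul_of_nonneg_left hA hs'
  have h2 := mul_le_mul_of_nonneg_left hB hs0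
  rw [← hm]
  linarith

lemma ff_tang {m v : ℝ} (hm : -7 / 100 ≤ m) (hv : -7 / 100 ≤ v) :
    ff m + (1 / 4 + 5 / 2 * m + 6 * m ^ 2 + 4 * m ^ 3) * (v - m) ≤ ff v := by
  have hK : 0 ≤ 5 / 4 + 2 * (v + 2 * m) + ((v + m) ^ 2 + 2 * m ^ 2) := by
    nlinarith [sq_nonneg (v + m), sq_nonneg m]
  have e : ff v - ff m - (1 / 4 + 5 / 2 * m + 6 * m ^ 2 + 4 * m ^ 3) * (v - m) =
      (v - m) ^ 2 * (5 / 4 + 2 * (v + 2 * m) + ((v + m) ^ 2 + 2 * m ^ 2)) := by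
    unfold ff; ring
  have := mul_nonneg (sq_nonneg (v - m)) hK
  linarith

lemma jens4 {v0 v1 v2 v3 l1 l2 l3 m A0 A1 A2 A3 : ℝ} (h0 : -7 / 100 ≤ v0) (h1 : -7 / 100 ≤ v1)
    (h2 : -7 / 100 ≤ v2) (h3 : -7 / 100 ≤ v3) (hm : -7 / 100 ≤ m)
    (e : m = v0 + l1 * (v1 - v0) + l2 * (v2 - v0) + l3 * (v3 - v0))
    (p1 : 0 ≤ l1) (p2 : 0 ≤ l2) (p3 : 0 ≤ l3) (p0 : l1 + l2 + l3 ≤ 1)
    (a0 : ff v0 ≤ A0) (a1 : ff v1 ≤ A1) (a2 : ff v2 ≤ A2) (a3 : ff v3 ≤ A3) :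
    ff m ≤ A0 + l1 * (A1 - A0) + l2 * (A2 - A0) + l3 * (A3 - A0) := by
  have p0' : 0 ≤ 1 - l1 - l2 - l3 := by linarith
  obtain ⟨D, hD⟩ : ∃ D, D = 1 / 4 + 5 / 2 * m + 6 * m ^ 2 + 4 * m ^ 3 := ⟨_, rfl⟩
  have t0 := mul_le_mul_of_nonneg_left ((ff_tang hm h0).trans a0) p0'
  have t1 := mul_le_mul_of_nonneg_left ((ff_tang hm h1).trans a1) p1
  have t2 := mul_le_mul_of_nonneg_left ((ff_tang hm h2).trans a2) p2
  have t3 := mul_le_mul_of_nonneg_left ((ff_tang hm h3).trans a3) p3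
  rw [← hD] at t0 t1 t2 t3
  have z : D * (v0 + l1 * (v1 - v0) + l2 * (v2 - v0) + l3 * (v3 - v0) - m) = 0 := by
    rw [← e]; ring
  linarith

/-- The majorant. -/
noncomputable def U2 (wb wc w xb xc h : ℝ) : ℝ := u0 wb wc xb xc h - w * (1 - 2 / 3 * (wb + wc))

/-- The linear function. -/
noncomputable def LL (wb wc w xb xc h : ℝ) : ℝ :=
  1017 / 10000 * (wb + wc) - 24 / 125 * w + 229 / 5000 * (xb + xc) - 3 / 1000 * h

lemma U2_lo {wb wc w xb xc h : ℝ} (D : GD wb wc w xb xc h) (hw : w ≤ 1 / 20) :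
    -7 / 100 ≤ U2 wb wc w xb xc h := by
  obtain ⟨hb0, hb1, hc0, hc1, hw0, hy0, hz0, hh, hs⟩ := D
  have w1 : wb * wc ≤ 1 / 20 * wc := mul_le_mul_of_nonneg_right hb1 hc0
  have x1' : 0 ≤ wb * xc := mul_nonneg hb0 hz0
  have x2' : 0 ≤ wc * xb := mul_nonneg hc0 hy0
  have w2 : 0 ≤ w * (wb + wc) := mul_nonneg hw0 (by linarith)
  unfold U2 u0
  linarith

lemma simplx {wb wc w xb xc h : ℝ} (D : GD wb wc w xb xc h) (hw : w ≤ 1 / 20)
    (g0 : ff (U2 wb wc w 0 0 0) ≤ LL wb wc w 0 0 0)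
    (g1 : ff (U2 wb wc w (7 / 150) 0 0) ≤ LL wb wc w (7 / 150) 0 0)
    (g2 : ff (U2 wb wc w 0 (7 / 150) 0) ≤ LL wb wc w 0 (7 / 150) 0)
    (g3 : ff (U2 wb wc w 0 0 (7 / 150)) ≤ LL wb wc w 0 0 (7 / 150)) :
    ff (U2 wb wc w xb xc h) ≤ LL wb wc w xb xc h := by
  have hm := U2_lo D hw
  obtain ⟨hb0, hb1, hc0, hc1, hw0, hy0, hz0, hh, hs⟩ := D
  have r := jens4 (U2_lo ⟨hb0, hb1, hc0, hc1, hw0, le_refl 0, le_refl 0, le_refl 0, by norm_num⟩ hw)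
    (U2_lo ⟨hb0, hb1, hc0, hc1, hw0, by norm_num, le_refl 0, le_refl 0, by norm_num⟩ hw)
    (U2_lo ⟨hb0, hb1, hc0, hc1, hw0, le_refl 0, by norm_num, le_refl 0, by norm_num⟩ hw)
    (U2_lo ⟨hb0, hb1, hc0, hc1, hw0, le_refl 0, le_refl 0, by norm_num, by norm_num⟩ hw)
    hm (l1 := 150 / 7 * xb) (l2 := 150 / 7 * xc) (l3 := 150 / 7 * h)
    (by unfold U2 u0; ring) (by linarith) (by linarith) (by linarith) (by linarith) g0 g1 g2 g3
  refine r.trans (le_of_eq ?_)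
  unfold LL
  ring

lemma vert {xb xc h : ℝ} (hy0 : 0 ≤ xb) (hz0 : 0 ≤ xc) (hh : 0 ≤ h) (hs : xb + xc + h ≤ 7 / 150) :
    ∀ wb wc w : ℝ, (wb = 0 ∨ wb = 1 / 20) → (wc = 0 ∨ wc = 1 / 20) → (w = 0 ∨ w = 1 / 20) →
      ff (U2 wb wc w xb xc h) ≤ LL wb wc w xb xc h := by
  rintro _ _ _ (rfl | rfl) (rfl | rfl) (rfl | rfl) <;>
  refine simplx ⟨by norm_num, by norm_num, by norm_num, by norm_num, by norm_num, hy0, hz0, hh, hs⟩
    (by norm_num) ?_ ?_ ?_ ?_ <;>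
  norm_num [ff, U2, u0, LL]

lemma stepw {w : ℝ} (hw0 : 0 ≤ w) (hw1 : w ≤ 1 / 20) {A B C D E F : ℝ} (hA : -7 / 100 ≤ A)
    (hB : -7 / 100 ≤ A + B / 20) (h0 : ff A ≤ C) (h1 : ff (A + B / 20) ≤ C + D / 20)
    (hE : E = A + B * w) (hF : F = C + D * w) : ff E ≤ F := by
  have := ff_step (s := 20 * w) hA hB (by linarith) (by linarith) h0 h1
  have e1 : (1 - 20 * w) * A + 20 * w * (A + B / 20) = E := by rw [hE]; ring
  have e2 : (1 - 20 * w) * C + 20 * w * (C + D / 20) = F := by rw [hF]; ring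
  rwa [e1, e2] at this

theorem FF {wb wc w xb xc h : ℝ} (D : GD wb wc w xb xc h) (hw : w ≤ 1 / 20) :
    ff (U2 wb wc w xb xc h) ≤ LL wb wc w xb xc h := by
  obtain ⟨hb0, hb1, hc0, hc1, hw0, hy0, hz0, hh, hs⟩ := D
  have V := vert hy0 hz0 hh hs
  have n0 : (0 : ℝ) ≤ 0 := le_refl 0
  have n1 : (0 : ℝ) ≤ 1 / 20 := by norm_num
  have n2 : (1 : ℝ) / 20 ≤ 1 / 20 := le_refl _
  -- general w
  have W : ∀ wb wc : ℝ, (wb = 0 ∨ wb = 1 / 20) → (wc = 0 ∨ wc = 1 / 20) →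
      ff (U2 wb wc w xb xc h) ≤ LL wb wc w xb xc h := by
    intro b c hb hc
    have b0 : 0 ≤ b := by rcases hb with rfl | rfl <;> norm_num
    have b1 : b ≤ 1 / 20 := by rcases hb with rfl | rfl <;> norm_num
    have c0 : 0 ≤ c := by rcases hc with rfl | rfl <;> norm_num
    have c1 : c ≤ 1 / 20 := by rcases hc with rfl | rfl <;> norm_num
    have m0 := U2_lo (w := 0) ⟨b0, b1, c0, c1, n0, hy0, hz0, hh, hs⟩ n1
    have m1 := U2_lo (w := 1 / 20) ⟨b0, b1, c0, c1, n1, hy0, hz0, hh, hs⟩ n2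
    have v0 := V b c 0 hb hc (Or.inl rfl)
    have v1 := V b c (1 / 20) hb hc (Or.inr rfl)
    have e0 : U2 b c (1 / 20) xb xc h = U2 b c 0 xb xc h + (-(1 - 2 / 3 * (b + c))) / 20 := by
      unfold U2; ring
    have e1 : LL b c (1 / 20) xb xc h = LL b c 0 xb xc h + (-24 / 125) / 20 := by
      unfold LL; ring
    rw [e0] at m1
    rw [e0, e1] at v1
    exact stepw hw0 hw m0 m1 v0 v1 (by unfold U2; ring) (by unfold LL; ring)
  have W2 : ∀ wb : ℝ, (wb = 0 ∨ wb = 1 / 20) →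
      ff (U2 wb wc w xb xc h) ≤ LL wb wc w xb xc h := by
    intro b hb
    have b0 : 0 ≤ b := by rcases hb with rfl | rfl <;> norm_num
    have b1 : b ≤ 1 / 20 := by rcases hb with rfl | rfl <;> norm_num
    have m0 := U2_lo (wc := 0) ⟨b0, b1, n0, n1, hw0, hy0, hz0, hh, hs⟩ hw
    have m1 := U2_lo (wc := 1 / 20) ⟨b0, b1, n1, n2, hw0, hy0, hz0, hh, hs⟩ hw
    have v0 := W b 0 hb (Or.inl rfl)
    have v1 := W b (1 / 20) hb (Or.inr rfl)
    have e0 : U2 b (1 / 20) w xb xc h = U2 b 0 w xb xc h +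
        (67 / 200 - 27 / 20 * b + 49 / 200 * xb + 2 / 3 * w) / 20 := by
      unfold U2 u0; ring
    have e1 : LL b (1 / 20) w xb xc h = LL b 0 w xb xc h + (1017 / 10000) / 20 := by
      unfold LL; ring
    rw [e0] at m1
    rw [e0, e1] at v1
    exact stepw hc0 hc1 m0 m1 v0 v1 (by unfold U2 u0; ring) (by unfold LL; ring)
  have m0 := U2_lo (wb := 0) ⟨n0, n1, hc0, hc1, hw0, hy0, hz0, hh, hs⟩ hw
  have m1 := U2_lo (wb := 1 / 20) ⟨n1, n2, hc0, hc1, hw0, hy0, hz0, hh, hs⟩ hw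
  have v0 := W2 0 (Or.inl rfl)
  have v1 := W2 (1 / 20) (Or.inr rfl)
  have e0 : U2 (1 / 20) wc w xb xc h = U2 0 wc w xb xc h +
      (67 / 200 - 27 / 20 * wc + 49 / 200 * xc + 2 / 3 * w) / 20 := by
    unfold U2 u0; ring
  have e1 : LL (1 / 20) wc w xb xc h = LL 0 wc w xb xc h + (1017 / 10000) / 20 := by
    unfold LL; ring
  rw [e0] at m1
  rw [e0, e1] at v1
  exact stepw hb0 hb1 m0 m1 v0 v1 (by unfold U2 u0; ring) (by unfold LL; ring)

end GEOM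

open GEOM in
theorem specGEO : SpecGEO where
  A := by
    intro wb wc w xb xc h D
    obtain ⟨hb0, hb1, hc0, hc1, hw0, hy0, hz0, hh, hs⟩ := D
    obtain ⟨a1, a2, a3⟩ := al_bd hb0 hb1 hy0 hh (by linarith : xb + h ≤ 7 / 150)
    have a4 : (9 / 20 : ℝ) ^ 2 ≤ al wb h xb ^ 2 := by
      apply pow_le_pow_left₀ (by norm_num)
      linarith
    rw [a3]
    constructor <;> linarith
  lo := by
    intro wb wc w xb xc h D hw
    exact (maj D).1 hw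
  hi := by
    intro wb wc w xb xc h D
    have m := (maj D).2
    obtain ⟨hb0, hb1, hc0, hc1, hw0, hy0, hz0, hh, hs⟩ := D
    have w1 : (1 / 20 - wb) * (1 / 20 - wc) ≤ (1 / 20 - wb) * (1 / 20) :=
      mul_le_mul_of_nonneg_left (by linarith) (by linarith)
    have w2 : 0 ≤ (1 / 20 - wb) * (1 / 20 - wc) := mul_nonneg (by linarith) (by linarith)
    have x1 : wb * xc ≤ 1 / 20 * xc := mul_le_mul_of_nonneg_right hb1 hz0
    have x2 : wc * xb ≤ 1 / 20 * xb := mul_le_mul_of_nonneg_right hc1 hy0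
    have w3 : 0 ≤ w * (1 - 2 / 3 * (wb + wc)) := mul_nonneg hw0 (by linarith)
    unfold u0 at m
    linarith
  nc := by
    intro wb wc w xb xc h D hw
    have m := (maj D).2
    obtain ⟨hb0, hb1, hc0, hc1, hw0, hy0, hz0, hh, hs⟩ := D
    have w2 : 0 ≤ wb * wc := mul_nonneg hb0 hc0
    have x1 : wb * xc ≤ 1 / 20 * xc := mul_le_mul_of_nonneg_right hb1 hz0
    have x2 : wc * xb ≤ 1 / 20 * xb := mul_le_mul_of_nonneg_right hc1 hy0
    have w3 : 1 / 20 * (1 - 2 / 3 * (wb + wc)) ≤ w * (1 - 2 / 3 * (wb + wc)) :=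
      mul_le_mul_of_nonneg_right hw (by linarith)
    have w4 : 0 ≤ (1 / 20 - wb) * (1 / 20 - wc) := mul_nonneg (by linarith) (by linarith)
    unfold u0 at m
    linarith
  ex := by
    intro wb wc w xb xc h D
    have m := (maj D).2
    obtain ⟨hb0, hb1, hc0, hc1, hw0, hy0, hz0, hh, hs⟩ := D
    have w2 : 0 ≤ wb * wc := mul_nonneg hb0 hc0
    have x1 : wb * xc ≤ wb * (7 / 150) := mul_le_mul_of_nonneg_left (by linarith) hb0
    have x2 : wc * xb ≤ wc * (7 / 150) := mul_le_mul_of_nonneg_left (by linarith) hc0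
    have w3 : 0 ≤ w * (1 - 2 / 3 * (wb + wc)) := mul_nonneg hw0 (by linarith)
    unfold u0 at m
    linarith
  F := by
    intro wb wc w xb xc h D hw
    have m := (maj D).2
    have l := (maj D).1 hw
    have f := FF D hw
    obtain ⟨u, hu⟩ : ∃ u, u = U2 wb wc w xb xc h := ⟨_, rfl⟩
    have hm : gT wb wc w xb xc h ≤ 1 / 2 + u := by rw [hu, U2]; linarith
    rw [← hu, ← ff_eq] at f
    obtain ⟨T, hT⟩ : ∃ T, T = gT wb wc w xb xc h := ⟨_, rfl⟩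
    rw [← hT] at l hm ⊢
    have g1 : T ^ 2 ≤ (1 / 2 + u) ^ 2 := pow_le_pow_left₀ (by linarith) hm 2
    have g2 : (11 / 25 : ℝ) ^ 2 ≤ T ^ 2 := pow_le_pow_left₀ (by norm_num) l 2
    have g3 : -F7 T ≤ -F7 (1 / 2 + u) := by
      unfold F7
      nlinarith
    refine g3.trans (f.trans (le_of_eq ?_))
    unfold LL
    ring

end Pool.Agent.Lib.MP_f1379f_gt.FV
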