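import Pool.Agent.Lib.MP_f1379f_gt.FV.CK2L

/-!
# box check, region g
-/

set_option autoImplicit false
set_option linter.unusedVariables false
set_option linter.unusedSimpArgs false
set_option linter.unusedTactic false
set_option linter.style.longLine false
set_option maxRecDepth 100000

namespace Pool.Agent.Lib.MP_f1379f_gt.FV.CK2.gr

open Finset Pool.Agent.Lib.MP_f1379f_gt.FV Pool.Agent.Lib.MP_f1379f_gt.FV.BCH Pool.Agent.Lib.MP_f1379f_gt.FV.CK2 Pool.Agent.Lib.MP_f1379f_gt.FV.CK2.L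

/-- node -/
def nd445 : Ex := .m nd9 nd16
/-- node -/
def nd446 : Ex := .m nd16 nd445
/-- node -/
def nd447 : Ex := .m nd445 nd445
/-- node -/
def nd448 : Ex := .m nd446 nd447
/-- node -/
def nd449 : Ex := .m nd16 nd16
/-- node -/
def nd450 : Ex := .m nd445 nd449
/-- node -/
def nd451 : Ex := .m nd447 nd450
/-- node -/
def nd452 : Ex := .m nd448 nd451
/-- node -/
def nd453 : Ex := .m nd25 nd452
/-- node -/
def eKPg : Ex := .f 1 eK3 13663650000000000000000000000000000000 nd453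
/-- node -/
def g0g : Ex := .f (-1) eKPg 0 eKPg

/-- real function of eKPg -/
noncomputable def f_eKPg (x y t : ℝ) : ℝ := f_eK3 x y t + ((13 / 2500) * (f_eP x y t * f_eP x y t))

theorem v_eKPg (x y t : ℝ) : val eKPg x y t = 6569062500000000000000000000000000000000000 * (f_eKPg x y t) := by
  simp only [nd3, nd5, nd9, nd14, nd15, nd16, nd25, nd445, nd446, nd447, nd448, nd449, nd450, nd451, nd452, nd453, eKPg, v_eP, v_eK3, val_f, val_h, val_m]
  unfold f_eKPg
  push_cast
  ring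

/-- real function of g0g -/
noncomputable def f_g0g (x y t : ℝ) : ℝ := -f_eKPg x y t

theorem v_g0g (x y t : ℝ) : val g0g x y t = 6569062500000000000000000000000000000000000 * (f_g0g x y t) := by
  simp only [g0g, v_eKPg, val_f]
  unfold f_g0g
  push_cast
  ring

/-- parameters -/
def P0 : Par := ⟨687, 17, 17, 11, 3840, 3840, 256, 896, 896, 512⟩

theorem hP0 : chkPar P0 g0g = true := by decide +kernel

/-- kinds -/
def ks (k : ℕ) : Par × Ex :=
  match k with
  | _ => (P0, g0g)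

lemma hks : ∀ k < 1, chkPar (ks k).1 (ks k).2 = true := by
  intro k hk
  interval_cases k
  · exact hP0

/-- subtree -/
def T0 : Tm := (.st 128 (.st 64 (.st 32 (.st 16 (.st 8 (.sx 224 (.lf 0) (.lf 0)) (.lf 0)) (.lf 0)) (.lf 0)) (.lf 0)) (.st 192 (.lf 0) (.st 224 (.lf 0) (.st 240 (.lf 0) (.st 248 (.lf 0) (.sx 224 (.lf 0) (.lf 0)))))))
theorem hT0 : chkTm ks 1 3840 3840 256 T0 ⟨0, 448, 0, 448, 0, 256⟩ = true := by decide +kernel

theorem cover (x y t : ℝ) (hyx : y ≤ x) (hx0 : 0 ≤ x) (hx1 : x ≤ (7 / 60))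
    (hy0 : 0 ≤ y) (hy1 : y ≤ (7 / 60))
    (ht0 : 0 ≤ t) (ht1 : t ≤ 1) :
    ∃ k < 1, 0 ≤ val (ks k).2 x y t := by
  refine chkTm_sound ks 1 3840 3840 256 (by norm_num) (by norm_num) hks T0 ⟨0, 448, 0, 448, 0, 256⟩ hT0 x y t hyx
    ?_ ?_ ?_ ?_ ?_ ?_ <;> push_cast <;> linarith

theorem good (x y t : ℝ) (hx : x ≤ 1) (hy : y ≤ 1) (h : ∃ k < 1, 0 ≤ val (ks k).2 x y t) :
    PG.Good7 (K3 x y (TL x y t) + ((13 / 2500) * ((TL x y t) - 2 / 25 * x * y) ^ 2)) x y (TL x y t) := by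
  obtain ⟨k, hk, h⟩ := h
  have hr : 0 ≤ (1 - x) ^ 3 * (1 - y) ^ 3 :=
    mul_nonneg (pow_nonneg (by linarith) 3) (pow_nonneg (by linarith) 3)
  interval_cases k
  · have h1 : 0 ≤ val g0g x y t := h
    rw [v_g0g] at h1
    have h2 : 0 ≤ f_g0g x y t := nonneg_of_mul_nonneg_right h1 (by norm_num)
    refine (Or.inl ∘ Or.inl) ?_
    unfold f_g0g f_eKPg f_eP at h2
    simp only [K3x, TLx] at h2
    linarith

/-- All points of the region (both orders of `x, y`). -/
theorem region (x y t : ℝ) (hx0 : 0 ≤ x) (hx1 : x ≤ (7 / 60))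
    (hy0 : 0 ≤ y) (hy1 : y ≤ (7 / 60))
    (ht0 : 0 ≤ t) (ht1 : t ≤ 1) :
    PG.Good7 (K3 x y (TL x y t) + ((13 / 2500) * ((TL x y t) - 2 / 25 * x * y) ^ 2)) x y (TL x y t) := by
  rcases le_total y x with h | h
  · exact good x y t (by linarith) (by linarith)
      (cover x y t h (by linarith) (by linarith) (by linarith) (by linarith) ht0 ht1)
  · have h1 := good y x t (by linarith) (by linarith)
      (cover y x t h (by linarith) (by linarith) (by linarith) (by linarith) ht0 ht1)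
    rw [K3_symm y x, TL_symm y x] at h1
    have h2 := PG.Good7_symm h1
    convert h2 using 2 <;> ring

end Pool.Agent.Lib.MP_f1379f_gt.FV.CK2.gr
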