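import Pool.Agent.Lib.MP_f1379f_gt.FV.CK2L

/-!
# box check, region h
-/

set_option autoImplicit false
set_option linter.unusedVariables false
set_option linter.unusedSimpArgs false
set_option linter.unusedTactic false
set_option linter.style.longLine false
set_option maxRecDepth 100000

namespace Pool.Agent.Lib.MP_f1379f_gt.FV.CK2.hr

open Finset Pool.Agent.Lib.MP_f1379f_gt.FV Pool.Agent.Lib.MP_f1379f_gt.FV.BCH Pool.Agent.Lib.MP_f1379f_gt.FV.CK2 Pool.Agent.Lib.MP_f1379f_gt.FV.CK2.L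

/-- node -/
def g0h : Ex := .f (-1) eS11 0 eS11

/-- real function of g0h -/
noncomputable def f_g0h (x y t : ℝ) : ℝ := -f_eS11 x y t

theorem v_g0h (x y t : ℝ) : val g0h x y t = 6569062500000000000000000000000000000000000 * (f_g0h x y t) := by
  simp only [g0h, v_eS11, val_f]
  unfold f_g0h
  push_cast
  ring

/-- parameters -/
def P0 : Par := ⟨617, 14, 14, 11, 3840, 3840, 256, 7680, 896, 512⟩

theorem hP0 : chkPar P0 g0h = true := by decide +kernel

/-- kinds -/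
def ks (k : ℕ) : Par × Ex :=
  match k with
  | _ => (P0, g0h)

lemma hks : ∀ k < 1, chkPar (ks k).1 (ks k).2 = true := by
  intro k hk
  interval_cases k
  · exact hP0

/-- subtree -/
def T0 : Tm := (.st 128 (.st 64 (.lf 0) (.st 96 (.lf 0) (.lf 0))) (.lf 0))
theorem hT0 : chkTm ks 1 3840 3840 256 T0 ⟨2496, 3840, 0, 448, 0, 256⟩ = true := by decide +kernel

theorem cover (x y t : ℝ) (hyx : y ≤ x) (hx0 : (13 / 20) ≤ x) (hx1 : x ≤ 1)
    (hy0 : 0 ≤ y) (hy1 : y ≤ (7 / 60))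
    (ht0 : 0 ≤ t) (ht1 : t ≤ 1) :
    ∃ k < 1, 0 ≤ val (ks k).2 x y t := by
  refine chkTm_sound ks 1 3840 3840 256 (by norm_num) (by norm_num) hks T0 ⟨2496, 3840, 0, 448, 0, 256⟩ hT0 x y t hyx
    ?_ ?_ ?_ ?_ ?_ ?_ <;> push_cast <;> linarith

theorem good (x y t : ℝ) (hx : x ≤ 1) (hy : y ≤ 1) (h : ∃ k < 1, 0 ≤ val (ks k).2 x y t) :
    PG.Good7 (K3 x y (TL x y t)) x y (TL x y t) := by
  obtain ⟨k, hk, h⟩ := h
  have hr : 0 ≤ (1 - x) ^ 3 * (1 - y) ^ 3 :=
    mul_nonneg (pow_nonneg (by linarith) 3) (pow_nonneg (by linarith) 3)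
  interval_cases k
  · have h1 : 0 ≤ val g0h x y t := h
    rw [v_g0h] at h1
    have h2 : 0 ≤ f_g0h x y t := nonneg_of_mul_nonneg_right h1 (by norm_num)
    refine (Or.inl ∘ Or.inl) ?_
    unfold f_g0h at h2
    rw [KTx] at h2
    unfold K3
    exact mul_nonpos_of_nonneg_of_nonpos hr (by linarith)

/-- All points of the region. -/
theorem region (x y t : ℝ) (hx0 : (13 / 20) ≤ x) (hx1 : x ≤ 1)
    (hy0 : 0 ≤ y) (hy1 : y ≤ (7 / 60))
    (ht0 : 0 ≤ t) (ht1 : t ≤ 1) :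
    PG.Good7 (K3 x y (TL x y t)) x y (TL x y t) :=
  good x y t (by linarith) (by linarith)
    (cover x y t (by linarith) (by linarith) (by linarith) (by linarith) (by linarith) ht0 ht1)

end Pool.Agent.Lib.MP_f1379f_gt.FV.CK2.hr
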