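import Pool.Agent.Lib.MP_f1379f_gt.FV.CK2L

/-!
# box check, region i
-/

set_option autoImplicit false
set_option linter.unusedVariables false
set_option linter.unusedSimpArgs false
set_option linter.unusedTactic false
set_option linter.style.longLine false
set_option maxRecDepth 100000

namespace Pool.Agent.Lib.MP_f1379f_gt.FV.CK2.ir

open Finset Pool.Agent.Lib.MP_f1379f_gt.FV Pool.Agent.Lib.MP_f1379f_gt.FV.BCH Pool.Agent.Lib.MP_f1379f_gt.FV.CK2 Pool.Agent.Lib.MP_f1379f_gt.FV.CK2.L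

/-- node -/
def g0h : Ex := .f (-1) eS11 0 eS11

/-- real function of g0h -/
noncomputable def f_g0h (x y t : ℝ) : ℝ := -f_eS11 x y t

theorem v_g0h (x y t : ℝ) : val g0h x y t = 6569062500000000000000000000000000000000000 * (f_g0h x y t) := by
  simp only [g0h, v_eS11, val_f]
  unfold f_g0h
  push_cast
  ring

/-- parameters -/
def P0 : Par := ⟨626, 14, 14, 11, 3840, 3840, 256, 7680, 7680, 512⟩

theorem hP0 : chkPar P0 g0h = true := by decide +kernel

/-- kinds -/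
def ks (k : ℕ) : Par × Ex :=
  match k with
  | _ => (P0, g0h)

lemma hks : ∀ k < 1, chkPar (ks k).1 (ks k).2 = true := by
  intro k hk
  interval_cases k
  · exact hP0

/-- subtree -/
def T0 : Tm := (.st 64 (.lf 0) (.lf 0))
theorem hT0 : chkTm ks 1 3840 3840 256 T0 ⟨2496, 3840, 2496, 3840, 0, 128⟩ = true := by decide +kernel
/-- subtree -/
def T1 : Tm := (.st 144 (.sx 3168 (.sy 3168 (.lf 0) (.lf 0)) (.lf 0)) (.sx 3168 (.sy 3168 (.st 152 (.sx 2832 (.sy 2832 (.lf 0) (.lf 0)) (.lf 0)) (.sx 2832 (.sy 2832 (.lf 0) (.lf 0)) (.lf 0))) (.lf 0)) (.lf 0)))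
theorem hT1 : chkTm ks 1 3840 3840 256 T1 ⟨2496, 3840, 2496, 3840, 128, 160⟩ = true := by decide +kernel
/-- subtree -/
def T2 : Tm := (.st 176 (.sx 3168 (.sy 3168 (.st 168 (.sx 2832 (.sy 2832 (.lf 0) (.lf 0)) (.lf 0)) (.lf 0)) (.lf 0)) (.lf 0)) (.sx 3168 (.sy 3168 (.lf 0) (.lf 0)) (.lf 0)))
theorem hT2 : chkTm ks 1 3840 3840 256 T2 ⟨2496, 3840, 2496, 3840, 160, 192⟩ = true := by decide +kernel
/-- subtree -/
def T3 : Tm := .st 160 T1 T2
theorem hT3 : chkTm ks 1 3840 3840 256 T3 ⟨2496, 3840, 2496, 3840, 128, 192⟩ = true := gluem_t hT1 hT2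
/-- subtree -/
def T4 : Tm := (.lf 0)
theorem hT4 : chkTm ks 1 3840 3840 256 T4 ⟨2496, 3840, 2496, 3840, 192, 256⟩ = true := by decide +kernel
/-- subtree -/
def T5 : Tm := .st 192 T3 T4
theorem hT5 : chkTm ks 1 3840 3840 256 T5 ⟨2496, 3840, 2496, 3840, 128, 256⟩ = true := gluem_t hT3 hT4
/-- subtree -/
def T6 : Tm := .st 128 T0 T5
theorem hT6 : chkTm ks 1 3840 3840 256 T6 ⟨2496, 3840, 2496, 3840, 0, 256⟩ = true := gluem_t hT0 hT5

theorem cover (x y t : ℝ) (hyx : y ≤ x) (hx0 : (13 / 20) ≤ x) (hx1 : x ≤ 1)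
    (hy0 : (13 / 20) ≤ y) (hy1 : y ≤ 1)
    (ht0 : 0 ≤ t) (ht1 : t ≤ 1) :
    ∃ k < 1, 0 ≤ val (ks k).2 x y t := by
  refine chkTm_sound ks 1 3840 3840 256 (by norm_num) (by norm_num) hks T6 ⟨2496, 3840, 2496, 3840, 0, 256⟩ hT6 x y t hyx
    ?_ ?_ ?_ ?_ ?_ ?_ <;> push_cast <;> linarith

theorem good (x y t : ℝ) (hx : x ≤ 1) (hy : y ≤ 1) (h : ∃ k < 1, 0 ≤ val (ks k).2 x y t) :
    PG.Good7 (K3 x y (TL x y t)) x y (TL x y t) := by
  obtain ⟨k, hk, h⟩ := h
  have hr : 0 ≤ (1 - x) ^ 3 * (1 - y) ^ 3 :=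
    mul_nonneg (pow_nonneg (by linarith) 3) (pow_nonneg (by linarith) 3)
  interval_cases k
  · have h1 : 0 ≤ val g0h x y t := h
    rw [v_g0h] at h1
    have h2 : 0 ≤ f_g0h x y t := nonneg_of_mul_nonneg_right h1 (by norm_num)
    refine (Or.inl ∘ Or.inl) ?_
    unfold f_g0h at h2
    rw [KTx] at h2
    unfold K3
    exact mul_nonpos_of_nonneg_of_nonpos hr (by linarith)

/-- All points of the region (both orders of `x, y`). -/
theorem region (x y t : ℝ) (hx0 : (13 / 20) ≤ x) (hx1 : x ≤ 1)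
    (hy0 : (13 / 20) ≤ y) (hy1 : y ≤ 1)
    (ht0 : 0 ≤ t) (ht1 : t ≤ 1) :
    PG.Good7 (K3 x y (TL x y t)) x y (TL x y t) := by
  rcases le_total y x with h | h
  · exact good x y t (by linarith) (by linarith)
      (cover x y t h (by linarith) (by linarith) (by linarith) (by linarith) ht0 ht1)
  · have h1 := good y x t (by linarith) (by linarith)
      (cover y x t h (by linarith) (by linarith) (by linarith) (by linarith) ht0 ht1)
    rw [K3_symm y x, TL_symm y x] at h1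
    have h2 := PG.Good7_symm h1
    exact h2

end Pool.Agent.Lib.MP_f1379f_gt.FV.CK2.ir
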