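import Pool.Agent.Lib.MP_f1379f_gt.FV.CK2U

/-!
# box check, region n1
-/

set_option autoImplicit false
set_option linter.unusedVariables false
set_option linter.unusedSimpArgs false
set_option linter.unusedTactic false
set_option linter.style.longLine false
set_option maxRecDepth 100000

namespace Pool.Agent.Lib.MP_f1379f_gt.FV.CK2.n1r

open Finset Pool.Agent.Lib.MP_f1379f_gt.FV Pool.Agent.Lib.MP_f1379f_gt.FV.BCH Pool.Agent.Lib.MP_f1379f_gt.FV.CK2 Pool.Agent.Lib.MP_f1379f_gt.FV.CK2.U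

/-- node -/
def nd439 : Ex := .m nd7 nd16
/-- node -/
def nd440 : Ex := .m nd16 nd439
/-- node -/
def nd441 : Ex := .m nd439 nd439
/-- node -/
def nd442 : Ex := .m nd440 nd441
/-- node -/
def nd443 : Ex := .m nd16 nd16
/-- node -/
def nd444 : Ex := .m nd439 nd443
/-- node -/
def nd445 : Ex := .m nd441 nd444
/-- node -/
def nd446 : Ex := .m nd442 nd445
/-- node -/
def nd447 : Ex := .m nd19 nd446
/-- node -/
def eKPn0 : Ex := .f 1 eK3 6831825000000000000000000000000000000 nd447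
/-- node -/
def g0n0 : Ex := .f (-1) eKPn0 0 eKPn0
/-- node -/
def eQn1 : Ex := .m eKPn0 eD2
/-- node -/
def nd451 : Ex := .m eD2 nd16
/-- node -/
def nd452 : Ex := .f 4 eDd (-75) nd451
/-- node -/
def nd453 : Ex := .f 29165000 nd451 8820751 nd452
/-- node -/
def nd454 : Ex := .f 4 eDd (-1875) nd443
/-- node -/
def nd455 : Ex := .m nd454 eD2
/-- node -/
def nd456 : Ex := .m nd453 nd16
/-- node -/
def nd457 : Ex := .f 2500 nd456 (-19391519) nd455
/-- node -/
def nd458 : Ex := .f 1 nd429 (-10) nd7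
/-- node -/
def nd459 : Ex := .m nd458 eD2
/-- node -/
def nd460 : Ex := .m nd459 nd17
/-- node -/
def nd461 : Ex := .f 1 nd457 507235000 nd460
/-- node -/
def nd462 : Ex := .m nd461 nd446
/-- node -/
def g1n1 : Ex := .f 6569062500000000000000000000 nd462 (-1) eQn1
/-- node -/
def nd464 : Ex := .f (-70004811) nd7 21275 nd429
/-- node -/
def nd465 : Ex := .m nd464 eD2
/-- node -/
def nd466 : Ex := .m nd465 nd9
/-- node -/
def nd467 : Ex := .f 125 nd466 501583833 eDd
/-- node -/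
def nd468 : Ex := .m eDd eD2
/-- node -/
def nd469 : Ex := .m nd467 nd16
/-- node -/
def nd470 : Ex := .f 75 nd469 (-32415616) nd468
/-- node -/
def nd471 : Ex := .m nd470 nd446
/-- node -/
def g2n1 : Ex := .f 13138125000000000000000000000 nd471 (-1) eQn1
/-- node -/
def nd497 : Ex := .f (-1145877107) nd7 359429 nd429
/-- node -/
def nd498 : Ex := .m nd497 eD2
/-- node -/
def nd499 : Ex := .m nd498 nd9
/-- node -/
def nd500 : Ex := .f 25 nd499 1635777468 eDd
/-- node -/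
def nd501 : Ex := .m nd500 nd16
/-- node -/
def nd502 : Ex := .f 5 nd501 (-7052887) nd468
/-- node -/
def nd503 : Ex := .m nd502 nd446
/-- node -/
def g6n1 : Ex := .f 65690625000000000000000000000 nd503 (-1) eQn1
/-- node -/
def nd505 : Ex := .f (-4789851530) nd7 1400927 nd429
/-- node -/
def nd506 : Ex := .m nd505 eD2
/-- node -/
def nd507 : Ex := .m nd506 nd9
/-- node -/
def nd508 : Ex := .f 1 nd507 275579362 eDd
/-- node -/
def nd509 : Ex := .m nd508 nd16
/-- node -/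
def nd510 : Ex := .f 125 nd509 (-29450818) nd468
/-- node -/
def nd511 : Ex := .m nd510 nd446
/-- node -/
def g7n1 : Ex := .f 13138125000000000000000000000 nd511 (-1) eQn1

/-- real function of eKPn0 -/
noncomputable def f_eKPn0 (x y t : ℝ) : ℝ := f_eK3 x y t + ((13 / 2500) * (f_eP x y t * f_eP x y t))

theorem v_eKPn0 (x y t : ℝ) : val eKPn0 x y t = 821132812500000000000000000000000000000000 * (f_eKPn0 x y t) := by
  simp only [nd5, nd6, nd7, nd9, nd15, nd16, nd19, nd439, nd440, nd441, nd442, nd443, nd444, nd445, nd446, nd447, eKPn0, v_eP, v_eK3, val_f, val_h, val_m]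
  unfold f_eKPn0
  push_cast
  ring

/-- real function of g0n0 -/
noncomputable def f_g0n0 (x y t : ℝ) : ℝ := -f_eKPn0 x y t

theorem v_g0n0 (x y t : ℝ) : val g0n0 x y t = 821132812500000000000000000000000000000000 * (f_g0n0 x y t) := by
  simp only [g0n0, v_eKPn0, val_f]
  unfold f_g0n0
  push_cast
  ring

/-- real function of eQn1 -/
noncomputable def f_eQn1 (x y t : ℝ) : ℝ := f_eKPn0 x y t * f_eD2 x y t

theorem v_eQn1 (x y t : ℝ) : val eQn1 x y t = 20528320312500000000000000000000000000000000 * (f_eQn1 x y t) := by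
  simp only [eQn1, v_eD2, v_eKPn0, val_m]
  unfold f_eQn1
  push_cast
  ring

/-- real function of g1n1 -/
noncomputable def f_g1n1 (x y t : ℝ) : ℝ := (((((5833 / 10000000) * f_eD2 x y t) + ((8820751 / 500000000) * (f_eDd x y t - ((3 / 4) * f_eD2 x y t)))) - ((19391519 / 50000000000) * ((f_eDd x y t - (3 / 4)) * f_eD2 x y t))) + ((101447 / 5000000000) * ((((1 - ((2 / 5) * x)) + (1 - ((2 / 5) * y))) - 2) * f_eD2 x y t))) - f_eQn1 x y t

theorem v_g1n1 (x y t : ℝ) : val g1n1 x y t = 20528320312500000000000000000000000000000000 * (f_g1n1 x y t) := by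
  simp only [nd0, nd1, nd5, nd6, nd7, nd9, nd12, nd13, nd15, nd16, nd17, nd427, nd428, nd429, nd439, nd440, nd441, nd442, nd443, nd444, nd445, nd446, nd451, nd452, nd453, nd454, nd455, nd456, nd457, nd458, nd459, nd460, nd461, nd462, g1n1, v_eD2, v_eDd, v_eQn1, val_f, val_h, val_m, val_vx, val_vy]
  unfold f_g1n1
  push_cast
  ring

/-- real function of g2n1 -/
noncomputable def f_g2n1 (x y t : ℝ) : ℝ := ((((((-210014433) / 20000000000) + ((2553 / 160000000) * ((1 - ((2 / 5) * x)) + (1 - ((2 / 5) * y))))) * f_eD2 x y t) + ((1504751499 / 100000000000) * f_eDd x y t)) + (((-253247) / 781250000) * (f_eDd x y t * f_eD2 x y t))) - f_eQn1 x y t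

theorem v_g2n1 (x y t : ℝ) : val g2n1 x y t = 20528320312500000000000000000000000000000000 * (f_g2n1 x y t) := by
  simp only [nd0, nd1, nd5, nd6, nd7, nd9, nd12, nd13, nd15, nd16, nd427, nd428, nd429, nd439, nd440, nd441, nd442, nd443, nd444, nd445, nd446, nd464, nd465, nd466, nd467, nd468, nd469, nd470, nd471, g2n1, v_eD2, v_eDd, v_eQn1, val_f, val_h, val_m, val_vx, val_vy]
  unfold f_g2n1
  push_cast
  ring

/-- real function of g6n1 -/
noncomputable def f_g6n1 (x y t : ℝ) : ℝ := ((((((-1145877107) / 100000000000) + ((359429 / 20000000000) * ((1 - ((2 / 5) * x)) + (1 - ((2 / 5) * y))))) * f_eD2 x y t) + ((408944367 / 25000000000) * f_eDd x y t)) + (((-7052887) / 20000000000) * (f_eDd x y t * f_eD2 x y t))) - f_eQn1 x y t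

theorem v_g6n1 (x y t : ℝ) : val g6n1 x y t = 20528320312500000000000000000000000000000000 * (f_g6n1 x y t) := by
  simp only [nd0, nd1, nd5, nd6, nd7, nd9, nd12, nd13, nd15, nd16, nd427, nd428, nd429, nd439, nd440, nd441, nd442, nd443, nd444, nd445, nd446, nd468, nd497, nd498, nd499, nd500, nd501, nd502, nd503, g6n1, v_eD2, v_eDd, v_eQn1, val_f, val_h, val_m, val_vx, val_vy]
  unfold f_g6n1
  push_cast
  ring

/-- real function of g7n1 -/
noncomputable def f_g7n1 (x y t : ℝ) : ℝ := ((((((-478985153) / 50000000000) + ((1400927 / 100000000000) * ((1 - ((2 / 5) * x)) + (1 - ((2 / 5) * y))))) * f_eD2 x y t) + ((137789681 / 10000000000) * f_eDd x y t)) + (((-14725409) / 50000000000) * (f_eDd x y t * f_eD2 x y t))) - f_eQn1 x y t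

theorem v_g7n1 (x y t : ℝ) : val g7n1 x y t = 20528320312500000000000000000000000000000000 * (f_g7n1 x y t) := by
  simp only [nd0, nd1, nd5, nd6, nd7, nd9, nd12, nd13, nd15, nd16, nd427, nd428, nd429, nd439, nd440, nd441, nd442, nd443, nd444, nd445, nd446, nd468, nd505, nd506, nd507, nd508, nd509, nd510, nd511, g7n1, v_eD2, v_eDd, v_eQn1, val_f, val_h, val_m, val_vx, val_vy]
  unfold f_g7n1
  push_cast
  ring

/-- parameters -/
def P0 : Par := ⟨715, 17, 17, 11, 3840, 3840, 2560, 896, 896, 2560⟩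

theorem hP0 : chkPar P0 g0n0 = true := by decide +kernel

/-- parameters -/
def P1 : Par := ⟨759, 18, 18, 12, 3840, 3840, 2560, 896, 896, 2560⟩

theorem hP1 : chkPar P1 g1n1 = true := by decide +kernel

/-- parameters -/
def P2 : Par := ⟨759, 18, 18, 12, 3840, 3840, 2560, 896, 896, 2560⟩

theorem hP2 : chkPar P2 g2n1 = true := by decide +kernel

/-- parameters -/
def P6 : Par := ⟨759, 18, 18, 12, 3840, 3840, 2560, 896, 896, 2560⟩

theorem hP6 : chkPar P6 g6n1 = true := by decide +kernel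

/-- parameters -/
def P7 : Par := ⟨759, 18, 18, 12, 3840, 3840, 2560, 896, 896, 2560⟩

theorem hP7 : chkPar P7 g7n1 = true := by decide +kernel

/-- kinds -/
def ks (k : ℕ) : Par × Ex :=
  match k with
  | 0 => (P0, g0n0)
  | 1 => (P1, g1n1)
  | 2 => (P2, g2n1)
  | 3 => (P6, g6n1)
  | _ => (P7, g7n1)

lemma hks : ∀ k < 5, chkPar (ks k).1 (ks k).2 = true := by
  intro k hk
  interval_cases k
  · exact hP0
  · exact hP1
  · exact hP2
  · exact hP6
  · exact hP7

/-- subtree -/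
def T0 : Tm := (.lf 0)
theorem hT0 : chkTm ks 5 3840 3840 2560 T0 ⟨0, 448, 0, 448, 768, 1024⟩ = true := by decide +kernel
/-- subtree -/
def T1 : Tm := (.lf 0)
theorem hT1 : chkTm ks 5 3840 3840 2560 T1 ⟨0, 448, 0, 448, 1024, 1152⟩ = true := by decide +kernel
/-- subtree -/
def T2 : Tm := (.st 1216 (.lf 1) (.sx 112 (.sy 112 (.st 1248 (.lf 1) (.sx 56 (.sy 56 (.st 1264 (.lf 1) (.sx 28 (.lf 1) (.sy 28 (.lf 1) (.st 1272 (.lf 1) (.sx 42 (.lf 1) (.lf 3)))))) (.lf 3)) (.lf 3))) (.lf 2)) (.lf 2)))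
theorem hT2 : chkTm ks 5 3840 3840 2560 T2 ⟨0, 224, 0, 224, 1152, 1280⟩ = true := by decide +kernel
/-- subtree -/
def T3 : Tm := (.lf 4)
theorem hT3 : chkTm ks 5 3840 3840 2560 T3 ⟨0, 224, 224, 448, 1152, 1280⟩ = true := by decide +kernel
/-- subtree -/
def T4 : Tm := .sy 224 T2 T3
theorem hT4 : chkTm ks 5 3840 3840 2560 T4 ⟨0, 224, 0, 448, 1152, 1280⟩ = true := gluem_y hT2 hT3
/-- subtree -/
def T5 : Tm := (.lf 4)
theorem hT5 : chkTm ks 5 3840 3840 2560 T5 ⟨224, 448, 0, 448, 1152, 1280⟩ = true := by decide +kernel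
/-- subtree -/
def T6 : Tm := .sx 224 T4 T5
theorem hT6 : chkTm ks 5 3840 3840 2560 T6 ⟨0, 448, 0, 448, 1152, 1280⟩ = true := gluem_x hT4 hT5
/-- subtree -/
def T7 : Tm := .st 1152 T1 T6
theorem hT7 : chkTm ks 5 3840 3840 2560 T7 ⟨0, 448, 0, 448, 1024, 1280⟩ = true := gluem_t hT1 hT6
/-- subtree -/
def T8 : Tm := .st 1024 T0 T7
theorem hT8 : chkTm ks 5 3840 3840 2560 T8 ⟨0, 448, 0, 448, 768, 1280⟩ = true := gluem_t hT0 hT7

theorem cover (x y t : ℝ) (hyx : y ≤ x) (hx0 : 0 ≤ x) (hx1 : x ≤ (7 / 60))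
    (hy0 : 0 ≤ y) (hy1 : y ≤ (7 / 60))
    (ht0 : (3 / 10) ≤ t) (ht1 : t ≤ (1 / 2)) :
    ∃ k < 5, 0 ≤ val (ks k).2 x y t := by
  refine chkTm_sound ks 5 3840 3840 2560 (by norm_num) (by norm_num) hks T8 ⟨0, 448, 0, 448, 768, 1280⟩ hT8 x y t hyx
    ?_ ?_ ?_ ?_ ?_ ?_ <;> push_cast <;> linarith

theorem good (x y t : ℝ) (hx : x ≤ 1) (hy : y ≤ 1) (h : ∃ k < 5, 0 ≤ val (ks k).2 x y t) :
    PG.Good7 (K3 x y t + ((13 / 2500) * (t - 2 / 25 * x * y) ^ 2)) x y t := by
  obtain ⟨k, hk, h⟩ := h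
  have hr : 0 ≤ (1 - x) ^ 3 * (1 - y) ^ 3 :=
    mul_nonneg (pow_nonneg (by linarith) 3) (pow_nonneg (by linarith) 3)
  interval_cases k
  · have h1 : 0 ≤ val g0n0 x y t := h
    rw [v_g0n0] at h1
    have h2 : 0 ≤ f_g0n0 x y t := nonneg_of_mul_nonneg_right h1 (by norm_num)
    refine (Or.inl ∘ Or.inl) ?_
    unfold f_g0n0 f_eKPn0 f_eP at h2
    simp only [K3x] at h2
    linarith
  · have h1 : 0 ≤ val g1n1 x y t := h
    rw [v_g1n1] at h1
    have h2 : 0 ≤ f_g1n1 x y t := nonneg_of_mul_nonneg_right h1 (by norm_num)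
    refine (Or.inl ∘ Or.inr ∘ Or.inl) ?_
    unfold f_g1n1 f_eQn1 f_eKPn0 f_eP at h2
    simp only [K3x, D2x, DDx] at h2
    unfold PG.L0
    linarith
  · have h1 : 0 ≤ val g2n1 x y t := h
    rw [v_g2n1] at h1
    have h2 : 0 ≤ f_g2n1 x y t := nonneg_of_mul_nonneg_right h1 (by norm_num)
    refine (Or.inl ∘ Or.inr ∘ Or.inr ∘ Or.inl) ?_
    unfold f_g2n1 f_eQn1 f_eKPn0 f_eP at h2
    simp only [K3x, D2x, DDx] at h2
    unfold PG.LL
    linarith
  · have h1 : 0 ≤ val g6n1 x y t := h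
    rw [v_g6n1] at h1
    have h2 : 0 ≤ f_g6n1 x y t := nonneg_of_mul_nonneg_right h1 (by norm_num)
    refine (Or.inr ∘ Or.inl) ?_
    unfold f_g6n1 f_eQn1 f_eKPn0 f_eP at h2
    simp only [K3x, D2x, DDx] at h2
    unfold PG.LL
    linarith
  · have h1 : 0 ≤ val g7n1 x y t := h
    rw [v_g7n1] at h1
    have h2 : 0 ≤ f_g7n1 x y t := nonneg_of_mul_nonneg_right h1 (by norm_num)
    refine (Or.inr ∘ Or.inr) ?_
    unfold f_g7n1 f_eQn1 f_eKPn0 f_eP at h2
    simp only [K3x, D2x, DDx] at h2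
    unfold PG.LL
    linarith

/-- All points of the region (both orders of `x, y`). -/
theorem region (x y t : ℝ) (hx0 : 0 ≤ x) (hx1 : x ≤ (7 / 60))
    (hy0 : 0 ≤ y) (hy1 : y ≤ (7 / 60))
    (ht0 : (3 / 10) ≤ t) (ht1 : t ≤ (1 / 2)) :
    PG.Good7 (K3 x y t + ((13 / 2500) * (t - 2 / 25 * x * y) ^ 2)) x y t := by
  rcases le_total y x with h | h
  · exact good x y t (by linarith) (by linarith)
      (cover x y t h (by linarith) (by linarith) (by linarith) (by linarith) ht0 ht1)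
  · have h1 := good y x t (by linarith) (by linarith)
      (cover y x t h (by linarith) (by linarith) (by linarith) (by linarith) ht0 ht1)
    rw [K3_symm y x] at h1
    have h2 := PG.Good7_symm h1
    convert h2 using 2 <;> ring

end Pool.Agent.Lib.MP_f1379f_gt.FV.CK2.n1r
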