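import Pool.Agent.Lib.MP_f1379f_gt.FV.CK2L

/-!
# one-body inequality n
-/

set_option autoImplicit false
set_option linter.unusedVariables false
set_option linter.unusedSimpArgs false
set_option linter.unusedTactic false
set_option linter.style.longLine false
set_option maxRecDepth 100000

namespace Pool.Agent.Lib.MP_f1379f_gt.FV.CJ.Vnr

open Finset Pool.Agent.Lib.MP_f1379f_gt.FV Pool.Agent.Lib.MP_f1379f_gt.FV.BCH Pool.Agent.Lib.MP_f1379f_gt.FV.CJ Pool.Agent.Lib.MP_f1379f_gt.FV.CJ.V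

/-- node -/
def nd224 : Ex := .f (-3) nd2 22 nd0
/-- node -/
def nd225 : Ex := .f 1 nd2 (-1) nd0
/-- node -/
def nd226 : Ex := .m nd225 nd225
/-- node -/
def nd227 : Ex := .m nd226 nd225
/-- node -/
def nd228 : Ex := .m nd227 el
/-- node -/
def nd229 : Ex := .m nd227 eV
/-- node -/
def nd230 : Ex := .m nd2 nd187
/-- node -/
def nd231 : Ex := .m nd230 nd230
/-- node -/
def nd232 : Ex := .m nd228 nd231
/-- node -/
def nd233 : Ex := .f 115713 nd232 (-1000) nd229
/-- node -/
def nd234 : Ex := .m nd227 nd227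
/-- node -/
def nd235 : Ex := .m nd234 eS11
/-- node -/
def nd236 : Ex := .m nd187 nd230
/-- node -/
def nd237 : Ex := .m nd236 nd231
/-- node -/
def nd238 : Ex := .m nd233 nd237
/-- node -/
def nd239 : Ex := .f 2270268000000000000000000000 nd238 (-1) nd235
/-- node -/
def nd240 : Ex := .m nd237 nd237
/-- node -/
def nd241 : Ex := .m nd224 nd240
/-- node -/
def gn : Ex := .f 1 nd239 (-45405360000000000000000000000000000) nd241

/-- real function of gn -/
noncomputable def f_gn (x y t : ℝ) : ℝ := (((240 * (((1 - x) ^ 3) * f_el x y t)) - (((1 - x) ^ 3) * f_eV x y t)) - ((1 / 2) * (((1 - x) ^ 6) * f_eS11 x y t))) - (((-3) / 500) + ((11 / 250) * x))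

theorem v_gn (x y t : ℝ) : val gn x y t = 22702680000000000000000000000000000000 * (f_gn x y t) := by
  simp only [nd0, nd2, nd187, nd224, nd225, nd226, nd227, nd228, nd229, nd230, nd231, nd232, nd233, nd234, nd235, nd236, nd237, nd238, nd239, nd240, nd241, gn, v_eS11, v_eV, v_el, val_f, val_h, val_m, val_vx]
  unfold f_gn
  push_cast
  ring

/-- parameters -/
def P0 : Par := ⟨424, 23, 0, 0, 3840, 1, 1, 896, 2, 2⟩

theorem hP0 : chkPar P0 gn = true := by decide +kernel

/-- subdivision -/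
def T0 : Tr := (.sx 224 .lf .lf)

theorem hT0 : chkTr P0 gn T0 ⟨0, 448, 0, 1, 0, 1⟩ = true := by decide +kernel

theorem region (x : ℝ) (hx0 : 0 ≤ x) (hx1 : x ≤ (7 / 60)) :
    (1 - x) ^ 3 * PW.VV x + 1 / 2 * ((1 - x) ^ 6 * 
      Kt 11 4 cA x x (1 - 2 / 5 * x) ((1 - 2 / 5 * x) * (1 - 2 / 5 * x))) + (-((3 / 500)) + (11 / 250) * x) ≤
      240 * ((1 - x) ^ 3 * ∑ i ∈ range 4, cA 0 i 0 * x ^ i) := by
  have h1 := chkTr_sound P0 gn hP0 T0 ⟨0, 448, 0, 1, 0, 1⟩ hT0 x 0 0
    (by simp only [P0]; push_cast; linarith) (by simp only [P0]; push_cast; linarith)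
    (by simp only [P0]; push_cast; norm_num) (by simp only [P0]; push_cast; norm_num)
    (by simp only [P0]; push_cast; norm_num) (by simp only [P0]; push_cast; norm_num)
  rw [v_gn] at h1
  have h2 : 0 ≤ f_gn x 0 0 := nonneg_of_mul_nonneg_right h1 (by norm_num)
  rw [l_eq x 0 0, V_eq x 0 0, ← KT_eq x 0 0]
  unfold f_gn at h2
  linarith

end Pool.Agent.Lib.MP_f1379f_gt.FV.CJ.Vnr
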