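import Pool.Agent.Lib.MP_f1379f_gt.FV.CK2L

/-!
# box check, region n1
-/

set_option autoImplicit false
set_option linter.unusedVariables false
set_option linter.unusedSimpArgs false
set_option linter.unusedTactic false
set_option linter.style.longLine false
set_option maxRecDepth 100000

namespace Pool.Agent.Lib.MP_f1379f_gt.FV.CJ.n1r

open Finset Pool.Agent.Lib.MP_f1379f_gt.FV Pool.Agent.Lib.MP_f1379f_gt.FV.BCH Pool.Agent.Lib.MP_f1379f_gt.FV.CJ Pool.Agent.Lib.MP_f1379f_gt.FV.CJ.U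

/-- node -/
def nd436 : Ex := .m nd7 nd7
/-- node -/
def nd437 : Ex := .m nd7 nd16
/-- node -/
def nd438 : Ex := .m nd436 nd437
/-- node -/
def nd439 : Ex := .m nd437 nd437
/-- node -/
def nd440 : Ex := .m nd438 nd439
/-- node -/
def nd441 : Ex := .m nd7 nd437
/-- node -/
def nd442 : Ex := .m nd437 nd441
/-- node -/
def nd443 : Ex := .m nd438 nd442
/-- node -/
def nd444 : Ex := .m nd440 nd443
/-- node -/
def nd445 : Ex := .m eB nd444
/-- node -/
def eKPn0 : Ex := .f 10469 eK3 48173125000000000000000000000000000000000000 nd445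
/-- node -/
def g0n0 : Ex := .f (-1) eKPn0 0 eKPn0
/-- node -/
def eQn1 : Ex := .m eKPn0 eD2
/-- node -/
def nd452 : Ex := .m nd16 nd16
/-- node -/
def nd461 : Ex := .m nd16 nd437
/-- node -/
def nd462 : Ex := .m nd461 nd439
/-- node -/
def nd463 : Ex := .m nd437 nd452
/-- node -/
def nd464 : Ex := .m nd439 nd463
/-- node -/
def nd465 : Ex := .m nd462 nd464
/-- node -/
def nd472 : Ex := .m eDd eD2
/-- node -/
def nd485 : Ex := .f (-286910395) nd7 65917 nd426
/-- node -/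
def nd486 : Ex := .m nd485 eD2
/-- node -/
def nd487 : Ex := .m nd486 nd9
/-- node -/
def nd488 : Ex := .f 10 nd487 167970983 eDd
/-- node -/
def nd489 : Ex := .m nd488 nd16
/-- node -/
def nd490 : Ex := .f 25 nd489 (-3304422) nd472
/-- node -/
def nd491 : Ex := .m nd490 nd465
/-- node -/
def g4n1 : Ex := .f 18568309134375000000000000000000000 nd491 (-1) eQn1
/-- node -/
def nd493 : Ex := .f (-704953775) nd7 116308 nd426
/-- node -/
def nd494 : Ex := .m nd493 eD2
/-- node -/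
def nd495 : Ex := .m nd494 nd9
/-- node -/
def nd496 : Ex := .f 10 nd495 419564083 eDd
/-- node -/
def nd497 : Ex := .m nd496 nd16
/-- node -/
def nd498 : Ex := .f 25 nd497 (-7374312) nd472
/-- node -/
def nd499 : Ex := .m nd498 nd465
/-- node -/
def g5n1 : Ex := .f 3713661826875000000000000000000000 nd499 (-1) eQn1

/-- real function of eKPn0 -/
noncomputable def f_eKPn0 (x y t : ℝ) : ℝ := f_eK3 x y t + ((704 / 847989) * base (t))

theorem v_eKPn0 (x y t : ℝ) : val eKPn0 x y t = 232103864179687500000000000000000000000000000000 * (f_eKPn0 x y t) := by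
  simp only [nd5, nd6, nd7, nd9, nd15, nd16, nd436, nd437, nd438, nd439, nd440, nd441, nd442, nd443, nd444, nd445, eKPn0, v_eB, v_eK3, val_f, val_h, val_m]
  unfold f_eKPn0
  push_cast
  ring

/-- real function of g0n0 -/
noncomputable def f_g0n0 (x y t : ℝ) : ℝ := -f_eKPn0 x y t

theorem v_g0n0 (x y t : ℝ) : val g0n0 x y t = 232103864179687500000000000000000000000000000000 * (f_g0n0 x y t) := by
  simp only [g0n0, v_eKPn0, val_f]
  unfold f_g0n0
  push_cast
  ring

/-- real function of eQn1 -/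
noncomputable def f_eQn1 (x y t : ℝ) : ℝ := f_eKPn0 x y t * f_eD2 x y t

theorem v_eQn1 (x y t : ℝ) : val eQn1 x y t = 5802596604492187500000000000000000000000000000000 * (f_eQn1 x y t) := by
  simp only [eQn1, v_eD2, v_eKPn0, val_m]
  unfold f_eQn1
  push_cast
  ring

/-- real function of g4n1 -/
noncomputable def f_g4n1 (x y t : ℝ) : ℝ := ((((((-57382079) / 10000000000) + ((65917 / 10000000000) * ((1 - ((2 / 5) * x)) + (1 - ((2 / 5) * y))))) * f_eD2 x y t) + ((167970983 / 20000000000) * f_eDd x y t)) + (((-1652211) / 10000000000) * (f_eDd x y t * f_eD2 x y t))) - f_eQn1 x y t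

theorem v_g4n1 (x y t : ℝ) : val g4n1 x y t = 5802596604492187500000000000000000000000000000000 * (f_g4n1 x y t) := by
  simp only [nd0, nd1, nd5, nd6, nd7, nd9, nd12, nd13, nd15, nd16, nd424, nd425, nd426, nd437, nd439, nd452, nd461, nd462, nd463, nd464, nd465, nd472, nd485, nd486, nd487, nd488, nd489, nd490, nd491, g4n1, v_eD2, v_eDd, v_eQn1, val_f, val_h, val_m, val_vx, val_vy]
  unfold f_g4n1
  push_cast
  ring

/-- real function of g5n1 -/
noncomputable def f_g5n1 (x y t : ℝ) : ℝ := ((((((-28198151) / 10000000000) + ((29077 / 12500000000) * ((1 - ((2 / 5) * x)) + (1 - ((2 / 5) * y))))) * f_eD2 x y t) + ((419564083 / 100000000000) * f_eDd x y t)) + (((-921789) / 12500000000) * (f_eDd x y t * f_eD2 x y t))) - f_eQn1 x y t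

theorem v_g5n1 (x y t : ℝ) : val g5n1 x y t = 5802596604492187500000000000000000000000000000000 * (f_g5n1 x y t) := by
  simp only [nd0, nd1, nd5, nd6, nd7, nd9, nd12, nd13, nd15, nd16, nd424, nd425, nd426, nd437, nd439, nd452, nd461, nd462, nd463, nd464, nd465, nd472, nd493, nd494, nd495, nd496, nd497, nd498, nd499, g5n1, v_eD2, v_eDd, v_eQn1, val_f, val_h, val_m, val_vx, val_vy]
  unfold f_g5n1
  push_cast
  ring

/-- parameters -/
def P0 : Par := ⟨731, 17, 17, 11, 3840, 3840, 2560, 896, 896, 2304⟩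

theorem hP0 : chkPar P0 g0n0 = true := by decide +kernel

/-- parameters -/
def P4 : Par := ⟨775, 18, 18, 12, 3840, 3840, 2560, 896, 896, 2304⟩

theorem hP4 : chkPar P4 g4n1 = true := by decide +kernel

/-- parameters -/
def P5 : Par := ⟨775, 18, 18, 12, 3840, 3840, 2560, 896, 896, 2304⟩

theorem hP5 : chkPar P5 g5n1 = true := by decide +kernel

/-- kinds -/
def ks (k : ℕ) : Par × Ex :=
  match k with
  | 0 => (P0, g0n0)
  | 1 => (P4, g4n1)
  | _ => (P5, g5n1)

lemma hks : ∀ k < 3, chkPar (ks k).1 (ks k).2 = true := by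
  intro k hk
  interval_cases k
  · exact hP0
  · exact hP4
  · exact hP5

/-- subtree -/
def T0 : Tm := (.lf 0)
theorem hT0 : chkTm ks 3 3840 3840 2560 T0 ⟨0, 448, 0, 448, 768, 1024⟩ = true := by decide +kernel
/-- subtree -/
def T1 : Tm := (.sy 224 (.lf 1) (.st 1088 (.lf 0) (.sx 112 .sk (.sy 336 (.lf 1) .sk))))
theorem hT1 : chkTm ks 3 3840 3840 2560 T1 ⟨0, 224, 0, 448, 1024, 1152⟩ = true := by decide +kernel
/-- subtree -/
def T2 : Tm := (.st 1088 (.lf 0) (.sx 336 (.lf 1) (.sy 112 (.lf 1) (.st 1120 (.lf 1) (.sx 392 (.lf 1) (.sy 168 (.lf 1) (.st 1136 (.lf 1) (.sx 420 (.lf 1) (.sy 196 (.st 1144 (.lf 1) (.sx 434 (.lf 1) (.lf 2))) (.lf 2))))))))))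
theorem hT2 : chkTm ks 3 3840 3840 2560 T2 ⟨224, 448, 0, 224, 1024, 1152⟩ = true := by decide +kernel
/-- subtree -/
def T3 : Tm := (.st 1088 (.lf 0) (.sx 336 (.sy 336 (.lf 1) (.lf 2)) (.lf 2)))
theorem hT3 : chkTm ks 3 3840 3840 2560 T3 ⟨224, 448, 224, 448, 1024, 1152⟩ = true := by decide +kernel
/-- subtree -/
def T4 : Tm := .sy 224 T2 T3
theorem hT4 : chkTm ks 3 3840 3840 2560 T4 ⟨224, 448, 0, 448, 1024, 1152⟩ = true := gluem_y hT2 hT3
/-- subtree -/
def T5 : Tm := .sx 224 T1 T4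
theorem hT5 : chkTm ks 3 3840 3840 2560 T5 ⟨0, 448, 0, 448, 1024, 1152⟩ = true := gluem_x hT1 hT4
/-- subtree -/
def T6 : Tm := .st 1024 T0 T5
theorem hT6 : chkTm ks 3 3840 3840 2560 T6 ⟨0, 448, 0, 448, 768, 1152⟩ = true := gluem_t hT0 hT5

theorem cover (x y t : ℝ) (hyx : y ≤ x) (hx0 : 0 ≤ x) (hx1 : x ≤ (7 / 60))
    (hy0 : 0 ≤ y) (hy1 : y ≤ (7 / 60))
    (ht0 : (3 / 10) ≤ t) (ht1 : t ≤ (9 / 20)) :
    ∃ k < 3, 0 ≤ val (ks k).2 x y t := by
  refine chkTm_sound ks 3 3840 3840 2560 (by norm_num) (by norm_num) hks T6 ⟨0, 448, 0, 448, 768, 1152⟩ hT6 x y t hyx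
    ?_ ?_ ?_ ?_ ?_ ?_ <;> push_cast <;> linarith

theorem good (x y t : ℝ) (hx : x ≤ 1) (hy : y ≤ 1) (h : ∃ k < 3, 0 ≤ val (ks k).2 x y t) :
    PG.Good7 (K3 x y t + ((704 / 847989) * base t)) x y t := by
  obtain ⟨k, hk, h⟩ := h
  have hr : 0 ≤ (1 - x) ^ 3 * (1 - y) ^ 3 :=
    mul_nonneg (pow_nonneg (by linarith) 3) (pow_nonneg (by linarith) 3)
  interval_cases k
  · have h1 : 0 ≤ val g0n0 x y t := h
    rw [v_g0n0] at h1
    have h2 : 0 ≤ f_g0n0 x y t := nonneg_of_mul_nonneg_right h1 (by norm_num)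
    refine (Or.inl ∘ Or.inl) ?_
    unfold f_g0n0 f_eKPn0 at h2
    simp only [K3x] at h2
    linarith
  · have h1 : 0 ≤ val g4n1 x y t := h
    rw [v_g4n1] at h1
    have h2 : 0 ≤ f_g4n1 x y t := nonneg_of_mul_nonneg_right h1 (by norm_num)
    refine (Or.inl ∘ Or.inr ∘ Or.inr ∘ Or.inr ∘ Or.inr ∘ Or.inl) ?_
    unfold f_g4n1 f_eQn1 f_eKPn0 at h2
    simp only [K3x, D2x, DDx] at h2
    unfold PG.LL
    linarith
  · have h1 : 0 ≤ val g5n1 x y t := h
    rw [v_g5n1] at h1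
    have h2 : 0 ≤ f_g5n1 x y t := nonneg_of_mul_nonneg_right h1 (by norm_num)
    refine (Or.inl ∘ Or.inr ∘ Or.inr ∘ Or.inr ∘ Or.inr ∘ Or.inr) ?_
    unfold f_g5n1 f_eQn1 f_eKPn0 at h2
    simp only [K3x, D2x, DDx] at h2
    unfold PG.LL
    linarith

/-- All points of the region (both orders of `x, y`). -/
theorem region (x y t : ℝ) (hx0 : 0 ≤ x) (hx1 : x ≤ (7 / 60))
    (hy0 : 0 ≤ y) (hy1 : y ≤ (7 / 60))
    (ht0 : (3 / 10) ≤ t) (ht1 : t ≤ (9 / 20)) :
    PG.Good7 (K3 x y t + ((704 / 847989) * base t)) x y t := by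
  rcases le_total y x with h | h
  · exact good x y t (by linarith) (by linarith)
      (cover x y t h (by linarith) (by linarith) (by linarith) (by linarith) ht0 ht1)
  · have h1 := good y x t (by linarith) (by linarith)
      (cover y x t h (by linarith) (by linarith) (by linarith) (by linarith) ht0 ht1)
    rw [K3_symm y x] at h1
    have h2 := PG.Good7_symm h1
    convert h2 using 2 <;> ring

end Pool.Agent.Lib.MP_f1379f_gt.FV.CJ.n1r
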