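import Pool.Agent.Lib.MP_f1379f_gt.FV.CK2L

/-!
# box check, region n2
-/

set_option autoImplicit false
set_option linter.unusedVariables false
set_option linter.unusedSimpArgs false
set_option linter.unusedTactic false
set_option linter.style.longLine false
set_option maxRecDepth 100000

namespace Pool.Agent.Lib.MP_f1379f_gt.FV.CJ.n2r

open Finset Pool.Agent.Lib.MP_f1379f_gt.FV Pool.Agent.Lib.MP_f1379f_gt.FV.BCH Pool.Agent.Lib.MP_f1379f_gt.FV.CJ Pool.Agent.Lib.MP_f1379f_gt.FV.CJ.U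

/-- node -/
def nd437 : Ex := .m nd7 nd16
/-- node -/
def nd439 : Ex := .m nd437 nd437
/-- node -/
def nd449 : Ex := .m eD2 nd16
/-- node -/
def nd450 : Ex := .f 4 eDd (-75) nd449
/-- node -/
def nd451 : Ex := .f 29165000 nd449 8820751 nd450
/-- node -/
def nd452 : Ex := .m nd16 nd16
/-- node -/
def nd453 : Ex := .f 4 eDd (-1875) nd452
/-- node -/
def nd454 : Ex := .m nd453 eD2
/-- node -/
def nd455 : Ex := .m nd451 nd16
/-- node -/
def nd456 : Ex := .f 2500 nd455 (-19391519) nd454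
/-- node -/
def nd457 : Ex := .f 1 nd426 (-10) nd7
/-- node -/
def nd458 : Ex := .m nd457 eD2
/-- node -/
def nd459 : Ex := .m nd458 nd17
/-- node -/
def nd460 : Ex := .f 1 nd456 507235000 nd459
/-- node -/
def nd461 : Ex := .m nd16 nd437
/-- node -/
def nd462 : Ex := .m nd461 nd439
/-- node -/
def nd463 : Ex := .m nd437 nd452
/-- node -/
def nd464 : Ex := .m nd439 nd463
/-- node -/
def nd465 : Ex := .m nd462 nd464
/-- node -/
def nd466 : Ex := .m nd460 nd465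
/-- node -/
def nd468 : Ex := .f (-70004811) nd7 21275 nd426
/-- node -/
def nd469 : Ex := .m nd468 eD2
/-- node -/
def nd470 : Ex := .m nd469 nd9
/-- node -/
def nd471 : Ex := .f 125 nd470 501583833 eDd
/-- node -/
def nd472 : Ex := .m eDd eD2
/-- node -/
def nd473 : Ex := .m nd471 nd16
/-- node -/
def nd474 : Ex := .f 75 nd473 (-32415616) nd472
/-- node -/
def nd475 : Ex := .m nd474 nd465
/-- node -/
def nd477 : Ex := .f (-4362032315) nd7 1227089 nd426
/-- node -/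
def nd478 : Ex := .m nd477 eD2
/-- node -/
def nd479 : Ex := .m nd478 nd9
/-- node -/
def nd480 : Ex := .f 5 nd479 1259406246 eDd
/-- node -/
def nd481 : Ex := .m nd480 nd16
/-- node -/
def nd482 : Ex := .f 25 nd481 (-26704158) nd472
/-- node -/
def nd483 : Ex := .m nd482 nd465
/-- node -/
def nd485 : Ex := .f (-286910395) nd7 65917 nd426
/-- node -/
def nd486 : Ex := .m nd485 eD2
/-- node -/
def nd487 : Ex := .m nd486 nd9
/-- node -/
def nd488 : Ex := .f 10 nd487 167970983 eDd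
/-- node -/
def nd489 : Ex := .m nd488 nd16
/-- node -/
def nd490 : Ex := .f 25 nd489 (-3304422) nd472
/-- node -/
def nd491 : Ex := .m nd490 nd465
/-- node -/
def nd493 : Ex := .f (-704953775) nd7 116308 nd426
/-- node -/
def nd494 : Ex := .m nd493 eD2
/-- node -/
def nd495 : Ex := .m nd494 nd9
/-- node -/
def nd496 : Ex := .f 10 nd495 419564083 eDd
/-- node -/
def nd497 : Ex := .m nd496 nd16
/-- node -/
def nd498 : Ex := .f 25 nd497 (-7374312) nd472
/-- node -/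
def nd499 : Ex := .m nd498 nd465
/-- node -/
def nd501 : Ex := .f (-1145877107) nd7 359429 nd426
/-- node -/
def nd502 : Ex := .m nd501 eD2
/-- node -/
def nd503 : Ex := .m nd502 nd9
/-- node -/
def nd504 : Ex := .f 25 nd503 1635777468 eDd
/-- node -/
def nd505 : Ex := .m nd504 nd16
/-- node -/
def nd506 : Ex := .f 5 nd505 (-7052887) nd472
/-- node -/
def nd507 : Ex := .m nd506 nd465
/-- node -/
def nd509 : Ex := .f (-4789851530) nd7 1400927 nd426
/-- node -/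
def nd510 : Ex := .m nd509 eD2
/-- node -/
def nd511 : Ex := .m nd510 nd9
/-- node -/
def nd512 : Ex := .f 1 nd511 275579362 eDd
/-- node -/
def nd513 : Ex := .m nd512 nd16
/-- node -/
def nd514 : Ex := .f 125 nd513 (-29450818) nd472
/-- node -/
def nd515 : Ex := .m nd514 nd465
/-- node -/
def nd517 : Ex := .f 1 nd9 (-2) nd2
/-- node -/
def nd518 : Ex := .m nd437 nd461
/-- node -/
def nd519 : Ex := .m nd439 nd518
/-- node -/
def nd520 : Ex := .m nd464 nd519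
/-- node -/
def nd521 : Ex := .m nd517 nd520
/-- node -/
def eKPn2 : Ex := .f 1 eK3 48775289062500000000000000000000000000000 nd521
/-- node -/
def eQn2 : Ex := .m eKPn2 eD2
/-- node -/
def g1n2 : Ex := .f 177364687500000000000000000000 nd466 (-1) eQn2
/-- node -/
def g2n2 : Ex := .f 354729375000000000000000000000 nd475 (-1) eQn2
/-- node -/
def g3n2 : Ex := .f 354729375000000000000000000000 nd483 (-1) eQn2
/-- node -/
def g4n2 : Ex := .f 1773646875000000000000000000000 nd491 (-1) eQn2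
/-- node -/
def g5n2 : Ex := .f 354729375000000000000000000000 nd499 (-1) eQn2
/-- node -/
def g6n2 : Ex := .f 1773646875000000000000000000000 nd507 (-1) eQn2
/-- node -/
def g7n2 : Ex := .f 354729375000000000000000000000 nd515 (-1) eQn2

/-- real function of eKPn2 -/
noncomputable def f_eKPn2 (x y t : ℝ) : ℝ := f_eK3 x y t + ((11 / 2500) * ((1 / 2) - t))

theorem v_eKPn2 (x y t : ℝ) : val eKPn2 x y t = 22170585937500000000000000000000000000000000 * (f_eKPn2 x y t) := by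
  simp only [nd2, nd5, nd6, nd7, nd9, nd15, nd16, nd437, nd439, nd452, nd461, nd463, nd464, nd517, nd518, nd519, nd520, nd521, eKPn2, v_eK3, val_f, val_h, val_m, val_vt]
  unfold f_eKPn2
  push_cast
  ring

/-- real function of eQn2 -/
noncomputable def f_eQn2 (x y t : ℝ) : ℝ := f_eKPn2 x y t * f_eD2 x y t

theorem v_eQn2 (x y t : ℝ) : val eQn2 x y t = 554264648437500000000000000000000000000000000 * (f_eQn2 x y t) := by
  simp only [eQn2, v_eD2, v_eKPn2, val_m]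
  unfold f_eQn2
  push_cast
  ring

/-- real function of g1n2 -/
noncomputable def f_g1n2 (x y t : ℝ) : ℝ := (((((5833 / 10000000) * f_eD2 x y t) + ((8820751 / 500000000) * (f_eDd x y t - ((3 / 4) * f_eD2 x y t)))) - ((19391519 / 50000000000) * ((f_eDd x y t - (3 / 4)) * f_eD2 x y t))) + ((101447 / 5000000000) * ((((1 - ((2 / 5) * x)) + (1 - ((2 / 5) * y))) - 2) * f_eD2 x y t))) - f_eQn2 x y t

theorem v_g1n2 (x y t : ℝ) : val g1n2 x y t = 554264648437500000000000000000000000000000000 * (f_g1n2 x y t) := by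
  simp only [nd0, nd1, nd5, nd6, nd7, nd9, nd12, nd13, nd15, nd16, nd17, nd424, nd425, nd426, nd437, nd439, nd449, nd450, nd451, nd452, nd453, nd454, nd455, nd456, nd457, nd458, nd459, nd460, nd461, nd462, nd463, nd464, nd465, nd466, g1n2, v_eD2, v_eDd, v_eQn2, val_f, val_h, val_m, val_vx, val_vy]
  unfold f_g1n2
  push_cast
  ring

/-- real function of g2n2 -/
noncomputable def f_g2n2 (x y t : ℝ) : ℝ := ((((((-210014433) / 20000000000) + ((2553 / 160000000) * ((1 - ((2 / 5) * x)) + (1 - ((2 / 5) * y))))) * f_eD2 x y t) + ((1504751499 / 100000000000) * f_eDd x y t)) + (((-253247) / 781250000) * (f_eDd x y t * f_eD2 x y t))) - f_eQn2 x y t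

theorem v_g2n2 (x y t : ℝ) : val g2n2 x y t = 554264648437500000000000000000000000000000000 * (f_g2n2 x y t) := by
  simp only [nd0, nd1, nd5, nd6, nd7, nd9, nd12, nd13, nd15, nd16, nd424, nd425, nd426, nd437, nd439, nd452, nd461, nd462, nd463, nd464, nd465, nd468, nd469, nd470, nd471, nd472, nd473, nd474, nd475, g2n2, v_eD2, v_eDd, v_eQn2, val_f, val_h, val_m, val_vx, val_vy]
  unfold f_g2n2
  push_cast
  ring

/-- real function of g3n2 -/
noncomputable def f_g3n2 (x y t : ℝ) : ℝ := ((((((-872406463) / 100000000000) + ((1227089 / 100000000000) * ((1 - ((2 / 5) * x)) + (1 - ((2 / 5) * y))))) * f_eD2 x y t) + ((629703123 / 50000000000) * f_eDd x y t)) + (((-13352079) / 50000000000) * (f_eDd x y t * f_eD2 x y t))) - f_eQn2 x y t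

theorem v_g3n2 (x y t : ℝ) : val g3n2 x y t = 554264648437500000000000000000000000000000000 * (f_g3n2 x y t) := by
  simp only [nd0, nd1, nd5, nd6, nd7, nd9, nd12, nd13, nd15, nd16, nd424, nd425, nd426, nd437, nd439, nd452, nd461, nd462, nd463, nd464, nd465, nd472, nd477, nd478, nd479, nd480, nd481, nd482, nd483, g3n2, v_eD2, v_eDd, v_eQn2, val_f, val_h, val_m, val_vx, val_vy]
  unfold f_g3n2
  push_cast
  ring

/-- real function of g4n2 -/
noncomputable def f_g4n2 (x y t : ℝ) : ℝ := ((((((-57382079) / 10000000000) + ((65917 / 10000000000) * ((1 - ((2 / 5) * x)) + (1 - ((2 / 5) * y))))) * f_eD2 x y t) + ((167970983 / 20000000000) * f_eDd x y t)) + (((-1652211) / 10000000000) * (f_eDd x y t * f_eD2 x y t))) - f_eQn2 x y t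

theorem v_g4n2 (x y t : ℝ) : val g4n2 x y t = 554264648437500000000000000000000000000000000 * (f_g4n2 x y t) := by
  simp only [nd0, nd1, nd5, nd6, nd7, nd9, nd12, nd13, nd15, nd16, nd424, nd425, nd426, nd437, nd439, nd452, nd461, nd462, nd463, nd464, nd465, nd472, nd485, nd486, nd487, nd488, nd489, nd490, nd491, g4n2, v_eD2, v_eDd, v_eQn2, val_f, val_h, val_m, val_vx, val_vy]
  unfold f_g4n2
  push_cast
  ring

/-- real function of g5n2 -/
noncomputable def f_g5n2 (x y t : ℝ) : ℝ := ((((((-28198151) / 10000000000) + ((29077 / 12500000000) * ((1 - ((2 / 5) * x)) + (1 - ((2 / 5) * y))))) * f_eD2 x y t) + ((419564083 / 100000000000) * f_eDd x y t)) + (((-921789) / 12500000000) * (f_eDd x y t * f_eD2 x y t))) - f_eQn2 x y t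

theorem v_g5n2 (x y t : ℝ) : val g5n2 x y t = 554264648437500000000000000000000000000000000 * (f_g5n2 x y t) := by
  simp only [nd0, nd1, nd5, nd6, nd7, nd9, nd12, nd13, nd15, nd16, nd424, nd425, nd426, nd437, nd439, nd452, nd461, nd462, nd463, nd464, nd465, nd472, nd493, nd494, nd495, nd496, nd497, nd498, nd499, g5n2, v_eD2, v_eDd, v_eQn2, val_f, val_h, val_m, val_vx, val_vy]
  unfold f_g5n2
  push_cast
  ring

/-- real function of g6n2 -/
noncomputable def f_g6n2 (x y t : ℝ) : ℝ := ((((((-1145877107) / 100000000000) + ((359429 / 20000000000) * ((1 - ((2 / 5) * x)) + (1 - ((2 / 5) * y))))) * f_eD2 x y t) + ((408944367 / 25000000000) * f_eDd x y t)) + (((-7052887) / 20000000000) * (f_eDd x y t * f_eD2 x y t))) - f_eQn2 x y t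

theorem v_g6n2 (x y t : ℝ) : val g6n2 x y t = 554264648437500000000000000000000000000000000 * (f_g6n2 x y t) := by
  simp only [nd0, nd1, nd5, nd6, nd7, nd9, nd12, nd13, nd15, nd16, nd424, nd425, nd426, nd437, nd439, nd452, nd461, nd462, nd463, nd464, nd465, nd472, nd501, nd502, nd503, nd504, nd505, nd506, nd507, g6n2, v_eD2, v_eDd, v_eQn2, val_f, val_h, val_m, val_vx, val_vy]
  unfold f_g6n2
  push_cast
  ring

/-- real function of g7n2 -/
noncomputable def f_g7n2 (x y t : ℝ) : ℝ := ((((((-478985153) / 50000000000) + ((1400927 / 100000000000) * ((1 - ((2 / 5) * x)) + (1 - ((2 / 5) * y))))) * f_eD2 x y t) + ((137789681 / 10000000000) * f_eDd x y t)) + (((-14725409) / 50000000000) * (f_eDd x y t * f_eD2 x y t))) - f_eQn2 x y t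

theorem v_g7n2 (x y t : ℝ) : val g7n2 x y t = 554264648437500000000000000000000000000000000 * (f_g7n2 x y t) := by
  simp only [nd0, nd1, nd5, nd6, nd7, nd9, nd12, nd13, nd15, nd16, nd424, nd425, nd426, nd437, nd439, nd452, nd461, nd462, nd463, nd464, nd465, nd472, nd509, nd510, nd511, nd512, nd513, nd514, nd515, g7n2, v_eD2, v_eDd, v_eQn2, val_f, val_h, val_m, val_vx, val_vy]
  unfold f_g7n2
  push_cast
  ring

/-- parameters -/
def P1 : Par := ⟨762, 18, 18, 12, 3840, 3840, 2560, 896, 896, 2560⟩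

theorem hP1 : chkPar P1 g1n2 = true := by decide +kernel

/-- parameters -/
def P2 : Par := ⟨762, 18, 18, 12, 3840, 3840, 2560, 896, 896, 2560⟩

theorem hP2 : chkPar P2 g2n2 = true := by decide +kernel

/-- parameters -/
def P3 : Par := ⟨762, 18, 18, 12, 3840, 3840, 2560, 896, 896, 2560⟩

theorem hP3 : chkPar P3 g3n2 = true := by decide +kernel

/-- parameters -/
def P4 : Par := ⟨762, 18, 18, 12, 3840, 3840, 2560, 896, 896, 2560⟩

theorem hP4 : chkPar P4 g4n2 = true := by decide +kernel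

/-- parameters -/
def P5 : Par := ⟨762, 18, 18, 12, 3840, 3840, 2560, 896, 896, 2560⟩

theorem hP5 : chkPar P5 g5n2 = true := by decide +kernel

/-- parameters -/
def P6 : Par := ⟨762, 18, 18, 12, 3840, 3840, 2560, 896, 896, 2560⟩

theorem hP6 : chkPar P6 g6n2 = true := by decide +kernel

/-- parameters -/
def P7 : Par := ⟨762, 18, 18, 12, 3840, 3840, 2560, 896, 896, 2560⟩

theorem hP7 : chkPar P7 g7n2 = true := by decide +kernel

/-- kinds -/
def ks (k : ℕ) : Par × Ex :=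
  match k with
  | 0 => (P1, g1n2)
  | 1 => (P2, g2n2)
  | 2 => (P3, g3n2)
  | 3 => (P4, g4n2)
  | 4 => (P5, g5n2)
  | 5 => (P6, g6n2)
  | _ => (P7, g7n2)

lemma hks : ∀ k < 7, chkPar (ks k).1 (ks k).2 = true := by
  intro k hk
  interval_cases k
  · exact hP1
  · exact hP2
  · exact hP3
  · exact hP4
  · exact hP5
  · exact hP6
  · exact hP7

/-- subtree -/
def T0 : Tm := (.sx 112 (.sy 112 (.st 1184 (.sx 56 (.sy 56 (.st 1168 (.lf 3) (.lf 2)) (.lf 3)) (.lf 3)) (.lf 2)) (.st 1184 (.lf 3) (.lf 2))) (.sy 112 (.st 1184 (.lf 3) (.lf 2)) (.lf 3)))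
theorem hT0 : chkTm ks 7 3840 3840 2560 T0 ⟨0, 224, 0, 224, 1152, 1216⟩ = true := by decide +kernel
/-- subtree -/
def T1 : Tm := (.lf 1)
theorem hT1 : chkTm ks 7 3840 3840 2560 T1 ⟨0, 112, 0, 112, 1216, 1248⟩ = true := by decide +kernel
/-- subtree -/
def T2 : Tm := (.lf 0)
theorem hT2 : chkTm ks 7 3840 3840 2560 T2 ⟨0, 56, 0, 56, 1248, 1264⟩ = true := by decide +kernel
/-- subtree -/
def T3 : Tm := (.sy 28 (.lf 0) (.st 1272 (.lf 0) (.sx 14 .sk (.sy 42 (.lf 0) .sk))))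
theorem hT3 : chkTm ks 7 3840 3840 2560 T3 ⟨0, 28, 0, 56, 1264, 1280⟩ = true := by decide +kernel
/-- subtree -/
def T4 : Tm := (.lf 0)
theorem hT4 : chkTm ks 7 3840 3840 2560 T4 ⟨28, 56, 0, 28, 1264, 1272⟩ = true := by decide +kernel
/-- subtree -/
def T5 : Tm := (.sx 42 (.lf 0) (.sy 14 (.lf 0) (.st 1276 (.lf 0) (.sx 49 (.lf 0) (.sy 21 (.lf 0) (.st 1278 (.lf 0) (.sx 52 (.sy 24 (.lf 0) (.st 1279 (.lf 0) (.sy 26 (.lf 0) (.lf 5)))) (.sy 24 (.lf 0) (.lf 5)))))))))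
theorem hT5 : chkTm ks 7 3840 3840 2560 T5 ⟨28, 56, 0, 28, 1272, 1280⟩ = true := by decide +kernel
/-- subtree -/
def T6 : Tm := .st 1272 T4 T5
theorem hT6 : chkTm ks 7 3840 3840 2560 T6 ⟨28, 56, 0, 28, 1264, 1280⟩ = true := gluem_t hT4 hT5
/-- subtree -/
def T7 : Tm := (.lf 0)
theorem hT7 : chkTm ks 7 3840 3840 2560 T7 ⟨28, 56, 28, 56, 1264, 1272⟩ = true := by decide +kernel
/-- subtree -/
def T8 : Tm := (.st 1276 (.lf 0) (.sx 35 (.lf 0) (.sy 35 (.lf 0) (.st 1278 (.lf 0) (.sx 38 (.sy 38 (.lf 0) (.st 1279 (.lf 0) (.sy 40 (.lf 0) .sk))) (.sy 38 (.st 1279 (.lf 0) (.sx 40 (.lf 0) (.lf 5))) (.lf 5)))))))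
theorem hT8 : chkTm ks 7 3840 3840 2560 T8 ⟨28, 42, 28, 42, 1272, 1280⟩ = true := by decide +kernel
/-- subtree -/
def T9 : Tm := (.st 1276 (.lf 0) (.sx 35 .sk (.lf 5)))
theorem hT9 : chkTm ks 7 3840 3840 2560 T9 ⟨28, 42, 42, 56, 1272, 1280⟩ = true := by decide +kernel
/-- subtree -/
def T10 : Tm := .sy 42 T8 T9
theorem hT10 : chkTm ks 7 3840 3840 2560 T10 ⟨28, 42, 28, 56, 1272, 1280⟩ = true := gluem_y hT8 hT9
/-- subtree -/
def T11 : Tm := (.st 1276 (.lf 0) (.sx 49 (.sy 35 (.st 1278 (.lf 0) (.sx 45 (.sy 31 (.lf 0) (.st 1279 (.lf 0) (.sy 33 (.lf 0) (.lf 5)))) (.sy 31 (.st 1279 (.lf 0) (.sx 47 (.lf 0) (.lf 5))) (.lf 5)))) (.lf 5)) (.lf 5)))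
theorem hT11 : chkTm ks 7 3840 3840 2560 T11 ⟨42, 56, 28, 42, 1272, 1280⟩ = true := by decide +kernel
/-- subtree -/
def T12 : Tm := (.lf 5)
theorem hT12 : chkTm ks 7 3840 3840 2560 T12 ⟨42, 56, 42, 56, 1272, 1280⟩ = true := by decide +kernel
/-- subtree -/
def T13 : Tm := .sy 42 T11 T12
theorem hT13 : chkTm ks 7 3840 3840 2560 T13 ⟨42, 56, 28, 56, 1272, 1280⟩ = true := gluem_y hT11 hT12
/-- subtree -/
def T14 : Tm := .sx 42 T10 T13
theorem hT14 : chkTm ks 7 3840 3840 2560 T14 ⟨28, 56, 28, 56, 1272, 1280⟩ = true := gluem_x hT10 hT13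
/-- subtree -/
def T15 : Tm := .st 1272 T7 T14
theorem hT15 : chkTm ks 7 3840 3840 2560 T15 ⟨28, 56, 28, 56, 1264, 1280⟩ = true := gluem_t hT7 hT14
/-- subtree -/
def T16 : Tm := .sy 28 T6 T15
theorem hT16 : chkTm ks 7 3840 3840 2560 T16 ⟨28, 56, 0, 56, 1264, 1280⟩ = true := gluem_y hT6 hT15
/-- subtree -/
def T17 : Tm := .sx 28 T3 T16
theorem hT17 : chkTm ks 7 3840 3840 2560 T17 ⟨0, 56, 0, 56, 1264, 1280⟩ = true := gluem_x hT3 hT16
/-- subtree -/
def T18 : Tm := .st 1264 T2 T17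
theorem hT18 : chkTm ks 7 3840 3840 2560 T18 ⟨0, 56, 0, 56, 1248, 1280⟩ = true := gluem_t hT2 hT17
/-- subtree -/
def T19 : Tm := (.st 1264 (.lf 1) (.sx 28 .sk (.lf 5)))
theorem hT19 : chkTm ks 7 3840 3840 2560 T19 ⟨0, 56, 56, 112, 1248, 1280⟩ = true := by decide +kernel
/-- subtree -/
def T20 : Tm := .sy 56 T18 T19
theorem hT20 : chkTm ks 7 3840 3840 2560 T20 ⟨0, 56, 0, 112, 1248, 1280⟩ = true := gluem_y hT18 hT19
/-- subtree -/
def T21 : Tm := (.st 1264 (.lf 1) (.sx 84 (.sy 28 (.st 1272 (.lf 0) (.sx 70 (.sy 14 (.lf 0) (.st 1276 (.lf 0) (.sx 63 (.sy 21 (.st 1278 (.lf 0) (.sx 59 (.lf 0) (.lf 5))) (.lf 5)) (.lf 5)))) (.lf 5))) (.lf 5)) (.lf 5)))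
theorem hT21 : chkTm ks 7 3840 3840 2560 T21 ⟨56, 112, 0, 56, 1248, 1280⟩ = true := by decide +kernel
/-- subtree -/
def T22 : Tm := (.lf 5)
theorem hT22 : chkTm ks 7 3840 3840 2560 T22 ⟨56, 112, 56, 112, 1248, 1280⟩ = true := by decide +kernel
/-- subtree -/
def T23 : Tm := .sy 56 T21 T22
theorem hT23 : chkTm ks 7 3840 3840 2560 T23 ⟨56, 112, 0, 112, 1248, 1280⟩ = true := gluem_y hT21 hT22
/-- subtree -/
def T24 : Tm := .sx 56 T20 T23
theorem hT24 : chkTm ks 7 3840 3840 2560 T24 ⟨0, 112, 0, 112, 1248, 1280⟩ = true := gluem_x hT20 hT23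
/-- subtree -/
def T25 : Tm := .st 1248 T1 T24
theorem hT25 : chkTm ks 7 3840 3840 2560 T25 ⟨0, 112, 0, 112, 1216, 1280⟩ = true := gluem_t hT1 hT24
/-- subtree -/
def T26 : Tm := (.st 1248 (.lf 1) (.sx 56 .sk (.sy 168 (.lf 5) .sk)))
theorem hT26 : chkTm ks 7 3840 3840 2560 T26 ⟨0, 112, 112, 224, 1216, 1280⟩ = true := by decide +kernel
/-- subtree -/
def T27 : Tm := .sy 112 T25 T26
theorem hT27 : chkTm ks 7 3840 3840 2560 T27 ⟨0, 112, 0, 224, 1216, 1280⟩ = true := gluem_y hT25 hT26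
/-- subtree -/
def T28 : Tm := (.sy 112 (.st 1248 (.lf 1) (.sx 168 (.lf 5) (.sy 56 (.lf 5) (.lf 1)))) (.st 1248 (.lf 2) (.lf 1)))
theorem hT28 : chkTm ks 7 3840 3840 2560 T28 ⟨112, 224, 0, 224, 1216, 1280⟩ = true := by decide +kernel
/-- subtree -/
def T29 : Tm := .sx 112 T27 T28
theorem hT29 : chkTm ks 7 3840 3840 2560 T29 ⟨0, 224, 0, 224, 1216, 1280⟩ = true := gluem_x hT27 hT28
/-- subtree -/
def T30 : Tm := .st 1216 T0 T29
theorem hT30 : chkTm ks 7 3840 3840 2560 T30 ⟨0, 224, 0, 224, 1152, 1280⟩ = true := gluem_t hT0 hT29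
/-- subtree -/
def T31 : Tm := (.st 1216 (.sx 112 .sk (.sy 336 (.lf 3) .sk)) (.sx 112 .sk (.sy 336 (.st 1248 (.lf 2) (.lf 1)) .sk)))
theorem hT31 : chkTm ks 7 3840 3840 2560 T31 ⟨0, 224, 224, 448, 1152, 1280⟩ = true := by decide +kernel
/-- subtree -/
def T32 : Tm := .sy 224 T30 T31
theorem hT32 : chkTm ks 7 3840 3840 2560 T32 ⟨0, 224, 0, 448, 1152, 1280⟩ = true := gluem_y hT30 hT31
/-- subtree -/
def T33 : Tm := (.sx 336 (.lf 3) (.sy 112 (.lf 3) (.st 1184 (.sx 392 (.lf 3) (.sy 168 (.lf 3) (.st 1168 (.sx 420 (.lf 3) (.sy 196 (.st 1160 (.sx 434 (.lf 3) (.lf 4)) (.lf 3)) (.lf 4))) (.lf 3)))) (.lf 3))))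
theorem hT33 : chkTm ks 7 3840 3840 2560 T33 ⟨224, 448, 0, 224, 1152, 1216⟩ = true := by decide +kernel
/-- subtree -/
def T34 : Tm := (.sx 336 (.sy 112 (.st 1248 (.lf 2) (.lf 1)) (.st 1248 (.lf 2) (.lf 1))) (.sy 112 (.st 1248 (.lf 2) (.sx 392 (.sy 56 (.st 1264 (.lf 1) (.sx 364 (.lf 1) (.lf 6))) (.lf 6)) (.lf 6))) (.lf 2)))
theorem hT34 : chkTm ks 7 3840 3840 2560 T34 ⟨224, 448, 0, 224, 1216, 1280⟩ = true := by decide +kernel
/-- subtree -/
def T35 : Tm := .st 1216 T33 T34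
theorem hT35 : chkTm ks 7 3840 3840 2560 T35 ⟨224, 448, 0, 224, 1152, 1280⟩ = true := gluem_t hT33 hT34
/-- subtree -/
def T36 : Tm := (.sy 336 (.lf 3) (.st 1184 (.sx 280 .sk (.sy 392 (.st 1168 (.lf 4) (.lf 3)) .sk)) (.lf 3)))
theorem hT36 : chkTm ks 7 3840 3840 2560 T36 ⟨224, 336, 224, 448, 1152, 1216⟩ = true := by decide +kernel
/-- subtree -/
def T37 : Tm := (.sy 336 (.st 1184 (.sx 392 (.sy 280 (.lf 3) (.st 1168 (.lf 4) (.lf 3))) (.sy 280 (.st 1168 (.lf 4) (.lf 3)) (.lf 4))) (.lf 3)) (.st 1184 (.lf 4) (.lf 3)))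
theorem hT37 : chkTm ks 7 3840 3840 2560 T37 ⟨336, 448, 224, 448, 1152, 1216⟩ = true := by decide +kernel
/-- subtree -/
def T38 : Tm := .sx 336 T36 T37
theorem hT38 : chkTm ks 7 3840 3840 2560 T38 ⟨224, 448, 224, 448, 1152, 1216⟩ = true := gluem_x hT36 hT37
/-- subtree -/
def T39 : Tm := (.sx 336 (.sy 336 (.lf 2) (.st 1248 (.lf 3) (.lf 2))) (.sy 336 (.st 1248 (.lf 3) (.lf 2)) (.st 1248 (.lf 3) (.lf 2))))
theorem hT39 : chkTm ks 7 3840 3840 2560 T39 ⟨224, 448, 224, 448, 1216, 1280⟩ = true := by decide +kernel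
/-- subtree -/
def T40 : Tm := .st 1216 T38 T39
theorem hT40 : chkTm ks 7 3840 3840 2560 T40 ⟨224, 448, 224, 448, 1152, 1280⟩ = true := gluem_t hT38 hT39
/-- subtree -/
def T41 : Tm := .sy 224 T35 T40
theorem hT41 : chkTm ks 7 3840 3840 2560 T41 ⟨224, 448, 0, 448, 1152, 1280⟩ = true := gluem_y hT35 hT40
/-- subtree -/
def T42 : Tm := .sx 224 T32 T41
theorem hT42 : chkTm ks 7 3840 3840 2560 T42 ⟨0, 448, 0, 448, 1152, 1280⟩ = true := gluem_x hT32 hT41

theorem cover (x y t : ℝ) (hyx : y ≤ x) (hx0 : 0 ≤ x) (hx1 : x ≤ (7 / 60))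
    (hy0 : 0 ≤ y) (hy1 : y ≤ (7 / 60))
    (ht0 : (9 / 20) ≤ t) (ht1 : t ≤ (1 / 2)) :
    ∃ k < 7, 0 ≤ val (ks k).2 x y t := by
  refine chkTm_sound ks 7 3840 3840 2560 (by norm_num) (by norm_num) hks T42 ⟨0, 448, 0, 448, 1152, 1280⟩ hT42 x y t hyx
    ?_ ?_ ?_ ?_ ?_ ?_ <;> push_cast <;> linarith

theorem good (x y t : ℝ) (hx : x ≤ 1) (hy : y ≤ 1) (h : ∃ k < 7, 0 ≤ val (ks k).2 x y t) :
    PG.Good7 (K3 x y t + ((11 / 2500) * (1 / 2 - t))) x y t := by
  obtain ⟨k, hk, h⟩ := h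
  have hr : 0 ≤ (1 - x) ^ 3 * (1 - y) ^ 3 :=
    mul_nonneg (pow_nonneg (by linarith) 3) (pow_nonneg (by linarith) 3)
  interval_cases k
  · have h1 : 0 ≤ val g1n2 x y t := h
    rw [v_g1n2] at h1
    have h2 : 0 ≤ f_g1n2 x y t := nonneg_of_mul_nonneg_right h1 (by norm_num)
    refine (Or.inl ∘ Or.inr ∘ Or.inl) ?_
    unfold f_g1n2 f_eQn2 f_eKPn2 at h2
    simp only [K3x, D2x, DDx] at h2
    unfold PG.L0
    linarith
  · have h1 : 0 ≤ val g2n2 x y t := h
    rw [v_g2n2] at h1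
    have h2 : 0 ≤ f_g2n2 x y t := nonneg_of_mul_nonneg_right h1 (by norm_num)
    refine (Or.inl ∘ Or.inr ∘ Or.inr ∘ Or.inl) ?_
    unfold f_g2n2 f_eQn2 f_eKPn2 at h2
    simp only [K3x, D2x, DDx] at h2
    unfold PG.LL
    linarith
  · have h1 : 0 ≤ val g3n2 x y t := h
    rw [v_g3n2] at h1
    have h2 : 0 ≤ f_g3n2 x y t := nonneg_of_mul_nonneg_right h1 (by norm_num)
    refine (Or.inl ∘ Or.inr ∘ Or.inr ∘ Or.inr ∘ Or.inl) ?_
    unfold f_g3n2 f_eQn2 f_eKPn2 at h2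
    simp only [K3x, D2x, DDx] at h2
    unfold PG.LL
    linarith
  · have h1 : 0 ≤ val g4n2 x y t := h
    rw [v_g4n2] at h1
    have h2 : 0 ≤ f_g4n2 x y t := nonneg_of_mul_nonneg_right h1 (by norm_num)
    refine (Or.inl ∘ Or.inr ∘ Or.inr ∘ Or.inr ∘ Or.inr ∘ Or.inl) ?_
    unfold f_g4n2 f_eQn2 f_eKPn2 at h2
    simp only [K3x, D2x, DDx] at h2
    unfold PG.LL
    linarith
  · have h1 : 0 ≤ val g5n2 x y t := h
    rw [v_g5n2] at h1
    have h2 : 0 ≤ f_g5n2 x y t := nonneg_of_mul_nonneg_right h1 (by norm_num)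
    refine (Or.inl ∘ Or.inr ∘ Or.inr ∘ Or.inr ∘ Or.inr ∘ Or.inr) ?_
    unfold f_g5n2 f_eQn2 f_eKPn2 at h2
    simp only [K3x, D2x, DDx] at h2
    unfold PG.LL
    linarith
  · have h1 : 0 ≤ val g6n2 x y t := h
    rw [v_g6n2] at h1
    have h2 : 0 ≤ f_g6n2 x y t := nonneg_of_mul_nonneg_right h1 (by norm_num)
    refine (Or.inr ∘ Or.inl) ?_
    unfold f_g6n2 f_eQn2 f_eKPn2 at h2
    simp only [K3x, D2x, DDx] at h2
    unfold PG.LL
    linarith
  · have h1 : 0 ≤ val g7n2 x y t := h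
    rw [v_g7n2] at h1
    have h2 : 0 ≤ f_g7n2 x y t := nonneg_of_mul_nonneg_right h1 (by norm_num)
    refine (Or.inr ∘ Or.inr) ?_
    unfold f_g7n2 f_eQn2 f_eKPn2 at h2
    simp only [K3x, D2x, DDx] at h2
    unfold PG.LL
    linarith

/-- All points of the region (both orders of `x, y`). -/
theorem region (x y t : ℝ) (hx0 : 0 ≤ x) (hx1 : x ≤ (7 / 60))
    (hy0 : 0 ≤ y) (hy1 : y ≤ (7 / 60))
    (ht0 : (9 / 20) ≤ t) (ht1 : t ≤ (1 / 2)) :
    PG.Good7 (K3 x y t + ((11 / 2500) * (1 / 2 - t))) x y t := by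
  rcases le_total y x with h | h
  · exact good x y t (by linarith) (by linarith)
      (cover x y t h (by linarith) (by linarith) (by linarith) (by linarith) ht0 ht1)
  · have h1 := good y x t (by linarith) (by linarith)
      (cover y x t h (by linarith) (by linarith) (by linarith) (by linarith) ht0 ht1)
    rw [K3_symm y x] at h1
    have h2 := PG.Good7_symm h1
    convert h2 using 2 <;> ring

end Pool.Agent.Lib.MP_f1379f_gt.FV.CJ.n2r
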