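import Pool.Agent.Lib.MP_f1379f_gt.FV.CJn0
import Pool.Agent.Lib.MP_f1379f_gt.FV.CJn1
import Pool.Agent.Lib.MP_f1379f_gt.FV.CJn2
import Pool.Agent.Lib.MP_f1379f_gt.FV.CJc
import Pool.Agent.Lib.MP_f1379f_gt.FV.CJd
import Pool.Agent.Lib.MP_f1379f_gt.FV.CJe
import Pool.Agent.Lib.MP_f1379f_gt.FV.CJf
import Pool.Agent.Lib.MP_f1379f_gt.FV.CJg
import Pool.Agent.Lib.MP_f1379f_gt.FV.CJh
import Pool.Agent.Lib.MP_f1379f_gt.FV.CJi
import Pool.Agent.Lib.MP_f1379f_gt.FV.CJVn
import Pool.Agent.Lib.MP_f1379f_gt.FV.CJVf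
import Pool.Agent.Lib.MP_f1379f_gt.FV.CEX
import Pool.Agent.Lib.MP_f1379f_gt.FV.NRP
import Pool.Agent.Lib.MP_f1379f_gt.FV.SpecS2

section
/-!
# MP_f1379f_gt, full Q1: Certificate (C_J): contacts and radii of the near points.
-/
set_option autoImplicit false
set_option linter.style.longLine false
set_option linter.unusedSimpArgs false

namespace Pool.Agent.Lib.MP_f1379f_gt.FV

open MeasureTheory Finset

namespace CJ

/-- The pair slack. -/
noncomputable def PS (T : ℝ) : ℝ := if T ≤ 9 / 20 then (704 / 847989) * base T else (11 / 2500) * (1 / 2 - T)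

lemma PS_lo (T : ℝ) (h : T ≤ 9 / 20) : PS T = (704 / 847989) * base T := if_pos h

lemma PS_hi (T : ℝ) (h : 9 / 20 ≤ T) : PS T = (11 / 2500) * (1 / 2 - T) := by
  rcases eq_or_lt_of_le h with h | h
  · rw [PS_lo T h.ge, ← h]
    unfold base
    norm_num
  · exact if_neg (not_le.2 h)

/-- The lower chart. -/
theorem low (x y T : ℝ) (hx0 : 0 ≤ x) (hx1 : x ≤ 1) (hy0 : 0 ≤ y) (hy1 : y ≤ 1)
    (hlo : -1 + (x + y) / 5 + 2 / 25 * x * y ≤ T) (h2 : T ≤ -1 / 2) :
    ∃ v, 0 ≤ v ∧ v ≤ 1 ∧ L.TL x y v = T := by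
  have hxy : x * y ≤ 1 := by nlinarith
  have hden : 0 < 1 / 2 - 1 / 5 * (x + y) - 2 / 25 * (x * y) := by linarith
  refine ⟨(-1 / 2 - T) / (1 / 2 - 1 / 5 * (x + y) - 2 / 25 * (x * y)), ?_, ?_, ?_⟩
  · exact div_nonneg (by linarith) hden.le
  · rw [div_le_one hden]; linarith
  · unfold L.TL
    rw [div_mul_cancel₀ _ hden.ne']
    ring

/-- Near and near. -/
theorem good_nn (x y T : ℝ) (hx0 : 0 ≤ x) (hx1 : x ≤ 1) (hy0 : 0 ≤ y) (hy1 : y ≤ 1)
    (hlo : -1 + (x + y) / 5 + 2 / 25 * x * y ≤ T) (hhi : T ≤ 1 / 2) (hx : x ≤ (7 / 60)) (hy : y ≤ (7 / 60)) :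
    PG.Good7 (K3 x y T + PS T) x y T := by
  rcases le_total T (-1 / 2) with h2 | h2
  · obtain ⟨v, hv0, hv1, hT⟩ := low x y T hx0 hx1 hy0 hy1 hlo h2
    have h3 := gr.region x y v (by linarith) (by linarith) (by linarith) (by linarith) (by linarith) (by linarith)
    rw [hT] at h3
    rw [PS_lo T (by linarith)]
    exact h3
  rcases le_total T ((3 / 10)) with h3 | h3
  · rw [PS_lo T (by linarith)]
    exact n0r.region x y T (by linarith) (by linarith) (by linarith) (by linarith) (by linarith) (by linarith)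
  rcases le_total T ((9 / 20)) with h4 | h4
  · rw [PS_lo T (by linarith)]
    exact n1r.region x y T (by linarith) (by linarith) (by linarith) (by linarith) (by linarith) (by linarith)
  rw [PS_hi T (by linarith)]
  exact n2r.region x y T (by linarith) (by linarith) (by linarith) (by linarith) (by linarith) (by linarith)

/-- Region good_fn. -/
theorem good_fn (x y T : ℝ) (hx0 : 0 ≤ x) (hx1 : x ≤ 1) (hy0 : 0 ≤ y) (hy1 : y ≤ 1)
    (hlo : -1 + (x + y) / 5 + 2 / 25 * x * y ≤ T) (hhi : T ≤ 1 / 2) (hx : 13 / 20 ≤ x) (hy : y ≤ (7 / 60)) :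
    PG.Good7 (K3 x y T) x y T := by
  rcases le_total T ((3 / 10)) with h1 | h1
  · rcases le_total T (-1 / 2) with h2 | h2
    · obtain ⟨v, hv0, hv1, hT⟩ := low x y T hx0 hx1 hy0 hy1 hlo h2
      have := hr.region x y v (by linarith) (by linarith) (by linarith) (by linarith) (by linarith) (by linarith)
      rw [hT] at this
      exact this
    · exact cr.region x y T (by linarith) (by linarith) (by linarith) (by linarith) (by linarith) (by linarith)
  · exact dr.region x y T (by linarith) (by linarith) (by linarith) (by linarith) (by linarith) (by linarith)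

/-- Region good_ff. -/
theorem good_ff (x y T : ℝ) (hx0 : 0 ≤ x) (hx1 : x ≤ 1) (hy0 : 0 ≤ y) (hy1 : y ≤ 1)
    (hlo : -1 + (x + y) / 5 + 2 / 25 * x * y ≤ T) (hhi : T ≤ 1 / 2) (hx : 13 / 20 ≤ x) (hy : 13 / 20 ≤ y) :
    PG.Good7 (K3 x y T) x y T := by
  rcases le_total T ((3 / 10)) with h1 | h1
  · rcases le_total T (-1 / 2) with h2 | h2
    · obtain ⟨v, hv0, hv1, hT⟩ := low x y T hx0 hx1 hy0 hy1 hlo h2
      have := ir.region x y v (by linarith) (by linarith) (by linarith) (by linarith) (by linarith) (by linarith)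
      rw [hT] at this
      exact this
    · exact er.region x y T (by linarith) (by linarith) (by linarith) (by linarith) (by linarith) (by linarith)
  · exact fr.region x y T (by linarith) (by linarith) (by linarith) (by linarith) (by linarith) (by linarith)

/-- Near and far. -/
theorem good_nf (x y T : ℝ) (hx0 : 0 ≤ x) (hx1 : x ≤ 1) (hy0 : 0 ≤ y) (hy1 : y ≤ 1)
    (hlo : -1 + (x + y) / 5 + 2 / 25 * x * y ≤ T) (hhi : T ≤ 1 / 2) (hx : x ≤ (7 / 60)) (hy : 13 / 20 ≤ y) :
    PG.Good7 (K3 x y T) x y T := by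
  have h := good_fn y x T hy0 hy1 hx0 hx1 (by linarith) hhi hy hx
  rw [K3_symm y x] at h
  exact PG.Good7_symm h

/-- The one-body inequality, near. -/
theorem one_n (x : ℝ) (hx0 : 0 ≤ x) (hx1 : x ≤ (7 / 60)) :
    (1 - x) ^ 3 * PW.VV x + 1 / 2 * ((1 - x) ^ 6 *
      Kt 11 4 cA x x (1 - 2 / 5 * x) ((1 - 2 / 5 * x) * (1 - 2 / 5 * x))) + (-((3 / 500)) + (11 / 250) * x) ≤
      240 * ((1 - x) ^ 3 * ∑ i ∈ range 4, cA 0 i 0 * x ^ i) := by
  have h1 := Vnr.region x (by linarith) (by linarith)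
  linarith

/-- The one-body inequality, far. -/
theorem one_f (x : ℝ) (hx0 : 13 / 20 ≤ x) (hx1 : x ≤ 1) :
    (1 - x) ^ 3 * PW.VV x + 1 / 2 * ((1 - x) ^ 6 *
      Kt 11 4 cA x x (1 - 2 / 5 * x) ((1 - 2 / 5 * x) * (1 - 2 / 5 * x))) + 0 ≤
      240 * ((1 - x) ^ 3 * ∑ i ∈ range 4, cA 0 i 0 * x ^ i) := by
  have h1 := Vfr.region x (by linarith) (by linarith)
  have h2 : (1 - x) ^ 3 * (PW.VV x + 1 / 2 * ((1 - x) ^ 3 *
      Kt 11 4 cA x x (1 - 2 / 5 * x) ((1 - 2 / 5 * x) * (1 - 2 / 5 * x)))) ≤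
      (1 - x) ^ 3 * (240 * ∑ i ∈ range 4, cA 0 i 0 * x ^ i) :=
    mul_le_mul_of_nonneg_left h1 (pow_nonneg (by linarith) 3)
  have e1 : (1 - x) ^ 6 = (1 - x) ^ 3 * (1 - x) ^ 3 := by ring
  rw [e1]
  linarith

end CJ

open CJ in
/-- **Certificate (C_J): contacts and radii of the near points.** -/
theorem certCJ (U : Finset E) (hU : Adm U) (S : Finset E) (hSU : S ⊆ U) (hcard : S.card = 240)
    (hS : ∀ u ∈ S, 1 - rr u ≤ (7 / 60)) (hF : ∀ u ∈ U, u ∉ S → rr u ≤ 7 / 20) :
    ((volume bal).toReal - 240 * (801889 / 10 ^ 7) + 6720 * (5833 / 10 ^ 7))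
      + (11 / 250) * ∑ u ∈ S, (1 - rr u)
      + 1 / 2 * ∑ u ∈ S, ∑ v ∈ S.erase u, PS (TT u v) ≤ W2F U := by
  classical
  have h := asm7 U hU 11 4 4 cw cL cw_nonneg cA (fun _ _ _ => rfl)
    (fun u => if u ∈ S then -((3 / 500)) + (11 / 250) * (1 - rr u) else 0)
    (fun u v => if u ∈ S ∧ v ∈ S then PS (TT u v) else 0)
    (by
      intro u hu v hv _ x y T c
      have e := c.hx
      have e' := c.hy
      have e'' := c.hT
      by_cases h1 : u ∈ S <;> by_cases h2 : v ∈ S
      · have a1 := hS u h1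
        have a2 := hS v h2
        simp only [h1, h2, and_self, if_true]
        rw [← e'']
        exact good_nn x y T c.x0 c.x1.le c.y0 c.y1.le c.lo c.hi (by linarith) (by linarith)
      · have a1 := hS u h1
        have a2 := hF v hv h2
        rw [if_neg (by tauto), add_zero]
        exact good_nf x y T c.x0 c.x1.le c.y0 c.y1.le c.lo c.hi (by linarith) (by linarith)
      · have a1 := hF u hu h1
        have a2 := hS v h2
        rw [if_neg (by tauto), add_zero]
        exact good_fn x y T c.x0 c.x1.le c.y0 c.y1.le c.lo c.hi (by linarith) (by linarith)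
      · have a1 := hF u hu h1
        have a2 := hF v hv h2
        rw [if_neg (by tauto), add_zero]
        exact good_ff x y T c.x0 c.x1.le c.y0 c.y1.le c.lo c.hi (by linarith) (by linarith))
    (by
      intro u _ v _ _ h
      rw [if_neg]
      rintro ⟨h1, h2⟩
      have a1 := hS u h1
      have a2 := hS v h2
      rcases h with h | h <;> linarith)
    (by
      intro u hu x hx hx0 hx1
      by_cases h1 : u ∈ S
      · have a1 := hS u h1
        rw [if_pos h1, show 1 - rr u = x from hx.symm]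
        exact one_n x hx0 (by linarith)
      · have a1 := hF u hu h1
        rw [if_neg h1]
        exact one_f x (by linarith) hx1.le)
    (by
      intro u _ hu
      by_cases h1 : u ∈ S
      · have a1 := hS u h1
        linarith
      · rw [if_neg h1])
  have h0 : 28800 * cA 0 0 0 = 240 * (801889 / 10 ^ 7) - 6720 * (5833 / 10 ^ 7)
      - 240 * ((3 / 500)) := by
    unfold cA
    simp only [sum_range_succ, sum_range_zero, cw, cL, cL0]
    norm_num
  have hfil : U.filter (fun u => u ∈ S) = S := by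
    ext u
    rw [mem_filter]
    exact ⟨fun h => h.2, fun h => ⟨hSU h, h⟩⟩
  have h1 : ∑ u ∈ U, (if u ∈ S then (-((3 / 500)) + (11 / 250) * (1 - rr u) : ℝ) else 0) = -(240 * ((3 / 500))) + (11 / 250) * ∑ u ∈ S, (1 - rr u) := by
    rw [← sum_filter, hfil]
    rw [sum_add_distrib, ← mul_sum, sum_const, hcard]
    norm_num
  have h2 : ∑ u ∈ U, ∑ v ∈ U.erase u, (if u ∈ S ∧ v ∈ S then PS (TT u v) else 0) =
      ∑ u ∈ S, ∑ v ∈ S.erase u, PS (TT u v) := by
    conv_rhs => rw [← hfil]
    rw [sum_filter]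
    apply sum_congr rfl
    intro u hu
    split_ifs with h3
    · rw [← filter_erase, sum_filter]
      apply sum_congr rfl
      intro v hv
      simp only [h3, true_and]
    · apply sum_eq_zero
      intro v hv
      rw [if_neg (by tauto)]
  rw [h0, h1, h2] at h
  linarith

end Pool.Agent.Lib.MP_f1379f_gt.FV
end

section
/-!
# MP_f1379f_gt, full Q1: the joint certificate (C_J) on the near points
-/
set_option autoImplicit false

namespace Pool.Agent.Lib.MP_f1379f_gt.FV

open MeasureTheory Finset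

namespace CJ

lemma base_ref : base (9 / 20) = 847989 / 3200000 := by
  unfold base
  norm_num

lemma min_le (T : ℝ) :
    22 / 100000 * min (base T / base (9 / 20)) (20 * (1 / 2 - T)) ≤ PS T := by
  rcases le_total T (9 / 20) with h | h
  · rw [PS_lo T h]
    have h1 := min_le_left (base T / base (9 / 20)) (20 * (1 / 2 - T))
    rw [base_ref] at h1 ⊢
    have h2 : base T / (847989 / 3200000) = 3200000 / 847989 * base T := by ring
    rw [h2] at h1 ⊢
    linarith
  · rw [PS_hi T h]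
    have h1 := min_le_right (base T / base (9 / 20)) (20 * (1 / 2 - T))
    linarith

end CJ

/-- The joint certificate on the near points: radii, contacts and the other pairs. -/
theorem near_cj (U : Finset E) (hU : Adm U) (hW : W2F U < 16) :
    ((volume bal).toReal - 240 * (801889 / 10 ^ 7) + 6720 * (5833 / 10 ^ 7))
      + 44 / 1000 * ∑ u ∈ nearS U, (1 - rr u)
      + 11 / 100000 * ∑ u ∈ nearS U, ∑ v ∈ (nearS U).erase u,
        min (base (TT u v) / base (9 / 20)) (20 * (1 / 2 - TT u v)) ≤ W2F U := by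
  obtain ⟨hcard, hdom⟩ := near_set U hU hW
  obtain ⟨hx, -⟩ := near_x U hU hW
  have h := certCJ U hU (nearS U) (fun u hu => (mem_nearS.1 hu).1) hcard
    (fun u hu => (hx u hu).le)
    (fun u hu hn => by
      rcases hdom u hu with h1 | h1
      · exact absurd (mem_nearS.2 ⟨hu, h1⟩) hn
      · exact h1)
  have e : 22 / 100000 * ∑ u ∈ nearS U, ∑ v ∈ (nearS U).erase u,
      min (base (TT u v) / base (9 / 20)) (20 * (1 / 2 - TT u v)) ≤
      ∑ u ∈ nearS U, ∑ v ∈ (nearS U).erase u, CJ.PS (TT u v) := by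
    rw [mul_sum]
    apply sum_le_sum
    intro u _
    rw [mul_sum]
    apply sum_le_sum
    intro v _
    exact CJ.min_le _
  linarith

/-- `SpecCJ`. -/
theorem specCJ : SpecCJ := by
  intro U hU hW
  have h := near_cj U hU hW
  have h3 := PW.That_ge
  have e : ∑ u ∈ nearS U, xr u = 2 / 5 * ∑ u ∈ nearS U, (1 - rr u) := by
    rw [mul_sum]
    apply sum_congr rfl
    intro u hu
    have h1 := (mem_nearS.1 hu).2
    unfold xr
    rw [normsq_of_rr (by linarith)]
    ring
  rw [e]
  linarith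

end Pool.Agent.Lib.MP_f1379f_gt.FV
end

section
/-!
# MP_f1379f_gt, full Q1, block STAB1, part 2: radial defects and slacks of the near points
-/
set_option autoImplicit false

namespace Pool.Agent.Lib.MP_f1379f_gt.FV

open Finset MeasureTheory

namespace RBDM

lemma xr_eq {u : E} (hu : 0 < rr u) : xr u = 2 / 5 * (1 - rr u) := by
  unfold xr
  rw [normsq_of_rr hu]
  ring

lemma near_pos {U : Finset E} {u : E} (hu : u ∈ nearS U) : 0 < rr u :=
  lt_trans (by norm_num) (mem_nearS.1 hu).2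

lemma aux {A B W : ℝ} (h1 : A + B ≤ W) (hW : W < 16) (h2 : 15.9916 < A) : B ≤ 84 / 10000 := by
  norm_num at h2 ⊢
  linarith

end RBDM

theorem specRBD : SpecRBD where
  pos := by
    intro U hU _ u hu
    have h := hU.le_one u (mem_nearS.1 hu).1
    unfold xr
    nlinarith [norm_nonneg u]
  sum := by
    intro U hU hW
    have h1 := (near_all U hU hW).2.2.2.1
    have h2 := PW.That_ge
    have h3 : ∑ u ∈ nearS U, xr u = 2 / 5 * ∑ u ∈ nearS U, (1 - rr u) := by
      rw [mul_sum]
      exact sum_congr rfl fun u hu => RBDM.xr_eq (RBDM.near_pos hu)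
    rw [h3]
    have h4 := RBDM.aux h1 hW h2
    linarith
  sl0 := by
    intro U hU u hu v hv huv
    have h := TT_le_half (hU.sep u (mem_nearS.1 hu).1 v (mem_nearS.1 hv).1 huv)
    unfold sl
    linarith
  phi := by
    intro U hU hW
    have h1 := (near_all U hU hW).2.2.2.2
    have h2 := PW.That_ge
    have h4 := RBDM.aux h1 hW h2
    linarith

end Pool.Agent.Lib.MP_f1379f_gt.FV
end
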