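import Pool.Agent.Lib.MP_f1379f_gt.FV.BCH

/-!
# C1 of CNT, chart w
-/

set_option autoImplicit false
set_option linter.unusedVariables false
set_option linter.unusedSimpArgs false
set_option linter.unusedTactic false
set_option linter.style.longLine false
set_option maxRecDepth 100000

namespace Pool.Agent.Lib.MP_f1379f_gt.FV.CNRA

open Pool.Agent.Lib.MP_f1379f_gt.FV Pool.Agent.Lib.MP_f1379f_gt.FV.BCH 

/-- node -/
def nd0 : Ex := .v .x
/-- node -/
def nd1 : Ex := .v .y
/-- node -/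
def nd2 : Ex := .v .t
/-- node -/
def nd4 : Ex := .h .t
/-- node -/
def eT : Ex := .f 1 nd4 (-2) nd2
/-- node -/
def nd6 : Ex := .m nd0 nd0
/-- node -/
def ez : Ex := .m nd1 nd6
/-- node -/
def nd8 : Ex := .h .x
/-- node -/
def eP : Ex := .f 1 nd8 (-1) nd0
/-- node -/
def nd10 : Ex := .h .y
/-- node -/
def nd11 : Ex := .m nd8 nd10
/-- node -/
def nd12 : Ex := .m nd8 nd11
/-- node -/
def nd13 : Ex := .m eT nd12
/-- node -/
def nd14 : Ex := .m ez nd4
/-- node -/
def eN : Ex := .f 1 nd13 (-1) nd14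
/-- node -/
def nd16 : Ex := .m nd10 nd4
/-- node -/
def nd17 : Ex := .m nd8 nd16
/-- node -/
def nd18 : Ex := .m eP nd17
/-- node -/
def ePN : Ex := .f 2 nd18 1 eN
/-- node -/
def nd20 : Ex := .m nd0 nd8
/-- node -/
def nd21 : Ex := .f 2 nd20 (-1) nd6
/-- node -/
def nd22 : Ex := .m nd21 nd10
/-- node -/
def es : Ex := .f 1 nd22 1 ez
/-- node -/
def nd24 : Ex := .f 3 nd12 (-5) es
/-- node -/
def ew : Ex := .f 3 nd24 25 ez
/-- node -/
def eH : Ex := .f 1 eN 1 nd18
/-- node -/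
def nd27 : Ex := .m eN eN
/-- node -/
def nd28 : Ex := .m eH eH
/-- node -/
def nd29 : Ex := .m nd27 nd28
/-- node -/
def nd30 : Ex := .m ePN nd29
/-- node -/
def eLH : Ex := .m ew nd30
/-- node -/
def nd32 : Ex := .m eP eP
/-- node -/
def nd33 : Ex := .m nd32 nd32
/-- node -/
def ePf : Ex := .m eP nd33
/-- node -/
def nd35 : Ex := .f 1 nd4 (-1) eT
/-- node -/
def nd36 : Ex := .f 15 nd4 (-44) nd35
/-- node -/
def eRH : Ex := .m nd36 ePf
/-- node -/
def nd38 : Ex := .m nd11 nd17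
/-- node -/
def nd39 : Ex := .m nd17 nd38
/-- node -/
def nd40 : Ex := .m nd8 nd17
/-- node -/
def nd41 : Ex := .m nd40 nd38
/-- node -/
def nd42 : Ex := .m nd39 nd41
/-- node -/
def nd43 : Ex := .m eRH nd42
/-- node -/
def eg : Ex := .f 36 nd43 (-5) eLH

/-- real function of ez -/
noncomputable def f_ez (x y t : ℝ) : ℝ := y * (x * x)

theorem v_ez (x y t : ℝ) : val ez x y t = 1 * (f_ez x y t) := by
  simp only [nd0, nd1, nd6, ez, val_m, val_vx, val_vy]
  unfold f_ez
  push_cast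
  ring

/-- real function of eP -/
noncomputable def f_eP (x y t : ℝ) : ℝ := 1 - x

theorem v_eP (x y t : ℝ) : val eP x y t = 1 * (f_eP x y t) := by
  simp only [nd0, nd8, eP, val_f, val_h, val_vx]
  unfold f_eP
  push_cast
  ring

/-- real function of eT -/
noncomputable def f_eT (x y t : ℝ) : ℝ := (1 / 2) - t

theorem v_eT (x y t : ℝ) : val eT x y t = 2 * (f_eT x y t) := by
  simp only [nd2, nd4, eT, val_f, val_h, val_vt]
  unfold f_eT
  push_cast
  ring

/-- real function of eN -/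
noncomputable def f_eN (x y t : ℝ) : ℝ := f_eT x y t - ((1 / 2) * f_ez x y t)

theorem v_eN (x y t : ℝ) : val eN x y t = 2 * (f_eN x y t) := by
  simp only [nd4, nd8, nd10, nd11, nd12, nd13, nd14, eN, v_eT, v_ez, val_f, val_h, val_m]
  unfold f_eN
  push_cast
  ring

/-- real function of ePN -/
noncomputable def f_ePN (x y t : ℝ) : ℝ := f_eP x y t + f_eN x y t

theorem v_ePN (x y t : ℝ) : val ePN x y t = 2 * (f_ePN x y t) := by
  simp only [nd4, nd8, nd10, nd16, nd17, nd18, ePN, v_eP, v_eN, val_f, val_h, val_m]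
  unfold f_ePN
  push_cast
  ring

/-- real function of es -/
noncomputable def f_es (x y t : ℝ) : ℝ := ((2 * x) - (x * x)) + f_ez x y t

theorem v_es (x y t : ℝ) : val es x y t = 1 * (f_es x y t) := by
  simp only [nd0, nd6, nd8, nd10, nd20, nd21, nd22, es, v_ez, val_f, val_h, val_m, val_vx]
  unfold f_es
  push_cast
  ring

/-- real function of ew -/
noncomputable def f_ew (x y t : ℝ) : ℝ := (1 - ((5 / 3) * f_es x y t)) + ((25 / 9) * f_ez x y t)

theorem v_ew (x y t : ℝ) : val ew x y t = 9 * (f_ew x y t) := by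
  simp only [nd8, nd10, nd11, nd12, nd24, ew, v_ez, v_es, val_f, val_h, val_m]
  unfold f_ew
  push_cast
  ring

/-- real function of eH -/
noncomputable def f_eH (x y t : ℝ) : ℝ := f_eN x y t + ((1 / 2) * f_eP x y t)

theorem v_eH (x y t : ℝ) : val eH x y t = 2 * (f_eH x y t) := by
  simp only [nd4, nd8, nd10, nd16, nd17, nd18, eH, v_eP, v_eN, val_f, val_h, val_m]
  unfold f_eH
  push_cast
  ring

/-- real function of eLH -/
noncomputable def f_eLH (x y t : ℝ) : ℝ := f_ew x y t * (f_ePN x y t * ((f_eN x y t * f_eN x y t) * (f_eH x y t * f_eH x y t)))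

theorem v_eLH (x y t : ℝ) : val eLH x y t = 288 * (f_eLH x y t) := by
  simp only [nd27, nd28, nd29, nd30, eLH, v_eN, v_ePN, v_ew, v_eH, val_m]
  unfold f_eLH
  push_cast
  ring

/-- real function of ePf -/
noncomputable def f_ePf (x y t : ℝ) : ℝ := f_eP x y t * ((f_eP x y t * f_eP x y t) * (f_eP x y t * f_eP x y t))

theorem v_ePf (x y t : ℝ) : val ePf x y t = 1 * (f_ePf x y t) := by
  simp only [nd32, nd33, ePf, v_eP, val_m]
  unfold f_ePf
  push_cast
  ring

/-- real function of eRH -/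
noncomputable def f_eRH (x y t : ℝ) : ℝ := ((3 / 8) - ((11 / 5) * ((1 / 2) - f_eT x y t))) * f_ePf x y t

theorem v_eRH (x y t : ℝ) : val eRH x y t = 40 * (f_eRH x y t) := by
  simp only [nd4, nd35, nd36, eRH, v_eT, v_ePf, val_f, val_h, val_m]
  unfold f_eRH
  push_cast
  ring

/-- real function of eg -/
noncomputable def f_eg (x y t : ℝ) : ℝ := f_eRH x y t - f_eLH x y t

theorem v_eg (x y t : ℝ) : val eg x y t = 1440 * (f_eg x y t) := by
  simp only [nd4, nd8, nd10, nd11, nd16, nd17, nd38, nd39, nd40, nd41, nd42, nd43, eg, v_eLH, v_eRH, val_f, val_h, val_m]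
  unfold f_eg
  push_cast
  ring

/-- parameters -/
def P0 : Par := ⟨338, 12, 6, 5, 64000, 256, 5120, 3072, 512, 512⟩

theorem hP0 : chkPar P0 eg = true := by decide +kernel

/-- subtree -/
def T0 : Tr := .lf
theorem hT0 : chkTr P0 eg T0 ⟨0, 1536, 0, 256, 0, 256⟩ = true := by decide +kernel

theorem region (x y t : ℝ) (hx0 : 0 ≤ x) (hx1 : x ≤ (3 / 125)) (hy0 : 0 ≤ y) (hy1 : y ≤ 1) (ht0 : 0 ≤ t) (ht1 : t ≤ (1 / 20)) :
    0 ≤ f_eg x y t := by
  have h1 := chkTr_sound P0 eg hP0 T0 ⟨0, 1536, 0, 256, 0, 256⟩ hT0 x y t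
    (by simp only [P0]; push_cast; linarith) (by simp only [P0]; push_cast; linarith)
    (by simp only [P0]; push_cast; linarith) (by simp only [P0]; push_cast; linarith)
    (by simp only [P0]; push_cast; linarith) (by simp only [P0]; push_cast; linarith)
  rw [v_eg] at h1
  exact nonneg_of_mul_nonneg_right h1 (by norm_num)

end Pool.Agent.Lib.MP_f1379f_gt.FV.CNRA
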