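import Pool.Agent.Lib.MP_f1379f_gt.FV.BCH

/-!
# C2 of CNT, chart T
-/

set_option autoImplicit false
set_option linter.unusedVariables false
set_option linter.unusedSimpArgs false
set_option linter.unusedTactic false
set_option linter.style.longLine false
set_option maxRecDepth 100000

namespace Pool.Agent.Lib.MP_f1379f_gt.FV.CNRC

open Pool.Agent.Lib.MP_f1379f_gt.FV Pool.Agent.Lib.MP_f1379f_gt.FV.BCH 

/-- node -/
def nd0 : Ex := .v .x
/-- node -/
def nd1 : Ex := .v .y
/-- node -/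
def nd2 : Ex := .v .t
/-- node -/
def nd3 : Ex := .m nd0 nd0
/-- node -/
def ez : Ex := .m nd1 nd3
/-- node -/
def nd6 : Ex := .h .x
/-- node -/
def eP : Ex := .f 1 nd6 (-1) nd0
/-- node -/
def nd8 : Ex := .h .y
/-- node -/
def nd9 : Ex := .m nd6 nd8
/-- node -/
def nd10 : Ex := .m nd6 nd9
/-- node -/
def nd11 : Ex := .m nd2 nd10
/-- node -/
def nd12 : Ex := .h .t
/-- node -/
def nd13 : Ex := .m ez nd12
/-- node -/
def eN : Ex := .f 2 nd11 (-1) nd13
/-- node -/
def nd15 : Ex := .m nd8 nd12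
/-- node -/
def nd16 : Ex := .m nd6 nd15
/-- node -/
def nd17 : Ex := .m eP nd16
/-- node -/
def ePN : Ex := .f 2 nd17 1 eN
/-- node -/
def nd19 : Ex := .m nd0 nd6
/-- node -/
def nd20 : Ex := .f 2 nd19 (-1) nd3
/-- node -/
def nd21 : Ex := .m nd20 nd8
/-- node -/
def es : Ex := .f 1 nd21 1 ez
/-- node -/
def nd23 : Ex := .f 3 nd10 (-5) es
/-- node -/
def ew : Ex := .f 3 nd23 25 ez
/-- node -/
def eH : Ex := .f 1 eN 1 nd17
/-- node -/
def nd26 : Ex := .m eN eN
/-- node -/
def nd27 : Ex := .m eH eH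
/-- node -/
def nd28 : Ex := .m nd26 nd27
/-- node -/
def nd29 : Ex := .m ePN nd28
/-- node -/
def eLH : Ex := .m ew nd29
/-- node -/
def nd31 : Ex := .m eP eP
/-- node -/
def nd32 : Ex := .m nd31 nd31
/-- node -/
def ePf : Ex := .m eP nd32
/-- node -/
def eTT : Ex := .m nd2 nd2
/-- node -/
def eTh : Ex := .f 2 nd2 1 nd12
/-- node -/
def nd36 : Ex := .f 1 nd2 1 nd12
/-- node -/
def nd37 : Ex := .m eTh eTh
/-- node -/
def nd38 : Ex := .m nd37 eTT
/-- node -/
def eB : Ex := .m nd36 nd38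
/-- node -/
def nd40 : Ex := .f 1 nd12 (-2) nd2
/-- node -/
def nd41 : Ex := .f 50 nd12 3 nd40
/-- node -/
def nd42 : Ex := .m eB nd41
/-- node -/
def nd43 : Ex := .m es es
/-- node -/
def nd44 : Ex := .m nd10 nd10
/-- node -/
def nd45 : Ex := .m nd42 nd44
/-- node -/
def nd46 : Ex := .m nd12 nd12
/-- node -/
def nd47 : Ex := .m nd12 nd46
/-- node -/
def nd48 : Ex := .m nd47 nd47
/-- node -/
def nd49 : Ex := .m nd43 nd48
/-- node -/
def nd50 : Ex := .f 1 nd45 15 nd49
/-- node -/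
def eRH : Ex := .m nd50 ePf
/-- node -/
def nd52 : Ex := .m nd8 nd9
/-- node -/
def nd53 : Ex := .m nd9 nd9
/-- node -/
def nd54 : Ex := .m nd52 nd53
/-- node -/
def nd55 : Ex := .m eRH nd54
/-- node -/
def nd56 : Ex := .m eLH nd12
/-- node -/
def eg : Ex := .f 36 nd55 (-25) nd56

/-- real function of ez -/
noncomputable def f_ez (x y t : ℝ) : ℝ := y * (x * x)

theorem v_ez (x y t : ℝ) : val ez x y t = 1 * (f_ez x y t) := by
  simp only [nd0, nd1, nd3, ez, val_m, val_vx, val_vy]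
  unfold f_ez
  push_cast
  ring

/-- real function of eP -/
noncomputable def f_eP (x y t : ℝ) : ℝ := 1 - x

theorem v_eP (x y t : ℝ) : val eP x y t = 1 * (f_eP x y t) := by
  simp only [nd0, nd6, eP, val_f, val_h, val_vx]
  unfold f_eP
  push_cast
  ring

/-- real function of eN -/
noncomputable def f_eN (x y t : ℝ) : ℝ := t - ((1 / 2) * f_ez x y t)

theorem v_eN (x y t : ℝ) : val eN x y t = 2 * (f_eN x y t) := by
  simp only [nd2, nd6, nd8, nd9, nd10, nd11, nd12, nd13, eN, v_ez, val_f, val_h, val_m, val_vt]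
  unfold f_eN
  push_cast
  ring

/-- real function of ePN -/
noncomputable def f_ePN (x y t : ℝ) : ℝ := f_eP x y t + f_eN x y t

theorem v_ePN (x y t : ℝ) : val ePN x y t = 2 * (f_ePN x y t) := by
  simp only [nd6, nd8, nd12, nd15, nd16, nd17, ePN, v_eP, v_eN, val_f, val_h, val_m]
  unfold f_ePN
  push_cast
  ring

/-- real function of es -/
noncomputable def f_es (x y t : ℝ) : ℝ := ((2 * x) - (x * x)) + f_ez x y t

theorem v_es (x y t : ℝ) : val es x y t = 1 * (f_es x y t) := by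
  simp only [nd0, nd3, nd6, nd8, nd19, nd20, nd21, es, v_ez, val_f, val_h, val_m, val_vx]
  unfold f_es
  push_cast
  ring

/-- real function of ew -/
noncomputable def f_ew (x y t : ℝ) : ℝ := (1 - ((5 / 3) * f_es x y t)) + ((25 / 9) * f_ez x y t)

theorem v_ew (x y t : ℝ) : val ew x y t = 9 * (f_ew x y t) := by
  simp only [nd6, nd8, nd9, nd10, nd23, ew, v_ez, v_es, val_f, val_h, val_m]
  unfold f_ew
  push_cast
  ring

/-- real function of eH -/
noncomputable def f_eH (x y t : ℝ) : ℝ := f_eN x y t + ((1 / 2) * f_eP x y t)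

theorem v_eH (x y t : ℝ) : val eH x y t = 2 * (f_eH x y t) := by
  simp only [nd6, nd8, nd12, nd15, nd16, nd17, eH, v_eP, v_eN, val_f, val_h, val_m]
  unfold f_eH
  push_cast
  ring

/-- real function of eLH -/
noncomputable def f_eLH (x y t : ℝ) : ℝ := f_ew x y t * (f_ePN x y t * ((f_eN x y t * f_eN x y t) * (f_eH x y t * f_eH x y t)))

theorem v_eLH (x y t : ℝ) : val eLH x y t = 288 * (f_eLH x y t) := by
  simp only [nd26, nd27, nd28, nd29, eLH, v_eN, v_ePN, v_ew, v_eH, val_m]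
  unfold f_eLH
  push_cast
  ring

/-- real function of ePf -/
noncomputable def f_ePf (x y t : ℝ) : ℝ := f_eP x y t * ((f_eP x y t * f_eP x y t) * (f_eP x y t * f_eP x y t))

theorem v_ePf (x y t : ℝ) : val ePf x y t = 1 * (f_ePf x y t) := by
  simp only [nd31, nd32, ePf, v_eP, val_m]
  unfold f_ePf
  push_cast
  ring

/-- real function of eTT -/
noncomputable def f_eTT (x y t : ℝ) : ℝ := t * t

theorem v_eTT (x y t : ℝ) : val eTT x y t = 1 * (f_eTT x y t) := by
  simp only [nd2, eTT, val_m, val_vt]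
  unfold f_eTT
  push_cast
  ring

/-- real function of eTh -/
noncomputable def f_eTh (x y t : ℝ) : ℝ := t + (1 / 2)

theorem v_eTh (x y t : ℝ) : val eTh x y t = 2 * (f_eTh x y t) := by
  simp only [nd2, nd12, eTh, val_f, val_h, val_vt]
  unfold f_eTh
  push_cast
  ring

/-- real function of eB -/
noncomputable def f_eB (x y t : ℝ) : ℝ := (t + 1) * ((f_eTh x y t * f_eTh x y t) * f_eTT x y t)

theorem v_eB (x y t : ℝ) : val eB x y t = 4 * (f_eB x y t) := by
  simp only [nd2, nd12, nd36, nd37, nd38, eB, v_eTT, v_eTh, val_f, val_h, val_m, val_vt]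
  unfold f_eB
  push_cast
  ring

/-- real function of eRH -/
noncomputable def f_eRH (x y t : ℝ) : ℝ := ((f_eB x y t * (1 + ((3 / 25) * ((1 / 2) - t)))) + ((3 / 40) * (f_es x y t * f_es x y t))) * f_ePf x y t

theorem v_eRH (x y t : ℝ) : val eRH x y t = 200 * (f_eRH x y t) := by
  simp only [nd2, nd6, nd8, nd9, nd10, nd12, nd40, nd41, nd42, nd43, nd44, nd45, nd46, nd47, nd48, nd49, nd50, eRH, v_es, v_ePf, v_eB, val_f, val_h, val_m, val_vt]
  unfold f_eRH
  push_cast
  ring

/-- real function of eg -/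
noncomputable def f_eg (x y t : ℝ) : ℝ := f_eRH x y t - f_eLH x y t

theorem v_eg (x y t : ℝ) : val eg x y t = 7200 * (f_eg x y t) := by
  simp only [nd6, nd8, nd9, nd12, nd52, nd53, nd54, nd55, nd56, eg, v_eLH, v_eRH, val_f, val_h, val_m]
  unfold f_eg
  push_cast
  ring

/-- parameters -/
def P0 : Par := ⟨349, 12, 6, 6, 64000, 256, 2560, 3072, 512, 4608⟩

theorem hP0 : chkPar P0 eg = true := by decide +kernel

/-- subtree -/
def T0 : Tr := .lf
theorem hT0 : chkTr P0 eg T0 ⟨0, 1536, 0, 256, (-2304), (-1536)⟩ = true := by decide +kernel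

theorem region (x y t : ℝ) (hx0 : 0 ≤ x) (hx1 : x ≤ (3 / 125)) (hy0 : 0 ≤ y) (hy1 : y ≤ 1) (ht0 : ((-9) / 10) ≤ t) (ht1 : t ≤ ((-3) / 5)) :
    0 ≤ f_eg x y t := by
  have h1 := chkTr_sound P0 eg hP0 T0 ⟨0, 1536, 0, 256, (-2304), (-1536)⟩ hT0 x y t
    (by simp only [P0]; push_cast; linarith) (by simp only [P0]; push_cast; linarith)
    (by simp only [P0]; push_cast; linarith) (by simp only [P0]; push_cast; linarith)
    (by simp only [P0]; push_cast; linarith) (by simp only [P0]; push_cast; linarith)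
  rw [v_eg] at h1
  exact nonneg_of_mul_nonneg_right h1 (by norm_num)

end Pool.Agent.Lib.MP_f1379f_gt.FV.CNRC
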