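import Pool.Agent.Lib.MP_f1379f_gt.FV.BCH

/-!
# C2 of CNT, chart i
-/

set_option autoImplicit false
set_option linter.unusedVariables false
set_option linter.unusedSimpArgs false
set_option linter.unusedTactic false
set_option linter.style.longLine false
set_option maxRecDepth 100000

namespace Pool.Agent.Lib.MP_f1379f_gt.FV.CNRE

open Pool.Agent.Lib.MP_f1379f_gt.FV Pool.Agent.Lib.MP_f1379f_gt.FV.BCH 

/-- node -/
def nd0 : Ex := .v .x
/-- node -/
def nd1 : Ex := .v .y
/-- node -/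
def nd2 : Ex := .v .t
/-- node -/
def eh : Ex := .m nd1 nd0
/-- node -/
def nd5 : Ex := .h .x
/-- node -/
def eT : Ex := .f (-1) nd5 (-2) nd0
/-- node -/
def nd7 : Ex := .m eh eh
/-- node -/
def ez : Ex := .m nd2 nd7
/-- node -/
def nd9 : Ex := .h .y
/-- node -/
def nd10 : Ex := .m nd5 nd9
/-- node -/
def eP : Ex := .f 1 nd10 (-1) eh
/-- node -/
def nd12 : Ex := .h .t
/-- node -/
def nd13 : Ex := .m nd9 nd12
/-- node -/
def nd14 : Ex := .m nd5 nd13
/-- node -/
def nd15 : Ex := .m nd9 nd14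
/-- node -/
def nd16 : Ex := .m eT nd15
/-- node -/
def eN : Ex := .f 1 nd16 (-1) ez
/-- node -/
def nd18 : Ex := .m eP nd14
/-- node -/
def ePN : Ex := .f 2 nd18 1 eN
/-- node -/
def nd20 : Ex := .m eh nd10
/-- node -/
def nd21 : Ex := .f 2 nd20 (-1) nd7
/-- node -/
def nd22 : Ex := .m nd21 nd12
/-- node -/
def es : Ex := .f 1 nd22 1 ez
/-- node -/
def nd24 : Ex := .m nd10 nd14
/-- node -/
def nd25 : Ex := .f 3 nd24 (-5) es
/-- node -/
def ew : Ex := .f 3 nd25 25 ez
/-- node -/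
def eH : Ex := .f 1 eN 1 nd18
/-- node -/
def nd28 : Ex := .m eN eN
/-- node -/
def nd29 : Ex := .m eH eH
/-- node -/
def nd30 : Ex := .m nd28 nd29
/-- node -/
def nd31 : Ex := .m ePN nd30
/-- node -/
def eLH : Ex := .m ew nd31
/-- node -/
def nd33 : Ex := .m eP eP
/-- node -/
def nd34 : Ex := .m nd33 nd33
/-- node -/
def ePf : Ex := .m eP nd34
/-- node -/
def eTT : Ex := .m eT eT
/-- node -/
def eTh : Ex := .f 1 eT 1 nd5
/-- node -/
def nd38 : Ex := .f 1 eT 2 nd5
/-- node -/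
def nd39 : Ex := .m eTh eTh
/-- node -/
def nd40 : Ex := .m nd39 eTT
/-- node -/
def eB : Ex := .m nd38 nd40
/-- node -/
def nd42 : Ex := .f 1 nd5 (-1) eT
/-- node -/
def nd43 : Ex := .f 50 nd5 3 nd42
/-- node -/
def nd44 : Ex := .m eB nd43
/-- node -/
def nd45 : Ex := .m es es
/-- node -/
def nd46 : Ex := .m nd9 nd13
/-- node -/
def nd47 : Ex := .m nd46 nd46
/-- node -/
def nd48 : Ex := .m nd44 nd47
/-- node -/
def nd49 : Ex := .m nd5 nd5
/-- node -/
def nd50 : Ex := .m nd45 nd49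
/-- node -/
def nd51 : Ex := .f 1 nd48 120 nd50
/-- node -/
def eRH : Ex := .m nd51 ePf
/-- node -/
def nd53 : Ex := .m nd12 nd13
/-- node -/
def nd54 : Ex := .m nd13 nd14
/-- node -/
def nd55 : Ex := .m nd53 nd54
/-- node -/
def nd56 : Ex := .m eRH nd55
/-- node -/
def eg : Ex := .f 9 nd56 (-50) eLH

/-- real function of eh -/
noncomputable def f_eh (x y t : ℝ) : ℝ := y * x

theorem v_eh (x y t : ℝ) : val eh x y t = 1 * (f_eh x y t) := by
  simp only [nd0, nd1, eh, val_m, val_vx, val_vy]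
  unfold f_eh
  push_cast
  ring

/-- real function of ez -/
noncomputable def f_ez (x y t : ℝ) : ℝ := t * (f_eh x y t * f_eh x y t)

theorem v_ez (x y t : ℝ) : val ez x y t = 1 * (f_ez x y t) := by
  simp only [nd2, nd7, ez, v_eh, val_m, val_vt]
  unfold f_ez
  push_cast
  ring

/-- real function of eP -/
noncomputable def f_eP (x y t : ℝ) : ℝ := 1 - f_eh x y t

theorem v_eP (x y t : ℝ) : val eP x y t = 1 * (f_eP x y t) := by
  simp only [nd5, nd9, nd10, eP, v_eh, val_f, val_h, val_m]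
  unfold f_eP
  push_cast
  ring

/-- real function of eT -/
noncomputable def f_eT (x y t : ℝ) : ℝ := ((-1) / 2) - x

theorem v_eT (x y t : ℝ) : val eT x y t = 2 * (f_eT x y t) := by
  simp only [nd0, nd5, eT, val_f, val_h, val_vx]
  unfold f_eT
  push_cast
  ring

/-- real function of eN -/
noncomputable def f_eN (x y t : ℝ) : ℝ := f_eT x y t - ((1 / 2) * f_ez x y t)

theorem v_eN (x y t : ℝ) : val eN x y t = 2 * (f_eN x y t) := by
  simp only [nd5, nd9, nd12, nd13, nd14, nd15, nd16, eN, v_eT, v_ez, val_f, val_h, val_m]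
  unfold f_eN
  push_cast
  ring

/-- real function of ePN -/
noncomputable def f_ePN (x y t : ℝ) : ℝ := f_eP x y t + f_eN x y t

theorem v_ePN (x y t : ℝ) : val ePN x y t = 2 * (f_ePN x y t) := by
  simp only [nd5, nd9, nd12, nd13, nd14, nd18, ePN, v_eP, v_eN, val_f, val_h, val_m]
  unfold f_ePN
  push_cast
  ring

/-- real function of es -/
noncomputable def f_es (x y t : ℝ) : ℝ := ((2 * f_eh x y t) - (f_eh x y t * f_eh x y t)) + f_ez x y t

theorem v_es (x y t : ℝ) : val es x y t = 1 * (f_es x y t) := by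
  simp only [nd5, nd7, nd9, nd10, nd12, nd20, nd21, nd22, es, v_eh, v_ez, val_f, val_h, val_m]
  unfold f_es
  push_cast
  ring

/-- real function of ew -/
noncomputable def f_ew (x y t : ℝ) : ℝ := (1 - ((5 / 3) * f_es x y t)) + ((25 / 9) * f_ez x y t)

theorem v_ew (x y t : ℝ) : val ew x y t = 9 * (f_ew x y t) := by
  simp only [nd5, nd9, nd10, nd12, nd13, nd14, nd24, nd25, ew, v_ez, v_es, val_f, val_h, val_m]
  unfold f_ew
  push_cast
  ring

/-- real function of eH -/
noncomputable def f_eH (x y t : ℝ) : ℝ := f_eN x y t + ((1 / 2) * f_eP x y t)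

theorem v_eH (x y t : ℝ) : val eH x y t = 2 * (f_eH x y t) := by
  simp only [nd5, nd9, nd12, nd13, nd14, nd18, eH, v_eP, v_eN, val_f, val_h, val_m]
  unfold f_eH
  push_cast
  ring

/-- real function of eLH -/
noncomputable def f_eLH (x y t : ℝ) : ℝ := f_ew x y t * (f_ePN x y t * ((f_eN x y t * f_eN x y t) * (f_eH x y t * f_eH x y t)))

theorem v_eLH (x y t : ℝ) : val eLH x y t = 288 * (f_eLH x y t) := by
  simp only [nd28, nd29, nd30, nd31, eLH, v_eN, v_ePN, v_ew, v_eH, val_m]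
  unfold f_eLH
  push_cast
  ring

/-- real function of ePf -/
noncomputable def f_ePf (x y t : ℝ) : ℝ := f_eP x y t * ((f_eP x y t * f_eP x y t) * (f_eP x y t * f_eP x y t))

theorem v_ePf (x y t : ℝ) : val ePf x y t = 1 * (f_ePf x y t) := by
  simp only [nd33, nd34, ePf, v_eP, val_m]
  unfold f_ePf
  push_cast
  ring

/-- real function of eTT -/
noncomputable def f_eTT (x y t : ℝ) : ℝ := f_eT x y t * f_eT x y t

theorem v_eTT (x y t : ℝ) : val eTT x y t = 4 * (f_eTT x y t) := by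
  simp only [eTT, v_eT, val_m]
  unfold f_eTT
  push_cast
  ring

/-- real function of eTh -/
noncomputable def f_eTh (x y t : ℝ) : ℝ := f_eT x y t + (1 / 2)

theorem v_eTh (x y t : ℝ) : val eTh x y t = 2 * (f_eTh x y t) := by
  simp only [nd5, eTh, v_eT, val_f, val_h]
  unfold f_eTh
  push_cast
  ring

/-- real function of eB -/
noncomputable def f_eB (x y t : ℝ) : ℝ := (f_eT x y t + 1) * ((f_eTh x y t * f_eTh x y t) * f_eTT x y t)

theorem v_eB (x y t : ℝ) : val eB x y t = 32 * (f_eB x y t) := by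
  simp only [nd5, nd38, nd39, nd40, eB, v_eT, v_eTT, v_eTh, val_f, val_h, val_m]
  unfold f_eB
  push_cast
  ring

/-- real function of eRH -/
noncomputable def f_eRH (x y t : ℝ) : ℝ := ((f_eB x y t * (1 + ((3 / 25) * ((1 / 2) - f_eT x y t)))) + ((3 / 40) * (f_es x y t * f_es x y t))) * f_ePf x y t

theorem v_eRH (x y t : ℝ) : val eRH x y t = 1600 * (f_eRH x y t) := by
  simp only [nd5, nd9, nd12, nd13, nd42, nd43, nd44, nd45, nd46, nd47, nd48, nd49, nd50, nd51, eRH, v_eT, v_es, v_ePf, v_eB, val_f, val_h, val_m]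
  unfold f_eRH
  push_cast
  ring

/-- real function of eg -/
noncomputable def f_eg (x y t : ℝ) : ℝ := f_eRH x y t - f_eLH x y t

theorem v_eg (x y t : ℝ) : val eg x y t = 14400 * (f_eg x y t) := by
  simp only [nd5, nd9, nd12, nd13, nd14, nd53, nd54, nd55, nd56, eg, v_eLH, v_eRH, val_f, val_h, val_m]
  unfold f_eg
  push_cast
  ring

/-- parameters -/
def P0 : Par := ⟨342, 12, 12, 6, 6400, 256, 256, 1280, 512, 512⟩

theorem hP0 : chkPar P0 eg = true := by decide +kernel

/-- subtree -/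
def T0 : Tr := (.sy 128 (.st 128 (.sy 64 .lf .lf) (.sy 64 .lf .lf)) .lf)
theorem hT0 : chkTr P0 eg T0 ⟨0, 640, 0, 256, 0, 256⟩ = true := by decide +kernel

theorem region (x y t : ℝ) (hx0 : 0 ≤ x) (hx1 : x ≤ (1 / 10)) (hy0 : 0 ≤ y) (hy1 : y ≤ 1) (ht0 : 0 ≤ t) (ht1 : t ≤ 1) :
    0 ≤ f_eg x y t := by
  have h1 := chkTr_sound P0 eg hP0 T0 ⟨0, 640, 0, 256, 0, 256⟩ hT0 x y t
    (by simp only [P0]; push_cast; linarith) (by simp only [P0]; push_cast; linarith)
    (by simp only [P0]; push_cast; linarith) (by simp only [P0]; push_cast; linarith)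
    (by simp only [P0]; push_cast; linarith) (by simp only [P0]; push_cast; linarith)
  rw [v_eg] at h1
  exact nonneg_of_mul_nonneg_right h1 (by norm_num)

end Pool.Agent.Lib.MP_f1379f_gt.FV.CNRE
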