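import Pool.Agent.Lib.MP_f1379f_gt.FV.CertDefs
import Pool.Agent.Lib.MP_f1379f_gt.FV.CNRA
import Pool.Agent.Lib.MP_f1379f_gt.FV.CNRB
import Pool.Agent.Lib.MP_f1379f_gt.FV.CNRC
import Pool.Agent.Lib.MP_f1379f_gt.FV.CNRD
import Pool.Agent.Lib.MP_f1379f_gt.FV.CNRE
import Pool.Agent.Lib.MP_f1379f_gt.FV.CNRF
import Pool.Agent.Lib.MP_f1379f_gt.FV.SpecS2
import Pool.Agent.Lib.MP_f1379f_gt.FV.CEX
import Pool.Agent.Lib.MP_f1379f_gt.FV.NRP
import Pool.Agent.Lib.MP_f1379f_gt.FV.KIA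

section
/-!
# MP_f1379f_gt, full Q1: the two real inequalities (C1), (C2) of CNT
-/
set_option autoImplicit false

namespace Pool.Agent.Lib.MP_f1379f_gt.FV
namespace CNRM

/-- The polynomial of (C1), `h = 1 - sqrt ((1-x)(1-y))`, `z = xy`. -/
noncomputable def G1 (h z w : ℝ) : ℝ :=
  (3 / 8 - 11 / 5 * w) * (1 - h) ^ 5 - (1 - 5 / 3 * (2 * h - h ^ 2 + z) + 25 / 9 * z) *
    (((1 - h) + (1 / 2 - w - z / 2)) * (1 / 2 - w - z / 2) ^ 2 *
      ((1 / 2 - w - z / 2) + (1 - h) / 2) ^ 2)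

/-- The polynomial of (C2). -/
noncomputable def G2 (h z T : ℝ) : ℝ :=
  ((T + 1) * (T + 1 / 2) ^ 2 * T ^ 2 * (1 + 3 / 25 * (1 / 2 - T)) +
      3 / 40 * (2 * h - h ^ 2 + z) ^ 2) * (1 - h) ^ 5 -
    (1 - 5 / 3 * (2 * h - h ^ 2 + z) + 25 / 9 * z) *
    (((1 - h) + (T - z / 2)) * (T - z / 2) ^ 2 * ((T - z / 2) + (1 - h) / 2) ^ 2)

lemma G1_nonneg (h r w : ℝ) (h0 : 0 ≤ h) (h1 : h ≤ 3 / 125) (r0 : 0 ≤ r) (r1 : r ≤ 1)
    (w0 : 0 ≤ w) (w1 : w ≤ 1 / 20) : 0 ≤ G1 h (r * h ^ 2) w := by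
  have e := CNRA.region h r w (by linarith) (by linarith) (by linarith) (by linarith)
    (by linarith) (by linarith)
  have e2 : G1 h (r * h ^ 2) w = CNRA.f_eg h r w := by
    unfold G1 CNRA.f_eg CNRA.f_eRH CNRA.f_eLH CNRA.f_ePf CNRA.f_eH CNRA.f_ew CNRA.f_es
      CNRA.f_ePN CNRA.f_eN CNRA.f_eT CNRA.f_eP CNRA.f_ez
    ring
  rw [e2]
  exact e

lemma G2_B (h r T : ℝ) (h0 : 0 ≤ h) (h1 : h ≤ 3 / 125) (r0 : 0 ≤ r) (r1 : r ≤ 1)
    (t0 : -1 / 2 ≤ T) (t1 : T ≤ 9 / 20) : 0 ≤ G2 h (r * h ^ 2) T := by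
  have e := CNRB.region h r T (by linarith) (by linarith) (by linarith) (by linarith)
    (by linarith) (by linarith)
  have e2 : G2 h (r * h ^ 2) T = CNRB.f_eg h r T := by
    unfold G2 CNRB.f_eg CNRB.f_eRH CNRB.f_eB CNRB.f_eTh CNRB.f_eTT CNRB.f_eLH CNRB.f_ePf
      CNRB.f_eH CNRB.f_ew CNRB.f_es CNRB.f_ePN CNRB.f_eN CNRB.f_eP CNRB.f_ez
    ring
  rw [e2]
  exact e

lemma G2_C (h r T : ℝ) (h0 : 0 ≤ h) (h1 : h ≤ 3 / 125) (r0 : 0 ≤ r) (r1 : r ≤ 1)
    (t0 : -9 / 10 ≤ T) (t1 : T ≤ -3 / 5) : 0 ≤ G2 h (r * h ^ 2) T := by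
  have e := CNRC.region h r T (by linarith) (by linarith) (by linarith) (by linarith)
    (by linarith) (by linarith)
  have e2 : G2 h (r * h ^ 2) T = CNRC.f_eg h r T := by
    unfold G2 CNRC.f_eg CNRC.f_eRH CNRC.f_eB CNRC.f_eTh CNRC.f_eTT CNRC.f_eLH CNRC.f_ePf
      CNRC.f_eH CNRC.f_ew CNRC.f_es CNRC.f_ePN CNRC.f_eN CNRC.f_eP CNRC.f_ez
    ring
  rw [e2]
  exact e

lemma G2_D (h r s : ℝ) (h0 : 0 ≤ h) (h1 : h ≤ 3 / 125) (r0 : 0 ≤ r) (r1 : r ≤ 1)
    (s0 : 0 ≤ s) (s1 : s ≤ 1 / 10) : 0 ≤ G2 h (r * h ^ 2) (-(1 - h) + r * h ^ 2 / 2 + s) := by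
  have e := CNRD.region h r s (by linarith) (by linarith) (by linarith) (by linarith)
    (by linarith) (by linarith)
  have e2 : G2 h (r * h ^ 2) (-(1 - h) + r * h ^ 2 / 2 + s) = CNRD.f_eg h r s := by
    unfold G2 CNRD.f_eg CNRD.f_eRH CNRD.f_eB CNRD.f_eTh CNRD.f_eTT CNRD.f_eLH CNRD.f_ePf
      CNRD.f_eH CNRD.f_ew CNRD.f_es CNRD.f_eN CNRD.f_eT CNRD.f_eP CNRD.f_ez
    ring
  rw [e2]
  exact e

lemma G2_E (v s r : ℝ) (v0 : 0 ≤ v) (v1 : v ≤ 1 / 10) (s0 : 0 ≤ s) (s1 : s ≤ 1) (r0 : 0 ≤ r)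
    (r1 : r ≤ 1) : 0 ≤ G2 (s * v) (r * (s * v) ^ 2) (-1 / 2 - v) := by
  have e := CNRE.region v s r (by linarith) (by linarith) (by linarith) (by linarith)
    (by linarith) (by linarith)
  have e2 : G2 (s * v) (r * (s * v) ^ 2) (-1 / 2 - v) = CNRE.f_eg v s r := by
    unfold G2 CNRE.f_eg CNRE.f_eRH CNRE.f_eB CNRE.f_eTh CNRE.f_eTT CNRE.f_eLH CNRE.f_ePf
      CNRE.f_eH CNRE.f_ew CNRE.f_es CNRE.f_ePN CNRE.f_eN CNRE.f_eT CNRE.f_eP CNRE.f_ez CNRE.f_eh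
    ring
  rw [e2]
  exact e

lemma G2_F (h s r : ℝ) (h0 : 0 ≤ h) (h1 : h ≤ 3 / 125) (s0 : 0 ≤ s) (s1 : s ≤ 1) (r0 : 0 ≤ r)
    (r1 : r ≤ 1) : 0 ≤ G2 h (r * h ^ 2) (-1 / 2 - s * h) := by
  have e := CNRF.region h s r (by linarith) (by linarith) (by linarith) (by linarith)
    (by linarith) (by linarith)
  have e2 : G2 h (r * h ^ 2) (-1 / 2 - s * h) = CNRF.f_eg h s r := by
    unfold G2 CNRF.f_eg CNRF.f_eRH CNRF.f_eB CNRF.f_eTh CNRF.f_eTT CNRF.f_eLH CNRF.f_ePf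
      CNRF.f_eH CNRF.f_ew CNRF.f_es CNRF.f_ePN CNRF.f_eN CNRF.f_eT CNRF.f_eP CNRF.f_ez
    ring
  rw [e2]
  exact e

/-- The change of variables. -/
lemma vars (x y : ℝ) (hx : 0 ≤ x) (hy : 0 ≤ y) (hxy : x + y ≤ 7 / 150) :
    ∃ P r : ℝ, P = Real.sqrt ((1 - x) * (1 - y)) ∧ 122 / 125 ≤ P ∧ P ≤ 1 ∧ 0 ≤ r ∧ r ≤ 1 ∧
      x * y = r * (1 - P) ^ 2 ∧ x + y = 2 * (1 - P) - (1 - P) ^ 2 + r * (1 - P) ^ 2 := by
  have h0 : 0 ≤ (1 - x) * (1 - y) := mul_nonneg (by linarith) (by linarith)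
  set P := Real.sqrt ((1 - x) * (1 - y)) with hP
  have hP0 : 0 ≤ P := Real.sqrt_nonneg _
  have hP2 : P ^ 2 = (1 - x) * (1 - y) := Real.sq_sqrt h0
  have hxy0 : 0 ≤ x * y := mul_nonneg hx hy
  have hP1 : P ≤ 1 - (x + y) / 2 := by
    apply Real.sqrt_le_iff.2
    constructor
    · linarith
    · nlinarith [sq_nonneg (x - y)]
  have hP3 : 122 / 125 ≤ P := by
    apply Real.le_sqrt_of_sq_le
    nlinarith
  have hz : x * y ≤ (1 - P) ^ 2 := by nlinarith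
  rcases eq_or_lt_of_le (show 0 ≤ 1 - P by linarith) with h1 | h1
  · refine ⟨P, 0, rfl, hP3, by linarith, le_refl _, by norm_num, ?_, ?_⟩
    · rw [← h1] at hz ⊢
      nlinarith
    · rw [← h1] at hz
      have h2 : P = 1 := by linarith
      have h3 : x * y = 0 := by nlinarith
      rw [h2] at hP2 ⊢
      nlinarith
  · have h2 : (0 : ℝ) < (1 - P) ^ 2 := by positivity
    refine ⟨P, x * y / (1 - P) ^ 2, rfl, hP3, by linarith, by positivity, ?_, ?_, ?_⟩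
    · rw [div_le_one h2]
      exact hz
    · field_simp
    · rw [div_mul_cancel₀ _ h2.ne']
      nlinarith

end CNRM

open CNRM in
/-- (C1) of CNT. -/
theorem cnt1 (x y T c : ℝ) (hx : 0 ≤ x) (hy : 0 ≤ y) (hxy : x + y ≤ 7 / 150) (hT0 : 9 / 20 ≤ T)
    (hT1 : T ≤ 1 / 2) (hc : c = (T - x * y / 2) / Real.sqrt ((1 - x) * (1 - y))) :
    (1 - 5 / 3 * x) * (1 - 5 / 3 * y) * base c ≤ 3 / 8 - 11 / 5 * (1 / 2 - T) := by
  obtain ⟨P, r, hP, hP0, hP1, r0, r1, hz, hs⟩ := vars x y hx hy hxy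
  rw [← hP] at hc
  have hPp : 0 < P := by linarith
  have hN : T - x * y / 2 = c * P := by
    rw [hc]
    field_simp
  have hg := G1_nonneg (1 - P) r (1 / 2 - T) (by linarith) (by linarith) r0 r1 (by linarith)
    (by linarith)
  rw [← hz] at hg
  have e1 : (1 - 5 / 3 * x) * (1 - 5 / 3 * y) =
      1 - 5 / 3 * (2 * (1 - P) - (1 - P) ^ 2 + x * y) + 25 / 9 * (x * y) := by
    rw [hz, ← hs, ← hz]
    ring
  have e2 : G1 (1 - P) (x * y) (1 / 2 - T) =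
      P ^ 5 * ((3 / 8 - 11 / 5 * (1 / 2 - T)) - (1 - 5 / 3 * x) * (1 - 5 / 3 * y) * base c) := by
    rw [e1]
    unfold G1 base
    have e3 : 1 / 2 - (1 / 2 - T) - x * y / 2 = c * P := by linarith
    rw [e3]
    ring
  rw [e2] at hg
  have h5 := nonneg_of_mul_nonneg_right hg (by positivity)
  linarith

open CNRM in
/-- (C2) of CNT. -/
theorem cnt2 (x y T c : ℝ) (hx : 0 ≤ x) (hy : 0 ≤ y) (hxy : x + y ≤ 7 / 150)
    (hc : c = (T - x * y / 2) / Real.sqrt ((1 - x) * (1 - y))) (hc1 : -1 ≤ c)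
    (hT1 : T ≤ 9 / 20) :
    (1 - 5 / 3 * x) * (1 - 5 / 3 * y) * base c ≤
      base T + 3 / 25 * base T * (1 / 2 - T) + 3 / 40 * (x + y) ^ 2 := by
  obtain ⟨P, r, hP, hP0, hP1, r0, r1, hz, hs⟩ := vars x y hx hy hxy
  rw [← hP] at hc
  have hPp : 0 < P := by linarith
  have hN : T - x * y / 2 = c * P := by
    rw [hc]
    field_simp
  have hg : 0 ≤ G2 (1 - P) (r * (1 - P) ^ 2) T := by
    rcases le_total (-1 / 2) T with h1 | h1
    · exact G2_B _ _ _ (by linarith) (by linarith) r0 r1 h1 hT1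
    rcases le_total (-3 / 5) T with h2 | h2
    · rcases eq_or_lt_of_le h1 with h3 | h3
      · exact G2_B _ _ _ (by linarith) (by linarith) r0 r1 (by linarith) hT1
      · rcases le_total (1 - P) (-1 / 2 - T) with h4 | h4
        · have h5 : 0 < -1 / 2 - T := by linarith
          have h6 := G2_E (-1 / 2 - T) ((1 - P) / (-1 / 2 - T)) r h5.le (by linarith)
            (div_nonneg (by linarith) h5.le) ((div_le_one h5).2 h4) r0 r1
          rw [div_mul_cancel₀ _ h5.ne', sub_sub_cancel] at h6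
          exact h6
        · have h5 : 0 < 1 - P := by linarith
          have h6 := G2_F (1 - P) ((-1 / 2 - T) / (1 - P)) r h5.le (by linarith)
            (div_nonneg (by linarith) h5.le) ((div_le_one h5).2 h4) r0 r1
          rw [div_mul_cancel₀ _ h5.ne', sub_sub_cancel] at h6
          exact h6
    rcases le_total (-9 / 10) T with h3 | h3
    · exact G2_C _ _ _ (by linarith) (by linarith) r0 r1 h3 h2
    · have h4 : 0 ≤ T - x * y / 2 + P := by
        rw [hN]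
        nlinarith
      have hxy0 : 0 ≤ x * y := mul_nonneg hx hy
      have h5 := G2_D (1 - P) r (T + P - r * (1 - P) ^ 2 / 2) (by linarith) (by linarith) r0 r1
        (by rw [← hz]; linarith) (by rw [← hz]; linarith)
      have h6 : -(1 - (1 - P)) + r * (1 - P) ^ 2 / 2 + (T + P - r * (1 - P) ^ 2 / 2) = T := by
        ring
      rw [h6] at h5
      exact h5
  rw [← hz] at hg
  have e1 : (1 - 5 / 3 * x) * (1 - 5 / 3 * y) =
      1 - 5 / 3 * (2 * (1 - P) - (1 - P) ^ 2 + x * y) + 25 / 9 * (x * y) := by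
    rw [hz, ← hs, ← hz]
    ring
  have e4 : x + y = 2 * (1 - P) - (1 - P) ^ 2 + x * y := by rw [hz]; exact hs
  have e2 : G2 (1 - P) (x * y) T =
      P ^ 5 * ((base T + 3 / 25 * base T * (1 / 2 - T) + 3 / 40 * (x + y) ^ 2) -
        (1 - 5 / 3 * x) * (1 - 5 / 3 * y) * base c) := by
    rw [e1, e4]
    unfold G2 base
    rw [hN]
    ring
  rw [e2] at hg
  have h5 := nonneg_of_mul_nonneg_right hg (by positivity)
  linarith

end Pool.Agent.Lib.MP_f1379f_gt.FV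
end

section
/-!
# MP_f1379f_gt, full Q1, block STAB1: the number of missing contacts (CNT)
-/
set_option autoImplicit false

namespace Pool.Agent.Lib.MP_f1379f_gt.FV

open Finset

namespace CNTM

/-- Two different members. -/
lemma pair_le {S : Finset E} {f : E → ℝ} (h0 : ∀ u ∈ S, 0 ≤ f u) {u v : E} (hu : u ∈ S)
    (hv : v ∈ S) (huv : u ≠ v) : f u + f v ≤ ∑ w ∈ S, f w := by
  have h1 : ({u, v} : Finset E) ⊆ S := by
    intro w hw
    rw [mem_insert, mem_singleton] at hw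
    rcases hw with rfl | rfl
    · exact hu
    · exact hv
  have h2 : ∑ w ∈ ({u, v} : Finset E), f w = f u + f v := sum_pair huv
  rw [← h2]
  exact sum_le_sum_of_subset_of_nonneg h1 fun w hw _ => h0 w hw

/-- Sum of squares. -/
lemma sq_le (S : Finset E) (f : E → ℝ) (h0 : ∀ u ∈ S, 0 ≤ f u) :
    ∑ u ∈ S, f u ^ 2 ≤ (∑ u ∈ S, f u) ^ 2 := by
  rw [sq (∑ u ∈ S, f u), sum_mul]
  refine sum_le_sum fun u hu => ?_
  rw [sq]
  exact mul_le_mul_of_nonneg_left (single_le_sum h0 hu) (h0 u hu)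

/-- The diagonal and the weights. -/
lemma weights (S : Finset E) (f : E → ℝ) (hc : S.card = 240) (h0 : ∀ u ∈ S, 0 ≤ f u)
    (hX : ∑ u ∈ S, f u ≤ 7 / 150) :
    5040 - 70 * ∑ u ∈ S, f u - 273 / 10000 ≤
      17 / 160 * (∑ u ∈ S, (1 - 5 / 3 * f u)) ^ 2 - ∑ u ∈ S, 9 / 2 * (1 - 5 / 3 * f u) ^ 2 := by
  have e1 : ∑ u ∈ S, (1 - 5 / 3 * f u) = 240 - 5 / 3 * ∑ u ∈ S, f u := by
    rw [sum_sub_distrib, ← mul_sum, sum_const, hc, nsmul_eq_mul]
    norm_num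
  have e2 : ∑ u ∈ S, 9 / 2 * (1 - 5 / 3 * f u) ^ 2 =
      1080 - 15 * (∑ u ∈ S, f u) + 25 / 2 * ∑ u ∈ S, f u ^ 2 := by
    have e3 : ∀ u ∈ S, 9 / 2 * (1 - 5 / 3 * f u) ^ 2 =
        9 / 2 - 15 * f u + 25 / 2 * f u ^ 2 := fun u _ => by ring
    rw [sum_congr rfl e3, sum_add_distrib, sum_sub_distrib, ← mul_sum, ← mul_sum, sum_const, hc,
      nsmul_eq_mul]
    norm_num
  have h1 := sq_le S f h0
  have h2 : 0 ≤ ∑ u ∈ S, f u := sum_nonneg h0
  rw [e1, e2]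
  generalize ∑ u ∈ S, f u ^ 2 = Q at h1 ⊢
  generalize ∑ u ∈ S, f u = X at h1 h2 hX ⊢
  nlinarith

/-- The sum of the squares of `x u + x v`. -/
lemma cross (S : Finset E) (f : E → ℝ) (hc : S.card = 240) (h0 : ∀ u ∈ S, 0 ≤ f u)
    (hX : ∑ u ∈ S, f u ≤ 7 / 150) :
    ∑ u ∈ S, ∑ v ∈ S.erase u, (f u + f v) ^ 2 ≤ 1042 / 1000 := by
  have e0 : ∀ u ∈ S, ∑ v ∈ S.erase u, (f u + f v) ^ 2 =
      236 * f u ^ 2 + 2 * f u * (∑ v ∈ S, f v) + ∑ v ∈ S, f v ^ 2 := by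
    intro u hu
    have e1 : ∑ v ∈ S.erase u, (f u + f v) ^ 2 = ∑ v ∈ S, (f u + f v) ^ 2 - (f u + f u) ^ 2 := by
      rw [← add_sum_erase S (fun v => (f u + f v) ^ 2) hu]
      ring
    have e2 : ∀ v ∈ S, (f u + f v) ^ 2 = f u ^ 2 + 2 * f u * f v + f v ^ 2 := fun v _ => by ring
    rw [e1, sum_congr rfl e2, sum_add_distrib, sum_add_distrib, ← mul_sum, sum_const, hc,
      nsmul_eq_mul]
    push_cast
    ring
  rw [sum_congr rfl e0, sum_add_distrib, sum_add_distrib, ← mul_sum, ← sum_mul, ← mul_sum,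
    sum_const, hc, nsmul_eq_mul]
  have h1 := sq_le S f h0
  have h2 : 0 ≤ ∑ u ∈ S, f u := sum_nonneg h0
  generalize ∑ u ∈ S, f u ^ 2 = Q at h1 ⊢
  generalize ∑ u ∈ S, f u = X at h1 h2 hX ⊢
  push_cast
  nlinarith

lemma norm_eq {u : E} (h : xr u ≤ 1) : ‖u‖ = Real.sqrt (1 - xr u) := by
  have h1 : 1 - xr u = ‖u‖ ^ 2 := by unfold xr; ring
  rw [h1, Real.sqrt_sq (norm_nonneg u)]

lemma ct_eq {u v : E} (hu : xr u ≤ 1) (hv : xr v ≤ 1) :
    KI.ct u v = (TT u v - xr u * xr v / 2) / Real.sqrt ((1 - xr u) * (1 - xr v)) := by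
  have h1 : TT u v - xr u * xr v / 2 = (inner ℝ u v : ℝ) := by
    unfold TT xr
    ring
  rw [h1, Real.sqrt_mul (by linarith), ← norm_eq hu, ← norm_eq hv]
  rfl

end CNTM

open CNTM in
theorem specCNT (hRBD : SpecRBD) : SpecCNT := by
  classical
  intro U hU hW
  have hcard := (near_set U hU hW).1
  have hx0 : ∀ u ∈ nearS U, 0 ≤ xr u := hRBD.pos U hU hW
  have hX : ∑ u ∈ nearS U, xr u ≤ 7 / 150 := hRBD.sum U hU hW
  have hsl0 : ∀ u ∈ nearS U, ∀ v ∈ nearS U, u ≠ v → 0 ≤ sl u v := hRBD.sl0 U hU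
  have hphi := hRBD.phi U hU hW
  have hx1 : ∀ u ∈ nearS U, xr u ≤ 7 / 150 := fun u hu => (single_le_sum hx0 hu).trans hX
  have hne : ∀ u ∈ nearS U, u ≠ 0 := by
    intro u hu h
    have h1 := hx1 u hu
    rw [h] at h1
    unfold xr at h1
    rw [norm_zero] at h1
    norm_num at h1
  generalize hS : nearS U = S at hcard hx0 hX hsl0 hphi hx1 hne ⊢
  have hNB : ∀ x, NB U x = S.filter fun b => b ≠ x ∧ 9 / 20 ≤ TT x b := by
    intro x
    unfold NB
    rw [hS]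
  have hsplit : ∀ f : E → ℝ, ∀ x : E, ∑ v ∈ S.erase x, f v =
      ∑ b ∈ NB U x, f b + ∑ b ∈ S.filter (fun b => b ≠ x ∧ ¬ 9 / 20 ≤ TT x b), f b := by
    intro f x
    rw [← sum_filter_add_sum_filter_not (S.erase x) (fun b => 9 / 20 ≤ TT x b), hNB]
    congr 1
    · apply sum_congr _ (fun _ _ => rfl)
      ext b
      simp only [mem_filter, mem_erase]
      tauto
    · apply sum_congr _ (fun _ _ => rfl)
      ext b
      simp only [mem_filter, mem_erase]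
      tauto
  -- the rows
  have hct1 : ∀ u v : E, -1 ≤ KI.ct u v := KI.neg_one_le_ct
  have hrow : ∀ x ∈ S, ∑ v ∈ S, (1 - 5 / 3 * xr x) * (1 - 5 / 3 * xr v) * base (KI.ct x v) ≤
      9 / 2 * (1 - 5 / 3 * xr x) ^ 2 + (3 / 8 * ((NB U x).card : ℝ) - 11 / 5 * SX U x) +
      (∑ b ∈ S.filter (fun b => b ≠ x ∧ ¬ 9 / 20 ≤ TT x b), base (TT x b)) +
      3 / 25 * (∑ v ∈ S.erase x, base (TT x v) * (1 / 2 - TT x v)) +
      3 / 40 * ∑ v ∈ S.erase x, (xr x + xr v) ^ 2 := by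
    intro x hx
    rw [← add_sum_erase S _ hx]
    have e1 : (1 - 5 / 3 * xr x) * (1 - 5 / 3 * xr x) * base (KI.ct x x) =
        9 / 2 * (1 - 5 / 3 * xr x) ^ 2 := by
      rw [KI.ct_self (hne x hx)]
      unfold base
      ring
    rw [e1, hsplit (fun v => (1 - 5 / 3 * xr x) * (1 - 5 / 3 * xr v) * base (KI.ct x v)) x]
    have h1 : ∑ b ∈ NB U x, (1 - 5 / 3 * xr x) * (1 - 5 / 3 * xr b) * base (KI.ct x b) ≤
        3 / 8 * ((NB U x).card : ℝ) - 11 / 5 * SX U x := by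
      have e2 : 3 / 8 * ((NB U x).card : ℝ) - 11 / 5 * SX U x =
          ∑ b ∈ NB U x, (3 / 8 - 11 / 5 * sl x b) := by
        rw [sum_sub_distrib, ← mul_sum, sum_const, nsmul_eq_mul]
        unfold SX
        ring
      rw [e2]
      refine sum_le_sum fun b hb => ?_
      rw [hNB, mem_filter] at hb
      obtain ⟨hb, hbx, hb9⟩ := hb
      have h2 := hsl0 x hx b hb (fun h => hbx h.symm)
      unfold sl at h2
      have h3 := cnt1 (xr x) (xr b) (TT x b) (KI.ct x b) (hx0 x hx) (hx0 b hb)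
        ((pair_le hx0 hx hb (fun h => hbx h.symm)).trans hX) hb9 (by linarith)
        (ct_eq (by linarith [hx1 x hx]) (by linarith [hx1 b hb]))
      unfold sl
      exact h3
    have h2 : ∑ b ∈ S.filter (fun b => b ≠ x ∧ ¬ 9 / 20 ≤ TT x b),
        (1 - 5 / 3 * xr x) * (1 - 5 / 3 * xr b) * base (KI.ct x b) ≤
        ∑ b ∈ S.filter (fun b => b ≠ x ∧ ¬ 9 / 20 ≤ TT x b),
          (base (TT x b) + 3 / 25 * (base (TT x b) * (1 / 2 - TT x b)) +
            3 / 40 * (xr x + xr b) ^ 2) := by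
      refine sum_le_sum fun b hb => ?_
      rw [mem_filter] at hb
      obtain ⟨hb, hbx, hb9⟩ := hb
      have h3 := cnt2 (xr x) (xr b) (TT x b) (KI.ct x b) (hx0 x hx) (hx0 b hb)
        ((pair_le hx0 hx hb (fun h => hbx h.symm)).trans hX)
        (ct_eq (by linarith [hx1 x hx]) (by linarith [hx1 b hb])) (hct1 x b) (not_le.1 hb9).le
      refine h3.trans (le_of_eq ?_)
      ring
    rw [sum_add_distrib, sum_add_distrib, ← mul_sum, ← mul_sum] at h2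
    have hT1 : ∀ b ∈ S, 0 ≤ base (TT x b) := by
      intro b hb
      have h3 : -1 ≤ TT x b := by
        have h4 : TT x b = KI.ct x b * (‖x‖ * ‖b‖) + xr x * xr b / 2 := by
          unfold KI.ct TT xr
          have hx' : ‖x‖ ≠ 0 := norm_ne_zero_iff.mpr (hne x hx)
          have hb' : ‖b‖ ≠ 0 := norm_ne_zero_iff.mpr (hne b hb)
          field_simp
        have h5 : ‖x‖ ≤ 1 := by
          have h7 := hx0 x hx
          unfold xr at h7
          nlinarith [norm_nonneg x]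
        have h6 : ‖b‖ ≤ 1 := by
          have h7 := hx0 b hb
          unfold xr at h7
          nlinarith [norm_nonneg b]
        have h8 : ‖x‖ * ‖b‖ ≤ 1 := mul_le_one₀ h5 (norm_nonneg b) h6
        have h9 : 0 ≤ ‖x‖ * ‖b‖ := by positivity
        have h10 : 0 ≤ xr x * xr b := mul_nonneg (hx0 x hx) (hx0 b hb)
        have h11 : -(‖x‖ * ‖b‖) ≤ KI.ct x b * (‖x‖ * ‖b‖) := by
          nlinarith [hct1 x b]
        linarith
      unfold base
      have h4 : 0 ≤ TT x b + 1 := by linarith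
      positivity
    have h3 : ∑ b ∈ S.filter (fun b => b ≠ x ∧ ¬ 9 / 20 ≤ TT x b),
        base (TT x b) * (1 / 2 - TT x b) ≤
        ∑ v ∈ S.erase x, base (TT x v) * (1 / 2 - TT x v) := by
      rw [hsplit (fun v => base (TT x v) * (1 / 2 - TT x v)) x]
      have h4 : 0 ≤ ∑ b ∈ NB U x, base (TT x b) * (1 / 2 - TT x b) := by
        refine sum_nonneg fun b hb => ?_
        rw [hNB, mem_filter] at hb
        obtain ⟨hb, hbx, hb9⟩ := hb
        have h2 := hsl0 x hx b hb (fun h => hbx h.symm)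
        unfold sl at h2
        exact mul_nonneg (hT1 b hb) h2
      linarith
    have h4 : ∑ b ∈ S.filter (fun b => b ≠ x ∧ ¬ 9 / 20 ≤ TT x b), (xr x + xr b) ^ 2 ≤
        ∑ v ∈ S.erase x, (xr x + xr v) ^ 2 := by
      rw [hsplit (fun v => (xr x + xr v) ^ 2) x]
      have h4 : 0 ≤ ∑ b ∈ NB U x, (xr x + xr b) ^ 2 := sum_nonneg fun b _ => sq_nonneg _
      linarith
    linarith
  have hker := KI.base_pos S hne fun u => 1 - 5 / 3 * xr u
  have hR : ∑ x ∈ S, (9 / 2 * (1 - 5 / 3 * xr x) ^ 2 +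
      (3 / 8 * ((NB U x).card : ℝ) - 11 / 5 * SX U x) +
      (∑ b ∈ S.filter (fun b => b ≠ x ∧ ¬ 9 / 20 ≤ TT x b), base (TT x b)) +
      3 / 25 * (∑ v ∈ S.erase x, base (TT x v) * (1 / 2 - TT x v)) +
      3 / 40 * ∑ v ∈ S.erase x, (xr x + xr v) ^ 2) =
      ∑ x ∈ S, 9 / 2 * (1 - 5 / 3 * xr x) ^ 2 +
      (3 / 8 * (∑ x ∈ S, ((NB U x).card : ℝ)) - 11 / 5 * ∑ x ∈ S, SX U x) +
      (∑ x ∈ S, ∑ b ∈ S.filter (fun b => b ≠ x ∧ ¬ 9 / 20 ≤ TT x b), base (TT x b)) +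
      3 / 25 * (∑ x ∈ S, ∑ v ∈ S.erase x, base (TT x v) * (1 / 2 - TT x v)) +
      3 / 40 * ∑ x ∈ S, ∑ v ∈ S.erase x, (xr x + xr v) ^ 2 := by
    rw [sum_add_distrib, sum_add_distrib, sum_add_distrib, sum_add_distrib, sum_sub_distrib,
      mul_sum S (fun x => ((NB U x).card : ℝ)), mul_sum S (fun x => SX U x),
      mul_sum S (fun x => ∑ v ∈ S.erase x, base (TT x v) * (1 / 2 - TT x v)),
      mul_sum S (fun x => ∑ v ∈ S.erase x, (xr x + xr v) ^ 2)]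
  have hall := hker.trans (sum_le_sum hrow)
  rw [hR] at hall
  have hw := weights S xr hcard hx0 hX
  have hcr := cross S xr hcard hx0 hX
  have e5 : ∑ x ∈ S, (56 - ((NB U x).card : ℝ)) = 13440 - ∑ x ∈ S, ((NB U x).card : ℝ) := by
    rw [sum_sub_distrib, sum_const, hcard, nsmul_eq_mul]
    norm_num
  rw [e5]
  linarith

end Pool.Agent.Lib.MP_f1379f_gt.FV
end

section
/-!
# MP_f1379f_gt, full Q1, block STAB1, part 2: the Gram error of a labelled link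
-/
set_option autoImplicit false

namespace Pool.Agent.Lib.MP_f1379f_gt.FV

namespace ERLM

open ANTM LINM

variable {α : Type} [DecidableEq α] {N : Finset α} {p : α → V7} {C : Finset (α × α)} {σ : α → α}

/-- the sum over the non-contact pairs -/
theorem s2 (hK : SpecKER7) {B cA : ℝ} (h : LK N p C B cA) :
    ∑ q ∈ PP N C, G7 (tt p q) ≤ B := by
  have h1 := hK.t2 N p h.unit
  rw [h.card] at h1
  have h2 := h.bud
  have h6 : ∑ q ∈ PP N C, G7 (tt p q) =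
      ∑ q ∈ N.offDiag.filter (fun q => q ∉ C), G7 (inner ℝ (p q.1) (p q.2)) := rfl
  rw [h6]
  have h7 : ((56 : ℕ) : ℝ) ^ 2 / 7 = 448 := by norm_num
  rw [h7] at h1
  have h8 : 0 ≤ 228 / 11 * (∑ b ∈ N, ∑ c ∈ N, (inner ℝ (p b) (p c) : ℝ) ^ 2 - 448) := by
    have : 0 ≤ ∑ b ∈ N, ∑ c ∈ N, (inner ℝ (p b) (p c) : ℝ) ^ 2 - 448 := by linarith
    positivity
  linarith

/-- the budget of two antipodal pairs -/
theorem bud4 (hK : SpecKER7) {B cA : ℝ} (h : LK N p C B cA) (hA : AN N p σ) {b c : α}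
    (hb : b ∈ N) (hc : c ∈ N) (hcb : c ≠ b) (hcσ : c ≠ σ b) :
    2 * (ff p C b c + ff p C b (σ c) + ff p C (σ b) c + ff p C (σ b) (σ c)) +
      2 * G7 (tt p (b, σ b)) + 2 * G7 (tt p (c, σ c)) ≤ B := by
  obtain ⟨b1, b2, b3⟩ := hA.inv b hb
  obtain ⟨c1, c2, c3⟩ := hA.inv c hc
  have hcσ' : σ c ≠ b := by
    intro heq
    apply hcσ
    rw [← heq, c2]
  have hσσ : σ b ≠ σ c := by
    intro heq
    apply hcb
    rw [← b2, heq, c2]
  have hdis : Disjoint ({b, σ b} : Finset α) {c, σ c} := by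
    rw [Finset.disjoint_left]
    intro x hx hx'
    simp only [Finset.mem_insert, Finset.mem_singleton] at hx hx'
    rcases hx with rfl | rfl <;> rcases hx' with hx' | hx'
    · exact hcb hx'.symm
    · exact hcσ' hx'.symm
    · exact hcσ hx'.symm
    · exact hσσ hx'
  set D : Finset α := {b, σ b} ∪ {c, σ c} with hD
  have hDN : D ⊆ N := by
    intro x hx
    rw [hD] at hx
    simp only [Finset.mem_union, Finset.mem_insert, Finset.mem_singleton] at hx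
    rcases hx with (rfl | rfl) | (rfl | rfl)
    · exact hb
    · exact b1
    · exact hc
    · exact c1
  have h1 : ∑ q ∈ D.offDiag, ff p C q.1 q.2 ≤ ∑ q ∈ N.offDiag, ff p C q.1 q.2 := by
    refine Finset.sum_le_sum_of_subset_of_nonneg (Finset.offDiag_mono hDN) fun q hq _ => ?_
    obtain ⟨a1, a2, a3⟩ := Finset.mem_offDiag.1 hq
    exact ff_nonneg h a1 a2 a3
  rw [← sum_PP N p C] at h1
  have h2 := h1.trans (s2 hK h)
  have h3 := offd D (ff p C)
  have h4 : ∀ F : α → ℝ, ∑ i ∈ D, F i = (F b + F (σ b)) + (F c + F (σ c)) := by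
    intro F
    rw [hD, Finset.sum_union hdis, Finset.sum_pair b3.symm, Finset.sum_pair c3.symm]
  rw [h4, h4, h4, h4, h4, h4] at h3
  have h5 := ff_anti h hA hb
  have h6 := ff_anti h hA hc
  rw [ff_symm h (σ b) b, ff_symm h c b, ff_symm h c (σ b), ff_symm h (σ c) b,
    ff_symm h (σ c) (σ b), ff_symm h (σ c) c, h5, h6] at h3
  linarith

/-- the cost of one pair in the T-scale -/
theorem cost1 {B cA : ℝ} (h : LK N p C B cA)
    (hup : ∀ b ∈ N, ∀ c ∈ N, b ≠ c → (inner ℝ (p b) (p c) : ℝ) ≤ 29 / 75)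
    {i j : α} (hi : i ∈ N) (hj : j ∈ N) (hij : i ≠ j)
    {T : ℝ} (hT : T = 1 / 4 + 3 / 4 * tt p (i, j)) :
    0 ≤ 3 / 256 * ff p C i j ∧ (3 / 256 * ff p C i j = F7 T ∨ 11 / 25 ≤ T) ∧ T ≤ 27 / 50 := by
  have h1 := ff_nonneg h hi hj hij
  have h2 : tt p (i, j) ≤ 29 / 75 := hup i hi j hj hij
  refine ⟨by positivity, ?_, by rw [hT]; linarith⟩
  by_cases hC : (i, j) ∈ C
  · right
    have h3 : 19 / 75 ≤ tt p (i, j) := h.con i hi j hj hij hC
    rw [hT]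
    linarith
  · left
    rw [hT, F_eq]
    unfold ff
    rw [if_neg hC]

/-- the pointwise bounds if `⟨y, y'⟩ ≥ 0` -/
theorem main (hL : SpecLPT) (hK : SpecKER7) {B cA : ℝ} (h : LK N p C B cA)
    (hB : B ≤ 3755 / 1000)
    (hup : ∀ b ∈ N, ∀ c ∈ N, b ≠ c → (inner ℝ (p b) (p c) : ℝ) ≤ 29 / 75)
    (hA : AN N p σ) {b c : α} (hb : b ∈ N) (hc : c ∈ N) (hcb : c ≠ b) (hcσ : c ≠ σ b)
    (h0 : 0 ≤ (inner ℝ (yv p σ b) (yv p σ c) : ℝ)) :
    (-2 / 3 ≤ tt p (b, σ c) ∧ tt p (b, σ c) ≤ 0) ∧ 0 ≤ tt p (b, c) := by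
  obtain ⟨b1, b2, b3⟩ := hA.inv b hb
  obtain ⟨c1, c2, c3⟩ := hA.inv c hc
  have hcσ' : σ c ≠ b := by
    intro heq
    apply hcσ
    rw [← heq, c2]
  have hσσ : σ c ≠ σ b := by
    intro heq
    apply hcb
    rw [← b2, ← heq, c2]
  obtain ⟨nb1, nb2, nb3⟩ := norms h hA hb
  obtain ⟨nc1, nc2, nc3⟩ := norms h hA hc
  have hbud := bud4 hK h hA hb hc hcb hcσ
  have htwo : (1 + tt p (b, σ b)) + (1 + tt p (c, σ c)) ≤ 9 / 80 := hA.two b hb c hc hcb hcσ
  have f1 : -21 / 25 < tt p (b, σ c) := hA.far b hb (σ c) c1 hcσ' hσσ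
  have f2 : -21 / 25 < tt p (σ b, c) := hA.far (σ b) b1 c hc hcσ (by rw [b2]; exact hcb)
  have f3 : -21 / 25 < tt p (b, c) := hA.far b hb c hc hcb hcσ
  have f4 : -21 / 25 < tt p (σ b, σ c) :=
    hA.far (σ b) b1 (σ c) c1 hσσ (by rw [b2]; exact hcσ')
  set y := yv p σ b with hy
  set z := zv p σ b with hz
  set y' := yv p σ c with hy'
  set z' := zv p σ c with hz'
  have e1 : tt p (b, σ c) = -inner ℝ y y' + inner ℝ y z' - inner ℝ z y' + inner ℝ z z' := by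
    show (inner ℝ (p b) (p (σ c)) : ℝ) = _
    rw [p_eq p σ b, pσ_eq p σ c, inner_add_left, inner_sub_right, inner_sub_right]
    ring
  have e2 : tt p (σ b, c) = -inner ℝ y y' - inner ℝ y z' + inner ℝ z y' + inner ℝ z z' := by
    show (inner ℝ (p (σ b)) (p c) : ℝ) = _
    rw [pσ_eq p σ b, p_eq p σ c, inner_sub_left, inner_add_right, inner_add_right]
    ring
  have e3 : tt p (b, c) = inner ℝ y y' + inner ℝ y z' + inner ℝ z y' + inner ℝ z z' := by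
    show (inner ℝ (p b) (p c) : ℝ) = _
    rw [p_eq p σ b, p_eq p σ c, inner_add_left, inner_add_right, inner_add_right]
    ring
  have e4 : tt p (σ b, σ c) = inner ℝ y y' - inner ℝ y z' - inner ℝ z y' + inner ℝ z z' := by
    show (inner ℝ (p (σ b)) (p (σ c)) : ℝ) = _
    rw [pσ_eq p σ b, pσ_eq p σ c, inner_sub_left, inner_sub_right, inner_sub_right]
    ring
  have cs : ∀ u v : V7, (inner ℝ u v : ℝ) ^ 2 ≤ ‖u‖ ^ 2 * ‖v‖ ^ 2 := by
    intro u v
    have h1 := abs_real_inner_le_norm u v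
    have h2 : |(inner ℝ u v : ℝ)| ^ 2 ≤ (‖u‖ * ‖v‖) ^ 2 := by gcongr
    rwa [sq_abs, mul_pow] at h2
  have q1 := cs y z'
  have q2 := cs z y'
  have q3 := cs z z'
  have hz0 : 0 ≤ ‖z‖ ^ 2 := by positivity
  have hz0' : 0 ≤ ‖z'‖ ^ 2 := by positivity
  have q1' : (inner ℝ y z' : ℝ) ^ 2 ≤ ‖z'‖ ^ 2 := q1.trans (mul_le_of_le_one_left hz0' nb2)
  have q2' : (inner ℝ z y' : ℝ) ^ 2 ≤ ‖z‖ ^ 2 := q2.trans (mul_le_of_le_one_right hz0 nc2)
  have k1 : (3 / 4 * (inner ℝ y z' : ℝ)) ^ 2 ≤ 3 / 4 * (3 / 4 * ‖z'‖ ^ 2) := by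
    rw [mul_pow]
    linarith
  have k2 : (3 / 4 * (inner ℝ z y' : ℝ)) ^ 2 ≤ 3 / 4 * (3 / 4 * ‖z‖ ^ 2) := by
    rw [mul_pow]
    linarith
  have k3 : (3 / 4 * (inner ℝ z z' : ℝ)) ^ 2 ≤ 3 / 4 * ‖z‖ ^ 2 * (3 / 4 * ‖z'‖ ^ 2) := by
    calc (3 / 4 * (inner ℝ z z' : ℝ)) ^ 2 = 9 / 16 * (inner ℝ z z' : ℝ) ^ 2 := by ring
      _ ≤ 9 / 16 * (‖z‖ ^ 2 * ‖z'‖ ^ 2) := by linarith
      _ = _ := by ring
  obtain ⟨g1, g1', g1''⟩ :=
    cost1 h hup hb c1 (Ne.symm hcσ') (T := 1 / 4 + 3 / 4 * tt p (b, σ c)) rfl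
  obtain ⟨g2, g2', g2''⟩ :=
    cost1 h hup b1 hc (Ne.symm hcσ) (T := 1 / 4 + 3 / 4 * tt p (σ b, c)) rfl
  obtain ⟨g3, g3', g3''⟩ := cost1 h hup hb hc hcb.symm (T := 1 / 4 + 3 / 4 * tt p (b, c)) rfl
  obtain ⟨g4, g4', g4''⟩ :=
    cost1 h hup b1 c1 hσσ.symm (T := 1 / 4 + 3 / 4 * tt p (σ b, σ c)) rfl
  have F1 : F7 (-1 / 2 + 2 * (3 / 4 * ‖z‖ ^ 2)) = 3 / 256 * G7 (tt p (b, σ b)) := by
    rw [← F_eq, nb1]
    congr 1
    ring
  have F2 : F7 (-1 / 2 + 2 * (3 / 4 * ‖z'‖ ^ 2)) = 3 / 256 * G7 (tt p (c, σ c)) := by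
    rw [← F_eq, nc1]
    congr 1
    ring
  have key := hL (3 / 4 * inner ℝ y y') (3 / 4 * ‖z‖ ^ 2) (3 / 4 * ‖z'‖ ^ 2)
    (3 / 4 * inner ℝ y z') (3 / 4 * inner ℝ z y') (3 / 4 * inner ℝ z z')
    (1 / 4 + 3 / 4 * tt p (b, σ c)) (1 / 4 + 3 / 4 * tt p (σ b, c))
    (1 / 4 + 3 / 4 * tt p (b, c)) (1 / 4 + 3 / 4 * tt p (σ b, σ c))
    (3 / 256 * ff p C b (σ c)) (3 / 256 * ff p C (σ b) c) (3 / 256 * ff p C b c)
    (3 / 256 * ff p C (σ b) (σ c)) (by positivity) (by positivity) (by positivity)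
    (by linarith) (by linarith) (by rw [nb1, nc1]; linarith) k1 k2 k3 (by rw [e1]; ring)
    (by rw [e2]; ring) (by rw [e3]; ring) (by rw [e4]; ring)
    (by linarith) (by linarith) (by linarith) (by linarith) g1'' g2'' g3'' g4'' g1 g2 g3 g4
    g1' g2' g3' g4' (by rw [F1, F2]; linarith)
  obtain ⟨⟨r1, r2⟩, _, r3, _⟩ := key
  exact ⟨⟨by linarith, by linarith⟩, by linarith⟩

/-- The signs: positive means `t ≥ 0`, negative means `-2/3 ≤ t ≤ 0`. -/
theorem signs (hL : SpecLPT) (hK : SpecKER7) {B cA : ℝ} (h : LK N p C B cA)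
    (hB : B ≤ 3755 / 1000)
    (hup : ∀ b ∈ N, ∀ c ∈ N, b ≠ c → (inner ℝ (p b) (p c) : ℝ) ≤ 29 / 75)
    (hA : AN N p σ) {b c : α} (hb : b ∈ N) (hc : c ∈ N) (hcb : c ≠ b) (hcσ : c ≠ σ b) :
    (0 < (inner ℝ (yv p σ b) (yv p σ c) : ℝ) → 0 ≤ tt p (b, c)) ∧
      ((inner ℝ (yv p σ b) (yv p σ c) : ℝ) < 0 → -2 / 3 ≤ tt p (b, c) ∧ tt p (b, c) ≤ 0) := by
  refine ⟨fun h0 => (main hL hK h hB hup hA hb hc hcb hcσ h0.le).2, fun h0 => ?_⟩
  obtain ⟨b1, b2, b3⟩ := hA.inv b hb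
  obtain ⟨c1, c2, c3⟩ := hA.inv c hc
  have hσ : ∀ b ∈ N, σ (σ b) = b := fun b hb => (hA.inv b hb).2.1
  have h1 := main hL hK h hB hup hA hb c1 (by
    intro heq
    apply hcσ
    rw [← heq, c2]) (by
    intro heq
    apply hcb
    rw [← b2, ← heq, c2]) (by
    rw [yv_σ hσ hc, inner_neg_right]
    linarith)
  rw [c2] at h1
  exact h1.1

/-- label `-1` -/
theorem pt_anti {t : ℝ} (h1 : -1 ≤ t) (h2 : t ≤ -9 / 10) : (t - -1) ^ 2 ≤ G7 t / 9 := by
  obtain ⟨v, rfl⟩ : ∃ v, t = -1 + v := ⟨1 + t, by ring⟩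
  have h3 : 0 ≤ v := by linarith
  have h4 : v ≤ 1 / 10 := by linarith
  have h5 : G7 (-1 + v) / 9 - (-1 + v - -1) ^ 2 = v * ((4 - 3 * v) * (2 - 3 * v) ^ 2 - 9 * v) / 9 := by
    unfold G7; ring
  have h6 : (17 / 10 : ℝ) ^ 2 ≤ (2 - 3 * v) ^ 2 := by
    apply pow_le_pow_left₀ (by norm_num) (by linarith)
  have h7 : 0 ≤ (4 - 3 * v) * (2 - 3 * v) ^ 2 - 9 * v := by nlinarith
  have h8 : 0 ≤ v * ((4 - 3 * v) * (2 - 3 * v) ^ 2 - 9 * v) / 9 := by positivity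
  linarith

/-- label `-1/3` -/
theorem pt_neg {t : ℝ} (h1 : -2 / 3 ≤ t) (h2 : t ≤ 0) : (t - -1 / 3) ^ 2 ≤ G7 t / 9 := by
  have h5 : G7 t / 9 - (t - -1 / 3) ^ 2 = (1 + 3 * t) ^ 2 * (-t * (2 + 3 * t)) / 9 := by
    unfold G7; ring
  have h6 : 0 ≤ -t * (2 + 3 * t) := mul_nonneg (by linarith) (by linarith)
  have h8 : 0 ≤ (1 + 3 * t) ^ 2 * (-t * (2 + 3 * t)) / 9 := by positivity
  linarith

/-- label `1/3` -/
theorem pt_pos {t : ℝ} (h1 : 0 ≤ t) (h2 : t ≤ 1 / 3) : (t - 1 / 3) ^ 2 ≤ G7 t / 9 := by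
  have h5 : G7 t / 9 - (t - 1 / 3) ^ 2 =
      (1 - 3 * t) * ((1 + t) * (1 + 3 * t) ^ 2 - (1 - 3 * t)) / 9 := by
    unfold G7; ring
  have h6 : 0 ≤ (1 + t) * (1 + 3 * t) ^ 2 - (1 - 3 * t) := by nlinarith [sq_nonneg t, mul_nonneg h1 (sq_nonneg t)]
  have h7 : 0 ≤ 1 - 3 * t := by linarith
  have h8 : 0 ≤ (1 - 3 * t) * ((1 + t) * (1 + 3 * t) ^ 2 - (1 - 3 * t)) / 9 := by positivity
  linarith

end ERLM

open ERLM ANTM LINM in
theorem specERL (hUEF : SpecUEF) (hKER7 : SpecKER7) (hLPT : SpecLPT) : SpecERL := by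
  intro α _ N p C B cA σ x φ h hB _ hup hA hx hφ hσφ hlab
  have hmem : ∀ b ∈ N, φ b ∈ UE ∧ (inner ℝ (φ b) x : ℝ) = 1 / 2 := by
    intro b hb
    have h1 : φ b ∈ (nb x : Set E) := hφ.mapsTo hb
    have h2 : φ b ∈ nb x := h1
    unfold nb at h2
    rw [Finset.mem_filter] at h2
    exact h2
  have hn : ∀ b ∈ N, (inner ℝ (φ b) (φ b) : ℝ) = 1 := by
    intro b hb
    rw [real_inner_self_eq_norm_sq, hUEF.nrm _ (hmem b hb).1]
    norm_num
  have hdiag : ∑ b ∈ N, ((inner ℝ (p b) (p b) : ℝ) - tst φ b b) ^ 2 = 0 := by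
    refine Finset.sum_eq_zero fun b hb => ?_
    unfold tst
    rw [hn b hb, real_inner_self_eq_norm_sq, h.unit b hb]
    norm_num
  rw [offd N fun b c => ((inner ℝ (p b) (p c) : ℝ) - tst φ b c) ^ 2, hdiag, zero_add,
    ← Finset.sum_filter_add_sum_filter_not N.offDiag (fun q => q ∈ C)
    (fun q => ((inner ℝ (p q.1) (p q.2) : ℝ) - tst φ q.1 q.2) ^ 2)]
  -- contact pairs
  have hcon : ∀ q ∈ N.offDiag.filter (fun q => q ∈ C),
      ((inner ℝ (p q.1) (p q.2) : ℝ) - tst φ q.1 q.2) ^ 2 =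
        ((inner ℝ (p q.1) (p q.2) : ℝ) - 1 / 3) ^ 2 := by
    intro q hq
    obtain ⟨hq1, hq2⟩ := Finset.mem_filter.1 hq
    obtain ⟨a1, a2, a3⟩ := Finset.mem_offDiag.1 hq1
    have ht : 19 / 75 ≤ (inner ℝ (p q.1) (p q.2) : ℝ) := h.con _ a1 _ a2 a3 hq2
    have hcσ : q.2 ≠ σ q.1 := by
      intro heq
      have := hA.near q.1 a1
      rw [← heq] at this
      linarith
    have hs := signs hLPT hKER7 h hB hup hA a1 a2 a3.symm hcσ
    rcases hlab q.1 a1 q.2 a2 a3.symm hcσ with ⟨_, h2⟩ | ⟨h1, _⟩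
    · unfold tst
      rw [h2]
      norm_num
    · have h3 : (inner ℝ (p q.1) (p q.2) : ℝ) ≤ 0 := (hs.2 h1).2
      linarith
  -- non-contact pairs
  have hnon : ∀ q ∈ PP N C,
      ((inner ℝ (p q.1) (p q.2) : ℝ) - tst φ q.1 q.2) ^ 2 ≤ G7 (tt p q) / 9 := by
    intro q hq
    have hle := PP_le h hq
    obtain ⟨⟨a1, a2, a3⟩, hqC⟩ := mem_PP.1 hq
    have htt : tt p q = (inner ℝ (p q.1) (p q.2) : ℝ) := rfl
    by_cases hcσ : q.2 = σ q.1
    · have h1 : (inner ℝ (φ q.1) (φ q.2) : ℝ) = -1 / 2 := by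
        rw [hcσ, hσφ q.1 a1, inner_sub_right, hn q.1 a1, (hmem q.1 a1).2]
        norm_num
      have h2 : tst φ q.1 q.2 = -1 := by
        unfold tst
        rw [h1]; norm_num
      have h3 : tt p q ≤ -9 / 10 := by
        have := hA.near q.1 a1
        rw [← hcσ] at this
        exact this
      rw [h2, ← htt]
      exact pt_anti hle.1 h3
    · have hs := signs hLPT hKER7 h hB hup hA a1 a2 a3.symm hcσ
      rcases hlab q.1 a1 q.2 a2 a3.symm hcσ with ⟨h1, h2⟩ | ⟨h1, h2⟩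
      · have h3 : tst φ q.1 q.2 = 1 / 3 := by
          unfold tst
          rw [h2]; norm_num
        rw [h3, ← htt]
        exact pt_pos (hs.1 h1) hle.2
      · have h3 : tst φ q.1 q.2 = -1 / 3 := by
          unfold tst
          rw [h2]; norm_num
        have h4 := hs.2 h1
        rw [h3, ← htt]
        exact pt_neg h4.1 h4.2
  rw [Finset.sum_congr rfl hcon]
  have h5 : ∑ q ∈ N.offDiag.filter (fun q => ¬ q ∈ C),
      ((inner ℝ (p q.1) (p q.2) : ℝ) - tst φ q.1 q.2) ^ 2 ≤ B / 9 := by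
    have h6 := Finset.sum_le_sum hnon
    have h7 := s2 hKER7 h
    rw [← Finset.sum_div] at h6
    have h8 : ∑ q ∈ PP N C, ((inner ℝ (p q.1) (p q.2) : ℝ) - tst φ q.1 q.2) ^ 2 =
        ∑ q ∈ N.offDiag.filter (fun q => ¬ q ∈ C),
          ((inner ℝ (p q.1) (p q.2) : ℝ) - tst φ q.1 q.2) ^ 2 := rfl
    rw [h8] at h6
    linarith
  linarith

end Pool.Agent.Lib.MP_f1379f_gt.FV
end

section
/-!
# MP_f1379f_gt, full Q1, block STAB1, part 2: the normalised projections to x-perp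
-/
set_option autoImplicit false

namespace Pool.Agent.Lib.MP_f1379f_gt.FV

namespace PRJM

/-- The projection before normalisation. -/
noncomputable def pj (x b : E) : E := b - ((inner ℝ x b : ℝ) / ‖x‖ ^ 2) • x

lemma hq_eq (x b : E) : hq x b = (‖pj x b‖)⁻¹ • pj x b := rfl

lemma pj_inner (x b c : E) (hx : x ≠ 0) : (inner ℝ (pj x b) (pj x c) : ℝ) =
    (inner ℝ b c : ℝ) - (inner ℝ x b : ℝ) * (inner ℝ x c : ℝ) / ‖x‖ ^ 2 := by
  have h : ‖x‖ ≠ 0 := norm_ne_zero_iff.mpr hx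
  unfold pj
  rw [inner_sub_left, inner_sub_right, inner_sub_right, real_inner_smul_left, real_inner_smul_left,
    real_inner_smul_right, real_inner_smul_right, real_inner_self_eq_norm_sq,
    real_inner_comm x b]
  field_simp
  ring

lemma pj_norm_sq (x b : E) (hx : x ≠ 0) : ‖pj x b‖ ^ 2 =
    ‖b‖ ^ 2 - (inner ℝ x b : ℝ) ^ 2 / ‖x‖ ^ 2 := by
  rw [← real_inner_self_eq_norm_sq, pj_inner x b b hx, real_inner_self_eq_norm_sq, sq (inner ℝ x b)]

lemma pj_norm (x b : E) (hx : x ≠ 0) : ‖pj x b‖ =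
    Real.sqrt (‖b‖ ^ 2 - (inner ℝ x b : ℝ) ^ 2 / ‖x‖ ^ 2) := by
  rw [← pj_norm_sq x b hx, Real.sqrt_sq (norm_nonneg _)]

lemma pj_orth (x b : E) : (inner ℝ (pj x b) x : ℝ) = 0 := by
  rcases eq_or_ne x 0 with hx | hx
  · rw [hx, inner_zero_right]
  · have h : ‖x‖ ≠ 0 := norm_ne_zero_iff.mpr hx
    unfold pj
    rw [inner_sub_left, real_inner_smul_left, real_inner_self_eq_norm_sq, real_inner_comm x b]
    field_simp
    ring

lemma orth (x b : E) : (inner ℝ (hq x b) x : ℝ) = 0 := by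
  rw [hq_eq, real_inner_smul_left, pj_orth, mul_zero]

lemma ex (x : E) (hx : x ≠ 0) : ∃ p : E → V7, ∀ b c : E,
    (inner ℝ (p b) (p c) : ℝ) = inner ℝ (hq x b) (hq x c) := by
  have : Fact (Module.finrank ℝ E = 7 + 1) := ⟨by simp⟩
  have hf : Module.finrank ℝ (ℝ ∙ x)ᗮ = 7 := Submodule.finrank_orthogonal_span_singleton hx
  let B := (stdOrthonormalBasis ℝ (ℝ ∙ x)ᗮ).reindex (finCongr hf)
  have hm : ∀ b : E, hq x b ∈ (ℝ ∙ x)ᗮ := by
    intro b
    rw [Submodule.mem_orthogonal_singleton_iff_inner_left]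
    exact orth x b
  refine ⟨fun b => B.repr ⟨hq x b, hm b⟩, fun b c => ?_⟩
  rw [LinearIsometryEquiv.inner_map_map]
  rfl

end PRJM

theorem specPRJ : SpecPRJ where
  ex := PRJM.ex
  orth := PRJM.orth
  unit := by
    intro x b hx hb
    rw [PRJM.hq_eq, norm_smul, norm_inv, norm_norm, PRJM.pj_norm x b hx]
    exact inv_mul_cancel₀ (Real.sqrt_pos.mpr hb).ne'
  inr := by
    intro x b c hx hb hc
    rw [PRJM.hq_eq, PRJM.hq_eq, real_inner_smul_left, real_inner_smul_right, PRJM.pj_inner x b c hx,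
      PRJM.pj_norm x b hx, PRJM.pj_norm x c hx]
    have h1 := (Real.sqrt_pos.mpr hb).ne'
    have h2 := (Real.sqrt_pos.mpr hc).ne'
    field_simp

end Pool.Agent.Lib.MP_f1379f_gt.FV
end

section
/-!
# MP_f1379f_gt, full Q1, block STAB1: radial part of the pins (RAD)
-/
set_option autoImplicit false

namespace Pool.Agent.Lib.MP_f1379f_gt.FV

open Finset

namespace RADM

/-- The two coordinates of a contact: real inequality. `r = |x|`, `P = <x,b>`, `a = P/r`, `c² = 1 - y - a²`. -/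
lemma coord {h y w r a c : ℝ} (h0 : 0 ≤ h) (y0 : 0 ≤ y) (hs : y + h ≤ 7 / 150) (w0 : 0 ≤ w)
    (w1 : w ≤ 1 / 20) (r0 : 0 < r) (hr : r ^ 2 = 1 - h) (ha : r * a = 1 / 2 - w - h * y / 2)
    (c0 : 0 ≤ c) (hc : c ^ 2 = 1 - y - a ^ 2) :
    c ≤ 895 / 1000 ∧
    (a - 1 / 2) ^ 2 + (c - √3 / 2) ^ 2 ≤ 172 / 100 * (w ^ 2 + 729 / 10000 * h ^ 2) + 7 / 10 * y ^ 2 := by
  have s0 : 0 ≤ √3 := Real.sqrt_nonneg 3
  have s3 : √3 ^ 2 = 3 := Real.sq_sqrt (by norm_num)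
  have s1 : 17320 / 10000 ≤ √3 := by
    apply Real.le_sqrt_of_sq_le; norm_num
  have hy : h * y ≤ 7 / 150 * h := by nlinarith
  have hy0 : 0 ≤ h * y := mul_nonneg h0 y0
  have rle : r ≤ 1 := by nlinarith
  -- r ≤ 1 - h/2, r ≥ 1 - .53 h
  have r2 : r ≤ 1 - h / 2 := by nlinarith [sq_nonneg h]
  have r3 : 1 - 52 / 100 * h ≤ r := by
    by_contra hcon
    push Not at hcon
    nlinarith
  -- a lower bound
  have a1 : 1 / 2 - w ≤ a := by
    by_contra hcon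
    push Not at hcon
    have : r * a < r * (1 / 2 - w) := mul_lt_mul_of_pos_left hcon r0
    nlinarith
  have a2 : a ≤ 1 / 2 - w + 27 / 100 * h := by
    by_contra hcon
    push Not at hcon
    have h1 : r * (1 / 2 - w + 27 / 100 * h) < r * a := mul_lt_mul_of_pos_left hcon r0
    have h2 : (1 - 52 / 100 * h) * (1 / 2 - w + 27 / 100 * h) ≤ r * (1 / 2 - w + 27 / 100 * h) :=
      mul_le_mul_of_nonneg_right r3 (by nlinarith)
    nlinarith [mul_nonneg h0 w0, mul_nonneg h0 h0]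
  have a3 : 0 ≤ a := by linarith
  have d1 : (a - 1 / 2) ^ 2 ≤ w ^ 2 + 729 / 10000 * h ^ 2 := by
    rcases le_total a (1 / 2) with h1 | h1
    · have p1 : 0 ≤ (w - (1 / 2 - a)) * (w + (1 / 2 - a)) :=
        mul_nonneg (by linarith) (by linarith)
      have p2 : (w - (1 / 2 - a)) * (w + (1 / 2 - a)) = w ^ 2 - (a - 1 / 2) ^ 2 := by ring
      linarith [sq_nonneg h]
    · have p1 : 0 ≤ (27 / 100 * h - (a - 1 / 2)) * (27 / 100 * h + (a - 1 / 2)) :=
        mul_nonneg (by linarith) (by linarith)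
      have p2 : (27 / 100 * h - (a - 1 / 2)) * (27 / 100 * h + (a - 1 / 2)) =
        729 / 10000 * h ^ 2 - (a - 1 / 2) ^ 2 := by ring
      linarith [sq_nonneg w]
  constructor
  · have h1 : c ^ 2 ≤ (895 / 1000) ^ 2 := by
      have h2 : (45 / 100) ^ 2 ≤ a ^ 2 := pow_le_pow_left₀ (by norm_num) (by linarith) 2
      rw [hc]; norm_num at h2 ⊢; linarith
    exact le_of_sq_le_sq h1 (by norm_num) |> fun h => h
  · -- c + √3/2 ≥ 1.70
    have c2 : (838 / 1000 : ℝ) ≤ c := by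
      by_contra hcon
      push Not at hcon
      have h1 : c ^ 2 < (838 / 1000) ^ 2 := by nlinarith
      have h2 : a ^ 2 ≤ (1 / 2 + 27 / 100 * h) ^ 2 := by
        apply pow_le_pow_left₀ a3; linarith
      have h3 : h * h ≤ 7 / 150 * h := mul_le_mul_of_nonneg_right (by linarith) h0
      have h4 : (1 / 2 + 27 / 100 * h) ^ 2 = 1 / 4 + 27 / 100 * h + 729 / 10000 * (h * h) := by ring
      rw [hc] at h1
      norm_num at h1
      linarith
    have c3 : 17 / 10 ≤ c + √3 / 2 := by linarith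
    have e1 : (c - √3 / 2) * (c + √3 / 2) = -(y + (a - 1 / 2) * (a + 1 / 2)) := by
      have e0 : (c - √3 / 2) * (c + √3 / 2) = c ^ 2 - √3 ^ 2 / 4 := by ring
      rw [e0, hc, s3]; ring
    have e2 : (c - √3 / 2) ^ 2 * (17 / 10) ^ 2 ≤ (y + (a - 1 / 2) * (a + 1 / 2)) ^ 2 := by
      have h1 : ((c - √3 / 2) * (c + √3 / 2)) ^ 2 = (y + (a - 1 / 2) * (a + 1 / 2)) ^ 2 := by
        rw [e1]; ring
      rw [← h1, mul_pow]
      apply mul_le_mul_of_nonneg_left _ (sq_nonneg _)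
      apply pow_le_pow_left₀ (by norm_num) c3
    have e3 : (a + 1 / 2) ^ 2 ≤ 10262 / 10000 := by
      have h1 : a + 1 / 2 ≤ 1013 / 1000 := by linarith
      nlinarith
    have e4 : (y + (a - 1 / 2) * (a + 1 / 2)) ^ 2 ≤
        2023 / 1000 * y ^ 2 + 203 / 100 * (a - 1 / 2) ^ 2 := by
      have h2 : ((a - 1 / 2) * (a + 1 / 2)) ^ 2 ≤ 10262 / 10000 * (a - 1 / 2) ^ 2 := by
        rw [mul_pow]
        have := mul_le_mul_of_nonneg_left e3 (sq_nonneg (a - 1 / 2))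
        linarith
      have h3 : 2 * (y * ((a - 1 / 2) * (a + 1 / 2))) ≤
          1023 / 1000 * y ^ 2 + 1000 / 1023 * ((a - 1 / 2) * (a + 1 / 2)) ^ 2 := by
        have h4 := sq_nonneg (1023 / 1000 * y - (a - 1 / 2) * (a + 1 / 2))
        have h5 : (1023 / 1000 * y - (a - 1 / 2) * (a + 1 / 2)) ^ 2 =
          1023 / 1000 * (1023 / 1000 * y ^ 2 + 1000 / 1023 * ((a - 1 / 2) * (a + 1 / 2)) ^ 2
            - 2 * (y * ((a - 1 / 2) * (a + 1 / 2)))) := by ring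
        rw [h5] at h4
        linarith
      have h6 : (y + (a - 1 / 2) * (a + 1 / 2)) ^ 2 =
          y ^ 2 + 2 * (y * ((a - 1 / 2) * (a + 1 / 2))) + ((a - 1 / 2) * (a + 1 / 2)) ^ 2 := by ring
      have h7 := sq_nonneg (a - 1 / 2)
      rw [h6]
      linarith
    have e5 : (c - √3 / 2) ^ 2 * (289 / 100) ≤ 2023 / 1000 * y ^ 2 + 203 / 100 * (a - 1 / 2) ^ 2 := by
      have e6 : (c - √3 / 2) ^ 2 * (17 / 10) ^ 2 = (c - √3 / 2) ^ 2 * (289 / 100) := by ring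
      linarith
    linarith [sq_nonneg (a - 1 / 2)]

end RADM

open RADM in
theorem specRAD (hRBD : SpecRBD) : SpecRAD := by
  classical
  intro U hU hW x hx h56
  have hrr : ∀ u ∈ nearS U, 0 < rr u := by
    intro u hu
    have := (mem_nearS.1 hu).2
    linarith
  have hx0 : ∀ u ∈ nearS U, 0 ≤ xr u := hRBD.pos U hU hW
  have hsl0 : ∀ u ∈ nearS U, ∀ v ∈ nearS U, u ≠ v → 0 ≤ sl u v := hRBD.sl0 U hU
  have hNBsub : ∀ b ∈ NB U x, b ∈ nearS U ∧ b ≠ x ∧ 9 / 20 ≤ TT x b := by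
    intro b hb
    unfold NB at hb
    rw [mem_filter] at hb
    exact hb
  have hsum := hRBD.sum U hU hW
  set h := xr x with hh
  have h0 : 0 ≤ h := hx0 x hx
  have hr2 : ‖x‖ ^ 2 = 1 - h := by rw [hh]; unfold xr; ring
  have hub : ∀ b ∈ NB U x, xr b + h ≤ 7 / 150 := by
    intro b hb
    obtain ⟨h1, h2, _⟩ := hNBsub b hb
    have h3 : ∑ u ∈ ({b, x} : Finset E), xr u ≤ ∑ u ∈ nearS U, xr u := by
      apply sum_le_sum_of_subset_of_nonneg
      · intro u hu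
        rw [mem_insert, mem_singleton] at hu
        rcases hu with rfl | rfl
        · exact h1
        · exact hx
      · intro i hi _; exact hx0 i hi
    rw [sum_pair h2] at h3
    linarith
  have h1le : h ≤ 7 / 150 := le_trans (single_le_sum (f := xr) (fun i hi => hx0 i hi) hx) hsum
  have hrpos : 0 < ‖x‖ := by
    by_contra hcon
    have : ‖x‖ = 0 := le_antisymm (not_lt.1 hcon) (norm_nonneg x)
    rw [this] at hr2; norm_num at hr2; linarith
  have hP : ∀ b ∈ NB U x, ‖x‖ * ((inner ℝ x b : ℝ) / ‖x‖) = 1 / 2 - sl x b - h * xr b / 2 := by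
    intro b hb
    rw [mul_div_cancel₀ _ hrpos.ne']
    unfold sl TT
    rw [hh]; unfold xr; ring
  -- orthogonal decomposition
  have hdec : ∀ b : E, ‖b - ((inner ℝ x b : ℝ) / ‖x‖ ^ 2) • x‖ ^ 2 =
      ‖b‖ ^ 2 - ((inner ℝ x b : ℝ) / ‖x‖) ^ 2 := by
    intro b
    rw [norm_sub_sq_real, norm_smul, inner_smul_right, real_inner_comm, Real.norm_eq_abs, mul_pow,
      sq_abs]
    field_simp
    ring
  have hsq : ∀ b : E, Real.sqrt (‖b‖ ^ 2 - ((inner ℝ x b : ℝ) / ‖x‖) ^ 2) =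
      ‖b - ((inner ℝ x b : ℝ) / ‖x‖ ^ 2) • x‖ := by
    intro b
    rw [← hdec b, Real.sqrt_sq (norm_nonneg _)]
  have hcsq : ∀ b ∈ NB U x, Real.sqrt (‖b‖ ^ 2 - ((inner ℝ x b : ℝ) / ‖x‖) ^ 2) ^ 2 =
      1 - xr b - ((inner ℝ x b : ℝ) / ‖x‖) ^ 2 := by
    intro b _
    rw [hsq b, hdec b]; unfold xr; ring
  have hco : ∀ b ∈ NB U x, _ := fun b hb => coord h0 (hx0 b (hNBsub b hb).1) (hub b hb)
    (hsl0 x hx b (hNBsub b hb).1 (fun h' => (hNBsub b hb).2.1 h'.symm))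
    (by have := (hNBsub b hb).2.2; unfold sl; linarith) hrpos hr2 (hP b hb)
    (Real.sqrt_nonneg _) (hcsq b hb)
  refine ⟨?_, fun b hb => (hco b hb).1, ?_⟩
  · intro b hb
    have hne : ‖b - ((inner ℝ x b : ℝ) / ‖x‖ ^ 2) • x‖ ≠ 0 := by
      intro h1
      have h2 := hcsq b hb
      rw [hsq b, h1] at h2
      have h3 := hP b hb
      have h4 := hub b hb
      have h5 := hx0 b (hNBsub b hb).1
      have h6 := hsl0 x hx b (hNBsub b hb).1 (fun h' => (hNBsub b hb).2.1 h'.symm)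
      have h7 : ((inner ℝ x b : ℝ) / ‖x‖) ≤ 6 / 10 := by
        by_contra hcon
        push Not at hcon
        have h8 : ‖x‖ * (6 / 10) < ‖x‖ * ((inner ℝ x b : ℝ) / ‖x‖) :=
          mul_lt_mul_of_pos_left hcon hrpos
        have h9 : (9 / 10 : ℝ) ≤ ‖x‖ := by
          by_contra hc2
          push Not at hc2
          nlinarith
        have h10 : 0 ≤ h * xr b := mul_nonneg h0 h5
        linarith
      have h8 : 0 ≤ ((inner ℝ x b : ℝ) / ‖x‖) := by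
        by_contra hcon
        push Not at hcon
        have h9 : ‖x‖ * ((inner ℝ x b : ℝ) / ‖x‖) < 0 := mul_neg_of_pos_of_neg hrpos hcon
        have h10 := (hNBsub b hb).2.2
        have h11 : sl x b ≤ 1 / 20 := by unfold sl; linarith
        have h12 : h * xr b ≤ 1 / 10 := by nlinarith
        linarith
      nlinarith
    have hq1 : hq x b = (‖b - ((inner ℝ x b : ℝ) / ‖x‖ ^ 2) • x‖)⁻¹ •
        (b - ((inner ℝ x b : ℝ) / ‖x‖ ^ 2) • x) := rfl
    rw [hsq b, hq1, smul_smul, smul_smul, mul_inv_cancel₀ hne, one_smul]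
    have h1 : (inner ℝ x b : ℝ) / ‖x‖ * ‖x‖⁻¹ = (inner ℝ x b : ℝ) / ‖x‖ ^ 2 := by
      field_simp
    rw [h1]
    abel
  · have hS : ∑ b ∈ NB U x, (((inner ℝ x b : ℝ) / ‖x‖ - 1 / 2) ^ 2
        + (Real.sqrt (‖b‖ ^ 2 - ((inner ℝ x b : ℝ) / ‖x‖) ^ 2) - √3 / 2) ^ 2) ≤
        ∑ b ∈ NB U x, (172 / 100 * (1 / 20) * sl x b + 172 / 100 * (729 / 10000) * h ^ 2
          + 7 / 10 * xr b ^ 2) := by
      apply sum_le_sum
      intro b hb
      refine le_trans (hco b hb).2 ?_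
      have h6 := hsl0 x hx b (hNBsub b hb).1 (fun h' => (hNBsub b hb).2.1 h'.symm)
      have h7 : sl x b ≤ 1 / 20 := by
        have := (hNBsub b hb).2.2; unfold sl; linarith
      nlinarith
    have hS2 : ∑ b ∈ NB U x, (172 / 100 * (1 / 20) * sl x b + 172 / 100 * (729 / 10000) * h ^ 2
          + 7 / 10 * xr b ^ 2) = 172 / 100 * (1 / 20) * ∑ b ∈ NB U x, sl x b
          + (56 : ℕ) • (172 / 100 * (729 / 10000) * h ^ 2 : ℝ)
          + 7 / 10 * ∑ b ∈ NB U x, xr b ^ 2 := by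
      rw [sum_add_distrib, sum_add_distrib, sum_const, h56, mul_sum, mul_sum]
    rw [hS2] at hS
    have hy : ∑ b ∈ NB U x, xr b ^ 2 ≤ (7 / 150) ^ 2 := by
      have h1 : ∑ b ∈ NB U x, xr b ≤ 7 / 150 := by
        refine le_trans ?_ hsum
        apply sum_le_sum_of_subset_of_nonneg
        · intro b hb; exact (hNBsub b hb).1
        · intro i hi _; exact hx0 i hi
      have h2 : ∑ b ∈ NB U x, xr b ^ 2 ≤ ∑ b ∈ NB U x, 7 / 150 * xr b := by
        apply sum_le_sum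
        intro b hb
        have h3 := hx0 b (hNBsub b hb).1
        have h4 := hub b hb
        nlinarith
      rw [← mul_sum] at h2
      nlinarith
    have hr : (1 - ‖x‖) ^ 2 ≤ 26 / 100 * h ^ 2 := by
      have h1 : 1 - 52 / 100 * h ≤ ‖x‖ := by
        by_contra hcon
        push Not at hcon
        nlinarith
      have h2 : (1 - ‖x‖) * (1 + ‖x‖) = h := by nlinarith
      have h3 : (19 / 10 : ℝ) ≤ 1 + ‖x‖ := by linarith
      have h4 : ‖x‖ ≤ 1 := by nlinarith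
      have h5 : (1 - ‖x‖) ≤ 51 / 100 * h := by
        by_contra hcon
        push Not at hcon
        nlinarith
      have h6 : 0 ≤ 1 - ‖x‖ := by linarith
      have h7 : (1 - ‖x‖) * (1 + ‖x‖) * ((1 - ‖x‖) * (1 + ‖x‖)) = h * h := by rw [h2]
      have h8 : (1963 / 1000 : ℝ) ≤ 1 + ‖x‖ := by linarith
      have h9 : (1 + ‖x‖) ^ 2 ≥ 3853 / 1000 := by nlinarith
      nlinarith [sq_nonneg (1 - ‖x‖)]
    have hSX : SX U x = ∑ b ∈ NB U x, sl x b := rfl
    rw [← hSX] at hS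
    have e1 : (56 : ℕ) • (172 / 100 * (729 / 10000) * h ^ 2 : ℝ) =
        56 * (172 / 100 * (729 / 10000) * h ^ 2) := by
      rw [nsmul_eq_mul]; norm_num
    rw [e1] at hS
    nlinarith

end Pool.Agent.Lib.MP_f1379f_gt.FV
end

section
/-!
# MP_f1379f_gt, full Q1, block STAB1, part 2: the averaging argument (finite sums)
-/
set_option autoImplicit false

namespace Pool.Agent.Lib.MP_f1379f_gt.FV

open Finset

namespace SELM

variable {α : Type} [DecidableEq α]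

/-- Indicator of adjacency. -/
noncomputable def Id (adj : α → α → Prop) [DecidableRel adj] (a b : α) : ℝ := if adj a b then 1 else 0

lemma Id_nonneg (adj : α → α → Prop) [DecidableRel adj] (a b : α) : 0 ≤ Id adj a b := by
  unfold Id; split_ifs <;> norm_num

lemma Id_le (adj : α → α → Prop) [DecidableRel adj] (a b : α) : Id adj a b ≤ 1 := by
  unfold Id; split_ifs <;> norm_num

lemma Id_symm (adj : α → α → Prop) [DecidableRel adj] (h : ∀ a b, adj a b → adj b a) (a b : α) :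
    Id adj a b = Id adj b a := by
  unfold Id
  have : adj a b ↔ adj b a := ⟨h a b, h b a⟩
  simp [this]

lemma Id_self (adj : α → α → Prop) [DecidableRel adj] (h : ∀ a, ¬ adj a a) (a : α) :
    Id adj a a = 0 := by
  unfold Id; simp [h a]

lemma sumN (S : Finset α) (adj : α → α → Prop) [DecidableRel adj] (a : α) (f : α → ℝ) :
    ∑ b ∈ S.filter (adj a), f b = ∑ b ∈ S, Id adj a b * f b := by
  rw [sum_filter]
  refine sum_congr rfl fun b _ => ?_
  unfold Id; split_ifs <;> simp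

lemma cardN (S : Finset α) (adj : α → α → Prop) [DecidableRel adj] (a : α) :
    ((S.filter (adj a)).card : ℝ) = ∑ b ∈ S, Id adj a b := by
  have h := sumN S adj a (fun _ => (1 : ℝ))
  simpa using h

lemma sumC (S : Finset α) (adj : α → α → Prop) [DecidableRel adj] (a : α) (f : α → α → ℝ) :
    ∑ q ∈ ((S.filter (adj a)) ×ˢ (S.filter (adj a))).filter (fun q => adj q.1 q.2), f q.1 q.2 =
      ∑ b ∈ S, ∑ c ∈ S, Id adj a b * Id adj a c * Id adj b c * f b c := by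
  rw [sum_filter, sum_product, sumN]
  refine sum_congr rfl fun b _ => ?_
  rw [sumN, mul_sum]
  refine sum_congr rfl fun c _ => ?_
  unfold Id; split_ifs <;> simp

lemma cardC (S : Finset α) (adj : α → α → Prop) [DecidableRel adj] (a : α) :
    ((((S.filter (adj a)) ×ˢ (S.filter (adj a))).filter (fun q => adj q.1 q.2)).card : ℝ) =
      ∑ b ∈ S, ∑ c ∈ S, Id adj a b * Id adj a c * Id adj b c := by
  have h := sumC S adj a (fun _ _ => (1 : ℝ))
  simpa using h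

/-- Pointwise upper bound of the radial terms: `n = n a`, `k = k a`. -/
lemma kb_bound (n : ℕ) (k x mp : ℝ) (hx : 0 ≤ x) (hx1 : x ≤ 7 / 150)
    (hk : k ≤ 10568 / 10000 * (9 / 28 * (n : ℝ) ^ 2 + 9 * (n : ℝ))) (hk0 : 0 ≤ k)
    (hmp : mp = if 57 ≤ n then (n : ℝ) - 56 else 0) :
    (229 / 2500 - (if 56 ≤ n then 3 / 1000 else 0)) * (x * k) ≤
      1421 / 10 * x + 437 / 100000 * (45 * mp + 3215 / 10000 * mp ^ 2) := by
  have hxk : 0 ≤ x * k := mul_nonneg hx hk0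
  by_cases h57 : 57 ≤ n
  · have h56 : 56 ≤ n := by omega
    rw [if_pos h56]
    rw [if_pos h57] at hmp
    have hn : (n : ℝ) = 56 + mp := by linarith
    have hmp1 : (1 : ℝ) ≤ mp := by
      have : (57 : ℝ) ≤ n := by exact_mod_cast h57
      linarith
    have hk2 : k ≤ 159789 / 100 + 10568 / 10000 * (45 * mp + 9 / 28 * mp ^ 2) := by
      rw [hn] at hk; nlinarith
    have h1 : x * k ≤ x * (159789 / 100) + 7 / 150 * (10568 / 10000 * (45 * mp + 9 / 28 * mp ^ 2)) := by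
      have h2 : 0 ≤ 10568 / 10000 * (45 * mp + 9 / 28 * mp ^ 2) := by positivity
      calc x * k ≤ x * (159789 / 100 + 10568 / 10000 * (45 * mp + 9 / 28 * mp ^ 2)) :=
            mul_le_mul_of_nonneg_left hk2 hx
        _ = x * (159789 / 100) + x * (10568 / 10000 * (45 * mp + 9 / 28 * mp ^ 2)) := by ring
        _ ≤ _ := by
            have := mul_le_mul_of_nonneg_right hx1 h2
            linarith
    have h3 : (229 / 2500 - 3 / 1000 : ℝ) = 886 / 10000 := by norm_num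
    rw [h3]
    have hm2 : 0 ≤ mp ^ 2 := sq_nonneg _
    nlinarith
  · rw [if_neg h57] at hmp
    subst hmp
    by_cases h56 : 56 ≤ n
    · have hn : n = 56 := by omega
      rw [if_pos h56]
      subst hn
      have hk2 : k ≤ 159789 / 100 := by norm_num at hk; linarith
      have h1 : x * k ≤ x * (159789 / 100) := mul_le_mul_of_nonneg_left hk2 hx
      nlinarith
    · rw [if_neg h56]
      have hn : (n : ℝ) ≤ 55 := by
        have : n ≤ 55 := by omega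
        exact_mod_cast this
      have hn0 : (0 : ℝ) ≤ n := Nat.cast_nonneg n
      have hk2 : k ≤ 155074 / 100 := by nlinarith
      have h1 : x * k ≤ x * (155074 / 100) := mul_le_mul_of_nonneg_left hk2 hx
      nlinarith

/-- Pointwise: `(n - 1) s <= 55 s + mp W`. -/
lemma s_bound (n : ℕ) (s W mp : ℝ) (hs : 0 ≤ s) (hsW : s ≤ W)
    (hmp : mp = if 57 ≤ n then (n : ℝ) - 56 else 0) :
    ((n : ℝ) - 1) * s ≤ 55 * s + mp * W := by
  by_cases h57 : 57 ≤ n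
  · rw [if_pos h57] at hmp
    have h : (57 : ℝ) ≤ n := by exact_mod_cast h57
    have h1 : 0 ≤ mp := by linarith
    have h2 : mp * s ≤ mp * W := mul_le_mul_of_nonneg_left hsW h1
    have h3 : ((n : ℝ) - 1) * s = 55 * s + mp * s := by rw [hmp]; ring
    linarith
  · rw [if_neg h57] at hmp
    subst hmp
    have h : (n : ℝ) ≤ 56 := by
      have : n ≤ 56 := by omega
      exact_mod_cast this
    nlinarith

/-- Pointwise lower bound. -/
lemma y_bound (n : ℕ) (M s x mp z ps : ℝ) (hs : 0 ≤ s) (hx : 0 ≤ x)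
    (hlo : 3 / 224 * (n : ℝ) * ((n : ℝ) - 56) ≤ M)
    (hbad : n = 56 → 1 ≤ M / (44 / 1000) + s / (71 / 1000) + x * (150 / 7))
    (hmp : mp = if 57 ≤ n then (n : ℝ) - 56 else 0)
    (hz : z = if 56 ≤ n then 0 else 1) (hps : ps = if 57 ≤ n then 1 else 0) :
    44 / 1000 * (1 - z - ps) - 44 / 1000 * (s / (71 / 1000)) - 44 / 1000 * (150 / 7 * x)
      + 3 / 4 * mp + 3 / 224 * mp ^ 2 ≤ if 56 ≤ n then M else 0 := by
  have hs' : 0 ≤ s / (71 / 1000) := by positivity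
  by_cases h57 : 57 ≤ n
  · have h56 : 56 ≤ n := by omega
    rw [if_pos h57] at hmp hps
    rw [if_pos h56] at hz
    rw [if_pos h56]
    have hn : (n : ℝ) = 56 + mp := by linarith
    rw [hn] at hlo
    subst hz hps
    nlinarith
  · rw [if_neg h57] at hmp hps
    by_cases h56 : 56 ≤ n
    · rw [if_pos h56] at hz
      rw [if_pos h56]
      have h := hbad (by omega)
      subst hz hps hmp
      have h1 : M / (44 / 1000) = M * (1000 / 44) := by ring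
      rw [h1] at h
      nlinarith
    · rw [if_neg h56] at hz
      rw [if_neg h56]
      subst hz hps hmp
      nlinarith

/-- Product of the three indicators. -/
noncomputable def III (adj : α → α → Prop) [DecidableRel adj] (a b c : α) : ℝ :=
  Id adj a b * Id adj a c * Id adj b c

lemma III_nonneg (adj : α → α → Prop) [DecidableRel adj] (a b c : α) : 0 ≤ III adj a b c :=
  mul_nonneg (mul_nonneg (Id_nonneg adj a b) (Id_nonneg adj a c)) (Id_nonneg adj b c)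

lemma III_swap (adj : α → α → Prop) [DecidableRel adj] (h : ∀ a b, adj a b → adj b a) (a b c : α) :
    III adj a c b = III adj a b c := by
  unfold III; rw [Id_symm adj h c b]; ring

lemma III_swap2 (adj : α → α → Prop) [DecidableRel adj] (h : ∀ a b, adj a b → adj b a) (a b c : α) :
    III adj b a c = III adj a b c := by
  unfold III; rw [Id_symm adj h b a]; ring

lemma III_rot (adj : α → α → Prop) [DecidableRel adj] (h : ∀ a b, adj a b → adj b a) (a b c : α) :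
    III adj c a b = III adj a b c := by
  unfold III; rw [Id_symm adj h c a, Id_symm adj h c b]; ring

lemma gw_nonneg (S : Finset α) (adj : α → α → Prop) [DecidableRel adj] (w : α → α → ℝ)
    (hw0 : ∀ a ∈ S, ∀ b ∈ S, adj a b → 0 ≤ w a b) (a b : α) (ha : a ∈ S) (hb : b ∈ S) :
    0 ≤ Id adj a b * w a b := by
  unfold Id
  split_ifs with h
  · simpa using hw0 a ha b hb h
  · simp

/-- `T <= sum (n - 1) s`. -/
lemma T_le (S : Finset α) (adj : α → α → Prop) [DecidableRel adj] (w : α → α → ℝ)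
    (hirr : ∀ a, ¬ adj a a) (hw0 : ∀ a ∈ S, ∀ b ∈ S, adj a b → 0 ≤ w a b) (a : α) (ha : a ∈ S) :
    ∑ b ∈ S, ∑ c ∈ S, III adj a b c * w a b ≤
      (∑ b ∈ S, Id adj a b - 1) * ∑ b ∈ S, Id adj a b * w a b := by
  rw [mul_sum]
  refine sum_le_sum fun b hb => ?_
  have h0 := gw_nonneg S adj w hw0 a b ha hb
  have h1 : ∑ c ∈ S, III adj a b c * w a b =
      (∑ c ∈ S, Id adj a c * Id adj b c) * (Id adj a b * w a b) := by
    rw [sum_mul]
    refine sum_congr rfl fun c _ => ?_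
    unfold III; ring
  rw [h1]
  by_cases hab : adj a b
  · refine mul_le_mul_of_nonneg_right ?_ h0
    have h2 : Id adj a b * (1 - Id adj b b) ≤ ∑ c ∈ S, Id adj a c * (1 - Id adj b c) :=
      single_le_sum (f := fun c => Id adj a c * (1 - Id adj b c))
        (fun c _ => mul_nonneg (Id_nonneg adj a c) (by have := Id_le adj b c; linarith)) hb
    rw [Id_self adj hirr b] at h2
    have h3 : Id adj a b = 1 := by unfold Id; rw [if_pos hab]
    rw [h3] at h2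
    have h4 : ∑ c ∈ S, Id adj a c * (1 - Id adj b c) =
        ∑ c ∈ S, Id adj a c - ∑ c ∈ S, Id adj a c * Id adj b c := by
      rw [← sum_sub_distrib]
      exact sum_congr rfl fun c _ => by ring
    rw [h4] at h2
    linarith
  · have h3 : Id adj a b = 0 := by unfold Id; rw [if_neg hab]
    rw [h3]; simp

/-- `s a <= W`. -/
lemma s_le (S : Finset α) (adj : α → α → Prop) [DecidableRel adj] (w : α → α → ℝ)
    (hsym : ∀ a b, adj a b → adj b a) (hirr : ∀ a, ¬ adj a a) (hw : ∀ a b, w a b = w b a)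
    (hw0 : ∀ a ∈ S, ∀ b ∈ S, adj a b → 0 ≤ w a b) (W : ℝ)
    (hW : ∑ a ∈ S, ∑ b ∈ S, Id adj a b * w a b = 2 * W) (a : α) (ha : a ∈ S) :
    ∑ b ∈ S, Id adj a b * w a b ≤ W := by
  have h1 : ∑ a' ∈ S, ∑ b ∈ S, Id adj a' b * w a' b =
      ∑ b ∈ S, Id adj a b * w a b + ∑ a' ∈ S.erase a, ∑ b ∈ S, Id adj a' b * w a' b :=
    (add_sum_erase S (fun a' => ∑ b ∈ S, Id adj a' b * w a' b) ha).symm
  have h2 : ∑ a' ∈ S.erase a, Id adj a' a * w a' a ≤
      ∑ a' ∈ S.erase a, ∑ b ∈ S, Id adj a' b * w a' b := by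
    refine sum_le_sum fun a' ha' => ?_
    have ha'S := mem_of_mem_erase ha'
    exact single_le_sum (f := fun b => Id adj a' b * w a' b)
      (fun b hb => gw_nonneg S adj w hw0 a' b ha'S hb) ha
  have h3 : ∑ a' ∈ S.erase a, Id adj a' a * w a' a = ∑ b ∈ S, Id adj a b * w a b := by
    have h4 := add_sum_erase S (fun b => Id adj a b * w a b) ha
    have h5 : ∑ a' ∈ S.erase a, Id adj a' a * w a' a = ∑ b ∈ S.erase a, Id adj a b * w a b :=
      sum_congr rfl fun b _ => by rw [Id_symm adj hsym b a, hw b a]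
    rw [h5, ← h4]
    simp only [Id_self adj hirr a, zero_mul, zero_add]
  linarith

/-- `R a <= 2 W`. -/
lemma R_le (S : Finset α) (adj : α → α → Prop) [DecidableRel adj] (w : α → α → ℝ)
    (hw0 : ∀ a ∈ S, ∀ b ∈ S, adj a b → 0 ≤ w a b) (W : ℝ)
    (hW : ∑ a ∈ S, ∑ b ∈ S, Id adj a b * w a b = 2 * W) (a : α) :
    ∑ b ∈ S, ∑ c ∈ S, III adj a b c * w b c ≤ 2 * W := by
  rw [← hW]
  refine sum_le_sum fun b hb => sum_le_sum fun c hc => ?_
  have h0 := gw_nonneg S adj w hw0 b c hb hc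
  have h1 : III adj a b c * w b c = (Id adj a b * Id adj a c) * (Id adj b c * w b c) := by
    unfold III; ring
  rw [h1]
  have h2 : Id adj a b * Id adj a c ≤ 1 :=
    mul_le_one₀ (Id_le adj a b) (Id_nonneg adj a c) (Id_le adj a c)
  calc _ ≤ 1 * (Id adj b c * w b c) := mul_le_mul_of_nonneg_right h2 h0
    _ = _ := one_mul _

lemma A_nonneg (S : Finset α) (adj : α → α → Prop) [DecidableRel adj] (w : α → α → ℝ)
    (hw0 : ∀ a ∈ S, ∀ b ∈ S, adj a b → 0 ≤ w a b) (a : α) (ha : a ∈ S) :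
    0 ≤ ∑ b ∈ S, ∑ c ∈ S, III adj a b c * w a b := by
  refine sum_nonneg fun b hb => sum_nonneg fun c _ => ?_
  have h0 := gw_nonneg S adj w hw0 a b ha hb
  have h1 : III adj a b c * w a b = (Id adj a c * Id adj b c) * (Id adj a b * w a b) := by
    unfold III; ring
  rw [h1]
  exact mul_nonneg (mul_nonneg (Id_nonneg adj a c) (Id_nonneg adj b c)) h0

lemma M_eq (S : Finset α) (adj : α → α → Prop) [DecidableRel adj]
    (hsym : ∀ a b, adj a b → adj b a) (w : α → α → ℝ) (x : α → ℝ) (a : α) :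
    ∑ b ∈ S, ∑ c ∈ S, Id adj a b * Id adj a c * Id adj b c *
        (1017 / 10000 * (w a b + w a c) - 24 / 125 * w b c + 229 / 5000 * (x b + x c)
          - 3 / 1000 * x a) =
      1017 / 5000 * (∑ b ∈ S, ∑ c ∈ S, III adj a b c * w a b)
      - 24 / 125 * (∑ b ∈ S, ∑ c ∈ S, III adj a b c * w b c)
      + 229 / 2500 * (∑ b ∈ S, ∑ c ∈ S, III adj a b c * x b)
      - 3 / 1000 * (x a * ∑ b ∈ S, ∑ c ∈ S, III adj a b c) := by
  have e1 : ∑ b ∈ S, ∑ c ∈ S, III adj a b c * w a c = ∑ b ∈ S, ∑ c ∈ S, III adj a b c * w a b := by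
    rw [sum_comm]
    exact sum_congr rfl fun b _ => sum_congr rfl fun c _ => by rw [III_swap adj hsym a b c]
  have e2 : ∑ b ∈ S, ∑ c ∈ S, III adj a b c * x c = ∑ b ∈ S, ∑ c ∈ S, III adj a b c * x b := by
    rw [sum_comm]
    exact sum_congr rfl fun b _ => sum_congr rfl fun c _ => by rw [III_swap adj hsym a b c]
  have e3 : ∑ b ∈ S, ∑ c ∈ S, Id adj a b * Id adj a c * Id adj b c *
        (1017 / 10000 * (w a b + w a c) - 24 / 125 * w b c + 229 / 5000 * (x b + x c)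
          - 3 / 1000 * x a) =
      1017 / 10000 * (∑ b ∈ S, ∑ c ∈ S, III adj a b c * w a b)
      + 1017 / 10000 * (∑ b ∈ S, ∑ c ∈ S, III adj a b c * w a c)
      - 24 / 125 * (∑ b ∈ S, ∑ c ∈ S, III adj a b c * w b c)
      + 229 / 5000 * (∑ b ∈ S, ∑ c ∈ S, III adj a b c * x b)
      + 229 / 5000 * (∑ b ∈ S, ∑ c ∈ S, III adj a b c * x c)
      - 3 / 1000 * (x a * ∑ b ∈ S, ∑ c ∈ S, III adj a b c) := by
    simp only [mul_sum]
    rw [← sum_add_distrib, ← sum_sub_distrib, ← sum_add_distrib, ← sum_add_distrib,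
      ← sum_sub_distrib]
    refine sum_congr rfl fun b _ => ?_
    rw [← sum_add_distrib, ← sum_sub_distrib, ← sum_add_distrib, ← sum_add_distrib,
      ← sum_sub_distrib]
    refine sum_congr rfl fun c _ => ?_
    unfold III; ring
  rw [e3, e1, e2]; ring

lemma sumR (S : Finset α) (adj : α → α → Prop) [DecidableRel adj]
    (hsym : ∀ a b, adj a b → adj b a) (w : α → α → ℝ) :
    ∑ a ∈ S, ∑ b ∈ S, ∑ c ∈ S, III adj a b c * w b c =
      ∑ a ∈ S, ∑ b ∈ S, ∑ c ∈ S, III adj a b c * w a b := by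
  rw [sum_comm]
  refine sum_congr rfl fun b _ => ?_
  rw [sum_comm]
  refine sum_congr rfl fun c _ => sum_congr rfl fun a _ => ?_
  rw [← III_rot adj hsym b c a]

lemma sumX (S : Finset α) (adj : α → α → Prop) [DecidableRel adj]
    (hsym : ∀ a b, adj a b → adj b a) (x : α → ℝ) :
    ∑ a ∈ S, ∑ b ∈ S, ∑ c ∈ S, III adj a b c * x b =
      ∑ a ∈ S, x a * ∑ b ∈ S, ∑ c ∈ S, III adj a b c := by
  rw [sum_comm]
  refine sum_congr rfl fun b _ => ?_
  rw [mul_sum]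
  refine sum_congr rfl fun a _ => ?_
  rw [mul_sum]
  refine sum_congr rfl fun c _ => ?_
  rw [III_swap2 adj hsym b a c, mul_comm]

end SELM

open SELM in
theorem specSEL : SpecSEL := by
  intro α _ S adj _ w x Ns W X hcard hsym hirr hw hw0 hx0 hx1 hlo hkb hsW hX hW hNs hfin
  by_contra hbad
  have hbad' : ∀ a ∈ S, (S.filter (adj a)).card = 56 → 1 ≤
      (∑ q ∈ ((S.filter (adj a)) ×ˢ (S.filter (adj a))).filter (fun q => adj q.1 q.2),
        (1017 / 10000 * (w a q.1 + w a q.2) - 24 / 125 * w q.1 q.2 + 229 / 5000 * (x q.1 + x q.2)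
          - 3 / 1000 * x a)) / (44 / 1000)
      + (∑ b ∈ S.filter (adj a), w a b) / (71 / 1000) + x a * (150 / 7) := by
    intro a ha hn
    by_contra h
    push Not at h
    exact hbad ⟨a, ha, hn, h⟩
  clear hbad
  have hW2 : ∑ a ∈ S, ∑ b ∈ S, Id adj a b * w a b = 2 * W := by
    rw [← hsW]
    exact sum_congr rfl fun a _ => (sumN S adj a (w a)).symm
  -- abbreviations
  obtain ⟨n, hn⟩ : ∃ n : α → ℕ, ∀ a, n a = (S.filter (adj a)).card := ⟨_, fun _ => rfl⟩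
  obtain ⟨s, hs⟩ : ∃ s : α → ℝ, ∀ a, s a = ∑ b ∈ S, Id adj a b * w a b := ⟨_, fun _ => rfl⟩
  obtain ⟨k, hk⟩ : ∃ k : α → ℝ, ∀ a, k a = ∑ b ∈ S, ∑ c ∈ S, III adj a b c := ⟨_, fun _ => rfl⟩
  obtain ⟨A, hA⟩ : ∃ A : α → ℝ, ∀ a, A a = ∑ b ∈ S, ∑ c ∈ S, III adj a b c * w a b :=
    ⟨_, fun _ => rfl⟩
  obtain ⟨R, hR⟩ : ∃ R : α → ℝ, ∀ a, R a = ∑ b ∈ S, ∑ c ∈ S, III adj a b c * w b c :=
    ⟨_, fun _ => rfl⟩
  obtain ⟨Y, hY⟩ : ∃ Y : α → ℝ, ∀ a, Y a = ∑ b ∈ S, ∑ c ∈ S, III adj a b c * x b :=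
    ⟨_, fun _ => rfl⟩
  obtain ⟨M, hM⟩ : ∃ M : α → ℝ, ∀ a, M a = 1017 / 5000 * A a - 24 / 125 * R a
    + 229 / 2500 * Y a - 3 / 1000 * (x a * k a) := ⟨_, fun _ => rfl⟩
  have hMq : ∀ a, ∑ q ∈ ((S.filter (adj a)) ×ˢ (S.filter (adj a))).filter (fun q => adj q.1 q.2),
        (1017 / 10000 * (w a q.1 + w a q.2) - 24 / 125 * w q.1 q.2 + 229 / 5000 * (x q.1 + x q.2)
          - 3 / 1000 * x a) = M a := by
    intro a
    have h := sumC S adj a (fun b c => 1017 / 10000 * (w a b + w a c) - 24 / 125 * w b c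
      + 229 / 5000 * (x b + x c) - 3 / 1000 * x a)
    rw [h, M_eq S adj hsym w x a, hM, hA, hR, hY, hk]
  have hkq : ∀ a, ((((S.filter (adj a)) ×ˢ (S.filter (adj a))).filter
      (fun q => adj q.1 q.2)).card : ℝ) = k a := by
    intro a
    rw [cardC, hk]
    rfl
  have hnn : ∀ a, ((n a : ℕ) : ℝ) = ∑ b ∈ S, Id adj a b := by
    intro a; rw [hn, cardN]
  have hs0 : ∀ a ∈ S, 0 ≤ s a := fun a ha => by
    rw [hs]; exact sum_nonneg fun b hb => gw_nonneg S adj w hw0 a b ha hb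
  have hsW1 : ∀ a ∈ S, s a ≤ W := fun a ha => by
    rw [hs]; exact s_le S adj w hsym hirr hw hw0 W hW2 a ha
  have hk0 : ∀ a, 0 ≤ k a := fun a => by
    rw [hk]; exact sum_nonneg fun b _ => sum_nonneg fun c _ => III_nonneg adj a b c
  have hA0 : ∀ a ∈ S, 0 ≤ A a := fun a ha => by rw [hA]; exact A_nonneg S adj w hw0 a ha
  have hY0 : ∀ a, 0 ≤ Y a := fun a => by
    rw [hY]
    exact sum_nonneg fun b hb => sum_nonneg fun c _ => mul_nonneg (III_nonneg adj a b c) (hx0 b hb)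
  have hR1 : ∀ a, R a ≤ 2 * W := fun a => by rw [hR]; exact R_le S adj w hw0 W hW2 a
  have hAs : ∀ a ∈ S, A a ≤ ((n a : ℝ) - 1) * s a := fun a ha => by
    rw [hA, hnn, hs]; exact T_le S adj w hirr hw0 a ha
  -- sums
  obtain ⟨mp, hmp⟩ : ∃ mp : α → ℝ, ∀ a, mp a = if 57 ≤ n a then (n a : ℝ) - 56 else 0 :=
    ⟨_, fun _ => rfl⟩
  obtain ⟨z, hz⟩ : ∃ z : α → ℝ, ∀ a, z a = if 56 ≤ n a then 0 else 1 := ⟨_, fun _ => rfl⟩
  obtain ⟨ps, hps⟩ : ∃ ps : α → ℝ, ∀ a, ps a = if 57 ≤ n a then 1 else 0 := ⟨_, fun _ => rfl⟩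
  obtain ⟨y, hy⟩ : ∃ y : α → ℝ, ∀ a, y a = if 56 ≤ n a then M a else 0 := ⟨_, fun _ => rfl⟩
  have hT : ∑ a ∈ S, R a = ∑ a ∈ S, A a := by
    simp only [hR, hA]; exact sumR S adj hsym w
  have hXk : ∑ a ∈ S, Y a = ∑ a ∈ S, x a * k a := by
    simp only [hY, hk]; exact sumX S adj hsym x
  have hT2 : ∑ a ∈ S, A a ≤ 110 * W + (∑ a ∈ S, mp a) * W := by
    calc ∑ a ∈ S, A a ≤ ∑ a ∈ S, (55 * s a + mp a * W) := by
          refine sum_le_sum fun a ha => (hAs a ha).trans ?_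
          exact s_bound (n a) (s a) W (mp a) (hs0 a ha) (hsW1 a ha) (hmp a)
      _ = 55 * (2 * W) + (∑ a ∈ S, mp a) * W := by
          rw [sum_add_distrib, ← mul_sum, ← sum_mul, ← hW2]
          simp only [hs]
      _ = _ := by ring
  -- upper bound of the sum of y
  have hup : ∑ a ∈ S, y a ≤ 114 / 10000 * (∑ a ∈ S, A a) + 1421 / 10 * X
      + 437 / 100000 * (45 * ∑ a ∈ S, mp a + 3215 / 10000 * ∑ a ∈ S, mp a ^ 2)
      + 48 / 125 * W * ∑ a ∈ S, z a := by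
    have h1 : ∀ a ∈ S, y a ≤ 1017 / 5000 * A a - 24 / 125 * R a + 229 / 2500 * Y a
        - (if 56 ≤ n a then 3 / 1000 else 0) * (x a * k a) + 48 / 125 * W * z a := by
      intro a ha
      rw [hy, hz]
      have hW0 : 0 ≤ W := (hs0 a ha).trans (hsW1 a ha)
      split_ifs with h
      · rw [hM]; linarith
      · have := hA0 a ha; have := hY0 a; have := hR1 a; linarith
    have h2 : ∀ a ∈ S, (229 / 2500 - (if 56 ≤ n a then 3 / 1000 else 0)) * (x a * k a) ≤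
        1421 / 10 * x a + 437 / 100000 * (45 * mp a + 3215 / 10000 * mp a ^ 2) := by
      intro a ha
      refine kb_bound (n a) (k a) (x a) (mp a) (hx0 a ha) (hx1 a ha) ?_ (hk0 a) (hmp a)
      have := hkb a ha
      rw [hkq, ← hn] at this
      exact this
    have h3 := sum_le_sum h1
    have h4 := sum_le_sum h2
    have h5 : ∑ a ∈ S, (1017 / 5000 * A a - 24 / 125 * R a + 229 / 2500 * Y a
        - (if 56 ≤ n a then 3 / 1000 else 0) * (x a * k a) + 48 / 125 * W * z a) =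
        1017 / 5000 * ∑ a ∈ S, A a - 24 / 125 * ∑ a ∈ S, R a + 229 / 2500 * ∑ a ∈ S, Y a
        - ∑ a ∈ S, (if 56 ≤ n a then 3 / 1000 else 0) * (x a * k a)
        + 48 / 125 * W * ∑ a ∈ S, z a := by
      rw [sum_add_distrib, sum_sub_distrib, sum_add_distrib, sum_sub_distrib, mul_sum, mul_sum,
        mul_sum, mul_sum]
    have h6 : ∑ a ∈ S, (229 / 2500 - (if 56 ≤ n a then 3 / 1000 else 0)) * (x a * k a) =
        229 / 2500 * ∑ a ∈ S, x a * k a
        - ∑ a ∈ S, (if 56 ≤ n a then 3 / 1000 else 0) * (x a * k a) := by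
      rw [mul_sum, ← sum_sub_distrib]
      exact sum_congr rfl fun a _ => by ring
    have h7 : ∑ a ∈ S, (1421 / 10 * x a + 437 / 100000 * (45 * mp a + 3215 / 10000 * mp a ^ 2)) =
        1421 / 10 * X + 437 / 100000 * (45 * ∑ a ∈ S, mp a + 3215 / 10000 * ∑ a ∈ S, mp a ^ 2) := by
      rw [← hX, sum_add_distrib, ← mul_sum, ← mul_sum, sum_add_distrib, ← mul_sum, ← mul_sum]
    rw [h5] at h3
    rw [h6, h7] at h4
    rw [hT, hXk] at h3
    linarith
  -- lower bound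
  have hlow : 44 / 1000 * (240 - ∑ a ∈ S, z a - ∑ a ∈ S, ps a)
      - 44 / 1000 * (2 * W / (71 / 1000)) - 44 / 1000 * (150 / 7 * X)
      + 3 / 4 * ∑ a ∈ S, mp a + 3 / 224 * ∑ a ∈ S, mp a ^ 2 ≤ ∑ a ∈ S, y a := by
    have h1 : ∀ a ∈ S, 44 / 1000 * (1 - z a - ps a) - 44 / 1000 * (s a / (71 / 1000))
        - 44 / 1000 * (150 / 7 * x a) + 3 / 4 * mp a + 3 / 224 * mp a ^ 2 ≤ y a := by
      intro a ha
      rw [hy]
      refine y_bound (n a) (M a) (s a) (x a) (mp a) (z a) (ps a) (hs0 a ha) (hx0 a ha) ?_ ?_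
        (hmp a) (hz a) (hps a)
      · have := hlo a ha
        rw [hMq, ← hn] at this
        exact this
      · intro h
        have := hbad' a ha (by rw [← hn]; exact h)
        rw [hMq, sumN, ← hs] at this
        exact this
    have h2 := sum_le_sum h1
    have h3 : ∑ a ∈ S, (44 / 1000 * (1 - z a - ps a) - 44 / 1000 * (s a / (71 / 1000))
        - 44 / 1000 * (150 / 7 * x a) + 3 / 4 * mp a + 3 / 224 * mp a ^ 2) =
        44 / 1000 * (240 - ∑ a ∈ S, z a - ∑ a ∈ S, ps a)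
        - 44 / 1000 * (2 * W / (71 / 1000)) - 44 / 1000 * (150 / 7 * X)
        + 3 / 4 * ∑ a ∈ S, mp a + 3 / 224 * ∑ a ∈ S, mp a ^ 2 := by
      have hc : ∑ a ∈ S, (1 : ℝ) = 240 := by rw [sum_const, hcard]; norm_num
      have hsS : ∑ a ∈ S, s a = 2 * W := by rw [← hW2]; simp only [hs]
      rw [sum_add_distrib, sum_add_distrib, sum_sub_distrib, sum_sub_distrib, ← mul_sum, ← mul_sum,
        ← mul_sum, ← mul_sum, ← mul_sum, ← mul_sum, sum_sub_distrib, sum_sub_distrib, hc,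
        ← sum_div, hsS, hX]
    rw [h3] at h2
    exact h2
  -- counting
  have hW0 : 0 ≤ W := by
    have h : 0 ≤ 2 * W := by
      rw [← hW2]
      exact sum_nonneg fun a ha => sum_nonneg fun b hb => gw_nonneg S adj w hw0 a b ha hb
    linarith
  have hzc : ∑ a ∈ S, z a ≤ Ns + ∑ a ∈ S, mp a := by
    have h1 : ∀ a ∈ S, z a ≤ (56 - ((S.filter (adj a)).card : ℝ)) + mp a := by
      intro a _
      rw [hz, hmp, ← hn]
      split_ifs with h56 h57 h57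
      · have : (56 : ℝ) ≤ n a := by exact_mod_cast h56
        linarith
      · have : n a = 56 := by omega
        rw [this]; norm_num
      · omega
      · have : n a ≤ 55 := by omega
        have : (n a : ℝ) ≤ 55 := by exact_mod_cast this
        linarith
    have h2 := sum_le_sum h1
    rw [sum_add_distrib] at h2
    linarith
  have hpc : ∑ a ∈ S, ps a ≤ ∑ a ∈ S, mp a := by
    refine sum_le_sum fun a _ => ?_
    rw [hps, hmp]
    split_ifs with h57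
    · have : (57 : ℝ) ≤ n a := by exact_mod_cast h57
      linarith
    · exact le_rfl
  have hmp0 : ∀ a, 0 ≤ mp a := by
    intro a
    rw [hmp]
    split_ifs with h57
    · have : (57 : ℝ) ≤ n a := by exact_mod_cast h57
      linarith
    · exact le_rfl
  have hNp0 : 0 ≤ ∑ a ∈ S, mp a := sum_nonneg fun a _ => hmp0 a
  have hQ0 : 0 ≤ ∑ a ∈ S, mp a ^ 2 := sum_nonneg fun a _ => sq_nonneg _
  have e1 : W * ∑ a ∈ S, z a ≤ W * (Ns + ∑ a ∈ S, mp a) := mul_le_mul_of_nonneg_left hzc hW0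
  have e2 : W * ∑ a ∈ S, mp a ≤ 94 / 100 * ∑ a ∈ S, mp a := mul_le_mul_of_nonneg_right hW hNp0
  have e3 := hlow.trans hup
  nlinarith [e1, e2, e3, hT2, hfin, hzc, hpc, hNp0, hQ0]

end Pool.Agent.Lib.MP_f1379f_gt.FV
end
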