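import Pool.Agent.Lib.MP_f1379f_gt.FV.SpecS2
import Pool.Agent.Lib.MP_f1379f_gt.FV.ANT
import Pool.Agent.Lib.MP_f1379f_gt.FV.LPI
import Pool.Agent.Lib.MP_f1379f_gt.FV.NRP
import Pool.Agent.Lib.MP_f1379f_gt.FV.CEX

section
/-! # MP_f1379f_gt, full Q1, block STAB1, module ANT0: the first antipodal map (as ANT.lean) -/
set_option autoImplicit false

namespace Pool.Agent.Lib.MP_f1379f_gt.FV

namespace ANT0M

open ANTM

section Sums

variable {α : Type} [DecidableEq α] {N : Finset α} {p : α → V7} {C : Finset (α × α)}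

theorem s1 (hK : SpecKER7) (h : LK N p C (3755 / 1000) (23 / 50)) :
    2777 / 50 ≤ ∑ q ∈ PP N C, A7 (tt p q) := by
  have h1 := hK.a N p h.unit
  rw [offd N fun i j => A7 (inner ℝ (p i) (p j)), h.card] at h1
  have h2 : ∑ i ∈ N, A7 (inner ℝ (p i) (p i)) = 56 := by
    have h3 : ∀ i ∈ N, A7 (inner ℝ (p i) (p i)) = 1 := by
      intro i hi
      rw [real_inner_self_eq_norm_sq, h.unit i hi]
      norm_num [A7]
    rw [Finset.sum_congr rfl h3, Finset.sum_const, h.card]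
    norm_num
  rw [h2] at h1
  have h4 := Finset.sum_filter_add_sum_filter_not N.offDiag (fun q => q ∈ C)
    (fun q => A7 (inner ℝ (p q.1) (p q.2)))
  have h5 := h.ccA
  have h6 : ∑ q ∈ PP N C, A7 (tt p q) =
      ∑ q ∈ N.offDiag.filter (fun q => ¬ q ∈ C), A7 (inner ℝ (p q.1) (p q.2)) := rfl
  rw [h6]
  have h7 : ((56 : ℕ) : ℝ) ^ 2 / 28 = 112 := by norm_num
  rw [h7] at h1
  linarith

theorem s2 (hK : SpecKER7) (h : LK N p C (3755 / 1000) (23 / 50)) :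
    ∑ q ∈ PP N C, G7 (tt p q) ≤ 3755 / 1000 := by
  have h1 := hK.t2 N p h.unit
  rw [h.card] at h1
  have h2 := h.bud
  have h6 : ∑ q ∈ PP N C, G7 (tt p q) =
      ∑ q ∈ N.offDiag.filter (fun q => q ∉ C), G7 (inner ℝ (p q.1) (p q.2)) := rfl
  rw [h6]
  have h7 : ((56 : ℕ) : ℝ) ^ 2 / 7 = 448 := by norm_num
  rw [h7] at h1
  have h8 : 0 ≤ 228 / 11 * (∑ b ∈ N, ∑ c ∈ N, (inner ℝ (p b) (p c) : ℝ) ^ 2 - 448) := by
    have : 0 ≤ ∑ b ∈ N, ∑ c ∈ N, (inner ℝ (p b) (p c) : ℝ) ^ 2 - 448 := by linarith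
    positivity
  linarith

/-- the matched pairs: bound for the rest -/
theorem rest (hK : SpecKER7) (h : LK N p C (3755 / 1000) (23 / 50)) (κ : ℝ)
    (hκ0 : 0 ≤ κ) (hκ : ∀ q ∈ PP N C, q ∉ MM N p → A7 (tt p q) ≤ κ * G7 (tt p q)) :
    2777 / 50 ≤ ∑ q ∈ MM N p, A7 (tt p q) + κ * (3755 / 1000 - ∑ q ∈ MM N p, G7 (tt p q)) := by
  have h1 := ANT0M.s1 hK h
  have h2 := ANT0M.s2 hK h
  have hs := MM_sub h
  rw [← Finset.sum_sdiff hs] at h1 h2
  have h3 : ∑ q ∈ PP N C \ MM N p, A7 (tt p q) ≤ κ * ∑ q ∈ PP N C \ MM N p, G7 (tt p q) := by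
    rw [Finset.mul_sum]
    refine Finset.sum_le_sum fun q hq => ?_
    obtain ⟨h4, h5⟩ := Finset.mem_sdiff.1 hq
    exact hκ q h4 h5
  have h4 : κ * ∑ q ∈ PP N C \ MM N p, G7 (tt p q) ≤
      κ * (3755 / 1000 - ∑ q ∈ MM N p, G7 (tt p q)) := by
    refine mul_le_mul_of_nonneg_left ?_ hκ0
    linarith
  linarith

theorem card_MM (hK : SpecKER7) (h : LK N p C (3755 / 1000) (23 / 50)) : (MM N p).card = 56 := by
  have h1 := ANT0M.rest hK h (11 / 32) (by norm_num) fun q hq hM =>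
    A_le_G (rest_cond h hq hM).le (PP_le h hq).2
  have h2 : ∑ q ∈ MM N p, A7 (tt p q) ≤ (MM N p).card := by
    have h3 : ∑ q ∈ MM N p, A7 (tt p q) ≤ ∑ _q ∈ MM N p, (1 : ℝ) := by
      refine Finset.sum_le_sum fun q hq => ?_
      have h4 := tt_abs h (mem_MM.1 hq).1.1 (mem_MM.1 hq).1.2.1
      exact A_le_one h4.1 h4.2
    rwa [Finset.sum_const, nsmul_eq_mul, mul_one] at h3
  have h3 : 0 ≤ ∑ q ∈ MM N p, G7 (tt p q) := by
    refine Finset.sum_nonneg fun q hq => ?_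
    have h4 := PP_le h (MM_sub h hq)
    exact G_nonneg h4.1 h4.2
  have h4 : (54 : ℝ) < (MM N p).card := by linarith
  have h5 : 54 < (MM N p).card := by exact_mod_cast h4
  have h6 : Even (MM N p).card := by
    refine even_card _ (fun q hq => ?_) fun q hq => (mem_MM.1 hq).1.2.2
    obtain ⟨⟨h1, h2, h3⟩, h4⟩ := mem_MM.1 hq
    exact mem_MM.2 ⟨⟨h2, h1, h3.symm⟩, by rwa [tt_swap]⟩
  have h7 : (MM N p).card ≤ 56 := by
    rw [← h.card]
    refine Finset.card_le_card_of_injOn Prod.fst (fun q hq => (mem_MM.1 hq).1.1) ?_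
    intro q hq q' hq' heq
    obtain ⟨⟨a1, a2, a3⟩, a4⟩ := mem_MM.1 hq
    obtain ⟨⟨b1, b2, b3⟩, b4⟩ := mem_MM.1 hq'
    refine Prod.ext heq (uniq h a1 a2 b2 a4 ?_)
    have : (q.1, q'.2) = q' := Prod.ext heq rfl
    rwa [this]
  obtain ⟨k, hk⟩ := h6
  omega

theorem exists_partner (hK : SpecKER7) (h : LK N p C (3755 / 1000) (23 / 50)) {b : α}
    (hb : b ∈ N) : ∃ c, c ∈ N ∧ b ≠ c ∧ tt p (b, c) ≤ -21 / 25 := by
  have h1 := ANT0M.card_MM hK h
  have hinj : Set.InjOn Prod.fst (MM N p : Set (α × α)) := by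
    intro q hq q' hq' heq
    obtain ⟨⟨a1, a2, a3⟩, a4⟩ := mem_MM.1 hq
    obtain ⟨⟨b1, b2, b3⟩, b4⟩ := mem_MM.1 hq'
    refine Prod.ext heq (uniq h a1 a2 b2 a4 ?_)
    have : (q.1, q'.2) = q' := Prod.ext heq rfl
    rwa [this]
  have h2 : ((MM N p).image Prod.fst).card = 56 := by
    rw [Finset.card_image_of_injOn hinj, h1]
  have h3 : (MM N p).image Prod.fst = N := by
    refine Finset.eq_of_subset_of_card_le ?_ (by rw [h2, h.card])
    intro x hx
    obtain ⟨q, hq, rfl⟩ := Finset.mem_image.1 hx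
    exact (mem_MM.1 hq).1.1
  rw [← h3] at hb
  obtain ⟨q, hq, rfl⟩ := Finset.mem_image.1 hb
  obtain ⟨⟨a1, a2, a3⟩, a4⟩ := mem_MM.1 hq
  exact ⟨q.2, a2, a3, a4⟩

/-- the inequality with a set `E` of special points -/
theorem core (hK : SpecKER7) (h : LK N p C (3755 / 1000) (23 / 50)) (σ : α → α)
    (hσ : ∀ b ∈ N, σ b ∈ N ∧ b ≠ σ b ∧ tt p (b, σ b) ≤ -21 / 25) (κ : ℝ)
    (hκ0 : 0 ≤ κ) (hκ : ∀ q ∈ PP N C, q ∉ MM N p → A7 (tt p q) ≤ κ * G7 (tt p q))
    (E : Finset α) (hE : E ⊆ N) :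
    2777 / 50 ≤ ∑ x ∈ E, A7 (tt p (x, σ x)) + (56 - (E.card : ℝ)) +
      κ * (3755 / 1000 - ∑ x ∈ E, G7 (tt p (x, σ x))) := by
  have h1 := ANT0M.rest hK h κ hκ0 hκ
  rw [sum_MM h σ hσ A7, sum_MM h σ hσ G7, ← Finset.sum_sdiff hE,
    ← Finset.sum_sdiff hE (f := fun x => G7 (tt p (x, σ x)))] at h1
  have h2 : ∑ x ∈ N \ E, A7 (tt p (x, σ x)) ≤ 56 - (E.card : ℝ) := by
    have h3 : ∑ x ∈ N \ E, A7 (tt p (x, σ x)) ≤ ∑ _x ∈ N \ E, (1 : ℝ) := by
      refine Finset.sum_le_sum fun x hx => ?_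
      have hx' := (Finset.mem_sdiff.1 hx).1
      have h4 := tt_abs h (q := (x, σ x)) hx' (hσ x hx').1
      exact A_le_one h4.1 h4.2
    rw [Finset.sum_const, nsmul_eq_mul, mul_one, Finset.card_sdiff_of_subset hE, h.card] at h3
    have h5 : E.card ≤ 56 := by
      rw [← h.card]
      exact Finset.card_le_card hE
    rwa [Nat.cast_sub h5] at h3
  have h6 : 0 ≤ ∑ x ∈ N \ E, G7 (tt p (x, σ x)) := by
    refine Finset.sum_nonneg fun x hx => ?_
    have hx' := (Finset.mem_sdiff.1 hx).1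
    have h4 := tt_abs h (q := (x, σ x)) hx' (hσ x hx').1
    exact G_nonneg h4.1 (by have := (hσ x hx').2.2; linarith)
  have h7 : κ * (3755 / 1000 - (∑ x ∈ N \ E, G7 (tt p (x, σ x)) + ∑ x ∈ E, G7 (tt p (x, σ x)))) ≤
      κ * (3755 / 1000 - ∑ x ∈ E, G7 (tt p (x, σ x))) := by
    refine mul_le_mul_of_nonneg_left ?_ hκ0
    linarith
  linarith

end Sums

end ANT0M

open ANTM ANT0M in
open Classical in
theorem specANT0 (hKER7 : SpecKER7) : SpecANT0 := by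
  intro α _ N p C h
  have hex : ∀ b, ∃ c, b ∈ N → c ∈ N ∧ b ≠ c ∧ tt p (b, c) ≤ -21 / 25 := by
    intro b
    by_cases hb : b ∈ N
    · obtain ⟨c, hc⟩ := ANT0M.exists_partner hKER7 h hb
      exact ⟨c, fun _ => hc⟩
    · exact ⟨b, fun h => absurd h hb⟩
  choose σ hσ using hex
  have hinv : ∀ b ∈ N, σ (σ b) = b := by
    intro b hb
    obtain ⟨h1, h2, h3⟩ := hσ b hb
    obtain ⟨h4, h5, h6⟩ := hσ (σ b) h1
    refine uniq h h1 h4 hb h6 ?_
    have := tt_swap p (b, σ b)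
    rw [Prod.swap_prod_mk] at this
    rw [this]
    exact h3
  have hsym : ∀ b ∈ N, tt p (σ b, σ (σ b)) = tt p (b, σ b) := by
    intro b hb
    rw [hinv b hb]
    exact tt_swap p (b, σ b)
  have hnear : ∀ b ∈ N, tt p (b, σ b) ≤ -9 / 10 := by
    intro b hb
    by_contra hlt
    have h0 : -9 / 10 < tt p (b, σ b) := not_le.1 hlt
    obtain ⟨h1, h2, h3⟩ := hσ b hb
    have hG := G_big h0.le h3
    have hA := A_small h0.le h3
    have hbM : (b, σ b) ∈ MM N p := mem_MM.2 ⟨⟨hb, h1, h2⟩, h3⟩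
    have hbM' : (σ b, b) ∈ MM N p := by
      refine mem_MM.2 ⟨⟨h1, hb, h2.symm⟩, ?_⟩
      have := tt_swap p (b, σ b)
      rw [Prod.swap_prod_mk] at this
      rw [this]
      exact h3
    have hκ : ∀ q ∈ PP N C, q ∉ MM N p → A7 (tt p q) ≤ 297 / 2000 * G7 (tt p q) := by
      intro q hq hM
      have hr := rest_cond h hq hM
      refine A_le_G' ?_ (PP_le h hq).2
      by_contra hlt'
      have hq68 : tt p q ≤ -17 / 25 := (not_le.1 hlt').le
      have hG' := G_big' hr.le hq68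
      have hqs : q.swap ∈ PP N C := by
        obtain ⟨⟨a1, a2, a3⟩, a4⟩ := mem_PP.1 hq
        exact mem_PP.2 ⟨⟨a2, a1, a3.symm⟩, fun hC => a4 (h.symm _ _ hC)⟩
      have hqsM : q.swap ∉ MM N p := by
        intro hC
        apply hM
        obtain ⟨⟨a1, a2, a3⟩, a4⟩ := mem_MM.1 hC
        exact mem_MM.2 ⟨⟨a2, a1, a3.symm⟩, by rwa [tt_swap] at a4⟩
      have h5 := ANT0M.s2 hKER7 h
      have h6 : ({(b, σ b), (σ b, b)} ∪ {q, q.swap} : Finset (α × α)) ⊆ PP N C := by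
        intro x hx
        simp only [Finset.mem_union, Finset.mem_insert, Finset.mem_singleton] at hx
        rcases hx with (rfl | rfl) | (rfl | rfl)
        · exact MM_sub h hbM
        · exact MM_sub h hbM'
        · exact hq
        · exact hqs
      have h7 : ∑ x ∈ ({(b, σ b), (σ b, b)} ∪ {q, q.swap} : Finset (α × α)), G7 (tt p x) ≤
          ∑ x ∈ PP N C, G7 (tt p x) :=
        Finset.sum_le_sum_of_subset_of_nonneg h6 fun x hx _ =>
          G_nonneg (PP_le h hx).1 (PP_le h hx).2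
      have hdis : Disjoint ({(b, σ b), (σ b, b)} : Finset (α × α)) {q, q.swap} := by
        rw [Finset.disjoint_left]
        intro x hx hx'
        simp only [Finset.mem_insert, Finset.mem_singleton] at hx hx'
        have hx1 : x ∈ MM N p := by
          rcases hx with rfl | rfl
          · exact hbM
          · exact hbM'
        rcases hx' with rfl | rfl
        · exact hM hx1
        · exact hqsM hx1
      have hne1 : (b, σ b) ≠ (σ b, b) := fun hc => h2 (congrArg Prod.fst hc)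
      have hne2 : q ≠ q.swap := fun hc => (mem_PP.1 hq).1.2.2 (congrArg Prod.fst hc)
      rw [Finset.sum_union hdis, Finset.sum_pair hne1, Finset.sum_pair hne2, tt_swap] at h7
      have h8 : tt p (σ b, b) = tt p (b, σ b) := tt_swap p (b, σ b)
      rw [h8] at h7
      linarith
    have hcore := ANT0M.core hKER7 h σ hσ (297 / 2000) (by norm_num) hκ {b, σ b} (by
      intro x hx
      simp only [Finset.mem_insert, Finset.mem_singleton] at hx
      rcases hx with rfl | rfl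
      · exact hb
      · exact h1)
    rw [Finset.sum_pair h2, Finset.sum_pair h2, Finset.card_pair h2, hsym b hb] at hcore
    push_cast at hcore
    linarith
  exact ⟨σ, fun b hb => ⟨(hσ b hb).1, hinv b hb, (hσ b hb).2.1.symm⟩, hnear⟩

end Pool.Agent.Lib.MP_f1379f_gt.FV
end

section
set_option autoImplicit false

namespace Pool.Agent.Lib.MP_f1379f_gt.FV

open Finset

namespace CCSaux

theorem TT_comm' (u v : E) : TT u v = TT v u := by
  unfold TT
  rw [real_inner_comm]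
  ring

theorem mem_CB {U : Finset E} {x : E} {q : E × E} :
    q ∈ CB U x ↔ (q.1 ∈ NB U x ∧ q.2 ∈ NB U x) ∧ q.1 ≠ q.2 ∧ 9 / 20 ≤ TT q.1 q.2 := by
  unfold CB
  rw [mem_filter, mem_product]

theorem CB_swap {U : Finset E} {x : E} {q : E × E} (h : q ∈ CB U x) : q.swap ∈ CB U x := by
  rw [mem_CB] at h ⊢
  refine ⟨⟨h.1.2, h.1.1⟩, h.2.1.symm, ?_⟩
  simpa [TT_comm'] using h.2.2

end CCSaux

open CCSaux in
theorem specCCS (hRBD : SpecRBD) (hGEO : SpecGEO) (hLLB : SpecLLB) : SpecCCS := by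
  intro U hU hW x hx D hD
  classical
  set g : E → ℝ := fun b => 7 / 20 * sl x b + 7 / 40 * xr b with hg
  have hNB : ∀ b ∈ NB U x, b ∈ nearS U ∧ b ≠ x := by
    intro b hb
    unfold NB at hb
    rw [mem_filter] at hb
    exact ⟨hb.1, hb.2.1⟩
  have hg0 : ∀ b ∈ NB U x, 0 ≤ g b := by
    intro b hb
    obtain ⟨h1, h2⟩ := hNB b hb
    have h3 := hRBD.sl0 U hU x hx b h1 (Ne.symm h2)
    have h4 := hRBD.pos U hU hW b h1
    simp only [hg]
    linarith
  -- pointwise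
  have hpt : ∀ q ∈ CB U x, max (hT x q.1 q.2 - 1 / 2) 0 ≤ g q.1 + g q.2 := by
    intro q hq
    obtain ⟨⟨hb, hc⟩, hne, -⟩ := mem_CB.1 hq
    obtain ⟨hGD, hTe, -⟩ := hLLB.tr U hU hW x hx q.1 hb q.2 hc hne
    have h1 := hGEO.ex _ _ _ _ _ _ hGD
    have h2 := hg0 _ hb
    have h3 := hg0 _ hc
    refine max_le ?_ (by linarith)
    rw [hTe]
    simp only [hg]
    linarith
  have hswap : ∑ q ∈ CB U x, g q.2 = ∑ q ∈ CB U x, g q.1 := by
    refine Finset.sum_nbij' Prod.swap Prod.swap ?_ ?_ ?_ ?_ ?_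
    · intro q hq; exact CB_swap hq
    · intro q hq; exact CB_swap hq
    · intro q _; simp
    · intro q _; simp
    · intro q _; simp
  have hfib : ∑ q ∈ CB U x, g q.1 =
      ∑ b ∈ NB U x, ((NB U x).filter (fun c => c ≠ b ∧ (b, c) ∈ CB U x)).card * g b := by
    rw [← Finset.sum_fiberwise_of_maps_to (s := CB U x) (t := NB U x) (g := Prod.fst)
      (fun q hq => (mem_CB.1 hq).1.1)]
    refine Finset.sum_congr rfl ?_
    intro b hb
    rw [Finset.sum_congr rfl (g := fun _ => g b) (fun q hq => by rw [(mem_filter.1 hq).2])]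
    rw [Finset.sum_const, nsmul_eq_mul]
    congr 2
    refine Finset.card_nbij' Prod.snd (fun c => (b, c)) ?_ ?_ ?_ ?_
    · intro q hq
      rw [Finset.mem_coe, mem_filter] at hq
      obtain ⟨hq1, rfl⟩ := hq
      rw [Finset.mem_coe, mem_filter]
      have h := mem_CB.1 hq1
      exact ⟨h.1.2, h.2.1.symm, hq1⟩
    · intro c hc
      rw [Finset.mem_coe, mem_filter] at hc ⊢
      exact ⟨hc.2.2, rfl⟩
    · intro q hq
      rw [Finset.mem_coe, mem_filter] at hq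
      obtain ⟨hq1, rfl⟩ := hq
      rfl
    · intro c _
      rfl
  calc ∑ q ∈ CB U x, max (hT x q.1 q.2 - 1 / 2) 0 ≤ ∑ q ∈ CB U x, (g q.1 + g q.2) :=
        Finset.sum_le_sum hpt
    _ = 2 * ∑ b ∈ NB U x, ((NB U x).filter (fun c => c ≠ b ∧ (b, c) ∈ CB U x)).card * g b := by
        rw [Finset.sum_add_distrib, hswap, hfib]; ring
    _ ≤ 2 * ∑ b ∈ NB U x, (D : ℝ) * g b := by
        refine mul_le_mul_of_nonneg_left ?_ (by norm_num)
        refine Finset.sum_le_sum ?_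
        intro b hb
        exact mul_le_mul_of_nonneg_right (by exact_mod_cast hD b hb) (hg0 b hb)
    _ = D * (7 / 10 * SX U x + 7 / 20 * ∑ b ∈ NB U x, xr b) := by
        rw [← Finset.mul_sum]
        simp only [hg, SX]
        rw [Finset.sum_add_distrib, ← Finset.mul_sum, ← Finset.mul_sum]
        ring

end Pool.Agent.Lib.MP_f1379f_gt.FV
end

section
/-!
# MP_f1379f_gt, block STAB1: module CCT (contact sums)
-/
set_option autoImplicit false

namespace Pool.Agent.Lib.MP_f1379f_gt.FV.CCTM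

open Finset

theorem pt_sq (T : ℝ) (h1 : 11 / 25 ≤ T) (h2 : T ≤ 27 / 50) :
    (T - 1 / 2) ^ 2 ≤ 33 / 100 * F7 T + 141 / 1000 * max (T - 1 / 2) 0 := by
  rcases le_total T (1 / 2) with h | h
  · rw [max_eq_right (by linarith)]
    have hF : F7 T = T ^ 2 * (1 / 2 - T) * (1 / 2 + T) := by unfold F7; ring
    rw [hF]
    have key : (1 / 2 - T) ≤ 33 / 100 * (T ^ 2 * (1 / 2 + T)) := by
      nlinarith [mul_nonneg (sub_nonneg.2 h1) (sub_nonneg.2 h1),
        mul_nonneg (mul_nonneg (sub_nonneg.2 h1) (sub_nonneg.2 h1)) (sub_nonneg.2 h1)]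
    nlinarith [mul_le_mul_of_nonneg_left key (sub_nonneg.2 h)]
  · rw [max_eq_left (by linarith)]
    have hF : F7 T = -(T ^ 2 * (T - 1 / 2) * (1 / 2 + T)) := by unfold F7; ring
    rw [hF]
    have key : (T - 1 / 2) + 33 / 100 * (T ^ 2 * (1 / 2 + T)) ≤ 141 / 1000 := by
      have h3 : 0 ≤ T := by linarith
      have h4 : T ^ 2 ≤ (27 / 50) ^ 2 := by nlinarith
      nlinarith [mul_le_mul h4 h2 h3 (by positivity : (0:ℝ) ≤ (27 / 50) ^ 2)]
    nlinarith [mul_le_mul_of_nonneg_left key (sub_nonneg.2 h)]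

theorem pt_a7 (T : ℝ) (h1 : 11 / 25 ≤ T) (h2 : T ≤ 27 / 50) :
    A7 ((4 * T - 1) / 3) ≤ 64 / 250 * F7 T + 1 / 8 * max (T - 1 / 2) 0 := by
  have hA : A7 ((4 * T - 1) / 3) = 4 * T ^ 2 * (T - 1 / 2) ^ 2 := by unfold A7; ring
  rw [hA]
  rcases le_total T (1 / 2) with h | h
  · rw [max_eq_right (by linarith)]
    have hF : F7 T = T ^ 2 * (1 / 2 - T) * (1 / 2 + T) := by unfold F7; ring
    rw [hF]
    have key : 4 * (1 / 2 - T) ≤ 64 / 250 * (1 / 2 + T) := by nlinarith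
    have h3 : 0 ≤ T ^ 2 * (1 / 2 - T) := mul_nonneg (by positivity) (by linarith)
    nlinarith [mul_le_mul_of_nonneg_left key h3]
  · rw [max_eq_left (by linarith)]
    have hF : F7 T = -(T ^ 2 * (T - 1 / 2) * (1 / 2 + T)) := by unfold F7; ring
    rw [hF]
    have h3 : 0 ≤ T := by linarith
    have h4 : T ^ 2 ≤ (27 / 50) ^ 2 := by nlinarith
    have h5 : T ^ 2 * T ≤ (27 / 50) ^ 3 := by
      nlinarith [mul_le_mul h4 h2 h3 (by positivity : (0:ℝ) ≤ (27 / 50) ^ 2)]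
    have key : 4 * T ^ 2 * (T - 1 / 2) + 64 / 250 * (T ^ 2 * (1 / 2 + T)) ≤ 1 / 8 := by
      nlinarith
    nlinarith [mul_le_mul_of_nonneg_left key (sub_nonneg.2 h)]

theorem sum_aux {ι : Type} (s : Finset ι) (f g m : ι → ℝ) (c d : ℝ) (hc : 0 ≤ c)
    (h : ∀ i ∈ s, f i ≤ c * g i + d * m i) (hg : 0 ≤ ∑ i ∈ s, -g i) :
    ∑ i ∈ s, f i ≤ d * ∑ i ∈ s, m i := by
  have h1 : ∑ i ∈ s, f i ≤ ∑ i ∈ s, (c * g i + d * m i) := sum_le_sum h
  rw [sum_add_distrib, ← mul_sum, ← mul_sum] at h1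
  rw [sum_neg_distrib] at hg
  have h2 : c * ∑ i ∈ s, g i ≤ 0 := mul_nonpos_of_nonneg_of_nonpos hc (by linarith)
  linarith

end Pool.Agent.Lib.MP_f1379f_gt.FV.CCTM

namespace Pool.Agent.Lib.MP_f1379f_gt.FV

open CCTM

/-- Contact sums. -/
theorem specCCT : SpecCCT where
  sq := fun s T h1 h2 h => sum_aux s (fun i => (T i - 1 / 2) ^ 2) (fun i => F7 (T i))
    (fun i => max (T i - 1 / 2) 0) (33 / 100) (141 / 1000) (by norm_num)
    (fun i hi => pt_sq (T i) (h1 i hi) (h2 i hi)) h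
  a7 := fun s T h1 h2 h => sum_aux s (fun i => A7 ((4 * T i - 1) / 3)) (fun i => F7 (T i))
    (fun i => max (T i - 1 / 2) 0) (64 / 250) (1 / 8) (by norm_num)
    (fun i hi => pt_a7 (T i) (h1 i hi) (h2 i hi)) h

end Pool.Agent.Lib.MP_f1379f_gt.FV
end

section
set_option autoImplicit false

namespace Pool.Agent.Lib.MP_f1379f_gt.FV

open Finset

theorem specDEG : SpecDEG := by
  intro α _ N p C B cA σ hLK hσ hσn b hb
  classical
  -- the set of contacts
  set Cb : Finset α := N.filter (fun c => c ≠ b ∧ (b, c) ∈ C) with hCb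
  have hmem : ∀ c, c ∈ Cb ↔ c ∈ N ∧ c ≠ b ∧ (b, c) ∈ C := by
    intro c; rw [hCb, mem_filter]
  have hcon : ∀ c ∈ Cb, 19 / 75 ≤ (inner ℝ (p b) (p c) : ℝ) := by
    intro c hc
    obtain ⟨h1, h2, h3⟩ := (hmem c).1 hc
    exact hLK.con b hb c h1 (Ne.symm h2) h3
  -- no contact is sigma b
  have hns : σ b ∉ Cb := by
    intro h
    have h1 := hcon _ h
    have h2 := hσn b hb
    linarith
  -- sigma c is not a contact
  have hpair : ∀ c ∈ Cb, σ c ∉ Cb := by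
    intro c hc hc'
    obtain ⟨hcN, -, -⟩ := (hmem c).1 hc
    have h1 := hcon _ hc
    have h2 := hcon _ hc'
    have hsum : (38 : ℝ) / 75 ≤ (inner ℝ (p b) (p c + p (σ c)) : ℝ) := by
      rw [inner_add_right]; linarith
    have hle : (inner ℝ (p b) (p c + p (σ c)) : ℝ) ≤ ‖p b‖ * ‖p c + p (σ c)‖ :=
      real_inner_le_norm _ _
    have hb1 : ‖p b‖ = 1 := hLK.unit b hb
    have hc1 : ‖p c‖ = 1 := hLK.unit c hcN
    have hc2 : ‖p (σ c)‖ = 1 := hLK.unit _ (hσ c hcN).1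
    have hsq : ‖p c + p (σ c)‖ ^ 2 = 2 + 2 * (inner ℝ (p c) (p (σ c)) : ℝ) := by
      rw [norm_add_sq_real, hc1, hc2]; ring
    have h3 := hσn c hcN
    have h4 : ‖p c + p (σ c)‖ ^ 2 ≤ 1 / 5 := by rw [hsq]; linarith
    rw [hb1, one_mul] at hle
    have h5 : (38 : ℝ) / 75 ≤ ‖p c + p (σ c)‖ := le_trans hsum hle
    nlinarith [norm_nonneg (p c + p (σ c))]
  -- injectivity of sigma on N
  have hinj : Set.InjOn σ (N : Set α) := by
    intro x hx y hy hxy
    have h1 := (hσ x hx).2.1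
    have h2 := (hσ y hy).2.1
    rw [← h1, ← h2, hxy]
  have hsub : Cb ⊆ (N.erase b).erase (σ b) := by
    intro c hc
    obtain ⟨h1, h2, -⟩ := (hmem c).1 hc
    refine mem_erase.2 ⟨?_, mem_erase.2 ⟨h2, h1⟩⟩
    rintro rfl
    exact hns hc
  have himg : Cb.image σ ⊆ (N.erase b).erase (σ b) := by
    intro c hc
    obtain ⟨d, hd, rfl⟩ := mem_image.1 hc
    obtain ⟨h1, h2, -⟩ := (hmem d).1 hd
    refine mem_erase.2 ⟨?_, mem_erase.2 ⟨?_, (hσ d h1).1⟩⟩
    · intro h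
      exact h2 (hinj h1 hb h)
    · intro h
      apply hns
      have : σ (σ d) = σ b := by rw [h]
      rw [(hσ d h1).2.1] at this
      rw [← this]; exact hd
  have hdisj : Disjoint Cb (Cb.image σ) := by
    rw [disjoint_left]
    intro c hc hc'
    obtain ⟨d, hd, rfl⟩ := mem_image.1 hc'
    exact hpair d hd hc
  have hcard : (Cb ∪ Cb.image σ).card ≤ ((N.erase b).erase (σ b)).card :=
    card_le_card (union_subset hsub himg)
  rw [card_union_of_disjoint hdisj, card_image_of_injOn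
    (fun x hx y hy h => hinj ((hmem x).1 hx).1 ((hmem y).1 hy).1 h)] at hcard
  have hc54 : ((N.erase b).erase (σ b)).card = 54 := by
    rw [card_erase_of_mem (mem_erase.2 ⟨(hσ b hb).2.2, (hσ b hb).1⟩), card_erase_of_mem hb,
      hLK.card]
  omega

end Pool.Agent.Lib.MP_f1379f_gt.FV
end

section
/-!
# MP_f1379f_gt, full Q1, block STAB1, part 2, module LLB: the link in terms of U
-/
set_option autoImplicit false

namespace Pool.Agent.Lib.MP_f1379f_gt.FV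

open Finset

namespace LLBM

variable {U : Finset E} {x : E}

theorem mem_NB {b : E} : b ∈ NB U x ↔ b ∈ nearS U ∧ b ≠ x ∧ 9 / 20 ≤ TT x b := by
  unfold NB
  rw [mem_filter]

theorem mem_CB {q : E × E} : q ∈ CB U x ↔
    (q.1 ∈ NB U x ∧ q.2 ∈ NB U x) ∧ q.1 ≠ q.2 ∧ 9 / 20 ≤ TT q.1 q.2 := by
  unfold CB
  rw [mem_filter, mem_product]

theorem CB_off : (NB U x).offDiag.filter (fun q => q ∈ CB U x) = CB U x := by
  ext q
  rw [mem_filter, mem_offDiag, mem_CB]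
  constructor
  · exact fun h => h.2
  · exact fun h => ⟨⟨h.1.1, h.1.2, h.2.1⟩, h⟩

theorem TT_comm (u v : E) : TT u v = TT v u := by
  unfold TT
  rw [real_inner_comm]
  ring

theorem inner_gi (u v : E) : (inner ℝ u v : ℝ) = gi (sl u v) (xr u) (xr v) := by
  unfold gi sl xr TT
  ring

theorem normsq (u : E) : ‖u‖ ^ 2 = 1 - xr u := by
  unfold xr
  ring

theorem gA_eq (b : E) : ‖b‖ ^ 2 - (inner ℝ x b : ℝ) ^ 2 / ‖x‖ ^ 2 =
    gA (sl x b) (xr b) (xr x) := by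
  unfold gA
  rw [inner_gi, normsq, normsq]

theorem sum2 (hRBD : SpecRBD) (hA : Adm U) (hW : W2F U < 16) {a b : E} (ha : a ∈ nearS U)
    (hb : b ∈ nearS U) (hab : a ≠ b) : xr a + xr b ≤ 7 / 150 := by
  have h := hRBD.sum U hA hW
  have h1 : ∑ u ∈ ({a, b} : Finset E), xr u ≤ ∑ u ∈ nearS U, xr u :=
    sum_le_sum_of_subset_of_nonneg (by
      intro z hz
      simp only [mem_insert, mem_singleton] at hz
      rcases hz with rfl | rfl <;> assumption) (fun i hi _ => hRBD.pos U hA hW i hi)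
  rw [sum_pair hab] at h1
  linarith

theorem sum3 (hRBD : SpecRBD) (hA : Adm U) (hW : W2F U < 16) {a b c : E} (ha : a ∈ nearS U)
    (hb : b ∈ nearS U) (hc : c ∈ nearS U) (hab : a ≠ b) (hac : a ≠ c) (hbc : b ≠ c) :
    xr a + (xr b + xr c) ≤ 7 / 150 := by
  have h := hRBD.sum U hA hW
  have h1 : ∑ u ∈ ({a, b, c} : Finset E), xr u ≤ ∑ u ∈ nearS U, xr u :=
    sum_le_sum_of_subset_of_nonneg (by
      intro z hz
      simp only [mem_insert, mem_singleton] at hz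
      rcases hz with rfl | rfl | rfl <;> assumption) (fun i hi _ => hRBD.pos U hA hW i hi)
  rw [sum_insert (by simp [hab, hac]), sum_pair hbc] at h1
  linarith

theorem GDt (hRBD : SpecRBD) (hA : Adm U) (hW : W2F U < 16) (hx : x ∈ nearS U) {b c : E}
    (hb : b ∈ NB U x) (hc : c ∈ NB U x) (hbc : b ≠ c) :
    GD (sl x b) (sl x c) (sl b c) (xr b) (xr c) (xr x) := by
  obtain ⟨b1, b2, b3⟩ := mem_NB.1 hb
  obtain ⟨c1, c2, c3⟩ := mem_NB.1 hc
  refine ⟨hRBD.sl0 U hA x hx b b1 b2.symm, by unfold sl; linarith,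
    hRBD.sl0 U hA x hx c c1 c2.symm, by unfold sl; linarith, hRBD.sl0 U hA b b1 c c1 hbc,
    hRBD.pos U hA hW b b1, hRBD.pos U hA hW c c1, hRBD.pos U hA hW x hx, ?_⟩
  have := sum3 hRBD hA hW hx b1 c1 b2.symm c2.symm hbc
  linarith

theorem GD1 (hRBD : SpecRBD) (hA : Adm U) (hW : W2F U < 16) (hx : x ∈ nearS U) {b : E}
    (hb : b ∈ NB U x) : GD (sl x b) 0 0 (xr b) 0 (xr x) := by
  obtain ⟨b1, b2, b3⟩ := mem_NB.1 hb
  refine ⟨hRBD.sl0 U hA x hx b b1 b2.symm, by unfold sl; linarith, le_rfl, by norm_num, le_rfl,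
    hRBD.pos U hA hW b b1, le_rfl, hRBD.pos U hA hW x hx, ?_⟩
  have := sum2 hRBD hA hW hx b1 b2.symm
  linarith

theorem ne0 (hRBD : SpecRBD) (hA : Adm U) (hW : W2F U < 16) (hx : x ∈ nearS U) : x ≠ 0 := by
  intro h
  have h1 : xr x ≤ 7 / 150 := (single_le_sum (f := xr)
    (fun i hi => hRBD.pos U hA hW i hi) hx).trans (hRBD.sum U hA hW)
  unfold xr at h1
  rw [h, norm_zero] at h1
  norm_num at h1

theorem Apos (hRBD : SpecRBD) (hGEO : SpecGEO) (hA : Adm U) (hW : W2F U < 16)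
    (hx : x ∈ nearS U) {b : E} (hb : b ∈ NB U x) :
    0 < ‖b‖ ^ 2 - (inner ℝ x b : ℝ) ^ 2 / ‖x‖ ^ 2 := by
  rw [gA_eq]
  have := (hGEO.A _ _ _ _ _ _ (GD1 hRBD hA hW hx hb)).1
  linarith

theorem unit (hRBD : SpecRBD) (hPRJ : SpecPRJ) (hGEO : SpecGEO) (hA : Adm U) (hW : W2F U < 16)
    (hx : x ∈ nearS U) {b : E} (hb : b ∈ NB U x) : ‖hq x b‖ = 1 :=
  hPRJ.unit x b (ne0 hRBD hA hW hx) (Apos hRBD hGEO hA hW hx hb)

theorem hTe (hRBD : SpecRBD) (hPRJ : SpecPRJ) (hGEO : SpecGEO) (hA : Adm U) (hW : W2F U < 16)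
    (hx : x ∈ nearS U) {b c : E} (hb : b ∈ NB U x) (hc : c ∈ NB U x) :
    hT x b c = gT (sl x b) (sl x c) (sl b c) (xr b) (xr c) (xr x) := by
  unfold hT gT
  rw [hPRJ.inr x b c (ne0 hRBD hA hW hx) (Apos hRBD hGEO hA hW hx hb)
    (Apos hRBD hGEO hA hW hx hc), gA_eq, gA_eq, inner_gi b c, inner_gi x b, inner_gi x c,
    normsq x]

/-- inner products of the link in the T-scale. -/
theorem hT_inner (b c : E) : (inner ℝ (hq x b) (hq x c) : ℝ) = (4 * hT x b c - 1) / 3 := by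
  unfold hT
  ring

theorem G7_F7 (b c : E) : G7 (inner ℝ (hq x b) (hq x c)) = 256 / 3 * F7 (hT x b c) := by
  unfold G7 F7 hT
  ring

/-- Splitting a double sum. -/
theorem split (f : ℝ → ℝ) (g : E → E → ℝ) (hg : ∀ b ∈ NB U x, g b b = 1) :
    ∑ b ∈ NB U x, ∑ c ∈ NB U x, f (g b c) =
      ((NB U x).card : ℝ) * f 1 + ∑ q ∈ CB U x, f (g q.1 q.2)
        + ∑ q ∈ (NB U x).offDiag.filter (fun q => q ∉ CB U x), f (g q.1 q.2) := by
  rw [← sum_product', ← diag_union_offDiag (s := NB U x), sum_union (disjoint_diag_offDiag _),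
    ← sum_filter_add_sum_filter_not (NB U x).offDiag (fun q => q ∈ CB U x), CB_off, ← add_assoc]
  congr 2
  rw [sum_diag, sum_congr rfl (fun b hb => by rw [hg b hb]), sum_const, nsmul_eq_mul]

theorem G7_one : G7 1 = -64 := by
  unfold G7; norm_num

theorem q7_one : 15 / 64 * G7 1 + q7 1 = -9 := by
  unfold G7 q7; norm_num

theorem G7_nonneg {t : ℝ} (h1 : -1 ≤ t) (h2 : t ≤ 1 / 3) : 0 ≤ G7 t := by
  unfold G7
  have : 0 ≤ 1 - 3 * t := by linarith
  have : 0 ≤ 1 + t := by linarith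
  positivity

theorem q7_nonneg {t : ℝ} (h1 : -1 ≤ t) : 0 ≤ q7 t := by
  unfold q7
  have : 0 ≤ 1 + t := by linarith
  positivity

theorem Gq_lo {t : ℝ} (h1 : 19 / 75 ≤ t) (h2 : t ≤ 39 / 100) :
    9463 / 10000 ≤ 15 / 64 * G7 t + q7 t := by
  have e : 15 / 64 * G7 t + q7 t = 3 / 64 * (1 + t) * (1 + 3 * t) ^ 2 * (9 - 15 * t) := by
    unfold G7 q7; ring
  rw [e]
  obtain ⟨s, hs⟩ : ∃ s, s = t - 19 / 75 := ⟨_, rfl⟩
  have ht : t = s + 19 / 75 := by rw [hs]; ring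
  have hs0 : 0 ≤ s := by linarith
  have hs1 : s ≤ 137 / 1000 := by linarith
  rw [ht]
  have h3 : 0 ≤ 137 / 1000 - s := by linarith
  nlinarith [mul_nonneg hs0 h3, mul_nonneg (mul_nonneg hs0 h3) hs0,
    mul_nonneg (mul_nonneg (mul_nonneg hs0 h3) hs0) hs0]

end LLBM

open LLBM in
/-- **LLB.** -/
theorem specLLB (hKER : SpecKER7) (hRBD : SpecRBD) (hPRJ : SpecPRJ) (hGEO : SpecGEO) :
    SpecLLB := by
  -- common facts
  have hup : ∀ U : Finset E, Adm U → W2F U < 16 → ∀ x ∈ nearS U, ∀ b ∈ NB U x, ∀ c ∈ NB U x,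
      b ≠ c → (inner ℝ (hq x b) (hq x c) : ℝ) ≤ 39 / 100 := by
    intro U hA hW x hx b hb c hc hbc
    have h := hGEO.hi _ _ _ _ _ _ (GDt hRBD hA hW hx hb hc hbc)
    rw [← hTe hRBD hPRJ hGEO hA hW hx hb hc] at h
    rw [hT_inner]
    linarith
  have hnon : ∀ U : Finset E, Adm U → W2F U < 16 → ∀ x ∈ nearS U, ∀ b ∈ NB U x, ∀ c ∈ NB U x,
      b ≠ c → (b, c) ∉ CB U x → (inner ℝ (hq x b) (hq x c) : ℝ) ≤ 1 / 3 := by
    intro U hA hW x hx b hb c hc hbc hn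
    have hw : 1 / 20 ≤ sl b c := by
      by_contra hcon
      push Not at hcon
      exact hn (mem_CB.2 ⟨⟨hb, hc⟩, hbc, by
        unfold sl at hcon
        show 9 / 20 ≤ TT b c
        linarith⟩)
    have h := hGEO.nc _ _ _ _ _ _ (GDt hRBD hA hW hx hb hc hbc) hw
    rw [← hTe hRBD hPRJ hGEO hA hW hx hb hc] at h
    rw [hT_inner]
    linarith
  have hcon : ∀ U : Finset E, Adm U → W2F U < 16 → ∀ x ∈ nearS U, ∀ b ∈ NB U x, ∀ c ∈ NB U x,
      b ≠ c → (b, c) ∈ CB U x → 19 / 75 ≤ (inner ℝ (hq x b) (hq x c) : ℝ) := by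
    intro U hA hW x hx b hb c hc hbc hn
    have hw : sl b c ≤ 1 / 20 := by
      have := (mem_CB.1 hn).2.2
      unfold sl
      simp only at this
      linarith
    have h := hGEO.lo _ _ _ _ _ _ (GDt hRBD hA hW hx hb hc hbc) hw
    rw [← hTe hRBD hPRJ hGEO hA hW hx hb hc] at h
    rw [hT_inner]
    linarith
  have hlow : ∀ U : Finset E, Adm U → W2F U < 16 → ∀ x ∈ nearS U, ∀ b ∈ NB U x, ∀ c ∈ NB U x,
      -1 ≤ (inner ℝ (hq x b) (hq x c) : ℝ) := by
    intro U hA hW x hx b hb c hc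
    have h := abs_real_inner_le_norm (hq x b) (hq x c)
    rw [unit hRBD hPRJ hGEO hA hW hx hb, unit hRBD hPRJ hGEO hA hW hx hc, one_mul] at h
    exact (abs_le.1 h).1
  have hdiag : ∀ U : Finset E, Adm U → W2F U < 16 → ∀ x ∈ nearS U, ∀ b ∈ NB U x,
      (inner ℝ (hq x b) (hq x b) : ℝ) = 1 := by
    intro U hA hW x hx b hb
    rw [real_inner_self_eq_norm_sq, unit hRBD hPRJ hGEO hA hW hx hb, one_pow]
  have hGsum : ∀ U : Finset E, ∀ x : E,
      ∑ q ∈ CB U x, G7 (inner ℝ (hq x q.1) (hq x q.2)) = - (256 / 3 * Lx U x) := by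
    intro U x
    unfold Lx
    rw [sum_neg_distrib, mul_neg, neg_neg, mul_sum]
    exact sum_congr rfl fun q _ => G7_F7 _ _
  refine ⟨?_, ?_, ?_, ?_, ?_⟩
  · intro U hA hW x hx b hb c hc hbc
    exact ⟨GDt hRBD hA hW hx hb hc hbc, hTe hRBD hPRJ hGEO hA hW hx hb hc,
      unit hRBD hPRJ hGEO hA hW hx hb⟩
  · intro U hA hW x hx
    obtain ⟨p, hp⟩ := hPRJ.ex x (ne0 hRBD hA hW hx)
    have hu : ∀ b ∈ NB U x, ‖p b‖ = 1 := by
      intro b hb
      have h := hp b b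
      rw [hdiag U hA hW x hx b hb, real_inner_self_eq_norm_sq] at h
      nlinarith [norm_nonneg (p b)]
    have h1 := hKER.g (NB U x) p hu
    have h2 := hKER.t2 (NB U x) p hu
    have h3 : ∑ b ∈ NB U x, ∑ c ∈ NB U x, G7 (inner ℝ (p b) (p c)) =
        ∑ b ∈ NB U x, ∑ c ∈ NB U x, G7 (inner ℝ (hq x b) (hq x c)) := by
      simp only [hp]
    rw [h3, split G7 (fun b c => (inner ℝ (hq x b) (hq x c) : ℝ)) (hdiag U hA hW x hx),
      G7_one, hGsum] at h1
    have h4 : 0 ≤ ∑ q ∈ (NB U x).offDiag.filter (fun q => q ∉ CB U x),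
        G7 (inner ℝ (hq x q.1) (hq x q.2)) := by
      refine sum_nonneg fun q hq => ?_
      rw [mem_filter, mem_offDiag] at hq
      obtain ⟨⟨q1, q2, q3⟩, q4⟩ := hq
      exact G7_nonneg (hlow U hA hW x hx _ q1 _ q2) (hnon U hA hW x hx _ q1 _ q2 q3 q4)
    nlinarith
  · intro U hA hW x hx
    unfold Lx Mx
    refine sum_le_sum fun q hq => ?_
    obtain ⟨⟨q1, q2⟩, q3, q4⟩ := mem_CB.1 hq
    rw [hTe hRBD hPRJ hGEO hA hW hx q1 q2]
    exact hGEO.F _ _ _ _ _ _ (GDt hRBD hA hW hx q1 q2 q3) (by unfold sl; linarith)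
  · intro U hA hW x hx
    obtain ⟨p, hp⟩ := hPRJ.ex x (ne0 hRBD hA hW hx)
    have hu : ∀ b ∈ NB U x, ‖p b‖ = 1 := by
      intro b hb
      have h := hp b b
      rw [hdiag U hA hW x hx b hb, real_inner_self_eq_norm_sq] at h
      nlinarith [norm_nonneg (p b)]
    have h1 := hKER.q (NB U x) p hu
    have h3 : ∑ b ∈ NB U x, ∑ c ∈ NB U x,
        (15 / 64 * G7 (inner ℝ (p b) (p c)) + q7 (inner ℝ (p b) (p c))) =
        ∑ b ∈ NB U x, ∑ c ∈ NB U x,
          (15 / 64 * G7 (inner ℝ (hq x b) (hq x c)) + q7 (inner ℝ (hq x b) (hq x c))) := by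
      simp only [hp]
    rw [h3, split (fun t => 15 / 64 * G7 t + q7 t)
      (fun b c => (inner ℝ (hq x b) (hq x c) : ℝ)) (hdiag U hA hW x hx)] at h1
    rw [q7_one] at h1
    have h4 : 0 ≤ ∑ q ∈ (NB U x).offDiag.filter (fun q => q ∉ CB U x),
        (15 / 64 * G7 (inner ℝ (hq x q.1) (hq x q.2)) + q7 (inner ℝ (hq x q.1) (hq x q.2))) := by
      refine sum_nonneg fun q hq => ?_
      rw [mem_filter, mem_offDiag] at hq
      obtain ⟨⟨q1, q2, q3⟩, q4⟩ := hq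
      have k1 := G7_nonneg (hlow U hA hW x hx _ q1 _ q2) (hnon U hA hW x hx _ q1 _ q2 q3 q4)
      have k2 := q7_nonneg (hlow U hA hW x hx _ q1 _ q2)
      linarith
    have h5 : ((CB U x).card : ℝ) * (9463 / 10000) ≤ ∑ q ∈ CB U x,
        (15 / 64 * G7 (inner ℝ (hq x q.1) (hq x q.2)) + q7 (inner ℝ (hq x q.1) (hq x q.2))) := by
      rw [← nsmul_eq_mul]
      refine card_nsmul_le_sum _ _ _ fun q hq => ?_
      obtain ⟨⟨q1, q2⟩, q3, q4⟩ := mem_CB.1 hq
      exact Gq_lo (hcon U hA hW x hx _ q1 _ q2 q3 hq) (hup U hA hW x hx _ q1 _ q2 q3)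
    nlinarith [sq_nonneg ((NB U x).card : ℝ), Nat.cast_nonneg (α := ℝ) (NB U x).card,
      Nat.cast_nonneg (α := ℝ) (CB U x).card]
  · intro U hA hW x hx hcard p hp B cA hB hcA
    have hu : ∀ b ∈ NB U x, ‖p b‖ = 1 := by
      intro b hb
      have h := hp b b
      rw [hdiag U hA hW x hx b hb, real_inner_self_eq_norm_sq] at h
      nlinarith [norm_nonneg (p b)]
    refine ⟨hcard, hu, ?_, ?_, ?_, ?_, ?_, ?_⟩
    · intro b c hbc
      obtain ⟨⟨q1, q2⟩, q3, q4⟩ := mem_CB.1 hbc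
      exact mem_CB.2 ⟨⟨q2, q1⟩, fun h => q3 h.symm, by
        show 9 / 20 ≤ TT c b
        rw [TT_comm]; exact q4⟩
    · intro b hb c hc hbc
      rw [hp]
      exact hup U hA hW x hx b hb c hc hbc
    · intro b hb c hc hbc hC
      rw [hp]
      exact hcon U hA hW x hx b hb c hc hbc hC
    · intro b hb c hc hbc hC
      rw [hp]
      exact hnon U hA hW x hx b hb c hc hbc hC
    · have h1 := hKER.g (NB U x) p hu
      rw [hcard] at h1
      have h3 : ∑ b ∈ NB U x, ∑ c ∈ NB U x, G7 (inner ℝ (p b) (p c)) =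
          ∑ b ∈ NB U x, ∑ c ∈ NB U x, G7 (inner ℝ (hq x b) (hq x c)) := by
        simp only [hp]
      rw [h3, split G7 (fun b c => (inner ℝ (hq x b) (hq x c) : ℝ)) (hdiag U hA hW x hx),
        G7_one, hGsum, hcard] at h1
      simp only [hp] at h1 ⊢
      push_cast at h1
      nlinarith
    · rw [CB_off]
      simp only [hp]
      exact hcA

end Pool.Agent.Lib.MP_f1379f_gt.FV
end

section
/-!
# LPT: pointwise bounds for a pair of lines

Reduced variables: `δ = 1/4 - g + z`, `m = 1/4 + g + z`, `r = |c1 - c2|`, `s = |c1 + c2|`, `u = a + b`,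
`v = 2 √(ab)`; the cost of the antipodal pairs is at least `u - 10 u² + 5 v²`.
-/
set_option autoImplicit false

namespace Pool.Agent.Lib.MP_f1379f_gt.FV

namespace LPTM

/-- `F7` on `[1/4, 11/25]`. -/
theorem F_up {T : ℝ} (h1 : 1 / 4 ≤ T) (h2 : T ≤ 11 / 25) : 109 / 10000 ≤ F7 T := by
  unfold F7
  have h3 : (1 / 16 : ℝ) ≤ T ^ 2 := by nlinarith
  have h4 : T ^ 2 ≤ 121 / 625 := by nlinarith
  nlinarith [mul_nonneg (sub_nonneg.2 h3) (sub_nonneg.2 h4)]

/-- `F7` on `[1/4, 43/100]`. -/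
theorem F_up2 {T : ℝ} (h1 : 1 / 4 ≤ T) (h2 : T ≤ 43 / 100) : 3 / 256 ≤ F7 T := by
  unfold F7
  have h3 : (1 / 16 : ℝ) ≤ T ^ 2 := by nlinarith
  have h4 : T ^ 2 ≤ 3 / 16 := by nlinarith
  nlinarith [mul_nonneg (sub_nonneg.2 h3) (sub_nonneg.2 h4)]

theorem F_neg (T : ℝ) : F7 (-T) = F7 T := by
  unfold F7
  ring

/-- First tangent. -/
theorem tan1 {T : ℝ} (h1 : -19 / 50 ≤ T) (h2 : T ≤ 1 / 4) :
    123 / 1000 * T - 825 / 100000 ≤ 2 * F7 T := by
  unfold F7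
  nlinarith [sq_nonneg (T - 15 / 100), sq_nonneg (T * (T - 15 / 100)), sq_nonneg T,
    mul_nonneg (sub_nonneg.2 h1) (sub_nonneg.2 h2),
    mul_nonneg (mul_nonneg (sub_nonneg.2 h1) (sub_nonneg.2 h2)) (sq_nonneg (T - 15 / 100))]

/-- Second tangent. -/
theorem tan2 {T : ℝ} (h1 : -1 / 4 ≤ T) (h2 : T ≤ 1 / 4) :
    88 / 1000 * T - 4011 / 1000000 ≤ 2 * F7 T := by
  unfold F7
  nlinarith [sq_nonneg (T - 948 / 10000), sq_nonneg (T * (T - 948 / 10000)), sq_nonneg T,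
    mul_nonneg (sub_nonneg.2 h1) (sub_nonneg.2 h2),
    mul_nonneg (mul_nonneg (sub_nonneg.2 h1) (sub_nonneg.2 h2)) (sq_nonneg (T - 948 / 10000))]

/-- The situation of a pair of lines. -/
structure PL (δ m r s z u v f1 f2 f3 f4 : ℝ) : Prop where
  hr : 0 ≤ r
  hs : 0 ≤ s
  hu : u ≤ 27 / 640
  hv0 : 0 ≤ v
  hvu : v ≤ u
  hz1 : -v ≤ 2 * z
  hz2 : 2 * z ≤ v
  hdm : δ + m = 1 / 2 + 2 * z
  hr2 : r ^ 2 ≤ 3 / 4 * (u + v)
  hs2 : s ^ 2 ≤ 3 / 4 * (u + v)
  hrs : r ^ 2 + s ^ 2 ≤ 3 / 2 * u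
  hT2 : -19 / 50 ≤ δ - r
  hT4 : -19 / 50 ≤ m - s
  hT3 : m + s ≤ 27 / 50
  h1 : 0 ≤ f1
  h2 : 0 ≤ f2
  h3 : 0 ≤ f3
  h4 : 0 ≤ f4
  F1 : f1 = F7 (δ + r) ∨ 11 / 25 ≤ δ + r
  F2 : f2 = F7 (δ - r) ∨ 11 / 25 ≤ δ - r
  F3 : f3 = F7 (m + s) ∨ 11 / 25 ≤ m + s
  F4 : f4 = F7 (m - s) ∨ 11 / 25 ≤ m - s
  bud : 2 * (f1 + f2 + f3 + f4) + (u - 10 * u ^ 2 + 5 * v ^ 2) ≤ 441 / 10000
  lpi : δ ^ 2 ≤ 21 / 10 * (f1 + f2 + f3 + f4)

section
variable {δ m r s z u v f1 f2 f3 f4 : ℝ}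

theorem PL.u0 (h : PL δ m r s z u v f1 f2 f3 f4) : 0 ≤ u := h.hv0.trans h.hvu

theorem PL.q1 (h : PL δ m r s z u v f1 f2 f3 f4) : 37 / 64 * u ≤ u - 10 * u ^ 2 := by
  nlinarith [h.u0, mul_nonneg h.u0 (sub_nonneg.2 h.hu)]

theorem PL.dsq (h : PL δ m r s z u v f1 f2 f3 f4) :
    δ ^ 2 ≤ 21 / 20 * (441 / 10000 - (u - 10 * u ^ 2 + 5 * v ^ 2)) := by
  linarith [h.lpi, h.bud]

theorem PL.dle (h : PL δ m r s z u v f1 f2 f3 f4) : δ ≤ 2152 / 10000 := by
  have h1 := h.dsq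
  have h2 := h.q1
  have h3 := h.u0
  have h4 := sq_nonneg v
  nlinarith

/-- Step 1. -/
theorem PL.s1 (h : PL δ m r s z u v f1 f2 f3 f4) : δ + r < 11 / 25 := by
  by_contra hc
  push Not at hc
  have h1 := h.dsq
  have h2 := h.q1
  have h3 := h.hrs
  have h4 := sq_nonneg v
  have h5 := sq_nonneg s
  have h6 : (11 / 25 - δ) ^ 2 ≤ r ^ 2 := by
    have h7 := h.dle
    exact pow_le_pow_left₀ (by linarith) (by linarith) 2
  nlinarith [sq_nonneg (δ - 1267 / 10000)]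

/-- Step 2B. -/
theorem PL.s2B (h : PL δ m r s z u v f1 f2 f3 f4) (hT : 1 / 4 < δ + r) (hT4 : m - s ≤ 1 / 4) :
    False := by
  have h0 := h.s1
  have hf1 : f1 = F7 (δ + r) := h.F1.resolve_right (by linarith)
  have hf2 : f2 = F7 (δ - r) := h.F2.resolve_right (by linarith [h.hr])
  have hf4 : f4 = F7 (m - s) := h.F4.resolve_right (by linarith)
  have hb := h.bud
  have e1 := F_up hT.le h0.le
  have e2 := tan1 h.hT2 (show δ - r ≤ 1 / 4 by linarith [h.dle])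
  have e4 := tan1 h.hT4 hT4
  have hq := h.q1
  have hv2 := sq_nonneg v
  have hu : u ≤ 336 / 10000 := by
    by_contra hc
    push Not at hc
    have h5 : (336 / 10000 : ℝ) - 10 * (336 / 10000) ^ 2 ≤ u - 10 * u ^ 2 := by
      nlinarith [h.hu]
    linarith [h.h2, h.h3, h.h4]
  have hq2 : 664 / 1000 * u ≤ u - 10 * u ^ 2 := by
    nlinarith [h.u0, mul_nonneg h.u0 (sub_nonneg.2 hu)]
  have hrs := h.hrs
  have hz := h.hz1
  have hdm := h.hdm
  nlinarith [sq_nonneg (r - 139 / 1000), sq_nonneg (s - 139 / 1000), sq_nonneg (v - 123 / 10000),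
    h.h3]

/-- Step 2B'. -/
theorem PL.s2C (h : PL δ m r s z u v f1 f2 f3 f4) (hT : 1 / 4 < δ + r) (hT4 : 1 / 4 ≤ m - s)
    (hT4' : m - s < 11 / 25) : False := by
  have h0 := h.s1
  have hf1 : f1 = F7 (δ + r) := h.F1.resolve_right (by linarith)
  have hf4 : f4 = F7 (m - s) := h.F4.resolve_right (by linarith)
  have hb := h.bud
  have e1 := F_up hT.le h0.le
  have e4 := F_up hT4 hT4'.le
  have hq := h.q1
  have hv2 := sq_nonneg v
  have hu : u ≤ 87 / 100000 := by linarith [h.h2, h.h3]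
  have hr : r ≤ 37 / 1000 := by
    have h1 := h.hrs
    have h2 := sq_nonneg s
    nlinarith
  have hs : s ≤ 37 / 1000 := by
    have h1 := h.hrs
    have h2 := sq_nonneg r
    nlinarith
  rcases h.F3 with hf3 | hf3
  · by_cases h5 : m + s ≤ 11 / 25
    · have e3 := F_up (show 1 / 4 ≤ m + s by linarith [h.hs]) h5
      linarith [h.h2, h.u0]
    · linarith [h.hdm, h.hz2, h.hvu]
  · linarith [h.hdm, h.hz2, h.hvu]

/-- Step 2A. -/
theorem PL.s2A (h : PL δ m r s z u v f1 f2 f3 f4) (hT : 1 / 4 < δ + r) (hT4 : 11 / 25 ≤ m - s) :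
    False := by
  have h0 := h.s1
  have hf1 : f1 = F7 (δ + r) := h.F1.resolve_right (by linarith)
  have hf2 : f2 = F7 (δ - r) := h.F2.resolve_right (by linarith [h.hr])
  have hb := h.bud
  have hr2 := h.hr2
  have hv0 := h.hv0
  have hvu := h.hvu
  have hu' := h.hu
  have hr1 : r ≤ 252 / 1000 := by
    have h1 := h.hrs
    have h2 := sq_nonneg s
    nlinarith
  have hd1 : δ ≤ 6 / 100 + v := by linarith [h.hdm, h.hz2, h.hs]
  have e1 := F_up2 hT.le (show δ + r ≤ 43 / 100 by linarith)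
  have hv2 := sq_nonneg v
  have hu : u ≤ 294 / 10000 := by
    by_contra hc
    push Not at hc
    have h5 : (294 / 10000 : ℝ) - 10 * (294 / 10000) ^ 2 ≤ u - 10 * u ^ 2 := by
      nlinarith [h.hu]
    linarith [h.h2, h.h3, h.h4]
  obtain ⟨p, hp⟩ : ∃ p, p = r - δ := ⟨_, rfl⟩
  have hp2 : F7 (δ - r) = p ^ 2 / 4 - p ^ 4 := by
    rw [hp]
    unfold F7
    ring
  have hp38 : p ≤ 38 / 100 := by linarith [h.hT2]
  have hrp : 1 / 8 + p / 2 ≤ r := by linarith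
  have hvp : 65 / 1000 - p / 2 ≤ v := by linarith
  have hp0 : 0 ≤ p := by linarith
  have hrp2 : (1 / 8 + p / 2) ^ 2 ≤ r ^ 2 := pow_le_pow_left₀ (by linarith) hrp 2
  have hw : 4 / 3 * (1 / 8 + p / 2) ^ 2 ≤ u + v := by linarith
  have hb2 : 3 / 128 + (p ^ 2 / 2 - 2 * p ^ 4) + (u - 10 * u ^ 2 + 5 * v ^ 2) ≤ 441 / 10000 := by
    rw [hf2, hp2] at hb
    linarith [h.h3, h.h4]
  have hk : ∀ κ : ℝ, κ ≤ 412 / 1000 → κ * (u - v) + v - 5 * v ^ 2 ≤
      u - 10 * u ^ 2 + 5 * v ^ 2 := by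
    intro κ hκ
    have h6 : 0 ≤ (u - v) * (1 - 10 * (u + v) - κ) :=
      mul_nonneg (by linarith) (by linarith)
    nlinarith
  rcases le_total p (1 / 10) with hp1 | hp1
  · have h7 := hk (1 / 5) (by norm_num)
    have h8 : 3 / 5 * (65 / 1000 - p / 2) - 5 * (65 / 1000 - p / 2) ^ 2 ≤
        3 / 5 * v - 5 * v ^ 2 := by
      nlinarith [mul_nonneg (sub_nonneg.2 hvp)
        (show 0 ≤ 3 / 5 - 5 * (v + (65 / 1000 - p / 2)) by linarith)]
    nlinarith [mul_nonneg hp0 (sub_nonneg.2 hp1), sq_nonneg p, mul_nonneg (sq_nonneg p)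
      (sub_nonneg.2 hp1), mul_nonneg (mul_nonneg hp0 (sq_nonneg p)) (sub_nonneg.2 hp1)]
  · have h7 := hk (2 / 5) (by norm_num)
    have h8 : 0 ≤ 1 / 5 * v - 5 * v ^ 2 := by nlinarith
    nlinarith [mul_nonneg (sub_nonneg.2 hp1) (sub_nonneg.2 hp38), sq_nonneg p,
      mul_nonneg (mul_nonneg (sub_nonneg.2 hp1) (sub_nonneg.2 hp38)) (sq_nonneg p)]

/-- Step 2. -/
theorem PL.s2 (h : PL δ m r s z u v f1 f2 f3 f4) : δ + r ≤ 1 / 4 := by
  by_contra hc
  push Not at hc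
  rcases le_total (m - s) (1 / 4) with h1 | h1
  · exact h.s2B hc h1
  rcases lt_or_ge (m - s) (11 / 25) with h2 | h2
  · exact h.s2C hc h1 h2
  · exact h.s2A hc h2

/-- Step 3. -/
theorem PL.s3 (h : PL δ m r s z u v f1 f2 f3 f4) : -1 / 4 ≤ δ - r := by
  by_contra hc
  push Not at hc
  have hT1 := h.s2
  have hf1 : f1 = F7 (δ + r) := h.F1.resolve_right (by linarith)
  have hf2 : f2 = F7 (δ - r) := h.F2.resolve_right (by linarith)
  have hb := h.bud
  have hv0 := h.hv0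
  have hvu := h.hvu
  have e2 : 3 / 256 ≤ F7 (δ - r) := by
    rw [← F_neg]
    exact F_up2 (by linarith) (by linarith [h.hT2])
  have hv2 := sq_nonneg v
  have hu : u ≤ 294 / 10000 := by
    by_contra hc
    push Not at hc
    have h5 : (294 / 10000 : ℝ) - 10 * (294 / 10000) ^ 2 ≤ u - 10 * u ^ 2 := by
      nlinarith [h.hu]
    linarith [h.h1, h.h3, h.h4]
  have hd : -4 / 100 - v ≤ δ := by linarith [h.hdm, h.hz1, h.hT3, h.hs]
  have hr1 : 1806 / 10000 ≤ r := by linarith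
  have hT1' : 1112 / 10000 ≤ δ + r := by linarith
  have e1 : 29 / 10000 ≤ F7 (δ + r) := by
    unfold F7
    have h3 : (1236 / 100000 : ℝ) ≤ (δ + r) ^ 2 := by nlinarith
    have h4 : (δ + r) ^ 2 ≤ 1 / 16 := by nlinarith
    nlinarith [mul_nonneg (sub_nonneg.2 h3) (sub_nonneg.2 h4)]
  have hr2 := h.hr2
  have hu2 : 2174 / 100000 ≤ u := by nlinarith
  have h5 : (2174 / 100000 : ℝ) - 10 * (2174 / 100000) ^ 2 ≤ u - 10 * u ^ 2 := by
    nlinarith [h.hu]
  linarith [h.h3, h.h4]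

/-- Step 4. -/
theorem PL.s4 (h : PL δ m r s z u v f1 f2 f3 f4) : 1 / 4 ≤ m - s := by
  by_contra hc
  push Not at hc
  have hT1 := h.s2
  have hT2 := h.s3
  have hr := h.hr
  have hs := h.hs
  have hf1 : f1 = F7 (δ + r) := h.F1.resolve_right (by linarith)
  have hf2 : f2 = F7 (δ - r) := h.F2.resolve_right (by linarith)
  have hf4 : f4 = F7 (m - s) := h.F4.resolve_right (by linarith)
  have hb := h.bud
  have hv0 := h.hv0
  have hvu := h.hvu
  have hu := h.hu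
  have e1 := tan2 (show -1 / 4 ≤ δ + r by linarith) hT1
  have e2 := tan2 hT2 (show δ - r ≤ 1 / 4 by linarith)
  have hz := h.hz1
  have hdm := h.hdm
  have hv2 := sq_nonneg v
  rcases le_total (504 / 10000) (s ^ 2) with hs2 | hs2
  · -- large s
    have hs1 : 2244 / 10000 ≤ s := by nlinarith
    have hu2 : 336 / 10000 ≤ u := by
      have := h.hrs
      have h7 := sq_nonneg r
      linarith
    have h5 : (336 / 10000 : ℝ) - 10 * (336 / 10000) ^ 2 ≤ u - 10 * u ^ 2 := by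
      nlinarith
    have h6 : 0 ≤ F7 (m - s) := by rw [← hf4]; exact h.h4
    have h7 := h.hT3
    nlinarith [sq_nonneg (v - 176 / 10000), h.h3]
  · obtain ⟨w, hw⟩ : ∃ w, w = 2 / 3 * s ^ 2 := ⟨_, rfl⟩
    have hw1 : w ≤ 336 / 10000 := by rw [hw]; linarith
    have hw0 : 0 ≤ w := by rw [hw]; positivity
    have hwuv : 2 * w ≤ u + v := by
      rw [hw]
      linarith [h.hs2]
    have key : 824 / 1000 * w - 5 * w ^ 2 ≤ u - 10 * u ^ 2 + 5 * v ^ 2 - 176 / 1000 * v := by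
      rcases le_total w v with h5 | h5
      · have h6 : 0 ≤ (u - v) * (1 - 10 * (u + v)) := mul_nonneg (by linarith) (by linarith)
        have h7 : 0 ≤ (v - w) * (824 / 1000 - 5 * (v + w)) :=
          mul_nonneg (by linarith) (by linarith)
        nlinarith
      · have h6 : 0 ≤ (u - (2 * w - v)) * (1 - 10 * (u + (2 * w - v))) :=
          mul_nonneg (by linarith) (by linarith)
        have h7 : 0 ≤ (w - v) * (1176 / 1000 - 35 * w + 5 * v) :=
          mul_nonneg (by linarith) (by linarith)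
        nlinarith
    obtain ⟨τ, hτ⟩ : ∃ τ, τ = m - s := ⟨_, rfl⟩
    have hτ0 : -19 / 50 ≤ τ := by rw [hτ]; exact h.hT4
    have hτ1 : τ ≤ 1 / 4 := by rw [hτ]; linarith
    obtain ⟨k, hk⟩ : ∃ k, k = 2 * s := ⟨_, rfl⟩
    have hk0 : 0 ≤ k := by rw [hk]; linarith
    have hk1 : k ≤ 54 / 100 - τ := by rw [hk, hτ]; linarith [h.hT3]
    have hwk : w = k ^ 2 / 6 := by rw [hw, hk]; ring
    have hF : F7 (m - s) = τ ^ 2 / 4 - τ ^ 4 := by
      rw [← hτ]
      unfold F7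
      ring
    have hmk : m = τ + k / 2 := by rw [hτ, hk]; ring
    have hfin : 441 / 10000 < τ ^ 2 / 2 - 2 * τ ^ 4 + 79978 / 1000000 - 176 / 1000 * τ
        - 88 / 1000 * k + 824 / 6000 * k ^ 2 - 5 / 36 * k ^ 4 := by
      obtain ⟨k', hk'⟩ : ∃ k', k' = 54 / 100 - τ := ⟨_, rfl⟩
      have h5 : 79978 / 1000000 - 88 / 1000 * k' + 824 / 6000 * k' ^ 2 - 5 / 36 * k' ^ 4 ≤
          79978 / 1000000 - 88 / 1000 * k + 824 / 6000 * k ^ 2 - 5 / 36 * k ^ 4 := by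
        have h6 : 0 ≤ k' - k := by rw [hk']; linarith
        have h7 : 0 ≤ 88 / 1000 - 824 / 6000 * (k + k') + 5 / 36 * ((k + k') * (k ^ 2 + k' ^ 2)) := by
          have h8 : 0 ≤ k + k' := by linarith
          have h9 : (k + k') ^ 2 / 2 ≤ k ^ 2 + k' ^ 2 := by nlinarith [sq_nonneg (k - k')]
          have h10 := mul_le_mul_of_nonneg_left h9 h8
          obtain ⟨y, hy⟩ : ∃ y, y = k + k' := ⟨_, rfl⟩
          rw [← hy] at h8 h9 h10 ⊢
          nlinarith [mul_nonneg h8 (sq_nonneg (y - 8 / 10)), sq_nonneg (y - 8 / 10)]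
        nlinarith [mul_nonneg h6 h7]
      obtain ⟨x, hx⟩ : ∃ x, x = 1 / 4 - τ := ⟨_, rfl⟩
      have hx0 : 0 ≤ x := by rw [hx]; linarith
      have hx1 : x ≤ 63 / 100 := by rw [hx]; linarith
      have hτx : τ = 1 / 4 - x := by rw [hx]; ring
      have hkx : k' = 29 / 100 + x := by rw [hk', hτx]; ring
      rw [hkx] at h5
      rw [hτx]
      have h6 : 0 ≤ x ^ 3 * (63 / 100 - x) := mul_nonneg (by positivity) (by linarith)
      have h7 : 0 ≤ x * (x - 37 / 200) ^ 2 := by positivity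
      nlinarith
    have h8 : w ^ 2 = k ^ 4 / 36 := by rw [hwk]; ring
    rw [hf4, hF] at hb
    rw [hwk] at key
    nlinarith [h.h3]

end

/-- Cost of an antipodal pair. -/
theorem Qlow {x : ℝ} (h0 : 0 ≤ x) (h1 : x ≤ 3 / 80) :
    x - 10 * x ^ 2 ≤ 2 * F7 (-1 / 2 + 2 * x) := by
  unfold F7
  nlinarith [mul_nonneg (mul_nonneg h0 (sq_nonneg x)) (show 0 ≤ 1 - x by linarith)]

/-- The product of two square roots. -/
theorem mul_bound {a b c1 c2 v : ℝ} (hb : 0 ≤ b) (hv0 : 0 ≤ v)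
    (hv : v ^ 2 = 4 * (a * b)) (hc1 : c1 ^ 2 ≤ 3 / 4 * b) (hc2 : c2 ^ 2 ≤ 3 / 4 * a) :
    -(3 / 8 * v) ≤ c1 * c2 ∧ c1 * c2 ≤ 3 / 8 * v := by
  have h : (c1 * c2) ^ 2 ≤ (3 / 8 * v) ^ 2 := by
    have h1 : c1 ^ 2 * c2 ^ 2 ≤ (3 / 4 * b) * (3 / 4 * a) :=
      mul_le_mul hc1 hc2 (sq_nonneg _) (by positivity)
    calc (c1 * c2) ^ 2 = c1 ^ 2 * c2 ^ 2 := by ring
      _ ≤ (3 / 4 * b) * (3 / 4 * a) := h1
      _ = 9 / 64 * (4 * (a * b)) := by ring
      _ = (3 / 8 * v) ^ 2 := by rw [← hv]; ring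
  have := abs_le_of_sq_le_sq' h (by positivity)
  exact ⟨by linarith [this.1], this.2⟩

end LPTM

open LPTM in
theorem specLPT : SpecLPT := by
  intro g a b c1 c2 z T1 T2 T3 T4 f1 f2 f3 f4 hg ha hb ha1 hb1 hab hc1 hc2 hz hT1 hT2 hT3 hT4
    l1 l2 l3 l4 u1 u2 u3 u4 g1 g2 g3 g4 d1 d2 d3 d4 hcost
  have hlpi := specLPI g a b c1 c2 z T1 T2 T3 T4 f1 f2 f3 f4 hg ha hb ha1 hb1 hab hc1 hc2 hz
    hT1 hT2 hT3 hT4 l1 l2 l3 l4 (by linarith) (by linarith) (by linarith) (by linarith)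
    g1 g2 g3 g4 d1 d2 d3 d4 (by linarith)
  obtain ⟨v, hvd⟩ : ∃ v, v = 2 * Real.sqrt (a * b) := ⟨_, rfl⟩
  have hv0 : 0 ≤ v := by rw [hvd]; positivity
  have hv2 : v ^ 2 = 4 * (a * b) := by
    rw [hvd, mul_pow, Real.sq_sqrt (by positivity)]
    ring
  have hvu : v ≤ a + b := by
    apply (abs_le_of_sq_le_sq' _ (by positivity)).2
    rw [hv2]
    nlinarith [sq_nonneg (a - b)]
  have hzz : (2 * z) ^ 2 ≤ v ^ 2 := by rw [hv2]; linarith
  have hz12 := abs_le_of_sq_le_sq' hzz hv0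
  have hcc := mul_bound hb hv0 hv2 hc1 hc2
  have hQ : (a + b) - 10 * (a + b) ^ 2 + 5 * v ^ 2 ≤
      2 * F7 (-1 / 2 + 2 * a) + 2 * F7 (-1 / 2 + 2 * b) := by
    have h1 := Qlow ha ha1
    have h2 := Qlow hb hb1
    rw [hv2]
    nlinarith
  obtain ⟨δ, hδ⟩ : ∃ δ, δ = 1 / 4 - g + z := ⟨_, rfl⟩
  obtain ⟨m, hm⟩ : ∃ m, m = 1 / 4 + g + z := ⟨_, rfl⟩
  have e1 : T1 = δ + (c1 - c2) := by rw [hT1, hδ]; ring
  have e2 : T2 = δ - (c1 - c2) := by rw [hT2, hδ]; ring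
  have e3 : T3 = m + (c1 + c2) := by rw [hT3, hm]; ring
  have e4 : T4 = m - (c1 + c2) := by rw [hT4, hm]; ring
  have hdm : δ + m = 1 / 2 + 2 * z := by rw [hδ, hm]; ring
  rw [← hδ] at hlpi
  have key : ∀ r s p1 p2 p3 p4 : ℝ, 0 ≤ r → 0 ≤ s → r ^ 2 = (c1 - c2) ^ 2 →
      s ^ 2 = (c1 + c2) ^ 2 → -19 / 50 ≤ δ - r → -19 / 50 ≤ m - s → m + s ≤ 27 / 50 →
      0 ≤ p1 → 0 ≤ p2 → 0 ≤ p3 → 0 ≤ p4 →
      (p1 = F7 (δ + r) ∨ 11 / 25 ≤ δ + r) → (p2 = F7 (δ - r) ∨ 11 / 25 ≤ δ - r) →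
      (p3 = F7 (m + s) ∨ 11 / 25 ≤ m + s) → (p4 = F7 (m - s) ∨ 11 / 25 ≤ m - s) →
      p1 + p2 = f1 + f2 → p3 + p4 = f3 + f4 →
      δ + r ≤ 1 / 4 ∧ -1 / 4 ≤ δ - r ∧ 1 / 4 ≤ m - s := by
    intro r s p1 p2 p3 p4 hr hs hr2 hs2 t2 t4 t3 k1 k2 k3 k4 q1 q2 q3 q4 e12 e34
    have h : PL δ m r s z (a + b) v p1 p2 p3 p4 :=
      { hr := hr, hs := hs, hu := hab, hv0 := hv0, hvu := hvu, hz1 := hz12.1, hz2 := hz12.2
        hdm := hdm
        hr2 := by rw [hr2]; nlinarith [hcc.1]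
        hs2 := by rw [hs2]; nlinarith [hcc.2]
        hrs := by rw [hr2, hs2]; nlinarith
        hT2 := t2, hT4 := t4, hT3 := t3, h1 := k1, h2 := k2, h3 := k3, h4 := k4
        F1 := q1, F2 := q2, F3 := q3, F4 := q4
        bud := by linarith
        lpi := by linarith }
    exact ⟨h.s2, h.s3, h.s4⟩
  rw [e1] at d1 u1 l1
  rw [e2] at d2 u2 l2
  rw [e3] at d3 u3 l3
  rw [e4] at d4 u4 l4
  rw [e1, e2, e3, e4]
  rcases le_total 0 (c1 - c2) with p | p <;> rcases le_total 0 (c1 + c2) with q | q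
  · have := key (c1 - c2) (c1 + c2) f1 f2 f3 f4 p q rfl rfl l2 l4 u3 g1 g2 g3 g4 d1 d2 d3 d4
      rfl rfl
    refine ⟨⟨?_, ?_⟩, ⟨?_, ?_⟩, ?_, ?_⟩ <;> linarith [this.1, this.2.1, this.2.2]
  · have := key (c1 - c2) (-(c1 + c2)) f1 f2 f4 f3 p (by linarith) rfl (by ring) l2
      (by rwa [sub_neg_eq_add]) (by rwa [← sub_eq_add_neg]) g1 g2 g4 g3 d1 d2
      (by rwa [← sub_eq_add_neg]) (by rwa [sub_neg_eq_add]) rfl (add_comm _ _)
    refine ⟨⟨?_, ?_⟩, ⟨?_, ?_⟩, ?_, ?_⟩ <;> linarith [this.1, this.2.1, this.2.2]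
  · have := key (-(c1 - c2)) (c1 + c2) f2 f1 f3 f4 (by linarith) q (by ring) rfl
      (by rwa [sub_neg_eq_add]) l4 u3 g2 g1 g3 g4 (by rwa [← sub_eq_add_neg])
      (by rwa [sub_neg_eq_add]) d3 d4 (add_comm _ _) rfl
    refine ⟨⟨?_, ?_⟩, ⟨?_, ?_⟩, ?_, ?_⟩ <;> linarith [this.1, this.2.1, this.2.2]
  · have := key (-(c1 - c2)) (-(c1 + c2)) f2 f1 f4 f3 (by linarith) (by linarith) (by ring)
      (by ring) (by rwa [sub_neg_eq_add]) (by rwa [sub_neg_eq_add]) (by rwa [← sub_eq_add_neg])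
      g2 g1 g4 g3 (by rwa [← sub_eq_add_neg]) (by rwa [sub_neg_eq_add])
      (by rwa [← sub_eq_add_neg]) (by rwa [sub_neg_eq_add]) (add_comm _ _) (add_comm _ _)
    refine ⟨⟨?_, ?_⟩, ⟨?_, ?_⟩, ?_, ?_⟩ <;> linarith [this.1, this.2.1, this.2.2]

end Pool.Agent.Lib.MP_f1379f_gt.FV
end

section
/-!
# MP_f1379f_gt, full Q1, block STAB1: the good centre (SLC)
-/
set_option autoImplicit false

namespace Pool.Agent.Lib.MP_f1379f_gt.FV

open Finset

namespace SLCM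

/-- `base` is nonnegative on `[-1, ∞)`. -/
lemma base_nonneg {T : ℝ} (h : -1 ≤ T) : 0 ≤ base T := by
  unfold base
  have h1 : 0 ≤ T + 1 := by linarith
  positivity

/-- `base` is monotone on `[0, ∞)`. -/
lemma base_mono {S T : ℝ} (h0 : 0 ≤ S) (h : S ≤ T) : base S ≤ base T := by
  unfold base
  have h1 : 0 ≤ T := le_trans h0 h
  gcongr

/-- `base T ≤ base (9/20)` on `[-1, 9/20]`. -/
lemma base_le {T : ℝ} (h : -1 ≤ T) (h1 : T ≤ 9 / 20) : base T ≤ base (9 / 20) := by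
  rcases le_total 0 T with h2 | h2
  · exact base_mono h2 h1
  · have h3 : (1 : ℝ) / 4 ≤ base (9 / 20) := by unfold base; norm_num
    refine le_trans ?_ h3
    unfold base
    have a1 : 0 ≤ T + 1 := by linarith
    have a2 : T + 1 ≤ 1 := by linarith
    have a3 : (T + 1 / 2) ^ 2 ≤ 1 / 4 := by nlinarith
    have a4 : T ^ 2 ≤ 1 := by nlinarith
    have a5 : 0 ≤ (T + 1 / 2) ^ 2 := sq_nonneg _
    have a6 : 0 ≤ T ^ 2 := sq_nonneg _
    calc (T + 1) * (T + 1 / 2) ^ 2 * T ^ 2 ≤ 1 * (1 / 4) * 1 := by gcongr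
      _ = 1 / 4 := by norm_num

/-- The real inequality behind the selection. -/
lemma fin_ineq {X W B : ℝ} (hX0 : 0 ≤ X) (hX : X ≤ 451 / 10000) (hW0 : 0 ≤ W)
    (hB : B ≤ base (9 / 20) * (840 / 11 - 1000 * X - 40 * W)) :
    44 / 1000 * ((560 / 3 * X + 8 / 3 * B - 176 / 15 * W + 441 / 1000) + 2 * W / (71 / 1000)
      + 150 / 7 * X) + 1254 / 1000 * W
      + 48 / 125 * W * (560 / 3 * X + 8 / 3 * B - 176 / 15 * W + 441 / 1000)
      + 1421 / 10 * X < 44 / 1000 * 240 := by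
  have e1 : base (9 / 20) = 847989 / 3200000 := by unfold base; norm_num
  rw [e1] at hB
  have c0 : 0 ≤ 44 / 1000 + 48 / 125 * W := by positivity
  have h1 := mul_le_mul_of_nonneg_left hB c0
  have g0 : (44 / 1000 + 48 / 125 * W) * (8 / 3 * (847989 / 3200000 * (840 / 11 - 40 * W))
      - 176 / 15 * W + 441 / 1000) + 44 / 1000 * (2 * W / (71 / 1000)) + 1254 / 1000 * W <
      44 / 1000 * 240 := by
    nlinarith [sq_nonneg (W - 704 / 1000)]
  have g1 : (44 / 1000 + 48 / 125 * W) * (560 / 3 * (451 / 10000)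
      + 8 / 3 * (847989 / 3200000 * (840 / 11 - 1000 * (451 / 10000) - 40 * W))
      - 176 / 15 * W + 441 / 1000) + 44 / 1000 * (2 * W / (71 / 1000)) + 1254 / 1000 * W
      + (44 / 1000 * (150 / 7) + 1421 / 10) * (451 / 10000) < 44 / 1000 * 240 := by
    nlinarith [sq_nonneg (W - 411 / 1000)]
  have l0 : 0 ≤ 1 - 10000 / 451 * X := by linarith
  have l1 : 0 ≤ 10000 / 451 * X := by linarith
  have k0 := mul_le_mul_of_nonneg_left g0.le l0
  have k1 := mul_le_mul_of_nonneg_left g1.le l1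
  have key : (1 - 10000 / 451 * X) * ((44 / 1000 + 48 / 125 * W) * (8 / 3 * (847989 / 3200000
      * (840 / 11 - 40 * W)) - 176 / 15 * W + 441 / 1000) + 44 / 1000 * (2 * W / (71 / 1000))
      + 1254 / 1000 * W) + 10000 / 451 * X * ((44 / 1000 + 48 / 125 * W) *
      (560 / 3 * (451 / 10000) + 8 / 3 * (847989 / 3200000 * (840 / 11
      - 1000 * (451 / 10000) - 40 * W)) - 176 / 15 * W + 441 / 1000)
      + 44 / 1000 * (2 * W / (71 / 1000)) + 1254 / 1000 * W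
      + (44 / 1000 * (150 / 7) + 1421 / 10) * (451 / 10000)) < 44 / 1000 * 240 := by
    rcases l1.eq_or_lt with h | h
    · rw [← h]
      linarith
    · have k1' := mul_lt_mul_of_pos_left g1 h
      linarith
  have e2 : (1 - 10000 / 451 * X) * ((44 / 1000 + 48 / 125 * W) * (8 / 3 * (847989 / 3200000
      * (840 / 11 - 40 * W)) - 176 / 15 * W + 441 / 1000) + 44 / 1000 * (2 * W / (71 / 1000))
      + 1254 / 1000 * W) + 10000 / 451 * X * ((44 / 1000 + 48 / 125 * W) *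
      (560 / 3 * (451 / 10000) + 8 / 3 * (847989 / 3200000 * (840 / 11
      - 1000 * (451 / 10000) - 40 * W)) - 176 / 15 * W + 441 / 1000)
      + 44 / 1000 * (2 * W / (71 / 1000)) + 1254 / 1000 * W
      + (44 / 1000 * (150 / 7) + 1421 / 10) * (451 / 10000)) =
      (44 / 1000 + 48 / 125 * W) * (560 / 3 * X - 176 / 15 * W + 441 / 1000)
      + 8 / 3 * ((44 / 1000 + 48 / 125 * W) *
        (847989 / 3200000 * (840 / 11 - 1000 * X - 40 * W)))
      + 44 / 1000 * (2 * W / (71 / 1000)) + 1254 / 1000 * W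
      + (44 / 1000 * (150 / 7) + 1421 / 10) * X := by ring
  rw [e2] at key
  have e3 : 44 / 1000 * ((560 / 3 * X + 8 / 3 * B - 176 / 15 * W + 441 / 1000)
      + 2 * W / (71 / 1000) + 150 / 7 * X) + 1254 / 1000 * W
      + 48 / 125 * W * (560 / 3 * X + 8 / 3 * B - 176 / 15 * W + 441 / 1000)
      + 1421 / 10 * X =
      (44 / 1000 + 48 / 125 * W) * (560 / 3 * X - 176 / 15 * W + 441 / 1000)
      + 8 / 3 * ((44 / 1000 + 48 / 125 * W) * B)
      + 44 / 1000 * (2 * W / (71 / 1000)) + 1254 / 1000 * W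
      + (44 / 1000 * (150 / 7) + 1421 / 10) * X := by ring
  rw [e3]
  linarith

end SLCM

open SLCM in
theorem specSLC (hLLB : SpecLLB) (hCNT : SpecCNT) (hSEL : SpecSEL) (hCJ : SpecCJ)
    (hXR : SpecXR) (hRBD : SpecRBD) : SpecSLC := by
  classical
  intro U hU hW
  have hcard := (near_set U hU hW).1
  set S := nearS U with hS
  have hrr : ∀ u ∈ S, 0 < rr u := by
    intro u hu
    have := (mem_nearS.1 hu).2
    linarith
  have hx0 : ∀ u ∈ S, 0 ≤ xr u := hRBD.pos U hU hW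
  have hsl0 : ∀ u ∈ S, ∀ v ∈ S, u ≠ v → 0 ≤ sl u v := hRBD.sl0 U hU
  have hT1 : ∀ u ∈ S, ∀ v ∈ S, -1 ≤ TT u v := by
    intro u hu v hv
    have h1 := TT_lower (hrr u hu) (hrr v hv)
    have h2 : rr u ≤ 1 := by
      have h3 := hx0 u hu
      have h4 := normsq_of_rr (hrr u hu)
      unfold xr at h3
      linarith
    have h2' : rr v ≤ 1 := by
      have h3 := hx0 v hv
      have h4 := normsq_of_rr (hrr v hv)
      unfold xr at h3
      linarith
    have h5 : 0 ≤ (1 - rr u) * (1 - rr v) := mul_nonneg (by linarith) (by linarith)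
    nlinarith
  have slc : ∀ u v : E, sl u v = sl v u := by
    intro u v; unfold sl; rw [TT_comm]
  -- the contact relation
  let adj : E → E → Prop := fun a b => b ≠ a ∧ 9 / 20 ≤ TT a b
  have hNB : ∀ a, S.filter (adj a) = NB U a := by
    intro a; unfold NB; rfl
  have hCB : ∀ a, ((S.filter (adj a)) ×ˢ (S.filter (adj a))).filter (fun q => adj q.1 q.2) = CB U a := by
    intro a
    rw [hNB a]; unfold CB
    apply filter_congr
    intro q _
    constructor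
    · rintro ⟨h1, h2⟩; exact ⟨fun h => h1 h.symm, h2⟩
    · rintro ⟨h1, h2⟩; exact ⟨fun h => h1 h.symm, h2⟩
  have hNBsub : ∀ a, ∀ b ∈ NB U a, b ∈ S ∧ b ≠ a ∧ 9 / 20 ≤ TT a b := by
    intro a b hb
    unfold NB at hb
    rw [mem_filter] at hb
    exact hb
  -- total slack
  set W := 1 / 2 * ∑ x ∈ S, SX U x with hWd
  set X := ∑ x ∈ S, xr x with hXd
  set B := ∑ x ∈ S, ∑ b ∈ S.filter (fun b => b ≠ x ∧ ¬ 9 / 20 ≤ TT x b), base (TT x b) with hBd
  -- splitting sums over the other points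
  have hsplit : ∀ f : E → E → ℝ, ∀ x ∈ S, ∑ v ∈ S.erase x, f x v =
      ∑ b ∈ NB U x, f x b + ∑ b ∈ S.filter (fun b => b ≠ x ∧ ¬ 9 / 20 ≤ TT x b), f x b := by
    intro f x _
    rw [← sum_filter_add_sum_filter_not (S.erase x) (fun b => 9 / 20 ≤ TT x b)]
    congr 1
    · apply sum_congr _ (fun _ _ => rfl)
      ext b
      unfold NB
      simp only [mem_filter, mem_erase]
      tauto
    · apply sum_congr _ (fun _ _ => rfl)
      ext b
      simp only [mem_filter, mem_erase]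
      tauto
  have hSXe : ∀ x, SX U x = ∑ b ∈ NB U x, sl x b := fun x => rfl
  have hSX0 : ∀ x ∈ S, 0 ≤ SX U x := by
    intro x hx
    rw [hSXe]
    apply sum_nonneg
    intro b hb
    obtain ⟨h1, h2, _⟩ := hNBsub x b hb
    exact hsl0 x hx b h1 (fun h => h2 h.symm)
  have hW0 : 0 ≤ W := by
    rw [hWd]
    have := sum_nonneg hSX0
    positivity
  have b0pos : (26499 / 100000 : ℝ) ≤ base (9 / 20) := by unfold base; norm_num
  have b0pos' : (0 : ℝ) < base (9 / 20) := by linarith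
  have hWW : ∑ x ∈ S, SX U x = 2 * W := by rw [hWd]; ring
  -- W ≤ .94
  have hW94 : W ≤ 94 / 100 := by
    have h1 := hRBD.phi U hU hW
    have h2 : base (9 / 20) * (2 * W) ≤
        ∑ u ∈ S, ∑ v ∈ S.erase u, base (TT u v) * (1 / 2 - TT u v) := by
      rw [← hWW, mul_sum]
      apply sum_le_sum
      intro x hx
      rw [hsplit (fun u v => base (TT u v) * (1 / 2 - TT u v)) x hx]
      have h3 : 0 ≤ ∑ b ∈ S.filter (fun b => b ≠ x ∧ ¬ 9 / 20 ≤ TT x b),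
          base (TT x b) * (1 / 2 - TT x b) := by
        apply sum_nonneg
        intro b hb
        rw [mem_filter] at hb
        have h4 := hsl0 x hx b hb.1 (fun h => hb.2.1 h.symm)
        unfold sl at h4
        exact mul_nonneg (base_nonneg (hT1 x hx b hb.1)) h4
      have h5 : base (9 / 20) * SX U x ≤ ∑ b ∈ NB U x, base (TT x b) * (1 / 2 - TT x b) := by
        rw [hSXe, mul_sum]
        apply sum_le_sum
        intro b hb
        obtain ⟨h6, h7, h8⟩ := hNBsub x b hb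
        have h4 := hsl0 x hx b h6 (fun h => h7 h.symm)
        have h9 := base_mono (by norm_num : (0 : ℝ) ≤ 9 / 20) h8
        unfold sl at h4 ⊢
        exact mul_le_mul_of_nonneg_right h9 h4
      linarith
    have h3 : base (9 / 20) * (2 * W) ≤ 4942 / 10000 := le_trans h2 h1
    nlinarith
  -- the joint certificate
  have hCJ' : 11 / 100 * X + 11 / 100000 * (B / base (9 / 20) + 40 * W) ≤ 84 / 10000 := by
    have h1 := hCJ U hU hW
    have h2 : ∑ u ∈ S, ∑ v ∈ S.erase u,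
        min (base (TT u v) / base (9 / 20)) (20 * (1 / 2 - TT u v)) =
        B / base (9 / 20) + 40 * W := by
      have h3 : ∀ x ∈ S, ∑ v ∈ S.erase x,
          min (base (TT x v) / base (9 / 20)) (20 * (1 / 2 - TT x v)) =
          20 * SX U x + (∑ b ∈ S.filter (fun b => b ≠ x ∧ ¬ 9 / 20 ≤ TT x b), base (TT x b))
            / base (9 / 20) := by
        intro x hx
        rw [hsplit (fun u v => min (base (TT u v) / base (9 / 20)) (20 * (1 / 2 - TT u v))) x hx]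
        congr 1
        · rw [hSXe, mul_sum]
          apply sum_congr rfl
          intro b hb
          obtain ⟨h6, h7, h8⟩ := hNBsub x b hb
          unfold sl
          apply min_eq_right
          have h9 := base_mono (by norm_num : (0 : ℝ) ≤ 9 / 20) h8
          have h10 : 1 ≤ base (TT x b) / base (9 / 20) := by
            rw [le_div_iff₀ b0pos']; linarith
          linarith
        · rw [sum_div]
          apply sum_congr rfl
          intro b hb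
          rw [mem_filter] at hb
          apply min_eq_left
          have h8 : TT x b < 9 / 20 := lt_of_not_ge hb.2.2
          have h9 := base_le (hT1 x hx b hb.1) h8.le
          have h10 : base (TT x b) / base (9 / 20) ≤ 1 := by
            rw [div_le_one b0pos']; exact h9
          linarith
      rw [sum_congr rfl h3, sum_add_distrib, ← mul_sum, ← sum_div, hWW, ← hBd]
      ring
    rw [h2] at h1
    exact h1
  have hBB : B ≤ base (9 / 20) * (840 / 11 - 1000 * X - 40 * W) := by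
    have h1 : B / base (9 / 20) ≤ 840 / 11 - 1000 * X - 40 * W := by linarith
    rw [div_le_iff₀ b0pos'] at h1
    linarith
  have hX451 : X ≤ 451 / 10000 := hXR U hU hW
  have hX0 : 0 ≤ X := sum_nonneg hx0
  have hXsum := hRBD.sum U hU hW
  -- selection
  have key := hSEL S adj sl xr (560 / 3 * X + 8 / 3 * B - 176 / 15 * W + 441 / 1000) W X hcard
    (fun a b h => ⟨fun h' => h.1 h'.symm, by rw [TT_comm]; exact h.2⟩)
    (fun a h => h.1 rfl) slc
    (fun a ha b hb h => hsl0 a ha b hb (fun h' => h.1 h'.symm))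
    hx0
    (fun a ha => le_trans (single_le_sum (f := xr) (fun i hi => hx0 i hi) ha) hXsum)
    (fun a ha => by
      rw [hCB a, hNB a]
      exact le_trans (hLLB.lo U hU hW a ha) (hLLB.up U hU hW a ha))
    (fun a ha => by
      rw [hCB a, hNB a]
      exact hLLB.kb U hU hW a ha)
    (by
      rw [← hWW]
      apply sum_congr rfl
      intro a _
      rw [hNB a, hSXe])
    rfl hW94
    (by
      have h1 := hCNT U hU hW
      have h2 : ∑ a ∈ S, (56 - ((S.filter (adj a)).card : ℝ)) =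
          ∑ x ∈ S, (56 - ((NB U x).card : ℝ)) := by
        apply sum_congr rfl
        intro a _
        rw [hNB a]
      rw [h2]
      refine le_trans h1 ?_
      rw [hWW]
      apply le_of_eq
      ring)
    (fin_ineq hX0 hX451 hW0 hBB)
  obtain ⟨a, ha, h56, hfin⟩ := key
  rw [hNB a] at h56
  rw [hCB a, hNB a] at hfin
  exact ⟨a, ha, h56, hfin⟩

end Pool.Agent.Lib.MP_f1379f_gt.FV
end
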