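import Pool.Agent.Lib.MP_f1379f_gt.FV.SpecS4

/-!
# MP_f1379f_gt, block S4, module CQ4: the sum over the contact cliques
-/

set_option autoImplicit false
set_option linter.unusedSimpArgs false

open Classical MeasureTheory

namespace Pool.Agent.Lib.MP_f1379f_gt.FV

namespace CQ4M

/-- contact indicator -/
noncomputable def A (e f : E) : ℝ := if (inner ℝ f e : ℝ) = 1 / 2 then 1 else 0

theorem A_symm (e f : E) : A e f = A f e := by
  unfold A
  rw [real_inner_comm]

theorem A_nonneg (e f : E) : 0 ≤ A e f := by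
  unfold A
  split_ifs <;> norm_num

theorem A_le_one (e f : E) : A e f ≤ 1 := by
  unfold A
  split_ifs <;> norm_num

theorem A_of_ne (e f : E) (h : A e f ≠ 0) : (inner ℝ f e : ℝ) = 1 / 2 := by
  by_contra hc
  exact h (if_neg hc)

/-- clique indicator -/
noncomputable def W (e f g h : E) : ℝ := A e f * (A e g * A f g) * (A e h * A f h * A g h)

/-- the weighted sum -/
noncomputable def Q (F : E → E → E → E → ℝ) : ℝ :=
  ∑ e ∈ UE, ∑ f ∈ UE, ∑ g ∈ UE, ∑ h ∈ UE, W e f g h * F e f g h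

theorem Q_add (F G : E → E → E → E → ℝ) :
    Q (fun e f g h => F e f g h + G e f g h) = Q F + Q G := by
  simp only [Q, mul_add, Finset.sum_add_distrib]

theorem Q_smul (c : ℝ) (F : E → E → E → E → ℝ) :
    Q (fun e f g h => c * F e f g h) = c * Q F := by
  simp only [Q, Finset.mul_sum]
  refine Finset.sum_congr rfl fun e _ => Finset.sum_congr rfl fun f _ =>
    Finset.sum_congr rfl fun g _ => Finset.sum_congr rfl fun h _ => ?_
  ring

theorem swap01 (F : E → E → E → E → ℝ) : Q (fun e f g h => F f e g h) = Q F := by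
  unfold Q
  rw [Finset.sum_comm]
  refine Finset.sum_congr rfl fun e _ => Finset.sum_congr rfl fun f _ =>
    Finset.sum_congr rfl fun g _ => Finset.sum_congr rfl fun h _ => ?_
  unfold W
  rw [A_symm f e]
  ring

theorem swap12 (F : E → E → E → E → ℝ) : Q (fun e f g h => F e g f h) = Q F := by
  unfold Q
  refine Finset.sum_congr rfl fun e _ => ?_
  rw [Finset.sum_comm]
  refine Finset.sum_congr rfl fun f _ =>
    Finset.sum_congr rfl fun g _ => Finset.sum_congr rfl fun h _ => ?_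
  unfold W
  rw [A_symm g f]
  ring

theorem swap23 (F : E → E → E → E → ℝ) : Q (fun e f g h => F e f h g) = Q F := by
  unfold Q
  refine Finset.sum_congr rfl fun e _ => Finset.sum_congr rfl fun f _ => ?_
  rw [Finset.sum_comm]
  refine Finset.sum_congr rfl fun g _ => Finset.sum_congr rfl fun h _ => ?_
  unfold W
  rw [A_symm h g]
  ring

/-- counting the fourth point -/
theorem cnt4 (hU : SpecUEF) (e f g : E) (he : e ∈ UE) (hf : f ∈ UE) (hg : g ∈ UE) :
    ∑ h ∈ UE, W e f g h = 16 * (A e f * (A e g * A f g)) := by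
  unfold W
  rw [← Finset.mul_sum]
  by_cases h1 : A e f * (A e g * A f g) = 0
  · rw [h1]; ring
  · have h2 : A e f ≠ 0 := fun h => h1 (by rw [h, zero_mul])
    have h3 : A e g ≠ 0 := fun h => h1 (by rw [h]; ring)
    have h4 : A f g ≠ 0 := fun h => h1 (by rw [h]; ring)
    have i2 := A_of_ne _ _ h2
    have i3 := A_of_ne _ _ h3
    have i4 := A_of_ne _ _ h4
    have hfn : f ∈ nb e := Finset.mem_filter.2 ⟨hf, i2⟩
    have hc := hU.c16 e he f hfn g hg i4 i3
    have hs : {b : E | b ∈ UE ∧ (inner ℝ b f : ℝ) = 1 / 2 ∧ (inner ℝ b e : ℝ) = 1 / 2 ∧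
        (inner ℝ b g : ℝ) = 1 / 2} =
        ((UE.filter fun b => (inner ℝ b f : ℝ) = 1 / 2 ∧ (inner ℝ b e : ℝ) = 1 / 2 ∧
        (inner ℝ b g : ℝ) = 1 / 2 : Finset E) : Set E) := by
      ext b
      simp
    rw [hs, Set.ncard_coe_finset] at hc
    have e1 : ∑ h ∈ UE, A e h * A f h * A g h =
        ((UE.filter fun b => (inner ℝ b f : ℝ) = 1 / 2 ∧ (inner ℝ b e : ℝ) = 1 / 2 ∧
        (inner ℝ b g : ℝ) = 1 / 2).card : ℝ) := by
      rw [Finset.card_filter]
      push_cast
      refine Finset.sum_congr rfl fun b _ => ?_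
      unfold A
      by_cases j1 : (inner ℝ b f : ℝ) = 1 / 2 <;> by_cases j2 : (inner ℝ b e : ℝ) = 1 / 2 <;>
        by_cases j3 : (inner ℝ b g : ℝ) = 1 / 2 <;>
        simp only [j1, j2, j3, true_and, and_true, false_and, and_false, and_self, if_true,
          if_false, mul_one, mul_zero, zero_mul]
    rw [e1, hc]
    push_cast
    ring

/-- counting the third point -/
theorem cnt3 (hU : SpecUEF) (e f : E) (he : e ∈ UE) (hf : f ∈ UE) :
    ∑ g ∈ UE, A e f * (A e g * A f g) = 27 * A e f := by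
  rw [← Finset.mul_sum]
  by_cases h1 : A e f = 0
  · rw [h1]; ring
  · have i2 := A_of_ne _ _ h1
    have hfn : f ∈ nb e := Finset.mem_filter.2 ⟨hf, i2⟩
    have hc := hU.c27 e he f hfn
    have hs : {b : E | b ∈ UE ∧ (inner ℝ b f : ℝ) = 1 / 2 ∧ (inner ℝ b e : ℝ) = 1 / 2} =
        ((UE.filter fun b => (inner ℝ b f : ℝ) = 1 / 2 ∧ (inner ℝ b e : ℝ) = 1 / 2 :
          Finset E) : Set E) := by
      ext b
      simp
    rw [hs, Set.ncard_coe_finset] at hc
    have e1 : ∑ g ∈ UE, A e g * A f g =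
        ((UE.filter fun b => (inner ℝ b f : ℝ) = 1 / 2 ∧ (inner ℝ b e : ℝ) = 1 / 2).card : ℝ) := by
      rw [Finset.card_filter]
      push_cast
      refine Finset.sum_congr rfl fun b _ => ?_
      unfold A
      by_cases j1 : (inner ℝ b f : ℝ) = 1 / 2 <;> by_cases j2 : (inner ℝ b e : ℝ) = 1 / 2 <;>
        simp only [j1, j2, true_and, and_true, false_and, and_false, and_self, if_true,
          if_false, mul_one, mul_zero, zero_mul]
    rw [e1, hc]
    push_cast
    ring

theorem sum_nb (e : E) (F : E → ℝ) : ∑ f ∈ nb e, F f = ∑ f ∈ UE, A e f * F f := by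
  unfold nb
  rw [Finset.sum_filter]
  refine Finset.sum_congr rfl fun f _ => ?_
  unfold A
  by_cases h : (inner ℝ f e : ℝ) = 1 / 2 <;> simp [h]

/-- base evaluation, functions of two points -/
theorem Q2 (hU : SpecUEF) (w : E → E → ℝ) :
    Q (fun e f _ _ => w e f) = 432 * ∑ e ∈ UE, ∑ f ∈ nb e, w e f := by
  unfold Q
  rw [Finset.mul_sum]
  refine Finset.sum_congr rfl fun e he => ?_
  rw [sum_nb, Finset.mul_sum]
  refine Finset.sum_congr rfl fun f hf => ?_
  have h1 : ∀ g ∈ UE, ∑ h ∈ UE, W e f g h * w e f = 16 * (A e f * (A e g * A f g)) * w e f := by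
    intro g hg
    rw [← Finset.sum_mul, cnt4 hU e f g he hf hg]
  rw [Finset.sum_congr rfl h1, ← Finset.sum_mul, ← Finset.mul_sum, cnt3 hU e f he hf]
  ring

/-- base evaluation, functions of one point -/
theorem Q1 (hU : SpecUEF) (x : E → ℝ) :
    Q (fun e _ _ _ => x e) = 24192 * ∑ e ∈ UE, x e := by
  rw [Q2 hU (fun e _ => x e), Finset.mul_sum, Finset.mul_sum]
  refine Finset.sum_congr rfl fun e he => ?_
  rw [Finset.sum_const, hU.c56 e he, nsmul_eq_mul]
  push_cast
  ring

theorem Q0 (hU : SpecUEF) : Q (fun _ _ _ _ => 1) = 5806080 := by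
  rw [Q1 hU (fun _ => 1), Finset.sum_const, hU.c240, nsmul_eq_mul]
  norm_num

/-- transport of a sum of nonnegative terms -/
theorem img (s T : Finset E) (u : E → E) (hinj : ∀ a ∈ s, ∀ b ∈ s, u a = u b → a = b)
    (hmap : ∀ a ∈ s, u a ∈ T) (F : E → ℝ) (hF : ∀ v ∈ T, 0 ≤ F v) :
    ∑ a ∈ s, F (u a) ≤ ∑ v ∈ T, F v := by
  have h1 : ∑ a ∈ s, F (u a) = ∑ v ∈ s.image u, F v := by
    rw [Finset.sum_image]
    intro a ha b hb h
    exact hinj a ha b hb h
  rw [h1]
  refine Finset.sum_le_sum_of_subset_of_nonneg ?_ fun v hv _ => hF v hv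
  intro v hv
  obtain ⟨a, ha, rfl⟩ := Finset.mem_image.1 hv
  exact hmap a ha

/-- weights vanish outside a subset -/
theorem red (T : Finset E) (hT : T ⊆ UE) (a : E → ℝ) (ha : ∀ f ∈ UE, 0 ≤ a f ∧ a f ≤ 1)
    (hz : ∀ f ∈ UE, f ∉ T → a f = 0) (G : E → ℝ) (hG : ∀ f ∈ T, 0 ≤ G f) :
    ∑ f ∈ UE, a f * G f ≤ ∑ f ∈ T, G f := by
  rw [← Finset.sum_subset hT (f := fun f => a f * G f)
    (fun f hf hfT => by rw [hz f hf hfT, zero_mul])]
  refine Finset.sum_le_sum fun f hf => ?_
  have h1 := ha f (hT hf)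
  have h2 := hG f hf
  nlinarith

theorem v4_nonneg (a b c d : E) : 0 ≤ v4 a b c d := ENNReal.toReal_nonneg

theorem A_self (hU : SpecUEF) (e : E) (he : e ∈ UE) : A e e = 0 := by
  unfold A
  rw [if_neg]
  rw [real_inner_self_eq_norm_sq, hU.nrm e he]
  norm_num

theorem A3_bd (e f g : E) : 0 ≤ A e g * A f g ∧ A e g * A f g ≤ 1 :=
  ⟨mul_nonneg (A_nonneg _ _) (A_nonneg _ _),
    mul_le_one₀ (A_le_one _ _) (A_nonneg _ _) (A_le_one _ _)⟩

theorem A4_bd (e f g h : E) : 0 ≤ A e h * A f h * A g h ∧ A e h * A f h * A g h ≤ 1 :=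
  ⟨mul_nonneg (A3_bd e f h).1 (A_nonneg _ _),
    mul_le_one₀ (A3_bd e f h).2 (A_nonneg _ _) (A_le_one _ _)⟩

/-- the clique sum is at most S4 -/
theorem Q_le_S4 (hU : SpecUEF) (U : Finset E) (u : E → E) (hmem : ∀ e ∈ UE, u e ∈ U)
    (hinj : Set.InjOn u (UE : Set E)) :
    Q (fun e f g h => v4 (u e) (u f) (u g) (u h)) ≤ S4 U := by
  have hi : ∀ a ∈ UE, ∀ b ∈ UE, u a = u b → a = b := fun a ha b hb h => hinj ha hb h
  -- the sum over labels
  have h1 : ∑ e ∈ UE, ∑ f ∈ UE.erase e, ∑ g ∈ (UE.erase e).erase f,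
      ∑ h ∈ ((UE.erase e).erase f).erase g, v4 (u e) (u f) (u g) (u h) ≤ S4 U := by
    unfold S4
    refine le_trans ?_ (img UE U u hi hmem (fun a => ∑ v ∈ U.erase a,
      ∑ w ∈ (U.erase a).erase v, ∑ z ∈ ((U.erase a).erase v).erase w, v4 a v w z)
      (fun a _ => Finset.sum_nonneg fun _ _ => Finset.sum_nonneg fun _ _ =>
        Finset.sum_nonneg fun _ _ => v4_nonneg _ _ _ _))
    refine Finset.sum_le_sum fun e he => ?_
    have m1 : ∀ f ∈ UE.erase e, u f ∈ U.erase (u e) := by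
      intro f hf
      rw [Finset.mem_erase] at hf ⊢
      exact ⟨fun h => hf.1 (hi f hf.2 e he h), hmem f hf.2⟩
    refine le_trans ?_ (img (UE.erase e) (U.erase (u e)) u
      (fun a ha b hb h => hi a (Finset.mem_of_mem_erase ha) b (Finset.mem_of_mem_erase hb) h) m1
      (fun v => ∑ w ∈ (U.erase (u e)).erase v, ∑ z ∈ ((U.erase (u e)).erase v).erase w,
        v4 (u e) v w z)
      (fun _ _ => Finset.sum_nonneg fun _ _ => Finset.sum_nonneg fun _ _ => v4_nonneg _ _ _ _))
    refine Finset.sum_le_sum fun f hf => ?_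
    have hfU := Finset.mem_of_mem_erase hf
    have m2 : ∀ g ∈ (UE.erase e).erase f, u g ∈ (U.erase (u e)).erase (u f) := by
      intro g hg
      rw [Finset.mem_erase] at hg ⊢
      exact ⟨fun h => hg.1 (hi g (Finset.mem_of_mem_erase hg.2) f hfU h), m1 g hg.2⟩
    refine le_trans ?_ (img ((UE.erase e).erase f) ((U.erase (u e)).erase (u f)) u
      (fun a ha b hb h => hi a (Finset.mem_of_mem_erase (Finset.mem_of_mem_erase ha)) b
        (Finset.mem_of_mem_erase (Finset.mem_of_mem_erase hb)) h) m2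
      (fun w => ∑ z ∈ ((U.erase (u e)).erase (u f)).erase w, v4 (u e) (u f) w z)
      (fun _ _ => Finset.sum_nonneg fun _ _ => v4_nonneg _ _ _ _))
    refine Finset.sum_le_sum fun g hg => ?_
    have hgU := Finset.mem_of_mem_erase (Finset.mem_of_mem_erase hg)
    refine img (((UE.erase e).erase f).erase g) (((U.erase (u e)).erase (u f)).erase (u g)) u
      (fun a ha b hb h => hi a (Finset.mem_of_mem_erase (Finset.mem_of_mem_erase
        (Finset.mem_of_mem_erase ha))) b
        (Finset.mem_of_mem_erase (Finset.mem_of_mem_erase (Finset.mem_of_mem_erase hb))) h) ?_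
      (fun z => v4 (u e) (u f) (u g) z) (fun _ _ => v4_nonneg _ _ _ _)
    intro h hh
    rw [Finset.mem_erase] at hh ⊢
    exact ⟨fun h' => hh.1 (hi h (Finset.mem_of_mem_erase (Finset.mem_of_mem_erase hh.2)) g hgU h'),
      m2 h hh.2⟩
  refine le_trans ?_ h1
  unfold Q
  refine Finset.sum_le_sum fun e he => ?_
  -- rewrite in nested form
  have h2 : ∑ f ∈ UE, ∑ g ∈ UE, ∑ h ∈ UE, W e f g h * v4 (u e) (u f) (u g) (u h) =
      ∑ f ∈ UE, A e f * ∑ g ∈ UE, (A e g * A f g) * ∑ h ∈ UE, (A e h * A f h * A g h) *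
        v4 (u e) (u f) (u g) (u h) := by
    simp only [Finset.mul_sum]
    refine Finset.sum_congr rfl fun f _ => Finset.sum_congr rfl fun g _ =>
      Finset.sum_congr rfl fun h _ => ?_
    unfold W
    ring
  rw [h2]
  have n4 : ∀ f g : E, 0 ≤ ∑ h ∈ UE, (A e h * A f h * A g h) * v4 (u e) (u f) (u g) (u h) :=
    fun f g => Finset.sum_nonneg fun h _ => mul_nonneg (A4_bd e f g h).1 (v4_nonneg _ _ _ _)
  have n3 : ∀ f : E, 0 ≤ ∑ g ∈ UE, (A e g * A f g) * ∑ h ∈ UE, (A e h * A f h * A g h) *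
      v4 (u e) (u f) (u g) (u h) :=
    fun f => Finset.sum_nonneg fun g _ => mul_nonneg (A3_bd e f g).1 (n4 f g)
  refine le_trans (red (UE.erase e) (Finset.erase_subset _ _) (fun f => A e f)
    (fun f _ => ⟨A_nonneg _ _, A_le_one _ _⟩) ?_ _ (fun f _ => n3 f)) ?_
  · intro f hf hn
    have : f = e := by
      by_contra hc
      exact hn (Finset.mem_erase.2 ⟨hc, hf⟩)
    rw [this]
    exact A_self hU e he
  refine Finset.sum_le_sum fun f hf => ?_
  have hfU := Finset.mem_of_mem_erase hf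
  refine le_trans (red ((UE.erase e).erase f) ((Finset.erase_subset _ _).trans
    (Finset.erase_subset _ _)) (fun g => A e g * A f g)
    (fun g _ => A3_bd e f g) ?_ _ (fun g _ => n4 f g)) ?_
  · intro g hg hn
    simp only [Finset.mem_erase, not_and] at hn
    by_cases h5 : g = f
    · subst h5
      rw [A_self hU g hfU, mul_zero]
    · by_cases h6 : g = e
      · subst h6
        rw [A_self hU g he, zero_mul]
      · exact absurd hg (hn h5 h6)
  refine Finset.sum_le_sum fun g hg => ?_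
  have hgU := Finset.mem_of_mem_erase (Finset.mem_of_mem_erase hg)
  refine red (((UE.erase e).erase f).erase g) ((Finset.erase_subset _ _).trans
    ((Finset.erase_subset _ _).trans (Finset.erase_subset _ _)))
    (fun h => A e h * A f h * A g h) (fun h _ => A4_bd e f g h) ?_ _ (fun h _ => v4_nonneg _ _ _ _)
  intro h hh hn
  simp only [Finset.mem_erase, not_and] at hn
  by_cases h5 : h = g
  · subst h5
    rw [A_self hU h hgU, mul_zero]
  · by_cases h6 : h = f
    · subst h6
      rw [A_self hU h hfU, mul_zero, zero_mul]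
    · by_cases h7 : h = e
      · subst h7
        rw [A_self hU h he, zero_mul, zero_mul]
      · exact absurd hh (hn h5 h6 h7)

/-- the total deficit of four vectors -/
theorem tG_four (a b c d : E) : tG (Gr ![a, b, c, d]) =
    (1 - ‖a‖ ^ 2) / 2 + (1 - ‖b‖ ^ 2) / 2 + (1 - ‖c‖ ^ 2) / 2 + (1 - ‖d‖ ^ 2) / 2 +
    ((1 / 2 - (inner ℝ a b : ℝ)) + (1 / 2 - (inner ℝ a c : ℝ)) + (1 / 2 - (inner ℝ a d : ℝ)) +
    (1 / 2 - (inner ℝ b c : ℝ)) + (1 / 2 - (inner ℝ b d : ℝ)) + (1 / 2 - (inner ℝ c d : ℝ))) := by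
  have e1 : (inner ℝ b a : ℝ) = inner ℝ a b := real_inner_comm _ _
  have e2 : (inner ℝ c a : ℝ) = inner ℝ a c := real_inner_comm _ _
  have e3 : (inner ℝ d a : ℝ) = inner ℝ a d := real_inner_comm _ _
  have e4 : (inner ℝ c b : ℝ) = inner ℝ b c := real_inner_comm _ _
  have e5 : (inner ℝ d b : ℝ) = inner ℝ b d := real_inner_comm _ _
  have e6 : (inner ℝ d c : ℝ) = inner ℝ c d := real_inner_comm _ _
  simp [tG, Gr, Fin.sum_univ_four, e1, e2, e3, e4, e5, e6]
  ring

/-- the bound for each clique -/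
theorem Q_mono (hU : SpecUEF) (hV : SpecV4L) (u : E → E) (h1 : ∀ e ∈ UE, ‖u e‖ ≤ 1)
    (h2 : ∀ e ∈ UE, ∀ f ∈ UE, e ≠ f → (inner ℝ (u e) (u f) : ℝ) ≤ 1 / 2) :
    Q (fun e f g h => s4 - 31 / 10 ^ 8 * tG (Gr ![u e, u f, u g, u h])) ≤
      Q (fun e f g h => v4 (u e) (u f) (u g) (u h)) := by
  unfold Q
  refine Finset.sum_le_sum fun e he => Finset.sum_le_sum fun f hf =>
    Finset.sum_le_sum fun g hg => Finset.sum_le_sum fun h hh => ?_
  by_cases hW : W e f g h = 0
  · rw [hW, zero_mul, zero_mul]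
  · have a1 : A e f ≠ 0 := fun h' => hW (by unfold W; rw [h']; ring)
    have a2 : A e g ≠ 0 := fun h' => hW (by unfold W; rw [h']; ring)
    have a3 : A e h ≠ 0 := fun h' => hW (by unfold W; rw [h']; ring)
    have a4 : A f g ≠ 0 := fun h' => hW (by unfold W; rw [h']; ring)
    have a5 : A f h ≠ 0 := fun h' => hW (by unfold W; rw [h']; ring)
    have a6 : A g h ≠ 0 := fun h' => hW (by unfold W; rw [h']; ring)
    have ne : ∀ a ∈ UE, ∀ b : E, A a b ≠ 0 → a ≠ b := by
      intro a ha b hab h'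
      subst h'
      exact hab (A_self hU a ha)
    have b1 := h2 e he f hf (ne e he f a1)
    have b2 := h2 e he g hg (ne e he g a2)
    have b3 := h2 e he h hh (ne e he h a3)
    have b4 := h2 f hf g hg (ne f hf g a4)
    have b5 := h2 f hf h hh (ne f hf h a5)
    have b6 := h2 g hg h hh (ne g hg h a6)
    have W0 : 0 ≤ W e f g h := by
      unfold W
      exact mul_nonneg (mul_nonneg (A_nonneg _ _) (A3_bd e f g).1) (A4_bd e f g h).1
    refine mul_le_mul_of_nonneg_left ?_ W0
    have hv := hV ![u e, u f, u g, u h] ?_ ?_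
    · exact hv
    · intro i
      fin_cases i
      · exact h1 e he
      · exact h1 f hf
      · exact h1 g hg
      · exact h1 h hh
    · intro i j hij
      fin_cases i <;> fin_cases j
      · exact absurd rfl hij
      · exact b1
      · exact b2
      · exact b3
      · exact (real_inner_comm _ _).trans_le b1
      · exact absurd rfl hij
      · exact b4
      · exact b5
      · exact (real_inner_comm _ _).trans_le b2
      · exact (real_inner_comm _ _).trans_le b4
      · exact absurd rfl hij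
      · exact b6
      · exact (real_inner_comm _ _).trans_le b3
      · exact (real_inner_comm _ _).trans_le b5
      · exact (real_inner_comm _ _).trans_le b6
      · exact absurd rfl hij

end CQ4M

open CQ4M in
theorem specCQ4 (hU : SpecUEF) (hV : SpecV4L) : SpecCQ4 := by
  intro U u hmem hinj h1 h2
  refine le_trans ?_ (le_trans (Q_mono hU hV u h1 h2) (Q_le_S4 hU U u hmem hinj))
  let x : E → ℝ := fun e => (1 - ‖u e‖ ^ 2) / 2
  let w : E → E → ℝ := fun e f => 1 / 2 - (inner ℝ (u e) (u f) : ℝ)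
  have x0 : Q (fun e _ _ _ => x e) = 24192 * Xr u := Q1 hU x
  have x1 : Q (fun _ f _ _ => x f) = 24192 * Xr u :=
    (swap01 (fun e _ _ _ => x e)).trans x0
  have x2 : Q (fun _ _ g _ => x g) = 24192 * Xr u :=
    (swap12 (fun _ f _ _ => x f)).trans x1
  have x3 : Q (fun _ _ _ h => x h) = 24192 * Xr u :=
    (swap23 (fun _ _ g _ => x g)).trans x2
  have w01 : Q (fun e f _ _ => w e f) = 432 * Wo u := Q2 hU w
  have w02 : Q (fun e _ g _ => w e g) = 432 * Wo u :=
    (swap12 (fun e f _ _ => w e f)).trans w01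
  have w03 : Q (fun e _ _ h => w e h) = 432 * Wo u :=
    (swap23 (fun e _ g _ => w e g)).trans w02
  have w12 : Q (fun _ f g _ => w f g) = 432 * Wo u :=
    (swap01 (fun e _ g _ => w e g)).trans w02
  have w13 : Q (fun _ f _ h => w f h) = 432 * Wo u :=
    (swap01 (fun e _ _ h => w e h)).trans w03
  have w23 : Q (fun _ _ g h => w g h) = 432 * Wo u :=
    (swap12 (fun _ f _ h => w f h)).trans w13
  have e1 : (fun e f g h => s4 - 31 / 10 ^ 8 * tG (Gr ![u e, u f, u g, u h])) =
      (fun e f g h => s4 * 1 + (-(31 / 10 ^ 8)) * (x e + (x f + (x g + (x h + (w e f + (w e g +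
        (w e h + (w f g + (w f h + w g h)))))))))) := by
    funext e f g h
    rw [tG_four]
    simp only [x, w]
    ring
  rw [e1, Q_add, Q_smul s4 (fun _ _ _ _ => 1), Q0 hU, Q_smul, Q_add, Q_add, Q_add, Q_add, Q_add,
    Q_add, Q_add, Q_add, Q_add, x0, x1, x2, x3, w01, w02, w03, w12, w13, w23]
  apply le_of_eq
  ring

end Pool.Agent.Lib.MP_f1379f_gt.FV
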