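import Pool.Agent.Lib.MP_f1379f_gt.FV.SpecO
import Pool.Agent.Lib.MP_f1379f_gt.FV.KIA

/-!
# MP_f1379f_gt, full Q1, block G: the local geometry of a displaced E8 configuration

Exact Specs, complete elementary proofs in the docstrings.  RESULT of the block: if the 240 roots e of
E8 (UE) are displaced to u e = e + d_e, |u e| <= 1, admissible, in Procrustes gauge, with
S = sum |d_e|^2 <= 3/20, then the certificate (C_P) implies S <= 1/50 (SpecSTG); and the global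
inequality SpecERR between S, x = sum (1 - |u e|^2)/2 and the contact strains w.

NOTATION.  d_e = u e - e, r_e = gr u e = (1 - |u e|^2)/2 >= 0, b_e = lam u e = -<d_e,e> = r_e +
|d_e|^2/2, D_e = del u e = d_e + b_e e (orthogonal to e), w_ef = gw u e f = 1/2 - <u e,u f>,
S = gS u, x = gx u, L = gL u = sum over ordered contact pairs of w.  `hx a f` = the great hexagon
a, f, f-a, -a, -f, a-f of a contact pair, hS = sum of |d|^2 over it.  m = a bound of all |d_e|^2.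
FACTS used everywhere (module GBA): b_e = r_e + |d_e|^2/2 >= |d_e|^2/2; |d_e|^2 = |D_e|^2 + b_e^2;
w_ef >= 2 r_e r_f >= 0 for e /= f; for contacts (<e,f> = 1/2):
  <D_e,f> + <e,D_f> = (b_e + b_f)/2 - <d_e,d_f> - w_ef.
-/

set_option autoImplicit false

namespace Pool.Agent.Lib.MP_f1379f_gt.FV

open MeasureTheory

/-- Radial defect. -/
noncomputable def gr (u : E → E) (e : E) : ℝ := (1 - ‖u e‖ ^ 2) / 2

/-- Strain of a pair. -/
noncomputable def gw (u : E → E) (e f : E) : ℝ := 1 / 2 - (inner ℝ (u e) (u f) : ℝ)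

/-- Total squared displacement. -/
noncomputable def gS (u : E → E) : ℝ := ∑ e ∈ UE, ‖u e - e‖ ^ 2

/-- Total radial defect. -/
noncomputable def gx (u : E → E) : ℝ := ∑ e ∈ UE, gr u e

/-- Total contact strain (ordered pairs). -/
noncomputable def gL (u : E → E) : ℝ := ∑ e ∈ UE, ∑ f ∈ nb e, gw u e f

/-- The great hexagon of a contact pair. -/
noncomputable def hx (a f : E) : Fin 6 → E := ![a, f, f - a, -a, -f, a - f]

/-- Squared displacement on a hexagon. -/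
noncomputable def hS (u : E → E) (a f : E) : ℝ := ∑ i, ‖u (hx a f i) - hx a f i‖ ^ 2

/-- Admissible displaced configurations in Procrustes gauge (`∑ (u e - e) ⊗ e` symmetric). -/
structure CFG (u : E → E) : Prop where
  le_one : ∀ e ∈ UE, ‖u e‖ ≤ 1
  sep : ∀ e ∈ UE, ∀ f ∈ UE, e ≠ f →
    2 * (inner ℝ (u e) (u f) : ℝ) ≤ ‖u e‖ ^ 2 + ‖u f‖ ^ 2 - ‖u e‖ ^ 2 * ‖u f‖ ^ 2
  gauge : ∀ a b : E, ∑ e ∈ UE, (inner ℝ (u e - e) a : ℝ) * (inner ℝ e b : ℝ) =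
    ∑ e ∈ UE, (inner ℝ (u e - e) b : ℝ) * (inner ℝ e a : ℝ)

/-- GBA (150 lines).  Basic identities.
PROOF.  |u e|^2 = 1 + 2<d_e,e> + |d_e|^2 gives bet; orth: <D_e,e> = -b_e + b_e = 0; pyth: d_e = D_e - b_e e.
w2: sep: 2<u e,u f> <= 1 - (1-|u e|^2)(1-|u f|^2) = 1 - 4 r_e r_f.  vid: <u e,u f> = 1/2 + <d_e,f> + <e,d_f> +
<d_e,d_f>, <d_e,f> = <D_e,f> - b_e/2, <e,d_f> = <e,D_f> - b_f/2.  gau: for an orthonormal basis (c_i),
sum_{e,f} <e,f><d_e,d_f> = sum_{i,j} (sum_e <d_e,c_i><e,c_j>)^2 and sum_{e,f} <d_e,f><d_f,e> =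
sum_{i,j} (sum_e <d_e,c_i><e,c_j>)(sum_f <d_f,c_j><f,c_i>): equal by the gauge condition; and the
expression <e,f><d_e,d_f> - <d_e,f><d_f,e> does not change if d_e is replaced by D_e = d_e + b_e e
(bilinear and zero if d_e is a multiple of e or d_f a multiple of f).
nb2: sum over nb a of <D,f>^2 for D orthogonal to a: sum over UE of <D,f>^2 is 30 |D|^2 (EV.POL / EV.LPI
moments: 240/8), ±a contribute 0, nb a and -nb a the same; sum over ob a of <D,f>^2 = 18 |D|^2 (isotropy: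
IS2 argument or the E8 moment identity sum_f <a,f>^2 <D,f>^2 = 240 |D|^2/(8*10) = 3 |D|^2 for D
orthogonal to a, |a| = 1: = 2 * (1/4) sum_{nb a} <D,f>^2, so sum_{nb a} = 6 |D|^2 at once).
nbh: f -> a - f is a bijection of nb a and changes the sign of <D,f>, so the positive parts give half. -/
structure SpecGBA : Prop where
  bet : ∀ u : E → E, ∀ e ∈ UE, lam u e = gr u e + ‖u e - e‖ ^ 2 / 2
  orth : ∀ u : E → E, ∀ e ∈ UE, (inner ℝ (del u e) e : ℝ) = 0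
  pyth : ∀ u : E → E, ∀ e ∈ UE, ‖u e - e‖ ^ 2 = ‖del u e‖ ^ 2 + lam u e ^ 2
  r0 : ∀ u : E → E, CFG u → ∀ e ∈ UE, 0 ≤ gr u e
  w2 : ∀ u : E → E, CFG u → ∀ e ∈ UE, ∀ f ∈ UE, e ≠ f → 2 * (gr u e * gr u f) ≤ gw u e f
  vid : ∀ u : E → E, ∀ e ∈ UE, ∀ f ∈ nb e,
    (inner ℝ (del u e) f : ℝ) + (inner ℝ e (del u f) : ℝ) =
      (lam u e + lam u f) / 2 - (inner ℝ (u e - e) (u f - f) : ℝ) - gw u e f
  gau : ∀ u : E → E, CFG u → ∑ e ∈ UE, ∑ f ∈ UE,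
    ((inner ℝ e f : ℝ) * (inner ℝ (del u e) (del u f) : ℝ)
      - (inner ℝ (del u e) f : ℝ) * (inner ℝ (del u f) e : ℝ)) = 0
  nb2 : ∀ a ∈ UE, ∀ D : E, (inner ℝ D a : ℝ) = 0 →
    ∑ f ∈ nb a, (inner ℝ D f : ℝ) ^ 2 = 6 * ‖D‖ ^ 2
  nbh : ∀ a ∈ UE, ∀ D : E, (inner ℝ D a : ℝ) = 0 →
    ∑ f ∈ nb a, (max 0 (inner ℝ D f : ℝ)) ^ 2 = 3 * ‖D‖ ^ 2

/-- HXC (150 lines).  Hexagons.
PROOF.  mem: UEF.neg, UEF.sub.  mid: direct computation for the six i.  nxt: all consecutive products are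
1/2 (|a| = |f| = 1, <a,f> = 1/2).  inj: products with a, f: (1,1/2), (1/2,1), (-1/2,1/2), (-1,-1/2), (-1/2,-1),
(1/2,-1/2) are different.  two: let v in UE be outside; hx(i+3) = -hx i, so not both of i, i+3 touch v; if
i and i+2 touch v then <v,hx(i+1)> = <v,hx i + hx(i+2)> = 1, so v = hx(i+1) (UEF.one), excluded; hence
the touching indices are contained in some {i, i+1}.  inn: the members of the hexagon in nb (hx i) are
hx(i+1), hx(i-1) (products with hx i: 1, 1/2, -1/2, -1, -1/2, 1/2). -/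
structure SpecHXC : Prop where
  mem : ∀ a ∈ UE, ∀ f ∈ nb a, ∀ i, hx a f i ∈ UE
  inj : ∀ a ∈ UE, ∀ f ∈ nb a, Function.Injective (hx a f)
  nxt : ∀ a ∈ UE, ∀ f ∈ nb a, ∀ i, hx a f (i + 1) ∈ nb (hx a f i)
  mid : ∀ a f : E, ∀ i, hx a f (i - 1) + hx a f (i + 1) = hx a f i
  two : ∀ a ∈ UE, ∀ f ∈ nb a, ∀ v ∈ UE, v ∉ Set.range (hx a f) →
    (Finset.univ.filter fun i : Fin 6 => (inner ℝ v (hx a f i) : ℝ) = 1 / 2).card ≤ 2
  inn : ∀ a ∈ UE, ∀ f ∈ nb a, ∀ i j, (inner ℝ (hx a f j) (hx a f i) : ℝ) = 1 / 2 →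
    j = i + 1 ∨ j = i - 1

/-- HEX (100 lines).  The stress of a hexagon bounds every contact strain.
PROOF.  With h_i = hx a f i (indices mod 6), d_i = u h_i - h_i: w_{i,i+1} = 1/2 - <h_i + d_i, h_{i+1} + d_{i+1}>
= -<d_i,h_{i+1}> - <h_i,d_{i+1}> - <d_i,d_{i+1}>.  Sum over i: sum_i <d_i, h_{i-1} + h_{i+1}> = sum_i <d_i,h_i> =
-sum b_i, so sum_i w_{i,i+1} = sum_i b_i - sum_i <d_i,d_{i+1}> <= sum_i (r_i + |d_i|^2/2) + sum |d_i|^2
(|<d_i,d_{i+1}>| <= (|d_i|^2+|d_{i+1}|^2)/2).  All w_{i,i+1} >= 0 (GBA.w2), w_{01} = gw u a f, and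
sum_i r_i <= x (six different roots). -/
def SpecHEX : Prop :=
  ∀ u : E → E, CFG u → ∀ a ∈ UE, ∀ f ∈ nb a, gw u a f ≤ gx u + 3 / 2 * hS u a f

/-- HLB (60 lines).  Total radial components on a hexagon.
PROOF.  sum_i b_i = sum_i r_i + hS/2 <= x + hS/2 and 0 <= b_i <= x + m/2 (r_i <= x). -/
def SpecHLB : Prop :=
  ∀ u : E → E, CFG u → ∀ m : ℝ, (∀ e ∈ UE, ‖u e - e‖ ^ 2 ≤ m) → ∀ a ∈ UE, ∀ f ∈ nb a,
    ∑ i, lam u (hx a f i) ^ 2 ≤ (gx u + m / 2) * (gx u + hS u a f / 2)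

/-- MSQ (120 lines).  A displaced root displaces its neighbours.
PROOF.  For f in nb a: 0 <= w_af = 1/2 - <u a, f + d_f> = -<d_a,f> - <u a,d_f>, so <d_a,f> <= |d_f|
(|u a| <= 1), <d_a,f> = <D_a,f> - b_a/2: |d_f| >= (g_f - b_a/2)+, g_f = <D_a,f>.  For g > 0, b >= 0:
((g-b)+)^2 >= (1-mu) g^2 - (1/mu - 1) b^2 ((g-b)^2 >= (1-mu) g^2 + (1-1/mu) b^2 by 2gb <= mu g^2 + b^2/mu; if
g < b the right side is <= (1-mu)b^2 - (1/mu-1) b^2 <= 0).  At most 28 of the 56 have g_f > 0 (f -> a - f) and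
their squares sum to 3 |D_a|^2 (GBA.nbh).  So S >= |d_a|^2 + sum_{nb a} |d_f|^2 >= |D_a|^2 + b_a^2 +
3 (1-mu) |D_a|^2 - 28 (1/mu-1) b_a^2/4. -/
def SpecMSQ : Prop :=
  ∀ u : E → E, CFG u → ∀ a ∈ UE, ∀ mu : ℝ, 0 < mu → mu ≤ 1 →
    (1 + 3 * (1 - mu)) * ‖del u a‖ ^ 2 ≤ gS u + (7 * (1 / mu - 1) - 1) * lam u a ^ 2

/-- HXN (200 lines).  A displaced hexagon displaces its outer neighbours.
PROOF.  h_i = hx a f i, H their set, D_i, b_i.  For v in UE outside H touching h_i: |d_v| >= (<D_i,v> - b_i/2)+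
(as in MSQ).  v touches at most two of the h_i (HXC.two), so |d_v|^2 >= (1/2) sum_{i : h_i touches v}
((<D_i,v> - b_i/2)+)^2.  Sum over the outer v: sum_v |d_v|^2 >= (1/2) sum_i sum_{v in nb h_i, outer} (..)^2.
For fixed i: nb h_i meets H in k = h_{i+1} and h_{i-1} = h_i - k (HXC.inn); the outer part is invariant
under v -> h_i - v, so at most 27 outer v have g = <D_i,v> > 0, and sum of g^2 over them is
(1/2)(6|D_i|^2 - 2 <D_i,k>^2) >= (1/2)(6 - 3/2)|D_i|^2 = (9/4)|D_i|^2, as <D_i,k> = <D_i,k - h_i/2>, |k - h_i/2|^2 = 3/4.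
With ((g-b)+)^2 >= (1-mu)g^2 - (1/mu-1)b^2, b = b_i/2: sum_v |d_v|^2 >= sum_i [(9/8)(1-mu)|D_i|^2 -
(27/8)(1/mu-1) b_i^2].  S >= hS + sum_v |d_v|^2 and |D_i|^2 = |d_i|^2 - b_i^2. -/
def SpecHXN : Prop :=
  ∀ u : E → E, CFG u → ∀ a ∈ UE, ∀ f ∈ nb a, ∀ mu : ℝ, 0 < mu → mu ≤ 1 →
    (1 + 9 / 8 * (1 - mu)) * hS u a f ≤
      gS u + (9 / 8 * (1 - mu) + 27 / 8 * (1 / mu - 1)) * ∑ i, lam u (hx a f i) ^ 2

/-- MKF.  PROVED (MKF.lean, theorem mkf, helper16).  The spectral gap of the contact strain.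
PROOF.  Mixed second derivative of the kernel F = sum c_k P_k, c_2, .., c_6 = 13/320, 1/12, 21/160, 3/20,
11/160 (P_k = Zg 8 k t 1), on the vectors e + eps D_e: 0 <= sum_{e,f} (F2(t) <D_e,f><D_f,e> + F1(t) <D_e,D_f>),
t = <e,f>, F1 = F', F2 = F''.  F1 t = t/20 + (8/5)(t^2 - 1/4) t (t+1)(t+1/4), so F1 t = t/20 for t in {1/2, 0, -1/2, -1} and
F1 1 = 1/20 + 3; F2(1/2) = 19/20, F2 0 = F2(-1/2) = -1/20 (at t = ±1 the factor <D_e,f><D_f,e> is 0).  With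
A_ef = <D_e,f>, A_fe = <D_f,e>, this gives
0 <= (1/20) sum_{e,f} <e,f><D_e,D_f> + 3 sum |D_e|^2 - (1/20) sum_{e,f} A_ef A_fe + sum_{contacts} A_ef A_fe,
so C := sum_{contacts, ordered} A_ef A_fe >= -3 sum |D_e|^2 - G/20, G = sum (<e,f><D_e,D_f> - A_ef A_fe).  And
sum_{contacts} (A_ef + A_fe)^2 = 2 sum_e sum_{f in nb e} A_ef^2 + 2C = 12 sum |D_e|^2 + 2C (GBA.nb2). -/
def SpecMKF : Prop :=
  ∀ D : E → E, (∀ e ∈ UE, (inner ℝ (D e) e : ℝ) = 0) →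
    6 * ∑ e ∈ UE, ‖D e‖ ^ 2 - 1 / 10 * ∑ e ∈ UE, ∑ f ∈ UE,
        ((inner ℝ e f : ℝ) * (inner ℝ (D e) (D f) : ℝ)
          - (inner ℝ (D e) f : ℝ) * (inner ℝ (D f) e : ℝ)) ≤
      ∑ e ∈ UE, ∑ f ∈ nb e, ((inner ℝ (D e) f : ℝ) + (inner ℝ e (D f) : ℝ)) ^ 2

/-- ERR (200 lines).  The global inequality.
PROOF.  For contacts v = <D_e,f> + <e,D_f> = s - w, s = (b_e+b_f)/2 - <d_e,d_f> (GBA.vid).
s >= (|d_e|^2 + |d_f|^2)/4 - |d_e||d_f| >= -|d_e||d_f|/2 >= -m/2 (b >= |d|^2/2), so v^2 = s^2 - 2sw + w^2 <=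
s^2 + m w + W w.  Sum: sum v^2 <= sum s^2 + (W + m) L.  s^2 <= (1+mu) ((b_e+b_f)/2)^2 + (1+1/mu) <d_e,d_f>^2;
sum_{contacts} ((b_e+b_f)/2)^2 = 28 sum b^2 + (1/2) sum_{contacts} b_e b_f <= 28 sum b^2 + (1/2)(sum b)^2;
sum_{contacts} <d_e,d_f>^2 <= S^2.  sum b = x + S/2, b_e <= x + m/2, so sum b^2 <= Q = (x+m/2)(x+S/2).
MKF (D = del u) and GBA.gau: 6 sum |D_e|^2 <= sum v^2, and sum |D_e|^2 = S - sum b^2 >= S - Q. -/
def SpecERR : Prop :=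
  ∀ u : E → E, CFG u → ∀ m W mu : ℝ, 0 < mu → (∀ e ∈ UE, ‖u e - e‖ ^ 2 ≤ m) →
    (∀ e ∈ UE, ∀ f ∈ nb e, gw u e f ≤ W) →
    6 * gS u ≤ (28 * (1 + mu) + 6) * ((gx u + m / 2) * (gx u + gS u / 2))
      + (1 + mu) / 2 * (gx u + gS u / 2) ^ 2 + (1 + 1 / mu) * gS u ^ 2 + (W + m) * gL u

/-- STG.  (PROVED in STG.lean; superseded by STG2 in SpecG2.lean, which has the final constants.)
Stage 1': the certificate (C_P) leaves only small displacements.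
PROOF.  Put S = gS u, x = gx u, L = gL u, m = max |d_e|^2 (attained at a), H = max of hS u e f over the
contact pairs, W = x + (3/2) H.  (1) MSQ at a with mu = 1/3: 3 (m - b^2) <= S + 13 b^2, b = lam u a <= x + m/2
(GBA.bet, pyth): 3m <= S + 16 (x + m/2)^2, and m <= S.  (2) HXN with mu = 1/3 and HLB: 7H <= 4S +
30 (x + m/2)(x + H/2), and H <= S.  (3) HEX: every contact strain is <= W; TT (u e)(u f) = 1/2 - p, p =
w - 2 r_e r_f in [0, W]; base is increasing on [0,1/2], so (if W < 1/2) the sum over contacts of base(TT)(1/2-TT)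
is >= base(1/2 - W) (L - 2x^2) (sum over contacts of r_e r_f <= x^2).  (4) ERR with mu = 1/4: (W + m) L >=
Q := 6S - 41 (x + m/2)(x + S/2) - (5/8)(x + S/2)^2 - 5 S^2.  On a box S1 <= S <= S2, x1 <= x <= x2: m <= mm (from (1),
the other root of the quadratic being > S2), H <= HH from (2), W <= WW = x2 + (3/2)HH, Q >= min of the values
at S1 and S2 with x = x2, m = mm (concave in S), L >= LL = Q/(WW + mm); contradiction if
base(1/2 - WW)(LL - 2 x2^2) - LL/500 > 406/1000.  With x-intervals [0,.0066], [.0066,.0132], [.0132,.0198] and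
S1, S2 = .02,.0245,.0325,.0435,.057,.07,.081,.088,.09 this holds (left side .41 in the worst x-interval, >= .52 in
the others; e.g. S in [.07,.081], x in [.0132,.0198]: mm = .0343, HH = .0537, WW = .1004).  For the last claim,
x <= 1/100: x-intervals [0,.005],[.005,.01], S1, S2 = .01,.013,.02: left side >= .57.  (A rational-arithmetic
lemma for one box with mm, HH as parameters, then norm_num for the 28 boxes.) -/
def SpecSTG : Prop :=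
  ∀ u : E → E, CFG u → gS u ≤ 9 / 100 → gx u ≤ 99 / 5000 →
    (∑ e ∈ UE, ∑ f ∈ nb e, base (TT (u e) (u f)) * (1 / 2 - TT (u e) (u f)) ≤
      406 / 1000 + gL u / 500) →
    gS u ≤ 1 / 50 ∧ (gx u ≤ 1 / 100 → gS u ≤ 1 / 100)

/-- NSM (150 lines).  The total loss in the final regime.
PROOF.  As in STG, (1), (2), ERR: m := max |d|^2 <= 1/50.  Regime x <= 1/100, S <= 1/100: 3m <= S + 16 (x+m/2)^2
gives m <= 1/200; x + m/2 <= 1/80; m <= S/3 + (16/3)(1/80)(x + m/2), so m <= (7/20) S + (7/100) x; H (7 - 15/80) <=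
4S + (30/80) x, so H <= (3/5) S + (3/50) x, W + m <= (6/5) x + (5/4) S; ERR (mu = 1/4), x + m/2 <= (21/20) x +
(7/40) S: 6S <= 41 ((21/20)x + (7/40)S)(x + S/2) + (5/8)(x + S/2)^2 + 5S^2 + ((6/5)x + (5/4)S) L, and with
S, x <= 1/100: S <= 8x^2 + ((6/5) x + (5/4) S) L (2/11) <= 8x^2 + (1/220) L.  The loss is sum (.0408|D|^2 +
.848|D|^4) + S/8 <= (204/5000 + (106/125)(1/200) + 1/8) S <= (341/2000) S <= x/70 + (8/10000) L. -/
structure SpecNSM : Prop where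
  lo : ∀ u : E → E, CFG u → gS u ≤ 1 / 100 → gx u ≤ 1 / 100 →
    ∑ e ∈ UE, (204 / 5000 * ‖del u e‖ ^ 2 + 106 / 125 * ‖del u e‖ ^ 4) + 1 / 8 * gS u ≤
      gx u / 70 + 8 / 10000 * gL u
  hi : ∀ u : E → E, CFG u → gS u ≤ 1 / 50 →
    ∑ e ∈ UE, (204 / 5000 * ‖del u e‖ ^ 2 + 106 / 125 * ‖del u e‖ ^ 4) + 1 / 8 * gS u ≤
      366 / 100000

end Pool.Agent.Lib.MP_f1379f_gt.FV
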