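import Pool.Agent.Lib.MP_f1379f_gt.FV.SpecG

/-!
# MP_f1379f_gt, full Q1, block G, second part: sharper forms with the final constants

Same notation as SpecG.lean.  (C_X) holds with `kappa_X = 7/100`, (C_P) with `a0'/2 = 17/1000`.
-/

set_option autoImplicit false

namespace Pool.Agent.Lib.MP_f1379f_gt.FV

open MeasureTheory

/-- HXK.  Strain plus product of the displacements of a contact pair.
PROOF.  As HEX: w_af <= sum_i b_i - sum_i <d_i,d_{i+1}> with d_0 = d_a, d_1 = d_f, and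
|d_0||d_1| - sum_i <d_i,d_{i+1}> <= 2 n_0 n_1 + n_1 n_2 + n_2 n_3 + n_3 n_4 + n_4 n_5 + n_5 n_0 <=
(127/100) sum n_i^2, n_i = |d_i| (weights 27/50, 67/100). -/
def SpecHXK : Prop :=
  ∀ u : E → E, CFG u → ∀ a ∈ UE, ∀ f ∈ nb a,
    gw u a f + ‖u a - a‖ * ‖u f - f‖ ≤ gx u + 177 / 100 * hS u a f

/-- ERK.  The global inequality with `K >= w + |d_e||d_f|` for the contact pairs.
PROOF.  As ERR, with s >= -|d_e||d_f|/2, so v^2 <= s^2 + w (w + |d_e||d_f|) <= s^2 + K w. -/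
def SpecERK : Prop :=
  ∀ u : E → E, CFG u → ∀ m K mu : ℝ, 0 < mu → (∀ e ∈ UE, ‖u e - e‖ ^ 2 ≤ m) →
    (∀ e ∈ UE, ∀ f ∈ nb e, gw u e f + ‖u e - e‖ * ‖u f - f‖ ≤ K) →
    6 * gS u ≤ (28 * (1 + mu) + 6) * ((gx u + m / 2) * (gx u + gS u / 2))
      + (1 + mu) / 2 * (gx u + gS u / 2) ^ 2 + (1 + 1 / mu) * gS u ^ 2 + K * gL u

/-- STG2.  Stage 1' with the final constants.
PROOF.  As STG, with K = x + (177/100) H instead of W + m in (4).  (5) x <= 213/10000: W <= x + (3/2) S <=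
.159, base(1/2 - W) >= .11, L <= 4, (7/20) x <= .0072655 + .000134 + .00125 x.  (6) boxes with X = 213/10000:
S1 = .02, .0235, .0295, .0395, .054, .069, .082, last S2 = .09; then X = 1/80, [.015,.02]; X = 1/100,
[.01,.015]. -/
def SpecSTG2 : Prop :=
  ∀ u : E → E, CFG u → gS u ≤ 9 / 100 → gx u ≤ 24 / 1000 →
    (7 / 20 * gx u ≤ 72655 / 10 ^ 7 + 31 / 10 ^ 8 * (108 * gL u + 4032 * gx u)) →
    (17 / 1000 * ∑ e ∈ UE, ∑ f ∈ nb e, base (TT (u e) (u f)) * (1 / 2 - TT (u e) (u f)) ≤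
      72655 / 10 ^ 7 + 31 / 10 ^ 8 * (108 * gL u + 4032 * gx u)) →
    gx u ≤ 213 / 10000 ∧ gS u ≤ 1 / 50 ∧ (gx u ≤ 1 / 80 → gS u ≤ 3 / 200) ∧
      (gx u ≤ 1 / 100 → gS u ≤ 1 / 100)

/-- NSM2.  The loss is at most `(183/1000) S` for `S <= 1/50`.
PROOF.  .0408 + .848/50 + .125 = .18276. -/
def SpecNSM2 : Prop :=
  ∀ u : E → E, CFG u → gS u ≤ 1 / 50 →
    ∑ e ∈ UE, (204 / 5000 * ‖del u e‖ ^ 2 + 106 / 125 * ‖del u e‖ ^ 4) + 1 / 8 * gS u ≤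
      183 / 1000 * gS u

end Pool.Agent.Lib.MP_f1379f_gt.FV
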