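import Pool.Agent.Lib.MP_f1379f_gt.FV.SpecO
import Pool.Agent.Lib.MP_f1379f_gt.FV.GEN
import Pool.Agent.Lib.MP_f1379f_gt.EV.Spec
import Pool.Agent.Lib.MP_f1379f_gt.FV.SpecG
import Pool.Agent.Lib.MP_f1379f_gt.FV.SpecG2

section
/-!
# MP_f1379f_gt, full Q1, local part: MKF, the rigidity inequality for tangential fields

`∑_e ∑_{f ∈ nb e} (⟨δ_e,f⟩ + ⟨e,δ_f⟩)^2 ≥ 6 ∑ |δ_e|^2 - (1/10) ∑_{e,f} (⟨e,f⟩⟨δ_e,δ_f⟩ - ⟨δ_e,f⟩⟨δ_f,e⟩)`
for every field `δ` with `⟨e,δ_e⟩ = 0` on UE: second mixed difference of the positive semidefinite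
kernel `F = ∑_{k=2..6} c_k Z_k`, `F'(t) = (8/5)t^5 + 2t^4 - t^2/2 - t/20`.
-/
set_option autoImplicit false

namespace Pool.Agent.Lib.MP_f1379f_gt.FV

open Finset Filter Topology

namespace MKFM

/-- Second mixed difference data of a function of two variables at the origin. -/
def Rep (Φ : ℝ → ℝ → ℝ) (x0 x1 x2 x3 : ℝ) : Prop :=
  ∃ X1 X2 X3 : ℝ → ℝ, ContinuousAt X1 0 ∧ ContinuousAt X2 0 ∧ ContinuousAt X3 0 ∧
    X1 0 = x1 ∧ X2 0 = x2 ∧ X3 0 = x3 ∧ Φ 0 0 = x0 ∧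
    ∀ ε, Φ ε 0 = x0 + ε * X1 ε ∧ Φ 0 ε = x0 + ε * X2 ε ∧
      Φ ε ε = x0 + ε * X1 ε + ε * X2 ε + ε ^ 2 * X3 ε

lemma Rep.const (c : ℝ) : Rep (fun _ _ => c) c 0 0 0 :=
  ⟨fun _ => 0, fun _ => 0, fun _ => 0, continuousAt_const, continuousAt_const, continuousAt_const,
    rfl, rfl, rfl, rfl, fun ε => ⟨by ring, by ring, by ring⟩⟩

lemma Rep.add {Φ Ψ : ℝ → ℝ → ℝ} {x0 x1 x2 x3 y0 y1 y2 y3 : ℝ} (h : Rep Φ x0 x1 x2 x3)
    (h' : Rep Ψ y0 y1 y2 y3) :
    Rep (fun a b => Φ a b + Ψ a b) (x0 + y0) (x1 + y1) (x2 + y2) (x3 + y3) := by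
  obtain ⟨X1, X2, X3, c1, c2, c3, e1, e2, e3, e0, hh⟩ := h
  obtain ⟨Y1, Y2, Y3, d1, d2, d3, f1, f2, f3, f0, hh'⟩ := h'
  refine ⟨fun ε => X1 ε + Y1 ε, fun ε => X2 ε + Y2 ε, fun ε => X3 ε + Y3 ε, c1.add d1, c2.add d2,
    c3.add d3, by simp only [e1, f1], by simp only [e2, f2], by simp only [e3, f3],
    by simp only [e0, f0], ?_⟩
  intro ε
  obtain ⟨g1, g2, g3⟩ := hh ε
  obtain ⟨g1', g2', g3'⟩ := hh' ε
  refine ⟨?_, ?_, ?_⟩
  · simp only [g1, g1']; ring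
  · simp only [g2, g2']; ring
  · simp only [g3, g3']; ring

lemma Rep.mul {Φ Ψ : ℝ → ℝ → ℝ} {x0 x1 x2 x3 y0 y1 y2 y3 : ℝ} (h : Rep Φ x0 x1 x2 x3)
    (h' : Rep Ψ y0 y1 y2 y3) :
    Rep (fun a b => Φ a b * Ψ a b) (x0 * y0) (x0 * y1 + x1 * y0) (x0 * y2 + x2 * y0)
      (x0 * y3 + x3 * y0 + x1 * y2 + x2 * y1) := by
  obtain ⟨X1, X2, X3, c1, c2, c3, e1, e2, e3, e0, hh⟩ := h
  obtain ⟨Y1, Y2, Y3, d1, d2, d3, f1, f2, f3, f0, hh'⟩ := h'
  have ci : ContinuousAt (fun ε : ℝ => ε) 0 := continuousAt_id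
  have k : ∀ c : ℝ, ContinuousAt (fun _ : ℝ => c) 0 := fun c => continuousAt_const
  refine ⟨fun ε => x0 * Y1 ε + X1 ε * y0 + ε * (X1 ε * Y1 ε),
    fun ε => x0 * Y2 ε + X2 ε * y0 + ε * (X2 ε * Y2 ε),
    fun ε => x0 * Y3 ε + X3 ε * y0 + X1 ε * Y2 ε + X2 ε * Y1 ε +
      ε * (X1 ε * Y3 ε + X3 ε * Y1 ε + X2 ε * Y3 ε + X3 ε * Y2 ε) + ε * (ε * (X3 ε * Y3 ε)),
    (((k x0).mul d1).add (c1.mul (k y0))).add (ci.mul (c1.mul d1)),
    (((k x0).mul d2).add (c2.mul (k y0))).add (ci.mul (c2.mul d2)),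
    (((((k x0).mul d3).add (c3.mul (k y0))).add (c1.mul d2)).add (c2.mul d1)).add
      (ci.mul ((((c1.mul d3).add (c3.mul d1)).add (c2.mul d3)).add (c3.mul d2))) |>.add
      (ci.mul (ci.mul (c3.mul d3))), ?_, ?_, ?_, ?_, ?_⟩
  · simp only [e1, f1]; ring
  · simp only [e2, f2]; ring
  · simp only [e1, e2, e3, f1, f2, f3]; ring
  · simp only [e0, f0]
  · intro ε
    obtain ⟨g1, g2, g3⟩ := hh ε
    obtain ⟨g1', g2', g3'⟩ := hh' ε
    refine ⟨?_, ?_, ?_⟩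
    · simp only [g1, g1']; ring
    · simp only [g2, g2']; ring
    · simp only [g3, g3']; ring

lemma Rep.congr {Φ Ψ : ℝ → ℝ → ℝ} {x0 x1 x2 x3 y0 y1 y2 y3 : ℝ} (h : Rep Φ x0 x1 x2 x3)
    (hΦ : ∀ a b, Φ a b = Ψ a b) (h0 : x0 = y0) (h1 : x1 = y1) (h2 : x2 = y2) (h3 : x3 = y3) :
    Rep Ψ y0 y1 y2 y3 := by
  have : Φ = Ψ := by funext a b; exact hΦ a b
  subst this; subst h0; subst h1; subst h2; subst h3
  exact h

lemma Rep.pow {Φ : ℝ → ℝ → ℝ} {x0 x1 x2 x3 : ℝ} (h : Rep Φ x0 x1 x2 x3) (n : ℕ) :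
    Rep (fun a b => Φ a b ^ (n + 2)) (x0 ^ (n + 2)) ((n + 2) * x0 ^ (n + 1) * x1)
      ((n + 2) * x0 ^ (n + 1) * x2)
      ((n + 2) * x0 ^ (n + 1) * x3 + (n + 2) * (n + 1) * x0 ^ n * (x1 * x2)) := by
  induction n with
  | zero =>
    refine (h.mul h).congr (fun a b => by ring) (by ring) ?_ ?_ ?_ <;> push_cast <;> ring
  | succ n ih =>
    refine (ih.mul h).congr (fun a b => by ring) (by ring) ?_ ?_ ?_ <;> push_cast <;> ring

/-- Homogeneous form of the kernel. -/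
noncomputable def GG6 (p m : ℝ) : ℝ :=
  4 / 15 * p ^ 6 + -1 / 4 * (p ^ 4 * m) + 3 / 56 * (p ^ 2 * m ^ 2) + -1 / 672 * m ^ 3
    + 2 / 5 * p ^ 5 + -2 / 7 * (p ^ 3 * m) + 1 / 28 * (p * m ^ 2) + 1 / 4 * p ^ 4
    + -1 / 8 * (p ^ 2 * m) + 1 / 160 * m ^ 2 + 5 / 42 * p ^ 3 + -1 / 28 * (p * m)
    + 13 / 280 * p ^ 2 + -13 / 2240 * m

/-- Coefficients. -/
noncomputable def ck (k : ℕ) : ℝ :=
  match k with
  | 2 => 13 / 320
  | 3 => 1 / 12
  | 4 => 21 / 160
  | 5 => 3 / 20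
  | 6 => 11 / 160
  | _ => 0

lemma ck_nonneg (k : ℕ) : 0 ≤ ck k := by
  unfold ck
  split <;> norm_num

lemma GG6_exp (p m : ℝ) : GG6 p m = ∑ k ∈ range (6 + 1), ck k * Zg 8 k p m := by
  simp only [sum_range_succ, sum_range_zero, ck, Zg, GG6]
  push_cast
  ring

lemma GG6_psd {ι : Type*} (s : Finset ι) (u : ι → E) (c : ι → ℝ) :
    0 ≤ ∑ i ∈ s, ∑ j ∈ s, c i * c j *
      GG6 (inner ℝ (u i) (u j)) (inner ℝ (u i) (u i) * inner ℝ (u j) (u j)) := by
  have h : ∀ k ∈ range (6 + 1), 0 ≤ ck k * ∑ i ∈ s, ∑ j ∈ s, c i * c j *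
      Zg 8 k (inner ℝ (u i) (u j)) (inner ℝ (u i) (u i) * inner ℝ (u j) (u j)) := fun k _ =>
    mul_nonneg (ck_nonneg k) (gen_pos (n := 8) (by norm_num) k s u c)
  refine (sum_nonneg h).trans_eq ?_
  calc ∑ k ∈ range (6 + 1), ck k * ∑ i ∈ s, ∑ j ∈ s, c i * c j *
      Zg 8 k (inner ℝ (u i) (u j)) (inner ℝ (u i) (u i) * inner ℝ (u j) (u j))
      = ∑ k ∈ range (6 + 1), ∑ i ∈ s, ∑ j ∈ s, ck k * (c i * c j *
      Zg 8 k (inner ℝ (u i) (u j)) (inner ℝ (u i) (u i) * inner ℝ (u j) (u j))) := by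
        refine sum_congr rfl (fun k _ => ?_)
        rw [mul_sum]
        refine sum_congr rfl (fun i _ => ?_)
        rw [mul_sum]
    _ = ∑ i ∈ s, ∑ k ∈ range (6 + 1), ∑ j ∈ s, ck k * (c i * c j *
      Zg 8 k (inner ℝ (u i) (u j)) (inner ℝ (u i) (u i) * inner ℝ (u j) (u j))) := sum_comm
    _ = ∑ i ∈ s, ∑ j ∈ s, ∑ k ∈ range (6 + 1), ck k * (c i * c j *
      Zg 8 k (inner ℝ (u i) (u j)) (inner ℝ (u i) (u i) * inner ℝ (u j) (u j))) :=
        sum_congr rfl (fun i _ => sum_comm)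
    _ = _ := by
        refine sum_congr rfl (fun i _ => sum_congr rfl (fun j _ => ?_))
        rw [GG6_exp, mul_sum]
        refine sum_congr rfl (fun k _ => ?_)
        ring

/-- `F'`. -/
noncomputable def F1 (t : ℝ) : ℝ := 8 / 5 * t ^ 5 + 2 * t ^ 4 - 1 / 2 * t ^ 2 - 1 / 20 * t

/-- `F''`. -/
noncomputable def F2 (t : ℝ) : ℝ := 8 * t ^ 4 + 8 * t ^ 3 - t - 1 / 20

lemma rep_GG6 {P M : ℝ → ℝ → ℝ} {t α β γ : ℝ} (hP : Rep P t α β γ) (hM : Rep M 1 0 0 0) :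
    ∃ x0 x1 x2 : ℝ, Rep (fun a b => GG6 (P a b) (M a b)) x0 x1 x2
      (F1 t * γ + F2 t * (α * β)) := by
  have p2 := hP.pow 0
  have p3 := hP.pow 1
  have p4 := hP.pow 2
  have p5 := hP.pow 3
  have p6 := hP.pow 4
  have m2 := hM.pow 0
  have m3 := hM.pow 1
  have h := ((((((((((((((Rep.const (4 / 15)).mul p6).add ((Rep.const (-1 / 4)).mul (p4.mul hM))).add
    ((Rep.const (3 / 56)).mul (p2.mul m2))).add ((Rep.const (-1 / 672)).mul m3)).add
    ((Rep.const (2 / 5)).mul p5)).add ((Rep.const (-2 / 7)).mul (p3.mul hM))).add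
    ((Rep.const (1 / 28)).mul (hP.mul m2))).add ((Rep.const (1 / 4)).mul p4)).add
    ((Rep.const (-1 / 8)).mul (p2.mul hM))).add ((Rep.const (1 / 160)).mul m2)).add
    ((Rep.const (5 / 42)).mul p3)).add ((Rep.const (-1 / 28)).mul (hP.mul hM))).add
    ((Rep.const (13 / 280)).mul p2)).add ((Rep.const (-13 / 2240)).mul hM)
  refine ⟨_, _, _, h.congr (fun a b => ?_) rfl rfl rfl ?_⟩
  · unfold GG6; ring
  · unfold F1 F2
    push_cast
    ring

/-- The positive quadratic form of the mixed derivatives. -/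
lemma mixed (s : Finset E) (hs : ∀ e ∈ s, ‖e‖ = 1) (δ : E → E)
    (hδ : ∀ e ∈ s, (inner ℝ (δ e) e : ℝ) = 0) :
    0 ≤ ∑ e ∈ s, ∑ f ∈ s, (F1 (inner ℝ e f) * (inner ℝ (δ e) (δ f) : ℝ) +
      F2 (inner ℝ e f) * ((inner ℝ (δ e) f : ℝ) * inner ℝ (δ f) e)) := by
  classical
  let Φ : E → E → ℝ → ℝ → ℝ := fun e f a b =>
    GG6 (inner ℝ (e + a • δ e) (f + b • δ f))
      (inner ℝ (e + a • δ e) (e + a • δ e) * inner ℝ (f + b • δ f) (f + b • δ f))
  have hrep : ∀ e f : E, ∃ X : ℝ → ℝ, e ∈ s → f ∈ s → ContinuousAt X 0 ∧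
      X 0 = F1 (inner ℝ e f) * (inner ℝ (δ e) (δ f) : ℝ) +
        F2 (inner ℝ e f) * ((inner ℝ (δ e) f : ℝ) * inner ℝ (δ f) e) ∧
      ∀ ε, Φ e f ε ε - Φ e f ε 0 - Φ e f 0 ε + Φ e f 0 0 = ε ^ 2 * X ε := by
    intro e f
    by_cases he : e ∈ s
    swap
    · exact ⟨fun _ => 0, fun h => absurd h he⟩
    by_cases hf : f ∈ s
    swap
    · exact ⟨fun _ => 0, fun _ h => absurd h hf⟩
    have he1 : (inner ℝ e e : ℝ) = 1 := by rw [real_inner_self_eq_norm_sq, hs e he]; norm_num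
    have hf1 : (inner ℝ f f : ℝ) = 1 := by rw [real_inner_self_eq_norm_sq, hs f hf]; norm_num
    have hde := hδ e he
    have hdf := hδ f hf
    have hde' : (inner ℝ e (δ e) : ℝ) = 0 := by rw [real_inner_comm]; exact hde
    have hdf' : (inner ℝ f (δ f) : ℝ) = 0 := by rw [real_inner_comm]; exact hdf
    have hP : Rep (fun a b => (inner ℝ (e + a • δ e) (f + b • δ f) : ℝ)) (inner ℝ e f)
        (inner ℝ (δ e) f) (inner ℝ (δ f) e) (inner ℝ (δ e) (δ f)) := by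
      refine ⟨fun _ => inner ℝ (δ e) f, fun _ => inner ℝ (δ f) e, fun _ => inner ℝ (δ e) (δ f),
        continuousAt_const, continuousAt_const, continuousAt_const, rfl, rfl, rfl, by simp, ?_⟩
      intro ε
      simp only [inner_add_left, inner_add_right, real_inner_smul_left, real_inner_smul_right,
        zero_smul, add_zero, real_inner_comm e (δ f)]
      refine ⟨trivial, trivial, ?_⟩
      ring
    have hM : Rep (fun a b => (inner ℝ (e + a • δ e) (e + a • δ e) : ℝ) *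
        inner ℝ (f + b • δ f) (f + b • δ f)) 1 0 0 0 := by
      have g1 : ∀ a : ℝ, (inner ℝ (e + a • δ e) (e + a • δ e) : ℝ) =
          1 + a ^ 2 * inner ℝ (δ e) (δ e) := by
        intro a
        simp only [inner_add_left, inner_add_right, real_inner_smul_left, real_inner_smul_right,
          he1, hde, hde']
        ring
      have g2 : ∀ b : ℝ, (inner ℝ (f + b • δ f) (f + b • δ f) : ℝ) =
          1 + b ^ 2 * inner ℝ (δ f) (δ f) := by
        intro b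
        simp only [inner_add_left, inner_add_right, real_inner_smul_left, real_inner_smul_right,
          hf1, hdf, hdf']
        ring
      refine ⟨fun ε => ε * inner ℝ (δ e) (δ e), fun ε => ε * inner ℝ (δ f) (δ f),
        fun ε => ε ^ 2 * (inner ℝ (δ e) (δ e) * inner ℝ (δ f) (δ f)), ?_, ?_, ?_, ?_, ?_, ?_, ?_, ?_⟩
      · fun_prop
      · fun_prop
      · fun_prop
      · ring
      · ring
      · ring
      · simp only [g1, g2]; ring
      · intro ε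
        simp only [g1, g2]
        refine ⟨by ring, by ring, by ring⟩
    obtain ⟨x0, x1, x2, X1, X2, X3, c1, c2, c3, e1, e2, e3, e0, hh⟩ := rep_GG6 hP hM
    refine ⟨X3, fun _ _ => ⟨c3, e3, fun ε => ?_⟩⟩
    obtain ⟨g1, g2, g3⟩ := hh ε
    have g1' : Φ e f ε 0 = x0 + ε * X1 ε := g1
    have g2' : Φ e f 0 ε = x0 + ε * X2 ε := g2
    have g3' : Φ e f ε ε = x0 + ε * X1 ε + ε * X2 ε + ε ^ 2 * X3 ε := g3
    have e0' : Φ e f 0 0 = x0 := e0
    rw [g1', g2', g3', e0']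
    ring
  choose X hX using hrep
  have hpos : ∀ ε : ℝ, ε ≠ 0 → 0 ≤ ∑ e ∈ s, ∑ f ∈ s, X e f ε := by
    intro ε hε
    have h := GG6_psd (s ×ˢ (Finset.univ : Finset Bool))
      (fun i => if i.2 then i.1 + ε • δ i.1 else i.1 + (0 : ℝ) • δ i.1)
      (fun i => if i.2 then 1 else -1)
    have h2 : (∑ i ∈ s ×ˢ (Finset.univ : Finset Bool), ∑ j ∈ s ×ˢ (Finset.univ : Finset Bool),
        (if i.2 then (1 : ℝ) else -1) * (if j.2 then (1 : ℝ) else -1) *
        GG6 (inner ℝ (if i.2 then i.1 + ε • δ i.1 else i.1 + (0 : ℝ) • δ i.1)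
          (if j.2 then j.1 + ε • δ j.1 else j.1 + (0 : ℝ) • δ j.1))
          (inner ℝ (if i.2 then i.1 + ε • δ i.1 else i.1 + (0 : ℝ) • δ i.1)
            (if i.2 then i.1 + ε • δ i.1 else i.1 + (0 : ℝ) • δ i.1) *
          inner ℝ (if j.2 then j.1 + ε • δ j.1 else j.1 + (0 : ℝ) • δ j.1)
            (if j.2 then j.1 + ε • δ j.1 else j.1 + (0 : ℝ) • δ j.1))) =
        ε ^ 2 * ∑ e ∈ s, ∑ f ∈ s, X e f ε := by
      rw [sum_product, mul_sum]
      refine sum_congr rfl (fun e he => ?_)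
      rw [Fintype.sum_bool, sum_product, sum_product, ← sum_add_distrib, mul_sum]
      refine sum_congr rfl (fun f hf => ?_)
      rw [Fintype.sum_bool, Fintype.sum_bool, ← (hX e f he hf).2.2 ε]
      simp only [Φ, if_true, Bool.false_eq_true, if_false]
      ring
    rw [h2] at h
    have h3 : 0 < ε ^ 2 := by positivity
    exact nonneg_of_mul_nonneg_right h h3
  have hcont : ContinuousAt (fun ε => ∑ e ∈ s, ∑ f ∈ s, X e f ε) 0 :=
    tendsto_finsetSum _ fun e he => tendsto_finsetSum _ fun f hf => (hX e f he hf).1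
  have h0 : (∑ e ∈ s, ∑ f ∈ s, (F1 (inner ℝ e f) * (inner ℝ (δ e) (δ f) : ℝ) +
      F2 (inner ℝ e f) * ((inner ℝ (δ e) f : ℝ) * inner ℝ (δ f) e))) =
      (fun ε => ∑ e ∈ s, ∑ f ∈ s, X e f ε) 0 :=
    sum_congr rfl fun e he => sum_congr rfl fun f hf => ((hX e f he hf).2.1).symm
  rw [h0]
  have ht : Tendsto (fun ε => ∑ e ∈ s, ∑ f ∈ s, X e f ε) (𝓝[≠] 0)
      (𝓝 ((fun ε => ∑ e ∈ s, ∑ f ∈ s, X e f ε) 0)) := hcont.mono_left nhdsWithin_le_nhds
  refine ge_of_tendsto ht ?_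
  filter_upwards [self_mem_nhdsWithin] with ε hε
  exact hpos ε hε

/-- Isotropy of the 56 neighbours. -/
lemma iso (hUEF : SpecUEF) (hROT : EV.SpecROT) (hPOL : EV.SpecPOL) (e : E) (he : e ∈ UE) (D : E)
    (hD : (inner ℝ D e : ℝ) = 0) : ∑ f ∈ nb e, (inner ℝ D f : ℝ) ^ 2 = 6 * ‖D‖ ^ 2 := by
  classical
  have hinj : Set.InjOn (fun r : E => (1 / 2 : ℝ) • r) (EV.R : Set E) := by
    intro x _ y _ h
    exact smul_right_injective E (by norm_num : (1 / 2 : ℝ) ≠ 0) h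
  have h22 := hPOL.m22 EV.R hROT.k240 D e
  have he1 : (inner ℝ e e : ℝ) = 1 := by
    rw [real_inner_self_eq_norm_sq, hUEF.nrm e he]; norm_num
  rw [hD, he1, real_inner_self_eq_norm_sq] at h22
  have h1 : ∑ f ∈ UE, (inner ℝ D f : ℝ) ^ 2 * (inner ℝ e f : ℝ) ^ 2 = 3 * ‖D‖ ^ 2 := by
    unfold UE
    rw [sum_image hinj]
    have h2 : ∀ r ∈ EV.R, (inner ℝ D ((1 / 2 : ℝ) • r) : ℝ) ^ 2 *
        (inner ℝ e ((1 / 2 : ℝ) • r) : ℝ) ^ 2 =
        1 / 16 * ((inner ℝ D r : ℝ) ^ 2 * (inner ℝ e r : ℝ) ^ 2) := by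
      intro r _
      rw [real_inner_smul_right, real_inner_smul_right]
      ring
    rw [sum_congr rfl h2, ← mul_sum, h22]
    ring
  have h2 : ∀ f ∈ UE, (inner ℝ D f : ℝ) ^ 2 * (inner ℝ e f : ℝ) ^ 2 =
      (if (inner ℝ f e : ℝ) = 1 / 2 then 1 / 4 * (inner ℝ D f : ℝ) ^ 2 else 0) +
      (if (inner ℝ f e : ℝ) = -1 / 2 then 1 / 4 * (inner ℝ D f : ℝ) ^ 2 else 0) := by
    intro f hf
    rcases hUEF.ip f hf e he with h | h | h | h | h
    · have := hUEF.one f hf e he h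
      subst this
      rw [hD, h]; norm_num
    · rw [real_inner_comm f e, h]; norm_num; ring
    · rw [real_inner_comm f e, h]; norm_num
    · rw [real_inner_comm f e, h]; norm_num; ring
    · have h3 : f = -e := by
        have h4 := hUEF.one f hf (-e) (hUEF.neg e he) (by rw [inner_neg_right, h]; norm_num)
        exact h4
      have h5 : (inner ℝ D f : ℝ) = 0 := by rw [h3, inner_neg_right, hD]; norm_num
      rw [h5, h]; norm_num
  rw [sum_congr rfl h2, sum_add_distrib] at h1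
  have h3 : ∑ f ∈ UE, (if (inner ℝ f e : ℝ) = 1 / 2 then 1 / 4 * (inner ℝ D f : ℝ) ^ 2 else 0) =
      1 / 4 * ∑ f ∈ nb e, (inner ℝ D f : ℝ) ^ 2 := by
    rw [mul_sum]
    unfold nb
    rw [sum_filter]
  have h4 : ∑ f ∈ UE, (if (inner ℝ f e : ℝ) = -1 / 2 then 1 / 4 * (inner ℝ D f : ℝ) ^ 2 else 0) =
      ∑ f ∈ UE, (if (inner ℝ f e : ℝ) = 1 / 2 then 1 / 4 * (inner ℝ D f : ℝ) ^ 2 else 0) := by
    refine sum_nbij' (fun f => -f) (fun f => -f) (fun f hf => hUEF.neg f hf)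
      (fun f hf => hUEF.neg f hf) (fun f _ => neg_neg f) (fun f _ => neg_neg f) ?_
    intro f _
    rw [inner_neg_left, inner_neg_right]
    by_cases h : (inner ℝ f e : ℝ) = -1 / 2
    · rw [if_pos h, if_pos (by rw [h]; norm_num)]
      ring
    · rw [if_neg h, if_neg (fun h' => h (by linarith))]
  rw [h4, h3] at h1
  linarith

end MKFM

open MKFM in
/-- **MKF**: rigidity of the contact graph of E8, for tangential fields. -/
theorem mkf (hUEF : SpecUEF) (hROT : EV.SpecROT) (hPOL : EV.SpecPOL) (δ : E → E)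
    (hδ : ∀ e ∈ UE, (inner ℝ (δ e) e : ℝ) = 0) :
    6 * ∑ e ∈ UE, ‖δ e‖ ^ 2 - (1 / 10) * ∑ e ∈ UE, ∑ f ∈ UE,
        ((inner ℝ e f : ℝ) * inner ℝ (δ e) (δ f) - (inner ℝ (δ e) f : ℝ) * inner ℝ (δ f) e) ≤
      ∑ e ∈ UE, ∑ f ∈ nb e, ((inner ℝ (δ e) f : ℝ) + inner ℝ e (δ f)) ^ 2 := by
  classical
  have h := mixed UE hUEF.nrm δ hδ
  have key : ∀ e ∈ UE, ∀ f ∈ UE, F1 (inner ℝ e f) * (inner ℝ (δ e) (δ f) : ℝ) +
      F2 (inner ℝ e f) * ((inner ℝ (δ e) f : ℝ) * inner ℝ (δ f) e) =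
      1 / 20 * ((inner ℝ e f : ℝ) * inner ℝ (δ e) (δ f) - (inner ℝ (δ e) f : ℝ) * inner ℝ (δ f) e)
      + (if (inner ℝ f e : ℝ) = 1 / 2 then (inner ℝ (δ e) f : ℝ) * inner ℝ (δ f) e else 0)
      + (if f = e then 3 * ‖δ e‖ ^ 2 else 0) := by
    intro e he f hf
    have hne : ∀ {c : ℝ}, c ≠ 1 → (inner ℝ e f : ℝ) = c → f ≠ e := by
      intro c hc h1 h2
      rw [h2, real_inner_self_eq_norm_sq, hUEF.nrm e he] at h1
      apply hc
      rw [← h1]; norm_num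
    rcases hUEF.ip e he f hf with h1 | h1 | h1 | h1 | h1
    · have h2 := hUEF.one e he f hf h1
      subst h2
      rw [if_pos rfl, real_inner_comm, h1, hδ e he, real_inner_self_eq_norm_sq]
      unfold F1 F2
      norm_num
      ring
    · rw [if_neg (hne (by norm_num) h1), real_inner_comm e f, if_pos h1, h1]
      unfold F1 F2
      norm_num
      ring
    · rw [if_neg (hne (by norm_num) h1), real_inner_comm e f, h1, if_neg (by norm_num)]
      unfold F1 F2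
      norm_num
    · rw [if_neg (hne (by norm_num) h1), real_inner_comm e f, h1, if_neg (by norm_num)]
      unfold F1 F2
      norm_num
      ring
    · have h3 : f = -e := by
        have h4 := hUEF.one e he (-f) (hUEF.neg f hf) (by rw [inner_neg_right, h1]; norm_num)
        rw [h4]; simp
      have h5 : (inner ℝ (δ e) f : ℝ) = 0 := by rw [h3, inner_neg_right, hδ e he]; norm_num
      rw [if_neg (hne (by norm_num) h1), real_inner_comm e f, h1, if_neg (by norm_num), h5]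
      unfold F1 F2
      norm_num
  rw [sum_congr rfl fun e he => sum_congr rfl fun f hf => key e he f hf] at h
  simp only [sum_add_distrib, ← mul_sum] at h
  have h3 : ∑ e ∈ UE, ∑ f ∈ UE, (if f = e then 3 * ‖δ e‖ ^ 2 else 0) =
      3 * ∑ e ∈ UE, ‖δ e‖ ^ 2 := by
    rw [mul_sum]
    refine sum_congr rfl (fun e he => ?_)
    rw [sum_ite_eq' UE e, if_pos he]
  have h4 : ∑ e ∈ UE, ∑ f ∈ UE, (if (inner ℝ f e : ℝ) = 1 / 2 then
      (inner ℝ (δ e) f : ℝ) * inner ℝ (δ f) e else 0) =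
      ∑ e ∈ UE, ∑ f ∈ nb e, (inner ℝ (δ e) f : ℝ) * inner ℝ (δ f) e := by
    refine sum_congr rfl (fun e _ => ?_)
    unfold nb
    rw [sum_filter]
  rw [h3, h4] at h
  have h5 : ∑ e ∈ UE, ∑ f ∈ nb e, (inner ℝ (δ e) f : ℝ) ^ 2 = 6 * ∑ e ∈ UE, ‖δ e‖ ^ 2 := by
    rw [mul_sum]
    exact sum_congr rfl fun e he => iso hUEF hROT hPOL e he (δ e) (hδ e he)
  have h6 : ∑ e ∈ UE, ∑ f ∈ nb e, (inner ℝ (δ f) e : ℝ) ^ 2 = 6 * ∑ e ∈ UE, ‖δ e‖ ^ 2 := by
    rw [← h5]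
    have g1 : ∀ e ∈ UE, ∑ f ∈ nb e, (inner ℝ (δ f) e : ℝ) ^ 2 =
        ∑ f ∈ UE, (if (inner ℝ f e : ℝ) = 1 / 2 then (inner ℝ (δ f) e : ℝ) ^ 2 else 0) := by
      intro e _
      unfold nb
      rw [sum_filter]
    have g2 : ∀ e ∈ UE, ∑ f ∈ nb e, (inner ℝ (δ e) f : ℝ) ^ 2 =
        ∑ f ∈ UE, (if (inner ℝ f e : ℝ) = 1 / 2 then (inner ℝ (δ e) f : ℝ) ^ 2 else 0) := by
      intro e _
      unfold nb
      rw [sum_filter]
    rw [sum_congr rfl g1, sum_congr rfl g2, sum_comm]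
    refine sum_congr rfl (fun e _ => sum_congr rfl (fun f _ => ?_))
    rw [real_inner_comm]
  have h7 : ∑ e ∈ UE, ∑ f ∈ nb e, ((inner ℝ (δ e) f : ℝ) + inner ℝ e (δ f)) ^ 2 =
      ∑ e ∈ UE, ∑ f ∈ nb e, (inner ℝ (δ e) f : ℝ) ^ 2
      + ∑ e ∈ UE, ∑ f ∈ nb e, (inner ℝ (δ f) e : ℝ) ^ 2
      + 2 * ∑ e ∈ UE, ∑ f ∈ nb e, (inner ℝ (δ e) f : ℝ) * inner ℝ (δ f) e := by
    rw [mul_sum, ← sum_add_distrib, ← sum_add_distrib]
    refine sum_congr rfl (fun e _ => ?_)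
    rw [mul_sum, ← sum_add_distrib, ← sum_add_distrib]
    refine sum_congr rfl (fun f _ => ?_)
    rw [real_inner_comm e (δ f)]
    ring
  rw [h7, h5, h6]
  simp only [sum_sub_distrib] at h ⊢
  linarith

end Pool.Agent.Lib.MP_f1379f_gt.FV
end

section
/-!
# GBA: basic identities of a displaced E8 configuration
-/
set_option autoImplicit false

namespace Pool.Agent.Lib.MP_f1379f_gt.FV

namespace GBAM

theorem inner_self_one {e : E} (h : ‖e‖ = 1) : (inner ℝ e e : ℝ) = 1 := by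
  rw [real_inner_self_eq_norm_sq, h]; norm_num

theorem lam_eq (u : E → E) {e : E} (h : ‖e‖ = 1) : lam u e = 1 - (inner ℝ (u e) e : ℝ) := by
  unfold lam
  rw [inner_sub_left, inner_self_one h]
  ring

theorem dsq (u : E → E) {e : E} (h : ‖e‖ = 1) :
    ‖u e - e‖ ^ 2 = ‖u e‖ ^ 2 - 2 * (inner ℝ (u e) e : ℝ) + 1 := by
  rw [norm_sub_sq_real, h]
  norm_num

theorem bet (u : E → E) {e : E} (h : ‖e‖ = 1) : lam u e = gr u e + ‖u e - e‖ ^ 2 / 2 := by
  rw [lam_eq u h, dsq u h]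
  unfold gr
  ring

theorem orth (u : E → E) {e : E} (h : ‖e‖ = 1) : (inner ℝ (del u e) e : ℝ) = 0 := by
  unfold del
  rw [inner_add_left, real_inner_smul_left, inner_self_one h]
  unfold lam
  ring

theorem pyth (u : E → E) {e : E} (h : ‖e‖ = 1) : ‖u e - e‖ ^ 2 = ‖del u e‖ ^ 2 + lam u e ^ 2 := by
  have h1 : u e - e = del u e - lam u e • e := by
    unfold del
    simp
  rw [h1, norm_sub_sq_real, real_inner_smul_right, orth u h, norm_smul, h]
  simp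

theorem r0 (u : E → E) {e : E} (h : ‖u e‖ ≤ 1) : 0 ≤ gr u e := by
  unfold gr
  have h1 : ‖u e‖ ^ 2 ≤ 1 := by
    have := norm_nonneg (u e)
    nlinarith
  linarith

theorem term_eq (u : E → E) (e f : E) :
    (inner ℝ e f : ℝ) * (inner ℝ (del u e) (del u f) : ℝ)
      - (inner ℝ (del u e) f : ℝ) * (inner ℝ (del u f) e : ℝ) =
    (inner ℝ e f : ℝ) * (inner ℝ (u e - e) (u f - f) : ℝ)
      - (inner ℝ (u e - e) f : ℝ) * (inner ℝ (u f - f) e : ℝ) := by
  unfold del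
  simp only [inner_add_left, inner_add_right, real_inner_smul_left, real_inner_smul_right]
  rw [real_inner_comm e (u f - f), real_inner_comm e f]
  ring

end GBAM

open GBAM in
/-- **GBA**. -/
theorem specGBA (hUEF : SpecUEF) (hROT : EV.SpecROT) (hPOL : EV.SpecPOL) : SpecGBA where
  bet u e he := bet u (hUEF.nrm e he)
  orth u e he := orth u (hUEF.nrm e he)
  pyth u e he := pyth u (hUEF.nrm e he)
  r0 u hu e he := r0 u (hu.le_one e he)
  w2 u hu e he f hf hne := by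
    have h := hu.sep e he f hf hne
    unfold gr gw
    nlinarith [h]
  vid u e he f hf := by
    classical
    unfold nb at hf
    rw [Finset.mem_filter] at hf
    have h1 : (inner ℝ f e : ℝ) = 1 / 2 := hf.2
    have h2 : (inner ℝ e f : ℝ) = 1 / 2 := by rw [real_inner_comm]; exact h1
    have h3 : (inner ℝ (u e) (u f) : ℝ) = inner ℝ (e + (u e - e)) (f + (u f - f)) := by
      congr 1 <;> abel
    unfold gw
    rw [h3]
    unfold del
    simp only [inner_add_left, inner_add_right, real_inner_smul_left, real_inner_smul_right, h2]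
    ring
  gau u hu := by
    have h1 : ∀ e ∈ UE, ∀ f ∈ UE, (inner ℝ e f : ℝ) * (inner ℝ (del u e) (del u f) : ℝ)
        - (inner ℝ (del u e) f : ℝ) * (inner ℝ (del u f) e : ℝ) =
        (inner ℝ e f : ℝ) * (inner ℝ (u e - e) (u f - f) : ℝ)
        - (inner ℝ (u e - e) f : ℝ) * (inner ℝ (u f - f) e : ℝ) := fun e _ f _ => term_eq u e f
    rw [Finset.sum_congr rfl fun e he => Finset.sum_congr rfl fun f hf => h1 e he f hf]
    rw [Finset.sum_comm]
    refine Finset.sum_eq_zero fun f _ => ?_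
    have h2 := hu.gauge (u f - f) f
    rw [Finset.sum_sub_distrib]
    rw [sub_eq_zero]
    calc ∑ e ∈ UE, (inner ℝ e f : ℝ) * (inner ℝ (u e - e) (u f - f) : ℝ)
        = ∑ e ∈ UE, (inner ℝ (u e - e) (u f - f) : ℝ) * (inner ℝ e f : ℝ) :=
          Finset.sum_congr rfl fun e _ => mul_comm _ _
      _ = ∑ e ∈ UE, (inner ℝ (u e - e) f : ℝ) * (inner ℝ e (u f - f) : ℝ) := h2
      _ = _ := Finset.sum_congr rfl fun e _ => by rw [real_inner_comm (u f - f) e]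
  nb2 a ha D hD := MKFM.iso hUEF hROT hPOL a ha D hD
  nbh a ha D hD := by
    classical
    have h6 := MKFM.iso hUEF hROT hPOL a ha D hD
    have ha1 : (inner ℝ a a : ℝ) = 1 := inner_self_one (hUEF.nrm a ha)
    have hmem : ∀ f ∈ nb a, a - f ∈ nb a := by
      intro f hf
      unfold nb at hf ⊢
      rw [Finset.mem_filter] at hf ⊢
      refine ⟨hUEF.sub a ha f hf.1 (by rw [real_inner_comm]; exact hf.2), ?_⟩
      rw [inner_sub_left, ha1, hf.2]
      norm_num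
    have hflip : ∑ f ∈ nb a, (max 0 (inner ℝ D f : ℝ)) ^ 2 =
        ∑ f ∈ nb a, (max 0 (-(inner ℝ D f : ℝ))) ^ 2 := by
      refine Finset.sum_nbij' (fun f => a - f) (fun f => a - f) hmem hmem
        (fun f _ => sub_sub_cancel a f) (fun f _ => sub_sub_cancel a f) ?_
      intro f _
      have hx : (inner ℝ D (a - f) : ℝ) = -(inner ℝ D f : ℝ) := by
        rw [inner_sub_right, hD, zero_sub]
      rw [hx, neg_neg]
    have hsum : ∑ f ∈ nb a, (max 0 (inner ℝ D f : ℝ)) ^ 2 +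
        ∑ f ∈ nb a, (max 0 (-(inner ℝ D f : ℝ))) ^ 2 = ∑ f ∈ nb a, (inner ℝ D f : ℝ) ^ 2 := by
      rw [← Finset.sum_add_distrib]
      refine Finset.sum_congr rfl fun f _ => ?_
      rcases le_total 0 (inner ℝ D f : ℝ) with h | h
      · rw [max_eq_right h, max_eq_left (by linarith)]; ring
      · rw [max_eq_left h, max_eq_right (by linarith)]; ring
    rw [← hflip, h6] at hsum
    linarith

end Pool.Agent.Lib.MP_f1379f_gt.FV
end

section
/-!
# MP_f1379f_gt, block G, module ERR: the global inequality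
-/
set_option autoImplicit false

namespace Pool.Agent.Lib.MP_f1379f_gt.FV

namespace ERRM

theorem mem_nb {a e : E} : e ∈ nb a ↔ e ∈ UE ∧ (inner ℝ e a : ℝ) = 1 / 2 := by
  simp [nb]

theorem nb_swap {e f : E} : (e ∈ UE ∧ f ∈ nb e) ↔ (f ∈ UE ∧ e ∈ nb f) := by
  rw [mem_nb, mem_nb, real_inner_comm]
  constructor
  · rintro ⟨h1, h2, h3⟩
    exact ⟨h2, h1, h3⟩
  · rintro ⟨h1, h2, h3⟩
    exact ⟨h2, h1, h3⟩

theorem nb_sub (e : E) : nb e ⊆ UE := fun _ h => (mem_nb.1 h).1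

/-- Swap of a double sum over contacts. -/
theorem sum_swap (g : E → E → ℝ) :
    ∑ e ∈ UE, ∑ f ∈ nb e, g e f = ∑ e ∈ UE, ∑ f ∈ nb e, g f e := by
  rw [Finset.sum_comm' (s := UE) (t := fun e => nb e) (t' := UE) (s' := fun f => nb f)]
  intro e f
  rw [nb_swap, and_comm]

theorem sum_const_nb (hUEF : SpecUEF) (g : E → ℝ) :
    ∑ e ∈ UE, ∑ _f ∈ nb e, g e = 56 * ∑ e ∈ UE, g e := by
  rw [Finset.mul_sum]
  refine Finset.sum_congr rfl fun e he => ?_
  rw [Finset.sum_const, hUEF.c56 e he]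
  norm_num

/-- One contact. -/
theorem contact (s w m W : ℝ) (hs : -m / 2 ≤ s) (hw : 0 ≤ w) (hW : w ≤ W) :
    (s - w) ^ 2 ≤ s ^ 2 + (W + m) * w := by
  nlinarith [mul_nonneg hw (by linarith : (0 : ℝ) ≤ s + m / 2), mul_nonneg hw (sub_nonneg.2 hW)]

/-- Young. -/
theorem young (p q mu : ℝ) (hmu : 0 < mu) :
    (p - q) ^ 2 ≤ (1 + mu) * p ^ 2 + (1 + 1 / mu) * q ^ 2 := by
  have h : (1 + mu) * p ^ 2 + (1 + 1 / mu) * q ^ 2 - (p - q) ^ 2 = (mu * p + q) ^ 2 / mu := by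
    field_simp
    ring
  have : 0 ≤ (mu * p + q) ^ 2 / mu := by positivity
  linarith

end ERRM

open ERRM in
/-- **ERR.** -/
theorem specERR (hUEF : SpecUEF) (hG : SpecGBA) (hMKF : SpecMKF) : SpecERR := by
  intro u hC m W mu hmu hm hW
  have hb : ∀ e ∈ UE, lam u e = gr u e + ‖u e - e‖ ^ 2 / 2 := hG.bet u
  have hr := hG.r0 u hC
  have hb0 : ∀ e ∈ UE, 0 ≤ lam u e := fun e he => by
    rw [hb e he]; have := hr e he; positivity
  have hw0 : ∀ e ∈ UE, ∀ f ∈ nb e, 0 ≤ gw u e f := by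
    intro e he f hf
    obtain ⟨hfU, hfe⟩ := mem_nb.1 hf
    have hne : e ≠ f := by
      rintro rfl
      rw [real_inner_self_eq_norm_sq, hUEF.nrm e he] at hfe
      norm_num at hfe
    have := hG.w2 u hC e he f hfU hne
    have h2 := mul_nonneg (hr e he) (hr f hfU)
    linarith
  -- sum of b
  have hsb : ∑ e ∈ UE, lam u e = gx u + gS u / 2 := by
    rw [Finset.sum_congr rfl hb, Finset.sum_add_distrib, ← Finset.sum_div]
    rfl
  have hble : ∀ e ∈ UE, lam u e ≤ gx u + m / 2 := by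
    intro e he
    have h1 : gr u e ≤ gx u := Finset.single_le_sum (f := fun e => gr u e) hr he
    have h2 := hm e he
    rw [hb e he]; linarith
  have hsb2 : ∑ e ∈ UE, lam u e ^ 2 ≤ (gx u + m / 2) * (gx u + gS u / 2) := by
    rw [← hsb, Finset.mul_sum]
    refine Finset.sum_le_sum fun e he => ?_
    nlinarith [hble e he, hb0 e he]
  -- lower bound
  have hlow : ∑ e ∈ UE, ‖del u e‖ ^ 2 = gS u - ∑ e ∈ UE, lam u e ^ 2 := by
    rw [gS, ← Finset.sum_sub_distrib]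
    refine Finset.sum_congr rfl fun e he => ?_
    rw [hG.pyth u e he]; ring
  have hK := hMKF (del u) (hG.orth u)
  rw [hG.gau u hC, mul_zero, sub_zero, hlow] at hK
  -- upper bound of one contact
  have hone : ∀ e ∈ UE, ∀ f ∈ nb e,
      ((inner ℝ (del u e) f : ℝ) + (inner ℝ e (del u f) : ℝ)) ^ 2 ≤
        (1 + mu) * ((lam u e + lam u f) / 2) ^ 2
          + (1 + 1 / mu) * (‖u e - e‖ ^ 2 * ‖u f - f‖ ^ 2) + (W + m) * gw u e f := by
    intro e he f hf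
    have hfU := (mem_nb.1 hf).1
    rw [hG.vid u e he f hf]
    set s := (lam u e + lam u f) / 2 - (inner ℝ (u e - e) (u f - f) : ℝ) with hs
    have hin := abs_real_inner_le_norm (u e - e) (u f - f)
    have hin1 := (abs_le.1 hin).2
    have hbe := hb e he
    have hbf := hb f hfU
    have hre := hr e he
    have hrf := hr f hfU
    have hme := hm e he
    have hmf := hm f hfU
    have hsm : -m / 2 ≤ s := by
      rw [hs, hbe, hbf]
      nlinarith [sq_nonneg (‖u e - e‖ - ‖u f - f‖)]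
    have h1 := contact s (gw u e f) m W hsm (hw0 e he f hf) (hW e he f hf)
    have h2 := young ((lam u e + lam u f) / 2) (inner ℝ (u e - e) (u f - f) : ℝ) mu hmu
    have h3 : (inner ℝ (u e - e) (u f - f) : ℝ) ^ 2 ≤ ‖u e - e‖ ^ 2 * ‖u f - f‖ ^ 2 := by
      rw [← mul_pow, ← sq_abs]
      exact pow_le_pow_left₀ (abs_nonneg _) hin 2
    have h4 : (1 + 1 / mu) * (inner ℝ (u e - e) (u f - f) : ℝ) ^ 2 ≤
        (1 + 1 / mu) * (‖u e - e‖ ^ 2 * ‖u f - f‖ ^ 2) :=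
      mul_le_mul_of_nonneg_left h3 (by positivity)
    rw [← hs] at h2
    linarith
  have hup : ∑ e ∈ UE, ∑ f ∈ nb e, ((inner ℝ (del u e) f : ℝ) + (inner ℝ e (del u f) : ℝ)) ^ 2 ≤
      (1 + mu) * ∑ e ∈ UE, ∑ f ∈ nb e, ((lam u e + lam u f) / 2) ^ 2
        + (1 + 1 / mu) * ∑ e ∈ UE, ∑ f ∈ nb e, (‖u e - e‖ ^ 2 * ‖u f - f‖ ^ 2)
        + (W + m) * gL u := by
    rw [gL]
    simp only [Finset.mul_sum, ← Finset.sum_add_distrib]
    exact Finset.sum_le_sum fun e he => Finset.sum_le_sum fun f hf => hone e he f hf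
  have hsum1 : ∑ e ∈ UE, ∑ f ∈ nb e, ((lam u e + lam u f) / 2) ^ 2 ≤
      28 * ∑ e ∈ UE, lam u e ^ 2 + 1 / 2 * (gx u + gS u / 2) ^ 2 := by
    have e1 : ∑ e ∈ UE, ∑ f ∈ nb e, ((lam u e + lam u f) / 2) ^ 2 =
        1 / 4 * ∑ e ∈ UE, ∑ _f ∈ nb e, lam u e ^ 2 + 1 / 4 * ∑ e ∈ UE, ∑ f ∈ nb e, lam u f ^ 2
          + 1 / 2 * ∑ e ∈ UE, ∑ f ∈ nb e, lam u e * lam u f := by
      simp only [Finset.mul_sum, ← Finset.sum_add_distrib]
      exact Finset.sum_congr rfl fun e _ => Finset.sum_congr rfl fun f _ => by ring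
    have e2 : ∑ e ∈ UE, ∑ f ∈ nb e, lam u f ^ 2 = 56 * ∑ e ∈ UE, lam u e ^ 2 := by
      rw [sum_swap (fun _ f => lam u f ^ 2)]
      exact sum_const_nb hUEF fun e => lam u e ^ 2
    have e3 : ∑ e ∈ UE, ∑ _f ∈ nb e, lam u e ^ 2 = 56 * ∑ e ∈ UE, lam u e ^ 2 :=
      sum_const_nb hUEF fun e => lam u e ^ 2
    have e4 : ∑ e ∈ UE, ∑ f ∈ nb e, lam u e * lam u f ≤ (gx u + gS u / 2) ^ 2 := by
      rw [← hsb, sq, Finset.sum_mul_sum]
      refine Finset.sum_le_sum fun e he => ?_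
      refine Finset.sum_le_sum_of_subset_of_nonneg (nb_sub e) fun f hf _ => ?_
      exact mul_nonneg (hb0 e he) (hb0 f hf)
    rw [e1, e2, e3]; linarith
  have hsum2 : ∑ e ∈ UE, ∑ f ∈ nb e, (‖u e - e‖ ^ 2 * ‖u f - f‖ ^ 2) ≤ gS u ^ 2 := by
    rw [gS, sq, Finset.sum_mul_sum]
    refine Finset.sum_le_sum fun e _ => ?_
    exact Finset.sum_le_sum_of_subset_of_nonneg (nb_sub e) fun f _ _ =>
      mul_nonneg (sq_nonneg _) (sq_nonneg _)
  have h5 : (1 + mu) * ∑ e ∈ UE, ∑ f ∈ nb e, ((lam u e + lam u f) / 2) ^ 2 ≤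
      (1 + mu) * (28 * ((gx u + m / 2) * (gx u + gS u / 2)) + 1 / 2 * (gx u + gS u / 2) ^ 2) :=
    mul_le_mul_of_nonneg_left (by linarith) (by positivity)
  have h6 : (1 + 1 / mu) * ∑ e ∈ UE, ∑ f ∈ nb e, (‖u e - e‖ ^ 2 * ‖u f - f‖ ^ 2) ≤
      (1 + 1 / mu) * gS u ^ 2 := mul_le_mul_of_nonneg_left hsum2 (by positivity)
  nlinarith [h5, h6, hK, hup, hsb2]

end Pool.Agent.Lib.MP_f1379f_gt.FV
end

section
/-!
# HEX: the stress of a great hexagon bounds every contact strain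
-/
set_option autoImplicit false

namespace Pool.Agent.Lib.MP_f1379f_gt.FV

namespace HEXM

/-- Shift of the index of a cyclic sum. -/
theorem sum_shift (F : Fin 6 → ℝ) : ∑ i, F (i + 1) = ∑ i, F i :=
  Equiv.sum_comp (Equiv.addRight (1 : Fin 6)) F

/-- The radial defects on a hexagon. -/
theorem sum_r_le (hG : SpecGBA) (hH : SpecHXC) {u : E → E} (hu : CFG u) {a f : E} (ha : a ∈ UE)
    (hf : f ∈ nb a) : ∑ i, gr u (hx a f i) ≤ gx u := by
  classical
  have h1 : ∑ i, gr u (hx a f i) = ∑ e ∈ Finset.univ.image (hx a f), gr u e := by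
    rw [Finset.sum_image]
    intro i _ j _ h
    exact hH.inj a ha f hf h
  rw [h1]
  unfold gx
  refine Finset.sum_le_sum_of_subset_of_nonneg ?_ ?_
  · intro e he
    rw [Finset.mem_image] at he
    obtain ⟨i, _, rfl⟩ := he
    exact hH.mem a ha f hf i
  · intro e he _
    exact hG.r0 u hu e he

/-- One radial defect. -/
theorem r_le (hG : SpecGBA) {u : E → E} (hu : CFG u) {e : E} (he : e ∈ UE) : gr u e ≤ gx u := by
  unfold gx
  exact Finset.single_le_sum (fun e he => hG.r0 u hu e he) he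

/-- Total radial components of a hexagon. -/
theorem sum_lam (hG : SpecGBA) (hH : SpecHXC) (u : E → E) {a f : E} (ha : a ∈ UE)
    (hf : f ∈ nb a) : ∑ i, lam u (hx a f i) = ∑ i, gr u (hx a f i) + hS u a f / 2 := by
  unfold hS
  rw [Finset.sum_div, ← Finset.sum_add_distrib]
  exact Finset.sum_congr rfl fun i _ => hG.bet u _ (hH.mem a ha f hf i)

theorem lam_eq' (u : E → E) (e : E) : lam u e = -(inner ℝ (u e - e) e : ℝ) := rfl

end HEXM

open HEXM in
/-- **HEX**. -/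
theorem specHEX (hG : SpecGBA) (hH : SpecHXC) : SpecHEX := by
  classical
  intro u hu a ha f hf
  -- the total stress
  have hip : ∀ i, (inner ℝ (hx a f i) (hx a f (i + 1)) : ℝ) = 1 / 2 := by
    intro i
    have h := hH.nxt a ha f hf i
    unfold nb at h
    rw [Finset.mem_filter] at h
    rw [real_inner_comm]
    exact h.2
  have hw : ∀ i, gw u (hx a f i) (hx a f (i + 1)) =
      -(inner ℝ (u (hx a f i) - hx a f i) (hx a f (i + 1)) : ℝ)
      - (inner ℝ (u (hx a f (i + 1)) - hx a f (i + 1)) (hx a f i) : ℝ)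
      - (inner ℝ (u (hx a f i) - hx a f i) (u (hx a f (i + 1)) - hx a f (i + 1)) : ℝ) := by
    intro i
    unfold gw
    rw [real_inner_comm (hx a f i) (u (hx a f (i + 1)) - hx a f (i + 1))]
    simp only [inner_sub_left, inner_sub_right, hip i]
    ring
  have htot : ∑ i, gw u (hx a f i) (hx a f (i + 1)) = ∑ i, lam u (hx a f i) -
      ∑ i, (inner ℝ (u (hx a f i) - hx a f i) (u (hx a f (i + 1)) - hx a f (i + 1)) : ℝ) := by
    have h1 : ∑ i, (inner ℝ (u (hx a f (i + 1)) - hx a f (i + 1)) (hx a f i) : ℝ) =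
        ∑ i, (inner ℝ (u (hx a f i) - hx a f i) (hx a f (i - 1)) : ℝ) := by
      have h2 := sum_shift fun i => (inner ℝ (u (hx a f i) - hx a f i) (hx a f (i - 1)) : ℝ)
      rw [← h2]
      refine Finset.sum_congr rfl fun i _ => ?_
      rw [add_sub_cancel_right]
    have h3 : ∑ i, lam u (hx a f i) =
        -∑ i, (inner ℝ (u (hx a f i) - hx a f i) (hx a f (i + 1)) : ℝ)
        - ∑ i, (inner ℝ (u (hx a f i) - hx a f i) (hx a f (i - 1)) : ℝ) := by
      rw [← Finset.sum_neg_distrib, ← Finset.sum_sub_distrib]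
      refine Finset.sum_congr rfl fun i _ => ?_
      have h4 := hH.mid a f i
      unfold lam
      conv_lhs => rw [← h4]
      rw [← h4, inner_add_right]
      ring
    rw [Finset.sum_congr rfl fun i _ => hw i, Finset.sum_sub_distrib, Finset.sum_sub_distrib,
      Finset.sum_neg_distrib, h1, h3]
  have hcs : -∑ i, (inner ℝ (u (hx a f i) - hx a f i) (u (hx a f (i + 1)) - hx a f (i + 1)) : ℝ) ≤
      hS u a f := by
    have h1 : ∀ i, -(inner ℝ (u (hx a f i) - hx a f i) (u (hx a f (i + 1)) - hx a f (i + 1)) : ℝ) ≤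
        ‖u (hx a f i) - hx a f i‖ ^ 2 / 2 + ‖u (hx a f (i + 1)) - hx a f (i + 1)‖ ^ 2 / 2 := by
      intro i
      have h2 : 0 ≤ ‖(u (hx a f i) - hx a f i) + (u (hx a f (i + 1)) - hx a f (i + 1))‖ ^ 2 :=
        sq_nonneg _
      rw [norm_add_sq_real] at h2
      linarith
    rw [← Finset.sum_neg_distrib]
    refine (Finset.sum_le_sum fun i _ => h1 i).trans_eq ?_
    rw [Finset.sum_add_distrib, sum_shift fun i => ‖u (hx a f i) - hx a f i‖ ^ 2 / 2]
    unfold hS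
    rw [← Finset.sum_div]
    ring
  have hpos : ∀ i, 0 ≤ gw u (hx a f i) (hx a f (i + 1)) := by
    intro i
    have hne : hx a f i ≠ hx a f (i + 1) := by
      intro h
      have h1 := hH.inj a ha f hf h
      have h2 : (1 : Fin 6) = 0 := by
        have h3 : i + 1 = i + 0 := by rw [← h1, add_zero]
        exact add_left_cancel h3
      exact absurd h2 (by decide)
    have h1 := hG.w2 u hu _ (hH.mem a ha f hf i) _ (hH.mem a ha f hf (i + 1)) hne
    have h2 := hG.r0 u hu _ (hH.mem a ha f hf i)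
    have h3 := hG.r0 u hu _ (hH.mem a ha f hf (i + 1))
    have h4 := mul_nonneg h2 h3
    linarith
  have hle : gw u a f ≤ ∑ i, gw u (hx a f i) (hx a f (i + 1)) := by
    have h1 := Finset.single_le_sum (f := fun i => gw u (hx a f i) (hx a f (i + 1)))
      (fun i _ => hpos i) (Finset.mem_univ (0 : Fin 6))
    have h2 : hx a f 0 = a := rfl
    have h3 : hx a f (0 + 1) = f := rfl
    simp only [h2, h3] at h1
    exact h1
  have h5 := sum_lam hG hH u ha hf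
  have h6 := sum_r_le hG hH hu ha hf
  linarith

end Pool.Agent.Lib.MP_f1379f_gt.FV
end

section
/-!
# MP_f1379f_gt, block G, module NSM: the total loss in the final regime
-/
set_option autoImplicit false

namespace Pool.Agent.Lib.MP_f1379f_gt.FV

namespace NSMM

theorem mem_nb {a e : E} : e ∈ nb a ↔ e ∈ UE ∧ (inner ℝ e a : ℝ) = 1 / 2 := by
  simp [nb]

theorem gS_nonneg (u : E → E) : 0 ≤ gS u := Finset.sum_nonneg fun _ _ => sq_nonneg _

theorem le_gS (u : E → E) {e : E} (he : e ∈ UE) : ‖u e - e‖ ^ 2 ≤ gS u :=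
  Finset.single_le_sum (f := fun e => ‖u e - e‖ ^ 2) (fun _ _ => sq_nonneg _) he

theorem del_le (hG : SpecGBA) (u : E → E) {e : E} (he : e ∈ UE) :
    ‖del u e‖ ^ 2 ≤ ‖u e - e‖ ^ 2 := by
  rw [hG.pyth u e he]
  have := sq_nonneg (lam u e)
  linarith

/-- The loss in terms of `S` and a bound of the displacements. -/
theorem loss (hG : SpecGBA) (u : E → E) (m : ℝ) (hm : ∀ e ∈ UE, ‖u e - e‖ ^ 2 ≤ m) :
    ∑ e ∈ UE, (204 / 5000 * ‖del u e‖ ^ 2 + 106 / 125 * ‖del u e‖ ^ 4) ≤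
      (204 / 5000 + 106 / 125 * m) * gS u := by
  rw [gS, Finset.mul_sum]
  refine Finset.sum_le_sum fun e he => ?_
  have h1 := del_le hG u he
  have h2 := hm e he
  have h3 : ‖del u e‖ ^ 4 ≤ m * ‖u e - e‖ ^ 2 := by
    have h4 : ‖del u e‖ ^ 4 = ‖del u e‖ ^ 2 * ‖del u e‖ ^ 2 := by ring
    rw [h4]
    exact mul_le_mul (h1.trans h2) h1 (sq_nonneg _) ((sq_nonneg _).trans h2)
  linarith

theorem algM (S x m b : ℝ) (hS : S ≤ 1 / 100) (hx : x ≤ 1 / 100) (_hx0 : 0 ≤ x) (hm0 : 0 ≤ m)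
    (hmS : m ≤ S) (hb0 : 0 ≤ b) (hb : b ≤ x + m / 2) (h : 3 * m ≤ S + 16 * b ^ 2) :
    m ≤ 1 / 200 ∧ m ≤ 7 / 20 * S + 7 / 100 * x := by
  have h1 : b ^ 2 ≤ 3 / 200 * b := by nlinarith
  have hm : m ≤ 1 / 200 := by nlinarith
  refine ⟨hm, ?_⟩
  have h2 : b ^ 2 ≤ 1 / 80 * b := by nlinarith
  nlinarith

theorem algH (S x m H c : ℝ) (hx0 : 0 ≤ x) (hH0 : 0 ≤ H) (hxm : x + m / 2 ≤ 1 / 80)
    (hS0 : 0 ≤ S)
    (hc : c ≤ (x + m / 2) * (x + H / 2))
    (h : (1 + 9 / 8 * (1 - 1 / 3)) * H ≤ S + (9 / 8 * (1 - 1 / 3) + 27 / 8 * (1 / (1 / 3) - 1)) * c) :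
    H ≤ 3 / 5 * S + 3 / 50 * x := by
  have h1 : (x + m / 2) * (x + H / 2) ≤ 1 / 80 * (x + H / 2) :=
    mul_le_mul_of_nonneg_right hxm (by linarith)
  norm_num at h
  linarith

theorem algF (S x m W L : ℝ) (hS0 : 0 ≤ S) (hS : S ≤ 1 / 100) (hx0 : 0 ≤ x) (hx : x ≤ 1 / 100)
    (hL : 0 ≤ L) (hm : m ≤ 7 / 20 * S + 7 / 100 * x)
    (hW : W = x + 3 / 2 * (3 / 5 * S + 3 / 50 * x))
    (h : 6 * S ≤ (28 * (1 + 1 / 4) + 6) * ((x + m / 2) * (x + S / 2))
      + (1 + 1 / 4) / 2 * (x + S / 2) ^ 2 + (1 + 1 / (1 / 4)) * S ^ 2 + (W + m) * L) :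
    S ≤ 8 * x ^ 2 + 1 / 220 * L := by
  norm_num at h
  have h1 : (x + m / 2) * (x + S / 2) ≤ (21 / 20 * x + 7 / 40 * S) * (x + S / 2) :=
    mul_le_mul_of_nonneg_right (by linarith) (by linarith)
  have h2 : (W + m) * L ≤ (49 / 2000) * L := by
    apply mul_le_mul_of_nonneg_right _ hL
    rw [hW]; linarith
  have h3 : x * S ≤ 1 / 100 * S := mul_le_mul_of_nonneg_right hx hS0
  have h4 : S ^ 2 ≤ 1 / 100 * S := by rw [sq]; exact mul_le_mul_of_nonneg_right hS hS0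
  nlinarith

end NSMM

open NSMM in
/-- **NSM.** -/
theorem specNSM (hUEF : SpecUEF) (hG : SpecGBA) (hHEX : SpecHEX) (hHLB : SpecHLB) (hMSQ : SpecMSQ)
    (hHXN : SpecHXN) (hERR : SpecERR) : SpecNSM where
  hi := by
    intro u hC hS
    have h1 := loss hG u (1 / 50) fun e he => (le_gS u he).trans hS
    have h0 := gS_nonneg u
    nlinarith
  lo := by
    intro u hC hSS hx
    have hS0 := gS_nonneg u
    have hb : ∀ e ∈ UE, lam u e = gr u e + ‖u e - e‖ ^ 2 / 2 := hG.bet u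
    have hr := hG.r0 u hC
    have hx0 : 0 ≤ gx u := Finset.sum_nonneg hr
    have hne : UE.Nonempty := by
      rw [← Finset.card_pos, hUEF.c240]; norm_num
    obtain ⟨a, ha, hmax⟩ := Finset.exists_max_image UE (fun e => ‖u e - e‖ ^ 2) hne
    have hw0 : ∀ e ∈ UE, ∀ f ∈ nb e, 0 ≤ gw u e f := by
      intro e he f hf
      obtain ⟨hfU, hfe⟩ := mem_nb.1 hf
      have hnef : e ≠ f := by
        rintro rfl
        rw [real_inner_self_eq_norm_sq, hUEF.nrm e he] at hfe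
        norm_num at hfe
      have := hG.w2 u hC e he f hfU hnef
      have h2 := mul_nonneg (hr e he) (hr f hfU)
      linarith
    have hL0 : 0 ≤ gL u := Finset.sum_nonneg fun e he => Finset.sum_nonneg fun f hf => hw0 e he f hf
    obtain ⟨m, hmdef⟩ : ∃ m : ℝ, m = ‖u a - a‖ ^ 2 := ⟨_, rfl⟩
    have hm : ∀ e ∈ UE, ‖u e - e‖ ^ 2 ≤ m := fun e he => by rw [hmdef]; exact hmax e he
    have hm0 : 0 ≤ m := by rw [hmdef]; exact sq_nonneg _
    have hmS : m ≤ gS u := by rw [hmdef]; exact le_gS u ha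
    have hba0 : 0 ≤ lam u a := by
      rw [hb a ha, ← hmdef]; have := hr a ha; linarith
    have hba : lam u a ≤ gx u + m / 2 := by
      have h1 : gr u a ≤ gx u := Finset.single_le_sum (f := fun e => gr u e) hr ha
      rw [hb a ha, ← hmdef]; linarith
    have h3m : 3 * m ≤ gS u + 16 * lam u a ^ 2 := by
      have h1 := hMSQ u hC a ha (1 / 3) (by norm_num) (by norm_num)
      have h2 := hG.pyth u a ha
      rw [← hmdef] at h2
      norm_num at h1
      linarith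
    obtain ⟨hm1, hm2⟩ := algM (gS u) (gx u) m (lam u a) hSS hx hx0 hm0 hmS hba0 hba h3m
    have hH : ∀ e ∈ UE, ∀ f ∈ nb e, hS u e f ≤ 3 / 5 * gS u + 3 / 50 * gx u := by
      intro e he f hf
      have h1 := hHXN u hC e he f hf (1 / 3) (by norm_num) (by norm_num)
      have h2 := hHLB u hC m hm e he f hf
      exact algH (gS u) (gx u) m (hS u e f) _ hx0 (Finset.sum_nonneg fun _ _ => sq_nonneg _)
        (by linarith) hS0 h2 h1
    have hW : ∀ e ∈ UE, ∀ f ∈ nb e,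
        gw u e f ≤ gx u + 3 / 2 * (3 / 5 * gS u + 3 / 50 * gx u) := by
      intro e he f hf
      have h1 := hHEX u hC e he f hf
      have h2 := hH e he f hf
      linarith
    have hE := hERR u hC m _ (1 / 4) (by norm_num) hm hW
    have hfin := algF (gS u) (gx u) m _ (gL u) hS0 hSS hx0 hx hL0 hm2 rfl hE
    have h1 := loss hG u (1 / 200) fun e he => (hm e he).trans hm1
    have h2 : gx u ^ 2 ≤ 1 / 100 * gx u := by rw [sq]; exact mul_le_mul_of_nonneg_right hx hx0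
    linarith

end Pool.Agent.Lib.MP_f1379f_gt.FV
end

section
/-!
# MP_f1379f_gt, block G, second part: HXK, ERK, NSM2
-/
set_option autoImplicit false

namespace Pool.Agent.Lib.MP_f1379f_gt.FV

namespace G2AM

theorem cyc (n0 n1 n2 n3 n4 n5 : ℝ) :
    2 * (n0 * n1) + n1 * n2 + n2 * n3 + n3 * n4 + n4 * n5 + n5 * n0 ≤
      127 / 100 * (n0 ^ 2 + n1 ^ 2 + n2 ^ 2 + n3 ^ 2 + n4 ^ 2 + n5 ^ 2) := by
  nlinarith [sq_nonneg (n0 - n1), sq_nonneg (27 / 50 * n1 - n2), sq_nonneg (27 / 50 * n0 - n5),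
    sq_nonneg (67 / 100 * n2 - n3), sq_nonneg (67 / 100 * n5 - n4), sq_nonneg (n3 - n4),
    sq_nonneg n2, sq_nonneg n5, sq_nonneg n3, sq_nonneg n4]

end G2AM

open HEXM in
/-- **HXK**. -/
theorem specHXK (hG : SpecGBA) (hH : SpecHXC) : SpecHXK := by
  classical
  intro u hu a ha f hf
  have hip : ∀ i, (inner ℝ (hx a f i) (hx a f (i + 1)) : ℝ) = 1 / 2 := by
    intro i
    have h := hH.nxt a ha f hf i
    unfold nb at h
    rw [Finset.mem_filter] at h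
    rw [real_inner_comm]
    exact h.2
  have hw : ∀ i, gw u (hx a f i) (hx a f (i + 1)) =
      -(inner ℝ (u (hx a f i) - hx a f i) (hx a f (i + 1)) : ℝ)
      - (inner ℝ (u (hx a f (i + 1)) - hx a f (i + 1)) (hx a f i) : ℝ)
      - (inner ℝ (u (hx a f i) - hx a f i) (u (hx a f (i + 1)) - hx a f (i + 1)) : ℝ) := by
    intro i
    unfold gw
    rw [real_inner_comm (hx a f i) (u (hx a f (i + 1)) - hx a f (i + 1))]
    simp only [inner_sub_left, inner_sub_right, hip i]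
    ring
  have htot : ∑ i, gw u (hx a f i) (hx a f (i + 1)) = ∑ i, lam u (hx a f i) -
      ∑ i, (inner ℝ (u (hx a f i) - hx a f i) (u (hx a f (i + 1)) - hx a f (i + 1)) : ℝ) := by
    have h1 : ∑ i, (inner ℝ (u (hx a f (i + 1)) - hx a f (i + 1)) (hx a f i) : ℝ) =
        ∑ i, (inner ℝ (u (hx a f i) - hx a f i) (hx a f (i - 1)) : ℝ) := by
      have h2 := sum_shift fun i => (inner ℝ (u (hx a f i) - hx a f i) (hx a f (i - 1)) : ℝ)
      rw [← h2]
      refine Finset.sum_congr rfl fun i _ => ?_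
      rw [add_sub_cancel_right]
    have h3 : ∑ i, lam u (hx a f i) =
        -∑ i, (inner ℝ (u (hx a f i) - hx a f i) (hx a f (i + 1)) : ℝ)
        - ∑ i, (inner ℝ (u (hx a f i) - hx a f i) (hx a f (i - 1)) : ℝ) := by
      rw [← Finset.sum_neg_distrib, ← Finset.sum_sub_distrib]
      refine Finset.sum_congr rfl fun i _ => ?_
      have h4 := hH.mid a f i
      unfold lam
      conv_lhs => rw [← h4]
      rw [← h4, inner_add_right]
      ring
    rw [Finset.sum_congr rfl fun i _ => hw i, Finset.sum_sub_distrib, Finset.sum_sub_distrib,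
      Finset.sum_neg_distrib, h1, h3]
  have hcs : ‖u a - a‖ * ‖u f - f‖
      - ∑ i, (inner ℝ (u (hx a f i) - hx a f i) (u (hx a f (i + 1)) - hx a f (i + 1)) : ℝ) ≤
      127 / 100 * hS u a f := by
    have h1 : ∀ i, -(‖u (hx a f i) - hx a f i‖ * ‖u (hx a f (i + 1)) - hx a f (i + 1)‖) ≤
        (inner ℝ (u (hx a f i) - hx a f i) (u (hx a f (i + 1)) - hx a f (i + 1)) : ℝ) := by
      intro i
      exact (abs_le.1 (abs_real_inner_le_norm _ _)).1
    have h2 : -∑ i, (‖u (hx a f i) - hx a f i‖ * ‖u (hx a f (i + 1)) - hx a f (i + 1)‖) ≤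
        ∑ i, (inner ℝ (u (hx a f i) - hx a f i) (u (hx a f (i + 1)) - hx a f (i + 1)) : ℝ) := by
      rw [← Finset.sum_neg_distrib]
      exact Finset.sum_le_sum fun i _ => h1 i
    have h3 : ‖u a - a‖ * ‖u f - f‖
        + ∑ i, (‖u (hx a f i) - hx a f i‖ * ‖u (hx a f (i + 1)) - hx a f (i + 1)‖) ≤
        127 / 100 * hS u a f := by
      unfold hS
      rw [Fin.sum_univ_six, Fin.sum_univ_six]
      have e0 : hx a f 0 = a := rfl
      have e1 : hx a f 1 = f := rfl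
      have e01 : hx a f (0 + 1) = f := rfl
      have e12 : hx a f (1 + 1) = hx a f 2 := rfl
      have e23 : hx a f (2 + 1) = hx a f 3 := rfl
      have e34 : hx a f (3 + 1) = hx a f 4 := rfl
      have e45 : hx a f (4 + 1) = hx a f 5 := rfl
      have e50 : hx a f (5 + 1) = a := rfl
      rw [e01, e12, e23, e34, e45, e50, e0, e1]
      have := G2AM.cyc ‖u a - a‖ ‖u f - f‖ ‖u (hx a f 2) - hx a f 2‖ ‖u (hx a f 3) - hx a f 3‖
        ‖u (hx a f 4) - hx a f 4‖ ‖u (hx a f 5) - hx a f 5‖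
      linarith
    linarith
  have hpos : ∀ i, 0 ≤ gw u (hx a f i) (hx a f (i + 1)) := by
    intro i
    have hne : hx a f i ≠ hx a f (i + 1) := by
      intro h
      have h1 := hH.inj a ha f hf h
      have h2 : (1 : Fin 6) = 0 := by
        have h3 : i + 1 = i + 0 := by rw [← h1, add_zero]
        exact add_left_cancel h3
      exact absurd h2 (by decide)
    have h1 := hG.w2 u hu _ (hH.mem a ha f hf i) _ (hH.mem a ha f hf (i + 1)) hne
    have h2 := hG.r0 u hu _ (hH.mem a ha f hf i)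
    have h3 := hG.r0 u hu _ (hH.mem a ha f hf (i + 1))
    have h4 := mul_nonneg h2 h3
    linarith
  have hle : gw u a f ≤ ∑ i, gw u (hx a f i) (hx a f (i + 1)) := by
    have h1 := Finset.single_le_sum (f := fun i => gw u (hx a f i) (hx a f (i + 1)))
      (fun i _ => hpos i) (Finset.mem_univ (0 : Fin 6))
    have h2 : hx a f 0 = a := rfl
    have h3 : hx a f (0 + 1) = f := rfl
    simp only [h2, h3] at h1
    exact h1
  have h5 := sum_lam hG hH u ha hf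
  have h6 := sum_r_le hG hH hu ha hf
  linarith

open ERRM in
/-- **ERK.** -/
theorem specERK (hUEF : SpecUEF) (hG : SpecGBA) (hMKF : SpecMKF) : SpecERK := by
  intro u hC m K mu hmu hm hW
  have hb : ∀ e ∈ UE, lam u e = gr u e + ‖u e - e‖ ^ 2 / 2 := hG.bet u
  have hr := hG.r0 u hC
  have hb0 : ∀ e ∈ UE, 0 ≤ lam u e := fun e he => by
    rw [hb e he]; have := hr e he; positivity
  have hw0 : ∀ e ∈ UE, ∀ f ∈ nb e, 0 ≤ gw u e f := by
    intro e he f hf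
    obtain ⟨hfU, hfe⟩ := mem_nb.1 hf
    have hne : e ≠ f := by
      rintro rfl
      rw [real_inner_self_eq_norm_sq, hUEF.nrm e he] at hfe
      norm_num at hfe
    have := hG.w2 u hC e he f hfU hne
    have h2 := mul_nonneg (hr e he) (hr f hfU)
    linarith
  have hsb : ∑ e ∈ UE, lam u e = gx u + gS u / 2 := by
    rw [Finset.sum_congr rfl hb, Finset.sum_add_distrib, ← Finset.sum_div]
    rfl
  have hble : ∀ e ∈ UE, lam u e ≤ gx u + m / 2 := by
    intro e he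
    have h1 : gr u e ≤ gx u := Finset.single_le_sum (f := fun e => gr u e) hr he
    have h2 := hm e he
    rw [hb e he]; linarith
  have hsb2 : ∑ e ∈ UE, lam u e ^ 2 ≤ (gx u + m / 2) * (gx u + gS u / 2) := by
    rw [← hsb, Finset.mul_sum]
    refine Finset.sum_le_sum fun e he => ?_
    nlinarith [hble e he, hb0 e he]
  have hlow : ∑ e ∈ UE, ‖del u e‖ ^ 2 = gS u - ∑ e ∈ UE, lam u e ^ 2 := by
    rw [gS, ← Finset.sum_sub_distrib]
    refine Finset.sum_congr rfl fun e he => ?_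
    rw [hG.pyth u e he]; ring
  have hK := hMKF (del u) (hG.orth u)
  rw [hG.gau u hC, mul_zero, sub_zero, hlow] at hK
  have hone : ∀ e ∈ UE, ∀ f ∈ nb e,
      ((inner ℝ (del u e) f : ℝ) + (inner ℝ e (del u f) : ℝ)) ^ 2 ≤
        (1 + mu) * ((lam u e + lam u f) / 2) ^ 2
          + (1 + 1 / mu) * (‖u e - e‖ ^ 2 * ‖u f - f‖ ^ 2) + K * gw u e f := by
    intro e he f hf
    have hfU := (mem_nb.1 hf).1
    rw [hG.vid u e he f hf]
    set s := (lam u e + lam u f) / 2 - (inner ℝ (u e - e) (u f - f) : ℝ) with hs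
    have hin := abs_real_inner_le_norm (u e - e) (u f - f)
    have hin1 := (abs_le.1 hin).2
    have hbe := hb e he
    have hbf := hb f hfU
    have hre := hr e he
    have hrf := hr f hfU
    have hsm : -(‖u e - e‖ * ‖u f - f‖) / 2 ≤ s := by
      rw [hs, hbe, hbf]
      nlinarith [sq_nonneg (‖u e - e‖ - ‖u f - f‖)]
    have h1 := contact s (gw u e f) (‖u e - e‖ * ‖u f - f‖) (gw u e f) hsm (hw0 e he f hf) le_rfl
    have h1' := mul_le_mul_of_nonneg_right (hW e he f hf) (hw0 e he f hf)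
    have h2 := young ((lam u e + lam u f) / 2) (inner ℝ (u e - e) (u f - f) : ℝ) mu hmu
    have h3 : (inner ℝ (u e - e) (u f - f) : ℝ) ^ 2 ≤ ‖u e - e‖ ^ 2 * ‖u f - f‖ ^ 2 := by
      rw [← mul_pow, ← sq_abs]
      exact pow_le_pow_left₀ (abs_nonneg _) hin 2
    have h4 : (1 + 1 / mu) * (inner ℝ (u e - e) (u f - f) : ℝ) ^ 2 ≤
        (1 + 1 / mu) * (‖u e - e‖ ^ 2 * ‖u f - f‖ ^ 2) :=
      mul_le_mul_of_nonneg_left h3 (by positivity)
    rw [← hs] at h2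
    linarith
  have hup : ∑ e ∈ UE, ∑ f ∈ nb e, ((inner ℝ (del u e) f : ℝ) + (inner ℝ e (del u f) : ℝ)) ^ 2 ≤
      (1 + mu) * ∑ e ∈ UE, ∑ f ∈ nb e, ((lam u e + lam u f) / 2) ^ 2
        + (1 + 1 / mu) * ∑ e ∈ UE, ∑ f ∈ nb e, (‖u e - e‖ ^ 2 * ‖u f - f‖ ^ 2)
        + K * gL u := by
    rw [gL]
    simp only [Finset.mul_sum, ← Finset.sum_add_distrib]
    exact Finset.sum_le_sum fun e he => Finset.sum_le_sum fun f hf => hone e he f hf
  have hsum1 : ∑ e ∈ UE, ∑ f ∈ nb e, ((lam u e + lam u f) / 2) ^ 2 ≤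
      28 * ∑ e ∈ UE, lam u e ^ 2 + 1 / 2 * (gx u + gS u / 2) ^ 2 := by
    have e1 : ∑ e ∈ UE, ∑ f ∈ nb e, ((lam u e + lam u f) / 2) ^ 2 =
        1 / 4 * ∑ e ∈ UE, ∑ _f ∈ nb e, lam u e ^ 2 + 1 / 4 * ∑ e ∈ UE, ∑ f ∈ nb e, lam u f ^ 2
          + 1 / 2 * ∑ e ∈ UE, ∑ f ∈ nb e, lam u e * lam u f := by
      simp only [Finset.mul_sum, ← Finset.sum_add_distrib]
      exact Finset.sum_congr rfl fun e _ => Finset.sum_congr rfl fun f _ => by ring
    have e2 : ∑ e ∈ UE, ∑ f ∈ nb e, lam u f ^ 2 = 56 * ∑ e ∈ UE, lam u e ^ 2 := by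
      rw [sum_swap (fun _ f => lam u f ^ 2)]
      exact sum_const_nb hUEF fun e => lam u e ^ 2
    have e3 : ∑ e ∈ UE, ∑ _f ∈ nb e, lam u e ^ 2 = 56 * ∑ e ∈ UE, lam u e ^ 2 :=
      sum_const_nb hUEF fun e => lam u e ^ 2
    have e4 : ∑ e ∈ UE, ∑ f ∈ nb e, lam u e * lam u f ≤ (gx u + gS u / 2) ^ 2 := by
      rw [← hsb, sq, Finset.sum_mul_sum]
      refine Finset.sum_le_sum fun e he => ?_
      refine Finset.sum_le_sum_of_subset_of_nonneg (nb_sub e) fun f hf _ => ?_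
      exact mul_nonneg (hb0 e he) (hb0 f hf)
    rw [e1, e2, e3]; linarith
  have hsum2 : ∑ e ∈ UE, ∑ f ∈ nb e, (‖u e - e‖ ^ 2 * ‖u f - f‖ ^ 2) ≤ gS u ^ 2 := by
    rw [gS, sq, Finset.sum_mul_sum]
    refine Finset.sum_le_sum fun e _ => ?_
    exact Finset.sum_le_sum_of_subset_of_nonneg (nb_sub e) fun f _ _ =>
      mul_nonneg (sq_nonneg _) (sq_nonneg _)
  have h5 : (1 + mu) * ∑ e ∈ UE, ∑ f ∈ nb e, ((lam u e + lam u f) / 2) ^ 2 ≤
      (1 + mu) * (28 * ((gx u + m / 2) * (gx u + gS u / 2)) + 1 / 2 * (gx u + gS u / 2) ^ 2) :=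
    mul_le_mul_of_nonneg_left (by linarith) (by positivity)
  have h6 : (1 + 1 / mu) * ∑ e ∈ UE, ∑ f ∈ nb e, (‖u e - e‖ ^ 2 * ‖u f - f‖ ^ 2) ≤
      (1 + 1 / mu) * gS u ^ 2 := mul_le_mul_of_nonneg_left hsum2 (by positivity)
  nlinarith [h5, h6, hK, hup, hsb2]

open NSMM in
/-- **NSM2.** -/
theorem specNSM2 (hG : SpecGBA) : SpecNSM2 := by
  intro u _ hS
  have h1 := loss hG u (1 / 50) fun e he => (le_gS u he).trans hS
  have h0 := gS_nonneg u
  linarith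

end Pool.Agent.Lib.MP_f1379f_gt.FV
end

section
/-!
# HLB: total radial components on a great hexagon
-/
set_option autoImplicit false

namespace Pool.Agent.Lib.MP_f1379f_gt.FV

open HEXM in
/-- **HLB**. -/
theorem specHLB (hG : SpecGBA) (hH : SpecHXC) : SpecHLB := by
  intro u hu m hm a ha f hf
  have hb0 : ∀ i, 0 ≤ lam u (hx a f i) := by
    intro i
    rw [hG.bet u _ (hH.mem a ha f hf i)]
    have h1 := hG.r0 u hu _ (hH.mem a ha f hf i)
    positivity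
  have hb1 : ∀ i, lam u (hx a f i) ≤ gx u + m / 2 := by
    intro i
    rw [hG.bet u _ (hH.mem a ha f hf i)]
    have h1 := r_le hG hu (hH.mem a ha f hf i)
    have h2 := hm _ (hH.mem a ha f hf i)
    linarith
  have hM : 0 ≤ gx u + m / 2 := (hb0 0).trans (hb1 0)
  have h5 := sum_lam hG hH u ha hf
  have h6 := sum_r_le hG hH hu ha hf
  calc ∑ i, lam u (hx a f i) ^ 2 ≤ ∑ i, (gx u + m / 2) * lam u (hx a f i) := by
        refine Finset.sum_le_sum fun i _ => ?_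
        rw [sq]
        exact mul_le_mul_of_nonneg_right (hb1 i) (hb0 i)
    _ = (gx u + m / 2) * ∑ i, lam u (hx a f i) := by rw [Finset.mul_sum]
    _ ≤ _ := mul_le_mul_of_nonneg_left (by rw [h5]; linarith) hM

end Pool.Agent.Lib.MP_f1379f_gt.FV
end
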