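import Pool.Agent.Lib.MP_f1379f_gt.FV.SpecS4
import Pool.Agent.Lib.MP_f1379f_gt.FV.QVD

/-!
# MP_f1379f_gt, full Q1, block S4: V4L, lower bound of a quadruple volume
-/

set_option autoImplicit false

namespace Pool.Agent.Lib.MP_f1379f_gt.FV

open MeasureTheory Matrix

namespace V4LM

/-- The orthant. -/
def A : Set (Fin 4 → ℝ) := {z | ∀ i, 1 < z i}

lemma measA : MeasurableSet A := by
  have : A = ⋂ i, {p : Fin 4 → ℝ | 1 < p i} := by ext p; simp [A]
  rw [this]
  exact MeasurableSet.iInter fun i => measurableSet_lt measurable_const (measurable_pi_apply i)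

lemma kap4 : 0 < kap 4 ∧ kap 4 ≤ 4.9349 := by
  have h1 : (Metric.ball (0 : EuclideanSpace ℝ (Fin 4)) 1) = {w : QV.E4 | ‖w‖ ^ 2 < 1} := by
    ext w
    simp only [mem_ball_zero_iff, Set.mem_ofPred_eq]
    constructor
    · intro h
      have := norm_nonneg w
      nlinarith
    · intro h
      by_contra hc
      have : 1 ≤ ‖w‖ := not_lt.1 hc
      nlinarith
  have h2 : kap 4 = Real.pi ^ 2 / 2 := by
    unfold kap
    rw [h1, QV.vol_E4, ENNReal.toReal_ofReal (by positivity)]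
    norm_num
  rw [h2]
  have h3 := Real.pi_pos
  have h4 := Real.pi_lt_d6
  constructor
  · positivity
  · nlinarith

lemma quad_eq (u : Fin 4 → E) (c : Fin 4 → ℝ) :
    c ⬝ᵥ ((Gr u).mulVec c) = ‖∑ i, c i • u i‖ ^ 2 := by
  rw [← real_inner_self_eq_norm_sq]
  simp only [dotProduct, mulVec, Gr, Matrix.of_apply, sum_inner, inner_sum, real_inner_smul_left,
    real_inner_smul_right]
  apply Finset.sum_congr rfl
  intro i _
  rw [Finset.mul_sum]
  apply Finset.sum_congr rfl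
  intro j _
  rw [real_inner_comm (u i) (u j)]
  ring

lemma li (u : Fin 4 → E)
    (h : ∀ c : Fin 4 → ℝ, (2 / 5) * ∑ i, c i ^ 2 ≤ c ⬝ᵥ ((Gr u).mulVec c)) :
    LinearIndependent ℝ u := by
  rw [Fintype.linearIndependent_iff]
  intro g hg i
  have h1 := h g
  rw [quad_eq, hg] at h1
  simp only [norm_zero] at h1
  have h2 : ∑ i, g i ^ 2 ≤ 0 := by nlinarith
  have h3 : ∑ i, g i ^ 2 = 0 := le_antisymm h2 (Finset.sum_nonneg fun i _ => sq_nonneg _)
  rw [Finset.sum_eq_zero_iff_of_nonneg (fun i _ => sq_nonneg _)] at h3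
  exact pow_eq_zero_iff (two_ne_zero) |>.1 (h3 i (Finset.mem_univ i))

lemma vol_eq (hGSL : SpecGSL) (u : Fin 4 → E) (hu : LinearIndependent ℝ u) :
    volume (cap (u 0) ∩ cap (u 1) ∩ cap (u 2) ∩ cap (u 3)) =
      ∫⁻ z in A, ENNReal.ofReal (kap 4 *
        Real.sqrt (5 / 3 - z ⬝ᵥ ((Gr u)⁻¹.mulVec z)) ^ 4 / Real.sqrt (Gr u).det) := by
  refine Eq.trans ?_ (hGSL 4 4 (by norm_num) (by norm_num) u hu A measA (5 / 3))
  congr 1
  ext y
  simp only [Set.mem_inter_iff, cap, Set.mem_ofPred_eq, A]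
  constructor
  · rintro ⟨⟨⟨⟨h, h0⟩, ⟨_, h1⟩⟩, ⟨_, h2⟩⟩, ⟨_, h3⟩⟩
    refine ⟨h, ?_⟩
    intro i
    fin_cases i
    · exact h0
    · exact h1
    · exact h2
    · exact h3
  · rintro ⟨hy, h⟩
    exact ⟨⟨⟨⟨hy, h 0⟩, ⟨hy, h 1⟩⟩, ⟨hy, h 2⟩⟩, ⟨hy, h 3⟩⟩

lemma fin_vol (u v w z : E) : volume (cap u ∩ cap v ∩ cap w ∩ cap z) ≠ ⊤ := by
  have hsub : cap u ∩ cap v ∩ cap w ∩ cap z ⊆ Metric.ball (0 : E) 2 := by
    rintro y ⟨⟨⟨⟨hy, _⟩, _⟩, _⟩, _⟩
    rw [mem_ball_zero_iff]
    nlinarith [norm_nonneg y]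
  exact ne_top_of_le_ne_top measure_ball_lt_top.ne (measure_mono hsub)

/-- The touching quadruple. -/
noncomputable def ee : Fin 4 → E := ![e0, e1, e2, e3]

lemma Gr_ee : Gr ee = G0 := by
  have i00 : (inner ℝ e0 e0 : ℝ) = 1 := by rw [real_inner_self_eq_norm_sq, PV.norm_e0]; norm_num
  have i11 : (inner ℝ e1 e1 : ℝ) = 1 := by rw [real_inner_self_eq_norm_sq, PV.norm_e1]; norm_num
  have i22 : (inner ℝ e2 e2 : ℝ) = 1 := by rw [real_inner_self_eq_norm_sq, TV.norm_e2]; norm_num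
  have i33 : (inner ℝ e3 e3 : ℝ) = 1 := by rw [real_inner_self_eq_norm_sq, QV.norm_e3]; norm_num
  have i01 := PV.inner_e01
  have i02 := TV.inner_e02
  have i12 := TV.inner_e12
  have i03 := QV.inner_e03
  have i13 := QV.inner_e13
  have i23 := QV.inner_e23
  have i10 : (inner ℝ e1 e0 : ℝ) = 1 / 2 := by rw [real_inner_comm]; exact i01
  have i20 : (inner ℝ e2 e0 : ℝ) = 1 / 2 := by rw [real_inner_comm]; exact i02
  have i21 : (inner ℝ e2 e1 : ℝ) = 1 / 2 := by rw [real_inner_comm]; exact i12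
  have i30 : (inner ℝ e3 e0 : ℝ) = 1 / 2 := by rw [real_inner_comm]; exact i03
  have i31 : (inner ℝ e3 e1 : ℝ) = 1 / 2 := by rw [real_inner_comm]; exact i13
  have i32 : (inner ℝ e3 e2 : ℝ) = 1 / 2 := by rw [real_inner_comm]; exact i23
  ext i j
  fin_cases i <;> fin_cases j <;>
    simp only [Gr, G0, ee, Matrix.of_apply, Fin.zero_eta, Fin.mk_one, Fin.reduceFinMk,
      Matrix.cons_val_zero, Matrix.cons_val_one, Matrix.cons_val, i00, i11, i22, i33, i01, i02,
      i12, i03, i13, i23, i10, i20, i21, i30, i31, i32, if_true] <;>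
    norm_num <;> decide

lemma G0_symm : G0.IsSymm := by
  ext i j
  simp only [G0, Matrix.transpose_apply, Matrix.of_apply]
  by_cases h : i = j
  · rw [if_pos h, if_pos h.symm]
  · rw [if_neg h, if_neg (fun h' => h h'.symm)]

lemma tG0 : tG G0 = 0 := by
  unfold tG G0
  simp only [Matrix.of_apply, if_true]
  have h : ∀ i j : Fin 4, (if i = j then (0 : ℝ) else 1 / 2 - (if i = j then 1 else 1 / 2)) = 0 := by
    intro i j
    by_cases h : i = j
    · rw [if_pos h]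
    · rw [if_neg h, if_neg h]; ring
  rw [Finset.sum_eq_zero (fun i _ => by norm_num), Finset.sum_eq_zero (fun i _ =>
    Finset.sum_eq_zero (fun j _ => h i j))]
  norm_num

lemma li_ee (hG4 : SpecG4) : LinearIndependent ℝ ee := by
  apply li
  rw [Gr_ee]
  refine (hG4.main G0 G0_symm ?_ ?_ (by rw [tG0]; norm_num)).1
  · intro i; simp [G0]
  · intro i j hij; simp [G0, hij]

lemma sqrt_pos' : 0 < Real.sqrt (5 / 16) ∧ 0.559 ≤ Real.sqrt (5 / 16) := by
  constructor
  · exact Real.sqrt_pos.2 (by norm_num)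
  · apply Real.le_sqrt_of_sq_le
    norm_num

/-- `s4` as an integral. -/
lemma s4_eq (hGSL : SpecGSL) (hG4 : SpecG4) :
    s4 = (∫⁻ z in A, ENNReal.ofReal (kap 4 *
        Real.sqrt (5 / 3 - q0 z) ^ 4 / Real.sqrt (5 / 16))).toReal := by
  have h := vol_eq hGSL ee (li_ee hG4)
  rw [Gr_ee, hG4.det0] at h
  simp only [hG4.inv0] at h
  unfold s4 v4
  rw [← h]
  rfl

lemma s4_fin (hGSL : SpecGSL) (hG4 : SpecG4) :
    (∫⁻ z in A, ENNReal.ofReal (kap 4 *
        Real.sqrt (5 / 3 - q0 z) ^ 4 / Real.sqrt (5 / 16))) ≠ ⊤ := by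
  have h := vol_eq hGSL ee (li_ee hG4)
  rw [Gr_ee, hG4.det0] at h
  simp only [hG4.inv0] at h
  rw [← h]
  exact fin_vol _ _ _ _

lemma s4_le (hGSL : SpecGSL) (hG4 : SpecG4) (hX4 : SpecX4) : s4 ≤ 527 / 10 ^ 11 := by
  rw [s4_eq hGSL hG4]
  apply ENNReal.toReal_le_of_le_ofReal (by norm_num)
  have hk := kap4
  have hs := sqrt_pos'
  have e : ∀ z : Fin 4 → ℝ, ENNReal.ofReal (kap 4 *
        Real.sqrt (5 / 3 - q0 z) ^ 4 / Real.sqrt (5 / 16)) =
        ENNReal.ofReal (kap 4 / Real.sqrt (5 / 16)) *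
          ENNReal.ofReal (Real.sqrt (5 / 3 - q0 z) ^ 4) := by
    intro z
    rw [← ENNReal.ofReal_mul (by have := hk.1; have := hs.1; positivity)]
    congr 1
    ring
  simp only [e]
  rw [lintegral_const_mul' _ _ ENNReal.ofReal_ne_top]
  calc _ ≤ ENNReal.ofReal (kap 4 / Real.sqrt (5 / 16)) * ENNReal.ofReal (596 / 10 ^ 12) := by
        gcongr
        exact hX4.two
    _ = ENNReal.ofReal (kap 4 / Real.sqrt (5 / 16) * (596 / 10 ^ 12)) := by
        rw [← ENNReal.ofReal_mul (by have := hk.1; have := hs.1; positivity)]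
    _ ≤ _ := by
        apply ENNReal.ofReal_le_ofReal
        have : kap 4 / Real.sqrt (5 / 16) ≤ 8.8283 := by
          rw [div_le_iff₀ hs.1]
          nlinarith [hk.2, hs.2]
        nlinarith

lemma t_nonneg (u : Fin 4 → E) (h1 : ∀ i, ‖u i‖ ≤ 1)
    (h2 : ∀ i j, i ≠ j → (inner ℝ (u i) (u j) : ℝ) ≤ 1 / 2) : 0 ≤ tG (Gr u) := by
  unfold tG Gr
  simp only [Matrix.of_apply]
  apply add_nonneg
  · apply Finset.sum_nonneg
    intro i _
    rw [real_inner_self_eq_norm_sq]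
    have := h1 i
    have := norm_nonneg (u i)
    nlinarith
  · apply mul_nonneg (by norm_num)
    apply Finset.sum_nonneg
    intro i _
    apply Finset.sum_nonneg
    intro j _
    by_cases h : i = j
    · rw [if_pos h]
    · rw [if_neg h]
      linarith [h2 i j h]

/-- Pointwise inequality. -/
lemma ptw {k s d t p0 p : ℝ} (hk : 0 < k) (hs : 0 < s) (hd : 0 < d) (ht : 0 ≤ t)
    (hds : Real.sqrt d ≤ (1 + t) * s) (hp : 0 < p0 → p0 - 613 / 1000 * t ≤ p) :
    k * Real.sqrt p0 ^ 4 / s ≤ (1 + t) * (k * Real.sqrt p ^ 4 / Real.sqrt d) +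
      k / s * (1226 / 1000 * t) * Real.sqrt p0 ^ 2 := by
  have hsd : 0 < Real.sqrt d := Real.sqrt_pos.2 hd
  have h1 : ∀ x : ℝ, Real.sqrt x ^ 4 = max 0 x ^ 2 := by
    intro x
    rcases le_total 0 x with h | h
    · rw [max_eq_right h, show (4 : ℕ) = 2 * 2 by norm_num, pow_mul, Real.sq_sqrt h]
    · rw [Real.sqrt_eq_zero_of_nonpos h, max_eq_left h]; norm_num
  have h2 : Real.sqrt p0 ^ 2 = max 0 p0 := by
    rcases le_total 0 p0 with h | h
    · rw [max_eq_right h, Real.sq_sqrt h]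
    · rw [Real.sqrt_eq_zero_of_nonpos h, max_eq_left h]; norm_num
  rw [h1, h1, h2]
  have h3 : max 0 p0 ^ 2 ≤ max 0 p ^ 2 + 1226 / 1000 * t * max 0 p0 := by
    rcases le_or_gt p0 0 with h | h
    · rw [max_eq_left h]
      have := sq_nonneg (max 0 p)
      nlinarith
    · rw [max_eq_right h.le]
      have h4 := hp h
      rcases le_or_gt 0 (p0 - 613 / 1000 * t) with h5 | h5
      · have h6 : p0 - 613 / 1000 * t ≤ max 0 p := le_trans h4 (le_max_right _ _)
        have h7 := pow_le_pow_left₀ h5 h6 2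
        nlinarith [sq_nonneg t]
      · have := sq_nonneg (max 0 p)
        nlinarith [mul_nonneg ht h.le]
  have h4 : 1 / s ≤ (1 + t) / Real.sqrt d := by
    rw [div_le_div_iff₀ hs hsd]
    linarith
  have h5 : max 0 p ^ 2 / s ≤ (1 + t) * (max 0 p ^ 2 / Real.sqrt d) := by
    have := mul_le_mul_of_nonneg_left h4 (sq_nonneg (max 0 p))
    calc max 0 p ^ 2 / s = max 0 p ^ 2 * (1 / s) := by ring
      _ ≤ max 0 p ^ 2 * ((1 + t) / Real.sqrt d) := this
      _ = _ := by ring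
  have h6 : max 0 p0 ^ 2 / s ≤ (max 0 p ^ 2 + 1226 / 1000 * t * max 0 p0) / s :=
    div_le_div_of_nonneg_right h3 hs.le
  calc k * max 0 p0 ^ 2 / s = k * (max 0 p0 ^ 2 / s) := by ring
    _ ≤ k * ((max 0 p ^ 2 + 1226 / 1000 * t * max 0 p0) / s) :=
        mul_le_mul_of_nonneg_left h6 hk.le
    _ = k * (max 0 p ^ 2 / s) + k / s * (1226 / 1000 * t) * max 0 p0 := by ring
    _ ≤ k * ((1 + t) * (max 0 p ^ 2 / Real.sqrt d)) + k / s * (1226 / 1000 * t) * max 0 p0 := by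
        have := mul_le_mul_of_nonneg_left h5 hk.le
        linarith
    _ = _ := by ring

end V4LM

open V4LM in
theorem specV4L (hGSL : SpecGSL) (hG4 : SpecG4) (hX4 : SpecX4) : SpecV4L := by
  intro u h1 h2
  have hs4 := s4_le hGSL hG4 hX4
  have ht0 := t_nonneg u h1 h2
  have hv0 : 0 ≤ v4 (u 0) (u 1) (u 2) (u 3) := ENNReal.toReal_nonneg
  rcases le_or_gt (tG (Gr u)) (171 / 10000) with ht | ht
  swap
  · have : (527 : ℝ) / 10 ^ 11 ≤ 31 / 10 ^ 8 * (171 / 10000) := by norm_num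
    nlinarith
  have hsym : (Gr u).IsSymm := by
    ext i j
    simp only [Gr, Matrix.transpose_apply, Matrix.of_apply]
    exact real_inner_comm _ _
  have hdg : ∀ i, (Gr u) i i ≤ 1 := by
    intro i
    simp only [Gr, Matrix.of_apply]
    rw [real_inner_self_eq_norm_sq]
    have := h1 i
    have := norm_nonneg (u i)
    nlinarith
  obtain ⟨m1, m2, m3, m4⟩ := hG4.main (Gr u) hsym hdg (fun i j hij => h2 i j hij) ht
  have hli := li u m1
  have hvol := vol_eq hGSL u hli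
  obtain ⟨t, htt⟩ : ∃ t, t = tG (Gr u) := ⟨_, rfl⟩
  rw [← htt] at ht ht0 m3 m4 ⊢
  have hk := kap4
  have hs := sqrt_pos'
  set S : ENNReal := ∫⁻ z in A, ENNReal.ofReal (kap 4 *
        Real.sqrt (5 / 3 - q0 z) ^ 4 / Real.sqrt (5 / 16)) with hS
  set V : ENNReal := ∫⁻ z in A, ENNReal.ofReal (kap 4 *
        Real.sqrt (5 / 3 - z ⬝ᵥ ((Gr u)⁻¹.mulVec z)) ^ 4 / Real.sqrt (Gr u).det) with hV
  have hVfin : V ≠ ⊤ := by rw [← hvol]; exact fin_vol _ _ _ _
  have hcn : 0 ≤ kap 4 / Real.sqrt (5 / 16) * (1226 / 1000 * t) := by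
    have := hk.1
    have := hs.1
    positivity
  have key : S ≤ ENNReal.ofReal (1 + t) * V +
      ENNReal.ofReal (kap 4 / Real.sqrt (5 / 16) * (1226 / 1000 * t)) *
        ENNReal.ofReal (268 / 10 ^ 10) := by
    calc S ≤ ∫⁻ z in A, (ENNReal.ofReal (1 + t) * ENNReal.ofReal (kap 4 *
          Real.sqrt (5 / 3 - z ⬝ᵥ ((Gr u)⁻¹.mulVec z)) ^ 4 / Real.sqrt (Gr u).det) +
          ENNReal.ofReal (kap 4 / Real.sqrt (5 / 16) * (1226 / 1000 * t)) *
            ENNReal.ofReal (Real.sqrt (5 / 3 - q0 z) ^ 2)) := by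
          rw [hS]
          apply setLIntegral_mono' measA
          intro z hz
          rw [← ENNReal.ofReal_mul (by linarith), ← ENNReal.ofReal_mul hcn,
            ← ENNReal.ofReal_add]
          · apply ENNReal.ofReal_le_ofReal
            apply ptw hk.1 hs.1 m2 ht0 m3
            intro hp
            have := m4 z hz (by linarith)
            linarith
          · have := hk.1
            positivity
          · positivity
      _ = ENNReal.ofReal (1 + t) * V +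
          ENNReal.ofReal (kap 4 / Real.sqrt (5 / 16) * (1226 / 1000 * t)) *
          ∫⁻ z in A, ENNReal.ofReal (Real.sqrt (5 / 3 - q0 z) ^ 2) := by
          have hm : Measurable fun z : Fin 4 → ℝ =>
              ENNReal.ofReal (kap 4 / Real.sqrt (5 / 16) * (1226 / 1000 * t)) *
                ENNReal.ofReal (Real.sqrt (5 / 3 - q0 z) ^ 2) := by
            unfold q0
            fun_prop
          rw [lintegral_add_right _ hm, lintegral_const_mul' _ _ ENNReal.ofReal_ne_top,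
            lintegral_const_mul' _ _ ENNReal.ofReal_ne_top]
      _ ≤ _ := by
          gcongr
          exact hX4.one
  have hreal : s4 ≤ (1 + t) * v4 (u 0) (u 1) (u 2) (u 3) +
      kap 4 / Real.sqrt (5 / 16) * (1226 / 1000 * t) * (268 / 10 ^ 10) := by
    have e1 : v4 (u 0) (u 1) (u 2) (u 3) = V.toReal := by
      unfold v4
      rw [hvol]
    rw [s4_eq hGSL hG4, e1]
    have hne : ENNReal.ofReal (1 + t) * V +
      ENNReal.ofReal (kap 4 / Real.sqrt (5 / 16) * (1226 / 1000 * t)) *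
        ENNReal.ofReal (268 / 10 ^ 10) ≠ ⊤ := by
      apply ENNReal.add_ne_top.2
      exact ⟨ENNReal.mul_ne_top ENNReal.ofReal_ne_top hVfin,
        ENNReal.mul_ne_top ENNReal.ofReal_ne_top ENNReal.ofReal_ne_top⟩
    have := ENNReal.toReal_mono hne key
    rw [ENNReal.toReal_add (ENNReal.mul_ne_top ENNReal.ofReal_ne_top hVfin)
      (ENNReal.mul_ne_top ENNReal.ofReal_ne_top ENNReal.ofReal_ne_top), ENNReal.toReal_mul,
      ENNReal.toReal_mul, ENNReal.toReal_ofReal (by linarith), ENNReal.toReal_ofReal hcn,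
      ENNReal.toReal_ofReal (by norm_num)] at this
    exact this
  have hc : kap 4 / Real.sqrt (5 / 16) ≤ 8.8283 := by
    rw [div_le_iff₀ hs.1]
    nlinarith [hk.2, hs.2]
  have hc2 : kap 4 / Real.sqrt (5 / 16) * (1226 / 1000 * t) * (268 / 10 ^ 10) ≤
      2902 / 10 ^ 10 * t := by
    have : kap 4 / Real.sqrt (5 / 16) * t ≤ 8.8283 * t := mul_le_mul_of_nonneg_right hc ht0
    nlinarith
  rcases le_or_gt s4 (v4 (u 0) (u 1) (u 2) (u 3)) with h | h
  · have : 0 ≤ 31 / 10 ^ 8 * t := by positivity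
    linarith
  · have h3 : t * v4 (u 0) (u 1) (u 2) (u 3) ≤ t * (527 / 10 ^ 11) :=
      mul_le_mul_of_nonneg_left (by linarith) ht0
    nlinarith

end Pool.Agent.Lib.MP_f1379f_gt.FV
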