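import Pool.Agent.Lib.MP_f1379f_gt.FV.SpecS4
import Pool.Agent.Lib.MP_f1379f_gt.FV.TRP
import Pool.Agent.Lib.MP_f1379f_gt.FV.X4
import Pool.Agent.Lib.MP_f1379f_gt.FV.V4L
import Pool.Agent.Lib.MP_f1379f_gt.FV.CQ4
import Pool.Agent.Lib.MP_f1379f_gt.FV.HLB

section
/-!
# MP_f1379f_gt, block S4, module G4: Gram matrices near (I + J)/2
-/
set_option autoImplicit false
set_option linter.unusedSimpArgs false
set_option linter.unreachableTactic false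
set_option linter.unusedTactic false

namespace Pool.Agent.Lib.MP_f1379f_gt.FV

open Matrix

namespace G4M

/-- the inverse of G0 -/
noncomputable def H0 : Matrix (Fin 4) (Fin 4) ℝ :=
  Matrix.of fun i j => if i = j then 8 / 5 else -2 / 5

theorem mul_H0 : G0 * H0 = 1 := by
  ext i j
  fin_cases i <;> fin_cases j <;> simp [G0, H0, Matrix.mul_apply, Fin.sum_univ_four] <;> norm_num

theorem inv_G0 : G0⁻¹ = H0 := Matrix.inv_eq_right_inv mul_H0

theorem det_G0 : G0.det = 5 / 16 := by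
  rw [Matrix.det_succ_row_zero]
  simp [Fin.sum_univ_four, Matrix.det_fin_three, G0, Matrix.submatrix_apply, Fin.succAbove]
  norm_num

theorem inv0 (z : Fin 4 → ℝ) : z ⬝ᵥ (G0⁻¹.mulVec z) = q0 z := by
  rw [inv_G0]
  simp only [dotProduct, mulVec, H0, q0, Fin.sum_univ_four, Matrix.of_apply]
  simp
  ring

/-- the symmetric square root of H0 -/
noncomputable def B0 : Matrix (Fin 4) (Fin 4) ℝ :=
  Matrix.of fun i j => (if i = j then Real.sqrt 2 else 0) - (Real.sqrt 2 - Real.sqrt (2 / 5)) / 4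

theorem sq_B0 : B0 * B0 = H0 := by
  have h1 : Real.sqrt 2 ^ 2 = 2 := Real.sq_sqrt (by norm_num)
  have h2 : Real.sqrt (2 / 5) ^ 2 = 2 / 5 := Real.sq_sqrt (by norm_num)
  have key : ∀ i j : Fin 4, (B0 * B0) i j =
      (if i = j then Real.sqrt 2 ^ 2 else 0) - (Real.sqrt 2 ^ 2 - Real.sqrt (2 / 5) ^ 2) / 4 := by
    intro i j
    fin_cases i <;> fin_cases j <;> simp [B0, Matrix.mul_apply, Fin.sum_univ_four] <;> ring_nf <;>
      simp [h1, h2] <;> ring_nf <;> simp [h1, h2] <;> norm_num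
  ext i j
  rw [key, h1, h2]
  simp only [H0, Matrix.of_apply]
  split_ifs <;> norm_num

theorem B0_herm : B0ᴴ = B0 := by
  ext i j
  simp [B0, Matrix.conjTranspose_apply, eq_comm]

/-- the deficit matrix -/
noncomputable def KK (G : Matrix (Fin 4) (Fin 4) ℝ) : Matrix (Fin 4) (Fin 4) ℝ :=
  Matrix.of fun i j => G0 i j - G i j

theorem tG_eq (G : Matrix (Fin 4) (Fin 4) ℝ) : 2 * tG G = ∑ i, ∑ j, KK G i j := by
  simp [tG, KK, G0, Fin.sum_univ_four]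
  ring

/-- quadratic form bound -/
theorem qf_le (K : Matrix (Fin 4) (Fin 4) ℝ) (hK : ∀ i j, 0 ≤ K i j) (c : Fin 4 → ℝ) :
    c ⬝ᵥ (K.mulVec c) ≤ (∑ i, ∑ j, K i j) * ∑ i, c i ^ 2 := by
  have h0 : ∀ i : Fin 4, c i ^ 2 ≤ ∑ k, c k ^ 2 := fun i =>
    Finset.single_le_sum (f := fun k => c k ^ 2) (fun _ _ => sq_nonneg _) (Finset.mem_univ i)
  simp only [dotProduct, mulVec]
  rw [Finset.sum_mul]
  refine Finset.sum_le_sum fun i _ => ?_
  rw [Finset.mul_sum, Finset.sum_mul]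
  refine Finset.sum_le_sum fun j _ => ?_
  have h1 : c i * c j ≤ ∑ k, c k ^ 2 := by
    nlinarith [h0 i, h0 j, sq_nonneg (c i - c j)]
  calc c i * (K i j * c j) = K i j * (c i * c j) := by ring
    _ ≤ K i j * ∑ k, c k ^ 2 := mul_le_mul_of_nonneg_left h1 (hK i j)

theorem qf_split (G : Matrix (Fin 4) (Fin 4) ℝ) (c : Fin 4 → ℝ) :
    c ⬝ᵥ (G.mulVec c) = 1 / 2 * ∑ i, c i ^ 2 + 1 / 2 * (∑ i, c i) ^ 2 - c ⬝ᵥ ((KK G).mulVec c) := by
  simp [dotProduct, mulVec, KK, G0, Fin.sum_univ_four]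
  ring

theorem KK_nonneg (G : Matrix (Fin 4) (Fin 4) ℝ) (h1 : ∀ i, G i i ≤ 1)
    (h2 : ∀ i j, i ≠ j → G i j ≤ 1 / 2) (i j : Fin 4) : 0 ≤ KK G i j := by
  simp only [KK, G0, Matrix.of_apply]
  split_ifs with h
  · subst h; linarith [h1 i]
  · linarith [h2 i j h]

theorem tG_nonneg (G : Matrix (Fin 4) (Fin 4) ℝ) (h1 : ∀ i, G i i ≤ 1)
    (h2 : ∀ i j, i ≠ j → G i j ≤ 1 / 2) : 0 ≤ tG G := by
  have h := tG_eq G
  have h3 : 0 ≤ ∑ i, ∑ j, KK G i j :=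
    Finset.sum_nonneg fun i _ => Finset.sum_nonneg fun j _ => KK_nonneg G h1 h2 i j
  linarith

theorem pd (G : Matrix (Fin 4) (Fin 4) ℝ) (h1 : ∀ i, G i i ≤ 1)
    (h2 : ∀ i j, i ≠ j → G i j ≤ 1 / 2) (ht : tG G ≤ 171 / 10000) (c : Fin 4 → ℝ) :
    465 / 1000 * ∑ i, c i ^ 2 ≤ c ⬝ᵥ (G.mulVec c) := by
  have h3 := qf_le (KK G) (KK_nonneg G h1 h2) c
  rw [← tG_eq] at h3
  rw [qf_split G c]
  have h4 : 0 ≤ ∑ i, c i ^ 2 := Finset.sum_nonneg fun _ _ => sq_nonneg _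
  nlinarith [sq_nonneg (∑ i, c i)]

theorem herm (G : Matrix (Fin 4) (Fin 4) ℝ) (hs : G.IsSymm) : G.IsHermitian := by
  rw [Matrix.IsHermitian, Matrix.conjTranspose_eq_transpose_of_trivial]
  exact hs

theorem posDef (G : Matrix (Fin 4) (Fin 4) ℝ) (hs : G.IsSymm) (h1 : ∀ i, G i i ≤ 1)
    (h2 : ∀ i j, i ≠ j → G i j ≤ 1 / 2) (ht : tG G ≤ 171 / 10000) : G.PosDef := by
  refine Matrix.PosDef.of_dotProduct_mulVec_pos (herm G hs) fun x hx => ?_
  rw [star_trivial]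
  refine lt_of_lt_of_le ?_ (pd G h1 h2 ht x)
  have : 0 < ∑ i, x i ^ 2 := by
    obtain ⟨i, hi⟩ := Function.ne_iff.1 hx
    have hi' : 0 < x i ^ 2 := by
      have : x i ≠ 0 := hi
      positivity
    exact lt_of_lt_of_le hi' (Finset.single_le_sum (f := fun k => x k ^ 2)
      (fun _ _ => sq_nonneg _) (Finset.mem_univ i))
  linarith

theorem amgm4 (a b c d : ℝ) (ha : 0 ≤ a) (hb : 0 ≤ b) (hc : 0 ≤ c) (hd : 0 ≤ d) :
    a * b * c * d ≤ ((a + b + c + d) / 4) ^ 4 := by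
  have e1 : a * b ≤ ((a + b) / 2) ^ 2 := by nlinarith [sq_nonneg (a - b)]
  have e2 : c * d ≤ ((c + d) / 2) ^ 2 := by nlinarith [sq_nonneg (c - d)]
  have e3 : (a + b) / 2 * ((c + d) / 2) ≤ ((a + b + c + d) / 4) ^ 2 := by
    nlinarith [sq_nonneg ((a + b) - (c + d))]
  have e4 : 0 ≤ (a + b) / 2 * ((c + d) / 2) := by positivity
  calc a * b * c * d = (a * b) * (c * d) := by ring
    _ ≤ ((a + b) / 2) ^ 2 * ((c + d) / 2) ^ 2 := by
        apply mul_le_mul e1 e2 (by positivity) (by positivity)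
    _ = ((a + b) / 2 * ((c + d) / 2)) ^ 2 := by ring
    _ ≤ (((a + b + c + d) / 4) ^ 2) ^ 2 := by
        apply pow_le_pow_left₀ e4 e3
    _ = ((a + b + c + d) / 4) ^ 4 := by ring

theorem det_le_trace (M : Matrix (Fin 4) (Fin 4) ℝ) (hM : M.PosSemidef) :
    M.det ≤ (M.trace / 4) ^ 4 ∧ 0 ≤ M.trace := by
  have h0 := hM.eigenvalues_nonneg
  have h1 := hM.1.det_eq_prod_eigenvalues
  have h2 := hM.1.trace_eq_sum_eigenvalues
  simp only [RCLike.ofReal_real_eq_id, id_eq] at h1 h2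
  rw [h1, h2]
  constructor
  · rw [Fin.prod_univ_four, Fin.sum_univ_four]
    exact amgm4 _ _ _ _ (h0 0) (h0 1) (h0 2) (h0 3)
  · exact Finset.sum_nonneg fun i _ => h0 i

theorem trace_le (G : Matrix (Fin 4) (Fin 4) ℝ) (h1 : ∀ i, G i i ≤ 1) :
    (H0 * G).trace ≤ 4 + 4 / 5 * tG G := by
  have e : (H0 * G).trace = 4 + 4 / 5 * tG G - 2 * ∑ i, (1 - G i i) := by
    simp [Matrix.trace, H0, Matrix.mul_apply, Fin.sum_univ_four, tG]
    ring
  rw [e]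
  have : 0 ≤ ∑ i, (1 - G i i) := Finset.sum_nonneg fun i _ => by linarith [h1 i]
  linarith

theorem det_le (G : Matrix (Fin 4) (Fin 4) ℝ) (hs : G.IsSymm) (h1 : ∀ i, G i i ≤ 1)
    (h2 : ∀ i j, i ≠ j → G i j ≤ 1 / 2) (ht : tG G ≤ 171 / 10000) :
    G.det ≤ 5 / 16 * (1 + tG G / 5) ^ 4 := by
  have hG := (posDef G hs h1 h2 ht).posSemidef
  have hM := hG.conjTranspose_mul_mul_same B0
  rw [B0_herm] at hM
  obtain ⟨h3, h4⟩ := det_le_trace _ hM
  have e1 : (B0 * G * B0).trace = (H0 * G).trace := by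
    rw [Matrix.trace_mul_comm, ← mul_assoc, sq_B0]
  have e2 : (B0 * G * B0).det = 16 / 5 * G.det := by
    have hd : B0.det * B0.det = 16 / 5 := by
      rw [← Matrix.det_mul, sq_B0]
      have h5 : G0.det * H0.det = 1 := by rw [← Matrix.det_mul, mul_H0, Matrix.det_one]
      rw [det_G0] at h5
      linarith
    rw [Matrix.det_mul, Matrix.det_mul]
    calc B0.det * G.det * B0.det = (B0.det * B0.det) * G.det := by ring
      _ = _ := by rw [hd]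
  rw [e1] at h3 h4
  rw [e2] at h3
  have h5 : ((H0 * G).trace / 4) ^ 4 ≤ (1 + tG G / 5) ^ 4 := by
    apply pow_le_pow_left₀ (by linarith)
    linarith [trace_le G h1]
  linarith

/-- the vector `G0⁻¹ z` -/
noncomputable def xx (z : Fin 4 → ℝ) : Fin 4 → ℝ := fun i => 2 * z i - 2 / 5 * ∑ k, z k

theorem dot_xx (z : Fin 4 → ℝ) : z ⬝ᵥ xx z = q0 z := by
  simp only [dotProduct, xx, q0, Fin.sum_univ_four]
  ring

theorem G_xx (G : Matrix (Fin 4) (Fin 4) ℝ) (z : Fin 4 → ℝ) :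
    G.mulVec (xx z) = z - (KK G).mulVec (xx z) := by
  ext i
  fin_cases i <;> simp [mulVec, dotProduct, KK, G0, xx, Fin.sum_univ_four] <;> ring

theorem xx_bd (z : Fin 4 → ℝ) (hz : ∀ i, 1 < z i) (hq : q0 z < 5 / 3) (i : Fin 4) :
    0 < xx z i ∧ xx z i < 8 / 15 := by
  have a0 := hz 0
  have a1 := hz 1
  have a2 := hz 2
  have a3 := hz 3
  have hS : z 0 + z 1 + z 2 + z 3 < 4 + 1 / 12 := by
    have e : q0 z = 8 / 5 + 4 / 5 * (z 0 + z 1 + z 2 + z 3 - 4)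
        + 2 * ((z 0 - 1) ^ 2 + (z 1 - 1) ^ 2 + (z 2 - 1) ^ 2 + (z 3 - 1) ^ 2)
        - 2 / 5 * (z 0 + z 1 + z 2 + z 3 - 4) ^ 2 := by
      simp only [q0, Fin.sum_univ_four]
      ring
    have e2 : (z 0 + z 1 + z 2 + z 3 - 4) ^ 2 ≤
        4 * ((z 0 - 1) ^ 2 + (z 1 - 1) ^ 2 + (z 2 - 1) ^ 2 + (z 3 - 1) ^ 2) := by
      nlinarith [sq_nonneg ((z 0 - 1) - (z 1 - 1)), sq_nonneg ((z 0 - 1) - (z 2 - 1)),
        sq_nonneg ((z 0 - 1) - (z 3 - 1)), sq_nonneg ((z 1 - 1) - (z 2 - 1)),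
        sq_nonneg ((z 1 - 1) - (z 3 - 1)), sq_nonneg ((z 2 - 1) - (z 3 - 1))]
    have e3 : 0 ≤ (z 0 - 1) ^ 2 + (z 1 - 1) ^ 2 + (z 2 - 1) ^ 2 + (z 3 - 1) ^ 2 := by positivity
    rw [e] at hq
    linarith
  have hi : z i - 1 ≤ ∑ k, (z k - 1) :=
    Finset.single_le_sum (f := fun k => z k - 1) (fun k _ => by linarith [hz k])
      (Finset.mem_univ i)
  have hi0 := hz i
  simp only [Fin.sum_univ_four] at hi
  simp only [xx, Fin.sum_univ_four]
  constructor <;> linarith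

theorem inv_le (G : Matrix (Fin 4) (Fin 4) ℝ) (hs : G.IsSymm) (h1 : ∀ i, G i i ≤ 1)
    (h2 : ∀ i j, i ≠ j → G i j ≤ 1 / 2) (ht : tG G ≤ 171 / 10000) (z : Fin 4 → ℝ)
    (hz : ∀ i, 1 < z i) (hq : q0 z < 5 / 3) :
    z ⬝ᵥ (G⁻¹.mulVec z) ≤ q0 z + 613 / 1000 * tG G := by
  have hdet : 0 < G.det := (posDef G hs h1 h2 ht).det_pos
  have hu : IsUnit G.det := isUnit_iff_ne_zero.2 hdet.ne'
  have hK := KK_nonneg G h1 h2
  have ht0 := tG_nonneg G h1 h2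
  have htK := tG_eq G
  set w := G⁻¹.mulVec z with hw
  have hGw : G.mulVec w = z := by
    rw [hw, Matrix.mulVec_mulVec, Matrix.mul_nonsing_inv G hu, Matrix.one_mulVec]
  set x := xx z with hx
  set y := (KK G).mulVec x with hy
  have hb := xx_bd z hz hq
  rw [← hx] at hb
  set d := w - x with hd
  have hGd : G.mulVec d = y := by
    rw [hd, Matrix.mulVec_sub, hGw, hx, G_xx G z, ← hx, ← hy]
    simp
  have e1 : z ⬝ᵥ w = q0 z + x ⬝ᵥ y + d ⬝ᵥ y := by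
    have e2 : w = x + d := by rw [hd]; abel
    have e3 : z ⬝ᵥ d = w ⬝ᵥ y := by
      rw [← hGd, Matrix.dotProduct_mulVec, ← hGw]
      congr 1
      rw [← Matrix.vecMul_transpose, hs]
    have e4 : z ⬝ᵥ w = z ⬝ᵥ x + z ⬝ᵥ d := by
      rw [← dotProduct_add, ← e2]
    rw [e4, e3, hx, dot_xx, ← hx]
    have e5 : w ⬝ᵥ y = x ⬝ᵥ y + d ⬝ᵥ y := by
      rw [← add_dotProduct, ← e2]
    rw [e5]
    ring
  -- the middle term
  have m1 : x ⬝ᵥ y ≤ 64 / 225 * (2 * tG G) := by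
    rw [htK, hy]
    simp only [dotProduct, mulVec]
    rw [Finset.mul_sum]
    refine Finset.sum_le_sum fun i _ => ?_
    rw [Finset.mul_sum, Finset.mul_sum]
    refine Finset.sum_le_sum fun j _ => ?_
    have h5 : x i * x j ≤ 64 / 225 := by
      nlinarith [(hb i).1, (hb i).2, (hb j).1, (hb j).2]
    calc x i * (KK G i j * x j) = KK G i j * (x i * x j) := by ring
      _ ≤ KK G i j * (64 / 225) := mul_le_mul_of_nonneg_left h5 (hK i j)
      _ = _ := by ring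
  -- the vector y
  have y0 : ∀ i, 0 ≤ y i := by
    intro i
    rw [hy]
    have h10 : 0 ≤ ∑ j, KK G i j * x j :=
      Finset.sum_nonneg fun j _ => mul_nonneg (hK i j) (hb j).1.le
    exact h10
  have ys : ∑ i, y i ≤ 8 / 15 * (2 * tG G) := by
    rw [htK, hy]
    simp only [mulVec, dotProduct]
    rw [Finset.mul_sum]
    refine Finset.sum_le_sum fun i _ => ?_
    rw [Finset.mul_sum]
    refine Finset.sum_le_sum fun j _ => ?_
    have := mul_le_mul_of_nonneg_left (hb j).2.le (hK i j)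
    linarith
  have y2 : ∑ i, y i ^ 2 ≤ (∑ i, y i) ^ 2 := by
    have c0 := y0 0
    have c1 := y0 1
    have c2 := y0 2
    have c3 := y0 3
    simp only [Fin.sum_univ_four]
    nlinarith [mul_nonneg c0 c1, mul_nonneg c0 c2, mul_nonneg c0 c3, mul_nonneg c1 c2,
      mul_nonneg c1 c3, mul_nonneg c2 c3]
  have y3 : ∑ i, y i ^ 2 ≤ 256 / 225 * tG G ^ 2 := by
    have h6 : 0 ≤ ∑ i, y i := Finset.sum_nonneg fun i _ => y0 i
    have h7 : (∑ i, y i) ^ 2 ≤ (8 / 15 * (2 * tG G)) ^ 2 := pow_le_pow_left₀ h6 ys 2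
    calc ∑ i, y i ^ 2 ≤ (∑ i, y i) ^ 2 := y2
      _ ≤ (8 / 15 * (2 * tG G)) ^ 2 := h7
      _ = _ := by ring
  -- the last term
  have d1 : 465 / 1000 * ∑ i, d i ^ 2 ≤ d ⬝ᵥ y := by
    rw [← hGd]
    exact pd G h1 h2 ht d
  have d2 : 465 / 1000 * (d ⬝ᵥ y) ≤ ∑ i, y i ^ 2 := by
    have h8 : 0 ≤ ∑ i, (465 / 1000 * d i - y i) ^ 2 := Finset.sum_nonneg fun _ _ => sq_nonneg _
    have h9 : ∑ i, (465 / 1000 * d i - y i) ^ 2 =
        465 / 1000 * (465 / 1000 * ∑ i, d i ^ 2) - 2 * (465 / 1000) * (d ⬝ᵥ y) + ∑ i, y i ^ 2 := by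
      simp only [dotProduct, Fin.sum_univ_four]
      ring
    rw [h9] at h8
    linarith
  rw [e1]
  nlinarith

end G4M

open G4M in
theorem specG4 : SpecG4 := by
  refine ⟨inv0, det_G0, ?_⟩
  intro G hs h1 h2 ht
  have ht0 := tG_nonneg G h1 h2
  have hdet : 0 < G.det := (posDef G hs h1 h2 ht).det_pos
  refine ⟨?_, hdet, ?_, fun z hz hq => inv_le G hs h1 h2 ht z hz hq⟩
  · intro c
    have h := pd G h1 h2 ht c
    have h4 : 0 ≤ ∑ i, c i ^ 2 := Finset.sum_nonneg fun _ _ => sq_nonneg _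
    linarith
  · have h := det_le G hs h1 h2 ht
    have h3 : (1 + tG G / 5) ^ 4 ≤ (1 + tG G) ^ 2 := by
      have h5 : (1 + tG G / 5) ^ 2 ≤ 1 + tG G := by nlinarith
      calc (1 + tG G / 5) ^ 4 = ((1 + tG G / 5) ^ 2) ^ 2 := by ring
        _ ≤ (1 + tG G) ^ 2 := pow_le_pow_left₀ (by positivity) h5 2
    have h6 : G.det ≤ (1 + tG G) ^ 2 * (5 / 16) := by linarith
    calc Real.sqrt G.det ≤ Real.sqrt ((1 + tG G) ^ 2 * (5 / 16)) := Real.sqrt_le_sqrt h6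
      _ = (1 + tG G) * Real.sqrt (5 / 16) := by
        rw [Real.sqrt_mul (by positivity), Real.sqrt_sq (by linarith)]

end Pool.Agent.Lib.MP_f1379f_gt.FV
end

section
/-!
# S4F: final form of block S4 (from IEX, LNK, CQ4)
-/
set_option autoImplicit false

namespace Pool.Agent.Lib.MP_f1379f_gt.FV

open MeasureTheory

theorem specS4F (hIEX : SpecIEX) (hLNK : SpecLNK) (hCQ4 : SpecCQ4) : SpecS4F := by
  intro U u hU hmem hinj
  have h1 : ∀ e ∈ UE, ‖u e‖ ≤ 1 := fun e he => hU.le_one _ (hmem e he)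
  have h2 : ∀ e ∈ UE, ∀ f ∈ UE, e ≠ f → (inner ℝ (u e) (u f) : ℝ) ≤ 1 / 2 := by
    intro e he f hf hef
    have hne : u e ≠ u f := fun h => hef (hinj he hf h)
    have h3 := hU.sep _ (hmem e he) _ (hmem f hf) hne
    have h4 : 0 ≤ 1 - ‖u e‖ ^ 2 := by
      have := h1 e he
      have h5 := norm_nonneg (u e)
      nlinarith
    have h5 : 0 ≤ 1 - ‖u f‖ ^ 2 := by
      have := h1 f hf
      have h6 := norm_nonneg (u f)
      nlinarith
    have h6 := mul_nonneg h4 h5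
    nlinarith
  have h3 := hCQ4 U u hmem hinj h1 h2
  have key : ∑ v ∈ U, ∑ w ∈ U.erase v, max 0 (v2 v w - 9 * s3) ≤ S23 U := by
    refine Finset.sum_le_sum fun v hv => Finset.sum_le_sum fun w hw => ?_
    rw [Finset.mem_erase] at hw
    have h := hLNK U hU v hv w hw.2 (Ne.symm hw.1)
    refine max_le (hIEX.pos U hU v hv w hw.2 (Ne.symm hw.1)) ?_
    linarith
  rw [hIEX.id U hU]
  linarith

end Pool.Agent.Lib.MP_f1379f_gt.FV
end

section
/-!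
# MP_f1379f_gt, full Q1: assembly of block S4 (row 231) and of MKF
-/
set_option autoImplicit false

namespace Pool.Agent.Lib.MP_f1379f_gt.FV.AllS

theorem hG4 : SpecG4 := specG4
theorem hX4 : SpecX4 := specX4
theorem hV4L : SpecV4L := specV4L AllA.hGSL hG4 hX4
theorem hCQ4 : SpecCQ4 := specCQ4 AllO.hUEF hV4L
theorem hS4F : SpecS4F := specS4F AllA.hIEX AllA.hLNK hCQ4

theorem hMKF (δ : E → E) (hδ : ∀ e ∈ UE, (inner ℝ (δ e) e : ℝ) = 0) :
    6 * ∑ e ∈ UE, ‖δ e‖ ^ 2 - (1 / 10) * ∑ e ∈ UE, ∑ f ∈ UE,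
        ((inner ℝ e f : ℝ) * inner ℝ (δ e) (δ f) - (inner ℝ (δ e) f : ℝ) * inner ℝ (δ f) e) ≤
      ∑ e ∈ UE, ∑ f ∈ nb e, ((inner ℝ (δ e) f : ℝ) + inner ℝ e (δ f)) ^ 2 :=
  mkf AllO.hUEF EV.All.hROT EV.All.hPOL δ hδ

end Pool.Agent.Lib.MP_f1379f_gt.FV.AllS
end
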