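import Pool.Agent.Lib.MP_f1379f_gt.FV.L1C

/-!
# MP_f1379f_gt, (L1), part D: the quartic sum, row by row
-/

set_option autoImplicit false

namespace Pool.Agent.Lib.MP_f1379f_gt.FV.L1M

open Finset

theorem hGBA : SpecGBA := specGBA AllO.hUEF EV.All.hROT EV.All.hPOL

variable {u : E → E}

/-- Displacement of the contacts. -/
noncomputable def NN1 (u : E → E) (e : E) : ℝ := ∑ f ∈ nb e, ‖u f - f‖ ^ 2

/-- Displacement of the non-contacts. -/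
noncomputable def cc (u : E → E) (e : E) : ℝ := ∑ f ∈ nc e, ‖u f - f‖ ^ 2

theorem cc_nonneg (e : E) : 0 ≤ cc u e := sum_nonneg fun _ _ => sq_nonneg _

theorem gS_split (e : E) (he : e ∈ UE) : gS u = ‖u e - e‖ ^ 2 + NN1 u e + cc u e :=
  split e he fun f => ‖u f - f‖ ^ 2

theorem pair_sq {g β X Y : ℝ} (hX : 0 ≤ X) (hY : 0 ≤ Y) (hβ : 0 ≤ β) (h1 : g - β ≤ X)
    (h2 : -g - β ≤ Y) : 7 / 10 * g ^ 2 - 7 / 3 * β ^ 2 ≤ X ^ 2 + Y ^ 2 := by
  have key : ∀ a Z : ℝ, 0 ≤ a → 0 ≤ Z → a - β ≤ Z → 7 / 10 * a ^ 2 - 7 / 3 * β ^ 2 ≤ Z ^ 2 := by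
    intro a Z ha hZ h
    by_cases hab : β ≤ a
    · have h3 : (a - β) ^ 2 ≤ Z ^ 2 := pow_le_pow_left₀ (by linarith) h 2
      nlinarith [sq_nonneg (a - 10 / 3 * β)]
    · push Not at hab
      nlinarith [sq_nonneg Z]
  by_cases hg : 0 ≤ g
  · have := key g X hg hX h1
    nlinarith [sq_nonneg Y]
  · push Not at hg
    have := key (-g) Y (by linarith) hY h2
    nlinarith [sq_nonneg X]

/-- The displacement of a contact is at least the overlap. -/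
theorem contact_disp (hu : CFG u) {e f : E} (he : e ∈ UE) (hf : f ∈ nb e) :
    (inner ℝ (del u e) f : ℝ) - lam u e / 2 ≤ ‖u f - f‖ := by
  have hfU := UMO.nb_UE hf
  have hef : e ≠ f := by
    intro h
    rw [← h] at hf
    exact e_nb e he hf
  have h1 := hGBA.w2 u hu e he f hfU hef
  have h2 := hGBA.r0 u hu e he
  have h3 := hGBA.r0 u hu f hfU
  have h4 : 0 ≤ gw u e f := by
    have := mul_nonneg h2 h3
    linarith
  unfold gw at h4
  have h5 : (inner ℝ (u e) (u f) : ℝ) = inner ℝ (u e) (u f - f) + inner ℝ (u e) f := by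
    rw [inner_sub_right]; ring
  have h6 : (inner ℝ (u e) f : ℝ) = inner ℝ (u e - e) f + 1 / 2 := by
    rw [inner_sub_left, real_inner_comm f e, UMO.nb_ip hf]; ring
  have h7 : (inner ℝ (del u e) f : ℝ) = inner ℝ (u e - e) f + lam u e / 2 := by
    unfold del
    rw [inner_add_left, real_inner_smul_left, real_inner_comm f e, UMO.nb_ip hf]; ring
  have h8 := abs_real_inner_le_norm (u e) (u f - f)
  have h9 : ‖u e‖ * ‖u f - f‖ ≤ 1 * ‖u f - f‖ := by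
    have := hu.le_one e he
    gcongr
  have h10 := neg_abs_le (inner ℝ (u e) (u f - f) : ℝ)
  linarith

theorem NN_ge (hu : CFG u) {e : E} (he : e ∈ UE) :
    21 / 10 * ‖del u e‖ ^ 2 - 49 / 3 * lam u e ^ 2 ≤ NN1 u e := by
  have hl : 0 ≤ lam u e := by
    rw [hGBA.bet u e he]
    have := hGBA.r0 u hu e he
    positivity
  have h1 : ∀ f ∈ nb e, 7 / 10 * (inner ℝ (del u e) f : ℝ) ^ 2 - 7 / 3 * (lam u e / 2) ^ 2 ≤
      ‖u f - f‖ ^ 2 + ‖u (e - f) - (e - f)‖ ^ 2 := by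
    intro f hf
    have h2 := contact_disp hu he hf
    have h3 := contact_disp hu he (UMO.nb_sub he hf)
    rw [inner_sub_right, hGBA.orth u e he] at h3
    exact pair_sq (norm_nonneg _) (norm_nonneg _) (by positivity) h2 (by linarith)
  have h4 := sum_le_sum h1
  rw [sum_sub_distrib, ← mul_sum, UMO.n2 e he _ (hGBA.orth u e he), sum_const,
    AllO.hUEF.c56 e he, sum_add_distrib, UMO.nb_inv e he (fun f => ‖u f - f‖ ^ 2),
    nsmul_eq_mul] at h4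
  unfold NN1
  push_cast at h4
  linarith

theorem cc_le (hu : CFG u) {e : E} (he : e ∈ UE) :
    cc u e ≤ gS u - 31 / 10 * ‖u e - e‖ ^ 2
      + 553 / 30 * (gr u e + ‖u e - e‖ ^ 2 / 2) ^ 2 := by
  have h1 := gS_split (u := u) e he
  have h2 := NN_ge hu he
  have h3 := hGBA.pyth u e he
  have h4 := hGBA.bet u e he
  rw [← h4]
  linarith

/-- One term of the row sum. -/
noncomputable def tt (u : E → E) (e f : E) : ℝ :=
  2 * (inner ℝ (u e - e) (hh u f) : ℝ) ^ 4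
    + 8 * (|(inner ℝ (u e - e) (hh u f) : ℝ)| ^ 3 * |(inner ℝ (u f - f) (hh u e) : ℝ)|)
    + 6 * ((inner ℝ (u e - e) (hh u f) : ℝ) ^ 2 * (inner ℝ (u f - f) (hh u e) : ℝ) ^ 2)

theorem four (a b : ℝ) : (a + b) ^ 4 ≤
    (a ^ 4 + 4 * (|a| ^ 3 * |b|) + 3 * (a ^ 2 * b ^ 2))
      + (b ^ 4 + 4 * (|b| ^ 3 * |a|) + 3 * (b ^ 2 * a ^ 2)) := by
  have e : (a + b) ^ 4 = a ^ 4 + 4 * (a ^ 3 * b) + 6 * (a ^ 2 * b ^ 2) + 4 * (b ^ 3 * a)
      + b ^ 4 := by ring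
  have h1 : a ^ 3 * b ≤ |a| ^ 3 * |b| := by
    rw [← abs_pow, ← abs_mul]; exact le_abs_self _
  have h2 : b ^ 3 * a ≤ |b| ^ 3 * |a| := by
    rw [← abs_pow, ← abs_mul]; exact le_abs_self _
  rw [e]
  linarith

/-- The quartic sum is at most the sum of the rows. -/
theorem quartic_rows : ∑ e ∈ UE, ∑ f ∈ nc e, dd u e f ^ 4 ≤
    ∑ e ∈ UE, ∑ f ∈ nc e, tt u e f := by
  let g : E → E → ℝ := fun e f => (inner ℝ (u e - e) (hh u f) : ℝ) ^ 4
    + 4 * (|(inner ℝ (u e - e) (hh u f) : ℝ)| ^ 3 * |(inner ℝ (u f - f) (hh u e) : ℝ)|)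
    + 3 * ((inner ℝ (u e - e) (hh u f) : ℝ) ^ 2 * (inner ℝ (u f - f) (hh u e) : ℝ) ^ 2)
  have h1 : ∀ e f : E, dd u e f ^ 4 ≤ g e f + g f e := by
    intro e f
    rw [dd_hh]
    exact four _ _
  have h2 : ∑ e ∈ UE, ∑ f ∈ nc e, dd u e f ^ 4 ≤ ∑ e ∈ UE, ∑ f ∈ nc e, (g e f + g f e) :=
    sum_le_sum fun e _ => sum_le_sum fun f _ => h1 e f
  refine h2.trans (le_of_eq ?_)
  simp only [sum_add_distrib]
  rw [nc_swap (fun e f => g f e)]
  simp only [← sum_add_distrib]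
  refine sum_congr rfl fun e _ => sum_congr rfl fun f _ => ?_
  simp only [g, tt]
  ring

/-- The unit (or zero) direction. -/
theorem direction (x : E) : ∃ v : E, ‖v‖ ≤ 1 ∧ x = ‖x‖ • v := by
  by_cases h : x = 0
  · exact ⟨0, by simp, by simp [h]⟩
  · refine ⟨(‖x‖⁻¹ : ℝ) • x, ?_, ?_⟩
    · rw [norm_smul, norm_inv, norm_norm]
      have : ‖x‖ ≠ 0 := norm_ne_zero_iff.mpr h
      rw [inv_mul_cancel₀ this]
    · rw [smul_smul, mul_inv_cancel₀ (norm_ne_zero_iff.mpr h), one_smul]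

/-- One row. -/
theorem row (hu : CFG u) {e : E} (he : e ∈ UE) (hm : ∀ f ∈ UE, ‖u f - f‖ ^ 2 ≤ 13 / 100) :
    ∑ f ∈ nc e, tt u e f ≤ 333 / 10 * ‖u e - e‖ ^ 4
      + (2519 / 75 * ‖u e - e‖ ^ 4 + 38 / 3 * ‖u e - e‖ ^ 2) * cc u e := by
  obtain ⟨v, hv, hx⟩ := direction (u e - e)
  have hM : nc e ⊆ UE := fun f hf => (mem_nc.mp hf).1
  have r4 := row4 (u := u) hv hM fun f hf => hm f (hM hf)
  have r6 := row6 (u := u) hv hM fun f hf => hm f (hM hf)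
  set s := ‖u e - e‖ with hs
  have hs0 : 0 ≤ s := norm_nonneg _
  have h1 : ∀ f ∈ nc e, tt u e f ≤ 2 * s ^ 4 * (inner ℝ v (hh u f) : ℝ) ^ 4
      + 12 / 5 * s ^ 4 * (inner ℝ v (hh u f) : ℝ) ^ 6 + 38 / 3 * s ^ 2 * ‖u f - f‖ ^ 2 := by
    intro f hf
    have hfU := hM hf
    have eP : (inner ℝ (u e - e) (hh u f) : ℝ) = s * inner ℝ v (hh u f) := by
      conv_lhs => rw [hx]
      rw [real_inner_smul_left]
    have hQ : (inner ℝ (u f - f) (hh u e) : ℝ) ^ 2 ≤ ‖u f - f‖ ^ 2 := by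
      have h2 := abs_real_inner_le_norm (u f - f) (hh u e)
      have h3 : ‖u f - f‖ * ‖hh u e‖ ≤ ‖u f - f‖ * 1 := by
        have := hh_norm hu he
        gcongr
      rw [← sq_abs]
      exact pow_le_pow_left₀ (abs_nonneg _) (h2.trans (h3.trans (le_of_eq (mul_one _)))) 2
    have hw : (inner ℝ v (hh u f) : ℝ) ^ 2 ≤ 1 := by
      have h2 := abs_real_inner_le_norm v (hh u f)
      have h3 : ‖v‖ * ‖hh u f‖ ≤ 1 * 1 := by
        have := hh_norm hu hfU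
        gcongr
      rw [← sq_abs]
      calc |(inner ℝ v (hh u f) : ℝ)| ^ 2 ≤ 1 ^ 2 :=
            pow_le_pow_left₀ (abs_nonneg _) (h2.trans (h3.trans (by norm_num))) 2
        _ = 1 := by norm_num
    unfold tt
    rw [eP]
    set w : ℝ := inner ℝ v (hh u f) with hw'
    set Q : ℝ := inner ℝ (u f - f) (hh u e) with hQ'
    have a1 : |s * w| ^ 3 * |Q| = s ^ 3 * (|w| ^ 3 * |Q|) := by
      rw [abs_mul, abs_of_nonneg hs0]; ring
    have a2 : 8 * (s ^ 3 * (|w| ^ 3 * |Q|)) ≤ 12 / 5 * s ^ 4 * w ^ 6 + 20 / 3 * s ^ 2 * Q ^ 2 := by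
      have e6 : w ^ 6 = |w| ^ 6 := by
        rw [← abs_pow]; exact (abs_of_nonneg (by positivity)).symm
      have e2 : Q ^ 2 = |Q| ^ 2 := (sq_abs Q).symm
      rw [e6, e2]
      have h := sq_nonneg (12 / 5 * (s ^ 2 * |w| ^ 3) - 4 * (s * |Q|))
      nlinarith
    have a3 : (s * w) ^ 2 * Q ^ 2 ≤ s ^ 2 * Q ^ 2 := by
      have : (s * w) ^ 2 * Q ^ 2 = w ^ 2 * (s ^ 2 * Q ^ 2) := by ring
      rw [this]
      have h0 : 0 ≤ s ^ 2 * Q ^ 2 := by positivity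
      nlinarith
    have a4 : s ^ 2 * Q ^ 2 ≤ s ^ 2 * ‖u f - f‖ ^ 2 := mul_le_mul_of_nonneg_left hQ (sq_nonneg s)
    have a5 : (s * w) ^ 4 = s ^ 4 * w ^ 4 := by ring
    rw [a1, a5]
    linarith
  have h2 := sum_le_sum h1
  rw [sum_add_distrib, sum_add_distrib, ← mul_sum, ← mul_sum, ← mul_sum] at h2
  have h3 : (∑ f ∈ nc e, ‖u f - f‖ ^ 2) = cc u e := rfl
  rw [h3] at h2 r4 r6
  have h4 : 0 ≤ s ^ 4 := pow_nonneg hs0 4
  have h5 := mul_le_mul_of_nonneg_left r4 h4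
  have h6 := mul_le_mul_of_nonneg_left r6 h4
  linarith

/-- The polynomial inequality for one row. -/
theorem poly_row {σ S : ℝ} (h0 : 0 ≤ σ) (h1 : σ ≤ 13 / 100) (h2 : 0 ≤ S) (h3 : S ≤ 1 / 4) :
    333 / 10 * σ + (2519 / 75 * σ + 38 / 3) * (S - 31 / 10 * σ + 553 / 120 * σ ^ 2) ≤
      13 * S := by
  have e : 13 * S - (333 / 10 * σ + (2519 / 75 * σ + 38 / 3)
      * (S - 31 / 10 * σ + 553 / 120 * σ ^ 2)) =
      (1 - 4 * S) * (σ * (38 / 3 * (31 / 10) - 333 / 10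
        + (2519 / 75 * (31 / 10) - 38 / 3 * (553 / 120)) * σ - 2519 / 75 * (553 / 120) * σ ^ 2))
      + 4 * S * (1 / 12 + σ * (38 / 3 * (31 / 10) - 333 / 10 - 2519 / 300
        + (2519 / 75 * (31 / 10) - 38 / 3 * (553 / 120)) * σ
        - 2519 / 75 * (553 / 120) * σ ^ 2)) := by ring
  have a1 : 0 ≤ 38 / 3 * (31 / 10) - 333 / 10
        + (2519 / 75 * (31 / 10) - 38 / 3 * (553 / 120)) * σ
        - 2519 / 75 * (553 / 120) * σ ^ 2 := by nlinarith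
  have a2 : 0 ≤ 1 / 12 + σ * (38 / 3 * (31 / 10) - 333 / 10 - 2519 / 300
        + (2519 / 75 * (31 / 10) - 38 / 3 * (553 / 120)) * σ
        - 2519 / 75 * (553 / 120) * σ ^ 2) := by
    have h4 : 0 ≤ σ ^ 2 * (13 / 100 - σ) := mul_nonneg (sq_nonneg σ) (by linarith)
    nlinarith [sq_nonneg (σ - 1 / 21)]
  have a3 : 0 ≤ (1 - 4 * S) * (σ * (38 / 3 * (31 / 10) - 333 / 10
        + (2519 / 75 * (31 / 10) - 38 / 3 * (553 / 120)) * σ
        - 2519 / 75 * (553 / 120) * σ ^ 2)) :=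
    mul_nonneg (by linarith) (mul_nonneg h0 a1)
  have a4 := mul_nonneg (mul_nonneg (by norm_num : (0 : ℝ) ≤ 4) h2) a2
  linarith

theorem row_num {σ r m x T c S : ℝ} (hσ0 : 0 ≤ σ) (hσ : σ ≤ m) (hr0 : 0 ≤ r) (hr : r ≤ x)
    (h2 : T ≤ 333 / 10 * σ ^ 2 + (2519 / 75 * σ ^ 2 + 38 / 3 * σ) * c)
    (h4 : (2519 / 75 * σ ^ 2 + 38 / 3 * σ) * c ≤ (2519 / 75 * σ ^ 2 + 38 / 3 * σ) *
      (S - 31 / 10 * σ + 553 / 30 * (r + σ / 2) ^ 2))
    (h6 : σ * (333 / 10 * σ + (2519 / 75 * σ + 38 / 3) * (S - 31 / 10 * σ + 553 / 120 * σ ^ 2)) ≤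
      σ * (13 * S)) :
    T ≤ 13 * S * σ + (2519 / 75 * m + 38 / 3) * m * (553 / 30) * (m + x) * r := by
  have h7 : (2519 / 75 * σ ^ 2 + 38 / 3 * σ) * (553 / 30 * (r * (σ + r))) ≤
      (2519 / 75 * m + 38 / 3) * m * (553 / 30) * (m + x) * r := by
    calc (2519 / 75 * σ ^ 2 + 38 / 3 * σ) * (553 / 30 * (r * (σ + r)))
        = (2519 / 75 * σ + 38 / 3) * σ * (553 / 30) * (σ + r) * r := by ring
      _ ≤ (2519 / 75 * m + 38 / 3) * m * (553 / 30) * (m + x) * r := by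
          have : 0 ≤ m := hσ0.trans hσ
          gcongr
  have e : (2519 / 75 * σ ^ 2 + 38 / 3 * σ) * (S - 31 / 10 * σ + 553 / 30 * (r + σ / 2) ^ 2) +
      333 / 10 * σ ^ 2 =
      σ * (333 / 10 * σ + (2519 / 75 * σ + 38 / 3) * (S - 31 / 10 * σ + 553 / 120 * σ ^ 2))
      + (2519 / 75 * σ ^ 2 + 38 / 3 * σ) * (553 / 30 * (r * (σ + r))) := by ring
  have e2 : σ * (13 * S) = 13 * S * σ := by ring
  linarith

/-- The quartic sum. -/
theorem quartic (hu : CFG u) {m x : ℝ} (hm : ∀ f ∈ UE, ‖u f - f‖ ^ 2 ≤ m) (hm1 : m ≤ 13 / 100)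
    (hx : ∀ e ∈ UE, gr u e ≤ x) (hx0 : 0 ≤ x) (hS : gS u ≤ 1 / 4) :
    ∑ e ∈ UE, ∑ f ∈ nc e, dd u e f ^ 4 ≤ 13 * gS u ^ 2
      + (2519 / 75 * m + 38 / 3) * m * (553 / 30) * (m + x) * gx u := by
  refine quartic_rows.trans ?_
  have hS0 : 0 ≤ gS u := sum_nonneg fun _ _ => sq_nonneg _
  have h1 : ∀ e ∈ UE, ∑ f ∈ nc e, tt u e f ≤ 13 * gS u * ‖u e - e‖ ^ 2
      + (2519 / 75 * m + 38 / 3) * m * (553 / 30) * (m + x) * gr u e := by
    intro e he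
    have h2 := row hu he fun f hf => (hm f hf).trans hm1
    have h3 := cc_le hu he
    have hσ := hm e he
    have hr := hx e he
    have hr0 := hGBA.r0 u hu e he
    have e4 : ‖u e - e‖ ^ 4 = (‖u e - e‖ ^ 2) ^ 2 := by ring
    rw [e4] at h2
    have hσ0 : 0 ≤ ‖u e - e‖ ^ 2 := sq_nonneg _
    set σ := ‖u e - e‖ ^ 2 with hσ'
    set r := gr u e with hr'
    have hA : 0 ≤ 2519 / 75 * σ ^ 2 + 38 / 3 * σ :=
      add_nonneg (mul_nonneg (by norm_num) (sq_nonneg σ)) (mul_nonneg (by norm_num) hσ0)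
    have h4 := mul_le_mul_of_nonneg_left h3 hA
    have h5 := poly_row hσ0 (hσ.trans hm1) hS0 hS
    have h6 := mul_le_mul_of_nonneg_left h5 hσ0
    exact row_num hσ0 hσ hr0 hr h2 h4 h6
  have h2 := sum_le_sum h1
  rw [sum_add_distrib, ← mul_sum, ← mul_sum] at h2
  refine h2.trans (le_of_eq ?_)
  unfold gS gx
  ring

end Pool.Agent.Lib.MP_f1379f_gt.FV.L1M
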