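import Pool.Agent.Lib.MP_f1379f_gt.FV.SpecG
import Pool.Agent.Lib.MP_f1379f_gt.FV.SpecG2

section
/-!
# HXC: great hexagons of E8
-/
set_option autoImplicit false

namespace Pool.Agent.Lib.MP_f1379f_gt.FV

namespace HXCM

/-- Table of the products in a hexagon. -/
noncomputable def cs : Fin 6 → ℝ := ![1, 1 / 2, -1 / 2, -1, -1 / 2, 1 / 2]

theorem cs_one {k : Fin 6} (h : cs k = 1) : k = 0 := by
  fin_cases k <;> simp [cs] at h ⊢ <;> norm_num at h

theorem cs_half {k : Fin 6} (h : cs k = 1 / 2) : k = 1 ∨ k = -1 := by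
  fin_cases k <;> simp [cs] at h ⊢ <;> first | decide | norm_num at h

theorem ip_tbl {a f : E} (haa : (inner ℝ a a : ℝ) = 1) (hff : (inner ℝ f f : ℝ) = 1)
    (haf : (inner ℝ a f : ℝ) = 1 / 2) (hfa : (inner ℝ f a : ℝ) = 1 / 2) (i j : Fin 6) :
    (inner ℝ (hx a f j) (hx a f i) : ℝ) = cs (j - i) := by
  fin_cases i <;> fin_cases j <;>
    simp [-inner_self_eq_norm_sq_to_K, hx, cs, inner_sub_left,
      inner_sub_right, inner_neg_left, inner_neg_right, haa, hff, haf, hfa] <;> norm_num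

theorem ineqs {a f : E} (hUEF : SpecUEF) (ha : a ∈ UE) (hf : f ∈ nb a) :
    f ∈ UE ∧ (inner ℝ a a : ℝ) = 1 ∧ (inner ℝ f f : ℝ) = 1 ∧ (inner ℝ a f : ℝ) = 1 / 2 ∧
      (inner ℝ f a : ℝ) = 1 / 2 := by
  classical
  unfold nb at hf
  rw [Finset.mem_filter] at hf
  refine ⟨hf.1, ?_, ?_, ?_, hf.2⟩
  · rw [real_inner_self_eq_norm_sq, hUEF.nrm a ha]; norm_num
  · rw [real_inner_self_eq_norm_sq, hUEF.nrm f hf.1]; norm_num
  · rw [real_inner_comm]; exact hf.2

theorem hmem (hUEF : SpecUEF) {a f : E} (ha : a ∈ UE) (hf : f ∈ nb a) (i : Fin 6) :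
    hx a f i ∈ UE := by
  obtain ⟨hf1, haa, hff, haf, hfa⟩ := ineqs hUEF ha hf
  fin_cases i
  · simpa [hx] using ha
  · simpa [hx] using hf1
  · simpa [hx] using hUEF.sub f hf1 a ha hfa
  · simpa [hx] using hUEF.neg a ha
  · simpa [hx] using hUEF.neg f hf1
  · simpa [hx] using hUEF.sub a ha f hf1 haf

theorem hmid (a f : E) (i : Fin 6) : hx a f (i - 1) + hx a f (i + 1) = hx a f i := by
  fin_cases i
  · have h1 : ((0 : Fin 6) - 1) = 5 := by decide
    simp [hx, h1]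
  · simp [hx]
  · have h1 : ((2 : Fin 6) - 1) = 1 := by decide
    simp [hx, h1, sub_eq_add_neg]
  · have h1 : ((3 : Fin 6) - 1) = 2 := by decide
    simp [hx, h1]
    abel
  · have h1 : ((4 : Fin 6) - 1) = 3 := by decide
    simp [hx, h1]
    abel
  · have h1 : ((5 : Fin 6) - 1) = 4 := by decide
    have h2 : ((5 : Fin 6) + 1) = 0 := by decide
    simp [hx, h1, h2]
    abel

end HXCM

open HXCM in
/-- **HXC**. -/
theorem specHXC (hUEF : SpecUEF) : SpecHXC where
  mem a ha f hf i := hmem hUEF ha hf i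
  inj a ha f hf := by
    obtain ⟨hf1, haa, hff, haf, hfa⟩ := ineqs hUEF ha hf
    intro i j hij
    have h1 := ip_tbl haa hff haf hfa i j
    have h2 := ip_tbl haa hff haf hfa j j
    rw [hij, h2, sub_self] at h1
    have h3 : cs (j - i) = 1 := by rw [← h1]; simp [cs]
    exact (sub_eq_zero.mp (cs_one h3)).symm
  nxt a ha f hf i := by
    classical
    obtain ⟨hf1, haa, hff, haf, hfa⟩ := ineqs hUEF ha hf
    unfold nb
    rw [Finset.mem_filter]
    refine ⟨hmem hUEF ha hf _, ?_⟩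
    rw [ip_tbl haa hff haf hfa i (i + 1), add_sub_cancel_left]
    simp [cs]
  mid a f i := hmid a f i
  two a ha f hf v hv hout := by
    classical
    obtain ⟨hf1, haa, hff, haf, hfa⟩ := ineqs hUEF ha hf
    have hne : ∀ i, (inner ℝ v (hx a f i) : ℝ) ≠ 1 := by
      intro i hi
      exact hout ⟨i, (hUEF.one v hv _ (hmem hUEF ha hf i) hi).symm⟩
    obtain ⟨x, hx0⟩ : ∃ x : ℝ, (inner ℝ v a : ℝ) = x := ⟨_, rfl⟩
    obtain ⟨y, hy0⟩ : ∃ y : ℝ, (inner ℝ v f : ℝ) = y := ⟨_, rfl⟩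
    have e0 : (inner ℝ v (hx a f 0) : ℝ) = x := by simp [hx, hx0]
    have e1 : (inner ℝ v (hx a f 1) : ℝ) = y := by simp [hx, hy0]
    have e2 : (inner ℝ v (hx a f 2) : ℝ) = y - x := by simp [hx, inner_sub_right, hx0, hy0]
    have e3 : (inner ℝ v (hx a f 3) : ℝ) = -x := by simp [hx, inner_neg_right, hx0]
    have e4 : (inner ℝ v (hx a f 4) : ℝ) = -y := by simp [hx, inner_neg_right, hy0]
    have e5 : (inner ℝ v (hx a f 5) : ℝ) = x - y := by simp [hx, inner_sub_right, hx0, hy0]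
    have n0 := hne 0
    have n1 := hne 1
    have n2 := hne 2
    have n3 := hne 3
    have n4 := hne 4
    have n5 := hne 5
    rw [e0] at n0
    rw [e1] at n1
    rw [e2] at n2
    rw [e3] at n3
    rw [e4] at n4
    rw [e5] at n5
    have hxv : x = 1 / 2 ∨ x = 0 ∨ x = -1 / 2 := by
      rcases hUEF.ip v hv a ha with h | h | h | h | h
      · exact absurd (hx0.symm.trans h) n0
      · exact Or.inl (hx0.symm.trans h)
      · exact Or.inr (Or.inl (hx0.symm.trans h))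
      · exact Or.inr (Or.inr (hx0.symm.trans h))
      · exfalso
        apply n3
        rw [← hx0, h]; norm_num
    have hyv : y = 1 / 2 ∨ y = 0 ∨ y = -1 / 2 := by
      rcases hUEF.ip v hv f hf1 with h | h | h | h | h
      · exact absurd (hy0.symm.trans h) n1
      · exact Or.inl (hy0.symm.trans h)
      · exact Or.inr (Or.inl (hy0.symm.trans h))
      · exact Or.inr (Or.inr (hy0.symm.trans h))
      · exfalso
        apply n4
        rw [← hy0, h]; norm_num
    rw [Finset.card_filter]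
    rw [Fin.sum_univ_six, e0, e1, e2, e3, e4, e5]
    rcases hxv with h | h | h <;> rcases hyv with h' | h' | h' <;> subst h <;> subst h' <;>
      first
      | (exfalso; apply n2; norm_num; done)
      | (exfalso; apply n5; norm_num; done)
      | norm_num
  inn a ha f hf i j h := by
    obtain ⟨hf1, haa, hff, haf, hfa⟩ := ineqs hUEF ha hf
    rw [ip_tbl haa hff haf hfa i j] at h
    rcases cs_half h with h1 | h1
    · left
      rw [← h1]; abel
    · right
      have h2 : i - 1 = i + (-1) := sub_eq_add_neg i 1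
      rw [h2, ← h1]; abel

end Pool.Agent.Lib.MP_f1379f_gt.FV
end

section
/-!
# MP_f1379f_gt, block G, module HXN: a displaced hexagon displaces its outer neighbours
-/
set_option autoImplicit false

namespace Pool.Agent.Lib.MP_f1379f_gt.FV

namespace HXNM

theorem mem_nb {a e : E} : e ∈ nb a ↔ e ∈ UE ∧ (inner ℝ e a : ℝ) = 1 / 2 := by
  simp [nb]

/-- Indicator of the positive reals. -/
noncomputable def ip (g : ℝ) : ℝ := if 0 < g then 1 else 0

theorem point (g c mu : ℝ) (hmu : 0 < mu) (hmu1 : mu ≤ 1) (_hc : 0 ≤ c) :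
    (1 - mu) * (max 0 g) ^ 2 - (1 / mu - 1) * c ^ 2 * ip g ≤ (max 0 (g - c)) ^ 2 := by
  have h1 : (0 : ℝ) ≤ 1 / mu - 1 := by
    rw [sub_nonneg, le_div_iff₀ hmu]; linarith
  by_cases hg : 0 < g
  · rw [max_eq_right hg.le, ip, if_pos hg, mul_one]
    by_cases hgc : g ≤ c
    · rw [max_eq_left (by linarith)]
      have h2 : g ^ 2 ≤ c ^ 2 := pow_le_pow_left₀ hg.le hgc 2
      have h3 : (1 - mu) * g ^ 2 ≤ (1 - mu) * c ^ 2 :=
        mul_le_mul_of_nonneg_left h2 (by linarith)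
      have h4 : (1 - mu) * c ^ 2 ≤ (1 / mu - 1) * c ^ 2 := by
        apply mul_le_mul_of_nonneg_right _ (sq_nonneg c)
        have h5 : 1 / mu - 1 - (1 - mu) = (1 - mu) ^ 2 / mu := by
          rw [eq_div_iff hmu.ne', sub_mul, sub_mul, one_div, inv_mul_cancel₀ hmu.ne']
          ring
        have h6 : 0 ≤ (1 - mu) ^ 2 / mu := by positivity
        linarith
      linarith
    · push Not at hgc
      rw [max_eq_right (by linarith)]
      have h : (g - c) ^ 2 - ((1 - mu) * g ^ 2 - (1 / mu - 1) * c ^ 2) = (mu * g - c) ^ 2 / mu := by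
        field_simp
        ring
      have : 0 ≤ (mu * g - c) ^ 2 / mu := by positivity
      linarith
  · rw [ip, if_neg hg, max_eq_left (not_lt.1 hg)]
    have := sq_nonneg (max 0 (g - c))
    linarith

theorem pp (g : ℝ) : (max 0 g) ^ 2 + (max 0 (-g)) ^ 2 = g ^ 2 := by
  rcases le_total 0 g with h | h
  · rw [max_eq_right h, max_eq_left (by linarith)]; ring
  · rw [max_eq_left h, max_eq_right (by linarith)]; ring

theorem ip_add (g : ℝ) : ip g + ip (-g) ≤ 1 := by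
  unfold ip
  split_ifs <;> linarith

open Classical in
/-- The hexagon as a finset. -/
noncomputable def HH (a f : E) : Finset E := Finset.univ.image (hx a f)

open Classical in
/-- Outer neighbours of the `i`-th vertex. -/
noncomputable def OO (a f : E) (i : Fin 6) : Finset E :=
  (UE \ HH a f).filter fun v => (inner ℝ v (hx a f i) : ℝ) = 1 / 2

theorem mem_HH {a f v : E} : v ∈ HH a f ↔ ∃ i, hx a f i = v := by
  simp [HH]

theorem mem_OO {a f v : E} {i : Fin 6} : v ∈ OO a f i ↔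
    (v ∈ UE ∧ v ∉ HH a f) ∧ (inner ℝ v (hx a f i) : ℝ) = 1 / 2 := by
  simp [OO]

variable {a f : E}

theorem nx (hX : SpecHXC) (ha : a ∈ UE) (hf : f ∈ nb a) (i : Fin 6) :
    (inner ℝ (hx a f (i + 1)) (hx a f i) : ℝ) = 1 / 2 := (mem_nb.1 (hX.nxt a ha f hf i)).2

theorem nx' (hX : SpecHXC) (ha : a ∈ UE) (hf : f ∈ nb a) (i : Fin 6) :
    (inner ℝ (hx a f (i - 1)) (hx a f i) : ℝ) = 1 / 2 := by
  have := nx hX ha hf (i - 1)
  rwa [sub_add_cancel, real_inner_comm] at this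

theorem nb_eq (hX : SpecHXC) (ha : a ∈ UE) (hf : f ∈ nb a) (i : Fin 6) (F : E → ℝ) :
    ∑ v ∈ nb (hx a f i), F v =
      ∑ v ∈ OO a f i, F v + F (hx a f (i + 1)) + F (hx a f (i - 1)) := by
  classical
  have h1 : nb (hx a f i) = insert (hx a f (i + 1)) (insert (hx a f (i - 1)) (OO a f i)) := by
    ext v
    rw [Finset.mem_insert, Finset.mem_insert, mem_nb, mem_OO]
    constructor
    · rintro ⟨hv, hvi⟩
      by_cases hH : v ∈ HH a f
      · obtain ⟨j, rfl⟩ := mem_HH.1 hH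
        rcases hX.inn a ha f hf i j hvi with h | h
        · left; rw [h]
        · right; left; rw [h]
      · exact Or.inr (Or.inr ⟨⟨hv, hH⟩, hvi⟩)
    · rintro (rfl | rfl | ⟨⟨h1, h2⟩, h3⟩)
      · exact ⟨hX.mem a ha f hf _, nx hX ha hf i⟩
      · exact ⟨hX.mem a ha f hf _, nx' hX ha hf i⟩
      · exact ⟨h1, h3⟩
  have h2 : hx a f (i - 1) ∉ OO a f i := fun h => (mem_OO.1 h).1.2 (mem_HH.2 ⟨_, rfl⟩)
  have h3 : hx a f (i + 1) ∉ insert (hx a f (i - 1)) (OO a f i) := by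
    rw [Finset.mem_insert, not_or]
    refine ⟨fun h => ?_, fun h => (mem_OO.1 h).1.2 (mem_HH.2 ⟨_, rfl⟩)⟩
    have key : ∀ i : Fin 6, i + 1 ≠ i - 1 := by decide
    exact key i (hX.inj a ha f hf h)
  rw [h1, Finset.sum_insert h3, Finset.sum_insert h2]
  ring

theorem OO_inv (hUEF : SpecUEF) (hX : SpecHXC) (ha : a ∈ UE) (hf : f ∈ nb a) (i : Fin 6) {v : E}
    (hv : v ∈ OO a f i) : hx a f i - v ∈ OO a f i := by
  obtain ⟨⟨hU, hH⟩, hi⟩ := mem_OO.1 hv
  have hiU := hX.mem a ha f hf i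
  have h1 : hx a f i - v ∈ UE := hUEF.sub _ hiU _ hU (by rw [real_inner_comm]; exact hi)
  have h2 : (inner ℝ (hx a f i - v) (hx a f i) : ℝ) = 1 / 2 := by
    rw [inner_sub_left, hi, real_inner_self_eq_norm_sq, hUEF.nrm _ hiU]; norm_num
  refine mem_OO.2 ⟨⟨h1, fun h => hH ?_⟩, h2⟩
  obtain ⟨j, hj⟩ := mem_HH.1 h
  rw [← hj] at h2
  have hm := hX.mid a f i
  rcases hX.inn a ha f hf i j h2 with h | h
  · refine mem_HH.2 ⟨i - 1, ?_⟩
    have : v = hx a f i - hx a f j := by rw [hj]; abel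
    rw [this, h, ← hm]; abel
  · refine mem_HH.2 ⟨i + 1, ?_⟩
    have : v = hx a f i - hx a f j := by rw [hj]; abel
    rw [this, h, ← hm]; abel

theorem OO_sym (hUEF : SpecUEF) (hX : SpecHXC) (ha : a ∈ UE) (hf : f ∈ nb a) (i : Fin 6)
    (F : E → ℝ) : ∑ v ∈ OO a f i, F v = ∑ v ∈ OO a f i, F (hx a f i - v) := by
  refine Finset.sum_nbij' (fun v => hx a f i - v) (fun v => hx a f i - v)
    (fun v hv => OO_inv hUEF hX ha hf i hv) (fun v hv => OO_inv hUEF hX ha hf i hv)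
    (fun v _ => by simp) (fun v _ => by simp) (fun v _ => by simp)

/-- One vertex. -/
theorem vertex (hUEF : SpecUEF) (hG : SpecGBA) (hX : SpecHXC) (ha : a ∈ UE) (hf : f ∈ nb a)
    (i : Fin 6) (D : E) (hD : (inner ℝ D (hx a f i) : ℝ) = 0) (c mu : ℝ) (hc : 0 ≤ c)
    (hmu : 0 < mu) (hmu1 : mu ≤ 1) :
    9 / 4 * (1 - mu) * ‖D‖ ^ 2 - 27 * (1 / mu - 1) * c ^ 2 ≤
      ∑ v ∈ OO a f i, (max 0 ((inner ℝ D v : ℝ) - c)) ^ 2 := by
  have hiU := hX.mem a ha f hf i
  have h1 : (0 : ℝ) ≤ 1 / mu - 1 := by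
    rw [sub_nonneg, le_div_iff₀ hmu]; linarith
  have hneg : ∀ v, (inner ℝ D (hx a f i - v) : ℝ) = -(inner ℝ D v : ℝ) := fun v => by
    rw [inner_sub_right, hD, zero_sub]
  -- the count
  have hcard : ∑ v ∈ OO a f i, (1 : ℝ) = 54 := by
    have := nb_eq hX ha hf i (fun _ => (1 : ℝ))
    rw [Finset.sum_const, hUEF.c56 _ hiU] at this
    norm_num at this ⊢
    linarith
  have hcnt : ∑ v ∈ OO a f i, ip (inner ℝ D v : ℝ) ≤ 27 := by
    have h2 := OO_sym hUEF hX ha hf i (fun v => ip (inner ℝ D v : ℝ))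
    simp only [hneg] at h2
    have h3 : ∑ v ∈ OO a f i, (ip (inner ℝ D v : ℝ) + ip (-(inner ℝ D v : ℝ))) ≤
        ∑ v ∈ OO a f i, (1 : ℝ) := Finset.sum_le_sum fun v _ => ip_add _
    rw [Finset.sum_add_distrib, ← h2, hcard] at h3
    linarith
  have hsq : 9 / 4 * ‖D‖ ^ 2 ≤ ∑ v ∈ OO a f i, (max 0 (inner ℝ D v : ℝ)) ^ 2 := by
    have h2 := OO_sym hUEF hX ha hf i (fun v => (max 0 (inner ℝ D v : ℝ)) ^ 2)
    simp only [hneg] at h2
    have h3 : ∑ v ∈ OO a f i, ((max 0 (inner ℝ D v : ℝ)) ^ 2 + (max 0 (-(inner ℝ D v : ℝ))) ^ 2) =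
        ∑ v ∈ OO a f i, (inner ℝ D v : ℝ) ^ 2 := Finset.sum_congr rfl fun v _ => pp _
    rw [Finset.sum_add_distrib, ← h2] at h3
    have h4 := nb_eq hX ha hf i (fun v => (inner ℝ D v : ℝ) ^ 2)
    rw [hG.nb2 _ hiU D hD] at h4
    have h5 : (inner ℝ D (hx a f (i - 1)) : ℝ) = -(inner ℝ D (hx a f (i + 1)) : ℝ) := by
      rw [← hneg, ← hX.mid a f i]
      congr 1; abel
    have h6 : (inner ℝ D (hx a f (i + 1)) : ℝ) ^ 2 ≤ 3 / 4 * ‖D‖ ^ 2 := by
      have h7 : (inner ℝ D (hx a f (i + 1)) : ℝ) =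
          inner ℝ D (hx a f (i + 1) - (1 / 2 : ℝ) • hx a f i) := by
        rw [inner_sub_right, inner_smul_right, hD]; ring
      have h8 : ‖hx a f (i + 1) - (1 / 2 : ℝ) • hx a f i‖ ^ 2 = 3 / 4 := by
        rw [norm_sub_sq_real, norm_smul, inner_smul_right, nx hX ha hf i,
          hUEF.nrm _ hiU, hUEF.nrm _ (hX.mem a ha f hf (i + 1))]
        norm_num
      have h9 := abs_real_inner_le_norm D (hx a f (i + 1) - (1 / 2 : ℝ) • hx a f i)
      rw [h7, ← sq_abs]
      calc |(inner ℝ D (hx a f (i + 1) - (1 / 2 : ℝ) • hx a f i) : ℝ)| ^ 2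
          ≤ (‖D‖ * ‖hx a f (i + 1) - (1 / 2 : ℝ) • hx a f i‖) ^ 2 :=
            pow_le_pow_left₀ (abs_nonneg _) h9 2
        _ = 3 / 4 * ‖D‖ ^ 2 := by rw [mul_pow, h8]; ring
    rw [h5] at h4
    linarith [h3, h4, h6, neg_sq (inner ℝ D (hx a f (i + 1)) : ℝ)]
  have hp : ∑ v ∈ OO a f i, ((1 - mu) * (max 0 (inner ℝ D v : ℝ)) ^ 2
      - (1 / mu - 1) * c ^ 2 * ip (inner ℝ D v : ℝ)) ≤
      ∑ v ∈ OO a f i, (max 0 ((inner ℝ D v : ℝ) - c)) ^ 2 :=
    Finset.sum_le_sum fun v _ => point _ c mu hmu hmu1 hc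
  rw [Finset.sum_sub_distrib, ← Finset.mul_sum, ← Finset.mul_sum] at hp
  have h2 : (1 - mu) * (9 / 4 * ‖D‖ ^ 2) ≤
      (1 - mu) * ∑ v ∈ OO a f i, (max 0 (inner ℝ D v : ℝ)) ^ 2 :=
    mul_le_mul_of_nonneg_left hsq (by linarith)
  have h3 : (1 / mu - 1) * c ^ 2 * ∑ v ∈ OO a f i, ip (inner ℝ D v : ℝ) ≤
      (1 / mu - 1) * c ^ 2 * 27 :=
    mul_le_mul_of_nonneg_left hcnt (mul_nonneg h1 (sq_nonneg c))
  linarith

end HXNM

open HXNM in
/-- **HXN.** -/
theorem specHXN (hUEF : SpecUEF) (hG : SpecGBA) (hX : SpecHXC) : SpecHXN := by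
  classical
  intro u hC a ha f hf mu hmu hmu1
  have hmem := hX.mem a ha f hf
  have hb : ∀ e ∈ UE, lam u e = gr u e + ‖u e - e‖ ^ 2 / 2 := hG.bet u
  have hr := hG.r0 u hC
  have hb0 : ∀ e ∈ UE, 0 ≤ lam u e := fun e he => by
    rw [hb e he]; have := hr e he; positivity
  -- splitting of the total
  have hHsub : HH a f ⊆ UE := by
    intro v hv
    obtain ⟨i, rfl⟩ := mem_HH.1 hv
    exact hmem i
  have hHS : hS u a f = ∑ v ∈ HH a f, ‖u v - v‖ ^ 2 := by
    rw [hS, HH, Finset.sum_image fun i _ j _ h => hX.inj a ha f hf h]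
  have hsplit : gS u = ∑ v ∈ UE \ HH a f, ‖u v - v‖ ^ 2 + hS u a f := by
    rw [hHS, gS, Finset.sum_sdiff hHsub]
  -- pointwise
  have hpt : ∀ v ∈ UE \ HH a f, ∀ i, (inner ℝ v (hx a f i) : ℝ) = 1 / 2 →
      (max 0 ((inner ℝ (del u (hx a f i)) v : ℝ) - lam u (hx a f i) / 2)) ^ 2 ≤
        ‖u v - v‖ ^ 2 := by
    intro v hv i hvi
    obtain ⟨hvU, hvH⟩ := Finset.mem_sdiff.1 hv
    have hne : hx a f i ≠ v := fun h => hvH (mem_HH.2 ⟨i, h⟩)
    set h := hx a f i with hh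
    have hw := hG.w2 u hC h (hmem i) v hvU hne
    have hrr := mul_nonneg (hr h (hmem i)) (hr v hvU)
    have e1 : (inner ℝ (u h) (u v) : ℝ) =
        1 / 2 + (inner ℝ (del u h) v : ℝ) - lam u h / 2 + inner ℝ (u h) (u v - v) := by
      have e2 : u h = h + del u h - lam u h • h := by
        rw [del]; abel
      have e3 : (inner ℝ (u h) v : ℝ) = 1 / 2 + (inner ℝ (del u h) v : ℝ) - lam u h / 2 := by
        conv_lhs => rw [e2]
        rw [inner_sub_left, inner_add_left, inner_smul_left, real_inner_comm v h, hvi]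
        simp only [conj_trivial]
        ring
      rw [inner_sub_right, e3]; ring
    have e4 : -(inner ℝ (u h) (u v - v) : ℝ) ≤ ‖u v - v‖ := by
      have h1 := abs_real_inner_le_norm (u h) (u v - v)
      have h2 : ‖u h‖ * ‖u v - v‖ ≤ 1 * ‖u v - v‖ :=
        mul_le_mul_of_nonneg_right (hC.le_one h (hmem i)) (norm_nonneg _)
      have h3 := (abs_le.1 h1).1
      linarith
    rw [gw] at hw
    have e5 : max 0 ((inner ℝ (del u h) v : ℝ) - lam u h / 2) ≤ ‖u v - v‖ :=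
      max_le (norm_nonneg _) (by linarith)
    exact pow_le_pow_left₀ (le_max_left _ _) e5 2
  -- sum over the outer vertices
  have hout : ∑ i, ∑ v ∈ OO a f i,
      (max 0 ((inner ℝ (del u (hx a f i)) v : ℝ) - lam u (hx a f i) / 2)) ^ 2 ≤
        2 * ∑ v ∈ UE \ HH a f, ‖u v - v‖ ^ 2 := by
    have hsw : ∑ i, ∑ v ∈ OO a f i,
        (max 0 ((inner ℝ (del u (hx a f i)) v : ℝ) - lam u (hx a f i) / 2)) ^ 2 =
        ∑ v ∈ UE \ HH a f, ∑ i ∈ Finset.univ.filter
          (fun i : Fin 6 => (inner ℝ v (hx a f i) : ℝ) = 1 / 2),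
          (max 0 ((inner ℝ (del u (hx a f i)) v : ℝ) - lam u (hx a f i) / 2)) ^ 2 := by
      refine Finset.sum_comm' fun i v => ?_
      simp only [OO, Finset.mem_filter, Finset.mem_univ, true_and]
      exact and_comm
    rw [hsw, Finset.mul_sum]
    refine Finset.sum_le_sum fun v hv => ?_
    obtain ⟨hvU, hvH⟩ := Finset.mem_sdiff.1 hv
    have hcard := hX.two a ha f hf v hvU (fun h => hvH (mem_HH.2 h))
    calc ∑ i ∈ Finset.univ.filter (fun i : Fin 6 => (inner ℝ v (hx a f i) : ℝ) = 1 / 2),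
          (max 0 ((inner ℝ (del u (hx a f i)) v : ℝ) - lam u (hx a f i) / 2)) ^ 2
        ≤ ∑ i ∈ Finset.univ.filter (fun i : Fin 6 => (inner ℝ v (hx a f i) : ℝ) = 1 / 2),
          ‖u v - v‖ ^ 2 := Finset.sum_le_sum fun i hi =>
            hpt v hv i (Finset.mem_filter.1 hi).2
      _ = ((Finset.univ.filter
            (fun i : Fin 6 => (inner ℝ v (hx a f i) : ℝ) = 1 / 2)).card : ℝ) * ‖u v - v‖ ^ 2 := by
          rw [Finset.sum_const, nsmul_eq_mul]
      _ ≤ 2 * ‖u v - v‖ ^ 2 := by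
          refine mul_le_mul_of_nonneg_right ?_ (sq_nonneg _)
          have : (Finset.univ.filter
            (fun i : Fin 6 => (inner ℝ v (hx a f i) : ℝ) = 1 / 2)).card ≤ 2 := by
            convert hcard
          exact_mod_cast this
  -- lower bound for each vertex
  have hver : ∑ i : Fin 6, (9 / 4 * (1 - mu) * ‖del u (hx a f i)‖ ^ 2
      - 27 * (1 / mu - 1) * (lam u (hx a f i) / 2) ^ 2) ≤
      ∑ i, ∑ v ∈ OO a f i,
      (max 0 ((inner ℝ (del u (hx a f i)) v : ℝ) - lam u (hx a f i) / 2)) ^ 2 := by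
    refine Finset.sum_le_sum fun i _ => ?_
    exact vertex hUEF hG hX ha hf i _ (hG.orth u _ (hmem i)) _ mu
      (div_nonneg (hb0 _ (hmem i)) (by norm_num)) hmu hmu1
  have hD : ∑ i : Fin 6, ‖del u (hx a f i)‖ ^ 2 = hS u a f - ∑ i, lam u (hx a f i) ^ 2 := by
    rw [hS, ← Finset.sum_sub_distrib]
    refine Finset.sum_congr rfl fun i _ => ?_
    rw [hG.pyth u _ (hmem i)]; ring
  have hfin : ∑ i : Fin 6, (9 / 4 * (1 - mu) * ‖del u (hx a f i)‖ ^ 2
      - 27 * (1 / mu - 1) * (lam u (hx a f i) / 2) ^ 2) =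
      9 / 4 * (1 - mu) * (hS u a f - ∑ i, lam u (hx a f i) ^ 2)
        - 27 / 4 * (1 / mu - 1) * ∑ i, lam u (hx a f i) ^ 2 := by
    rw [← hD, Finset.mul_sum, Finset.mul_sum, ← Finset.sum_sub_distrib]
    exact Finset.sum_congr rfl fun i _ => by ring
  rw [hfin] at hver
  linarith

end Pool.Agent.Lib.MP_f1379f_gt.FV
end

section
/-!
# MP_f1379f_gt, block G, module MSQ: a displaced root displaces its neighbours
-/
set_option autoImplicit false

namespace Pool.Agent.Lib.MP_f1379f_gt.FV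

open HXNM in
/-- **MSQ.** -/
theorem specMSQ (hUEF : SpecUEF) (hG : SpecGBA) : SpecMSQ := by
  classical
  intro u hC a ha mu hmu hmu1
  have hb : lam u a = gr u a + ‖u a - a‖ ^ 2 / 2 := hG.bet u a ha
  have hr := hG.r0 u hC
  have hb0 : 0 ≤ lam u a := by
    rw [hb]; have := hr a ha; positivity
  have hD := hG.orth u a ha
  have h1 : (0 : ℝ) ≤ 1 / mu - 1 := by
    rw [sub_nonneg, le_div_iff₀ hmu]; linarith
  -- pointwise
  have hpt : ∀ v ∈ nb a,
      (max 0 ((inner ℝ (del u a) v : ℝ) - lam u a / 2)) ^ 2 ≤ ‖u v - v‖ ^ 2 := by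
    intro v hv
    obtain ⟨hvU, hva⟩ := mem_nb.1 hv
    have hne : a ≠ v := by
      intro h
      rw [← h, real_inner_self_eq_norm_sq, hUEF.nrm a ha] at hva
      norm_num at hva
    have hw := hG.w2 u hC a ha v hvU hne
    have hrr := mul_nonneg (hr a ha) (hr v hvU)
    have e1 : (inner ℝ (u a) (u v) : ℝ) =
        1 / 2 + (inner ℝ (del u a) v : ℝ) - lam u a / 2 + inner ℝ (u a) (u v - v) := by
      have e2 : u a = a + del u a - lam u a • a := by
        rw [del]; abel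
      have e3 : (inner ℝ (u a) v : ℝ) = 1 / 2 + (inner ℝ (del u a) v : ℝ) - lam u a / 2 := by
        conv_lhs => rw [e2]
        rw [inner_sub_left, inner_add_left, inner_smul_left, real_inner_comm v a, hva]
        simp only [conj_trivial]
        ring
      rw [inner_sub_right, e3]; ring
    have e4 : -(inner ℝ (u a) (u v - v) : ℝ) ≤ ‖u v - v‖ := by
      have h1 := abs_real_inner_le_norm (u a) (u v - v)
      have h2 : ‖u a‖ * ‖u v - v‖ ≤ 1 * ‖u v - v‖ :=
        mul_le_mul_of_nonneg_right (hC.le_one a ha) (norm_nonneg _)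
      have h3 := (abs_le.1 h1).1
      linarith
    rw [gw] at hw
    have e5 : max 0 ((inner ℝ (del u a) v : ℝ) - lam u a / 2) ≤ ‖u v - v‖ :=
      max_le (norm_nonneg _) (by linarith)
    exact pow_le_pow_left₀ (le_max_left _ _) e5 2
  -- the count
  have hneg : ∀ v, (inner ℝ (del u a) (a - v) : ℝ) = -(inner ℝ (del u a) v : ℝ) := fun v => by
    rw [inner_sub_right, hD, zero_sub]
  have hinv : ∀ v ∈ nb a, a - v ∈ nb a := by
    intro v hv
    obtain ⟨hvU, hva⟩ := mem_nb.1 hv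
    refine mem_nb.2 ⟨hUEF.sub _ ha _ hvU (by rw [real_inner_comm]; exact hva), ?_⟩
    rw [inner_sub_left, hva, real_inner_self_eq_norm_sq, hUEF.nrm a ha]
    norm_num
  have hsym : ∑ v ∈ nb a, ip (inner ℝ (del u a) v : ℝ) =
      ∑ v ∈ nb a, ip (inner ℝ (del u a) (a - v) : ℝ) :=
    Finset.sum_nbij' (fun v => a - v) (fun v => a - v) hinv hinv
      (fun v _ => by simp) (fun v _ => by simp) (fun v _ => by simp)
  have hcnt : ∑ v ∈ nb a, ip (inner ℝ (del u a) v : ℝ) ≤ 28 := by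
    have h3 : ∑ v ∈ nb a, (ip (inner ℝ (del u a) v : ℝ) + ip (-(inner ℝ (del u a) v : ℝ))) ≤
        ∑ v ∈ nb a, (1 : ℝ) := Finset.sum_le_sum fun v _ => ip_add _
    have hc : ∑ v ∈ nb a, (1 : ℝ) = 56 := by
      rw [Finset.sum_const, hUEF.c56 a ha]
      norm_num
    have h5 : ∑ v ∈ nb a, ip (inner ℝ (del u a) (a - v) : ℝ) =
        ∑ v ∈ nb a, ip (-(inner ℝ (del u a) v : ℝ)) :=
      Finset.sum_congr rfl fun v _ => by rw [hneg]
    have h6 : ∑ v ∈ nb a, (ip (inner ℝ (del u a) v : ℝ) + ip (-(inner ℝ (del u a) v : ℝ))) =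
        ∑ v ∈ nb a, ip (inner ℝ (del u a) v : ℝ) + ∑ v ∈ nb a, ip (-(inner ℝ (del u a) v : ℝ)) :=
      Finset.sum_add_distrib
    linarith
  have hsq := hG.nbh a ha (del u a) hD
  have hp : ∑ v ∈ nb a, ((1 - mu) * (max 0 (inner ℝ (del u a) v : ℝ)) ^ 2
      - (1 / mu - 1) * (lam u a / 2) ^ 2 * ip (inner ℝ (del u a) v : ℝ)) ≤
      ∑ v ∈ nb a, ‖u v - v‖ ^ 2 :=
    Finset.sum_le_sum fun v hv =>
      (point _ (lam u a / 2) mu hmu hmu1 (div_nonneg hb0 (by norm_num))).trans (hpt v hv)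
  rw [Finset.sum_sub_distrib, ← Finset.mul_sum, ← Finset.mul_sum, hsq] at hp
  have h3 : (1 / mu - 1) * (lam u a / 2) ^ 2 * ∑ v ∈ nb a, ip (inner ℝ (del u a) v : ℝ) ≤
      (1 / mu - 1) * (lam u a / 2) ^ 2 * 28 :=
    mul_le_mul_of_nonneg_left hcnt (mul_nonneg h1 (sq_nonneg _))
  -- the total
  have htot : ‖u a - a‖ ^ 2 + ∑ v ∈ nb a, ‖u v - v‖ ^ 2 ≤ gS u := by
    have hnot : a ∉ nb a := by
      intro h
      have := (mem_nb.1 h).2
      rw [real_inner_self_eq_norm_sq, hUEF.nrm a ha] at this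
      norm_num at this
    have h4 : ∑ v ∈ insert a (nb a), ‖u v - v‖ ^ 2 ≤ gS u := by
      unfold gS
      refine Finset.sum_le_sum_of_subset_of_nonneg ?_ fun v _ _ => sq_nonneg _
      intro v hv
      rcases Finset.mem_insert.1 hv with h | h
      · rw [h]; exact ha
      · exact (mem_nb.1 h).1
    rwa [Finset.sum_insert hnot] at h4
  rw [hG.pyth u a ha] at htot
  nlinarith [hp, h3, htot]

end Pool.Agent.Lib.MP_f1379f_gt.FV
end

section
/-!
# MP_f1379f_gt, block G, second part: STG2, stage 1' with the final constants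

Adapted from helper86's STG.lean.
-/
set_option autoImplicit false
set_option linter.constructorNameAsVariable false

namespace Pool.Agent.Lib.MP_f1379f_gt.FV

open Finset

namespace STG2M

lemma base_mono {a b : ℝ} (ha : 0 ≤ a) (hab : a ≤ b) : base a ≤ base b := by
  have hb : 0 ≤ b := le_trans ha hab
  unfold base
  gcongr

lemma base_nonneg {a : ℝ} (ha : 0 ≤ a) : 0 ≤ base a := by
  unfold base
  positivity

/-- One box of the final comparison. -/
lemma box2 {S x m H L : ℝ} (S1 S2 X2 mm HH Q1 LL BB : ℝ)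
    (hx0 : 0 ≤ x) (hx : x ≤ X2) (hm0 : 0 ≤ m) (hmS : m ≤ S) (hH0 : 0 ≤ H)
    (h1 : 3 * m ≤ S + 16 * (x + m / 2) ^ 2)
    (h2 : 7 * H ≤ 4 * S + 30 * ((x + m / 2) * (x + H / 2)))
    (h3 : 6 * S ≤ 41 * ((x + m / 2) * (x + S / 2)) + 5 / 8 * (x + S / 2) ^ 2 + 5 * S ^ 2
      + (x + 177 / 100 * H) * L)
    (h4 : x + 3 / 2 * H ≤ 1 / 2 →
      17 / 1000 * (base (1 / 2 - (x + 3 / 2 * H)) * (L - 2 * x ^ 2)) ≤
        72655 / 10 ^ 7 + 31 / 10 ^ 8 * (108 * L + 4032 * x))
    (hS1 : S1 ≤ S) (hS2 : S ≤ S2)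
    (c0 : 0 ≤ S1) (c0' : S1 < S2) (c1 : 0 < mm)
    (c3 : 4 * mm ^ 2 + (16 * X2 - 3) * mm + S2 + 16 * X2 ^ 2 < 0)
    (c4 : 4 * S2 ^ 2 + (16 * X2 - 3) * S2 + S2 + 16 * X2 ^ 2 < 0)
    (c5 : 15 * (X2 + mm / 2) < 7)
    (c6 : 4 * S2 + 30 * (X2 + mm / 2) * X2 ≤ HH * (7 - 15 * (X2 + mm / 2)))
    (c7 : Q1 ≤ 6 * S1 - 41 * ((X2 + mm / 2) * (X2 + S1 / 2)) - 5 / 8 * (X2 + S1 / 2) ^ 2
      - 5 * S1 ^ 2)
    (c8 : Q1 ≤ 6 * S2 - 41 * ((X2 + mm / 2) * (X2 + S2 / 2)) - 5 / 8 * (X2 + S2 / 2) ^ 2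
      - 5 * S2 ^ 2)
    (c9 : 0 < Q1) (c10 : LL * (X2 + 177 / 100 * HH) ≤ Q1)
    (c11 : BB ≤ base (1 / 2 - (X2 + 3 / 2 * HH))) (c13 : X2 + 3 / 2 * HH ≤ 1 / 2)
    (c14 : 72655 / 10 ^ 7 + 31 / 10 ^ 8 * 4032 * X2 < 17 / 1000 * (BB * (LL - 2 * X2 ^ 2))
      - 31 / 10 ^ 8 * 108 * LL) (c15 : 31 / 10 ^ 8 * 108 < 17 / 1000 * BB)
    (c16 : 2 * X2 ^ 2 ≤ LL) : False := by
  have hX2 : 0 ≤ X2 := le_trans hx0 hx
  have hS0 : 0 ≤ S := le_trans c0 hS1
  -- m ≤ mm
  have hm : m ≤ mm := by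
    by_contra hcon
    push Not at hcon
    have hmS2 : m ≤ S2 := le_trans hmS hS2
    have e1 : (x + m / 2) ^ 2 ≤ (X2 + m / 2) ^ 2 := by
      apply pow_le_pow_left₀ (by positivity)
      linarith
    have e2 : 0 ≤ 4 * m ^ 2 + (16 * X2 - 3) * m + S2 + 16 * X2 ^ 2 := by nlinarith [e1]
    have e3 : 0 ≤ (m - mm) * (S2 - m) := mul_nonneg (by linarith) (by linarith)
    have e4 : 0 < S2 - mm := by linarith
    have e5 : (4 * m ^ 2 + (16 * X2 - 3) * m + S2 + 16 * X2 ^ 2) * (S2 - mm) =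
        (4 * mm ^ 2 + (16 * X2 - 3) * mm + S2 + 16 * X2 ^ 2) * (S2 - m)
        + (4 * S2 ^ 2 + (16 * X2 - 3) * S2 + S2 + 16 * X2 ^ 2) * (m - mm)
        - 4 * ((m - mm) * (S2 - m)) * (S2 - mm) := by ring
    have e6 : 0 ≤ 4 * ((m - mm) * (S2 - m)) * (S2 - mm) := by positivity
    have e7 : (4 * mm ^ 2 + (16 * X2 - 3) * mm + S2 + 16 * X2 ^ 2) * (S2 - m) ≤ 0 :=
      mul_nonpos_of_nonpos_of_nonneg c3.le (by linarith)
    have e8 : (4 * S2 ^ 2 + (16 * X2 - 3) * S2 + S2 + 16 * X2 ^ 2) * (m - mm) < 0 :=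
      mul_neg_of_neg_of_pos c4 (by linarith)
    have e9 : 0 ≤ (4 * m ^ 2 + (16 * X2 - 3) * m + S2 + 16 * X2 ^ 2) * (S2 - mm) :=
      mul_nonneg e2 e4.le
    linarith
  have hA : x + m / 2 ≤ X2 + mm / 2 := by linarith
  have hA0 : 0 ≤ x + m / 2 := by positivity
  -- H ≤ HH
  have hH : H ≤ HH := by
    have e1 : (x + m / 2) * (x + H / 2) ≤ (X2 + mm / 2) * (X2 + H / 2) := by
      apply mul_le_mul hA (by linarith) (by positivity) (by linarith)
    have e2 : H * (7 - 15 * (X2 + mm / 2)) ≤ HH * (7 - 15 * (X2 + mm / 2)) := by nlinarith [e1]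
    exact le_of_mul_le_mul_right e2 (by linarith)
  -- lower bound of Q
  have hQ : Q1 ≤ (x + 177 / 100 * H) * L := by
    have e1 : (x + m / 2) * (x + S / 2) ≤ (X2 + mm / 2) * (X2 + S / 2) := by
      apply mul_le_mul hA (by linarith) (by positivity) (by linarith)
    have e2 : (x + S / 2) ^ 2 ≤ (X2 + S / 2) ^ 2 := by
      apply pow_le_pow_left₀ (by positivity)
      linarith
    have e3 : 6 * S - 41 * ((X2 + mm / 2) * (X2 + S / 2)) - 5 / 8 * (X2 + S / 2) ^ 2 - 5 * S ^ 2 ≤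
        (x + 177 / 100 * H) * L := by linarith
    refine le_trans ?_ e3
    have f1 : 0 ≤ (S2 - S) * ((6 * S1 - 41 * ((X2 + mm / 2) * (X2 + S1 / 2))
        - 5 / 8 * (X2 + S1 / 2) ^ 2 - 5 * S1 ^ 2) - Q1) :=
      mul_nonneg (by linarith) (by linarith)
    have f2 : 0 ≤ (S - S1) * ((6 * S2 - 41 * ((X2 + mm / 2) * (X2 + S2 / 2))
        - 5 / 8 * (X2 + S2 / 2) ^ 2 - 5 * S2 ^ 2) - Q1) :=
      mul_nonneg (by linarith) (by linarith)
    have f3 : 0 ≤ (S2 - S1) * ((S - S1) * (S2 - S)) :=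
      mul_nonneg (by linarith) (mul_nonneg (by linarith) (by linarith))
    have f4 : (S2 - S1) * ((6 * S - 41 * ((X2 + mm / 2) * (X2 + S / 2))
        - 5 / 8 * (X2 + S / 2) ^ 2 - 5 * S ^ 2) - Q1) =
        (S2 - S) * ((6 * S1 - 41 * ((X2 + mm / 2) * (X2 + S1 / 2))
          - 5 / 8 * (X2 + S1 / 2) ^ 2 - 5 * S1 ^ 2) - Q1)
        + (S - S1) * ((6 * S2 - 41 * ((X2 + mm / 2) * (X2 + S2 / 2))
          - 5 / 8 * (X2 + S2 / 2) ^ 2 - 5 * S2 ^ 2) - Q1)
        + (5 + 5 / 32) * ((S2 - S1) * ((S - S1) * (S2 - S))) := by ring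
    have f5 : 0 ≤ (S2 - S1) * ((6 * S - 41 * ((X2 + mm / 2) * (X2 + S / 2))
        - 5 / 8 * (X2 + S / 2) ^ 2 - 5 * S ^ 2) - Q1) := by rw [f4]; linarith
    have f6 := nonneg_of_mul_nonneg_right f5 (by linarith : 0 < S2 - S1)
    linarith
  have hk0 : 0 ≤ x + 177 / 100 * H := by positivity
  have hL0 : 0 < L := by
    by_contra hcon
    push Not at hcon
    have := mul_nonpos_of_nonneg_of_nonpos hk0 hcon
    linarith
  have hk : x + 177 / 100 * H ≤ X2 + 177 / 100 * HH := by linarith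
  have hkp : 0 < X2 + 177 / 100 * HH := by
    by_contra hcon
    push Not at hcon
    have e1 : x + 177 / 100 * H = 0 := le_antisymm (by linarith) hk0
    rw [e1, zero_mul] at hQ
    linarith
  have hLL : LL ≤ L := by
    have e1 : (x + 177 / 100 * H) * L ≤ (X2 + 177 / 100 * HH) * L :=
      mul_le_mul_of_nonneg_right hk hL0.le
    have e2 : LL * (X2 + 177 / 100 * HH) ≤ L * (X2 + 177 / 100 * HH) := by linarith
    exact le_of_mul_le_mul_right e2 hkp
  have hW : x + 3 / 2 * H ≤ X2 + 3 / 2 * HH := by linarith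
  have h4' := h4 (by linarith)
  have hb : BB ≤ base (1 / 2 - (x + 3 / 2 * H)) :=
    le_trans c11 (base_mono (by linarith) (by linarith))
  have hx2 : x ^ 2 ≤ X2 ^ 2 := pow_le_pow_left₀ hx0 hx 2
  have g1 : BB * (L - 2 * x ^ 2) ≤ base (1 / 2 - (x + 3 / 2 * H)) * (L - 2 * x ^ 2) :=
    mul_le_mul_of_nonneg_right hb (by linarith)
  have g2 : 0 ≤ (17 / 1000 * BB - 31 / 10 ^ 8 * 108) * (L - LL) :=
    mul_nonneg (by linarith) (by linarith)
  have hBB : 0 ≤ BB := by
    norm_num at c15 ⊢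
    linarith
  have g3 : 0 ≤ BB * (X2 ^ 2 - x ^ 2) := mul_nonneg hBB (by linarith)
  norm_num at g2 c14 h4'
  nlinarith [g1, g2, g3, c14, h4']

lemma hS_le (hHXC : SpecHXC) (u : E → E) {e f : E} (he : e ∈ UE) (hf : f ∈ nb e) :
    hS u e f ≤ gS u := by
  unfold hS gS
  have h1 : ∑ i, ‖u (hx e f i) - hx e f i‖ ^ 2 =
      ∑ v ∈ Finset.univ.image (hx e f), ‖u v - v‖ ^ 2 := by
    rw [Finset.sum_image]
    intro i _ j _ hij
    exact hHXC.inj e he f hf hij
  rw [h1]
  refine Finset.sum_le_sum_of_subset_of_nonneg ?_ fun v _ _ => sq_nonneg _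
  intro v hv
  rw [Finset.mem_image] at hv
  obtain ⟨i, _, hi⟩ := hv
  rw [← hi]
  exact hHXC.mem e he f hf i

end STG2M

open STG2M in
/-- **STG2**. -/
theorem specSTG2 (hUEF : SpecUEF) (hGBA : SpecGBA) (hHXC : SpecHXC) (hHEX : SpecHEX)
    (hHXK : SpecHXK) (hHLB : SpecHLB)
    (hMSQ : SpecMSQ) (hHXN : SpecHXN) (hERK : SpecERK) : SpecSTG2 := by
  intro u hu hSS hx24 hxB hC
  have hr0 := hGBA.r0 u hu
  have hx0 : 0 ≤ gx u := Finset.sum_nonneg hr0
  have hrx : ∀ e ∈ UE, gr u e ≤ gx u := fun e he =>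
    Finset.single_le_sum (f := fun e => gr u e) (fun i hi => hr0 i hi) he
  have hne : (UE : Finset E).Nonempty := by
    rw [← Finset.card_pos, hUEF.c240]
    norm_num
  -- (1)
  obtain ⟨m, hm0, hmS, hmax, h1⟩ : ∃ m : ℝ, 0 ≤ m ∧ m ≤ gS u ∧ (∀ e ∈ UE, ‖u e - e‖ ^ 2 ≤ m) ∧
      3 * m ≤ gS u + 16 * (gx u + m / 2) ^ 2 := by
    obtain ⟨a, ha, hmax⟩ := Finset.exists_max_image UE (fun e => ‖u e - e‖ ^ 2) hne
    refine ⟨‖u a - a‖ ^ 2, sq_nonneg _,
      Finset.single_le_sum (f := fun e => ‖u e - e‖ ^ 2) (fun i _ => sq_nonneg _) ha, hmax, ?_⟩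
    have e1 := hMSQ u hu a ha (1 / 3) (by norm_num) (by norm_num)
    have e2 := hGBA.pyth u a ha
    have e3 := hGBA.bet u a ha
    have e4 : 0 ≤ lam u a := by
      rw [e3]
      have := hr0 a ha
      have := sq_nonneg ‖u a - a‖
      linarith
    have e5 : lam u a ≤ gx u + ‖u a - a‖ ^ 2 / 2 := by
      rw [e3]
      have := hrx a ha
      linarith
    have e6 : lam u a ^ 2 ≤ (gx u + ‖u a - a‖ ^ 2 / 2) ^ 2 := pow_le_pow_left₀ e4 e5 2
    norm_num at e1
    linarith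
  -- (2)
  obtain ⟨H, hH0, hHS, hHmax, h2⟩ : ∃ H : ℝ, 0 ≤ H ∧ H ≤ gS u ∧
      (∀ e ∈ UE, ∀ f ∈ nb e, hS u e f ≤ H) ∧
      7 * H ≤ 4 * gS u + 30 * ((gx u + m / 2) * (gx u + H / 2)) := by
    obtain ⟨a, ha⟩ := hne
    obtain ⟨b, hb⟩ : (nb a).Nonempty := by
      rw [← Finset.card_pos, hUEF.c56 a ha]
      norm_num
    have hbd : ∃ p ∈ UE, ∃ q ∈ nb p, ∀ e ∈ UE, ∀ f ∈ nb e, hS u e f ≤ hS u p q := by
      have hm1 : ∀ e ∈ UE, ∀ f ∈ nb e,
          hS u e f ∈ UE.biUnion fun e => (nb e).image fun f => hS u e f := by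
        intro e he f hf
        have h1 : hS u e f ∈ (nb e).image fun f => hS u e f := by
          rw [Finset.mem_image]
          exact ⟨f, hf, rfl⟩
        rw [Finset.mem_biUnion]
        exact ⟨e, he, h1⟩
      have hm2 : ∀ y ∈ UE.biUnion fun e => (nb e).image fun f => hS u e f,
          ∃ p ∈ UE, ∃ q ∈ nb p, hS u p q = y := by
        intro y hy
        rw [Finset.mem_biUnion] at hy
        obtain ⟨p, hp, hy2⟩ := hy
        rw [Finset.mem_image] at hy2
        obtain ⟨q, hq, hy3⟩ := hy2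
        exact ⟨p, hp, q, hq, hy3⟩
      generalize (UE.biUnion fun e => (nb e).image fun f => hS u e f) = T at hm1 hm2
      obtain ⟨y, hy, hymax⟩ := Finset.exists_max_image T id ⟨_, hm1 a ha b hb⟩
      obtain ⟨p, hp, q, hq, hy3⟩ := hm2 y hy
      refine ⟨p, hp, q, hq, fun e he f hf => ?_⟩
      rw [hy3]
      exact hymax _ (hm1 e he f hf)
    obtain ⟨p, hp, q, hq, hPmax⟩ := hbd
    refine ⟨hS u p q, Finset.sum_nonneg fun i _ => sq_nonneg _, hS_le hHXC u hp hq, hPmax, ?_⟩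
    have e1 := hHXN u hu p hp q hq (1 / 3) (by norm_num) (by norm_num)
    have e2 := hHLB u hu m hmax p hp q hq
    norm_num at e1
    linarith
  -- (3)
  have hHm : H ≤ gS u := hHS
  have hW : ∀ e ∈ UE, ∀ f ∈ nb e, gw u e f ≤ gx u + 3 / 2 * H := fun e he f hf => by
    have := hHEX u hu e he f hf
    have := hHmax e he f hf
    linarith
  have hK : ∀ e ∈ UE, ∀ f ∈ nb e, gw u e f + ‖u e - e‖ * ‖u f - f‖ ≤ gx u + 177 / 100 * H :=
    fun e he f hf => by
      have := hHXK u hu e he f hf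
      have := hHmax e he f hf
      linarith
  have h3 : 6 * gS u ≤ 41 * ((gx u + m / 2) * (gx u + gS u / 2))
      + 5 / 8 * (gx u + gS u / 2) ^ 2 + 5 * gS u ^ 2 + (gx u + 177 / 100 * H) * gL u := by
    have e1 := hERK u hu m (gx u + 177 / 100 * H) (1 / 4) (by norm_num) hmax hK
    norm_num at e1 ⊢
    linarith
  -- (4)
  have h4 : gx u + 3 / 2 * H ≤ 1 / 2 →
      17 / 1000 * (base (1 / 2 - (gx u + 3 / 2 * H)) * (gL u - 2 * gx u ^ 2)) ≤
        72655 / 10 ^ 7 + 31 / 10 ^ 8 * (108 * gL u + 4032 * gx u) := by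
    intro hWh
    refine le_trans (mul_le_mul_of_nonneg_left ?_ (by norm_num)) hC
    have hB0 : 0 ≤ base (1 / 2 - (gx u + 3 / 2 * H)) := base_nonneg (by linarith)
    have k1 : ∀ e ∈ UE, ∀ f ∈ nb e,
        base (1 / 2 - (gx u + 3 / 2 * H)) * (gw u e f - 2 * (gr u e * gr u f)) ≤
          base (TT (u e) (u f)) * (1 / 2 - TT (u e) (u f)) := by
      intro e he f hf
      have hf' := Finset.mem_filter.mp hf
      have hfU : f ∈ UE := hf'.1
      have hne' : e ≠ f := by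
        intro h
        have h1 := hf'.2
        rw [h, real_inner_self_eq_norm_sq, hUEF.nrm f hfU] at h1
        norm_num at h1
      have hT : TT (u e) (u f) = 1 / 2 - (gw u e f - 2 * (gr u e * gr u f)) := by
        unfold TT gw gr
        ring
      have hp0 : 0 ≤ gw u e f - 2 * (gr u e * gr u f) := by
        have := hGBA.w2 u hu e he f hfU hne'
        linarith
      have hp1 : gw u e f - 2 * (gr u e * gr u f) ≤ gx u + 3 / 2 * H := by
        have := hW e he f hf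
        have := mul_nonneg (hr0 e he) (hr0 f hfU)
        linarith
      rw [hT]
      have e1 : base (1 / 2 - (gx u + 3 / 2 * H)) ≤
          base (1 / 2 - (gw u e f - 2 * (gr u e * gr u f))) :=
        base_mono (by linarith) (by linarith)
      have e2 := mul_le_mul_of_nonneg_right e1 hp0
      linarith
    have k2 : ∑ e ∈ UE, ∑ f ∈ nb e, (gr u e * gr u f) ≤ gx u ^ 2 := by
      have e1 : gx u ^ 2 = ∑ e ∈ UE, ∑ f ∈ UE, (gr u e * gr u f) := by
        rw [sq]
        unfold gx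
        rw [Finset.sum_mul_sum]
      rw [e1]
      refine Finset.sum_le_sum fun e he => ?_
      refine Finset.sum_le_sum_of_subset_of_nonneg (Finset.filter_subset _ _) ?_
      intro f hf _
      exact mul_nonneg (hr0 e he) (hr0 f hf)
    have k3 : gL u - 2 * gx u ^ 2 ≤
        ∑ e ∈ UE, ∑ f ∈ nb e, (gw u e f - 2 * (gr u e * gr u f)) := by
      have e1 : ∑ e ∈ UE, ∑ f ∈ nb e, (gw u e f - 2 * (gr u e * gr u f)) =
          gL u - 2 * ∑ e ∈ UE, ∑ f ∈ nb e, (gr u e * gr u f) := by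
        unfold gL
        simp only [Finset.sum_sub_distrib, Finset.mul_sum]
      rw [e1]
      linarith
    calc base (1 / 2 - (gx u + 3 / 2 * H)) * (gL u - 2 * gx u ^ 2)
        ≤ base (1 / 2 - (gx u + 3 / 2 * H)) *
            ∑ e ∈ UE, ∑ f ∈ nb e, (gw u e f - 2 * (gr u e * gr u f)) :=
          mul_le_mul_of_nonneg_left k3 hB0
      _ = ∑ e ∈ UE, ∑ f ∈ nb e,
            base (1 / 2 - (gx u + 3 / 2 * H)) * (gw u e f - 2 * (gr u e * gr u f)) := by
          simp only [Finset.mul_sum]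
      _ ≤ _ := Finset.sum_le_sum fun e he => Finset.sum_le_sum fun f hf => k1 e he f hf
  have hS0 : 0 ≤ gS u := Finset.sum_nonneg fun e _ => sq_nonneg _
  -- (5)
  have hX : gx u ≤ 213 / 10000 := by
    have a1 : gx u + 3 / 2 * H ≤ 159 / 1000 := by linarith
    have a2 := h4 (by linarith)
    have a3 : (110 / 1000 : ℝ) ≤ base (1 / 2 - (gx u + 3 / 2 * H)) := by
      refine le_trans ?_ (base_mono (a := 1 / 2 - 159 / 1000) (by norm_num) (by linarith))
      norm_num [base]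
    have a4 : gx u ^ 2 ≤ (24 / 1000) ^ 2 := pow_le_pow_left₀ hx0 hx24 2
    have a5 : gL u ≤ 4 := by
      by_contra hcon
      push Not at hcon
      have a6 : 0 ≤ gL u - 2 * gx u ^ 2 := by
        norm_num at a4
        linarith
      have a7 := mul_le_mul_of_nonneg_right a3 a6
      norm_num at a2 a4 a7
      linarith
    norm_num at hxB ⊢
    linarith
  have B := fun (S1 S2 X2 mm HH Q1 LL BB : ℝ) (hX : gx u ≤ X2) (hS1 : S1 ≤ gS u)
      (hS2 : gS u ≤ S2) =>
    box2 (S := gS u) (x := gx u) (m := m) (H := H) (L := gL u) S1 S2 X2 mm HH Q1 LL BB hx0 hX hm0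
      hmS hH0 h1 h2 h3 h4 hS1 hS2
  have hfirst : gS u ≤ 1 / 50 := by
    by_contra hcon
    push Not at hcon
    rcases le_total (gS u) (47 / 2000) with h | h
    · exact B (1 / 50) (47 / 2000) (213 / 10000) (589 / 50000) (169 / 10000) (8249 / 100000) (161 / 100) (1357 / 5000) hX (by linarith) h
        (by norm_num) (by norm_num) (by norm_num) (by norm_num) (by norm_num) (by norm_num)
        (by norm_num) (by norm_num) (by norm_num) (by norm_num) (by norm_num)
        (by norm_num [base]) (by norm_num) (by norm_num) (by norm_num) (by norm_num)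
    rcases le_total (gS u) (59 / 2000) with h | h
    · exact B (47 / 2000) (59 / 2000) (213 / 10000) (1413 / 100000) (2071 / 100000) (1239 / 12500) (171 / 100) (651 / 2500) hX (by linarith) h
        (by norm_num) (by norm_num) (by norm_num) (by norm_num) (by norm_num) (by norm_num)
        (by norm_num) (by norm_num) (by norm_num) (by norm_num) (by norm_num)
        (by norm_num [base]) (by norm_num) (by norm_num) (by norm_num) (by norm_num)
    rcases le_total (gS u) (79 / 2000) with h | h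
    · exact B (59 / 2000) (79 / 2000) (213 / 10000) (113 / 6250) (2711 / 100000) (12699 / 100000) (229 / 125) (2427 / 10000) hX (by linarith) h
        (by norm_num) (by norm_num) (by norm_num) (by norm_num) (by norm_num) (by norm_num)
        (by norm_num) (by norm_num) (by norm_num) (by norm_num) (by norm_num)
        (by norm_num [base]) (by norm_num) (by norm_num) (by norm_num) (by norm_num)
    rcases le_total (gS u) (27 / 500) with h | h
    · exact B (79 / 2000) (27 / 500) (213 / 10000) (239 / 10000) (73 / 2000) (8609 / 50000) (501 / 250) (273 / 1250) hX (by linarith) h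
        (by norm_num) (by norm_num) (by norm_num) (by norm_num) (by norm_num) (by norm_num)
        (by norm_num) (by norm_num) (by norm_num) (by norm_num) (by norm_num)
        (by norm_num [base]) (by norm_num) (by norm_num) (by norm_num) (by norm_num)
    rcases le_total (gS u) (69 / 1000) with h | h
    · exact B (27 / 500) (69 / 1000) (213 / 10000) (751 / 25000) (1159 / 25000) (23603 / 100000) (2283 / 1000) (1949 / 10000) hX (by linarith) h
        (by norm_num) (by norm_num) (by norm_num) (by norm_num) (by norm_num) (by norm_num)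
        (by norm_num) (by norm_num) (by norm_num) (by norm_num) (by norm_num)
        (by norm_num [base]) (by norm_num) (by norm_num) (by norm_num) (by norm_num)
    rcases le_total (gS u) (41 / 500) with h | h
    · exact B (69 / 1000) (41 / 500) (213 / 10000) (1773 / 50000) (5503 / 100000) (5979 / 20000) (1259 / 500) (1759 / 10000) hX (by linarith) h
        (by norm_num) (by norm_num) (by norm_num) (by norm_num) (by norm_num) (by norm_num)
        (by norm_num) (by norm_num) (by norm_num) (by norm_num) (by norm_num)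
        (by norm_num [base]) (by norm_num) (by norm_num) (by norm_num) (by norm_num)
    exact B (41 / 500) (9 / 100) (213 / 10000) (777 / 20000) (3021 / 50000) (35193 / 100000) (343 / 125) (103 / 625) hX h (by linarith)
        (by norm_num) (by norm_num) (by norm_num) (by norm_num) (by norm_num) (by norm_num)
        (by norm_num) (by norm_num) (by norm_num) (by norm_num) (by norm_num)
        (by norm_num [base]) (by norm_num) (by norm_num) (by norm_num) (by norm_num)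
  have hsecond : gx u ≤ 1 / 80 → gS u ≤ 3 / 200 := by
    intro hx'
    by_contra hcon
    push Not at hcon
    exact B (3 / 200) (1 / 50) (1 / 80) (407 / 50000) (1277 / 100000) (7503 / 100000) (2137 / 1000) (151 / 500) hx' (by linarith) (by linarith)
        (by norm_num) (by norm_num) (by norm_num) (by norm_num) (by norm_num) (by norm_num)
        (by norm_num) (by norm_num) (by norm_num) (by norm_num) (by norm_num)
        (by norm_num [base]) (by norm_num) (by norm_num) (by norm_num) (by norm_num)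
  refine ⟨hX, hfirst, hsecond, fun hx' => ?_⟩
  have hS15 := hsecond (by linarith)
  by_contra hcon
  push Not at hcon
  exact B (1 / 100) (3 / 200) (1 / 100) (59 / 10000) (939 / 100000) (5139 / 100000) (193 / 100) (3183 / 10000) hx' (by linarith) (by linarith)
        (by norm_num) (by norm_num) (by norm_num) (by norm_num) (by norm_num) (by norm_num)
        (by norm_num) (by norm_num) (by norm_num) (by norm_num) (by norm_num)
        (by norm_num [base]) (by norm_num) (by norm_num) (by norm_num) (by norm_num)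

end Pool.Agent.Lib.MP_f1379f_gt.FV
end
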