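import Pool.Agent.Lib.MP_f1379f_gt.FV.SpecL1
import Pool.Agent.Lib.MP_f1379f_gt.FV.L1D
import Pool.Agent.Lib.MP_f1379f_gt.FV.HLB
import Pool.Agent.Lib.MP_f1379f_gt.FV.STG2

section
/-!
# MP_f1379f_gt, (L1), part A: pointwise inequalities
-/
set_option autoImplicit false

namespace Pool.Agent.Lib.MP_f1379f_gt.FV.L1M

theorem base_nonneg {T : ℝ} (h : -1 ≤ T) : 0 ≤ base T := by
  unfold base
  have : 0 ≤ T + 1 := by linarith
  positivity

theorem base_mono {a b : ℝ} (ha : 0 ≤ a) (hab : a ≤ b) : base a ≤ base b := by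
  unfold base
  have : 0 ≤ b := ha.trans hab
  gcongr

theorem q_nonneg {y : ℝ} (h1 : -(9 / 25) ≤ y) (h2 : y ≤ 9 / 25) :
    0 ≤ (y + 1) * (y + 1 / 2) ^ 2 * (1 / 2 - y) - 7 / 100 + 14 / 25 * y ^ 2 := by
  have e : (y + 1) * (y + 1 / 2) ^ 2 * (1 / 2 - y) - 7 / 100 + 14 / 25 * y ^ 2 =
      (y + 1 / 4) ^ 2 * (349 / 400 - y - y ^ 2) + (1 / 800 * y + 3 / 6400) := by ring
  rw [e]
  have h3 : 0 ≤ 349 / 400 - y - y ^ 2 := by nlinarith
  have h4 : 0 ≤ 1 / 800 * y + 3 / 6400 := by linarith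
  positivity

theorem p_zero {y : ℝ} (h1 : -(9 / 25) ≤ y) (h2 : y ≤ 9 / 25) :
    7 / 100 * y ^ 2 - 14 / 25 * y ^ 4 ≤ base y * (1 / 2 - y) := by
  have h := mul_nonneg (sq_nonneg y) (q_nonneg h1 h2)
  unfold base
  nlinarith

theorem p_half {y : ℝ} (h1 : -(9 / 25) ≤ y) (h2 : y ≤ 9 / 25) :
    7 / 100 * y ^ 2 - 14 / 25 * y ^ 4 ≤ base (-1 / 2 + y) * (1 / 2 - (-1 / 2 + y)) := by
  have h := p_zero (y := -y) (by linarith) (by linarith)
  have e : base (-1 / 2 + y) * (1 / 2 - (-1 / 2 + y)) = base (-y) * (1 / 2 - -y) := by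
    unfold base
    ring
  rw [e]
  have e2 : (-y) ^ 2 = y ^ 2 := by ring
  have e4 : (-y) ^ 4 = y ^ 4 := by ring
  rw [e2, e4] at h
  exact h

theorem p_one {y : ℝ} (h1 : 0 ≤ y) (h2 : y ≤ 9 / 25) :
    7 / 100 * y ^ 2 - 14 / 25 * y ^ 4 ≤ base (-1 + y) * (1 / 2 - (-1 + y)) := by
  have e : base (-1 + y) * (1 / 2 - (-1 + y)) =
      y * ((1 / 2 - y) ^ 2 * (1 - y) ^ 2 * (3 / 2 - y)) := by
    unfold base
    ring
  have e2 : 7 / 100 * y ^ 2 - 14 / 25 * y ^ 4 = y * (y * (7 / 100 - 14 / 25 * y ^ 2)) := by ring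
  rw [e, e2]
  refine mul_le_mul_of_nonneg_left ?_ h1
  by_cases h3 : y ≤ 3 / 10
  · have a1 : (1 / 5 : ℝ) ^ 2 ≤ (1 / 2 - y) ^ 2 := by gcongr; linarith
    have a2 : (7 / 10 : ℝ) ^ 2 ≤ (1 - y) ^ 2 := by gcongr; linarith
    have a3 : (6 / 5 : ℝ) ≤ 3 / 2 - y := by linarith
    have a4 : (1 / 5 : ℝ) ^ 2 * (7 / 10) ^ 2 * (6 / 5) ≤
        (1 / 2 - y) ^ 2 * (1 - y) ^ 2 * (3 / 2 - y) := by gcongr
    have a5 : y * (7 / 100 - 14 / 25 * y ^ 2) ≤ 21 / 1000 := by nlinarith [sq_nonneg y]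
    refine a5.trans (le_trans ?_ a4)
    norm_num
  · push Not at h3
    have a1 : (7 / 50 : ℝ) ^ 2 ≤ (1 / 2 - y) ^ 2 := by gcongr; linarith
    have a2 : (16 / 25 : ℝ) ^ 2 ≤ (1 - y) ^ 2 := by gcongr; linarith
    have a3 : (57 / 50 : ℝ) ≤ 3 / 2 - y := by linarith
    have a4 : (7 / 50 : ℝ) ^ 2 * (16 / 25) ^ 2 * (57 / 50) ≤
        (1 / 2 - y) ^ 2 * (1 - y) ^ 2 * (3 / 2 - y) := by gcongr
    have a6 : 7 / 100 - 14 / 25 * y ^ 2 ≤ 196 / 10000 := by nlinarith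
    have a5 : y * (7 / 100 - 14 / 25 * y ^ 2) ≤ 9 / 25 * (196 / 10000) := by
      calc y * (7 / 100 - 14 / 25 * y ^ 2) ≤ y * (196 / 10000) :=
            mul_le_mul_of_nonneg_left a6 h1
        _ ≤ 9 / 25 * (196 / 10000) := by gcongr
    refine a5.trans (le_trans ?_ a4)
    norm_num

/-- Pointwise inequality for non-contact pairs, with the label `l` and the shift `τ`. -/
theorem point_nc {l δ τ : ℝ} (hl : l = 0 ∨ l = -1 / 2 ∨ l = -1) (h0 : 0 ≤ τ) (h1 : τ ≤ 1 / 500)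
    (h2 : -1 ≤ l + δ + τ) (h3 : l + δ + τ ≤ 1 / 2) :
    7 / 100 * δ ^ 2 - 14 / 25 * δ ^ 4 - τ ≤ base (l + δ + τ) * (1 / 2 - (l + δ + τ)) := by
  have hφ : 0 ≤ base (l + δ + τ) * (1 / 2 - (l + δ + τ)) :=
    mul_nonneg (base_nonneg h2) (by linarith)
  by_cases h4 : δ ^ 2 ≤ 1 / 8
  · have h5 : |δ| ≤ 89 / 250 := by
      refine abs_le_of_sq_le_sq ?_ (by norm_num)
      nlinarith
    rw [abs_le] at h5
    have hy1 : -(9 / 25) ≤ δ + τ := by linarith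
    have hy2 : δ + τ ≤ 9 / 25 := by linarith
    have h6 : 7 / 100 * (δ + τ) ^ 2 - 14 / 25 * (δ + τ) ^ 4 ≤
        base (l + δ + τ) * (1 / 2 - (l + δ + τ)) := by
      rcases hl with h | h | h
      · have h7 := p_zero hy1 hy2
        rw [h, zero_add]
        exact h7
      · have h7 := p_half hy1 hy2
        rw [h, add_assoc]
        exact h7
      · rw [h] at h2
        have h7 := p_one (y := δ + τ) (by linarith) hy2
        rw [h, add_assoc]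
        exact h7
    have h8 : 7 / 100 * (δ + τ) ^ 2 - 14 / 25 * (δ + τ) ^ 4 - (7 / 100 * δ ^ 2 - 14 / 25 * δ ^ 4) =
        τ * ((2 * δ + τ) * (7 / 100 - 14 / 25 * ((δ + τ) ^ 2 + δ ^ 2))) := by ring
    have h9 : -1 ≤ (2 * δ + τ) * (7 / 100 - 14 / 25 * ((δ + τ) ^ 2 + δ ^ 2)) := by
      have b1 : |2 * δ + τ| ≤ 1 := by
        rw [abs_le]
        constructor <;> linarith
      have b2 : |7 / 100 - 14 / 25 * ((δ + τ) ^ 2 + δ ^ 2)| ≤ 1 := by
        have c1 : (δ + τ) ^ 2 ≤ 1 := by nlinarith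
        rw [abs_le]
        constructor
        · nlinarith
        · nlinarith [sq_nonneg (δ + τ), sq_nonneg δ]
      have b3 : |(2 * δ + τ) * (7 / 100 - 14 / 25 * ((δ + τ) ^ 2 + δ ^ 2))| ≤ 1 := by
        rw [abs_mul]
        exact mul_le_one₀ b1 (abs_nonneg _) b2
      exact (abs_le.mp b3).1
    have h10 : -τ ≤ τ * ((2 * δ + τ) * (7 / 100 - 14 / 25 * ((δ + τ) ^ 2 + δ ^ 2))) := by
      nlinarith
    linarith
  · push Not at h4
    have h5 : 7 / 100 * δ ^ 2 - 14 / 25 * δ ^ 4 ≤ 0 := by nlinarith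
    linarith

/-- Pointwise inequality for contact pairs. -/
theorem point_c {w τ W : ℝ} (h0 : 0 ≤ τ) (h1 : τ ≤ w) (h2 : w ≤ W) (h3 : W ≤ 1 / 2) :
    7 / 100 * w ^ 2 + (base (1 / 2 - W) - 7 / 100 * W) * w - τ ≤
      base (1 / 2 - (w - τ)) * (1 / 2 - (1 / 2 - (w - τ))) := by
  have hw : 0 ≤ w := h0.trans h1
  have hm : base (1 / 2 - W) ≤ base (1 / 2 - (w - τ)) := base_mono (by linarith) (by linarith)
  have hb : base (1 / 2 - W) ≤ 1 := by
    have : base (1 / 2 - W) ≤ base (1 / 2) := base_mono (by linarith) (by linarith)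
    refine this.trans ?_
    unfold base
    norm_num
  have hb0 : 0 ≤ base (1 / 2 - W) := base_nonneg (by linarith)
  have e : (1 / 2 - (1 / 2 - (w - τ)) : ℝ) = w - τ := by ring
  rw [e]
  have h4 : base (1 / 2 - W) * (w - τ) ≤ base (1 / 2 - (w - τ)) * (w - τ) :=
    mul_le_mul_of_nonneg_right hm (by linarith)
  have h5 : 7 / 100 * w ^ 2 ≤ 7 / 100 * W * w := by nlinarith
  have h6 : base (1 / 2 - W) * τ ≤ τ := by nlinarith
  nlinarith

end Pool.Agent.Lib.MP_f1379f_gt.FV.L1M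
end

section
/-!
# MP_f1379f_gt, (L1), part E: assembly
-/
set_option autoImplicit false

namespace Pool.Agent.Lib.MP_f1379f_gt.FV.L1M

open Finset

variable {u : E → E}

theorem r_le (hu : CFG u) {e : E} (he : e ∈ UE) : gr u e ≤ gx u :=
  single_le_sum (f := fun e => gr u e) (fun f hf => hGBA.r0 u hu f hf) he

theorem gx_nonneg (hu : CFG u) : 0 ≤ gx u := sum_nonneg fun f hf => hGBA.r0 u hu f hf

theorem TT_eq (e f : E) : TT (u e) (u f) = inner ℝ e f + dd u e f + 2 * gr u e * gr u f := by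
  unfold TT dd gr
  ring

theorem prod_small {a b : ℝ} (ha : 0 ≤ a) (hb : 0 ≤ b) (ha1 : a ≤ 24 / 1000)
    (hb1 : b ≤ 24 / 1000) : 0 ≤ 2 * a * b ∧ 2 * a * b ≤ 1 / 500 := by
  constructor
  · positivity
  · have : a * b ≤ 24 / 1000 * (24 / 1000) := by gcongr
    nlinarith

/-- Non-contact pairs. -/
theorem pair_nc (hu : CFG u) (hx : gx u ≤ 24 / 1000) {e f : E} (he : e ∈ UE) (hf : f ∈ nc e) :
    7 / 100 * dd u e f ^ 2 - 14 / 25 * dd u e f ^ 4 - 2 * gr u e * gr u f ≤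
      base (TT (u e) (u f)) * (1 / 2 - TT (u e) (u f)) := by
  obtain ⟨hfU, hne, hip⟩ := mem_nc.mp hf
  have hl : (inner ℝ e f : ℝ) = 0 ∨ (inner ℝ e f : ℝ) = -1 / 2 ∨ (inner ℝ e f : ℝ) = -1 := by
    rcases AllO.hUEF.ip e he f hfU with h | h | h | h | h
    · exact absurd (AllO.hUEF.one e he f hfU h).symm hne
    · rw [real_inner_comm] at hip
      exact absurd h hip
    · exact Or.inl h
    · exact Or.inr (Or.inl h)
    · exact Or.inr (Or.inr h)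
  have r1 := hGBA.r0 u hu e he
  have r2 := hGBA.r0 u hu f hfU
  obtain ⟨t1, t2⟩ := prod_small r1 r2 ((r_le hu he).trans hx) ((r_le hu hfU).trans hx)
  have hw := hGBA.w2 u hu e he f hfU (fun h => hne h.symm)
  have e1 : (inner ℝ e f : ℝ) + dd u e f = inner ℝ (u e) (u f) := by
    unfold dd; ring
  have h3 : -1 ≤ (inner ℝ (u e) (u f) : ℝ) := by
    have h4 := abs_real_inner_le_norm (u e) (u f)
    have h5 : ‖u e‖ * ‖u f‖ ≤ 1 * 1 := by
      have a1 := hu.le_one e he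
      have a2 := hu.le_one f hfU
      gcongr
    have h6 := neg_abs_le (inner ℝ (u e) (u f) : ℝ)
    linarith
  have h7 := point_nc (δ := dd u e f) hl t1 t2 (by rw [e1]; linarith) (by
    rw [e1]
    unfold gw at hw
    linarith)
  rw [TT_eq]
  exact h7

/-- Contact pairs. -/
theorem pair_c (hu : CFG u) {W : ℝ} (hW : ∀ e ∈ UE, ∀ f ∈ nb e, gw u e f ≤ W) (hW2 : W ≤ 1 / 2)
    {e f : E} (he : e ∈ UE) (hf : f ∈ nb e) :
    7 / 100 * dd u e f ^ 2 + (base (1 / 2 - W) - 7 / 100 * W) * gw u e f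
      - 2 * gr u e * gr u f ≤ base (TT (u e) (u f)) * (1 / 2 - TT (u e) (u f)) := by
  have hfU := UMO.nb_UE hf
  have r1 := hGBA.r0 u hu e he
  have r2 := hGBA.r0 u hu f hfU
  have hef : e ≠ f := by
    intro h
    rw [← h] at hf
    exact e_nb e he hf
  have hw := hGBA.w2 u hu e he f hfU hef
  have t1 : 0 ≤ 2 * gr u e * gr u f := mul_nonneg (mul_nonneg (by norm_num) r1) r2
  have h := point_c t1 (by linarith : 2 * gr u e * gr u f ≤ gw u e f) (hW e he f hf) hW2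
  have hip : (inner ℝ e f : ℝ) = 1 / 2 := by
    rw [real_inner_comm]; exact UMO.nb_ip hf
  have e1 : gw u e f = -dd u e f := by
    unfold gw dd
    rw [hip]; ring
  have e2 : TT (u e) (u f) = 1 / 2 - (gw u e f - 2 * gr u e * gr u f) := by
    rw [TT_eq, hip, e1]; ring
  have e3 : dd u e f ^ 2 = gw u e f ^ 2 := by
    rw [e1]; ring
  rw [e2, e3]
  exact h

/-- Lower bound of the energy. -/
theorem energy (hu : CFG u) (hx : gx u ≤ 24 / 1000) {W : ℝ}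
    (hW : ∀ e ∈ UE, ∀ f ∈ nb e, gw u e f ≤ W) (hW2 : W ≤ 1 / 2) :
    7 / 100 * (60 * gS u - gS u ^ 2 - 4 * gx u ^ 2)
      - 14 / 25 * (∑ e ∈ UE, ∑ f ∈ nc e, dd u e f ^ 4)
      + (base (1 / 2 - W) - 7 / 100 * W) * gL u - 2 * gx u ^ 2 ≤
    ∑ e ∈ UE, ∑ f ∈ UE.erase e, base (TT (u e) (u f)) * (1 / 2 - TT (u e) (u f)) := by
  classical
  have h1 : ∀ e ∈ UE, 7 / 100 * (∑ f ∈ UE, dd u e f ^ 2) - 7 / 100 * dd u e e ^ 2
      - 14 / 25 * (∑ f ∈ nc e, dd u e f ^ 4)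
      + (base (1 / 2 - W) - 7 / 100 * W) * (∑ f ∈ nb e, gw u e f)
      - 2 * gr u e * gx u ≤
      ∑ f ∈ UE.erase e, base (TT (u e) (u f)) * (1 / 2 - TT (u e) (u f)) := by
    intro e he
    have a1 := sum_le_sum fun f hf => pair_nc hu hx he (f := f) hf
    have a2 := sum_le_sum fun f hf => pair_c hu hW hW2 he (f := f) hf
    rw [split_erase e he]
    rw [sum_sub_distrib, sum_sub_distrib, ← mul_sum, ← mul_sum, ← mul_sum] at a1
    rw [sum_sub_distrib, sum_add_distrib, ← mul_sum, ← mul_sum, ← mul_sum] at a2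
    have a3 := split e he fun f => dd u e f ^ 2
    have a4 := split e he fun f => gr u f
    have a5 : gx u = ∑ f ∈ UE, gr u f := rfl
    have a6 := hGBA.r0 u hu e he
    rw [a5, a4]
    have a7 : 0 ≤ 2 * gr u e * gr u e := mul_nonneg (mul_nonneg (by norm_num) a6) a6
    have a8 : 2 * gr u e * (gr u e + ∑ f ∈ nb e, gr u f + ∑ f ∈ nc e, gr u f) =
        2 * gr u e * gr u e + 2 * gr u e * ∑ f ∈ nb e, gr u f
          + 2 * gr u e * ∑ f ∈ nc e, gr u f := by ring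
    rw [a3, a8]
    linarith
  have h2 := sum_le_sum h1
  simp only [sum_sub_distrib, sum_add_distrib, ← mul_sum, ← sum_mul] at h2
  have h3 := gram hu
  have h4 : ∑ e ∈ UE, dd u e e ^ 2 ≤ 4 * gx u ^ 2 := by
    have b1 : ∀ e ∈ UE, dd u e e ^ 2 ≤ 4 * gx u * gr u e := by
      intro e he
      have b2 : dd u e e = -(2 * gr u e) := by
        unfold dd gr
        rw [real_inner_self_eq_norm_sq, real_inner_self_eq_norm_sq, AllO.hUEF.nrm e he]
        ring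
      have b3 := hGBA.r0 u hu e he
      have b4 := r_le hu he
      have b5 : (-(2 * gr u e)) ^ 2 = 4 * gr u e * gr u e := by ring
      rw [b2, b5]
      have b6 : 4 * gr u e ≤ 4 * gx u := by linarith
      exact mul_le_mul_of_nonneg_right b6 b3
    refine (sum_le_sum b1).trans (le_of_eq ?_)
    rw [← mul_sum]
    unfold gx
    ring
  have h5 : 2 * (∑ e ∈ UE, gr u e) * gx u = 2 * gx u ^ 2 := by
    unfold gx
    ring
  have h6 : gL u = ∑ e ∈ UE, ∑ f ∈ nb e, gw u e f := rfl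
  rw [h5, ← h6] at h2
  linarith

end Pool.Agent.Lib.MP_f1379f_gt.FV.L1M
end

section
/-!
# MP_f1379f_gt, (L1), part F: the boxes
-/
set_option autoImplicit false

namespace Pool.Agent.Lib.MP_f1379f_gt.FV.L1M

open Finset

variable {u : E → E}

theorem hHXC : SpecHXC := specHXC AllO.hUEF
theorem hHLB : SpecHLB := specHLB hGBA hHXC
theorem hHEX : SpecHEX := specHEX hGBA hHXC
theorem hHXN : SpecHXN := specHXN AllO.hUEF hGBA hHXC
theorem hHXK : SpecHXK := specHXK hGBA hHXC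
theorem hERK : SpecERK := specERK AllO.hUEF hGBA (mkf AllO.hUEF EV.All.hROT EV.All.hPOL)

/-- The function of `S` in a box. -/
noncomputable def FF (mm HH S : ℝ) : ℝ :=
  (24 / 1000 + 177 / 100 * HH) * (17 / 1000 * (7 / 100 * (60 * S - S ^ 2 - 4 * (24 / 1000) ^ 2)
      - 14 / 25 * (13 * S ^ 2 + (2519 / 75 * mm + 38 / 3) * mm * (553 / 30) * (mm + 24 / 1000)
        * (24 / 1000)) - 2 * (24 / 1000) ^ 2)
      - (72655 / 10 ^ 7 + 31 / 10 ^ 8 * (4032 * (24 / 1000))))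
    + (17 / 1000 * (base (1 / 2 - (24 / 1000 + 3 / 2 * HH))
        - 7 / 100 * (24 / 1000 + 3 / 2 * HH)) - 3348 / 10 ^ 8)
      * (6 * S - 41 * ((24 / 1000 + mm / 2) * (24 / 1000 + S / 2))
        - 5 / 8 * (24 / 1000 + S / 2) ^ 2 - 5 * S ^ 2)

theorem m_num {σ r x S S2 mm : ℝ} (h0 : 0 ≤ σ) (hr0 : 0 ≤ r) (hr : r ≤ x) (hx : x ≤ 24 / 1000)
    (hσ : σ ≤ 1 / 4) (hS : S ≤ S2)
    (h : 0 ≤ S - 31 / 10 * σ + 553 / 30 * (r + σ / 2) ^ 2) (hmm2 : mm ≤ 13 / 100)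
    (n1 : S2 < 31 / 10 * mm - 553 / 30 * (24 / 1000 + mm / 2) ^ 2) : σ ≤ mm := by
  by_contra hc
  push Not at hc
  have h1 : (r + σ / 2) ^ 2 ≤ (24 / 1000 + σ / 2) ^ 2 := by
    have : 0 ≤ r + σ / 2 := by positivity
    gcongr
    linarith
  have h2 : 31 / 10 * σ - 553 / 30 * (24 / 1000 + σ / 2) ^ 2 ≤ S2 := by linarith
  nlinarith [mul_nonneg (sub_nonneg.2 hc.le) (sub_nonneg.2 hσ)]

theorem h_num {h S x m S2 mm HH Q : ℝ} (h0 : 0 ≤ h) (hx0 : 0 ≤ x) (hx : x ≤ 24 / 1000)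
    (hm0 : 0 ≤ m) (hm : m ≤ mm) (hmm : mm ≤ 13 / 100) (hS : S ≤ S2)
    (h1 : (1 + 9 / 8 * (1 - 2 / 5)) * h ≤ S + (9 / 8 * (1 - 2 / 5) + 27 / 8 * (1 / (2 / 5) - 1)) * Q)
    (h2 : Q ≤ (x + m / 2) * (x + h / 2))
    (n2 : S2 + 459 / 80 * ((24 / 1000 + mm / 2) * (24 / 1000 + HH / 2)) ≤ 67 / 40 * HH) :
    h ≤ HH := by
  have h3 : (x + m / 2) * (x + h / 2) ≤ (24 / 1000 + mm / 2) * (24 / 1000 + h / 2) := by
    have : 0 ≤ 24 / 1000 + mm / 2 := by linarith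
    gcongr
  by_contra hc
  push Not at hc
  have h4 : 67 / 40 * h ≤ S2 + 459 / 80 * ((24 / 1000 + mm / 2) * (24 / 1000 + h / 2)) := by
    norm_num at h1
    linarith
  have h5 : (24 / 1000 + mm / 2) * (h - HH) ≤ 9 / 100 * (h - HH) := by
    apply mul_le_mul_of_nonneg_right <;> linarith
  nlinarith

theorem fin_num {S x L E T X mm HH m K κ W : ℝ} (hS0 : 0 ≤ S) (hx0 : 0 ≤ x)
    (hx : x ≤ 24 / 1000) (hm0 : 0 ≤ m) (hm : m ≤ mm) (hHH : 0 ≤ HH)
    (hK : K = 24 / 1000 + 177 / 100 * HH) (hW : W = 24 / 1000 + 3 / 2 * HH)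
    (hκ : κ = base (1 / 2 - W) - 7 / 100 * W)
    (h1 : 7 / 100 * (60 * S - S ^ 2 - 4 * x ^ 2) - 14 / 25 * T + κ * L - 2 * x ^ 2 ≤ E)
    (h2 : T ≤ 13 * S ^ 2 + (2519 / 75 * m + 38 / 3) * m * (553 / 30) * (m + x) * X)
    (hX : X ≤ x) (hX0 : 0 ≤ X)
    (h3 : 17 / 1000 * E ≤ 72655 / 10 ^ 7 + 31 / 10 ^ 8 * (108 * L + 4032 * x))
    (h4 : 6 * S ≤ (28 * (1 + 1 / 4) + 6) * ((x + m / 2) * (x + S / 2))
      + (1 + 1 / 4) / 2 * (x + S / 2) ^ 2 + (1 + 1 / (1 / 4)) * S ^ 2 + K * L)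
    (n3 : 3348 / 10 ^ 8 ≤ 17 / 1000 * κ) (n4 : 0 < FF mm HH S) : False := by
  have hK0 : 0 ≤ K := by rw [hK]; positivity
  have a1 : x ^ 2 ≤ (24 / 1000) ^ 2 := by gcongr
  have a2 : (2519 / 75 * m + 38 / 3) * m * (553 / 30) * (m + x) * X ≤
      (2519 / 75 * mm + 38 / 3) * mm * (553 / 30) * (mm + 24 / 1000) * (24 / 1000) := by
    have : 0 ≤ mm := hm0.trans hm
    have hX' : X ≤ 24 / 1000 := hX.trans hx
    gcongr
  have a3 : (x + m / 2) * (x + S / 2) ≤ (24 / 1000 + mm / 2) * (24 / 1000 + S / 2) := by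
    have : 0 ≤ mm := hm0.trans hm
    gcongr
  have a4 : (x + S / 2) ^ 2 ≤ (24 / 1000 + S / 2) ^ 2 := by gcongr
  have a5 : 6 * S - 41 * ((24 / 1000 + mm / 2) * (24 / 1000 + S / 2))
      - 5 / 8 * (24 / 1000 + S / 2) ^ 2 - 5 * S ^ 2 ≤ K * L := by
    norm_num at h4
    linarith
  have a6 : 17 / 1000 * (7 / 100 * (60 * S - S ^ 2 - 4 * (24 / 1000) ^ 2)
      - 14 / 25 * (13 * S ^ 2 + (2519 / 75 * mm + 38 / 3) * mm * (553 / 30) * (mm + 24 / 1000)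
        * (24 / 1000)) - 2 * (24 / 1000) ^ 2)
      - (72655 / 10 ^ 7 + 31 / 10 ^ 8 * (4032 * (24 / 1000)))
      + (17 / 1000 * κ - 3348 / 10 ^ 8) * L ≤ 0 := by
    linarith
  have a7 := mul_le_mul_of_nonneg_left a6 hK0
  have a8 := mul_le_mul_of_nonneg_left a5 (sub_nonneg.2 n3)
  unfold FF at n4
  rw [← hW, ← hκ, ← hK] at n4
  nlinarith

/-- One box. -/
theorem box (hu : CFG u) (hx : gx u ≤ 24 / 1000)
    (hE : 17 / 1000 * ∑ e ∈ UE, ∑ f ∈ UE.erase e,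
        base (TT (u e) (u f)) * (1 / 2 - TT (u e) (u f)) ≤
      72655 / 10 ^ 7 + 31 / 10 ^ 8 * (108 * gL u + 4032 * gx u))
    (S1 S2 mm HH : ℝ) (h1 : S1 ≤ gS u) (h2 : gS u ≤ S2) (n0 : S2 ≤ 1 / 4) (hmm : 0 ≤ mm)
    (hmm2 : mm ≤ 13 / 100) (hHH : 0 ≤ HH)
    (n1 : S2 < 31 / 10 * mm - 553 / 30 * (24 / 1000 + mm / 2) ^ 2)
    (n2 : S2 + 459 / 80 * ((24 / 1000 + mm / 2) * (24 / 1000 + HH / 2)) ≤ 67 / 40 * HH)
    (n2' : 24 / 1000 + 3 / 2 * HH ≤ 1 / 2)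
    (n3 : 3348 / 10 ^ 8 ≤ 17 / 1000 * (base (1 / 2 - (24 / 1000 + 3 / 2 * HH))
        - 7 / 100 * (24 / 1000 + 3 / 2 * HH)))
    (n4 : ∀ S : ℝ, S1 ≤ S → S ≤ S2 → 0 < FF mm HH S) : False := by
  have hx0 := gx_nonneg hu
  have hS0 : 0 ≤ gS u := sum_nonneg fun _ _ => sq_nonneg _
  have hm : ∀ e ∈ UE, ‖u e - e‖ ^ 2 ≤ mm := by
    intro e he
    have b1 := (cc_nonneg (u := u) e).trans (cc_le hu he)
    have b2 : ‖u e - e‖ ^ 2 ≤ gS u :=
      single_le_sum (f := fun e => ‖u e - e‖ ^ 2) (fun _ _ => sq_nonneg _) he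
    exact m_num (sq_nonneg _) (hGBA.r0 u hu e he) (r_le hu he) hx (b2.trans (h2.trans n0)) h2 b1
      hmm2 n1
  have hH : ∀ e ∈ UE, ∀ f ∈ nb e, hS u e f ≤ HH := by
    intro e he f hf
    have b1 := hHXN u hu e he f hf (2 / 5) (by norm_num) (by norm_num)
    have b2 := hHLB u hu mm hm e he f hf
    exact h_num (sum_nonneg fun _ _ => sq_nonneg _) hx0 hx hmm le_rfl hmm2 h2 b1 b2 n2
  have hW : ∀ e ∈ UE, ∀ f ∈ nb e, gw u e f ≤ 24 / 1000 + 3 / 2 * HH := by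
    intro e he f hf
    have b1 := hHEX u hu e he f hf
    have b2 := hH e he f hf
    linarith
  have hK : ∀ e ∈ UE, ∀ f ∈ nb e, gw u e f + ‖u e - e‖ * ‖u f - f‖ ≤
      24 / 1000 + 177 / 100 * HH := by
    intro e he f hf
    have b1 := hHXK u hu e he f hf
    have b2 := hH e he f hf
    linarith
  have c1 := energy hu hx hW n2'
  have c2 := quartic hu hm hmm2 (fun e he => r_le hu he) hx0 (h2.trans n0)
  have c3 := hERK u hu mm (24 / 1000 + 177 / 100 * HH) (1 / 4) (by norm_num) hm hK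
  exact fin_num hS0 hx0 hx hmm le_rfl hHH rfl rfl rfl c1 c2 le_rfl hx0 hE c3 n3
    (n4 _ h1 h2)

end Pool.Agent.Lib.MP_f1379f_gt.FV.L1M

namespace Pool.Agent.Lib.MP_f1379f_gt.FV

open L1M in
/-- **(L1)**. -/
theorem specL1 : SpecL1 := by
  intro u hu hS hx hE
  by_contra hc
  push Not at hc
  by_cases c1 : gS u ≤ 3 / 25
  · exfalso
    refine box hu hx hE (9 / 100) (3 / 25) (543 / 10000) (52 / 625) hc.le c1 (by norm_num) (by norm_num)
      (by norm_num) (by norm_num) (by norm_num) (by norm_num) (by norm_num)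
      (by unfold base; norm_num) fun S a1 a2 => ?_
    have a3 := mul_nonneg (sub_nonneg.2 a1) (sub_nonneg.2 a2)
    unfold FF base
    norm_num
    nlinarith
  push Not at c1
  by_cases c2 : gS u ≤ 4 / 25
  · exfalso
    refine box hu hx hE (3 / 25) (4 / 25) (46 / 625) (1123 / 10000) c1.le c2 (by norm_num) (by norm_num)
      (by norm_num) (by norm_num) (by norm_num) (by norm_num) (by norm_num)
      (by unfold base; norm_num) fun S a1 a2 => ?_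
    have a3 := mul_nonneg (sub_nonneg.2 a1) (sub_nonneg.2 a2)
    unfold FF base
    norm_num
    nlinarith
  push Not at c2
  by_cases c3 : gS u ≤ 1 / 5
  · exfalso
    refine box hu hx hE (4 / 25) (1 / 5) (949 / 10000) (357 / 2500) c2.le c3 (by norm_num) (by norm_num)
      (by norm_num) (by norm_num) (by norm_num) (by norm_num) (by norm_num)
      (by unfold base; norm_num) fun S a1 a2 => ?_
    have a3 := mul_nonneg (sub_nonneg.2 a1) (sub_nonneg.2 a2)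
    unfold FF base
    norm_num
    nlinarith
  push Not at c3
  · exfalso
    refine box hu hx hE (1 / 5) (1 / 4) (1253 / 10000) (1837 / 10000) c3.le hS (by norm_num) (by norm_num)
      (by norm_num) (by norm_num) (by norm_num) (by norm_num) (by norm_num)
      (by unfold base; norm_num) fun S a1 a2 => ?_
    have a3 := mul_nonneg (sub_nonneg.2 a1) (sub_nonneg.2 a2)
    unfold FF base
    norm_num
    nlinarith

end Pool.Agent.Lib.MP_f1379f_gt.FV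
end
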