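import Pool.Agent.Lib.MP_f1379f_gt.FV.SpecX

/-! # Module XPI: the one-dimensional inequality. -/

set_option autoImplicit false

namespace Pool.Agent.Lib.MP_f1379f_gt.FV

open MeasureTheory

namespace XPIM

/-- The quotient polynomial. -/
noncomputable def Psi (k : ℝ) : ℝ :=
  (47299 + (81695299) * k ^ 1 + (-29938937) * k ^ 2 + (-84370937) * k ^ 3 + (-28553819) * k ^ 4
  + (-8141819) * k ^ 5 + (38035648) * k ^ 6 + (35119648) * k ^ 7 + (7379488) * k ^ 8 + (7379488)
  * k ^ 9 + (-7877600) * k ^ 10 + (-7877600) * k ^ 11 + (-2098400) * k ^ 12 + (-2098400) * k ^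
  13 + (626080) * k ^ 14 + (626080) * k ^ 15 + (192640) * k ^ 16 + (192640) * k ^ 17) / 10206000

theorem pos1 (X Y : ℝ) (hX : 0 ≤ X) (hY : 0 ≤ Y) (h : X + Y = 9) : 0 ≤ Psi (X / 10) := by
  have e : Psi (X / 10) =
      6757 / 24315330918113857602000 * (X ^ 0 * Y ^ 17) + 106185503 / 243153309181138576020000 *
      (X ^ 1 * Y ^ 16) + 16551349009 / 2431533091811385760200000 * (X ^ 2 * Y ^ 15) +
      1204284444911 / 24315330918113857602000000 * (X ^ 3 * Y ^ 14) + 54086959686403 /
      243153309181138576020000000 * (X ^ 4 * Y ^ 13) + 1674716505741557 /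
      2431533091811385760200000000 * (X ^ 5 * Y ^ 12) + 295487577031463 /
      189963522797764512515625000 * (X ^ 6 * Y ^ 11) + 562357268198083849 /
      212759145533496254017500000000 * (X ^ 7 * Y ^ 10) + 3653782165566656503 /
      1063795727667481270087500000000 * (X ^ 8 * Y ^ 9) + 36518903431858618747 /
      10637957276674812700875000000000 * (X ^ 9 * Y ^ 8) + 27986104545762634661 /
      10637957276674812700875000000000 * (X ^ 10 * Y ^ 7) + 32487918052993313639 /
      21275914553349625401750000000000 * (X ^ 11 * Y ^ 6) + 139541856796844145097 /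
      212759145533496254017500000000000 * (X ^ 12 * Y ^ 5) + 426831735168608739383 /
      2127591455334962540175000000000000 * (X ^ 13 * Y ^ 4) + 4370642579232744323993 /
      106379572766748127008750000000000000 * (X ^ 14 * Y ^ 3) + 5414309610734528032327 /
      1063795727667481270087500000000000000 * (X ^ 15 * Y ^ 2) + 851366720294725118801 /
      2659489319168703175218750000000000000 * (X ^ 16 * Y ^ 1) + 102836148112249801427 /
      13297446595843515876093750000000000000 * (X ^ 17 * Y ^ 0) := by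
    have hy : Y = 9 - X := by linarith
    subst hy
    unfold Psi
    ring
  rw [e]
  positivity

theorem pos2 (X Y : ℝ) (hX : 0 ≤ X) (hY : 0 ≤ Y) (h : X + Y = 1) : 0 ≤ Psi ((X + 18) / 20) := by
  have e : Psi ((X + 18) / 20) =
      102836148112249801427 / 797343750000000000000 * (X ^ 0 * Y ^ 17) + 114917627931678810583 /
      56953125000000000000 * (X ^ 1 * Y ^ 16) + 94381357605067053597199 / 6378750000000000000000
      * (X ^ 2 * Y ^ 15) + 172277778427054456062589 / 2551500000000000000000 * (X ^ 3 * Y ^ 14)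
      + 1095449611631281751707139 / 5103000000000000000000 * (X ^ 4 * Y ^ 13) +
      25738963120758774688052777 / 51030000000000000000000 * (X ^ 5 * Y ^ 12) +
      92516378898356064056749819 / 102060000000000000000000 * (X ^ 6 * Y ^ 11) +
      259660023209908714921083557 / 204120000000000000000000 * (X ^ 7 * Y ^ 10) +
      115145864460051073879946363 / 81648000000000000000000 * (X ^ 8 * Y ^ 9) +
      22521538674467523939156977 / 18144000000000000000000 * (X ^ 9 * Y ^ 8) +
      17471493551583042981431357 / 20160000000000000000000 * (X ^ 10 * Y ^ 7) +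
      173021648656309426383268891 / 362880000000000000000000 * (X ^ 11 * Y ^ 6) +
      16447406519501455735387757 / 80640000000000000000000 * (X ^ 12 * Y ^ 5) +
      713264561835216590974693 / 10752000000000000000000 * (X ^ 13 * Y ^ 4) +
      48611958723269022335729 / 3072000000000000000000 * (X ^ 14 * Y ^ 3) +
      560391909302653316730733 / 215040000000000000000000 * (X ^ 15 * Y ^ 2) +
      113711322611601810236861 / 430080000000000000000000 * (X ^ 16 * Y ^ 1) +
      10709833527160658721613 / 860160000000000000000000 * (X ^ 17 * Y ^ 0) := by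
    have hy : Y = 1 - X := by linarith
    subst hy
    unfold Psi
    ring
  rw [e]
  positivity

theorem pos3 (X Y : ℝ) (hX : 0 ≤ X) (hY : 0 ≤ Y) (h : X + Y = 1) : 0 ≤ Psi ((X + 19) / 20) := by
  have e : Psi ((X + 19) / 20) =
      10709833527160658721613 / 860160000000000000000000 * (X ^ 0 * Y ^ 17) +
      142408015312769558397 / 896000000000000000000 * (X ^ 1 * Y ^ 16) + 2633974762811652521071
      / 2867200000000000000000 * (X ^ 2 * Y ^ 15) + 85447042325603667871 / 26880000000000000000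
      * (X ^ 3 * Y ^ 14) + 13289221456607143063 / 1792000000000000000 * (X ^ 4 * Y ^ 13) +
      148628824930947577 / 11520000000000000 * (X ^ 5 * Y ^ 12) + 509541831436424003 /
      25920000000000000 * (X ^ 6 * Y ^ 11) + 36002955016116653 / 1134000000000000 * (X ^ 7 * Y ^
      10) + 245152547889049951 / 4536000000000000 * (X ^ 8 * Y ^ 9) + 8352097852359347 /
      102060000000000 * (X ^ 9 * Y ^ 8) + 35761787953649 / 362880000000 * (X ^ 10 * Y ^ 7) +
      82315063111711 / 907200000000 * (X ^ 11 * Y ^ 6) + 32604288426589 / 518400000000 * (X ^ 12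
      * Y ^ 5) + 15501225527 / 480000000 * (X ^ 13 * Y ^ 4) + 572874023 / 48000000 * (X ^ 14 * Y
      ^ 3) + 1804567 / 600000 * (X ^ 15 * Y ^ 2) + 18539 / 40000 * (X ^ 16 * Y ^ 1) + 33 / 1000
      * (X ^ 17 * Y ^ 0) := by
    have hy : Y = 1 - X := by linarith
    subst hy
    unfold Psi
    ring
  rw [e]
  positivity

/-- Positivity of the quotient polynomial. -/
theorem Psi_nonneg (k : ℝ) (h0 : 0 ≤ k) (h1 : k ≤ 1) : 0 ≤ Psi k := by
  rcases le_total k (9 / 10) with h | h
  · have := pos1 (10 * k) (9 - 10 * k) (by linarith) (by linarith) (by ring)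
    rwa [mul_div_cancel_left₀ k (by norm_num : (10 : ℝ) ≠ 0)] at this
  · rcases le_total k (19 / 20) with h' | h'
    · have := pos2 (20 * k - 18) (19 - 20 * k) (by linarith) (by linarith) (by ring)
      have e : (20 * k - 18 + 18) / 20 = k := by ring
      rwa [e] at this
    · have := pos3 (20 * k - 19) (20 - 20 * k) (by linarith) (by linarith) (by ring)
      have e : (20 * k - 19 + 19) / 20 = k := by ring
      rwa [e] at this

/-- Primitive of the left side in `k`. -/
noncomputable def QQ (k : ℝ) : ℝ := (4 * k - 8 * k ^ 3 / 3 + k ^ 5 - k ^ 7 / 7) / 27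

/-- Primitive of the right side in `t = r ^ 2`. -/
noncomputable def GG (t : ℝ) : ℝ :=
  7047793 / 972000 * t ^ 3 - 11008 / 225 * t ^ 4 + 16512 / 125 * t ^ 5 - 39904 / 225 * t ^ 6
    + 22188 / 175 * t ^ 7 - 1161 / 25 * t ^ 8 + 172 / 25 * t ^ 9 - 8880421 / 551124000

theorem GG_third : GG (1 / 3) = 0 := by
  unfold GG
  norm_num

theorem key_id (k : ℝ) :
    GG ((2 - k ^ 2) / 3) - (QQ 1 - QQ k) = (1 - k) * Psi k / 54 := by
  unfold GG QQ Psi
  ring

theorem key (k : ℝ) (h0 : 0 ≤ k) (h1 : k ≤ 1) :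
    QQ 1 - QQ k ≤ GG ((2 - k ^ 2) / 3) := by
  have h := key_id k
  have h2 := Psi_nonneg k h0 h1
  have h3 : 0 ≤ (1 - k) * Psi k := mul_nonneg (by linarith) h2
  linarith

theorem QQ_deriv (k : ℝ) :
    HasDerivAt QQ ((1 - k ^ 2) * (2 - k ^ 2) ^ 2 / 27) k := by
  have h := ((((hasDerivAt_id k).const_mul 4).sub
    (((hasDerivAt_pow 3 k).const_mul 8).div_const 3)).add (hasDerivAt_pow 5 k)).sub
    ((hasDerivAt_pow 7 k).div_const 7)
  have h2 := h.div_const 27
  refine (h2.congr_deriv ?_).congr_of_eventuallyEq ?_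
  · push_cast
    ring
  · refine Filter.Eventually.of_forall fun x => ?_
    simp only [QQ, id, Pi.add_apply, Pi.sub_apply]

theorem GG_deriv (t : ℝ) :
    HasDerivAt GG ((33 / 2000 + 1920 * psl (t - 1 / 3)) * t ^ 2 / 2) t := by
  have h := (((((((hasDerivAt_pow 3 t).const_mul (7047793 / 972000)).sub
    ((hasDerivAt_pow 4 t).const_mul (11008 / 225))).add
    ((hasDerivAt_pow 5 t).const_mul (16512 / 125))).sub
    ((hasDerivAt_pow 6 t).const_mul (39904 / 225))).add
    ((hasDerivAt_pow 7 t).const_mul (22188 / 175))).sub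
    ((hasDerivAt_pow 8 t).const_mul (1161 / 25))).add
    ((hasDerivAt_pow 9 t).const_mul (172 / 25))
  have h2 := h.sub_const (8880421 / 551124000)
  refine (h2.congr_deriv ?_).congr_of_eventuallyEq ?_
  · unfold psl
    push_cast
    ring
  · refine Filter.Eventually.of_forall fun x => ?_
    simp only [GG, Pi.add_apply, Pi.sub_apply]

/-- Primitive of the left side in `r`. -/
noncomputable def PP (r : ℝ) : ℝ := -QQ (Real.sqrt (2 - 3 * r ^ 2))

theorem QQ_cont : Continuous QQ := by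
  unfold QQ
  fun_prop

theorem PP_cont : Continuous PP := by
  unfold PP
  exact (QQ_cont.comp (by fun_prop)).neg

theorem PP_deriv (r : ℝ) (h : 0 < 2 - 3 * r ^ 2) :
    HasDerivAt PP ((3 * r ^ 2 - 1) / Real.sqrt (2 - 3 * r ^ 2) * r ^ 5) r := by
  have h1 : HasDerivAt (fun r : ℝ => 2 - 3 * r ^ 2) (-(3 * (2 * r))) r := by
    have h2 := ((hasDerivAt_pow 2 r).const_mul 3).const_sub 2
    refine h2.congr_deriv ?_
    push_cast
    ring
  have h2 := h1.sqrt h.ne'
  have h3 := ((QQ_deriv (Real.sqrt (2 - 3 * r ^ 2))).comp r h2).neg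
  have hs : Real.sqrt (2 - 3 * r ^ 2) ^ 2 = 2 - 3 * r ^ 2 := Real.sq_sqrt h.le
  have hpos : 0 < Real.sqrt (2 - 3 * r ^ 2) := Real.sqrt_pos.mpr h
  refine h3.congr_deriv ?_
  rw [hs]
  field_simp
  ring

theorem left_eq (R : ℝ) (h0 : Real.sqrt (1 / 3) ≤ R) (h1 : R ≤ Real.sqrt (2 / 3)) :
    ∫⁻ r in Set.Ioc (Real.sqrt (1 / 3)) R,
        ENNReal.ofReal ((3 * r ^ 2 - 1) / Real.sqrt (2 - 3 * r ^ 2)) * ENNReal.ofReal (r ^ 5) =
      ENNReal.ofReal (QQ 1 - QQ (Real.sqrt (2 - 3 * R ^ 2))) := by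
  set r0 := Real.sqrt (1 / 3) with hr0
  have hr0n : 0 ≤ r0 := Real.sqrt_nonneg _
  have hr0s : r0 ^ 2 = 1 / 3 := Real.sq_sqrt (by norm_num)
  have hlow : ∀ r : ℝ, r0 < r → 0 ≤ 3 * r ^ 2 - 1 := by
    intro r hr
    have : r0 ^ 2 < r ^ 2 := by
      exact pow_lt_pow_left₀ hr hr0n (by norm_num)
    linarith
  have hup : ∀ r ∈ Set.Ioo r0 R, 0 < 2 - 3 * r ^ 2 := by
    intro r hr
    have h2 : r < Real.sqrt (2 / 3) := lt_of_lt_of_le hr.2 h1
    have h3 : r ^ 2 < Real.sqrt (2 / 3) ^ 2 :=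
      pow_lt_pow_left₀ h2 (hr0n.trans hr.1.le) (by norm_num)
    rw [Real.sq_sqrt (by norm_num)] at h3
    linarith
  have hnn : ∀ r ∈ Set.Ioo r0 R,
      0 ≤ (3 * r ^ 2 - 1) / Real.sqrt (2 - 3 * r ^ 2) * r ^ 5 := by
    intro r hr
    have h2 : 0 ≤ r := hr0n.trans hr.1.le
    exact mul_nonneg (div_nonneg (hlow r hr.1) (Real.sqrt_nonneg _)) (by positivity)
  have hder : ∀ r ∈ Set.Ioo r0 R,
      HasDerivAt PP ((3 * r ^ 2 - 1) / Real.sqrt (2 - 3 * r ^ 2) * r ^ 5) r :=
    fun r hr => PP_deriv r (hup r hr)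
  have hint : IntegrableOn
      (fun r : ℝ => (3 * r ^ 2 - 1) / Real.sqrt (2 - 3 * r ^ 2) * r ^ 5) (Set.Ioc r0 R) :=
    intervalIntegral.integrableOn_deriv_of_nonneg PP_cont.continuousOn hder hnn
  have hftc := intervalIntegral.integral_eq_sub_of_hasDerivAt_of_le h0 PP_cont.continuousOn hder
    ((intervalIntegrable_iff_integrableOn_Ioc_of_le h0).mpr hint)
  rw [intervalIntegral.integral_of_le h0] at hftc
  have hnn' : 0 ≤ᵐ[volume.restrict (Set.Ioc r0 R)]
      fun r : ℝ => (3 * r ^ 2 - 1) / Real.sqrt (2 - 3 * r ^ 2) * r ^ 5 := by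
    refine (ae_restrict_iff' measurableSet_Ioc).mpr (Filter.Eventually.of_forall ?_)
    intro r hr
    have h2 : 0 ≤ r := hr0n.trans hr.1.le
    exact mul_nonneg (div_nonneg (hlow r hr.1) (Real.sqrt_nonneg _)) (by positivity)
  have he := ofReal_integral_eq_lintegral_ofReal hint hnn'
  rw [hftc] at he
  have hP : PP R - PP r0 = QQ 1 - QQ (Real.sqrt (2 - 3 * R ^ 2)) := by
    unfold PP
    rw [hr0s]
    have : Real.sqrt (2 - 3 * (1 / 3)) = 1 := by
      rw [show (2 : ℝ) - 3 * (1 / 3) = 1 by norm_num, Real.sqrt_one]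
    rw [this]
    ring
  rw [hP] at he
  rw [he]
  refine setLIntegral_congr_fun measurableSet_Ioc fun r hr => ?_
  rw [← ENNReal.ofReal_mul (div_nonneg (hlow r hr.1) (Real.sqrt_nonneg _))]

theorem psl_nonneg (d : ℝ) : 0 ≤ psl d := by
  unfold psl
  have : 0 ≤ (1 - d) ^ 4 := by
    have h : (1 - d) ^ 4 = ((1 - d) ^ 2) ^ 2 := by ring
    rw [h]
    positivity
  positivity

theorem right_eq (R : ℝ) (h0 : Real.sqrt (1 / 3) ≤ R) :
    ∫⁻ r in Set.Ioc (Real.sqrt (1 / 3)) R,
        ENNReal.ofReal (33 / 2000 + 1920 * psl (r ^ 2 - 1 / 3)) * ENNReal.ofReal (r ^ 5) =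
      ENNReal.ofReal (GG (R ^ 2)) := by
  set r0 := Real.sqrt (1 / 3) with hr0
  have hr0n : 0 ≤ r0 := Real.sqrt_nonneg _
  have hr0s : r0 ^ 2 = 1 / 3 := Real.sq_sqrt (by norm_num)
  have hder : ∀ r : ℝ, HasDerivAt (fun r : ℝ => GG (r ^ 2))
      ((33 / 2000 + 1920 * psl (r ^ 2 - 1 / 3)) * r ^ 5) r := by
    intro r
    have h2 : HasDerivAt (fun r : ℝ => r ^ 2) (2 * r) r := by
      refine (hasDerivAt_pow 2 r).congr_deriv ?_
      push_cast
      ring
    have h3 := (GG_deriv (r ^ 2)).comp r h2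
    refine h3.congr_deriv ?_
    ring
  have hcont : Continuous fun r : ℝ => (33 / 2000 + 1920 * psl (r ^ 2 - 1 / 3)) * r ^ 5 := by
    unfold psl
    fun_prop
  have hftc := intervalIntegral.integral_eq_sub_of_hasDerivAt (a := r0) (b := R)
    (fun r _ => hder r) (hcont.intervalIntegrable _ _)
  rw [intervalIntegral.integral_of_le h0] at hftc
  have hint : IntegrableOn
      (fun r : ℝ => (33 / 2000 + 1920 * psl (r ^ 2 - 1 / 3)) * r ^ 5) (Set.Ioc r0 R) :=
    (hcont.integrableOn_Icc (a := r0) (b := R)).mono_set Set.Ioc_subset_Icc_self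
  have hnn' : 0 ≤ᵐ[volume.restrict (Set.Ioc r0 R)]
      fun r : ℝ => (33 / 2000 + 1920 * psl (r ^ 2 - 1 / 3)) * r ^ 5 := by
    refine (ae_restrict_iff' measurableSet_Ioc).mpr (Filter.Eventually.of_forall ?_)
    intro r hr
    have h2 : 0 ≤ r := hr0n.trans hr.1.le
    have h3 := psl_nonneg (r ^ 2 - 1 / 3)
    show (0 : ℝ) ≤ (33 / 2000 + 1920 * psl (r ^ 2 - 1 / 3)) * r ^ 5
    positivity
  have he := ofReal_integral_eq_lintegral_ofReal hint hnn'
  rw [hftc] at he
  have hP : GG (R ^ 2) - GG (r0 ^ 2) = GG (R ^ 2) := by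
    rw [hr0s, GG_third, sub_zero]
  simp only [hP] at he
  rw [he]
  refine setLIntegral_congr_fun measurableSet_Ioc fun r hr => ?_
  have h3 := psl_nonneg (r ^ 2 - 1 / 3)
  rw [← ENNReal.ofReal_mul (by positivity)]

end XPIM

/-- XPI. -/
theorem specXPI : SpecXPI := by
  intro R h0 h1
  rw [XPIM.left_eq R h0 h1, XPIM.right_eq R h0]
  apply ENNReal.ofReal_le_ofReal
  have hR : 0 ≤ R := (Real.sqrt_nonneg _).trans h0
  have hR1 : 1 / 3 ≤ R ^ 2 := by
    have := pow_le_pow_left₀ (Real.sqrt_nonneg _) h0 2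
    rwa [Real.sq_sqrt (by norm_num)] at this
  have hR2 : R ^ 2 ≤ 2 / 3 := by
    have := pow_le_pow_left₀ hR h1 2
    rwa [Real.sq_sqrt (by norm_num)] at this
  have hk := XPIM.key (Real.sqrt (2 - 3 * R ^ 2)) (Real.sqrt_nonneg _)
    (by rw [Real.sqrt_le_left (by norm_num)]; linarith)
  rw [Real.sq_sqrt (by linarith)] at hk
  have e : (2 - (2 - 3 * R ^ 2)) / 3 = R ^ 2 := by ring
  rwa [e] at hk

end Pool.Agent.Lib.MP_f1379f_gt.FV
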