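import Pool.Agent.Lib.MP_f1379f_gt.FV.SpecX
import Pool.Agent.Lib.MP_f1379f_gt.FV.TL2

section
/-!
# XAV: the excess of the additional points, integrated form
-/
set_option autoImplicit false

namespace Pool.Agent.Lib.MP_f1379f_gt.FV

open MeasureTheory

namespace XAVM

theorem mU_le {U : Finset E} {v : E} (hv : v ∈ U) (y : E) : (inner ℝ v y : ℝ) ≤ mU U y :=
  le_ciSup (f := fun e : U => (inner ℝ (e : E) y : ℝ)) (Set.finite_range _).bddAbove ⟨v, hv⟩

theorem mU_ge {U : Finset E} (hU : U.Nonempty) {y : E} {c : ℝ}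
    (h : ∀ v ∈ U, (inner ℝ v y : ℝ) ≤ c) : mU U y ≤ c := by
  have : Nonempty U := hU.to_subtype
  exact ciSup_le fun e => h e.1 e.2

theorem mU_cont (U : Finset E) : Continuous (mU U) :=
  KCOM.cont_sup (fun (e : U) y => (inner ℝ (e : E) y : ℝ)) fun _ =>
    continuous_const.inner continuous_id

theorem XE_cont (V : Finset E) (u : E → E) (e : E) : Continuous (XE V u e) := by
  classical
  have h1 : Continuous (mV V) := mU_cont _
  unfold XE
  fun_prop

section iso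

variable {T : E ≃ₗᵢ[ℝ] E}

theorem surj (hT : ∀ e ∈ UE, T e ∈ UE) : ∀ t ∈ UE, ∃ t' ∈ UE, T t' = t := by
  classical
  have h1 : UE.image T = UE := by
    apply Finset.eq_of_subset_of_card_le
    · intro x hx
      obtain ⟨e, he, rfl⟩ := Finset.mem_image.1 hx
      exact hT e he
    · rw [Finset.card_image_of_injective _ T.injective]
  intro t ht
  rw [← h1] at ht
  obtain ⟨e, he, h⟩ := Finset.mem_image.1 ht
  exact ⟨e, he, h⟩

theorem sum_T (hT : ∀ e ∈ UE, T e ∈ UE) (F : E → ENNReal) :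
    ∑ e ∈ UE, F (T e) = ∑ e ∈ UE, F e :=
  Finset.sum_nbij T hT (T.injective.injOn) (fun t ht => surj hT t ht) (fun _ _ => rfl)

theorem mx_eq (hKCO : SpecKCO) (hT : ∀ e ∈ UE, T e ∈ UE) (y : E) :
    mx id (T y) = mx id y := by
  apply le_antisymm
  · apply hKCO.ge
    intro e he
    obtain ⟨e', he', rfl⟩ := surj hT e he
    show (inner ℝ (T e') (T y) : ℝ) ≤ _
    rw [T.inner_map_map]
    exact hKCO.le id e' he' y
  · apply hKCO.ge
    intro e he
    show (inner ℝ e y : ℝ) ≤ _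
    rw [← T.inner_map_map]
    exact hKCO.le id (T e) (hT e he) (T y)

theorem pre_WW (hKCO : SpecKCO) (hT : ∀ e ∈ UE, T e ∈ UE) : T ⁻¹' WW = WW := by
  ext y
  show 5 * mx id (T y) ^ 2 < 3 * ‖T y‖ ^ 2 ↔ 5 * mx id y ^ 2 < 3 * ‖y‖ ^ 2
  rw [mx_eq hKCO hT, T.norm_map]

theorem pre_Kc (hT : ∀ e ∈ UE, T e ∈ UE) (e : E) : T ⁻¹' (Kc (T e)) = Kc e := by
  ext y
  constructor
  · intro h t ht
    have h1 := h (T t) (hT t ht)
    rw [T.inner_map_map, T.inner_map_map] at h1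
    exact h1
  · intro h t ht
    obtain ⟨t', ht', rfl⟩ := surj hT t ht
    rw [T.inner_map_map, T.inner_map_map]
    exact h t' ht'

/-- the density -/
noncomputable def dens (y : E) : ENNReal := ENNReal.ofReal (Real.exp (-mx id y) / 40320)

theorem dens_meas (hKCO : SpecKCO) : Measurable dens := by
  have h := (hKCO.mxc id)
  exact ENNReal.measurable_ofReal.comp
    ((Real.continuous_exp.comp h.neg).div_const _).measurable

theorem mp (hKCO : SpecKCO) (hT : ∀ e ∈ UE, T e ∈ UE) : MeasurePreserving T muW muW := by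
  have hmes : Measurable T := T.continuous.measurable
  refine ⟨hmes, ?_⟩
  ext A hA
  rw [Measure.map_apply hmes hA]
  show ((volume.restrict WW).withDensity dens) (T ⁻¹' A) =
    ((volume.restrict WW).withDensity dens) A
  rw [withDensity_apply _ (hmes hA), withDensity_apply _ hA, Measure.restrict_restrict (hmes hA),
    Measure.restrict_restrict hA]
  have h1 : T ⁻¹' A ∩ WW = T ⁻¹' (A ∩ WW) := by
    rw [Set.preimage_inter, pre_WW hKCO hT]
  rw [h1, ← (LinearIsometryEquiv.measurePreserving T).setLIntegral_comp_preimage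
    (hA.inter hKCO.wmeas) (dens_meas hKCO)]
  apply lintegral_congr
  intro y
  show dens y = dens (T y)
  rw [dens, dens, mx_eq hKCO hT]

end iso

theorem XE_nonneg (V : Finset E) (u : E → E) (e y : E) : 0 ≤ XE V u e y := le_max_left _ _

theorem XE_zero (V : Finset E) (u : E → E) (e : E) : XE V u e 0 = 0 := by
  classical
  have h : mV V 0 ≤ 0 := by
    apply mU_ge ⟨0, Finset.mem_insert_self 0 V⟩
    intro v _
    rw [inner_zero_right]
  unfold XE
  rw [inner_zero_right, inner_zero_right]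
  exact max_eq_left (by linarith)

/-- total squared displacement -/
noncomputable def SS (u : E → E) : ℝ := ∑ f ∈ UE, ‖u f - f‖ ^ 2

theorem SS_def (u : E → E) : ∑ f ∈ UE, ‖u f - f‖ ^ 2 = SS u := rfl

theorem SS_nonneg (u : E → E) : 0 ≤ SS u := by
  unfold SS
  exact Finset.sum_nonneg fun f _ => sq_nonneg ‖u f - f‖

theorem SS_le (u : E → E) (f : E) (hf : f ∈ UE) : ‖u f - f‖ ^ 2 ≤ SS u := by
  unfold SS
  exact Finset.single_le_sum (f := fun f => ‖u f - f‖ ^ 2) (fun f _ => sq_nonneg ‖u f - f‖) hf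

theorem inner_lin (s : Finset E) (v : E) (l : E → ℝ) :
    (inner ℝ v (∑ p ∈ s, l p • p) : ℝ) = ∑ p ∈ s, l p * inner ℝ v p := by
  rw [inner_sum]
  exact Finset.sum_congr rfl fun p _ => inner_smul_right _ _ _

theorem sep_le (v y : E) (l : E → ℝ) (hl0 : ∀ p ∈ UE, 0 ≤ l p) (hly : y = ∑ p ∈ UE, l p • p)
    (hsep : ∀ p ∈ UE, (inner ℝ v p : ℝ) ≤ 1 / 2) :
    (inner ℝ v y : ℝ) ≤ 1 / 2 * ∑ p ∈ UE, l p := by
  have h1 : (inner ℝ v y : ℝ) = inner ℝ v (∑ p ∈ UE, l p • p) := congrArg _ hly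
  rw [h1, inner_lin, Finset.mul_sum]
  refine Finset.sum_le_sum fun p hp => ?_
  have := mul_le_mul_of_nonneg_left (hsep p hp) (hl0 p hp)
  linarith

/-- no displacement: no excess -/
theorem XE_id (hXBP : SpecXBP) {U V : Finset E} {u : E → E} (hE : EXT U V u)
    (hu : ∀ e ∈ UE, u e = e) (e : E) (he : e ∈ UE) (y : E) (h0 : 0 ≤ (inner ℝ e y : ℝ))
    (hy : ‖y‖ ^ 2 ≤ 2 * (inner ℝ e y : ℝ) ^ 2) : XE V u e y = 0 := by
  classical
  have hdel : del u e = 0 := by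
    unfold del lam
    rw [hu e he, sub_self]
    simp
  have h : mV V y ≤ (inner ℝ e y : ℝ) := by
    apply mU_ge ⟨0, Finset.mem_insert_self 0 V⟩
    intro v hv
    rcases Finset.mem_insert.1 hv with rfl | hv
    · rw [inner_zero_left]
      exact h0
    · obtain ⟨l, hl0, hly, hls⟩ := hXBP y
      have h1 : (inner ℝ v y : ℝ) ≤ 1 / 2 * ∑ p ∈ UE, l p := by
        apply sep_le v y l hl0 hly
        intro p hp
        have h2 := hE.sep v hv p hp
        rw [hu p hp] at h2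
        exact h2
      have h3 : 1 / 2 * (Real.sqrt 2 * ‖y‖) ≤ (inner ℝ e y : ℝ) := by
        apply le_of_sq_le_sq _ h0
        have h4 : Real.sqrt 2 ^ 2 = 2 := Real.sq_sqrt (by norm_num)
        calc (1 / 2 * (Real.sqrt 2 * ‖y‖)) ^ 2 = 1 / 4 * (Real.sqrt 2 ^ 2 * ‖y‖ ^ 2) := by ring
          _ ≤ (inner ℝ e y : ℝ) ^ 2 := by rw [h4]; linarith
      linarith
  unfold XE
  rw [hdel, inner_zero_left]
  exact max_eq_left (by linarith)

end XAVM

open XAVM in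
theorem specXAV (hKCO : SpecKCO) (hXGR : SpecXGR) (hXBP : SpecXBP) (hXPT : SpecXPT) :
    SpecXAV := by
  classical
  intro U V u hE
  obtain ⟨G, hG⟩ := hXGR
  rw [SS_def]
  have hS0 := SS_nonneg u
  have hSle := SS_le u
  generalize hSS : SS u = S at hS0 hSle ⊢
  have hcard : (G.card : ENNReal) ≠ 0 := by
    rw [Nat.cast_ne_zero]
    exact (Finset.card_pos.2 hG.ne).ne'
  have hcard' : (G.card : ENNReal) ≠ ⊤ := ENNReal.natCast_ne_top _
  have key : ∀ e ∈ UE, ∀ y ∈ Kc e, ∑ T ∈ G, ENNReal.ofReal (XE V u (T e) (T y)) ≤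
      G.card * (ENNReal.ofReal (147 / 8000 * S) * (ENNReal.ofReal ((inner ℝ e y : ℝ) ^ 3) /
          ENNReal.ofReal (2 * (inner ℝ e y : ℝ) ^ 2 - ‖y‖ ^ 2))) := by
    intro e he y hy
    obtain ⟨hα, hn⟩ := hKCO.low e he y hy
    rcases lt_or_ge 0 (2 * (inner ℝ e y : ℝ) ^ 2 - ‖y‖ ^ 2) with hq | hq
    · have h1 := hXPT G hG U V u hE e he y hy hq
      rw [SS_def, hSS] at h1
      rw [← ENNReal.ofReal_sum_of_nonneg fun T _ => XE_nonneg _ _ _ _]
      refine (ENNReal.ofReal_le_ofReal h1).trans (le_of_eq ?_)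
      have hc1 : (0 : ℝ) ≤ 147 / 8000 * S := mul_nonneg (by norm_num) hS0
      have hc2 : (0 : ℝ) ≤ (G.card : ℝ) := Nat.cast_nonneg _
      rw [← ENNReal.ofReal_div_of_pos hq, ← ENNReal.ofReal_mul hc1,
        ← ENNReal.ofReal_natCast, ← ENNReal.ofReal_mul hc2]
    · rcases hα.eq_or_lt with hα0 | hα0
      · have hy0 : y = 0 := by
          rw [← hα0] at hn
          have h2 : ‖y‖ ^ 2 ≤ 0 := by linarith
          have h3 : ‖y‖ = 0 := by
            have := sq_nonneg ‖y‖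
            exact pow_eq_zero_iff (two_ne_zero) |>.1 (le_antisymm h2 this)
          exact norm_eq_zero.1 h3
        rw [Finset.sum_eq_zero]
        · exact zero_le
        · intro T _
          rw [hy0, map_zero, XE_zero, ENNReal.ofReal_zero]
      · rcases hS0.eq_or_lt with hS1 | hS1
        · have hu : ∀ f ∈ UE, u f = f := by
            intro f hf
            have h2 := hSle f hf
            rw [← hS1] at h2
            have h3 : ‖u f - f‖ = 0 := by
              have h4 := sq_nonneg ‖u f - f‖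
              exact pow_eq_zero_iff (two_ne_zero) |>.1 (le_antisymm h2 h4)
            exact sub_eq_zero.1 (norm_eq_zero.1 h3)
          rw [Finset.sum_eq_zero]
          · exact zero_le
          · intro T hT
            rw [XE_id hXBP hE hu (T e) (hG.pres T hT e he) (T y), ENNReal.ofReal_zero]
            · rw [T.inner_map_map]
              exact hα
            · rw [T.inner_map_map, T.norm_map]
              exact hn
        · have h2 : ENNReal.ofReal (147 / 8000 * S) ≠ 0 := by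
            rw [Ne, ENNReal.ofReal_eq_zero, not_le]
            exact mul_pos (by norm_num) hS1
          have h3 : ENNReal.ofReal ((inner ℝ e y : ℝ) ^ 3) ≠ 0 := by
            rw [Ne, ENNReal.ofReal_eq_zero, not_le]
            exact pow_pos hα0 3
          rw [ENNReal.ofReal_of_nonpos hq, ENNReal.div_zero h3, ENNReal.mul_top h2,
            ENNReal.mul_top hcard]
          exact le_top
  have inv : ∀ T ∈ G, ∑ e ∈ UE, ∫⁻ y in Kc e, ENNReal.ofReal (XE V u (T e) (T y)) ∂muW =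
      ∑ e ∈ UE, ∫⁻ y in Kc e, ENNReal.ofReal (XE V u e y) ∂muW := by
    intro T hT
    have hTU := hG.pres T hT
    rw [← sum_T hTU fun e => ∫⁻ y in Kc e, ENNReal.ofReal (XE V u e y) ∂muW]
    refine Finset.sum_congr rfl fun e he => ?_
    have h1 := (mp hKCO hTU).setLIntegral_comp_preimage (hKCO.meas (T e))
      (ENNReal.measurable_ofReal.comp (XE_cont V u (T e)).measurable)
    rw [pre_Kc hTU] at h1
    exact h1
  have hfin : (G.card : ENNReal) * ∑ e ∈ UE, ∫⁻ y in Kc e, ENNReal.ofReal (XE V u e y) ∂muW ≤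
      (G.card : ENNReal) * ∑ e ∈ UE, ∫⁻ y in Kc e, ENNReal.ofReal (147 / 8000 * S) *
        (ENNReal.ofReal ((inner ℝ e y : ℝ) ^ 3) /
          ENNReal.ofReal (2 * (inner ℝ e y : ℝ) ^ 2 - ‖y‖ ^ 2)) ∂muW := by
    calc (G.card : ENNReal) * ∑ e ∈ UE, ∫⁻ y in Kc e, ENNReal.ofReal (XE V u e y) ∂muW
        = ∑ T ∈ G, ∑ e ∈ UE, ∫⁻ y in Kc e, ENNReal.ofReal (XE V u (T e) (T y)) ∂muW := by
          rw [Finset.sum_congr rfl inv, Finset.sum_const, nsmul_eq_mul]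
      _ = ∑ e ∈ UE, ∫⁻ y in Kc e, ∑ T ∈ G, ENNReal.ofReal (XE V u (T e) (T y)) ∂muW := by
          rw [Finset.sum_comm]
          refine Finset.sum_congr rfl fun e _ => ?_
          rw [lintegral_finsetSum]
          intro T _
          exact ENNReal.measurable_ofReal.comp
            ((XE_cont V u (T e)).comp T.continuous).measurable
      _ ≤ ∑ e ∈ UE, ∫⁻ y in Kc e, (G.card : ENNReal) * (ENNReal.ofReal (147 / 8000 * S) *
            (ENNReal.ofReal ((inner ℝ e y : ℝ) ^ 3) /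
            ENNReal.ofReal (2 * (inner ℝ e y : ℝ) ^ 2 - ‖y‖ ^ 2))) ∂muW := by
          refine Finset.sum_le_sum fun e he => ?_
          exact setLIntegral_mono' (hKCO.meas e) fun y hy => key e he y hy
      _ = _ := by
          rw [Finset.mul_sum]
          refine Finset.sum_congr rfl fun e _ => ?_
          rw [lintegral_const_mul' _ _ hcard']
  exact (ENNReal.mul_le_mul_iff_right hcard hcard').1 hfin

end Pool.Agent.Lib.MP_f1379f_gt.FV
end

section
/-!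
# XBP: representation of a vector by few roots
-/
set_option autoImplicit false

namespace Pool.Agent.Lib.MP_f1379f_gt.FV

namespace XBPM

theorem mem_hull (hU : SpecUEF) {z : E} (hz : Real.sqrt 2 * ‖z‖ ≤ 1) :
    z ∈ convexHull ℝ (UE : Set E) := by
  by_contra hcon
  have hcl : IsClosed (convexHull ℝ (UE : Set E)) :=
    (UE.finite_toSet.isCompact_convexHull ℝ).isClosed
  obtain ⟨f, u, h1, h2⟩ := geometric_hahn_banach_closed_point (convex_convexHull ℝ _) hcl hcon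
  obtain ⟨w, hw⟩ : ∃ w : E, ∀ y, f y = inner ℝ w y := by
    refine ⟨(InnerProductSpace.toDual ℝ E).symm f, fun y => ?_⟩
    rw [InnerProductSpace.toDual_symm_apply]
  obtain ⟨e, he, h3, h4⟩ := hU.cov w
  have h5 : f e < u := h1 e (subset_convexHull ℝ _ he)
  have h6 : f e < f z := h5.trans h2
  rw [hw, hw, real_inner_comm] at h6
  have h7 : (inner ℝ w z : ℝ) ≤ ‖w‖ * ‖z‖ := real_inner_le_norm w z
  have h8 : ‖w‖ ≤ Real.sqrt 2 * (inner ℝ e w : ℝ) := by
    apply le_of_sq_le_sq _ (by positivity)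
    rw [mul_pow, Real.sq_sqrt (by norm_num)]
    exact h4
  have hs : Real.sqrt 2 * Real.sqrt 2 = 2 := Real.mul_self_sqrt (by norm_num)
  have h9 : ‖w‖ * ‖z‖ ≤ (inner ℝ e w : ℝ) * (Real.sqrt 2 * ‖z‖) := by
    calc ‖w‖ * ‖z‖ ≤ (Real.sqrt 2 * (inner ℝ e w : ℝ)) * ‖z‖ :=
          mul_le_mul_of_nonneg_right h8 (norm_nonneg _)
      _ = _ := by ring
  have h10 : (inner ℝ e w : ℝ) * (Real.sqrt 2 * ‖z‖) ≤ (inner ℝ e w : ℝ) * 1 :=
    mul_le_mul_of_nonneg_left hz h3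
  linarith

theorem rep (S : Finset E)
    (hull : ∀ z : E, Real.sqrt 2 * ‖z‖ ≤ 1 → z ∈ convexHull ℝ (S : Set E)) (y : E) :
    ∃ l : E → ℝ, (∀ p ∈ S, 0 ≤ l p) ∧ y = ∑ p ∈ S, l p • p ∧
      ∑ p ∈ S, l p ≤ Real.sqrt 2 * ‖y‖ := by
  by_cases hy : y = 0
  · refine ⟨fun _ => 0, fun _ _ => le_refl _, ?_, ?_⟩
    · rw [hy]
      exact (Finset.sum_eq_zero fun p _ => zero_smul ℝ p).symm
    · rw [Finset.sum_const_zero]
      exact mul_nonneg (Real.sqrt_nonneg _) (norm_nonneg _)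
  · have hn : 0 < ‖y‖ := norm_pos_iff.2 hy
    have hs : 0 < Real.sqrt 2 := Real.sqrt_pos.2 (by norm_num)
    have hc : 0 < Real.sqrt 2 * ‖y‖ := mul_pos hs hn
    have hz : Real.sqrt 2 * ‖(Real.sqrt 2 * ‖y‖)⁻¹ • y‖ ≤ 1 := by
      rw [norm_smul, Real.norm_of_nonneg (by positivity)]
      field_simp
      exact le_refl _
    have hm := hull _ hz
    rw [Finset.mem_convexHull] at hm
    obtain ⟨w, hw0, hw1, hw2⟩ := hm
    rw [Finset.centerMass_eq_of_sum_1 _ _ hw1] at hw2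
    refine ⟨fun p => Real.sqrt 2 * ‖y‖ * w p, fun p hp => mul_nonneg hc.le (hw0 p hp), ?_, ?_⟩
    · have h1 : y = (Real.sqrt 2 * ‖y‖) • ((Real.sqrt 2 * ‖y‖)⁻¹ • y) := by
        rw [smul_smul, mul_inv_cancel₀ hc.ne', one_smul]
      conv_lhs => rw [h1, ← hw2]
      rw [Finset.smul_sum]
      exact Finset.sum_congr rfl fun p _ => by rw [id, smul_smul]
    · rw [← Finset.mul_sum, hw1, mul_one]

end XBPM

theorem specXBP (hU : SpecUEF) : SpecXBP :=
  fun y => XBPM.rep UE (fun _ hz => XBPM.mem_hull hU hz) y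

end Pool.Agent.Lib.MP_f1379f_gt.FV
end

section
/-!
# XPT: the average of the excess of the additional points over the group
-/
set_option autoImplicit false

namespace Pool.Agent.Lib.MP_f1379f_gt.FV

namespace XPTM

open Finset

theorem mV_le {V : Finset E} {z : E} {c : ℝ} (hc : 0 ≤ c)
    (h : ∀ v ∈ V, (inner ℝ v z : ℝ) ≤ c) : mV V z ≤ c := by
  classical
  unfold mV mU
  have : Nonempty (↥(insert (0 : E) V)) := ⟨⟨0, mem_insert_self _ _⟩⟩
  apply ciSup_le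
  rintro ⟨v, hv⟩
  rcases mem_insert.1 hv with rfl | hv
  · simpa using hc
  · exact h v hv

theorem del_orth (u : E → E) {f : E} (hf : ‖f‖ = 1) : (inner ℝ (del u f) f : ℝ) = 0 := by
  unfold del lam
  rw [inner_add_left, real_inner_smul_left, real_inner_self_eq_norm_sq, hf]
  ring

theorem del_le (u : E → E) {f : E} (hf : ‖f‖ = 1) : ‖del u f‖ ^ 2 ≤ ‖u f - f‖ ^ 2 := by
  have h : ‖del u f‖ ^ 2 = ‖u f - f‖ ^ 2 - lam u f ^ 2 := by
    unfold del
    rw [norm_add_sq_real, real_inner_smul_right, norm_smul, mul_pow, hf, Real.norm_eq_abs, sq_abs]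
    unfold lam
    ring
  rw [h]
  linarith [sq_nonneg (lam u f)]

/-- Cauchy-Schwarz for nonnegative weights. -/
theorem norm_sum_sq (s : Finset E) (l : E → ℝ) (hl : ∀ p ∈ s, 0 ≤ l p) (d : E → E) :
    ‖∑ p ∈ s, l p • d p‖ ^ 2 ≤ (∑ p ∈ s, l p) * ∑ p ∈ s, l p * ‖d p‖ ^ 2 := by
  have h1 : ‖∑ p ∈ s, l p • d p‖ ≤ ∑ p ∈ s, l p * ‖d p‖ := by
    refine (norm_sum_le _ _).trans (le_of_eq (sum_congr rfl fun p hp => ?_))
    rw [norm_smul, Real.norm_eq_abs, abs_of_nonneg (hl p hp)]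
  have h2 : (∑ p ∈ s, l p * ‖d p‖) ^ 2 ≤ (∑ p ∈ s, l p) * ∑ p ∈ s, l p * ‖d p‖ ^ 2 := by
    apply sum_sq_le_sum_mul_sum_of_sq_le_mul s hl
    · intro p hp
      exact mul_nonneg (hl p hp) (sq_nonneg _)
    · intro p _
      exact le_of_eq (by ring)
  exact (pow_le_pow_left₀ (norm_nonneg _) h1 2).trans h2

/-- The statement for an abstract set of labels. -/
theorem core (I : Finset E) (G : Finset (E ≃ₗᵢ[ℝ] E)) (V : Finset E) (u : E → E) (e y : E)
    (l : E → ℝ) (he : e ∈ I) (nrm : ∀ f ∈ I, ‖f‖ = 1)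
    (pres : ∀ T ∈ G, ∀ f ∈ I, T f ∈ I)
    (uni : ∀ φ : E → ℝ, ∀ p ∈ I, 240 * ∑ T ∈ G, φ (T p) = G.card * ∑ f ∈ I, φ f)
    (sec : ∀ D : E → E, (∀ f ∈ I, (inner ℝ (D f) f : ℝ) = 0) → ∀ e ∈ I, ∀ z : E,
      (inner ℝ z e : ℝ) = 0 →
      1680 * ∑ T ∈ G, (inner ℝ (D (T e)) (T z) : ℝ) ^ 2 =
        G.card * (‖z‖ ^ 2 * ∑ f ∈ I, ‖D f‖ ^ 2))
    (sm : ∀ v ∈ V, ‖v‖ ^ 2 ≤ 37 / 50)
    (sep : ∀ v ∈ V, ∀ f ∈ I, (inner ℝ v (u f) : ℝ) ≤ 1 / 2)
    (hα0 : 0 ≤ (inner ℝ e y : ℝ)) (hq : 0 < 2 * (inner ℝ e y : ℝ) ^ 2 - ‖y‖ ^ 2)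
    (hl0 : ∀ p ∈ I, 0 ≤ l p) (hly : y = ∑ p ∈ I, l p • p)
    (hls : ∑ p ∈ I, l p ≤ Real.sqrt 2 * ‖y‖) :
    ∑ T ∈ G, XE V u (T e) (T y) ≤
      G.card * (147 / 8000 * (∑ f ∈ I, ‖u f - f‖ ^ 2) *
        ((inner ℝ e y : ℝ) ^ 3 / (2 * (inner ℝ e y : ℝ) ^ 2 - ‖y‖ ^ 2))) := by
  obtain ⟨α, hα⟩ : ∃ α : ℝ, α = inner ℝ e y := ⟨_, rfl⟩
  rw [← hα] at hα0 hq ⊢
  have hS0 : 0 ≤ ∑ f ∈ I, ‖u f - f‖ ^ 2 := sum_nonneg fun f _ => sq_nonneg _
  obtain ⟨S, hS⟩ : ∃ S : ℝ, S = ∑ f ∈ I, ‖u f - f‖ ^ 2 := ⟨_, rfl⟩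
  rw [← hS] at hS0 ⊢
  obtain ⟨q, hqd⟩ : ∃ q : ℝ, q = 2 * α ^ 2 - ‖y‖ ^ 2 := ⟨_, rfl⟩
  rw [← hqd] at hq ⊢
  have hαp : 0 < α := by
    rcases hα0.lt_or_eq with h | h
    · exact h
    · rw [hqd, ← h] at hq
      have := sq_nonneg ‖y‖
      linarith
  have hne : ‖e‖ = 1 := nrm e he
  have hs2 : Real.sqrt 2 ^ 2 = 2 := Real.sq_sqrt (by norm_num)
  have hs2p : 0 < Real.sqrt 2 := Real.sqrt_pos.2 (by norm_num)
  have hls0 : 0 ≤ ∑ p ∈ I, l p := sum_nonneg hl0
  -- the quantities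
  set dd : (E ≃ₗᵢ[ℝ] E) → E := fun T => ∑ p ∈ I, l p • (u (T p) - T p) with hdd
  set aT : (E ≃ₗᵢ[ℝ] E) → ℝ := fun T => Real.sqrt (37 / 50) * ‖dd T‖ with haT
  set bT : (E ≃ₗᵢ[ℝ] E) → ℝ := fun T => |(inner ℝ (del u (T e)) (T y) : ℝ)| with hbT
  have ha0 : ∀ T, 0 ≤ aT T := fun T => mul_nonneg (Real.sqrt_nonneg _) (norm_nonneg _)
  have hb0 : ∀ T, 0 ≤ bT T := fun T => abs_nonneg _
  -- pointwise bound
  have hpt : ∀ T ∈ G, XE V u (T e) (T y) ≤ (aT T + bT T) ^ 2 * (α / q) := by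
    intro T hT
    have hTy : T y = ∑ p ∈ I, l p • T p := by
      conv_lhs => rw [hly]
      rw [map_sum]
      exact sum_congr rfl fun p _ => T.map_smul _ _
    have hin : (inner ℝ (T e) (T y) : ℝ) = α := by rw [T.inner_map_map, ← hα]
    have hv : ∀ v ∈ V, (inner ℝ v (T y) : ℝ) ≤ Real.sqrt 2 / 2 * ‖y‖ + aT T := by
      intro v hv
      have e1 : (inner ℝ v (T y) : ℝ) =
          ∑ p ∈ I, l p * (inner ℝ v (u (T p)) : ℝ) - inner ℝ v (dd T) := by
        rw [hTy, hdd, inner_sum, inner_sum, ← sum_sub_distrib]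
        refine sum_congr rfl fun p _ => ?_
        rw [real_inner_smul_right, real_inner_smul_right, inner_sub_right]
        ring
      have e2 : ∑ p ∈ I, l p * (inner ℝ v (u (T p)) : ℝ) ≤ ∑ p ∈ I, l p * (1 / 2) := by
        refine sum_le_sum fun p hp => ?_
        exact mul_le_mul_of_nonneg_left (sep v hv (T p) (pres T hT p hp)) (hl0 p hp)
      rw [← sum_mul] at e2
      have e3 : -(inner ℝ v (dd T) : ℝ) ≤ ‖v‖ * ‖dd T‖ := by
        have := real_inner_le_norm (-v) (dd T)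
        rwa [inner_neg_left, norm_neg] at this
      have e4 : ‖v‖ ≤ Real.sqrt (37 / 50) := Real.le_sqrt_of_sq_le (sm v hv)
      have e5 : ‖v‖ * ‖dd T‖ ≤ aT T := mul_le_mul_of_nonneg_right e4 (norm_nonneg _)
      have e6 : (∑ p ∈ I, l p) * (1 / 2) ≤ Real.sqrt 2 / 2 * ‖y‖ := by linarith
      rw [e1]
      linarith
    have hmV : mV V (T y) ≤ Real.sqrt 2 / 2 * ‖y‖ + aT T :=
      mV_le (add_nonneg (mul_nonneg (div_nonneg hs2p.le (by norm_num)) (norm_nonneg _)) (ha0 T)) hv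
    have hb : -(inner ℝ (del u (T e)) (T y) : ℝ) ≤ bT T := neg_le_abs _
    set A : ℝ := aT T + bT T with hA
    have hA0 : 0 ≤ A := add_nonneg (ha0 T) (hb0 T)
    set B : ℝ := α - Real.sqrt 2 / 2 * ‖y‖ with hB
    have hBq : q / α ≤ 4 * B := by
      rw [div_le_iff₀ hαp, hB, hqd]
      have e := sq_nonneg (Real.sqrt 2 * α - ‖y‖)
      have e' : (Real.sqrt 2 * α - ‖y‖) ^ 2 =
        Real.sqrt 2 ^ 2 * α ^ 2 - 2 * (Real.sqrt 2 * α * ‖y‖) + ‖y‖ ^ 2 := by ring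
      rw [e', hs2] at e
      linarith
    have hqα : 0 < q / α := div_pos hq hαp
    have hXE : XE V u (T e) (T y) ≤ max 0 (A - B) := by
      unfold XE
      apply max_le_max le_rfl
      rw [hin]
      linarith
    refine hXE.trans ?_
    have hAq : 0 ≤ A ^ 2 * (α / q) := mul_nonneg (sq_nonneg _) (div_nonneg hα0 hq.le)
    apply max_le hAq
    have key : (A - B) * (q / α) ≤ A ^ 2 := by
      by_cases hAB : 0 ≤ A - B
      · refine (mul_le_mul_of_nonneg_left hBq hAB).trans ?_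
        have e := sq_nonneg (A - 2 * B)
        have e' : (A - B) * (4 * B) = A ^ 2 - (A - 2 * B) ^ 2 := by ring
        rw [e']
        linarith
      · push Not at hAB
        have e := mul_nonneg (neg_nonneg.2 hAB.le) hqα.le
        have e' := sq_nonneg A
        linarith
    have e7 : α / q = (q / α)⁻¹ := by rw [inv_div]
    rw [e7, ← div_eq_mul_inv, le_div_iff₀ hqα]
    exact key
  -- sums of the squares
  have hsa : ∑ T ∈ G, aT T ^ 2 ≤ 37 / 50 * (4 * α ^ 2 * (G.card * S / 240)) := by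
    have h1 : ∀ T ∈ G, aT T ^ 2 ≤
        37 / 50 * ((∑ p ∈ I, l p) * ∑ p ∈ I, l p * ‖u (T p) - T p‖ ^ 2) := by
      intro T _
      have e0 : aT T ^ 2 = (Real.sqrt (37 / 50) * ‖dd T‖) ^ 2 := rfl
      rw [e0, mul_pow, Real.sq_sqrt (by norm_num)]
      exact mul_le_mul_of_nonneg_left (norm_sum_sq I l hl0 fun p => u (T p) - T p) (by norm_num)
    refine (sum_le_sum h1).trans ?_
    rw [← mul_sum, ← mul_sum]
    have h2 : ∑ T ∈ G, ∑ p ∈ I, l p * ‖u (T p) - T p‖ ^ 2 =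
        (∑ p ∈ I, l p) * (G.card * S / 240) := by
      rw [sum_comm, sum_mul]
      refine sum_congr rfl fun p hp => ?_
      rw [← mul_sum]
      have this : 240 * ∑ T ∈ G, ‖u (T p) - T p‖ ^ 2 = G.card * ∑ e ∈ I, ‖u e - e‖ ^ 2 :=
        uni (fun f => ‖u f - f‖ ^ 2) p hp
      rw [← hS] at this
      congr 1
      linarith
    rw [h2, ← mul_assoc (∑ p ∈ I, l p)]
    have h3 : (∑ p ∈ I, l p) * (∑ p ∈ I, l p) ≤ 4 * α ^ 2 := by
      have : (∑ p ∈ I, l p) * (∑ p ∈ I, l p) ≤ (Real.sqrt 2 * ‖y‖) * (Real.sqrt 2 * ‖y‖) :=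
        mul_self_le_mul_self hls0 hls
      have e : (Real.sqrt 2 * ‖y‖) * (Real.sqrt 2 * ‖y‖) = Real.sqrt 2 ^ 2 * ‖y‖ ^ 2 := by ring
      rw [e, hs2] at this
      linarith
    have h4 : 0 ≤ (G.card : ℝ) * S / 240 :=
      div_nonneg (mul_nonneg (Nat.cast_nonneg _) hS0) (by norm_num)
    exact mul_le_mul_of_nonneg_left (mul_le_mul_of_nonneg_right h3 h4) (by norm_num)
  have hsb : ∑ T ∈ G, bT T ^ 2 ≤ G.card * (α ^ 2 * S) / 1680 := by
    set z : E := y - α • e with hz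
    have hze : (inner ℝ z e : ℝ) = 0 := by
      rw [hz, inner_sub_left, real_inner_smul_left, real_inner_self_eq_norm_sq, hne,
        real_inner_comm, ← hα]
      ring
    have hz2 : ‖z‖ ^ 2 ≤ α ^ 2 := by
      rw [hz, norm_sub_sq_real, real_inner_smul_right, norm_smul, mul_pow, hne,
        real_inner_comm, ← hα, Real.norm_eq_abs, sq_abs]
      linarith
    have h1 := sec (del u) (fun f hf => del_orth u (nrm f hf)) e he z hze
    have h2 : ∑ T ∈ G, bT T ^ 2 = ∑ T ∈ G, (inner ℝ (del u (T e)) (T z) : ℝ) ^ 2 := by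
      refine sum_congr rfl fun T hT => ?_
      have e0 : bT T ^ 2 = |(inner ℝ (del u (T e)) (T y) : ℝ)| ^ 2 := rfl
      rw [e0, sq_abs]
      congr 1
      rw [hz, map_sub, T.map_smul, inner_sub_right, real_inner_smul_right,
        del_orth u (nrm _ (pres T hT e he))]
      ring
    have h3 : ∑ f ∈ I, ‖del u f‖ ^ 2 ≤ S := by
      rw [hS]
      exact sum_le_sum fun f hf => del_le u (nrm f hf)
    have h4 : 0 ≤ ∑ f ∈ I, ‖del u f‖ ^ 2 := sum_nonneg fun f _ => sq_nonneg _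
    have h5 : ‖z‖ ^ 2 * ∑ f ∈ I, ‖del u f‖ ^ 2 ≤ α ^ 2 * S :=
      mul_le_mul hz2 h3 h4 (sq_nonneg _)
    have h6 : (G.card : ℝ) * (‖z‖ ^ 2 * ∑ f ∈ I, ‖del u f‖ ^ 2) ≤ G.card * (α ^ 2 * S) :=
      mul_le_mul_of_nonneg_left h5 (Nat.cast_nonneg _)
    rw [h2]
    linarith
  -- total
  have hαq : 0 ≤ α / q := div_nonneg hα0 hq.le
  have htot : ∑ T ∈ G, (aT T + bT T) ^ 2 ≤ G.card * (147 / 8000 * S * α ^ 2) := by
    have h1 : ∑ T ∈ G, (aT T + bT T) ^ 2 ≤ ∑ T ∈ G, (6 / 5 * aT T ^ 2 + 6 * bT T ^ 2) := by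
      refine sum_le_sum fun T _ => ?_
      have e := sq_nonneg (aT T - 5 * bT T)
      linarith
    rw [sum_add_distrib, ← mul_sum, ← mul_sum] at h1
    have h2 : 0 ≤ (G.card : ℝ) * (α ^ 2 * S) :=
      mul_nonneg (Nat.cast_nonneg _) (mul_nonneg (sq_nonneg _) hS0)
    linarith
  calc ∑ T ∈ G, XE V u (T e) (T y) ≤ ∑ T ∈ G, (aT T + bT T) ^ 2 * (α / q) := sum_le_sum hpt
    _ = (∑ T ∈ G, (aT T + bT T) ^ 2) * (α / q) := (sum_mul _ _ _).symm
    _ ≤ (G.card * (147 / 8000 * S * α ^ 2)) * (α / q) := mul_le_mul_of_nonneg_right htot hαq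
    _ = G.card * (147 / 8000 * S * (α ^ 3 / q)) := by ring

end XPTM

open XPTM in
/-- **SpecXPT.** -/
theorem specXPT (hUEF : SpecUEF) (hKCO : SpecKCO) (hXBP : SpecXBP) : SpecXPT := by
  intro G hG U V u hE e he y hy hq
  obtain ⟨l, hl0, hly, hls⟩ := hXBP y
  exact core UE G V u e y l he hUEF.nrm hG.pres hG.uni hG.sec hE.sm hE.sep (hKCO.low e he y hy).1
    hq hl0 hly hls

end Pool.Agent.Lib.MP_f1379f_gt.FV
end
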