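import Pool.Agent.Lib.MP_f1379f_gt.FV.SpecX
import Pool.Agent.Lib.MP_f1379f_gt.FV.TRA

section
/-!
# XGR: the symmetry group of the 240 roots
-/
set_option autoImplicit false

namespace Pool.Agent.Lib.MP_f1379f_gt.FV

namespace XGRM

open MeasureTheory

/-- the symmetries of a finite set -/
def Sy (S : Finset E) : Set (E ≃ₗᵢ[ℝ] E) := {T | ∀ e ∈ S, T e ∈ S}

theorem det (S : Finset E) (hc : ∀ y : E, (∀ e ∈ S, (inner ℝ e y : ℝ) = 0) → y = 0)
    {T T' : E ≃ₗᵢ[ℝ] E} (h : ∀ e ∈ S, T e = T' e) : T = T' := by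
  ext1 y
  have h1 : T y - T' y = 0 := by
    have h2 : T.symm (T y - T' y) = 0 := by
      apply hc
      intro e he
      have h3 : (inner ℝ e (T.symm (T y - T' y)) : ℝ) = inner ℝ (T e) (T y - T' y) := by
        rw [← LinearIsometryEquiv.inner_map_map T, LinearIsometryEquiv.apply_symm_apply]
      rw [h3, inner_sub_right, LinearIsometryEquiv.inner_map_map, h e he,
        LinearIsometryEquiv.inner_map_map, sub_self]
    have h4 := congrArg T h2
    rw [LinearIsometryEquiv.apply_symm_apply, map_zero] at h4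
    exact h4
  exact sub_eq_zero.1 h1

theorem fin (S : Finset E) (hc : ∀ y : E, (∀ e ∈ S, (inner ℝ e y : ℝ) = 0) → y = 0) :
    (Sy S).Finite := by
  rw [← Set.finite_coe_iff]
  apply Finite.of_injective (fun (T : Sy S) (e : S) => (⟨T.1 e.1, T.2 e.1 e.2⟩ : S))
  intro T T' h
  apply Subtype.ext
  apply det S hc
  intro e he
  have h1 := congrFun h ⟨e, he⟩
  exact congrArg Subtype.val h1

theorem symm_mem (S : Finset E) {T : E ≃ₗᵢ[ℝ] E} (hT : T ∈ Sy S) : T.symm ∈ Sy S := by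
  classical
  intro e he
  have h1 : S.image T = S := by
    apply Finset.eq_of_subset_of_card_le
    · intro x hx
      obtain ⟨y, hy, rfl⟩ := Finset.mem_image.1 hx
      exact hT y hy
    · rw [Finset.card_image_of_injective _ T.injective]
  rw [← h1] at he
  obtain ⟨y, hy, rfl⟩ := Finset.mem_image.1 he
  rw [LinearIsometryEquiv.symm_apply_apply]
  exact hy

theorem trans_mem (S : Finset E) {T T' : E ≃ₗᵢ[ℝ] E} (hT : T ∈ Sy S) (hT' : T' ∈ Sy S) :
    T.trans T' ∈ Sy S := by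
  intro e he
  rw [LinearIsometryEquiv.trans_apply]
  exact hT' _ (hT e he)

theorem sum_trans (S : Finset E) {G : Finset (E ≃ₗᵢ[ℝ] E)} (hG : ∀ T, T ∈ G ↔ T ∈ Sy S)
    {T₀ : E ≃ₗᵢ[ℝ] E} (h₀ : T₀ ∈ Sy S) (F : (E ≃ₗᵢ[ℝ] E) → ℝ) :
    ∑ T ∈ G, F (T₀.trans T) = ∑ T ∈ G, F T := by
  refine Finset.sum_bij' (fun T _ => T₀.trans T) (fun T _ => T₀.symm.trans T) ?_ ?_ ?_ ?_ ?_
  · intro T hT
    rw [hG] at hT ⊢
    exact trans_mem S h₀ hT
  · intro T hT
    rw [hG] at hT ⊢
    exact trans_mem S (symm_mem S h₀) hT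
  · intro T _
    ext1 y
    simp
  · intro T _
    ext1 y
    simp
  · intro T _
    rfl

theorem sum_perm (S : Finset E) {T : E ≃ₗᵢ[ℝ] E} (hT : T ∈ Sy S) (φ : E → ℝ) :
    ∑ p ∈ S, φ (T p) = ∑ p ∈ S, φ p := by
  refine Finset.sum_bij' (fun p _ => T p) (fun p _ => T.symm p) ?_ ?_ ?_ ?_ ?_
  · exact fun p hp => hT p hp
  · exact fun p hp => symm_mem S hT p hp
  · intro p _
    simp
  · intro p _
    simp
  · intro p _
    rfl

theorem uni (S : Finset E) {G : Finset (E ≃ₗᵢ[ℝ] E)} (hG : ∀ T, T ∈ G ↔ T ∈ Sy S)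
    (htr : ∀ a ∈ S, ∀ b ∈ S, ∃ T ∈ Sy S, T a = b) (φ : E → ℝ) {p : E} (hp : p ∈ S) :
    (S.card : ℝ) * ∑ T ∈ G, φ (T p) = G.card * ∑ e ∈ S, φ e := by
  have h1 : ∀ q ∈ S, ∑ T ∈ G, φ (T q) = ∑ T ∈ G, φ (T p) := by
    intro q hq
    obtain ⟨T₀, h₀, rfl⟩ := htr p hp q hq
    rw [← sum_trans S hG h₀ (fun T => φ (T p))]
    rfl
  have h2 : ∑ q ∈ S, ∑ T ∈ G, φ (T q) = (S.card : ℝ) * ∑ T ∈ G, φ (T p) := by
    rw [Finset.sum_congr rfl h1, Finset.sum_const, nsmul_eq_mul]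
  rw [← h2, Finset.sum_comm, Finset.sum_congr rfl fun T hT => sum_perm S ((hG T).1 hT) φ,
    Finset.sum_const, nsmul_eq_mul]

open Classical in
/-- the sum over the elements of `G` which take `e` to `f` is invariant under a symmetry fixing
`f` -/
theorem sum_fix (S : Finset E) {G : Finset (E ≃ₗᵢ[ℝ] E)} (hG : ∀ T, T ∈ G ↔ T ∈ Sy S)
    {σ : E ≃ₗᵢ[ℝ] E} (hσ : σ ∈ Sy S) {e f : E} (hf : σ f = f)
    (F : (E ≃ₗᵢ[ℝ] E) → ENNReal) :
    ∑ T ∈ G.filter (fun T => T e = f), F (T.trans σ) = ∑ T ∈ G.filter (fun T => T e = f), F T := by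
  refine Finset.sum_bij' (fun T _ => T.trans σ) (fun T _ => T.trans σ.symm) ?_ ?_ ?_ ?_ ?_
  · intro T hT
    rw [Finset.mem_filter, hG] at hT ⊢
    refine ⟨trans_mem S hT.1 hσ, ?_⟩
    rw [LinearIsometryEquiv.trans_apply, hT.2, hf]
  · intro T hT
    rw [Finset.mem_filter, hG] at hT ⊢
    refine ⟨trans_mem S hT.1 (symm_mem S hσ), ?_⟩
    rw [LinearIsometryEquiv.trans_apply, hT.2]
    conv_lhs => rw [← hf]
    rw [LinearIsometryEquiv.symm_apply_apply]
  · intro T _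
    ext1 y
    simp
  · intro T _
    ext1 y
    simp
  · intro T _
    rfl

open Classical in
theorem map_inv (S : Finset E) {G : Finset (E ≃ₗᵢ[ℝ] E)} (hG : ∀ T, T ∈ G ↔ T ∈ Sy S)
    {σ : E ≃ₗᵢ[ℝ] E} (hσ : σ ∈ Sy S) {e f : E} (hf : σ f = f) (z : E) :
    Measure.map σ (∑ T ∈ G.filter (fun T => T e = f), Measure.dirac (T z)) =
      ∑ T ∈ G.filter (fun T => T e = f), Measure.dirac (T z) := by
  have hm : Measurable σ := σ.continuous.measurable
  ext s hs
  rw [Measure.map_apply hm hs, Measure.finsetSum_apply, Measure.finsetSum_apply]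
  rw [← sum_fix S hG hσ hf (fun T => Measure.dirac (T z) s)]
  refine Finset.sum_congr rfl fun T _ => ?_
  rw [Measure.dirac_apply' _ (hm hs), Measure.dirac_apply' _ hs]
  rfl

open Classical in
theorem sec_one (hI : SpecIS2) {G : Finset (E ≃ₗᵢ[ℝ] E)} (hG : ∀ T, T ∈ G ↔ T ∈ Sy UE)
    (hU : SpecUEF) {e f : E} (hf : f ∈ UE) {D z : E} (hD : (inner ℝ D f : ℝ) = 0)
    (hz : (inner ℝ z e : ℝ) = 0) :
    ∑ T ∈ G.filter (fun T => T e = f), (inner ℝ D (T z) : ℝ) ^ 2 =
      ‖D‖ ^ 2 / 7 * ((G.filter (fun T => T e = f)).card * ‖z‖ ^ 2) := by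
  set H := G.filter (fun T => T e = f) with hH
  have hint : ∀ g : E → ℝ, ∀ T ∈ H, Integrable g (Measure.dirac (T z)) :=
    fun g T _ => integrable_dirac (by finiteness)
  have hval : ∀ g : E → ℝ, ∫ y, g y ∂(∑ T ∈ H, Measure.dirac (T z)) = ∑ T ∈ H, g (T z) := by
    intro g
    rw [integral_finsetSum_measure (hint g)]
    exact Finset.sum_congr rfl fun T _ => integral_dirac _ _
  have h1 := hI f hf (∑ T ∈ H, Measure.dirac (T z))
    (integrable_finsetSum_measure.2 (hint _)) ?_ D hD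
  · rw [hval, hval] at h1
    rw [h1]
    congr 1
    have h2 : ∀ T ∈ H, ‖T z‖ ^ 2 - (inner ℝ f (T z) : ℝ) ^ 2 = ‖z‖ ^ 2 := by
      intro T hT
      have h3 : T e = f := (Finset.mem_filter.1 hT).2
      rw [← h3, LinearIsometryEquiv.inner_map_map, real_inner_comm, hz,
        LinearIsometryEquiv.norm_map]
      ring
    rw [Finset.sum_congr rfl h2, Finset.sum_const, nsmul_eq_mul]
  · intro s hs
    have hs' := Finset.mem_filter.1 hs
    obtain ⟨σ, hσ⟩ := TRAM.refl_ex (hU.nrm s hs'.1)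
    have hσm : σ ∈ Sy UE := by
      intro g hg
      rw [hσ]
      exact hU.refl g hg s hs'.1
    have hσf : σ f = f := by
      rw [hσ, real_inner_comm, hs'.2]
      simp
    have h4 := map_inv UE hG hσm hσf z (e := e)
    have h5 : (fun v : E => v - (2 * (inner ℝ s v : ℝ)) • s) = σ := by
      funext v
      rw [hσ, real_inner_comm]
    rw [h5]
    exact h4

end XGRM

open XGRM in
theorem specXGR (hU : SpecUEF) (hT : SpecTRA) (hI : SpecIS2) : SpecXGR := by
  classical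
  have hc : ∀ y : E, (∀ e ∈ UE, (inner ℝ e y : ℝ) = 0) → y = 0 := by
    intro y h
    obtain ⟨e, he, _, h2⟩ := hU.cov y
    rw [h e he] at h2
    have h3 : ‖y‖ ^ 2 = 0 := le_antisymm (by simpa using h2) (by positivity)
    simpa using h3
  have hG : ∀ T, T ∈ (fin UE hc).toFinset ↔ T ∈ Sy UE := fun T => Set.Finite.mem_toFinset _
  have htr : ∀ a ∈ UE, ∀ b ∈ UE, ∃ T ∈ Sy UE, T a = b := by
    intro a ha b hb
    obtain ⟨T, h1, h2⟩ := hT.one a ha b hb
    exact ⟨T, h1, h2⟩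
  have huni : ∀ φ : E → ℝ, ∀ p ∈ UE,
      240 * ∑ T ∈ (fin UE hc).toFinset, φ (T p) = (fin UE hc).toFinset.card * ∑ e ∈ UE, φ e := by
    intro φ p hp
    have h1 := uni UE hG htr φ hp
    rw [hU.c240] at h1
    exact_mod_cast h1
  refine ⟨(fin UE hc).toFinset, ?_, fun T h => (hG T).1 h, huni, ?_⟩
  · refine ⟨LinearIsometryEquiv.refl ℝ E, (hG _).2 fun e he => ?_⟩
    exact he
  · intro D hD e he z hz
    have h1 : ∀ f ∈ UE, (240 : ℝ) * (((fin UE hc).toFinset.filter (fun T => T e = f)).card : ℝ) =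
        (fin UE hc).toFinset.card := by
      intro f hf
      have h2 := huni (fun p => if p = f then 1 else 0) e he
      rw [Finset.sum_ite_eq' UE f, if_pos hf, mul_one, ← Finset.sum_filter,
        Finset.sum_const, nsmul_eq_mul, mul_one] at h2
      exact h2
    have h2 : ∑ T ∈ (fin UE hc).toFinset, (inner ℝ (D (T e)) (T z) : ℝ) ^ 2 =
        ∑ f ∈ UE, ∑ T ∈ (fin UE hc).toFinset.filter (fun T => T e = f),
          (inner ℝ (D f) (T z) : ℝ) ^ 2 := by
      rw [← Finset.sum_fiberwise_of_maps_to (g := fun T : E ≃ₗᵢ[ℝ] E => T e)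
        (fun T h => (hG T).1 h e he)]
      refine Finset.sum_congr rfl fun f _ => Finset.sum_congr rfl fun T hT => ?_
      rw [(Finset.mem_filter.1 hT).2]
    rw [h2, Finset.sum_congr rfl fun f hf => sec_one hI hG hU hf (hD f hf) hz, Finset.mul_sum,
      Finset.mul_sum, Finset.mul_sum]
    refine Finset.sum_congr rfl fun f hf => ?_
    rw [← h1 f hf]
    ring

end Pool.Agent.Lib.MP_f1379f_gt.FV
end

section
/-! # Module XPO: radial comparison on star-shaped sets of dimension 6. -/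
set_option autoImplicit false

namespace Pool.Agent.Lib.MP_f1379f_gt.FV

open MeasureTheory

namespace XPOM

section

variable {F : Type} [NormedAddCommGroup F] [InnerProductSpace ℝ F] [FiniteDimensional ℝ F]
  [MeasurableSpace F] [BorelSpace F]

/-- Polar coordinates for the lower integral. -/
theorem polar (hdim : Module.finrank ℝ F = 6) (P : F → ENNReal) (hP : Measurable P) :
    ∫⁻ x, P x = ∫⁻ w : Metric.sphere (0 : F) 1, (∫⁻ r in Set.Ioi (0 : ℝ),
      ENNReal.ofReal (r ^ 5) * P (r • (w : F))) ∂(volume : Measure F).toSphere := by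
  have : Nontrivial F := Module.nontrivial_of_finrank_pos (R := ℝ) (by rw [hdim]; norm_num)
  have hmp := (volume : Measure F).measurePreserving_homeomorphUnitSphereProd
  rw [hdim] at hmp
  set g : Metric.sphere (0 : F) 1 × Set.Ioi (0 : ℝ) → ENNReal :=
    fun p => P ((p.2 : ℝ) • (p.1 : F)) with hg
  have hgm : Measurable g := by
    refine hP.comp ?_
    exact (measurable_subtype_coe.comp measurable_snd).smul
      (measurable_subtype_coe.comp measurable_fst)
  have hcomp : ∀ z : ({(0)}ᶜ : Set F), g (homeomorphUnitSphereProd F z) = P z := by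
    intro z
    have h0 : ‖(z : F)‖ ≠ 0 := by
      rw [norm_ne_zero_iff]
      exact z.2
    simp only [hg]
    congr 1
    simp [smul_smul, h0]
  have h1 : ∫⁻ x, P x = ∫⁻ z : ({(0)}ᶜ : Set F), P z ∂((volume : Measure F).comap (↑)) := by
    rw [lintegral_subtype_comap (measurableSet_singleton _).compl fun x => P x,
      restrict_compl_singleton]
  have h2 : ∫⁻ z : ({(0)}ᶜ : Set F), P z ∂((volume : Measure F).comap (↑)) =
      ∫⁻ p, g p ∂((volume : Measure F).toSphere.prod (Measure.volumeIoiPow (6 - 1))) := by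
    rw [← hmp.lintegral_comp hgm]
    simp only [hcomp]
  rw [h1, h2, lintegral_prod _ hgm.aemeasurable]
  refine lintegral_congr fun w => ?_
  have hd : Measurable fun r : Set.Ioi (0 : ℝ) => ENNReal.ofReal ((r : ℝ) ^ 5) := by
    fun_prop
  have hgw : Measurable fun r : Set.Ioi (0 : ℝ) => g (w, r) :=
    hgm.comp (measurable_const.prodMk measurable_id)
  have h3 : ∫⁻ r, g (w, r) ∂(Measure.volumeIoiPow (6 - 1)) =
      ∫⁻ r : Set.Ioi (0 : ℝ), ENNReal.ofReal ((r : ℝ) ^ 5) * P ((r : ℝ) • (w : F))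
        ∂(Measure.comap Subtype.val volume) := by
    unfold Measure.volumeIoiPow
    rw [lintegral_withDensity_eq_lintegral_mul _ hd hgw]
    rfl
  rw [h3, lintegral_subtype_comap measurableSet_Ioi
    fun r : ℝ => ENNReal.ofReal (r ^ 5) * P (r • (w : F))]

omit [FiniteDimensional ℝ F] [MeasurableSpace F] [BorelSpace F] in
/-- The radial function of a set. -/
theorem slice (A : Set F) (r0 R1 : ℝ)
    (hst : ∀ x ∈ A, ∀ c : ℝ, 0 ≤ c → c ≤ 1 → c • x ∈ A) (hb : ∀ x ∈ A, ‖x‖ ≤ R1) (h0 : 0 ≤ r0)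
    (w : F) (hw : ‖w‖ = 1) :
    {r : ℝ | r0 < r ∧ r • w ∈ A} = ∅ ∨ ∃ R : ℝ, r0 ≤ R ∧ R ≤ R1 ∧
      {r : ℝ | r0 < r ∧ r • w ∈ A} =ᵐ[volume] Set.Ioc r0 R := by
  rcases Set.eq_empty_or_nonempty {r : ℝ | r0 < r ∧ r • w ∈ A} with he | hne
  · exact Or.inl he
  · right
    set T := {r : ℝ | r0 < r ∧ r • w ∈ A} with hT
    have hub : ∀ r ∈ T, r ≤ R1 := by
      rintro r ⟨hr0, hr⟩
      have := hb _ hr
      rw [norm_smul, hw, mul_one, Real.norm_eq_abs] at this
      exact (le_abs_self r).trans this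
    have hbdd : BddAbove T := ⟨R1, hub⟩
    refine ⟨sSup T, ?_, csSup_le hne hub, ?_⟩
    · obtain ⟨r, hr⟩ := hne
      exact hr.1.le.trans (le_csSup hbdd hr)
    · have h1 : T ⊆ Set.Ioc r0 (sSup T) := fun r hr => ⟨hr.1, le_csSup hbdd hr⟩
      have h2 : Set.Ioo r0 (sSup T) ⊆ T := by
        rintro r ⟨hr0, hrR⟩
        obtain ⟨s, hs, hrs⟩ := exists_lt_of_lt_csSup hne hrR
        refine ⟨hr0, ?_⟩
        have hs0 : 0 < s := lt_of_le_of_lt (h0.trans hr0.le) hrs
        have h3 := hst _ hs.2 (r / s) (div_nonneg (h0.trans hr0.le) hs0.le)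
          ((div_le_one hs0).mpr hrs.le)
        rwa [smul_smul, div_mul_cancel₀ _ hs0.ne'] at h3
      refine Filter.EventuallyLE.antisymm h1.eventuallyLE ?_
      exact (Ioo_ae_eq_Ioc (a := r0) (b := sSup T)).symm.le.trans h2.eventuallyLE

omit [FiniteDimensional ℝ F] in
theorem ray (A : Set F) (hA : MeasurableSet A) (f : ℝ → ENNReal) (r0 : ℝ) (h0 : 0 ≤ r0) (w : F)
    (hw : ‖w‖ = 1) :
    ∫⁻ r in Set.Ioi (0 : ℝ), ENNReal.ofReal (r ^ 5) *
        (A ∩ {x | r0 < ‖x‖}).indicator (fun x => f ‖x‖) (r • w) =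
      ∫⁻ r in {r : ℝ | r0 < r ∧ r • w ∈ A}, f r * ENNReal.ofReal (r ^ 5) := by
  set T := {r : ℝ | r0 < r ∧ r • w ∈ A} with hT
  have hTm : MeasurableSet T := by
    have h1 : MeasurableSet {r : ℝ | r • w ∈ A} :=
      (measurable_id.smul_const w) hA
    exact measurableSet_Ioi.inter h1
  have hsub : T ⊆ Set.Ioi 0 := fun r hr => lt_of_le_of_lt h0 hr.1
  have e1 : ∫⁻ r in Set.Ioi (0 : ℝ), ENNReal.ofReal (r ^ 5) *
        (A ∩ {x | r0 < ‖x‖}).indicator (fun x => f ‖x‖) (r • w) =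
      ∫⁻ r in Set.Ioi (0 : ℝ), T.indicator (fun r => f r * ENNReal.ofReal (r ^ 5)) r := by
    refine setLIntegral_congr_fun measurableSet_Ioi fun r hr => ?_
    have hn : ‖r • w‖ = r := by
      rw [norm_smul, hw, mul_one, Real.norm_eq_abs, abs_of_pos hr]
    by_cases hrT : r ∈ T
    · have hm : r • w ∈ A ∩ {x | r0 < ‖x‖} := ⟨hrT.2, by show r0 < ‖r • w‖; rw [hn]; exact hrT.1⟩
      rw [Set.indicator_of_mem hm, Set.indicator_of_mem hrT, hn, mul_comm]
    · have hm : r • w ∉ A ∩ {x | r0 < ‖x‖} := by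
        rintro ⟨h1, h2⟩
        have h3 : r0 < ‖r • w‖ := h2
        rw [hn] at h3
        exact hrT ⟨h3, h1⟩
      rw [Set.indicator_of_notMem hm, Set.indicator_of_notMem hrT, mul_zero]
  rw [e1, lintegral_indicator hTm, Measure.restrict_restrict hTm,
    Set.inter_eq_self_of_subset_left hsub]

theorem slice_le (A : Set F) (hA : MeasurableSet A) (f g : ℝ → ENNReal) (r0 R1 : ℝ)
    (hst : ∀ x ∈ A, ∀ c : ℝ, 0 ≤ c → c ≤ 1 → c • x ∈ A) (hb : ∀ x ∈ A, ‖x‖ ≤ R1) (h0 : 0 ≤ r0)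
    (hfg : ∀ R : ℝ, r0 ≤ R → R ≤ R1 →
        ∫⁻ r in Set.Ioc r0 R, f r * ENNReal.ofReal (r ^ 5) ≤
          ∫⁻ r in Set.Ioc r0 R, g r * ENNReal.ofReal (r ^ 5))
    (w : F) (hw : ‖w‖ = 1) :
    ∫⁻ r in Set.Ioi (0 : ℝ), ENNReal.ofReal (r ^ 5) *
        (A ∩ {x | r0 < ‖x‖}).indicator (fun x => f ‖x‖) (r • w) ≤
      ∫⁻ r in Set.Ioi (0 : ℝ), ENNReal.ofReal (r ^ 5) *
        (A ∩ {x | r0 < ‖x‖}).indicator (fun x => g ‖x‖) (r • w) := by
  rw [ray A hA f r0 h0 w hw, ray A hA g r0 h0 w hw]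
  rcases slice A r0 R1 hst hb h0 w hw with he | ⟨R, h1, h2, h3⟩
  · rw [he]
    simp
  · rw [setLIntegral_congr h3, setLIntegral_congr h3]
    exact hfg R h1 h2

end

end XPOM

/-- XPO. -/
theorem specXPO : SpecXPO := by
  intro F _ _ _ _ _ hdim A f g r0 R1 hA hf hg hst hb h0 hfg
  have hm : MeasurableSet {x : F | r0 < ‖x‖} := measurableSet_lt measurable_const measurable_norm
  have hAm : MeasurableSet (A ∩ {x : F | r0 < ‖x‖}) := hA.inter hm
  have hfm : Measurable ((A ∩ {x : F | r0 < ‖x‖}).indicator fun x => f ‖x‖) :=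
    (hf.comp measurable_norm).indicator hAm
  have hgm : Measurable ((A ∩ {x : F | r0 < ‖x‖}).indicator fun x => g ‖x‖) :=
    (hg.comp measurable_norm).indicator hAm
  rw [← lintegral_indicator hAm, ← lintegral_indicator hAm, XPOM.polar hdim _ hfm,
    XPOM.polar hdim _ hgm]
  refine lintegral_mono fun w => ?_
  exact XPOM.slice_le A hA f g r0 R1 hst hb h0 hfg w (by simpa using w.2)

end Pool.Agent.Lib.MP_f1379f_gt.FV
end

section
set_option autoImplicit false

namespace Pool.Agent.Lib.MP_f1379f_gt.FV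

open MeasureTheory

namespace XTHM

/-- `-2 log r ≤ 1/r - r` on `(0,1]` -/
theorem log_bound {r : ℝ} (h0 : 0 < r) (h1 : r ≤ 1) : 0 ≤ r⁻¹ - r + 2 * Real.log r := by
  have hder : ∀ x : ℝ, 0 < x → HasDerivAt (fun x : ℝ => x⁻¹ - x + 2 * Real.log x)
      (-(x ^ 2)⁻¹ - 1 + 2 * x⁻¹) x := by
    intro x hx
    exact ((hasDerivAt_inv hx.ne').sub (hasDerivAt_id x)).add
      ((Real.hasDerivAt_log hx.ne').const_mul 2)
  have hanti : AntitoneOn (fun x : ℝ => x⁻¹ - x + 2 * Real.log x) (Set.Ioi 0) := by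
    apply antitoneOn_of_deriv_nonpos (convex_Ioi 0)
    · intro x hx
      exact (hder x hx).continuousAt.continuousWithinAt
    · intro x hx
      rw [interior_Ioi] at hx
      exact (hder x hx).differentiableAt.differentiableWithinAt
    · intro x hx
      rw [interior_Ioi] at hx
      rw [(hder x hx).deriv]
      have hx' : (0 : ℝ) < x := hx
      have : -(x ^ 2)⁻¹ - 1 + 2 * x⁻¹ = -(x⁻¹ - 1) ^ 2 := by
        field_simp
        ring
      rw [this]
      have := sq_nonneg (x⁻¹ - 1)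
      linarith
  have h := hanti (Set.mem_Ioi.2 h0) (Set.mem_Ioi.2 one_pos) h1
  simpa using h

theorem log_bound' {w : ℝ} (h0 : 0 < w) (h1 : w ≤ 1) : -Real.log w ≤ (1 - w) / Real.sqrt w := by
  have hs : 0 < Real.sqrt w := Real.sqrt_pos.2 h0
  have hs1 : Real.sqrt w ≤ 1 := Real.sqrt_le_one.2 h1
  have h := log_bound hs hs1
  have hw : Real.sqrt w ^ 2 = w := Real.sq_sqrt h0.le
  have hl : Real.log w = 2 * Real.log (Real.sqrt w) := by
    conv_lhs => rw [← hw, Real.log_pow]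
    norm_num
  have e : (1 - w) / Real.sqrt w = (Real.sqrt w)⁻¹ - Real.sqrt w := by
    field_simp
    rw [hw]
  rw [e, hl]
  linarith

/-- the primitive -/
theorem integral_eq {z s0 : ℝ} (hz0 : 0 < z) (hz1 : z < 1) (h0 : 0 ≤ s0) (h1 : s0 ≤ 1) :
    ∫ s in s0..1, s / (1 - z * s ^ 2) =
      -Real.log (1 - z) / (2 * z) + Real.log (1 - z * s0 ^ 2) / (2 * z) := by
  have hpos : ∀ s ∈ Set.uIcc s0 1, 0 < 1 - z * s ^ 2 := by
    intro s hs
    rw [Set.uIcc_of_le h1] at hs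
    have : s ^ 2 ≤ 1 := by nlinarith [hs.1, hs.2]
    nlinarith
  have hder : ∀ s ∈ Set.uIcc s0 1, HasDerivAt (fun s => -Real.log (1 - z * s ^ 2) / (2 * z))
      (s / (1 - z * s ^ 2)) s := by
    intro s hs
    have hp := hpos s hs
    have h2 : HasDerivAt (fun s : ℝ => 1 - z * s ^ 2) (-(z * (2 * s))) s := by
      have := ((hasDerivAt_pow 2 s).const_mul z).const_sub 1
      simpa using this
    have h3 := ((h2.log hp.ne').neg).div_const (2 * z)
    have hv : s / (1 - z * s ^ 2) = -(-(z * (2 * s)) / (1 - z * s ^ 2)) / (2 * z) := by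
      have hp' := hp.ne'
      field_simp
    rw [hv]
    exact h3
  have hcont : ContinuousOn (fun s : ℝ => s / (1 - z * s ^ 2)) (Set.uIcc s0 1) := by
    apply ContinuousOn.div continuousOn_id (by fun_prop)
    intro s hs
    exact (hpos s hs).ne'
  rw [intervalIntegral.integral_eq_sub_of_hasDerivAt hder hcont.intervalIntegrable]
  norm_num
  ring

end XTHM

theorem specXTH : SpecXTH := by
  intro t ht1 ht2
  obtain ⟨z, hz⟩ : ∃ z, z = 1 / 3 + t := ⟨_, rfl⟩
  have hz0 : 2 / 3 < z := by rw [hz]; linarith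
  have hz1 : z < 1 := by rw [hz]; linarith
  have hzp : 0 < z := by linarith
  have hq0 : 0 < 2 / (3 * z) := by positivity
  have hq1 : 2 / (3 * z) < 1 := by
    rw [div_lt_one (by positivity)]
    linarith
  obtain ⟨s0, hs0⟩ : ∃ s0, s0 = Real.sqrt (2 / (3 * z)) := ⟨_, rfl⟩
  have hs0p : 0 ≤ s0 := by rw [hs0]; exact Real.sqrt_nonneg _
  have hs0sq : s0 ^ 2 = 2 / (3 * z) := by rw [hs0]; exact Real.sq_sqrt hq0.le
  have hs01 : s0 ≤ 1 := by
    rw [hs0]
    exact Real.sqrt_le_one.2 hq1.le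
  have hposI : ∀ s ∈ Set.Ioc s0 1, 0 < 1 - z * s ^ 2 := by
    intro s hs
    have : s ^ 2 ≤ 1 := by nlinarith [hs.1, hs.2]
    nlinarith
  -- comparison of the integrands
  have h1 : Th t ≤ ∫⁻ s in Set.Ioc s0 1, ENNReal.ofReal (s / (1 - z * s ^ 2)) := by
    unfold Th
    rw [← lintegral_indicator measurableSet_Ioo, ← lintegral_indicator measurableSet_Ioc]
    refine lintegral_mono fun s => ?_
    by_cases hs : s ∈ Set.Ioo (0 : ℝ) 1
    · rw [Set.indicator_of_mem hs]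
      split_ifs with hc
      · rw [← hz] at hc ⊢
        have hs0lt : s0 < s := by
          have h3 : s0 ^ 2 < s ^ 2 := by
            rw [hs0sq, div_lt_iff₀ (by positivity)]
            nlinarith
          exact lt_of_pow_lt_pow_left₀ 2 hs.1.le h3
        have hmem : s ∈ Set.Ioc s0 1 := ⟨hs0lt, hs.2.le⟩
        rw [Set.indicator_of_mem hmem]
        have hp := hposI s hmem
        have hp' : 0 < 1 - s ^ 2 * z := by linarith
        rw [← ENNReal.ofReal_div_of_pos hp']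
        refine ENNReal.ofReal_le_ofReal ?_
        rw [mul_comm (s ^ 2) z, div_le_div_iff_of_pos_right hp]
        have h5 : s ^ 5 ≤ 1 := pow_le_one₀ hs.1.le hs.2.le
        nlinarith [hs.1]
      · exact zero_le
    · rw [Set.indicator_of_notMem hs]
      exact zero_le
  have h2 : ∫⁻ s in Set.Ioc s0 1, ENNReal.ofReal (s / (1 - z * s ^ 2)) =
      ENNReal.ofReal (∫ s in s0..1, s / (1 - z * s ^ 2)) := by
    rw [intervalIntegral.integral_of_le hs01, ofReal_integral_eq_lintegral_ofReal]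
    · have hcont : ContinuousOn (fun s : ℝ => s / (1 - z * s ^ 2)) (Set.Icc s0 1) := by
        apply ContinuousOn.div continuousOn_id (by fun_prop)
        intro s hs
        have : s ^ 2 ≤ 1 := by nlinarith [hs.1, hs.2]
        nlinarith
      exact (hcont.integrableOn_Icc).mono_set Set.Ioc_subset_Icc_self
    · refine (ae_restrict_iff' measurableSet_Ioc).2 (Filter.Eventually.of_forall fun s hs => ?_)
      exact div_nonneg (le_trans hs0p hs.1.le) (hposI s hs).le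
  refine h1.trans ?_
  rw [h2]
  refine ENNReal.ofReal_le_ofReal ?_
  rw [XTHM.integral_eq hzp hz1 hs0p hs01, hs0sq]
  have hw : 2 - 3 * t = 3 * (1 - z) := by rw [hz]; ring
  have hw0 : 0 < 3 * (1 - z) := by linarith
  have hw1 : 3 * (1 - z) ≤ 1 := by linarith
  have e1 : 1 - z * (2 / (3 * z)) = 1 / 3 := by
    field_simp
    norm_num
  have e2 : -Real.log (1 - z) / (2 * z) + Real.log (1 / 3) / (2 * z) =
      (1 / (2 * z)) * (-Real.log (3 * (1 - z))) := by
    rw [Real.log_mul (by norm_num) (by linarith), one_div (3 : ℝ), Real.log_inv]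
    ring
  rw [e1, e2, hw]
  have h3 := XTHM.log_bound' hw0 hw1
  have h4 : 0 ≤ -Real.log (3 * (1 - z)) := by
    have := Real.log_nonpos hw0.le hw1
    linarith
  have h5 : 1 / (2 * z) ≤ 3 / 4 := by
    rw [div_le_div_iff₀ (by positivity) (by norm_num)]
    linarith
  have h6 : 3 * t - 1 = 1 - 3 * (1 - z) := by rw [hz]; ring
  rw [h6]
  calc 1 / (2 * z) * (-Real.log (3 * (1 - z))) ≤ 3 / 4 * (-Real.log (3 * (1 - z))) :=
        mul_le_mul_of_nonneg_right h5 h4
    _ ≤ 3 / 4 * ((1 - 3 * (1 - z)) / Real.sqrt (3 * (1 - z))) :=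
        mul_le_mul_of_nonneg_left h3 (by norm_num)

end Pool.Agent.Lib.MP_f1379f_gt.FV
end
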