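import Pool.Agent.Lib.MP_f1379f_gt.FV.SpecX
import Pool.Agent.Lib.MP_f1379f_gt.FV.PIN
import Pool.Agent.Lib.MP_f1379f_gt.FV.TL2
import Pool.Agent.Lib.MP_f1379f_gt.FV.AllS
import Pool.Agent.Lib.MP_f1379f_gt.FV.HLB
import Pool.Agent.Lib.MP_f1379f_gt.FV.STG2
import Pool.Agent.Lib.MP_f1379f_gt.FV.CEX
import Pool.Agent.Lib.MP_f1379f_gt.FV.XRD
import Pool.Agent.Lib.MP_f1379f_gt.FV.XTH
import Pool.Agent.Lib.MP_f1379f_gt.FV.XPT
import Pool.Agent.Lib.MP_f1379f_gt.FV.XFC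
import Pool.Agent.Lib.MP_f1379f_gt.FV.XPI
import Pool.Agent.Lib.MP_f1379f_gt.FV.FIN
import Pool.Agent.Lib.MP_f1379f_gt.EQ.FNE
import Pool.Agent.Lib.MP_f1379f_gt.FV.L1F
import Pool.Agent.Lib.MP_f1379f_gt.FV.NRP
import Pool.Agent.Lib.MP_f1379f_gt.FV.SpecS3
import Pool.Agent.Lib.MP_f1379f_gt.FV.TOF

section
/-! # Module XME: the singular moment of the wall. -/
set_option autoImplicit false

namespace Pool.Agent.Lib.MP_f1379f_gt.FV

open MeasureTheory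

namespace XMEM

theorem finrank6 {e a : E} (he : ‖e‖ = 1) (ha : ‖a‖ = 1) (h : (inner ℝ e a : ℝ) = 1 / 2) :
    Module.finrank ℝ (Sp e a) = 6 := by
  obtain ⟨b, -, -⟩ := PINM.basis_ex he ha h
  have h2 : Module.finrank ℝ (Submodule.span ℝ ({e, a} : Set E)) = 2 := by
    rw [Module.finrank_eq_card_basis b.toBasis, Fintype.card_fin]
  have h3 := (Submodule.span ℝ ({e, a} : Set E)).finrank_add_finrank_orthogonal
  rw [h2] at h3
  have h8 : Module.finrank ℝ E = 8 := by simp [E]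
  show Module.finrank ℝ ((Submodule.span ℝ ({e, a} : Set E))ᗮ : Submodule ℝ E) = 6
  omega

theorem F6_meas (e a : E) : MeasurableSet (F6 e a) := by
  have h1 : F6 e a = ⋂ b ∈ {b : E | b ∈ UE ∧ (inner ℝ b e : ℝ) = 1 / 2 ∧
      (inner ℝ b a : ℝ) = 1 / 2}, {x : Sp e a | (inner ℝ b (x : E) : ℝ) ≤ 1 / 3} := by
    ext x
    simp only [F6, Set.mem_iInter]
    constructor
    · rintro h b ⟨h1, h2, h3⟩
      exact h b h1 h2 h3
    · intro h b h1 h2 h3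
      exact h b ⟨h1, h2, h3⟩
  rw [h1]
  refine (isClosed_biInter fun b _ => ?_).measurableSet
  exact isClosed_le (by fun_prop) continuous_const

theorem F6_star (e a : E) (x : Sp e a) (hx : x ∈ F6 e a) (c : ℝ) (h0 : 0 ≤ c) (h1 : c ≤ 1) :
    c • x ∈ F6 e a := by
  intro b hb hbe hba
  have h2 := hx b hb hbe hba
  have h3 : (inner ℝ b ((c • x : Sp e a) : E) : ℝ) = c * (inner ℝ b (x : E) : ℝ) := by
    rw [Submodule.coe_smul, real_inner_smul_right]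
  rw [h3]
  nlinarith

theorem F6o_eq (e a : E) : F6o e a = F6 e a ∩ {x | Real.sqrt (1 / 3) < ‖x‖} := by
  ext x
  constructor
  · rintro ⟨h1, h2⟩
    exact ⟨h1, (Real.sqrt_lt' (lt_of_le_of_ne (norm_nonneg x) (by
      rintro h
      rw [← h] at h2
      norm_num at h2))).mpr h2⟩
  · rintro ⟨h1, h2⟩
    refine ⟨h1, ?_⟩
    have h3 : Real.sqrt (1 / 3) ^ 2 < ‖x‖ ^ 2 :=
      pow_lt_pow_left₀ h2 (Real.sqrt_nonneg _) (by norm_num)
    rwa [Real.sq_sqrt (by norm_num)] at h3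

end XMEM

/-- XME. -/
theorem specXME (hUEF : SpecUEF) (hF6V : SpecF6V) (hVF6 : SpecVF6) (hV6B : SpecV6B)
    (hTL2 : SpecTL2) (hTAI : SpecTAI) (hXPO : SpecXPO) (hXPI : SpecXPI) : SpecXME := by
  intro a ha e he
  have he' : e ∈ UE ∧ (inner ℝ e a : ℝ) = 1 / 2 := by
    simpa [nb] using he
  have hfr := XMEM.finrank6 (hUEF.nrm e he'.1) (hUEF.nrm a ha) he'.2
  have hnrm : ∀ x ∈ F6 e a, ‖x‖ ^ 2 ≤ 2 / 3 := by
    intro x hx
    have := hF6V.nrm a ha e he x hx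
    simpa using this
  have h1 := hXPO (Sp e a) hfr (F6 e a)
    (fun r => ENNReal.ofReal ((3 * r ^ 2 - 1) / Real.sqrt (2 - 3 * r ^ 2)))
    (fun r => ENNReal.ofReal (33 / 2000 + 1920 * psl (r ^ 2 - 1 / 3)))
    (Real.sqrt (1 / 3)) (Real.sqrt (2 / 3)) (XMEM.F6_meas e a)
    (by
      refine ENNReal.measurable_ofReal.comp ?_
      refine Measurable.div (by fun_prop) ?_
      exact (Real.continuous_sqrt.comp (by fun_prop)).measurable)
    (by
      refine ENNReal.measurable_ofReal.comp ?_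
      unfold psl
      fun_prop)
    (fun x hx c hc0 hc1 => XMEM.F6_star e a x hx c hc0 hc1)
    (fun x hx => Real.le_sqrt_of_sq_le (hnrm x hx)) (Real.sqrt_nonneg _) hXPI
  rw [← XMEM.F6o_eq] at h1
  refine h1.trans ?_
  have hpsl : ∀ d : ℝ, 0 ≤ psl d := by
    intro d
    unfold psl
    have : 0 ≤ (1 - d) ^ 4 := by
      have h : (1 - d) ^ 4 = ((1 - d) ^ 2) ^ 2 := by ring
      rw [h]
      positivity
    positivity
  obtain ⟨hfin, -⟩ := M24M.vol_outer hF6V hVF6 hV6B a ha e he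
  have hfc : Continuous fun t : ℝ => 33 / 2000 + 1920 * psl (t - 1 / 3) := by
    unfold psl
    fun_prop
  have hi := M24M.intg hF6V a ha e he hfin _ hfc
  have hnn : 0 ≤ᵐ[volume.restrict (F6o e a)]
      fun x : Sp e a => 33 / 2000 + 1920 * psl (‖x‖ ^ 2 - 1 / 3) := by
    refine Filter.Eventually.of_forall fun x => ?_
    have := hpsl (‖x‖ ^ 2 - 1 / 3)
    show (0 : ℝ) ≤ 33 / 2000 + 1920 * psl (‖x‖ ^ 2 - 1 / 3)
    positivity
  rw [← ofReal_integral_eq_lintegral_ofReal hi hnn]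
  apply ENNReal.ofReal_le_ofReal
  have hc := M24M.cmp hF6V hVF6 hV6B hTL2 hTAI a ha e he
    (fun t : ℝ => 33 / 2000 + 1920 * psl (t - 1 / 3)) hfc (33 / 2000) 1920 (by norm_num)
    (by norm_num) (fun d _ _ => by
      have e1 : d + 1 / 3 - 1 / 3 = d := by ring
      show 33 / 2000 + 1920 * psl (d + 1 / 3 - 1 / 3) ≤ 33 / 2000 + 1920 * psl d
      rw [e1])
  refine hc.trans ?_
  norm_num

end Pool.Agent.Lib.MP_f1379f_gt.FV
end

section
/-! # Module XOU: the theorem of block X. -/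
set_option autoImplicit false

namespace Pool.Agent.Lib.MP_f1379f_gt.FV

open MeasureTheory

namespace XOUM

theorem mem_nb {a e : E} (he : e ∈ nb a) : e ∈ UE ∧ (inner ℝ e a : ℝ) = 1 / 2 := by
  simpa [nb] using he

theorem dsp (U V : Finset E) (u : E → E) (hX : EXT U V u) (hu : ∀ e ∈ UE, ‖u e - e‖ ≤ 17 / 100) :
    DSP u (fun _ => 1 / 2) where
  le_one := fun a ha => hX.le_one _ (hX.lab a ha)
  pos := fun _ _ => by norm_num
  small := fun a ha => by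
    have := hu a ha
    show ‖u a - a‖ ≤ 17 / 50 * (1 / 2)
    linarith
  sum := fun _ _ _ _ _ => by norm_num

/-- The one-vector terms. -/
theorem term (hUEF : SpecUEF) (hNNB : SpecNNB) (u : E → E) (a : E) (ha : a ∈ UE)
    (hu : ‖u a - a‖ ≤ 17 / 100) :
    (1 / 2 : ℝ) * NN a ((1 / 2 : ℝ)⁻¹ • del u a) ≤
      204 / 5000 * ‖del u a‖ ^ 2 + 106 / 125 * ‖del u a‖ ^ 4 := by
  have hn : ‖a‖ = 1 := hUEF.nrm a ha
  have h0 : (inner ℝ ((1 / 2 : ℝ)⁻¹ • del u a) a : ℝ) = 0 := by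
    rw [real_inner_smul_left, OUTM.del_orth u a hn, mul_zero]
  have hdn : ‖del u a‖ ≤ ‖u a - a‖ := OUTM.del_norm u a hn
  have hnD : ‖(1 / 2 : ℝ)⁻¹ • del u a‖ = 2 * ‖del u a‖ := by
    rw [norm_smul, Real.norm_eq_abs, abs_of_pos (by norm_num)]
    norm_num
  have hle : ‖(1 / 2 : ℝ)⁻¹ • del u a‖ ≤ 17 / 50 := by
    rw [hnD]
    linarith
  have h1 := hNNB a ha _ h0 hle
  rw [hnD] at h1
  nlinarith [h1]

/-- The fibre integrals. -/
theorem fib (hUEF : SpecUEF) (hF6V : SpecF6V) (hXTH : SpecXTH) (hXME : SpecXME) (a : E)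
    (ha : a ∈ UE) (e : E) (he : e ∈ nb a) :
    ∫⁻ x in F6o e a, Th (‖x‖ ^ 2) ≤ ENNReal.ofReal (3 / 4 * (1121 / 1000000)) := by
  obtain ⟨heU, hea⟩ := mem_nb he
  have hfr := XMEM.finrank6 (hUEF.nrm e heU) (hUEF.nrm a ha) hea
  have hnt : Nontrivial (Sp e a) :=
    Module.nontrivial_of_finrank_pos (R := ℝ) (by rw [hfr]; norm_num)
  have hsph : ∀ᵐ x : Sp e a, ‖x‖ ^ 2 ≠ 2 / 3 := by
    have h1 : volume (Metric.sphere (0 : Sp e a) (Real.sqrt (2 / 3))) = 0 :=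
      Measure.addHaar_sphere _ _ _
    refine (measure_eq_zero_iff_ae_notMem.mp h1).mono fun x hx h => hx ?_
    rw [mem_sphere_zero_iff_norm, ← h, Real.sqrt_sq (norm_nonneg x)]
  have h2 : ∫⁻ x in F6o e a, Th (‖x‖ ^ 2) ≤
      ∫⁻ x in F6o e a, ENNReal.ofReal (3 / 4) *
        ENNReal.ofReal ((3 * ‖x‖ ^ 2 - 1) / Real.sqrt (2 - 3 * ‖x‖ ^ 2)) := by
    refine lintegral_mono_ae ?_
    refine (ae_restrict_iff' (hF6V.meas e a)).mpr ?_
    filter_upwards [hsph] with x hx hxF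
    have h3 : ‖x‖ ^ 2 ≤ 2 / 3 := by
      have := hF6V.nrm a ha e he x hxF.1
      simpa using this
    have h4 := hXTH (‖x‖ ^ 2) hxF.2 (lt_of_le_of_ne h3 hx)
    rwa [ENNReal.ofReal_mul (by norm_num)] at h4
  refine h2.trans ?_
  rw [lintegral_const_mul' _ _ ENNReal.ofReal_ne_top, ENNReal.ofReal_mul (by norm_num)]
  exact mul_le_mul_right (hXME a ha e he) _

/-- The total of the fibre integrals. -/
theorem total (hUEF : SpecUEF) (hF6V : SpecF6V) (hXFC : SpecXFC) (hXTH : SpecXTH)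
    (hXME : SpecXME) (c : ENNReal) :
    ∑ a ∈ UE, c * ∫⁻ y in Kc a, ENNReal.ofReal ((inner ℝ a y : ℝ) ^ 3) /
        ENNReal.ofReal (2 * (inner ℝ a y : ℝ) ^ 2 - ‖y‖ ^ 2) ∂muW ≤
      c * ENNReal.ofReal (653 / 100) := by
  rw [← Finset.mul_sum]
  refine mul_le_mul_right ?_ _
  have h1 : ∀ a ∈ UE, ∫⁻ y in Kc a, ENNReal.ofReal ((inner ℝ a y : ℝ) ^ 3) /
        ENNReal.ofReal (2 * (inner ℝ a y : ℝ) ^ 2 - ‖y‖ ^ 2) ∂muW ≤
      ENNReal.ofReal (56 * (1 / Real.sqrt 3 * (3 / 4 * (1121 / 1000000)))) := by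
    intro a ha
    refine (hXFC a ha).trans ?_
    have h2 : ∀ e ∈ nb a, ENNReal.ofReal (1 / Real.sqrt 3) * ∫⁻ x in F6o e a, Th (‖x‖ ^ 2) ≤
        ENNReal.ofReal (1 / Real.sqrt 3 * (3 / 4 * (1121 / 1000000))) := by
      intro e he
      rw [ENNReal.ofReal_mul (by positivity)]
      exact mul_le_mul_right (fib hUEF hF6V hXTH hXME a ha e he) _
    refine (Finset.sum_le_sum h2).trans ?_
    rw [Finset.sum_const, hUEF.c56 a ha, nsmul_eq_mul,
      ENNReal.ofReal_mul (show (0 : ℝ) ≤ 56 by norm_num)]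
    refine mul_le_mul_left ?_ _
    norm_num
  refine (Finset.sum_le_sum h1).trans ?_
  rw [Finset.sum_const, hUEF.c240, nsmul_eq_mul]
  have h3 : (240 : ENNReal) = ENNReal.ofReal 240 := by norm_num
  have h4 : ((240 : ℕ) : ENNReal) = ENNReal.ofReal 240 := by
    rw [← h3]
    norm_num
  rw [h4, ← ENNReal.ofReal_mul (by norm_num)]
  apply ENNReal.ofReal_le_ofReal
  have h5 : 1 / Real.sqrt 3 ≤ 57736 / 100000 := by
    rw [div_le_iff₀ (by positivity)]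
    have h6 : (173204 / 100000 : ℝ) ≤ Real.sqrt 3 := by
      apply Real.le_sqrt_of_sq_le
      norm_num
    nlinarith
  nlinarith

/-- The excess integral. -/
theorem excess (hUEF : SpecUEF) (hF6V : SpecF6V) (hXAV : SpecXAV) (hXFC : SpecXFC)
    (hXTH : SpecXTH) (hXME : SpecXME) (U V : Finset E) (u : E → E) (hX : EXT U V u) :
    ∑ e ∈ UE, ∫ y in Kc e, XE V u e y ∂muW ≤ 1 / 8 * ∑ f ∈ UE, ‖u f - f‖ ^ 2 := by
  set S : ℝ := ∑ f ∈ UE, ‖u f - f‖ ^ 2 with hS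
  have hS0 : 0 ≤ S := Finset.sum_nonneg fun f _ => sq_nonneg _
  have hav := hXAV U V u hX
  rw [← hS] at hav
  clear_value S
  have h1 : ∑ e ∈ UE, ∫⁻ y in Kc e, ENNReal.ofReal (XE V u e y) ∂muW ≤
      ENNReal.ofReal (1 / 8 * S) := by
    refine hav.trans ?_
    have h2 : ∀ e ∈ UE, ∫⁻ y in Kc e, ENNReal.ofReal (147 / 8000 * S) *
        (ENNReal.ofReal ((inner ℝ e y : ℝ) ^ 3) /
          ENNReal.ofReal (2 * (inner ℝ e y : ℝ) ^ 2 - ‖y‖ ^ 2)) ∂muW =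
        ENNReal.ofReal (147 / 8000 * S) * ∫⁻ y in Kc e, ENNReal.ofReal ((inner ℝ e y : ℝ) ^ 3) /
          ENNReal.ofReal (2 * (inner ℝ e y : ℝ) ^ 2 - ‖y‖ ^ 2) ∂muW := fun e _ =>
      lintegral_const_mul' _ _ ENNReal.ofReal_ne_top
    rw [Finset.sum_congr rfl h2]
    refine (total hUEF hF6V hXFC hXTH hXME _).trans ?_
    rw [← ENNReal.ofReal_mul (mul_nonneg (by norm_num) hS0)]
    apply ENNReal.ofReal_le_ofReal
    linarith
  have hfin : ∀ e ∈ UE, ∫⁻ y in Kc e, ENNReal.ofReal (XE V u e y) ∂muW ≠ ⊤ := by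
    intro e he h
    have h2 := Finset.single_le_sum (f := fun e => ∫⁻ y in Kc e, ENNReal.ofReal (XE V u e y) ∂muW)
      (fun _ _ => zero_le) he
    simp only [h] at h2
    exact absurd (h2.trans h1) (not_le.mpr ENNReal.ofReal_lt_top)
  have h3 : ∀ e ∈ UE, ∫ y in Kc e, XE V u e y ∂muW ≤
      (∫⁻ y in Kc e, ENNReal.ofReal (XE V u e y) ∂muW).toReal := by
    intro e _
    have h4 := norm_integral_le_lintegral_norm (μ := muW.restrict (Kc e)) (XE V u e)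
    have h5 : ∀ y, ‖XE V u e y‖ = XE V u e y := fun y => by
      rw [Real.norm_eq_abs, abs_of_nonneg]
      unfold XE
      exact le_max_left _ _
    simp only [h5] at h4
    exact (le_abs_self _).trans h4
  refine (Finset.sum_le_sum h3).trans ?_
  rw [← ENNReal.toReal_sum hfin]
  exact ENNReal.toReal_le_of_le_ofReal (mul_nonneg (by norm_num) hS0) h1

end XOUM

/-- XOU. -/
theorem specXOU (hUEF : SpecUEF) (hNNB : SpecNNB) (hF6V : SpecF6V) (hXTL : SpecXTL)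
    (hXRD : SpecXRD) (hXAV : SpecXAV) (hXFC : SpecXFC) (hXTH : SpecXTH) (hXME : SpecXME) :
    SpecXOU := by
  intro U V u hX hu
  have h1 := hXTL U V u hX (fun e he => (hu e he).trans (by norm_num))
  have h2 := hXRD U V u (fun _ => 1 / 2) hX (XOUM.dsp U V u hX hu)
  have h3 : ∑ a ∈ UE, (1 / 2 : ℝ) * NN a ((1 / 2 : ℝ)⁻¹ • del u a) ≤
      ∑ a ∈ UE, (204 / 5000 * ‖del u a‖ ^ 2 + 106 / 125 * ‖del u a‖ ^ 4) :=
    Finset.sum_le_sum fun a ha => XOUM.term hUEF hNNB u a ha (hu a ha)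
  have h4 := XOUM.excess hUEF hF6V hXAV hXFC hXTH hXME U V u hX
  linarith

end Pool.Agent.Lib.MP_f1379f_gt.FV
end

section
/-!
# MP_f1379f_gt, full Q1: assembly of the end game (rows 236, 237)
-/
set_option autoImplicit false

namespace Pool.Agent.Lib.MP_f1379f_gt.FV.AllG

theorem hMKF' : SpecMKF := by
  intro D hD
  have h := AllS.hMKF D hD
  norm_num at h ⊢
  exact h

theorem hGBA : SpecGBA := specGBA AllO.hUEF EV.All.hROT EV.All.hPOL
theorem hHXC : SpecHXC := specHXC AllO.hUEF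
theorem hHEX : SpecHEX := specHEX hGBA hHXC
theorem hHLB : SpecHLB := specHLB hGBA hHXC
theorem hHXN : SpecHXN := specHXN AllO.hUEF hGBA hHXC
theorem hERR : SpecERR := specERR AllO.hUEF hGBA hMKF'
theorem hHXK : SpecHXK := specHXK hGBA hHXC
theorem hERK : SpecERK := specERK AllO.hUEF hGBA hMKF'
theorem hNSM2 : SpecNSM2 := specNSM2 hGBA
theorem hXTL : SpecXTL := specXTL AllO.hUEF AllO.hKCO
theorem hXRD : SpecXRD := specXRD AllO.hUEF AllO.hKCO AllO.hTLC AllO.hPTW AllO.hMO1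
theorem hXGR : SpecXGR := specXGR AllO.hUEF AllO.hTRA AllO.hIS2
theorem hXBP : SpecXBP := specXBP AllO.hUEF
theorem hXPT : SpecXPT := specXPT AllO.hUEF AllO.hKCO hXBP
theorem hXTH : SpecXTH := specXTH
theorem hXPO : SpecXPO := specXPO
theorem hXPI : SpecXPI := specXPI
theorem hXME : SpecXME := specXME AllO.hUEF AllO.hF6V AllO.hVF6 AllO.hV6B AllO.hTL2 AllO.hTAI hXPO
  hXPI
theorem hMSQ : SpecMSQ := specMSQ AllO.hUEF hGBA
theorem hNSM : SpecNSM := specNSM AllO.hUEF hGBA hHEX hHLB hMSQ hHXN hERR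
theorem hSTG2 : SpecSTG2 := specSTG2 AllO.hUEF hGBA hHXC hHEX hHXK hHLB hMSQ hHXN hERK
theorem hCEX : SpecCEX := specCEX AllO.hUEF hGBA
theorem hXFC : SpecXFC := specXFC AllO.hUEF AllO.hKCO AllO.hPIN
theorem hXAV : SpecXAV := specXAV AllO.hKCO hXGR hXBP hXPT
theorem hXOU : SpecXOU := specXOU AllO.hUEF AllO.hNNB AllO.hF6V hXTL hXRD hXAV hXFC hXTH hXME
theorem hFIN : SpecFIN := specFIN AllO.hUEF AllO.hTLC AllA.hE8V hGBA hHXC hHEX hSTG2 hNSM hNSM2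
  hCEX hXOU AllS.hS4F AllA.hI0

end Pool.Agent.Lib.MP_f1379f_gt.FV.AllG
end

section
/-!
# MP_f1379f_gt, full Q1: the frozen statement from the labelling theorem STAB alone
-/
set_option autoImplicit false

namespace Pool.Agent.Lib.MP_f1379f_gt.FV

open Finset

theorem hCX : SpecCX := by
  intro U hU hW
  have h := (near_all U hU hW).2.2.2.1
  have h2 : 0 ≤ ∑ v ∈ nearS U, (1 - rr v) := sum_nonneg fun v hv => by
    have := rr_le_one (hU.le_one v (mem_nearS.1 hv).1)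
    linarith
  unfold CXc Th0
  linarith

theorem hCP : SpecCP := fun U hU hW => (near_all U hU hW).2.2.2.2

/-- **The frozen statement from STAB.** -/
theorem frozen_of_stab (hSTAB : SpecSTAB) : Frozen :=
  frozen_of AllO.hUEF AllS.hS4F AllG.hFIN hCX hCP hSTAB specL1

end Pool.Agent.Lib.MP_f1379f_gt.FV
end

section
/-!
# MP_f1379f_gt, full Q1: the labelling theorem STAB from the blocks of SpecS3
-/
set_option autoImplicit false

namespace Pool.Agent.Lib.MP_f1379f_gt.FV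

open Finset MeasureTheory

namespace SNFM

/-- The Frobenius norm of `∑ v vᵀ - 30` controls its quadratic form. -/
theorem frob (Z : Finset E) (d : E) :
    (∑ v ∈ Z, (inner ℝ v d : ℝ) ^ 2 - 30 * ‖d‖ ^ 2) ^ 2 ≤
      ‖d‖ ^ 2 * ‖d‖ ^ 2 * (∑ v ∈ Z, ∑ w ∈ Z, (inner ℝ v w : ℝ) ^ 2 - 60 * ∑ v ∈ Z, ‖v‖ ^ 2
        + 7200) := by
  have hin : ∀ x y : E, (inner ℝ x y : ℝ) = ∑ i, x i * y i := by
    intro x y
    rw [PiLp.inner_apply]
    refine sum_congr rfl fun i _ => ?_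
    simp [mul_comm]
  have hn : ∀ x : E, ‖x‖ ^ 2 = ∑ i, x i * x i := by
    intro x
    rw [← hin, real_inner_self_eq_norm_sq]
  set δ : Fin 8 → Fin 8 → ℝ := fun i j => if i = j then 1 else 0 with hδ
  have hdd : ∀ F : Fin 8 → Fin 8 → ℝ, ∑ i, ∑ j, F i j * δ i j = ∑ i, F i i := by
    intro F
    refine sum_congr rfl fun i _ => ?_
    simp [hδ]
  set K : Fin 8 → Fin 8 → ℝ := fun i j => ∑ v ∈ Z, v i * v j with hK
  have hcs := sum_mul_sq_le_sq_mul_sq (univ ×ˢ univ : Finset (Fin 8 × Fin 8))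
    (fun q => d q.1 * d q.2) (fun q => K q.1 q.2 - 30 * δ q.1 q.2)
  rw [sum_product, sum_product, sum_product] at hcs
  simp only at hcs
  -- general exchange
  have hex : ∀ F : E → Fin 8 → Fin 8 → ℝ, ∑ i, ∑ j, ∑ v ∈ Z, F v i j = ∑ v ∈ Z, ∑ i, ∑ j, F v i j := by
    intro F
    have h1 : ∀ i, ∑ j, ∑ v ∈ Z, F v i j = ∑ v ∈ Z, ∑ j, F v i j := fun i => sum_comm
    simp only [h1]
    exact sum_comm
  have hdK : ∑ i, ∑ j, d i * d j * K i j = ∑ v ∈ Z, (inner ℝ v d : ℝ) ^ 2 := by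
    have h1 : ∀ v : E, (inner ℝ v d : ℝ) ^ 2 = ∑ i, ∑ j, d i * d j * (v i * v j) := by
      intro v
      rw [hin, sq, sum_mul_sum]
      refine sum_congr rfl fun i _ => sum_congr rfl fun j _ => ?_
      ring
    simp only [h1, hK, mul_sum]
    exact hex _
  have hKK : ∑ i, ∑ j, K i j * K i j = ∑ v ∈ Z, ∑ w ∈ Z, (inner ℝ v w : ℝ) ^ 2 := by
    have h1 : ∀ v w : E, (inner ℝ v w : ℝ) ^ 2 = ∑ i, ∑ j, (v i * v j) * (w i * w j) := by
      intro v w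
      rw [hin, sq, sum_mul_sum]
      refine sum_congr rfl fun i _ => sum_congr rfl fun j _ => ?_
      ring
    simp only [h1, hK, sum_mul_sum]
    rw [hex]
    refine sum_congr rfl fun v _ => ?_
    rw [hex]
  have hKd : ∑ i, ∑ j, K i j * δ i j = ∑ v ∈ Z, ‖v‖ ^ 2 := by
    rw [hdd]
    simp only [hn, hK]
    exact sum_comm
  have hdδ : ∑ i, ∑ j, d i * d j * δ i j = ‖d‖ ^ 2 := by
    rw [hdd, hn]
  have hδδ : ∑ i, ∑ j, δ i j * δ i j = 8 := by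
    rw [hdd]
    simp [hδ]
  have e1 : ∑ i, ∑ j, d i * d j * (K i j - 30 * δ i j) =
      ∑ v ∈ Z, (inner ℝ v d : ℝ) ^ 2 - 30 * ‖d‖ ^ 2 := by
    rw [← hdK, ← hdδ]
    simp only [mul_sum, ← sum_sub_distrib]
    refine sum_congr rfl fun i _ => sum_congr rfl fun j _ => ?_
    ring
  have e2 : ∑ i, ∑ j, (d i * d j) ^ 2 = ‖d‖ ^ 2 * ‖d‖ ^ 2 := by
    rw [hn, sum_mul_sum]
    refine sum_congr rfl fun i _ => sum_congr rfl fun j _ => ?_
    ring
  have e3 : ∑ i, ∑ j, (K i j - 30 * δ i j) ^ 2 =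
      ∑ v ∈ Z, ∑ w ∈ Z, (inner ℝ v w : ℝ) ^ 2 - 60 * ∑ v ∈ Z, ‖v‖ ^ 2 + 7200 := by
    have e4 : (7200 : ℝ) = 900 * ∑ i, ∑ j, δ i j * δ i j := by rw [hδδ]; norm_num
    rw [e4, ← hKK, ← hKd]
    simp only [mul_sum, ← sum_sub_distrib, ← sum_add_distrib]
    refine sum_congr rfl fun i _ => sum_congr rfl fun j _ => ?_
    ring
  rw [e1, e2, e3] at hcs
  exact hcs

/-- Frame bound of a root and its neighbours. -/
theorem star_frame {x : E} (hx : x ∈ UE) (d : E) :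
    6 * ‖d‖ ^ 2 ≤ ∑ b ∈ insert x (nb x), (inner ℝ b d : ℝ) ^ 2 := by
  set α : ℝ := inner ℝ x d with hα
  set w : E := d - α • x with hw
  have hn : ‖x‖ = 1 := AllO.hUEF.nrm x hx
  have hxx : (inner ℝ x x : ℝ) = 1 := by rw [real_inner_self_eq_norm_sq, hn]; norm_num
  have hwx : (inner ℝ w x : ℝ) = 0 := by
    rw [hw, inner_sub_left, real_inner_smul_left, hxx, real_inner_comm x d, ← hα]
    ring
  have hwn : ‖w‖ ^ 2 = ‖d‖ ^ 2 - α ^ 2 := by
    rw [hw, norm_sub_sq_real, norm_smul, hn, real_inner_smul_right, real_inner_comm x d, ← hα,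
      Real.norm_eq_abs, mul_one, sq_abs]
    ring
  have hnot : x ∉ nb x := fun h => by
    have := UMO.nb_ip h
    rw [hxx] at this
    norm_num at this
  rw [sum_insert hnot]
  have hval : ∀ b ∈ nb x, (inner ℝ b d : ℝ) ^ 2 =
      α ^ 2 / 4 + α * (inner ℝ w b : ℝ) + (inner ℝ w b : ℝ) ^ 2 := by
    intro b hb
    have h1 : (inner ℝ x b : ℝ) = 1 / 2 := by rw [real_inner_comm]; exact UMO.nb_ip hb
    have h2 : (inner ℝ b d : ℝ) = inner ℝ w b + α / 2 := by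
      rw [hw, inner_sub_left, real_inner_smul_left, h1, real_inner_comm]
      ring
    rw [h2]
    ring
  rw [sum_congr rfl hval, sum_add_distrib, sum_add_distrib, ← mul_sum, UMO.n1 x hx w, hwx,
    UMO.n2 x hx w hwx, sum_const, AllO.hUEF.c56 x hx, hwn, nsmul_eq_mul]
  push_cast
  nlinarith [sq_nonneg α]

/-- Frame bound of the pins. -/
theorem pin_frame {x : E} (hx : x ∈ UE) (p : E → E) (A : E ≃ₗᵢ[ℝ] E)
    (h : ∑ b ∈ insert x (nb x), ‖A (p b) - b‖ ^ 2 ≤ 3 / 100) (d : E) :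
    518 / 100 * ‖d‖ ^ 2 ≤ ∑ b ∈ insert x (nb x), (inner ℝ (p b) d : ℝ) ^ 2 := by
  have h1 := star_frame hx (A d)
  rw [LinearIsometryEquiv.norm_map] at h1
  have h2 : ∑ b ∈ insert x (nb x), (93 / 100 * (inner ℝ b (A d) : ℝ) ^ 2
      - 93 / 7 * (‖A (p b) - b‖ ^ 2 * ‖d‖ ^ 2)) ≤
      ∑ b ∈ insert x (nb x), (inner ℝ (p b) d : ℝ) ^ 2 := by
    refine sum_le_sum fun b _ => ?_
    have e1 : (inner ℝ (p b) d : ℝ) = inner ℝ b (A d) + inner ℝ (A (p b) - b) (A d) := by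
      rw [inner_sub_left, LinearIsometryEquiv.inner_map_map]
      ring
    have e2 : (inner ℝ (A (p b) - b) (A d) : ℝ) ^ 2 ≤ ‖A (p b) - b‖ ^ 2 * ‖d‖ ^ 2 := by
      have h3 := abs_real_inner_le_norm (A (p b) - b) (A d)
      rw [LinearIsometryEquiv.norm_map] at h3
      have h4 := pow_le_pow_left₀ (abs_nonneg _) h3 2
      rwa [sq_abs, mul_pow] at h4
    rw [e1]
    nlinarith [sq_nonneg (7 * (inner ℝ b (A d) : ℝ) + 100 * inner ℝ (A (p b) - b) (A d))]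
  rw [sum_sub_distrib, ← mul_sum, ← mul_sum, ← sum_mul] at h2
  have h3 := mul_le_mul_of_nonneg_right h (sq_nonneg ‖d‖)
  nlinarith [sq_nonneg ‖d‖]

/-- Pins against the others, as a part of the ordered energy. -/
theorem part (N P : Finset E) (hP : P ⊆ N) (f : E → E → ℝ) (hsym : ∀ z w, f z w = f w z)
    (h0 : ∀ z ∈ N, ∀ w ∈ N, z ≠ w → 0 ≤ f z w) [DecidableEq E] :
    2 * ∑ z ∈ N \ P, ∑ w ∈ P, f z w ≤ ∑ z ∈ N, ∑ w ∈ N.erase z, f z w := by
  have h1 : ∑ z ∈ N, ∑ w ∈ N.erase z, f z w =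
      ∑ z ∈ N \ P, ∑ w ∈ N.erase z, f z w + ∑ z ∈ P, ∑ w ∈ N.erase z, f z w :=
    (sum_sdiff hP).symm
  have h2 : ∑ z ∈ N \ P, ∑ w ∈ P, f z w ≤ ∑ z ∈ N \ P, ∑ w ∈ N.erase z, f z w := by
    refine sum_le_sum fun z hz => sum_le_sum_of_subset_of_nonneg (fun w hw => ?_)
      fun w hw _ => ?_
    · rw [mem_sdiff] at hz
      exact mem_erase.2 ⟨fun h => hz.2 (h ▸ hw), hP hw⟩
    · rw [mem_erase] at hw
      exact h0 z (mem_sdiff.1 hz).1 w hw.2 hw.1.symm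
  have h3 : ∑ z ∈ N \ P, ∑ w ∈ P, f z w ≤ ∑ z ∈ P, ∑ w ∈ N.erase z, f z w := by
    rw [sum_comm]
    refine sum_le_sum fun z hz => ?_
    rw [sum_congr rfl fun w _ => hsym w z]
    refine sum_le_sum_of_subset_of_nonneg (fun w hw => ?_) fun w hw _ => ?_
    · rw [mem_sdiff] at hw
      exact mem_erase.2 ⟨fun h => hw.2 (h ▸ hz), hw.1⟩
    · rw [mem_erase] at hw
      exact h0 z (hP hz) w hw.2 hw.1.symm
  linarith

theorem TT_comm (u v : E) : TT u v = TT v u := by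
  unfold TT
  rw [real_inner_comm]
  ring

open TRPM in
/-- **The truncated functional is small.** -/
theorem td_small (N : Finset E) {x : E} (hx : x ∈ UE) (p : E → E) (A : E ≃ₗᵢ[ℝ] E)
    (h1 : ∀ z ∈ N, ‖z‖ ^ 2 ≤ 1) (h2 : ∀ z ∈ N, 1 - ‖z‖ ^ 2 ≤ 7 / 150)
    (hT : ∀ z ∈ N, ∀ w ∈ N, z ≠ w → TT z w ≤ 1 / 2)
    (hs : ∑ z ∈ N, (1 - ‖z‖ ^ 2) ≤ 452 / 10000)
    (hE : ∑ z ∈ N, ∑ w ∈ N.erase z, base (TT z w) * (1 / 2 - TT z w) ≤ 84 / 170)
    (hK : ∑ v ∈ N, ∑ w ∈ N, (inner ℝ v w : ℝ) ^ 2 - 60 * ∑ v ∈ N, ‖v‖ ^ 2 + 7200 ≤ 84 / 26)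
    (hp : ∀ b ∈ insert x (nb x), p b ∈ N) (hinj : Set.InjOn p (insert x (nb x) : Finset E))
    (hη : ∑ b ∈ insert x (nb x), ‖A (p b) - b‖ ^ 2 ≤ 3 / 100) :
    ∑ z ∈ N, td (1 / 5) (A z) ≤ 21 / 20 := by
  classical
  set P : Finset E := (insert x (nb x)).image p with hPd
  have hPN : P ⊆ N := by
    intro z hz
    obtain ⟨b, hb, rfl⟩ := mem_image.1 hz
    exact hp b hb
  have hsumP : ∀ g : E → ℝ, ∑ z ∈ P, g z = ∑ b ∈ insert x (nb x), g (p b) := fun g => by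
    rw [hPd, sum_image hinj]
  have hlamP := fun d : E => pin_frame hx p A hη d
  have hlam : ∀ d : E, ∑ z ∈ N \ P, (inner ℝ z d : ℝ) ^ 2 ≤ 2662 / 100 * ‖d‖ ^ 2 := by
    intro d
    have a1 := frob N d
    have a2 := hlamP d
    have a3 : ∑ z ∈ N \ P, (inner ℝ z d : ℝ) ^ 2 + ∑ z ∈ P, (inner ℝ z d : ℝ) ^ 2 =
        ∑ z ∈ N, (inner ℝ z d : ℝ) ^ 2 := sum_sdiff hPN
    rw [hsumP] at a3
    have hd : 0 ≤ ‖d‖ ^ 2 := sq_nonneg _
    have a4 : ‖d‖ ^ 2 * ‖d‖ ^ 2 * (∑ v ∈ N, ∑ w ∈ N, (inner ℝ v w : ℝ) ^ 2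
        - 60 * ∑ v ∈ N, ‖v‖ ^ 2 + 7200) ≤ (1798 / 1000 * ‖d‖ ^ 2) ^ 2 := by
      have := mul_le_mul_of_nonneg_left hK (mul_nonneg hd hd)
      nlinarith [mul_nonneg hd hd]
    have a6 : 0 ≤ 1798 / 1000 * ‖d‖ ^ 2 := by linarith
    have a5 := abs_le_of_sq_le_sq' (a1.trans a4) a6
    linarith [a5.2]
  have hR : ∑ z ∈ N \ P, ∑ b ∈ insert x (nb x), base (TT z (p b)) * (1 / 2 - TT z (p b)) ≤
      42 / 170 := by
    have a1 := part N P hPN (fun z w => base (TT z w) * (1 / 2 - TT z w))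
      (fun z w => by rw [TT_comm]) (fun z hz w hw hzw => by
        have h3 := TSGM.TT_ge (h1 z hz) (h1 w hw)
        have h4 := hT z hz w hw hzw
        unfold base
        exact mul_nonneg (mul_nonneg (mul_nonneg (by linarith) (sq_nonneg _)) (sq_nonneg _))
          (by linarith))
    have a2 : ∀ z ∈ N \ P, ∑ w ∈ P, base (TT z w) * (1 / 2 - TT z w) =
        ∑ b ∈ insert x (nb x), base (TT z (p b)) * (1 / 2 - TT z (p b)) := fun z _ =>
      hsumP fun w => base (TT z w) * (1 / 2 - TT z w)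
    rw [sum_congr rfl a2] at a1
    linarith
  have hsub : ∀ z ∈ N \ P, z ∈ N := fun z hz => (mem_sdiff.1 hz).1
  have hnn : ∀ z ∈ N, 0 ≤ 1 - ‖z‖ ^ 2 := fun z hz => by linarith [h1 z hz]
  have hmain := TSGM.sum_star hx A (N \ P) p (R := 42 / 170) (η := 3 / 100) (lam := 2662 / 100)
    (fun z hz => h1 z (hsub z hz)) (fun z hz => h2 z (hsub z hz))
    (fun b hb => h1 _ (hp b hb)) (fun b hb => h2 _ (hp b hb))
    (fun z hz b hb => hT z (hsub z hz) (p b) (hp b hb) fun h => by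
      rw [mem_sdiff] at hz
      exact hz.2 (h ▸ mem_image_of_mem p hb))
    (by
      have := sum_le_sum_of_subset_of_nonneg (sdiff_subset (s := N) (t := P))
        (fun z hz _ => hnn z hz)
      linarith)
    (by
      rw [← hsumP fun z => 1 - ‖z‖ ^ 2]
      have := sum_le_sum_of_subset_of_nonneg hPN (fun z hz _ => hnn z hz)
      linarith) hR hη (by norm_num) hlam
  have hPt : ∑ z ∈ P, td (1 / 5) (A z) ≤ 3 / 100 := by
    rw [hsumP]
    refine le_trans (sum_le_sum fun b hb => ?_) hη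
    refine td_le_sq _ _ ?_
    rcases mem_insert.1 hb with h | h
    · rw [h]; exact hx
    · exact UMO.nb_UE h
  have hsplit : ∑ z ∈ N \ P, td (1 / 5) (A z) + ∑ z ∈ P, td (1 / 5) (A z) =
      ∑ z ∈ N, td (1 / 5) (A z) := sum_sdiff hPN
  linarith

end SNFM

/-- **STAB** from the blocks. -/
theorem stab_of (hPN : SpecPN57) (hCK : SpecCK) (hCX : SpecCX2) (hCMB : SpecCMB) : SpecSTAB := by
  intro U hU hW
  obtain ⟨hcard, -, hr, -, hcp⟩ := near_all U hU hW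
  obtain ⟨x, p, A, hx, hp, hinj, hη⟩ := hPN U hU hW
  have hck := hCK U hU hW
  have hcx := hCX U hU hW
  have hT0 : 15.9916 < Th0 := PW.That_ge
  have hsub : ∀ z ∈ nearS U, z ∈ U := fun z hz => (mem_nearS.1 hz).1
  have hn1 : ∀ z ∈ nearS U, ‖z‖ ≤ 1 := fun z hz => hU.le_one z (hsub z hz)
  have h1 : ∀ z ∈ nearS U, ‖z‖ ^ 2 ≤ 1 := fun z hz => pow_le_one₀ (norm_nonneg _) (hn1 z hz)
  have hrr : ∀ z ∈ nearS U, 1 - ‖z‖ ^ 2 = 2 / 5 * (1 - rr z) := by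
    intro z hz
    have h3 := (mem_nearS.1 hz).2
    have h4 : rr z = (5 * ‖z‖ ^ 2 - 3) / 2 := by
      unfold rr at h3 ⊢
      rcases le_total 0 ((5 * ‖z‖ ^ 2 - 3) / 2) with h | h
      · exact max_eq_right h
      · rw [max_eq_left h] at h3
        norm_num at h3
    rw [h4]
    ring
  have h2 : ∀ z ∈ nearS U, 1 - ‖z‖ ^ 2 ≤ 7 / 150 := fun z hz => by
    rw [hrr z hz]
    linarith [hr z hz]
  have hT : ∀ z ∈ nearS U, ∀ w ∈ nearS U, z ≠ w → TT z w ≤ 1 / 2 := fun z hz w hw h =>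
    TSGM.TT_le_half hU (hsub z hz) (hsub w hw) h
  have hTm : ∀ z ∈ nearS U, ∀ w ∈ nearS U, -1 ≤ TT z w := fun z hz w hw =>
    TSGM.TT_ge (h1 z hz) (h1 w hw)
  have hs : ∑ z ∈ nearS U, (1 - ‖z‖ ^ 2) ≤ 452 / 10000 := by
    rw [sum_congr rfl hrr, ← mul_sum]
    linarith
  have hE : ∑ z ∈ nearS U, ∑ w ∈ (nearS U).erase z, base (TT z w) * (1 / 2 - TT z w) ≤
      84 / 170 := by
    have : Th0 + 17 / 1000 * ∑ u ∈ nearS U, ∑ v ∈ (nearS U).erase u,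
        base (TT u v) * (1 / 2 - TT u v) ≤ W2F U := hcp
    linarith
  have hK : ∑ v ∈ nearS U, ∑ w ∈ nearS U, (inner ℝ v w : ℝ) ^ 2 - 60 * ∑ v ∈ nearS U, ‖v‖ ^ 2
      + 7200 ≤ 84 / 26 := by
    have e1 : ∑ v ∈ nearS U, ∑ w ∈ nearS U, (inner ℝ v w : ℝ) ^ 2 =
        ∑ v ∈ nearS U, ‖v‖ ^ 4 + ∑ v ∈ nearS U, ∑ w ∈ (nearS U).erase v, (inner ℝ v w : ℝ) ^ 2 := by
      rw [← sum_add_distrib]
      refine sum_congr rfl fun v hv => ?_
      rw [← add_sum_erase _ _ hv, real_inner_self_eq_norm_sq]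
      ring
    have e2 : ∑ v ∈ nearS U, (‖v‖ ^ 4 - 60 * ‖v‖ ^ 2 + 30) =
        ∑ v ∈ nearS U, ‖v‖ ^ 4 - 60 * ∑ v ∈ nearS U, ‖v‖ ^ 2 + 7200 := by
      rw [sum_add_distrib, sum_sub_distrib, ← mul_sum, sum_const, hcard, nsmul_eq_mul]
      norm_num
    rw [e2] at hck
    rw [e1]
    linarith
  have hF := SNFM.td_small (nearS U) hx p A h1 h2 hT hs hE hK hp hinj hη
  obtain ⟨u, B, hu, hi, hB⟩ := hCMB (nearS U) hcard hn1 h2 hT hTm hs (by linarith) A hF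
  exact ⟨u, B, hu, hi, hB⟩

/-- **The frozen statement** from the blocks. -/
theorem frozen_of_blocks (hPN : SpecPN57) (hCK : SpecCK) (hCX : SpecCX2) (hCMB : SpecCMB) :
    Frozen :=
  frozen_of_stab (stab_of hPN hCK hCX hCMB)

end Pool.Agent.Lib.MP_f1379f_gt.FV
end
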