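import Mathlib

/-!
# A kernel checker for polynomial inequalities on boxes (tensor Bernstein coefficients)

A polynomial in three variables is given by an expression `e : Ex` which is homogeneous in each of
the three pairs (variable, homogenizer).  `chkTr` subdivides a box, and on each leaf
`[x0/dx, x1/dx] × [y0/dy, y1/dy] × [t0/dt, t1/dt]` it substitutes `x = (x0 + x1 z)/(dx (1 + z))` etc.
(`0 ≤ z ≤ ∞`) and evaluates the expression at ONE point `z1 = B, z2 = B^K, z3 = B^(KJ)`, `B = 2^w`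
(Kronecker substitution).  All coefficients of the polynomial in `z1, z2, z3` are nonnegative iff all
digits of the value have top bit `0`.  Main statement: `chkTr_sound`.

Use: `theorem hP : chkPar P e = true := by decide +kernel` (once per expression) and
`theorem h : chkTr P e T b = true := by decide +kernel` (at most about 40 leaves per theorem; one
leaf costs 0.09 s for the degrees (12, 12, 10) and 190 operations).  Write the expression as a list
of definitions `def e17 : Ex := .m e15 e16` (shared subexpressions are evaluated once, the kernel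
caches them).  Polynomials in one variable: take `n2 = n3 = 0` and the box `[0,1]` for y and t.
-/

set_option autoImplicit false

namespace Pool.Agent.Lib.MP_f1379f_gt.FV

namespace BCH

/-- The three axes. -/
inductive Ax
  | x | y | t
deriving DecidableEq

instance : Fintype Ax := ⟨{.x, .y, .t}, by intro a; cases a <;> simp⟩

lemma prod_ax {R : Type*} [CommMonoid R] (f : Ax → R) : ∏ a, f a = f .x * (f .y * f .t) := by
  have : (Finset.univ : Finset Ax) = {.x, .y, .t} := rfl
  rw [this, Finset.prod_insert (by simp), Finset.prod_insert (by simp), Finset.prod_singleton]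

/-- Expressions: variables `v`, homogenizers `h`, integer constants, products, and integral linear
combinations `f z p z' q = z p + z' q`. -/
inductive Ex
  | v (a : Ax)
  | h (a : Ax)
  | c (z : ℤ)
  | m (p q : Ex)
  | f (z : ℤ) (p : Ex) (z' : ℤ) (q : Ex)

/-- Interpretation of the operations. -/
structure Alg (A : Type) where
  /-- variables -/
  vf : Ax → A
  /-- homogenizers -/
  hf : Ax → A
  /-- constants -/
  cf : ℤ → A
  /-- products -/
  mf : A → A → A
  /-- linear combinations -/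
  ff : ℤ → A → ℤ → A → A

/-- Evaluation of an expression. -/
noncomputable def ev {A : Type} (al : Alg A) (e : Ex) : A :=
  Ex.rec al.vf al.hf al.cf (fun _ _ a b => al.mf a b) (fun z _ z' _ a b => al.ff z a z' b) e

section
variable {A : Type} (al : Alg A)
@[simp] lemma ev_v (a : Ax) : ev al (.v a) = al.vf a := rfl
@[simp] lemma ev_h (a : Ax) : ev al (.h a) = al.hf a := rfl
@[simp] lemma ev_c (z : ℤ) : ev al (.c z) = al.cf z := rfl
@[simp] lemma ev_m (p q : Ex) : ev al (.m p q) = al.mf (ev al p) (ev al q) := rfl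
@[simp] lemma ev_f (z : ℤ) (p : Ex) (z' : ℤ) (q : Ex) :
    ev al (.f z p z' q) = al.ff z (ev al p) z' (ev al q) := rfl
end

/-- Interpretation in a commutative ring. -/
def algR {R : Type} [CommRing R] (vf hf : Ax → R) : Alg R :=
  ⟨vf, hf, fun z => (z : R), fun a b => a * b, fun z a z' b => (z : R) * a + (z' : R) * b⟩

/-- Interpretation in a commutative semiring, with absolute values of the constants. -/
def algS {R : Type} [CommSemiring R] (vf hf : Ax → R) : Alg R :=
  ⟨vf, hf, fun z => (z.natAbs : R), fun a b => a * b,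
    fun z a z' b => (z.natAbs : R) * a + (z'.natAbs : R) * b⟩

lemma ev_map {R S : Type} [CommRing R] [CommRing S] (φ : R →+* S) (vf hf : Ax → R) (e : Ex) :
    φ (ev (algR vf hf) e) = ev (algR (fun a => φ (vf a)) (fun a => φ (hf a))) e := by
  induction e with
  | v a => rfl
  | h a => rfl
  | c z => simp [algR]
  | m p q hp hq => simp only [ev_m] at *; simp only [algR] at *; rw [map_mul, hp, hq]
  | f z p z' q hp hq =>
    simp only [ev_f] at *; simp only [algR] at *
    rw [map_add, map_mul, map_mul, hp, hq, map_intCast, map_intCast]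

/-- The value of the expression at a real point. -/
noncomputable def val (e : Ex) (x y t : ℝ) : ℝ :=
  ev (algR (fun a => match a with | .x => x | .y => y | .t => t) (fun _ => (1 : ℝ))) e

@[simp] lemma val_vx (x y t : ℝ) : val (.v .x) x y t = x := rfl
@[simp] lemma val_vy (x y t : ℝ) : val (.v .y) x y t = y := rfl
@[simp] lemma val_vt (x y t : ℝ) : val (.v .t) x y t = t := rfl
@[simp] lemma val_h (a : Ax) (x y t : ℝ) : val (.h a) x y t = 1 := rfl
@[simp] lemma val_c (z : ℤ) (x y t : ℝ) : val (.c z) x y t = z := rfl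
@[simp] lemma val_m (p q : Ex) (x y t : ℝ) : val (.m p q) x y t = val p x y t * val q x y t := rfl
@[simp] lemma val_f (z : ℤ) (p : Ex) (z' : ℤ) (q : Ex) (x y t : ℝ) :
    val (.f z p z' q) x y t = z * val p x y t + z' * val q x y t := rfl

/-! ### Degrees -/

/-- Degree of an expression in the pair of one axis; `none` if not homogeneous. -/
def algD (a : Ax) : Alg (Option ℕ) :=
  ⟨fun b => match a, b with
    | .x, .x => some 1 | .y, .y => some 1 | .t, .t => some 1 | _, _ => some 0,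
   fun b => match a, b with
    | .x, .x => some 1 | .y, .y => some 1 | .t, .t => some 1 | _, _ => some 0,
   fun _ => some 0,
   fun i j => match i, j with
    | some i, some j => some (Nat.add i j)
    | _, _ => none,
   fun _ i _ j => match i, j with
    | some i, some j => match Nat.beq i j with
      | true => some i
      | false => none
    | _, _ => none⟩

lemma algD_v (a b : Ax) : (algD a).vf b = some (if b = a then 1 else 0) := by
  cases a <;> cases b <;> rfl

lemma algD_h (a b : Ax) : (algD a).hf b = some (if b = a then 1 else 0) := by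
  cases a <;> cases b <;> rfl

lemma algD_m (a : Ax) (i j : Option ℕ) (n : ℕ) (h : (algD a).mf i j = some n) :
    ∃ i' j', i = some i' ∧ j = some j' ∧ n = i' + j' := by
  rcases i with _ | i
  · simp [algD] at h
  · rcases j with _ | j
    · simp [algD] at h
    · simp only [algD] at h
      exact ⟨i, j, rfl, rfl, (Option.some.inj h).symm⟩

lemma algD_f (a : Ax) (z z' : ℤ) (i j : Option ℕ) (n : ℕ) (h : (algD a).ff z i z' j = some n) :
    i = some n ∧ j = some n := by
  rcases i with _ | i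
  · simp [algD] at h
  · rcases j with _ | j
    · simp [algD] at h
    · simp only [algD] at h
      by_cases hij : Nat.beq i j = true
      · have := Nat.eq_of_beq_eq_true hij
        subst this
        simp only [hij] at h
        exact ⟨h, h⟩
      · have hij' : Nat.beq i j = false := Bool.eq_false_iff.2 hij
        simp only [hij'] at h
        exact absurd h (by simp)

/-- Scaling one axis. -/
lemma ev_scale (a : Ax) (l : ℝ) (vf hf : Ax → ℝ) (e : Ex) : ∀ n : ℕ, ev (algD a) e = some n →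
    ev (algR (fun b => if b = a then l * vf b else vf b)
      (fun b => if b = a then l * hf b else hf b)) e = l ^ n * ev (algR vf hf) e := by
  induction e with
  | v b =>
    intro n hn
    rw [ev_v, algD_v] at hn
    have hn := (Option.some.inj hn).symm
    subst hn
    simp only [ev_v, algR]
    split_ifs <;> simp
  | h b =>
    intro n hn
    rw [ev_h, algD_h] at hn
    have hn := (Option.some.inj hn).symm
    subst hn
    simp only [ev_h, algR]
    split_ifs <;> simp
  | c z =>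
    intro n hn
    have hn : some 0 = some n := hn
    have hn := (Option.some.inj hn).symm
    subst hn
    simp [algR]
  | m p q hp hq =>
    intro n hn
    rw [ev_m] at hn
    obtain ⟨i, j, hi, hj, rfl⟩ := algD_m _ _ _ _ hn
    have h1 := hp i hi
    have h2 := hq j hj
    rw [ev_m, ev_m]
    change _ * _ = _ * (_ * _)
    rw [h1, h2]
    ring
  | f z p z' q hp hq =>
    intro n hn
    rw [ev_f] at hn
    obtain ⟨hi, hj⟩ := algD_f _ _ _ _ _ _ hn
    have h1 := hp n hi
    have h2 := hq n hj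
    rw [ev_f, ev_f]
    change _ * _ + _ * _ = _ * (_ * _ + _ * _)
    rw [h1, h2]
    ring

open MvPolynomial

/-- The polynomial on a box. -/
noncomputable def PP (p0 p1 d : Ax → ℤ) (e : Ex) : MvPolynomial Ax ℤ :=
  ev (algR (fun a => C (p0 a) + C (p1 a) * X a) (fun a => C (d a) * (1 + X a))) e

lemma deg_PP (p0 p1 d : Ax → ℤ) (a : Ax) (e : Ex) : ∀ n : ℕ, ev (algD a) e = some n →
    degreeOf a (PP p0 p1 d e) ≤ n := by
  have hX : ∀ b : Ax, degreeOf a (X b : MvPolynomial Ax ℤ) = if b = a then 1 else 0 := by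
    intro b
    rw [degreeOf_X]
    by_cases h : b = a
    · simp [h]
    · have : ¬ a = b := fun h' => h h'.symm
      simp [h, this]
  have h1 : ∀ (b : Ax) (u v : ℤ), degreeOf a (C u + C v * X b : MvPolynomial Ax ℤ) ≤
      if b = a then 1 else 0 := by
    intro b u v
    refine (degreeOf_add_le _ _ _).trans (max_le ?_ ?_)
    · rw [degreeOf_C]; exact Nat.zero_le _
    · refine (degreeOf_C_mul_le _ _ _).trans ?_
      rw [hX]
  induction e with
  | v b =>
    intro n hn
    rw [ev_v, algD_v] at hn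
    have hn := (Option.some.inj hn).symm
    subst hn
    exact h1 b _ _
  | h b =>
    intro n hn
    rw [ev_h, algD_h] at hn
    have hn := (Option.some.inj hn).symm
    subst hn
    have h2 : PP p0 p1 d (.h b) = C (d b) * (1 + X b) := rfl
    rw [h2]
    refine (degreeOf_C_mul_le _ _ _).trans ?_
    have := h1 b 1 1
    simpa using this
  | c z =>
    intro n hn
    have h2 : PP p0 p1 d (.c z) = C z := by
      change ((z : ℤ) : MvPolynomial Ax ℤ) = C z
      simp
    rw [h2, degreeOf_C]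
    exact Nat.zero_le _
  | m p q hp hq =>
    intro n hn
    rw [ev_m] at hn
    obtain ⟨i, j, hi, hj, rfl⟩ := algD_m _ _ _ _ hn
    exact (degreeOf_mul_le _ _ _).trans (add_le_add (hp i hi) (hq j hj))
  | f z p z' q hp hq =>
    intro n hn
    rw [ev_f] at hn
    obtain ⟨hi, hj⟩ := algD_f _ _ _ _ _ _ hn
    have h2 : PP p0 p1 d (.f z p z' q) = C z * PP p0 p1 d p + C z' * PP p0 p1 d q := by
      change ((z : ℤ) : MvPolynomial Ax ℤ) * _ + ((z' : ℤ) : MvPolynomial Ax ℤ) * _ = _
      have e1 : ∀ z : ℤ, ((z : ℤ) : MvPolynomial Ax ℤ) = C z := fun z => by simp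
      rw [e1, e1]
      rfl
    rw [h2]
    refine (degreeOf_add_le _ _ _).trans (max_le ?_ ?_)
    · exact (degreeOf_C_mul_le _ _ _).trans (hp n hi)
    · exact (degreeOf_C_mul_le _ _ _).trans (hq n hj)

/-! ### Majorants -/

/-- The majorant polynomial. -/
noncomputable def QQ (p0 p1 d : Ax → ℤ) (e : Ex) : MvPolynomial Ax ℕ :=
  ev (algS (fun a => C (p0 a).natAbs + C (p1 a).natAbs * X a)
    (fun a => C (d a).natAbs * (1 + X a))) e

/-- Coefficientwise majorant. -/
def Maj (P : MvPolynomial Ax ℤ) (Q : MvPolynomial Ax ℕ) : Prop :=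
  ∀ m, |coeff m P| ≤ ((coeff m Q : ℕ) : ℤ)

lemma Maj.add {P P' : MvPolynomial Ax ℤ} {Q Q' : MvPolynomial Ax ℕ} (h : Maj P Q)
    (h' : Maj P' Q') : Maj (P + P') (Q + Q') := by
  intro m
  rw [coeff_add, coeff_add]
  push_cast
  exact (abs_add_le _ _).trans (add_le_add (h m) (h' m))

lemma Maj.mul {P P' : MvPolynomial Ax ℤ} {Q Q' : MvPolynomial Ax ℕ} (h : Maj P Q)
    (h' : Maj P' Q') : Maj (P * P') (Q * Q') := by
  intro m
  rw [coeff_mul, coeff_mul]
  push_cast
  refine (Finset.abs_sum_le_sum_abs _ _).trans (Finset.sum_le_sum fun x _ => ?_)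
  rw [abs_mul]
  exact mul_le_mul (h _) (h' _) (abs_nonneg _) (Nat.cast_nonneg _)

lemma Maj_C (z : ℤ) : Maj (C z) (C z.natAbs) := by
  intro m
  rw [coeff_C, coeff_C]
  split_ifs
  · rw [Int.natCast_natAbs]
  · simp

lemma Maj_X (a : Ax) : Maj (X a) (X a) := by
  intro m
  rw [coeff_X, coeff_X]
  split_ifs <;> simp

lemma Maj_one : Maj 1 1 := by
  have := Maj_C 1
  simpa using this

lemma Maj_PP (p0 p1 d : Ax → ℤ) (e : Ex) : Maj (PP p0 p1 d e) (QQ p0 p1 d e) := by
  have e1 : ∀ z : ℤ, ((z : ℤ) : MvPolynomial Ax ℤ) = C z := fun z => by simp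
  have e2 : ∀ z : ℕ, ((z : ℕ) : MvPolynomial Ax ℕ) = C z := fun z => by simp
  induction e with
  | v b => exact (Maj_C _).add ((Maj_C _).mul (Maj_X _))
  | h b => exact (Maj_C _).mul (Maj_one.add (Maj_X _))
  | c z =>
    change Maj ((z : ℤ) : MvPolynomial Ax ℤ) ((z.natAbs : ℕ) : MvPolynomial Ax ℕ)
    rw [e1, e2]
    exact Maj_C z
  | m p q hp hq => exact hp.mul hq
  | f z p z' q hp hq =>
    change Maj (((z : ℤ) : MvPolynomial Ax ℤ) * _ + ((z' : ℤ) : MvPolynomial Ax ℤ) * _)
      (((z.natAbs : ℕ) : MvPolynomial Ax ℕ) * _ + ((z'.natAbs : ℕ) : MvPolynomial Ax ℕ) * _)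
    rw [e1, e2, e1, e2]
    exact ((Maj_C _).mul hp).add ((Maj_C _).mul hq)

/-- Majorant of all coefficients, for the kernel: `bv a ≥ |p0 a| + |p1 a|`, `bh a ≥ 2 |d a|`. -/
def algN (bv bh : Ax → ℕ) : Alg ℕ :=
  ⟨bv, bh, fun z => z.natAbs, fun a b => Nat.mul a b,
    fun z a z' b => Nat.add (Nat.mul z.natAbs a) (Nat.mul z'.natAbs b)⟩

lemma eval_QQ_le (p0 p1 d : Ax → ℤ) (bv bh : Ax → ℕ)
    (hv : ∀ a, (p0 a).natAbs + (p1 a).natAbs ≤ bv a) (hh : ∀ a, 2 * (d a).natAbs ≤ bh a) (e : Ex) :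
    eval (fun _ => 1) (QQ p0 p1 d e) ≤ ev (algN bv bh) e := by
  induction e with
  | v b =>
    change eval (fun _ => 1) (C (p0 b).natAbs + C (p1 b).natAbs * X b) ≤ bv b
    simpa using hv b
  | h b =>
    change eval (fun _ => 1) (C (d b).natAbs * (1 + X b)) ≤ bh b
    have := hh b
    simp
    omega
  | c z =>
    change eval (fun _ => 1) ((z.natAbs : ℕ) : MvPolynomial Ax ℕ) ≤ z.natAbs
    simp
  | m p q hp hq =>
    change eval (fun _ => 1) (QQ p0 p1 d p * QQ p0 p1 d q) ≤ _ * _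
    rw [map_mul]
    exact Nat.mul_le_mul hp hq
  | f z p z' q hp hq =>
    change eval (fun _ => 1) (((z.natAbs : ℕ) : MvPolynomial Ax ℕ) * QQ p0 p1 d p
      + ((z'.natAbs : ℕ) : MvPolynomial Ax ℕ) * QQ p0 p1 d q) ≤ _ * _ + _ * _
    rw [map_add, map_mul, map_mul, map_natCast, map_natCast]
    exact Nat.add_le_add (Nat.mul_le_mul_left _ hp) (Nat.mul_le_mul_left _ hq)

/-! ### Digits -/

lemma digits_nonneg (w : ℕ) (hw : 0 < w) (N : ℕ) : ∀ (g : ℕ → ℤ) (V : ℕ),
    (∀ i, |g i| * 2 < 2 ^ w) → (V : ℤ) = ∑ i ∈ Finset.range N, g i * (2 ^ w) ^ i →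
    (∀ i < N, V.testBit (w * i + (w - 1)) = false) → ∀ i < N, 0 ≤ g i := by
  induction N with
  | zero => intro g V _ _ _ i hi; omega
  | succ N ih =>
    intro g V hg hV hb
    have hB : (2 : ℤ) ^ w = 2 * 2 ^ (w - 1) := by
      conv_lhs => rw [show w = (w - 1) + 1 by omega]
      rw [pow_succ]; ring
    have hBn : (2 : ℕ) ^ w = 2 * 2 ^ (w - 1) := by exact_mod_cast hB
    set S : ℤ := ∑ i ∈ Finset.range N, g (i + 1) * (2 ^ w) ^ i with hS
    have hV2 : (V : ℤ) = 2 ^ w * S + g 0 := by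
      rw [hV, Finset.sum_range_succ', hS, Finset.mul_sum]
      congr 1
      · apply Finset.sum_congr rfl
        intro i _
        rw [pow_succ]; ring
      · simp
    have hg0 := hg 0
    have hg0a := abs_lt.1 (show |g 0| < 2 ^ (w - 1) by rw [hB] at hg0; omega)
    have hpos : (0 : ℤ) < 2 ^ (w - 1) := by positivity
    -- lowest digit
    have h0 : 0 ≤ g 0 := by
      by_contra hneg
      push Not at hneg
      have hmod : ((V % 2 ^ w : ℕ) : ℤ) = g 0 + 2 ^ w := by
        push_cast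
        rw [hV2]
        have : (2 : ℤ) ^ w * S + g 0 = (g 0 + 2 ^ w) + 2 ^ w * (S - 1) := by ring
        rw [this, Int.add_mul_emod_self_left]
        apply Int.emod_eq_of_lt
        · rw [hB]; omega
        · omega
      have h1 := hb 0 (by omega)
      rw [mul_zero, zero_add] at h1
      have h2 : (V % 2 ^ w).testBit (w - 1) = V.testBit (w - 1) := by
        rw [Nat.testBit_mod_two_pow]
        simp [show w - 1 < w by omega]
      rw [h1] at h2
      rw [Nat.testBit_eq_decide_div_mod_eq] at h2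
      have h3 : V % 2 ^ w / 2 ^ (w - 1) = 1 := by
        have hlo : 2 ^ (w - 1) ≤ V % 2 ^ w := by
          have : (2 : ℤ) ^ (w - 1) ≤ ((V % 2 ^ w : ℕ) : ℤ) := by rw [hmod, hB]; omega
          exact_mod_cast this
        have hhi : V % 2 ^ w < 2 * 2 ^ (w - 1) := by
          rw [← hBn]; exact Nat.mod_lt _ (by positivity)
        rw [Nat.div_eq_of_lt_le] <;> omega
      rw [h3] at h2
      simp at h2
    have hSnn : 0 ≤ S := by
      by_contra hneg
      push Not at hneg
      have h1 : (2 : ℤ) ^ w * S ≤ 2 ^ w * (-1) := by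
        apply mul_le_mul_of_nonneg_left _ (by positivity)
        omega
      have : (0 : ℤ) ≤ V := Int.natCast_nonneg _
      rw [hB] at *
      omega
    have hdiv : ((V / 2 ^ w : ℕ) : ℤ) = S := by
      push_cast
      rw [hV2, add_comm, Int.add_mul_ediv_left _ _ (by positivity),
        Int.ediv_eq_zero_of_lt h0 (by rw [hB]; omega), zero_add]
    have hrec := ih (fun i => g (i + 1)) (V / 2 ^ w) (fun i => hg _) hdiv (by
      intro i hi
      rw [Nat.testBit_div_two_pow]
      have := hb (i + 1) (by omega)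
      rw [show w * (i + 1) + (w - 1) = w * i + (w - 1) + w by ring] at this
      exact this)
    intro i hi
    rcases i with _ | i
    · exact h0
    · exact hrec i (by omega)

/-- The mask `2^(w-1) (1 + 2^w + ... + 2^(w(N-1)))`. -/
def mask (w N : ℕ) : ℕ :=
  Nat.mul (Nat.pow 2 (Nat.sub w 1))
    (Nat.div (Nat.sub (Nat.pow 2 (Nat.mul w N)) 1) (Nat.sub (Nat.pow 2 w) 1))

lemma mask_eq (w N : ℕ) (hw : 0 < w) :
    mask w N = 2 ^ (w - 1) * ∑ i ∈ Finset.range N, (2 ^ w) ^ i := by
  have h2 : 2 ≤ 2 ^ w := by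
    calc 2 = 2 ^ 1 := rfl
      _ ≤ 2 ^ w := Nat.pow_le_pow_right (by norm_num) hw
  rw [Nat.geomSum_eq h2]
  change 2 ^ (w - 1) * ((2 ^ (w * N) - 1) / (2 ^ w - 1)) = _
  rw [pow_mul]

lemma testBit_geom (w : ℕ) (hw : 0 < w) (N : ℕ) : ∀ i < N,
    (∑ i ∈ Finset.range N, (2 ^ w) ^ i).testBit (w * i) = true := by
  induction N with
  | zero => intro i hi; omega
  | succ N ih =>
    intro i hi
    have h1 : ∑ i ∈ Finset.range (N + 1), (2 ^ w) ^ i
        = 2 ^ w * (∑ i ∈ Finset.range N, (2 ^ w) ^ i) + 1 := by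
      rw [Finset.sum_range_succ', Finset.mul_sum]
      congr 1
      apply Finset.sum_congr rfl
      intro i _
      rw [pow_succ]; ring
    have h2 : 1 < 2 ^ w := Nat.one_lt_two_pow (by omega)
    rw [h1, Nat.testBit_two_pow_mul_add _ h2]
    rcases i with _ | i
    · simp [hw]
    · rw [if_neg (by rw [mul_add]; omega), mul_add, mul_one, Nat.add_sub_cancel]
      exact ih i (by omega)

lemma testBit_of_land (w N V : ℕ) (hw : 0 < w) (h : Nat.land V (mask w N) = 0) :
    ∀ i < N, V.testBit (w * i + (w - 1)) = false := by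
  intro i hi
  have h1 : (V &&& mask w N).testBit (w * i + (w - 1)) = false := by
    have : V &&& mask w N = 0 := h
    rw [this]; simp
  rw [Nat.testBit_and] at h1
  have h2 : (mask w N).testBit (w * i + (w - 1)) = true := by
    rw [mask_eq w N hw, Nat.testBit_two_pow_mul]
    simp only [ge_iff_le, Nat.le_add_left, decide_true, Bool.true_and, Nat.add_sub_cancel]
    exact testBit_geom w hw N i hi
  rw [h2, Bool.and_true] at h1
  exact h1

/-! ### Kronecker substitution -/

/-- The linear index of a monomial. -/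
def idx (K L : ℕ) (m : Ax →₀ ℕ) : ℕ := m .x + K * (m .y + L * m .t)

lemma idx_lt {n1 n2 n3 : ℕ} {m : Ax →₀ ℕ} (h1 : m .x ≤ n1) (h2 : m .y ≤ n2) (h3 : m .t ≤ n3) :
    idx (n1 + 1) (n2 + 1) m < (n1 + 1) * ((n2 + 1) * (n3 + 1)) := by
  unfold idx
  have e1 : m .y + (n2 + 1) * m .t + 1 ≤ (n2 + 1) * (n3 + 1) := by nlinarith
  have e2 : (n1 + 1) * (m .y + (n2 + 1) * m .t + 1) ≤ (n1 + 1) * ((n2 + 1) * (n3 + 1)) :=
    Nat.mul_le_mul_left _ e1
  rw [mul_add (n1 + 1) _ 1] at e2
  omega

lemma idx_inj {n1 n2 : ℕ} {m m' : Ax →₀ ℕ} (h1 : m .x ≤ n1) (h2 : m .y ≤ n2)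
    (h1' : m' .x ≤ n1) (h2' : m' .y ≤ n2)
    (h : idx (n1 + 1) (n2 + 1) m = idx (n1 + 1) (n2 + 1) m') : m = m' := by
  unfold idx at h
  have a1 := congrArg (· % (n1 + 1)) h
  simp only [Nat.add_mul_mod_self_left] at a1
  rw [Nat.mod_eq_of_lt (by omega), Nat.mod_eq_of_lt (by omega)] at a1
  rw [a1] at h
  have a2 := Nat.eq_of_mul_eq_mul_left (by omega) (Nat.add_left_cancel h)
  have a3 := congrArg (· % (n2 + 1)) a2
  simp only [Nat.add_mul_mod_self_left] at a3
  rw [Nat.mod_eq_of_lt (by omega), Nat.mod_eq_of_lt (by omega)] at a3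
  rw [a3] at a2
  have a4 := Nat.eq_of_mul_eq_mul_left (by omega) (Nat.add_left_cancel a2)
  ext a
  cases a
  · exact a1
  · exact a3
  · exact a4

/-- The Kronecker point. -/
def kro (w K L : ℕ) : Ax → ℤ
  | .x => 2 ^ w
  | .y => 2 ^ (w * K)
  | .t => 2 ^ (w * (K * L))

lemma coeff_nonneg (P : MvPolynomial Ax ℤ) (Q : MvPolynomial Ax ℕ) (w n1 n2 n3 M V : ℕ)
    (hw : 0 < w) (hPQ : Maj P Q) (hQ : eval (fun _ => 1) Q ≤ M) (hM : 2 * M < 2 ^ w)
    (d1 : degreeOf .x P ≤ n1) (d2 : degreeOf .y P ≤ n2) (d3 : degreeOf .t P ≤ n3)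
    (hV : (V : ℤ) = eval (kro w (n1 + 1) (n2 + 1)) P)
    (hland : Nat.land V (mask w ((n1 + 1) * ((n2 + 1) * (n3 + 1)))) = 0) (m : Ax →₀ ℕ) :
    0 ≤ coeff m P := by
  classical
  set N := (n1 + 1) * ((n2 + 1) * (n3 + 1)) with hN
  have g1 : ∀ m ∈ P.support, m .x ≤ n1 := fun m hm => (degreeOf_le_iff.1 d1) m hm
  have g2 : ∀ m ∈ P.support, m .y ≤ n2 := fun m hm => (degreeOf_le_iff.1 d2) m hm
  have g3 : ∀ m ∈ P.support, m .t ≤ n3 := fun m hm => (degreeOf_le_iff.1 d3) m hm
  set g : ℕ → ℤ := fun i => ∑ m ∈ P.support with idx (n1 + 1) (n2 + 1) m = i, coeff m P with hg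
  have hsub : P.support ⊆ Q.support := by
    intro m hm
    rw [mem_support_iff] at hm ⊢
    intro h0
    have := hPQ m
    rw [h0] at this
    exact hm (abs_eq_zero.1 (le_antisymm (by simpa using this) (abs_nonneg _)))
  have hQs : ∑ m ∈ Q.support, coeff m Q ≤ M := by
    refine le_trans (le_of_eq ?_) hQ
    rw [eval_eq']
    apply Finset.sum_congr rfl
    intro m _
    simp
  have hbound : ∀ i, |g i| * 2 < 2 ^ w := by
    intro i
    have h1 : |g i| ≤ ((∑ m ∈ Q.support, coeff m Q : ℕ) : ℤ) := by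
      calc |g i| ≤ ∑ m ∈ P.support with idx (n1 + 1) (n2 + 1) m = i, |coeff m P| :=
            Finset.abs_sum_le_sum_abs _ _
        _ ≤ ∑ m ∈ P.support with idx (n1 + 1) (n2 + 1) m = i, ((coeff m Q : ℕ) : ℤ) :=
            Finset.sum_le_sum fun m _ => hPQ m
        _ ≤ ∑ m ∈ Q.support, ((coeff m Q : ℕ) : ℤ) :=
            Finset.sum_le_sum_of_subset_of_nonneg
              ((Finset.filter_subset _ _).trans hsub) (fun _ _ _ => Nat.cast_nonneg _)
        _ = _ := by push_cast; rfl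
    have h2 : ((∑ m ∈ Q.support, coeff m Q : ℕ) : ℤ) ≤ M := by exact_mod_cast hQs
    have h3 : 2 * (M : ℤ) < 2 ^ w := by exact_mod_cast hM
    linarith
  have hsum : (V : ℤ) = ∑ i ∈ Finset.range N, g i * (2 ^ w) ^ i := by
    rw [hV, eval_eq']
    have e1 : ∀ m ∈ P.support, coeff m P * ∏ a, kro w (n1 + 1) (n2 + 1) a ^ m a =
        coeff m P * (2 ^ w) ^ (idx (n1 + 1) (n2 + 1) m) := by
      intro m _
      rw [prod_ax]
      simp only [kro]
      congr 1
      rw [← pow_mul, ← pow_mul, ← pow_mul, ← pow_mul, ← pow_add, ← pow_add]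
      congr 1
      unfold idx
      ring
    rw [Finset.sum_congr rfl e1,
      ← Finset.sum_fiberwise_of_maps_to (s := P.support) (t := Finset.range N)
        (g := idx (n1 + 1) (n2 + 1))
        (fun m hm => Finset.mem_range.2 (idx_lt (g1 m hm) (g2 m hm) (g3 m hm)))]
    apply Finset.sum_congr rfl
    intro i _
    rw [hg, Finset.sum_mul]
    apply Finset.sum_congr rfl
    intro m hm
    rw [(Finset.mem_filter.1 hm).2]
  have hnn := digits_nonneg w hw N g V hbound hsum (testBit_of_land w N V hw hland)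
  by_cases hm : m ∈ P.support
  · have h1 := hnn (idx (n1 + 1) (n2 + 1) m) (idx_lt (g1 m hm) (g2 m hm) (g3 m hm))
    have h2 : g (idx (n1 + 1) (n2 + 1) m) = coeff m P := by
      rw [hg]
      have : (P.support.filter fun m' => idx (n1 + 1) (n2 + 1) m' = idx (n1 + 1) (n2 + 1) m)
          = {m} := by
        ext m'
        simp only [Finset.mem_filter, Finset.mem_singleton]
        constructor
        · rintro ⟨h1, h2⟩
          exact idx_inj (g1 m' h1) (g2 m' h1) (g1 m hm) (g2 m hm) h2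
        · rintro rfl
          exact ⟨hm, rfl⟩
      simp only [this, Finset.sum_singleton]
    rw [h2] at h1
    exact h1
  · rw [notMem_support_iff.1 hm]

/-! ### The checker -/

/-- A box with integer endpoints (the denominators are in `Par`). -/
structure Bx where
  /-- left end, axis x -/
  x0 : ℤ
  /-- right end, axis x -/
  x1 : ℤ
  /-- left end, axis y -/
  y0 : ℤ
  /-- right end, axis y -/
  y1 : ℤ
  /-- left end, axis t -/
  t0 : ℤ
  /-- right end, axis t -/
  t1 : ℤ

/-- Parameters: digit width `w`, degrees `n1, n2, n3`, denominators `dx, dy, dt` and bounds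
`bx, by, bt` for the sums of absolute values of the end points. -/
structure Par where
  /-- digit width -/
  w : ℕ
  /-- degree in the x pair -/
  n1 : ℕ
  /-- degree in the y pair -/
  n2 : ℕ
  /-- degree in the t pair -/
  n3 : ℕ
  /-- denominator of x -/
  dx : ℕ
  /-- denominator of y -/
  dy : ℕ
  /-- denominator of t -/
  dt : ℕ
  /-- bound of the sum of the absolute values of the end points, axis x -/
  bx : ℕ
  /-- the same for y -/
  bY : ℕ
  /-- the same for t -/
  bt : ℕ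

/-- The interpretation used by the kernel. -/
def algK (P : Par) (b : Bx) : Alg ℤ :=
  ⟨fun a => match a with
    | .x => Int.add b.x0 (Int.mul b.x1 (Int.ofNat (Nat.pow 2 P.w)))
    | .y => Int.add b.y0 (Int.mul b.y1 (Int.ofNat (Nat.pow 2 (Nat.mul P.w (Nat.succ P.n1)))))
    | .t => Int.add b.t0 (Int.mul b.t1
        (Int.ofNat (Nat.pow 2 (Nat.mul P.w (Nat.mul (Nat.succ P.n1) (Nat.succ P.n2)))))),
   fun a => match a with
    | .x => Int.ofNat (Nat.mul P.dx (Nat.succ (Nat.pow 2 P.w)))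
    | .y => Int.ofNat (Nat.mul P.dy (Nat.succ (Nat.pow 2 (Nat.mul P.w (Nat.succ P.n1)))))
    | .t => Int.ofNat (Nat.mul P.dt
        (Nat.succ (Nat.pow 2 (Nat.mul P.w (Nat.mul (Nat.succ P.n1) (Nat.succ P.n2)))))),
   fun z => z, fun a b => Int.mul a b, fun z a z' b => Int.add (Int.mul z a) (Int.mul z' b)⟩

/-- Left ends. -/
def Bx.lo (b : Bx) : Ax → ℤ
  | .x => b.x0 | .y => b.y0 | .t => b.t0

/-- Right ends. -/
def Bx.hi (b : Bx) : Ax → ℤ
  | .x => b.x1 | .y => b.y1 | .t => b.t1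

/-- Denominators. -/
def Par.den (P : Par) : Ax → ℤ
  | .x => P.dx | .y => P.dy | .t => P.dt

lemma ev_algK (P : Par) (b : Bx) (e : Ex) :
    ev (algK P b) e = eval (kro P.w (P.n1 + 1) (P.n2 + 1)) (PP b.lo b.hi P.den e) := by
  unfold PP
  rw [ev_map]
  congr 1
  have h1 : ∀ n : ℕ, Int.ofNat (Nat.pow 2 n) = 2 ^ n := by
    intro n
    change ((2 ^ n : ℕ) : ℤ) = 2 ^ n
    push_cast; rfl
  have h2 : ∀ n k : ℕ, Int.ofNat (Nat.mul k (Nat.succ (Nat.pow 2 n))) = k * (1 + 2 ^ n) := by
    intro n k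
    change ((k * (2 ^ n + 1) : ℕ) : ℤ) = k * (1 + 2 ^ n)
    push_cast; ring
  unfold algK algR
  congr 1
  · funext a
    cases a
    · simp only [h1]
      change b.x0 + b.x1 * _ = _
      simp [Bx.lo, Bx.hi, kro]
    · simp only [h1]
      change b.y0 + b.y1 * _ = _
      simp [Bx.lo, Bx.hi, kro]
    · simp only [h1]
      change b.t0 + b.t1 * _ = _
      simp [Bx.lo, Bx.hi, kro]
  · funext a
    cases a
    · simp only [h2]
      simp [Par.den, kro]
    · simp only [h2]
      simp [Par.den, kro]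
    · simp only [h2]
      simp [Par.den, kro]

/-- Check of the parameters (once per expression). -/
noncomputable def chkPar (P : Par) (e : Ex) : Bool :=
  (match ev (algD .x) e with
    | some n => Nat.beq n P.n1
    | none => false) &&
  ((match ev (algD .y) e with
    | some n => Nat.beq n P.n2
    | none => false) &&
  ((match ev (algD .t) e with
    | some n => Nat.beq n P.n3
    | none => false) &&
  (Nat.blt 0 P.w && (Nat.blt 0 P.dx && (Nat.blt 0 P.dy && (Nat.blt 0 P.dt &&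
  Nat.blt (Nat.mul 2 (ev (algN
    (fun a => match a with | .x => P.bx | .y => P.bY | .t => P.bt)
    (fun a => match a with | .x => Nat.mul 2 P.dx | .y => Nat.mul 2 P.dy | .t => Nat.mul 2 P.dt))
    e)) (Nat.pow 2 P.w)))))))

/-- Check of one end point pair. -/
def chkEnd (a b : ℤ) (B : ℕ) : Bool :=
  (match Int.sub b a with
    | .ofNat n => Nat.blt 0 n
    | .negSucc _ => false) && Nat.ble (Nat.add a.natAbs b.natAbs) B

lemma chkEnd_lt {a b : ℤ} {B : ℕ} (h : chkEnd a b B = true) : a < b ∧ a.natAbs + b.natAbs ≤ B := by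
  unfold chkEnd at h
  rw [Bool.and_eq_true] at h
  refine ⟨?_, Nat.le_of_ble_eq_true h.2⟩
  have h1 := h.1
  have h2 : Int.sub b a = b - a := rfl
  rw [h2] at h1
  rcases hba : b - a with n | n
  · rw [hba] at h1
    simp only at h1
    have h3 : 0 < n := by
      have := Nat.le_of_ble_eq_true h1
      omega
    have : b - a = (n : ℤ) := hba
    omega
  · rw [hba] at h1
    exact absurd h1 (by simp)

/-- Check of one box. -/
noncomputable def chkBox (P : Par) (e : Ex) (b : Bx) : Bool :=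
  chkEnd b.x0 b.x1 P.bx && (chkEnd b.y0 b.y1 P.bY && (chkEnd b.t0 b.t1 P.bt &&
  (match ev (algK P b) e with
    | .ofNat V => Nat.beq (Nat.land V
        (mask P.w (Nat.mul (Nat.succ P.n1) (Nat.mul (Nat.succ P.n2) (Nat.succ P.n3))))) 0
    | .negSucc _ => false)))

lemma val_continuous (e : Ex) :
    Continuous fun q : ℝ × ℝ × ℝ => val e q.1 q.2.1 q.2.2 := by
  unfold val
  induction e with
  | v a => cases a <;> simp only [ev_v, algR] <;> fun_prop
  | h a => simp only [ev_h, algR]; fun_prop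
  | c z => simp only [ev_c, algR]; fun_prop
  | m p q hp hq =>
    simp only [ev_m] at *
    exact hp.mul hq
  | f z p z' q hp hq =>
    simp only [ev_f] at *
    exact (continuous_const.mul hp).add (continuous_const.mul hq)

/-- Value on the half open box. -/
lemma val_nonneg_of_coeff (p0 p1 d : Ax → ℤ) (e : Ex) (n : Ax → ℕ)
    (hn : ∀ a, ev (algD a) e = some (n a)) (hd : ∀ a, 0 < d a) (h01 : ∀ a, p0 a < p1 a)
    (hco : ∀ m, 0 ≤ coeff m (PP p0 p1 d e)) (q : Ax → ℝ)
    (h0 : ∀ a, (p0 a : ℝ) ≤ d a * q a) (h1 : ∀ a, d a * q a < (p1 a : ℝ)) :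
    0 ≤ ev (algR q (fun _ => (1 : ℝ))) e := by
  have hd' : ∀ a, (0 : ℝ) < d a := fun a => by exact_mod_cast hd a
  have h01' : ∀ a, (p0 a : ℝ) < p1 a := fun a => by exact_mod_cast h01 a
  set z : Ax → ℝ := fun a => (d a * q a - p0 a) / (p1 a - d a * q a) with hz
  have hzn : ∀ a, 0 ≤ z a := fun a => div_nonneg (by linarith [h0 a]) (by linarith [h1 a])
  set l : Ax → ℝ := fun a => d a * (1 + z a) with hl
  have hlp : ∀ a, 0 < l a := fun a => mul_pos (hd' a) (by linarith [hzn a])
  have hal : ∀ a, (p0 a : ℝ) + p1 a * z a = l a * q a := by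
    intro a
    have h3 : (0 : ℝ) < p1 a - d a * q a := by linarith [h1 a]
    simp only [hl, hz]
    field_simp
    ring
  -- positivity of the polynomial
  have hpos : 0 ≤ eval₂ (Int.castRingHom ℝ) z (PP p0 p1 d e) := by
    rw [eval₂_eq']
    apply Finset.sum_nonneg
    intro m _
    apply mul_nonneg
    · simpa using hco m
    · exact Finset.prod_nonneg fun a _ => pow_nonneg (hzn a) _
  have hev : eval₂ (Int.castRingHom ℝ) z (PP p0 p1 d e) =
      ev (algR (fun a => l a * q a) (fun a => l a * 1)) e := by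
    have := ev_map (eval₂Hom (Int.castRingHom ℝ) z) (fun a => C (p0 a) + C (p1 a) * X a)
      (fun a => C (d a) * (1 + X a)) e
    have h4 : eval₂ (Int.castRingHom ℝ) z (PP p0 p1 d e) =
        (eval₂Hom (Int.castRingHom ℝ) z) (PP p0 p1 d e) := rfl
    rw [h4]
    unfold PP
    rw [this]
    have h5 : ∀ (u v : MvPolynomial Ax ℤ), (eval₂Hom (Int.castRingHom ℝ) z) (u + v) =
        (eval₂Hom (Int.castRingHom ℝ) z) u + (eval₂Hom (Int.castRingHom ℝ) z) v :=
      fun u v => map_add _ u v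
    have h6 : ∀ (u v : MvPolynomial Ax ℤ), (eval₂Hom (Int.castRingHom ℝ) z) (u * v) =
        (eval₂Hom (Int.castRingHom ℝ) z) u * (eval₂Hom (Int.castRingHom ℝ) z) v :=
      fun u v => map_mul _ u v
    have h7 : ∀ k : ℤ, (eval₂Hom (Int.castRingHom ℝ) z) (C k) = (k : ℝ) :=
      fun k => by rw [eval₂Hom_C]; rfl
    have h8 : ∀ a : Ax, (eval₂Hom (Int.castRingHom ℝ) z) (X a) = z a :=
      fun a => eval₂Hom_X' _ _ _
    congr 2
    · funext a
      rw [← hal a, h5, h6, h7, h7, h8]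
    · funext a
      rw [h6, h7, h5, h8, map_one]
      simp [hl]
  have hsc : ev (algR (fun a => l a * q a) (fun a => l a * 1)) e =
      l .t ^ n .t * (l .y ^ n .y * (l .x ^ n .x * ev (algR q (fun _ => (1 : ℝ))) e)) := by
    rw [← ev_scale .x (l .x) q _ e _ (hn .x), ← ev_scale .y (l .y) _ _ e _ (hn .y),
      ← ev_scale .t (l .t) _ _ e _ (hn .t)]
    congr 2
    · funext a
      cases a <;> simp
    · funext a
      cases a <;> simp
  rw [hev, hsc] at hpos
  have e1 := pow_pos (hlp .x) (n .x)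
  have e2 := pow_pos (hlp .y) (n .y)
  have e3 := pow_pos (hlp .t) (n .t)
  have f1 := nonneg_of_mul_nonneg_right hpos e3
  have f2 := nonneg_of_mul_nonneg_right f1 e2
  exact nonneg_of_mul_nonneg_right f2 e1

/-- Closed boxes. -/
lemma val_nonneg_closed (e : Ex) (a0 a1 b0 b1 c0 c1 : ℝ) (ha : a0 < a1) (hb : b0 < b1)
    (hc : c0 < c1)
    (h : ∀ x y t, a0 ≤ x → x < a1 → b0 ≤ y → y < b1 → c0 ≤ t → t < c1 → 0 ≤ val e x y t)
    (x y t : ℝ) (hx0 : a0 ≤ x) (hx1 : x ≤ a1) (hy0 : b0 ≤ y) (hy1 : y ≤ b1) (ht0 : c0 ≤ t)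
    (ht1 : t ≤ c1) : 0 ≤ val e x y t := by
  have hcl : IsClosed {q : ℝ × ℝ × ℝ | 0 ≤ val e q.1 q.2.1 q.2.2} :=
    isClosed_le continuous_const (val_continuous e)
  have hsub : (Set.Ico a0 a1) ×ˢ ((Set.Ico b0 b1) ×ˢ (Set.Ico c0 c1)) ⊆
      {q : ℝ × ℝ × ℝ | 0 ≤ val e q.1 q.2.1 q.2.2} := by
    rintro ⟨x, y, t⟩ ⟨⟨h1, h2⟩, ⟨h3, h4⟩, ⟨h5, h6⟩⟩
    exact h x y t h1 h2 h3 h4 h5 h6
  have h1 := closure_minimal hsub hcl
  rw [closure_prod_eq, closure_prod_eq, closure_Ico ha.ne, closure_Ico hb.ne,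
    closure_Ico hc.ne] at h1
  exact h1 (show (x, y, t) ∈ _ from ⟨⟨hx0, hx1⟩, ⟨hy0, hy1⟩, ⟨ht0, ht1⟩⟩)

lemma chkPar_deg {n k : ℕ} {o : Option ℕ} (h : (match o with
    | some n => Nat.beq n k
    | none => false) = true) (_ : n = k) : o = some n := by
  rcases o with _ | i
  · exact absurd h (by simp)
  · simp only at h
    have := Nat.eq_of_beq_eq_true h
    subst this
    rename_i hnk
    rw [hnk]

/-- Soundness for one box. -/
theorem chkBox_sound (P : Par) (e : Ex) (hP : chkPar P e = true) (b : Bx)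
    (hb : chkBox P e b = true) (x y t : ℝ)
    (hx0 : (b.x0 : ℝ) ≤ P.dx * x) (hx1 : P.dx * x ≤ (b.x1 : ℝ))
    (hy0 : (b.y0 : ℝ) ≤ P.dy * y) (hy1 : P.dy * y ≤ (b.y1 : ℝ))
    (ht0 : (b.t0 : ℝ) ≤ P.dt * t) (ht1 : P.dt * t ≤ (b.t1 : ℝ)) : 0 ≤ val e x y t := by
  unfold chkPar at hP
  simp only [Bool.and_eq_true] at hP
  obtain ⟨hD1, hD2, hD3, hw, hdx, hdy, hdt, hM⟩ := hP
  unfold chkBox at hb
  simp only [Bool.and_eq_true] at hb
  obtain ⟨hex, hey, het, hV⟩ := hb
  have hex := chkEnd_lt hex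
  have hey := chkEnd_lt hey
  have het := chkEnd_lt het
  have D1 : ev (algD .x) e = some P.n1 := chkPar_deg hD1 rfl
  have D2 : ev (algD .y) e = some P.n2 := chkPar_deg hD2 rfl
  have D3 : ev (algD .t) e = some P.n3 := chkPar_deg hD3 rfl
  have hw : 0 < P.w := Nat.le_of_ble_eq_true hw
  have hdx : 0 < P.dx := Nat.le_of_ble_eq_true hdx
  have hdy : 0 < P.dy := Nat.le_of_ble_eq_true hdy
  have hdt : 0 < P.dt := Nat.le_of_ble_eq_true hdt
  have hM := Nat.le_of_ble_eq_true hM
  -- all coefficients are nonnegative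
  have hco : ∀ m, 0 ≤ coeff m (PP b.lo b.hi P.den e) := by
    rcases hv : ev (algK P b) e with V | V
    · rw [hv] at hV
      simp only at hV
      have hland := Nat.eq_of_beq_eq_true hV
      have hVe : (V : ℤ) = eval (kro P.w (P.n1 + 1) (P.n2 + 1)) (PP b.lo b.hi P.den e) := by
        rw [← ev_algK]; exact hv.symm
      refine coeff_nonneg (PP b.lo b.hi P.den e) (QQ b.lo b.hi P.den e) P.w P.n1 P.n2 P.n3 _ V hw
        (Maj_PP _ _ _ _) (eval_QQ_le b.lo b.hi P.den
          (fun a => match a with | .x => P.bx | .y => P.bY | .t => P.bt)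
          (fun a => match a with
            | .x => Nat.mul 2 P.dx | .y => Nat.mul 2 P.dy | .t => Nat.mul 2 P.dt) ?_ ?_ e) hM
        (deg_PP _ _ _ _ _ _ D1) (deg_PP _ _ _ _ _ _ D2) (deg_PP _ _ _ _ _ _ D3) hVe hland
      · intro a
        cases a
        · exact hex.2
        · exact hey.2
        · exact het.2
      · intro a
        cases a
        · exact le_of_eq (by simp [Par.den])
        · exact le_of_eq (by simp [Par.den])
        · exact le_of_eq (by simp [Par.den])
    · rw [hv] at hV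
      exact absurd hV (by simp)
  have hdx' : (0 : ℝ) < P.dx := by exact_mod_cast hdx
  have hdy' : (0 : ℝ) < P.dy := by exact_mod_cast hdy
  have hdt' : (0 : ℝ) < P.dt := by exact_mod_cast hdt
  have hx01 : (b.x0 : ℝ) < b.x1 := by exact_mod_cast hex.1
  have hy01 : (b.y0 : ℝ) < b.y1 := by exact_mod_cast hey.1
  have ht01 : (b.t0 : ℝ) < b.t1 := by exact_mod_cast het.1
  refine val_nonneg_closed e (b.x0 / P.dx) (b.x1 / P.dx) (b.y0 / P.dy) (b.y1 / P.dy)
    (b.t0 / P.dt) (b.t1 / P.dt) (by gcongr) (by gcongr) (by gcongr) ?_ x y t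
    ((div_le_iff₀' hdx').2 hx0) ((le_div_iff₀' hdx').2 hx1)
    ((div_le_iff₀' hdy').2 hy0) ((le_div_iff₀' hdy').2 hy1)
    ((div_le_iff₀' hdt').2 ht0) ((le_div_iff₀' hdt').2 ht1)
  intro x y t gx0 gx1 gy0 gy1 gt0 gt1
  rw [div_le_iff₀' hdx'] at gx0
  rw [lt_div_iff₀' hdx'] at gx1
  rw [div_le_iff₀' hdy'] at gy0
  rw [lt_div_iff₀' hdy'] at gy1
  rw [div_le_iff₀' hdt'] at gt0
  rw [lt_div_iff₀' hdt'] at gt1
  apply val_nonneg_of_coeff b.lo b.hi P.den e
    (fun a => match a with | .x => P.n1 | .y => P.n2 | .t => P.n3) _ _ _ hco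
  · intro a
    cases a
    · simpa [Bx.lo, Par.den] using gx0
    · simpa [Bx.lo, Par.den] using gy0
    · simpa [Bx.lo, Par.den] using gt0
  · intro a
    cases a
    · simpa [Bx.hi, Par.den] using gx1
    · simpa [Bx.hi, Par.den] using gy1
    · simpa [Bx.hi, Par.den] using gt1
  · intro a
    cases a
    · exact D1
    · exact D2
    · exact D3
  · intro a
    cases a
    · simpa [Par.den] using hdx
    · simpa [Par.den] using hdy
    · simpa [Par.den] using hdt
  · intro a
    cases a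
    · exact hex.1
    · exact hey.1
    · exact het.1

/-! ### Subdivision trees -/

/-- A subdivision: leaf, or cut an axis at an integer (over the denominator of the axis). -/
inductive Tr
  | lf
  | sx (c : ℤ) (l r : Tr)
  | sy (c : ℤ) (l r : Tr)
  | st (c : ℤ) (l r : Tr)

/-- Check of all the leaves. -/
noncomputable def chkTr (P : Par) (e : Ex) (T : Tr) : Bx → Bool :=
  Tr.rec (fun b => chkBox P e b)
    (fun c _ _ f g b => f ⟨b.x0, c, b.y0, b.y1, b.t0, b.t1⟩ && g ⟨c, b.x1, b.y0, b.y1, b.t0, b.t1⟩)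
    (fun c _ _ f g b => f ⟨b.x0, b.x1, b.y0, c, b.t0, b.t1⟩ && g ⟨b.x0, b.x1, c, b.y1, b.t0, b.t1⟩)
    (fun c _ _ f g b => f ⟨b.x0, b.x1, b.y0, b.y1, b.t0, c⟩ && g ⟨b.x0, b.x1, b.y0, b.y1, c, b.t1⟩)
    T

lemma glue_x {P : Par} {e : Ex} {l r : Tr} {x0 x1 y0 y1 t0 t1 c : ℤ}
    (hl : chkTr P e l ⟨x0, c, y0, y1, t0, t1⟩ = true)
    (hr : chkTr P e r ⟨c, x1, y0, y1, t0, t1⟩ = true) :
    chkTr P e (.sx c l r) ⟨x0, x1, y0, y1, t0, t1⟩ = true :=
  (Bool.and_eq_true _ _).mpr ⟨hl, hr⟩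

lemma glue_y {P : Par} {e : Ex} {l r : Tr} {x0 x1 y0 y1 t0 t1 c : ℤ}
    (hl : chkTr P e l ⟨x0, x1, y0, c, t0, t1⟩ = true)
    (hr : chkTr P e r ⟨x0, x1, c, y1, t0, t1⟩ = true) :
    chkTr P e (.sy c l r) ⟨x0, x1, y0, y1, t0, t1⟩ = true :=
  (Bool.and_eq_true _ _).mpr ⟨hl, hr⟩

lemma glue_t {P : Par} {e : Ex} {l r : Tr} {x0 x1 y0 y1 t0 t1 c : ℤ}
    (hl : chkTr P e l ⟨x0, x1, y0, y1, t0, c⟩ = true)
    (hr : chkTr P e r ⟨x0, x1, y0, y1, c, t1⟩ = true) :
    chkTr P e (.st c l r) ⟨x0, x1, y0, y1, t0, t1⟩ = true :=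
  (Bool.and_eq_true _ _).mpr ⟨hl, hr⟩

/-- **Soundness of the checker.** -/
theorem chkTr_sound (P : Par) (e : Ex) (hP : chkPar P e = true) (T : Tr) : ∀ b : Bx,
    chkTr P e T b = true → ∀ x y t : ℝ,
    (b.x0 : ℝ) ≤ P.dx * x → P.dx * x ≤ (b.x1 : ℝ) →
    (b.y0 : ℝ) ≤ P.dy * y → P.dy * y ≤ (b.y1 : ℝ) →
    (b.t0 : ℝ) ≤ P.dt * t → P.dt * t ≤ (b.t1 : ℝ) → 0 ≤ val e x y t := by
  induction T with
  | lf => exact fun b hb => chkBox_sound P e hP b hb
  | sx c l r hl hr =>
    intro b hb x y t hx0 hx1 hy0 hy1 ht0 ht1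
    have hb : (chkTr P e l ⟨b.x0, c, b.y0, b.y1, b.t0, b.t1⟩ &&
      chkTr P e r ⟨c, b.x1, b.y0, b.y1, b.t0, b.t1⟩) = true := hb
    rw [Bool.and_eq_true] at hb
    rcases le_total (P.dx * x) (c : ℝ) with h | h
    · exact hl _ hb.1 x y t hx0 h hy0 hy1 ht0 ht1
    · exact hr _ hb.2 x y t h hx1 hy0 hy1 ht0 ht1
  | sy c l r hl hr =>
    intro b hb x y t hx0 hx1 hy0 hy1 ht0 ht1
    have hb : (chkTr P e l ⟨b.x0, b.x1, b.y0, c, b.t0, b.t1⟩ &&
      chkTr P e r ⟨b.x0, b.x1, c, b.y1, b.t0, b.t1⟩) = true := hb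
    rw [Bool.and_eq_true] at hb
    rcases le_total (P.dy * y) (c : ℝ) with h | h
    · exact hl _ hb.1 x y t hx0 hx1 hy0 h ht0 ht1
    · exact hr _ hb.2 x y t hx0 hx1 h hy1 ht0 ht1
  | st c l r hl hr =>
    intro b hb x y t hx0 hx1 hy0 hy1 ht0 ht1
    have hb : (chkTr P e l ⟨b.x0, b.x1, b.y0, b.y1, b.t0, c⟩ &&
      chkTr P e r ⟨b.x0, b.x1, b.y0, b.y1, c, b.t1⟩) = true := hb
    rw [Bool.and_eq_true] at hb
    rcases le_total (P.dt * t) (c : ℝ) with h | h
    · exact hl _ hb.1 x y t hx0 hx1 hy0 hy1 ht0 h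
    · exact hr _ hb.2 x y t hx0 hx1 hy0 hy1 h ht1

end BCH

end Pool.Agent.Lib.MP_f1379f_gt.FV
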