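import Pool.Agent.Lib.MP_f1379f_gt.FV.BCH

/-!
# Box checker with several inequalities (each leaf names the one it verifies)

`chkTm_sound`: on every box of the subdivision one of the polynomials `(ks k).2`, `k < n`, is
nonnegative; leaves `sk` (skip) are boxes on which `x < y`, so the conclusion is for `y ≤ x`.
-/

set_option autoImplicit false

namespace Pool.Agent.Lib.MP_f1379f_gt.FV

namespace BCH

/-- Subdivision with the kind of every leaf. -/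
inductive Tm
  | lf (k : ℕ)
  | sk
  | sx (c : ℤ) (l r : Tm)
  | sy (c : ℤ) (l r : Tm)
  | st (c : ℤ) (l r : Tm)

/-- `x1 / dx < y0 / dy` -/
def chkSk (dx dy : ℕ) (b : Bx) : Bool :=
  match Int.sub (Int.mul b.y0 (Int.ofNat dx)) (Int.mul b.x1 (Int.ofNat dy)) with
    | .ofNat n => Nat.blt 0 n
    | .negSucc _ => false

/-- Check of one leaf. -/
noncomputable def chkLf (ks : ℕ → Par × Ex) (n dx dy dt : ℕ) (k : ℕ) (b : Bx) : Bool :=
  Nat.blt k n && (Nat.beq (ks k).1.dx dx && (Nat.beq (ks k).1.dy dy && (Nat.beq (ks k).1.dt dt &&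
    chkBox (ks k).1 (ks k).2 b)))

/-- Check of all the leaves. -/
noncomputable def chkTm (ks : ℕ → Par × Ex) (n dx dy dt : ℕ) (T : Tm) : Bx → Bool :=
  Tm.rec (fun k b => chkLf ks n dx dy dt k b)
    (fun b => chkSk dx dy b)
    (fun c _ _ f g b => f ⟨b.x0, c, b.y0, b.y1, b.t0, b.t1⟩ && g ⟨c, b.x1, b.y0, b.y1, b.t0, b.t1⟩)
    (fun c _ _ f g b => f ⟨b.x0, b.x1, b.y0, c, b.t0, b.t1⟩ && g ⟨b.x0, b.x1, c, b.y1, b.t0, b.t1⟩)
    (fun c _ _ f g b => f ⟨b.x0, b.x1, b.y0, b.y1, b.t0, c⟩ && g ⟨b.x0, b.x1, b.y0, b.y1, c, b.t1⟩)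
    T

lemma gluem_x {ks : ℕ → Par × Ex} {n dx dy dt : ℕ} {l r : Tm} {x0 x1 y0 y1 t0 t1 c : ℤ}
    (hl : chkTm ks n dx dy dt l ⟨x0, c, y0, y1, t0, t1⟩ = true)
    (hr : chkTm ks n dx dy dt r ⟨c, x1, y0, y1, t0, t1⟩ = true) :
    chkTm ks n dx dy dt (.sx c l r) ⟨x0, x1, y0, y1, t0, t1⟩ = true :=
  (Bool.and_eq_true _ _).mpr ⟨hl, hr⟩

lemma gluem_y {ks : ℕ → Par × Ex} {n dx dy dt : ℕ} {l r : Tm} {x0 x1 y0 y1 t0 t1 c : ℤ}
    (hl : chkTm ks n dx dy dt l ⟨x0, x1, y0, c, t0, t1⟩ = true)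
    (hr : chkTm ks n dx dy dt r ⟨x0, x1, c, y1, t0, t1⟩ = true) :
    chkTm ks n dx dy dt (.sy c l r) ⟨x0, x1, y0, y1, t0, t1⟩ = true :=
  (Bool.and_eq_true _ _).mpr ⟨hl, hr⟩

lemma gluem_t {ks : ℕ → Par × Ex} {n dx dy dt : ℕ} {l r : Tm} {x0 x1 y0 y1 t0 t1 c : ℤ}
    (hl : chkTm ks n dx dy dt l ⟨x0, x1, y0, y1, t0, c⟩ = true)
    (hr : chkTm ks n dx dy dt r ⟨x0, x1, y0, y1, c, t1⟩ = true) :
    chkTm ks n dx dy dt (.st c l r) ⟨x0, x1, y0, y1, t0, t1⟩ = true :=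
  (Bool.and_eq_true _ _).mpr ⟨hl, hr⟩

lemma chkSk_lt {dx dy : ℕ} {b : Bx} (h : chkSk dx dy b = true) :
    b.x1 * dy < b.y0 * dx := by
  unfold chkSk at h
  have h2 : Int.sub (Int.mul b.y0 (Int.ofNat dx)) (Int.mul b.x1 (Int.ofNat dy)) =
    b.y0 * dx - b.x1 * dy := rfl
  rw [h2] at h
  rcases hba : b.y0 * dx - b.x1 * dy with n | n
  · rw [hba] at h
    simp only at h
    have h3 : 0 < n := by
      have := Nat.le_of_ble_eq_true h
      omega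
    have : b.y0 * dx - b.x1 * dy = (n : ℤ) := hba
    omega
  · rw [hba] at h
    exact absurd h (by simp)

/-- **Soundness of the checker with several polynomials.** -/
theorem chkTm_sound (ks : ℕ → Par × Ex) (n dx dy dt : ℕ) (hdx : 0 < dx) (hdy : 0 < dy)
    (hP : ∀ k < n, chkPar (ks k).1 (ks k).2 = true) (T : Tm) : ∀ b : Bx,
    chkTm ks n dx dy dt T b = true → ∀ x y t : ℝ, y ≤ x →
    (b.x0 : ℝ) ≤ dx * x → dx * x ≤ (b.x1 : ℝ) →
    (b.y0 : ℝ) ≤ dy * y → dy * y ≤ (b.y1 : ℝ) →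
    (b.t0 : ℝ) ≤ dt * t → dt * t ≤ (b.t1 : ℝ) → ∃ k < n, 0 ≤ val (ks k).2 x y t := by
  have hdx' : (0 : ℝ) < dx := by exact_mod_cast hdx
  have hdy' : (0 : ℝ) < dy := by exact_mod_cast hdy
  induction T with
  | lf k =>
    intro b hb x y t _ hx0 hx1 hy0 hy1 ht0 ht1
    have hb : chkLf ks n dx dy dt k b = true := hb
    unfold chkLf at hb
    simp only [Bool.and_eq_true] at hb
    obtain ⟨hk, h1, h2, h3, hb⟩ := hb
    have hk : k < n := Nat.le_of_ble_eq_true hk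
    have h1 := Nat.eq_of_beq_eq_true h1
    have h2 := Nat.eq_of_beq_eq_true h2
    have h3 := Nat.eq_of_beq_eq_true h3
    refine ⟨k, hk, chkBox_sound _ _ (hP k hk) b hb x y t ?_ ?_ ?_ ?_ ?_ ?_⟩
    · rw [h1]; exact hx0
    · rw [h1]; exact hx1
    · rw [h2]; exact hy0
    · rw [h2]; exact hy1
    · rw [h3]; exact ht0
    · rw [h3]; exact ht1
  | sk =>
    intro b hb x y t hyx hx0 hx1 hy0 hy1 ht0 ht1
    exfalso
    have h1 := chkSk_lt (show chkSk dx dy b = true from hb)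
    have h2 : (b.x1 : ℝ) * dy < b.y0 * dx := by exact_mod_cast h1
    have h3 : dx * x * dy ≤ b.x1 * dy := mul_le_mul_of_nonneg_right hx1 hdy'.le
    have h4 : (b.y0 : ℝ) * dx ≤ dy * y * dx := mul_le_mul_of_nonneg_right hy0 hdx'.le
    have h5 : dy * y * dx ≤ dy * x * (dx : ℝ) := by gcongr
    have h6 : dy * x * (dx : ℝ) = dx * x * dy := by ring
    linarith
  | sx c l r hl hr =>
    intro b hb x y t hyx hx0 hx1 hy0 hy1 ht0 ht1
    have hb : (chkTm ks n dx dy dt l ⟨b.x0, c, b.y0, b.y1, b.t0, b.t1⟩ &&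
      chkTm ks n dx dy dt r ⟨c, b.x1, b.y0, b.y1, b.t0, b.t1⟩) = true := hb
    rw [Bool.and_eq_true] at hb
    rcases le_total (dx * x) (c : ℝ) with h | h
    · exact hl _ hb.1 x y t hyx hx0 h hy0 hy1 ht0 ht1
    · exact hr _ hb.2 x y t hyx h hx1 hy0 hy1 ht0 ht1
  | sy c l r hl hr =>
    intro b hb x y t hyx hx0 hx1 hy0 hy1 ht0 ht1
    have hb : (chkTm ks n dx dy dt l ⟨b.x0, b.x1, b.y0, c, b.t0, b.t1⟩ &&
      chkTm ks n dx dy dt r ⟨b.x0, b.x1, c, b.y1, b.t0, b.t1⟩) = true := hb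
    rw [Bool.and_eq_true] at hb
    rcases le_total (dy * y) (c : ℝ) with h | h
    · exact hl _ hb.1 x y t hyx hx0 hx1 hy0 h ht0 ht1
    · exact hr _ hb.2 x y t hyx hx0 hx1 h hy1 ht0 ht1
  | st c l r hl hr =>
    intro b hb x y t hyx hx0 hx1 hy0 hy1 ht0 ht1
    have hb : (chkTm ks n dx dy dt l ⟨b.x0, b.x1, b.y0, b.y1, b.t0, c⟩ &&
      chkTm ks n dx dy dt r ⟨b.x0, b.x1, b.y0, b.y1, c, b.t1⟩) = true := hb
    rw [Bool.and_eq_true] at hb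
    rcases le_total (dt * t) (c : ℝ) with h | h
    · exact hl _ hb.1 x y t hyx hx0 hx1 hy0 hy1 ht0 h
    · exact hr _ hb.2 x y t hyx hx0 hx1 hy0 hy1 h ht1

end BCH

end Pool.Agent.Lib.MP_f1379f_gt.FV
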