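import Pool.Agent.Lib.MP_f1379f_gt.FV.CEX

/-!
# Data of the certificate: `A_k = L_k^T D_k L_k`
-/

set_option autoImplicit false
set_option linter.style.longLine false

namespace Pool.Agent.Lib.MP_f1379f_gt.FV.CJ

open Finset Pool.Agent.Lib.MP_f1379f_gt.FV

lemma zg_0 (p m : ℝ) : Zg 8 0 p m = 1 := by simp [Zg]
lemma zg_1 (p m : ℝ) : Zg 8 1 p m = p := by simp [Zg]
lemma zg_2 (p m : ℝ) : Zg 8 2 p m = (8 * (p * Zg 8 1 p m) - 1 * (m * Zg 8 0 p m)) / 7 := by
  rw [show Zg 8 2 p m = ((2 * ((0 : ℕ) : ℝ) + ((8 : ℕ) : ℝ)) * (p * Zg 8 1 p m) - (((0 : ℕ) : ℝ) + 1) * (m * Zg 8 0 p m)) / (((0 : ℕ) : ℝ) + ((8 : ℕ) : ℝ) - 1) from rfl]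
  norm_num
lemma zg_3 (p m : ℝ) : Zg 8 3 p m = (10 * (p * Zg 8 2 p m) - 2 * (m * Zg 8 1 p m)) / 8 := by
  rw [show Zg 8 3 p m = ((2 * ((1 : ℕ) : ℝ) + ((8 : ℕ) : ℝ)) * (p * Zg 8 2 p m) - (((1 : ℕ) : ℝ) + 1) * (m * Zg 8 1 p m)) / (((1 : ℕ) : ℝ) + ((8 : ℕ) : ℝ) - 1) from rfl]
  norm_num
lemma zg_4 (p m : ℝ) : Zg 8 4 p m = (12 * (p * Zg 8 3 p m) - 3 * (m * Zg 8 2 p m)) / 9 := by
  rw [show Zg 8 4 p m = ((2 * ((2 : ℕ) : ℝ) + ((8 : ℕ) : ℝ)) * (p * Zg 8 3 p m) - (((2 : ℕ) : ℝ) + 1) * (m * Zg 8 2 p m)) / (((2 : ℕ) : ℝ) + ((8 : ℕ) : ℝ) - 1) from rfl]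
  norm_num
lemma zg_5 (p m : ℝ) : Zg 8 5 p m = (14 * (p * Zg 8 4 p m) - 4 * (m * Zg 8 3 p m)) / 10 := by
  rw [show Zg 8 5 p m = ((2 * ((3 : ℕ) : ℝ) + ((8 : ℕ) : ℝ)) * (p * Zg 8 4 p m) - (((3 : ℕ) : ℝ) + 1) * (m * Zg 8 3 p m)) / (((3 : ℕ) : ℝ) + ((8 : ℕ) : ℝ) - 1) from rfl]
  norm_num
lemma zg_6 (p m : ℝ) : Zg 8 6 p m = (16 * (p * Zg 8 5 p m) - 5 * (m * Zg 8 4 p m)) / 11 := by
  rw [show Zg 8 6 p m = ((2 * ((4 : ℕ) : ℝ) + ((8 : ℕ) : ℝ)) * (p * Zg 8 5 p m) - (((4 : ℕ) : ℝ) + 1) * (m * Zg 8 4 p m)) / (((4 : ℕ) : ℝ) + ((8 : ℕ) : ℝ) - 1) from rfl]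
  norm_num
lemma zg_7 (p m : ℝ) : Zg 8 7 p m = (18 * (p * Zg 8 6 p m) - 6 * (m * Zg 8 5 p m)) / 12 := by
  rw [show Zg 8 7 p m = ((2 * ((5 : ℕ) : ℝ) + ((8 : ℕ) : ℝ)) * (p * Zg 8 6 p m) - (((5 : ℕ) : ℝ) + 1) * (m * Zg 8 5 p m)) / (((5 : ℕ) : ℝ) + ((8 : ℕ) : ℝ) - 1) from rfl]
  norm_num
lemma zg_8 (p m : ℝ) : Zg 8 8 p m = (20 * (p * Zg 8 7 p m) - 7 * (m * Zg 8 6 p m)) / 13 := by
  rw [show Zg 8 8 p m = ((2 * ((6 : ℕ) : ℝ) + ((8 : ℕ) : ℝ)) * (p * Zg 8 7 p m) - (((6 : ℕ) : ℝ) + 1) * (m * Zg 8 6 p m)) / (((6 : ℕ) : ℝ) + ((8 : ℕ) : ℝ) - 1) from rfl]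
  norm_num
lemma zg_9 (p m : ℝ) : Zg 8 9 p m = (22 * (p * Zg 8 8 p m) - 8 * (m * Zg 8 7 p m)) / 14 := by
  rw [show Zg 8 9 p m = ((2 * ((7 : ℕ) : ℝ) + ((8 : ℕ) : ℝ)) * (p * Zg 8 8 p m) - (((7 : ℕ) : ℝ) + 1) * (m * Zg 8 7 p m)) / (((7 : ℕ) : ℝ) + ((8 : ℕ) : ℝ) - 1) from rfl]
  norm_num
lemma zg_10 (p m : ℝ) : Zg 8 10 p m = (24 * (p * Zg 8 9 p m) - 9 * (m * Zg 8 8 p m)) / 15 := by
  rw [show Zg 8 10 p m = ((2 * ((8 : ℕ) : ℝ) + ((8 : ℕ) : ℝ)) * (p * Zg 8 9 p m) - (((8 : ℕ) : ℝ) + 1) * (m * Zg 8 8 p m)) / (((8 : ℕ) : ℝ) + ((8 : ℕ) : ℝ) - 1) from rfl]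
  norm_num
lemma zg_11 (p m : ℝ) : Zg 8 11 p m = (26 * (p * Zg 8 10 p m) - 10 * (m * Zg 8 9 p m)) / 16 := by
  rw [show Zg 8 11 p m = ((2 * ((9 : ℕ) : ℝ) + ((8 : ℕ) : ℝ)) * (p * Zg 8 10 p m) - (((9 : ℕ) : ℝ) + 1) * (m * Zg 8 9 p m)) / (((9 : ℕ) : ℝ) + ((8 : ℕ) : ℝ) - 1) from rfl]
  norm_num
lemma zg_12 (p m : ℝ) : Zg 8 12 p m = (28 * (p * Zg 8 11 p m) - 11 * (m * Zg 8 10 p m)) / 17 := by
  rw [show Zg 8 12 p m = ((2 * ((10 : ℕ) : ℝ) + ((8 : ℕ) : ℝ)) * (p * Zg 8 11 p m) - (((10 : ℕ) : ℝ) + 1) * (m * Zg 8 10 p m)) / (((10 : ℕ) : ℝ) + ((8 : ℕ) : ℝ) - 1) from rfl]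
  norm_num

/-- weights -/
noncomputable def cw : ℕ → ℕ → ℝ
  | 0, 0 => (38571 / 80000000)
  | 0, 1 => (108031 / 10000000000)
  | 0, 2 => (1337699 / 10000000000)
  | 0, 3 => (49197 / 2000000000)
  | 1, 0 => (45202012351 / 14745600000000)
  | 1, 1 => (36499757 / 5000000000)
  | 1, 2 => (2483843 / 1250000000)
  | 1, 3 => (124278643 / 10000000000)
  | 2, 0 => (5414819557 / 589824000000)
  | 2, 1 => (79216547 / 10000000000)
  | 2, 2 => (2882183 / 1250000000)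
  | 2, 3 => (96052457 / 5000000000)
  | 3, 0 => (253290704099 / 14745600000000)
  | 3, 1 => (270753923 / 10000000000)
  | 3, 2 => (882871 / 312500000)
  | 3, 3 => (18962931 / 625000000)
  | 4, 0 => (64116972647 / 2949120000000)
  | 4, 1 => (120541713 / 10000000000)
  | 4, 2 => (28668823 / 2000000000)
  | 4, 3 => (524768601 / 10000000000)
  | 5, 0 => (81818021363 / 4423680000000)
  | 5, 1 => (76243119 / 5000000000)
  | 5, 2 => (98548837 / 2500000000)
  | 5, 3 => (875052287 / 10000000000)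
  | 6, 0 => (27206140283 / 2949120000000)
  | 6, 1 => (350927881 / 10000000000)
  | 6, 2 => (391489029 / 10000000000)
  | 6, 3 => (1439790269 / 10000000000)
  | 7, 0 => (2756778307 / 1769472000000)
  | 7, 1 => (114093241 / 2500000000)
  | 7, 2 => (231141923 / 5000000000)
  | 7, 3 => (97121073 / 200000000)
  | 8, 1 => (10734987 / 2000000000)
  | 8, 2 => (2763798293 / 10000000000)
  | 8, 3 => (11 / 10000000000)
  | 9, 0 => (402073763 / 327680000000)
  | 9, 1 => (19747373 / 2500000000)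
  | 9, 2 => (83500187 / 400000000)
  | 9, 3 => (104170121 / 10000000000)
  | 10, 0 => (293384637 / 327680000000)
  | 10, 1 => (20317067 / 10000000000)
  | 10, 2 => (73498137 / 5000000000)
  | 10, 3 => (277382343 / 5000000000)
  | 11, 0 => (65793 / 81920000000)
  | 11, 1 => (15120869 / 10000000000)
  | 11, 2 => (9713871 / 312500000)
  | 11, 3 => (43732779 / 10000000000)
  | _, _ => 0

/-- vectors, degree 0 -/
noncomputable def cL0 : ℕ → ℕ → ℝ
  | 0, 0 => 1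
  | 0, 1 => (1057 / 2000)
  | 0, 2 => (40901 / 10000)
  | 0, 3 => ((-14041) / 2500)
  | 1, 1 => 1
  | 1, 2 => ((-86833) / 10000)
  | 1, 3 => (90951 / 10000)
  | 2, 2 => 1
  | 2, 3 => ((-711) / 625)
  | 3, 3 => 1
  | _, _ => 0

/-- vectors, degree 1 -/
noncomputable def cL1 : ℕ → ℕ → ℝ
  | 0, 0 => 1
  | 0, 1 => (10673 / 10000)
  | 0, 2 => (40763 / 10000)
  | 0, 3 => ((-38839) / 10000)
  | 1, 1 => 1
  | 1, 2 => ((-3669) / 400)
  | 1, 3 => (3233 / 625)
  | 2, 2 => 1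
  | 2, 3 => ((-38417) / 5000)
  | 3, 3 => 1
  | _, _ => 0

/-- vectors, degree 2 -/
noncomputable def cL2 : ℕ → ℕ → ℝ
  | 0, 0 => 1
  | 0, 1 => (7417 / 5000)
  | 0, 2 => (52223 / 10000)
  | 0, 3 => ((-42373) / 10000)
  | 1, 1 => 1
  | 1, 2 => ((-10777) / 1250)
  | 1, 3 => (23 / 50)
  | 2, 2 => 1
  | 2, 3 => ((-4632) / 625)
  | 3, 3 => 1
  | _, _ => 0

/-- vectors, degree 3 -/
noncomputable def cL3 : ℕ → ℕ → ℝ
  | 0, 0 => 1
  | 0, 1 => (20731 / 10000)
  | 0, 2 => (55143 / 10000)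
  | 0, 3 => ((-168) / 125)
  | 1, 1 => 1
  | 1, 2 => ((-9887) / 1250)
  | 1, 3 => ((-56581) / 10000)
  | 2, 2 => 1
  | 2, 3 => ((-71719) / 10000)
  | 3, 3 => 1
  | _, _ => 0

/-- vectors, degree 4 -/
noncomputable def cL4 : ℕ → ℕ → ℝ
  | 0, 0 => 1
  | 0, 1 => (23621 / 10000)
  | 0, 2 => (11113 / 1250)
  | 0, 3 => ((-1983) / 10000)
  | 1, 1 => 1
  | 1, 2 => ((-62741) / 10000)
  | 1, 3 => ((-19647) / 1000)
  | 2, 2 => 1
  | 2, 3 => ((-82141) / 10000)
  | 3, 3 => 1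
  | _, _ => 0

/-- vectors, degree 5 -/
noncomputable def cL5 : ℕ → ℕ → ℝ
  | 0, 0 => 1
  | 0, 1 => (29029 / 10000)
  | 0, 2 => (59681 / 5000)
  | 0, 3 => (44603 / 5000)
  | 1, 1 => 1
  | 1, 2 => ((-7539) / 2000)
  | 1, 3 => ((-20553) / 500)
  | 2, 2 => 1
  | 2, 3 => ((-10519) / 1250)
  | 3, 3 => 1
  | _, _ => 0

/-- vectors, degree 6 -/
noncomputable def cL6 : ℕ → ℕ → ℝ
  | 0, 0 => 1
  | 0, 1 => (6337 / 2000)
  | 0, 2 => (104261 / 5000)
  | 0, 3 => (270531 / 10000)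
  | 1, 1 => 1
  | 1, 2 => ((-17267) / 1250)
  | 1, 3 => (22483 / 500)
  | 2, 2 => 1
  | 2, 3 => ((-1993) / 250)
  | 3, 3 => 1
  | _, _ => 0

/-- vectors, degree 7 -/
noncomputable def cL7 : ℕ → ℕ → ℝ
  | 0, 0 => 1
  | 0, 1 => (50677 / 10000)
  | 0, 2 => (20803 / 500)
  | 0, 3 => (1564171 / 10000)
  | 1, 1 => 1
  | 1, 2 => ((-72099) / 5000)
  | 1, 3 => (502087 / 10000)
  | 2, 2 => 1
  | 2, 3 => ((-67949) / 10000)
  | 3, 3 => 1
  | _, _ => 0

/-- vectors, degree 8 -/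
noncomputable def cL8 : ℕ → ℕ → ℝ
  | 1, 1 => 1
  | 1, 2 => ((-71541) / 2500)
  | 1, 3 => (107384 / 625)
  | 2, 2 => 1
  | 2, 3 => ((-42857) / 5000)
  | 3, 3 => 1
  | _, _ => 0

/-- vectors, degree 9 -/
noncomputable def cL9 : ℕ → ℕ → ℝ
  | 0, 0 => 1
  | 0, 1 => (28307 / 5000)
  | 0, 2 => ((-21607) / 2000)
  | 0, 3 => ((-1171973) / 5000)
  | 1, 1 => 1
  | 1, 2 => ((-12118) / 625)
  | 1, 3 => (463897 / 5000)
  | 2, 2 => 1
  | 2, 3 => ((-85319) / 10000)
  | 3, 3 => 1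
  | _, _ => 0

/-- vectors, degree 10 -/
noncomputable def cL10 : ℕ → ℕ → ℝ
  | 0, 0 => 1
  | 0, 1 => (5151 / 400)
  | 0, 2 => ((-15363) / 625)
  | 0, 3 => ((-306503) / 1000)
  | 1, 1 => 1
  | 1, 2 => ((-19641) / 2000)
  | 1, 3 => (129239 / 10000)
  | 2, 2 => 1
  | 2, 3 => ((-61383) / 10000)
  | 3, 3 => 1
  | _, _ => 0

/-- vectors, degree 11 -/
noncomputable def cL11 : ℕ → ℕ → ℝ
  | 0, 0 => 1
  | 0, 2 => (1 / 10000)
  | 0, 3 => ((-2) / 625)
  | 1, 1 => 1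
  | 1, 2 => ((-104777) / 10000)
  | 1, 3 => (40947 / 2500)
  | 2, 2 => 1
  | 2, 3 => ((-85513) / 10000)
  | 3, 3 => 1
  | _, _ => 0

/-- vectors -/
noncomputable def cL : ℕ → ℕ → ℕ → ℝ
  | 0 => cL0
  | 1 => cL1
  | 2 => cL2
  | 3 => cL3
  | 4 => cL4
  | 5 => cL5
  | 6 => cL6
  | 7 => cL7
  | 8 => cL8
  | 9 => cL9
  | 10 => cL10
  | 11 => cL11
  | _ => fun _ _ => 0

/-- matrices -/
noncomputable def cA (k i j : ℕ) : ℝ := ∑ c ∈ range 4, cw k c * cL k c i * cL k c j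

lemma cA_symm (k i j : ℕ) : cA k i j = cA k j i := by
  unfold cA
  exact sum_congr rfl fun c _ => by ring

lemma cw_nonneg (k c : ℕ) : 0 ≤ cw k c := by
  unfold cw
  split <;> norm_num

/-- quadratic form, degree 0 -/
noncomputable def qf0 (x y : ℝ) : ℝ := (38571 / 80000000) * x ^ 0 * y ^ 0 + (40769547 / 160000000000) * x ^ 0 * y ^ 1 + (1577592471 / 800000000000) * x ^ 0 * y ^ 2 + ((-541575411) / 200000000000) * x ^ 0 * y ^ 3 + (40769547 / 160000000000) * x ^ 1 * y ^ 0 + (46550403179 / 320000000000000) * x ^ 1 * y ^ 1 + (1517424748679 / 1600000000000000) * x ^ 1 * y ^ 2 + ((-533143099503) / 400000000000000) * x ^ 1 * y ^ 3 + (1577592471 / 800000000000) * x ^ 2 * y ^ 0 + (1517424748679 / 1600000000000000) * x ^ 2 * y ^ 1 + (4506979547062467 / 500000000000000000) * x ^ 2 * y ^ 2 + ((-12080844608653173) / 1000000000000000000) * x ^ 2 * y ^ 3 + ((-541575411) / 200000000000) * x ^ 3 * y ^ 0 + ((-533143099503)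 / 400000000000000) * x ^ 3 * y ^ 1 + ((-12080844608653173) / 1000000000000000000) * x ^ 3 * y ^ 2 + (3259975377057651 / 200000000000000000) * x ^ 3 * y ^ 3

lemma qf0_eq (x y : ℝ) : ∑ i ∈ range 4, ∑ j ∈ range 4, cA 0 i j * x ^ i * y ^ j = qf0 x y := by
  unfold cA
  rw [quad_ldl]
  simp only [sum_range_succ, sum_range_zero, cw, cL, cL0]
  unfold qf0
  ring

/-- quadratic form, degree 1 -/
noncomputable def qf1 (x y : ℝ) : ℝ := (45202012351 / 14745600000000) * x ^ 0 * y ^ 0 + (482441077822223 / 147456000000000000) * x ^ 0 * y ^ 1 + (1842569629463813 / 147456000000000000) * x ^ 0 * y ^ 2 + ((-1755600957700489) / 147456000000000000) * x ^ 0 * y ^ 3 + (482441077822223 / 147456000000000000) * x ^ 1 * y ^ 0 + (15913309959980586079 / 1474560000000000000000) * x ^ 1 * y ^ 1 + ((-79069028690214963851) / 1474560000000000000000) * x ^ 1 * y ^ 2 + (36943609243309836103 / 1474560000000000000000) * x ^ 1 * y ^ 3 + (1842569629463813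 / 147456000000000000) * x ^ 2 * y ^ 0 + ((-79069028690214963851) / 1474560000000000000000) * x ^ 2 * y ^ 1 + (983683443917033255719 / 1474560000000000000000) * x ^ 2 * y ^ 2 + ((-604811628859895781779) / 1474560000000000000000) * x ^ 2 * y ^ 3 + ((-1755600957700489) / 147456000000000000) * x ^ 3 * y ^ 0 + (36943609243309836103 / 1474560000000000000000) * x ^ 3 * y ^ 1 + ((-604811628859895781779) / 1474560000000000000000) * x ^ 3 * y ^ 2 + (2737569293435233922987 / 7372800000000000000000) * x ^ 3 * y ^ 3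

lemma qf1_eq (x y : ℝ) : ∑ i ∈ range 4, ∑ j ∈ range 4, cA 1 i j * x ^ i * y ^ j = qf1 x y := by
  unfold cA
  rw [quad_ldl]
  simp only [sum_range_succ, sum_range_zero, cw, cL, cL1]
  unfold qf1
  ring

/-- quadratic form, degree 2 -/
noncomputable def qf2 (x y : ℝ) : ℝ := (5414819557 / 589824000000) * x ^ 0 * y ^ 0 + (40161716654269 / 2949120000000000) * x ^ 0 * y ^ 1 + (282778121725211 / 5898240000000000) * x ^ 0 * y ^ 2 + ((-229442149088761) / 5898240000000000) * x ^ 0 * y ^ 3 + (40161716654269 / 2949120000000000) * x ^ 1 * y ^ 0 + (414689003969033173 / 14745600000000000000) * x ^ 1 * y ^ 1 + (83194869646871363 / 29491200000000000000) * x ^ 1 * y ^ 2 + ((-1594307632370565937) / 29491200000000000000) * x ^ 1 * y ^ 3 + (282778121725211 / 5898240000000000) * x ^ 2 * y ^ 0 + (83194869646871363 / 29491200000000000000) * x ^ 2 * y ^ 1 + (31021415230754462493973 / 36864000000000000000000) * x ^ 2 * y ^ 2 +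 ((-371077648371437911727) / 1474560000000000000000) * x ^ 2 * y ^ 3 + ((-229442149088761) / 5898240000000000) * x ^ 3 * y ^ 0 + ((-1594307632370565937) / 29491200000000000000) * x ^ 3 * y ^ 1 + ((-371077648371437911727) / 1474560000000000000000) * x ^ 3 * y ^ 2 + (11514960197149925761549 / 36864000000000000000000) * x ^ 3 * y ^ 3

lemma qf2_eq (x y : ℝ) : ∑ i ∈ range 4, ∑ j ∈ range 4, cA 2 i j * x ^ i * y ^ j = qf2 x y := by
  unfold cA
  rw [quad_ldl]
  simp only [sum_range_succ, sum_range_zero, cw, cL, cL2]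
  unfold qf2
  ring

/-- quadratic form, degree 3 -/
noncomputable def qf3 (x y : ℝ) : ℝ := (253290704099 / 14745600000000) * x ^ 0 * y ^ 0 + (5250969586676369 / 147456000000000000) * x ^ 0 * y ^ 1 + (1551912144014573 / 16384000000000000) * x ^ 0 * y ^ 2 + ((-1773034928693) / 76800000000000) * x ^ 0 * y ^ 3 + (5250969586676369 / 147456000000000000) * x ^ 1 * y ^ 0 + (148782140971275805739 / 1474560000000000000000) * x ^ 1 * y ^ 1 + ((-2914550220281234337) / 163840000000000000000) * x ^ 1 * y ^ 2 + ((-154410759975314423) / 768000000000000000) * x ^ 1 * y ^ 3 + (1551912144014573 / 16384000000000000) * x ^ 2 * y ^ 0 + ((-2914550220281234337) / 163840000000000000000) * x ^ 2 * y ^ 1 + (9089150261891624408803 / 4096000000000000000000) * x ^ 2 * y ^ 2 + (34052675557800281811 / 32000000000000000000) * x ^ 2 * y ^ 3 + ((-1773034928693) / 76800000000000) * x ^ 3 * y ^ 0 + ((-154410759975314423) / 768000000000000000)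 * x ^ 3 * y ^ 1 + (34052675557800281811 / 32000000000000000000) * x ^ 3 * y ^ 2 + (214695950023608459 / 200000000000000000) * x ^ 3 * y ^ 3

lemma qf3_eq (x y : ℝ) : ∑ i ∈ range 4, ∑ j ∈ range 4, cA 3 i j * x ^ i * y ^ j = qf3 x y := by
  unfold cA
  rw [quad_ldl]
  simp only [sum_range_succ, sum_range_zero, cw, cL, cL3]
  unfold qf3
  ring

/-- quadratic form, degree 4 -/
noncomputable def qf4 (x y : ℝ) : ℝ := (64116972647 / 2949120000000) * x ^ 0 * y ^ 0 + (1514507010894787 / 29491200000000000) * x ^ 0 * y ^ 1 + (712531917026111 / 3686400000000000) * x ^ 0 * y ^ 2 + ((-42381318919667) / 9830400000000000) * x ^ 0 * y ^ 3 + (1514507010894787 / 29491200000000000) * x ^ 1 * y ^ 0 + (39329089870771363727 / 294912000000000000000) * x ^ 1 * y ^ 1 + (14042726148757410811 / 36864000000000000000) * x ^ 1 * y ^ 2 + ((-24282258684522708607) / 98304000000000000000) * x ^ 1 * y ^ 3 + (712531917026111 / 3686400000000000)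 * x ^ 2 * y ^ 0 + (14042726148757410811 / 36864000000000000000) * x ^ 2 * y ^ 1 + (1271367046998414508603 / 576000000000000000000) * x ^ 2 * y ^ 2 + (408518070197553605197 / 307200000000000000000) * x ^ 2 * y ^ 3 + ((-42381318919667) / 9830400000000000) * x ^ 3 * y ^ 0 + ((-24282258684522708607) / 98304000000000000000) * x ^ 3 * y ^ 1 + (408518070197553605197 / 307200000000000000000) * x ^ 3 * y ^ 2 + (4647699111108375643863 / 819200000000000000000) * x ^ 3 * y ^ 3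

lemma qf4_eq (x y : ℝ) : ∑ i ∈ range 4, ∑ j ∈ range 4, cA 4 i j * x ^ i * y ^ j = qf4 x y := by
  unfold cA
  rw [quad_ldl]
  simp only [sum_range_succ, sum_range_zero, cw, cL, cL4]
  unfold qf4
  ring

/-- quadratic form, degree 5 -/
noncomputable def qf5 (x y : ℝ) : ℝ := (81818021363 / 4423680000000) * x ^ 0 * y ^ 0 + (2375095342146527 / 44236800000000000) * x ^ 0 * y ^ 1 + (4882981332965203 / 22118400000000000) * x ^ 0 * y ^ 2 + (3649329206853889 / 22118400000000000) * x ^ 0 * y ^ 3 + (2375095342146527 / 44236800000000000) * x ^ 1 * y ^ 0 + (75692145900329932283 / 442368000000000000000) * x ^ 1 * y ^ 1 + (129034477933646583487 / 221184000000000000000) * x ^ 1 * y ^ 2 + ((-32703949994283051419) / 221184000000000000000) * x ^ 1 * y ^ 3 + (4882981332965203 / 22118400000000000) * x ^ 2 * y ^ 0 + (129034477933646583487 / 221184000000000000000) * x ^ 2 * y ^ 1 + (1598713137823440925567 / 552960000000000000000)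 * x ^ 2 * y ^ 2 + (2212060169662825079461 / 552960000000000000000) * x ^ 2 * y ^ 3 + (3649329206853889 / 22118400000000000) * x ^ 3 * y ^ 0 + ((-32703949994283051419) / 221184000000000000000) * x ^ 3 * y ^ 1 + (2212060169662825079461 / 552960000000000000000) * x ^ 3 * y ^ 2 + (416330322667555189432783 / 13824000000000000000000) * x ^ 3 * y ^ 3

lemma qf5_eq (x y : ℝ) : ∑ i ∈ range 4, ∑ j ∈ range 4, cA 5 i j * x ^ i * y ^ j = qf5 x y := by
  unfold cA
  rw [quad_ldl]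
  simp only [sum_range_succ, sum_range_zero, cw, cL, cL5]
  unfold qf5
  ring

/-- quadratic form, degree 6 -/
noncomputable def qf6 (x y : ℝ) : ℝ := (27206140283 / 2949120000000) * x ^ 0 * y ^ 0 + (172405310973371 / 5898240000000000) * x ^ 0 * y ^ 1 + (2836539392045863 / 14745600000000000) * x ^ 0 * y ^ 2 + (817789370766697 / 3276800000000000) * x ^ 0 * y ^ 3 + (172405310973371 / 5898240000000000) * x ^ 1 * y ^ 0 + (1506503828604140027 / 11796480000000000000) * x ^ 1 * y ^ 1 + (3679062733390657639 / 29491200000000000000) * x ^ 1 * y ^ 2 + (15523796107428625449 / 6553600000000000000) * x ^ 1 * y ^ 3 + (2836539392045863 / 14745600000000000) * x ^ 2 * y ^ 0 + (3679062733390657639 / 29491200000000000000) * x ^ 2 * y ^ 1 + (99040985741454779507191 / 9216000000000000000000) * x ^ 2 * y ^ 2 + ((-6924549385541681046651) / 409600000000000000000) * x ^ 2 * y ^ 3 + (817789370766697 / 3276800000000000) * x ^ 3 * y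 ^ 0 + (15523796107428625449 / 6553600000000000000) * x ^ 3 * y ^ 1 + ((-6924549385541681046651) / 409600000000000000000) * x ^ 3 * y ^ 2 + (13162771619707345316583 / 163840000000000000000) * x ^ 3 * y ^ 3

lemma qf6_eq (x y : ℝ) : ∑ i ∈ range 4, ∑ j ∈ range 4, cA 6 i j * x ^ i * y ^ j = qf6 x y := by
  unfold cA
  rw [quad_ldl]
  simp only [sum_range_succ, sum_range_zero, cw, cL, cL6]
  unfold qf6
  ring

/-- quadratic form, degree 7 -/
noncomputable def qf7 (x y : ℝ) : ℝ := (2756778307 / 1769472000000) * x ^ 0 * y ^ 0 + (139705254263839 / 17694720000000000) * x ^ 0 * y ^ 1 + (57349259120521 / 884736000000000) * x ^ 0 * y ^ 2 + (4312072681238497 / 17694720000000000) * x ^ 0 * y ^ 3 + (139705254263839 / 17694720000000000) * x ^ 1 * y ^ 0 + (15155234983878649003 / 176947200000000000000) * x ^ 1 * y ^ 1 + ((-14579941696004147311) / 44236800000000000000) * x ^ 1 * y ^ 2 + (124795566443223042833 / 35389440000000000000)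 * x ^ 1 * y ^ 3 + (57349259120521 / 884736000000000) * x ^ 2 * y ^ 0 + ((-14579941696004147311) / 44236800000000000000) * x ^ 2 * y ^ 1 + (84551404764503220148147 / 6912000000000000000000) * x ^ 2 * y ^ 2 + ((-641887521089740400522497) / 27648000000000000000000) * x ^ 2 * y ^ 3 + (4312072681238497 / 17694720000000000) * x ^ 3 * y ^ 0 + (124795566443223042833 / 35389440000000000000) * x ^ 3 * y ^ 1 + ((-641887521089740400522497) / 27648000000000000000000) * x ^ 3 * y ^ 2 + (17228615944264760929152379 / 110592000000000000000000) * x ^ 3 * y ^ 3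

lemma qf7_eq (x y : ℝ) : ∑ i ∈ range 4, ∑ j ∈ range 4, cA 7 i j * x ^ i * y ^ j = qf7 x y := by
  unfold cA
  rw [quad_ldl]
  simp only [sum_range_succ, sum_range_zero, cw, cL, cL7]
  unfold qf7
  ring

/-- quadratic form, degree 8 -/
noncomputable def qf8 (x y : ℝ) : ℝ := (10734987 / 2000000000) * x ^ 1 * y ^ 1 + ((-767991704967) / 5000000000000) * x ^ 1 * y ^ 2 + (144095730501 / 156250000000) * x ^ 1 * y ^ 3 + ((-767991704967) / 5000000000000) * x ^ 2 * y ^ 1 + (58397642431294147 / 12500000000000000) * x ^ 2 * y ^ 2 + ((-179746055422740281) / 6250000000000000) * x ^ 2 * y ^ 3 + (144095730501 / 156250000000) * x ^ 3 * y ^ 1 + ((-179746055422740281) / 6250000000000000) * x ^ 3 * y ^ 2 + (44688684735281602597 / 250000000000000000) * x ^ 3 * y ^ 3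

lemma qf8_eq (x y : ℝ) : ∑ i ∈ range 4, ∑ j ∈ range 4, cA 8 i j * x ^ i * y ^ j = qf8 x y := by
  unfold cA
  rw [quad_ldl]
  simp only [sum_range_succ, sum_range_zero, cw, cL, cL8]
  unfold qf8
  ring

/-- quadratic form, degree 9 -/
noncomputable def qf9 (x y : ℝ) : ℝ := (402073763 / 327680000000) * x ^ 0 * y ^ 0 + (11381502009241 / 1638400000000000) * x ^ 0 * y ^ 1 + ((-8687607797141) / 655360000000000) * x ^ 0 * y ^ 2 + ((-471219594244399) / 1638400000000000) * x ^ 0 * y ^ 3 + (11381502009241 / 1638400000000000) * x ^ 1 * y ^ 0 + (386884369221984987 / 8192000000000000000) * x ^ 1 * y ^ 1 + ((-149553157988452483) / 655360000000000000) * x ^ 1 * y ^ 2 + ((-7335225839682318333) / 8192000000000000000) * x ^ 1 * y ^ 3 + ((-8687607797141) / 655360000000000) * x ^ 2 * y ^ 0 + ((-149553157988452483) / 655360000000000000) * x ^ 2 * y ^ 1 + (13604377286836538773583 / 4096000000000000000000) * x ^ 2 * y ^ 2 +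 ((-26384627895337605554727) / 2048000000000000000000) * x ^ 2 * y ^ 3 + ((-471219594244399) / 1638400000000000) * x ^ 3 * y ^ 0 + ((-7335225839682318333) / 8192000000000000000) * x ^ 3 * y ^ 1 + ((-26384627895337605554727) / 2048000000000000000000) * x ^ 3 * y ^ 2 + (154229234083206361916863 / 1024000000000000000000) * x ^ 3 * y ^ 3

lemma qf9_eq (x y : ℝ) : ∑ i ∈ range 4, ∑ j ∈ range 4, cA 9 i j * x ^ i * y ^ j = qf9 x y := by
  unfold cA
  rw [quad_ldl]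
  simp only [sum_range_succ, sum_range_zero, cw, cL, cL9]
  unfold qf9
  ring

/-- quadratic form, degree 10 -/
noncomputable def qf10 (x y : ℝ) : ℝ := (293384637 / 327680000000) * x ^ 0 * y ^ 0 + (1511224265187 / 131072000000000) * x ^ 0 * y ^ 1 + ((-4507268178231) / 204800000000000) * x ^ 0 * y ^ 2 + ((-89923271394411) / 327680000000000) * x ^ 0 * y ^ 3 + (1511224265187 / 131072000000000) * x ^ 1 * y ^ 0 + (7890836134211197 / 52428800000000000) * x ^ 1 * y ^ 1 + ((-24851436999098793) / 81920000000000000) * x ^ 1 * y ^ 2 + ((-11493828454610754541) / 3276800000000000000) * x ^ 1 * y ^ 3 + ((-4507268178231) / 204800000000000) * x ^ 2 * y ^ 0 + ((-24851436999098793) / 81920000000000000) * x ^ 2 * y ^ 1 + (481036641875486697 / 640000000000000000) * x ^ 2 * y ^ 2 + (163775215603287933501 / 25600000000000000000) * x ^ 2 * y ^ 3 + ((-89923271394411) / 327680000000000) * x ^ 3 * y ^ 0 + ((-11493828454610754541)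 / 3276800000000000000) * x ^ 3 * y ^ 1 + (163775215603287933501 / 25600000000000000000) * x ^ 3 * y ^ 2 + (87101934950859577007057 / 1024000000000000000000) * x ^ 3 * y ^ 3

lemma qf10_eq (x y : ℝ) : ∑ i ∈ range 4, ∑ j ∈ range 4, cA 10 i j * x ^ i * y ^ j = qf10 x y := by
  unfold cA
  rw [quad_ldl]
  simp only [sum_range_succ, sum_range_zero, cw, cL, cL10]
  unfold qf10
  ring

/-- quadratic form, degree 11 -/
noncomputable def qf11 (x y : ℝ) : ℝ := (65793 / 81920000000) * x ^ 0 * y ^ 0 + (65793 / 819200000000000) * x ^ 0 * y ^ 2 + ((-65793) / 25600000000000) * x ^ 0 * y ^ 3 + (15120869 / 10000000000) * x ^ 1 * y ^ 1 + ((-1584319291213) / 100000000000000) * x ^ 1 * y ^ 2 + (619154222943 / 25000000000000) * x ^ 1 * y ^ 3 + (65793 / 819200000000000) * x ^ 2 * y ^ 0 + ((-1584319291213) / 100000000000000) * x ^ 2 * y ^ 1 + (201814640205242913149 / 1024000000000000000000) * x ^ 2 * y ^ 2 + ((-16809741066649979133)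 / 32000000000000000000) * x ^ 2 * y ^ 3 + ((-65793) / 25600000000000) * x ^ 3 * y ^ 0 + (619154222943 / 25000000000000) * x ^ 3 * y ^ 1 + ((-16809741066649979133) / 32000000000000000000) * x ^ 3 * y ^ 2 + (2683050879125846829 / 1000000000000000000) * x ^ 3 * y ^ 3

lemma qf11_eq (x y : ℝ) : ∑ i ∈ range 4, ∑ j ∈ range 4, cA 11 i j * x ^ i * y ^ j = qf11 x y := by
  unfold cA
  rw [quad_ldl]
  simp only [sum_range_succ, sum_range_zero, cw, cL, cL11]
  unfold qf11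
  ring

lemma sum_n (g : ℕ → ℝ) : ∑ k ∈ range (11 + 1), g k = g 0 + g 1 + g 2 + g 3 + g 4 + g 5 + g 6 + g 7 + g 8 + g 9 + g 10 + g 11 := by
  simp only [sum_range_succ, sum_range_zero, zero_add]

lemma Kt_eq (x y p m : ℝ) : Kt 11 4 cA x y p m =
    qf0 x y * Zg 8 0 p m + qf1 x y * Zg 8 1 p m + qf2 x y * Zg 8 2 p m + qf3 x y * Zg 8 3 p m + qf4 x y * Zg 8 4 p m + qf5 x y * Zg 8 5 p m + qf6 x y * Zg 8 6 p m + qf7 x y * Zg 8 7 p m + qf8 x y * Zg 8 8 p m + qf9 x y * Zg 8 9 p m + qf10 x y * Zg 8 10 p m + qf11 x y * Zg 8 11 p m := by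
  unfold Kt
  rw [sum_n, qf0_eq, qf1_eq, qf2_eq, qf3_eq, qf4_eq, qf5_eq, qf6_eq, qf7_eq, qf8_eq, qf9_eq, qf10_eq, qf11_eq]


/-- Kernel in the coordinates `x, y, T`. -/
noncomputable def Ktx (x y T : ℝ) : ℝ :=
  Kt 11 4 cA x y (T - 2 / 25 * x * y) ((1 - 2 / 5 * x) * (1 - 2 / 5 * y))

/-- With the factor `r^3 r'^3`. -/
noncomputable def K3 (x y T : ℝ) : ℝ := (1 - x) ^ 3 * (1 - y) ^ 3 * Ktx x y T

lemma Ktx_symm (x y T : ℝ) : Ktx x y T = Ktx y x T := by
  unfold Ktx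
  rw [Kt_symm _ _ _ cA_symm]
  congr 1 <;> ring

lemma K3_symm (x y T : ℝ) : K3 x y T = K3 y x T := by
  unfold K3
  rw [Ktx_symm]
  ring

end Pool.Agent.Lib.MP_f1379f_gt.FV.CJ
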