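import Pool.Agent.Lib.MP_f1379f_gt.FV.CEX

/-!
# Data of the certificate: `A_k = L_k^T D_k L_k`
-/

set_option autoImplicit false
set_option linter.style.longLine false

namespace Pool.Agent.Lib.MP_f1379f_gt.FV.CK2

open Finset Pool.Agent.Lib.MP_f1379f_gt.FV

lemma zg_0 (p m : ℝ) : Zg 8 0 p m = 1 := by simp [Zg]
lemma zg_1 (p m : ℝ) : Zg 8 1 p m = p := by simp [Zg]
lemma zg_2 (p m : ℝ) : Zg 8 2 p m = (8 * (p * Zg 8 1 p m) - 1 * (m * Zg 8 0 p m)) / 7 := by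
  rw [show Zg 8 2 p m = ((2 * ((0 : ℕ) : ℝ) + ((8 : ℕ) : ℝ)) * (p * Zg 8 1 p m) - (((0 : ℕ) : ℝ) + 1) * (m * Zg 8 0 p m)) / (((0 : ℕ) : ℝ) + ((8 : ℕ) : ℝ) - 1) from rfl]
  norm_num
lemma zg_3 (p m : ℝ) : Zg 8 3 p m = (10 * (p * Zg 8 2 p m) - 2 * (m * Zg 8 1 p m)) / 8 := by
  rw [show Zg 8 3 p m = ((2 * ((1 : ℕ) : ℝ) + ((8 : ℕ) : ℝ)) * (p * Zg 8 2 p m) - (((1 : ℕ) : ℝ) + 1) * (m * Zg 8 1 p m)) / (((1 : ℕ) : ℝ) + ((8 : ℕ) : ℝ) - 1) from rfl]
  norm_num
lemma zg_4 (p m : ℝ) : Zg 8 4 p m = (12 * (p * Zg 8 3 p m) - 3 * (m * Zg 8 2 p m)) / 9 := by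
  rw [show Zg 8 4 p m = ((2 * ((2 : ℕ) : ℝ) + ((8 : ℕ) : ℝ)) * (p * Zg 8 3 p m) - (((2 : ℕ) : ℝ) + 1) * (m * Zg 8 2 p m)) / (((2 : ℕ) : ℝ) + ((8 : ℕ) : ℝ) - 1) from rfl]
  norm_num
lemma zg_5 (p m : ℝ) : Zg 8 5 p m = (14 * (p * Zg 8 4 p m) - 4 * (m * Zg 8 3 p m)) / 10 := by
  rw [show Zg 8 5 p m = ((2 * ((3 : ℕ) : ℝ) + ((8 : ℕ) : ℝ)) * (p * Zg 8 4 p m) - (((3 : ℕ) : ℝ) + 1) * (m * Zg 8 3 p m)) / (((3 : ℕ) : ℝ) + ((8 : ℕ) : ℝ) - 1) from rfl]
  norm_num
lemma zg_6 (p m : ℝ) : Zg 8 6 p m = (16 * (p * Zg 8 5 p m) - 5 * (m * Zg 8 4 p m)) / 11 := by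
  rw [show Zg 8 6 p m = ((2 * ((4 : ℕ) : ℝ) + ((8 : ℕ) : ℝ)) * (p * Zg 8 5 p m) - (((4 : ℕ) : ℝ) + 1) * (m * Zg 8 4 p m)) / (((4 : ℕ) : ℝ) + ((8 : ℕ) : ℝ) - 1) from rfl]
  norm_num
lemma zg_7 (p m : ℝ) : Zg 8 7 p m = (18 * (p * Zg 8 6 p m) - 6 * (m * Zg 8 5 p m)) / 12 := by
  rw [show Zg 8 7 p m = ((2 * ((5 : ℕ) : ℝ) + ((8 : ℕ) : ℝ)) * (p * Zg 8 6 p m) - (((5 : ℕ) : ℝ) + 1) * (m * Zg 8 5 p m)) / (((5 : ℕ) : ℝ) + ((8 : ℕ) : ℝ) - 1) from rfl]
  norm_num
lemma zg_8 (p m : ℝ) : Zg 8 8 p m = (20 * (p * Zg 8 7 p m) - 7 * (m * Zg 8 6 p m)) / 13 := by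
  rw [show Zg 8 8 p m = ((2 * ((6 : ℕ) : ℝ) + ((8 : ℕ) : ℝ)) * (p * Zg 8 7 p m) - (((6 : ℕ) : ℝ) + 1) * (m * Zg 8 6 p m)) / (((6 : ℕ) : ℝ) + ((8 : ℕ) : ℝ) - 1) from rfl]
  norm_num
lemma zg_9 (p m : ℝ) : Zg 8 9 p m = (22 * (p * Zg 8 8 p m) - 8 * (m * Zg 8 7 p m)) / 14 := by
  rw [show Zg 8 9 p m = ((2 * ((7 : ℕ) : ℝ) + ((8 : ℕ) : ℝ)) * (p * Zg 8 8 p m) - (((7 : ℕ) : ℝ) + 1) * (m * Zg 8 7 p m)) / (((7 : ℕ) : ℝ) + ((8 : ℕ) : ℝ) - 1) from rfl]
  norm_num
lemma zg_10 (p m : ℝ) : Zg 8 10 p m = (24 * (p * Zg 8 9 p m) - 9 * (m * Zg 8 8 p m)) / 15 := by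
  rw [show Zg 8 10 p m = ((2 * ((8 : ℕ) : ℝ) + ((8 : ℕ) : ℝ)) * (p * Zg 8 9 p m) - (((8 : ℕ) : ℝ) + 1) * (m * Zg 8 8 p m)) / (((8 : ℕ) : ℝ) + ((8 : ℕ) : ℝ) - 1) from rfl]
  norm_num
lemma zg_11 (p m : ℝ) : Zg 8 11 p m = (26 * (p * Zg 8 10 p m) - 10 * (m * Zg 8 9 p m)) / 16 := by
  rw [show Zg 8 11 p m = ((2 * ((9 : ℕ) : ℝ) + ((8 : ℕ) : ℝ)) * (p * Zg 8 10 p m) - (((9 : ℕ) : ℝ) + 1) * (m * Zg 8 9 p m)) / (((9 : ℕ) : ℝ) + ((8 : ℕ) : ℝ) - 1) from rfl]
  norm_num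
lemma zg_12 (p m : ℝ) : Zg 8 12 p m = (28 * (p * Zg 8 11 p m) - 11 * (m * Zg 8 10 p m)) / 17 := by
  rw [show Zg 8 12 p m = ((2 * ((10 : ℕ) : ℝ) + ((8 : ℕ) : ℝ)) * (p * Zg 8 11 p m) - (((10 : ℕ) : ℝ) + 1) * (m * Zg 8 10 p m)) / (((10 : ℕ) : ℝ) + ((8 : ℕ) : ℝ) - 1) from rfl]
  norm_num

/-- weights -/
noncomputable def cw : ℕ → ℕ → ℝ
  | 0, 0 => (18713 / 240000000)
  | 0, 1 => (126099 / 2000000000)
  | 0, 2 => (268279 / 400000000)
  | 0, 3 => (21821 / 400000000)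
  | 1, 0 => (22280074501 / 4915200000000)
  | 1, 1 => (5161683 / 625000000)
  | 1, 2 => (18343307 / 1250000000)
  | 1, 3 => (7066177 / 10000000000)
  | 2, 0 => (1774219079 / 196608000000)
  | 2, 1 => (75713533 / 1250000000)
  | 2, 2 => (6659249397 / 10000000000)
  | 2, 3 => (128674783 / 10000000000)
  | 3, 0 => (129236085329 / 4915200000000)
  | 3, 1 => (53536337 / 10000000000)
  | 3, 2 => (18151486969 / 10000000000)
  | 3, 3 => (16987691 / 10000000000)
  | 4, 0 => (11403291263 / 327680000000)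
  | 4, 1 => (16565123 / 2500000000)
  | 4, 2 => (38553969 / 10000000000)
  | 4, 3 => (5263 / 200000000)
  | 5, 0 => (26743388701 / 819200000000)
  | 5, 1 => (379750401 / 5000000000)
  | 5, 2 => (50336779 / 10000000000)
  | 5, 3 => (204489 / 10000000000)
  | 6, 0 => (6544962867 / 327680000000)
  | 6, 1 => (44384859 / 2000000000)
  | 6, 2 => (31861101 / 5000000000)
  | 6, 3 => (119983 / 1250000000)
  | 7, 0 => (2014772173 / 327680000000)
  | 7, 1 => (2689384911 / 10000000000)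
  | 7, 2 => (67309881 / 10000000000)
  | 7, 3 => (43377 / 200000000)
  | 8, 1 => (39360447 / 200000000)
  | 8, 2 => (2770851231 / 5000000000)
  | 9, 0 => (21528703 / 1638400000000)
  | 9, 1 => (91763231 / 500000000)
  | 9, 2 => (413799 / 2000000000)
  | 9, 3 => (6535608019 / 5000000000)
  | 10, 0 => (638405677 / 327680000000)
  | 10, 1 => (1549049429 / 5000000000)
  | 10, 2 => (54075301 / 5000000000)
  | 10, 3 => (45283 / 10000000000)
  | 11, 0 => (113916593 / 81920000000)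
  | 11, 1 => (28850931 / 2000000000)
  | 11, 2 => (94491289 / 10000000000)
  | 11, 3 => (254411 / 5000000000)
  | _, _ => 0

/-- vectors, degree 0 -/
noncomputable def cL0 : ℕ → ℕ → ℝ
  | 0, 0 => 1
  | 0, 1 => ((-20857) / 2500)
  | 0, 2 => (423087 / 5000)
  | 0, 3 => ((-772651) / 10000)
  | 1, 1 => 1
  | 1, 2 => ((-54889) / 5000)
  | 1, 3 => (54271 / 5000)
  | 2, 2 => 1
  | 2, 3 => ((-16573) / 10000)
  | 3, 3 => 1
  | _, _ => 0

/-- vectors, degree 1 -/
noncomputable def cL1 : ℕ → ℕ → ℝ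
  | 0, 0 => 1
  | 0, 1 => (4381 / 2000)
  | 0, 2 => (142063 / 10000)
  | 0, 3 => ((-154521) / 10000)
  | 1, 1 => 1
  | 1, 2 => ((-10703) / 10000)
  | 1, 3 => (18529 / 10000)
  | 2, 2 => 1
  | 2, 3 => ((-1473) / 500)
  | 3, 3 => 1
  | _, _ => 0

/-- vectors, degree 2 -/
noncomputable def cL2 : ℕ → ℕ → ℝ
  | 0, 0 => 1
  | 0, 1 => (1466 / 625)
  | 0, 2 => (44081 / 2000)
  | 0, 3 => ((-37441) / 2000)
  | 1, 1 => 1
  | 1, 2 => ((-34557) / 5000)
  | 1, 3 => (6883 / 1000)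
  | 2, 2 => 1
  | 2, 3 => ((-703) / 625)
  | 3, 3 => 1
  | _, _ => 0

/-- vectors, degree 3 -/
noncomputable def cL3 : ℕ → ℕ → ℝ
  | 0, 0 => 1
  | 0, 1 => (7889 / 2500)
  | 0, 2 => (91121 / 5000)
  | 0, 3 => ((-27693) / 2000)
  | 1, 1 => 1
  | 1, 2 => ((-125031) / 10000)
  | 1, 3 => (228843 / 10000)
  | 2, 2 => 1
  | 2, 3 => ((-3667) / 5000)
  | 3, 3 => 1
  | _, _ => 0

/-- vectors, degree 4 -/
noncomputable def cL4 : ℕ → ℕ → ℝ
  | 0, 0 => 1
  | 0, 1 => (16687 / 5000)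
  | 0, 2 => (30249 / 1250)
  | 0, 3 => ((-8483) / 625)
  | 1, 1 => 1
  | 1, 2 => ((-16383) / 1250)
  | 1, 3 => (230129 / 10000)
  | 2, 2 => 1
  | 2, 3 => ((-3363) / 2500)
  | 3, 3 => 1
  | _, _ => 0

/-- vectors, degree 5 -/
noncomputable def cL5 : ℕ → ℕ → ℝ
  | 0, 0 => 1
  | 0, 1 => (36197 / 10000)
  | 0, 2 => (71677 / 2500)
  | 0, 3 => ((-73957) / 10000)
  | 1, 1 => 1
  | 1, 2 => ((-136053) / 10000)
  | 1, 3 => (33881 / 2000)
  | 2, 2 => 1
  | 2, 3 => ((-357) / 400)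
  | 3, 3 => 1
  | _, _ => 0

/-- vectors, degree 6 -/
noncomputable def cL6 : ℕ → ℕ → ℝ
  | 0, 0 => 1
  | 0, 1 => (34573 / 10000)
  | 0, 2 => (97363 / 2500)
  | 0, 3 => (4243 / 2500)
  | 1, 1 => 1
  | 1, 2 => ((-141993) / 10000)
  | 1, 3 => (242329 / 10000)
  | 2, 2 => 1
  | 2, 3 => ((-9519) / 10000)
  | 3, 3 => 1
  | _, _ => 0

/-- vectors, degree 7 -/
noncomputable def cL7 : ℕ → ℕ → ℝ
  | 0, 0 => 1
  | 0, 1 => (2849 / 1250)
  | 0, 2 => (153321 / 2500)
  | 0, 3 => (62391 / 2000)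
  | 1, 1 => 1
  | 1, 2 => ((-129509) / 10000)
  | 1, 3 => (35949 / 2000)
  | 2, 2 => 1
  | 2, 3 => ((-1331) / 10000)
  | 3, 3 => 1
  | _, _ => 0

/-- vectors, degree 8 -/
noncomputable def cL8 : ℕ → ℕ → ℝ
  | 1, 1 => 1
  | 1, 2 => ((-32049) / 2000)
  | 1, 3 => (182219 / 10000)
  | 2, 2 => 1
  | 2, 3 => ((-25529) / 2000)
  | _, _ => 0

/-- vectors, degree 9 -/
noncomputable def cL9 : ℕ → ℕ → ℝ
  | 0, 0 => 1
  | 0, 1 => (429553 / 5000)
  | 0, 2 => ((-2516333) / 2000)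
  | 0, 3 => (153602 / 125)
  | 1, 1 => 1
  | 1, 2 => ((-36789) / 2500)
  | 1, 3 => (298837 / 10000)
  | 2, 2 => 1
  | 2, 3 => ((-36301) / 1000)
  | 3, 3 => 1
  | _, _ => 0

/-- vectors, degree 10 -/
noncomputable def cL10 : ℕ → ℕ → ℝ
  | 0, 0 => 1
  | 0, 1 => (5826 / 625)
  | 0, 2 => ((-49207) / 5000)
  | 0, 3 => ((-2877) / 5000)
  | 1, 1 => 1
  | 1, 2 => ((-67207) / 5000)
  | 1, 3 => (17991 / 1000)
  | 2, 2 => 1
  | 2, 3 => ((-7279) / 5000)
  | 3, 3 => 1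
  | _, _ => 0

/-- vectors, degree 11 -/
noncomputable def cL11 : ℕ → ℕ → ℝ
  | 0, 0 => 1
  | 0, 1 => (18697 / 2000)
  | 0, 2 => ((-115833) / 10000)
  | 0, 3 => (822383 / 10000)
  | 1, 1 => 1
  | 1, 2 => ((-63719) / 5000)
  | 1, 3 => (21109 / 1250)
  | 2, 2 => 1
  | 2, 3 => ((-3559) / 5000)
  | 3, 3 => 1
  | _, _ => 0

/-- vectors -/
noncomputable def cL : ℕ → ℕ → ℕ → ℝ
  | 0 => cL0
  | 1 => cL1
  | 2 => cL2
  | 3 => cL3
  | 4 => cL4
  | 5 => cL5
  | 6 => cL6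
  | 7 => cL7
  | 8 => cL8
  | 9 => cL9
  | 10 => cL10
  | 11 => cL11
  | _ => fun _ _ => 0

/-- matrices -/
noncomputable def cA (k i j : ℕ) : ℝ := ∑ c ∈ range 4, cw k c * cL k c i * cL k c j

lemma cA_symm (k i j : ℕ) : cA k i j = cA k j i := by
  unfold cA
  exact sum_congr rfl fun c _ => by ring

lemma cw_nonneg (k c : ℕ) : 0 ≤ cw k c := by
  unfold cw
  split <;> norm_num

/-- quadratic form, degree 0 -/
noncomputable def qf0 (x y : ℝ) : ℝ := (18713 / 240000000) * x ^ 0 * y ^ 0 + ((-390297041) / 600000000000) * x ^ 0 * y ^ 1 + (2639075677 / 400000000000) * x ^ 0 * y ^ 2 + ((-14458618163) / 2400000000000) * x ^ 0 * y ^ 3 + ((-390297041) / 600000000000) * x ^ 1 * y ^ 0 + (8234999634137 / 1500000000000000) * x ^ 1 * y ^ 1 + ((-55735346196289) / 1000000000000000) * x ^ 1 * y ^ 2 + (305669510323091 / 6000000000000000) * x ^ 1 * y ^ 3 + (2639075677 / 400000000000) * x ^ 2 * y ^ 0 + ((-55735346196289) / 1000000000000000)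 * x ^ 2 * y ^ 1 + (14163705754374127 / 25000000000000000) * x ^ 2 * y ^ 2 + ((-51839534029428137) / 100000000000000000) * x ^ 2 * y ^ 3 + ((-14458618163) / 2400000000000) * x ^ 3 * y ^ 0 + (305669510323091 / 6000000000000000) * x ^ 3 * y ^ 1 + ((-51839534029428137) / 100000000000000000) * x ^ 3 * y ^ 2 + (142440765726861799 / 300000000000000000) * x ^ 3 * y ^ 3

lemma qf0_eq (x y : ℝ) : ∑ i ∈ range 4, ∑ j ∈ range 4, cA 0 i j * x ^ i * y ^ j = qf0 x y := by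
  unfold cA
  rw [quad_ldl]
  simp only [sum_range_succ, sum_range_zero, cw, cL, cL0]
  unfold qf0
  ring

/-- quadratic form, degree 1 -/
noncomputable def qf1 (x y : ℝ) : ℝ := (22280074501 / 4915200000000) * x ^ 0 * y ^ 0 + (97609006388881 / 9830400000000000) * x ^ 0 * y ^ 1 + (3165174223835563 / 49152000000000000) * x ^ 0 * y ^ 2 + ((-1147579797323007) / 16384000000000000) * x ^ 0 * y ^ 3 + (97609006388881 / 9830400000000000) * x ^ 1 * y ^ 0 + (589997564391927661 / 19660800000000000000) * x ^ 1 * y ^ 1 + (12997691801260514143 / 98304000000000000000) * x ^ 1 * y ^ 2 + ((-4526113727129409507) / 32768000000000000000) * x ^ 1 * y ^ 3 + (3165174223835563 / 49152000000000000) * x ^ 2 * y ^ 0 + (12997691801260514143 / 98304000000000000000) * x ^ 2 * y ^ 1 + (11537928527581653711901 / 12288000000000000000000) * x ^ 2 * y ^ 2 + ((-4319877483310137543081) / 4096000000000000000000) * x ^ 2 * y ^ 3 + ((-1147579797323007)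 / 16384000000000000) * x ^ 3 * y ^ 0 + ((-4526113727129409507) / 32768000000000000000) * x ^ 3 * y ^ 1 + ((-4319877483310137543081) / 4096000000000000000000) * x ^ 3 * y ^ 2 + (5073828615442623232783 / 4096000000000000000000) * x ^ 3 * y ^ 3

lemma qf1_eq (x y : ℝ) : ∑ i ∈ range 4, ∑ j ∈ range 4, cA 1 i j * x ^ i * y ^ j = qf1 x y := by
  unfold cA
  rw [quad_ldl]
  simp only [sum_range_succ, sum_range_zero, cw, cL, cL1]
  unfold qf1
  ring

/-- quadratic form, degree 2 -/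
noncomputable def qf2 (x y : ℝ) : ℝ := (1774219079 / 196608000000) * x ^ 0 * y ^ 0 + (1300502584907 / 61440000000000) * x ^ 0 * y ^ 1 + (78209351221399 / 393216000000000) * x ^ 0 * y ^ 2 + ((-66428536536839) / 393216000000000) * x ^ 0 * y ^ 3 + (1300502584907 / 61440000000000) * x ^ 1 * y ^ 0 + (2116228261616831 / 19200000000000000) * x ^ 1 * y ^ 1 + (29431485859885511 / 614400000000000000) * x ^ 1 * y ^ 2 + (2537660406401269 / 122880000000000000) * x ^ 1 * y ^ 3 + (78209351221399 / 393216000000000) * x ^ 2 * y ^ 0 + (29431485859885511 / 614400000000000000) * x ^ 2 * y ^ 1 + (97603839771759338857247 / 12288000000000000000000) * x ^ 2 * y ^ 2 + ((-18072950165226078026243) / 2457600000000000000000) * x ^ 2 * y ^ 3 + ((-66428536536839) / 393216000000000) * x ^ 3 * y ^ 0 + (2537660406401269 / 122880000000000000) * x ^ 3 * y ^ 1 + ((-18072950165226078026243) / 2457600000000000000000) * x ^ 3 * y ^ 2 + (84634086066852363755519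 / 12288000000000000000000) * x ^ 3 * y ^ 3

lemma qf2_eq (x y : ℝ) : ∑ i ∈ range 4, ∑ j ∈ range 4, cA 2 i j * x ^ i * y ^ j = qf2 x y := by
  unfold cA
  rw [quad_ldl]
  simp only [sum_range_succ, sum_range_zero, cw, cL, cL2]
  unfold qf2
  ring

/-- quadratic form, degree 3 -/
noncomputable def qf3 (x y : ℝ) : ℝ := (129236085329 / 4915200000000) * x ^ 0 * y ^ 0 + (1019543477160481 / 12288000000000000) * x ^ 0 * y ^ 1 + (11776121331263809 / 24576000000000000) * x ^ 0 * y ^ 2 + ((-1192978303671999) / 3276800000000000) * x ^ 0 * y ^ 3 + (1019543477160481 / 12288000000000000) * x ^ 1 * y ^ 0 + (8207642118583034609 / 30720000000000000000) * x ^ 1 * y ^ 1 + (88789210826251152401 / 61440000000000000000) * x ^ 1 * y ^ 2 + ((-8407769841562385391) / 8192000000000000000) * x ^ 1 * y ^ 3 + (11776121331263809 / 24576000000000000) * x ^ 2 * y ^ 0 + (88789210826251152401 / 61440000000000000000) * x ^ 2 * y ^ 1 + (34973454519689880297929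 / 3072000000000000000000) * x ^ 2 * y ^ 2 + ((-19451671458059935851283) / 2048000000000000000000) * x ^ 2 * y ^ 3 + ((-1192978303671999) / 3276800000000000) * x ^ 3 * y ^ 0 + ((-8407769841562385391) / 8192000000000000000) * x ^ 3 * y ^ 1 + ((-19451671458059935851283) / 2048000000000000000000) * x ^ 3 * y ^ 2 + (36137952976329907421667 / 4096000000000000000000) * x ^ 3 * y ^ 3

lemma qf3_eq (x y : ℝ) : ∑ i ∈ range 4, ∑ j ∈ range 4, cA 3 i j * x ^ i * y ^ j = qf3 x y := by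
  unfold cA
  rw [quad_ldl]
  simp only [sum_range_succ, sum_range_zero, cw, cL, cL3]
  unfold qf3
  ring

/-- quadratic form, degree 4 -/
noncomputable def qf4 (x y : ℝ) : ℝ := (11403291263 / 327680000000) * x ^ 0 * y ^ 0 + (190286721305681 / 1638400000000000) * x ^ 0 * y ^ 1 + (344938157414487 / 409600000000000) * x ^ 0 * y ^ 2 + ((-96734119784029) / 204800000000000) * x ^ 0 * y ^ 3 + (190286721305681 / 1638400000000000) * x ^ 1 * y ^ 0 + (3229595113474298847 / 8192000000000000000) * x ^ 1 * y ^ 1 + (5578127235046510329 / 2048000000000000000) * x ^ 1 * y ^ 2 + ((-1458058018618179603) / 1024000000000000000) * x ^ 1 * y ^ 3 + (344938157414487 / 409600000000000) * x ^ 2 * y ^ 0 + (5578127235046510329 / 2048000000000000000) * x ^ 2 * y ^ 1 + (1377346324210321356723 / 64000000000000000000) * x ^ 2 * y ^ 2 + ((-429882535993604251089) / 32000000000000000000) * x ^ 2 * y ^ 3 + ((-96734119784029) / 204800000000000)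 * x ^ 3 * y ^ 0 + ((-1458058018618179603) / 1024000000000000000) * x ^ 3 * y ^ 1 + ((-429882535993604251089) / 32000000000000000000) * x ^ 3 * y ^ 2 + (158832297078324118043 / 16000000000000000000) * x ^ 3 * y ^ 3

lemma qf4_eq (x y : ℝ) : ∑ i ∈ range 4, ∑ j ∈ range 4, cA 4 i j * x ^ i * y ^ j = qf4 x y := by
  unfold cA
  rw [quad_ldl]
  simp only [sum_range_succ, sum_range_zero, cw, cL, cL4]
  unfold qf4
  ring

/-- quadratic form, degree 5 -/
noncomputable def qf5 (x y : ℝ) : ℝ := (26743388701 / 819200000000) * x ^ 0 * y ^ 0 + (968030440810097 / 8192000000000000) * x ^ 0 * y ^ 1 + (1916885871921577 / 2048000000000000) * x ^ 0 * y ^ 2 + ((-1977860798159857) / 8192000000000000) * x ^ 0 * y ^ 3 + (968030440810097 / 8192000000000000) * x ^ 1 * y ^ 0 + (41261628435987081109 / 81920000000000000000) * x ^ 1 * y ^ 1 + (48223050042494493869 / 20480000000000000000) * x ^ 1 * y ^ 2 + (33808293459821608171 / 81920000000000000000)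 * x ^ 1 * y ^ 3 + (1916885871921577 / 2048000000000000) * x ^ 2 * y ^ 0 + (48223050042494493869 / 20480000000000000000) * x ^ 2 * y ^ 1 + (5235070801955569122429 / 128000000000000000000) * x ^ 2 * y ^ 2 + ((-2501809614243100977377) / 102400000000000000000) * x ^ 2 * y ^ 3 + ((-1977860798159857) / 8192000000000000) * x ^ 3 * y ^ 0 + (33808293459821608171 / 81920000000000000000) * x ^ 3 * y ^ 1 + ((-2501809614243100977377) / 102400000000000000000) * x ^ 3 * y ^ 2 + (386430218319056994641 / 16384000000000000000) * x ^ 3 * y ^ 3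

lemma qf5_eq (x y : ℝ) : ∑ i ∈ range 4, ∑ j ∈ range 4, cA 5 i j * x ^ i * y ^ j = qf5 x y := by
  unfold cA
  rw [quad_ldl]
  simp only [sum_range_succ, sum_range_zero, cw, cL, cL5]
  unfold qf5
  ring

/-- quadratic form, degree 6 -/
noncomputable def qf6 (x y : ℝ) : ℝ := (6544962867 / 327680000000) * x ^ 0 * y ^ 0 + (226279001200791 / 3276800000000000) * x ^ 0 * y ^ 1 + (637237219619721 / 819200000000000) * x ^ 0 * y ^ 2 + (27770277444681 / 819200000000000) * x ^ 0 * y ^ 3 + (226279001200791 / 3276800000000000) * x ^ 1 * y ^ 0 + (8550345438370947243 / 32768000000000000000) * x ^ 1 * y ^ 1 + (19449764223191538933 / 8192000000000000000) * x ^ 1 * y ^ 2 + (5365652290306821813 / 8192000000000000000) * x ^ 1 * y ^ 3 + (637237219619721 / 819200000000000) * x ^ 2 * y ^ 0 + (19449764223191538933 / 8192000000000000000) * x ^ 2 * y ^ 1 + (1780500786879610912371 / 51200000000000000000) * x ^ 2 * y ^ 2 + ((-323688958154364296013)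 / 51200000000000000000) * x ^ 2 * y ^ 3 + (27770277444681 / 819200000000000) * x ^ 3 * y ^ 0 + (5365652290306821813 / 8192000000000000000) * x ^ 3 * y ^ 1 + ((-323688958154364296013) / 51200000000000000000) * x ^ 3 * y ^ 2 + (3352458379319017921727 / 256000000000000000000) * x ^ 3 * y ^ 3

lemma qf6_eq (x y : ℝ) : ∑ i ∈ range 4, ∑ j ∈ range 4, cA 6 i j * x ^ i * y ^ j = qf6 x y := by
  unfold cA
  rw [quad_ldl]
  simp only [sum_range_succ, sum_range_zero, cw, cL, cL6]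
  unfold qf6
  ring

/-- quadratic form, degree 7 -/
noncomputable def qf7 (x y : ℝ) : ℝ := (2014772173 / 327680000000) * x ^ 0 * y ^ 0 + (5740085920877 / 409600000000000) * x ^ 0 * y ^ 1 + (308906884336533 / 819200000000000) * x ^ 0 * y ^ 2 + (125703650645643 / 655360000000000) * x ^ 0 * y ^ 3 + (5740085920877 / 409600000000000) * x ^ 1 * y ^ 0 + (154050012231778573 / 512000000000000000) * x ^ 1 * y ^ 1 + ((-2686511683017495243) / 1024000000000000000) * x ^ 1 * y ^ 2 + (4318171097549914347 / 819200000000000000) * x ^ 1 * y ^ 3 + (308906884336533 / 819200000000000) * x ^ 2 * y ^ 0 + ((-2686511683017495243) / 1024000000000000000) * x ^ 2 * y ^ 1 + (17469591362931757022121 / 256000000000000000000) * x ^ 2 * y ^ 2 + ((-10412582333266909847049) / 204800000000000000000) * x ^ 2 * y ^ 3 + (125703650645643 / 655360000000000) * x ^ 3 * y ^ 0 + (4318171097549914347 / 819200000000000000) * x ^ 3 * y ^ 1 + ((-10412582333266909847049)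 / 204800000000000000000) * x ^ 3 * y ^ 2 + (380408873682651381028161 / 4096000000000000000000) * x ^ 3 * y ^ 3

lemma qf7_eq (x y : ℝ) : ∑ i ∈ range 4, ∑ j ∈ range 4, cA 7 i j * x ^ i * y ^ j = qf7 x y := by
  unfold cA
  rw [quad_ldl]
  simp only [sum_range_succ, sum_range_zero, cw, cL, cL7]
  unfold qf7
  ring

/-- quadratic form, degree 8 -/
noncomputable def qf8 (x y : ℝ) : ℝ := (39360447 / 200000000) * x ^ 1 * y ^ 1 + ((-1261462965903) / 400000000000) * x ^ 1 * y ^ 2 + (7172221291893 / 2000000000000) * x ^ 1 * y ^ 3 + ((-1261462965903) / 400000000000) * x ^ 2 * y ^ 1 + (40871962791185247 / 800000000000000) * x ^ 2 * y ^ 2 + ((-258157344614358357) / 4000000000000000) * x ^ 2 * y ^ 3 + (7172221291893 / 2000000000000) * x ^ 3 * y ^ 1 + ((-258157344614358357) / 4000000000000000) * x ^ 3 * y ^ 2 + (1556380711900867419 / 10000000000000000) * x ^ 3 * y ^ 3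

lemma qf8_eq (x y : ℝ) : ∑ i ∈ range 4, ∑ j ∈ range 4, cA 8 i j * x ^ i * y ^ j = qf8 x y := by
  unfold cA
  rw [quad_ldl]
  simp only [sum_range_succ, sum_range_zero, cw, cL, cL8]
  unfold qf8
  ring

/-- quadratic form, degree 9 -/
noncomputable def qf9 (x y : ℝ) : ℝ := (21528703 / 1638400000000) * x ^ 0 * y ^ 0 + (9247718959759 / 8192000000000000) * x ^ 0 * y ^ 1 + ((-54173385806099) / 3276800000000000) * x ^ 0 * y ^ 2 + (1653425919103 / 102400000000000) * x ^ 0 * y ^ 3 + (9247718959759 / 8192000000000000) * x ^ 1 * y ^ 0 + (11489629305841357727 / 40960000000000000000) * x ^ 1 * y ^ 1 + ((-67518642030098008547) / 16384000000000000000) * x ^ 1 * y ^ 2 + (3518272326852783759 / 512000000000000000) * x ^ 1 * y ^ 3 + ((-54173385806099) / 3276800000000000) * x ^ 2 * y ^ 0 + ((-67518642030098008547) / 16384000000000000000) * x ^ 2 * y ^ 1 + (49596969673693632495419 / 819200000000000000000) * x ^ 2 * y ^ 2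 + ((-2586361941443806949959) / 25600000000000000000) * x ^ 2 * y ^ 3 + (1653425919103 / 102400000000000) * x ^ 3 * y ^ 0 + (3518272326852783759 / 512000000000000000) * x ^ 3 * y ^ 1 + ((-2586361941443806949959) / 25600000000000000000) * x ^ 3 * y ^ 2 + (148253428699437814499 / 800000000000000000) * x ^ 3 * y ^ 3

lemma qf9_eq (x y : ℝ) : ∑ i ∈ range 4, ∑ j ∈ range 4, cA 9 i j * x ^ i * y ^ j = qf9 x y := by
  unfold cA
  rw [quad_ldl]
  simp only [sum_range_succ, sum_range_zero, cw, cL, cL9]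
  unfold qf9
  ring

/-- quadratic form, degree 10 -/
noncomputable def qf10 (x y : ℝ) : ℝ := (638405677 / 327680000000) * x ^ 0 * y ^ 0 + (1859675737101 / 102400000000000) * x ^ 0 * y ^ 1 + ((-31414028148139) / 1638400000000000) * x ^ 0 * y ^ 2 + ((-1836693132729) / 1638400000000000) * x ^ 0 * y ^ 3 + (1859675737101 / 102400000000000) * x ^ 1 * y ^ 0 + (15331151767775213 / 32000000000000000) * x ^ 1 * y ^ 1 + ((-2223619706679494347) / 512000000000000000) * x ^ 1 * y ^ 2 + (2848430016483394023 / 512000000000000000) * x ^ 1 * y ^ 3 + ((-31414028148139) / 1638400000000000) * x ^ 2 * y ^ 0 + ((-2223619706679494347) / 512000000000000000) * x ^ 2 * y ^ 1 + (57521402367174990602057 / 1024000000000000000000) * x ^ 2 * y ^ 2 + ((-15344486061874433962841) / 204800000000000000000) * x ^ 2 * y ^ 3 + ((-1836693132729) / 1638400000000000) * x ^ 3 * y ^ 0 + (2848430016483394023 / 512000000000000000) * x ^ 3 * y ^ 1 +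 ((-15344486061874433962841) / 204800000000000000000) * x ^ 3 * y ^ 2 + (102708859080822374328897 / 1024000000000000000000) * x ^ 3 * y ^ 3

lemma qf10_eq (x y : ℝ) : ∑ i ∈ range 4, ∑ j ∈ range 4, cA 10 i j * x ^ i * y ^ j = qf10 x y := by
  unfold cA
  rw [quad_ldl]
  simp only [sum_range_succ, sum_range_zero, cw, cL, cL10]
  unfold qf10
  ring

/-- quadratic form, degree 11 -/
noncomputable def qf11 (x y : ℝ) : ℝ := (113916593 / 81920000000) * x ^ 0 * y ^ 0 + (2129898539321 / 163840000000000) * x ^ 0 * y ^ 1 + ((-13195300716969) / 819200000000000) * x ^ 0 * y ^ 2 + (93683069501119 / 819200000000000) * x ^ 0 * y ^ 3 + (2129898539321 / 163840000000000) * x ^ 1 * y ^ 0 + (44549649524724737 / 327680000000000000) * x ^ 1 * y ^ 1 + ((-547908206581383153) / 1638400000000000000) * x ^ 1 * y ^ 2 + (2150715963735059383 / 1638400000000000000) * x ^ 1 * y ^ 3 + ((-13195300716969) / 819200000000000) * x ^ 2 * y ^ 0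 + ((-547908206581383153) / 1638400000000000000) * x ^ 2 * y ^ 1 + (519943634244118368761 / 204800000000000000000) * x ^ 2 * y ^ 2 + ((-908461174853026450159) / 204800000000000000000) * x ^ 2 * y ^ 3 + (93683069501119 / 819200000000000) * x ^ 3 * y ^ 0 + (2150715963735059383 / 1638400000000000000) * x ^ 3 * y ^ 1 + ((-908461174853026450159) / 204800000000000000000) * x ^ 3 * y ^ 2 + (13847925136041542483469 / 1024000000000000000000) * x ^ 3 * y ^ 3

lemma qf11_eq (x y : ℝ) : ∑ i ∈ range 4, ∑ j ∈ range 4, cA 11 i j * x ^ i * y ^ j = qf11 x y := by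
  unfold cA
  rw [quad_ldl]
  simp only [sum_range_succ, sum_range_zero, cw, cL, cL11]
  unfold qf11
  ring

lemma sum_n (g : ℕ → ℝ) : ∑ k ∈ range (11 + 1), g k = g 0 + g 1 + g 2 + g 3 + g 4 + g 5 + g 6 + g 7 + g 8 + g 9 + g 10 + g 11 := by
  simp only [sum_range_succ, sum_range_zero, zero_add]

lemma Kt_eq (x y p m : ℝ) : Kt 11 4 cA x y p m =
    qf0 x y * Zg 8 0 p m + qf1 x y * Zg 8 1 p m + qf2 x y * Zg 8 2 p m + qf3 x y * Zg 8 3 p m + qf4 x y * Zg 8 4 p m + qf5 x y * Zg 8 5 p m + qf6 x y * Zg 8 6 p m + qf7 x y * Zg 8 7 p m + qf8 x y * Zg 8 8 p m + qf9 x y * Zg 8 9 p m + qf10 x y * Zg 8 10 p m + qf11 x y * Zg 8 11 p m := by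
  unfold Kt
  rw [sum_n, qf0_eq, qf1_eq, qf2_eq, qf3_eq, qf4_eq, qf5_eq, qf6_eq, qf7_eq, qf8_eq, qf9_eq, qf10_eq, qf11_eq]


/-- Kernel in the coordinates `x, y, T`. -/
noncomputable def Ktx (x y T : ℝ) : ℝ :=
  Kt 11 4 cA x y (T - 2 / 25 * x * y) ((1 - 2 / 5 * x) * (1 - 2 / 5 * y))

/-- With the factor `r^3 r'^3`. -/
noncomputable def K3 (x y T : ℝ) : ℝ := (1 - x) ^ 3 * (1 - y) ^ 3 * Ktx x y T

lemma Ktx_symm (x y T : ℝ) : Ktx x y T = Ktx y x T := by
  unfold Ktx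
  rw [Kt_symm _ _ _ cA_symm]
  congr 1 <;> ring

lemma K3_symm (x y T : ℝ) : K3 x y T = K3 y x T := by
  unfold K3
  rw [Ktx_symm]
  ring

end Pool.Agent.Lib.MP_f1379f_gt.FV.CK2
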