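import Pool.Agent.Lib.MP_f1379f_gt.FV.BCH
import Pool.Agent.Lib.MP_f1379f_gt.FV.CJ0
import Pool.Agent.Lib.MP_f1379f_gt.FV.PWH
import Pool.Agent.Lib.MP_f1379f_gt.FV.BCM
import Pool.Agent.Lib.MP_f1379f_gt.FV.CEX
import Pool.Agent.Lib.MP_f1379f_gt.FV.CK20

section
/-!
# one-body programs
-/
set_option autoImplicit false
set_option linter.unusedVariables false
set_option linter.unusedSimpArgs false
set_option linter.unusedTactic false
set_option linter.style.longLine false
set_option maxRecDepth 100000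

namespace Pool.Agent.Lib.MP_f1379f_gt.FV.CJ.V

open Finset Pool.Agent.Lib.MP_f1379f_gt.FV Pool.Agent.Lib.MP_f1379f_gt.FV.BCH Pool.Agent.Lib.MP_f1379f_gt.FV.CJ

/-- node -/
def nd0 : Ex := .v .x
/-- node -/
def nd2 : Ex := .h .x
/-- node -/
def eP : Ex := .f 5 nd2 (-2) nd0
/-- node -/
def eM : Ex := .m eP eP
/-- node -/
def eW2 : Ex := .f 8 eM (-1) eM
/-- node -/
def nd6 : Ex := .m eP eW2
/-- node -/
def nd7 : Ex := .m eM eP
/-- node -/
def eW3 : Ex := .f 5 nd6 (-7) nd7
/-- node -/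
def nd9 : Ex := .m eP eW3
/-- node -/
def nd10 : Ex := .m eM eW2
/-- node -/
def eW4 : Ex := .f 1 nd9 (-1) nd10
/-- node -/
def nd12 : Ex := .m eP eW4
/-- node -/
def nd13 : Ex := .m eM eW3
/-- node -/
def eW5 : Ex := .f 14 nd12 (-3) nd13
/-- node -/
def nd15 : Ex := .m eP eW5
/-- node -/
def nd16 : Ex := .m eM eW4
/-- node -/
def eW6 : Ex := .f 8 nd15 (-25) nd16
/-- node -/
def nd18 : Ex := .m eP eW6
/-- node -/
def nd19 : Ex := .m eM eW5
/-- node -/
def eW7 : Ex := .f 6 nd18 (-11) nd19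
/-- node -/
def nd21 : Ex := .m eP eW7
/-- node -/
def nd22 : Ex := .m eM eW6
/-- node -/
def eW8 : Ex := .f 5 nd21 (-7) nd22
/-- node -/
def nd24 : Ex := .m eP eW8
/-- node -/
def nd25 : Ex := .m eM eW7
/-- node -/
def eW9 : Ex := .f 11 nd24 (-13) nd25
/-- node -/
def nd27 : Ex := .m eP eW9
/-- node -/
def nd28 : Ex := .m eM eW8
/-- node -/
def eW10 : Ex := .f 8 nd27 (-21) nd28
/-- node -/
def nd30 : Ex := .m eP eW10
/-- node -/
def nd31 : Ex := .m eM eW9
/-- node -/
def eW11 : Ex := .f 13 nd30 (-25) nd31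
/-- node -/
def nd33 : Ex := .f 1000 nd2 1057 nd0
/-- node -/
def nd34 : Ex := .m nd0 nd0
/-- node -/
def nd35 : Ex := .m nd33 nd2
/-- node -/
def nd36 : Ex := .f 6708000 nd35 56896712173 nd34
/-- node -/
def nd37 : Ex := .m nd34 nd0
/-- node -/
def nd38 : Ex := .m nd36 nd2
/-- node -/
def nd39 : Ex := .f 5 nd38 (-244798133854) nd37
/-- node -/
def nd40 : Ex := .m nd34 nd34
/-- node -/
def nd41 : Ex := .m nd39 nd2
/-- node -/
def nd42 : Ex := .f 14375 nd41 6348243596609934 nd40
/-- node -/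
def nd43 : Ex := .m nd40 nd0
/-- node -/
def nd44 : Ex := .m nd42 nd2
/-- node -/
def nd45 : Ex := .f 1 nd44 (-24161689217306346) nd43
/-- node -/
def nd46 : Ex := .m nd37 nd37
/-- node -/
def nd47 : Ex := .m nd45 nd2
/-- node -/
def eq0 : Ex := .f 1 nd47 16299876885288255 nd46
/-- node -/
def nd49 : Ex := .m eq0 nd2
/-- node -/
def nd50 : Ex := .f 5000 nd2 10673 nd0
/-- node -/
def nd51 : Ex := .m nd50 nd2
/-- node -/
def nd52 : Ex := .f 904040247020000 nd51 52764702549256846079 nd34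
/-- node -/
def nd53 : Ex := .m nd52 nd2
/-- node -/
def nd54 : Ex := .f 1 nd53 (-193250076534439707702) nd37
/-- node -/
def nd55 : Ex := .m nd54 nd2
/-- node -/
def nd56 : Ex := .f 1 nd55 1057570662403652927925 nd40
/-- node -/
def nd57 : Ex := .m nd56 nd2
/-- node -/
def nd58 : Ex := .f 1 nd57 (-1209623257719791563558) nd43
/-- node -/
def nd59 : Ex := .m nd58 nd2
/-- node -/
def eq1 : Ex := .f 5 nd59 2737569293435233922987 nd46
/-- node -/
def nd61 : Ex := .m eq1 eP
/-- node -/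
def eS1 : Ex := .f 36864 nd49 1 nd61
/-- node -/
def nd63 : Ex := .m eS1 nd2
/-- node -/
def nd64 : Ex := .f 2500 nd2 7417 nd0
/-- node -/
def nd65 : Ex := .m nd64 nd2
/-- node -/
def nd66 : Ex := .f 54148195570000 nd65 1828579612595088173 nd34
/-- node -/
def nd67 : Ex := .m nd66 nd2
/-- node -/
def nd68 : Ex := .f 1 nd67 (-1064015875796933637) nd37
/-- node -/
def nd69 : Ex := .m nd68 nd2
/-- node -/
def nd70 : Ex := .f 2500 nd69 27035646149828047651473 nd40
/-- node -/
def nd71 : Ex := .m nd70 nd2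
/-- node -/
def nd72 : Ex := .f 1 nd71 (-18553882418571895586350) nd43
/-- node -/
def nd73 : Ex := .m nd72 nd2
/-- node -/
def eq2 : Ex := .f 1 nd73 11514960197149925761549 nd46
/-- node -/
def nd75 : Ex := .m eq2 eW2
/-- node -/
def eS2 : Ex := .f 175 nd63 1 nd75
/-- node -/
def nd77 : Ex := .m eS2 nd2
/-- node -/
def nd78 : Ex := .f 5000 nd2 20731 nd0
/-- node -/
def nd79 : Ex := .m nd78 nd2
/-- node -/
def nd80 : Ex := .f 5065814081980000 nd79 428126326893898945739 nd34
/-- node -/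
def nd81 : Ex := .m nd80 nd2
/-- node -/
def nd82 : Ex := .f 1 nd81 (-120546445226873418066) nd37
/-- node -/
def nd83 : Ex := .m nd82 nd2
/-- node -/
def nd84 : Ex := .f 25 nd83 66978919399394435071227 nd40
/-- node -/
def nd85 : Ex := .m nd84 nd2
/-- node -/
def nd86 : Ex := .f 1 nd85 78457364485171849292544 nd43
/-- node -/
def nd87 : Ex := .m nd86 nd2
/-- node -/
def eq3 : Ex := .f 1 nd87 39572757508351511162880 nd46
/-- node -/
def nd89 : Ex := .m eq3 eW3
/-- node -/
def eS3 : Ex := .f 20 nd77 1 nd89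
/-- node -/
def nd91 : Ex := .m eS3 nd2
/-- node -/
def nd92 : Ex := .f 5000 nd2 23621 nd0
/-- node -/
def nd93 : Ex := .m nd92 nd2
/-- node -/
def nd94 : Ex := .f 1282339452940000 nd93 153334196594949123727 nd34
/-- node -/
def nd95 : Ex := .m nd94 nd2
/-- node -/
def nd96 : Ex := .f 1 nd95 222140739244938552976 nd37
/-- node -/
def nd97 : Ex := .m nd96 nd2
/-- node -/
def nd98 : Ex := .f 125 nd97 63155796994506497095342 nd40
/-- node -/
def nd99 : Ex := .m nd98 nd2
/-- node -/
def nd100 : Ex := .f 1 nd99 98044336847412865247280 nd43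
/-- node -/
def nd101 : Ex := .m nd100 nd2
/-- node -/
def eq4 : Ex := .f 1 nd101 209146459999876903973835 nd46
/-- node -/
def nd103 : Ex := .m eq4 eW4
/-- node -/
def eS4 : Ex := .f 15 nd91 4 nd103
/-- node -/
def nd105 : Ex := .m eS4 nd2
/-- node -/
def nd106 : Ex := .f 5000 nd2 29029 nd0
/-- node -/
def nd107 : Ex := .m nd106 nd2
/-- node -/
def nd108 : Ex := .f 1636360427260000 nd107 271011399218938052283 nd34
/-- node -/
def nd109 : Ex := .m nd108 nd2
/-- node -/
def nd110 : Ex := .f 1 nd109 662111080008741893948 nd37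
/-- node -/
def nd111 : Ex := .m nd110 nd2
/-- node -/
def nd112 : Ex := .f 5 nd111 5740773551408102673888 nd40
/-- node -/
def nd113 : Ex := .m nd112 nd2
/-- node -/
def nd114 : Ex := .f 1 nd113 17696481357302600635688 nd43
/-- node -/
def nd115 : Ex := .m nd114 nd2
/-- node -/
def eq5 : Ex := .f 25 nd115 1665321290670220757731132 nd46
/-- node -/
def nd117 : Ex := .m eq5 eW5
/-- node -/
def eS5 : Ex := .f 75 nd105 4 nd117
/-- node -/
def nd119 : Ex := .m eS5 nd2
/-- node -/
def nd120 : Ex := .f 1000 nd2 6337 nd0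
/-- node -/
def nd121 : Ex := .m nd120 nd2
/-- node -/
def nd122 : Ex := .f 108824561132000 nd121 6044966855877520827 nd34
/-- node -/
def nd123 : Ex := .m nd122 nd2
/-- node -/
def nd124 : Ex := .f 5 nd123 44156668281163722556 nd37
/-- node -/
def nd125 : Ex := .m nd124 nd2
/-- node -/
def nd126 : Ex := .f 625 nd125 570806649174391154330014 nd40
/-- node -/
def nd127 : Ex := .m nd126 nd2
/-- node -/
def nd128 : Ex := .f 1 nd127 (-1246418889397502588397180) nd43
/-- node -/
def nd129 : Ex := .m nd128 nd2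
/-- node -/
def eq6 : Ex := .f 1 nd129 2961623614434152696231175 nd46
/-- node -/
def nd131 : Ex := .m eq6 eW6
/-- node -/
def eS6 : Ex := .f 55 nd119 12 nd131
/-- node -/
def nd133 : Ex := .m eS6 nd2
/-- node -/
def nd134 : Ex := .f 5000 nd2 50677 nd0
/-- node -/
def nd135 : Ex := .m nd134 nd2
/-- node -/
def nd136 : Ex := .f 903861740000 nd135 624507190689951623 nd34
/-- node -/
def nd137 : Ex := .m nd136 nd2
/-- node -/
def nd138 : Ex := .f 1 nd137 (-498329179397758008) nd37
/-- node -/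
def nd139 : Ex := .m nd138 nd2
/-- node -/
def nd140 : Ex := .f 38125 nd139 2132794766502195540076602 nd40
/-- node -/
def nd141 : Ex := .m nd140 nd2
/-- node -/
def nd142 : Ex := .f 1 nd141 (-5135100168717923204179976) nd43
/-- node -/
def nd143 : Ex := .m nd142 nd2
/-- node -/
def eq7 : Ex := .f 1 nd143 17228615944264760929152379 nd46
/-- node -/
def nd145 : Ex := .m eq7 eW7
/-- node -/
def eS7 : Ex := .f 5 nd133 1 nd145
/-- node -/
def nd147 : Ex := .m eS7 nd2
/-- node -/
def nd148 : Ex := .m nd34 nd2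
/-- node -/
def nd149 : Ex := .f 1250 nd148 (-71541) nd37
/-- node -/
def nd150 : Ex := .m nd149 nd2
/-- node -/
def nd151 : Ex := .f 53674935000 nd150 81452959311454147 nd40
/-- node -/
def nd152 : Ex := .m nd151 nd2
/-- node -/
def nd153 : Ex := .f 1 nd152 (-718984221690961124) nd43
/-- node -/
def nd154 : Ex := .m nd153 nd2
/-- node -/
def eq8 : Ex := .f 20 nd154 44688684735281602597 nd46
/-- node -/
def nd156 : Ex := .m eq8 eW8
/-- node -/
def eS8 : Ex := .f 65 nd147 1769472 nd156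
/-- node -/
def nd158 : Ex := .m eS8 nd2
/-- node -/
def nd159 : Ex := .f 2500 nd2 28307 nd0
/-- node -/
def nd160 : Ex := .m nd159 nd2
/-- node -/
def nd161 : Ex := .f 4020737630000 nd160 169694174293459987 nd34
/-- node -/
def nd162 : Ex := .m nd161 nd2
/-- node -/
def nd163 : Ex := .f 1 nd162 (-8451024892155302075) nd37
/-- node -/
def nd164 : Ex := .m nd163 nd2
/-- node -/
def nd165 : Ex := .f 500 nd164 6269151447154220440583 nd40
/-- node -/
def nd166 : Ex := .m nd165 nd2
/-- node -/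
def nd167 : Ex := .f 1 nd166 (-105538511581350422218908) nd43
/-- node -/
def nd168 : Ex := .m nd167 nd2
/-- node -/
def eq9 : Ex := .f 1 nd168 616916936332825447667452 nd46
/-- node -/
def nd170 : Ex := .m eq9 eW9
/-- node -/
def eS9 : Ex := .f 35 nd158 108 nd170
/-- node -/
def nd172 : Ex := .m eS9 nd2
/-- node -/
def nd173 : Ex := .f 200 nd2 5151 nd0
/-- node -/
def nd174 : Ex := .m nd173 nd2
/-- node -/
def nd175 : Ex := .f 9388308384 nd174 223324593078277 nd34
/-- node -/
def nd176 : Ex := .m nd175 nd2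
/-- node -/
def nd177 : Ex := .f 625 nd176 (-1514632155126449376) nd37
/-- node -/
def nd178 : Ex := .m nd177 nd2
/-- node -/
def nd179 : Ex := .f 125 nd178 (-1026237465140950859668) nd40
/-- node -/
def nd180 : Ex := .m nd179 nd2
/-- node -/
def nd181 : Ex := .f 5 nd180 10481613798610427744064 nd43
/-- node -/
def nd182 : Ex := .m nd181 nd2
/-- node -/
def eq10 : Ex := .f 5 nd182 348407739803438308028228 nd46
/-- node -/
def nd184 : Ex := .m eq10 eW10
/-- node -/
def eS10 : Ex := .f 25 nd172 108 nd184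
/-- node -/
def nd186 : Ex := .m eS10 nd2
/-- node -/
def nd187 : Ex := .m nd2 nd2
/-- node -/
def nd188 : Ex := .f 328965000 nd187 619350860033 nd34
/-- node -/
def nd189 : Ex := .m nd188 nd2
/-- node -/
def nd190 : Ex := .f 125 nd189 (-1622343217374112) nd37
/-- node -/
def nd191 : Ex := .m nd190 nd2
/-- node -/
def nd192 : Ex := .f 20000 nd191 252535754148733473149 nd40
/-- node -/
def nd193 : Ex := .m nd192 nd2
/-- node -/
def nd194 : Ex := .f 1 nd193 (-1075823428265598664512) nd43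
/-- node -/
def nd195 : Ex := .m nd194 nd2
/-- node -/
def eq11 : Ex := .f 1 nd195 2747444100224867152896 nd46
/-- node -/
def nd197 : Ex := .m eq11 eW11
/-- node -/
def eS11 : Ex := .f 5 nd186 54 nd197
/-- node -/
def nd199 : Ex := .f 801889 nd2 119707 nd0
/-- node -/
def nd200 : Ex := .m nd199 nd2
/-- node -/
def nd201 : Ex := .f 1 nd200 (-340126) nd34
/-- node -/
def nd202 : Ex := .m nd201 nd2
/-- node -/
def nd203 : Ex := .f 1 nd202 (-158242) nd37
/-- node -/
def nd204 : Ex := .m nd203 nd2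
/-- node -/
def nd205 : Ex := .f 1 nd204 (-2695980) nd40
/-- node -/
def nd206 : Ex := .m nd205 nd2
/-- node -/
def nd207 : Ex := .f 1 nd206 12686271 nd43
/-- node -/
def nd208 : Ex := .m nd207 nd2
/-- node -/
def nd209 : Ex := .f 1 nd208 (-36069290) nd46
/-- node -/
def nd210 : Ex := .m nd46 nd0
/-- node -/
def nd211 : Ex := .m nd209 nd2
/-- node -/
def nd212 : Ex := .f 1 nd211 55344714 nd210
/-- node -/
def nd213 : Ex := .m nd40 nd40
/-- node -/
def nd214 : Ex := .m nd212 nd2
/-- node -/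
def nd215 : Ex := .f 1 nd214 (-43726930) nd213
/-- node -/
def nd216 : Ex := .m nd213 nd0
/-- node -/
def nd217 : Ex := .m nd215 nd2
/-- node -/
def eV : Ex := .f 1 nd217 14039354 nd216
/-- node -/
def nd219 : Ex := .f 2000 nd2 1057 nd0
/-- node -/
def nd220 : Ex := .m nd219 nd2
/-- node -/
def nd221 : Ex := .f 5 nd220 40901 nd34
/-- node -/
def nd222 : Ex := .m nd221 nd2
/-- node -/
def el : Ex := .f 1 nd222 (-56164) nd37

/-- real function of eP -/
noncomputable def f_eP (x y t : ℝ) : ℝ := 1 - ((2 / 5) * x)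

theorem v_eP (x y t : ℝ) : val eP x y t = 5 * (f_eP x y t) := by
  simp only [nd0, nd2, eP, val_f, val_h, val_vx]
  unfold f_eP
  push_cast
  ring

/-- real function of eM -/
noncomputable def f_eM (x y t : ℝ) : ℝ := f_eP x y t * f_eP x y t

theorem v_eM (x y t : ℝ) : val eM x y t = 25 * (f_eM x y t) := by
  simp only [eM, v_eP, val_m]
  unfold f_eM
  push_cast
  ring

theorem v_eW2 (x y t : ℝ) : val eW2 x y t = 175 * (Zg 8 2 (f_eP x y t) (f_eM x y t)) := by
  simp only [eW2, v_eM, val_f]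
  unfold f_eM
  rw [zg_2]
  rw [zg_0, zg_1]
  push_cast
  ring

theorem v_eW3 (x y t : ℝ) : val eW3 x y t = 3500 * (Zg 8 3 (f_eP x y t) (f_eM x y t)) := by
  simp only [nd6, nd7, eW3, v_eP, v_eM, v_eW2, val_f, val_m]
  rw [zg_3]
  rw [zg_1]
  push_cast
  ring

theorem v_eW4 (x y t : ℝ) : val eW4 x y t = 13125 * (Zg 8 4 (f_eP x y t) (f_eM x y t)) := by
  simp only [nd9, nd10, eW4, v_eP, v_eM, v_eW2, v_eW3, val_f, val_m]
  rw [zg_4]
  push_cast
  ring

theorem v_eW5 (x y t : ℝ) : val eW5 x y t = 656250 * (Zg 8 5 (f_eP x y t) (f_eM x y t)) := by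
  simp only [nd12, nd13, eW5, v_eP, v_eM, v_eW3, v_eW4, val_f, val_m]
  rw [zg_5]
  push_cast
  ring

theorem v_eW6 (x y t : ℝ) : val eW6 x y t = 18046875 * (Zg 8 6 (f_eP x y t) (f_eM x y t)) := by
  simp only [nd15, nd16, eW6, v_eP, v_eM, v_eW4, v_eW5, val_f, val_m]
  rw [zg_6]
  push_cast
  ring

theorem v_eW7 (x y t : ℝ) : val eW7 x y t = 360937500 * (Zg 8 7 (f_eP x y t) (f_eM x y t)) := by
  simp only [nd18, nd19, eW7, v_eP, v_eM, v_eW5, v_eW6, val_f, val_m]
  rw [zg_7]
  push_cast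
  ring

theorem v_eW8 (x y t : ℝ) : val eW8 x y t = 5865234375 * (Zg 8 8 (f_eP x y t) (f_eM x y t)) := by
  simp only [nd21, nd22, eW8, v_eP, v_eM, v_eW6, v_eW7, val_f, val_m]
  rw [zg_8]
  push_cast
  ring

theorem v_eW9 (x y t : ℝ) : val eW9 x y t = 205283203125 * (Zg 8 9 (f_eP x y t) (f_eM x y t)) := by
  simp only [nd24, nd25, eW9, v_eP, v_eM, v_eW7, v_eW8, val_f, val_m]
  rw [zg_9]
  push_cast
  ring

theorem v_eW10 (x y t : ℝ) : val eW10 x y t = 5132080078125 * (Zg 8 10 (f_eP x y t) (f_eM x y t)) := by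
  simp only [nd27, nd28, eW10, v_eP, v_eM, v_eW8, v_eW9, val_f, val_m]
  rw [zg_10]
  push_cast
  ring

theorem v_eW11 (x y t : ℝ) : val eW11 x y t = 205283203125000 * (Zg 8 11 (f_eP x y t) (f_eM x y t)) := by
  simp only [nd30, nd31, eW11, v_eP, v_eM, v_eW9, v_eW10, val_f, val_m]
  rw [zg_11]
  push_cast
  ring

theorem v_eq0 (x y t : ℝ) : val eq0 x y t = 1000000000000000000 * (qf0 x x) := by
  simp only [nd0, nd2, nd33, nd34, nd35, nd36, nd37, nd38, nd39, nd40, nd41, nd42, nd43, nd44, nd45, nd46, nd47, eq0, val_f, val_h, val_m, val_vx]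
  unfold qf0
  push_cast
  ring

theorem v_eq1 (x y t : ℝ) : val eq1 x y t = 7372800000000000000000 * (qf1 x x) := by
  simp only [nd0, nd2, nd34, nd37, nd40, nd43, nd46, nd50, nd51, nd52, nd53, nd54, nd55, nd56, nd57, nd58, nd59, eq1, val_f, val_h, val_m, val_vx]
  unfold qf1
  push_cast
  ring

/-- real function of eS1 -/
noncomputable def f_eS1 (x y t : ℝ) : ℝ := qf0 x x * Zg 8 0 (f_eP x y t) (f_eM x y t) + qf1 x x * Zg 8 1 (f_eP x y t) (f_eM x y t)

theorem v_eS1 (x y t : ℝ) : val eS1 x y t = 36864000000000000000000 * (f_eS1 x y t) := by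
  simp only [nd2, nd49, nd61, eS1, v_eP, v_eq0, v_eq1, val_f, val_h, val_m]
  unfold f_eS1
  rw [zg_0, zg_1]
  push_cast
  ring

theorem v_eq2 (x y t : ℝ) : val eq2 x y t = 36864000000000000000000 * (qf2 x x) := by
  simp only [nd0, nd2, nd34, nd37, nd40, nd43, nd46, nd64, nd65, nd66, nd67, nd68, nd69, nd70, nd71, nd72, nd73, eq2, val_f, val_h, val_m, val_vx]
  unfold qf2
  push_cast
  ring

/-- real function of eS2 -/
noncomputable def f_eS2 (x y t : ℝ) : ℝ := f_eS1 x y t + qf2 x x * Zg 8 2 (f_eP x y t) (f_eM x y t)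

theorem v_eS2 (x y t : ℝ) : val eS2 x y t = 6451200000000000000000000 * (f_eS2 x y t) := by
  simp only [nd2, nd63, nd75, eS2, v_eW2, v_eS1, v_eq2, val_f, val_h, val_m]
  unfold f_eS2
  push_cast
  ring

theorem v_eq3 (x y t : ℝ) : val eq3 x y t = 36864000000000000000000 * (qf3 x x) := by
  simp only [nd0, nd2, nd34, nd37, nd40, nd43, nd46, nd78, nd79, nd80, nd81, nd82, nd83, nd84, nd85, nd86, nd87, eq3, val_f, val_h, val_m, val_vx]
  unfold qf3
  push_cast
  ring

/-- real function of eS3 -/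
noncomputable def f_eS3 (x y t : ℝ) : ℝ := f_eS2 x y t + qf3 x x * Zg 8 3 (f_eP x y t) (f_eM x y t)

theorem v_eS3 (x y t : ℝ) : val eS3 x y t = 129024000000000000000000000 * (f_eS3 x y t) := by
  simp only [nd2, nd77, nd89, eS3, v_eW3, v_eS2, v_eq3, val_f, val_h, val_m]
  unfold f_eS3
  push_cast
  ring

theorem v_eq4 (x y t : ℝ) : val eq4 x y t = 36864000000000000000000 * (qf4 x x) := by
  simp only [nd0, nd2, nd34, nd37, nd40, nd43, nd46, nd92, nd93, nd94, nd95, nd96, nd97, nd98, nd99, nd100, nd101, eq4, val_f, val_h, val_m, val_vx]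
  unfold qf4
  push_cast
  ring

/-- real function of eS4 -/
noncomputable def f_eS4 (x y t : ℝ) : ℝ := f_eS3 x y t + qf4 x x * Zg 8 4 (f_eP x y t) (f_eM x y t)

theorem v_eS4 (x y t : ℝ) : val eS4 x y t = 1935360000000000000000000000 * (f_eS4 x y t) := by
  simp only [nd2, nd91, nd103, eS4, v_eW4, v_eS3, v_eq4, val_f, val_h, val_m]
  unfold f_eS4
  push_cast
  ring

theorem v_eq5 (x y t : ℝ) : val eq5 x y t = 55296000000000000000000 * (qf5 x x) := by
  simp only [nd0, nd2, nd34, nd37, nd40, nd43, nd46, nd106, nd107, nd108, nd109, nd110, nd111, nd112, nd113, nd114, nd115, eq5, val_f, val_h, val_m, val_vx]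
  unfold qf5
  push_cast
  ring

/-- real function of eS5 -/
noncomputable def f_eS5 (x y t : ℝ) : ℝ := f_eS4 x y t + qf5 x x * Zg 8 5 (f_eP x y t) (f_eM x y t)

theorem v_eS5 (x y t : ℝ) : val eS5 x y t = 145152000000000000000000000000 * (f_eS5 x y t) := by
  simp only [nd2, nd105, nd117, eS5, v_eW5, v_eS4, v_eq5, val_f, val_h, val_m]
  unfold f_eS5
  push_cast
  ring

theorem v_eq6 (x y t : ℝ) : val eq6 x y t = 36864000000000000000000 * (qf6 x x) := by
  simp only [nd0, nd2, nd34, nd37, nd40, nd43, nd46, nd120, nd121, nd122, nd123, nd124, nd125, nd126, nd127, nd128, nd129, eq6, val_f, val_h, val_m, val_vx]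
  unfold qf6
  push_cast
  ring

/-- real function of eS6 -/
noncomputable def f_eS6 (x y t : ℝ) : ℝ := f_eS5 x y t + qf6 x x * Zg 8 6 (f_eP x y t) (f_eM x y t)

theorem v_eS6 (x y t : ℝ) : val eS6 x y t = 7983360000000000000000000000000 * (f_eS6 x y t) := by
  simp only [nd2, nd119, nd131, eS6, v_eW6, v_eS5, v_eq6, val_f, val_h, val_m]
  unfold f_eS6
  push_cast
  ring

theorem v_eq7 (x y t : ℝ) : val eq7 x y t = 110592000000000000000000 * (qf7 x x) := by
  simp only [nd0, nd2, nd34, nd37, nd40, nd43, nd46, nd134, nd135, nd136, nd137, nd138, nd139, nd140, nd141, nd142, nd143, eq7, val_f, val_h, val_m, val_vx]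
  unfold qf7
  push_cast
  ring

/-- real function of eS7 -/
noncomputable def f_eS7 (x y t : ℝ) : ℝ := f_eS6 x y t + qf7 x x * Zg 8 7 (f_eP x y t) (f_eM x y t)

theorem v_eS7 (x y t : ℝ) : val eS7 x y t = 39916800000000000000000000000000 * (f_eS7 x y t) := by
  simp only [nd2, nd133, nd145, eS7, v_eW7, v_eS6, v_eq7, val_f, val_h, val_m]
  unfold f_eS7
  push_cast
  ring

theorem v_eq8 (x y t : ℝ) : val eq8 x y t = 250000000000000000 * (qf8 x x) := by
  simp only [nd0, nd2, nd34, nd37, nd40, nd43, nd46, nd148, nd149, nd150, nd151, nd152, nd153, nd154, eq8, val_f, val_h, val_m, val_vx]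
  unfold qf8
  push_cast
  ring

/-- real function of eS8 -/
noncomputable def f_eS8 (x y t : ℝ) : ℝ := f_eS7 x y t + qf8 x x * Zg 8 8 (f_eP x y t) (f_eM x y t)

theorem v_eS8 (x y t : ℝ) : val eS8 x y t = 2594592000000000000000000000000000 * (f_eS8 x y t) := by
  simp only [nd2, nd147, nd156, eS8, v_eW8, v_eS7, v_eq8, val_f, val_h, val_m]
  unfold f_eS8
  push_cast
  ring

theorem v_eq9 (x y t : ℝ) : val eq9 x y t = 4096000000000000000000 * (qf9 x x) := by
  simp only [nd0, nd2, nd34, nd37, nd40, nd43, nd46, nd159, nd160, nd161, nd162, nd163, nd164, nd165, nd166, nd167, nd168, eq9, val_f, val_h, val_m, val_vx]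
  unfold qf9
  push_cast
  ring

/-- real function of eS9 -/
noncomputable def f_eS9 (x y t : ℝ) : ℝ := f_eS8 x y t + qf9 x x * Zg 8 9 (f_eP x y t) (f_eM x y t)

theorem v_eS9 (x y t : ℝ) : val eS9 x y t = 90810720000000000000000000000000000 * (f_eS9 x y t) := by
  simp only [nd2, nd158, nd170, eS9, v_eW9, v_eS8, v_eq9, val_f, val_h, val_m]
  unfold f_eS9
  push_cast
  ring

theorem v_eq10 (x y t : ℝ) : val eq10 x y t = 4096000000000000000000 * (qf10 x x) := by
  simp only [nd0, nd2, nd34, nd37, nd40, nd43, nd46, nd173, nd174, nd175, nd176, nd177, nd178, nd179, nd180, nd181, nd182, eq10, val_f, val_h, val_m, val_vx]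
  unfold qf10
  push_cast
  ring

/-- real function of eS10 -/
noncomputable def f_eS10 (x y t : ℝ) : ℝ := f_eS9 x y t + qf10 x x * Zg 8 10 (f_eP x y t) (f_eM x y t)

theorem v_eS10 (x y t : ℝ) : val eS10 x y t = 2270268000000000000000000000000000000 * (f_eS10 x y t) := by
  simp only [nd2, nd172, nd184, eS10, v_eW10, v_eS9, v_eq10, val_f, val_h, val_m]
  unfold f_eS10
  push_cast
  ring

theorem v_eq11 (x y t : ℝ) : val eq11 x y t = 1024000000000000000000 * (qf11 x x) := by
  simp only [nd0, nd2, nd34, nd37, nd40, nd43, nd46, nd187, nd188, nd189, nd190, nd191, nd192, nd193, nd194, nd195, eq11, val_f, val_h, val_m, val_vx]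
  unfold qf11
  push_cast
  ring

/-- real function of eS11 -/
noncomputable def f_eS11 (x y t : ℝ) : ℝ := f_eS10 x y t + qf11 x x * Zg 8 11 (f_eP x y t) (f_eM x y t)

theorem v_eS11 (x y t : ℝ) : val eS11 x y t = 11351340000000000000000000000000000000 * (f_eS11 x y t) := by
  simp only [nd2, nd186, nd197, eS11, v_eW11, v_eS10, v_eq11, val_f, val_h, val_m]
  unfold f_eS11
  push_cast
  ring

/-- real function of eV -/
noncomputable def f_eV (x y t : ℝ) : ℝ := (((((((((801889 / 10000000) + ((119707 / 10000000) * (x ^ 1))) + (((-170063) / 5000000) * (x ^ 2))) + (((-79121) / 5000000) * (x ^ 3))) + (((-134799) / 500000) * (x ^ 4))) + ((12686271 / 10000000) * (x ^ 5))) + (((-3606929) / 1000000) * (x ^ 6))) + ((27672357 / 5000000) * (x ^ 7))) + (((-4372693) / 1000000) * (x ^ 8))) + ((7019677 / 5000000) * (x ^ 9))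

theorem v_eV (x y t : ℝ) : val eV x y t = 10000000 * (f_eV x y t) := by
  simp only [nd0, nd2, nd34, nd37, nd40, nd43, nd46, nd199, nd200, nd201, nd202, nd203, nd204, nd205, nd206, nd207, nd208, nd209, nd210, nd211, nd212, nd213, nd214, nd215, nd216, nd217, eV, val_f, val_h, val_m, val_vx]
  unfold f_eV
  push_cast
  ring

/-- real function of el -/
noncomputable def f_el (x y t : ℝ) : ℝ := (((38571 / 80000000) + ((40769547 / 160000000000) * (x ^ 1))) + ((1577592471 / 800000000000) * (x ^ 2))) + (((-541575411) / 200000000000) * (x ^ 3))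

theorem v_el (x y t : ℝ) : val el x y t = (800000000000 / 38571) * (f_el x y t) := by
  simp only [nd0, nd2, nd34, nd37, nd219, nd220, nd221, nd222, el, val_f, val_h, val_m, val_vx]
  unfold f_el
  push_cast
  ring


theorem KT_eq (x y t : ℝ) : f_eS11 x y t =
    Kt 11 4 cA x x (1 - 2 / 5 * x) ((1 - 2 / 5 * x) * (1 - 2 / 5 * x)) := by
  rw [Kt_eq]
  simp only [f_eS11, f_eS10, f_eS9, f_eS8, f_eS7, f_eS6, f_eS5, f_eS4, f_eS3, f_eS2, f_eS1, f_eP, f_eM]

theorem l_eq (x y t : ℝ) : ∑ i ∈ range 4, cA 0 i 0 * x ^ i = f_el x y t := by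
  unfold cA f_el
  simp only [sum_range_succ, sum_range_zero, cw, cL, cL0]
  ring

theorem V_eq (x y t : ℝ) : PW.VV x = f_eV x y t := by
  unfold PW.VV f_eV
  ring

end Pool.Agent.Lib.MP_f1379f_gt.FV.CJ.V
end

section
/-!
# programs, chart U
-/
set_option autoImplicit false
set_option linter.unusedVariables false
set_option linter.unusedSimpArgs false
set_option linter.unusedTactic false
set_option linter.style.longLine false
set_option maxRecDepth 100000

namespace Pool.Agent.Lib.MP_f1379f_gt.FV.CJ.U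

open Finset Pool.Agent.Lib.MP_f1379f_gt.FV Pool.Agent.Lib.MP_f1379f_gt.FV.BCH Pool.Agent.Lib.MP_f1379f_gt.FV.CJ

/-- node -/
def nd0 : Ex := .v .x
/-- node -/
def nd1 : Ex := .v .y
/-- node -/
def nd2 : Ex := .v .t
/-- node -/
def nd4 : Ex := .m nd0 nd1
/-- node -/
def nd5 : Ex := .h .x
/-- node -/
def nd6 : Ex := .h .y
/-- node -/
def nd7 : Ex := .m nd5 nd6
/-- node -/
def nd8 : Ex := .m nd2 nd7
/-- node -/
def nd9 : Ex := .h .t
/-- node -/
def nd10 : Ex := .m nd4 nd9
/-- node -/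
def eP : Ex := .f 25 nd8 (-2) nd10
/-- node -/
def nd12 : Ex := .f 5 nd5 (-2) nd0
/-- node -/
def nd13 : Ex := .f 5 nd6 (-2) nd1
/-- node -/
def nd14 : Ex := .m nd12 nd13
/-- node -/
def nd15 : Ex := .m nd6 nd9
/-- node -/
def nd16 : Ex := .m nd5 nd15
/-- node -/
def nd17 : Ex := .m nd9 nd16
/-- node -/
def eM : Ex := .m nd14 nd17
/-- node -/
def nd19 : Ex := .m eP eP
/-- node -/
def eW2 : Ex := .f 8 nd19 (-25) eM
/-- node -/
def nd21 : Ex := .m eP eW2
/-- node -/
def nd22 : Ex := .m eM eP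
/-- node -/
def eW3 : Ex := .f 1 nd21 (-35) nd22
/-- node -/
def nd24 : Ex := .m eP eW3
/-- node -/
def nd25 : Ex := .m eM eW2
/-- node -/
def eW4 : Ex := .f 1 nd24 (-5) nd25
/-- node -/
def nd27 : Ex := .m eP eW4
/-- node -/
def nd28 : Ex := .m eM eW3
/-- node -/
def eW5 : Ex := .f 14 nd27 (-75) nd28
/-- node -/
def nd30 : Ex := .m eP eW5
/-- node -/
def nd31 : Ex := .m eM eW4
/-- node -/
def eW6 : Ex := .f 8 nd30 (-625) nd31
/-- node -/
def nd33 : Ex := .m eP eW6
/-- node -/
def nd34 : Ex := .m eM eW5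
/-- node -/
def eW7 : Ex := .f 6 nd33 (-275) nd34
/-- node -/
def nd36 : Ex := .m eP eW7
/-- node -/
def nd37 : Ex := .m eM eW6
/-- node -/
def eW8 : Ex := .f 1 nd36 (-35) nd37
/-- node -/
def nd39 : Ex := .m eP eW8
/-- node -/
def nd40 : Ex := .m eM eW7
/-- node -/
def eW9 : Ex := .f 11 nd39 (-65) nd40
/-- node -/
def nd42 : Ex := .m eP eW9
/-- node -/
def nd43 : Ex := .m eM eW8
/-- node -/
def eW10 : Ex := .f 8 nd42 (-525) nd43
/-- node -/
def nd45 : Ex := .m eP eW10
/-- node -/
def nd46 : Ex := .m eM eW9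
/-- node -/
def eW11 : Ex := .f 13 nd45 (-625) nd46
/-- node -/
def nd48 : Ex := .f 2000 nd6 1057 nd1
/-- node -/
def nd49 : Ex := .m nd1 nd1
/-- node -/
def nd50 : Ex := .m nd48 nd6
/-- node -/
def nd51 : Ex := .f 5 nd50 40901 nd49
/-- node -/
def nd52 : Ex := .m nd49 nd1
/-- node -/
def nd53 : Ex := .m nd51 nd6
/-- node -/
def nd54 : Ex := .f 1 nd53 (-56164) nd52
/-- node -/
def nd55 : Ex := .f 506454000 nd6 289132939 nd1
/-- node -/
def nd56 : Ex := .m nd55 nd6
/-- node -/
def nd57 : Ex := .f 5 nd56 9424998439 nd49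
/-- node -/
def nd58 : Ex := .m nd57 nd6
/-- node -/
def nd59 : Ex := .f 1 nd58 (-13245791292) nd52
/-- node -/
def nd60 : Ex := .m nd0 nd59
/-- node -/
def nd61 : Ex := .m nd54 nd5
/-- node -/
def nd62 : Ex := .f 3354000 nd61 7 nd60
/-- node -/
def nd63 : Ex := .f 19597422000 nd6 9424998439 nd1
/-- node -/
def nd64 : Ex := .m nd63 nd6
/-- node -/
def nd65 : Ex := .f 100625 nd64 9013959094124934 nd49
/-- node -/
def nd66 : Ex := .m nd65 nd6
/-- node -/
def nd67 : Ex := .f 1 nd66 (-12080844608653173) nd52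
/-- node -/
def nd68 : Ex := .m nd0 nd0
/-- node -/
def nd69 : Ex := .m nd68 nd67
/-- node -/
def nd70 : Ex := .m nd62 nd5
/-- node -/
def nd71 : Ex := .f 14375 nd70 1 nd69
/-- node -/
def nd72 : Ex := .f (-15697838000) nd6 (-7726711587) nd1
/-- node -/
def nd73 : Ex := .m nd72 nd6
/-- node -/
def nd74 : Ex := .f 57500 nd73 (-4026948202884391) nd49
/-- node -/
def nd75 : Ex := .m nd74 nd6
/-- node -/
def nd76 : Ex := .f 1 nd75 5433292295096085 nd52
/-- node -/
def nd77 : Ex := .m nd68 nd0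
/-- node -/
def nd78 : Ex := .m nd77 nd76
/-- node -/
def nd79 : Ex := .m nd71 nd5
/-- node -/
def eq0 : Ex := .f 1 nd79 3 nd78
/-- node -/
def nd81 : Ex := .m eq0 nd16
/-- node -/
def nd82 : Ex := .f 10000 nd6 10673 nd1
/-- node -/
def nd83 : Ex := .m nd82 nd6
/-- node -/
def nd84 : Ex := .f 1 nd83 40763 nd49
/-- node -/
def nd85 : Ex := .m nd84 nd6
/-- node -/
def nd86 : Ex := .f 1 nd85 (-38839) nd52
/-- node -/
def nd87 : Ex := .f 4824410778222230000 nd6 15913309959980586079 nd1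
/-- node -/
def nd88 : Ex := .m nd87 nd6
/-- node -/
def nd89 : Ex := .f 1 nd88 (-79069028690214963851) nd49
/-- node -/
def nd90 : Ex := .m nd89 nd6
/-- node -/
def nd91 : Ex := .f 1 nd90 36943609243309836103 nd52
/-- node -/
def nd92 : Ex := .m nd0 nd91
/-- node -/
def nd93 : Ex := .m nd86 nd5
/-- node -/
def nd94 : Ex := .f 452020123510000 nd93 1 nd92
/-- node -/
def nd95 : Ex := .f 18425696294638130000 nd6 (-79069028690214963851) nd1
/-- node -/
def nd96 : Ex := .m nd95 nd6
/-- node -/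
def nd97 : Ex := .f 1 nd96 983683443917033255719 nd49
/-- node -/
def nd98 : Ex := .m nd97 nd6
/-- node -/
def nd99 : Ex := .f 1 nd98 (-604811628859895781779) nd52
/-- node -/
def nd100 : Ex := .m nd68 nd99
/-- node -/
def nd101 : Ex := .m nd94 nd5
/-- node -/
def nd102 : Ex := .f 1 nd101 1 nd100
/-- node -/
def nd103 : Ex := .f (-17556009577004890000) nd6 36943609243309836103 nd1
/-- node -/
def nd104 : Ex := .m nd103 nd6
/-- node -/
def nd105 : Ex := .f 1 nd104 (-604811628859895781779) nd49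
/-- node -/
def nd106 : Ex := .m nd105 nd6
/-- node -/
def nd107 : Ex := .f 5 nd106 2737569293435233922987 nd52
/-- node -/
def nd108 : Ex := .m nd77 nd107
/-- node -/
def nd109 : Ex := .m nd102 nd5
/-- node -/
def eq1 : Ex := .f 5 nd109 1 nd108
/-- node -/
def nd111 : Ex := .m eq1 eP
/-- node -/
def eS1 : Ex := .f 184320 nd81 1 nd111
/-- node -/
def nd113 : Ex := .m eS1 nd16
/-- node -/
def nd114 : Ex := .f 5000 nd6 7417 nd1
/-- node -/
def nd115 : Ex := .m nd114 nd6
/-- node -/
def nd116 : Ex := .f 2 nd115 52223 nd49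
/-- node -/
def nd117 : Ex := .m nd116 nd6
/-- node -/
def nd118 : Ex := .f 1 nd117 (-42373) nd52
/-- node -/
def nd119 : Ex := .f 200808583271345000 nd6 414689003969033173 nd1
/-- node -/
def nd120 : Ex := .m nd119 nd6
/-- node -/
def nd121 : Ex := .f 2 nd120 83194869646871363 nd49
/-- node -/
def nd122 : Ex := .m nd121 nd6
/-- node -/
def nd123 : Ex := .f 1 nd122 (-1594307632370565937) nd52
/-- node -/
def nd124 : Ex := .m nd0 nd123
/-- node -/
def nd125 : Ex := .m nd118 nd5
/-- node -/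
def nd126 : Ex := .f 27074097785000 nd125 1 nd124
/-- node -/
def nd127 : Ex := .f 1413890608626055000 nd6 83194869646871363 nd1
/-- node -/
def nd128 : Ex := .m nd127 nd6
/-- node -/
def nd129 : Ex := .f 1250 nd128 31021415230754462493973 nd49
/-- node -/
def nd130 : Ex := .m nd129 nd6
/-- node -/
def nd131 : Ex := .f 1 nd130 (-9276941209285947793175) nd52
/-- node -/
def nd132 : Ex := .m nd68 nd131
/-- node -/
def nd133 : Ex := .m nd126 nd5
/-- node -/
def nd134 : Ex := .f 1250 nd133 1 nd132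
/-- node -/
def nd135 : Ex := .f (-1147210745443805000) nd6 (-1594307632370565937) nd1
/-- node -/
def nd136 : Ex := .m nd135 nd6
/-- node -/
def nd137 : Ex := .f 50 nd136 (-371077648371437911727) nd49
/-- node -/
def nd138 : Ex := .m nd137 nd6
/-- node -/
def nd139 : Ex := .f 25 nd138 11514960197149925761549 nd52
/-- node -/
def nd140 : Ex := .m nd77 nd139
/-- node -/
def nd141 : Ex := .m nd134 nd5
/-- node -/
def eq2 : Ex := .f 1 nd141 1 nd140
/-- node -/
def nd143 : Ex := .m eq2 eW2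
/-- node -/
def eS2 : Ex := .f 875 nd113 1 nd143
/-- node -/
def nd145 : Ex := .m eS2 nd16
/-- node -/
def nd146 : Ex := .f 10000 nd6 20731 nd1
/-- node -/
def nd147 : Ex := .m nd146 nd6
/-- node -/
def nd148 : Ex := .f 1 nd147 55143 nd49
/-- node -/
def nd149 : Ex := .m nd148 nd6
/-- node -/
def nd150 : Ex := .f 1 nd149 (-13440) nd52
/-- node -/
def nd151 : Ex := .f 52509695866763690000 nd6 148782140971275805739 nd1
/-- node -/
def nd152 : Ex := .m nd151 nd6
/-- node -/
def nd153 : Ex := .f 1 nd152 (-26230951982531109033) nd49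
/-- node -/
def nd154 : Ex := .m nd153 nd6
/-- node -/
def nd155 : Ex := .f 1 nd154 (-296468659152603692160) nd52
/-- node -/
def nd156 : Ex := .m nd0 nd155
/-- node -/
def nd157 : Ex := .m nd150 nd5
/-- node -/
def nd158 : Ex := .f 2532907040990000 nd157 1 nd156
/-- node -/
def nd159 : Ex := .f 1410829221831430000 nd6 (-264959110934657667) nd1
/-- node -/
def nd160 : Ex := .m nd159 nd6
/-- node -/
def nd161 : Ex := .f 25 nd160 826286387444693128073 nd49
/-- node -/
def nd162 : Ex := .m nd161 nd6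
/-- node -/
def nd163 : Ex := .f 1 nd162 396249315581676006528 nd52
/-- node -/
def nd164 : Ex := .m nd68 nd163
/-- node -/
def nd165 : Ex := .m nd158 nd5
/-- node -/
def nd166 : Ex := .f 25 nd165 99 nd164
/-- node -/
def nd167 : Ex := .f (-2532907040990000) nd6 (-22058679996473489) nd1
/-- node -/
def nd168 : Ex := .m nd167 nd6
/-- node -/
def nd169 : Ex := .f 875 nd168 102158026673400845433 nd49
/-- node -/
def nd170 : Ex := .m nd169 nd6
/-- node -/
def nd171 : Ex := .f 1 nd170 103054056011332060320 nd52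
/-- node -/
def nd172 : Ex := .m nd77 nd171
/-- node -/
def nd173 : Ex := .m nd166 nd5
/-- node -/
def eq3 : Ex := .f 1 nd173 384 nd172
/-- node -/
def nd175 : Ex := .m eq3 eW3
/-- node -/
def eS3 : Ex := .f 20 nd145 1 nd175
/-- node -/
def nd177 : Ex := .m eS3 nd16
/-- node -/
def nd178 : Ex := .f 10000 nd6 23621 nd1
/-- node -/
def nd179 : Ex := .m nd178 nd6
/-- node -/
def nd180 : Ex := .f 1 nd179 88904 nd49
/-- node -/
def nd181 : Ex := .m nd180 nd6
/-- node -/
def nd182 : Ex := .f 1 nd181 (-1983) nd52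
/-- node -/
def nd183 : Ex := .f 15145070108947870000 nd6 39329089870771363727 nd1
/-- node -/
def nd184 : Ex := .m nd183 nd6
/-- node -/
def nd185 : Ex := .f 1 nd184 112341809190059286488 nd49
/-- node -/
def nd186 : Ex := .m nd185 nd6
/-- node -/
def nd187 : Ex := .f 1 nd186 (-72846776053568125821) nd52
/-- node -/
def nd188 : Ex := .m nd0 nd187
/-- node -/
def nd189 : Ex := .m nd182 nd5
/-- node -/
def nd190 : Ex := .f 641169726470000 nd189 1 nd188
/-- node -/
def nd191 : Ex := .f 1017902738608730000 nd6 2006103735536772973 nd1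
/-- node -/
def nd192 : Ex := .m nd191 nd6
/-- node -/
def nd193 : Ex := .f 875 nd192 10170936375987316068824 nd49
/-- node -/
def nd194 : Ex := .m nd193 nd6
/-- node -/
def nd195 : Ex := .f 1 nd194 6127771052963304077955 nd52
/-- node -/
def nd196 : Ex := .m nd68 nd195
/-- node -/
def nd197 : Ex := .m nd190 nd5
/-- node -/
def nd198 : Ex := .f 125 nd197 8 nd196
/-- node -/
def nd199 : Ex := .f (-423813189196670000) nd6 (-24282258684522708607) nd1
/-- node -/
def nd200 : Ex := .m nd199 nd6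
/-- node -/
def nd201 : Ex := .f 25 nd200 3268144561580428841576 nd49
/-- node -/
def nd202 : Ex := .m nd201 nd6
/-- node -/
def nd203 : Ex := .f 1 nd202 13943097333325126931589 nd52
/-- node -/
def nd204 : Ex := .m nd77 nd203
/-- node -/
def nd205 : Ex := .m nd198 nd5
/-- node -/
def eq4 : Ex := .f 1 nd205 15 nd204
/-- node -/
def nd207 : Ex := .m eq4 eW4
/-- node -/
def eS4 : Ex := .f 75 nd177 4 nd207
/-- node -/
def nd209 : Ex := .m eS4 nd16
/-- node -/
def nd210 : Ex := .f 10000 nd6 29029 nd1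
/-- node -/
def nd211 : Ex := .m nd210 nd6
/-- node -/
def nd212 : Ex := .f 1 nd211 119362 nd49
/-- node -/
def nd213 : Ex := .m nd212 nd6
/-- node -/
def nd214 : Ex := .f 1 nd213 89206 nd52
/-- node -/
def nd215 : Ex := .f 23750953421465270000 nd6 75692145900329932283 nd1
/-- node -/
def nd216 : Ex := .m nd215 nd6
/-- node -/
def nd217 : Ex := .f 1 nd216 258068955867293166974 nd49
/-- node -/
def nd218 : Ex := .m nd217 nd6
/-- node -/
def nd219 : Ex := .f 1 nd218 (-65407899988566102838) nd52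
/-- node -/
def nd220 : Ex := .m nd0 nd219
/-- node -/
def nd221 : Ex := .m nd214 nd5
/-- node -/
def nd222 : Ex := .f 818180213630000 nd221 1 nd220
/-- node -/
def nd223 : Ex := .f 48829813329652030000 nd6 129034477933646583487 nd1
/-- node -/
def nd224 : Ex := .m nd223 nd6
/-- node -/
def nd225 : Ex := .f 5 nd224 3197426275646881851134 nd49
/-- node -/
def nd226 : Ex := .m nd225 nd6
/-- node -/
def nd227 : Ex := .f 1 nd226 4424120339325650158922 nd52
/-- node -/
def nd228 : Ex := .m nd68 nd227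
/-- node -/
def nd229 : Ex := .m nd222 nd5
/-- node -/
def nd230 : Ex := .f 5 nd229 2 nd228
/-- node -/
def nd231 : Ex := .f 2807176312964530000 nd6 (-2515688461098696263) nd1
/-- node -/
def nd232 : Ex := .m nd231 nd6
/-- node -/
def nd233 : Ex := .f 65 nd232 4424120339325650158922 nd49
/-- node -/
def nd234 : Ex := .m nd233 nd6
/-- node -/
def nd235 : Ex := .f 25 nd234 832660645335110378865566 nd52
/-- node -/
def nd236 : Ex := .m nd77 nd235
/-- node -/
def nd237 : Ex := .m nd230 nd5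
/-- node -/
def eq5 : Ex := .f 25 nd237 2 nd236
/-- node -/
def nd239 : Ex := .m eq5 eW5
/-- node -/
def eS5 : Ex := .f 375 nd209 4 nd239
/-- node -/
def nd241 : Ex := .m eS5 nd16
/-- node -/
def nd242 : Ex := .f 2000 nd6 6337 nd1
/-- node -/
def nd243 : Ex := .m nd242 nd6
/-- node -/
def nd244 : Ex := .f 5 nd243 208522 nd49
/-- node -/
def nd245 : Ex := .m nd244 nd6
/-- node -/
def nd246 : Ex := .f 1 nd245 270531 nd52
/-- node -/
def nd247 : Ex := .f 344810621946742000 nd6 1506503828604140027 nd1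
/-- node -/
def nd248 : Ex := .m nd247 nd6
/-- node -/
def nd249 : Ex := .f 5 nd248 7358125466781315278 nd49
/-- node -/
def nd250 : Ex := .m nd249 nd6
/-- node -/
def nd251 : Ex := .f 1 nd250 139714164966857629041 nd52
/-- node -/
def nd252 : Ex := .m nd0 nd251
/-- node -/
def nd253 : Ex := .m nd246 nd5
/-- node -/
def nd254 : Ex := .f 54412280566000 nd253 1 nd252
/-- node -/
def nd255 : Ex := .f 5673078784091726000 nd6 3679062733390657639 nd1
/-- node -/
def nd256 : Ex := .m nd255 nd6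
/-- node -/
def nd257 : Ex := .f 625 nd256 198081971482909559014382 nd49
/-- node -/
def nd258 : Ex := .m nd257 nd6
/-- node -/
def nd259 : Ex := .f 1 nd258 (-311604722349375647099295) nd52
/-- node -/
def nd260 : Ex := .m nd68 nd259
/-- node -/
def nd261 : Ex := .m nd254 nd5
/-- node -/
def nd262 : Ex := .f 625 nd261 2 nd260
/-- node -/
def nd263 : Ex := .f 1635578741533394000 nd6 15523796107428625449 nd1
/-- node -/
def nd264 : Ex := .m nd263 nd6
/-- node -/
def nd265 : Ex := .f 125 nd264 (-13849098771083362093302) nd49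
/-- node -/
def nd266 : Ex := .m nd265 nd6
/-- node -/
def nd267 : Ex := .f 1 nd266 65813858098536726582915 nd52
/-- node -/
def nd268 : Ex := .m nd77 nd267
/-- node -/
def nd269 : Ex := .m nd262 nd5
/-- node -/
def eq6 : Ex := .f 1 nd269 45 nd268
/-- node -/
def nd271 : Ex := .m eq6 eW6
/-- node -/
def eS6 : Ex := .f 275 nd241 12 nd271
/-- node -/
def nd273 : Ex := .m eS6 nd16
/-- node -/
def nd274 : Ex := .f 10000 nd6 50677 nd1
/-- node -/
def nd275 : Ex := .m nd274 nd6
/-- node -/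
def nd276 : Ex := .f 1 nd275 416060 nd49
/-- node -/
def nd277 : Ex := .m nd276 nd6
/-- node -/
def nd278 : Ex := .f 1 nd277 1564171 nd52
/-- node -/
def nd279 : Ex := .f 22902500698990000 nd6 248446475145551623 nd1
/-- node -/
def nd280 : Ex := .m nd279 nd6
/-- node -/
def nd281 : Ex := .f 1 nd280 (-956061750557649004) nd49
/-- node -/
def nd282 : Ex := .m nd281 nd6
/-- node -/
def nd283 : Ex := .f 1 nd282 10229144790428118265 nd52
/-- node -/
def nd284 : Ex := .m nd0 nd283
/-- node -/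
def nd285 : Ex := .m nd278 nd5
/-- node -/
def nd286 : Ex := .f 451930870000 nd285 1 nd284
/-- node -/
def nd287 : Ex := .f 47007589443050000 nd6 (-239015437639412251) nd1
/-- node -/
def nd288 : Ex := .m nd287 nd6
/-- node -/
def nd289 : Ex := .f 38125 nd288 338205619058012880592588 nd49
/-- node -/
def nd290 : Ex := .m nd289 nd6
/-- node -/
def nd291 : Ex := .f 1 nd290 (-641887521089740400522497) nd52
/-- node -/
def nd292 : Ex := .m nd68 nd291
/-- node -/
def nd293 : Ex := .m nd286 nd5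
/-- node -/
def nd294 : Ex := .f 38125 nd293 4 nd292
/-- node -/
def nd295 : Ex := .f 141379432171754000 nd6 2045828958085623653 nd1
/-- node -/
def nd296 : Ex := .m nd295 nd6
/-- node -/
def nd297 : Ex := .f 190625 nd296 (-2567550084358961602089988) nd49
/-- node -/
def nd298 : Ex := .m nd297 nd6
/-- node -/
def nd299 : Ex := .f 1 nd298 17228615944264760929152379 nd52
/-- node -/
def nd300 : Ex := .m nd77 nd299
/-- node -/
def nd301 : Ex := .m nd294 nd5
/-- node -/
def eq7 : Ex := .f 1 nd301 1 nd300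
/-- node -/
def nd303 : Ex := .m eq7 eW7
/-- node -/
def eS7 : Ex := .f 25 nd273 1 nd303
/-- node -/
def nd305 : Ex := .m eS7 nd16
/-- node -/
def nd306 : Ex := .m nd1 nd6
/-- node -/
def nd307 : Ex := .f 2500 nd306 (-71541) nd49
/-- node -/
def nd308 : Ex := .m nd307 nd6
/-- node -/
def nd309 : Ex := .f 1 nd308 429536 nd52
/-- node -/
def nd310 : Ex := .m nd0 nd309
/-- node -/
def nd311 : Ex := .f (-1919979262417500) nd306 58397642431294147 nd49
/-- node -/
def nd312 : Ex := .m nd311 nd6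
/-- node -/
def nd313 : Ex := .f 1 nd312 (-359492110845480562) nd52
/-- node -/
def nd314 : Ex := .m nd68 nd313
/-- node -/
def nd315 : Ex := .m nd310 nd5
/-- node -/
def nd316 : Ex := .f 26837467500 nd315 1 nd314
/-- node -/
def nd317 : Ex := .f 5763829220040000 nd306 (-179746055422740281) nd49
/-- node -/
def nd318 : Ex := .m nd317 nd6
/-- node -/
def nd319 : Ex := .f 40 nd318 44688684735281602597 nd52
/-- node -/
def nd320 : Ex := .m nd77 nd319
/-- node -/
def nd321 : Ex := .m nd316 nd5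
/-- node -/
def eq8 : Ex := .f 20 nd321 1 nd320
/-- node -/
def nd323 : Ex := .m eq8 eW8
/-- node -/
def eS8 : Ex := .f 65 nd305 1769472 nd323
/-- node -/
def nd325 : Ex := .m eS8 nd16
/-- node -/
def nd326 : Ex := .f 5000 nd6 28307 nd1
/-- node -/
def nd327 : Ex := .m nd326 nd6
/-- node -/
def nd328 : Ex := .f 2 nd327 (-108035) nd49
/-- node -/
def nd329 : Ex := .m nd328 nd6
/-- node -/
def nd330 : Ex := .f 1 nd329 (-2343946) nd52
/-- node -/
def nd331 : Ex := .f 56907510046205000 nd6 386884369221984987 nd1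
/-- node -/
def nd332 : Ex := .m nd331 nd6
/-- node -/
def nd333 : Ex := .f 2 nd332 (-3738828949711312075) nd49
/-- node -/
def nd334 : Ex := .m nd333 nd6
/-- node -/
def nd335 : Ex := .f 1 nd334 (-14670451679364636666) nd52
/-- node -/
def nd336 : Ex := .m nd0 nd335
/-- node -/
def nd337 : Ex := .m nd330 nd5
/-- node -/
def nd338 : Ex := .f 2010368815000 nd337 1 nd336
/-- node -/
def nd339 : Ex := .f (-8687607797141000) nd6 (-149553157988452483) nd1
/-- node -/
def nd340 : Ex := .m nd339 nd6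
/-- node -/
def nd341 : Ex := .f 6250 nd340 13604377286836538773583 nd49
/-- node -/
def nd342 : Ex := .m nd341 nd6
/-- node -/
def nd343 : Ex := .f 1 nd342 (-52769255790675211109454) nd52
/-- node -/
def nd344 : Ex := .m nd68 nd343
/-- node -/
def nd345 : Ex := .m nd338 nd5
/-- node -/
def nd346 : Ex := .f 250 nd345 1 nd344
/-- node -/
def nd347 : Ex := .f (-336585424460285000) nd6 (-1047889405668902619) nd1
/-- node -/
def nd348 : Ex := .m nd347 nd6
/-- node -/
def nd349 : Ex := .f 1750 nd348 (-26384627895337605554727) nd49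
/-- node -/
def nd350 : Ex := .m nd349 nd6
/-- node -/
def nd351 : Ex := .f 1 nd350 308458468166412723833726 nd52
/-- node -/
def nd352 : Ex := .m nd77 nd351
/-- node -/
def nd353 : Ex := .m nd346 nd5
/-- node -/
def eq9 : Ex := .f 1 nd353 2 nd352
/-- node -/
def nd355 : Ex := .m eq9 eW9
/-- node -/
def eS9 : Ex := .f 175 nd325 108 nd355
/-- node -/
def nd357 : Ex := .m eS9 nd16
/-- node -/
def nd358 : Ex := .f 400 nd6 5151 nd1
/-- node -/
def nd359 : Ex := .m nd358 nd6
/-- node -/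
def nd360 : Ex := .f 25 nd359 (-245808) nd49
/-- node -/
def nd361 : Ex := .m nd360 nd6
/-- node -/
def nd362 : Ex := .f 1 nd361 (-3065030) nd52
/-- node -/
def nd363 : Ex := .f 604489706074800 nd6 7890836134211197 nd1
/-- node -/
def nd364 : Ex := .m nd363 nd6
/-- node -/
def nd365 : Ex := .f 25 nd364 (-397622991985580688) nd49
/-- node -/
def nd366 : Ex := .m nd365 nd6
/-- node -/
def nd367 : Ex := .f 5 nd366 (-22987656909221509082) nd52
/-- node -/
def nd368 : Ex := .m nd0 nd367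
/-- node -/
def nd369 : Ex := .m nd362 nd5
/-- node -/
def nd370 : Ex := .f 586769274000 nd369 1 nd368
/-- node -/
def nd371 : Ex := .f (-600969090430800) nd6 (-8283812333032931) nd1
/-- node -/
def nd372 : Ex := .m nd371 nd6
/-- node -/
def nd373 : Ex := .f 125 nd372 2565528756669262384 nd49
/-- node -/
def nd374 : Ex := .m nd373 nd6
/-- node -/
def nd375 : Ex := .f 5 nd374 109183477068858622334 nd52
/-- node -/
def nd376 : Ex := .m nd68 nd375
/-- node -/
def nd377 : Ex := .m nd370 nd5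
/-- node -/
def nd378 : Ex := .f 125 nd377 48 nd376
/-- node -/
def nd379 : Ex := .f (-899232713944110000) nd6 (-11493828454610754541) nd1
/-- node -/
def nd380 : Ex := .m nd379 nd6
/-- node -/
def nd381 : Ex := .f 125 nd380 2620403449652606936016 nd49
/-- node -/
def nd382 : Ex := .m nd381 nd6
/-- node -/
def nd383 : Ex := .f 5 nd382 174203869901719154014114 nd52
/-- node -/
def nd384 : Ex := .m nd77 nd383
/-- node -/
def nd385 : Ex := .m nd378 nd5
/-- node -/
def eq10 : Ex := .f 5 nd385 2 nd384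
/-- node -/
def nd387 : Ex := .m eq10 eW10
/-- node -/
def eS10 : Ex := .f 125 nd357 108 nd387
/-- node -/
def nd389 : Ex := .m eS10 nd16
/-- node -/
def nd390 : Ex := .m nd6 nd6
/-- node -/
def nd391 : Ex := .f 10000 nd390 1 nd49
/-- node -/
def nd392 : Ex := .m nd391 nd6
/-- node -/
def nd393 : Ex := .f 1 nd392 (-32) nd52
/-- node -/
def nd394 : Ex := .f 10000 nd306 (-104777) nd49
/-- node -/
def nd395 : Ex := .m nd394 nd6
/-- node -/
def nd396 : Ex := .f 1 nd395 163788 nd52
/-- node -/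
def nd397 : Ex := .m nd0 nd396
/-- node -/
def nd398 : Ex := .m nd393 nd5
/-- node -/
def nd399 : Ex := .f 8224125 nd398 15483769856 nd397
/-- node -/
def nd400 : Ex := .f 8224125 nd6 (-1622342954202112) nd1
/-- node -/
def nd401 : Ex := .m nd400 nd6
/-- node -/
def nd402 : Ex := .f 10000 nd401 201814640205242913149 nd49
/-- node -/
def nd403 : Ex := .m nd402 nd6
/-- node -/
def nd404 : Ex := .f 1 nd403 (-537911714132799332256) nd52
/-- node -/
def nd405 : Ex := .m nd68 nd404
/-- node -/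
def nd406 : Ex := .m nd399 nd5
/-- node -/
def nd407 : Ex := .f 10000 nd406 1 nd405
/-- node -/
def nd408 : Ex := .f (-2741375) nd6 26417246845568 nd1
/-- node -/
def nd409 : Ex := .m nd408 nd6
/-- node -/
def nd410 : Ex := .f 10000 nd409 (-5603247022216659711) nd49
/-- node -/
def nd411 : Ex := .m nd410 nd6
/-- node -/
def nd412 : Ex := .f 1 nd411 28619209377342366176 nd52
/-- node -/
def nd413 : Ex := .m nd77 nd412
/-- node -/
def nd414 : Ex := .m nd407 nd5
/-- node -/
def eq11 : Ex := .f 1 nd414 96 nd413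
/-- node -/
def nd416 : Ex := .m eq11 eW11
/-- node -/
def eS11 : Ex := .f 25 nd389 54 nd416
/-- node -/
def nd418 : Ex := .f 1 nd2 1 nd9
/-- node -/
def nd419 : Ex := .f 2 nd2 1 nd9
/-- node -/
def nd420 : Ex := .m nd419 nd419
/-- node -/
def nd421 : Ex := .m nd418 nd420
/-- node -/
def nd422 : Ex := .m nd2 nd2
/-- node -/
def eB : Ex := .m nd421 nd422
/-- node -/
def nd424 : Ex := .m nd12 nd6
/-- node -/
def nd425 : Ex := .m nd13 nd5
/-- node -/
def nd426 : Ex := .f 1 nd424 1 nd425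
/-- node -/
def nd427 : Ex := .m nd426 nd9
/-- node -/
def eD2 : Ex := .f 5 nd427 (-2) eP
/-- node -/
def eDd : Ex := .f 25 eM (-1) nd19
/-- node -/
def nd430 : Ex := .f 1 nd5 (-1) nd0
/-- node -/
def nd431 : Ex := .f 1 nd6 (-1) nd1
/-- node -/
def eR1 : Ex := .m nd430 nd431
/-- node -/
def nd433 : Ex := .m eR1 eR1
/-- node -/
def eR3 : Ex := .m nd433 eR1
/-- node -/
def eK3 : Ex := .m eR3 eS11

/-- real function of eP -/
noncomputable def f_eP (x y t : ℝ) : ℝ := t - (((2 / 25) * x) * y)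

theorem v_eP (x y t : ℝ) : val eP x y t = 25 * (f_eP x y t) := by
  simp only [nd0, nd1, nd2, nd4, nd5, nd6, nd7, nd8, nd9, nd10, eP, val_f, val_h, val_m, val_vt, val_vx, val_vy]
  unfold f_eP
  push_cast
  ring

/-- real function of eM -/
noncomputable def f_eM (x y t : ℝ) : ℝ := (1 - ((2 / 5) * x)) * (1 - ((2 / 5) * y))

theorem v_eM (x y t : ℝ) : val eM x y t = 25 * (f_eM x y t) := by
  simp only [nd0, nd1, nd5, nd6, nd9, nd12, nd13, nd14, nd15, nd16, nd17, eM, val_f, val_h, val_m, val_vx, val_vy]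
  unfold f_eM
  push_cast
  ring

theorem v_eW2 (x y t : ℝ) : val eW2 x y t = 4375 * (Zg 8 2 (f_eP x y t) (f_eM x y t)) := by
  simp only [nd19, eW2, v_eP, v_eM, val_f, val_m]
  rw [zg_2]
  rw [zg_0, zg_1]
  push_cast
  ring

theorem v_eW3 (x y t : ℝ) : val eW3 x y t = 87500 * (Zg 8 3 (f_eP x y t) (f_eM x y t)) := by
  simp only [nd21, nd22, eW3, v_eP, v_eM, v_eW2, val_f, val_m]
  rw [zg_3]
  rw [zg_1]
  push_cast
  ring

theorem v_eW4 (x y t : ℝ) : val eW4 x y t = 1640625 * (Zg 8 4 (f_eP x y t) (f_eM x y t)) := by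
  simp only [nd24, nd25, eW4, v_eP, v_eM, v_eW2, v_eW3, val_f, val_m]
  rw [zg_4]
  push_cast
  ring

theorem v_eW5 (x y t : ℝ) : val eW5 x y t = 410156250 * (Zg 8 5 (f_eP x y t) (f_eM x y t)) := by
  simp only [nd27, nd28, eW5, v_eP, v_eM, v_eW3, v_eW4, val_f, val_m]
  rw [zg_5]
  push_cast
  ring

theorem v_eW6 (x y t : ℝ) : val eW6 x y t = 56396484375 * (Zg 8 6 (f_eP x y t) (f_eM x y t)) := by
  simp only [nd30, nd31, eW6, v_eP, v_eM, v_eW4, v_eW5, val_f, val_m]
  rw [zg_6]
  push_cast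
  ring

theorem v_eW7 (x y t : ℝ) : val eW7 x y t = 5639648437500 * (Zg 8 7 (f_eP x y t) (f_eM x y t)) := by
  simp only [nd33, nd34, eW7, v_eP, v_eM, v_eW5, v_eW6, val_f, val_m]
  rw [zg_7]
  push_cast
  ring

theorem v_eW8 (x y t : ℝ) : val eW8 x y t = 91644287109375 * (Zg 8 8 (f_eP x y t) (f_eM x y t)) := by
  simp only [nd36, nd37, eW8, v_eP, v_eM, v_eW6, v_eW7, val_f, val_m]
  rw [zg_8]
  push_cast
  ring

theorem v_eW9 (x y t : ℝ) : val eW9 x y t = 16037750244140625 * (Zg 8 9 (f_eP x y t) (f_eM x y t)) := by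
  simp only [nd39, nd40, eW9, v_eP, v_eM, v_eW7, v_eW8, val_f, val_m]
  rw [zg_9]
  push_cast
  ring

theorem v_eW10 (x y t : ℝ) : val eW10 x y t = 2004718780517578125 * (Zg 8 10 (f_eP x y t) (f_eM x y t)) := by
  simp only [nd42, nd43, eW10, v_eP, v_eM, v_eW8, v_eW9, val_f, val_m]
  rw [zg_10]
  push_cast
  ring

theorem v_eW11 (x y t : ℝ) : val eW11 x y t = 400943756103515625000 * (Zg 8 11 (f_eP x y t) (f_eM x y t)) := by
  simp only [nd45, nd46, eW11, v_eP, v_eM, v_eW9, v_eW10, val_f, val_m]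
  rw [zg_11]
  push_cast
  ring

theorem v_eq0 (x y t : ℝ) : val eq0 x y t = 1000000000000000000 * (qf0 x y) := by
  simp only [nd0, nd1, nd5, nd6, nd48, nd49, nd50, nd51, nd52, nd53, nd54, nd55, nd56, nd57, nd58, nd59, nd60, nd61, nd62, nd63, nd64, nd65, nd66, nd67, nd68, nd69, nd70, nd71, nd72, nd73, nd74, nd75, nd76, nd77, nd78, nd79, eq0, val_f, val_h, val_m, val_vx, val_vy]
  unfold qf0
  push_cast
  ring

theorem v_eq1 (x y t : ℝ) : val eq1 x y t = 7372800000000000000000 * (qf1 x y) := by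
  simp only [nd0, nd1, nd5, nd6, nd49, nd52, nd68, nd77, nd82, nd83, nd84, nd85, nd86, nd87, nd88, nd89, nd90, nd91, nd92, nd93, nd94, nd95, nd96, nd97, nd98, nd99, nd100, nd101, nd102, nd103, nd104, nd105, nd106, nd107, nd108, nd109, eq1, val_f, val_h, val_m, val_vx, val_vy]
  unfold qf1
  push_cast
  ring

/-- real function of eS1 -/
noncomputable def f_eS1 (x y t : ℝ) : ℝ := qf0 x y * Zg 8 0 (f_eP x y t) (f_eM x y t) + qf1 x y * Zg 8 1 (f_eP x y t) (f_eM x y t)

theorem v_eS1 (x y t : ℝ) : val eS1 x y t = 184320000000000000000000 * (f_eS1 x y t) := by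
  simp only [nd5, nd6, nd9, nd15, nd16, nd81, nd111, eS1, v_eP, v_eq0, v_eq1, val_f, val_h, val_m]
  unfold f_eS1
  rw [zg_0, zg_1]
  push_cast
  ring

theorem v_eq2 (x y t : ℝ) : val eq2 x y t = 36864000000000000000000 * (qf2 x y) := by
  simp only [nd0, nd1, nd5, nd6, nd49, nd52, nd68, nd77, nd114, nd115, nd116, nd117, nd118, nd119, nd120, nd121, nd122, nd123, nd124, nd125, nd126, nd127, nd128, nd129, nd130, nd131, nd132, nd133, nd134, nd135, nd136, nd137, nd138, nd139, nd140, nd141, eq2, val_f, val_h, val_m, val_vx, val_vy]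
  unfold qf2
  push_cast
  ring

/-- real function of eS2 -/
noncomputable def f_eS2 (x y t : ℝ) : ℝ := f_eS1 x y t + qf2 x y * Zg 8 2 (f_eP x y t) (f_eM x y t)

theorem v_eS2 (x y t : ℝ) : val eS2 x y t = 161280000000000000000000000 * (f_eS2 x y t) := by
  simp only [nd5, nd6, nd9, nd15, nd16, nd113, nd143, eS2, v_eW2, v_eS1, v_eq2, val_f, val_h, val_m]
  unfold f_eS2
  push_cast
  ring

theorem v_eq3 (x y t : ℝ) : val eq3 x y t = 36864000000000000000000 * (qf3 x y) := by
  simp only [nd0, nd1, nd5, nd6, nd49, nd52, nd68, nd77, nd146, nd147, nd148, nd149, nd150, nd151, nd152, nd153, nd154, nd155, nd156, nd157, nd158, nd159, nd160, nd161, nd162, nd163, nd164, nd165, nd166, nd167, nd168, nd169, nd170, nd171, nd172, nd173, eq3, val_f, val_h, val_m, val_vx, val_vy]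
  unfold qf3
  push_cast
  ring

/-- real function of eS3 -/
noncomputable def f_eS3 (x y t : ℝ) : ℝ := f_eS2 x y t + qf3 x y * Zg 8 3 (f_eP x y t) (f_eM x y t)

theorem v_eS3 (x y t : ℝ) : val eS3 x y t = 3225600000000000000000000000 * (f_eS3 x y t) := by
  simp only [nd5, nd6, nd9, nd15, nd16, nd145, nd175, eS3, v_eW3, v_eS2, v_eq3, val_f, val_h, val_m]
  unfold f_eS3
  push_cast
  ring

theorem v_eq4 (x y t : ℝ) : val eq4 x y t = 36864000000000000000000 * (qf4 x y) := by
  simp only [nd0, nd1, nd5, nd6, nd49, nd52, nd68, nd77, nd178, nd179, nd180, nd181, nd182, nd183, nd184, nd185, nd186, nd187, nd188, nd189, nd190, nd191, nd192, nd193, nd194, nd195, nd196, nd197, nd198, nd199, nd200, nd201, nd202, nd203, nd204, nd205, eq4, val_f, val_h, val_m, val_vx, val_vy]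
  unfold qf4
  push_cast
  ring

/-- real function of eS4 -/
noncomputable def f_eS4 (x y t : ℝ) : ℝ := f_eS3 x y t + qf4 x y * Zg 8 4 (f_eP x y t) (f_eM x y t)

theorem v_eS4 (x y t : ℝ) : val eS4 x y t = 241920000000000000000000000000 * (f_eS4 x y t) := by
  simp only [nd5, nd6, nd9, nd15, nd16, nd177, nd207, eS4, v_eW4, v_eS3, v_eq4, val_f, val_h, val_m]
  unfold f_eS4
  push_cast
  ring

theorem v_eq5 (x y t : ℝ) : val eq5 x y t = 55296000000000000000000 * (qf5 x y) := by
  simp only [nd0, nd1, nd5, nd6, nd49, nd52, nd68, nd77, nd210, nd211, nd212, nd213, nd214, nd215, nd216, nd217, nd218, nd219, nd220, nd221, nd222, nd223, nd224, nd225, nd226, nd227, nd228, nd229, nd230, nd231, nd232, nd233, nd234, nd235, nd236, nd237, eq5, val_f, val_h, val_m, val_vx, val_vy]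
  unfold qf5
  push_cast
  ring

/-- real function of eS5 -/
noncomputable def f_eS5 (x y t : ℝ) : ℝ := f_eS4 x y t + qf5 x y * Zg 8 5 (f_eP x y t) (f_eM x y t)

theorem v_eS5 (x y t : ℝ) : val eS5 x y t = 90720000000000000000000000000000 * (f_eS5 x y t) := by
  simp only [nd5, nd6, nd9, nd15, nd16, nd209, nd239, eS5, v_eW5, v_eS4, v_eq5, val_f, val_h, val_m]
  unfold f_eS5
  push_cast
  ring

theorem v_eq6 (x y t : ℝ) : val eq6 x y t = 36864000000000000000000 * (qf6 x y) := by
  simp only [nd0, nd1, nd5, nd6, nd49, nd52, nd68, nd77, nd242, nd243, nd244, nd245, nd246, nd247, nd248, nd249, nd250, nd251, nd252, nd253, nd254, nd255, nd256, nd257, nd258, nd259, nd260, nd261, nd262, nd263, nd264, nd265, nd266, nd267, nd268, nd269, eq6, val_f, val_h, val_m, val_vx, val_vy]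
  unfold qf6
  push_cast
  ring

/-- real function of eS6 -/
noncomputable def f_eS6 (x y t : ℝ) : ℝ := f_eS5 x y t + qf6 x y * Zg 8 6 (f_eP x y t) (f_eM x y t)

theorem v_eS6 (x y t : ℝ) : val eS6 x y t = 24948000000000000000000000000000000 * (f_eS6 x y t) := by
  simp only [nd5, nd6, nd9, nd15, nd16, nd241, nd271, eS6, v_eW6, v_eS5, v_eq6, val_f, val_h, val_m]
  unfold f_eS6
  push_cast
  ring

theorem v_eq7 (x y t : ℝ) : val eq7 x y t = 110592000000000000000000 * (qf7 x y) := by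
  simp only [nd0, nd1, nd5, nd6, nd49, nd52, nd68, nd77, nd274, nd275, nd276, nd277, nd278, nd279, nd280, nd281, nd282, nd283, nd284, nd285, nd286, nd287, nd288, nd289, nd290, nd291, nd292, nd293, nd294, nd295, nd296, nd297, nd298, nd299, nd300, nd301, eq7, val_f, val_h, val_m, val_vx, val_vy]
  unfold qf7
  push_cast
  ring

/-- real function of eS7 -/
noncomputable def f_eS7 (x y t : ℝ) : ℝ := f_eS6 x y t + qf7 x y * Zg 8 7 (f_eP x y t) (f_eM x y t)

theorem v_eS7 (x y t : ℝ) : val eS7 x y t = 623700000000000000000000000000000000 * (f_eS7 x y t) := by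
  simp only [nd5, nd6, nd9, nd15, nd16, nd273, nd303, eS7, v_eW7, v_eS6, v_eq7, val_f, val_h, val_m]
  unfold f_eS7
  push_cast
  ring

theorem v_eq8 (x y t : ℝ) : val eq8 x y t = 250000000000000000 * (qf8 x y) := by
  simp only [nd0, nd1, nd5, nd6, nd49, nd52, nd68, nd77, nd306, nd307, nd308, nd309, nd310, nd311, nd312, nd313, nd314, nd315, nd316, nd317, nd318, nd319, nd320, nd321, eq8, val_f, val_h, val_m, val_vx, val_vy]
  unfold qf8
  push_cast
  ring

/-- real function of eS8 -/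
noncomputable def f_eS8 (x y t : ℝ) : ℝ := f_eS7 x y t + qf8 x y * Zg 8 8 (f_eP x y t) (f_eM x y t)

theorem v_eS8 (x y t : ℝ) : val eS8 x y t = 40540500000000000000000000000000000000 * (f_eS8 x y t) := by
  simp only [nd5, nd6, nd9, nd15, nd16, nd305, nd323, eS8, v_eW8, v_eS7, v_eq8, val_f, val_h, val_m]
  unfold f_eS8
  push_cast
  ring

theorem v_eq9 (x y t : ℝ) : val eq9 x y t = 4096000000000000000000 * (qf9 x y) := by
  simp only [nd0, nd1, nd5, nd6, nd49, nd52, nd68, nd77, nd326, nd327, nd328, nd329, nd330, nd331, nd332, nd333, nd334, nd335, nd336, nd337, nd338, nd339, nd340, nd341, nd342, nd343, nd344, nd345, nd346, nd347, nd348, nd349, nd350, nd351, nd352, nd353, eq9, val_f, val_h, val_m, val_vx, val_vy]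
  unfold qf9
  push_cast
  ring

/-- real function of eS9 -/
noncomputable def f_eS9 (x y t : ℝ) : ℝ := f_eS8 x y t + qf9 x y * Zg 8 9 (f_eP x y t) (f_eM x y t)

theorem v_eS9 (x y t : ℝ) : val eS9 x y t = 7094587500000000000000000000000000000000 * (f_eS9 x y t) := by
  simp only [nd5, nd6, nd9, nd15, nd16, nd325, nd355, eS9, v_eW9, v_eS8, v_eq9, val_f, val_h, val_m]
  unfold f_eS9
  push_cast
  ring

theorem v_eq10 (x y t : ℝ) : val eq10 x y t = 4096000000000000000000 * (qf10 x y) := by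
  simp only [nd0, nd1, nd5, nd6, nd49, nd52, nd68, nd77, nd358, nd359, nd360, nd361, nd362, nd363, nd364, nd365, nd366, nd367, nd368, nd369, nd370, nd371, nd372, nd373, nd374, nd375, nd376, nd377, nd378, nd379, nd380, nd381, nd382, nd383, nd384, nd385, eq10, val_f, val_h, val_m, val_vx, val_vy]
  unfold qf10
  push_cast
  ring

/-- real function of eS10 -/
noncomputable def f_eS10 (x y t : ℝ) : ℝ := f_eS9 x y t + qf10 x y * Zg 8 10 (f_eP x y t) (f_eM x y t)

theorem v_eS10 (x y t : ℝ) : val eS10 x y t = 886823437500000000000000000000000000000000 * (f_eS10 x y t) := by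
  simp only [nd5, nd6, nd9, nd15, nd16, nd357, nd387, eS10, v_eW10, v_eS9, v_eq10, val_f, val_h, val_m]
  unfold f_eS10
  push_cast
  ring

theorem v_eq11 (x y t : ℝ) : val eq11 x y t = 1024000000000000000000 * (qf11 x y) := by
  simp only [nd0, nd1, nd5, nd6, nd49, nd52, nd68, nd77, nd306, nd390, nd391, nd392, nd393, nd394, nd395, nd396, nd397, nd398, nd399, nd400, nd401, nd402, nd403, nd404, nd405, nd406, nd407, nd408, nd409, nd410, nd411, nd412, nd413, nd414, eq11, val_f, val_h, val_m, val_vx, val_vy]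
  unfold qf11
  push_cast
  ring

/-- real function of eS11 -/
noncomputable def f_eS11 (x y t : ℝ) : ℝ := f_eS10 x y t + qf11 x y * Zg 8 11 (f_eP x y t) (f_eM x y t)

theorem v_eS11 (x y t : ℝ) : val eS11 x y t = 22170585937500000000000000000000000000000000 * (f_eS11 x y t) := by
  simp only [nd5, nd6, nd9, nd15, nd16, nd389, nd416, eS11, v_eW11, v_eS10, v_eq11, val_f, val_h, val_m]
  unfold f_eS11
  push_cast
  ring

theorem v_eB (x y t : ℝ) : val eB x y t = 4 * (base (t)) := by
  simp only [nd2, nd9, nd418, nd419, nd420, nd421, nd422, eB, val_f, val_h, val_m, val_vt]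
  unfold base
  push_cast
  ring

/-- real function of eD2 -/
noncomputable def f_eD2 (x y t : ℝ) : ℝ := ((1 - ((2 / 5) * x)) + (1 - ((2 / 5) * y))) - (2 * f_eP x y t)

theorem v_eD2 (x y t : ℝ) : val eD2 x y t = 25 * (f_eD2 x y t) := by
  simp only [nd0, nd1, nd5, nd6, nd9, nd12, nd13, nd424, nd425, nd426, nd427, eD2, v_eP, val_f, val_h, val_m, val_vx, val_vy]
  unfold f_eD2
  push_cast
  ring

/-- real function of eDd -/
noncomputable def f_eDd (x y t : ℝ) : ℝ := ((1 - ((2 / 5) * x)) * (1 - ((2 / 5) * y))) - (f_eP x y t * f_eP x y t)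

theorem v_eDd (x y t : ℝ) : val eDd x y t = 625 * (f_eDd x y t) := by
  simp only [nd19, eDd, v_eP, v_eM, val_f, val_m]
  unfold f_eDd f_eM f_eP
  push_cast
  ring

/-- real function of eR1 -/
noncomputable def f_eR1 (x y t : ℝ) : ℝ := (1 - x) * (1 - y)

theorem v_eR1 (x y t : ℝ) : val eR1 x y t = 1 * (f_eR1 x y t) := by
  simp only [nd0, nd1, nd5, nd6, nd430, nd431, eR1, val_f, val_h, val_m, val_vx, val_vy]
  unfold f_eR1
  push_cast
  ring

/-- real function of eR3 -/
noncomputable def f_eR3 (x y t : ℝ) : ℝ := f_eR1 x y t ^ 3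

theorem v_eR3 (x y t : ℝ) : val eR3 x y t = 1 * (f_eR3 x y t) := by
  simp only [nd433, eR3, v_eR1, val_m]
  unfold f_eR3
  push_cast
  ring

/-- real function of eK3 -/
noncomputable def f_eK3 (x y t : ℝ) : ℝ := f_eR3 x y t * f_eS11 x y t

theorem v_eK3 (x y t : ℝ) : val eK3 x y t = 22170585937500000000000000000000000000000000 * (f_eK3 x y t) := by
  simp only [eK3, v_eS11, v_eR3, val_m]
  unfold f_eK3
  push_cast
  ring


theorem KT_eq (x y t : ℝ) : f_eS11 x y t = Kt 11 4 cA x y (f_eP x y t) (f_eM x y t) := by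
  rw [Kt_eq]
  simp only [f_eS11, f_eS10, f_eS9, f_eS8, f_eS7, f_eS6, f_eS5, f_eS4, f_eS3, f_eS2, f_eS1]

theorem KTx (x y t : ℝ) : f_eS11 x y t = Ktx x y t := by
  rw [KT_eq]
  unfold Ktx f_eP f_eM
  rfl

theorem K3x (x y t : ℝ) : f_eK3 x y t = K3 x y t := by
  unfold f_eK3 K3 f_eR3 f_eR1
  rw [KTx]
  ring

theorem D2x (x y t : ℝ) : f_eD2 x y t = PG.dd x y t := by
  unfold f_eD2 PG.dd f_eP
  ring

theorem DDx (x y t : ℝ) : f_eDd x y t = PG.DD x y t := by
  unfold f_eDd PG.DD f_eP
  ring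

end Pool.Agent.Lib.MP_f1379f_gt.FV.CJ.U
end

section
/-!
# programs, chart L
-/
set_option autoImplicit false
set_option linter.unusedVariables false
set_option linter.unusedSimpArgs false
set_option linter.unusedTactic false
set_option linter.style.longLine false
set_option maxRecDepth 100000

namespace Pool.Agent.Lib.MP_f1379f_gt.FV.CJ.L

open Finset Pool.Agent.Lib.MP_f1379f_gt.FV Pool.Agent.Lib.MP_f1379f_gt.FV.BCH Pool.Agent.Lib.MP_f1379f_gt.FV.CJ

/-- node -/
def nd0 : Ex := .v .x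
/-- node -/
def nd1 : Ex := .v .y
/-- node -/
def nd2 : Ex := .v .t
/-- node -/
def nd3 : Ex := .h .y
/-- node -/
def nd4 : Ex := .m nd0 nd3
/-- node -/
def nd5 : Ex := .h .x
/-- node -/
def nd6 : Ex := .m nd1 nd5
/-- node -/
def nd7 : Ex := .f 1 nd4 1 nd6
/-- node -/
def nd9 : Ex := .m nd5 nd3
/-- node -/
def nd10 : Ex := .f 5 nd9 (-2) nd7
/-- node -/
def nd11 : Ex := .m nd0 nd1
/-- node -/
def nd12 : Ex := .f 5 nd10 (-4) nd11
/-- node -/
def nd13 : Ex := .m nd2 nd12
/-- node -/
def nd14 : Ex := .h .t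
/-- node -/
def nd15 : Ex := .m nd3 nd14
/-- node -/
def nd16 : Ex := .m nd5 nd15
/-- node -/
def eT : Ex := .f (-25) nd16 (-1) nd13
/-- node -/
def nd18 : Ex := .m nd11 nd14
/-- node -/
def eP : Ex := .f 1 eT (-4) nd18
/-- node -/
def nd20 : Ex := .f 5 nd5 (-2) nd0
/-- node -/
def nd21 : Ex := .f 5 nd3 (-2) nd1
/-- node -/
def nd22 : Ex := .m nd20 nd21
/-- node -/
def nd23 : Ex := .m nd14 nd16
/-- node -/
def eM : Ex := .m nd22 nd23
/-- node -/
def nd25 : Ex := .m eP eP
/-- node -/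
def eW2 : Ex := .f 2 nd25 (-25) eM
/-- node -/
def nd27 : Ex := .m eP eW2
/-- node -/
def nd28 : Ex := .m eM eP
/-- node -/
def eW3 : Ex := .f 1 nd27 (-35) nd28
/-- node -/
def nd30 : Ex := .m eP eW3
/-- node -/
def nd31 : Ex := .m eM eW2
/-- node -/
def eW4 : Ex := .f 1 nd30 (-20) nd31
/-- node -/
def nd33 : Ex := .m eP eW4
/-- node -/
def nd34 : Ex := .m eM eW3
/-- node -/
def eW5 : Ex := .f 7 nd33 (-150) nd34
/-- node -/
def nd36 : Ex := .m eP eW5
/-- node -/
def nd37 : Ex := .m eM eW4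
/-- node -/
def eW6 : Ex := .f 4 nd36 (-625) nd37
/-- node -/
def nd39 : Ex := .m eP eW6
/-- node -/
def nd40 : Ex := .m eM eW5
/-- node -/
def eW7 : Ex := .f 3 nd39 (-275) nd40
/-- node -/
def nd42 : Ex := .m eP eW7
/-- node -/
def nd43 : Ex := .m eM eW6
/-- node -/
def eW8 : Ex := .f 1 nd42 (-70) nd43
/-- node -/
def nd45 : Ex := .m eP eW8
/-- node -/
def nd46 : Ex := .m eM eW7
/-- node -/
def eW9 : Ex := .f 11 nd45 (-260) nd46
/-- node -/
def nd48 : Ex := .m eP eW9
/-- node -/
def nd49 : Ex := .m eM eW8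
/-- node -/
def eW10 : Ex := .f 2 nd48 (-525) nd49
/-- node -/
def nd51 : Ex := .m eP eW10
/-- node -/
def nd52 : Ex := .m eM eW9
/-- node -/
def eW11 : Ex := .f 13 nd51 (-625) nd52
/-- node -/
def nd54 : Ex := .f 2000 nd3 1057 nd1
/-- node -/
def nd55 : Ex := .m nd1 nd1
/-- node -/
def nd56 : Ex := .m nd54 nd3
/-- node -/
def nd57 : Ex := .f 5 nd56 40901 nd55
/-- node -/
def nd58 : Ex := .m nd55 nd1
/-- node -/
def nd59 : Ex := .m nd57 nd3
/-- node -/
def nd60 : Ex := .f 1 nd59 (-56164) nd58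
/-- node -/
def nd61 : Ex := .f 506454000 nd3 289132939 nd1
/-- node -/
def nd62 : Ex := .m nd61 nd3
/-- node -/
def nd63 : Ex := .f 5 nd62 9424998439 nd55
/-- node -/
def nd64 : Ex := .m nd63 nd3
/-- node -/
def nd65 : Ex := .f 1 nd64 (-13245791292) nd58
/-- node -/
def nd66 : Ex := .m nd0 nd65
/-- node -/
def nd67 : Ex := .m nd60 nd5
/-- node -/
def nd68 : Ex := .f 3354000 nd67 7 nd66
/-- node -/
def nd69 : Ex := .f 19597422000 nd3 9424998439 nd1
/-- node -/
def nd70 : Ex := .m nd69 nd3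
/-- node -/
def nd71 : Ex := .f 100625 nd70 9013959094124934 nd55
/-- node -/
def nd72 : Ex := .m nd71 nd3
/-- node -/
def nd73 : Ex := .f 1 nd72 (-12080844608653173) nd58
/-- node -/
def nd74 : Ex := .m nd0 nd0
/-- node -/
def nd75 : Ex := .m nd74 nd73
/-- node -/
def nd76 : Ex := .m nd68 nd5
/-- node -/
def nd77 : Ex := .f 14375 nd76 1 nd75
/-- node -/
def nd78 : Ex := .f (-15697838000) nd3 (-7726711587) nd1
/-- node -/
def nd79 : Ex := .m nd78 nd3
/-- node -/
def nd80 : Ex := .f 57500 nd79 (-4026948202884391) nd55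
/-- node -/
def nd81 : Ex := .m nd80 nd3
/-- node -/
def nd82 : Ex := .f 1 nd81 5433292295096085 nd58
/-- node -/
def nd83 : Ex := .m nd74 nd0
/-- node -/
def nd84 : Ex := .m nd83 nd82
/-- node -/
def nd85 : Ex := .m nd77 nd5
/-- node -/
def eq0 : Ex := .f 1 nd85 3 nd84
/-- node -/
def nd87 : Ex := .m eq0 nd16
/-- node -/
def nd88 : Ex := .f 10000 nd3 10673 nd1
/-- node -/
def nd89 : Ex := .m nd88 nd3
/-- node -/
def nd90 : Ex := .f 1 nd89 40763 nd55
/-- node -/
def nd91 : Ex := .m nd90 nd3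
/-- node -/
def nd92 : Ex := .f 1 nd91 (-38839) nd58
/-- node -/
def nd93 : Ex := .f 4824410778222230000 nd3 15913309959980586079 nd1
/-- node -/
def nd94 : Ex := .m nd93 nd3
/-- node -/
def nd95 : Ex := .f 1 nd94 (-79069028690214963851) nd55
/-- node -/
def nd96 : Ex := .m nd95 nd3
/-- node -/
def nd97 : Ex := .f 1 nd96 36943609243309836103 nd58
/-- node -/
def nd98 : Ex := .m nd0 nd97
/-- node -/
def nd99 : Ex := .m nd92 nd5
/-- node -/
def nd100 : Ex := .f 452020123510000 nd99 1 nd98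
/-- node -/
def nd101 : Ex := .f 18425696294638130000 nd3 (-79069028690214963851) nd1
/-- node -/
def nd102 : Ex := .m nd101 nd3
/-- node -/
def nd103 : Ex := .f 1 nd102 983683443917033255719 nd55
/-- node -/
def nd104 : Ex := .m nd103 nd3
/-- node -/
def nd105 : Ex := .f 1 nd104 (-604811628859895781779) nd58
/-- node -/
def nd106 : Ex := .m nd74 nd105
/-- node -/
def nd107 : Ex := .m nd100 nd5
/-- node -/
def nd108 : Ex := .f 1 nd107 1 nd106
/-- node -/
def nd109 : Ex := .f (-17556009577004890000) nd3 36943609243309836103 nd1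
/-- node -/
def nd110 : Ex := .m nd109 nd3
/-- node -/
def nd111 : Ex := .f 1 nd110 (-604811628859895781779) nd55
/-- node -/
def nd112 : Ex := .m nd111 nd3
/-- node -/
def nd113 : Ex := .f 5 nd112 2737569293435233922987 nd58
/-- node -/
def nd114 : Ex := .m nd83 nd113
/-- node -/
def nd115 : Ex := .m nd108 nd5
/-- node -/
def eq1 : Ex := .f 5 nd115 1 nd114
/-- node -/
def nd117 : Ex := .m eq1 eP
/-- node -/
def eS1 : Ex := .f 368640 nd87 1 nd117
/-- node -/
def nd119 : Ex := .m eS1 nd16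
/-- node -/
def nd120 : Ex := .f 5000 nd3 7417 nd1
/-- node -/
def nd121 : Ex := .m nd120 nd3
/-- node -/
def nd122 : Ex := .f 2 nd121 52223 nd55
/-- node -/
def nd123 : Ex := .m nd122 nd3
/-- node -/
def nd124 : Ex := .f 1 nd123 (-42373) nd58
/-- node -/
def nd125 : Ex := .f 200808583271345000 nd3 414689003969033173 nd1
/-- node -/
def nd126 : Ex := .m nd125 nd3
/-- node -/
def nd127 : Ex := .f 2 nd126 83194869646871363 nd55
/-- node -/
def nd128 : Ex := .m nd127 nd3
/-- node -/
def nd129 : Ex := .f 1 nd128 (-1594307632370565937) nd58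
/-- node -/
def nd130 : Ex := .m nd0 nd129
/-- node -/
def nd131 : Ex := .m nd124 nd5
/-- node -/
def nd132 : Ex := .f 27074097785000 nd131 1 nd130
/-- node -/
def nd133 : Ex := .f 1413890608626055000 nd3 83194869646871363 nd1
/-- node -/
def nd134 : Ex := .m nd133 nd3
/-- node -/
def nd135 : Ex := .f 1250 nd134 31021415230754462493973 nd55
/-- node -/
def nd136 : Ex := .m nd135 nd3
/-- node -/
def nd137 : Ex := .f 1 nd136 (-9276941209285947793175) nd58
/-- node -/
def nd138 : Ex := .m nd74 nd137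
/-- node -/
def nd139 : Ex := .m nd132 nd5
/-- node -/
def nd140 : Ex := .f 1250 nd139 1 nd138
/-- node -/
def nd141 : Ex := .f (-1147210745443805000) nd3 (-1594307632370565937) nd1
/-- node -/
def nd142 : Ex := .m nd141 nd3
/-- node -/
def nd143 : Ex := .f 50 nd142 (-371077648371437911727) nd55
/-- node -/
def nd144 : Ex := .m nd143 nd3
/-- node -/
def nd145 : Ex := .f 25 nd144 11514960197149925761549 nd58
/-- node -/
def nd146 : Ex := .m nd83 nd145
/-- node -/
def nd147 : Ex := .m nd140 nd5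
/-- node -/
def eq2 : Ex := .f 1 nd147 1 nd146
/-- node -/
def nd149 : Ex := .m eq2 eW2
/-- node -/
def eS2 : Ex := .f 875 nd119 2 nd149
/-- node -/
def nd151 : Ex := .m eS2 nd16
/-- node -/
def nd152 : Ex := .f 10000 nd3 20731 nd1
/-- node -/
def nd153 : Ex := .m nd152 nd3
/-- node -/
def nd154 : Ex := .f 1 nd153 55143 nd55
/-- node -/
def nd155 : Ex := .m nd154 nd3
/-- node -/
def nd156 : Ex := .f 1 nd155 (-13440) nd58
/-- node -/
def nd157 : Ex := .f 52509695866763690000 nd3 148782140971275805739 nd1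
/-- node -/
def nd158 : Ex := .m nd157 nd3
/-- node -/
def nd159 : Ex := .f 1 nd158 (-26230951982531109033) nd55
/-- node -/
def nd160 : Ex := .m nd159 nd3
/-- node -/
def nd161 : Ex := .f 1 nd160 (-296468659152603692160) nd58
/-- node -/
def nd162 : Ex := .m nd0 nd161
/-- node -/
def nd163 : Ex := .m nd156 nd5
/-- node -/
def nd164 : Ex := .f 2532907040990000 nd163 1 nd162
/-- node -/
def nd165 : Ex := .f 1410829221831430000 nd3 (-264959110934657667) nd1
/-- node -/
def nd166 : Ex := .m nd165 nd3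
/-- node -/
def nd167 : Ex := .f 25 nd166 826286387444693128073 nd55
/-- node -/
def nd168 : Ex := .m nd167 nd3
/-- node -/
def nd169 : Ex := .f 1 nd168 396249315581676006528 nd58
/-- node -/
def nd170 : Ex := .m nd74 nd169
/-- node -/
def nd171 : Ex := .m nd164 nd5
/-- node -/
def nd172 : Ex := .f 25 nd171 99 nd170
/-- node -/
def nd173 : Ex := .f (-2532907040990000) nd3 (-22058679996473489) nd1
/-- node -/
def nd174 : Ex := .m nd173 nd3
/-- node -/
def nd175 : Ex := .f 875 nd174 102158026673400845433 nd55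
/-- node -/
def nd176 : Ex := .m nd175 nd3
/-- node -/
def nd177 : Ex := .f 1 nd176 103054056011332060320 nd58
/-- node -/
def nd178 : Ex := .m nd83 nd177
/-- node -/
def nd179 : Ex := .m nd172 nd5
/-- node -/
def eq3 : Ex := .f 1 nd179 384 nd178
/-- node -/
def nd181 : Ex := .m eq3 eW3
/-- node -/
def eS3 : Ex := .f 20 nd151 1 nd181
/-- node -/
def nd183 : Ex := .m eS3 nd16
/-- node -/
def nd184 : Ex := .f 10000 nd3 23621 nd1
/-- node -/
def nd185 : Ex := .m nd184 nd3
/-- node -/
def nd186 : Ex := .f 1 nd185 88904 nd55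
/-- node -/
def nd187 : Ex := .m nd186 nd3
/-- node -/
def nd188 : Ex := .f 1 nd187 (-1983) nd58
/-- node -/
def nd189 : Ex := .f 15145070108947870000 nd3 39329089870771363727 nd1
/-- node -/
def nd190 : Ex := .m nd189 nd3
/-- node -/
def nd191 : Ex := .f 1 nd190 112341809190059286488 nd55
/-- node -/
def nd192 : Ex := .m nd191 nd3
/-- node -/
def nd193 : Ex := .f 1 nd192 (-72846776053568125821) nd58
/-- node -/
def nd194 : Ex := .m nd0 nd193
/-- node -/
def nd195 : Ex := .m nd188 nd5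
/-- node -/
def nd196 : Ex := .f 641169726470000 nd195 1 nd194
/-- node -/
def nd197 : Ex := .f 1017902738608730000 nd3 2006103735536772973 nd1
/-- node -/
def nd198 : Ex := .m nd197 nd3
/-- node -/
def nd199 : Ex := .f 875 nd198 10170936375987316068824 nd55
/-- node -/
def nd200 : Ex := .m nd199 nd3
/-- node -/
def nd201 : Ex := .f 1 nd200 6127771052963304077955 nd58
/-- node -/
def nd202 : Ex := .m nd74 nd201
/-- node -/
def nd203 : Ex := .m nd196 nd5
/-- node -/
def nd204 : Ex := .f 125 nd203 8 nd202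
/-- node -/
def nd205 : Ex := .f (-423813189196670000) nd3 (-24282258684522708607) nd1
/-- node -/
def nd206 : Ex := .m nd205 nd3
/-- node -/
def nd207 : Ex := .f 25 nd206 3268144561580428841576 nd55
/-- node -/
def nd208 : Ex := .m nd207 nd3
/-- node -/
def nd209 : Ex := .f 1 nd208 13943097333325126931589 nd58
/-- node -/
def nd210 : Ex := .m nd83 nd209
/-- node -/
def nd211 : Ex := .m nd204 nd5
/-- node -/
def eq4 : Ex := .f 1 nd211 15 nd210
/-- node -/
def nd213 : Ex := .m eq4 eW4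
/-- node -/
def eS4 : Ex := .f 75 nd183 2 nd213
/-- node -/
def nd215 : Ex := .m eS4 nd16
/-- node -/
def nd216 : Ex := .f 10000 nd3 29029 nd1
/-- node -/
def nd217 : Ex := .m nd216 nd3
/-- node -/
def nd218 : Ex := .f 1 nd217 119362 nd55
/-- node -/
def nd219 : Ex := .m nd218 nd3
/-- node -/
def nd220 : Ex := .f 1 nd219 89206 nd58
/-- node -/
def nd221 : Ex := .f 23750953421465270000 nd3 75692145900329932283 nd1
/-- node -/
def nd222 : Ex := .m nd221 nd3
/-- node -/
def nd223 : Ex := .f 1 nd222 258068955867293166974 nd55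
/-- node -/
def nd224 : Ex := .m nd223 nd3
/-- node -/
def nd225 : Ex := .f 1 nd224 (-65407899988566102838) nd58
/-- node -/
def nd226 : Ex := .m nd0 nd225
/-- node -/
def nd227 : Ex := .m nd220 nd5
/-- node -/
def nd228 : Ex := .f 818180213630000 nd227 1 nd226
/-- node -/
def nd229 : Ex := .f 48829813329652030000 nd3 129034477933646583487 nd1
/-- node -/
def nd230 : Ex := .m nd229 nd3
/-- node -/
def nd231 : Ex := .f 5 nd230 3197426275646881851134 nd55
/-- node -/
def nd232 : Ex := .m nd231 nd3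
/-- node -/
def nd233 : Ex := .f 1 nd232 4424120339325650158922 nd58
/-- node -/
def nd234 : Ex := .m nd74 nd233
/-- node -/
def nd235 : Ex := .m nd228 nd5
/-- node -/
def nd236 : Ex := .f 5 nd235 2 nd234
/-- node -/
def nd237 : Ex := .f 2807176312964530000 nd3 (-2515688461098696263) nd1
/-- node -/
def nd238 : Ex := .m nd237 nd3
/-- node -/
def nd239 : Ex := .f 65 nd238 4424120339325650158922 nd55
/-- node -/
def nd240 : Ex := .m nd239 nd3
/-- node -/
def nd241 : Ex := .f 25 nd240 832660645335110378865566 nd58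
/-- node -/
def nd242 : Ex := .m nd83 nd241
/-- node -/
def nd243 : Ex := .m nd236 nd5
/-- node -/
def eq5 : Ex := .f 25 nd243 2 nd242
/-- node -/
def nd245 : Ex := .m eq5 eW5
/-- node -/
def eS5 : Ex := .f 375 nd215 2 nd245
/-- node -/
def nd247 : Ex := .m eS5 nd16
/-- node -/
def nd248 : Ex := .f 2000 nd3 6337 nd1
/-- node -/
def nd249 : Ex := .m nd248 nd3
/-- node -/
def nd250 : Ex := .f 5 nd249 208522 nd55
/-- node -/
def nd251 : Ex := .m nd250 nd3
/-- node -/
def nd252 : Ex := .f 1 nd251 270531 nd58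
/-- node -/
def nd253 : Ex := .f 344810621946742000 nd3 1506503828604140027 nd1
/-- node -/
def nd254 : Ex := .m nd253 nd3
/-- node -/
def nd255 : Ex := .f 5 nd254 7358125466781315278 nd55
/-- node -/
def nd256 : Ex := .m nd255 nd3
/-- node -/
def nd257 : Ex := .f 1 nd256 139714164966857629041 nd58
/-- node -/
def nd258 : Ex := .m nd0 nd257
/-- node -/
def nd259 : Ex := .m nd252 nd5
/-- node -/
def nd260 : Ex := .f 54412280566000 nd259 1 nd258
/-- node -/
def nd261 : Ex := .f 5673078784091726000 nd3 3679062733390657639 nd1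
/-- node -/
def nd262 : Ex := .m nd261 nd3
/-- node -/
def nd263 : Ex := .f 625 nd262 198081971482909559014382 nd55
/-- node -/
def nd264 : Ex := .m nd263 nd3
/-- node -/
def nd265 : Ex := .f 1 nd264 (-311604722349375647099295) nd58
/-- node -/
def nd266 : Ex := .m nd74 nd265
/-- node -/
def nd267 : Ex := .m nd260 nd5
/-- node -/
def nd268 : Ex := .f 625 nd267 2 nd266
/-- node -/
def nd269 : Ex := .f 1635578741533394000 nd3 15523796107428625449 nd1
/-- node -/
def nd270 : Ex := .m nd269 nd3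
/-- node -/
def nd271 : Ex := .f 125 nd270 (-13849098771083362093302) nd55
/-- node -/
def nd272 : Ex := .m nd271 nd3
/-- node -/
def nd273 : Ex := .f 1 nd272 65813858098536726582915 nd58
/-- node -/
def nd274 : Ex := .m nd83 nd273
/-- node -/
def nd275 : Ex := .m nd268 nd5
/-- node -/
def eq6 : Ex := .f 1 nd275 45 nd274
/-- node -/
def nd277 : Ex := .m eq6 eW6
/-- node -/
def eS6 : Ex := .f 275 nd247 6 nd277
/-- node -/
def nd279 : Ex := .m eS6 nd16
/-- node -/
def nd280 : Ex := .f 10000 nd3 50677 nd1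
/-- node -/
def nd281 : Ex := .m nd280 nd3
/-- node -/
def nd282 : Ex := .f 1 nd281 416060 nd55
/-- node -/
def nd283 : Ex := .m nd282 nd3
/-- node -/
def nd284 : Ex := .f 1 nd283 1564171 nd58
/-- node -/
def nd285 : Ex := .f 22902500698990000 nd3 248446475145551623 nd1
/-- node -/
def nd286 : Ex := .m nd285 nd3
/-- node -/
def nd287 : Ex := .f 1 nd286 (-956061750557649004) nd55
/-- node -/
def nd288 : Ex := .m nd287 nd3
/-- node -/
def nd289 : Ex := .f 1 nd288 10229144790428118265 nd58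
/-- node -/
def nd290 : Ex := .m nd0 nd289
/-- node -/
def nd291 : Ex := .m nd284 nd5
/-- node -/
def nd292 : Ex := .f 451930870000 nd291 1 nd290
/-- node -/
def nd293 : Ex := .f 47007589443050000 nd3 (-239015437639412251) nd1
/-- node -/
def nd294 : Ex := .m nd293 nd3
/-- node -/
def nd295 : Ex := .f 38125 nd294 338205619058012880592588 nd55
/-- node -/
def nd296 : Ex := .m nd295 nd3
/-- node -/
def nd297 : Ex := .f 1 nd296 (-641887521089740400522497) nd58
/-- node -/
def nd298 : Ex := .m nd74 nd297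
/-- node -/
def nd299 : Ex := .m nd292 nd5
/-- node -/
def nd300 : Ex := .f 38125 nd299 4 nd298
/-- node -/
def nd301 : Ex := .f 141379432171754000 nd3 2045828958085623653 nd1
/-- node -/
def nd302 : Ex := .m nd301 nd3
/-- node -/
def nd303 : Ex := .f 190625 nd302 (-2567550084358961602089988) nd55
/-- node -/
def nd304 : Ex := .m nd303 nd3
/-- node -/
def nd305 : Ex := .f 1 nd304 17228615944264760929152379 nd58
/-- node -/
def nd306 : Ex := .m nd83 nd305
/-- node -/
def nd307 : Ex := .m nd300 nd5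
/-- node -/
def eq7 : Ex := .f 1 nd307 1 nd306
/-- node -/
def nd309 : Ex := .m eq7 eW7
/-- node -/
def eS7 : Ex := .f 50 nd279 1 nd309
/-- node -/
def nd311 : Ex := .m eS7 nd16
/-- node -/
def nd312 : Ex := .m nd1 nd3
/-- node -/
def nd313 : Ex := .f 2500 nd312 (-71541) nd55
/-- node -/
def nd314 : Ex := .m nd313 nd3
/-- node -/
def nd315 : Ex := .f 1 nd314 429536 nd58
/-- node -/
def nd316 : Ex := .m nd0 nd315
/-- node -/
def nd317 : Ex := .f (-1919979262417500) nd312 58397642431294147 nd55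
/-- node -/
def nd318 : Ex := .m nd317 nd3
/-- node -/
def nd319 : Ex := .f 1 nd318 (-359492110845480562) nd58
/-- node -/
def nd320 : Ex := .m nd74 nd319
/-- node -/
def nd321 : Ex := .m nd316 nd5
/-- node -/
def nd322 : Ex := .f 26837467500 nd321 1 nd320
/-- node -/
def nd323 : Ex := .f 5763829220040000 nd312 (-179746055422740281) nd55
/-- node -/
def nd324 : Ex := .m nd323 nd3
/-- node -/
def nd325 : Ex := .f 40 nd324 44688684735281602597 nd58
/-- node -/
def nd326 : Ex := .m nd83 nd325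
/-- node -/
def nd327 : Ex := .m nd322 nd5
/-- node -/
def eq8 : Ex := .f 20 nd327 1 nd326
/-- node -/
def nd329 : Ex := .m eq8 eW8
/-- node -/
def eS8 : Ex := .f 65 nd311 884736 nd329
/-- node -/
def nd331 : Ex := .m eS8 nd16
/-- node -/
def nd332 : Ex := .f 5000 nd3 28307 nd1
/-- node -/
def nd333 : Ex := .m nd332 nd3
/-- node -/
def nd334 : Ex := .f 2 nd333 (-108035) nd55
/-- node -/
def nd335 : Ex := .m nd334 nd3
/-- node -/
def nd336 : Ex := .f 1 nd335 (-2343946) nd58
/-- node -/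
def nd337 : Ex := .f 56907510046205000 nd3 386884369221984987 nd1
/-- node -/
def nd338 : Ex := .m nd337 nd3
/-- node -/
def nd339 : Ex := .f 2 nd338 (-3738828949711312075) nd55
/-- node -/
def nd340 : Ex := .m nd339 nd3
/-- node -/
def nd341 : Ex := .f 1 nd340 (-14670451679364636666) nd58
/-- node -/
def nd342 : Ex := .m nd0 nd341
/-- node -/
def nd343 : Ex := .m nd336 nd5
/-- node -/
def nd344 : Ex := .f 2010368815000 nd343 1 nd342
/-- node -/
def nd345 : Ex := .f (-8687607797141000) nd3 (-149553157988452483) nd1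
/-- node -/
def nd346 : Ex := .m nd345 nd3
/-- node -/
def nd347 : Ex := .f 6250 nd346 13604377286836538773583 nd55
/-- node -/
def nd348 : Ex := .m nd347 nd3
/-- node -/
def nd349 : Ex := .f 1 nd348 (-52769255790675211109454) nd58
/-- node -/
def nd350 : Ex := .m nd74 nd349
/-- node -/
def nd351 : Ex := .m nd344 nd5
/-- node -/
def nd352 : Ex := .f 250 nd351 1 nd350
/-- node -/
def nd353 : Ex := .f (-336585424460285000) nd3 (-1047889405668902619) nd1
/-- node -/
def nd354 : Ex := .m nd353 nd3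
/-- node -/
def nd355 : Ex := .f 1750 nd354 (-26384627895337605554727) nd55
/-- node -/
def nd356 : Ex := .m nd355 nd3
/-- node -/
def nd357 : Ex := .f 1 nd356 308458468166412723833726 nd58
/-- node -/
def nd358 : Ex := .m nd83 nd357
/-- node -/
def nd359 : Ex := .m nd352 nd5
/-- node -/
def eq9 : Ex := .f 1 nd359 2 nd358
/-- node -/
def nd361 : Ex := .m eq9 eW9
/-- node -/
def eS9 : Ex := .f 175 nd331 27 nd361
/-- node -/
def nd363 : Ex := .m eS9 nd16
/-- node -/
def nd364 : Ex := .f 400 nd3 5151 nd1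
/-- node -/
def nd365 : Ex := .m nd364 nd3
/-- node -/
def nd366 : Ex := .f 25 nd365 (-245808) nd55
/-- node -/
def nd367 : Ex := .m nd366 nd3
/-- node -/
def nd368 : Ex := .f 1 nd367 (-3065030) nd58
/-- node -/
def nd369 : Ex := .f 604489706074800 nd3 7890836134211197 nd1
/-- node -/
def nd370 : Ex := .m nd369 nd3
/-- node -/
def nd371 : Ex := .f 25 nd370 (-397622991985580688) nd55
/-- node -/
def nd372 : Ex := .m nd371 nd3
/-- node -/
def nd373 : Ex := .f 5 nd372 (-22987656909221509082) nd58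
/-- node -/
def nd374 : Ex := .m nd0 nd373
/-- node -/
def nd375 : Ex := .m nd368 nd5
/-- node -/
def nd376 : Ex := .f 586769274000 nd375 1 nd374
/-- node -/
def nd377 : Ex := .f (-600969090430800) nd3 (-8283812333032931) nd1
/-- node -/
def nd378 : Ex := .m nd377 nd3
/-- node -/
def nd379 : Ex := .f 125 nd378 2565528756669262384 nd55
/-- node -/
def nd380 : Ex := .m nd379 nd3
/-- node -/
def nd381 : Ex := .f 5 nd380 109183477068858622334 nd58
/-- node -/
def nd382 : Ex := .m nd74 nd381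
/-- node -/
def nd383 : Ex := .m nd376 nd5
/-- node -/
def nd384 : Ex := .f 125 nd383 48 nd382
/-- node -/
def nd385 : Ex := .f (-899232713944110000) nd3 (-11493828454610754541) nd1
/-- node -/
def nd386 : Ex := .m nd385 nd3
/-- node -/
def nd387 : Ex := .f 125 nd386 2620403449652606936016 nd55
/-- node -/
def nd388 : Ex := .m nd387 nd3
/-- node -/
def nd389 : Ex := .f 5 nd388 174203869901719154014114 nd58
/-- node -/
def nd390 : Ex := .m nd83 nd389
/-- node -/
def nd391 : Ex := .m nd384 nd5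
/-- node -/
def eq10 : Ex := .f 5 nd391 2 nd390
/-- node -/
def nd393 : Ex := .m eq10 eW10
/-- node -/
def eS10 : Ex := .f 125 nd363 54 nd393
/-- node -/
def nd395 : Ex := .m eS10 nd16
/-- node -/
def nd396 : Ex := .m nd3 nd3
/-- node -/
def nd397 : Ex := .f 10000 nd396 1 nd55
/-- node -/
def nd398 : Ex := .m nd397 nd3
/-- node -/
def nd399 : Ex := .f 1 nd398 (-32) nd58
/-- node -/
def nd400 : Ex := .f 10000 nd312 (-104777) nd55
/-- node -/
def nd401 : Ex := .m nd400 nd3
/-- node -/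
def nd402 : Ex := .f 1 nd401 163788 nd58
/-- node -/
def nd403 : Ex := .m nd0 nd402
/-- node -/
def nd404 : Ex := .m nd399 nd5
/-- node -/
def nd405 : Ex := .f 8224125 nd404 15483769856 nd403
/-- node -/
def nd406 : Ex := .f 8224125 nd3 (-1622342954202112) nd1
/-- node -/
def nd407 : Ex := .m nd406 nd3
/-- node -/
def nd408 : Ex := .f 10000 nd407 201814640205242913149 nd55
/-- node -/
def nd409 : Ex := .m nd408 nd3
/-- node -/
def nd410 : Ex := .f 1 nd409 (-537911714132799332256) nd58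
/-- node -/
def nd411 : Ex := .m nd74 nd410
/-- node -/
def nd412 : Ex := .m nd405 nd5
/-- node -/
def nd413 : Ex := .f 10000 nd412 1 nd411
/-- node -/
def nd414 : Ex := .f (-2741375) nd3 26417246845568 nd1
/-- node -/
def nd415 : Ex := .m nd414 nd3
/-- node -/
def nd416 : Ex := .f 10000 nd415 (-5603247022216659711) nd55
/-- node -/
def nd417 : Ex := .m nd416 nd3
/-- node -/
def nd418 : Ex := .f 1 nd417 28619209377342366176 nd58
/-- node -/
def nd419 : Ex := .m nd83 nd418
/-- node -/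
def nd420 : Ex := .m nd413 nd5
/-- node -/
def eq11 : Ex := .f 1 nd420 96 nd419
/-- node -/
def nd422 : Ex := .m eq11 eW11
/-- node -/
def eS11 : Ex := .f 50 nd395 27 nd422
/-- node -/
def nd424 : Ex := .f 1 eT 50 nd16
/-- node -/
def nd425 : Ex := .f 1 eT 25 nd16
/-- node -/
def nd426 : Ex := .m nd425 nd425
/-- node -/
def nd427 : Ex := .m nd424 nd426
/-- node -/
def nd428 : Ex := .m eT eT
/-- node -/
def eB : Ex := .m nd427 nd428
/-- node -/
def nd430 : Ex := .m nd20 nd3
/-- node -/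
def nd431 : Ex := .m nd21 nd5
/-- node -/
def nd432 : Ex := .f 1 nd430 1 nd431
/-- node -/
def nd433 : Ex := .m nd432 nd14
/-- node -/
def eD2 : Ex := .f 5 nd433 (-1) eP
/-- node -/
def eDd : Ex := .f 100 eM (-1) nd25
/-- node -/
def nd436 : Ex := .f 1 nd5 (-1) nd0
/-- node -/
def nd437 : Ex := .f 1 nd3 (-1) nd1
/-- node -/
def eR1 : Ex := .m nd436 nd437
/-- node -/
def nd439 : Ex := .m eR1 eR1
/-- node -/
def eR3 : Ex := .m nd439 eR1
/-- node -/
def eK3 : Ex := .m eR3 eS11

/-- real function of eT -/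
noncomputable def f_eT (x y t : ℝ) : ℝ := ((-1) / 2) - (t * (((1 / 2) - ((1 / 5) * (x + y))) - ((2 / 25) * (x * y))))

theorem v_eT (x y t : ℝ) : val eT x y t = 50 * (f_eT x y t) := by
  simp only [nd0, nd1, nd2, nd3, nd4, nd5, nd6, nd7, nd9, nd10, nd11, nd12, nd13, nd14, nd15, nd16, eT, val_f, val_h, val_m, val_vt, val_vx, val_vy]
  unfold f_eT
  push_cast
  ring

/-- real function of eP -/
noncomputable def f_eP (x y t : ℝ) : ℝ := f_eT x y t - (((2 / 25) * x) * y)

theorem v_eP (x y t : ℝ) : val eP x y t = 50 * (f_eP x y t) := by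
  simp only [nd0, nd1, nd11, nd14, nd18, eP, v_eT, val_f, val_h, val_m, val_vx, val_vy]
  unfold f_eP
  push_cast
  ring

/-- real function of eM -/
noncomputable def f_eM (x y t : ℝ) : ℝ := (1 - ((2 / 5) * x)) * (1 - ((2 / 5) * y))

theorem v_eM (x y t : ℝ) : val eM x y t = 25 * (f_eM x y t) := by
  simp only [nd0, nd1, nd3, nd5, nd14, nd15, nd16, nd20, nd21, nd22, nd23, eM, val_f, val_h, val_m, val_vx, val_vy]
  unfold f_eM
  push_cast
  ring

theorem v_eW2 (x y t : ℝ) : val eW2 x y t = 4375 * (Zg 8 2 (f_eP x y t) (f_eM x y t)) := by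
  simp only [nd25, eW2, v_eP, v_eM, val_f, val_m]
  rw [zg_2]
  rw [zg_0, zg_1]
  push_cast
  ring

theorem v_eW3 (x y t : ℝ) : val eW3 x y t = 175000 * (Zg 8 3 (f_eP x y t) (f_eM x y t)) := by
  simp only [nd27, nd28, eW3, v_eP, v_eM, v_eW2, val_f, val_m]
  rw [zg_3]
  rw [zg_1]
  push_cast
  ring

theorem v_eW4 (x y t : ℝ) : val eW4 x y t = 6562500 * (Zg 8 4 (f_eP x y t) (f_eM x y t)) := by
  simp only [nd30, nd31, eW4, v_eP, v_eM, v_eW2, v_eW3, val_f, val_m]
  rw [zg_4]
  push_cast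
  ring

theorem v_eW5 (x y t : ℝ) : val eW5 x y t = 1640625000 * (Zg 8 5 (f_eP x y t) (f_eM x y t)) := by
  simp only [nd33, nd34, eW5, v_eP, v_eM, v_eW3, v_eW4, val_f, val_m]
  rw [zg_5]
  push_cast
  ring

theorem v_eW6 (x y t : ℝ) : val eW6 x y t = 225585937500 * (Zg 8 6 (f_eP x y t) (f_eM x y t)) := by
  simp only [nd36, nd37, eW6, v_eP, v_eM, v_eW4, v_eW5, val_f, val_m]
  rw [zg_6]
  push_cast
  ring

theorem v_eW7 (x y t : ℝ) : val eW7 x y t = 22558593750000 * (Zg 8 7 (f_eP x y t) (f_eM x y t)) := by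
  simp only [nd39, nd40, eW7, v_eP, v_eM, v_eW5, v_eW6, val_f, val_m]
  rw [zg_7]
  push_cast
  ring

theorem v_eW8 (x y t : ℝ) : val eW8 x y t = 733154296875000 * (Zg 8 8 (f_eP x y t) (f_eM x y t)) := by
  simp only [nd42, nd43, eW8, v_eP, v_eM, v_eW6, v_eW7, val_f, val_m]
  rw [zg_8]
  push_cast
  ring

theorem v_eW9 (x y t : ℝ) : val eW9 x y t = 256604003906250000 * (Zg 8 9 (f_eP x y t) (f_eM x y t)) := by
  simp only [nd45, nd46, eW9, v_eP, v_eM, v_eW7, v_eW8, val_f, val_m]
  rw [zg_9]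
  push_cast
  ring

theorem v_eW10 (x y t : ℝ) : val eW10 x y t = 16037750244140625000 * (Zg 8 10 (f_eP x y t) (f_eM x y t)) := by
  simp only [nd48, nd49, eW10, v_eP, v_eM, v_eW8, v_eW9, val_f, val_m]
  rw [zg_10]
  push_cast
  ring

theorem v_eW11 (x y t : ℝ) : val eW11 x y t = 6415100097656250000000 * (Zg 8 11 (f_eP x y t) (f_eM x y t)) := by
  simp only [nd51, nd52, eW11, v_eP, v_eM, v_eW9, v_eW10, val_f, val_m]
  rw [zg_11]
  push_cast
  ring

theorem v_eq0 (x y t : ℝ) : val eq0 x y t = 1000000000000000000 * (qf0 x y) := by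
  simp only [nd0, nd1, nd3, nd5, nd54, nd55, nd56, nd57, nd58, nd59, nd60, nd61, nd62, nd63, nd64, nd65, nd66, nd67, nd68, nd69, nd70, nd71, nd72, nd73, nd74, nd75, nd76, nd77, nd78, nd79, nd80, nd81, nd82, nd83, nd84, nd85, eq0, val_f, val_h, val_m, val_vx, val_vy]
  unfold qf0
  push_cast
  ring

theorem v_eq1 (x y t : ℝ) : val eq1 x y t = 7372800000000000000000 * (qf1 x y) := by
  simp only [nd0, nd1, nd3, nd5, nd55, nd58, nd74, nd83, nd88, nd89, nd90, nd91, nd92, nd93, nd94, nd95, nd96, nd97, nd98, nd99, nd100, nd101, nd102, nd103, nd104, nd105, nd106, nd107, nd108, nd109, nd110, nd111, nd112, nd113, nd114, nd115, eq1, val_f, val_h, val_m, val_vx, val_vy]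
  unfold qf1
  push_cast
  ring

/-- real function of eS1 -/
noncomputable def f_eS1 (x y t : ℝ) : ℝ := qf0 x y * Zg 8 0 (f_eP x y t) (f_eM x y t) + qf1 x y * Zg 8 1 (f_eP x y t) (f_eM x y t)

theorem v_eS1 (x y t : ℝ) : val eS1 x y t = 368640000000000000000000 * (f_eS1 x y t) := by
  simp only [nd3, nd5, nd14, nd15, nd16, nd87, nd117, eS1, v_eP, v_eq0, v_eq1, val_f, val_h, val_m]
  unfold f_eS1
  rw [zg_0, zg_1]
  push_cast
  ring

theorem v_eq2 (x y t : ℝ) : val eq2 x y t = 36864000000000000000000 * (qf2 x y) := by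
  simp only [nd0, nd1, nd3, nd5, nd55, nd58, nd74, nd83, nd120, nd121, nd122, nd123, nd124, nd125, nd126, nd127, nd128, nd129, nd130, nd131, nd132, nd133, nd134, nd135, nd136, nd137, nd138, nd139, nd140, nd141, nd142, nd143, nd144, nd145, nd146, nd147, eq2, val_f, val_h, val_m, val_vx, val_vy]
  unfold qf2
  push_cast
  ring

/-- real function of eS2 -/
noncomputable def f_eS2 (x y t : ℝ) : ℝ := f_eS1 x y t + qf2 x y * Zg 8 2 (f_eP x y t) (f_eM x y t)

theorem v_eS2 (x y t : ℝ) : val eS2 x y t = 322560000000000000000000000 * (f_eS2 x y t) := by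
  simp only [nd3, nd5, nd14, nd15, nd16, nd119, nd149, eS2, v_eW2, v_eS1, v_eq2, val_f, val_h, val_m]
  unfold f_eS2
  push_cast
  ring

theorem v_eq3 (x y t : ℝ) : val eq3 x y t = 36864000000000000000000 * (qf3 x y) := by
  simp only [nd0, nd1, nd3, nd5, nd55, nd58, nd74, nd83, nd152, nd153, nd154, nd155, nd156, nd157, nd158, nd159, nd160, nd161, nd162, nd163, nd164, nd165, nd166, nd167, nd168, nd169, nd170, nd171, nd172, nd173, nd174, nd175, nd176, nd177, nd178, nd179, eq3, val_f, val_h, val_m, val_vx, val_vy]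
  unfold qf3
  push_cast
  ring

/-- real function of eS3 -/
noncomputable def f_eS3 (x y t : ℝ) : ℝ := f_eS2 x y t + qf3 x y * Zg 8 3 (f_eP x y t) (f_eM x y t)

theorem v_eS3 (x y t : ℝ) : val eS3 x y t = 6451200000000000000000000000 * (f_eS3 x y t) := by
  simp only [nd3, nd5, nd14, nd15, nd16, nd151, nd181, eS3, v_eW3, v_eS2, v_eq3, val_f, val_h, val_m]
  unfold f_eS3
  push_cast
  ring

theorem v_eq4 (x y t : ℝ) : val eq4 x y t = 36864000000000000000000 * (qf4 x y) := by
  simp only [nd0, nd1, nd3, nd5, nd55, nd58, nd74, nd83, nd184, nd185, nd186, nd187, nd188, nd189, nd190, nd191, nd192, nd193, nd194, nd195, nd196, nd197, nd198, nd199, nd200, nd201, nd202, nd203, nd204, nd205, nd206, nd207, nd208, nd209, nd210, nd211, eq4, val_f, val_h, val_m, val_vx, val_vy]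
  unfold qf4
  push_cast
  ring

/-- real function of eS4 -/
noncomputable def f_eS4 (x y t : ℝ) : ℝ := f_eS3 x y t + qf4 x y * Zg 8 4 (f_eP x y t) (f_eM x y t)

theorem v_eS4 (x y t : ℝ) : val eS4 x y t = 483840000000000000000000000000 * (f_eS4 x y t) := by
  simp only [nd3, nd5, nd14, nd15, nd16, nd183, nd213, eS4, v_eW4, v_eS3, v_eq4, val_f, val_h, val_m]
  unfold f_eS4
  push_cast
  ring

theorem v_eq5 (x y t : ℝ) : val eq5 x y t = 55296000000000000000000 * (qf5 x y) := by
  simp only [nd0, nd1, nd3, nd5, nd55, nd58, nd74, nd83, nd216, nd217, nd218, nd219, nd220, nd221, nd222, nd223, nd224, nd225, nd226, nd227, nd228, nd229, nd230, nd231, nd232, nd233, nd234, nd235, nd236, nd237, nd238, nd239, nd240, nd241, nd242, nd243, eq5, val_f, val_h, val_m, val_vx, val_vy]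
  unfold qf5
  push_cast
  ring

/-- real function of eS5 -/
noncomputable def f_eS5 (x y t : ℝ) : ℝ := f_eS4 x y t + qf5 x y * Zg 8 5 (f_eP x y t) (f_eM x y t)

theorem v_eS5 (x y t : ℝ) : val eS5 x y t = 181440000000000000000000000000000 * (f_eS5 x y t) := by
  simp only [nd3, nd5, nd14, nd15, nd16, nd215, nd245, eS5, v_eW5, v_eS4, v_eq5, val_f, val_h, val_m]
  unfold f_eS5
  push_cast
  ring

theorem v_eq6 (x y t : ℝ) : val eq6 x y t = 36864000000000000000000 * (qf6 x y) := by
  simp only [nd0, nd1, nd3, nd5, nd55, nd58, nd74, nd83, nd248, nd249, nd250, nd251, nd252, nd253, nd254, nd255, nd256, nd257, nd258, nd259, nd260, nd261, nd262, nd263, nd264, nd265, nd266, nd267, nd268, nd269, nd270, nd271, nd272, nd273, nd274, nd275, eq6, val_f, val_h, val_m, val_vx, val_vy]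
  unfold qf6
  push_cast
  ring

/-- real function of eS6 -/
noncomputable def f_eS6 (x y t : ℝ) : ℝ := f_eS5 x y t + qf6 x y * Zg 8 6 (f_eP x y t) (f_eM x y t)

theorem v_eS6 (x y t : ℝ) : val eS6 x y t = 49896000000000000000000000000000000 * (f_eS6 x y t) := by
  simp only [nd3, nd5, nd14, nd15, nd16, nd247, nd277, eS6, v_eW6, v_eS5, v_eq6, val_f, val_h, val_m]
  unfold f_eS6
  push_cast
  ring

theorem v_eq7 (x y t : ℝ) : val eq7 x y t = 110592000000000000000000 * (qf7 x y) := by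
  simp only [nd0, nd1, nd3, nd5, nd55, nd58, nd74, nd83, nd280, nd281, nd282, nd283, nd284, nd285, nd286, nd287, nd288, nd289, nd290, nd291, nd292, nd293, nd294, nd295, nd296, nd297, nd298, nd299, nd300, nd301, nd302, nd303, nd304, nd305, nd306, nd307, eq7, val_f, val_h, val_m, val_vx, val_vy]
  unfold qf7
  push_cast
  ring

/-- real function of eS7 -/
noncomputable def f_eS7 (x y t : ℝ) : ℝ := f_eS6 x y t + qf7 x y * Zg 8 7 (f_eP x y t) (f_eM x y t)

theorem v_eS7 (x y t : ℝ) : val eS7 x y t = 2494800000000000000000000000000000000 * (f_eS7 x y t) := by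
  simp only [nd3, nd5, nd14, nd15, nd16, nd279, nd309, eS7, v_eW7, v_eS6, v_eq7, val_f, val_h, val_m]
  unfold f_eS7
  push_cast
  ring

theorem v_eq8 (x y t : ℝ) : val eq8 x y t = 250000000000000000 * (qf8 x y) := by
  simp only [nd0, nd1, nd3, nd5, nd55, nd58, nd74, nd83, nd312, nd313, nd314, nd315, nd316, nd317, nd318, nd319, nd320, nd321, nd322, nd323, nd324, nd325, nd326, nd327, eq8, val_f, val_h, val_m, val_vx, val_vy]
  unfold qf8
  push_cast
  ring

/-- real function of eS8 -/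
noncomputable def f_eS8 (x y t : ℝ) : ℝ := f_eS7 x y t + qf8 x y * Zg 8 8 (f_eP x y t) (f_eM x y t)

theorem v_eS8 (x y t : ℝ) : val eS8 x y t = 162162000000000000000000000000000000000 * (f_eS8 x y t) := by
  simp only [nd3, nd5, nd14, nd15, nd16, nd311, nd329, eS8, v_eW8, v_eS7, v_eq8, val_f, val_h, val_m]
  unfold f_eS8
  push_cast
  ring

theorem v_eq9 (x y t : ℝ) : val eq9 x y t = 4096000000000000000000 * (qf9 x y) := by
  simp only [nd0, nd1, nd3, nd5, nd55, nd58, nd74, nd83, nd332, nd333, nd334, nd335, nd336, nd337, nd338, nd339, nd340, nd341, nd342, nd343, nd344, nd345, nd346, nd347, nd348, nd349, nd350, nd351, nd352, nd353, nd354, nd355, nd356, nd357, nd358, nd359, eq9, val_f, val_h, val_m, val_vx, val_vy]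
  unfold qf9
  push_cast
  ring

/-- real function of eS9 -/
noncomputable def f_eS9 (x y t : ℝ) : ℝ := f_eS8 x y t + qf9 x y * Zg 8 9 (f_eP x y t) (f_eM x y t)

theorem v_eS9 (x y t : ℝ) : val eS9 x y t = 28378350000000000000000000000000000000000 * (f_eS9 x y t) := by
  simp only [nd3, nd5, nd14, nd15, nd16, nd331, nd361, eS9, v_eW9, v_eS8, v_eq9, val_f, val_h, val_m]
  unfold f_eS9
  push_cast
  ring

theorem v_eq10 (x y t : ℝ) : val eq10 x y t = 4096000000000000000000 * (qf10 x y) := by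
  simp only [nd0, nd1, nd3, nd5, nd55, nd58, nd74, nd83, nd364, nd365, nd366, nd367, nd368, nd369, nd370, nd371, nd372, nd373, nd374, nd375, nd376, nd377, nd378, nd379, nd380, nd381, nd382, nd383, nd384, nd385, nd386, nd387, nd388, nd389, nd390, nd391, eq10, val_f, val_h, val_m, val_vx, val_vy]
  unfold qf10
  push_cast
  ring

/-- real function of eS10 -/
noncomputable def f_eS10 (x y t : ℝ) : ℝ := f_eS9 x y t + qf10 x y * Zg 8 10 (f_eP x y t) (f_eM x y t)

theorem v_eS10 (x y t : ℝ) : val eS10 x y t = 3547293750000000000000000000000000000000000 * (f_eS10 x y t) := by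
  simp only [nd3, nd5, nd14, nd15, nd16, nd363, nd393, eS10, v_eW10, v_eS9, v_eq10, val_f, val_h, val_m]
  unfold f_eS10
  push_cast
  ring

theorem v_eq11 (x y t : ℝ) : val eq11 x y t = 1024000000000000000000 * (qf11 x y) := by
  simp only [nd0, nd1, nd3, nd5, nd55, nd58, nd74, nd83, nd312, nd396, nd397, nd398, nd399, nd400, nd401, nd402, nd403, nd404, nd405, nd406, nd407, nd408, nd409, nd410, nd411, nd412, nd413, nd414, nd415, nd416, nd417, nd418, nd419, nd420, eq11, val_f, val_h, val_m, val_vx, val_vy]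
  unfold qf11
  push_cast
  ring

/-- real function of eS11 -/
noncomputable def f_eS11 (x y t : ℝ) : ℝ := f_eS10 x y t + qf11 x y * Zg 8 11 (f_eP x y t) (f_eM x y t)

theorem v_eS11 (x y t : ℝ) : val eS11 x y t = 177364687500000000000000000000000000000000000 * (f_eS11 x y t) := by
  simp only [nd3, nd5, nd14, nd15, nd16, nd395, nd422, eS11, v_eW11, v_eS10, v_eq11, val_f, val_h, val_m]
  unfold f_eS11
  push_cast
  ring

theorem v_eB (x y t : ℝ) : val eB x y t = 312500000 * (base (f_eT x y t)) := by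
  simp only [nd3, nd5, nd14, nd15, nd16, nd424, nd425, nd426, nd427, nd428, eB, v_eT, val_f, val_h, val_m]
  unfold base
  push_cast
  ring

/-- real function of eD2 -/
noncomputable def f_eD2 (x y t : ℝ) : ℝ := ((1 - ((2 / 5) * x)) + (1 - ((2 / 5) * y))) - (2 * f_eP x y t)

theorem v_eD2 (x y t : ℝ) : val eD2 x y t = 25 * (f_eD2 x y t) := by
  simp only [nd0, nd1, nd3, nd5, nd14, nd20, nd21, nd430, nd431, nd432, nd433, eD2, v_eP, val_f, val_h, val_m, val_vx, val_vy]
  unfold f_eD2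
  push_cast
  ring

/-- real function of eDd -/
noncomputable def f_eDd (x y t : ℝ) : ℝ := ((1 - ((2 / 5) * x)) * (1 - ((2 / 5) * y))) - (f_eP x y t * f_eP x y t)

theorem v_eDd (x y t : ℝ) : val eDd x y t = 2500 * (f_eDd x y t) := by
  simp only [nd25, eDd, v_eP, v_eM, val_f, val_m]
  unfold f_eDd f_eM f_eP
  push_cast
  ring

/-- real function of eR1 -/
noncomputable def f_eR1 (x y t : ℝ) : ℝ := (1 - x) * (1 - y)

theorem v_eR1 (x y t : ℝ) : val eR1 x y t = 1 * (f_eR1 x y t) := by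
  simp only [nd0, nd1, nd3, nd5, nd436, nd437, eR1, val_f, val_h, val_m, val_vx, val_vy]
  unfold f_eR1
  push_cast
  ring

/-- real function of eR3 -/
noncomputable def f_eR3 (x y t : ℝ) : ℝ := f_eR1 x y t ^ 3

theorem v_eR3 (x y t : ℝ) : val eR3 x y t = 1 * (f_eR3 x y t) := by
  simp only [nd439, eR3, v_eR1, val_m]
  unfold f_eR3
  push_cast
  ring

/-- real function of eK3 -/
noncomputable def f_eK3 (x y t : ℝ) : ℝ := f_eR3 x y t * f_eS11 x y t

theorem v_eK3 (x y t : ℝ) : val eK3 x y t = 177364687500000000000000000000000000000000000 * (f_eK3 x y t) := by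
  simp only [eK3, v_eS11, v_eR3, val_m]
  unfold f_eK3
  push_cast
  ring


theorem KT_eq (x y t : ℝ) : f_eS11 x y t = Kt 11 4 cA x y (f_eP x y t) (f_eM x y t) := by
  rw [Kt_eq]
  simp only [f_eS11, f_eS10, f_eS9, f_eS8, f_eS7, f_eS6, f_eS5, f_eS4, f_eS3, f_eS2, f_eS1]

/-- `T` in the lower chart. -/
noncomputable def TL (x y v : ℝ) : ℝ := -1 / 2 - v * (1 / 2 - 1 / 5 * (x + y) - 2 / 25 * (x * y))

theorem TLx (x y t : ℝ) : f_eT x y t = TL x y t := by
  unfold f_eT TL
  ring

lemma TL_symm (x y v : ℝ) : TL x y v = TL y x v := by unfold TL; ring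

theorem KTx (x y t : ℝ) : f_eS11 x y t = Ktx x y (TL x y t) := by
  rw [KT_eq]
  unfold Ktx f_eP f_eM
  rw [TLx]

theorem K3x (x y t : ℝ) : f_eK3 x y t = K3 x y (TL x y t) := by
  unfold f_eK3 K3 f_eR3 f_eR1
  rw [KTx]
  ring

theorem D2x (x y t : ℝ) : f_eD2 x y t = PG.dd x y (TL x y t) := by
  unfold f_eD2 PG.dd f_eP
  rw [TLx] <;> ring

theorem DDx (x y t : ℝ) : f_eDd x y t = PG.DD x y (TL x y t) := by
  unfold f_eDd PG.DD f_eP
  rw [TLx] <;> ring

end Pool.Agent.Lib.MP_f1379f_gt.FV.CJ.L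
end

section
/-!
# programs, chart L
-/
set_option autoImplicit false
set_option linter.unusedVariables false
set_option linter.unusedSimpArgs false
set_option linter.unusedTactic false
set_option linter.style.longLine false
set_option maxRecDepth 100000

namespace Pool.Agent.Lib.MP_f1379f_gt.FV.CK2.L

open Finset Pool.Agent.Lib.MP_f1379f_gt.FV Pool.Agent.Lib.MP_f1379f_gt.FV.BCH Pool.Agent.Lib.MP_f1379f_gt.FV.CK2

/-- node -/
def nd0 : Ex := .v .x
/-- node -/
def nd1 : Ex := .v .y
/-- node -/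
def nd2 : Ex := .v .t
/-- node -/
def nd3 : Ex := .h .y
/-- node -/
def nd4 : Ex := .m nd0 nd3
/-- node -/
def nd5 : Ex := .h .x
/-- node -/
def nd6 : Ex := .m nd1 nd5
/-- node -/
def nd7 : Ex := .f 1 nd4 1 nd6
/-- node -/
def nd9 : Ex := .m nd5 nd3
/-- node -/
def nd10 : Ex := .f 5 nd9 (-2) nd7
/-- node -/
def nd11 : Ex := .m nd0 nd1
/-- node -/
def nd12 : Ex := .f 5 nd10 (-4) nd11
/-- node -/
def nd13 : Ex := .m nd2 nd12
/-- node -/
def nd14 : Ex := .h .t
/-- node -/
def nd15 : Ex := .m nd3 nd14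
/-- node -/
def nd16 : Ex := .m nd5 nd15
/-- node -/
def eT : Ex := .f (-25) nd16 (-1) nd13
/-- node -/
def nd18 : Ex := .m nd11 nd14
/-- node -/
def eP : Ex := .f 1 eT (-4) nd18
/-- node -/
def nd20 : Ex := .f 5 nd5 (-2) nd0
/-- node -/
def nd21 : Ex := .f 5 nd3 (-2) nd1
/-- node -/
def nd22 : Ex := .m nd20 nd21
/-- node -/
def nd23 : Ex := .m nd14 nd16
/-- node -/
def eM : Ex := .m nd22 nd23
/-- node -/
def nd25 : Ex := .m eP eP
/-- node -/
def eW2 : Ex := .f 2 nd25 (-25) eM
/-- node -/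
def nd27 : Ex := .m eP eW2
/-- node -/
def nd28 : Ex := .m eM eP
/-- node -/
def eW3 : Ex := .f 1 nd27 (-35) nd28
/-- node -/
def nd30 : Ex := .m eP eW3
/-- node -/
def nd31 : Ex := .m eM eW2
/-- node -/
def eW4 : Ex := .f 1 nd30 (-20) nd31
/-- node -/
def nd33 : Ex := .m eP eW4
/-- node -/
def nd34 : Ex := .m eM eW3
/-- node -/
def eW5 : Ex := .f 7 nd33 (-150) nd34
/-- node -/
def nd36 : Ex := .m eP eW5
/-- node -/
def nd37 : Ex := .m eM eW4
/-- node -/
def eW6 : Ex := .f 4 nd36 (-625) nd37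
/-- node -/
def nd39 : Ex := .m eP eW6
/-- node -/
def nd40 : Ex := .m eM eW5
/-- node -/
def eW7 : Ex := .f 3 nd39 (-275) nd40
/-- node -/
def nd42 : Ex := .m eP eW7
/-- node -/
def nd43 : Ex := .m eM eW6
/-- node -/
def eW8 : Ex := .f 1 nd42 (-70) nd43
/-- node -/
def nd45 : Ex := .m eP eW8
/-- node -/
def nd46 : Ex := .m eM eW7
/-- node -/
def eW9 : Ex := .f 11 nd45 (-260) nd46
/-- node -/
def nd48 : Ex := .m eP eW9
/-- node -/
def nd49 : Ex := .m eM eW8
/-- node -/
def eW10 : Ex := .f 2 nd48 (-525) nd49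
/-- node -/
def nd51 : Ex := .m eP eW10
/-- node -/
def nd52 : Ex := .m eM eW9
/-- node -/
def eW11 : Ex := .f 13 nd51 (-625) nd52
/-- node -/
def nd54 : Ex := .f 2500 nd3 (-20857) nd1
/-- node -/
def nd55 : Ex := .m nd1 nd1
/-- node -/
def nd56 : Ex := .m nd54 nd3
/-- node -/
def nd57 : Ex := .f 2 nd56 423087 nd55
/-- node -/
def nd58 : Ex := .m nd55 nd1
/-- node -/
def nd59 : Ex := .m nd57 nd3
/-- node -/
def nd60 : Ex := .f 2 nd59 (-772651) nd58
/-- node -/
def nd61 : Ex := .f (-975742602500) nd3 8234999634137 nd1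
/-- node -/
def nd62 : Ex := .m nd61 nd3
/-- node -/
def nd63 : Ex := .f 2 nd62 (-167206038588867) nd55
/-- node -/
def nd64 : Ex := .m nd63 nd3
/-- node -/
def nd65 : Ex := .f 2 nd64 305669510323091 nd58
/-- node -/
def nd66 : Ex := .m nd0 nd65
/-- node -/
def nd67 : Ex := .m nd60 nd5
/-- node -/
def nd68 : Ex := .f 46782500 nd67 1 nd66
/-- node -/
def nd69 : Ex := .f 6597689192500 nd3 (-55735346196289) nd1
/-- node -/
def nd70 : Ex := .m nd69 nd3
/-- node -/
def nd71 : Ex := .f 25 nd70 14163705754374127 nd55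
/-- node -/
def nd72 : Ex := .m nd71 nd3
/-- node -/
def nd73 : Ex := .f 4 nd72 (-51839534029428137) nd58
/-- node -/
def nd74 : Ex := .m nd0 nd0
/-- node -/
def nd75 : Ex := .m nd74 nd73
/-- node -/
def nd76 : Ex := .m nd68 nd5
/-- node -/
def nd77 : Ex := .f 50 nd76 3 nd75
/-- node -/
def nd78 : Ex := .f (-36146545407500) nd3 305669510323091 nd1
/-- node -/
def nd79 : Ex := .m nd78 nd3
/-- node -/
def nd80 : Ex := .f 50 nd79 (-155518602088284411) nd55
/-- node -/
def nd81 : Ex := .m nd80 nd3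
/-- node -/
def nd82 : Ex := .f 1 nd81 142440765726861799 nd58
/-- node -/
def nd83 : Ex := .m nd74 nd0
/-- node -/
def nd84 : Ex := .m nd83 nd82
/-- node -/
def nd85 : Ex := .m nd77 nd5
/-- node -/
def eq0 : Ex := .f 1 nd85 1 nd84
/-- node -/
def nd87 : Ex := .m eq0 nd16
/-- node -/
def nd88 : Ex := .f 2000 nd3 4381 nd1
/-- node -/
def nd89 : Ex := .m nd88 nd3
/-- node -/
def nd90 : Ex := .f 5 nd89 142063 nd55
/-- node -/
def nd91 : Ex := .m nd90 nd3
/-- node -/
def nd92 : Ex := .f 1 nd91 (-154521) nd58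
/-- node -/
def nd93 : Ex := .f 195218012777762000 nd3 589997564391927661 nd1
/-- node -/
def nd94 : Ex := .m nd93 nd3
/-- node -/
def nd95 : Ex := .f 5 nd94 12997691801260514143 nd55
/-- node -/
def nd96 : Ex := .m nd95 nd3
/-- node -/
def nd97 : Ex := .f 1 nd96 (-13578341181388228521) nd58
/-- node -/
def nd98 : Ex := .m nd0 nd97
/-- node -/
def nd99 : Ex := .m nd92 nd5
/-- node -/
def nd100 : Ex := .f 44560149002000 nd99 1 nd98
/-- node -/
def nd101 : Ex := .f 6330348447671126000 nd3 12997691801260514143 nd1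
/-- node -/
def nd102 : Ex := .m nd101 nd3
/-- node -/
def nd103 : Ex := .f 125 nd102 11537928527581653711901 nd55
/-- node -/
def nd104 : Ex := .m nd103 nd3
/-- node -/
def nd105 : Ex := .f 1 nd104 (-12959632449930412629243) nd58
/-- node -/
def nd106 : Ex := .m nd74 nd105
/-- node -/
def nd107 : Ex := .m nd100 nd5
/-- node -/
def nd108 : Ex := .f 125 nd107 1 nd106
/-- node -/
def nd109 : Ex := .f (-765053198215338000) nd3 (-1508704575709803169) nd1
/-- node -/
def nd110 : Ex := .m nd109 nd3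
/-- node -/
def nd111 : Ex := .f 125 nd110 (-1439959161103379181027) nd55
/-- node -/
def nd112 : Ex := .m nd111 nd3
/-- node -/
def nd113 : Ex := .f 3 nd112 5073828615442623232783 nd58
/-- node -/
def nd114 : Ex := .m nd83 nd113
/-- node -/
def nd115 : Ex := .m nd108 nd5
/-- node -/
def eq1 : Ex := .f 1 nd115 3 nd114
/-- node -/
def nd117 : Ex := .m eq1 eP
/-- node -/
def eS1 : Ex := .f 2048000 nd87 1 nd117
/-- node -/
def nd119 : Ex := .m eS1 nd16
/-- node -/
def nd120 : Ex := .f 625 nd3 1466 nd1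
/-- node -/
def nd121 : Ex := .m nd120 nd3
/-- node -/
def nd122 : Ex := .f 16 nd121 220405 nd55
/-- node -/
def nd123 : Ex := .m nd122 nd3
/-- node -/
def nd124 : Ex := .f 1 nd123 (-187205) nd58
/-- node -/
def nd125 : Ex := .f 812814115566875 nd3 4232456523233662 nd1
/-- node -/
def nd126 : Ex := .m nd125 nd3
/-- node -/
def nd127 : Ex := .f 16 nd126 29431485859885511 nd55
/-- node -/
def nd128 : Ex := .m nd127 nd3
/-- node -/
def nd129 : Ex := .f 1 nd128 12688302032006345 nd58
/-- node -/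
def nd130 : Ex := .m nd0 nd129
/-- node -/
def nd131 : Ex := .m nd124 nd5
/-- node -/
def nd132 : Ex := .f 1108886924375 nd131 2 nd130
/-- node -/
def nd133 : Ex := .f 244404222566871875 nd3 58862971719771022 nd1
/-- node -/
def nd134 : Ex := .m nd133 nd3
/-- node -/
def nd135 : Ex := .f 10000 nd134 97603839771759338857247 nd55
/-- node -/
def nd136 : Ex := .m nd135 nd3
/-- node -/
def nd137 : Ex := .f 1 nd136 (-90364750826130390131215) nd58
/-- node -/
def nd138 : Ex := .m nd74 nd137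
/-- node -/
def nd139 : Ex := .m nd132 nd5
/-- node -/
def nd140 : Ex := .f 10000 nd139 1 nd138
/-- node -/
def nd141 : Ex := .f (-41517835335524375) nd3 5075320812802538 nd1
/-- node -/
def nd142 : Ex := .m nd141 nd3
/-- node -/
def nd143 : Ex := .f 10000 nd142 (-18072950165226078026243) nd55
/-- node -/
def nd144 : Ex := .m nd143 nd3
/-- node -/
def nd145 : Ex := .f 5 nd144 84634086066852363755519 nd58
/-- node -/
def nd146 : Ex := .m nd83 nd145
/-- node -/
def nd147 : Ex := .m nd140 nd5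
/-- node -/
def eq2 : Ex := .f 1 nd147 1 nd146
/-- node -/
def nd149 : Ex := .m eq2 eW2
/-- node -/
def eS2 : Ex := .f 175 nd119 2 nd149
/-- node -/
def nd151 : Ex := .m eS2 nd16
/-- node -/
def nd152 : Ex := .f 2500 nd3 7889 nd1
/-- node -/
def nd153 : Ex := .m nd152 nd3
/-- node -/
def nd154 : Ex := .f 2 nd153 91121 nd55
/-- node -/
def nd155 : Ex := .m nd154 nd3
/-- node -/
def nd156 : Ex := .f 2 nd155 (-138465) nd58
/-- node -/
def nd157 : Ex := .f 2548858692901202500 nd3 8207642118583034609 nd1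
/-- node -/
def nd158 : Ex := .m nd157 nd3
/-- node -/
def nd159 : Ex := .f 2 nd158 88789210826251152401 nd55
/-- node -/
def nd160 : Ex := .m nd159 nd3
/-- node -/
def nd161 : Ex := .f 2 nd160 (-126116547623435780865) nd58
/-- node -/
def nd162 : Ex := .m nd0 nd161
/-- node -/
def nd163 : Ex := .m nd156 nd5
/-- node -/
def nd164 : Ex := .f 323090213322500 nd163 1 nd162
/-- node -/
def nd165 : Ex := .f 29440303328159522500 nd3 88789210826251152401 nd1
/-- node -/
def nd166 : Ex := .m nd165 nd3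
/-- node -/
def nd167 : Ex := .f 50 nd166 34973454519689880297929 nd55
/-- node -/
def nd168 : Ex := .m nd167 nd3
/-- node -/
def nd169 : Ex := .f 2 nd168 (-58355014374179807553849) nd58
/-- node -/
def nd170 : Ex := .m nd74 nd169
/-- node -/
def nd171 : Ex := .m nd164 nd5
/-- node -/
def nd172 : Ex := .f 50 nd171 1 nd170
/-- node -/
def nd173 : Ex := .f (-994148586393332500) nd3 (-2802589947187461797) nd1
/-- node -/
def nd174 : Ex := .m nd173 nd3
/-- node -/
def nd175 : Ex := .f 750 nd174 (-19451671458059935851283) nd55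
/-- node -/
def nd176 : Ex := .m nd175 nd3
/-- node -/
def nd177 : Ex := .f 2 nd176 36137952976329907421667 nd58
/-- node -/
def nd178 : Ex := .m nd83 nd177
/-- node -/
def nd179 : Ex := .m nd172 nd5
/-- node -/
def eq3 : Ex := .f 2 nd179 3 nd178
/-- node -/
def nd181 : Ex := .m eq3 eW3
/-- node -/
def eS3 : Ex := .f 20 nd151 1 nd181
/-- node -/
def nd183 : Ex := .m eS3 nd16
/-- node -/
def nd184 : Ex := .f 5000 nd3 16687 nd1
/-- node -/
def nd185 : Ex := .m nd184 nd3
/-- node -/
def nd186 : Ex := .f 1 nd185 120996 nd55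
/-- node -/
def nd187 : Ex := .m nd186 nd3
/-- node -/
def nd188 : Ex := .f 1 nd187 (-67864) nd58
/-- node -/
def nd189 : Ex := .f 55966682736965000 nd3 189976183145546991 nd1
/-- node -/
def nd190 : Ex := .m nd189 nd3
/-- node -/
def nd191 : Ex := .f 1 nd190 1312500525893296548 nd55
/-- node -/
def nd192 : Ex := .m nd191 nd3
/-- node -/
def nd193 : Ex := .f 1 nd192 (-686144949937966872) nd58
/-- node -/
def nd194 : Ex := .m nd0 nd193
/-- node -/
def nd195 : Ex := .m nd188 nd5
/-- node -/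
def nd196 : Ex := .f 3353909195000 nd195 1 nd194
/-- node -/
def nd197 : Ex := .f 33817466413185000 nd3 109375043824441379 nd1
/-- node -/
def nd198 : Ex := .m nd197 nd3
/-- node -/
def nd199 : Ex := .f 2125 nd198 1836461765613761808964 nd55
/-- node -/
def nd200 : Ex := .m nd199 nd3
/-- node -/
def nd201 : Ex := .f 1 nd200 (-1146353429316278002904) nd58
/-- node -/
def nd202 : Ex := .m nd74 nd201
/-- node -/
def nd203 : Ex := .m nd196 nd5
/-- node -/
def nd204 : Ex := .f 2125 nd203 12 nd202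
/-- node -/
def nd205 : Ex := .f (-1673600688305000) nd3 (-5045183455426227) nd1
/-- node -/
def nd206 : Ex := .m nd205 nd3
/-- node -/
def nd207 : Ex := .f 36125 nd206 (-1719530143974417004356) nd55
/-- node -/
def nd208 : Ex := .m nd207 nd3
/-- node -/
def nd209 : Ex := .f 1 nd208 1270658376626592944344 nd58
/-- node -/
def nd210 : Ex := .m nd83 nd209
/-- node -/
def nd211 : Ex := .m nd204 nd5
/-- node -/
def eq4 : Ex := .f 1 nd211 8 nd210
/-- node -/
def nd213 : Ex := .m eq4 eW4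
/-- node -/
def eS4 : Ex := .f 25 nd183 8 nd213
/-- node -/
def nd215 : Ex := .m eS4 nd16
/-- node -/
def nd216 : Ex := .f 10000 nd3 36197 nd1
/-- node -/
def nd217 : Ex := .m nd216 nd3
/-- node -/
def nd218 : Ex := .f 1 nd217 286708 nd55
/-- node -/
def nd219 : Ex := .m nd218 nd3
/-- node -/
def nd220 : Ex := .f 1 nd219 (-73957) nd58
/-- node -/
def nd221 : Ex := .f 9680304408100970000 nd3 41261628435987081109 nd1
/-- node -/
def nd222 : Ex := .m nd221 nd3
/-- node -/
def nd223 : Ex := .f 1 nd222 192892200169977975476 nd55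
/-- node -/
def nd224 : Ex := .m nd223 nd3
/-- node -/
def nd225 : Ex := .f 1 nd224 33808293459821608171 nd58
/-- node -/
def nd226 : Ex := .m nd0 nd225
/-- node -/
def nd227 : Ex := .m nd220 nd5
/-- node -/
def nd228 : Ex := .f 267433887010000 nd227 1 nd226
/-- node -/
def nd229 : Ex := .f 19168858719215770000 nd3 48223050042494493869 nd1
/-- node -/
def nd230 : Ex := .m nd229 nd3
/-- node -/
def nd231 : Ex := .f 25 nd230 20940283207822276489716 nd55
/-- node -/
def nd232 : Ex := .m nd231 nd3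
/-- node -/
def nd233 : Ex := .f 1 nd232 (-12509048071215504886885) nd58
/-- node -/
def nd234 : Ex := .m nd74 nd233
/-- node -/
def nd235 : Ex := .m nd228 nd5
/-- node -/
def nd236 : Ex := .f 25 nd235 4 nd234
/-- node -/
def nd237 : Ex := .f (-19778607981598570000) nd3 33808293459821608171 nd1
/-- node -/
def nd238 : Ex := .m nd237 nd3
/-- node -/
def nd239 : Ex := .f 5 nd238 (-10007238456972403909508) nd55
/-- node -/
def nd240 : Ex := .m nd239 nd3
/-- node -/
def nd241 : Ex := .f 1 nd240 9660755457976424866025 nd58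
/-- node -/
def nd242 : Ex := .m nd83 nd241
/-- node -/
def nd243 : Ex := .m nd236 nd5
/-- node -/
def eq5 : Ex := .f 1 nd243 5 nd242
/-- node -/
def nd245 : Ex := .m eq5 eW5
/-- node -/
def eS5 : Ex := .f 125 nd215 2 nd245
/-- node -/
def nd247 : Ex := .m eS5 nd16
/-- node -/
def nd248 : Ex := .f 10000 nd3 34573 nd1
/-- node -/
def nd249 : Ex := .m nd248 nd3
/-- node -/
def nd250 : Ex := .f 1 nd249 389452 nd55
/-- node -/
def nd251 : Ex := .m nd250 nd3
/-- node -/
def nd252 : Ex := .f 1 nd251 16972 nd58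
/-- node -/
def nd253 : Ex := .f 754263337335970000 nd3 2850115146123649081 nd1
/-- node -/
def nd254 : Ex := .m nd253 nd3
/-- node -/
def nd255 : Ex := .f 1 nd254 25933018964255385244 nd55
/-- node -/
def nd256 : Ex := .m nd255 nd3
/-- node -/
def nd257 : Ex := .f 1 nd256 7154203053742429084 nd58
/-- node -/
def nd258 : Ex := .m nd0 nd257
/-- node -/
def nd259 : Ex := .m nd252 nd5
/-- node -/
def nd260 : Ex := .f 21816542890000 nd259 1 nd258
/-- node -/
def nd261 : Ex := .f 2124124065399070000 nd3 6483254741063846311 nd1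
/-- node -/
def nd262 : Ex := .m nd261 nd3
/-- node -/
def nd263 : Ex := .f 25 nd262 2374001049172814549828 nd55
/-- node -/
def nd264 : Ex := .m nd263 nd3
/-- node -/
def nd265 : Ex := .f 1 nd264 (-431585277539152394684) nd58
/-- node -/
def nd266 : Ex := .m nd74 nd265
/-- node -/
def nd267 : Ex := .m nd260 nd5
/-- node -/
def nd268 : Ex := .f 25 nd267 4 nd266
/-- node -/
def nd269 : Ex := .f 92567591482270000 nd3 1788550763435607271 nd1
/-- node -/
def nd270 : Ex := .m nd269 nd3
/-- node -/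
def nd271 : Ex := .f 25 nd270 (-431585277539152394684) nd55
/-- node -/
def nd272 : Ex := .m nd271 nd3
/-- node -/
def nd273 : Ex := .f 15 nd272 13409833517276071686908 nd58
/-- node -/
def nd274 : Ex := .m nd83 nd273
/-- node -/
def nd275 : Ex := .m nd268 nd5
/-- node -/
def eq6 : Ex := .f 15 nd275 4 nd274
/-- node -/
def nd277 : Ex := .m eq6 eW6
/-- node -/
def eS6 : Ex := .f 275 nd247 2 nd277
/-- node -/
def nd279 : Ex := .m eS6 nd16
/-- node -/
def nd280 : Ex := .f 1250 nd3 2849 nd1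
/-- node -/
def nd281 : Ex := .m nd280 nd3
/-- node -/
def nd282 : Ex := .f 2 nd281 153321 nd55
/-- node -/
def nd283 : Ex := .m nd282 nd3
/-- node -/
def nd284 : Ex := .f 4 nd283 311955 nd58
/-- node -/
def nd285 : Ex := .f 7175107401096250 nd3 154050012231778573 nd1
/-- node -/
def nd286 : Ex := .m nd285 nd3
/-- node -/
def nd287 : Ex := .f 2 nd286 (-2686511683017495243) nd55
/-- node -/
def nd288 : Ex := .m nd287 nd3
/-- node -/
def nd289 : Ex := .f 4 nd288 21590855487749571735 nd58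
/-- node -/
def nd290 : Ex := .m nd0 nd289
/-- node -/
def nd291 : Ex := .m nd284 nd5
/-- node -/
def nd292 : Ex := .f 2518465216250 nd291 1 nd290
/-- node -/
def nd293 : Ex := .f 128711201806888750 nd3 (-895503894339165081) nd1
/-- node -/
def nd294 : Ex := .m nd293 nd3
/-- node -/
def nd295 : Ex := .f 250 nd294 5823197120977252340707 nd55
/-- node -/
def nd296 : Ex := .m nd295 nd3
/-- node -/
def nd297 : Ex := .f 4 nd296 (-17354303888778183078415) nd58
/-- node -/
def nd298 : Ex := .m nd74 nd297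
/-- node -/
def nd299 : Ex := .m nd292 nd5
/-- node -/
def nd300 : Ex := .f 250 nd299 3 nd298
/-- node -/
def nd301 : Ex := .f 52376521102351250 nd3 1439390365849971449 nd1
/-- node -/
def nd302 : Ex := .m nd301 nd3
/-- node -/
def nd303 : Ex := .f 250 nd302 (-3470860777755636615683) nd55
/-- node -/
def nd304 : Ex := .m nd303 nd3
/-- node -/
def nd305 : Ex := .f 20 nd304 126802957894217127009387 nd58
/-- node -/
def nd306 : Ex := .m nd83 nd305
/-- node -/
def nd307 : Ex := .m nd300 nd5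
/-- node -/
def eq7 : Ex := .f 4 nd307 3 nd306
/-- node -/
def nd309 : Ex := .m eq7 eW7
/-- node -/
def eS7 : Ex := .f 50 nd279 1 nd309
/-- node -/
def nd311 : Ex := .m eS7 nd16
/-- node -/
def nd312 : Ex := .m nd1 nd3
/-- node -/
def nd313 : Ex := .f 2000 nd312 (-32049) nd55
/-- node -/
def nd314 : Ex := .m nd313 nd3
/-- node -/
def nd315 : Ex := .f 5 nd314 182219 nd58
/-- node -/
def nd316 : Ex := .m nd0 nd315
/-- node -/
def nd317 : Ex := .f (-280325103534000) nd312 4541329199020583 nd55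
/-- node -/
def nd318 : Ex := .m nd317 nd3
/-- node -/
def nd319 : Ex := .f 5 nd318 (-28684149401595373) nd58
/-- node -/
def nd320 : Ex := .m nd74 nd319
/-- node -/
def nd321 : Ex := .m nd316 nd5
/-- node -/
def nd322 : Ex := .f 8746766000 nd321 1 nd320
/-- node -/
def nd323 : Ex := .f 227689564822000 nd312 (-4097735628799339) nd55
/-- node -/
def nd324 : Ex := .m nd323 nd3
/-- node -/
def nd325 : Ex := .f 5 nd324 49408911488916426 nd58
/-- node -/
def nd326 : Ex := .m nd83 nd325
/-- node -/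
def nd327 : Ex := .m nd322 nd5
/-- node -/
def eq8 : Ex := .f 5 nd327 7 nd326
/-- node -/
def nd329 : Ex := .m eq8 eW8
/-- node -/
def eS8 : Ex := .f 13 nd311 737280 nd329
/-- node -/
def nd331 : Ex := .m eS8 nd16
/-- node -/
def nd332 : Ex := .f 5000 nd3 429553 nd1
/-- node -/
def nd333 : Ex := .m nd332 nd3
/-- node -/
def nd334 : Ex := .f 2 nd333 (-12581665) nd55
/-- node -/
def nd335 : Ex := .m nd334 nd3
/-- node -/
def nd336 : Ex := .f 1 nd335 12288160 nd58
/-- node -/
def nd337 : Ex := .f 6605513542685000 nd3 1641375615120193961 nd1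
/-- node -/
def nd338 : Ex := .m nd337 nd3
/-- node -/
def nd339 : Ex := .f 2 nd338 (-48227601450070006105) nd55
/-- node -/
def nd340 : Ex := .m nd339 nd3
/-- node -/
def nd341 : Ex := .f 1 nd340 80417653185206485920 nd58
/-- node -/
def nd342 : Ex := .m nd0 nd341
/-- node -/
def nd343 : Ex := .m nd336 nd5
/-- node -/
def nd344 : Ex := .f 15377645000 nd343 1 nd342
/-- node -/
def nd345 : Ex := .f (-38695275575785000) nd3 (-9645520290014001221) nd1
/-- node -/
def nd346 : Ex := .m nd345 nd3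
/-- node -/
def nd347 : Ex := .f 350 nd346 49596969673693632495419 nd55
/-- node -/
def nd348 : Ex := .m nd347 nd3
/-- node -/
def nd349 : Ex := .f 1 nd348 (-82763582126201822398688) nd58
/-- node -/
def nd350 : Ex := .m nd74 nd349
/-- node -/
def nd351 : Ex := .m nd344 nd5
/-- node -/
def nd352 : Ex := .f 70 nd351 1 nd350
/-- node -/
def nd353 : Ex := .f 1181018513645000 nd3 502610332407540537 nd1
/-- node -/
def nd354 : Ex := .m nd353 nd3
/-- node -/
def nd355 : Ex := .f 350 nd354 (-2586361941443806949959) nd55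
/-- node -/
def nd356 : Ex := .m nd355 nd3
/-- node -/
def nd357 : Ex := .f 1 nd356 4744109718382010063968 nd58
/-- node -/
def nd358 : Ex := .m nd83 nd357
/-- node -/
def nd359 : Ex := .m nd352 nd5
/-- node -/
def eq9 : Ex := .f 1 nd359 32 nd358
/-- node -/
def nd361 : Ex := .m eq9 eW9
/-- node -/
def eS9 : Ex := .f 175 nd331 1 nd361
/-- node -/
def nd363 : Ex := .m eS9 nd16
/-- node -/
def nd364 : Ex := .f 625 nd3 5826 nd1
/-- node -/
def nd365 : Ex := .m nd364 nd3
/-- node -/
def nd366 : Ex := .f 8 nd365 (-49207) nd55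
/-- node -/
def nd367 : Ex := .m nd366 nd3
/-- node -/
def nd368 : Ex := .f 1 nd367 (-2877) nd58
/-- node -/
def nd369 : Ex := .f 1162297335688125 nd3 30662303535550426 nd1
/-- node -/
def nd370 : Ex := .m nd369 nd3
/-- node -/
def nd371 : Ex := .f 8 nd370 (-2223619706679494347) nd55
/-- node -/
def nd372 : Ex := .m nd371 nd3
/-- node -/
def nd373 : Ex := .f 1 nd372 2848430016483394023 nd58
/-- node -/
def nd374 : Ex := .m nd0 nd373
/-- node -/
def nd375 : Ex := .m nd368 nd5
/-- node -/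
def nd376 : Ex := .f 399003548125 nd375 2 nd374
/-- node -/
def nd377 : Ex := .f (-2804823941798125) nd3 (-635319916194141242) nd1
/-- node -/
def nd378 : Ex := .m nd377 nd3
/-- node -/
def nd379 : Ex := .f 1000 nd378 8217343195310712943151 nd55
/-- node -/
def nd380 : Ex := .m nd379 nd3
/-- node -/
def nd381 : Ex := .f 1 nd380 (-10960347187053167116315) nd58
/-- node -/
def nd382 : Ex := .m nd74 nd381
/-- node -/
def nd383 : Ex := .m nd376 nd5
/-- node -/
def nd384 : Ex := .f 1000 nd383 7 nd382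
/-- node -/
def nd385 : Ex := .f (-382644402651875) nd3 1898953344322262682 nd1
/-- node -/
def nd386 : Ex := .m nd385 nd3
/-- node -/
def nd387 : Ex := .f 600 nd386 (-15344486061874433962841) nd55
/-- node -/
def nd388 : Ex := .m nd387 nd3
/-- node -/
def nd389 : Ex := .f 5 nd388 102708859080822374328897 nd58
/-- node -/
def nd390 : Ex := .m nd83 nd389
/-- node -/
def nd391 : Ex := .m nd384 nd5
/-- node -/
def eq10 : Ex := .f 1 nd391 1 nd390
/-- node -/
def nd393 : Ex := .m eq10 eW10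
/-- node -/
def eS10 : Ex := .f 625 nd363 8 nd393
/-- node -/
def nd395 : Ex := .m eS10 nd16
/-- node -/
def nd396 : Ex := .f 2000 nd3 18697 nd1
/-- node -/
def nd397 : Ex := .m nd396 nd3
/-- node -/
def nd398 : Ex := .f 5 nd397 (-115833) nd55
/-- node -/
def nd399 : Ex := .m nd398 nd3
/-- node -/
def nd400 : Ex := .f 1 nd399 822383 nd58
/-- node -/
def nd401 : Ex := .f 4259797078642000 nd3 44549649524724737 nd1
/-- node -/
def nd402 : Ex := .m nd401 nd3
/-- node -/
def nd403 : Ex := .f 5 nd402 (-547908206581383153) nd55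
/-- node -/
def nd404 : Ex := .m nd403 nd3
/-- node -/
def nd405 : Ex := .f 1 nd404 2150715963735059383 nd58
/-- node -/
def nd406 : Ex := .m nd0 nd405
/-- node -/
def nd407 : Ex := .m nd400 nd5
/-- node -/
def nd408 : Ex := .f 227833186000 nd407 1 nd406
/-- node -/
def nd409 : Ex := .f (-8796867144646000) nd3 (-182636068860461051) nd1
/-- node -/
def nd410 : Ex := .m nd409 nd3
/-- node -/
def nd411 : Ex := .f 375 nd410 519943634244118368761 nd55
/-- node -/
def nd412 : Ex := .m nd411 nd3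
/-- node -/
def nd413 : Ex := .f 1 nd412 (-908461174853026450159) nd58
/-- node -/
def nd414 : Ex := .m nd74 nd413
/-- node -/
def nd415 : Ex := .m nd408 nd5
/-- node -/
def nd416 : Ex := .f 125 nd415 1 nd414
/-- node -/
def nd417 : Ex := .f 187366139002238000 nd3 2150715963735059383 nd1
/-- node -/
def nd418 : Ex := .m nd417 nd3
/-- node -/
def nd419 : Ex := .f 125 nd418 (-908461174853026450159) nd55
/-- node -/
def nd420 : Ex := .m nd419 nd3
/-- node -/
def nd421 : Ex := .f 5 nd420 13847925136041542483469 nd58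
/-- node -/
def nd422 : Ex := .m nd83 nd421
/-- node -/
def nd423 : Ex := .m nd416 nd5
/-- node -/
def eq11 : Ex := .f 5 nd423 1 nd422
/-- node -/
def nd425 : Ex := .m eq11 eW11
/-- node -/
def eS11 : Ex := .f 50 nd395 1 nd425
/-- node -/
def nd427 : Ex := .f 1 eT 50 nd16
/-- node -/
def nd428 : Ex := .f 1 eT 25 nd16
/-- node -/
def nd429 : Ex := .m nd428 nd428
/-- node -/
def nd430 : Ex := .m nd427 nd429
/-- node -/
def nd431 : Ex := .m eT eT
/-- node -/
def eB : Ex := .m nd430 nd431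
/-- node -/
def nd433 : Ex := .m nd20 nd3
/-- node -/
def nd434 : Ex := .m nd21 nd5
/-- node -/
def nd435 : Ex := .f 1 nd433 1 nd434
/-- node -/
def nd436 : Ex := .m nd435 nd14
/-- node -/
def eD2 : Ex := .f 5 nd436 (-1) eP
/-- node -/
def eDd : Ex := .f 100 eM (-1) nd25
/-- node -/
def nd439 : Ex := .f 1 nd5 (-1) nd0
/-- node -/
def nd440 : Ex := .f 1 nd3 (-1) nd1
/-- node -/
def eR1 : Ex := .m nd439 nd440
/-- node -/
def nd442 : Ex := .m eR1 eR1
/-- node -/
def eR3 : Ex := .m nd442 eR1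
/-- node -/
def eK3 : Ex := .m eR3 eS11

/-- real function of eT -/
noncomputable def f_eT (x y t : ℝ) : ℝ := ((-1) / 2) - (t * (((1 / 2) - ((1 / 5) * (x + y))) - ((2 / 25) * (x * y))))

theorem v_eT (x y t : ℝ) : val eT x y t = 50 * (f_eT x y t) := by
  simp only [nd0, nd1, nd2, nd3, nd4, nd5, nd6, nd7, nd9, nd10, nd11, nd12, nd13, nd14, nd15, nd16, eT, val_f, val_h, val_m, val_vt, val_vx, val_vy]
  unfold f_eT
  push_cast
  ring

/-- real function of eP -/
noncomputable def f_eP (x y t : ℝ) : ℝ := f_eT x y t - (((2 / 25) * x) * y)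

theorem v_eP (x y t : ℝ) : val eP x y t = 50 * (f_eP x y t) := by
  simp only [nd0, nd1, nd11, nd14, nd18, eP, v_eT, val_f, val_h, val_m, val_vx, val_vy]
  unfold f_eP
  push_cast
  ring

/-- real function of eM -/
noncomputable def f_eM (x y t : ℝ) : ℝ := (1 - ((2 / 5) * x)) * (1 - ((2 / 5) * y))

theorem v_eM (x y t : ℝ) : val eM x y t = 25 * (f_eM x y t) := by
  simp only [nd0, nd1, nd3, nd5, nd14, nd15, nd16, nd20, nd21, nd22, nd23, eM, val_f, val_h, val_m, val_vx, val_vy]
  unfold f_eM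
  push_cast
  ring

theorem v_eW2 (x y t : ℝ) : val eW2 x y t = 4375 * (Zg 8 2 (f_eP x y t) (f_eM x y t)) := by
  simp only [nd25, eW2, v_eP, v_eM, val_f, val_m]
  rw [zg_2]
  rw [zg_0, zg_1]
  push_cast
  ring

theorem v_eW3 (x y t : ℝ) : val eW3 x y t = 175000 * (Zg 8 3 (f_eP x y t) (f_eM x y t)) := by
  simp only [nd27, nd28, eW3, v_eP, v_eM, v_eW2, val_f, val_m]
  rw [zg_3]
  rw [zg_1]
  push_cast
  ring

theorem v_eW4 (x y t : ℝ) : val eW4 x y t = 6562500 * (Zg 8 4 (f_eP x y t) (f_eM x y t)) := by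
  simp only [nd30, nd31, eW4, v_eP, v_eM, v_eW2, v_eW3, val_f, val_m]
  rw [zg_4]
  push_cast
  ring

theorem v_eW5 (x y t : ℝ) : val eW5 x y t = 1640625000 * (Zg 8 5 (f_eP x y t) (f_eM x y t)) := by
  simp only [nd33, nd34, eW5, v_eP, v_eM, v_eW3, v_eW4, val_f, val_m]
  rw [zg_5]
  push_cast
  ring

theorem v_eW6 (x y t : ℝ) : val eW6 x y t = 225585937500 * (Zg 8 6 (f_eP x y t) (f_eM x y t)) := by
  simp only [nd36, nd37, eW6, v_eP, v_eM, v_eW4, v_eW5, val_f, val_m]
  rw [zg_6]
  push_cast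
  ring

theorem v_eW7 (x y t : ℝ) : val eW7 x y t = 22558593750000 * (Zg 8 7 (f_eP x y t) (f_eM x y t)) := by
  simp only [nd39, nd40, eW7, v_eP, v_eM, v_eW5, v_eW6, val_f, val_m]
  rw [zg_7]
  push_cast
  ring

theorem v_eW8 (x y t : ℝ) : val eW8 x y t = 733154296875000 * (Zg 8 8 (f_eP x y t) (f_eM x y t)) := by
  simp only [nd42, nd43, eW8, v_eP, v_eM, v_eW6, v_eW7, val_f, val_m]
  rw [zg_8]
  push_cast
  ring

theorem v_eW9 (x y t : ℝ) : val eW9 x y t = 256604003906250000 * (Zg 8 9 (f_eP x y t) (f_eM x y t)) := by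
  simp only [nd45, nd46, eW9, v_eP, v_eM, v_eW7, v_eW8, val_f, val_m]
  rw [zg_9]
  push_cast
  ring

theorem v_eW10 (x y t : ℝ) : val eW10 x y t = 16037750244140625000 * (Zg 8 10 (f_eP x y t) (f_eM x y t)) := by
  simp only [nd48, nd49, eW10, v_eP, v_eM, v_eW8, v_eW9, val_f, val_m]
  rw [zg_10]
  push_cast
  ring

theorem v_eW11 (x y t : ℝ) : val eW11 x y t = 6415100097656250000000 * (Zg 8 11 (f_eP x y t) (f_eM x y t)) := by
  simp only [nd51, nd52, eW11, v_eP, v_eM, v_eW9, v_eW10, val_f, val_m]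
  rw [zg_11]
  push_cast
  ring

theorem v_eq0 (x y t : ℝ) : val eq0 x y t = 300000000000000000 * (qf0 x y) := by
  simp only [nd0, nd1, nd3, nd5, nd54, nd55, nd56, nd57, nd58, nd59, nd60, nd61, nd62, nd63, nd64, nd65, nd66, nd67, nd68, nd69, nd70, nd71, nd72, nd73, nd74, nd75, nd76, nd77, nd78, nd79, nd80, nd81, nd82, nd83, nd84, nd85, eq0, val_f, val_h, val_m, val_vx, val_vy]
  unfold qf0
  push_cast
  ring

theorem v_eq1 (x y t : ℝ) : val eq1 x y t = 12288000000000000000000 * (qf1 x y) := by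
  simp only [nd0, nd1, nd3, nd5, nd55, nd58, nd74, nd83, nd88, nd89, nd90, nd91, nd92, nd93, nd94, nd95, nd96, nd97, nd98, nd99, nd100, nd101, nd102, nd103, nd104, nd105, nd106, nd107, nd108, nd109, nd110, nd111, nd112, nd113, nd114, nd115, eq1, val_f, val_h, val_m, val_vx, val_vy]
  unfold qf1
  push_cast
  ring

/-- real function of eS1 -/
noncomputable def f_eS1 (x y t : ℝ) : ℝ := qf0 x y * Zg 8 0 (f_eP x y t) (f_eM x y t) + qf1 x y * Zg 8 1 (f_eP x y t) (f_eM x y t)

theorem v_eS1 (x y t : ℝ) : val eS1 x y t = 614400000000000000000000 * (f_eS1 x y t) := by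
  simp only [nd3, nd5, nd14, nd15, nd16, nd87, nd117, eS1, v_eP, v_eq0, v_eq1, val_f, val_h, val_m]
  unfold f_eS1
  rw [zg_0, zg_1]
  push_cast
  ring

theorem v_eq2 (x y t : ℝ) : val eq2 x y t = 12288000000000000000000 * (qf2 x y) := by
  simp only [nd0, nd1, nd3, nd5, nd55, nd58, nd74, nd83, nd120, nd121, nd122, nd123, nd124, nd125, nd126, nd127, nd128, nd129, nd130, nd131, nd132, nd133, nd134, nd135, nd136, nd137, nd138, nd139, nd140, nd141, nd142, nd143, nd144, nd145, nd146, nd147, eq2, val_f, val_h, val_m, val_vx, val_vy]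
  unfold qf2
  push_cast
  ring

/-- real function of eS2 -/
noncomputable def f_eS2 (x y t : ℝ) : ℝ := f_eS1 x y t + qf2 x y * Zg 8 2 (f_eP x y t) (f_eM x y t)

theorem v_eS2 (x y t : ℝ) : val eS2 x y t = 107520000000000000000000000 * (f_eS2 x y t) := by
  simp only [nd3, nd5, nd14, nd15, nd16, nd119, nd149, eS2, v_eW2, v_eS1, v_eq2, val_f, val_h, val_m]
  unfold f_eS2
  push_cast
  ring

theorem v_eq3 (x y t : ℝ) : val eq3 x y t = 12288000000000000000000 * (qf3 x y) := by
  simp only [nd0, nd1, nd3, nd5, nd55, nd58, nd74, nd83, nd152, nd153, nd154, nd155, nd156, nd157, nd158, nd159, nd160, nd161, nd162, nd163, nd164, nd165, nd166, nd167, nd168, nd169, nd170, nd171, nd172, nd173, nd174, nd175, nd176, nd177, nd178, nd179, eq3, val_f, val_h, val_m, val_vx, val_vy]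
  unfold qf3
  push_cast
  ring

/-- real function of eS3 -/
noncomputable def f_eS3 (x y t : ℝ) : ℝ := f_eS2 x y t + qf3 x y * Zg 8 3 (f_eP x y t) (f_eM x y t)

theorem v_eS3 (x y t : ℝ) : val eS3 x y t = 2150400000000000000000000000 * (f_eS3 x y t) := by
  simp only [nd3, nd5, nd14, nd15, nd16, nd151, nd181, eS3, v_eW3, v_eS2, v_eq3, val_f, val_h, val_m]
  unfold f_eS3
  push_cast
  ring

theorem v_eq4 (x y t : ℝ) : val eq4 x y t = 1024000000000000000000 * (qf4 x y) := by
  simp only [nd0, nd1, nd3, nd5, nd55, nd58, nd74, nd83, nd184, nd185, nd186, nd187, nd188, nd189, nd190, nd191, nd192, nd193, nd194, nd195, nd196, nd197, nd198, nd199, nd200, nd201, nd202, nd203, nd204, nd205, nd206, nd207, nd208, nd209, nd210, nd211, eq4, val_f, val_h, val_m, val_vx, val_vy]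
  unfold qf4
  push_cast
  ring

/-- real function of eS4 -/
noncomputable def f_eS4 (x y t : ℝ) : ℝ := f_eS3 x y t + qf4 x y * Zg 8 4 (f_eP x y t) (f_eM x y t)

theorem v_eS4 (x y t : ℝ) : val eS4 x y t = 53760000000000000000000000000 * (f_eS4 x y t) := by
  simp only [nd3, nd5, nd14, nd15, nd16, nd183, nd213, eS4, v_eW4, v_eS3, v_eq4, val_f, val_h, val_m]
  unfold f_eS4
  push_cast
  ring

theorem v_eq5 (x y t : ℝ) : val eq5 x y t = 2048000000000000000000 * (qf5 x y) := by
  simp only [nd0, nd1, nd3, nd5, nd55, nd58, nd74, nd83, nd216, nd217, nd218, nd219, nd220, nd221, nd222, nd223, nd224, nd225, nd226, nd227, nd228, nd229, nd230, nd231, nd232, nd233, nd234, nd235, nd236, nd237, nd238, nd239, nd240, nd241, nd242, nd243, eq5, val_f, val_h, val_m, val_vx, val_vy]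
  unfold qf5
  push_cast
  ring

/-- real function of eS5 -/
noncomputable def f_eS5 (x y t : ℝ) : ℝ := f_eS4 x y t + qf5 x y * Zg 8 5 (f_eP x y t) (f_eM x y t)

theorem v_eS5 (x y t : ℝ) : val eS5 x y t = 6720000000000000000000000000000 * (f_eS5 x y t) := by
  simp only [nd3, nd5, nd14, nd15, nd16, nd215, nd245, eS5, v_eW5, v_eS4, v_eq5, val_f, val_h, val_m]
  unfold f_eS5
  push_cast
  ring

theorem v_eq6 (x y t : ℝ) : val eq6 x y t = 4096000000000000000000 * (qf6 x y) := by
  simp only [nd0, nd1, nd3, nd5, nd55, nd58, nd74, nd83, nd248, nd249, nd250, nd251, nd252, nd253, nd254, nd255, nd256, nd257, nd258, nd259, nd260, nd261, nd262, nd263, nd264, nd265, nd266, nd267, nd268, nd269, nd270, nd271, nd272, nd273, nd274, nd275, eq6, val_f, val_h, val_m, val_vx, val_vy]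
  unfold qf6
  push_cast
  ring

/-- real function of eS6 -/
noncomputable def f_eS6 (x y t : ℝ) : ℝ := f_eS5 x y t + qf6 x y * Zg 8 6 (f_eP x y t) (f_eM x y t)

theorem v_eS6 (x y t : ℝ) : val eS6 x y t = 1848000000000000000000000000000000 * (f_eS6 x y t) := by
  simp only [nd3, nd5, nd14, nd15, nd16, nd247, nd277, eS6, v_eW6, v_eS5, v_eq6, val_f, val_h, val_m]
  unfold f_eS6
  push_cast
  ring

theorem v_eq7 (x y t : ℝ) : val eq7 x y t = 4096000000000000000000 * (qf7 x y) := by
  simp only [nd0, nd1, nd3, nd5, nd55, nd58, nd74, nd83, nd280, nd281, nd282, nd283, nd284, nd285, nd286, nd287, nd288, nd289, nd290, nd291, nd292, nd293, nd294, nd295, nd296, nd297, nd298, nd299, nd300, nd301, nd302, nd303, nd304, nd305, nd306, nd307, eq7, val_f, val_h, val_m, val_vx, val_vy]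
  unfold qf7
  push_cast
  ring

/-- real function of eS7 -/
noncomputable def f_eS7 (x y t : ℝ) : ℝ := f_eS6 x y t + qf7 x y * Zg 8 7 (f_eP x y t) (f_eM x y t)

theorem v_eS7 (x y t : ℝ) : val eS7 x y t = 92400000000000000000000000000000000 * (f_eS7 x y t) := by
  simp only [nd3, nd5, nd14, nd15, nd16, nd279, nd309, eS7, v_eW7, v_eS6, v_eq7, val_f, val_h, val_m]
  unfold f_eS7
  push_cast
  ring

theorem v_eq8 (x y t : ℝ) : val eq8 x y t = (20000000000000000 / 9) * (qf8 x y) := by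
  simp only [nd0, nd1, nd3, nd5, nd55, nd58, nd74, nd83, nd312, nd313, nd314, nd315, nd316, nd317, nd318, nd319, nd320, nd321, nd322, nd323, nd324, nd325, nd326, nd327, eq8, val_f, val_h, val_m, val_vx, val_vy]
  unfold qf8
  push_cast
  ring

/-- real function of eS8 -/
noncomputable def f_eS8 (x y t : ℝ) : ℝ := f_eS7 x y t + qf8 x y * Zg 8 8 (f_eP x y t) (f_eM x y t)

theorem v_eS8 (x y t : ℝ) : val eS8 x y t = 1201200000000000000000000000000000000 * (f_eS8 x y t) := by
  simp only [nd3, nd5, nd14, nd15, nd16, nd311, nd329, eS8, v_eW8, v_eS7, v_eq8, val_f, val_h, val_m]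
  unfold f_eS8
  push_cast
  ring

theorem v_eq9 (x y t : ℝ) : val eq9 x y t = 819200000000000000000 * (qf9 x y) := by
  simp only [nd0, nd1, nd3, nd5, nd55, nd58, nd74, nd83, nd332, nd333, nd334, nd335, nd336, nd337, nd338, nd339, nd340, nd341, nd342, nd343, nd344, nd345, nd346, nd347, nd348, nd349, nd350, nd351, nd352, nd353, nd354, nd355, nd356, nd357, nd358, nd359, eq9, val_f, val_h, val_m, val_vx, val_vy]
  unfold qf9
  push_cast
  ring

/-- real function of eS9 -/
noncomputable def f_eS9 (x y t : ℝ) : ℝ := f_eS8 x y t + qf9 x y * Zg 8 9 (f_eP x y t) (f_eM x y t)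

theorem v_eS9 (x y t : ℝ) : val eS9 x y t = 210210000000000000000000000000000000000 * (f_eS9 x y t) := by
  simp only [nd3, nd5, nd14, nd15, nd16, nd331, nd361, eS9, v_eW9, v_eS8, v_eq9, val_f, val_h, val_m]
  unfold f_eS9
  push_cast
  ring

theorem v_eq10 (x y t : ℝ) : val eq10 x y t = 1024000000000000000000 * (qf10 x y) := by
  simp only [nd0, nd1, nd3, nd5, nd55, nd58, nd74, nd83, nd364, nd365, nd366, nd367, nd368, nd369, nd370, nd371, nd372, nd373, nd374, nd375, nd376, nd377, nd378, nd379, nd380, nd381, nd382, nd383, nd384, nd385, nd386, nd387, nd388, nd389, nd390, nd391, eq10, val_f, val_h, val_m, val_vx, val_vy]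
  unfold qf10
  push_cast
  ring

/-- real function of eS10 -/
noncomputable def f_eS10 (x y t : ℝ) : ℝ := f_eS9 x y t + qf10 x y * Zg 8 10 (f_eP x y t) (f_eM x y t)

theorem v_eS10 (x y t : ℝ) : val eS10 x y t = 131381250000000000000000000000000000000000 * (f_eS10 x y t) := by
  simp only [nd3, nd5, nd14, nd15, nd16, nd363, nd393, eS10, v_eW10, v_eS9, v_eq10, val_f, val_h, val_m]
  unfold f_eS10
  push_cast
  ring

theorem v_eq11 (x y t : ℝ) : val eq11 x y t = 1024000000000000000000 * (qf11 x y) := by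
  simp only [nd0, nd1, nd3, nd5, nd55, nd58, nd74, nd83, nd396, nd397, nd398, nd399, nd400, nd401, nd402, nd403, nd404, nd405, nd406, nd407, nd408, nd409, nd410, nd411, nd412, nd413, nd414, nd415, nd416, nd417, nd418, nd419, nd420, nd421, nd422, nd423, eq11, val_f, val_h, val_m, val_vx, val_vy]
  unfold qf11
  push_cast
  ring

/-- real function of eS11 -/
noncomputable def f_eS11 (x y t : ℝ) : ℝ := f_eS10 x y t + qf11 x y * Zg 8 11 (f_eP x y t) (f_eM x y t)

theorem v_eS11 (x y t : ℝ) : val eS11 x y t = 6569062500000000000000000000000000000000000 * (f_eS11 x y t) := by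
  simp only [nd3, nd5, nd14, nd15, nd16, nd395, nd425, eS11, v_eW11, v_eS10, v_eq11, val_f, val_h, val_m]
  unfold f_eS11
  push_cast
  ring

theorem v_eB (x y t : ℝ) : val eB x y t = 312500000 * (base (f_eT x y t)) := by
  simp only [nd3, nd5, nd14, nd15, nd16, nd427, nd428, nd429, nd430, nd431, eB, v_eT, val_f, val_h, val_m]
  unfold base
  push_cast
  ring

/-- real function of eD2 -/
noncomputable def f_eD2 (x y t : ℝ) : ℝ := ((1 - ((2 / 5) * x)) + (1 - ((2 / 5) * y))) - (2 * f_eP x y t)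

theorem v_eD2 (x y t : ℝ) : val eD2 x y t = 25 * (f_eD2 x y t) := by
  simp only [nd0, nd1, nd3, nd5, nd14, nd20, nd21, nd433, nd434, nd435, nd436, eD2, v_eP, val_f, val_h, val_m, val_vx, val_vy]
  unfold f_eD2
  push_cast
  ring

/-- real function of eDd -/
noncomputable def f_eDd (x y t : ℝ) : ℝ := ((1 - ((2 / 5) * x)) * (1 - ((2 / 5) * y))) - (f_eP x y t * f_eP x y t)

theorem v_eDd (x y t : ℝ) : val eDd x y t = 2500 * (f_eDd x y t) := by
  simp only [nd25, eDd, v_eP, v_eM, val_f, val_m]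
  unfold f_eDd f_eM f_eP
  push_cast
  ring

/-- real function of eR1 -/
noncomputable def f_eR1 (x y t : ℝ) : ℝ := (1 - x) * (1 - y)

theorem v_eR1 (x y t : ℝ) : val eR1 x y t = 1 * (f_eR1 x y t) := by
  simp only [nd0, nd1, nd3, nd5, nd439, nd440, eR1, val_f, val_h, val_m, val_vx, val_vy]
  unfold f_eR1
  push_cast
  ring

/-- real function of eR3 -/
noncomputable def f_eR3 (x y t : ℝ) : ℝ := f_eR1 x y t ^ 3

theorem v_eR3 (x y t : ℝ) : val eR3 x y t = 1 * (f_eR3 x y t) := by
  simp only [nd442, eR3, v_eR1, val_m]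
  unfold f_eR3
  push_cast
  ring

/-- real function of eK3 -/
noncomputable def f_eK3 (x y t : ℝ) : ℝ := f_eR3 x y t * f_eS11 x y t

theorem v_eK3 (x y t : ℝ) : val eK3 x y t = 6569062500000000000000000000000000000000000 * (f_eK3 x y t) := by
  simp only [eK3, v_eS11, v_eR3, val_m]
  unfold f_eK3
  push_cast
  ring


theorem KT_eq (x y t : ℝ) : f_eS11 x y t = Kt 11 4 cA x y (f_eP x y t) (f_eM x y t) := by
  rw [Kt_eq]
  simp only [f_eS11, f_eS10, f_eS9, f_eS8, f_eS7, f_eS6, f_eS5, f_eS4, f_eS3, f_eS2, f_eS1]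

/-- `T` in the lower chart. -/
noncomputable def TL (x y v : ℝ) : ℝ := -1 / 2 - v * (1 / 2 - 1 / 5 * (x + y) - 2 / 25 * (x * y))

theorem TLx (x y t : ℝ) : f_eT x y t = TL x y t := by
  unfold f_eT TL
  ring

lemma TL_symm (x y v : ℝ) : TL x y v = TL y x v := by unfold TL; ring

theorem KTx (x y t : ℝ) : f_eS11 x y t = Ktx x y (TL x y t) := by
  rw [KT_eq]
  unfold Ktx f_eP f_eM
  rw [TLx]

theorem K3x (x y t : ℝ) : f_eK3 x y t = K3 x y (TL x y t) := by
  unfold f_eK3 K3 f_eR3 f_eR1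
  rw [KTx]
  ring

theorem D2x (x y t : ℝ) : f_eD2 x y t = PG.dd x y (TL x y t) := by
  unfold f_eD2 PG.dd f_eP
  rw [TLx] <;> ring

theorem DDx (x y t : ℝ) : f_eDd x y t = PG.DD x y (TL x y t) := by
  unfold f_eDd PG.DD f_eP
  rw [TLx] <;> ring

end Pool.Agent.Lib.MP_f1379f_gt.FV.CK2.L
end
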