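import Pool.Agent.Lib.MP_f1379f_gt.FV.BCM
import Pool.Agent.Lib.MP_f1379f_gt.FV.CEX
import Pool.Agent.Lib.MP_f1379f_gt.FV.CV0
import Pool.Agent.Lib.MP_f1379f_gt.FV.CK20

section
/-!
# programs, chart U
-/
set_option autoImplicit false
set_option linter.unusedVariables false
set_option linter.unusedSimpArgs false
set_option linter.unusedTactic false
set_option linter.style.longLine false
set_option maxRecDepth 100000

namespace Pool.Agent.Lib.MP_f1379f_gt.FV.CV.U

open Finset Pool.Agent.Lib.MP_f1379f_gt.FV Pool.Agent.Lib.MP_f1379f_gt.FV.BCH Pool.Agent.Lib.MP_f1379f_gt.FV.CV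

/-- node -/
def nd0 : Ex := .v .x
/-- node -/
def nd1 : Ex := .v .y
/-- node -/
def nd2 : Ex := .v .t
/-- node -/
def nd4 : Ex := .m nd0 nd1
/-- node -/
def nd5 : Ex := .h .x
/-- node -/
def nd6 : Ex := .h .y
/-- node -/
def nd7 : Ex := .m nd5 nd6
/-- node -/
def nd8 : Ex := .m nd2 nd7
/-- node -/
def nd9 : Ex := .h .t
/-- node -/
def nd10 : Ex := .m nd4 nd9
/-- node -/
def eP : Ex := .f 25 nd8 (-2) nd10
/-- node -/
def nd12 : Ex := .f 5 nd5 (-2) nd0
/-- node -/
def nd13 : Ex := .f 5 nd6 (-2) nd1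
/-- node -/
def nd14 : Ex := .m nd12 nd13
/-- node -/
def nd15 : Ex := .m nd6 nd9
/-- node -/
def nd16 : Ex := .m nd5 nd15
/-- node -/
def nd17 : Ex := .m nd9 nd16
/-- node -/
def eM : Ex := .m nd14 nd17
/-- node -/
def nd19 : Ex := .m eP eP
/-- node -/
def eW2 : Ex := .f 8 nd19 (-25) eM
/-- node -/
def nd21 : Ex := .m eP eW2
/-- node -/
def nd22 : Ex := .m eM eP
/-- node -/
def eW3 : Ex := .f 1 nd21 (-35) nd22
/-- node -/
def nd24 : Ex := .m eP eW3
/-- node -/
def nd25 : Ex := .m eM eW2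
/-- node -/
def eW4 : Ex := .f 1 nd24 (-5) nd25
/-- node -/
def nd27 : Ex := .m eP eW4
/-- node -/
def nd28 : Ex := .m eM eW3
/-- node -/
def eW5 : Ex := .f 14 nd27 (-75) nd28
/-- node -/
def nd30 : Ex := .m eP eW5
/-- node -/
def nd31 : Ex := .m eM eW4
/-- node -/
def eW6 : Ex := .f 8 nd30 (-625) nd31
/-- node -/
def nd33 : Ex := .m eP eW6
/-- node -/
def nd34 : Ex := .m eM eW5
/-- node -/
def eW7 : Ex := .f 6 nd33 (-275) nd34
/-- node -/
def nd36 : Ex := .m eP eW7
/-- node -/
def nd37 : Ex := .m eM eW6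
/-- node -/
def eW8 : Ex := .f 1 nd36 (-35) nd37
/-- node -/
def nd39 : Ex := .m eP eW8
/-- node -/
def nd40 : Ex := .m eM eW7
/-- node -/
def eW9 : Ex := .f 11 nd39 (-65) nd40
/-- node -/
def nd42 : Ex := .m eP eW9
/-- node -/
def nd43 : Ex := .m eM eW8
/-- node -/
def eW10 : Ex := .f 8 nd42 (-525) nd43
/-- node -/
def nd45 : Ex := .m eP eW10
/-- node -/
def nd46 : Ex := .m eM eW9
/-- node -/
def eW11 : Ex := .f 13 nd45 (-625) nd46
/-- node -/
def nd48 : Ex := .f 10000 nd6 13637 nd1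
/-- node -/
def nd49 : Ex := .m nd1 nd1
/-- node -/
def nd50 : Ex := .m nd48 nd6
/-- node -/
def nd51 : Ex := .f 1 nd50 (-3081) nd49
/-- node -/
def nd52 : Ex := .m nd49 nd1
/-- node -/
def nd53 : Ex := .m nd51 nd6
/-- node -/
def nd54 : Ex := .f 1 nd53 (-20536) nd52
/-- node -/
def nd55 : Ex := .f 1155085370000 nd6 1579428319069 nd1
/-- node -/
def nd56 : Ex := .m nd55 nd6
/-- node -/
def nd57 : Ex := .f 1 nd56 (-356506542657) nd49
/-- node -/
def nd58 : Ex := .m nd57 nd6
/-- node -/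
def nd59 : Ex := .f 1 nd58 (-2376234404792) nd52
/-- node -/
def nd60 : Ex := .m nd0 nd59
/-- node -/
def nd61 : Ex := .m nd54 nd5
/-- node -/
def nd62 : Ex := .f 1101130000 nd61 13 nd60
/-- node -/
def nd63 : Ex := .f (-86989270000) nd6 (-118835514219) nd1
/-- node -/
def nd64 : Ex := .m nd63 nd6
/-- node -/
def nd65 : Ex := .f 1625 nd64 44436245686983 nd49
/-- node -/
def nd66 : Ex := .m nd65 nd6
/-- node -/
def nd67 : Ex := .f 1 nd66 290794396688048 nd52
/-- node -/
def nd68 : Ex := .m nd0 nd0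
/-- node -/
def nd69 : Ex := .m nd68 nd67
/-- node -/
def nd70 : Ex := .m nd62 nd5
/-- node -/
def nd71 : Ex := .f 125 nd70 3 nd69
/-- node -/
def nd72 : Ex := .f (-2826600710000) nd6 (-3861380907787) nd1
/-- node -/
def nd73 : Ex := .m nd72 nd6
/-- node -/
def nd74 : Ex := .f 125 nd73 109047898758018 nd49
/-- node -/
def nd75 : Ex := .m nd74 nd6
/-- node -/
def nd76 : Ex := .f 8 nd75 5817292441689887 nd52
/-- node -/
def nd77 : Ex := .m nd68 nd0
/-- node -/
def nd78 : Ex := .m nd77 nd76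
/-- node -/
def nd79 : Ex := .m nd71 nd5
/-- node -/
def eq0 : Ex := .f 1 nd79 1 nd78
/-- node -/
def nd81 : Ex := .m eq0 nd16
/-- node -/
def nd82 : Ex := .f 1000 nd6 1903 nd1
/-- node -/
def nd83 : Ex := .m nd82 nd6
/-- node -/
def nd84 : Ex := .f 5 nd83 4856 nd49
/-- node -/
def nd85 : Ex := .m nd84 nd6
/-- node -/
def nd86 : Ex := .f 2 nd85 (-14251) nd52
/-- node -/
def nd87 : Ex := .f 15525526576351000 nd6 52167267871595953 nd1
/-- node -/
def nd88 : Ex := .m nd87 nd6
/-- node -/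
def nd89 : Ex := .f 5 nd88 (-398067874131466744) nd49
/-- node -/
def nd90 : Ex := .m nd89 nd6
/-- node -/
def nd91 : Ex := .f 2 nd90 887640269237964299 nd52
/-- node -/
def nd92 : Ex := .m nd0 nd91
/-- node -/
def nd93 : Ex := .m nd86 nd5
/-- node -/
def nd94 : Ex := .f 8158448017000 nd93 1 nd92
/-- node -/
def nd95 : Ex := .f 4952177946319000 nd6 (-49758484266433343) nd1
/-- node -/
def nd96 : Ex := .m nd95 nd6
/-- node -/
def nd97 : Ex := .f 25 nd96 8342039791758968488 nd49
/-- node -/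
def nd98 : Ex := .m nd97 nd6
/-- node -/
def nd99 : Ex := .f 2 nd98 (-14091071338931277401) nd52
/-- node -/
def nd100 : Ex := .m nd68 nd99
/-- node -/
def nd101 : Ex := .m nd94 nd5
/-- node -/
def nd102 : Ex := .f 25 nd101 8 nd100
/-- node -/
def nd103 : Ex := .f (-116266042690267000) nd6 887640269237964299 nd1
/-- node -/
def nd104 : Ex := .m nd103 nd6
/-- node -/
def nd105 : Ex := .f 25 nd104 (-112728570711450219208) nd49
/-- node -/
def nd106 : Ex := .m nd105 nd6
/-- node -/
def nd107 : Ex := .f 2 nd106 282605487906649555565 nd52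
/-- node -/
def nd108 : Ex := .m nd77 nd107
/-- node -/
def nd109 : Ex := .m nd102 nd5
/-- node -/
def eq1 : Ex := .f 2 nd109 1 nd108
/-- node -/
def nd111 : Ex := .m eq1 eP
/-- node -/
def eS1 : Ex := .f 12288 nd81 1 nd111
/-- node -/
def nd113 : Ex := .m eS1 nd16
/-- node -/
def nd114 : Ex := .f 10000 nd6 24653 nd1
/-- node -/
def nd115 : Ex := .m nd114 nd6
/-- node -/
def nd116 : Ex := .f 1 nd115 19662 nd49
/-- node -/
def nd117 : Ex := .m nd116 nd6
/-- node -/
def nd118 : Ex := .f 1 nd117 (-566) nd52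
/-- node -/
def nd119 : Ex := .f 232022836388630000 nd6 666272217855641539 nd1
/-- node -/
def nd120 : Ex := .m nd119 nd6
/-- node -/
def nd121 : Ex := .f 5 nd120 720531854732648922 nd49
/-- node -/
def nd122 : Ex := .m nd121 nd6
/-- node -/
def nd123 : Ex := .f 1 nd122 2815257654795318958 nd52
/-- node -/
def nd124 : Ex := .m nd0 nd123
/-- node -/
def nd125 : Ex := .m nd118 nd5
/-- node -/
def nd126 : Ex := .f 47057728550000 nd125 1 nd124
/-- node -/
def nd127 : Ex := .f 1364674127950000 nd6 1062731349163199 nd1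
/-- node -/
def nd128 : Ex := .m nd127 nd6
/-- node -/
def nd129 : Ex := .f 70625 nd128 1311783936286399909434 nd49
/-- node -/
def nd130 : Ex := .m nd129 nd6
/-- node -/
def nd131 : Ex := .f 1 nd130 (-695567700055836399154) nd52
/-- node -/
def nd132 : Ex := .m nd68 nd131
/-- node -/
def nd133 : Ex := .m nd126 nd5
/-- node -/
def nd134 : Ex := .f 625 nd133 6 nd132
/-- node -/
def nd135 : Ex := .f (-13317337179650000) nd6 1407628827397659479 nd1
/-- node -/
def nd136 : Ex := .m nd135 nd6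
/-- node -/
def nd137 : Ex := .f 625 nd136 (-2086703100167509197462) nd49
/-- node -/
def nd138 : Ex := .m nd137 nd6
/-- node -/
def nd139 : Ex := .f 1 nd138 5983292120049922979422 nd52
/-- node -/
def nd140 : Ex := .m nd77 nd139
/-- node -/
def nd141 : Ex := .m nd134 nd5
/-- node -/
def eq2 : Ex := .f 1 nd141 2 nd140
/-- node -/
def nd143 : Ex := .m eq2 eW2
/-- node -/
def eS2 : Ex := .f 4375 nd113 1 nd143
/-- node -/
def nd145 : Ex := .m eS2 nd16
/-- node -/
def nd146 : Ex := .f 500 nd6 1511 nd1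
/-- node -/
def nd147 : Ex := .m nd146 nd6
/-- node -/
def nd148 : Ex := .f 10 nd147 11849 nd49
/-- node -/
def nd149 : Ex := .m nd148 nd6
/-- node -/
def nd150 : Ex := .f 2 nd149 49657 nd52
/-- node -/
def nd151 : Ex := .f 33281206640013500 nd6 115875619768392797 nd1
/-- node -/
def nd152 : Ex := .m nd151 nd6
/-- node -/
def nd153 : Ex := .f 10 nd152 81295867111191731 nd49
/-- node -/
def nd154 : Ex := .m nd153 nd6
/-- node -/
def nd155 : Ex := .f 2 nd154 5540133485309171779 nd52
/-- node -/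
def nd156 : Ex := .m nd0 nd155
/-- node -/
def nd157 : Ex := .m nd150 nd5
/-- node -/
def nd158 : Ex := .f 22025947478500 nd157 1 nd156
/-- node -/
def nd159 : Ex := .f 260985451672746500 nd6 81295867111191731 nd1
/-- node -/
def nd160 : Ex := .m nd159 nd6
/-- node -/
def nd161 : Ex := .f 1250 nd160 5465861812634313945289 nd49
/-- node -/
def nd162 : Ex := .m nd161 nd6
/-- node -/
def nd163 : Ex := .f 2 nd162 (-8505638754848078898055) nd52
/-- node -/
def nd164 : Ex := .m nd68 nd163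
/-- node -/
def nd165 : Ex := .m nd158 nd5
/-- node -/
def nd166 : Ex := .f 1250 nd165 1 nd164
/-- node -/
def nd167 : Ex := .f 1093742473939874500 nd6 5540133485309171779 nd1
/-- node -/
def nd168 : Ex := .m nd167 nd6
/-- node -/
def nd169 : Ex := .f 250 nd168 (-1701127750969615779611) nd49
/-- node -/
def nd170 : Ex := .m nd169 nd6
/-- node -/
def nd171 : Ex := .f 10 nd170 71912438610855863535913 nd52
/-- node -/
def nd172 : Ex := .m nd77 nd171
/-- node -/
def nd173 : Ex := .m nd166 nd5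
/-- node -/
def eq3 : Ex := .f 2 nd173 1 nd172
/-- node -/
def nd175 : Ex := .m eq3 eW3
/-- node -/
def eS3 : Ex := .f 20 nd145 1 nd175
/-- node -/
def nd177 : Ex := .m eS3 nd16
/-- node -/
def nd178 : Ex := .f 10000 nd6 38129 nd1
/-- node -/
def nd179 : Ex := .m nd178 nd6
/-- node -/
def nd180 : Ex := .f 1 nd179 18945 nd49
/-- node -/
def nd181 : Ex := .m nd180 nd6
/-- node -/
def nd182 : Ex := .f 1 nd181 127507 nd52
/-- node -/
def nd183 : Ex := .f 613469944226230000 nd6 2816831598416992367 nd1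
/-- node -/
def nd184 : Ex := .m nd183 nd6
/-- node -/
def nd185 : Ex := .f 1 nd184 (-2386804802621146785) nd49
/-- node -/
def nd186 : Ex := .m nd185 nd6
/-- node -/
def nd187 : Ex := .f 1 nd186 13560019754476604941 nd52
/-- node -/
def nd188 : Ex := .m nd0 nd187
/-- node -/
def nd189 : Ex := .m nd182 nd5
/-- node -/
def nd190 : Ex := .f 16089326870000 nd189 1 nd188
/-- node -/
def nd191 : Ex := .f 6773606612270000 nd6 (-53040106724914373) nd1
/-- node -/
def nd192 : Ex := .m nd191 nd6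
/-- node -/
def nd193 : Ex := .f 625 nd192 374296566595543879099 nd49
/-- node -/
def nd194 : Ex := .m nd193 nd6
/-- node -/
def nd195 : Ex := .f 1 nd194 (-538148290856670621471) nd52
/-- node -/
def nd196 : Ex := .m nd68 nd195
/-- node -/
def nd197 : Ex := .m nd190 nd5
/-- node -/
def nd198 : Ex := .f 125 nd197 9 nd196
/-- node -/
def nd199 : Ex := .f 2051501801213090000 nd6 13560019754476604941 nd1
/-- node -/
def nd200 : Ex := .m nd199 nd6
/-- node -/
def nd201 : Ex := .f 125 nd200 (-4843334617710035593239) nd49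
/-- node -/
def nd202 : Ex := .m nd201 nd6
/-- node -/
def nd203 : Ex := .f 35 nd202 415981304109002131519553 nd52
/-- node -/
def nd204 : Ex := .m nd77 nd203
/-- node -/
def nd205 : Ex := .m nd198 nd5
/-- node -/
def eq4 : Ex := .f 35 nd205 1 nd204
/-- node -/
def nd207 : Ex := .m eq4 eW4
/-- node -/
def eS4 : Ex := .f 75 nd177 4 nd207
/-- node -/
def nd209 : Ex := .m eS4 nd16
/-- node -/
def nd210 : Ex := .f 5000 nd6 24533 nd1
/-- node -/
def nd211 : Ex := .m nd210 nd6
/-- node -/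
def nd212 : Ex := .f 2 nd211 (-21401) nd49
/-- node -/
def nd213 : Ex := .m nd212 nd6
/-- node -/
def nd214 : Ex := .f 1 nd213 321618 nd52
/-- node -/
def nd215 : Ex := .f 47131857998559005000 nd6 342964302013873613933 nd1
/-- node -/
def nd216 : Ex := .m nd215 nd6
/-- node -/
def nd217 : Ex := .f 2 nd216 (-1737863172508493654801) nd49
/-- node -/
def nd218 : Ex := .m nd217 nd6
/-- node -/
def nd219 : Ex := .f 1 nd218 5150886698061659838018 nd52
/-- node -/
def nd220 : Ex := .m nd0 nd219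
/-- node -/
def nd221 : Ex := .m nd214 nd5
/-- node -/
def nd222 : Ex := .f 1921161618985000 nd221 1 nd220
/-- node -/
def nd223 : Ex := .f (-41114779807897985000) nd6 (-1737863172508493654801) nd1
/-- node -/
def nd224 : Ex := .m nd223 nd6
/-- node -/
def nd225 : Ex := .f 50 nd224 532544178871821687833981 nd49
/-- node -/
def nd226 : Ex := .m nd225 nd6
/-- node -/
def nd227 : Ex := .f 1 nd226 (-794687091428982067982490) nd52
/-- node -/
def nd228 : Ex := .m nd68 nd227
/-- node -/
def nd229 : Ex := .m nd222 nd5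
/-- node -/
def nd230 : Ex := .f 50 nd229 1 nd228
/-- node -/
def nd231 : Ex := .f 102980026262452955000 nd6 858481116343609973003 nd1
/-- node -/
def nd232 : Ex := .m nd231 nd6
/-- node -/
def nd233 : Ex := .f 10 nd232 (-26489569714299402266083) nd49
/-- node -/
def nd234 : Ex := .m nd233 nd6
/-- node -/
def nd235 : Ex := .f 5 nd234 333116961057884130484926 nd52
/-- node -/
def nd236 : Ex := .m nd77 nd235
/-- node -/
def nd237 : Ex := .m nd230 nd5
/-- node -/
def eq5 : Ex := .f 1 nd237 6 nd236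
/-- node -/
def nd239 : Ex := .m eq5 eW5
/-- node -/
def eS5 : Ex := .f 375 nd209 4 nd239
/-- node -/
def nd241 : Ex := .m eS5 nd16
/-- node -/
def nd242 : Ex := .f 2500 nd6 16329 nd1
/-- node -/
def nd243 : Ex := .m nd242 nd6
/-- node -/
def nd244 : Ex := .f 1 nd243 (-23382) nd49
/-- node -/
def nd245 : Ex := .m nd244 nd6
/-- node -/
def nd246 : Ex := .f 2 nd245 308261 nd52
/-- node -/
def nd247 : Ex := .f 410987910901907500 nd6 5213302319691699027 nd1
/-- node -/
def nd248 : Ex := .m nd247 nd6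
/-- node -/
def nd249 : Ex := .f 1 nd248 (-21918396648817315026) nd49
/-- node -/
def nd250 : Ex := .m nd249 nd6
/-- node -/
def nd251 : Ex := .f 2 nd250 104273990432837854343 nd52
/-- node -/
def nd252 : Ex := .m nd0 nd251
/-- node -/
def nd253 : Ex := .m nd246 nd5
/-- node -/
def nd254 : Ex := .f 75507608102500 nd253 3 nd252
/-- node -/
def nd255 : Ex := .f (-32694794308382500) nd6 (-1217688702712073057) nd1
/-- node -/
def nd256 : Ex := .m nd255 nd6
/-- node -/
def nd257 : Ex := .f 375 nd256 2806113843160175776234 nd49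
/-- node -/
def nd258 : Ex := .m nd257 nd6
/-- node -/
def nd259 : Ex := .f 2 nd258 (-9492502050776293194555) nd52
/-- node -/
def nd260 : Ex := .m nd68 nd259
/-- node -/
def nd261 : Ex := .m nd254 nd5
/-- node -/
def nd262 : Ex := .f 125 nd261 18 nd260
/-- node -/
def nd263 : Ex := .f 1369179457722632500 nd6 18401292429324327237 nd1
/-- node -/
def nd264 : Ex := .m nd263 nd6
/-- node -/
def nd265 : Ex := .f 425 nd264 (-34173007382794655500398) nd49
/-- node -/
def nd266 : Ex := .m nd265 nd6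
/-- node -/
def nd267 : Ex := .f 2 nd266 156946943328941693664985 nd52
/-- node -/
def nd268 : Ex := .m nd77 nd267
/-- node -/
def nd269 : Ex := .m nd262 nd5
/-- node -/
def eq6 : Ex := .f 2 nd269 5 nd268
/-- node -/
def nd271 : Ex := .m eq6 eW6
/-- node -/
def eS6 : Ex := .f 275 nd241 48 nd271
/-- node -/
def nd273 : Ex := .m eS6 nd16
/-- node -/
def nd274 : Ex := .f 10000 nd6 130807 nd1
/-- node -/
def nd275 : Ex := .m nd274 nd6
/-- node -/
def nd276 : Ex := .f 1 nd275 (-594771) nd49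
/-- node -/
def nd277 : Ex := .m nd276 nd6
/-- node -/
def nd278 : Ex := .f 1 nd277 2031350 nd52
/-- node -/
def nd279 : Ex := .f 34175191364503870000 nd6 810986833368936172309 nd1
/-- node -/
def nd280 : Ex := .m nd279 nd6
/-- node -/
def nd281 : Ex := .f 1 nd280 (-4623138208801417652457) nd49
/-- node -/
def nd282 : Ex := .m nd281 nd6
/-- node -/
def nd283 : Ex := .f 1 nd282 10792237464048283558850 nd52
/-- node -/
def nd284 : Ex := .m nd0 nd283
/-- node -/
def nd285 : Ex := .m nd278 nd5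
/-- node -/
def nd286 : Ex := .f 261264239410000 nd285 1 nd284
/-- node -/
def nd287 : Ex := .f (-51797464312708370000) nd6 (-1541046069600472550819) nd1
/-- node -/
def nd288 : Ex := .m nd287 nd6
/-- node -/
def nd289 : Ex := .f 125 nd288 1153396346617698347135859 nd49
/-- node -/
def nd290 : Ex := .m nd289 nd6
/-- node -/
def nd291 : Ex := .f 1 nd290 (-2456987722147671325404470) nd52
/-- node -/
def nd292 : Ex := .m nd68 nd291
/-- node -/
def nd293 : Ex := .m nd286 nd5
/-- node -/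
def nd294 : Ex := .f 125 nd293 3 nd292
/-- node -/
def nd295 : Ex := .f 10614382254510070000 nd6 215844749280965671177 nd1
/-- node -/
def nd296 : Ex := .m nd295 nd6
/-- node -/
def nd297 : Ex := .f 625 nd296 (-737096316644301397621341) nd49
/-- node -/
def nd298 : Ex := .m nd297 nd6
/-- node -/
def nd299 : Ex := .f 5 nd298 9283659914687781128302354 nd52
/-- node -/
def nd300 : Ex := .m nd77 nd299
/-- node -/
def nd301 : Ex := .m nd294 nd5
/-- node -/
def eq7 : Ex := .f 1 nd301 2 nd300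
/-- node -/
def nd303 : Ex := .m eq7 eW7
/-- node -/
def eS7 : Ex := .f 25 nd273 1 nd303
/-- node -/
def nd305 : Ex := .m eS7 nd16
/-- node -/
def nd306 : Ex := .m nd1 nd6
/-- node -/
def nd307 : Ex := .f 1250 nd306 (-10741) nd49
/-- node -/
def nd308 : Ex := .m nd307 nd6
/-- node -/
def nd309 : Ex := .f 8 nd308 182163 nd52
/-- node -/
def nd310 : Ex := .m nd0 nd309
/-- node -/
def nd311 : Ex := .f (-91394300200788750) nd306 785332944877837571 nd49
/-- node -/
def nd312 : Ex := .m nd311 nd6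
/-- node -/
def nd313 : Ex := .f 8 nd312 (-13318928011887104853) nd52
/-- node -/
def nd314 : Ex := .m nd68 nd313
/-- node -/
def nd315 : Ex := .m nd310 nd5
/-- node -/
def nd316 : Ex := .f 8508919113750 nd315 1 nd314
/-- node -/
def nd317 : Ex := .f 172223359168671250 nd306 (-1479880890209678317) nd49
/-- node -/
def nd318 : Ex := .m nd317 nd6
/-- node -/
def nd319 : Ex := .f 24 nd318 75294538227956481809 nd52
/-- node -/
def nd320 : Ex := .m nd77 nd319
/-- node -/
def nd321 : Ex := .m nd316 nd5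
/-- node -/
def eq8 : Ex := .f 8 nd321 3 nd320
/-- node -/
def nd323 : Ex := .m eq8 eW8
/-- node -/
def eS8 : Ex := .f 65 nd305 442368 nd323
/-- node -/
def nd325 : Ex := .m eS8 nd16
/-- node -/
def nd326 : Ex := .f 10000 nd6 (-1256353) nd1
/-- node -/
def nd327 : Ex := .m nd326 nd6
/-- node -/
def nd328 : Ex := .f 1 nd327 10873798 nd49
/-- node -/
def nd329 : Ex := .m nd328 nd6
/-- node -/
def nd330 : Ex := .f 1 nd329 (-22875219) nd52
/-- node -/
def nd331 : Ex := .f (-16816699501490000) nd6 105389809441311546597 nd1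
/-- node -/
def nd332 : Ex := .m nd331 nd6
/-- node -/
def nd333 : Ex := .f 1 nd332 (-912148906298199255902) nd49
/-- node -/
def nd334 : Ex := .m nd333 nd6
/-- node -/
def nd335 : Ex := .f 1 nd334 1918895571937533540831 nd52
/-- node -/
def nd336 : Ex := .m nd0 nd335
/-- node -/
def nd337 : Ex := .m nd330 nd5
/-- node -/
def nd338 : Ex := .f 13385330000 nd337 1 nd336
/-- node -/
def nd339 : Ex := .f 72774687291670000 nd6 (-456074453149099627951) nd1
/-- node -/
def nd340 : Ex := .m nd339 nd6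
/-- node -/
def nd341 : Ex := .f 1 nd340 3947329837677299440666 nd49
/-- node -/
def nd342 : Ex := .m nd341 nd6
/-- node -/
def nd343 : Ex := .f 1 nd342 (-8304031911916799589021) nd52
/-- node -/
def nd344 : Ex := .m nd68 nd343
/-- node -/
def nd345 : Ex := .m nd338 nd5
/-- node -/
def nd346 : Ex := .f 1 nd345 2 nd344
/-- node -/
def nd347 : Ex := .f (-102064118379090000) nd6 639631857312511180277 nd1
/-- node -/
def nd348 : Ex := .m nd347 nd6
/-- node -/
def nd349 : Ex := .f 1 nd348 (-5536021274611199726014) nd49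
/-- node -/
def nd350 : Ex := .m nd349 nd6
/-- node -/
def nd351 : Ex := .f 25 nd350 291154401868727846991223 nd52
/-- node -/
def nd352 : Ex := .m nd77 nd351
/-- node -/
def nd353 : Ex := .m nd346 nd5
/-- node -/
def eq9 : Ex := .f 25 nd353 3 nd352
/-- node -/
def nd355 : Ex := .m eq9 eW9
/-- node -/
def eS9 : Ex := .f 175 nd325 108 nd355
/-- node -/
def nd357 : Ex := .m eS9 nd16
/-- node -/
def nd358 : Ex := .f 2500 nd6 (-12091) nd1
/-- node -/
def nd359 : Ex := .m nd358 nd6
/-- node -/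
def nd360 : Ex := .f 4 nd359 1095921 nd49
/-- node -/
def nd361 : Ex := .m nd360 nd6
/-- node -/
def nd362 : Ex := .f 1 nd361 (-1888328) nd52
/-- node -/
def nd363 : Ex := .f (-3139627077177500) nd6 62064966917661261 nd1
/-- node -/
def nd364 : Ex := .m nd363 nd6
/-- node -/
def nd365 : Ex := .f 4 nd364 (-2712688105131706791) nd49
/-- node -/
def nd366 : Ex := .m nd365 nd6
/-- node -/
def nd367 : Ex := .f 1 nd366 4349589286290790008 nd52
/-- node -/
def nd368 : Ex := .m nd0 nd367
/-- node -/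
def nd369 : Ex := .m nd362 nd5
/-- node -/
def nd370 : Ex := .f 259666452500 nd369 1 nd368
/-- node -/
def nd371 : Ex := .f 94857972763417500 nd6 (-904229368377235597) nd1
/-- node -/
def nd372 : Ex := .m nd371 nd6
/-- node -/
def nd373 : Ex := .f 180 nd372 2443391287777726909979 nd49
/-- node -/
def nd374 : Ex := .m nd373 nd6
/-- node -/
def nd375 : Ex := .f 5 nd374 (-20357056253213330285944) nd52
/-- node -/
def nd376 : Ex := .m nd68 nd375
/-- node -/
def nd377 : Ex := .m nd370 nd5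
/-- node -/
def nd378 : Ex := .f 300 nd377 1 nd376
/-- node -/
def nd379 : Ex := .f (-61291929114552500) nd6 543698660786348751 nd1
/-- node -/
def nd380 : Ex := .m nd379 nd6
/-- node -/
def nd381 : Ex := .f 300 nd380 (-2544632031651666285743) nd49
/-- node -/
def nd382 : Ex := .m nd381 nd6
/-- node -/
def nd383 : Ex := .f 5 nd382 21281271870799832082328 nd52
/-- node -/
def nd384 : Ex := .m nd77 nd383
/-- node -/
def nd385 : Ex := .m nd378 nd5
/-- node -/
def eq10 : Ex := .f 5 nd385 8 nd384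
/-- node -/
def nd387 : Ex := .m eq10 eW10
/-- node -/
def eS10 : Ex := .f 125 nd357 108 nd387
/-- node -/
def nd389 : Ex := .m eS10 nd16
/-- node -/
def nd390 : Ex := .f 5000 nd6 83199 nd1
/-- node -/
def nd391 : Ex := .m nd390 nd6
/-- node -/
def nd392 : Ex := .f 2 nd391 (-1150775) nd49
/-- node -/
def nd393 : Ex := .m nd392 nd6
/-- node -/
def nd394 : Ex := .f 1 nd393 4253809 nd52
/-- node -/
def nd395 : Ex := .f 23682606581865000 nd6 394530100680917227 nd1
/-- node -/
def nd396 : Ex := .m nd395 nd6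
/-- node -/
def nd397 : Ex := .f 2 nd396 (-5456958452634163075) nd49
/-- node -/
def nd398 : Ex := .m nd397 nd6
/-- node -/
def nd399 : Ex := .f 1 nd398 20171500262424082757 nd52
/-- node -/
def nd400 : Ex := .m nd0 nd399
/-- node -/
def nd401 : Ex := .m nd394 nd5
/-- node -/
def nd402 : Ex := .f 284650135000 nd401 1 nd400
/-- node -/
def nd403 : Ex := .f (-13102730364185000) nd6 (-218278338105366523) nd1
/-- node -/
def nd404 : Ex := .m nd403 nd6
/-- node -/
def nd405 : Ex := .f 250 nd404 377392270857682053191 nd49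
/-- node -/
def nd406 : Ex := .m nd405 nd6
/-- node -/
def nd407 : Ex := .f 1 nd406 (-1395020266838947623137) nd52
/-- node -/
def nd408 : Ex := .m nd68 nd407
/-- node -/
def nd409 : Ex := .m nd402 nd5
/-- node -/
def nd410 : Ex := .f 10 nd409 1 nd408
/-- node -/
def nd411 : Ex := .f 1210847306114215000 nd6 20171500262424082757 nd1
/-- node -/
def nd412 : Ex := .m nd411 nd6
/-- node -/
def nd413 : Ex := .f 10 nd412 (-1395020266838947623137) nd49
/-- node -/
def nd414 : Ex := .m nd413 nd6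
/-- node -/
def nd415 : Ex := .f 25 nd414 128916376407450117879519 nd52
/-- node -/
def nd416 : Ex := .m nd77 nd415
/-- node -/
def nd417 : Ex := .m nd410 nd5
/-- node -/
def eq11 : Ex := .f 25 nd417 1 nd416
/-- node -/
def nd419 : Ex := .m eq11 eW11
/-- node -/
def eS11 : Ex := .f 25 nd389 54 nd419
/-- node -/
def nd421 : Ex := .f 1 nd2 1 nd9
/-- node -/
def nd422 : Ex := .f 2 nd2 1 nd9
/-- node -/
def nd423 : Ex := .m nd422 nd422
/-- node -/
def nd424 : Ex := .m nd421 nd423
/-- node -/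
def nd425 : Ex := .m nd2 nd2
/-- node -/
def eB : Ex := .m nd424 nd425
/-- node -/
def nd427 : Ex := .m nd12 nd6
/-- node -/
def nd428 : Ex := .m nd13 nd5
/-- node -/
def nd429 : Ex := .f 1 nd427 1 nd428
/-- node -/
def nd430 : Ex := .m nd429 nd9
/-- node -/
def eD2 : Ex := .f 5 nd430 (-2) eP
/-- node -/
def eDd : Ex := .f 25 eM (-1) nd19
/-- node -/
def nd433 : Ex := .f 1 nd5 (-1) nd0
/-- node -/
def nd434 : Ex := .f 1 nd6 (-1) nd1
/-- node -/
def eR1 : Ex := .m nd433 nd434
/-- node -/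
def nd436 : Ex := .m eR1 eR1
/-- node -/
def eR3 : Ex := .m nd436 eR1
/-- node -/
def eK3 : Ex := .m eR3 eS11

/-- real function of eP -/
noncomputable def f_eP (x y t : ℝ) : ℝ := t - (((2 / 25) * x) * y)

theorem v_eP (x y t : ℝ) : val eP x y t = 25 * (f_eP x y t) := by
  simp only [nd0, nd1, nd2, nd4, nd5, nd6, nd7, nd8, nd9, nd10, eP, val_f, val_h, val_m, val_vt, val_vx, val_vy]
  unfold f_eP
  push_cast
  ring

/-- real function of eM -/
noncomputable def f_eM (x y t : ℝ) : ℝ := (1 - ((2 / 5) * x)) * (1 - ((2 / 5) * y))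

theorem v_eM (x y t : ℝ) : val eM x y t = 25 * (f_eM x y t) := by
  simp only [nd0, nd1, nd5, nd6, nd9, nd12, nd13, nd14, nd15, nd16, nd17, eM, val_f, val_h, val_m, val_vx, val_vy]
  unfold f_eM
  push_cast
  ring

theorem v_eW2 (x y t : ℝ) : val eW2 x y t = 4375 * (Zg 8 2 (f_eP x y t) (f_eM x y t)) := by
  simp only [nd19, eW2, v_eP, v_eM, val_f, val_m]
  rw [zg_2]
  rw [zg_0, zg_1]
  push_cast
  ring

theorem v_eW3 (x y t : ℝ) : val eW3 x y t = 87500 * (Zg 8 3 (f_eP x y t) (f_eM x y t)) := by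
  simp only [nd21, nd22, eW3, v_eP, v_eM, v_eW2, val_f, val_m]
  rw [zg_3]
  rw [zg_1]
  push_cast
  ring

theorem v_eW4 (x y t : ℝ) : val eW4 x y t = 1640625 * (Zg 8 4 (f_eP x y t) (f_eM x y t)) := by
  simp only [nd24, nd25, eW4, v_eP, v_eM, v_eW2, v_eW3, val_f, val_m]
  rw [zg_4]
  push_cast
  ring

theorem v_eW5 (x y t : ℝ) : val eW5 x y t = 410156250 * (Zg 8 5 (f_eP x y t) (f_eM x y t)) := by
  simp only [nd27, nd28, eW5, v_eP, v_eM, v_eW3, v_eW4, val_f, val_m]
  rw [zg_5]
  push_cast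
  ring

theorem v_eW6 (x y t : ℝ) : val eW6 x y t = 56396484375 * (Zg 8 6 (f_eP x y t) (f_eM x y t)) := by
  simp only [nd30, nd31, eW6, v_eP, v_eM, v_eW4, v_eW5, val_f, val_m]
  rw [zg_6]
  push_cast
  ring

theorem v_eW7 (x y t : ℝ) : val eW7 x y t = 5639648437500 * (Zg 8 7 (f_eP x y t) (f_eM x y t)) := by
  simp only [nd33, nd34, eW7, v_eP, v_eM, v_eW5, v_eW6, val_f, val_m]
  rw [zg_7]
  push_cast
  ring

theorem v_eW8 (x y t : ℝ) : val eW8 x y t = 91644287109375 * (Zg 8 8 (f_eP x y t) (f_eM x y t)) := by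
  simp only [nd36, nd37, eW8, v_eP, v_eM, v_eW6, v_eW7, val_f, val_m]
  rw [zg_8]
  push_cast
  ring

theorem v_eW9 (x y t : ℝ) : val eW9 x y t = 16037750244140625 * (Zg 8 9 (f_eP x y t) (f_eM x y t)) := by
  simp only [nd39, nd40, eW9, v_eP, v_eM, v_eW7, v_eW8, val_f, val_m]
  rw [zg_9]
  push_cast
  ring

theorem v_eW10 (x y t : ℝ) : val eW10 x y t = 2004718780517578125 * (Zg 8 10 (f_eP x y t) (f_eM x y t)) := by
  simp only [nd42, nd43, eW10, v_eP, v_eM, v_eW8, v_eW9, val_f, val_m]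
  rw [zg_10]
  push_cast
  ring

theorem v_eW11 (x y t : ℝ) : val eW11 x y t = 400943756103515625000 * (Zg 8 11 (f_eP x y t) (f_eM x y t)) := by
  simp only [nd45, nd46, eW11, v_eP, v_eM, v_eW9, v_eW10, val_f, val_m]
  rw [zg_11]
  push_cast
  ring

theorem v_eq0 (x y t : ℝ) : val eq0 x y t = 3000000000000000000 * (qf0 x y) := by
  simp only [nd0, nd1, nd5, nd6, nd48, nd49, nd50, nd51, nd52, nd53, nd54, nd55, nd56, nd57, nd58, nd59, nd60, nd61, nd62, nd63, nd64, nd65, nd66, nd67, nd68, nd69, nd70, nd71, nd72, nd73, nd74, nd75, nd76, nd77, nd78, nd79, eq0, val_f, val_h, val_m, val_vx, val_vy]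
  unfold qf0
  push_cast
  ring

theorem v_eq1 (x y t : ℝ) : val eq1 x y t = 1474560000000000000000 * (qf1 x y) := by
  simp only [nd0, nd1, nd5, nd6, nd49, nd52, nd68, nd77, nd82, nd83, nd84, nd85, nd86, nd87, nd88, nd89, nd90, nd91, nd92, nd93, nd94, nd95, nd96, nd97, nd98, nd99, nd100, nd101, nd102, nd103, nd104, nd105, nd106, nd107, nd108, nd109, eq1, val_f, val_h, val_m, val_vx, val_vy]
  unfold qf1
  push_cast
  ring

/-- real function of eS1 -/
noncomputable def f_eS1 (x y t : ℝ) : ℝ := qf0 x y * Zg 8 0 (f_eP x y t) (f_eM x y t) + qf1 x y * Zg 8 1 (f_eP x y t) (f_eM x y t)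

theorem v_eS1 (x y t : ℝ) : val eS1 x y t = 36864000000000000000000 * (f_eS1 x y t) := by
  simp only [nd5, nd6, nd9, nd15, nd16, nd81, nd111, eS1, v_eP, v_eq0, v_eq1, val_f, val_h, val_m]
  unfold f_eS1
  rw [zg_0, zg_1]
  push_cast
  ring

theorem v_eq2 (x y t : ℝ) : val eq2 x y t = 36864000000000000000000 * (qf2 x y) := by
  simp only [nd0, nd1, nd5, nd6, nd49, nd52, nd68, nd77, nd114, nd115, nd116, nd117, nd118, nd119, nd120, nd121, nd122, nd123, nd124, nd125, nd126, nd127, nd128, nd129, nd130, nd131, nd132, nd133, nd134, nd135, nd136, nd137, nd138, nd139, nd140, nd141, eq2, val_f, val_h, val_m, val_vx, val_vy]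
  unfold qf2
  push_cast
  ring

/-- real function of eS2 -/
noncomputable def f_eS2 (x y t : ℝ) : ℝ := f_eS1 x y t + qf2 x y * Zg 8 2 (f_eP x y t) (f_eM x y t)

theorem v_eS2 (x y t : ℝ) : val eS2 x y t = 161280000000000000000000000 * (f_eS2 x y t) := by
  simp only [nd5, nd6, nd9, nd15, nd16, nd113, nd143, eS2, v_eW2, v_eS1, v_eq2, val_f, val_h, val_m]
  unfold f_eS2
  push_cast
  ring

theorem v_eq3 (x y t : ℝ) : val eq3 x y t = 36864000000000000000000 * (qf3 x y) := by
  simp only [nd0, nd1, nd5, nd6, nd49, nd52, nd68, nd77, nd146, nd147, nd148, nd149, nd150, nd151, nd152, nd153, nd154, nd155, nd156, nd157, nd158, nd159, nd160, nd161, nd162, nd163, nd164, nd165, nd166, nd167, nd168, nd169, nd170, nd171, nd172, nd173, eq3, val_f, val_h, val_m, val_vx, val_vy]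
  unfold qf3
  push_cast
  ring

/-- real function of eS3 -/
noncomputable def f_eS3 (x y t : ℝ) : ℝ := f_eS2 x y t + qf3 x y * Zg 8 3 (f_eP x y t) (f_eM x y t)

theorem v_eS3 (x y t : ℝ) : val eS3 x y t = 3225600000000000000000000000 * (f_eS3 x y t) := by
  simp only [nd5, nd6, nd9, nd15, nd16, nd145, nd175, eS3, v_eW3, v_eS2, v_eq3, val_f, val_h, val_m]
  unfold f_eS3
  push_cast
  ring

theorem v_eq4 (x y t : ℝ) : val eq4 x y t = 36864000000000000000000 * (qf4 x y) := by
  simp only [nd0, nd1, nd5, nd6, nd49, nd52, nd68, nd77, nd178, nd179, nd180, nd181, nd182, nd183, nd184, nd185, nd186, nd187, nd188, nd189, nd190, nd191, nd192, nd193, nd194, nd195, nd196, nd197, nd198, nd199, nd200, nd201, nd202, nd203, nd204, nd205, eq4, val_f, val_h, val_m, val_vx, val_vy]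
  unfold qf4
  push_cast
  ring

/-- real function of eS4 -/
noncomputable def f_eS4 (x y t : ℝ) : ℝ := f_eS3 x y t + qf4 x y * Zg 8 4 (f_eP x y t) (f_eM x y t)

theorem v_eS4 (x y t : ℝ) : val eS4 x y t = 241920000000000000000000000000 * (f_eS4 x y t) := by
  simp only [nd5, nd6, nd9, nd15, nd16, nd177, nd207, eS4, v_eW4, v_eS3, v_eq4, val_f, val_h, val_m]
  unfold f_eS4
  push_cast
  ring

theorem v_eq5 (x y t : ℝ) : val eq5 x y t = 55296000000000000000000 * (qf5 x y) := by
  simp only [nd0, nd1, nd5, nd6, nd49, nd52, nd68, nd77, nd210, nd211, nd212, nd213, nd214, nd215, nd216, nd217, nd218, nd219, nd220, nd221, nd222, nd223, nd224, nd225, nd226, nd227, nd228, nd229, nd230, nd231, nd232, nd233, nd234, nd235, nd236, nd237, eq5, val_f, val_h, val_m, val_vx, val_vy]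
  unfold qf5
  push_cast
  ring

/-- real function of eS5 -/
noncomputable def f_eS5 (x y t : ℝ) : ℝ := f_eS4 x y t + qf5 x y * Zg 8 5 (f_eP x y t) (f_eM x y t)

theorem v_eS5 (x y t : ℝ) : val eS5 x y t = 90720000000000000000000000000000 * (f_eS5 x y t) := by
  simp only [nd5, nd6, nd9, nd15, nd16, nd209, nd239, eS5, v_eW5, v_eS4, v_eq5, val_f, val_h, val_m]
  unfold f_eS5
  push_cast
  ring

theorem v_eq6 (x y t : ℝ) : val eq6 x y t = 9216000000000000000000 * (qf6 x y) := by
  simp only [nd0, nd1, nd5, nd6, nd49, nd52, nd68, nd77, nd242, nd243, nd244, nd245, nd246, nd247, nd248, nd249, nd250, nd251, nd252, nd253, nd254, nd255, nd256, nd257, nd258, nd259, nd260, nd261, nd262, nd263, nd264, nd265, nd266, nd267, nd268, nd269, eq6, val_f, val_h, val_m, val_vx, val_vy]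
  unfold qf6
  push_cast
  ring

/-- real function of eS6 -/
noncomputable def f_eS6 (x y t : ℝ) : ℝ := f_eS5 x y t + qf6 x y * Zg 8 6 (f_eP x y t) (f_eM x y t)

theorem v_eS6 (x y t : ℝ) : val eS6 x y t = 24948000000000000000000000000000000 * (f_eS6 x y t) := by
  simp only [nd5, nd6, nd9, nd15, nd16, nd241, nd271, eS6, v_eW6, v_eS5, v_eq6, val_f, val_h, val_m]
  unfold f_eS6
  push_cast
  ring

theorem v_eq7 (x y t : ℝ) : val eq7 x y t = 110592000000000000000000 * (qf7 x y) := by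
  simp only [nd0, nd1, nd5, nd6, nd49, nd52, nd68, nd77, nd274, nd275, nd276, nd277, nd278, nd279, nd280, nd281, nd282, nd283, nd284, nd285, nd286, nd287, nd288, nd289, nd290, nd291, nd292, nd293, nd294, nd295, nd296, nd297, nd298, nd299, nd300, nd301, eq7, val_f, val_h, val_m, val_vx, val_vy]
  unfold qf7
  push_cast
  ring

/-- real function of eS7 -/
noncomputable def f_eS7 (x y t : ℝ) : ℝ := f_eS6 x y t + qf7 x y * Zg 8 7 (f_eP x y t) (f_eM x y t)

theorem v_eS7 (x y t : ℝ) : val eS7 x y t = 623700000000000000000000000000000000 * (f_eS7 x y t) := by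
  simp only [nd5, nd6, nd9, nd15, nd16, nd273, nd303, eS7, v_eW7, v_eS6, v_eq7, val_f, val_h, val_m]
  unfold f_eS7
  push_cast
  ring

theorem v_eq8 (x y t : ℝ) : val eq8 x y t = 1000000000000000000 * (qf8 x y) := by
  simp only [nd0, nd1, nd5, nd6, nd49, nd52, nd68, nd77, nd306, nd307, nd308, nd309, nd310, nd311, nd312, nd313, nd314, nd315, nd316, nd317, nd318, nd319, nd320, nd321, eq8, val_f, val_h, val_m, val_vx, val_vy]
  unfold qf8
  push_cast
  ring

/-- real function of eS8 -/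
noncomputable def f_eS8 (x y t : ℝ) : ℝ := f_eS7 x y t + qf8 x y * Zg 8 8 (f_eP x y t) (f_eM x y t)

theorem v_eS8 (x y t : ℝ) : val eS8 x y t = 40540500000000000000000000000000000000 * (f_eS8 x y t) := by
  simp only [nd5, nd6, nd9, nd15, nd16, nd305, nd323, eS8, v_eW8, v_eS7, v_eq8, val_f, val_h, val_m]
  unfold f_eS8
  push_cast
  ring

theorem v_eq9 (x y t : ℝ) : val eq9 x y t = 4096000000000000000000 * (qf9 x y) := by
  simp only [nd0, nd1, nd5, nd6, nd49, nd52, nd68, nd77, nd326, nd327, nd328, nd329, nd330, nd331, nd332, nd333, nd334, nd335, nd336, nd337, nd338, nd339, nd340, nd341, nd342, nd343, nd344, nd345, nd346, nd347, nd348, nd349, nd350, nd351, nd352, nd353, eq9, val_f, val_h, val_m, val_vx, val_vy]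
  unfold qf9
  push_cast
  ring

/-- real function of eS9 -/
noncomputable def f_eS9 (x y t : ℝ) : ℝ := f_eS8 x y t + qf9 x y * Zg 8 9 (f_eP x y t) (f_eM x y t)

theorem v_eS9 (x y t : ℝ) : val eS9 x y t = 7094587500000000000000000000000000000000 * (f_eS9 x y t) := by
  simp only [nd5, nd6, nd9, nd15, nd16, nd325, nd355, eS9, v_eW9, v_eS8, v_eq9, val_f, val_h, val_m]
  unfold f_eS9
  push_cast
  ring

theorem v_eq10 (x y t : ℝ) : val eq10 x y t = 4096000000000000000000 * (qf10 x y) := by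
  simp only [nd0, nd1, nd5, nd6, nd49, nd52, nd68, nd77, nd358, nd359, nd360, nd361, nd362, nd363, nd364, nd365, nd366, nd367, nd368, nd369, nd370, nd371, nd372, nd373, nd374, nd375, nd376, nd377, nd378, nd379, nd380, nd381, nd382, nd383, nd384, nd385, eq10, val_f, val_h, val_m, val_vx, val_vy]
  unfold qf10
  push_cast
  ring

/-- real function of eS10 -/
noncomputable def f_eS10 (x y t : ℝ) : ℝ := f_eS9 x y t + qf10 x y * Zg 8 10 (f_eP x y t) (f_eM x y t)

theorem v_eS10 (x y t : ℝ) : val eS10 x y t = 886823437500000000000000000000000000000000 * (f_eS10 x y t) := by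
  simp only [nd5, nd6, nd9, nd15, nd16, nd357, nd387, eS10, v_eW10, v_eS9, v_eq10, val_f, val_h, val_m]
  unfold f_eS10
  push_cast
  ring

theorem v_eq11 (x y t : ℝ) : val eq11 x y t = 1024000000000000000000 * (qf11 x y) := by
  simp only [nd0, nd1, nd5, nd6, nd49, nd52, nd68, nd77, nd390, nd391, nd392, nd393, nd394, nd395, nd396, nd397, nd398, nd399, nd400, nd401, nd402, nd403, nd404, nd405, nd406, nd407, nd408, nd409, nd410, nd411, nd412, nd413, nd414, nd415, nd416, nd417, eq11, val_f, val_h, val_m, val_vx, val_vy]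
  unfold qf11
  push_cast
  ring

/-- real function of eS11 -/
noncomputable def f_eS11 (x y t : ℝ) : ℝ := f_eS10 x y t + qf11 x y * Zg 8 11 (f_eP x y t) (f_eM x y t)

theorem v_eS11 (x y t : ℝ) : val eS11 x y t = 22170585937500000000000000000000000000000000 * (f_eS11 x y t) := by
  simp only [nd5, nd6, nd9, nd15, nd16, nd389, nd419, eS11, v_eW11, v_eS10, v_eq11, val_f, val_h, val_m]
  unfold f_eS11
  push_cast
  ring

theorem v_eB (x y t : ℝ) : val eB x y t = 4 * (base (t)) := by
  simp only [nd2, nd9, nd421, nd422, nd423, nd424, nd425, eB, val_f, val_h, val_m, val_vt]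
  unfold base
  push_cast
  ring

/-- real function of eD2 -/
noncomputable def f_eD2 (x y t : ℝ) : ℝ := ((1 - ((2 / 5) * x)) + (1 - ((2 / 5) * y))) - (2 * f_eP x y t)

theorem v_eD2 (x y t : ℝ) : val eD2 x y t = 25 * (f_eD2 x y t) := by
  simp only [nd0, nd1, nd5, nd6, nd9, nd12, nd13, nd427, nd428, nd429, nd430, eD2, v_eP, val_f, val_h, val_m, val_vx, val_vy]
  unfold f_eD2
  push_cast
  ring

/-- real function of eDd -/
noncomputable def f_eDd (x y t : ℝ) : ℝ := ((1 - ((2 / 5) * x)) * (1 - ((2 / 5) * y))) - (f_eP x y t * f_eP x y t)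

theorem v_eDd (x y t : ℝ) : val eDd x y t = 625 * (f_eDd x y t) := by
  simp only [nd19, eDd, v_eP, v_eM, val_f, val_m]
  unfold f_eDd f_eM f_eP
  push_cast
  ring

/-- real function of eR1 -/
noncomputable def f_eR1 (x y t : ℝ) : ℝ := (1 - x) * (1 - y)

theorem v_eR1 (x y t : ℝ) : val eR1 x y t = 1 * (f_eR1 x y t) := by
  simp only [nd0, nd1, nd5, nd6, nd433, nd434, eR1, val_f, val_h, val_m, val_vx, val_vy]
  unfold f_eR1
  push_cast
  ring

/-- real function of eR3 -/
noncomputable def f_eR3 (x y t : ℝ) : ℝ := f_eR1 x y t ^ 3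

theorem v_eR3 (x y t : ℝ) : val eR3 x y t = 1 * (f_eR3 x y t) := by
  simp only [nd436, eR3, v_eR1, val_m]
  unfold f_eR3
  push_cast
  ring

/-- real function of eK3 -/
noncomputable def f_eK3 (x y t : ℝ) : ℝ := f_eR3 x y t * f_eS11 x y t

theorem v_eK3 (x y t : ℝ) : val eK3 x y t = 22170585937500000000000000000000000000000000 * (f_eK3 x y t) := by
  simp only [eK3, v_eS11, v_eR3, val_m]
  unfold f_eK3
  push_cast
  ring


theorem KT_eq (x y t : ℝ) : f_eS11 x y t = Kt 11 4 cA x y (f_eP x y t) (f_eM x y t) := by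
  rw [Kt_eq]
  simp only [f_eS11, f_eS10, f_eS9, f_eS8, f_eS7, f_eS6, f_eS5, f_eS4, f_eS3, f_eS2, f_eS1]

theorem KTx (x y t : ℝ) : f_eS11 x y t = Ktx x y t := by
  rw [KT_eq]
  unfold Ktx f_eP f_eM
  rfl

theorem K3x (x y t : ℝ) : f_eK3 x y t = K3 x y t := by
  unfold f_eK3 K3 f_eR3 f_eR1
  rw [KTx]
  ring

theorem D2x (x y t : ℝ) : f_eD2 x y t = PG.dd x y t := by
  unfold f_eD2 PG.dd f_eP
  ring

theorem DDx (x y t : ℝ) : f_eDd x y t = PG.DD x y t := by
  unfold f_eDd PG.DD f_eP
  ring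

end Pool.Agent.Lib.MP_f1379f_gt.FV.CV.U
end

section
/-!
# programs, chart L
-/
set_option autoImplicit false
set_option linter.unusedVariables false
set_option linter.unusedSimpArgs false
set_option linter.unusedTactic false
set_option linter.style.longLine false
set_option maxRecDepth 100000

namespace Pool.Agent.Lib.MP_f1379f_gt.FV.CV.L

open Finset Pool.Agent.Lib.MP_f1379f_gt.FV Pool.Agent.Lib.MP_f1379f_gt.FV.BCH Pool.Agent.Lib.MP_f1379f_gt.FV.CV

/-- node -/
def nd0 : Ex := .v .x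
/-- node -/
def nd1 : Ex := .v .y
/-- node -/
def nd2 : Ex := .v .t
/-- node -/
def nd3 : Ex := .h .y
/-- node -/
def nd4 : Ex := .m nd0 nd3
/-- node -/
def nd5 : Ex := .h .x
/-- node -/
def nd6 : Ex := .m nd1 nd5
/-- node -/
def nd7 : Ex := .f 1 nd4 1 nd6
/-- node -/
def nd9 : Ex := .m nd5 nd3
/-- node -/
def nd10 : Ex := .f 5 nd9 (-2) nd7
/-- node -/
def nd11 : Ex := .m nd0 nd1
/-- node -/
def nd12 : Ex := .f 5 nd10 (-4) nd11
/-- node -/
def nd13 : Ex := .m nd2 nd12
/-- node -/
def nd14 : Ex := .h .t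
/-- node -/
def nd15 : Ex := .m nd3 nd14
/-- node -/
def nd16 : Ex := .m nd5 nd15
/-- node -/
def eT : Ex := .f (-25) nd16 (-1) nd13
/-- node -/
def nd18 : Ex := .m nd11 nd14
/-- node -/
def eP : Ex := .f 1 eT (-4) nd18
/-- node -/
def nd20 : Ex := .f 5 nd5 (-2) nd0
/-- node -/
def nd21 : Ex := .f 5 nd3 (-2) nd1
/-- node -/
def nd22 : Ex := .m nd20 nd21
/-- node -/
def nd23 : Ex := .m nd14 nd16
/-- node -/
def eM : Ex := .m nd22 nd23
/-- node -/
def nd25 : Ex := .m eP eP
/-- node -/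
def eW2 : Ex := .f 2 nd25 (-25) eM
/-- node -/
def nd27 : Ex := .m eP eW2
/-- node -/
def nd28 : Ex := .m eM eP
/-- node -/
def eW3 : Ex := .f 1 nd27 (-35) nd28
/-- node -/
def nd30 : Ex := .m eP eW3
/-- node -/
def nd31 : Ex := .m eM eW2
/-- node -/
def eW4 : Ex := .f 1 nd30 (-20) nd31
/-- node -/
def nd33 : Ex := .m eP eW4
/-- node -/
def nd34 : Ex := .m eM eW3
/-- node -/
def eW5 : Ex := .f 7 nd33 (-150) nd34
/-- node -/
def nd36 : Ex := .m eP eW5
/-- node -/
def nd37 : Ex := .m eM eW4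
/-- node -/
def eW6 : Ex := .f 4 nd36 (-625) nd37
/-- node -/
def nd39 : Ex := .m eP eW6
/-- node -/
def nd40 : Ex := .m eM eW5
/-- node -/
def eW7 : Ex := .f 3 nd39 (-275) nd40
/-- node -/
def nd42 : Ex := .m eP eW7
/-- node -/
def nd43 : Ex := .m eM eW6
/-- node -/
def eW8 : Ex := .f 1 nd42 (-70) nd43
/-- node -/
def nd45 : Ex := .m eP eW8
/-- node -/
def nd46 : Ex := .m eM eW7
/-- node -/
def eW9 : Ex := .f 11 nd45 (-260) nd46
/-- node -/
def nd48 : Ex := .m eP eW9
/-- node -/
def nd49 : Ex := .m eM eW8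
/-- node -/
def eW10 : Ex := .f 2 nd48 (-525) nd49
/-- node -/
def nd51 : Ex := .m eP eW10
/-- node -/
def nd52 : Ex := .m eM eW9
/-- node -/
def eW11 : Ex := .f 13 nd51 (-625) nd52
/-- node -/
def nd54 : Ex := .f 10000 nd3 13637 nd1
/-- node -/
def nd55 : Ex := .m nd1 nd1
/-- node -/
def nd56 : Ex := .m nd54 nd3
/-- node -/
def nd57 : Ex := .f 1 nd56 (-3081) nd55
/-- node -/
def nd58 : Ex := .m nd55 nd1
/-- node -/
def nd59 : Ex := .m nd57 nd3
/-- node -/
def nd60 : Ex := .f 1 nd59 (-20536) nd58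
/-- node -/
def nd61 : Ex := .f 1155085370000 nd3 1579428319069 nd1
/-- node -/
def nd62 : Ex := .m nd61 nd3
/-- node -/
def nd63 : Ex := .f 1 nd62 (-356506542657) nd55
/-- node -/
def nd64 : Ex := .m nd63 nd3
/-- node -/
def nd65 : Ex := .f 1 nd64 (-2376234404792) nd58
/-- node -/
def nd66 : Ex := .m nd0 nd65
/-- node -/
def nd67 : Ex := .m nd60 nd5
/-- node -/
def nd68 : Ex := .f 1101130000 nd67 13 nd66
/-- node -/
def nd69 : Ex := .f (-86989270000) nd3 (-118835514219) nd1
/-- node -/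
def nd70 : Ex := .m nd69 nd3
/-- node -/
def nd71 : Ex := .f 1625 nd70 44436245686983 nd55
/-- node -/
def nd72 : Ex := .m nd71 nd3
/-- node -/
def nd73 : Ex := .f 1 nd72 290794396688048 nd58
/-- node -/
def nd74 : Ex := .m nd0 nd0
/-- node -/
def nd75 : Ex := .m nd74 nd73
/-- node -/
def nd76 : Ex := .m nd68 nd5
/-- node -/
def nd77 : Ex := .f 125 nd76 3 nd75
/-- node -/
def nd78 : Ex := .f (-2826600710000) nd3 (-3861380907787) nd1
/-- node -/
def nd79 : Ex := .m nd78 nd3
/-- node -/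
def nd80 : Ex := .f 125 nd79 109047898758018 nd55
/-- node -/
def nd81 : Ex := .m nd80 nd3
/-- node -/
def nd82 : Ex := .f 8 nd81 5817292441689887 nd58
/-- node -/
def nd83 : Ex := .m nd74 nd0
/-- node -/
def nd84 : Ex := .m nd83 nd82
/-- node -/
def nd85 : Ex := .m nd77 nd5
/-- node -/
def eq0 : Ex := .f 1 nd85 1 nd84
/-- node -/
def nd87 : Ex := .m eq0 nd16
/-- node -/
def nd88 : Ex := .f 1000 nd3 1903 nd1
/-- node -/
def nd89 : Ex := .m nd88 nd3
/-- node -/
def nd90 : Ex := .f 5 nd89 4856 nd55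
/-- node -/
def nd91 : Ex := .m nd90 nd3
/-- node -/
def nd92 : Ex := .f 2 nd91 (-14251) nd58
/-- node -/
def nd93 : Ex := .f 15525526576351000 nd3 52167267871595953 nd1
/-- node -/
def nd94 : Ex := .m nd93 nd3
/-- node -/
def nd95 : Ex := .f 5 nd94 (-398067874131466744) nd55
/-- node -/
def nd96 : Ex := .m nd95 nd3
/-- node -/
def nd97 : Ex := .f 2 nd96 887640269237964299 nd58
/-- node -/
def nd98 : Ex := .m nd0 nd97
/-- node -/
def nd99 : Ex := .m nd92 nd5
/-- node -/
def nd100 : Ex := .f 8158448017000 nd99 1 nd98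
/-- node -/
def nd101 : Ex := .f 4952177946319000 nd3 (-49758484266433343) nd1
/-- node -/
def nd102 : Ex := .m nd101 nd3
/-- node -/
def nd103 : Ex := .f 25 nd102 8342039791758968488 nd55
/-- node -/
def nd104 : Ex := .m nd103 nd3
/-- node -/
def nd105 : Ex := .f 2 nd104 (-14091071338931277401) nd58
/-- node -/
def nd106 : Ex := .m nd74 nd105
/-- node -/
def nd107 : Ex := .m nd100 nd5
/-- node -/
def nd108 : Ex := .f 25 nd107 8 nd106
/-- node -/
def nd109 : Ex := .f (-116266042690267000) nd3 887640269237964299 nd1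
/-- node -/
def nd110 : Ex := .m nd109 nd3
/-- node -/
def nd111 : Ex := .f 25 nd110 (-112728570711450219208) nd55
/-- node -/
def nd112 : Ex := .m nd111 nd3
/-- node -/
def nd113 : Ex := .f 2 nd112 282605487906649555565 nd58
/-- node -/
def nd114 : Ex := .m nd83 nd113
/-- node -/
def nd115 : Ex := .m nd108 nd5
/-- node -/
def eq1 : Ex := .f 2 nd115 1 nd114
/-- node -/
def nd117 : Ex := .m eq1 eP
/-- node -/
def eS1 : Ex := .f 24576 nd87 1 nd117
/-- node -/
def nd119 : Ex := .m eS1 nd16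
/-- node -/
def nd120 : Ex := .f 10000 nd3 24653 nd1
/-- node -/
def nd121 : Ex := .m nd120 nd3
/-- node -/
def nd122 : Ex := .f 1 nd121 19662 nd55
/-- node -/
def nd123 : Ex := .m nd122 nd3
/-- node -/
def nd124 : Ex := .f 1 nd123 (-566) nd58
/-- node -/
def nd125 : Ex := .f 232022836388630000 nd3 666272217855641539 nd1
/-- node -/
def nd126 : Ex := .m nd125 nd3
/-- node -/
def nd127 : Ex := .f 5 nd126 720531854732648922 nd55
/-- node -/
def nd128 : Ex := .m nd127 nd3
/-- node -/
def nd129 : Ex := .f 1 nd128 2815257654795318958 nd58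
/-- node -/
def nd130 : Ex := .m nd0 nd129
/-- node -/
def nd131 : Ex := .m nd124 nd5
/-- node -/
def nd132 : Ex := .f 47057728550000 nd131 1 nd130
/-- node -/
def nd133 : Ex := .f 1364674127950000 nd3 1062731349163199 nd1
/-- node -/
def nd134 : Ex := .m nd133 nd3
/-- node -/
def nd135 : Ex := .f 70625 nd134 1311783936286399909434 nd55
/-- node -/
def nd136 : Ex := .m nd135 nd3
/-- node -/
def nd137 : Ex := .f 1 nd136 (-695567700055836399154) nd58
/-- node -/
def nd138 : Ex := .m nd74 nd137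
/-- node -/
def nd139 : Ex := .m nd132 nd5
/-- node -/
def nd140 : Ex := .f 625 nd139 6 nd138
/-- node -/
def nd141 : Ex := .f (-13317337179650000) nd3 1407628827397659479 nd1
/-- node -/
def nd142 : Ex := .m nd141 nd3
/-- node -/
def nd143 : Ex := .f 625 nd142 (-2086703100167509197462) nd55
/-- node -/
def nd144 : Ex := .m nd143 nd3
/-- node -/
def nd145 : Ex := .f 1 nd144 5983292120049922979422 nd58
/-- node -/
def nd146 : Ex := .m nd83 nd145
/-- node -/
def nd147 : Ex := .m nd140 nd5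
/-- node -/
def eq2 : Ex := .f 1 nd147 2 nd146
/-- node -/
def nd149 : Ex := .m eq2 eW2
/-- node -/
def eS2 : Ex := .f 4375 nd119 2 nd149
/-- node -/
def nd151 : Ex := .m eS2 nd16
/-- node -/
def nd152 : Ex := .f 500 nd3 1511 nd1
/-- node -/
def nd153 : Ex := .m nd152 nd3
/-- node -/
def nd154 : Ex := .f 10 nd153 11849 nd55
/-- node -/
def nd155 : Ex := .m nd154 nd3
/-- node -/
def nd156 : Ex := .f 2 nd155 49657 nd58
/-- node -/
def nd157 : Ex := .f 33281206640013500 nd3 115875619768392797 nd1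
/-- node -/
def nd158 : Ex := .m nd157 nd3
/-- node -/
def nd159 : Ex := .f 10 nd158 81295867111191731 nd55
/-- node -/
def nd160 : Ex := .m nd159 nd3
/-- node -/
def nd161 : Ex := .f 2 nd160 5540133485309171779 nd58
/-- node -/
def nd162 : Ex := .m nd0 nd161
/-- node -/
def nd163 : Ex := .m nd156 nd5
/-- node -/
def nd164 : Ex := .f 22025947478500 nd163 1 nd162
/-- node -/
def nd165 : Ex := .f 260985451672746500 nd3 81295867111191731 nd1
/-- node -/
def nd166 : Ex := .m nd165 nd3
/-- node -/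
def nd167 : Ex := .f 1250 nd166 5465861812634313945289 nd55
/-- node -/
def nd168 : Ex := .m nd167 nd3
/-- node -/
def nd169 : Ex := .f 2 nd168 (-8505638754848078898055) nd58
/-- node -/
def nd170 : Ex := .m nd74 nd169
/-- node -/
def nd171 : Ex := .m nd164 nd5
/-- node -/
def nd172 : Ex := .f 1250 nd171 1 nd170
/-- node -/
def nd173 : Ex := .f 1093742473939874500 nd3 5540133485309171779 nd1
/-- node -/
def nd174 : Ex := .m nd173 nd3
/-- node -/
def nd175 : Ex := .f 250 nd174 (-1701127750969615779611) nd55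
/-- node -/
def nd176 : Ex := .m nd175 nd3
/-- node -/
def nd177 : Ex := .f 10 nd176 71912438610855863535913 nd58
/-- node -/
def nd178 : Ex := .m nd83 nd177
/-- node -/
def nd179 : Ex := .m nd172 nd5
/-- node -/
def eq3 : Ex := .f 2 nd179 1 nd178
/-- node -/
def nd181 : Ex := .m eq3 eW3
/-- node -/
def eS3 : Ex := .f 20 nd151 1 nd181
/-- node -/
def nd183 : Ex := .m eS3 nd16
/-- node -/
def nd184 : Ex := .f 10000 nd3 38129 nd1
/-- node -/
def nd185 : Ex := .m nd184 nd3
/-- node -/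
def nd186 : Ex := .f 1 nd185 18945 nd55
/-- node -/
def nd187 : Ex := .m nd186 nd3
/-- node -/
def nd188 : Ex := .f 1 nd187 127507 nd58
/-- node -/
def nd189 : Ex := .f 613469944226230000 nd3 2816831598416992367 nd1
/-- node -/
def nd190 : Ex := .m nd189 nd3
/-- node -/
def nd191 : Ex := .f 1 nd190 (-2386804802621146785) nd55
/-- node -/
def nd192 : Ex := .m nd191 nd3
/-- node -/
def nd193 : Ex := .f 1 nd192 13560019754476604941 nd58
/-- node -/
def nd194 : Ex := .m nd0 nd193
/-- node -/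
def nd195 : Ex := .m nd188 nd5
/-- node -/
def nd196 : Ex := .f 16089326870000 nd195 1 nd194
/-- node -/
def nd197 : Ex := .f 6773606612270000 nd3 (-53040106724914373) nd1
/-- node -/
def nd198 : Ex := .m nd197 nd3
/-- node -/
def nd199 : Ex := .f 625 nd198 374296566595543879099 nd55
/-- node -/
def nd200 : Ex := .m nd199 nd3
/-- node -/
def nd201 : Ex := .f 1 nd200 (-538148290856670621471) nd58
/-- node -/
def nd202 : Ex := .m nd74 nd201
/-- node -/
def nd203 : Ex := .m nd196 nd5
/-- node -/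
def nd204 : Ex := .f 125 nd203 9 nd202
/-- node -/
def nd205 : Ex := .f 2051501801213090000 nd3 13560019754476604941 nd1
/-- node -/
def nd206 : Ex := .m nd205 nd3
/-- node -/
def nd207 : Ex := .f 125 nd206 (-4843334617710035593239) nd55
/-- node -/
def nd208 : Ex := .m nd207 nd3
/-- node -/
def nd209 : Ex := .f 35 nd208 415981304109002131519553 nd58
/-- node -/
def nd210 : Ex := .m nd83 nd209
/-- node -/
def nd211 : Ex := .m nd204 nd5
/-- node -/
def eq4 : Ex := .f 35 nd211 1 nd210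
/-- node -/
def nd213 : Ex := .m eq4 eW4
/-- node -/
def eS4 : Ex := .f 75 nd183 2 nd213
/-- node -/
def nd215 : Ex := .m eS4 nd16
/-- node -/
def nd216 : Ex := .f 5000 nd3 24533 nd1
/-- node -/
def nd217 : Ex := .m nd216 nd3
/-- node -/
def nd218 : Ex := .f 2 nd217 (-21401) nd55
/-- node -/
def nd219 : Ex := .m nd218 nd3
/-- node -/
def nd220 : Ex := .f 1 nd219 321618 nd58
/-- node -/
def nd221 : Ex := .f 47131857998559005000 nd3 342964302013873613933 nd1
/-- node -/
def nd222 : Ex := .m nd221 nd3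
/-- node -/
def nd223 : Ex := .f 2 nd222 (-1737863172508493654801) nd55
/-- node -/
def nd224 : Ex := .m nd223 nd3
/-- node -/
def nd225 : Ex := .f 1 nd224 5150886698061659838018 nd58
/-- node -/
def nd226 : Ex := .m nd0 nd225
/-- node -/
def nd227 : Ex := .m nd220 nd5
/-- node -/
def nd228 : Ex := .f 1921161618985000 nd227 1 nd226
/-- node -/
def nd229 : Ex := .f (-41114779807897985000) nd3 (-1737863172508493654801) nd1
/-- node -/
def nd230 : Ex := .m nd229 nd3
/-- node -/
def nd231 : Ex := .f 50 nd230 532544178871821687833981 nd55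
/-- node -/
def nd232 : Ex := .m nd231 nd3
/-- node -/
def nd233 : Ex := .f 1 nd232 (-794687091428982067982490) nd58
/-- node -/
def nd234 : Ex := .m nd74 nd233
/-- node -/
def nd235 : Ex := .m nd228 nd5
/-- node -/
def nd236 : Ex := .f 50 nd235 1 nd234
/-- node -/
def nd237 : Ex := .f 102980026262452955000 nd3 858481116343609973003 nd1
/-- node -/
def nd238 : Ex := .m nd237 nd3
/-- node -/
def nd239 : Ex := .f 10 nd238 (-26489569714299402266083) nd55
/-- node -/
def nd240 : Ex := .m nd239 nd3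
/-- node -/
def nd241 : Ex := .f 5 nd240 333116961057884130484926 nd58
/-- node -/
def nd242 : Ex := .m nd83 nd241
/-- node -/
def nd243 : Ex := .m nd236 nd5
/-- node -/
def eq5 : Ex := .f 1 nd243 6 nd242
/-- node -/
def nd245 : Ex := .m eq5 eW5
/-- node -/
def eS5 : Ex := .f 375 nd215 2 nd245
/-- node -/
def nd247 : Ex := .m eS5 nd16
/-- node -/
def nd248 : Ex := .f 2500 nd3 16329 nd1
/-- node -/
def nd249 : Ex := .m nd248 nd3
/-- node -/
def nd250 : Ex := .f 1 nd249 (-23382) nd55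
/-- node -/
def nd251 : Ex := .m nd250 nd3
/-- node -/
def nd252 : Ex := .f 2 nd251 308261 nd58
/-- node -/
def nd253 : Ex := .f 410987910901907500 nd3 5213302319691699027 nd1
/-- node -/
def nd254 : Ex := .m nd253 nd3
/-- node -/
def nd255 : Ex := .f 1 nd254 (-21918396648817315026) nd55
/-- node -/
def nd256 : Ex := .m nd255 nd3
/-- node -/
def nd257 : Ex := .f 2 nd256 104273990432837854343 nd58
/-- node -/
def nd258 : Ex := .m nd0 nd257
/-- node -/
def nd259 : Ex := .m nd252 nd5
/-- node -/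
def nd260 : Ex := .f 75507608102500 nd259 3 nd258
/-- node -/
def nd261 : Ex := .f (-32694794308382500) nd3 (-1217688702712073057) nd1
/-- node -/
def nd262 : Ex := .m nd261 nd3
/-- node -/
def nd263 : Ex := .f 375 nd262 2806113843160175776234 nd55
/-- node -/
def nd264 : Ex := .m nd263 nd3
/-- node -/
def nd265 : Ex := .f 2 nd264 (-9492502050776293194555) nd58
/-- node -/
def nd266 : Ex := .m nd74 nd265
/-- node -/
def nd267 : Ex := .m nd260 nd5
/-- node -/
def nd268 : Ex := .f 125 nd267 18 nd266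
/-- node -/
def nd269 : Ex := .f 1369179457722632500 nd3 18401292429324327237 nd1
/-- node -/
def nd270 : Ex := .m nd269 nd3
/-- node -/
def nd271 : Ex := .f 425 nd270 (-34173007382794655500398) nd55
/-- node -/
def nd272 : Ex := .m nd271 nd3
/-- node -/
def nd273 : Ex := .f 2 nd272 156946943328941693664985 nd58
/-- node -/
def nd274 : Ex := .m nd83 nd273
/-- node -/
def nd275 : Ex := .m nd268 nd5
/-- node -/
def eq6 : Ex := .f 2 nd275 5 nd274
/-- node -/
def nd277 : Ex := .m eq6 eW6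
/-- node -/
def eS6 : Ex := .f 275 nd247 24 nd277
/-- node -/
def nd279 : Ex := .m eS6 nd16
/-- node -/
def nd280 : Ex := .f 10000 nd3 130807 nd1
/-- node -/
def nd281 : Ex := .m nd280 nd3
/-- node -/
def nd282 : Ex := .f 1 nd281 (-594771) nd55
/-- node -/
def nd283 : Ex := .m nd282 nd3
/-- node -/
def nd284 : Ex := .f 1 nd283 2031350 nd58
/-- node -/
def nd285 : Ex := .f 34175191364503870000 nd3 810986833368936172309 nd1
/-- node -/
def nd286 : Ex := .m nd285 nd3
/-- node -/
def nd287 : Ex := .f 1 nd286 (-4623138208801417652457) nd55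
/-- node -/
def nd288 : Ex := .m nd287 nd3
/-- node -/
def nd289 : Ex := .f 1 nd288 10792237464048283558850 nd58
/-- node -/
def nd290 : Ex := .m nd0 nd289
/-- node -/
def nd291 : Ex := .m nd284 nd5
/-- node -/
def nd292 : Ex := .f 261264239410000 nd291 1 nd290
/-- node -/
def nd293 : Ex := .f (-51797464312708370000) nd3 (-1541046069600472550819) nd1
/-- node -/
def nd294 : Ex := .m nd293 nd3
/-- node -/
def nd295 : Ex := .f 125 nd294 1153396346617698347135859 nd55
/-- node -/
def nd296 : Ex := .m nd295 nd3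
/-- node -/
def nd297 : Ex := .f 1 nd296 (-2456987722147671325404470) nd58
/-- node -/
def nd298 : Ex := .m nd74 nd297
/-- node -/
def nd299 : Ex := .m nd292 nd5
/-- node -/
def nd300 : Ex := .f 125 nd299 3 nd298
/-- node -/
def nd301 : Ex := .f 10614382254510070000 nd3 215844749280965671177 nd1
/-- node -/
def nd302 : Ex := .m nd301 nd3
/-- node -/
def nd303 : Ex := .f 625 nd302 (-737096316644301397621341) nd55
/-- node -/
def nd304 : Ex := .m nd303 nd3
/-- node -/
def nd305 : Ex := .f 5 nd304 9283659914687781128302354 nd58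
/-- node -/
def nd306 : Ex := .m nd83 nd305
/-- node -/
def nd307 : Ex := .m nd300 nd5
/-- node -/
def eq7 : Ex := .f 1 nd307 2 nd306
/-- node -/
def nd309 : Ex := .m eq7 eW7
/-- node -/
def eS7 : Ex := .f 50 nd279 1 nd309
/-- node -/
def nd311 : Ex := .m eS7 nd16
/-- node -/
def nd312 : Ex := .m nd1 nd3
/-- node -/
def nd313 : Ex := .f 1250 nd312 (-10741) nd55
/-- node -/
def nd314 : Ex := .m nd313 nd3
/-- node -/
def nd315 : Ex := .f 8 nd314 182163 nd58
/-- node -/
def nd316 : Ex := .m nd0 nd315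
/-- node -/
def nd317 : Ex := .f (-91394300200788750) nd312 785332944877837571 nd55
/-- node -/
def nd318 : Ex := .m nd317 nd3
/-- node -/
def nd319 : Ex := .f 8 nd318 (-13318928011887104853) nd58
/-- node -/
def nd320 : Ex := .m nd74 nd319
/-- node -/
def nd321 : Ex := .m nd316 nd5
/-- node -/
def nd322 : Ex := .f 8508919113750 nd321 1 nd320
/-- node -/
def nd323 : Ex := .f 172223359168671250 nd312 (-1479880890209678317) nd55
/-- node -/
def nd324 : Ex := .m nd323 nd3
/-- node -/
def nd325 : Ex := .f 24 nd324 75294538227956481809 nd58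
/-- node -/
def nd326 : Ex := .m nd83 nd325
/-- node -/
def nd327 : Ex := .m nd322 nd5
/-- node -/
def eq8 : Ex := .f 8 nd327 3 nd326
/-- node -/
def nd329 : Ex := .m eq8 eW8
/-- node -/
def eS8 : Ex := .f 65 nd311 221184 nd329
/-- node -/
def nd331 : Ex := .m eS8 nd16
/-- node -/
def nd332 : Ex := .f 10000 nd3 (-1256353) nd1
/-- node -/
def nd333 : Ex := .m nd332 nd3
/-- node -/
def nd334 : Ex := .f 1 nd333 10873798 nd55
/-- node -/
def nd335 : Ex := .m nd334 nd3
/-- node -/
def nd336 : Ex := .f 1 nd335 (-22875219) nd58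
/-- node -/
def nd337 : Ex := .f (-16816699501490000) nd3 105389809441311546597 nd1
/-- node -/
def nd338 : Ex := .m nd337 nd3
/-- node -/
def nd339 : Ex := .f 1 nd338 (-912148906298199255902) nd55
/-- node -/
def nd340 : Ex := .m nd339 nd3
/-- node -/
def nd341 : Ex := .f 1 nd340 1918895571937533540831 nd58
/-- node -/
def nd342 : Ex := .m nd0 nd341
/-- node -/
def nd343 : Ex := .m nd336 nd5
/-- node -/
def nd344 : Ex := .f 13385330000 nd343 1 nd342
/-- node -/
def nd345 : Ex := .f 72774687291670000 nd3 (-456074453149099627951) nd1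
/-- node -/
def nd346 : Ex := .m nd345 nd3
/-- node -/
def nd347 : Ex := .f 1 nd346 3947329837677299440666 nd55
/-- node -/
def nd348 : Ex := .m nd347 nd3
/-- node -/
def nd349 : Ex := .f 1 nd348 (-8304031911916799589021) nd58
/-- node -/
def nd350 : Ex := .m nd74 nd349
/-- node -/
def nd351 : Ex := .m nd344 nd5
/-- node -/
def nd352 : Ex := .f 1 nd351 2 nd350
/-- node -/
def nd353 : Ex := .f (-102064118379090000) nd3 639631857312511180277 nd1
/-- node -/
def nd354 : Ex := .m nd353 nd3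
/-- node -/
def nd355 : Ex := .f 1 nd354 (-5536021274611199726014) nd55
/-- node -/
def nd356 : Ex := .m nd355 nd3
/-- node -/
def nd357 : Ex := .f 25 nd356 291154401868727846991223 nd58
/-- node -/
def nd358 : Ex := .m nd83 nd357
/-- node -/
def nd359 : Ex := .m nd352 nd5
/-- node -/
def eq9 : Ex := .f 25 nd359 3 nd358
/-- node -/
def nd361 : Ex := .m eq9 eW9
/-- node -/
def eS9 : Ex := .f 175 nd331 27 nd361
/-- node -/
def nd363 : Ex := .m eS9 nd16
/-- node -/
def nd364 : Ex := .f 2500 nd3 (-12091) nd1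
/-- node -/
def nd365 : Ex := .m nd364 nd3
/-- node -/
def nd366 : Ex := .f 4 nd365 1095921 nd55
/-- node -/
def nd367 : Ex := .m nd366 nd3
/-- node -/
def nd368 : Ex := .f 1 nd367 (-1888328) nd58
/-- node -/
def nd369 : Ex := .f (-3139627077177500) nd3 62064966917661261 nd1
/-- node -/
def nd370 : Ex := .m nd369 nd3
/-- node -/
def nd371 : Ex := .f 4 nd370 (-2712688105131706791) nd55
/-- node -/
def nd372 : Ex := .m nd371 nd3
/-- node -/
def nd373 : Ex := .f 1 nd372 4349589286290790008 nd58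
/-- node -/
def nd374 : Ex := .m nd0 nd373
/-- node -/
def nd375 : Ex := .m nd368 nd5
/-- node -/
def nd376 : Ex := .f 259666452500 nd375 1 nd374
/-- node -/
def nd377 : Ex := .f 94857972763417500 nd3 (-904229368377235597) nd1
/-- node -/
def nd378 : Ex := .m nd377 nd3
/-- node -/
def nd379 : Ex := .f 180 nd378 2443391287777726909979 nd55
/-- node -/
def nd380 : Ex := .m nd379 nd3
/-- node -/
def nd381 : Ex := .f 5 nd380 (-20357056253213330285944) nd58
/-- node -/
def nd382 : Ex := .m nd74 nd381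
/-- node -/
def nd383 : Ex := .m nd376 nd5
/-- node -/
def nd384 : Ex := .f 300 nd383 1 nd382
/-- node -/
def nd385 : Ex := .f (-61291929114552500) nd3 543698660786348751 nd1
/-- node -/
def nd386 : Ex := .m nd385 nd3
/-- node -/
def nd387 : Ex := .f 300 nd386 (-2544632031651666285743) nd55
/-- node -/
def nd388 : Ex := .m nd387 nd3
/-- node -/
def nd389 : Ex := .f 5 nd388 21281271870799832082328 nd58
/-- node -/
def nd390 : Ex := .m nd83 nd389
/-- node -/
def nd391 : Ex := .m nd384 nd5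
/-- node -/
def eq10 : Ex := .f 5 nd391 8 nd390
/-- node -/
def nd393 : Ex := .m eq10 eW10
/-- node -/
def eS10 : Ex := .f 125 nd363 54 nd393
/-- node -/
def nd395 : Ex := .m eS10 nd16
/-- node -/
def nd396 : Ex := .f 5000 nd3 83199 nd1
/-- node -/
def nd397 : Ex := .m nd396 nd3
/-- node -/
def nd398 : Ex := .f 2 nd397 (-1150775) nd55
/-- node -/
def nd399 : Ex := .m nd398 nd3
/-- node -/
def nd400 : Ex := .f 1 nd399 4253809 nd58
/-- node -/
def nd401 : Ex := .f 23682606581865000 nd3 394530100680917227 nd1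
/-- node -/
def nd402 : Ex := .m nd401 nd3
/-- node -/
def nd403 : Ex := .f 2 nd402 (-5456958452634163075) nd55
/-- node -/
def nd404 : Ex := .m nd403 nd3
/-- node -/
def nd405 : Ex := .f 1 nd404 20171500262424082757 nd58
/-- node -/
def nd406 : Ex := .m nd0 nd405
/-- node -/
def nd407 : Ex := .m nd400 nd5
/-- node -/
def nd408 : Ex := .f 284650135000 nd407 1 nd406
/-- node -/
def nd409 : Ex := .f (-13102730364185000) nd3 (-218278338105366523) nd1
/-- node -/
def nd410 : Ex := .m nd409 nd3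
/-- node -/
def nd411 : Ex := .f 250 nd410 377392270857682053191 nd55
/-- node -/
def nd412 : Ex := .m nd411 nd3
/-- node -/
def nd413 : Ex := .f 1 nd412 (-1395020266838947623137) nd58
/-- node -/
def nd414 : Ex := .m nd74 nd413
/-- node -/
def nd415 : Ex := .m nd408 nd5
/-- node -/
def nd416 : Ex := .f 10 nd415 1 nd414
/-- node -/
def nd417 : Ex := .f 1210847306114215000 nd3 20171500262424082757 nd1
/-- node -/
def nd418 : Ex := .m nd417 nd3
/-- node -/
def nd419 : Ex := .f 10 nd418 (-1395020266838947623137) nd55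
/-- node -/
def nd420 : Ex := .m nd419 nd3
/-- node -/
def nd421 : Ex := .f 25 nd420 128916376407450117879519 nd58
/-- node -/
def nd422 : Ex := .m nd83 nd421
/-- node -/
def nd423 : Ex := .m nd416 nd5
/-- node -/
def eq11 : Ex := .f 25 nd423 1 nd422
/-- node -/
def nd425 : Ex := .m eq11 eW11
/-- node -/
def eS11 : Ex := .f 50 nd395 27 nd425
/-- node -/
def nd427 : Ex := .f 1 eT 50 nd16
/-- node -/
def nd428 : Ex := .f 1 eT 25 nd16
/-- node -/
def nd429 : Ex := .m nd428 nd428
/-- node -/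
def nd430 : Ex := .m nd427 nd429
/-- node -/
def nd431 : Ex := .m eT eT
/-- node -/
def eB : Ex := .m nd430 nd431
/-- node -/
def nd433 : Ex := .m nd20 nd3
/-- node -/
def nd434 : Ex := .m nd21 nd5
/-- node -/
def nd435 : Ex := .f 1 nd433 1 nd434
/-- node -/
def nd436 : Ex := .m nd435 nd14
/-- node -/
def eD2 : Ex := .f 5 nd436 (-1) eP
/-- node -/
def eDd : Ex := .f 100 eM (-1) nd25
/-- node -/
def nd439 : Ex := .f 1 nd5 (-1) nd0
/-- node -/
def nd440 : Ex := .f 1 nd3 (-1) nd1
/-- node -/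
def eR1 : Ex := .m nd439 nd440
/-- node -/
def nd442 : Ex := .m eR1 eR1
/-- node -/
def eR3 : Ex := .m nd442 eR1
/-- node -/
def eK3 : Ex := .m eR3 eS11

/-- real function of eT -/
noncomputable def f_eT (x y t : ℝ) : ℝ := ((-1) / 2) - (t * (((1 / 2) - ((1 / 5) * (x + y))) - ((2 / 25) * (x * y))))

theorem v_eT (x y t : ℝ) : val eT x y t = 50 * (f_eT x y t) := by
  simp only [nd0, nd1, nd2, nd3, nd4, nd5, nd6, nd7, nd9, nd10, nd11, nd12, nd13, nd14, nd15, nd16, eT, val_f, val_h, val_m, val_vt, val_vx, val_vy]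
  unfold f_eT
  push_cast
  ring

/-- real function of eP -/
noncomputable def f_eP (x y t : ℝ) : ℝ := f_eT x y t - (((2 / 25) * x) * y)

theorem v_eP (x y t : ℝ) : val eP x y t = 50 * (f_eP x y t) := by
  simp only [nd0, nd1, nd11, nd14, nd18, eP, v_eT, val_f, val_h, val_m, val_vx, val_vy]
  unfold f_eP
  push_cast
  ring

/-- real function of eM -/
noncomputable def f_eM (x y t : ℝ) : ℝ := (1 - ((2 / 5) * x)) * (1 - ((2 / 5) * y))

theorem v_eM (x y t : ℝ) : val eM x y t = 25 * (f_eM x y t) := by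
  simp only [nd0, nd1, nd3, nd5, nd14, nd15, nd16, nd20, nd21, nd22, nd23, eM, val_f, val_h, val_m, val_vx, val_vy]
  unfold f_eM
  push_cast
  ring

theorem v_eW2 (x y t : ℝ) : val eW2 x y t = 4375 * (Zg 8 2 (f_eP x y t) (f_eM x y t)) := by
  simp only [nd25, eW2, v_eP, v_eM, val_f, val_m]
  rw [zg_2]
  rw [zg_0, zg_1]
  push_cast
  ring

theorem v_eW3 (x y t : ℝ) : val eW3 x y t = 175000 * (Zg 8 3 (f_eP x y t) (f_eM x y t)) := by
  simp only [nd27, nd28, eW3, v_eP, v_eM, v_eW2, val_f, val_m]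
  rw [zg_3]
  rw [zg_1]
  push_cast
  ring

theorem v_eW4 (x y t : ℝ) : val eW4 x y t = 6562500 * (Zg 8 4 (f_eP x y t) (f_eM x y t)) := by
  simp only [nd30, nd31, eW4, v_eP, v_eM, v_eW2, v_eW3, val_f, val_m]
  rw [zg_4]
  push_cast
  ring

theorem v_eW5 (x y t : ℝ) : val eW5 x y t = 1640625000 * (Zg 8 5 (f_eP x y t) (f_eM x y t)) := by
  simp only [nd33, nd34, eW5, v_eP, v_eM, v_eW3, v_eW4, val_f, val_m]
  rw [zg_5]
  push_cast
  ring

theorem v_eW6 (x y t : ℝ) : val eW6 x y t = 225585937500 * (Zg 8 6 (f_eP x y t) (f_eM x y t)) := by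
  simp only [nd36, nd37, eW6, v_eP, v_eM, v_eW4, v_eW5, val_f, val_m]
  rw [zg_6]
  push_cast
  ring

theorem v_eW7 (x y t : ℝ) : val eW7 x y t = 22558593750000 * (Zg 8 7 (f_eP x y t) (f_eM x y t)) := by
  simp only [nd39, nd40, eW7, v_eP, v_eM, v_eW5, v_eW6, val_f, val_m]
  rw [zg_7]
  push_cast
  ring

theorem v_eW8 (x y t : ℝ) : val eW8 x y t = 733154296875000 * (Zg 8 8 (f_eP x y t) (f_eM x y t)) := by
  simp only [nd42, nd43, eW8, v_eP, v_eM, v_eW6, v_eW7, val_f, val_m]
  rw [zg_8]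
  push_cast
  ring

theorem v_eW9 (x y t : ℝ) : val eW9 x y t = 256604003906250000 * (Zg 8 9 (f_eP x y t) (f_eM x y t)) := by
  simp only [nd45, nd46, eW9, v_eP, v_eM, v_eW7, v_eW8, val_f, val_m]
  rw [zg_9]
  push_cast
  ring

theorem v_eW10 (x y t : ℝ) : val eW10 x y t = 16037750244140625000 * (Zg 8 10 (f_eP x y t) (f_eM x y t)) := by
  simp only [nd48, nd49, eW10, v_eP, v_eM, v_eW8, v_eW9, val_f, val_m]
  rw [zg_10]
  push_cast
  ring

theorem v_eW11 (x y t : ℝ) : val eW11 x y t = 6415100097656250000000 * (Zg 8 11 (f_eP x y t) (f_eM x y t)) := by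
  simp only [nd51, nd52, eW11, v_eP, v_eM, v_eW9, v_eW10, val_f, val_m]
  rw [zg_11]
  push_cast
  ring

theorem v_eq0 (x y t : ℝ) : val eq0 x y t = 3000000000000000000 * (qf0 x y) := by
  simp only [nd0, nd1, nd3, nd5, nd54, nd55, nd56, nd57, nd58, nd59, nd60, nd61, nd62, nd63, nd64, nd65, nd66, nd67, nd68, nd69, nd70, nd71, nd72, nd73, nd74, nd75, nd76, nd77, nd78, nd79, nd80, nd81, nd82, nd83, nd84, nd85, eq0, val_f, val_h, val_m, val_vx, val_vy]
  unfold qf0
  push_cast
  ring

theorem v_eq1 (x y t : ℝ) : val eq1 x y t = 1474560000000000000000 * (qf1 x y) := by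
  simp only [nd0, nd1, nd3, nd5, nd55, nd58, nd74, nd83, nd88, nd89, nd90, nd91, nd92, nd93, nd94, nd95, nd96, nd97, nd98, nd99, nd100, nd101, nd102, nd103, nd104, nd105, nd106, nd107, nd108, nd109, nd110, nd111, nd112, nd113, nd114, nd115, eq1, val_f, val_h, val_m, val_vx, val_vy]
  unfold qf1
  push_cast
  ring

/-- real function of eS1 -/
noncomputable def f_eS1 (x y t : ℝ) : ℝ := qf0 x y * Zg 8 0 (f_eP x y t) (f_eM x y t) + qf1 x y * Zg 8 1 (f_eP x y t) (f_eM x y t)

theorem v_eS1 (x y t : ℝ) : val eS1 x y t = 73728000000000000000000 * (f_eS1 x y t) := by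
  simp only [nd3, nd5, nd14, nd15, nd16, nd87, nd117, eS1, v_eP, v_eq0, v_eq1, val_f, val_h, val_m]
  unfold f_eS1
  rw [zg_0, zg_1]
  push_cast
  ring

theorem v_eq2 (x y t : ℝ) : val eq2 x y t = 36864000000000000000000 * (qf2 x y) := by
  simp only [nd0, nd1, nd3, nd5, nd55, nd58, nd74, nd83, nd120, nd121, nd122, nd123, nd124, nd125, nd126, nd127, nd128, nd129, nd130, nd131, nd132, nd133, nd134, nd135, nd136, nd137, nd138, nd139, nd140, nd141, nd142, nd143, nd144, nd145, nd146, nd147, eq2, val_f, val_h, val_m, val_vx, val_vy]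
  unfold qf2
  push_cast
  ring

/-- real function of eS2 -/
noncomputable def f_eS2 (x y t : ℝ) : ℝ := f_eS1 x y t + qf2 x y * Zg 8 2 (f_eP x y t) (f_eM x y t)

theorem v_eS2 (x y t : ℝ) : val eS2 x y t = 322560000000000000000000000 * (f_eS2 x y t) := by
  simp only [nd3, nd5, nd14, nd15, nd16, nd119, nd149, eS2, v_eW2, v_eS1, v_eq2, val_f, val_h, val_m]
  unfold f_eS2
  push_cast
  ring

theorem v_eq3 (x y t : ℝ) : val eq3 x y t = 36864000000000000000000 * (qf3 x y) := by
  simp only [nd0, nd1, nd3, nd5, nd55, nd58, nd74, nd83, nd152, nd153, nd154, nd155, nd156, nd157, nd158, nd159, nd160, nd161, nd162, nd163, nd164, nd165, nd166, nd167, nd168, nd169, nd170, nd171, nd172, nd173, nd174, nd175, nd176, nd177, nd178, nd179, eq3, val_f, val_h, val_m, val_vx, val_vy]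
  unfold qf3
  push_cast
  ring

/-- real function of eS3 -/
noncomputable def f_eS3 (x y t : ℝ) : ℝ := f_eS2 x y t + qf3 x y * Zg 8 3 (f_eP x y t) (f_eM x y t)

theorem v_eS3 (x y t : ℝ) : val eS3 x y t = 6451200000000000000000000000 * (f_eS3 x y t) := by
  simp only [nd3, nd5, nd14, nd15, nd16, nd151, nd181, eS3, v_eW3, v_eS2, v_eq3, val_f, val_h, val_m]
  unfold f_eS3
  push_cast
  ring

theorem v_eq4 (x y t : ℝ) : val eq4 x y t = 36864000000000000000000 * (qf4 x y) := by
  simp only [nd0, nd1, nd3, nd5, nd55, nd58, nd74, nd83, nd184, nd185, nd186, nd187, nd188, nd189, nd190, nd191, nd192, nd193, nd194, nd195, nd196, nd197, nd198, nd199, nd200, nd201, nd202, nd203, nd204, nd205, nd206, nd207, nd208, nd209, nd210, nd211, eq4, val_f, val_h, val_m, val_vx, val_vy]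
  unfold qf4
  push_cast
  ring

/-- real function of eS4 -/
noncomputable def f_eS4 (x y t : ℝ) : ℝ := f_eS3 x y t + qf4 x y * Zg 8 4 (f_eP x y t) (f_eM x y t)

theorem v_eS4 (x y t : ℝ) : val eS4 x y t = 483840000000000000000000000000 * (f_eS4 x y t) := by
  simp only [nd3, nd5, nd14, nd15, nd16, nd183, nd213, eS4, v_eW4, v_eS3, v_eq4, val_f, val_h, val_m]
  unfold f_eS4
  push_cast
  ring

theorem v_eq5 (x y t : ℝ) : val eq5 x y t = 55296000000000000000000 * (qf5 x y) := by
  simp only [nd0, nd1, nd3, nd5, nd55, nd58, nd74, nd83, nd216, nd217, nd218, nd219, nd220, nd221, nd222, nd223, nd224, nd225, nd226, nd227, nd228, nd229, nd230, nd231, nd232, nd233, nd234, nd235, nd236, nd237, nd238, nd239, nd240, nd241, nd242, nd243, eq5, val_f, val_h, val_m, val_vx, val_vy]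
  unfold qf5
  push_cast
  ring

/-- real function of eS5 -/
noncomputable def f_eS5 (x y t : ℝ) : ℝ := f_eS4 x y t + qf5 x y * Zg 8 5 (f_eP x y t) (f_eM x y t)

theorem v_eS5 (x y t : ℝ) : val eS5 x y t = 181440000000000000000000000000000 * (f_eS5 x y t) := by
  simp only [nd3, nd5, nd14, nd15, nd16, nd215, nd245, eS5, v_eW5, v_eS4, v_eq5, val_f, val_h, val_m]
  unfold f_eS5
  push_cast
  ring

theorem v_eq6 (x y t : ℝ) : val eq6 x y t = 9216000000000000000000 * (qf6 x y) := by
  simp only [nd0, nd1, nd3, nd5, nd55, nd58, nd74, nd83, nd248, nd249, nd250, nd251, nd252, nd253, nd254, nd255, nd256, nd257, nd258, nd259, nd260, nd261, nd262, nd263, nd264, nd265, nd266, nd267, nd268, nd269, nd270, nd271, nd272, nd273, nd274, nd275, eq6, val_f, val_h, val_m, val_vx, val_vy]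
  unfold qf6
  push_cast
  ring

/-- real function of eS6 -/
noncomputable def f_eS6 (x y t : ℝ) : ℝ := f_eS5 x y t + qf6 x y * Zg 8 6 (f_eP x y t) (f_eM x y t)

theorem v_eS6 (x y t : ℝ) : val eS6 x y t = 49896000000000000000000000000000000 * (f_eS6 x y t) := by
  simp only [nd3, nd5, nd14, nd15, nd16, nd247, nd277, eS6, v_eW6, v_eS5, v_eq6, val_f, val_h, val_m]
  unfold f_eS6
  push_cast
  ring

theorem v_eq7 (x y t : ℝ) : val eq7 x y t = 110592000000000000000000 * (qf7 x y) := by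
  simp only [nd0, nd1, nd3, nd5, nd55, nd58, nd74, nd83, nd280, nd281, nd282, nd283, nd284, nd285, nd286, nd287, nd288, nd289, nd290, nd291, nd292, nd293, nd294, nd295, nd296, nd297, nd298, nd299, nd300, nd301, nd302, nd303, nd304, nd305, nd306, nd307, eq7, val_f, val_h, val_m, val_vx, val_vy]
  unfold qf7
  push_cast
  ring

/-- real function of eS7 -/
noncomputable def f_eS7 (x y t : ℝ) : ℝ := f_eS6 x y t + qf7 x y * Zg 8 7 (f_eP x y t) (f_eM x y t)

theorem v_eS7 (x y t : ℝ) : val eS7 x y t = 2494800000000000000000000000000000000 * (f_eS7 x y t) := by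
  simp only [nd3, nd5, nd14, nd15, nd16, nd279, nd309, eS7, v_eW7, v_eS6, v_eq7, val_f, val_h, val_m]
  unfold f_eS7
  push_cast
  ring

theorem v_eq8 (x y t : ℝ) : val eq8 x y t = 1000000000000000000 * (qf8 x y) := by
  simp only [nd0, nd1, nd3, nd5, nd55, nd58, nd74, nd83, nd312, nd313, nd314, nd315, nd316, nd317, nd318, nd319, nd320, nd321, nd322, nd323, nd324, nd325, nd326, nd327, eq8, val_f, val_h, val_m, val_vx, val_vy]
  unfold qf8
  push_cast
  ring

/-- real function of eS8 -/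
noncomputable def f_eS8 (x y t : ℝ) : ℝ := f_eS7 x y t + qf8 x y * Zg 8 8 (f_eP x y t) (f_eM x y t)

theorem v_eS8 (x y t : ℝ) : val eS8 x y t = 162162000000000000000000000000000000000 * (f_eS8 x y t) := by
  simp only [nd3, nd5, nd14, nd15, nd16, nd311, nd329, eS8, v_eW8, v_eS7, v_eq8, val_f, val_h, val_m]
  unfold f_eS8
  push_cast
  ring

theorem v_eq9 (x y t : ℝ) : val eq9 x y t = 4096000000000000000000 * (qf9 x y) := by
  simp only [nd0, nd1, nd3, nd5, nd55, nd58, nd74, nd83, nd332, nd333, nd334, nd335, nd336, nd337, nd338, nd339, nd340, nd341, nd342, nd343, nd344, nd345, nd346, nd347, nd348, nd349, nd350, nd351, nd352, nd353, nd354, nd355, nd356, nd357, nd358, nd359, eq9, val_f, val_h, val_m, val_vx, val_vy]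
  unfold qf9
  push_cast
  ring

/-- real function of eS9 -/
noncomputable def f_eS9 (x y t : ℝ) : ℝ := f_eS8 x y t + qf9 x y * Zg 8 9 (f_eP x y t) (f_eM x y t)

theorem v_eS9 (x y t : ℝ) : val eS9 x y t = 28378350000000000000000000000000000000000 * (f_eS9 x y t) := by
  simp only [nd3, nd5, nd14, nd15, nd16, nd331, nd361, eS9, v_eW9, v_eS8, v_eq9, val_f, val_h, val_m]
  unfold f_eS9
  push_cast
  ring

theorem v_eq10 (x y t : ℝ) : val eq10 x y t = 4096000000000000000000 * (qf10 x y) := by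
  simp only [nd0, nd1, nd3, nd5, nd55, nd58, nd74, nd83, nd364, nd365, nd366, nd367, nd368, nd369, nd370, nd371, nd372, nd373, nd374, nd375, nd376, nd377, nd378, nd379, nd380, nd381, nd382, nd383, nd384, nd385, nd386, nd387, nd388, nd389, nd390, nd391, eq10, val_f, val_h, val_m, val_vx, val_vy]
  unfold qf10
  push_cast
  ring

/-- real function of eS10 -/
noncomputable def f_eS10 (x y t : ℝ) : ℝ := f_eS9 x y t + qf10 x y * Zg 8 10 (f_eP x y t) (f_eM x y t)

theorem v_eS10 (x y t : ℝ) : val eS10 x y t = 3547293750000000000000000000000000000000000 * (f_eS10 x y t) := by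
  simp only [nd3, nd5, nd14, nd15, nd16, nd363, nd393, eS10, v_eW10, v_eS9, v_eq10, val_f, val_h, val_m]
  unfold f_eS10
  push_cast
  ring

theorem v_eq11 (x y t : ℝ) : val eq11 x y t = 1024000000000000000000 * (qf11 x y) := by
  simp only [nd0, nd1, nd3, nd5, nd55, nd58, nd74, nd83, nd396, nd397, nd398, nd399, nd400, nd401, nd402, nd403, nd404, nd405, nd406, nd407, nd408, nd409, nd410, nd411, nd412, nd413, nd414, nd415, nd416, nd417, nd418, nd419, nd420, nd421, nd422, nd423, eq11, val_f, val_h, val_m, val_vx, val_vy]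
  unfold qf11
  push_cast
  ring

/-- real function of eS11 -/
noncomputable def f_eS11 (x y t : ℝ) : ℝ := f_eS10 x y t + qf11 x y * Zg 8 11 (f_eP x y t) (f_eM x y t)

theorem v_eS11 (x y t : ℝ) : val eS11 x y t = 177364687500000000000000000000000000000000000 * (f_eS11 x y t) := by
  simp only [nd3, nd5, nd14, nd15, nd16, nd395, nd425, eS11, v_eW11, v_eS10, v_eq11, val_f, val_h, val_m]
  unfold f_eS11
  push_cast
  ring

theorem v_eB (x y t : ℝ) : val eB x y t = 312500000 * (base (f_eT x y t)) := by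
  simp only [nd3, nd5, nd14, nd15, nd16, nd427, nd428, nd429, nd430, nd431, eB, v_eT, val_f, val_h, val_m]
  unfold base
  push_cast
  ring

/-- real function of eD2 -/
noncomputable def f_eD2 (x y t : ℝ) : ℝ := ((1 - ((2 / 5) * x)) + (1 - ((2 / 5) * y))) - (2 * f_eP x y t)

theorem v_eD2 (x y t : ℝ) : val eD2 x y t = 25 * (f_eD2 x y t) := by
  simp only [nd0, nd1, nd3, nd5, nd14, nd20, nd21, nd433, nd434, nd435, nd436, eD2, v_eP, val_f, val_h, val_m, val_vx, val_vy]
  unfold f_eD2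
  push_cast
  ring

/-- real function of eDd -/
noncomputable def f_eDd (x y t : ℝ) : ℝ := ((1 - ((2 / 5) * x)) * (1 - ((2 / 5) * y))) - (f_eP x y t * f_eP x y t)

theorem v_eDd (x y t : ℝ) : val eDd x y t = 2500 * (f_eDd x y t) := by
  simp only [nd25, eDd, v_eP, v_eM, val_f, val_m]
  unfold f_eDd f_eM f_eP
  push_cast
  ring

/-- real function of eR1 -/
noncomputable def f_eR1 (x y t : ℝ) : ℝ := (1 - x) * (1 - y)

theorem v_eR1 (x y t : ℝ) : val eR1 x y t = 1 * (f_eR1 x y t) := by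
  simp only [nd0, nd1, nd3, nd5, nd439, nd440, eR1, val_f, val_h, val_m, val_vx, val_vy]
  unfold f_eR1
  push_cast
  ring

/-- real function of eR3 -/
noncomputable def f_eR3 (x y t : ℝ) : ℝ := f_eR1 x y t ^ 3

theorem v_eR3 (x y t : ℝ) : val eR3 x y t = 1 * (f_eR3 x y t) := by
  simp only [nd442, eR3, v_eR1, val_m]
  unfold f_eR3
  push_cast
  ring

/-- real function of eK3 -/
noncomputable def f_eK3 (x y t : ℝ) : ℝ := f_eR3 x y t * f_eS11 x y t

theorem v_eK3 (x y t : ℝ) : val eK3 x y t = 177364687500000000000000000000000000000000000 * (f_eK3 x y t) := by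
  simp only [eK3, v_eS11, v_eR3, val_m]
  unfold f_eK3
  push_cast
  ring


theorem KT_eq (x y t : ℝ) : f_eS11 x y t = Kt 11 4 cA x y (f_eP x y t) (f_eM x y t) := by
  rw [Kt_eq]
  simp only [f_eS11, f_eS10, f_eS9, f_eS8, f_eS7, f_eS6, f_eS5, f_eS4, f_eS3, f_eS2, f_eS1]

/-- `T` in the lower chart. -/
noncomputable def TL (x y v : ℝ) : ℝ := -1 / 2 - v * (1 / 2 - 1 / 5 * (x + y) - 2 / 25 * (x * y))

theorem TLx (x y t : ℝ) : f_eT x y t = TL x y t := by
  unfold f_eT TL
  ring

lemma TL_symm (x y v : ℝ) : TL x y v = TL y x v := by unfold TL; ring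

theorem KTx (x y t : ℝ) : f_eS11 x y t = Ktx x y (TL x y t) := by
  rw [KT_eq]
  unfold Ktx f_eP f_eM
  rw [TLx]

theorem K3x (x y t : ℝ) : f_eK3 x y t = K3 x y (TL x y t) := by
  unfold f_eK3 K3 f_eR3 f_eR1
  rw [KTx]
  ring

theorem D2x (x y t : ℝ) : f_eD2 x y t = PG.dd x y (TL x y t) := by
  unfold f_eD2 PG.dd f_eP
  rw [TLx] <;> ring

theorem DDx (x y t : ℝ) : f_eDd x y t = PG.DD x y (TL x y t) := by
  unfold f_eDd PG.DD f_eP
  rw [TLx] <;> ring

end Pool.Agent.Lib.MP_f1379f_gt.FV.CV.L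
end

section
/-!
# programs, chart U
-/
set_option autoImplicit false
set_option linter.unusedVariables false
set_option linter.unusedSimpArgs false
set_option linter.unusedTactic false
set_option linter.style.longLine false
set_option maxRecDepth 100000

namespace Pool.Agent.Lib.MP_f1379f_gt.FV.CK2.U

open Finset Pool.Agent.Lib.MP_f1379f_gt.FV Pool.Agent.Lib.MP_f1379f_gt.FV.BCH Pool.Agent.Lib.MP_f1379f_gt.FV.CK2

/-- node -/
def nd0 : Ex := .v .x
/-- node -/
def nd1 : Ex := .v .y
/-- node -/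
def nd2 : Ex := .v .t
/-- node -/
def nd4 : Ex := .m nd0 nd1
/-- node -/
def nd5 : Ex := .h .x
/-- node -/
def nd6 : Ex := .h .y
/-- node -/
def nd7 : Ex := .m nd5 nd6
/-- node -/
def nd8 : Ex := .m nd2 nd7
/-- node -/
def nd9 : Ex := .h .t
/-- node -/
def nd10 : Ex := .m nd4 nd9
/-- node -/
def eP : Ex := .f 25 nd8 (-2) nd10
/-- node -/
def nd12 : Ex := .f 5 nd5 (-2) nd0
/-- node -/
def nd13 : Ex := .f 5 nd6 (-2) nd1
/-- node -/
def nd14 : Ex := .m nd12 nd13
/-- node -/
def nd15 : Ex := .m nd6 nd9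
/-- node -/
def nd16 : Ex := .m nd5 nd15
/-- node -/
def nd17 : Ex := .m nd9 nd16
/-- node -/
def eM : Ex := .m nd14 nd17
/-- node -/
def nd19 : Ex := .m eP eP
/-- node -/
def eW2 : Ex := .f 8 nd19 (-25) eM
/-- node -/
def nd21 : Ex := .m eP eW2
/-- node -/
def nd22 : Ex := .m eM eP
/-- node -/
def eW3 : Ex := .f 1 nd21 (-35) nd22
/-- node -/
def nd24 : Ex := .m eP eW3
/-- node -/
def nd25 : Ex := .m eM eW2
/-- node -/
def eW4 : Ex := .f 1 nd24 (-5) nd25
/-- node -/
def nd27 : Ex := .m eP eW4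
/-- node -/
def nd28 : Ex := .m eM eW3
/-- node -/
def eW5 : Ex := .f 14 nd27 (-75) nd28
/-- node -/
def nd30 : Ex := .m eP eW5
/-- node -/
def nd31 : Ex := .m eM eW4
/-- node -/
def eW6 : Ex := .f 8 nd30 (-625) nd31
/-- node -/
def nd33 : Ex := .m eP eW6
/-- node -/
def nd34 : Ex := .m eM eW5
/-- node -/
def eW7 : Ex := .f 6 nd33 (-275) nd34
/-- node -/
def nd36 : Ex := .m eP eW7
/-- node -/
def nd37 : Ex := .m eM eW6
/-- node -/
def eW8 : Ex := .f 1 nd36 (-35) nd37
/-- node -/
def nd39 : Ex := .m eP eW8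
/-- node -/
def nd40 : Ex := .m eM eW7
/-- node -/
def eW9 : Ex := .f 11 nd39 (-65) nd40
/-- node -/
def nd42 : Ex := .m eP eW9
/-- node -/
def nd43 : Ex := .m eM eW8
/-- node -/
def eW10 : Ex := .f 8 nd42 (-525) nd43
/-- node -/
def nd45 : Ex := .m eP eW10
/-- node -/
def nd46 : Ex := .m eM eW9
/-- node -/
def eW11 : Ex := .f 13 nd45 (-625) nd46
/-- node -/
def nd48 : Ex := .f 2500 nd6 (-20857) nd1
/-- node -/
def nd49 : Ex := .m nd1 nd1
/-- node -/
def nd50 : Ex := .m nd48 nd6
/-- node -/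
def nd51 : Ex := .f 2 nd50 423087 nd49
/-- node -/
def nd52 : Ex := .m nd49 nd1
/-- node -/
def nd53 : Ex := .m nd51 nd6
/-- node -/
def nd54 : Ex := .f 2 nd53 (-772651) nd52
/-- node -/
def nd55 : Ex := .f (-975742602500) nd6 8234999634137 nd1
/-- node -/
def nd56 : Ex := .m nd55 nd6
/-- node -/
def nd57 : Ex := .f 2 nd56 (-167206038588867) nd49
/-- node -/
def nd58 : Ex := .m nd57 nd6
/-- node -/
def nd59 : Ex := .f 2 nd58 305669510323091 nd52
/-- node -/
def nd60 : Ex := .m nd0 nd59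
/-- node -/
def nd61 : Ex := .m nd54 nd5
/-- node -/
def nd62 : Ex := .f 46782500 nd61 1 nd60
/-- node -/
def nd63 : Ex := .f 6597689192500 nd6 (-55735346196289) nd1
/-- node -/
def nd64 : Ex := .m nd63 nd6
/-- node -/
def nd65 : Ex := .f 25 nd64 14163705754374127 nd49
/-- node -/
def nd66 : Ex := .m nd65 nd6
/-- node -/
def nd67 : Ex := .f 4 nd66 (-51839534029428137) nd52
/-- node -/
def nd68 : Ex := .m nd0 nd0
/-- node -/
def nd69 : Ex := .m nd68 nd67
/-- node -/
def nd70 : Ex := .m nd62 nd5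
/-- node -/
def nd71 : Ex := .f 50 nd70 3 nd69
/-- node -/
def nd72 : Ex := .f (-36146545407500) nd6 305669510323091 nd1
/-- node -/
def nd73 : Ex := .m nd72 nd6
/-- node -/
def nd74 : Ex := .f 50 nd73 (-155518602088284411) nd49
/-- node -/
def nd75 : Ex := .m nd74 nd6
/-- node -/
def nd76 : Ex := .f 1 nd75 142440765726861799 nd52
/-- node -/
def nd77 : Ex := .m nd68 nd0
/-- node -/
def nd78 : Ex := .m nd77 nd76
/-- node -/
def nd79 : Ex := .m nd71 nd5
/-- node -/
def eq0 : Ex := .f 1 nd79 1 nd78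
/-- node -/
def nd81 : Ex := .m eq0 nd16
/-- node -/
def nd82 : Ex := .f 2000 nd6 4381 nd1
/-- node -/
def nd83 : Ex := .m nd82 nd6
/-- node -/
def nd84 : Ex := .f 5 nd83 142063 nd49
/-- node -/
def nd85 : Ex := .m nd84 nd6
/-- node -/
def nd86 : Ex := .f 1 nd85 (-154521) nd52
/-- node -/
def nd87 : Ex := .f 195218012777762000 nd6 589997564391927661 nd1
/-- node -/
def nd88 : Ex := .m nd87 nd6
/-- node -/
def nd89 : Ex := .f 5 nd88 12997691801260514143 nd49
/-- node -/
def nd90 : Ex := .m nd89 nd6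
/-- node -/
def nd91 : Ex := .f 1 nd90 (-13578341181388228521) nd52
/-- node -/
def nd92 : Ex := .m nd0 nd91
/-- node -/
def nd93 : Ex := .m nd86 nd5
/-- node -/
def nd94 : Ex := .f 44560149002000 nd93 1 nd92
/-- node -/
def nd95 : Ex := .f 6330348447671126000 nd6 12997691801260514143 nd1
/-- node -/
def nd96 : Ex := .m nd95 nd6
/-- node -/
def nd97 : Ex := .f 125 nd96 11537928527581653711901 nd49
/-- node -/
def nd98 : Ex := .m nd97 nd6
/-- node -/
def nd99 : Ex := .f 1 nd98 (-12959632449930412629243) nd52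
/-- node -/
def nd100 : Ex := .m nd68 nd99
/-- node -/
def nd101 : Ex := .m nd94 nd5
/-- node -/
def nd102 : Ex := .f 125 nd101 1 nd100
/-- node -/
def nd103 : Ex := .f (-765053198215338000) nd6 (-1508704575709803169) nd1
/-- node -/
def nd104 : Ex := .m nd103 nd6
/-- node -/
def nd105 : Ex := .f 125 nd104 (-1439959161103379181027) nd49
/-- node -/
def nd106 : Ex := .m nd105 nd6
/-- node -/
def nd107 : Ex := .f 3 nd106 5073828615442623232783 nd52
/-- node -/
def nd108 : Ex := .m nd77 nd107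
/-- node -/
def nd109 : Ex := .m nd102 nd5
/-- node -/
def eq1 : Ex := .f 1 nd109 3 nd108
/-- node -/
def nd111 : Ex := .m eq1 eP
/-- node -/
def eS1 : Ex := .f 1024000 nd81 1 nd111
/-- node -/
def nd113 : Ex := .m eS1 nd16
/-- node -/
def nd114 : Ex := .f 625 nd6 1466 nd1
/-- node -/
def nd115 : Ex := .m nd114 nd6
/-- node -/
def nd116 : Ex := .f 16 nd115 220405 nd49
/-- node -/
def nd117 : Ex := .m nd116 nd6
/-- node -/
def nd118 : Ex := .f 1 nd117 (-187205) nd52
/-- node -/
def nd119 : Ex := .f 812814115566875 nd6 4232456523233662 nd1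
/-- node -/
def nd120 : Ex := .m nd119 nd6
/-- node -/
def nd121 : Ex := .f 16 nd120 29431485859885511 nd49
/-- node -/
def nd122 : Ex := .m nd121 nd6
/-- node -/
def nd123 : Ex := .f 1 nd122 12688302032006345 nd52
/-- node -/
def nd124 : Ex := .m nd0 nd123
/-- node -/
def nd125 : Ex := .m nd118 nd5
/-- node -/
def nd126 : Ex := .f 1108886924375 nd125 2 nd124
/-- node -/
def nd127 : Ex := .f 244404222566871875 nd6 58862971719771022 nd1
/-- node -/
def nd128 : Ex := .m nd127 nd6
/-- node -/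
def nd129 : Ex := .f 10000 nd128 97603839771759338857247 nd49
/-- node -/
def nd130 : Ex := .m nd129 nd6
/-- node -/
def nd131 : Ex := .f 1 nd130 (-90364750826130390131215) nd52
/-- node -/
def nd132 : Ex := .m nd68 nd131
/-- node -/
def nd133 : Ex := .m nd126 nd5
/-- node -/
def nd134 : Ex := .f 10000 nd133 1 nd132
/-- node -/
def nd135 : Ex := .f (-41517835335524375) nd6 5075320812802538 nd1
/-- node -/
def nd136 : Ex := .m nd135 nd6
/-- node -/
def nd137 : Ex := .f 10000 nd136 (-18072950165226078026243) nd49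
/-- node -/
def nd138 : Ex := .m nd137 nd6
/-- node -/
def nd139 : Ex := .f 5 nd138 84634086066852363755519 nd52
/-- node -/
def nd140 : Ex := .m nd77 nd139
/-- node -/
def nd141 : Ex := .m nd134 nd5
/-- node -/
def eq2 : Ex := .f 1 nd141 1 nd140
/-- node -/
def nd143 : Ex := .m eq2 eW2
/-- node -/
def eS2 : Ex := .f 175 nd113 1 nd143
/-- node -/
def nd145 : Ex := .m eS2 nd16
/-- node -/
def nd146 : Ex := .f 2500 nd6 7889 nd1
/-- node -/
def nd147 : Ex := .m nd146 nd6
/-- node -/
def nd148 : Ex := .f 2 nd147 91121 nd49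
/-- node -/
def nd149 : Ex := .m nd148 nd6
/-- node -/
def nd150 : Ex := .f 2 nd149 (-138465) nd52
/-- node -/
def nd151 : Ex := .f 2548858692901202500 nd6 8207642118583034609 nd1
/-- node -/
def nd152 : Ex := .m nd151 nd6
/-- node -/
def nd153 : Ex := .f 2 nd152 88789210826251152401 nd49
/-- node -/
def nd154 : Ex := .m nd153 nd6
/-- node -/
def nd155 : Ex := .f 2 nd154 (-126116547623435780865) nd52
/-- node -/
def nd156 : Ex := .m nd0 nd155
/-- node -/
def nd157 : Ex := .m nd150 nd5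
/-- node -/
def nd158 : Ex := .f 323090213322500 nd157 1 nd156
/-- node -/
def nd159 : Ex := .f 29440303328159522500 nd6 88789210826251152401 nd1
/-- node -/
def nd160 : Ex := .m nd159 nd6
/-- node -/
def nd161 : Ex := .f 50 nd160 34973454519689880297929 nd49
/-- node -/
def nd162 : Ex := .m nd161 nd6
/-- node -/
def nd163 : Ex := .f 2 nd162 (-58355014374179807553849) nd52
/-- node -/
def nd164 : Ex := .m nd68 nd163
/-- node -/
def nd165 : Ex := .m nd158 nd5
/-- node -/
def nd166 : Ex := .f 50 nd165 1 nd164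
/-- node -/
def nd167 : Ex := .f (-994148586393332500) nd6 (-2802589947187461797) nd1
/-- node -/
def nd168 : Ex := .m nd167 nd6
/-- node -/
def nd169 : Ex := .f 750 nd168 (-19451671458059935851283) nd49
/-- node -/
def nd170 : Ex := .m nd169 nd6
/-- node -/
def nd171 : Ex := .f 2 nd170 36137952976329907421667 nd52
/-- node -/
def nd172 : Ex := .m nd77 nd171
/-- node -/
def nd173 : Ex := .m nd166 nd5
/-- node -/
def eq3 : Ex := .f 2 nd173 3 nd172
/-- node -/
def nd175 : Ex := .m eq3 eW3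
/-- node -/
def eS3 : Ex := .f 20 nd145 1 nd175
/-- node -/
def nd177 : Ex := .m eS3 nd16
/-- node -/
def nd178 : Ex := .f 5000 nd6 16687 nd1
/-- node -/
def nd179 : Ex := .m nd178 nd6
/-- node -/
def nd180 : Ex := .f 1 nd179 120996 nd49
/-- node -/
def nd181 : Ex := .m nd180 nd6
/-- node -/
def nd182 : Ex := .f 1 nd181 (-67864) nd52
/-- node -/
def nd183 : Ex := .f 55966682736965000 nd6 189976183145546991 nd1
/-- node -/
def nd184 : Ex := .m nd183 nd6
/-- node -/
def nd185 : Ex := .f 1 nd184 1312500525893296548 nd49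
/-- node -/
def nd186 : Ex := .m nd185 nd6
/-- node -/
def nd187 : Ex := .f 1 nd186 (-686144949937966872) nd52
/-- node -/
def nd188 : Ex := .m nd0 nd187
/-- node -/
def nd189 : Ex := .m nd182 nd5
/-- node -/
def nd190 : Ex := .f 3353909195000 nd189 1 nd188
/-- node -/
def nd191 : Ex := .f 33817466413185000 nd6 109375043824441379 nd1
/-- node -/
def nd192 : Ex := .m nd191 nd6
/-- node -/
def nd193 : Ex := .f 2125 nd192 1836461765613761808964 nd49
/-- node -/
def nd194 : Ex := .m nd193 nd6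
/-- node -/
def nd195 : Ex := .f 1 nd194 (-1146353429316278002904) nd52
/-- node -/
def nd196 : Ex := .m nd68 nd195
/-- node -/
def nd197 : Ex := .m nd190 nd5
/-- node -/
def nd198 : Ex := .f 2125 nd197 12 nd196
/-- node -/
def nd199 : Ex := .f (-1673600688305000) nd6 (-5045183455426227) nd1
/-- node -/
def nd200 : Ex := .m nd199 nd6
/-- node -/
def nd201 : Ex := .f 36125 nd200 (-1719530143974417004356) nd49
/-- node -/
def nd202 : Ex := .m nd201 nd6
/-- node -/
def nd203 : Ex := .f 1 nd202 1270658376626592944344 nd52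
/-- node -/
def nd204 : Ex := .m nd77 nd203
/-- node -/
def nd205 : Ex := .m nd198 nd5
/-- node -/
def eq4 : Ex := .f 1 nd205 8 nd204
/-- node -/
def nd207 : Ex := .m eq4 eW4
/-- node -/
def eS4 : Ex := .f 25 nd177 16 nd207
/-- node -/
def nd209 : Ex := .m eS4 nd16
/-- node -/
def nd210 : Ex := .f 10000 nd6 36197 nd1
/-- node -/
def nd211 : Ex := .m nd210 nd6
/-- node -/
def nd212 : Ex := .f 1 nd211 286708 nd49
/-- node -/
def nd213 : Ex := .m nd212 nd6
/-- node -/
def nd214 : Ex := .f 1 nd213 (-73957) nd52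
/-- node -/
def nd215 : Ex := .f 9680304408100970000 nd6 41261628435987081109 nd1
/-- node -/
def nd216 : Ex := .m nd215 nd6
/-- node -/
def nd217 : Ex := .f 1 nd216 192892200169977975476 nd49
/-- node -/
def nd218 : Ex := .m nd217 nd6
/-- node -/
def nd219 : Ex := .f 1 nd218 33808293459821608171 nd52
/-- node -/
def nd220 : Ex := .m nd0 nd219
/-- node -/
def nd221 : Ex := .m nd214 nd5
/-- node -/
def nd222 : Ex := .f 267433887010000 nd221 1 nd220
/-- node -/
def nd223 : Ex := .f 19168858719215770000 nd6 48223050042494493869 nd1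
/-- node -/
def nd224 : Ex := .m nd223 nd6
/-- node -/
def nd225 : Ex := .f 25 nd224 20940283207822276489716 nd49
/-- node -/
def nd226 : Ex := .m nd225 nd6
/-- node -/
def nd227 : Ex := .f 1 nd226 (-12509048071215504886885) nd52
/-- node -/
def nd228 : Ex := .m nd68 nd227
/-- node -/
def nd229 : Ex := .m nd222 nd5
/-- node -/
def nd230 : Ex := .f 25 nd229 4 nd228
/-- node -/
def nd231 : Ex := .f (-19778607981598570000) nd6 33808293459821608171 nd1
/-- node -/
def nd232 : Ex := .m nd231 nd6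
/-- node -/
def nd233 : Ex := .f 5 nd232 (-10007238456972403909508) nd49
/-- node -/
def nd234 : Ex := .m nd233 nd6
/-- node -/
def nd235 : Ex := .f 1 nd234 9660755457976424866025 nd52
/-- node -/
def nd236 : Ex := .m nd77 nd235
/-- node -/
def nd237 : Ex := .m nd230 nd5
/-- node -/
def eq5 : Ex := .f 1 nd237 5 nd236
/-- node -/
def nd239 : Ex := .m eq5 eW5
/-- node -/
def eS5 : Ex := .f 125 nd209 4 nd239
/-- node -/
def nd241 : Ex := .m eS5 nd16
/-- node -/
def nd242 : Ex := .f 10000 nd6 34573 nd1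
/-- node -/
def nd243 : Ex := .m nd242 nd6
/-- node -/
def nd244 : Ex := .f 1 nd243 389452 nd49
/-- node -/
def nd245 : Ex := .m nd244 nd6
/-- node -/
def nd246 : Ex := .f 1 nd245 16972 nd52
/-- node -/
def nd247 : Ex := .f 754263337335970000 nd6 2850115146123649081 nd1
/-- node -/
def nd248 : Ex := .m nd247 nd6
/-- node -/
def nd249 : Ex := .f 1 nd248 25933018964255385244 nd49
/-- node -/
def nd250 : Ex := .m nd249 nd6
/-- node -/
def nd251 : Ex := .f 1 nd250 7154203053742429084 nd52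
/-- node -/
def nd252 : Ex := .m nd0 nd251
/-- node -/
def nd253 : Ex := .m nd246 nd5
/-- node -/
def nd254 : Ex := .f 21816542890000 nd253 1 nd252
/-- node -/
def nd255 : Ex := .f 2124124065399070000 nd6 6483254741063846311 nd1
/-- node -/
def nd256 : Ex := .m nd255 nd6
/-- node -/
def nd257 : Ex := .f 25 nd256 2374001049172814549828 nd49
/-- node -/
def nd258 : Ex := .m nd257 nd6
/-- node -/
def nd259 : Ex := .f 1 nd258 (-431585277539152394684) nd52
/-- node -/
def nd260 : Ex := .m nd68 nd259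
/-- node -/
def nd261 : Ex := .m nd254 nd5
/-- node -/
def nd262 : Ex := .f 25 nd261 4 nd260
/-- node -/
def nd263 : Ex := .f 92567591482270000 nd6 1788550763435607271 nd1
/-- node -/
def nd264 : Ex := .m nd263 nd6
/-- node -/
def nd265 : Ex := .f 25 nd264 (-431585277539152394684) nd49
/-- node -/
def nd266 : Ex := .m nd265 nd6
/-- node -/
def nd267 : Ex := .f 15 nd266 13409833517276071686908 nd52
/-- node -/
def nd268 : Ex := .m nd77 nd267
/-- node -/
def nd269 : Ex := .m nd262 nd5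
/-- node -/
def eq6 : Ex := .f 15 nd269 4 nd268
/-- node -/
def nd271 : Ex := .m eq6 eW6
/-- node -/
def eS6 : Ex := .f 275 nd241 4 nd271
/-- node -/
def nd273 : Ex := .m eS6 nd16
/-- node -/
def nd274 : Ex := .f 1250 nd6 2849 nd1
/-- node -/
def nd275 : Ex := .m nd274 nd6
/-- node -/
def nd276 : Ex := .f 2 nd275 153321 nd49
/-- node -/
def nd277 : Ex := .m nd276 nd6
/-- node -/
def nd278 : Ex := .f 4 nd277 311955 nd52
/-- node -/
def nd279 : Ex := .f 7175107401096250 nd6 154050012231778573 nd1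
/-- node -/
def nd280 : Ex := .m nd279 nd6
/-- node -/
def nd281 : Ex := .f 2 nd280 (-2686511683017495243) nd49
/-- node -/
def nd282 : Ex := .m nd281 nd6
/-- node -/
def nd283 : Ex := .f 4 nd282 21590855487749571735 nd52
/-- node -/
def nd284 : Ex := .m nd0 nd283
/-- node -/
def nd285 : Ex := .m nd278 nd5
/-- node -/
def nd286 : Ex := .f 2518465216250 nd285 1 nd284
/-- node -/
def nd287 : Ex := .f 128711201806888750 nd6 (-895503894339165081) nd1
/-- node -/
def nd288 : Ex := .m nd287 nd6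
/-- node -/
def nd289 : Ex := .f 250 nd288 5823197120977252340707 nd49
/-- node -/
def nd290 : Ex := .m nd289 nd6
/-- node -/
def nd291 : Ex := .f 4 nd290 (-17354303888778183078415) nd52
/-- node -/
def nd292 : Ex := .m nd68 nd291
/-- node -/
def nd293 : Ex := .m nd286 nd5
/-- node -/
def nd294 : Ex := .f 250 nd293 3 nd292
/-- node -/
def nd295 : Ex := .f 52376521102351250 nd6 1439390365849971449 nd1
/-- node -/
def nd296 : Ex := .m nd295 nd6
/-- node -/
def nd297 : Ex := .f 250 nd296 (-3470860777755636615683) nd49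
/-- node -/
def nd298 : Ex := .m nd297 nd6
/-- node -/
def nd299 : Ex := .f 20 nd298 126802957894217127009387 nd52
/-- node -/
def nd300 : Ex := .m nd77 nd299
/-- node -/
def nd301 : Ex := .m nd294 nd5
/-- node -/
def eq7 : Ex := .f 4 nd301 3 nd300
/-- node -/
def nd303 : Ex := .m eq7 eW7
/-- node -/
def eS7 : Ex := .f 25 nd273 1 nd303
/-- node -/
def nd305 : Ex := .m eS7 nd16
/-- node -/
def nd306 : Ex := .m nd1 nd6
/-- node -/
def nd307 : Ex := .f 2000 nd306 (-32049) nd49
/-- node -/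
def nd308 : Ex := .m nd307 nd6
/-- node -/
def nd309 : Ex := .f 5 nd308 182219 nd52
/-- node -/
def nd310 : Ex := .m nd0 nd309
/-- node -/
def nd311 : Ex := .f (-280325103534000) nd306 4541329199020583 nd49
/-- node -/
def nd312 : Ex := .m nd311 nd6
/-- node -/
def nd313 : Ex := .f 5 nd312 (-28684149401595373) nd52
/-- node -/
def nd314 : Ex := .m nd68 nd313
/-- node -/
def nd315 : Ex := .m nd310 nd5
/-- node -/
def nd316 : Ex := .f 8746766000 nd315 1 nd314
/-- node -/
def nd317 : Ex := .f 227689564822000 nd306 (-4097735628799339) nd49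
/-- node -/
def nd318 : Ex := .m nd317 nd6
/-- node -/
def nd319 : Ex := .f 5 nd318 49408911488916426 nd52
/-- node -/
def nd320 : Ex := .m nd77 nd319
/-- node -/
def nd321 : Ex := .m nd316 nd5
/-- node -/
def eq8 : Ex := .f 5 nd321 7 nd320
/-- node -/
def nd323 : Ex := .m eq8 eW8
/-- node -/
def eS8 : Ex := .f 13 nd305 1474560 nd323
/-- node -/
def nd325 : Ex := .m eS8 nd16
/-- node -/
def nd326 : Ex := .f 5000 nd6 429553 nd1
/-- node -/
def nd327 : Ex := .m nd326 nd6
/-- node -/
def nd328 : Ex := .f 2 nd327 (-12581665) nd49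
/-- node -/
def nd329 : Ex := .m nd328 nd6
/-- node -/
def nd330 : Ex := .f 1 nd329 12288160 nd52
/-- node -/
def nd331 : Ex := .f 6605513542685000 nd6 1641375615120193961 nd1
/-- node -/
def nd332 : Ex := .m nd331 nd6
/-- node -/
def nd333 : Ex := .f 2 nd332 (-48227601450070006105) nd49
/-- node -/
def nd334 : Ex := .m nd333 nd6
/-- node -/
def nd335 : Ex := .f 1 nd334 80417653185206485920 nd52
/-- node -/
def nd336 : Ex := .m nd0 nd335
/-- node -/
def nd337 : Ex := .m nd330 nd5
/-- node -/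
def nd338 : Ex := .f 15377645000 nd337 1 nd336
/-- node -/
def nd339 : Ex := .f (-38695275575785000) nd6 (-9645520290014001221) nd1
/-- node -/
def nd340 : Ex := .m nd339 nd6
/-- node -/
def nd341 : Ex := .f 350 nd340 49596969673693632495419 nd49
/-- node -/
def nd342 : Ex := .m nd341 nd6
/-- node -/
def nd343 : Ex := .f 1 nd342 (-82763582126201822398688) nd52
/-- node -/
def nd344 : Ex := .m nd68 nd343
/-- node -/
def nd345 : Ex := .m nd338 nd5
/-- node -/
def nd346 : Ex := .f 70 nd345 1 nd344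
/-- node -/
def nd347 : Ex := .f 1181018513645000 nd6 502610332407540537 nd1
/-- node -/
def nd348 : Ex := .m nd347 nd6
/-- node -/
def nd349 : Ex := .f 350 nd348 (-2586361941443806949959) nd49
/-- node -/
def nd350 : Ex := .m nd349 nd6
/-- node -/
def nd351 : Ex := .f 1 nd350 4744109718382010063968 nd52
/-- node -/
def nd352 : Ex := .m nd77 nd351
/-- node -/
def nd353 : Ex := .m nd346 nd5
/-- node -/
def eq9 : Ex := .f 1 nd353 32 nd352
/-- node -/
def nd355 : Ex := .m eq9 eW9
/-- node -/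
def eS9 : Ex := .f 175 nd325 4 nd355
/-- node -/
def nd357 : Ex := .m eS9 nd16
/-- node -/
def nd358 : Ex := .f 625 nd6 5826 nd1
/-- node -/
def nd359 : Ex := .m nd358 nd6
/-- node -/
def nd360 : Ex := .f 8 nd359 (-49207) nd49
/-- node -/
def nd361 : Ex := .m nd360 nd6
/-- node -/
def nd362 : Ex := .f 1 nd361 (-2877) nd52
/-- node -/
def nd363 : Ex := .f 1162297335688125 nd6 30662303535550426 nd1
/-- node -/
def nd364 : Ex := .m nd363 nd6
/-- node -/
def nd365 : Ex := .f 8 nd364 (-2223619706679494347) nd49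
/-- node -/
def nd366 : Ex := .m nd365 nd6
/-- node -/
def nd367 : Ex := .f 1 nd366 2848430016483394023 nd52
/-- node -/
def nd368 : Ex := .m nd0 nd367
/-- node -/
def nd369 : Ex := .m nd362 nd5
/-- node -/
def nd370 : Ex := .f 399003548125 nd369 2 nd368
/-- node -/
def nd371 : Ex := .f (-2804823941798125) nd6 (-635319916194141242) nd1
/-- node -/
def nd372 : Ex := .m nd371 nd6
/-- node -/
def nd373 : Ex := .f 1000 nd372 8217343195310712943151 nd49
/-- node -/
def nd374 : Ex := .m nd373 nd6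
/-- node -/
def nd375 : Ex := .f 1 nd374 (-10960347187053167116315) nd52
/-- node -/
def nd376 : Ex := .m nd68 nd375
/-- node -/
def nd377 : Ex := .m nd370 nd5
/-- node -/
def nd378 : Ex := .f 1000 nd377 7 nd376
/-- node -/
def nd379 : Ex := .f (-382644402651875) nd6 1898953344322262682 nd1
/-- node -/
def nd380 : Ex := .m nd379 nd6
/-- node -/
def nd381 : Ex := .f 600 nd380 (-15344486061874433962841) nd49
/-- node -/
def nd382 : Ex := .m nd381 nd6
/-- node -/
def nd383 : Ex := .f 5 nd382 102708859080822374328897 nd52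
/-- node -/
def nd384 : Ex := .m nd77 nd383
/-- node -/
def nd385 : Ex := .m nd378 nd5
/-- node -/
def eq10 : Ex := .f 1 nd385 1 nd384
/-- node -/
def nd387 : Ex := .m eq10 eW10
/-- node -/
def eS10 : Ex := .f 625 nd357 16 nd387
/-- node -/
def nd389 : Ex := .m eS10 nd16
/-- node -/
def nd390 : Ex := .f 2000 nd6 18697 nd1
/-- node -/
def nd391 : Ex := .m nd390 nd6
/-- node -/
def nd392 : Ex := .f 5 nd391 (-115833) nd49
/-- node -/
def nd393 : Ex := .m nd392 nd6
/-- node -/
def nd394 : Ex := .f 1 nd393 822383 nd52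
/-- node -/
def nd395 : Ex := .f 4259797078642000 nd6 44549649524724737 nd1
/-- node -/
def nd396 : Ex := .m nd395 nd6
/-- node -/
def nd397 : Ex := .f 5 nd396 (-547908206581383153) nd49
/-- node -/
def nd398 : Ex := .m nd397 nd6
/-- node -/
def nd399 : Ex := .f 1 nd398 2150715963735059383 nd52
/-- node -/
def nd400 : Ex := .m nd0 nd399
/-- node -/
def nd401 : Ex := .m nd394 nd5
/-- node -/
def nd402 : Ex := .f 227833186000 nd401 1 nd400
/-- node -/
def nd403 : Ex := .f (-8796867144646000) nd6 (-182636068860461051) nd1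
/-- node -/
def nd404 : Ex := .m nd403 nd6
/-- node -/
def nd405 : Ex := .f 375 nd404 519943634244118368761 nd49
/-- node -/
def nd406 : Ex := .m nd405 nd6
/-- node -/
def nd407 : Ex := .f 1 nd406 (-908461174853026450159) nd52
/-- node -/
def nd408 : Ex := .m nd68 nd407
/-- node -/
def nd409 : Ex := .m nd402 nd5
/-- node -/
def nd410 : Ex := .f 125 nd409 1 nd408
/-- node -/
def nd411 : Ex := .f 187366139002238000 nd6 2150715963735059383 nd1
/-- node -/
def nd412 : Ex := .m nd411 nd6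
/-- node -/
def nd413 : Ex := .f 125 nd412 (-908461174853026450159) nd49
/-- node -/
def nd414 : Ex := .m nd413 nd6
/-- node -/
def nd415 : Ex := .f 5 nd414 13847925136041542483469 nd52
/-- node -/
def nd416 : Ex := .m nd77 nd415
/-- node -/
def nd417 : Ex := .m nd410 nd5
/-- node -/
def eq11 : Ex := .f 5 nd417 1 nd416
/-- node -/
def nd419 : Ex := .m eq11 eW11
/-- node -/
def eS11 : Ex := .f 25 nd389 2 nd419
/-- node -/
def nd421 : Ex := .f 1 nd2 1 nd9
/-- node -/
def nd422 : Ex := .f 2 nd2 1 nd9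
/-- node -/
def nd423 : Ex := .m nd422 nd422
/-- node -/
def nd424 : Ex := .m nd421 nd423
/-- node -/
def nd425 : Ex := .m nd2 nd2
/-- node -/
def eB : Ex := .m nd424 nd425
/-- node -/
def nd427 : Ex := .m nd12 nd6
/-- node -/
def nd428 : Ex := .m nd13 nd5
/-- node -/
def nd429 : Ex := .f 1 nd427 1 nd428
/-- node -/
def nd430 : Ex := .m nd429 nd9
/-- node -/
def eD2 : Ex := .f 5 nd430 (-2) eP
/-- node -/
def eDd : Ex := .f 25 eM (-1) nd19
/-- node -/
def nd433 : Ex := .f 1 nd5 (-1) nd0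
/-- node -/
def nd434 : Ex := .f 1 nd6 (-1) nd1
/-- node -/
def eR1 : Ex := .m nd433 nd434
/-- node -/
def nd436 : Ex := .m eR1 eR1
/-- node -/
def eR3 : Ex := .m nd436 eR1
/-- node -/
def eK3 : Ex := .m eR3 eS11

/-- real function of eP -/
noncomputable def f_eP (x y t : ℝ) : ℝ := t - (((2 / 25) * x) * y)

theorem v_eP (x y t : ℝ) : val eP x y t = 25 * (f_eP x y t) := by
  simp only [nd0, nd1, nd2, nd4, nd5, nd6, nd7, nd8, nd9, nd10, eP, val_f, val_h, val_m, val_vt, val_vx, val_vy]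
  unfold f_eP
  push_cast
  ring

/-- real function of eM -/
noncomputable def f_eM (x y t : ℝ) : ℝ := (1 - ((2 / 5) * x)) * (1 - ((2 / 5) * y))

theorem v_eM (x y t : ℝ) : val eM x y t = 25 * (f_eM x y t) := by
  simp only [nd0, nd1, nd5, nd6, nd9, nd12, nd13, nd14, nd15, nd16, nd17, eM, val_f, val_h, val_m, val_vx, val_vy]
  unfold f_eM
  push_cast
  ring

theorem v_eW2 (x y t : ℝ) : val eW2 x y t = 4375 * (Zg 8 2 (f_eP x y t) (f_eM x y t)) := by
  simp only [nd19, eW2, v_eP, v_eM, val_f, val_m]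
  rw [zg_2]
  rw [zg_0, zg_1]
  push_cast
  ring

theorem v_eW3 (x y t : ℝ) : val eW3 x y t = 87500 * (Zg 8 3 (f_eP x y t) (f_eM x y t)) := by
  simp only [nd21, nd22, eW3, v_eP, v_eM, v_eW2, val_f, val_m]
  rw [zg_3]
  rw [zg_1]
  push_cast
  ring

theorem v_eW4 (x y t : ℝ) : val eW4 x y t = 1640625 * (Zg 8 4 (f_eP x y t) (f_eM x y t)) := by
  simp only [nd24, nd25, eW4, v_eP, v_eM, v_eW2, v_eW3, val_f, val_m]
  rw [zg_4]
  push_cast
  ring

theorem v_eW5 (x y t : ℝ) : val eW5 x y t = 410156250 * (Zg 8 5 (f_eP x y t) (f_eM x y t)) := by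
  simp only [nd27, nd28, eW5, v_eP, v_eM, v_eW3, v_eW4, val_f, val_m]
  rw [zg_5]
  push_cast
  ring

theorem v_eW6 (x y t : ℝ) : val eW6 x y t = 56396484375 * (Zg 8 6 (f_eP x y t) (f_eM x y t)) := by
  simp only [nd30, nd31, eW6, v_eP, v_eM, v_eW4, v_eW5, val_f, val_m]
  rw [zg_6]
  push_cast
  ring

theorem v_eW7 (x y t : ℝ) : val eW7 x y t = 5639648437500 * (Zg 8 7 (f_eP x y t) (f_eM x y t)) := by
  simp only [nd33, nd34, eW7, v_eP, v_eM, v_eW5, v_eW6, val_f, val_m]
  rw [zg_7]
  push_cast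
  ring

theorem v_eW8 (x y t : ℝ) : val eW8 x y t = 91644287109375 * (Zg 8 8 (f_eP x y t) (f_eM x y t)) := by
  simp only [nd36, nd37, eW8, v_eP, v_eM, v_eW6, v_eW7, val_f, val_m]
  rw [zg_8]
  push_cast
  ring

theorem v_eW9 (x y t : ℝ) : val eW9 x y t = 16037750244140625 * (Zg 8 9 (f_eP x y t) (f_eM x y t)) := by
  simp only [nd39, nd40, eW9, v_eP, v_eM, v_eW7, v_eW8, val_f, val_m]
  rw [zg_9]
  push_cast
  ring

theorem v_eW10 (x y t : ℝ) : val eW10 x y t = 2004718780517578125 * (Zg 8 10 (f_eP x y t) (f_eM x y t)) := by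
  simp only [nd42, nd43, eW10, v_eP, v_eM, v_eW8, v_eW9, val_f, val_m]
  rw [zg_10]
  push_cast
  ring

theorem v_eW11 (x y t : ℝ) : val eW11 x y t = 400943756103515625000 * (Zg 8 11 (f_eP x y t) (f_eM x y t)) := by
  simp only [nd45, nd46, eW11, v_eP, v_eM, v_eW9, v_eW10, val_f, val_m]
  rw [zg_11]
  push_cast
  ring

theorem v_eq0 (x y t : ℝ) : val eq0 x y t = 300000000000000000 * (qf0 x y) := by
  simp only [nd0, nd1, nd5, nd6, nd48, nd49, nd50, nd51, nd52, nd53, nd54, nd55, nd56, nd57, nd58, nd59, nd60, nd61, nd62, nd63, nd64, nd65, nd66, nd67, nd68, nd69, nd70, nd71, nd72, nd73, nd74, nd75, nd76, nd77, nd78, nd79, eq0, val_f, val_h, val_m, val_vx, val_vy]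
  unfold qf0
  push_cast
  ring

theorem v_eq1 (x y t : ℝ) : val eq1 x y t = 12288000000000000000000 * (qf1 x y) := by
  simp only [nd0, nd1, nd5, nd6, nd49, nd52, nd68, nd77, nd82, nd83, nd84, nd85, nd86, nd87, nd88, nd89, nd90, nd91, nd92, nd93, nd94, nd95, nd96, nd97, nd98, nd99, nd100, nd101, nd102, nd103, nd104, nd105, nd106, nd107, nd108, nd109, eq1, val_f, val_h, val_m, val_vx, val_vy]
  unfold qf1
  push_cast
  ring

/-- real function of eS1 -/
noncomputable def f_eS1 (x y t : ℝ) : ℝ := qf0 x y * Zg 8 0 (f_eP x y t) (f_eM x y t) + qf1 x y * Zg 8 1 (f_eP x y t) (f_eM x y t)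

theorem v_eS1 (x y t : ℝ) : val eS1 x y t = 307200000000000000000000 * (f_eS1 x y t) := by
  simp only [nd5, nd6, nd9, nd15, nd16, nd81, nd111, eS1, v_eP, v_eq0, v_eq1, val_f, val_h, val_m]
  unfold f_eS1
  rw [zg_0, zg_1]
  push_cast
  ring

theorem v_eq2 (x y t : ℝ) : val eq2 x y t = 12288000000000000000000 * (qf2 x y) := by
  simp only [nd0, nd1, nd5, nd6, nd49, nd52, nd68, nd77, nd114, nd115, nd116, nd117, nd118, nd119, nd120, nd121, nd122, nd123, nd124, nd125, nd126, nd127, nd128, nd129, nd130, nd131, nd132, nd133, nd134, nd135, nd136, nd137, nd138, nd139, nd140, nd141, eq2, val_f, val_h, val_m, val_vx, val_vy]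
  unfold qf2
  push_cast
  ring

/-- real function of eS2 -/
noncomputable def f_eS2 (x y t : ℝ) : ℝ := f_eS1 x y t + qf2 x y * Zg 8 2 (f_eP x y t) (f_eM x y t)

theorem v_eS2 (x y t : ℝ) : val eS2 x y t = 53760000000000000000000000 * (f_eS2 x y t) := by
  simp only [nd5, nd6, nd9, nd15, nd16, nd113, nd143, eS2, v_eW2, v_eS1, v_eq2, val_f, val_h, val_m]
  unfold f_eS2
  push_cast
  ring

theorem v_eq3 (x y t : ℝ) : val eq3 x y t = 12288000000000000000000 * (qf3 x y) := by
  simp only [nd0, nd1, nd5, nd6, nd49, nd52, nd68, nd77, nd146, nd147, nd148, nd149, nd150, nd151, nd152, nd153, nd154, nd155, nd156, nd157, nd158, nd159, nd160, nd161, nd162, nd163, nd164, nd165, nd166, nd167, nd168, nd169, nd170, nd171, nd172, nd173, eq3, val_f, val_h, val_m, val_vx, val_vy]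
  unfold qf3
  push_cast
  ring

/-- real function of eS3 -/
noncomputable def f_eS3 (x y t : ℝ) : ℝ := f_eS2 x y t + qf3 x y * Zg 8 3 (f_eP x y t) (f_eM x y t)

theorem v_eS3 (x y t : ℝ) : val eS3 x y t = 1075200000000000000000000000 * (f_eS3 x y t) := by
  simp only [nd5, nd6, nd9, nd15, nd16, nd145, nd175, eS3, v_eW3, v_eS2, v_eq3, val_f, val_h, val_m]
  unfold f_eS3
  push_cast
  ring

theorem v_eq4 (x y t : ℝ) : val eq4 x y t = 1024000000000000000000 * (qf4 x y) := by
  simp only [nd0, nd1, nd5, nd6, nd49, nd52, nd68, nd77, nd178, nd179, nd180, nd181, nd182, nd183, nd184, nd185, nd186, nd187, nd188, nd189, nd190, nd191, nd192, nd193, nd194, nd195, nd196, nd197, nd198, nd199, nd200, nd201, nd202, nd203, nd204, nd205, eq4, val_f, val_h, val_m, val_vx, val_vy]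
  unfold qf4
  push_cast
  ring

/-- real function of eS4 -/
noncomputable def f_eS4 (x y t : ℝ) : ℝ := f_eS3 x y t + qf4 x y * Zg 8 4 (f_eP x y t) (f_eM x y t)

theorem v_eS4 (x y t : ℝ) : val eS4 x y t = 26880000000000000000000000000 * (f_eS4 x y t) := by
  simp only [nd5, nd6, nd9, nd15, nd16, nd177, nd207, eS4, v_eW4, v_eS3, v_eq4, val_f, val_h, val_m]
  unfold f_eS4
  push_cast
  ring

theorem v_eq5 (x y t : ℝ) : val eq5 x y t = 2048000000000000000000 * (qf5 x y) := by
  simp only [nd0, nd1, nd5, nd6, nd49, nd52, nd68, nd77, nd210, nd211, nd212, nd213, nd214, nd215, nd216, nd217, nd218, nd219, nd220, nd221, nd222, nd223, nd224, nd225, nd226, nd227, nd228, nd229, nd230, nd231, nd232, nd233, nd234, nd235, nd236, nd237, eq5, val_f, val_h, val_m, val_vx, val_vy]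
  unfold qf5
  push_cast
  ring

/-- real function of eS5 -/
noncomputable def f_eS5 (x y t : ℝ) : ℝ := f_eS4 x y t + qf5 x y * Zg 8 5 (f_eP x y t) (f_eM x y t)

theorem v_eS5 (x y t : ℝ) : val eS5 x y t = 3360000000000000000000000000000 * (f_eS5 x y t) := by
  simp only [nd5, nd6, nd9, nd15, nd16, nd209, nd239, eS5, v_eW5, v_eS4, v_eq5, val_f, val_h, val_m]
  unfold f_eS5
  push_cast
  ring

theorem v_eq6 (x y t : ℝ) : val eq6 x y t = 4096000000000000000000 * (qf6 x y) := by
  simp only [nd0, nd1, nd5, nd6, nd49, nd52, nd68, nd77, nd242, nd243, nd244, nd245, nd246, nd247, nd248, nd249, nd250, nd251, nd252, nd253, nd254, nd255, nd256, nd257, nd258, nd259, nd260, nd261, nd262, nd263, nd264, nd265, nd266, nd267, nd268, nd269, eq6, val_f, val_h, val_m, val_vx, val_vy]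
  unfold qf6
  push_cast
  ring

/-- real function of eS6 -/
noncomputable def f_eS6 (x y t : ℝ) : ℝ := f_eS5 x y t + qf6 x y * Zg 8 6 (f_eP x y t) (f_eM x y t)

theorem v_eS6 (x y t : ℝ) : val eS6 x y t = 924000000000000000000000000000000 * (f_eS6 x y t) := by
  simp only [nd5, nd6, nd9, nd15, nd16, nd241, nd271, eS6, v_eW6, v_eS5, v_eq6, val_f, val_h, val_m]
  unfold f_eS6
  push_cast
  ring

theorem v_eq7 (x y t : ℝ) : val eq7 x y t = 4096000000000000000000 * (qf7 x y) := by
  simp only [nd0, nd1, nd5, nd6, nd49, nd52, nd68, nd77, nd274, nd275, nd276, nd277, nd278, nd279, nd280, nd281, nd282, nd283, nd284, nd285, nd286, nd287, nd288, nd289, nd290, nd291, nd292, nd293, nd294, nd295, nd296, nd297, nd298, nd299, nd300, nd301, eq7, val_f, val_h, val_m, val_vx, val_vy]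
  unfold qf7
  push_cast
  ring

/-- real function of eS7 -/
noncomputable def f_eS7 (x y t : ℝ) : ℝ := f_eS6 x y t + qf7 x y * Zg 8 7 (f_eP x y t) (f_eM x y t)

theorem v_eS7 (x y t : ℝ) : val eS7 x y t = 23100000000000000000000000000000000 * (f_eS7 x y t) := by
  simp only [nd5, nd6, nd9, nd15, nd16, nd273, nd303, eS7, v_eW7, v_eS6, v_eq7, val_f, val_h, val_m]
  unfold f_eS7
  push_cast
  ring

theorem v_eq8 (x y t : ℝ) : val eq8 x y t = (20000000000000000 / 9) * (qf8 x y) := by
  simp only [nd0, nd1, nd5, nd6, nd49, nd52, nd68, nd77, nd306, nd307, nd308, nd309, nd310, nd311, nd312, nd313, nd314, nd315, nd316, nd317, nd318, nd319, nd320, nd321, eq8, val_f, val_h, val_m, val_vx, val_vy]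
  unfold qf8
  push_cast
  ring

/-- real function of eS8 -/
noncomputable def f_eS8 (x y t : ℝ) : ℝ := f_eS7 x y t + qf8 x y * Zg 8 8 (f_eP x y t) (f_eM x y t)

theorem v_eS8 (x y t : ℝ) : val eS8 x y t = 300300000000000000000000000000000000 * (f_eS8 x y t) := by
  simp only [nd5, nd6, nd9, nd15, nd16, nd305, nd323, eS8, v_eW8, v_eS7, v_eq8, val_f, val_h, val_m]
  unfold f_eS8
  push_cast
  ring

theorem v_eq9 (x y t : ℝ) : val eq9 x y t = 819200000000000000000 * (qf9 x y) := by
  simp only [nd0, nd1, nd5, nd6, nd49, nd52, nd68, nd77, nd326, nd327, nd328, nd329, nd330, nd331, nd332, nd333, nd334, nd335, nd336, nd337, nd338, nd339, nd340, nd341, nd342, nd343, nd344, nd345, nd346, nd347, nd348, nd349, nd350, nd351, nd352, nd353, eq9, val_f, val_h, val_m, val_vx, val_vy]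
  unfold qf9
  push_cast
  ring

/-- real function of eS9 -/
noncomputable def f_eS9 (x y t : ℝ) : ℝ := f_eS8 x y t + qf9 x y * Zg 8 9 (f_eP x y t) (f_eM x y t)

theorem v_eS9 (x y t : ℝ) : val eS9 x y t = 52552500000000000000000000000000000000 * (f_eS9 x y t) := by
  simp only [nd5, nd6, nd9, nd15, nd16, nd325, nd355, eS9, v_eW9, v_eS8, v_eq9, val_f, val_h, val_m]
  unfold f_eS9
  push_cast
  ring

theorem v_eq10 (x y t : ℝ) : val eq10 x y t = 1024000000000000000000 * (qf10 x y) := by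
  simp only [nd0, nd1, nd5, nd6, nd49, nd52, nd68, nd77, nd358, nd359, nd360, nd361, nd362, nd363, nd364, nd365, nd366, nd367, nd368, nd369, nd370, nd371, nd372, nd373, nd374, nd375, nd376, nd377, nd378, nd379, nd380, nd381, nd382, nd383, nd384, nd385, eq10, val_f, val_h, val_m, val_vx, val_vy]
  unfold qf10
  push_cast
  ring

/-- real function of eS10 -/
noncomputable def f_eS10 (x y t : ℝ) : ℝ := f_eS9 x y t + qf10 x y * Zg 8 10 (f_eP x y t) (f_eM x y t)

theorem v_eS10 (x y t : ℝ) : val eS10 x y t = 32845312500000000000000000000000000000000 * (f_eS10 x y t) := by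
  simp only [nd5, nd6, nd9, nd15, nd16, nd357, nd387, eS10, v_eW10, v_eS9, v_eq10, val_f, val_h, val_m]
  unfold f_eS10
  push_cast
  ring

theorem v_eq11 (x y t : ℝ) : val eq11 x y t = 1024000000000000000000 * (qf11 x y) := by
  simp only [nd0, nd1, nd5, nd6, nd49, nd52, nd68, nd77, nd390, nd391, nd392, nd393, nd394, nd395, nd396, nd397, nd398, nd399, nd400, nd401, nd402, nd403, nd404, nd405, nd406, nd407, nd408, nd409, nd410, nd411, nd412, nd413, nd414, nd415, nd416, nd417, eq11, val_f, val_h, val_m, val_vx, val_vy]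
  unfold qf11
  push_cast
  ring

/-- real function of eS11 -/
noncomputable def f_eS11 (x y t : ℝ) : ℝ := f_eS10 x y t + qf11 x y * Zg 8 11 (f_eP x y t) (f_eM x y t)

theorem v_eS11 (x y t : ℝ) : val eS11 x y t = 821132812500000000000000000000000000000000 * (f_eS11 x y t) := by
  simp only [nd5, nd6, nd9, nd15, nd16, nd389, nd419, eS11, v_eW11, v_eS10, v_eq11, val_f, val_h, val_m]
  unfold f_eS11
  push_cast
  ring

theorem v_eB (x y t : ℝ) : val eB x y t = 4 * (base (t)) := by
  simp only [nd2, nd9, nd421, nd422, nd423, nd424, nd425, eB, val_f, val_h, val_m, val_vt]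
  unfold base
  push_cast
  ring

/-- real function of eD2 -/
noncomputable def f_eD2 (x y t : ℝ) : ℝ := ((1 - ((2 / 5) * x)) + (1 - ((2 / 5) * y))) - (2 * f_eP x y t)

theorem v_eD2 (x y t : ℝ) : val eD2 x y t = 25 * (f_eD2 x y t) := by
  simp only [nd0, nd1, nd5, nd6, nd9, nd12, nd13, nd427, nd428, nd429, nd430, eD2, v_eP, val_f, val_h, val_m, val_vx, val_vy]
  unfold f_eD2
  push_cast
  ring

/-- real function of eDd -/
noncomputable def f_eDd (x y t : ℝ) : ℝ := ((1 - ((2 / 5) * x)) * (1 - ((2 / 5) * y))) - (f_eP x y t * f_eP x y t)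

theorem v_eDd (x y t : ℝ) : val eDd x y t = 625 * (f_eDd x y t) := by
  simp only [nd19, eDd, v_eP, v_eM, val_f, val_m]
  unfold f_eDd f_eM f_eP
  push_cast
  ring

/-- real function of eR1 -/
noncomputable def f_eR1 (x y t : ℝ) : ℝ := (1 - x) * (1 - y)

theorem v_eR1 (x y t : ℝ) : val eR1 x y t = 1 * (f_eR1 x y t) := by
  simp only [nd0, nd1, nd5, nd6, nd433, nd434, eR1, val_f, val_h, val_m, val_vx, val_vy]
  unfold f_eR1
  push_cast
  ring

/-- real function of eR3 -/
noncomputable def f_eR3 (x y t : ℝ) : ℝ := f_eR1 x y t ^ 3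

theorem v_eR3 (x y t : ℝ) : val eR3 x y t = 1 * (f_eR3 x y t) := by
  simp only [nd436, eR3, v_eR1, val_m]
  unfold f_eR3
  push_cast
  ring

/-- real function of eK3 -/
noncomputable def f_eK3 (x y t : ℝ) : ℝ := f_eR3 x y t * f_eS11 x y t

theorem v_eK3 (x y t : ℝ) : val eK3 x y t = 821132812500000000000000000000000000000000 * (f_eK3 x y t) := by
  simp only [eK3, v_eS11, v_eR3, val_m]
  unfold f_eK3
  push_cast
  ring


theorem KT_eq (x y t : ℝ) : f_eS11 x y t = Kt 11 4 cA x y (f_eP x y t) (f_eM x y t) := by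
  rw [Kt_eq]
  simp only [f_eS11, f_eS10, f_eS9, f_eS8, f_eS7, f_eS6, f_eS5, f_eS4, f_eS3, f_eS2, f_eS1]

theorem KTx (x y t : ℝ) : f_eS11 x y t = Ktx x y t := by
  rw [KT_eq]
  unfold Ktx f_eP f_eM
  rfl

theorem K3x (x y t : ℝ) : f_eK3 x y t = K3 x y t := by
  unfold f_eK3 K3 f_eR3 f_eR1
  rw [KTx]
  ring

theorem D2x (x y t : ℝ) : f_eD2 x y t = PG.dd x y t := by
  unfold f_eD2 PG.dd f_eP
  ring

theorem DDx (x y t : ℝ) : f_eDd x y t = PG.DD x y t := by
  unfold f_eDd PG.DD f_eP
  ring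

end Pool.Agent.Lib.MP_f1379f_gt.FV.CK2.U
end
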