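import Pool.Agent.Lib.MP_f1379f_gt.FV.CEX

/-!
# Data of the certificate: `A_k = L_k^T D_k L_k`
-/

set_option autoImplicit false
set_option linter.style.longLine false

namespace Pool.Agent.Lib.MP_f1379f_gt.FV.CX

open Finset Pool.Agent.Lib.MP_f1379f_gt.FV

lemma zg_0 (p m : ℝ) : Zg 8 0 p m = 1 := by simp [Zg]
lemma zg_1 (p m : ℝ) : Zg 8 1 p m = p := by simp [Zg]
lemma zg_2 (p m : ℝ) : Zg 8 2 p m = (8 * (p * Zg 8 1 p m) - 1 * (m * Zg 8 0 p m)) / 7 := by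
  rw [show Zg 8 2 p m = ((2 * ((0 : ℕ) : ℝ) + ((8 : ℕ) : ℝ)) * (p * Zg 8 1 p m) - (((0 : ℕ) : ℝ) + 1) * (m * Zg 8 0 p m)) / (((0 : ℕ) : ℝ) + ((8 : ℕ) : ℝ) - 1) from rfl]
  norm_num
lemma zg_3 (p m : ℝ) : Zg 8 3 p m = (10 * (p * Zg 8 2 p m) - 2 * (m * Zg 8 1 p m)) / 8 := by
  rw [show Zg 8 3 p m = ((2 * ((1 : ℕ) : ℝ) + ((8 : ℕ) : ℝ)) * (p * Zg 8 2 p m) - (((1 : ℕ) : ℝ) + 1) * (m * Zg 8 1 p m)) / (((1 : ℕ) : ℝ) + ((8 : ℕ) : ℝ) - 1) from rfl]
  norm_num
lemma zg_4 (p m : ℝ) : Zg 8 4 p m = (12 * (p * Zg 8 3 p m) - 3 * (m * Zg 8 2 p m)) / 9 := by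
  rw [show Zg 8 4 p m = ((2 * ((2 : ℕ) : ℝ) + ((8 : ℕ) : ℝ)) * (p * Zg 8 3 p m) - (((2 : ℕ) : ℝ) + 1) * (m * Zg 8 2 p m)) / (((2 : ℕ) : ℝ) + ((8 : ℕ) : ℝ) - 1) from rfl]
  norm_num
lemma zg_5 (p m : ℝ) : Zg 8 5 p m = (14 * (p * Zg 8 4 p m) - 4 * (m * Zg 8 3 p m)) / 10 := by
  rw [show Zg 8 5 p m = ((2 * ((3 : ℕ) : ℝ) + ((8 : ℕ) : ℝ)) * (p * Zg 8 4 p m) - (((3 : ℕ) : ℝ) + 1) * (m * Zg 8 3 p m)) / (((3 : ℕ) : ℝ) + ((8 : ℕ) : ℝ) - 1) from rfl]
  norm_num
lemma zg_6 (p m : ℝ) : Zg 8 6 p m = (16 * (p * Zg 8 5 p m) - 5 * (m * Zg 8 4 p m)) / 11 := by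
  rw [show Zg 8 6 p m = ((2 * ((4 : ℕ) : ℝ) + ((8 : ℕ) : ℝ)) * (p * Zg 8 5 p m) - (((4 : ℕ) : ℝ) + 1) * (m * Zg 8 4 p m)) / (((4 : ℕ) : ℝ) + ((8 : ℕ) : ℝ) - 1) from rfl]
  norm_num
lemma zg_7 (p m : ℝ) : Zg 8 7 p m = (18 * (p * Zg 8 6 p m) - 6 * (m * Zg 8 5 p m)) / 12 := by
  rw [show Zg 8 7 p m = ((2 * ((5 : ℕ) : ℝ) + ((8 : ℕ) : ℝ)) * (p * Zg 8 6 p m) - (((5 : ℕ) : ℝ) + 1) * (m * Zg 8 5 p m)) / (((5 : ℕ) : ℝ) + ((8 : ℕ) : ℝ) - 1) from rfl]
  norm_num
lemma zg_8 (p m : ℝ) : Zg 8 8 p m = (20 * (p * Zg 8 7 p m) - 7 * (m * Zg 8 6 p m)) / 13 := by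
  rw [show Zg 8 8 p m = ((2 * ((6 : ℕ) : ℝ) + ((8 : ℕ) : ℝ)) * (p * Zg 8 7 p m) - (((6 : ℕ) : ℝ) + 1) * (m * Zg 8 6 p m)) / (((6 : ℕ) : ℝ) + ((8 : ℕ) : ℝ) - 1) from rfl]
  norm_num
lemma zg_9 (p m : ℝ) : Zg 8 9 p m = (22 * (p * Zg 8 8 p m) - 8 * (m * Zg 8 7 p m)) / 14 := by
  rw [show Zg 8 9 p m = ((2 * ((7 : ℕ) : ℝ) + ((8 : ℕ) : ℝ)) * (p * Zg 8 8 p m) - (((7 : ℕ) : ℝ) + 1) * (m * Zg 8 7 p m)) / (((7 : ℕ) : ℝ) + ((8 : ℕ) : ℝ) - 1) from rfl]
  norm_num
lemma zg_10 (p m : ℝ) : Zg 8 10 p m = (24 * (p * Zg 8 9 p m) - 9 * (m * Zg 8 8 p m)) / 15 := by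
  rw [show Zg 8 10 p m = ((2 * ((8 : ℕ) : ℝ) + ((8 : ℕ) : ℝ)) * (p * Zg 8 9 p m) - (((8 : ℕ) : ℝ) + 1) * (m * Zg 8 8 p m)) / (((8 : ℕ) : ℝ) + ((8 : ℕ) : ℝ) - 1) from rfl]
  norm_num
lemma zg_11 (p m : ℝ) : Zg 8 11 p m = (26 * (p * Zg 8 10 p m) - 10 * (m * Zg 8 9 p m)) / 16 := by
  rw [show Zg 8 11 p m = ((2 * ((9 : ℕ) : ℝ) + ((8 : ℕ) : ℝ)) * (p * Zg 8 10 p m) - (((9 : ℕ) : ℝ) + 1) * (m * Zg 8 9 p m)) / (((9 : ℕ) : ℝ) + ((8 : ℕ) : ℝ) - 1) from rfl]
  norm_num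
lemma zg_12 (p m : ℝ) : Zg 8 12 p m = (28 * (p * Zg 8 11 p m) - 11 * (m * Zg 8 10 p m)) / 17 := by
  rw [show Zg 8 12 p m = ((2 * ((10 : ℕ) : ℝ) + ((8 : ℕ) : ℝ)) * (p * Zg 8 11 p m) - (((10 : ℕ) : ℝ) + 1) * (m * Zg 8 10 p m)) / (((10 : ℕ) : ℝ) + ((8 : ℕ) : ℝ) - 1) from rfl]
  norm_num

/-- weights -/
noncomputable def cw : ℕ → ℕ → ℝ
  | 0, 0 => (83713 / 240000000)
  | 0, 1 => (5197 / 5000000000)
  | 0, 2 => (12013 / 2000000000)
  | 0, 3 => (3041 / 1250000000)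
  | 1, 0 => (15272653033 / 7372800000000)
  | 1, 1 => (23573529 / 2000000000)
  | 1, 2 => (1276013811 / 10000000000)
  | 1, 3 => (110141 / 2500000000)
  | 2, 0 => (8607418079 / 1474560000000)
  | 2, 1 => (53546489 / 5000000000)
  | 2, 2 => (15061383 / 5000000000)
  | 2, 3 => (20504949 / 1250000000)
  | 3, 0 => (77748368357 / 7372800000000)
  | 3, 1 => (284468521 / 10000000000)
  | 3, 2 => (57451769 / 10000000000)
  | 3, 3 => (230650707 / 5000000000)
  | 4, 0 => (19065711329 / 1474560000000)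
  | 4, 1 => (308312567 / 10000000000)
  | 4, 2 => (28715919 / 5000000000)
  | 4, 3 => (78394957 / 2000000000)
  | 5, 0 => (122391508201 / 11059200000000)
  | 5, 1 => (55519657 / 5000000000)
  | 5, 2 => (3045999 / 2000000000)
  | 5, 3 => (10293 / 156250000)
  | 6, 0 => (8634521069 / 1474560000000)
  | 6, 1 => (86689 / 5000000000)
  | 6, 2 => (35523 / 10000000000)
  | 6, 3 => (322961 / 10000000000)
  | 7, 0 => (5829139097 / 4423680000000)
  | 7, 1 => (39919 / 625000000)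
  | 7, 2 => (3301 / 2000000000)
  | 7, 3 => (2805503 / 10000000000)
  | 8, 1 => (5973327 / 10000000000)
  | 8, 2 => (23 / 80000000)
  | 8, 3 => (11 / 5000000000)
  | 9, 0 => (237893369 / 819200000000)
  | 9, 1 => (345247 / 10000000000)
  | 9, 2 => (47 / 39062500)
  | 9, 3 => (8119231 / 2000000000)
  | 10, 0 => (90537083 / 163840000000)
  | 10, 1 => (708139 / 10000000000)
  | 10, 2 => (20777 / 10000000000)
  | 10, 3 => (3350041 / 10000000000)
  | 11, 0 => (9513623 / 40960000000)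
  | 11, 1 => (3158941 / 10000000000)
  | 11, 2 => (126807 / 10000000000)
  | 11, 3 => (12963 / 10000000000)
  | _, _ => 0

/-- vectors, degree 0 -/
noncomputable def cL0 : ℕ → ℕ → ℝ
  | 0, 0 => 1
  | 0, 1 => (1359 / 2500)
  | 0, 2 => (14483 / 5000)
  | 0, 3 => ((-5547) / 1250)
  | 1, 1 => 1
  | 1, 2 => (6087 / 5000)
  | 1, 3 => ((-4663) / 2500)
  | 2, 2 => 1
  | 2, 3 => ((-13273) / 10000)
  | 3, 3 => 1
  | _, _ => 0

/-- vectors, degree 1 -/
noncomputable def cL1 : ℕ → ℕ → ℝ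
  | 0, 0 => 1
  | 0, 1 => (817 / 1000)
  | 0, 2 => (4867 / 1000)
  | 0, 3 => ((-9341) / 2000)
  | 1, 1 => 1
  | 1, 2 => ((-2683) / 400)
  | 1, 3 => (65493 / 10000)
  | 2, 2 => 1
  | 2, 3 => ((-3763) / 10000)
  | 3, 3 => 1
  | _, _ => 0

/-- vectors, degree 2 -/
noncomputable def cL2 : ℕ → ℕ → ℝ
  | 0, 0 => 1
  | 0, 1 => (13403 / 10000)
  | 0, 2 => (14319 / 2500)
  | 0, 3 => ((-6327) / 2000)
  | 1, 1 => 1
  | 1, 2 => ((-19673) / 2000)
  | 1, 3 => (70897 / 10000)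
  | 2, 2 => 1
  | 2, 3 => (28037 / 5000)
  | 3, 3 => 1
  | _, _ => 0

/-- vectors, degree 3 -/
noncomputable def cL3 : ℕ → ℕ → ℝ
  | 0, 0 => 1
  | 0, 1 => (17987 / 10000)
  | 0, 2 => (4487 / 625)
  | 0, 3 => (4377 / 10000)
  | 1, 1 => 1
  | 1, 2 => ((-23619) / 2500)
  | 1, 3 => (32683 / 5000)
  | 2, 2 => 1
  | 2, 3 => ((-46517) / 5000)
  | 3, 3 => 1
  | _, _ => 0

/-- vectors, degree 4 -/
noncomputable def cL4 : ℕ → ℕ → ℝ
  | 0, 0 => 1
  | 0, 1 => (24729 / 10000)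
  | 0, 2 => (10057 / 1250)
  | 0, 3 => (9089 / 1250)
  | 1, 1 => 1
  | 1, 2 => ((-92829) / 10000)
  | 1, 3 => (16877 / 2500)
  | 2, 2 => 1
  | 2, 3 => ((-16639) / 2500)
  | 3, 3 => 1
  | _, _ => 0

/-- vectors, degree 5 -/
noncomputable def cL5 : ℕ → ℕ → ℝ
  | 0, 0 => 1
  | 0, 1 => (31679 / 10000)
  | 0, 2 => (11249 / 1250)
  | 0, 3 => (111843 / 5000)
  | 1, 1 => 1
  | 1, 2 => ((-21001) / 2000)
  | 1, 3 => (172997 / 10000)
  | 2, 2 => 1
  | 2, 3 => ((-4091) / 5000)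
  | 3, 3 => 1
  | _, _ => 0

/-- vectors, degree 6 -/
noncomputable def cL6 : ℕ → ℕ → ℝ
  | 0, 0 => 1
  | 0, 1 => (45263 / 10000)
  | 0, 2 => (41019 / 5000)
  | 0, 3 => (33069 / 625)
  | 1, 1 => 1
  | 1, 2 => (691 / 400)
  | 1, 3 => (111491 / 10000)
  | 2, 2 => 1
  | 2, 3 => (45367 / 10000)
  | 3, 3 => 1
  | _, _ => 0

/-- vectors, degree 7 -/
noncomputable def cL7 : ℕ → ℕ → ℝ
  | 0, 0 => 1
  | 0, 1 => (88361 / 10000)
  | 0, 2 => ((-33653) / 5000)
  | 0, 3 => (959317 / 5000)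
  | 1, 1 => 1
  | 1, 2 => ((-941) / 1250)
  | 1, 3 => (107199 / 5000)
  | 2, 2 => 1
  | 2, 3 => ((-37879) / 5000)
  | 3, 3 => 1
  | _, _ => 0

/-- vectors, degree 8 -/
noncomputable def cL8 : ℕ → ℕ → ℝ
  | 1, 1 => 1
  | 1, 2 => (134959 / 5000)
  | 1, 3 => ((-3146643) / 10000)
  | 2, 2 => 1
  | 2, 3 => ((-22153) / 2500)
  | 3, 3 => 1
  | _, _ => 0

/-- vectors, degree 9 -/
noncomputable def cL9 : ℕ → ℕ → ℝ
  | 0, 0 => 1
  | 0, 1 => (32413 / 5000)
  | 0, 2 => ((-8413) / 5000)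
  | 0, 3 => ((-4718369) / 10000)
  | 1, 1 => 1
  | 1, 2 => ((-509) / 2000)
  | 1, 3 => ((-35543) / 500)
  | 2, 2 => 1
  | 2, 3 => (98231 / 10000)
  | 3, 3 => 1
  | _, _ => 0

/-- vectors, degree 10 -/
noncomputable def cL10 : ℕ → ℕ → ℝ
  | 0, 0 => 1
  | 0, 1 => (93443 / 10000)
  | 0, 2 => (6861 / 625)
  | 0, 3 => ((-357287) / 1250)
  | 1, 1 => 1
  | 1, 2 => (11613 / 10000)
  | 1, 3 => ((-60483) / 2000)
  | 2, 2 => 1
  | 2, 3 => ((-35137) / 2500)
  | 3, 3 => 1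
  | _, _ => 0

/-- vectors, degree 11 -/
noncomputable def cL11 : ℕ → ℕ → ℝ
  | 0, 0 => 1
  | 0, 1 => (197851 / 10000)
  | 0, 2 => ((-47497) / 625)
  | 0, 3 => (10781 / 625)
  | 1, 1 => 1
  | 1, 2 => ((-38313) / 10000)
  | 1, 3 => (8697 / 10000)
  | 2, 2 => 1
  | 2, 3 => ((-2241) / 10000)
  | 3, 3 => 1
  | _, _ => 0

/-- vectors -/
noncomputable def cL : ℕ → ℕ → ℕ → ℝ
  | 0 => cL0
  | 1 => cL1
  | 2 => cL2
  | 3 => cL3
  | 4 => cL4
  | 5 => cL5
  | 6 => cL6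
  | 7 => cL7
  | 8 => cL8
  | 9 => cL9
  | 10 => cL10
  | 11 => cL11
  | _ => fun _ _ => 0

/-- matrices -/
noncomputable def cA (k i j : ℕ) : ℝ := ∑ c ∈ range 4, cw k c * cL k c i * cL k c j

lemma cA_symm (k i j : ℕ) : cA k i j = cA k j i := by
  unfold cA
  exact sum_congr rfl fun c _ => by ring

lemma cw_nonneg (k c : ℕ) : 0 ≤ cw k c := by
  unfold cw
  split <;> norm_num

/-- quadratic form, degree 0 -/
noncomputable def qf0 (x y : ℝ) : ℝ := (83713 / 240000000) * x ^ 0 * y ^ 0 + (37921989 / 200000000000) * x ^ 0 * y ^ 1 + (1212415379 / 1200000000000) * x ^ 0 * y ^ 2 + ((-154785337) / 100000000000) * x ^ 0 * y ^ 3 + (37921989 / 200000000000) * x ^ 1 * y ^ 0 + (52055683051 / 500000000000000) * x ^ 1 * y ^ 1 + (550489532247 / 1000000000000000) * x ^ 1 * y ^ 2 + ((-210837945203) / 250000000000000) * x ^ 1 * y ^ 3 + (1212415379 / 1200000000000) * x ^ 2 * y ^ 0 + (550489532247 / 1000000000000000) * x ^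 2 * y ^ 1 + (2200586708781683 / 750000000000000000) * x ^ 2 * y ^ 2 + ((-280865291177157) / 62500000000000000) * x ^ 2 * y ^ 3 + ((-154785337) / 100000000000) * x ^ 3 * y ^ 0 + ((-210837945203) / 250000000000000) * x ^ 3 * y ^ 1 + ((-280865291177157) / 62500000000000000) * x ^ 3 * y ^ 2 + (6885384760165361 / 1000000000000000000) * x ^ 3 * y ^ 3

lemma qf0_eq (x y : ℝ) : ∑ i ∈ range 4, ∑ j ∈ range 4, cA 0 i j * x ^ i * y ^ j = qf0 x y := by
  unfold cA
  rw [quad_ldl]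
  simp only [sum_range_succ, sum_range_zero, cw, cL, cL0]
  unfold qf0
  ring

/-- quadratic form, degree 1 -/
noncomputable def qf1 (x y : ℝ) : ℝ := (15272653033 / 7372800000000) * x ^ 0 * y ^ 0 + (12477757527961 / 7372800000000000) * x ^ 0 * y ^ 1 + (74332002311611 / 7372800000000000) * x ^ 0 * y ^ 2 + ((-142661851981253) / 14745600000000000) * x ^ 0 * y ^ 3 + (12477757527961 / 7372800000000000) * x ^ 1 * y ^ 0 + (97095785205944137 / 7372800000000000000) * x ^ 1 * y ^ 1 + ((-522162278988725813) / 7372800000000000000) * x ^ 1 * y ^ 2 + (1021732695594448459 / 14745600000000000000) * x ^ 1 * y ^ 3 + (74332002311611 / 7372800000000000) * x ^ 2 * y ^ 0 + ((-522162278988725813) / 7372800000000000000) * x ^ 2 * y ^ 1 + (5212298220939260977 / 7372800000000000000) * x ^ 2 * y ^ 2 + ((-45187143924419849611) / 73728000000000000000) * x ^ 2 * y ^ 3 + ((-142661851981253) / 14745600000000000) * x ^ 3 * y ^ 0 + (1021732695594448459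 / 14745600000000000000) * x ^ 3 * y ^ 1 + ((-45187143924419849611) / 73728000000000000000) * x ^ 3 * y ^ 2 + (10485461997386620685473 / 18432000000000000000000) * x ^ 3 * y ^ 3

lemma qf1_eq (x y : ℝ) : ∑ i ∈ range 4, ∑ j ∈ range 4, cA 1 i j * x ^ i * y ^ j = qf1 x y := by
  unfold cA
  rw [quad_ldl]
  simp only [sum_range_succ, sum_range_zero, cw, cL, cL1]
  unfold qf1
  ring

/-- quadratic form, degree 2 -/
noncomputable def qf2 (x y : ℝ) : ℝ := (8607418079 / 1474560000000) * x ^ 0 * y ^ 0 + (115365224512837 / 14745600000000000) * x ^ 0 * y ^ 1 + (13694402163689 / 409600000000000) * x ^ 0 * y ^ 2 + ((-6051014909537) / 327680000000000) * x ^ 0 * y ^ 3 + (115365224512837 / 14745600000000000) * x ^ 1 * y ^ 0 + (3125390320542354311 / 147456000000000000000) * x ^ 1 * y ^ 1 + ((-247934791788607533) / 4096000000000000000) * x ^ 1 * y ^ 2 + (167691609149439877 / 3276800000000000000) * x ^ 1 * y ^ 3 + (13694402163689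 / 409600000000000) * x ^ 2 * y ^ 0 + ((-247934791788607533) / 4096000000000000000) * x ^ 2 * y ^ 1 + (6301200477380297891 / 5120000000000000000) * x ^ 2 * y ^ 2 + ((-85577664870474363091) / 102400000000000000000) * x ^ 2 * y ^ 3 + ((-6051014909537) / 327680000000000) * x ^ 3 * y ^ 0 + (167691609149439877 / 3276800000000000000) * x ^ 3 * y ^ 1 + ((-85577664870474363091) / 102400000000000000000) * x ^ 3 * y ^ 2 + (1449630099806476718339 / 2048000000000000000000) * x ^ 3 * y ^ 3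

lemma qf2_eq (x y : ℝ) : ∑ i ∈ range 4, ∑ j ∈ range 4, cA 2 i j * x ^ i * y ^ j = qf2 x y := by
  unfold cA
  rw [quad_ldl]
  simp only [sum_range_succ, sum_range_zero, cw, cL, cL2]
  unfold qf2
  ring

/-- quadratic form, degree 3 -/
noncomputable def qf3 (x y : ℝ) : ℝ := (77748368357 / 7372800000000) * x ^ 0 * y ^ 0 + (1398459901637359 / 73728000000000000) * x ^ 0 * y ^ 1 + (348856928817859 / 4608000000000000) * x ^ 0 * y ^ 2 + (113434869432863 / 24576000000000000) * x ^ 0 * y ^ 3 + (1398459901637359 / 73728000000000000) * x ^ 1 * y ^ 0 + (46127393367039176333 / 737280000000000000000) * x ^ 1 * y ^ 1 + ((-6109316855143326967) / 46080000000000000000) * x ^ 1 * y ^ 2 + (47738366615531620381 / 245760000000000000000) * x ^ 1 * y ^ 3 + (348856928817859 / 4608000000000000) * x ^ 2 * y ^ 0 + ((-6109316855143326967) / 46080000000000000000) * x ^ 2 * y ^ 1 + (222360786076749404237 / 72000000000000000000) * x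 ^ 2 * y ^ 2 + ((-682388484962215390799) / 384000000000000000000) * x ^ 2 * y ^ 3 + (113434869432863 / 24576000000000000) * x ^ 3 * y ^ 0 + (47738366615531620381 / 245760000000000000000) * x ^ 3 * y ^ 1 + ((-682388484962215390799) / 384000000000000000000) * x ^ 3 * y ^ 2 + (721251034838201839969 / 409600000000000000000) * x ^ 3 * y ^ 3

lemma qf3_eq (x y : ℝ) : ∑ i ∈ range 4, ∑ j ∈ range 4, cA 3 i j * x ^ i * y ^ j = qf3 x y := by
  unfold cA
  rw [quad_ldl]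
  simp only [sum_range_succ, sum_range_zero, cw, cL, cL3]
  unfold qf3
  ring

/-- quadratic form, degree 4 -/
noncomputable def qf4 (x y : ℝ) : ℝ := (19065711329 / 1474560000000) * x ^ 0 * y ^ 0 + (157158658484947 / 4915200000000000) * x ^ 0 * y ^ 1 + (191743858835753 / 1843200000000000) * x ^ 0 * y ^ 2 + (173288250269281 / 1843200000000000) * x ^ 0 * y ^ 3 + (157158658484947 / 4915200000000000) * x ^ 1 * y ^ 0 + (1800598131664218121 / 16384000000000000000) * x ^ 1 * y ^ 1 + ((-177889508625609941) / 6144000000000000000) * x ^ 1 * y ^ 2 + (2707200466625015123 / 6144000000000000000) * x ^ 1 * y ^ 3 + (191743858835753 / 1843200000000000) * x ^ 2 * y ^ 0 + ((-177889508625609941) / 6144000000000000000) * x ^ 2 * y ^ 1 + (1007857922212589648461 / 288000000000000000000) * x ^ 2 * y ^ 2 + ((-349609109043876509947) / 288000000000000000000) * x ^ 2 * y ^ 3 + (173288250269281 / 1843200000000000) * x ^ 3 * y ^ 0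 + (2707200466625015123 / 6144000000000000000) * x ^ 3 * y ^ 1 + ((-349609109043876509947) / 288000000000000000000) * x ^ 3 * y ^ 2 + (686098533659220165853 / 288000000000000000000) * x ^ 3 * y ^ 3

lemma qf4_eq (x y : ℝ) : ∑ i ∈ range 4, ∑ j ∈ range 4, cA 4 i j * x ^ i * y ^ j = qf4 x y := by
  unfold cA
  rw [quad_ldl]
  simp only [sum_range_succ, sum_range_zero, cw, cL, cL4]
  unfold qf4
  ring

/-- quadratic form, degree 5 -/
noncomputable def qf5 (x y : ℝ) : ℝ := (122391508201 / 11059200000000) * x ^ 0 * y ^ 0 + (3877240588299479 / 110592000000000000) * x ^ 0 * y ^ 1 + (1376782075753049 / 13824000000000000) * x ^ 0 * y ^ 2 + (1520959272413827 / 6144000000000000) * x ^ 0 * y ^ 3 + (3877240588299479 / 110592000000000000) * x ^ 1 * y ^ 0 + (135107164410627195241 / 1105920000000000000000) * x ^ 1 * y ^ 1 + (27496733368314471271 / 138240000000000000000) * x ^ 1 * y ^ 2 + (59984766055370860733 / 61440000000000000000)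 * x ^ 1 * y ^ 3 + (1376782075753049 / 13824000000000000) * x ^ 2 * y ^ 0 + (27496733368314471271 / 138240000000000000000) * x ^ 2 * y ^ 1 + (36670075535556247849 / 17280000000000000000) * x ^ 2 * y ^ 2 + (8042239321728104479 / 38400000000000000000) * x ^ 2 * y ^ 3 + (1520959272413827 / 6144000000000000) * x ^ 3 * y ^ 0 + (59984766055370860733 / 61440000000000000000) * x ^ 3 * y ^ 1 + (8042239321728104479 / 38400000000000000000) * x ^ 3 * y ^ 2 + (2268584115791808458411 / 256000000000000000000) * x ^ 3 * y ^ 3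

lemma qf5_eq (x y : ℝ) : ∑ i ∈ range 4, ∑ j ∈ range 4, cA 5 i j * x ^ i * y ^ j = qf5 x y := by
  unfold cA
  rw [quad_ldl]
  simp only [sum_range_succ, sum_range_zero, cw, cL, cL5]
  unfold qf5
  ring

/-- quadratic form, degree 6 -/
noncomputable def qf6 (x y : ℝ) : ℝ := (8634521069 / 1474560000000) * x ^ 0 * y ^ 0 + (390824327146147 / 14745600000000000) * x ^ 0 * y ^ 1 + (118059806576437 / 2457600000000000) * x ^ 0 * y ^ 2 + (95178325743587 / 307200000000000) * x ^ 0 * y ^ 3 + (390824327146147 / 14745600000000000) * x ^ 1 * y ^ 0 + (17692438082252851661 / 147456000000000000000) * x ^ 1 * y ^ 1 + (5344477102061779931 / 24576000000000000000) * x ^ 1 * y ^ 2 + (4308650378392268941 / 3072000000000000000) * x ^ 1 * y ^ 3 + (118059806576437 / 2457600000000000) * x ^ 2 * y ^ 0 + (5344477102061779931 / 24576000000000000000) * x ^ 2 * y ^ 1 + (1614458214374517181 / 4096000000000000000) * x ^ 2 * y ^ 2 + (6507762349451724807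 / 2560000000000000000) * x ^ 2 * y ^ 3 + (95178325743587 / 307200000000000) * x ^ 3 * y ^ 0 + (4308650378392268941 / 3072000000000000000) * x ^ 3 * y ^ 1 + (6507762349451724807 / 2560000000000000000) * x ^ 3 * y ^ 2 + (26232383979139619469 / 1600000000000000000) * x ^ 3 * y ^ 3

lemma qf6_eq (x y : ℝ) : ∑ i ∈ range 4, ∑ j ∈ range 4, cA 6 i j * x ^ i * y ^ j = qf6 x y := by
  unfold cA
  rw [quad_ldl]
  simp only [sum_range_succ, sum_range_zero, cw, cL, cL6]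
  unfold qf6
  ring

/-- quadratic form, degree 7 -/
noncomputable def qf7 (x y : ℝ) : ℝ := (5829139097 / 4423680000000) * x ^ 0 * y ^ 0 + (515068559750017 / 44236800000000000) * x ^ 0 * y ^ 1 + ((-196168018031341) / 22118400000000000) * x ^ 0 * y ^ 2 + (5591992231116749 / 22118400000000000) * x ^ 0 * y ^ 3 + (515068559750017 / 44236800000000000) * x ^ 1 * y ^ 0 + (45540227229178452137 / 442368000000000000000) * x ^ 1 * y ^ 1 + ((-17344237130092072181) / 221184000000000000000) * x ^ 1 * y ^ 2 + (494416907958554131669 / 221184000000000000000) * x ^ 1 * y ^ 3 + ((-196168018031341) / 22118400000000000) * x ^ 2 * y ^ 0 + ((-17344237130092072181) / 221184000000000000000) * x ^ 2 * y ^ 1 + (825728476882294325389 / 13824000000000000000000) * x ^ 2 * y ^ 2 + ((-23537837790642158659949) / 13824000000000000000000) * x ^ 2 * y ^ 3 + (5591992231116749 / 22118400000000000) * x ^ 3 * y ^ 0 + (494416907958554131669 /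 221184000000000000000) * x ^ 3 * y ^ 1 + ((-23537837790642158659949) / 13824000000000000000000) * x ^ 3 * y ^ 2 + (670972697890159863168589 / 13824000000000000000000) * x ^ 3 * y ^ 3

lemma qf7_eq (x y : ℝ) : ∑ i ∈ range 4, ∑ j ∈ range 4, cA 7 i j * x ^ i * y ^ j = qf7 x y := by
  unfold cA
  rw [quad_ldl]
  simp only [sum_range_succ, sum_range_zero, cw, cL, cL7]
  unfold qf7
  ring

/-- quadratic form, degree 8 -/
noncomputable def qf8 (x y : ℝ) : ℝ := (5973327 / 10000000000) * x ^ 1 * y ^ 1 + (806154238593 / 50000000000000) * x ^ 1 * y ^ 2 + ((-18795927591261) / 100000000000000) * x ^ 1 * y ^ 3 + (806154238593 / 50000000000000) * x ^ 2 * y ^ 1 + (108797841761272687 / 250000000000000000) * x ^ 2 * y ^ 2 + ((-2536680865586493299) / 500000000000000000) * x ^ 2 * y ^ 3 + ((-18795927591261) / 100000000000000) * x ^ 3 * y ^ 1 + ((-2536680865586493299) / 500000000000000000) * x ^ 3 * y ^ 2 + (59144096560497100823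 / 1000000000000000000) * x ^ 3 * y ^ 3

lemma qf8_eq (x y : ℝ) : ∑ i ∈ range 4, ∑ j ∈ range 4, cA 8 i j * x ^ i * y ^ j = qf8 x y := by
  unfold cA
  rw [quad_ldl]
  simp only [sum_range_succ, sum_range_zero, cw, cL, cL8]
  unfold qf8
  ring

/-- quadratic form, degree 9 -/
noncomputable def qf9 (x y : ℝ) : ℝ := (237893369 / 819200000000) * x ^ 0 * y ^ 0 + (7710837769397 / 4096000000000000) * x ^ 0 * y ^ 1 + ((-2001396913397) / 4096000000000000) * x ^ 0 * y ^ 2 + ((-1122468697595161) / 8192000000000000) * x ^ 0 * y ^ 3 + (7710837769397 / 4096000000000000) * x ^ 1 * y ^ 0 + (250638450475464961 / 20480000000000000000) * x ^ 1 * y ^ 1 + ((-65051226414288961) / 20480000000000000000) * x ^ 1 * y ^ 2 + ((-36483102862031185493) / 40960000000000000000) * x ^ 1 * y ^ 3 + ((-2001396913397) / 4096000000000000) * x ^ 2 * y ^ 0 + ((-65051226414288961) / 20480000000000000000) * x ^ 2 * y ^ 1 + (3381638120133709 / 4096000000000000000)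 * x ^ 2 * y ^ 2 + (9469396869483417237 / 40960000000000000000) * x ^ 2 * y ^ 3 + ((-1122468697595161) / 8192000000000000) * x ^ 3 * y ^ 0 + ((-36483102862031185493) / 40960000000000000000) * x ^ 3 * y ^ 1 + (9469396869483417237 / 40960000000000000000) * x ^ 3 * y ^ 2 + (132771385411704234546321 / 2048000000000000000000) * x ^ 3 * y ^ 3

lemma qf9_eq (x y : ℝ) : ∑ i ∈ range 4, ∑ j ∈ range 4, cA 9 i j * x ^ i * y ^ j = qf9 x y := by
  unfold cA
  rw [quad_ldl]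
  simp only [sum_range_succ, sum_range_zero, cw, cL, cL9]
  unfold qf9
  ring

/-- quadratic form, degree 10 -/
noncomputable def qf10 (x y : ℝ) : ℝ := (90537083 / 163840000000) * x ^ 0 * y ^ 0 + (8460056646769 / 1638400000000000) * x ^ 0 * y ^ 1 + (621174926463 / 102400000000000) * x ^ 0 * y ^ 2 + ((-32347722773821) / 204800000000000) * x ^ 0 * y ^ 3 + (8460056646769 / 1638400000000000) * x ^ 1 * y ^ 0 + (791693288181635667 / 16384000000000000000) * x ^ 1 * y ^ 1 + (58128658503921789 / 1024000000000000000) * x ^ 1 * y ^ 2 + ((-3027054089158584503) / 2048000000000000000) * x ^ 1 * y ^ 3 + (621174926463 / 102400000000000) * x ^ 2 * y ^ 0 + (58128658503921789 / 1024000000000000000) * x ^ 2 * y ^ 1 + (533515774933733503 / 8000000000000000000) * x ^ 2 * y ^ 2 + ((-5556494819685342721) / 3200000000000000000) * x ^ 2 * y ^ 3 + ((-32347722773821) / 204800000000000) * x ^ 3 * y ^ 0 + ((-3027054089158584503) /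 2048000000000000000) * x ^ 3 * y ^ 1 + ((-5556494819685342721) / 3200000000000000000) * x ^ 3 * y ^ 2 + (1446773864488249768831 / 32000000000000000000) * x ^ 3 * y ^ 3

lemma qf10_eq (x y : ℝ) : ∑ i ∈ range 4, ∑ j ∈ range 4, cA 10 i j * x ^ i * y ^ j = qf10 x y := by
  unfold cA
  rw [quad_ldl]
  simp only [sum_range_succ, sum_range_zero, cw, cL, cL10]
  unfold qf10
  ring

/-- quadratic form, degree 11 -/
noncomputable def qf11 (x y : ℝ) : ℝ := (9513623 / 40960000000) * x ^ 0 * y ^ 0 + (1882279824173 / 409600000000000) * x ^ 0 * y ^ 1 + ((-451868551631) / 25600000000000) * x ^ 0 * y ^ 2 + (102566369563 / 25600000000000) * x ^ 0 * y ^ 3 + (1882279824173 / 409600000000000) * x ^ 1 * y ^ 0 + (373704847726052223 / 4096000000000000000) * x ^ 1 * y ^ 1 + ((-89712477785469461) / 256000000000000000) * x ^ 1 * y ^ 2 + (20363190457694233 / 256000000000000000) * x ^ 1 * y ^ 3 + ((-451868551631) / 25600000000000)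 * x ^ 2 * y ^ 0 + ((-89712477785469461) / 256000000000000000) * x ^ 2 * y ^ 1 + (2692099366343798533 / 2000000000000000000) * x ^ 2 * y ^ 2 + ((-611060210224101377) / 2000000000000000000) * x ^ 2 * y ^ 3 + (102566369563 / 25600000000000) * x ^ 3 * y ^ 0 + (20363190457694233 / 256000000000000000) * x ^ 3 * y ^ 1 + ((-611060210224101377) / 2000000000000000000) * x ^ 3 * y ^ 2 + (138702740804389147 / 2000000000000000000) * x ^ 3 * y ^ 3

lemma qf11_eq (x y : ℝ) : ∑ i ∈ range 4, ∑ j ∈ range 4, cA 11 i j * x ^ i * y ^ j = qf11 x y := by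
  unfold cA
  rw [quad_ldl]
  simp only [sum_range_succ, sum_range_zero, cw, cL, cL11]
  unfold qf11
  ring

lemma sum_n (g : ℕ → ℝ) : ∑ k ∈ range (11 + 1), g k = g 0 + g 1 + g 2 + g 3 + g 4 + g 5 + g 6 + g 7 + g 8 + g 9 + g 10 + g 11 := by
  simp only [sum_range_succ, sum_range_zero, zero_add]

lemma Kt_eq (x y p m : ℝ) : Kt 11 4 cA x y p m =
    qf0 x y * Zg 8 0 p m + qf1 x y * Zg 8 1 p m + qf2 x y * Zg 8 2 p m + qf3 x y * Zg 8 3 p m + qf4 x y * Zg 8 4 p m + qf5 x y * Zg 8 5 p m + qf6 x y * Zg 8 6 p m + qf7 x y * Zg 8 7 p m + qf8 x y * Zg 8 8 p m + qf9 x y * Zg 8 9 p m + qf10 x y * Zg 8 10 p m + qf11 x y * Zg 8 11 p m := by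
  unfold Kt
  rw [sum_n, qf0_eq, qf1_eq, qf2_eq, qf3_eq, qf4_eq, qf5_eq, qf6_eq, qf7_eq, qf8_eq, qf9_eq, qf10_eq, qf11_eq]


/-- Kernel in the coordinates `x, y, T`. -/
noncomputable def Ktx (x y T : ℝ) : ℝ :=
  Kt 11 4 cA x y (T - 2 / 25 * x * y) ((1 - 2 / 5 * x) * (1 - 2 / 5 * y))

/-- With the factor `r^3 r'^3`. -/
noncomputable def K3 (x y T : ℝ) : ℝ := (1 - x) ^ 3 * (1 - y) ^ 3 * Ktx x y T

lemma Ktx_symm (x y T : ℝ) : Ktx x y T = Ktx y x T := by
  unfold Ktx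
  rw [Kt_symm _ _ _ cA_symm]
  congr 1 <;> ring

lemma K3_symm (x y T : ℝ) : K3 x y T = K3 y x T := by
  unfold K3
  rw [Ktx_symm]
  ring

end Pool.Agent.Lib.MP_f1379f_gt.FV.CX
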