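import Pool.Agent.Lib.MP_f1379f_gt.FV.CK2U

/-!
# box check, region n0
-/

set_option autoImplicit false
set_option linter.unusedVariables false
set_option linter.unusedSimpArgs false
set_option linter.unusedTactic false
set_option linter.style.longLine false
set_option maxRecDepth 100000

namespace Pool.Agent.Lib.MP_f1379f_gt.FV.CK2.n0r

open Finset Pool.Agent.Lib.MP_f1379f_gt.FV Pool.Agent.Lib.MP_f1379f_gt.FV.BCH Pool.Agent.Lib.MP_f1379f_gt.FV.CK2 Pool.Agent.Lib.MP_f1379f_gt.FV.CK2.U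

/-- node -/
def nd439 : Ex := .m nd7 nd16
/-- node -/
def nd440 : Ex := .m nd16 nd439
/-- node -/
def nd441 : Ex := .m nd439 nd439
/-- node -/
def nd442 : Ex := .m nd440 nd441
/-- node -/
def nd443 : Ex := .m nd16 nd16
/-- node -/
def nd444 : Ex := .m nd439 nd443
/-- node -/
def nd445 : Ex := .m nd441 nd444
/-- node -/
def nd446 : Ex := .m nd442 nd445
/-- node -/
def nd447 : Ex := .m nd19 nd446
/-- node -/
def eKPn0 : Ex := .f 1 eK3 6831825000000000000000000000000000000 nd447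
/-- node -/
def g0n0 : Ex := .f (-1) eKPn0 0 eKPn0

/-- real function of eKPn0 -/
noncomputable def f_eKPn0 (x y t : ℝ) : ℝ := f_eK3 x y t + ((13 / 2500) * (f_eP x y t * f_eP x y t))

theorem v_eKPn0 (x y t : ℝ) : val eKPn0 x y t = 821132812500000000000000000000000000000000 * (f_eKPn0 x y t) := by
  simp only [nd5, nd6, nd7, nd9, nd15, nd16, nd19, nd439, nd440, nd441, nd442, nd443, nd444, nd445, nd446, nd447, eKPn0, v_eP, v_eK3, val_f, val_h, val_m]
  unfold f_eKPn0
  push_cast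
  ring

/-- real function of g0n0 -/
noncomputable def f_g0n0 (x y t : ℝ) : ℝ := -f_eKPn0 x y t

theorem v_g0n0 (x y t : ℝ) : val g0n0 x y t = 821132812500000000000000000000000000000000 * (f_g0n0 x y t) := by
  simp only [g0n0, v_eKPn0, val_f]
  unfold f_g0n0
  push_cast
  ring

/-- parameters -/
def P0 : Par := ⟨715, 17, 17, 11, 3840, 3840, 2560, 896, 896, 2560⟩

theorem hP0 : chkPar P0 g0n0 = true := by decide +kernel

/-- kinds -/
def ks (k : ℕ) : Par × Ex :=
  match k with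
  | _ => (P0, g0n0)

lemma hks : ∀ k < 1, chkPar (ks k).1 (ks k).2 = true := by
  intro k hk
  interval_cases k
  · exact hP0

/-- subtree -/
def T0 : Tm := (.st 0 (.st (-640) (.st (-960) (.st (-1120) (.st (-1200) (.sx 224 (.lf 0) (.lf 0)) (.lf 0)) (.lf 0)) (.lf 0)) (.lf 0)) (.st 384 (.lf 0) (.lf 0)))
theorem hT0 : chkTm ks 1 3840 3840 2560 T0 ⟨0, 448, 0, 448, (-1280), 768⟩ = true := by decide +kernel

theorem cover (x y t : ℝ) (hyx : y ≤ x) (hx0 : 0 ≤ x) (hx1 : x ≤ (7 / 60))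
    (hy0 : 0 ≤ y) (hy1 : y ≤ (7 / 60))
    (ht0 : ((-1) / 2) ≤ t) (ht1 : t ≤ (3 / 10)) :
    ∃ k < 1, 0 ≤ val (ks k).2 x y t := by
  refine chkTm_sound ks 1 3840 3840 2560 (by norm_num) (by norm_num) hks T0 ⟨0, 448, 0, 448, (-1280), 768⟩ hT0 x y t hyx
    ?_ ?_ ?_ ?_ ?_ ?_ <;> push_cast <;> linarith

theorem good (x y t : ℝ) (hx : x ≤ 1) (hy : y ≤ 1) (h : ∃ k < 1, 0 ≤ val (ks k).2 x y t) :
    PG.Good7 (K3 x y t + ((13 / 2500) * (t - 2 / 25 * x * y) ^ 2)) x y t := by
  obtain ⟨k, hk, h⟩ := h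
  have hr : 0 ≤ (1 - x) ^ 3 * (1 - y) ^ 3 :=
    mul_nonneg (pow_nonneg (by linarith) 3) (pow_nonneg (by linarith) 3)
  interval_cases k
  · have h1 : 0 ≤ val g0n0 x y t := h
    rw [v_g0n0] at h1
    have h2 : 0 ≤ f_g0n0 x y t := nonneg_of_mul_nonneg_right h1 (by norm_num)
    refine (Or.inl ∘ Or.inl) ?_
    unfold f_g0n0 f_eKPn0 f_eP at h2
    simp only [K3x] at h2
    linarith

/-- All points of the region (both orders of `x, y`). -/
theorem region (x y t : ℝ) (hx0 : 0 ≤ x) (hx1 : x ≤ (7 / 60))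
    (hy0 : 0 ≤ y) (hy1 : y ≤ (7 / 60))
    (ht0 : ((-1) / 2) ≤ t) (ht1 : t ≤ (3 / 10)) :
    PG.Good7 (K3 x y t + ((13 / 2500) * (t - 2 / 25 * x * y) ^ 2)) x y t := by
  rcases le_total y x with h | h
  · exact good x y t (by linarith) (by linarith)
      (cover x y t h (by linarith) (by linarith) (by linarith) (by linarith) ht0 ht1)
  · have h1 := good y x t (by linarith) (by linarith)
      (cover y x t h (by linarith) (by linarith) (by linarith) (by linarith) ht0 ht1)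
    rw [K3_symm y x] at h1
    have h2 := PG.Good7_symm h1
    convert h2 using 2 <;> ring

end Pool.Agent.Lib.MP_f1379f_gt.FV.CK2.n0r
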