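import Pool.Agent.Lib.MP_f1379f_gt.FV.CKU

/-!
# box check, region A
-/

set_option autoImplicit false
set_option linter.unusedVariables false
set_option linter.style.longLine false
set_option maxRecDepth 100000

namespace Pool.Agent.Lib.MP_f1379f_gt.FV.CK.Ar

open Finset Pool.Agent.Lib.MP_f1379f_gt.FV Pool.Agent.Lib.MP_f1379f_gt.FV.BCH Pool.Agent.Lib.MP_f1379f_gt.FV.CK Pool.Agent.Lib.MP_f1379f_gt.FV.CK.U

/-- node -/
def nd438 : Ex := .f 91 nd9 (-200) nd2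
/-- node -/
def nd439 : Ex := .m eB nd438
/-- node -/
def nd440 : Ex := .m eR1 nd439
/-- node -/
def nd441 : Ex := .m nd7 nd16
/-- node -/
def nd442 : Ex := .m nd7 nd441
/-- node -/
def nd443 : Ex := .m nd442 nd442
/-- node -/
def nd444 : Ex := .m nd441 nd441
/-- node -/
def nd445 : Ex := .m nd442 nd444
/-- node -/
def nd446 : Ex := .m nd443 nd445
/-- node -/
def nd447 : Ex := .m nd440 nd446
/-- node -/
def eKPA : Ex := .f 1 eS11 8674241748046875000000000000000000000000000000000 nd447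
/-- node -/
def nd449 : Ex := .m nd445 nd445
/-- node -/
def nd450 : Ex := .m eB nd449
/-- node -/
def nd451 : Ex := .f 1 eKPA 2956078125000000000000000000000000000000000000 nd450
/-- node -/
def g0A : Ex := .f (-1) nd451 0 nd451

/-- real function of eKPA -/
noncomputable def f_eKPA (x y t : ℝ) : ℝ := f_eS11 x y t + (f_eR1 x y t * (((313 / 10000) * base (t)) * ((91 / 200) - t)))

theorem v_eKPA (x y t : ℝ) : val eKPA x y t = 221705859375000000000000000000000000000000000000000000 * (f_eKPA x y t) := by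
  simp only [nd2, nd5, nd6, nd7, nd9, nd15, nd16, nd438, nd439, nd440, nd441, nd442, nd443, nd444, nd445, nd446, nd447, eKPA, v_eS11, v_eB, v_eR1, val_f, val_h, val_m, val_vt]
  unfold f_eKPA
  push_cast
  ring

/-- real function of g0A -/
noncomputable def f_g0A (x y t : ℝ) : ℝ := -(f_eKPA x y t + ((1 / 18750000) * base (t)))

theorem v_g0A (x y t : ℝ) : val g0A x y t = 221705859375000000000000000000000000000000000000000000 * (f_g0A x y t) := by
  simp only [nd5, nd6, nd7, nd9, nd15, nd16, nd441, nd442, nd444, nd445, nd449, nd450, nd451, g0A, v_eB, v_eKPA, val_f, val_h, val_m]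
  unfold f_g0A
  push_cast
  ring

/-- parameters -/
def P0A : Par := ⟨636, 14, 14, 11, 1024, 1024, 2560, 2048, 2048, 2560⟩

theorem hP0A : chkPar P0A g0A = true := by decide +kernel

/-- kinds -/
def ks (k : ℕ) : Par × Ex :=
  match k with
  | _ => (P0A, g0A)

lemma hks : ∀ k < 1, chkPar (ks k).1 (ks k).2 = true := by
  intro k hk
  interval_cases k
  · exact hP0A

/-- subtree -/
def T0 : Tm := (.sy 512 (.st (-960) (.sx 256 (.sy 256 (.lf 0) (.lf 0)) (.lf 0)) (.lf 0)) (.st (-960) (.sx 256 .sk (.sy 768 (.lf 0) .sk)) (.lf 0)))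
theorem hT0 : chkTm ks 1 1024 1024 2560 T0 ⟨0, 512, 0, 1024, (-1280), (-640)⟩ = true := by decide +kernel
/-- subtree -/
def T1 : Tm := (.st (-960) (.sx 768 (.lf 0) (.sy 256 (.st (-1120) (.sx 896 (.lf 0) (.sy 128 (.lf 0) (.lf 0))) (.lf 0)) (.lf 0))) (.lf 0))
theorem hT1 : chkTm ks 1 1024 1024 2560 T1 ⟨512, 1024, 0, 512, (-1280), (-640)⟩ = true := by decide +kernel
/-- subtree -/
def T2 : Tm := (.sy 640 (.lf 0) (.st (-1200) (.lf 0) (.lf 0)))
theorem hT2 : chkTm ks 1 1024 1024 2560 T2 ⟨512, 640, 512, 768, (-1280), (-1120)⟩ = true := by decide +kernel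
/-- subtree -/
def T3 : Tm := (.st (-1200) (.lf 0) (.lf 0))
theorem hT3 : chkTm ks 1 1024 1024 2560 T3 ⟨640, 768, 512, 640, (-1280), (-1120)⟩ = true := by decide +kernel
/-- subtree -/
def T4 : Tm := (.sx 704 (.sy 704 (.st (-1240) (.lf 0) (.lf 0)) (.st (-1240) (.lf 0) (.sx 672 .sk (.sy 736 (.lf 0) .sk)))) (.sy 704 (.st (-1240) (.lf 0) (.sx 736 (.lf 0) (.lf 0))) (.st (-1240) (.lf 0) (.sx 736 (.sy 736 (.st (-1220) (.lf 0) (.sx 720 (.lf 0) (.lf 0))) (.st (-1220) (.lf 0) (.lf 0))) (.sy 736 (.st (-1220) (.lf 0) (.lf 0)) (.lf 0))))))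
theorem hT4 : chkTm ks 1 1024 1024 2560 T4 ⟨640, 768, 640, 768, (-1280), (-1200)⟩ = true := by decide +kernel
/-- subtree -/
def T5 : Tm := (.sx 704 (.lf 0) (.sy 704 (.lf 0) (.st (-1160) (.sx 736 (.sy 736 (.lf 0) (.lf 0)) (.sy 736 (.lf 0) (.lf 0))) (.lf 0))))
theorem hT5 : chkTm ks 1 1024 1024 2560 T5 ⟨640, 768, 640, 768, (-1200), (-1120)⟩ = true := by decide +kernel
/-- subtree -/
def T6 : Tm := .st (-1200) T4 T5
theorem hT6 : chkTm ks 1 1024 1024 2560 T6 ⟨640, 768, 640, 768, (-1280), (-1120)⟩ = true := gluem_t hT4 hT5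
/-- subtree -/
def T7 : Tm := .sy 640 T3 T6
theorem hT7 : chkTm ks 1 1024 1024 2560 T7 ⟨640, 768, 512, 768, (-1280), (-1120)⟩ = true := gluem_y hT3 hT6
/-- subtree -/
def T8 : Tm := .sx 640 T2 T7
theorem hT8 : chkTm ks 1 1024 1024 2560 T8 ⟨512, 768, 512, 768, (-1280), (-1120)⟩ = true := gluem_x hT2 hT7
/-- subtree -/
def T9 : Tm := (.lf 0)
theorem hT9 : chkTm ks 1 1024 1024 2560 T9 ⟨512, 768, 512, 768, (-1120), (-960)⟩ = true := by decide +kernel
/-- subtree -/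
def T10 : Tm := .st (-1120) T8 T9
theorem hT10 : chkTm ks 1 1024 1024 2560 T10 ⟨512, 768, 512, 768, (-1280), (-960)⟩ = true := gluem_t hT8 hT9
/-- subtree -/
def T11 : Tm := (.st (-1120) (.sx 640 .sk (.sy 896 (.st (-1200) (.sx 704 .sk (.lf 0)) (.sx 704 .sk (.lf 0))) .sk)) (.lf 0))
theorem hT11 : chkTm ks 1 1024 1024 2560 T11 ⟨512, 768, 768, 1024, (-1280), (-960)⟩ = true := by decide +kernel
/-- subtree -/
def T12 : Tm := .sy 768 T10 T11
theorem hT12 : chkTm ks 1 1024 1024 2560 T12 ⟨512, 768, 512, 1024, (-1280), (-960)⟩ = true := gluem_y hT10 hT11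
/-- subtree -/
def T13 : Tm := (.sy 768 (.st (-1120) (.sx 896 (.sy 640 (.st (-1200) (.lf 0) (.lf 0)) (.st (-1200) (.sx 832 (.sy 704 (.lf 0) (.lf 0)) (.lf 0)) (.sx 832 (.sy 704 (.lf 0) (.lf 0)) (.lf 0)))) (.lf 0)) (.lf 0)) (.st (-1120) (.lf 0) (.lf 0)))
theorem hT13 : chkTm ks 1 1024 1024 2560 T13 ⟨768, 1024, 512, 1024, (-1280), (-960)⟩ = true := by decide +kernel
/-- subtree -/
def T14 : Tm := .sx 768 T12 T13
theorem hT14 : chkTm ks 1 1024 1024 2560 T14 ⟨512, 1024, 512, 1024, (-1280), (-960)⟩ = true := gluem_x hT12 hT13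
/-- subtree -/
def T15 : Tm := (.lf 0)
theorem hT15 : chkTm ks 1 1024 1024 2560 T15 ⟨512, 1024, 512, 1024, (-960), (-640)⟩ = true := by decide +kernel
/-- subtree -/
def T16 : Tm := .st (-960) T14 T15
theorem hT16 : chkTm ks 1 1024 1024 2560 T16 ⟨512, 1024, 512, 1024, (-1280), (-640)⟩ = true := gluem_t hT14 hT15
/-- subtree -/
def T17 : Tm := .sy 512 T1 T16
theorem hT17 : chkTm ks 1 1024 1024 2560 T17 ⟨512, 1024, 0, 1024, (-1280), (-640)⟩ = true := gluem_y hT1 hT16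
/-- subtree -/
def T18 : Tm := .sx 512 T0 T17
theorem hT18 : chkTm ks 1 1024 1024 2560 T18 ⟨0, 1024, 0, 1024, (-1280), (-640)⟩ = true := gluem_x hT0 hT17
/-- subtree -/
def T19 : Tm := (.sx 512 (.sy 512 (.st (-320) (.lf 0) (.sx 256 (.sy 256 (.lf 0) (.lf 0)) (.lf 0))) (.st (-320) (.sx 256 .sk (.lf 0)) (.lf 0))) (.sy 512 (.st (-320) (.sx 768 (.lf 0) (.lf 0)) (.lf 0)) (.st (-320) (.lf 0) (.sx 768 (.lf 0) (.sy 768 (.lf 0) (.st (-160) (.lf 0) (.lf 0)))))))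
theorem hT19 : chkTm ks 1 1024 1024 2560 T19 ⟨0, 1024, 0, 1024, (-640), 0⟩ = true := by decide +kernel
/-- subtree -/
def T20 : Tm := .st (-640) T18 T19
theorem hT20 : chkTm ks 1 1024 1024 2560 T20 ⟨0, 1024, 0, 1024, (-1280), 0⟩ = true := gluem_t hT18 hT19
/-- subtree -/
def T21 : Tm := (.sy 512 (.st 256 (.sx 512 (.lf 0) (.sy 256 (.lf 0) (.lf 0))) (.sy 256 (.lf 0) (.lf 0))) (.sx 512 (.sx 256 .sk (.lf 0)) (.st 256 (.lf 0) (.lf 0))))
theorem hT21 : chkTm ks 1 1024 1024 2560 T21 ⟨0, 1024, 0, 1024, 0, 512⟩ = true := by decide +kernel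
/-- subtree -/
def T22 : Tm := (.st 768 (.sx 512 (.lf 0) (.st 640 (.sy 256 (.lf 0) (.sx 768 (.lf 0) (.lf 0))) (.sx 768 (.lf 0) (.sy 256 (.lf 0) (.sy 384 (.lf 0) (.lf 0)))))) (.lf 0))
theorem hT22 : chkTm ks 1 1024 1024 2560 T22 ⟨0, 1024, 0, 512, 512, 1024⟩ = true := by decide +kernel
/-- subtree -/
def T23 : Tm := (.st 768 (.sx 512 (.sy 768 (.sy 640 (.lf 0) .sk) .sk) (.st 640 (.lf 0) (.sy 768 (.sx 768 (.lf 0) (.lf 0)) (.lf 0)))) (.sx 512 (.lf 0) (.sy 768 (.sx 768 (.st 896 (.lf 0) (.lf 0)) (.st 896 (.lf 0) (.lf 0))) (.sx 768 (.st 896 (.lf 0) (.lf 0)) (.st 896 (.st 832 (.lf 0) (.lf 0)) (.lf 0))))))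
theorem hT23 : chkTm ks 1 1024 1024 2560 T23 ⟨0, 1024, 512, 1024, 512, 1024⟩ = true := by decide +kernel
/-- subtree -/
def T24 : Tm := .sy 512 T22 T23
theorem hT24 : chkTm ks 1 1024 1024 2560 T24 ⟨0, 1024, 0, 1024, 512, 1024⟩ = true := gluem_y hT22 hT23
/-- subtree -/
def T25 : Tm := .st 512 T21 T24
theorem hT25 : chkTm ks 1 1024 1024 2560 T25 ⟨0, 1024, 0, 1024, 0, 1024⟩ = true := gluem_t hT21 hT24
/-- subtree -/
def T26 : Tm := .st 0 T20 T25
theorem hT26 : chkTm ks 1 1024 1024 2560 T26 ⟨0, 1024, 0, 1024, (-1280), 1024⟩ = true := gluem_t hT20 hT25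

theorem cover (x y t : ℝ) (hyx : y ≤ x) (hx0 : 0 ≤ x) (hx1 : x ≤ 1)
    (hy0 : 0 ≤ y) (hy1 : y ≤ 1)
    (ht0 : ((-1) / 2) ≤ t) (ht1 : t ≤ (2 / 5)) :
    ∃ k < 1, 0 ≤ val (ks k).2 x y t := by
  refine chkTm_sound ks 1 1024 1024 2560 (by norm_num) (by norm_num) hks T26 ⟨0, 1024, 0, 1024, (-1280), 1024⟩ hT26 x y t hyx
    ?_ ?_ ?_ ?_ ?_ ?_ <;> push_cast <;> linarith


theorem good (x y t : ℝ) (h : ∃ k < 1, 0 ≤ val (ks k).2 x y t) : Good x y t (313 / 10000 * base t * (91 / 200 - t)) := by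
  obtain ⟨k, hk, h⟩ := h
  interval_cases k
  · have h1 : 0 ≤ val g0A x y t := h
    rw [v_g0A] at h1
    have h2 : 0 ≤ f_g0A x y t := nonneg_of_mul_nonneg_right h1 (by norm_num)
    unfold f_g0A f_eKPA at h2
    rw [KTx] at h2
    refine (Or.inl) ?_
    unfold NegP EE
    unfold f_eR1 at h2
    linarith

/-- All points of the region (both orders of `x, y`). -/
theorem region (x y t : ℝ) (hx0 : 0 ≤ x) (hx1 : x ≤ 1) (hy0 : 0 ≤ y) (hy1 : y ≤ 1)
    (ht0 : ((-1) / 2) ≤ t) (ht1 : t ≤ (2 / 5)) :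
    Good x y t (313 / 10000 * base t * (91 / 200 - t)) := by
  rcases le_total y x with h | h
  · exact good x y t (cover x y t h (by linarith) (by linarith) (by linarith) (by linarith) ht0 ht1)
  · exact Good_symm _ _ _ _
      (good y x t (cover y x t h (by linarith) (by linarith) (by linarith) (by linarith) ht0 ht1))

end Pool.Agent.Lib.MP_f1379f_gt.FV.CK.Ar
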