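import Pool.Agent.Lib.MP_f1379f_gt.FV.BCM
import Pool.Agent.Lib.MP_f1379f_gt.FV.CK0

/-!
# programs of the upper chart
-/

set_option autoImplicit false
set_option linter.unusedVariables false
set_option linter.style.longLine false
set_option maxRecDepth 100000

namespace Pool.Agent.Lib.MP_f1379f_gt.FV.CK.U

open Finset Pool.Agent.Lib.MP_f1379f_gt.FV Pool.Agent.Lib.MP_f1379f_gt.FV.BCH Pool.Agent.Lib.MP_f1379f_gt.FV.CK

/-- node -/
def nd0 : Ex := .v .x
/-- node -/
def nd1 : Ex := .v .y
/-- node -/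
def nd2 : Ex := .v .t
/-- node -/
def nd4 : Ex := .m nd0 nd1
/-- node -/
def nd5 : Ex := .h .x
/-- node -/
def nd6 : Ex := .h .y
/-- node -/
def nd7 : Ex := .m nd5 nd6
/-- node -/
def nd8 : Ex := .m nd2 nd7
/-- node -/
def nd9 : Ex := .h .t
/-- node -/
def nd10 : Ex := .m nd4 nd9
/-- node -/
def eP : Ex := .f 25 nd8 (-2) nd10
/-- node -/
def nd12 : Ex := .f 5 nd5 (-2) nd0
/-- node -/
def nd13 : Ex := .f 5 nd6 (-2) nd1
/-- node -/
def nd14 : Ex := .m nd12 nd13
/-- node -/
def nd15 : Ex := .m nd6 nd9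
/-- node -/
def nd16 : Ex := .m nd5 nd15
/-- node -/
def nd17 : Ex := .m nd9 nd16
/-- node -/
def eM : Ex := .m nd14 nd17
/-- node -/
def nd19 : Ex := .m eP eP
/-- node -/
def eW2 : Ex := .f 8 nd19 (-25) eM
/-- node -/
def nd21 : Ex := .m eP eW2
/-- node -/
def nd22 : Ex := .m eM eP
/-- node -/
def eW3 : Ex := .f 1 nd21 (-35) nd22
/-- node -/
def nd24 : Ex := .m eP eW3
/-- node -/
def nd25 : Ex := .m eM eW2
/-- node -/
def eW4 : Ex := .f 1 nd24 (-5) nd25
/-- node -/
def nd27 : Ex := .m eP eW4
/-- node -/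
def nd28 : Ex := .m eM eW3
/-- node -/
def eW5 : Ex := .f 14 nd27 (-75) nd28
/-- node -/
def nd30 : Ex := .m eP eW5
/-- node -/
def nd31 : Ex := .m eM eW4
/-- node -/
def eW6 : Ex := .f 8 nd30 (-625) nd31
/-- node -/
def nd33 : Ex := .m eP eW6
/-- node -/
def nd34 : Ex := .m eM eW5
/-- node -/
def eW7 : Ex := .f 6 nd33 (-275) nd34
/-- node -/
def nd36 : Ex := .m eP eW7
/-- node -/
def nd37 : Ex := .m eM eW6
/-- node -/
def eW8 : Ex := .f 1 nd36 (-35) nd37
/-- node -/
def nd39 : Ex := .m eP eW8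
/-- node -/
def nd40 : Ex := .m eM eW7
/-- node -/
def eW9 : Ex := .f 11 nd39 (-65) nd40
/-- node -/
def nd42 : Ex := .m eP eW9
/-- node -/
def nd43 : Ex := .m eM eW8
/-- node -/
def eW10 : Ex := .f 8 nd42 (-525) nd43
/-- node -/
def nd45 : Ex := .m eP eW10
/-- node -/
def nd46 : Ex := .m eM eW9
/-- node -/
def eW11 : Ex := .f 13 nd45 (-625) nd46
/-- node -/
def nd48 : Ex := .f 6250000 nd6 12547293 nd1
/-- node -/
def nd49 : Ex := .m nd1 nd1
/-- node -/
def nd50 : Ex := .m nd48 nd6
/-- node -/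
def nd51 : Ex := .f 8 nd50 (-197541929) nd49
/-- node -/
def nd52 : Ex := .m nd49 nd1
/-- node -/
def nd53 : Ex := .m nd51 nd6
/-- node -/
def nd54 : Ex := .f 2 nd53 103946643 nd52
/-- node -/
def nd55 : Ex := .f 3338442564393750000 nd6 7579807432434159779 nd1
/-- node -/
def nd56 : Ex := .m nd55 nd6
/-- node -/
def nd57 : Ex := .f 8 nd56 (-157800037523698758987) nd49
/-- node -/
def nd58 : Ex := .m nd57 nd6
/-- node -/
def nd59 : Ex := .f 2 nd58 166666644136610485329 nd52
/-- node -/
def nd60 : Ex := .m nd0 nd59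
/-- node -/
def nd61 : Ex := .m nd54 nd5
/-- node -/
def nd62 : Ex := .f 266068750000 nd61 1 nd60
/-- node -/
def nd63 : Ex := .f (-52559734121618750000) nd6 (-157800037523698758987) nd1
/-- node -/
def nd64 : Ex := .m nd63 nd6
/-- node -/
def nd65 : Ex := .f 100000 nd64 60058170486280708120282183 nd49
/-- node -/
def nd66 : Ex := .m nd65 nd6
/-- node -/
def nd67 : Ex := .f 2 nd66 (-94593064845739555800374915) nd52
/-- node -/
def nd68 : Ex := .m nd0 nd0
/-- node -/
def nd69 : Ex := .m nd68 nd67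
/-- node -/
def nd70 : Ex := .m nd62 nd5
/-- node -/
def nd71 : Ex := .f 100000 nd70 1 nd69
/-- node -/
def nd72 : Ex := .f 9218984456568750000 nd6 55555548045536828443 nd1
/-- node -/
def nd73 : Ex := .m nd72 nd6
/-- node -/
def nd74 : Ex := .f 60000 nd73 (-18918612969147911160074983) nd49
/-- node -/
def nd75 : Ex := .m nd74 nd6
/-- node -/
def nd76 : Ex := .f 10 nd75 183998753515582533453864651 nd52
/-- node -/
def nd77 : Ex := .m nd68 nd0
/-- node -/
def nd78 : Ex := .m nd77 nd76
/-- node -/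
def nd79 : Ex := .m nd71 nd5
/-- node -/
def eq0 : Ex := .f 2 nd79 1 nd78
/-- node -/
def nd81 : Ex := .m eq0 nd16
/-- node -/
def nd82 : Ex := .f 100000000 nd6 305876901 nd1
/-- node -/
def nd83 : Ex := .m nd82 nd6
/-- node -/
def nd84 : Ex := .f 1 nd83 (-321174116) nd49
/-- node -/
def nd85 : Ex := .m nd84 nd6
/-- node -/
def nd86 : Ex := .f 1 nd85 36888103 nd52
/-- node -/
def nd87 : Ex := .f 10922246521703414687900000000 nd6 38312343815615017258527341979 nd1
/-- node -/
def nd88 : Ex := .m nd87 nd6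
/-- node -/
def nd89 : Ex := .f 1 nd88 (-62627948613554059940736183964) nd49
/-- node -/
def nd90 : Ex := .m nd89 nd6
/-- node -/
def nd91 : Ex := .f 1 nd90 23045641775464660181383280537 nd52
/-- node -/
def nd92 : Ex := .m nd0 nd91
/-- node -/
def nd93 : Ex := .m nd86 nd5
/-- node -/
def nd94 : Ex := .f 107123942533700000000 nd93 3 nd92
/-- node -/
def nd95 : Ex := .f (-8601359386423974427300000000) nd6 (-46970961460165544955552137973) nd1
/-- node -/
def nd96 : Ex := .m nd95 nd6
/-- node -/
def nd97 : Ex := .f 125 nd96 24752617544129838486464088409108 nd49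
/-- node -/
def nd98 : Ex := .m nd97 nd6
/-- node -/
def nd99 : Ex := .f 1 nd98 (-13594943125380826003785541476539) nd52
/-- node -/
def nd100 : Ex := .m nd68 nd99
/-- node -/
def nd101 : Ex := .m nd94 nd5
/-- node -/
def nd102 : Ex := .f 125 nd101 4 nd100
/-- node -/
def nd103 : Ex := .f 3951599025949206571100000000 nd6 69136925326393980544149841611 nd1
/-- node -/
def nd104 : Ex := .m nd103 nd6
/-- node -/
def nd105 : Ex := .f 125 nd104 (-54379772501523304015142165906156) nd49
/-- node -/
def nd106 : Ex := .m nd105 nd6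
/-- node -/
def nd107 : Ex := .f 1 nd106 56385860271202494829570259020165 nd52
/-- node -/
def nd108 : Ex := .m nd77 nd107
/-- node -/
def nd109 : Ex := .m nd102 nd5
/-- node -/
def eq1 : Ex := .f 1 nd109 1 nd108
/-- node -/
def nd111 : Ex := .m eq1 eP
/-- node -/
def eS1 : Ex := .f 921600 nd81 1 nd111
/-- node -/
def nd113 : Ex := .m eS1 nd16
/-- node -/
def nd114 : Ex := .f 100000000 nd6 387908683 nd1
/-- node -/
def nd115 : Ex := .m nd114 nd6
/-- node -/
def nd116 : Ex := .f 1 nd115 (-334394418) nd49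
/-- node -/
def nd117 : Ex := .m nd116 nd6
/-- node -/
def nd118 : Ex := .f 1 nd117 59543840 nd52
/-- node -/
def nd119 : Ex := .f 122101790081362786079300000000 nd6 492643005764053091932319965619 nd1
/-- node -/
def nd120 : Ex := .m nd119 nd6
/-- node -/
def nd121 : Ex := .f 1 nd120 (-353042131486528596677429853474) nd49
/-- node -/
def nd122 : Ex := .m nd121 nd6
/-- node -/
def nd123 : Ex := .f 1 nd122 82514145666816370695195865120 nd52
/-- node -/
def nd124 : Ex := .m nd0 nd123
/-- node -/
def nd125 : Ex := .m nd118 nd5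
/-- node -/
def nd126 : Ex := .f 314769417217100000000 nd125 1 nd124
/-- node -/
def nd127 : Ex := .f (-17542856012418555691300000000) nd6 (-58840355247754766112904975579) nd1
/-- node -/
def nd128 : Ex := .m nd127 nd6
/-- node -/
def nd129 : Ex := .f 125 nd128 10692148985585771887208780204874 nd49
/-- node -/
def nd130 : Ex := .m nd129 nd6
/-- node -/
def nd131 : Ex := .f 1 nd130 (-710201485103868982245089929888) nd52
/-- node -/
def nd132 : Ex := .m nd68 nd131
/-- node -/
def nd133 : Ex := .m nd126 nd5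
/-- node -/
def nd134 : Ex := .f 125 nd133 6 nd132
/-- node -/
def nd135 : Ex := .f 117141123847926547900000000 nd6 515713410417602316844974157 nd1
/-- node -/
def nd136 : Ex := .m nd135 nd6
/-- node -/
def nd137 : Ex := .f 625 nd136 (-133162778456975434170954361854) nd49
/-- node -/
def nd138 : Ex := .m nd137 nd6
/-- node -/
def nd139 : Ex := .f 1 nd138 63410049490942284153585911648 nd52
/-- node -/
def nd140 : Ex := .m nd77 nd139
/-- node -/
def nd141 : Ex := .m nd134 nd5
/-- node -/
def eq2 : Ex := .f 1 nd141 32 nd140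
/-- node -/
def nd143 : Ex := .m eq2 eW2
/-- node -/
def eS2 : Ex := .f 175 nd113 1 nd143
/-- node -/
def nd145 : Ex := .m eS2 nd16
/-- node -/
def nd146 : Ex := .f 100000000 nd6 440543329 nd1
/-- node -/
def nd147 : Ex := .m nd146 nd6
/-- node -/
def nd148 : Ex := .f 1 nd147 (-129648984) nd49
/-- node -/
def nd149 : Ex := .m nd148 nd6
/-- node -/
def nd150 : Ex := .f 1 nd149 49356551 nd52
/-- node -/
def nd151 : Ex := .f 268917247582901575131700000000 nd6 1205062892418039913878627314293 nd1
/-- node -/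
def nd152 : Ex := .m nd151 nd6
/-- node -/
def nd153 : Ex := .f 1 nd152 (-367372404966475972292837711928) nd49
/-- node -/
def nd154 : Ex := .m nd153 nd6
/-- node -/
def nd155 : Ex := .f 1 nd154 (-204375499909750556478101572333) nd52
/-- node -/
def nd156 : Ex := .m nd0 nd155
/-- node -/
def nd157 : Ex := .m nd150 nd5
/-- node -/
def nd158 : Ex := .f 610421790277300000000 nd157 1 nd156
/-- node -/
def nd159 : Ex := .f (-3297523538371375969300000000) nd6 (-15307183540269832178868237997) nd1
/-- node -/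
def nd160 : Ex := .m nd159 nd6
/-- node -/
def nd161 : Ex := .f 5 nd160 24967004138196061119931113816 nd49
/-- node -/
def nd162 : Ex := .m nd161 nd6
/-- node -/
def nd163 : Ex := .f 5 nd162 282686987182447706025711806941 nd52
/-- node -/
def nd164 : Ex := .m nd68 nd163
/-- node -/
def nd165 : Ex := .m nd158 nd5
/-- node -/
def nd166 : Ex := .f 25 nd165 24 nd164
/-- node -/
def nd167 : Ex := .f 30128314223332861592300000000 nd6 (-204375499909750556478101572333) nd1
/-- node -/
def nd168 : Ex := .m nd167 nd6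
/-- node -/
def nd169 : Ex := .f 25 nd168 6784487692378744944617083366584 nd49
/-- node -/
def nd170 : Ex := .m nd169 nd6
/-- node -/
def nd171 : Ex := .f 5 nd170 701020409311886452992250454762129 nd52
/-- node -/
def nd172 : Ex := .m nd77 nd171
/-- node -/
def nd173 : Ex := .m nd166 nd5
/-- node -/
def eq3 : Ex := .f 5 nd173 1 nd172
/-- node -/
def nd175 : Ex := .m eq3 eW3
/-- node -/
def eS3 : Ex := .f 20 nd145 1 nd175
/-- node -/
def nd177 : Ex := .m eS3 nd16
/-- node -/
def nd178 : Ex := .f 100000000 nd6 497235537 nd1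
/-- node -/
def nd179 : Ex := .m nd178 nd6
/-- node -/
def nd180 : Ex := .f 1 nd179 43168638 nd49
/-- node -/
def nd181 : Ex := .m nd180 nd6
/-- node -/
def nd182 : Ex := .f 1 nd181 153315332 nd52
/-- node -/
def nd183 : Ex := .f 1437236835078824163300000000 nd6 7166274551649355701670511921 nd1
/-- node -/
def nd184 : Ex := .m nd183 nd6
/-- node -/
def nd185 : Ex := .f 1 nd184 913269268063321499708305854 nd49
/-- node -/
def nd186 : Ex := .m nd185 nd6
/-- node -/
def nd187 : Ex := .f 1 nd186 1343323582499484459051617156 nd52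
/-- node -/
def nd188 : Ex := .m nd0 nd187
/-- node -/
def nd189 : Ex := .m nd182 nd5
/-- node -/
def nd190 : Ex := .f 754408697774900000000 nd189 261 nd188
/-- node -/
def nd191 : Ex := .f 5427799329716010597700000000 nd6 39727213160754485237311304649 nd1
/-- node -/
def nd192 : Ex := .m nd191 nd6
/-- node -/
def nd193 : Ex := .f 125 nd192 24092438074998416299946456522838 nd49
/-- node -/
def nd194 : Ex := .m nd193 nd6
/-- node -/
def nd195 : Ex := .f 1 nd194 (-68879549051753798976642301412780) nd52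
/-- node -/
def nd196 : Ex := .m nd68 nd195
/-- node -/
def nd197 : Ex := .m nd190 nd5
/-- node -/
def nd198 : Ex := .f 125 nd197 6 nd196
/-- node -/
def nd199 : Ex := .f 28915604990761613691700000000 nd6 87651863758091360953118019429 nd1
/-- node -/
def nd200 : Ex := .m nd199 nd6
/-- node -/
def nd201 : Ex := .f 25 nd200 (-20663864715526139692992690423834) nd49
/-- node -/
def nd202 : Ex := .m nd201 nd6
/-- node -/
def nd203 : Ex := .f 5 nd202 313664520804324699107256333287428 nd52
/-- node -/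
def nd204 : Ex := .m nd77 nd203
/-- node -/
def nd205 : Ex := .m nd198 nd5
/-- node -/
def eq4 : Ex := .f 1 nd205 4 nd204
/-- node -/
def nd207 : Ex := .m eq4 eW4
/-- node -/
def eS4 : Ex := .f 75 nd177 4 nd207
/-- node -/
def nd209 : Ex := .m eS4 nd16
/-- node -/
def nd210 : Ex := .f 100000000 nd6 528527069 nd1
/-- node -/
def nd211 : Ex := .m nd210 nd6
/-- node -/
def nd212 : Ex := .f 1 nd211 357417283 nd49
/-- node -/
def nd213 : Ex := .m nd212 nd6
/-- node -/
def nd214 : Ex := .f 1 nd213 532737558 nd52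
/-- node -/
def nd215 : Ex := .f 519553412577968453509300000000 nd6 2806864953524983927077330932417 nd1
/-- node -/
def nd216 : Ex := .m nd215 nd6
/-- node -/
def nd217 : Ex := .f 1 nd216 944361588897579801623395812319 nd49
/-- node -/
def nd218 : Ex := .m nd217 nd6
/-- node -/
def nd219 : Ex := .f 1 nd218 5528810570957245062546274122894 nd52
/-- node -/
def nd220 : Ex := .m nd0 nd219
/-- node -/
def nd221 : Ex := .m nd214 nd5
/-- node -/
def nd222 : Ex := .f 983021387269700000000 nd221 1 nd220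
/-- node -/
def nd223 : Ex := .f 351348833368826962225100000000 nd6 944361588897579801623395812319 nd1
/-- node -/
def nd224 : Ex := .m nd223 nd6
/-- node -/
def nd225 : Ex := .f 125 nd224 1870036664570430671379654493932541 nd49
/-- node -/
def nd226 : Ex := .m nd225 nd6
/-- node -/
def nd227 : Ex := .f 1 nd226 (-4948021118559683335399651794927510) nd52
/-- node -/
def nd228 : Ex := .m nd68 nd227
/-- node -/
def nd229 : Ex := .m nd222 nd5
/-- node -/
def nd230 : Ex := .f 125 nd229 1 nd228
/-- node -/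
def nd231 : Ex := .f 29094022961990681410700000000 nd6 307156142830958059030348562383 nd1
/-- node -/
def nd232 : Ex := .m nd231 nd6
/-- node -/
def nd233 : Ex := .f 25 nd232 (-54978012428440925948885019943639) nd49
/-- node -/
def nd234 : Ex := .m nd233 nd6
/-- node -/
def nd235 : Ex := .f 5 nd234 890239104163784982785381475256074 nd52
/-- node -/
def nd236 : Ex := .m nd77 nd235
/-- node -/
def nd237 : Ex := .m nd230 nd5
/-- node -/
def eq5 : Ex := .f 1 nd237 18 nd236
/-- node -/
def nd239 : Ex := .m eq5 eW5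
/-- node -/
def eS5 : Ex := .f 375 nd209 4 nd239
/-- node -/
def nd241 : Ex := .m eS5 nd16
/-- node -/
def nd242 : Ex := .f 100000000 nd6 543416841 nd1
/-- node -/
def nd243 : Ex := .m nd242 nd6
/-- node -/
def nd244 : Ex := .f 1 nd243 793411161 nd49
/-- node -/
def nd245 : Ex := .m nd244 nd6
/-- node -/
def nd246 : Ex := .f 1 nd245 2051469722 nd52
/-- node -/
def nd247 : Ex := .f 18280580950188748315300000000 nd6 129840835224102999632443979673 nd1
/-- node -/
def nd248 : Ex := .m nd247 nd6
/-- node -/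
def nd249 : Ex := .f 1 nd248 (-188447823951625190683160729367) nd49
/-- node -/
def nd250 : Ex := .m nd249 nd6
/-- node -/
def nd251 : Ex := .f 1 nd250 887162998025198775743478193466 nd52
/-- node -/
def nd252 : Ex := .m nd0 nd251
/-- node -/
def nd253 : Ex := .m nd246 nd5
/-- node -/
def nd254 : Ex := .f 302760636289700000000 nd253 9 nd252
/-- node -/
def nd255 : Ex := .f 80071222647903203113900000000 nd6 (-565343471854875572049482188101) nd1
/-- node -/
def nd256 : Ex := .m nd255 nd6
/-- node -/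
def nd257 : Ex := .f 125 nd256 1447210558225740061562984139800703 nd49
/-- node -/
def nd258 : Ex := .m nd257 nd6
/-- node -/
def nd259 : Ex := .f 1 nd258 (-1895001895443562327281965359823402) nd52
/-- node -/
def nd260 : Ex := .m nd68 nd259
/-- node -/
def nd261 : Ex := .m nd254 nd5
/-- node -/
def nd262 : Ex := .f 125 nd261 3 nd260
/-- node -/
def nd263 : Ex := .f 310552139180886985231700000000 nd6 3992233491113394490845651870597 nd1
/-- node -/
def nd264 : Ex := .m nd263 nd6
/-- node -/
def nd265 : Ex := .f 125 nd264 (-2842502843165343490922948039735103) nd49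
/-- node -/
def nd266 : Ex := .m nd265 nd6
/-- node -/
def nd267 : Ex := .f 1 nd266 5634283533702698031001671959097002 nd52
/-- node -/
def nd268 : Ex := .m nd77 nd267
/-- node -/
def nd269 : Ex := .m nd262 nd5
/-- node -/
def eq6 : Ex := .f 1 nd269 2 nd268
/-- node -/
def nd271 : Ex := .m eq6 eW6
/-- node -/
def eS6 : Ex := .f 275 nd241 12 nd271
/-- node -/
def nd273 : Ex := .m eS6 nd16
/-- node -/
def nd274 : Ex := .f 5000000 nd6 87385583 nd1
/-- node -/
def nd275 : Ex := .m nd274 nd6
/-- node -/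
def nd276 : Ex := .f 10 nd275 (-3757767253) nd49
/-- node -/
def nd277 : Ex := .m nd276 nd6
/-- node -/
def nd278 : Ex := .f 1 nd277 21753073279 nd52
/-- node -/
def nd279 : Ex := .f 35218911201773067235000000 nd6 952457682427812582805734601 nd1
/-- node -/
def nd280 : Ex := .m nd279 nd6
/-- node -/
def nd281 : Ex := .f 10 nd280 (-76096135223295971488165507091) nd49
/-- node -/
def nd282 : Ex := .m nd281 nd6
/-- node -/
def nd283 : Ex := .f 1 nd282 229737881559752248153110678713 nd52
/-- node -/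
def nd284 : Ex := .m nd0 nd283
/-- node -/
def nd285 : Ex := .m nd278 nd5
/-- node -/
def nd286 : Ex := .f 403028852045000000 nd285 1 nd284
/-- node -/
def nd287 : Ex := .f (-1514488622228883082385000000) nd6 (-76096135223295971488165507091) nd1
/-- node -/
def nd288 : Ex := .m nd287 nd6
/-- node -/
def nd289 : Ex := .f 6250 nd288 5287375049826008481416383248871441 nd49
/-- node -/
def nd290 : Ex := .m nd289 nd6
/-- node -/
def nd291 : Ex := .f 1 nd290 (-11160271743823348724895997320964531) nd52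
/-- node -/
def nd292 : Ex := .m nd68 nd291
/-- node -/
def nd293 : Ex := .m nd286 nd5
/-- node -/
def nd294 : Ex := .f 6250 nd293 1 nd292
/-- node -/
def nd295 : Ex := .f 8767116152086134005555000000 nd6 229737881559752248153110678713 nd1
/-- node -/
def nd296 : Ex := .m nd295 nd6
/-- node -/
def nd297 : Ex := .f 6250 nd296 (-11160271743823348724895997320964531) nd49
/-- node -/
def nd298 : Ex := .m nd297 nd6
/-- node -/
def nd299 : Ex := .f 1 nd298 34699117928359792057171150950623641 nd52
/-- node -/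
def nd300 : Ex := .m nd77 nd299
/-- node -/
def nd301 : Ex := .m nd294 nd5
/-- node -/
def eq7 : Ex := .f 1 nd301 1 nd300
/-- node -/
def nd303 : Ex := .m eq7 eW7
/-- node -/
def eS7 : Ex := .f 25 nd273 4 nd303
/-- node -/
def nd305 : Ex := .m eS7 nd16
/-- node -/
def nd306 : Ex := .m nd1 nd6
/-- node -/
def nd307 : Ex := .f 25000000 nd306 (-368701743) nd49
/-- node -/
def nd308 : Ex := .m nd307 nd6
/-- node -/
def nd309 : Ex := .f 4 nd308 3114557767 nd52
/-- node -/
def nd310 : Ex := .m nd0 nd309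
/-- node -/
def nd311 : Ex := .f (-770148177881143848825000000) nd306 12822143588049571355820240079 nd49
/-- node -/
def nd312 : Ex := .m nd311 nd6
/-- node -/
def nd313 : Ex := .f 4 nd312 (-116623721969726422441987102951) nd52
/-- node -/
def nd314 : Ex := .m nd68 nd313
/-- node -/
def nd315 : Ex := .m nd310 nd5
/-- node -/
def nd316 : Ex := .f 2088810786775000000 nd315 1 nd314
/-- node -/
def nd317 : Ex := .f 6505721859743457131425000000 nd306 (-116623721969726422441987102951) nd49
/-- node -/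
def nd318 : Ex := .m nd317 nd6
/-- node -/
def nd319 : Ex := .f 4 nd318 1102539976003111322214873611723 nd52
/-- node -/
def nd320 : Ex := .m nd77 nd319
/-- node -/
def nd321 : Ex := .m nd316 nd5
/-- node -/
def eq8 : Ex := .f 4 nd321 1 nd320
/-- node -/
def nd323 : Ex := .m eq8 eW8
/-- node -/
def eS8 : Ex := .f 65 nd305 442368 nd323
/-- node -/
def nd325 : Ex := .m eS8 nd16
/-- node -/
def nd326 : Ex := .f 100000000 nd6 (-1558237413) nd1
/-- node -/
def nd327 : Ex := .m nd326 nd6
/-- node -/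
def nd328 : Ex := .f 1 nd327 33816973729 nd49
/-- node -/
def nd329 : Ex := .m nd328 nd6
/-- node -/
def nd330 : Ex := .f 1 nd329 (-94439656632) nd52
/-- node -/
def nd331 : Ex := .f (-525692495679482942300000000) nd6 8212947626777511771871802699 nd1
/-- node -/
def nd332 : Ex := .m nd331 nd6
/-- node -/
def nd333 : Ex := .f 1 nd332 (-178236044003659713264627228367) nd49
/-- node -/
def nd334 : Ex := .m nd333 nd6
/-- node -/
def nd335 : Ex := .f 1 nd334 497754498336953339443146683336 nd52
/-- node -/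
def nd336 : Ex := .m nd0 nd335
/-- node -/
def nd337 : Ex := .m nd330 nd5
/-- node -/
def nd338 : Ex := .f 1012090631300000000 nd337 3 nd336
/-- node -/
def nd339 : Ex := .f 34225842290039125117700000000 nd6 (-534708132010979139793881685101) nd1
/-- node -/
def nd340 : Ex := .m nd339 nd6
/-- node -/
def nd341 : Ex := .f 1 nd340 11604272307955155655720748849033 nd49
/-- node -/
def nd342 : Ex := .m nd341 nd6
/-- node -/
def nd343 : Ex := .f 1 nd342 (-32406905365385272537510300103544) nd52
/-- node -/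
def nd344 : Ex := .m nd68 nd343
/-- node -/
def nd345 : Ex := .m nd338 nd5
/-- node -/
def nd346 : Ex := .f 1 nd345 1 nd344
/-- node -/
def nd347 : Ex := .f (-3982562154184837990900000000) nd6 62219312292119167430393335417 nd1
/-- node -/
def nd348 : Ex := .m nd347 nd6
/-- node -/
def nd349 : Ex := .f 1 nd348 (-1350287723557719689062929170981) nd49
/-- node -/
def nd350 : Ex := .m nd349 nd6
/-- node -/
def nd351 : Ex := .f 375 nd350 1414090639341976524560492526700456 nd52
/-- node -/
def nd352 : Ex := .m nd77 nd351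
/-- node -/
def nd353 : Ex := .m nd346 nd5
/-- node -/
def eq9 : Ex := .f 125 nd353 8 nd352
/-- node -/
def nd355 : Ex := .m eq9 eW9
/-- node -/
def eS9 : Ex := .f 175 nd325 108 nd355
/-- node -/
def nd357 : Ex := .m eS9 nd16
/-- node -/
def nd358 : Ex := .f 25000000 nd6 (-382225963) nd1
/-- node -/
def nd359 : Ex := .m nd358 nd6
/-- node -/
def nd360 : Ex := .f 2 nd359 11794355739 nd49
/-- node -/
def nd361 : Ex := .m nd360 nd6
/-- node -/
def nd362 : Ex := .f 1 nd361 (-21443421782) nd52
/-- node -/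
def nd363 : Ex := .f (-11361105824018648425000000) nd6 173997451663137456968162331 nd1
/-- node -/
def nd364 : Ex := .m nd363 nd6
/-- node -/
def nd365 : Ex := .f 2 nd364 (-5369004571875513224359282443) nd49
/-- node -/
def nd366 : Ex := .m nd365 nd6
/-- node -/
def nd367 : Ex := .f 1 nd366 9761434378373770363748999734 nd52
/-- node -/
def nd368 : Ex := .m nd0 nd367
/-- node -/
def nd369 : Ex := .m nd362 nd5
/-- node -/
def nd370 : Ex := .f 29723532475000000 nd369 1 nd368
/-- node -/
def nd371 : Ex := .f 38952212869985458225000000 nd6 (-596556063541723691595475827) nd1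
/-- node -/
def nd372 : Ex := .m nd371 nd6
/-- node -/
def nd373 : Ex := .f 29250 nd372 269216201044050089175322875510083 nd49
/-- node -/
def nd374 : Ex := .m nd373 nd6
/-- node -/
def nd375 : Ex := .f 1 nd374 (-489464325235811970107182379008934) nd52
/-- node -/
def nd376 : Ex := .m nd68 nd375
/-- node -/
def nd377 : Ex := .m nd370 nd5
/-- node -/
def nd378 : Ex := .f 3250 nd377 1 nd376
/-- node -/
def nd379 : Ex := .f (-318687121856199685225000000) nd6 4880717189186885181874499867 nd1
/-- node -/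
def nd380 : Ex := .m nd379 nd6
/-- node -/
def nd381 : Ex := .f 3250 nd380 (-244732162617905985053591189504467) nd49
/-- node -/
def nd382 : Ex := .m nd381 nd6
/-- node -/
def nd383 : Ex := .f 1 nd382 444949698919540592932648533529798 nd52
/-- node -/
def nd384 : Ex := .m nd77 nd383
/-- node -/
def nd385 : Ex := .m nd378 nd5
/-- node -/
def eq10 : Ex := .f 1 nd385 2 nd384
/-- node -/
def nd387 : Ex := .m eq10 eW10
/-- node -/
def eS10 : Ex := .f 125 nd357 432 nd387
/-- node -/
def nd389 : Ex := .m eS10 nd16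
/-- node -/
def nd390 : Ex := .f 100000000 nd6 (-848811091) nd1
/-- node -/
def nd391 : Ex := .m nd390 nd6
/-- node -/
def nd392 : Ex := .f 1 nd391 17556850230 nd49
/-- node -/
def nd393 : Ex := .m nd392 nd6
/-- node -/
def nd394 : Ex := .f 1 nd393 25195447341 nd52
/-- node -/
def nd395 : Ex := .f (-28794986559387027700000000) nd6 245378439215268392732842207 nd1
/-- node -/
def nd396 : Ex := .m nd395 nd6
/-- node -/
def nd397 : Ex := .f 1 nd396 (-5075147909902586056106893710) nd49
/-- node -/
def nd398 : Ex := .m nd397 nd6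
/-- node -/
def nd399 : Ex := .f 1 nd398 (-7283232455746066933525463457) nd52
/-- node -/
def nd400 : Ex := .m nd0 nd399
/-- node -/
def nd401 : Ex := .m nd394 nd5
/-- node -/
def nd402 : Ex := .f 33923904700000000 nd401 1 nd400
/-- node -/
def nd403 : Ex := .f 19853230467823102700000000 nd6 (-169171596996752868536896457) nd1
/-- node -/
def nd404 : Ex := .m nd403 nd6
/-- node -/
def nd405 : Ex := .f 3125 nd404 10934856384140619994831101438122 nd49
/-- node -/
def nd406 : Ex := .m nd405 nd6
/-- node -/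
def nd407 : Ex := .f 1 nd406 15692368479792710203544730677987 nd52
/-- node -/
def nd408 : Ex := .m nd68 nd407
/-- node -/
def nd409 : Ex := .m nd402 nd5
/-- node -/
def nd410 : Ex := .f 625 nd409 6 nd408
/-- node -/
def nd411 : Ex := .f 13567110388411942900000000 nd6 (-115606864376921697357547039) nd1
/-- node -/
def nd412 : Ex := .m nd411 nd6
/-- node -/
def nd413 : Ex := .f 1875 nd412 4483533851369345772441351622282 nd49
/-- node -/
def nd414 : Ex := .m nd413 nd6
/-- node -/
def nd415 : Ex := .f 21 nd414 135118633507329313148889511270255 nd52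
/-- node -/
def nd416 : Ex := .m nd77 nd415
/-- node -/
def nd417 : Ex := .m nd410 nd5
/-- node -/
def eq11 : Ex := .f 1 nd417 1 nd416
/-- node -/
def nd419 : Ex := .m eq11 eW11
/-- node -/
def eS11 : Ex := .f 25 nd389 54 nd419
/-- node -/
def nd421 : Ex := .f 1 nd2 1 nd9
/-- node -/
def nd422 : Ex := .f 2 nd2 1 nd9
/-- node -/
def nd423 : Ex := .m nd422 nd422
/-- node -/
def nd424 : Ex := .m nd421 nd423
/-- node -/
def nd425 : Ex := .m nd2 nd2
/-- node -/
def eB : Ex := .m nd424 nd425
/-- node -/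
def nd427 : Ex := .m nd12 nd6
/-- node -/
def nd428 : Ex := .m nd13 nd5
/-- node -/
def nd429 : Ex := .f 1 nd427 1 nd428
/-- node -/
def nd430 : Ex := .m nd429 nd9
/-- node -/
def eD2 : Ex := .f 5 nd430 (-2) eP
/-- node -/
def eDd : Ex := .f 25 eM (-1) nd19
/-- node -/
def nd433 : Ex := .f 1 nd5 (-1) nd0
/-- node -/
def nd434 : Ex := .f 1 nd6 (-1) nd1
/-- node -/
def eR1 : Ex := .m nd433 nd434
/-- node -/
def nd436 : Ex := .m eR1 eR1
/-- node -/
def eR3 : Ex := .m nd436 eR1

/-- real function of eP -/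
noncomputable def f_eP (x y t : ℝ) : ℝ := t - (((2 / 25) * x) * y)

theorem v_eP (x y t : ℝ) : val eP x y t = 25 * (f_eP x y t) := by
  simp only [nd0, nd1, nd2, nd4, nd5, nd6, nd7, nd8, nd9, nd10, eP, val_f, val_h, val_m, val_vt, val_vx, val_vy]
  unfold f_eP
  push_cast
  ring

/-- real function of eM -/
noncomputable def f_eM (x y t : ℝ) : ℝ := (1 - ((2 / 5) * x)) * (1 - ((2 / 5) * y))

theorem v_eM (x y t : ℝ) : val eM x y t = 25 * (f_eM x y t) := by
  simp only [nd0, nd1, nd5, nd6, nd9, nd12, nd13, nd14, nd15, nd16, nd17, eM, val_f, val_h, val_m, val_vx, val_vy]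
  unfold f_eM
  push_cast
  ring

theorem v_eW2 (x y t : ℝ) : val eW2 x y t = 4375 * (Zg 8 2 (f_eP x y t) (f_eM x y t)) := by
  simp only [nd19, eW2, v_eP, v_eM, val_f, val_m]
  rw [zg_2]
  rw [zg_0, zg_1]
  push_cast
  ring

theorem v_eW3 (x y t : ℝ) : val eW3 x y t = 87500 * (Zg 8 3 (f_eP x y t) (f_eM x y t)) := by
  simp only [nd21, nd22, eW3, v_eP, v_eM, v_eW2, val_f, val_m]
  rw [zg_3]
  rw [zg_1]
  push_cast
  ring

theorem v_eW4 (x y t : ℝ) : val eW4 x y t = 1640625 * (Zg 8 4 (f_eP x y t) (f_eM x y t)) := by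
  simp only [nd24, nd25, eW4, v_eP, v_eM, v_eW2, v_eW3, val_f, val_m]
  rw [zg_4]
  push_cast
  ring

theorem v_eW5 (x y t : ℝ) : val eW5 x y t = 410156250 * (Zg 8 5 (f_eP x y t) (f_eM x y t)) := by
  simp only [nd27, nd28, eW5, v_eP, v_eM, v_eW3, v_eW4, val_f, val_m]
  rw [zg_5]
  push_cast
  ring

theorem v_eW6 (x y t : ℝ) : val eW6 x y t = 56396484375 * (Zg 8 6 (f_eP x y t) (f_eM x y t)) := by
  simp only [nd30, nd31, eW6, v_eP, v_eM, v_eW4, v_eW5, val_f, val_m]
  rw [zg_6]
  push_cast
  ring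

theorem v_eW7 (x y t : ℝ) : val eW7 x y t = 5639648437500 * (Zg 8 7 (f_eP x y t) (f_eM x y t)) := by
  simp only [nd33, nd34, eW7, v_eP, v_eM, v_eW5, v_eW6, val_f, val_m]
  rw [zg_7]
  push_cast
  ring

theorem v_eW8 (x y t : ℝ) : val eW8 x y t = 91644287109375 * (Zg 8 8 (f_eP x y t) (f_eM x y t)) := by
  simp only [nd36, nd37, eW8, v_eP, v_eM, v_eW6, v_eW7, val_f, val_m]
  rw [zg_8]
  push_cast
  ring

theorem v_eW9 (x y t : ℝ) : val eW9 x y t = 16037750244140625 * (Zg 8 9 (f_eP x y t) (f_eM x y t)) := by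
  simp only [nd39, nd40, eW9, v_eP, v_eM, v_eW7, v_eW8, val_f, val_m]
  rw [zg_9]
  push_cast
  ring

theorem v_eW10 (x y t : ℝ) : val eW10 x y t = 2004718780517578125 * (Zg 8 10 (f_eP x y t) (f_eM x y t)) := by
  simp only [nd42, nd43, eW10, v_eP, v_eM, v_eW8, v_eW9, val_f, val_m]
  rw [zg_10]
  push_cast
  ring

theorem v_eW11 (x y t : ℝ) : val eW11 x y t = 400943756103515625000 * (Zg 8 11 (f_eP x y t) (f_eM x y t)) := by
  simp only [nd45, nd46, eW11, v_eP, v_eM, v_eW9, v_eW10, val_f, val_m]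
  rw [zg_11]
  push_cast
  ring

theorem v_eq0 (x y t : ℝ) : val eq0 x y t = 10000000000000000000000000000 * (qf0 x y) := by
  simp only [nd0, nd1, nd5, nd6, nd48, nd49, nd50, nd51, nd52, nd53, nd54, nd55, nd56, nd57, nd58, nd59, nd60, nd61, nd62, nd63, nd64, nd65, nd66, nd67, nd68, nd69, nd70, nd71, nd72, nd73, nd74, nd75, nd76, nd77, nd78, nd79, eq0, val_f, val_h, val_m, val_vx, val_vy]
  unfold qf0
  push_cast
  ring

theorem v_eq1 (x y t : ℝ) : val eq1 x y t = 368640000000000000000000000000000 * (qf1 x y) := by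
  simp only [nd0, nd1, nd5, nd6, nd49, nd52, nd68, nd77, nd82, nd83, nd84, nd85, nd86, nd87, nd88, nd89, nd90, nd91, nd92, nd93, nd94, nd95, nd96, nd97, nd98, nd99, nd100, nd101, nd102, nd103, nd104, nd105, nd106, nd107, nd108, nd109, eq1, val_f, val_h, val_m, val_vx, val_vy]
  unfold qf1
  push_cast
  ring

/-- real function of eS1 -/
noncomputable def f_eS1 (x y t : ℝ) : ℝ := qf0 x y * Zg 8 0 (f_eP x y t) (f_eM x y t) + qf1 x y * Zg 8 1 (f_eP x y t) (f_eM x y t)

theorem v_eS1 (x y t : ℝ) : val eS1 x y t = 9216000000000000000000000000000000 * (f_eS1 x y t) := by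
  simp only [nd5, nd6, nd9, nd15, nd16, nd81, nd111, eS1, v_eP, v_eq0, v_eq1, val_f, val_h, val_m]
  unfold f_eS1
  rw [zg_0, zg_1]
  push_cast
  ring

theorem v_eq2 (x y t : ℝ) : val eq2 x y t = 368640000000000000000000000000000 * (qf2 x y) := by
  simp only [nd0, nd1, nd5, nd6, nd49, nd52, nd68, nd77, nd114, nd115, nd116, nd117, nd118, nd119, nd120, nd121, nd122, nd123, nd124, nd125, nd126, nd127, nd128, nd129, nd130, nd131, nd132, nd133, nd134, nd135, nd136, nd137, nd138, nd139, nd140, nd141, eq2, val_f, val_h, val_m, val_vx, val_vy]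
  unfold qf2
  push_cast
  ring

/-- real function of eS2 -/
noncomputable def f_eS2 (x y t : ℝ) : ℝ := f_eS1 x y t + qf2 x y * Zg 8 2 (f_eP x y t) (f_eM x y t)

theorem v_eS2 (x y t : ℝ) : val eS2 x y t = 1612800000000000000000000000000000000 * (f_eS2 x y t) := by
  simp only [nd5, nd6, nd9, nd15, nd16, nd113, nd143, eS2, v_eW2, v_eS1, v_eq2, val_f, val_h, val_m]
  unfold f_eS2
  push_cast
  ring

theorem v_eq3 (x y t : ℝ) : val eq3 x y t = 368640000000000000000000000000000 * (qf3 x y) := by
  simp only [nd0, nd1, nd5, nd6, nd49, nd52, nd68, nd77, nd146, nd147, nd148, nd149, nd150, nd151, nd152, nd153, nd154, nd155, nd156, nd157, nd158, nd159, nd160, nd161, nd162, nd163, nd164, nd165, nd166, nd167, nd168, nd169, nd170, nd171, nd172, nd173, eq3, val_f, val_h, val_m, val_vx, val_vy]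
  unfold qf3
  push_cast
  ring

/-- real function of eS3 -/
noncomputable def f_eS3 (x y t : ℝ) : ℝ := f_eS2 x y t + qf3 x y * Zg 8 3 (f_eP x y t) (f_eM x y t)

theorem v_eS3 (x y t : ℝ) : val eS3 x y t = 32256000000000000000000000000000000000 * (f_eS3 x y t) := by
  simp only [nd5, nd6, nd9, nd15, nd16, nd145, nd175, eS3, v_eW3, v_eS2, v_eq3, val_f, val_h, val_m]
  unfold f_eS3
  push_cast
  ring

theorem v_eq4 (x y t : ℝ) : val eq4 x y t = 368640000000000000000000000000000 * (qf4 x y) := by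
  simp only [nd0, nd1, nd5, nd6, nd49, nd52, nd68, nd77, nd178, nd179, nd180, nd181, nd182, nd183, nd184, nd185, nd186, nd187, nd188, nd189, nd190, nd191, nd192, nd193, nd194, nd195, nd196, nd197, nd198, nd199, nd200, nd201, nd202, nd203, nd204, nd205, eq4, val_f, val_h, val_m, val_vx, val_vy]
  unfold qf4
  push_cast
  ring

/-- real function of eS4 -/
noncomputable def f_eS4 (x y t : ℝ) : ℝ := f_eS3 x y t + qf4 x y * Zg 8 4 (f_eP x y t) (f_eM x y t)

theorem v_eS4 (x y t : ℝ) : val eS4 x y t = 2419200000000000000000000000000000000000 * (f_eS4 x y t) := by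
  simp only [nd5, nd6, nd9, nd15, nd16, nd177, nd207, eS4, v_eW4, v_eS3, v_eq4, val_f, val_h, val_m]
  unfold f_eS4
  push_cast
  ring

theorem v_eq5 (x y t : ℝ) : val eq5 x y t = 552960000000000000000000000000000 * (qf5 x y) := by
  simp only [nd0, nd1, nd5, nd6, nd49, nd52, nd68, nd77, nd210, nd211, nd212, nd213, nd214, nd215, nd216, nd217, nd218, nd219, nd220, nd221, nd222, nd223, nd224, nd225, nd226, nd227, nd228, nd229, nd230, nd231, nd232, nd233, nd234, nd235, nd236, nd237, eq5, val_f, val_h, val_m, val_vx, val_vy]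
  unfold qf5
  push_cast
  ring

/-- real function of eS5 -/
noncomputable def f_eS5 (x y t : ℝ) : ℝ := f_eS4 x y t + qf5 x y * Zg 8 5 (f_eP x y t) (f_eM x y t)

theorem v_eS5 (x y t : ℝ) : val eS5 x y t = 907200000000000000000000000000000000000000 * (f_eS5 x y t) := by
  simp only [nd5, nd6, nd9, nd15, nd16, nd209, nd239, eS5, v_eW5, v_eS4, v_eq5, val_f, val_h, val_m]
  unfold f_eS5
  push_cast
  ring

theorem v_eq6 (x y t : ℝ) : val eq6 x y t = 368640000000000000000000000000000 * (qf6 x y) := by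
  simp only [nd0, nd1, nd5, nd6, nd49, nd52, nd68, nd77, nd242, nd243, nd244, nd245, nd246, nd247, nd248, nd249, nd250, nd251, nd252, nd253, nd254, nd255, nd256, nd257, nd258, nd259, nd260, nd261, nd262, nd263, nd264, nd265, nd266, nd267, nd268, nd269, eq6, val_f, val_h, val_m, val_vx, val_vy]
  unfold qf6
  push_cast
  ring

/-- real function of eS6 -/
noncomputable def f_eS6 (x y t : ℝ) : ℝ := f_eS5 x y t + qf6 x y * Zg 8 6 (f_eP x y t) (f_eM x y t)

theorem v_eS6 (x y t : ℝ) : val eS6 x y t = 249480000000000000000000000000000000000000000 * (f_eS6 x y t) := by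
  simp only [nd5, nd6, nd9, nd15, nd16, nd241, nd271, eS6, v_eW6, v_eS5, v_eq6, val_f, val_h, val_m]
  unfold f_eS6
  push_cast
  ring

theorem v_eq7 (x y t : ℝ) : val eq7 x y t = 276480000000000000000000000000000 * (qf7 x y) := by
  simp only [nd0, nd1, nd5, nd6, nd49, nd52, nd68, nd77, nd274, nd275, nd276, nd277, nd278, nd279, nd280, nd281, nd282, nd283, nd284, nd285, nd286, nd287, nd288, nd289, nd290, nd291, nd292, nd293, nd294, nd295, nd296, nd297, nd298, nd299, nd300, nd301, eq7, val_f, val_h, val_m, val_vx, val_vy]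
  unfold qf7
  push_cast
  ring

/-- real function of eS7 -/
noncomputable def f_eS7 (x y t : ℝ) : ℝ := f_eS6 x y t + qf7 x y * Zg 8 7 (f_eP x y t) (f_eM x y t)

theorem v_eS7 (x y t : ℝ) : val eS7 x y t = 6237000000000000000000000000000000000000000000 * (f_eS7 x y t) := by
  simp only [nd5, nd6, nd9, nd15, nd16, nd273, nd303, eS7, v_eW7, v_eS6, v_eq7, val_f, val_h, val_m]
  unfold f_eS7
  push_cast
  ring

theorem v_eq8 (x y t : ℝ) : val eq8 x y t = 10000000000000000000000000000 * (qf8 x y) := by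
  simp only [nd0, nd1, nd5, nd6, nd49, nd52, nd68, nd77, nd306, nd307, nd308, nd309, nd310, nd311, nd312, nd313, nd314, nd315, nd316, nd317, nd318, nd319, nd320, nd321, eq8, val_f, val_h, val_m, val_vx, val_vy]
  unfold qf8
  push_cast
  ring

/-- real function of eS8 -/
noncomputable def f_eS8 (x y t : ℝ) : ℝ := f_eS7 x y t + qf8 x y * Zg 8 8 (f_eP x y t) (f_eM x y t)

theorem v_eS8 (x y t : ℝ) : val eS8 x y t = 405405000000000000000000000000000000000000000000 * (f_eS8 x y t) := by
  simp only [nd5, nd6, nd9, nd15, nd16, nd305, nd323, eS8, v_eW8, v_eS7, v_eq8, val_f, val_h, val_m]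
  unfold f_eS8
  push_cast
  ring

theorem v_eq9 (x y t : ℝ) : val eq9 x y t = 40960000000000000000000000000000 * (qf9 x y) := by
  simp only [nd0, nd1, nd5, nd6, nd49, nd52, nd68, nd77, nd326, nd327, nd328, nd329, nd330, nd331, nd332, nd333, nd334, nd335, nd336, nd337, nd338, nd339, nd340, nd341, nd342, nd343, nd344, nd345, nd346, nd347, nd348, nd349, nd350, nd351, nd352, nd353, eq9, val_f, val_h, val_m, val_vx, val_vy]
  unfold qf9
  push_cast
  ring

/-- real function of eS9 -/
noncomputable def f_eS9 (x y t : ℝ) : ℝ := f_eS8 x y t + qf9 x y * Zg 8 9 (f_eP x y t) (f_eM x y t)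

theorem v_eS9 (x y t : ℝ) : val eS9 x y t = 70945875000000000000000000000000000000000000000000 * (f_eS9 x y t) := by
  simp only [nd5, nd6, nd9, nd15, nd16, nd325, nd355, eS9, v_eW9, v_eS8, v_eq9, val_f, val_h, val_m]
  unfold f_eS9
  push_cast
  ring

theorem v_eq10 (x y t : ℝ) : val eq10 x y t = 10240000000000000000000000000000 * (qf10 x y) := by
  simp only [nd0, nd1, nd5, nd6, nd49, nd52, nd68, nd77, nd358, nd359, nd360, nd361, nd362, nd363, nd364, nd365, nd366, nd367, nd368, nd369, nd370, nd371, nd372, nd373, nd374, nd375, nd376, nd377, nd378, nd379, nd380, nd381, nd382, nd383, nd384, nd385, eq10, val_f, val_h, val_m, val_vx, val_vy]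
  unfold qf10
  push_cast
  ring

/-- real function of eS10 -/
noncomputable def f_eS10 (x y t : ℝ) : ℝ := f_eS9 x y t + qf10 x y * Zg 8 10 (f_eP x y t) (f_eM x y t)

theorem v_eS10 (x y t : ℝ) : val eS10 x y t = 8868234375000000000000000000000000000000000000000000 * (f_eS10 x y t) := by
  simp only [nd5, nd6, nd9, nd15, nd16, nd357, nd387, eS10, v_eW10, v_eS9, v_eq10, val_f, val_h, val_m]
  unfold f_eS10
  push_cast
  ring

theorem v_eq11 (x y t : ℝ) : val eq11 x y t = 10240000000000000000000000000000 * (qf11 x y) := by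
  simp only [nd0, nd1, nd5, nd6, nd49, nd52, nd68, nd77, nd390, nd391, nd392, nd393, nd394, nd395, nd396, nd397, nd398, nd399, nd400, nd401, nd402, nd403, nd404, nd405, nd406, nd407, nd408, nd409, nd410, nd411, nd412, nd413, nd414, nd415, nd416, nd417, eq11, val_f, val_h, val_m, val_vx, val_vy]
  unfold qf11
  push_cast
  ring

/-- real function of eS11 -/
noncomputable def f_eS11 (x y t : ℝ) : ℝ := f_eS10 x y t + qf11 x y * Zg 8 11 (f_eP x y t) (f_eM x y t)

theorem v_eS11 (x y t : ℝ) : val eS11 x y t = 221705859375000000000000000000000000000000000000000000 * (f_eS11 x y t) := by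
  simp only [nd5, nd6, nd9, nd15, nd16, nd389, nd419, eS11, v_eW11, v_eS10, v_eq11, val_f, val_h, val_m]
  unfold f_eS11
  push_cast
  ring

theorem v_eB (x y t : ℝ) : val eB x y t = 4 * (base (t)) := by
  simp only [nd2, nd9, nd421, nd422, nd423, nd424, nd425, eB, val_f, val_h, val_m, val_vt]
  unfold base
  push_cast
  ring

/-- real function of eD2 -/
noncomputable def f_eD2 (x y t : ℝ) : ℝ := ((1 - ((2 / 5) * x)) + (1 - ((2 / 5) * y))) - (2 * f_eP x y t)

theorem v_eD2 (x y t : ℝ) : val eD2 x y t = 25 * (f_eD2 x y t) := by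
  simp only [nd0, nd1, nd5, nd6, nd9, nd12, nd13, nd427, nd428, nd429, nd430, eD2, v_eP, val_f, val_h, val_m, val_vx, val_vy]
  unfold f_eD2
  push_cast
  ring

/-- real function of eDd -/
noncomputable def f_eDd (x y t : ℝ) : ℝ := ((1 - ((2 / 5) * x)) * (1 - ((2 / 5) * y))) - (f_eP x y t * f_eP x y t)

theorem v_eDd (x y t : ℝ) : val eDd x y t = 625 * (f_eDd x y t) := by
  simp only [nd19, eDd, v_eP, v_eM, val_f, val_m]
  unfold f_eDd f_eM f_eP
  push_cast
  ring

/-- real function of eR1 -/
noncomputable def f_eR1 (x y t : ℝ) : ℝ := (1 - x) * (1 - y)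

theorem v_eR1 (x y t : ℝ) : val eR1 x y t = 1 * (f_eR1 x y t) := by
  simp only [nd0, nd1, nd5, nd6, nd433, nd434, eR1, val_f, val_h, val_m, val_vx, val_vy]
  unfold f_eR1
  push_cast
  ring

/-- real function of eR3 -/
noncomputable def f_eR3 (x y t : ℝ) : ℝ := f_eR1 x y t ^ 3

theorem v_eR3 (x y t : ℝ) : val eR3 x y t = 1 * (f_eR3 x y t) := by
  simp only [nd436, eR3, v_eR1, val_m]
  unfold f_eR3
  push_cast
  ring


theorem KT_eq (x y t : ℝ) : f_eS11 x y t = Kt 11 4 cA x y (f_eP x y t) (f_eM x y t) := by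
  rw [Kt_eq]
  simp only [f_eS11, f_eS10, f_eS9, f_eS8, f_eS7, f_eS6, f_eS5, f_eS4, f_eS3, f_eS2, f_eS1]

theorem KTx (x y t : ℝ) : f_eS11 x y t = Ktx x y t := by
  rw [KT_eq]
  unfold Ktx f_eP f_eM
  rfl

theorem D2x (x y t : ℝ) : f_eD2 x y t = dd x y t := by
  unfold f_eD2 dd f_eP
  ring

theorem DDx (x y t : ℝ) : f_eDd x y t = DD x y t := by
  unfold f_eDd DD f_eP
  ring

end Pool.Agent.Lib.MP_f1379f_gt.FV.CK.U
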