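import Pool.Agent.Lib.MP_f1379f_gt.FV.BCH
import Pool.Agent.Lib.MP_f1379f_gt.FV.CP0
import Pool.Agent.Lib.MP_f1379f_gt.FV.PWH
import Pool.Agent.Lib.MP_f1379f_gt.FV.BCM
import Pool.Agent.Lib.MP_f1379f_gt.FV.CEX

section
/-!
# one-body programs
-/
set_option autoImplicit false
set_option linter.unusedVariables false
set_option linter.unusedSimpArgs false
set_option linter.unusedTactic false
set_option linter.style.longLine false
set_option maxRecDepth 100000

namespace Pool.Agent.Lib.MP_f1379f_gt.FV.CP.V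

open Finset Pool.Agent.Lib.MP_f1379f_gt.FV Pool.Agent.Lib.MP_f1379f_gt.FV.BCH Pool.Agent.Lib.MP_f1379f_gt.FV.CP

/-- node -/
def nd0 : Ex := .v .x
/-- node -/
def nd2 : Ex := .h .x
/-- node -/
def eP : Ex := .f 5 nd2 (-2) nd0
/-- node -/
def eM : Ex := .m eP eP
/-- node -/
def eW2 : Ex := .f 8 eM (-1) eM
/-- node -/
def nd6 : Ex := .m eP eW2
/-- node -/
def nd7 : Ex := .m eM eP
/-- node -/
def eW3 : Ex := .f 5 nd6 (-7) nd7
/-- node -/
def nd9 : Ex := .m eP eW3
/-- node -/
def nd10 : Ex := .m eM eW2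
/-- node -/
def eW4 : Ex := .f 1 nd9 (-1) nd10
/-- node -/
def nd12 : Ex := .m eP eW4
/-- node -/
def nd13 : Ex := .m eM eW3
/-- node -/
def eW5 : Ex := .f 14 nd12 (-3) nd13
/-- node -/
def nd15 : Ex := .m eP eW5
/-- node -/
def nd16 : Ex := .m eM eW4
/-- node -/
def eW6 : Ex := .f 8 nd15 (-25) nd16
/-- node -/
def nd18 : Ex := .m eP eW6
/-- node -/
def nd19 : Ex := .m eM eW5
/-- node -/
def eW7 : Ex := .f 6 nd18 (-11) nd19
/-- node -/
def nd21 : Ex := .m eP eW7
/-- node -/
def nd22 : Ex := .m eM eW6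
/-- node -/
def eW8 : Ex := .f 5 nd21 (-7) nd22
/-- node -/
def nd24 : Ex := .m eP eW8
/-- node -/
def nd25 : Ex := .m eM eW7
/-- node -/
def eW9 : Ex := .f 11 nd24 (-13) nd25
/-- node -/
def nd27 : Ex := .m eP eW9
/-- node -/
def nd28 : Ex := .m eM eW8
/-- node -/
def eW10 : Ex := .f 8 nd27 (-21) nd28
/-- node -/
def nd30 : Ex := .m eP eW10
/-- node -/
def nd31 : Ex := .m eM eW9
/-- node -/
def eW11 : Ex := .f 13 nd30 (-25) nd31
/-- node -/
def nd33 : Ex := .f 2500 nd2 4401 nd0
/-- node -/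
def nd34 : Ex := .m nd0 nd0
/-- node -/
def nd35 : Ex := .m nd33 nd2
/-- node -/
def nd36 : Ex := .f 1587130000 nd35 20155933453113 nd34
/-- node -/
def nd37 : Ex := .m nd34 nd0
/-- node -/
def nd38 : Ex := .m nd36 nd2
/-- node -/
def nd39 : Ex := .f 1 nd38 (-18744958958692) nd37
/-- node -/
def nd40 : Ex := .m nd34 nd34
/-- node -/
def nd41 : Ex := .m nd39 nd2
/-- node -/
def nd42 : Ex := .f 500 nd41 363744625532481 nd40
/-- node -/
def nd43 : Ex := .m nd40 nd0
/-- node -/
def nd44 : Ex := .m nd42 nd2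
/-- node -/
def nd45 : Ex := .f 1 nd44 (-42895796605970472) nd43
/-- node -/
def nd46 : Ex := .m nd37 nd37
/-- node -/
def nd47 : Ex := .m nd45 nd2
/-- node -/
def eq0 : Ex := .f 1 nd47 36556158829036940 nd46
/-- node -/
def nd49 : Ex := .m eq0 nd2
/-- node -/
def nd50 : Ex := .f 5000 nd2 15559 nd0
/-- node -/
def nd51 : Ex := .m nd50 nd2
/-- node -/
def nd52 : Ex := .f 67659286820000 nd51 3335256020708630021 nd34
/-- node -/
def nd53 : Ex := .m nd52 nd2
/-- node -/
def nd54 : Ex := .f 1 nd53 (-9050655567080354562) nd37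
/-- node -/
def nd55 : Ex := .m nd54 nd2
/-- node -/
def nd56 : Ex := .f 5 nd55 255967097675763589581 nd40
/-- node -/
def nd57 : Ex := .m nd56 nd2
/-- node -/
def nd58 : Ex := .f 1 nd57 (-356763864964862316796) nd43
/-- node -/
def nd59 : Ex := .m nd58 nd2
/-- node -/
def eq1 : Ex := .f 25 nd59 5391469489079413982948 nd46
/-- node -/
def nd61 : Ex := .m eq1 eP
/-- node -/
def eS1 : Ex := .f 15360 nd49 1 nd61
/-- node -/
def nd63 : Ex := .m eS1 nd2
/-- node -/
def nd64 : Ex := .f 500 nd2 2083 nd0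
/-- node -/
def nd65 : Ex := .m nd64 nd2
/-- node -/
def nd66 : Ex := .f 365709554000 nd65 2310458930207753 nd34
/-- node -/
def nd67 : Ex := .m nd66 nd2
/-- node -/
def nd68 : Ex := .f 25 nd67 16630606373587487 nd37
/-- node -/
def nd69 : Ex := .m nd68 nd2
/-- node -/
def nd70 : Ex := .f 2500 nd69 366999386737745773421 nd40
/-- node -/
def nd71 : Ex := .m nd70 nd2
/-- node -/
def nd72 : Ex := .f 1 nd71 (-521130656988900532786) nd43
/-- node -/
def nd73 : Ex := .m nd72 nd2
/-- node -/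
def eq2 : Ex := .f 11 nd73 7773478524113834373059 nd46
/-- node -/
def nd75 : Ex := .m eq2 eW2
/-- node -/
def eS2 : Ex := .f 35 nd63 1 nd75
/-- node -/
def nd77 : Ex := .m eS2 nd2
/-- node -/
def nd78 : Ex := .f 1000 nd2 5067 nd0
/-- node -/
def nd79 : Ex := .m nd78 nd2
/-- node -/
def nd80 : Ex := .f 79230244484000 nd79 1284529054265493369 nd34
/-- node -/
def nd81 : Ex := .m nd80 nd2
/-- node -/
def nd82 : Ex := .f 5 nd81 7457483808732018394 nd37
/-- node -/
def nd83 : Ex := .m nd82 nd2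
/-- node -/
def nd84 : Ex := .f 625 nd83 7747383856753256650371 nd40
/-- node -/
def nd85 : Ex := .m nd84 nd2
/-- node -/
def nd86 : Ex := .f 1 nd85 8473210917109275665238 nd43
/-- node -/
def nd87 : Ex := .m nd86 nd2
/-- node -/
def eq3 : Ex := .f 1 nd87 34963198664165304245245 nd46
/-- node -/
def nd89 : Ex := .m eq3 eW3
/-- node -/
def eS3 : Ex := .f 20 nd77 1 nd89
/-- node -/
def nd91 : Ex := .m eS3 nd2
/-- node -/
def nd92 : Ex := .f 625 nd2 3727 nd0
/-- node -/
def nd93 : Ex := .m nd92 nd2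
/-- node -/
def nd94 : Ex := .f 124202361605000 nd93 1654831606056619993 nd34
/-- node -/
def nd95 : Ex := .m nd94 nd2
/-- node -/
def nd96 : Ex := .f 2 nd95 5211426442017311343 nd37
/-- node -/
def nd97 : Ex := .m nd96 nd2
/-- node -/
def nd98 : Ex := .f 2000 nd97 39025558033366641950589 nd40
/-- node -/
def nd99 : Ex := .m nd98 nd2
/-- node -/
def nd100 : Ex := .f 1 nd99 (-35380098748542771767774) nd43
/-- node -/
def nd101 : Ex := .m nd100 nd2
/-- node -/
def eq4 : Ex := .f 1 nd101 114839018480350250467973 nd46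
/-- node -/
def nd103 : Ex := .m eq4 eW4
/-- node -/
def eS4 : Ex := .f 15 nd91 4 nd103
/-- node -/
def nd105 : Ex := .m eS4 nd2
/-- node -/
def nd106 : Ex := .f 1250 nd2 8537 nd0
/-- node -/
def nd107 : Ex := .m nd106 nd2
/-- node -/
def nd108 : Ex := .f 827397251245000 nd107 26251318779684315631 nd34
/-- node -/
def nd109 : Ex := .m nd108 nd2
/-- node -/
def nd110 : Ex := .f 2 nd109 138934238495876790091 nd37
/-- node -/
def nd111 : Ex := .m nd110 nd2
/-- node -/
def nd112 : Ex := .f 40 nd111 19853986181280382247141 nd40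
/-- node -/
def nd113 : Ex := .m nd112 nd2
/-- node -/
def nd114 : Ex := .f 1 nd113 (-29957787762558355655852) nd43
/-- node -/
def nd115 : Ex := .m nd114 nd2
/-- node -/
def eq5 : Ex := .f 1 nd115 157934813104553755567828 nd46
/-- node -/
def nd117 : Ex := .m eq5 eW5
/-- node -/
def eS5 : Ex := .f 15 nd105 4 nd117
/-- node -/
def nd119 : Ex := .m eS5 nd2
/-- node -/
def nd120 : Ex := .f 1250 nd2 10043 nd0
/-- node -/
def nd121 : Ex := .m nd120 nd2
/-- node -/
def nd122 : Ex := .f 10663233805000 nd121 345475344585112339 nd34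
/-- node -/
def nd123 : Ex := .m nd122 nd2
/-- node -/
def nd124 : Ex := .f 2 nd123 3269146429847207419 nd37
/-- node -/
def nd125 : Ex := .m nd124 nd2
/-- node -/
def nd126 : Ex := .f 1000 nd125 15800278984682575991477 nd40
/-- node -/
def nd127 : Ex := .m nd126 nd2
/-- node -/
def nd128 : Ex := .f 1 nd127 (-18348225154766573900612) nd43
/-- node -/
def nd129 : Ex := .m nd128 nd2
/-- node -/
def eq6 : Ex := .f 1 nd129 147030222629096404747828 nd46
/-- node -/
def nd131 : Ex := .m eq6 eW6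
/-- node -/
def eS6 : Ex := .f 55 nd119 12 nd131
/-- node -/
def nd133 : Ex := .m eS6 nd2
/-- node -/
def nd134 : Ex := .f 2500 nd2 51327 nd0
/-- node -/
def nd135 : Ex := .m nd134 nd2
/-- node -/
def nd136 : Ex := .f 27279822970000 nd135 2833977148997528913 nd34
/-- node -/
def nd137 : Ex := .m nd136 nd2
/-- node -/
def nd138 : Ex := .f 1 nd137 7782387836597828337 nd37
/-- node -/
def nd139 : Ex := .m nd138 nd2
/-- node -/
def nd140 : Ex := .f 500 nd139 335394261425977789298589 nd40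
/-- node -/
def nd141 : Ex := .m nd140 nd2
/-- node -/
def nd142 : Ex := .f 1 nd141 (-952646997410540833225428) nd43
/-- node -/
def nd143 : Ex := .m nd142 nd2
/-- node -/
def eq7 : Ex := .f 1 nd143 5853364864884620379127188 nd46
/-- node -/
def nd145 : Ex := .m eq7 eW7
/-- node -/
def eS7 : Ex := .f 25 nd133 1 nd145
/-- node -/
def nd147 : Ex := .m eS7 nd2
/-- node -/
def nd148 : Ex := .m nd34 nd2
/-- node -/
def nd149 : Ex := .f 2500 nd148 (-157943) nd37
/-- node -/
def nd150 : Ex := .m nd149 nd2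
/-- node -/
def nd151 : Ex := .f 172311670000 nd150 638075684207722583 nd40
/-- node -/
def nd152 : Ex := .m nd151 nd2
/-- node -/
def nd153 : Ex := .f 1 nd152 (-6025046557235295419) nd43
/-- node -/
def nd154 : Ex := .m nd153 nd2
/-- node -/
def eq8 : Ex := .f 12 nd154 234930750006261138997 nd46
/-- node -/
def nd156 : Ex := .m eq8 eW8
/-- node -/
def eS8 : Ex := .f 65 nd147 110592 nd156
/-- node -/
def nd158 : Ex := .m eS8 nd2
/-- node -/
def nd159 : Ex := .f 200 nd2 (-6611) nd0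
/-- node -/
def nd160 : Ex := .m nd159 nd2
/-- node -/
def nd161 : Ex := .f 6712723360 nd160 1353200067767757 nd34
/-- node -/
def nd162 : Ex := .m nd161 nd2
/-- node -/
def nd163 : Ex := .f 125 nd162 (-2698676000007944024) nd37
/-- node -/
def nd164 : Ex := .m nd163 nd2
/-- node -/
def nd165 : Ex := .f 25 nd164 811622294416192476108 nd40
/-- node -/
def nd166 : Ex := .m nd165 nd2
/-- node -/
def nd167 : Ex := .f 1 nd166 (-5813025514837204581200) nd43
/-- node -/
def nd168 : Ex := .m nd167 nd2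
/-- node -/
def eq9 : Ex := .f 25 nd168 395033558222042679584804 nd46
/-- node -/
def nd170 : Ex := .m eq9 eW9
/-- node -/
def eS9 : Ex := .f 35 nd158 108 nd170
/-- node -/
def nd172 : Ex := .m eS9 nd2
/-- node -/
def nd173 : Ex := .f 1250 nd2 (-17519) nd0
/-- node -/
def nd174 : Ex := .m nd173 nd2
/-- node -/
def nd175 : Ex := .f 33184385000 nd174 17400878956251347 nd34
/-- node -/
def nd176 : Ex := .m nd175 nd2
/-- node -/
def nd177 : Ex := .f 2 nd176 (-322073135771897033) nd37
/-- node -/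
def nd178 : Ex := .m nd177 nd2
/-- node -/
def nd179 : Ex := .f 1400 nd178 4857244743802057884987 nd40
/-- node -/
def nd180 : Ex := .m nd179 nd2
/-- node -/
def nd181 : Ex := .f 1 nd180 (-24560843483674371259694) nd43
/-- node -/
def nd182 : Ex := .m nd181 nd2
/-- node -/
def eq10 : Ex := .f 5 nd182 196977159904682863785287 nd46
/-- node -/
def nd184 : Ex := .m eq10 eW10
/-- node -/
def eS10 : Ex := .f 25 nd172 108 nd184
/-- node -/
def nd186 : Ex := .m eS10 nd2
/-- node -/
def nd187 : Ex := .f 5000 nd2 (-50921) nd0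
/-- node -/
def nd188 : Ex := .m nd187 nd2
/-- node -/
def nd189 : Ex := .f 126172620000 nd188 248227454590068071 nd34
/-- node -/
def nd190 : Ex := .m nd189 nd2
/-- node -/
def nd191 : Ex := .f 1 nd190 (-1608486783297300190) nd37
/-- node -/
def nd192 : Ex := .m nd191 nd2
/-- node -/
def nd193 : Ex := .f 5 nd192 115635548966176578983 nd40
/-- node -/
def nd194 : Ex := .m nd193 nd2
/-- node -/
def nd195 : Ex := .f 5 nd194 (-1501839479801327810084) nd43
/-- node -/
def nd196 : Ex := .m nd195 nd2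
/-- node -/
def eq11 : Ex := .f 5 nd196 6354187598655552632492 nd46
/-- node -/
def nd198 : Ex := .m eq11 eW11
/-- node -/
def eS11 : Ex := .f 5 nd186 54 nd198
/-- node -/
def nd200 : Ex := .f 801889 nd2 119707 nd0
/-- node -/
def nd201 : Ex := .m nd200 nd2
/-- node -/
def nd202 : Ex := .f 1 nd201 (-340126) nd34
/-- node -/
def nd203 : Ex := .m nd202 nd2
/-- node -/
def nd204 : Ex := .f 1 nd203 (-158242) nd37
/-- node -/
def nd205 : Ex := .m nd204 nd2
/-- node -/
def nd206 : Ex := .f 1 nd205 (-2695980) nd40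
/-- node -/
def nd207 : Ex := .m nd206 nd2
/-- node -/
def nd208 : Ex := .f 1 nd207 12686271 nd43
/-- node -/
def nd209 : Ex := .m nd208 nd2
/-- node -/
def nd210 : Ex := .f 1 nd209 (-36069290) nd46
/-- node -/
def nd211 : Ex := .m nd46 nd0
/-- node -/
def nd212 : Ex := .m nd210 nd2
/-- node -/
def nd213 : Ex := .f 1 nd212 55344714 nd211
/-- node -/
def nd214 : Ex := .m nd40 nd40
/-- node -/
def nd215 : Ex := .m nd213 nd2
/-- node -/
def nd216 : Ex := .f 1 nd215 (-43726930) nd214
/-- node -/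
def nd217 : Ex := .m nd214 nd0
/-- node -/
def nd218 : Ex := .m nd216 nd2
/-- node -/
def eV : Ex := .f 1 nd218 14039354 nd217
/-- node -/
def nd220 : Ex := .f 5000 nd2 4401 nd0
/-- node -/
def nd221 : Ex := .m nd220 nd2
/-- node -/
def nd222 : Ex := .f 1 nd221 10698 nd34
/-- node -/
def nd223 : Ex := .m nd222 nd2
/-- node -/
def el : Ex := .f 1 nd223 (-20089) nd37

/-- real function of eP -/
noncomputable def f_eP (x y t : ℝ) : ℝ := 1 - ((2 / 5) * x)

theorem v_eP (x y t : ℝ) : val eP x y t = 5 * (f_eP x y t) := by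
  simp only [nd0, nd2, eP, val_f, val_h, val_vx]
  unfold f_eP
  push_cast
  ring

/-- real function of eM -/
noncomputable def f_eM (x y t : ℝ) : ℝ := f_eP x y t * f_eP x y t

theorem v_eM (x y t : ℝ) : val eM x y t = 25 * (f_eM x y t) := by
  simp only [eM, v_eP, val_m]
  unfold f_eM
  push_cast
  ring

theorem v_eW2 (x y t : ℝ) : val eW2 x y t = 175 * (Zg 8 2 (f_eP x y t) (f_eM x y t)) := by
  simp only [eW2, v_eM, val_f]
  unfold f_eM
  rw [zg_2]
  rw [zg_0, zg_1]
  push_cast
  ring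

theorem v_eW3 (x y t : ℝ) : val eW3 x y t = 3500 * (Zg 8 3 (f_eP x y t) (f_eM x y t)) := by
  simp only [nd6, nd7, eW3, v_eP, v_eM, v_eW2, val_f, val_m]
  rw [zg_3]
  rw [zg_1]
  push_cast
  ring

theorem v_eW4 (x y t : ℝ) : val eW4 x y t = 13125 * (Zg 8 4 (f_eP x y t) (f_eM x y t)) := by
  simp only [nd9, nd10, eW4, v_eP, v_eM, v_eW2, v_eW3, val_f, val_m]
  rw [zg_4]
  push_cast
  ring

theorem v_eW5 (x y t : ℝ) : val eW5 x y t = 656250 * (Zg 8 5 (f_eP x y t) (f_eM x y t)) := by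
  simp only [nd12, nd13, eW5, v_eP, v_eM, v_eW3, v_eW4, val_f, val_m]
  rw [zg_5]
  push_cast
  ring

theorem v_eW6 (x y t : ℝ) : val eW6 x y t = 18046875 * (Zg 8 6 (f_eP x y t) (f_eM x y t)) := by
  simp only [nd15, nd16, eW6, v_eP, v_eM, v_eW4, v_eW5, val_f, val_m]
  rw [zg_6]
  push_cast
  ring

theorem v_eW7 (x y t : ℝ) : val eW7 x y t = 360937500 * (Zg 8 7 (f_eP x y t) (f_eM x y t)) := by
  simp only [nd18, nd19, eW7, v_eP, v_eM, v_eW5, v_eW6, val_f, val_m]
  rw [zg_7]
  push_cast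
  ring

theorem v_eW8 (x y t : ℝ) : val eW8 x y t = 5865234375 * (Zg 8 8 (f_eP x y t) (f_eM x y t)) := by
  simp only [nd21, nd22, eW8, v_eP, v_eM, v_eW6, v_eW7, val_f, val_m]
  rw [zg_8]
  push_cast
  ring

theorem v_eW9 (x y t : ℝ) : val eW9 x y t = 205283203125 * (Zg 8 9 (f_eP x y t) (f_eM x y t)) := by
  simp only [nd24, nd25, eW9, v_eP, v_eM, v_eW7, v_eW8, val_f, val_m]
  rw [zg_9]
  push_cast
  ring

theorem v_eW10 (x y t : ℝ) : val eW10 x y t = 5132080078125 * (Zg 8 10 (f_eP x y t) (f_eM x y t)) := by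
  simp only [nd27, nd28, eW10, v_eP, v_eM, v_eW8, v_eW9, val_f, val_m]
  rw [zg_10]
  push_cast
  ring

theorem v_eW11 (x y t : ℝ) : val eW11 x y t = 205283203125000 * (Zg 8 11 (f_eP x y t) (f_eM x y t)) := by
  simp only [nd30, nd31, eW11, v_eP, v_eM, v_eW9, v_eW10, val_f, val_m]
  rw [zg_11]
  push_cast
  ring

theorem v_eq0 (x y t : ℝ) : val eq0 x y t = 3000000000000000000 * (qf0 x x) := by
  simp only [nd0, nd2, nd33, nd34, nd35, nd36, nd37, nd38, nd39, nd40, nd41, nd42, nd43, nd44, nd45, nd46, nd47, eq0, val_f, val_h, val_m, val_vx]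
  unfold qf0
  push_cast
  ring

theorem v_eq1 (x y t : ℝ) : val eq1 x y t = 9216000000000000000000 * (qf1 x x) := by
  simp only [nd0, nd2, nd34, nd37, nd40, nd43, nd46, nd50, nd51, nd52, nd53, nd54, nd55, nd56, nd57, nd58, nd59, eq1, val_f, val_h, val_m, val_vx]
  unfold qf1
  push_cast
  ring

/-- real function of eS1 -/
noncomputable def f_eS1 (x y t : ℝ) : ℝ := qf0 x x * Zg 8 0 (f_eP x y t) (f_eM x y t) + qf1 x x * Zg 8 1 (f_eP x y t) (f_eM x y t)

theorem v_eS1 (x y t : ℝ) : val eS1 x y t = 46080000000000000000000 * (f_eS1 x y t) := by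
  simp only [nd2, nd49, nd61, eS1, v_eP, v_eq0, v_eq1, val_f, val_h, val_m]
  unfold f_eS1
  rw [zg_0, zg_1]
  push_cast
  ring

theorem v_eq2 (x y t : ℝ) : val eq2 x y t = 9216000000000000000000 * (qf2 x x) := by
  simp only [nd0, nd2, nd34, nd37, nd40, nd43, nd46, nd64, nd65, nd66, nd67, nd68, nd69, nd70, nd71, nd72, nd73, eq2, val_f, val_h, val_m, val_vx]
  unfold qf2
  push_cast
  ring

/-- real function of eS2 -/
noncomputable def f_eS2 (x y t : ℝ) : ℝ := f_eS1 x y t + qf2 x x * Zg 8 2 (f_eP x y t) (f_eM x y t)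

theorem v_eS2 (x y t : ℝ) : val eS2 x y t = 1612800000000000000000000 * (f_eS2 x y t) := by
  simp only [nd2, nd63, nd75, eS2, v_eW2, v_eS1, v_eq2, val_f, val_h, val_m]
  unfold f_eS2
  push_cast
  ring

theorem v_eq3 (x y t : ℝ) : val eq3 x y t = 9216000000000000000000 * (qf3 x x) := by
  simp only [nd0, nd2, nd34, nd37, nd40, nd43, nd46, nd78, nd79, nd80, nd81, nd82, nd83, nd84, nd85, nd86, nd87, eq3, val_f, val_h, val_m, val_vx]
  unfold qf3
  push_cast
  ring

/-- real function of eS3 -/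
noncomputable def f_eS3 (x y t : ℝ) : ℝ := f_eS2 x y t + qf3 x x * Zg 8 3 (f_eP x y t) (f_eM x y t)

theorem v_eS3 (x y t : ℝ) : val eS3 x y t = 32256000000000000000000000 * (f_eS3 x y t) := by
  simp only [nd2, nd77, nd89, eS3, v_eW3, v_eS2, v_eq3, val_f, val_h, val_m]
  unfold f_eS3
  push_cast
  ring

theorem v_eq4 (x y t : ℝ) : val eq4 x y t = 9216000000000000000000 * (qf4 x x) := by
  simp only [nd0, nd2, nd34, nd37, nd40, nd43, nd46, nd92, nd93, nd94, nd95, nd96, nd97, nd98, nd99, nd100, nd101, eq4, val_f, val_h, val_m, val_vx]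
  unfold qf4
  push_cast
  ring

/-- real function of eS4 -/
noncomputable def f_eS4 (x y t : ℝ) : ℝ := f_eS3 x y t + qf4 x x * Zg 8 4 (f_eP x y t) (f_eM x y t)

theorem v_eS4 (x y t : ℝ) : val eS4 x y t = 483840000000000000000000000 * (f_eS4 x y t) := by
  simp only [nd2, nd91, nd103, eS4, v_eW4, v_eS3, v_eq4, val_f, val_h, val_m]
  unfold f_eS4
  push_cast
  ring

theorem v_eq5 (x y t : ℝ) : val eq5 x y t = 2764800000000000000000 * (qf5 x x) := by
  simp only [nd0, nd2, nd34, nd37, nd40, nd43, nd46, nd106, nd107, nd108, nd109, nd110, nd111, nd112, nd113, nd114, nd115, eq5, val_f, val_h, val_m, val_vx]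
  unfold qf5
  push_cast
  ring

/-- real function of eS5 -/
noncomputable def f_eS5 (x y t : ℝ) : ℝ := f_eS4 x y t + qf5 x x * Zg 8 5 (f_eP x y t) (f_eM x y t)

theorem v_eS5 (x y t : ℝ) : val eS5 x y t = 7257600000000000000000000000 * (f_eS5 x y t) := by
  simp only [nd2, nd105, nd117, eS5, v_eW5, v_eS4, v_eq5, val_f, val_h, val_m]
  unfold f_eS5
  push_cast
  ring

theorem v_eq6 (x y t : ℝ) : val eq6 x y t = 1843200000000000000000 * (qf6 x x) := by
  simp only [nd0, nd2, nd34, nd37, nd40, nd43, nd46, nd120, nd121, nd122, nd123, nd124, nd125, nd126, nd127, nd128, nd129, eq6, val_f, val_h, val_m, val_vx]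
  unfold qf6
  push_cast
  ring

/-- real function of eS6 -/
noncomputable def f_eS6 (x y t : ℝ) : ℝ := f_eS5 x y t + qf6 x x * Zg 8 6 (f_eP x y t) (f_eM x y t)

theorem v_eS6 (x y t : ℝ) : val eS6 x y t = 399168000000000000000000000000 * (f_eS6 x y t) := by
  simp only [nd2, nd119, nd131, eS6, v_eW6, v_eS5, v_eq6, val_f, val_h, val_m]
  unfold f_eS6
  push_cast
  ring

theorem v_eq7 (x y t : ℝ) : val eq7 x y t = 27648000000000000000000 * (qf7 x x) := by
  simp only [nd0, nd2, nd34, nd37, nd40, nd43, nd46, nd134, nd135, nd136, nd137, nd138, nd139, nd140, nd141, nd142, nd143, eq7, val_f, val_h, val_m, val_vx]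
  unfold qf7
  push_cast
  ring

/-- real function of eS7 -/
noncomputable def f_eS7 (x y t : ℝ) : ℝ := f_eS6 x y t + qf7 x x * Zg 8 7 (f_eP x y t) (f_eM x y t)

theorem v_eS7 (x y t : ℝ) : val eS7 x y t = 9979200000000000000000000000000 * (f_eS7 x y t) := by
  simp only [nd2, nd133, nd145, eS7, v_eW7, v_eS6, v_eq7, val_f, val_h, val_m]
  unfold f_eS7
  push_cast
  ring

theorem v_eq8 (x y t : ℝ) : val eq8 x y t = 1000000000000000000 * (qf8 x x) := by
  simp only [nd0, nd2, nd34, nd37, nd40, nd43, nd46, nd148, nd149, nd150, nd151, nd152, nd153, nd154, eq8, val_f, val_h, val_m, val_vx]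
  unfold qf8
  push_cast
  ring

/-- real function of eS8 -/
noncomputable def f_eS8 (x y t : ℝ) : ℝ := f_eS7 x y t + qf8 x x * Zg 8 8 (f_eP x y t) (f_eM x y t)

theorem v_eS8 (x y t : ℝ) : val eS8 x y t = 648648000000000000000000000000000 * (f_eS8 x y t) := by
  simp only [nd2, nd147, nd156, eS8, v_eW8, v_eS7, v_eq8, val_f, val_h, val_m]
  unfold f_eS8
  push_cast
  ring

theorem v_eq9 (x y t : ℝ) : val eq9 x y t = 1024000000000000000000 * (qf9 x x) := by
  simp only [nd0, nd2, nd34, nd37, nd40, nd43, nd46, nd159, nd160, nd161, nd162, nd163, nd164, nd165, nd166, nd167, nd168, eq9, val_f, val_h, val_m, val_vx]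
  unfold qf9
  push_cast
  ring

/-- real function of eS9 -/
noncomputable def f_eS9 (x y t : ℝ) : ℝ := f_eS8 x y t + qf9 x x * Zg 8 9 (f_eP x y t) (f_eM x y t)

theorem v_eS9 (x y t : ℝ) : val eS9 x y t = 22702680000000000000000000000000000 * (f_eS9 x y t) := by
  simp only [nd2, nd158, nd170, eS9, v_eW9, v_eS8, v_eq9, val_f, val_h, val_m]
  unfold f_eS9
  push_cast
  ring

theorem v_eq10 (x y t : ℝ) : val eq10 x y t = 1024000000000000000000 * (qf10 x x) := by
  simp only [nd0, nd2, nd34, nd37, nd40, nd43, nd46, nd173, nd174, nd175, nd176, nd177, nd178, nd179, nd180, nd181, nd182, eq10, val_f, val_h, val_m, val_vx]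
  unfold qf10
  push_cast
  ring

/-- real function of eS10 -/
noncomputable def f_eS10 (x y t : ℝ) : ℝ := f_eS9 x y t + qf10 x x * Zg 8 10 (f_eP x y t) (f_eM x y t)

theorem v_eS10 (x y t : ℝ) : val eS10 x y t = 567567000000000000000000000000000000 * (f_eS10 x y t) := by
  simp only [nd2, nd172, nd184, eS10, v_eW10, v_eS9, v_eq10, val_f, val_h, val_m]
  unfold f_eS10
  push_cast
  ring

theorem v_eq11 (x y t : ℝ) : val eq11 x y t = 256000000000000000000 * (qf11 x x) := by
  simp only [nd0, nd2, nd34, nd37, nd40, nd43, nd46, nd187, nd188, nd189, nd190, nd191, nd192, nd193, nd194, nd195, nd196, eq11, val_f, val_h, val_m, val_vx]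
  unfold qf11
  push_cast
  ring

/-- real function of eS11 -/
noncomputable def f_eS11 (x y t : ℝ) : ℝ := f_eS10 x y t + qf11 x x * Zg 8 11 (f_eP x y t) (f_eM x y t)

theorem v_eS11 (x y t : ℝ) : val eS11 x y t = 2837835000000000000000000000000000000 * (f_eS11 x y t) := by
  simp only [nd2, nd186, nd198, eS11, v_eW11, v_eS10, v_eq11, val_f, val_h, val_m]
  unfold f_eS11
  push_cast
  ring

/-- real function of eV -/
noncomputable def f_eV (x y t : ℝ) : ℝ := (((((((((801889 / 10000000) + ((119707 / 10000000) * (x ^ 1))) + (((-170063) / 5000000) * (x ^ 2))) + (((-79121) / 5000000) * (x ^ 3))) + (((-134799) / 500000) * (x ^ 4))) + ((12686271 / 10000000) * (x ^ 5))) + (((-3606929) / 1000000) * (x ^ 6))) + ((27672357 / 5000000) * (x ^ 7))) + (((-4372693) / 1000000) * (x ^ 8))) + ((7019677 / 5000000) * (x ^ 9))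

theorem v_eV (x y t : ℝ) : val eV x y t = 10000000 * (f_eV x y t) := by
  simp only [nd0, nd2, nd34, nd37, nd40, nd43, nd46, nd200, nd201, nd202, nd203, nd204, nd205, nd206, nd207, nd208, nd209, nd210, nd211, nd212, nd213, nd214, nd215, nd216, nd217, nd218, eV, val_f, val_h, val_m, val_vx]
  unfold f_eV
  push_cast
  ring

/-- real function of el -/
noncomputable def f_el (x y t : ℝ) : ℝ := (((158713 / 240000000) + ((232831971 / 400000000000) * (x ^ 1))) + ((282985279 / 200000000000) * (x ^ 2))) + (((-3188385457) / 1200000000000) * (x ^ 3))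

theorem v_el (x y t : ℝ) : val el x y t = (1200000000000 / 158713) * (f_el x y t) := by
  simp only [nd0, nd2, nd34, nd37, nd220, nd221, nd222, nd223, el, val_f, val_h, val_m, val_vx]
  unfold f_el
  push_cast
  ring


theorem KT_eq (x y t : ℝ) : f_eS11 x y t =
    Kt 11 4 cA x x (1 - 2 / 5 * x) ((1 - 2 / 5 * x) * (1 - 2 / 5 * x)) := by
  rw [Kt_eq]
  simp only [f_eS11, f_eS10, f_eS9, f_eS8, f_eS7, f_eS6, f_eS5, f_eS4, f_eS3, f_eS2, f_eS1, f_eP, f_eM]

theorem l_eq (x y t : ℝ) : ∑ i ∈ range 4, cA 0 i 0 * x ^ i = f_el x y t := by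
  unfold cA f_el
  simp only [sum_range_succ, sum_range_zero, cw, cL, cL0]
  ring

theorem V_eq (x y t : ℝ) : PW.VV x = f_eV x y t := by
  unfold PW.VV f_eV
  ring

end Pool.Agent.Lib.MP_f1379f_gt.FV.CP.V
end

section
/-!
# programs, chart U
-/
set_option autoImplicit false
set_option linter.unusedVariables false
set_option linter.unusedSimpArgs false
set_option linter.unusedTactic false
set_option linter.style.longLine false
set_option maxRecDepth 100000

namespace Pool.Agent.Lib.MP_f1379f_gt.FV.CP.U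

open Finset Pool.Agent.Lib.MP_f1379f_gt.FV Pool.Agent.Lib.MP_f1379f_gt.FV.BCH Pool.Agent.Lib.MP_f1379f_gt.FV.CP

/-- node -/
def nd0 : Ex := .v .x
/-- node -/
def nd1 : Ex := .v .y
/-- node -/
def nd2 : Ex := .v .t
/-- node -/
def nd4 : Ex := .m nd0 nd1
/-- node -/
def nd5 : Ex := .h .x
/-- node -/
def nd6 : Ex := .h .y
/-- node -/
def nd7 : Ex := .m nd5 nd6
/-- node -/
def nd8 : Ex := .m nd2 nd7
/-- node -/
def nd9 : Ex := .h .t
/-- node -/
def nd10 : Ex := .m nd4 nd9
/-- node -/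
def eP : Ex := .f 25 nd8 (-2) nd10
/-- node -/
def nd12 : Ex := .f 5 nd5 (-2) nd0
/-- node -/
def nd13 : Ex := .f 5 nd6 (-2) nd1
/-- node -/
def nd14 : Ex := .m nd12 nd13
/-- node -/
def nd15 : Ex := .m nd6 nd9
/-- node -/
def nd16 : Ex := .m nd5 nd15
/-- node -/
def nd17 : Ex := .m nd9 nd16
/-- node -/
def eM : Ex := .m nd14 nd17
/-- node -/
def nd19 : Ex := .m eP eP
/-- node -/
def eW2 : Ex := .f 8 nd19 (-25) eM
/-- node -/
def nd21 : Ex := .m eP eW2
/-- node -/
def nd22 : Ex := .m eM eP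
/-- node -/
def eW3 : Ex := .f 1 nd21 (-35) nd22
/-- node -/
def nd24 : Ex := .m eP eW3
/-- node -/
def nd25 : Ex := .m eM eW2
/-- node -/
def eW4 : Ex := .f 1 nd24 (-5) nd25
/-- node -/
def nd27 : Ex := .m eP eW4
/-- node -/
def nd28 : Ex := .m eM eW3
/-- node -/
def eW5 : Ex := .f 14 nd27 (-75) nd28
/-- node -/
def nd30 : Ex := .m eP eW5
/-- node -/
def nd31 : Ex := .m eM eW4
/-- node -/
def eW6 : Ex := .f 8 nd30 (-625) nd31
/-- node -/
def nd33 : Ex := .m eP eW6
/-- node -/
def nd34 : Ex := .m eM eW5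
/-- node -/
def eW7 : Ex := .f 6 nd33 (-275) nd34
/-- node -/
def nd36 : Ex := .m eP eW7
/-- node -/
def nd37 : Ex := .m eM eW6
/-- node -/
def eW8 : Ex := .f 1 nd36 (-35) nd37
/-- node -/
def nd39 : Ex := .m eP eW8
/-- node -/
def nd40 : Ex := .m eM eW7
/-- node -/
def eW9 : Ex := .f 11 nd39 (-65) nd40
/-- node -/
def nd42 : Ex := .m eP eW9
/-- node -/
def nd43 : Ex := .m eM eW8
/-- node -/
def eW10 : Ex := .f 8 nd42 (-525) nd43
/-- node -/
def nd45 : Ex := .m eP eW10
/-- node -/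
def nd46 : Ex := .m eM eW9
/-- node -/
def eW11 : Ex := .f 13 nd45 (-625) nd46
/-- node -/
def nd48 : Ex := .f 5000 nd6 4401 nd1
/-- node -/
def nd49 : Ex := .m nd1 nd1
/-- node -/
def nd50 : Ex := .m nd48 nd6
/-- node -/
def nd51 : Ex := .f 1 nd50 10698 nd49
/-- node -/
def nd52 : Ex := .m nd49 nd1
/-- node -/
def nd53 : Ex := .m nd51 nd6
/-- node -/
def nd54 : Ex := .f 1 nd53 (-20089) nd52
/-- node -/
def nd55 : Ex := .f 1164159855000 nd6 1058938904371 nd1
/-- node -/
def nd56 : Ex := .m nd55 nd6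
/-- node -/
def nd57 : Ex := .f 1 nd56 2189815935218 nd49
/-- node -/
def nd58 : Ex := .m nd57 nd6
/-- node -/
def nd59 : Ex := .f 1 nd58 (-4383686613179) nd52
/-- node -/
def nd60 : Ex := .m nd0 nd59
/-- node -/
def nd61 : Ex := .m nd54 nd5
/-- node -/
def nd62 : Ex := .f 793565000 nd61 3 nd60
/-- node -/
def nd63 : Ex := .f 1414926395000 nd6 1094907967609 nd1
/-- node -/
def nd64 : Ex := .m nd63 nd6
/-- node -/
def nd65 : Ex := .f 1000 nd64 4504934821689827 nd49
/-- node -/
def nd66 : Ex := .m nd65 nd6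
/-- node -/
def nd67 : Ex := .f 1 nd66 (-7149299434328412) nd52
/-- node -/
def nd68 : Ex := .m nd0 nd0
/-- node -/
def nd69 : Ex := .m nd68 nd67
/-- node -/
def nd70 : Ex := .m nd62 nd5
/-- node -/
def nd71 : Ex := .f 500 nd70 3 nd69
/-- node -/
def nd72 : Ex := .f (-15941927285000) nd6 (-13151059839537) nd1
/-- node -/
def nd73 : Ex := .m nd72 nd6
/-- node -/
def nd74 : Ex := .f 125 nd73 (-5361974575746309) nd49
/-- node -/
def nd75 : Ex := .m nd74 nd6
/-- node -/
def nd76 : Ex := .f 1 nd75 9139039707259235 nd52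
/-- node -/
def nd77 : Ex := .m nd68 nd0
/-- node -/
def nd78 : Ex := .m nd77 nd76
/-- node -/
def nd79 : Ex := .m nd71 nd5
/-- node -/
def eq0 : Ex := .f 1 nd79 4 nd78
/-- node -/
def nd81 : Ex := .m eq0 nd16
/-- node -/
def nd82 : Ex := .f 10000 nd6 15559 nd1
/-- node -/
def nd83 : Ex := .m nd82 nd6
/-- node -/
def nd84 : Ex := .f 1 nd83 28901 nd49
/-- node -/
def nd85 : Ex := .m nd84 nd6
/-- node -/
def nd86 : Ex := .f 1 nd85 (-32630) nd52
/-- node -/
def nd87 : Ex := .f 526355421816190000 nd6 1379834972323810021 nd1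
/-- node -/
def nd88 : Ex := .m nd87 nd6
/-- node -/
def nd89 : Ex := .f 1 nd88 (-3421466519071877281) nd49
/-- node -/
def nd90 : Ex := .m nd89 nd6
/-- node -/
def nd91 : Ex := .f 1 nd90 2180720506392076030 nd52
/-- node -/
def nd92 : Ex := .m nd0 nd91
/-- node -/
def nd93 : Ex := .m nd86 nd5
/-- node -/
def nd94 : Ex := .f 33829643410000 nd93 1 nd92
/-- node -/
def nd95 : Ex := .f 977710524192410000 nd6 (-3421466519071877281) nd1
/-- node -/
def nd96 : Ex := .m nd95 nd6
/-- node -/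
def nd97 : Ex := .f 5 nd96 234159892611842829281 nd49
/-- node -/
def nd98 : Ex := .m nd97 nd6
/-- node -/
def nd99 : Ex := .f 1 nd98 (-178381932482431158398) nd52
/-- node -/
def nd100 : Ex := .m nd68 nd99
/-- node -/
def nd101 : Ex := .m nd94 nd5
/-- node -/
def nd102 : Ex := .f 5 nd101 1 nd100
/-- node -/
def nd103 : Ex := .f (-110386126446830000) nd6 218072050639207603 nd1
/-- node -/
def nd104 : Ex := .m nd103 nd6
/-- node -/
def nd105 : Ex := .f 25 nd104 (-89190966241215579199) nd49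
/-- node -/
def nd106 : Ex := .m nd105 nd6
/-- node -/
def nd107 : Ex := .f 25 nd106 2695734744539706991474 nd52
/-- node -/
def nd108 : Ex := .m nd77 nd107
/-- node -/
def nd109 : Ex := .m nd102 nd5
/-- node -/
def eq1 : Ex := .f 25 nd109 2 nd108
/-- node -/
def nd111 : Ex := .m eq1 eP
/-- node -/
def eS1 : Ex := .f 76800 nd81 1 nd111
/-- node -/
def nd113 : Ex := .m eS1 nd16
/-- node -/
def nd114 : Ex := .f 1000 nd6 2083 nd1
/-- node -/
def nd115 : Ex := .m nd114 nd6
/-- node -/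
def nd116 : Ex := .f 10 nd115 37841 nd49
/-- node -/
def nd117 : Ex := .m nd116 nd6
/-- node -/
def nd118 : Ex := .f 1 nd117 (-27745) nd52
/-- node -/
def nd119 : Ex := .f 380886500491000 nd6 926577406916353 nd1
/-- node -/
def nd120 : Ex := .m nd119 nd6
/-- node -/
def nd121 : Ex := .f 50 nd120 41997135312912487 nd49
/-- node -/
def nd122 : Ex := .m nd121 nd6
/-- node -/
def nd123 : Ex := .f 1 nd122 (-17221254940569431) nd52
/-- node -/
def nd124 : Ex := .m nd0 nd123
/-- node -/
def nd125 : Ex := .m nd118 nd5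
/-- node -/
def nd126 : Ex := .f 914273885000 nd125 1 nd124
/-- node -/
def nd127 : Ex := .f 34597038082285000 nd6 41997135312912487 nd1
/-- node -/
def nd128 : Ex := .m nd127 nd6
/-- node -/
def nd129 : Ex := .f 1250 nd128 410052524089169350921 nd49
/-- node -/
def nd130 : Ex := .m nd129 nd6
/-- node -/
def nd131 : Ex := .f 1 nd130 (-260565328494450266393) nd52
/-- node -/
def nd132 : Ex := .m nd68 nd131
/-- node -/
def nd133 : Ex := .m nd126 nd5
/-- node -/
def nd134 : Ex := .f 1250 nd133 1 nd132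
/-- node -/
def nd135 : Ex := .f (-25366528939325000) nd6 (-17221254940569431) nd1
/-- node -/
def nd136 : Ex := .m nd135 nd6
/-- node -/
def nd137 : Ex := .f 1250 nd136 (-260565328494450266393) nd49
/-- node -/
def nd138 : Ex := .m nd137 nd6
/-- node -/
def nd139 : Ex := .f 11 nd138 7773478524113834373059 nd52
/-- node -/
def nd140 : Ex := .m nd77 nd139
/-- node -/
def nd141 : Ex := .m nd134 nd5
/-- node -/
def eq2 : Ex := .f 11 nd141 1 nd140
/-- node -/
def nd143 : Ex := .m eq2 eW2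
/-- node -/
def eS2 : Ex := .f 175 nd113 1 nd143
/-- node -/
def nd145 : Ex := .m eS2 nd16
/-- node -/
def nd146 : Ex := .f 2000 nd6 5067 nd1
/-- node -/
def nd147 : Ex := .m nd146 nd6
/-- node -/
def nd148 : Ex := .f 5 nd147 47319 nd49
/-- node -/
def nd149 : Ex := .m nd148 nd6
/-- node -/
def nd150 : Ex := .f 1 nd149 (-2191) nd52
/-- node -/
def nd151 : Ex := .f 22303313822246000 nd6 59412207390868241 nd1
/-- node -/
def nd152 : Ex := .m nd151 nd6
/-- node -/
def nd153 : Ex := .f 5 nd152 423948737466470133 nd49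
/-- node -/
def nd154 : Ex := .m nd153 nd6
/-- node -/
def nd155 : Ex := .f 1 nd154 (-202202113053045149) nd52
/-- node -/
def nd156 : Ex := .m nd0 nd155
/-- node -/
def nd157 : Ex := .m nd150 nd5
/-- node -/
def nd158 : Ex := .f 39615122242000 nd157 9 nd156
/-- node -/
def nd159 : Ex := .f 624849323123066000 nd6 1271846212399410399 nd1
/-- node -/
def nd160 : Ex := .m nd159 nd6
/-- node -/
def nd161 : Ex := .f 625 nd160 3340719209533338192207 nd49
/-- node -/
def nd162 : Ex := .m nd161 nd6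
/-- node -/
def nd163 : Ex := .f 1 nd162 1412201819518212610873 nd52
/-- node -/
def nd164 : Ex := .m nd68 nd163
/-- node -/
def nd165 : Ex := .m nd158 nd5
/-- node -/
def nd166 : Ex := .f 625 nd165 3 nd164
/-- node -/
def nd167 : Ex := .f (-86796732832222000) nd6 (-1819819017477406341) nd1
/-- node -/
def nd168 : Ex := .m nd167 nd6
/-- node -/
def nd169 : Ex := .f 625 nd168 4236605458554637832619 nd49
/-- node -/
def nd170 : Ex := .m nd169 nd6
/-- node -/
def nd171 : Ex := .f 1 nd170 34963198664165304245245 nd52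
/-- node -/
def nd172 : Ex := .m nd77 nd171
/-- node -/
def nd173 : Ex := .m nd166 nd5
/-- node -/
def eq3 : Ex := .f 1 nd173 1 nd172
/-- node -/
def nd175 : Ex := .m eq3 eW3
/-- node -/
def eS3 : Ex := .f 20 nd145 1 nd175
/-- node -/
def nd177 : Ex := .m eS3 nd16
/-- node -/
def nd178 : Ex := .f 1250 nd6 3727 nd1
/-- node -/
def nd179 : Ex := .m nd178 nd6
/-- node -/
def nd180 : Ex := .f 8 nd179 59399 nd49
/-- node -/
def nd181 : Ex := .m nd180 nd6
/-- node -/
def nd182 : Ex := .f 1 nd181 43379 nd52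
/-- node -/
def nd183 : Ex := .f 115725550425458750 nd6 366322298217347809 nd1
/-- node -/
def nd184 : Ex := .m nd183 nd6
/-- node -/
def nd185 : Ex := .f 8 nd184 3864482881001487593 nd49
/-- node -/
def nd186 : Ex := .m nd185 nd6
/-- node -/
def nd187 : Ex := .f 1 nd186 5529856572957002813 nd52
/-- node -/
def nd188 : Ex := .m nd0 nd187
/-- node -/
def nd189 : Ex := .m nd182 nd5
/-- node -/
def nd190 : Ex := .f 31050590401250 nd189 1 nd188
/-- node -/
def nd191 : Ex := .f 1844374019243848750 nd6 3864482881001487593 nd1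
/-- node -/
def nd192 : Ex := .m nd191 nd6
/-- node -/
def nd193 : Ex := .f 1000 nd192 27965844887452636324589 nd49
/-- node -/
def nd194 : Ex := .m nd193 nd6
/-- node -/
def nd195 : Ex := .f 1 nd194 (-17690049374271385883887) nd52
/-- node -/
def nd196 : Ex := .m nd68 nd195
/-- node -/
def nd197 : Ex := .m nd190 nd5
/-- node -/
def nd198 : Ex := .f 1000 nd197 1 nd196
/-- node -/
def nd199 : Ex := .f 1346943561015823750 nd6 5529856572957002813 nd1
/-- node -/
def nd200 : Ex := .m nd199 nd6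
/-- node -/
def nd201 : Ex := .f 1000 nd200 (-17690049374271385883887) nd49
/-- node -/
def nd202 : Ex := .m nd201 nd6
/-- node -/
def nd203 : Ex := .f 1 nd202 114839018480350250467973 nd52
/-- node -/
def nd204 : Ex := .m nd77 nd203
/-- node -/
def nd205 : Ex := .m nd198 nd5
/-- node -/
def eq4 : Ex := .f 1 nd205 1 nd204
/-- node -/
def nd207 : Ex := .m eq4 eW4
/-- node -/
def eS4 : Ex := .f 75 nd177 4 nd207
/-- node -/
def nd209 : Ex := .m eS4 nd16
/-- node -/
def nd210 : Ex := .f 2500 nd6 8537 nd1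
/-- node -/
def nd211 : Ex := .m nd210 nd6
/-- node -/
def nd212 : Ex := .f 4 nd211 66707 nd49
/-- node -/
def nd213 : Ex := .m nd212 nd6
/-- node -/
def nd214 : Ex := .f 1 nd213 152422 nd52
/-- node -/
def nd215 : Ex := .f 3531745166939282500 nd6 12453021669984261881 nd1
/-- node -/
def nd216 : Ex := .m nd215 nd6
/-- node -/
def nd217 : Ex := .f 4 nd216 75877466581244095091 nd49
/-- node -/
def nd218 : Ex := .m nd217 nd6
/-- node -/
def nd219 : Ex := .f 1 nd218 257382803285749038886 nd52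
/-- node -/
def nd220 : Ex := .m nd0 nd219
/-- node -/
def nd221 : Ex := .m nd214 nd5
/-- node -/
def nd222 : Ex := .f 413698625622500 nd221 1 nd220
/-- node -/
def nd223 : Ex := .f 27596594219400107500 nd6 75877466581244095091 nd1
/-- node -/
def nd224 : Ex := .m nd223 nd6
/-- node -/
def nd225 : Ex := .f 20 nd224 9558674049850420691701 nd49
/-- node -/
def nd226 : Ex := .m nd225 nd6
/-- node -/
def nd227 : Ex := .f 1 nd226 (-14978893881279177827926) nd52
/-- node -/
def nd228 : Ex := .m nd68 nd227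
/-- node -/
def nd229 : Ex := .m nd222 nd5
/-- node -/
def nd230 : Ex := .f 20 nd229 1 nd228
/-- node -/
def nd231 : Ex := .f 31528385957316347500 nd6 128691401642874519443 nd1
/-- node -/
def nd232 : Ex := .m nd231 nd6
/-- node -/
def nd233 : Ex := .f 20 nd232 (-7489446940639588913963) nd49
/-- node -/
def nd234 : Ex := .m nd233 nd6
/-- node -/
def nd235 : Ex := .f 1 nd234 78967406552276877783914 nd52
/-- node -/
def nd236 : Ex := .m nd77 nd235
/-- node -/
def nd237 : Ex := .m nd230 nd5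
/-- node -/
def eq5 : Ex := .f 1 nd237 2 nd236
/-- node -/
def nd239 : Ex := .m eq5 eW5
/-- node -/
def eS5 : Ex := .f 75 nd209 4 nd239
/-- node -/
def nd241 : Ex := .m eS5 nd16
/-- node -/
def nd242 : Ex := .f 2500 nd6 10043 nd1
/-- node -/
def nd243 : Ex := .m nd242 nd6
/-- node -/
def nd244 : Ex := .f 4 nd243 46673 nd49
/-- node -/
def nd245 : Ex := .m nd244 nd6
/-- node -/
def nd246 : Ex := .f 1 nd245 493030 nd52
/-- node -/
def nd247 : Ex := .f 53545428551807500 nd6 221054066739921089 nd1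
/-- node -/
def nd248 : Ex := .m nd247 nd6
/-- node -/
def nd249 : Ex := .f 4 nd248 640499348407632419 nd49
/-- node -/
def nd250 : Ex := .m nd249 nd6
/-- node -/
def nd251 : Ex := .f 1 nd250 11894055620117417170 nd52
/-- node -/
def nd252 : Ex := .m nd0 nd251
/-- node -/
def nd253 : Ex := .m nd246 nd5
/-- node -/
def nd254 : Ex := .f 5331616902500 nd253 1 nd252
/-- node -/
def nd255 : Ex := .f 248842555690382500 nd6 640499348407632419 nd1
/-- node -/
def nd256 : Ex := .m nd255 nd6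
/-- node -/
def nd257 : Ex := .f 500 nd256 3906223364565158821477 nd49
/-- node -/
def nd258 : Ex := .m nd257 nd6
/-- node -/
def nd259 : Ex := .f 1 nd258 (-9174112577383286950306) nd52
/-- node -/
def nd260 : Ex := .m nd68 nd259
/-- node -/
def nd261 : Ex := .m nd254 nd5
/-- node -/
def nd262 : Ex := .f 500 nd261 1 nd260
/-- node -/
def nd263 : Ex := .f 262864708143957500 nd6 1189405562011741717 nd1
/-- node -/
def nd264 : Ex := .m nd263 nd6
/-- node -/
def nd265 : Ex := .f 2500 nd264 (-4587056288691643475153) nd49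
/-- node -/
def nd266 : Ex := .m nd265 nd6
/-- node -/
def nd267 : Ex := .f 1 nd266 73515111314548202373914 nd52
/-- node -/
def nd268 : Ex := .m nd77 nd267
/-- node -/
def nd269 : Ex := .m nd262 nd5
/-- node -/
def eq6 : Ex := .f 1 nd269 2 nd268
/-- node -/
def nd271 : Ex := .m eq6 eW6
/-- node -/
def eS6 : Ex := .f 275 nd241 12 nd271
/-- node -/
def nd273 : Ex := .m eS6 nd16
/-- node -/
def nd274 : Ex := .f 5000 nd6 51327 nd1
/-- node -/
def nd275 : Ex := .m nd274 nd6
/-- node -/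
def nd276 : Ex := .f 2 nd275 (-328137) nd49
/-- node -/
def nd277 : Ex := .m nd276 nd6
/-- node -/
def nd278 : Ex := .f 1 nd277 4128882 nd52
/-- node -/
def nd279 : Ex := .f 25929471732985000 nd6 270730991998184219 nd1
/-- node -/
def nd280 : Ex := .m nd279 nd6
/-- node -/
def nd281 : Ex := .f 2 nd280 (-1797599895385627469) nd49
/-- node -/
def nd282 : Ex := .m nd281 nd6
/-- node -/
def nd283 : Ex := .f 1 nd282 21594968492388842234 nd52
/-- node -/
def nd284 : Ex := .m nd0 nd283
/-- node -/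
def nd285 : Ex := .m nd278 nd5
/-- node -/
def nd286 : Ex := .f 13639911485000 nd285 27 nd284
/-- node -/
def nd287 : Ex := .f (-1491919878317815000) nd6 (-16178399058470647221) nd1
/-- node -/
def nd288 : Ex := .m nd287 nd6
/-- node -/
def nd289 : Ex := .f 250 nd288 14620728926242806379863 nd49
/-- node -/
def nd290 : Ex := .m nd289 nd6
/-- node -/
def nd291 : Ex := .f 1 nd290 (-158774499568423472204238) nd52
/-- node -/
def nd292 : Ex := .m nd68 nd291
/-- node -/
def nd293 : Ex := .m nd286 nd5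
/-- node -/
def nd294 : Ex := .f 250 nd293 3 nd292
/-- node -/
def nd295 : Ex := .f 9386264168668295000 nd6 97177358215749790053 nd1
/-- node -/
def nd296 : Ex := .m nd295 nd6
/-- node -/
def nd297 : Ex := .f 250 nd296 (-79387249784211736102119) nd49
/-- node -/
def nd298 : Ex := .m nd297 nd6
/-- node -/
def nd299 : Ex := .f 1 nd298 975560810814103396521198 nd52
/-- node -/
def nd300 : Ex := .m nd77 nd299
/-- node -/
def nd301 : Ex := .m nd294 nd5
/-- node -/
def eq7 : Ex := .f 1 nd301 6 nd300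
/-- node -/
def nd303 : Ex := .m eq7 eW7
/-- node -/
def eS7 : Ex := .f 125 nd273 1 nd303
/-- node -/
def nd305 : Ex := .m eS7 nd16
/-- node -/
def nd306 : Ex := .m nd1 nd6
/-- node -/
def nd307 : Ex := .f 5000 nd306 (-157943) nd49
/-- node -/
def nd308 : Ex := .m nd307 nd6
/-- node -/
def nd309 : Ex := .f 2 nd308 1972899 nd52
/-- node -/
def nd310 : Ex := .m nd0 nd309
/-- node -/
def nd311 : Ex := .f (-13607711047405000) nd306 468098923492057583 nd49
/-- node -/
def nd312 : Ex := .m nd311 nd6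
/-- node -/
def nd313 : Ex := .f 2 nd312 (-6025046557235295419) nd52
/-- node -/
def nd314 : Ex := .m nd68 nd313
/-- node -/
def nd315 : Ex := .m nd310 nd5
/-- node -/
def nd316 : Ex := .f 86155835000 nd315 1 nd314
/-- node -/
def nd317 : Ex := .f 5861267610885000 nd306 (-207760226111561911) nd49
/-- node -/
def nd318 : Ex := .m nd317 nd6
/-- node -/
def nd319 : Ex := .f 174 nd318 234930750006261138997 nd52
/-- node -/
def nd320 : Ex := .m nd77 nd319
/-- node -/
def nd321 : Ex := .m nd316 nd5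
/-- node -/
def eq8 : Ex := .f 6 nd321 1 nd320
/-- node -/
def nd323 : Ex := .m eq8 eW8
/-- node -/
def eS8 : Ex := .f 65 nd305 110592 nd323
/-- node -/
def nd325 : Ex := .m eS8 nd16
/-- node -/
def nd326 : Ex := .f 400 nd6 (-6611) nd1
/-- node -/
def nd327 : Ex := .m nd326 nd6
/-- node -/
def nd328 : Ex := .f 25 nd327 3546852 nd49
/-- node -/
def nd329 : Ex := .m nd328 nd6
/-- node -/
def nd330 : Ex := .f 1 nd329 (-19227978) nd52
/-- node -/
def nd331 : Ex := .f (-110944535332400) nd6 2004193083866241 nd1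
/-- node -/
def nd332 : Ex := .m nd331 nd6
/-- node -/
def nd333 : Ex := .f 25 nd332 (-1026657757288556812) nd49
/-- node -/
def nd334 : Ex := .m nd333 nd6
/-- node -/
def nd335 : Ex := .f 1 nd334 5389736371746237518 nd52
/-- node -/
def nd336 : Ex := .m nd0 nd335
/-- node -/
def nd337 : Ex := .m nd330 nd5
/-- node -/
def nd338 : Ex := .f 16781808400 nd337 1 nd336
/-- node -/
def nd339 : Ex := .f 14880647671789200 nd6 (-256664439322139203) nd1
/-- node -/
def nd340 : Ex := .m nd339 nd6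
/-- node -/
def nd341 : Ex := .f 25 nd340 135533868957220150052 nd49
/-- node -/
def nd342 : Ex := .m nd341 nd6
/-- node -/
def nd343 : Ex := .f 1 nd342 (-726628189354650572650) nd52
/-- node -/
def nd344 : Ex := .m nd68 nd343
/-- node -/
def nd345 : Ex := .m nd338 nd5
/-- node -/
def nd346 : Ex := .f 25 nd345 4 nd344
/-- node -/
def nd347 : Ex := .f (-23048588765386800) nd6 384981169410445537 nd1
/-- node -/
def nd348 : Ex := .m nd347 nd6
/-- node -/
def nd349 : Ex := .f 7 nd348 (-58130255148372045812) nd49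
/-- node -/
def nd350 : Ex := .m nd349 nd6
/-- node -/
def nd351 : Ex := .f 625 nd350 197516779111021339792402 nd52
/-- node -/
def nd352 : Ex := .m nd77 nd351
/-- node -/
def nd353 : Ex := .m nd346 nd5
/-- node -/
def eq9 : Ex := .f 25 nd353 2 nd352
/-- node -/
def nd355 : Ex := .m eq9 eW9
/-- node -/
def eS9 : Ex := .f 175 nd325 108 nd355
/-- node -/
def nd357 : Ex := .m eS9 nd16
/-- node -/
def nd358 : Ex := .f 2500 nd6 (-17519) nd1
/-- node -/
def nd359 : Ex := .m nd358 nd6
/-- node -/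
def nd360 : Ex := .f 4 nd359 1801391 nd49
/-- node -/
def nd361 : Ex := .m nd360 nd6
/-- node -/
def nd362 : Ex := .f 1 nd361 (-5788819) nd52
/-- node -/
def nd363 : Ex := .f (-290678620407500) nd6 2456365836367597 nd1
/-- node -/
def nd364 : Ex := .m nd363 nd6
/-- node -/
def nd365 : Ex := .f 4 nd364 (-226023936576239533) nd49
/-- node -/
def nd366 : Ex := .m nd365 nd6
/-- node -/
def nd367 : Ex := .f 1 nd366 691159505016878297 nd52
/-- node -/
def nd368 : Ex := .m nd0 nd367
/-- node -/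
def nd369 : Ex := .m nd362 nd5
/-- node -/
def nd370 : Ex := .f 16592192500 nd369 1 nd368
/-- node -/
def nd371 : Ex := .f 29889026239767500 nd6 (-226023936576239533) nd1
/-- node -/
def nd372 : Ex := .m nd371 nd6
/-- node -/
def nd373 : Ex := .f 700 nd372 3889621436778428269187 nd49
/-- node -/
def nd374 : Ex := .m nd373 nd6
/-- node -/
def nd375 : Ex := .f 1 nd374 (-12280421741837185629847) nd52
/-- node -/
def nd376 : Ex := .m nd68 nd375
/-- node -/
def nd377 : Ex := .m nd370 nd5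
/-- node -/
def nd378 : Ex := .f 700 nd377 1 nd376
/-- node -/
def nd379 : Ex := .f (-1812249041427500) nd6 13040745377676949 nd1
/-- node -/
def nd380 : Ex := .m nd379 nd6
/-- node -/
def nd381 : Ex := .f 5300 nd380 (-1754345963119597947121) nd49
/-- node -/
def nd382 : Ex := .m nd381 nd6
/-- node -/
def nd383 : Ex := .f 35 nd382 196977159904682863785287 nd52
/-- node -/
def nd384 : Ex := .m nd77 nd383
/-- node -/
def nd385 : Ex := .m nd378 nd5
/-- node -/
def eq10 : Ex := .f 5 nd385 1 nd384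
/-- node -/
def nd387 : Ex := .m eq10 eW10
/-- node -/
def eS10 : Ex := .f 125 nd357 108 nd387
/-- node -/
def nd389 : Ex := .m eS10 nd16
/-- node -/
def nd390 : Ex := .f 10000 nd6 (-50921) nd1
/-- node -/
def nd391 : Ex := .m nd390 nd6
/-- node -/
def nd392 : Ex := .f 1 nd391 1782945 nd49
/-- node -/
def nd393 : Ex := .m nd392 nd6
/-- node -/
def nd394 : Ex := .f 1 nd393 (-2349486) nd52
/-- node -/
def nd395 : Ex := .f (-3212417991510000) nd6 23268612624168071 nd1
/-- node -/
def nd396 : Ex := .m nd395 nd6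
/-- node -/
def nd397 : Ex := .f 1 nd396 (-656022989511990095) nd49
/-- node -/
def nd398 : Ex := .m nd397 nd6
/-- node -/
def nd399 : Ex := .f 1 nd398 953169876857550706 nd52
/-- node -/
def nd400 : Ex := .m nd0 nd399
/-- node -/
def nd401 : Ex := .m nd394 nd5
/-- node -/
def nd402 : Ex := .f 63086310000 nd401 1 nd400
/-- node -/
def nd403 : Ex := .f 22495884196590000 nd6 (-131204597902398019) nd1
/-- node -/
def nd404 : Ex := .m nd403 nd6
/-- node -/
def nd405 : Ex := .f 25 nd404 106103850197601071923 nd49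
/-- node -/
def nd406 : Ex := .m nd405 nd6
/-- node -/
def nd407 : Ex := .f 5 nd406 (-750919739900663905042) nd52
/-- node -/
def nd408 : Ex := .m nd68 nd407
/-- node -/
def nd409 : Ex := .m nd402 nd5
/-- node -/
def nd410 : Ex := .f 25 nd409 1 nd408
/-- node -/
def nd411 : Ex := .f (-74110201068330000) nd6 476584938428775353 nd1
/-- node -/
def nd412 : Ex := .m nd411 nd6
/-- node -/
def nd413 : Ex := .f 25 nd412 (-375459869950331952521) nd49
/-- node -/
def nd414 : Ex := .m nd413 nd6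
/-- node -/
def nd415 : Ex := .f 5 nd414 3177093799327776316246 nd52
/-- node -/
def nd416 : Ex := .m nd77 nd415
/-- node -/
def nd417 : Ex := .m nd410 nd5
/-- node -/
def eq11 : Ex := .f 5 nd417 2 nd416
/-- node -/
def nd419 : Ex := .m eq11 eW11
/-- node -/
def eS11 : Ex := .f 25 nd389 54 nd419
/-- node -/
def nd421 : Ex := .f 1 nd2 1 nd9
/-- node -/
def nd422 : Ex := .f 2 nd2 1 nd9
/-- node -/
def nd423 : Ex := .m nd422 nd422
/-- node -/
def nd424 : Ex := .m nd421 nd423
/-- node -/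
def nd425 : Ex := .m nd2 nd2
/-- node -/
def eB : Ex := .m nd424 nd425
/-- node -/
def nd427 : Ex := .m nd12 nd6
/-- node -/
def nd428 : Ex := .m nd13 nd5
/-- node -/
def nd429 : Ex := .f 1 nd427 1 nd428
/-- node -/
def nd430 : Ex := .m nd429 nd9
/-- node -/
def eD2 : Ex := .f 5 nd430 (-2) eP
/-- node -/
def eDd : Ex := .f 25 eM (-1) nd19
/-- node -/
def nd433 : Ex := .f 1 nd5 (-1) nd0
/-- node -/
def nd434 : Ex := .f 1 nd6 (-1) nd1
/-- node -/
def eR1 : Ex := .m nd433 nd434
/-- node -/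
def nd436 : Ex := .m eR1 eR1
/-- node -/
def eR3 : Ex := .m nd436 eR1
/-- node -/
def eK3 : Ex := .m eR3 eS11

/-- real function of eP -/
noncomputable def f_eP (x y t : ℝ) : ℝ := t - (((2 / 25) * x) * y)

theorem v_eP (x y t : ℝ) : val eP x y t = 25 * (f_eP x y t) := by
  simp only [nd0, nd1, nd2, nd4, nd5, nd6, nd7, nd8, nd9, nd10, eP, val_f, val_h, val_m, val_vt, val_vx, val_vy]
  unfold f_eP
  push_cast
  ring

/-- real function of eM -/
noncomputable def f_eM (x y t : ℝ) : ℝ := (1 - ((2 / 5) * x)) * (1 - ((2 / 5) * y))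

theorem v_eM (x y t : ℝ) : val eM x y t = 25 * (f_eM x y t) := by
  simp only [nd0, nd1, nd5, nd6, nd9, nd12, nd13, nd14, nd15, nd16, nd17, eM, val_f, val_h, val_m, val_vx, val_vy]
  unfold f_eM
  push_cast
  ring

theorem v_eW2 (x y t : ℝ) : val eW2 x y t = 4375 * (Zg 8 2 (f_eP x y t) (f_eM x y t)) := by
  simp only [nd19, eW2, v_eP, v_eM, val_f, val_m]
  rw [zg_2]
  rw [zg_0, zg_1]
  push_cast
  ring

theorem v_eW3 (x y t : ℝ) : val eW3 x y t = 87500 * (Zg 8 3 (f_eP x y t) (f_eM x y t)) := by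
  simp only [nd21, nd22, eW3, v_eP, v_eM, v_eW2, val_f, val_m]
  rw [zg_3]
  rw [zg_1]
  push_cast
  ring

theorem v_eW4 (x y t : ℝ) : val eW4 x y t = 1640625 * (Zg 8 4 (f_eP x y t) (f_eM x y t)) := by
  simp only [nd24, nd25, eW4, v_eP, v_eM, v_eW2, v_eW3, val_f, val_m]
  rw [zg_4]
  push_cast
  ring

theorem v_eW5 (x y t : ℝ) : val eW5 x y t = 410156250 * (Zg 8 5 (f_eP x y t) (f_eM x y t)) := by
  simp only [nd27, nd28, eW5, v_eP, v_eM, v_eW3, v_eW4, val_f, val_m]
  rw [zg_5]
  push_cast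
  ring

theorem v_eW6 (x y t : ℝ) : val eW6 x y t = 56396484375 * (Zg 8 6 (f_eP x y t) (f_eM x y t)) := by
  simp only [nd30, nd31, eW6, v_eP, v_eM, v_eW4, v_eW5, val_f, val_m]
  rw [zg_6]
  push_cast
  ring

theorem v_eW7 (x y t : ℝ) : val eW7 x y t = 5639648437500 * (Zg 8 7 (f_eP x y t) (f_eM x y t)) := by
  simp only [nd33, nd34, eW7, v_eP, v_eM, v_eW5, v_eW6, val_f, val_m]
  rw [zg_7]
  push_cast
  ring

theorem v_eW8 (x y t : ℝ) : val eW8 x y t = 91644287109375 * (Zg 8 8 (f_eP x y t) (f_eM x y t)) := by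
  simp only [nd36, nd37, eW8, v_eP, v_eM, v_eW6, v_eW7, val_f, val_m]
  rw [zg_8]
  push_cast
  ring

theorem v_eW9 (x y t : ℝ) : val eW9 x y t = 16037750244140625 * (Zg 8 9 (f_eP x y t) (f_eM x y t)) := by
  simp only [nd39, nd40, eW9, v_eP, v_eM, v_eW7, v_eW8, val_f, val_m]
  rw [zg_9]
  push_cast
  ring

theorem v_eW10 (x y t : ℝ) : val eW10 x y t = 2004718780517578125 * (Zg 8 10 (f_eP x y t) (f_eM x y t)) := by
  simp only [nd42, nd43, eW10, v_eP, v_eM, v_eW8, v_eW9, val_f, val_m]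
  rw [zg_10]
  push_cast
  ring

theorem v_eW11 (x y t : ℝ) : val eW11 x y t = 400943756103515625000 * (Zg 8 11 (f_eP x y t) (f_eM x y t)) := by
  simp only [nd45, nd46, eW11, v_eP, v_eM, v_eW9, v_eW10, val_f, val_m]
  rw [zg_11]
  push_cast
  ring

theorem v_eq0 (x y t : ℝ) : val eq0 x y t = 3000000000000000000 * (qf0 x y) := by
  simp only [nd0, nd1, nd5, nd6, nd48, nd49, nd50, nd51, nd52, nd53, nd54, nd55, nd56, nd57, nd58, nd59, nd60, nd61, nd62, nd63, nd64, nd65, nd66, nd67, nd68, nd69, nd70, nd71, nd72, nd73, nd74, nd75, nd76, nd77, nd78, nd79, eq0, val_f, val_h, val_m, val_vx, val_vy]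
  unfold qf0
  push_cast
  ring

theorem v_eq1 (x y t : ℝ) : val eq1 x y t = 9216000000000000000000 * (qf1 x y) := by
  simp only [nd0, nd1, nd5, nd6, nd49, nd52, nd68, nd77, nd82, nd83, nd84, nd85, nd86, nd87, nd88, nd89, nd90, nd91, nd92, nd93, nd94, nd95, nd96, nd97, nd98, nd99, nd100, nd101, nd102, nd103, nd104, nd105, nd106, nd107, nd108, nd109, eq1, val_f, val_h, val_m, val_vx, val_vy]
  unfold qf1
  push_cast
  ring

/-- real function of eS1 -/
noncomputable def f_eS1 (x y t : ℝ) : ℝ := qf0 x y * Zg 8 0 (f_eP x y t) (f_eM x y t) + qf1 x y * Zg 8 1 (f_eP x y t) (f_eM x y t)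

theorem v_eS1 (x y t : ℝ) : val eS1 x y t = 230400000000000000000000 * (f_eS1 x y t) := by
  simp only [nd5, nd6, nd9, nd15, nd16, nd81, nd111, eS1, v_eP, v_eq0, v_eq1, val_f, val_h, val_m]
  unfold f_eS1
  rw [zg_0, zg_1]
  push_cast
  ring

theorem v_eq2 (x y t : ℝ) : val eq2 x y t = 9216000000000000000000 * (qf2 x y) := by
  simp only [nd0, nd1, nd5, nd6, nd49, nd52, nd68, nd77, nd114, nd115, nd116, nd117, nd118, nd119, nd120, nd121, nd122, nd123, nd124, nd125, nd126, nd127, nd128, nd129, nd130, nd131, nd132, nd133, nd134, nd135, nd136, nd137, nd138, nd139, nd140, nd141, eq2, val_f, val_h, val_m, val_vx, val_vy]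
  unfold qf2
  push_cast
  ring

/-- real function of eS2 -/
noncomputable def f_eS2 (x y t : ℝ) : ℝ := f_eS1 x y t + qf2 x y * Zg 8 2 (f_eP x y t) (f_eM x y t)

theorem v_eS2 (x y t : ℝ) : val eS2 x y t = 40320000000000000000000000 * (f_eS2 x y t) := by
  simp only [nd5, nd6, nd9, nd15, nd16, nd113, nd143, eS2, v_eW2, v_eS1, v_eq2, val_f, val_h, val_m]
  unfold f_eS2
  push_cast
  ring

theorem v_eq3 (x y t : ℝ) : val eq3 x y t = 9216000000000000000000 * (qf3 x y) := by
  simp only [nd0, nd1, nd5, nd6, nd49, nd52, nd68, nd77, nd146, nd147, nd148, nd149, nd150, nd151, nd152, nd153, nd154, nd155, nd156, nd157, nd158, nd159, nd160, nd161, nd162, nd163, nd164, nd165, nd166, nd167, nd168, nd169, nd170, nd171, nd172, nd173, eq3, val_f, val_h, val_m, val_vx, val_vy]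
  unfold qf3
  push_cast
  ring

/-- real function of eS3 -/
noncomputable def f_eS3 (x y t : ℝ) : ℝ := f_eS2 x y t + qf3 x y * Zg 8 3 (f_eP x y t) (f_eM x y t)

theorem v_eS3 (x y t : ℝ) : val eS3 x y t = 806400000000000000000000000 * (f_eS3 x y t) := by
  simp only [nd5, nd6, nd9, nd15, nd16, nd145, nd175, eS3, v_eW3, v_eS2, v_eq3, val_f, val_h, val_m]
  unfold f_eS3
  push_cast
  ring

theorem v_eq4 (x y t : ℝ) : val eq4 x y t = 9216000000000000000000 * (qf4 x y) := by
  simp only [nd0, nd1, nd5, nd6, nd49, nd52, nd68, nd77, nd178, nd179, nd180, nd181, nd182, nd183, nd184, nd185, nd186, nd187, nd188, nd189, nd190, nd191, nd192, nd193, nd194, nd195, nd196, nd197, nd198, nd199, nd200, nd201, nd202, nd203, nd204, nd205, eq4, val_f, val_h, val_m, val_vx, val_vy]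
  unfold qf4
  push_cast
  ring

/-- real function of eS4 -/
noncomputable def f_eS4 (x y t : ℝ) : ℝ := f_eS3 x y t + qf4 x y * Zg 8 4 (f_eP x y t) (f_eM x y t)

theorem v_eS4 (x y t : ℝ) : val eS4 x y t = 60480000000000000000000000000 * (f_eS4 x y t) := by
  simp only [nd5, nd6, nd9, nd15, nd16, nd177, nd207, eS4, v_eW4, v_eS3, v_eq4, val_f, val_h, val_m]
  unfold f_eS4
  push_cast
  ring

theorem v_eq5 (x y t : ℝ) : val eq5 x y t = 2764800000000000000000 * (qf5 x y) := by
  simp only [nd0, nd1, nd5, nd6, nd49, nd52, nd68, nd77, nd210, nd211, nd212, nd213, nd214, nd215, nd216, nd217, nd218, nd219, nd220, nd221, nd222, nd223, nd224, nd225, nd226, nd227, nd228, nd229, nd230, nd231, nd232, nd233, nd234, nd235, nd236, nd237, eq5, val_f, val_h, val_m, val_vx, val_vy]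
  unfold qf5
  push_cast
  ring

/-- real function of eS5 -/
noncomputable def f_eS5 (x y t : ℝ) : ℝ := f_eS4 x y t + qf5 x y * Zg 8 5 (f_eP x y t) (f_eM x y t)

theorem v_eS5 (x y t : ℝ) : val eS5 x y t = 4536000000000000000000000000000 * (f_eS5 x y t) := by
  simp only [nd5, nd6, nd9, nd15, nd16, nd209, nd239, eS5, v_eW5, v_eS4, v_eq5, val_f, val_h, val_m]
  unfold f_eS5
  push_cast
  ring

theorem v_eq6 (x y t : ℝ) : val eq6 x y t = 1843200000000000000000 * (qf6 x y) := by
  simp only [nd0, nd1, nd5, nd6, nd49, nd52, nd68, nd77, nd242, nd243, nd244, nd245, nd246, nd247, nd248, nd249, nd250, nd251, nd252, nd253, nd254, nd255, nd256, nd257, nd258, nd259, nd260, nd261, nd262, nd263, nd264, nd265, nd266, nd267, nd268, nd269, eq6, val_f, val_h, val_m, val_vx, val_vy]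
  unfold qf6
  push_cast
  ring

/-- real function of eS6 -/
noncomputable def f_eS6 (x y t : ℝ) : ℝ := f_eS5 x y t + qf6 x y * Zg 8 6 (f_eP x y t) (f_eM x y t)

theorem v_eS6 (x y t : ℝ) : val eS6 x y t = 1247400000000000000000000000000000 * (f_eS6 x y t) := by
  simp only [nd5, nd6, nd9, nd15, nd16, nd241, nd271, eS6, v_eW6, v_eS5, v_eq6, val_f, val_h, val_m]
  unfold f_eS6
  push_cast
  ring

theorem v_eq7 (x y t : ℝ) : val eq7 x y t = 27648000000000000000000 * (qf7 x y) := by
  simp only [nd0, nd1, nd5, nd6, nd49, nd52, nd68, nd77, nd274, nd275, nd276, nd277, nd278, nd279, nd280, nd281, nd282, nd283, nd284, nd285, nd286, nd287, nd288, nd289, nd290, nd291, nd292, nd293, nd294, nd295, nd296, nd297, nd298, nd299, nd300, nd301, eq7, val_f, val_h, val_m, val_vx, val_vy]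
  unfold qf7
  push_cast
  ring

/-- real function of eS7 -/
noncomputable def f_eS7 (x y t : ℝ) : ℝ := f_eS6 x y t + qf7 x y * Zg 8 7 (f_eP x y t) (f_eM x y t)

theorem v_eS7 (x y t : ℝ) : val eS7 x y t = 155925000000000000000000000000000000 * (f_eS7 x y t) := by
  simp only [nd5, nd6, nd9, nd15, nd16, nd273, nd303, eS7, v_eW7, v_eS6, v_eq7, val_f, val_h, val_m]
  unfold f_eS7
  push_cast
  ring

theorem v_eq8 (x y t : ℝ) : val eq8 x y t = 1000000000000000000 * (qf8 x y) := by
  simp only [nd0, nd1, nd5, nd6, nd49, nd52, nd68, nd77, nd306, nd307, nd308, nd309, nd310, nd311, nd312, nd313, nd314, nd315, nd316, nd317, nd318, nd319, nd320, nd321, eq8, val_f, val_h, val_m, val_vx, val_vy]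
  unfold qf8
  push_cast
  ring

/-- real function of eS8 -/
noncomputable def f_eS8 (x y t : ℝ) : ℝ := f_eS7 x y t + qf8 x y * Zg 8 8 (f_eP x y t) (f_eM x y t)

theorem v_eS8 (x y t : ℝ) : val eS8 x y t = 10135125000000000000000000000000000000 * (f_eS8 x y t) := by
  simp only [nd5, nd6, nd9, nd15, nd16, nd305, nd323, eS8, v_eW8, v_eS7, v_eq8, val_f, val_h, val_m]
  unfold f_eS8
  push_cast
  ring

theorem v_eq9 (x y t : ℝ) : val eq9 x y t = 1024000000000000000000 * (qf9 x y) := by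
  simp only [nd0, nd1, nd5, nd6, nd49, nd52, nd68, nd77, nd326, nd327, nd328, nd329, nd330, nd331, nd332, nd333, nd334, nd335, nd336, nd337, nd338, nd339, nd340, nd341, nd342, nd343, nd344, nd345, nd346, nd347, nd348, nd349, nd350, nd351, nd352, nd353, eq9, val_f, val_h, val_m, val_vx, val_vy]
  unfold qf9
  push_cast
  ring

/-- real function of eS9 -/
noncomputable def f_eS9 (x y t : ℝ) : ℝ := f_eS8 x y t + qf9 x y * Zg 8 9 (f_eP x y t) (f_eM x y t)

theorem v_eS9 (x y t : ℝ) : val eS9 x y t = 1773646875000000000000000000000000000000 * (f_eS9 x y t) := by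
  simp only [nd5, nd6, nd9, nd15, nd16, nd325, nd355, eS9, v_eW9, v_eS8, v_eq9, val_f, val_h, val_m]
  unfold f_eS9
  push_cast
  ring

theorem v_eq10 (x y t : ℝ) : val eq10 x y t = 1024000000000000000000 * (qf10 x y) := by
  simp only [nd0, nd1, nd5, nd6, nd49, nd52, nd68, nd77, nd358, nd359, nd360, nd361, nd362, nd363, nd364, nd365, nd366, nd367, nd368, nd369, nd370, nd371, nd372, nd373, nd374, nd375, nd376, nd377, nd378, nd379, nd380, nd381, nd382, nd383, nd384, nd385, eq10, val_f, val_h, val_m, val_vx, val_vy]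
  unfold qf10
  push_cast
  ring

/-- real function of eS10 -/
noncomputable def f_eS10 (x y t : ℝ) : ℝ := f_eS9 x y t + qf10 x y * Zg 8 10 (f_eP x y t) (f_eM x y t)

theorem v_eS10 (x y t : ℝ) : val eS10 x y t = 221705859375000000000000000000000000000000 * (f_eS10 x y t) := by
  simp only [nd5, nd6, nd9, nd15, nd16, nd357, nd387, eS10, v_eW10, v_eS9, v_eq10, val_f, val_h, val_m]
  unfold f_eS10
  push_cast
  ring

theorem v_eq11 (x y t : ℝ) : val eq11 x y t = 256000000000000000000 * (qf11 x y) := by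
  simp only [nd0, nd1, nd5, nd6, nd49, nd52, nd68, nd77, nd390, nd391, nd392, nd393, nd394, nd395, nd396, nd397, nd398, nd399, nd400, nd401, nd402, nd403, nd404, nd405, nd406, nd407, nd408, nd409, nd410, nd411, nd412, nd413, nd414, nd415, nd416, nd417, eq11, val_f, val_h, val_m, val_vx, val_vy]
  unfold qf11
  push_cast
  ring

/-- real function of eS11 -/
noncomputable def f_eS11 (x y t : ℝ) : ℝ := f_eS10 x y t + qf11 x y * Zg 8 11 (f_eP x y t) (f_eM x y t)

theorem v_eS11 (x y t : ℝ) : val eS11 x y t = 5542646484375000000000000000000000000000000 * (f_eS11 x y t) := by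
  simp only [nd5, nd6, nd9, nd15, nd16, nd389, nd419, eS11, v_eW11, v_eS10, v_eq11, val_f, val_h, val_m]
  unfold f_eS11
  push_cast
  ring

theorem v_eB (x y t : ℝ) : val eB x y t = 4 * (base (t)) := by
  simp only [nd2, nd9, nd421, nd422, nd423, nd424, nd425, eB, val_f, val_h, val_m, val_vt]
  unfold base
  push_cast
  ring

/-- real function of eD2 -/
noncomputable def f_eD2 (x y t : ℝ) : ℝ := ((1 - ((2 / 5) * x)) + (1 - ((2 / 5) * y))) - (2 * f_eP x y t)

theorem v_eD2 (x y t : ℝ) : val eD2 x y t = 25 * (f_eD2 x y t) := by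
  simp only [nd0, nd1, nd5, nd6, nd9, nd12, nd13, nd427, nd428, nd429, nd430, eD2, v_eP, val_f, val_h, val_m, val_vx, val_vy]
  unfold f_eD2
  push_cast
  ring

/-- real function of eDd -/
noncomputable def f_eDd (x y t : ℝ) : ℝ := ((1 - ((2 / 5) * x)) * (1 - ((2 / 5) * y))) - (f_eP x y t * f_eP x y t)

theorem v_eDd (x y t : ℝ) : val eDd x y t = 625 * (f_eDd x y t) := by
  simp only [nd19, eDd, v_eP, v_eM, val_f, val_m]
  unfold f_eDd f_eM f_eP
  push_cast
  ring

/-- real function of eR1 -/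
noncomputable def f_eR1 (x y t : ℝ) : ℝ := (1 - x) * (1 - y)

theorem v_eR1 (x y t : ℝ) : val eR1 x y t = 1 * (f_eR1 x y t) := by
  simp only [nd0, nd1, nd5, nd6, nd433, nd434, eR1, val_f, val_h, val_m, val_vx, val_vy]
  unfold f_eR1
  push_cast
  ring

/-- real function of eR3 -/
noncomputable def f_eR3 (x y t : ℝ) : ℝ := f_eR1 x y t ^ 3

theorem v_eR3 (x y t : ℝ) : val eR3 x y t = 1 * (f_eR3 x y t) := by
  simp only [nd436, eR3, v_eR1, val_m]
  unfold f_eR3
  push_cast
  ring

/-- real function of eK3 -/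
noncomputable def f_eK3 (x y t : ℝ) : ℝ := f_eR3 x y t * f_eS11 x y t

theorem v_eK3 (x y t : ℝ) : val eK3 x y t = 5542646484375000000000000000000000000000000 * (f_eK3 x y t) := by
  simp only [eK3, v_eS11, v_eR3, val_m]
  unfold f_eK3
  push_cast
  ring


theorem KT_eq (x y t : ℝ) : f_eS11 x y t = Kt 11 4 cA x y (f_eP x y t) (f_eM x y t) := by
  rw [Kt_eq]
  simp only [f_eS11, f_eS10, f_eS9, f_eS8, f_eS7, f_eS6, f_eS5, f_eS4, f_eS3, f_eS2, f_eS1]

theorem KTx (x y t : ℝ) : f_eS11 x y t = Ktx x y t := by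
  rw [KT_eq]
  unfold Ktx f_eP f_eM
  rfl

theorem K3x (x y t : ℝ) : f_eK3 x y t = K3 x y t := by
  unfold f_eK3 K3 f_eR3 f_eR1
  rw [KTx]
  ring

theorem D2x (x y t : ℝ) : f_eD2 x y t = PG.dd x y t := by
  unfold f_eD2 PG.dd f_eP
  ring

theorem DDx (x y t : ℝ) : f_eDd x y t = PG.DD x y t := by
  unfold f_eDd PG.DD f_eP
  ring

end Pool.Agent.Lib.MP_f1379f_gt.FV.CP.U
end

section
/-!
# programs, chart L
-/
set_option autoImplicit false
set_option linter.unusedVariables false
set_option linter.unusedSimpArgs false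
set_option linter.unusedTactic false
set_option linter.style.longLine false
set_option maxRecDepth 100000

namespace Pool.Agent.Lib.MP_f1379f_gt.FV.CP.L

open Finset Pool.Agent.Lib.MP_f1379f_gt.FV Pool.Agent.Lib.MP_f1379f_gt.FV.BCH Pool.Agent.Lib.MP_f1379f_gt.FV.CP

/-- node -/
def nd0 : Ex := .v .x
/-- node -/
def nd1 : Ex := .v .y
/-- node -/
def nd2 : Ex := .v .t
/-- node -/
def nd3 : Ex := .h .y
/-- node -/
def nd4 : Ex := .m nd0 nd3
/-- node -/
def nd5 : Ex := .h .x
/-- node -/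
def nd6 : Ex := .m nd1 nd5
/-- node -/
def nd7 : Ex := .f 1 nd4 1 nd6
/-- node -/
def nd9 : Ex := .m nd5 nd3
/-- node -/
def nd10 : Ex := .f 5 nd9 (-2) nd7
/-- node -/
def nd11 : Ex := .m nd0 nd1
/-- node -/
def nd12 : Ex := .f 5 nd10 (-4) nd11
/-- node -/
def nd13 : Ex := .m nd2 nd12
/-- node -/
def nd14 : Ex := .h .t
/-- node -/
def nd15 : Ex := .m nd3 nd14
/-- node -/
def nd16 : Ex := .m nd5 nd15
/-- node -/
def eT : Ex := .f (-25) nd16 (-1) nd13
/-- node -/
def nd18 : Ex := .m nd11 nd14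
/-- node -/
def eP : Ex := .f 1 eT (-4) nd18
/-- node -/
def nd20 : Ex := .f 5 nd5 (-2) nd0
/-- node -/
def nd21 : Ex := .f 5 nd3 (-2) nd1
/-- node -/
def nd22 : Ex := .m nd20 nd21
/-- node -/
def nd23 : Ex := .m nd14 nd16
/-- node -/
def eM : Ex := .m nd22 nd23
/-- node -/
def nd25 : Ex := .m eP eP
/-- node -/
def eW2 : Ex := .f 2 nd25 (-25) eM
/-- node -/
def nd27 : Ex := .m eP eW2
/-- node -/
def nd28 : Ex := .m eM eP
/-- node -/
def eW3 : Ex := .f 1 nd27 (-35) nd28
/-- node -/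
def nd30 : Ex := .m eP eW3
/-- node -/
def nd31 : Ex := .m eM eW2
/-- node -/
def eW4 : Ex := .f 1 nd30 (-20) nd31
/-- node -/
def nd33 : Ex := .m eP eW4
/-- node -/
def nd34 : Ex := .m eM eW3
/-- node -/
def eW5 : Ex := .f 7 nd33 (-150) nd34
/-- node -/
def nd36 : Ex := .m eP eW5
/-- node -/
def nd37 : Ex := .m eM eW4
/-- node -/
def eW6 : Ex := .f 4 nd36 (-625) nd37
/-- node -/
def nd39 : Ex := .m eP eW6
/-- node -/
def nd40 : Ex := .m eM eW5
/-- node -/
def eW7 : Ex := .f 3 nd39 (-275) nd40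
/-- node -/
def nd42 : Ex := .m eP eW7
/-- node -/
def nd43 : Ex := .m eM eW6
/-- node -/
def eW8 : Ex := .f 1 nd42 (-70) nd43
/-- node -/
def nd45 : Ex := .m eP eW8
/-- node -/
def nd46 : Ex := .m eM eW7
/-- node -/
def eW9 : Ex := .f 11 nd45 (-260) nd46
/-- node -/
def nd48 : Ex := .m eP eW9
/-- node -/
def nd49 : Ex := .m eM eW8
/-- node -/
def eW10 : Ex := .f 2 nd48 (-525) nd49
/-- node -/
def nd51 : Ex := .m eP eW10
/-- node -/
def nd52 : Ex := .m eM eW9
/-- node -/
def eW11 : Ex := .f 13 nd51 (-625) nd52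
/-- node -/
def nd54 : Ex := .f 5000 nd3 4401 nd1
/-- node -/
def nd55 : Ex := .m nd1 nd1
/-- node -/
def nd56 : Ex := .m nd54 nd3
/-- node -/
def nd57 : Ex := .f 1 nd56 10698 nd55
/-- node -/
def nd58 : Ex := .m nd55 nd1
/-- node -/
def nd59 : Ex := .m nd57 nd3
/-- node -/
def nd60 : Ex := .f 1 nd59 (-20089) nd58
/-- node -/
def nd61 : Ex := .f 1164159855000 nd3 1058938904371 nd1
/-- node -/
def nd62 : Ex := .m nd61 nd3
/-- node -/
def nd63 : Ex := .f 1 nd62 2189815935218 nd55
/-- node -/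
def nd64 : Ex := .m nd63 nd3
/-- node -/
def nd65 : Ex := .f 1 nd64 (-4383686613179) nd58
/-- node -/
def nd66 : Ex := .m nd0 nd65
/-- node -/
def nd67 : Ex := .m nd60 nd5
/-- node -/
def nd68 : Ex := .f 793565000 nd67 3 nd66
/-- node -/
def nd69 : Ex := .f 1414926395000 nd3 1094907967609 nd1
/-- node -/
def nd70 : Ex := .m nd69 nd3
/-- node -/
def nd71 : Ex := .f 1000 nd70 4504934821689827 nd55
/-- node -/
def nd72 : Ex := .m nd71 nd3
/-- node -/
def nd73 : Ex := .f 1 nd72 (-7149299434328412) nd58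
/-- node -/
def nd74 : Ex := .m nd0 nd0
/-- node -/
def nd75 : Ex := .m nd74 nd73
/-- node -/
def nd76 : Ex := .m nd68 nd5
/-- node -/
def nd77 : Ex := .f 500 nd76 3 nd75
/-- node -/
def nd78 : Ex := .f (-15941927285000) nd3 (-13151059839537) nd1
/-- node -/
def nd79 : Ex := .m nd78 nd3
/-- node -/
def nd80 : Ex := .f 125 nd79 (-5361974575746309) nd55
/-- node -/
def nd81 : Ex := .m nd80 nd3
/-- node -/
def nd82 : Ex := .f 1 nd81 9139039707259235 nd58
/-- node -/
def nd83 : Ex := .m nd74 nd0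
/-- node -/
def nd84 : Ex := .m nd83 nd82
/-- node -/
def nd85 : Ex := .m nd77 nd5
/-- node -/
def eq0 : Ex := .f 1 nd85 4 nd84
/-- node -/
def nd87 : Ex := .m eq0 nd16
/-- node -/
def nd88 : Ex := .f 10000 nd3 15559 nd1
/-- node -/
def nd89 : Ex := .m nd88 nd3
/-- node -/
def nd90 : Ex := .f 1 nd89 28901 nd55
/-- node -/
def nd91 : Ex := .m nd90 nd3
/-- node -/
def nd92 : Ex := .f 1 nd91 (-32630) nd58
/-- node -/
def nd93 : Ex := .f 526355421816190000 nd3 1379834972323810021 nd1
/-- node -/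
def nd94 : Ex := .m nd93 nd3
/-- node -/
def nd95 : Ex := .f 1 nd94 (-3421466519071877281) nd55
/-- node -/
def nd96 : Ex := .m nd95 nd3
/-- node -/
def nd97 : Ex := .f 1 nd96 2180720506392076030 nd58
/-- node -/
def nd98 : Ex := .m nd0 nd97
/-- node -/
def nd99 : Ex := .m nd92 nd5
/-- node -/
def nd100 : Ex := .f 33829643410000 nd99 1 nd98
/-- node -/
def nd101 : Ex := .f 977710524192410000 nd3 (-3421466519071877281) nd1
/-- node -/
def nd102 : Ex := .m nd101 nd3
/-- node -/
def nd103 : Ex := .f 5 nd102 234159892611842829281 nd55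
/-- node -/
def nd104 : Ex := .m nd103 nd3
/-- node -/
def nd105 : Ex := .f 1 nd104 (-178381932482431158398) nd58
/-- node -/
def nd106 : Ex := .m nd74 nd105
/-- node -/
def nd107 : Ex := .m nd100 nd5
/-- node -/
def nd108 : Ex := .f 5 nd107 1 nd106
/-- node -/
def nd109 : Ex := .f (-110386126446830000) nd3 218072050639207603 nd1
/-- node -/
def nd110 : Ex := .m nd109 nd3
/-- node -/
def nd111 : Ex := .f 25 nd110 (-89190966241215579199) nd55
/-- node -/
def nd112 : Ex := .m nd111 nd3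
/-- node -/
def nd113 : Ex := .f 25 nd112 2695734744539706991474 nd58
/-- node -/
def nd114 : Ex := .m nd83 nd113
/-- node -/
def nd115 : Ex := .m nd108 nd5
/-- node -/
def eq1 : Ex := .f 25 nd115 2 nd114
/-- node -/
def nd117 : Ex := .m eq1 eP
/-- node -/
def eS1 : Ex := .f 153600 nd87 1 nd117
/-- node -/
def nd119 : Ex := .m eS1 nd16
/-- node -/
def nd120 : Ex := .f 1000 nd3 2083 nd1
/-- node -/
def nd121 : Ex := .m nd120 nd3
/-- node -/
def nd122 : Ex := .f 10 nd121 37841 nd55
/-- node -/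
def nd123 : Ex := .m nd122 nd3
/-- node -/
def nd124 : Ex := .f 1 nd123 (-27745) nd58
/-- node -/
def nd125 : Ex := .f 380886500491000 nd3 926577406916353 nd1
/-- node -/
def nd126 : Ex := .m nd125 nd3
/-- node -/
def nd127 : Ex := .f 50 nd126 41997135312912487 nd55
/-- node -/
def nd128 : Ex := .m nd127 nd3
/-- node -/
def nd129 : Ex := .f 1 nd128 (-17221254940569431) nd58
/-- node -/
def nd130 : Ex := .m nd0 nd129
/-- node -/
def nd131 : Ex := .m nd124 nd5
/-- node -/
def nd132 : Ex := .f 914273885000 nd131 1 nd130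
/-- node -/
def nd133 : Ex := .f 34597038082285000 nd3 41997135312912487 nd1
/-- node -/
def nd134 : Ex := .m nd133 nd3
/-- node -/
def nd135 : Ex := .f 1250 nd134 410052524089169350921 nd55
/-- node -/
def nd136 : Ex := .m nd135 nd3
/-- node -/
def nd137 : Ex := .f 1 nd136 (-260565328494450266393) nd58
/-- node -/
def nd138 : Ex := .m nd74 nd137
/-- node -/
def nd139 : Ex := .m nd132 nd5
/-- node -/
def nd140 : Ex := .f 1250 nd139 1 nd138
/-- node -/
def nd141 : Ex := .f (-25366528939325000) nd3 (-17221254940569431) nd1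
/-- node -/
def nd142 : Ex := .m nd141 nd3
/-- node -/
def nd143 : Ex := .f 1250 nd142 (-260565328494450266393) nd55
/-- node -/
def nd144 : Ex := .m nd143 nd3
/-- node -/
def nd145 : Ex := .f 11 nd144 7773478524113834373059 nd58
/-- node -/
def nd146 : Ex := .m nd83 nd145
/-- node -/
def nd147 : Ex := .m nd140 nd5
/-- node -/
def eq2 : Ex := .f 11 nd147 1 nd146
/-- node -/
def nd149 : Ex := .m eq2 eW2
/-- node -/
def eS2 : Ex := .f 175 nd119 2 nd149
/-- node -/
def nd151 : Ex := .m eS2 nd16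
/-- node -/
def nd152 : Ex := .f 2000 nd3 5067 nd1
/-- node -/
def nd153 : Ex := .m nd152 nd3
/-- node -/
def nd154 : Ex := .f 5 nd153 47319 nd55
/-- node -/
def nd155 : Ex := .m nd154 nd3
/-- node -/
def nd156 : Ex := .f 1 nd155 (-2191) nd58
/-- node -/
def nd157 : Ex := .f 22303313822246000 nd3 59412207390868241 nd1
/-- node -/
def nd158 : Ex := .m nd157 nd3
/-- node -/
def nd159 : Ex := .f 5 nd158 423948737466470133 nd55
/-- node -/
def nd160 : Ex := .m nd159 nd3
/-- node -/
def nd161 : Ex := .f 1 nd160 (-202202113053045149) nd58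
/-- node -/
def nd162 : Ex := .m nd0 nd161
/-- node -/
def nd163 : Ex := .m nd156 nd5
/-- node -/
def nd164 : Ex := .f 39615122242000 nd163 9 nd162
/-- node -/
def nd165 : Ex := .f 624849323123066000 nd3 1271846212399410399 nd1
/-- node -/
def nd166 : Ex := .m nd165 nd3
/-- node -/
def nd167 : Ex := .f 625 nd166 3340719209533338192207 nd55
/-- node -/
def nd168 : Ex := .m nd167 nd3
/-- node -/
def nd169 : Ex := .f 1 nd168 1412201819518212610873 nd58
/-- node -/
def nd170 : Ex := .m nd74 nd169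
/-- node -/
def nd171 : Ex := .m nd164 nd5
/-- node -/
def nd172 : Ex := .f 625 nd171 3 nd170
/-- node -/
def nd173 : Ex := .f (-86796732832222000) nd3 (-1819819017477406341) nd1
/-- node -/
def nd174 : Ex := .m nd173 nd3
/-- node -/
def nd175 : Ex := .f 625 nd174 4236605458554637832619 nd55
/-- node -/
def nd176 : Ex := .m nd175 nd3
/-- node -/
def nd177 : Ex := .f 1 nd176 34963198664165304245245 nd58
/-- node -/
def nd178 : Ex := .m nd83 nd177
/-- node -/
def nd179 : Ex := .m nd172 nd5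
/-- node -/
def eq3 : Ex := .f 1 nd179 1 nd178
/-- node -/
def nd181 : Ex := .m eq3 eW3
/-- node -/
def eS3 : Ex := .f 20 nd151 1 nd181
/-- node -/
def nd183 : Ex := .m eS3 nd16
/-- node -/
def nd184 : Ex := .f 1250 nd3 3727 nd1
/-- node -/
def nd185 : Ex := .m nd184 nd3
/-- node -/
def nd186 : Ex := .f 8 nd185 59399 nd55
/-- node -/
def nd187 : Ex := .m nd186 nd3
/-- node -/
def nd188 : Ex := .f 1 nd187 43379 nd58
/-- node -/
def nd189 : Ex := .f 115725550425458750 nd3 366322298217347809 nd1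
/-- node -/
def nd190 : Ex := .m nd189 nd3
/-- node -/
def nd191 : Ex := .f 8 nd190 3864482881001487593 nd55
/-- node -/
def nd192 : Ex := .m nd191 nd3
/-- node -/
def nd193 : Ex := .f 1 nd192 5529856572957002813 nd58
/-- node -/
def nd194 : Ex := .m nd0 nd193
/-- node -/
def nd195 : Ex := .m nd188 nd5
/-- node -/
def nd196 : Ex := .f 31050590401250 nd195 1 nd194
/-- node -/
def nd197 : Ex := .f 1844374019243848750 nd3 3864482881001487593 nd1
/-- node -/
def nd198 : Ex := .m nd197 nd3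
/-- node -/
def nd199 : Ex := .f 1000 nd198 27965844887452636324589 nd55
/-- node -/
def nd200 : Ex := .m nd199 nd3
/-- node -/
def nd201 : Ex := .f 1 nd200 (-17690049374271385883887) nd58
/-- node -/
def nd202 : Ex := .m nd74 nd201
/-- node -/
def nd203 : Ex := .m nd196 nd5
/-- node -/
def nd204 : Ex := .f 1000 nd203 1 nd202
/-- node -/
def nd205 : Ex := .f 1346943561015823750 nd3 5529856572957002813 nd1
/-- node -/
def nd206 : Ex := .m nd205 nd3
/-- node -/
def nd207 : Ex := .f 1000 nd206 (-17690049374271385883887) nd55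
/-- node -/
def nd208 : Ex := .m nd207 nd3
/-- node -/
def nd209 : Ex := .f 1 nd208 114839018480350250467973 nd58
/-- node -/
def nd210 : Ex := .m nd83 nd209
/-- node -/
def nd211 : Ex := .m nd204 nd5
/-- node -/
def eq4 : Ex := .f 1 nd211 1 nd210
/-- node -/
def nd213 : Ex := .m eq4 eW4
/-- node -/
def eS4 : Ex := .f 75 nd183 2 nd213
/-- node -/
def nd215 : Ex := .m eS4 nd16
/-- node -/
def nd216 : Ex := .f 2500 nd3 8537 nd1
/-- node -/
def nd217 : Ex := .m nd216 nd3
/-- node -/
def nd218 : Ex := .f 4 nd217 66707 nd55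
/-- node -/
def nd219 : Ex := .m nd218 nd3
/-- node -/
def nd220 : Ex := .f 1 nd219 152422 nd58
/-- node -/
def nd221 : Ex := .f 3531745166939282500 nd3 12453021669984261881 nd1
/-- node -/
def nd222 : Ex := .m nd221 nd3
/-- node -/
def nd223 : Ex := .f 4 nd222 75877466581244095091 nd55
/-- node -/
def nd224 : Ex := .m nd223 nd3
/-- node -/
def nd225 : Ex := .f 1 nd224 257382803285749038886 nd58
/-- node -/
def nd226 : Ex := .m nd0 nd225
/-- node -/
def nd227 : Ex := .m nd220 nd5
/-- node -/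
def nd228 : Ex := .f 413698625622500 nd227 1 nd226
/-- node -/
def nd229 : Ex := .f 27596594219400107500 nd3 75877466581244095091 nd1
/-- node -/
def nd230 : Ex := .m nd229 nd3
/-- node -/
def nd231 : Ex := .f 20 nd230 9558674049850420691701 nd55
/-- node -/
def nd232 : Ex := .m nd231 nd3
/-- node -/
def nd233 : Ex := .f 1 nd232 (-14978893881279177827926) nd58
/-- node -/
def nd234 : Ex := .m nd74 nd233
/-- node -/
def nd235 : Ex := .m nd228 nd5
/-- node -/
def nd236 : Ex := .f 20 nd235 1 nd234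
/-- node -/
def nd237 : Ex := .f 31528385957316347500 nd3 128691401642874519443 nd1
/-- node -/
def nd238 : Ex := .m nd237 nd3
/-- node -/
def nd239 : Ex := .f 20 nd238 (-7489446940639588913963) nd55
/-- node -/
def nd240 : Ex := .m nd239 nd3
/-- node -/
def nd241 : Ex := .f 1 nd240 78967406552276877783914 nd58
/-- node -/
def nd242 : Ex := .m nd83 nd241
/-- node -/
def nd243 : Ex := .m nd236 nd5
/-- node -/
def eq5 : Ex := .f 1 nd243 2 nd242
/-- node -/
def nd245 : Ex := .m eq5 eW5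
/-- node -/
def eS5 : Ex := .f 75 nd215 2 nd245
/-- node -/
def nd247 : Ex := .m eS5 nd16
/-- node -/
def nd248 : Ex := .f 2500 nd3 10043 nd1
/-- node -/
def nd249 : Ex := .m nd248 nd3
/-- node -/
def nd250 : Ex := .f 4 nd249 46673 nd55
/-- node -/
def nd251 : Ex := .m nd250 nd3
/-- node -/
def nd252 : Ex := .f 1 nd251 493030 nd58
/-- node -/
def nd253 : Ex := .f 53545428551807500 nd3 221054066739921089 nd1
/-- node -/
def nd254 : Ex := .m nd253 nd3
/-- node -/
def nd255 : Ex := .f 4 nd254 640499348407632419 nd55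
/-- node -/
def nd256 : Ex := .m nd255 nd3
/-- node -/
def nd257 : Ex := .f 1 nd256 11894055620117417170 nd58
/-- node -/
def nd258 : Ex := .m nd0 nd257
/-- node -/
def nd259 : Ex := .m nd252 nd5
/-- node -/
def nd260 : Ex := .f 5331616902500 nd259 1 nd258
/-- node -/
def nd261 : Ex := .f 248842555690382500 nd3 640499348407632419 nd1
/-- node -/
def nd262 : Ex := .m nd261 nd3
/-- node -/
def nd263 : Ex := .f 500 nd262 3906223364565158821477 nd55
/-- node -/
def nd264 : Ex := .m nd263 nd3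
/-- node -/
def nd265 : Ex := .f 1 nd264 (-9174112577383286950306) nd58
/-- node -/
def nd266 : Ex := .m nd74 nd265
/-- node -/
def nd267 : Ex := .m nd260 nd5
/-- node -/
def nd268 : Ex := .f 500 nd267 1 nd266
/-- node -/
def nd269 : Ex := .f 262864708143957500 nd3 1189405562011741717 nd1
/-- node -/
def nd270 : Ex := .m nd269 nd3
/-- node -/
def nd271 : Ex := .f 2500 nd270 (-4587056288691643475153) nd55
/-- node -/
def nd272 : Ex := .m nd271 nd3
/-- node -/
def nd273 : Ex := .f 1 nd272 73515111314548202373914 nd58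
/-- node -/
def nd274 : Ex := .m nd83 nd273
/-- node -/
def nd275 : Ex := .m nd268 nd5
/-- node -/
def eq6 : Ex := .f 1 nd275 2 nd274
/-- node -/
def nd277 : Ex := .m eq6 eW6
/-- node -/
def eS6 : Ex := .f 275 nd247 6 nd277
/-- node -/
def nd279 : Ex := .m eS6 nd16
/-- node -/
def nd280 : Ex := .f 5000 nd3 51327 nd1
/-- node -/
def nd281 : Ex := .m nd280 nd3
/-- node -/
def nd282 : Ex := .f 2 nd281 (-328137) nd55
/-- node -/
def nd283 : Ex := .m nd282 nd3
/-- node -/
def nd284 : Ex := .f 1 nd283 4128882 nd58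
/-- node -/
def nd285 : Ex := .f 25929471732985000 nd3 270730991998184219 nd1
/-- node -/
def nd286 : Ex := .m nd285 nd3
/-- node -/
def nd287 : Ex := .f 2 nd286 (-1797599895385627469) nd55
/-- node -/
def nd288 : Ex := .m nd287 nd3
/-- node -/
def nd289 : Ex := .f 1 nd288 21594968492388842234 nd58
/-- node -/
def nd290 : Ex := .m nd0 nd289
/-- node -/
def nd291 : Ex := .m nd284 nd5
/-- node -/
def nd292 : Ex := .f 13639911485000 nd291 27 nd290
/-- node -/
def nd293 : Ex := .f (-1491919878317815000) nd3 (-16178399058470647221) nd1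
/-- node -/
def nd294 : Ex := .m nd293 nd3
/-- node -/
def nd295 : Ex := .f 250 nd294 14620728926242806379863 nd55
/-- node -/
def nd296 : Ex := .m nd295 nd3
/-- node -/
def nd297 : Ex := .f 1 nd296 (-158774499568423472204238) nd58
/-- node -/
def nd298 : Ex := .m nd74 nd297
/-- node -/
def nd299 : Ex := .m nd292 nd5
/-- node -/
def nd300 : Ex := .f 250 nd299 3 nd298
/-- node -/
def nd301 : Ex := .f 9386264168668295000 nd3 97177358215749790053 nd1
/-- node -/
def nd302 : Ex := .m nd301 nd3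
/-- node -/
def nd303 : Ex := .f 250 nd302 (-79387249784211736102119) nd55
/-- node -/
def nd304 : Ex := .m nd303 nd3
/-- node -/
def nd305 : Ex := .f 1 nd304 975560810814103396521198 nd58
/-- node -/
def nd306 : Ex := .m nd83 nd305
/-- node -/
def nd307 : Ex := .m nd300 nd5
/-- node -/
def eq7 : Ex := .f 1 nd307 6 nd306
/-- node -/
def nd309 : Ex := .m eq7 eW7
/-- node -/
def eS7 : Ex := .f 250 nd279 1 nd309
/-- node -/
def nd311 : Ex := .m eS7 nd16
/-- node -/
def nd312 : Ex := .m nd1 nd3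
/-- node -/
def nd313 : Ex := .f 5000 nd312 (-157943) nd55
/-- node -/
def nd314 : Ex := .m nd313 nd3
/-- node -/
def nd315 : Ex := .f 2 nd314 1972899 nd58
/-- node -/
def nd316 : Ex := .m nd0 nd315
/-- node -/
def nd317 : Ex := .f (-13607711047405000) nd312 468098923492057583 nd55
/-- node -/
def nd318 : Ex := .m nd317 nd3
/-- node -/
def nd319 : Ex := .f 2 nd318 (-6025046557235295419) nd58
/-- node -/
def nd320 : Ex := .m nd74 nd319
/-- node -/
def nd321 : Ex := .m nd316 nd5
/-- node -/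
def nd322 : Ex := .f 86155835000 nd321 1 nd320
/-- node -/
def nd323 : Ex := .f 5861267610885000 nd312 (-207760226111561911) nd55
/-- node -/
def nd324 : Ex := .m nd323 nd3
/-- node -/
def nd325 : Ex := .f 174 nd324 234930750006261138997 nd58
/-- node -/
def nd326 : Ex := .m nd83 nd325
/-- node -/
def nd327 : Ex := .m nd322 nd5
/-- node -/
def eq8 : Ex := .f 6 nd327 1 nd326
/-- node -/
def nd329 : Ex := .m eq8 eW8
/-- node -/
def eS8 : Ex := .f 65 nd311 55296 nd329
/-- node -/
def nd331 : Ex := .m eS8 nd16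
/-- node -/
def nd332 : Ex := .f 400 nd3 (-6611) nd1
/-- node -/
def nd333 : Ex := .m nd332 nd3
/-- node -/
def nd334 : Ex := .f 25 nd333 3546852 nd55
/-- node -/
def nd335 : Ex := .m nd334 nd3
/-- node -/
def nd336 : Ex := .f 1 nd335 (-19227978) nd58
/-- node -/
def nd337 : Ex := .f (-110944535332400) nd3 2004193083866241 nd1
/-- node -/
def nd338 : Ex := .m nd337 nd3
/-- node -/
def nd339 : Ex := .f 25 nd338 (-1026657757288556812) nd55
/-- node -/
def nd340 : Ex := .m nd339 nd3
/-- node -/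
def nd341 : Ex := .f 1 nd340 5389736371746237518 nd58
/-- node -/
def nd342 : Ex := .m nd0 nd341
/-- node -/
def nd343 : Ex := .m nd336 nd5
/-- node -/
def nd344 : Ex := .f 16781808400 nd343 1 nd342
/-- node -/
def nd345 : Ex := .f 14880647671789200 nd3 (-256664439322139203) nd1
/-- node -/
def nd346 : Ex := .m nd345 nd3
/-- node -/
def nd347 : Ex := .f 25 nd346 135533868957220150052 nd55
/-- node -/
def nd348 : Ex := .m nd347 nd3
/-- node -/
def nd349 : Ex := .f 1 nd348 (-726628189354650572650) nd58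
/-- node -/
def nd350 : Ex := .m nd74 nd349
/-- node -/
def nd351 : Ex := .m nd344 nd5
/-- node -/
def nd352 : Ex := .f 25 nd351 4 nd350
/-- node -/
def nd353 : Ex := .f (-23048588765386800) nd3 384981169410445537 nd1
/-- node -/
def nd354 : Ex := .m nd353 nd3
/-- node -/
def nd355 : Ex := .f 7 nd354 (-58130255148372045812) nd55
/-- node -/
def nd356 : Ex := .m nd355 nd3
/-- node -/
def nd357 : Ex := .f 625 nd356 197516779111021339792402 nd58
/-- node -/
def nd358 : Ex := .m nd83 nd357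
/-- node -/
def nd359 : Ex := .m nd352 nd5
/-- node -/
def eq9 : Ex := .f 25 nd359 2 nd358
/-- node -/
def nd361 : Ex := .m eq9 eW9
/-- node -/
def eS9 : Ex := .f 175 nd331 27 nd361
/-- node -/
def nd363 : Ex := .m eS9 nd16
/-- node -/
def nd364 : Ex := .f 2500 nd3 (-17519) nd1
/-- node -/
def nd365 : Ex := .m nd364 nd3
/-- node -/
def nd366 : Ex := .f 4 nd365 1801391 nd55
/-- node -/
def nd367 : Ex := .m nd366 nd3
/-- node -/
def nd368 : Ex := .f 1 nd367 (-5788819) nd58
/-- node -/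
def nd369 : Ex := .f (-290678620407500) nd3 2456365836367597 nd1
/-- node -/
def nd370 : Ex := .m nd369 nd3
/-- node -/
def nd371 : Ex := .f 4 nd370 (-226023936576239533) nd55
/-- node -/
def nd372 : Ex := .m nd371 nd3
/-- node -/
def nd373 : Ex := .f 1 nd372 691159505016878297 nd58
/-- node -/
def nd374 : Ex := .m nd0 nd373
/-- node -/
def nd375 : Ex := .m nd368 nd5
/-- node -/
def nd376 : Ex := .f 16592192500 nd375 1 nd374
/-- node -/
def nd377 : Ex := .f 29889026239767500 nd3 (-226023936576239533) nd1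
/-- node -/
def nd378 : Ex := .m nd377 nd3
/-- node -/
def nd379 : Ex := .f 700 nd378 3889621436778428269187 nd55
/-- node -/
def nd380 : Ex := .m nd379 nd3
/-- node -/
def nd381 : Ex := .f 1 nd380 (-12280421741837185629847) nd58
/-- node -/
def nd382 : Ex := .m nd74 nd381
/-- node -/
def nd383 : Ex := .m nd376 nd5
/-- node -/
def nd384 : Ex := .f 700 nd383 1 nd382
/-- node -/
def nd385 : Ex := .f (-1812249041427500) nd3 13040745377676949 nd1
/-- node -/
def nd386 : Ex := .m nd385 nd3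
/-- node -/
def nd387 : Ex := .f 5300 nd386 (-1754345963119597947121) nd55
/-- node -/
def nd388 : Ex := .m nd387 nd3
/-- node -/
def nd389 : Ex := .f 35 nd388 196977159904682863785287 nd58
/-- node -/
def nd390 : Ex := .m nd83 nd389
/-- node -/
def nd391 : Ex := .m nd384 nd5
/-- node -/
def eq10 : Ex := .f 5 nd391 1 nd390
/-- node -/
def nd393 : Ex := .m eq10 eW10
/-- node -/
def eS10 : Ex := .f 125 nd363 54 nd393
/-- node -/
def nd395 : Ex := .m eS10 nd16
/-- node -/
def nd396 : Ex := .f 10000 nd3 (-50921) nd1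
/-- node -/
def nd397 : Ex := .m nd396 nd3
/-- node -/
def nd398 : Ex := .f 1 nd397 1782945 nd55
/-- node -/
def nd399 : Ex := .m nd398 nd3
/-- node -/
def nd400 : Ex := .f 1 nd399 (-2349486) nd58
/-- node -/
def nd401 : Ex := .f (-3212417991510000) nd3 23268612624168071 nd1
/-- node -/
def nd402 : Ex := .m nd401 nd3
/-- node -/
def nd403 : Ex := .f 1 nd402 (-656022989511990095) nd55
/-- node -/
def nd404 : Ex := .m nd403 nd3
/-- node -/
def nd405 : Ex := .f 1 nd404 953169876857550706 nd58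
/-- node -/
def nd406 : Ex := .m nd0 nd405
/-- node -/
def nd407 : Ex := .m nd400 nd5
/-- node -/
def nd408 : Ex := .f 63086310000 nd407 1 nd406
/-- node -/
def nd409 : Ex := .f 22495884196590000 nd3 (-131204597902398019) nd1
/-- node -/
def nd410 : Ex := .m nd409 nd3
/-- node -/
def nd411 : Ex := .f 25 nd410 106103850197601071923 nd55
/-- node -/
def nd412 : Ex := .m nd411 nd3
/-- node -/
def nd413 : Ex := .f 5 nd412 (-750919739900663905042) nd58
/-- node -/
def nd414 : Ex := .m nd74 nd413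
/-- node -/
def nd415 : Ex := .m nd408 nd5
/-- node -/
def nd416 : Ex := .f 25 nd415 1 nd414
/-- node -/
def nd417 : Ex := .f (-74110201068330000) nd3 476584938428775353 nd1
/-- node -/
def nd418 : Ex := .m nd417 nd3
/-- node -/
def nd419 : Ex := .f 25 nd418 (-375459869950331952521) nd55
/-- node -/
def nd420 : Ex := .m nd419 nd3
/-- node -/
def nd421 : Ex := .f 5 nd420 3177093799327776316246 nd58
/-- node -/
def nd422 : Ex := .m nd83 nd421
/-- node -/
def nd423 : Ex := .m nd416 nd5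
/-- node -/
def eq11 : Ex := .f 5 nd423 2 nd422
/-- node -/
def nd425 : Ex := .m eq11 eW11
/-- node -/
def eS11 : Ex := .f 50 nd395 27 nd425
/-- node -/
def nd427 : Ex := .f 1 eT 50 nd16
/-- node -/
def nd428 : Ex := .f 1 eT 25 nd16
/-- node -/
def nd429 : Ex := .m nd428 nd428
/-- node -/
def nd430 : Ex := .m nd427 nd429
/-- node -/
def nd431 : Ex := .m eT eT
/-- node -/
def eB : Ex := .m nd430 nd431
/-- node -/
def nd433 : Ex := .m nd20 nd3
/-- node -/
def nd434 : Ex := .m nd21 nd5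
/-- node -/
def nd435 : Ex := .f 1 nd433 1 nd434
/-- node -/
def nd436 : Ex := .m nd435 nd14
/-- node -/
def eD2 : Ex := .f 5 nd436 (-1) eP
/-- node -/
def eDd : Ex := .f 100 eM (-1) nd25
/-- node -/
def nd439 : Ex := .f 1 nd5 (-1) nd0
/-- node -/
def nd440 : Ex := .f 1 nd3 (-1) nd1
/-- node -/
def eR1 : Ex := .m nd439 nd440
/-- node -/
def nd442 : Ex := .m eR1 eR1
/-- node -/
def eR3 : Ex := .m nd442 eR1
/-- node -/
def eK3 : Ex := .m eR3 eS11

/-- real function of eT -/
noncomputable def f_eT (x y t : ℝ) : ℝ := ((-1) / 2) - (t * (((1 / 2) - ((1 / 5) * (x + y))) - ((2 / 25) * (x * y))))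

theorem v_eT (x y t : ℝ) : val eT x y t = 50 * (f_eT x y t) := by
  simp only [nd0, nd1, nd2, nd3, nd4, nd5, nd6, nd7, nd9, nd10, nd11, nd12, nd13, nd14, nd15, nd16, eT, val_f, val_h, val_m, val_vt, val_vx, val_vy]
  unfold f_eT
  push_cast
  ring

/-- real function of eP -/
noncomputable def f_eP (x y t : ℝ) : ℝ := f_eT x y t - (((2 / 25) * x) * y)

theorem v_eP (x y t : ℝ) : val eP x y t = 50 * (f_eP x y t) := by
  simp only [nd0, nd1, nd11, nd14, nd18, eP, v_eT, val_f, val_h, val_m, val_vx, val_vy]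
  unfold f_eP
  push_cast
  ring

/-- real function of eM -/
noncomputable def f_eM (x y t : ℝ) : ℝ := (1 - ((2 / 5) * x)) * (1 - ((2 / 5) * y))

theorem v_eM (x y t : ℝ) : val eM x y t = 25 * (f_eM x y t) := by
  simp only [nd0, nd1, nd3, nd5, nd14, nd15, nd16, nd20, nd21, nd22, nd23, eM, val_f, val_h, val_m, val_vx, val_vy]
  unfold f_eM
  push_cast
  ring

theorem v_eW2 (x y t : ℝ) : val eW2 x y t = 4375 * (Zg 8 2 (f_eP x y t) (f_eM x y t)) := by
  simp only [nd25, eW2, v_eP, v_eM, val_f, val_m]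
  rw [zg_2]
  rw [zg_0, zg_1]
  push_cast
  ring

theorem v_eW3 (x y t : ℝ) : val eW3 x y t = 175000 * (Zg 8 3 (f_eP x y t) (f_eM x y t)) := by
  simp only [nd27, nd28, eW3, v_eP, v_eM, v_eW2, val_f, val_m]
  rw [zg_3]
  rw [zg_1]
  push_cast
  ring

theorem v_eW4 (x y t : ℝ) : val eW4 x y t = 6562500 * (Zg 8 4 (f_eP x y t) (f_eM x y t)) := by
  simp only [nd30, nd31, eW4, v_eP, v_eM, v_eW2, v_eW3, val_f, val_m]
  rw [zg_4]
  push_cast
  ring

theorem v_eW5 (x y t : ℝ) : val eW5 x y t = 1640625000 * (Zg 8 5 (f_eP x y t) (f_eM x y t)) := by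
  simp only [nd33, nd34, eW5, v_eP, v_eM, v_eW3, v_eW4, val_f, val_m]
  rw [zg_5]
  push_cast
  ring

theorem v_eW6 (x y t : ℝ) : val eW6 x y t = 225585937500 * (Zg 8 6 (f_eP x y t) (f_eM x y t)) := by
  simp only [nd36, nd37, eW6, v_eP, v_eM, v_eW4, v_eW5, val_f, val_m]
  rw [zg_6]
  push_cast
  ring

theorem v_eW7 (x y t : ℝ) : val eW7 x y t = 22558593750000 * (Zg 8 7 (f_eP x y t) (f_eM x y t)) := by
  simp only [nd39, nd40, eW7, v_eP, v_eM, v_eW5, v_eW6, val_f, val_m]
  rw [zg_7]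
  push_cast
  ring

theorem v_eW8 (x y t : ℝ) : val eW8 x y t = 733154296875000 * (Zg 8 8 (f_eP x y t) (f_eM x y t)) := by
  simp only [nd42, nd43, eW8, v_eP, v_eM, v_eW6, v_eW7, val_f, val_m]
  rw [zg_8]
  push_cast
  ring

theorem v_eW9 (x y t : ℝ) : val eW9 x y t = 256604003906250000 * (Zg 8 9 (f_eP x y t) (f_eM x y t)) := by
  simp only [nd45, nd46, eW9, v_eP, v_eM, v_eW7, v_eW8, val_f, val_m]
  rw [zg_9]
  push_cast
  ring

theorem v_eW10 (x y t : ℝ) : val eW10 x y t = 16037750244140625000 * (Zg 8 10 (f_eP x y t) (f_eM x y t)) := by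
  simp only [nd48, nd49, eW10, v_eP, v_eM, v_eW8, v_eW9, val_f, val_m]
  rw [zg_10]
  push_cast
  ring

theorem v_eW11 (x y t : ℝ) : val eW11 x y t = 6415100097656250000000 * (Zg 8 11 (f_eP x y t) (f_eM x y t)) := by
  simp only [nd51, nd52, eW11, v_eP, v_eM, v_eW9, v_eW10, val_f, val_m]
  rw [zg_11]
  push_cast
  ring

theorem v_eq0 (x y t : ℝ) : val eq0 x y t = 3000000000000000000 * (qf0 x y) := by
  simp only [nd0, nd1, nd3, nd5, nd54, nd55, nd56, nd57, nd58, nd59, nd60, nd61, nd62, nd63, nd64, nd65, nd66, nd67, nd68, nd69, nd70, nd71, nd72, nd73, nd74, nd75, nd76, nd77, nd78, nd79, nd80, nd81, nd82, nd83, nd84, nd85, eq0, val_f, val_h, val_m, val_vx, val_vy]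
  unfold qf0
  push_cast
  ring

theorem v_eq1 (x y t : ℝ) : val eq1 x y t = 9216000000000000000000 * (qf1 x y) := by
  simp only [nd0, nd1, nd3, nd5, nd55, nd58, nd74, nd83, nd88, nd89, nd90, nd91, nd92, nd93, nd94, nd95, nd96, nd97, nd98, nd99, nd100, nd101, nd102, nd103, nd104, nd105, nd106, nd107, nd108, nd109, nd110, nd111, nd112, nd113, nd114, nd115, eq1, val_f, val_h, val_m, val_vx, val_vy]
  unfold qf1
  push_cast
  ring

/-- real function of eS1 -/
noncomputable def f_eS1 (x y t : ℝ) : ℝ := qf0 x y * Zg 8 0 (f_eP x y t) (f_eM x y t) + qf1 x y * Zg 8 1 (f_eP x y t) (f_eM x y t)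

theorem v_eS1 (x y t : ℝ) : val eS1 x y t = 460800000000000000000000 * (f_eS1 x y t) := by
  simp only [nd3, nd5, nd14, nd15, nd16, nd87, nd117, eS1, v_eP, v_eq0, v_eq1, val_f, val_h, val_m]
  unfold f_eS1
  rw [zg_0, zg_1]
  push_cast
  ring

theorem v_eq2 (x y t : ℝ) : val eq2 x y t = 9216000000000000000000 * (qf2 x y) := by
  simp only [nd0, nd1, nd3, nd5, nd55, nd58, nd74, nd83, nd120, nd121, nd122, nd123, nd124, nd125, nd126, nd127, nd128, nd129, nd130, nd131, nd132, nd133, nd134, nd135, nd136, nd137, nd138, nd139, nd140, nd141, nd142, nd143, nd144, nd145, nd146, nd147, eq2, val_f, val_h, val_m, val_vx, val_vy]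
  unfold qf2
  push_cast
  ring

/-- real function of eS2 -/
noncomputable def f_eS2 (x y t : ℝ) : ℝ := f_eS1 x y t + qf2 x y * Zg 8 2 (f_eP x y t) (f_eM x y t)

theorem v_eS2 (x y t : ℝ) : val eS2 x y t = 80640000000000000000000000 * (f_eS2 x y t) := by
  simp only [nd3, nd5, nd14, nd15, nd16, nd119, nd149, eS2, v_eW2, v_eS1, v_eq2, val_f, val_h, val_m]
  unfold f_eS2
  push_cast
  ring

theorem v_eq3 (x y t : ℝ) : val eq3 x y t = 9216000000000000000000 * (qf3 x y) := by
  simp only [nd0, nd1, nd3, nd5, nd55, nd58, nd74, nd83, nd152, nd153, nd154, nd155, nd156, nd157, nd158, nd159, nd160, nd161, nd162, nd163, nd164, nd165, nd166, nd167, nd168, nd169, nd170, nd171, nd172, nd173, nd174, nd175, nd176, nd177, nd178, nd179, eq3, val_f, val_h, val_m, val_vx, val_vy]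
  unfold qf3
  push_cast
  ring

/-- real function of eS3 -/
noncomputable def f_eS3 (x y t : ℝ) : ℝ := f_eS2 x y t + qf3 x y * Zg 8 3 (f_eP x y t) (f_eM x y t)

theorem v_eS3 (x y t : ℝ) : val eS3 x y t = 1612800000000000000000000000 * (f_eS3 x y t) := by
  simp only [nd3, nd5, nd14, nd15, nd16, nd151, nd181, eS3, v_eW3, v_eS2, v_eq3, val_f, val_h, val_m]
  unfold f_eS3
  push_cast
  ring

theorem v_eq4 (x y t : ℝ) : val eq4 x y t = 9216000000000000000000 * (qf4 x y) := by
  simp only [nd0, nd1, nd3, nd5, nd55, nd58, nd74, nd83, nd184, nd185, nd186, nd187, nd188, nd189, nd190, nd191, nd192, nd193, nd194, nd195, nd196, nd197, nd198, nd199, nd200, nd201, nd202, nd203, nd204, nd205, nd206, nd207, nd208, nd209, nd210, nd211, eq4, val_f, val_h, val_m, val_vx, val_vy]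
  unfold qf4
  push_cast
  ring

/-- real function of eS4 -/
noncomputable def f_eS4 (x y t : ℝ) : ℝ := f_eS3 x y t + qf4 x y * Zg 8 4 (f_eP x y t) (f_eM x y t)

theorem v_eS4 (x y t : ℝ) : val eS4 x y t = 120960000000000000000000000000 * (f_eS4 x y t) := by
  simp only [nd3, nd5, nd14, nd15, nd16, nd183, nd213, eS4, v_eW4, v_eS3, v_eq4, val_f, val_h, val_m]
  unfold f_eS4
  push_cast
  ring

theorem v_eq5 (x y t : ℝ) : val eq5 x y t = 2764800000000000000000 * (qf5 x y) := by
  simp only [nd0, nd1, nd3, nd5, nd55, nd58, nd74, nd83, nd216, nd217, nd218, nd219, nd220, nd221, nd222, nd223, nd224, nd225, nd226, nd227, nd228, nd229, nd230, nd231, nd232, nd233, nd234, nd235, nd236, nd237, nd238, nd239, nd240, nd241, nd242, nd243, eq5, val_f, val_h, val_m, val_vx, val_vy]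
  unfold qf5
  push_cast
  ring

/-- real function of eS5 -/
noncomputable def f_eS5 (x y t : ℝ) : ℝ := f_eS4 x y t + qf5 x y * Zg 8 5 (f_eP x y t) (f_eM x y t)

theorem v_eS5 (x y t : ℝ) : val eS5 x y t = 9072000000000000000000000000000 * (f_eS5 x y t) := by
  simp only [nd3, nd5, nd14, nd15, nd16, nd215, nd245, eS5, v_eW5, v_eS4, v_eq5, val_f, val_h, val_m]
  unfold f_eS5
  push_cast
  ring

theorem v_eq6 (x y t : ℝ) : val eq6 x y t = 1843200000000000000000 * (qf6 x y) := by
  simp only [nd0, nd1, nd3, nd5, nd55, nd58, nd74, nd83, nd248, nd249, nd250, nd251, nd252, nd253, nd254, nd255, nd256, nd257, nd258, nd259, nd260, nd261, nd262, nd263, nd264, nd265, nd266, nd267, nd268, nd269, nd270, nd271, nd272, nd273, nd274, nd275, eq6, val_f, val_h, val_m, val_vx, val_vy]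
  unfold qf6
  push_cast
  ring

/-- real function of eS6 -/
noncomputable def f_eS6 (x y t : ℝ) : ℝ := f_eS5 x y t + qf6 x y * Zg 8 6 (f_eP x y t) (f_eM x y t)

theorem v_eS6 (x y t : ℝ) : val eS6 x y t = 2494800000000000000000000000000000 * (f_eS6 x y t) := by
  simp only [nd3, nd5, nd14, nd15, nd16, nd247, nd277, eS6, v_eW6, v_eS5, v_eq6, val_f, val_h, val_m]
  unfold f_eS6
  push_cast
  ring

theorem v_eq7 (x y t : ℝ) : val eq7 x y t = 27648000000000000000000 * (qf7 x y) := by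
  simp only [nd0, nd1, nd3, nd5, nd55, nd58, nd74, nd83, nd280, nd281, nd282, nd283, nd284, nd285, nd286, nd287, nd288, nd289, nd290, nd291, nd292, nd293, nd294, nd295, nd296, nd297, nd298, nd299, nd300, nd301, nd302, nd303, nd304, nd305, nd306, nd307, eq7, val_f, val_h, val_m, val_vx, val_vy]
  unfold qf7
  push_cast
  ring

/-- real function of eS7 -/
noncomputable def f_eS7 (x y t : ℝ) : ℝ := f_eS6 x y t + qf7 x y * Zg 8 7 (f_eP x y t) (f_eM x y t)

theorem v_eS7 (x y t : ℝ) : val eS7 x y t = 623700000000000000000000000000000000 * (f_eS7 x y t) := by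
  simp only [nd3, nd5, nd14, nd15, nd16, nd279, nd309, eS7, v_eW7, v_eS6, v_eq7, val_f, val_h, val_m]
  unfold f_eS7
  push_cast
  ring

theorem v_eq8 (x y t : ℝ) : val eq8 x y t = 1000000000000000000 * (qf8 x y) := by
  simp only [nd0, nd1, nd3, nd5, nd55, nd58, nd74, nd83, nd312, nd313, nd314, nd315, nd316, nd317, nd318, nd319, nd320, nd321, nd322, nd323, nd324, nd325, nd326, nd327, eq8, val_f, val_h, val_m, val_vx, val_vy]
  unfold qf8
  push_cast
  ring

/-- real function of eS8 -/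
noncomputable def f_eS8 (x y t : ℝ) : ℝ := f_eS7 x y t + qf8 x y * Zg 8 8 (f_eP x y t) (f_eM x y t)

theorem v_eS8 (x y t : ℝ) : val eS8 x y t = 40540500000000000000000000000000000000 * (f_eS8 x y t) := by
  simp only [nd3, nd5, nd14, nd15, nd16, nd311, nd329, eS8, v_eW8, v_eS7, v_eq8, val_f, val_h, val_m]
  unfold f_eS8
  push_cast
  ring

theorem v_eq9 (x y t : ℝ) : val eq9 x y t = 1024000000000000000000 * (qf9 x y) := by
  simp only [nd0, nd1, nd3, nd5, nd55, nd58, nd74, nd83, nd332, nd333, nd334, nd335, nd336, nd337, nd338, nd339, nd340, nd341, nd342, nd343, nd344, nd345, nd346, nd347, nd348, nd349, nd350, nd351, nd352, nd353, nd354, nd355, nd356, nd357, nd358, nd359, eq9, val_f, val_h, val_m, val_vx, val_vy]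
  unfold qf9
  push_cast
  ring

/-- real function of eS9 -/
noncomputable def f_eS9 (x y t : ℝ) : ℝ := f_eS8 x y t + qf9 x y * Zg 8 9 (f_eP x y t) (f_eM x y t)

theorem v_eS9 (x y t : ℝ) : val eS9 x y t = 7094587500000000000000000000000000000000 * (f_eS9 x y t) := by
  simp only [nd3, nd5, nd14, nd15, nd16, nd331, nd361, eS9, v_eW9, v_eS8, v_eq9, val_f, val_h, val_m]
  unfold f_eS9
  push_cast
  ring

theorem v_eq10 (x y t : ℝ) : val eq10 x y t = 1024000000000000000000 * (qf10 x y) := by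
  simp only [nd0, nd1, nd3, nd5, nd55, nd58, nd74, nd83, nd364, nd365, nd366, nd367, nd368, nd369, nd370, nd371, nd372, nd373, nd374, nd375, nd376, nd377, nd378, nd379, nd380, nd381, nd382, nd383, nd384, nd385, nd386, nd387, nd388, nd389, nd390, nd391, eq10, val_f, val_h, val_m, val_vx, val_vy]
  unfold qf10
  push_cast
  ring

/-- real function of eS10 -/
noncomputable def f_eS10 (x y t : ℝ) : ℝ := f_eS9 x y t + qf10 x y * Zg 8 10 (f_eP x y t) (f_eM x y t)

theorem v_eS10 (x y t : ℝ) : val eS10 x y t = 886823437500000000000000000000000000000000 * (f_eS10 x y t) := by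
  simp only [nd3, nd5, nd14, nd15, nd16, nd363, nd393, eS10, v_eW10, v_eS9, v_eq10, val_f, val_h, val_m]
  unfold f_eS10
  push_cast
  ring

theorem v_eq11 (x y t : ℝ) : val eq11 x y t = 256000000000000000000 * (qf11 x y) := by
  simp only [nd0, nd1, nd3, nd5, nd55, nd58, nd74, nd83, nd396, nd397, nd398, nd399, nd400, nd401, nd402, nd403, nd404, nd405, nd406, nd407, nd408, nd409, nd410, nd411, nd412, nd413, nd414, nd415, nd416, nd417, nd418, nd419, nd420, nd421, nd422, nd423, eq11, val_f, val_h, val_m, val_vx, val_vy]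
  unfold qf11
  push_cast
  ring

/-- real function of eS11 -/
noncomputable def f_eS11 (x y t : ℝ) : ℝ := f_eS10 x y t + qf11 x y * Zg 8 11 (f_eP x y t) (f_eM x y t)

theorem v_eS11 (x y t : ℝ) : val eS11 x y t = 44341171875000000000000000000000000000000000 * (f_eS11 x y t) := by
  simp only [nd3, nd5, nd14, nd15, nd16, nd395, nd425, eS11, v_eW11, v_eS10, v_eq11, val_f, val_h, val_m]
  unfold f_eS11
  push_cast
  ring

theorem v_eB (x y t : ℝ) : val eB x y t = 312500000 * (base (f_eT x y t)) := by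
  simp only [nd3, nd5, nd14, nd15, nd16, nd427, nd428, nd429, nd430, nd431, eB, v_eT, val_f, val_h, val_m]
  unfold base
  push_cast
  ring

/-- real function of eD2 -/
noncomputable def f_eD2 (x y t : ℝ) : ℝ := ((1 - ((2 / 5) * x)) + (1 - ((2 / 5) * y))) - (2 * f_eP x y t)

theorem v_eD2 (x y t : ℝ) : val eD2 x y t = 25 * (f_eD2 x y t) := by
  simp only [nd0, nd1, nd3, nd5, nd14, nd20, nd21, nd433, nd434, nd435, nd436, eD2, v_eP, val_f, val_h, val_m, val_vx, val_vy]
  unfold f_eD2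
  push_cast
  ring

/-- real function of eDd -/
noncomputable def f_eDd (x y t : ℝ) : ℝ := ((1 - ((2 / 5) * x)) * (1 - ((2 / 5) * y))) - (f_eP x y t * f_eP x y t)

theorem v_eDd (x y t : ℝ) : val eDd x y t = 2500 * (f_eDd x y t) := by
  simp only [nd25, eDd, v_eP, v_eM, val_f, val_m]
  unfold f_eDd f_eM f_eP
  push_cast
  ring

/-- real function of eR1 -/
noncomputable def f_eR1 (x y t : ℝ) : ℝ := (1 - x) * (1 - y)

theorem v_eR1 (x y t : ℝ) : val eR1 x y t = 1 * (f_eR1 x y t) := by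
  simp only [nd0, nd1, nd3, nd5, nd439, nd440, eR1, val_f, val_h, val_m, val_vx, val_vy]
  unfold f_eR1
  push_cast
  ring

/-- real function of eR3 -/
noncomputable def f_eR3 (x y t : ℝ) : ℝ := f_eR1 x y t ^ 3

theorem v_eR3 (x y t : ℝ) : val eR3 x y t = 1 * (f_eR3 x y t) := by
  simp only [nd442, eR3, v_eR1, val_m]
  unfold f_eR3
  push_cast
  ring

/-- real function of eK3 -/
noncomputable def f_eK3 (x y t : ℝ) : ℝ := f_eR3 x y t * f_eS11 x y t

theorem v_eK3 (x y t : ℝ) : val eK3 x y t = 44341171875000000000000000000000000000000000 * (f_eK3 x y t) := by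
  simp only [eK3, v_eS11, v_eR3, val_m]
  unfold f_eK3
  push_cast
  ring


theorem KT_eq (x y t : ℝ) : f_eS11 x y t = Kt 11 4 cA x y (f_eP x y t) (f_eM x y t) := by
  rw [Kt_eq]
  simp only [f_eS11, f_eS10, f_eS9, f_eS8, f_eS7, f_eS6, f_eS5, f_eS4, f_eS3, f_eS2, f_eS1]

/-- `T` in the lower chart. -/
noncomputable def TL (x y v : ℝ) : ℝ := -1 / 2 - v * (1 / 2 - 1 / 5 * (x + y) - 2 / 25 * (x * y))

theorem TLx (x y t : ℝ) : f_eT x y t = TL x y t := by
  unfold f_eT TL
  ring

lemma TL_symm (x y v : ℝ) : TL x y v = TL y x v := by unfold TL; ring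

theorem KTx (x y t : ℝ) : f_eS11 x y t = Ktx x y (TL x y t) := by
  rw [KT_eq]
  unfold Ktx f_eP f_eM
  rw [TLx]

theorem K3x (x y t : ℝ) : f_eK3 x y t = K3 x y (TL x y t) := by
  unfold f_eK3 K3 f_eR3 f_eR1
  rw [KTx]
  ring

theorem D2x (x y t : ℝ) : f_eD2 x y t = PG.dd x y (TL x y t) := by
  unfold f_eD2 PG.dd f_eP
  rw [TLx] <;> ring

theorem DDx (x y t : ℝ) : f_eDd x y t = PG.DD x y (TL x y t) := by
  unfold f_eDd PG.DD f_eP
  rw [TLx] <;> ring

end Pool.Agent.Lib.MP_f1379f_gt.FV.CP.L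
end
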