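import Pool.Agent.Lib.MP_f1379f_gt.FV.CEX

/-!
# Data of the certificate: `A_k = L_k^T D_k L_k`
-/

set_option autoImplicit false
set_option linter.style.longLine false

namespace Pool.Agent.Lib.MP_f1379f_gt.FV.CU

open Finset Pool.Agent.Lib.MP_f1379f_gt.FV

lemma zg_0 (p m : ℝ) : Zg 8 0 p m = 1 := by simp [Zg]
lemma zg_1 (p m : ℝ) : Zg 8 1 p m = p := by simp [Zg]
lemma zg_2 (p m : ℝ) : Zg 8 2 p m = (8 * (p * Zg 8 1 p m) - 1 * (m * Zg 8 0 p m)) / 7 := by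
  rw [show Zg 8 2 p m = ((2 * ((0 : ℕ) : ℝ) + ((8 : ℕ) : ℝ)) * (p * Zg 8 1 p m) - (((0 : ℕ) : ℝ) + 1) * (m * Zg 8 0 p m)) / (((0 : ℕ) : ℝ) + ((8 : ℕ) : ℝ) - 1) from rfl]
  norm_num
lemma zg_3 (p m : ℝ) : Zg 8 3 p m = (10 * (p * Zg 8 2 p m) - 2 * (m * Zg 8 1 p m)) / 8 := by
  rw [show Zg 8 3 p m = ((2 * ((1 : ℕ) : ℝ) + ((8 : ℕ) : ℝ)) * (p * Zg 8 2 p m) - (((1 : ℕ) : ℝ) + 1) * (m * Zg 8 1 p m)) / (((1 : ℕ) : ℝ) + ((8 : ℕ) : ℝ) - 1) from rfl]
  norm_num
lemma zg_4 (p m : ℝ) : Zg 8 4 p m = (12 * (p * Zg 8 3 p m) - 3 * (m * Zg 8 2 p m)) / 9 := by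
  rw [show Zg 8 4 p m = ((2 * ((2 : ℕ) : ℝ) + ((8 : ℕ) : ℝ)) * (p * Zg 8 3 p m) - (((2 : ℕ) : ℝ) + 1) * (m * Zg 8 2 p m)) / (((2 : ℕ) : ℝ) + ((8 : ℕ) : ℝ) - 1) from rfl]
  norm_num
lemma zg_5 (p m : ℝ) : Zg 8 5 p m = (14 * (p * Zg 8 4 p m) - 4 * (m * Zg 8 3 p m)) / 10 := by
  rw [show Zg 8 5 p m = ((2 * ((3 : ℕ) : ℝ) + ((8 : ℕ) : ℝ)) * (p * Zg 8 4 p m) - (((3 : ℕ) : ℝ) + 1) * (m * Zg 8 3 p m)) / (((3 : ℕ) : ℝ) + ((8 : ℕ) : ℝ) - 1) from rfl]
  norm_num
lemma zg_6 (p m : ℝ) : Zg 8 6 p m = (16 * (p * Zg 8 5 p m) - 5 * (m * Zg 8 4 p m)) / 11 := by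
  rw [show Zg 8 6 p m = ((2 * ((4 : ℕ) : ℝ) + ((8 : ℕ) : ℝ)) * (p * Zg 8 5 p m) - (((4 : ℕ) : ℝ) + 1) * (m * Zg 8 4 p m)) / (((4 : ℕ) : ℝ) + ((8 : ℕ) : ℝ) - 1) from rfl]
  norm_num
lemma zg_7 (p m : ℝ) : Zg 8 7 p m = (18 * (p * Zg 8 6 p m) - 6 * (m * Zg 8 5 p m)) / 12 := by
  rw [show Zg 8 7 p m = ((2 * ((5 : ℕ) : ℝ) + ((8 : ℕ) : ℝ)) * (p * Zg 8 6 p m) - (((5 : ℕ) : ℝ) + 1) * (m * Zg 8 5 p m)) / (((5 : ℕ) : ℝ) + ((8 : ℕ) : ℝ) - 1) from rfl]
  norm_num
lemma zg_8 (p m : ℝ) : Zg 8 8 p m = (20 * (p * Zg 8 7 p m) - 7 * (m * Zg 8 6 p m)) / 13 := by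
  rw [show Zg 8 8 p m = ((2 * ((6 : ℕ) : ℝ) + ((8 : ℕ) : ℝ)) * (p * Zg 8 7 p m) - (((6 : ℕ) : ℝ) + 1) * (m * Zg 8 6 p m)) / (((6 : ℕ) : ℝ) + ((8 : ℕ) : ℝ) - 1) from rfl]
  norm_num
lemma zg_9 (p m : ℝ) : Zg 8 9 p m = (22 * (p * Zg 8 8 p m) - 8 * (m * Zg 8 7 p m)) / 14 := by
  rw [show Zg 8 9 p m = ((2 * ((7 : ℕ) : ℝ) + ((8 : ℕ) : ℝ)) * (p * Zg 8 8 p m) - (((7 : ℕ) : ℝ) + 1) * (m * Zg 8 7 p m)) / (((7 : ℕ) : ℝ) + ((8 : ℕ) : ℝ) - 1) from rfl]
  norm_num
lemma zg_10 (p m : ℝ) : Zg 8 10 p m = (24 * (p * Zg 8 9 p m) - 9 * (m * Zg 8 8 p m)) / 15 := by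
  rw [show Zg 8 10 p m = ((2 * ((8 : ℕ) : ℝ) + ((8 : ℕ) : ℝ)) * (p * Zg 8 9 p m) - (((8 : ℕ) : ℝ) + 1) * (m * Zg 8 8 p m)) / (((8 : ℕ) : ℝ) + ((8 : ℕ) : ℝ) - 1) from rfl]
  norm_num
lemma zg_11 (p m : ℝ) : Zg 8 11 p m = (26 * (p * Zg 8 10 p m) - 10 * (m * Zg 8 9 p m)) / 16 := by
  rw [show Zg 8 11 p m = ((2 * ((9 : ℕ) : ℝ) + ((8 : ℕ) : ℝ)) * (p * Zg 8 10 p m) - (((9 : ℕ) : ℝ) + 1) * (m * Zg 8 9 p m)) / (((9 : ℕ) : ℝ) + ((8 : ℕ) : ℝ) - 1) from rfl]
  norm_num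
lemma zg_12 (p m : ℝ) : Zg 8 12 p m = (28 * (p * Zg 8 11 p m) - 11 * (m * Zg 8 10 p m)) / 17 := by
  rw [show Zg 8 12 p m = ((2 * ((10 : ℕ) : ℝ) + ((8 : ℕ) : ℝ)) * (p * Zg 8 11 p m) - (((10 : ℕ) : ℝ) + 1) * (m * Zg 8 10 p m)) / (((10 : ℕ) : ℝ) + ((8 : ℕ) : ℝ) - 1) from rfl]
  norm_num

/-- weights -/
noncomputable def cw : ℕ → ℕ → ℝ
  | 0, 0 => (145313 / 240000000)
  | 0, 1 => (5170387 / 2500000000)
  | 0, 2 => (45221 / 250000000)
  | 0, 3 => (25499 / 10000000000)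
  | 1, 0 => (18430503173 / 4915200000000)
  | 1, 1 => (146403667 / 10000000000)
  | 1, 2 => (2965373199 / 10000000000)
  | 1, 3 => (362633 / 5000000000)
  | 2, 0 => (3653007393 / 327680000000)
  | 2, 1 => (99404859 / 5000000000)
  | 2, 2 => (690750439 / 1250000000)
  | 2, 3 => (1706943 / 10000000000)
  | 3, 0 => (104804388817 / 4915200000000)
  | 3, 1 => (227439121 / 10000000000)
  | 3, 2 => (1901454937 / 2000000000)
  | 3, 3 => (78467 / 1000000000)
  | 4, 0 => (1094644229 / 39321600000)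
  | 4, 1 => (617451 / 500000000)
  | 4, 2 => (3569513 / 5000000000)
  | 4, 3 => (1074683 / 2000000000)
  | 5, 0 => (188533993477 / 7372800000000)
  | 5, 1 => (4699 / 5000000000)
  | 5, 2 => (104481 / 200000000)
  | 5, 3 => (6799 / 5000000000)
  | 6, 0 => (14861490329 / 983040000000)
  | 6, 1 => (211 / 156250000)
  | 6, 2 => (695967 / 2500000000)
  | 6, 3 => (64387 / 10000000000)
  | 7, 0 => (12848916917 / 2949120000000)
  | 7, 1 => (81867 / 10000000000)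
  | 7, 2 => (13493 / 2000000000)
  | 7, 3 => (264011 / 625000000)
  | 8, 1 => (351753501 / 10000000000)
  | 8, 2 => (183 / 5000000000)
  | 8, 3 => (39 / 10000000000)
  | 9, 0 => (558623359 / 1638400000000)
  | 9, 1 => (11153 / 10000000000)
  | 9, 2 => (421726651 / 10000000000)
  | 9, 3 => (87539 / 10000000000)
  | 10, 0 => (529007661 / 327680000000)
  | 10, 1 => (8369 / 10000000000)
  | 10, 2 => (118623157 / 10000000000)
  | 10, 3 => (18941 / 5000000000)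
  | 11, 0 => (80487729 / 81920000000)
  | 11, 1 => (915039 / 10000000000)
  | 11, 2 => (35119 / 10000000000)
  | 11, 3 => (1519471 / 10000000000)
  | _, _ => 0

/-- vectors, degree 0 -/
noncomputable def cL0 : ℕ → ℕ → ℝ
  | 0, 0 => 1
  | 0, 1 => ((-3239) / 2500)
  | 0, 2 => (101761 / 5000)
  | 0, 3 => ((-200551) / 10000)
  | 1, 1 => 1
  | 1, 2 => ((-4747) / 1000)
  | 1, 3 => (19501 / 5000)
  | 2, 2 => 1
  | 2, 3 => ((-5141) / 5000)
  | 3, 3 => 1
  | _, _ => 0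

/-- vectors, degree 1 -/
noncomputable def cL1 : ℕ → ℕ → ℝ
  | 0, 0 => 1
  | 0, 1 => ((-8993) / 10000)
  | 0, 2 => (112819 / 5000)
  | 0, 3 => ((-95597) / 5000)
  | 1, 1 => 1
  | 1, 2 => ((-49337) / 10000)
  | 1, 3 => (42353 / 10000)
  | 2, 2 => 1
  | 2, 3 => ((-857) / 2500)
  | 3, 3 => 1
  | _, _ => 0

/-- vectors, degree 2 -/
noncomputable def cL2 : ℕ → ℕ → ℝ
  | 0, 0 => 1
  | 0, 1 => ((-6311) / 10000)
  | 0, 2 => (62937 / 2500)
  | 0, 3 => ((-33503) / 2000)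
  | 1, 1 => 1
  | 1, 2 => ((-22861) / 5000)
  | 1, 3 => (10061 / 10000)
  | 2, 2 => 1
  | 2, 3 => ((-177) / 2500)
  | 3, 3 => 1
  | _, _ => 0

/-- vectors, degree 3 -/
noncomputable def cL3 : ℕ → ℕ → ℝ
  | 0, 0 => 1
  | 0, 1 => ((-1463) / 5000)
  | 0, 2 => (134903 / 5000)
  | 0, 3 => ((-26389) / 2500)
  | 1, 1 => 1
  | 1, 2 => ((-31329) / 10000)
  | 1, 3 => ((-538) / 125)
  | 2, 2 => 1
  | 2, 3 => ((-303) / 2500)
  | 3, 3 => 1
  | _, _ => 0

/-- vectors, degree 4 -/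
noncomputable def cL4 : ℕ → ℕ → ℝ
  | 0, 0 => 1
  | 0, 1 => ((-22) / 625)
  | 0, 2 => (287957 / 10000)
  | 0, 3 => (223 / 10000)
  | 1, 1 => 1
  | 1, 2 => (68529 / 10000)
  | 1, 3 => ((-267839) / 10000)
  | 2, 2 => 1
  | 2, 3 => ((-591) / 2500)
  | 3, 3 => 1
  | _, _ => 0

/-- vectors, degree 5 -/
noncomputable def cL5 : ℕ → ℕ → ℝ
  | 0, 0 => 1
  | 0, 1 => (259 / 625)
  | 0, 2 => (137979 / 5000)
  | 0, 3 => (28603 / 1250)
  | 1, 1 => 1
  | 1, 2 => (6104 / 625)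
  | 1, 3 => (80987 / 10000)
  | 2, 2 => 1
  | 2, 3 => (8279 / 10000)
  | 3, 3 => 1
  | _, _ => 0

/-- vectors, degree 6 -/
noncomputable def cL6 : ℕ → ℕ → ℝ
  | 0, 0 => 1
  | 0, 1 => (1651 / 2000)
  | 0, 2 => (241 / 10)
  | 0, 3 => (158727 / 2500)
  | 1, 1 => 1
  | 1, 2 => (118551 / 10000)
  | 1, 3 => (156167 / 5000)
  | 2, 2 => 1
  | 2, 3 => (26267 / 10000)
  | 3, 3 => 1
  | _, _ => 0

/-- vectors, degree 7 -/
noncomputable def cL7 : ℕ → ℕ → ℝ
  | 0, 0 => 1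
  | 0, 1 => (30297 / 10000)
  | 0, 2 => ((-21693) / 2500)
  | 0, 3 => (1052499 / 5000)
  | 1, 1 => 1
  | 1, 2 => ((-6459) / 2500)
  | 1, 3 => (313363 / 5000)
  | 2, 2 => 1
  | 2, 3 => ((-213341) / 10000)
  | 3, 3 => 1
  | _, _ => 0

/-- vectors, degree 8 -/
noncomputable def cL8 : ℕ → ℕ → ℝ
  | 1, 1 => 1
  | 1, 2 => ((-73819) / 2500)
  | 1, 3 => (911717 / 10000)
  | 2, 2 => 1
  | 2, 3 => ((-8799) / 2500)
  | 3, 3 => 1
  | _, _ => 0

/-- vectors, degree 9 -/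
noncomputable def cL9 : ℕ → ℕ → ℝ
  | 0, 0 => 1
  | 0, 1 => ((-5) / 8)
  | 0, 2 => (1352043 / 5000)
  | 0, 3 => ((-8501011) / 10000)
  | 1, 1 => 1
  | 1, 2 => ((-303829) / 2500)
  | 1, 3 => (238791 / 625)
  | 2, 2 => 1
  | 2, 3 => ((-31437) / 10000)
  | 3, 3 => 1
  | _, _ => 0

/-- vectors, degree 10 -/
noncomputable def cL10 : ℕ → ℕ → ℝ
  | 0, 0 => 1
  | 0, 1 => (261 / 1250)
  | 0, 2 => (155383 / 1250)
  | 0, 3 => ((-119889) / 500)
  | 1, 1 => 1
  | 1, 2 => (124201 / 5000)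
  | 1, 3 => ((-95831) / 2000)
  | 2, 2 => 1
  | 2, 3 => ((-2411) / 1250)
  | 3, 3 => 1
  | _, _ => 0

/-- vectors, degree 11 -/
noncomputable def cL11 : ℕ → ℕ → ℝ
  | 0, 0 => 1
  | 0, 1 => (106313 / 10000)
  | 0, 2 => ((-195843) / 10000)
  | 0, 3 => (151881 / 500)
  | 1, 1 => 1
  | 1, 2 => ((-913) / 500)
  | 1, 3 => (14161 / 500)
  | 2, 2 => 1
  | 2, 3 => ((-29767) / 2500)
  | 3, 3 => 1
  | _, _ => 0

/-- vectors -/
noncomputable def cL : ℕ → ℕ → ℕ → ℝ
  | 0 => cL0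
  | 1 => cL1
  | 2 => cL2
  | 3 => cL3
  | 4 => cL4
  | 5 => cL5
  | 6 => cL6
  | 7 => cL7
  | 8 => cL8
  | 9 => cL9
  | 10 => cL10
  | 11 => cL11
  | _ => fun _ _ => 0

/-- matrices -/
noncomputable def cA (k i j : ℕ) : ℝ := ∑ c ∈ range 4, cw k c * cL k c i * cL k c j

lemma cA_symm (k i j : ℕ) : cA k i j = cA k j i := by
  unfold cA
  exact sum_congr rfl fun c _ => by ring

lemma cw_nonneg (k c : ℕ) : 0 ≤ cw k c := by
  unfold cw
  split <;> norm_num

/-- quadratic form, degree 0 -/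
noncomputable def qf0 (x y : ℝ) : ℝ := (145313 / 240000000) * x ^ 0 * y ^ 0 + ((-470668807) / 600000000000) * x ^ 0 * y ^ 1 + (14787196193 / 1200000000000) * x ^ 0 * y ^ 2 + ((-29142667463) / 2400000000000) * x ^ 0 * y ^ 3 + ((-470668807) / 600000000000) * x ^ 1 * y ^ 0 + (4626728465873 / 1500000000000000) * x ^ 1 * y ^ 1 + ((-77348320975927) / 3000000000000000) * x ^ 1 * y ^ 2 + (142790404018417 / 6000000000000000) * x ^ 1 * y ^ 3 + (14787196193 / 1200000000000) * x ^ 2 * y ^ 0 + ((-77348320975927) / 3000000000000000) * x ^ 2 * y ^ 1 + (8927340445277161 / 30000000000000000) * x ^ 2 * y ^ 2 + ((-85682570200700711) / 300000000000000000) * x ^ 2 * y ^ 3 + ((-29142667463) / 2400000000000) * x ^ 3 * y ^ 0 + (142790404018417 / 6000000000000000) * x ^ 3 * y ^ 1 + ((-85682570200700711) / 300000000000000000) * x ^ 3 * y ^ 2 + (825534809344533181 / 3000000000000000000) * x ^ 3 * y ^ 3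

lemma qf0_eq (x y : ℝ) : ∑ i ∈ range 4, ∑ j ∈ range 4, cA 0 i j * x ^ i * y ^ j = qf0 x y := by
  unfold cA
  rw [quad_ldl]
  simp only [sum_range_succ, sum_range_zero, cw, cL, cL0]
  unfold qf0
  ring

/-- quadratic form, degree 1 -/
noncomputable def qf1 (x y : ℝ) : ℝ := (18430503173 / 4915200000000) * x ^ 0 * y ^ 0 + ((-165745515034789) / 49152000000000000) * x ^ 0 * y ^ 1 + (2079310937474687 / 24576000000000000) * x ^ 0 * y ^ 2 + ((-1761900811829281) / 24576000000000000) * x ^ 0 * y ^ 3 + ((-165745515034789) / 49152000000000000) * x ^ 1 * y ^ 0 + (8686582457091857477 / 491520000000000000000) * x ^ 1 * y ^ 1 + ((-36450777366381130591) / 245760000000000000000) * x ^ 1 * y ^ 2 + (31083453368749901633 / 245760000000000000000) * x ^ 1 * y ^ 3 + (2079310937474687 / 24576000000000000) * x ^ 2 * y ^ 0 + ((-36450777366381130591) / 245760000000000000000) * x ^ 2 * y ^ 1 + (7870366460821097150981 / 3072000000000000000000)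 * x ^ 2 * y ^ 2 + ((-6221463592516064312539) / 3072000000000000000000) * x ^ 2 * y ^ 3 + ((-1761900811829281) / 24576000000000000) * x ^ 3 * y ^ 0 + (31083453368749901633 / 245760000000000000000) * x ^ 3 * y ^ 1 + ((-6221463592516064312539) / 3072000000000000000000) * x ^ 3 * y ^ 2 + (5124837230304633933893 / 3072000000000000000000) * x ^ 3 * y ^ 3

lemma qf1_eq (x y : ℝ) : ∑ i ∈ range 4, ∑ j ∈ range 4, cA 1 i j * x ^ i * y ^ j = qf1 x y := by
  unfold cA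
  rw [quad_ldl]
  simp only [sum_range_succ, sum_range_zero, cw, cL, cL1]
  unfold qf1
  ring

/-- quadratic form, degree 2 -/
noncomputable def qf2 (x y : ℝ) : ℝ := (3653007393 / 327680000000) * x ^ 0 * y ^ 0 + ((-23054129657223) / 3276800000000000) * x ^ 0 * y ^ 1 + (229909326293241 / 819200000000000) * x ^ 0 * y ^ 2 + ((-122386706687679) / 655360000000000) * x ^ 0 * y ^ 3 + ((-23054129657223) / 3276800000000000) * x ^ 1 * y ^ 0 + (796954296209134353 / 32768000000000000000) * x ^ 1 * y ^ 1 + ((-2195608749967004271) / 8192000000000000000) * x ^ 1 * y ^ 2 + (903469223508831897 / 6553600000000000000) * x ^ 1 * y ^ 3 + (229909326293241 / 819200000000000) * x ^ 2 * y ^ 0 + ((-2195608749967004271) / 8192000000000000000) * x ^ 2 * y ^ 1 + (2056587763034087147597 / 256000000000000000000) * x ^ 2 * y ^ 2 + ((-4947869852980741744119) / 1024000000000000000000) * x ^ 2 * y ^ 3 + ((-122386706687679) / 655360000000000)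 * x ^ 3 * y ^ 0 + (903469223508831897 / 6553600000000000000) * x ^ 3 * y ^ 1 + ((-4947869852980741744119) / 1024000000000000000000) * x ^ 3 * y ^ 2 + (12907979727420762232341 / 4096000000000000000000) * x ^ 3 * y ^ 3

lemma qf2_eq (x y : ℝ) : ∑ i ∈ range 4, ∑ j ∈ range 4, cA 2 i j * x ^ i * y ^ j = qf2 x y := by
  unfold cA
  rw [quad_ldl]
  simp only [sum_range_succ, sum_range_zero, cw, cL, cL2]
  unfold qf2
  ring

/-- quadratic form, degree 3 -/
noncomputable def qf3 (x y : ℝ) : ℝ := (104804388817 / 4915200000000) * x ^ 0 * y ^ 0 + ((-153328820839271) / 24576000000000000) * x ^ 0 * y ^ 1 + (14138426464579751 / 24576000000000000) * x ^ 0 * y ^ 2 + ((-2765683016491813) / 12288000000000000) * x ^ 0 * y ^ 3 + ((-153328820839271) / 24576000000000000) * x ^ 1 * y ^ 0 + (3019091983735853473 / 122880000000000000000) * x ^ 1 * y ^ 1 + ((-29440258862239074913) / 122880000000000000000) * x ^ 1 * y ^ 2 + ((-1968154916233373581)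 / 61440000000000000000) * x ^ 1 * y ^ 3 + (14138426464579751 / 24576000000000000) * x ^ 2 * y ^ 0 + ((-29440258862239074913) / 122880000000000000000) * x ^ 2 * y ^ 1 + (51289309937142268111417 / 3072000000000000000000) * x ^ 2 * y ^ 2 + ((-1806681000878293330303) / 307200000000000000000) * x ^ 2 * y ^ 3 + ((-2765683016491813) / 12288000000000000) * x ^ 3 * y ^ 0 + ((-1968154916233373581) / 61440000000000000000) * x ^ 3 * y ^ 1 + ((-1806681000878293330303) / 307200000000000000000) * x ^ 3 * y ^ 2 + (431789619675045480749 / 153600000000000000000) * x ^ 3 * y ^ 3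

lemma qf3_eq (x y : ℝ) : ∑ i ∈ range 4, ∑ j ∈ range 4, cA 3 i j * x ^ i * y ^ j = qf3 x y := by
  unfold cA
  rw [quad_ldl]
  simp only [sum_range_succ, sum_range_zero, cw, cL, cL3]
  unfold qf3
  ring

/-- quadratic form, degree 4 -/
noncomputable def qf4 (x y : ℝ) : ℝ := (1094644229 / 39321600000) * x ^ 0 * y ^ 0 + ((-12041086519) / 12288000000000) * x ^ 0 * y ^ 1 + (315210468250153 / 393216000000000) * x ^ 0 * y ^ 2 + (244105663067 / 393216000000000) * x ^ 0 * y ^ 3 + ((-12041086519) / 12288000000000) * x ^ 1 * y ^ 0 + (4874475631709 / 3840000000000000) * x ^ 1 * y ^ 1 + ((-2427423500298179) / 122880000000000000) * x ^ 1 * y ^ 2 + ((-4067001579661801) / 122880000000000000) * x ^ 1 * y ^ 3 + (315210468250153 / 393216000000000) * x ^ 2 * y ^ 0 + ((-2427423500298179) / 122880000000000000) * x ^ 2 * y ^ 1 + (56873692960550933489357 / 2457600000000000000000) * x ^ 2 * y ^ 2 + ((-513529381253102305337) /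 2457600000000000000000) * x ^ 2 * y ^ 3 + (244105663067 / 393216000000000) * x ^ 3 * y ^ 0 + ((-4067001579661801) / 122880000000000000) * x ^ 3 * y ^ 1 + ((-513529381253102305337) / 2457600000000000000000) * x ^ 3 * y ^ 2 + (10893087659787792034633 / 12288000000000000000000) * x ^ 3 * y ^ 3

lemma qf4_eq (x y : ℝ) : ∑ i ∈ range 4, ∑ j ∈ range 4, cA 4 i j * x ^ i * y ^ j = qf4 x y := by
  unfold cA
  rw [quad_ldl]
  simp only [sum_range_succ, sum_range_zero, cw, cL, cL4]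
  unfold qf4
  ring

/-- quadratic form, degree 5 -/
noncomputable def qf5 (x y : ℝ) : ℝ := (188533993477 / 7372800000000) * x ^ 0 * y ^ 0 + (48830304310543 / 4608000000000000) * x ^ 0 * y ^ 1 + (2890414653995887 / 4096000000000000) * x ^ 0 * y ^ 2 + (5392637815422631 / 9216000000000000) * x ^ 0 * y ^ 3 + (48830304310543 / 4608000000000000) * x ^ 1 * y ^ 0 + (12649755440430637 / 2880000000000000000) * x ^ 1 * y ^ 1 + (748640892249497933 / 2560000000000000000) * x ^ 1 * y ^ 2 + (1396737034466039029 / 5760000000000000000) * x ^ 1 * y ^ 3 + (2890414653995887 / 4096000000000000) * x ^ 2 * y ^ 0 + (748640892249497933 / 2560000000000000000) * x ^ 2 * y ^ 1 + (9970726455908076316621 / 512000000000000000000) * x ^ 2 * y ^ 2 + (2066928133293696795917 / 128000000000000000000) * x ^ 2 * y ^ 3 + (5392637815422631 / 9216000000000000) * x ^ 3 * y ^ 0 + (1396737034466039029 / 5760000000000000000) * x ^ 3 * y ^ 1 + (2066928133293696795917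 / 128000000000000000000) * x ^ 3 * y ^ 2 + (3856261752955398240181 / 288000000000000000000) * x ^ 3 * y ^ 3

lemma qf5_eq (x y : ℝ) : ∑ i ∈ range 4, ∑ j ∈ range 4, cA 5 i j * x ^ i * y ^ j = qf5 x y := by
  unfold cA
  rw [quad_ldl]
  simp only [sum_range_succ, sum_range_zero, cw, cL, cL5]
  unfold qf5
  ring

/-- quadratic form, degree 6 -/
noncomputable def qf6 (x y : ℝ) : ℝ := (14861490329 / 983040000000) * x ^ 0 * y ^ 0 + (24536320533179 / 1966080000000000) * x ^ 0 * y ^ 1 + (3581619169289 / 9830400000000) * x ^ 0 * y ^ 2 + (786306591817061 / 819200000000000) * x ^ 0 * y ^ 3 + (24536320533179 / 1966080000000000) * x ^ 1 * y ^ 0 + (40514775189142529 / 3932160000000000000) * x ^ 1 * y ^ 1 + (739196000092630879 / 2457600000000000000) * x ^ 1 * y ^ 2 + (259652257368508947 / 327680000000000000) * x ^ 1 * y ^ 3 + (3581619169289 / 9830400000000) * x ^ 2 * y ^ 0 + (739196000092630879 / 2457600000000000000)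 * x ^ 2 * y ^ 1 + (1685969225451814933693 / 192000000000000000000) * x ^ 2 * y ^ 2 + (2961093360844854873533 / 128000000000000000000) * x ^ 2 * y ^ 3 + (786306591817061 / 819200000000000) * x ^ 3 * y ^ 0 + (259652257368508947 / 327680000000000000) * x ^ 3 * y ^ 1 + (2961093360844854873533 / 128000000000000000000) * x ^ 3 * y ^ 2 + (15601841400233874251831 / 256000000000000000000) * x ^ 3 * y ^ 3

lemma qf6_eq (x y : ℝ) : ∑ i ∈ range 4, ∑ j ∈ range 4, cA 6 i j * x ^ i * y ^ j = qf6 x y := by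
  unfold cA
  rw [quad_ldl]
  simp only [sum_range_succ, sum_range_zero, cw, cL, cL6]
  unfold qf6
  ring

/-- quadratic form, degree 7 -/
noncomputable def qf7 (x y : ℝ) : ℝ := (12848916917 / 2949120000000) * x ^ 0 * y ^ 0 + (129761211944783 / 9830400000000000) * x ^ 0 * y ^ 1 + ((-92910518226827) / 2457600000000000) * x ^ 0 * y ^ 2 + (4507824068741861 / 4915200000000000) * x ^ 0 * y ^ 3 + (129761211944783 / 9830400000000000) * x ^ 1 * y ^ 0 + (1310726741215963517 / 32768000000000000000) * x ^ 1 * y ^ 1 + ((-938476593860044913) / 8192000000000000000) * x ^ 1 * y ^ 2 + (45532921602016151519 / 16384000000000000000) * x ^ 1 * y ^ 3 + ((-92910518226827) / 2457600000000000) * x ^ 2 * y ^ 0 + ((-938476593860044913) / 8192000000000000000) * x ^ 2 * y ^ 1 + (83995211176095675617 / 256000000000000000000) * x ^ 2 * y ^ 2 + ((-4075261878766006865519) / 512000000000000000000) * x ^ 2 * y ^ 3 + (4507824068741861 /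 4915200000000000) * x ^ 3 * y ^ 0 + (45532921602016151519 / 16384000000000000000) * x ^ 3 * y ^ 1 + ((-4075261878766006865519) / 512000000000000000000) * x ^ 3 * y ^ 2 + (197723184983971454044993 / 1024000000000000000000) * x ^ 3 * y ^ 3

lemma qf7_eq (x y : ℝ) : ∑ i ∈ range 4, ∑ j ∈ range 4, cA 7 i j * x ^ i * y ^ j = qf7 x y := by
  unfold cA
  rw [quad_ldl]
  simp only [sum_range_succ, sum_range_zero, cw, cL, cL7]
  unfold qf7
  ring

/-- quadratic form, degree 8 -/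
noncomputable def qf8 (x y : ℝ) : ℝ := (351753501 / 10000000000) * x ^ 1 * y ^ 1 + ((-25966091690319) / 25000000000000) * x ^ 1 * y ^ 2 + (320699646671217 / 100000000000000) * x ^ 1 * y ^ 3 + ((-25966091690319) / 25000000000000) * x ^ 2 * y ^ 1 + (1916790924775158261 / 62500000000000000) * x ^ 2 * y ^ 2 + ((-23673727249826907723) / 250000000000000000) * x ^ 2 * y ^ 3 + (320699646671217 / 100000000000000) * x ^ 3 * y ^ 1 + ((-23673727249826907723) / 250000000000000000) * x ^ 3 * y ^ 2 + (58477464044285505969 / 200000000000000000) * x ^ 3 * y ^ 3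

lemma qf8_eq (x y : ℝ) : ∑ i ∈ range 4, ∑ j ∈ range 4, cA 8 i j * x ^ i * y ^ j = qf8 x y := by
  unfold cA
  rw [quad_ldl]
  simp only [sum_range_succ, sum_range_zero, cw, cL, cL8]
  unfold qf8
  ring

/-- quadratic form, degree 9 -/
noncomputable def qf9 (x y : ℝ) : ℝ := (558623359 / 1638400000000) * x ^ 0 * y ^ 0 + ((-558623359) / 2621440000000) * x ^ 0 * y ^ 1 + (755282802172437 / 8192000000000000) * x ^ 0 * y ^ 2 + ((-4748863319715949) / 16384000000000000) * x ^ 0 * y ^ 3 + ((-558623359) / 2621440000000) * x ^ 1 * y ^ 0 + (352063291407 / 2621440000000000) * x ^ 1 * y ^ 1 + ((-94632425878152257) / 1638400000000000000) * x ^ 1 * y ^ 2 + (595004217652520249 / 3276800000000000000) * x ^ 1 * y ^ 3 + (755282802172437 / 8192000000000000) * x ^ 2 * y ^ 0 + ((-94632425878152257) / 1638400000000000000) * x ^ 2 * y ^ 1 + (25589423703872343953007 / 1024000000000000000000) * x ^ 2 * y ^ 2 + ((-160894264715316814890999)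 / 2048000000000000000000) * x ^ 2 * y ^ 3 + ((-4748863319715949) / 16384000000000000) * x ^ 3 * y ^ 0 + (595004217652520249 / 3276800000000000000) * x ^ 3 * y ^ 1 + ((-160894264715316814890999) / 2048000000000000000000) * x ^ 3 * y ^ 2 + (1011627523753792710376767 / 4096000000000000000000) * x ^ 3 * y ^ 3

lemma qf9_eq (x y : ℝ) : ∑ i ∈ range 4, ∑ j ∈ range 4, cA 9 i j * x ^ i * y ^ j = qf9 x y := by
  unfold cA
  rw [quad_ldl]
  simp only [sum_range_succ, sum_range_zero, cw, cL, cL9]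
  unfold qf9
  ring

/-- quadratic form, degree 10 -/
noncomputable def qf10 (x y : ℝ) : ℝ := (529007661 / 327680000000) * x ^ 0 * y ^ 0 + (138070999521 / 409600000000000) * x ^ 0 * y ^ 1 + (82198797389163 / 409600000000000) * x ^ 0 * y ^ 2 + ((-63422199469629) / 163840000000000) * x ^ 0 * y ^ 3 + (138070999521 / 409600000000000) * x ^ 1 * y ^ 0 + (36465023674981 / 512000000000000000) * x ^ 1 * y ^ 1 + (21464529965422103 / 512000000000000000) * x ^ 1 * y ^ 2 + ((-16561406640276529) / 204800000000000000) * x ^ 1 * y ^ 3 + (82198797389163 / 409600000000000) * x ^ 2 * y ^ 0 + (21464529965422103 / 512000000000000000) * x ^ 2 * y ^ 1 + (1597329204455406463689 / 64000000000000000000) * x ^ 2 * y ^ 2 + ((-1232452681669626059759) / 25600000000000000000) * x ^ 2 * y ^ 3 + ((-63422199469629) / 163840000000000) * x ^ 3 * y ^ 0 + ((-16561406640276529) / 204800000000000000) * x ^ 3 * y ^ 1 + ((-1232452681669626059759)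 / 25600000000000000000) * x ^ 3 * y ^ 2 + (23773115621427727103473 / 256000000000000000000) * x ^ 3 * y ^ 3

lemma qf10_eq (x y : ℝ) : ∑ i ∈ range 4, ∑ j ∈ range 4, cA 10 i j * x ^ i * y ^ j = qf10 x y := by
  unfold cA
  rw [quad_ldl]
  simp only [sum_range_succ, sum_range_zero, cw, cL, cL10]
  unfold qf10
  ring

/-- quadratic form, degree 11 -/
noncomputable def qf11 (x y : ℝ) : ℝ := (80487729 / 81920000000) * x ^ 0 * y ^ 0 + (8556891933177 / 819200000000000) * x ^ 0 * y ^ 1 + ((-15762958310547) / 819200000000000) * x ^ 0 * y ^ 2 + (12224556768249 / 40960000000000) * x ^ 0 * y ^ 3 + (8556891933177 / 819200000000000) * x ^ 1 * y ^ 0 + (910458452040646401 / 8192000000000000000) * x ^ 1 * y ^ 1 + ((-1677176156375692011) / 8192000000000000000) * x ^ 1 * y ^ 2 + (1300690812190351617 / 409600000000000000) * x ^ 1 * y ^ 3 + ((-15762958310547) / 819200000000000) * x ^ 2 * y ^ 0 + ((-1677176156375692011) / 8192000000000000000)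 * x ^ 2 * y ^ 1 + (15447965935080705949 / 40960000000000000000) * x ^ 2 * y ^ 2 + ((-59901232832185921267) / 10240000000000000000) * x ^ 2 * y ^ 3 + (12224556768249 / 40960000000000) * x ^ 3 * y ^ 0 + (1300690812190351617 / 409600000000000000) * x ^ 3 * y ^ 1 + ((-59901232832185921267) / 10240000000000000000) * x ^ 3 * y ^ 2 + (5806857554139039449909 / 64000000000000000000) * x ^ 3 * y ^ 3

lemma qf11_eq (x y : ℝ) : ∑ i ∈ range 4, ∑ j ∈ range 4, cA 11 i j * x ^ i * y ^ j = qf11 x y := by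
  unfold cA
  rw [quad_ldl]
  simp only [sum_range_succ, sum_range_zero, cw, cL, cL11]
  unfold qf11
  ring

lemma sum_n (g : ℕ → ℝ) : ∑ k ∈ range (11 + 1), g k = g 0 + g 1 + g 2 + g 3 + g 4 + g 5 + g 6 + g 7 + g 8 + g 9 + g 10 + g 11 := by
  simp only [sum_range_succ, sum_range_zero, zero_add]

lemma Kt_eq (x y p m : ℝ) : Kt 11 4 cA x y p m =
    qf0 x y * Zg 8 0 p m + qf1 x y * Zg 8 1 p m + qf2 x y * Zg 8 2 p m + qf3 x y * Zg 8 3 p m + qf4 x y * Zg 8 4 p m + qf5 x y * Zg 8 5 p m + qf6 x y * Zg 8 6 p m + qf7 x y * Zg 8 7 p m + qf8 x y * Zg 8 8 p m + qf9 x y * Zg 8 9 p m + qf10 x y * Zg 8 10 p m + qf11 x y * Zg 8 11 p m := by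
  unfold Kt
  rw [sum_n, qf0_eq, qf1_eq, qf2_eq, qf3_eq, qf4_eq, qf5_eq, qf6_eq, qf7_eq, qf8_eq, qf9_eq, qf10_eq, qf11_eq]


/-- Kernel in the coordinates `x, y, T`. -/
noncomputable def Ktx (x y T : ℝ) : ℝ :=
  Kt 11 4 cA x y (T - 2 / 25 * x * y) ((1 - 2 / 5 * x) * (1 - 2 / 5 * y))

/-- With the factor `r^3 r'^3`. -/
noncomputable def K3 (x y T : ℝ) : ℝ := (1 - x) ^ 3 * (1 - y) ^ 3 * Ktx x y T

lemma Ktx_symm (x y T : ℝ) : Ktx x y T = Ktx y x T := by
  unfold Ktx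
  rw [Kt_symm _ _ _ cA_symm]
  congr 1 <;> ring

lemma K3_symm (x y T : ℝ) : K3 x y T = K3 y x T := by
  unfold K3
  rw [Ktx_symm]
  ring

end Pool.Agent.Lib.MP_f1379f_gt.FV.CU
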