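import Pool.Agent.Lib.MP_f1379f_gt.FV.CVV

/-!
# box check, region a
-/

set_option autoImplicit false
set_option linter.unusedVariables false
set_option linter.unusedSimpArgs false
set_option linter.unusedTactic false
set_option linter.style.longLine false
set_option maxRecDepth 100000

namespace Pool.Agent.Lib.MP_f1379f_gt.FV.CU.ar

open Finset Pool.Agent.Lib.MP_f1379f_gt.FV Pool.Agent.Lib.MP_f1379f_gt.FV.BCH Pool.Agent.Lib.MP_f1379f_gt.FV.CU Pool.Agent.Lib.MP_f1379f_gt.FV.CU.U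

/-- node -/
def g0a : Ex := .f (-1) eS11 0 eS11

/-- real function of g0a -/
noncomputable def f_g0a (x y t : ℝ) : ℝ := -f_eS11 x y t

theorem v_g0a (x y t : ℝ) : val g0a x y t = 7390195312500000000000000000000000000000000 * (f_g0a x y t) := by
  simp only [g0a, v_eS11, val_f]
  unfold f_g0a
  push_cast
  ring

/-- parameters -/
def P0 : Par := ⟨489, 14, 14, 11, 64, 64, 2560, 128, 128, 2560⟩

theorem hP0 : chkPar P0 g0a = true := by decide +kernel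

/-- kinds -/
def ks (k : ℕ) : Par × Ex :=
  match k with
  | _ => (P0, g0a)

lemma hks : ∀ k < 1, chkPar (ks k).1 (ks k).2 = true := by
  intro k hk
  interval_cases k
  · exact hP0

/-- subtree -/
def T0 : Tm := (.sy 32 (.lf 0) (.st (-960) (.sx 16 .sk (.sy 48 (.lf 0) .sk)) (.lf 0)))
theorem hT0 : chkTm ks 1 64 64 2560 T0 ⟨0, 32, 0, 64, (-1280), (-640)⟩ = true := by decide +kernel
/-- subtree -/
def T1 : Tm := (.st (-960) (.sx 48 (.sy 16 (.lf 0) (.lf 0)) (.sy 16 (.lf 0) (.lf 0))) (.lf 0))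
theorem hT1 : chkTm ks 1 64 64 2560 T1 ⟨32, 64, 0, 32, (-1280), (-640)⟩ = true := by decide +kernel
/-- subtree -/
def T2 : Tm := (.sx 48 (.sy 48 (.st (-1120) (.lf 0) (.lf 0)) (.st (-1120) (.sx 40 .sk (.lf 0)) (.lf 0))) (.sy 48 (.st (-1120) (.sx 56 (.lf 0) (.lf 0)) (.lf 0)) (.st (-1120) (.lf 0) (.lf 0))))
theorem hT2 : chkTm ks 1 64 64 2560 T2 ⟨32, 64, 32, 64, (-1280), (-960)⟩ = true := by decide +kernel
/-- subtree -/
def T3 : Tm := (.sx 48 (.lf 0) (.sy 48 (.lf 0) (.st (-800) (.lf 0) (.lf 0))))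
theorem hT3 : chkTm ks 1 64 64 2560 T3 ⟨32, 64, 32, 64, (-960), (-640)⟩ = true := by decide +kernel
/-- subtree -/
def T4 : Tm := .st (-960) T2 T3
theorem hT4 : chkTm ks 1 64 64 2560 T4 ⟨32, 64, 32, 64, (-1280), (-640)⟩ = true := gluem_t hT2 hT3
/-- subtree -/
def T5 : Tm := .sy 32 T1 T4
theorem hT5 : chkTm ks 1 64 64 2560 T5 ⟨32, 64, 0, 64, (-1280), (-640)⟩ = true := gluem_y hT1 hT4
/-- subtree -/
def T6 : Tm := .sx 32 T0 T5
theorem hT6 : chkTm ks 1 64 64 2560 T6 ⟨0, 64, 0, 64, (-1280), (-640)⟩ = true := gluem_x hT0 hT5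
/-- subtree -/
def T7 : Tm := (.sy 32 (.st (-320) (.sx 16 (.lf 0) (.sy 16 (.lf 0) (.lf 0))) (.lf 0)) (.st (-320) (.sx 16 .sk (.lf 0)) (.sx 16 .sk (.lf 0))))
theorem hT7 : chkTm ks 1 64 64 2560 T7 ⟨0, 32, 0, 64, (-640), 0⟩ = true := by decide +kernel
/-- subtree -/
def T8 : Tm := (.sy 32 (.st (-320) (.sx 48 (.sy 16 (.lf 0) (.lf 0)) (.sy 16 (.lf 0) (.lf 0))) (.sx 48 (.sy 16 (.lf 0) (.lf 0)) (.sy 16 (.lf 0) (.lf 0)))) (.st (-320) (.lf 0) (.lf 0)))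
theorem hT8 : chkTm ks 1 64 64 2560 T8 ⟨32, 64, 0, 64, (-640), 0⟩ = true := by decide +kernel
/-- subtree -/
def T9 : Tm := .sx 32 T7 T8
theorem hT9 : chkTm ks 1 64 64 2560 T9 ⟨0, 64, 0, 64, (-640), 0⟩ = true := gluem_x hT7 hT8
/-- subtree -/
def T10 : Tm := .st (-640) T6 T9
theorem hT10 : chkTm ks 1 64 64 2560 T10 ⟨0, 64, 0, 64, (-1280), 0⟩ = true := gluem_t hT6 hT9
/-- subtree -/
def T11 : Tm := (.sy 32 (.st 256 (.sx 16 (.lf 0) (.lf 0)) (.lf 0)) (.st 256 (.lf 0) (.sx 16 .sk (.lf 0))))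
theorem hT11 : chkTm ks 1 64 64 2560 T11 ⟨0, 32, 0, 64, 0, 512⟩ = true := by decide +kernel
/-- subtree -/
def T12 : Tm := (.sy 32 (.st 256 (.lf 0) (.sx 48 (.sy 16 (.st 384 (.lf 0) (.lf 0)) (.lf 0)) (.sy 16 (.st 384 (.lf 0) (.lf 0)) (.lf 0)))) (.lf 0))
theorem hT12 : chkTm ks 1 64 64 2560 T12 ⟨32, 64, 0, 64, 0, 512⟩ = true := by decide +kernel
/-- subtree -/
def T13 : Tm := .sx 32 T11 T12
theorem hT13 : chkTm ks 1 64 64 2560 T13 ⟨0, 64, 0, 64, 0, 512⟩ = true := gluem_x hT11 hT12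
/-- subtree -/
def T14 : Tm := (.sy 32 (.lf 0) (.st 768 (.sx 16 .sk (.lf 0)) (.lf 0)))
theorem hT14 : chkTm ks 1 64 64 2560 T14 ⟨0, 32, 0, 64, 512, 1024⟩ = true := by decide +kernel
/-- subtree -/
def T15 : Tm := (.sy 32 (.st 768 (.sx 48 (.lf 0) (.lf 0)) (.lf 0)) (.st 768 (.sx 48 (.sy 48 (.st 640 (.lf 0) (.lf 0)) (.lf 0)) (.sy 48 (.lf 0) (.st 640 (.lf 0) (.lf 0)))) (.lf 0)))
theorem hT15 : chkTm ks 1 64 64 2560 T15 ⟨32, 64, 0, 64, 512, 1024⟩ = true := by decide +kernel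
/-- subtree -/
def T16 : Tm := .sx 32 T14 T15
theorem hT16 : chkTm ks 1 64 64 2560 T16 ⟨0, 64, 0, 64, 512, 1024⟩ = true := gluem_x hT14 hT15
/-- subtree -/
def T17 : Tm := .st 512 T13 T16
theorem hT17 : chkTm ks 1 64 64 2560 T17 ⟨0, 64, 0, 64, 0, 1024⟩ = true := gluem_t hT13 hT16
/-- subtree -/
def T18 : Tm := .st 0 T10 T17
theorem hT18 : chkTm ks 1 64 64 2560 T18 ⟨0, 64, 0, 64, (-1280), 1024⟩ = true := gluem_t hT10 hT17

theorem cover (x y t : ℝ) (hyx : y ≤ x) (hx0 : 0 ≤ x) (hx1 : x ≤ 1)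
    (hy0 : 0 ≤ y) (hy1 : y ≤ 1)
    (ht0 : ((-1) / 2) ≤ t) (ht1 : t ≤ (2 / 5)) :
    ∃ k < 1, 0 ≤ val (ks k).2 x y t := by
  refine chkTm_sound ks 1 64 64 2560 (by norm_num) (by norm_num) hks T18 ⟨0, 64, 0, 64, (-1280), 1024⟩ hT18 x y t hyx
    ?_ ?_ ?_ ?_ ?_ ?_ <;> push_cast <;> linarith

theorem good (x y t : ℝ) (hx : x ≤ 1) (hy : y ≤ 1) (h : ∃ k < 1, 0 ≤ val (ks k).2 x y t) :
    PG.Good (K3 x y t) x y t := by
  obtain ⟨k, hk, h⟩ := h
  have hr : 0 ≤ (1 - x) ^ 3 * (1 - y) ^ 3 :=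
    mul_nonneg (pow_nonneg (by linarith) 3) (pow_nonneg (by linarith) 3)
  interval_cases k
  · have h1 : 0 ≤ val g0a x y t := h
    rw [v_g0a] at h1
    have h2 : 0 ≤ f_g0a x y t := nonneg_of_mul_nonneg_right h1 (by norm_num)
    refine (Or.inl) ?_
    unfold f_g0a at h2
    rw [KTx] at h2
    unfold K3
    exact mul_nonpos_of_nonneg_of_nonpos hr (by linarith)

/-- All points of the region (both orders of `x, y`). -/
theorem region (x y t : ℝ) (hx0 : 0 ≤ x) (hx1 : x ≤ 1)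
    (hy0 : 0 ≤ y) (hy1 : y ≤ 1)
    (ht0 : ((-1) / 2) ≤ t) (ht1 : t ≤ (2 / 5)) :
    PG.Good (K3 x y t) x y t := by
  rcases le_total y x with h | h
  · exact good x y t (by linarith) (by linarith)
      (cover x y t h (by linarith) (by linarith) (by linarith) (by linarith) ht0 ht1)
  · have h1 := good y x t (by linarith) (by linarith)
      (cover y x t h (by linarith) (by linarith) (by linarith) (by linarith) ht0 ht1)
    rw [K3_symm y x] at h1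
    have h2 := PG.Good_symm h1
    exact h2

end Pool.Agent.Lib.MP_f1379f_gt.FV.CU.ar
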