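import Pool.Agent.Lib.MP_f1379f_gt.FV.BCH
import Pool.Agent.Lib.MP_f1379f_gt.FV.CU0
import Pool.Agent.Lib.MP_f1379f_gt.FV.PWH
import Pool.Agent.Lib.MP_f1379f_gt.FV.BCM
import Pool.Agent.Lib.MP_f1379f_gt.FV.CEX
import Pool.Agent.Lib.MP_f1379f_gt.FV.CV0

section
/-!
# one-body programs
-/
set_option autoImplicit false
set_option linter.unusedVariables false
set_option linter.unusedSimpArgs false
set_option linter.unusedTactic false
set_option linter.style.longLine false
set_option maxRecDepth 100000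

namespace Pool.Agent.Lib.MP_f1379f_gt.FV.CU.V

open Finset Pool.Agent.Lib.MP_f1379f_gt.FV Pool.Agent.Lib.MP_f1379f_gt.FV.BCH Pool.Agent.Lib.MP_f1379f_gt.FV.CU

/-- node -/
def nd0 : Ex := .v .x
/-- node -/
def nd2 : Ex := .h .x
/-- node -/
def eP : Ex := .f 5 nd2 (-2) nd0
/-- node -/
def eM : Ex := .m eP eP
/-- node -/
def eW2 : Ex := .f 8 eM (-1) eM
/-- node -/
def nd6 : Ex := .m eP eW2
/-- node -/
def nd7 : Ex := .m eM eP
/-- node -/
def eW3 : Ex := .f 5 nd6 (-7) nd7
/-- node -/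
def nd9 : Ex := .m eP eW3
/-- node -/
def nd10 : Ex := .m eM eW2
/-- node -/
def eW4 : Ex := .f 1 nd9 (-1) nd10
/-- node -/
def nd12 : Ex := .m eP eW4
/-- node -/
def nd13 : Ex := .m eM eW3
/-- node -/
def eW5 : Ex := .f 14 nd12 (-3) nd13
/-- node -/
def nd15 : Ex := .m eP eW5
/-- node -/
def nd16 : Ex := .m eM eW4
/-- node -/
def eW6 : Ex := .f 8 nd15 (-25) nd16
/-- node -/
def nd18 : Ex := .m eP eW6
/-- node -/
def nd19 : Ex := .m eM eW5
/-- node -/
def eW7 : Ex := .f 6 nd18 (-11) nd19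
/-- node -/
def nd21 : Ex := .m eP eW7
/-- node -/
def nd22 : Ex := .m eM eW6
/-- node -/
def eW8 : Ex := .f 5 nd21 (-7) nd22
/-- node -/
def nd24 : Ex := .m eP eW8
/-- node -/
def nd25 : Ex := .m eM eW7
/-- node -/
def eW9 : Ex := .f 11 nd24 (-13) nd25
/-- node -/
def nd27 : Ex := .m eP eW9
/-- node -/
def nd28 : Ex := .m eM eW8
/-- node -/
def eW10 : Ex := .f 8 nd27 (-21) nd28
/-- node -/
def nd30 : Ex := .m eP eW10
/-- node -/
def nd31 : Ex := .m eM eW9
/-- node -/
def eW11 : Ex := .f 13 nd30 (-25) nd31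
/-- node -/
def nd33 : Ex := .f 1250 nd2 (-3239) nd0
/-- node -/
def nd34 : Ex := .m nd0 nd0
/-- node -/
def nd35 : Ex := .m nd33 nd2
/-- node -/
def nd36 : Ex := .f 726565000 nd35 41594718948373 nd34
/-- node -/
def nd37 : Ex := .m nd34 nd0
/-- node -/
def nd38 : Ex := .m nd36 nd2
/-- node -/
def nd39 : Ex := .f 1 nd38 (-113776655304677) nd37
/-- node -/
def nd40 : Ex := .m nd34 nd34
/-- node -/
def nd41 : Ex := .m nd39 nd2
/-- node -/
def nd42 : Ex := .f 20 nd41 10355244485461331 nd40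
/-- node -/
def nd43 : Ex := .m nd40 nd0
/-- node -/
def nd44 : Ex := .m nd42 nd2
/-- node -/
def nd45 : Ex := .f 5 nd44 (-85682570200700711) nd43
/-- node -/
def nd46 : Ex := .m nd37 nd37
/-- node -/
def nd47 : Ex := .m nd45 nd2
/-- node -/
def eq0 : Ex := .f 20 nd47 825534809344533181 nd46
/-- node -/
def nd49 : Ex := .m eq0 nd2
/-- node -/
def nd50 : Ex := .f 5000 nd2 (-8993) nd0
/-- node -/
def nd51 : Ex := .m nd50 nd2
/-- node -/
def nd52 : Ex := .f 368610063460000 nd51 91859019956079337477 nd34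
/-- node -/
def nd53 : Ex := .m nd52 nd2
/-- node -/
def nd54 : Ex := .f 1 nd53 (-216279141938695762364) nd37
/-- node -/
def nd55 : Ex := .m nd54 nd2
/-- node -/
def nd56 : Ex := .f 25 nd55 34589811180159378767224 nd40
/-- node -/
def nd57 : Ex := .m nd56 nd2
/-- node -/
def nd58 : Ex := .f 1 nd57 (-49771708740128514500312) nd43
/-- node -/
def nd59 : Ex := .m nd58 nd2
/-- node -/
def eq1 : Ex := .f 1 nd59 20499348921218535735572 nd46
/-- node -/
def nd61 : Ex := .m eq1 eP
/-- node -/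
def eS1 : Ex := .f 20480 nd49 1 nd61
/-- node -/
def nd63 : Ex := .m eS1 nd2
/-- node -/
def nd64 : Ex := .f 5000 nd2 (-6311) nd0
/-- node -/
def nd65 : Ex := .m nd64 nd2
/-- node -/
def nd66 : Ex := .f 24353382620000 nd65 6396566799889471451 nd34
/-- node -/
def nd67 : Ex := .m nd66 nd2
/-- node -/
def nd68 : Ex := .f 1 nd67 (-9934513556167978056) nd37
/-- node -/
def nd69 : Ex := .m nd68 nd2
/-- node -/
def nd70 : Ex := .f 375 nd69 34034740737931434232802 nd40
/-- node -/
def nd71 : Ex := .m nd70 nd2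
/-- node -/
def nd72 : Ex := .f 1 nd71 (-39582958823845933952952) nd43
/-- node -/
def nd73 : Ex := .m nd72 nd2
/-- node -/
def eq2 : Ex := .f 1 nd73 12907979727420762232341 nd46
/-- node -/
def nd75 : Ex := .m eq2 eW2
/-- node -/
def eS2 : Ex := .f 35 nd63 3 nd75
/-- node -/
def nd77 : Ex := .m eS2 nd2
/-- node -/
def nd78 : Ex := .f 2500 nd2 (-1463) nd0
/-- node -/
def nd79 : Ex := .m nd78 nd2
/-- node -/
def nd80 : Ex := .f 1048043888170000 nd79 144403356629533363473 nd34
/-- node -/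
def nd81 : Ex := .m nd80 nd2
/-- node -/
def nd82 : Ex := .f 1 nd81 (-114194178054314409826) nd37
/-- node -/
def nd83 : Ex := .m nd82 nd2
/-- node -/
def nd84 : Ex := .f 25 nd83 51092494445518930753317 nd40
/-- node -/
def nd85 : Ex := .m nd84 nd2
/-- node -/
def nd86 : Ex := .f 1 nd85 (-36133620017565866606060) nd43
/-- node -/
def nd87 : Ex := .m nd86 nd2
/-- node -/
def eq3 : Ex := .f 1 nd87 8635792393500909614980 nd46
/-- node -/
def nd89 : Ex := .m eq3 eW3
/-- node -/
def eS3 : Ex := .f 5 nd77 1 nd89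
/-- node -/
def nd91 : Ex := .m eS3 nd2
/-- node -/
def nd92 : Ex := .f 625 nd2 (-44) nd0
/-- node -/
def nd93 : Ex := .m nd92 nd2
/-- node -/
def nd94 : Ex := .f 5473221145000 nd93 197162525876560313 nd34
/-- node -/
def nd95 : Ex := .m nd94 nd2
/-- node -/
def nd96 : Ex := .f 1 nd95 (-4702280961179483) nd37
/-- node -/
def nd97 : Ex := .m nd96 nd2
/-- node -/
def nd98 : Ex := .f 20000 nd97 56711012897364461449357 nd40
/-- node -/
def nd99 : Ex := .m nd98 nd2
/-- node -/
def nd100 : Ex := .f 1 nd99 (-1027058762506204610674) nd43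
/-- node -/
def nd101 : Ex := .m nd100 nd2
/-- node -/
def eq4 : Ex := .f 5 nd101 10893087659787792034633 nd46
/-- node -/
def nd103 : Ex := .m eq4 eW4
/-- node -/
def eS4 : Ex := .f 15 nd91 1 nd103
/-- node -/
def nd105 : Ex := .m eS4 nd2
/-- node -/
def nd106 : Ex := .f 625 nd2 518 nd0
/-- node -/
def nd107 : Ex := .m nd106 nd2
/-- node -/
def nd108 : Ex := .f 471334983692500 nd107 16309181450488586923 nd34
/-- node -/
def nd109 : Ex := .m nd108 nd2
/-- node -/
def nd110 : Ex := .f 1 nd109 20219362568802058897 nd37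
/-- node -/
def nd111 : Ex := .m nd110 nd2
/-- node -/
def nd112 : Ex := .f 400 nd111 91971317358318349295989 nd40
/-- node -/
def nd113 : Ex := .m nd112 nd2
/-- node -/
def nd114 : Ex := .f 1 nd113 148818825597146169306024 nd43
/-- node -/
def nd115 : Ex := .m nd114 nd2
/-- node -/
def eq5 : Ex := .f 1 nd115 61700188047286371842896 nd46
/-- node -/
def nd117 : Ex := .m eq5 eW5
/-- node -/
def eS5 : Ex := .f 75 nd105 4 nd117
/-- node -/
def nd119 : Ex := .m eS5 nd2
/-- node -/
def nd120 : Ex := .f 1000 nd2 1651 nd0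
/-- node -/
def nd121 : Ex := .m nd120 nd2
/-- node -/
def nd122 : Ex := .f 59445961316000 nd121 2905810110620342529 nd34
/-- node -/
def nd123 : Ex := .m nd122 nd2
/-- node -/
def nd124 : Ex := .f 5 nd123 49569852408701022064 nd37
/-- node -/
def nd125 : Ex := .m nd124 nd2
/-- node -/
def nd126 : Ex := .f 625 nd125 127375949731554326781352 nd40
/-- node -/
def nd127 : Ex := .m nd126 nd2
/-- node -/
def nd128 : Ex := .f 1 nd127 568529925282212135718336 nd43
/-- node -/
def nd129 : Ex := .m nd128 nd2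
/-- node -/
def eq6 : Ex := .f 1 nd129 748888387211225964087888 nd46
/-- node -/
def nd131 : Ex := .m eq6 eW6
/-- node -/
def eS6 : Ex := .f 55 nd119 3 nd131
/-- node -/
def nd133 : Ex := .m eS6 nd2
/-- node -/
def nd134 : Ex := .f 5000 nd2 30297 nd0
/-- node -/
def nd135 : Ex := .m nd134 nd2
/-- node -/
def nd136 : Ex := .f 256978338340000 nd135 (-10501983703494808347) nd34
/-- node -/
def nd137 : Ex := .m nd136 nd2
/-- node -/
def nd138 : Ex := .f 1 nd137 473368573491100086264 nd37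
/-- node -/
def nd139 : Ex := .m nd138 nd2
/-- node -/
def nd140 : Ex := .f 125 nd139 216993457618430459124348 nd40
/-- node -/
def nd141 : Ex := .m nd140 nd2
/-- node -/
def nd142 : Ex := .f 1 nd141 (-586837710542304988634736) nd43
/-- node -/
def nd143 : Ex := .m nd142 nd2
/-- node -/
def eq7 : Ex := .f 1 nd143 7118034659422972345619748 nd46
/-- node -/
def nd145 : Ex := .m eq7 eW7
/-- node -/
def eS7 : Ex := .f 20 nd133 1 nd145
/-- node -/
def nd147 : Ex := .m eS7 nd2
/-- node -/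
def nd148 : Ex := .m nd34 nd2
/-- node -/
def nd149 : Ex := .f 1250 nd148 (-73819) nd37
/-- node -/
def nd150 : Ex := .m nd149 nd2
/-- node -/
def nd151 : Ex := .f 586255835000 nd150 772555161038059837 nd40
/-- node -/
def nd152 : Ex := .m nd151 nd2
/-- node -/
def nd153 : Ex := .f 2 nd152 (-7891242416608969241) nd43
/-- node -/
def nd154 : Ex := .m nd153 nd2
/-- node -/
def eq8 : Ex := .f 8 nd154 97462440073809176615 nd46
/-- node -/
def nd156 : Ex := .m eq8 eW8
/-- node -/
def eS8 : Ex := .f 65 nd147 442368 nd156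
/-- node -/
def nd158 : Ex := .m eS8 nd2
/-- node -/
def nd159 : Ex := .f 4 nd2 (-5) nd0
/-- node -/
def nd160 : Ex := .m nd159 nd2
/-- node -/
def nd161 : Ex := .f 5586233590000 nd160 12093326417044167 nd34
/-- node -/
def nd162 : Ex := .m nd161 nd2
/-- node -/
def nd163 : Ex := .f 25 nd162 (-1139037515699494314) nd37
/-- node -/
def nd164 : Ex := .m nd163 nd2
/-- node -/
def nd165 : Ex := .f 625 nd164 25961301339905169108632 nd40
/-- node -/
def nd166 : Ex := .m nd165 nd2
/-- node -/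
def nd167 : Ex := .f 1 nd166 (-160894264715316814890999) nd43
/-- node -/
def nd168 : Ex := .m nd167 nd2
/-- node -/
def eq9 : Ex := .f 4 nd168 1011627523753792710376767 nd46
/-- node -/
def nd170 : Ex := .m eq9 eW9
/-- node -/
def eS9 : Ex := .f 35 nd158 36 nd170
/-- node -/
def nd172 : Ex := .m eS9 nd2
/-- node -/
def nd173 : Ex := .f 625 nd2 261 nd0
/-- node -/
def nd174 : Ex := .m nd173 nd2
/-- node -/
def nd175 : Ex := .f 1322519152500 nd174 205533458496582481 nd34
/-- node -/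
def nd176 : Ex := .m nd175 nd2
/-- node -/
def nd177 : Ex := .f 1 nd176 (-353459686754337044) nd37
/-- node -/
def nd178 : Ex := .m nd177 nd2
/-- node -/
def nd179 : Ex := .f 125 nd178 1586978325305233633064 nd40
/-- node -/
def nd180 : Ex := .m nd179 nd2
/-- node -/
def nd181 : Ex := .f 1 nd180 (-6162263408348130298795) nd43
/-- node -/
def nd182 : Ex := .m nd181 nd2
/-- node -/
def eq10 : Ex := .f 4 nd182 23773115621427727103473 nd46
/-- node -/
def nd184 : Ex := .m eq10 eW10
/-- node -/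
def eS10 : Ex := .f 25 nd172 576 nd184
/-- node -/
def nd186 : Ex := .m eS10 nd2
/-- node -/
def nd187 : Ex := .f 5000 nd2 106313 nd0
/-- node -/
def nd188 : Ex := .m nd187 nd2
/-- node -/
def nd189 : Ex := .f 178861620000 nd188 66133253981078489 nd34
/-- node -/
def nd190 : Ex := .m nd189 nd2
/-- node -/
def nd191 : Ex := .f 1 nd190 170607821616468442 nd37
/-- node -/
def nd192 : Ex := .m nd191 nd2
/-- node -/
def nd193 : Ex := .f 45 nd192 275586128373151029349 nd40
/-- node -/
def nd194 : Ex := .m nd193 nd2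
/-- node -/
def nd195 : Ex := .f 1 nd194 (-479209862657487370136) nd43
/-- node -/
def nd196 : Ex := .m nd195 nd2
/-- node -/
def eq11 : Ex := .f 25 nd196 92909720866224631198544 nd46
/-- node -/
def nd198 : Ex := .m eq11 eW11
/-- node -/
def eS11 : Ex := .f 5 nd186 18 nd198
/-- node -/
def nd200 : Ex := .f 801889 nd2 119707 nd0
/-- node -/
def nd201 : Ex := .m nd200 nd2
/-- node -/
def nd202 : Ex := .f 1 nd201 (-340126) nd34
/-- node -/
def nd203 : Ex := .m nd202 nd2
/-- node -/
def nd204 : Ex := .f 1 nd203 (-158242) nd37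
/-- node -/
def nd205 : Ex := .m nd204 nd2
/-- node -/
def nd206 : Ex := .f 1 nd205 (-2695980) nd40
/-- node -/
def nd207 : Ex := .m nd206 nd2
/-- node -/
def nd208 : Ex := .f 1 nd207 12686271 nd43
/-- node -/
def nd209 : Ex := .m nd208 nd2
/-- node -/
def nd210 : Ex := .f 1 nd209 (-36069290) nd46
/-- node -/
def nd211 : Ex := .m nd46 nd0
/-- node -/
def nd212 : Ex := .m nd210 nd2
/-- node -/
def nd213 : Ex := .f 1 nd212 55344714 nd211
/-- node -/
def nd214 : Ex := .m nd40 nd40
/-- node -/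
def nd215 : Ex := .m nd213 nd2
/-- node -/
def nd216 : Ex := .f 1 nd215 (-43726930) nd214
/-- node -/
def nd217 : Ex := .m nd214 nd0
/-- node -/
def nd218 : Ex := .m nd216 nd2
/-- node -/
def eV : Ex := .f 1 nd218 14039354 nd217
/-- node -/
def nd220 : Ex := .f 2500 nd2 (-3239) nd0
/-- node -/
def nd221 : Ex := .m nd220 nd2
/-- node -/
def nd222 : Ex := .f 2 nd221 101761 nd34
/-- node -/
def nd223 : Ex := .m nd222 nd2
/-- node -/
def el : Ex := .f 2 nd223 (-200551) nd37

/-- real function of eP -/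
noncomputable def f_eP (x y t : ℝ) : ℝ := 1 - ((2 / 5) * x)

theorem v_eP (x y t : ℝ) : val eP x y t = 5 * (f_eP x y t) := by
  simp only [nd0, nd2, eP, val_f, val_h, val_vx]
  unfold f_eP
  push_cast
  ring

/-- real function of eM -/
noncomputable def f_eM (x y t : ℝ) : ℝ := f_eP x y t * f_eP x y t

theorem v_eM (x y t : ℝ) : val eM x y t = 25 * (f_eM x y t) := by
  simp only [eM, v_eP, val_m]
  unfold f_eM
  push_cast
  ring

theorem v_eW2 (x y t : ℝ) : val eW2 x y t = 175 * (Zg 8 2 (f_eP x y t) (f_eM x y t)) := by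
  simp only [eW2, v_eM, val_f]
  unfold f_eM
  rw [zg_2]
  rw [zg_0, zg_1]
  push_cast
  ring

theorem v_eW3 (x y t : ℝ) : val eW3 x y t = 3500 * (Zg 8 3 (f_eP x y t) (f_eM x y t)) := by
  simp only [nd6, nd7, eW3, v_eP, v_eM, v_eW2, val_f, val_m]
  rw [zg_3]
  rw [zg_1]
  push_cast
  ring

theorem v_eW4 (x y t : ℝ) : val eW4 x y t = 13125 * (Zg 8 4 (f_eP x y t) (f_eM x y t)) := by
  simp only [nd9, nd10, eW4, v_eP, v_eM, v_eW2, v_eW3, val_f, val_m]
  rw [zg_4]
  push_cast
  ring

theorem v_eW5 (x y t : ℝ) : val eW5 x y t = 656250 * (Zg 8 5 (f_eP x y t) (f_eM x y t)) := by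
  simp only [nd12, nd13, eW5, v_eP, v_eM, v_eW3, v_eW4, val_f, val_m]
  rw [zg_5]
  push_cast
  ring

theorem v_eW6 (x y t : ℝ) : val eW6 x y t = 18046875 * (Zg 8 6 (f_eP x y t) (f_eM x y t)) := by
  simp only [nd15, nd16, eW6, v_eP, v_eM, v_eW4, v_eW5, val_f, val_m]
  rw [zg_6]
  push_cast
  ring

theorem v_eW7 (x y t : ℝ) : val eW7 x y t = 360937500 * (Zg 8 7 (f_eP x y t) (f_eM x y t)) := by
  simp only [nd18, nd19, eW7, v_eP, v_eM, v_eW5, v_eW6, val_f, val_m]
  rw [zg_7]
  push_cast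
  ring

theorem v_eW8 (x y t : ℝ) : val eW8 x y t = 5865234375 * (Zg 8 8 (f_eP x y t) (f_eM x y t)) := by
  simp only [nd21, nd22, eW8, v_eP, v_eM, v_eW6, v_eW7, val_f, val_m]
  rw [zg_8]
  push_cast
  ring

theorem v_eW9 (x y t : ℝ) : val eW9 x y t = 205283203125 * (Zg 8 9 (f_eP x y t) (f_eM x y t)) := by
  simp only [nd24, nd25, eW9, v_eP, v_eM, v_eW7, v_eW8, val_f, val_m]
  rw [zg_9]
  push_cast
  ring

theorem v_eW10 (x y t : ℝ) : val eW10 x y t = 5132080078125 * (Zg 8 10 (f_eP x y t) (f_eM x y t)) := by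
  simp only [nd27, nd28, eW10, v_eP, v_eM, v_eW8, v_eW9, val_f, val_m]
  rw [zg_10]
  push_cast
  ring

theorem v_eW11 (x y t : ℝ) : val eW11 x y t = 205283203125000 * (Zg 8 11 (f_eP x y t) (f_eM x y t)) := by
  simp only [nd30, nd31, eW11, v_eP, v_eM, v_eW9, v_eW10, val_f, val_m]
  rw [zg_11]
  push_cast
  ring

theorem v_eq0 (x y t : ℝ) : val eq0 x y t = 3000000000000000000 * (qf0 x x) := by
  simp only [nd0, nd2, nd33, nd34, nd35, nd36, nd37, nd38, nd39, nd40, nd41, nd42, nd43, nd44, nd45, nd46, nd47, eq0, val_f, val_h, val_m, val_vx]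
  unfold qf0
  push_cast
  ring

theorem v_eq1 (x y t : ℝ) : val eq1 x y t = 12288000000000000000000 * (qf1 x x) := by
  simp only [nd0, nd2, nd34, nd37, nd40, nd43, nd46, nd50, nd51, nd52, nd53, nd54, nd55, nd56, nd57, nd58, nd59, eq1, val_f, val_h, val_m, val_vx]
  unfold qf1
  push_cast
  ring

/-- real function of eS1 -/
noncomputable def f_eS1 (x y t : ℝ) : ℝ := qf0 x x * Zg 8 0 (f_eP x y t) (f_eM x y t) + qf1 x x * Zg 8 1 (f_eP x y t) (f_eM x y t)

theorem v_eS1 (x y t : ℝ) : val eS1 x y t = 61440000000000000000000 * (f_eS1 x y t) := by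
  simp only [nd2, nd49, nd61, eS1, v_eP, v_eq0, v_eq1, val_f, val_h, val_m]
  unfold f_eS1
  rw [zg_0, zg_1]
  push_cast
  ring

theorem v_eq2 (x y t : ℝ) : val eq2 x y t = 4096000000000000000000 * (qf2 x x) := by
  simp only [nd0, nd2, nd34, nd37, nd40, nd43, nd46, nd64, nd65, nd66, nd67, nd68, nd69, nd70, nd71, nd72, nd73, eq2, val_f, val_h, val_m, val_vx]
  unfold qf2
  push_cast
  ring

/-- real function of eS2 -/
noncomputable def f_eS2 (x y t : ℝ) : ℝ := f_eS1 x y t + qf2 x x * Zg 8 2 (f_eP x y t) (f_eM x y t)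

theorem v_eS2 (x y t : ℝ) : val eS2 x y t = 2150400000000000000000000 * (f_eS2 x y t) := by
  simp only [nd2, nd63, nd75, eS2, v_eW2, v_eS1, v_eq2, val_f, val_h, val_m]
  unfold f_eS2
  push_cast
  ring

theorem v_eq3 (x y t : ℝ) : val eq3 x y t = 3072000000000000000000 * (qf3 x x) := by
  simp only [nd0, nd2, nd34, nd37, nd40, nd43, nd46, nd78, nd79, nd80, nd81, nd82, nd83, nd84, nd85, nd86, nd87, eq3, val_f, val_h, val_m, val_vx]
  unfold qf3
  push_cast
  ring

/-- real function of eS3 -/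
noncomputable def f_eS3 (x y t : ℝ) : ℝ := f_eS2 x y t + qf3 x x * Zg 8 3 (f_eP x y t) (f_eM x y t)

theorem v_eS3 (x y t : ℝ) : val eS3 x y t = 10752000000000000000000000 * (f_eS3 x y t) := by
  simp only [nd2, nd77, nd89, eS3, v_eW3, v_eS2, v_eq3, val_f, val_h, val_m]
  unfold f_eS3
  push_cast
  ring

theorem v_eq4 (x y t : ℝ) : val eq4 x y t = 12288000000000000000000 * (qf4 x x) := by
  simp only [nd0, nd2, nd34, nd37, nd40, nd43, nd46, nd92, nd93, nd94, nd95, nd96, nd97, nd98, nd99, nd100, nd101, eq4, val_f, val_h, val_m, val_vx]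
  unfold qf4
  push_cast
  ring

/-- real function of eS4 -/
noncomputable def f_eS4 (x y t : ℝ) : ℝ := f_eS3 x y t + qf4 x x * Zg 8 4 (f_eP x y t) (f_eM x y t)

theorem v_eS4 (x y t : ℝ) : val eS4 x y t = 161280000000000000000000000 * (f_eS4 x y t) := by
  simp only [nd2, nd91, nd103, eS4, v_eW4, v_eS3, v_eq4, val_f, val_h, val_m]
  unfold f_eS4
  push_cast
  ring

theorem v_eq5 (x y t : ℝ) : val eq5 x y t = 4608000000000000000000 * (qf5 x x) := by
  simp only [nd0, nd2, nd34, nd37, nd40, nd43, nd46, nd106, nd107, nd108, nd109, nd110, nd111, nd112, nd113, nd114, nd115, eq5, val_f, val_h, val_m, val_vx]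
  unfold qf5
  push_cast
  ring

/-- real function of eS5 -/
noncomputable def f_eS5 (x y t : ℝ) : ℝ := f_eS4 x y t + qf5 x x * Zg 8 5 (f_eP x y t) (f_eM x y t)

theorem v_eS5 (x y t : ℝ) : val eS5 x y t = 12096000000000000000000000000 * (f_eS5 x y t) := by
  simp only [nd2, nd105, nd117, eS5, v_eW5, v_eS4, v_eq5, val_f, val_h, val_m]
  unfold f_eS5
  push_cast
  ring

theorem v_eq6 (x y t : ℝ) : val eq6 x y t = 12288000000000000000000 * (qf6 x x) := by
  simp only [nd0, nd2, nd34, nd37, nd40, nd43, nd46, nd120, nd121, nd122, nd123, nd124, nd125, nd126, nd127, nd128, nd129, eq6, val_f, val_h, val_m, val_vx]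
  unfold qf6
  push_cast
  ring

/-- real function of eS6 -/
noncomputable def f_eS6 (x y t : ℝ) : ℝ := f_eS5 x y t + qf6 x x * Zg 8 6 (f_eP x y t) (f_eM x y t)

theorem v_eS6 (x y t : ℝ) : val eS6 x y t = 665280000000000000000000000000 * (f_eS6 x y t) := by
  simp only [nd2, nd119, nd131, eS6, v_eW6, v_eS5, v_eq6, val_f, val_h, val_m]
  unfold f_eS6
  push_cast
  ring

theorem v_eq7 (x y t : ℝ) : val eq7 x y t = 36864000000000000000000 * (qf7 x x) := by
  simp only [nd0, nd2, nd34, nd37, nd40, nd43, nd46, nd134, nd135, nd136, nd137, nd138, nd139, nd140, nd141, nd142, nd143, eq7, val_f, val_h, val_m, val_vx]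
  unfold qf7
  push_cast
  ring

/-- real function of eS7 -/
noncomputable def f_eS7 (x y t : ℝ) : ℝ := f_eS6 x y t + qf7 x x * Zg 8 7 (f_eP x y t) (f_eM x y t)

theorem v_eS7 (x y t : ℝ) : val eS7 x y t = 13305600000000000000000000000000 * (f_eS7 x y t) := by
  simp only [nd2, nd133, nd145, eS7, v_eW7, v_eS6, v_eq7, val_f, val_h, val_m]
  unfold f_eS7
  push_cast
  ring

theorem v_eq8 (x y t : ℝ) : val eq8 x y t = (1000000000000000000 / 3) * (qf8 x x) := by
  simp only [nd0, nd2, nd34, nd37, nd40, nd43, nd46, nd148, nd149, nd150, nd151, nd152, nd153, nd154, eq8, val_f, val_h, val_m, val_vx]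
  unfold qf8
  push_cast
  ring

/-- real function of eS8 -/
noncomputable def f_eS8 (x y t : ℝ) : ℝ := f_eS7 x y t + qf8 x x * Zg 8 8 (f_eP x y t) (f_eM x y t)

theorem v_eS8 (x y t : ℝ) : val eS8 x y t = 864864000000000000000000000000000 * (f_eS8 x y t) := by
  simp only [nd2, nd147, nd156, eS8, v_eW8, v_eS7, v_eq8, val_f, val_h, val_m]
  unfold f_eS8
  push_cast
  ring

theorem v_eq9 (x y t : ℝ) : val eq9 x y t = 4096000000000000000000 * (qf9 x x) := by
  simp only [nd0, nd2, nd34, nd37, nd40, nd43, nd46, nd159, nd160, nd161, nd162, nd163, nd164, nd165, nd166, nd167, nd168, eq9, val_f, val_h, val_m, val_vx]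
  unfold qf9
  push_cast
  ring

/-- real function of eS9 -/
noncomputable def f_eS9 (x y t : ℝ) : ℝ := f_eS8 x y t + qf9 x x * Zg 8 9 (f_eP x y t) (f_eM x y t)

theorem v_eS9 (x y t : ℝ) : val eS9 x y t = 30270240000000000000000000000000000 * (f_eS9 x y t) := by
  simp only [nd2, nd158, nd170, eS9, v_eW9, v_eS8, v_eq9, val_f, val_h, val_m]
  unfold f_eS9
  push_cast
  ring

theorem v_eq10 (x y t : ℝ) : val eq10 x y t = 256000000000000000000 * (qf10 x x) := by
  simp only [nd0, nd2, nd34, nd37, nd40, nd43, nd46, nd173, nd174, nd175, nd176, nd177, nd178, nd179, nd180, nd181, nd182, eq10, val_f, val_h, val_m, val_vx]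
  unfold qf10
  push_cast
  ring

/-- real function of eS10 -/
noncomputable def f_eS10 (x y t : ℝ) : ℝ := f_eS9 x y t + qf10 x x * Zg 8 10 (f_eP x y t) (f_eM x y t)

theorem v_eS10 (x y t : ℝ) : val eS10 x y t = 756756000000000000000000000000000000 * (f_eS10 x y t) := by
  simp only [nd2, nd172, nd184, eS10, v_eW10, v_eS9, v_eq10, val_f, val_h, val_m]
  unfold f_eS10
  push_cast
  ring

theorem v_eq11 (x y t : ℝ) : val eq11 x y t = 1024000000000000000000 * (qf11 x x) := by
  simp only [nd0, nd2, nd34, nd37, nd40, nd43, nd46, nd187, nd188, nd189, nd190, nd191, nd192, nd193, nd194, nd195, nd196, eq11, val_f, val_h, val_m, val_vx]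
  unfold qf11
  push_cast
  ring

/-- real function of eS11 -/
noncomputable def f_eS11 (x y t : ℝ) : ℝ := f_eS10 x y t + qf11 x x * Zg 8 11 (f_eP x y t) (f_eM x y t)

theorem v_eS11 (x y t : ℝ) : val eS11 x y t = 3783780000000000000000000000000000000 * (f_eS11 x y t) := by
  simp only [nd2, nd186, nd198, eS11, v_eW11, v_eS10, v_eq11, val_f, val_h, val_m]
  unfold f_eS11
  push_cast
  ring

/-- real function of eV -/
noncomputable def f_eV (x y t : ℝ) : ℝ := (((((((((801889 / 10000000) + ((119707 / 10000000) * (x ^ 1))) + (((-170063) / 5000000) * (x ^ 2))) + (((-79121) / 5000000) * (x ^ 3))) + (((-134799) / 500000) * (x ^ 4))) + ((12686271 / 10000000) * (x ^ 5))) + (((-3606929) / 1000000) * (x ^ 6))) + ((27672357 / 5000000) * (x ^ 7))) + (((-4372693) / 1000000) * (x ^ 8))) + ((7019677 / 5000000) * (x ^ 9))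

theorem v_eV (x y t : ℝ) : val eV x y t = 10000000 * (f_eV x y t) := by
  simp only [nd0, nd2, nd34, nd37, nd40, nd43, nd46, nd200, nd201, nd202, nd203, nd204, nd205, nd206, nd207, nd208, nd209, nd210, nd211, nd212, nd213, nd214, nd215, nd216, nd217, nd218, eV, val_f, val_h, val_m, val_vx]
  unfold f_eV
  push_cast
  ring

/-- real function of el -/
noncomputable def f_el (x y t : ℝ) : ℝ := (((145313 / 240000000) + (((-470668807) / 600000000000) * (x ^ 1))) + ((14787196193 / 1200000000000) * (x ^ 2))) + (((-29142667463) / 2400000000000) * (x ^ 3))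

theorem v_el (x y t : ℝ) : val el x y t = (2400000000000 / 145313) * (f_el x y t) := by
  simp only [nd0, nd2, nd34, nd37, nd220, nd221, nd222, nd223, el, val_f, val_h, val_m, val_vx]
  unfold f_el
  push_cast
  ring


theorem KT_eq (x y t : ℝ) : f_eS11 x y t =
    Kt 11 4 cA x x (1 - 2 / 5 * x) ((1 - 2 / 5 * x) * (1 - 2 / 5 * x)) := by
  rw [Kt_eq]
  simp only [f_eS11, f_eS10, f_eS9, f_eS8, f_eS7, f_eS6, f_eS5, f_eS4, f_eS3, f_eS2, f_eS1, f_eP, f_eM]

theorem l_eq (x y t : ℝ) : ∑ i ∈ range 4, cA 0 i 0 * x ^ i = f_el x y t := by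
  unfold cA f_el
  simp only [sum_range_succ, sum_range_zero, cw, cL, cL0]
  ring

theorem V_eq (x y t : ℝ) : PW.VV x = f_eV x y t := by
  unfold PW.VV f_eV
  ring

end Pool.Agent.Lib.MP_f1379f_gt.FV.CU.V
end

section
/-!
# programs, chart U
-/
set_option autoImplicit false
set_option linter.unusedVariables false
set_option linter.unusedSimpArgs false
set_option linter.unusedTactic false
set_option linter.style.longLine false
set_option maxRecDepth 100000

namespace Pool.Agent.Lib.MP_f1379f_gt.FV.CU.U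

open Finset Pool.Agent.Lib.MP_f1379f_gt.FV Pool.Agent.Lib.MP_f1379f_gt.FV.BCH Pool.Agent.Lib.MP_f1379f_gt.FV.CU

/-- node -/
def nd0 : Ex := .v .x
/-- node -/
def nd1 : Ex := .v .y
/-- node -/
def nd2 : Ex := .v .t
/-- node -/
def nd4 : Ex := .m nd0 nd1
/-- node -/
def nd5 : Ex := .h .x
/-- node -/
def nd6 : Ex := .h .y
/-- node -/
def nd7 : Ex := .m nd5 nd6
/-- node -/
def nd8 : Ex := .m nd2 nd7
/-- node -/
def nd9 : Ex := .h .t
/-- node -/
def nd10 : Ex := .m nd4 nd9
/-- node -/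
def eP : Ex := .f 25 nd8 (-2) nd10
/-- node -/
def nd12 : Ex := .f 5 nd5 (-2) nd0
/-- node -/
def nd13 : Ex := .f 5 nd6 (-2) nd1
/-- node -/
def nd14 : Ex := .m nd12 nd13
/-- node -/
def nd15 : Ex := .m nd6 nd9
/-- node -/
def nd16 : Ex := .m nd5 nd15
/-- node -/
def nd17 : Ex := .m nd9 nd16
/-- node -/
def eM : Ex := .m nd14 nd17
/-- node -/
def nd19 : Ex := .m eP eP
/-- node -/
def eW2 : Ex := .f 8 nd19 (-25) eM
/-- node -/
def nd21 : Ex := .m eP eW2
/-- node -/
def nd22 : Ex := .m eM eP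
/-- node -/
def eW3 : Ex := .f 1 nd21 (-35) nd22
/-- node -/
def nd24 : Ex := .m eP eW3
/-- node -/
def nd25 : Ex := .m eM eW2
/-- node -/
def eW4 : Ex := .f 1 nd24 (-5) nd25
/-- node -/
def nd27 : Ex := .m eP eW4
/-- node -/
def nd28 : Ex := .m eM eW3
/-- node -/
def eW5 : Ex := .f 14 nd27 (-75) nd28
/-- node -/
def nd30 : Ex := .m eP eW5
/-- node -/
def nd31 : Ex := .m eM eW4
/-- node -/
def eW6 : Ex := .f 8 nd30 (-625) nd31
/-- node -/
def nd33 : Ex := .m eP eW6
/-- node -/
def nd34 : Ex := .m eM eW5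
/-- node -/
def eW7 : Ex := .f 6 nd33 (-275) nd34
/-- node -/
def nd36 : Ex := .m eP eW7
/-- node -/
def nd37 : Ex := .m eM eW6
/-- node -/
def eW8 : Ex := .f 1 nd36 (-35) nd37
/-- node -/
def nd39 : Ex := .m eP eW8
/-- node -/
def nd40 : Ex := .m eM eW7
/-- node -/
def eW9 : Ex := .f 11 nd39 (-65) nd40
/-- node -/
def nd42 : Ex := .m eP eW9
/-- node -/
def nd43 : Ex := .m eM eW8
/-- node -/
def eW10 : Ex := .f 8 nd42 (-525) nd43
/-- node -/
def nd45 : Ex := .m eP eW10
/-- node -/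
def nd46 : Ex := .m eM eW9
/-- node -/
def eW11 : Ex := .f 13 nd45 (-625) nd46
/-- node -/
def nd48 : Ex := .f 2500 nd6 (-3239) nd1
/-- node -/
def nd49 : Ex := .m nd1 nd1
/-- node -/
def nd50 : Ex := .m nd48 nd6
/-- node -/
def nd51 : Ex := .f 2 nd50 101761 nd49
/-- node -/
def nd52 : Ex := .m nd49 nd1
/-- node -/
def nd53 : Ex := .m nd51 nd6
/-- node -/
def nd54 : Ex := .f 2 nd53 (-200551) nd52
/-- node -/
def nd55 : Ex := .f (-28699317500) nd6 112847035753 nd1
/-- node -/
def nd56 : Ex := .m nd55 nd6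
/-- node -/
def nd57 : Ex := .f 2 nd56 (-1886544414047) nd49
/-- node -/
def nd58 : Ex := .m nd57 nd6
/-- node -/
def nd59 : Ex := .f 2 nd58 3482692780937 nd52
/-- node -/
def nd60 : Ex := .m nd0 nd59
/-- node -/
def nd61 : Ex := .m nd54 nd5
/-- node -/
def nd62 : Ex := .f 363282500 nd61 41 nd60
/-- node -/
def nd63 : Ex := .f 36967990482500 nd6 (-77348320975927) nd1
/-- node -/
def nd64 : Ex := .m nd63 nd6
/-- node -/
def nd65 : Ex := .f 10 nd64 8927340445277161 nd49
/-- node -/
def nd66 : Ex := .m nd65 nd6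
/-- node -/
def nd67 : Ex := .f 10 nd66 (-85682570200700711) nd52
/-- node -/
def nd68 : Ex := .m nd0 nd0
/-- node -/
def nd69 : Ex := .m nd68 nd67
/-- node -/
def nd70 : Ex := .m nd62 nd5
/-- node -/
def nd71 : Ex := .f 50 nd70 1 nd69
/-- node -/
def nd72 : Ex := .f (-72856668657500) nd6 142790404018417 nd1
/-- node -/
def nd73 : Ex := .m nd72 nd6
/-- node -/
def nd74 : Ex := .f 50 nd73 (-85682570200700711) nd49
/-- node -/
def nd75 : Ex := .m nd74 nd6
/-- node -/
def nd76 : Ex := .f 10 nd75 825534809344533181 nd52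
/-- node -/
def nd77 : Ex := .m nd68 nd0
/-- node -/
def nd78 : Ex := .m nd77 nd76
/-- node -/
def nd79 : Ex := .m nd71 nd5
/-- node -/
def eq0 : Ex := .f 10 nd79 1 nd78
/-- node -/
def nd81 : Ex := .m eq0 nd16
/-- node -/
def nd82 : Ex := .f 10000 nd6 (-8993) nd1
/-- node -/
def nd83 : Ex := .m nd82 nd6
/-- node -/
def nd84 : Ex := .f 1 nd83 225638 nd49
/-- node -/
def nd85 : Ex := .m nd84 nd6
/-- node -/
def nd86 : Ex := .f 1 nd85 (-191194) nd52
/-- node -/
def nd87 : Ex := .f (-1657455150347890000) nd6 8686582457091857477 nd1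
/-- node -/
def nd88 : Ex := .m nd87 nd6
/-- node -/
def nd89 : Ex := .f 1 nd88 (-72901554732762261182) nd49
/-- node -/
def nd90 : Ex := .m nd89 nd6
/-- node -/
def nd91 : Ex := .f 1 nd90 62166906737499803266 nd52
/-- node -/
def nd92 : Ex := .m nd0 nd91
/-- node -/
def nd93 : Ex := .m nd86 nd5
/-- node -/
def nd94 : Ex := .f 184305031730000 nd93 1 nd92
/-- node -/
def nd95 : Ex := .f 20793109374746870000 nd6 (-36450777366381130591) nd1
/-- node -/
def nd96 : Ex := .m nd95 nd6
/-- node -/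
def nd97 : Ex := .f 25 nd96 15740732921642194301962 nd49
/-- node -/
def nd98 : Ex := .m nd97 nd6
/-- node -/
def nd99 : Ex := .f 1 nd98 (-12442927185032128625078) nd52
/-- node -/
def nd100 : Ex := .m nd68 nd99
/-- node -/
def nd101 : Ex := .m nd94 nd5
/-- node -/
def nd102 : Ex := .f 25 nd101 2 nd100
/-- node -/
def nd103 : Ex := .f (-17619008118292810000) nd6 31083453368749901633 nd1
/-- node -/
def nd104 : Ex := .m nd103 nd6
/-- node -/
def nd105 : Ex := .f 25 nd104 (-12442927185032128625078) nd49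
/-- node -/
def nd106 : Ex := .m nd105 nd6
/-- node -/
def nd107 : Ex := .f 1 nd106 10249674460609267867786 nd52
/-- node -/
def nd108 : Ex := .m nd77 nd107
/-- node -/
def nd109 : Ex := .m nd102 nd5
/-- node -/
def eq1 : Ex := .f 1 nd109 2 nd108
/-- node -/
def nd111 : Ex := .m eq1 eP
/-- node -/
def eS1 : Ex := .f 102400 nd81 1 nd111
/-- node -/
def nd113 : Ex := .m eS1 nd16
/-- node -/
def nd114 : Ex := .f 10000 nd6 (-6311) nd1
/-- node -/
def nd115 : Ex := .m nd114 nd6
/-- node -/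
def nd116 : Ex := .f 1 nd115 251748 nd49
/-- node -/
def nd117 : Ex := .m nd116 nd6
/-- node -/
def nd118 : Ex := .f 1 nd117 (-167515) nd52
/-- node -/
def nd119 : Ex := .f (-76847098857410000) nd6 265651432069711451 nd1
/-- node -/
def nd120 : Ex := .m nd119 nd6
/-- node -/
def nd121 : Ex := .f 1 nd120 (-2927478333289339028) nd49
/-- node -/
def nd122 : Ex := .m nd121 nd6
/-- node -/
def nd123 : Ex := .f 1 nd122 1505782039181386495 nd52
/-- node -/
def nd124 : Ex := .m nd0 nd123
/-- node -/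
def nd125 : Ex := .m nd118 nd5
/-- node -/
def nd126 : Ex := .f 12176691310000 nd125 1 nd124
/-- node -/
def nd127 : Ex := .f 766364420977470000 nd6 (-731869583322334757) nd1
/-- node -/
def nd128 : Ex := .m nd127 nd6
/-- node -/
def nd129 : Ex := .f 375 nd128 8226351052136348590388 nd49
/-- node -/
def nd130 : Ex := .m nd129 nd6
/-- node -/
def nd131 : Ex := .f 1 nd130 (-4947869852980741744119) nd52
/-- node -/
def nd132 : Ex := .m nd68 nd131
/-- node -/
def nd133 : Ex := .m nd126 nd5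
/-- node -/
def nd134 : Ex := .f 375 nd133 4 nd132
/-- node -/
def nd135 : Ex := .f (-407955688958930000) nd6 301156407836277299 nd1
/-- node -/
def nd136 : Ex := .m nd135 nd6
/-- node -/
def nd137 : Ex := .f 625 nd136 (-6597159803974322325492) nd49
/-- node -/
def nd138 : Ex := .m nd137 nd6
/-- node -/
def nd139 : Ex := .f 1 nd138 4302659909140254077447 nd52
/-- node -/
def nd140 : Ex := .m nd77 nd139
/-- node -/
def nd141 : Ex := .m nd134 nd5
/-- node -/
def eq2 : Ex := .f 1 nd141 3 nd140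
/-- node -/
def nd143 : Ex := .m eq2 eW2
/-- node -/
def eS2 : Ex := .f 175 nd113 3 nd143
/-- node -/
def nd145 : Ex := .m eS2 nd16
/-- node -/
def nd146 : Ex := .f 5000 nd6 (-1463) nd1
/-- node -/
def nd147 : Ex := .m nd146 nd6
/-- node -/
def nd148 : Ex := .f 1 nd147 134903 nd49
/-- node -/
def nd149 : Ex := .m nd148 nd6
/-- node -/
def nd150 : Ex := .f 1 nd149 (-52778) nd52
/-- node -/
def nd151 : Ex := .f (-109520586313765000) nd6 431298854819407639 nd1
/-- node -/
def nd152 : Ex := .m nd151 nd6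
/-- node -/
def nd153 : Ex := .f 1 nd152 (-4205751266034153559) nd49
/-- node -/
def nd154 : Ex := .m nd153 nd6
/-- node -/
def nd155 : Ex := .f 1 nd154 (-562329976066678166) nd52
/-- node -/
def nd156 : Ex := .m nd0 nd155
/-- node -/
def nd157 : Ex := .m nd150 nd5
/-- node -/
def nd158 : Ex := .f 524021944085000 nd157 7 nd156
/-- node -/
def nd159 : Ex := .f 70692132322898755000 nd6 (-29440258862239074913) nd1
/-- node -/
def nd160 : Ex := .m nd159 nd6
/-- node -/
def nd161 : Ex := .f 25 nd160 51289309937142268111417 nd49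
/-- node -/
def nd162 : Ex := .m nd161 nd6
/-- node -/
def nd163 : Ex := .f 1 nd162 (-18066810008782933303030) nd52
/-- node -/
def nd164 : Ex := .m nd68 nd163
/-- node -/
def nd165 : Ex := .m nd158 nd5
/-- node -/
def nd166 : Ex := .f 25 nd165 1 nd164
/-- node -/
def nd167 : Ex := .f (-13828415082459065000) nd6 (-1968154916233373581) nd1
/-- node -/
def nd168 : Ex := .m nd167 nd6
/-- node -/
def nd169 : Ex := .f 5 nd168 (-1806681000878293330303) nd49
/-- node -/
def nd170 : Ex := .m nd169 nd6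
/-- node -/
def nd171 : Ex := .f 1 nd170 863579239350090961498 nd52
/-- node -/
def nd172 : Ex := .m nd77 nd171
/-- node -/
def nd173 : Ex := .m nd166 nd5
/-- node -/
def eq3 : Ex := .f 1 nd173 10 nd172
/-- node -/
def nd175 : Ex := .m eq3 eW3
/-- node -/
def eS3 : Ex := .f 5 nd145 1 nd175
/-- node -/
def nd177 : Ex := .m eS3 nd16
/-- node -/
def nd178 : Ex := .f 625 nd6 (-22) nd1
/-- node -/
def nd179 : Ex := .m nd178 nd6
/-- node -/
def nd180 : Ex := .f 16 nd179 287957 nd49
/-- node -/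
def nd181 : Ex := .m nd180 nd6
/-- node -/
def nd182 : Ex := .f 1 nd181 223 nd52
/-- node -/
def nd183 : Ex := .f (-7525679074375) nd6 9748951263418 nd1
/-- node -/
def nd184 : Ex := .m nd183 nd6
/-- node -/
def nd185 : Ex := .f 16 nd184 (-2427423500298179) nd49
/-- node -/
def nd186 : Ex := .m nd185 nd6
/-- node -/
def nd187 : Ex := .f 1 nd186 (-4067001579661801) nd52
/-- node -/
def nd188 : Ex := .m nd0 nd187
/-- node -/
def nd189 : Ex := .m nd182 nd5
/-- node -/
def nd190 : Ex := .f 684152643125 nd189 2 nd188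
/-- node -/
def nd191 : Ex := .f 197006542656345625 nd6 (-4854847000596358) nd1
/-- node -/
def nd192 : Ex := .m nd191 nd6
/-- node -/
def nd193 : Ex := .f 10000 nd192 56873692960550933489357 nd49
/-- node -/
def nd194 : Ex := .m nd193 nd6
/-- node -/
def nd195 : Ex := .f 1 nd194 (-513529381253102305337) nd52
/-- node -/
def nd196 : Ex := .m nd68 nd195
/-- node -/
def nd197 : Ex := .m nd190 nd5
/-- node -/
def nd198 : Ex := .f 10000 nd197 1 nd196
/-- node -/
def nd199 : Ex := .f 152566039416875 nd6 (-8134003159323602) nd1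
/-- node -/
def nd200 : Ex := .m nd199 nd6
/-- node -/
def nd201 : Ex := .f 10000 nd200 (-513529381253102305337) nd49
/-- node -/
def nd202 : Ex := .m nd201 nd6
/-- node -/
def nd203 : Ex := .f 5 nd202 10893087659787792034633 nd52
/-- node -/
def nd204 : Ex := .m nd77 nd203
/-- node -/
def nd205 : Ex := .m nd198 nd5
/-- node -/
def eq4 : Ex := .f 5 nd205 1 nd204
/-- node -/
def nd207 : Ex := .m eq4 eW4
/-- node -/
def eS4 : Ex := .f 75 nd177 1 nd207
/-- node -/
def nd209 : Ex := .m eS4 nd16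
/-- node -/
def nd210 : Ex := .f 625 nd6 259 nd1
/-- node -/
def nd211 : Ex := .m nd210 nd6
/-- node -/
def nd212 : Ex := .f 8 nd211 137979 nd49
/-- node -/
def nd213 : Ex := .m nd212 nd6
/-- node -/
def nd214 : Ex := .f 1 nd213 114412 nd52
/-- node -/
def nd215 : Ex := .f 824836221461875 nd6 341885282173801 nd1
/-- node -/
def nd216 : Ex := .m nd215 nd6
/-- node -/
def nd217 : Ex := .f 8 nd216 182101838655283281 nd49
/-- node -/
def nd218 : Ex := .m nd217 nd6
/-- node -/
def nd219 : Ex := .f 1 nd218 150998598320652868 nd52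
/-- node -/
def nd220 : Ex := .m nd0 nd219
/-- node -/
def nd221 : Ex := .m nd214 nd5
/-- node -/
def nd222 : Ex := .f 117833745923125 nd221 37 nd220
/-- node -/
def nd223 : Ex := .f 1806509158747429375 nd6 748640892249497933 nd1
/-- node -/
def nd224 : Ex := .m nd223 nd6
/-- node -/
def nd225 : Ex := .f 200 nd224 9970726455908076316621 nd49
/-- node -/
def nd226 : Ex := .m nd225 nd6
/-- node -/
def nd227 : Ex := .f 1 nd226 8267712533174787183668 nd52
/-- node -/
def nd228 : Ex := .m nd68 nd227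
/-- node -/
def nd229 : Ex := .m nd222 nd5
/-- node -/
def nd230 : Ex := .f 200 nd229 9 nd228
/-- node -/
def nd231 : Ex := .f 3370398634639144375 nd6 1396737034466039029 nd1
/-- node -/
def nd232 : Ex := .m nd231 nd6
/-- node -/
def nd233 : Ex := .f 200 nd232 18602353199643271163253 nd49
/-- node -/
def nd234 : Ex := .m nd233 nd6
/-- node -/
def nd235 : Ex := .f 1 nd234 15425047011821592960724 nd52
/-- node -/
def nd236 : Ex := .m nd77 nd235
/-- node -/
def nd237 : Ex := .m nd230 nd5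
/-- node -/
def eq5 : Ex := .f 1 nd237 4 nd236
/-- node -/
def nd239 : Ex := .m eq5 eW5
/-- node -/
def eS5 : Ex := .f 375 nd209 4 nd239
/-- node -/
def nd241 : Ex := .m eS5 nd16
/-- node -/
def nd242 : Ex := .f 2000 nd6 1651 nd1
/-- node -/
def nd243 : Ex := .m nd242 nd6
/-- node -/
def nd244 : Ex := .f 1 nd243 48200 nd49
/-- node -/
def nd245 : Ex := .m nd244 nd6
/-- node -/
def nd246 : Ex := .f 5 nd245 634908 nd52
/-- node -/
def nd247 : Ex := .f 49072641066358000 nd6 40514775189142529 nd1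
/-- node -/
def nd248 : Ex := .m nd247 nd6
/-- node -/
def nd249 : Ex := .f 5 nd248 5913568000741047032 nd49
/-- node -/
def nd250 : Ex := .m nd249 nd6
/-- node -/
def nd251 : Ex := .f 1 nd250 15579135442110536820 nd52
/-- node -/
def nd252 : Ex := .m nd0 nd251
/-- node -/
def nd253 : Ex := .m nd246 nd5
/-- node -/
def nd254 : Ex := .f 29722980658000 nd253 1 nd252
/-- node -/
def nd255 : Ex := .f 895404792322250000 nd6 739196000092630879 nd1
/-- node -/
def nd256 : Ex := .m nd255 nd6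
/-- node -/
def nd257 : Ex := .f 625 nd256 13487753803614519469544 nd49
/-- node -/
def nd258 : Ex := .m nd257 nd6
/-- node -/
def nd259 : Ex := .f 1 nd258 35533120330138258482396 nd52
/-- node -/
def nd260 : Ex := .m nd68 nd259
/-- node -/
def nd261 : Ex := .m nd254 nd5
/-- node -/
def nd262 : Ex := .f 625 nd261 8 nd260
/-- node -/
def nd263 : Ex := .f 314522636726824400 nd6 259652257368508947 nd1
/-- node -/
def nd264 : Ex := .m nd263 nd6
/-- node -/
def nd265 : Ex := .f 3125 nd264 23688746886758838988264 nd49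
/-- node -/
def nd266 : Ex := .m nd265 nd6
/-- node -/
def nd267 : Ex := .f 1 nd266 62407365600935497007324 nd52
/-- node -/
def nd268 : Ex := .m nd77 nd267
/-- node -/
def nd269 : Ex := .m nd262 nd5
/-- node -/
def eq6 : Ex := .f 1 nd269 12 nd268
/-- node -/
def nd271 : Ex := .m eq6 eW6
/-- node -/
def eS6 : Ex := .f 275 nd241 3 nd271
/-- node -/
def nd273 : Ex := .m eS6 nd16
/-- node -/
def nd274 : Ex := .f 10000 nd6 30297 nd1
/-- node -/
def nd275 : Ex := .m nd274 nd6
/-- node -/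
def nd276 : Ex := .f 1 nd275 (-86772) nd49
/-- node -/
def nd277 : Ex := .m nd276 nd6
/-- node -/
def nd278 : Ex := .f 1 nd277 2104998 nd52
/-- node -/
def nd279 : Ex := .f 1297612119447830000 nd6 3932180223647890551 nd1
/-- node -/
def nd280 : Ex := .m nd279 nd6
/-- node -/
def nd281 : Ex := .f 1 nd280 (-11261719126320538956) nd49
/-- node -/
def nd282 : Ex := .m nd281 nd6
/-- node -/
def nd283 : Ex := .f 1 nd282 273197529612096909114 nd52
/-- node -/
def nd284 : Ex := .m nd0 nd283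
/-- node -/
def nd285 : Ex := .m nd278 nd5
/-- node -/
def nd286 : Ex := .f 128489169170000 nd285 3 nd284
/-- node -/
def nd287 : Ex := .f (-929105182268270000) nd6 (-2815429781580134739) nd1
/-- node -/
def nd288 : Ex := .m nd287 nd6
/-- node -/
def nd289 : Ex := .f 125 nd288 1007942534113148107404 nd49
/-- node -/
def nd290 : Ex := .m nd289 nd6
/-- node -/
def nd291 : Ex := .f 1 nd290 (-24451571272596041193114) nd52
/-- node -/
def nd292 : Ex := .m nd68 nd291
/-- node -/
def nd293 : Ex := .m nd286 nd5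
/-- node -/
def nd294 : Ex := .f 125 nd293 12 nd292
/-- node -/
def nd295 : Ex := .f 45078240687418610000 nd6 136598764806048454557 nd1
/-- node -/
def nd296 : Ex := .m nd295 nd6
/-- node -/
def nd297 : Ex := .f 125 nd296 (-48903142545192082386228) nd49
/-- node -/
def nd298 : Ex := .m nd297 nd6
/-- node -/
def nd299 : Ex := .f 1 nd298 1186339109903828724269958 nd52
/-- node -/
def nd300 : Ex := .m nd77 nd299
/-- node -/
def nd301 : Ex := .m nd294 nd5
/-- node -/
def eq7 : Ex := .f 1 nd301 6 nd300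
/-- node -/
def nd303 : Ex := .m eq7 eW7
/-- node -/
def eS7 : Ex := .f 100 nd273 1 nd303
/-- node -/
def nd305 : Ex := .m eS7 nd16
/-- node -/
def nd306 : Ex := .m nd1 nd6
/-- node -/
def nd307 : Ex := .f 2500 nd306 (-73819) nd49
/-- node -/
def nd308 : Ex := .m nd307 nd6
/-- node -/
def nd309 : Ex := .f 4 nd308 911717 nd52
/-- node -/
def nd310 : Ex := .m nd0 nd309
/-- node -/
def nd311 : Ex := .f (-21638409741932500) nd306 638930308258386087 nd49
/-- node -/
def nd312 : Ex := .m nd311 nd6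
/-- node -/
def nd313 : Ex := .f 4 nd312 (-7891242416608969241) nd52
/-- node -/
def nd314 : Ex := .m nd68 nd313
/-- node -/
def nd315 : Ex := .m nd310 nd5
/-- node -/
def nd316 : Ex := .f 293127917500 nd315 1 nd314
/-- node -/
def nd317 : Ex := .f 267249705559347500 nd306 (-7891242416608969241) nd49
/-- node -/
def nd318 : Ex := .m nd317 nd6
/-- node -/
def nd319 : Ex := .f 4 nd318 97462440073809176615 nd52
/-- node -/
def nd320 : Ex := .m nd77 nd319
/-- node -/
def nd321 : Ex := .m nd316 nd5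
/-- node -/
def eq8 : Ex := .f 4 nd321 1 nd320
/-- node -/
def nd323 : Ex := .m eq8 eW8
/-- node -/
def eS8 : Ex := .f 65 nd305 442368 nd323
/-- node -/
def nd325 : Ex := .m eS8 nd16
/-- node -/
def nd326 : Ex := .f 8 nd6 (-5) nd1
/-- node -/
def nd327 : Ex := .m nd326 nd6
/-- node -/
def nd328 : Ex := .f 625 nd327 1352043 nd49
/-- node -/
def nd329 : Ex := .m nd328 nd6
/-- node -/
def nd330 : Ex := .f 2 nd329 (-8501011) nd52
/-- node -/
def nd331 : Ex := .f (-558623359000) nd6 352063291407 nd1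
/-- node -/
def nd332 : Ex := .m nd331 nd6
/-- node -/
def nd333 : Ex := .f 625 nd332 (-94632425878152257) nd49
/-- node -/
def nd334 : Ex := .m nd333 nd6
/-- node -/
def nd335 : Ex := .f 2 nd334 595004217652520249 nd52
/-- node -/
def nd336 : Ex := .m nd0 nd335
/-- node -/
def nd337 : Ex := .m nd330 nd5
/-- node -/
def nd338 : Ex := .f 111724671800 nd337 1 nd336
/-- node -/
def nd339 : Ex := .f 151056560434487400 nd6 (-94632425878152257) nd1
/-- node -/
def nd340 : Ex := .m nd339 nd6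
/-- node -/
def nd341 : Ex := .f 625 nd340 25589423703872343953007 nd49
/-- node -/
def nd342 : Ex := .m nd341 nd6
/-- node -/
def nd343 : Ex := .f 2 nd342 (-160894264715316814890999) nd52
/-- node -/
def nd344 : Ex := .m nd68 nd343
/-- node -/
def nd345 : Ex := .m nd338 nd5
/-- node -/
def nd346 : Ex := .f 625 nd345 1 nd344
/-- node -/
def nd347 : Ex := .f (-135681809134741400) nd6 85000602521788607 nd1
/-- node -/
def nd348 : Ex := .m nd347 nd6
/-- node -/
def nd349 : Ex := .f 625 nd348 (-22984894959330973555857) nd49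
/-- node -/
def nd350 : Ex := .m nd349 nd6
/-- node -/
def nd351 : Ex := .f 14 nd350 1011627523753792710376767 nd52
/-- node -/
def nd352 : Ex := .m nd77 nd351
/-- node -/
def nd353 : Ex := .m nd346 nd5
/-- node -/
def eq9 : Ex := .f 2 nd353 1 nd352
/-- node -/
def nd355 : Ex := .m eq9 eW9
/-- node -/
def eS9 : Ex := .f 175 nd325 36 nd355
/-- node -/
def nd357 : Ex := .m eS9 nd16
/-- node -/
def nd358 : Ex := .f 1250 nd6 261 nd1
/-- node -/
def nd359 : Ex := .m nd358 nd6
/-- node -/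
def nd360 : Ex := .f 1 nd359 155383 nd49
/-- node -/
def nd361 : Ex := .m nd360 nd6
/-- node -/
def nd362 : Ex := .f 2 nd361 (-599445) nd52
/-- node -/
def nd363 : Ex := .f 172588749401250 nd6 36465023674981 nd1
/-- node -/
def nd364 : Ex := .m nd363 nd6
/-- node -/
def nd365 : Ex := .f 1 nd364 21464529965422103 nd49
/-- node -/
def nd366 : Ex := .m nd365 nd6
/-- node -/
def nd367 : Ex := .f 2 nd366 (-82807033201382645) nd52
/-- node -/
def nd368 : Ex := .m nd0 nd367
/-- node -/
def nd369 : Ex := .m nd362 nd5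
/-- node -/
def nd370 : Ex := .f 661259576250 nd369 1 nd368
/-- node -/
def nd371 : Ex := .f 14678356676636250 nd6 3066361423631729 nd1
/-- node -/
def nd372 : Ex := .m nd371 nd6
/-- node -/
def nd373 : Ex := .f 875 nd372 1597329204455406463689 nd49
/-- node -/
def nd374 : Ex := .m nd373 nd6
/-- node -/
def nd375 : Ex := .f 2 nd374 (-6162263408348130298795) nd52
/-- node -/
def nd376 : Ex := .m nd68 nd375
/-- node -/
def nd377 : Ex := .m nd370 nd5
/-- node -/
def nd378 : Ex := .f 125 nd377 1 nd376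
/-- node -/
def nd379 : Ex := .f (-79277749337036250) nd6 (-16561406640276529) nd1
/-- node -/
def nd380 : Ex := .m nd379 nd6
/-- node -/
def nd381 : Ex := .f 125 nd380 (-1232452681669626059759) nd49
/-- node -/
def nd382 : Ex := .m nd381 nd6
/-- node -/
def nd383 : Ex := .f 10 nd382 23773115621427727103473 nd52
/-- node -/
def nd384 : Ex := .m nd77 nd383
/-- node -/
def nd385 : Ex := .m nd378 nd5
/-- node -/
def eq10 : Ex := .f 2 nd385 1 nd384
/-- node -/
def nd387 : Ex := .m eq10 eW10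
/-- node -/
def eS10 : Ex := .f 125 nd357 576 nd387
/-- node -/
def nd389 : Ex := .m eS10 nd16
/-- node -/
def nd390 : Ex := .f 10000 nd6 106313 nd1
/-- node -/
def nd391 : Ex := .m nd390 nd6
/-- node -/
def nd392 : Ex := .f 1 nd391 (-195843) nd49
/-- node -/
def nd393 : Ex := .m nd392 nd6
/-- node -/
def nd394 : Ex := .f 1 nd393 3037620 nd52
/-- node -/
def nd395 : Ex := .f 9507657703530000 nd6 101162050226738489 nd1
/-- node -/
def nd396 : Ex := .m nd395 nd6
/-- node -/
def nd397 : Ex := .f 1 nd396 (-186352906263965779) nd49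
/-- node -/
def nd398 : Ex := .m nd397 nd6
/-- node -/
def nd399 : Ex := .f 1 nd398 2890424027089670260 nd52
/-- node -/
def nd400 : Ex := .m nd0 nd399
/-- node -/
def nd401 : Ex := .m nd394 nd5
/-- node -/
def nd402 : Ex := .f 89430810000 nd401 1 nd400
/-- node -/
def nd403 : Ex := .f (-17514398122830000) nd6 (-186352906263965779) nd1
/-- node -/
def nd404 : Ex := .m nd403 nd6
/-- node -/
def nd405 : Ex := .f 45 nd404 15447965935080705949 nd49
/-- node -/
def nd406 : Ex := .m nd405 nd6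
/-- node -/
def nd407 : Ex := .f 1 nd406 (-239604931328743685068) nd52
/-- node -/
def nd408 : Ex := .m nd68 nd407
/-- node -/
def nd409 : Ex := .m nd402 nd5
/-- node -/
def nd410 : Ex := .f 45 nd409 1 nd408
/-- node -/
def nd411 : Ex := .f 1940405836230000 nd6 20645885907783359 nd1
/-- node -/
def nd412 : Ex := .m nd411 nd6
/-- node -/
def nd413 : Ex := .f 225 nd412 (-8557318976026560181) nd49
/-- node -/
def nd414 : Ex := .m nd413 nd6
/-- node -/
def nd415 : Ex := .f 175 nd414 23227430216556157799636 nd52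
/-- node -/
def nd416 : Ex := .m nd77 nd415
/-- node -/
def nd417 : Ex := .m nd410 nd5
/-- node -/
def eq11 : Ex := .f 25 nd417 4 nd416
/-- node -/
def nd419 : Ex := .m eq11 eW11
/-- node -/
def eS11 : Ex := .f 25 nd389 18 nd419
/-- node -/
def nd421 : Ex := .f 1 nd2 1 nd9
/-- node -/
def nd422 : Ex := .f 2 nd2 1 nd9
/-- node -/
def nd423 : Ex := .m nd422 nd422
/-- node -/
def nd424 : Ex := .m nd421 nd423
/-- node -/
def nd425 : Ex := .m nd2 nd2
/-- node -/
def eB : Ex := .m nd424 nd425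
/-- node -/
def nd427 : Ex := .m nd12 nd6
/-- node -/
def nd428 : Ex := .m nd13 nd5
/-- node -/
def nd429 : Ex := .f 1 nd427 1 nd428
/-- node -/
def nd430 : Ex := .m nd429 nd9
/-- node -/
def eD2 : Ex := .f 5 nd430 (-2) eP
/-- node -/
def eDd : Ex := .f 25 eM (-1) nd19
/-- node -/
def nd433 : Ex := .f 1 nd5 (-1) nd0
/-- node -/
def nd434 : Ex := .f 1 nd6 (-1) nd1
/-- node -/
def eR1 : Ex := .m nd433 nd434
/-- node -/
def nd436 : Ex := .m eR1 eR1
/-- node -/
def eR3 : Ex := .m nd436 eR1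
/-- node -/
def eK3 : Ex := .m eR3 eS11

/-- real function of eP -/
noncomputable def f_eP (x y t : ℝ) : ℝ := t - (((2 / 25) * x) * y)

theorem v_eP (x y t : ℝ) : val eP x y t = 25 * (f_eP x y t) := by
  simp only [nd0, nd1, nd2, nd4, nd5, nd6, nd7, nd8, nd9, nd10, eP, val_f, val_h, val_m, val_vt, val_vx, val_vy]
  unfold f_eP
  push_cast
  ring

/-- real function of eM -/
noncomputable def f_eM (x y t : ℝ) : ℝ := (1 - ((2 / 5) * x)) * (1 - ((2 / 5) * y))

theorem v_eM (x y t : ℝ) : val eM x y t = 25 * (f_eM x y t) := by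
  simp only [nd0, nd1, nd5, nd6, nd9, nd12, nd13, nd14, nd15, nd16, nd17, eM, val_f, val_h, val_m, val_vx, val_vy]
  unfold f_eM
  push_cast
  ring

theorem v_eW2 (x y t : ℝ) : val eW2 x y t = 4375 * (Zg 8 2 (f_eP x y t) (f_eM x y t)) := by
  simp only [nd19, eW2, v_eP, v_eM, val_f, val_m]
  rw [zg_2]
  rw [zg_0, zg_1]
  push_cast
  ring

theorem v_eW3 (x y t : ℝ) : val eW3 x y t = 87500 * (Zg 8 3 (f_eP x y t) (f_eM x y t)) := by
  simp only [nd21, nd22, eW3, v_eP, v_eM, v_eW2, val_f, val_m]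
  rw [zg_3]
  rw [zg_1]
  push_cast
  ring

theorem v_eW4 (x y t : ℝ) : val eW4 x y t = 1640625 * (Zg 8 4 (f_eP x y t) (f_eM x y t)) := by
  simp only [nd24, nd25, eW4, v_eP, v_eM, v_eW2, v_eW3, val_f, val_m]
  rw [zg_4]
  push_cast
  ring

theorem v_eW5 (x y t : ℝ) : val eW5 x y t = 410156250 * (Zg 8 5 (f_eP x y t) (f_eM x y t)) := by
  simp only [nd27, nd28, eW5, v_eP, v_eM, v_eW3, v_eW4, val_f, val_m]
  rw [zg_5]
  push_cast
  ring

theorem v_eW6 (x y t : ℝ) : val eW6 x y t = 56396484375 * (Zg 8 6 (f_eP x y t) (f_eM x y t)) := by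
  simp only [nd30, nd31, eW6, v_eP, v_eM, v_eW4, v_eW5, val_f, val_m]
  rw [zg_6]
  push_cast
  ring

theorem v_eW7 (x y t : ℝ) : val eW7 x y t = 5639648437500 * (Zg 8 7 (f_eP x y t) (f_eM x y t)) := by
  simp only [nd33, nd34, eW7, v_eP, v_eM, v_eW5, v_eW6, val_f, val_m]
  rw [zg_7]
  push_cast
  ring

theorem v_eW8 (x y t : ℝ) : val eW8 x y t = 91644287109375 * (Zg 8 8 (f_eP x y t) (f_eM x y t)) := by
  simp only [nd36, nd37, eW8, v_eP, v_eM, v_eW6, v_eW7, val_f, val_m]
  rw [zg_8]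
  push_cast
  ring

theorem v_eW9 (x y t : ℝ) : val eW9 x y t = 16037750244140625 * (Zg 8 9 (f_eP x y t) (f_eM x y t)) := by
  simp only [nd39, nd40, eW9, v_eP, v_eM, v_eW7, v_eW8, val_f, val_m]
  rw [zg_9]
  push_cast
  ring

theorem v_eW10 (x y t : ℝ) : val eW10 x y t = 2004718780517578125 * (Zg 8 10 (f_eP x y t) (f_eM x y t)) := by
  simp only [nd42, nd43, eW10, v_eP, v_eM, v_eW8, v_eW9, val_f, val_m]
  rw [zg_10]
  push_cast
  ring

theorem v_eW11 (x y t : ℝ) : val eW11 x y t = 400943756103515625000 * (Zg 8 11 (f_eP x y t) (f_eM x y t)) := by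
  simp only [nd45, nd46, eW11, v_eP, v_eM, v_eW9, v_eW10, val_f, val_m]
  rw [zg_11]
  push_cast
  ring

theorem v_eq0 (x y t : ℝ) : val eq0 x y t = 3000000000000000000 * (qf0 x y) := by
  simp only [nd0, nd1, nd5, nd6, nd48, nd49, nd50, nd51, nd52, nd53, nd54, nd55, nd56, nd57, nd58, nd59, nd60, nd61, nd62, nd63, nd64, nd65, nd66, nd67, nd68, nd69, nd70, nd71, nd72, nd73, nd74, nd75, nd76, nd77, nd78, nd79, eq0, val_f, val_h, val_m, val_vx, val_vy]
  unfold qf0
  push_cast
  ring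

theorem v_eq1 (x y t : ℝ) : val eq1 x y t = 12288000000000000000000 * (qf1 x y) := by
  simp only [nd0, nd1, nd5, nd6, nd49, nd52, nd68, nd77, nd82, nd83, nd84, nd85, nd86, nd87, nd88, nd89, nd90, nd91, nd92, nd93, nd94, nd95, nd96, nd97, nd98, nd99, nd100, nd101, nd102, nd103, nd104, nd105, nd106, nd107, nd108, nd109, eq1, val_f, val_h, val_m, val_vx, val_vy]
  unfold qf1
  push_cast
  ring

/-- real function of eS1 -/
noncomputable def f_eS1 (x y t : ℝ) : ℝ := qf0 x y * Zg 8 0 (f_eP x y t) (f_eM x y t) + qf1 x y * Zg 8 1 (f_eP x y t) (f_eM x y t)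

theorem v_eS1 (x y t : ℝ) : val eS1 x y t = 307200000000000000000000 * (f_eS1 x y t) := by
  simp only [nd5, nd6, nd9, nd15, nd16, nd81, nd111, eS1, v_eP, v_eq0, v_eq1, val_f, val_h, val_m]
  unfold f_eS1
  rw [zg_0, zg_1]
  push_cast
  ring

theorem v_eq2 (x y t : ℝ) : val eq2 x y t = 4096000000000000000000 * (qf2 x y) := by
  simp only [nd0, nd1, nd5, nd6, nd49, nd52, nd68, nd77, nd114, nd115, nd116, nd117, nd118, nd119, nd120, nd121, nd122, nd123, nd124, nd125, nd126, nd127, nd128, nd129, nd130, nd131, nd132, nd133, nd134, nd135, nd136, nd137, nd138, nd139, nd140, nd141, eq2, val_f, val_h, val_m, val_vx, val_vy]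
  unfold qf2
  push_cast
  ring

/-- real function of eS2 -/
noncomputable def f_eS2 (x y t : ℝ) : ℝ := f_eS1 x y t + qf2 x y * Zg 8 2 (f_eP x y t) (f_eM x y t)

theorem v_eS2 (x y t : ℝ) : val eS2 x y t = 53760000000000000000000000 * (f_eS2 x y t) := by
  simp only [nd5, nd6, nd9, nd15, nd16, nd113, nd143, eS2, v_eW2, v_eS1, v_eq2, val_f, val_h, val_m]
  unfold f_eS2
  push_cast
  ring

theorem v_eq3 (x y t : ℝ) : val eq3 x y t = 3072000000000000000000 * (qf3 x y) := by
  simp only [nd0, nd1, nd5, nd6, nd49, nd52, nd68, nd77, nd146, nd147, nd148, nd149, nd150, nd151, nd152, nd153, nd154, nd155, nd156, nd157, nd158, nd159, nd160, nd161, nd162, nd163, nd164, nd165, nd166, nd167, nd168, nd169, nd170, nd171, nd172, nd173, eq3, val_f, val_h, val_m, val_vx, val_vy]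
  unfold qf3
  push_cast
  ring

/-- real function of eS3 -/
noncomputable def f_eS3 (x y t : ℝ) : ℝ := f_eS2 x y t + qf3 x y * Zg 8 3 (f_eP x y t) (f_eM x y t)

theorem v_eS3 (x y t : ℝ) : val eS3 x y t = 268800000000000000000000000 * (f_eS3 x y t) := by
  simp only [nd5, nd6, nd9, nd15, nd16, nd145, nd175, eS3, v_eW3, v_eS2, v_eq3, val_f, val_h, val_m]
  unfold f_eS3
  push_cast
  ring

theorem v_eq4 (x y t : ℝ) : val eq4 x y t = 12288000000000000000000 * (qf4 x y) := by
  simp only [nd0, nd1, nd5, nd6, nd49, nd52, nd68, nd77, nd178, nd179, nd180, nd181, nd182, nd183, nd184, nd185, nd186, nd187, nd188, nd189, nd190, nd191, nd192, nd193, nd194, nd195, nd196, nd197, nd198, nd199, nd200, nd201, nd202, nd203, nd204, nd205, eq4, val_f, val_h, val_m, val_vx, val_vy]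
  unfold qf4
  push_cast
  ring

/-- real function of eS4 -/
noncomputable def f_eS4 (x y t : ℝ) : ℝ := f_eS3 x y t + qf4 x y * Zg 8 4 (f_eP x y t) (f_eM x y t)

theorem v_eS4 (x y t : ℝ) : val eS4 x y t = 20160000000000000000000000000 * (f_eS4 x y t) := by
  simp only [nd5, nd6, nd9, nd15, nd16, nd177, nd207, eS4, v_eW4, v_eS3, v_eq4, val_f, val_h, val_m]
  unfold f_eS4
  push_cast
  ring

theorem v_eq5 (x y t : ℝ) : val eq5 x y t = 4608000000000000000000 * (qf5 x y) := by
  simp only [nd0, nd1, nd5, nd6, nd49, nd52, nd68, nd77, nd210, nd211, nd212, nd213, nd214, nd215, nd216, nd217, nd218, nd219, nd220, nd221, nd222, nd223, nd224, nd225, nd226, nd227, nd228, nd229, nd230, nd231, nd232, nd233, nd234, nd235, nd236, nd237, eq5, val_f, val_h, val_m, val_vx, val_vy]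
  unfold qf5
  push_cast
  ring

/-- real function of eS5 -/
noncomputable def f_eS5 (x y t : ℝ) : ℝ := f_eS4 x y t + qf5 x y * Zg 8 5 (f_eP x y t) (f_eM x y t)

theorem v_eS5 (x y t : ℝ) : val eS5 x y t = 7560000000000000000000000000000 * (f_eS5 x y t) := by
  simp only [nd5, nd6, nd9, nd15, nd16, nd209, nd239, eS5, v_eW5, v_eS4, v_eq5, val_f, val_h, val_m]
  unfold f_eS5
  push_cast
  ring

theorem v_eq6 (x y t : ℝ) : val eq6 x y t = 12288000000000000000000 * (qf6 x y) := by
  simp only [nd0, nd1, nd5, nd6, nd49, nd52, nd68, nd77, nd242, nd243, nd244, nd245, nd246, nd247, nd248, nd249, nd250, nd251, nd252, nd253, nd254, nd255, nd256, nd257, nd258, nd259, nd260, nd261, nd262, nd263, nd264, nd265, nd266, nd267, nd268, nd269, eq6, val_f, val_h, val_m, val_vx, val_vy]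
  unfold qf6
  push_cast
  ring

/-- real function of eS6 -/
noncomputable def f_eS6 (x y t : ℝ) : ℝ := f_eS5 x y t + qf6 x y * Zg 8 6 (f_eP x y t) (f_eM x y t)

theorem v_eS6 (x y t : ℝ) : val eS6 x y t = 2079000000000000000000000000000000 * (f_eS6 x y t) := by
  simp only [nd5, nd6, nd9, nd15, nd16, nd241, nd271, eS6, v_eW6, v_eS5, v_eq6, val_f, val_h, val_m]
  unfold f_eS6
  push_cast
  ring

theorem v_eq7 (x y t : ℝ) : val eq7 x y t = 36864000000000000000000 * (qf7 x y) := by
  simp only [nd0, nd1, nd5, nd6, nd49, nd52, nd68, nd77, nd274, nd275, nd276, nd277, nd278, nd279, nd280, nd281, nd282, nd283, nd284, nd285, nd286, nd287, nd288, nd289, nd290, nd291, nd292, nd293, nd294, nd295, nd296, nd297, nd298, nd299, nd300, nd301, eq7, val_f, val_h, val_m, val_vx, val_vy]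
  unfold qf7
  push_cast
  ring

/-- real function of eS7 -/
noncomputable def f_eS7 (x y t : ℝ) : ℝ := f_eS6 x y t + qf7 x y * Zg 8 7 (f_eP x y t) (f_eM x y t)

theorem v_eS7 (x y t : ℝ) : val eS7 x y t = 207900000000000000000000000000000000 * (f_eS7 x y t) := by
  simp only [nd5, nd6, nd9, nd15, nd16, nd273, nd303, eS7, v_eW7, v_eS6, v_eq7, val_f, val_h, val_m]
  unfold f_eS7
  push_cast
  ring

theorem v_eq8 (x y t : ℝ) : val eq8 x y t = (1000000000000000000 / 3) * (qf8 x y) := by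
  simp only [nd0, nd1, nd5, nd6, nd49, nd52, nd68, nd77, nd306, nd307, nd308, nd309, nd310, nd311, nd312, nd313, nd314, nd315, nd316, nd317, nd318, nd319, nd320, nd321, eq8, val_f, val_h, val_m, val_vx, val_vy]
  unfold qf8
  push_cast
  ring

/-- real function of eS8 -/
noncomputable def f_eS8 (x y t : ℝ) : ℝ := f_eS7 x y t + qf8 x y * Zg 8 8 (f_eP x y t) (f_eM x y t)

theorem v_eS8 (x y t : ℝ) : val eS8 x y t = 13513500000000000000000000000000000000 * (f_eS8 x y t) := by
  simp only [nd5, nd6, nd9, nd15, nd16, nd305, nd323, eS8, v_eW8, v_eS7, v_eq8, val_f, val_h, val_m]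
  unfold f_eS8
  push_cast
  ring

theorem v_eq9 (x y t : ℝ) : val eq9 x y t = 4096000000000000000000 * (qf9 x y) := by
  simp only [nd0, nd1, nd5, nd6, nd49, nd52, nd68, nd77, nd326, nd327, nd328, nd329, nd330, nd331, nd332, nd333, nd334, nd335, nd336, nd337, nd338, nd339, nd340, nd341, nd342, nd343, nd344, nd345, nd346, nd347, nd348, nd349, nd350, nd351, nd352, nd353, eq9, val_f, val_h, val_m, val_vx, val_vy]
  unfold qf9
  push_cast
  ring

/-- real function of eS9 -/
noncomputable def f_eS9 (x y t : ℝ) : ℝ := f_eS8 x y t + qf9 x y * Zg 8 9 (f_eP x y t) (f_eM x y t)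

theorem v_eS9 (x y t : ℝ) : val eS9 x y t = 2364862500000000000000000000000000000000 * (f_eS9 x y t) := by
  simp only [nd5, nd6, nd9, nd15, nd16, nd325, nd355, eS9, v_eW9, v_eS8, v_eq9, val_f, val_h, val_m]
  unfold f_eS9
  push_cast
  ring

theorem v_eq10 (x y t : ℝ) : val eq10 x y t = 256000000000000000000 * (qf10 x y) := by
  simp only [nd0, nd1, nd5, nd6, nd49, nd52, nd68, nd77, nd358, nd359, nd360, nd361, nd362, nd363, nd364, nd365, nd366, nd367, nd368, nd369, nd370, nd371, nd372, nd373, nd374, nd375, nd376, nd377, nd378, nd379, nd380, nd381, nd382, nd383, nd384, nd385, eq10, val_f, val_h, val_m, val_vx, val_vy]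
  unfold qf10
  push_cast
  ring

/-- real function of eS10 -/
noncomputable def f_eS10 (x y t : ℝ) : ℝ := f_eS9 x y t + qf10 x y * Zg 8 10 (f_eP x y t) (f_eM x y t)

theorem v_eS10 (x y t : ℝ) : val eS10 x y t = 295607812500000000000000000000000000000000 * (f_eS10 x y t) := by
  simp only [nd5, nd6, nd9, nd15, nd16, nd357, nd387, eS10, v_eW10, v_eS9, v_eq10, val_f, val_h, val_m]
  unfold f_eS10
  push_cast
  ring

theorem v_eq11 (x y t : ℝ) : val eq11 x y t = 1024000000000000000000 * (qf11 x y) := by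
  simp only [nd0, nd1, nd5, nd6, nd49, nd52, nd68, nd77, nd390, nd391, nd392, nd393, nd394, nd395, nd396, nd397, nd398, nd399, nd400, nd401, nd402, nd403, nd404, nd405, nd406, nd407, nd408, nd409, nd410, nd411, nd412, nd413, nd414, nd415, nd416, nd417, eq11, val_f, val_h, val_m, val_vx, val_vy]
  unfold qf11
  push_cast
  ring

/-- real function of eS11 -/
noncomputable def f_eS11 (x y t : ℝ) : ℝ := f_eS10 x y t + qf11 x y * Zg 8 11 (f_eP x y t) (f_eM x y t)

theorem v_eS11 (x y t : ℝ) : val eS11 x y t = 7390195312500000000000000000000000000000000 * (f_eS11 x y t) := by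
  simp only [nd5, nd6, nd9, nd15, nd16, nd389, nd419, eS11, v_eW11, v_eS10, v_eq11, val_f, val_h, val_m]
  unfold f_eS11
  push_cast
  ring

theorem v_eB (x y t : ℝ) : val eB x y t = 4 * (base (t)) := by
  simp only [nd2, nd9, nd421, nd422, nd423, nd424, nd425, eB, val_f, val_h, val_m, val_vt]
  unfold base
  push_cast
  ring

/-- real function of eD2 -/
noncomputable def f_eD2 (x y t : ℝ) : ℝ := ((1 - ((2 / 5) * x)) + (1 - ((2 / 5) * y))) - (2 * f_eP x y t)

theorem v_eD2 (x y t : ℝ) : val eD2 x y t = 25 * (f_eD2 x y t) := by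
  simp only [nd0, nd1, nd5, nd6, nd9, nd12, nd13, nd427, nd428, nd429, nd430, eD2, v_eP, val_f, val_h, val_m, val_vx, val_vy]
  unfold f_eD2
  push_cast
  ring

/-- real function of eDd -/
noncomputable def f_eDd (x y t : ℝ) : ℝ := ((1 - ((2 / 5) * x)) * (1 - ((2 / 5) * y))) - (f_eP x y t * f_eP x y t)

theorem v_eDd (x y t : ℝ) : val eDd x y t = 625 * (f_eDd x y t) := by
  simp only [nd19, eDd, v_eP, v_eM, val_f, val_m]
  unfold f_eDd f_eM f_eP
  push_cast
  ring

/-- real function of eR1 -/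
noncomputable def f_eR1 (x y t : ℝ) : ℝ := (1 - x) * (1 - y)

theorem v_eR1 (x y t : ℝ) : val eR1 x y t = 1 * (f_eR1 x y t) := by
  simp only [nd0, nd1, nd5, nd6, nd433, nd434, eR1, val_f, val_h, val_m, val_vx, val_vy]
  unfold f_eR1
  push_cast
  ring

/-- real function of eR3 -/
noncomputable def f_eR3 (x y t : ℝ) : ℝ := f_eR1 x y t ^ 3

theorem v_eR3 (x y t : ℝ) : val eR3 x y t = 1 * (f_eR3 x y t) := by
  simp only [nd436, eR3, v_eR1, val_m]
  unfold f_eR3
  push_cast
  ring

/-- real function of eK3 -/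
noncomputable def f_eK3 (x y t : ℝ) : ℝ := f_eR3 x y t * f_eS11 x y t

theorem v_eK3 (x y t : ℝ) : val eK3 x y t = 7390195312500000000000000000000000000000000 * (f_eK3 x y t) := by
  simp only [eK3, v_eS11, v_eR3, val_m]
  unfold f_eK3
  push_cast
  ring


theorem KT_eq (x y t : ℝ) : f_eS11 x y t = Kt 11 4 cA x y (f_eP x y t) (f_eM x y t) := by
  rw [Kt_eq]
  simp only [f_eS11, f_eS10, f_eS9, f_eS8, f_eS7, f_eS6, f_eS5, f_eS4, f_eS3, f_eS2, f_eS1]

theorem KTx (x y t : ℝ) : f_eS11 x y t = Ktx x y t := by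
  rw [KT_eq]
  unfold Ktx f_eP f_eM
  rfl

theorem K3x (x y t : ℝ) : f_eK3 x y t = K3 x y t := by
  unfold f_eK3 K3 f_eR3 f_eR1
  rw [KTx]
  ring

theorem D2x (x y t : ℝ) : f_eD2 x y t = PG.dd x y t := by
  unfold f_eD2 PG.dd f_eP
  ring

theorem DDx (x y t : ℝ) : f_eDd x y t = PG.DD x y t := by
  unfold f_eDd PG.DD f_eP
  ring

end Pool.Agent.Lib.MP_f1379f_gt.FV.CU.U
end

section
/-!
# programs, chart L
-/
set_option autoImplicit false
set_option linter.unusedVariables false
set_option linter.unusedSimpArgs false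
set_option linter.unusedTactic false
set_option linter.style.longLine false
set_option maxRecDepth 100000

namespace Pool.Agent.Lib.MP_f1379f_gt.FV.CU.L

open Finset Pool.Agent.Lib.MP_f1379f_gt.FV Pool.Agent.Lib.MP_f1379f_gt.FV.BCH Pool.Agent.Lib.MP_f1379f_gt.FV.CU

/-- node -/
def nd0 : Ex := .v .x
/-- node -/
def nd1 : Ex := .v .y
/-- node -/
def nd2 : Ex := .v .t
/-- node -/
def nd3 : Ex := .h .y
/-- node -/
def nd4 : Ex := .m nd0 nd3
/-- node -/
def nd5 : Ex := .h .x
/-- node -/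
def nd6 : Ex := .m nd1 nd5
/-- node -/
def nd7 : Ex := .f 1 nd4 1 nd6
/-- node -/
def nd9 : Ex := .m nd5 nd3
/-- node -/
def nd10 : Ex := .f 5 nd9 (-2) nd7
/-- node -/
def nd11 : Ex := .m nd0 nd1
/-- node -/
def nd12 : Ex := .f 5 nd10 (-4) nd11
/-- node -/
def nd13 : Ex := .m nd2 nd12
/-- node -/
def nd14 : Ex := .h .t
/-- node -/
def nd15 : Ex := .m nd3 nd14
/-- node -/
def nd16 : Ex := .m nd5 nd15
/-- node -/
def eT : Ex := .f (-25) nd16 (-1) nd13
/-- node -/
def nd18 : Ex := .m nd11 nd14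
/-- node -/
def eP : Ex := .f 1 eT (-4) nd18
/-- node -/
def nd20 : Ex := .f 5 nd5 (-2) nd0
/-- node -/
def nd21 : Ex := .f 5 nd3 (-2) nd1
/-- node -/
def nd22 : Ex := .m nd20 nd21
/-- node -/
def nd23 : Ex := .m nd14 nd16
/-- node -/
def eM : Ex := .m nd22 nd23
/-- node -/
def nd25 : Ex := .m eP eP
/-- node -/
def eW2 : Ex := .f 2 nd25 (-25) eM
/-- node -/
def nd27 : Ex := .m eP eW2
/-- node -/
def nd28 : Ex := .m eM eP
/-- node -/
def eW3 : Ex := .f 1 nd27 (-35) nd28
/-- node -/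
def nd30 : Ex := .m eP eW3
/-- node -/
def nd31 : Ex := .m eM eW2
/-- node -/
def eW4 : Ex := .f 1 nd30 (-20) nd31
/-- node -/
def nd33 : Ex := .m eP eW4
/-- node -/
def nd34 : Ex := .m eM eW3
/-- node -/
def eW5 : Ex := .f 7 nd33 (-150) nd34
/-- node -/
def nd36 : Ex := .m eP eW5
/-- node -/
def nd37 : Ex := .m eM eW4
/-- node -/
def eW6 : Ex := .f 4 nd36 (-625) nd37
/-- node -/
def nd39 : Ex := .m eP eW6
/-- node -/
def nd40 : Ex := .m eM eW5
/-- node -/
def eW7 : Ex := .f 3 nd39 (-275) nd40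
/-- node -/
def nd42 : Ex := .m eP eW7
/-- node -/
def nd43 : Ex := .m eM eW6
/-- node -/
def eW8 : Ex := .f 1 nd42 (-70) nd43
/-- node -/
def nd45 : Ex := .m eP eW8
/-- node -/
def nd46 : Ex := .m eM eW7
/-- node -/
def eW9 : Ex := .f 11 nd45 (-260) nd46
/-- node -/
def nd48 : Ex := .m eP eW9
/-- node -/
def nd49 : Ex := .m eM eW8
/-- node -/
def eW10 : Ex := .f 2 nd48 (-525) nd49
/-- node -/
def nd51 : Ex := .m eP eW10
/-- node -/
def nd52 : Ex := .m eM eW9
/-- node -/
def eW11 : Ex := .f 13 nd51 (-625) nd52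
/-- node -/
def nd54 : Ex := .f 2500 nd3 (-3239) nd1
/-- node -/
def nd55 : Ex := .m nd1 nd1
/-- node -/
def nd56 : Ex := .m nd54 nd3
/-- node -/
def nd57 : Ex := .f 2 nd56 101761 nd55
/-- node -/
def nd58 : Ex := .m nd55 nd1
/-- node -/
def nd59 : Ex := .m nd57 nd3
/-- node -/
def nd60 : Ex := .f 2 nd59 (-200551) nd58
/-- node -/
def nd61 : Ex := .f (-28699317500) nd3 112847035753 nd1
/-- node -/
def nd62 : Ex := .m nd61 nd3
/-- node -/
def nd63 : Ex := .f 2 nd62 (-1886544414047) nd55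
/-- node -/
def nd64 : Ex := .m nd63 nd3
/-- node -/
def nd65 : Ex := .f 2 nd64 3482692780937 nd58
/-- node -/
def nd66 : Ex := .m nd0 nd65
/-- node -/
def nd67 : Ex := .m nd60 nd5
/-- node -/
def nd68 : Ex := .f 363282500 nd67 41 nd66
/-- node -/
def nd69 : Ex := .f 36967990482500 nd3 (-77348320975927) nd1
/-- node -/
def nd70 : Ex := .m nd69 nd3
/-- node -/
def nd71 : Ex := .f 10 nd70 8927340445277161 nd55
/-- node -/
def nd72 : Ex := .m nd71 nd3
/-- node -/
def nd73 : Ex := .f 10 nd72 (-85682570200700711) nd58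
/-- node -/
def nd74 : Ex := .m nd0 nd0
/-- node -/
def nd75 : Ex := .m nd74 nd73
/-- node -/
def nd76 : Ex := .m nd68 nd5
/-- node -/
def nd77 : Ex := .f 50 nd76 1 nd75
/-- node -/
def nd78 : Ex := .f (-72856668657500) nd3 142790404018417 nd1
/-- node -/
def nd79 : Ex := .m nd78 nd3
/-- node -/
def nd80 : Ex := .f 50 nd79 (-85682570200700711) nd55
/-- node -/
def nd81 : Ex := .m nd80 nd3
/-- node -/
def nd82 : Ex := .f 10 nd81 825534809344533181 nd58
/-- node -/
def nd83 : Ex := .m nd74 nd0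
/-- node -/
def nd84 : Ex := .m nd83 nd82
/-- node -/
def nd85 : Ex := .m nd77 nd5
/-- node -/
def eq0 : Ex := .f 10 nd85 1 nd84
/-- node -/
def nd87 : Ex := .m eq0 nd16
/-- node -/
def nd88 : Ex := .f 10000 nd3 (-8993) nd1
/-- node -/
def nd89 : Ex := .m nd88 nd3
/-- node -/
def nd90 : Ex := .f 1 nd89 225638 nd55
/-- node -/
def nd91 : Ex := .m nd90 nd3
/-- node -/
def nd92 : Ex := .f 1 nd91 (-191194) nd58
/-- node -/
def nd93 : Ex := .f (-1657455150347890000) nd3 8686582457091857477 nd1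
/-- node -/
def nd94 : Ex := .m nd93 nd3
/-- node -/
def nd95 : Ex := .f 1 nd94 (-72901554732762261182) nd55
/-- node -/
def nd96 : Ex := .m nd95 nd3
/-- node -/
def nd97 : Ex := .f 1 nd96 62166906737499803266 nd58
/-- node -/
def nd98 : Ex := .m nd0 nd97
/-- node -/
def nd99 : Ex := .m nd92 nd5
/-- node -/
def nd100 : Ex := .f 184305031730000 nd99 1 nd98
/-- node -/
def nd101 : Ex := .f 20793109374746870000 nd3 (-36450777366381130591) nd1
/-- node -/
def nd102 : Ex := .m nd101 nd3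
/-- node -/
def nd103 : Ex := .f 25 nd102 15740732921642194301962 nd55
/-- node -/
def nd104 : Ex := .m nd103 nd3
/-- node -/
def nd105 : Ex := .f 1 nd104 (-12442927185032128625078) nd58
/-- node -/
def nd106 : Ex := .m nd74 nd105
/-- node -/
def nd107 : Ex := .m nd100 nd5
/-- node -/
def nd108 : Ex := .f 25 nd107 2 nd106
/-- node -/
def nd109 : Ex := .f (-17619008118292810000) nd3 31083453368749901633 nd1
/-- node -/
def nd110 : Ex := .m nd109 nd3
/-- node -/
def nd111 : Ex := .f 25 nd110 (-12442927185032128625078) nd55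
/-- node -/
def nd112 : Ex := .m nd111 nd3
/-- node -/
def nd113 : Ex := .f 1 nd112 10249674460609267867786 nd58
/-- node -/
def nd114 : Ex := .m nd83 nd113
/-- node -/
def nd115 : Ex := .m nd108 nd5
/-- node -/
def eq1 : Ex := .f 1 nd115 2 nd114
/-- node -/
def nd117 : Ex := .m eq1 eP
/-- node -/
def eS1 : Ex := .f 204800 nd87 1 nd117
/-- node -/
def nd119 : Ex := .m eS1 nd16
/-- node -/
def nd120 : Ex := .f 10000 nd3 (-6311) nd1
/-- node -/
def nd121 : Ex := .m nd120 nd3
/-- node -/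
def nd122 : Ex := .f 1 nd121 251748 nd55
/-- node -/
def nd123 : Ex := .m nd122 nd3
/-- node -/
def nd124 : Ex := .f 1 nd123 (-167515) nd58
/-- node -/
def nd125 : Ex := .f (-76847098857410000) nd3 265651432069711451 nd1
/-- node -/
def nd126 : Ex := .m nd125 nd3
/-- node -/
def nd127 : Ex := .f 1 nd126 (-2927478333289339028) nd55
/-- node -/
def nd128 : Ex := .m nd127 nd3
/-- node -/
def nd129 : Ex := .f 1 nd128 1505782039181386495 nd58
/-- node -/
def nd130 : Ex := .m nd0 nd129
/-- node -/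
def nd131 : Ex := .m nd124 nd5
/-- node -/
def nd132 : Ex := .f 12176691310000 nd131 1 nd130
/-- node -/
def nd133 : Ex := .f 766364420977470000 nd3 (-731869583322334757) nd1
/-- node -/
def nd134 : Ex := .m nd133 nd3
/-- node -/
def nd135 : Ex := .f 375 nd134 8226351052136348590388 nd55
/-- node -/
def nd136 : Ex := .m nd135 nd3
/-- node -/
def nd137 : Ex := .f 1 nd136 (-4947869852980741744119) nd58
/-- node -/
def nd138 : Ex := .m nd74 nd137
/-- node -/
def nd139 : Ex := .m nd132 nd5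
/-- node -/
def nd140 : Ex := .f 375 nd139 4 nd138
/-- node -/
def nd141 : Ex := .f (-407955688958930000) nd3 301156407836277299 nd1
/-- node -/
def nd142 : Ex := .m nd141 nd3
/-- node -/
def nd143 : Ex := .f 625 nd142 (-6597159803974322325492) nd55
/-- node -/
def nd144 : Ex := .m nd143 nd3
/-- node -/
def nd145 : Ex := .f 1 nd144 4302659909140254077447 nd58
/-- node -/
def nd146 : Ex := .m nd83 nd145
/-- node -/
def nd147 : Ex := .m nd140 nd5
/-- node -/
def eq2 : Ex := .f 1 nd147 3 nd146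
/-- node -/
def nd149 : Ex := .m eq2 eW2
/-- node -/
def eS2 : Ex := .f 175 nd119 6 nd149
/-- node -/
def nd151 : Ex := .m eS2 nd16
/-- node -/
def nd152 : Ex := .f 5000 nd3 (-1463) nd1
/-- node -/
def nd153 : Ex := .m nd152 nd3
/-- node -/
def nd154 : Ex := .f 1 nd153 134903 nd55
/-- node -/
def nd155 : Ex := .m nd154 nd3
/-- node -/
def nd156 : Ex := .f 1 nd155 (-52778) nd58
/-- node -/
def nd157 : Ex := .f (-109520586313765000) nd3 431298854819407639 nd1
/-- node -/
def nd158 : Ex := .m nd157 nd3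
/-- node -/
def nd159 : Ex := .f 1 nd158 (-4205751266034153559) nd55
/-- node -/
def nd160 : Ex := .m nd159 nd3
/-- node -/
def nd161 : Ex := .f 1 nd160 (-562329976066678166) nd58
/-- node -/
def nd162 : Ex := .m nd0 nd161
/-- node -/
def nd163 : Ex := .m nd156 nd5
/-- node -/
def nd164 : Ex := .f 524021944085000 nd163 7 nd162
/-- node -/
def nd165 : Ex := .f 70692132322898755000 nd3 (-29440258862239074913) nd1
/-- node -/
def nd166 : Ex := .m nd165 nd3
/-- node -/
def nd167 : Ex := .f 25 nd166 51289309937142268111417 nd55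
/-- node -/
def nd168 : Ex := .m nd167 nd3
/-- node -/
def nd169 : Ex := .f 1 nd168 (-18066810008782933303030) nd58
/-- node -/
def nd170 : Ex := .m nd74 nd169
/-- node -/
def nd171 : Ex := .m nd164 nd5
/-- node -/
def nd172 : Ex := .f 25 nd171 1 nd170
/-- node -/
def nd173 : Ex := .f (-13828415082459065000) nd3 (-1968154916233373581) nd1
/-- node -/
def nd174 : Ex := .m nd173 nd3
/-- node -/
def nd175 : Ex := .f 5 nd174 (-1806681000878293330303) nd55
/-- node -/
def nd176 : Ex := .m nd175 nd3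
/-- node -/
def nd177 : Ex := .f 1 nd176 863579239350090961498 nd58
/-- node -/
def nd178 : Ex := .m nd83 nd177
/-- node -/
def nd179 : Ex := .m nd172 nd5
/-- node -/
def eq3 : Ex := .f 1 nd179 10 nd178
/-- node -/
def nd181 : Ex := .m eq3 eW3
/-- node -/
def eS3 : Ex := .f 5 nd151 1 nd181
/-- node -/
def nd183 : Ex := .m eS3 nd16
/-- node -/
def nd184 : Ex := .f 625 nd3 (-22) nd1
/-- node -/
def nd185 : Ex := .m nd184 nd3
/-- node -/
def nd186 : Ex := .f 16 nd185 287957 nd55
/-- node -/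
def nd187 : Ex := .m nd186 nd3
/-- node -/
def nd188 : Ex := .f 1 nd187 223 nd58
/-- node -/
def nd189 : Ex := .f (-7525679074375) nd3 9748951263418 nd1
/-- node -/
def nd190 : Ex := .m nd189 nd3
/-- node -/
def nd191 : Ex := .f 16 nd190 (-2427423500298179) nd55
/-- node -/
def nd192 : Ex := .m nd191 nd3
/-- node -/
def nd193 : Ex := .f 1 nd192 (-4067001579661801) nd58
/-- node -/
def nd194 : Ex := .m nd0 nd193
/-- node -/
def nd195 : Ex := .m nd188 nd5
/-- node -/
def nd196 : Ex := .f 684152643125 nd195 2 nd194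
/-- node -/
def nd197 : Ex := .f 197006542656345625 nd3 (-4854847000596358) nd1
/-- node -/
def nd198 : Ex := .m nd197 nd3
/-- node -/
def nd199 : Ex := .f 10000 nd198 56873692960550933489357 nd55
/-- node -/
def nd200 : Ex := .m nd199 nd3
/-- node -/
def nd201 : Ex := .f 1 nd200 (-513529381253102305337) nd58
/-- node -/
def nd202 : Ex := .m nd74 nd201
/-- node -/
def nd203 : Ex := .m nd196 nd5
/-- node -/
def nd204 : Ex := .f 10000 nd203 1 nd202
/-- node -/
def nd205 : Ex := .f 152566039416875 nd3 (-8134003159323602) nd1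
/-- node -/
def nd206 : Ex := .m nd205 nd3
/-- node -/
def nd207 : Ex := .f 10000 nd206 (-513529381253102305337) nd55
/-- node -/
def nd208 : Ex := .m nd207 nd3
/-- node -/
def nd209 : Ex := .f 5 nd208 10893087659787792034633 nd58
/-- node -/
def nd210 : Ex := .m nd83 nd209
/-- node -/
def nd211 : Ex := .m nd204 nd5
/-- node -/
def eq4 : Ex := .f 5 nd211 1 nd210
/-- node -/
def nd213 : Ex := .m eq4 eW4
/-- node -/
def eS4 : Ex := .f 150 nd183 1 nd213
/-- node -/
def nd215 : Ex := .m eS4 nd16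
/-- node -/
def nd216 : Ex := .f 625 nd3 259 nd1
/-- node -/
def nd217 : Ex := .m nd216 nd3
/-- node -/
def nd218 : Ex := .f 8 nd217 137979 nd55
/-- node -/
def nd219 : Ex := .m nd218 nd3
/-- node -/
def nd220 : Ex := .f 1 nd219 114412 nd58
/-- node -/
def nd221 : Ex := .f 824836221461875 nd3 341885282173801 nd1
/-- node -/
def nd222 : Ex := .m nd221 nd3
/-- node -/
def nd223 : Ex := .f 8 nd222 182101838655283281 nd55
/-- node -/
def nd224 : Ex := .m nd223 nd3
/-- node -/
def nd225 : Ex := .f 1 nd224 150998598320652868 nd58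
/-- node -/
def nd226 : Ex := .m nd0 nd225
/-- node -/
def nd227 : Ex := .m nd220 nd5
/-- node -/
def nd228 : Ex := .f 117833745923125 nd227 37 nd226
/-- node -/
def nd229 : Ex := .f 1806509158747429375 nd3 748640892249497933 nd1
/-- node -/
def nd230 : Ex := .m nd229 nd3
/-- node -/
def nd231 : Ex := .f 200 nd230 9970726455908076316621 nd55
/-- node -/
def nd232 : Ex := .m nd231 nd3
/-- node -/
def nd233 : Ex := .f 1 nd232 8267712533174787183668 nd58
/-- node -/
def nd234 : Ex := .m nd74 nd233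
/-- node -/
def nd235 : Ex := .m nd228 nd5
/-- node -/
def nd236 : Ex := .f 200 nd235 9 nd234
/-- node -/
def nd237 : Ex := .f 3370398634639144375 nd3 1396737034466039029 nd1
/-- node -/
def nd238 : Ex := .m nd237 nd3
/-- node -/
def nd239 : Ex := .f 200 nd238 18602353199643271163253 nd55
/-- node -/
def nd240 : Ex := .m nd239 nd3
/-- node -/
def nd241 : Ex := .f 1 nd240 15425047011821592960724 nd58
/-- node -/
def nd242 : Ex := .m nd83 nd241
/-- node -/
def nd243 : Ex := .m nd236 nd5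
/-- node -/
def eq5 : Ex := .f 1 nd243 4 nd242
/-- node -/
def nd245 : Ex := .m eq5 eW5
/-- node -/
def eS5 : Ex := .f 375 nd215 4 nd245
/-- node -/
def nd247 : Ex := .m eS5 nd16
/-- node -/
def nd248 : Ex := .f 2000 nd3 1651 nd1
/-- node -/
def nd249 : Ex := .m nd248 nd3
/-- node -/
def nd250 : Ex := .f 1 nd249 48200 nd55
/-- node -/
def nd251 : Ex := .m nd250 nd3
/-- node -/
def nd252 : Ex := .f 5 nd251 634908 nd58
/-- node -/
def nd253 : Ex := .f 49072641066358000 nd3 40514775189142529 nd1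
/-- node -/
def nd254 : Ex := .m nd253 nd3
/-- node -/
def nd255 : Ex := .f 5 nd254 5913568000741047032 nd55
/-- node -/
def nd256 : Ex := .m nd255 nd3
/-- node -/
def nd257 : Ex := .f 1 nd256 15579135442110536820 nd58
/-- node -/
def nd258 : Ex := .m nd0 nd257
/-- node -/
def nd259 : Ex := .m nd252 nd5
/-- node -/
def nd260 : Ex := .f 29722980658000 nd259 1 nd258
/-- node -/
def nd261 : Ex := .f 895404792322250000 nd3 739196000092630879 nd1
/-- node -/
def nd262 : Ex := .m nd261 nd3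
/-- node -/
def nd263 : Ex := .f 625 nd262 13487753803614519469544 nd55
/-- node -/
def nd264 : Ex := .m nd263 nd3
/-- node -/
def nd265 : Ex := .f 1 nd264 35533120330138258482396 nd58
/-- node -/
def nd266 : Ex := .m nd74 nd265
/-- node -/
def nd267 : Ex := .m nd260 nd5
/-- node -/
def nd268 : Ex := .f 625 nd267 8 nd266
/-- node -/
def nd269 : Ex := .f 314522636726824400 nd3 259652257368508947 nd1
/-- node -/
def nd270 : Ex := .m nd269 nd3
/-- node -/
def nd271 : Ex := .f 3125 nd270 23688746886758838988264 nd55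
/-- node -/
def nd272 : Ex := .m nd271 nd3
/-- node -/
def nd273 : Ex := .f 1 nd272 62407365600935497007324 nd58
/-- node -/
def nd274 : Ex := .m nd83 nd273
/-- node -/
def nd275 : Ex := .m nd268 nd5
/-- node -/
def eq6 : Ex := .f 1 nd275 12 nd274
/-- node -/
def nd277 : Ex := .m eq6 eW6
/-- node -/
def eS6 : Ex := .f 275 nd247 3 nd277
/-- node -/
def nd279 : Ex := .m eS6 nd16
/-- node -/
def nd280 : Ex := .f 10000 nd3 30297 nd1
/-- node -/
def nd281 : Ex := .m nd280 nd3
/-- node -/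
def nd282 : Ex := .f 1 nd281 (-86772) nd55
/-- node -/
def nd283 : Ex := .m nd282 nd3
/-- node -/
def nd284 : Ex := .f 1 nd283 2104998 nd58
/-- node -/
def nd285 : Ex := .f 1297612119447830000 nd3 3932180223647890551 nd1
/-- node -/
def nd286 : Ex := .m nd285 nd3
/-- node -/
def nd287 : Ex := .f 1 nd286 (-11261719126320538956) nd55
/-- node -/
def nd288 : Ex := .m nd287 nd3
/-- node -/
def nd289 : Ex := .f 1 nd288 273197529612096909114 nd58
/-- node -/
def nd290 : Ex := .m nd0 nd289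
/-- node -/
def nd291 : Ex := .m nd284 nd5
/-- node -/
def nd292 : Ex := .f 128489169170000 nd291 3 nd290
/-- node -/
def nd293 : Ex := .f (-929105182268270000) nd3 (-2815429781580134739) nd1
/-- node -/
def nd294 : Ex := .m nd293 nd3
/-- node -/
def nd295 : Ex := .f 125 nd294 1007942534113148107404 nd55
/-- node -/
def nd296 : Ex := .m nd295 nd3
/-- node -/
def nd297 : Ex := .f 1 nd296 (-24451571272596041193114) nd58
/-- node -/
def nd298 : Ex := .m nd74 nd297
/-- node -/
def nd299 : Ex := .m nd292 nd5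
/-- node -/
def nd300 : Ex := .f 125 nd299 12 nd298
/-- node -/
def nd301 : Ex := .f 45078240687418610000 nd3 136598764806048454557 nd1
/-- node -/
def nd302 : Ex := .m nd301 nd3
/-- node -/
def nd303 : Ex := .f 125 nd302 (-48903142545192082386228) nd55
/-- node -/
def nd304 : Ex := .m nd303 nd3
/-- node -/
def nd305 : Ex := .f 1 nd304 1186339109903828724269958 nd58
/-- node -/
def nd306 : Ex := .m nd83 nd305
/-- node -/
def nd307 : Ex := .m nd300 nd5
/-- node -/
def eq7 : Ex := .f 1 nd307 6 nd306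
/-- node -/
def nd309 : Ex := .m eq7 eW7
/-- node -/
def eS7 : Ex := .f 100 nd279 1 nd309
/-- node -/
def nd311 : Ex := .m eS7 nd16
/-- node -/
def nd312 : Ex := .m nd1 nd3
/-- node -/
def nd313 : Ex := .f 2500 nd312 (-73819) nd55
/-- node -/
def nd314 : Ex := .m nd313 nd3
/-- node -/
def nd315 : Ex := .f 4 nd314 911717 nd58
/-- node -/
def nd316 : Ex := .m nd0 nd315
/-- node -/
def nd317 : Ex := .f (-21638409741932500) nd312 638930308258386087 nd55
/-- node -/
def nd318 : Ex := .m nd317 nd3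
/-- node -/
def nd319 : Ex := .f 4 nd318 (-7891242416608969241) nd58
/-- node -/
def nd320 : Ex := .m nd74 nd319
/-- node -/
def nd321 : Ex := .m nd316 nd5
/-- node -/
def nd322 : Ex := .f 293127917500 nd321 1 nd320
/-- node -/
def nd323 : Ex := .f 267249705559347500 nd312 (-7891242416608969241) nd55
/-- node -/
def nd324 : Ex := .m nd323 nd3
/-- node -/
def nd325 : Ex := .f 4 nd324 97462440073809176615 nd58
/-- node -/
def nd326 : Ex := .m nd83 nd325
/-- node -/
def nd327 : Ex := .m nd322 nd5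
/-- node -/
def eq8 : Ex := .f 4 nd327 1 nd326
/-- node -/
def nd329 : Ex := .m eq8 eW8
/-- node -/
def eS8 : Ex := .f 65 nd311 221184 nd329
/-- node -/
def nd331 : Ex := .m eS8 nd16
/-- node -/
def nd332 : Ex := .f 8 nd3 (-5) nd1
/-- node -/
def nd333 : Ex := .m nd332 nd3
/-- node -/
def nd334 : Ex := .f 625 nd333 1352043 nd55
/-- node -/
def nd335 : Ex := .m nd334 nd3
/-- node -/
def nd336 : Ex := .f 2 nd335 (-8501011) nd58
/-- node -/
def nd337 : Ex := .f (-558623359000) nd3 352063291407 nd1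
/-- node -/
def nd338 : Ex := .m nd337 nd3
/-- node -/
def nd339 : Ex := .f 625 nd338 (-94632425878152257) nd55
/-- node -/
def nd340 : Ex := .m nd339 nd3
/-- node -/
def nd341 : Ex := .f 2 nd340 595004217652520249 nd58
/-- node -/
def nd342 : Ex := .m nd0 nd341
/-- node -/
def nd343 : Ex := .m nd336 nd5
/-- node -/
def nd344 : Ex := .f 111724671800 nd343 1 nd342
/-- node -/
def nd345 : Ex := .f 151056560434487400 nd3 (-94632425878152257) nd1
/-- node -/
def nd346 : Ex := .m nd345 nd3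
/-- node -/
def nd347 : Ex := .f 625 nd346 25589423703872343953007 nd55
/-- node -/
def nd348 : Ex := .m nd347 nd3
/-- node -/
def nd349 : Ex := .f 2 nd348 (-160894264715316814890999) nd58
/-- node -/
def nd350 : Ex := .m nd74 nd349
/-- node -/
def nd351 : Ex := .m nd344 nd5
/-- node -/
def nd352 : Ex := .f 625 nd351 1 nd350
/-- node -/
def nd353 : Ex := .f (-135681809134741400) nd3 85000602521788607 nd1
/-- node -/
def nd354 : Ex := .m nd353 nd3
/-- node -/
def nd355 : Ex := .f 625 nd354 (-22984894959330973555857) nd55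
/-- node -/
def nd356 : Ex := .m nd355 nd3
/-- node -/
def nd357 : Ex := .f 14 nd356 1011627523753792710376767 nd58
/-- node -/
def nd358 : Ex := .m nd83 nd357
/-- node -/
def nd359 : Ex := .m nd352 nd5
/-- node -/
def eq9 : Ex := .f 2 nd359 1 nd358
/-- node -/
def nd361 : Ex := .m eq9 eW9
/-- node -/
def eS9 : Ex := .f 175 nd331 9 nd361
/-- node -/
def nd363 : Ex := .m eS9 nd16
/-- node -/
def nd364 : Ex := .f 1250 nd3 261 nd1
/-- node -/
def nd365 : Ex := .m nd364 nd3
/-- node -/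
def nd366 : Ex := .f 1 nd365 155383 nd55
/-- node -/
def nd367 : Ex := .m nd366 nd3
/-- node -/
def nd368 : Ex := .f 2 nd367 (-599445) nd58
/-- node -/
def nd369 : Ex := .f 172588749401250 nd3 36465023674981 nd1
/-- node -/
def nd370 : Ex := .m nd369 nd3
/-- node -/
def nd371 : Ex := .f 1 nd370 21464529965422103 nd55
/-- node -/
def nd372 : Ex := .m nd371 nd3
/-- node -/
def nd373 : Ex := .f 2 nd372 (-82807033201382645) nd58
/-- node -/
def nd374 : Ex := .m nd0 nd373
/-- node -/
def nd375 : Ex := .m nd368 nd5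
/-- node -/
def nd376 : Ex := .f 661259576250 nd375 1 nd374
/-- node -/
def nd377 : Ex := .f 14678356676636250 nd3 3066361423631729 nd1
/-- node -/
def nd378 : Ex := .m nd377 nd3
/-- node -/
def nd379 : Ex := .f 875 nd378 1597329204455406463689 nd55
/-- node -/
def nd380 : Ex := .m nd379 nd3
/-- node -/
def nd381 : Ex := .f 2 nd380 (-6162263408348130298795) nd58
/-- node -/
def nd382 : Ex := .m nd74 nd381
/-- node -/
def nd383 : Ex := .m nd376 nd5
/-- node -/
def nd384 : Ex := .f 125 nd383 1 nd382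
/-- node -/
def nd385 : Ex := .f (-79277749337036250) nd3 (-16561406640276529) nd1
/-- node -/
def nd386 : Ex := .m nd385 nd3
/-- node -/
def nd387 : Ex := .f 125 nd386 (-1232452681669626059759) nd55
/-- node -/
def nd388 : Ex := .m nd387 nd3
/-- node -/
def nd389 : Ex := .f 10 nd388 23773115621427727103473 nd58
/-- node -/
def nd390 : Ex := .m nd83 nd389
/-- node -/
def nd391 : Ex := .m nd384 nd5
/-- node -/
def eq10 : Ex := .f 2 nd391 1 nd390
/-- node -/
def nd393 : Ex := .m eq10 eW10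
/-- node -/
def eS10 : Ex := .f 125 nd363 288 nd393
/-- node -/
def nd395 : Ex := .m eS10 nd16
/-- node -/
def nd396 : Ex := .f 10000 nd3 106313 nd1
/-- node -/
def nd397 : Ex := .m nd396 nd3
/-- node -/
def nd398 : Ex := .f 1 nd397 (-195843) nd55
/-- node -/
def nd399 : Ex := .m nd398 nd3
/-- node -/
def nd400 : Ex := .f 1 nd399 3037620 nd58
/-- node -/
def nd401 : Ex := .f 9507657703530000 nd3 101162050226738489 nd1
/-- node -/
def nd402 : Ex := .m nd401 nd3
/-- node -/
def nd403 : Ex := .f 1 nd402 (-186352906263965779) nd55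
/-- node -/
def nd404 : Ex := .m nd403 nd3
/-- node -/
def nd405 : Ex := .f 1 nd404 2890424027089670260 nd58
/-- node -/
def nd406 : Ex := .m nd0 nd405
/-- node -/
def nd407 : Ex := .m nd400 nd5
/-- node -/
def nd408 : Ex := .f 89430810000 nd407 1 nd406
/-- node -/
def nd409 : Ex := .f (-17514398122830000) nd3 (-186352906263965779) nd1
/-- node -/
def nd410 : Ex := .m nd409 nd3
/-- node -/
def nd411 : Ex := .f 45 nd410 15447965935080705949 nd55
/-- node -/
def nd412 : Ex := .m nd411 nd3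
/-- node -/
def nd413 : Ex := .f 1 nd412 (-239604931328743685068) nd58
/-- node -/
def nd414 : Ex := .m nd74 nd413
/-- node -/
def nd415 : Ex := .m nd408 nd5
/-- node -/
def nd416 : Ex := .f 45 nd415 1 nd414
/-- node -/
def nd417 : Ex := .f 1940405836230000 nd3 20645885907783359 nd1
/-- node -/
def nd418 : Ex := .m nd417 nd3
/-- node -/
def nd419 : Ex := .f 225 nd418 (-8557318976026560181) nd55
/-- node -/
def nd420 : Ex := .m nd419 nd3
/-- node -/
def nd421 : Ex := .f 175 nd420 23227430216556157799636 nd58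
/-- node -/
def nd422 : Ex := .m nd83 nd421
/-- node -/
def nd423 : Ex := .m nd416 nd5
/-- node -/
def eq11 : Ex := .f 25 nd423 4 nd422
/-- node -/
def nd425 : Ex := .m eq11 eW11
/-- node -/
def eS11 : Ex := .f 50 nd395 9 nd425
/-- node -/
def nd427 : Ex := .f 1 eT 50 nd16
/-- node -/
def nd428 : Ex := .f 1 eT 25 nd16
/-- node -/
def nd429 : Ex := .m nd428 nd428
/-- node -/
def nd430 : Ex := .m nd427 nd429
/-- node -/
def nd431 : Ex := .m eT eT
/-- node -/
def eB : Ex := .m nd430 nd431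
/-- node -/
def nd433 : Ex := .m nd20 nd3
/-- node -/
def nd434 : Ex := .m nd21 nd5
/-- node -/
def nd435 : Ex := .f 1 nd433 1 nd434
/-- node -/
def nd436 : Ex := .m nd435 nd14
/-- node -/
def eD2 : Ex := .f 5 nd436 (-1) eP
/-- node -/
def eDd : Ex := .f 100 eM (-1) nd25
/-- node -/
def nd439 : Ex := .f 1 nd5 (-1) nd0
/-- node -/
def nd440 : Ex := .f 1 nd3 (-1) nd1
/-- node -/
def eR1 : Ex := .m nd439 nd440
/-- node -/
def nd442 : Ex := .m eR1 eR1
/-- node -/
def eR3 : Ex := .m nd442 eR1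
/-- node -/
def eK3 : Ex := .m eR3 eS11

/-- real function of eT -/
noncomputable def f_eT (x y t : ℝ) : ℝ := ((-1) / 2) - (t * (((1 / 2) - ((1 / 5) * (x + y))) - ((2 / 25) * (x * y))))

theorem v_eT (x y t : ℝ) : val eT x y t = 50 * (f_eT x y t) := by
  simp only [nd0, nd1, nd2, nd3, nd4, nd5, nd6, nd7, nd9, nd10, nd11, nd12, nd13, nd14, nd15, nd16, eT, val_f, val_h, val_m, val_vt, val_vx, val_vy]
  unfold f_eT
  push_cast
  ring

/-- real function of eP -/
noncomputable def f_eP (x y t : ℝ) : ℝ := f_eT x y t - (((2 / 25) * x) * y)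

theorem v_eP (x y t : ℝ) : val eP x y t = 50 * (f_eP x y t) := by
  simp only [nd0, nd1, nd11, nd14, nd18, eP, v_eT, val_f, val_h, val_m, val_vx, val_vy]
  unfold f_eP
  push_cast
  ring

/-- real function of eM -/
noncomputable def f_eM (x y t : ℝ) : ℝ := (1 - ((2 / 5) * x)) * (1 - ((2 / 5) * y))

theorem v_eM (x y t : ℝ) : val eM x y t = 25 * (f_eM x y t) := by
  simp only [nd0, nd1, nd3, nd5, nd14, nd15, nd16, nd20, nd21, nd22, nd23, eM, val_f, val_h, val_m, val_vx, val_vy]
  unfold f_eM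
  push_cast
  ring

theorem v_eW2 (x y t : ℝ) : val eW2 x y t = 4375 * (Zg 8 2 (f_eP x y t) (f_eM x y t)) := by
  simp only [nd25, eW2, v_eP, v_eM, val_f, val_m]
  rw [zg_2]
  rw [zg_0, zg_1]
  push_cast
  ring

theorem v_eW3 (x y t : ℝ) : val eW3 x y t = 175000 * (Zg 8 3 (f_eP x y t) (f_eM x y t)) := by
  simp only [nd27, nd28, eW3, v_eP, v_eM, v_eW2, val_f, val_m]
  rw [zg_3]
  rw [zg_1]
  push_cast
  ring

theorem v_eW4 (x y t : ℝ) : val eW4 x y t = 6562500 * (Zg 8 4 (f_eP x y t) (f_eM x y t)) := by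
  simp only [nd30, nd31, eW4, v_eP, v_eM, v_eW2, v_eW3, val_f, val_m]
  rw [zg_4]
  push_cast
  ring

theorem v_eW5 (x y t : ℝ) : val eW5 x y t = 1640625000 * (Zg 8 5 (f_eP x y t) (f_eM x y t)) := by
  simp only [nd33, nd34, eW5, v_eP, v_eM, v_eW3, v_eW4, val_f, val_m]
  rw [zg_5]
  push_cast
  ring

theorem v_eW6 (x y t : ℝ) : val eW6 x y t = 225585937500 * (Zg 8 6 (f_eP x y t) (f_eM x y t)) := by
  simp only [nd36, nd37, eW6, v_eP, v_eM, v_eW4, v_eW5, val_f, val_m]
  rw [zg_6]
  push_cast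
  ring

theorem v_eW7 (x y t : ℝ) : val eW7 x y t = 22558593750000 * (Zg 8 7 (f_eP x y t) (f_eM x y t)) := by
  simp only [nd39, nd40, eW7, v_eP, v_eM, v_eW5, v_eW6, val_f, val_m]
  rw [zg_7]
  push_cast
  ring

theorem v_eW8 (x y t : ℝ) : val eW8 x y t = 733154296875000 * (Zg 8 8 (f_eP x y t) (f_eM x y t)) := by
  simp only [nd42, nd43, eW8, v_eP, v_eM, v_eW6, v_eW7, val_f, val_m]
  rw [zg_8]
  push_cast
  ring

theorem v_eW9 (x y t : ℝ) : val eW9 x y t = 256604003906250000 * (Zg 8 9 (f_eP x y t) (f_eM x y t)) := by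
  simp only [nd45, nd46, eW9, v_eP, v_eM, v_eW7, v_eW8, val_f, val_m]
  rw [zg_9]
  push_cast
  ring

theorem v_eW10 (x y t : ℝ) : val eW10 x y t = 16037750244140625000 * (Zg 8 10 (f_eP x y t) (f_eM x y t)) := by
  simp only [nd48, nd49, eW10, v_eP, v_eM, v_eW8, v_eW9, val_f, val_m]
  rw [zg_10]
  push_cast
  ring

theorem v_eW11 (x y t : ℝ) : val eW11 x y t = 6415100097656250000000 * (Zg 8 11 (f_eP x y t) (f_eM x y t)) := by
  simp only [nd51, nd52, eW11, v_eP, v_eM, v_eW9, v_eW10, val_f, val_m]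
  rw [zg_11]
  push_cast
  ring

theorem v_eq0 (x y t : ℝ) : val eq0 x y t = 3000000000000000000 * (qf0 x y) := by
  simp only [nd0, nd1, nd3, nd5, nd54, nd55, nd56, nd57, nd58, nd59, nd60, nd61, nd62, nd63, nd64, nd65, nd66, nd67, nd68, nd69, nd70, nd71, nd72, nd73, nd74, nd75, nd76, nd77, nd78, nd79, nd80, nd81, nd82, nd83, nd84, nd85, eq0, val_f, val_h, val_m, val_vx, val_vy]
  unfold qf0
  push_cast
  ring

theorem v_eq1 (x y t : ℝ) : val eq1 x y t = 12288000000000000000000 * (qf1 x y) := by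
  simp only [nd0, nd1, nd3, nd5, nd55, nd58, nd74, nd83, nd88, nd89, nd90, nd91, nd92, nd93, nd94, nd95, nd96, nd97, nd98, nd99, nd100, nd101, nd102, nd103, nd104, nd105, nd106, nd107, nd108, nd109, nd110, nd111, nd112, nd113, nd114, nd115, eq1, val_f, val_h, val_m, val_vx, val_vy]
  unfold qf1
  push_cast
  ring

/-- real function of eS1 -/
noncomputable def f_eS1 (x y t : ℝ) : ℝ := qf0 x y * Zg 8 0 (f_eP x y t) (f_eM x y t) + qf1 x y * Zg 8 1 (f_eP x y t) (f_eM x y t)

theorem v_eS1 (x y t : ℝ) : val eS1 x y t = 614400000000000000000000 * (f_eS1 x y t) := by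
  simp only [nd3, nd5, nd14, nd15, nd16, nd87, nd117, eS1, v_eP, v_eq0, v_eq1, val_f, val_h, val_m]
  unfold f_eS1
  rw [zg_0, zg_1]
  push_cast
  ring

theorem v_eq2 (x y t : ℝ) : val eq2 x y t = 4096000000000000000000 * (qf2 x y) := by
  simp only [nd0, nd1, nd3, nd5, nd55, nd58, nd74, nd83, nd120, nd121, nd122, nd123, nd124, nd125, nd126, nd127, nd128, nd129, nd130, nd131, nd132, nd133, nd134, nd135, nd136, nd137, nd138, nd139, nd140, nd141, nd142, nd143, nd144, nd145, nd146, nd147, eq2, val_f, val_h, val_m, val_vx, val_vy]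
  unfold qf2
  push_cast
  ring

/-- real function of eS2 -/
noncomputable def f_eS2 (x y t : ℝ) : ℝ := f_eS1 x y t + qf2 x y * Zg 8 2 (f_eP x y t) (f_eM x y t)

theorem v_eS2 (x y t : ℝ) : val eS2 x y t = 107520000000000000000000000 * (f_eS2 x y t) := by
  simp only [nd3, nd5, nd14, nd15, nd16, nd119, nd149, eS2, v_eW2, v_eS1, v_eq2, val_f, val_h, val_m]
  unfold f_eS2
  push_cast
  ring

theorem v_eq3 (x y t : ℝ) : val eq3 x y t = 3072000000000000000000 * (qf3 x y) := by
  simp only [nd0, nd1, nd3, nd5, nd55, nd58, nd74, nd83, nd152, nd153, nd154, nd155, nd156, nd157, nd158, nd159, nd160, nd161, nd162, nd163, nd164, nd165, nd166, nd167, nd168, nd169, nd170, nd171, nd172, nd173, nd174, nd175, nd176, nd177, nd178, nd179, eq3, val_f, val_h, val_m, val_vx, val_vy]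
  unfold qf3
  push_cast
  ring

/-- real function of eS3 -/
noncomputable def f_eS3 (x y t : ℝ) : ℝ := f_eS2 x y t + qf3 x y * Zg 8 3 (f_eP x y t) (f_eM x y t)

theorem v_eS3 (x y t : ℝ) : val eS3 x y t = 537600000000000000000000000 * (f_eS3 x y t) := by
  simp only [nd3, nd5, nd14, nd15, nd16, nd151, nd181, eS3, v_eW3, v_eS2, v_eq3, val_f, val_h, val_m]
  unfold f_eS3
  push_cast
  ring

theorem v_eq4 (x y t : ℝ) : val eq4 x y t = 12288000000000000000000 * (qf4 x y) := by
  simp only [nd0, nd1, nd3, nd5, nd55, nd58, nd74, nd83, nd184, nd185, nd186, nd187, nd188, nd189, nd190, nd191, nd192, nd193, nd194, nd195, nd196, nd197, nd198, nd199, nd200, nd201, nd202, nd203, nd204, nd205, nd206, nd207, nd208, nd209, nd210, nd211, eq4, val_f, val_h, val_m, val_vx, val_vy]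
  unfold qf4
  push_cast
  ring

/-- real function of eS4 -/
noncomputable def f_eS4 (x y t : ℝ) : ℝ := f_eS3 x y t + qf4 x y * Zg 8 4 (f_eP x y t) (f_eM x y t)

theorem v_eS4 (x y t : ℝ) : val eS4 x y t = 80640000000000000000000000000 * (f_eS4 x y t) := by
  simp only [nd3, nd5, nd14, nd15, nd16, nd183, nd213, eS4, v_eW4, v_eS3, v_eq4, val_f, val_h, val_m]
  unfold f_eS4
  push_cast
  ring

theorem v_eq5 (x y t : ℝ) : val eq5 x y t = 4608000000000000000000 * (qf5 x y) := by
  simp only [nd0, nd1, nd3, nd5, nd55, nd58, nd74, nd83, nd216, nd217, nd218, nd219, nd220, nd221, nd222, nd223, nd224, nd225, nd226, nd227, nd228, nd229, nd230, nd231, nd232, nd233, nd234, nd235, nd236, nd237, nd238, nd239, nd240, nd241, nd242, nd243, eq5, val_f, val_h, val_m, val_vx, val_vy]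
  unfold qf5
  push_cast
  ring

/-- real function of eS5 -/
noncomputable def f_eS5 (x y t : ℝ) : ℝ := f_eS4 x y t + qf5 x y * Zg 8 5 (f_eP x y t) (f_eM x y t)

theorem v_eS5 (x y t : ℝ) : val eS5 x y t = 30240000000000000000000000000000 * (f_eS5 x y t) := by
  simp only [nd3, nd5, nd14, nd15, nd16, nd215, nd245, eS5, v_eW5, v_eS4, v_eq5, val_f, val_h, val_m]
  unfold f_eS5
  push_cast
  ring

theorem v_eq6 (x y t : ℝ) : val eq6 x y t = 12288000000000000000000 * (qf6 x y) := by
  simp only [nd0, nd1, nd3, nd5, nd55, nd58, nd74, nd83, nd248, nd249, nd250, nd251, nd252, nd253, nd254, nd255, nd256, nd257, nd258, nd259, nd260, nd261, nd262, nd263, nd264, nd265, nd266, nd267, nd268, nd269, nd270, nd271, nd272, nd273, nd274, nd275, eq6, val_f, val_h, val_m, val_vx, val_vy]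
  unfold qf6
  push_cast
  ring

/-- real function of eS6 -/
noncomputable def f_eS6 (x y t : ℝ) : ℝ := f_eS5 x y t + qf6 x y * Zg 8 6 (f_eP x y t) (f_eM x y t)

theorem v_eS6 (x y t : ℝ) : val eS6 x y t = 8316000000000000000000000000000000 * (f_eS6 x y t) := by
  simp only [nd3, nd5, nd14, nd15, nd16, nd247, nd277, eS6, v_eW6, v_eS5, v_eq6, val_f, val_h, val_m]
  unfold f_eS6
  push_cast
  ring

theorem v_eq7 (x y t : ℝ) : val eq7 x y t = 36864000000000000000000 * (qf7 x y) := by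
  simp only [nd0, nd1, nd3, nd5, nd55, nd58, nd74, nd83, nd280, nd281, nd282, nd283, nd284, nd285, nd286, nd287, nd288, nd289, nd290, nd291, nd292, nd293, nd294, nd295, nd296, nd297, nd298, nd299, nd300, nd301, nd302, nd303, nd304, nd305, nd306, nd307, eq7, val_f, val_h, val_m, val_vx, val_vy]
  unfold qf7
  push_cast
  ring

/-- real function of eS7 -/
noncomputable def f_eS7 (x y t : ℝ) : ℝ := f_eS6 x y t + qf7 x y * Zg 8 7 (f_eP x y t) (f_eM x y t)

theorem v_eS7 (x y t : ℝ) : val eS7 x y t = 831600000000000000000000000000000000 * (f_eS7 x y t) := by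
  simp only [nd3, nd5, nd14, nd15, nd16, nd279, nd309, eS7, v_eW7, v_eS6, v_eq7, val_f, val_h, val_m]
  unfold f_eS7
  push_cast
  ring

theorem v_eq8 (x y t : ℝ) : val eq8 x y t = (1000000000000000000 / 3) * (qf8 x y) := by
  simp only [nd0, nd1, nd3, nd5, nd55, nd58, nd74, nd83, nd312, nd313, nd314, nd315, nd316, nd317, nd318, nd319, nd320, nd321, nd322, nd323, nd324, nd325, nd326, nd327, eq8, val_f, val_h, val_m, val_vx, val_vy]
  unfold qf8
  push_cast
  ring

/-- real function of eS8 -/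
noncomputable def f_eS8 (x y t : ℝ) : ℝ := f_eS7 x y t + qf8 x y * Zg 8 8 (f_eP x y t) (f_eM x y t)

theorem v_eS8 (x y t : ℝ) : val eS8 x y t = 54054000000000000000000000000000000000 * (f_eS8 x y t) := by
  simp only [nd3, nd5, nd14, nd15, nd16, nd311, nd329, eS8, v_eW8, v_eS7, v_eq8, val_f, val_h, val_m]
  unfold f_eS8
  push_cast
  ring

theorem v_eq9 (x y t : ℝ) : val eq9 x y t = 4096000000000000000000 * (qf9 x y) := by
  simp only [nd0, nd1, nd3, nd5, nd55, nd58, nd74, nd83, nd332, nd333, nd334, nd335, nd336, nd337, nd338, nd339, nd340, nd341, nd342, nd343, nd344, nd345, nd346, nd347, nd348, nd349, nd350, nd351, nd352, nd353, nd354, nd355, nd356, nd357, nd358, nd359, eq9, val_f, val_h, val_m, val_vx, val_vy]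
  unfold qf9
  push_cast
  ring

/-- real function of eS9 -/
noncomputable def f_eS9 (x y t : ℝ) : ℝ := f_eS8 x y t + qf9 x y * Zg 8 9 (f_eP x y t) (f_eM x y t)

theorem v_eS9 (x y t : ℝ) : val eS9 x y t = 9459450000000000000000000000000000000000 * (f_eS9 x y t) := by
  simp only [nd3, nd5, nd14, nd15, nd16, nd331, nd361, eS9, v_eW9, v_eS8, v_eq9, val_f, val_h, val_m]
  unfold f_eS9
  push_cast
  ring

theorem v_eq10 (x y t : ℝ) : val eq10 x y t = 256000000000000000000 * (qf10 x y) := by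
  simp only [nd0, nd1, nd3, nd5, nd55, nd58, nd74, nd83, nd364, nd365, nd366, nd367, nd368, nd369, nd370, nd371, nd372, nd373, nd374, nd375, nd376, nd377, nd378, nd379, nd380, nd381, nd382, nd383, nd384, nd385, nd386, nd387, nd388, nd389, nd390, nd391, eq10, val_f, val_h, val_m, val_vx, val_vy]
  unfold qf10
  push_cast
  ring

/-- real function of eS10 -/
noncomputable def f_eS10 (x y t : ℝ) : ℝ := f_eS9 x y t + qf10 x y * Zg 8 10 (f_eP x y t) (f_eM x y t)

theorem v_eS10 (x y t : ℝ) : val eS10 x y t = 1182431250000000000000000000000000000000000 * (f_eS10 x y t) := by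
  simp only [nd3, nd5, nd14, nd15, nd16, nd363, nd393, eS10, v_eW10, v_eS9, v_eq10, val_f, val_h, val_m]
  unfold f_eS10
  push_cast
  ring

theorem v_eq11 (x y t : ℝ) : val eq11 x y t = 1024000000000000000000 * (qf11 x y) := by
  simp only [nd0, nd1, nd3, nd5, nd55, nd58, nd74, nd83, nd396, nd397, nd398, nd399, nd400, nd401, nd402, nd403, nd404, nd405, nd406, nd407, nd408, nd409, nd410, nd411, nd412, nd413, nd414, nd415, nd416, nd417, nd418, nd419, nd420, nd421, nd422, nd423, eq11, val_f, val_h, val_m, val_vx, val_vy]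
  unfold qf11
  push_cast
  ring

/-- real function of eS11 -/
noncomputable def f_eS11 (x y t : ℝ) : ℝ := f_eS10 x y t + qf11 x y * Zg 8 11 (f_eP x y t) (f_eM x y t)

theorem v_eS11 (x y t : ℝ) : val eS11 x y t = 59121562500000000000000000000000000000000000 * (f_eS11 x y t) := by
  simp only [nd3, nd5, nd14, nd15, nd16, nd395, nd425, eS11, v_eW11, v_eS10, v_eq11, val_f, val_h, val_m]
  unfold f_eS11
  push_cast
  ring

theorem v_eB (x y t : ℝ) : val eB x y t = 312500000 * (base (f_eT x y t)) := by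
  simp only [nd3, nd5, nd14, nd15, nd16, nd427, nd428, nd429, nd430, nd431, eB, v_eT, val_f, val_h, val_m]
  unfold base
  push_cast
  ring

/-- real function of eD2 -/
noncomputable def f_eD2 (x y t : ℝ) : ℝ := ((1 - ((2 / 5) * x)) + (1 - ((2 / 5) * y))) - (2 * f_eP x y t)

theorem v_eD2 (x y t : ℝ) : val eD2 x y t = 25 * (f_eD2 x y t) := by
  simp only [nd0, nd1, nd3, nd5, nd14, nd20, nd21, nd433, nd434, nd435, nd436, eD2, v_eP, val_f, val_h, val_m, val_vx, val_vy]
  unfold f_eD2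
  push_cast
  ring

/-- real function of eDd -/
noncomputable def f_eDd (x y t : ℝ) : ℝ := ((1 - ((2 / 5) * x)) * (1 - ((2 / 5) * y))) - (f_eP x y t * f_eP x y t)

theorem v_eDd (x y t : ℝ) : val eDd x y t = 2500 * (f_eDd x y t) := by
  simp only [nd25, eDd, v_eP, v_eM, val_f, val_m]
  unfold f_eDd f_eM f_eP
  push_cast
  ring

/-- real function of eR1 -/
noncomputable def f_eR1 (x y t : ℝ) : ℝ := (1 - x) * (1 - y)

theorem v_eR1 (x y t : ℝ) : val eR1 x y t = 1 * (f_eR1 x y t) := by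
  simp only [nd0, nd1, nd3, nd5, nd439, nd440, eR1, val_f, val_h, val_m, val_vx, val_vy]
  unfold f_eR1
  push_cast
  ring

/-- real function of eR3 -/
noncomputable def f_eR3 (x y t : ℝ) : ℝ := f_eR1 x y t ^ 3

theorem v_eR3 (x y t : ℝ) : val eR3 x y t = 1 * (f_eR3 x y t) := by
  simp only [nd442, eR3, v_eR1, val_m]
  unfold f_eR3
  push_cast
  ring

/-- real function of eK3 -/
noncomputable def f_eK3 (x y t : ℝ) : ℝ := f_eR3 x y t * f_eS11 x y t

theorem v_eK3 (x y t : ℝ) : val eK3 x y t = 59121562500000000000000000000000000000000000 * (f_eK3 x y t) := by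
  simp only [eK3, v_eS11, v_eR3, val_m]
  unfold f_eK3
  push_cast
  ring


theorem KT_eq (x y t : ℝ) : f_eS11 x y t = Kt 11 4 cA x y (f_eP x y t) (f_eM x y t) := by
  rw [Kt_eq]
  simp only [f_eS11, f_eS10, f_eS9, f_eS8, f_eS7, f_eS6, f_eS5, f_eS4, f_eS3, f_eS2, f_eS1]

/-- `T` in the lower chart. -/
noncomputable def TL (x y v : ℝ) : ℝ := -1 / 2 - v * (1 / 2 - 1 / 5 * (x + y) - 2 / 25 * (x * y))

theorem TLx (x y t : ℝ) : f_eT x y t = TL x y t := by
  unfold f_eT TL
  ring

lemma TL_symm (x y v : ℝ) : TL x y v = TL y x v := by unfold TL; ring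

theorem KTx (x y t : ℝ) : f_eS11 x y t = Ktx x y (TL x y t) := by
  rw [KT_eq]
  unfold Ktx f_eP f_eM
  rw [TLx]

theorem K3x (x y t : ℝ) : f_eK3 x y t = K3 x y (TL x y t) := by
  unfold f_eK3 K3 f_eR3 f_eR1
  rw [KTx]
  ring

theorem D2x (x y t : ℝ) : f_eD2 x y t = PG.dd x y (TL x y t) := by
  unfold f_eD2 PG.dd f_eP
  rw [TLx] <;> ring

theorem DDx (x y t : ℝ) : f_eDd x y t = PG.DD x y (TL x y t) := by
  unfold f_eDd PG.DD f_eP
  rw [TLx] <;> ring

end Pool.Agent.Lib.MP_f1379f_gt.FV.CU.L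
end

section
/-!
# one-body programs
-/
set_option autoImplicit false
set_option linter.unusedVariables false
set_option linter.unusedSimpArgs false
set_option linter.unusedTactic false
set_option linter.style.longLine false
set_option maxRecDepth 100000

namespace Pool.Agent.Lib.MP_f1379f_gt.FV.CV.V

open Finset Pool.Agent.Lib.MP_f1379f_gt.FV Pool.Agent.Lib.MP_f1379f_gt.FV.BCH Pool.Agent.Lib.MP_f1379f_gt.FV.CV

/-- node -/
def nd0 : Ex := .v .x
/-- node -/
def nd2 : Ex := .h .x
/-- node -/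
def eP : Ex := .f 5 nd2 (-2) nd0
/-- node -/
def eM : Ex := .m eP eP
/-- node -/
def eW2 : Ex := .f 8 eM (-1) eM
/-- node -/
def nd6 : Ex := .m eP eW2
/-- node -/
def nd7 : Ex := .m eM eP
/-- node -/
def eW3 : Ex := .f 5 nd6 (-7) nd7
/-- node -/
def nd9 : Ex := .m eP eW3
/-- node -/
def nd10 : Ex := .m eM eW2
/-- node -/
def eW4 : Ex := .f 1 nd9 (-1) nd10
/-- node -/
def nd12 : Ex := .m eP eW4
/-- node -/
def nd13 : Ex := .m eM eW3
/-- node -/
def eW5 : Ex := .f 14 nd12 (-3) nd13
/-- node -/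
def nd15 : Ex := .m eP eW5
/-- node -/
def nd16 : Ex := .m eM eW4
/-- node -/
def eW6 : Ex := .f 8 nd15 (-25) nd16
/-- node -/
def nd18 : Ex := .m eP eW6
/-- node -/
def nd19 : Ex := .m eM eW5
/-- node -/
def eW7 : Ex := .f 6 nd18 (-11) nd19
/-- node -/
def nd21 : Ex := .m eP eW7
/-- node -/
def nd22 : Ex := .m eM eW6
/-- node -/
def eW8 : Ex := .f 5 nd21 (-7) nd22
/-- node -/
def nd24 : Ex := .m eP eW8
/-- node -/
def nd25 : Ex := .m eM eW7
/-- node -/
def eW9 : Ex := .f 11 nd24 (-13) nd25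
/-- node -/
def nd27 : Ex := .m eP eW9
/-- node -/
def nd28 : Ex := .m eM eW8
/-- node -/
def eW10 : Ex := .f 8 nd27 (-21) nd28
/-- node -/
def nd30 : Ex := .m eP eW10
/-- node -/
def nd31 : Ex := .m eM eW9
/-- node -/
def eW11 : Ex := .f 13 nd30 (-25) nd31
/-- node -/
def nd33 : Ex := .f 5000 nd2 13637 nd0
/-- node -/
def nd34 : Ex := .m nd0 nd0
/-- node -/
def nd35 : Ex := .m nd33 nd2
/-- node -/
def nd36 : Ex := .f 2202260000 nd35 13747405087897 nd34
/-- node -/
def nd37 : Ex := .m nd34 nd0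
/-- node -/
def nd38 : Ex := .m nd36 nd2
/-- node -/
def nd39 : Ex := .f 1 nd38 (-54494781469082) nd37
/-- node -/
def nd40 : Ex := .m nd34 nd34
/-- node -/
def nd41 : Ex := .m nd39 nd2
/-- node -/
def nd42 : Ex := .f 125 nd41 (-7589453078513051) nd40
/-- node -/
def nd43 : Ex := .m nd40 nd0
/-- node -/
def nd44 : Ex := .m nd42 nd2
/-- node -/
def nd45 : Ex := .f 1 nd44 1744766380128288 nd43
/-- node -/
def nd46 : Ex := .m nd37 nd37
/-- node -/
def nd47 : Ex := .m nd45 nd2
/-- node -/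
def eq0 : Ex := .f 1 nd47 5817292441689887 nd46
/-- node -/
def nd49 : Ex := .m eq0 nd2
/-- node -/
def nd50 : Ex := .f 500 nd2 1903 nd0
/-- node -/
def nd51 : Ex := .m nd50 nd2
/-- node -/
def nd52 : Ex := .f 16316896034000 nd51 68014237299816753 nd34
/-- node -/
def nd53 : Ex := .m nd52 nd2
/-- node -/
def nd54 : Ex := .f 5 nd53 (-912401790953200488) nd37
/-- node -/
def nd55 : Ex := .m nd54 nd2
/-- node -/
def nd56 : Ex := .f 25 nd55 88927325065020855379 nd40
/-- node -/
def nd57 : Ex := .m nd56 nd2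
/-- node -/
def nd58 : Ex := .f 1 nd57 (-112728570711450219208) nd43
/-- node -/
def nd59 : Ex := .m nd58 nd2
/-- node -/
def eq1 : Ex := .f 4 nd59 282605487906649555565 nd46
/-- node -/
def nd61 : Ex := .m eq1 eP
/-- node -/
def eS1 : Ex := .f 12288 nd49 5 nd61
/-- node -/
def nd63 : Ex := .m eS1 nd2
/-- node -/
def nd64 : Ex := .f 5000 nd2 24653 nd0
/-- node -/
def nd65 : Ex := .m nd64 nd2
/-- node -/
def nd66 : Ex := .f 18823091420000 nd65 1036371841355681539 nd34
/-- node -/
def nd67 : Ex := .m nd66 nd2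
/-- node -/
def nd68 : Ex := .f 5 nd67 1387794360746697844 nd37
/-- node -/
def nd69 : Ex := .m nd68 nd2
/-- node -/
def nd70 : Ex := .f 625 nd69 11389775686212548154104 nd40
/-- node -/
def nd71 : Ex := .m nd70 nd2
/-- node -/
def nd72 : Ex := .f 1 nd71 (-8346812400670036789848) nd43
/-- node -/
def nd73 : Ex := .m nd72 nd2
/-- node -/
def eq2 : Ex := .f 1 nd73 11966584240099845958844 nd46
/-- node -/
def nd75 : Ex := .m eq2 eW2
/-- node -/
def eS2 : Ex := .f 175 nd63 1 nd75
/-- node -/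
def nd77 : Ex := .m eS2 nd2
/-- node -/
def nd78 : Ex := .f 250 nd2 1511 nd0
/-- node -/
def nd79 : Ex := .m nd78 nd2
/-- node -/
def nd80 : Ex := .f 44051894957000 nd79 168072710102942097 nd34
/-- node -/
def nd81 : Ex := .m nd80 nd2
/-- node -/
def nd82 : Ex := .f 5 nd81 628167104081128981 nd37
/-- node -/
def nd83 : Ex := .m nd82 nd2
/-- node -/
def nd84 : Ex := .f 2500 nd83 12391028669270778669039 nd40
/-- node -/
def nd85 : Ex := .m nd84 nd2
/-- node -/
def nd86 : Ex := .f 1 nd85 (-8505638754848078898055) nd43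
/-- node -/
def nd87 : Ex := .m nd86 nd2
/-- node -/
def eq3 : Ex := .f 4 nd87 71912438610855863535913 nd46
/-- node -/
def nd89 : Ex := .m eq3 eW3
/-- node -/
def eS3 : Ex := .f 20 nd77 1 nd89
/-- node -/
def nd91 : Ex := .m eS3 nd2
/-- node -/
def nd92 : Ex := .f 5000 nd2 38129 nd0
/-- node -/
def nd93 : Ex := .m nd92 nd2
/-- node -/
def nd94 : Ex := .f 32178653740000 nd93 3426456193521292367 nd34
/-- node -/
def nd95 : Ex := .m nd94 nd2
/-- node -/
def nd96 : Ex := .f 1 nd95 (-670606002816113570) nd37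
/-- node -/
def nd97 : Ex := .m nd96 nd2
/-- node -/
def nd98 : Ex := .f 125 nd97 6758674037979046147141 nd40
/-- node -/
def nd99 : Ex := .m nd98 nd2
/-- node -/
def nd100 : Ex := .f 1 nd99 (-9686669235420071186478) nd43
/-- node -/
def nd101 : Ex := .m nd100 nd2
/-- node -/
def eq4 : Ex := .f 35 nd101 415981304109002131519553 nd46
/-- node -/
def nd103 : Ex := .m eq4 eW4
/-- node -/
def eS4 : Ex := .f 15 nd91 4 nd103
/-- node -/
def nd105 : Ex := .m eS4 nd2
/-- node -/
def nd106 : Ex := .f 2500 nd2 24533 nd0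
/-- node -/
def nd107 : Ex := .m nd106 nd2
/-- node -/
def nd108 : Ex := .f 3842323237970000 nd107 301849522205975628933 nd34
/-- node -/
def nd109 : Ex := .m nd108 nd2
/-- node -/
def nd110 : Ex := .f 1 nd109 (-1119983014933775924801) nd37
/-- node -/
def nd111 : Ex := .m nd110 nd2
/-- node -/
def nd112 : Ex := .f 100 nd111 1047632848677987671635781 nd40
/-- node -/
def nd113 : Ex := .m nd112 nd2
/-- node -/
def nd114 : Ex := .f 1 nd113 (-1589374182857964135964980) nd43
/-- node -/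
def nd115 : Ex := .m nd114 nd2
/-- node -/
def eq5 : Ex := .f 1 nd115 1998701766347304782909556 nd46
/-- node -/
def nd117 : Ex := .m eq5 eW5
/-- node -/
def eS5 : Ex := .f 75 nd105 4 nd117
/-- node -/
def nd119 : Ex := .m eS5 nd2
/-- node -/
def nd120 : Ex := .f 1250 nd2 16329 nd0
/-- node -/
def nd121 : Ex := .m nd120 nd2
/-- node -/
def nd122 : Ex := .f 151015216205000 nd121 12108869173769787081 nd34
/-- node -/
def nd123 : Ex := .m nd122 nd2
/-- node -/
def nd124 : Ex := .f 1 nd123 (-108234329111619137656) nd37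
/-- node -/
def nd125 : Ex := .m nd124 nd2
/-- node -/
def nd126 : Ex := .f 125 nd125 89612795589197359350837 nd40
/-- node -/
def nd127 : Ex := .m nd126 nd2
/-- node -/
def nd128 : Ex := .f 1 nd127 (-170865036913973277501990) nd43
/-- node -/
def nd129 : Ex := .m nd128 nd2
/-- node -/
def eq6 : Ex := .f 4 nd129 784734716644708468324925 nd46
/-- node -/
def nd131 : Ex := .m eq6 eW6
/-- node -/
def eS6 : Ex := .f 55 nd119 48 nd131
/-- node -/
def nd133 : Ex := .m eS6 nd2
/-- node -/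
def nd134 : Ex := .f 5000 nd2 130807 nd0
/-- node -/
def nd135 : Ex := .m nd134 nd2
/-- node -/
def nd136 : Ex := .f 522528478820000 nd135 500202047492685952309 nd34
/-- node -/
def nd137 : Ex := .m nd136 nd2
/-- node -/
def nd138 : Ex := .f 1 nd137 (-8184838192151828304914) nd37
/-- node -/
def nd139 : Ex := .m nd138 nd2
/-- node -/
def nd140 : Ex := .f 125 nd139 6158248405865165931120077 nd40
/-- node -/
def nd141 : Ex := .m nd140 nd2
/-- node -/
def nd142 : Ex := .f 1 nd141 (-14741926332886027952426820) nd43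
/-- node -/
def nd143 : Ex := .m nd142 nd2
/-- node -/
def eq7 : Ex := .f 1 nd143 18567319829375562256604708 nd46
/-- node -/
def nd145 : Ex := .m eq7 eW7
/-- node -/
def eS7 : Ex := .f 5 nd133 1 nd145
/-- node -/
def nd147 : Ex := .m eS7 nd2
/-- node -/
def nd148 : Ex := .m nd34 nd2
/-- node -/
def nd149 : Ex := .f 625 nd148 (-10741) nd37
/-- node -/
def nd150 : Ex := .m nd149 nd2
/-- node -/
def nd151 : Ex := .f 34035676455000 nd150 2345671006014695767 nd40
/-- node -/
def nd152 : Ex := .m nd151 nd2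
/-- node -/
def nd153 : Ex := .f 2 nd152 (-13318928011887104853) nd43
/-- node -/
def nd154 : Ex := .m nd153 nd2
/-- node -/
def eq8 : Ex := .f 16 nd154 225883614683869445427 nd46
/-- node -/
def nd156 : Ex := .m eq8 eW8
/-- node -/
def eS8 : Ex := .f 65 nd147 442368 nd156
/-- node -/
def nd158 : Ex := .m eS8 nd2
/-- node -/
def nd159 : Ex := .f 5000 nd2 (-1256353) nd0
/-- node -/
def nd160 : Ex := .m nd159 nd2
/-- node -/
def nd161 : Ex := .f 26770660000 nd160 105680908190478226597 nd34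
/-- node -/
def nd162 : Ex := .m nd161 nd2
/-- node -/
def nd163 : Ex := .f 1 nd162 (-1824910197306673051804) nd37
/-- node -/
def nd164 : Ex := .m nd163 nd2
/-- node -/
def nd165 : Ex := .f 1 nd164 11732450819229665962994 nd40
/-- node -/
def nd166 : Ex := .m nd165 nd2
/-- node -/
def nd167 : Ex := .f 1 nd166 (-33216127647667198356084) nd43
/-- node -/
def nd168 : Ex := .m nd167 nd2
/-- node -/
def eq9 : Ex := .f 25 nd168 873463205606183540973669 nd46
/-- node -/
def nd170 : Ex := .m eq9 eW9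
/-- node -/
def eS9 : Ex := .f 35 nd158 108 nd170
/-- node -/
def nd172 : Ex := .m eS9 nd2
/-- node -/
def nd173 : Ex := .f 1250 nd2 (-12091) nd0
/-- node -/
def nd174 : Ex := .m nd173 nd2
/-- node -/
def nd175 : Ex := .f 519332905000 nd174 204351926062787511 nd34
/-- node -/
def nd176 : Ex := .m nd175 nd2
/-- node -/
def nd177 : Ex := .f 2 nd176 (-3203023538048126791) nd37
/-- node -/
def nd178 : Ex := .m nd177 nd2
/-- node -/
def nd179 : Ex := .f 120 nd178 2965342002132621710939 nd40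
/-- node -/
def nd180 : Ex := .m nd179 nd2
/-- node -/
def nd181 : Ex := .f 5 nd180 (-40714112506426660571888) nd43
/-- node -/
def nd182 : Ex := .m nd181 nd2
/-- node -/
def eq10 : Ex := .f 5 nd182 170250174966398656658624 nd46
/-- node -/
def nd184 : Ex := .m eq10 eW10
/-- node -/
def eS10 : Ex := .f 25 nd172 108 nd184
/-- node -/
def nd186 : Ex := .m eS10 nd2
/-- node -/
def nd187 : Ex := .f 2500 nd2 83199 nd0
/-- node -/
def nd188 : Ex := .m nd187 nd2
/-- node -/
def nd189 : Ex := .f 569300270000 nd188 66961841576292227 nd34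
/-- node -/
def nd190 : Ex := .m nd189 nd2
/-- node -/
def nd191 : Ex := .f 1 nd190 (-4246111146519948075) nd37
/-- node -/
def nd192 : Ex := .m nd191 nd2
/-- node -/
def nd193 : Ex := .f 20 nd192 780822276106163708331 nd40
/-- node -/
def nd194 : Ex := .m nd193 nd2
/-- node -/
def nd195 : Ex := .f 1 nd194 (-2790040533677895246274) nd43
/-- node -/
def nd196 : Ex := .m nd195 nd2
/-- node -/
def eq11 : Ex := .f 25 nd196 128916376407450117879519 nd46
/-- node -/
def nd198 : Ex := .m eq11 eW11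
/-- node -/
def eS11 : Ex := .f 5 nd186 54 nd198
/-- node -/
def nd200 : Ex := .f 801889 nd2 119707 nd0
/-- node -/
def nd201 : Ex := .m nd200 nd2
/-- node -/
def nd202 : Ex := .f 1 nd201 (-340126) nd34
/-- node -/
def nd203 : Ex := .m nd202 nd2
/-- node -/
def nd204 : Ex := .f 1 nd203 (-158242) nd37
/-- node -/
def nd205 : Ex := .m nd204 nd2
/-- node -/
def nd206 : Ex := .f 1 nd205 (-2695980) nd40
/-- node -/
def nd207 : Ex := .m nd206 nd2
/-- node -/
def nd208 : Ex := .f 1 nd207 12686271 nd43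
/-- node -/
def nd209 : Ex := .m nd208 nd2
/-- node -/
def nd210 : Ex := .f 1 nd209 (-36069290) nd46
/-- node -/
def nd211 : Ex := .m nd46 nd0
/-- node -/
def nd212 : Ex := .m nd210 nd2
/-- node -/
def nd213 : Ex := .f 1 nd212 55344714 nd211
/-- node -/
def nd214 : Ex := .m nd40 nd40
/-- node -/
def nd215 : Ex := .m nd213 nd2
/-- node -/
def nd216 : Ex := .f 1 nd215 (-43726930) nd214
/-- node -/
def nd217 : Ex := .m nd214 nd0
/-- node -/
def nd218 : Ex := .m nd216 nd2
/-- node -/
def eV : Ex := .f 1 nd218 14039354 nd217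
/-- node -/
def nd220 : Ex := .f 10000 nd2 13637 nd0
/-- node -/
def nd221 : Ex := .m nd220 nd2
/-- node -/
def nd222 : Ex := .f 1 nd221 (-3081) nd34
/-- node -/
def nd223 : Ex := .m nd222 nd2
/-- node -/
def el : Ex := .f 1 nd223 (-20536) nd37

/-- real function of eP -/
noncomputable def f_eP (x y t : ℝ) : ℝ := 1 - ((2 / 5) * x)

theorem v_eP (x y t : ℝ) : val eP x y t = 5 * (f_eP x y t) := by
  simp only [nd0, nd2, eP, val_f, val_h, val_vx]
  unfold f_eP
  push_cast
  ring

/-- real function of eM -/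
noncomputable def f_eM (x y t : ℝ) : ℝ := f_eP x y t * f_eP x y t

theorem v_eM (x y t : ℝ) : val eM x y t = 25 * (f_eM x y t) := by
  simp only [eM, v_eP, val_m]
  unfold f_eM
  push_cast
  ring

theorem v_eW2 (x y t : ℝ) : val eW2 x y t = 175 * (Zg 8 2 (f_eP x y t) (f_eM x y t)) := by
  simp only [eW2, v_eM, val_f]
  unfold f_eM
  rw [zg_2]
  rw [zg_0, zg_1]
  push_cast
  ring

theorem v_eW3 (x y t : ℝ) : val eW3 x y t = 3500 * (Zg 8 3 (f_eP x y t) (f_eM x y t)) := by
  simp only [nd6, nd7, eW3, v_eP, v_eM, v_eW2, val_f, val_m]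
  rw [zg_3]
  rw [zg_1]
  push_cast
  ring

theorem v_eW4 (x y t : ℝ) : val eW4 x y t = 13125 * (Zg 8 4 (f_eP x y t) (f_eM x y t)) := by
  simp only [nd9, nd10, eW4, v_eP, v_eM, v_eW2, v_eW3, val_f, val_m]
  rw [zg_4]
  push_cast
  ring

theorem v_eW5 (x y t : ℝ) : val eW5 x y t = 656250 * (Zg 8 5 (f_eP x y t) (f_eM x y t)) := by
  simp only [nd12, nd13, eW5, v_eP, v_eM, v_eW3, v_eW4, val_f, val_m]
  rw [zg_5]
  push_cast
  ring

theorem v_eW6 (x y t : ℝ) : val eW6 x y t = 18046875 * (Zg 8 6 (f_eP x y t) (f_eM x y t)) := by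
  simp only [nd15, nd16, eW6, v_eP, v_eM, v_eW4, v_eW5, val_f, val_m]
  rw [zg_6]
  push_cast
  ring

theorem v_eW7 (x y t : ℝ) : val eW7 x y t = 360937500 * (Zg 8 7 (f_eP x y t) (f_eM x y t)) := by
  simp only [nd18, nd19, eW7, v_eP, v_eM, v_eW5, v_eW6, val_f, val_m]
  rw [zg_7]
  push_cast
  ring

theorem v_eW8 (x y t : ℝ) : val eW8 x y t = 5865234375 * (Zg 8 8 (f_eP x y t) (f_eM x y t)) := by
  simp only [nd21, nd22, eW8, v_eP, v_eM, v_eW6, v_eW7, val_f, val_m]
  rw [zg_8]
  push_cast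
  ring

theorem v_eW9 (x y t : ℝ) : val eW9 x y t = 205283203125 * (Zg 8 9 (f_eP x y t) (f_eM x y t)) := by
  simp only [nd24, nd25, eW9, v_eP, v_eM, v_eW7, v_eW8, val_f, val_m]
  rw [zg_9]
  push_cast
  ring

theorem v_eW10 (x y t : ℝ) : val eW10 x y t = 5132080078125 * (Zg 8 10 (f_eP x y t) (f_eM x y t)) := by
  simp only [nd27, nd28, eW10, v_eP, v_eM, v_eW8, v_eW9, val_f, val_m]
  rw [zg_10]
  push_cast
  ring

theorem v_eW11 (x y t : ℝ) : val eW11 x y t = 205283203125000 * (Zg 8 11 (f_eP x y t) (f_eM x y t)) := by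
  simp only [nd30, nd31, eW11, v_eP, v_eM, v_eW9, v_eW10, val_f, val_m]
  rw [zg_11]
  push_cast
  ring

theorem v_eq0 (x y t : ℝ) : val eq0 x y t = 3000000000000000000 * (qf0 x x) := by
  simp only [nd0, nd2, nd33, nd34, nd35, nd36, nd37, nd38, nd39, nd40, nd41, nd42, nd43, nd44, nd45, nd46, nd47, eq0, val_f, val_h, val_m, val_vx]
  unfold qf0
  push_cast
  ring

theorem v_eq1 (x y t : ℝ) : val eq1 x y t = 1474560000000000000000 * (qf1 x x) := by
  simp only [nd0, nd2, nd34, nd37, nd40, nd43, nd46, nd50, nd51, nd52, nd53, nd54, nd55, nd56, nd57, nd58, nd59, eq1, val_f, val_h, val_m, val_vx]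
  unfold qf1
  push_cast
  ring

/-- real function of eS1 -/
noncomputable def f_eS1 (x y t : ℝ) : ℝ := qf0 x x * Zg 8 0 (f_eP x y t) (f_eM x y t) + qf1 x x * Zg 8 1 (f_eP x y t) (f_eM x y t)

theorem v_eS1 (x y t : ℝ) : val eS1 x y t = 36864000000000000000000 * (f_eS1 x y t) := by
  simp only [nd2, nd49, nd61, eS1, v_eP, v_eq0, v_eq1, val_f, val_h, val_m]
  unfold f_eS1
  rw [zg_0, zg_1]
  push_cast
  ring

theorem v_eq2 (x y t : ℝ) : val eq2 x y t = 36864000000000000000000 * (qf2 x x) := by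
  simp only [nd0, nd2, nd34, nd37, nd40, nd43, nd46, nd64, nd65, nd66, nd67, nd68, nd69, nd70, nd71, nd72, nd73, eq2, val_f, val_h, val_m, val_vx]
  unfold qf2
  push_cast
  ring

/-- real function of eS2 -/
noncomputable def f_eS2 (x y t : ℝ) : ℝ := f_eS1 x y t + qf2 x x * Zg 8 2 (f_eP x y t) (f_eM x y t)

theorem v_eS2 (x y t : ℝ) : val eS2 x y t = 6451200000000000000000000 * (f_eS2 x y t) := by
  simp only [nd2, nd63, nd75, eS2, v_eW2, v_eS1, v_eq2, val_f, val_h, val_m]
  unfold f_eS2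
  push_cast
  ring

theorem v_eq3 (x y t : ℝ) : val eq3 x y t = 36864000000000000000000 * (qf3 x x) := by
  simp only [nd0, nd2, nd34, nd37, nd40, nd43, nd46, nd78, nd79, nd80, nd81, nd82, nd83, nd84, nd85, nd86, nd87, eq3, val_f, val_h, val_m, val_vx]
  unfold qf3
  push_cast
  ring

/-- real function of eS3 -/
noncomputable def f_eS3 (x y t : ℝ) : ℝ := f_eS2 x y t + qf3 x x * Zg 8 3 (f_eP x y t) (f_eM x y t)

theorem v_eS3 (x y t : ℝ) : val eS3 x y t = 129024000000000000000000000 * (f_eS3 x y t) := by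
  simp only [nd2, nd77, nd89, eS3, v_eW3, v_eS2, v_eq3, val_f, val_h, val_m]
  unfold f_eS3
  push_cast
  ring

theorem v_eq4 (x y t : ℝ) : val eq4 x y t = 36864000000000000000000 * (qf4 x x) := by
  simp only [nd0, nd2, nd34, nd37, nd40, nd43, nd46, nd92, nd93, nd94, nd95, nd96, nd97, nd98, nd99, nd100, nd101, eq4, val_f, val_h, val_m, val_vx]
  unfold qf4
  push_cast
  ring

/-- real function of eS4 -/
noncomputable def f_eS4 (x y t : ℝ) : ℝ := f_eS3 x y t + qf4 x x * Zg 8 4 (f_eP x y t) (f_eM x y t)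

theorem v_eS4 (x y t : ℝ) : val eS4 x y t = 1935360000000000000000000000 * (f_eS4 x y t) := by
  simp only [nd2, nd91, nd103, eS4, v_eW4, v_eS3, v_eq4, val_f, val_h, val_m]
  unfold f_eS4
  push_cast
  ring

theorem v_eq5 (x y t : ℝ) : val eq5 x y t = 55296000000000000000000 * (qf5 x x) := by
  simp only [nd0, nd2, nd34, nd37, nd40, nd43, nd46, nd106, nd107, nd108, nd109, nd110, nd111, nd112, nd113, nd114, nd115, eq5, val_f, val_h, val_m, val_vx]
  unfold qf5
  push_cast
  ring

/-- real function of eS5 -/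
noncomputable def f_eS5 (x y t : ℝ) : ℝ := f_eS4 x y t + qf5 x x * Zg 8 5 (f_eP x y t) (f_eM x y t)

theorem v_eS5 (x y t : ℝ) : val eS5 x y t = 145152000000000000000000000000 * (f_eS5 x y t) := by
  simp only [nd2, nd105, nd117, eS5, v_eW5, v_eS4, v_eq5, val_f, val_h, val_m]
  unfold f_eS5
  push_cast
  ring

theorem v_eq6 (x y t : ℝ) : val eq6 x y t = 9216000000000000000000 * (qf6 x x) := by
  simp only [nd0, nd2, nd34, nd37, nd40, nd43, nd46, nd120, nd121, nd122, nd123, nd124, nd125, nd126, nd127, nd128, nd129, eq6, val_f, val_h, val_m, val_vx]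
  unfold qf6
  push_cast
  ring

/-- real function of eS6 -/
noncomputable def f_eS6 (x y t : ℝ) : ℝ := f_eS5 x y t + qf6 x x * Zg 8 6 (f_eP x y t) (f_eM x y t)

theorem v_eS6 (x y t : ℝ) : val eS6 x y t = 7983360000000000000000000000000 * (f_eS6 x y t) := by
  simp only [nd2, nd119, nd131, eS6, v_eW6, v_eS5, v_eq6, val_f, val_h, val_m]
  unfold f_eS6
  push_cast
  ring

theorem v_eq7 (x y t : ℝ) : val eq7 x y t = 110592000000000000000000 * (qf7 x x) := by
  simp only [nd0, nd2, nd34, nd37, nd40, nd43, nd46, nd134, nd135, nd136, nd137, nd138, nd139, nd140, nd141, nd142, nd143, eq7, val_f, val_h, val_m, val_vx]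
  unfold qf7
  push_cast
  ring

/-- real function of eS7 -/
noncomputable def f_eS7 (x y t : ℝ) : ℝ := f_eS6 x y t + qf7 x x * Zg 8 7 (f_eP x y t) (f_eM x y t)

theorem v_eS7 (x y t : ℝ) : val eS7 x y t = 39916800000000000000000000000000 * (f_eS7 x y t) := by
  simp only [nd2, nd133, nd145, eS7, v_eW7, v_eS6, v_eq7, val_f, val_h, val_m]
  unfold f_eS7
  push_cast
  ring

theorem v_eq8 (x y t : ℝ) : val eq8 x y t = 1000000000000000000 * (qf8 x x) := by
  simp only [nd0, nd2, nd34, nd37, nd40, nd43, nd46, nd148, nd149, nd150, nd151, nd152, nd153, nd154, eq8, val_f, val_h, val_m, val_vx]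
  unfold qf8
  push_cast
  ring

/-- real function of eS8 -/
noncomputable def f_eS8 (x y t : ℝ) : ℝ := f_eS7 x y t + qf8 x x * Zg 8 8 (f_eP x y t) (f_eM x y t)

theorem v_eS8 (x y t : ℝ) : val eS8 x y t = 2594592000000000000000000000000000 * (f_eS8 x y t) := by
  simp only [nd2, nd147, nd156, eS8, v_eW8, v_eS7, v_eq8, val_f, val_h, val_m]
  unfold f_eS8
  push_cast
  ring

theorem v_eq9 (x y t : ℝ) : val eq9 x y t = 4096000000000000000000 * (qf9 x x) := by
  simp only [nd0, nd2, nd34, nd37, nd40, nd43, nd46, nd159, nd160, nd161, nd162, nd163, nd164, nd165, nd166, nd167, nd168, eq9, val_f, val_h, val_m, val_vx]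
  unfold qf9
  push_cast
  ring

/-- real function of eS9 -/
noncomputable def f_eS9 (x y t : ℝ) : ℝ := f_eS8 x y t + qf9 x x * Zg 8 9 (f_eP x y t) (f_eM x y t)

theorem v_eS9 (x y t : ℝ) : val eS9 x y t = 90810720000000000000000000000000000 * (f_eS9 x y t) := by
  simp only [nd2, nd158, nd170, eS9, v_eW9, v_eS8, v_eq9, val_f, val_h, val_m]
  unfold f_eS9
  push_cast
  ring

theorem v_eq10 (x y t : ℝ) : val eq10 x y t = 4096000000000000000000 * (qf10 x x) := by
  simp only [nd0, nd2, nd34, nd37, nd40, nd43, nd46, nd173, nd174, nd175, nd176, nd177, nd178, nd179, nd180, nd181, nd182, eq10, val_f, val_h, val_m, val_vx]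
  unfold qf10
  push_cast
  ring

/-- real function of eS10 -/
noncomputable def f_eS10 (x y t : ℝ) : ℝ := f_eS9 x y t + qf10 x x * Zg 8 10 (f_eP x y t) (f_eM x y t)

theorem v_eS10 (x y t : ℝ) : val eS10 x y t = 2270268000000000000000000000000000000 * (f_eS10 x y t) := by
  simp only [nd2, nd172, nd184, eS10, v_eW10, v_eS9, v_eq10, val_f, val_h, val_m]
  unfold f_eS10
  push_cast
  ring

theorem v_eq11 (x y t : ℝ) : val eq11 x y t = 1024000000000000000000 * (qf11 x x) := by
  simp only [nd0, nd2, nd34, nd37, nd40, nd43, nd46, nd187, nd188, nd189, nd190, nd191, nd192, nd193, nd194, nd195, nd196, eq11, val_f, val_h, val_m, val_vx]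
  unfold qf11
  push_cast
  ring

/-- real function of eS11 -/
noncomputable def f_eS11 (x y t : ℝ) : ℝ := f_eS10 x y t + qf11 x x * Zg 8 11 (f_eP x y t) (f_eM x y t)

theorem v_eS11 (x y t : ℝ) : val eS11 x y t = 11351340000000000000000000000000000000 * (f_eS11 x y t) := by
  simp only [nd2, nd186, nd198, eS11, v_eW11, v_eS10, v_eq11, val_f, val_h, val_m]
  unfold f_eS11
  push_cast
  ring

/-- real function of eV -/
noncomputable def f_eV (x y t : ℝ) : ℝ := (((((((((801889 / 10000000) + ((119707 / 10000000) * (x ^ 1))) + (((-170063) / 5000000) * (x ^ 2))) + (((-79121) / 5000000) * (x ^ 3))) + (((-134799) / 500000) * (x ^ 4))) + ((12686271 / 10000000) * (x ^ 5))) + (((-3606929) / 1000000) * (x ^ 6))) + ((27672357 / 5000000) * (x ^ 7))) + (((-4372693) / 1000000) * (x ^ 8))) + ((7019677 / 5000000) * (x ^ 9))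

theorem v_eV (x y t : ℝ) : val eV x y t = 10000000 * (f_eV x y t) := by
  simp only [nd0, nd2, nd34, nd37, nd40, nd43, nd46, nd200, nd201, nd202, nd203, nd204, nd205, nd206, nd207, nd208, nd209, nd210, nd211, nd212, nd213, nd214, nd215, nd216, nd217, nd218, eV, val_f, val_h, val_m, val_vx]
  unfold f_eV
  push_cast
  ring

/-- real function of el -/
noncomputable def f_el (x y t : ℝ) : ℝ := (((110113 / 240000000) + ((1501610981 / 2400000000000) * (x ^ 1))) + (((-113086051) / 800000000000) * (x ^ 2))) + (((-282660071) / 300000000000) * (x ^ 3))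

theorem v_el (x y t : ℝ) : val el x y t = (2400000000000 / 110113) * (f_el x y t) := by
  simp only [nd0, nd2, nd34, nd37, nd220, nd221, nd222, nd223, el, val_f, val_h, val_m, val_vx]
  unfold f_el
  push_cast
  ring


theorem KT_eq (x y t : ℝ) : f_eS11 x y t =
    Kt 11 4 cA x x (1 - 2 / 5 * x) ((1 - 2 / 5 * x) * (1 - 2 / 5 * x)) := by
  rw [Kt_eq]
  simp only [f_eS11, f_eS10, f_eS9, f_eS8, f_eS7, f_eS6, f_eS5, f_eS4, f_eS3, f_eS2, f_eS1, f_eP, f_eM]

theorem l_eq (x y t : ℝ) : ∑ i ∈ range 4, cA 0 i 0 * x ^ i = f_el x y t := by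
  unfold cA f_el
  simp only [sum_range_succ, sum_range_zero, cw, cL, cL0]
  ring

theorem V_eq (x y t : ℝ) : PW.VV x = f_eV x y t := by
  unfold PW.VV f_eV
  ring

end Pool.Agent.Lib.MP_f1379f_gt.FV.CV.V
end
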