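import Pool.Agent.Lib.MP_f1379f_gt.FV.CK2V

/-!
# box check, region a
-/

set_option autoImplicit false
set_option linter.unusedVariables false
set_option linter.unusedSimpArgs false
set_option linter.unusedTactic false
set_option linter.style.longLine false
set_option maxRecDepth 100000

namespace Pool.Agent.Lib.MP_f1379f_gt.FV.CX.ar

open Finset Pool.Agent.Lib.MP_f1379f_gt.FV Pool.Agent.Lib.MP_f1379f_gt.FV.BCH Pool.Agent.Lib.MP_f1379f_gt.FV.CX Pool.Agent.Lib.MP_f1379f_gt.FV.CX.U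

/-- node -/
def g0a : Ex := .f (-1) eS11 0 eS11

/-- real function of g0a -/
noncomputable def f_g0a (x y t : ℝ) : ℝ := -f_eS11 x y t

theorem v_g0a (x y t : ℝ) : val g0a x y t = 11085292968750000000000000000000000000000000 * (f_g0a x y t) := by
  simp only [g0a, v_eS11, val_f]
  unfold f_g0a
  push_cast
  ring

/-- parameters -/
def P0 : Par := ⟨539, 14, 14, 11, 320, 320, 2560, 128, 128, 2560⟩

theorem hP0 : chkPar P0 g0a = true := by decide +kernel

/-- kinds -/
def ks (k : ℕ) : Par × Ex :=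
  match k with
  | _ => (P0, g0a)

lemma hks : ∀ k < 1, chkPar (ks k).1 (ks k).2 = true := by
  intro k hk
  interval_cases k
  · exact hP0

/-- subtree -/
def T0 : Tm := (.st 0 (.st (-640) (.lf 0) (.lf 0)) (.lf 0))
theorem hT0 : chkTm ks 1 320 320 2560 T0 ⟨0, 64, 0, 64, (-1280), 768⟩ = true := by decide +kernel

theorem cover (x y t : ℝ) (hyx : y ≤ x) (hx0 : 0 ≤ x) (hx1 : x ≤ (1 / 5))
    (hy0 : 0 ≤ y) (hy1 : y ≤ (1 / 5))
    (ht0 : ((-1) / 2) ≤ t) (ht1 : t ≤ (3 / 10)) :
    ∃ k < 1, 0 ≤ val (ks k).2 x y t := by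
  refine chkTm_sound ks 1 320 320 2560 (by norm_num) (by norm_num) hks T0 ⟨0, 64, 0, 64, (-1280), 768⟩ hT0 x y t hyx
    ?_ ?_ ?_ ?_ ?_ ?_ <;> push_cast <;> linarith

theorem good (x y t : ℝ) (hx : x ≤ 1) (hy : y ≤ 1) (h : ∃ k < 1, 0 ≤ val (ks k).2 x y t) :
    PG.Good (K3 x y t) x y t := by
  obtain ⟨k, hk, h⟩ := h
  have hr : 0 ≤ (1 - x) ^ 3 * (1 - y) ^ 3 :=
    mul_nonneg (pow_nonneg (by linarith) 3) (pow_nonneg (by linarith) 3)
  interval_cases k
  · have h1 : 0 ≤ val g0a x y t := h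
    rw [v_g0a] at h1
    have h2 : 0 ≤ f_g0a x y t := nonneg_of_mul_nonneg_right h1 (by norm_num)
    refine (Or.inl) ?_
    unfold f_g0a at h2
    rw [KTx] at h2
    unfold K3
    exact mul_nonpos_of_nonneg_of_nonpos hr (by linarith)

/-- All points of the region (both orders of `x, y`). -/
theorem region (x y t : ℝ) (hx0 : 0 ≤ x) (hx1 : x ≤ (1 / 5))
    (hy0 : 0 ≤ y) (hy1 : y ≤ (1 / 5))
    (ht0 : ((-1) / 2) ≤ t) (ht1 : t ≤ (3 / 10)) :
    PG.Good (K3 x y t) x y t := by
  rcases le_total y x with h | h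
  · exact good x y t (by linarith) (by linarith)
      (cover x y t h (by linarith) (by linarith) (by linarith) (by linarith) ht0 ht1)
  · have h1 := good y x t (by linarith) (by linarith)
      (cover y x t h (by linarith) (by linarith) (by linarith) (by linarith) ht0 ht1)
    rw [K3_symm y x] at h1
    have h2 := PG.Good_symm h1
    exact h2

end Pool.Agent.Lib.MP_f1379f_gt.FV.CX.ar
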