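import Pool.Agent.Lib.MP_f1379f_gt.FV.CEX

/-!
# Data of the certificate: `A_k = L_k^T D_k L_k`
-/

set_option autoImplicit false
set_option linter.style.longLine false

namespace Pool.Agent.Lib.MP_f1379f_gt.FV.CZ

open Finset Pool.Agent.Lib.MP_f1379f_gt.FV

lemma zg_0 (p m : ℝ) : Zg 8 0 p m = 1 := by simp [Zg]
lemma zg_1 (p m : ℝ) : Zg 8 1 p m = p := by simp [Zg]
lemma zg_2 (p m : ℝ) : Zg 8 2 p m = (8 * (p * Zg 8 1 p m) - 1 * (m * Zg 8 0 p m)) / 7 := by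
  rw [show Zg 8 2 p m = ((2 * ((0 : ℕ) : ℝ) + ((8 : ℕ) : ℝ)) * (p * Zg 8 1 p m) - (((0 : ℕ) : ℝ) + 1) * (m * Zg 8 0 p m)) / (((0 : ℕ) : ℝ) + ((8 : ℕ) : ℝ) - 1) from rfl]
  norm_num
lemma zg_3 (p m : ℝ) : Zg 8 3 p m = (10 * (p * Zg 8 2 p m) - 2 * (m * Zg 8 1 p m)) / 8 := by
  rw [show Zg 8 3 p m = ((2 * ((1 : ℕ) : ℝ) + ((8 : ℕ) : ℝ)) * (p * Zg 8 2 p m) - (((1 : ℕ) : ℝ) + 1) * (m * Zg 8 1 p m)) / (((1 : ℕ) : ℝ) + ((8 : ℕ) : ℝ) - 1) from rfl]
  norm_num
lemma zg_4 (p m : ℝ) : Zg 8 4 p m = (12 * (p * Zg 8 3 p m) - 3 * (m * Zg 8 2 p m)) / 9 := by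
  rw [show Zg 8 4 p m = ((2 * ((2 : ℕ) : ℝ) + ((8 : ℕ) : ℝ)) * (p * Zg 8 3 p m) - (((2 : ℕ) : ℝ) + 1) * (m * Zg 8 2 p m)) / (((2 : ℕ) : ℝ) + ((8 : ℕ) : ℝ) - 1) from rfl]
  norm_num
lemma zg_5 (p m : ℝ) : Zg 8 5 p m = (14 * (p * Zg 8 4 p m) - 4 * (m * Zg 8 3 p m)) / 10 := by
  rw [show Zg 8 5 p m = ((2 * ((3 : ℕ) : ℝ) + ((8 : ℕ) : ℝ)) * (p * Zg 8 4 p m) - (((3 : ℕ) : ℝ) + 1) * (m * Zg 8 3 p m)) / (((3 : ℕ) : ℝ) + ((8 : ℕ) : ℝ) - 1) from rfl]
  norm_num
lemma zg_6 (p m : ℝ) : Zg 8 6 p m = (16 * (p * Zg 8 5 p m) - 5 * (m * Zg 8 4 p m)) / 11 := by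
  rw [show Zg 8 6 p m = ((2 * ((4 : ℕ) : ℝ) + ((8 : ℕ) : ℝ)) * (p * Zg 8 5 p m) - (((4 : ℕ) : ℝ) + 1) * (m * Zg 8 4 p m)) / (((4 : ℕ) : ℝ) + ((8 : ℕ) : ℝ) - 1) from rfl]
  norm_num
lemma zg_7 (p m : ℝ) : Zg 8 7 p m = (18 * (p * Zg 8 6 p m) - 6 * (m * Zg 8 5 p m)) / 12 := by
  rw [show Zg 8 7 p m = ((2 * ((5 : ℕ) : ℝ) + ((8 : ℕ) : ℝ)) * (p * Zg 8 6 p m) - (((5 : ℕ) : ℝ) + 1) * (m * Zg 8 5 p m)) / (((5 : ℕ) : ℝ) + ((8 : ℕ) : ℝ) - 1) from rfl]
  norm_num
lemma zg_8 (p m : ℝ) : Zg 8 8 p m = (20 * (p * Zg 8 7 p m) - 7 * (m * Zg 8 6 p m)) / 13 := by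
  rw [show Zg 8 8 p m = ((2 * ((6 : ℕ) : ℝ) + ((8 : ℕ) : ℝ)) * (p * Zg 8 7 p m) - (((6 : ℕ) : ℝ) + 1) * (m * Zg 8 6 p m)) / (((6 : ℕ) : ℝ) + ((8 : ℕ) : ℝ) - 1) from rfl]
  norm_num
lemma zg_9 (p m : ℝ) : Zg 8 9 p m = (22 * (p * Zg 8 8 p m) - 8 * (m * Zg 8 7 p m)) / 14 := by
  rw [show Zg 8 9 p m = ((2 * ((7 : ℕ) : ℝ) + ((8 : ℕ) : ℝ)) * (p * Zg 8 8 p m) - (((7 : ℕ) : ℝ) + 1) * (m * Zg 8 7 p m)) / (((7 : ℕ) : ℝ) + ((8 : ℕ) : ℝ) - 1) from rfl]
  norm_num
lemma zg_10 (p m : ℝ) : Zg 8 10 p m = (24 * (p * Zg 8 9 p m) - 9 * (m * Zg 8 8 p m)) / 15 := by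
  rw [show Zg 8 10 p m = ((2 * ((8 : ℕ) : ℝ) + ((8 : ℕ) : ℝ)) * (p * Zg 8 9 p m) - (((8 : ℕ) : ℝ) + 1) * (m * Zg 8 8 p m)) / (((8 : ℕ) : ℝ) + ((8 : ℕ) : ℝ) - 1) from rfl]
  norm_num
lemma zg_11 (p m : ℝ) : Zg 8 11 p m = (26 * (p * Zg 8 10 p m) - 10 * (m * Zg 8 9 p m)) / 16 := by
  rw [show Zg 8 11 p m = ((2 * ((9 : ℕ) : ℝ) + ((8 : ℕ) : ℝ)) * (p * Zg 8 10 p m) - (((9 : ℕ) : ℝ) + 1) * (m * Zg 8 9 p m)) / (((9 : ℕ) : ℝ) + ((8 : ℕ) : ℝ) - 1) from rfl]
  norm_num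
lemma zg_12 (p m : ℝ) : Zg 8 12 p m = (28 * (p * Zg 8 11 p m) - 11 * (m * Zg 8 10 p m)) / 17 := by
  rw [show Zg 8 12 p m = ((2 * ((10 : ℕ) : ℝ) + ((8 : ℕ) : ℝ)) * (p * Zg 8 11 p m) - (((10 : ℕ) : ℝ) + 1) * (m * Zg 8 10 p m)) / (((10 : ℕ) : ℝ) + ((8 : ℕ) : ℝ) - 1) from rfl]
  norm_num

/-- weights -/
noncomputable def cw : ℕ → ℕ → ℝ
  | 0, 0 => (81713 / 240000000)
  | 0, 1 => (166883 / 10000000000)
  | 0, 2 => (621223 / 5000000000)
  | 0, 3 => (319281 / 10000000000)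
  | 1, 0 => (1639324853 / 819200000000)
  | 1, 1 => (70920487 / 10000000000)
  | 1, 2 => (413474839 / 5000000000)
  | 1, 3 => (50705597 / 10000000000)
  | 2, 0 => (554962949 / 98304000000)
  | 2, 1 => (7944049 / 2000000000)
  | 2, 2 => (2802153 / 1000000000)
  | 2, 3 => (91983897 / 5000000000)
  | 3, 0 => (8277701377 / 819200000000)
  | 3, 1 => (1601439 / 156250000)
  | 3, 2 => (2210443 / 250000000)
  | 3, 3 => (329002793 / 10000000000)
  | 4, 0 => (6102040007 / 491520000000)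
  | 4, 1 => (31493063 / 2000000000)
  | 4, 2 => (421568677 / 10000000000)
  | 4, 3 => (560726059 / 10000000000)
  | 5, 0 => (38832905887 / 3686400000000)
  | 5, 1 => (47874029 / 5000000000)
  | 5, 2 => (1129483133 / 10000000000)
  | 5, 3 => (937510353 / 10000000000)
  | 6, 0 => (2762167643 / 491520000000)
  | 6, 1 => (1094379 / 39062500)
  | 6, 2 => (19548279 / 1250000000)
  | 6, 3 => (280738061 / 2000000000)
  | 7, 0 => (392314723 / 294912000000)
  | 7, 1 => (8504779 / 2500000000)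
  | 7, 2 => (126779443 / 10000000000)
  | 7, 3 => (1461089563 / 5000000000)
  | 8, 1 => (307717 / 125000000)
  | 8, 2 => (2143358913 / 2500000000)
  | 8, 3 => (17 / 10000000000)
  | 9, 0 => (294993069 / 819200000000)
  | 9, 1 => (15626627 / 2000000000)
  | 9, 2 => (185284473 / 2500000000)
  | 9, 3 => (19215747 / 2500000000)
  | 10, 0 => (82571671 / 163840000000)
  | 10, 1 => (17662679 / 5000000000)
  | 10, 2 => (214031179 / 10000000000)
  | 10, 3 => (670642657 / 10000000000)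
  | 11, 0 => (7941283 / 40960000000)
  | 11, 1 => (5666327 / 1250000000)
  | 11, 2 => (306875153 / 5000000000)
  | 11, 3 => (1802189833 / 5000000000)
  | _, _ => 0

/-- vectors, degree 0 -/
noncomputable def cL0 : ℕ → ℕ → ℝ
  | 0, 0 => 1
  | 0, 1 => (149 / 2500)
  | 0, 2 => (74231 / 10000)
  | 0, 3 => ((-21199) / 2500)
  | 1, 1 => 1
  | 1, 2 => ((-5757) / 625)
  | 1, 3 => (45923 / 5000)
  | 2, 2 => 1
  | 2, 3 => ((-5393) / 5000)
  | 3, 3 => 1
  | _, _ => 0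

/-- vectors, degree 1 -/
noncomputable def cL1 : ℕ → ℕ → ℝ
  | 0, 0 => 1
  | 0, 1 => (1113 / 2500)
  | 0, 2 => (83337 / 10000)
  | 0, 3 => ((-69069) / 10000)
  | 1, 1 => 1
  | 1, 2 => ((-36621) / 5000)
  | 1, 3 => (37503 / 5000)
  | 2, 2 => 1
  | 2, 3 => ((-1) / 125)
  | 3, 3 => 1
  | _, _ => 0

/-- vectors, degree 2 -/
noncomputable def cL2 : ℕ → ℕ → ℝ
  | 0, 0 => 1
  | 0, 1 => (479 / 625)
  | 0, 2 => (109483 / 10000)
  | 0, 3 => ((-7621) / 1000)
  | 1, 1 => 1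
  | 1, 2 => ((-21719) / 2500)
  | 1, 3 => (413 / 400)
  | 2, 2 => 1
  | 2, 3 => ((-76677) / 10000)
  | 3, 3 => 1
  | _, _ => 0

/-- vectors, degree 3 -/
noncomputable def cL3 : ℕ → ℕ → ℝ
  | 0, 0 => 1
  | 0, 1 => (12959 / 10000)
  | 0, 2 => (118911 / 10000)
  | 0, 3 => ((-28061) / 10000)
  | 1, 1 => 1
  | 1, 2 => ((-10283) / 1250)
  | 1, 3 => ((-7329) / 2500)
  | 2, 2 => 1
  | 2, 3 => ((-81177) / 10000)
  | 3, 3 => 1
  | _, _ => 0

/-- vectors, degree 4 -/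
noncomputable def cL4 : ℕ → ℕ → ℝ
  | 0, 0 => 1
  | 0, 1 => (4201 / 2500)
  | 0, 2 => (76957 / 5000)
  | 0, 3 => (1231 / 1250)
  | 1, 1 => 1
  | 1, 2 => ((-89071) / 10000)
  | 1, 3 => (14513 / 5000)
  | 2, 2 => 1
  | 2, 3 => ((-16821) / 2000)
  | 3, 3 => 1
  | _, _ => 0

/-- vectors, degree 5 -/
noncomputable def cL5 : ℕ → ℕ → ℝ
  | 0, 0 => 1
  | 0, 1 => (24719 / 10000)
  | 0, 2 => (38847 / 2500)
  | 0, 3 => (207433 / 10000)
  | 1, 1 => 1
  | 1, 2 => ((-10753) / 1250)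
  | 1, 3 => (683 / 2000)
  | 2, 2 => 1
  | 2, 3 => ((-84791) / 10000)
  | 3, 3 => 1
  | _, _ => 0

/-- vectors, degree 6 -/
noncomputable def cL6 : ℕ → ℕ → ℝ
  | 0, 0 => 1
  | 0, 1 => (1569 / 500)
  | 0, 2 => (207213 / 10000)
  | 0, 3 => (9897 / 200)
  | 1, 1 => 1
  | 1, 2 => ((-60721) / 5000)
  | 1, 3 => (153333 / 5000)
  | 2, 2 => 1
  | 2, 3 => ((-35729) / 5000)
  | 3, 3 => 1
  | _, _ => 0

/-- vectors, degree 7 -/
noncomputable def cL7 : ℕ → ℕ → ℝ
  | 0, 0 => 1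
  | 0, 1 => (30529 / 5000)
  | 0, 2 => (19629 / 2000)
  | 0, 3 => (1130851 / 5000)
  | 1, 1 => 1
  | 1, 2 => ((-53499) / 5000)
  | 1, 3 => (193511 / 10000)
  | 2, 2 => 1
  | 2, 3 => ((-24603) / 5000)
  | 3, 3 => 1
  | _, _ => 0

/-- vectors, degree 8 -/
noncomputable def cL8 : ℕ → ℕ → ℝ
  | 1, 1 => 1
  | 1, 2 => ((-298087) / 10000)
  | 1, 3 => (1820339 / 10000)
  | 2, 2 => 1
  | 2, 3 => ((-42857) / 5000)
  | 3, 3 => 1
  | _, _ => 0

/-- vectors, degree 9 -/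
noncomputable def cL9 : ℕ → ℕ → ℝ
  | 0, 0 => 1
  | 0, 1 => (1781 / 500)
  | 0, 2 => (290479 / 10000)
  | 0, 3 => ((-1439773) / 2500)
  | 1, 1 => 1
  | 1, 2 => ((-110863) / 10000)
  | 1, 3 => (215401 / 10000)
  | 2, 2 => 1
  | 2, 3 => ((-8611) / 1000)
  | 3, 3 => 1
  | _, _ => 0

/-- vectors, degree 10 -/
noncomputable def cL10 : ℕ → ℕ → ℝ
  | 0, 0 => 1
  | 0, 1 => (56179 / 5000)
  | 0, 2 => (48099 / 2000)
  | 0, 3 => ((-5182301) / 10000)
  | 1, 1 => 1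
  | 1, 2 => ((-19343) / 2000)
  | 1, 3 => (53781 / 5000)
  | 2, 2 => 1
  | 2, 3 => ((-59909) / 10000)
  | 3, 3 => 1
  | _, _ => 0

/-- vectors, degree 11 -/
noncomputable def cL11 : ℕ → ℕ → ℝ
  | 0, 0 => 1
  | 0, 1 => (1687 / 250)
  | 0, 2 => (452739 / 5000)
  | 0, 3 => ((-2242067) / 5000)
  | 1, 1 => 1
  | 1, 2 => ((-51457) / 5000)
  | 1, 3 => (78717 / 5000)
  | 2, 2 => 1
  | 2, 3 => ((-17081) / 2500)
  | 3, 3 => 1
  | _, _ => 0

/-- vectors -/
noncomputable def cL : ℕ → ℕ → ℕ → ℝ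
  | 0 => cL0
  | 1 => cL1
  | 2 => cL2
  | 3 => cL3
  | 4 => cL4
  | 5 => cL5
  | 6 => cL6
  | 7 => cL7
  | 8 => cL8
  | 9 => cL9
  | 10 => cL10
  | 11 => cL11
  | _ => fun _ _ => 0

/-- matrices -/
noncomputable def cA (k i j : ℕ) : ℝ := ∑ c ∈ range 4, cw k c * cL k c i * cL k c j

lemma cA_symm (k i j : ℕ) : cA k i j = cA k j i := by
  unfold cA
  exact sum_congr rfl fun c _ => by ring

lemma cw_nonneg (k c : ℕ) : 0 ≤ cw k c := by
  unfold cw
  split <;> norm_num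

/-- quadratic form, degree 0 -/
noncomputable def qf0 (x y : ℝ) : ℝ := (81713 / 240000000) * x ^ 0 * y ^ 0 + (12175237 / 600000000000) * x ^ 0 * y ^ 1 + (6065637703 / 2400000000000) * x ^ 0 * y ^ 2 + ((-1732233887) / 600000000000) * x ^ 0 * y ^ 3 + (12175237 / 600000000000) * x ^ 1 * y ^ 0 + (26846560313 / 1500000000000000) * x ^ 1 * y ^ 1 + ((-18535596013) / 6000000000000000) * x ^ 1 * y ^ 2 + ((-28189808893) / 1500000000000000) * x ^ 1 * y ^ 3 + (6065637703 / 2400000000000) * x ^ 2 * y ^ 0 + ((-18535596013) / 6000000000000000) * x ^ 2 * y ^ 1 + (60902844632157181 / 3000000000000000000) * x ^ 2 * y ^ 2 + ((-17232576875674637) / 750000000000000000) * x ^ 2 * y ^ 3 + ((-1732233887) / 600000000000) * x ^ 3 * y ^ 0 + ((-28189808893) / 1500000000000000) * x ^ 3 * y ^ 1 + ((-17232576875674637) / 750000000000000000) * x ^ 3 * y ^ 2 + (19548996387055183 / 750000000000000000) * x ^ 3 * y ^ 3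

lemma qf0_eq (x y : ℝ) : ∑ i ∈ range 4, ∑ j ∈ range 4, cA 0 i j * x ^ i * y ^ j = qf0 x y := by
  unfold cA
  rw [quad_ldl]
  simp only [sum_range_succ, sum_range_zero, cw, cL, cL0]
  unfold qf0
  ring

/-- quadratic form, degree 1 -/
noncomputable def qf1 (x y : ℝ) : ℝ := (1639324853 / 819200000000) * x ^ 0 * y ^ 0 + (1824568561389 / 2048000000000000) * x ^ 0 * y ^ 1 + (136616415274461 / 8192000000000000) * x ^ 0 * y ^ 2 + ((-113226528271857) / 8192000000000000) * x ^ 0 * y ^ 3 + (1824568561389 / 2048000000000000) * x ^ 1 * y ^ 0 + (38342034152825957 / 5120000000000000000) * x ^ 1 * y ^ 1 + ((-911750511452824107) / 20480000000000000000) * x ^ 1 * y ^ 2 + (963404701447848759 / 20480000000000000000) * x ^ 1 * y ^ 3 + (136616415274461 / 8192000000000000) * x ^ 2 * y ^ 0 + ((-911750511452824107) / 20480000000000000000) * x ^ 2 * y ^ 1 + (1233141100742103308989 / 2048000000000000000000) * x ^ 2 * y ^ 2 +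 ((-1035171118532102468177) / 2048000000000000000000) * x ^ 2 * y ^ 3 + ((-113226528271857) / 8192000000000000) * x ^ 3 * y ^ 0 + (963404701447848759 / 20480000000000000000) * x ^ 3 * y ^ 1 + ((-1035171118532102468177) / 2048000000000000000000) * x ^ 3 * y ^ 2 + (1023041158401105825461 / 2048000000000000000000) * x ^ 3 * y ^ 3

lemma qf1_eq (x y : ℝ) : ∑ i ∈ range 4, ∑ j ∈ range 4, cA 1 i j * x ^ i * y ^ j = qf1 x y := by
  unfold cA
  rw [quad_ldl]
  simp only [sum_range_succ, sum_range_zero, cw, cL, cL1]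
  unfold qf1
  ring

/-- quadratic form, degree 2 -/
noncomputable def qf2 (x y : ℝ) : ℝ := (554962949 / 98304000000) * x ^ 0 * y ^ 0 + (265827252571 / 61440000000000) * x ^ 0 * y ^ 1 + (60759008545367 / 983040000000000) * x ^ 0 * y ^ 2 + ((-4229372634329) / 98304000000000) * x ^ 0 * y ^ 3 + (265827252571 / 61440000000000) * x ^ 1 * y ^ 0 + (279856994781509 / 38400000000000000) * x ^ 1 * y ^ 1 + (7902243080845513 / 614400000000000000) * x ^ 1 * y ^ 2 + ((-1773896968041991) / 61440000000000000) * x ^ 1 * y ^ 3 + (60759008545367 / 983040000000000) * x ^ 2 * y ^ 0 + (7902243080845513 / 614400000000000000) * x ^ 2 * y ^ 1 + (1203330312407548624681 / 1228800000000000000000) * x ^ 2 * y ^ 2 + ((-12979766323101425339) / 24576000000000000000) * x ^ 2 * y ^ 3 + ((-4229372634329) / 98304000000000) * x ^ 3 * y ^ 0 + ((-1773896968041991) / 61440000000000000) * x ^ 3 * y ^ 1 + ((-12979766323101425339) / 24576000000000000000)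 * x ^ 3 * y ^ 2 + (158288260635887553889 / 307200000000000000000) * x ^ 3 * y ^ 3

lemma qf2_eq (x y : ℝ) : ∑ i ∈ range 4, ∑ j ∈ range 4, cA 2 i j * x ^ i * y ^ j = qf2 x y := by
  unfold cA
  rw [quad_ldl]
  simp only [sum_range_succ, sum_range_zero, cw, cL, cL2]
  unfold qf2
  ring

/-- quadratic form, degree 3 -/
noncomputable def qf3 (x y : ℝ) : ℝ := (8277701377 / 819200000000) * x ^ 0 * y ^ 0 + (107270732144543 / 8192000000000000) * x ^ 0 * y ^ 1 + (984309748440447 / 8192000000000000) * x ^ 0 * y ^ 2 + ((-232280578339997) / 8192000000000000) * x ^ 0 * y ^ 3 + (107270732144543 / 8192000000000000) * x ^ 1 * y ^ 0 + (2229736668293132737 / 81920000000000000000) * x ^ 1 * y ^ 1 + (5848659133885947873 / 81920000000000000000) * x ^ 1 * y ^ 2 + ((-5471540082874472323) / 81920000000000000000) * x ^ 1 * y ^ 3 + (984309748440447 / 8192000000000000) * x ^ 2 * y ^ 0 + (5848659133885947873 / 81920000000000000000)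 * x ^ 2 * y ^ 1 + (4364735222379041325593 / 2048000000000000000000) * x ^ 2 * y ^ 2 + ((-331297965747463427883) / 2048000000000000000000) * x ^ 2 * y ^ 3 + ((-232280578339997) / 8192000000000000) * x ^ 3 * y ^ 0 + ((-5471540082874472323) / 81920000000000000000) * x ^ 3 * y ^ 1 + ((-331297965747463427883) / 2048000000000000000000) * x ^ 3 * y ^ 2 + (1603988072278122798113 / 2048000000000000000000) * x ^ 3 * y ^ 3

lemma qf3_eq (x y : ℝ) : ∑ i ∈ range 4, ∑ j ∈ range 4, cA 3 i j * x ^ i * y ^ j = qf3 x y := by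
  unfold cA
  rw [quad_ldl]
  simp only [sum_range_succ, sum_range_zero, cw, cL, cL3]
  unfold qf3
  ring

/-- quadratic form, degree 4 -/
noncomputable def qf4 (x y : ℝ) : ℝ := (6102040007 / 491520000000) * x ^ 0 * y ^ 0 + (25634670069407 / 1228800000000000) * x ^ 0 * y ^ 1 + (469594692818699 / 2457600000000000) * x ^ 0 * y ^ 2 + (7511611248617 / 614400000000000) * x ^ 0 * y ^ 3 + (25634670069407 / 1228800000000000) * x ^ 1 * y ^ 0 + (156064593729578807 / 3072000000000000000) * x ^ 1 * y ^ 1 + (1111034866165248899 / 6144000000000000000) * x ^ 1 * y ^ 2 + (101760514117238417 / 1536000000000000000) * x ^ 1 * y ^ 3 + (469594692818699 / 2457600000000000) * x ^ 2 * y ^ 0 + (1111034866165248899 / 6144000000000000000) * x ^ 2 * y ^ 1 + (1300192409227192433063 / 307200000000000000000) * x ^ 2 * y ^ 2 + ((-44044264312260044707) / 76800000000000000000) * x ^ 2 * y ^ 3 + (7511611248617 / 614400000000000) * x ^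 3 * y ^ 0 + (101760514117238417 / 1536000000000000000) * x ^ 3 * y ^ 1 + ((-44044264312260044707) / 76800000000000000000) * x ^ 3 * y ^ 2 + (61109919355386111983 / 19200000000000000000) * x ^ 3 * y ^ 3

lemma qf4_eq (x y : ℝ) : ∑ i ∈ range 4, ∑ j ∈ range 4, cA 4 i j * x ^ i * y ^ j = qf4 x y := by
  unfold cA
  rw [quad_ldl]
  simp only [sum_range_succ, sum_range_zero, cw, cL, cL4]
  unfold qf4
  ring

/-- quadratic form, degree 5 -/
noncomputable def qf5 (x y : ℝ) : ℝ := (38832905887 / 3686400000000) * x ^ 0 * y ^ 0 + (959910600620753 / 36864000000000000) * x ^ 0 * y ^ 1 + (502847298330763 / 3072000000000000) * x ^ 0 * y ^ 2 + (8055226166858071 / 36864000000000000) * x ^ 0 * y ^ 3 + (959910600620753 / 36864000000000000) * x ^ 1 * y ^ 0 + (27257686546856393407 / 368640000000000000000) * x ^ 1 * y ^ 1 + (9899589342242508197 / 30720000000000000000) * x ^ 1 * y ^ 2 + (200322513282617905049 / 368640000000000000000)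 * x ^ 1 * y ^ 3 + (502847298330763 / 3072000000000000) * x ^ 2 * y ^ 0 + (9899589342242508197 / 30720000000000000000) * x ^ 2 * y ^ 1 + (215360001869873798287 / 64000000000000000000) * x ^ 2 * y ^ 2 + (370112416181512473647 / 153600000000000000000) * x ^ 2 * y ^ 3 + (8055226166858071 / 36864000000000000) * x ^ 3 * y ^ 0 + (200322513282617905049 / 368640000000000000000) * x ^ 3 * y ^ 1 + (370112416181512473647 / 153600000000000000000) * x ^ 3 * y ^ 2 + (117485217462765638201143 / 9216000000000000000000) * x ^ 3 * y ^ 3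

lemma qf5_eq (x y : ℝ) : ∑ i ∈ range 4, ∑ j ∈ range 4, cA 5 i j * x ^ i * y ^ j = qf5 x y := by
  unfold cA
  rw [quad_ldl]
  simp only [sum_range_succ, sum_range_zero, cw, cL, cL5]
  unfold qf5
  ring

/-- quadratic form, degree 6 -/
noncomputable def qf6 (x y : ℝ) : ℝ := (2762167643 / 491520000000) * x ^ 0 * y ^ 0 + (1444613677289 / 81920000000000) * x ^ 0 * y ^ 1 + (190785681269653 / 1638400000000000) * x ^ 0 * y ^ 2 + (9112391054257 / 32768000000000) * x ^ 0 * y ^ 3 + (1444613677289 / 81920000000000) * x ^ 1 * y ^ 0 + (3414138413970441 / 40960000000000000) * x ^ 1 * y ^ 1 + (20623736804512821 / 819200000000000000) * x ^ 1 * y ^ 2 + (709344904063421289 / 409600000000000000) * x ^ 1 * y ^ 3 + (190785681269653 / 1638400000000000) * x ^ 2 * y ^ 0 + (20623736804512821 / 819200000000000000) * x ^ 2 * y ^ 1 + (13435735183614137937453 / 2048000000000000000000) * x ^ 2 * y ^ 2 + ((-4897994082386337331647)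 / 1024000000000000000000) * x ^ 2 * y ^ 3 + (9112391054257 / 32768000000000) * x ^ 3 * y ^ 0 + (709344904063421289 / 409600000000000000) * x ^ 3 * y ^ 1 + ((-4897994082386337331647) / 1024000000000000000000) * x ^ 3 * y ^ 2 + (21016360339615113736229 / 512000000000000000000) * x ^ 3 * y ^ 3

lemma qf6_eq (x y : ℝ) : ∑ i ∈ range 4, ∑ j ∈ range 4, cA 6 i j * x ^ i * y ^ j = qf6 x y := by
  unfold cA
  rw [quad_ldl]
  simp only [sum_range_succ, sum_range_zero, cw, cL, cL6]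
  unfold qf6
  ring

/-- quadratic form, degree 7 -/
noncomputable def qf7 (x y : ℝ) : ℝ := (392314723 / 294912000000) * x ^ 0 * y ^ 0 + (11976976178467 / 1474560000000000) * x ^ 0 * y ^ 1 + (855638410863 / 65536000000000) * x ^ 0 * y ^ 2 + (443649496819273 / 1474560000000000) * x ^ 0 * y ^ 3 + (11976976178467 / 1474560000000000) * x ^ 1 * y ^ 0 + (390726719596899043 / 7372800000000000000) * x ^ 1 * y ^ 1 + (70971535934367723 / 1638400000000000000) * x ^ 1 * y ^ 2 + (2805906461212300469 / 1474560000000000000) * x ^ 1 * y ^ 3 + (855638410863 / 65536000000000) * x ^ 2 * y ^ 0 + (70971535934367723 / 1638400000000000000) * x ^ 2 * y ^ 1 + (1086026576838817541147 / 2048000000000000000000) * x ^ 2 * y ^ 2 + (2238587637357910905873 / 1024000000000000000000) * x ^ 2 * y ^ 3 + (443649496819273 / 1474560000000000) * x ^ 3 * y ^ 0 + (2805906461212300469 / 1474560000000000000) * x ^ 3 * y ^ 1 + (2238587637357910905873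 / 1024000000000000000000) * x ^ 3 * y ^ 2 + (322194563072254185940747 / 4608000000000000000000) * x ^ 3 * y ^ 3

lemma qf7_eq (x y : ℝ) : ∑ i ∈ range 4, ∑ j ∈ range 4, cA 7 i j * x ^ i * y ^ j = qf7 x y := by
  unfold cA
  rw [quad_ldl]
  simp only [sum_range_succ, sum_range_zero, cw, cL, cL7]
  unfold qf7
  ring

/-- quadratic form, degree 8 -/
noncomputable def qf8 (x y : ℝ) : ℝ := (307717 / 125000000) * x ^ 1 * y ^ 1 + ((-91726437379) / 1250000000000) * x ^ 1 * y ^ 2 + (560149256063 / 1250000000000) * x ^ 1 * y ^ 3 + ((-91726437379) / 1250000000000) * x ^ 2 * y ^ 1 + (38059253103993973 / 12500000000000000) * x ^ 2 * y ^ 2 + ((-258831144226492481) / 12500000000000000) * x ^ 2 * y ^ 3 + (560149256063 / 1250000000000) * x ^ 3 * y ^ 1 + ((-258831144226492481) / 12500000000000000) * x ^ 3 * y ^ 2 + (4517531557519957361 / 31250000000000000) * x ^ 3 * y ^ 3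

lemma qf8_eq (x y : ℝ) : ∑ i ∈ range 4, ∑ j ∈ range 4, cA 8 i j * x ^ i * y ^ j = qf8 x y := by
  unfold cA
  rw [quad_ldl]
  simp only [sum_range_succ, sum_range_zero, cw, cL, cL8]
  unfold qf8
  ring

/-- quadratic form, degree 9 -/
noncomputable def qf9 (x y : ℝ) : ℝ := (294993069 / 819200000000) * x ^ 0 * y ^ 0 + (525382655889 / 409600000000000) * x ^ 0 * y ^ 1 + (85689291690051 / 8192000000000000) * x ^ 0 * y ^ 2 + ((-424723055933337) / 2048000000000000) * x ^ 0 * y ^ 3 + (525382655889 / 409600000000000) * x ^ 1 * y ^ 0 + (2535873114938309 / 204800000000000000) * x ^ 1 * y ^ 1 + ((-202185912115903969) / 4096000000000000000) * x ^ 1 * y ^ 2 + ((-584093019197010797) / 1024000000000000000) * x ^ 1 * y ^ 3 + (85689291690051 / 8192000000000000) * x ^ 2 * y ^ 0 + ((-202185912115903969) / 4096000000000000000) * x ^ 2 * y ^ 1 + (548152012943479987969 / 409600000000000000000) * x ^ 2 * y ^ 2 + ((-873276593033547376627)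 / 102400000000000000000) * x ^ 2 * y ^ 3 + ((-424723055933337) / 2048000000000000) * x ^ 3 * y ^ 0 + ((-584093019197010797) / 1024000000000000000) * x ^ 3 * y ^ 1 + ((-873276593033547376627) / 102400000000000000000) * x ^ 3 * y ^ 2 + (3291210026414970525481 / 25600000000000000000) * x ^ 3 * y ^ 3

lemma qf9_eq (x y : ℝ) : ∑ i ∈ range 4, ∑ j ∈ range 4, cA 9 i j * x ^ i * y ^ j = qf9 x y := by
  unfold cA
  rw [quad_ldl]
  simp only [sum_range_succ, sum_range_zero, cw, cL, cL9]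
  unfold qf9
  ring

/-- quadratic form, degree 10 -/
noncomputable def qf10 (x y : ℝ) : ℝ := (82571671 / 163840000000) * x ^ 0 * y ^ 0 + (4638793905109 / 819200000000000) * x ^ 0 * y ^ 1 + (3971614803429 / 327680000000000) * x ^ 0 * y ^ 2 + ((-427911253194971) / 1638400000000000) * x ^ 0 * y ^ 3 + (4638793905109 / 819200000000000) * x ^ 1 * y ^ 0 + (275072069431918511 / 4096000000000000000) * x ^ 1 * y ^ 1 + (167145543130713311 / 1638400000000000000) * x ^ 1 * y ^ 2 + ((-23728357641642779489) / 8192000000000000000) * x ^ 1 * y ^ 3 + (3971614803429 / 327680000000000) * x ^ 2 * y ^ 0 + (167145543130713311 / 1638400000000000000) * x ^ 2 * y ^ 1 + (52700680832031454291 / 81920000000000000000) * x ^ 2 * y ^ 2 + ((-2775805184549877305069) / 409600000000000000000) * x ^ 2 * y ^ 3 + ((-427911253194971) / 1638400000000000) * x ^ 3 * y ^ 0 + ((-23728357641642779489) / 8192000000000000000) * x ^ 3 * y ^ 1 + ((-2775805184549877305069)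 / 409600000000000000000) * x ^ 3 * y ^ 2 + (279743205080534040749523 / 2048000000000000000000) * x ^ 3 * y ^ 3

lemma qf10_eq (x y : ℝ) : ∑ i ∈ range 4, ∑ j ∈ range 4, cA 10 i j * x ^ i * y ^ j = qf10 x y := by
  unfold cA
  rw [quad_ldl]
  simp only [sum_range_succ, sum_range_zero, cw, cL, cL10]
  unfold qf10
  ring

/-- quadratic form, degree 11 -/
noncomputable def qf11 (x y : ℝ) : ℝ := (7941283 / 40960000000) * x ^ 0 * y ^ 0 + (13396944421 / 10240000000000) * x ^ 0 * y ^ 1 + (3595328524137 / 204800000000000) * x ^ 0 * y ^ 2 + ((-17804888551961) / 204800000000000) * x ^ 0 * y ^ 3 + (13396944421 / 10240000000000) * x ^ 1 * y ^ 0 + (34205282934227 / 2560000000000000) * x ^ 1 * y ^ 1 + (3676759852526831 / 51200000000000000) * x ^ 1 * y ^ 2 + ((-26382917925094079) / 51200000000000000) * x ^ 1 * y ^ 3 + (3595328524137 / 204800000000000) * x ^ 2 * y ^ 0 + (3676759852526831 / 51200000000000000) * x ^ 2 *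 y ^ 1 + (272778233694628687183 / 128000000000000000000) * x ^ 2 * y ^ 2 + ((-1155306404800245134623) / 128000000000000000000) * x ^ 2 * y ^ 3 + ((-17804888551961) / 204800000000000) * x ^ 3 * y ^ 0 + ((-26382917925094079) / 51200000000000000) * x ^ 3 * y ^ 1 + ((-1155306404800245134623) / 128000000000000000000) * x ^ 3 * y ^ 2 + (5546649896940146357231 / 128000000000000000000) * x ^ 3 * y ^ 3

lemma qf11_eq (x y : ℝ) : ∑ i ∈ range 4, ∑ j ∈ range 4, cA 11 i j * x ^ i * y ^ j = qf11 x y := by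
  unfold cA
  rw [quad_ldl]
  simp only [sum_range_succ, sum_range_zero, cw, cL, cL11]
  unfold qf11
  ring

lemma sum_n (g : ℕ → ℝ) : ∑ k ∈ range (11 + 1), g k = g 0 + g 1 + g 2 + g 3 + g 4 + g 5 + g 6 + g 7 + g 8 + g 9 + g 10 + g 11 := by
  simp only [sum_range_succ, sum_range_zero, zero_add]

lemma Kt_eq (x y p m : ℝ) : Kt 11 4 cA x y p m =
    qf0 x y * Zg 8 0 p m + qf1 x y * Zg 8 1 p m + qf2 x y * Zg 8 2 p m + qf3 x y * Zg 8 3 p m + qf4 x y * Zg 8 4 p m + qf5 x y * Zg 8 5 p m + qf6 x y * Zg 8 6 p m + qf7 x y * Zg 8 7 p m + qf8 x y * Zg 8 8 p m + qf9 x y * Zg 8 9 p m + qf10 x y * Zg 8 10 p m + qf11 x y * Zg 8 11 p m := by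
  unfold Kt
  rw [sum_n, qf0_eq, qf1_eq, qf2_eq, qf3_eq, qf4_eq, qf5_eq, qf6_eq, qf7_eq, qf8_eq, qf9_eq, qf10_eq, qf11_eq]


/-- Kernel in the coordinates `x, y, T`. -/
noncomputable def Ktx (x y T : ℝ) : ℝ :=
  Kt 11 4 cA x y (T - 2 / 25 * x * y) ((1 - 2 / 5 * x) * (1 - 2 / 5 * y))

/-- With the factor `r^3 r'^3`. -/
noncomputable def K3 (x y T : ℝ) : ℝ := (1 - x) ^ 3 * (1 - y) ^ 3 * Ktx x y T

lemma Ktx_symm (x y T : ℝ) : Ktx x y T = Ktx y x T := by
  unfold Ktx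
  rw [Kt_symm _ _ _ cA_symm]
  congr 1 <;> ring

lemma K3_symm (x y T : ℝ) : K3 x y T = K3 y x T := by
  unfold K3
  rw [Ktx_symm]
  ring

end Pool.Agent.Lib.MP_f1379f_gt.FV.CZ
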