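import Mathlib

/-!
# MP_f1379f_gt: uniqueness of the strongly regular graph (27, 10, 1, 5)

`GQ B r`: on the finite set `B` the relation `r` is a strongly regular graph with parameters
`(27, 10, 1, 5)` (the collinearity graph of the generalised quadrangle `GQ(2,4)`). Two such graphs
are isomorphic (`GQ.iso`), and a given vertex can be mapped to a given vertex.

Proof. Around a vertex `p`: the ten neighbours form five related pairs `f(i,0), f(i,1)`. Each of
the 16 remaining points `q` is related to exactly one point of each pair: sign vector `s q`. The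
third vertex of the triangle on `q, f(i, s q i)` is again one of the 16 points, and its sign vector
is that of `q` changed in all coordinates but `i`. Hence the 16 points carry all 16 sign
vectors of a fixed parity, and everything is determined.
-/

set_option autoImplicit false

open Finset

namespace Pool.Agent.Lib.MP_f1379f_gt.FV

open Classical in
/-- Strongly regular graph with parameters `(27, 10, 1, 5)` on the finite set `B`. -/
structure GQ {α : Type*} (B : Finset α) (r : α → α → Prop) : Prop where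
  card : B.card = 27
  symm : ∀ u ∈ B, ∀ v ∈ B, r u v → r v u
  irr : ∀ u ∈ B, ¬ r u u
  deg : ∀ u ∈ B, (B.filter fun w => r u w).card = 10
  lam : ∀ u ∈ B, ∀ v ∈ B, r u v → (B.filter fun w => r u w ∧ r v w).card = 1
  mu : ∀ u ∈ B, ∀ v ∈ B, u ≠ v → ¬ r u v → (B.filter fun w => r u w ∧ r v w).card = 5

namespace GQA

/-- Codes: `none` for the base point, `inl (i, b)` for its neighbours, `inr s` for the rest. -/
abbrev Code : Type := Option ((Fin 5 × Bool) ⊕ (Fin 5 → Bool))

/-- Change all coordinates but `i`. -/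
def fl (i : Fin 5) (s : Fin 5 → Bool) : Fin 5 → Bool := fun j => if j = i then s j else !(s j)

/-- Number of `true` coordinates is even. -/
def ev (s : Fin 5 → Bool) : Prop := (univ.filter fun j => s j = true).card % 2 = 0

instance (s : Fin 5 → Bool) : Decidable (ev s) := by unfold ev; infer_instance

/-- The relation on codes. -/
def R : Code → Code → Prop
  | none, none => False
  | none, some (Sum.inl _) => True
  | none, some (Sum.inr _) => False
  | some (Sum.inl _), none => True
  | some (Sum.inr _), none => False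
  | some (Sum.inl x), some (Sum.inl y) => x.1 = y.1 ∧ x.2 ≠ y.2
  | some (Sum.inl x), some (Sum.inr s) => s x.1 = x.2
  | some (Sum.inr s), some (Sum.inl x) => s x.1 = x.2
  | some (Sum.inr s), some (Sum.inr t) => ∃ i, t = fl i s

/-- The codes that occur. -/
def K : Set Code := {c | match c with
  | none => True
  | some (Sum.inl _) => True
  | some (Sum.inr s) => ev s}

lemma ev_closure : ∀ v : Fin 5 → Bool, ev v →
    v = (fun _ => false) ∨ (∃ i, v = fl i (fun _ => false)) ∨
      ∃ i j, v = fl i (fl j (fun _ => false)) := by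
  decide +kernel

lemma card_ev : (univ.filter fun v : Fin 5 → Bool => ev v).card = 16 := by
  decide +kernel

lemma fl_ne : ∀ (v : Fin 5 → Bool) (i j : Fin 5), i ≠ j → fl i v ≠ fl j v := by
  decide +kernel

/-! ### Pairing -/

lemma pairing {α : Type*} [DecidableEq α] (n : ℕ) : ∀ (A : Finset α) (σ : α → α),
    A.card = 2 * n → (∀ a ∈ A, σ a ∈ A) → (∀ a ∈ A, σ (σ a) = a) → (∀ a ∈ A, σ a ≠ a) →
    ∃ f : Fin n → Bool → α, (∀ i b, f i b ∈ A) ∧ (∀ a ∈ A, ∃ i b, f i b = a) ∧
      (∀ i b j c, f i b = f j c → i = j ∧ b = c) ∧ ∀ i b, σ (f i b) = f i (!b) := by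
  induction n with
  | zero =>
    intro A σ hA _ _ _
    have hA' : A = ∅ := Finset.card_eq_zero.1 (by omega)
    subst hA'
    exact ⟨fun i => i.elim0, fun i => i.elim0, fun a ha => absurd ha (Finset.notMem_empty a),
      fun i => i.elim0, fun i => i.elim0⟩
  | succ n ih =>
    intro A σ hA h1 h2 h3
    have hne : A.Nonempty := by
      rw [← Finset.card_pos]; omega
    obtain ⟨a, ha⟩ := hne
    have hb : σ a ∈ A.erase a := Finset.mem_erase.2 ⟨h3 a ha, h1 a ha⟩
    have hc1 : ((A.erase a).erase (σ a)).card = 2 * n := by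
      rw [Finset.card_erase_of_mem hb, Finset.card_erase_of_mem ha]; omega
    obtain ⟨f, f1, f2, f3, f4⟩ := ih ((A.erase a).erase (σ a)) σ hc1
      (by
        intro x hx
        rw [Finset.mem_erase, Finset.mem_erase] at hx
        obtain ⟨hx1, hx2, hx3⟩ := hx
        rw [Finset.mem_erase, Finset.mem_erase]
        refine ⟨fun h => hx2 ?_, fun h => hx1 ?_, h1 x hx3⟩
        · rw [← h2 x hx3, h, h2 a ha]
        · rw [← h2 x hx3, h])
      (fun x hx => h2 x (Finset.mem_of_mem_erase (Finset.mem_of_mem_erase hx)))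
      (fun x hx => h3 x (Finset.mem_of_mem_erase (Finset.mem_of_mem_erase hx)))
    have f1' : ∀ i b, f i b ∈ A ∧ f i b ≠ a ∧ f i b ≠ σ a := by
      intro i b
      have := f1 i b
      rw [Finset.mem_erase, Finset.mem_erase] at this
      exact ⟨this.2.2, this.2.1, this.1⟩
    refine ⟨Fin.cons (fun b => if b then σ a else a) f, ?_, ?_, ?_, ?_⟩
    · intro i b
      refine Fin.cases ?_ (fun i => ?_) i
      · cases b
        · simpa using ha
        · simpa using h1 a ha
      · simpa using (f1' i b).1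
    · intro x hx
      by_cases hxa : x = a
      · exact ⟨0, false, by simp [hxa]⟩
      by_cases hxs : x = σ a
      · exact ⟨0, true, by simp [hxs]⟩
      obtain ⟨i, b, hib⟩ := f2 x (Finset.mem_erase.2 ⟨hxs, Finset.mem_erase.2 ⟨hxa, hx⟩⟩)
      exact ⟨i.succ, b, by simpa using hib⟩
    · intro i b j c
      refine Fin.cases ?_ (fun i => ?_) i <;> refine Fin.cases ?_ (fun j => ?_) j
      · intro h
        refine ⟨rfl, ?_⟩
        have h3a := h3 a ha
        cases b <;> cases c
        · rfl
        · exfalso; apply h3a; simpa using h.symm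
        · exfalso; apply h3a; simpa using h
        · rfl
      · intro h
        exfalso
        have := f1' j c
        cases b
        · apply this.2.1; simpa using h.symm
        · apply this.2.2; simpa using h.symm
      · intro h
        exfalso
        have := f1' i b
        cases c
        · apply this.2.1; simpa using h
        · apply this.2.2; simpa using h
      · intro h
        have := f3 i b j c (by simpa using h)
        exact ⟨by rw [this.1], this.2⟩
    · intro i b
      refine Fin.cases ?_ (fun i => ?_) i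
      · cases b
        · simp
        · simpa using h2 a ha
      · simpa using f4 i b

/-! ### The local structure -/

variable {α : Type*} {B : Finset α} {r : α → α → Prop} {p : α}

lemma uniq (h : GQ B r) {u v w z : α} (hu : u ∈ B) (hv : v ∈ B) (huv : r u v) (hw : w ∈ B)
    (hz : z ∈ B) (h1 : r u w) (h2 : r v w) (h3 : r u z) (h4 : r v z) : w = z := by
  classical
  have hc := h.lam u hu v hv huv
  rw [Finset.card_eq_one] at hc
  obtain ⟨x, hx⟩ := hc
  have hw' : w ∈ (B.filter fun w => r u w ∧ r v w) := Finset.mem_filter.2 ⟨hw, h1, h2⟩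
  have hz' : z ∈ (B.filter fun w => r u w ∧ r v w) := Finset.mem_filter.2 ⟨hz, h3, h4⟩
  rw [hx, Finset.mem_singleton] at hw' hz'
  rw [hw', hz']

lemma exi (h : GQ B r) {u v : α} (hu : u ∈ B) (hv : v ∈ B) (huv : r u v) :
    ∃ w ∈ B, r u w ∧ r v w := by
  classical
  have hc := h.lam u hu v hv huv
  have : (B.filter fun w => r u w ∧ r v w).Nonempty := by
    rw [← Finset.card_pos, hc]; exact one_pos
  obtain ⟨w, hw⟩ := this
  rw [Finset.mem_filter] at hw
  exact ⟨w, hw.1, hw.2⟩

/-- `f` enumerates the neighbours of `p` in related pairs. -/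
structure PF (B : Finset α) (r : α → α → Prop) (p : α) (f : Fin 5 → Bool → α) : Prop where
  mem : ∀ i b, f i b ∈ B ∧ r p (f i b)
  surj : ∀ a ∈ B, r p a → ∃ i b, f i b = a
  inj : ∀ i b j c, f i b = f j c → i = j ∧ b = c
  opp : ∀ i b, r (f i b) (f i (!b))

lemma exists_PF (h : GQ B r) (hp : p ∈ B) : ∃ f, PF B r p f := by
  classical
  set A := B.filter fun w => r p w with hA
  have hmem : ∀ a, a ∈ A ↔ a ∈ B ∧ r p a := fun a => Finset.mem_filter
  have hex : ∀ a, ∃ w, a ∈ A → w ∈ A ∧ r a w := by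
    intro a
    by_cases ha : a ∈ A
    · obtain ⟨w, hw, h1, h2⟩ := exi h hp ((hmem a).1 ha).1 ((hmem a).1 ha).2
      exact ⟨w, fun _ => ⟨(hmem w).2 ⟨hw, h1⟩, h2⟩⟩
    · exact ⟨a, fun h => absurd h ha⟩
  choose σ hσ using hex
  have hun : ∀ a ∈ A, ∀ w ∈ A, r a w → w = σ a := by
    intro a ha w hw haw
    have h1 := hσ a ha
    have ha' := (hmem a).1 ha
    exact uniq h hp ha'.1 ha'.2 ((hmem w).1 hw).1 ((hmem _).1 h1.1).1 ((hmem w).1 hw).2 haw
      ((hmem _).1 h1.1).2 h1.2
  obtain ⟨f, f1, f2, f3, f4⟩ := pairing 5 A σ (h.deg p hp) (fun a ha => (hσ a ha).1)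
    (by
      intro a ha
      have h1 := hσ a ha
      exact (hun _ h1.1 a ha (h.symm _ ((hmem a).1 ha).1 _ ((hmem _).1 h1.1).1 h1.2)).symm)
    (by
      intro a ha h0
      have h1 := (hσ a ha).2
      rw [h0] at h1
      exact h.irr a ((hmem a).1 ha).1 h1)
  refine ⟨f, fun i b => (hmem _).1 (f1 i b), fun a ha hpa => f2 a ((hmem a).2 ⟨ha, hpa⟩), f3, ?_⟩
  intro i b
  rw [← f4]
  exact (hσ _ (f1 i b)).2

lemma PF.flip {f : Fin 5 → Bool → α} (hf : PF B r p f) (t : Fin 5 → Bool) :
    PF B r p (fun i b => f i (xor b (t i))) where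
  mem := fun i b => hf.mem i _
  surj := by
    intro a ha hpa
    obtain ⟨i, b, hib⟩ := hf.surj a ha hpa
    exact ⟨i, xor b (t i), by rw [Bool.xor_assoc, Bool.xor_self, Bool.xor_false]; exact hib⟩
  inj := by
    intro i b j c hij
    obtain ⟨rfl, h2⟩ := hf.inj _ _ _ _ hij
    refine ⟨rfl, ?_⟩
    revert h2
    cases b <;> cases c <;> cases t i <;> simp
  opp := by
    intro i b
    have := hf.opp i (xor b (t i))
    have e : (!(xor b (t i))) = xor (!b) (t i) := by cases b <;> cases t i <;> rfl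
    rw [e] at this
    exact this

section
variable {f : Fin 5 → Bool → α} (h : GQ B r) (hp : p ∈ B) (hf : PF B r p f)
include h hp hf

lemma ff_iff (i j : Fin 5) (b c : Bool) : r (f i b) (f j c) ↔ i = j ∧ b ≠ c := by
  constructor
  · intro h1
    have h2 := uniq h hp (hf.mem i b).1 (hf.mem i b).2 (hf.mem j c).1 (hf.mem i (!b)).1
      (hf.mem j c).2 h1 (hf.mem i (!b)).2 (hf.opp i b)
    obtain ⟨rfl, rfl⟩ := hf.inj _ _ _ _ h2
    exact ⟨rfl, by cases b <;> simp⟩
  · rintro ⟨rfl, hbc⟩
    have : c = !b := by revert hbc; cases b <;> cases c <;> simp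
    rw [this]
    exact hf.opp i b

/-- every other point is related to exactly one point of each pair -/
lemma exists_sign {q : α} (hq : q ∈ B) (hqp : q ≠ p) (hpq : ¬ r p q) :
    ∃ s : Fin 5 → Bool, ∀ i b, r q (f i b) ↔ s i = b := by
  classical
  have hat : ∀ i, ¬ (r q (f i false) ∧ r q (f i true)) := by
    rintro i ⟨h1, h2⟩
    have e1 := (hf.mem i false)
    have e2 := (hf.mem i true)
    have := uniq h e1.1 e2.1 (hf.opp i false) hp hq (h.symm _ hp _ e1.1 e1.2)
      (h.symm _ hp _ e2.1 e2.2) (h.symm _ hq _ e1.1 h1) (h.symm _ hq _ e2.1 h2)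
    exact hqp this.symm
  have hc := h.mu p hp q hq (Ne.symm hqp) hpq
  set I := (univ : Finset (Fin 5)).filter fun i => ∃ b, r q (f i b) with hI
  have hsub : (B.filter fun w => r p w ∧ r q w) ⊆
      I.image fun i => if r q (f i true) then f i true else f i false := by
    intro w hw
    rw [Finset.mem_filter] at hw
    obtain ⟨i, b, hib⟩ := hf.surj w hw.1 hw.2.1
    rw [Finset.mem_image]
    refine ⟨i, Finset.mem_filter.2 ⟨mem_univ _, b, by rw [hib]; exact hw.2.2⟩, ?_⟩
    cases b
    · have : ¬ r q (f i true) := fun h2 => hat i ⟨by rw [hib]; exact hw.2.2, h2⟩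
      rw [if_neg this, hib]
    · rw [if_pos (by rw [hib]; exact hw.2.2), hib]
  have h5 : 5 ≤ I.card := by
    have h6 := (Finset.card_le_card hsub).trans Finset.card_image_le
    omega
  have hIu : I = univ := by
    apply Finset.eq_univ_of_card
    rw [Fintype.card_fin]
    refine le_antisymm ?_ h5
    calc I.card ≤ (univ : Finset (Fin 5)).card := Finset.card_le_card (Finset.subset_univ _)
      _ = 5 := by simp
  refine ⟨fun i => decide (r q (f i true)), fun i b => ?_⟩
  have hi : i ∈ I := by rw [hIu]; exact mem_univ _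
  rw [hI, Finset.mem_filter] at hi
  obtain ⟨b', hb'⟩ := hi.2
  cases b
  · rw [decide_eq_false_iff_not]
    constructor
    · exact fun h1 h2 => hat i ⟨h1, h2⟩
    · intro h1
      cases b'
      · exact hb'
      · exact absurd hb' h1
  · rw [decide_eq_true_iff]

/-- The third vertex of a triangle. -/
lemma tri {q : α} (hq : q ∈ B) (hqp : q ≠ p) (hpq : ¬ r p q) {s : Fin 5 → Bool}
    (hs : ∀ i b, r q (f i b) ↔ s i = b) (i : Fin 5) :
    ∃ w ∈ B, w ≠ p ∧ ¬ r p w ∧ r q w ∧ ∀ j b, r w (f j b) ↔ fl i s j = b := by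
  have hqa : r q (f i (s i)) := (hs i (s i)).2 rfl
  have ha := hf.mem i (s i)
  obtain ⟨w, hw, h1, h2⟩ := exi h hq ha.1 hqa
  have hwp : w ≠ p := by
    rintro rfl
    exact hpq (h.symm _ hq _ hw h1)
  have hpw : ¬ r p w := by
    intro h3
    obtain ⟨j, b, rfl⟩ := hf.surj w hw h3
    have h4 := (ff_iff h hp hf i j (s i) b).1 h2
    have h5 := (hs j b).1 h1
    obtain ⟨rfl, h6⟩ := h4
    exact h6 h5
  refine ⟨w, hw, hwp, hpw, h1, ?_⟩
  obtain ⟨t, ht⟩ := exists_sign h hp hf hw hwp hpw
  have hti : t i = s i := (ht i (s i)).1 (h.symm _ ha.1 _ hw h2)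
  have htj : ∀ j, j ≠ i → t j ≠ s j := by
    intro j hj hts
    have hc := hf.mem j (s j)
    have h3 := uniq h hq hw h1 ha.1 hc.1 hqa (h.symm _ ha.1 _ hw h2) ((hs j (s j)).2 rfl)
      ((ht j (s j)).2 hts)
    exact hj (hf.inj _ _ _ _ h3).1.symm
  have hfl : fl i s = t := by
    funext j
    unfold fl
    by_cases hj : j = i
    · rw [if_pos hj, hj, hti]
    · rw [if_neg hj]
      have := htj j hj
      revert this
      cases s j <;> cases t j <;> simp
  intro j b
  rw [hfl]
  exact ht j b

end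

lemma exists_code_aux (h : GQ B r) (hp : p ∈ B) {f : Fin 5 → Bool → α} (hf : PF B r p f)
    {s : α → Fin 5 → Bool}
    (hs : ∀ q ∈ B, q ≠ p → ¬ r p q → ∀ i b, r q (f i b) ↔ s q i = b) {q₀ : α} (hq₀ : q₀ ∈ B)
    (hq₀p : q₀ ≠ p) (hpq₀ : ¬ r p q₀) (hs₀ : s q₀ = fun _ => false) :
    ∃ c : α → Code, Set.InjOn c B ∧ c '' B = K ∧ c p = none ∧
      ∀ u ∈ B, ∀ v ∈ B, r u v ↔ R (c u) (c v) := by
  classical
  set Q := B.filter fun q => q ≠ p ∧ ¬ r p q with hQ
  have mQ : ∀ q, q ∈ Q ↔ q ∈ B ∧ q ≠ p ∧ ¬ r p q := fun q => Finset.mem_filter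
  have hpp : ¬ r p p := h.irr p hp
  have cQ : Q.card = 16 := by
    have h1 : B = insert p ((B.filter fun w => r p w) ∪ Q) := by
      ext x
      rw [Finset.mem_insert, Finset.mem_union, Finset.mem_filter, mQ]
      constructor
      · intro hx
        by_cases hxp : x = p
        · exact Or.inl hxp
        · by_cases hr : r p x
          · exact Or.inr (Or.inl ⟨hx, hr⟩)
          · exact Or.inr (Or.inr ⟨hx, hxp, hr⟩)
      · rintro (rfl | ⟨hx, -⟩ | ⟨hx, -⟩)
        · exact hp
        · exact hx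
        · exact hx
    have h2 : Disjoint (B.filter fun w => r p w) Q := by
      rw [Finset.disjoint_left]
      intro x hx hx'
      rw [Finset.mem_filter] at hx
      exact ((mQ x).1 hx').2.2 hx.2
    have h3 : p ∉ (B.filter fun w => r p w) ∪ Q := by
      rw [Finset.mem_union, Finset.mem_filter, mQ]
      rintro (⟨-, h4⟩ | ⟨-, h4, -⟩)
      · exact hpp h4
      · exact h4 rfl
    have h4 := congrArg Finset.card h1
    rw [Finset.card_insert_of_notMem h3, Finset.card_union_of_disjoint h2, h.card,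
      h.deg p hp] at h4
    omega
  -- the triangle map
  have htri : ∀ q ∈ Q, ∀ i, ∃ w ∈ Q, r q w ∧ s w = fl i (s q) := by
    intro q hq i
    obtain ⟨g1, g2, g3⟩ := (mQ q).1 hq
    obtain ⟨w, hw, hwp, hpw, hqw, ht⟩ := tri h hp hf g1 g2 g3 (hs q g1 g2 g3) i
    refine ⟨w, (mQ w).2 ⟨hw, hwp, hpw⟩, hqw, ?_⟩
    funext j
    exact (hs w hw hwp hpw j _).1 ((ht j _).2 rfl)
  -- all even sign vectors occur
  have hQ0 : q₀ ∈ Q := (mQ q₀).2 ⟨hq₀, hq₀p, hpq₀⟩
  have hE : (univ.filter fun v : Fin 5 → Bool => ev v) ⊆ Q.image s := by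
    intro v hv
    rw [Finset.mem_filter] at hv
    rw [Finset.mem_image]
    rcases ev_closure v hv.2 with h1 | ⟨i, h1⟩ | ⟨i, j, h1⟩
    · exact ⟨q₀, hQ0, by rw [hs₀, h1]⟩
    · obtain ⟨w, hw, -, h2⟩ := htri q₀ hQ0 i
      exact ⟨w, hw, by rw [h2, hs₀, h1]⟩
    · obtain ⟨w, hw, -, h2⟩ := htri q₀ hQ0 j
      obtain ⟨z, hz, -, h3⟩ := htri w hw i
      exact ⟨z, hz, by rw [h3, h2, hs₀, h1]⟩
  have hcard : (Q.image s).card ≤ (univ.filter fun v : Fin 5 → Bool => ev v).card := by
    rw [card_ev, ← cQ]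
    exact Finset.card_image_le
  have hEq : (univ.filter fun v : Fin 5 → Bool => ev v) = Q.image s :=
    Finset.eq_of_subset_of_card_le hE hcard
  have hinj : Set.InjOn s Q := by
    rw [← Finset.card_image_iff, ← hEq, card_ev, cQ]
  have hev : ∀ q ∈ Q, ev (s q) := by
    intro q hq
    have : s q ∈ (univ.filter fun v : Fin 5 → Bool => ev v) := by
      rw [hEq]
      exact Finset.mem_image_of_mem s hq
    exact (Finset.mem_filter.1 this).2
  -- relations inside `Q`
  have hQQ : ∀ q ∈ Q, ∀ q' ∈ Q, r q q' ↔ ∃ i, s q' = fl i (s q) := by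
    intro q hq q' hq'
    have g := (mQ q).1 hq
    constructor
    · intro hqq
      choose w hw1 hw2 hw3 using fun i => htri q hq i
      have hwi : Function.Injective w := by
        intro i j hij
        by_contra hne
        apply fl_ne (s q) i j hne
        rw [← hw3 i, ← hw3 j, hij]
      have hfi : Function.Injective fun i => f i (s q i) := fun i j hij =>
        (hf.inj _ _ _ _ hij).1
      have hd : Disjoint ((univ : Finset (Fin 5)).image fun i => f i (s q i))
          ((univ : Finset (Fin 5)).image w) := by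
        rw [Finset.disjoint_left]
        intro x hx hx'
        obtain ⟨i, -, rfl⟩ := Finset.mem_image.1 hx
        obtain ⟨j, -, hj⟩ := Finset.mem_image.1 hx'
        have := ((mQ _).1 (hw1 j)).2.2
        rw [hj] at this
        exact this (hf.mem _ _).2
      have hsub : ((univ : Finset (Fin 5)).image fun i => f i (s q i)) ∪
          ((univ : Finset (Fin 5)).image w) ⊆ B.filter fun w => r q w := by
        intro x hx
        rw [Finset.mem_filter]
        rcases Finset.mem_union.1 hx with hx | hx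
        · obtain ⟨i, -, rfl⟩ := Finset.mem_image.1 hx
          exact ⟨(hf.mem _ _).1, (hs q g.1 g.2.1 g.2.2 i _).2 rfl⟩
        · obtain ⟨j, -, rfl⟩ := Finset.mem_image.1 hx
          exact ⟨((mQ _).1 (hw1 j)).1, hw2 j⟩
      have hc : (((univ : Finset (Fin 5)).image fun i => f i (s q i)) ∪
          ((univ : Finset (Fin 5)).image w)).card = 10 := by
        rw [Finset.card_union_of_disjoint hd, Finset.card_image_of_injective _ hfi,
          Finset.card_image_of_injective _ hwi, Finset.card_univ, Fintype.card_fin]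
      have heq := Finset.eq_of_subset_of_card_le hsub (by rw [hc]; exact (h.deg q g.1).le)
      have hm : q' ∈ B.filter fun w => r q w := Finset.mem_filter.2 ⟨((mQ q').1 hq').1, hqq⟩
      rw [← heq] at hm
      rcases Finset.mem_union.1 hm with hx | hx
      · obtain ⟨i, -, hi⟩ := Finset.mem_image.1 hx
        have := ((mQ q').1 hq').2.2
        rw [← hi] at this
        exact absurd (hf.mem _ _).2 this
      · obtain ⟨j, -, rfl⟩ := Finset.mem_image.1 hx
        exact ⟨j, hw3 j⟩
    · rintro ⟨i, hi⟩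
      obtain ⟨w, hw1, hw2, hw3⟩ := htri q hq i
      have : w = q' := hinj hw1 hq' (by rw [hw3, hi])
      rw [← this]
      exact hw2
  -- the code
  have hidx : ∀ u, ∃ x : Fin 5 × Bool, u ∈ B → r p u → f x.1 x.2 = u := by
    intro u
    by_cases hu : u ∈ B ∧ r p u
    · obtain ⟨i, b, hib⟩ := hf.surj u hu.1 hu.2
      exact ⟨(i, b), fun _ _ => hib⟩
    · exact ⟨(0, true), fun h1 h2 => absurd ⟨h1, h2⟩ hu⟩
  choose x hx using hidx
  have hxf : ∀ i b, x (f i b) = (i, b) := by
    intro i b
    have h1 := hx (f i b) (hf.mem i b).1 (hf.mem i b).2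
    obtain ⟨h2, h3⟩ := hf.inj _ _ _ _ h1
    exact Prod.ext h2 h3
  set c : α → Code := fun u => if u = p then none else
    if r p u then some (Sum.inl (x u)) else some (Sum.inr (s u)) with hc
  have cp : c p = none := by rw [hc]; simp
  have cf : ∀ i b, c (f i b) = some (Sum.inl (i, b)) := by
    intro i b
    have h1 : f i b ≠ p := by
      intro h1
      have := (hf.mem i b).2
      rw [h1] at this
      exact hpp this
    rw [hc]
    simp only
    rw [if_neg h1, if_pos (hf.mem i b).2, hxf]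
  have cq : ∀ q ∈ Q, c q = some (Sum.inr (s q)) := by
    intro q hq
    have g := (mQ q).1 hq
    rw [hc]
    simp only
    rw [if_neg g.2.1, if_neg g.2.2]
  have cases3 : ∀ u ∈ B, u = p ∨ (∃ i b, f i b = u) ∨ u ∈ Q := by
    intro u hu
    by_cases hup : u = p
    · exact Or.inl hup
    · by_cases hr : r p u
      · exact Or.inr (Or.inl (hf.surj u hu hr))
      · exact Or.inr (Or.inr ((mQ u).2 ⟨hu, hup, hr⟩))
  refine ⟨c, ?_, ?_, cp, ?_⟩
  · intro u hu v hv huv
    rcases cases3 u hu with rfl | ⟨i, b, rfl⟩ | hu'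
    · rcases cases3 v hv with rfl | ⟨j, d, rfl⟩ | hv'
      · rfl
      · rw [cp, cf] at huv; exact absurd huv (by simp)
      · rw [cp, cq v hv'] at huv; exact absurd huv (by simp)
    · rcases cases3 v hv with rfl | ⟨j, d, rfl⟩ | hv'
      · rw [cp, cf] at huv; exact absurd huv (by simp)
      · rw [cf, cf, Option.some_inj, Sum.inl.injEq, Prod.mk.injEq] at huv
        rw [huv.1, huv.2]
      · rw [cf, cq v hv'] at huv; exact absurd huv (by simp)
    · rcases cases3 v hv with rfl | ⟨j, d, rfl⟩ | hv'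
      · rw [cp, cq u hu'] at huv; exact absurd huv (by simp)
      · rw [cf, cq u hu'] at huv; exact absurd huv (by simp)
      · rw [cq u hu', cq v hv', Option.some_inj, Sum.inr.injEq] at huv
        exact hinj hu' hv' huv
  · ext y
    constructor
    · rintro ⟨u, hu, rfl⟩
      rcases cases3 u hu with rfl | ⟨i, b, rfl⟩ | hu'
      · rw [cp]; trivial
      · rw [cf]; trivial
      · rw [cq u hu']; exact hev u hu'
    · intro hy
      match y, hy with
      | none, _ => exact ⟨p, hp, cp⟩
      | some (Sum.inl (i, b)), _ => exact ⟨f i b, (hf.mem i b).1, cf i b⟩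
      | some (Sum.inr t), ht =>
        have : t ∈ Q.image s := by
          rw [← hEq]
          exact Finset.mem_filter.2 ⟨mem_univ _, ht⟩
        obtain ⟨q, hq, rfl⟩ := Finset.mem_image.1 this
        exact ⟨q, ((mQ q).1 hq).1, cq q hq⟩
  · intro u hu v hv
    rcases cases3 u hu with rfl | ⟨i, b, rfl⟩ | hu'
    · rcases cases3 v hv with rfl | ⟨j, d, rfl⟩ | hv'
      · rw [cp]; simp only [R, iff_false]; exact hpp
      · rw [cp, cf]; simp only [R, iff_true]; exact (hf.mem j d).2
      · rw [cp, cq v hv']; simp only [R, iff_false]; exact ((mQ v).1 hv').2.2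
    · rcases cases3 v hv with rfl | ⟨j, d, rfl⟩ | hv'
      · rw [cp, cf]; simp only [R, iff_true]
        exact h.symm _ hv _ hu (hf.mem i b).2
      · rw [cf, cf]; simp only [R]
        exact ff_iff h hp hf i j b d
      · rw [cf, cq v hv']; simp only [R]
        have g := (mQ v).1 hv'
        rw [← hs v g.1 g.2.1 g.2.2 i b]
        exact ⟨fun h1 => h.symm _ hu _ hv h1, fun h1 => h.symm _ hv _ hu h1⟩
    · have gu := (mQ u).1 hu'
      rcases cases3 v hv with rfl | ⟨j, d, rfl⟩ | hv'
      · rw [cp, cq u hu']; simp only [R, iff_false]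
        exact fun h1 => gu.2.2 (h.symm _ hu _ hv h1)
      · rw [cf, cq u hu']; simp only [R]
        exact hs u gu.1 gu.2.1 gu.2.2 j d
      · rw [cq u hu', cq v hv']; simp only [R]
        exact hQQ u hu' v hv'

lemma exists_code (h : GQ B r) (hp : p ∈ B) :
    ∃ c : α → Code, Set.InjOn c B ∧ c '' B = K ∧ c p = none ∧
      ∀ u ∈ B, ∀ v ∈ B, r u v ↔ R (c u) (c v) := by
  classical
  obtain ⟨f, hf⟩ := exists_PF h hp
  -- a point outside the neighbourhood of `p`
  have hex : ∃ q ∈ B, q ≠ p ∧ ¬ r p q := by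
    by_contra hcon
    push Not at hcon
    have h1 : B ⊆ insert p (B.filter fun w => r p w) := by
      intro x hx
      rw [Finset.mem_insert, Finset.mem_filter]
      by_cases hxp : x = p
      · exact Or.inl hxp
      · exact Or.inr ⟨hx, hcon x hx hxp⟩
    have h2 := (Finset.card_le_card h1).trans (Finset.card_insert_le _ _)
    rw [h.card, h.deg p hp] at h2
    omega
  obtain ⟨q₀, hq₀, hq₀p, hpq₀⟩ := hex
  obtain ⟨t, ht⟩ := exists_sign h hp hf hq₀ hq₀p hpq₀
  have hg := hf.flip t
  have hex2 : ∀ q, ∃ s : Fin 5 → Bool, q ∈ B → q ≠ p → ¬ r p q →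
      ∀ i b, r q (f i (xor b (t i))) ↔ s i = b := by
    intro q
    by_cases hq : q ∈ B ∧ q ≠ p ∧ ¬ r p q
    · obtain ⟨s, hs⟩ := exists_sign h hp hg hq.1 hq.2.1 hq.2.2
      exact ⟨s, fun _ _ _ => hs⟩
    · exact ⟨fun _ => true, fun h1 h2 h3 => absurd ⟨h1, h2, h3⟩ hq⟩
  choose s hs using hex2
  refine exists_code_aux h hp hg hs hq₀ hq₀p hpq₀ ?_
  funext i
  refine (hs q₀ hq₀ hq₀p hpq₀ i false).1 ?_
  rw [Bool.false_xor]
  exact (ht i (t i)).2 rfl

end GQA

/-- **Uniqueness** of the strongly regular graph `(27, 10, 1, 5)`; a given vertex may be mapped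
to a given vertex. -/
theorem GQ.iso {α β : Type*} [Nonempty β] {B : Finset α} {C : Finset β} {r : α → α → Prop}
    {r' : β → β → Prop} (h : GQ B r) (h' : GQ C r') {p : α} {p' : β} (hp : p ∈ B)
    (hp' : p' ∈ C) :
    ∃ φ : α → β, Set.BijOn φ B C ∧ φ p = p' ∧
      ∀ u ∈ B, ∀ v ∈ B, r u v ↔ r' (φ u) (φ v) := by
  classical
  obtain ⟨c, c1, c2, c3, c4⟩ := GQA.exists_code h hp
  obtain ⟨d, d1, d2, d3, d4⟩ := GQA.exists_code h' hp'
  have hex : ∀ u, ∃ v, u ∈ B → v ∈ C ∧ d v = c u := by
    intro u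
    by_cases hu : u ∈ B
    · have : c u ∈ d '' C := by
        rw [d2, ← c2]
        exact ⟨u, hu, rfl⟩
      obtain ⟨v, hv, hvu⟩ := this
      exact ⟨v, fun _ => ⟨hv, hvu⟩⟩
    · exact ⟨p', fun h => absurd h hu⟩
  choose φ hφ using hex
  refine ⟨φ, ⟨fun u hu => (hφ u hu).1, ?_, ?_⟩, ?_, ?_⟩
  · intro u hu v hv huv
    apply c1 hu hv
    rw [← (hφ u hu).2, ← (hφ v hv).2, huv]
  · intro v hv
    have : d v ∈ c '' B := by
      rw [c2, ← d2]
      exact ⟨v, hv, rfl⟩
    obtain ⟨u, hu, huv⟩ := this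
    refine ⟨u, hu, d1 (hφ u hu).1 hv ?_⟩
    rw [(hφ u hu).2, huv]
  · apply d1 (hφ p hp).1 hp'
    rw [(hφ p hp).2, c3, d3]
  · intro u hu v hv
    rw [c4 u hu v hv, d4 _ (hφ u hu).1 _ (hφ v hv).1, (hφ u hu).2, (hφ v hv).2]

end Pool.Agent.Lib.MP_f1379f_gt.FV
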