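import Pool.Agent.Lib.MP_f1379f_gt.FV.TRP
import Pool.Agent.Lib.MP_f1379f_gt.FV.HLB

/-!
# MP_f1379f_gt, (L1), part C: the quartic sum over the non-contact pairs
-/

set_option autoImplicit false

namespace Pool.Agent.Lib.MP_f1379f_gt.FV.L1M

open Finset

open Classical in
/-- The non-contacts of `e`. -/
noncomputable def nc (e : E) : Finset E := (UE.erase e) \ nb e

/-- Midpoint of `f` and `u f`. -/
noncomputable def hh (u : E → E) (f : E) : E := (1 / 2 : ℝ) • (f + u f)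

theorem m6 (x : E) : ∑ f ∈ UE, (inner ℝ x f : ℝ) ^ 6 = 15 / 4 * ‖x‖ ^ 6 := by
  have h := (EV.All.hMOM EV.R EV.All.hROT.k240 x).2.2.2.2.2
  rw [UMO.sum_UE]
  simp only [UMO.inner_h, div_pow]
  rw [← sum_div, h, real_inner_self_eq_norm_sq]
  ring

theorem mem_nc {e f : E} : f ∈ nc e ↔ f ∈ UE ∧ f ≠ e ∧ (inner ℝ f e : ℝ) ≠ 1 / 2 := by
  unfold nc
  rw [mem_sdiff, mem_erase, UMO.mem_nb]
  constructor
  · rintro ⟨⟨h1, h2⟩, h3⟩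
    exact ⟨h2, h1, fun h => h3 ⟨h2, h⟩⟩
  · rintro ⟨h1, h2, h3⟩
    exact ⟨⟨h2, h1⟩, fun h => h3 h.2⟩

theorem nc_symm {e f : E} : (e ∈ UE ∧ f ∈ nc e) ↔ (e ∈ nc f ∧ f ∈ UE) := by
  rw [mem_nc, mem_nc]
  constructor
  · rintro ⟨h0, h1, h2, h3⟩
    refine ⟨⟨h0, fun h => h2 h.symm, fun h => h3 ?_⟩, h1⟩
    rw [real_inner_comm]
    exact h
  · rintro ⟨⟨h0, h2, h3⟩, h1⟩
    refine ⟨h0, h1, fun h => h2 h.symm, fun h => h3 ?_⟩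
    rw [real_inner_comm]
    exact h

theorem nc_swap (h : E → E → ℝ) :
    ∑ e ∈ UE, ∑ f ∈ nc e, h e f = ∑ e ∈ UE, ∑ f ∈ nc e, h f e :=
  sum_comm' fun _ _ => nc_symm

theorem e_nb (e : E) (he : e ∈ UE) : e ∉ nb e := by
  rw [UMO.mem_nb]
  rintro ⟨_, h⟩
  rw [real_inner_self_eq_norm_sq, AllO.hUEF.nrm e he] at h
  norm_num at h

theorem split_erase (e : E) (he : e ∈ UE) (h : E → ℝ) :
    ∑ f ∈ UE.erase e, h f = ∑ f ∈ nb e, h f + ∑ f ∈ nc e, h f := by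
  classical
  have hs : nb e ⊆ UE.erase e := by
    intro f hf
    rw [mem_erase]
    refine ⟨fun h => ?_, UMO.nb_UE hf⟩
    rw [h] at hf
    exact e_nb e he hf
  have h1 := sum_sdiff (f := h) hs
  unfold nc
  rw [← h1, add_comm]

theorem split (e : E) (he : e ∈ UE) (h : E → ℝ) :
    ∑ f ∈ UE, h f = h e + ∑ f ∈ nb e, h f + ∑ f ∈ nc e, h f := by
  rw [← add_sum_erase UE h he, split_erase e he]
  ring

variable {u : E → E}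

theorem hh_norm (hu : CFG u) {f : E} (hf : f ∈ UE) : ‖hh u f‖ ≤ 1 := by
  unfold hh
  rw [norm_smul]
  have h1 := norm_add_le f (u f)
  have h2 := AllO.hUEF.nrm f hf
  have h3 := hu.le_one f hf
  have h4 : ‖(1 / 2 : ℝ)‖ = 1 / 2 := by norm_num
  rw [h4]
  linarith

theorem inner_hh (x f : E) : (inner ℝ x (hh u f) : ℝ) = inner ℝ x f + inner ℝ x (u f - f) / 2 := by
  unfold hh
  rw [real_inner_smul_right, inner_add_right, inner_sub_right]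
  ring

theorem dd_hh (e f : E) : dd u e f =
    (inner ℝ (u e - e) (hh u f) : ℝ) + inner ℝ (u f - f) (hh u e) := by
  unfold dd hh
  rw [real_inner_smul_right, real_inner_smul_right]
  simp only [inner_sub_left, inner_add_right]
  rw [real_inner_comm e f, real_inner_comm e (u f), real_inner_comm (u e) f,
    real_inner_comm (u e) (u f)]
  ring

theorem pw4 {a y : ℝ} (ha0 : 0 ≤ a) (ha1 : a ≤ 1) (hy : 0 ≤ y) (hy2 : y ^ 2 ≤ 13 / 400) :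
    (a + y) ^ 4 ≤ a ^ 4 + 3 / 10 * a ^ 6 + 302 / 15 * y ^ 2 := by
  have hy3 : y ≤ 181 / 1000 := by nlinarith
  have h1 : 4 * a ^ 3 * y ≤ 3 / 10 * a ^ 6 + 40 / 3 * y ^ 2 := by
    nlinarith [sq_nonneg (a ^ 3 - 20 / 3 * y)]
  have ha2 : a ^ 2 ≤ 1 := by nlinarith
  have h2 : 6 * a ^ 2 * y ^ 2 ≤ 6 * y ^ 2 := by nlinarith [sq_nonneg y]
  have h3 : 4 * a * y ^ 3 ≤ 4 * (181 / 1000) * y ^ 2 := by
    calc 4 * a * y ^ 3 = 4 * (a * y) * y ^ 2 := by ring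
      _ ≤ 4 * (1 * (181 / 1000)) * y ^ 2 := by gcongr
      _ = _ := by ring
  have h4 : y ^ 4 ≤ 13 / 400 * y ^ 2 := by nlinarith [sq_nonneg y]
  nlinarith

theorem pw6 {a y : ℝ} (ha0 : 0 ≤ a) (ha1 : a ≤ 1) (hy : 0 ≤ y) (hy2 : y ^ 2 ≤ 13 / 400) :
    (a + y) ^ 6 ≤ 29 / 20 * a ^ 6 + 196 / 5 * y ^ 2 := by
  have hy3 : y ≤ 181 / 1000 := by nlinarith
  have ha2 : a ^ 2 ≤ 1 := by nlinarith
  have ha3 : 0 ≤ a ^ 3 := by positivity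
  have ha3' : a ^ 3 ≤ 1 := pow_le_one₀ ha0 ha1
  have ha4 : a ^ 4 ≤ 1 := pow_le_one₀ ha0 ha1
  have h1 : 6 * a ^ 3 * y ≤ 9 / 20 * a ^ 6 + 20 * y ^ 2 := by
    nlinarith [sq_nonneg (a ^ 3 - 20 / 3 * y)]
  have h1' : 6 * a ^ 5 * y ≤ 6 * a ^ 3 * y := by
    have : a ^ 5 ≤ a ^ 3 := by
      calc a ^ 5 = a ^ 3 * a ^ 2 := by ring
        _ ≤ a ^ 3 * 1 := mul_le_mul_of_nonneg_left ha2 ha3
        _ = a ^ 3 := by ring
    nlinarith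
  have h2 : 15 * a ^ 4 * y ^ 2 ≤ 15 * y ^ 2 := by nlinarith [sq_nonneg y]
  have h3 : 20 * a ^ 3 * y ^ 3 ≤ 20 * (181 / 1000) * y ^ 2 := by
    calc 20 * a ^ 3 * y ^ 3 = 20 * (a ^ 3 * y) * y ^ 2 := by ring
      _ ≤ 20 * (1 * (181 / 1000)) * y ^ 2 := by gcongr
      _ = _ := by ring
  have h4 : 15 * a ^ 2 * y ^ 4 ≤ 15 * (13 / 400) * y ^ 2 := by
    calc 15 * a ^ 2 * y ^ 4 = 15 * (a ^ 2 * y ^ 2) * y ^ 2 := by ring
      _ ≤ 15 * (1 * (13 / 400)) * y ^ 2 := by gcongr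
      _ = _ := by ring
  have h5 : 6 * a * y ^ 5 ≤ 6 * (181 / 1000 * (13 / 400)) * y ^ 2 := by
    calc 6 * a * y ^ 5 = 6 * (a * (y * y ^ 2)) * y ^ 2 := by ring
      _ ≤ 6 * (1 * (181 / 1000 * (13 / 400))) * y ^ 2 := by gcongr
      _ = _ := by ring
  have h6 : y ^ 6 ≤ (13 / 400) ^ 2 * y ^ 2 := by
    calc y ^ 6 = (y ^ 2) ^ 2 * y ^ 2 := by ring
      _ ≤ (13 / 400) ^ 2 * y ^ 2 := by gcongr
  have e : (a + y) ^ 6 = a ^ 6 + 6 * a ^ 5 * y + 15 * a ^ 4 * y ^ 2 + 20 * a ^ 3 * y ^ 3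
      + 15 * a ^ 2 * y ^ 4 + 6 * a * y ^ 5 + y ^ 6 := by ring
  rw [e]
  nlinarith [sq_nonneg y]

theorem abs_hh (v f : E) (hv : ‖v‖ ≤ 1) :
    |(inner ℝ v (hh u f) : ℝ)| ≤ |(inner ℝ v f : ℝ)| + ‖u f - f‖ / 2 := by
  rw [inner_hh]
  refine (abs_add_le _ _).trans ?_
  rw [abs_div]
  have h := abs_real_inner_le_norm v (u f - f)
  have h2 : ‖v‖ * ‖u f - f‖ ≤ 1 * ‖u f - f‖ := by gcongr
  have h3 : |(2 : ℝ)| = 2 := by norm_num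
  rw [h3]
  linarith

theorem abs_inner_le {v f : E} (hv : ‖v‖ ≤ 1) (hf : f ∈ UE) : |(inner ℝ v f : ℝ)| ≤ 1 := by
  have h := abs_real_inner_le_norm v f
  rw [AllO.hUEF.nrm f hf, mul_one] at h
  exact h.trans hv

theorem row4 {v : E} (hv : ‖v‖ ≤ 1) {M : Finset E} (hM : M ⊆ UE)
    (hm : ∀ f ∈ M, ‖u f - f‖ ^ 2 ≤ 13 / 100) :
    ∑ f ∈ M, (inner ℝ v (hh u f) : ℝ) ^ 4 ≤ 81 / 8 + 151 / 30 * ∑ f ∈ M, ‖u f - f‖ ^ 2 := by
  have h1 : ∀ f ∈ M, (inner ℝ v (hh u f) : ℝ) ^ 4 ≤ (inner ℝ v f : ℝ) ^ 4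
      + 3 / 10 * (inner ℝ v f : ℝ) ^ 6 + 151 / 30 * ‖u f - f‖ ^ 2 := by
    intro f hf
    have h2 := pw4 (abs_nonneg _) (abs_inner_le hv (hM hf))
      (y := ‖u f - f‖ / 2) (by positivity) (by have := hm f hf; nlinarith)
    have h3 := pow_le_pow_left₀ (abs_nonneg _) (abs_hh (u := u) v f hv) 4
    have e4 : |(inner ℝ v (hh u f) : ℝ)| ^ 4 = (inner ℝ v (hh u f) : ℝ) ^ 4 := by
      rw [← abs_pow]; exact abs_of_nonneg (by positivity)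
    have e4' : |(inner ℝ v f : ℝ)| ^ 4 = (inner ℝ v f : ℝ) ^ 4 := by
      rw [← abs_pow]; exact abs_of_nonneg (by positivity)
    have e6 : |(inner ℝ v f : ℝ)| ^ 6 = (inner ℝ v f : ℝ) ^ 6 := by
      rw [← abs_pow]; exact abs_of_nonneg (by positivity)
    rw [e4] at h3
    rw [e4', e6] at h2
    refine h3.trans (h2.trans (le_of_eq ?_))
    ring
  have h5 : ∑ f ∈ M, (inner ℝ v f : ℝ) ^ 4 ≤ 9 := by
    refine (sum_le_sum_of_subset_of_nonneg hM fun f _ _ => by positivity).trans ?_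
    rw [UMO.m4]
    have : ‖v‖ ^ 4 ≤ 1 := pow_le_one₀ (norm_nonneg _) hv
    linarith
  have h6 : ∑ f ∈ M, (inner ℝ v f : ℝ) ^ 6 ≤ 15 / 4 := by
    refine (sum_le_sum_of_subset_of_nonneg hM fun f _ _ => by positivity).trans ?_
    rw [m6]
    have : ‖v‖ ^ 6 ≤ 1 := pow_le_one₀ (norm_nonneg _) hv
    linarith
  have h7 := sum_le_sum h1
  rw [sum_add_distrib, sum_add_distrib, ← mul_sum, ← mul_sum] at h7
  linarith

theorem row6 {v : E} (hv : ‖v‖ ≤ 1) {M : Finset E} (hM : M ⊆ UE)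
    (hm : ∀ f ∈ M, ‖u f - f‖ ^ 2 ≤ 13 / 100) :
    ∑ f ∈ M, (inner ℝ v (hh u f) : ℝ) ^ 6 ≤ 87 / 16 + 49 / 5 * ∑ f ∈ M, ‖u f - f‖ ^ 2 := by
  have h1 : ∀ f ∈ M, (inner ℝ v (hh u f) : ℝ) ^ 6 ≤
      29 / 20 * (inner ℝ v f : ℝ) ^ 6 + 49 / 5 * ‖u f - f‖ ^ 2 := by
    intro f hf
    have h2 := pw6 (abs_nonneg _) (abs_inner_le hv (hM hf))
      (y := ‖u f - f‖ / 2) (by positivity) (by have := hm f hf; nlinarith)
    have h3 := pow_le_pow_left₀ (abs_nonneg _) (abs_hh (u := u) v f hv) 6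
    have e6 : |(inner ℝ v (hh u f) : ℝ)| ^ 6 = (inner ℝ v (hh u f) : ℝ) ^ 6 := by
      rw [← abs_pow]; exact abs_of_nonneg (by positivity)
    have e6' : |(inner ℝ v f : ℝ)| ^ 6 = (inner ℝ v f : ℝ) ^ 6 := by
      rw [← abs_pow]; exact abs_of_nonneg (by positivity)
    rw [e6] at h3
    rw [e6'] at h2
    refine h3.trans (h2.trans (le_of_eq ?_))
    ring
  have h6 : ∑ f ∈ M, (inner ℝ v f : ℝ) ^ 6 ≤ 15 / 4 := by
    refine (sum_le_sum_of_subset_of_nonneg hM fun f _ _ => by positivity).trans ?_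
    rw [m6]
    have : ‖v‖ ^ 6 ≤ 1 := pow_le_one₀ (norm_nonneg _) hv
    linarith
  have h7 := sum_le_sum h1
  rw [sum_add_distrib, ← mul_sum, ← mul_sum] at h7
  linarith

end Pool.Agent.Lib.MP_f1379f_gt.FV.L1M
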