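import Pool.Agent.Lib.MP_f1379f_gt.FV.TL2

/-!
# MP_f1379f_gt, block O, module ORT: the orthogonal roots
-/

set_option autoImplicit false

namespace Pool.Agent.Lib.MP_f1379f_gt.FV

open MeasureTheory

namespace ORTM

theorem mem_ob (a e : E) : e ∈ ob a ↔ e ∈ UE ∧ (inner ℝ e a : ℝ) = 0 := by
  unfold ob
  rw [Finset.mem_filter]

/-! ### Symmetries -/

section sym

variable {T : E ≃ₗᵢ[ℝ] E}

theorem mx_T (hKCO : SpecKCO) (hT : ∀ f ∈ UE, T f ∈ UE) (y : E) : mx id (T y) = mx id y := by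
  apply le_antisymm
  · apply hKCO.ge
    intro e he
    obtain ⟨f, hf, rfl⟩ := NUTM.surj_UE T hT e he
    show (inner ℝ (T f) (T y) : ℝ) ≤ _
    rw [T.inner_map_map]
    exact hKCO.le id f hf y
  · apply hKCO.ge
    intro e he
    show (inner ℝ e y : ℝ) ≤ _
    rw [← T.inner_map_map e y]
    exact hKCO.le id (T e) (hT e he) (T y)

theorem pre_WW (hKCO : SpecKCO) (hT : ∀ f ∈ UE, T f ∈ UE) : T ⁻¹' WW = WW := by
  ext y
  show 5 * mx id (T y) ^ 2 < 3 * ‖T y‖ ^ 2 ↔ 5 * mx id y ^ 2 < 3 * ‖y‖ ^ 2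
  rw [mx_T hKCO hT, T.norm_map]

/-- the density -/
noncomputable def dens (y : E) : ENNReal := ENNReal.ofReal (Real.exp (-mx id y) / 40320)

theorem dens_meas (hKCO : SpecKCO) : Measurable dens := by
  have h := (hKCO.mxc id)
  exact ENNReal.measurable_ofReal.comp
    ((Real.continuous_exp.comp h.neg).div_const _).measurable

/-- Restrictions with invariant densities are invariant. -/
theorem mp_gen {mu : Measure E} (hmu : MeasurePreserving T mu mu) {S : Set E}
    (hS : MeasurableSet S) (hST : T ⁻¹' S = S) {r : E → ENNReal} (hr : Measurable r)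
    (hrT : ∀ y, r (T y) = r y) :
    MeasurePreserving T ((mu.restrict S).withDensity r) ((mu.restrict S).withDensity r) := by
  have hmes : Measurable T := T.continuous.measurable
  refine ⟨hmes, ?_⟩
  ext A hA
  rw [Measure.map_apply hmes hA, withDensity_apply _ (hmes hA), withDensity_apply _ hA,
    Measure.restrict_restrict (hmes hA), Measure.restrict_restrict hA]
  have h1 : T ⁻¹' A ∩ S = T ⁻¹' (A ∩ S) := by
    rw [Set.preimage_inter, hST]
  rw [h1, ← hmu.setLIntegral_comp_preimage (hA.inter hS) hr]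
  apply lintegral_congr
  intro y
  exact (hrT y).symm

theorem mp_muW (hKCO : SpecKCO) (hT : ∀ f ∈ UE, T f ∈ UE) : MeasurePreserving T muW muW :=
  mp_gen (LinearIsometryEquiv.measurePreserving T) hKCO.wmeas (pre_WW hKCO hT)
    (dens_meas hKCO) (fun y => by rw [mx_T hKCO hT])

end sym

/-- The gap. -/
noncomputable def gg (a y : E) : ℝ := mx id y - inner ℝ a y

theorem gg_cont (hKCO : SpecKCO) (a : E) : Continuous (gg a) := by
  unfold gg
  exact (hKCO.mxc id).sub (by fun_prop)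

/-- The union of the cones. -/
def AA (a : E) : Set E := ⋃ e ∈ ob a, Kc e

/-- The set where the gap is small. -/
def GS (a : E) : Set E := {y | 0 < gg a y ∧ gg a y ≤ 4207 / 10000 * mx id y}

theorem AA_meas (hKCO : SpecKCO) (a : E) : MeasurableSet (AA a) :=
  (ob a).measurableSet_biUnion (fun e _ => hKCO.meas e)

theorem GS_meas (hKCO : SpecKCO) (a : E) : MeasurableSet (GS a) := by
  apply MeasurableSet.inter
  · exact measurableSet_lt measurable_const (gg_cont hKCO a).measurable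
  · exact measurableSet_le (gg_cont hKCO a).measurable
      ((hKCO.mxc id).const_mul _).measurable

/-- The density. -/
noncomputable def rho (a y : E) : ENNReal := ENNReal.ofReal (27 / 256 / gg a y ^ 3)

theorem rho_meas (hKCO : SpecKCO) (a : E) : Measurable (rho a) := by
  have h := (gg_cont hKCO a).measurable
  unfold rho
  fun_prop

/-- The measure. -/
noncomputable def nu (a : E) : Measure E := (muW.restrict (AA a ∩ GS a)).withDensity (rho a)

section sym2

variable {T : E ≃ₗᵢ[ℝ] E} {a : E}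

theorem gg_T (hKCO : SpecKCO) (hT : ∀ f ∈ UE, T f ∈ UE) (hTa : T a = a) (y : E) :
    gg a (T y) = gg a y := by
  unfold gg
  rw [mx_T hKCO hT]
  conv_lhs => rw [← hTa]
  rw [T.inner_map_map]

theorem Kc_T (hT : ∀ f ∈ UE, T f ∈ UE) (e y : E) : T y ∈ Kc (T e) ↔ y ∈ Kc e := by
  constructor
  · intro h s hs
    have h1 := h (T s) (hT s hs)
    rwa [T.inner_map_map, T.inner_map_map] at h1
  · intro h s hs
    obtain ⟨f, hf, rfl⟩ := NUTM.surj_UE T hT s hs
    rw [T.inner_map_map, T.inner_map_map]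
    exact h f hf

theorem AA_T (hT : ∀ f ∈ UE, T f ∈ UE) (hTa : T a = a) : T ⁻¹' AA a = AA a := by
  ext y
  simp only [AA, Set.mem_preimage, Set.mem_iUnion]
  constructor
  · rintro ⟨e, he, hy⟩
    obtain ⟨h1, h2⟩ := (mem_ob a e).1 he
    obtain ⟨f, hf, rfl⟩ := NUTM.surj_UE T hT e h1
    refine ⟨f, (mem_ob a f).2 ⟨hf, ?_⟩, (Kc_T hT f y).1 hy⟩
    rw [← hTa, T.inner_map_map] at h2
    exact h2
  · rintro ⟨e, he, hy⟩
    obtain ⟨h1, h2⟩ := (mem_ob a e).1 he
    refine ⟨T e, (mem_ob a (T e)).2 ⟨hT e h1, ?_⟩, (Kc_T hT e y).2 hy⟩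
    conv_lhs => rw [← hTa]
    rw [T.inner_map_map]
    exact h2

theorem GS_T (hKCO : SpecKCO) (hT : ∀ f ∈ UE, T f ∈ UE) (hTa : T a = a) : T ⁻¹' GS a = GS a := by
  ext y
  simp only [GS, Set.mem_preimage, Set.mem_ofPred_eq]
  rw [gg_T hKCO hT hTa, mx_T hKCO hT]

theorem nu_T (hKCO : SpecKCO) (hT : ∀ f ∈ UE, T f ∈ UE) (hTa : T a = a) :
    MeasurePreserving T (nu a) (nu a) := by
  unfold nu
  refine mp_gen (mp_muW hKCO hT) ((AA_meas hKCO a).inter (GS_meas hKCO a)) ?_
    (rho_meas hKCO a) ?_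
  · rw [Set.preimage_inter, AA_T hT hTa, GS_T hKCO hT hTa]
  · intro y
    unfold rho
    rw [gg_T hKCO hT hTa]

end sym2

/-! ### The orthonormal basis -/

theorem reps {ι : E → E} (n : ℕ) : ∀ M : Finset E,
    (∀ b ∈ M, ι b ∈ M ∧ ι b ≠ b ∧ ι (ι b) = b) → M.card = 2 * n →
    ∃ r : Fin n → E, (∀ i, r i ∈ M) ∧ ∀ i j, i ≠ j → r i ≠ r j ∧ r i ≠ ι (r j) := by
  classical
  induction n with
  | zero => exact fun M _ _ => ⟨Fin.elim0, fun i => i.elim0, fun i => i.elim0⟩
  | succ n ih =>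
    intro M hM hc
    obtain ⟨b, hb⟩ : M.Nonempty := by
      rw [← Finset.card_pos]; omega
    obtain ⟨h1, h2, h3⟩ := hM b hb
    have hb' : ι b ∈ M.erase b := Finset.mem_erase.2 ⟨h2, h1⟩
    have hc' : ((M.erase b).erase (ι b)).card = 2 * n := by
      rw [Finset.card_erase_of_mem hb', Finset.card_erase_of_mem hb]; omega
    obtain ⟨r, hr1, hr2⟩ := ih ((M.erase b).erase (ι b)) (by
      intro c hcm
      obtain ⟨h4, h5⟩ := Finset.mem_erase.1 hcm
      obtain ⟨h6, h7⟩ := Finset.mem_erase.1 h5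
      obtain ⟨h8, h9, h10⟩ := hM c h7
      refine ⟨Finset.mem_erase.2 ⟨?_, Finset.mem_erase.2 ⟨?_, h8⟩⟩, h9, h10⟩
      · intro h; apply h6; rw [← h10, h, h3]
      · intro h; apply h4; rw [← h10, h]) hc'
    have hr3 : ∀ i, r i ≠ ι b ∧ r i ≠ b ∧ r i ∈ M := by
      intro i
      obtain ⟨h4, h5⟩ := Finset.mem_erase.1 (hr1 i)
      obtain ⟨h6, h7⟩ := Finset.mem_erase.1 h5
      exact ⟨h4, h6, h7⟩
    refine ⟨Fin.cons b r, ?_, ?_⟩
    · intro i
      refine Fin.cases ?_ (fun j => ?_) i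
      · exact hb
      · exact (hr3 j).2.2
    · intro i j
      refine Fin.cases ?_ (fun i' => ?_) i <;> refine Fin.cases ?_ (fun j' => ?_) j
      · intro h; exact absurd rfl h
      · intro _
        simp only [Fin.cons_zero, Fin.cons_succ]
        refine ⟨(hr3 j').2.1.symm, ?_⟩
        intro h
        apply (hr3 j').1
        rw [h, (hM _ (hr3 j').2.2).2.2]
      · intro _
        simp only [Fin.cons_zero, Fin.cons_succ]
        exact ⟨(hr3 i').2.1, (hr3 i').1⟩
      · intro h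
        simp only [Fin.cons_succ]
        exact hr2 i' j' (fun h' => h (by rw [h']))

theorem basis_ex (hUEF : SpecUEF) (a e : E) (ha : a ∈ UE) (he : e ∈ ob a) :
    ∃ b : OrthonormalBasis (Fin 8) ℝ E, b 0 = e ∧ b 1 = a ∧
      ∀ i : Fin 6, ∀ y ∈ Kc e,
        |(inner ℝ (b i.succ.succ) y : ℝ)| ≤ ((inner ℝ e y : ℝ) - inner ℝ a y) / Real.sqrt 2 := by
  classical
  obtain ⟨heU, hea⟩ := (mem_ob a e).1 he
  have hself : ∀ f ∈ UE, (inner ℝ f f : ℝ) = 1 := by
    intro f hf
    rw [real_inner_self_eq_norm_sq, hUEF.nrm f hf]; norm_num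
  have hae : (inner ℝ a e : ℝ) = 0 := by rw [real_inner_comm]; exact hea
  have haa := hself a ha
  have hee := hself e heU
  -- the twelve vectors
  have h12 := hUEF.c12 a ha e he
  set M : Finset E := UE.filter (fun b => (inner ℝ b e : ℝ) = 1 / 2 ∧ (inner ℝ b a : ℝ) = 1 / 2)
    with hMdef
  have hMm : ∀ b, b ∈ M ↔ b ∈ UE ∧ (inner ℝ b e : ℝ) = 1 / 2 ∧ (inner ℝ b a : ℝ) = 1 / 2 := by
    intro b
    rw [hMdef, Finset.mem_filter]
  have hMc : M.card = 2 * 6 := by
    have h1 : ({b : E | b ∈ UE ∧ (inner ℝ b e : ℝ) = 1 / 2 ∧ (inner ℝ b a : ℝ) = 1 / 2}) =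
        (M : Set E) := by
      ext b
      rw [Finset.mem_coe, hMm]
      rfl
    rw [h1, Set.ncard_coe_finset] at h12
    exact h12
  have hle : ∀ f ∈ UE, ∀ g ∈ UE, f ≠ g → (inner ℝ f g : ℝ) ≤ 1 / 2 := by
    intro f hf g hg hfg
    rcases hUEF.ip f hf g hg with h | h | h | h | h
    · exact absurd (hUEF.one f hf g hg h) hfg
    all_goals linarith
  have hinv : ∀ b ∈ M, e + a - b ∈ M ∧ e + a - b ≠ b ∧ e + a - (e + a - b) = b := by
    intro b hb
    obtain ⟨h1, h2, h3⟩ := (hMm b).1 hb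
    have hbb := hself b h1
    have hm1 : e - b ∈ UE := by
      apply hUEF.sub e heU b h1
      rw [real_inner_comm]; exact h2
    have hm2 : a + (e - b) ∈ UE := by
      apply hUEF.add a ha _ hm1
      rw [inner_sub_right, hae, real_inner_comm b a, h3]
      norm_num
    have hm3 : a + (e - b) = e + a - b := by abel
    rw [hm3] at hm2
    refine ⟨(hMm _).2 ⟨hm2, ?_, ?_⟩, ?_, by abel⟩
    · rw [inner_sub_left, inner_add_left, hee, hae, h2]; norm_num
    · rw [inner_sub_left, inner_add_left, hea, haa, h3]; norm_num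
    · intro h
      have h4 : (inner ℝ (e + a - b) b : ℝ) = 0 := by
        rw [inner_sub_left, inner_add_left, real_inner_comm b e, real_inner_comm b a, h2, h3, hbb]
        norm_num
      rw [h, hbb] at h4
      norm_num at h4
  obtain ⟨r, hr1, hr2⟩ := reps (ι := fun b => e + a - b) 6 M hinv hMc
  have hrM : ∀ i, r i ∈ UE ∧ (inner ℝ (r i) e : ℝ) = 1 / 2 ∧ (inner ℝ (r i) a : ℝ) = 1 / 2 :=
    fun i => (hMm _).1 (hr1 i)
  have hrr : ∀ i j, i ≠ j → (inner ℝ (r i) (r j) : ℝ) = 1 / 2 := by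
    intro i j hij
    obtain ⟨h1, h2⟩ := hr2 i j hij
    have h3 := hle _ (hrM i).1 _ (hrM j).1 h1
    have h4 := hle _ (hrM i).1 _ ((hMm _).1 (hinv _ (hr1 j)).1).1 h2
    rw [inner_sub_right, inner_add_right, (hrM i).2.1, (hrM i).2.2] at h4
    linarith
  have hs2 : Real.sqrt 2 ^ 2 = 2 := Real.sq_sqrt (by norm_num)
  have hs0 : 0 < Real.sqrt 2 := by positivity
  have hs1 : (1 / Real.sqrt 2) * (1 / Real.sqrt 2) = 1 / 2 := by
    rw [div_mul_div_comm, one_mul, ← pow_two, hs2]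
  set v : Fin 6 → E := fun i => (1 / Real.sqrt 2) • ((2 : ℝ) • r i - e - a) with hv
  have hvv : ∀ i j, (inner ℝ (v i) (v j) : ℝ) = 2 * (inner ℝ (r i) (r j) : ℝ) - 1 := by
    intro i j
    simp only [hv]
    rw [real_inner_smul_left, real_inner_smul_right, ← mul_assoc, hs1]
    have h1 := (hrM i).2.1
    have h2 := (hrM i).2.2
    have h3 : (inner ℝ e (r j) : ℝ) = 1 / 2 := by rw [real_inner_comm]; exact (hrM j).2.1
    have h4 : (inner ℝ a (r j) : ℝ) = 1 / 2 := by rw [real_inner_comm]; exact (hrM j).2.2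
    simp only [inner_sub_left, inner_sub_right, real_inner_smul_left, real_inner_smul_right,
      h1, h2, h3, h4, hee, haa, hea, hae]
    ring
  have hve : ∀ i, (inner ℝ (v i) e : ℝ) = 0 := by
    intro i
    simp only [hv]
    rw [real_inner_smul_left, inner_sub_left, inner_sub_left, real_inner_smul_left, (hrM i).2.1,
      hee, hae]
    ring
  have hva : ∀ i, (inner ℝ (v i) a : ℝ) = 0 := by
    intro i
    simp only [hv]
    rw [real_inner_smul_left, inner_sub_left, inner_sub_left, real_inner_smul_left, (hrM i).2.2,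
      haa, hea]
    ring
  set w : Fin 8 → E := Fin.cons e (Fin.cons a v) with hw
  have hon : Orthonormal ℝ w := by
    rw [orthonormal_iff_ite]
    intro i j
    refine Fin.cases ?_ (fun i' => ?_) i <;> refine Fin.cases ?_ (fun j' => ?_) j
    · rw [if_pos rfl]; exact hee
    · refine Fin.cases ?_ (fun j'' => ?_) j'
      · simp [hw, hea]
      · simp only [hw, Fin.cons_zero, Fin.cons_succ]
        rw [real_inner_comm, hve, if_neg (Fin.succ_ne_zero _).symm]
    · refine Fin.cases ?_ (fun i'' => ?_) i'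
      · simp [hw, hae]
      · simp only [hw, Fin.cons_zero, Fin.cons_succ]
        rw [hve, if_neg (Fin.succ_ne_zero _)]
    · refine Fin.cases ?_ (fun i'' => ?_) i' <;> refine Fin.cases ?_ (fun j'' => ?_) j'
      · rw [if_pos rfl]; exact haa
      · simp only [hw, Fin.cons_zero, Fin.cons_succ]
        rw [real_inner_comm, hva, if_neg]
        intro h
        exact (Fin.succ_ne_zero _).symm (Fin.succ_injective _ h)
      · simp only [hw, Fin.cons_zero, Fin.cons_succ]
        rw [hva, if_neg]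
        intro h
        exact (Fin.succ_ne_zero _) (Fin.succ_injective _ h)
      · simp only [hw, Fin.cons_succ]
        rw [hvv]
        by_cases hij : i'' = j''
        · subst hij
          rw [hself _ (hrM i'').1, if_pos rfl]; norm_num
        · rw [hrr _ _ hij, if_neg]
          · norm_num
          · intro h
            exact hij (Fin.succ_injective _ (Fin.succ_injective _ h))
  have hsp : ⊤ ≤ Submodule.span ℝ (Set.range w) := by
    rw [hon.linearIndependent.span_eq_top_of_card_eq_finrank (by simp)]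
  refine ⟨OrthonormalBasis.mk hon hsp, ?_, ?_, ?_⟩
  · rw [OrthonormalBasis.coe_mk]; rfl
  · rw [OrthonormalBasis.coe_mk]; rfl
  · intro i y hy
    rw [OrthonormalBasis.coe_mk]
    show |(inner ℝ (v i) y : ℝ)| ≤ _
    have h1 := hy _ (hrM i).1
    have h2 := hy _ ((hMm _).1 (hinv _ (hr1 i)).1).1
    rw [inner_sub_left, inner_add_left] at h2
    simp only [hv]
    rw [real_inner_smul_left, inner_sub_left, inner_sub_left, real_inner_smul_left, abs_mul,
      abs_of_pos (by positivity), one_div, inv_mul_eq_div]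
    apply div_le_div_of_nonneg_right _ hs0.le
    rw [abs_le]
    constructor <;> linarith

/-! ### The integral in orthonormal coordinates -/

/-- Splitting off the first coordinate. -/
theorem it_succ {n : ℕ} (F : (Fin (n + 1) → ℝ) → ENNReal) (hF : Measurable F) :
    ∫⁻ z, F z = ∫⁻ t : ℝ, ∫⁻ z' : Fin n → ℝ, F (Fin.cons t z') := by
  have hp := volume_preserving_piFinSuccAbove (fun _ : Fin (n + 1) => ℝ) 0
  have h1 := hp.symm.lintegral_comp hF
  rw [← h1, Measure.volume_eq_prod, lintegral_prod]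
  · apply lintegral_congr
    intro t
    apply lintegral_congr
    intro z'
    congr 1
    exact Fin.insertNth_zero' t z'
  · exact (hF.comp (MeasurableEquiv.measurable _)).aemeasurable

/-- The volume of the cube. -/
theorem cube (c : ℝ) : volume {z : Fin 6 → ℝ | ∀ i, |z i| ≤ c} = ENNReal.ofReal (2 * c) ^ 6 := by
  have h1 : {z : Fin 6 → ℝ | ∀ i, |z i| ≤ c} = Set.pi Set.univ (fun _ => Set.Icc (-c) c) := by
    ext z
    simp only [Set.mem_ofPred_eq, Set.mem_pi, Set.mem_univ, true_implies, Set.mem_Icc, abs_le]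
  rw [h1, volume_pi_pi]
  simp only [Real.volume_Icc, Finset.prod_const, Finset.card_univ, Fintype.card_fin]
  congr 2
  ring

/-- The domain of the pair of the two main coordinates. -/
def DM : Set (ℝ × ℝ) := {p | 0 < p.1 - p.2 ∧ p.1 - p.2 ≤ 4207 / 10000 * p.1}

theorem DM_meas : MeasurableSet DM := by
  apply MeasurableSet.inter
  · exact measurableSet_lt (f := fun _ : ℝ × ℝ => (0 : ℝ)) (g := fun p : ℝ × ℝ => p.1 - p.2)
      measurable_const (by fun_prop)
  · exact measurableSet_le (f := fun p : ℝ × ℝ => p.1 - p.2)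
      (g := fun p : ℝ × ℝ => 4207 / 10000 * p.1) (by fun_prop) (by fun_prop)

/-- The bound of the integrand. -/
noncomputable def Ph : ℝ × ℝ → ENNReal := DM.indicator fun p =>
  ENNReal.ofReal (Real.exp (-p.1) / 40320) *
    ENNReal.ofReal (27 / 256 * (p.1 ^ 2 + 3 * (p.1 - p.2) ^ 2) ^ 2 / (p.1 - p.2) ^ 3)

theorem Ph_meas : Measurable Ph := by
  unfold Ph
  exact Measurable.indicator (by fun_prop) DM_meas

/-- The bound as a function of all coordinates. -/
noncomputable def Th (x : Fin 8 → ℝ) : ENNReal :=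
  Ph (x 0, x 1) * ({x : Fin 8 → ℝ | ∀ i : Fin 6, |x i.succ.succ| ≤ (x 0 - x 1) / Real.sqrt 2}
    |>.indicator (fun _ => (1 : ENNReal)) x)

theorem Th_meas : Measurable Th := by
  unfold Th
  refine Measurable.mul (Ph_meas.comp (by fun_prop)) ?_
  refine measurable_const.indicator ?_
  have : {x : Fin 8 → ℝ | ∀ i : Fin 6, |x i.succ.succ| ≤ (x 0 - x 1) / Real.sqrt 2} =
      ⋂ i : Fin 6, {x : Fin 8 → ℝ | |x i.succ.succ| ≤ (x 0 - x 1) / Real.sqrt 2} := by
    ext x; simp
  rw [this]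
  apply MeasurableSet.iInter
  intro i
  exact measurableSet_le (f := fun x : Fin 8 → ℝ => |x i.succ.succ|)
    (g := fun x : Fin 8 → ℝ => (x 0 - x 1) / Real.sqrt 2)
    (by fun_prop) (by fun_prop)

theorem Th_int : ∫⁻ x, Th x = ∫⁻ s : ℝ, ∫⁻ t : ℝ, Ph (s, t) *
    ENNReal.ofReal (2 * ((s - t) / Real.sqrt 2)) ^ 6 := by
  rw [it_succ Th Th_meas]
  apply lintegral_congr
  intro s
  have hcs : Measurable (fun z' : Fin 7 → ℝ => (Fin.cons s z' : Fin 8 → ℝ)) := by fun_prop
  rw [it_succ (fun z' => Th (Fin.cons s z')) (Th_meas.comp hcs)]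
  apply lintegral_congr
  intro t
  rw [← cube]
  have h1 : ∀ z : Fin 6 → ℝ, Th (Fin.cons s (Fin.cons t z)) = Ph (s, t) *
      ({z : Fin 6 → ℝ | ∀ i, |z i| ≤ (s - t) / Real.sqrt 2}.indicator
        (fun _ => (1 : ENNReal)) z) := by
    intro z
    rfl
  simp_rw [h1]
  have h2 : MeasurableSet {z : Fin 6 → ℝ | ∀ i, |z i| ≤ (s - t) / Real.sqrt 2} := by
    have : {z : Fin 6 → ℝ | ∀ i, |z i| ≤ (s - t) / Real.sqrt 2} =
        ⋂ i : Fin 6, {z : Fin 6 → ℝ | |z i| ≤ (s - t) / Real.sqrt 2} := by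
      ext x; simp
    rw [this]
    apply MeasurableSet.iInter
    intro i
    exact measurableSet_le (by fun_prop) measurable_const
  rw [lintegral_const_mul _ (measurable_const.indicator h2), lintegral_indicator h2,
    lintegral_one, Measure.restrict_apply_univ]

/-- The one-dimensional integral. -/
theorem intg : ∫⁻ g in Set.Ioc (0 : ℝ) (4207 / 10000),
    ENNReal.ofReal (27 / 32 * (g ^ 3 + 6 * g ^ 5 + 9 * g ^ 7)) = ENNReal.ofReal
      (27 / 32 * ((4207 / 10000) ^ 4 / 4 + (4207 / 10000) ^ 6 + 9 / 8 * (4207 / 10000) ^ 8)) := by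
  have hc : Continuous (fun g : ℝ => 27 / 32 * (g ^ 3 + 6 * g ^ 5 + 9 * g ^ 7)) := by fun_prop
  rw [← ofReal_integral_eq_lintegral_ofReal]
  · rw [← intervalIntegral.integral_of_le (by norm_num)]
    congr 1
    have hd : ∀ x ∈ Set.uIcc (0 : ℝ) (4207 / 10000), HasDerivAt
        (fun g : ℝ => 27 / 32 * (g ^ 4 / 4 + g ^ 6 + 9 / 8 * g ^ 8))
        (27 / 32 * (x ^ 3 + 6 * x ^ 5 + 9 * x ^ 7)) x := by
      intro x _
      have h4 := (hasDerivAt_pow 4 x).div_const 4
      have h6 := hasDerivAt_pow 6 x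
      have h8 := (hasDerivAt_pow 8 x).const_mul (9 / 8 : ℝ)
      refine (((h4.add h6).add h8).const_mul (27 / 32 : ℝ)).congr_deriv ?_
      norm_num
      ring
    rw [intervalIntegral.integral_eq_sub_of_hasDerivAt hd (hc.intervalIntegrable _ _)]
    norm_num
  · exact (hc.integrableOn_Icc).mono_set Set.Ioc_subset_Icc_self
  · filter_upwards [ae_restrict_mem measurableSet_Ioc] with g hg
    have h0 : (0 : ℝ) < g := hg.1
    simp only [Pi.zero_apply]
    positivity

/-- The value of the integral. -/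
theorem Ph_int : ∫⁻ s : ℝ, ∫⁻ t : ℝ, Ph (s, t) *
    ENNReal.ofReal (2 * ((s - t) / Real.sqrt 2)) ^ 6 = ENNReal.ofReal
      (27 / 32 * ((4207 / 10000) ^ 4 / 4 + (4207 / 10000) ^ 6 + 9 / 8 * (4207 / 10000) ^ 8)) := by
  have hs2 : Real.sqrt 2 ^ 2 = 2 := Real.sq_sqrt (by norm_num)
  have hs0 : 0 < Real.sqrt 2 := by positivity
  have h1 : ∀ s : ℝ, ∫⁻ t : ℝ, Ph (s, t) * ENNReal.ofReal (2 * ((s - t) / Real.sqrt 2)) ^ 6 =
      (Set.Ioi (0 : ℝ)).indicator (fun s => ENNReal.ofReal (s ^ 8 * Real.exp (-s) / 40320) *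
        ENNReal.ofReal (27 / 32 * ((4207 / 10000) ^ 4 / 4 + (4207 / 10000) ^ 6 +
          9 / 8 * (4207 / 10000) ^ 8))) s := by
    intro s
    have h2 : ∀ t : ℝ, Ph (s, t) * ENNReal.ofReal (2 * ((s - t) / Real.sqrt 2)) ^ 6 =
        (fun β : ℝ => Ph (s, s - β) * ENNReal.ofReal (2 * (β / Real.sqrt 2)) ^ 6) (s - t) := by
      intro t
      simp only [sub_sub_cancel]
    simp_rw [h2]
    rw [lintegral_sub_left_eq_self
      (fun β : ℝ => Ph (s, s - β) * ENNReal.ofReal (2 * (β / Real.sqrt 2)) ^ 6) s]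
    by_cases hs : 0 < s
    · rw [Set.indicator_of_mem (show s ∈ Set.Ioi (0 : ℝ) from hs), FIBM.scale _ s hs, ← intg,
        ← lintegral_const_mul' _ _ ENNReal.ofReal_ne_top,
        ← lintegral_const_mul' _ _ ENNReal.ofReal_ne_top,
        ← lintegral_indicator measurableSet_Ioc]
      apply lintegral_congr
      intro g
      by_cases hg : g ∈ Set.Ioc (0 : ℝ) (4207 / 10000)
      · rw [Set.indicator_of_mem hg]
        have hg0 : 0 < g := hg.1
        have hm : (s, s - s * g) ∈ DM := by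
          refine ⟨?_, ?_⟩
          · show 0 < s - (s - s * g)
            rw [sub_sub_cancel]; positivity
          · show s - (s - s * g) ≤ 4207 / 10000 * s
            rw [sub_sub_cancel]; nlinarith [hg.2]
        unfold Ph
        rw [Set.indicator_of_mem hm]
        simp only [sub_sub_cancel]
        rw [← ENNReal.ofReal_pow (by positivity), ← ENNReal.ofReal_mul (by positivity),
          ← ENNReal.ofReal_mul (by positivity), ← ENNReal.ofReal_mul (by positivity),
          ← ENNReal.ofReal_mul (by positivity)]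
        congr 1
        have h6 : (2 * (s * g / Real.sqrt 2)) ^ 6 = 8 * (s * g) ^ 6 := by
          have : (2 * (s * g / Real.sqrt 2)) ^ 6 = 64 * (s * g) ^ 6 / (Real.sqrt 2 ^ 2) ^ 3 := by
            field_simp
            ring
          rw [this, hs2]
          ring
        rw [h6]
        field_simp
        ring
      · rw [Set.indicator_of_notMem hg]
        have hm : (s, s - s * g) ∉ DM := by
          rintro ⟨h3, h4⟩
          apply hg
          change 0 < s - (s - s * g) at h3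
          change s - (s - s * g) ≤ 4207 / 10000 * s at h4
          rw [sub_sub_cancel] at h3 h4
          refine ⟨?_, ?_⟩
          · by_contra hc
            push Not at hc
            nlinarith
          · by_contra hc
            push Not at hc
            nlinarith
        unfold Ph
        rw [Set.indicator_of_notMem hm, zero_mul, mul_zero]
    · rw [Set.indicator_of_notMem (show s ∉ Set.Ioi (0 : ℝ) from hs)]
      have h3 : ∀ β : ℝ, Ph (s, s - β) * ENNReal.ofReal (2 * (β / Real.sqrt 2)) ^ 6 = 0 := by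
        intro β
        have hm : (s, s - β) ∉ DM := by
          rintro ⟨h3, h4⟩
          change 0 < s - (s - β) at h3
          change s - (s - β) ≤ 4207 / 10000 * s at h4
          rw [sub_sub_cancel] at h3 h4
          push Not at hs
          linarith
        unfold Ph
        rw [Set.indicator_of_notMem hm, zero_mul]
      simp_rw [h3, lintegral_zero]
  simp_rw [h1]
  rw [lintegral_indicator measurableSet_Ioi, lintegral_mul_const _ (by fun_prop), FIBM.gam,
    one_mul]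

/-! ### Bounds on a cone -/

theorem nrm_split (b : OrthonormalBasis (Fin 8) ℝ E) (y : E) :
    ‖y‖ ^ 2 = (inner ℝ (b 0) y : ℝ) ^ 2 + (inner ℝ (b 1) y : ℝ) ^ 2 +
      ∑ i : Fin 6, (inner ℝ (b i.succ.succ) y : ℝ) ^ 2 := by
  have h1 : ‖y‖ ^ 2 = ∑ i, (inner ℝ (b i) y : ℝ) ^ 2 := by
    rw [← b.repr.norm_map y, EuclideanSpace.norm_sq_eq]
    apply Finset.sum_congr rfl
    intro i _
    rw [OrthonormalBasis.repr_apply_apply, Real.norm_eq_abs, sq_abs]
  rw [h1, Fin.sum_univ_succ, Fin.sum_univ_succ, add_assoc]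
  rfl

theorem nrm_bd (hUEF : SpecUEF) (a e : E) (ha : a ∈ UE) (he : e ∈ ob a) (y : E) (hy : y ∈ Kc e) :
    (inner ℝ e y : ℝ) ^ 2 ≤ ‖y‖ ^ 2 - (inner ℝ a y : ℝ) ^ 2 ∧
    ‖y‖ ^ 2 - (inner ℝ a y : ℝ) ^ 2 ≤ (inner ℝ e y : ℝ) ^ 2 +
      3 * ((inner ℝ e y : ℝ) - inner ℝ a y) ^ 2 := by
  obtain ⟨b, hb0, hb1, hb2⟩ := basis_ex hUEF a e ha he
  have hs2 : Real.sqrt 2 ^ 2 = 2 := Real.sq_sqrt (by norm_num)
  have h1 := nrm_split b y
  rw [hb0, hb1] at h1
  have h2 : 0 ≤ ∑ i : Fin 6, (inner ℝ (b i.succ.succ) y : ℝ) ^ 2 :=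
    Finset.sum_nonneg fun i _ => sq_nonneg _
  have h3 : ∑ i : Fin 6, (inner ℝ (b i.succ.succ) y : ℝ) ^ 2 ≤
      ∑ i : Fin 6, ((inner ℝ e y : ℝ) - inner ℝ a y) ^ 2 / 2 := by
    apply Finset.sum_le_sum
    intro i _
    have h4 := hb2 i y hy
    have h5 := sq_le_sq' (by linarith [abs_nonneg (inner ℝ (b i.succ.succ) y : ℝ)]) h4
    rw [sq_abs, div_pow, hs2] at h5
    exact h5
  rw [Finset.sum_const, Finset.card_univ, Fintype.card_fin, nsmul_eq_mul] at h3
  push_cast at h3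
  constructor
  · linarith
  · linarith

theorem piece (hUEF : SpecUEF) (hKCO : SpecKCO) (a e : E) (ha : a ∈ UE) (he : e ∈ ob a) :
    ∫⁻ y in Kc e ∩ GS a, ENNReal.ofReal
      (27 / 256 * (‖y‖ ^ 2 - (inner ℝ a y : ℝ) ^ 2) ^ 2 / gg a y ^ 3) ∂muW ≤ ENNReal.ofReal
      (27 / 32 * ((4207 / 10000) ^ 4 / 4 + (4207 / 10000) ^ 6 + 9 / 8 * (4207 / 10000) ^ 8)) := by
  obtain ⟨heU, hea⟩ := (mem_ob a e).1 he
  obtain ⟨b, hb0, hb1, hb2⟩ := basis_ex hUEF a e ha he
  have hgm := (gg_cont hKCO a).measurable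
  have hF : Measurable (fun y : E =>
      27 / 256 * (‖y‖ ^ 2 - (inner ℝ a y : ℝ) ^ 2) ^ 2 / gg a y ^ 3) := by fun_prop
  rw [FIBM.muW_lint hKCO _ ((hKCO.meas e).inter (GS_meas hKCO a)) _ hF]
  have hmp : MeasurePreserving (fun y : E => WithLp.ofLp (b.repr y)) volume volume :=
    (PiLp.volume_preserving_ofLp (Fin 8)).comp b.measurePreserving_repr
  rw [← Ph_int, ← Th_int, ← hmp.lintegral_comp Th_meas]
  apply lintegral_mono
  intro y
  by_cases hy : y ∈ Kc e ∩ GS a ∩ WW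
  · rw [Set.indicator_of_mem hy]
    have hm := hKCO.mxe e heU y hy.1.1
    have hx0 : WithLp.ofLp (b.repr y) 0 = inner ℝ e y := by
      rw [OrthonormalBasis.repr_apply_apply, hb0]
    have hx1 : WithLp.ofLp (b.repr y) 1 = inner ℝ a y := by
      rw [OrthonormalBasis.repr_apply_apply, hb1]
    have hgy : gg a y = (inner ℝ e y : ℝ) - inner ℝ a y := by
      unfold gg; rw [hm]
    obtain ⟨hg0, hg1⟩ := hy.1.2
    rw [hgy] at hg0 hg1
    rw [hm] at hg1
    simp only [Th]
    rw [hx0, hx1, Set.indicator_of_mem, mul_one]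
    · unfold Ph
      rw [Set.indicator_of_mem (show ((inner ℝ e y : ℝ), (inner ℝ a y : ℝ)) ∈ DM from ⟨hg0, hg1⟩)]
      dsimp only
      rw [hm, hgy]
      apply mul_le_mul_right
      apply ENNReal.ofReal_le_ofReal
      apply div_le_div_of_nonneg_right _ (by positivity)
      apply mul_le_mul_of_nonneg_left _ (by norm_num)
      obtain ⟨h1, h2⟩ := nrm_bd hUEF a e ha he y hy.1.1
      have h3 := sq_nonneg (inner ℝ e y : ℝ)
      exact pow_le_pow_left₀ (by linarith) h2 2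
    · intro i
      rw [hx0, hx1, OrthonormalBasis.repr_apply_apply]
      exact hb2 i y hy.1.1
  · rw [Set.indicator_of_notMem hy]
    exact zero_le

theorem hyp_null (v : E) (hv : v ≠ 0) : volume {y : E | (inner ℝ v y : ℝ) = 0} = 0 := by
  have h1 : {y : E | (inner ℝ v y : ℝ) = 0} = (((ℝ ∙ v)ᗮ : Submodule ℝ E) : Set E) := by
    ext y
    rw [SetLike.mem_coe, Submodule.mem_orthogonal_singleton_iff_inner_right]
    rfl
  rw [h1]
  apply Measure.addHaar_submodule
  intro h2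
  have h3 : v ∈ (ℝ ∙ v)ᗮ := by rw [h2]; exact Submodule.mem_top
  rw [Submodule.mem_orthogonal_singleton_iff_inner_right] at h3
  exact hv (inner_self_eq_zero.1 h3)

theorem muW_ac : muW ≪ (volume : Measure E) :=
  (withDensity_absolutelyContinuous _ _).trans Measure.absolutelyContinuous_restrict

theorem disj (hKCO : SpecKCO) (a : E) (S : Set E) :
    ((ob a : Finset E) : Set E).Pairwise
      (Function.onFun (AEDisjoint muW) fun e => Kc e ∩ S) := by
  intro e he f hf hef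
  have h1 := hKCO.nul e ((mem_ob a e).1 he).1 f ((mem_ob a f).1 hf).1 hef
  have h2 : AEDisjoint muW (Kc e) (Kc f) := muW_ac h1
  exact h2.mono Set.inter_subset_left Set.inter_subset_left

theorem nu_bd (hUEF : SpecUEF) (hKCO : SpecKCO) (a : E) (ha : a ∈ UE) :
    ∫⁻ y, ENNReal.ofReal ((‖y‖ ^ 2 - (inner ℝ a y : ℝ) ^ 2) ^ 2) ∂(nu a) ≤
      ENNReal.ofReal (126 * (27 / 32 *
        ((4207 / 10000) ^ 4 / 4 + (4207 / 10000) ^ 6 + 9 / 8 * (4207 / 10000) ^ 8))) := by
  have hgm := (gg_cont hKCO a).measurable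
  have hF : Measurable (fun y : E => ENNReal.ofReal
      ((‖y‖ ^ 2 - (inner ℝ a y : ℝ) ^ 2) ^ 2)) := by fun_prop
  unfold nu
  rw [lintegral_withDensity_eq_lintegral_mul _ (rho_meas hKCO a) hF]
  have hU : AA a ∩ GS a = ⋃ e ∈ ob a, (Kc e ∩ GS a) := by
    unfold AA
    rw [Set.iUnion₂_inter]
  rw [hU, lintegral_biUnion_finset₀ (disj hKCO a (GS a))
    (fun e _ => ((hKCO.meas e).inter (GS_meas hKCO a)).nullMeasurableSet)]
  have h1 : ∀ e ∈ ob a, ∫⁻ y in Kc e ∩ GS a, (rho a * fun y : E => ENNReal.ofReal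
      ((‖y‖ ^ 2 - (inner ℝ a y : ℝ) ^ 2) ^ 2)) y ∂muW ≤ ENNReal.ofReal
      (27 / 32 * ((4207 / 10000) ^ 4 / 4 + (4207 / 10000) ^ 6 + 9 / 8 * (4207 / 10000) ^ 8)) := by
    intro e he
    refine le_trans (le_of_eq ?_) (piece hUEF hKCO a e ha he)
    apply setLIntegral_congr_fun ((hKCO.meas e).inter (GS_meas hKCO a))
    intro y hy
    have hg := hy.2.1
    simp only [Pi.mul_apply, rho]
    rw [← ENNReal.ofReal_mul (by positivity)]
    congr 1
    ring
  refine (Finset.sum_le_sum h1).trans ?_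
  rw [Finset.sum_const, hUEF.c126 a ha, nsmul_eq_mul, ENNReal.ofReal_mul (p := 126) (by norm_num)]
  refine le_of_eq ?_
  congr 1
  norm_num

/-! ### The measure nu -/

theorem nu_ac (a : E) : nu a ≪ muW.restrict (AA a ∩ GS a) := withDensity_absolutelyContinuous _ _

theorem nu_supp (hKCO : SpecKCO) (a : E) : ∀ᵐ y ∂(nu a), ∃ e ∈ ob a, y ∈ Kc e := by
  have h1 := (nu_ac a).ae_le
    (ae_restrict_mem (μ := muW) ((AA_meas hKCO a).inter (GS_meas hKCO a)))
  filter_upwards [h1] with y hy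
  have h2 := hy.1
  simp only [AA, Set.mem_iUnion, exists_prop] at h2
  exact h2

theorem nu_int4 (hUEF : SpecUEF) (hKCO : SpecKCO) (a : E) (ha : a ∈ UE) :
    Integrable (fun y : E => ‖y‖ ^ 4) (nu a) := by
  refine ⟨by fun_prop, ?_⟩
  rw [hasFiniteIntegral_iff_norm]
  have h1 : ∫⁻ y, ENNReal.ofReal ‖‖y‖ ^ 4‖ ∂(nu a) ≤
      ∫⁻ y, ENNReal.ofReal 4 * ENNReal.ofReal
        ((‖y‖ ^ 2 - (inner ℝ a y : ℝ) ^ 2) ^ 2) ∂(nu a) := by
    apply lintegral_mono_ae
    filter_upwards [nu_supp hKCO a] with y hy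
    obtain ⟨e, he, hye⟩ := hy
    rw [← ENNReal.ofReal_mul (by norm_num)]
    apply ENNReal.ofReal_le_ofReal
    have h2 := (nrm_bd hUEF a e ha he y hye).1
    have h3 := (hKCO.low e ((mem_ob a e).1 he).1 y hye).2
    rw [Real.norm_of_nonneg (by positivity)]
    have h4 : ‖y‖ ^ 2 ≤ 2 * (‖y‖ ^ 2 - (inner ℝ a y : ℝ) ^ 2) := by linarith
    have h5 : (‖y‖ ^ 2) ^ 2 ≤ (2 * (‖y‖ ^ 2 - (inner ℝ a y : ℝ) ^ 2)) ^ 2 :=
      pow_le_pow_left₀ (by positivity) h4 2
    calc ‖y‖ ^ 4 = (‖y‖ ^ 2) ^ 2 := by ring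
      _ ≤ _ := h5
      _ = _ := by ring
  refine h1.trans_lt ?_
  rw [lintegral_const_mul' _ _ ENNReal.ofReal_ne_top]
  exact ENNReal.mul_lt_top ENNReal.ofReal_lt_top
    ((nu_bd hUEF hKCO a ha).trans_lt ENNReal.ofReal_lt_top)

theorem nu_refl (hUEF : SpecUEF) (hKCO : SpecKCO) (a : E) (s : E) (hs : s ∈ ob a) :
    Measure.map (fun v : E => v - (2 * (inner ℝ s v : ℝ)) • s) (nu a) = nu a := by
  obtain ⟨hsU, hsa⟩ := (mem_ob a s).1 hs
  obtain ⟨T, hT⟩ := MO1M.refl_ex (hUEF.nrm s hsU)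
  have hTU : ∀ f ∈ UE, T f ∈ UE := by
    intro f hf
    rw [hT]
    exact hUEF.refl f hf s hsU
  have hTa : T a = a := by
    rw [hT, real_inner_comm, hsa, mul_zero, zero_smul, sub_zero]
  have h1 : (fun v : E => v - (2 * (inner ℝ s v : ℝ)) • s) = T := by
    funext v
    rw [hT, real_inner_comm]
  rw [h1]
  exact (nu_T hKCO hTU hTa).map_eq

theorem nu_int (hUEF : SpecUEF) (hKCO : SpecKCO) (a : E) (ha : a ∈ UE) :
    ∫ y, (‖y‖ ^ 2 - (inner ℝ a y : ℝ) ^ 2) ^ 2 ∂(nu a) ≤ 126 * (27 / 32 *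
        ((4207 / 10000) ^ 4 / 4 + (4207 / 10000) ^ 6 + 9 / 8 * (4207 / 10000) ^ 8)) := by
  rw [integral_eq_lintegral_of_nonneg_ae (Filter.Eventually.of_forall fun y => by positivity)
    (by fun_prop)]
  refine (ENNReal.toReal_mono ENNReal.ofReal_ne_top (nu_bd hUEF hKCO a ha)).trans ?_
  rw [ENNReal.toReal_ofReal (by norm_num)]

/-- The positive part carries half of the fourth moment. -/
theorem half (hUEF : SpecUEF) (hKCO : SpecKCO) (hIS4 : SpecIS4) (a D : E) (ha : a ∈ UE)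
    (hD : (inner ℝ D a : ℝ) = 0) :
    2 * ∫⁻ y, ENNReal.ofReal (max 0 (inner ℝ D y : ℝ) ^ 4) ∂(nu a) ≤
      ENNReal.ofReal (‖D‖ ^ 4 / 21 * (126 * (27 / 32 *
        ((4207 / 10000) ^ 4 / 4 + (4207 / 10000) ^ 6 + 9 / 8 * (4207 / 10000) ^ 8)))) := by
  have haa : (inner ℝ a a : ℝ) = 1 := by
    rw [real_inner_self_eq_norm_sq, hUEF.nrm a ha]; norm_num
  have hτ := NUTM.refl_apply a (hUEF.nrm a ha)
  have hTU : ∀ f ∈ UE, (ℝ ∙ a).reflection f ∈ UE := by
    intro f hf
    rw [hτ]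
    have h1 := hUEF.neg _ (hUEF.refl f hf a ha)
    rw [real_inner_comm] at h1
    have h2 : -(f - (2 * (inner ℝ a f : ℝ)) • a) = (2 * (inner ℝ a f : ℝ)) • a - f := by abel
    rwa [h2] at h1
  have hTa : (ℝ ∙ a).reflection a = a := by
    rw [hτ, haa]
    module
  have hmp := nu_T hKCO hTU hTa
  have hm : Measurable (fun y : E => ENNReal.ofReal (max 0 (inner ℝ D y : ℝ) ^ 4)) := by fun_prop
  have h3 := hmp.lintegral_comp hm
  have h4 : ∀ y : E, (inner ℝ D ((ℝ ∙ a).reflection y) : ℝ) = - inner ℝ D y := by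
    intro y
    rw [hτ, inner_sub_right, real_inner_smul_right, hD]
    ring
  simp only [h4] at h3
  have h5 : 2 * ∫⁻ y, ENNReal.ofReal (max 0 (inner ℝ D y : ℝ) ^ 4) ∂(nu a) =
      ∫⁻ y, ENNReal.ofReal ((inner ℝ D y : ℝ) ^ 4) ∂(nu a) := by
    rw [two_mul]
    nth_rewrite 1 [← h3]
    rw [← lintegral_add_right _ hm]
    apply lintegral_congr
    intro y
    rw [← ENNReal.ofReal_add (by positivity) (by positivity)]
    congr 1
    rcases le_total 0 (inner ℝ D y : ℝ) with h | h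
    · rw [max_eq_left (by linarith), max_eq_right h]; ring
    · rw [max_eq_right (by linarith), max_eq_left h]; ring
  have h6 : Integrable (fun y : E => (inner ℝ D y : ℝ) ^ 4) (nu a) := by
    refine ((nu_int4 hUEF hKCO a ha).const_mul (‖D‖ ^ 4)).mono' (by fun_prop)
      (Filter.Eventually.of_forall fun y => ?_)
    have h7 := norm_inner_le_norm (𝕜 := ℝ) D y
    rw [norm_pow, ← mul_pow]
    exact pow_le_pow_left₀ (norm_nonneg _) h7 4
  rw [h5, ← ofReal_integral_eq_lintegral_ofReal h6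
    (Filter.Eventually.of_forall fun y => by positivity)]
  apply ENNReal.ofReal_le_ofReal
  rw [hIS4 a ha (nu a) (nu_int4 hUEF hKCO a ha) (fun s hs => nu_refl hUEF hKCO a s hs) D hD]
  exact mul_le_mul_of_nonneg_left (nu_int hUEF hKCO a ha) (by positivity)

/-! ### The pointwise inequality -/

theorem amgm {f g : ℝ} (hg : 0 < g) (hfg : g < f) : f - g ≤ 27 / 256 / g ^ 3 * f ^ 4 := by
  have h1 : (f - g) * g ^ 3 ≤ 27 / 256 * f ^ 4 := by
    have h2 : 0 ≤ (g - 3 / 4 * f) ^ 2 * (g ^ 2 + f * g / 2 + 3 / 16 * f ^ 2) := by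
      have : 0 < f := by linarith
      positivity
    nlinarith
  rw [div_mul_eq_mul_div, le_div_iff₀ (by positivity)]
  exact h1

theorem small (hUEF : SpecUEF) (hKCO : SpecKCO) (a e D y : E) (ha : a ∈ UE) (he : e ∈ ob a)
    (hD : (inner ℝ D a : ℝ) = 0) (hD2 : ‖D‖ ≤ 17 / 50) (hy : y ∈ Kc e) (h0 : 0 < gg a y)
    (h1 : gg a y < inner ℝ D y) : gg a y ≤ 4207 / 10000 * mx id y := by
  obtain ⟨heU, hea⟩ := (mem_ob a e).1 he
  have haa : (inner ℝ a a : ℝ) = 1 := by
    rw [real_inner_self_eq_norm_sq, hUEF.nrm a ha]; norm_num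
  have hm := hKCO.mxe e heU y hy
  have h2 := nrm_bd hUEF a e ha he y hy
  have h3 := (hKCO.low e heU y hy).1
  have hgy : gg a y = (inner ℝ e y : ℝ) - inner ℝ a y := by
    unfold gg; rw [hm]
  have h4 : (inner ℝ D y : ℝ) = inner ℝ D (y - (inner ℝ a y : ℝ) • a) := by
    rw [inner_sub_right, real_inner_smul_right, hD]; ring
  have h5 : ‖y - (inner ℝ a y : ℝ) • a‖ ^ 2 = ‖y‖ ^ 2 - (inner ℝ a y : ℝ) ^ 2 := by
    rw [← real_inner_self_eq_norm_sq, inner_sub_left, inner_sub_right, inner_sub_right,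
      real_inner_smul_left, real_inner_smul_right, real_inner_smul_right, real_inner_smul_left,
      haa, real_inner_comm a y, real_inner_self_eq_norm_sq]
    ring
  have h6 : (inner ℝ D y : ℝ) ^ 2 ≤ ‖D‖ ^ 2 * (‖y‖ ^ 2 - (inner ℝ a y : ℝ) ^ 2) := by
    rw [← h5, h4, ← mul_pow, ← sq_abs]
    exact pow_le_pow_left₀ (abs_nonneg _) (abs_real_inner_le_norm _ _) 2
  have h7 : ‖D‖ ^ 2 ≤ (17 / 50) ^ 2 := pow_le_pow_left₀ (norm_nonneg _) hD2 2
  rw [hm]
  set α : ℝ := inner ℝ e y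
  set β : ℝ := gg a y
  rw [← hgy] at h2
  have h8 : β ^ 2 ≤ (17 / 50) ^ 2 * (α ^ 2 + 3 * β ^ 2) := by
    have h9 : β ^ 2 ≤ (inner ℝ D y : ℝ) ^ 2 := pow_le_pow_left₀ h0.le h1.le 2
    have h10 := sq_nonneg α
    calc β ^ 2 ≤ (inner ℝ D y : ℝ) ^ 2 := h9
      _ ≤ ‖D‖ ^ 2 * (‖y‖ ^ 2 - (inner ℝ a y : ℝ) ^ 2) := h6
      _ ≤ (17 / 50) ^ 2 * (α ^ 2 + 3 * β ^ 2) :=
        mul_le_mul h7 h2.2 (by linarith [h2.1]) (by norm_num)
  by_contra hc
  push Not at hc
  nlinarith

end ORTM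

open ORTM in
theorem specORT (hUEF : SpecUEF) (hKCO : SpecKCO) (hIS4 : SpecIS4) : SpecORT := by
  intro a ha D hD hD2
  have hgm := (gg_cont hKCO a).measurable
  set h : E → ℝ := fun y => max 0 ((inner ℝ D y : ℝ) - gg a y) with hh
  have hhm : Measurable h := by fun_prop
  set X : ENNReal := ∫⁻ y, ENNReal.ofReal (max 0 (inner ℝ D y : ℝ) ^ 4) ∂(nu a) with hX
  have hm : Measurable (fun y : E => ENNReal.ofReal (max 0 (inner ℝ D y : ℝ) ^ 4)) := by fun_prop
  set K : ℝ := ‖D‖ ^ 4 / 21 * (126 * (27 / 32 *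
        ((4207 / 10000) ^ 4 / 4 + (4207 / 10000) ^ 6 + 9 / 8 * (4207 / 10000) ^ 8))) with hK
  have hX2 : 2 * X ≤ ENNReal.ofReal K := half hUEF hKCO hIS4 a D ha hD
  -- the integrals as lintegrals
  have h1 : ∀ e ∈ ob a, ∫ y in Kc e,
      max 0 ((inner ℝ D y : ℝ) - ((inner ℝ e y : ℝ) - inner ℝ a y)) ∂muW =
      (∫⁻ y in Kc e, ENNReal.ofReal (h y) ∂muW).toReal := by
    intro e he
    have h2 : ∫ y in Kc e, max 0 ((inner ℝ D y : ℝ) - ((inner ℝ e y : ℝ) - inner ℝ a y)) ∂muW =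
        ∫ y in Kc e, h y ∂muW := by
      apply setIntegral_congr_fun (hKCO.meas e)
      intro y hy
      simp only [hh, gg]
      rw [hKCO.mxe e ((mem_ob a e).1 he).1 y hy]
    rw [h2, integral_eq_lintegral_of_nonneg_ae (Filter.Eventually.of_forall fun y => by
      simp only [hh, Pi.zero_apply]; exact le_max_left _ _) hhm.aestronglyMeasurable]
  have h3 : ∑ e ∈ ob a, ∫⁻ y in Kc e, ENNReal.ofReal (h y) ∂muW =
      ∫⁻ y in AA a, ENNReal.ofReal (h y) ∂muW := by
    unfold AA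
    rw [lintegral_biUnion_finset₀ _ (fun e _ => (hKCO.meas e).nullMeasurableSet)]
    have := disj hKCO a Set.univ
    simpa only [Set.inter_univ] using this
  -- generic points
  have hgen : ∀ᵐ y ∂muW, ∀ e ∈ ob a, (inner ℝ (e - a) y : ℝ) ≠ 0 := by
    rw [Finset.eventually_all]
    intro e he
    have h4 : e - a ≠ 0 := by
      intro h5
      obtain ⟨heU, hea⟩ := (mem_ob a e).1 he
      rw [sub_eq_zero.1 h5, real_inner_self_eq_norm_sq, hUEF.nrm a ha] at hea
      norm_num at hea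
    rw [ae_iff]
    have h6 : {y : E | ¬ (inner ℝ (e - a) y : ℝ) ≠ 0} = {y : E | (inner ℝ (e - a) y : ℝ) = 0} := by
      ext y
      simp only [ne_eq, not_not]
    rw [h6]
    exact muW_ac (hyp_null _ h4)
  have h4 : ∫⁻ y in AA a, ENNReal.ofReal (h y) ∂muW ≤ X := by
    rw [hX]
    unfold nu
    rw [lintegral_withDensity_eq_lintegral_mul _ (rho_meas hKCO a) hm,
      Set.inter_comm, ← Measure.restrict_restrict (GS_meas hKCO a),
      ← lintegral_indicator (GS_meas hKCO a)]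
    apply lintegral_mono_ae
    filter_upwards [ae_restrict_mem (AA_meas hKCO a), ae_restrict_of_ae hgen] with y hy hyg
    simp only [AA, Set.mem_iUnion, exists_prop] at hy
    obtain ⟨e, he, hye⟩ := hy
    obtain ⟨heU, hea⟩ := (mem_ob a e).1 he
    have hmx := hKCO.mxe e heU y hye
    have hgy : gg a y = (inner ℝ e y : ℝ) - inner ℝ a y := by
      unfold gg; rw [hmx]
    have h5 : 0 < gg a y := by
      apply lt_of_le_of_ne
      · rw [hgy]; linarith [hye a ha]
      · intro h6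
        apply hyg e he
        rw [inner_sub_left, ← hgy, ← h6]
    rcases le_or_gt (inner ℝ D y : ℝ) (gg a y) with h6 | h6
    · have h7 : h y = 0 := by
        simp only [hh]
        exact max_eq_left (by linarith)
      rw [h7, ENNReal.ofReal_zero]
      exact zero_le
    · have h8 := small hUEF hKCO a e D y ha he hD hD2 hye h5 h6
      rw [Set.indicator_of_mem (show y ∈ GS a from ⟨h5, h8⟩)]
      simp only [Pi.mul_apply, rho, hh]
      rw [← ENNReal.ofReal_mul (by positivity)]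
      apply ENNReal.ofReal_le_ofReal
      rw [max_eq_right (by linarith), max_eq_right (by linarith)]
      exact amgm h5 h6
  have h5 : (∑ e ∈ ob a, ∫⁻ y in Kc e, ENNReal.ofReal (h y) ∂muW) ≤ ENNReal.ofReal (K / 2) := by
    rw [h3]
    refine h4.trans ?_
    rw [ENNReal.ofReal_div_of_pos (by norm_num), ENNReal.le_div_iff_mul_le (by simp) (by simp),
      mul_comm]
    simpa using hX2
  rw [Finset.sum_congr rfl h1, ← ENNReal.toReal_sum]
  · refine (ENNReal.toReal_mono ENNReal.ofReal_ne_top h5).trans ?_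
    have h6 : 0 ≤ ‖D‖ ^ 4 := by positivity
    have h7 : 0 ≤ K := by rw [hK]; positivity
    rw [ENNReal.toReal_ofReal (by linarith), hK]
    nlinarith
  · intro e he
    have h6 := (Finset.single_le_sum (f := fun e => ∫⁻ y in Kc e, ENNReal.ofReal (h y) ∂muW)
      (fun _ _ => zero_le) he).trans h5
    exact (h6.trans_lt ENNReal.ofReal_lt_top).ne

end Pool.Agent.Lib.MP_f1379f_gt.FV
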