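import Pool.Agent.Lib.MP_f1379f_gt.EV.Defs

/-!
# PVA: normal form of a pair of vectors, isometry E8-space = plane x R^6
-/

set_option autoImplicit false

namespace Pool.Agent.Lib.MP_f1379f_gt.FV.PV

open MeasureTheory Pool.Agent.Lib.MP_f1379f_gt.EV

/-- Euclidean 6-space. -/
abbrev E6 := EuclideanSpace ℝ (Fin 6)

/-- Plane times Euclidean 6-space with the Euclidean norm. -/
abbrev W := WithLp 2 (ℂ × E6)

/-- An orthonormal pair extends to an isometry with the plane times R^6. -/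
theorem exists_iso (e1 e2 : E) (h1 : ‖e1‖ = 1) (h2 : ‖e2‖ = 1) (h12 : inner ℝ e1 e2 = (0 : ℝ)) :
    ∃ φ : E ≃ₗᵢ[ℝ] W, φ e1 = WithLp.toLp 2 ((1 : ℂ), (0 : E6)) ∧
      φ e2 = WithLp.toLp 2 (Complex.I, (0 : E6)) := by
  classical
  let v : Fin 2 ⊕ Fin 6 → E := Sum.elim ![e1, e2] (fun _ => 0)
  let s : Set (Fin 2 ⊕ Fin 6) := Set.range Sum.inl
  have hv : Orthonormal ℝ (s.domRestrict v) := by
    rw [orthonormal_iff_ite]
    rintro ⟨_, ⟨i, rfl⟩⟩ ⟨_, ⟨j, rfl⟩⟩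
    have h21 : inner ℝ e2 e1 = (0 : ℝ) := by rw [real_inner_comm]; exact h12
    fin_cases i <;> fin_cases j <;> simp [v, Set.domRestrict, h1, h2, h12, h21]
  obtain ⟨b, hb⟩ := hv.exists_orthonormalBasis_extension_of_card_eq (by simp)
  have hb0 : b (Sum.inl 0) = e1 := by
    have := hb (Sum.inl 0) ⟨0, rfl⟩
    simpa [v] using this
  have hb1 : b (Sum.inl 1) = e2 := by
    have := hb (Sum.inl 1) ⟨1, rfl⟩
    simpa [v] using this
  let b' : OrthonormalBasis (Fin 2 ⊕ Fin 6) ℝ W :=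
    Complex.orthonormalBasisOneI.prod (EuclideanSpace.basisFun (Fin 6) ℝ)
  refine ⟨b.equiv b' (Equiv.refl _), ?_, ?_⟩
  · rw [← hb0, OrthonormalBasis.equiv_apply_basis]
    simp [b', OrthonormalBasis.prod_apply]
  · rw [← hb1, OrthonormalBasis.equiv_apply_basis]
    simp [b', OrthonormalBasis.prod_apply]

/-- A unit vector orthogonal to a given one. -/
theorem exists_perp (e2 : E) (h2 : ‖e2‖ = 1) : ∃ e1 : E, ‖e1‖ = 1 ∧ inner ℝ e1 e2 = (0 : ℝ) := by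
  classical
  let v : Fin 8 → E := fun _ => e2
  have hv : Orthonormal ℝ (({0} : Set (Fin 8)).domRestrict v) := by
    rw [orthonormal_iff_ite]
    rintro ⟨i, hi⟩ ⟨j, hj⟩
    simp only [Set.mem_singleton_iff] at hi hj
    subst hi; subst hj
    simp [v, Set.domRestrict, h2]
  obtain ⟨b, hb⟩ := hv.exists_orthonormalBasis_extension_of_card_eq (by simp)
  have hb0 : b 0 = e2 := hb 0 rfl
  refine ⟨b 1, b.norm_eq_one 1, ?_⟩
  rw [← hb0]
  exact b.inner_eq_zero (by decide)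

/-- Normal form: `u = μ e1 + α e2`, `v = μ e1 - β e2`, `α + β = ‖u - v‖`. -/
theorem normal_form (u v : E) : ∃ (φ : E ≃ₗᵢ[ℝ] W) (μ α β : ℝ), 0 ≤ μ ∧
    φ u = WithLp.toLp 2 ((⟨μ, α⟩ : ℂ), (0 : E6)) ∧ φ v = WithLp.toLp 2 ((⟨μ, -β⟩ : ℂ), (0 : E6)) ∧
      α + β = ‖u - v‖ := by
  classical
  obtain ⟨e2, h2, hd⟩ : ∃ e2 : E, ‖e2‖ = 1 ∧ u - v = ‖u - v‖ • e2 := by
    by_cases h : u - v = 0
    · obtain ⟨e, he⟩ := exists_norm_eq E (show (0 : ℝ) ≤ 1 by norm_num)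
      exact ⟨e, he, by rw [h]; simp⟩
    · refine ⟨(‖u - v‖)⁻¹ • (u - v), norm_smul_inv_norm h, ?_⟩
      rw [smul_smul, mul_inv_cancel₀ (norm_ne_zero_iff.mpr h), one_smul]
  have h22 : inner ℝ e2 e2 = (1 : ℝ) := by rw [real_inner_self_eq_norm_sq, h2]; norm_num
  set m : E := u - (inner ℝ u e2 : ℝ) • e2 with hm
  have hm2 : inner ℝ m e2 = (0 : ℝ) := by
    rw [hm, inner_sub_left, real_inner_smul_left, h22]; ring
  obtain ⟨e1, h1, h12, hme⟩ : ∃ e1 : E, ‖e1‖ = 1 ∧ inner ℝ e1 e2 = (0 : ℝ) ∧ m = ‖m‖ • e1 := by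
    by_cases h : m = 0
    · obtain ⟨e, he, he2⟩ := exists_perp e2 h2
      exact ⟨e, he, he2, by rw [h]; simp⟩
    · refine ⟨(‖m‖)⁻¹ • m, norm_smul_inv_norm h, ?_, ?_⟩
      · rw [real_inner_smul_left, hm2, mul_zero]
      · rw [smul_smul, mul_inv_cancel₀ (norm_ne_zero_iff.mpr h), one_smul]
  obtain ⟨φ, p1, p2⟩ := exists_iso e1 e2 h1 h2 h12
  have key : ∀ a b : ℝ, φ (a • e1 + b • e2) = WithLp.toLp 2 ((⟨a, b⟩ : ℂ), (0 : E6)) := by
    intro a b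
    rw [map_add, map_smul, map_smul, p1, p2, ← WithLp.toLp_smul, ← WithLp.toLp_smul,
      ← WithLp.toLp_add]
    congr 1
    ext1
    · apply Complex.ext <;> simp
    · simp
  refine ⟨φ, ‖m‖, inner ℝ u e2, ‖u - v‖ - inner ℝ u e2, norm_nonneg _, ?_, ?_, by ring⟩
  · rw [← key, ← hme, hm]
    congr 1
    abel
  · have hv : v = ‖m‖ • e1 + (-(‖u - v‖ - inner ℝ u e2) : ℝ) • e2 := by
      rw [← hme, hm, neg_sub, sub_smul, ← hd]
      abel
    conv_lhs => rw [hv]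
    exact key _ _

end Pool.Agent.Lib.MP_f1379f_gt.FV.PV
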