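import Pool.Agent.Lib.MP_f1379f_gt.FV.PWB

/-!
# PVI: the volume of one cap, closed form
-/

set_option autoImplicit false

namespace Pool.Agent.Lib.MP_f1379f_gt.FV.PV

open MeasureTheory Real

/-- The cap volume as an integral over the half circle. -/
theorem v1_circle (u : E) : v1 u = π ^ 3 / 24 * ∫ t in (0 : ℝ)..π, P (‖u‖ * cos t) := by
  obtain ⟨e1, h1, hu⟩ : ∃ e1 : E, ‖e1‖ = 1 ∧ u = ‖u‖ • e1 := by
    by_cases h : u = 0
    · obtain ⟨e, he⟩ := exists_norm_eq E (show (0 : ℝ) ≤ 1 by norm_num)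
      exact ⟨e, he, by rw [h]; simp⟩
    · refine ⟨(‖u‖)⁻¹ • u, norm_smul_inv_norm h, ?_⟩
      rw [smul_smul, mul_inv_cancel₀ (norm_ne_zero_iff.mpr h), one_smul]
  obtain ⟨e2, h2, h21⟩ := exists_perp e1 h1
  obtain ⟨φ, p1, p2⟩ := exists_iso e1 e2 h1 h2 (by rw [real_inner_comm]; exact h21)
  have hφ : φ u = WithLp.toLp 2 ((⟨‖u‖, 0⟩ : ℂ), (0 : E6)) := by
    conv_lhs => rw [hu]
    rw [map_smul, p1, ← WithLp.toLp_smul]
    congr 1
    ext1
    · apply Complex.ext <;> simp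
    · simp
  have h := v2_circle u u φ ‖u‖ 0 0 hφ (by rw [neg_zero]; exact hφ) (by norm_num)
  have e : v1 u = v2 u u := by
    unfold v1 v2
    rw [Set.inter_self]
  rw [e, h]
  have e2 : ∀ t : ℝ, P (‖u‖ * cos t - 0 * sin t) + P (‖u‖ * cos t - 0 * sin t) =
      2 * P (‖u‖ * cos t) := by
    intro t
    rw [zero_mul, sub_zero]
    ring
  simp only [e2]
  rw [intervalIntegral.integral_const_mul]
  ring

/-- The closed form: `π^3/24 (k^4 arctan w - ..)`, `w = √(5a/3 - 1)`. -/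
noncomputable def V1 (a w : ℝ) : ℝ := π ^ 3 / 24 * (625 / 81 * arctan w
  - 500 / 27 * w / a + 50 / 3 * (w + w ^ 3 / 3) / a ^ 2
  - 20 / 3 * (w + 2 * w ^ 3 / 3 + w ^ 5 / 5) / a ^ 3
  + (w + w ^ 3 + 3 * w ^ 5 / 5 + w ^ 7 / 7) / a ^ 4)

/-- Small norms: empty cap. -/
theorem v1_small (u : E) (h : ‖u‖ ^ 2 ≤ 3 / 5) : v1 u = 0 := by
  rw [v1_circle]
  have : ∀ t : ℝ, P (‖u‖ * cos t) = 0 := by
    intro t
    unfold P
    rw [Ae_of_le]
    · norm_num
    · rw [mul_pow]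
      have h1 : cos t ^ 2 ≤ 1 := by nlinarith [sin_sq_add_cos_sq t, sq_nonneg (sin t)]
      nlinarith [sq_nonneg ‖u‖, sq_nonneg (cos t)]
  simp [this]

theorem v1_closed (u : E) (h : 3 / 5 ≤ ‖u‖ ^ 2) : v1 u = V1 (‖u‖ ^ 2) √(5 * ‖u‖ ^ 2 / 3 - 1) := by
  obtain ⟨s, hs⟩ : ∃ s : ℝ, s = ‖u‖ := ⟨_, rfl⟩
  rw [v1_circle, ← hs]
  have hs0 : 0 ≤ s := by rw [hs]; exact norm_nonneg u
  rw [← hs] at h
  have hs1 : 0 < s := by
    rcases hs0.lt_or_eq with h1 | h1
    · exact h1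
    · rw [← h1] at h; norm_num at h
  clear hs
  obtain ⟨w, hw⟩ : ∃ w : ℝ, w = √(5 * s ^ 2 / 3 - 1) := ⟨_, rfl⟩
  have hw0 : 0 ≤ w := by rw [hw]; exact Real.sqrt_nonneg _
  have hw2 : w ^ 2 = 5 * s ^ 2 / 3 - 1 := by rw [hw]; exact Real.sq_sqrt (by linarith)
  rw [← hw]
  clear hw
  -- the window
  have hlt : arctan w < π / 2 := arctan_lt_pi_div_two w
  have hge : 0 ≤ arctan w := arctan_nonneg.mpr hw0
  have hcosw : cos (arctan w) ^ 2 * (1 + w ^ 2) = 1 := by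
    have h1 : tan (arctan w) = w := tan_arctan w
    have h2 : cos (arctan w) ≠ 0 := (cos_arctan_pos w).ne'
    have h3 : cos (arctan w) ^ 2 = (1 + w ^ 2)⁻¹ := by
      have := inv_one_add_tan_sq h2
      rw [h1] at this
      exact this.symm
    rw [h3]
    field_simp
  have hin : ∀ t ∈ Set.Icc (0 : ℝ) (arctan w), 0 < cos t ∧ 3 / 5 ≤ (s * cos t) ^ 2 := by
    intro t ht
    have h1 : cos (arctan w) ≤ cos t :=
      cos_le_cos_of_nonneg_of_le_pi ht.1 (by linarith [Real.pi_pos]) ht.2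
    have h2 := cos_arctan_pos w
    refine ⟨lt_of_lt_of_le h2 h1, ?_⟩
    have h3 : cos (arctan w) ^ 2 ≤ cos t ^ 2 := pow_le_pow_left₀ h2.le h1 2
    have h4 : (s * cos (arctan w)) ^ 2 = 3 / 5 := by
      rw [mul_pow]
      have : s ^ 2 = 3 / 5 * (1 + w ^ 2) := by rw [hw2]; ring
      rw [this]
      linear_combination (3 / 5) * hcosw
    have h5 : s ^ 2 * cos (arctan w) ^ 2 ≤ s ^ 2 * cos t ^ 2 :=
      mul_le_mul_of_nonneg_left h3 (sq_nonneg s)
    rw [mul_pow] at h4 ⊢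
    linarith
  have hout : ∀ t ∈ Set.Icc (arctan w) π, P (s * cos t) = 0 := by
    intro t ht
    have h1 : cos t ≤ cos (arctan w) :=
      cos_le_cos_of_nonneg_of_le_pi hge ht.2 ht.1
    unfold P
    rcases le_or_gt (cos t) 0 with h2 | h2
    · rw [Ae_of_nonpos]
      · norm_num
      · have := mul_nonpos_of_nonneg_of_nonpos hs0 h2
        linarith
    · rw [Ae_of_le]
      · norm_num
      · have h3 : cos t ^ 2 ≤ cos (arctan w) ^ 2 := pow_le_pow_left₀ h2.le h1 2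
        have h4 : (s * cos (arctan w)) ^ 2 = 3 / 5 := by
          rw [mul_pow]
          have : s ^ 2 = 3 / 5 * (1 + w ^ 2) := by rw [hw2]; ring
          rw [this]
          linear_combination (3 / 5) * hcosw
        have h5 : s ^ 2 * cos t ^ 2 ≤ s ^ 2 * cos (arctan w) ^ 2 :=
          mul_le_mul_of_nonneg_left h3 (sq_nonneg s)
        rw [mul_pow] at h4 ⊢
        linarith
  have hc : Continuous (fun t : ℝ => P (s * cos t)) := cont_P.comp (by fun_prop)
  rw [← intervalIntegral.integral_add_adjacent_intervals (b := arctan w)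
    (hc.intervalIntegrable _ _) (hc.intervalIntegrable _ _)]
  have e2 : ∫ t in (arctan w)..π, P (s * cos t) = 0 := by
    rw [intervalIntegral.integral_congr (g := fun _ => 0)]
    · simp
    · intro t ht
      rw [Set.uIcc_of_le (by linarith [Real.pi_pos])] at ht
      exact hout t ht
  have e3 : ∫ t in (0 : ℝ)..(arctan w), P (s * cos t) =
      ∫ t in (0 : ℝ)..(arctan w), (5 / 3 - (1 + tan t ^ 2) / s ^ 2) ^ 4 := by
    apply intervalIntegral.integral_congr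
    intro t ht
    rw [Set.uIcc_of_le hge] at ht
    obtain ⟨c1, c2⟩ := hin t ht
    have c3 : 0 < s * cos t := mul_pos hs1 c1
    have hsec : 1 + tan t ^ 2 = 1 / cos t ^ 2 := by
      rw [← inv_one_add_tan_sq c1.ne']
      simp
    simp only [P, (Ae_of_ge c3 c2).1, hsec]
    congr 2
    field_simp
  have hder : ∀ t ∈ Set.uIcc (0 : ℝ) (arctan w), HasDerivAt
      (fun t : ℝ => 625 / 81 * t - 500 / 27 / s ^ 2 * tan t
        + 50 / 3 / s ^ 4 * (tan t + 1 / 3 * tan t ^ 3)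
        - 20 / 3 / s ^ 6 * (tan t + 2 / 3 * tan t ^ 3 + 1 / 5 * tan t ^ 5)
        + 1 / s ^ 8 * (tan t + tan t ^ 3 + 3 / 5 * tan t ^ 5 + 1 / 7 * tan t ^ 7))
      ((5 / 3 - (1 + tan t ^ 2) / s ^ 2) ^ 4) t := by
    intro t ht
    rw [Set.uIcc_of_le hge] at ht
    have hcn := (hin t ht).1.ne'
    have hsec : 1 / cos t ^ 2 = 1 + tan t ^ 2 := by
      rw [← inv_one_add_tan_sq hcn]
      simp
    have hT : HasDerivAt tan (1 + tan t ^ 2) t := by
      rw [← hsec]; exact hasDerivAt_tan hcn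
    have h3 := hT.pow 3
    have h5 := hT.pow 5
    have h7 := hT.pow 7
    have hid := (hasDerivAt_id t).const_mul (625 / 81 : ℝ)
    have hh := (((hid.sub (hT.const_mul (500 / 27 / s ^ 2))).add
      ((hT.add (h3.const_mul (1 / 3 : ℝ))).const_mul (50 / 3 / s ^ 4))).sub
      (((hT.add (h3.const_mul (2 / 3 : ℝ))).add (h5.const_mul (1 / 5 : ℝ))).const_mul
        (20 / 3 / s ^ 6))).add
      ((((hT.add h3).add (h5.const_mul (3 / 5 : ℝ))).add (h7.const_mul (1 / 7 : ℝ))).const_mul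
        (1 / s ^ 8))
    refine hh.congr_deriv ?_
    push_cast
    field_simp
    ring
  have hcont : ContinuousOn (fun t : ℝ => (5 / 3 - (1 + tan t ^ 2) / s ^ 2) ^ 4)
      (Set.uIcc (0 : ℝ) (arctan w)) := by
    rw [Set.uIcc_of_le hge]
    have htan : ContinuousOn tan (Set.Icc (0 : ℝ) (arctan w)) := by
      intro t ht
      exact (continuousAt_tan.mpr (hin t ht).1.ne').continuousWithinAt
    fun_prop
  rw [e2, add_zero, e3, intervalIntegral.integral_eq_sub_of_hasDerivAt hder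
    hcont.intervalIntegrable, tan_arctan, tan_zero]
  unfold V1
  have hs2 : s ^ 2 ≠ 0 := by positivity
  congr 1
  have p4 : (s ^ 2) ^ 2 = s ^ 4 := by ring
  have p6 : (s ^ 2) ^ 3 = s ^ 6 := by ring
  have p8 : (s ^ 2) ^ 4 = s ^ 8 := by ring
  rw [p4, p6, p8]
  ring

end Pool.Agent.Lib.MP_f1379f_gt.FV.PV
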