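import Pool.Agent.Lib.MP_f1379f_gt.FV.PVI

/-!
# PVJ: exact values and enclosures of `c1`, `g11` and the volume of the ball
-/

set_option autoImplicit false

namespace Pool.Agent.Lib.MP_f1379f_gt.FV.PV

open MeasureTheory Real

/-- Cap volume as a function of `w = √(5|u|^2/3 - 1)`. -/
noncomputable def cw (w : ℝ) : ℝ := V1 (3 * (1 + w ^ 2) / 5) w

/-- `v1 u = cw w`. -/
theorem v1_eq_cw (u : E) (h : 3 / 5 ≤ ‖u‖ ^ 2) : v1 u = cw √(5 * ‖u‖ ^ 2 / 3 - 1) := by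
  rw [v1_closed u h]
  unfold cw
  rw [Real.sq_sqrt (by linarith)]
  congr 1
  ring

/-- Derivative of the cap volume. -/
theorem hasDerivAt_cw (w : ℝ) :
    HasDerivAt cw (2000 / 1701 * π ^ 3 * (w ^ 8 / (1 + w ^ 2) ^ 5)) w := by
  have hp : ∀ x : ℝ, 1 + x ^ 2 ≠ 0 := fun x => by positivity
  have e : cw = fun x : ℝ => π ^ 3 / 24 * (625 / 81 * arctan x
      - 2500 / 81 * (x / (1 + x ^ 2)) + 1250 / 27 * ((x + 1 / 3 * x ^ 3) / (1 + x ^ 2) ^ 2)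
      - 2500 / 81 * ((x + 2 / 3 * x ^ 3 + 1 / 5 * x ^ 5) / (1 + x ^ 2) ^ 3)
      + 625 / 81 * ((x + x ^ 3 + 3 / 5 * x ^ 5 + 1 / 7 * x ^ 7) / (1 + x ^ 2) ^ 4)) := by
    funext x
    unfold cw V1
    have := hp x
    field_simp
    ring
  rw [e]
  have hx := hasDerivAt_id w
  have h3 := hx.pow 3
  have h5 := hx.pow 5
  have h7 := hx.pow 7
  have hq : HasDerivAt (fun x : ℝ => 1 + x ^ 2) (2 * w) w := by
    have := (hx.pow 2).const_add (1 : ℝ)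
    refine this.congr_deriv ?_
    simp
  have q1 : HasDerivAt (fun x : ℝ => x / (1 + x ^ 2)) ((1 * (1 + w ^ 2) - w * (2 * w)) /
      (1 + w ^ 2) ^ 2) w := hx.div hq (hp w)
  have hq2 : HasDerivAt (fun x : ℝ => (1 + x ^ 2) ^ 2) (((2 : ℕ) : ℝ) * (1 + w ^ 2) ^ (2 - 1) *
      (2 * w)) w := hq.pow 2
  have hq3 : HasDerivAt (fun x : ℝ => (1 + x ^ 2) ^ 3) (((3 : ℕ) : ℝ) * (1 + w ^ 2) ^ (3 - 1) *
      (2 * w)) w := hq.pow 3
  have hq4 : HasDerivAt (fun x : ℝ => (1 + x ^ 2) ^ 4) (((4 : ℕ) : ℝ) * (1 + w ^ 2) ^ (4 - 1) *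
      (2 * w)) w := hq.pow 4
  have n2 : HasDerivAt (fun x : ℝ => x + 1 / 3 * x ^ 3) (1 + 1 / 3 * (3 * w ^ 2)) w := by
    refine (hx.add (h3.const_mul (1 / 3 : ℝ))).congr_deriv ?_
    simp
  have n3 : HasDerivAt (fun x : ℝ => x + 2 / 3 * x ^ 3 + 1 / 5 * x ^ 5)
      (1 + 2 / 3 * (3 * w ^ 2) + 1 / 5 * (5 * w ^ 4)) w := by
    refine ((hx.add (h3.const_mul (2 / 3 : ℝ))).add (h5.const_mul (1 / 5 : ℝ))).congr_deriv ?_
    simp
  have n4 : HasDerivAt (fun x : ℝ => x + x ^ 3 + 3 / 5 * x ^ 5 + 1 / 7 * x ^ 7)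
      (1 + 3 * w ^ 2 + 3 / 5 * (5 * w ^ 4) + 1 / 7 * (7 * w ^ 6)) w := by
    refine (((hx.add h3).add (h5.const_mul (3 / 5 : ℝ))).add
      (h7.const_mul (1 / 7 : ℝ))).congr_deriv ?_
    simp
  have q2 := n2.div hq2 (pow_ne_zero 2 (hp w))
  have q3 := n3.div hq3 (pow_ne_zero 3 (hp w))
  have q4 := n4.div hq4 (pow_ne_zero 4 (hp w))
  have hat := hasDerivAt_arctan w
  have hh := (((((hat.const_mul (625 / 81 : ℝ)).sub (q1.const_mul (2500 / 81 : ℝ))).add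
    (q2.const_mul (1250 / 27 : ℝ))).sub (q3.const_mul (2500 / 81 : ℝ))).add
    (q4.const_mul (625 / 81 : ℝ))).const_mul (π ^ 3 / 24)
  refine hh.congr_deriv ?_
  have := hp w
  push_cast
  field_simp
  ring

theorem cw_zero : cw 0 = 0 := by
  unfold cw V1
  simp

/-- Volume of the ball `bal`. -/
theorem vol_bal : (volume bal).toReal = 625 / 1944 * π ^ 4 := by
  have hs : bal = Metric.ball (0 : E) √(5 / 3) := by
    ext y
    simp only [bal, Set.mem_ofPred_eq, mem_ball_zero_iff]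
    rw [Real.lt_sqrt (norm_nonneg _)]
  rw [hs, EuclideanSpace.volume_ball, Fintype.card_fin, ← ENNReal.ofReal_pow (Real.sqrt_nonneg _),
    ← ENNReal.ofReal_mul (by positivity), ENNReal.toReal_ofReal (by positivity)]
  have h1 : √(5 / 3 : ℝ) ^ 8 = 625 / 81 := by
    rw [show (8 : ℕ) = 2 * 4 by norm_num, pow_mul, Real.sq_sqrt (by norm_num)]
    norm_num
  have h2 : √π ^ 8 = π ^ 4 := by
    rw [show (8 : ℕ) = 2 * 4 by norm_num, pow_mul, Real.sq_sqrt Real.pi_pos.le]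
  have h3 : Real.Gamma ((8 : ℕ) / 2 + 1) = 24 := by
    have : ((8 : ℕ) / 2 + 1 : ℝ) = ((4 : ℕ) : ℝ) + 1 := by norm_num
    rw [this, Real.Gamma_nat_eq_factorial]
    norm_num [Nat.factorial]
  rw [h1, h2, h3]
  ring

end Pool.Agent.Lib.MP_f1379f_gt.FV.PV
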