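import Pool.Agent.Lib.MP_f1379f_gt.FV.Defs

/-!
# MP_f1379f_gt, full Q1, block A: reduction, Bonferroni, slicing, the link bound (27)

Exact Specs, complete elementary proofs in the docstrings.  Notation: <,> = inner, |.| = norm,
kap j = volume of the unit ball of R^j, rho^2 = 5/3.  For u, v: a = |u|^2, b = |v|^2, p = <u,v>,
D = ab - p^2 = Dt u v, c = cc u v = lam u + mu v with lam = (b-p)/D, mu = (a-p)/D, <c,u> = <c,v> = 1,
|c|^2 = lam + mu = (a+b-2p)/D, m = mm u v = 1 - |c|^2/2.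
The consequence of the block is I0: for every admissible U
  vol(bal ∩ poly U) >= vol bal - sum v1 + sum_pairs max(0, v2 - 9 s3).
-/

set_option autoImplicit false

namespace Pool.Agent.Lib.MP_f1379f_gt.FV

open MeasureTheory

/-- Volume of the unit ball of `R^j`. -/
noncomputable def kap (j : ℕ) : ℝ :=
  (volume (Metric.ball (0 : EuclideanSpace ℝ (Fin j)) 1)).toReal

/-- The frozen statement S14199. -/
def Frozen : Prop :=
  ∀ X : Set (EuclideanSpace ℝ (Fin 8)),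
    (∀ x ∈ X, ∀ x' ∈ X, x ≠ x' → (2 : ℝ) ≤ dist x x') →
    ∀ x ∈ X,
      (16 : ENNReal) ≤
        MeasureTheory.volume
          {y : EuclideanSpace ℝ (Fin 8) | ∀ x' ∈ X, dist y x ≤ dist y x'}

/-- RED (150 lines).  Reduction to finite admissible configurations.
PROOF.  Let Z = {x' - x : x' in X, x' /= x, |x' - x| <= 4}: 2-separated and bounded, hence finite
(an infinite subset of a compact set has two points at distance < 2).  U = image of Z under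
z -> (2/|z|^2) z (injective: z = (2/|u|^2) u).  Adm: u /= 0, |u| = 2/|z| <= 1; for z /= z':
4 <= |z|^2 + |z'|^2 - 2<z,z'> with |z|^2 = 4/|u|^2, <z,z'> = 4<u,u'>/(|u|^2|u'|^2); multiply by
|u|^2|u'|^2/4.  If |y| < 2 and y in poly U then x + y is in the Voronoi cell of x: for z = x' - x,
|y| <= |y - z| iff 2<z,y> <= |z|^2; z = 0 trivial; |z| <= 4: <u,y> <= 1; |z| > 4:
2<z,y> <= 2|z||y| < 4|z| < |z|^2.  Volume is translation invariant. -/
def SpecRED : Prop :=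
  (∀ U : Finset E, Adm U → (16 : ENNReal) ≤ volume (poly U ∩ Metric.ball (0 : E) 2)) → Frozen

/-- BON (250 lines).  Bonferroni with a cut-off pair term.
PROOF.  For y in bal let k = k(y) = #{u in U : 1 < <u,y>}.  If k >= 1 then
1 = k - (1/2) * (number of ordered pairs of different u,v with y in both caps) * (2/k), since
k(k-1)/k = k-1.  Integrate over bal (all sets measurable, finite measure):
vol(bal \ poly U) = sum_u v1 u - (1/2) sum_{u /= v} I(u,v), I(u,v) = int_{cap u ∩ cap v} 2/k(y) dy.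
Now I(u,v) >= 0, and 2/k >= 1 - (k-2)/3 for all integers k >= 2 (k = 2: 1 = 1; k = 3: 2/3 = 2/3;
k = 4: 1/2 >= 1/3; k = 5: 2/5 >= 0; k >= 6: the right side is negative), and k - 2 is the number of
w in U other than u, v with y in cap w: so I(u,v) >= v2 u v - (1/3) sum_w v3 u v w. -/
def SpecBON : Prop :=
  ∀ U : Finset E,
    (volume bal).toReal - ∑ u ∈ U, v1 u
        + (1 / 2) * ∑ u ∈ U, ∑ v ∈ U.erase u,
            max 0 (v2 u v - (1 / 3) * ∑ w ∈ (U.erase u).erase v, v3 u v w)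
      ≤ (volume (bal ∩ poly U)).toReal

/-- GSL (250 lines).  Slicing formula in Gram coordinates.
PROOF.  Let S = span(a), dim k, and choose an orthonormal basis b_0..b_{k-1} of S extended to an
orthonormal basis of E.  The coordinates give a measure preserving E ≃ R^k x R^j (OrthonormalBasis
measurePreserving, volume on EuclideanSpace = pi measure).  Tonelli: the slice over x in R^k is
{t in R^j : |t|^2 < R - |x|^2}, a ball, of volume kap j * sqrt(R-|x|^2)^j (Measure.addHaar_ball; empty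
and sqrt = 0 if R - |x|^2 <= 0, as j >= 1).  Then z = M x with M_il = <a_i, b_l> is an invertible
linear map, M M^T = G (Gram matrix of a), |det M| = sqrt(det G), |x|^2 = z^T G^-1 z
(Measure.map of the Lebesgue measure under a linear map, addHaar_preimage / lintegral
change of variables). -/
def SpecGSL : Prop :=
  ∀ (k j : ℕ), k + j = 8 → 1 ≤ j → ∀ a : Fin k → E, LinearIndependent ℝ a →
    ∀ (A : Set (Fin k → ℝ)), MeasurableSet A → ∀ R : ℝ,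
      volume {y : E | ‖y‖ ^ 2 < R ∧ (fun i => (inner ℝ (a i) y : ℝ)) ∈ A} =
        ∫⁻ z in A, ENNReal.ofReal (kap j *
          Real.sqrt (R - z ⬝ᵥ ((Matrix.of fun i l => (inner ℝ (a i) (a l) : ℝ))⁻¹.mulVec z)) ^ j
            / Real.sqrt ((Matrix.of fun i l => (inner ℝ (a i) (a l) : ℝ)).det))

/-- INV (120 lines).  Volumes depend only on the Gram matrix.
PROOF.  If the Gram matrices agree then `∑ c_i u_i ↦ ∑ c_i u'_i` is a well defined linear isometry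
span(u) -> E (|∑ c_i u_i| = |∑ c_i u'_i|), it extends to a linear isometry L of E
(LinearIsometry.extend), bijective in finite dimension, measure preserving, and
cap (L u) = L '' cap u. -/
structure SpecINV : Prop where
  g1 : ∀ u u' : E, ‖u‖ = ‖u'‖ → v1 u = v1 u'
  g2 : ∀ u v u' v' : E, ‖u‖ = ‖u'‖ → ‖v‖ = ‖v'‖ → (inner ℝ u v : ℝ) = inner ℝ u' v' →
    v2 u v = v2 u' v'
  g3 : ∀ u v w u' v' w' : E, ‖u‖ = ‖u'‖ → ‖v‖ = ‖v'‖ → ‖w‖ = ‖w'‖ →
    (inner ℝ u v : ℝ) = inner ℝ u' v' → (inner ℝ u w : ℝ) = inner ℝ u' w' →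
    (inner ℝ v w : ℝ) = inner ℝ v' w' → v3 u v w = v3 u' v' w'

/-- RPR (150 lines).  Overlapping caps give a relevant pair.
PROOF.  Let y be in both caps, |y|^2 < 5/3.  1 < <u,y> <= |u||y| gives a = |u|^2 > 3/5, same for b;
2 < <u+v,y> gives a + b + 2p > 4 * 3/5, so p > (12/5 - 2)/2 = 1/5; sep gives
2p <= 1 - (1-a)(1-b) <= 1.  D >= (3/5)^2 - 1/4 > 0 (p > 0).  lam, mu > 0 (b, a > 3/5 > p).
<c,y> = lam<u,y> + mu<v,y> > lam + mu = |c|^2, so |c|^2 < |c||y|, |c|^2 < 5/3, m > 1/6.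
|c|^2 >= 4/3: (a+b-2p)/D >= 4/3 iff h(p) := 4p^2 - 6p + 3(a+b) - 4ab >= 0; h is decreasing for
p <= 3/4 and p <= P := (a+b-ab)/2 <= 1/2; h(P) = (a+b-ab)^2 - ab >= 0 because
a+b-ab >= 2g - g^2 >= g for g = sqrt(ab) <= 1. -/
def SpecRPR : Prop :=
  ∀ u v : E, ‖u‖ ≤ 1 → ‖v‖ ≤ 1 →
    2 * (inner ℝ u v : ℝ) ≤ ‖u‖ ^ 2 + ‖v‖ ^ 2 - ‖u‖ ^ 2 * ‖v‖ ^ 2 →
    (cap u ∩ cap v).Nonempty → RP u v

/-- LKV (250 lines, algebra).  The link vectors of a relevant pair form a code in the unit ball with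
inner products at most 1/4.
PROOF.  G = [[a,p],[p,b]], G^-1 = (1/D)[[b,-p],[-p,a]].  KEY IDENTITY (K): 2m p/D <= lam mu, because
2m D = 2D - a - b + 2p and  p(2D-a-b+2p) <= (b-p)(a-p) = ab - p(a+b) + p^2  iff
2pD + p^2 <= ab  iff  (2p-1) D <= 0.
For w with LW put s = 1/2 - <w,u> >= 0, t = 1/2 - <w,v> >= 0, L = lam s + mu t >= 0.
(1) <c,w> = lam<w,u>+mu<w,v> = (lam+mu)/2 - L = |c|^2/2 - L, so 1 - <c,w> = m + L >= m > 0.
(2) w_par := w - pe u v w has <w_par,w'_par> = (1/2-s,1/2-t) G^-1 (1/2-s',1/2-t')^T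
= |c|^2/4 - (L+L')/2 + X, X = (s,t) G^-1 (s',t')^T, and pe w is orthogonal to u, v, w_par; so
<pe w, pe w'> = <w,w'> - <w_par,w'_par>.  Note |c|^2/4 = (1-m)/2.
(3) |pe w|^2 <= 1 - (1-m)/2 + L - X(w,w) <= (1+m)/2 + L (X(w,w) >= 0: G^-1 positive), hence
|pw|^2 = m^2 |pe w|^2 * 2/((1+m)(m+L)^2) <= (1 + 2L/(1+m))/(1+L/m)^2 <= 1.
(4) w /= w': <pe w,pe w'> <= 1/2 - (1-m)/2 + (L+L')/2 - X = (m + L + L')/2 - X, and
-X <= (p/D)(s t' + t s'), so by (K): -2mX <= lam mu (s t' + t s') <= L L'.  So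
<pw,pw'> = (2 m^2/(1+m)) <pe w,pe w'>/((m+L)(m+L'))
<= (m/(1+m)) (m(m+L+L') - 2mX)/(m(m+L+L') + LL') <= m/(1+m) <= 1/4. -/
structure SpecLKV : Prop where
  le : ∀ u v w : E, RP u v → LW u v w → mm u v ≤ 1 - (inner ℝ (cc u v) w : ℝ) ∧ ‖pw u v w‖ ≤ 1
  code : ∀ u v w w' : E, RP u v → LW u v w → LW u v w' → (inner ℝ w w' : ℝ) ≤ 1 / 2 →
    (inner ℝ (pw u v w) (pw u v w') : ℝ) ≤ 1 / 4
  orth : ∀ u v w : E, RP u v → (inner ℝ (pw u v w) u : ℝ) = 0 ∧ (inner ℝ (pw u v w) v : ℝ) = 0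

/-- LKP (150 lines, algebra).  Pointwise form of the comparison with the virtual touching point, and the
inequality 2h^2 + |y1|^2 >= 5/3.
PROOF.  (cmp) Let A = <u,y> - 1 > 0, B = <v,y> - 1 > 0, s, t, L as in LKV.  <w,y> = <w_par,y> + <pe w,y>
and <w_par,y> = (1/2-s,1/2-t)G^-1(1+A,1+B)^T = <c,y>/2 - L - (s,t)G^-1(A,B)^T.  Hence
1 - <w_par,y> = (1 - <c,y>/2) + L + (s,t)G^-1(A,B)^T.  CLAIM: this is >= (1+L/m)(1 - <c,y>/2).
<c,y> = |c|^2 + lam A + mu B, so 1 - <c,y>/2 = m - (lam A + mu B)/2 and the claim is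
(s,t)G^-1(A,B)^T + (L/(2m))(lam A + mu B) >= 0: the coefficients of sA and tB are >= 0, those of sB
and tA are -p/D + lam mu/(2m) >= 0 by (K) of LKV.  pe w = (k0 (m+L)/m) pw w with
k0 = sqrt((1+m)/2).  So 1 < <w,y> gives (k0 (m+L)/m) <pw,y> > ((m+L)/m)(1-<c,y>/2).
(rad) Let P y be the projection of y to span(u,v) and tau = <c,y> >= |c|^2 = 2-2m.  |P y|^2 >=
tau^2/|c|^2.  With h = (1-tau/2)/k0: 2h^2 + |Py|^2 >= (2-tau)^2/(1+m) + tau^2/(2(1-m)) =: f(tau),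
convex, f'(2-2m) = -4m/(1+m) + 2 >= 0, so f(tau) >= f(2-2m) = (2+2m^2)/(1+m) >= 5/3 for
0 < m <= 1/3 (6 + 6m^2 - 5 - 5m = (1-3m)(1-2m) >= 0).
(pos) <c,y> <= |c||y| < 5/3 < 2, so h > 0. -/
structure SpecLKP : Prop where
  cmp : ∀ u v w y : E, RP u v → LW u v w → 1 < (inner ℝ u y : ℝ) → 1 < (inner ℝ v y : ℝ) →
    1 < (inner ℝ w y : ℝ) →
    1 - (inner ℝ (cc u v) y : ℝ) / 2 <
      Real.sqrt ((1 + mm u v) / 2) * (inner ℝ (pw u v w) y : ℝ)
  rad : ∀ u v y : E, RP u v → 1 < (inner ℝ u y : ℝ) → 1 < (inner ℝ v y : ℝ) →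
    5 / 3 ≤ 2 * ((1 - (inner ℝ (cc u v) y : ℝ) / 2) / Real.sqrt ((1 + mm u v) / 2)) ^ 2
      + ‖y - pe u v y‖ ^ 2
  pos : ∀ u v y : E, RP u v → ‖y‖ ^ 2 < 5 / 3 →
    0 < (1 - (inner ℝ (cc u v) y : ℝ) / 2) / Real.sqrt ((1 + mm u v) / 2)

/-- JIN (150 lines).  One-dimensional comparison.
PROOF.  Write h' = h/r >= h.  If h'^2 >= Q the left side is 0.  Otherwise let
th = (Q-h'^2)/(Q-h^2) in (0,1].  Substitute Q - x^2 = th (Q - y^2), y = sqrt(Q - (Q-x^2)/th): x from h' to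
sqrt Q corresponds to y from h to sqrt Q, y <= x, x dx = th y dy, dx <= th dy.  So
left <= th^{7/2} int_h^{sqrt Q} (Q-y^2)^{5/2} dy.  (Without substitution: F(x) = int_x^{sqrt Q}
(Q-y^2)^{5/2} dy satisfies 7 x F(x) <= (Q-x^2)^{7/2} since 1 <= y/x, so F(x)(Q-x^2)^{-7/2} has
derivative <= 0.)  Finally th = 1 - (1/r^2-1) h^2/(Q-h^2) <= 1 - (1/r^2-1) = (2r^2-1)/r^2 because
h^2 >= Q - h^2, and sig(1-r^2) = sqrt((2r^2-1)/r^2)^7. -/
def SpecJIN : Prop :=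
  ∀ Q h r : ℝ, 0 < h → 0 < r → r ≤ 1 → Q ≤ 2 * h ^ 2 →
    ∫⁻ x in Set.Ioi (h / r), ENNReal.ofReal (Real.sqrt (Q - x ^ 2) ^ 5) ≤
      ENNReal.ofReal (sig (1 - r ^ 2)) *
        ∫⁻ x in Set.Ioi h, ENNReal.ofReal (Real.sqrt (Q - x ^ 2) ^ 5)

/-- LKS (250 lines).  Triple volumes against the virtual touching point.
PROOF.  r = |pw u v w| <= 1 (LKV).  k0 = sqrt((1+m)/2), h(y) = (1 - <c,y>/2)/k0.  By LKP.cmp and
LKP.pos the set cap u ∩ cap v ∩ cap w is empty if r = 0 (and sig 1 = 0); let r > 0, e = pw/|pw|, a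
unit vector orthogonal to u, v.  wst u v n and wst u v e have the same Gram matrix with u, v, so
(INV.g3) assume n = e.  By LKP.cmp, cap u ∩ cap v ∩ cap w is contained in
S_r = {y in bal : 1 < <u,y>, 1 < <v,y>, h(y)/r < <e,y>}, and cap u ∩ cap v ∩ cap (wst u v e) = S_1
(<wst,y> = <c,y>/2 + k0 <e,y>).  GSL with a = (u,v,e), k = 3, j = 5: Gram matrix blockdiag(G,1), so
vol S_r = int int_{z1,z2>1} int_{x > h/r} kap 5 sqrt(5/3 - q(z1,z2) - x^2)^5 / sqrt D, where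
q(z1,z2) = |P y|^2 and h depend only on z1, z2 (<c,y> = lam z1 + mu z2).  For fixed z1, z2 apply JIN
with Q = 5/3 - q: Q <= 2h^2 by LKP.rad (if Q <= 0 everything is 0). -/
def SpecLKS : Prop :=
  ∀ u v w n : E, RP u v → LW u v w → ‖n‖ = 1 → (inner ℝ n u : ℝ) = 0 → (inner ℝ n v : ℝ) = 0 →
    v3 u v w ≤ sig (1 - ‖pw u v w‖ ^ 2) * v3 u v (wst u v n)

/-- MCP (250 lines).  The virtual triple volume is largest for contact pairs.
PROOF.  wst = wst u v n: norm 1, <wst,u> = <wst,v> = 1/2 (|c|^2/4 + (1+m)/2 = 1).  Gram matrix of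
(u,v,wst): G = G0 - K, G0 = (1/2)(I + J) (ones matrix J), K = [[d1,k,0],[k,d2,0],[0,0,0]], d1 = 1-a,
d2 = 1-b in [0,2/5), k = 1/2-p in [0,3/10).  GSL (k = 3): v3 = int_{z>1} kap 5 sqrt(5/3-z^T G^-1 z)^5/sqrt(det G).
Compare the integrands for fixed z > 1 with P := 5/3 - z^T G^-1 z > 0.  Choose y in E with
<a_i,y> = z_i, |y|^2 = z^T G^-1 z < 5/3; with S = sum (z_i - 1): (3+S)^2 = <sum a_i, y>^2 <=
(sum of the entries of G) |y|^2 <= 6 * 5/3, so S < .1623.  G0^-1 = 2I - J/2; x := G0^-1 z has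
x_i = 2 z_i - (3+S)/2 >= 1/2 - S/2 >= 2/5.  For positive definite G:
z^T G^-1 z >= 2 x^T z - x^T G x = z^T G0^-1 z + x^T K x (complete the square), so with
P0 = 5/3 - z^T G0^-1 z: P <= P0 - E', E' = x^T K x >= (4/25)(d1+d2+2k), and P0 <= 1/6
(z^T G0^-1 z = 3/2 + S + 2 sum (z_i-1)^2 - S^2/2 >= 3/2).  So P0 > 0 and P/P0 <= 1 - 6E'.
det G/det G0 = 1 - (3/2)(d1+d2) + k + 2(d1 d2 - k^2) >= 1 - (3/2)(d1+d2) + 2 d1 d2.
NEED: (P/P0)^5 <= det G/det G0.  With X = d1+d2: left <= (1 - (24/25) X)^5; right: if X <= 2/5: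
>= 1 - (3/2)X >= (1-(24/25)X)^5 (convexity: equality at 0, at X = 2/5: .0886 <= .4; the left side is
convex, the right linear); if X > 2/5: d1 d2 >= (2/5)(X - 2/5) (both d_i <= 2/5), right >= .68 - .7 X
>= .12 >= .0886.  Hence integrand <= integrand for G0; integrate: v3 u v wst <= v3 e0 e1 e2 = s3 (e0,e1,e2
have Gram matrix G0; GSL again). -/
def SpecMCP : Prop :=
  ∀ u v n : E, RP u v → ‖n‖ = 1 → (inner ℝ n u : ℝ) = 0 → (inner ℝ n v : ℝ) = 0 →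
    v3 u v (wst u v n) ≤ s3

/-- LP6 (120 lines).  At most 93 points with cosines at most 1/2 on the sphere of R^6.
PROOF.  f(t) = t^2 (t+3/5)^2 (t-1/2) = sum f_k P_k(t), P_k = Zg 6 k t 1 (FV/GEN.lean):
P_2 = (6t^2-1)/5, P_3 = (8t^3-3t)/5, P_4 = (80t^4-48t^2+3)/35, P_5 = (24t^5-20t^3+3t)/7,
f_5 = 7/24, f_4 = 49/160, f_3 = 89/240, f_2 = 1/5, f_1 = 39/400, f_0 = 11/800; f <= 0 on [-1,1/2],
f(1) = 32/25.  By gen_pos (n = 6): f_0 N^2 <= sum sum f(<p,q>) <= N f(1), N <= 93.09. -/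
def SpecLP6 : Prop :=
  ∀ s : Finset E6, (∀ p ∈ s, ‖p‖ = 1) → (∀ p ∈ s, ∀ q ∈ s, p ≠ q → (inner ℝ p q : ℝ) ≤ 1 / 2) →
    s.card ≤ 93

/-- S27 (250 lines).  The weighted 27-bound.
PROOF.  Terms with x_i := 1 - |p_i|^2 >= 1/2 vanish (sig = 0); drop them.  The others: n of them,
p_i/|p_i| are different unit vectors with inner products <= (1/4)/(1/2) = 1/2: n <= 93 (LP6).
a_i := 1 - 2x_i in (0,1], A = sum a, Y = sum a x, f(t) = (t+1/2)^2 (t-1/4) = t^3 + (3/4)t^2 - 1/16.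
sum_ij a_i a_j <p_i,p_j>^3 >= 0 (tensor square, or gen_pos n = 6 k = 3,1 as t^3 = (5/8)Z_3 + (3/8) m Z_1),
sum_ij a_i a_j <p_i,p_j>^2 >= (1/6)(sum a_i |p_i|^2)^2 (gen_pos n = 6, k = 2: Z_2 = (6p^2 - m)/5), and
f(<p_i,p_j>) <= 0 for i /= j.  So (1/8)(A-Y)^2 - A^2/16 <= sum_ij a_i a_j f(<p_i,p_j>)
<= sum_i a_i^2 f(1-x_i), f(1-x) = (3/2-x)^2 (3/4-x).
A^2 - 4AY + 2Y^2 = 54A - 729 - 108Y + (A-27-2Y)^2 - 2Y^2 >= 54A - 729 - 108Y - 2Y^2.  Multiply by 1/16 and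
then by 16/27: sum [2a - 4ax - (16/27) a^2 f(1-x)] <= 27 + (2/27) Y^2, and Y^2 <= n sum a^2 x^2
<= 93 sum a^2 x^2.  2a - 4ax = 2a^2, (16/27) f(1-x) = (1-2x/3)^2 (1-4x/3).  So sum_i a_i^2 B(x_i) <= 27,
B(x) = 2 - (1-2x/3)^2(1-4x/3) - (62/9)x^2 = 1 + (8/3)x - (82/9)x^2 + (16/27)x^3.
POINTWISE: sig x <= (1-2x)^2 B(x) on [0,1/2], i.e. (1-2x)^{3/2} <= (1-x)^{7/2} B(x), i.e. (B > 0)
(1-2x)^3 <= (1-x)^7 B(x)^2.  (Margins: x = .1: .512 <= .661.. ; x = .3: .064 <= .0876; x = .5: 0.  Near 0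
both sides are 1 - 6x.. and 1 - (5/3)x...)  E.g. use B >= 1 + (8/3)x - (82/9)x^2 and (1-x)^7 >= .. on pieces,
or a Bernstein certificate of the difference divided by x. -/
def SpecS27 : Prop :=
  ∀ (ι : Type) (s : Finset ι) (p : ι → E6), (∀ i ∈ s, ‖p i‖ ≤ 1) →
    (∀ i ∈ s, ∀ j ∈ s, i ≠ j → (inner ℝ (p i) (p j) : ℝ) ≤ 1 / 4) →
    ∑ i ∈ s, sig (1 - ‖p i‖ ^ 2) ≤ 27

/-- LNK (150 lines).  The link bound, for every pair of every configuration.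
PROOF.  If cap u ∩ cap v is empty all terms are 0 and s3 >= 0.  Otherwise RP u v (RPR).  Every w in U
other than u, v satisfies LW (sep: 2<w,u> <= 1 - (1-|w|^2)(1-|u|^2) <= 1) and <w,w'> <= 1/2 for
different w, w'.  The vectors pw u v w lie in the orthogonal complement of span(u,v), of dimension 6;
a linear isometry of it onto E6 gives p : E -> E6 with the same norms and inner products (LKV.orth,
LKV.le, LKV.code), so sum_w sig(1-|pw|^2) <= 27 (S27).  Take a unit vector n orthogonal to u, v: by LKS and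
MCP v3 u v w <= sig(..) v3 u v (wst u v n) <= sig(..) s3. -/
def SpecLNK : Prop :=
  ∀ U : Finset E, Adm U → ∀ u ∈ U, ∀ v ∈ U, u ≠ v →
    ∑ w ∈ (U.erase u).erase v, v3 u v w ≤ 27 * s3

/-- I0 (60 lines).  Two-body lower bound of the truncated cell.  PROOF.  BON and LNK. -/
def SpecI0 : Prop :=
  ∀ U : Finset E, Adm U →
    (volume bal).toReal - ∑ u ∈ U, v1 u
        + (1 / 2) * ∑ u ∈ U, ∑ v ∈ U.erase u, max 0 (v2 u v - 9 * s3)
      ≤ (volume (bal ∩ poly U)).toReal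

end Pool.Agent.Lib.MP_f1379f_gt.FV
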