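import Pool.Agent.Lib.MP_f1379f_gt.FV.GEN

/-!
# MP_f1379f_gt, full Q1, block STAB1, part 1: the link of a good centre is E7

A link = 56 unit vectors `p b` of R^7 (normalised projections of the neighbours) with a symmetric set
`C` of contact pairs.  Everything here is about such a link only (structure `LK`): result: the link is
antipodal up to small errors (ANT) and the signs of the 28 lines form a Seidel matrix with
S^2 = 6S + 27 (SPC, INT), i.e. the link is combinatorially E7 (then GQC, GQD, GQE label it).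

NOTATION.  t = <p b, p c>, hat scale.  T = (3t+1)/4 (the T-scale), F(T) = T^2 (1/4 - T^2) = (3/256) G7(t),
A7(t) = T^2 (1-2T)^2.  Everything has a complete elementary proof in the docstring.
-/

set_option autoImplicit false

namespace Pool.Agent.Lib.MP_f1379f_gt.FV

/-- Euclidean 7-space. -/
abbrev V7 := EuclideanSpace ℝ (Fin 7)

/-- The kernel `G`, negative exactly for `t > 1/3`. -/
noncomputable def G7 (t : ℝ) : ℝ := (1 - 3 * t) * (1 + t) * (1 + 3 * t) ^ 2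

/-- The kernel `A`, double zeros at `±1/3`, `A7 (±1) = 1`. -/
noncomputable def A7 (t : ℝ) : ℝ := ((9 * t ^ 2 - 1) / 8) ^ 2

/-- Counting kernel: `q7 (1/3) = 1`. -/
noncomputable def q7 (t : ℝ) : ℝ := 3 / 16 * (1 + t) * (1 + 3 * t) ^ 2

/-- `F`, the kernel `G` in the T-scale. -/
noncomputable def F7 (T : ℝ) : ℝ := T ^ 2 * (1 / 4 - T ^ 2)

/-- KER7 (100 lines).  Positive definite kernels on the unit sphere of R^7 (`s` any finite family of unit
vectors, n = card s).  PROOF.  GEN.gen_pos with n = 7 and |u| = 1 gives sum_{i,j} Zg 7 k t_ij 1 >= 0 for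
k = 0..4 (pattern: KIA.zon_pos).  Zg 7 k t 1 =: P_k: P_0 = 1, P_1 = t, P_{k+2} = ((2k+7) t P_{k+1} -
(k+1) P_k)/(k+6).  Identities (ring after unfolding Zg):
  -G7 = 8/7 + 8 P_1 + 1368/77 P_2 + 24 P_3 + 144/11 P_4,
  228/11 (t^2 - 1/7) = 1368/77 P_2,
  A7 = 1/28 + 27/77 P_2 + 27/44 P_4,
  -(15/64 G7 + q7) = -9/28 + 135/77 P_2 + 9/2 P_3 + 135/44 P_4,
  t^2 = 1/7 + 6/7 P_2.
-/
structure SpecKER7 : Prop where
  g : ∀ {ι : Type} (s : Finset ι) (p : ι → V7), (∀ i ∈ s, ‖p i‖ = 1) →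
    ∑ i ∈ s, ∑ j ∈ s, G7 (inner ℝ (p i) (p j))
      + 228 / 11 * (∑ i ∈ s, ∑ j ∈ s, (inner ℝ (p i) (p j) : ℝ) ^ 2 - (s.card : ℝ) ^ 2 / 7)
      + 8 / 7 * (s.card : ℝ) ^ 2 ≤ 0
  a : ∀ {ι : Type} (s : Finset ι) (p : ι → V7), (∀ i ∈ s, ‖p i‖ = 1) →
    (s.card : ℝ) ^ 2 / 28 ≤ ∑ i ∈ s, ∑ j ∈ s, A7 (inner ℝ (p i) (p j))
  q : ∀ {ι : Type} (s : Finset ι) (p : ι → V7), (∀ i ∈ s, ‖p i‖ = 1) →
    ∑ i ∈ s, ∑ j ∈ s, (15 / 64 * G7 (inner ℝ (p i) (p j)) + q7 (inner ℝ (p i) (p j))) ≤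
      9 / 28 * (s.card : ℝ) ^ 2
  t2 : ∀ {ι : Type} (s : Finset ι) (p : ι → V7), (∀ i ∈ s, ‖p i‖ = 1) →
    (s.card : ℝ) ^ 2 / 7 ≤ ∑ i ∈ s, ∑ j ∈ s, (inner ℝ (p i) (p j) : ℝ) ^ 2

/-- A link with budget `B` (hat scale) for the kernel `G` and `cA` for the kernel `A` on contacts. -/
structure LK {α : Type} [DecidableEq α] (N : Finset α) (p : α → V7) (C : Finset (α × α))
    (B cA : ℝ) : Prop where
  card : N.card = 56
  unit : ∀ b ∈ N, ‖p b‖ = 1
  symm : ∀ b c, (b, c) ∈ C → (c, b) ∈ C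
  up : ∀ b ∈ N, ∀ c ∈ N, b ≠ c → (inner ℝ (p b) (p c) : ℝ) ≤ 39 / 100
  con : ∀ b ∈ N, ∀ c ∈ N, b ≠ c → (b, c) ∈ C → 19 / 75 ≤ (inner ℝ (p b) (p c) : ℝ)
  non : ∀ b ∈ N, ∀ c ∈ N, b ≠ c → (b, c) ∉ C → (inner ℝ (p b) (p c) : ℝ) ≤ 1 / 3
  bud : ∑ q ∈ N.offDiag.filter (fun q => q ∉ C), G7 (inner ℝ (p q.1) (p q.2))
    + 228 / 11 * (∑ b ∈ N, ∑ c ∈ N, (inner ℝ (p b) (p c) : ℝ) ^ 2 - 448) ≤ B
  ccA : ∑ q ∈ N.offDiag.filter (fun q => q ∈ C), A7 (inner ℝ (p q.1) (p q.2)) ≤ cA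

/-- The antipodal map of a link. -/
structure AN {α : Type} [DecidableEq α] (N : Finset α) (p : α → V7) (σ : α → α) : Prop where
  inv : ∀ b ∈ N, σ b ∈ N ∧ σ (σ b) = b ∧ σ b ≠ b
  near : ∀ b ∈ N, (inner ℝ (p b) (p (σ b)) : ℝ) ≤ -9 / 10
  far : ∀ b ∈ N, ∀ c ∈ N, c ≠ b → c ≠ σ b → -21 / 25 < (inner ℝ (p b) (p c) : ℝ)
  two : ∀ b ∈ N, ∀ c ∈ N, c ≠ b → c ≠ σ b →
    (1 + (inner ℝ (p b) (p (σ b)) : ℝ)) + (1 + (inner ℝ (p c) (p (σ c)) : ℝ)) ≤ 9 / 80

/-- ANT (250 lines).  The antipodal map.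
PROOF.  n = 56.  KER7.a: sum_all A7 >= 112, diagonal 56, so sum_{b /= c} A7 >= 56; the contact pairs give
<= 3/10, so (1) sum over the non-contact ordered pairs of A7 >= 557/10.  KER7.t2: the bracket in `bud` is
>= 0, and G7 >= 0 for t <= 1/3 (|t| <= 1), so (2) sum over the non-contact ordered pairs of G7 <= 418/100.
For t <= 1/3: A7 = G7 (1-3t)/(64(1+t)); for t >= -21/25 this is <= (11/32) G7.  So the pairs with
t >= -21/25 contribute <= (11/32)(4.18) <= 1.437 to (1); A7 <= 1 always: the number of ordered pairs with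
t < -21/25 is >= 55.7 - 1.437 > 54.  Each b has at most one c with t_bc < -21/25: two of them, c, c', would
have |p c + p c'|^2 >= <p b, p c + p c'>^2 >= (42/25)^2, i.e. t_cc' >= 2 (21/25)^2 - 1 = .4112 > 39/100.  So
these pairs form a matching; its number of ordered pairs is even, > 54 and <= 56: it is 56, perfect
matching sigma (all its pairs are non-contact: t < 0).
near: suppose t := t_{b,sigma b} = -1 + v with v in (1/10, 4/25].  G7 = v (4-3v)(2-3v)^2 >= 1.0693 on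
[.1,.16].  The pair and its reverse cost >= 2.1386, so all other non-contact ordered pairs together have
G7-sum <= 2.0414, hence every other unordered pair has G7 <= 1.0207.  For a non-matched pair t >= -21/25
and G7 >= 1.052 on v in [.16, .32] (t = -1 + v), so t > -.68, where (1-3t)/(64(1+t)) <= .1485; so the
non-matched non-contact pairs have A7-sum <= .304.  A7(t) <= A7(-9/10) = (.78625)^2 <= .6182 for our pair
(|t| < 9/10), the other 54 matched ordered pairs <= 1 each: total <= 54 + 1.2364 + .304 = 55.54 < 55.7.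
two: for v in [0,1/10] put K(v) = 2 (1 - A7(-1+v)) + (11/16) G7(-1+v), A7 = (1 - 9v/4 + 9v^2/8)^2, G7 =
v(4-3v)(2-3v)^2.  With v, v' the values of the two pairs (sigma b, sigma c different pairs): (1) and the
(11/32)-bound for the non-matched pairs (their G7-sum is <= 4.18 - 2G7(v) - 2G7(v')): 2(1-A)+2(1-A') <= 3/10
+ (11/32)(4.18 - 2G - 2G'), i.e. K(v) + K(v') <= 1.7369.  If v + v' > 9/80 then v, v' >= 1/80 and K(v) >= .2413 +
14.37 (v - 1/80) on [1/80, 1/10] (K - chord has the zeros 1/80, 1/10 nearly; K(1/80) = .24138, K(1/10) =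
1.49876, K is concave there), so K(v) + K(v') >= .4826 + 14.37 (9/80 - 1/40) = 1.7399 > 1.7369. -/
def SpecANT : Prop :=
  ∀ {α : Type} [DecidableEq α] (N : Finset α) (p : α → V7) (C : Finset (α × α)),
    LK N p C (418 / 100) (3 / 10) → ∃ σ : α → α, AN N p σ

/-- LPI (350 lines; real numbers only).  The pair of lines inequality, T-scale.
a, b = 3/4 |z|^2 of the two lines (z = half sum of the antipodal pair), g = 3/4 |<y,y'>|, c1, c2, z the
cross terms; T1, .., T4 the four T-values; fi = cost: F7(Ti) if the pair is no contact, >= 0 if it is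
(then Ti >= 11/25).
PROOF.  Q(x) := 2 F7(-1/2+2x) = x(1-4x)^2(1-2x) >= .668 x on [0,3/80].  delta := 1/4 - g + z, m := 1/4 + g + z =
1/2 - delta + 2z >= delta, r := |c1 - c2|, s := |c1 + c2|, sig := a + b.  {T1,T2} = {delta+r, delta-r} =: {T1,T2} with T1 =
delta+r, {T3,T4} with T3 = m+s, T4 = m-s.  r^2+s^2 = 2(c1^2+c2^2) <= (3/2) sig <= .06329 (so r, s <= .2516), r+s =
2 max(|c1|,|c2|) <= sqrt(.1125) <= .33542, 2|z| <= sig <= .0421875.  Cost C := 2 sum f + Q(a)+Q(b) >= 2 sum f + .668 sig,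
and .668 sig >= .4453 (r^2+s^2).  Suppose delta^2 > (21/10) sum f; we show C > 49/1000.
(0) T1 >= .44 and T3 >= .44 is impossible: T1+T3 = 1/2+2z+r+s <= .8777 < .88.
(1) |delta| <= .109: T1 >= .44 would need r >= .331; so f1+f2 = F7(delta+r)+F7(delta-r) = delta^2(1/2 - 2delta^2 - 12r^2)
+ r^2(1/2 - 2r^2) and minus (10/21)delta^2 this is delta^2(1/42 - 2delta^2) + r^2(1/2 - 12delta^2 - 2r^2) >= 0:
contradiction.
(2) delta < -.109: T3 >= m > .609 - .0422 > .5425: contradiction.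
(3) delta > .109 (so delta <= m, delta <= 1/4+z <= .2711, .2289 <= 1/4+z <= m <= .5422 - delta <= .4332, T4 <= m < .44, T2 < .44).
(3A) T1 < .44, T3 < .44: C >= w(delta,r^2) + w(m,s^2), w(x,R) := x^2-4x^4+R(1.4453-24x^2)-4R^2 (= 2F7(x+r)+2F7(x-r)
+ .4453 R).  w(delta,R) >= .0113 (x in [.109,.2711], 0 <= R <= min(.0633,(.44-x)^2)) and w(m,S) >= .0385 (x in
[.2289,.4332], 0 <= S <= (.44-x)^2): w is concave in R, so it is enough to check R = 0 (x^2-4x^4 >= .0113 resp.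
>= .0414) and the largest R (x^2-4x^4+(.44-x)^2(1.4453-24x^2)-4(.44-x)^4 >= .0393 on [.22,.44]; where 1.4453 -
24x^2 - 4R >= 0 the value is >= x^2-4x^4).  Sum .0498 > .049.
(3C) T1 >= .44 (then T3 < .44): r >= .44-delta, delta >= .1884, s <= .33542-r <= delta-.10458.  C >= .4453r^2+4F7(m)+
s^2(1.4453-24m^2-4s^2) = .4453r^2 + M-4M^2+1.4453S-24MS-4S^2 with M = m^2 in [delta^2,(.5422-delta)^2], S = s^2 in
[0,(delta-.10458)^2]: concave in M and in S, so >= the minimum over the four corners; with r^2 >= (.44-delta)^2 each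
corner is a polynomial in delta in [.1884,.2711] with values >= .0526 (corner M = delta^2, S = max at delta = .2711).
(3B) T3 >= .44 (then T1 < .44).  tau := T4 = m-s.
  (3B2) delta >= 1/5: C >= [delta^2-4delta^4+R(1.4453-24delta^2)-4R^2] + h, R = r^2 <= (.44-delta)^2, h = .4453s^2+2F7(tau),
  tau+2s = T3 >= .44.  h >= .111325(.44-tau)^2+tau^2/2-2tau^4 >= .0175 for tau in [-.1,.26] (tau <= 2m-.44 <= .2444).  The bracket
  is concave in R: R = 0: >= .0336 (delta in [.2,.2711]); R = (.44-delta)^2: >= .0385.  Sum >= .0511.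
  (3B1) delta in [.109,.2].  If R := r^2 >= .0407: s >= .44-m >= delta-.1022 >= 0, C >= .4453(R+(delta-.1022)^2)+delta^2-4delta^4+
  R(1-24delta^2-4R), concave in R on [.0407,.0633], both ends >= .0505.  If R <= .0407: sum f < (10/21)delta^2 gives
  F7(tau) < (10/21)delta^2 - F7(delta+r) - F7(delta-r) <= 2delta^4-delta^2/42+.0026 <= .0049, so tau < .42 (F7 >= .0117 on
  [.3,.4332]; tau <= m <= .4332).  And 2 sum f >= 2l sum f - (20/21)(l-1)delta^2 with l = 11/4.  sig >= (19/25)(2/3)(r^2+s^2) +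
  (6/25)(-2z) and s^2 >= (9/19)s-(9/38)^2, s = 1/2-delta+2z-tau: sig >= .09157-(6/25)(delta+tau)+.5066R.  So C >= .06116 -
  .16032(delta+tau)+.338R+l(delta^2-4delta^4+R(1-24delta^2-4R)+tau^2/2-2tau^4)-(5/3)delta^2; the R-terms are >= 0 (R <=
  .0407, delta <= .2); -.16032delta+(13/12)delta^2-11delta^4 >= -.00634 on [.109,.2]; -.16032tau+1.375tau^2-5.5tau^4 >= -.00475
  on [-.38,.42]: C >= .05006. -/
def SpecLPI : Prop :=
  ∀ g a b c1 c2 z T1 T2 T3 T4 f1 f2 f3 f4 : ℝ, 0 ≤ g → 0 ≤ a → 0 ≤ b → a ≤ 3 / 80 → b ≤ 3 / 80 →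
    a + b ≤ 27 / 640 → c1 ^ 2 ≤ 3 / 4 * b → c2 ^ 2 ≤ 3 / 4 * a → z ^ 2 ≤ a * b →
    T1 = 1 / 4 - g + (c1 - c2) + z → T2 = 1 / 4 - g - (c1 - c2) + z →
    T3 = 1 / 4 + g + (c1 + c2) + z → T4 = 1 / 4 + g - (c1 + c2) + z →
    -19 / 50 ≤ T1 → -19 / 50 ≤ T2 → -19 / 50 ≤ T3 → -19 / 50 ≤ T4 →
    T1 ≤ 217 / 400 → T2 ≤ 217 / 400 → T3 ≤ 217 / 400 → T4 ≤ 217 / 400 →
    0 ≤ f1 → 0 ≤ f2 → 0 ≤ f3 → 0 ≤ f4 →
    (f1 = F7 T1 ∨ 11 / 25 ≤ T1) → (f2 = F7 T2 ∨ 11 / 25 ≤ T2) →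
    (f3 = F7 T3 ∨ 11 / 25 ≤ T3) → (f4 = F7 T4 ∨ 11 / 25 ≤ T4) →
    2 * (f1 + f2 + f3 + f4) + 2 * F7 (-1 / 2 + 2 * a) + 2 * F7 (-1 / 2 + 2 * b) ≤ 49 / 1000 →
    (1 / 4 - g + z) ^ 2 ≤ 21 / 10 * (f1 + f2 + f3 + f4)

/-- Half difference and half sum of an antipodal pair. -/
noncomputable def yv {α : Type} (p : α → V7) (σ : α → α) (b : α) : V7 :=
  (1 / 2 : ℝ) • (p b - p (σ b))

/-- See `yv`. -/
noncomputable def zv {α : Type} (p : α → V7) (σ : α → α) (b : α) : V7 :=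
  (1 / 2 : ℝ) • (p b + p (σ b))

/-- Signs of the lines. -/
noncomputable def sg {α : Type} (p : α → V7) (σ : α → α) (b c : α) : ℝ :=
  if 0 < (inner ℝ (yv p σ b) (yv p σ c) : ℝ) then 1 else -1

/-- LIN (200 lines).  LPI for all pairs of lines of a link, and the sign is never ambiguous.
Hat scale: b, c in different antipodal pairs; `lc` = the cost of the four pairs between them.
PROOF.  y = yv b, z = zv b, y' = yv c, z' = zv c.  |y|^2 = 1 - |z|^2, <y,z> = 0, |z|^2 = (1 + t_{b,sigma b})/2 <= 1/20,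
|z|^2+|z'|^2 <= 9/160 (AN.two).  p b = y+z, p(sigma b) = z-y: <p b,p c> = <y,y'>+<y,z'>+<z,y'>+<z,z'> etc.  If
<y,y'> >= 0 apply LPI with g = 3/4<y,y'>, c1 = 3/4<y,z'>, c2 = 3/4<z,y'>, z = 3/4<z,z'>, a = 3/4|z|^2, b = 3/4|z'|^2
(c1^2 <= (9/16)|y|^2|z'|^2 <= (3/4)(3/4|z'|^2)), T3, T4 the T-values of (b,c), (sigma b,sigma c), T1, T2 those of (b,
sigma c), (sigma b,c) (in the order of the signs); f = F7(T) = (3/256) G7(t) for a non-contact pair, 0 for a contact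
pair (T >= 11/25 iff t >= 19/75); T >= -19/50 by AN.far, T <= 217/400 by LK.up.  If <y,y'> < 0 replace c by
sigma c (y' -> -y', z' -> z').  Budget: in `bud` all terms are >= 0 and the four pairs, in both orders, and the
two antipodal pairs, in both orders, contribute 2*4 + 2 + 2 terms: 2 sum h + 2G7(t_{b,sigma b}) + 2G7(t_{c,sigma c}) <=
4.18, times 3/256: <= .04899 <= 49/1000.  The conclusion (9/16)(1/3-|<y,y'>|+<z,z'>)^2 <= (21/10)(3/256) sum h is
`ineq` ((21/10)(3/256)(16/9) = 7/160).  amb: if <y,y'> = 0 then (1/3+<z,z'>)^2 <= (7/160) sum h <= (7/160)(2.09) =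
.0915, but 1/3 - 9/320 >= .305 and .305^2 = .093. -/
structure SpecLIN : Prop where
  ineq : ∀ {α : Type} [DecidableEq α] (N : Finset α) (p : α → V7) (C : Finset (α × α)) (σ : α → α),
    LK N p C (418 / 100) (3 / 10) → AN N p σ → ∀ b ∈ N, ∀ c ∈ N, c ≠ b → c ≠ σ b →
    (1 / 3 - |(inner ℝ (yv p σ b) (yv p σ c) : ℝ)| + (inner ℝ (zv p σ b) (zv p σ c) : ℝ)) ^ 2 ≤
      7 / 160 * ∑ q ∈ ({b, σ b} ×ˢ {c, σ c} : Finset (α × α)).filter (fun q => q ∉ C),
        G7 (inner ℝ (p q.1) (p q.2))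
  amb : ∀ {α : Type} [DecidableEq α] (N : Finset α) (p : α → V7) (C : Finset (α × α)) (σ : α → α),
    LK N p C (418 / 100) (3 / 10) → AN N p σ → ∀ b ∈ N, ∀ c ∈ N, c ≠ b → c ≠ σ b →
    (inner ℝ (yv p σ b) (yv p σ c) : ℝ) ≠ 0

/-- SPC (300 lines).  Representatives `K` of the 28 lines; S = signs; the integer matrix N' = S^2-6S-27I is
small.  (Sums over K x K; d = Kronecker.)
PROOF.  Matrices indexed by K (28 elements: N is the disjoint union of K and sigma K).  Y: rows y_k = yv k (in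
R^7), Gam = (<y_k,y_l>) = Y Y^T, X = Y^T Y - 4 (7x7), Z0 = sum_K |z_k|^2, D = Gam - (1 + S/3) (entries: diagonal -|z_k|^2,
off-diagonal |<y_k,y_l>| - 1/3 up to the sign S_kl).
(a) G_O = sum over the non-contact ordered pairs that are not antipodal, G_A = the antipodal ones, eps = the
bracket of `bud` = |sum_N p p^T - 8|^2 (Frobenius): G_O+G_A+(228/11)eps <= 4.18; G_A = sum_K 2G7(t) >= 42.7 Z0 (G7 =
2x(4-6x)(2-6x)^2, x = |z|^2 <= 1/20).
(b) |D|_F <= sqrt(7/160 G_O) + Z0: entrywise |D_kl| <= |1/3-|<y_k,y_l>|+<z_k,z_l>| + |<z_k,z_l>|, the first part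
is SpecLIN.ineq (each ordered pair (k,l) collects its 4 ordered pairs), the second matrix (diagonal included)
has Frobenius norm <= Z0.
(c) e := |X|_F <= sqrt(eps)/2 + Z0: sum_N p p^T = 2 sum_K (y y^T + z z^T).
(d) d := |D|_F+e <= sqrt((7/160+11/912)(G_O+(228/11)eps)) + 2 Z0 <= sqrt(.05581(4.18-42.7Z0)) + 2Z0 <= .48302
(Cauchy; sqrt(1-x) <= 1-x/2).
(e) N' = 9(P*^2-4P*), P* = 1+S/3 = Gam - D: P*^2-4P* = Y X Y^T - [(Gam-2)D + D(Gam-2)] + D^2.  |Yv|^2 = v^T(4+X)v <=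
(4+e)|v|^2, |Y^T c|^2 <= (4+e)|c|^2 (|Y^T c|^4 = <c,YY^T c>^2 <= |c|^2 (4+e)|Y^T c|^2), so |YXY^T|_F <= (4+e)e, and |(Gam-2)c|^2
= c^T Y X Y^T c+4|c|^2 <= (2+e)^2|c|^2, so the bracket is <= 2(2+e)|D|; together |N'|_F <= 9(4d+d^2) <= 9(1.9321+
.2334) = 19.49, |N'|_F^2 <= 379.9 < 384. -/
def SpecSPC : Prop :=
  ∀ {α : Type} [DecidableEq α] (N : Finset α) (p : α → V7) (C : Finset (α × α)) (σ : α → α),
    LK N p C (418 / 100) (3 / 10) → AN N p σ →
    ∀ K ⊆ N, (∀ b ∈ N, (b ∈ K ∧ σ b ∉ K) ∨ (b ∉ K ∧ σ b ∈ K)) →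
    ∑ k ∈ K, ∑ l ∈ K, (∑ j ∈ K, (if j = k then 0 else sg p σ k j) * (if j = l then 0 else sg p σ j l)
      - 6 * (if k = l then 0 else sg p σ k l) - (if k = l then 27 else 0)) ^ 2 < 384

/-- INT (300 lines; pure combinatorics of integers).
PROOF.  N_ij := sum_k S_ik S_kj - 6S_ij - 27 d_ij; symmetric, N_ii = 0.  Mod 4: for i /= j N_ij = 26-2q-6S_ij, q = number of
k /= i,j with S_ik /= S_jk, q = d_i+d_j mod 2 (d_i = number of entries -1 of row i), so N_ij = 2(d_i+d_j) mod 4.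
The number m of i with d_i odd is even (sum d_i is even).  If 0 < m < 28: 2m(28-m) >= 104 ordered pairs have
N_ij^2 >= 4: sum >= 416.  So N = 4H, H integer symmetric, zero diagonal, sum H^2 < 24, so sum_{i,j}H^2 <= 22 (even).
H S = S H (S^2 = 6S+27+4H).  V = set of nonzero rows of H.  Mod 2 (S = J - 1): all row sums of H are congruent;
card V <= 22 < 28, so some row is 0 and all row sums, hence all rho_i = sum_j H_ij^2, are even, >= 2 on V: card V <= 11.
KEY: if row j of H is 0 then for all k: sum_l H_kl S_lj = (HS)_kj = (SH)_kj = 0.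
- no row has exactly one nonzero entry (KEY).
- Suppose rho_k = 2: two entries +-1 at l, m.  KEY: S_lj = -+S_mj with a fixed sign for the >= 28-|V| zero rows j, so
|(S^2)_lm| >= (28-|V|)-(|V|-2) = 30-2|V| >= 8, and (S^2)_lm = 6S_lm+4H_lm: h := |H_lm| >= 1 and |V| >= 12-2h.  If h = 2: rho_l,
rho_m >= 6 (>= 5 and even), total >= 12+2(|V|-2) >= 24; h = 3: rho_l, rho_m >= 10, total >= 20+2(6-2); h >= 4: >= 34: all > 22.  So
h = 1 and |V| >= 10: the neighbours l, m of k are adjacent.  All rho = 2: the support graph is 2-regular and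
every vertex lies in a triangle: disjoint triangles, 3 | |V| in {10,11}, impossible.  Otherwise |V| = 10, total 22, one
vertex v has rho = 4 (four entries +-1, since one single entry is excluded), the others 2: the 4 neighbours of v
pair up in triangles through v, the other 5 vertices form disjoint triangles: impossible.
- So all rho >= 4 on V, |V| <= 5.  |V| = 2: single entries.  |V| = 3: rows with 2 entries of equal modulus h
(KEY), rho = 2h^2 >= 8: total >= 24.  |V| = 4: rho with 2 entries = 2h^2 >= 8, with 3 entries (a = b+c in modulus by KEY):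
>= 6: total >= 24.  |V| = 5: total <= 22, so at least four rows have rho = 4, i.e. all four entries +-1 (2 entries: 2h^2 /=
4; 3 entries: >= 6); then the fifth row has four entries +-1 too.  So H_V is a Seidel matrix of order 5 with
kernel vectors s_j = (S_lj)_{l in V} in {+-1}^5 for the 23 other j; after switching by one of them every row
has two + and two -: a pentagon, whose Seidel matrix has a one-dimensional kernel, so all s_j = +-s: for l /= m in
V |(S^2)_lm| >= 23-3 = 20 > 10 >= |6S_lm+4H_lm|.  Contradiction, so H = 0. -/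
def SpecINT : Prop :=
  ∀ {ι : Type} [Fintype ι] [DecidableEq ι] (S : ι → ι → ℤ), Fintype.card ι = 28 →
    (∀ i j, S i j = S j i) → (∀ i, S i i = 0) → (∀ i j, i ≠ j → S i j = 1 ∨ S i j = -1) →
    ∑ i, ∑ j, (∑ k, S i k * S k j - 6 * S i j - (if i = j then 27 else 0)) ^ 2 < 384 →
    ∀ i j, ∑ k, S i k * S k j = 6 * S i j + if i = j then 27 else 0

end Pool.Agent.Lib.MP_f1379f_gt.FV
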