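import Pool.Agent.Lib.MP_f1379f_gt.FV.Defs
import Pool.Agent.Lib.MP_f1379f_gt.FV.TOF

section
/-!
# MP_f1379f_gt, STAB2: frame bound of few separated vectors

For `k` vectors of norm at most one with pairwise inner products at most `1/2`:
`∑ <y,u>^2 <= (k/2 + 1) |u|^2`.
-/
set_option autoImplicit false

open Finset

namespace Pool.Agent.Lib.MP_f1379f_gt.FV

namespace LAMM

/-- One side. -/
theorem side (Y : Finset E) (h1 : ∀ y ∈ Y, ‖y‖ ≤ 1)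
    (h2 : ∀ y ∈ Y, ∀ z ∈ Y, y ≠ z → (inner ℝ y z : ℝ) ≤ 1 / 2) (u : E)
    (h3 : ∀ y ∈ Y, 0 ≤ (inner ℝ y u : ℝ)) :
    ∑ y ∈ Y, (inner ℝ y u : ℝ) ^ 2 ≤ ((Y.card : ℝ) + 1) / 2 * ‖u‖ ^ 2 := by
  classical
  set c : E → ℝ := fun y => inner ℝ y u with hc
  set S : ℝ := ∑ y ∈ Y, c y ^ 2 with hS
  have hS0 : 0 ≤ S := sum_nonneg fun _ _ => sq_nonneg _
  set v : E := ∑ y ∈ Y, c y • y with hv
  have hvu : (inner ℝ v u : ℝ) = S := by
    rw [hv, sum_inner, hS]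
    refine sum_congr rfl fun y _ => ?_
    rw [real_inner_smul_left, hc]
    ring
  have hvv : ‖v‖ ^ 2 = ∑ y ∈ Y, ∑ z ∈ Y, c y * c z * (inner ℝ y z : ℝ) := by
    rw [← real_inner_self_eq_norm_sq, hv, sum_inner]
    refine sum_congr rfl fun y _ => ?_
    rw [inner_sum]
    refine sum_congr rfl fun z _ => ?_
    rw [real_inner_smul_left, real_inner_smul_right]
    ring
  have hpair : ∀ y ∈ Y, ∀ z ∈ Y, c y * c z * (inner ℝ y z : ℝ) ≤
      1 / 2 * (c y * c z) + if y = z then 1 / 2 * c y ^ 2 else 0 := by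
    intro y hy z hz
    have hcy : 0 ≤ c y := h3 y hy
    have hcz : 0 ≤ c z := h3 z hz
    by_cases hyz : y = z
    · subst hyz
      rw [if_pos rfl, real_inner_self_eq_norm_sq]
      have h4 : ‖y‖ ^ 2 ≤ 1 := pow_le_one₀ (norm_nonneg _) (h1 y hy)
      have h5 : c y * c y * ‖y‖ ^ 2 ≤ c y * c y * 1 :=
        mul_le_mul_of_nonneg_left h4 (mul_nonneg hcy hcy)
      linarith
    · rw [if_neg hyz]
      have h5 := mul_le_mul_of_nonneg_left (h2 y hy z hz hyz) (mul_nonneg hcy hcz)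
      linarith
  have hle : ‖v‖ ^ 2 ≤ 1 / 2 * (∑ y ∈ Y, c y) ^ 2 + 1 / 2 * S := by
    rw [hvv]
    refine (sum_le_sum fun y hy => sum_le_sum fun z hz => hpair y hy z hz).trans (le_of_eq ?_)
    have e1 : ∀ y ∈ Y, ∑ z ∈ Y, (1 / 2 * (c y * c z) + if y = z then 1 / 2 * c y ^ 2 else 0) =
        1 / 2 * (c y * ∑ z ∈ Y, c z) + 1 / 2 * c y ^ 2 := by
      intro y hy
      rw [sum_add_distrib, sum_ite_eq, if_pos hy, ← mul_sum, ← mul_sum]
    rw [sum_congr rfl e1, sum_add_distrib, ← mul_sum, ← sum_mul, ← mul_sum]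
    ring
  have hcs : (∑ y ∈ Y, c y) ^ 2 ≤ (Y.card : ℝ) * S := by
    rw [hS]
    exact sq_sum_le_card_mul_sum_sq
  have hCS : S ^ 2 ≤ ‖v‖ ^ 2 * ‖u‖ ^ 2 := by
    have h4 := abs_real_inner_le_norm v u
    rw [hvu] at h4
    have h5 := pow_le_pow_left₀ (abs_nonneg S) h4 2
    rw [sq_abs, mul_pow] at h5
    exact h5
  have hu0 : 0 ≤ ‖u‖ ^ 2 := sq_nonneg _
  rcases hS0.eq_or_lt with h | h
  · rw [← h]
    positivity
  · have h6 : S * S ≤ (((Y.card : ℝ) + 1) / 2 * ‖u‖ ^ 2) * S := by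
      have h7 : ‖v‖ ^ 2 ≤ ((Y.card : ℝ) + 1) / 2 * S := by linarith
      have h8 := mul_le_mul_of_nonneg_right h7 hu0
      nlinarith
    exact le_of_mul_le_mul_right h6 h

end LAMM

/-- **Frame bound of separated vectors.** -/
theorem lam_bound (Y : Finset E) (h1 : ∀ y ∈ Y, ‖y‖ ≤ 1)
    (h2 : ∀ y ∈ Y, ∀ z ∈ Y, y ≠ z → (inner ℝ y z : ℝ) ≤ 1 / 2) (u : E) :
    ∑ y ∈ Y, (inner ℝ y u : ℝ) ^ 2 ≤ ((Y.card : ℝ) / 2 + 1) * ‖u‖ ^ 2 := by
  classical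
  have ha := LAMM.side (Y.filter fun y => 0 ≤ (inner ℝ y u : ℝ))
    (fun y hy => h1 y (mem_filter.1 hy).1)
    (fun y hy z hz => h2 y (mem_filter.1 hy).1 z (mem_filter.1 hz).1) u
    (fun y hy => (mem_filter.1 hy).2)
  have hb := LAMM.side (Y.filter fun y => ¬ 0 ≤ (inner ℝ y u : ℝ))
    (fun y hy => h1 y (mem_filter.1 hy).1)
    (fun y hy z hz => h2 y (mem_filter.1 hy).1 z (mem_filter.1 hz).1) (-u)
    (fun y hy => by
      have := (mem_filter.1 hy).2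
      rw [inner_neg_right]
      linarith)
  have hb' : ∑ y ∈ Y.filter fun y => ¬ 0 ≤ (inner ℝ y u : ℝ), (inner ℝ y (-u) : ℝ) ^ 2 =
      ∑ y ∈ Y.filter fun y => ¬ 0 ≤ (inner ℝ y u : ℝ), (inner ℝ y u : ℝ) ^ 2 :=
    sum_congr rfl fun y _ => by rw [inner_neg_right, neg_sq]
  rw [hb', norm_neg] at hb
  have hcard : (((Y.filter fun y => 0 ≤ (inner ℝ y u : ℝ)).card : ℕ) : ℝ) +
      (((Y.filter fun y => ¬ 0 ≤ (inner ℝ y u : ℝ)).card : ℕ) : ℝ) = Y.card := by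
    rw [← card_filter_add_card_filter_not (s := Y) (fun y => 0 ≤ (inner ℝ y u : ℝ))]
    push_cast
    ring
  rw [← sum_filter_add_sum_filter_not Y (fun y => 0 ≤ (inner ℝ y u : ℝ))]
  have h3 : ((Y.card : ℝ) / 2 + 1) * ‖u‖ ^ 2 =
      (((Y.filter fun y => 0 ≤ (inner ℝ y u : ℝ)).card : ℝ) + 1) / 2 * ‖u‖ ^ 2 +
      (((Y.filter fun y => ¬ 0 ≤ (inner ℝ y u : ℝ)).card : ℝ) + 1) / 2 * ‖u‖ ^ 2 := by
    rw [← hcard]
    ring
  rw [h3]
  exact add_le_add ha hb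

end Pool.Agent.Lib.MP_f1379f_gt.FV
end

section
/-!
# MP_f1379f_gt, STAB2: even decomposition of a sum over the roots, moments of the orthogonal roots
-/
set_option autoImplicit false

open Finset

namespace Pool.Agent.Lib.MP_f1379f_gt.FV

namespace EVNM

theorem mem_ob (a e : E) : e ∈ ob a ↔ e ∈ UE ∧ (inner ℝ e a : ℝ) = 0 := by
  unfold ob
  rw [mem_filter]

theorem neg_mem_ob {a e : E} (h : e ∈ ob a) : -e ∈ ob a := by
  rw [mem_ob] at h ⊢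
  refine ⟨AllO.hUEF.neg e h.1, ?_⟩
  rw [inner_neg_left, h.2, neg_zero]

theorem ob_neg (a : E) (h : E → ℝ) : ∑ f ∈ ob a, h (-f) = ∑ f ∈ ob a, h f := by
  refine sum_nbij' (fun f => -f) (fun f => -f) ?_ ?_ ?_ ?_ ?_
  · intro f hf
    exact neg_mem_ob hf
  · intro f hf
    exact neg_mem_ob hf
  · intro f _
    exact neg_neg f
  · intro f _
    exact neg_neg f
  · intro f _
    rfl

open Classical in
/-- **Even decomposition.** -/
theorem decomp {a : E} (ha : a ∈ UE) (h : E → ℝ) :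
    ∑ f ∈ UE, h f = h a + h (-a) + ∑ f ∈ nb a, (h f + h (-f))
      + 1 / 2 * ∑ f ∈ ob a, (h f + h (-f)) := by
  have hn : ‖a‖ = 1 := AllO.hUEF.nrm a ha
  have haa : (inner ℝ a a : ℝ) = 1 := by rw [real_inner_self_eq_norm_sq, hn]; norm_num
  have hmem : ∀ f : E, f ∈ UE → (inner ℝ f a : ℝ) = 1 → f = a := fun f hf h1 =>
    AllO.hUEF.one f hf a ha h1
  have hmem' : ∀ f : E, f ∈ UE → (inner ℝ f a : ℝ) = -1 → f = -a := fun f hf h1 => by
    have h2 := AllO.hUEF.one (-f) (AllO.hUEF.neg f hf) a ha (by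
      rw [inner_neg_left, h1]; norm_num)
    rw [← h2, neg_neg]
  have hsplit : ∀ f ∈ UE, h f = (if (inner ℝ f a : ℝ) = 1 then h f else 0)
      + (if (inner ℝ f a : ℝ) = -1 then h f else 0)
      + (if (inner ℝ f a : ℝ) = 1 / 2 then h f else 0)
      + (if (inner ℝ f a : ℝ) = -1 / 2 then h f else 0)
      + (if (inner ℝ f a : ℝ) = 0 then h f else 0) := by
    intro f hf
    rcases AllO.hUEF.ip f hf a ha with h1 | h1 | h1 | h1 | h1 <;> rw [h1] <;> norm_num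
  rw [sum_congr rfl hsplit]
  simp only [sum_add_distrib, ← sum_filter]
  have e1 : UE.filter (fun f => (inner ℝ f a : ℝ) = 1) = {a} := by
    ext f
    rw [mem_filter, mem_singleton]
    constructor
    · rintro ⟨h1, h2⟩
      exact hmem f h1 h2
    · intro h1
      rw [h1]
      exact ⟨ha, haa⟩
  have e2 : UE.filter (fun f => (inner ℝ f a : ℝ) = -1) = {-a} := by
    ext f
    rw [mem_filter, mem_singleton]
    constructor
    · rintro ⟨h1, h2⟩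
      exact hmem' f h1 h2
    · intro h1
      rw [h1]
      exact ⟨AllO.hUEF.neg a ha, by rw [inner_neg_left, haa]⟩
  have e3 : UE.filter (fun f => (inner ℝ f a : ℝ) = 1 / 2) = nb a := by
    ext f
    rw [mem_filter, UMO.mem_nb]
  have e5 : UE.filter (fun f => (inner ℝ f a : ℝ) = 0) = ob a := by
    ext f
    rw [mem_filter, mem_ob]
  have e4 : ∑ f ∈ UE.filter (fun f => (inner ℝ f a : ℝ) = -1 / 2), h f = ∑ f ∈ nb a, h (-f) := by
    refine sum_nbij' (fun f => -f) (fun f => -f) ?_ ?_ ?_ ?_ ?_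
    · intro f hf
      rw [mem_filter] at hf
      rw [UMO.mem_nb]
      refine ⟨AllO.hUEF.neg f hf.1, ?_⟩
      rw [inner_neg_left, hf.2]
      norm_num
    · intro f hf
      rw [UMO.mem_nb] at hf
      rw [mem_filter]
      refine ⟨AllO.hUEF.neg f hf.1, ?_⟩
      rw [inner_neg_left, hf.2]
      norm_num
    · intro f _
      exact neg_neg f
    · intro f _
      exact neg_neg f
    · intro f _
      rw [neg_neg]
  rw [e1, e2, e3, e4, e5, sum_singleton, sum_singleton, ob_neg]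
  ring

/-- Second moment of the orthogonal roots. -/
theorem ob2 {a : E} (ha : a ∈ UE) {w : E} (hw : (inner ℝ w a : ℝ) = 0) :
    ∑ f ∈ ob a, (inner ℝ w f : ℝ) ^ 2 = 18 * ‖w‖ ^ 2 := by
  have h1 := decomp ha (fun f => (inner ℝ w f : ℝ) ^ 2)
  have h2 := UMO.n2 a ha w hw
  simp only [inner_neg_right, hw, neg_zero, neg_sq] at h1
  rw [UMO.m2, sum_add_distrib, sum_add_distrib, h2] at h1
  linarith

/-- Fourth moment of the orthogonal roots. -/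
theorem ob4 {a : E} (ha : a ∈ UE) {w : E} (hw : (inner ℝ w a : ℝ) = 0) :
    ∑ f ∈ ob a, (inner ℝ w f : ℝ) ^ 4 = 6 * ‖w‖ ^ 4 := by
  have h1 := decomp ha (fun f => (inner ℝ w f : ℝ) ^ 4)
  have h2 := TSM.nb4 ha w
  have h3 : ∀ t : ℝ, (-t) ^ 4 = t ^ 4 := fun t => by ring
  simp only [inner_neg_right, hw, neg_zero, h3] at h1
  rw [UMO.m4, sum_add_distrib, sum_add_distrib, h2, hw] at h1
  linarith

/-- Odd moments vanish. -/
theorem ob_odd (a : E) (h : E → ℝ) (hodd : ∀ f, h (-f) = -h f) : ∑ f ∈ ob a, h f = 0 := by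
  have h1 := ob_neg a h
  simp only [hodd, sum_neg_distrib] at h1
  linarith

end EVNM

/-- **Frame bound of separated vectors**, other side. -/
theorem lam_bound' (Y : Finset E) (h1 : ∀ y ∈ Y, ‖y‖ ≤ 1)
    (h2 : ∀ y ∈ Y, ∀ z ∈ Y, y ≠ z → (inner ℝ y z : ℝ) ≤ 1 / 2) (d : E) :
    ∑ y ∈ Y, (inner ℝ d y : ℝ) ^ 2 ≤ ((Y.card : ℝ) / 2 + 1) * ‖d‖ ^ 2 := by
  refine le_of_eq_of_le ?_ (lam_bound Y h1 h2 d)
  exact sum_congr rfl fun y _ => by rw [real_inner_comm]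

/-- **Frame bound of missing roots.** -/
theorem lam_roots {F : Finset E} (hF : F ⊆ UE) (d : E) :
    ∑ y ∈ F, (inner ℝ d y : ℝ) ^ 2 ≤ ((F.card : ℝ) / 2 + 1) * ‖d‖ ^ 2 := by
  refine lam_bound' F (fun y hy => (AllO.hUEF.nrm y (hF hy)).le) (fun y hy z hz hyz => ?_) d
  rcases AllO.hUEF.ip y (hF hy) z (hF hz) with h | h | h | h | h
  · exact absurd (AllO.hUEF.one y (hF hy) z (hF hz) h) hyz
  all_goals linarith

end Pool.Agent.Lib.MP_f1379f_gt.FV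
end

section
/-!
# MP_f1379f_gt, full Q1, STAB2 (4): rows of the outliers, `M = 4/25`

`row_lab`: labelled displaced outlier; `row16`: every outlier at distance `>= 6/25` from the roots.
-/
set_option autoImplicit false

namespace Pool.Agent.Lib.MP_f1379f_gt.FV

open Finset

namespace TOCM

/-- The row with constant `M`. -/
noncomputable def rw' (M : ℝ) (I : Finset E) (T : E → ℝ) (y : E) : ℝ :=
  ∑ b ∈ I, (TSDM.ph (T b) + M * (T b - (inner ℝ y b : ℝ)) ^ 2)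

theorem labels {I : Finset E} (hI : I ⊆ UE) {f b : E} (hf : f ∈ UE) (hfI : f ∉ I) (hb : b ∈ I) :
    (inner ℝ f b : ℝ) = 1 / 2 ∨ (inner ℝ f b : ℝ) = 0 ∨ (inner ℝ f b : ℝ) = -1 / 2 ∨
      (inner ℝ f b : ℝ) = -1 := by
  have hbU := hI hb
  rcases AllO.hUEF.ip f hf b hbU with g | g | g | g | g
  · exact absurd (AllO.hUEF.one f hf b hbU g ▸ hb) hfI
  · exact Or.inl g
  · exact Or.inr (Or.inl g)
  · exact Or.inr (Or.inr (Or.inl g))
  · exact Or.inr (Or.inr (Or.inr g))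

open Classical in
/-- **Labelled displaced outlier.** -/
theorem row_lab {I : Finset E} (hI : I ⊆ UE) {y f : E} (hf : f ∈ UE) (hfI : f ∉ I)
    (T : E → ℝ) (hT0 : ∀ b ∈ I, -1 ≤ T b) (hT1 : ∀ b ∈ I, T b ≤ 1 / 2) {lam : ℝ}
    (hlam : ∑ b ∈ UE \ I, (inner ℝ (y - f) b : ℝ) ^ 2 ≤ lam * ‖y - f‖ ^ 2) :
    67 / 1000 * ((30 - lam) * ‖y - f‖ ^ 2) - 504 / 100 * ‖y - f‖ ^ 4 ≤ rw' (4 / 25) I T y := by
  have h1 : ∑ b ∈ I, (67 / 1000 * (inner ℝ (y - f) b : ℝ) ^ 2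
      - 56 / 100 * (inner ℝ (y - f) b : ℝ) ^ 4) ≤ rw' (4 / 25) I T y := by
    refine Finset.sum_le_sum fun b hb => ?_
    have h4 := TOAM.mor_all (y := inner ℝ (y - f) b) (labels hI hf hfI hb) (hT0 b hb) (hT1 b hb)
    have h5 : T b - (inner ℝ f b : ℝ) - inner ℝ (y - f) b = T b - (inner ℝ y b : ℝ) := by
      rw [inner_sub_left]
      ring
    rw [h5] at h4
    exact h4
  rw [Finset.sum_sub_distrib, ← Finset.mul_sum, ← Finset.mul_sum] at h1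
  have h2 := Finset.sum_sdiff (f := fun b => (inner ℝ (y - f) b : ℝ) ^ 2) hI
  rw [UMO.m2] at h2
  have h3 : ∑ b ∈ I, (inner ℝ (y - f) b : ℝ) ^ 4 ≤ 9 * ‖y - f‖ ^ 4 := by
    rw [← UMO.m4]
    exact Finset.sum_le_sum_of_subset_of_nonneg hI fun b _ _ => by positivity
  linarith

/-! ### Trigonometric part -/

theorem nb_double (h : E → ℝ) : ∑ x ∈ UE, ∑ b ∈ nb x, h b = 56 * ∑ b ∈ UE, h b := by
  have h1 : ∀ x ∈ UE, ∑ b ∈ nb x, h b = ∑ b ∈ UE, if (inner ℝ b x : ℝ) = 1 / 2 then h b else 0 := by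
    intro x _
    unfold nb
    rw [Finset.sum_filter]
  rw [Finset.sum_congr rfl h1, Finset.sum_comm, Finset.mul_sum]
  refine Finset.sum_congr rfl fun b hb => ?_
  have h2 : ∑ x ∈ UE, (if (inner ℝ b x : ℝ) = 1 / 2 then h b else 0) = ∑ x ∈ nb b, h b := by
    unfold nb
    rw [Finset.sum_filter]
    refine Finset.sum_congr rfl fun x _ => ?_
    rw [real_inner_comm]
  rw [h2, Finset.sum_const, AllO.hUEF.c56 b hb, nsmul_eq_mul]
  norm_num

/-- The trigonometric sum of an unlabelled point. -/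
theorem trig_far {y : E} (h0 : 95 / 100 ≤ ‖y‖ ^ 2) (h1 : ‖y‖ ^ 2 ≤ 1)
    (hfar : ∀ f ∈ UE, 19 / 250 < ‖y - f‖ ^ 2) :
    720 / 7 ≤ ∑ b ∈ UE, (1 - Real.cos (4 * Real.pi * (inner ℝ y b : ℝ))) := by
  have h2 : ∀ x ∈ UE, (24 : ℝ) ≤ ∑ b ∈ nb x, (1 - Real.cos (4 * Real.pi * (inner ℝ y b : ℝ))) := by
    intro x hx
    by_contra hc
    push Not at hc
    obtain ⟨f, hf, hd⟩ := trig_label hx h0 h1 hc
    have := hfar f hf
    linarith
  have h3 := Finset.sum_le_sum h2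
  rw [nb_double, Finset.sum_const, AllO.hUEF.c240, nsmul_eq_mul] at h3
  generalize ∑ b ∈ UE, (1 - Real.cos (4 * Real.pi * (inner ℝ y b : ℝ))) = X at h3 ⊢
  norm_num at h3
  linarith

open Classical in
/-- **Unlabelled outlier.** -/
theorem row_trig {I : Finset E} (hI : I ⊆ UE) {y : E} (h0 : 95 / 100 ≤ ‖y‖ ^ 2) (h1 : ‖y‖ ^ 2 ≤ 1)
    (hfar : ∀ f ∈ UE, 19 / 250 < ‖y - f‖ ^ 2)
    (T : E → ℝ) (hT0 : ∀ b ∈ I, -1 ≤ T b) (hT1 : ∀ b ∈ I, T b ≤ 1 / 2) :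
    871 / 10000 - 17 / 10000 * ((UE \ I).card : ℝ) ≤ rw' (4 / 25) I T y := by
  have hy : ‖y‖ ≤ 1 := by nlinarith [norm_nonneg y]
  have h2 : ∑ b ∈ I, 8475 / 10 ^ 7 * (1 - Real.cos (4 * Real.pi * (inner ℝ y b : ℝ))) ≤
      rw' (4 / 25) I T y := by
    refine Finset.sum_le_sum fun b hb => ?_
    have hbU := hI hb
    have hin := abs_real_inner_le_norm y b
    rw [AllO.hUEF.nrm b hbU, mul_one] at hin
    have hin2 := abs_le.1 (hin.trans hy)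
    exact TSHM.trig3 (hT0 b hb) (hT1 b hb) hin2.1 hin2.2
  rw [← Finset.mul_sum] at h2
  have h3 := Finset.sum_sdiff
    (f := fun b => (1 - Real.cos (4 * Real.pi * (inner ℝ y b : ℝ)))) hI
  have h4 := trig_far h0 h1 hfar
  have h5 : ∑ b ∈ UE \ I, (1 - Real.cos (4 * Real.pi * (inner ℝ y b : ℝ))) ≤
      ((UE \ I).card : ℝ) * 2 := by
    rw [← nsmul_eq_mul]
    refine Finset.sum_le_card_nsmul _ _ _ fun b _ => ?_
    linarith [Real.neg_one_le_cos (4 * Real.pi * (inner ℝ y b : ℝ))]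
  have h6 : 0 ≤ ((UE \ I).card : ℝ) := Nat.cast_nonneg _
  generalize ∑ b ∈ UE, (1 - Real.cos (4 * Real.pi * (inner ℝ y b : ℝ))) = X at h3 h4
  generalize ∑ b ∈ UE \ I, (1 - Real.cos (4 * Real.pi * (inner ℝ y b : ℝ))) = X1 at h3 h5
  generalize ∑ b ∈ I, (1 - Real.cos (4 * Real.pi * (inner ℝ y b : ℝ))) = X2 at h3 h2
  generalize ((UE \ I).card : ℝ) = k at h5 h6 ⊢
  norm_num at h2
  linarith

theorem num16 {x k : ℝ} (h1 : 36 / 625 ≤ x) (h2 : x ≤ 19 / 250) (hk2 : k ≤ 30) :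
    871 / 10000 - 17 / 10000 * k ≤ 67 / 1000 * ((30 - (k / 2 + 1)) * x) - 504 / 100 * x ^ 2 := by
  nlinarith [mul_nonneg (sub_nonneg.2 h1) (sub_nonneg.2 h2),
    mul_nonneg (sub_nonneg.2 hk2) (sub_nonneg.2 h1)]

open Classical in
/-- **Every outlier**, `M = 4/25`. -/
theorem row16 {I : Finset E} (hI : I ⊆ UE) (hk : (UE \ I).card ≤ 30) {y : E}
    (h0 : 95 / 100 ≤ ‖y‖ ^ 2) (h1 : ‖y‖ ^ 2 ≤ 1) (hfar : ∀ f ∈ UE, 6 / 25 ≤ ‖y - f‖)
    (hin : ∀ f ∈ I, (inner ℝ y f : ℝ) ≤ 3 / 4)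
    (T : E → ℝ) (hT0 : ∀ b ∈ I, -1 ≤ T b) (hT1 : ∀ b ∈ I, T b ≤ 1 / 2) :
    871 / 10000 - 17 / 10000 * ((UE \ I).card : ℝ) ≤ rw' (4 / 25) I T y := by
  by_cases h : ∀ f ∈ UE, 19 / 250 < ‖y - f‖ ^ 2
  · exact row_trig hI h0 h1 h T hT0 hT1
  push Not at h
  obtain ⟨f, hf, hd⟩ := h
  have hn : ‖y - f‖ ^ 2 = ‖y‖ ^ 2 - 2 * (inner ℝ y f : ℝ) + ‖f‖ ^ 2 := norm_sub_sq_real y f
  rw [AllO.hUEF.nrm f hf] at hn
  have hfI : f ∉ I := by
    intro hc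
    have := hin f hc
    linarith
  have h2 := row_lab hI hf hfI T hT0 hT1 (lam_roots (F := UE \ I) Finset.sdiff_subset (y - f))
  have h3 : 36 / 625 ≤ ‖y - f‖ ^ 2 := by
    have h4 := pow_le_pow_left₀ (by norm_num) (hfar f hf) 2
    norm_num at h4 ⊢
    exact h4
  have hkc : ((UE \ I).card : ℝ) ≤ 30 := by exact_mod_cast hk
  have h5 := num16 (k := ((UE \ I).card : ℝ)) h3 hd hkc
  have e : ‖y - f‖ ^ 4 = (‖y - f‖ ^ 2) ^ 2 := by ring
  rw [e] at h2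
  linarith

end TOCM

end Pool.Agent.Lib.MP_f1379f_gt.FV
end
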