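import Pool.Agent.Lib.MP_f1379f_gt.FV.TOC
import Pool.Agent.Lib.MP_f1379f_gt.FV.TOF
import Pool.Agent.Lib.MP_f1379f_gt.FV.L1C

/-!
# MP_f1379f_gt, full Q1, STAB2 (4): rows of the far outliers, `M = 3/4`

`far_near`: there is a missing root `f0` with `<y,f0> >= 4/5`, `|y - f0|^2 >= 1/8`.
`far_deep`: `<y,f> <= 4/5` for every root.
-/

set_option autoImplicit false

namespace Pool.Agent.Lib.MP_f1379f_gt.FV

open Finset

namespace TODM

open TOCM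

/-- The extended row. -/
noncomputable def hh (I : Finset E) (T : E → ℝ) (y f : E) : ℝ :=
  open Classical in
  if f ∈ I then TSDM.ph (T f) + 3 / 4 * (T f - (inner ℝ y f : ℝ)) ^ 2 else 0

/-- The loss. -/
noncomputable def gg (g : ℝ) (I : Finset E) (f : E) : ℝ :=
  open Classical in
  if f ∈ I then 0 else g

theorem hh_sum {I : Finset E} (hI : I ⊆ UE) (T : E → ℝ) (y : E) :
    ∑ f ∈ UE, hh I T y f = rw' (3 / 4) I T y := by
  classical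
  unfold rw' hh
  rw [← Finset.sum_filter]
  congr 1
  ext f
  rw [Finset.mem_filter]
  exact ⟨fun h => h.2, fun h => ⟨hI h, h⟩⟩

open Classical in
theorem gg_sum (g : ℝ) (I : Finset E) :
    ∑ f ∈ UE, gg g I f = g * ((UE \ I).card : ℝ) := by
  have h1 : ∀ f ∈ UE, gg g I f = if f ∉ I then g else 0 := by
    intro f _
    unfold gg
    split_ifs <;> rfl
  rw [Finset.sum_congr rfl h1, ← Finset.sum_filter, Finset.sum_const, nsmul_eq_mul, mul_comm]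
  congr 3
  ext f
  rw [Finset.mem_filter, Finset.mem_sdiff]

theorem hh_nonneg {I : Finset E} {T : E → ℝ} (hT0 : ∀ b ∈ I, -1 ≤ T b)
    (hT1 : ∀ b ∈ I, T b ≤ 1 / 2) (y f : E) : 0 ≤ hh I T y f := by
  unfold hh
  split_ifs with h
  · have := TSDM.ph_nonneg (hT0 f h) (hT1 f h)
    have h2 := sq_nonneg (T f - (inner ℝ y f : ℝ))
    linarith
  · exact le_rfl

theorem gg_nonneg {g : ℝ} (hg : 0 ≤ g) (I : Finset E) (f : E) : 0 ≤ gg g I f := by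
  unfold gg
  split_ifs
  · exact le_rfl
  · exact hg

/-- One label. -/
theorem hh_mor {I : Finset E} (hI : I ⊆ UE) {y f0 f : E} (hf0 : f0 ∈ UE) (hf0I : f0 ∉ I)
    {T : E → ℝ} (hT0 : ∀ b ∈ I, -1 ≤ T b) (hT1 : ∀ b ∈ I, T b ≤ 1 / 2) :
    67 / 1000 * (inner ℝ (y - f0) f : ℝ) ^ 2 - 56 / 100 * (inner ℝ (y - f0) f : ℝ) ^ 4
      - gg (861 / 100000) I f ≤ hh I T y f := by
  unfold hh gg
  split_ifs with h
  · have h4 := TOBM.mor75 (y := inner ℝ (y - f0) f) (labels hI hf0 hf0I h) (hT0 f h) (hT1 f h)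
    have h5 : T f - (inner ℝ f0 f : ℝ) - inner ℝ (y - f0) f = T f - (inner ℝ y f : ℝ) := by
      rw [inner_sub_left]
      ring
    rw [h5] at h4
    linarith
  · have := TSDM.rhs_le (inner ℝ (y - f0) f : ℝ)
    linarith

/-- One contact label, with the hard part. -/
theorem hh_con {I : Finset E} {y f0 f : E} (hf : f ∈ I) (hip : (inner ℝ f0 f : ℝ) = 1 / 2)
    {T : E → ℝ} (hT0 : ∀ b ∈ I, -1 ≤ T b) (hT1 : ∀ b ∈ I, T b ≤ 1 / 2) :
    67 / 1000 * (inner ℝ (y - f0) f : ℝ) ^ 2 - 56 / 100 * (inner ℝ (y - f0) f : ℝ) ^ 4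
      + 683 / 1000 * max 0 ((inner ℝ y f : ℝ) - 1 / 2) ^ 2 ≤ hh I T y f := by
  unfold hh
  rw [if_pos hf]
  have e : (inner ℝ (y - f0) f : ℝ) = inner ℝ y f - 1 / 2 := by
    rw [inner_sub_left, hip]
  have h4 := TOBM.con75 (y := (inner ℝ y f : ℝ) - 1 / 2) (hT0 f hf) (hT1 f hf)
  have h5 : T f - 1 / 2 - ((inner ℝ y f : ℝ) - 1 / 2) = T f - (inner ℝ y f : ℝ) := by ring
  rw [h5] at h4
  rw [e, max_comm]
  exact h4

/-- An orthogonal pair. -/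
theorem hh_orth {I : Finset E} {y f : E}
    {T : E → ℝ} (hT0 : ∀ b ∈ I, -1 ≤ T b) (hT1 : ∀ b ∈ I, T b ≤ 1 / 2) :
    17 / 100 * (inner ℝ y f : ℝ) ^ 2 - 84 / 100 * (inner ℝ y f : ℝ) ^ 4
      - gg (861 / 100000) I f - gg (861 / 100000) I (-f) ≤ hh I T y f + hh I T y (-f) := by
  have hmax : ∀ t : ℝ, 17 / 100 * t ^ 2 - 84 / 100 * t ^ 4 ≤ 861 / 100000 := by
    intro t
    nlinarith [sq_nonneg (t ^ 2 - 1012 / 10000)]
  have n1 := hh_nonneg hT0 hT1 y f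
  have n2 := hh_nonneg hT0 hT1 y (-f)
  have g1 := gg_nonneg (g := 861 / 100000) (by norm_num) I f
  have g2 := gg_nonneg (g := 861 / 100000) (by norm_num) I (-f)
  have h0 := hmax (inner ℝ y f)
  by_cases h : f ∈ I
  · by_cases h' : -f ∈ I
    · have h4 := TOBM.orth_pair (t := (inner ℝ y f : ℝ)) (hT0 f h) (hT1 f h) (hT0 _ h') (hT1 _ h')
      unfold hh gg
      rw [if_pos h, if_pos h', if_pos h, if_pos h', inner_neg_right, sub_neg_eq_add]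
      linarith
    · have e : gg (861 / 100000) I (-f) = 861 / 100000 := by
        unfold gg
        rw [if_neg h']
      linarith
  · have e : gg (861 / 100000) I f = 861 / 100000 := by
      unfold gg
      rw [if_neg h]
    linarith

/-- Fourth moment of the neighbours. -/
theorem nb2 {x : E} (hx : x ∈ UE) (u : E) : ∑ b ∈ nb x, (inner ℝ u b : ℝ) ^ 2 =
    6 * ‖u‖ ^ 2 + 8 * (inner ℝ u x : ℝ) ^ 2 := by
  have h := pin_frame hx u
  rw [Finset.sum_insert (TSM.notin_nb hx)] at h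
  linarith

/-- Lower bound of the row in the first case. -/
theorem row_near {I : Finset E} (hI : I ⊆ UE) {y f0 : E} (hf0 : f0 ∈ UE) (hf0I : f0 ∉ I)
    {T : E → ℝ} (hT0 : ∀ b ∈ I, -1 ≤ T b) (hT1 : ∀ b ∈ I, T b ≤ 1 / 2) {k σ ω B : ℝ}
    (hk : ∑ f ∈ UE, gg (861 / 100000) I f = 861 / 100000 * k)
    (hσ : (inner ℝ y f0 : ℝ) = 1 - σ) (hω : ω = ‖y‖ ^ 2 - (1 - σ) ^ 2)
    (hB : ∑ f ∈ nb f0, (67 / 1000 * (inner ℝ (y - f0) f : ℝ) ^ 2
      - 56 / 100 * (inner ℝ (y - f0) f : ℝ) ^ 4) + B ≤ ∑ f ∈ nb f0, (hh I T y f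
        + gg (861 / 100000) I f)) :
    2334 / 1000 * ω - 42 / 10 * ω ^ 2 + 1876 / 1000 * σ ^ 2 - 392 / 100 * σ ^ 4
      - 1008 / 100 * σ ^ 2 * ω - 861 / 100000 * (k - 1) + B ≤ rw' (3 / 4) I T y := by
  rw [← hh_sum hI T y, EVNM.decomp hf0 (hh I T y)]
  rw [EVNM.decomp hf0 (gg (861 / 100000) I)] at hk
  have hn : ‖f0‖ = 1 := AllO.hUEF.nrm f0 hf0
  have hff : (inner ℝ f0 f0 : ℝ) = 1 := by rw [real_inner_self_eq_norm_sq, hn]; norm_num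
  -- the projection
  set w : E := y - (inner ℝ y f0 : ℝ) • f0 with hw
  have hwx : (inner ℝ w f0 : ℝ) = 0 := by
    rw [hw, inner_sub_left, real_inner_smul_left, hff]
    ring
  have hwn : ‖w‖ ^ 2 = ω := by
    rw [hw, norm_sub_sq_real, norm_smul, hn, real_inner_smul_right, Real.norm_eq_abs,
      mul_one, sq_abs, hσ, hω]
    ring
  have hwo : ∀ f ∈ ob f0, (inner ℝ y f : ℝ) = inner ℝ w f := by
    intro f hf
    have h1 : (inner ℝ f0 f : ℝ) = 0 := by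
      rw [real_inner_comm]
      exact ((EVNM.mem_ob f0 f).1 hf).2
    rw [hw, inner_sub_left, real_inner_smul_left, h1]
    ring
  have hd0 : (inner ℝ (y - f0) f0 : ℝ) = -σ := by
    rw [inner_sub_left, hσ, hff]
    ring
  have hdn : ‖y - f0‖ ^ 2 = ω + σ ^ 2 := by
    rw [norm_sub_sq_real, hn, hσ, hω]
    ring
  -- orthogonal roots
  have ho : ∑ f ∈ ob f0, (17 / 100 * (inner ℝ w f : ℝ) ^ 2 - 84 / 100 * (inner ℝ w f : ℝ) ^ 4) -
      ∑ f ∈ ob f0, (gg (861 / 100000) I f + gg (861 / 100000) I (-f)) ≤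
      ∑ f ∈ ob f0, (hh I T y f + hh I T y (-f)) := by
    rw [← Finset.sum_sub_distrib]
    refine Finset.sum_le_sum fun f hf => ?_
    have := hh_orth (I := I) (y := y) (f := f) hT0 hT1
    rw [hwo f hf] at this
    linarith
  rw [Finset.sum_sub_distrib, ← Finset.mul_sum, ← Finset.mul_sum, EVNM.ob2 hf0 hwx,
    EVNM.ob4 hf0 hwx] at ho
  have hw4 : ‖w‖ ^ 4 = ω ^ 2 := by
    rw [← hwn]
    ring
  rw [hwn, hw4] at ho
  -- negative neighbours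
  have hneg : ∑ f ∈ nb f0, (67 / 1000 * (inner ℝ (y - f0) f : ℝ) ^ 2
      - 56 / 100 * (inner ℝ (y - f0) f : ℝ) ^ 4) ≤
        ∑ f ∈ nb f0, (hh I T y (-f) + gg (861 / 100000) I (-f)) := by
    refine Finset.sum_le_sum fun f _ => ?_
    have := hh_mor hI hf0 hf0I (y := y) (f := -f) hT0 hT1
    have e4 : ∀ t : ℝ, (-t) ^ 4 = t ^ 4 := fun t => by ring
    rw [inner_neg_right, neg_sq, e4] at this
    linarith
  have hnb : ∑ f ∈ nb f0, (67 / 1000 * (inner ℝ (y - f0) f : ℝ) ^ 2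
      - 56 / 100 * (inner ℝ (y - f0) f : ℝ) ^ 4) = 67 / 1000 * (6 * ω + 14 * σ ^ 2)
        - 56 / 100 * (7 / 2 * σ ^ 4 + 9 * σ ^ 2 * ω + 3 / 2 * ω ^ 2) := by
    rw [Finset.sum_sub_distrib, ← Finset.mul_sum, ← Finset.mul_sum, nb2 hf0, TSM.nb4 hf0, hd0, hdn]
    ring
  rw [hnb] at hneg hB
  rw [Finset.sum_add_distrib] at hneg hB hk
  rw [Finset.sum_add_distrib] 
  have n1 := hh_nonneg hT0 hT1 y f0
  have n2 := hh_nonneg hT0 hT1 y (-f0)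
  have g2 := gg_nonneg (g := 861 / 100000) (by norm_num) I (-f0)
  have g1 : gg (861 / 100000) I f0 = 861 / 100000 := by
    unfold gg
    rw [if_neg hf0I]
  rw [g1] at hk
  generalize ∑ f ∈ ob f0, (gg (861 / 100000) I f + gg (861 / 100000) I (-f)) = a1 at hk ho
  generalize ∑ f ∈ ob f0, (hh I T y f + hh I T y (-f)) = a2 at ho ⊢
  generalize ∑ f ∈ nb f0, gg (861 / 100000) I f = a3 at hk hB
  generalize ∑ f ∈ nb f0, gg (861 / 100000) I (-f) = a4 at hk hneg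
  generalize ∑ f ∈ nb f0, hh I T y f = a5 at hB ⊢
  generalize ∑ f ∈ nb f0, hh I T y (-f) = a6 at hneg ⊢
  linarith

theorem numF {σ ω : ℝ} (h1 : σ ^ 2 ≤ 1 / 25) (h2 : 11 / 100 ≤ ω) (h3 : ω ≤ 36 / 100) :
    1 / 5 ≤ 2334 / 1000 * ω - 42 / 10 * ω ^ 2 + 1876 / 1000 * σ ^ 2 - 392 / 100 * σ ^ 4
      - 1008 / 100 * σ ^ 2 * ω := by
  have h0 : 0 ≤ σ ^ 2 := sq_nonneg σ
  have e : σ ^ 4 = (σ ^ 2) ^ 2 := by ring
  rw [e]
  generalize σ ^ 2 = q at h0 h1 ⊢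
  nlinarith [mul_nonneg (sub_nonneg.2 h2) (sub_nonneg.2 h3), mul_nonneg h0 (sub_nonneg.2 h1),
    mul_nonneg h0 (sub_nonneg.2 h3), mul_nonneg h0 (sub_nonneg.2 h2),
    mul_nonneg (sub_nonneg.2 h1) (sub_nonneg.2 h3), mul_nonneg (sub_nonneg.2 h1) (sub_nonneg.2 h2)]

theorem numG {σ ω : ℝ} (hs0 : 0 ≤ σ) (hs : σ ≤ 1 / 5) (h2 : 11 / 100 ≤ ω) (h3 : ω ≤ 36 / 100)
    (h4 : 2 * σ - σ ^ 2 - 7 / 150 ≤ ω) :
    27 / 100 ≤ 2334 / 1000 * ω - 42 / 10 * ω ^ 2 + 1876 / 1000 * σ ^ 2 - 392 / 100 * σ ^ 4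
      - 1008 / 100 * σ ^ 2 * ω + 683 / 1000 * (3 / 2 * ω - 7 * σ ^ 2) := by
  have h5 : 9 / 5 * σ ≤ ω + 7 / 150 := by nlinarith
  have h6 : 81 / 25 * σ ^ 2 ≤ (ω + 7 / 150) ^ 2 := by
    have := pow_le_pow_left₀ (by positivity) h5 2
    nlinarith
  have h7 : σ ^ 2 ≤ 1 / 25 := by nlinarith
  have h0 : 0 ≤ σ ^ 2 := sq_nonneg σ
  have e : σ ^ 4 = (σ ^ 2) ^ 2 := by ring
  rw [e]
  generalize σ ^ 2 = q at h0 h6 h7 ⊢
  have h8 : q * (3062 / 1000 + 1008 / 100 * ω) ≤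
      25 / 81 * (ω + 7 / 150) ^ 2 * (3062 / 1000 + 1008 / 100 * ω) :=
    mul_le_mul_of_nonneg_right (by linarith) (by linarith)
  have h9 : 392 / 100 * q ^ 2 ≤ 1568 / 10000 * q := by nlinarith
  have h10 : 27 / 100 ≤ 33585 / 10000 * ω - 42 / 10 * ω ^ 2 -
      25 / 81 * (ω + 7 / 150) ^ 2 * (3062 / 1000 + 1008 / 100 * ω) := by
    nlinarith [mul_nonneg (sub_nonneg.2 h2) (sub_nonneg.2 h3),
      mul_nonneg (mul_nonneg (sub_nonneg.2 h2) (sub_nonneg.2 h3)) (by linarith : (0 : ℝ) ≤ ω)]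
  nlinarith

/-- The geometry of a far outlier with a root at product `>= 4/5`. -/
theorem num_geo {r t a : ℝ} (h0 : 143 / 150 ≤ r) (h1 : r ≤ 1) (ht : 4 / 5 ≤ t)
    (ha : a = r - 2 * t + 1) (ha2 : 1 / 8 ≤ a) :
    11 / 100 ≤ r - t ^ 2 ∧ r - t ^ 2 ≤ 36 / 100 ∧ 2 * (1 - t) - (1 - t) ^ 2 - 7 / 150 ≤ r - t ^ 2 ∧
      0 ≤ 1 - t ∧ (1 - t) ^ 2 ≤ 1 / 25 := by
  have h2 : t ≤ (r + 7 / 8) / 2 := by linarith
  have h3 : t ^ 2 ≤ ((r + 7 / 8) / 2) ^ 2 := pow_le_pow_left₀ (by linarith) h2 2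
  refine ⟨by nlinarith, by nlinarith, by nlinarith, by linarith, by nlinarith⟩

open Classical in
/-- **Far outlier, first case.** -/
theorem far_near {I : Finset E} (hI : I ⊆ UE) {y f0 : E} (hf0 : f0 ∈ UE) (hf0I : f0 ∉ I)
    {T : E → ℝ} (hT0 : ∀ b ∈ I, -1 ≤ T b) (hT1 : ∀ b ∈ I, T b ≤ 1 / 2)
    (h0 : 143 / 150 ≤ ‖y‖ ^ 2) (h1 : ‖y‖ ^ 2 ≤ 1) (ht : 4 / 5 ≤ (inner ℝ y f0 : ℝ))
    (hfar : 1 / 8 ≤ ‖y - f0‖ ^ 2) :
    1 / 5 - 861 / 100000 * (((UE \ I).card : ℝ) - 1) ≤ rw' (3 / 4) I T y ∧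
      ((UE \ I).card = 1 → 27 / 100 ≤ rw' (3 / 4) I T y) := by
  have hn : ‖y - f0‖ ^ 2 = ‖y‖ ^ 2 - 2 * (inner ℝ y f0 : ℝ) + ‖f0‖ ^ 2 := norm_sub_sq_real y f0
  rw [AllO.hUEF.nrm f0 hf0] at hn
  obtain ⟨g1, g2, g3, g4, g5⟩ := num_geo h0 h1 ht (a := ‖y - f0‖ ^ 2) (by rw [hn]; ring) hfar
  have hσ : (inner ℝ y f0 : ℝ) = 1 - (1 - (inner ℝ y f0 : ℝ)) := by ring
  have hω : ‖y‖ ^ 2 - (inner ℝ y f0 : ℝ) ^ 2 = ‖y‖ ^ 2 - (1 - (1 - (inner ℝ y f0 : ℝ))) ^ 2 := by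
    ring
  constructor
  · have h := row_near hI hf0 hf0I hT0 hT1 (B := 0) (gg_sum _ I) hσ hω (by
      rw [add_zero]
      refine Finset.sum_le_sum fun f _ => ?_
      have := hh_mor hI hf0 hf0I (y := y) (f := f) hT0 hT1
      linarith)
    have h2 := numF g5 g1 g2
    linarith
  · intro hk
    have hall : ∀ f ∈ nb f0, f ∈ I := by
      intro f hf
      by_contra hc
      have m1 : f ∈ UE \ I := Finset.mem_sdiff.2 ⟨UMO.nb_UE hf, hc⟩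
      have m2 : f0 ∈ UE \ I := Finset.mem_sdiff.2 ⟨hf0, hf0I⟩
      have m3 := (Finset.card_le_one.1 hk.le) f m1 f0 m2
      rw [m3] at hf
      exact TSM.notin_nb hf0 hf
    have hb := TOFM.nb_bound hf0 y (κ := 1 / 2) (by norm_num) (by norm_num)
    have h := row_near hI hf0 hf0I hT0 hT1 (B := 683 / 1000 * ∑ f ∈ nb f0,
      max 0 ((inner ℝ y f : ℝ) - 1 / 2) ^ 2) (gg_sum _ I) hσ hω (by
      rw [Finset.mul_sum, ← Finset.sum_add_distrib]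
      refine Finset.sum_le_sum fun f hf => ?_
      have := hh_con (y := y) (f0 := f0) (hall f hf) (by
        rw [real_inner_comm]
        exact UMO.nb_ip hf) hT0 hT1
      have g := gg_nonneg (g := 861 / 100000) (by norm_num) I f
      linarith)
    rw [hk] at h
    have h2 := numG g4 (by linarith) g1 g2 g3
    generalize ∑ f ∈ nb f0, max 0 ((inner ℝ y f : ℝ) - 1 / 2) ^ 2 = X at hb h
    norm_num at hb h
    linarith

/-! ### Second case -/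

theorem hh_deep {I : Finset E} {y f : E}
    {T : E → ℝ} (hT0 : ∀ b ∈ I, -1 ≤ T b) (hT1 : ∀ b ∈ I, T b ≤ 1 / 2)
    (h1 : -(4 / 5) ≤ (inner ℝ y f : ℝ)) (h2 : (inner ℝ y f : ℝ) ≤ 4 / 5) :
    132 / 100 * (inner ℝ y f : ℝ) ^ 2 * ((inner ℝ y f : ℝ) ^ 2 - 22 / 100)
      * ((inner ℝ y f : ℝ) ^ 2 - 45 / 100)
      - gg (675 / 10000) I f - gg (675 / 10000) I (-f) ≤ hh I T y f + hh I T y (-f) := by
  have hmax : ∀ t : ℝ, t ^ 2 ≤ 16 / 25 →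
      132 / 100 * t ^ 2 * (t ^ 2 - 22 / 100) * (t ^ 2 - 45 / 100) ≤ 675 / 10000 := by
    intro t ht
    have h0 : 0 ≤ t ^ 2 := sq_nonneg t
    generalize t ^ 2 = x at ht h0 ⊢
    rcases le_total x (45 / 100) with h | h
    · nlinarith [mul_nonneg h0 (sub_nonneg.2 h), mul_nonneg (mul_nonneg h0 (sub_nonneg.2 h)) h0,
        sq_nonneg (x - 22 / 100)]
    · nlinarith [mul_nonneg (sub_nonneg.2 h) (sub_nonneg.2 ht),
        mul_nonneg (mul_nonneg (sub_nonneg.2 h) (sub_nonneg.2 ht)) h0]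
  have hsq : (inner ℝ y f : ℝ) ^ 2 ≤ 16 / 25 := by nlinarith
  have n1 := hh_nonneg hT0 hT1 y f
  have n2 := hh_nonneg hT0 hT1 y (-f)
  have g1 := gg_nonneg (g := 675 / 10000) (by norm_num) I f
  have g2 := gg_nonneg (g := 675 / 10000) (by norm_num) I (-f)
  have h0 := hmax (inner ℝ y f) hsq
  by_cases h : f ∈ I
  · by_cases h' : -f ∈ I
    · have h4 := TOBM.deep_pair (t := (inner ℝ y f : ℝ)) (hT0 f h) (hT1 f h) (hT0 _ h') (hT1 _ h')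
        h1 h2
      unfold hh gg
      rw [if_pos h, if_pos h', if_pos h, if_pos h', inner_neg_right, sub_neg_eq_add]
      linarith
    · have e : gg (675 / 10000) I (-f) = 675 / 10000 := by
        unfold gg
        rw [if_neg h']
      linarith
  · have e : gg (675 / 10000) I f = 675 / 10000 := by
      unfold gg
      rw [if_neg h]
    linarith

theorem UE_neg (h : E → ℝ) : ∑ f ∈ UE, h (-f) = ∑ f ∈ UE, h f := by
  refine sum_nbij' (fun f => -f) (fun f => -f) ?_ ?_ ?_ ?_ ?_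
  · intro f hf
    exact AllO.hUEF.neg f hf
  · intro f hf
    exact AllO.hUEF.neg f hf
  · intro f _
    exact neg_neg f
  · intro f _
    exact neg_neg f
  · intro f _
    rfl

open Classical in
/-- **Far outlier, second case.** -/
theorem far_deep {I : Finset E} (hI : I ⊆ UE) {y : E}
    {T : E → ℝ} (hT0 : ∀ b ∈ I, -1 ≤ T b) (hT1 : ∀ b ∈ I, T b ≤ 1 / 2)
    (h0 : 143 / 150 ≤ ‖y‖ ^ 2) (h1 : ‖y‖ ^ 2 ≤ 1) (ht : ∀ f ∈ UE, (inner ℝ y f : ℝ) ≤ 4 / 5) :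
    39 / 100 - 675 / 10000 * ((UE \ I).card : ℝ) ≤ rw' (3 / 4) I T y := by
  have ht' : ∀ f ∈ UE, -(4 / 5) ≤ (inner ℝ y f : ℝ) := by
    intro f hf
    have := ht (-f) (AllO.hUEF.neg f hf)
    rw [inner_neg_right] at this
    linarith
  have hs := Finset.sum_le_sum fun f hf => hh_deep (I := I) (y := y) (f := f) hT0 hT1 (ht' f hf)
    (ht f hf)
  rw [Finset.sum_add_distrib, UE_neg (hh I T y), hh_sum hI, Finset.sum_sub_distrib,
    Finset.sum_sub_distrib, UE_neg (gg (675 / 10000) I), gg_sum] at hs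
  have hm : ∑ f ∈ UE, (132 / 100 * (inner ℝ y f : ℝ) ^ 2 * ((inner ℝ y f : ℝ) ^ 2 - 22 / 100)
      * ((inner ℝ y f : ℝ) ^ 2 - 45 / 100)) =
      132 / 100 * (99 / 1000 * (30 * ‖y‖ ^ 2) - 67 / 100 * (9 * ‖y‖ ^ 4) + 15 / 4 * ‖y‖ ^ 6) := by
    rw [← UMO.m2 y, ← UMO.m4 y, ← L1M.m6 y, Finset.mul_sum, Finset.mul_sum,
      ← Finset.sum_sub_distrib, ← Finset.sum_add_distrib, Finset.mul_sum]
    exact Finset.sum_congr rfl fun f _ => by ring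
  rw [hm] at hs
  have e4 : ‖y‖ ^ 4 = (‖y‖ ^ 2) ^ 2 := by ring
  have e6 : ‖y‖ ^ 6 = (‖y‖ ^ 2) ^ 3 := by ring
  rw [e4, e6] at hs
  generalize ((UE \ I).card : ℝ) = k at hs ⊢
  generalize rw' (3 / 4) I T y = R at hs ⊢
  generalize ‖y‖ ^ 2 = r at h0 h1 hs
  nlinarith [mul_nonneg (sub_nonneg.2 h0) (sub_nonneg.2 h1),
    mul_nonneg (mul_nonneg (sub_nonneg.2 h0) (sub_nonneg.2 h1)) (sub_nonneg.2 h0),
    mul_nonneg (sub_nonneg.2 h0) (sub_nonneg.2 h0)]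

end TODM

end Pool.Agent.Lib.MP_f1379f_gt.FV
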