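import Pool.Agent.Lib.MP_f1379f_gt.FV.SpecX
import Pool.Agent.Lib.MP_f1379f_gt.FV.TL2

/-!
# MP_f1379f_gt, block X, module XFC: fibres over the walls
-/

set_option autoImplicit false

namespace Pool.Agent.Lib.MP_f1379f_gt.FV

open MeasureTheory

namespace XFCM

open OTFM INFM

theorem muW_lintE (hKCO : SpecKCO) (K : Set E) (hK : MeasurableSet K) (F : E → ENNReal)
    (hF : Measurable F) :
    ∫⁻ y in K, F y ∂muW = ∫⁻ y, (K ∩ WW).indicator
      (fun y => ENNReal.ofReal (Real.exp (-mx id y) / 40320) * F y) y := by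
  have h1 : Measurable (fun y : E => ENNReal.ofReal (Real.exp (-mx id y) / 40320)) := by
    have h2 : Continuous (fun y : E => Real.exp (-mx id y) / 40320) :=
      (Real.continuous_exp.comp (hKCO.mxc id).neg).div_const _
    exact ENNReal.measurable_ofReal.comp h2.measurable
  unfold muW
  rw [setLIntegral_withDensity_eq_setLIntegral_mul _ h1 hF hK, Measure.restrict_restrict hK,
    lintegral_indicator (hK.inter hKCO.wmeas)]
  rfl

theorem ind_measE (hKCO : SpecKCO) (K : Set E) (hK : MeasurableSet K) (F : E → ENNReal)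
    (hF : Measurable F) :
    Measurable ((K ∩ WW).indicator (fun y => ENNReal.ofReal (Real.exp (-mx id y) / 40320) *
      F y)) := by
  have h2 : Continuous (fun y : E => Real.exp (-mx id y) / 40320) :=
    (Real.continuous_exp.comp (hKCO.mxc id).neg).div_const _
  exact ((ENNReal.measurable_ofReal.comp h2.measurable).mul hF).indicator (hK.inter hKCO.wmeas)

/-- The integrand of `Th`. -/
noncomputable def th (z s : ℝ) : ENNReal :=
  if 2 / 3 < s ^ 2 * z then ENNReal.ofReal (s ^ 6) / ENNReal.ofReal (1 - s ^ 2 * z) else 0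

theorem th_meas : Measurable (fun p : ℝ × ℝ => th p.1 p.2) := by
  unfold th
  refine Measurable.ite (measurableSet_lt measurable_const (by fun_prop)) ?_ measurable_const
  refine Measurable.div ?_ ?_
  · exact ENNReal.measurable_ofReal.comp (by fun_prop)
  · exact ENNReal.measurable_ofReal.comp (by fun_prop)

theorem sub_int (z : ℝ) : ∫⁻ g in Set.Ioo (0 : ℝ) (1 / 2), th z (1 - 2 * g) =
    ENNReal.ofReal (1 / 2) * ∫⁻ s in Set.Ioo (0 : ℝ) 1, th z s := by
  rw [← lintegral_indicator measurableSet_Ioo, ← lintegral_indicator measurableSet_Ioo]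
  set f : ℝ → ENNReal := (Set.Ioo (0 : ℝ) 1).indicator (fun s => th z s) with hf
  have h1 : (Set.Ioo (0 : ℝ) (1 / 2)).indicator (fun g => th z (1 - 2 * g)) =
      fun g => f (1 - 2 * g) := by
    funext g
    rw [hf]
    by_cases hg : g ∈ Set.Ioo (0 : ℝ) (1 / 2)
    · rw [Set.indicator_of_mem hg, Set.indicator_of_mem]
      exact ⟨by linarith [hg.2], by linarith [hg.1]⟩
    · rw [Set.indicator_of_notMem hg, Set.indicator_of_notMem]
      intro h
      exact hg ⟨by linarith [h.2], by linarith [h.1]⟩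
  have h3 := FIBM.scale (fun s : ℝ => f (1 - s)) 2 (by norm_num)
  have h4 : ∫⁻ s : ℝ, f (1 - s) = ∫⁻ s : ℝ, f s := lintegral_sub_left_eq_self f 1
  rw [h4] at h3
  rw [h1, h3, ← mul_assoc, ← ENNReal.ofReal_mul (by norm_num)]
  norm_num

/-- The main inequality for one neighbour. -/
theorem main (hUEF : SpecUEF) (hKCO : SpecKCO) (hPIN : SpecPIN)
    (a : E) (ha : a ∈ UE) (e : E) (he : e ∈ nb a) (Φ : E → ENNReal) (hΦ : Φ = fun y =>
      ENNReal.ofReal ((inner ℝ a y : ℝ) ^ 3) /
        ENNReal.ofReal (2 * (inner ℝ a y : ℝ) ^ 2 - ‖y‖ ^ 2)) (hΦm : Measurable Φ) :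
    ∫⁻ y, {y : E | g2 a y = (inner ℝ a y : ℝ) - inner ℝ e y}.indicator
      ((Kc a ∩ WW).indicator (fun y => ENNReal.ofReal (Real.exp (-mx id y) / 40320) *
        Φ y)) y ≤
    ENNReal.ofReal (1 / Real.sqrt 3) * ∫⁻ x in F6o e a, Th (‖x‖ ^ 2) := by
  obtain ⟨heU, hea⟩ := (NUTM.mem_nb a e).1 he
  have he1 := hUEF.nrm e heU
  have ha1 := hUEF.nrm a ha
  have hae : (inner ℝ a e : ℝ) = 1 / 2 := by rw [real_inner_comm]; exact hea
  set H0 : E → ENNReal := (Kc a ∩ WW).indicator
      (fun y => ENNReal.ofReal (Real.exp (-mx id y) / 40320) * Φ y) with hH0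
  have hH0m : Measurable H0 := ind_measE hKCO _ (hKCO.meas a) Φ hΦm
  set B : Set E := {y : E | g2 a y = (inner ℝ a y : ℝ) - inner ℝ e y} with hB
  have hBm : MeasurableSet B := by
    have : IsClosed B := isClosed_eq (hKCO.g2c a) (by fun_prop)
    exact this.measurableSet
  set H : E → ENNReal := B.indicator H0 with hH
  have hHm : Measurable H := hH0m.indicator hBm
  rw [pin' hPIN e a he1 ha1 hae H hHm]
  set Y : ℝ → ℝ → E := fun α β =>
    (4 / 3 * (α - (α - β) / 2)) • a + (4 / 3 * ((α - β) - α / 2)) • e with hY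
  have hsub : ∀ p : ℝ, ∫⁻ q : ℝ, ∫⁻ x : Sp e a,
      H ((4 / 3 * (p - q / 2)) • a + (4 / 3 * (q - p / 2)) • e + (x : E)) =
      ∫⁻ β : ℝ, ∫⁻ x : Sp e a, H (Y p β + (x : E)) := by
    intro p
    exact (lintegral_sub_left_eq_self (fun q : ℝ => ∫⁻ x : Sp e a,
      H ((4 / 3 * (p - q / 2)) • a + (4 / 3 * (q - p / 2)) • e + (x : E))) p).symm
  simp_rw [hsub]
  -- coordinates
  have hca : ∀ (α β : ℝ) (x : Sp e a), (inner ℝ a (Y α β + (x : E)) : ℝ) = α := by
    intro α β x
    have hx := (NUTM.mem_Sp e a x).1 x.2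
    rw [hY]
    simp only
    rw [FIBM.geo_e a e x ha1 hae hx.2]
    ring
  have hce : ∀ (α β : ℝ) (x : Sp e a), (inner ℝ e (Y α β + (x : E)) : ℝ) = α - β := by
    intro α β x
    have hx := (NUTM.mem_Sp e a x).1 x.2
    rw [hY]
    simp only
    rw [FIBM.geo_a a e x he1 hae hx.1]
    ring
  have hcn : ∀ (α β : ℝ) (x : Sp e a), ‖Y α β + (x : E)‖ ^ 2 =
      4 / 3 * (α ^ 2 - α * β + β ^ 2) + ‖(x : E)‖ ^ 2 := by
    intro α β x
    have hx := (NUTM.mem_Sp e a x).1 x.2
    rw [hY]
    simp only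
    rw [FIBM.geo_n a e x ha1 he1 hae hx.2 hx.1]
    ring
  have hcb : ∀ (b : E) (α β : ℝ) (x : Sp e a), (inner ℝ b (Y α β + (x : E)) : ℝ) =
      2 / 3 * (α + β) * (inner ℝ b a : ℝ) + 2 / 3 * (α - 2 * β) * (inner ℝ b e : ℝ) +
        (inner ℝ b (x : E) : ℝ) := by
    intro b α β x
    rw [hY]
    simp only
    rw [FIBM.geo_b b a e x]
    ring
  -- the fibre function, without the factor `(1-2g)^6`
  set ps : ℝ → ℝ → ENNReal := fun z s =>
    if 2 / 3 < s ^ 2 * z then (ENNReal.ofReal (1 - s ^ 2 * z))⁻¹ else 0 with hps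
  set Ψ : ℝ → Sp e a → ENNReal := fun g => (F6o e a).indicator
    (fun x => ps (1 / 3 + ‖x‖ ^ 2) (1 - 2 * g)) with hΨ
  have hmain := FIBM.fib e a (hPIN.scl e a he1 ha1 hea) (-2) H hHm Y ?_ Ψ ?_ ?_
  · have h1 : ENNReal.ofReal (1 / Real.sqrt 3) =
        ENNReal.ofReal (2 / Real.sqrt 3) * ENNReal.ofReal (1 / 2) := by
      rw [← ENNReal.ofReal_mul (by positivity)]
      congr 1
      ring
    rw [h1, mul_assoc]
    apply mul_le_mul_right
    refine hmain.trans ?_
    rw [← lintegral_const_mul' _ _ ENNReal.ofReal_ne_top,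
      ← lintegral_indicator (NUTM.F6o_meas e a)]
    apply lintegral_mono
    intro x
    simp only
    have hset : {g : ℝ | 0 < g ∧ 0 < 1 + -2 * g} = Set.Ioo 0 (1 / 2) := by
      ext g
      simp only [Set.mem_ofPred_eq, Set.mem_Ioo]
      constructor
      · rintro ⟨h1, h2⟩
        exact ⟨h1, by linarith⟩
      · rintro ⟨h1, h2⟩
        exact ⟨h1, by linarith⟩
    rw [hset]
    by_cases hx : x ∈ F6o e a
    · rw [Set.indicator_of_mem hx]
      have h2 : Th (‖x‖ ^ 2) = ∫⁻ s in Set.Ioo (0 : ℝ) 1, th (1 / 3 + ‖x‖ ^ 2) s := rfl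
      rw [h2, ← sub_int]
      refine le_of_eq (setLIntegral_congr_fun measurableSet_Ioo ?_)
      intro g hg
      simp only [hΨ, Set.indicator_of_mem hx, hps, th]
      have h5 : (1 + -2 * g) = 1 - 2 * g := by ring
      rw [h5]
      split_ifs with h6
      · exact (div_eq_mul_inv _ _).symm
      · rw [mul_zero]
    · rw [Set.indicator_of_notMem hx]
      have h1 : ∀ g : ℝ, Ψ g x = 0 := fun g => by simp only [hΨ, Set.indicator_of_notMem hx]
      simp only [h1, mul_zero, lintegral_zero, le_refl]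
  · -- support
    intro α β x hne
    have hmemB : Y α β + (x : E) ∈ B := by
      by_contra hcon
      exact hne (Set.indicator_of_notMem hcon _)
    have hmem : Y α β + (x : E) ∈ Kc a ∩ WW := by
      by_contra hcon
      apply hne
      rw [hH, Set.indicator_of_mem hmemB]
      exact Set.indicator_of_notMem hcon _
    obtain ⟨hK, hW⟩ := hmem
    obtain ⟨h1, h2⟩ := hKCO.low a ha _ hK
    rw [hca] at h1 h2
    have hg2 : g2 a (Y α β + (x : E)) = β := by
      have h3 : g2 a (Y α β + (x : E)) =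
        (inner ℝ a (Y α β + (x : E)) : ℝ) - inner ℝ e (Y α β + (x : E)) := hmemB
      rw [h3, hca, hce]; ring
    have h3 := hKCO.g2ge a ha _ hK
    rw [hg2] at h3
    have hsubU : a - e ∈ nb a := by
      rw [NUTM.mem_nb]
      refine ⟨hUEF.sub a ha e heU hae, ?_⟩
      rw [inner_sub_left, hea, real_inner_self_eq_norm_sq, ha1]; norm_num
    have h6 := hKCO.g2le a ha _ hsubU (Y α β + (x : E))
    rw [hg2, inner_sub_left, hca, hce] at h6
    have h4 : 0 < α := by
      rcases h1.lt_or_eq with h | h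
      · exact h
      · exfalso
        have h5 : α ^ 2 = 0 := by rw [← h]; ring
        rw [h5] at h2
        simp only [WW, Set.mem_ofPred_eq] at hW
        nlinarith [sq_nonneg (mx id (Y α β + (x : E)))]
    exact ⟨h4, h3, by linarith⟩
  · -- measurability
    have h1 : Measurable (fun p : ℝ × Sp e a => ps (1 / 3 + ‖p.2‖ ^ 2) (1 - 2 * p.1)) := by
      simp only [hps]
      refine Measurable.ite (measurableSet_lt measurable_const (by fun_prop)) ?_
        measurable_const
      exact (ENNReal.measurable_ofReal.comp (by fun_prop)).inv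
    have h2 : (fun p : ℝ × Sp e a => Ψ p.1 p.2) =
        (Prod.snd ⁻¹' F6o e a).indicator (fun p : ℝ × Sp e a =>
          ps (1 / 3 + ‖p.2‖ ^ 2) (1 - 2 * p.1)) := by
      funext p
      simp only [hΨ]
      by_cases hp : p.2 ∈ F6o e a
      · rw [Set.indicator_of_mem hp, Set.indicator_of_mem (by exact hp)]
      · rw [Set.indicator_of_notMem hp, Set.indicator_of_notMem (by exact hp)]
    rw [h2]
    exact h1.indicator (measurable_snd (NUTM.F6o_meas e a))
  · -- the pointwise bound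
    intro α g hα hg hg1 x
    set c : ℝ := α * (1 + -2 * g) with hc
    have hc' : c = α - 2 * (α * g) := by rw [hc]; ring
    have hc0 : 0 < c := mul_pos hα hg1
    set y : E := Y α (α * g) + ((c • x : Sp e a) : E) with hy
    have hcx : ((c • x : Sp e a) : E) = c • (x : E) := rfl
    have hcxn : ‖((c • x : Sp e a) : E)‖ ^ 2 = c ^ 2 * ‖x‖ ^ 2 := by
      rw [hcx, norm_smul, mul_pow, Real.norm_eq_abs, sq_abs]
      rfl
    by_cases hmemB : y ∈ B
    · have hHB : H y = H0 y := Set.indicator_of_mem hmemB _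
      rw [hHB]
      by_cases hmem : y ∈ Kc a ∩ WW
      · have hHy : H0 y = ENNReal.ofReal (Real.exp (-mx id y) / 40320) * Φ y :=
          Set.indicator_of_mem hmem _
        rw [hHy]
        obtain ⟨hK, hW⟩ := hmem
        have hmx : mx id y = α := by rw [hKCO.mxe a ha y hK, hy, hca]
        have hg2 : g2 a y = α * g := by
          have h3 : g2 a y = (inner ℝ a y : ℝ) - inner ℝ e y := hmemB
          rw [h3, hy, hca, hce]; ring
        have hay : (inner ℝ a y : ℝ) = α := by rw [hy, hca]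
        have hny : ‖y‖ ^ 2 = α ^ 2 * (1 + (1 - 2 * g) ^ 2 * (1 / 3 + ‖x‖ ^ 2)) := by
          rw [hy, hcn, hcxn, hc]
          ring
        have hgs : 2 / 3 < (1 - 2 * g) ^ 2 * (1 / 3 + ‖x‖ ^ 2) := by
          have hW' : 5 * mx id y ^ 2 < 3 * ‖y‖ ^ 2 := hW
          rw [hmx, hny] at hW'
          have h1 : α ^ 2 * (2 / 3) < α ^ 2 * ((1 - 2 * g) ^ 2 * (1 / 3 + ‖x‖ ^ 2)) := by
            linarith
          exact lt_of_mul_lt_mul_left h1 (by positivity)
        have hxF : x ∈ F6o e a := by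
          constructor
          · intro b hb hbe hba
            have hbn : b ∈ nb a := (NUTM.mem_nb a b).2 ⟨hb, hba⟩
            have h1 := hKCO.g2le a ha b hbn y
            rw [hay, hg2, hy, hcb, hbe, hba, hcx, inner_smul_right] at h1
            have h3 : c * (inner ℝ b (x : E) : ℝ) ≤ c * (1 / 3) := by
              rw [hc'] at h1 ⊢
              linarith
            exact le_of_mul_le_mul_left h3 hc0
          · have h1 : (1 - 2 * g) ^ 2 ≤ 1 := by nlinarith
            have h2 : (0 : ℝ) ≤ 1 / 3 + ‖x‖ ^ 2 := by positivity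
            have h3 : (1 - 2 * g) ^ 2 * (1 / 3 + ‖x‖ ^ 2) ≤ 1 * (1 / 3 + ‖x‖ ^ 2) :=
              mul_le_mul_of_nonneg_right h1 h2
            linarith
        have hΨx : Ψ g x = (ENNReal.ofReal (1 - (1 - 2 * g) ^ 2 * (1 / 3 + ‖x‖ ^ 2)))⁻¹ := by
          simp only [hΨ, Set.indicator_of_mem hxF, hps]
          rw [if_pos hgs]
        have hΦy : Φ y = ENNReal.ofReal α *
            (ENNReal.ofReal (1 - (1 - 2 * g) ^ 2 * (1 / 3 + ‖x‖ ^ 2)))⁻¹ := by
          rw [hΦ]
          simp only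
          rw [hay, hny]
          have e1 : 2 * α ^ 2 - α ^ 2 * (1 + (1 - 2 * g) ^ 2 * (1 / 3 + ‖x‖ ^ 2)) =
              α ^ 2 * (1 - (1 - 2 * g) ^ 2 * (1 / 3 + ‖x‖ ^ 2)) := by ring
          have e2 : α ^ 3 = α ^ 2 * α := by ring
          rw [e1, e2, ENNReal.ofReal_mul (by positivity), ENNReal.ofReal_mul (by positivity),
            ENNReal.mul_div_mul_left _ _ (by
              rw [Ne, ENNReal.ofReal_eq_zero, not_le]
              positivity) ENNReal.ofReal_ne_top, div_eq_mul_inv]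
        rw [hΨx, hΦy, hmx, ← mul_assoc, ← ENNReal.ofReal_mul (by positivity)]
        refine le_of_eq ?_
        congr 2
        ring
      · have hHy : H0 y = 0 := Set.indicator_of_notMem hmem _
        rw [hHy]
        exact zero_le
    · have hHy : H y = 0 := Set.indicator_of_notMem hmemB _
      rw [hHy]
      exact zero_le

end XFCM

open XFCM in
/-- **XFC.** -/
theorem specXFC (hUEF : SpecUEF) (hKCO : SpecKCO) (hPIN : SpecPIN) : SpecXFC := by
  intro a ha
  set Φ : E → ENNReal := fun y => ENNReal.ofReal ((inner ℝ a y : ℝ) ^ 3) /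
        ENNReal.ofReal (2 * (inner ℝ a y : ℝ) ^ 2 - ‖y‖ ^ 2) with hΦ
  have hΦm : Measurable Φ := by
    rw [hΦ]
    refine Measurable.div ?_ ?_
    · exact ENNReal.measurable_ofReal.comp (by fun_prop)
    · exact ENNReal.measurable_ofReal.comp (by fun_prop)
  rw [muW_lintE hKCO _ (hKCO.meas a) Φ hΦm]
  set H0 : E → ENNReal := (Kc a ∩ WW).indicator
      (fun y => ENNReal.ofReal (Real.exp (-mx id y) / 40320) * Φ y) with hH0
  have hH0m : Measurable H0 := ind_measE hKCO _ (hKCO.meas a) Φ hΦm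
  have hBm : ∀ e : E, MeasurableSet {y : E | g2 a y = (inner ℝ a y : ℝ) - inner ℝ e y} := by
    intro e
    have : IsClosed {y : E | g2 a y = (inner ℝ a y : ℝ) - inner ℝ e y} :=
      isClosed_eq (hKCO.g2c a) (by fun_prop)
    exact this.measurableSet
  have hle : ∀ y, H0 y ≤ ∑ e ∈ nb a,
      {y : E | g2 a y = (inner ℝ a y : ℝ) - inner ℝ e y}.indicator H0 y := by
    intro y
    obtain ⟨e, he, hge⟩ := hKCO.g2at a ha y
    have h1 : H0 y = {y : E | g2 a y = (inner ℝ a y : ℝ) - inner ℝ e y}.indicator H0 y :=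
      (Set.indicator_of_mem (show y ∈ {y : E | g2 a y = (inner ℝ a y : ℝ) - inner ℝ e y} from
        hge) _).symm
    nth_rewrite 1 [h1]
    exact Finset.single_le_sum
      (f := fun e => {y : E | g2 a y = (inner ℝ a y : ℝ) - inner ℝ e y}.indicator H0 y)
      (fun e _ => zero_le) he
  refine (lintegral_mono hle).trans ?_
  rw [lintegral_finsetSum _ (fun e _ => hH0m.indicator (hBm e))]
  apply Finset.sum_le_sum
  intro e he
  exact main hUEF hKCO hPIN a ha e he Φ rfl hΦm

end Pool.Agent.Lib.MP_f1379f_gt.FV
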